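import Mathlib
import Pool.Agent.Lib.MP_df705a_gt.SV.St
import Pool.Agent.Lib.MP_df705a_gt.CG.St

section

/-!
# Chains of a group: boundary, cone, prism operator

`C G k` is the space of the real chains on the simplices with `k` vertices (so `C G 0` is the
augmentation).
-/

noncomputable section

namespace Pool.Agent.Lib.MP_df705a_gt.Comb

variable {G : Type*}

/-- Real chains on the simplices with `k` vertices. -/
abbrev C (G : Type*) (k : ℕ) : Type _ := (Fin k → G) →₀ ℝ

/-- The boundary of a simplex. -/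
def dS {k : ℕ} (x : Fin (k + 1) → G) : C G k :=
  ∑ i : Fin (k + 1), Finsupp.single (fun j => x (i.succAbove j)) ((-1 : ℝ) ^ (i : ℕ))

/-- The boundary. -/
def d {k : ℕ} : C G (k + 1) →ₗ[ℝ] C G k := Finsupp.linearCombination ℝ dS

/-- The cone with vertex `a`. -/
def cone {k : ℕ} (a : G) : C G k →ₗ[ℝ] C G (k + 1) :=
  Finsupp.linearCombination ℝ fun x => Finsupp.single (Fin.cons a x) 1

/-- The chain map induced by a map. -/
def mp {k : ℕ} (f : G → G) : C G k →ₗ[ℝ] C G k :=
  Finsupp.linearCombination ℝ fun x => Finsupp.single (fun j => f (x j)) 1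

@[simp] lemma d_single {k : ℕ} (x : Fin (k + 1) → G) (t : ℝ) :
    d (Finsupp.single x t) = t • dS x := by simp [d]

@[simp] lemma cone_single {k : ℕ} (a : G) (x : Fin k → G) (t : ℝ) :
    cone a (Finsupp.single x t) = Finsupp.single (Fin.cons a x : Fin (k + 1) → G) t := by
  simp [cone]

@[simp] lemma mp_single {k : ℕ} (f : G → G) (x : Fin k → G) (t : ℝ) :
    mp f (Finsupp.single x t) = Finsupp.single (fun j => f (x j)) t := by simp [mp]

/-- Two linear maps that agree on the simplices `(a, x)` are equal. -/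
lemma ext_cons {k : ℕ} {E : Type*} [AddCommMonoid E] [Module ℝ E] {u v : C G (k + 1) →ₗ[ℝ] E}
    (h : ∀ (a : G) (w : C G k), u (cone a w) = v (cone a w)) (w : C G (k + 1)) : u w = v w := by
  have : u = v := by
    refine Finsupp.lhom_ext fun x t => ?_
    have := h (x 0) (Finsupp.single (Fin.tail x) t)
    rwa [cone_single, Fin.cons_self_tail] at this
  rw [this]

lemma d_cone {k : ℕ} (a : G) (w : C G (k + 1)) : d (cone a w) = w - cone a (d w) := by
  induction w using Finsupp.induction_linear with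
  | zero => simp
  | add f g hf hg => simp only [map_add, hf, hg]; abel
  | single x t =>
    rw [cone_single, d_single, d_single, dS, Fin.sum_univ_succ]
    simp only [Fin.val_zero, pow_zero, smul_add, dS, map_smul, map_sum, cone_single]
    have h0 : (fun j : Fin (k + 1) => (Fin.cons a x : Fin (k + 2) → G) ((0 : Fin (k + 2)).succAbove j)) = x := by
      funext j; simp
    rw [h0, Finsupp.smul_single, smul_eq_mul, mul_one, sub_eq_add_neg, ← smul_neg,
      ← Finset.sum_neg_distrib]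
    congr 2
    refine Finset.sum_congr rfl fun i _ => ?_
    have h1 : (fun j : Fin (k + 1) => (Fin.cons a x : Fin (k + 2) → G) (i.succ.succAbove j)) =
        (Fin.cons a (fun j => x (i.succAbove j)) : Fin (k + 1) → G) := by
      funext j
      refine Fin.cases ?_ (fun j => ?_) j
      · simp
      · simp
    rw [h1, ← Finsupp.single_neg]
    congr 1
    rw [Fin.val_succ, pow_succ]; ring

lemma d_cone_zero (a : G) (w : C G 0) : d (cone a w) = w := by
  induction w using Finsupp.induction_linear with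
  | zero => simp
  | add f g hf hg => simp only [map_add, hf, hg]
  | single x t =>
    rw [cone_single, d_single, dS]
    rw [Fin.sum_univ_succ, Fin.sum_univ_zero, add_zero, Fin.val_zero, pow_zero,
      Finsupp.smul_single, smul_eq_mul, mul_one]
    congr 1

lemma d_d {k : ℕ} (w : C G (k + 2)) : d (d w) = 0 := by
  induction k with
  | zero =>
    refine ext_cons (u := d ∘ₗ d) (v := 0) (fun a w => ?_) w
    simp only [LinearMap.comp_apply, LinearMap.zero_apply]
    rw [d_cone, map_sub, d_cone_zero, sub_self]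
  | succ k ih =>
    refine ext_cons (u := d ∘ₗ d) (v := 0) (fun a w => ?_) w
    simp only [LinearMap.comp_apply, LinearMap.zero_apply]
    rw [d_cone, map_sub, d_cone, ih, map_zero, sub_zero, sub_self]

lemma mp_cone {k : ℕ} (f : G → G) (a : G) (w : C G k) :
    mp f (cone a w) = cone (f a) (mp f w) := by
  induction w using Finsupp.induction_linear with
  | zero => simp
  | add g h hg hh => simp only [map_add, hg, hh]
  | single x t =>
    rw [cone_single, mp_single, mp_single, cone_single]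
    congr 1
    funext j
    refine Fin.cases ?_ (fun j => ?_) j <;> simp

lemma mp_zero_deg (f : G → G) (w : C G 0) : mp f w = w := by
  induction w using Finsupp.induction_linear with
  | zero => simp
  | add g h hg hh => simp only [map_add, hg, hh]
  | single x t =>
    rw [mp_single]; congr 1; funext j; exact j.elim0

lemma d_mp {k : ℕ} (f : G → G) (w : C G (k + 1)) : d (mp f w) = mp f (d w) := by
  induction w using Finsupp.induction_linear with
  | zero => simp
  | add g h hg hh => simp only [map_add, hg, hh]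
  | single x t => simp [dS]

lemma mp_mp {k : ℕ} (f f' : G → G) (w : C G k) : mp f (mp f' w) = mp (fun g => f (f' g)) w := by
  induction w using Finsupp.induction_linear with
  | zero => simp
  | add g h hg hh => simp only [map_add, hg, hh]
  | single x t => simp

lemma mp_id {k : ℕ} (w : C G k) : mp (fun g => g) w = w := by
  induction w using Finsupp.induction_linear with
  | zero => simp
  | add g h hg hh => simp only [map_add, hg, hh]
  | single x t => simp

/-- The prism operator between the maps `f` and `f'`. -/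
def prism (f f' : G → G) : (k : ℕ) → (C G k →ₗ[ℝ] C G (k + 1))
  | 0 => 0
  | k + 1 => Finsupp.linearCombination ℝ fun x =>
      cone (f (x 0)) (Finsupp.single (fun j => f' (x j)) 1 -
        prism f f' k (Finsupp.single (Fin.tail x) 1))

lemma prism_cone (f f' : G → G) {k : ℕ} (a : G) (w : C G k) :
    prism f f' (k + 1) (cone a w) = cone (f a) (mp f' (cone a w) - prism f f' k w) := by
  induction w using Finsupp.induction_linear with
  | zero => simp
  | add g h hg hh =>
    simp only [map_add, hg, hh, map_sub]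
    abel
  | single x t =>
    rw [cone_single, prism, Finsupp.linearCombination_single, mp_single, Fin.cons_zero,
      Fin.tail_cons, ← map_smul, smul_sub, ← map_smul, Finsupp.smul_single, Finsupp.smul_single,
      smul_eq_mul, mul_one]

lemma d_prism (f f' : G → G) {k : ℕ} (w : C G (k + 1)) :
    d (prism f f' (k + 1) w) = mp f' w - mp f w - prism f f' k (d w) := by
  induction k with
  | zero =>
    refine ext_cons (u := d ∘ₗ prism f f' 1) (v := mp f' - mp f - prism f f' 0 ∘ₗ d)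
      (fun a w => ?_) w
    simp only [LinearMap.comp_apply, LinearMap.sub_apply]
    rw [prism_cone, d_cone, map_sub d, d_mp, d_cone_zero, mp_zero_deg, mp_cone f]
    simp [prism, mp_zero_deg]
  | succ k ih =>
    refine ext_cons (u := d ∘ₗ prism f f' (k + 2)) (v := mp f' - mp f - prism f f' (k + 1) ∘ₗ d)
      (fun a w => ?_) w
    simp only [LinearMap.comp_apply, LinearMap.sub_apply]
    rw [prism_cone, d_cone, map_sub d, d_mp, d_cone, ih, map_sub (prism f f' (k + 1)), prism_cone,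
      mp_cone f a w, map_sub (mp f')]
    simp only [map_sub]
    abel

end Pool.Agent.Lib.MP_df705a_gt.Comb
end
end

section

/-!
# Chains with small simplices, prism operators of paths
-/

set_option linter.unusedSectionVars false

noncomputable section

namespace Pool.Agent.Lib.MP_df705a_gt.CG

open Pool.Agent.Lib.MP_df705a_gt.Comb (C d dS cone mp prism d_cone d_mp d_prism mp_id mp_single
  cone_single)
open Pool.Agent.Lib.MP_df705a_gt.SVS (IsLength)

variable {G : Type*} [Group G]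

/-- The simplices of the chain `w` have edges of length at most `R`. -/
def RC (ℓ : G → ℝ) (R : ℝ) {k : ℕ} (w : C G k) : Prop :=
  ∀ x, w x ≠ 0 → ∀ i j, ℓ ((x i)⁻¹ * x j) ≤ R

section Rips

variable {ℓ : G → ℝ} {R : ℝ} {k j : ℕ}

lemma RC.zero : RC ℓ R (0 : C G k) := fun _ h => absurd rfl h

lemma RC.add {w w' : C G k} (h : RC ℓ R w) (h' : RC ℓ R w') : RC ℓ R (w + w') := by
  intro x hx
  by_cases h0 : w x = 0
  · refine h' x fun h1 => hx ?_
    rw [Finsupp.add_apply, h0, h1, add_zero]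
  · exact h x h0

lemma RC.smul {w : C G k} (h : RC ℓ R w) (t : ℝ) : RC ℓ R (t • w) := by
  intro x hx
  refine h x fun h1 => hx ?_
  rw [Finsupp.smul_apply, h1, smul_zero]

lemma RC.neg {w : C G k} (h : RC ℓ R w) : RC ℓ R (-w) := by
  intro x hx
  refine h x fun h1 => hx ?_
  rw [Finsupp.neg_apply, h1, neg_zero]

lemma RC.sum {ι : Type*} {s : Finset ι} {w : ι → C G k} (h : ∀ i ∈ s, RC ℓ R (w i)) :
    RC ℓ R (∑ i ∈ s, w i) := by
  classical
  induction s using Finset.induction_on with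
  | empty => simpa using RC.zero
  | insert a s ha ih =>
    rw [Finset.sum_insert ha]
    exact (h a (Finset.mem_insert_self _ _)).add
      (ih fun i hi => h i (Finset.mem_insert_of_mem hi))

lemma RC.single {x : Fin k → G} (h : ∀ i j, ℓ ((x i)⁻¹ * x j) ≤ R) (t : ℝ) :
    RC ℓ R (Finsupp.single x t : C G k) := by
  intro y hy
  by_cases hxy : x = y
  · rw [← hxy]; exact h
  · exact absurd (Finsupp.single_eq_of_ne (Ne.symm hxy)) hy

/-- The linear extension of a map on simplices. -/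
lemma RC.lc {T : (Fin j → G) → C G k} {w : C G j} (h : ∀ x, w x ≠ 0 → RC ℓ R (T x)) :
    RC ℓ R (Finsupp.linearCombination ℝ T w) := by
  rw [Finsupp.linearCombination_apply, Finsupp.sum]
  exact RC.sum fun x hx => (h x (Finsupp.mem_support_iff.1 hx)).smul _

lemma RC.mono {w : C G k} {R' : ℝ} (h : RC ℓ R w) (hR : R ≤ R') : RC ℓ R' w :=
  fun x hx i j => (h x hx i j).trans hR

/-- The left translations. -/
lemma RC.tl {w : C G k} (h : RC ℓ R w) (g : G) : RC ℓ R (mp (fun a => g * a) w) := by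
  rw [mp, Finsupp.linearCombination_apply, Finsupp.sum]
  refine RC.sum fun x hx => (RC.single (fun i j => ?_) 1).smul _
  have := h x (Finsupp.mem_support_iff.1 hx) i j
  simpa [mul_assoc] using this

end Rips

/-- The vertices of the simplices of the chain `w` lie in the set `S`. -/
def VIn (S : Set G) {k : ℕ} (w : C G k) : Prop := ∀ y, w y ≠ 0 → ∀ j, y j ∈ S

/-- The `ℓ¹`-norm. -/
def l1 {k : ℕ} (w : C G k) : ℝ := w.sum fun _ t => |t|

section Basic

variable {S : Set G} {k j : ℕ}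

lemma VIn.zero : VIn S (0 : C G k) := fun _ h => absurd rfl h

lemma VIn.add {w w' : C G k} (h : VIn S w) (h' : VIn S w') : VIn S (w + w') := by
  intro x hx
  by_cases h0 : w x = 0
  · refine h' x fun h1 => hx ?_
    rw [Finsupp.add_apply, h0, h1, add_zero]
  · exact h x h0

lemma VIn.smul {w : C G k} (h : VIn S w) (t : ℝ) : VIn S (t • w) := by
  intro x hx
  refine h x fun h1 => hx ?_
  rw [Finsupp.smul_apply, h1, smul_zero]

lemma VIn.neg {w : C G k} (h : VIn S w) : VIn S (-w) := by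
  intro x hx
  refine h x fun h1 => hx ?_
  rw [Finsupp.neg_apply, h1, neg_zero]

lemma VIn.sub {w w' : C G k} (h : VIn S w) (h' : VIn S w') : VIn S (w - w') := by
  rw [sub_eq_add_neg]; exact h.add h'.neg

lemma VIn.sum {ι : Type*} {s : Finset ι} {w : ι → C G k} (h : ∀ i ∈ s, VIn S (w i)) :
    VIn S (∑ i ∈ s, w i) := by
  classical
  induction s using Finset.induction_on with
  | empty => simpa using VIn.zero
  | insert a s ha ih =>
    rw [Finset.sum_insert ha]
    exact (h a (Finset.mem_insert_self _ _)).add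
      (ih fun i hi => h i (Finset.mem_insert_of_mem hi))

lemma VIn.single {x : Fin k → G} (h : ∀ i, x i ∈ S) (t : ℝ) :
    VIn S (Finsupp.single x t : C G k) := by
  intro y hy
  by_cases hxy : x = y
  · rw [← hxy]; exact h
  · exact absurd (Finsupp.single_eq_of_ne (Ne.symm hxy)) hy

lemma VIn.cone {w : C G k} (h : VIn S w) {a : G} (ha : a ∈ S) : VIn S (cone a w) := by
  rw [Comb.cone, Finsupp.linearCombination_apply, Finsupp.sum]
  refine VIn.sum fun x hx => (VIn.single (fun i => ?_) 1).smul _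
  refine Fin.cases ?_ (fun i => ?_) i
  · exact ha
  · exact h x (Finsupp.mem_support_iff.1 hx) i

lemma VIn.mono {w : C G k} {S' : Set G} (h : VIn S w) (hS : S ⊆ S') : VIn S' w :=
  fun x hx i => hS (h x hx i)

lemma VIn.rips {ℓ : G → ℝ} {R : ℝ} {w : C G k} (h : VIn S w)
    (hS : ∀ a ∈ S, ∀ b ∈ S, ℓ (a⁻¹ * b) ≤ R) : RC ℓ R w :=
  fun x hx i j => hS _ (h x hx i) _ (h x hx j)

lemma l1_zero : l1 (0 : C G k) = 0 := by simp [l1]

lemma l1_nonneg (w : C G k) : 0 ≤ l1 w := Finset.sum_nonneg fun _ _ => abs_nonneg _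

lemma l1_eq_of_subset (w : C G k) {s : Finset (Fin k → G)} (hs : w.support ⊆ s) :
    l1 w = ∑ x ∈ s, |w x| :=
  Finsupp.sum_of_support_subset w hs _ fun x _ => by simp

lemma l1_add_le (w w' : C G k) : l1 (w + w') ≤ l1 w + l1 w' := by
  classical
  rw [l1_eq_of_subset (w + w') Finsupp.support_add,
    l1_eq_of_subset w (Finset.subset_union_left (s₂ := w'.support)),
    l1_eq_of_subset w' (Finset.subset_union_right (s₁ := w.support)), ← Finset.sum_add_distrib]
  exact Finset.sum_le_sum fun x _ => abs_add_le _ _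

lemma l1_neg (w : C G k) : l1 (-w) = l1 w := by
  rw [l1_eq_of_subset (-w) (s := w.support) (by rw [Finsupp.support_neg]),
    l1_eq_of_subset w (Finset.Subset.refl _)]
  exact Finset.sum_congr rfl fun x _ => by rw [Finsupp.neg_apply, abs_neg]

lemma l1_sub_le (w w' : C G k) : l1 (w - w') ≤ l1 w + l1 w' := by
  rw [sub_eq_add_neg, ← l1_neg w']; exact l1_add_le _ _

lemma l1_single (x : Fin k → G) (t : ℝ) : l1 (Finsupp.single x t : C G k) = |t| := by
  rw [l1, Finsupp.sum_single_index]; simp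

lemma l1_smul (t : ℝ) (w : C G k) : l1 (t • w) = |t| * l1 w := by
  have h : (t • w).support ⊆ w.support := Finsupp.support_smul
  rw [l1_eq_of_subset (t • w) h, l1_eq_of_subset w (Finset.Subset.refl _), Finset.mul_sum]
  exact Finset.sum_congr rfl fun x _ => by rw [Finsupp.smul_apply, smul_eq_mul, abs_mul]

lemma l1_sum_le {ι : Type*} (s : Finset ι) (w : ι → C G k) :
    l1 (∑ i ∈ s, w i) ≤ ∑ i ∈ s, l1 (w i) := by
  classical
  induction s using Finset.induction_on with
  | empty => simp [l1_zero]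
  | insert a s ha ih =>
    rw [Finset.sum_insert ha, Finset.sum_insert ha]
    exact (l1_add_le _ _).trans (add_le_add le_rfl ih)

lemma l1_cone_le (a : G) (w : C G k) : l1 (cone a w) ≤ l1 w := by
  rw [Comb.cone, Finsupp.linearCombination_apply, Finsupp.sum]
  refine (l1_sum_le _ _).trans (le_of_eq ?_)
  rw [l1, Finsupp.sum]
  exact Finset.sum_congr rfl fun x _ => by rw [l1_smul, l1_single, abs_one, mul_one]

end Basic

section Prism

variable (f f' : G → G)

lemma prism_succ {k : ℕ} (x : Fin (k + 1) → G) :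
    prism f f' (k + 1) (Finsupp.single x 1) = cone (f (x 0))
      (Finsupp.single (fun j => f' (x j)) 1 - prism f f' k (Finsupp.single (Fin.tail x) 1)) := by
  rw [prism, Finsupp.linearCombination_single, one_smul]

lemma VIn_prism {k : ℕ} (x : Fin k → G) {S : Set G} (h : ∀ i, f (x i) ∈ S)
    (h' : ∀ i, f' (x i) ∈ S) : VIn S (prism f f' k (Finsupp.single x 1)) := by
  induction k with
  | zero => rw [prism, LinearMap.zero_apply]; exact VIn.zero
  | succ k ih =>
    rw [prism_succ]
    exact ((VIn.single h' 1).sub (ih (Fin.tail x) (fun i => h i.succ) fun i => h' i.succ)).cone (h 0)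

lemma l1_prism_le {k : ℕ} (x : Fin k → G) : l1 (prism f f' k (Finsupp.single x 1)) ≤ k := by
  induction k with
  | zero => rw [prism, LinearMap.zero_apply, l1_zero]; simp
  | succ k ih =>
    rw [prism_succ]
    refine (l1_cone_le _ _).trans ((l1_sub_le _ _).trans ?_)
    rw [l1_single, abs_one]
    push_cast
    linarith [ih (Fin.tail x)]

lemma prism_eq {k : ℕ} (x : Fin k → G) {e e' : G → G} (h : ∀ i, f (x i) = e (x i))
    (h' : ∀ i, f' (x i) = e' (x i)) :
    prism f f' k (Finsupp.single x 1) = prism e e' k (Finsupp.single x 1) := by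
  induction k with
  | zero => rw [prism, prism]
  | succ k ih =>
    rw [prism_succ, prism_succ, h 0, ih (Fin.tail x) (fun i => h i.succ) fun i => h' i.succ]
    have : (fun j => f' (x j)) = fun j => e' (x j) := by funext j; exact h' j
    rw [this]

lemma mp_eq {k : ℕ} {w : C G k} (h : ∀ x, w x ≠ 0 → ∀ i, f (x i) = f' (x i)) : mp f w = mp f' w := by
  rw [mp, mp, Finsupp.linearCombination_apply, Finsupp.linearCombination_apply, Finsupp.sum,
    Finsupp.sum]
  refine Finset.sum_congr rfl fun x hx => ?_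
  have : (fun j => f (x j)) = fun j => f' (x j) := by
    funext j; exact h x (Finsupp.mem_support_iff.1 hx) j
  rw [this]

end Prism

/-- A bound for the powers by the exponential function. -/
lemma pow_le_exp {δ : ℝ} (hδ : 0 < δ) (N : ℕ) :
    ∃ A : ℝ, 0 ≤ A ∧ ∀ x : ℝ, 0 ≤ x → (1 + x) ^ N ≤ A * Real.exp (δ * x) := by
  refine ⟨N.factorial / δ ^ N * Real.exp δ, by positivity, fun x hx => ?_⟩
  have h := Real.pow_div_factorial_le_exp (δ * (1 + x)) (by positivity) N
  have hf : (0 : ℝ) < N.factorial := by exact_mod_cast N.factorial_pos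
  rw [mul_pow, div_le_iff₀ hf] at h
  have e : Real.exp (δ * (1 + x)) = Real.exp δ * Real.exp (δ * x) := by
    rw [← Real.exp_add]; congr 1; ring
  rw [e] at h
  have hδN : (0 : ℝ) < δ ^ N := pow_pos hδ N
  calc (1 + x) ^ N = (δ ^ N * (1 + x) ^ N) / δ ^ N := by field_simp
    _ ≤ (Real.exp δ * Real.exp (δ * x) * N.factorial) / δ ^ N :=
        div_le_div_of_nonneg_right h hδN.le
    _ = N.factorial / δ ^ N * Real.exp δ * Real.exp (δ * x) := by ring

lemma eq_lc {j k : ℕ} (L : C G j →ₗ[ℝ] C G k) (w : C G j) :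
    L w = Finsupp.linearCombination ℝ (fun x => L (Finsupp.single x 1)) w := by
  induction w using Finsupp.induction_linear with
  | zero => simp
  | add g h hg hh => simp only [map_add, hg, hh]
  | single x t =>
    rw [Finsupp.linearCombination_single, ← map_smul, Finsupp.smul_single, smul_eq_mul, mul_one]

/-- The sum of the prism operators of the combing `σ` up to the time `T`. -/
def comL (σ : ℕ → G → G) (T : ℕ) (k : ℕ) : C G (k + 1) →ₗ[ℝ] C G (k + 2) :=
  (∑ t ∈ Finset.range T, (prism (σ t) (σ (t + 1)) (k + 1) -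
    prism (fun g => g) (fun g => g) (k + 1))) + cone 1 ∘ₗ mp (fun _ => 1)

lemma comL_apply (σ : ℕ → G → G) (T : ℕ) {k : ℕ} (w : C G (k + 1)) :
    comL σ T k w = (∑ t ∈ Finset.range T, (prism (σ t) (σ (t + 1)) (k + 1) w -
      prism (fun g => g) (fun g => g) (k + 1) w)) + cone 1 (mp (fun _ => 1) w) := by
  simp [comL, LinearMap.sum_apply]

lemma d_comL {σ : ℕ → G → G} (h0 : ∀ g, σ 0 g = 1) {T : ℕ} {k : ℕ} {w : C G (k + 1)}
    (hT : ∀ x, w x ≠ 0 → ∀ i, σ T (x i) = x i) (hw : d w = 0) : d (comL σ T k w) = w := by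
  rw [comL_apply, map_add, map_sum, d_cone, d_mp, hw, map_zero, map_zero, sub_zero]
  have h1 : ∀ t ∈ Finset.range T, d (prism (σ t) (σ (t + 1)) (k + 1) w -
      prism (fun g => g) (fun g => g) (k + 1) w) = mp (σ (t + 1)) w - mp (σ t) w := by
    intro t _
    rw [map_sub, d_prism, d_prism, hw, map_zero, map_zero, sub_zero, sub_zero, mp_id, sub_self,
      sub_zero]
  rw [Finset.sum_congr rfl h1, Finset.sum_range_sub (fun t => mp (σ t) w)]
  have h2 : mp (σ T) w = w := by
    rw [mp_eq (σ T) (fun g => g) hT, mp_id]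
  have h3 : σ 0 = fun _ => 1 := funext h0
  rw [h2, h3]
  abel

section Main

variable {ℓ : G → ℝ} (hℓ : IsLength ℓ) {σ : ℕ → G → G} {P c S R : ℝ} {p : ℕ}

include hℓ in
lemma len_path (h0 : ∀ g, σ 0 g = 1) (hc : ∀ t g, ℓ ((σ t g)⁻¹ * σ (t + 1) g) ≤ c) (t : ℕ) (g : G) :
    ℓ (σ t g) ≤ c * t := by
  induction t with
  | zero => rw [h0, hℓ.one]; simp
  | succ t ih =>
    have h1 : ℓ (σ (t + 1) g) ≤ ℓ (σ t g) + ℓ ((σ t g)⁻¹ * σ (t + 1) g) := by
      have := hℓ.mul (σ t g) ((σ t g)⁻¹ * σ (t + 1) g)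
      rwa [mul_inv_cancel_left] at this
    push_cast
    linarith [hc t g]

end Main

/-- The exponents. -/
def Ex (p : ℕ) : ℕ → ℕ
  | 0 => 0
  | j + 1 => p * (1 + Ex p j)

end Pool.Agent.Lib.MP_df705a_gt.CG
end
end

section

/-!
# Chains, maps of groups, norms
-/

set_option linter.unusedSectionVars false

noncomputable section

namespace Pool.Agent.Lib.MP_df705a_gt.CG

open Pool.Agent.Lib.MP_df705a_gt.Comb (C d dS cone mp prism)

variable {G G' : Type*}

lemma bd_eq {k : ℕ} (y : C G (k + 1)) : bd y = d y := by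
  rw [bd, d, Finsupp.linearCombination_apply]
  refine Finset.sum_congr rfl fun x _ => ?_
  simp only [dS, Finset.smul_sum]
  refine Finset.sum_congr rfl fun i _ => ?_
  rw [Finsupp.smul_single, smul_eq_mul, mul_comm]

/-- The chain map induced by a map. -/
def mpx {k : ℕ} (f : G → G') : C G k →ₗ[ℝ] C G' k :=
  Finsupp.linearCombination ℝ fun x => Finsupp.single (fun j => f (x j)) 1

@[simp] lemma mpx_single {k : ℕ} (f : G → G') (x : Fin k → G) (t : ℝ) :
    mpx f (Finsupp.single x t) = Finsupp.single (fun j => f (x j)) t := by simp [mpx]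

lemma d_mpx {k : ℕ} (f : G → G') (w : C G (k + 1)) : d (mpx f w) = mpx f (d w) := by
  induction w using Finsupp.induction_linear with
  | zero => simp
  | add g h hg hh => simp only [map_add, hg, hh]
  | single x t => simp [dS]

lemma mpx_mpx {k : ℕ} {G'' : Type*} (f : G' → G'') (f' : G → G') (w : C G k) :
    mpx f (mpx f' w) = mpx (fun g => f (f' g)) w := by
  induction w using Finsupp.induction_linear with
  | zero => simp
  | add g h hg hh => simp only [map_add, hg, hh]
  | single x t => simp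

lemma mpx_eq_mp {k : ℕ} (f : G → G) (w : C G k) : mpx f w = mp f w := rfl

/-- The norm `∑ |w(x)| φ(x)`. -/
def N {k : ℕ} (φ : (Fin k → G) → ℝ) (w : C G k) : ℝ := w.sum fun x t => |t| * φ x

/-- The sum of the weights of the vertices. -/
def sw (u : G → ℝ) {k : ℕ} (x : Fin k → G) : ℝ := ∑ j, u (x j)

lemma wnorm_eq (u : G → ℝ) {k : ℕ} (w : C G k) : wnorm u w = N (sw u) w := rfl

section Norm

variable {k j : ℕ} {φ : (Fin k → G) → ℝ}

lemma N_zero : N φ (0 : C G k) = 0 := by simp [N]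

lemma N_eq_of_subset (w : C G k) {s : Finset (Fin k → G)} (hs : w.support ⊆ s) :
    N φ w = ∑ x ∈ s, |w x| * φ x :=
  Finsupp.sum_of_support_subset w hs _ fun x _ => by simp

lemma N_add_le (hφ : ∀ x, 0 ≤ φ x) (w w' : C G k) : N φ (w + w') ≤ N φ w + N φ w' := by
  classical
  rw [N_eq_of_subset (w + w') Finsupp.support_add,
    N_eq_of_subset w (Finset.subset_union_left (s₂ := w'.support)),
    N_eq_of_subset w' (Finset.subset_union_right (s₁ := w.support)), ← Finset.sum_add_distrib]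
  refine Finset.sum_le_sum fun x _ => ?_
  rw [← add_mul, Finsupp.add_apply]
  exact mul_le_mul_of_nonneg_right (abs_add_le _ _) (hφ _)

lemma N_smul (t : ℝ) (w : C G k) : N φ (t • w) = |t| * N φ w := by
  have h : (t • w).support ⊆ w.support := Finsupp.support_smul
  rw [N_eq_of_subset (t • w) h, N_eq_of_subset w (Finset.Subset.refl _), Finset.mul_sum]
  refine Finset.sum_congr rfl fun x _ => ?_
  rw [Finsupp.smul_apply, smul_eq_mul, abs_mul, mul_assoc]

lemma N_neg (w : C G k) : N φ (-w) = N φ w := by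
  rw [← neg_one_smul ℝ, N_smul]; simp

lemma N_sub_le (hφ : ∀ x, 0 ≤ φ x) (w w' : C G k) : N φ (w - w') ≤ N φ w + N φ w' := by
  rw [sub_eq_add_neg, ← N_neg w']; exact N_add_le hφ _ _

lemma N_sum_le (hφ : ∀ x, 0 ≤ φ x) {ι : Type*} (s : Finset ι) (w : ι → C G k) :
    N φ (∑ i ∈ s, w i) ≤ ∑ i ∈ s, N φ (w i) := by
  classical
  induction s using Finset.induction_on with
  | empty => simp [N_zero]
  | insert a s ha ih =>
    rw [Finset.sum_insert ha, Finset.sum_insert ha]
    exact (N_add_le hφ _ _).trans (add_le_add le_rfl ih)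

lemma N_single (x : Fin k → G) (t : ℝ) : N φ (Finsupp.single x t : C G k) = |t| * φ x := by
  rw [N, Finsupp.sum_single_index]; simp

lemma N_lc (hφ : ∀ x, 0 ≤ φ x) (T : (Fin j → G') → C G k) (w : C G' j) :
    N φ (Finsupp.linearCombination ℝ T w) ≤ N (fun x => N φ (T x)) w := by
  rw [Finsupp.linearCombination_apply, Finsupp.sum, N, Finsupp.sum]
  refine (N_sum_le hφ _ _).trans (le_of_eq ?_)
  exact Finset.sum_congr rfl fun x _ => N_smul _ _

lemma N_le_N {ψ : (Fin k → G) → ℝ} {w : C G k} {A : ℝ} (h : ∀ x, w x ≠ 0 → φ x ≤ A * ψ x) :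
    N φ w ≤ A * N ψ w := by
  rw [N, N, Finsupp.sum, Finsupp.sum, Finset.mul_sum]
  refine Finset.sum_le_sum fun x hx => ?_
  calc |w x| * φ x ≤ |w x| * (A * ψ x) :=
        mul_le_mul_of_nonneg_left (h x (Finsupp.mem_support_iff.1 hx)) (abs_nonneg _)
    _ = A * (|w x| * ψ x) := by ring

lemma N_le_l1 {w : C G k} {b : ℝ} (h : ∀ x, w x ≠ 0 → φ x ≤ b) : N φ w ≤ l1 w * b := by
  rw [N, l1, Finsupp.sum, Finsupp.sum, Finset.sum_mul]
  exact Finset.sum_le_sum fun x hx =>
    mul_le_mul_of_nonneg_left (h x (Finsupp.mem_support_iff.1 hx)) (abs_nonneg _)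

lemma N_nonneg (hφ : ∀ x, 0 ≤ φ x) (w : C G k) : 0 ≤ N φ w :=
  Finset.sum_nonneg fun _ _ => mul_nonneg (abs_nonneg _) (hφ _)

lemma N_mpx (hφ : ∀ x, 0 ≤ φ x) (f : G' → G) (w : C G' k) :
    N φ (mpx f w) ≤ N (fun x => φ fun j => f (x j)) w := by
  rw [mpx]
  refine (N_lc hφ _ w).trans (le_of_eq ?_)
  rw [N, N]
  refine Finset.sum_congr rfl fun x _ => ?_
  show |w x| * N φ (Finsupp.single (fun j => f (x j)) 1) = _
  rw [N_single, abs_one, one_mul]

end Norm

section Rips

variable [Group G] [Group G'] {ℓ : G → ℝ} {ℓ' : G' → ℝ} {r : ℝ} {k : ℕ}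

lemma isRips_iff {w : C G k} : IsRips ℓ r w ↔ RC ℓ r w := by
  constructor
  · intro h x hx
    exact h x (Finsupp.mem_support_iff.2 hx)
  · intro h x hx
    exact h x (Finsupp.mem_support_iff.1 hx)

lemma rips_mpx {w : C G k} {r' : ℝ} (h : RC ℓ r w) (f : G → G')
    (hf : ∀ a b, ℓ (a⁻¹ * b) ≤ r → ℓ' ((f a)⁻¹ * f b) ≤ r') : RC ℓ' r' (mpx f w) := by
  rw [mpx, Finsupp.linearCombination_apply, Finsupp.sum]
  exact RC.sum fun x hx => (RC.single (fun i j =>
    hf _ _ (h x (Finsupp.mem_support_iff.1 hx) i j)) 1).smul _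

end Rips

end Pool.Agent.Lib.MP_df705a_gt.CG
end
end

section

/-!
# Combings of polynomial length give fillings
-/

set_option linter.unusedSectionVars false

noncomputable section

namespace Pool.Agent.Lib.MP_df705a_gt.CG

open Pool.Agent.Lib.MP_df705a_gt.Comb (C d dS cone mp prism)
open Pool.Agent.Lib.MP_df705a_gt.SVS (IsLength)

variable {G : Type*} [Group G] {ℓ : G → ℝ}

/-- The estimate of the norm of the prism operators. -/
lemma N_prism_le {f f' : G → G} {u : G → ℝ} {i : ℕ} (x : Fin (i + 1) → G) {b : ℝ} (hb : 0 ≤ b)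
    (hf : ∀ j, u (f (x j)) ≤ b) (hf' : ∀ j, u (f' (x j)) ≤ b) :
    N (sw u) (prism f f' (i + 1) (Finsupp.single x 1)) ≤ (i + 1) * ((i + 2) * b) := by
  have h1 := VIn_prism f f' x (S := {a | u a ≤ b}) hf hf'
  refine (N_le_l1 (b := (i + 2) * b) fun y hy => ?_).trans
    (mul_le_mul_of_nonneg_right ?_ (mul_nonneg (by positivity) hb))
  · calc sw u y = ∑ j, u (y j) := rfl
      _ ≤ ∑ _j : Fin (i + 2), b := Finset.sum_le_sum fun j _ => h1 y hy j
      _ = (i + 2) * b := by
          rw [Finset.sum_const, Finset.card_univ, Fintype.card_fin, nsmul_eq_mul]; push_cast; ring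
  · have := l1_prism_le f f' x
    push_cast at this
    linarith

/-- The filling of one cycle. -/
theorem fill_one (hℓ : IsLength ℓ) {σ : ℕ → G → G} {P c S r : ℝ} {p : ℕ} (h0 : ∀ g, σ 0 g = 1)
    (hP : 0 ≤ P) (hp : 1 ≤ p) (hs : ∀ g (t : ℕ), P * (1 + ℓ g) ^ p ≤ t → σ t g = g) (hc0 : 0 ≤ c)
    (hc : ∀ t g, ℓ ((σ t g)⁻¹ * σ (t + 1) g) ≤ c) (hS0 : 0 ≤ S)
    (hS : ∀ t g h, ℓ (g⁻¹ * h) ≤ r → ℓ ((σ t g)⁻¹ * σ t h) ≤ S) (hr : 0 ≤ r) (e : ℕ) {k : ℕ}
    (w : C G (k + 1)) (hw : d w = 0) (hwR : RC ℓ r w) :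
    ∃ y : C G (k + 2), d y = w ∧ RC ℓ (S + c + r) y ∧
      N (sw fun g => (1 + ℓ g) ^ e) y ≤
        ((P * (1 + r) ^ p + 1) * ((k + 1) * (k + 2) *
          ((1 + c * (P * (1 + r) ^ p + 1)) ^ e + (1 + r) ^ e)) + (k + 2)) *
          N (sw fun g => (1 + ℓ g) ^ (p * (1 + e))) w := by
  classical
  -- the times
  let Tx : (Fin (k + 1) → G) → ℕ := fun x => ⌈P * (1 + r + ℓ (x 0)) ^ p⌉₊
  have hlen : ∀ x, w x ≠ 0 → ∀ i, ℓ (x i) ≤ r + ℓ (x 0) := by
    intro x hx i
    have h1 := hℓ.mul (x 0) ((x 0)⁻¹ * x i)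
    rw [mul_inv_cancel_left] at h1
    linarith [hwR x hx 0 i]
  have hfix : ∀ x, w x ≠ 0 → ∀ t, Tx x ≤ t → ∀ i, σ t (x i) = x i := by
    intro x hx t ht i
    refine hs _ _ ?_
    have h1 : P * (1 + ℓ (x i)) ^ p ≤ P * (1 + r + ℓ (x 0)) ^ p :=
      mul_le_mul_of_nonneg_left (pow_le_pow_left₀ (by linarith [hℓ.nonneg (x i)])
        (by linarith [hlen x hx i]) _) hP
    exact h1.trans ((Nat.le_ceil _).trans (by exact_mod_cast ht))
  let T : ℕ := w.support.sup Tx
  have hT : ∀ x, w x ≠ 0 → Tx x ≤ T := fun x hx =>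
    Finset.le_sup (f := Tx) (Finsupp.mem_support_iff.2 hx)
  refine ⟨comL σ T k w, d_comL h0 (fun x hx => hfix x hx T (hT x hx)) hw, ?_, ?_⟩
  · -- the scale
    rw [eq_lc (comL σ T k) w]
    refine RC.lc fun x hx => ?_
    rw [comL_apply]
    refine RC.add (RC.sum fun t _ => ?_) ?_
    · rw [sub_eq_add_neg]
      refine RC.add ?_ (RC.neg ?_)
      · refine (VIn_prism (σ t) (σ (t + 1)) x
          (S := {a | (∃ i, a = σ t (x i)) ∨ ∃ i, a = σ (t + 1) (x i)})
          (fun i => Or.inl ⟨i, rfl⟩) (fun i => Or.inr ⟨i, rfl⟩)).rips ?_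
        have key : ∀ i j, ℓ ((σ t (x i))⁻¹ * σ (t + 1) (x j)) ≤ S + c := by
          intro i j
          have h1 := hℓ.mul ((σ t (x i))⁻¹ * σ t (x j)) ((σ t (x j))⁻¹ * σ (t + 1) (x j))
          rw [mul_assoc, mul_inv_cancel_left] at h1
          linarith [hS t _ _ (hwR x hx i j), hc t (x j)]
        rintro a (⟨i, rfl⟩ | ⟨i, rfl⟩) b (⟨j, rfl⟩ | ⟨j, rfl⟩)
        · linarith [hS t _ _ (hwR x hx i j)]
        · linarith [key i j]
        · have h1 := key j i
          rw [← hℓ.inv, mul_inv_rev, inv_inv] at h1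
          linarith
        · linarith [hS (t + 1) _ _ (hwR x hx i j)]
      · refine (VIn_prism (fun g => g) (fun g => g) x (S := {a | ∃ i, a = x i})
          (fun i => ⟨i, rfl⟩) (fun i => ⟨i, rfl⟩)).rips ?_
        rintro a ⟨i, rfl⟩ b ⟨j, rfl⟩
        linarith [hwR x hx i j]
    · rw [Comb.mp_single, Comb.cone_single]
      refine RC.single (fun i j => ?_) 1
      have h1 : ∀ i, (Fin.cons 1 (fun _ : Fin (k + 1) => (1 : G)) : Fin (k + 2) → G) i = 1 := by
        intro i; refine Fin.cases ?_ (fun i => ?_) i <;> simp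
      rw [h1, h1, inv_one, one_mul, hℓ.one]
      linarith
  · -- the norm
    have hv : ∀ g, 0 ≤ (fun g => (1 + ℓ g) ^ e) g := fun g => by
      have := hℓ.nonneg g; positivity
    have hφ : ∀ (j : ℕ) (x : Fin j → G), 0 ≤ sw (fun g => (1 + ℓ g) ^ e) x := fun j x =>
      Finset.sum_nonneg fun _ _ => hv _
    rw [eq_lc (comL σ T k) w]
    refine (N_lc (hφ _) _ w).trans (N_le_N fun x hx => ?_)
    set B : ℝ := P * (1 + r) ^ p + 1 with hB
    have hB0 : 0 ≤ B := by positivity
    set X : ℝ := 1 + ℓ (x 0) with hX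
    have hX1 : 1 ≤ X := by have := hℓ.nonneg (x 0); linarith
    have hXp : 1 ≤ X ^ p := one_le_pow₀ hX1
    have hTX : (Tx x : ℝ) ≤ B * X ^ p := by
      have h1 : (Tx x : ℝ) ≤ P * (1 + r + ℓ (x 0)) ^ p + 1 :=
        (Nat.ceil_lt_add_one (by have := hℓ.nonneg (x 0); positivity)).le
      have h2 : (1 + r + ℓ (x 0)) ^ p ≤ ((1 + r) * X) ^ p := by
        refine pow_le_pow_left₀ (by have := hℓ.nonneg (x 0); positivity) ?_ _
        rw [hX]; nlinarith [hℓ.nonneg (x 0)]
      calc (Tx x : ℝ) ≤ P * (1 + r + ℓ (x 0)) ^ p + 1 := h1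
        _ ≤ P * ((1 + r) * X) ^ p + X ^ p :=
            add_le_add (mul_le_mul_of_nonneg_left h2 hP) hXp
        _ = B * X ^ p := by rw [hB, mul_pow]; ring
    have hcut : ∑ t ∈ Finset.range T, (prism (σ t) (σ (t + 1)) (k + 1) (Finsupp.single x 1) -
        prism (fun g => g) (fun g => g) (k + 1) (Finsupp.single x 1)) =
        ∑ t ∈ Finset.range (Tx x), (prism (σ t) (σ (t + 1)) (k + 1) (Finsupp.single x 1) -
        prism (fun g => g) (fun g => g) (k + 1) (Finsupp.single x 1)) := by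
      symm
      refine Finset.sum_subset (Finset.range_subset_range.2 (hT x hx)) fun t _ ht => ?_
      rw [Finset.mem_range, not_lt] at ht
      rw [prism_eq (σ t) (σ (t + 1)) x (e := fun g => g) (e' := fun g => g)
        (hfix x hx t ht) (hfix x hx (t + 1) (by omega)), sub_self]
    have hone : N (sw fun g => (1 + ℓ g) ^ e)
        (cone 1 (mp (fun _ => 1) (Finsupp.single x 1)) : C G (k + 2)) = k + 2 := by
      have h1 : ∀ i, (Fin.cons 1 (fun _ : Fin (k + 1) => (1 : G)) : Fin (k + 2) → G) i = 1 := by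
        intro i; refine Fin.cases ?_ (fun i => ?_) i <;> simp
      rw [Comb.mp_single, Comb.cone_single, N_single, sw, abs_one, one_mul]
      simp only [h1, hℓ.one, add_zero, one_pow]
      rw [Finset.sum_const, Finset.card_univ, Fintype.card_fin, nsmul_eq_mul]; push_cast; ring
    have hterm : ∀ t ∈ Finset.range (Tx x), N (sw fun g => (1 + ℓ g) ^ e)
        (prism (σ t) (σ (t + 1)) (k + 1) (Finsupp.single x 1) -
          prism (fun g => g) (fun g => g) (k + 1) (Finsupp.single x 1)) ≤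
        (k + 1) * (k + 2) * (((1 + c * B) ^ e + (1 + r) ^ e) * X ^ (p * e)) := by
      intro t ht
      rw [Finset.mem_range] at ht
      refine (N_sub_le (hφ _) _ _).trans ?_
      have h3 : ∀ t' : ℕ, t' ≤ Tx x → ∀ j, (1 + ℓ (σ t' (x j))) ^ e ≤
          (1 + c * B) ^ e * X ^ (p * e) := by
        intro t' ht' j
        have h4 : ℓ (σ t' (x j)) ≤ c * t' := len_path hℓ h0 hc t' (x j)
        have h5 : (t' : ℝ) ≤ B * X ^ p := le_trans (by exact_mod_cast ht') hTX
        have h6 : 1 + ℓ (σ t' (x j)) ≤ (1 + c * B) * X ^ p := by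
          have h7 : c * t' ≤ c * (B * X ^ p) := mul_le_mul_of_nonneg_left h5 hc0
          nlinarith
        refine (pow_le_pow_left₀ (by have := hℓ.nonneg (σ t' (x j)); positivity) h6 e).trans ?_
        rw [mul_pow, ← pow_mul]
      have h8 : ∀ j, (1 + ℓ (x j)) ^ e ≤ (1 + r) ^ e * X ^ (p * e) := by
        intro j
        have h9 : 1 + ℓ (x j) ≤ (1 + r) * X := by
          have := hlen x hx j
          rw [hX]; nlinarith [hℓ.nonneg (x 0)]
        refine (pow_le_pow_left₀ (by have := hℓ.nonneg (x j); positivity) h9 e).trans ?_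
        rw [mul_pow]
        exact mul_le_mul_of_nonneg_left (pow_le_pow_right₀ hX1 (Nat.le_mul_of_pos_left e hp))
          (by positivity)
      have hb1 : 0 ≤ (1 + c * B) ^ e * X ^ (p * e) := by positivity
      have hb2 : 0 ≤ (1 + r) ^ e * X ^ (p * e) := by positivity
      have h1 := N_prism_le (f := σ t) (f' := σ (t + 1)) (u := fun g => (1 + ℓ g) ^ e) x hb1
        (h3 t ht.le) (h3 (t + 1) ht)
      have h2 := N_prism_le (f := fun g => g) (f' := fun g => g) (u := fun g => (1 + ℓ g) ^ e) x hb2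
        h8 h8
      calc _ ≤ (k + 1) * ((k + 2) * ((1 + c * B) ^ e * X ^ (p * e))) +
            (k + 1) * ((k + 2) * ((1 + r) ^ e * X ^ (p * e))) := add_le_add h1 h2
        _ = _ := by ring
    have hXx : X ^ (p * (1 + e)) ≤ sw (fun g => (1 + ℓ g) ^ (p * (1 + e))) x := by
      rw [hX]
      exact Finset.single_le_sum (f := fun j => (1 + ℓ (x j)) ^ (p * (1 + e)))
        (fun j _ => by have := hℓ.nonneg (x j); positivity) (Finset.mem_univ 0)
    have hAA : 0 ≤ B * ((k + 1) * (k + 2) * ((1 + c * B) ^ e + (1 + r) ^ e)) + (k + 2) := by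
      positivity
    refine le_trans ?_ (mul_le_mul_of_nonneg_left hXx hAA)
    rw [comL_apply, hcut]
    refine (N_add_le (hφ _) _ _).trans ?_
    rw [hone]
    have h1 := (N_sum_le (hφ _) (Finset.range (Tx x)) fun t =>
      prism (σ t) (σ (t + 1)) (k + 1) (Finsupp.single x 1) -
        prism (fun g => g) (fun g => g) (k + 1) (Finsupp.single x 1)).trans
      (Finset.sum_le_sum hterm)
    rw [Finset.sum_const, Finset.card_range, nsmul_eq_mul] at h1
    have hQ : 0 ≤ (k + 1 : ℝ) * (k + 2) * (((1 + c * B) ^ e + (1 + r) ^ e) * X ^ (p * e)) := by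
      positivity
    have h2 := mul_le_mul_of_nonneg_right hTX hQ
    have h3 : 1 ≤ X ^ (p * (1 + e)) := one_le_pow₀ hX1
    have h4 : X ^ p * X ^ (p * e) = X ^ (p * (1 + e)) := by rw [← pow_add]; congr 1; ring
    have hk2 : (0 : ℝ) ≤ k + 2 := by positivity
    calc _ ≤ (Tx x : ℝ) * ((k + 1 : ℝ) * (k + 2) *
          (((1 + c * B) ^ e + (1 + r) ^ e) * X ^ (p * e))) + (k + 2) := add_le_add h1 le_rfl
      _ ≤ B * X ^ p * ((k + 1 : ℝ) * (k + 2) * (((1 + c * B) ^ e + (1 + r) ^ e) * X ^ (p * e))) +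
          (k + 2) * X ^ (p * (1 + e)) := add_le_add h2 (le_mul_of_one_le_right hk2 h3)
      _ = (B * ((k + 1) * (k + 2) * ((1 + c * B) ^ e + (1 + r) ^ e))) * (X ^ p * X ^ (p * e)) +
          (k + 2) * X ^ (p * (1 + e)) := by ring
      _ = _ := by rw [h4]; ring

/-- A group with a combing of polynomial length has fillings of subexponential weight. -/
theorem IsCombing.fillable {σ : ℕ → G → G} (hσ : IsCombing ℓ σ) (hℓ : IsLength ℓ) (n : ℕ) :
    Fillable ℓ n := by
  intro δ hδ
  obtain ⟨P₀, p₀, hstop⟩ := hσ.stop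
  obtain ⟨c₀, hc₀⟩ := hσ.step
  choose S₀ hS₀ using hσ.near
  set p : ℕ := p₀ + 1 with hpdef
  have hs : ∀ g (t : ℕ), |P₀| * (1 + ℓ g) ^ p ≤ t → σ t g = g := by
    intro g t ht
    refine hstop g t (le_trans ?_ ht)
    have h1 : (1 : ℝ) ≤ 1 + ℓ g := by linarith [hℓ.nonneg g]
    exact mul_le_mul (le_abs_self _) (pow_le_pow_right₀ h1 (Nat.le_succ _)) (by positivity)
      (abs_nonneg _)
  have hc : ∀ t g, ℓ ((σ t g)⁻¹ * σ (t + 1) g) ≤ |c₀| := fun t g =>
    (hc₀ t g).trans (le_abs_self _)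
  have hEx : ∀ j, Ex p j ≤ Ex p (j + 1) := by
    intro j
    show Ex p j ≤ p * (1 + Ex p j)
    nlinarith [Nat.zero_le (Ex p j), Nat.zero_le p₀]
  have hmono : Monotone (Ex p) := monotone_nat_of_le_succ hEx
  obtain ⟨A₁, hA₁, hexp⟩ := pow_le_exp hδ (Ex p n)
  refine ⟨fun i g => (1 + ℓ g) ^ Ex p (n - i), A₁, fun i g => ?_, fun i g => ?_, fun i g h => ?_,
    fun i hi r => ?_⟩
  · exact one_le_pow₀ (by linarith [hℓ.nonneg g])
  · exact pow_le_pow_right₀ (by linarith [hℓ.nonneg g]) (hmono (by omega))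
  · -- the translations
    have hg := hℓ.nonneg g
    have hh := hℓ.nonneg h
    have h1 : 1 + ℓ (g * h) ≤ (1 + ℓ g) * (1 + ℓ h) := by nlinarith [hℓ.mul g h]
    have h2 : (1 + ℓ g) ^ Ex p (n - i) ≤ (1 + ℓ g) ^ Ex p n :=
      pow_le_pow_right₀ (by linarith) (hmono (Nat.sub_le _ _))
    calc (1 + ℓ (g * h)) ^ Ex p (n - i) ≤ ((1 + ℓ g) * (1 + ℓ h)) ^ Ex p (n - i) :=
          pow_le_pow_left₀ (by linarith [hℓ.nonneg (g * h)]) h1 _
      _ = (1 + ℓ g) ^ Ex p (n - i) * (1 + ℓ h) ^ Ex p (n - i) := mul_pow _ _ _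
      _ ≤ _ := mul_le_mul_of_nonneg_right (h2.trans (hexp _ hg)) (by positivity)
  · -- the fillings
    refine ⟨|S₀ (|r|)| + |c₀| + |r|, (|P₀| * (1 + |r|) ^ p + 1) * ((i + 1) * (i + 2) *
      ((1 + |c₀| * (|P₀| * (1 + |r|) ^ p + 1)) ^ Ex p (n - (i + 1)) +
        (1 + |r|) ^ Ex p (n - (i + 1)))) + (i + 2), fun w hw hwd => ?_⟩
    rw [isRips_iff] at hw
    rw [bd_eq] at hwd
    obtain ⟨y, hy, hyR, hyn⟩ := fill_one hℓ hσ.start (abs_nonneg P₀) (Nat.le_add_left 1 p₀) hs
      (abs_nonneg c₀) hc (abs_nonneg (S₀ (|r|)))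
      (fun t g h hgh => (hS₀ (|r|) t g h hgh).trans (le_abs_self _)) (abs_nonneg r)
      (Ex p (n - (i + 1))) w hwd (hw.mono (le_abs_self r))
    have hE : (p₀ + 1) * (1 + Ex p (n - (i + 1))) = Ex p (n - i) := by
      have : n - i = (n - (i + 1)) + 1 := by omega
      rw [this]; rfl
    rw [hE] at hyn
    exact ⟨y, isRips_iff.2 hyR, (bd_eq y).trans hy, hyn⟩

end Pool.Agent.Lib.MP_df705a_gt.CG
end
end

section

/-!
# Fillable and combable groups: the definitions of the statement
-/

noncomputable section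

namespace Pool.Agent.Lib.MP_df705a_gt.Comb

variable {G : Type*}

/-- The boundary of a real chain. The chains are finitely supported functions on the tuples
`(g_0, …, g_k)` of elements of the group. -/
def bd {k : ℕ} (y : (Fin (k + 1) → G) →₀ ℝ) : (Fin k → G) →₀ ℝ :=
  y.sum fun g t => ∑ i : Fin (k + 1),
    Finsupp.single (fun j => g (i.succAbove j)) ((-1 : ℝ) ^ (i : ℕ) * t)

/-- The norm `∑ |x(g_0, …, g_k)| (u(g_0) + … + u(g_k))` with the weight `u`. -/
def wnorm (u : G → ℝ) {k : ℕ} (x : (Fin k → G) →₀ ℝ) : ℝ :=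
  ∑ g ∈ x.support, |x g| * ∑ j, u (g j)

variable [Group G]

/-- `x` is a chain of the Rips complex of scale `r`: the simplices of `x` have diameter at most `r`. -/
def IsRips (ℓ : G → ℝ) (r : ℝ) {k : ℕ} (x : (Fin k → G) →₀ ℝ) : Prop :=
  ∀ g ∈ x.support, ∀ i j, ℓ ((g i)⁻¹ * g j) ≤ r

/-- The group has fillings of subexponential weight in dimension at most `n`. For every `δ > 0` there
are weights `u_0, …, u_n : G → [1, ∞)` with `u_i(g h) ≤ C exp (δ ℓ(g)) u_i(h)` and scales
`r_0, …, r_n ≥ 0` such that for `i < n` every real `i`-cycle `x` (`i = 0`: the sum of the coefficients is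
zero) of the Rips complex of scale `r_i` is the boundary of an `(i + 1)`-chain `y` of the Rips complex
of scale `r_{i+1}` with `‖y‖ ≤ C ‖x‖` for the weights `u_{i+1}` and `u_i`. -/
def Fillable (ℓ : G → ℝ) (n : ℕ) : Prop :=
  ∀ δ : ℝ, 0 < δ → ∃ (u : ℕ → G → ℝ) (r : ℕ → ℝ) (C : ℝ),
    (∀ i, 0 ≤ r i) ∧ (∀ i g, 1 ≤ u i g) ∧
    (∀ i g h, u i (g * h) ≤ C * Real.exp (δ * ℓ g) * u i h) ∧
    ∀ i, i < n → ∀ x : (Fin (i + 1) → G) →₀ ℝ, IsRips ℓ (r i) x → bd x = 0 →
      ∃ y : (Fin (i + 2) → G) →₀ ℝ, IsRips ℓ (r (i + 1)) y ∧ bd y = x ∧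
        wnorm (u (i + 1)) y ≤ C * wnorm (u i) x

/-- The paths `t ↦ σ t g` are a combing of polynomial length: they run from `1` to `g` with steps of
bounded length, they reach `g` after a time which is at most polynomial in `ℓ g` and stay there, and
two of them which end at distance at most `r` are uniformly close at all times. -/
structure IsCombing (ℓ : G → ℝ) (σ : ℕ → G → G) : Prop where
  start : ∀ g, σ 0 g = 1
  stop : ∃ (C : ℝ) (p : ℕ), ∀ (g : G) (t : ℕ), C * (1 + ℓ g) ^ p ≤ t → σ t g = g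
  step : ∃ K : ℝ, ∀ t g, ℓ ((σ t g)⁻¹ * σ (t + 1) g) ≤ K
  near : ∀ r : ℝ, ∃ K : ℝ, ∀ t g h, ℓ (g⁻¹ * h) ≤ r → ℓ ((σ t g)⁻¹ * σ t h) ≤ K

end Pool.Agent.Lib.MP_df705a_gt.Comb
end
end

section

/-!
# Comparison of the two forms of the filling inequalities
-/

noncomputable section

namespace Pool.Agent.Lib.MP_df705a_gt.CG

variable {G : Type*} [Group G] {ℓ : G → ℝ} {n : ℕ}

/-- The scales. -/
def scl (R : ℕ → ℝ → ℝ) : ℕ → ℝ
  | 0 => 0
  | i + 1 => |R i (scl R i)|

lemma scl_nonneg (R : ℕ → ℝ → ℝ) (i : ℕ) : 0 ≤ scl R i := by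
  cases i with
  | zero => exact le_rfl
  | succ i => exact abs_nonneg _

lemma wnorm_nonneg {u : G → ℝ} (hu : ∀ g, 1 ≤ u g) {k : ℕ} (x : (Fin k → G) →₀ ℝ) :
    0 ≤ wnorm u x :=
  Finset.sum_nonneg fun _ _ => mul_nonneg (abs_nonneg _)
    (Finset.sum_nonneg fun _ _ => zero_le_one.trans (hu _))

theorem Fillable.old (h : Fillable ℓ n) : Comb.Fillable ℓ n := by
  intro δ hδ
  obtain ⟨u, C, h1, -, h3, h4⟩ := h δ hδ
  have h5 : ∀ (i : ℕ) (r : ℝ), ∃ R K : ℝ, i < n → ∀ x : (Fin (i + 1) → G) →₀ ℝ,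
      IsRips ℓ r x → bd x = 0 → ∃ y : (Fin (i + 2) → G) →₀ ℝ, IsRips ℓ R y ∧ bd y = x ∧
        wnorm (u (i + 1)) y ≤ K * wnorm (u i) x := by
    intro i r
    by_cases hi : i < n
    · obtain ⟨R, K, hRK⟩ := h4 i hi r
      exact ⟨R, K, fun _ => hRK⟩
    · exact ⟨0, 0, fun h => absurd h hi⟩
  choose R K hRK using h5
  have hsum : 0 ≤ ∑ i ∈ Finset.range n, |K i (scl R i)| := Finset.sum_nonneg fun _ _ => abs_nonneg _
  refine ⟨u, scl R, C + ∑ i ∈ Finset.range n, |K i (scl R i)|, scl_nonneg R, h1, fun i g h => ?_,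
    fun i hi x hx hxd => ?_⟩
  · refine (h3 i g h).trans ?_
    have h6 : 0 ≤ Real.exp (δ * ℓ g) * u i h :=
      mul_nonneg (Real.exp_pos _).le (zero_le_one.trans (h1 i h))
    have h7 := mul_le_mul_of_nonneg_right
      (le_add_of_nonneg_right hsum : C ≤ C + ∑ i ∈ Finset.range n, |K i (scl R i)|) h6
    linarith
  · obtain ⟨y, hy, hyd, hyn⟩ := hRK i (scl R i) hi x hx hxd
    refine ⟨y, fun g hg a b => (hy g hg a b).trans (le_abs_self _), hyd, hyn.trans ?_⟩
    refine mul_le_mul_of_nonneg_right ?_ (wnorm_nonneg (h1 i) x)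
    have h8 : |K i (scl R i)| ≤ ∑ i ∈ Finset.range n, |K i (scl R i)| :=
      Finset.single_le_sum (f := fun i => |K i (scl R i)|) (fun _ _ => abs_nonneg _)
        (Finset.mem_range.2 hi)
    have h9 : 0 ≤ C := by
      have h10 := (h1 0 (1 * 1)).trans (h3 0 1 1)
      by_contra h11
      have h12 := mul_nonpos_of_nonpos_of_nonneg
        (mul_nonpos_of_nonpos_of_nonneg (not_le.1 h11).le (Real.exp_pos (δ * ℓ 1)).le)
        (zero_le_one.trans (h1 0 1))
      linarith
    linarith [le_abs_self (K i (scl R i))]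

end Pool.Agent.Lib.MP_df705a_gt.CG
end
end

section

/-!
# NV, F10: positivity of the integral

PROOF. `χ F ≥ 0` is continuous with compact support. By `sum y₀` some `χ (γ⁻¹ y₀) ≠ 0` (otherwise the finsum is 0), so it is
`> 0`; at the point `y₁ = γ⁻¹ y₀`: `F y₁ = jdet (γ) y₁ * F (γ y₁) = jdet * F y₀ > 0` (`a.act γ (a.act γ⁻¹ y₀) = y₀`). So
`χ F` is positive at `y₁`; `Continuous.integral_pos_of_hasCompactSupport_nonneg_nonzero`.
-/

open scoped ContDiff Topology Manifold
open MeasureTheory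

noncomputable section

namespace Pool.Agent.Lib.MP_df705a_gt.NV

open Pool.Agent.Lib.MP_df705a_gt.SVS (V pd jdet)
open Pool.Agent.Lib.MP_df705a_gt

variable {N : ℕ} {G : Type*} [Group G]

theorem int_pos {a : SVS.Act G N} {χ : V N → ℝ} (hc : Continuous χ) (supp : HasCompactSupport χ)
    (sum : ∀ y, ∑ᶠ γ, χ (a.act γ⁻¹ y) = 1) (h0 : ∀ y, 0 ≤ χ y) {F : V N → ℝ} (hF : Continuous F)
    (hF0 : ∀ y, 0 ≤ F y) (hinv : ∀ γ y, jdet (a.act γ) y * F (a.act γ y) = F y)
    (ori : ∀ γ y, 0 < jdet (a.act γ) y) {y₀ : V N} (hy₀ : 0 < F y₀) :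
    0 < ∫ y, χ y * F y := by
  have h1 : ∃ γ : G, χ (a.act γ⁻¹ y₀) ≠ 0 := by
    by_contra hcon
    push Not at hcon
    have h2 := sum y₀
    rw [finsum_congr hcon, finsum_zero] at h2
    exact zero_ne_one h2
  obtain ⟨γ, hγ⟩ := h1
  have h3 : a.act γ (a.act γ⁻¹ y₀) = y₀ := by
    rw [← a.mul, mul_inv_cancel, a.one]
  have h4 : 0 < F (a.act γ⁻¹ y₀) := by
    rw [← hinv γ (a.act γ⁻¹ y₀), h3]
    exact mul_pos (ori _ _) hy₀
  refine Continuous.integral_pos_of_hasCompactSupport_nonneg_nonzero (x := a.act γ⁻¹ y₀)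
    (hc.mul hF) supp.mul_right (fun y => mul_nonneg (h0 y) (hF0 y)) ?_
  exact mul_ne_zero hγ h4.ne'

end Pool.Agent.Lib.MP_df705a_gt.NV
end
end

section

/-!
# NV, F0: differential forms on `ℝᴺ`, definitions

A form has one component in each degree, so no degree has to be cast.
-/

open scoped ContDiff Topology
open MeasureTheory

noncomputable section

namespace Pool.Agent.Lib.MP_df705a_gt.NV

open Pool.Agent.Lib.MP_df705a_gt.SVS (V pd jdet)
open Pool.Agent.Lib.MP_df705a_gt

variable {N : ℕ}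

/-- Alternating forms of degree `j`. -/
abbrev Alt (N j : ℕ) : Type := V N [⋀^Fin j]→L[ℝ] ℝ

/-- Alternating forms, one in each degree. -/
abbrev GA (N : ℕ) : Type := (j : ℕ) → Alt N j

/-- Differential forms, one in each degree. -/
abbrev TF (N : ℕ) : Type := (j : ℕ) → V N → Alt N j

/-- All components are smooth. -/
def Sm (w : TF N) : Prop := ∀ j, ContDiff ℝ ∞ (w j)

/-- The exterior derivative. -/
def dd (w : TF N) : TF N
  | 0 => 0
  | j + 1 => fun x => extDeriv (w j) x

/-- The product `α ∧ θ` with a covector `α`. -/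
def wc (α : V N →L[ℝ] ℝ) (θ : GA N) : GA N
  | 0 => 0
  | j + 1 => ContinuousAlternatingMap.alternatizeUncurryFin (α.smulRight (θ j))

/-- The product `α_0 ∧ … ∧ α_{p-1} ∧ θ`. -/
def wcs : (p : ℕ) → (Fin p → (V N →L[ℝ] ℝ)) → GA N → GA N
  | 0, _, θ => θ
  | p + 1, α, θ => wc (α 0) (wcs p (Fin.tail α) θ)

/-- The form `df ∧ w`. -/
def wd (f : V N → ℝ) (w : TF N) : TF N := fun j x => wc (fderiv ℝ f x) (fun i => w i x) j

/-- The form `df_0 ∧ … ∧ df_{p-1} ∧ w`. -/
def wds (p : ℕ) (f : Fin p → V N → ℝ) (w : TF N) : TF N := fun j x =>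
  wcs p (fun i => fderiv ℝ (f i) x) (fun i => w i x) j

/-- The form `f w`. -/
def ml (f : V N → ℝ) (w : TF N) : TF N := fun j x => f x • w j x

/-- The pull-back. -/
def pull (Φ : V N → V N) (w : TF N) : TF N := fun j x =>
  (w j (Φ x)).compContinuousLinearMap (fderiv ℝ Φ x)

/-- The coefficient of the component of degree `N`. -/
def top (w : TF N) (x : V N) : ℝ := w N x fun i => EuclideanSpace.single i 1

/-- The constant function `1` as a form. -/
def one : TF N
  | 0 => fun _ => ContinuousAlternatingMap.constOfIsEmpty ℝ (V N) (Fin 0) (1 : ℝ)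
  | _ + 1 => 0

/-- The value of the component of degree `0` at `y`, as a constant form of degree `0`. -/
def ev (y : V N) (w : TF N) : TF N
  | 0 => fun _ => w 0 y
  | _ + 1 => 0

/-- The homotopy operator `(K w)(x) = ∫_0^1 t^j ι_x w(t x) dt`. -/
def KK (w : TF N) : TF N := fun j x =>
  ∫ t in (0 : ℝ)..1, t ^ j • (w (j + 1) (t • x)).curryLeft x

variable {G : Type*} [Group G]

/-- The homotopy operator with the centre `g 0`. -/
def KG (a : SVS.Act G N) (g : G) (w : TF N) : TF N := pull (a.act g⁻¹) (KK (pull (a.act g) w))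

/-- The forms `t_p(g_0, …, g_{p-1}) = K_{g_0} … K_{g_{p-1}} w`. -/
def tt (a : SVS.Act G N) (w : TF N) : (p : ℕ) → (Fin p → G) → TF N
  | 0, _ => w
  | p + 1, g => KG a (g 0) (tt a w p (Fin.tail g))

/-- The coboundary `(δ B)(g) = ∑ (-1)^i B(g_0, …, ĝ_i, …, g_p)`. -/
def del {p : ℕ} (B : (Fin p → G) → TF N) (g : Fin (p + 1) → G) : TF N :=
  ∑ i : Fin (p + 1), (-1 : ℝ) ^ (i : ℕ) • B fun j => g (i.succAbove j)

/-- `χ_g(y) = χ(g⁻¹ y)`. -/
def tr (a : SVS.Act G N) (χ : V N → ℝ) (g : G) (y : V N) : ℝ := χ (a.act g⁻¹ y)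

end Pool.Agent.Lib.MP_df705a_gt.NV
end
end

section

/-!
# NV, F5: the coefficient of the top degree: pull-back and change of variables

PROOF. `top_pull`: for an alternating form `f` of degree `N` on `V N` with the basis `e` (`EuclideanSpace.basisFun`,
`.toBasis`): `f = f(e) • det_e` (`AlternatingMap.eq_smul_basis_det`), so `f(L e_0, …) = f(e) det_e(L e) `, and
`det_e(L e)` is the determinant of the matrix of `L` (`Module.Basis.det_apply`, `Basis.toMatrix_apply`; the matrix of `jdet`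
is the one of `fderiv Φ x`; `pd μ (fun y => Φ y i) x = (fderiv Φ x e_μ) i`; transposes do not matter).
`int_act`: `MeasureTheory.integral_image_eq_integral_abs_det_fderiv_smul` on `univ` for the bijection `a.act γ` (inverse
`a.act γ⁻¹`), `|det| = det = jdet` by `ori` (`LinearMap.det_toLin`/`ContinuousLinearMap.det`: the determinant of
`fderiv (a.act γ) y` is `jdet (a.act γ) y`).
-/

open scoped ContDiff Topology
open MeasureTheory

noncomputable section

namespace Pool.Agent.Lib.MP_df705a_gt.NV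

open Pool.Agent.Lib.MP_df705a_gt.SVS (V pd jdet)
open Pool.Agent.Lib.MP_df705a_gt

variable {N : ℕ}

variable {G : Type*} [Group G]

private theorem F5_pd {Φ : V N → V N} (hΦ : ContDiff ℝ ∞ Φ) (x : V N) (i μ : Fin N) :
    pd μ (fun y => Φ y i) x = (fderiv ℝ Φ x (EuclideanSpace.single μ 1)) i := by
  have hd : DifferentiableAt ℝ Φ x := (hΦ.differentiable (by simp)).differentiableAt
  have h1 : HasFDerivAt (fun y => Φ y i)
      ((EuclideanSpace.proj i : V N →L[ℝ] ℝ).comp (fderiv ℝ Φ x)) x :=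
    (EuclideanSpace.proj i : V N →L[ℝ] ℝ).hasFDerivAt.comp x hd.hasFDerivAt
  rw [pd, h1.fderiv]
  rfl

private theorem F5_det {Φ : V N → V N} (hΦ : ContDiff ℝ ∞ Φ) (x : V N) :
    (EuclideanSpace.basisFun (Fin N) ℝ).toBasis.det
      (fun i => fderiv ℝ Φ x (EuclideanSpace.single i 1)) = jdet Φ x := by
  rw [Module.Basis.det_apply, jdet]
  congr 1
  ext i μ
  rw [Module.Basis.toMatrix_apply, Matrix.of_apply, F5_pd hΦ]
  simp

theorem top_pull {Φ : V N → V N} (hΦ : ContDiff ℝ ∞ Φ) (w : TF N) (x : V N) :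
    top (pull Φ w) x = jdet Φ x * top w (Φ x) := by
  have h1 := AlternatingMap.eq_smul_basis_det (EuclideanSpace.basisFun (Fin N) ℝ).toBasis
    (w N (Φ x)).toAlternatingMap
  have h2 : top (pull Φ w) x =
      (w N (Φ x)).toAlternatingMap (fun i => fderiv ℝ Φ x (EuclideanSpace.single i 1)) := rfl
  rw [h2, h1, AlternatingMap.smul_apply, F5_det hΦ, smul_eq_mul, mul_comm]
  congr 1
  have h3 : (⇑(EuclideanSpace.basisFun (Fin N) ℝ).toBasis : Fin N → V N) =
      fun i => EuclideanSpace.single i 1 := by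
    funext i
    simp
  rw [h3]
  rfl

private theorem F5_det2 {Φ : V N → V N} (hΦ : ContDiff ℝ ∞ Φ) (x : V N) :
    (fderiv ℝ Φ x).det = jdet Φ x := by
  rw [ContinuousLinearMap.det, ← LinearMap.det_toMatrix (EuclideanSpace.basisFun (Fin N) ℝ).toBasis,
    jdet]
  congr 1
  ext i μ
  rw [LinearMap.toMatrix_apply, Matrix.of_apply, F5_pd hΦ]
  simp

theorem int_act (a : SVS.Act G N) (ori : ∀ γ y, 0 < jdet (a.act γ) y) (γ : G) (w : TF N) :
    ∫ y, top (pull (a.act γ) w) y = ∫ y, top w y := by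
  have hinj : Function.Injective (a.act γ) := by
    intro y z h
    have h1 := congrArg (a.act γ⁻¹) h
    rwa [← a.mul, ← a.mul, inv_mul_cancel, a.one, a.one] at h1
  have hsurj : Function.Surjective (a.act γ) := by
    intro y
    refine ⟨a.act γ⁻¹ y, ?_⟩
    rw [← a.mul, mul_inv_cancel, a.one]
  have h := MeasureTheory.integral_image_eq_integral_abs_det_fderiv_smul
    (volume : Measure (V N)) (s := Set.univ) (f := a.act γ) (f' := fun y => fderiv ℝ (a.act γ) y)
    MeasurableSet.univ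
    (fun y _ => ((((a.smooth γ).differentiable (by simp)).differentiableAt).hasFDerivAt).hasFDerivWithinAt)
    hinj.injOn (fun y => top w y)
  rw [Set.image_univ, hsurj.range_eq, Measure.restrict_univ] at h
  rw [h]
  refine integral_congr_ae (Filter.Eventually.of_forall fun y => ?_)
  simp only
  rw [top_pull (a.smooth γ), F5_det2 (a.smooth γ), abs_of_pos (ori γ y), smul_eq_mul]

end Pool.Agent.Lib.MP_df705a_gt.NV
end
end

section

/-!
# NV, F1: algebra of the products `wc`, `wcs` at a point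

PROOFS. `wc_apply` is `ContinuousAlternatingMap.alternatizeUncurryFin_apply`. Linearity: from
`alternatizeUncurryFin_add`, `alternatizeUncurryFin_smul` (or from `wc_apply` after `funext j; cases j; ext v`); the
statements for `wcs` by induction on `p`. `wc_comp`, `wcs_comp`: `ext v`, `wc_apply`.
`wc_wc`: for j = 0, 1 both sides are 0 in low degrees (`wc α θ 0 = 0`); in degree j + 2 use
`alternatizeUncurryFin_alternatizeUncurryFinCLM_comp_of_symmetric` for the symmetric map
`B u v = (α u * β v + α v * β u) • θ j`: it is the sum of the maps of `wc α (wc β θ)` and `wc β (wc α θ)`.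
`wc_self`: α = β in `wc_wc` (2 x = 0). `wc_wcs_mem`: induction on p: i = 0: `wc_self`; i = succ: `wc_wc` and induction.
-/

open scoped ContDiff Topology
open MeasureTheory

noncomputable section

namespace Pool.Agent.Lib.MP_df705a_gt.NV

open Pool.Agent.Lib.MP_df705a_gt.SVS (V pd jdet)
open Pool.Agent.Lib.MP_df705a_gt

variable {N : ℕ}

lemma wc_apply (α : V N →L[ℝ] ℝ) (θ : GA N) (j : ℕ) (v : Fin (j + 1) → V N) :
    wc α θ (j + 1) v = ∑ i : Fin (j + 1), (-1 : ℝ) ^ (i : ℕ) * (α (v i) * θ j (i.removeNth v)) := by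
  show ContinuousAlternatingMap.alternatizeUncurryFin (α.smulRight (θ j)) v = _
  rw [ContinuousAlternatingMap.alternatizeUncurryFin_apply]
  refine Finset.sum_congr rfl fun i _ => ?_
  rw [zsmul_eq_mul]
  simp

lemma wc_add_left (α β : V N →L[ℝ] ℝ) (θ : GA N) : wc (α + β) θ = wc α θ + wc β θ := by
  funext j
  cases j with
  | zero => exact (add_zero _).symm
  | succ j =>
    ext v
    rw [Pi.add_apply, ContinuousAlternatingMap.add_apply, wc_apply, wc_apply, wc_apply,
      ← Finset.sum_add_distrib]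
    refine Finset.sum_congr rfl fun i _ => ?_
    rw [add_apply]
    ring

lemma wc_smul_left (c : ℝ) (α : V N →L[ℝ] ℝ) (θ : GA N) : wc (c • α) θ = c • wc α θ := by
  funext j
  cases j with
  | zero => exact (smul_zero c).symm
  | succ j =>
    ext v
    rw [Pi.smul_apply, ContinuousAlternatingMap.smul_apply, wc_apply, wc_apply, smul_eq_mul,
      Finset.mul_sum]
    refine Finset.sum_congr rfl fun i _ => ?_
    rw [smul_apply, smul_eq_mul]
    ring

lemma wc_zero_left (θ : GA N) : wc (0 : V N →L[ℝ] ℝ) θ = 0 := by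
  have h := wc_smul_left (0 : ℝ) (0 : V N →L[ℝ] ℝ) θ
  rwa [zero_smul, zero_smul] at h

lemma wc_sum_left {ι : Type*} (S : Finset ι) (α : ι → V N →L[ℝ] ℝ) (θ : GA N) :
    wc (∑ i ∈ S, α i) θ = ∑ i ∈ S, wc (α i) θ := by
  classical
  induction S using Finset.induction_on with
  | empty => rw [Finset.sum_empty, Finset.sum_empty, wc_zero_left]
  | insert a S ha ih => rw [Finset.sum_insert ha, Finset.sum_insert ha, wc_add_left, ih]

lemma wc_add (α : V N →L[ℝ] ℝ) (θ θ' : GA N) : wc α (θ + θ') = wc α θ + wc α θ' := by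
  funext j
  cases j with
  | zero => exact (add_zero _).symm
  | succ j =>
    ext v
    rw [Pi.add_apply, ContinuousAlternatingMap.add_apply, wc_apply, wc_apply, wc_apply,
      ← Finset.sum_add_distrib]
    refine Finset.sum_congr rfl fun i _ => ?_
    rw [Pi.add_apply, ContinuousAlternatingMap.add_apply]
    ring

lemma wc_smul (c : ℝ) (α : V N →L[ℝ] ℝ) (θ : GA N) : wc α (c • θ) = c • wc α θ := by
  funext j
  cases j with
  | zero => exact (smul_zero c).symm
  | succ j =>
    ext v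
    rw [Pi.smul_apply, ContinuousAlternatingMap.smul_apply, wc_apply, wc_apply, smul_eq_mul,
      Finset.mul_sum]
    refine Finset.sum_congr rfl fun i _ => ?_
    rw [Pi.smul_apply, ContinuousAlternatingMap.smul_apply, smul_eq_mul]
    ring

lemma wc_zero (α : V N →L[ℝ] ℝ) : wc α (0 : GA N) = 0 := by
  have h := wc_smul (0 : ℝ) α (0 : GA N)
  rwa [zero_smul, zero_smul] at h

lemma wc_sum {ι : Type*} (S : Finset ι) (α : V N →L[ℝ] ℝ) (θ : ι → GA N) :
    wc α (∑ i ∈ S, θ i) = ∑ i ∈ S, wc α (θ i) := by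
  classical
  induction S using Finset.induction_on with
  | empty => rw [Finset.sum_empty, Finset.sum_empty, wc_zero]
  | insert a S ha ih => rw [Finset.sum_insert ha, Finset.sum_insert ha, wc_add, ih]

lemma wcs_add {p : ℕ} (α : Fin p → V N →L[ℝ] ℝ) (θ θ' : GA N) :
    wcs p α (θ + θ') = wcs p α θ + wcs p α θ' := by
  induction p with
  | zero => rfl
  | succ p ih =>
    show wc (α 0) (wcs p (Fin.tail α) (θ + θ')) = _
    rw [ih, wc_add]
    rfl

lemma wcs_smul {p : ℕ} (c : ℝ) (α : Fin p → V N →L[ℝ] ℝ) (θ : GA N) :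
    wcs p α (c • θ) = c • wcs p α θ := by
  induction p with
  | zero => rfl
  | succ p ih =>
    show wc (α 0) (wcs p (Fin.tail α) (c • θ)) = _
    rw [ih, wc_smul]
    rfl

lemma wcs_zero {p : ℕ} (α : Fin p → V N →L[ℝ] ℝ) : wcs p α (0 : GA N) = 0 := by
  have h := wcs_smul (0 : ℝ) α (0 : GA N)
  rwa [zero_smul, zero_smul] at h

lemma wcs_sum {p : ℕ} {ι : Type*} (S : Finset ι) (α : Fin p → V N →L[ℝ] ℝ) (θ : ι → GA N) :
    wcs p α (∑ i ∈ S, θ i) = ∑ i ∈ S, wcs p α (θ i) := by
  classical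
  induction S using Finset.induction_on with
  | empty => rw [Finset.sum_empty, Finset.sum_empty, wcs_zero]
  | insert a S ha ih => rw [Finset.sum_insert ha, Finset.sum_insert ha, wcs_add, ih]

lemma wc_comp (α : V N →L[ℝ] ℝ) (θ : GA N) (L : V N →L[ℝ] V N) (j : ℕ) :
    (wc α θ j).compContinuousLinearMap L =
      wc (α.comp L) (fun i => (θ i).compContinuousLinearMap L) j := by
  cases j with
  | zero =>
    ext v
    rfl
  | succ j =>
    ext v
    rw [wc_apply]
    show wc α θ (j + 1) (L ∘ v) = _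
    rw [wc_apply]
    rfl

lemma wcs_comp {p : ℕ} (α : Fin p → V N →L[ℝ] ℝ) (θ : GA N) (L : V N →L[ℝ] V N) (j : ℕ) :
    (wcs p α θ j).compContinuousLinearMap L =
      wcs p (fun i => (α i).comp L) (fun i => (θ i).compContinuousLinearMap L) j := by
  induction p generalizing j with
  | zero => rfl
  | succ p ih =>
    show (wc (α 0) (wcs p (Fin.tail α) θ) j).compContinuousLinearMap L = wc ((α 0).comp L)
      (wcs p (fun i => (Fin.tail α i).comp L) (fun i => (θ i).compContinuousLinearMap L)) j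
    rw [wc_comp]
    have h : (fun i => (wcs p (Fin.tail α) θ i).compContinuousLinearMap L) =
        wcs p (fun i => (Fin.tail α i).comp L) (fun i => (θ i).compContinuousLinearMap L) :=
      funext fun i => ih (Fin.tail α) i
    rw [h]

private lemma F1_wc_wc {E : Type*} [NormedAddCommGroup E] [NormedSpace ℝ E] {j : ℕ}
    (α β : E →L[ℝ] ℝ) (θ : E [⋀^Fin j]→L[ℝ] ℝ) :
    ContinuousAlternatingMap.alternatizeUncurryFin
        (α.smulRight (ContinuousAlternatingMap.alternatizeUncurryFin (β.smulRight θ))) =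
      -ContinuousAlternatingMap.alternatizeUncurryFin
        (β.smulRight (ContinuousAlternatingMap.alternatizeUncurryFin (α.smulRight θ))) := by
  let f : E →L[ℝ] E →L[ℝ] E [⋀^Fin j]→L[ℝ] ℝ :=
    (ContinuousLinearMap.smulRightL ℝ E (E [⋀^Fin j]→L[ℝ] ℝ)).flip θ ∘L
      (α.smulRight β + β.smulRight α)
  have hf : ∀ x, f x = (α x • β + β x • α).smulRight θ := fun x => rfl
  have hs : ∀ x y : E, f x y = f y x := by
    intro x y
    show (α x * β y + β x * α y) • θ = (α y * β x + β y * α x) • θ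
    rw [show α x * β y + β x * α y = α y * β x + β y * α x by ring]
  have h1 :=
    ContinuousAlternatingMap.alternatizeUncurryFin_alternatizeUncurryFinCLM_comp_of_symmetric hs
  have h2 : ContinuousAlternatingMap.alternatizeUncurryFinCLM ℝ E ℝ ∘L f =
        α.smulRight (ContinuousAlternatingMap.alternatizeUncurryFin (β.smulRight θ)) +
          β.smulRight (ContinuousAlternatingMap.alternatizeUncurryFin (α.smulRight θ)) := by
    ext x v
    show ContinuousAlternatingMap.alternatizeUncurryFin (f x) v =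
      α x * ContinuousAlternatingMap.alternatizeUncurryFin (β.smulRight θ) v +
        β x * ContinuousAlternatingMap.alternatizeUncurryFin (α.smulRight θ) v
    rw [hf, ContinuousAlternatingMap.alternatizeUncurryFin_apply,
      ContinuousAlternatingMap.alternatizeUncurryFin_apply,
      ContinuousAlternatingMap.alternatizeUncurryFin_apply, Finset.mul_sum, Finset.mul_sum,
      ← Finset.sum_add_distrib]
    refine Finset.sum_congr rfl fun i _ => ?_
    simp only [zsmul_eq_mul]
    show _ * ((α x * β (v i) + β x * α (v i)) * θ _) =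
      α x * (_ * (β (v i) * θ _)) + β x * (_ * (α (v i) * θ _))
    ring
  rw [h2, ContinuousAlternatingMap.alternatizeUncurryFin_add] at h1
  exact eq_neg_of_add_eq_zero_left h1

lemma wc_wc (α β : V N →L[ℝ] ℝ) (θ : GA N) : wc α (wc β θ) = -wc β (wc α θ) := by
  funext j
  match j with
  | 0 => exact neg_zero.symm
  | 1 =>
    ext v
    rw [Pi.neg_apply, ContinuousAlternatingMap.neg_apply, wc_apply, wc_apply]
    have h0 : ∀ γ : V N →L[ℝ] ℝ, wc γ θ 0 = 0 := fun γ => rfl
    simp [h0]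
  | j + 2 =>
    exact F1_wc_wc α β (θ j)

lemma wc_self (α : V N →L[ℝ] ℝ) (θ : GA N) : wc α (wc α θ) = 0 := by
  have h := wc_wc α α θ
  have h2 : (2 : ℝ) • wc α (wc α θ) = 0 := by
    rw [two_smul]
    nth_rewrite 1 [h]
    exact neg_add_cancel _
  exact (smul_eq_zero.mp h2).resolve_left two_ne_zero

lemma wc_wcs_mem {p : ℕ} (α : Fin p → V N →L[ℝ] ℝ) (i : Fin p) (θ : GA N) :
    wc (α i) (wcs p α θ) = 0 := by
  induction p with
  | zero => exact i.elim0
  | succ p ih =>
    show wc (α i) (wc (α 0) (wcs p (Fin.tail α) θ)) = 0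
    refine Fin.cases ?_ (fun k => ?_) i
    · exact wc_self _ _
    · rw [wc_wc]
      have h := ih (Fin.tail α) k
      have h' : wc (α k.succ) (wcs p (Fin.tail α) θ) = 0 := h
      rw [h', wc_zero, neg_zero]

end Pool.Agent.Lib.MP_df705a_gt.NV
end
end

section

/-!
# NV, F1bA: calculus of forms, smoothness

PROOFS. All by `funext j`, `cases j`, pointwise.
`dd_add`, `dd_smul`, `dd_sum`: `extDeriv_add`, `extDeriv_smul`.
`dd_ml`: `fderiv (f • ω) = f • fderiv ω + (fderiv f).smulRight ω` (`fderiv_smul`), then `alternatizeUncurryFin_add/smul`.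
`dd_wd`: degree j + 2, `ω = w j`: `fderiv` of `x ↦ alternatizeUncurryFin ((fderiv f x).smulRight (ω x))` in the direction `v` is
`alternatizeUncurryFin (B v)` with `B v u = D²f(x)(v, u) • ω x + Df(x)(u) • (Dω(x) v)`. The first summand is symmetric in
`(u, v)` (second derivative, `ContDiffAt.isSymmSndFDerivAt`), so it is killed by
`alternatizeUncurryFin_alternatizeUncurryFinCLM_comp_of_symmetric`. For the second summand add
`B' v u = Df(x)(v) • (Dω(x) u)`: `B₂ + B'` is symmetric, and the double alternatization of `B'` is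
`wc (Df x) (extDeriv ω x)`. Degrees 0 and 1: both sides vanish (`w` has no component of degree `-1`; in degree 1:
`dd (wd f w) 1 = extDeriv (0 : form) = 0` and `wd f (dd w) 1 = wc _ (dd w 0 = 0) = 0`).
`dd_wds`: induction on `p`. `pull_wd`: `wc_comp` and the chain rule. `pull_dd`: `extDeriv_pullback` (with `r = ∞` or 2).
`pull_pull`, `pull_id`: chain rule. Smoothness: `ContDiff` of `fderiv`, of the continuous linear map
`alternatizeUncurryFinCLM`, `ContDiff.continuousAlternatingMap_compContinuousLinearMap` or similar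
(look into `Mathlib.Analysis.Calculus` for `compContinuousLinearMap`; the map
`(f, L) ↦ f.compContinuousLinearMap L` is polynomial: another way is `ContinuousMultilinearMap`...; in finite dimension one can also
test smoothness on basis vectors: `w j` is smooth iff all `x ↦ w j x v` are).
Locality (`wd_congr`, ...) is immediate from the definitions.
-/

open scoped ContDiff Topology
open MeasureTheory

noncomputable section

namespace Pool.Agent.Lib.MP_df705a_gt.NV

open Pool.Agent.Lib.MP_df705a_gt.SVS (V pd jdet)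
open Pool.Agent.Lib.MP_df705a_gt

variable {N : ℕ}

/-- The values on the basis vectors. -/
def F1bA_E (N j : ℕ) : Alt N j →ₗ[ℝ] ((Fin j → Fin N) → ℝ) where
  toFun f := fun r => f fun i => EuclideanSpace.single (r i) (1 : ℝ)
  map_add' _ _ := rfl
  map_smul' _ _ := rfl

lemma F1bA_expand {j : ℕ} (f : Alt N j) (u : Fin j → V N) :
    f u = ∑ r : Fin j → Fin N, (∏ i, u i (r i)) *
      f fun i => EuclideanSpace.single (r i) (1 : ℝ) := by
  classical
  have h1 : u = fun i => ∑ a : Fin N, u i a • (EuclideanSpace.single a (1 : ℝ) : V N) := by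
    funext i
    ext b
    simp [Pi.single_apply]
  conv_lhs => rw [h1]
  have h2 := f.toMultilinearMap.map_sum
    (g := fun (i : Fin j) (a : Fin N) => u i a • (EuclideanSpace.single a (1 : ℝ) : V N))
  refine h2.trans (Finset.sum_congr rfl fun r _ => ?_)
  exact f.toMultilinearMap.map_smul_univ (fun i => u i (r i))
    (fun i => (EuclideanSpace.single (r i) (1 : ℝ) : V N))

lemma F1bA_E_inj (N j : ℕ) : LinearMap.ker (F1bA_E N j) = ⊥ := by
  rw [LinearMap.ker_eq_bot']
  intro f hf
  ext u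
  rw [F1bA_expand f u]
  refine Finset.sum_eq_zero fun r _ => ?_
  have h : f (fun i => EuclideanSpace.single (r i) (1 : ℝ)) = 0 := congrFun hf r
  rw [h, mul_zero]

/-- Smoothness can be tested on vectors. -/
lemma F1bA_of_apply {j : ℕ} {g : V N → Alt N j}
    (h : ∀ r : Fin j → Fin N, ContDiff ℝ ∞ fun x => g x fun i => EuclideanSpace.single (r i) 1) :
    ContDiff ℝ ∞ g := by
  obtain ⟨R, hR⟩ := (F1bA_E N j).exists_leftInverse_of_injective (F1bA_E_inj N j)
  have h1 : ContDiff ℝ ∞ fun x => F1bA_E N j (g x) := contDiff_pi.2 h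
  have h2 : ContDiff ℝ ∞ fun x => R.toContinuousLinearMap (F1bA_E N j (g x)) :=
    R.toContinuousLinearMap.contDiff.comp h1
  have h3 : (fun x => R.toContinuousLinearMap (F1bA_E N j (g x))) = g := by
    funext x
    exact LinearMap.congr_fun hR (g x)
  rwa [h3] at h2

lemma Sm.dd {w : TF N} (h : Sm w) : Sm (dd w) := by
  intro j
  cases j with
  | zero => exact contDiff_const
  | succ j =>
    have h1 : ContDiff ℝ ∞ (fderiv ℝ (w j)) := (h j).fderiv_right (by simp)
    exact (ContinuousAlternatingMap.alternatizeUncurryFinCLM ℝ (V N) ℝ).contDiff.comp h1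

lemma Sm.wd {w : TF N} (h : Sm w) {f : V N → ℝ} (hf : ContDiff ℝ ∞ f) : Sm (wd f w) := by
  intro j
  cases j with
  | zero => exact contDiff_const
  | succ j =>
    have h1 : ContDiff ℝ ∞ (fderiv ℝ f) := hf.fderiv_right (by simp)
    exact (ContinuousAlternatingMap.alternatizeUncurryFinCLM ℝ (V N) ℝ).contDiff.comp
      (h1.smulRight (h j))

lemma wds_succ (p : ℕ) (f : Fin (p + 1) → V N → ℝ) (w : TF N) :
    wds (p + 1) f w = wd (f 0) (wds p (Fin.tail f) w) := rfl

lemma Sm.wds {w : TF N} (h : Sm w) {p : ℕ} {f : Fin p → V N → ℝ} (hf : ∀ i, ContDiff ℝ ∞ (f i)) :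
    Sm (wds p f w) := by
  induction p with
  | zero => exact h
  | succ p ih =>
    rw [wds_succ]
    exact (ih fun i => hf i.succ).wd (hf 0)

lemma Sm.ml {w : TF N} (h : Sm w) {f : V N → ℝ} (hf : ContDiff ℝ ∞ f) : Sm (ml f w) :=
  fun j => hf.smul (h j)

lemma Sm.pull {w : TF N} (h : Sm w) {Φ : V N → V N} (hΦ : ContDiff ℝ ∞ Φ) : Sm (pull Φ w) := by
  intro j
  refine F1bA_of_apply fun r => ?_
  have h1 : ContDiff ℝ ∞ (fderiv ℝ Φ) := hΦ.fderiv_right (by simp)
  have h2 : (fun x => NV.pull Φ w j x fun i => EuclideanSpace.single (r i) 1) =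
      fun x => ∑ s : Fin j → Fin N,
        (∏ i, (fderiv ℝ Φ x (EuclideanSpace.single (r i) 1)) (s i)) *
          (w j (Φ x)) fun i => EuclideanSpace.single (s i) (1 : ℝ) := by
    funext x
    exact F1bA_expand (w j (Φ x)) fun i => fderiv ℝ Φ x (EuclideanSpace.single (r i) 1)
  rw [h2]
  refine ContDiff.sum fun s _ => ContDiff.mul (contDiff_prod fun i _ => ?_) ?_
  · exact (EuclideanSpace.proj (𝕜 := ℝ) (s i)).contDiff.comp
      (h1.clm_apply contDiff_const)
  · exact (ContinuousAlternatingMap.apply ℝ (V N) ℝ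
      (fun i => (EuclideanSpace.single (s i) (1 : ℝ) : V N))).contDiff.comp ((h j).comp hΦ)

lemma Sm.add {w w' : TF N} (h : Sm w) (h' : Sm w') : Sm (w + w') :=
  fun j => (h j).add (h' j)

lemma Sm.smul {w : TF N} (h : Sm w) (c : ℝ) : Sm (c • w) :=
  fun j => (h j).const_smul c

lemma Sm.sum {ι : Type*} (S : Finset ι) {w : ι → TF N} (h : ∀ i ∈ S, Sm (w i)) :
    Sm (∑ i ∈ S, w i) := by
  classical
  induction S using Finset.induction_on with
  | empty => exact fun j => contDiff_const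
  | insert a S ha ih =>
    rw [Finset.sum_insert ha]
    exact (h a (Finset.mem_insert_self a S)).add
      (ih fun i hi => h i (Finset.mem_insert_of_mem hi))

lemma Sm_one : Sm (one : TF N) := by
  intro j
  cases j with
  | zero => exact contDiff_const
  | succ j => exact contDiff_const

lemma Sm_ev (y : V N) (w : TF N) : Sm (ev y w) := by
  intro j
  cases j with
  | zero => exact contDiff_const
  | succ j => exact contDiff_const

lemma Sm.top {w : TF N} (h : Sm w) : ContDiff ℝ ∞ (top w) :=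
  (ContinuousAlternatingMap.apply ℝ (V N) ℝ
    (fun i => (EuclideanSpace.single i (1 : ℝ) : V N))).contDiff.comp (h N)

end Pool.Agent.Lib.MP_df705a_gt.NV
end
end

section

/-!
# NV, F1bC: calculus of forms, pull-back and linearity

PROOFS. All by `funext j`, `cases j`, pointwise.
`dd_add`, `dd_smul`, `dd_sum`: `extDeriv_add`, `extDeriv_smul`.
`dd_ml`: `fderiv (f • ω) = f • fderiv ω + (fderiv f).smulRight ω` (`fderiv_smul`), then `alternatizeUncurryFin_add/smul`.
`dd_wd`: degree j + 2, `ω = w j`: `fderiv` of `x ↦ alternatizeUncurryFin ((fderiv f x).smulRight (ω x))` in the direction `v` is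
`alternatizeUncurryFin (B v)` with `B v u = D²f(x)(v, u) • ω x + Df(x)(u) • (Dω(x) v)`. The first summand is symmetric in
`(u, v)` (second derivative, `ContDiffAt.isSymmSndFDerivAt`), so it is killed by
`alternatizeUncurryFin_alternatizeUncurryFinCLM_comp_of_symmetric`. For the second summand add
`B' v u = Df(x)(v) • (Dω(x) u)`: `B₂ + B'` is symmetric, and the double alternatization of `B'` is
`wc (Df x) (extDeriv ω x)`. Degrees 0 and 1: both sides vanish (`w` has no component of degree `-1`; in degree 1: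
`dd (wd f w) 1 = extDeriv (0 : form) = 0` and `wd f (dd w) 1 = wc _ (dd w 0 = 0) = 0`).
`dd_wds`: induction on `p`. `pull_wd`: `wc_comp` and the chain rule. `pull_dd`: `extDeriv_pullback` (with `r = ∞` or 2).
`pull_pull`, `pull_id`: chain rule. Smoothness: `ContDiff` of `fderiv`, of the continuous linear map
`alternatizeUncurryFinCLM`, `ContDiff.continuousAlternatingMap_compContinuousLinearMap` or similar
(look into `Mathlib.Analysis.Calculus` for `compContinuousLinearMap`; the map
`(f, L) ↦ f.compContinuousLinearMap L` is polynomial: another way is `ContinuousMultilinearMap`...; in finite dimension one can also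
test smoothness on basis vectors: `w j` is smooth iff all `x ↦ w j x v` are).
Locality (`wd_congr`, ...) is immediate from the definitions.
-/

open scoped ContDiff Topology
open MeasureTheory

noncomputable section

namespace Pool.Agent.Lib.MP_df705a_gt.NV

open Pool.Agent.Lib.MP_df705a_gt.SVS (V pd jdet)
open Pool.Agent.Lib.MP_df705a_gt

variable {N : ℕ}

private lemma F1bC_fd {Φ : V N → V N} (hΦ : ContDiff ℝ ∞ Φ) {f : V N → ℝ} (hf : ContDiff ℝ ∞ f)
    (x : V N) : fderiv ℝ (fun y => f (Φ y)) x = (fderiv ℝ f (Φ x)).comp (fderiv ℝ Φ x) :=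
  fderiv_fun_comp x ((hf.differentiable (by simp)) _) ((hΦ.differentiable (by simp)) _)

private lemma F1bC_fd' {Φ Ψ : V N → V N} (hΦ : ContDiff ℝ ∞ Φ) (hΨ : ContDiff ℝ ∞ Ψ)
    (x : V N) : fderiv ℝ (fun y => Ψ (Φ y)) x = (fderiv ℝ Ψ (Φ x)).comp (fderiv ℝ Φ x) :=
  fderiv_fun_comp x ((hΨ.differentiable (by simp)) _) ((hΦ.differentiable (by simp)) _)

lemma pull_wd {Φ : V N → V N} (hΦ : ContDiff ℝ ∞ Φ) {f : V N → ℝ} (hf : ContDiff ℝ ∞ f)
    (w : TF N) : pull Φ (wd f w) = wd (fun y => f (Φ y)) (pull Φ w) := by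
  funext j x
  show (wc (fderiv ℝ f (Φ x)) (fun i => w i (Φ x)) j).compContinuousLinearMap (fderiv ℝ Φ x) =
    wc (fderiv ℝ (fun y => f (Φ y)) x)
      (fun i => (w i (Φ x)).compContinuousLinearMap (fderiv ℝ Φ x)) j
  rw [wc_comp, F1bC_fd hΦ hf]

lemma pull_wds {Φ : V N → V N} (hΦ : ContDiff ℝ ∞ Φ) {p : ℕ} {f : Fin p → V N → ℝ}
    (hf : ∀ i, ContDiff ℝ ∞ (f i)) (w : TF N) :
    pull Φ (wds p f w) = wds p (fun i y => f i (Φ y)) (pull Φ w) := by
  funext j x
  show (wcs p (fun i => fderiv ℝ (f i) (Φ x)) (fun i => w i (Φ x)) j).compContinuousLinearMap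
      (fderiv ℝ Φ x) = wcs p (fun i => fderiv ℝ (fun y => f i (Φ y)) x)
      (fun i => (w i (Φ x)).compContinuousLinearMap (fderiv ℝ Φ x)) j
  rw [wcs_comp]
  have h : (fun i => fderiv ℝ (fun y => f i (Φ y)) x) =
      fun i => (fderiv ℝ (f i) (Φ x)).comp (fderiv ℝ Φ x) := by
    funext i
    exact F1bC_fd hΦ (hf i) x
  rw [h]

lemma pull_ml (Φ : V N → V N) (f : V N → ℝ) (w : TF N) :
    pull Φ (ml f w) = ml (fun y => f (Φ y)) (pull Φ w) := by
  funext j x
  ext v
  rfl

lemma pull_one (Φ : V N → V N) : pull Φ (one : TF N) = one := by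
  funext j x
  cases j with
  | zero =>
    ext v
    rfl
  | succ j =>
    ext v
    rfl

lemma pull_add (Φ : V N → V N) (w w' : TF N) : pull Φ (w + w') = pull Φ w + pull Φ w' := by
  funext j x
  ext v
  rfl

lemma pull_smul (Φ : V N → V N) (c : ℝ) (w : TF N) : pull Φ (c • w) = c • pull Φ w := by
  funext j x
  ext v
  rfl

private lemma F1bC_pull_zero (Φ : V N → V N) : pull Φ (0 : TF N) = 0 := by
  funext j x
  ext v
  rfl

lemma pull_sum (Φ : V N → V N) {ι : Type*} (S : Finset ι) (w : ι → TF N) :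
    pull Φ (∑ i ∈ S, w i) = ∑ i ∈ S, pull Φ (w i) := by
  classical
  induction S using Finset.induction_on with
  | empty => rw [Finset.sum_empty, Finset.sum_empty, F1bC_pull_zero]
  | insert a S ha ih => rw [Finset.sum_insert ha, Finset.sum_insert ha, pull_add, ih]

lemma pull_dd {Φ : V N → V N} (hΦ : ContDiff ℝ ∞ Φ) {w : TF N} (h : Sm w) :
    pull Φ (dd w) = dd (pull Φ w) := by
  funext j x
  cases j with
  | zero =>
    ext v
    rfl
  | succ j =>
    show (extDeriv (w j) (Φ x)).compContinuousLinearMap (fderiv ℝ Φ x) =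
      extDeriv (fun y => (w j (Φ y)).compContinuousLinearMap (fderiv ℝ Φ y)) x
    symm
    refine extDeriv_pullback (r := ∞) (((h j).differentiable (by simp)) _) hΦ.contDiffAt ?_
    rw [minSmoothness_of_isRCLikeNormedField]
    exact WithTop.coe_le_coe.2 (le_top : (2 : ℕ∞) ≤ ⊤)

lemma pull_pull {Φ Ψ : V N → V N} (hΦ : ContDiff ℝ ∞ Φ) (hΨ : ContDiff ℝ ∞ Ψ) (w : TF N) :
    pull Φ (pull Ψ w) = pull (fun y => Ψ (Φ y)) w := by
  funext j x
  show ((w j (Ψ (Φ x))).compContinuousLinearMap (fderiv ℝ Ψ (Φ x))).compContinuousLinearMap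
      (fderiv ℝ Φ x) = (w j (Ψ (Φ x))).compContinuousLinearMap (fderiv ℝ (fun y => Ψ (Φ y)) x)
  rw [F1bC_fd' hΦ hΨ]
  ext v
  rfl

lemma pull_id (w : TF N) : pull (fun y => y) w = w := by
  funext j x
  show (w j x).compContinuousLinearMap (fderiv ℝ (fun y : V N => y) x) = w j x
  rw [fderiv_fun_id]
  ext v
  rfl

lemma top_add (w w' : TF N) (x : V N) : top (w + w') x = top w x + top w' x := rfl

lemma top_smul (c : ℝ) (w : TF N) (x : V N) : top (c • w) x = c * top w x := rfl

lemma top_neg (w : TF N) (x : V N) : top (-w) x = -top w x := rfl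

lemma top_sum {ι : Type*} (S : Finset ι) (w : ι → TF N) (x : V N) :
    top (∑ i ∈ S, w i) x = ∑ i ∈ S, top (w i) x := by
  classical
  induction S using Finset.induction_on with
  | empty =>
    rw [Finset.sum_empty, Finset.sum_empty]
    rfl
  | insert a S ha ih => rw [Finset.sum_insert ha, Finset.sum_insert ha, top_add, ih]

lemma top_ml (f : V N → ℝ) (w : TF N) (x : V N) : top (ml f w) x = f x * top w x := rfl

lemma wds_add {p : ℕ} (f : Fin p → V N → ℝ) (w w' : TF N) :
    wds p f (w + w') = wds p f w + wds p f w' := by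
  funext j x
  exact congrFun (wcs_add (fun i => fderiv ℝ (f i) x) (fun i => w i x) (fun i => w' i x)) j

lemma wds_smul {p : ℕ} (f : Fin p → V N → ℝ) (c : ℝ) (w : TF N) :
    wds p f (c • w) = c • wds p f w := by
  funext j x
  exact congrFun (wcs_smul c (fun i => fderiv ℝ (f i) x) (fun i => w i x)) j

private lemma F1bC_wds_zero {p : ℕ} (f : Fin p → V N → ℝ) : wds p f (0 : TF N) = 0 := by
  funext j x
  exact congrFun (wcs_zero (fun i => fderiv ℝ (f i) x)) j

lemma wds_sum {p : ℕ} (f : Fin p → V N → ℝ) {ι : Type*} (S : Finset ι) (w : ι → TF N) :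
    wds p f (∑ i ∈ S, w i) = ∑ i ∈ S, wds p f (w i) := by
  classical
  induction S using Finset.induction_on with
  | empty => rw [Finset.sum_empty, Finset.sum_empty, F1bC_wds_zero]
  | insert a S ha ih => rw [Finset.sum_insert ha, Finset.sum_insert ha, wds_add, ih]

end Pool.Agent.Lib.MP_df705a_gt.NV
end
end

section

/-!
# NV, F8a: the setting of the unfolding argument; the finite set `S`

PROOF of `exists_fin`. Let `tsupport χ ⊆ closedBall 0 R`. `S` = the finite set of the `γ` with `‖y‖ ≤ R, ‖γ y‖ ≤ R` for some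
`y` (`prop`). If `y ∈ tsupport χ ∩ tsupport χ_γ` then `γ⁻¹ y ∈ tsupport χ` (`a.act γ⁻¹` is a homeomorphism with inverse
`a.act γ`), so `γ ∈ S` (use the point `γ⁻¹ y`). The sum at `y ∈ tsupport χ`: `sum y` and `finsum_eq_finset_sum_of_support_subset`
(for `g ∉ S`, `χ_g y = 0`). The derivative: let `S'` be the finite set of `prop` for the radius `R + ‖y‖ + 1`; on
`ball y 1` all `χ_g`, `g ∉ S'`, vanish, so `∑_{g ∈ S'} χ_g = 1` on `ball y 1` and the derivative at `y` is `0`; for
`g ∈ S' \ S` (or for any `g ∉ S`) `y ∉ tsupport χ_g`, so that `χ_g = 0` near `y` and `fderiv χ_g y = 0`;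
take `S' ⊇ S`.
-/

open scoped ContDiff Topology
open MeasureTheory

noncomputable section

namespace Pool.Agent.Lib.MP_df705a_gt.NV

open Pool.Agent.Lib.MP_df705a_gt.SVS (V pd jdet)
open Pool.Agent.Lib.MP_df705a_gt

variable {N : ℕ} {G : Type*} [Group G]

/-- The setting: `χ` is a smooth partition for the proper action `a`, the action preserves the orientation, `s` is
equivariant, `w` is a smooth closed invariant form of degree `n`. -/
structure Setup (a : SVS.Act G N) (χ : V N → ℝ) {k : ℕ} (s : V N → V k) (w : TF N) (n : ℕ) :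
    Prop where
  chi : ContDiff ℝ ∞ χ
  supp : HasCompactSupport χ
  sum : ∀ y, ∑ᶠ γ, χ (a.act γ⁻¹ y) = 1
  prop : ∀ R : ℝ, {γ | ∃ y, ‖y‖ ≤ R ∧ ‖a.act γ y‖ ≤ R}.Finite
  ori : ∀ γ y, 0 < jdet (a.act γ) y
  ss : ContDiff ℝ ∞ s
  sadd : ∀ γ, ∃ c, ∀ y, s (a.act γ y) = s y + c
  sm : Sm w
  closed : dd w = 0
  inv : ∀ γ, pull (a.act γ) w = w
  deg : ∀ j, j ≠ n → w j = 0

variable {a : SVS.Act G N} {χ : V N → ℝ} {k n : ℕ} {s : V N → V k} {w : TF N}

theorem exists_fin (H : Setup a χ s w n) : ∃ S : Finset G,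
    (∀ g ∉ S, Disjoint (tsupport χ) (tsupport (tr a χ g))) ∧
    (∀ y ∈ tsupport χ, ∑ g ∈ S, tr a χ g y = 1) ∧
    ∀ y ∈ tsupport χ, ∑ g ∈ S, fderiv ℝ (tr a χ g) y = 0 := by
  classical
  obtain ⟨R, hR⟩ := H.supp.isCompact.isBounded.subset_closedBall (0 : V N)
  have hR' : ∀ y ∈ tsupport χ, ‖y‖ ≤ R := fun y hy => by
    have := hR hy
    rwa [mem_closedBall_zero_iff] at this
  have hinv : ∀ (g : G) (y : V N), a.act g (a.act g⁻¹ y) = y := fun g y => by
    rw [← a.mul, mul_inv_cancel, a.one]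
  have hsub : ∀ (g : G) (y : V N), y ∈ tsupport (tr a χ g) → a.act g⁻¹ y ∈ tsupport χ := by
    intro g y hy
    have h1 : tsupport (tr a χ g) ⊆ (a.act g⁻¹) ⁻¹' tsupport χ :=
      (a.smooth g⁻¹).continuous.closure_preimage_subset (Function.support χ)
    exact h1 hy
  obtain ⟨S, hS⟩ : ∃ S : Finset G, ∀ g, g ∈ S ↔ ∃ y, ‖y‖ ≤ R ∧ ‖a.act g y‖ ≤ R :=
    ⟨(H.prop R).toFinset, fun g => by rw [Set.Finite.mem_toFinset]; exact Iff.rfl⟩
  have hdis : ∀ g ∉ S, Disjoint (tsupport χ) (tsupport (tr a χ g)) := by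
    intro g hg
    rw [Set.disjoint_left]
    intro y hy hy'
    refine hg ((hS g).2 ⟨a.act g⁻¹ y, hR' _ (hsub g y hy'), ?_⟩)
    rw [hinv]
    exact hR' y hy
  have htr : ∀ g : G, ContDiff ℝ ∞ (tr a χ g) := fun g => H.chi.comp (a.smooth g⁻¹)
  refine ⟨S, hdis, ?_, ?_⟩
  · intro y hy
    rw [← H.sum y]
    refine (finsum_eq_sum_of_support_subset _ ?_).symm
    intro g hg
    by_contra hgS
    have h1 : y ∈ tsupport (tr a χ g) := subset_tsupport _ hg
    exact Set.disjoint_left.1 (hdis g hgS) hy h1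
  · intro y hy
    obtain ⟨S', hS'⟩ : ∃ S' : Finset G, ∀ g, g ∈ S' ↔
        ∃ z, ‖z‖ ≤ R + ‖y‖ + 1 ∧ ‖a.act g z‖ ≤ R + ‖y‖ + 1 :=
      ⟨(H.prop (R + ‖y‖ + 1)).toFinset, fun g => by
        rw [Set.Finite.mem_toFinset]; exact Iff.rfl⟩
    have hR0 : 0 ≤ R := (norm_nonneg y).trans (hR' y hy)
    have hone : ∀ z ∈ Metric.ball y 1, ∑ g ∈ S' ∪ S, tr a χ g z = 1 := by
      intro z hz
      rw [← H.sum z]
      refine (finsum_eq_sum_of_support_subset _ ?_).symm
      intro g hg
      have hz' : ‖z‖ ≤ ‖y‖ + 1 := by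
        have h1 : ‖z - y‖ < 1 := by
          rw [← dist_eq_norm]
          exact hz
        have h2 := norm_le_norm_add_norm_sub' z y
        linarith
      have h1 : a.act g⁻¹ z ∈ tsupport χ := hsub g z (subset_tsupport _ hg)
      refine Finset.mem_coe.2 (Finset.mem_union_left _ ((hS' g).2 ⟨a.act g⁻¹ z, ?_, ?_⟩))
      · have := hR' _ h1
        have := norm_nonneg y
        linarith
      · rw [hinv]
        linarith
    have hfd : fderiv ℝ (fun z => ∑ g ∈ S' ∪ S, tr a χ g z) y = 0 := by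
      have h1 : (fun z => ∑ g ∈ S' ∪ S, tr a χ g z) =ᶠ[nhds y] fun _ => (1 : ℝ) :=
        Filter.eventuallyEq_of_mem (Metric.ball_mem_nhds y one_pos) hone
      rw [h1.fderiv_eq]
      exact fderiv_const_apply (1 : ℝ)
    rw [fderiv_fun_sum fun g _ => ((htr g).differentiable (by simp)).differentiableAt] at hfd
    rw [← hfd]
    refine Finset.sum_subset Finset.subset_union_right fun g _ hg => ?_
    exact fderiv_of_notMem_tsupport ℝ (Set.disjoint_left.1 (hdis g hg) hy)

/-- The coordinate functions of `s`. -/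
def co (s : V N → V k) (j : Fin k) (y : V N) : ℝ := s y j

/-- `∫ χ dχ_{g 0} ∧ … ∧ dχ_{g (p-1)} ∧ ds_1 ∧ … ∧ ds_k ∧ t_p(g)`. -/
def AA (a : SVS.Act G N) (χ : V N → ℝ) (s : V N → V k) (w : TF N) (p : ℕ) (g : Fin p → G) : ℝ :=
  ∫ y, χ y * top (wds p (fun i => tr a χ (g i)) (wds k (co s) (tt a w p g))) y

/-- `∫ χ_{g 0} dχ ∧ dχ_{g 1} ∧ … ∧ dχ_{g p} ∧ ds_1 ∧ … ∧ ds_k ∧ t_{p+1}(g)`. -/
def XX (a : SVS.Act G N) (χ : V N → ℝ) (s : V N → V k) (w : TF N) (p : ℕ)
    (g : Fin (p + 1) → G) : ℝ :=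
  ∫ y, tr a χ (g 0) y *
    top (wd χ (wds p (fun i => tr a χ (g i.succ)) (wds k (co s) (tt a w (p + 1) g)))) y

/-- `∫ χ χ_{g 0} dχ_{g 1} ∧ … ∧ dχ_{g p} ∧ ds_1 ∧ … ∧ ds_k ∧ dt_{p+1}(g)`. -/
def BB (a : SVS.Act G N) (χ : V N → ℝ) (s : V N → V k) (w : TF N) (p : ℕ)
    (g : Fin (p + 1) → G) : ℝ :=
  ∫ y, χ y * tr a χ (g 0) y *
    top (wds p (fun i => tr a χ (g i.succ)) (wds k (co s) (dd (tt a w (p + 1) g)))) y

end Pool.Agent.Lib.MP_df705a_gt.NV
end
end
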