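import Pool.Agent.Lib.MP_df705a_gt.SV.St
import Pool.Agent.Lib.MP_df705a_gt.Mg.G090

section

/-!
# NV, F9b: functions from a chart of the manifold

PROOF. Let `x₀ = q y₀`, `φ = extChartAt 𝓘(ℝ, V n) x₀`; `φ.source` is open, `φ.target` is open (the model has no boundary:
`isOpen_extChartAt_target`), take balls `closedBall (φ x₀) ε ⊆ φ.target`. Let `ρ` be a `ContDiffBump (φ x₀)` with
`rOut = ε / 3` and `ρ₁` one with `rIn = 2 ε / 3`, `rOut = ε` (or less). Put
`r y = ρ (φ (q y))` if `q y ∈ φ.source`, `0` otherwise, and `U i y = ρ₁ (φ (q y)) * (φ (q y)) i` if `q y ∈ φ.source`,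
`0` otherwise: functions of `q y`. Smoothness: on the open set `q ⁻¹' φ.source` compositions of smooth maps
(`contMDiffOn_extChartAt`, `hq`, `contMDiff_iff_contDiff`); the set `φ.symm '' closedBall (φ x₀) ε` is compact, hence
closed (`T2Space M`), and on the open complement of its preimage the functions are zero (in Mathlib there may be
`SmoothBumpFunction`, whose lemmas do the same; `SmoothBumpFunction.contMDiff_smul`). The two open sets cover `V N`.
On a neighbourhood of a point `y ∈ tsupport r` (then `q y` is in `φ.symm '' closedBall (φ x₀) (ε/3)`, which is closed)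
`q y ∈ φ.source` and `ρ₁ (φ (q y)) = 1`, so there `U i = (φ ∘ q) i`, `r = ρ ∘ φ ∘ q = ρ ∘ (U as a vector)`; the chain rule
gives `fderiv r y = ∑ b_i fderiv (U i) y` with `b_i = fderiv ρ (φ (q y)) e_i`. If `fderiv (U i) y v = 0` for all `i`, then
`fderiv (φ ∘ q) y v = 0`, and `mfderiv q y v = mfderiv φ.symm _ (fderiv (φ ∘ q) y v) = 0`, since `q = φ.symm ∘ (φ ∘ q)` near `y`.
-/

open scoped ContDiff Topology Manifold
open MeasureTheory

noncomputable section

namespace Pool.Agent.Lib.MP_df705a_gt.NV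

open Pool.Agent.Lib.MP_df705a_gt.SVS (V pd jdet)
open Pool.Agent.Lib.MP_df705a_gt

variable {N : ℕ} {G : Type*} [Group G]

theorem exists_chart_fns {n : ℕ} {M : Type*} [TopologicalSpace M] [T2Space M]
    [ChartedSpace (V n) M] [IsManifold 𝓘(ℝ, V n) ∞ M] {q : V N → M}
    (hq : ContMDiff 𝓘(ℝ, V N) 𝓘(ℝ, V n) ∞ q) (y₀ : V N) :
    ∃ (r : V N → ℝ) (U : Fin n → V N → ℝ), ContDiff ℝ ∞ r ∧ (∀ i, ContDiff ℝ ∞ (U i)) ∧
      (∀ y z, q y = q z → r y = r z ∧ ∀ i, U i y = U i z) ∧ (∀ y, 0 ≤ r y) ∧ 0 < r y₀ ∧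
      (∀ y ∈ tsupport r, ∃ b : Fin n → ℝ, fderiv ℝ r y = ∑ i, b i • fderiv ℝ (U i) y) ∧
      ∀ y ∈ tsupport r, ∀ v : V N, (∀ i, fderiv ℝ (U i) y v = 0) →
        (mfderiv 𝓘(ℝ, V N) 𝓘(ℝ, V n) q y v : V n) = 0 := by
  obtain ⟨f₁⟩ : Nonempty (SmoothBumpFunction 𝓘(ℝ, V n) (q y₀)) := inferInstance
  set φ := extChartAt 𝓘(ℝ, V n) (q y₀) with hφ
  have hso : IsOpen (φ.source ∩ φ ⁻¹' Metric.ball (φ (q y₀)) f₁.rIn) :=
    (continuousOn_extChartAt (q y₀)).isOpen_inter_preimage (isOpen_extChartAt_source (q y₀))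
      Metric.isOpen_ball
  have hsn : φ.source ∩ φ ⁻¹' Metric.ball (φ (q y₀)) f₁.rIn ∈ 𝓝 (q y₀) :=
    hso.mem_nhds ⟨mem_extChartAt_source (q y₀), Metric.mem_ball_self f₁.rIn_pos⟩
  obtain ⟨f₂, _, hf₂⟩ := (SmoothBumpFunction.nhds_basis_tsupport
    (I := 𝓘(ℝ, V n)) (q y₀)).mem_iff.1 hsn
  have hu : ContMDiff 𝓘(ℝ, V n) 𝓘(ℝ, V n) ∞ (fun x => f₁ x • φ x) :=
    f₁.contMDiff_smul contMDiffOn_extChartAt
  have huq : ContDiff ℝ ∞ (fun y => f₁ (q y) • φ (q y)) := contMDiff_iff_contDiff.1 (hu.comp hq)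
  have hr : ContDiff ℝ ∞ (fun y => f₂ (q y)) := contMDiff_iff_contDiff.1 (f₂.contMDiff.comp hq)
  have hUi : ∀ i, ContDiff ℝ ∞ (fun y => (f₁ (q y) • φ (q y)) i) := fun i =>
    contDiff_euclidean.1 huq i
  have hts : ∀ y ∈ tsupport (fun y => f₂ (q y)), q y ∈ tsupport f₂ := by
    intro y hy
    have h1 : tsupport (fun y => f₂ (q y)) ⊆ q ⁻¹' tsupport f₂ := by
      refine closure_minimal ?_ ((isClosed_tsupport _).preimage hq.continuous)
      intro z hz
      exact subset_tsupport _ hz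
    exact h1 hy
  have hev : ∀ y ∈ tsupport (fun y => f₂ (q y)), ∀ᶠ z in 𝓝 y,
      q z ∈ φ.source ∧ dist (φ (q z)) (φ (q y₀)) < f₁.rIn := by
    intro y hy
    have h1 := hso.mem_nhds (hf₂ (hts y hy))
    exact hq.continuous.continuousAt.eventually h1
  have hone : ∀ z, q z ∈ φ.source → dist (φ (q z)) (φ (q y₀)) < f₁.rIn → f₁ (q z) = 1 := by
    intro z hz hd
    rw [hφ, extChartAt_source] at hz
    exact f₁.one_of_dist_le hz hd.le
  have hder : ∀ y, HasFDerivAt (fun y => f₁ (q y) • φ (q y))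
      (fderiv ℝ (fun y => f₁ (q y) • φ (q y)) y) y := fun y =>
    (huq.differentiable (by simp) y).hasFDerivAt
  have hUd : ∀ i y v, fderiv ℝ (fun y => (f₁ (q y) • φ (q y)) i) y v =
      (fderiv ℝ (fun y => f₁ (q y) • φ (q y)) y v) i := by
    intro i y v
    have h1 := ((EuclideanSpace.proj i : V n →L[ℝ] ℝ).hasFDerivAt).comp y (hder y)
    have h2 : fderiv ℝ (fun y => (f₁ (q y) • φ (q y)) i) y =
        (EuclideanSpace.proj i : V n →L[ℝ] ℝ).comp
          (fderiv ℝ (fun y => f₁ (q y) • φ (q y)) y) := h1.fderiv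
    rw [h2]
    rfl
  refine ⟨fun y => f₂ (q y), fun i y => (f₁ (q y) • φ (q y)) i, hr, hUi, ?_, ?_, ?_, ?_, ?_⟩
  · intro y z hyz
    simp only [hyz]
    exact ⟨trivial, fun _ => trivial⟩
  · intro y
    exact f₂.nonneg
  · show 0 < f₂ (q y₀)
    rw [f₂.eq_one]
    exact one_pos
  · intro y hy
    refine ⟨fun i => fderiv ℝ f₂.toContDiffBump (f₁ (q y) • φ (q y))
      (EuclideanSpace.single i 1), ?_⟩
    have h1 : (fun y => f₂ (q y)) =ᶠ[𝓝 y]
        fun z => f₂.toContDiffBump (f₁ (q z) • φ (q z)) := by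
      filter_upwards [hev y hy] with z hz
      rw [hone z hz.1 hz.2, one_smul]
      have h2 := hz.1
      rw [hφ, extChartAt_source] at h2
      exact f₂.eqOn_source h2
    have h3 : HasFDerivAt (fun z => f₂.toContDiffBump (f₁ (q z) • φ (q z)))
        ((fderiv ℝ f₂.toContDiffBump (f₁ (q y) • φ (q y))).comp
          (fderiv ℝ (fun y => f₁ (q y) • φ (q y)) y)) y := by
      have h4 : DifferentiableAt ℝ f₂.toContDiffBump (f₁ (q y) • φ (q y)) :=
        (f₂.toContDiffBump.contDiff (n := 1)).differentiable (by norm_num) _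
      exact HasFDerivAt.comp (g := fun x => f₂.toContDiffBump x)
        (f := fun y => f₁ (q y) • φ (q y)) y h4.hasFDerivAt (hder y)
    rw [h1.fderiv_eq, h3.fderiv]
    ext v
    rw [ContinuousLinearMap.comp_apply]
    have h5 : fderiv ℝ (fun y => f₁ (q y) • φ (q y)) y v = ∑ i,
        (fderiv ℝ (fun y => f₁ (q y) • φ (q y)) y v) i •
          (EuclideanSpace.single i (1 : ℝ) : V n) := by
      ext j
      simp [Finset.sum_apply, Pi.single_apply]
    rw [h5, map_sum, _root_.sum_apply]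
    refine Finset.sum_congr rfl fun i _ => ?_
    rw [map_smul, _root_.smul_apply, hUd]
    simp only [smul_eq_mul]
    ring
  · intro y hy v hv
    have hv0 : fderiv ℝ (fun y => f₁ (q y) • φ (q y)) y v = 0 := by
      ext i
      rw [← hUd]
      exact hv i
    have h1 : q =ᶠ[𝓝 y] φ.symm ∘ (fun y => f₁ (q y) • φ (q y)) := by
      filter_upwards [hev y hy] with z hz
      rw [Function.comp_apply, hone z hz.1 hz.2, one_smul, φ.left_inv hz.1]
    have hy1 := (hev y hy).self_of_nhds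
    have hyt : f₁ (q y) • φ (q y) ∈ φ.target := by
      rw [hone y hy1.1 hy1.2, one_smul]
      exact φ.map_source hy1.1
    have h2 : MDifferentiableAt 𝓘(ℝ, V n) 𝓘(ℝ, V n) φ.symm (f₁ (q y) • φ (q y)) := by
      have h3 := (contMDiffOn_extChartAt_symm (I := 𝓘(ℝ, V n)) (n := ∞) (q y₀)).contMDiffAt
        ((isOpen_extChartAt_target (I := 𝓘(ℝ, V n)) (q y₀)).mem_nhds hyt)
      exact h3.mdifferentiableAt (by simp)
    have h3 : MDifferentiableAt 𝓘(ℝ, V N) 𝓘(ℝ, V n) (fun y => f₁ (q y) • φ (q y)) y :=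
      (hu.comp hq).contMDiffAt.mdifferentiableAt (by simp)
    have h4 := mfderiv_comp y h2 h3
    have h5 := h1.mfderiv_eq (I := 𝓘(ℝ, V N)) (I' := 𝓘(ℝ, V n))
    have h6 : (mfderiv 𝓘(ℝ, V N) 𝓘(ℝ, V n) q y : V N →L[ℝ] V n) v =
        (mfderiv 𝓘(ℝ, V n) 𝓘(ℝ, V n) φ.symm (f₁ (q y) • φ (q y)) : V n →L[ℝ] V n)
          ((mfderiv 𝓘(ℝ, V N) 𝓘(ℝ, V n) (fun y => f₁ (q y) • φ (q y)) y : V N →L[ℝ] V n) v) := by
      rw [h5, h4]
      rfl
    refine h6.trans ?_
    rw [mfderiv_eq_fderiv]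
    exact (congrArg _ hv0).trans (map_zero _)

end Pool.Agent.Lib.MP_df705a_gt.NV
end
end

section

/-!
# NV, F6: products of differentials and determinants

PROOF. Pointwise: for covectors `α : Fin p → _`, `β : Fin q → _`, all `j` with `p + q = j` and `v : Fin j → V N`:
`wcs p α (wcs q β one_x) j v = det (Matrix.of fun i μ : Fin j => (Fin.addCases α β (Fin.cast h.symm i)) (v μ))`.
Induction on `p`; for `p + 1` write `j = j' + 1`: `wc (α 0) θ (j' + 1) v = ∑_i (-1)^i α_0(v_i) θ_{j'}(v without v_i)`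
(`ContinuousAlternatingMap.alternatizeUncurryFin_apply`), and `Matrix.det_succ_row_zero`. The case `p = 0` is an induction on `q` of
the same kind (`q = 0`: the determinant of the empty matrix is 1).
Only `θ j = 0` for other degrees is not needed. The statement below is the case `v = e`, `α_i = fderiv (f i) x`.
-/

open scoped ContDiff Topology
open MeasureTheory

noncomputable section

namespace Pool.Agent.Lib.MP_df705a_gt.NV

open Pool.Agent.Lib.MP_df705a_gt.SVS (V pd jdet)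
open Pool.Agent.Lib.MP_df705a_gt

variable {N : ℕ}

private theorem F6_wc (a : V N →L[ℝ] ℝ) (θ : GA N) (n : ℕ) (v : Fin (n + 1) → V N) :
    wc a θ (n + 1) v = ∑ i : Fin (n + 1), (-1 : ℝ) ^ (i : ℕ) * a (v i) * θ n (i.removeNth v) := by
  simp only [wc]
  rw [ContinuousAlternatingMap.alternatizeUncurryFin_apply]
  refine Finset.sum_congr rfl fun i _ => ?_
  rw [ContinuousLinearMap.smulRight_apply, ContinuousAlternatingMap.smul_apply, smul_eq_mul,
    zsmul_eq_mul]
  push_cast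
  ring

private theorem F6_step (n : ℕ) (A : Fin (n + 1) → (V N →L[ℝ] ℝ)) (θ : GA N)
    (h : ∀ w : Fin n → V N, θ n w = (Matrix.of fun i μ : Fin n => A i.succ (w μ)).det)
    (v : Fin (n + 1) → V N) :
    wc (A 0) θ (n + 1) v = (Matrix.of fun i μ : Fin (n + 1) => A i (v μ)).det := by
  rw [F6_wc, Matrix.det_succ_row_zero]
  refine Finset.sum_congr rfl fun i _ => ?_
  rw [h]
  congr 1

private theorem F6_one (q : ℕ) (β : Fin q → (V N →L[ℝ] ℝ)) (x : V N) (v : Fin q → V N) :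
    wcs q β (fun i => one i x) q v = (Matrix.of fun i μ : Fin q => β i (v μ)).det := by
  induction q with
  | zero =>
    simp [wcs, one]
  | succ q ih =>
    rw [wcs]
    exact F6_step q β _ (fun w => ih (Fin.tail β) w) v

private theorem F6_two (p q : ℕ) (α : Fin p → (V N →L[ℝ] ℝ)) (β : Fin q → (V N →L[ℝ] ℝ)) (x : V N)
    (n : ℕ) (e : p + q = n) (v : Fin n → V N) :
    wcs p α (wcs q β (fun i => one i x)) n v =
      (Matrix.of fun i μ : Fin n => (Fin.addCases α β (Fin.cast e.symm i) : V N →L[ℝ] ℝ) (v μ)).det := by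
  induction p generalizing n with
  | zero =>
    obtain rfl : q = n := by omega
    rw [wcs, F6_one]
    congr 2
    ext i μ
    have : Fin.cast e.symm i = Fin.natAdd 0 i := by
      apply Fin.ext; simp
    rw [this, Fin.addCases_right]
  | succ p ih =>
    obtain ⟨n, rfl⟩ : ∃ m, n = m + 1 := ⟨p + q, by omega⟩
    have e' : p + q = n := by omega
    rw [wcs]
    have h0 : (Fin.addCases α β (Fin.cast e.symm 0) : V N →L[ℝ] ℝ) = α 0 := by
      have : Fin.cast e.symm 0 = Fin.castAdd q 0 := by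
        apply Fin.ext; simp
      rw [this, Fin.addCases_left]
    have hs : ∀ i : Fin n, (Fin.addCases α β (Fin.cast e.symm i.succ) : V N →L[ℝ] ℝ) =
        Fin.addCases (Fin.tail α) β (Fin.cast e'.symm i) := by
      intro i
      obtain ⟨m, rfl⟩ : ∃ m : Fin (p + q), i = Fin.cast e' m := ⟨Fin.cast e'.symm i, by simp⟩
      refine Fin.addCases (fun k => ?_) (fun k => ?_) m
      · have h1 : Fin.cast e.symm (Fin.cast e' (Fin.castAdd q k)).succ = Fin.castAdd q k.succ := by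
          apply Fin.ext; simp
        have h2 : Fin.cast e'.symm (Fin.cast e' (Fin.castAdd q k)) = Fin.castAdd q k := by
          apply Fin.ext; simp
        rw [h1, h2, Fin.addCases_left, Fin.addCases_left]
        rfl
      · have h1 : Fin.cast e.symm (Fin.cast e' (Fin.natAdd p k)).succ = Fin.natAdd (p + 1) k := by
          apply Fin.ext; simp; omega
        have h2 : Fin.cast e'.symm (Fin.cast e' (Fin.natAdd p k)) = Fin.natAdd p k := by
          apply Fin.ext; simp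
        rw [h1, h2, Fin.addCases_right, Fin.addCases_right]
    have key := F6_step n (fun i => (Fin.addCases α β (Fin.cast e.symm i) : V N →L[ℝ] ℝ))
      (wcs p (Fin.tail α) (wcs q β (fun i => one i x))) (fun w => ?_) v
    · simp only [h0] at key
      exact key
    · rw [ih (Fin.tail α) n e' w]
      simp only [hs]

theorem top_wds_one {p q : ℕ} (e : p + q = N) (f : Fin p → V N → ℝ) (g : Fin q → V N → ℝ)
    (x : V N) : top (wds p f (wds q g one)) x = (Matrix.of fun i μ : Fin N =>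
      pd μ (fun y => Fin.addCases (fun i : Fin p => f i y) (fun j : Fin q => g j y)
        (Fin.cast e.symm i)) x).det := by
  have h := F6_two p q (fun i => fderiv ℝ (f i) x) (fun j => fderiv ℝ (g j) x) x N e
    (fun i => EuclideanSpace.single i 1)
  have h1 : top (wds p f (wds q g one)) x = wcs p (fun i => fderiv ℝ (f i) x)
      (wcs q (fun j => fderiv ℝ (g j) x) (fun i => one i x)) N
        (fun i => EuclideanSpace.single i 1) := rfl
  rw [h1, h]
  congr 2
  ext i μ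
  rw [pd]
  obtain ⟨m, rfl⟩ : ∃ m : Fin (p + q), i = Fin.cast e m := ⟨Fin.cast e.symm i, by simp⟩
  refine Fin.addCases (fun k => ?_) (fun k => ?_) m
  · have h2 : Fin.cast e.symm (Fin.cast e (Fin.castAdd q k)) = Fin.castAdd q k := by
      apply Fin.ext; simp
    simp only [h2, Fin.addCases_left]
  · have h2 : Fin.cast e.symm (Fin.cast e (Fin.natAdd p k)) = Fin.natAdd p k := by
      apply Fin.ext; simp
    simp only [h2, Fin.addCases_right]

end Pool.Agent.Lib.MP_df705a_gt.NV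
end
end

section

/-!
# Combings: the filling operator, the chain map `Phi` and the homotopy `Psi`
-/

noncomputable section

namespace Pool.Agent.Lib.MP_df705a_gt.Comb

variable {G : Type*} [Group G]

/-- The translation of chains. -/
def tr (g : G) {k : ℕ} : C G k →ₗ[ℝ] C G k := mp fun x => g * x

lemma tr_single (g : G) {k : ℕ} (x : Fin k → G) (t : ℝ) :
    tr g (Finsupp.single x t) = Finsupp.single (fun j => g * x j) t := mp_single _ _ _

lemma tr_tr (g h : G) {k : ℕ} (w : C G k) : tr g (tr h w) = tr (g * h) w := by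
  rw [tr, tr, tr, mp_mp]
  simp only [mul_assoc]

lemma tr_one {k : ℕ} (w : C G k) : tr 1 w = w := by
  rw [tr]
  simp only [one_mul]
  exact mp_id w

lemma tr_inv_tr (g : G) {k : ℕ} (w : C G k) : tr g⁻¹ (tr g w) = w := by
  rw [tr_tr, inv_mul_cancel, tr_one]

lemma tr_tr_inv (g : G) {k : ℕ} (w : C G k) : tr g (tr g⁻¹ w) = w := by
  rw [tr_tr, mul_inv_cancel, tr_one]

lemma d_tr (g : G) {k : ℕ} (w : C G (k + 1)) : d (tr g w) = tr g (d w) := d_mp _ _

lemma tr_cone (g a : G) {k : ℕ} (w : C G k) : tr g (cone a w) = cone (g * a) (tr g w) :=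
  mp_cone _ _ _

omit [Group G] in
/-- A map which is the identity at the vertices of `w` does not change `w`. -/
lemma mp_eq_self {f : G → G} {k : ℕ} {w : C G k} (h : ∀ x ∈ w.support, ∀ j, f (x j) = x j) :
    mp f w = w := by
  rw [mp, Finsupp.linearCombination_apply]
  conv_rhs => rw [← Finsupp.sum_single w]
  refine Finsupp.sum_congr fun x hx => ?_
  rw [Finsupp.smul_single, smul_eq_mul, mul_one]
  congr 1
  funext j
  exact h x hx j

/-- The linear extension. -/
abbrev lin {k l : ℕ} (F : (Fin k → G) → C G l) : C G k →ₗ[ℝ] C G l :=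
  Finsupp.linearCombination ℝ F

/-- The chain map `Phi` for the choice `F` of the fillings. -/
def Phi (F : (k : ℕ) → C G k → C G (k + 1)) : (k : ℕ) → (Fin k → G) → C G k
  | 0 => fun x => Finsupp.single x 1
  | k + 1 => fun x => tr (x 0) (F k (tr (x 0)⁻¹ (lin (Phi F k) (dS x))))

/-- The homotopy `Psi`. -/
def Psi (F : (k : ℕ) → C G k → C G (k + 1)) : (k : ℕ) → (Fin k → G) → C G (k + 1)
  | 0 => fun _ => 0
  | k + 1 => fun x => cone (x 0)
      (Finsupp.single x 1 - Phi F (k + 1) x - lin (Psi F k) (dS x))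

/-- An equivariant map has an equivariant linear extension. -/
lemma lin_tr {k l : ℕ} {F : (Fin k → G) → C G l} {g : G}
    (hF : ∀ x : Fin k → G, F (fun j => g * x j) = tr g (F x)) (w : C G k) :
    lin F (tr g w) = tr g (lin F w) := by
  induction w using Finsupp.induction_linear with
  | zero => simp
  | add f h hf hh => simp only [map_add, hf, hh]
  | single x t =>
    rw [tr_single, Finsupp.linearCombination_single, Finsupp.linearCombination_single, hF,
      map_smul]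

lemma dS_tr {k : ℕ} (g : G) (x : Fin (k + 1) → G) : dS (fun j => g * x j) = tr g (dS x) := by
  have h := d_tr g (Finsupp.single x (1 : ℝ))
  rw [tr_single, d_single, d_single, one_smul, one_smul] at h
  exact h

omit [Group G] in
lemma d_dS {k : ℕ} (x : Fin (k + 2) → G) : d (dS x) = 0 := by
  have h := d_d (Finsupp.single x (1 : ℝ))
  rwa [d_single, one_smul] at h

variable (F : (k : ℕ) → C G k → C G (k + 1))

lemma Phi_tr (k : ℕ) (g : G) (x : Fin k → G) : Phi F k (fun j => g * x j) = tr g (Phi F k x) := by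
  induction k with
  | zero => exact (tr_single g x 1).symm
  | succ k ih =>
    have h1 : tr (g * x 0)⁻¹ (lin (Phi F k) (dS fun j => g * x j)) =
        tr (x 0)⁻¹ (lin (Phi F k) (dS x)) := by
      rw [dS_tr, lin_tr (ih), tr_tr, mul_inv_rev, inv_mul_cancel_right]
    change tr (g * x 0) (F k (tr (g * x 0)⁻¹ (lin (Phi F k) (dS fun j => g * x j)))) = _
    rw [h1, ← tr_tr]
    rfl

lemma Psi_tr (k : ℕ) (g : G) (x : Fin k → G) : Psi F k (fun j => g * x j) = tr g (Psi F k x) := by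
  induction k with
  | zero => exact (map_zero _).symm
  | succ k ih =>
    change cone (g * x 0) (Finsupp.single (fun j => g * x j) 1 -
      Phi F (k + 1) (fun j => g * x j) - lin (Psi F k) (dS fun j => g * x j)) = _
    rw [Phi_tr, dS_tr, lin_tr ih, ← tr_single, ← map_sub, ← map_sub, ← tr_cone]
    rfl

/-- The properties of the choice `F` of the fillings, for the spaces `W k` of chains. -/
structure IsF (F : (k : ℕ) → C G k → C G (k + 1)) (W : (k : ℕ) → Submodule ℝ (C G k)) : Prop where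
  top : ∀ w, w ∈ W 0
  tr : ∀ (k : ℕ) (g : G) (w : C G k), w ∈ W k → tr g w ∈ W k
  mem_zero : ∀ w : C G 0, F 0 w ∈ W 1
  d_zero : ∀ w : C G 0, d (F 0 w) = w
  mem : ∀ (k : ℕ) (w : C G (k + 1)), w ∈ W (k + 1) → d w = 0 → F (k + 1) w ∈ W (k + 2)
  d : ∀ (k : ℕ) (w : C G (k + 1)), w ∈ W (k + 1) → d w = 0 → d (F (k + 1) w) = w

variable {F}

omit [Group G] in
lemma lin_mem {k l : ℕ} {f : (Fin k → G) → C G l} {P : Submodule ℝ (C G l)}
    (h : ∀ x, f x ∈ P) (w : C G k) : lin f w ∈ P := by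
  rw [Finsupp.linearCombination_apply]
  exact Submodule.sum_mem _ fun x _ => P.smul_mem _ (h x)

omit [Group G] in
lemma d_lin {k : ℕ} {f : (Fin (k + 1) → G) → C G (k + 1)} {f' : (Fin k → G) → C G k}
    (h : ∀ x : Fin (k + 1) → G, d (f x) = lin f' (dS x))
    (w : C G (k + 1)) : d (lin f w) = lin f' (d w) := by
  induction w using Finsupp.induction_linear with
  | zero => simp
  | add f g hf hg => simp only [map_add, hf, hg]
  | single x t =>
    rw [Finsupp.linearCombination_single, d_single, map_smul, map_smul, h]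

lemma Phi_aux {W : (k : ℕ) → Submodule ℝ (C G k)} (H : IsF F W) (k : ℕ) (x : Fin (k + 1) → G) :
    Phi F (k + 1) x ∈ W (k + 1) ∧ d (Phi F (k + 1) x) = lin (Phi F k) (dS x) := by
  induction k with
  | zero =>
    change tr (x 0) (F 0 (tr (x 0)⁻¹ (lin (Phi F 0) (dS x)))) ∈ _ ∧
      d (tr (x 0) (F 0 (tr (x 0)⁻¹ (lin (Phi F 0) (dS x))))) = _
    refine ⟨H.tr _ _ _ (H.mem_zero _), ?_⟩
    rw [d_tr, H.d_zero, tr_tr_inv]
  | succ k ih =>
    have h1 : tr (x 0)⁻¹ (lin (Phi F (k + 1)) (dS x)) ∈ W (k + 1) :=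
      H.tr _ _ _ (lin_mem (fun y => (ih y).1) _)
    have h2 : d (tr (x 0)⁻¹ (lin (Phi F (k + 1)) (dS x))) = 0 := by
      rw [d_tr, d_lin fun y => (ih y).2, d_dS, map_zero, map_zero]
    refine ⟨H.tr _ _ _ (H.mem _ _ h1 h2), ?_⟩
    change d (tr (x 0) (F (k + 1) (tr (x 0)⁻¹ (lin (Phi F (k + 1)) (dS x))))) = _
    rw [d_tr, H.d _ _ h1 h2, tr_tr_inv]

lemma Phi_mem {W : (k : ℕ) → Submodule ℝ (C G k)} (H : IsF F W) (k : ℕ) (x : Fin k → G) :
    Phi F k x ∈ W k := by
  cases k with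
  | zero => exact H.top _
  | succ k => exact (Phi_aux H k x).1

lemma d_Phi {W : (k : ℕ) → Submodule ℝ (C G k)} (H : IsF F W) (k : ℕ) (x : Fin (k + 1) → G) :
    d (Phi F (k + 1) x) = lin (Phi F k) (dS x) := (Phi_aux H k x).2

lemma d_Psi {W : (k : ℕ) → Submodule ℝ (C G k)} (H : IsF F W) (k : ℕ) (x : Fin (k + 1) → G) :
    d (Psi F (k + 1) x) = Finsupp.single x 1 - Phi F (k + 1) x - lin (Psi F k) (dS x) := by
  have key : d (Finsupp.single x 1 - Phi F (k + 1) x - lin (Psi F k) (dS x)) = 0 := by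
    induction k with
    | zero =>
      have h1 : lin (Psi F 0) (dS x) = 0 := by
        have : Psi F 0 = fun _ : Fin 0 → G => (0 : C G 1) := rfl
        rw [this, Finsupp.linearCombination_apply]
        simp
      have h2 : ∀ w : C G 0, lin (Phi F 0) w = w := by
        intro w
        have : Phi F 0 = fun x : Fin 0 → G => (Finsupp.single x 1 : C G 0) := rfl
        rw [this, Finsupp.linearCombination_apply]
        simp
      rw [h1, sub_zero, map_sub, d_Phi H, h2, d_single, one_smul, sub_self]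
    | succ k ih =>
      have h3 : ∀ w : C G (k + 1), d (lin (Psi F (k + 1)) w) =
          w - lin (Phi F (k + 1)) w - lin (Psi F k) (d w) := by
        intro w
        induction w using Finsupp.induction_linear with
        | zero => simp
        | add f g hf hg => simp only [map_add, hf, hg]; abel
        | single y t =>
          rw [Finsupp.linearCombination_single, Finsupp.linearCombination_single, d_single,
            map_smul, map_smul]
          change t • d (cone (y 0) _) = _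
          rw [d_cone, ih, map_zero, sub_zero, smul_sub, smul_sub, Finsupp.smul_single,
            smul_eq_mul, mul_one]
      rw [map_sub, map_sub, d_Phi H, h3, d_single, one_smul, d_dS, map_zero, sub_zero]
      abel
  change d (cone (x 0) _) = _
  rw [d_cone, key, map_zero, sub_zero]

end Pool.Agent.Lib.MP_df705a_gt.Comb
end
end

section

/-!
# Combings: weighted norms and supports
-/

noncomputable section

namespace Pool.Agent.Lib.MP_df705a_gt.Comb

variable {G : Type*}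

/-- The weighted `ℓ¹`-norm of a chain. -/
def wn {k : ℕ} (φ : (Fin k → G) → ℝ) (w : C G k) : ℝ := ∑ x ∈ w.support, |w x| * φ x

lemma wn_nonneg {k : ℕ} {φ : (Fin k → G) → ℝ} (h : ∀ x, 0 ≤ φ x) (w : C G k) : 0 ≤ wn φ w :=
  Finset.sum_nonneg fun x _ => mul_nonneg (abs_nonneg _) (h x)

lemma wn_eq {k : ℕ} (φ : (Fin k → G) → ℝ) (w : C G k) {S : Finset (Fin k → G)}
    (h : w.support ⊆ S) : wn φ w = ∑ x ∈ S, |w x| * φ x :=
  Finset.sum_subset h fun x _ hx => by rw [Finsupp.notMem_support_iff.1 hx, abs_zero, zero_mul]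

lemma wn_zero {k : ℕ} (φ : (Fin k → G) → ℝ) : wn φ (0 : C G k) = 0 := by simp [wn]

lemma wn_add_le {k : ℕ} {φ : (Fin k → G) → ℝ} (hφ : ∀ x, 0 ≤ φ x) (v w : C G k) :
    wn φ (v + w) ≤ wn φ v + wn φ w := by
  classical
  rw [wn_eq φ (v + w) (S := v.support ∪ w.support) Finsupp.support_add,
    wn_eq φ v (S := v.support ∪ w.support) Finset.subset_union_left,
    wn_eq φ w (S := v.support ∪ w.support) Finset.subset_union_right, ← Finset.sum_add_distrib]
  refine Finset.sum_le_sum fun x _ => ?_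
  rw [Finsupp.add_apply, ← add_mul]
  exact mul_le_mul_of_nonneg_right (abs_add_le _ _) (hφ x)

lemma wn_neg {k : ℕ} (φ : (Fin k → G) → ℝ) (w : C G k) : wn φ (-w) = wn φ w := by
  simp [wn, Finsupp.support_neg]

lemma wn_sub_le {k : ℕ} {φ : (Fin k → G) → ℝ} (hφ : ∀ x, 0 ≤ φ x) (v w : C G k) :
    wn φ (v - w) ≤ wn φ v + wn φ w := by
  rw [sub_eq_add_neg]
  exact (wn_add_le hφ _ _).trans_eq (by rw [wn_neg])

lemma wn_smul {k : ℕ} (φ : (Fin k → G) → ℝ) (t : ℝ) (w : C G k) :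
    wn φ (t • w) = |t| * wn φ w := by
  rw [wn_eq φ (t • w) (S := w.support) Finsupp.support_smul, wn, Finset.mul_sum]
  refine Finset.sum_congr rfl fun x _ => ?_
  rw [Finsupp.smul_apply, smul_eq_mul, abs_mul, mul_assoc]

lemma wn_single {k : ℕ} (φ : (Fin k → G) → ℝ) (x : Fin k → G) (t : ℝ) :
    wn φ (Finsupp.single x t) = |t| * φ x := by
  classical
  rw [wn_eq φ (Finsupp.single x t) (S := {x}) Finsupp.support_single_subset,
    Finset.sum_singleton, Finsupp.single_eq_same]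

lemma wn_sum_le {k : ℕ} {φ : (Fin k → G) → ℝ} (hφ : ∀ x, 0 ≤ φ x) {ι : Type*} (S : Finset ι)
    (w : ι → C G k) : wn φ (∑ i ∈ S, w i) ≤ ∑ i ∈ S, wn φ (w i) := by
  classical
  induction S using Finset.induction_on with
  | empty => simp [wn_zero]
  | insert a s ha ih =>
    rw [Finset.sum_insert ha, Finset.sum_insert ha]
    exact (wn_add_le hφ _ _).trans (by linarith)

lemma wn_mono {k : ℕ} {φ ψ : (Fin k → G) → ℝ} {w : C G k} (h : ∀ x ∈ w.support, φ x ≤ ψ x) :
    wn φ w ≤ wn ψ w :=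
  Finset.sum_le_sum fun x hx => mul_le_mul_of_nonneg_left (h x hx) (abs_nonneg _)

lemma wn_mul {k : ℕ} (B : ℝ) (φ : (Fin k → G) → ℝ) (w : C G k) :
    wn (fun x => B * φ x) w = B * wn φ w := by
  rw [wn, wn, Finset.mul_sum]
  exact Finset.sum_congr rfl fun x _ => by ring

lemma map_eq_sum {k : ℕ} {W : Type*} [AddCommMonoid W] [Module ℝ W] (u : C G k →ₗ[ℝ] W)
    (w : C G k) : u w = ∑ x ∈ w.support, w x • u (Finsupp.single x 1) := by
  conv_lhs => rw [← Finsupp.sum_single w]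
  rw [Finsupp.sum, map_sum]
  refine Finset.sum_congr rfl fun x _ => ?_
  rw [← map_smul, Finsupp.smul_single, smul_eq_mul, mul_one]

lemma wn_map_le {k l : ℕ} {φ : (Fin k → G) → ℝ} {ψ : (Fin l → G) → ℝ} (hψ : ∀ x, 0 ≤ ψ x)
    (u : C G k →ₗ[ℝ] C G l) {w : C G k}
    (h : ∀ x ∈ w.support, wn ψ (u (Finsupp.single x 1)) ≤ φ x) : wn ψ (u w) ≤ wn φ w := by
  rw [map_eq_sum u w]
  refine (wn_sum_le hψ _ _).trans ?_
  refine Finset.sum_le_sum fun x hx => ?_
  rw [wn_smul]
  exact mul_le_mul_of_nonneg_left (h x hx) (abs_nonneg _)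

lemma map_mem {k : ℕ} {W : Type*} [AddCommMonoid W] [Module ℝ W] (u : C G k →ₗ[ℝ] W)
    {s : Set (Fin k → G)} {P : Submodule ℝ W} (h : ∀ x ∈ s, u (Finsupp.single x 1) ∈ P)
    {w : C G k} (hw : w ∈ Finsupp.supported ℝ ℝ s) : u w ∈ P := by
  rw [map_eq_sum u w]
  exact Submodule.sum_mem _ fun x hx => P.smul_mem _ (h x ((Finsupp.mem_supported ℝ w).1 hw hx))

lemma single_mem {k : ℕ} {s : Set (Fin k → G)} {x : Fin k → G} (h : x ∈ s) (t : ℝ) :
    (Finsupp.single x t : C G k) ∈ Finsupp.supported ℝ ℝ s :=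
  Finsupp.single_mem_supported ℝ t h

/-- The sum of the weights of the vertices. -/
def vs (u : G → ℝ) {k : ℕ} (x : Fin k → G) : ℝ := ∑ j, u (x j)

lemma vs_nonneg {u : G → ℝ} (hu : ∀ g, 0 ≤ u g) {k : ℕ} (x : Fin k → G) : 0 ≤ vs u x :=
  Finset.sum_nonneg fun j _ => hu _

lemma vs_cons (u : G → ℝ) {k : ℕ} (a : G) (x : Fin k → G) :
    vs u (Fin.cons a x : Fin (k + 1) → G) = u a + vs u x := by
  rw [vs, Fin.sum_univ_succ, Fin.cons_zero]
  simp only [Fin.cons_succ]
  rfl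

/-- The simplices with vertices among the points `f (x i)`, `f' (x i)`. -/
def Vx (f f' : G → G) {k : ℕ} (x : Fin k → G) (l : ℕ) : Set (Fin l → G) :=
  {y | ∀ j, (∃ i, y j = f (x i)) ∨ ∃ i, y j = f' (x i)}

lemma prism_single (f f' : G → G) {k : ℕ} (x : Fin (k + 1) → G) :
    prism f f' (k + 1) (Finsupp.single x 1) = cone (f (x 0))
      (Finsupp.single (fun j => f' (x j)) 1 - prism f f' k (Finsupp.single (Fin.tail x) 1)) := by
  rw [prism, Finsupp.linearCombination_single, one_smul]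

lemma prism_mem (f f' : G → G) {k : ℕ} (x : Fin k → G) :
    prism f f' k (Finsupp.single x 1) ∈ Finsupp.supported ℝ ℝ (Vx f f' x (k + 1)) := by
  induction k with
  | zero => exact Submodule.zero_mem _
  | succ k ih =>
    rw [prism_single]
    have h1 : (Finsupp.single (fun j => f' (x j)) 1 - prism f f' k (Finsupp.single (Fin.tail x) 1) :
        C G (k + 1)) ∈ Finsupp.supported ℝ ℝ (Vx f f' x (k + 1)) := by
      have h2 : (fun j => f' (x j)) ∈ Vx f f' x (k + 1) := fun j => Or.inr ⟨j, rfl⟩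
      refine Submodule.sub_mem _ (single_mem h2 _) ?_
      refine Finsupp.supported_mono ?_ (ih (Fin.tail x))
      intro y hy j
      rcases hy j with ⟨i, hi⟩ | ⟨i, hi⟩
      · exact Or.inl ⟨i.succ, hi⟩
      · exact Or.inr ⟨i.succ, hi⟩
    refine map_mem (cone (f (x 0))) (fun y hy => ?_) h1
    rw [cone_single]
    refine single_mem (fun j => ?_) _
    refine Fin.cases ?_ (fun j => ?_) j
    · exact Or.inl ⟨0, by rw [Fin.cons_zero]⟩
    · rw [Fin.cons_succ]
      exact hy j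

/-- The number of the simplices of a chain, `φ = 1`. -/
lemma wn_cone_one (a : G) {k : ℕ} (w : C G k) : wn (fun _ => 1) (cone a w) ≤ wn (fun _ => 1) w :=
  wn_map_le (fun _ => zero_le_one) _ fun x _ => by rw [cone_single, wn_single, abs_one, one_mul]

lemma wn_prism_one (f f' : G → G) {k : ℕ} (x : Fin k → G) :
    wn (fun _ => 1) (prism f f' k (Finsupp.single x 1)) ≤ k := by
  induction k with
  | zero => simp [prism, wn_zero]
  | succ k ih =>
    rw [prism_single]
    refine (wn_cone_one _ _).trans ((wn_sub_le (fun _ => zero_le_one) _ _).trans ?_)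
    rw [wn_single, abs_one]
    push_cast
    linarith [ih (Fin.tail x)]

/-- If `φ ≤ B` on the support, then `|w|_φ ≤ B |w|_1`. -/
lemma wn_le_of_mem {k : ℕ} {φ : (Fin k → G) → ℝ} {s : Set (Fin k → G)} {B : ℝ}
    (h : ∀ x ∈ s, φ x ≤ B) {w : C G k} (hw : w ∈ Finsupp.supported ℝ ℝ s) :
    wn φ w ≤ B * wn (fun _ => 1) w := by
  rw [← wn_mul]
  exact wn_mono fun x hx => by
    rw [mul_one]; exact h x ((Finsupp.mem_supported ℝ w).1 hw hx)

variable [Group G]

/-- The simplices of diameter at most `r`. -/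
def Rx (ℓ : G → ℝ) (r : ℝ) (k : ℕ) : Set (Fin k → G) := {x | ∀ i j, ℓ ((x i)⁻¹ * x j) ≤ r}

lemma tr_mem {ℓ : G → ℝ} {r : ℝ} {k : ℕ} (g : G) {w : C G k}
    (hw : w ∈ Finsupp.supported ℝ ℝ (Rx ℓ r k)) : tr g w ∈ Finsupp.supported ℝ ℝ (Rx ℓ r k) := by
  refine map_mem (tr g) (fun x hx => ?_) hw
  rw [tr_single]
  refine single_mem (fun i j => ?_) _
  have : (g * x i)⁻¹ * (g * x j) = (x i)⁻¹ * x j := by group
  rw [this]
  exact hx i j

lemma wn_tr_le {u : G → ℝ} {g : G} {B : ℝ} (hu : ∀ g, 0 ≤ u g) (h : ∀ x, u (g * x) ≤ B * u x)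
    {k : ℕ} (w : C G k) : wn (vs u) (tr g w) ≤ B * wn (vs u) w := by
  rw [← wn_mul]
  refine wn_map_le (vs_nonneg hu) _ fun x _ => ?_
  rw [tr_single, wn_single, abs_one, one_mul, vs, vs, Finset.mul_sum]
  exact Finset.sum_le_sum fun j _ => h _

end Pool.Agent.Lib.MP_df705a_gt.Comb
end
end

section

/-!
# Straightening of cocycles in fillable groups
-/

noncomputable section

namespace Pool.Agent.Lib.MP_df705a_gt.Comb

open Pool.Agent.Lib.MP_df705a_gt.SVS (IsLength IsCocycle diam)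

variable {G : Type*} {k n : ℕ}

lemma bd_eq (w : C G (k + 1)) : bd w = d w := by
  rw [bd, d, Finsupp.linearCombination_apply]
  refine Finsupp.sum_congr fun x _ => ?_
  rw [dS, Finset.smul_sum]
  refine Finset.sum_congr rfl fun i _ => ?_
  rw [Finsupp.smul_single, smul_eq_mul, mul_comm]

lemma wnorm_eq (u : G → ℝ) (w : C G k) : wnorm u w = wn (vs u) w := rfl

/-- The linear functional given by a cochain. -/
abbrev Lf (c : (Fin k → G) → ℝ) : C G k →ₗ[ℝ] ℝ := Finsupp.linearCombination ℝ c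

lemma Lf_dS (c : (Fin k → G) → ℝ) (x : Fin (k + 1) → G) :
    Lf c (dS x) = ∑ i : Fin (k + 1), (-1 : ℝ) ^ (i : ℕ) * c fun j => x (i.succAbove j) := by
  rw [dS, map_sum]
  refine Finset.sum_congr rfl fun i _ => ?_
  rw [Finsupp.linearCombination_single, smul_eq_mul]

lemma Lf_d {c : (Fin k → G) → ℝ}
    (h : ∀ x : Fin (k + 1) → G, Lf c (dS x) = 0) (w : C G (k + 1)) : Lf c (d w) = 0 := by
  have h1 : d w = ∑ x ∈ w.support, w x • dS x := by
    rw [d, Finsupp.linearCombination_apply, Finsupp.sum]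
  rw [h1, map_sum]
  exact Finset.sum_eq_zero fun x _ => by rw [map_smul, h, smul_zero]

lemma Lf_lin {l : ℕ} (c : (Fin l → G) → ℝ) (f : (Fin k → G) → C G l) (w : C G k) :
    Lf c (lin f w) = Lf (fun x => Lf c (f x)) w := by
  induction w using Finsupp.induction_linear with
  | zero => simp
  | add f g hf hg => simp only [map_add, hf, hg]
  | single x t => simp

lemma abs_Lf_le {c : (Fin k → G) → ℝ} {s : Set (Fin k → G)} {B : ℝ} (h : ∀ x ∈ s, |c x| ≤ B)
    {w : C G k} (hw : w ∈ Finsupp.supported ℝ ℝ s) : |Lf c w| ≤ B * wn (fun _ => 1) w := by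
  rw [Finsupp.linearCombination_apply, Finsupp.sum, wn, Finset.mul_sum]
  refine (Finset.abs_sum_le_sum_abs _ _).trans (Finset.sum_le_sum fun x hx => ?_)
  rw [smul_eq_mul, abs_mul, mul_one, mul_comm]
  exact mul_le_mul_of_nonneg_right (h x ((Finsupp.mem_supported ℝ w).1 hw hx)) (abs_nonneg _)

variable [Group G]

lemma isRips_iff {ℓ : G → ℝ} {r : ℝ} {w : C G k} :
    IsRips ℓ r w ↔ w ∈ Finsupp.supported ℝ ℝ (Rx ℓ r k) :=
  (Finsupp.mem_supported ℝ w).symm

lemma Lf_tr {c : (Fin k → G) → ℝ} (hc : ∀ γ g, c (fun i => γ * g i) = c g) (g : G) (w : C G k) :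
    Lf c (tr g w) = Lf c w := by
  induction w using Finsupp.induction_linear with
  | zero => simp
  | add f h hf hh => simp only [map_add, hf, hh]
  | single x t =>
    rw [tr_single, Finsupp.linearCombination_single, Finsupp.linearCombination_single, hc]

/-- The spaces of chains. -/
def WW (ℓ : G → ℝ) (r : ℕ → ℝ) (n : ℕ) : (k : ℕ) → Submodule ℝ (C G k)
  | 0 => ⊤
  | k + 1 => if k ≤ n then Finsupp.supported ℝ ℝ (Rx ℓ (r k) (k + 1)) else ⊤

open Classical in
/-- The choice of the fillings. -/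
def FF (ℓ : G → ℝ) (r : ℕ → ℝ) (u : ℕ → G → ℝ) (A : ℝ) : (k : ℕ) → C G k → C G (k + 1)
  | 0 => fun w => cone 1 w
  | k + 1 => fun w => if h : ∃ y : C G (k + 2), y ∈ Finsupp.supported ℝ ℝ (Rx ℓ (r (k + 1)) (k + 2)) ∧
      d y = w ∧ wn (vs (u (k + 1))) y ≤ A * wn (vs (u k)) w then h.choose else cone 1 w

lemma FF_spec {ℓ : G → ℝ} {r : ℕ → ℝ} {u : ℕ → G → ℝ} {A : ℝ} {k : ℕ} {w : C G (k + 1)}
    (h : ∃ y : C G (k + 2), y ∈ Finsupp.supported ℝ ℝ (Rx ℓ (r (k + 1)) (k + 2)) ∧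
      d y = w ∧ wn (vs (u (k + 1))) y ≤ A * wn (vs (u k)) w) :
    FF ℓ r u A (k + 1) w ∈ Finsupp.supported ℝ ℝ (Rx ℓ (r (k + 1)) (k + 2)) ∧
      d (FF ℓ r u A (k + 1) w) = w ∧
      wn (vs (u (k + 1))) (FF ℓ r u A (k + 1) w) ≤ A * wn (vs (u k)) w := by
  have : FF ℓ r u A (k + 1) w = h.choose := dif_pos h
  rw [this]
  exact h.choose_spec

lemma d_FF {ℓ : G → ℝ} {r : ℕ → ℝ} {u : ℕ → G → ℝ} {A : ℝ} {k : ℕ} {w : C G (k + 1)}
    (hw : d w = 0) : d (FF ℓ r u A (k + 1) w) = w := by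
  by_cases h : ∃ y : C G (k + 2), y ∈ Finsupp.supported ℝ ℝ (Rx ℓ (r (k + 1)) (k + 2)) ∧
      d y = w ∧ wn (vs (u (k + 1))) y ≤ A * wn (vs (u k)) w
  · exact (FF_spec h).2.1
  · have : FF ℓ r u A (k + 1) w = cone 1 w := dif_neg h
    rw [this, d_cone, hw, map_zero, sub_zero]

/-- The hypotheses. -/
structure Fl (ℓ : G → ℝ) (r : ℕ → ℝ) (u : ℕ → G → ℝ) (A δ : ℝ) (n : ℕ) : Prop where
  r0 : ∀ i, 0 ≤ r i
  u1 : ∀ i g, 1 ≤ u i g
  um : ∀ i g h, u i (g * h) ≤ A * Real.exp (δ * ℓ g) * u i h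
  fl : ∀ i, i < n → ∀ x : C G (i + 1), x ∈ Finsupp.supported ℝ ℝ (Rx ℓ (r i) (i + 1)) → d x = 0 →
      ∃ y : C G (i + 2), y ∈ Finsupp.supported ℝ ℝ (Rx ℓ (r (i + 1)) (i + 2)) ∧ d y = x ∧
        wn (vs (u (i + 1))) y ≤ A * wn (vs (u i)) x

variable {ℓ : G → ℝ} {r : ℕ → ℝ} {u : ℕ → G → ℝ} {A δ : ℝ}

lemma WW_succ (ℓ : G → ℝ) (r : ℕ → ℝ) (n k : ℕ) : WW ℓ r n (k + 1) =
    if k ≤ n then Finsupp.supported ℝ ℝ (Rx ℓ (r k) (k + 1)) else ⊤ := rfl

lemma isF (hℓ : IsLength ℓ) (H : Fl ℓ r u A δ n) : IsF (FF ℓ r u A) (WW ℓ r n) where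
  top _ := Submodule.mem_top
  tr k g w hw := by
    cases k with
    | zero => exact Submodule.mem_top
    | succ k =>
      by_cases h : k ≤ n
      · have h1 : WW ℓ r n (k + 1) = Finsupp.supported ℝ ℝ (Rx ℓ (r k) (k + 1)) := if_pos h
        rw [h1] at hw ⊢
        exact tr_mem g hw
      · have h1 : WW ℓ r n (k + 1) = ⊤ := if_neg h
        rw [h1]
        exact Submodule.mem_top
  mem_zero w := by
    have h : WW ℓ r n 1 = Finsupp.supported ℝ ℝ (Rx ℓ (r 0) 1) := by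
      rw [WW_succ, if_pos (Nat.zero_le n)]
    rw [h]
    change cone 1 w ∈ _
    refine map_mem (s := Set.univ) (cone 1) (fun x _ => ?_) (by simp)
    rw [cone_single]
    refine single_mem (fun i j => ?_) _
    have hij : i = j := by
      apply Fin.ext
      have h1 := i.2
      have h2 := j.2
      omega
    rw [hij, inv_mul_cancel, hℓ.one]
    exact H.r0 0
  d_zero w := d_cone_zero _ _
  mem k w hw hd := by
    by_cases h : k + 1 ≤ n
    · have h1 : WW ℓ r n (k + 1) = Finsupp.supported ℝ ℝ (Rx ℓ (r k) (k + 1)) :=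
        if_pos (by omega)
      have h2 : WW ℓ r n (k + 2) = Finsupp.supported ℝ ℝ (Rx ℓ (r (k + 1)) (k + 2)) := if_pos h
      rw [h2]
      rw [h1] at hw
      exact (FF_spec (H.fl k (by omega) w hw hd)).1
    · have h2 : WW ℓ r n (k + 2) = ⊤ := if_neg h
      rw [h2]
      exact Submodule.mem_top
  d k w _ hd := d_FF hd

lemma Phi_one (F : (k : ℕ) → C G k → C G (k + 1)) (hF : ∀ w, F 0 w = cone 1 w)
    (x : Fin 1 → G) : Phi F 1 x = Finsupp.single x 1 := by
  have h0 : dS x = (Finsupp.single ![] 1 : C G 0) := by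
    rw [dS, Fin.sum_univ_succ, Fin.sum_univ_zero, add_zero, Fin.val_zero, pow_zero]
    congr 1
    exact Subsingleton.elim _ _
  change tr (x 0) (F 0 (tr (x 0)⁻¹ (lin (Phi F 0) (dS x)))) = _
  have h1 : Phi F 0 = fun x : Fin 0 → G => (Finsupp.single x 1 : C G 0) := rfl
  rw [hF, h0, Finsupp.linearCombination_single, one_smul, h1, tr_single, cone_single, tr_single]
  congr 1
  funext j
  have hj : j = 0 := by
    apply Fin.ext
    have h2 := j.2
    simp only [Fin.val_zero]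
    omega
  rw [hj, Fin.cons_zero, mul_one]

lemma Fl.A_pos (hℓ : IsLength ℓ) (H : Fl ℓ r u A δ n) : 0 < A := by
  have h := H.um 0 1 1
  have h1 := H.u1 0 1
  rw [mul_one, hℓ.one, mul_zero, Real.exp_zero, mul_one] at h
  by_contra h2
  nlinarith

/-- The bound of the chain map. -/
lemma Phi_bound (hℓ : IsLength ℓ) (hδ : 0 ≤ δ) (H : Fl ℓ r u A δ n) (k : ℕ) (hk : k ≤ n) :
    ∃ B : ℝ, 0 ≤ B ∧ ∀ (x : Fin (k + 1) → G) (a : G) (D : ℝ), (∀ j, ℓ (a⁻¹ * x j) ≤ D) →
      (∀ i j, ℓ ((x i)⁻¹ * x j) ≤ D) →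
      wn (vs (u k)) (tr a⁻¹ (Phi (FF ℓ r u A) (k + 1) x)) ≤ B * Real.exp ((k + 1) * (δ * D)) := by
  have hA := H.A_pos hℓ
  have hu0 : ∀ i g, 0 ≤ u i g := fun i g => zero_le_one.trans (H.u1 i g)
  induction k with
  | zero =>
    refine ⟨A * u 0 1, mul_nonneg hA.le (hu0 _ _), fun x a D h1 _ => ?_⟩
    rw [Phi_one _ (fun _ => rfl), tr_single, wn_single, abs_one, one_mul, vs, Fin.sum_univ_succ,
      Fin.sum_univ_zero, add_zero]
    have h2 := H.um 0 (a⁻¹ * x 0) 1
    rw [mul_one] at h2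
    refine h2.trans ?_
    rw [mul_right_comm]
    refine mul_le_mul_of_nonneg_left ?_ (mul_nonneg hA.le (hu0 _ _))
    have h3 : (((0 : ℕ) : ℝ) + 1) * (δ * D) = δ * D := by push_cast; ring
    rw [h3]
    exact Real.exp_le_exp.2 (mul_le_mul_of_nonneg_left (h1 0) hδ)
  | succ k ih =>
    obtain ⟨B, hB, hx⟩ := ih (by omega)
    refine ⟨A * (A * ((k + 2) * B)), by positivity, fun x a D h1 h2 => ?_⟩
    set F := FF ℓ r u A with hF
    have HF := isF hℓ H
    set w := tr (x 0)⁻¹ (lin (Phi F (k + 1)) (dS x)) with hw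
    have hw1 : w ∈ WW ℓ r n (k + 1) :=
      HF.tr _ _ _ (lin_mem (fun y => (Phi_aux HF k y).1) _)
    have hw2 : d w = 0 := by
      rw [hw, d_tr, d_lin fun y => (Phi_aux HF k y).2, d_dS, map_zero, map_zero]
    have h3 : WW ℓ r n (k + 1) = Finsupp.supported ℝ ℝ (Rx ℓ (r k) (k + 1)) := if_pos (by omega)
    rw [h3] at hw1
    have h4 := FF_spec (H.fl k (by omega) w hw1 hw2)
    have h5 : wn (vs (u k)) w ≤ (k + 2) * (B * Real.exp ((k + 1) * (δ * D))) := by
      have h6 : w = ∑ i : Fin (k + 2), (-1 : ℝ) ^ (i : ℕ) •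
          tr (x 0)⁻¹ (Phi F (k + 1) fun j => x (i.succAbove j)) := by
        rw [hw, dS, map_sum, map_sum]
        refine Finset.sum_congr rfl fun i _ => ?_
        rw [Finsupp.linearCombination_single, map_smul]
      rw [h6]
      refine (wn_sum_le (vs_nonneg (hu0 k)) _ _).trans ?_
      have h7 : ∀ i ∈ (Finset.univ : Finset (Fin (k + 2))), wn (vs (u k)) ((-1 : ℝ) ^ (i : ℕ) •
          tr (x 0)⁻¹ (Phi F (k + 1) fun j => x (i.succAbove j))) ≤
          B * Real.exp ((k + 1) * (δ * D)) := by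
        intro i _
        rw [wn_smul, abs_pow, abs_neg, abs_one, one_pow, one_mul]
        exact hx _ _ _ (fun j => h2 _ _) fun i' j => h2 _ _
      refine (Finset.sum_le_sum h7).trans ?_
      rw [Finset.sum_const, Finset.card_univ, Fintype.card_fin, nsmul_eq_mul]
      push_cast
      exact le_of_eq (by ring)
    change wn (vs (u (k + 1))) (tr a⁻¹ (tr (x 0) (F (k + 1) w))) ≤ _
    rw [tr_tr]
    have h8 : ∀ g, u (k + 1) (a⁻¹ * x 0 * g) ≤ A * Real.exp (δ * D) * u (k + 1) g := by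
      intro g
      refine (H.um (k + 1) (a⁻¹ * x 0) g).trans ?_
      refine mul_le_mul_of_nonneg_right ?_ (hu0 _ _)
      refine mul_le_mul_of_nonneg_left ?_ hA.le
      exact Real.exp_le_exp.2 (mul_le_mul_of_nonneg_left (h1 0) hδ)
    refine (wn_tr_le (hu0 (k + 1)) h8 _).trans ?_
    have h9 : (0 : ℝ) ≤ A * Real.exp (δ * D) := by positivity
    refine (mul_le_mul_of_nonneg_left (h4.2.2.trans (mul_le_mul_of_nonneg_left h5 hA.le)) h9).trans
      (le_of_eq ?_)
    have h10 : Real.exp (((k + 1 : ℕ) + 1) * (δ * D)) =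
        Real.exp (δ * D) * Real.exp ((k + 1) * (δ * D)) := by
      rw [← Real.exp_add]
      congr 1
      push_cast
      ring
    rw [h10]
    ring

end Pool.Agent.Lib.MP_df705a_gt.Comb
end
end

section

/-!
# Straightening of cocycles in fillable groups: the theorem
-/

noncomputable section

namespace Pool.Agent.Lib.MP_df705a_gt.Comb

open Pool.Agent.Lib.MP_df705a_gt.SVS (IsLength IsCocycle diam)

variable {G : Type*} [Group G] {n : ℕ} {ℓ : G → ℝ}

lemma le_diam (ℓ : G → ℝ) (g : Fin (n + 1) → G) (i j : Fin (n + 1)) :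
    ℓ ((g i)⁻¹ * g j) ≤ diam ℓ g :=
  le_ciSup (f := fun p : Fin (n + 1) × Fin (n + 1) => ℓ ((g p.1)⁻¹ * g p.2))
    (Set.finite_range _).bddAbove (i, j)

lemma Fillable.fl (h : Fillable ℓ n) {δ : ℝ} (hδ : 0 < δ) :
    ∃ (u : ℕ → G → ℝ) (r : ℕ → ℝ) (A : ℝ), Fl ℓ r u A δ n := by
  obtain ⟨u, r, A, h1, h2, h3, h4⟩ := h δ hδ
  refine ⟨u, r, A, h1, h2, h3, fun i hi x hx hd => ?_⟩
  obtain ⟨y, hy1, hy2, hy3⟩ := h4 i hi x (isRips_iff.2 hx) (by rw [bd_eq, hd])
  exact ⟨y, isRips_iff.1 hy1, by rw [← bd_eq, hy2], hy3⟩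

lemma exists_bound (hfin : ∀ r, {g | ℓ g ≤ r}.Finite) {c : (Fin (n + 1) → G) → ℝ}
    (inv : ∀ γ g, c (fun i => γ * g i) = c g) (r : ℝ) :
    ∃ B, 0 ≤ B ∧ ∀ x ∈ Rx ℓ r (n + 1), |c x| ≤ B := by
  have h1 : {x : Fin (n + 1) → G | ∀ j, ℓ (x j) ≤ r}.Finite := by
    have h2 := Set.Finite.pi (t := fun _ : Fin (n + 1) => {g | ℓ g ≤ r}) fun _ => hfin r
    refine h2.subset fun x hx j _ => hx j
  obtain ⟨B, hB⟩ := (h1.image fun x => |c x|).bddAbove
  refine ⟨max B 0, le_max_right _ _, fun x hx => ?_⟩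
  rw [← inv (x 0)⁻¹ x]
  refine le_trans ?_ (le_max_left _ _)
  exact hB ⟨fun i => (x 0)⁻¹ * x i, fun j => hx 0 j, rfl⟩

/-- Every cocycle of a fillable group is cohomologous to a cocycle of small exponential growth. -/
theorem exists_straight (hℓ : IsLength ℓ) (hfin : ∀ r, {g | ℓ g ≤ r}.Finite)
    (hF : Fillable ℓ n) {δ : ℝ} (hδ : 0 < δ) {c' : (Fin (n + 1) → G) → ℝ}
    (inv : ∀ γ g, c' (fun i => γ * g i) = c' g)
    (coc : ∀ g : Fin (n + 2) → G,
      ∑ i : Fin (n + 2), (-1 : ℝ) ^ (i : ℕ) * c' (fun j => g (i.succAbove j)) = 0) :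
    ∃ (c : (Fin (n + 1) → G) → ℝ) (b : (Fin n → G) → ℝ), IsCocycle ℓ δ c ∧
      (∀ γ g, b (fun i => γ * g i) = b g) ∧
      ∀ g, c' g - c g = ∑ i : Fin (n + 1), (-1 : ℝ) ^ (i : ℕ) * b fun j => g (i.succAbove j) := by
  obtain ⟨u, r, A, H⟩ := hF.fl (δ := δ / (n + 1)) (by positivity)
  have HF := isF hℓ H
  set F := FF ℓ r u A with hFd
  obtain ⟨B, hB, hPhi⟩ := Phi_bound hℓ (by positivity : (0 : ℝ) ≤ δ / (n + 1)) H n le_rfl
  obtain ⟨B', hB', hc'⟩ := exists_bound hfin inv (r n)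
  have coc' : ∀ x : Fin (n + 2) → G, Lf c' (dS x) = 0 := fun x => by rw [Lf_dS, coc]
  refine ⟨fun x => Lf c' (Phi F (n + 1) x), fun x => Lf c' (Psi F n x), ⟨?_, ?_, ?_⟩, ?_, ?_⟩
  · intro γ g
    rw [Phi_tr, Lf_tr inv]
  · intro g
    rw [← Lf_dS (fun x => Lf c' (Phi F (n + 1) x)) g, ← Lf_lin, ← d_Phi HF, Lf_d coc']
  · refine ⟨B' * B, fun g => ?_⟩
    have h1 : Phi F (n + 1) g ∈ Finsupp.supported ℝ ℝ (Rx ℓ (r n) (n + 1)) := by
      have h2 := Phi_mem HF (n + 1) g
      rwa [WW_succ, if_pos le_rfl] at h2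
    have h3 : tr (g 0)⁻¹ (Phi F (n + 1) g) ∈ Finsupp.supported ℝ ℝ (Rx ℓ (r n) (n + 1)) :=
      tr_mem _ h1
    have h4 := hPhi g (g 0) (diam ℓ g) (fun j => le_diam ℓ g 0 j) fun i j => le_diam ℓ g i j
    have h5 : wn (fun _ => 1) (tr (g 0)⁻¹ (Phi F (n + 1) g)) ≤
        wn (vs (u n)) (tr (g 0)⁻¹ (Phi F (n + 1) g)) := by
      refine wn_mono fun x _ => ?_
      rw [vs, Fin.sum_univ_succ]
      have h6 : 0 ≤ ∑ i : Fin n, u n (x i.succ) :=
        Finset.sum_nonneg fun i _ => zero_le_one.trans (H.u1 _ _)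
      have h7 := H.u1 n (x 0)
      linarith
    have h8 : ((n : ℝ) + 1) * (δ / (n + 1) * diam ℓ g) = δ * diam ℓ g := by
      field_simp
    rw [h8] at h4
    have h9 : |Lf c' (Phi F (n + 1) g)| ≤ B' * wn (fun _ => 1) (tr (g 0)⁻¹ (Phi F (n + 1) g)) := by
      rw [← Lf_tr inv (g 0)⁻¹]
      exact abs_Lf_le hc' h3
    calc |Lf c' (Phi F (n + 1) g)| ≤ B' * wn (fun _ => 1) (tr (g 0)⁻¹ (Phi F (n + 1) g)) := h9
      _ ≤ B' * (B * Real.exp (δ * diam ℓ g)) :=
          mul_le_mul_of_nonneg_left (h5.trans h4) hB'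
      _ = B' * B * Real.exp (δ * diam ℓ g) := by ring
  · intro γ g
    change Lf c' (Psi F n fun i => γ * g i) = Lf c' (Psi F n g)
    rw [Psi_tr, Lf_tr inv]
  · intro g
    rw [← Lf_dS (fun x => Lf c' (Psi F n x)) g, ← Lf_lin]
    have h1 : c' g = Lf c' (Finsupp.single g 1) := by
      rw [Finsupp.linearCombination_single, one_smul]
    have h2 := congrArg (Lf c') (d_Psi HF n g)
    rw [Lf_d coc', map_sub, map_sub] at h2
    rw [h1]
    linarith

end Pool.Agent.Lib.MP_df705a_gt.Comb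
end
end

section

/-!
# The fundamental cycle is a cycle; all cocycles of a fillable group vanish on it
-/

noncomputable section

namespace Pool.Agent.Lib.MP_df705a_gt.Comb

open Pool.Agent.Lib.MP_df705a_gt.SVS (IsLength IsCocycle diam smp)

variable {G : Type*} [Group G] {n : ℕ} {ℓ : G → ℝ}

lemma diam_nonneg (hℓ : IsLength ℓ) (g : Fin (n + 1) → G) : 0 ≤ diam ℓ g := by
  have h := le_diam ℓ g 0 0
  rwa [inv_mul_cancel, hℓ.one] at h

omit [Group G] in
lemma lin_dS {k : ℕ} (w : C G (k + 1)) : lin dS w = d w := rfl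

/-- The coboundary of a bounded cochain is a cocycle. -/
lemma isCocycle_del (hℓ : IsLength ℓ) {δ : ℝ} (hδ : 0 ≤ δ) {b : (Fin n → G) → ℝ}
    (inv : ∀ γ g, b (fun i => γ * g i) = b g) {B : ℝ} (hB : ∀ g, |b g| ≤ B) :
    IsCocycle ℓ δ fun g : Fin (n + 1) → G =>
      ∑ i : Fin (n + 1), (-1 : ℝ) ^ (i : ℕ) * b fun j => g (i.succAbove j) := by
  refine ⟨fun γ g => ?_, fun g => ?_, ⟨(n + 1) * B, fun g => ?_⟩⟩
  · exact Finset.sum_congr rfl fun i _ => by rw [inv γ fun j => g (i.succAbove j)]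
  · have h1 : Lf (fun g => Lf b (dS g)) (dS g) = 0 := by
      rw [← Lf_lin, lin_dS, d_dS, map_zero]
    rw [Lf_dS] at h1
    rw [← h1]
    refine Finset.sum_congr rfl fun i _ => ?_
    rw [Lf_dS]
  · have h0 : (0 : ℝ) ≤ (n + 1) * B := by
      have := (abs_nonneg _).trans (hB fun _ => 1)
      positivity
    have h1 : |∑ i : Fin (n + 1), (-1 : ℝ) ^ (i : ℕ) * b fun j => g (i.succAbove j)| ≤
        (n + 1) * B := by
      refine (Finset.abs_sum_le_sum_abs _ _).trans ?_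
      refine (Finset.sum_le_sum (g := fun _ => B) fun i _ => ?_).trans ?_
      · rw [abs_mul, abs_pow, abs_neg, abs_one, one_pow, one_mul]
        exact hB _
      · rw [Finset.sum_const, Finset.card_univ, Fintype.card_fin, nsmul_eq_mul]
        push_cast
        exact le_rfl
    have h2 : 1 ≤ Real.exp (δ * diam ℓ g) :=
      Real.one_le_exp (mul_nonneg hδ (diam_nonneg hℓ g))
    nlinarith

theorem cycle (hℓ : IsLength ℓ) {δ : ℝ} (hδ : 0 ≤ δ) {z : (Fin n → G) → ℝ}
    (hz : (Function.support z).Finite)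
    (hA : ∀ c, IsCocycle ℓ δ c → ∑ᶠ h, z h * c (smp h) = 0) {b : (Fin n → G) → ℝ}
    (inv : ∀ γ g, b (fun i => γ * g i) = b g) :
    ∑ᶠ h, z h * ∑ i : Fin (n + 1), (-1 : ℝ) ^ (i : ℕ) * b (fun j => smp h (i.succAbove j)) = 0 := by
  classical
  set F : Finset (Fin n → G) := hz.toFinset.biUnion fun h => Finset.univ.image
    fun (i : Fin (n + 1)) (j : Fin n) => smp h (i.succAbove j) with hF
  set b' : (Fin n → G) → ℝ := fun g => if ∃ γ : G, (fun j => γ * g j) ∈ F then b g else 0 with hb'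
  have hinv : ∀ γ g, b' (fun i => γ * g i) = b' g := by
    intro γ g
    have h1 : (∃ γ' : G, (fun j => γ' * (γ * g j)) ∈ F) ↔ ∃ γ' : G, (fun j => γ' * g j) ∈ F := by
      constructor
      · rintro ⟨γ', h⟩
        refine ⟨γ' * γ, ?_⟩
        simpa only [mul_assoc] using h
      · rintro ⟨γ', h⟩
        refine ⟨γ' * γ⁻¹, ?_⟩
        have : (fun j => γ' * γ⁻¹ * (γ * g j)) = fun j => γ' * g j := by
          funext j; group
        rwa [this]
    change (if ∃ γ' : G, (fun j => γ' * (γ * g j)) ∈ F then b (fun i => γ * g i) else 0) =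
      if ∃ γ' : G, (fun j => γ' * g j) ∈ F then b g else 0
    by_cases h : ∃ γ' : G, (fun j => γ' * g j) ∈ F
    · rw [if_pos h, if_pos (h1.2 h), inv]
    · rw [if_neg h, if_neg fun h2 => h (h1.1 h2)]
  have hbd : ∀ g, |b' g| ≤ ∑ x ∈ F, |b x| := by
    intro g
    by_cases h : ∃ γ' : G, (fun j => γ' * g j) ∈ F
    · obtain ⟨γ, hγ⟩ := h
      have h1 : b' g = b g := if_pos ⟨γ, hγ⟩
      rw [h1, ← inv γ g]
      exact Finset.single_le_sum (f := fun x => |b x|) (fun x _ => abs_nonneg _) hγ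
    · have h1 : b' g = 0 := if_neg h
      rw [h1, abs_zero]
      exact Finset.sum_nonneg fun x _ => abs_nonneg _
  have h := hA _ (isCocycle_del hℓ hδ hinv hbd)
  rw [← h]
  refine finsum_congr fun x => ?_
  by_cases hx : z x = 0
  · rw [hx, zero_mul, zero_mul]
  · congr 1
    refine Finset.sum_congr rfl fun i _ => ?_
    congr 1
    refine (if_pos ⟨1, ?_⟩).symm
    simp only [one_mul]
    rw [hF, Finset.mem_biUnion]
    exact ⟨x, by simpa using hx, Finset.mem_image.2 ⟨i, Finset.mem_univ _, rfl⟩⟩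

/-- All the cocycles of a fillable group vanish on the fundamental cycle. -/
theorem all_zero (hℓ : IsLength ℓ) (hfin : ∀ r, {g | ℓ g ≤ r}.Finite) (hF : Fillable ℓ n)
    {δ : ℝ} (hδ : 0 < δ) {z : (Fin n → G) → ℝ} (hz : (Function.support z).Finite)
    (hA : ∀ c, IsCocycle ℓ δ c → ∑ᶠ h, z h * c (smp h) = 0) {c' : (Fin (n + 1) → G) → ℝ}
    (inv : ∀ γ g, c' (fun i => γ * g i) = c' g)
    (coc : ∀ g : Fin (n + 2) → G,
      ∑ i : Fin (n + 2), (-1 : ℝ) ^ (i : ℕ) * c' (fun j => g (i.succAbove j)) = 0) :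
    ∑ᶠ h, z h * c' (smp h) = 0 := by
  obtain ⟨c, b, hc, hb, h⟩ := exists_straight hℓ hfin hF hδ inv coc
  have h1 := cycle hℓ hδ.le hz hA hb
  have h2 := hA c hc
  have h3 : ∀ x, z x * c' (smp x) = z x * c (smp x) + z x *
      ∑ i : Fin (n + 1), (-1 : ℝ) ^ (i : ℕ) * b (fun j => smp x (i.succAbove j)) := by
    intro x
    rw [← h (smp x)]
    ring
  rw [finsum_congr h3, finsum_add_distrib, h1, h2, add_zero]
  · exact hz.subset fun x hx => left_ne_zero_of_mul hx
  · exact hz.subset fun x hx => left_ne_zero_of_mul hx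

end Pool.Agent.Lib.MP_df705a_gt.Comb
end
end

section

/-!
# Straightening of the cocycles of a subgroup of finite index of a fillable group
-/

noncomputable section

namespace Pool.Agent.Lib.MP_df705a_gt.CGN

open Pool.Agent.Lib.MP_df705a_gt.SVS (IsLength IsCocycle diam smp)
open Pool.Agent.Lib.MP_df705a_gt.Comb

variable {G : Type*} [Group G] {n : ℕ} {ℓ : G → ℝ}

/-- A retraction of the group to a subgroup of finite index, equivariant for the left
multiplication by the subgroup. -/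
theorem exists_retraction (K : Subgroup G) [K.FiniteIndex] : ∃ ρ : G → K,
    (∀ (γ : K) (g : G), ρ ((γ : G) * g) = γ * ρ g) ∧ (∀ γ : K, ρ (γ : G) = γ) ∧
      {x : G | ∃ g, x = ((ρ g : K) : G)⁻¹ * g}.Finite := by
  have : Finite (Quotient (QuotientGroup.rightRel K)) :=
    Finite.of_equiv _ (QuotientGroup.quotientRightRelEquivQuotientLeftRel K).symm
  set out : G → G := fun g => Quotient.out (Quotient.mk (QuotientGroup.rightRel K) g) with hout
  have h1 : ∀ g, g * (out g)⁻¹ ∈ K := by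
    intro g
    have h2 : (QuotientGroup.rightRel K) (out g) g := Quotient.mk_out g
    rwa [QuotientGroup.rightRel_apply] at h2
  have h2 : ∀ (γ : K) (g : G), out ((γ : G) * g) = out g := by
    intro γ g
    have h3 : Quotient.mk (QuotientGroup.rightRel K) ((γ : G) * g) =
        Quotient.mk (QuotientGroup.rightRel K) g := by
      apply Quotient.sound
      change (QuotientGroup.rightRel K) _ _
      rw [QuotientGroup.rightRel_apply]
      have : g * ((γ : G) * g)⁻¹ = ((γ : G))⁻¹ := by group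
      rw [this]
      exact K.inv_mem γ.2
    rw [hout]
    change Quotient.out (Quotient.mk (QuotientGroup.rightRel K) ((γ : G) * g)) = _
    rw [h3]
  have h4 : out 1 ∈ K := by
    have h5 := h1 1
    rw [one_mul] at h5
    exact K.inv_mem_iff.1 h5
  refine ⟨fun g => ⟨g * (out g)⁻¹ * out 1, K.mul_mem (h1 g) h4⟩, fun γ g => ?_, fun γ => ?_, ?_⟩
  · apply Subtype.ext
    change (γ : G) * g * (out ((γ : G) * g))⁻¹ * out 1 = (γ : G) * (g * (out g)⁻¹ * out 1)
    rw [h2]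
    group
  · apply Subtype.ext
    change (γ : G) * (out (γ : G))⁻¹ * out 1 = γ
    have h5 := h2 γ 1
    rw [mul_one] at h5
    rw [h5]
    group
  · have h6 : (Set.range fun c : Quotient (QuotientGroup.rightRel K) =>
        (out 1)⁻¹ * Quotient.out c).Finite := Set.finite_range _
    refine h6.subset ?_
    rintro x ⟨g, rfl⟩
    refine ⟨Quotient.mk (QuotientGroup.rightRel K) g, ?_⟩
    change (out 1)⁻¹ * out g = (g * (out g)⁻¹ * out 1)⁻¹ * g
    group

variable {K : Subgroup G}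

/-- An invariant function is bounded on the simplices of bounded diameter. -/
lemma exists_bound (hfin : ∀ r, {g | ℓ g ≤ r}.Finite) {ρ : G → K}
    (hρ : {x : G | ∃ g, x = ((ρ g : K) : G)⁻¹ * g}.Finite) {c : (Fin (n + 1) → G) → ℝ}
    (inv : ∀ (γ : K) g, c (fun i => (γ : G) * g i) = c g) (r : ℝ) :
    ∃ B, 0 ≤ B ∧ ∀ x ∈ Rx ℓ r (n + 1), |c x| ≤ B := by
  set T : Set G := {x : G | ∃ g, x = ((ρ g : K) : G)⁻¹ * g} with hT
  set S : Set G := Set.image2 (fun a b => a * b) T {g | ℓ g ≤ r} with hS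
  have hSf : S.Finite := Set.Finite.image2 _ hρ (hfin r)
  have h1 : {x : Fin (n + 1) → G | ∀ j, x j ∈ S}.Finite := by
    have h2 := Set.Finite.pi (t := fun _ : Fin (n + 1) => S) fun _ => hSf
    refine h2.subset fun x hx j _ => hx j
  obtain ⟨B, hB⟩ := (h1.image fun x => |c x|).bddAbove
  refine ⟨max B 0, le_max_right _ _, fun x hx => ?_⟩
  rw [← inv (ρ (x 0))⁻¹ x]
  refine le_trans ?_ (le_max_left _ _)
  refine hB ⟨fun i => (((ρ (x 0))⁻¹ : K) : G) * x i, fun j => ?_, rfl⟩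
  refine ⟨((ρ (x 0) : K) : G)⁻¹ * x 0, ⟨x 0, rfl⟩, (x 0)⁻¹ * x j, hx 0 j, ?_⟩
  change ((ρ (x 0) : K) : G)⁻¹ * x 0 * ((x 0)⁻¹ * x j) = (((ρ (x 0))⁻¹ : K) : G) * x j
  rw [Subgroup.coe_inv]
  group

lemma Lf_tr {k : ℕ} {c : (Fin k → G) → ℝ} {g : G}
    (hc : ∀ x, c (fun i => g * x i) = c x) (w : C G k) : Lf c (tr g w) = Lf c w := by
  induction w using Finsupp.induction_linear with
  | zero => simp
  | add f h hf hh => simp only [map_add, hf, hh]
  | single x t =>
    rw [tr_single, Finsupp.linearCombination_single, Finsupp.linearCombination_single, hc]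

/-- Every cocycle of a subgroup of finite index of a fillable group is cohomologous to a cocycle of
small exponential growth. -/
theorem exists_straight [K.FiniteIndex] (hℓ : IsLength ℓ) (hfin : ∀ r, {g | ℓ g ≤ r}.Finite)
    (hF : Fillable ℓ n) {δ : ℝ} (hδ : 0 < δ) {c' : (Fin (n + 1) → K) → ℝ}
    (inv : ∀ γ g, c' (fun i => γ * g i) = c' g)
    (coc : ∀ g : Fin (n + 2) → K,
      ∑ i : Fin (n + 2), (-1 : ℝ) ^ (i : ℕ) * c' (fun j => g (i.succAbove j)) = 0) :
    ∃ (c : (Fin (n + 1) → K) → ℝ) (b : (Fin n → K) → ℝ),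
      IsCocycle (fun γ : K => ℓ γ) δ c ∧ (∀ γ g, b (fun i => γ * g i) = b g) ∧
      ∀ g, c' g - c g = ∑ i : Fin (n + 1), (-1 : ℝ) ^ (i : ℕ) * b fun j => g (i.succAbove j) := by
  obtain ⟨ρ, hρ1, hρ2, hρ3⟩ := exists_retraction K
  set c₀ : (Fin (n + 1) → G) → ℝ := fun x => c' fun i => ρ (x i) with hc₀
  have inv₀ : ∀ (γ : K) (x : Fin (n + 1) → G), c₀ (fun i => (γ : G) * x i) = c₀ x := by
    intro γ x
    change c' (fun i => ρ ((γ : G) * x i)) = c' fun i => ρ (x i)
    rw [← inv γ fun i => ρ (x i)]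
    congr 1
    funext i
    exact hρ1 _ _
  obtain ⟨u, r, A, H⟩ := hF.fl (δ := δ / (n + 1)) (by positivity)
  have HF := isF hℓ H
  set F := FF ℓ r u A with hFd
  obtain ⟨B, hB, hPhi⟩ := Phi_bound hℓ (by positivity : (0 : ℝ) ≤ δ / (n + 1)) H n le_rfl
  obtain ⟨B', hB', hc'⟩ := exists_bound hfin hρ3 inv₀ (r n)
  have coc' : ∀ x : Fin (n + 2) → G, Lf c₀ (dS x) = 0 := fun x => by
    rw [Lf_dS]
    exact coc fun i => ρ (x i)
  refine ⟨fun x => Lf c₀ (Phi F (n + 1) fun i => (x i : G)),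
    fun x => Lf c₀ (Psi F n fun i => (x i : G)), ⟨?_, ?_, ?_⟩, ?_, ?_⟩
  · intro γ g
    change Lf c₀ (Phi F (n + 1) fun i => (γ : G) * (g i : G)) = _
    rw [Phi_tr, Lf_tr (fun x => inv₀ γ x)]
  · intro g
    have h1 := Lf_dS (fun x => Lf c₀ (Phi F (n + 1) x)) fun i => (g i : G)
    refine Eq.trans (b := Lf (fun x => Lf c₀ (Phi F (n + 1) x)) (dS fun i => (g i : G)))
      h1.symm ?_
    rw [← Lf_lin, ← d_Phi HF, Lf_d coc']
  · refine ⟨B' * B, fun g => ?_⟩
    set x : Fin (n + 1) → G := fun i => (g i : G) with hx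
    have hdi : diam (fun γ : K => ℓ γ) g = diam ℓ x := rfl
    rw [hdi]
    change |Lf c₀ (Phi F (n + 1) x)| ≤ _
    have h1 : Phi F (n + 1) x ∈ Finsupp.supported ℝ ℝ (Rx ℓ (r n) (n + 1)) := by
      have h2 := Phi_mem HF (n + 1) x
      rwa [WW_succ, if_pos le_rfl] at h2
    have h3 : tr (x 0)⁻¹ (Phi F (n + 1) x) ∈ Finsupp.supported ℝ ℝ (Rx ℓ (r n) (n + 1)) :=
      tr_mem _ h1
    have h4 := hPhi x (x 0) (diam ℓ x) (fun j => le_diam ℓ x 0 j) fun i j => le_diam ℓ x i j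
    have h5 : wn (fun _ => 1) (tr (x 0)⁻¹ (Phi F (n + 1) x)) ≤
        wn (vs (u n)) (tr (x 0)⁻¹ (Phi F (n + 1) x)) := by
      refine wn_mono fun y _ => ?_
      rw [vs, Fin.sum_univ_succ]
      have h6 : 0 ≤ ∑ i : Fin n, u n (y i.succ) :=
        Finset.sum_nonneg fun i _ => zero_le_one.trans (H.u1 _ _)
      have h7 := H.u1 n (y 0)
      linarith
    have h8 : ((n : ℝ) + 1) * (δ / (n + 1) * diam ℓ x) = δ * diam ℓ x := by
      field_simp
    rw [h8] at h4
    have h9 : |Lf c₀ (Phi F (n + 1) x)| ≤ B' * wn (fun _ => 1) (tr (x 0)⁻¹ (Phi F (n + 1) x)) := by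
      have h10 : Lf c₀ (tr (x 0)⁻¹ (Phi F (n + 1) x)) = Lf c₀ (Phi F (n + 1) x) :=
        Lf_tr (fun y => inv₀ (g 0)⁻¹ y) _
      rw [← h10]
      exact abs_Lf_le hc' h3
    calc |Lf c₀ (Phi F (n + 1) x)| ≤ B' * wn (fun _ => 1) (tr (x 0)⁻¹ (Phi F (n + 1) x)) := h9
      _ ≤ B' * (B * Real.exp (δ * diam ℓ x)) :=
          mul_le_mul_of_nonneg_left (h5.trans h4) hB'
      _ = B' * B * Real.exp (δ * diam ℓ x) := by ring
  · intro γ g
    change Lf c₀ (Psi F n fun i => (γ : G) * (g i : G)) = Lf c₀ (Psi F n fun i => (g i : G))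
    rw [Psi_tr, Lf_tr (fun x => inv₀ γ x)]
  · intro g
    set x : Fin (n + 1) → G := fun i => (g i : G) with hx
    change c' g - Lf c₀ (Phi F (n + 1) x) =
      ∑ i : Fin (n + 1), (-1 : ℝ) ^ (i : ℕ) * Lf c₀ (Psi F n fun j => x (i.succAbove j))
    rw [← Lf_dS (fun x => Lf c₀ (Psi F n x)) x, ← Lf_lin]
    have h0 : c' g = c₀ x := by
      change c' g = c' fun i => ρ (g i : G)
      congr 1
      funext i
      exact (hρ2 (g i)).symm
    have h1 : c₀ x = Lf c₀ (Finsupp.single x 1) := by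
      rw [Finsupp.linearCombination_single, one_smul]
    have h2 := congrArg (Lf c₀) (d_Psi HF n x)
    rw [Lf_d coc', map_sub, map_sub] at h2
    rw [h0, h1]
    linarith

/-- All the cocycles of a subgroup of finite index of a fillable group vanish on the fundamental
cycle. -/
theorem all_zero [K.FiniteIndex] (hℓ : IsLength ℓ) (hfin : ∀ r, {g | ℓ g ≤ r}.Finite)
    (hF : Fillable ℓ n) {δ : ℝ} (hδ : 0 < δ) {z : (Fin n → K) → ℝ}
    (hz : (Function.support z).Finite)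
    (hA : ∀ c, IsCocycle (fun γ : K => ℓ γ) δ c → ∑ᶠ h, z h * c (smp h) = 0)
    {c' : (Fin (n + 1) → K) → ℝ} (inv : ∀ γ g, c' (fun i => γ * g i) = c' g)
    (coc : ∀ g : Fin (n + 2) → K,
      ∑ i : Fin (n + 2), (-1 : ℝ) ^ (i : ℕ) * c' (fun j => g (i.succAbove j)) = 0) :
    ∑ᶠ h, z h * c' (smp h) = 0 := by
  have hℓ' : IsLength (fun γ : K => ℓ γ) :=
    ⟨hℓ.one, fun g => hℓ.nonneg g, fun g => hℓ.inv g, fun g h => hℓ.mul g h⟩
  obtain ⟨c, b, hc, hb, h⟩ := exists_straight hℓ hfin hF hδ inv coc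
  have h1 := cycle hℓ' hδ.le hz hA hb
  have h2 := hA c hc
  have h3 : ∀ x, z x * c' (smp x) = z x * c (smp x) + z x *
      ∑ i : Fin (n + 1), (-1 : ℝ) ^ (i : ℕ) * b (fun j => smp x (i.succAbove j)) := by
    intro x
    rw [← h (smp x)]
    ring
  rw [finsum_congr h3, finsum_add_distrib, h1, h2, add_zero]
  · exact hz.subset fun x hx => left_ne_zero_of_mul hx
  · exact hz.subset fun x hx => left_ne_zero_of_mul hx

end Pool.Agent.Lib.MP_df705a_gt.CGN
end
end
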