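import Mathlib

section

/-!
# RL2: definitions (interface of the campaign)

`N = 2 * m` is the dimension, `V N` the coordinate space, `Sp m` the spinors, `En m` their
endomorphisms. A coframe `θ` with its connection matrices `Γ` is a `Geo`.
-/

open scoped ContDiff InnerProductSpace Matrix ENNReal
open MeasureTheory

noncomputable section

namespace Pool.Agent.Lib.MP_df705a_gt.RL

/-- The coordinate space. -/
abbrev V (N : ℕ) : Type := EuclideanSpace ℝ (Fin N)

/-- The space of spinors. -/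
abbrev Sp (m : ℕ) : Type := EuclideanSpace ℂ (Fin (2 ^ m))

/-- The endomorphisms of the space of spinors. -/
abbrev En (m : ℕ) : Type := Sp m →L[ℂ] Sp m

/-- Real square matrices. -/
abbrev Mt (N : ℕ) : Type := Matrix (Fin N) (Fin N) ℝ

/-- The standard basis vectors of the coordinate space. -/
def bv {N : ℕ} (μ : Fin N) : V N := EuclideanSpace.single μ (1 : ℝ)

/-- The standard basis vectors of the space of spinors. -/
def sb {m : ℕ} (j : Fin (2 ^ m)) : Sp m := EuclideanSpace.single j (1 : ℂ)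

/-- The partial derivative `∂_μ f`. -/
def pd {N : ℕ} {F : Type*} [NormedAddCommGroup F] [NormedSpace ℝ F] (μ : Fin N) (f : V N → F)
    (y : V N) : F :=
  fderiv ℝ f y (bv μ)

/-- The trace of an endomorphism of the space of spinors. -/
def tr {m : ℕ} (A : En m) : ℂ := LinearMap.trace ℂ (Sp m) (A : Sp m →ₗ[ℂ] Sp m)

/-- The adjoint. -/
abbrev adj {H K : Type*} [NormedAddCommGroup H] [InnerProductSpace ℂ H] [CompleteSpace H]
    [NormedAddCommGroup K] [InnerProductSpace ℂ K] [CompleteSpace K] (A : H →L[ℂ] K) : K →L[ℂ] H :=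
  ContinuousLinearMap.adjoint A

/-! ## Clifford algebra -/

/-- Clifford matrices. -/
structure Cliff (m : ℕ) where
  c : Fin (2 * m) → En m
  skew : ∀ a, adj (c a) = - c a
  rel : ∀ a b, c a * c b + c b * c a = (if a = b then (-2 : ℂ) else 0) • (1 : En m)

/-- The product of all Clifford matrices. -/
def Cliff.top {m : ℕ} (C : Cliff m) : En m := (List.ofFn C.c).prod

/-- The chirality operator. -/
def Cliff.eps {m : ℕ} (C : Cliff m) : En m := (Complex.I ^ m) • C.top

/-- The complex span of the products of at most `d` Clifford matrices. -/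
def Cliff.Cl {m : ℕ} (C : Cliff m) (d : ℕ) : Submodule ℂ (En m) :=
  Submodule.span ℂ {A | ∃ l : List (Fin (2 * m)), l.length ≤ d ∧ A = (l.map C.c).prod}

/-- The real span of the products of Clifford matrices. -/
def Cliff.Re {m : ℕ} (C : Cliff m) : Submodule ℝ (En m) :=
  Submodule.span ℝ {A | ∃ l : List (Fin (2 * m)), A = (l.map C.c).prod}

/-- The spin representation of the antisymmetric matrices. -/
def Cliff.spin {m : ℕ} (C : Cliff m) (A : Mt (2 * m)) : En m :=
  (-(1 / 4) : ℂ) • ∑ a, ∑ b, (A a b : ℂ) • (C.c a * C.c b)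

/-- The Clifford action `∑ Ω_ab c_a c_b` of a two-form. -/
def Cliff.two {m : ℕ} (C : Cliff m) (Ω : Mt (2 * m)) : En m :=
  ∑ a, ∑ b, (Ω a b : ℂ) • (C.c a * C.c b)

/-- The top degree part of the product of `m` two-forms (`2 ^ m` times the coefficient of their
wedge product). -/
def pf {m : ℕ} (Ω : Fin m → Mt (2 * m)) : ℝ :=
  ∑ σ : Equiv.Perm (Fin (2 * m)), ((Equiv.Perm.sign σ : ℤ) : ℝ) *
    ∏ r : Fin m, Ω r (σ ⟨2 * r, by omega⟩) (σ ⟨2 * r + 1, by omega⟩)

/-! ## Geometry -/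

/-- A coframe `θ` with its dual frame `e` and its Levi-Civita connection matrices `Γ`. -/
structure Geo (N : ℕ) where
  θ : V N → Mt N
  e : V N → Mt N
  Γ : Fin N → V N → Mt N
  smooth_θ : ∀ a μ, ContDiff ℝ ∞ fun y => θ y a μ
  smooth_e : ∀ μ a, ContDiff ℝ ∞ fun y => e y μ a
  smooth_Γ : ∀ μ a b, ContDiff ℝ ∞ fun y => Γ μ y a b
  θe : ∀ y, θ y * e y = 1
  eθ : ∀ y, e y * θ y = 1
  det_pos : ∀ y, 0 < (θ y).det
  anti : ∀ μ y a b, Γ μ y b a = - Γ μ y a b
  torsion : ∀ μ ν y a, pd μ (fun y => θ y a ν) y - pd ν (fun y => θ y a μ) y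
    + ∑ b, (Γ μ y a b * θ y b ν - Γ ν y a b * θ y b μ) = 0

/-- A potential: a real one-form. -/
abbrev Pot (N : ℕ) : Type := Fin N → V N → ℝ

variable {N m : ℕ}

namespace Geo

/-- The metric. -/
def h (g : Geo N) (y : V N) : Mt N := (g.θ y)ᵀ * g.θ y

/-- The inverse metric. -/
def hi (g : Geo N) (y : V N) : Mt N := g.e y * (g.e y)ᵀ

/-- The curvature matrices `F_{μν} = ∂_μ Γ_ν - ∂_ν Γ_μ + [Γ_μ, Γ_ν]`. -/
def F (g : Geo N) (μ ν : Fin N) (y : V N) : Mt N := Matrix.of fun a b =>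
  pd μ (fun y => g.Γ ν y a b) y - pd ν (fun y => g.Γ μ y a b) y
    + (g.Γ μ y * g.Γ ν y - g.Γ ν y * g.Γ μ y) a b

/-- The scalar curvature. -/
def scal (g : Geo N) (y : V N) : ℝ :=
  - ∑ a, ∑ c, ∑ μ, ∑ ν, g.e y μ c * g.e y ν a * g.F μ ν y a c

/-- The divergence of the frame vector `e_b`. -/
def dv (g : Geo N) (b : Fin N) (y : V N) : ℝ := - ∑ a, ∑ μ, g.e y μ a * g.Γ μ y b a

/-- The Christoffel symbols `K^ν_{μλ}`. -/
def K (g : Geo N) (ν μ l : Fin N) (y : V N) : ℝ :=
  ∑ a, g.e y ν a * (pd μ (fun y => g.θ y a l) y + ∑ b, g.Γ μ y a b * g.θ y b l)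

/-- The components of a two-form in the frame. -/
def fr (g : Geo N) (Ω : V N → Mt N) (y : V N) : Mt N := (g.e y)ᵀ * Ω y * g.e y

/-- The Riemannian measure. -/
def vol (g : Geo N) : Measure (V N) :=
  volume.withDensity fun y => ENNReal.ofReal (g.θ y).det

/-- The Hilbert space of the square integrable spinors. -/
abbrev L2 (g : Geo (2 * m)) : Type := Lp (Sp m) 2 g.vol

open Classical in
/-- The class in `L²` of a function (zero if it is not square integrable). -/
def emb (g : Geo (2 * m)) (φ : V (2 * m) → Sp m) : Lp (Sp m) 2 g.vol :=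
  if h : MemLp φ 2 g.vol then h.toLp φ else 0

end Geo

/-- Test functions. -/
def IsTF (φ : V (2 * m) → Sp m) : Prop := ContDiff ℝ ∞ φ ∧ HasCompactSupport φ

/-- A smooth potential. -/
def IsPot (B : Pot N) : Prop := ∀ μ, ContDiff ℝ ∞ (B μ)

/-- The curvature `dB` of a potential. -/
def dPot (B : Pot N) (y : V N) : Mt N := Matrix.of fun μ ν => pd μ (B ν) y - pd ν (B μ) y

/-- Smooth closed two-forms. -/
structure IsClosed2 (Ω : V N → Mt N) : Prop where
  smooth : ∀ μ ν, ContDiff ℝ ∞ fun y => Ω y μ ν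
  anti : ∀ y μ ν, Ω y ν μ = - Ω y μ ν
  closed : ∀ y l μ ν, pd l (fun y => Ω y μ ν) y + pd μ (fun y => Ω y ν l) y
    + pd ν (fun y => Ω y l μ) y = 0

/-- The radial primitive of a closed two-form: `β_ν(y) = ∫_0^1 r ∑_μ Ω_{μν}(r y) y^μ dr`. -/
def prim (Ω : V N → Mt N) : Pot N := fun ν y =>
  ∫ r in (0:ℝ)..1, r * ∑ μ, Ω (r • y) μ ν * y μ

/-- The Jacobian matrix. -/
def jac (Φ : V N → V N) (y : V N) : Mt N := Matrix.of fun ν μ => (fderiv ℝ Φ y (bv μ)) ν

/-- The pull-back of a one-form. -/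
def pull1 (Φ : V N → V N) (B : Pot N) : Pot N := fun μ y => ∑ ν, B ν (Φ y) * jac Φ y ν μ

/-- The pull-back of a two-form. -/
def pull2 (Φ : V N → V N) (Ω : V N → Mt N) (y : V N) : Mt N := (jac Φ y)ᵀ * Ω (Φ y) * jac Φ y

/-! ## The Dirac operator -/

namespace Cliff

/-- The connection form `A_μ = spin(Γ_μ) + i B_μ`. -/
def conn (C : Cliff m) (g : Geo (2 * m)) (B : Pot (2 * m)) (μ : Fin (2 * m)) (y : V (2 * m)) :
    En m :=
  C.spin (g.Γ μ y) + (Complex.I * (B μ y : ℂ)) • (1 : En m)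

/-- The covariant derivative `∇_μ`. -/
def nab (C : Cliff m) (g : Geo (2 * m)) (B : Pot (2 * m)) (μ : Fin (2 * m))
    (φ : V (2 * m) → Sp m) (y : V (2 * m)) : Sp m :=
  pd μ φ y + C.conn g B μ y (φ y)

/-- The covariant derivative in the direction of the frame vector `e_a`. -/
def nabE (C : Cliff m) (g : Geo (2 * m)) (B : Pot (2 * m)) (a : Fin (2 * m))
    (φ : V (2 * m) → Sp m) (y : V (2 * m)) : Sp m :=
  ∑ μ, (g.e y μ a : ℂ) • C.nab g B μ φ y

/-- The Dirac operator. -/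
def dirac (C : Cliff m) (g : Geo (2 * m)) (B : Pot (2 * m)) (φ : V (2 * m) → Sp m)
    (y : V (2 * m)) : Sp m :=
  ∑ a, C.c a (C.nabE g B a φ y)

/-- The Clifford action of the curvature `dB`: `(i/2) ∑ (dB)(e_a, e_b) c_a c_b`. -/
def curvB (C : Cliff m) (g : Geo (2 * m)) (B : Pot (2 * m)) (y : V (2 * m)) : En m :=
  (Complex.I / 2) • C.two (g.fr (dPot B) y)

/-- The first order coefficients of `D²`. -/
def bop (C : Cliff m) (g : Geo (2 * m)) (B : Pot (2 * m)) (μ : Fin (2 * m)) (y : V (2 * m)) :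
    En m :=
  (-2 : ℂ) • ∑ ν, (g.hi y μ ν : ℂ) • C.conn g B ν y
    + ((∑ α, ∑ β, g.hi y α β * g.K μ α β y : ℝ) : ℂ) • (1 : En m)

/-- The zero order coefficient of `D²`. -/
def cop (C : Cliff m) (g : Geo (2 * m)) (B : Pot (2 * m)) (y : V (2 * m)) : En m :=
  (-1 : ℂ) • (∑ μ, ∑ ν, (g.hi y μ ν : ℂ) • (pd μ (C.conn g B ν) y
      + C.conn g B μ y * C.conn g B ν y))
    + ∑ l, ((∑ μ, ∑ ν, g.hi y μ ν * g.K l μ ν y : ℝ) : ℂ) • C.conn g B l y
    + ((g.scal y / 4 : ℝ) : ℂ) • (1 : En m) + C.curvB g B y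

/-- The graph of the Dirac operator on the test functions. -/
def gr (C : Cliff m) (g : Geo (2 * m)) (B : Pot (2 * m)) : Set (g.L2 × g.L2) :=
  {p | ∃ φ, IsTF φ ∧ p = (g.emb φ, g.emb (C.dirac g B φ))}

end Cliff

/-! ## Multiplication operators on `L²` -/

/-- Bounded strongly measurable functions. -/
def BddM (A : V (2 * m) → En m) : Prop := StronglyMeasurable A ∧ ∃ c : ℝ, ∀ y, ‖A y‖ ≤ c

theorem BddM.memLp {A : V (2 * m) → En m} (hA : BddM A) {μ : Measure (V (2 * m))}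
    (u : Lp (Sp m) 2 μ) : MemLp (fun y => A y (u y)) 2 μ := by
  obtain ⟨h1, c, hc⟩ := hA
  refine MemLp.of_le_mul (c := c) (Lp.memLp u) ?_ ?_
  · exact (isBoundedBilinearMap_apply.continuous).comp_aestronglyMeasurable
      (h1.aestronglyMeasurable.prodMk (Lp.aestronglyMeasurable u))
  · exact Filter.Eventually.of_forall fun y =>
      ((A y).le_opNorm _).trans (by gcongr; exact hc y)

open Classical in
/-- The multiplication operator with a bounded measurable function `A` with values in the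
endomorphisms of the spinors (zero if `A` is not bounded and measurable). -/
def Geo.mulE (g : Geo (2 * m)) (A : V (2 * m) → En m) : g.L2 →L[ℂ] g.L2 :=
  if hA : BddM A then
    LinearMap.mkContinuous
      { toFun := fun u => (hA.memLp u).toLp _
        map_add' := fun u v => by
          rw [← MemLp.toLp_add]
          apply MemLp.toLp_congr
          filter_upwards [Lp.coeFn_add u v] with y hy
          rw [Pi.add_apply, ← map_add]
          exact congrArg (A y) hy
        map_smul' := fun k u => by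
          rw [RingHom.id_apply, ← MemLp.toLp_const_smul]
          apply MemLp.toLp_congr
          filter_upwards [Lp.coeFn_smul k u] with y hy
          rw [Pi.smul_apply, ← map_smul]
          exact congrArg (A y) hy }
      (max 0 (Classical.choose hA.2)) (fun u => by
        have hc := Classical.choose_spec hA.2
        rw [LinearMap.coe_mk, AddHom.coe_mk]
        refine Lp.norm_le_mul_norm_of_ae_le_mul ?_
        filter_upwards [(hA.memLp u).coeFn_toLp] with y hy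
        rw [hy]
        exact ((A y).le_opNorm _).trans (by
          gcongr
          exact (hc y).trans (le_max_right _ _)))
  else 0

/-- The indicator of a set as a multiplication operator. -/
def Geo.ind (g : Geo (2 * m)) (E : Set (V (2 * m))) : g.L2 →L[ℂ] g.L2 :=
  g.mulE (E.indicator fun _ => 1)

/-- The projections `Π_± = (1 ± eps) / 2` (`κ = ± 1`) on `L²`. -/
def Cliff.pj (C : Cliff m) (g : Geo (2 * m)) (κ : ℝ) : g.L2 →L[ℂ] g.L2 :=
  g.mulE fun _ => (1 / 2 : ℂ) • (1 + (κ : ℂ) • C.eps)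

/-- The chirality operator on `L²`. -/
def Cliff.Eps (C : Cliff m) (g : Geo (2 * m)) (κ : ℝ) : g.L2 →L[ℂ] g.L2 :=
  g.mulE fun _ => (κ : ℂ) • C.eps

/-! ## Group actions and random two-forms -/

/-- An action of the group `G` on the coordinate space by smooth maps. -/
structure Act (G : Type*) [Group G] (N : ℕ) where
  act : G → V N → V N
  one : ∀ y, act 1 y = y
  mul : ∀ γ δ y, act (γ * δ) y = act γ (act δ y)
  smooth : ∀ γ, ContDiff ℝ ∞ (act γ)

/-- The action is isometric and preserves the orientation. -/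
structure Act.Iso {G : Type*} [Group G] (a : Act G N) (g : Geo N) : Prop where
  isom : ∀ γ y, (jac (a.act γ) y)ᵀ * g.h (a.act γ y) * jac (a.act γ) y = g.h y
  ori : ∀ γ y, 0 < (jac (a.act γ) y).det

/-- `F` is a bounded Borel fundamental domain. -/
structure Act.Fund {G : Type*} [Group G] (a : Act G N) (F : Set (V N)) : Prop where
  meas : MeasurableSet F
  bdd : Bornology.IsBounded F
  tile : ∀ y, ∃! γ : G, a.act γ y ∈ F

/-- Cutoff functions with small gradient. -/
def Cutoffs (g : Geo N) : Prop :=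
  ∀ n : ℕ, ∃ χ : V N → ℝ, ContDiff ℝ ∞ χ ∧ HasCompactSupport χ ∧ (∀ y, 0 ≤ χ y) ∧ (∀ y, χ y ≤ 1) ∧
    (∀ y, ‖y‖ ≤ n → χ y = 1) ∧
    ∀ y, ∑ a, (∑ μ, g.e y μ a * pd μ χ y) ^ 2 ≤ (1 / ((n : ℝ) + 1)) ^ 2

/-- A random closed two-form with all moments, equivariant for the actions of `G` on the coordinate
space and on `X`. -/
structure Rand {X : Type*} [MeasurableSpace X] (P : Measure X) {G : Type*} [Group G]
    [MulAction G X] (a : Act G N) (Ω : X → V N → Mt N) : Prop where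
  closed : ∀ x, IsClosed2 (Ω x)
  meas : ∀ μ ν, Measurable fun p : X × V N => Ω p.1 p.2 μ ν
  equi : ∀ γ : G, ∀ᵐ x ∂P, ∀ y, pull2 (a.act γ) (Ω (γ • x)) y = Ω x y
  mom : ∀ (r : ℝ) (k : ℕ), ∃ L : X → ℝ, Measurable L ∧ (∀ x, 1 ≤ L x) ∧
    (∀ p : ℕ, Integrable (fun x => L x ^ p) P) ∧
    ∀ x, ∀ j ≤ k, ∀ μ ν, ∀ y, ‖y‖ ≤ r → ‖iteratedFDeriv ℝ j (fun y => Ω x y μ ν) y‖ ≤ L x

end Pool.Agent.Lib.MP_df705a_gt.RL
end
end

section

/-!
# RL2, F0: absolute convergence of the sum over the blocks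
-/

open scoped ContDiff InnerProductSpace Matrix ENNReal
open MeasureTheory

noncomputable section

namespace Pool.Agent.Lib.MP_df705a_gt.RL

universe u

/-- The factor of the slot `r` in the block `j`. -/
def F0_w {m : ℕ} {J : Type} [DecidableEq J] {b : Fin m → J} {I : J → Type u}
    (w : ∀ r, I (b r) → ℝ) (r : Fin m) (j : J) (x : I j) : ℝ :=
  if hr : b r = j then (hr ▸ w r : I j → ℝ) x else 1

theorem F0_self {m : ℕ} {J : Type} [DecidableEq J] {b : Fin m → J} {I : J → Type u}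
    (w : ∀ r, I (b r) → ℝ) (r : Fin m) (x : I (b r)) : F0_w w r (b r) x = w r x := by
  unfold F0_w
  rw [dif_pos rfl]

theorem F0_ne {m : ℕ} {J : Type} [DecidableEq J] {b : Fin m → J} {I : J → Type u}
    (w : ∀ r, I (b r) → ℝ) {r : Fin m} {j : J} (h : b r ≠ j) (x : I j) : F0_w w r j x = 1 := by
  unfold F0_w
  rw [dif_neg h]

theorem F0_bds {m : ℕ} {J : Type} [DecidableEq J] {b : Fin m → J} {I : J → Type u}
    {w : ∀ r, I (b r) → ℝ} {D : ℝ} (hD : 1 ≤ D) (h0 : ∀ r i, 0 ≤ w r i)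
    (h1 : ∀ r i, w r i ≤ D) (r : Fin m) (j : J) (x : I j) :
    0 ≤ F0_w w r j x ∧ F0_w w r j x ≤ D := by
  by_cases h : b r = j
  · subst h
    rw [F0_self]
    exact ⟨h0 r x, h1 r x⟩
  · rw [F0_ne w h]
    exact ⟨zero_le_one, hD⟩

theorem F0_prod {m : ℕ} {J : Type} [DecidableEq J] {b : Fin m → J} {I : J → Type u}
    {w : ∀ r, I (b r) → ℝ} {D : ℝ} (hD : 1 ≤ D) (h0 : ∀ r i, 0 ≤ w r i)
    (h1 : ∀ r i, w r i ≤ D) (A : Finset (Fin m)) (j : J) (x : I j) :
    ∏ r ∈ A, F0_w w r j x ≤ D ^ m := by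
  calc ∏ r ∈ A, F0_w w r j x ≤ ∏ r ∈ A, D :=
        Finset.prod_le_prod (fun r _ => (F0_bds hD h0 h1 r j x).1)
          fun r _ => (F0_bds hD h0 h1 r j x).2
    _ = D ^ A.card := by rw [Finset.prod_const]
    _ ≤ D ^ m := pow_le_pow_right₀ hD ((Finset.card_le_univ A).trans (by rw [Fintype.card_fin]))

theorem F0_block {m : ℕ} {J : Type} [DecidableEq J] {b : Fin m → J} {I : J → Type u}
    {w : ∀ r, I (b r) → ℝ} {D : ℝ} (hD : 1 ≤ D) (h0 : ∀ r i, 0 ≤ w r i)
    (h1 : ∀ r i, w r i ≤ D) (h2 : ∀ r (s : Finset (I (b r))), ∑ i ∈ s, w r i ^ 2 ≤ D) (j : J)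
    (hI : Finite (I j) ∨ ∃ r r' : Fin m, r ≠ r' ∧ b r = j ∧ b r' = j) (T : Finset (I j)) :
    ∑ x ∈ T, ∏ r, F0_w w r j x ≤ (Nat.card (I j) : ℝ) * D ^ m + D * D ^ m := by
  have hDm : 0 ≤ D ^ m := by positivity
  have hD0 : 0 ≤ D := by linarith
  rcases hI with hI | ⟨r, r', hne, hr, hr'⟩
  · have h3 : (T.card : ℝ) ≤ Nat.card (I j) := by
      have := Fintype.ofFinite (I j)
      rw [Nat.card_eq_fintype_card]
      exact_mod_cast Finset.card_le_univ T
    calc ∑ x ∈ T, ∏ r, F0_w w r j x ≤ ∑ x ∈ T, D ^ m :=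
          Finset.sum_le_sum fun x _ => F0_prod hD h0 h1 _ j x
      _ = T.card * D ^ m := by rw [Finset.sum_const, nsmul_eq_mul]
      _ ≤ (Nat.card (I j) : ℝ) * D ^ m := mul_le_mul_of_nonneg_right h3 hDm
      _ ≤ (Nat.card (I j) : ℝ) * D ^ m + D * D ^ m :=
          le_add_of_nonneg_right (mul_nonneg hD0 hDm)
  · have h3 : ∀ r, b r = j → ∑ x ∈ T, F0_w w r j x ^ 2 ≤ D := by
      intro r hr
      subst hr
      simp only [F0_self]
      exact h2 r T
    have h4 : ∀ x, ∏ r, F0_w w r j x ≤ (F0_w w r j x ^ 2 + F0_w w r' j x ^ 2) / 2 * D ^ m := by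
      intro x
      rw [← Finset.mul_prod_erase Finset.univ _ (Finset.mem_univ r),
        ← Finset.mul_prod_erase (Finset.univ.erase r) _
          (Finset.mem_erase.2 ⟨hne.symm, Finset.mem_univ r'⟩), ← mul_assoc]
      have h5 : F0_w w r j x * F0_w w r' j x ≤ (F0_w w r j x ^ 2 + F0_w w r' j x ^ 2) / 2 := by
        nlinarith [sq_nonneg (F0_w w r j x - F0_w w r' j x)]
      exact mul_le_mul h5 (F0_prod hD h0 h1 _ j x)
        (Finset.prod_nonneg fun r _ => (F0_bds hD h0 h1 r j x).1) (by positivity)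
    calc ∑ x ∈ T, ∏ r, F0_w w r j x
        ≤ ∑ x ∈ T, (F0_w w r j x ^ 2 + F0_w w r' j x ^ 2) / 2 * D ^ m :=
          Finset.sum_le_sum fun x _ => h4 x
      _ = (∑ x ∈ T, F0_w w r j x ^ 2 + ∑ x ∈ T, F0_w w r' j x ^ 2) / 2 * D ^ m := by
          rw [← Finset.sum_mul, ← Finset.sum_div, Finset.sum_add_distrib]
      _ ≤ D * D ^ m := by
          refine mul_le_mul_of_nonneg_right ?_ hDm
          linarith [h3 r hr, h3 r' hr']
      _ ≤ (Nat.card (I j) : ℝ) * D ^ m + D * D ^ m :=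
          le_add_of_nonneg_left (mul_nonneg (Nat.cast_nonneg _) hDm)

/-- Products over the slots. For fixed finite sets `T j`:
`∑_{i ∈ Π T j} ∏_r u r (i (b r)) = ∏_j ∑_{i ∈ T j} ∏_{r, b r = j} u r i`; every factor is at most
`card (I j) ∏ √(C r)` if `I j` is finite, and `∏ √(C r)` if there are two different slots in the block
(Cauchy-Schwarz for these two, the others are at most `√(C r)`). Every finite set of `∀ j, I j` is
contained in a product. The bound depends only on `C` (and on the cardinalities). -/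
theorem prod_sum_bdd {m : ℕ} {J : Type} [DecidableEq J] [Fintype J] {b : Fin m → J}
    (hb : Function.Surjective b) (I : J → Type u)
    (hI : ∀ j, Finite (I j) ∨ ∃ r r' : Fin m, r ≠ r' ∧ b r = j ∧ b r' = j) (C : Fin m → ℝ) :
    ∃ B : ℝ, ∀ u : ∀ r, I (b r) → ℝ, (∀ r i, 0 ≤ u r i) →
      (∀ r (s : Finset (I (b r))), ∑ i ∈ s, u r i ^ 2 ≤ C r) →
      ∀ S : Finset (∀ j, I j), ∑ i ∈ S, ∏ r, u r (i (b r)) ≤ B := by
  classical
  obtain ⟨D, hDd⟩ : ∃ D : ℝ, D = ∑ r, |C r| + 1 := ⟨_, rfl⟩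
  have hD : 1 ≤ D := by
    rw [hDd]
    exact le_add_of_nonneg_left (Finset.sum_nonneg fun r _ => abs_nonneg _)
  have hCD : ∀ r, C r ≤ D := by
    intro r
    have h1 : |C r| ≤ ∑ r, |C r| :=
      Finset.single_le_sum (f := fun r => |C r|) (fun r _ => abs_nonneg _) (Finset.mem_univ r)
    rw [hDd]
    linarith [le_abs_self (C r)]
  refine ⟨∏ j, ((Nat.card (I j) : ℝ) * D ^ m + D * D ^ m), fun u h0 hu S => ?_⟩
  have h2 : ∀ r (s : Finset (I (b r))), ∑ i ∈ s, u r i ^ 2 ≤ D := fun r s =>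
    (hu r s).trans (hCD r)
  have h1 : ∀ r i, u r i ≤ D := by
    intro r i
    have h3 := h2 r {i}
    rw [Finset.sum_singleton] at h3
    nlinarith [h0 r i]
  have h4 : ∀ i : ∀ j, I j, ∏ r, u r (i (b r)) = ∏ j, ∏ r, F0_w u r j (i j) := by
    intro i
    rw [Finset.prod_comm]
    refine Finset.prod_congr rfl fun r _ => ?_
    rw [Finset.prod_eq_single (b r) (fun j _ hj => F0_ne u hj.symm _)
      (fun h => absurd (Finset.mem_univ _) h), F0_self]
  have h5 : ∀ j, ∑ x ∈ S.image fun i => i j, ∏ r, F0_w u r j x ≤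
      (Nat.card (I j) : ℝ) * D ^ m + D * D ^ m := fun j => F0_block hD h0 h1 h2 j (hI j) _
  have h6 : ∏ j, ∑ x ∈ S.image fun i => i j, ∏ r, F0_w u r j x ≤
      ∏ j, ((Nat.card (I j) : ℝ) * D ^ m + D * D ^ m) :=
    Finset.prod_le_prod (fun j _ => Finset.sum_nonneg fun x _ => Finset.prod_nonneg fun r _ =>
      (F0_bds hD h0 h1 r j x).1) fun j _ => h5 j
  rw [Finset.prod_univ_sum] at h6
  refine le_trans ?_ h6
  refine le_trans (Finset.sum_le_sum fun i _ => (h4 i).le) ?_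
  refine Finset.sum_le_sum_of_subset_of_nonneg (fun i hi => ?_)
    fun i _ _ => Finset.prod_nonneg fun j _ => Finset.prod_nonneg fun r _ =>
      (F0_bds hD h0 h1 r j _).1
  rw [Fintype.mem_piFinset]
  exact fun j => Finset.mem_image_of_mem _ hi

/-- `|pf W| ≤ ∑_σ ∏_r |W r (σ 2r) (σ (2r+1))|` and `prod_sum_bdd` for every `σ`. -/
theorem pf_sum_bdd {m : ℕ} {J : Type} [DecidableEq J] [Fintype J] {b : Fin m → J}
    (hb : Function.Surjective b) {I : J → Type u}
    (hI : ∀ j, Finite (I j) ∨ ∃ r r' : Fin m, r ≠ r' ∧ b r = j ∧ b r' = j)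
    (h : ∀ r : Fin m, I (b r) → V (2 * m) → Mt (2 * m))
    (hsq : ∀ (r : Fin m) (ρ : ℝ), ∃ C : ℝ, ∀ y, ‖y‖ ≤ ρ → ∀ μ ν,
      ∀ s : Finset (I (b r)), ∑ i ∈ s, (h r i y μ ν) ^ 2 ≤ C) (R : ℝ) :
    ∃ B : ℝ, ∀ y, ‖y‖ ≤ R → ∀ S : Finset (∀ j, I j),
      ∑ i ∈ S, |pf fun r => h r (i (b r)) y| ≤ B := by
  choose C hC using fun r => hsq r R
  obtain ⟨B, hB⟩ := prod_sum_bdd hb I hI C
  refine ⟨(Fintype.card (Equiv.Perm (Fin (2 * m))) : ℝ) * B, fun y hy S => ?_⟩
  have h1 : ∀ i : ∀ j, I j, |pf fun r => h r (i (b r)) y| ≤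
      ∑ σ : Equiv.Perm (Fin (2 * m)), ∏ r : Fin m,
        |h r (i (b r)) y (σ ⟨2 * r, by omega⟩) (σ ⟨2 * r + 1, by omega⟩)| := by
    intro i
    unfold pf
    refine (Finset.abs_sum_le_sum_abs _ _).trans (Finset.sum_le_sum fun σ _ => ?_)
    rw [abs_mul, Finset.abs_prod]
    rcases Int.units_eq_one_or (Equiv.Perm.sign σ) with h | h <;> rw [h] <;> simp
  have h6 : ∀ σ : Equiv.Perm (Fin (2 * m)), ∑ i ∈ S, ∏ r : Fin m,
      |h r (i (b r)) y (σ ⟨2 * r, by omega⟩) (σ ⟨2 * r + 1, by omega⟩)| ≤ B := by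
    intro σ
    refine hB (fun r i => |h r i y (σ ⟨2 * r, by omega⟩) (σ ⟨2 * r + 1, by omega⟩)|)
      (fun r i => abs_nonneg _) (fun r s => ?_) S
    simp only [sq_abs]
    exact hC r y hy _ _ s
  refine (Finset.sum_le_sum fun i _ => h1 i).trans ?_
  rw [Finset.sum_comm]
  refine (Finset.sum_le_sum fun σ _ => h6 σ).trans (le_of_eq ?_)
  rw [Finset.sum_const, Finset.card_univ, nsmul_eq_mul]

end Pool.Agent.Lib.MP_df705a_gt.RL
end
end

section

/-!
Definitions for the abstract half of RL2 (`MP_df705a_gt`).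

`H` is a complex Hilbert space with a grading `eps`, `Gr` is the graph of a symmetric odd operator
`D` on a dense domain. `GrPlus eps Gr` is the graph of the positive half `D₊`. `PrL L` is the
orthogonal projection onto the closure of `L`; `P11`, `P12`, `P21`, `P22` are its blocks.
`Rop = (1 + D²)⁻¹` and `Bop = D (1 + D²)⁻¹` for the self-adjoint extension `D = (0, A*; A, 0)`,
`A` = closure of `D₊`. `Sop s R = f_s(R)` is the heat semigroup `exp(-s D²)`.
-/

open scoped InnerProductSpace ENNReal NNReal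

namespace Pool.Agent.Lib.MP_df705a_gt.RL

noncomputable section

variable {H : Type*} [NormedAddCommGroup H] [InnerProductSpace ℂ H] [CompleteSpace H]
variable {K : Type*} [NormedAddCommGroup K] [InnerProductSpace ℂ K] [CompleteSpace K]

/-- `eps` is a self-adjoint involution. -/
structure IsGrading (eps : H →L[ℂ] H) : Prop where
  sa : IsSelfAdjoint eps
  sq : eps * eps = 1

/-- `Gr` is the graph of a symmetric odd operator with dense domain. -/
structure IsOddSymm (eps : H →L[ℂ] H) (Gr : Submodule ℂ (H × H)) : Prop where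
  symm : ∀ a ∈ Gr, ∀ b ∈ Gr, ⟪a.2, b.1⟫_ℂ = ⟪a.1, b.2⟫_ℂ
  odd : ∀ a ∈ Gr, (eps a.1, -(eps a.2)) ∈ Gr
  dense : Dense {a : H | ∃ a', (a, a') ∈ Gr}

/-- The orthogonal projection onto the closure of `L`. -/
def PrL (L : Submodule ℂ (WithLp 2 (H × H))) : WithLp 2 (H × H) →L[ℂ] WithLp 2 (H × H) :=
  L.topologicalClosure.starProjection

/-- `u ↦ (u, 0)` -/
def inlW : H →L[ℂ] WithLp 2 (H × H) :=
  (WithLp.prodContinuousLinearEquiv 2 ℂ H H).symm.toContinuousLinearMap ∘L
    (ContinuousLinearMap.inl ℂ H H)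

/-- `u ↦ (0, u)` -/
def inrW : H →L[ℂ] WithLp 2 (H × H) :=
  (WithLp.prodContinuousLinearEquiv 2 ℂ H H).symm.toContinuousLinearMap ∘L
    (ContinuousLinearMap.inr ℂ H H)

/-- `(u, v) ↦ u` -/
def fstW : WithLp 2 (H × H) →L[ℂ] H := WithLp.fstL 2 ℂ H H

/-- `(u, v) ↦ v` -/
def sndW : WithLp 2 (H × H) →L[ℂ] H := WithLp.sndL 2 ℂ H H

def P11 (L : Submodule ℂ (WithLp 2 (H × H))) : H →L[ℂ] H := fstW ∘L PrL L ∘L inlW
def P12 (L : Submodule ℂ (WithLp 2 (H × H))) : H →L[ℂ] H := fstW ∘L PrL L ∘L inrW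
def P21 (L : Submodule ℂ (WithLp 2 (H × H))) : H →L[ℂ] H := sndW ∘L PrL L ∘L inlW
def P22 (L : Submodule ℂ (WithLp 2 (H × H))) : H →L[ℂ] H := sndW ∘L PrL L ∘L inrW

/-- The positive half of the graph `Gr`. -/
def GrPlus (eps : H →L[ℂ] H) (Gr : Submodule ℂ (H × H)) :
    Submodule ℂ (WithLp 2 (H × H)) where
  carrier := {w | (w.fst, w.snd) ∈ Gr ∧ eps w.fst = w.fst}
  add_mem' := by
    rintro a b ⟨ha, ha'⟩ ⟨hb, hb'⟩
    exact ⟨Gr.add_mem ha hb, by simp [map_add, ha', hb']⟩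
  zero_mem' := ⟨Gr.zero_mem, by simp⟩
  smul_mem' := by
    rintro c a ⟨ha, ha'⟩
    exact ⟨Gr.smul_mem c ha, by simp [ha']⟩

/-- `Π₊ = (1 + eps) / 2` -/
def Pip (eps : H →L[ℂ] H) : H →L[ℂ] H := (1 / 2 : ℂ) • (1 + eps)

/-- `Π₋ = (1 - eps) / 2` -/
def Pim (eps : H →L[ℂ] H) : H →L[ℂ] H := (1 / 2 : ℂ) • (1 - eps)

/-- `R = (1 + D²)⁻¹` -/
def Rop (eps : H →L[ℂ] H) (Gr : Submodule ℂ (H × H)) : H →L[ℂ] H :=
  P11 (GrPlus eps Gr) + Pim eps - P22 (GrPlus eps Gr)

/-- `B = D (1 + D²)⁻¹` -/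
def Bop (eps : H →L[ℂ] H) (Gr : Submodule ℂ (H × H)) : H →L[ℂ] H :=
  P12 (GrPlus eps Gr) + P21 (GrPlus eps Gr)

/-- `f_s(r) = exp (-s (1/r - 1))` for `r > 0`, and `0` for `r ≤ 0`. -/
def fS (s r : ℝ) : ℝ := if r ≤ 0 then 0 else Real.exp (-(s * (1 / r - 1)))

/-- `S_s = f_s(R)` -/
def Sop (R : H →L[ℂ] H) (s : ℝ) : H →L[ℂ] H := cfc (fS s) R

/-- `R` is a self-adjoint operator with `0 ≤ R ≤ 1`. -/
structure IsCon (R : H →L[ℂ] H) : Prop where
  sa : IsSelfAdjoint R
  spec : spectrum ℝ R ⊆ Set.Icc (0 : ℝ) 1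

/-- A Hilbert basis of `H`. -/
def stdB (H : Type*) [NormedAddCommGroup H] [InnerProductSpace ℂ H] [CompleteSpace H] :
    HilbertBasis (exists_hilbertBasis ℂ H).choose ℂ H :=
  (exists_hilbertBasis ℂ H).choose_spec.choose

/-- The square of the Hilbert-Schmidt norm of `A`. -/
def hs (A : H →L[ℂ] K) : ℝ≥0∞ := ∑' i, ‖A (stdB H i)‖ₑ ^ 2

end

end Pool.Agent.Lib.MP_df705a_gt.RL
end

section

/-!
# RL2, Base1: the Riemannian measure
-/

open scoped ContDiff InnerProductSpace Matrix ENNReal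
open MeasureTheory

noncomputable section

namespace Pool.Agent.Lib.MP_df705a_gt.RL

variable {N m : ℕ}

/-- Polynomial in the smooth entries (`smooth_θ`, `Matrix.det_apply`). -/
theorem Geo.contDiff_det (g : Geo N) : ContDiff ℝ ∞ fun y => (g.θ y).det := by
  have h : (fun y => (g.θ y).det) = fun y => ∑ σ : Equiv.Perm (Fin N),
      ((Equiv.Perm.sign σ : ℤ) : ℝ) * ∏ i, g.θ y (σ i) i := by
    funext y
    rw [Matrix.det_apply']
  rw [h]
  exact ContDiff.sum fun σ _ => contDiff_const.mul (contDiff_prod fun i _ => g.smooth_θ _ _)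

theorem Geo.continuous_det (g : Geo N) : Continuous fun y => (g.θ y).det :=
  g.contDiff_det.continuous

/-- The density is continuous, hence bounded on compact sets. -/
instance (g : Geo N) : IsFiniteMeasureOnCompacts g.vol := by
  have : IsLocallyFiniteMeasure g.vol :=
    IsLocallyFiniteMeasure.withDensity_ofReal g.continuous_det
  infer_instance

instance (g : Geo N) : IsLocallyFiniteMeasure g.vol := by
  exact IsLocallyFiniteMeasure.withDensity_ofReal g.continuous_det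

instance (g : Geo N) : SigmaFinite g.vol := by
  infer_instance

theorem Geo.vol_ac (g : Geo N) : g.vol ≪ volume := by
  exact withDensity_absolutelyContinuous _ _

/-- The density is positive everywhere. -/
theorem Geo.ac_vol (g : Geo N) : volume ≪ g.vol := by
  refine withDensity_absolutelyContinuous'
    (ENNReal.measurable_ofReal.comp g.continuous_det.measurable).aemeasurable ?_
  refine Filter.Eventually.of_forall fun y => ?_
  exact (ENNReal.ofReal_pos.2 (g.det_pos y)).ne'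

instance (g : Geo N) : g.vol.IsOpenPosMeasure := by
  exact g.ac_vol.isOpenPosMeasure

theorem Geo.integral_vol {F : Type*} [NormedAddCommGroup F] [NormedSpace ℝ F] (g : Geo N)
    (f : V N → F) : ∫ y, f y ∂g.vol = ∫ y, (g.θ y).det • f y := by
  have hm : Measurable fun y => ENNReal.ofReal (g.θ y).det :=
    ENNReal.measurable_ofReal.comp g.continuous_det.measurable
  unfold Geo.vol
  rw [integral_withDensity_eq_integral_toReal_smul hm
    (Filter.Eventually.of_forall fun y => ENNReal.ofReal_lt_top)]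
  refine integral_congr_ae (Filter.Eventually.of_forall fun y => ?_)
  show (ENNReal.ofReal (g.θ y).det).toReal • f y = _
  rw [ENNReal.toReal_ofReal (g.det_pos y).le]

theorem Geo.lintegral_vol (g : Geo N) (f : V N → ℝ≥0∞) :
    ∫⁻ y, f y ∂g.vol = ∫⁻ y, ENNReal.ofReal (g.θ y).det * f y := by
  have hm : Measurable fun y => ENNReal.ofReal (g.θ y).det :=
    ENNReal.measurable_ofReal.comp g.continuous_det.measurable
  unfold Geo.vol
  rw [lintegral_withDensity_eq_lintegral_mul_non_measurable _ hm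
    (Filter.Eventually.of_forall fun y => ENNReal.ofReal_lt_top)]
  rfl

/-- On a ball the measure is at most a multiple of the Lebesgue measure. -/
theorem Geo.vol_le (g : Geo N) (r : ℝ) : ∃ c : ℝ, 0 ≤ c ∧
    g.vol.restrict (Metric.closedBall 0 r) ≤
      (ENNReal.ofReal c) • (volume.restrict (Metric.closedBall 0 r)) := by
  obtain ⟨c, hc⟩ := (isCompact_closedBall (0 : V N) r).exists_bound_of_continuousOn
    g.continuous_det.continuousOn
  refine ⟨max c 0, le_max_right _ _, ?_⟩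
  unfold Geo.vol
  rw [restrict_withDensity measurableSet_closedBall, ← withDensity_const]
  refine withDensity_mono ?_
  rw [Filter.EventuallyLE, ae_restrict_iff' measurableSet_closedBall]
  refine Filter.Eventually.of_forall fun y hy => ?_
  exact ENNReal.ofReal_le_ofReal ((le_abs_self _).trans ((hc y hy).trans (le_max_left _ _)))

end Pool.Agent.Lib.MP_df705a_gt.RL
end
end

section

/-!
# RL2, Base2: the embedding of functions into `L²`
-/

open scoped ContDiff InnerProductSpace Matrix ENNReal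
open MeasureTheory

noncomputable section

namespace Pool.Agent.Lib.MP_df705a_gt.RL

variable {N m : ℕ}

private theorem emb_pos (g : Geo (2 * m)) {φ : V (2 * m) → Sp m} (h : MemLp φ 2 g.vol) :
    g.emb φ = h.toLp φ := dif_pos h

theorem Geo.emb_coe (g : Geo (2 * m)) {φ : V (2 * m) → Sp m} (h : MemLp φ 2 g.vol) :
    g.emb φ =ᵐ[g.vol] φ := by
  rw [emb_pos g h]
  exact h.coeFn_toLp

/-- Every element of `L²` is `emb` of itself. -/
theorem Geo.emb_self (g : Geo (2 * m)) (u : g.L2) : g.emb u = u := by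
  rw [emb_pos g (Lp.memLp u)]
  exact Lp.toLp_coeFn u _

theorem Geo.emb_congr (g : Geo (2 * m)) {φ ψ : V (2 * m) → Sp m} (h : φ =ᵐ[g.vol] ψ) :
    g.emb φ = g.emb ψ := by
  by_cases h1 : MemLp φ 2 g.vol
  · have h2 : MemLp ψ 2 g.vol := (memLp_congr_ae h).1 h1
    rw [emb_pos g h1, emb_pos g h2]
    exact MemLp.toLp_congr h1 h2 h
  · have h2 : ¬ MemLp ψ 2 g.vol := fun h2 => h1 ((memLp_congr_ae h).2 h2)
    unfold Geo.emb
    rw [dif_neg h1, dif_neg h2]

theorem Geo.emb_add (g : Geo (2 * m)) {φ ψ : V (2 * m) → Sp m} (h : MemLp φ 2 g.vol)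
    (h' : MemLp ψ 2 g.vol) : g.emb (φ + ψ) = g.emb φ + g.emb ψ := by
  rw [emb_pos g h, emb_pos g h', emb_pos g (h.add h')]
  exact MemLp.toLp_add h h'

theorem Geo.emb_sub (g : Geo (2 * m)) {φ ψ : V (2 * m) → Sp m} (h : MemLp φ 2 g.vol)
    (h' : MemLp ψ 2 g.vol) : g.emb (φ - ψ) = g.emb φ - g.emb ψ := by
  rw [emb_pos g h, emb_pos g h', emb_pos g (h.sub h')]
  exact MemLp.toLp_sub h h'

theorem Geo.emb_smul (g : Geo (2 * m)) {φ : V (2 * m) → Sp m} (h : MemLp φ 2 g.vol) (c : ℂ) :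
    g.emb (c • φ) = c • g.emb φ := by
  rw [emb_pos g h, emb_pos g (h.const_smul c)]
  exact MemLp.toLp_const_smul c h

theorem Geo.emb_zero (g : Geo (2 * m)) : g.emb (fun _ => 0) = 0 := by
  have h : MemLp (fun _ : V (2 * m) => (0 : Sp m)) 2 g.vol := MemLp.zero'
  rw [emb_pos g h]
  exact MemLp.toLp_zero h

theorem Geo.inner_emb (g : Geo (2 * m)) {φ ψ : V (2 * m) → Sp m} (h : MemLp φ 2 g.vol)
    (h' : MemLp ψ 2 g.vol) : ⟪g.emb φ, g.emb ψ⟫_ℂ = ∫ y, ⟪φ y, ψ y⟫_ℂ ∂g.vol := by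
  rw [L2.inner_def]
  refine integral_congr_ae ?_
  filter_upwards [g.emb_coe h, g.emb_coe h'] with y h1 h2
  rw [h1, h2]

theorem Geo.inner_emb_left (g : Geo (2 * m)) {φ : V (2 * m) → Sp m} (h : MemLp φ 2 g.vol)
    (u : g.L2) : ⟪g.emb φ, u⟫_ℂ = ∫ y, ⟪φ y, u y⟫_ℂ ∂g.vol := by
  rw [L2.inner_def]
  refine integral_congr_ae ?_
  filter_upwards [g.emb_coe h] with y h1
  rw [h1]

private theorem norm_aux (g : Geo (2 * m)) (u : g.L2) :
    ‖u‖ ^ 2 = ∫ y, ‖u y‖ ^ 2 ∂g.vol := by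
  have h1 : ⟪u, u⟫_ℂ = ∫ y, ⟪u y, u y⟫_ℂ ∂g.vol := L2.inner_def u u
  have h2 : ∀ y, ⟪u y, u y⟫_ℂ = ((‖u y‖ ^ 2 : ℝ) : ℂ) := fun y => by
    rw [inner_self_eq_norm_sq_to_K]
    norm_cast
  simp only [h2] at h1
  rw [integral_complex_ofReal, inner_self_eq_norm_sq_to_K] at h1
  apply Complex.ofReal_injective
  rw [Complex.ofReal_pow]
  exact h1

theorem Geo.norm_emb_sq (g : Geo (2 * m)) {φ : V (2 * m) → Sp m} (h : MemLp φ 2 g.vol) :
    ‖g.emb φ‖ ^ 2 = ∫ y, ‖φ y‖ ^ 2 ∂g.vol := by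
  rw [norm_aux]
  refine integral_congr_ae ?_
  filter_upwards [g.emb_coe h] with y h1
  rw [h1]

theorem Geo.norm_L2_sq (g : Geo (2 * m)) (u : g.L2) :
    ‖u‖ ^ 2 = ∫ y, ‖u y‖ ^ 2 ∂g.vol := by
  exact norm_aux g u

theorem Geo.enorm_L2_sq (g : Geo (2 * m)) (u : g.L2) :
    ‖u‖ₑ ^ 2 = ∫⁻ y, ‖u y‖ₑ ^ 2 ∂g.vol := by
  have h := eLpNorm_nnreal_pow_eq_lintegral (f := u) (μ := g.vol) (p := 2) (by norm_num)
  rw [Lp.enorm_def]
  have e : ((2 : NNReal) : ℝ) = ((2 : ℕ) : ℝ) := by norm_num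
  simp only [e, ENNReal.rpow_natCast] at h
  exact h

/-- Continuous functions with compact support are square integrable. -/
theorem Geo.memLp_cc (g : Geo (2 * m)) {φ : V (2 * m) → Sp m} (h : Continuous φ)
    (h' : HasCompactSupport φ) : MemLp φ 2 g.vol := by
  exact h.memLp_of_hasCompactSupport h'

theorem Geo.memLp_tf (g : Geo (2 * m)) {φ : V (2 * m) → Sp m} (h : IsTF φ) :
    MemLp φ 2 g.vol :=
  g.memLp_cc h.1.continuous h.2

/-- If `φ` vanishes outside the ball of radius `r` and is bounded by `c` there, then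
`‖emb φ‖ ≤ C c` with a constant `C` depending only on `g` and `r`. -/
theorem Geo.norm_emb_le (g : Geo (2 * m)) (r : ℝ) : ∃ C : ℝ, 0 ≤ C ∧
    ∀ (φ : V (2 * m) → Sp m) (c : ℝ), 0 ≤ c → AEStronglyMeasurable φ g.vol →
      (∀ y, r < ‖y‖ → φ y = 0) → (∀ y, ‖φ y‖ ≤ c) → MemLp φ 2 g.vol ∧ ‖g.emb φ‖ ≤ C * c := by
  have hfin : g.vol (Metric.closedBall 0 r) ≠ ⊤ :=
    ((isCompact_closedBall (0 : V (2 * m)) r).measure_lt_top).ne
  refine ⟨(g.vol (Metric.closedBall 0 r) ^ ((2 : ℝ≥0∞).toReal⁻¹)).toReal, ENNReal.toReal_nonneg,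
    ?_⟩
  intro φ c hc hm h0 hb
  have h1 : eLpNorm φ 2 g.vol ≤ g.vol (Metric.closedBall 0 r) ^ ((2 : ℝ≥0∞).toReal⁻¹) *
      ENNReal.ofReal c := by
    have hs : φ.support ⊆ Metric.closedBall 0 r := by
      intro y hy
      rw [mem_closedBall_zero_iff]
      by_contra hcon
      exact hy (h0 y (not_le.1 hcon))
    rw [← eLpNorm_restrict_eq_of_support_subset hs]
    have h2 := eLpNorm_le_of_ae_bound (p := 2) (μ := g.vol.restrict (Metric.closedBall 0 r))
      (Filter.Eventually.of_forall hb)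
    rwa [Measure.restrict_apply_univ] at h2
  have h2 : g.vol (Metric.closedBall 0 r) ^ ((2 : ℝ≥0∞).toReal⁻¹) ≠ ⊤ :=
    ENNReal.rpow_ne_top_of_nonneg (by positivity) hfin
  have h3 : MemLp φ 2 g.vol :=
    ⟨hm, h1.trans_lt (ENNReal.mul_lt_top (lt_top_iff_ne_top.2 h2) ENNReal.ofReal_lt_top)⟩
  refine ⟨h3, ?_⟩
  rw [emb_pos g h3, Lp.norm_toLp]
  refine (ENNReal.toReal_mono (ENNReal.mul_ne_top h2 ENNReal.ofReal_ne_top) h1).trans ?_
  rw [ENNReal.toReal_mul, ENNReal.toReal_ofReal hc]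

/-- The Hilbert space is separable. -/
instance (g : Geo (2 * m)) : TopologicalSpace.SeparableSpace g.L2 := by
  have : Fact ((2 : ℝ≥0∞) ≠ ⊤) := ⟨by norm_num⟩
  have : SecondCountableTopology g.L2 := inferInstance
  infer_instance

/-- The test functions are dense (`MeasureTheory.MemLp.exists_hasCompactSupport_...` for continuous
functions, then mollify: or directly density of smooth functions with compact support). -/
theorem Geo.dense_tf (g : Geo (2 * m)) : Dense {u : g.L2 | ∃ φ, IsTF φ ∧ u = g.emb φ} := by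
  have h := Lp.dense_hasCompactSupport_contDiff (F := Sp m) (μ := g.vol) (p := 2) (by norm_num)
  refine h.mono ?_
  rintro u ⟨φ, h1, h2, h3⟩
  refine ⟨φ, ⟨h3, h2⟩, ?_⟩
  rw [← g.emb_congr h1, g.emb_self]

end Pool.Agent.Lib.MP_df705a_gt.RL
end
end

section

/-!
# RL2, Base3: multiplication operators
-/

open scoped ContDiff InnerProductSpace Matrix ENNReal
open MeasureTheory

noncomputable section

namespace Pool.Agent.Lib.MP_df705a_gt.RL

variable {N m : ℕ}

theorem BddM.const (A : En m) : BddM (fun _ : V (2 * m) => A) :=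
  ⟨stronglyMeasurable_const, ‖A‖, fun _ => le_rfl⟩

theorem BddM.mul {A B : V (2 * m) → En m} (hA : BddM A) (hB : BddM B) :
    BddM fun y => A y * B y := by
  obtain ⟨h1, c, hc⟩ := hA
  obtain ⟨h2, d, hd⟩ := hB
  refine ⟨h1.mul h2, c * d, fun y => (norm_mul_le _ _).trans ?_⟩
  exact mul_le_mul (hc y) (hd y) (norm_nonneg _) ((norm_nonneg _).trans (hc y))

theorem BddM.add {A B : V (2 * m) → En m} (hA : BddM A) (hB : BddM B) :
    BddM fun y => A y + B y := by
  obtain ⟨h1, c, hc⟩ := hA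
  obtain ⟨h2, d, hd⟩ := hB
  exact ⟨h1.add h2, c + d, fun y => (norm_add_le _ _).trans (add_le_add (hc y) (hd y))⟩

theorem BddM.adj {A : V (2 * m) → En m} (hA : BddM A) :
    BddM fun y => ContinuousLinearMap.adjoint (A y) := by
  obtain ⟨h1, c, hc⟩ := hA
  refine ⟨(ContinuousLinearMap.adjoint (𝕜 := ℂ)).continuous.comp_stronglyMeasurable h1, c,
    fun y => ?_⟩
  rw [LinearIsometryEquiv.norm_map]
  exact hc y

theorem BddM.indicator {A : V (2 * m) → En m} (hA : BddM A) {E : Set (V (2 * m))}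
    (hE : MeasurableSet E) : BddM (E.indicator A) := by
  obtain ⟨h1, c, hc⟩ := hA
  exact ⟨h1.indicator hE, c, fun y => (norm_indicator_le_norm_self _ _).trans (hc y)⟩

theorem Geo.mulE_coe (g : Geo (2 * m)) {A : V (2 * m) → En m} (hA : BddM A) (u : g.L2) :
    g.mulE A u =ᵐ[g.vol] fun y => A y (u y) := by
  have h : g.mulE A u = (hA.memLp u).toLp _ := by
    unfold Geo.mulE
    rw [dif_pos hA]
    rfl
  rw [h]
  exact (hA.memLp u).coeFn_toLp

theorem Geo.mulE_emb (g : Geo (2 * m)) {A : V (2 * m) → En m} (hA : BddM A)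
    {φ : V (2 * m) → Sp m} (h : MemLp φ 2 g.vol) :
    g.mulE A (g.emb φ) = g.emb fun y => A y (φ y) := by
  have h1 : (fun y => A y (g.emb φ y)) =ᵐ[g.vol] fun y => A y (φ y) := by
    filter_upwards [g.emb_coe h] with y hy
    rw [hy]
  have h2 : MemLp (fun y => A y (φ y)) 2 g.vol := (memLp_congr_ae h1).1 (hA.memLp _)
  exact Lp.ext (((g.mulE_coe hA _).trans h1).trans (g.emb_coe h2).symm)

theorem Geo.mulE_mul (g : Geo (2 * m)) {A B : V (2 * m) → En m} (hA : BddM A) (hB : BddM B) :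
    g.mulE A * g.mulE B = g.mulE fun y => A y * B y := by
  refine ContinuousLinearMap.ext fun u => Lp.ext ?_
  filter_upwards [g.mulE_coe hA (g.mulE B u), g.mulE_coe hB u, g.mulE_coe (hA.mul hB) u]
    with y h1 h2 h3
  rw [h3]
  exact h1.trans (congrArg (A y) h2)

theorem Geo.mulE_add (g : Geo (2 * m)) {A B : V (2 * m) → En m} (hA : BddM A) (hB : BddM B) :
    g.mulE (fun y => A y + B y) = g.mulE A + g.mulE B := by
  refine ContinuousLinearMap.ext fun u => Lp.ext ?_
  rw [ContinuousLinearMap.add_apply]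
  filter_upwards [g.mulE_coe hA u, g.mulE_coe hB u, g.mulE_coe (hA.add hB) u,
    Lp.coeFn_add (g.mulE A u) (g.mulE B u)] with y h1 h2 h3 h4
  rw [h3, h4, Pi.add_apply, h1, h2, ContinuousLinearMap.add_apply]

private theorem bsmul {A : V (2 * m) → En m} (hA : BddM A) (c : ℂ) :
    BddM fun y => c • A y := by
  obtain ⟨h1, d, hd⟩ := hA
  refine ⟨h1.const_smul c, ‖c‖ * d, fun y => ?_⟩
  rw [norm_smul]
  exact mul_le_mul_of_nonneg_left (hd y) (norm_nonneg _)

theorem Geo.mulE_smul (g : Geo (2 * m)) {A : V (2 * m) → En m} (hA : BddM A) (c : ℂ) :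
    g.mulE (fun y => c • A y) = c • g.mulE A := by
  refine ContinuousLinearMap.ext fun u => Lp.ext ?_
  rw [ContinuousLinearMap.smul_apply]
  filter_upwards [g.mulE_coe hA u, g.mulE_coe (bsmul hA c) u, Lp.coeFn_smul c (g.mulE A u)]
    with y h1 h2 h3
  rw [h2, h3, Pi.smul_apply, h1, ContinuousLinearMap.smul_apply]

theorem Geo.mulE_one (g : Geo (2 * m)) : g.mulE (fun _ => (1 : En m)) = 1 := by
  refine ContinuousLinearMap.ext fun u => Lp.ext ?_
  filter_upwards [g.mulE_coe (BddM.const 1) u] with y h1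
  rw [h1]
  rfl

theorem Geo.adj_mulE (g : Geo (2 * m)) {A : V (2 * m) → En m} (hA : BddM A) :
    adj (g.mulE A) = g.mulE fun y => adj (A y) := by
  symm
  rw [ContinuousLinearMap.eq_adjoint_iff]
  intro u v
  rw [L2.inner_def, L2.inner_def]
  refine integral_congr_ae ?_
  filter_upwards [g.mulE_coe hA.adj u, g.mulE_coe hA v] with y h1 h2
  rw [h1, h2]
  exact ContinuousLinearMap.adjoint_inner_left _ _ _

theorem Geo.norm_mulE_le (g : Geo (2 * m)) {A : V (2 * m) → En m} (hA : BddM A) {c : ℝ}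
    (hc : 0 ≤ c) (h : ∀ y, ‖A y‖ ≤ c) : ‖g.mulE A‖ ≤ c := by
  refine ContinuousLinearMap.opNorm_le_bound _ hc fun u => ?_
  refine Lp.norm_le_mul_norm_of_ae_le_mul ?_
  filter_upwards [g.mulE_coe hA u] with y h1
  rw [h1]
  exact ((A y).le_opNorm _).trans (mul_le_mul_of_nonneg_right (h y) (norm_nonneg _))

/-- `Eps` is self-adjoint, `Eps² = 1` (`κ = ± 1`), given the properties of the Clifford matrix
`eps`. -/
theorem Cliff.Eps_sq (C : Cliff m) (g : Geo (2 * m)) {κ : ℝ} (hκ : κ ^ 2 = 1)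
    (h : C.eps * C.eps = 1) : C.Eps g κ * C.Eps g κ = 1 := by
  unfold Cliff.Eps
  rw [g.mulE_mul (BddM.const _) (BddM.const _)]
  have h1 : ((κ : ℂ) • C.eps) * ((κ : ℂ) • C.eps) = 1 := by
    rw [smul_mul_smul_comm, h, ← pow_two, ← Complex.ofReal_pow, hκ, Complex.ofReal_one, one_smul]
  rw [h1]
  exact g.mulE_one

theorem Cliff.Eps_sa (C : Cliff m) (g : Geo (2 * m)) (κ : ℝ) (h : adj C.eps = C.eps) :
    IsSelfAdjoint (C.Eps g κ) := by
  rw [IsSelfAdjoint, ContinuousLinearMap.star_eq_adjoint]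
  unfold Cliff.Eps
  have h1 := g.adj_mulE (BddM.const ((κ : ℂ) • C.eps))
  have h2 : adj ((κ : ℂ) • C.eps) = (κ : ℂ) • C.eps := by
    have h' : ContinuousLinearMap.adjoint C.eps = C.eps := h
    show ContinuousLinearMap.adjoint ((κ : ℂ) • C.eps) = (κ : ℂ) • C.eps
    rw [map_smulₛₗ, h', Complex.conj_ofReal]
  rw [h2] at h1
  exact h1

theorem Cliff.pj_eq (C : Cliff m) (g : Geo (2 * m)) (κ : ℝ) :
    C.pj g κ = (1 / 2 : ℂ) • (1 + C.Eps g κ) := by
  unfold Cliff.pj Cliff.Eps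
  rw [g.mulE_smul (BddM.const _), g.mulE_add (BddM.const _) (BddM.const _), g.mulE_one]

/-- The indicator operators: projections, `ind E * ind E' = ind (E ∩ E')`. -/
theorem Geo.ind_mul (g : Geo (2 * m)) {E E' : Set (V (2 * m))} (hE : MeasurableSet E)
    (hE' : MeasurableSet E') : g.ind E * g.ind E' = g.ind (E ∩ E') := by
  unfold Geo.ind
  rw [g.mulE_mul ((BddM.const 1).indicator hE) ((BddM.const 1).indicator hE')]
  congr 1
  funext y
  by_cases h1 : y ∈ E <;> by_cases h2 : y ∈ E' <;> simp [h1, h2]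

theorem Geo.ind_sa (g : Geo (2 * m)) {E : Set (V (2 * m))} (hE : MeasurableSet E) :
    IsSelfAdjoint (g.ind E) := by
  rw [IsSelfAdjoint, ContinuousLinearMap.star_eq_adjoint]
  unfold Geo.ind
  have h1 := g.adj_mulE ((BddM.const (m := m) 1).indicator hE)
  refine h1.trans ?_
  congr 1
  funext y
  by_cases hy : y ∈ E
  · rw [Set.indicator_of_mem hy]
    exact ContinuousLinearMap.adjoint_id
  · rw [Set.indicator_of_notMem hy]
    exact map_zero ContinuousLinearMap.adjoint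

/-- A measurable partition: `‖u‖² = ∑ ‖ind (E i) u‖²` (in `[0, ∞]`). -/
theorem Geo.enorm_sq_ind (g : Geo (2 * m)) {ι : Type*} [Countable ι] (E : ι → Set (V (2 * m)))
    (hE : ∀ i, MeasurableSet (E i)) (hp : ∀ y, ∃! i, y ∈ E i) (u : g.L2) :
    ‖u‖ₑ ^ 2 = ∑' i, ‖g.ind (E i) u‖ₑ ^ 2 := by
  have h1 : ∀ i, ‖g.ind (E i) u‖ₑ ^ 2 = ∫⁻ y, (E i).indicator (fun y => ‖u y‖ₑ ^ 2) y ∂g.vol := by
    intro i
    rw [g.enorm_L2_sq]
    refine lintegral_congr_ae ?_
    filter_upwards [g.mulE_coe ((BddM.const 1).indicator (hE i)) u] with y h1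
    unfold Geo.ind
    rw [h1]
    by_cases hy : y ∈ E i
    · rw [Set.indicator_of_mem hy, Set.indicator_of_mem hy]
      rfl
    · rw [Set.indicator_of_notMem hy, Set.indicator_of_notMem hy]
      simp
  rw [tsum_congr h1, ← lintegral_tsum, g.enorm_L2_sq]
  · refine lintegral_congr fun y => ?_
    obtain ⟨i, hi, hu⟩ := hp y
    rw [tsum_eq_single i, Set.indicator_of_mem hi]
    intro j hj
    exact Set.indicator_of_notMem (fun hj' => hj (hu j hj')) _
  · intro i
    refine AEMeasurable.indicator ?_ (hE i)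
    exact ((Lp.stronglyMeasurable u).enorm.pow_const 2).aemeasurable

end Pool.Agent.Lib.MP_df705a_gt.RL
end
end

section

/-!
# RL2, G3: a countable family of test functions which is dense in the `C¹` sense
-/

open scoped ContDiff InnerProductSpace Matrix ENNReal Topology
open MeasureTheory Filter

noncomputable section

namespace Pool.Agent.Lib.MP_df705a_gt.RL

variable {m : ℕ}

/-- A dense sequence of test functions. -/
def DenseTF (φ : ℕ → V (2 * m) → Sp m) : Prop :=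
  (∀ n, IsTF (φ n)) ∧ ∀ ψ, IsTF ψ → ∃ r : ℝ, ∀ ε > 0, ∃ n,
    (∀ y, r < ‖y‖ → φ n y = 0) ∧ (∀ y, r < ‖y‖ → ψ y = 0) ∧
    (∀ y, ‖φ n y - ψ y‖ ≤ ε) ∧ ∀ μ y, ‖pd μ (φ n) y - pd μ ψ y‖ ≤ ε

/-- The test functions which vanish outside the closed ball of radius `k`. -/
private def G3T (m k : ℕ) : Type :=
  {φ : V (2 * m) → Sp m // IsTF φ ∧ ∀ y, (k : ℝ) < ‖y‖ → φ y = 0}

private theorem G3_pd {φ : V (2 * m) → Sp m} (h : IsTF φ) (μ : Fin (2 * m)) :
    Continuous (pd μ φ) := by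
  have h1 : Continuous (fderiv ℝ φ) := h.1.continuous_fderiv (by simp)
  exact h1.clm_apply continuous_const

/-- A function and its partial derivatives on the closed ball. -/
private def G3F (m k : ℕ) (φ : G3T m k) :
    C(Metric.closedBall (0 : V (2 * m)) k, Sp m × (Fin (2 * m) → Sp m)) where
  toFun y := (φ.1 y, fun μ => pd μ φ.1 y)
  continuous_toFun := (φ.2.1.1.continuous.comp continuous_subtype_val).prodMk
    (continuous_pi fun μ => (G3_pd φ.2.1 μ).comp continuous_subtype_val)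

private theorem G3_zero {k : ℕ} {φ : V (2 * m) → Sp m} (h : ∀ y, (k : ℝ) < ‖y‖ → φ y = 0)
    {y : V (2 * m)} (hy : (k : ℝ) < ‖y‖) (μ : Fin (2 * m)) : pd μ φ y = 0 := by
  have e : φ =ᶠ[𝓝 y] fun _ => 0 := by
    have hU : IsOpen {y : V (2 * m) | (k : ℝ) < ‖y‖} := isOpen_lt continuous_const continuous_norm
    filter_upwards [hU.mem_nhds hy] with z hz
    exact h z hz
  unfold pd
  rw [e.fderiv_eq, fderiv_fun_const]
  rfl

private theorem G3_exists (m k : ℕ) : ∃ φ : ℕ → G3T m k, ∀ ψ : G3T m k, ∀ ε > 0, ∃ n,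
    dist (G3F m k (φ n)) (G3F m k ψ) < ε := by
  have : Nonempty (G3T m k) := ⟨⟨fun _ => 0, ⟨contDiff_const, HasCompactSupport.zero⟩, fun _ _ => rfl⟩⟩
  let _ : PseudoMetricSpace (G3T m k) := PseudoMetricSpace.induced (G3F m k) inferInstance
  have hi : Topology.IsInducing (G3F m k) := ⟨rfl⟩
  have : SecondCountableTopology (G3T m k) := hi.secondCountableTopology
  refine ⟨TopologicalSpace.denseSeq (G3T m k), fun ψ ε hε => ?_⟩
  obtain ⟨n, hn⟩ := (TopologicalSpace.denseRange_denseSeq (G3T m k)).exists_dist_lt ψ hε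
  refine ⟨n, ?_⟩
  rw [dist_comm]
  exact hn

/-- For `k : ℕ` let `T_k` be the set of the test functions which vanish outside the closed ball `B_k`
of radius `k`. The map `φ ↦ (φ, (∂_μ φ)_μ)` restricted to `B_k` sends `T_k` to a subset of the space
`C(B_k, Sp × (Fin (2m) → Sp))`, which is a separable metric space (`B_k` compact metric:
`ContinuousMap` has a second countable topology), so the image has a countable dense subset. Take the
union over `k` of the corresponding countable subsets of `T_k` (nonempty: it contains the function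
`0`). On the complement of `B_k` everything vanishes (the complement is open, so the derivatives
vanish there too). For `ψ` choose `k` with the support of `ψ` in `B_k`, `r = k`. -/
theorem exists_denseTF (m : ℕ) : ∃ φ : ℕ → V (2 * m) → Sp m, DenseTF φ := by
  choose φ hφ using fun k => G3_exists m k
  obtain ⟨f, hf⟩ : ∃ f : ℕ × ℕ → V (2 * m) → Sp m, ∀ k j, f (k, j) = (φ k j).1 :=
    ⟨fun p => (φ p.1 p.2).1, fun _ _ => rfl⟩
  refine ⟨fun n => f n.unpair, fun n => ?_, fun ψ hψ => ?_⟩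
  · have h := hf n.unpair.1 n.unpair.2
    rw [Prod.mk.eta] at h
    change IsTF (f n.unpair)
    rw [h]
    exact (φ n.unpair.1 n.unpair.2).2.1
  obtain ⟨R, hR⟩ := hψ.2.isCompact.isBounded.exists_norm_le
  obtain ⟨k, hk⟩ := exists_nat_ge R
  have hz : ∀ y, (k : ℝ) < ‖y‖ → ψ y = 0 := by
    intro y hy
    by_contra h
    have := hR y (subset_tsupport ψ h)
    linarith
  refine ⟨k, fun ε hε => ?_⟩
  obtain ⟨j, hj⟩ := hφ k ⟨ψ, hψ, hz⟩ ε hε
  refine ⟨Nat.pair k j, ?_⟩
  simp only [Nat.unpair_pair, hf]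
  have hb : ∀ y : V (2 * m), ‖y‖ ≤ k → ‖(φ k j).1 y - ψ y‖ ≤ ε ∧
      ∀ μ, ‖pd μ (φ k j).1 y - pd μ ψ y‖ ≤ ε := by
    intro y hy
    have h1 : dist (G3F m k (φ k j) ⟨y, by simpa using hy⟩)
        (G3F m k ⟨ψ, hψ, hz⟩ ⟨y, by simpa using hy⟩) ≤ ε :=
      (ContinuousMap.dist_apply_le_dist _).trans hj.le
    rw [Prod.dist_eq, max_le_iff] at h1
    refine ⟨?_, fun μ => ?_⟩
    · rw [← dist_eq_norm]
      exact h1.1
    · rw [← dist_eq_norm]
      exact (dist_le_pi_dist _ _ μ).trans h1.2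
  refine ⟨(φ k j).2.2, hz, fun y => ?_, fun μ y => ?_⟩
  · rcases le_or_gt ‖y‖ k with h | h
    · exact (hb y h).1
    · rw [(φ k j).2.2 y h, hz y h, sub_self, norm_zero]
      exact hε.le
  · rcases le_or_gt ‖y‖ k with h | h
    · exact (hb y h).2 μ
    · rw [G3_zero (φ k j).2.2 h, G3_zero hz h, sub_self, norm_zero]
      exact hε.le

end Pool.Agent.Lib.MP_df705a_gt.RL
end
end

section

/-!
# RL2, file A3: existence of Clifford matrices (`Nonempty (Cliff m)`)
-/

namespace Pool.Agent.Lib.MP_df705a_gt.RL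

open Finset Matrix

noncomputable section

variable {m : ℕ}

/-- sign -/
def sg (j : Fin m) (τ : Bool) (I : Finset (Fin m)) : ℂ :=
  (-1) ^ (#(I.filter (· < j)) + if τ = true ∧ j ∈ I then 1 else 0)

/-- the factor `1` or `i`. -/
def fc (τ : Bool) : ℂ := if τ then 1 else Complex.I

/-- the matrices -/
def cM (j : Fin m) (τ : Bool) : Matrix (Finset (Fin m)) (Finset (Fin m)) ℂ :=
  Matrix.of fun J I => if J = symmDiff I {j} then fc τ * sg j τ I else 0

theorem sg_mul_self (j : Fin m) (τ : Bool) (I : Finset (Fin m)) : sg j τ I * sg j τ I = 1 := by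
  unfold sg; rw [← pow_add, ← two_mul, pow_mul]; simp

theorem sg_symmDiff_self (j : Fin m) (τ : Bool) (I : Finset (Fin m)) :
    sg j τ (symmDiff I {j}) = (if τ then -1 else 1) * sg j τ I := by
  unfold sg
  have hf : (symmDiff I {j}).filter (· < j) = I.filter (· < j) := by
    ext x; simp only [mem_filter, mem_symmDiff, mem_singleton]
    constructor
    · rintro ⟨h1 | h1, h2⟩
      · exact ⟨h1.1, h2⟩
      · exact absurd h2 (by rw [h1.1]; exact lt_irrefl _)
    · rintro ⟨h1, h2⟩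
      exact ⟨Or.inl ⟨h1, h2.ne⟩, h2⟩
  rw [hf]
  cases τ with
  | false => simp
  | true =>
    by_cases hj : j ∈ I
    · have h1 : j ∉ symmDiff I {j} := by simp [mem_symmDiff, hj]
      simp [hj, h1, pow_succ]
    · have h1 : j ∈ symmDiff I {j} := by simp [mem_symmDiff, hj]
      simp [hj, h1, pow_succ]

theorem sg_symmDiff_lt {i j : Fin m} (hij : i < j) (τ : Bool) (I : Finset (Fin m)) :
    sg i τ (symmDiff I {j}) = sg i τ I := by
  unfold sg
  have hf : (symmDiff I {j}).filter (· < i) = I.filter (· < i) := by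
    ext x; simp only [mem_filter, mem_symmDiff, mem_singleton]
    constructor
    · rintro ⟨h1 | h1, h2⟩
      · exact ⟨h1.1, h2⟩
      · exact absurd (h2.trans hij) (by rw [h1.1]; exact lt_irrefl _)
    · rintro ⟨h1, h2⟩
      exact ⟨Or.inl ⟨h1, (h2.trans hij).ne⟩, h2⟩
  have hm : i ∈ symmDiff I {j} ↔ i ∈ I := by
    simp only [mem_symmDiff, mem_singleton]
    constructor
    · rintro (h1 | h1)
      · exact h1.1
      · exact absurd h1.1 hij.ne
    · intro h1; exact Or.inl ⟨h1, hij.ne⟩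
  rw [hf]; simp only [hm]

theorem sg_symmDiff_gt {i j : Fin m} (hij : i < j) (τ : Bool) (I : Finset (Fin m)) :
    sg j τ (symmDiff I {i}) = -sg j τ I := by
  unfold sg
  have hm : j ∈ symmDiff I {i} ↔ j ∈ I := by
    simp only [mem_symmDiff, mem_singleton]
    constructor
    · rintro (h1 | h1)
      · exact h1.1
      · exact absurd h1.1 hij.ne'
    · intro h1; exact Or.inl ⟨h1, hij.ne'⟩
  simp only [hm]
  by_cases hi : i ∈ I
  · have e : (symmDiff I {i}).filter (· < j) = (I.filter (· < j)).erase i := by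
      ext x; simp only [mem_symmDiff, mem_singleton, mem_erase, mem_filter]
      constructor
      · rintro ⟨⟨h1, h2⟩ | ⟨h1, h2⟩, h3⟩
        · exact ⟨h2, h1, h3⟩
        · subst h1; exact absurd hi h2
      · rintro ⟨h1, h2, h3⟩; exact ⟨Or.inl ⟨h2, h1⟩, h3⟩
    rw [e]
    have h1 := card_erase_add_one (mem_filter.mpr ⟨hi, hij⟩ : i ∈ I.filter (· < j))
    rw [← h1, add_right_comm, pow_succ]; simp
  · have e : (symmDiff I {i}).filter (· < j) = insert i (I.filter (· < j)) := by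
      ext x; simp only [mem_symmDiff, mem_singleton, mem_insert, mem_filter]
      constructor
      · rintro ⟨⟨h1, h2⟩ | ⟨h1, h2⟩, h3⟩
        · exact Or.inr ⟨h1, h3⟩
        · exact Or.inl h1
      · rintro (rfl | ⟨h2, h3⟩)
        · exact ⟨Or.inr ⟨rfl, hi⟩, hij⟩
        · refine ⟨Or.inl ⟨h2, ?_⟩, h3⟩
          rintro rfl; exact hi h2
    rw [e, card_insert_of_notMem (by simp [hi]), add_right_comm, pow_succ]; simp

theorem cM_mul_apply (a b : Fin m) (τ σ : Bool) (J I : Finset (Fin m)) :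
    (cM a τ * cM b σ) J I = if J = symmDiff (symmDiff I {b}) {a} then
      (fc τ * sg a τ (symmDiff I {b})) * (fc σ * sg b σ I) else 0 := by
  rw [Matrix.mul_apply, Finset.sum_eq_single (symmDiff I {b})]
  · simp only [cM, Matrix.of_apply, if_true]
    split_ifs <;> simp
  · intro L _ hL
    simp only [cM, Matrix.of_apply]
    rw [if_neg hL]; simp
  · intro h; exact absurd (mem_univ _) h

theorem cM_sq (a : Fin m) (τ : Bool) : cM a τ * cM a τ = -1 := by
  ext J I
  rw [cM_mul_apply, symmDiff_symmDiff_cancel_right, sg_symmDiff_self, Matrix.neg_apply,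
    Matrix.one_apply]
  by_cases h : J = I
  · rw [if_pos h, if_pos h]
    have h1 := sg_mul_self a τ I
    cases τ with
    | false =>
      simp only [fc, Bool.false_eq_true, if_false]
      linear_combination (Complex.I ^ 2) * h1 + Complex.I_sq
    | true =>
      simp only [fc, if_true]
      linear_combination (-1 : ℂ) * h1
  · rw [if_neg h, if_neg h, neg_zero]

theorem cM_anti_same (a : Fin m) : cM a true * cM a false = -(cM a false * cM a true) := by
  ext J I
  rw [Matrix.neg_apply, cM_mul_apply, cM_mul_apply, sg_symmDiff_self, sg_symmDiff_self,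
    symmDiff_symmDiff_cancel_right]
  by_cases h : J = I
  · rw [if_pos h, if_pos h]
    simp only [fc, if_true, Bool.false_eq_true, if_false]; ring
  · rw [if_neg h, if_neg h, neg_zero]

theorem cM_anti_lt {a b : Fin m} (hab : a < b) (τ σ : Bool) :
    cM a τ * cM b σ = -(cM b σ * cM a τ) := by
  ext J I
  rw [Matrix.neg_apply, cM_mul_apply, cM_mul_apply, sg_symmDiff_lt hab, sg_symmDiff_gt hab,
    symmDiff_assoc, symmDiff_assoc, symmDiff_comm ({b} : Finset (Fin m)) {a}]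
  split_ifs with h
  · ring
  · simp

theorem cM_conjTranspose (a : Fin m) (τ : Bool) : (cM a τ)ᴴ = -cM a τ := by
  ext J I
  simp only [Matrix.conjTranspose_apply, cM, Matrix.of_apply, Matrix.neg_apply]
  have hs : ∀ I, star (sg a τ I) = sg a τ I := by
    intro I; unfold sg; simp
  by_cases h : J = symmDiff I {a}
  · rw [if_pos h, if_pos, h, star_mul', hs, sg_symmDiff_self]
    · cases τ with
      | false => simp [fc]
      | true => simp [fc]
    · rw [h, symmDiff_symmDiff_cancel_right]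
  · rw [if_neg h, if_neg, star_zero, neg_zero]
    intro h1; apply h; rw [h1, symmDiff_symmDiff_cancel_right]

/-- the equivalence of the index sets -/
def ixE (m : ℕ) : Finset (Fin m) ≃ Fin (2 ^ m) :=
  Fintype.equivFinOfCardEq (by rw [Fintype.card_finset, Fintype.card_fin])

/-- `Fin (2 m) ≃ Fin m × Bool` -/
def ixF (m : ℕ) : Fin (2 * m) ≃ Fin m × Bool :=
  (Fintype.equivFinOfCardEq (α := Fin m × Bool) (n := 2 * m) (by simp [mul_comm])).symm

theorem cM_anti {p q : Fin m × Bool} (h : p ≠ q) : cM p.1 p.2 * cM q.1 q.2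
    = -(cM q.1 q.2 * cM p.1 p.2) := by
  obtain ⟨a, τ⟩ := p
  obtain ⟨b, σ⟩ := q
  rcases lt_trichotomy a b with h1 | h1 | h1
  · exact cM_anti_lt h1 τ σ
  · subst h1
    cases τ <;> cases σ
    · exact absurd rfl h
    · simp only [cM_anti_same, neg_neg]
    · exact cM_anti_same a
    · exact absurd rfl h
  · rw [cM_anti_lt h1 σ τ, neg_neg]

/-- Clifford matrices exist. -/
def stdCliff (m : ℕ) : Cliff m where
  c a := Matrix.toEuclideanCLM (𝕜 := ℂ)
    ((cM (ixF m a).1 (ixF m a).2).submatrix (ixE m).symm (ixE m).symm)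
  skew a := by
    show star _ = _
    rw [← map_star, ← map_neg]
    congr 1
    rw [Matrix.star_eq_conjTranspose, Matrix.conjTranspose_submatrix, cM_conjTranspose]
    rfl
  rel a b := by
    rw [← map_mul, ← map_mul, ← map_add, Matrix.submatrix_mul_equiv, Matrix.submatrix_mul_equiv]
    split_ifs with h
    · subst h
      rw [cM_sq]
      have : (-1 : Matrix (Finset (Fin m)) (Finset (Fin m)) ℂ).submatrix (ixE m).symm (ixE m).symm
          = -1 := by
        ext i j; simp [Matrix.one_apply]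
      rw [this, map_add, map_neg, map_one]
      ext x j
      simp
      ring
    · have h1 : ixF m a ≠ ixF m b := fun h1 => h ((ixF m).injective h1)
      rw [cM_anti h1]
      have : (-(cM (ixF m b).1 (ixF m b).2 * cM (ixF m a).1 (ixF m a).2)).submatrix
          (ixE m).symm (ixE m).symm = - (cM (ixF m b).1 (ixF m b).2
            * cM (ixF m a).1 (ixF m a).2).submatrix (ixE m).symm (ixE m).symm := by
        ext i j; simp
      rw [this, neg_add_cancel, map_zero]
      exact (zero_smul ℂ (1 : En m)).symm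

end

end Pool.Agent.Lib.MP_df705a_gt.RL
end

section

/-!
# RL2, Base4: test functions and the Dirac operator
-/

open scoped ContDiff InnerProductSpace Matrix ENNReal
open MeasureTheory

noncomputable section

namespace Pool.Agent.Lib.MP_df705a_gt.RL

variable {N m : ℕ}

theorem IsTF.add {φ ψ : V (2 * m) → Sp m} (h : IsTF φ) (h' : IsTF ψ) : IsTF (φ + ψ) :=
  ⟨h.1.add h'.1, h.2.add h'.2⟩

theorem IsTF.smul {φ : V (2 * m) → Sp m} (h : IsTF φ) (c : ℂ) : IsTF (c • φ) :=
  ⟨h.1.const_smul c, h.2.smul_left (f := fun _ => c)⟩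

theorem IsTF.sub {φ ψ : V (2 * m) → Sp m} (h : IsTF φ) (h' : IsTF ψ) : IsTF (φ - ψ) := by
  have h1 := h.add (h'.smul (-1))
  rwa [neg_one_smul, ← sub_eq_add_neg] at h1

theorem IsTF.sum {ι : Type*} (s : Finset ι) {φ : ι → V (2 * m) → Sp m}
    (h : ∀ i ∈ s, IsTF (φ i)) : IsTF (fun y => ∑ i ∈ s, φ i y) := by
  classical
  induction s using Finset.induction_on with
  | empty =>
    simp only [Finset.sum_empty]
    exact ⟨contDiff_const, HasCompactSupport.zero⟩
  | insert i s hi ih =>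
    simp only [Finset.sum_insert hi]
    exact (h i (Finset.mem_insert_self i s)).add
      (ih fun j hj => h j (Finset.mem_insert_of_mem hj))

theorem IsTF.const (A : En m) {φ : V (2 * m) → Sp m} (h : IsTF φ) : IsTF fun y => A (φ y) :=
  ⟨(A.restrictScalars ℝ).contDiff.comp h.1, h.2.comp_left (map_zero A)⟩

theorem IsTF.mulr {φ : V (2 * m) → Sp m} (h : IsTF φ) {χ : V (2 * m) → ℝ}
    (hχ : ContDiff ℝ ∞ χ) : IsTF fun y => (χ y : ℂ) • φ y :=
  ⟨(Complex.ofRealCLM.contDiff.comp hχ).smul h.1, h.2.smul_left (f := fun y => (χ y : ℂ))⟩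

private lemma Base4_apply {φ : V (2 * m) → Sp m} (h : ContDiff ℝ ∞ φ) {A : V (2 * m) → En m}
    (hA : ContDiff ℝ ∞ A) : ContDiff ℝ ∞ fun y => A y (φ y) :=
  ((ContinuousLinearMap.restrictScalarsL ℂ (Sp m) (Sp m) ℝ ℝ).contDiff.comp hA).clm_apply h

theorem IsTF.mulA {φ : V (2 * m) → Sp m} (h : IsTF φ) {A : V (2 * m) → En m}
    (hA : ContDiff ℝ ∞ A) : IsTF fun y => A y (φ y) := by
  refine ⟨Base4_apply h.1 hA, h.2.mono' fun y hy => subset_closure fun h0 => hy ?_⟩
  change A y (φ y) = 0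
  rw [h0, map_zero]

theorem contDiff_pd {F : Type*} [NormedAddCommGroup F] [NormedSpace ℝ F] {f : V N → F}
    (h : ContDiff ℝ ∞ f) (μ : Fin N) : ContDiff ℝ ∞ (pd μ f) :=
  (h.fderiv_right (m := ∞) le_rfl).clm_apply contDiff_const

theorem IsTF.pd {φ : V (2 * m) → Sp m} (h : IsTF φ) (μ : Fin (2 * m)) :
    IsTF (RL.pd μ φ) :=
  ⟨contDiff_pd h.1 μ, (h.2.fderiv ℝ).comp_left
    (g := fun L : V (2 * m) →L[ℝ] Sp m => L (bv μ)) rfl⟩

theorem pd_add {F : Type*} [NormedAddCommGroup F] [NormedSpace ℝ F] {f f' : V N → F}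
    (h : Differentiable ℝ f) (h' : Differentiable ℝ f') (μ : Fin N) :
    pd μ (f + f') = pd μ f + pd μ f' := by
  funext y
  change fderiv ℝ (f + f') y (bv μ) = fderiv ℝ f y (bv μ) + fderiv ℝ f' y (bv μ)
  rw [fderiv_add (h y) (h' y)]
  rfl

theorem pd_smul {f : V N → Sp m} (h : Differentiable ℝ f) (c : ℂ) (μ : Fin N) :
    pd μ (c • f) = c • pd μ f := by
  funext y
  change fderiv ℝ (c • f) y (bv μ) = c • fderiv ℝ f y (bv μ)
  rw [fderiv_const_smul (h y)]
  rfl

theorem contDiff_conn (C : Cliff m) (g : Geo (2 * m)) {B : Pot (2 * m)} (hB : IsPot B)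
    (μ : Fin (2 * m)) : ContDiff ℝ ∞ (C.conn g B μ) := by
  refine ContDiff.add (ContDiff.const_smul _ (ContDiff.sum fun a _ => ContDiff.sum fun b _ =>
    (Complex.ofRealCLM.contDiff.comp (g.smooth_Γ μ a b)).smul contDiff_const)) ?_
  exact (contDiff_const.mul (Complex.ofRealCLM.contDiff.comp (hB μ))).smul contDiff_const

theorem isTF_nab (C : Cliff m) (g : Geo (2 * m)) {B : Pot (2 * m)} (hB : IsPot B)
    (μ : Fin (2 * m)) {φ : V (2 * m) → Sp m} (h : IsTF φ) : IsTF (C.nab g B μ φ) :=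
  (h.pd μ).add (h.mulA (contDiff_conn C g hB μ))

theorem isTF_nabE (C : Cliff m) (g : Geo (2 * m)) {B : Pot (2 * m)} (hB : IsPot B)
    (a : Fin (2 * m)) {φ : V (2 * m) → Sp m} (h : IsTF φ) : IsTF (C.nabE g B a φ) :=
  IsTF.sum _ fun μ _ => (isTF_nab C g hB μ h).mulr (g.smooth_e μ a)

theorem isTF_dirac (C : Cliff m) (g : Geo (2 * m)) {B : Pot (2 * m)} (hB : IsPot B)
    {φ : V (2 * m) → Sp m} (h : IsTF φ) : IsTF (C.dirac g B φ) :=
  IsTF.sum _ fun a _ => (isTF_nabE C g hB a h).const (C.c a)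

/-- The same without compact support. -/
theorem contDiff_dirac (C : Cliff m) (g : Geo (2 * m)) {B : Pot (2 * m)} (hB : IsPot B)
    {φ : V (2 * m) → Sp m} (h : ContDiff ℝ ∞ φ) : ContDiff ℝ ∞ (C.dirac g B φ) := by
  refine ContDiff.sum fun a _ => ((C.c a).restrictScalars ℝ).contDiff.comp
    (ContDiff.sum fun μ _ => (Complex.ofRealCLM.contDiff.comp (g.smooth_e μ a)).smul ?_)
  exact (contDiff_pd h μ).add (Base4_apply h (contDiff_conn C g hB μ))

theorem dirac_add (C : Cliff m) (g : Geo (2 * m)) (B : Pot (2 * m))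
    {φ ψ : V (2 * m) → Sp m} (h : Differentiable ℝ φ) (h' : Differentiable ℝ ψ) :
    C.dirac g B (φ + ψ) = C.dirac g B φ + C.dirac g B ψ := by
  funext y
  change ∑ a, C.c a (∑ μ, (g.e y μ a : ℂ) • (pd μ (φ + ψ) y + C.conn g B μ y (φ y + ψ y))) =
    ∑ a, C.c a (∑ μ, (g.e y μ a : ℂ) • (pd μ φ y + C.conn g B μ y (φ y))) +
    ∑ a, C.c a (∑ μ, (g.e y μ a : ℂ) • (pd μ ψ y + C.conn g B μ y (ψ y)))
  rw [← Finset.sum_add_distrib]
  refine Finset.sum_congr rfl fun a _ => ?_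
  rw [← map_add, ← Finset.sum_add_distrib]
  refine congrArg (C.c a) (Finset.sum_congr rfl fun μ _ => ?_)
  rw [← smul_add, pd_add h h', map_add, Pi.add_apply]
  congr 1
  abel

theorem dirac_smul (C : Cliff m) (g : Geo (2 * m)) (B : Pot (2 * m))
    {φ : V (2 * m) → Sp m} (h : Differentiable ℝ φ) (c : ℂ) :
    C.dirac g B (c • φ) = c • C.dirac g B φ := by
  funext y
  change ∑ a, C.c a (∑ μ, (g.e y μ a : ℂ) • (pd μ (c • φ) y + C.conn g B μ y (c • φ y))) =
    c • ∑ a, C.c a (∑ μ, (g.e y μ a : ℂ) • (pd μ φ y + C.conn g B μ y (φ y)))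
  rw [Finset.smul_sum]
  refine Finset.sum_congr rfl fun a _ => ?_
  rw [← map_smul, Finset.smul_sum]
  refine congrArg (C.c a) (Finset.sum_congr rfl fun μ _ => ?_)
  rw [pd_smul h, map_smul, Pi.smul_apply, ← smul_add, smul_comm]

/-- `D eps = - eps D` if `eps` anticommutes with the Clifford matrices (then it commutes with the
connection). -/
theorem dirac_eps (C : Cliff m) (g : Geo (2 * m)) (B : Pot (2 * m))
    (h : ∀ a, C.eps * C.c a = - (C.c a * C.eps)) {φ : V (2 * m) → Sp m}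
    (hφ : Differentiable ℝ φ) (κ : ℝ) (y : V (2 * m)) :
    C.dirac g B (fun y => (κ : ℂ) • C.eps (φ y)) y
      = - ((κ : ℂ) • C.eps (C.dirac g B φ y)) := by
  obtain ⟨E, hE⟩ : ∃ E : En m, E = (κ : ℂ) • C.eps := ⟨_, rfl⟩
  have hEc : ∀ a v, C.c a (E v) = - E (C.c a v) := by
    intro a v
    have h1 := congrArg (fun T : En m => T v) (h a)
    change C.eps (C.c a v) = - C.c a (C.eps v) at h1
    rw [hE]
    change C.c a ((κ : ℂ) • C.eps v) = - ((κ : ℂ) • C.eps (C.c a v))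
    rw [map_smul, h1, smul_neg, neg_neg]
  have hspin : ∀ A v, C.spin A (E v) = E (C.spin A v) := by
    intro A v
    simp only [Cliff.spin, _root_.smul_apply, _root_.sum_apply,
      mul_apply_eq_comp, map_smul, map_sum, hEc, map_neg, neg_neg]
  have hconn : ∀ μ v, C.conn g B μ y (E v) = E (C.conn g B μ y v) := by
    intro μ v
    simp only [Cliff.conn, _root_.add_apply, _root_.smul_apply, one_apply_eq_self, map_add, map_smul, hspin]
  have hpd : ∀ μ, pd μ (fun y => E (φ y)) y = E (pd μ φ y) := by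
    intro μ
    have h1 : HasFDerivAt (fun y => E (φ y)) ((E.restrictScalars ℝ).comp (fderiv ℝ φ y)) y :=
      (E.restrictScalars ℝ).hasFDerivAt.comp y (hφ y).hasFDerivAt
    change fderiv ℝ (fun y => E (φ y)) y (bv μ) = E (fderiv ℝ φ y (bv μ))
    rw [h1.fderiv]
    rfl
  have h1 : C.dirac g B (fun y => E (φ y)) y = - E (C.dirac g B φ y) := by
    simp only [Cliff.dirac, Cliff.nabE, Cliff.nab, hpd, hconn, ← map_add, ← map_smul, ← map_sum,
      hEc, Finset.sum_neg_distrib]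
  rw [hE] at h1
  exact h1

/-- The support of `D φ` is contained in the support of `φ`: if `φ` vanishes outside the ball of
radius `r` then so does `D φ`. -/
theorem dirac_eq_zero (C : Cliff m) (g : Geo (2 * m)) (B : Pot (2 * m))
    {φ : V (2 * m) → Sp m} {r : ℝ} (h : ∀ y, r < ‖y‖ → φ y = 0) :
    ∀ y, r < ‖y‖ → C.dirac g B φ y = 0 := by
  intro y hy
  have h1 : φ =ᶠ[nhds y] fun _ => 0 := by
    filter_upwards [(isOpen_lt continuous_const continuous_norm).mem_nhds hy] with z hz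
    exact h z hz
  have h2 : ∀ μ, pd μ φ y = 0 := by
    intro μ
    change fderiv ℝ φ y (bv μ) = 0
    rw [h1.fderiv_eq, fderiv_fun_const]
    rfl
  simp only [Cliff.dirac, Cliff.nabE, Cliff.nab, h2, h y hy, map_zero, add_zero, smul_zero,
    Finset.sum_const_zero]

/-- Pointwise bound: on the ball of radius `r` one has
`‖D φ‖ ≤ C (1 + sup |B|) (‖φ‖ + ∑ ‖∂_μ φ‖)`. -/
theorem norm_dirac_le (C : Cliff m) (g : Geo (2 * m)) (r : ℝ) : ∃ c : ℝ, 0 ≤ c ∧
    ∀ (B : Pot (2 * m)) (φ : V (2 * m) → Sp m) (y : V (2 * m)), ‖y‖ ≤ r →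
      ‖C.dirac g B φ y‖ ≤ c * (1 + ∑ μ, |B μ y|) * (‖φ y‖ + ∑ μ, ‖pd μ φ y‖) := by
  obtain ⟨P, hP⟩ : ∃ P : V (2 * m) → ℝ, ∀ y, P y = ∑ a, ∑ μ, ‖C.c a‖ * |g.e y μ a| :=
    ⟨_, fun _ => rfl⟩
  obtain ⟨S, hS⟩ : ∃ S : V (2 * m) → ℝ, ∀ y, S y = ∑ μ, ‖C.spin (g.Γ μ y)‖ :=
    ⟨_, fun _ => rfl⟩
  have hPc : Continuous P := by
    rw [funext hP]
    exact continuous_finsetSum _ fun a _ => continuous_finsetSum _ fun μ _ =>
      continuous_const.mul (g.smooth_e μ a).continuous.abs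
  have hSc : Continuous S := by
    rw [funext hS]
    refine continuous_finsetSum _ fun μ _ => ?_
    have h1 : Continuous fun y => ∑ a, ∑ b, (g.Γ μ y a b : ℂ) • (C.c a * C.c b) := by
      refine continuous_finsetSum _ fun a _ => continuous_finsetSum _ fun b _ => ?_
      exact (Complex.continuous_ofReal.comp (g.smooth_Γ μ a b).continuous).smul continuous_const
    have h2 : Continuous fun y => C.spin (g.Γ μ y) := by
      unfold Cliff.spin
      exact h1.const_smul (-(1 / 4) : ℂ)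
    exact h2.norm
  have hP0 : ∀ y, 0 ≤ P y := fun y => by
    rw [hP]
    positivity
  have hS0 : ∀ y, 0 ≤ S y := fun y => by
    rw [hS]
    positivity
  obtain ⟨c, hc⟩ := (isCompact_closedBall (0 : V (2 * m)) r).exists_bound_of_continuousOn
    (hPc.mul (continuous_const.add hSc) : Continuous fun y => P y * (1 + S y)).continuousOn
  refine ⟨max c 0, le_max_right _ _, fun B φ y hy => ?_⟩
  have hcy : P y * (1 + S y) ≤ max c 0 := by
    refine (le_abs_self _).trans ((hc y ?_).trans (le_max_left _ _))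
    rwa [mem_closedBall_zero_iff]
  obtain ⟨b, hb⟩ : ∃ b, b = ∑ μ, |B μ y| := ⟨_, rfl⟩
  obtain ⟨t, ht⟩ : ∃ t, t = ‖φ y‖ + ∑ μ, ‖pd μ φ y‖ := ⟨_, rfl⟩
  have hb0 : 0 ≤ b := by
    rw [hb]
    positivity
  have ht0 : 0 ≤ t := by
    rw [ht]
    positivity
  rw [← hb, ← ht]
  have hnab : ∀ μ, ‖C.nab g B μ φ y‖ ≤ (1 + S y) * (1 + b) * t := by
    intro μ
    have h1 : ‖pd μ φ y‖ + ‖φ y‖ ≤ t := by
      rw [ht, add_comm]
      exact add_le_add le_rfl (Finset.single_le_sum (f := fun μ => ‖pd μ φ y‖)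
        (fun _ _ => norm_nonneg _) (Finset.mem_univ μ))
    have h2 : ‖C.conn g B μ y‖ ≤ S y + b := by
      refine (norm_add_le _ _).trans (add_le_add ?_ ?_)
      · rw [hS]
        exact Finset.single_le_sum (f := fun μ => ‖C.spin (g.Γ μ y)‖)
          (fun _ _ => norm_nonneg _) (Finset.mem_univ μ)
      · rw [norm_smul, norm_mul, Complex.norm_I, one_mul, Complex.norm_real, Real.norm_eq_abs, hb]
        refine (mul_le_of_le_one_right (abs_nonneg _) ContinuousLinearMap.norm_id_le).trans ?_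
        exact Finset.single_le_sum (f := fun μ => |B μ y|)
          (fun _ _ => abs_nonneg _) (Finset.mem_univ μ)
    have h3 : ‖C.nab g B μ φ y‖ ≤ ‖pd μ φ y‖ + (S y + b) * ‖φ y‖ :=
      (norm_add_le _ _).trans (add_le_add le_rfl (((C.conn g B μ y).le_opNorm _).trans
        (mul_le_mul_of_nonneg_right h2 (norm_nonneg _))))
    have h4 : 0 ≤ S y * b := mul_nonneg (hS0 y) hb0
    have h5 := hS0 y
    have h6 := norm_nonneg (φ y)
    have h7 := norm_nonneg (pd μ φ y)
    have h8 : ‖pd μ φ y‖ + (S y + b) * ‖φ y‖ ≤ (1 + S y) * (1 + b) * (‖pd μ φ y‖ + ‖φ y‖) := by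
      nlinarith [mul_nonneg h4 h6, mul_nonneg h4 h7, mul_nonneg h5 h7, mul_nonneg hb0 h7]
    exact h3.trans (h8.trans (mul_le_mul_of_nonneg_left h1 (by positivity)))
  have hD : ‖C.dirac g B φ y‖ ≤ P y * ((1 + S y) * (1 + b) * t) := by
    rw [hP, Finset.sum_mul]
    refine (norm_sum_le _ _).trans (Finset.sum_le_sum fun a _ => ?_)
    refine ((C.c a).le_opNorm _).trans ?_
    rw [← Finset.mul_sum, mul_assoc]
    refine mul_le_mul_of_nonneg_left ?_ (norm_nonneg _)
    rw [Finset.sum_mul]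
    refine (norm_sum_le _ _).trans (Finset.sum_le_sum fun μ _ => ?_)
    rw [norm_smul, Complex.norm_real, Real.norm_eq_abs]
    exact mul_le_mul_of_nonneg_left (hnab μ) (abs_nonneg _)
  calc ‖C.dirac g B φ y‖ ≤ P y * (1 + S y) * ((1 + b) * t) := by
        refine hD.trans (le_of_eq ?_)
        ring
    _ ≤ max c 0 * ((1 + b) * t) := mul_le_mul_of_nonneg_right hcy (by positivity)
    _ = _ := by ring

end Pool.Agent.Lib.MP_df705a_gt.RL
end
end

section

/-!
# RL2, Y1: calculus of the frame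
-/

open scoped ContDiff InnerProductSpace Matrix ENNReal
open MeasureTheory

noncomputable section

namespace Pool.Agent.Lib.MP_df705a_gt.RL

variable {N m : ℕ}

private theorem y1_mul {f f' : V N → ℝ} (h : Differentiable ℝ f) (h' : Differentiable ℝ f')
    (μ : Fin N) (y : V N) :
    pd μ (fun y => f y * f' y) y = pd μ f y * f' y + f y * pd μ f' y := by
  unfold pd
  rw [fderiv_fun_mul (h y) (h' y)]
  show f y * (fderiv ℝ f' y (bv μ)) + f' y * (fderiv ℝ f y (bv μ)) = _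
  ring

private theorem y1_sum {ι : Type*} (t : Finset ι) {f : ι → V N → ℝ}
    (h : ∀ i ∈ t, Differentiable ℝ (f i)) (μ : Fin N) (y : V N) :
    pd μ (fun y => ∑ i ∈ t, f i y) y = ∑ i ∈ t, pd μ (f i) y := by
  unfold pd
  rw [fderiv_fun_sum fun i hi => h i hi y]
  simp

private theorem y1_perm (X Y : Mt N) :
    ∑ σ : Equiv.Perm (Fin N), ((Equiv.Perm.sign σ : ℤ) : ℝ) *
      ∑ i, (∏ j ∈ Finset.univ.erase i, X (σ j) j) * Y (σ i) i =
    ∑ i, ∑ k, X.adjugate i k * Y k i := by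
  have h1 : ∀ i, ∑ k, X.adjugate i k * Y k i = (X.updateCol i (fun k => Y k i)).det := by
    intro i
    rw [← Matrix.cramer_apply, Matrix.cramer_eq_adjugate_mulVec, Matrix.mulVec, dotProduct]
  simp only [h1, Matrix.det_apply', Finset.mul_sum]
  rw [Finset.sum_comm]
  apply Finset.sum_congr rfl
  intro i _
  apply Finset.sum_congr rfl
  intro σ _
  congr 1
  rw [← Finset.mul_prod_erase Finset.univ _ (Finset.mem_univ i), mul_comm]
  congr 1
  · rw [Matrix.updateCol_self]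
  · apply Finset.prod_congr rfl
    intro j hj
    rw [Matrix.updateCol_ne (Finset.ne_of_mem_erase hj)]

private theorem y1_det {h : V N → Mt N} (hh : ∀ i j, Differentiable ℝ (fun y => h y i j))
    (μ : Fin N) (y : V N) :
    pd μ (fun y => (h y).det) y
      = ∑ i, ∑ k, (h y).adjugate i k * pd μ (fun y => h y k i) y := by
  have h0 : (fun y => (h y).det) = fun y => ∑ σ : Equiv.Perm (Fin N),
      ((Equiv.Perm.sign σ : ℤ) : ℝ) * ∏ i, h y (σ i) i := by
    funext y
    rw [Matrix.det_apply']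
  rw [h0]
  have h1 : HasFDerivAt (fun y => ∑ σ : Equiv.Perm (Fin N),
      ((Equiv.Perm.sign σ : ℤ) : ℝ) * ∏ i, h y (σ i) i)
      (∑ σ : Equiv.Perm (Fin N), ((Equiv.Perm.sign σ : ℤ) : ℝ) •
        ∑ i, (∏ j ∈ Finset.univ.erase i, h y (σ j) j) • fderiv ℝ (fun y => h y (σ i) i) y) y := by
    refine HasFDerivAt.fun_sum fun σ _ => ?_
    refine HasFDerivAt.const_mul ?_ _
    exact HasFDerivAt.finsetProd (fun i _ => (hh (σ i) i y).hasFDerivAt)
  unfold pd
  rw [h1.fderiv]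
  simp only [sum_apply, smul_apply, smul_eq_mul]
  exact y1_perm (h y) (Matrix.of fun i j => fderiv ℝ (fun y => h y i j) y (bv μ))

private theorem y1_dθ (g : Geo N) (a μ : Fin N) : Differentiable ℝ fun y => g.θ y a μ :=
  (g.smooth_θ a μ).differentiable (by simp)

private theorem y1_de (g : Geo N) (a μ : Fin N) : Differentiable ℝ fun y => g.e y a μ :=
  (g.smooth_e a μ).differentiable (by simp)

theorem Geo.sum_e_θ (g : Geo N) (y : V N) (μ ν : Fin N) :
    ∑ a, g.e y μ a * g.θ y a ν = if μ = ν then 1 else 0 := by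
  have h := congrFun (congrFun (g.eθ y) μ) ν
  rwa [Matrix.mul_apply, Matrix.one_apply] at h

theorem Geo.sum_θ_e (g : Geo N) (y : V N) (a b : Fin N) :
    ∑ μ, g.θ y a μ * g.e y μ b = if a = b then 1 else 0 := by
  have h := congrFun (congrFun (g.θe y) a) b
  rwa [Matrix.mul_apply, Matrix.one_apply] at h

/-- Differentiate `e θ = 1`. -/
theorem Geo.pd_e (g : Geo N) (μ ν a : Fin N) (y : V N) :
    pd μ (fun y => g.e y ν a) y
      = - ∑ b, ∑ l, g.e y ν b * pd μ (fun y => g.θ y b l) y * g.e y l a := by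
  have h0 : ∀ l, ∑ b, (pd μ (fun y => g.e y ν b) y * g.θ y b l
      + g.e y ν b * pd μ (fun y => g.θ y b l) y) = 0 := by
    intro l
    have h1 : (fun y => ∑ b, g.e y ν b * g.θ y b l) = fun _ => if ν = l then (1 : ℝ) else 0 := by
      funext z
      exact g.sum_e_θ z ν l
    have h2 := y1_sum Finset.univ (f := fun b y => g.e y ν b * g.θ y b l)
      (fun b _ => (y1_de g ν b).mul (y1_dθ g b l)) μ y
    rw [h1] at h2
    have h3 : pd μ (fun _ : V N => if ν = l then (1 : ℝ) else 0) y = 0 := by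
      unfold pd
      rw [fderiv_fun_const]
      rfl
    rw [h3] at h2
    rw [h2]
    exact Finset.sum_congr rfl fun b _ => (y1_mul (y1_de g ν b) (y1_dθ g b l) μ y).symm
  have h4 : ∑ l, (∑ b, (pd μ (fun y => g.e y ν b) y * g.θ y b l
      + g.e y ν b * pd μ (fun y => g.θ y b l) y)) * g.e y l a = 0 := by
    simp only [h0, zero_mul, Finset.sum_const_zero]
  have h5 : ∑ l, (∑ b, pd μ (fun y => g.e y ν b) y * g.θ y b l) * g.e y l a
      = pd μ (fun y => g.e y ν a) y := by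
    simp_rw [Finset.sum_mul]
    rw [Finset.sum_comm]
    simp_rw [mul_assoc, ← Finset.mul_sum, g.sum_θ_e]
    simp
  simp_rw [Finset.sum_add_distrib, add_mul] at h4
  rw [Finset.sum_add_distrib, h5] at h4
  rw [eq_neg_iff_add_eq_zero, ← h4, Finset.sum_comm]
  simp_rw [Finset.sum_mul]

/-- By the torsion equation. -/
theorem Geo.K_symm (g : Geo N) (ν μ l : Fin N) (y : V N) : g.K ν μ l y = g.K ν l μ y := by
  unfold Geo.K
  refine Finset.sum_congr rfl fun a _ => ?_
  have h := g.torsion μ l y a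
  rw [Finset.sum_sub_distrib] at h
  congr 1
  linarith

/-- `∂_μ e^ν_a + ∑_b e^ν_b Γ_{μab} = - ∑_l K^ν_{μl} e^l_a` (`pd_e`, `sum_θ_e`, antisymmetry of
`Γ_μ`). -/
theorem Geo.pd_e_K (g : Geo N) (μ ν a : Fin N) (y : V N) :
    pd μ (fun y => g.e y ν a) y + ∑ b, g.e y ν b * g.Γ μ y a b
      = - ∑ l, g.K ν μ l y * g.e y l a := by
  have h1 : ∑ l, g.K ν μ l y * g.e y l a
      = ∑ b, ∑ l, g.e y ν b * pd μ (fun y => g.θ y b l) y * g.e y l a
        + ∑ b, g.e y ν b * g.Γ μ y b a := by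
    unfold Geo.K
    simp_rw [Finset.sum_mul]
    rw [Finset.sum_comm, ← Finset.sum_add_distrib]
    refine Finset.sum_congr rfl fun b _ => ?_
    have h2 : g.e y ν b * g.Γ μ y b a
        = ∑ l, g.e y ν b * (∑ c, g.Γ μ y b c * g.θ y c l) * g.e y l a := by
      simp_rw [mul_assoc, ← Finset.mul_sum, Finset.sum_mul]
      rw [Finset.sum_comm]
      simp_rw [mul_assoc, ← Finset.mul_sum, g.sum_θ_e]
      simp
    rw [h2, ← Finset.sum_add_distrib]
    refine Finset.sum_congr rfl fun l _ => ?_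
    ring
  rw [g.pd_e, h1, neg_add, ← Finset.sum_neg_distrib (f := fun b => g.e y ν b * g.Γ μ y b a)]
  congr 1
  refine Finset.sum_congr rfl fun b _ => ?_
  rw [g.anti μ y a b]
  ring

theorem Geo.hi_apply (g : Geo N) (y : V N) (μ ν : Fin N) :
    g.hi y μ ν = ∑ a, g.e y μ a * g.e y ν a := by
  unfold Geo.hi
  rw [Matrix.mul_apply]
  rfl

theorem Geo.hi_symm (g : Geo N) (y : V N) (μ ν : Fin N) : g.hi y μ ν = g.hi y ν μ := by
  rw [g.hi_apply, g.hi_apply]
  exact Finset.sum_congr rfl fun a _ => mul_comm _ _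

/-- `∑_{a,μ} e_a^μ ∂_μ e_a^ν + ∑_a dv_a e_a^ν = - ∑_{μ,l} h^{μl} K^ν_{μl}` (`pd_e_K`,
antisymmetry of `Γ_μ`). -/
theorem Geo.trace_K (g : Geo N) (ν : Fin N) (y : V N) :
    ∑ a, ∑ μ, g.e y μ a * pd μ (fun y => g.e y ν a) y + ∑ a, g.dv a y * g.e y ν a
      = - ∑ μ, ∑ l, g.hi y μ l * g.K ν μ l y := by
  have h1 : ∑ a, g.dv a y * g.e y ν a
      = ∑ a, ∑ μ, g.e y μ a * ∑ b, g.e y ν b * g.Γ μ y a b := by
    unfold Geo.dv
    simp_rw [neg_mul, Finset.sum_mul, Finset.mul_sum]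
    rw [Finset.sum_neg_distrib, Finset.sum_comm, ← Finset.sum_neg_distrib]
    refine Finset.sum_congr rfl fun a _ => ?_
    rw [Finset.sum_comm, ← Finset.sum_neg_distrib]
    refine Finset.sum_congr rfl fun μ _ => ?_
    rw [← Finset.sum_neg_distrib]
    refine Finset.sum_congr rfl fun b _ => ?_
    rw [g.anti μ y a b]
    ring
  have h2 : ∑ μ, ∑ l, g.hi y μ l * g.K ν μ l y
      = ∑ a, ∑ μ, g.e y μ a * ∑ l, g.K ν μ l y * g.e y l a := by
    simp_rw [g.hi_apply, Finset.sum_mul, Finset.mul_sum]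
    rw [Finset.sum_comm (s := (Finset.univ : Finset (Fin N)))
      (f := fun a μ => ∑ l, g.e y μ a * (g.K ν μ l y * g.e y l a))]
    refine Finset.sum_congr rfl fun μ _ => ?_
    rw [Finset.sum_comm]
    refine Finset.sum_congr rfl fun a _ => Finset.sum_congr rfl fun l _ => ?_
    ring
  rw [h1, h2, ← Finset.sum_add_distrib, ← Finset.sum_neg_distrib]
  refine Finset.sum_congr rfl fun a _ => ?_
  rw [← Finset.sum_add_distrib, ← Finset.sum_neg_distrib]
  refine Finset.sum_congr rfl fun μ _ => ?_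
  rw [← mul_add, g.pd_e_K, mul_neg]

/-- Jacobi's formula: `∂_μ det θ = det θ · ∑_{a,ν} e^ν_a ∂_μ θ^a_ν` (derivative of the
determinant; `Matrix.det` is a polynomial; e.g. `Matrix.adjugate`, `det_updateRow`, or the file
Lib/MP_df705a_gt/Twist/MatCalc.lean). -/
theorem Geo.pd_det (g : Geo N) (μ : Fin N) (y : V N) :
    pd μ (fun y => (g.θ y).det) y
      = (g.θ y).det * ∑ a, ∑ ν, g.e y ν a * pd μ (fun y => g.θ y a ν) y := by
  have h1 : (g.θ y).adjugate = (g.θ y).det • g.e y := by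
    have h2 := congrArg (fun M => M * g.e y) (Matrix.adjugate_mul (g.θ y))
    simp only [Matrix.mul_assoc, g.θe, Matrix.mul_one, Matrix.smul_mul, Matrix.one_mul] at h2
    exact h2
  rw [y1_det (fun i j => y1_dθ g i j), h1, Finset.sum_comm, Finset.mul_sum]
  refine Finset.sum_congr rfl fun a _ => ?_
  rw [Finset.mul_sum]
  refine Finset.sum_congr rfl fun ν _ => ?_
  rw [Matrix.smul_apply, smul_eq_mul, mul_assoc]

/-- The divergence of the frame vectors: `∂_μ(ρ e_b^μ) = ρ dv_b`, `ρ = det θ`.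
Proof: by `pd_det` and `pd_e` the left side is `ρ ∑ e_b^μ e_a^ν (∂_μ θ^a_ν - ∂_ν θ^a_μ)` (sum over
`a, μ, ν`), by the torsion equation `= - ρ ∑ e_b^μ e_a^ν (Γ_{μac} θ^c_ν - Γ_{νac} θ^c_μ)
= - ρ (∑_{a,μ} e_b^μ Γ_{μaa} - ∑_{a,ν} e_a^ν Γ_{νab}) = ρ ∑ e_a^ν Γ_{νab} = ρ dv_b`. -/
theorem Geo.div_frame (g : Geo N) (b : Fin N) (y : V N) :
    ∑ μ, pd μ (fun y => (g.θ y).det * g.e y μ b) y = (g.θ y).det * g.dv b y := by
  have dρ : Differentiable ℝ fun y => (g.θ y).det := g.contDiff_det.differentiable (by simp)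
  have h0 : ∀ μ a, g.Γ μ y a a = 0 := fun μ a => by
    have := g.anti μ y a a
    linarith
  have h2 : ∀ μ, ∑ a, ∑ ν, g.e y ν a * pd μ (fun y => g.θ y a ν) y = ∑ ν, g.K ν μ ν y := by
    intro μ
    have h3 : ∑ a, ∑ ν, g.e y ν a * ∑ b, g.Γ μ y a b * g.θ y b ν = 0 := by
      refine Finset.sum_eq_zero fun a _ => ?_
      simp_rw [Finset.mul_sum]
      rw [Finset.sum_comm]
      have h4 : ∀ b, ∑ ν, g.e y ν a * (g.Γ μ y a b * g.θ y b ν)
          = g.Γ μ y a b * if b = a then 1 else 0 := by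
        intro b
        rw [← g.sum_θ_e y b a, Finset.mul_sum]
        exact Finset.sum_congr rfl fun ν _ => by ring
      simp_rw [h4]
      simp [h0]
    unfold Geo.K
    rw [Finset.sum_comm (f := fun ν a => g.e y ν a *
      (pd μ (fun y => g.θ y a ν) y + ∑ b, g.Γ μ y a b * g.θ y b ν))]
    simp_rw [mul_add, Finset.sum_add_distrib]
    rw [h3, add_zero]
  have h1 : ∀ μ, pd μ (fun y => (g.θ y).det * g.e y μ b) y
      = (g.θ y).det * (∑ ν, g.K ν μ ν y * g.e y μ b - ∑ l, g.K μ μ l y * g.e y l b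
        - ∑ a, g.e y μ a * g.Γ μ y b a) := by
    intro μ
    rw [y1_mul dρ (y1_de g μ b), g.pd_det, h2, ← Finset.sum_mul]
    have h5 := g.pd_e_K μ μ b y
    have h6 : pd μ (fun y => g.e y μ b) y = - ∑ l, g.K μ μ l y * g.e y l b
        - ∑ a, g.e y μ a * g.Γ μ y b a := by linarith
    rw [h6]
    ring
  have h7 : ∑ μ, ∑ ν, g.K ν μ ν y * g.e y μ b = ∑ μ, ∑ l, g.K μ μ l y * g.e y l b := by
    rw [Finset.sum_comm]
    exact Finset.sum_congr rfl fun ν _ => Finset.sum_congr rfl fun μ _ => by rw [g.K_symm]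
  have h8 : g.dv b y = - ∑ μ, ∑ a, g.e y μ a * g.Γ μ y b a := by
    unfold Geo.dv
    rw [Finset.sum_comm]
  simp_rw [h1]
  rw [← Finset.mul_sum, Finset.sum_sub_distrib, Finset.sum_sub_distrib, h7, sub_self, zero_sub, h8]

theorem Geo.contDiff_K (g : Geo N) (ν μ l : Fin N) : ContDiff ℝ ∞ (g.K ν μ l) := by
  unfold Geo.K
  exact ContDiff.sum fun a _ => (g.smooth_e ν a).mul
    ((contDiff_pd (g.smooth_θ a l) μ).add
      (ContDiff.sum fun b _ => (g.smooth_Γ μ a b).mul (g.smooth_θ b l)))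

theorem Geo.contDiff_hi (g : Geo N) (μ ν : Fin N) : ContDiff ℝ ∞ fun y => g.hi y μ ν := by
  simp_rw [g.hi_apply]
  exact ContDiff.sum fun a _ => (g.smooth_e μ a).mul (g.smooth_e ν a)

theorem Geo.contDiff_dv (g : Geo N) (b : Fin N) : ContDiff ℝ ∞ (g.dv b) := by
  unfold Geo.dv
  exact (ContDiff.sum fun a _ => ContDiff.sum fun μ _ =>
    (g.smooth_e μ a).mul (g.smooth_Γ μ b a)).neg

theorem Geo.contDiff_scal (g : Geo N) : ContDiff ℝ ∞ g.scal := by
  unfold Geo.scal Geo.F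
  refine (ContDiff.sum fun a _ => ContDiff.sum fun c _ => ContDiff.sum fun μ _ =>
    ContDiff.sum fun ν _ => ((g.smooth_e μ c).mul (g.smooth_e ν a)).mul ?_).neg
  simp only [Matrix.of_apply, Matrix.sub_apply, Matrix.mul_apply]
  exact ((contDiff_pd (g.smooth_Γ ν a c) μ).sub (contDiff_pd (g.smooth_Γ μ a c) ν)).add
    ((ContDiff.sum fun b _ => (g.smooth_Γ μ a b).mul (g.smooth_Γ ν b c)).sub
      (ContDiff.sum fun b _ => (g.smooth_Γ ν a b).mul (g.smooth_Γ μ b c)))

end Pool.Agent.Lib.MP_df705a_gt.RL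
end
end

section

/-!
# RL2, Std: Christoffel symbols and scalar curvature in the standard coordinates

The same formulas as in `Curv.lean` (`christoffel`, `riemann`, `scal`), with the standard basis of
`V N` in the place of `finBasis`.
-/

open scoped ContDiff InnerProductSpace Matrix ENNReal
open MeasureTheory

noncomputable section

namespace Pool.Agent.Lib.MP_df705a_gt.RL

variable {N : ℕ}

/-- Smooth Riemannian metrics in the standard coordinates. -/
def IsMet (h : V N → Mt N) : Prop :=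
  (∀ i j, ContDiff ℝ ∞ fun y => h y i j) ∧ ∀ y, (h y).PosDef

/-- The Christoffel symbols of the first kind. -/
def chr (h : V N → Mt N) (i j k : Fin N) (y : V N) : ℝ :=
  (pd i (fun y => h y j k) y + pd j (fun y => h y i k) y - pd k (fun y => h y i j) y) / 2

/-- The Riemann curvature tensor. -/
def riem (h : V N → Mt N) (i j k l : Fin N) (y : V N) : ℝ :=
  pd i (chr h j k l) y - pd j (chr h i k l) y
    + ∑ p, ∑ q, (h y)⁻¹ p q * (chr h i k p y * chr h j l q y - chr h j k p y * chr h i l q y)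

/-- The scalar curvature. -/
def scalS (h : V N → Mt N) (y : V N) : ℝ :=
  ∑ i, ∑ j, ∑ k, ∑ l, (h y)⁻¹ i l * (h y)⁻¹ j k * riem h i j k l y

/-- INTERFACE (helper75): every smooth metric is the metric of a `Geo`, with the same scalar
curvature. -/
def ExistsGeo (N : ℕ) : Prop :=
  ∀ h : V N → Mt N, IsMet h → ∃ g : Geo N, (∀ y, g.h y = h y) ∧ ∀ y, g.scal y = scalS h y

end Pool.Agent.Lib.MP_df705a_gt.RL
end
end

section

/-!
# RL2, section 6 (random series of closed two-forms): definitions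
-/

open scoped ContDiff InnerProductSpace Matrix
open MeasureTheory Filter Topology

noncomputable section

namespace Pool.Agent.Lib.MP_df705a_gt.RL

variable {N : ℕ}

/-- Iterated partial derivatives: `pds [μ₁, …, μ_k] f = ∂_{μ_k} ⋯ ∂_{μ₁} f`. -/
def pds : List (Fin N) → (V N → ℝ) → V N → ℝ
  | [], f => f
  | μ :: l, f => pds l (pd μ f)

/-- The lists of length at most `q`. -/
def lists (N q : ℕ) : Finset (List (Fin N)) :=
  (Finset.range (q + 1)).biUnion fun k =>
    (Finset.univ : Finset (Fin k → Fin N)).image fun v => List.ofFn v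

/-- Random variables with values in `[-1, 1]` whose finite linear combinations satisfy the
exponential bound of independent signs. -/
structure IsSigns {I X : Type*} [MeasurableSpace X] (P : Measure X) (ε : I → X → ℝ) : Prop where
  meas : ∀ i, Measurable (ε i)
  bdd : ∀ i x, |ε i x| ≤ 1
  exp : ∀ (s : Finset I) (a : I → ℝ),
    ∫ x, Real.exp (∑ i ∈ s, a i * ε i x) ∂P ≤ Real.exp ((∑ i ∈ s, a i ^ 2) / 2)

/-- `a n i = ∑_c ∑_l ∫_B (∂_l h_{c,i})²` over the lists of length at most `q` and the ball of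
radius `r`. -/
def aInt {κ I : Type*} [Fintype κ] (h : κ → I → V N → ℝ) (q : ℕ) (r : ℝ) (i : I) : ℝ :=
  ∑ c, ∑ l ∈ lists N q, ∫ v in Metric.closedBall 0 r, pds l (h c i) v ^ 2

/-- `Z(x) = ∑_c ∑_l ∫_B |∑_{i ∈ t} ε_i(x) ∂_l h_{c,i}|` over the lists of length at most `q` and the
ball of radius `r`. -/
def zInt {κ I X : Type*} [Fintype κ] (ε : I → X → ℝ) (h : κ → I → V N → ℝ) (q : ℕ) (r : ℝ)
    (t : Finset I) (x : X) : ℝ :=
  ∑ c, ∑ l ∈ lists N q, ∫ v in Metric.closedBall 0 r, |∑ i ∈ t, ε i x * pds l (h c i) v|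

/-- `H c x y = ∑_i ε_i(x) h_{c,i}(y)`: a smooth version of the random series. -/
structure IsSer {κ I X : Type*} [MeasurableSpace X] (P : Measure X) (ε : I → X → ℝ)
    (h : κ → I → V N → ℝ) (H : κ → X → V N → ℝ) : Prop where
  smooth : ∀ c x, ContDiff ℝ ∞ (H c x)
  approx : ∃ (s : ℕ → Finset I) (A : Set X), MeasurableSet A ∧ ∀ c x l y,
    Tendsto (fun n => A.indicator (fun x => ∑ i ∈ s n, ε i x * pds l (h c i) y) x) atTop
      (𝓝 (pds l (H c x) y))
  mom : ∀ (r : ℝ) (k : ℕ), ∃ L : X → ℝ, Measurable L ∧ (∀ x, 1 ≤ L x) ∧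
    (∀ p : ℕ, Integrable (fun x => L x ^ p) P) ∧
    ∀ c x, ∀ j ≤ k, ∀ y, ‖y‖ ≤ r → ‖iteratedFDeriv ℝ j (H c x) y‖ ≤ L x
  lim : ∀ c y (p : ℕ), Tendsto (fun s : Finset I =>
    eLpNorm (fun x => H c x y - ∑ i ∈ s, ε i x * h c i y) p P) atTop (𝓝 0)

/-- The square sums of all derivatives are locally bounded. -/
def SqBdd {κ I : Type*} (h : κ → I → V N → ℝ) : Prop :=
  ∀ c (l : List (Fin N)) (r : ℝ), ∃ C : ℝ, ∀ y, ‖y‖ ≤ r → ∀ s : Finset I,
    ∑ i ∈ s, pds l (h c i) y ^ 2 ≤ C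

/-- Convergence in all `Lᵖ`. -/
structure TendsAll {X ι : Type*} [MeasurableSpace X] (P : Measure X) (l : Filter ι)
    (Z : ι → X → ℝ) (W : X → ℝ) : Prop where
  measZ : ∀ s, Measurable (Z s)
  measW : Measurable W
  finZ : ∀ s (p : ℕ), eLpNorm (Z s) p P ≠ ⊤
  finW : ∀ p : ℕ, eLpNorm W p P ≠ ⊤
  lim : ∀ p : ℕ, Tendsto (fun s => eLpNorm (fun x => W x - Z s x) p P) l (𝓝 0)

/-! ## The probability space -/

/-- Sign patterns on the slots `Fin m` with product one in every block `b⁻¹(j)`. -/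
def KK {m : ℕ} {J : Type} [DecidableEq J] (b : Fin m → J) : Type :=
  {k : Fin m → ℤˣ // ∀ j, ∏ r with b r = j, k r = 1}

namespace KK

variable {m : ℕ} {J : Type} [DecidableEq J] {b : Fin m → J}

instance : Nonempty (KK b) := ⟨⟨1, fun j => by simp⟩⟩

instance [Fintype J] : Fintype (KK b) := by
  unfold KK
  infer_instance

instance : MeasurableSpace (KK b) := ⊤

instance : MeasurableSingletonClass (KK b) := ⟨fun _ => trivial⟩

instance : DiscreteMeasurableSpace (KK b) := ⟨fun _ => trivial⟩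

/-- The sign of the slot `r`. -/
def sg (r : Fin m) (k : KK b) : ℝ := ((k.1 r : ℤ) : ℝ)

/-- The uniform measure. -/
def unif [Fintype J] (b : Fin m → J) : Measure (KK b) := (PMF.uniformOfFintype (KK b)).toMeasure

instance [Fintype J] : IsProbabilityMeasure (unif b) := by
  unfold unif
  infer_instance

end KK

universe u

variable {m : ℕ} {J : Type} [DecidableEq J]

/-- The probability space: independent sign patterns for all `i ∈ I j`, `j ∈ J`. -/
def XX (b : Fin m → J) (I : J → Type u) : Type u := (Σ j, I j) → KK b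

namespace XX

variable (b : Fin m → J) (I : J → Type u)

instance : MeasurableSpace (XX b I) := MeasurableSpace.pi

/-- The product of the uniform measures. -/
def prob [Fintype J] : Measure (XX b I) :=
  Measure.infinitePi (X := fun _ : Σ j, I j => KK b) fun _ => KK.unif b

instance [Fintype J] : IsProbabilityMeasure (prob b I) :=
  inferInstanceAs (IsProbabilityMeasure
    (Measure.infinitePi (X := fun _ : Σ j, I j => KK b) fun _ => KK.unif b))

/-- The action of `G` by permutations of the coordinates. -/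
instance {G : Type*} [Group G] [∀ j, MulAction G (I j)] : MulAction G (XX b I) where
  smul g x := fun c => x (g⁻¹ • c)
  one_smul x := by
    funext c
    show x ((1 : G)⁻¹ • c) = x c
    rw [inv_one, one_smul]
  mul_smul g k x := by
    funext c
    show x ((g * k)⁻¹ • c) = x (k⁻¹ • (g⁻¹ • c))
    rw [mul_inv_rev, mul_smul]

theorem smul_apply {G : Type*} [Group G] [∀ j, MulAction G (I j)] (g : G) (x : XX b I)
    (c : Σ j, I j) : (g • x) c = x (g⁻¹ • c) := rfl

/-- The sign `ε_{r,i}` of the slot `r` at the index `i ∈ I (b r)`. -/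
def eps {b : Fin m → J} {I : J → Type u} (r : Fin m) (i : I (b r)) (x : XX b I) : ℝ :=
  KK.sg r (x ⟨b r, i⟩)

end XX

/-- The components of a family of two-forms. -/
def comp {I : Type*} (h : I → V N → Mt N) (c : Fin N × Fin N) (i : I) (y : V N) : ℝ :=
  h i y c.1 c.2

/-- The matrix of the components. -/
def matOf {X : Type*} (H : Fin N × Fin N → X → V N → ℝ) (x : X) (y : V N) : Mt N :=
  Matrix.of fun μ ν => H (μ, ν) x y

end Pool.Agent.Lib.MP_df705a_gt.RL
end
end

section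

/-!
TASK S02. A Sobolev inequality through the Fourier transform.

PROOF. Let `U v = (u v : ℂ)`: smooth, compact support, `iteratedFDeriv ℝ p U v` has the same norm as
`iteratedFDeriv ℝ p u v` (`LinearIsometry.norm_iteratedFDeriv_comp_left` with
`Complex.ofRealLI`), and these norms are continuous with compact support, hence integrable. With
`A = ∑ p ∈ range (N+2), ∫ ‖iteratedFDeriv ℝ p u v‖` the lemma
`Real.pow_mul_norm_iteratedFDeriv_fourier_le` (`K = 0`, `N = ⊤`, `k = 0`, `n = 0` and `n = N+1`) gives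
`‖𝓕 U w‖ ≤ A` and `‖w‖^(N+1) * ‖𝓕 U w‖ ≤ 2^(N+1) * A`, so
`(1 + ‖w‖)^(N+1) * ‖𝓕 U w‖ ≤ 2^(N+1) * (1 + ‖w‖^(N+1)) * ‖𝓕 U w‖ ≤ 4^(N+2) * A`
(`(1+t)^(N+1) ≤ 2^(N+1) * (1 + t^(N+1))` for `t ≥ 0`: `add_pow_le_pow_mul_pow_of_add_eq_one` or
`max 1 t`). `w ↦ (1 + ‖w‖)^(-(N+1))` is integrable on `V N` (`integrable_one_add_norm`,
`finrank ℝ (V N) = N < N + 1`), let `C₀` be its integral. So `𝓕 U` is integrable (it is continuous,
hence measurable: `VectorFourier.fourierIntegral_continuous` / `Real.fourier_continuous`-type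
lemma) and `U y = 𝓕⁻ (𝓕 U) y` (`Continuous.fourierInv_fourier_eq`), so
`|u y| = ‖U y‖ ≤ ∫ ‖𝓕 U‖ ≤ 4^(N+2) * C₀ * A`.
-/

open scoped ContDiff InnerProductSpace Matrix
open MeasureTheory Filter Topology

noncomputable section

namespace Pool.Agent.Lib.MP_df705a_gt.RL

theorem S02_bound {N : ℕ} (F : SchwartzMap (V N) ℂ) {A : ℝ}
    (hA : A = ∑ p ∈ Finset.range (N + 2), ∫ v, ‖iteratedFDeriv ℝ p F v‖) (w : V N) :
    ‖FourierTransform.fourier (F : V N → ℂ) w‖ ≤
      2 ^ N * (1 + 2 ^ (N + 1)) * A * (1 + ‖w‖) ^ (-((N : ℝ) + 1)) := by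
  have h0 := Real.pow_mul_norm_iteratedFDeriv_fourier_le (K := ⊤) (N := ⊤) (F.smooth ⊤)
    (fun k n _ _ => F.integrable_pow_mul_iteratedFDeriv volume k n) (k := 0) (n := 0) le_top
    le_top w
  have h1 := Real.pow_mul_norm_iteratedFDeriv_fourier_le (K := ⊤) (N := ⊤) (F.smooth ⊤)
    (fun k n _ _ => F.integrable_pow_mul_iteratedFDeriv volume k n) (k := 0) (n := N + 1) le_top
    le_top w
  have hnn : ∀ p, 0 ≤ ∫ v, ‖iteratedFDeriv ℝ p F v‖ := fun p =>
    integral_nonneg fun v => norm_nonneg _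
  have hA0 : 0 ≤ A := by
    rw [hA]
    exact Finset.sum_nonneg fun p _ => hnn p
  have h2 : ‖FourierTransform.fourier (F : V N → ℂ) w‖ ≤ A := by
    have h3 : ‖FourierTransform.fourier (F : V N → ℂ) w‖ ≤ ∫ v, ‖iteratedFDeriv ℝ 0 F v‖ := by
      simpa using h0
    refine h3.trans ?_
    rw [hA]
    exact Finset.single_le_sum (f := fun p => ∫ v, ‖iteratedFDeriv ℝ p F v‖)
      (fun p _ => hnn p) (Finset.mem_range.2 (by omega))
  have h3 : ‖w‖ ^ (N + 1) * ‖FourierTransform.fourier (F : V N → ℂ) w‖ ≤ 2 ^ (N + 1) * A := by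
    rw [hA]
    simpa [Finset.sum_product] using h1
  have h4 : (1 + ‖w‖) ^ (N + 1) ≤ 2 ^ N * (1 + ‖w‖ ^ (N + 1)) := by
    have h5 := add_pow_le (zero_le_one (α := ℝ)) (norm_nonneg w) (N + 1)
    rw [one_pow] at h5
    exact h5
  have hpos : 0 < 1 + ‖w‖ := by
    have := norm_nonneg w
    linarith
  have h6 : (1 + ‖w‖) ^ (N + 1) * ‖FourierTransform.fourier (F : V N → ℂ) w‖ ≤
      2 ^ N * (1 + 2 ^ (N + 1)) * A := by
    calc (1 + ‖w‖) ^ (N + 1) * ‖FourierTransform.fourier (F : V N → ℂ) w‖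
        ≤ 2 ^ N * (1 + ‖w‖ ^ (N + 1)) * ‖FourierTransform.fourier (F : V N → ℂ) w‖ :=
          mul_le_mul_of_nonneg_right h4 (norm_nonneg _)
      _ = 2 ^ N * (‖FourierTransform.fourier (F : V N → ℂ) w‖ +
          ‖w‖ ^ (N + 1) * ‖FourierTransform.fourier (F : V N → ℂ) w‖) := by ring
      _ ≤ 2 ^ N * (A + 2 ^ (N + 1) * A) := by gcongr
      _ = _ := by ring
  have h7 : (1 + ‖w‖) ^ (-((N : ℝ) + 1)) = ((1 + ‖w‖) ^ (N + 1))⁻¹ := by
    rw [Real.rpow_neg hpos.le]
    congr 1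
    rw [← Real.rpow_natCast]
    congr 1
    push_cast
    ring
  rw [h7, ← div_eq_mul_inv, le_div_iff₀ (by positivity), mul_comm]
  exact h6

theorem sobolev (N : ℕ) : ∃ C : ℝ, 0 ≤ C ∧ ∀ u : V N → ℝ, ContDiff ℝ ∞ u → HasCompactSupport u →
    ∀ y, |u y| ≤ C * ∑ p ∈ Finset.range (N + 2), ∫ v, ‖iteratedFDeriv ℝ p u v‖ := by
  obtain ⟨C₀, hC₀⟩ : ∃ C₀, C₀ = ∫ w : V N, (1 + ‖w‖) ^ (-((N : ℝ) + 1)) := ⟨_, rfl⟩
  have hint : Integrable fun w : V N => (1 + ‖w‖) ^ (-((N : ℝ) + 1)) := by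
    apply integrable_one_add_norm
    rw [finrank_euclideanSpace_fin]
    linarith
  have hC0 : 0 ≤ C₀ := by
    rw [hC₀]
    refine integral_nonneg fun w => ?_
    have := norm_nonneg w
    positivity
  refine ⟨2 ^ N * (1 + 2 ^ (N + 1)) * C₀, by positivity, fun u hu hc y => ?_⟩
  have hU : ContDiff ℝ ∞ fun v => (u v : ℂ) := Complex.ofRealCLM.contDiff.comp hu
  have hUc : HasCompactSupport fun v => (u v : ℂ) :=
    hc.comp_left (g := fun a : ℝ => (a : ℂ)) Complex.ofReal_zero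
  obtain ⟨F, hF⟩ : ∃ F : SchwartzMap (V N) ℂ, (F : V N → ℂ) = fun v => (u v : ℂ) :=
    ⟨hUc.toSchwartzMap hU, rfl⟩
  have hnorm : ∀ p v, ‖iteratedFDeriv ℝ p F v‖ = ‖iteratedFDeriv ℝ p u v‖ := by
    intro p v
    rw [hF]
    exact Complex.ofRealLI.norm_iteratedFDeriv_comp_left (hu.contDiffAt.of_le (mod_cast le_top))
      le_rfl
  obtain ⟨A, hA⟩ : ∃ A, A = ∑ p ∈ Finset.range (N + 2), ∫ v, ‖iteratedFDeriv ℝ p F v‖ := ⟨_, rfl⟩
  have hA' : ∑ p ∈ Finset.range (N + 2), ∫ v, ‖iteratedFDeriv ℝ p u v‖ = A := by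
    rw [hA]
    refine Finset.sum_congr rfl fun p _ => integral_congr_ae (ae_of_all _ fun v => ?_)
    exact (hnorm p v).symm
  rw [hA']
  have hinv : FourierTransformInv.fourierInv (FourierTransform.fourier (F : V N → ℂ)) y = F y := by
    have h1 := F.continuous.fourierInv_fourier_eq F.integrable
      (FourierTransform.fourier F : SchwartzMap (V N) ℂ).integrable
    exact congrFun h1 y
  have h1 : |u y| = ‖F y‖ := by
    rw [hF]
    exact (Complex.norm_real _).symm
  rw [h1, ← hinv, Real.fourierInv_eq]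
  refine (norm_integral_le_integral_norm _).trans ?_
  have h2 : ∀ w, ‖FourierTransform.fourier (F : V N → ℂ) w‖ ≤
      2 ^ N * (1 + 2 ^ (N + 1)) * A * (1 + ‖w‖) ^ (-((N : ℝ) + 1)) := S02_bound F hA
  calc ∫ v, ‖Real.fourierChar (inner ℝ v y) • FourierTransform.fourier (F : V N → ℂ) v‖
      ≤ ∫ v : V N, 2 ^ N * (1 + 2 ^ (N + 1)) * A * (1 + ‖v‖) ^ (-((N : ℝ) + 1)) := by
        refine integral_mono_of_nonneg (ae_of_all _ fun v => norm_nonneg _)
          (hint.const_mul _) (ae_of_all _ fun v => ?_)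
        have h3 : ‖Real.fourierChar (inner ℝ v y) • FourierTransform.fourier (F : V N → ℂ) v‖ =
            ‖FourierTransform.fourier (F : V N → ℂ) v‖ := Circle.norm_smul _ _
        exact h3.le.trans (h2 v)
    _ = 2 ^ N * (1 + 2 ^ (N + 1)) * C₀ * A := by
        rw [integral_const_mul, ← hC₀]
        ring

end Pool.Agent.Lib.MP_df705a_gt.RL
end
end
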