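import Mathlib
import Pool.Agent.Lib.MP_df705a_gt.Mg.G030

section

/-!
TASK S06. Exhaustion of a countable index set with small tails.

PROOF. For every `n` there is (`summable_iff_vanishing_norm` or `Summable.vanishing_norm`) a finset
`u n` such that `∑ i ∈ t, a n i < η n` for all `t` disjoint from `u n`. Let `f : ℕ → Finset I` be an
increasing exhaustion (e.g. `Encodable` of the countable type `I`: `f n` = all `i` with `encode i ≤ n`,
finite because `encode` is injective; or, if `I` is nonempty, the image of `range n` under a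
surjection `ℕ → I`, `exists_surjective_nat`; if `I` is empty everything is trivial).
`s n = (Finset.range (n+1)).biUnion (fun k => u k ∪ f k)`.
-/

open scoped ContDiff InnerProductSpace Matrix
open MeasureTheory Filter Topology

noncomputable section

namespace Pool.Agent.Lib.MP_df705a_gt.RL

theorem S06_exists_fin {I : Type*} [Countable I] :
    ∃ f : ℕ → Finset I, ∀ i, ∃ n, i ∈ f n := by
  classical
  obtain ⟨g, hg⟩ := exists_injective_nat I
  refine ⟨fun n => (Set.Finite.preimage (s := {n}) hg.injOn (Set.finite_singleton n)).toFinset,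
    fun i => ⟨g i, ?_⟩⟩
  simp

theorem exists_exhaustion {I : Type*} [Countable I] (a : ℕ → I → ℝ) (ha : ∀ n, Summable (a n))
    (η : ℕ → ℝ) (hη : ∀ n, 0 < η n) :
    ∃ s : ℕ → Finset I, Monotone s ∧ (∀ i, ∃ n, i ∈ s n) ∧
      ∀ n (t : Finset I), Disjoint t (s n) → ∑ i ∈ t, a n i < η n := by
  classical
  have h1 : ∀ n, ∃ u : Finset I, ∀ t : Finset I, Disjoint t u → ‖∑ i ∈ t, a n i‖ < η n :=
    fun n => summable_iff_vanishing_norm.1 (ha n) (η n) (hη n)
  choose u hu using h1
  obtain ⟨f, hf⟩ := S06_exists_fin (I := I)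
  refine ⟨fun n => (Finset.range (n + 1)).biUnion fun k => u k ∪ f k, ?_, ?_, ?_⟩
  · intro n k hnk
    exact Finset.biUnion_subset_biUnion_of_subset_left _
      (Finset.range_mono (Nat.add_le_add_right hnk 1))
  · intro i
    obtain ⟨n, hn⟩ := hf i
    exact ⟨n, Finset.mem_biUnion.2 ⟨n, Finset.self_mem_range_succ n,
      Finset.mem_union_right _ hn⟩⟩
  · intro n t ht
    have h2 : Disjoint t (u n) := by
      refine Disjoint.mono_right ?_ ht
      intro i hi
      exact Finset.mem_biUnion.2 ⟨n, Finset.self_mem_range_succ n, Finset.mem_union_left _ hi⟩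
    exact (le_abs_self _).trans_lt (hu n t h2)

end Pool.Agent.Lib.MP_df705a_gt.RL
end
end

section

/-!
TASK S05. Moments of sums of signs (Khintchine).

PROOF. Let `S x = ∑ i ∈ s, a i * ε i x` (measurable, bounded by `∑ |a i|`, so everything is
integrable), `σ² = ∑ a i ^ 2`. If `σ = 0` all `a i = 0` (`i ∈ s`), `S = 0` and the claim holds
(`p = 0`: `1 ≤ 2`). If `σ > 0`: `t^(2p) / (2p)! ≤ cosh t` (`Real.hasSum_cosh`, or
`Real.pow_div_factorial_le_exp` for `|t|`: `|t|^(2p)/(2p)! ≤ exp |t| ≤ exp t + exp (-t)`, enough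
here!). Take `t = S x / σ`: `S^(2p) ≤ σ^(2p) (2p)! (exp (S/σ) + exp (-S/σ))`, integrate, use
`hε.exp` with `a i / σ` and `- a i / σ`: each integral is at most `exp (1/2) ≤ 2`.
So `∫ S^(2p) ≤ 4 (2p)! σ^(2p)`.
`eLpNorm_le`: for `q = 0` trivial (`K = 0`). For `q ≥ 1`: `eLpNorm S q P ≤ eLpNorm S (2q) P`
(`eLpNorm_le_eLpNorm_of_exponent_le`, probability measure) and
`eLpNorm S (2q) P = (∫⁻ ‖S‖ₑ^(2q))^(1/(2q)) = (ofReal ∫ S^(2q))^(1/(2q)) ≤
 ofReal ((4 (2q)!)^(1/(2q)) * sqrt (σ²))` (`eLpNorm_eq_lintegral_rpow_enorm_toReal`,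
`ofReal_integral_eq_lintegral_ofReal`, `MemLp.eLpNorm_eq_integral_rpow_norm`).
-/

open scoped ContDiff InnerProductSpace Matrix
open MeasureTheory Filter Topology

noncomputable section

namespace Pool.Agent.Lib.MP_df705a_gt.RL

variable {I X : Type*} [MeasurableSpace X] {P : Measure X} [IsProbabilityMeasure P] {ε : I → X → ℝ}

theorem S05_integrable {f : X → ℝ} (hf : Measurable f) {B : ℝ} (hB : ∀ x, |f x| ≤ B) :
    Integrable f P :=
  Integrable.of_bound hf.aestronglyMeasurable B (Eventually.of_forall fun x => by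
    rw [Real.norm_eq_abs]; exact hB x)

omit [IsProbabilityMeasure P] in
theorem S05_meas (hε : IsSigns P ε) (s : Finset I) (a : I → ℝ) :
    Measurable fun x => ∑ i ∈ s, a i * ε i x :=
  Finset.measurable_sum s fun i _ => (hε.meas i).const_mul _

omit [IsProbabilityMeasure P] in
theorem S05_bdd (hε : IsSigns P ε) (s : Finset I) (a : I → ℝ) (x : X) :
    |∑ i ∈ s, a i * ε i x| ≤ ∑ i ∈ s, |a i| := by
  refine (Finset.abs_sum_le_sum_abs _ _).trans (Finset.sum_le_sum fun i _ => ?_)
  rw [abs_mul]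
  exact mul_le_of_le_one_right (abs_nonneg _) (hε.bdd i x)

theorem S05_exp_int (hε : IsSigns P ε) (s : Finset I) (a : I → ℝ) :
    Integrable (fun x => Real.exp (∑ i ∈ s, a i * ε i x)) P := by
  refine S05_integrable (Real.measurable_exp.comp (S05_meas hε s a))
    (B := Real.exp (∑ i ∈ s, |a i|)) fun x => ?_
  rw [abs_of_pos (Real.exp_pos _)]
  exact Real.exp_le_exp.2 ((le_abs_self _).trans (S05_bdd hε s a x))

theorem S05_pow_le (t : ℝ) (p : ℕ) :
    t ^ (2 * p) ≤ (2 * p).factorial * (Real.exp t + Real.exp (-t)) := by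
  have h1 := Real.pow_div_factorial_le_exp |t| (abs_nonneg t) (2 * p)
  have h2 : (0 : ℝ) < (2 * p).factorial := by exact_mod_cast Nat.factorial_pos _
  rw [div_le_iff₀ h2] at h1
  have h3 : |t| ^ (2 * p) = t ^ (2 * p) := by
    rw [pow_mul, sq_abs, ← pow_mul]
  rw [h3] at h1
  refine h1.trans ?_
  rw [mul_comm]
  refine mul_le_mul_of_nonneg_left ?_ h2.le
  rcases abs_cases t with h | h
  · rw [h.1]
    have := Real.exp_pos (-t)
    linarith
  · rw [h.1]
    have := Real.exp_pos t
    linarith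

theorem S05_exp_half : Real.exp (1 / 2) ≤ 2 := by
  have h1 : Real.exp (1 / 2) ^ 2 = Real.exp 1 := by
    rw [← Real.exp_nat_mul]
    norm_num
  have h2 := Real.exp_one_lt_d9
  have h3 := Real.exp_pos (1 / 2)
  nlinarith

theorem IsSigns.moment (hε : IsSigns P ε) (p : ℕ) (s : Finset I) (a : I → ℝ) :
    ∫ x, (∑ i ∈ s, a i * ε i x) ^ (2 * p) ∂P ≤
      4 * (2 * p).factorial * (∑ i ∈ s, a i ^ 2) ^ p := by
  have hA : 0 ≤ ∑ i ∈ s, a i ^ 2 := Finset.sum_nonneg fun i _ => sq_nonneg _
  have hfac : (0 : ℝ) < (2 * p).factorial := by exact_mod_cast Nat.factorial_pos _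
  rcases hA.eq_or_lt with h0 | h0
  · have h1 : ∀ i ∈ s, a i = 0 := by
      intro i hi
      have := (Finset.sum_eq_zero_iff_of_nonneg (fun i _ => sq_nonneg (a i))).1 h0.symm i hi
      exact pow_eq_zero_iff two_ne_zero |>.1 this
    have h2 : ∀ x, ∑ i ∈ s, a i * ε i x = 0 := fun x =>
      Finset.sum_eq_zero fun i hi => by rw [h1 i hi, zero_mul]
    simp_rw [h2, ← h0]
    rcases Nat.eq_zero_or_pos p with rfl | hp
    · simp
    · rw [zero_pow (by omega), zero_pow (by omega)]
      simp
  · set σ := Real.sqrt (∑ i ∈ s, a i ^ 2) with hσ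
    have hσ0 : 0 < σ := Real.sqrt_pos.2 h0
    have hσ2 : σ ^ 2 = ∑ i ∈ s, a i ^ 2 := Real.sq_sqrt h0.le
    have hsc : ∀ c : ℝ, ∀ x, ∑ i ∈ s, (c * a i) * ε i x = c * ∑ i ∈ s, a i * ε i x := by
      intro c x
      rw [Finset.mul_sum]
      exact Finset.sum_congr rfl fun i _ => by ring
    have hle : ∀ c : ℝ, c ^ 2 = (σ⁻¹) ^ 2 →
        ∫ x, Real.exp (c * ∑ i ∈ s, a i * ε i x) ∂P ≤ 2 := by
      intro c hc
      have h1 := hε.exp s (fun i => c * a i)
      simp_rw [hsc] at h1
      refine h1.trans ?_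
      have h2 : ∑ i ∈ s, (c * a i) ^ 2 = 1 := by
        simp_rw [mul_pow]
        rw [← Finset.mul_sum, hc, ← hσ2, inv_pow, inv_mul_cancel₀]
        positivity
      rw [h2]
      exact S05_exp_half
    have hI : ∀ c : ℝ, Integrable (fun x => Real.exp (c * ∑ i ∈ s, a i * ε i x)) P := by
      intro c
      have := S05_exp_int hε s (fun i => c * a i)
      simp_rw [hsc] at this
      exact this
    have hpt : ∀ x, (∑ i ∈ s, a i * ε i x) ^ (2 * p) ≤ σ ^ (2 * p) * ((2 * p).factorial *
        (Real.exp (σ⁻¹ * ∑ i ∈ s, a i * ε i x) + Real.exp ((-σ⁻¹) * ∑ i ∈ s, a i * ε i x))) := by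
      intro x
      have h1 := S05_pow_le (σ⁻¹ * ∑ i ∈ s, a i * ε i x) p
      have h2 : (∑ i ∈ s, a i * ε i x) ^ (2 * p) =
          σ ^ (2 * p) * (σ⁻¹ * ∑ i ∈ s, a i * ε i x) ^ (2 * p) := by
        rw [← mul_pow, ← mul_assoc, mul_inv_cancel₀ hσ0.ne', one_mul]
      rw [h2, neg_mul]
      exact mul_le_mul_of_nonneg_left h1 (by positivity)
    have hInt : Integrable (fun x => (∑ i ∈ s, a i * ε i x) ^ (2 * p)) P := by
      refine S05_integrable ((S05_meas hε s a).pow_const _)
        (B := (∑ i ∈ s, |a i|) ^ (2 * p)) fun x => ?_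
      rw [abs_pow]
      exact pow_le_pow_left₀ (abs_nonneg _) (S05_bdd hε s a x) _
    have hInt2 := ((hI σ⁻¹).add (hI (-σ⁻¹))).const_mul ((2 * p).factorial : ℝ) |>.const_mul
      (σ ^ (2 * p))
    refine (integral_mono hInt hInt2 hpt).trans ?_
    have e1 : ∫ x, σ ^ (2 * p) * ((2 * p).factorial *
        ((fun x => Real.exp (σ⁻¹ * ∑ i ∈ s, a i * ε i x)) x +
          (fun x => Real.exp (-σ⁻¹ * ∑ i ∈ s, a i * ε i x)) x)) ∂P =
        σ ^ (2 * p) * ((2 * p).factorial * (∫ x, Real.exp (σ⁻¹ * ∑ i ∈ s, a i * ε i x) ∂P +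
          ∫ x, Real.exp (-σ⁻¹ * ∑ i ∈ s, a i * ε i x) ∂P)) := by
      rw [integral_const_mul, integral_const_mul, integral_add (hI _) (hI _)]
    refine (le_of_eq e1).trans ?_
    have h1 := hle σ⁻¹ rfl
    have h2 := hle (-σ⁻¹) (by ring)
    have h3 : σ ^ (2 * p) = (∑ i ∈ s, a i ^ 2) ^ p := by rw [pow_mul, hσ2]
    rw [h3]
    have h4 : (0 : ℝ) ≤ (∑ i ∈ s, a i ^ 2) ^ p := pow_nonneg h0.le p
    calc (∑ i ∈ s, a i ^ 2) ^ p * ((2 * p).factorial *
          (∫ x, Real.exp (σ⁻¹ * ∑ i ∈ s, a i * ε i x) ∂P +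
            ∫ x, Real.exp (-σ⁻¹ * ∑ i ∈ s, a i * ε i x) ∂P))
        ≤ (∑ i ∈ s, a i ^ 2) ^ p * ((2 * p).factorial * 4) := by
          refine mul_le_mul_of_nonneg_left (mul_le_mul_of_nonneg_left (by linarith) hfac.le) h4
      _ = 4 * (2 * p).factorial * (∑ i ∈ s, a i ^ 2) ^ p := by ring

theorem IsSigns.eLpNorm_le (hε : IsSigns P ε) (q : ℕ) : ∃ K : ℝ, 0 ≤ K ∧
    ∀ (s : Finset I) (a : I → ℝ), eLpNorm (fun x => ∑ i ∈ s, ε i x * a i) q P ≤
      ENNReal.ofReal (K * Real.sqrt (∑ i ∈ s, a i ^ 2)) := by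
  rcases Nat.eq_zero_or_pos q with rfl | hq
  · exact ⟨0, le_rfl, fun s a => by simp⟩
  have hfac : (1 : ℝ) ≤ (2 * q).factorial := by exact_mod_cast Nat.factorial_pos _
  refine ⟨4 * (2 * q).factorial, by positivity, fun s a => ?_⟩
  have hcomm : (fun x => ∑ i ∈ s, ε i x * a i) = fun x => ∑ i ∈ s, a i * ε i x := by
    funext x
    exact Finset.sum_congr rfl fun i _ => mul_comm _ _
  rw [hcomm]
  have hA : 0 ≤ ∑ i ∈ s, a i ^ 2 := Finset.sum_nonneg fun i _ => sq_nonneg _
  set A := ∑ i ∈ s, a i ^ 2 with hAdef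
  set K : ℝ := 4 * (2 * q).factorial with hK
  have hK1 : 1 ≤ K := by rw [hK]; linarith
  have h1 : eLpNorm (fun x => ∑ i ∈ s, a i * ε i x) q P ≤
      eLpNorm (fun x => ∑ i ∈ s, a i * ε i x) ((2 * q : ℕ) : ENNReal) P :=
    eLpNorm_le_eLpNorm_of_exponent_le (by exact_mod_cast (by omega : q ≤ 2 * q))
      (S05_meas hε s a).aestronglyMeasurable
  refine h1.trans ?_
  have h0 : ((2 * q : ℕ) : ENNReal) ≠ 0 := by exact_mod_cast (by omega : 2 * q ≠ 0)
  have ht : ((2 * q : ℕ) : ENNReal) ≠ ⊤ := ENNReal.natCast_ne_top _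
  rw [eLpNorm_eq_lintegral_rpow_enorm_toReal h0 ht, ENNReal.toReal_natCast]
  have h2 : ∫⁻ x, ‖∑ i ∈ s, a i * ε i x‖ₑ ^ ((2 * q : ℕ) : ℝ) ∂P =
      ENNReal.ofReal (∫ x, (∑ i ∈ s, a i * ε i x) ^ (2 * q) ∂P) := by
    rw [ofReal_integral_eq_lintegral_ofReal]
    · refine lintegral_congr fun x => ?_
      rw [ENNReal.rpow_natCast, ← ofReal_norm, ← ENNReal.ofReal_pow (norm_nonneg _),
        Real.norm_eq_abs, pow_mul, sq_abs, ← pow_mul]
    · refine S05_integrable ((S05_meas hε s a).pow_const _)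
        (B := (∑ i ∈ s, |a i|) ^ (2 * q)) fun x => ?_
      rw [abs_pow]
      exact pow_le_pow_left₀ (abs_nonneg _) (S05_bdd hε s a x) _
    · refine Eventually.of_forall fun x => ?_
      show 0 ≤ (∑ i ∈ s, a i * ε i x) ^ (2 * q)
      rw [pow_mul]
      positivity
  rw [h2]
  have h3 : ENNReal.ofReal (∫ x, (∑ i ∈ s, a i * ε i x) ^ (2 * q) ∂P) ≤
      ENNReal.ofReal (K * Real.sqrt A) ^ ((2 * q : ℕ) : ℝ) := by
    rw [ENNReal.rpow_natCast, ← ENNReal.ofReal_pow (by positivity)]
    refine ENNReal.ofReal_le_ofReal ((hε.moment q s a).trans ?_)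
    rw [mul_pow, pow_mul (Real.sqrt A), Real.sq_sqrt hA]
    refine mul_le_mul_of_nonneg_right ?_ (pow_nonneg hA q)
    exact le_self_pow₀ hK1 (by omega)
  have hpos : (0 : ℝ) < ((2 * q : ℕ) : ℝ) := by exact_mod_cast (by omega : 0 < 2 * q)
  calc ENNReal.ofReal (∫ x, (∑ i ∈ s, a i * ε i x) ^ (2 * q) ∂P) ^ (1 / ((2 * q : ℕ) : ℝ))
      ≤ (ENNReal.ofReal (K * Real.sqrt A) ^ ((2 * q : ℕ) : ℝ)) ^ (1 / ((2 * q : ℕ) : ℝ)) :=
        ENNReal.rpow_le_rpow h3 (by positivity)
    _ = ENNReal.ofReal (K * Real.sqrt A) := by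
        rw [← ENNReal.rpow_mul, mul_one_div_cancel hpos.ne', ENNReal.rpow_one]

end Pool.Agent.Lib.MP_df705a_gt.RL
end
end

section

/-!
TASK S15A (theorems isClosed2_matOf). The random series of closed two-forms is closed and equivariant.

`matOf H x y` is the matrix of the components.

PROOFS.
* `isClosed2_matOf`: smooth: `hH.smooth`. anti, closed: take `s, A` of `hH.approx`. For `x ∉ A` all
  limits are `0` (the sequences are constantly `0`, `tendsto_nhds_unique`). For `x ∈ A`:
  `H (μ,ν) x y = lim ∑_{i ∈ s n} ε i x * h i y μ ν` (`l = []`) and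
  `pd l (H (μ,ν) x) y = lim ∑ ε i x * pd l (fun y => h i y μ ν) y` (list `[l]`, `pds [l] f = pd l f` is
  `rfl`). So the two relations are limits of the relations of the `h i`
  (`tendsto_nhds_unique` with `Tendsto.add`, `Finset.sum_add_distrib`, `mul_add`). In
  `IsClosed2.closed` the function is `fun y => matOf H x y μ ν` which is `H (μ,ν) x` (`rfl`).
* `equi_matOf`: fix `γ`. Both sides are continuous in `y` for every `x` (`hH.smooth`, `a.smooth`,
  entries of `jac`: `fderiv` of a smooth map is continuous), so by `ae_all_iff` and density of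
  `TopologicalSpace.denseSeq (V N)` it is enough to fix `y` (and `μ ν`) and to show that
  `L x = ∑ α β, jac α μ * H (α,β) (γ • x) (γ y) * jac β ν` and `M x = H (μ,ν) x y` are a.e. equal
  (continuous functions which agree on a dense set agree: `Continuous.ext_on`). For every finset
  `s`: with `T s x = ∑ i ∈ s, ε i (γ • x) * h' i`, `h' i = (pull2 (a.act γ) (h i) y) μ ν`:
  `L x - T s x = ∑ α β, jac α μ * (H (α,β) (γ • x) (γ y) - ∑ i ∈ s, ε i (γ • x) * h i (γ y) α β) * jac β ν`,
  so `eLpNorm (L - T s) 1 P → 0` as `s → atTop` (`hH.lim` with `p = 1`,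
  `eLpNorm_comp_measurePreserving`; finite sums, constants). On the other hand
  `ε i (γ • x) = ε (γ⁻¹ • i) x` (`hε` at `γ⁻¹ • i`) and `h' i = h (γ⁻¹ • i) y μ ν` (`he` at
  `γ⁻¹ • i`), so `T s x = ∑ i ∈ s', ε i x * h i y μ ν` with `s' = s.image (γ⁻¹ • ·)`
  (`Finset.sum_image`, injective), and `s' → atTop` as `s → atTop`
  (`tendsto_atTop_atTop`: if `s ⊇ s₀.image (γ • ·)` then `s' ⊇ s₀`), so
  `eLpNorm (M - T s) 1 P → 0` (`hH.lim`). Hence `eLpNorm (L - M) 1 P = 0`, and
  `eLpNorm_eq_zero_iff` (measurability: hypothesis `hHm`).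
-/

open scoped ContDiff InnerProductSpace Matrix
open MeasureTheory Filter Topology

noncomputable section

namespace Pool.Agent.Lib.MP_df705a_gt.RL

variable {N : ℕ} {X : Type*}

variable [MeasurableSpace X] {P : Measure X} [IsProbabilityMeasure P] {I : Type*} {ε : I → X → ℝ}
  {h : I → V N → Mt N} {H : Fin N × Fin N → X → V N → ℝ}

theorem isClosed2_matOf (hc : ∀ i, IsClosed2 (h i)) (hH : IsSer P ε (comp h) H) (x : X) :
    IsClosed2 (matOf H x) := by
  classical
  obtain ⟨s, A, -, hA⟩ := hH.approx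
  refine ⟨fun μ ν => hH.smooth (μ, ν) x, fun y μ ν => ?_, fun y l μ ν => ?_⟩
  · show H (ν, μ) x y = - H (μ, ν) x y
    have h1 := hA (ν, μ) x [] y
    have h2 := (hA (μ, ν) x [] y).neg
    refine tendsto_nhds_unique h1 (h2.congr fun n => ?_)
    by_cases hx : x ∈ A
    · rw [Set.indicator_of_mem hx, Set.indicator_of_mem hx, ← Finset.sum_neg_distrib]
      refine Finset.sum_congr rfl fun i _ => ?_
      show -(ε i x * h i y μ ν) = ε i x * h i y ν μ
      rw [(hc i).anti y μ ν]; ring
    · rw [Set.indicator_of_notMem hx, Set.indicator_of_notMem hx, neg_zero]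
  · show pd l (H (μ, ν) x) y + pd μ (H (ν, l) x) y + pd ν (H (l, μ) x) y = 0
    have h1 := hA (μ, ν) x [l] y
    have h2 := hA (ν, l) x [μ] y
    have h3 := hA (l, μ) x [ν] y
    refine tendsto_nhds_unique ((h1.add h2).add h3) (tendsto_const_nhds.congr fun n => ?_)
    by_cases hx : x ∈ A
    · simp only [Set.indicator_of_mem hx]
      rw [← Finset.sum_add_distrib, ← Finset.sum_add_distrib]
      refine (Finset.sum_eq_zero fun i _ => ?_).symm
      show ε i x * pd l (fun y => h i y μ ν) y + ε i x * pd μ (fun y => h i y ν l) y +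
        ε i x * pd ν (fun y => h i y l μ) y = 0
      rw [← mul_add, ← mul_add, (hc i).closed y l μ ν, mul_zero]
    · simp only [Set.indicator_of_notMem hx, add_zero]

end Pool.Agent.Lib.MP_df705a_gt.RL
end
end

section

/-!
TASK S15B (theorems equi_matOf). The random series of closed two-forms is closed and equivariant.

`matOf H x y` is the matrix of the components.

PROOFS.
* `isClosed2_matOf`: smooth: `hH.smooth`. anti, closed: take `s, A` of `hH.approx`. For `x ∉ A` all
  limits are `0` (the sequences are constantly `0`, `tendsto_nhds_unique`). For `x ∈ A`: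
  `H (μ,ν) x y = lim ∑_{i ∈ s n} ε i x * h i y μ ν` (`l = []`) and
  `pd l (H (μ,ν) x) y = lim ∑ ε i x * pd l (fun y => h i y μ ν) y` (list `[l]`, `pds [l] f = pd l f` is
  `rfl`). So the two relations are limits of the relations of the `h i`
  (`tendsto_nhds_unique` with `Tendsto.add`, `Finset.sum_add_distrib`, `mul_add`). In
  `IsClosed2.closed` the function is `fun y => matOf H x y μ ν` which is `H (μ,ν) x` (`rfl`).
* `equi_matOf`: fix `γ`. Both sides are continuous in `y` for every `x` (`hH.smooth`, `a.smooth`,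
  entries of `jac`: `fderiv` of a smooth map is continuous), so by `ae_all_iff` and density of
  `TopologicalSpace.denseSeq (V N)` it is enough to fix `y` (and `μ ν`) and to show that
  `L x = ∑ α β, jac α μ * H (α,β) (γ • x) (γ y) * jac β ν` and `M x = H (μ,ν) x y` are a.e. equal
  (continuous functions which agree on a dense set agree: `Continuous.ext_on`). For every finset
  `s`: with `T s x = ∑ i ∈ s, ε i (γ • x) * h' i`, `h' i = (pull2 (a.act γ) (h i) y) μ ν`:
  `L x - T s x = ∑ α β, jac α μ * (H (α,β) (γ • x) (γ y) - ∑ i ∈ s, ε i (γ • x) * h i (γ y) α β) * jac β ν`,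
  so `eLpNorm (L - T s) 1 P → 0` as `s → atTop` (`hH.lim` with `p = 1`,
  `eLpNorm_comp_measurePreserving`; finite sums, constants). On the other hand
  `ε i (γ • x) = ε (γ⁻¹ • i) x` (`hε` at `γ⁻¹ • i`) and `h' i = h (γ⁻¹ • i) y μ ν` (`he` at
  `γ⁻¹ • i`), so `T s x = ∑ i ∈ s', ε i x * h i y μ ν` with `s' = s.image (γ⁻¹ • ·)`
  (`Finset.sum_image`, injective), and `s' → atTop` as `s → atTop`
  (`tendsto_atTop_atTop`: if `s ⊇ s₀.image (γ • ·)` then `s' ⊇ s₀`), so
  `eLpNorm (M - T s) 1 P → 0` (`hH.lim`). Hence `eLpNorm (L - M) 1 P = 0`, and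
  `eLpNorm_eq_zero_iff` (measurability: hypothesis `hHm`).
-/

open scoped ContDiff InnerProductSpace Matrix
open MeasureTheory Filter Topology

noncomputable section

namespace Pool.Agent.Lib.MP_df705a_gt.RL

variable {N : ℕ} {X : Type*}

variable [MeasurableSpace X] {P : Measure X} [IsProbabilityMeasure P] {I : Type*} {ε : I → X → ℝ}
  {h : I → V N → Mt N} {H : Fin N × Fin N → X → V N → ℝ}

private theorem S15B_pull2_apply (Φ : V N → V N) (Ω : V N → Mt N) (y : V N) (μ ν : Fin N) :
    pull2 Φ Ω y μ ν = ∑ c : Fin N × Fin N, (jac Φ y c.1 μ * jac Φ y c.2 ν) * Ω (Φ y) c.1 c.2 := by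
  unfold pull2
  rw [Matrix.mul_apply, Fintype.sum_prod_type_right]
  refine Finset.sum_congr rfl fun β _ => ?_
  rw [Matrix.mul_apply, Finset.sum_mul]
  refine Finset.sum_congr rfl fun α _ => ?_
  rw [Matrix.transpose_apply]; ring

private theorem S15B_continuous_jac {Φ : V N → V N} (hΦ : ContDiff ℝ ∞ Φ) (α μ : Fin N) :
    Continuous fun y => jac Φ y α μ := by
  have h1 : Continuous fun y => fderiv ℝ Φ y (bv μ) :=
    (hΦ.continuous_fderiv (by simp)).clm_apply continuous_const
  exact (EuclideanSpace.proj α : V N →L[ℝ] ℝ).continuous.comp h1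

private theorem S15B_tendsto_image {G : Type*} [Group G] [MulAction G I] [DecidableEq I] (γ : G) :
    Tendsto (fun s : Finset I => s.image fun i => γ⁻¹ • i) atTop atTop := by
  refine tendsto_atTop_atTop.2 fun b => ⟨b.image fun i => γ • i, fun s hs i hi => ?_⟩
  refine Finset.mem_image.2 ⟨γ • i, hs (Finset.mem_image_of_mem _ hi), inv_smul_smul γ i⟩

theorem equi_matOf {G : Type*} [Group G] [MulAction G X] [MulAction G I] (a : Act G N)
    (hP : ∀ g : G, MeasurePreserving (fun x : X => g • x) P P)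
    (hεm : ∀ i, Measurable (ε i)) (hε : ∀ (g : G) i x, ε (g • i) (g • x) = ε i x)
    (hc : ∀ i, IsClosed2 (h i)) (he : ∀ (g : G) i y, pull2 (a.act g) (h (g • i)) y = h i y)
    (hH : IsSer P ε (comp h) H) (hHm : ∀ c y, Measurable fun x => H c x y) (γ : G) :
    ∀ᵐ x ∂P, ∀ y, pull2 (a.act γ) (matOf H (γ • x)) y = matOf H x y := by
  classical
  -- the pointwise statement
  have key : ∀ (y : V N) (μ ν : Fin N),
      ∀ᵐ x ∂P, pull2 (a.act γ) (matOf H (γ • x)) y μ ν = H (μ, ν) x y := by
    intro y μ ν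
    set cf : Fin N × Fin N → ℝ := fun c => jac (a.act γ) y c.1 μ * jac (a.act γ) y c.2 ν with hcf
    set D : Finset I → Fin N × Fin N → X → ℝ := fun s c x =>
      H c x (a.act γ y) - ∑ i ∈ s, ε i x * comp h c i (a.act γ y) with hD
    set L : X → ℝ := fun x => pull2 (a.act γ) (matOf H (γ • x)) y μ ν with hL
    set M : X → ℝ := fun x => H (μ, ν) x y with hM
    set T : Finset I → X → ℝ := fun s x =>
      ∑ i ∈ s.image (fun i => γ⁻¹ • i), ε i x * comp h (μ, ν) i y with hT
    have hDm : ∀ s c, Measurable (D s c) := fun s c =>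
      (hHm c _).sub (Finset.measurable_sum s fun i _ => (hεm i).mul_const _)
    have hTm : ∀ s, Measurable (T s) := fun s =>
      Finset.measurable_sum _ fun i _ => (hεm i).mul_const _
    have hLm : Measurable L := by
      have h1 : L = fun x => ∑ c : Fin N × Fin N, cf c * H c (γ • x) (a.act γ y) := by
        funext x
        exact S15B_pull2_apply _ _ _ _ _
      rw [h1]
      exact Finset.measurable_sum _ fun c _ =>
        ((hHm c (a.act γ y)).comp (hP γ).measurable).const_mul _
    have hMm : Measurable M := hHm (μ, ν) y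
    -- the first difference
    have hLT : ∀ s, (fun x => L x - T s x) = ∑ c : Fin N × Fin N, cf c • (D s c ∘ fun x => γ • x) := by
      intro s
      funext x
      rw [Finset.sum_apply]
      have h1 : T s x = ∑ c : Fin N × Fin N, cf c * ∑ i ∈ s, ε i (γ • x) * comp h c i (a.act γ y) := by
        rw [hT]
        simp only
        rw [Finset.sum_image fun i _ j _ hij => smul_left_cancel γ⁻¹ hij]
        simp only [Finset.mul_sum]
        rw [Finset.sum_comm]
        refine Finset.sum_congr rfl fun i _ => ?_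
        have h2 : ε (γ⁻¹ • i) x = ε i (γ • x) := by
          have := hε γ (γ⁻¹ • i) x
          rw [smul_inv_smul] at this
          exact this.symm
        have h3 : comp h (μ, ν) (γ⁻¹ • i) y = pull2 (a.act γ) (h i) y μ ν := by
          have := he γ (γ⁻¹ • i) y
          rw [smul_inv_smul] at this
          rw [this]
          rfl
        rw [h2, h3, S15B_pull2_apply, Finset.mul_sum]
        refine Finset.sum_congr rfl fun c _ => ?_
        show ε i (γ • x) * (cf c * comp h c i (a.act γ y)) = _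
        ring
      rw [h1]
      have h4 : L x = ∑ c : Fin N × Fin N, cf c * H c (γ • x) (a.act γ y) :=
        S15B_pull2_apply _ _ _ _ _
      rw [h4, ← Finset.sum_sub_distrib]
      refine Finset.sum_congr rfl fun c _ => ?_
      show _ = cf c * (H c (γ • x) (a.act γ y) - ∑ i ∈ s, ε i (γ • x) * comp h c i (a.act γ y))
      ring
    have hlim1 : Tendsto (fun s => eLpNorm (fun x => L x - T s x) 1 P) atTop (𝓝 0) := by
      have hb : ∀ s, eLpNorm (fun x => L x - T s x) 1 P ≤
          ∑ c : Fin N × Fin N, ‖cf c‖ₑ * eLpNorm (D s c) 1 P := by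
        intro s
        rw [hLT]
        refine (eLpNorm_sum_le (fun c _ => ?_) le_rfl).trans (Finset.sum_le_sum fun c _ => ?_)
        · exact (((hDm s c).comp (hP γ).measurable).aestronglyMeasurable).const_smul _
        · rw [eLpNorm_const_smul,
            eLpNorm_comp_measurePreserving (hDm s c).aestronglyMeasurable (hP γ)]
      refine tendsto_of_tendsto_of_tendsto_of_le_of_le tendsto_const_nhds ?_
        (fun s => zero_le) hb
      have h0 : (0 : ENNReal) = ∑ c : Fin N × Fin N, ‖cf c‖ₑ * 0 := by simp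
      rw [h0]
      refine tendsto_finsetSum _ fun c _ => ?_
      refine ENNReal.Tendsto.const_mul ?_ (Or.inr enorm_ne_top)
      have := hH.lim c (a.act γ y) 1
      rw [Nat.cast_one] at this
      exact this
    have hlim2 : Tendsto (fun s => eLpNorm (fun x => M x - T s x) 1 P) atTop (𝓝 0) := by
      have := hH.lim (μ, ν) y 1
      rw [Nat.cast_one] at this
      exact this.comp (S15B_tendsto_image γ)
    have h0 : eLpNorm (fun x => L x - M x) 1 P = 0 := by
      have hb : ∀ s, eLpNorm (fun x => L x - M x) 1 P ≤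
          eLpNorm (fun x => L x - T s x) 1 P + eLpNorm (fun x => M x - T s x) 1 P := by
        intro s
        have h1 : (fun x => L x - M x) = (fun x => L x - T s x) - fun x => M x - T s x := by
          funext x; simp
        rw [h1]
        exact eLpNorm_sub_le (hLm.sub (hTm s)).aestronglyMeasurable
          (hMm.sub (hTm s)).aestronglyMeasurable le_rfl
      have h2 := hlim1.add hlim2
      rw [add_zero] at h2
      exact le_antisymm (ge_of_tendsto' h2 hb) zero_le
    have h3 := (eLpNorm_eq_zero_iff (hLm.sub hMm).aestronglyMeasurable one_ne_zero).1 h0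
    filter_upwards [h3] with x hx
    exact sub_eq_zero.1 hx
  have hdense := TopologicalSpace.denseRange_denseSeq (V N)
  have hae : ∀ᵐ x ∂P, ∀ (k : ℕ) (μ ν : Fin N),
      pull2 (a.act γ) (matOf H (γ • x)) (TopologicalSpace.denseSeq (V N) k) μ ν =
        H (μ, ν) x (TopologicalSpace.denseSeq (V N) k) := by
    rw [ae_all_iff]; intro k
    rw [ae_all_iff]; intro μ
    rw [ae_all_iff]; intro ν
    exact key _ μ ν
  filter_upwards [hae] with x hx y
  ext μ ν
  show pull2 (a.act γ) (matOf H (γ • x)) y μ ν = H (μ, ν) x y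
  have hF : Continuous fun y => pull2 (a.act γ) (matOf H (γ • x)) y μ ν := by
    have h1 : (fun y => pull2 (a.act γ) (matOf H (γ • x)) y μ ν) = fun y =>
        ∑ c : Fin N × Fin N, (jac (a.act γ) y c.1 μ * jac (a.act γ) y c.2 ν) *
          H c (γ • x) (a.act γ y) := by
      funext y
      exact S15B_pull2_apply _ _ _ _ _
    rw [h1]
    refine continuous_finsetSum _ fun c _ => ?_
    exact ((S15B_continuous_jac (a.smooth γ) _ _).mul (S15B_continuous_jac (a.smooth γ) _ _)).mul
      ((hH.smooth c (γ • x)).continuous.comp (a.smooth γ).continuous)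
  have hG : Continuous fun y => H (μ, ν) x y := (hH.smooth (μ, ν) x).continuous
  have h2 := Continuous.ext_on (s := Set.range (TopologicalSpace.denseSeq (V N))) hdense hF hG
    (by rintro _ ⟨k, rfl⟩; exact hx k μ ν)
  exact congrFun h2 y

end Pool.Agent.Lib.MP_df705a_gt.RL
end
end

section

/-!
TASK S17A (theorems pf_sum, abs_pf_le, moebius). Algebra of `pf`.

PROOFS.
* `pf_sum`: `(∑ q ∈ S, W q) i j = ∑ q ∈ S, W q i j` (`Matrix.sum_apply`), `Finset.prod_univ_sum`
  (product over `r : Fin m` of sums over `S` = sum over `Fintype.piFinset (fun _ => S)`),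
  `Finset.mul_sum`, `Finset.sum_comm`.
* `pf_perm`: let `e : Fin m × Fin 2 ≃ Fin (2 * m)`, `(r, k) ↦ 2 r + k` (`finProdFinEquiv : Fin m × Fin 2 ≃
  Fin (m * 2)`, `(r,k) ↦ k + 2 * r`, and `finCongr (by ring)`). `τ̃ = e ∘ (τ × id) ∘ e⁻¹` has
  `τ̃ (2r) = 2 τ(r)`, `τ̃ (2r+1) = 2 τ(r) + 1` and sign `sign(τ)^2 = 1`
  (`Equiv.Perm.sign_prodCongrLeft`, `Equiv.Perm.sign_permCongr` / `sign_symm_trans_trans`).
  Substitute `σ ↦ σ * τ̃` in the sum for `pf W` (`Equiv.sum_comp (Equiv.mulRight τ̃)`):
  `∏_r W r (σ (τ̃ 2r)) (σ (τ̃ (2r+1))) = ∏_r W r (σ (2 τ r)) (σ (2 τ r + 1))`; reindex the product by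
  `τ`: `= ∏_r W (τ⁻¹ r) (σ 2r) (σ (2r+1))`. This is the claim for `τ⁻¹`.
* `abs_pf_le`: triangle inequality, `|sign| = 1`, `Finset.prod_le_prod`, `Fintype.card_perm`.
* `moebius`: let `E S = ∑_{g with image g = S} e g` (`Finset.univ.filter (fun g => Finset.univ.image g = S)`).
  `∑_{g ∈ piFinset (fun _ => S)} e g = ∑_{T ⊆ S} E T` (`Finset.sum_fiberwise_of_maps_to`, `T = image g`).
  By strong induction on `S` (`Finset.strongInduction`) `E S = 0` for all `S`. For `S = univ`: the
  `g` with image `univ` are surjective, hence the permutations (`Finite.injective_iff_surjective`,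
  `Equiv.ofBijective`), so `0 = ∑_τ e τ = m! e id` (`Finset.sum_bij` / `Finset.sum_nbij`).
-/

open scoped ContDiff InnerProductSpace Matrix
open MeasureTheory Filter Topology

noncomputable section

namespace Pool.Agent.Lib.MP_df705a_gt.RL

variable {m : ℕ}

theorem pf_sum (S : Finset (Fin m)) (W : Fin m → Mt (2 * m)) :
    pf (fun _ => ∑ q ∈ S, W q) =
      ∑ g ∈ Fintype.piFinset (fun _ : Fin m => S), pf (fun r => W (g r)) := by
  unfold pf
  rw [Finset.sum_comm]
  refine Finset.sum_congr rfl fun σ _ => ?_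
  rw [← Finset.mul_sum]
  congr 1
  simp only [Matrix.sum_apply]
  exact Finset.prod_univ_sum _ _

theorem abs_pf_le (W : Fin m → Mt (2 * m)) (c : ℝ) (hW : ∀ r i j, |W r i j| ≤ c) :
    |pf W| ≤ (2 * m).factorial * c ^ m := by
  unfold pf
  refine (Finset.abs_sum_le_sum_abs _ _).trans ?_
  have h1 : ∀ σ ∈ (Finset.univ : Finset (Equiv.Perm (Fin (2 * m)))),
      |((Equiv.Perm.sign σ : ℤ) : ℝ) *
        ∏ r : Fin m, W r (σ ⟨2 * r, by omega⟩) (σ ⟨2 * r + 1, by omega⟩)| ≤ c ^ m := by
    intro σ _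
    have h2 : |((Equiv.Perm.sign σ : ℤ) : ℝ)| = 1 := by
      rcases Int.units_eq_one_or (Equiv.Perm.sign σ) with h | h <;> rw [h] <;> simp
    rw [abs_mul, h2, one_mul, Finset.abs_prod]
    refine (Finset.prod_le_prod (fun r _ => abs_nonneg _) fun r _ => hW r _ _).trans
      (le_of_eq ?_)
    rw [Finset.prod_const, Finset.card_univ, Fintype.card_fin]
  refine (Finset.sum_le_card_nsmul _ _ _ h1).trans (le_of_eq ?_)
  rw [Finset.card_univ, Fintype.card_perm, Fintype.card_fin, nsmul_eq_mul]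

theorem moebius (e : (Fin m → Fin m) → ℝ)
    (h0 : ∀ S : Finset (Fin m), ∑ g ∈ Fintype.piFinset (fun _ : Fin m => S), e g = 0)
    (hp : ∀ τ : Equiv.Perm (Fin m), e τ = e id) : e id = 0 := by
  classical
  have hA : ∀ S : Finset (Fin m), ∑ g ∈ Fintype.piFinset (fun _ : Fin m => S), e g =
      ∑ T ∈ S.powerset, ∑ g : Fin m → Fin m with Finset.univ.image g = T, e g := by
    intro S
    rw [← Finset.sum_fiberwise_of_maps_to (s := Fintype.piFinset (fun _ : Fin m => S))
      (t := S.powerset) (g := fun g => Finset.univ.image g) (f := e)]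
    · refine Finset.sum_congr rfl fun T hT => ?_
      refine Finset.sum_congr ?_ fun _ _ => rfl
      ext g
      simp only [Finset.mem_filter, Fintype.mem_piFinset, Finset.mem_univ, true_and]
      refine ⟨fun h => h.2, fun h => ⟨fun r => ?_, h⟩⟩
      exact Finset.mem_powerset.1 hT (h ▸ Finset.mem_image_of_mem g (Finset.mem_univ r))
    · intro g hg
      rw [Finset.mem_powerset]
      intro y hy
      obtain ⟨r, _, rfl⟩ := Finset.mem_image.1 hy
      exact Fintype.mem_piFinset.1 hg r
  have hB : ∀ S : Finset (Fin m),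
      ∑ g : Fin m → Fin m with Finset.univ.image g = S, e g = 0 := by
    intro S
    induction S using Finset.strongInduction with
    | H S ih =>
      have h1 := (hA S).symm.trans (h0 S)
      rw [Finset.sum_eq_single S] at h1
      · exact h1
      · intro T hT hne
        exact ih T ((Finset.mem_powerset.1 hT).ssubset_of_ne hne)
      · intro h
        exact absurd (Finset.mem_powerset.2 (Finset.Subset.refl S)) h
  have hC : (Finset.univ.filter fun g : Fin m → Fin m => Finset.univ.image g = Finset.univ) =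
      Finset.univ.image fun τ : Equiv.Perm (Fin m) => (τ : Fin m → Fin m) := by
    ext g
    simp only [Finset.mem_filter, Finset.mem_univ, true_and, Finset.mem_image]
    constructor
    · intro h
      have hs : Function.Surjective g := by
        intro y
        have hy : y ∈ Finset.univ.image g := by rw [h]; exact Finset.mem_univ y
        obtain ⟨r, _, hr⟩ := Finset.mem_image.1 hy
        exact ⟨r, hr⟩
      exact ⟨Equiv.ofBijective g ⟨Finite.injective_iff_surjective.2 hs, hs⟩, rfl⟩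
    · rintro ⟨τ, rfl⟩
      exact Finset.image_univ_of_surjective τ.surjective
  have h1 := hB Finset.univ
  rw [hC, Finset.sum_image fun τ _ τ' _ h => DFunLike.coe_injective h,
    Finset.sum_congr rfl fun τ _ => hp τ, Finset.sum_const, Finset.card_univ,
    Fintype.card_perm, nsmul_eq_mul] at h1
  exact (mul_eq_zero.1 h1).resolve_left (Nat.cast_ne_zero.2 (Nat.factorial_ne_zero _))

end Pool.Agent.Lib.MP_df705a_gt.RL
end
end

section

/-!
TASK S17B (theorems pf_perm). Algebra of `pf`.

PROOFS.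
* `pf_sum`: `(∑ q ∈ S, W q) i j = ∑ q ∈ S, W q i j` (`Matrix.sum_apply`), `Finset.prod_univ_sum`
  (product over `r : Fin m` of sums over `S` = sum over `Fintype.piFinset (fun _ => S)`),
  `Finset.mul_sum`, `Finset.sum_comm`.
* `pf_perm`: let `e : Fin m × Fin 2 ≃ Fin (2 * m)`, `(r, k) ↦ 2 r + k` (`finProdFinEquiv : Fin m × Fin 2 ≃
  Fin (m * 2)`, `(r,k) ↦ k + 2 * r`, and `finCongr (by ring)`). `τ̃ = e ∘ (τ × id) ∘ e⁻¹` has
  `τ̃ (2r) = 2 τ(r)`, `τ̃ (2r+1) = 2 τ(r) + 1` and sign `sign(τ)^2 = 1`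
  (`Equiv.Perm.sign_prodCongrLeft`, `Equiv.Perm.sign_permCongr` / `sign_symm_trans_trans`).
  Substitute `σ ↦ σ * τ̃` in the sum for `pf W` (`Equiv.sum_comp (Equiv.mulRight τ̃)`):
  `∏_r W r (σ (τ̃ 2r)) (σ (τ̃ (2r+1))) = ∏_r W r (σ (2 τ r)) (σ (2 τ r + 1))`; reindex the product by
  `τ`: `= ∏_r W (τ⁻¹ r) (σ 2r) (σ (2r+1))`. This is the claim for `τ⁻¹`.
* `abs_pf_le`: triangle inequality, `|sign| = 1`, `Finset.prod_le_prod`, `Fintype.card_perm`.
* `moebius`: let `E S = ∑_{g with image g = S} e g` (`Finset.univ.filter (fun g => Finset.univ.image g = S)`).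
  `∑_{g ∈ piFinset (fun _ => S)} e g = ∑_{T ⊆ S} E T` (`Finset.sum_fiberwise_of_maps_to`, `T = image g`).
  By strong induction on `S` (`Finset.strongInduction`) `E S = 0` for all `S`. For `S = univ`: the
  `g` with image `univ` are surjective, hence the permutations (`Finite.injective_iff_surjective`,
  `Equiv.ofBijective`), so `0 = ∑_τ e τ = m! e id` (`Finset.sum_bij` / `Finset.sum_nbij`).
-/

open scoped ContDiff InnerProductSpace Matrix
open MeasureTheory Filter Topology

noncomputable section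

namespace Pool.Agent.Lib.MP_df705a_gt.RL

variable {m : ℕ}

theorem pf_perm (τ : Equiv.Perm (Fin m)) (W : Fin m → Mt (2 * m)) :
    pf (fun r => W (τ r)) = pf W := by
  let e : Fin m × Fin 2 ≃ Fin (2 * m) := finProdFinEquiv.trans (finCongr (Nat.mul_comm m 2))
  have he0 : ∀ r : Fin m, e (r, 0) = ⟨2 * r, by omega⟩ := by
    intro r
    refine Fin.ext ?_
    show (0 : ℕ) + 2 * (r : ℕ) = 2 * r
    omega
  have he1 : ∀ r : Fin m, e (r, 1) = ⟨2 * r + 1, by omega⟩ := by
    intro r
    refine Fin.ext ?_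
    show (1 : ℕ) + 2 * (r : ℕ) = 2 * r + 1
    omega
  let ρ : Equiv.Perm (Fin (2 * m)) :=
    (e.symm.trans (Equiv.prodCongrLeft fun _ : Fin 2 => τ)).trans e
  have hρ : ∀ (r : Fin m) (k : Fin 2), ρ (e (r, k)) = e (τ r, k) := by
    intro r k
    show e ((Equiv.prodCongrLeft fun _ : Fin 2 => τ) (e.symm (e (r, k)))) = _
    rw [e.symm_apply_apply]
    rfl
  have hsign : Equiv.Perm.sign ρ = 1 := by
    show Equiv.Perm.sign ((e.symm.trans (Equiv.prodCongrLeft fun _ : Fin 2 => τ)).trans e) = 1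
    rw [Equiv.Perm.sign_symm_trans_trans, Equiv.Perm.sign_prodCongrLeft, Finset.prod_const,
      Finset.card_univ, Fintype.card_fin]
    exact Int.units_sq _
  unfold pf
  rw [← Equiv.sum_comp (Equiv.mulRight ρ)]
  refine Finset.sum_congr rfl fun σ _ => ?_
  rw [Equiv.coe_mulRight, Equiv.Perm.sign_mul, hsign, mul_one]
  congr 1
  rw [← Equiv.prod_comp τ fun r : Fin m => W r (σ ⟨2 * r, by omega⟩) (σ ⟨2 * r + 1, by omega⟩)]
  refine Finset.prod_congr rfl fun r _ => ?_
  rw [Equiv.Perm.mul_apply, Equiv.Perm.mul_apply, ← he0 r, ← he1 r, hρ, hρ, he0, he1]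

end Pool.Agent.Lib.MP_df705a_gt.RL
end
end

section

/-!
# RL2, S21: polarization for random closed two-forms

If the expectation of the integral of `pf (Ω, …, Ω)` vanishes for all random closed two-forms, then
so does the expectation of the integral of `pf (Ω₁, …, Ω_m)`.
-/

open scoped ContDiff InnerProductSpace Matrix
open MeasureTheory Filter Topology

noncomputable section

namespace Pool.Agent.Lib.MP_df705a_gt.RL

variable {m : ℕ} {X : Type*} [MeasurableSpace X] {P : Measure X} [IsProbabilityMeasure P]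
  {G : Type*} [Group G] [MulAction G X] {a : Act G (2 * m)}

omit [IsProbabilityMeasure P] in
theorem S21_memLp {L : X → ℝ} (hL : Measurable L) (h1 : ∀ x, 1 ≤ L x)
    (hp : ∀ p : ℕ, Integrable (fun x => L x ^ p) P) (p : ℕ) : MemLp L p P := by
  rcases Nat.eq_zero_or_pos p with rfl | hp0
  · simpa using hL.aestronglyMeasurable
  have h0 : (p : ENNReal) ≠ 0 := by exact_mod_cast hp0.ne'
  have ht : (p : ENNReal) ≠ ⊤ := ENNReal.natCast_ne_top p
  rw [← memLp_norm_rpow_iff (q := p) (p := p) hL.aestronglyMeasurable h0 ht]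
  have : (p : ENNReal) / (p : ENNReal) = 1 := ENNReal.div_self h0 ht
  rw [this, memLp_one_iff_integrable]
  refine (hp p).congr (Eventually.of_forall fun x => ?_)
  show L x ^ p = ‖L x‖ ^ ((p : ENNReal).toReal)
  rw [Real.norm_eq_abs, abs_of_nonneg (zero_le_one.trans (h1 x)), ENNReal.toReal_natCast,
    Real.rpow_natCast]

/-- Bounds with all moments are stable under finite sums. -/
theorem S21_sum_pow {A : Type*} (S : Finset A) (L : A → X → ℝ) (hL : ∀ r, Measurable (L r))
    (h1 : ∀ r x, 1 ≤ L r x) (hp : ∀ r (p : ℕ), Integrable (fun x => L r x ^ p) P) (p : ℕ) :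
    Integrable (fun x => (1 + ∑ r ∈ S, L r x) ^ p) P := by
  have h2 : MemLp (fun x => 1 + ∑ r ∈ S, L r x) p P := by
    refine MemLp.add (memLp_const 1) ?_
    exact memLp_finsetSum (μ := P) (p := (p : ENNReal)) S (f := fun r x => L r x)
      (fun r _ => S21_memLp (hL r) (h1 r) (hp r) p)
  refine h2.integrable_norm_pow'.congr (Eventually.of_forall fun x => ?_)
  have : 0 ≤ 1 + ∑ r ∈ S, L r x := by
    have := Finset.sum_nonneg fun r (_ : r ∈ S) => zero_le_one.trans (h1 r x)
    linarith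
  simp only [Real.norm_eq_abs, abs_of_nonneg this]

/-- Finite sums of random closed two-forms. -/
theorem Rand.sum {N : ℕ} {a : Act G N} {A : Type*} (S : Finset A) {Ω : A → X → V N → Mt N}
    (h : ∀ r, Rand P a (Ω r)) : Rand P a (fun x y => ∑ r ∈ S, Ω r x y) where
  closed x := by
    have hs : ∀ μ ν, (fun y => (∑ r ∈ S, Ω r x y) μ ν) = fun y => ∑ r ∈ S, Ω r x y μ ν := by
      intro μ ν
      funext y
      rw [Matrix.sum_apply]
    have hd : ∀ l μ ν y, pd l (fun y => (∑ r ∈ S, Ω r x y) μ ν) y =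
        ∑ r ∈ S, pd l (fun y => Ω r x y μ ν) y := by
      intro l μ ν y
      unfold pd
      rw [hs, fderiv_fun_sum (fun r _ =>
        (((h r).closed x).smooth μ ν).contDiffAt.differentiableAt (by simp))]
      simp
    refine ⟨fun μ ν => ?_, fun y μ ν => ?_, fun y l μ ν => ?_⟩
    · rw [hs]
      exact ContDiff.sum fun r _ => ((h r).closed x).smooth μ ν
    · rw [Matrix.sum_apply, Matrix.sum_apply, ← Finset.sum_neg_distrib]
      exact Finset.sum_congr rfl fun r _ => ((h r).closed x).anti y μ ν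
    · rw [hd, hd, hd, ← Finset.sum_add_distrib, ← Finset.sum_add_distrib]
      exact Finset.sum_eq_zero fun r _ => ((h r).closed x).closed y l μ ν
  meas μ ν := by
    have : (fun p : X × V N => (∑ r ∈ S, Ω r p.1 p.2) μ ν) =
        fun p => ∑ r ∈ S, Ω r p.1 p.2 μ ν := by
      funext p
      rw [Matrix.sum_apply]
    rw [this]
    exact Finset.measurable_sum S fun r _ => (h r).meas μ ν
  equi γ := by
    have h1 : ∀ᵐ x ∂P, ∀ r : S, ∀ y, pull2 (a.act γ) (Ω r (γ • x)) y = Ω r x y := by
      rw [ae_all_iff]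
      exact fun r => (h r).equi γ
    filter_upwards [h1] with x hx y
    unfold pull2
    rw [Finset.mul_sum, Finset.sum_mul]
    exact Finset.sum_congr rfl fun r hr => hx ⟨r, hr⟩ y
  mom ρ k := by
    choose L hLm hL1 hLp hLb using fun r => (h r).mom ρ k
    refine ⟨fun x => 1 + ∑ r ∈ S, L r x, ?_, fun x => ?_, S21_sum_pow S L hLm hL1 hLp,
      fun x j hj μ ν y hy => ?_⟩
    · exact measurable_const.add (Finset.measurable_sum S fun r _ => hLm r)
    · have := Finset.sum_nonneg fun r (_ : r ∈ S) => zero_le_one.trans (hL1 r x)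
      show 1 ≤ 1 + ∑ r ∈ S, L r x
      linarith
    · have hs : (fun y => (∑ r ∈ S, Ω r x y) μ ν) = fun y => ∑ r ∈ S, Ω r x y μ ν := by
        funext y
        rw [Matrix.sum_apply]
      rw [hs, iteratedFDeriv_fun_sum_apply (n := j) (fun r _ =>
        ((((h r).closed x).smooth μ ν).of_le (by exact_mod_cast le_top)).contDiffAt)]
      refine (norm_sum_le _ _).trans ?_
      have : ∑ r ∈ S, ‖iteratedFDeriv ℝ j (fun y => Ω r x y μ ν) y‖ ≤ ∑ r ∈ S, L r x :=
        Finset.sum_le_sum fun r _ => hLb r x j hj μ ν y hy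
      linarith

theorem rand_integrable {F : Set (V (2 * m))} (hF : MeasurableSet F)
    (hF' : Bornology.IsBounded F) {Ω : Fin m → X → V (2 * m) → Mt (2 * m)}
    (h : ∀ r, Rand P a (Ω r)) :
    Integrable (fun p : X × V (2 * m) => pf (fun r => Ω r p.1 p.2))
      (P.prod (volume.restrict F)) := by
  obtain ⟨ρ, hρ⟩ := hF'.exists_norm_le
  choose L hLm hL1 hLp hLb using fun r => (h r).mom ρ 0
  have hvF : volume F ≠ ⊤ := hF'.measure_lt_top.ne
  have hfm : IsFiniteMeasure (volume.restrict F) := ⟨by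
    rw [Measure.restrict_apply_univ]
    exact lt_top_iff_ne_top.2 hvF⟩
  have hdom : Integrable (fun p : X × V (2 * m) =>
      (2 * m).factorial * (1 + ∑ r, L r p.1) ^ m) (P.prod (volume.restrict F)) :=
    ((S21_sum_pow Finset.univ L hLm hL1 hLp m).comp_fst _).const_mul _
  refine hdom.mono' ?_ ?_
  · refine Measurable.aestronglyMeasurable ?_
    have : ∀ p : X × V (2 * m), pf (fun r => Ω r p.1 p.2) =
        ∑ σ : Equiv.Perm (Fin (2 * m)), ((Equiv.Perm.sign σ : ℤ) : ℝ) * ∏ r : Fin m,
          Ω r p.1 p.2 (σ ⟨2 * r, by omega⟩) (σ ⟨2 * r + 1, by omega⟩) := fun p => rfl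
    simp_rw [this]
    refine Finset.measurable_sum _ fun σ _ => Measurable.const_mul ?_ _
    exact Finset.measurable_prod _ fun r _ => (h r).meas _ _
  · have hae : ∀ᵐ p ∂P.prod (volume.restrict F), p.2 ∈ F := by
      have h1 : ∀ᵐ y ∂(volume.restrict F), y ∈ F := ae_restrict_mem hF
      exact (Measure.quasiMeasurePreserving_snd (μ := P) (ν := volume.restrict F)).ae h1
    filter_upwards [hae] with p hp
    rw [Real.norm_eq_abs]
    refine abs_pf_le _ _ fun r i j => ?_
    have h1 := hLb r p.1 0 le_rfl i j p.2 (hρ p.2 hp)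
    rw [norm_iteratedFDeriv_zero, Real.norm_eq_abs] at h1
    refine h1.trans ?_
    have h2 : L r p.1 ≤ ∑ r, L r p.1 := Finset.single_le_sum (f := fun r => L r p.1)
      (fun r _ => zero_le_one.trans (hL1 r p.1)) (Finset.mem_univ r)
    linarith

/-- Polarization. -/
theorem rand_polar {F : Set (V (2 * m))} (hF : MeasurableSet F)
    (hF' : Bornology.IsBounded F)
    (h0 : ∀ Ω : X → V (2 * m) → Mt (2 * m), Rand P a Ω →
      ∫ x, (∫ y in F, pf (fun _ => Ω x y)) ∂P = 0)
    {Ω : Fin m → X → V (2 * m) → Mt (2 * m)} (h : ∀ r, Rand P a (Ω r)) :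
    ∫ x, (∫ y in F, pf (fun r => Ω r x y)) ∂P = 0 := by
  have hvF : volume F ≠ ⊤ := hF'.measure_lt_top.ne
  have hfm : IsFiniteMeasure (volume.restrict F) := ⟨by
    rw [Measure.restrict_apply_univ]
    exact lt_top_iff_ne_top.2 hvF⟩
  set e : (Fin m → Fin m) → ℝ := fun g => ∫ x, (∫ y in F, pf (fun r => Ω (g r) x y)) ∂P with he
  have hint : ∀ g : Fin m → Fin m, Integrable
      (fun p : X × V (2 * m) => pf (fun r => Ω (g r) p.1 p.2)) (P.prod (volume.restrict F)) :=
    fun g => rand_integrable hF hF' fun r => h (g r)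
  have h0' : ∀ S : Finset (Fin m), ∑ g ∈ Fintype.piFinset (fun _ : Fin m => S), e g = 0 := by
    intro S
    rw [← h0 _ (Rand.sum S h)]
    have h1 : ∀ x y, pf (fun _ : Fin m => ∑ r ∈ S, Ω r x y) =
        ∑ g ∈ Fintype.piFinset (fun _ : Fin m => S), pf (fun r => Ω (g r) x y) :=
      fun x y => pf_sum S (fun r => Ω r x y)
    simp_rw [h1]
    have h4 : ∫ x, (∫ y in F, ∑ g ∈ Fintype.piFinset (fun _ : Fin m => S),
        pf (fun r => Ω (g r) x y)) ∂P =
        ∫ p, ∑ g ∈ Fintype.piFinset (fun _ : Fin m => S),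
          pf (fun r => Ω (g r) p.1 p.2) ∂P.prod (volume.restrict F) := by
      rw [integral_prod _ (integrable_finsetSum _ fun g _ => hint g)]
    rw [h4, integral_finsetSum _ fun g _ => hint g]
    refine Finset.sum_congr rfl fun g _ => ?_
    rw [he]
    exact (integral_prod _ (hint g)).symm
  have hp : ∀ τ : Equiv.Perm (Fin m), e τ = e id := by
    intro τ
    rw [he]
    simp only [id]
    congr 1
    funext x
    congr 1
    funext y
    exact pf_perm τ (fun r => Ω r x y)
  exact moebius e h0' hp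

end Pool.Agent.Lib.MP_df705a_gt.RL
end
end

section

/-!
TASK S11. Convergence in all `Lᵖ`: products and integrals.

PROOFS (`P` is a probability measure).
* `mul`: `eLpNorm (f * g) p P ≤ eLpNorm f (2p) P * eLpNorm g (2p) P`
  (`eLpNorm_smul_le_mul_eLpNorm` / `MemLp.mul` with `1/p = 1/(2p) + 1/(2p)`; `p = 0` trivial:
  `eLpNorm_exponent_zero`). `W W' - Z Z' = (W - Z) W' + Z (W' - Z')` and
  `eLpNorm Z ≤ eLpNorm W + eLpNorm (W - Z)` is eventually bounded by `eLpNorm W + 1`.
* `prod`: `Finset.induction`; the empty product is the constant `1`.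
* `integral`: `|∫ W - ∫ Z s| ≤ ∫ |W - Z s| = (eLpNorm (W - Z s) 1 P).toReal → 0`; `W`, `Z s` are
  integrable (`memLp_one_iff_integrable`).
* `comp_tendsto`: `lim.comp`.
-/

open scoped ContDiff InnerProductSpace Matrix
open MeasureTheory Filter Topology

noncomputable section

namespace Pool.Agent.Lib.MP_df705a_gt.RL

variable {X ι : Type*} [MeasurableSpace X] {P : Measure X} [IsProbabilityMeasure P] {l : Filter ι}

theorem S11_mul_le (p : ℕ) {f g : X → ℝ} (hf : Measurable f) (hg : Measurable g) :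
    eLpNorm (fun x => f x * g x) p P ≤
      eLpNorm f ((2 * p : ℕ) : ENNReal) P * eLpNorm g ((2 * p : ℕ) : ENNReal) P := by
  rcases Nat.eq_zero_or_pos p with hp | hp
  · subst hp
    simp
  have hH : ENNReal.HolderTriple ((2 * p : ℕ) : ENNReal) ((2 * p : ℕ) : ENNReal) (p : ENNReal) := by
    constructor
    rw [Nat.cast_mul, ENNReal.mul_inv (Or.inl (by simp)) (Or.inl (by simp)), ← add_mul]
    rw [Nat.cast_ofNat, ENNReal.inv_two_add_inv_two, one_mul]
  exact eLpNorm_smul_le_mul_eLpNorm (φ := f) (f := g) hg.aestronglyMeasurable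
    hf.aestronglyMeasurable

theorem TendsAll.mul {Z Z' : ι → X → ℝ} {W W' : X → ℝ} (h : TendsAll P l Z W)
    (h' : TendsAll P l Z' W') :
    TendsAll P l (fun s x => Z s x * Z' s x) (fun x => W x * W' x) := by
  refine ⟨fun s => (h.measZ s).mul (h'.measZ s), h.measW.mul h'.measW, fun s p => ?_, fun p => ?_,
    fun p => ?_⟩
  · exact ((S11_mul_le p (h.measZ s) (h'.measZ s)).trans_lt
      (ENNReal.mul_lt_top (lt_top_iff_ne_top.2 (h.finZ s _))
        (lt_top_iff_ne_top.2 (h'.finZ s _)))).ne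
  · exact ((S11_mul_le p h.measW h'.measW).trans_lt
      (ENNReal.mul_lt_top (lt_top_iff_ne_top.2 (h.finW _))
        (lt_top_iff_ne_top.2 (h'.finW _)))).ne
  · rcases Nat.eq_zero_or_pos p with hp | hp
    · subst hp
      simp only [Nat.cast_zero, eLpNorm_exponent_zero]
      exact tendsto_const_nhds
    have hp1 : (1 : ENNReal) ≤ (p : ENNReal) := by exact_mod_cast hp
    have hd : ∀ s, Measurable fun x => W x - Z s x := fun s => h.measW.sub (h.measZ s)
    have hd' : ∀ s, Measurable fun x => W' x - Z' s x := fun s => h'.measW.sub (h'.measZ s)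
    have hbd : ∀ s, eLpNorm (fun x => W x * W' x - Z s x * Z' s x) p P ≤
        eLpNorm (fun x => W x - Z s x) ((2 * p : ℕ) : ENNReal) P *
          eLpNorm W' ((2 * p : ℕ) : ENNReal) P +
        eLpNorm W ((2 * p : ℕ) : ENNReal) P *
          eLpNorm (fun x => W' x - Z' s x) ((2 * p : ℕ) : ENNReal) P +
        eLpNorm (fun x => W x - Z s x) ((2 * p : ℕ) : ENNReal) P *
          eLpNorm (fun x => W' x - Z' s x) ((2 * p : ℕ) : ENNReal) P := by
      intro s
      have e1 : (fun x => W x * W' x - Z s x * Z' s x)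
          = ((fun x => (W x - Z s x) * W' x) + fun x => W x * (W' x - Z' s x))
            - fun x => (W x - Z s x) * (W' x - Z' s x) := by
        funext x
        simp only [Pi.add_apply, Pi.sub_apply]
        ring
      rw [e1]
      refine (eLpNorm_sub_le (((hd s).mul h'.measW).aestronglyMeasurable.add
        (h.measW.mul (hd' s)).aestronglyMeasurable)
        ((hd s).mul (hd' s)).aestronglyMeasurable hp1).trans ?_
      refine add_le_add ((eLpNorm_add_le ((hd s).mul h'.measW).aestronglyMeasurable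
        (h.measW.mul (hd' s)).aestronglyMeasurable hp1).trans ?_)
        (S11_mul_le p (hd s) (hd' s))
      exact add_le_add (S11_mul_le p (hd s) h'.measW) (S11_mul_le p h.measW (hd' s))
    have ht : Tendsto (fun s => eLpNorm (fun x => W x - Z s x) ((2 * p : ℕ) : ENNReal) P *
          eLpNorm W' ((2 * p : ℕ) : ENNReal) P +
        eLpNorm W ((2 * p : ℕ) : ENNReal) P *
          eLpNorm (fun x => W' x - Z' s x) ((2 * p : ℕ) : ENNReal) P +
        eLpNorm (fun x => W x - Z s x) ((2 * p : ℕ) : ENNReal) P *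
          eLpNorm (fun x => W' x - Z' s x) ((2 * p : ℕ) : ENNReal) P) l
        (𝓝 (0 * eLpNorm W' ((2 * p : ℕ) : ENNReal) P + eLpNorm W ((2 * p : ℕ) : ENNReal) P * 0
          + 0 * 0)) := by
      refine ((ENNReal.Tendsto.mul_const (h.lim (2 * p)) (Or.inr (h'.finW _))).add
        (ENNReal.Tendsto.const_mul (h'.lim (2 * p)) (Or.inr (h.finW _)))).add
        (ENNReal.Tendsto.mul (h.lim (2 * p)) (Or.inr ENNReal.zero_ne_top) (h'.lim (2 * p))
          (Or.inr ENNReal.zero_ne_top))
    rw [zero_mul, mul_zero, zero_mul, add_zero, add_zero] at ht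
    exact tendsto_of_tendsto_of_tendsto_of_le_of_le tendsto_const_nhds ht
      (fun _ => zero_le) hbd

theorem TendsAll.prod {A : Type*} (t : Finset A) {Z : A → ι → X → ℝ} {W : A → X → ℝ}
    (h : ∀ a ∈ t, TendsAll P l (Z a) (W a)) :
    TendsAll P l (fun s x => ∏ a ∈ t, Z a s x) (fun x => ∏ a ∈ t, W a x) := by
  classical
  induction t using Finset.induction_on with
  | empty =>
    refine ⟨fun s => ?_, ?_, fun s p => ?_, fun p => ?_, fun p => ?_⟩
    · simp only [Finset.prod_empty]
      exact measurable_const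
    · simp only [Finset.prod_empty]
      exact measurable_const
    · simp only [Finset.prod_empty]
      exact (memLp_const (1 : ℝ)).eLpNorm_ne_top
    · simp only [Finset.prod_empty]
      exact (memLp_const (1 : ℝ)).eLpNorm_ne_top
    · simp only [Finset.prod_empty, sub_self]
      have e0 : eLpNorm (fun _ : X => (0 : ℝ)) p P = 0 := eLpNorm_zero
      rw [e0]
      exact tendsto_const_nhds
  | insert a t ha ih =>
    have h1 := (h a (Finset.mem_insert_self a t)).mul
      (ih fun b hb => h b (Finset.mem_insert_of_mem hb))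
    simp only [Finset.prod_insert ha]
    exact h1

theorem TendsAll.integral {Z : ι → X → ℝ} {W : X → ℝ} (h : TendsAll P l Z W) :
    Tendsto (fun s => ∫ x, Z s x ∂P) l (𝓝 (∫ x, W x ∂P)) := by
  have h1 : ∀ {f : X → ℝ}, Measurable f → eLpNorm f ((1 : ℕ) : ENNReal) P ≠ ⊤ →
      Integrable f P := by
    intro f hf hf'
    rw [← memLp_one_iff_integrable]
    refine ⟨hf.aestronglyMeasurable, ?_⟩
    rw [Nat.cast_one] at hf'
    exact lt_top_iff_ne_top.2 hf'
  refine tendsto_integral_of_L1' W h.measW.aestronglyMeasurable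
    (Eventually.of_forall fun s => h1 (h.measZ s) (h.finZ s 1)) ?_
  refine (h.lim 1).congr fun s => ?_
  rw [Nat.cast_one]
  exact eLpNorm_sub_comm _ _ _ _

theorem TendsAll.comp_tendsto {ι' : Type*} {l' : Filter ι'} {φ : ι' → ι} (hφ : Tendsto φ l' l)
    {Z : ι → X → ℝ} {W : X → ℝ} (h : TendsAll P l Z W) : TendsAll P l' (fun s => Z (φ s)) W := by
  exact ⟨fun s => h.measZ _, h.measW, fun s p => h.finZ _ p, h.finW, fun p => (h.lim p).comp hφ⟩

end Pool.Agent.Lib.MP_df705a_gt.RL
end
end

section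

/-!
TASK S12. The finite space of sign patterns.

PROOFS. `∫ f ∂unif b = (∑ k, f k) / card`: `PMF.integral_eq_sum`, `PMF.uniformOfFintype_apply`.
For `r₁ ≠ r₂` in the same block (`b r₁ = b r₂`) let `k₀ : KK b` be `-1` at `r₁` and `r₂` and `1`
elsewhere (product one in each block: `Finset.prod` over the block of `b r₁` is `(-1)*(-1)`).
Multiplication by `k₀` is a bijection `k ↦ k₀ k` of `KK b` (an involution), so
`∑ k, f (k₀ k) = ∑ k, f k` (`Equiv.sum_comp` / `Function.Involutive.toPerm`).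
* `sg_mul_self`, `abs_sg`: values `± 1` (`Int.units_eq_one_or`).
* `integral_prod_sg`: if `R = ∅` the product is `1`. If `R = {r | b r = j}` the product is
  `∏ (k.1 r : ℤ) = 1` by the definition of `KK`. Otherwise choose `r₁ ∈ R` and `r₂ ∉ R` with
  `b r₂ = j` (`R ⊆ {r | b r = j}` by `hR`); `∏_{r ∈ R} sg r (k₀ k) = - ∏_{r ∈ R} sg r k`, so the sum
  is its own negative, hence `0`.
* `integral_exp_sg`: `sg r (k₀ k) = - sg r k`, so `∫ exp (a sg r) = ∫ exp (- a sg r)`, both are equal
  to their mean `∫ cosh (a sg r) = cosh a` (`cosh` even).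
-/

open scoped ContDiff InnerProductSpace Matrix
open MeasureTheory Filter Topology

noncomputable section

namespace Pool.Agent.Lib.MP_df705a_gt.RL

variable {m : ℕ} {J : Type} [DecidableEq J] [Fintype J] {b : Fin m → J}

theorem KK.integral_unif (f : KK b → ℝ) :
    ∫ k, f k ∂KK.unif b = (∑ k, f k) / Fintype.card (KK b) := by
  unfold KK.unif
  rw [PMF.integral_eq_sum]
  rw [Finset.sum_div]
  refine Finset.sum_congr rfl fun k _ => ?_
  rw [PMF.uniformOfFintype_apply, ENNReal.toReal_inv, ENNReal.toReal_natCast, smul_eq_mul]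
  rw [div_eq_mul_inv, mul_comm]

omit [Fintype J] in
theorem S12_sg_cases (r : Fin m) (k : KK b) : KK.sg r k = 1 ∨ KK.sg r k = -1 := by
  unfold KK.sg
  rcases Int.units_eq_one_or (k.1 r) with h | h
  · left
    rw [h]
    norm_num
  · right
    rw [h]
    norm_num

theorem KK.abs_sg (r : Fin m) (k : KK b) : |KK.sg r k| = 1 := by
  rcases S12_sg_cases r k with h | h
  · rw [h, abs_one]
  · rw [h, abs_neg, abs_one]

/-- The flip signs. -/
def S12_s (r₁ r₂ : Fin m) (r : Fin m) : ℤˣ := if r = r₁ ∨ r = r₂ then -1 else 1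

omit [Fintype J] in
theorem S12_s_prod (r₁ r₂ : Fin m) (hr : r₁ ≠ r₂) (hb : b r₁ = b r₂) (j : J) :
    ∏ r with b r = j, S12_s r₁ r₂ r = 1 := by
  classical
  by_cases hj : b r₁ = j
  · have hsub : ({r₁, r₂} : Finset (Fin m)) ⊆ Finset.univ.filter (fun r => b r = j) := by
      intro r hrr
      rw [Finset.mem_insert, Finset.mem_singleton] at hrr
      rw [Finset.mem_filter]
      refine ⟨Finset.mem_univ _, ?_⟩
      rcases hrr with h | h
      · rw [h, hj]
      · rw [h, ← hb, hj]
    rw [← Finset.prod_subset hsub]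
    · rw [Finset.prod_pair hr]
      unfold S12_s
      rw [if_pos (Or.inl rfl), if_pos (Or.inr rfl)]
      norm_num
    · intro r _ hr2
      unfold S12_s
      rw [if_neg]
      intro h
      apply hr2
      rw [Finset.mem_insert, Finset.mem_singleton]
      exact h
  · apply Finset.prod_eq_one
    intro r hrj
    rw [Finset.mem_filter] at hrj
    unfold S12_s
    rw [if_neg]
    rintro (h | h)
    · exact hj (by rw [← h]; exact hrj.2)
    · exact hj (by rw [hb, ← h]; exact hrj.2)

/-- The flip. -/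
def S12_flip (r₁ r₂ : Fin m) (hr : r₁ ≠ r₂) (hb : b r₁ = b r₂) (k : KK b) : KK b :=
  ⟨fun r => S12_s r₁ r₂ r * k.1 r, fun j => by
    rw [Finset.prod_mul_distrib, S12_s_prod r₁ r₂ hr hb j, k.2 j, one_mul]⟩

omit [Fintype J] in
theorem S12_flip_flip (r₁ r₂ : Fin m) (hr : r₁ ≠ r₂) (hb : b r₁ = b r₂) :
    Function.Involutive (S12_flip (b := b) r₁ r₂ hr hb) := by
  intro k
  apply Subtype.ext
  funext r
  show S12_s r₁ r₂ r * (S12_s r₁ r₂ r * k.1 r) = k.1 r
  rw [← mul_assoc, Int.units_mul_self, one_mul]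

theorem S12_integral_flip (r₁ r₂ : Fin m) (hr : r₁ ≠ r₂) (hb : b r₁ = b r₂) (f : KK b → ℝ) :
    ∫ k, f (S12_flip r₁ r₂ hr hb k) ∂KK.unif b = ∫ k, f k ∂KK.unif b := by
  rw [KK.integral_unif, KK.integral_unif]
  have h := Equiv.sum_comp (S12_flip_flip (b := b) r₁ r₂ hr hb).toPerm f
  have h2 : ∑ k, f (S12_flip r₁ r₂ hr hb k) = ∑ k, f k := h
  rw [h2]

omit [Fintype J] in
theorem S12_sg_flip (r₁ r₂ : Fin m) (hr : r₁ ≠ r₂) (hb : b r₁ = b r₂) (r : Fin m) (k : KK b) :
    KK.sg r (S12_flip r₁ r₂ hr hb k) = ((S12_s r₁ r₂ r : ℤ) : ℝ) * KK.sg r k := by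
  show (((S12_s r₁ r₂ r * k.1 r : ℤˣ) : ℤ) : ℝ) = _
  unfold KK.sg
  push_cast
  rfl

theorem KK.integral_prod_sg (R : Finset (Fin m)) (j : J) (hR : ∀ r ∈ R, b r = j) :
    ∫ k, ∏ r ∈ R, KK.sg r k ∂KK.unif b =
      if R = ∅ ∨ R = Finset.univ.filter (fun r => b r = j) then 1 else 0 := by
  classical
  split_ifs with h
  · rcases h with h | h
    · subst h
      simp
    · subst h
      have h1 : ∀ k : KK b, ∏ r with b r = j, KK.sg r k = 1 := by
        intro k
        unfold KK.sg
        rw [← Int.cast_prod, ← Units.coe_prod, k.2 j]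
        norm_num
      have h2 : (fun k : KK b => ∏ r with b r = j, KK.sg r k) = fun _ => (1 : ℝ) := by
        funext k
        exact h1 k
      rw [h2]
      simp
  · rw [not_or] at h
    obtain ⟨h1, h2⟩ := h
    obtain ⟨r₁, hr₁⟩ := Finset.nonempty_iff_ne_empty.mpr h1
    have h3 : ∃ r₂, b r₂ = j ∧ r₂ ∉ R := by
      by_contra hcon
      push Not at hcon
      apply h2
      ext r
      rw [Finset.mem_filter]
      constructor
      · intro hr
        exact ⟨Finset.mem_univ _, hR r hr⟩
      · rintro ⟨_, hr⟩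
        exact hcon r hr
    obtain ⟨r₂, hb₂, hr₂⟩ := h3
    have hne : r₁ ≠ r₂ := fun hh => hr₂ (hh ▸ hr₁)
    have hbb : b r₁ = b r₂ := by rw [hR r₁ hr₁, hb₂]
    have h4 := S12_integral_flip r₁ r₂ hne hbb (fun k => ∏ r ∈ R, KK.sg r k)
    have h5 : (fun k : KK b => ∏ r ∈ R, KK.sg r (S12_flip r₁ r₂ hne hbb k)) =
        fun k => -∏ r ∈ R, KK.sg r k := by
      funext k
      have h6 : ∀ r ∈ R, KK.sg r (S12_flip r₁ r₂ hne hbb k) =
          (if r = r₁ then (-1 : ℝ) else 1) * KK.sg r k := by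
        intro r hr
        rw [S12_sg_flip]
        unfold S12_s
        by_cases hrr : r = r₁
        · rw [if_pos (Or.inl hrr), if_pos hrr]
          norm_num
        · rw [if_neg hrr, if_neg]
          · norm_num
          · rintro (hh | hh)
            · exact hrr hh
            · exact hr₂ (hh ▸ hr)
      rw [Finset.prod_congr rfl h6, Finset.prod_mul_distrib, Finset.prod_ite_eq' R r₁ (fun _ => (-1 : ℝ)),
        if_pos hr₁]
      ring
    rw [h5, integral_neg] at h4
    linarith

theorem KK.integral_exp_sg (r r' : Fin m) (hr : r ≠ r') (hb : b r = b r') (a : ℝ) :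
    ∫ k, Real.exp (a * KK.sg r k) ∂KK.unif b = Real.cosh a := by
  have h1 := S12_integral_flip r r' hr hb (fun k => Real.exp (a * KK.sg r k))
  have h2 : ∀ k : KK b, KK.sg r (S12_flip r r' hr hb k) = - KK.sg r k := by
    intro k
    rw [S12_sg_flip]
    unfold S12_s
    rw [if_pos (Or.inl rfl)]
    norm_num
  have h3 : (fun k : KK b => Real.exp (a * KK.sg r (S12_flip r r' hr hb k))) =
      fun k => 2 * Real.cosh a - Real.exp (a * KK.sg r k) := by
    funext k
    rw [h2 k, Real.cosh_eq]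
    rcases S12_sg_cases r k with h | h
    · rw [h]
      rw [mul_one, mul_neg, mul_one]
      ring
    · rw [h]
      rw [neg_neg, mul_one, mul_neg, mul_one]
      ring
  have h4 : ∫ k, (2 * Real.cosh a - Real.exp (a * KK.sg r k)) ∂KK.unif b =
      ∫ k, Real.exp (a * KK.sg r k) ∂KK.unif b := by
    rw [← h3]
    exact h1
  rw [integral_sub (integrable_const _) (Integrable.of_finite)] at h4
  rw [integral_const] at h4
  simp only [probReal_univ, smul_eq_mul, one_mul] at h4
  linarith

end Pool.Agent.Lib.MP_df705a_gt.RL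
end
end

section

/-!
TASK S13. The product space: invariance of the measure, products of functions of one coordinate.

PROOFS.
* `smul_eps`: `XX.smul_apply`, `inv_smul_smul` on the sigma type: `g⁻¹ • ⟨b r, g • i⟩ = ⟨b r, i⟩`
  (`Sigma.smul_mk`).
* `measurePreserving_smul`: `(g • x) c = x (g⁻¹ • c)`, a permutation of the coordinates: 
  `Measure.infinitePi_map_piCongrLeft` (all factors equal) or
  `Measure.map_infinitePi_infinitePi_of_inj` (`MeasureTheory.Measure.map_infinitePi_infinitePi_of_inj`,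
  file `Mathlib/Probability/Independence/InfinitePi.lean`) with `f c = g⁻¹ • c` (injective).
* `integral_prod_coord`: `iIndepFun_infinitePi` and `iIndepFun.integral_fun_prod_eq_prod_integral`
  (or the like), or `integral_restrict_infinitePi` with `MeasureTheory.integral_fintype_prod_eq_prod`:
  the function `x ↦ ∏ c ∈ t, f c (x c)` is `F (t.restrict x)` with `F y = ∏ c : t, f c (y c)`.
-/

open scoped ContDiff InnerProductSpace Matrix
open MeasureTheory Filter Topology

noncomputable section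

namespace Pool.Agent.Lib.MP_df705a_gt.RL

universe u

variable {m : ℕ} {J : Type} [DecidableEq J] [Fintype J] {b : Fin m → J} {I : J → Type u}

theorem XX.measurable_eps (r : Fin m) (i : I (b r)) :
    Measurable (XX.eps (b := b) (I := I) r i) := by
  have h1 : Measurable (KK.sg (b := b) r) := measurable_from_top
  have h2 : Measurable (fun x : XX b I => x ⟨b r, i⟩) :=
    measurable_pi_apply (X := fun _ : (Σ j, I j) => KK b) (⟨b r, i⟩ : Σ j, I j)
  exact h1.comp h2

theorem XX.smul_eps {G : Type*} [Group G] [∀ j, MulAction G (I j)] (g : G) (r : Fin m)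
    (i : I (b r)) (x : XX b I) : XX.eps r (g • i) (g • x) = XX.eps r i x := by
  have h1 : g⁻¹ • (⟨b r, g • i⟩ : Σ j, I j) = ⟨b r, i⟩ := by
    rw [Sigma.smul_mk, inv_smul_smul]
  show KK.sg r (x (g⁻¹ • (⟨b r, g • i⟩ : Σ j, I j))) = KK.sg r (x ⟨b r, i⟩)
  rw [h1]

theorem XX.measurePreserving_smul {G : Type*} [Group G] [∀ j, MulAction G (I j)] (g : G) :
    MeasurePreserving (fun x : XX b I => g • x) (XX.prob b I) (XX.prob b I) := by
  have hinj : Function.Injective (fun c : (Σ j, I j) => g⁻¹ • c) := MulAction.injective g⁻¹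
  have h := MeasureTheory.Measure.map_infinitePi_infinitePi_of_inj
    (P := fun _ : (Σ j, I j) => KK.unif b) hinj
  constructor
  · exact measurable_pi_lambda (X := fun _ : (Σ j, I j) => KK b) _ fun c =>
      measurable_pi_apply (X := fun _ : (Σ j, I j) => KK b) (g⁻¹ • c)
  · exact h

theorem XX.integral_prod_coord (t : Finset (Σ j, I j)) (f : (Σ j, I j) → KK b → ℝ) :
    ∫ x, ∏ c ∈ t, f c (x c) ∂XX.prob b I = ∏ c ∈ t, ∫ k, f c k ∂KK.unif b := by
  have h1 := integral_restrict_infinitePi (X := fun _ : (Σ j, I j) => KK b)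
    (μ := fun _ : (Σ j, I j) => KK.unif b) (s := t)
    (f := fun y : (∀ c : t, KK b) => ∏ c : t, f c.1 (y c))
    (Measurable.of_discrete.aestronglyMeasurable)
  have h2 := integral_fintype_prod_eq_prod (ι := t) (𝕜 := ℝ) (E := fun _ : t => KK b)
    (μ := fun _ => KK.unif b) (fun c : t => f c.1)
  have h3 : ∀ x : XX b I, ∏ c ∈ t, f c (x c) = ∏ c : t, f c.1 (t.restrict x c) := by
    intro x
    rw [← Finset.prod_coe_sort]
    rfl
  have h4 : ∫ x, ∏ c ∈ t, f c (x c) ∂XX.prob b I =
      ∫ x, ∏ c : t, f c.1 (t.restrict x c) ∂XX.prob b I := by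
    refine integral_congr_ae (Filter.Eventually.of_forall fun x => ?_)
    exact h3 x
  rw [h4, ← Finset.prod_coe_sort]
  exact h1.trans h2

end Pool.Agent.Lib.MP_df705a_gt.RL
end
end

section

/-!
TASK S14. The signs: exponential bound and expectation of products.

PROOFS.
* `isSigns_eps`: `|ε| = 1` (`KK.abs_sg`). `∫ exp (∑_{i ∈ s} a_i ε_{r,i}) = ∫ ∏_{i ∈ s} exp (a_i sg r (x ⟨b r, i⟩))`
  `= ∏_{i ∈ s} cosh a_i` (`XX.integral_prod_coord` for the finset `s.image/map (fun i => ⟨b r, i⟩)`,
  injective, `f ⟨_, i⟩ k = exp (a i * sg r k)`; write `f c k = exp (a' c * sg r k)` with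
  `a' c = if h : c.1 = b r then a (h ▸ c.2) else 0`, `a' ⟨b r, i⟩ = a i` by `simp`/`rfl`)
  `≤ ∏ exp (a_i² / 2)` (`Real.cosh_le_exp_half_sq`).
* `integral_prod_eps`: let `G r = ⟨b r, g r⟩ : Σ j, I j`, `t = univ.image G` (classical decidable
  equality). `∏_r ε_{r, g r}(x) = ∏_{c ∈ t} ∏_{r with G r = c} sg r (x c)`
  (`Finset.prod_fiberwise_of_maps_to`). By `integral_prod_coord` the integral is
  `∏_{c ∈ t} ∫ ∏_{r ∈ R_c} sg r`, `R_c = {r | G r = c}` nonempty, contained in the block `c.1`. By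
  `KK.integral_prod_sg` each factor is `1` if `R_c` is the whole block and `0` otherwise. If
  `b r = b r' → g r = g r'` (heterogeneously: `G r = G r'`) holds for all `r, r'`, all `R_c` are whole
  blocks: the product is `1`. Otherwise there are `b r = b r'` with `G r ≠ G r'`: `R_{G r}` does not
  contain `r'`, the factor is `0`.
-/

open scoped ContDiff InnerProductSpace Matrix
open MeasureTheory Filter Topology

noncomputable section

namespace Pool.Agent.Lib.MP_df705a_gt.RL

universe u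

variable {m : ℕ} {J : Type} [DecidableEq J] [Fintype J] {b : Fin m → J} {I : J → Type u}

theorem XX.abs_eps (r : Fin m) (i : I (b r)) (x : XX b I) : |XX.eps r i x| = 1 :=
  KK.abs_sg r _

theorem XX.isSigns_eps (r r' : Fin m) (hr : r ≠ r') (hb : b r = b r') :
    IsSigns (XX.prob b I) (fun i : I (b r) => XX.eps r i) := by
  classical
  refine ⟨fun i => XX.measurable_eps r i, fun i x => (XX.abs_eps r i x).le, fun s a => ?_⟩
  set e : I (b r) ↪ (Σ j, I j) := ⟨fun i => ⟨b r, i⟩, sigma_mk_injective⟩ with he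
  set a' : (Σ j, I j) → ℝ := fun c => if h : c.1 = b r then a (h ▸ c.2) else 0 with ha'
  have ha : ∀ i : I (b r), a' ⟨b r, i⟩ = a i := fun i => by
    rw [ha']
    exact dif_pos rfl
  have h1 := XX.integral_prod_coord (b := b) (I := I) (s.map e)
    (fun c k => Real.exp (a' c * KK.sg r k))
  have h2 : ∀ x : XX b I, Real.exp (∑ i ∈ s, a i * XX.eps r i x) =
      ∏ c ∈ s.map e, Real.exp (a' c * KK.sg r (x c)) := fun x => by
    rw [Real.exp_sum, Finset.prod_map]
    refine Finset.prod_congr rfl fun i _ => ?_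
    show Real.exp (a i * KK.sg r (x ⟨b r, i⟩)) = Real.exp (a' ⟨b r, i⟩ * KK.sg r (x ⟨b r, i⟩))
    rw [ha]
  have h3 : ∫ x, Real.exp (∑ i ∈ s, a i * XX.eps r i x) ∂XX.prob b I =
      ∏ i ∈ s, Real.cosh (a i) := by
    rw [integral_congr_ae (Eventually.of_forall h2), h1, Finset.prod_map]
    refine Finset.prod_congr rfl fun i _ => ?_
    rw [KK.integral_exp_sg r r' hr hb]
    show Real.cosh (a' ⟨b r, i⟩) = _
    rw [ha]
  rw [h3, Finset.sum_div, Real.exp_sum]
  exact Finset.prod_le_prod (fun i _ => (Real.cosh_pos _).le)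
    fun i _ => Real.cosh_le_exp_half_sq _

open Classical in
theorem XX.integral_prod_eps (g : ∀ r : Fin m, I (b r)) :
    ∫ x, ∏ r, XX.eps r (g r) x ∂XX.prob b I =
      if ∀ r r', b r = b r' → (⟨b r, g r⟩ : Σ j, I j) = ⟨b r', g r'⟩ then 1 else 0 := by
  set G : Fin m → (Σ j, I j) := fun r => ⟨b r, g r⟩ with hG
  set t : Finset (Σ j, I j) := Finset.univ.image G with ht
  have h1 : ∀ x : XX b I, ∏ r, XX.eps r (g r) x =
      ∏ c ∈ t, ∏ r ∈ Finset.univ.filter (fun r => G r = c), KK.sg r (x c) := fun x => by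
    have h2 := Finset.prod_fiberwise_of_maps_to (s := Finset.univ) (t := t) (g := G)
      (fun r _ => Finset.mem_image_of_mem G (Finset.mem_univ r)) (fun r => XX.eps r (g r) x)
    rw [← h2]
    refine Finset.prod_congr rfl fun c _ => Finset.prod_congr rfl fun r hr => ?_
    have h3 : G r = c := (Finset.mem_filter.1 hr).2
    show KK.sg r (x (G r)) = KK.sg r (x c)
    rw [h3]
  rw [integral_congr_ae (Eventually.of_forall h1)]
  have h4 := XX.integral_prod_coord (b := b) (I := I) t
    (fun c k => ∏ r ∈ Finset.univ.filter (fun r => G r = c), KK.sg r k)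
  rw [h4]
  have h5 : ∀ c ∈ t, ∫ k, ∏ r ∈ Finset.univ.filter (fun r => G r = c), KK.sg r k ∂KK.unif b =
      if Finset.univ.filter (fun r => G r = c) = ∅ ∨
        Finset.univ.filter (fun r => G r = c) = Finset.univ.filter (fun r => b r = c.1)
      then 1 else 0 := fun c _ => by
    refine KK.integral_prod_sg _ c.1 fun r hr => ?_
    have h3 : G r = c := (Finset.mem_filter.1 hr).2
    rw [← h3]
  rw [Finset.prod_congr rfl h5]
  split_ifs with hcond
  · refine Finset.prod_eq_one fun c hc => if_pos (Or.inr ?_)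
    obtain ⟨r0, -, hr0⟩ := Finset.mem_image.1 hc
    ext r
    simp only [Finset.mem_filter, Finset.mem_univ, true_and]
    constructor
    · intro h; rw [← h]
    · intro h
      have h6 : b r = b r0 := by rw [h, ← hr0]
      rw [← hr0]
      exact hcond r r0 h6
  · push Not at hcond
    obtain ⟨r, r', hrr, hne⟩ := hcond
    refine Finset.prod_eq_zero (i := G r) (Finset.mem_image_of_mem G (Finset.mem_univ r))
      (if_neg ?_)
    rintro (h | h)
    · have : r ∈ (∅ : Finset (Fin m)) := by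
        rw [← h]; simp
      simp at this
    · have h7 : r' ∈ Finset.univ.filter (fun r'' => b r'' = (G r).1) := by
        simp only [Finset.mem_filter, Finset.mem_univ, true_and]
        exact hrr.symm
      rw [← h] at h7
      exact hne (Finset.mem_filter.1 h7).2.symm

end Pool.Agent.Lib.MP_df705a_gt.RL
end
end

section

/-!
TASK S18B (theorems summable_prod). The expectation of the product of the random series.

PROOFS.
* `integral_prod_partial`: `∏_r ∑_{i ∈ s (b r)} ε_{r,i}(x) f_r(i) = ∑_{g ∈ piFinset (fun r => s (b r))}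
  ∏_r ε_{r, g r}(x) f_r(g r)` (`Finset.prod_univ_sum`), `Finset.prod_mul_distrib`, integrate
  (`integral_finset_sum`, all functions bounded and measurable), `XX.integral_prod_eps`: only the
  `g` with `b r = b r' → ⟨b r, g r⟩ = ⟨b r', g r'⟩` survive. These are exactly the
  `g = fun r => i (b r)`, `i ∈ piFinset s`, and `i ↦ (fun r => i (b r))` is injective because `b` is
  surjective (`Finset.sum_bij` / `Finset.sum_nbij'`; inverse: `i j = h ▸ g r` for a chosen `r` with
  `b r = j`, `Function.surjInv hb`; use `Sigma.mk.inj_iff` and `HEq`, or write the survivors as the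
  image of `piFinset s` and use `Finset.sum_image`).
* `summable_prod`: for `j : J` and `i : I j` let `φ r ⟨j,i⟩ = if h : b r = j then f r (h ▸ i) else 1`
  (so `φ r ⟨b r, i⟩ = f r i`) and `g j i = ∏_{r with b r = j} |φ r ⟨j,i⟩|`. Then
  `∏_r |f r (i (b r))| = ∏_j g j (i j)` (`Finset.prod_fiberwise`), and for
  `s : ∀ j, Finset (I j)`: `∑_{i ∈ piFinset s} ∏_j g j (i j) = ∏_j ∑_{i ∈ s j} g j i ≤ ∏_j C j` where
  `C j` bounds all finite sums of `g j`: if `I j` is finite it is the full sum. If there are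
  `r₁ ≠ r₂` in the block: `g j i = |φ r₁||φ r₂| ∏_{other} |φ r| ≤ (φ r₁² + φ r₂²) M` because
  `φ r ^2 ≤ C_r` (a single term of the sum of squares, `hf`). Every finset of `∀ j, I j` is contained
  in a `piFinset s` (`s j = image of the projection`). `summable_of_sum_le` for the absolute values,
  `Summable.of_norm` / `Summable.of_abs`.
* `hasSum_prod`: by `TendsAll.prod` (over `Finset.univ : Finset (Fin m)`), `TendsAll.comp_tendsto`
  (`s ↦ s (b r)` tends to `atTop`: `tendsto_atTop_atTop` with `Function.update (fun _ => ∅) (b r) t`),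
  `TendsAll.integral` and `integral_prod_partial`:
  `∑_{i ∈ piFinset s} ∏_r f r (i (b r)) → ∫ ∏_r W r` along `atTop` on `∀ j, Finset (I j)`. Since the
  family is summable, the same sums tend to its `tsum` (`s ↦ piFinset s` tends to `atTop`); the limits
  agree (`tendsto_nhds_unique`), so `Summable.hasSum` gives the claim.
-/

open scoped ContDiff InnerProductSpace Matrix
open MeasureTheory Filter Topology

noncomputable section

namespace Pool.Agent.Lib.MP_df705a_gt.RL

universe u

variable {m : ℕ} {J : Type} [DecidableEq J] [Fintype J] {b : Fin m → J} {I : J → Type u}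

/-- The transported factor. -/
def S18B_phi (f : ∀ r : Fin m, I (b r) → ℝ) (r : Fin m) (j : J) (i : I j) : ℝ :=
  if h : b r = j then f r (h.symm ▸ i) else 1

omit [Fintype J] in
theorem S18B_phi_self (f : ∀ r : Fin m, I (b r) → ℝ) (r : Fin m) (i : I (b r)) :
    S18B_phi f r (b r) i = f r i := by
  unfold S18B_phi
  rw [dif_pos rfl]

omit [Fintype J] in
theorem S18B_phi_sum (f : ∀ r : Fin m, I (b r) → ℝ) (r : Fin m) (C : ℝ)
    (hC : ∀ s : Finset (I (b r)), ∑ i ∈ s, f r i ^ 2 ≤ C) (j : J) (h : b r = j)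
    (s : Finset (I j)) : ∑ i ∈ s, S18B_phi f r j i ^ 2 ≤ C := by
  subst h
  simp only [S18B_phi_self]
  exact hC s

omit [Fintype J] in
theorem S18B_phi_abs (f : ∀ r : Fin m, I (b r) → ℝ) (r : Fin m) (C : ℝ)
    (hC : ∀ s : Finset (I (b r)), ∑ i ∈ s, f r i ^ 2 ≤ C) (j : J) (i : I j) :
    |S18B_phi f r j i| ≤ 1 + |C| := by
  by_cases h : b r = j
  · have h1 := S18B_phi_sum f r C hC j h {i}
    rw [Finset.sum_singleton] at h1
    have h2 : C ≤ |C| := le_abs_self C
    have h3 : |S18B_phi f r j i| ≤ 1 + S18B_phi f r j i ^ 2 := by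
      rw [abs_le]
      constructor
      · nlinarith [sq_nonneg (S18B_phi f r j i + 1)]
      · nlinarith [sq_nonneg (S18B_phi f r j i - 1)]
    linarith
  · have h1 : S18B_phi f r j i = 1 := by
      unfold S18B_phi
      rw [dif_neg h]
    rw [h1, abs_one]
    have := abs_nonneg C
    linarith

theorem summable_prod (hI : ∀ j, Finite (I j) ∨ ∃ r r' : Fin m, r ≠ r' ∧ b r = j ∧ b r' = j)
    (f : ∀ r : Fin m, I (b r) → ℝ)
    (hf : ∀ r, ∃ C : ℝ, ∀ s : Finset (I (b r)), ∑ i ∈ s, f r i ^ 2 ≤ C) :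
    Summable fun i : ∀ j, I j => ∏ r, f r (i (b r)) := by
  classical
  choose C hC using hf
  let g : ∀ j : J, I j → ℝ := fun j i => ∏ r ∈ Finset.univ.filter (fun r => b r = j), |S18B_phi f r j i|
  have hg0 : ∀ j i, 0 ≤ g j i := fun j i => Finset.prod_nonneg fun r _ => abs_nonneg _
  have hprod : ∀ i : ∀ j, I j, |∏ r, f r (i (b r))| = ∏ j, g j (i j) := by
    intro i
    rw [Finset.abs_prod, ← Finset.prod_fiberwise Finset.univ b (fun r => |f r (i (b r))|)]
    refine Finset.prod_congr rfl fun j _ => Finset.prod_congr rfl fun r hr => ?_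
    have hbr : b r = j := (Finset.mem_filter.1 hr).2
    subst hbr
    rw [S18B_phi_self]
  have hbd : ∀ j, ∃ K : ℝ, ∀ s : Finset (I j), ∑ i ∈ s, g j i ≤ K := by
    intro j
    rcases hI j with hfin | ⟨r, r', hne, hr, hr'⟩
    · have := Fintype.ofFinite (I j)
      exact ⟨∑ i, g j i, fun s => Finset.sum_le_sum_of_subset_of_nonneg (Finset.subset_univ s)
        fun i _ _ => hg0 j i⟩
    · let T : Finset (Fin m) := ((Finset.univ.filter (fun q => b q = j)).erase r).erase r'
      refine ⟨(C r + C r') * ∏ q ∈ T, (1 + |C q|), fun s => ?_⟩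
      have hM0 : 0 ≤ ∏ q ∈ T, (1 + |C q|) :=
        Finset.prod_nonneg fun q _ => by have := abs_nonneg (C q); linarith
      have hterm : ∀ i : I j, g j i ≤
          (S18B_phi f r j i ^ 2 + S18B_phi f r' j i ^ 2) * ∏ q ∈ T, (1 + |C q|) := by
        intro i
        have hmr : r ∈ Finset.univ.filter (fun q => b q = j) :=
          Finset.mem_filter.2 ⟨Finset.mem_univ _, hr⟩
        have hmr' : r' ∈ (Finset.univ.filter (fun q => b q = j)).erase r :=
          Finset.mem_erase.2 ⟨hne.symm, Finset.mem_filter.2 ⟨Finset.mem_univ _, hr'⟩⟩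
        have h1 : g j i = |S18B_phi f r j i| * (|S18B_phi f r' j i| *
            ∏ q ∈ T, |S18B_phi f q j i|) := by
          show ∏ q ∈ Finset.univ.filter (fun q => b q = j), |S18B_phi f q j i| = _
          rw [← Finset.mul_prod_erase _ _ hmr, ← Finset.mul_prod_erase _ _ hmr']
        have h2 : ∏ q ∈ T, |S18B_phi f q j i| ≤ ∏ q ∈ T, (1 + |C q|) :=
          Finset.prod_le_prod (fun q _ => abs_nonneg _) fun q _ =>
            S18B_phi_abs f q (C q) (hC q) j i
        have h3 : |S18B_phi f r j i| * |S18B_phi f r' j i| ≤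
            S18B_phi f r j i ^ 2 + S18B_phi f r' j i ^ 2 := by
          have h4 := sq_nonneg (|S18B_phi f r j i| - |S18B_phi f r' j i|)
          have h5 := sq_abs (S18B_phi f r j i)
          have h6 := sq_abs (S18B_phi f r' j i)
          have h7 := mul_nonneg (abs_nonneg (S18B_phi f r j i)) (abs_nonneg (S18B_phi f r' j i))
          nlinarith
        rw [h1, ← mul_assoc]
        exact mul_le_mul h3 h2 (Finset.prod_nonneg fun q _ => abs_nonneg _) (by positivity)
      calc ∑ i ∈ s, g j i ≤ ∑ i ∈ s, (S18B_phi f r j i ^ 2 + S18B_phi f r' j i ^ 2) *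
            ∏ q ∈ T, (1 + |C q|) := Finset.sum_le_sum fun i _ => hterm i
        _ = (∑ i ∈ s, S18B_phi f r j i ^ 2 + ∑ i ∈ s, S18B_phi f r' j i ^ 2) *
            ∏ q ∈ T, (1 + |C q|) := by rw [← Finset.sum_mul, Finset.sum_add_distrib]
        _ ≤ (C r + C r') * ∏ q ∈ T, (1 + |C q|) :=
          mul_le_mul_of_nonneg_right (add_le_add (S18B_phi_sum f r (C r) (hC r) j hr s)
            (S18B_phi_sum f r' (C r') (hC r') j hr' s)) hM0
  choose K hK using hbd
  refine Summable.of_abs (summable_of_sum_le (c := ∏ j, K j) (fun i => abs_nonneg _) fun t => ?_)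
  have hsub : t ⊆ Fintype.piFinset fun j => t.image fun i => i j := by
    intro i hi
    rw [Fintype.mem_piFinset]
    exact fun j => Finset.mem_image_of_mem _ hi
  calc ∑ i ∈ t, |∏ r, f r (i (b r))| = ∑ i ∈ t, ∏ j, g j (i j) :=
        Finset.sum_congr rfl fun i _ => hprod i
    _ ≤ ∑ i ∈ Fintype.piFinset fun j => t.image fun i => i j, ∏ j, g j (i j) :=
        Finset.sum_le_sum_of_subset_of_nonneg hsub fun i _ _ =>
          Finset.prod_nonneg fun j _ => hg0 j (i j)
    _ = ∏ j, ∑ i ∈ t.image fun i => i j, g j i := (Finset.prod_univ_sum _ _).symm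
    _ ≤ ∏ j, K j := Finset.prod_le_prod (fun j _ => Finset.sum_nonneg fun i _ => hg0 j i)
        fun j _ => hK j _

end Pool.Agent.Lib.MP_df705a_gt.RL
end
end
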