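import Pool.Agent.Lib.MP_df705a_gt.Mg.G031
import Pool.Agent.Lib.MP_df705a_gt.Curv
import Pool.Agent.Lib.MP_df705a_gt.Mg.G030
import Pool.Agent.Lib.MP_df705a_gt.Mg.G038

section

/-!
# RL2, file A5: products of `m` two-forms and the Pfaffian
-/

set_option linter.unusedSectionVars false

namespace Pool.Agent.Lib.MP_df705a_gt.RL

noncomputable section

variable {N : ℕ} {A : Type*} [Ring A]

theorem ofFn_comp_swap {α : Type*} (n : ℕ) : ∀ (i : Fin (n + 1) → α) (k : Fin n),
    ∃ l₁ l₂ : List α, List.ofFn i = l₁ ++ i k.castSucc :: i k.succ :: l₂ ∧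
      List.ofFn (i ∘ Equiv.swap k.castSucc k.succ) = l₁ ++ i k.succ :: i k.castSucc :: l₂ := by
  induction n with
  | zero => intro i k; exact k.elim0
  | succ n ih =>
    intro i k
    rcases Fin.eq_zero_or_eq_succ k with rfl | ⟨k, rfl⟩
    · refine ⟨[], List.ofFn fun j : Fin n => i j.succ.succ, ?_, ?_⟩
      · rw [List.ofFn_succ, List.ofFn_succ]; rfl
      · rw [List.ofFn_succ, List.ofFn_succ]
        simp only [Function.comp_apply, Fin.castSucc_zero, Equiv.swap_apply_left, List.nil_append]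
        refine congrArg₂ _ rfl (congrArg₂ _ ?_ ?_)
        · exact congrArg i (Equiv.swap_apply_right _ _)
        · refine congrArg List.ofFn (funext fun j => congrArg i ?_)
          exact Equiv.swap_apply_of_ne_of_ne (Fin.succ_ne_zero _)
            (fun h => Fin.succ_ne_zero j (Fin.succ_injective _ h))
    · obtain ⟨l₁, l₂, h1, h2⟩ := ih (fun j => i j.succ) k
      refine ⟨i 0 :: l₁, l₂, ?_, ?_⟩
      · rw [List.ofFn_succ, h1]; rfl
      · rw [List.ofFn_succ, List.cons_append]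
        refine congrArg₂ _ ?_ ?_
        · refine congrArg i (Equiv.swap_apply_of_ne_of_ne ?_ (Fin.succ_ne_zero _).symm)
          rw [Fin.castSucc_succ]; exact (Fin.succ_ne_zero _).symm
        · have : (fun j : Fin (n + 1) => (i ∘ Equiv.swap k.succ.castSucc k.succ.succ) j.succ)
              = (fun j => i j.succ) ∘ Equiv.swap k.castSucc k.succ := by
            funext j
            simp only [Function.comp_apply]
            congr 1
            rw [Fin.castSucc_succ]
            by_cases h1 : j = k.castSucc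
            · rw [h1, Equiv.swap_apply_left, Equiv.swap_apply_left]
            · by_cases h2 : j = k.succ
              · rw [h2, Equiv.swap_apply_right, Equiv.swap_apply_right]
              · rw [Equiv.swap_apply_of_ne_of_ne h1 h2, Equiv.swap_apply_of_ne_of_ne
                  (fun h => h1 (Fin.succ_injective _ h)) (fun h => h2 (Fin.succ_injective _ h))]
          rw [this, h2]; rfl

theorem mon_ofFn_perm {c : Fin N → A} (h : IsCliff c) {n : ℕ} (i : Fin n → Fin N)
    (hi : Function.Injective i) (σ : Equiv.Perm (Fin n)) :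
    mon c (List.ofFn (i ∘ σ)) = ((Equiv.Perm.sign σ : ℤ) : A) * mon c (List.ofFn i) := by
  cases n with
  | zero =>
    have : σ = 1 := Subsingleton.elim _ _
    subst this
    simp
  | succ n =>
    have h1 : ∀ σ ∈ Submonoid.closure
        (Set.range fun k : Fin n => Equiv.swap k.castSucc k.succ), ∀ i : Fin (n + 1) → Fin N,
        Function.Injective i →
        mon c (List.ofFn (i ∘ σ)) = ((Equiv.Perm.sign σ : ℤ) : A) * mon c (List.ofFn i) := by
      intro σ hσ
      induction hσ using Submonoid.closure_induction with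
      | mem σ hσ =>
        obtain ⟨k, rfl⟩ := hσ
        intro i hi
        obtain ⟨l₁, l₂, h1, h2⟩ := ofFn_comp_swap n i k
        have hk : k.castSucc ≠ k.succ := (Fin.castSucc_lt_succ).ne
        rw [h1, h2, Equiv.Perm.sign_swap hk]
        simp only [mon_append, mon_cons]
        rw [← mul_assoc (c (i k.succ)), h.anti _ _ (fun h => hk (hi h).symm)]
        simp [mul_assoc]
      | one => intro i _; simp
      | mul σ τ _ _ h1 h2 =>
        intro i hi
        have h3 : i ∘ (σ * τ : Equiv.Perm (Fin (n + 1))) = (i ∘ σ) ∘ τ := rfl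
        rw [h3, h2 (i ∘ σ) (hi.comp σ.injective), h1 i hi, ← mul_assoc]
        congr 1
        rw [map_mul]; push_cast
        exact Int.cast_comm _ _
    refine h1 σ ?_ i hi
    rw [Equiv.Perm.mclosure_swap_castSucc_succ]; trivial

/-- the product of all Clifford elements in the order given by a permutation -/
theorem mon_perm {c : Fin N → A} (h : IsCliff c) (σ : Equiv.Perm (Fin N)) :
    mon c (List.ofFn σ) = ((Equiv.Perm.sign σ : ℤ) : A) * (List.ofFn c).prod := by
  have h1 := mon_ofFn_perm h (id : Fin N → Fin N) Function.injective_id σ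
  rw [Function.id_comp] at h1
  rw [h1]
  congr 1
  unfold mon
  rw [List.map_ofFn]; rfl

variable [Algebra ℂ A]

theorem prod_twoA (c : Fin N → A) (k : ℕ) (Ω : Fin k → Mt N) :
    (List.ofFn fun r => twoA c (Ω r)).prod = ∑ p : Fin k → Fin N × Fin N,
      ((∏ r, Ω r (p r).1 (p r).2 : ℝ) : ℂ) •
        (List.ofFn fun r => c (p r).1 * c (p r).2).prod := by
  induction k with
  | zero => simp
  | succ k ih =>
    rw [List.ofFn_succ, List.prod_cons, ih (fun r => Ω r.succ)]
    rw [← (Fin.consEquiv (fun _ => Fin N × Fin N)).sum_comp, Fintype.sum_prod_type]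
    have h1 : twoA c (Ω 0) = ∑ q : Fin N × Fin N, (Ω 0 q.1 q.2 : ℂ) • (c q.1 * c q.2) := by
      rw [Fintype.sum_prod_type]; rfl
    rw [h1, Finset.sum_mul]
    refine Finset.sum_congr rfl fun q _ => ?_
    rw [Finset.mul_sum]
    refine Finset.sum_congr rfl fun p _ => ?_
    rw [List.ofFn_succ, List.prod_cons, Fin.prod_univ_succ, smul_mul_smul_comm]
    simp [Fin.consEquiv]

/-- the sequence of indices of a sequence of pairs -/
def flat {m : ℕ} {α : Type*} (p : Fin m → α × α) : Fin (2 * m) → α := fun j =>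
  if j.val % 2 = 0 then (p ⟨j.val / 2, by omega⟩).1 else (p ⟨j.val / 2, by omega⟩).2

theorem flat_even {m : ℕ} {α : Type*} (p : Fin m → α × α) (r : Fin m) :
    flat p ⟨2 * r, by omega⟩ = (p r).1 := by
  unfold flat
  rw [if_pos (by simp)]
  congr 2
  ext; simp

theorem flat_odd {m : ℕ} {α : Type*} (p : Fin m → α × α) (r : Fin m) :
    flat p ⟨2 * r + 1, by omega⟩ = (p r).2 := by
  unfold flat
  rw [if_neg (by simp)]
  congr 2
  ext; simp; omega

theorem mon_flat {m : ℕ} (c : Fin N → A) (p : Fin m → Fin N × Fin N) :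
    mon c (List.ofFn (flat p)) = (List.ofFn fun r => c (p r).1 * c (p r).2).prod := by
  rw [List.ofFn_mul']
  unfold mon
  rw [List.map_flatten, List.prod_flatten, List.map_ofFn, List.map_ofFn]
  congr 1
  congr 1
  funext r
  simp only [Function.comp_apply, List.map_ofFn]
  rw [List.ofFn_succ, List.ofFn_succ]
  simp only [List.prod_cons, List.ofFn_zero, List.prod_nil, mul_one, Function.comp_apply]
  congr 1
  · congr 1
    exact flat_even p r
  · congr 1
    exact flat_odd p r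

theorem trace_epsA_prod_twoA {t : A →ₗ[ℂ] ℂ} (ht : ∀ x y, t (x * y) = t (y * x)) {m : ℕ}
    {c : Fin (2 * m) → A} (h : IsCliff c) (Ω : Fin m → Mt (2 * m)) :
    t (epsA c * (List.ofFn fun r => twoA c (Ω r)).prod) = (pf Ω : ℂ) * t (epsA c * topA c) := by
  rw [prod_twoA, Finset.mul_sum, map_sum]
  unfold pf
  push_cast
  rw [Finset.sum_mul]
  refine (Fintype.sum_of_injective
    (fun σ : Equiv.Perm (Fin (2 * m)) => fun r : Fin m => (σ ⟨2 * r, by omega⟩,
      σ ⟨2 * r + 1, by omega⟩)) ?_ _ _ ?_ ?_).symm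
  · intro σ τ hστ
    ext1 j
    rcases Nat.even_or_odd' j.val with ⟨r, hr | hr⟩
    · have := congrArg Prod.fst (congrFun hστ ⟨r, by omega⟩)
      have hj : j = ⟨2 * r, by omega⟩ := Fin.ext hr
      rw [hj]; exact this
    · have := congrArg Prod.snd (congrFun hστ ⟨r, by omega⟩)
      have hj : j = ⟨2 * r + 1, by omega⟩ := Fin.ext hr
      rw [hj]; exact this
  · intro p hp
    rw [mul_smul_comm, map_smul, ← mon_flat]
    have h1 : ¬ Function.Surjective (flat p) := by
      intro hsurj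
      apply hp
      have hbij : Function.Bijective (flat p) := Finite.injective_iff_bijective.mp
        (Finite.injective_iff_surjective.mpr hsurj)
      refine ⟨Equiv.ofBijective _ hbij, ?_⟩
      funext r
      simp only [Equiv.ofBijective_apply]
      rw [flat_even, flat_odd]
    have h2 : ∃ a, a ∉ List.ofFn (flat p) := by
      by_contra h2
      push Not at h2
      apply h1
      intro a
      have := h2 a
      rw [List.mem_ofFn] at this
      exact this
    obtain ⟨a, ha⟩ := h2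
    rw [trace_epsA_mon_of_not_mem ht h ha, smul_zero]
  · intro σ
    rw [mul_smul_comm, map_smul, ← mon_flat]
    have h1 : flat (fun r : Fin m => (σ ⟨2 * r, by omega⟩, σ ⟨2 * r + 1, by omega⟩)) = σ := by
      funext j
      rcases Nat.even_or_odd' j.val with ⟨r, hr | hr⟩
      · have hj : j = ⟨2 * (⟨r, by omega⟩ : Fin m), by simp; omega⟩ := Fin.ext hr
        rw [hj]; exact flat_even _ (⟨r, by omega⟩ : Fin m)
      · have hj : j = ⟨2 * (⟨r, by omega⟩ : Fin m) + 1, by simp; omega⟩ := Fin.ext hr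
        rw [hj]; exact flat_odd _ (⟨r, by omega⟩ : Fin m)
    rw [h1, mon_perm h σ]
    have h2 : epsA c * (((Equiv.Perm.sign σ : ℤ) : A) * (List.ofFn c).prod)
        = ((Equiv.Perm.sign σ : ℤ) : ℂ) • (epsA c * topA c) := by
      unfold topA
      rw [← mul_assoc, ← Int.cast_comm, mul_assoc, Int.cast_smul_eq_zsmul ℂ, zsmul_eq_mul]
    rw [h2, map_smul]
    simp only [smul_eq_mul]
    ring

theorem trace_epsA_pow_twoA {t : A →ₗ[ℂ] ℂ} (ht : ∀ x y, t (x * y) = t (y * x)) {m : ℕ}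
    {c : Fin (2 * m) → A} (h : IsCliff c) (Ω : Mt (2 * m)) :
    t (epsA c * twoA c Ω ^ m) = (pf (fun _ : Fin m => Ω) : ℂ) * t (epsA c * topA c) := by
  rw [← trace_epsA_prod_twoA ht h, List.ofFn_const, List.prod_replicate]

end

end Pool.Agent.Lib.MP_df705a_gt.RL
end

section

/-!
# RL2, file A6: the facts on Clifford matrices, for `Cliff m` and `tr`

Filtration: `Cliff.mul_mem_Cl`, `Cliff.adj_mem_Cl`, `Cliff.Cl_mono`, `Cliff.two_mem_Cl`,
`Cliff.spin_mem_Cl`. Traces: `tr_mul_comm`, `tr_adj`, `Cliff.tr_eps_mul_of_mem_Cl`,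
`Cliff.tr_eps_prod_two`, `Cliff.tr_eps_pow_two`, `Cliff.tr_eps_top_ne_zero`. Spin:
`Cliff.spin_comm_c`, `Cliff.spin_comm_spin`, `Cliff.adj_spin`. Chirality: `Cliff.eps_mul_eps`,
`Cliff.adj_eps`, `Cliff.eps_mul_c`, `Cliff.eps_comm_spin`. Real scalars: `Cliff.real_scalar`.
-/

set_option linter.unusedSectionVars false

open scoped InnerProductSpace Matrix

namespace Pool.Agent.Lib.MP_df705a_gt.RL

noncomputable section

variable {m : ℕ}

/-! ## adjoint -/

section adj

variable {H : Type*} [NormedAddCommGroup H] [InnerProductSpace ℂ H] [CompleteSpace H]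

theorem adj_mul (A B : H →L[ℂ] H) : adj (A * B) = adj B * adj A := by
  show star (A * B) = _
  rw [star_mul]; rfl

theorem adj_one : adj (1 : H →L[ℂ] H) = 1 := by
  show star (1 : H →L[ℂ] H) = _
  rw [star_one]

theorem adj_zero : adj (0 : H →L[ℂ] H) = 0 := map_zero _

theorem adj_neg (A : H →L[ℂ] H) : adj (-A) = -adj A := map_neg _ _

theorem adj_add (A B : H →L[ℂ] H) : adj (A + B) = adj A + adj B := map_add _ _ _

theorem adj_sub (A B : H →L[ℂ] H) : adj (A - B) = adj A - adj B := map_sub _ _ _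

theorem adj_smul (r : ℂ) (A : H →L[ℂ] H) : adj (r • A) = (starRingEnd ℂ r) • adj A := by
  show star (r • A) = _
  rw [star_smul]; rfl

theorem adj_sum {ι : Type*} (s : Finset ι) (f : ι → H →L[ℂ] H) :
    adj (∑ i ∈ s, f i) = ∑ i ∈ s, adj (f i) := map_sum _ _ _

theorem adj_adj (A : H →L[ℂ] H) : adj (adj A) = A := ContinuousLinearMap.adjoint_adjoint A

theorem real_smul_eq (r : ℝ) (A : H →L[ℂ] H) : (r • A) = (r : ℂ) • A := by
  ext x; simp

theorem adj_real_smul (r : ℝ) (A : H →L[ℂ] H) : adj (r • A) = r • adj A := by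
  rw [real_smul_eq, adj_smul, Complex.conj_ofReal, real_smul_eq]

end adj

theorem En.real_smul_eq (r : ℝ) (A : En m) : (r • A) = (r : ℂ) • A := RL.real_smul_eq r A

/-! ## trace -/

theorem tr_add (A B : En m) : tr (A + B) = tr A + tr B := by unfold tr; simp

theorem tr_zero : tr (0 : En m) = 0 := by unfold tr; simp

theorem tr_neg (A : En m) : tr (-A) = -tr A := by unfold tr; simp

theorem tr_sub (A B : En m) : tr (A - B) = tr A - tr B := by unfold tr; simp

theorem tr_smul (r : ℂ) (A : En m) : tr (r • A) = r * tr A := by unfold tr; simp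

theorem tr_real_smul (r : ℝ) (A : En m) : tr (r • A) = r * tr A := by
  rw [En.real_smul_eq, tr_smul]

theorem tr_one : tr (1 : En m) = 2 ^ m := by
  unfold tr
  have : ((1 : En m) : Sp m →ₗ[ℂ] Sp m) = 1 := rfl
  rw [this, LinearMap.trace_one]; simp

theorem tr_mul_comm (A B : En m) : tr (A * B) = tr (B * A) :=
  LinearMap.trace_mul_comm ℂ (A : Sp m →ₗ[ℂ] Sp m) (B : Sp m →ₗ[ℂ] Sp m)

/-- the trace as a linear map -/
def trL (m : ℕ) : En m →ₗ[ℂ] ℂ where
  toFun := tr
  map_add' := tr_add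
  map_smul' r A := by rw [tr_smul]; rfl

@[simp] theorem trL_apply (A : En m) : trL m A = tr A := rfl

theorem trL_comm (A B : En m) : trL m (A * B) = trL m (B * A) := tr_mul_comm A B

theorem tr_sum {ι : Type*} (s : Finset ι) (f : ι → En m) :
    tr (∑ i ∈ s, f i) = ∑ i ∈ s, tr (f i) := map_sum (trL m) f s

/-- the trace in terms of the standard basis -/
theorem tr_eq_sum (A : En m) : tr A = ∑ j, inner ℂ (sb j) (A (sb j)) := by
  unfold tr
  rw [LinearMap.trace_eq_sum_inner (A : Sp m →ₗ[ℂ] Sp m) (EuclideanSpace.basisFun (Fin (2 ^ m)) ℂ)]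
  apply Finset.sum_congr rfl
  intro j _
  simp [sb, EuclideanSpace.basisFun_apply]

theorem tr_adj (A : En m) : tr (adj A) = (starRingEnd ℂ) (tr A) := by
  rw [tr_eq_sum, tr_eq_sum, map_sum]
  apply Finset.sum_congr rfl
  intro j _
  rw [ContinuousLinearMap.adjoint_inner_right, inner_conj_symm]

/-! ## Clifford relations -/

namespace Cliff

variable (C : Cliff m)

theorem isCliff : IsCliff C.c where
  sq a := by
    have h := C.rel a a
    rw [if_pos rfl] at h
    have h3 : C.c a * C.c a = (1 / 2 : ℂ) • (C.c a * C.c a + C.c a * C.c a) := by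
      rw [← two_smul ℂ (C.c a * C.c a), smul_smul (1 / 2 : ℂ) 2 (C.c a * C.c a)]
      norm_num
    rw [h3, h, smul_smul (1 / 2 : ℂ) (-2) (1 : En m)]
    norm_num
    exact (neg_smul (1 : ℂ) (1 : En m)).trans (congrArg _ (one_smul ℂ (1 : En m)))
  anti a b hab := by
    have h := C.rel a b
    rw [if_neg hab] at h
    exact eq_neg_of_add_eq_zero_left (h.trans (zero_smul ℂ (1 : En m)))

theorem star_c (a : Fin (2 * m)) : star (C.c a) = -C.c a := C.skew a

theorem sq (a : Fin (2 * m)) : C.c a * C.c a = -1 := C.isCliff.sq a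

theorem anti {a b : Fin (2 * m)} (h : a ≠ b) : C.c a * C.c b = -(C.c b * C.c a) :=
  C.isCliff.anti a b h

theorem mon_eq (l : List (Fin (2 * m))) : (l.map C.c).prod = mon C.c l := rfl

theorem Re_eq : C.Re = ClAlg ℝ C.c := by
  unfold Cliff.Re ClAlg
  congr 1
  ext A
  constructor
  · rintro ⟨l, rfl⟩; exact ⟨l, rfl⟩
  · rintro ⟨l, rfl⟩; exact ⟨l, rfl⟩

theorem mon_mem_Re (l : List (Fin (2 * m))) : mon C.c l ∈ C.Re := Submodule.subset_span ⟨l, rfl⟩

theorem one_mem_Re : (1 : En m) ∈ C.Re := by simpa using C.mon_mem_Re []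

theorem c_mem_Re (a : Fin (2 * m)) : C.c a ∈ C.Re := by simpa using C.mon_mem_Re [a]

theorem mul_mem_Re {A B : En m} (hA : A ∈ C.Re) (hB : B ∈ C.Re) : A * B ∈ C.Re := by
  rw [Re_eq] at *; exact mul_mem_ClAlg hA hB

theorem adj_mem_Re {A : En m} (hA : A ∈ C.Re) : adj A ∈ C.Re := by
  rw [Re_eq] at *
  exact star_mem_ClAlg (A := En m) (𝕜 := ℝ) (fun r y => adj_real_smul r y) C.star_c hA

theorem adj_mon_mul (l : List (Fin (2 * m))) : adj (mon C.c l) * mon C.c l = 1 :=
  star_mon_mul C.isCliff C.star_c l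

theorem mon_mul_adj (l : List (Fin (2 * m))) : mon C.c l * adj (mon C.c l) = 1 :=
  mon_mul_star C.isCliff C.star_c l

/-! ## the filtration -/

theorem Cl_eq (d : ℕ) : C.Cl d = FCl C.c d := rfl

theorem mon_mem_Cl {l : List (Fin (2 * m))} {d : ℕ} (h : l.length ≤ d) : mon C.c l ∈ C.Cl d :=
  Submodule.subset_span ⟨l, h, rfl⟩

theorem one_mem_Cl (d : ℕ) : (1 : En m) ∈ C.Cl d := one_mem_FCl C.c d

theorem c_mem_Cl (a : Fin (2 * m)) {d : ℕ} (h : 1 ≤ d) : C.c a ∈ C.Cl d := c_mem_FCl C.c a h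

theorem Cl_mono {d e : ℕ} (h : d ≤ e) : C.Cl d ≤ C.Cl e := FCl_mono C.c h

theorem mul_mem_Cl {d e : ℕ} {A B : En m} (hA : A ∈ C.Cl d) (hB : B ∈ C.Cl e) :
    A * B ∈ C.Cl (d + e) := mul_mem_FCl hA hB

theorem mul_mem_Cl' {d e f : ℕ} {A B : En m} (hA : A ∈ C.Cl d) (hB : B ∈ C.Cl e)
    (h : d + e ≤ f) : A * B ∈ C.Cl f := C.Cl_mono h (C.mul_mem_Cl hA hB)

theorem adj_mem_Cl {d : ℕ} {A : En m} (hA : A ∈ C.Cl d) : adj A ∈ C.Cl d :=
  star_mem_FCl (A := En m) C.star_c hA

theorem two_mem_Cl (Ω : Mt (2 * m)) : C.two Ω ∈ C.Cl 2 := twoA_mem_FCl C.c Ω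

theorem two_eq (Ω : Mt (2 * m)) : C.two Ω = twoA C.c Ω := rfl

theorem spin_eq (A : Mt (2 * m)) : C.spin A = spinA C.c A := rfl

theorem spin_eq_two (A : Mt (2 * m)) : C.spin A = (-(1 / 4) : ℂ) • C.two A := rfl

theorem spin_mem_Cl (A : Mt (2 * m)) : C.spin A ∈ C.Cl 2 :=
  (C.Cl 2).smul_mem _ (C.two_mem_Cl A)

/-! ## spin -/

theorem spin_comm_c {M : Mt (2 * m)} (hM : ∀ a b, M b a = -M a b) (b : Fin (2 * m)) :
    C.spin M * C.c b - C.c b * C.spin M = ∑ a, (M a b : ℂ) • C.c a :=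
  spinA_comm_c C.isCliff hM b

theorem spin_comm_two {M : Mt (2 * m)} (hM : ∀ a b, M b a = -M a b) (K : Mt (2 * m)) :
    C.spin M * C.two K - C.two K * C.spin M = C.two (M * K - K * M) :=
  spinA_comm_twoA C.isCliff hM K

theorem spin_comm_spin {M : Mt (2 * m)} (hM : ∀ a b, M b a = -M a b) (K : Mt (2 * m)) :
    C.spin M * C.spin K - C.spin K * C.spin M = C.spin (M * K - K * M) :=
  spinA_comm_spinA C.isCliff hM K

theorem adj_spin {M : Mt (2 * m)} (hM : ∀ a b, M b a = -M a b) : adj (C.spin M) = -C.spin M :=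
  star_spinA (A := En m) C.star_c hM

theorem spin_add (M K : Mt (2 * m)) : C.spin (M + K) = C.spin M + C.spin K := spinA_add C.c M K

theorem spin_sub (M K : Mt (2 * m)) : C.spin (M - K) = C.spin M - C.spin K := spinA_sub C.c M K

theorem spin_neg (M : Mt (2 * m)) : C.spin (-M) = -C.spin M := spinA_neg C.c M

theorem spin_smul (r : ℝ) (M : Mt (2 * m)) : C.spin (r • M) = (r : ℂ) • C.spin M :=
  spinA_smul C.c r M

theorem spin_zero : C.spin 0 = 0 := spinA_zero C.c

theorem two_add (M K : Mt (2 * m)) : C.two (M + K) = C.two M + C.two K := twoA_add C.c M K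

theorem two_sub (M K : Mt (2 * m)) : C.two (M - K) = C.two M - C.two K := twoA_sub C.c M K

theorem two_neg (M : Mt (2 * m)) : C.two (-M) = -C.two M := twoA_neg C.c M

theorem two_smul (r : ℝ) (M : Mt (2 * m)) : C.two (r • M) = (r : ℂ) • C.two M :=
  twoA_smul C.c r M

theorem two_zero : C.two 0 = 0 := twoA_zero C.c

/-! ## chirality -/

theorem eps_eq : C.eps = epsA C.c := rfl

theorem top_eq : C.top = topA C.c := rfl

theorem eps_mul_eps : C.eps * C.eps = 1 := epsA_mul_epsA C.isCliff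

theorem adj_eps : adj C.eps = C.eps := star_epsA (A := En m) C.isCliff C.star_c

theorem c_mul_eps (a : Fin (2 * m)) : C.c a * C.eps = -(C.eps * C.c a) := c_mul_epsA C.isCliff a

theorem eps_mul_c (a : Fin (2 * m)) : C.eps * C.c a = -(C.c a * C.eps) := epsA_mul_c C.isCliff a

theorem eps_comm_two (Ω : Mt (2 * m)) : C.eps * C.two Ω = C.two Ω * C.eps :=
  epsA_comm_twoA C.isCliff Ω

theorem eps_comm_spin (M : Mt (2 * m)) : C.eps * C.spin M = C.spin M * C.eps :=
  epsA_comm_spinA C.isCliff M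

/-! ## traces -/

theorem tr_eq_zero_of_anti {X u : En m} (hu : u * u = -1 ∨ u * u = 1) (h : u * X = -(X * u)) :
    tr X = 0 := trace_eq_zero_of_anti (t := trL m) trL_comm hu h

theorem tr_eps_mul_of_mem_Cl {d : ℕ} (hd : d < 2 * m) {A : En m} (hA : A ∈ C.Cl d) :
    tr (C.eps * A) = 0 :=
  trace_epsA_mul_of_mem_FCl (t := trL m) trL_comm C.isCliff hd hA

theorem tr_eps_prod_two (Ω : Fin m → Mt (2 * m)) :
    tr (C.eps * (List.ofFn fun r => C.two (Ω r)).prod) = (pf Ω : ℂ) * tr (C.eps * C.top) :=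
  trace_epsA_prod_twoA (t := trL m) trL_comm C.isCliff Ω

theorem tr_eps_pow_two (Ω : Mt (2 * m)) :
    tr (C.eps * C.two Ω ^ m) = (pf (fun _ : Fin m => Ω) : ℂ) * tr (C.eps * C.top) :=
  trace_epsA_pow_twoA (t := trL m) trL_comm C.isCliff Ω

theorem two_pow_mem_Cl (Ω : Mt (2 * m)) (k : ℕ) : C.two Ω ^ k ∈ C.Cl (2 * k) := by
  induction k with
  | zero => rw [pow_zero]; exact C.one_mem_Cl _
  | succ k ih =>
    rw [pow_succ]
    exact C.mul_mem_Cl' ih (C.two_mem_Cl Ω) (by omega)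

theorem tr_eps_pow_two_of_lt (Ω : Mt (2 * m)) {k : ℕ} (hk : k < m) :
    tr (C.eps * C.two Ω ^ k) = 0 :=
  C.tr_eps_mul_of_mem_Cl (by omega) (C.two_pow_mem_Cl Ω k)

theorem tr_eps_top : Complex.I ^ m * tr (C.eps * C.top) = 2 ^ m := by
  rw [← tr_smul, ← mul_smul_comm (Complex.I ^ m) C.eps C.top]
  show tr (C.eps * C.eps) = _
  rw [eps_mul_eps, tr_one]

theorem tr_eps_top_ne_zero : tr (C.eps * C.top) ≠ 0 := by
  intro h
  have := C.tr_eps_top
  rw [h, mul_zero] at this
  exact (pow_ne_zero m (two_ne_zero (α := ℂ))) this.symm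

/-- the trace is real on `Re` -/
theorem tr_im_of_mem_Re {A : En m} (hA : A ∈ C.Re) : (tr A).im = 0 := by
  unfold Cliff.Re at hA
  induction hA using Submodule.span_induction with
  | mem x hx =>
    obtain ⟨l, rfl⟩ := hx
    rw [C.mon_eq]
    by_cases h : ∀ a, Commute (C.c a) (mon C.c l)
    · rcases C.isCliff.central_mon (even_two_mul m) l h with h1 | h1
      · rw [h1, tr_one]; norm_cast
      · rw [h1, tr_neg, tr_one]; norm_cast
    · push Not at h
      obtain ⟨a, ha⟩ := h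
      have h1 := C.isCliff.comm_rule a l
      rcases neg_one_pow_eq_or (En m) (l.length + l.count a) with h2 | h2
      · exact absurd (h1.trans ((congrArg (· * (mon C.c l * C.c a)) h2).trans
          (one_mul (mon C.c l * C.c a)))) ha
      · have h3 := h1.trans ((congrArg (· * (mon C.c l * C.c a)) h2).trans
          (neg_one_mul (mon C.c l * C.c a)))
        rw [tr_eq_zero_of_anti (Or.inl (C.sq a)) h3]; rfl
  | zero => rw [tr_zero]; rfl
  | add x y _ _ h1 h2 => rw [tr_add, Complex.add_im, h1, h2, add_zero]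
  | smul r x _ h1 => rw [tr_real_smul]; simp [h1]

/-- An element of `Re` that commutes with all Clifford matrices is a real scalar. -/
theorem real_scalar {A : En m} (hA : A ∈ C.Re) (h : ∀ a, C.c a * A = A * C.c a) :
    ∃ r : ℝ, A = r • (1 : En m) := by
  rw [Re_eq] at hA
  exact scalar_of_commute C.isCliff (even_two_mul m) hA h

end Cliff

end

end Pool.Agent.Lib.MP_df705a_gt.RL
end

section

/-!
# RL2, M1: the curvature library (coordinates of `finBasis`) in the standard coordinates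
-/

open scoped ContDiff InnerProductSpace Matrix
open Module

noncomputable section

namespace Pool.Agent.Lib.MP_df705a_gt.RL

variable {N : ℕ}

/-- Identification of the index sets. -/
def ix (N : ℕ) : Fin N ≃ Fin (finrank ℝ (V N)) := finCongr (finrank_euclideanSpace_fin (𝕜 := ℝ)).symm

/-- The linear isomorphism which sends the standard basis to `finBasis`. -/
def Phi (N : ℕ) : V N ≃L[ℝ] V N :=
  ((EuclideanSpace.basisFun (Fin N) ℝ).toBasis.equiv (finBasis ℝ (V N))
    (ix N)).toContinuousLinearEquiv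

theorem Phi_bv (μ : Fin N) : Phi N (bv μ) = finBasis ℝ (V N) (ix N μ) := by
  have h : (bv μ : V N) = (EuclideanSpace.basisFun (Fin N) ℝ).toBasis μ := by
    simp [bv]
  rw [h]
  exact Module.Basis.equiv_apply _ _ _ _

/-- The chain rule for `Phi` (a linear isomorphism: no differentiability is needed,
`ContinuousLinearEquiv.comp_right_fderiv`). -/
theorem cpd_Phi (f : V N → ℝ) (i : Fin N) (y : V N) :
    Curv.pd (ix N i) f (Phi N y) = pd i (fun z => f (Phi N z)) y := by
  have h := (Phi N).comp_right_fderiv (f := f) (x := y)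
  change fderiv ℝ (fun z => f (Phi N z)) y = _ at h
  rw [Curv.pd, pd, h, ContinuousLinearMap.comp_apply, ← Phi_bv]
  rfl

/-- The coefficients of `h` in the coordinates `Phi`. -/
def pullC (h : Curv.Coeff (V N)) : V N → Mt N := fun y => Matrix.of fun i j =>
  h (Phi N y) (ix N i) (ix N j)

private theorem M1_pullC (h : Curv.Coeff (V N)) (y : V N) :
    pullC h y = (h (Phi N y)).submatrix (ix N) (ix N) := rfl

theorem isMet_pullC {h : Curv.Coeff (V N)} (hh : Curv.IsMetric h) : IsMet (pullC h) := by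
  refine ⟨fun i j => ?_, fun y => ?_⟩
  · exact (hh.1 (ix N i) (ix N j)).comp (Phi N).contDiff
  · rw [M1_pullC]
    exact (hh.2 (Phi N y)).submatrix (ix N).injective

theorem inv_pullC (h : Curv.Coeff (V N)) (y : V N) (i j : Fin N) :
    (pullC h y)⁻¹ i j = (h (Phi N y))⁻¹ (ix N i) (ix N j) := by
  rw [M1_pullC, Matrix.inv_submatrix_equiv, Matrix.submatrix_apply]

private theorem M1_chr (h : Curv.Coeff (V N)) (y : V N) (i j k : Fin N) :
    Curv.christoffel h (ix N i) (ix N j) (ix N k) (Phi N y) = chr (pullC h) i j k y := by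
  rw [Curv.christoffel, chr, cpd_Phi, cpd_Phi, cpd_Phi]
  rfl

private theorem M1_riem (h : Curv.Coeff (V N)) (y : V N) (i j k l : Fin N) :
    Curv.riemann h (ix N i) (ix N j) (ix N k) (ix N l) (Phi N y) = riem (pullC h) i j k l y := by
  rw [Curv.riemann, riem, cpd_Phi, cpd_Phi]
  congr 1
  · simp only [M1_chr]
  · rw [← (ix N).sum_comp]
    refine Finset.sum_congr rfl fun p _ => ?_
    rw [← (ix N).sum_comp]
    refine Finset.sum_congr rfl fun q _ => ?_
    rw [M1_chr, M1_chr, M1_chr, M1_chr, inv_pullC]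

/-- Term by term: `christoffel`, `riemann`, `scal` with `cpd_Phi`, `inv_pullC`, `Equiv.sum_comp`. -/
theorem scal_Phi (h : Curv.Coeff (V N)) (y : V N) :
    Curv.scal h (Phi N y) = scalS (pullC h) y := by
  rw [Curv.scal, scalS, ← (ix N).sum_comp]
  refine Finset.sum_congr rfl fun i _ => ?_
  rw [← (ix N).sum_comp]
  refine Finset.sum_congr rfl fun j _ => ?_
  rw [← (ix N).sum_comp]
  refine Finset.sum_congr rfl fun k _ => ?_
  rw [← (ix N).sum_comp]
  refine Finset.sum_congr rfl fun l _ => ?_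
  rw [M1_riem, inv_pullC, inv_pullC]

end Pool.Agent.Lib.MP_df705a_gt.RL
end
end

section

/-!
TASK S01. Calculus of iterated partial derivatives.

PROOFS.
* `mem_lists`: `Finset.mem_biUnion`, `Finset.mem_image`; `List.ofFn` of `l.get` is `l`
  (`List.ofFn_get`), `List.length_ofFn`.
* `contDiff_pdS`: `pd μ f = fun y => fderiv ℝ f y (bv μ)`, `ContDiff.fderiv_right` and
  `ContDiff.clm_apply` (or `hf.contDiff_fderiv_apply`); `contDiff_pds`: induction on `l` with `f`
  general.
* `pds_append`: induction on `l`.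
* `pds_sum`: induction on `l` with the functions general: `pd μ (fun y => ∑ i ∈ s, a i * f i y)
  = fun y => ∑ i ∈ s, a i * pd μ (f i) y` (`fderiv_fun_sum`, `fderiv_const_mul`, all
  differentiable).
* `abs_pds_le`: induction on `l` with `f` general. `l = []`: `norm_iteratedFDeriv_zero`.
  `l = μ :: l`: `|pds l (pd μ f) y| ≤ ‖iteratedFDeriv ℝ k (pd μ f) y‖` and `pd μ f = L ∘ fderiv ℝ f`
  with `L` the evaluation at `bv μ` (`ContinuousLinearMap.apply ℝ ℝ (bv μ)`, norm at most
  `‖bv μ‖ = 1`), so by `ContinuousLinearMap.norm_iteratedFDeriv_comp_left` it is at most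
  `‖iteratedFDeriv ℝ k (fderiv ℝ f) y‖ = ‖iteratedFDeriv ℝ (k + 1) f y‖`
  (`norm_iteratedFDeriv_fderiv`).
* `norm_iteratedFDeriv_le_pds`: induction on `k` with `f` general. `k = 0`: the list `[]`. Step:
  `‖iteratedFDeriv ℝ (k+1) f y‖ = ‖iteratedFDeriv ℝ k (fderiv ℝ f) y‖` and
  `fderiv ℝ f y = ∑ μ, (pd μ f y) • EuclideanSpace.proj μ` (evaluate at `v = ∑ v μ • bv μ`), so
  `fderiv ℝ f = ∑ μ, L_μ ∘ pd μ f` with `L_μ t = t • proj μ`
  (`ContinuousLinearMap.toSpanSingleton ℝ (EuclideanSpace.proj μ)`, norm `‖proj μ‖ ≤ 1`), hence it is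
  at most `∑ μ, ‖iteratedFDeriv ℝ k (pd μ f) y‖ ≤ ∑ μ, ∑ l ∈ lists N k, |pds l (pd μ f) y|`
  and this is a sum of `|pds l' f y|` over the different lists `l' = μ :: l` of `lists N (k+1)`
  (`Finset.sum_product'`, `Finset.sum_le_sum_of_subset_of_nonneg` after `Finset.sum_image`;
  `iteratedFDeriv_sum` or `norm` of the sum by `iteratedFDeriv_add` inductively).
-/

open scoped ContDiff InnerProductSpace Matrix
open MeasureTheory Filter Topology

noncomputable section

namespace Pool.Agent.Lib.MP_df705a_gt.RL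

variable {N : ℕ}

theorem mem_lists {q : ℕ} {l : List (Fin N)} : l ∈ lists N q ↔ l.length ≤ q := by
  unfold lists
  simp only [Finset.mem_biUnion, Finset.mem_range, Finset.mem_image, Finset.mem_univ, true_and]
  constructor
  · rintro ⟨k, hk, v, rfl⟩
    rw [List.length_ofFn]
    omega
  · intro h
    exact ⟨l.length, by omega, l.get, List.ofFn_get l⟩

theorem contDiff_pdS {f : V N → ℝ} (hf : ContDiff ℝ ∞ f) (μ : Fin N) : ContDiff ℝ ∞ (pd μ f) := by
  have h : ContDiff ℝ ∞ (fderiv ℝ f) := hf.fderiv_right (by simp)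
  exact h.clm_apply contDiff_const

theorem contDiff_pds {f : V N → ℝ} (hf : ContDiff ℝ ∞ f) (l : List (Fin N)) :
    ContDiff ℝ ∞ (pds l f) := by
  induction l generalizing f with
  | nil => exact hf
  | cons μ l ih => exact ih (contDiff_pdS hf μ)

theorem pds_append (l l' : List (Fin N)) (f : V N → ℝ) : pds (l ++ l') f = pds l' (pds l f) := by
  induction l generalizing f with
  | nil => rfl
  | cons μ l ih => exact ih (pd μ f)

theorem S01_pd_sum {ι : Type*} (s : Finset ι) (a : ι → ℝ) {f : ι → V N → ℝ}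
    (hf : ∀ i, ContDiff ℝ ∞ (f i)) (μ : Fin N) :
    pd μ (fun y => ∑ i ∈ s, a i * f i y) = fun y => ∑ i ∈ s, a i * pd μ (f i) y := by
  funext y
  have hd : ∀ i, DifferentiableAt ℝ (f i) y := fun i =>
    ((hf i).differentiable (by simp)).differentiableAt
  unfold pd
  rw [fderiv_fun_sum fun i _ => (hd i).const_mul (a i)]
  rw [_root_.sum_apply]
  refine Finset.sum_congr rfl fun i _ => ?_
  rw [fderiv_const_mul (hd i)]
  rfl

theorem pds_sum {ι : Type*} (s : Finset ι) (a : ι → ℝ) {f : ι → V N → ℝ}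
    (hf : ∀ i, ContDiff ℝ ∞ (f i)) (l : List (Fin N)) (y : V N) :
    pds l (fun y => ∑ i ∈ s, a i * f i y) y = ∑ i ∈ s, a i * pds l (f i) y := by
  induction l generalizing f with
  | nil => rfl
  | cons μ l ih =>
    show pds l (pd μ (fun y => ∑ i ∈ s, a i * f i y)) y = ∑ i ∈ s, a i * pds l (pd μ (f i)) y
    rw [S01_pd_sum s a hf μ]
    exact ih fun i => contDiff_pdS (hf i) μ

theorem S01_norm_bv (μ : Fin N) : ‖bv μ‖ = 1 := by
  unfold bv
  simp

theorem S01_norm_pd_le {f : V N → ℝ} (hf : ContDiff ℝ ∞ f) (μ : Fin N) (k : ℕ) (y : V N) :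
    ‖iteratedFDeriv ℝ k (pd μ f) y‖ ≤ ‖iteratedFDeriv ℝ (k + 1) f y‖ := by
  have h : ContDiff ℝ ∞ (fderiv ℝ f) := hf.fderiv_right (by simp)
  have h1 : pd μ f = (ContinuousLinearMap.apply ℝ ℝ (bv μ)) ∘ fderiv ℝ f := rfl
  rw [h1, ← norm_iteratedFDeriv_fderiv]
  refine (ContinuousLinearMap.norm_iteratedFDeriv_comp_left _ h.contDiffAt
    (by exact_mod_cast le_top)).trans ?_
  have h2 : ‖ContinuousLinearMap.apply ℝ ℝ (bv μ)‖ ≤ 1 := by
    refine ContinuousLinearMap.opNorm_le_bound _ zero_le_one fun x => ?_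
    rw [one_mul]
    have := x.le_opNorm (bv μ)
    rw [S01_norm_bv, mul_one] at this
    exact this
  exact (mul_le_mul_of_nonneg_right h2 (norm_nonneg _)).trans_eq (one_mul _)

theorem abs_pds_le {f : V N → ℝ} (hf : ContDiff ℝ ∞ f) (l : List (Fin N)) (y : V N) :
    |pds l f y| ≤ ‖iteratedFDeriv ℝ l.length f y‖ := by
  induction l generalizing f with
  | nil =>
    rw [List.length_nil, norm_iteratedFDeriv_zero]
    exact le_rfl
  | cons μ l ih =>
    rw [List.length_cons]
    exact (ih (contDiff_pdS hf μ)).trans (S01_norm_pd_le hf μ l.length y)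

theorem S01_eq_sum_bv (v : V N) : v = ∑ μ, v μ • bv μ := by
  ext i
  simp [bv, EuclideanSpace.single, Pi.single_apply]

theorem S01_fderiv_eq (f : V N → ℝ) : fderiv ℝ f = fun y => ∑ μ,
    (ContinuousLinearMap.toSpanSingleton ℝ
      (EuclideanSpace.proj μ : V N →L[ℝ] ℝ)) (pd μ f y) := by
  funext y
  ext v
  rw [_root_.sum_apply]
  conv_lhs => rw [S01_eq_sum_bv v]
  rw [map_sum]
  refine Finset.sum_congr rfl fun μ _ => ?_
  rw [map_smul]
  show v μ * (fderiv ℝ f y) (bv μ) = (fderiv ℝ f y) (bv μ) * v μ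
  ring

theorem S01_norm_proj (μ : Fin N) : ‖(EuclideanSpace.proj μ : V N →L[ℝ] ℝ)‖ ≤ 1 := by
  refine ContinuousLinearMap.opNorm_le_bound _ zero_le_one fun x => ?_
  rw [one_mul]
  exact PiLp.norm_apply_le x μ

theorem norm_iteratedFDeriv_le_pds {f : V N → ℝ} (hf : ContDiff ℝ ∞ f) (k : ℕ) (y : V N) :
    ‖iteratedFDeriv ℝ k f y‖ ≤ ∑ l ∈ lists N k, |pds l f y| := by
  induction k generalizing f with
  | zero =>
    rw [norm_iteratedFDeriv_zero]
    have h : ([] : List (Fin N)) ∈ lists N 0 := mem_lists.2 le_rfl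
    exact Finset.single_le_sum (f := fun l => |pds l f y|) (fun l _ => abs_nonneg _) h
  | succ k ih =>
    rw [← norm_iteratedFDeriv_fderiv, S01_fderiv_eq f]
    have hs : ∀ μ, ContDiff ℝ ∞ fun y => (ContinuousLinearMap.toSpanSingleton ℝ
      (EuclideanSpace.proj μ : V N →L[ℝ] ℝ)) (pd μ f y) := fun μ =>
      (ContinuousLinearMap.contDiff _).comp (contDiff_pdS hf μ)
    have h1 : iteratedFDeriv ℝ k (fun y => ∑ μ, (ContinuousLinearMap.toSpanSingleton ℝ
      (EuclideanSpace.proj μ : V N →L[ℝ] ℝ)) (pd μ f y)) y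
        = ∑ μ, iteratedFDeriv ℝ k (fun y => (ContinuousLinearMap.toSpanSingleton ℝ
          (EuclideanSpace.proj μ : V N →L[ℝ] ℝ)) (pd μ f y)) y := by
      exact iteratedFDeriv_fun_sum_apply fun μ _ =>
        ((hs μ).of_le (by exact_mod_cast le_top)).contDiffAt
    rw [h1]
    refine (norm_sum_le _ _).trans ?_
    have h2 : ∀ μ, ‖iteratedFDeriv ℝ k (fun y => (ContinuousLinearMap.toSpanSingleton ℝ
        (EuclideanSpace.proj μ : V N →L[ℝ] ℝ)) (pd μ f y)) y‖
        ≤ ∑ l ∈ lists N k, |pds l (pd μ f) y| := by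
      intro μ
      refine (ContinuousLinearMap.norm_iteratedFDeriv_comp_left
        (ContinuousLinearMap.toSpanSingleton ℝ (EuclideanSpace.proj μ : V N →L[ℝ] ℝ))
        (contDiff_pdS hf μ).contDiffAt (by exact_mod_cast le_top)).trans ?_
      have h3 : ‖ContinuousLinearMap.toSpanSingleton ℝ
          (EuclideanSpace.proj μ : V N →L[ℝ] ℝ)‖ ≤ 1 := by
        rw [ContinuousLinearMap.norm_toSpanSingleton]
        exact S01_norm_proj μ
      exact ((mul_le_mul_of_nonneg_right h3 (norm_nonneg _)).trans_eq (one_mul _)).trans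
        (ih (contDiff_pdS hf μ))
    refine (Finset.sum_le_sum fun μ _ => h2 μ).trans ?_
    have h4 : ∑ μ, ∑ l ∈ lists N k, |pds l (pd μ f) y|
        = ∑ p ∈ (Finset.univ : Finset (Fin N)) ×ˢ lists N k, |pds (p.1 :: p.2) f y| := by
      rw [Finset.sum_product]
      rfl
    rw [h4]
    have h5 : ∑ p ∈ (Finset.univ : Finset (Fin N)) ×ˢ lists N k, |pds (p.1 :: p.2) f y|
        = ∑ l ∈ ((Finset.univ : Finset (Fin N)) ×ˢ lists N k).image (fun p => p.1 :: p.2),
          |pds l f y| := by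
      rw [Finset.sum_image]
      rintro ⟨a, b⟩ _ ⟨c, d⟩ _ h
      simp only [List.cons.injEq] at h
      exact Prod.ext h.1 h.2
    rw [h5]
    refine Finset.sum_le_sum_of_subset_of_nonneg ?_ fun l _ _ => abs_nonneg _
    intro l hl
    simp only [Finset.mem_image, Finset.mem_product, Finset.mem_univ, true_and] at hl
    obtain ⟨⟨a, b⟩, hb, rfl⟩ := hl
    rw [mem_lists] at hb ⊢
    exact Nat.succ_le_succ hb

end Pool.Agent.Lib.MP_df705a_gt.RL
end
end

section

/-!
TASK S03. The local Sobolev inequality.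

PROOF. If `r < 0` take `C = 0`. Let `r ≥ 0` and `χ` a smooth function with `χ = 1` on
`closedBall 0 r` and support in `closedBall 0 (r+1)` (`ContDiffBump` with center 0 and
`rIn = r + 1/2`, `rOut = r + 1`). Let `M` be a bound of `‖iteratedFDeriv ℝ i χ v‖` for all `v` and
`i ≤ N+1` (continuous, compact support). By `norm_iteratedFDeriv_le_pds` it is enough to bound
`|pds l₀ f y|` for `l₀ ∈ lists N k`, `‖y‖ ≤ r`. Apply `sobolev` to `u = χ * pds l₀ f`:
`|pds l₀ f y| = |u y| ≤ C₁ ∑_{p < N+2} ∫ ‖D^p u‖`. By `norm_iteratedFDeriv_mul_le`,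
`‖D^p u v‖ ≤ ∑_{i ≤ p} (p choose i) ‖D^i χ v‖ ‖D^(p-i) (pds l₀ f) v‖
 ≤ 2^(N+1) M ∑_{j ≤ N+1} ‖D^j (pds l₀ f) v‖` and it vanishes outside `closedBall 0 (r+1)`
(`support_iteratedFDeriv_subset`, `tsupport`), so the integral is over the ball
(`setIntegral_eq_integral_of_forall_compl_eq_zero`). By `norm_iteratedFDeriv_le_pds` and
`pds_append`: `‖D^j (pds l₀ f) v‖ ≤ ∑_{l ∈ lists N j} |pds (l₀ ++ l) f v|
 ≤ (card lists) * ∑_{l' ∈ lists N (k+N+1)} |pds l' f v|`.
All functions are continuous, so integrable on the ball.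
-/

open scoped ContDiff InnerProductSpace Matrix
open MeasureTheory Filter Topology

noncomputable section

namespace Pool.Agent.Lib.MP_df705a_gt.RL

variable {N : ℕ}

/-- The sum of the absolute values of the derivatives of order at most `q`. -/
def S03_S (f : V N → ℝ) (q : ℕ) (v : V N) : ℝ := ∑ l ∈ lists N q, |pds l f v|

theorem S03_S_nonneg (f : V N → ℝ) (q : ℕ) (v : V N) : 0 ≤ S03_S f q v :=
  Finset.sum_nonneg fun _ _ => abs_nonneg _

theorem S03_deriv {f : V N → ℝ} (hf : ContDiff ℝ ∞ f) {k : ℕ} {l₀ : List (Fin N)}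
    (hl₀ : l₀ ∈ lists N k) {j : ℕ} (hj : j ≤ N + 1) (v : V N) :
    ‖iteratedFDeriv ℝ j (pds l₀ f) v‖ ≤
      ((lists N (N + 1)).card : ℝ) * S03_S f (k + N + 1) v := by
  refine (norm_iteratedFDeriv_le_pds (contDiff_pds hf l₀) j v).trans ?_
  have h1 : ∀ l ∈ lists N j, |pds l (pds l₀ f) v| ≤ S03_S f (k + N + 1) v := by
    intro l hl
    rw [← pds_append]
    rw [mem_lists] at hl hl₀
    refine Finset.single_le_sum (f := fun l => |pds l f v|) (fun _ _ => abs_nonneg _) ?_
    rw [mem_lists, List.length_append]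
    omega
  calc ∑ l ∈ lists N j, |pds l (pds l₀ f) v| ≤ ∑ _l ∈ lists N j, S03_S f (k + N + 1) v :=
        Finset.sum_le_sum h1
    _ = ((lists N j).card : ℝ) * S03_S f (k + N + 1) v := by
        rw [Finset.sum_const, nsmul_eq_mul]
    _ ≤ ((lists N (N + 1)).card : ℝ) * S03_S f (k + N + 1) v := by
        apply mul_le_mul_of_nonneg_right _ (S03_S_nonneg _ _ _)
        have h2 : lists N j ⊆ lists N (N + 1) := by
          intro l hl
          rw [mem_lists] at hl ⊢
          omega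
        exact_mod_cast Finset.card_le_card h2

theorem S03_mul {χ g : V N → ℝ} (hχ : ContDiff ℝ ∞ χ) (hg : ContDiff ℝ ∞ g) {M T : ℝ} {v : V N}
    (hM : ∀ i ≤ N + 1, ‖iteratedFDeriv ℝ i χ v‖ ≤ M)
    (hT : ∀ i ≤ N + 1, ‖iteratedFDeriv ℝ i g v‖ ≤ T) {q : ℕ} (hq : q ≤ N + 1) :
    ‖iteratedFDeriv ℝ q (fun v => χ v * g v) v‖ ≤ 2 ^ (N + 1) * (M * T) := by
  have hM0 : 0 ≤ M := (norm_nonneg _).trans (hM 0 (Nat.zero_le _))
  have hT0 : 0 ≤ T := (norm_nonneg _).trans (hT 0 (Nat.zero_le _))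
  refine (norm_iteratedFDeriv_mul_le hχ hg v (n := q) (by exact_mod_cast le_top)).trans ?_
  calc ∑ i ∈ Finset.range (q + 1), (q.choose i : ℝ) * ‖iteratedFDeriv ℝ i χ v‖ *
        ‖iteratedFDeriv ℝ (q - i) g v‖
      ≤ ∑ i ∈ Finset.range (q + 1), (q.choose i : ℝ) * (M * T) := by
        refine Finset.sum_le_sum fun i hi => ?_
        rw [Finset.mem_range] at hi
        rw [mul_assoc]
        exact mul_le_mul_of_nonneg_left (mul_le_mul (hM i (by omega)) (hT (q - i) (by omega))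
          (norm_nonneg _) hM0) (Nat.cast_nonneg _)
    _ = 2 ^ q * (M * T) := by
        rw [← Finset.sum_mul]
        congr 1
        exact_mod_cast Nat.sum_range_choose q
    _ ≤ 2 ^ (N + 1) * (M * T) :=
        mul_le_mul_of_nonneg_right (pow_le_pow_right₀ one_le_two hq) (mul_nonneg hM0 hT0)

theorem S03_bump (N : ℕ) {r : ℝ} (hr : 0 ≤ r) : ∃ (χ : V N → ℝ) (M : ℝ), ContDiff ℝ ∞ χ ∧
    (∀ y, ‖y‖ ≤ r → χ y = 1) ∧ tsupport χ ⊆ Metric.closedBall 0 (r + 1) ∧ HasCompactSupport χ ∧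
    ∀ v, ∀ i ≤ N + 1, ‖iteratedFDeriv ℝ i χ v‖ ≤ M := by
  let χ : ContDiffBump (0 : V N) := ⟨r + 1 / 2, r + 1, by linarith, by linarith⟩
  have hχ : ContDiff ℝ ∞ (χ : V N → ℝ) := χ.contDiff
  have hb : ∀ i : ℕ, ∃ M : ℝ, ∀ v, ‖iteratedFDeriv ℝ i (χ : V N → ℝ) v‖ ≤ M := fun i =>
    (hχ.continuous_iteratedFDeriv (m := i) (by exact_mod_cast le_top)).bounded_above_of_compact_support
      (χ.hasCompactSupport.iteratedFDeriv i)
  choose M hM using hb
  refine ⟨χ, ∑ i ∈ Finset.range (N + 2), |M i|, hχ, fun y hy => ?_, ?_, χ.hasCompactSupport,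
    fun v i hi => ?_⟩
  · apply χ.one_of_mem_closedBall
    rw [mem_closedBall_zero_iff]
    change ‖y‖ ≤ r + 1 / 2
    linarith
  · rw [χ.tsupport_eq]
  · refine ((hM i v).trans (le_abs_self _)).trans ?_
    exact Finset.single_le_sum (f := fun i => |M i|) (fun _ _ => abs_nonneg _)
      (Finset.mem_range.2 (by omega))

theorem sobolev_loc (N k : ℕ) (r : ℝ) : ∃ C : ℝ, 0 ≤ C ∧ ∀ f : V N → ℝ, ContDiff ℝ ∞ f →
    ∀ y, ‖y‖ ≤ r → ‖iteratedFDeriv ℝ k f y‖ ≤
      C * ∑ l ∈ lists N (k + N + 1), ∫ v in Metric.closedBall 0 (r + 1), |pds l f v| := by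
  rcases lt_or_ge r 0 with hr | hr
  · exact ⟨0, le_rfl, fun f _ y hy => absurd (hy.trans_lt hr) (not_lt.2 (norm_nonneg y))⟩
  obtain ⟨χ, M, hχ, hχ1, hχs, hχc, hM⟩ := S03_bump N hr
  obtain ⟨C₁, hC₁, hS⟩ := sobolev N
  have hM0 : 0 ≤ M := (norm_nonneg _).trans (hM 0 0 (Nat.zero_le _))
  obtain ⟨K, hK⟩ : ∃ K : ℝ, K = 2 ^ (N + 1) * (M * ((lists N (N + 1)).card : ℝ)) := ⟨_, rfl⟩
  have hK0 : 0 ≤ K := by rw [hK]; positivity
  refine ⟨((lists N k).card : ℝ) * (C₁ * (((N : ℝ) + 2) * K)), by positivity,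
    fun f hf y hy => ?_⟩
  obtain ⟨Z, hZ⟩ : ∃ Z, Z = ∑ l ∈ lists N (k + N + 1),
    ∫ v in Metric.closedBall 0 (r + 1), |pds l f v| := ⟨_, rfl⟩
  have hZ0 : 0 ≤ Z := by
    rw [hZ]
    exact Finset.sum_nonneg fun l _ => integral_nonneg fun v => abs_nonneg _
  rw [← hZ]
  have hcont : ∀ l, Continuous fun v => |pds l f v| := fun l => (contDiff_pds hf l).continuous.abs
  have hint : ∀ l, IntegrableOn (fun v => |pds l f v|) (Metric.closedBall 0 (r + 1)) := fun l =>
    (hcont l).continuousOn.integrableOn_compact (isCompact_closedBall 0 (r + 1))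
  have hZS : ∫ v in Metric.closedBall 0 (r + 1), S03_S f (k + N + 1) v = Z := by
    rw [hZ]
    exact integral_finsetSum _ fun l _ => hint l
  have hSint : IntegrableOn (S03_S f (k + N + 1)) (Metric.closedBall 0 (r + 1)) :=
    integrable_finsetSum _ fun l _ => hint l
  have key : ∀ l₀ ∈ lists N k, |pds l₀ f y| ≤ C₁ * (((N : ℝ) + 2) * K) * Z := by
    intro l₀ hl₀
    have hg := contDiff_pds hf l₀
    have hu : ContDiff ℝ ∞ fun v => χ v * pds l₀ f v := hχ.mul hg
    have huc : HasCompactSupport fun v => χ v * pds l₀ f v := hχc.mul_right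
    have h1 := hS _ hu huc y
    rw [hχ1 y hy, one_mul] at h1
    have h2 : ∀ q ∈ Finset.range (N + 2),
        ∫ v, ‖iteratedFDeriv ℝ q (fun v => χ v * pds l₀ f v) v‖ ≤ K * Z := by
      intro q hq
      have hq' : q ≤ N + 1 := by
        rw [Finset.mem_range] at hq
        omega
      have h3 : ∀ v, v ∉ Metric.closedBall (0 : V N) (r + 1) →
          ‖iteratedFDeriv ℝ q (fun v => χ v * pds l₀ f v) v‖ = 0 := by
        intro v hv
        rw [norm_eq_zero]
        by_contra h4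
        exact hv (hχs (tsupport_mul_subset_left (support_iteratedFDeriv_subset q h4)))
      rw [← setIntegral_eq_integral_of_forall_compl_eq_zero h3, ← hZS, ← integral_const_mul]
      have h5 : IntegrableOn (fun v => ‖iteratedFDeriv ℝ q (fun v => χ v * pds l₀ f v) v‖)
          (Metric.closedBall 0 (r + 1)) :=
        ((hu.continuous_iteratedFDeriv (m := q)
          (by exact_mod_cast le_top)).norm).continuousOn.integrableOn_compact
          (isCompact_closedBall 0 (r + 1))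
      refine setIntegral_mono h5 (hSint.const_mul K) fun v => ?_
      have h6 := S03_mul hχ hg (hM v) (fun i hi => S03_deriv hf hl₀ hi v) hq'
      refine h6.trans (le_of_eq ?_)
      rw [hK]
      ring
    have h7 : C₁ * ∑ q ∈ Finset.range (N + 2),
        ∫ v, ‖iteratedFDeriv ℝ q (fun v => χ v * pds l₀ f v) v‖ ≤
        C₁ * ∑ _q ∈ Finset.range (N + 2), K * Z :=
      mul_le_mul_of_nonneg_left (Finset.sum_le_sum h2) hC₁
    rw [Finset.sum_const, Finset.card_range, nsmul_eq_mul] at h7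
    refine (h1.trans h7).trans (le_of_eq ?_)
    push_cast
    ring
  refine (norm_iteratedFDeriv_le_pds hf k y).trans ((Finset.sum_le_sum key).trans (le_of_eq ?_))
  rw [Finset.sum_const, nsmul_eq_mul]
  ring

end Pool.Agent.Lib.MP_df705a_gt.RL
end
end

section

/-!
TASK S04. Smooth series.

PROOF. Step 1 (`hasFDerivAt`): for `‖y‖ < r`, `hasFDerivAt_tsum_of_isPreconnected` on the ball
`Metric.ball 0 r` (convex, open) with the bound `v` of `hs 1 r` (`‖fderiv ℝ (d n) y‖ =
‖iteratedFDeriv ℝ 1 (d n) y‖`, `norm_iteratedFDeriv_one`) and summability at `0` (or `y`) by `hs 0 r`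
(`norm_iteratedFDeriv_zero`). So `f = ∑' d n` is differentiable with `fderiv ℝ f y = ∑' fderiv ℝ (d n) y`,
a summable series (norms bounded by `v`), and evaluating at `bv μ`:
`HasSum (fun n => pd μ (d n) y) (pd μ f y)`; in particular `pd μ f = fun y => ∑' n, pd μ (d n) y`.
Step 2: the family `pd μ (d n)` satisfies the same hypotheses:
`‖iteratedFDeriv ℝ k (pd μ (d n)) y‖ ≤ ‖iteratedFDeriv ℝ (k+1) (d n) y‖` (as in `abs_pds_le`:
`pd μ g = L ∘ fderiv ℝ g`, `ContinuousLinearMap.norm_iteratedFDeriv_comp_left`, `‖L‖ ≤ 1`,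
`norm_iteratedFDeriv_fderiv`).
`HasSum` for all `l`: induction on `l` with the family `d` general, by Steps 1, 2.
Smoothness: for all `k : ℕ`, for all families: `ContDiff ℝ k f`, induction on `k`
(`contDiff_zero`: continuous because differentiable; step: `contDiff_succ_iff_fderiv` and
`fderiv ℝ f y = ∑ μ, pd μ f y • EuclideanSpace.proj μ` with `pd μ f` of class `C^k` by induction).
Then `contDiff_infty.2`.
-/

open scoped ContDiff InnerProductSpace Matrix
open MeasureTheory Filter Topology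

noncomputable section

namespace Pool.Agent.Lib.MP_df705a_gt.RL

variable {N : ℕ}

theorem S04_norm_bv (μ : Fin N) : ‖(bv μ : V N)‖ = 1 := by
  unfold bv
  rw [PiLp.norm_single, norm_one]

/-- the hypothesis on a family -/
def S04_Hyp (d : ℕ → V N → ℝ) : Prop :=
  (∀ n, ContDiff ℝ ∞ (d n)) ∧ ∀ (k : ℕ) (r : ℝ), ∃ v : ℕ → ℝ, Summable v ∧
      ∀ n y, ‖y‖ ≤ r → ‖iteratedFDeriv ℝ k (d n) y‖ ≤ v n

theorem S04_norm_iter_pd_le (μ : Fin N) {f : V N → ℝ} (hf : ContDiff ℝ ∞ f) (n : ℕ) (y : V N) :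
    ‖iteratedFDeriv ℝ n (pd μ f) y‖ ≤ ‖iteratedFDeriv ℝ (n + 1) f y‖ := by
  have h1 : pd μ f = (ContinuousLinearMap.apply ℝ ℝ (bv μ)) ∘ (fderiv ℝ f) := rfl
  have h3 : ContDiff ℝ ∞ (fderiv ℝ f) := hf.fderiv_right (m := ∞) (by simp)
  have h4 : ‖ContinuousLinearMap.apply ℝ ℝ (bv μ : V N)‖ ≤ 1 := by
    refine ContinuousLinearMap.opNorm_le_bound _ zero_le_one fun L => ?_
    rw [ContinuousLinearMap.apply_apply, one_mul]
    refine (L.le_opNorm _).trans ?_
    rw [S04_norm_bv, mul_one]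
  rw [h1]
  refine (ContinuousLinearMap.norm_iteratedFDeriv_comp_left
    (ContinuousLinearMap.apply ℝ ℝ (bv μ : V N)) (N := ∞) (n := n) h3.contDiffAt
    (by exact_mod_cast le_top)).trans ?_
  rw [norm_iteratedFDeriv_fderiv]
  exact (mul_le_mul_of_nonneg_right h4 (norm_nonneg _)).trans_eq (one_mul _)

theorem S04_Hyp.pd {d : ℕ → V N → ℝ} (h : S04_Hyp d) (μ : Fin N) :
    S04_Hyp fun n => RL.pd μ (d n) := by
  refine ⟨fun n => contDiff_pdS (h.1 n) μ, fun k r => ?_⟩
  obtain ⟨v, hv, h1⟩ := h.2 (k + 1) r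
  exact ⟨v, hv, fun n y hy => (S04_norm_iter_pd_le μ (h.1 n) k y).trans (h1 n y hy)⟩

theorem S04_Hyp.summable {d : ℕ → V N → ℝ} (h : S04_Hyp d) (y : V N) :
    Summable fun n => d n y := by
  obtain ⟨v, hv, h1⟩ := h.2 0 ‖y‖
  refine Summable.of_norm_bounded hv fun n => ?_
  have := h1 n y le_rfl
  rwa [norm_iteratedFDeriv_zero] at this

theorem S04_Hyp.summable_fderiv {d : ℕ → V N → ℝ} (h : S04_Hyp d) (y : V N) :
    Summable fun n => fderiv ℝ (d n) y := by
  obtain ⟨v, hv, h1⟩ := h.2 1 ‖y‖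
  refine Summable.of_norm_bounded hv fun n => ?_
  have := h1 n y le_rfl
  rwa [norm_iteratedFDeriv_one] at this

theorem S04_Hyp.hasFDerivAt {d : ℕ → V N → ℝ} (h : S04_Hyp d) (y : V N) :
    HasFDerivAt (fun y => ∑' n, d n y) (∑' n, fderiv ℝ (d n) y) y := by
  obtain ⟨v, hv, h1⟩ := h.2 1 (‖y‖ + 1)
  have hy : y ∈ Metric.ball (0 : V N) (‖y‖ + 1) := by
    rw [mem_ball_zero_iff]
    exact lt_add_one _
  refine hasFDerivAt_tsum_of_isPreconnected (x₀ := y) hv Metric.isOpen_ball
    (convex_ball (0 : V N) (‖y‖ + 1)).isPreconnected (fun n x _ => ?_) (fun n x hx => ?_) hy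
    (h.summable y) hy
  · exact ((h.1 n).differentiable (by simp) x).hasFDerivAt
  · rw [mem_ball_zero_iff] at hx
    have := h1 n x hx.le
    rwa [norm_iteratedFDeriv_one] at this

theorem S04_Hyp.pd_eq {d : ℕ → V N → ℝ} (h : S04_Hyp d) (μ : Fin N) :
    RL.pd μ (fun y => ∑' n, d n y) = fun y => ∑' n, RL.pd μ (d n) y := by
  funext y
  change fderiv ℝ (fun y => ∑' n, d n y) y (bv μ) = ∑' n, fderiv ℝ (d n) y (bv μ)
  rw [(h.hasFDerivAt y).fderiv]
  exact (ContinuousLinearMap.apply ℝ ℝ (bv μ : V N)).map_tsum (h.summable_fderiv y)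

theorem S04_Hyp.hasSum {d : ℕ → V N → ℝ} (h : S04_Hyp d) (l : List (Fin N)) (y : V N) :
    HasSum (fun n => pds l (d n) y) (pds l (fun y => ∑' n, d n y) y) := by
  induction l generalizing d with
  | nil => exact (h.summable y).hasSum
  | cons μ l ih =>
    have h1 := ih (h.pd μ)
    rw [← h.pd_eq μ] at h1
    exact h1

theorem S04_sum_bv (y : V N) : y = ∑ μ, y μ • (bv μ : V N) := by
  ext ν
  have h1 : ∀ μ : Fin N, (y μ • (bv μ : V N)) ν = if ν = μ then y μ else 0 := by
    intro μ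
    unfold bv
    simp
  simp only [WithLp.ofLp_sum, Finset.sum_apply, h1]
  simp

theorem S04_Hyp.contDiff {d : ℕ → V N → ℝ} (h : S04_Hyp d) (k : ℕ) :
    ContDiff ℝ k (fun y => ∑' n, d n y) := by
  induction k generalizing d with
  | zero =>
    have h1 : Continuous fun y => ∑' n, d n y :=
      continuous_iff_continuousAt.2 fun y => (h.hasFDerivAt y).continuousAt
    exact contDiff_zero.2 h1
  | succ k ih =>
    have h0 : ((k + 1 : ℕ) : ℕ∞ω) = (k : ℕ∞ω) + 1 := by push_cast; rfl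
    rw [h0, contDiff_succ_iff_fderiv_apply]
    refine ⟨fun y => (h.hasFDerivAt y).differentiableAt, fun h2 => ?_, fun v => ?_⟩
    · exact absurd h2 (by simp)
    · have h3 : (fun x => fderiv ℝ (fun y => ∑' n, d n y) x v) =
          fun x => ∑ μ, v μ * RL.pd μ (fun y => ∑' n, d n y) x := by
        funext x
        conv_lhs => rw [S04_sum_bv v]
        rw [map_sum]
        refine Finset.sum_congr rfl fun μ _ => ?_
        rw [map_smul, smul_eq_mul]
        rfl
      rw [h3]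
      refine ContDiff.sum fun μ _ => contDiff_const.mul ?_
      rw [h.pd_eq μ]
      exact ih (h.pd μ)

theorem series_smooth (d : ℕ → V N → ℝ) (hd : ∀ n, ContDiff ℝ ∞ (d n))
    (hs : ∀ (k : ℕ) (r : ℝ), ∃ v : ℕ → ℝ, Summable v ∧
      ∀ n y, ‖y‖ ≤ r → ‖iteratedFDeriv ℝ k (d n) y‖ ≤ v n) :
    ContDiff ℝ ∞ (fun y => ∑' n, d n y) ∧
      ∀ (l : List (Fin N)) (y : V N),
        HasSum (fun n => pds l (d n) y) (pds l (fun y => ∑' n, d n y) y) := by
  have h : S04_Hyp d := ⟨hd, hs⟩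
  exact ⟨contDiff_infty.2 fun k => h.contDiff k, fun l y => h.hasSum l y⟩

end Pool.Agent.Lib.MP_df705a_gt.RL
end
end

section

/-!
TASK S07A (theorems aInt_nonneg, aInt_summable, zInt_meas). The expectation of `zInt`.

PROOFS.
* `aInt_nonneg`, `aInt_summable`: `0 ≤ aInt`; the finite sums of `aInt h q r` are
  `∑_c ∑_l ∫_B ∑_{i ∈ s} (pds l (h c i) v)²` (`integral_finset_sum`, continuous functions on a
  compact ball), bounded by `∑_c ∑_l C_{c,l} * vol B` by `SqBdd`; `summable_of_sum_le`.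
* `zInt_meas`: for each `c, l` the function `(x, v) ↦ |∑ i ∈ t, ε i x * pds l (h c i) v|` is
  (jointly) measurable; `StronglyMeasurable.integral_prod_right'` (measurable real functions are
  strongly measurable), sums of measurable functions.
* `zInt_le`: Let `B = closedBall 0 r`. `∫⁻ x, ofReal (zInt ..) ≤ ∑_c ∑_l ∫⁻ x, ∫⁻ v in B, ‖g(x,v)‖ₑ`
  with `g(x,v) = ∑ i ∈ t, ε i x * pds l (h c i) v` (`ENNReal.ofReal_sum_of_nonneg`,
  `ofReal_integral_eq_lintegral_ofReal` or `ofReal_integral_norm_eq_lintegral_enorm`).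
  Tonelli (`lintegral_lintegral_swap`): `= ∑∑ ∫⁻ v in B, ∫⁻ x, ‖g(x,v)‖ₑ`, and
  `∫⁻ x, ‖g(x,v)‖ₑ = eLpNorm (g(·,v)) 1 P ≤ ofReal (K sqrt(∑ i ∈ t, (pds l (h c i) v)²))`
  (`IsSigns.eLpNorm_le` for `q = 1`). Then Cauchy-Schwarz: `∫⁻ v in B, ofReal (sqrt (F v)) =
  ofReal ∫_B sqrt F ≤ ofReal (sqrt (vol B) sqrt (∫_B F))` for the continuous `F ≥ 0`
  (`(∫_B sqrt F)² ≤ vol B * ∫_B F`: `inner_mul_le_norm_mul_norm` in `L²`, or integrate
  `2 λ sqrt F ≤ λ² + F` and optimise, or `ENNReal.lintegral_mul_le_Lp_mul_Lq`). Finally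
  `∫_B F = ∑ i ∈ t, ∫_B (pds l (h c i))² ≤ ∑ i ∈ t, aInt h q r i`; the sum over `c, l` has
  `card κ * card (lists N q)` terms.
-/

open scoped ContDiff InnerProductSpace Matrix
open MeasureTheory Filter Topology

noncomputable section

namespace Pool.Agent.Lib.MP_df705a_gt.RL

variable {N : ℕ} {κ I X : Type*} [Fintype κ] [MeasurableSpace X] {P : Measure X}
  [IsProbabilityMeasure P] {ε : I → X → ℝ} {h : κ → I → V N → ℝ}

omit [Fintype κ] in
theorem S07A_cont (hh : ∀ c i, ContDiff ℝ ∞ (h c i)) (c : κ) (i : I) (l : List (Fin N)) :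
    Continuous (pds l (h c i)) :=
  (contDiff_pds (hh c i) l).continuous

theorem aInt_nonneg (h : κ → I → V N → ℝ) (q : ℕ) (r : ℝ) (i : I) : 0 ≤ aInt h q r i := by
  unfold aInt
  exact Finset.sum_nonneg fun c _ => Finset.sum_nonneg fun l _ => integral_nonneg fun v =>
    sq_nonneg _

theorem aInt_summable (hh : ∀ c i, ContDiff ℝ ∞ (h c i)) (hb : SqBdd h) (q : ℕ) (r : ℝ) :
    Summable (aInt h q r) := by
  choose C hC using hb
  have hint : ∀ (f : V N → ℝ), Continuous f → IntegrableOn f (Metric.closedBall (0 : V N) r) :=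
    fun f hf => hf.continuousOn.integrableOn_compact (isCompact_closedBall _ _)
  refine summable_of_sum_le (c := ∑ c, ∑ l ∈ lists N q,
    ∫ v in Metric.closedBall (0 : V N) r, C c l r) (aInt_nonneg h q r) fun s => ?_
  unfold aInt
  rw [Finset.sum_comm]
  refine Finset.sum_le_sum fun c _ => ?_
  rw [Finset.sum_comm]
  refine Finset.sum_le_sum fun l _ => ?_
  have h1 : ∀ i ∈ s, Integrable (fun v => pds l (h c i) v ^ 2)
      (volume.restrict (Metric.closedBall (0 : V N) r)) :=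
    fun i _ => hint _ ((S07A_cont hh c i l).pow 2)
  rw [← integral_finsetSum s h1]
  refine setIntegral_mono_on (hint _ (continuous_finsetSum s fun i _ =>
    (S07A_cont hh c i l).pow 2)) (hint _ continuous_const) Metric.isClosed_closedBall.measurableSet
    fun v hv => ?_
  exact hC c l r v (mem_closedBall_zero_iff.1 hv) s

omit [Fintype κ] in
theorem S07A_joint (hε : ∀ i, Measurable (ε i)) (hh : ∀ c i, ContDiff ℝ ∞ (h c i)) (c : κ)
    (l : List (Fin N)) (t : Finset I) :
    Measurable fun p : X × V N => ∑ i ∈ t, ε i p.1 * pds l (h c i) p.2 :=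
  Finset.measurable_fun_sum t fun i _ => ((hε i).comp measurable_fst).mul
    ((S07A_cont hh c i l).measurable.comp measurable_snd)

omit [Fintype κ] in
theorem S07A_meas (hε : ∀ i, Measurable (ε i)) (hh : ∀ c i, ContDiff ℝ ∞ (h c i)) (r : ℝ) (c : κ)
    (l : List (Fin N)) (t : Finset I) :
    Measurable fun x => ∫ v in Metric.closedBall 0 r, |∑ i ∈ t, ε i x * pds l (h c i) v| := by
  have h1 : Measurable fun p : X × V N => |∑ i ∈ t, ε i p.1 * pds l (h c i) p.2| :=
    continuous_abs.measurable.comp (S07A_joint hε hh c l t)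
  exact h1.stronglyMeasurable.integral_prod_right'.measurable

theorem zInt_meas (hε : ∀ i, Measurable (ε i)) (hh : ∀ c i, ContDiff ℝ ∞ (h c i)) (q : ℕ) (r : ℝ)
    (t : Finset I) : Measurable (zInt ε h q r t) := by
  unfold zInt
  exact Finset.measurable_fun_sum _ fun c _ => Finset.measurable_fun_sum _ fun l _ =>
    S07A_meas hε hh r c l t

end Pool.Agent.Lib.MP_df705a_gt.RL
end
end

section

/-!
TASK S07B (theorems zInt_le). The expectation of `zInt`.

PROOFS.
* `aInt_nonneg`, `aInt_summable`: `0 ≤ aInt`; the finite sums of `aInt h q r` are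
  `∑_c ∑_l ∫_B ∑_{i ∈ s} (pds l (h c i) v)²` (`integral_finset_sum`, continuous functions on a
  compact ball), bounded by `∑_c ∑_l C_{c,l} * vol B` by `SqBdd`; `summable_of_sum_le`.
* `zInt_meas`: for each `c, l` the function `(x, v) ↦ |∑ i ∈ t, ε i x * pds l (h c i) v|` is
  (jointly) measurable; `StronglyMeasurable.integral_prod_right'` (measurable real functions are
  strongly measurable), sums of measurable functions.
* `zInt_le`: Let `B = closedBall 0 r`. `∫⁻ x, ofReal (zInt ..) ≤ ∑_c ∑_l ∫⁻ x, ∫⁻ v in B, ‖g(x,v)‖ₑ`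
  with `g(x,v) = ∑ i ∈ t, ε i x * pds l (h c i) v` (`ENNReal.ofReal_sum_of_nonneg`,
  `ofReal_integral_eq_lintegral_ofReal` or `ofReal_integral_norm_eq_lintegral_enorm`).
  Tonelli (`lintegral_lintegral_swap`): `= ∑∑ ∫⁻ v in B, ∫⁻ x, ‖g(x,v)‖ₑ`, and
  `∫⁻ x, ‖g(x,v)‖ₑ = eLpNorm (g(·,v)) 1 P ≤ ofReal (K sqrt(∑ i ∈ t, (pds l (h c i) v)²))`
  (`IsSigns.eLpNorm_le` for `q = 1`). Then Cauchy-Schwarz: `∫⁻ v in B, ofReal (sqrt (F v)) =
  ofReal ∫_B sqrt F ≤ ofReal (sqrt (vol B) sqrt (∫_B F))` for the continuous `F ≥ 0`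
  (`(∫_B sqrt F)² ≤ vol B * ∫_B F`: `inner_mul_le_norm_mul_norm` in `L²`, or integrate
  `2 λ sqrt F ≤ λ² + F` and optimise, or `ENNReal.lintegral_mul_le_Lp_mul_Lq`). Finally
  `∫_B F = ∑ i ∈ t, ∫_B (pds l (h c i))² ≤ ∑ i ∈ t, aInt h q r i`; the sum over `c, l` has
  `card κ * card (lists N q)` terms.
-/

open scoped ContDiff InnerProductSpace Matrix
open MeasureTheory Filter Topology

noncomputable section

namespace Pool.Agent.Lib.MP_df705a_gt.RL

theorem S07B_cs {N : ℕ} (r : ℝ) {F : V N → ℝ} (hF : Continuous F) (h0 : ∀ v, 0 ≤ F v) :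
    ∫ v in Metric.closedBall (0 : V N) r, √(F v) ≤
      √((volume (Metric.closedBall (0 : V N) r)).toReal) *
        √(∫ v in Metric.closedBall (0 : V N) r, F v) := by
  have hint : ∀ (f : V N → ℝ), Continuous f → IntegrableOn f (Metric.closedBall (0 : V N) r) :=
    fun f hf => hf.continuousOn.integrableOn_compact (isCompact_closedBall _ _)
  obtain ⟨J, hJ⟩ : ∃ J, J = ∫ v in Metric.closedBall (0 : V N) r, √(F v) := ⟨_, rfl⟩
  obtain ⟨S, hS⟩ : ∃ S, S = ∫ v in Metric.closedBall (0 : V N) r, F v := ⟨_, rfl⟩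
  obtain ⟨W, hW⟩ : ∃ W, W = (volume (Metric.closedBall (0 : V N) r)).toReal := ⟨_, rfl⟩
  rw [← hJ, ← hS, ← hW]
  have hW0 : 0 ≤ W := by
    rw [hW]
    exact ENNReal.toReal_nonneg
  have key : ∀ x : ℝ, 0 ≤ W * (x * x) + (-2 * J) * x + S := by
    intro x
    have h1 : (0 : ℝ) ≤ ∫ v in Metric.closedBall (0 : V N) r, (x - √(F v)) ^ 2 :=
      integral_nonneg fun v => sq_nonneg _
    have h2 : ∫ v in Metric.closedBall (0 : V N) r, (x - √(F v)) ^ 2 =
        ∫ v in Metric.closedBall (0 : V N) r, (x * x + (-2 * x) * √(F v) + F v) := by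
      refine integral_congr_ae (Filter.Eventually.of_forall fun v => ?_)
      show (x - √(F v)) ^ 2 = x * x + (-2 * x) * √(F v) + F v
      have := Real.sq_sqrt (h0 v)
      linear_combination this
    have h3 : Continuous fun v => √(F v) := Real.continuous_sqrt.comp hF
    have h6 : ∫ v in Metric.closedBall (0 : V N) r, x * x = W * (x * x) := by
      rw [setIntegral_const, smul_eq_mul, hW]
      rfl
    have h7 : ∫ v in Metric.closedBall (0 : V N) r, (-2 * x) * √(F v) = (-2 * x) * J := by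
      rw [integral_const_mul, hJ]
    rw [h2, integral_add, integral_add, h6, h7, ← hS] at h1
    · linarith
    · exact hint _ continuous_const
    · exact hint _ (continuous_const.mul h3)
    · exact hint _ (continuous_const.add (continuous_const.mul h3))
    · exact hint _ hF
  have h5 := discrim_le_zero key
  unfold discrim at h5
  rw [← Real.sqrt_mul hW0]
  refine Real.le_sqrt_of_sq_le ?_
  linarith

variable {N : ℕ} {κ I X : Type*} [Fintype κ] [MeasurableSpace X] {P : Measure X}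
  [IsProbabilityMeasure P] {ε : I → X → ℝ} {h : κ → I → V N → ℝ}

omit [Fintype κ] in
theorem S07B_cont (hh : ∀ c i, ContDiff ℝ ∞ (h c i)) (c : κ) (i : I) (l : List (Fin N)) :
    Continuous (pds l (h c i)) :=
  (contDiff_pds (hh c i) l).continuous

omit [Fintype κ] in
theorem S07B_joint (hε : ∀ i, Measurable (ε i)) (hh : ∀ c i, ContDiff ℝ ∞ (h c i)) (c : κ)
    (l : List (Fin N)) (t : Finset I) :
    Measurable fun p : X × V N => ∑ i ∈ t, ε i p.1 * pds l (h c i) p.2 :=
  Finset.measurable_fun_sum t fun i _ => ((hε i).comp measurable_fst).mul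
    ((S07B_cont hh c i l).measurable.comp measurable_snd)

omit [Fintype κ] in
theorem S07B_meas (hε : ∀ i, Measurable (ε i)) (hh : ∀ c i, ContDiff ℝ ∞ (h c i)) (r : ℝ) (c : κ)
    (l : List (Fin N)) (t : Finset I) :
    Measurable fun x => ∫ v in Metric.closedBall 0 r, |∑ i ∈ t, ε i x * pds l (h c i) v| := by
  have h1 : Measurable fun p : X × V N => |∑ i ∈ t, ε i p.1 * pds l (h c i) p.2| :=
    continuous_abs.measurable.comp (S07B_joint hε hh c l t)
  exact h1.stronglyMeasurable.integral_prod_right'.measurable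

omit [Fintype κ] in
theorem S07B_term (hε : IsSigns P ε) (hh : ∀ c i, ContDiff ℝ ∞ (h c i)) (r : ℝ) {K : ℝ}
    (hK0 : 0 ≤ K) (hK : ∀ (s : Finset I) (a : I → ℝ), eLpNorm (fun x => ∑ i ∈ s, ε i x * a i)
      ((1 : ℕ) : ENNReal) P ≤ ENNReal.ofReal (K * √(∑ i ∈ s, a i ^ 2))) (c : κ)
    (l : List (Fin N)) (t : Finset I) :
    ∫⁻ x, ENNReal.ofReal (∫ v in Metric.closedBall 0 r, |∑ i ∈ t, ε i x * pds l (h c i) v|) ∂P ≤
      ENNReal.ofReal (K * √((volume (Metric.closedBall (0 : V N) r)).toReal) *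
        √(∑ i ∈ t, ∫ v in Metric.closedBall (0 : V N) r, pds l (h c i) v ^ 2)) := by
  have hint : ∀ (f : V N → ℝ), Continuous f → IntegrableOn f (Metric.closedBall (0 : V N) r) :=
    fun f hf => hf.continuousOn.integrableOn_compact (isCompact_closedBall _ _)
  have h1 : ∀ x, ENNReal.ofReal (∫ v in Metric.closedBall 0 r,
      |∑ i ∈ t, ε i x * pds l (h c i) v|) =
      ∫⁻ v in Metric.closedBall 0 r, ‖∑ i ∈ t, ε i x * pds l (h c i) v‖ₑ := by
    intro x
    have hc : Continuous fun v => ∑ i ∈ t, ε i x * pds l (h c i) v :=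
      continuous_finsetSum t fun i _ => continuous_const.mul (S07B_cont hh c i l)
    exact ofReal_integral_norm_eq_lintegral_enorm (hint _ hc)
  simp only [h1]
  have hm : AEMeasurable (Function.uncurry fun (x : X) (v : V N) =>
      ‖∑ i ∈ t, ε i x * pds l (h c i) v‖ₑ)
      (P.prod (volume.restrict (Metric.closedBall (0 : V N) r))) :=
    (S07B_joint hε.meas hh c l t).enorm.aemeasurable
  rw [lintegral_lintegral_swap hm]
  obtain ⟨F, hF⟩ : ∃ F : V N → ℝ, F = fun v => ∑ i ∈ t, pds l (h c i) v ^ 2 := ⟨_, rfl⟩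
  have hFc : Continuous F := by
    rw [hF]
    exact continuous_finsetSum t fun i _ => (S07B_cont hh c i l).pow 2
  have hF0 : ∀ v, 0 ≤ F v := by
    intro v
    rw [hF]
    exact Finset.sum_nonneg fun i _ => sq_nonneg _
  have h2 : ∀ v, ∫⁻ x, ‖∑ i ∈ t, ε i x * pds l (h c i) v‖ₑ ∂P ≤ ENNReal.ofReal (K * √(F v)) := by
    intro v
    have h3 := hK t fun i => pds l (h c i) v
    rw [Nat.cast_one, eLpNorm_one_eq_lintegral_enorm] at h3
    rw [hF]
    exact h3
  refine (lintegral_mono h2).trans ?_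
  have h5 : Continuous fun v => K * √(F v) := continuous_const.mul (Real.continuous_sqrt.comp hFc)
  rw [← ofReal_integral_eq_lintegral_ofReal (hint _ h5)
    (Filter.Eventually.of_forall fun v => mul_nonneg hK0 (Real.sqrt_nonneg _)),
    integral_const_mul, mul_assoc]
  refine ENNReal.ofReal_le_ofReal (mul_le_mul_of_nonneg_left ?_ hK0)
  refine (S07B_cs r hFc hF0).trans (le_of_eq ?_)
  congr 2
  have h4 : ∀ i ∈ t, Integrable (fun v => pds l (h c i) v ^ 2)
      (volume.restrict (Metric.closedBall (0 : V N) r)) :=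
    fun i _ => hint _ ((S07B_cont hh c i l).pow 2)
  rw [← integral_finsetSum t h4, hF]

theorem zInt_le (hε : IsSigns P ε) (hh : ∀ c i, ContDiff ℝ ∞ (h c i)) (q : ℕ) (r : ℝ) :
    ∃ K : ℝ, 0 ≤ K ∧ ∀ t : Finset I, ∫⁻ x, ENNReal.ofReal (zInt ε h q r t x) ∂P ≤
      ENNReal.ofReal (K * Real.sqrt (∑ i ∈ t, aInt h q r i)) := by
  obtain ⟨K, hK0, hK⟩ := hε.eLpNorm_le 1
  obtain ⟨W, hW⟩ : ∃ W, W = √((volume (Metric.closedBall (0 : V N) r)).toReal) := ⟨_, rfl⟩
  have hW0 : 0 ≤ W := by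
    rw [hW]
    exact Real.sqrt_nonneg _
  refine ⟨(Fintype.card κ : ℝ) * ((lists N q).card * (K * W)), by positivity, fun t => ?_⟩
  have hn : ∀ c l x, 0 ≤ ∫ v in Metric.closedBall (0 : V N) r,
      |∑ i ∈ t, ε i x * pds l (h c i) v| := fun c l x => integral_nonneg fun v => abs_nonneg _
  have h1 : ∀ x, ENNReal.ofReal (zInt ε h q r t x) = ∑ c, ∑ l ∈ lists N q,
      ENNReal.ofReal (∫ v in Metric.closedBall 0 r, |∑ i ∈ t, ε i x * pds l (h c i) v|) := by
    intro x
    unfold zInt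
    rw [ENNReal.ofReal_sum_of_nonneg fun c _ => Finset.sum_nonneg fun l _ => hn c l x]
    refine Finset.sum_congr rfl fun c _ => ?_
    rw [ENNReal.ofReal_sum_of_nonneg fun l _ => hn c l x]
  simp only [h1]
  rw [lintegral_finsetSum _ fun c _ => Finset.measurable_fun_sum _ fun l _ =>
    (S07B_meas hε.meas hh r c l t).ennreal_ofReal]
  obtain ⟨R, hR⟩ : ∃ R, R = √(∑ i ∈ t, aInt h q r i) := ⟨_, rfl⟩
  rw [← hR]
  have hR0 : 0 ≤ R := by
    rw [hR]
    exact Real.sqrt_nonneg _
  have h2 : ∀ c : κ, ∀ l ∈ lists N q, ∫⁻ x, ENNReal.ofReal (∫ v in Metric.closedBall 0 r,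
      |∑ i ∈ t, ε i x * pds l (h c i) v|) ∂P ≤ ENNReal.ofReal (K * W * R) := by
    intro c l hl
    refine (S07B_term hε hh r hK0 hK c l t).trans (ENNReal.ofReal_le_ofReal ?_)
    rw [← hW]
    refine mul_le_mul_of_nonneg_left ?_ (mul_nonneg hK0 hW0)
    rw [hR]
    refine Real.sqrt_le_sqrt (Finset.sum_le_sum fun i _ => ?_)
    unfold aInt
    have h3 : ∫ v in Metric.closedBall (0 : V N) r, pds l (h c i) v ^ 2 ≤
        ∑ l ∈ lists N q, ∫ v in Metric.closedBall (0 : V N) r, pds l (h c i) v ^ 2 :=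
      Finset.single_le_sum (f := fun l => ∫ v in Metric.closedBall (0 : V N) r,
        pds l (h c i) v ^ 2) (fun l _ => integral_nonneg fun v => sq_nonneg _) hl
    refine h3.trans ?_
    exact Finset.single_le_sum (f := fun c => ∑ l ∈ lists N q,
      ∫ v in Metric.closedBall (0 : V N) r, pds l (h c i) v ^ 2)
      (fun c _ => Finset.sum_nonneg fun l _ => integral_nonneg fun v => sq_nonneg _)
      (Finset.mem_univ c)
  calc ∑ c, ∫⁻ x, ∑ l ∈ lists N q, ENNReal.ofReal (∫ v in Metric.closedBall 0 r,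
        |∑ i ∈ t, ε i x * pds l (h c i) v|) ∂P
      ≤ ∑ c : κ, ∑ l ∈ lists N q, ENNReal.ofReal (K * W * R) := by
        refine Finset.sum_le_sum fun c _ => ?_
        rw [lintegral_finsetSum _ fun l _ => (S07B_meas hε.meas hh r c l t).ennreal_ofReal]
        exact Finset.sum_le_sum fun l hl => h2 c l hl
    _ = ENNReal.ofReal ((Fintype.card κ : ℝ) * ((lists N q).card * (K * W)) * R) := by
        rw [Finset.sum_const, Finset.sum_const, Finset.card_univ, nsmul_eq_mul, nsmul_eq_mul,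
          ← ENNReal.ofReal_natCast, ← ENNReal.ofReal_natCast, ← ENNReal.ofReal_mul (by positivity),
          ← ENNReal.ofReal_mul (by positivity)]
        congr 1
        ring

end Pool.Agent.Lib.MP_df705a_gt.RL
end
end

section

/-!
TASK S08. Almost sure convergence of the random series in `C^∞`.

PROOF. Notation: `q n = 2 n + N + 1`, `r n = n + 1`, `C n` = the maximum over `k ≤ n` of the constants
of `sobolev_loc N k n` (radius `n`; the ball there is `closedBall 0 (n+1)` and the lists are in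
`lists N (k+N+1) ⊆ lists N (q n)`, `mem_lists`), so for all smooth `f`, `k ≤ n`, `‖y‖ ≤ n`:
(1) `‖iteratedFDeriv ℝ k f y‖ ≤ C n * ∑ l ∈ lists N (q n), ∫_{B(n+1)} |pds l f|`.
`K n` = the constant of `zInt_le` for `q n, r n`. Apply `exists_exhaustion` to
`a n = aInt h (q n) (r n)` with `η n > 0` so small that `C n * (K n * sqrt (η n)) ≤ (1/2)^n`
(e.g. `η n = ((1/2)^n / ((C n + 1) * (K n + 1)))^2`). Let `t n = s (n+1) \ s n` (disjoint from `s n`),
`Z n x = C n * zInt ε h (q n) (r n) (t n) x ≥ 0`. So `∫⁻ ofReal (Z n) ≤ ofReal ((1/2)^n)`,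
`∫⁻ ∑' n, ofReal (Z n x) ≤ ∑' (1/2)^n < ∞` (`lintegral_tsum`), so
`A = {x | ∑' n, ofReal (Z n x) ≠ ∞}` is measurable with `P Aᶜ = 0` (`ae_lt_top`).
For `x ∈ A`, `c`: `d n y = ∑ i ∈ t n, ε i x * h c i y` is smooth, and for `k`, `r`, all
`n ≥ max k r`, `‖y‖ ≤ r`: `‖iteratedFDeriv ℝ k (d n) y‖ ≤ Z n x` by (1) and `pds_sum`, summable
(`ENNReal.ofReal` summable: `summable_of...`, `ENNReal.tsum_coe_ne_top_iff_summable`); for the
finitely many other `n` use a bound by compactness (continuity on `closedBall 0 r`). So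
`series_smooth` applies. Put `H c x y = ∑ i ∈ s 0, ε i x * h c i y + ∑' n, d n y` for `x ∈ A` and
`H c x = 0` for `x ∉ A`. Then for `x ∈ A`: `pds l (H c x) y = ∑ i ∈ s 0, .. + ∑' n, pds l (d n) y`
(`pds_sum` for a sum of two smooth functions, e.g. index type `Bool`) and
`∑_{i ∈ s 0} + ∑_{n < M} ∑_{i ∈ t n} = ∑_{i ∈ s M}` (`Finset.sum_sdiff`, induction), so the limit
statement is `HasSum.tendsto_sum_nat`. For `x ∉ A` both sides vanish (`pds l 0 = 0`, e.g. `pds_sum`
over the empty finset).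
-/

open scoped ContDiff InnerProductSpace Matrix
open MeasureTheory Filter Topology

noncomputable section

namespace Pool.Agent.Lib.MP_df705a_gt.RL

theorem S08_sob (N n : ℕ) : ∃ C : ℝ, 0 ≤ C ∧ ∀ f : V N → ℝ, ContDiff ℝ ∞ f → ∀ k ≤ n,
    ∀ y, ‖y‖ ≤ n → ‖iteratedFDeriv ℝ k f y‖ ≤
      C * ∑ l ∈ lists N (n + N + 1), ∫ v in Metric.closedBall 0 ((n : ℝ) + 1), |pds l f v| := by
  choose c hc0 hc using fun k => sobolev_loc N k (n : ℝ)
  refine ⟨∑ k ∈ Finset.range (n + 1), c k, Finset.sum_nonneg fun k _ => hc0 k,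
    fun f hf k hk y hy => (hc k f hf y hy).trans ?_⟩
  refine mul_le_mul ?_ ?_ ?_ (Finset.sum_nonneg fun k _ => hc0 k)
  · exact Finset.single_le_sum (fun k _ => hc0 k) (Finset.mem_range.2 (by omega))
  · refine Finset.sum_le_sum_of_subset_of_nonneg (fun l hl => ?_) fun l _ _ =>
      integral_nonneg fun v => abs_nonneg _
    rw [mem_lists] at hl ⊢
    omega
  · exact Finset.sum_nonneg fun l _ => integral_nonneg fun v => abs_nonneg _

theorem S08_pds_add {N : ℕ} {f g : V N → ℝ} (hf : ContDiff ℝ ∞ f) (hg : ContDiff ℝ ∞ g)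
    (l : List (Fin N)) (y : V N) :
    pds l (fun y => f y + g y) y = pds l f y + pds l g y := by
  have h1 := pds_sum (Finset.univ : Finset Bool) (fun _ => 1) (f := fun b => if b then f else g)
    (by
      intro b
      cases b
      · exact hg
      · exact hf) l y
  simpa using h1

theorem S08_pds_zero {N : ℕ} (l : List (Fin N)) (y : V N) :
    pds l (fun _ : V N => (0 : ℝ)) y = 0 := by
  have h1 := pds_sum (∅ : Finset Bool) (fun _ => 1) (f := fun _ _ => (0 : ℝ))
    (fun _ => contDiff_const) l y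
  simpa using h1

variable {N : ℕ} {κ I X : Type*} [Fintype κ] [Countable I] [MeasurableSpace X] {P : Measure X}
  [IsProbabilityMeasure P] {ε : I → X → ℝ} {h : κ → I → V N → ℝ}

omit [Countable I] [IsProbabilityMeasure P] in
theorem S08_meas (hε : IsSigns P ε) (C : ℕ → ℝ) (hh : ∀ c i, ContDiff ℝ ∞ (h c i))
    (t : ℕ → Finset I) (n : ℕ) :
    Measurable fun x => ENNReal.ofReal (C n * zInt ε h (n + N + 1) ((n : ℝ) + 1) (t n) x) :=
  (measurable_const.mul (zInt_meas hε.meas hh _ _ _)).ennreal_ofReal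

omit [Countable I] [MeasurableSpace X] in
theorem S08_zInt_nonneg (q : ℕ) (r : ℝ) (t : Finset I) (x : X) : 0 ≤ zInt ε h q r t x := by
  unfold zInt
  exact Finset.sum_nonneg fun c _ => Finset.sum_nonneg fun l _ => integral_nonneg fun v =>
    abs_nonneg _

omit [Countable I] [MeasurableSpace X] in
theorem S08_bd {n : ℕ} {C : ℝ} (hC0 : 0 ≤ C) (hC : ∀ f : V N → ℝ, ContDiff ℝ ∞ f → ∀ k ≤ n,
    ∀ y, ‖y‖ ≤ n → ‖iteratedFDeriv ℝ k f y‖ ≤
      C * ∑ l ∈ lists N (n + N + 1), ∫ v in Metric.closedBall 0 ((n : ℝ) + 1), |pds l f v|)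
    (hh : ∀ c i, ContDiff ℝ ∞ (h c i)) (t : Finset I) (x : X) (c : κ) {k : ℕ} (hk : k ≤ n)
    {y : V N} (hy : ‖y‖ ≤ n) :
    ‖iteratedFDeriv ℝ k (fun y => ∑ i ∈ t, ε i x * h c i y) y‖ ≤
      C * zInt ε h (n + N + 1) ((n : ℝ) + 1) t x := by
  refine (hC _ (ContDiff.sum fun i _ => contDiff_const.mul (hh c i)) k hk y hy).trans ?_
  refine mul_le_mul_of_nonneg_left ?_ hC0
  have e : ∀ l v, pds l (fun y => ∑ i ∈ t, ε i x * h c i y) v
      = ∑ i ∈ t, ε i x * pds l (h c i) v := fun l v => pds_sum t (fun i => ε i x) (hh c) l v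
  simp only [e]
  unfold zInt
  exact Finset.single_le_sum (f := fun c => ∑ l ∈ lists N (n + N + 1),
    ∫ v in Metric.closedBall (0 : V N) ((n : ℝ) + 1), |∑ i ∈ t, ε i x * pds l (h c i) v|)
    (fun c _ => Finset.sum_nonneg fun l _ => integral_nonneg fun v => abs_nonneg _)
    (Finset.mem_univ c)

omit [Countable I] [Fintype κ] [MeasurableSpace X] in
theorem S08_series {s : ℕ → Finset I} {t : ℕ → Finset I} (hs : ∀ n, Disjoint (s n) (t n))
    (hs1 : ∀ n (g : I → ℝ), ∑ i ∈ s (n + 1), g i = ∑ i ∈ s n, g i + ∑ i ∈ t n, g i)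
    (hh : ∀ c i, ContDiff ℝ ∞ (h c i)) (x : X) (c : κ) {Z : ℕ → ℝ} (hZ : Summable Z)
    (hb : ∀ (n k : ℕ) (y : V N), k ≤ n → ‖y‖ ≤ n →
      ‖iteratedFDeriv ℝ k (fun y => ∑ i ∈ t n, ε i x * h c i y) y‖ ≤ Z n) :
    ContDiff ℝ ∞ (fun y => ∑ i ∈ s 0, ε i x * h c i y + ∑' n, ∑ i ∈ t n, ε i x * h c i y) ∧
    ∀ l y, Tendsto (fun n => ∑ i ∈ s n, ε i x * pds l (h c i) y) atTop
      (𝓝 (pds l (fun y => ∑ i ∈ s 0, ε i x * h c i y + ∑' n, ∑ i ∈ t n, ε i x * h c i y) y)) := by
  have hd : ∀ u : Finset I, ContDiff ℝ ∞ (fun y => ∑ i ∈ u, ε i x * h c i y) := fun u =>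
    ContDiff.sum fun i _ => contDiff_const.mul (hh c i)
  obtain ⟨h1, h2⟩ := series_smooth (fun n y => ∑ i ∈ t n, ε i x * h c i y) (fun n => hd (t n)) (by
    intro k r
    obtain ⟨M, hM⟩ : ∃ M : ℕ, M = max k ⌈r⌉₊ := ⟨_, rfl⟩
    have hex : ∀ n, ∃ b : ℝ, ∀ y : V N, ‖y‖ ≤ r →
        ‖iteratedFDeriv ℝ k (fun y => ∑ i ∈ t n, ε i x * h c i y) y‖ ≤ b := by
      intro n
      have hc : Continuous (iteratedFDeriv ℝ k (fun y => ∑ i ∈ t n, ε i x * h c i y)) :=
        (hd (t n)).continuous_iteratedFDeriv (by exact_mod_cast le_top)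
      obtain ⟨b, hb'⟩ := (isCompact_closedBall (0 : V N) r).exists_bound_of_continuousOn
        hc.continuousOn
      exact ⟨b, fun y hy => hb' y (mem_closedBall_zero_iff.2 hy)⟩
    choose b hb' using hex
    refine ⟨fun n => if n < M then b n else Z n, ?_, ?_⟩
    · refine (summable_nat_add_iff M).1 ?_
      have e : (fun n => if n + M < M then b (n + M) else Z (n + M)) = fun n => Z (n + M) := by
        funext n
        rw [if_neg (by omega)]
      rw [e]
      exact (summable_nat_add_iff M).2 hZ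
    · intro n y hy
      show _ ≤ if n < M then b n else Z n
      split_ifs with hn
      · exact hb' n y hy
      · have h3 : k ≤ n := (le_max_left k ⌈r⌉₊).trans (by omega)
        have h4 : ⌈r⌉₊ ≤ n := (le_max_right k ⌈r⌉₊).trans (by omega)
        exact hb n k y h3 (hy.trans ((Nat.le_ceil r).trans (by exact_mod_cast h4))))
  refine ⟨(hd (s 0)).add h1, fun l y => ?_⟩
  rw [S08_pds_add (hd (s 0)) h1]
  have h5 := (h2 l y).tendsto_sum_nat.const_add (pds l (fun y => ∑ i ∈ s 0, ε i x * h c i y) y)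
  refine h5.congr fun M => ?_
  have e : ∀ u : Finset I, pds l (fun y => ∑ i ∈ u, ε i x * h c i y) y
      = ∑ i ∈ u, ε i x * pds l (h c i) y := fun u => pds_sum u (fun i => ε i x) (hh c) l y
  simp only [e]
  induction M with
  | zero => simp
  | succ M ih => rw [Finset.sum_range_succ, ← add_assoc, ih, hs1]

theorem exists_series (hε : IsSigns P ε) (hh : ∀ c i, ContDiff ℝ ∞ (h c i)) (hb : SqBdd h) :
    ∃ (s : ℕ → Finset I) (A : Set X) (H : κ → X → V N → ℝ), Monotone s ∧ (∀ i, ∃ n, i ∈ s n) ∧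
      MeasurableSet A ∧ P Aᶜ = 0 ∧ (∀ c x, ContDiff ℝ ∞ (H c x)) ∧
      ∀ c x l y, Tendsto (fun n => A.indicator (fun x => ∑ i ∈ s n, ε i x * pds l (h c i) y) x)
        atTop (𝓝 (pds l (H c x) y)) := by
  classical
  choose C hC0 hC using fun n => S08_sob N n
  choose K hK0 hK using fun n : ℕ => zInt_le hε hh (n + N + 1) ((n : ℝ) + 1)
  obtain ⟨s, hsm, hsu, hst⟩ := exists_exhaustion
    (fun n : ℕ => aInt h (n + N + 1) ((n : ℝ) + 1)) (fun n => aInt_summable hh hb _ _)
    (fun n => ((1 / 2) ^ n / ((C n + 1) * (K n + 1))) ^ 2) (fun n => by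
      have := hC0 n
      have := hK0 n
      positivity)
  obtain ⟨t, ht⟩ : ∃ t : ℕ → Finset I, t = fun n => s (n + 1) \ s n := ⟨_, rfl⟩
  have hdis : ∀ n, Disjoint (s n) (t n) := by
    intro n
    rw [ht]
    exact Finset.disjoint_sdiff
  have hs1 : ∀ n (g : I → ℝ), ∑ i ∈ s (n + 1), g i = ∑ i ∈ s n, g i + ∑ i ∈ t n, g i := by
    intro n g
    rw [ht, ← Finset.sum_sdiff (hsm (Nat.le_succ n))]
    exact add_comm _ _
  obtain ⟨Z, hZ⟩ : ∃ Z : ℕ → X → ℝ, Z = fun n x =>
    C n * zInt ε h (n + N + 1) ((n : ℝ) + 1) (t n) x := ⟨_, rfl⟩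
  have hZ0 : ∀ n x, 0 ≤ Z n x := by
    intro n x
    rw [hZ]
    exact mul_nonneg (hC0 n) (S08_zInt_nonneg _ _ _ _)
  have hZm : ∀ n, Measurable fun x => ENNReal.ofReal (Z n x) := by
    intro n
    rw [hZ]
    exact S08_meas hε C hh t n
  have hZi : ∀ n, ∫⁻ x, ENNReal.ofReal (Z n x) ∂P ≤ ENNReal.ofReal ((1 / 2) ^ n) := by
    intro n
    have h1 : ∀ x, ENNReal.ofReal (Z n x) = ENNReal.ofReal (C n) *
        ENNReal.ofReal (zInt ε h (n + N + 1) ((n : ℝ) + 1) (t n) x) := by
      intro x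
      rw [hZ]
      exact ENNReal.ofReal_mul (hC0 n)
    simp only [h1]
    rw [lintegral_const_mul _ (zInt_meas hε.meas hh _ _ _).ennreal_ofReal]
    refine (mul_le_mul_right (hK n (t n)) _).trans ?_
    rw [← ENNReal.ofReal_mul (hC0 n)]
    refine ENNReal.ofReal_le_ofReal ?_
    have h2 : √(∑ i ∈ t n, aInt h (n + N + 1) ((n : ℝ) + 1) i) ≤
        (1 / 2) ^ n / ((C n + 1) * (K n + 1)) := by
      have h3 := hC0 n
      have h4 := hK0 n
      refine Real.sqrt_le_iff.2 ⟨by positivity, ?_⟩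
      exact (hst n (t n) (hdis n).symm).le
    have h3 := hC0 n
    have h4 := hK0 n
    calc C n * (K n * √(∑ i ∈ t n, aInt h (n + N + 1) ((n : ℝ) + 1) i))
        ≤ (C n + 1) * ((K n + 1) * ((1 / 2) ^ n / ((C n + 1) * (K n + 1)))) := by
          gcongr
          · linarith
          · linarith
      _ = (1 / 2) ^ n := by
          have h5 : C n + 1 ≠ 0 := by positivity
          have h6 : K n + 1 ≠ 0 := by positivity
          field_simp
  obtain ⟨A, hA⟩ : ∃ A : Set X, A = {x | ∑' n, ENNReal.ofReal (Z n x) ≠ ⊤} := ⟨_, rfl⟩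
  have hTm : Measurable fun x => ∑' n, ENNReal.ofReal (Z n x) := Measurable.ennreal_tsum hZm
  have hAm : MeasurableSet A := by
    rw [hA]
    exact (hTm (measurableSet_singleton ⊤)).compl
  have hA0 : P Aᶜ = 0 := by
    have h1 : ∫⁻ x, ∑' n, ENNReal.ofReal (Z n x) ∂P ≠ ⊤ := by
      rw [lintegral_tsum fun n => (hZm n).aemeasurable]
      refine ne_top_of_le_ne_top ?_ (ENNReal.tsum_le_tsum hZi)
      rw [← ENNReal.ofReal_tsum_of_nonneg (fun n => by positivity) summable_geometric_two]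
      exact ENNReal.ofReal_ne_top
    have h2 := ae_lt_top hTm h1
    rw [hA]
    refine measure_mono_null ?_ (mem_ae_iff.1 h2)
    intro x hx h3
    exact hx (ne_of_lt h3)
  have hsum : ∀ x ∈ A, Summable fun n => Z n x := by
    intro x hx
    rw [hA] at hx
    have h1 := ENNReal.summable_toReal hx
    refine h1.congr fun n => ?_
    exact ENNReal.toReal_ofReal (hZ0 n x)
  have hser : ∀ x ∈ A, ∀ c : κ, _ := fun x hx c => S08_series (ε := ε) hdis hs1 hh x c (hsum x hx)
    (fun n k y hk hy => by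
      rw [hZ]
      exact S08_bd (hC0 n) (hC n) hh (t n) x c hk hy)
  refine ⟨s, A, fun c x y => if x ∈ A then
    ∑ i ∈ s 0, ε i x * h c i y + ∑' n, ∑ i ∈ t n, ε i x * h c i y else 0, hsm, hsu, hAm, hA0,
    fun c x => ?_, fun c x l y => ?_⟩
  · by_cases hx : x ∈ A
    · simp only [hx, if_true]
      exact (hser x hx c).1
    · simp only [hx, if_false]
      exact contDiff_const
  · by_cases hx : x ∈ A
    · simp only [hx, if_true, Set.indicator_of_mem hx]
      exact (hser x hx c).2 l y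
    · simp only [hx, if_false, Set.indicator_of_notMem hx, S08_pds_zero]
      exact tendsto_const_nhds

end Pool.Agent.Lib.MP_df705a_gt.RL
end
end

section

/-!
TASK S09A (theorems pds_meas). Measurability and pointwise moments of the limit.

PROOFS.
* `pds_meas`: `(x, y) ↦ pds l (H c x) y` is the pointwise limit of the measurable functions
  `(x, y) ↦ A.indicator (fun x => ∑ i ∈ s n, ε i x * pds l (h c i) y) x`
  (`measurable_of_tendsto_metrizable`, `tendsto_pi_nhds`); measurability of those: the function is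
  `(Prod.fst ⁻¹' A).indicator (fun p => ∑ ..)`, `Measurable.indicator`.
* `eLpNorm_pds_le`: by Fatou (`Lp.eLpNorm_lim_le_liminf_eLpNorm`) and `IsSigns.eLpNorm_le` (the
  indicator makes the norm smaller: `eLpNorm_indicator_le`, or `eLpNorm_mono`).
* `lim_of_approx`: fix `c y p`, `K` of `IsSigns.eLpNorm_le`. `∑ i, h c i y ^ 2` is summable
  (`hb` with `l = []`, `summable_of_sum_le`). Let `δ > 0`; choose a finset `s₀` with
  `∑ i ∈ t, h c i y ^ 2 < δ` for `t` disjoint from `s₀` (`summable_iff_vanishing_norm`). For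
  `s ⊇ s₀`: `H c x y - ∑ i ∈ s, ε i x * h c i y` is for almost every `x` (all `x ∈ A`) the limit of
  `∑ i ∈ s n, .. - ∑ i ∈ s, .. = ∑ i ∈ s n \ s, ..` for `n` large (such that `s ⊆ s n`), and these have
  `eLpNorm ≤ ofReal (K sqrt δ)`; Fatou again. `ENNReal.tendsto_nhds_zero`.
-/

open scoped ContDiff InnerProductSpace Matrix
open MeasureTheory Filter Topology

noncomputable section

namespace Pool.Agent.Lib.MP_df705a_gt.RL

variable {N : ℕ} {κ I X : Type*} [Countable I] [MeasurableSpace X] {P : Measure X}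
  [IsProbabilityMeasure P] {ε : I → X → ℝ} {h : κ → I → V N → ℝ} {H : κ → X → V N → ℝ}

theorem pds_meas (hε : ∀ i, Measurable (ε i)) (hh : ∀ c i, ContDiff ℝ ∞ (h c i))
    {s : ℕ → Finset I} {A : Set X} (hA : MeasurableSet A)
    (hl : ∀ c x l y, Tendsto (fun n => A.indicator (fun x => ∑ i ∈ s n, ε i x * pds l (h c i) y) x)
      atTop (𝓝 (pds l (H c x) y))) (c : κ) (l : List (Fin N)) :
    Measurable fun p : X × V N => pds l (H c p.1) p.2 := by
  refine measurable_of_tendsto_metrizable (f := fun n (p : X × V N) =>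
    A.indicator (fun x => ∑ i ∈ s n, ε i x * pds l (h c i) p.2) p.1) (fun n => ?_)
    (tendsto_pi_nhds.2 fun p => hl c p.1 l p.2)
  have h1 : Measurable ((Prod.fst ⁻¹' A : Set (X × V N)).indicator
      fun p => ∑ i ∈ s n, ε i p.1 * pds l (h c i) p.2) := by
    refine Measurable.indicator ?_ (measurable_fst hA)
    exact Finset.measurable_fun_sum _ fun i _ => ((hε i).comp measurable_fst).mul
      (((contDiff_pds (hh c i) l).continuous.measurable).comp measurable_snd)
  exact h1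

end Pool.Agent.Lib.MP_df705a_gt.RL
end
end
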