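import Pool.Agent.Lib.MP_df705a_gt.Mg.G030
import Pool.Agent.Lib.MP_df705a_gt.Mg.G032

section

/-!
# RL2, K0: Clifford matrices, the facts used elsewhere
-/

open scoped ContDiff InnerProductSpace Matrix ENNReal
open MeasureTheory

noncomputable section

namespace Pool.Agent.Lib.MP_df705a_gt.RL

variable {m : ℕ}

/-! ### abstract Clifford identities -/

section abstractK0

variable {N : ℕ} {A : Type*} [Ring A] [Algebra ℂ A]

private theorem K0_cyc {c : Fin N → A} (h : IsCliff c) (p q r : Fin N) :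
    c q * c r * c p = c p * c q * c r + (if q = p then (2 : ℂ) else 0) • c r
      - (if r = p then (2 : ℂ) else 0) • c q := by
  have h1 := comm_cc h q r p
  rw [sub_eq_iff_eq_add] at h1
  rw [h1, ← mul_assoc]
  abel

private theorem K0_rot (f : Fin N → Fin N → Fin N → A) :
    ∑ p, ∑ q, ∑ r, f q r p = ∑ p, ∑ q, ∑ r, f p q r := by
  rw [Finset.sum_comm]
  exact Finset.sum_congr rfl fun q _ => Finset.sum_comm

private theorem K0_X {c : Fin N → A} (h : IsCliff c) (G : Fin N → Fin N → Fin N → ℂ)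
    (h1 : ∀ p q r, G q p r = -G p q r) (hc : ∀ p q r, G p q r + G q r p + G r p q = 0) :
    ∑ p, ∑ q, ∑ r, G p q r • (c p * c q * c r) = (2 : ℂ) • ∑ q, (∑ p, G p q p) • c q := by
  have e1 : ∑ p, ∑ q, ∑ r, G p q r • (c p * c q * c r)
      = ∑ p, ∑ q, ∑ r, G q r p • (c q * c r * c p) :=
    (K0_rot fun p q r => G p q r • (c p * c q * c r)).symm
  have e2 : ∑ p, ∑ q, ∑ r, G p q r • (c p * c q * c r)
      = ∑ p, ∑ q, ∑ r, G r p q • (c r * c p * c q) :=
    K0_rot fun p q r => G r p q • (c r * c p * c q)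
  have a1 : ∀ p q r, G q r p • (c q * c r * c p) = G q r p • (c p * c q * c r)
      + ((if q = p then 2 * G q r p else 0) • c r
        - (if r = p then 2 * G q r p else 0) • c q) := by
    intro p q r
    rw [K0_cyc h p q r, add_sub_assoc]
    split_ifs <;> simp only [smul_sub, smul_add, smul_smul, zero_smul, smul_zero, mul_comm]
  have a2 : ∀ p q r, G r p q • (c r * c p * c q) = G r p q • (c p * c q * c r)
      + (if q = r then 2 * G r p q else 0) • c p := by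
    intro p q r
    have h3 : c r * c p * c q = c p * c q * c r - (if p = r then (2 : ℂ) else 0) • c q
      + (if q = r then (2 : ℂ) else 0) • c p := by
      rw [K0_cyc h r p q]; abel
    have h4 : G r p q • ((if p = r then (2 : ℂ) else 0) • c q) = 0 := by
      split_ifs with hp
      · have : G r p q = 0 := by
          have := h1 r p q
          subst hp
          have h5 : (2 : ℂ) * G p p q = 0 := by linear_combination this
          simpa using h5
        rw [this, zero_smul]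
      · rw [zero_smul, smul_zero]
    rw [h3, smul_add, smul_sub, h4, sub_zero]
    split_ifs <;> simp only [smul_smul, zero_smul, smul_zero, mul_comm]
  have t1 : ∑ p, ∑ q, ∑ r, (if q = p then 2 * G q r p else 0) • c r
      = ∑ q, ∑ p, (2 * G p q p) • c q := by
    rw [Finset.sum_comm (f := fun q p => (2 * G p q p) • c q)]
    refine Finset.sum_congr rfl fun p _ => ?_
    rw [Finset.sum_eq_single p]
    · simp
    · intro q _ hq
      simp [hq]
    · simp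
  have t2 : ∑ p, ∑ q, ∑ r, (if r = p then 2 * G q r p else 0) • c q
      = -∑ q, ∑ p, (2 * G p q p) • c q := by
    rw [Finset.sum_comm, ← Finset.sum_neg_distrib]
    refine Finset.sum_congr rfl fun q _ => ?_
    rw [← Finset.sum_neg_distrib]
    refine Finset.sum_congr rfl fun p _ => ?_
    rw [Finset.sum_eq_single p]
    · rw [if_pos rfl, h1 p q p, ← neg_smul]
      congr 1; ring
    · intro r _ hr
      simp [hr]
    · simp
  have t3 : ∑ p, ∑ q, ∑ r, (if q = r then 2 * G r p q else 0) • c p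
      = ∑ q, ∑ p, (2 * G p q p) • c q := by
    refine Finset.sum_congr rfl fun p _ => ?_
    refine Finset.sum_congr rfl fun q _ => ?_
    rw [Finset.sum_eq_single q]
    · simp
    · intro r _ hr
      rw [if_neg (fun h => hr h.symm), zero_smul]
    · simp
  have e3 : ∑ p, ∑ q, ∑ r, (G p q r + G q r p + G r p q) • (c p * c q * c r) = 0 := by
    simp only [hc, zero_smul, Finset.sum_const_zero]
  have e4 : (2 : ℂ) • ∑ q, (∑ p, G p q p) • c q = ∑ q, ∑ p, (2 * G p q p) • c q := by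
    rw [Finset.smul_sum]
    refine Finset.sum_congr rfl fun q _ => ?_
    rw [smul_smul, Finset.mul_sum, Finset.sum_smul]
  rw [e4]
  have e1' : ∑ p, ∑ q, ∑ r, G q r p • (c q * c r * c p)
      = ∑ p, ∑ q, ∑ r, G q r p • (c p * c q * c r) + (∑ q, ∑ p, (2 * G p q p) • c q
        - -∑ q, ∑ p, (2 * G p q p) • c q) := by
    simp only [a1, Finset.sum_add_distrib, Finset.sum_sub_distrib, t1, t2]
  have e2' : ∑ p, ∑ q, ∑ r, G r p q • (c r * c p * c q)
      = ∑ p, ∑ q, ∑ r, G r p q • (c p * c q * c r) + ∑ q, ∑ p, (2 * G p q p) • c q := by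
    simp only [a2, Finset.sum_add_distrib, t3]
  rw [e1'] at e1
  rw [e2'] at e2
  simp only [add_smul, Finset.sum_add_distrib] at e3
  set X := ∑ p, ∑ q, ∑ r, G p q r • (c p * c q * c r)
  set Y := ∑ p, ∑ q, ∑ r, G q r p • (c p * c q * c r)
  set Z := ∑ p, ∑ q, ∑ r, G r p q • (c p * c q * c r)
  set R := ∑ q, ∑ p, (2 * G p q p) • c q
  have h5 : (3 : ℂ) • X = (3 : ℂ) • R := by
    have h6 : (3 : ℂ) • X = X + X + X := by
      rw [show (3 : ℂ) = 1 + 1 + 1 by norm_num, add_smul, add_smul, one_smul]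
    have h7 : (3 : ℂ) • R = R + R + R := by
      rw [show (3 : ℂ) = 1 + 1 + 1 by norm_num, add_smul, add_smul, one_smul]
    rw [h6, h7]
    calc X + X + X = X + (Y + (R - -R)) + (Z + R) := by rw [← e1, ← e2]
      _ = (X + Y + Z) + (R + R + R) := by abel
      _ = R + R + R := by rw [e3, zero_add]
  have h6 := congrArg (fun x => (1 / 3 : ℂ) • x) h5
  simp only [smul_smul] at h6
  norm_num at h6
  exact h6

private theorem K0_pair (F : Fin N → Fin N → Fin N → Fin N → ℝ)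
    (h1 : ∀ c d a b, F d c a b = - F c d a b) (h2 : ∀ c d a b, F c d b a = - F c d a b)
    (hcyc : ∀ c d a b, F c d a b + F d b a c + F b c a d = 0) (c d a b : Fin N) :
    F c d a b = F a b c d := by
  linarith [hcyc c d a b, hcyc d a b c, hcyc a b c d, hcyc b c d a,
    h1 c d a b, h2 c d a b, h1 a b c d, h2 a b c d, h1 c a d b, h2 c a d b, h1 d b a c, h2 d b a c,
    h1 c b a d, h2 c b a d, h1 b c a d, h2 b c a d, h1 d a b c, h2 d a b c, h1 a d b c,
    h2 a d b c, h1 a c b d, h2 a c b d, h1 b d c a, h2 b d c a, h1 a c d b, h2 a c d b,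
    h1 b a c d, h2 b a c d, h1 d c a b, h2 d c a b, h2 a b d c, h2 c d b a, h1 c a b d,
    h2 c a b d, h1 b d a c, h2 b d a c, h1 a b d c, h1 c d b a]

private theorem K0_contr {c : Fin N → A} (h : IsCliff c)
    (F : Fin N → Fin N → Fin N → Fin N → ℝ)
    (h1 : ∀ c d a b, F d c a b = - F c d a b) (h2 : ∀ c d a b, F c d b a = - F c d a b)
    (hcyc : ∀ c d a b, F c d a b + F d b a c + F b c a d = 0) :
    ∑ p, ∑ q, ∑ a, ∑ b, (F p q a b : ℂ) • (c p * c q * (c a * c b))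
      = ((2 * ∑ a, ∑ p, F p a a p : ℝ) : ℂ) • (1 : A) := by
  have h0 : ∀ p q a, F p q a a = 0 := fun p q a => by linarith [h2 p q a a]
  have e1 : ∀ p q a b, (F p q a b : ℂ) • (c p * c q * (c a * c b))
      = -(((F p q a b : ℂ) • (c p * c q * c b)) * c a) := by
    intro p q a b
    by_cases hab : a = b
    · subst hab; rw [h0]; simp
    · rw [h.anti a b hab, smul_mul_assoc]
      simp only [mul_neg, smul_neg, mul_assoc]
  have e2 : ∑ p, ∑ q, ∑ a, ∑ b, (F p q a b : ℂ) • (c p * c q * (c a * c b))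
      = -∑ a, (∑ p, ∑ q, ∑ b, (F p q a b : ℂ) • (c p * c q * c b)) * c a := by
    simp only [e1, Finset.sum_neg_distrib, Finset.sum_mul]
    congr 1
    rw [Finset.sum_congr rfl fun q _ => Finset.sum_comm]
    rw [Finset.sum_comm]
  have e3 : ∀ a, ∑ p, ∑ q, ∑ b, (F p q a b : ℂ) • (c p * c q * c b)
      = (2 : ℂ) • ∑ q, (∑ p, (F p q a p : ℂ)) • c q := by
    intro a
    refine K0_X h (fun p q b => (F p q a b : ℂ)) ?_ ?_
    · intro p q r
      simp only [h1 p q a r]; push_cast; ring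
    · intro p q r
      exact_mod_cast hcyc p q a r
  set ρ : Fin N → Fin N → ℂ := fun q a => ∑ p, (F p q a p : ℂ) with hρ
  have hsym : ∀ q a, ρ q a = ρ a q := by
    intro q a
    simp only [hρ]
    refine Finset.sum_congr rfl fun p _ => ?_
    have : F p q a p = F p a q p := by
      rw [K0_pair F h1 h2 hcyc p q a p]
      linarith [h1 p a q p, h2 a p q p, h1 p a p q, h2 p a q p, h1 a p p q]
    rw [this]
  have e4 : ∑ a, (∑ q, ρ q a • c q) * c a = -(∑ a, ρ a a) • (1 : A) := by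
    have e5 : ∑ a, (∑ q, ρ q a • c q) * c a = ∑ a, ∑ q, ρ q a • (c q * c a) := by
      simp only [Finset.sum_mul, smul_mul_assoc]
    have e6 : ∑ a, ∑ q, ρ q a • (c q * c a) = ∑ a, ∑ q, ρ q a • (c a * c q) := by
      rw [Finset.sum_comm]
      refine Finset.sum_congr rfl fun q _ => Finset.sum_congr rfl fun a _ => ?_
      rw [hsym]
    have e7 : ∀ a q, ρ q a • (c q * c a) = -(ρ q a • (c a * c q))
        + (if q = a then -2 * ρ q a else 0) • (1 : A) := by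
      intro a q
      rw [ccc h q a, smul_add, smul_neg]
      split_ifs <;> simp only [smul_smul, mul_comm, zero_smul, smul_zero]
    have e8 : ∑ a, ∑ q, ρ q a • (c q * c a)
        = -(∑ a, ∑ q, ρ q a • (c a * c q)) + (-2 * ∑ a, ρ a a) • (1 : A) := by
      simp only [e7, Finset.sum_add_distrib, Finset.sum_neg_distrib]
      congr 1
      rw [Finset.mul_sum, Finset.sum_smul]
      refine Finset.sum_congr rfl fun a _ => ?_
      rw [Finset.sum_eq_single a]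
      · simp
      · intro q _ hq
        simp [hq]
      · simp
    rw [← e6] at e8
    rw [e5]
    set T := ∑ a, ∑ q, ρ q a • (c q * c a)
    have h5 : (2 : ℂ) • T = (2 : ℂ) • (-(∑ a, ρ a a) • (1 : A)) := by
      rw [two_smul]
      nth_rewrite 1 [e8]
      rw [smul_smul]
      have : (2 : ℂ) * -∑ a, ρ a a = -2 * ∑ a, ρ a a := by ring
      rw [this]
      abel
    have h6 := congrArg (fun x => (1 / 2 : ℂ) • x) h5
    simp only [smul_smul] at h6
    norm_num at h6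
    simpa using h6
  rw [e2]
  simp only [e3, smul_mul_assoc]
  rw [← Finset.smul_sum]
  have e9 : ∑ a, (∑ q, (∑ p, (F p q a p : ℂ)) • c q) * c a = -(∑ a, ρ a a) • (1 : A) := e4
  rw [e9, smul_smul, ← neg_smul]
  congr 1
  simp only [hρ]
  push_cast
  ring

private theorem K0_sq {c : Fin N → A} (h : IsCliff c) (x : Fin N → ℝ) :
    -(∑ a, (x a : ℂ) • c a) * (∑ a, (x a : ℂ) • c a) = ((∑ a, x a ^ 2 : ℝ) : ℂ) • (1 : A) := by
  set X : A := ∑ a, (x a : ℂ) • c a with hX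
  have e1 : X * X = ∑ a, ∑ b, ((x a : ℂ) * (x b : ℂ)) • (c a * c b) := by
    rw [hX, Finset.sum_mul_sum]
    simp only [smul_mul_smul_comm]
  have e2 : X * X = ∑ a, ∑ b, ((x a : ℂ) * (x b : ℂ)) • (c b * c a) := by
    rw [e1, Finset.sum_comm]
    refine Finset.sum_congr rfl fun a _ => Finset.sum_congr rfl fun b _ => ?_
    rw [mul_comm (x b : ℂ)]
  have e0 : ∀ a b, ((x a : ℂ) * (x b : ℂ)) • (c a * c b)
      = -(((x a : ℂ) * (x b : ℂ)) • (c b * c a))
        + (if a = b then -2 * ((x a : ℂ) * (x b : ℂ)) else 0) • (1 : A) := by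
    intro a b
    rw [ccc h a b, smul_add, smul_neg]
    split_ifs <;> simp only [smul_smul, mul_comm, zero_smul, smul_zero]
  have e3 : X * X = -(X * X) + (-2 * ∑ a, (x a : ℂ) ^ 2) • (1 : A) := by
    conv_lhs => rw [e1]
    rw [e2]
    simp only [e0, Finset.sum_add_distrib, Finset.sum_neg_distrib]
    congr 1
    rw [Finset.mul_sum, Finset.sum_smul]
    refine Finset.sum_congr rfl fun a _ => ?_
    rw [Finset.sum_eq_single a]
    · simp [sq]
    · intro b _ hb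
      rw [if_neg (fun h => hb h.symm), zero_smul]
    · simp
  have h5 : (2 : ℂ) • (-(X * X)) = (2 : ℂ) • ((∑ a, (x a : ℂ) ^ 2) • (1 : A)) := by
    rw [smul_neg, two_smul, smul_smul]
    nth_rewrite 1 [e3]
    rw [neg_mul, neg_smul]
    abel
  have h6 := congrArg (fun x => (1 / 2 : ℂ) • x) h5
  simp only [smul_smul] at h6
  norm_num at h6
  rw [neg_mul]
  push_cast
  simpa using h6

end abstractK0

theorem exists_cliff (m : ℕ) : Nonempty (Cliff m) := ⟨stdCliff m⟩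

private theorem K0_norm_le {A : En m} (h : adj A * A = 1) : ‖A‖ ≤ 1 := by
  refine ContinuousLinearMap.opNorm_le_bound A zero_le_one fun u => ?_
  have h1 : ‖A u‖ ^ 2 = ‖u‖ ^ 2 := by
    have h2 : ⟪A u, A u⟫_ℂ = ⟪u, u⟫_ℂ := by
      rw [← ContinuousLinearMap.adjoint_inner_right]
      have h3 : (adj A) (A u) = (adj A * A) u := rfl
      rw [h3, h]; rfl
    rw [inner_self_eq_norm_sq_to_K, inner_self_eq_norm_sq_to_K] at h2
    exact_mod_cast h2
  rw [one_mul]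
  exact le_of_sq_le_sq h1.le (norm_nonneg u)

namespace Cliff

variable (C : Cliff m)

theorem eps_sq : C.eps * C.eps = 1 := C.eps_mul_eps

/-- `‖eps u‖² = ⟪eps* eps u, u⟫ = ‖u‖²`. -/
theorem norm_eps_le : ‖C.eps‖ ≤ 1 :=
  K0_norm_le (by rw [C.adj_eps, C.eps_mul_eps])

/-- `‖c_a u‖² = ⟪c_a* c_a u, u⟫ = ‖u‖²`. -/
theorem norm_c_le (a : Fin (2 * m)) : ‖C.c a‖ ≤ 1 :=
  K0_norm_le (by rw [C.skew, neg_mul, C.sq, neg_neg])

theorem spin_comm {A : Mt (2 * m)} (hA : ∀ a b, A b a = - A a b) (b : Fin (2 * m)) :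
    C.spin A * C.c b - C.c b * C.spin A = ∑ a, (A a b : ℂ) • C.c a :=
  C.spin_comm_c hA b

theorem spin_lie {A A' : Mt (2 * m)} (hA : ∀ a b, A b a = - A a b) :
    C.spin A * C.spin A' - C.spin A' * C.spin A = C.spin (A * A' - A' * A) :=
  C.spin_comm_spin hA A'

theorem eps_spin (A : Mt (2 * m)) : C.eps * C.spin A = C.spin A * C.eps := C.eps_comm_spin A

theorem eps_two (A : Mt (2 * m)) : C.eps * C.two A = C.two A * C.eps := C.eps_comm_two A

/-- `(∑ x_a c_a)* (∑ x_a c_a) = ∑ x_a²`. -/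
theorem norm_vec (x : Fin (2 * m) → ℝ) (u : Sp m) :
    ‖∑ a, (x a : ℂ) • C.c a u‖ ^ 2 = (∑ a, x a ^ 2) * ‖u‖ ^ 2 := by
  set X : En m := ∑ a, (x a : ℂ) • C.c a with hX
  have h0 : ∑ a, (x a : ℂ) • C.c a u = X u := by
    rw [hX]; simp
  have h1 : adj X = -X := by
    rw [hX, adj_sum, ← Finset.sum_neg_distrib]
    refine Finset.sum_congr rfl fun a _ => ?_
    rw [adj_smul, C.skew, Complex.conj_ofReal, smul_neg]
  have h2 : -X * X = ((∑ a, x a ^ 2 : ℝ) : ℂ) • (1 : En m) := K0_sq C.isCliff x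
  rw [h0]
  have h3 : ⟪X u, X u⟫_ℂ = ((∑ a, x a ^ 2 : ℝ) : ℂ) * ⟪u, u⟫_ℂ := by
    rw [← ContinuousLinearMap.adjoint_inner_right]
    have h4 : (ContinuousLinearMap.adjoint X) (X u) = (adj X * X) u := rfl
    rw [h4, h1, h2]
    exact inner_smul_right _ _ _
  rw [inner_self_eq_norm_sq_to_K, inner_self_eq_norm_sq_to_K] at h3
  have h5 : (((‖X u‖ ^ 2 : ℝ)) : ℂ) = (((∑ a, x a ^ 2) * ‖u‖ ^ 2 : ℝ) : ℂ) := by
    rw [Complex.ofReal_mul, Complex.ofReal_pow, Complex.ofReal_pow]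
    exact h3
  exact Complex.ofReal_injective h5

theorem norm_two_le (A : Mt (2 * m)) : ‖C.two A‖ ≤ ∑ a, ∑ b, |A a b| := by
  unfold Cliff.two
  refine (norm_sum_le _ _).trans (Finset.sum_le_sum fun a _ => ?_)
  refine (norm_sum_le _ _).trans (Finset.sum_le_sum fun b _ => ?_)
  rw [norm_smul, Complex.norm_real, Real.norm_eq_abs]
  have h1 : ‖C.c a * C.c b‖ ≤ 1 := by
    refine (norm_mul_le _ _).trans ?_
    have := mul_le_mul (C.norm_c_le a) (C.norm_c_le b) (norm_nonneg _) zero_le_one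
    simpa using this
  exact mul_le_of_le_one_right (abs_nonneg _) h1

/-- The contraction of a tensor with the symmetries of a curvature tensor (first Bianchi identity in
the indices `c, d, b`).
Proof: for fixed `a`, `∑_{c,d,b} F_{cd;ab} c_c c_d c_b`: for pairwise different `c, d, b` the
products are invariant under cyclic permutations, so the sum vanishes by `hcyc`; for `b = c ≠ d`
resp. `b = d ≠ c` one has `c_c c_d c_c = c_d`, `c_c c_d c_d = - c_c`, so the sum is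
`2 ∑_{c,d} F_{cd;ac} c_d`. Since `F_{cd;aa} = 0`, `c_a c_b = - c_b c_a` for `a ≠ b`:
`∑ F_{cd;ab} c_c c_d c_a c_b = - ∑ F_{cd;ab} c_c c_d c_b c_a = - 2 ∑ F_{cd;ac} c_d c_a`, and
`ρ_{da} = ∑_c F_{cd;ac}` is symmetric (pair symmetry `F_{cd;ab} = F_{ab;cd}`, which follows from
the three symmetries), so `∑ ρ_{da} c_d c_a = - ∑ ρ_{aa}`. (Better prove it for an abstract ring
with elements satisfying the Clifford relations, `IsCliff` in KA1, and specialise.) -/
theorem contraction (F : Fin (2 * m) → Fin (2 * m) → Fin (2 * m) → Fin (2 * m) → ℝ)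
    (h1 : ∀ c d a b, F d c a b = - F c d a b) (h2 : ∀ c d a b, F c d b a = - F c d a b)
    (hcyc : ∀ c d a b, F c d a b + F d b a c + F b c a d = 0) :
    ∑ c, ∑ d, ∑ a, ∑ b, (F c d a b : ℂ) • (C.c c * C.c d * (C.c a * C.c b))
      = ((2 * ∑ a, ∑ c, F c a a c : ℝ) : ℂ) • (1 : En m) :=
  K0_contr C.isCliff F h1 h2 hcyc

end Cliff

end Pool.Agent.Lib.MP_df705a_gt.RL
end
end

section

/-!
# RL2, Y2: integration by parts
-/

open scoped ContDiff InnerProductSpace Matrix ENNReal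
open MeasureTheory

noncomputable section

namespace Pool.Agent.Lib.MP_df705a_gt.RL

variable {N m : ℕ}

/-- The integral of a derivative of a function with compact support is zero
(`integral_bilinear_hasLineDerivAt_right_eq_neg_left_of_integrable` or
`MeasureTheory.integral_fderiv...`). -/
theorem integral_pd_eq_zero {f : V N → ℂ} (hf : ContDiff ℝ 1 f) (hc : HasCompactSupport f)
    (μ : Fin N) : ∫ y, pd μ f y = 0 := by
  have h1 : Integrable fun y => pd μ f y := by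
    refine Continuous.integrable_of_hasCompactSupport ?_ ?_
    · exact (hf.continuous_fderiv (by norm_num)).clm_apply continuous_const
    · exact (hc.fderiv (𝕜 := ℝ)).comp_left (g := fun L : V N →L[ℝ] ℂ => L (bv μ)) rfl
  have h2 : Integrable f := hf.continuous.integrable_of_hasCompactSupport hc
  have h3 := integral_mul_fderiv_eq_neg_fderiv_mul_of_integrable (μ := (volume : Measure (V N)))
    (f := fun _ : V N => (1 : ℂ)) (g := f) (v := bv μ)
    (by simp) (by simpa [pd] using h1) (by simpa using h2)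
    (fun x _ => differentiableAt_const _) (fun x _ => (hf.differentiable (by norm_num)) x)
  simpa [pd] using h3

private theorem y2_cs {φ ψ : V (2 * m) → Sp m} (hφ : IsTF φ) :
    HasCompactSupport fun y => ⟪φ y, ψ y⟫_ℂ := by
  refine hφ.2.mono fun y hy => ?_
  rw [Function.mem_support] at hy ⊢
  intro h
  apply hy
  show ⟪φ y, ψ y⟫_ℂ = 0
  rw [h, inner_zero_left]

private theorem y2_ofr {r : V N → ℝ} (h : Differentiable ℝ r) (μ : Fin N) (y : V N) :
    pd μ (fun y => (r y : ℂ)) y = ((pd μ r y : ℝ) : ℂ) := by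
  unfold pd
  have h1 : HasFDerivAt (fun y => (r y : ℂ)) (Complex.ofRealCLM.comp (fderiv ℝ r y)) y :=
    Complex.ofRealCLM.hasFDerivAt.comp y (h y).hasFDerivAt
  rw [h1.fderiv]
  rfl

private theorem y2_pdmul {r : V N → ℝ} (h : Differentiable ℝ r) {f : V N → ℂ}
    (h' : Differentiable ℝ f) (μ : Fin N) (y : V N) :
    pd μ (fun y => (r y : ℂ) * f y) y = ((pd μ r y : ℝ) : ℂ) * f y + (r y : ℂ) * pd μ f y := by
  have h1 : Differentiable ℝ fun y => (r y : ℂ) :=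
    Complex.ofRealCLM.differentiable.comp h
  rw [← y2_ofr h]
  unfold pd
  rw [fderiv_fun_mul (h1 y) (h' y)]
  show (r y : ℂ) * (fderiv ℝ f y (bv μ)) + f y * (fderiv ℝ (fun y => (r y : ℂ)) y (bv μ)) = _
  ring

private theorem y2_int (g : Geo (2 * m)) {φ ψ : V (2 * m) → Sp m} (hφ : IsTF φ) (hψ : IsTF ψ) :
    Integrable (fun y => ⟪φ y, ψ y⟫_ℂ) g.vol :=
  (hφ.1.continuous.inner hψ.1.continuous).integrable_of_hasCompactSupport (y2_cs hφ)

private theorem y2_conn (C : Cliff m) (g : Geo (2 * m)) (B : Pot (2 * m)) (μ : Fin (2 * m))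
    (y : V (2 * m)) (u v : Sp m) :
    ⟪C.conn g B μ y u, v⟫_ℂ = - ⟪u, C.conn g B μ y v⟫_ℂ := by
  have h1 : ⟪C.spin (g.Γ μ y) u, v⟫_ℂ = - ⟪u, C.spin (g.Γ μ y) v⟫_ℂ := by
    have h := C.adj_spin (g.anti μ y)
    rw [← ContinuousLinearMap.adjoint_inner_right, show
      ContinuousLinearMap.adjoint (C.spin (g.Γ μ y)) = - C.spin (g.Γ μ y) from h]
    show ⟪u, -(C.spin (g.Γ μ y) v)⟫_ℂ = _
    rw [inner_neg_right]
  have h2 : ∀ w : Sp m, C.conn g B μ y w
      = C.spin (g.Γ μ y) w + (Complex.I * (B μ y : ℂ)) • w := fun w => rfl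
  rw [h2, h2, inner_add_left, inner_add_right, h1, inner_smul_left, inner_smul_right, map_mul,
    Complex.conj_I, Complex.conj_ofReal]
  ring

/-- The adjoint of `∇_{e_a}`. Proof: `conn` is skew-adjoint (`adj_spin`, `i B_μ` is imaginary), so
`ρ ⟪∇_{e_a} φ, ψ⟫ + ρ ⟪φ, ∇_{e_a} ψ⟫ = ρ ∑_μ e_a^μ ∂_μ ⟪φ, ψ⟫
= ∑_μ ∂_μ (ρ e_a^μ ⟪φ, ψ⟫) - ρ dv_a ⟪φ, ψ⟫` (`div_frame`); integrate (`integral_vol`). -/
theorem nabE_adj (C : Cliff m) (g : Geo (2 * m)) {B : Pot (2 * m)} (hB : IsPot B)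
    (a : Fin (2 * m)) {φ ψ : V (2 * m) → Sp m} (hφ : IsTF φ) (hψ : IsTF ψ) :
    ∫ y, ⟪C.nabE g B a φ y, ψ y⟫_ℂ ∂g.vol
      = - ∫ y, ⟪φ y, C.nabE g B a ψ y + (g.dv a y : ℂ) • ψ y⟫_ℂ ∂g.vol := by
  have hφd : Differentiable ℝ φ := hφ.1.differentiable (by simp)
  have hψd : Differentiable ℝ ψ := hψ.1.differentiable (by simp)
  have hin : ContDiff ℝ ∞ fun y => ⟪φ y, ψ y⟫_ℂ := hφ.1.inner ℂ hψ.1
  have hcc : HasCompactSupport fun y => ⟪φ y, ψ y⟫_ℂ := y2_cs hφ
  have hre : ∀ μ, ContDiff ℝ ∞ fun y => (g.θ y).det * g.e y μ a := fun μ =>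
    g.contDiff_det.mul (g.smooth_e μ a)
  have hF : ∀ μ, ContDiff ℝ ∞ fun y => (((g.θ y).det * g.e y μ a : ℝ) : ℂ) * ⟪φ y, ψ y⟫_ℂ :=
    fun μ => (Complex.ofRealCLM.contDiff.comp (hre μ)).mul hin
  have h1 : ∀ μ, ∫ y, pd μ (fun y => (((g.θ y).det * g.e y μ a : ℝ) : ℂ) * ⟪φ y, ψ y⟫_ℂ) y = 0 :=
    fun μ => integral_pd_eq_zero ((hF μ).of_le (by simp)) hcc.mul_left μ
  have h2 : ∀ μ, Integrable
      (pd μ (fun y => (((g.θ y).det * g.e y μ a : ℝ) : ℂ) * ⟪φ y, ψ y⟫_ℂ)) volume := by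
    intro μ
    refine Continuous.integrable_of_hasCompactSupport (contDiff_pd (hF μ) μ).continuous ?_
    exact ((hcc.mul_left).fderiv (𝕜 := ℝ)).comp_left
      (g := fun L : V (2 * m) →L[ℝ] ℂ => L (bv μ)) rfl
  have h3 : ∀ y, ∑ μ, pd μ (fun y => (((g.θ y).det * g.e y μ a : ℝ) : ℂ) * ⟪φ y, ψ y⟫_ℂ) y
      = (g.θ y).det • ⟪C.nabE g B a φ y, ψ y⟫_ℂ
        + (g.θ y).det • ⟪φ y, C.nabE g B a ψ y + (g.dv a y : ℂ) • ψ y⟫_ℂ := by
    intro y
    have e1 : ∀ μ, pd μ (fun y => (((g.θ y).det * g.e y μ a : ℝ) : ℂ) * ⟪φ y, ψ y⟫_ℂ) y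
        = ((pd μ (fun y => (g.θ y).det * g.e y μ a) y : ℝ) : ℂ) * ⟪φ y, ψ y⟫_ℂ
          + ((g.θ y).det : ℂ) * ((g.e y μ a : ℂ) * (⟪φ y, pd μ ψ y⟫_ℂ + ⟪pd μ φ y, ψ y⟫_ℂ)) := by
      intro μ
      rw [y2_pdmul ((hre μ).differentiable (by simp)) (hin.differentiable (by simp)) μ y]
      have e0 : pd μ (fun y => ⟪φ y, ψ y⟫_ℂ) y = ⟪φ y, pd μ ψ y⟫_ℂ + ⟪pd μ φ y, ψ y⟫_ℂ :=
        fderiv_inner_apply ℂ (hφd y) (hψd y) (bv μ)
      rw [e0]
      push_cast
      ring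
    have e2 : ∀ (χ : V (2 * m) → Sp m) (u : Sp m), ⟪C.nabE g B a χ y, u⟫_ℂ
        = ∑ μ, (g.e y μ a : ℂ) * (⟪pd μ χ y, u⟫_ℂ + ⟪C.conn g B μ y (χ y), u⟫_ℂ) := by
      intro χ u
      unfold Cliff.nabE Cliff.nab
      rw [sum_inner]
      refine Finset.sum_congr rfl fun μ _ => ?_
      rw [inner_smul_left, inner_add_left, Complex.conj_ofReal]
    have e3 : ∀ (χ : V (2 * m) → Sp m) (u : Sp m), ⟪u, C.nabE g B a χ y⟫_ℂ
        = ∑ μ, (g.e y μ a : ℂ) * (⟪u, pd μ χ y⟫_ℂ + ⟪u, C.conn g B μ y (χ y)⟫_ℂ) := by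
      intro χ u
      unfold Cliff.nabE Cliff.nab
      rw [inner_sum]
      refine Finset.sum_congr rfl fun μ _ => ?_
      rw [inner_smul_right, inner_add_right]
    have e4 := g.div_frame a y
    have e5 : (∑ μ, ((pd μ (fun y => (g.θ y).det * g.e y μ a) y : ℝ) : ℂ))
        = ((g.θ y).det : ℂ) * (g.dv a y : ℂ) := by
      rw [← Complex.ofReal_sum, e4, Complex.ofReal_mul]
    simp_rw [e1]
    rw [Finset.sum_add_distrib, ← Finset.sum_mul, e5, ← Finset.mul_sum, inner_add_right, e2, e3,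
      inner_smul_right, Complex.real_smul, Complex.real_smul]
    have e6 : ∑ μ, (g.e y μ a : ℂ) * (⟪φ y, pd μ ψ y⟫_ℂ + ⟪pd μ φ y, ψ y⟫_ℂ)
        = ∑ μ, (g.e y μ a : ℂ) * (⟪pd μ φ y, ψ y⟫_ℂ + ⟪C.conn g B μ y (φ y), ψ y⟫_ℂ)
          + ∑ μ, (g.e y μ a : ℂ) * (⟪φ y, pd μ ψ y⟫_ℂ + ⟪φ y, C.conn g B μ y (ψ y)⟫_ℂ) := by
      rw [← Finset.sum_add_distrib]
      refine Finset.sum_congr rfl fun μ _ => ?_
      rw [y2_conn C g B μ y (φ y) (ψ y)]
      ring
    rw [e6]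
    ring
  have h4 : Integrable (fun y => ⟪C.nabE g B a φ y, ψ y⟫_ℂ) g.vol :=
    y2_int g (isTF_nabE C g hB a hφ) hψ
  have hdv : IsTF fun y => (g.dv a y : ℂ) • ψ y := hψ.mulr (g.contDiff_dv a)
  have h5 : Integrable (fun y => ⟪φ y, C.nabE g B a ψ y + (g.dv a y : ℂ) • ψ y⟫_ℂ) g.vol :=
    y2_int g hφ ((isTF_nabE C g hB a hψ).add hdv)
  rw [eq_neg_iff_add_eq_zero, ← integral_add h4 h5, g.integral_vol]
  have h6 : ∀ y, (g.θ y).det • (⟪C.nabE g B a φ y, ψ y⟫_ℂ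
      + ⟪φ y, C.nabE g B a ψ y + (g.dv a y : ℂ) • ψ y⟫_ℂ)
      = ∑ μ, pd μ (fun y => (((g.θ y).det * g.e y μ a : ℝ) : ℂ) * ⟪φ y, ψ y⟫_ℂ) y := by
    intro y
    rw [h3 y, smul_add]
  rw [integral_congr_ae (Filter.Eventually.of_forall h6), integral_finsetSum _ fun μ _ => h2 μ]
  exact Finset.sum_eq_zero fun μ _ => h1 μ

/-- `∇_{e_a} (c_b ψ) = c_b ∇_{e_a} ψ + ∑_{μ,d} e_a^μ Γ_{μdb} c_d ψ` (`spin_comm`). -/
theorem nabE_c (C : Cliff m) (g : Geo (2 * m)) (B : Pot (2 * m)) (a b : Fin (2 * m))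
    {ψ : V (2 * m) → Sp m} (hψ : Differentiable ℝ ψ) (y : V (2 * m)) :
    C.nabE g B a (fun y => C.c b (ψ y)) y = C.c b (C.nabE g B a ψ y)
      + ∑ d, ((∑ μ, g.e y μ a * g.Γ μ y d b : ℝ) : ℂ) • C.c d (ψ y) := by
  have h1 : ∀ μ, pd μ (fun y => C.c b (ψ y)) y = C.c b (pd μ ψ y) := by
    intro μ
    unfold pd
    have h : HasFDerivAt (fun y => C.c b (ψ y))
        (((C.c b).restrictScalars ℝ).comp (fderiv ℝ ψ y)) y :=
      ((C.c b).restrictScalars ℝ).hasFDerivAt.comp y (hψ y).hasFDerivAt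
    rw [h.fderiv]
    rfl
  have h2 : ∀ μ, C.conn g B μ y (C.c b (ψ y)) = C.c b (C.conn g B μ y (ψ y))
      + ∑ d, (g.Γ μ y d b : ℂ) • C.c d (ψ y) := by
    intro μ
    have h := DFunLike.congr_fun (C.spin_comm (g.anti μ y) b) (ψ y)
    have h3 : ∀ w : Sp m, C.conn g B μ y w
      = C.spin (g.Γ μ y) w + (Complex.I * (B μ y : ℂ)) • w := fun w => rfl
    have h4 : C.spin (g.Γ μ y) (C.c b (ψ y)) - C.c b (C.spin (g.Γ μ y) (ψ y))
        = ∑ d, (g.Γ μ y d b : ℂ) • C.c d (ψ y) := by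
      refine Eq.trans h ?_
      rw [_root_.sum_apply]
      rfl
    rw [h3, h3, map_add, map_smul, ← h4]
    abel
  unfold Cliff.nabE Cliff.nab
  rw [map_sum]
  have h5 : ∑ d, ((∑ μ, g.e y μ a * g.Γ μ y d b : ℝ) : ℂ) • C.c d (ψ y)
      = ∑ μ, (g.e y μ a : ℂ) • ∑ d, (g.Γ μ y d b : ℂ) • C.c d (ψ y) := by
    simp_rw [Finset.smul_sum]
    rw [Finset.sum_comm]
    refine Finset.sum_congr rfl fun d _ => ?_
    rw [Complex.ofReal_sum, Finset.sum_smul]
    refine Finset.sum_congr rfl fun μ _ => ?_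
    rw [smul_smul, Complex.ofReal_mul]
  rw [h5, ← Finset.sum_add_distrib]
  refine Finset.sum_congr rfl fun μ _ => ?_
  rw [h1, h2, map_smul, map_add, ← smul_add, add_assoc]

/-- The Dirac operator is symmetric. Proof: `c_a* = - c_a`, `nabE_adj` with `c_a ψ`, `nabE_c`, and
`∑_{a,μ} e_a^μ Γ_{μda} = - dv_d`, so the terms without derivatives cancel. -/
theorem dirac_symm (C : Cliff m) (g : Geo (2 * m)) {B : Pot (2 * m)} (hB : IsPot B)
    {φ ψ : V (2 * m) → Sp m} (hφ : IsTF φ) (hψ : IsTF ψ) :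
    ⟪g.emb (C.dirac g B φ), g.emb ψ⟫_ℂ = ⟪g.emb φ, g.emb (C.dirac g B ψ)⟫_ℂ := by
  have hφD := isTF_dirac C g hB hφ
  have hψD := isTF_dirac C g hB hψ
  rw [g.inner_emb (g.memLp_tf hφD) (g.memLp_tf hψ), g.inner_emb (g.memLp_tf hφ) (g.memLp_tf hψD)]
  have hc : ∀ a, IsTF fun y => C.c a (ψ y) := fun a => hψ.const (C.c a)
  have h0 : ∀ (a) (u v : Sp m), ⟪C.c a u, v⟫_ℂ = - ⟪u, C.c a v⟫_ℂ := by
    intro a u v
    rw [← ContinuousLinearMap.adjoint_inner_right, show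
      ContinuousLinearMap.adjoint (C.c a) = - C.c a from C.skew a]
    show ⟪u, -(C.c a v)⟫_ℂ = _
    rw [inner_neg_right]
  have h1 : ∀ y, ⟪C.dirac g B φ y, ψ y⟫_ℂ = ∑ a, -⟪C.nabE g B a φ y, C.c a (ψ y)⟫_ℂ := by
    intro y
    unfold Cliff.dirac
    rw [sum_inner]
    exact Finset.sum_congr rfl fun a _ => h0 a _ _
  have hdv : ∀ a, IsTF fun y => (g.dv a y : ℂ) • C.c a (ψ y) := fun a =>
    (hc a).mulr (g.contDiff_dv a)
  have hA : ∀ a, IsTF ((fun y => C.nabE g B a (fun y => C.c a (ψ y)) y)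
      + fun y => (g.dv a y : ℂ) • C.c a (ψ y)) := fun a =>
    (isTF_nabE C g hB a (hc a)).add (hdv a)
  have h2 : ∀ y, ⟪φ y, C.dirac g B ψ y⟫_ℂ = ∑ a, ⟪φ y, C.nabE g B a (fun y => C.c a (ψ y)) y
      + (g.dv a y : ℂ) • C.c a (ψ y)⟫_ℂ := by
    intro y
    rw [← inner_sum]
    congr 1
    unfold Cliff.dirac
    rw [Finset.sum_add_distrib]
    simp_rw [nabE_c C g B _ _ (hψ.1.differentiable (by simp)) y]
    rw [Finset.sum_add_distrib, add_assoc, left_eq_add]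
    have h3 : ∑ a, ∑ d, ((∑ μ, g.e y μ a * g.Γ μ y d a : ℝ) : ℂ) • C.c d (ψ y)
        = ∑ d, -((g.dv d y : ℂ) • C.c d (ψ y)) := by
      rw [Finset.sum_comm]
      refine Finset.sum_congr rfl fun d _ => ?_
      rw [← Finset.sum_smul, ← neg_smul, ← Complex.ofReal_sum, ← Complex.ofReal_neg]
      unfold Geo.dv
      rw [neg_neg]
    rw [h3, ← Finset.sum_add_distrib]
    exact Finset.sum_eq_zero fun a _ => neg_add_cancel _
  simp_rw [h1, h2]
  have i1 : ∀ a ∈ Finset.univ, Integrable (fun y => -⟪C.nabE g B a φ y, C.c a (ψ y)⟫_ℂ) g.vol :=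
    fun a _ => (y2_int g (isTF_nabE C g hB a hφ) (hc a)).neg
  have i2 : ∀ a ∈ Finset.univ, Integrable (fun y => ⟪φ y, C.nabE g B a (fun y => C.c a (ψ y)) y
      + (g.dv a y : ℂ) • C.c a (ψ y)⟫_ℂ) g.vol := fun a _ => y2_int g hφ (hA a)
  rw [integral_finsetSum _ i1, integral_finsetSum _ i2]
  refine Finset.sum_congr rfl fun a _ => ?_
  rw [integral_neg, nabE_adj C g hB a hφ (hc a), neg_neg]

/-- The product rule. -/
theorem dirac_mulr (C : Cliff m) (g : Geo (2 * m)) (B : Pot (2 * m))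
    {φ : V (2 * m) → Sp m} (hφ : Differentiable ℝ φ) {χ : V (2 * m) → ℝ}
    (hχ : Differentiable ℝ χ) (y : V (2 * m)) :
    C.dirac g B (fun y => (χ y : ℂ) • φ y) y = (χ y : ℂ) • C.dirac g B φ y
      + ∑ a, ((∑ μ, g.e y μ a * pd μ χ y : ℝ) : ℂ) • C.c a (φ y) := by
  have h1 : ∀ μ, pd μ (fun y => (χ y : ℂ) • φ y) y = (χ y : ℂ) • pd μ φ y
      + ((pd μ χ y : ℝ) : ℂ) • φ y := by
    intro μ
    rw [← y2_ofr hχ]
    have hc : DifferentiableAt ℝ (fun y => (χ y : ℂ)) y :=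
      (Complex.ofRealCLM.differentiable.comp hχ) y
    unfold pd
    rw [fderiv_fun_smul hc (hφ y)]
    rfl
  have h2 : ∀ a, C.nabE g B a (fun y => (χ y : ℂ) • φ y) y = (χ y : ℂ) • C.nabE g B a φ y
      + ((∑ μ, g.e y μ a * pd μ χ y : ℝ) : ℂ) • φ y := by
    intro a
    unfold Cliff.nabE Cliff.nab
    rw [Complex.ofReal_sum, Finset.sum_smul, Finset.smul_sum, ← Finset.sum_add_distrib]
    refine Finset.sum_congr rfl fun μ _ => ?_
    rw [h1, map_smul, Complex.ofReal_mul]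
    module
  unfold Cliff.dirac
  rw [Finset.smul_sum, ← Finset.sum_add_distrib]
  refine Finset.sum_congr rfl fun a _ => ?_
  rw [h2, map_add, map_smul, map_smul]

/-- `‖D(χφ) - χ D φ‖ = |dχ| ‖φ‖` pointwise (`dirac_mulr`, `norm_vec`). -/
theorem norm_dirac_mulr (C : Cliff m) (g : Geo (2 * m)) (B : Pot (2 * m))
    {φ : V (2 * m) → Sp m} (hφ : Differentiable ℝ φ) {χ : V (2 * m) → ℝ}
    (hχ : Differentiable ℝ χ) (y : V (2 * m)) :
    ‖C.dirac g B (fun y => (χ y : ℂ) • φ y) y - (χ y : ℂ) • C.dirac g B φ y‖ ^ 2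
      = (∑ a, (∑ μ, g.e y μ a * pd μ χ y) ^ 2) * ‖φ y‖ ^ 2 := by
  rw [dirac_mulr C g B hφ hχ, add_sub_cancel_left]
  exact C.norm_vec (fun a => ∑ μ, g.e y μ a * pd μ χ y) (φ y)

end Pool.Agent.Lib.MP_df705a_gt.RL
end
end

section

/-!
# RL2, E1: the graph of the Dirac operator
-/

open scoped ContDiff InnerProductSpace Matrix ENNReal NNReal Topology
open MeasureTheory Filter Set

noncomputable section

namespace Pool.Agent.Lib.MP_df705a_gt.RL

variable {m : ℕ}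

/-- The graph of the Dirac operator on the test functions. -/
def Cliff.Gr (C : Cliff m) (g : Geo (2 * m)) (B : Pot (2 * m)) : Submodule ℂ (g.L2 × g.L2) :=
  Submodule.span ℂ (C.gr g B)

/-- The set `gr` is already a subspace (`dirac_add`, `dirac_smul`, `emb_add`, `emb_smul`,
`isTF_dirac`). -/
theorem mem_Gr (C : Cliff m) (g : Geo (2 * m)) {B : Pot (2 * m)} (hB : IsPot B)
    (p : g.L2 × g.L2) : p ∈ C.Gr g B ↔
      ∃ φ, IsTF φ ∧ p = (g.emb φ, g.emb (C.dirac g B φ)) := by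
  constructor
  · intro hp
    induction hp using Submodule.span_induction with
    | mem x hx => exact hx
    | zero =>
      have h0 : IsTF (fun _ : V (2 * m) => (0 : Sp m)) :=
        ⟨contDiff_const, HasCompactSupport.zero⟩
      have e0 : ((0 : ℂ) • fun _ : V (2 * m) => (0 : Sp m)) = fun _ => 0 := by
        funext y
        simp
      have e1 : C.dirac g B (fun _ => 0) = fun _ => 0 := by
        rw [← e0, dirac_smul C g B (h0.1.differentiable (by simp)) 0, e0]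
        funext y
        simp
      refine ⟨fun _ => 0, h0, ?_⟩
      rw [e1, g.emb_zero]
      rfl
    | add x y _ _ hx hy =>
      obtain ⟨φ, hφ, rfl⟩ := hx
      obtain ⟨ψ, hψ, rfl⟩ := hy
      refine ⟨φ + ψ, hφ.add hψ, ?_⟩
      rw [dirac_add C g B (hφ.1.differentiable (by simp)) (hψ.1.differentiable (by simp)),
        g.emb_add (g.memLp_tf hφ) (g.memLp_tf hψ),
        g.emb_add (g.memLp_tf (isTF_dirac C g hB hφ)) (g.memLp_tf (isTF_dirac C g hB hψ))]
      rfl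
    | smul c x _ hx =>
      obtain ⟨φ, hφ, rfl⟩ := hx
      refine ⟨c • φ, hφ.smul c, ?_⟩
      rw [dirac_smul C g B (hφ.1.differentiable (by simp)) c,
        g.emb_smul (g.memLp_tf hφ) c, g.emb_smul (g.memLp_tf (isTF_dirac C g hB hφ)) c]
      rfl
  · rintro ⟨φ, hφ, rfl⟩
    exact Submodule.subset_span ⟨φ, hφ, rfl⟩

theorem emb_mem_Gr (C : Cliff m) (g : Geo (2 * m)) (B : Pot (2 * m))
    {φ : V (2 * m) → Sp m} (h : IsTF φ) :
    (g.emb φ, g.emb (C.dirac g B φ)) ∈ C.Gr g B :=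
  Submodule.subset_span ⟨φ, h, rfl⟩

theorem isGrading_Eps (C : Cliff m) (g : Geo (2 * m)) {κ : ℝ} (hκ : κ ^ 2 = 1) :
    IsGrading (C.Eps g κ) :=
  ⟨C.Eps_sa g κ C.adj_eps, C.Eps_sq g hκ C.eps_sq⟩

/-- `dirac_symm`, `dirac_eps`, `dense_tf`. -/
theorem isOddSymm_Gr (C : Cliff m) (g : Geo (2 * m)) {B : Pot (2 * m)} (hB : IsPot B) {κ : ℝ}
    (hκ : κ ^ 2 = 1) : IsOddSymm (C.Eps g κ) (C.Gr g B) := by
  refine ⟨?_, ?_, ?_⟩
  · intro a ha b hb
    obtain ⟨φ, hφ, rfl⟩ := (mem_Gr C g hB a).1 ha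
    obtain ⟨ψ, hψ, rfl⟩ := (mem_Gr C g hB b).1 hb
    exact dirac_symm C g hB hφ hψ
  · intro a ha
    obtain ⟨φ, hφ, rfl⟩ := (mem_Gr C g hB a).1 ha
    have hφ' : IsTF fun y => (κ : ℂ) • C.eps (φ y) := hφ.const ((κ : ℂ) • C.eps)
    refine (mem_Gr C g hB _).2 ⟨fun y => (κ : ℂ) • C.eps (φ y), hφ', ?_⟩
    have hD := isTF_dirac C g hB hφ
    have e1 : C.Eps g κ (g.emb φ) = g.emb fun y => (κ : ℂ) • C.eps (φ y) := by
      unfold Cliff.Eps
      rw [g.mulE_emb (BddM.const _) (g.memLp_tf hφ)]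
      rfl
    have e2 : C.Eps g κ (g.emb (C.dirac g B φ))
        = g.emb fun y => (κ : ℂ) • C.eps (C.dirac g B φ y) := by
      unfold Cliff.Eps
      rw [g.mulE_emb (BddM.const _) (g.memLp_tf hD)]
      rfl
    have hD' : IsTF fun y => (κ : ℂ) • C.eps (C.dirac g B φ y) := hD.const ((κ : ℂ) • C.eps)
    have e3 : C.dirac g B (fun y => (κ : ℂ) • C.eps (φ y))
        = (-1 : ℂ) • fun y => (κ : ℂ) • C.eps (C.dirac g B φ y) := by
      funext y
      rw [dirac_eps C g B C.eps_mul_c (hφ.1.differentiable (by simp)) κ y, Pi.smul_apply,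
        neg_smul, one_smul]
    rw [e1, e2, e3, g.emb_smul (g.memLp_tf hD'), neg_smul, one_smul]
  · refine g.dense_tf.mono ?_
    rintro u ⟨φ, hφ, rfl⟩
    exact ⟨_, emb_mem_Gr C g B hφ⟩

/-- The countable family: if `φ n` and `ψ` vanish outside the ball of radius `r` and are `ε`-close
in the `C¹` sense, then `(φ n, D φ n)` is close to `(ψ, D ψ)` (`norm_emb_le`, `norm_dirac_le` for
`φ n - ψ`). -/
theorem dense_Gr (C : Cliff m) (g : Geo (2 * m)) {B : Pot (2 * m)} (hB : IsPot B)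
    {φ : ℕ → V (2 * m) → Sp m} (hφ : DenseTF φ) (a : g.L2 × g.L2) (ha : a ∈ C.Gr g B) :
    a ∈ closure (Submodule.span ℂ
      (range fun n => (g.emb (φ n), g.emb (C.dirac g B (φ n)))) : Set (g.L2 × g.L2)) := by
  obtain ⟨ψ, hψ, rfl⟩ := (mem_Gr C g hB a).1 ha
  obtain ⟨r, hr⟩ := hφ.2 ψ hψ
  obtain ⟨C₁, hC₁, h1⟩ := g.norm_emb_le (m := m) r
  obtain ⟨C₂, hC₂, h2⟩ := norm_dirac_le C g r
  have hBc : Continuous fun y : V (2 * m) => ∑ μ, |B μ y| :=
    continuous_finsetSum _ fun μ _ => (hB μ).continuous.abs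
  obtain ⟨b, hb⟩ := (isCompact_closedBall (0 : V (2 * m)) r).exists_bound_of_continuousOn
    hBc.continuousOn
  set b' : ℝ := max b 0 with hb'
  have hb0 : 0 ≤ b' := le_max_right _ _
  set M : ℝ := C₁ * (1 + C₂ * (1 + b') * (1 + 2 * m)) + 1 with hM
  have hM1 : 0 < M := by positivity
  rw [Metric.mem_closure_iff]
  intro ε hε
  obtain ⟨n, n1, n2, n3, n4⟩ := hr (ε / (2 * M)) (by positivity)
  refine ⟨(g.emb (φ n), g.emb (C.dirac g B (φ n))), Submodule.subset_span ⟨n, rfl⟩, ?_⟩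
  set δ : ℝ := ε / (2 * M) with hδ
  have hδ0 : 0 < δ := by positivity
  have hφn := hφ.1 n
  have hχ : IsTF (φ n - ψ) := hφn.sub hψ
  have hd1 : Differentiable ℝ (φ n) := hφn.1.differentiable (by simp)
  have hd2 : Differentiable ℝ ψ := hψ.1.differentiable (by simp)
  have hpd : ∀ μ y, pd μ (φ n - ψ) y = pd μ (φ n) y - pd μ ψ y := by
    intro μ y
    unfold pd
    rw [fderiv_sub (hd1 y) (hd2 y)]
    rfl
  have hχ0 : ∀ y, r < ‖y‖ → (φ n - ψ) y = 0 := fun y hy => by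
    rw [Pi.sub_apply, n1 y hy, n2 y hy, sub_zero]
  -- the first component
  have k1 := (h1 (φ n - ψ) δ hδ0.le hχ.1.continuous.aestronglyMeasurable hχ0 n3).2
  rw [g.emb_sub (g.memLp_tf hφn) (g.memLp_tf hψ)] at k1
  -- the second component
  have hDs : C.dirac g B (φ n - ψ) = C.dirac g B (φ n) - C.dirac g B ψ := by
    have e1 : φ n - ψ = φ n + (-1 : ℂ) • ψ := by
      funext y
      simp [sub_eq_add_neg]
    rw [e1, dirac_add C g B hd1 (hd2.const_smul (-1 : ℂ)), dirac_smul C g B hd2]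
    funext y
    simp [sub_eq_add_neg]
  have hD := isTF_dirac C g hB hχ
  have hDb : ∀ y, ‖C.dirac g B (φ n - ψ) y‖ ≤ C₂ * (1 + b') * (1 + 2 * m) * δ := by
    intro y
    by_cases hy : ‖y‖ ≤ r
    · refine (h2 B (φ n - ψ) y hy).trans ?_
      have s1 : ∑ μ, |B μ y| ≤ b' := by
        have := hb y (mem_closedBall_zero_iff.2 hy)
        exact ((le_abs_self _).trans this).trans (le_max_left _ _)
      have s2 : ‖(φ n - ψ) y‖ + ∑ μ, ‖pd μ (φ n - ψ) y‖ ≤ (1 + 2 * m) * δ := by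
        have s3 : ∑ μ, ‖pd μ (φ n - ψ) y‖ ≤ ∑ _μ : Fin (2 * m), δ := by
          refine Finset.sum_le_sum fun μ _ => ?_
          rw [hpd μ y]
          exact n4 μ y
        rw [Finset.sum_const, Finset.card_univ, Fintype.card_fin, nsmul_eq_mul] at s3
        push_cast at s3
        have s4 : ‖(φ n - ψ) y‖ ≤ δ := n3 y
        linarith
      calc C₂ * (1 + ∑ μ, |B μ y|) * (‖(φ n - ψ) y‖ + ∑ μ, ‖pd μ (φ n - ψ) y‖)
          ≤ C₂ * (1 + b') * ((1 + 2 * m) * δ) := by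
            refine mul_le_mul (mul_le_mul_of_nonneg_left (by linarith) hC₂) s2 (by positivity)
              (by positivity)
        _ = C₂ * (1 + b') * (1 + 2 * m) * δ := by ring
    · rw [dirac_eq_zero C g B hχ0 y (not_le.1 hy), norm_zero]
      positivity
  have k2 := (h1 (C.dirac g B (φ n - ψ)) (C₂ * (1 + b') * (1 + 2 * m) * δ) (by positivity)
    hD.1.continuous.aestronglyMeasurable (dirac_eq_zero C g B hχ0) hDb).2
  rw [hDs, g.emb_sub (g.memLp_tf (isTF_dirac C g hB hφn))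
    (g.memLp_tf (isTF_dirac C g hB hψ))] at k2
  have hδM : M * δ = ε / 2 := by
    rw [hδ]
    field_simp
  have l1 : C₁ * δ ≤ M * δ := by
    refine mul_le_mul_of_nonneg_right ?_ hδ0.le
    have : 0 ≤ C₁ * (C₂ * (1 + b') * (1 + 2 * m)) := by positivity
    rw [hM]
    linarith
  have l2 : C₁ * (C₂ * (1 + b') * (1 + 2 * m) * δ) ≤ M * δ := by
    have : C₁ * (C₂ * (1 + b') * (1 + 2 * m) * δ) = (C₁ * (C₂ * (1 + b') * (1 + 2 * m))) * δ := by
      ring
    rw [this]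
    refine mul_le_mul_of_nonneg_right ?_ hδ0.le
    rw [hM]
    linarith
  rw [Prod.dist_eq, dist_comm, dist_comm (g.emb (C.dirac g B ψ)), dist_eq_norm, dist_eq_norm]
  refine max_lt ?_ ?_
  · exact lt_of_le_of_lt (k1.trans l1) (by rw [hδM]; linarith)
  · exact lt_of_le_of_lt (k2.trans l2) (by rw [hδM]; linarith)

end Pool.Agent.Lib.MP_df705a_gt.RL
end
end

section

/-!
# RL2, KT1: the refined inequality of Kato for the Dirac operator
-/

open scoped ContDiff InnerProductSpace Matrix ENNReal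
open MeasureTheory

noncomputable section

namespace Pool.Agent.Lib.MP_df705a_gt.RL

variable {m : ℕ}

private theorem kt_re (x : ℝ) (u v : Sp m) :
    RCLike.re ⟪u, (x : ℂ) • v⟫_ℂ = x * RCLike.re ⟪u, v⟫_ℂ := by
  rw [inner_smul_right]
  exact RCLike.re_ofReal_mul (K := ℂ) x _

private theorem kt_norm_sub (x : ℝ) (a A : Sp m) :
    ‖a - (x : ℂ) • A‖ ^ 2 = ‖a‖ ^ 2 - 2 * (x * RCLike.re ⟪A, a⟫_ℂ) + x ^ 2 * ‖A‖ ^ 2 := by
  rw [norm_sub_sq (𝕜 := ℂ), kt_re, inner_re_symm, norm_smul, mul_pow, Complex.norm_real,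
    Real.norm_eq_abs, sq_abs]

/-- The pointwise refined inequality of Kato: if `‖w‖ ≤ 1` then
`(1 + 1/((1+δ)(N-1))) ∑ (Re ⟪w, a_j⟫)² ≤ ∑ ‖a_j‖² + 1/(δ(N-1)) ‖∑ c_j a_j‖²`, `N = 2m`. -/
theorem kato_alg (C : Cliff m) (hm : 1 ≤ m) (a : Fin (2 * m) → Sp m) {w : Sp m} (hw : ‖w‖ ≤ 1)
    {δ : ℝ} (hδ : 0 < δ) :
    (1 + 1 / ((1 + δ) * (2 * m - 1))) * ∑ j, (RCLike.re ⟪w, a j⟫_ℂ) ^ 2
      ≤ ∑ j, ‖a j‖ ^ 2 + 1 / (δ * (2 * m - 1)) * ‖∑ j, C.c j (a j)‖ ^ 2 := by
  have hN : (1 : ℝ) ≤ 2 * m - 1 := by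
    have : (1 : ℝ) ≤ m := by exact_mod_cast hm
    linarith
  set ρ : Fin (2 * m) → ℝ := fun j => RCLike.re ⟪w, a j⟫_ℂ with hρ
  have hS0 : 0 ≤ ∑ j, ρ j ^ 2 := Finset.sum_nonneg fun j _ => sq_nonneg _
  rcases hS0.eq_or_lt with h0 | hpos
  · rw [← h0, mul_zero]
    have : 0 ≤ 1 / (δ * (2 * m - 1)) := by positivity
    positivity
  set r : ℝ := √(∑ j, ρ j ^ 2) with hr
  have hr0 : 0 < r := Real.sqrt_pos.2 hpos
  have hr2 : r ^ 2 = ∑ j, ρ j ^ 2 := Real.sq_sqrt hS0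
  set x : Fin (2 * m) → ℝ := fun j => ρ j / r with hx
  have hx1 : ∑ j, x j ^ 2 = 1 := by
    simp only [hx, div_pow]
    rw [← Finset.sum_div, ← hr2]
    exact div_self (by positivity)
  set A : Sp m := ∑ j, (x j : ℂ) • a j with hA
  have hwA : RCLike.re ⟪w, A⟫_ℂ = r := by
    rw [hA, inner_sum, map_sum]
    have : ∀ j, RCLike.re ⟪w, (x j : ℂ) • a j⟫_ℂ = ρ j ^ 2 / r := by
      intro j
      rw [kt_re]
      simp only [hx, hρ]
      ring
    rw [Finset.sum_congr rfl fun j _ => this j, ← Finset.sum_div, ← hr2]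
    field_simp
  have hrA : r ≤ ‖A‖ := by
    rw [← hwA]
    refine (RCLike.re_le_norm _).trans ((norm_inner_le_norm _ _).trans ?_)
    exact mul_le_of_le_one_left (norm_nonneg _) hw
  set b : Fin (2 * m) → Sp m := fun j => a j - (x j : ℂ) • A with hb
  -- the decomposition of the norm
  have hAA : RCLike.re ⟪A, A⟫_ℂ = ‖A‖ ^ 2 := (norm_sq_eq_re_inner (𝕜 := ℂ) A).symm
  have hsum : ∑ j, x j * RCLike.re ⟪A, a j⟫_ℂ = ‖A‖ ^ 2 := by
    rw [← hAA]
    conv_rhs => rw [hA, inner_sum, map_sum]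
    refine Finset.sum_congr rfl fun j _ => ?_
    rw [kt_re, ← hA]
  have hi : ∑ j, ‖b j‖ ^ 2 = ∑ j, ‖a j‖ ^ 2 - ‖A‖ ^ 2 := by
    simp only [hb, kt_norm_sub]
    rw [Finset.sum_add_distrib, Finset.sum_sub_distrib, ← Finset.mul_sum, hsum,
      ← Finset.sum_mul, hx1]
    ring
  have hxb : ∑ j, (x j : ℂ) • b j = 0 := by
    simp only [hb, smul_sub]
    rw [Finset.sum_sub_distrib, ← hA]
    have : ∑ j, (x j : ℂ) • (x j : ℂ) • A = A := by
      simp only [smul_smul]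
      rw [← Finset.sum_smul]
      have h1 : ∑ j, (x j : ℂ) * (x j : ℂ) = ((∑ j, x j ^ 2 : ℝ) : ℂ) := by
        push_cast
        exact Finset.sum_congr rfl fun j _ => by ring
      rw [h1, hx1, Complex.ofReal_one, one_smul]
    rw [this, sub_self]
  set y : Fin (2 * m) → Fin (2 * m) → ℝ := fun j k => (if k = j then 1 else 0) - x j * x k
    with hy
  have hy2 : ∀ j, ∑ k, y j k ^ 2 = 1 - x j ^ 2 := by
    intro j
    have h1 : ∀ k, y j k ^ 2 = (if k = j then 1 - 2 * x j * x k else 0) + x j ^ 2 * x k ^ 2 := by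
      intro k
      simp only [hy]
      by_cases h : k = j
      · rw [if_pos h, if_pos h]
        ring
      · rw [if_neg h, if_neg h]
        ring
    rw [Finset.sum_congr rfl fun k _ => h1 k, Finset.sum_add_distrib, ← Finset.mul_sum, hx1,
      Finset.sum_ite_eq' Finset.univ j fun k => 1 - 2 * x j * x k, if_pos (Finset.mem_univ j)]
    ring
  -- the identity
  have hcA : ∑ k, (x k : ℂ) • C.c k A
      = ∑ j, C.c j (a j) - ∑ j, ∑ k, (y j k : ℂ) • C.c k (b j) := by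
    have h1 : ∀ j, ∑ k, (y j k : ℂ) • C.c k (b j)
        = C.c j (b j) - ∑ k, (x k : ℂ) • C.c k ((x j : ℂ) • b j) := by
      intro j
      have h2 : ∀ k, (y j k : ℂ) • C.c k (b j)
          = (if k = j then C.c k (b j) else 0) - (x k : ℂ) • C.c k ((x j : ℂ) • b j) := by
        intro k
        simp only [hy]
        by_cases h : k = j
        · rw [if_pos h, if_pos h, map_smul]
          push_cast
          module
        · rw [if_neg h, if_neg h, map_smul]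
          push_cast
          module
      rw [Finset.sum_congr rfl fun k _ => h2 k, Finset.sum_sub_distrib,
        Finset.sum_ite_eq' Finset.univ j fun k => C.c k (b j), if_pos (Finset.mem_univ j)]
    have h3 : ∑ j, ∑ k, (x k : ℂ) • C.c k ((x j : ℂ) • b j) = 0 := by
      rw [Finset.sum_comm]
      refine Finset.sum_eq_zero fun k _ => ?_
      rw [← Finset.smul_sum, ← map_sum, hxb, map_zero, smul_zero]
    rw [Finset.sum_congr rfl fun j _ => h1 j, Finset.sum_sub_distrib, h3, sub_zero]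
    have h4 : ∀ j, C.c j (b j) = C.c j (a j) - (x j : ℂ) • C.c j A := by
      intro j
      simp only [hb]
      rw [map_sub, map_smul]
    rw [Finset.sum_congr rfl fun j _ => h4 j, Finset.sum_sub_distrib, sub_sub_cancel]
  have hnA : ‖∑ k, (x k : ℂ) • C.c k A‖ = ‖A‖ := by
    have := C.norm_vec x A
    rw [hx1, one_mul] at this
    exact (pow_left_inj₀ (norm_nonneg _) (norm_nonneg _) two_ne_zero).1 this
  have hnb : ∀ j, ‖∑ k, (y j k : ℂ) • C.c k (b j)‖ = √(1 - x j ^ 2) * ‖b j‖ := by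
    intro j
    have := C.norm_vec (y j) (b j)
    rw [hy2] at this
    have h0 : 0 ≤ 1 - x j ^ 2 := by
      rw [← hy2]
      exact Finset.sum_nonneg fun k _ => sq_nonneg _
    refine (pow_left_inj₀ (norm_nonneg _) (by positivity) two_ne_zero).1 ?_
    rw [this, mul_pow, Real.sq_sqrt h0]
  have hS : ‖∑ j, ∑ k, (y j k : ℂ) • C.c k (b j)‖ ^ 2 ≤ (2 * m - 1) * ∑ j, ‖b j‖ ^ 2 := by
    have h1 : ‖∑ j, ∑ k, (y j k : ℂ) • C.c k (b j)‖ ≤ ∑ j, √(1 - x j ^ 2) * ‖b j‖ :=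
      (norm_sum_le _ _).trans (le_of_eq (Finset.sum_congr rfl fun j _ => hnb j))
    have h2 := Finset.sum_mul_sq_le_sq_mul_sq Finset.univ (fun j => √(1 - x j ^ 2))
      (fun j => ‖b j‖)
    have h3 : ∑ j, √(1 - x j ^ 2) ^ 2 = 2 * m - 1 := by
      have h4 : ∀ j, √(1 - x j ^ 2) ^ 2 = 1 - x j ^ 2 := by
        intro j
        refine Real.sq_sqrt ?_
        rw [← hy2]
        exact Finset.sum_nonneg fun k _ => sq_nonneg _
      rw [Finset.sum_congr rfl fun j _ => h4 j, Finset.sum_sub_distrib, hx1]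
      simp
    rw [h3] at h2
    exact (pow_le_pow_left₀ (norm_nonneg _) h1 2).trans h2
  -- the end
  set D := ‖∑ j, C.c j (a j)‖ with hD
  set S := ‖∑ j, ∑ k, (y j k : ℂ) • C.c k (b j)‖ with hSd
  set β := ∑ j, ‖b j‖ ^ 2 with hβ
  have hAle : ‖A‖ ≤ D + S := by
    rw [← hnA, hcA]
    exact norm_sub_le _ _
  have hA2 : ‖A‖ ^ 2 ≤ (1 + 1 / δ) * D ^ 2 + (1 + δ) * S ^ 2 := by
    refine (pow_le_pow_left₀ (norm_nonneg _) hAle 2).trans ?_
    have h1 : 0 ≤ (D - δ * S) ^ 2 / δ := by positivity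
    have h2 : (D - δ * S) ^ 2 / δ = 1 / δ * D ^ 2 - 2 * (D * S) + δ * S ^ 2 := by
      field_simp
      ring
    nlinarith
  have hN0 : (0 : ℝ) < 2 * m - 1 := by linarith
  have hfin : 1 / ((1 + δ) * (2 * m - 1)) * ‖A‖ ^ 2 ≤ β + 1 / (δ * (2 * m - 1)) * D ^ 2 := by
    have h1 : ‖A‖ ^ 2 ≤ (1 + 1 / δ) * D ^ 2 + (1 + δ) * ((2 * m - 1) * β) := by
      refine hA2.trans ?_
      gcongr
    have h2 : 1 / ((1 + δ) * (2 * m - 1)) * ‖A‖ ^ 2
        ≤ 1 / ((1 + δ) * (2 * m - 1)) * ((1 + 1 / δ) * D ^ 2 + (1 + δ) * ((2 * m - 1) * β)) := by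
      gcongr
    refine h2.trans (le_of_eq ?_)
    field_simp
    ring
  have hr3 : ∑ j, ρ j ^ 2 ≤ ‖A‖ ^ 2 := by
    rw [← hr2]
    exact pow_le_pow_left₀ hr0.le hrA 2
  have h5 : (1 + 1 / ((1 + δ) * (2 * m - 1))) * ∑ j, ρ j ^ 2
      ≤ (1 + 1 / ((1 + δ) * (2 * m - 1))) * ‖A‖ ^ 2 := by
    gcongr
  refine h5.trans ?_
  have h6 : ∑ j, ‖a j‖ ^ 2 = ‖A‖ ^ 2 + β := by
    rw [hi]
    ring
  rw [h6, add_mul, one_mul]
  linarith

end Pool.Agent.Lib.MP_df705a_gt.RL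
end
end
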