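import Mathlib
import Pool.Agent.Lib.MP_df705a_gt.Mg.G030

section

/-!
# RL2, YG1: smooth Cholesky factorization
-/

open scoped ContDiff Matrix

noncomputable section

namespace Pool.Agent.Lib.MP_df705a_gt.RL

variable {E : Type*} [NormedAddCommGroup E] [NormedSpace ℝ E]

/-- Every smooth family of positive definite matrices is `θᵀ θ` with `θ` smooth of positive
determinant. -/
theorem exists_chol (n : ℕ) (h : E → Matrix (Fin n) (Fin n) ℝ)
    (hs : ∀ i j, ContDiff ℝ ∞ fun y => h y i j) (hp : ∀ y, (h y).PosDef) :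
    ∃ θ : E → Matrix (Fin n) (Fin n) ℝ, (∀ i j, ContDiff ℝ ∞ fun y => θ y i j) ∧
      (∀ y, (θ y)ᵀ * θ y = h y) ∧ ∀ y, 0 < (θ y).det := by
  induction n with
  | zero =>
    refine ⟨fun _ => 1, fun i => i.elim0, fun y => ?_, fun y => ?_⟩
    · ext i; exact i.elim0
    · rw [Matrix.det_one]; exact one_pos
  | succ n ih =>
    have ha : ∀ y, 0 < h y 0 0 := fun y => (hp y).diag_pos
    have hsym : ∀ y i j, h y i j = h y j i := fun y i j => by
      have := (hp y).isHermitian.apply j i
      simpa using this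
    -- the Schur complement
    obtain ⟨θ', h1, h2, h3⟩ := ih
      (fun y => Matrix.of fun i j => h y i.succ j.succ - h y 0 i.succ * h y 0 j.succ / h y 0 0)
      (fun i j => by
        simp only [Matrix.of_apply]
        exact (hs _ _).sub (((hs _ _).mul (hs _ _)).div (hs 0 0) fun y => (ha y).ne'))
      (fun y => by
        refine Matrix.PosDef.of_dotProduct_mulVec_pos ?_ ?_
        · ext i j
          simp only [Matrix.conjTranspose_apply, Matrix.of_apply, star_trivial]
          rw [hsym y j.succ i.succ, mul_comm (h y 0 j.succ)]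
        · intro x hx
          set c : ℝ := (∑ j, h y 0 j.succ * x j) / h y 0 0 with hc
          have hv : (Fin.cons (-c) x : Fin (n + 1) → ℝ) ≠ 0 := by
            intro h0
            apply hx
            funext i
            have := congrFun h0 i.succ
            simpa using this
          have h4 := (hp y).dotProduct_mulVec_pos hv
          refine lt_of_lt_of_eq h4 ?_
          have hac : h y 0 0 * c = ∑ j, h y 0 j.succ * x j := by
            rw [hc, mul_div_cancel₀ _ (ha y).ne']
          simp only [dotProduct, Matrix.mulVec, star_trivial, Fin.sum_univ_succ, Fin.cons_zero,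
            Fin.cons_succ, Matrix.of_apply]
          have e1 : ∀ i : Fin n, h y i.succ 0 = h y 0 i.succ := fun i => hsym y _ _
          have e2 : ∀ i : Fin n, (∑ j : Fin n, (h y i.succ j.succ
              - h y 0 i.succ * h y 0 j.succ / h y 0 0) * x j)
              = (∑ j : Fin n, h y i.succ j.succ * x j) - h y 0 i.succ * c := by
            intro i
            rw [hc, Finset.sum_div, Finset.mul_sum, ← Finset.sum_sub_distrib]
            exact Finset.sum_congr rfl fun j _ => by ring
          simp only [e1, e2]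
          have e3 : (∑ i : Fin n, x i * (h y 0 i.succ * -c + ∑ j : Fin n, h y i.succ j.succ * x j))
              = (∑ i : Fin n, x i * ((∑ j : Fin n, h y i.succ j.succ * x j) - h y 0 i.succ * c)) :=
            Finset.sum_congr rfl fun i _ => by ring
          rw [e3, ← hac]
          ring)
    set a : E → ℝ := fun y => √(h y 0 0) with hadef
    have hapos : ∀ y, 0 < a y := fun y => Real.sqrt_pos.2 (ha y)
    have hasm : ContDiff ℝ ∞ a := (hs 0 0).sqrt fun y => (ha y).ne'
    have hasq : ∀ y, a y * a y = h y 0 0 := fun y => Real.mul_self_sqrt (ha y).le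
    refine ⟨fun y => Matrix.of (Fin.cons (Fin.cons (a y) fun j => h y 0 j.succ / a y)
      (fun i => Fin.cons 0 fun j => θ' y i j)), fun i j => ?_, fun y => ?_, fun y => ?_⟩
    · refine Fin.cases ?_ (fun i => ?_) i <;> refine Fin.cases ?_ (fun j => ?_) j
      · exact hasm
      · exact (hs 0 j.succ).div hasm fun y => (hapos y).ne'
      · exact contDiff_const
      · exact h1 i j
    · ext i j
      rw [Matrix.mul_apply, Fin.sum_univ_succ]
      simp only [Matrix.transpose_apply, Matrix.of_apply, Fin.cons_zero, Fin.cons_succ]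
      refine Fin.cases ?_ (fun i => ?_) i <;> refine Fin.cases ?_ (fun j => ?_) j
      · simp [hasq]
      · simp only [Fin.cons_zero, Fin.cons_succ, zero_mul, Finset.sum_const_zero, add_zero]
        rw [mul_div_cancel₀ _ (hapos y).ne']
      · simp only [Fin.cons_zero, Fin.cons_succ, mul_zero, Finset.sum_const_zero, add_zero]
        rw [div_mul_cancel₀ _ (hapos y).ne', hsym]
      · simp only [Fin.cons_succ]
        have h5 := congrFun (congrFun (h2 y) i) j
        rw [Matrix.mul_apply] at h5
        simp only [Matrix.transpose_apply, Matrix.of_apply] at h5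
        rw [h5, div_mul_div_comm, hasq]
        ring
    · rw [Matrix.det_succ_column_zero, Fin.sum_univ_succ]
      simp only [Matrix.of_apply, Fin.cons_zero, Fin.cons_succ, mul_zero, zero_mul,
        Finset.sum_const_zero, add_zero, Fin.val_zero, pow_zero, one_mul]
      refine mul_pos (hapos y) ?_
      have h6 : (Matrix.of (Fin.cons (Fin.cons (a y) fun j => h y 0 j.succ / a y)
          (fun i => Fin.cons 0 fun j => θ' y i j) : Fin (n + 1) → Fin (n + 1) → ℝ)).submatrix
          (Fin.succAbove 0) Fin.succ = θ' y := by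
        ext i j
        simp
      rw [h6]
      exact h3 y

end Pool.Agent.Lib.MP_df705a_gt.RL
end
end

section

/-!
# RL2, YG: every metric comes from a coframe
-/

open scoped ContDiff InnerProductSpace Matrix ENNReal
open MeasureTheory

noncomputable section

namespace Pool.Agent.Lib.MP_df705a_gt.RL

variable {N : ℕ}

private theorem yg_sub {f f' : V N → ℝ} (h : Differentiable ℝ f) (h' : Differentiable ℝ f')
    (μ : Fin N) (y : V N) : pd μ (fun y => f y - f' y) y = pd μ f y - pd μ f' y := by
  unfold pd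
  rw [fderiv_fun_sub (h y) (h' y)]
  rfl

private theorem yg_add {f f' : V N → ℝ} (h : Differentiable ℝ f) (h' : Differentiable ℝ f')
    (μ : Fin N) (y : V N) : pd μ (fun y => f y + f' y) y = pd μ f y + pd μ f' y := by
  unfold pd
  rw [fderiv_fun_add (h y) (h' y)]
  rfl

private theorem yg_mul {f f' : V N → ℝ} (h : Differentiable ℝ f) (h' : Differentiable ℝ f')
    (μ : Fin N) (y : V N) : pd μ (fun y => f y * f' y) y = pd μ f y * f' y + f y * pd μ f' y := by
  unfold pd
  rw [fderiv_fun_mul (h y) (h' y)]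
  simp
  ring

private theorem yg_sum {ι : Type*} (t : Finset ι) {f : ι → V N → ℝ}
    (h : ∀ i ∈ t, Differentiable ℝ (f i)) (μ : Fin N) (y : V N) :
    pd μ (fun y => ∑ i ∈ t, f i y) y = ∑ i ∈ t, pd μ (f i) y := by
  unfold pd
  rw [fderiv_fun_sum fun i hi => h i hi y]
  simp

private theorem yg_smooth {f : V N → ℝ} (hf : ContDiff ℝ ∞ f) (μ : Fin N) :
    ContDiff ℝ ∞ (pd μ f) :=
  ((contDiff_infty_iff_fderiv.1 hf).2).clm_apply contDiff_const

private theorem yg_comm {f : V N → ℝ} (h : ContDiff ℝ ∞ f) (μ l : Fin N) (y : V N) :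
    pd l (fun y => pd μ f y) y = pd μ (fun y => pd l f y) y := by
  have h1 : Differentiable ℝ (fderiv ℝ f) :=
    (contDiff_infty_iff_fderiv.1 h).2.differentiable (by simp)
  have h2 : ∀ a b : Fin N, pd a (fun y => pd b f y) y = (fderiv ℝ (fderiv ℝ f) y (bv a)) (bv b) := by
    intro a b
    unfold pd
    rw [fderiv_clm_apply (h1 y) (differentiableAt_const _)]
    simp
  rw [h2, h2]
  have h3 : IsSymmSndFDerivAt ℝ f y := by
    refine (h.contDiffAt (x := y)).isSymmSndFDerivAt ?_
    rw [minSmoothness_of_isRCLikeNormedField]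
    exact WithTop.coe_le_coe.2 le_top
  exact h3.eq _ _

private theorem yg_F_anti (g : Geo N) (μ ν : Fin N) (y : V N) (a b : Fin N) :
    g.F μ ν y b a = - g.F μ ν y a b := by
  unfold Geo.F
  have h0 : ∀ (f : V N → ℝ) (μ : Fin N), pd μ (fun y => - f y) y = - pd μ f y := by
    intro f μ
    unfold pd
    rw [fderiv_fun_neg]
    rfl
  have h1 : ∀ μ, (fun y => g.Γ μ y b a) = fun y => - g.Γ μ y a b := fun μ => by
    funext y
    exact g.anti μ y a b
  have h2 : ∀ μ ν, (g.Γ μ y * g.Γ ν y) b a = (g.Γ ν y * g.Γ μ y) a b := by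
    intro μ ν
    rw [Matrix.mul_apply, Matrix.mul_apply]
    refine Finset.sum_congr rfl fun c _ => ?_
    rw [g.anti μ y c b, g.anti ν y a c]
    ring
  rw [Matrix.of_apply, Matrix.of_apply, h1, h1, h0, h0, Matrix.sub_apply,
    Matrix.sub_apply, h2, h2]
  ring

/-- Every smooth coframe has a Levi-Civita connection. -/
theorem exists_geo_of_coframe {θ : V N → Mt N} (hθ : ∀ a μ, ContDiff ℝ ∞ fun y => θ y a μ)
    (hdet : ∀ y, 0 < (θ y).det) : ∃ g : Geo N, g.θ = θ := by
  have hu : ∀ y, IsUnit (θ y).det := fun y => (hdet y).ne'.isUnit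
  set e : V N → Mt N := fun y => (θ y)⁻¹ with he
  have hθe : ∀ y, θ y * e y = 1 := fun y => Matrix.mul_nonsing_inv _ (hu y)
  have heθ : ∀ y, e y * θ y = 1 := fun y => Matrix.nonsing_inv_mul _ (hu y)
  have hdets : ContDiff ℝ ∞ fun y => (θ y).det := by
    simp only [Matrix.det_apply']
    exact ContDiff.sum fun σ _ => contDiff_const.mul (contDiff_prod fun i _ => hθ _ _)
  have hes : ∀ μ a, ContDiff ℝ ∞ fun y => e y μ a := by
    intro μ a
    have h1 : (fun y => e y μ a) = fun y => ((θ y).det)⁻¹ * (θ y).adjugate μ a := by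
      funext y
      rw [he]
      simp only
      rw [Matrix.inv_def, Matrix.smul_apply, Ring.inverse_eq_inv', smul_eq_mul]
    rw [h1]
    refine (hdets.inv fun y => (hdet y).ne').mul ?_
    simp only [Matrix.adjugate_apply, Matrix.det_apply']
    refine ContDiff.sum fun σ _ => contDiff_const.mul (contDiff_prod fun i _ => ?_)
    by_cases h : σ i = a
    · subst h
      simp only [Matrix.updateRow_self]
      exact contDiff_const
    · simp only [Matrix.updateRow_ne h]
      exact hθ _ _
  -- the structure functions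
  set D : Fin N → Fin N → Fin N → V N → ℝ := fun a μ ν y =>
    pd μ (fun y => θ y a ν) y - pd ν (fun y => θ y a μ) y with hD
  have hDs : ∀ a μ ν, ContDiff ℝ ∞ (D a μ ν) := fun a μ ν =>
    (yg_smooth (hθ a ν) μ).sub (yg_smooth (hθ a μ) ν)
  set C : Fin N → Fin N → Fin N → V N → ℝ := fun a b c y =>
    ∑ μ, ∑ ν, D a μ ν y * e y μ b * e y ν c with hC
  have hCs : ∀ a b c, ContDiff ℝ ∞ (C a b c) := fun a b c =>
    ContDiff.sum fun μ _ => ContDiff.sum fun ν _ => ((hDs a μ ν).mul (hes μ b)).mul (hes ν c)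
  have hCanti : ∀ a b c y, C a c b y = - C a b c y := by
    intro a b c y
    simp only [hC]
    rw [Finset.sum_comm, ← Finset.sum_neg_distrib]
    refine Finset.sum_congr rfl fun μ _ => ?_
    rw [← Finset.sum_neg_distrib]
    refine Finset.sum_congr rfl fun ν _ => ?_
    simp only [hD]
    ring
  set G : Fin N → Fin N → Fin N → V N → ℝ := fun c a b y =>
    (C a b c y - C b a c y - C c a b y) / 2 with hG
  have hGs : ∀ c a b, ContDiff ℝ ∞ (G c a b) := fun c a b =>
    (((hCs a b c).sub (hCs b a c)).sub (hCs c a b)).div_const 2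
  -- contraction with the coframe
  have hCD : ∀ a μ ν y, ∑ b, ∑ c, C a b c y * θ y b μ * θ y c ν = D a μ ν y := by
    intro a μ ν y
    have h1 : ∀ α β : Fin N, ∑ b, e y α b * θ y b β = if α = β then 1 else 0 := by
      intro α β
      have := congrFun (congrFun (heθ y) α) β
      rw [Matrix.mul_apply] at this
      rw [this, Matrix.one_apply]
    calc ∑ b, ∑ c, C a b c y * θ y b μ * θ y c ν
        = ∑ b, ∑ c, ∑ α, ∑ β, D a α β y * (e y α b * θ y b μ) * (e y β c * θ y c ν) := by
          refine Finset.sum_congr rfl fun b _ => Finset.sum_congr rfl fun c _ => ?_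
          simp only [hC, Finset.sum_mul]
          refine Finset.sum_congr rfl fun α _ => Finset.sum_congr rfl fun β _ => ?_
          ring
      _ = ∑ α, ∑ β, D a α β y * (∑ b, e y α b * θ y b μ) * (∑ c, e y β c * θ y c ν) := by
          calc _ = ∑ α, ∑ β, ∑ b, ∑ c, D a α β y * (e y α b * θ y b μ) * (e y β c * θ y c ν) := by
                rw [Finset.sum_congr rfl fun b _ => Finset.sum_comm, Finset.sum_comm]
                refine Finset.sum_congr rfl fun α _ => ?_
                rw [Finset.sum_congr rfl fun b _ => Finset.sum_comm, Finset.sum_comm]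
            _ = _ := by
                refine Finset.sum_congr rfl fun α _ => Finset.sum_congr rfl fun β _ => ?_
                simp only [Finset.mul_sum, Finset.sum_mul]
                rw [Finset.sum_comm]
      _ = D a μ ν y := by
          simp only [h1, mul_ite, mul_one, mul_zero, Finset.sum_ite_eq', Finset.mem_univ, if_true]
  refine ⟨{ θ := θ
            e := e
            Γ := fun μ y => Matrix.of fun a b => ∑ c, θ y c μ * G c a b y
            smooth_θ := hθ
            smooth_e := hes
            smooth_Γ := fun μ a b => by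
              simp only [Matrix.of_apply]
              exact ContDiff.sum fun c _ => (hθ c μ).mul (hGs c a b)
            θe := hθe
            eθ := heθ
            det_pos := hdet
            anti := fun μ y a b => ?_
            torsion := fun μ ν y a => ?_ }, rfl⟩
  · simp only [Matrix.of_apply]
    rw [← Finset.sum_neg_distrib]
    refine Finset.sum_congr rfl fun c _ => ?_
    simp only [hG]
    rw [hCanti c a b]
    ring
  · simp only [Matrix.of_apply]
    have h2 : ∀ b, (∑ c, θ y c μ * G c a b y) * θ y b ν - (∑ c, θ y c ν * G c a b y) * θ y b μ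
        = (∑ c, G c a b y * θ y c μ * θ y b ν) - ∑ c, G c a b y * θ y b μ * θ y c ν := by
      intro b
      rw [Finset.sum_mul, Finset.sum_mul]
      congr 1
      · exact Finset.sum_congr rfl fun c _ => by ring
      · exact Finset.sum_congr rfl fun c _ => by ring
    rw [Finset.sum_congr rfl fun b _ => h2 b, Finset.sum_sub_distrib, Finset.sum_comm,
      ← Finset.sum_sub_distrib]
    have h3 : ∀ b : Fin N, (∑ c, G b a c y * θ y b μ * θ y c ν) - (∑ c, G c a b y * θ y b μ * θ y c ν)
        = - ∑ c, C a b c y * θ y b μ * θ y c ν := by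
      intro b
      rw [← Finset.sum_sub_distrib, ← Finset.sum_neg_distrib]
      refine Finset.sum_congr rfl fun c _ => ?_
      simp only [hG]
      rw [hCanti a b c]
      ring
    rw [Finset.sum_congr rfl fun b _ => h3 b, Finset.sum_neg_distrib, hCD]
    simp only [hD]
    ring

/-- The covariant derivative of the coframe: `θ_ak D_μ,aλ` are the Christoffel symbols. -/
private def Dc (g : Geo N) (μ a l : Fin N) (y : V N) : ℝ :=
  pd μ (fun y => g.θ y a l) y + ∑ b, g.Γ μ y a b * g.θ y b l

private theorem Dc_smooth (g : Geo N) (μ a l : Fin N) : ContDiff ℝ ∞ (Dc g μ a l) :=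
  (yg_smooth (g.smooth_θ a l) μ).add
    (ContDiff.sum fun b _ => (g.smooth_Γ μ a b).mul (g.smooth_θ b l))

private theorem Dc_symm (g : Geo N) (μ a l : Fin N) (y : V N) : Dc g μ a l y = Dc g l a μ y := by
  have h := g.torsion μ l y a
  rw [Finset.sum_sub_distrib] at h
  unfold Dc
  linarith

private theorem pd_h (g : Geo N) (μ l k : Fin N) (y : V N) :
    pd μ (fun y => g.h y l k) y = ∑ a, (g.θ y a k * Dc g μ a l y + g.θ y a l * Dc g μ a k y) := by
  have h1 : (fun y => g.h y l k) = fun y => ∑ a, g.θ y a l * g.θ y a k := by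
    funext y
    simp only [Geo.h, Matrix.mul_apply, Matrix.transpose_apply]
  have hd : ∀ a μ, Differentiable ℝ fun y => g.θ y a μ := fun a μ =>
    (g.smooth_θ a μ).differentiable (by simp)
  rw [h1, yg_sum _ fun a _ => (hd a l).fun_mul (hd a k)]
  have h2 : ∑ a, (g.θ y a k * ∑ b, g.Γ μ y a b * g.θ y b l)
      + ∑ a, (g.θ y a l * ∑ b, g.Γ μ y a b * g.θ y b k) = 0 := by
    have h3 : ∑ a, (g.θ y a k * ∑ b, g.Γ μ y a b * g.θ y b l)
        = - ∑ a, (g.θ y a l * ∑ b, g.Γ μ y a b * g.θ y b k) := by
      simp only [Finset.mul_sum]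
      rw [Finset.sum_comm, ← Finset.sum_neg_distrib]
      refine Finset.sum_congr rfl fun a _ => ?_
      rw [← Finset.sum_neg_distrib]
      refine Finset.sum_congr rfl fun b _ => ?_
      rw [g.anti μ y a b]
      ring
    rw [h3]
    ring
  have h4 : ∀ a, g.θ y a k * Dc g μ a l y + g.θ y a l * Dc g μ a k y
      = pd μ (fun y => g.θ y a l * g.θ y a k) y
        + (g.θ y a k * (∑ b, g.Γ μ y a b * g.θ y b l)
          + g.θ y a l * (∑ b, g.Γ μ y a b * g.θ y b k)) := by
    intro a
    rw [yg_mul (hd a l) (hd a k)]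
    unfold Dc
    ring
  rw [Finset.sum_congr rfl fun a _ => h4 a, Finset.sum_add_distrib, Finset.sum_add_distrib, h2,
    add_zero]

private theorem chr_h (g : Geo N) (i j k : Fin N) (y : V N) :
    chr g.h i j k y = ∑ a, g.θ y a k * Dc g i a j y := by
  unfold chr
  rw [pd_h, pd_h, pd_h, ← Finset.sum_add_distrib, ← Finset.sum_sub_distrib, Finset.sum_div]
  refine Finset.sum_congr rfl fun a _ => ?_
  rw [Dc_symm g j a i, Dc_symm g k a i, Dc_symm g k a j]
  ring

private theorem hinv (g : Geo N) (y : V N) : (g.h y)⁻¹ = g.e y * (g.e y)ᵀ := by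
  refine Matrix.inv_eq_left_inv ?_
  unfold Geo.h
  have h2 : (g.e y)ᵀ * (g.θ y)ᵀ = 1 := by
    rw [← Matrix.transpose_mul, g.θe, Matrix.transpose_one]
  rw [Matrix.mul_assoc, ← Matrix.mul_assoc ((g.e y)ᵀ), h2, Matrix.one_mul, g.eθ]

/-- `D_i D_j - D_j D_i` is the curvature. -/
private theorem Dc_comm (g : Geo N) (i j b k : Fin N) (y : V N) :
    pd i (Dc g j b k) y - pd j (Dc g i b k) y
      + ∑ a, (g.Γ i y b a * Dc g j a k y - g.Γ j y b a * Dc g i a k y)
      = ∑ c, g.F i j y b c * g.θ y c k := by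
  have hd : ∀ a μ, Differentiable ℝ fun y => g.θ y a μ := fun a μ =>
    (g.smooth_θ a μ).differentiable (by simp)
  have hG : ∀ μ a b, Differentiable ℝ fun y => g.Γ μ y a b := fun μ a b =>
    (g.smooth_Γ μ a b).differentiable (by simp)
  have h1 : ∀ i j, pd i (Dc g j b k) y = pd i (fun y => pd j (fun y => g.θ y b k) y) y
      + ∑ c, (pd i (fun y => g.Γ j y b c) y * g.θ y c k
        + g.Γ j y b c * pd i (fun y => g.θ y c k) y) := by
    intro i j
    have e1 : Dc g j b k = fun y => pd j (fun y => g.θ y b k) y + ∑ c, g.Γ j y b c * g.θ y c k := rfl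
    rw [e1, yg_add ((yg_smooth (g.smooth_θ b k) j).differentiable (by simp))
      (Differentiable.fun_sum fun c _ => (hG j b c).fun_mul (hd c k)),
      yg_sum _ fun c _ => (hG j b c).fun_mul (hd c k)]
    congr 1
    exact Finset.sum_congr rfl fun c _ => yg_mul (hG j b c) (hd c k) _ _
  have h2 : ∀ c, g.F i j y b c * g.θ y c k = pd i (fun y => g.Γ j y b c) y * g.θ y c k
      - pd j (fun y => g.Γ i y b c) y * g.θ y c k
      + (∑ a, g.Γ i y b a * g.Γ j y a c * g.θ y c k - ∑ a, g.Γ j y b a * g.Γ i y a c * g.θ y c k) := by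
    intro c
    unfold Geo.F
    rw [Matrix.of_apply, Matrix.sub_apply, Matrix.mul_apply, Matrix.mul_apply, ← Finset.sum_mul,
      ← Finset.sum_mul]
    ring
  rw [Finset.sum_congr rfl fun c _ => h2 c, h1, h1, yg_comm (g.smooth_θ b k) j i]
  simp only [Finset.sum_add_distrib, Finset.sum_sub_distrib]
  have h3 : ∀ i j, ∑ a, g.Γ i y b a * Dc g j a k y
      = (∑ a, g.Γ i y b a * pd j (fun y => g.θ y a k) y)
        + ∑ c, ∑ a, g.Γ i y b a * g.Γ j y a c * g.θ y c k := by
    intro i j
    rw [Finset.sum_comm, ← Finset.sum_add_distrib]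
    refine Finset.sum_congr rfl fun a _ => ?_
    unfold Dc
    rw [mul_add, Finset.mul_sum]
    congr 1
    exact Finset.sum_congr rfl fun c _ => by ring
  rw [h3, h3]
  ring

/-- `Riem_ijkl = ∑ θ_bl F_ij,bc θ_ck`. -/
private theorem riem_h (g : Geo N) (i j k l : Fin N) (y : V N) :
    riem g.h i j k l y = ∑ b, g.θ y b l * ∑ c, g.F i j y b c * g.θ y c k := by
  have hd : ∀ a μ, Differentiable ℝ fun y => g.θ y a μ := fun a μ =>
    (g.smooth_θ a μ).differentiable (by simp)
  have hD : ∀ μ a l, Differentiable ℝ (Dc g μ a l) := fun μ a l =>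
    (Dc_smooth g μ a l).differentiable (by simp)
  have h1 : ∀ i j, pd i (chr g.h j k l) y = ∑ a, (pd i (fun y => g.θ y a l) y * Dc g j a k y
      + g.θ y a l * pd i (Dc g j a k) y) := by
    intro i j
    have e1 : chr g.h j k l = fun y => ∑ a, g.θ y a l * Dc g j a k y := funext (chr_h g j k l)
    rw [e1, yg_sum _ fun a _ => (hd a l).fun_mul (hD j a k)]
    exact Finset.sum_congr rfl fun a _ => yg_mul (hd a l) (hD j a k) _ _
  -- the quadratic terms
  have h2 : ∀ i j k l, ∑ p, ∑ q, (g.h y)⁻¹ p q * (chr g.h i k p y * chr g.h j l q y)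
      = ∑ a, Dc g i a k y * Dc g j a l y := by
    intro i j k l
    have e1 : ∀ a c : Fin N, ∑ p, g.θ y a p * g.e y p c = if a = c then 1 else 0 := by
      intro a c
      have := congrFun (congrFun (g.θe y) a) c
      rw [Matrix.mul_apply] at this
      rw [this, Matrix.one_apply]
    have e2 : ∀ (u : Fin N → ℝ) (c : Fin N), ∑ p, g.e y p c * ∑ a, g.θ y a p * u a = u c := by
      intro u c
      simp only [Finset.mul_sum]
      rw [Finset.sum_comm]
      have e3 : ∀ a, ∑ p, g.e y p c * (g.θ y a p * u a) = (if a = c then 1 else 0) * u a := by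
        intro a
        rw [← e1, Finset.sum_mul]
        exact Finset.sum_congr rfl fun p _ => by ring
      rw [Finset.sum_congr rfl fun a _ => e3 a]
      simp
    calc ∑ p, ∑ q, (g.h y)⁻¹ p q * (chr g.h i k p y * chr g.h j l q y)
        = ∑ p, ∑ q, ∑ c, (g.e y p c * ∑ a, g.θ y a p * Dc g i a k y)
            * (g.e y q c * ∑ a, g.θ y a q * Dc g j a l y) := by
          refine Finset.sum_congr rfl fun p _ => Finset.sum_congr rfl fun q _ => ?_
          rw [hinv, Matrix.mul_apply, chr_h, chr_h, Finset.sum_mul]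
          refine Finset.sum_congr rfl fun c _ => ?_
          rw [Matrix.transpose_apply]
          ring
      _ = ∑ c, (∑ p, g.e y p c * ∑ a, g.θ y a p * Dc g i a k y)
            * (∑ q, g.e y q c * ∑ a, g.θ y a q * Dc g j a l y) := by
          rw [Finset.sum_congr rfl fun p _ => Finset.sum_comm, Finset.sum_comm]
          refine Finset.sum_congr rfl fun c _ => ?_
          rw [Finset.sum_mul_sum]
      _ = _ := by
          refine Finset.sum_congr rfl fun c _ => ?_
          rw [e2, e2]
  have h3 : ∑ p, ∑ q, (g.h y)⁻¹ p q * (chr g.h i k p y * chr g.h j l q y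
        - chr g.h j k p y * chr g.h i l q y)
      = (∑ a, Dc g i a k y * Dc g j a l y) - ∑ a, Dc g j a k y * Dc g i a l y := by
    rw [← h2, ← h2, ← Finset.sum_sub_distrib]
    refine Finset.sum_congr rfl fun p _ => ?_
    rw [← Finset.sum_sub_distrib]
    exact Finset.sum_congr rfl fun q _ => by ring
  -- the terms with the connection matrices
  have h4 : ∀ i j, ∑ a, (∑ b, g.Γ i y a b * g.θ y b l) * Dc g j a k y
      = - ∑ b, g.θ y b l * ∑ a, g.Γ i y b a * Dc g j a k y := by
    intro i j
    simp only [Finset.mul_sum, Finset.sum_mul]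
    rw [Finset.sum_comm, ← Finset.sum_neg_distrib]
    refine Finset.sum_congr rfl fun b _ => ?_
    rw [← Finset.sum_neg_distrib]
    refine Finset.sum_congr rfl fun a _ => ?_
    rw [g.anti i y b a]
    ring
  have h5 : ∀ i j, ∑ a, pd i (fun y => g.θ y a l) y * Dc g j a k y
      = (∑ a, Dc g i a l y * Dc g j a k y)
        + ∑ b, g.θ y b l * ∑ a, g.Γ i y b a * Dc g j a k y := by
    intro i j
    have e1 : ∑ a, Dc g i a l y * Dc g j a k y
        = (∑ a, pd i (fun y => g.θ y a l) y * Dc g j a k y)
          + ∑ a, (∑ b, g.Γ i y a b * g.θ y b l) * Dc g j a k y := by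
      rw [← Finset.sum_add_distrib]
      refine Finset.sum_congr rfl fun a _ => ?_
      unfold Dc
      ring
    rw [e1, h4]
    ring
  unfold riem
  rw [h3, h1, h1, Finset.sum_add_distrib, Finset.sum_add_distrib, h5, h5]
  have h6 : ∀ b, g.θ y b l * ∑ c, g.F i j y b c * g.θ y c k
      = g.θ y b l * pd i (Dc g j b k) y - g.θ y b l * pd j (Dc g i b k) y
        + (g.θ y b l * (∑ a, g.Γ i y b a * Dc g j a k y)
          - g.θ y b l * ∑ a, g.Γ j y b a * Dc g i a k y) := by
    intro b
    rw [← Dc_comm, Finset.sum_sub_distrib]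
    ring
  rw [Finset.sum_congr rfl fun b _ => h6 b]
  simp only [Finset.sum_add_distrib, Finset.sum_sub_distrib]
  have h7 : ∑ a, Dc g i a l y * Dc g j a k y = ∑ a, Dc g j a k y * Dc g i a l y :=
    Finset.sum_congr rfl fun a _ => mul_comm _ _
  have h8 : ∑ a, Dc g j a l y * Dc g i a k y = ∑ a, Dc g i a k y * Dc g j a l y :=
    Finset.sum_congr rfl fun a _ => mul_comm _ _
  rw [h7, h8]
  ring

/-- The scalar curvature of a coframe is the scalar curvature of its metric. -/
theorem Geo.scal_eq_scalS (g : Geo N) (y : V N) : g.scal y = scalS g.h y := by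
  have e1 : ∀ a c : Fin N, ∑ p, g.θ y a p * g.e y p c = if a = c then 1 else 0 := by
    intro a c
    have := congrFun (congrFun (g.θe y) a) c
    rw [Matrix.mul_apply] at this
    rw [this, Matrix.one_apply]
  have e2 : ∀ i b, ∑ l, (g.h y)⁻¹ i l * g.θ y b l = g.e y i b := by
    intro i b
    have e3 : ∀ l, (g.h y)⁻¹ i l * g.θ y b l = ∑ c, g.e y i c * (g.θ y b l * g.e y l c) := by
      intro l
      rw [hinv, Matrix.mul_apply, Finset.sum_mul]
      refine Finset.sum_congr rfl fun c _ => ?_
      rw [Matrix.transpose_apply]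
      ring
    rw [Finset.sum_congr rfl fun l _ => e3 l, Finset.sum_comm]
    simp only [← Finset.mul_sum, e1, mul_ite, mul_one, mul_zero, Finset.sum_ite_eq,
      Finset.mem_univ, if_true]
  unfold scalS
  have h1 : ∀ i j : Fin N, ∑ k, ∑ l, (g.h y)⁻¹ i l * (g.h y)⁻¹ j k * riem g.h i j k l y
      = ∑ b, ∑ c, g.e y i b * g.e y j c * g.F i j y b c := by
    intro i j
    calc ∑ k, ∑ l, (g.h y)⁻¹ i l * (g.h y)⁻¹ j k * riem g.h i j k l y
        = ∑ k, ∑ l, ∑ b, ∑ c, ((g.h y)⁻¹ i l * g.θ y b l) * ((g.h y)⁻¹ j k * g.θ y c k)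
            * g.F i j y b c := by
          refine Finset.sum_congr rfl fun k _ => Finset.sum_congr rfl fun l _ => ?_
          rw [riem_h, Finset.mul_sum]
          refine Finset.sum_congr rfl fun b _ => ?_
          rw [Finset.mul_sum, Finset.mul_sum]
          exact Finset.sum_congr rfl fun c _ => by ring
      _ = ∑ b, ∑ c, (∑ l, (g.h y)⁻¹ i l * g.θ y b l) * (∑ k, (g.h y)⁻¹ j k * g.θ y c k)
            * g.F i j y b c := by
          calc _ = ∑ b, ∑ c, ∑ k, ∑ l, ((g.h y)⁻¹ i l * g.θ y b l) * ((g.h y)⁻¹ j k * g.θ y c k)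
                  * g.F i j y b c := by
                rw [Finset.sum_congr rfl fun k _ => Finset.sum_comm, Finset.sum_comm]
                refine Finset.sum_congr rfl fun b _ => ?_
                rw [Finset.sum_congr rfl fun k _ => Finset.sum_comm, Finset.sum_comm]
            _ = _ := by
                refine Finset.sum_congr rfl fun b _ => Finset.sum_congr rfl fun c _ => ?_
                rw [Finset.sum_mul_sum, Finset.sum_mul, Finset.sum_comm]
                refine Finset.sum_congr rfl fun k _ => ?_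
                rw [Finset.sum_mul]
      _ = _ := by
          refine Finset.sum_congr rfl fun b _ => Finset.sum_congr rfl fun c _ => ?_
          rw [e2, e2]
  rw [Finset.sum_congr rfl fun i _ => Finset.sum_congr rfl fun j _ => h1 i j]
  unfold Geo.scal
  rw [← Finset.sum_neg_distrib]
  have h2 : ∑ i, ∑ j, ∑ b, ∑ c, g.e y i b * g.e y j c * g.F i j y b c
      = ∑ c, ∑ b, ∑ i, ∑ j, g.e y i b * g.e y j c * g.F i j y b c := by
    calc _ = ∑ i, ∑ b, ∑ j, ∑ c, g.e y i b * g.e y j c * g.F i j y b c :=
          Finset.sum_congr rfl fun i _ => Finset.sum_comm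
      _ = ∑ b, ∑ i, ∑ j, ∑ c, g.e y i b * g.e y j c * g.F i j y b c := Finset.sum_comm
      _ = ∑ b, ∑ i, ∑ c, ∑ j, g.e y i b * g.e y j c * g.F i j y b c :=
          Finset.sum_congr rfl fun b _ => Finset.sum_congr rfl fun i _ => Finset.sum_comm
      _ = ∑ b, ∑ c, ∑ i, ∑ j, g.e y i b * g.e y j c * g.F i j y b c :=
          Finset.sum_congr rfl fun b _ => Finset.sum_comm
      _ = _ := Finset.sum_comm
  rw [h2]
  refine Finset.sum_congr rfl fun a _ => ?_
  rw [← Finset.sum_neg_distrib]
  refine Finset.sum_congr rfl fun c _ => ?_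
  rw [← Finset.sum_neg_distrib]
  refine Finset.sum_congr rfl fun μ _ => ?_
  rw [← Finset.sum_neg_distrib]
  refine Finset.sum_congr rfl fun ν _ => ?_
  rw [yg_F_anti g μ ν y a c]
  ring

theorem existsGeo (N : ℕ) : ExistsGeo N := by
  rintro h ⟨hs, hp⟩
  obtain ⟨θ, h1, h2, h3⟩ := exists_chol N h hs hp
  obtain ⟨g, hg⟩ := exists_geo_of_coframe h1 h3
  have h4 : g.h = h := by
    funext y
    rw [Geo.h, hg, h2]
  exact ⟨g, fun y => by rw [h4], fun y => by rw [g.scal_eq_scalS, h4]⟩

end Pool.Agent.Lib.MP_df705a_gt.RL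
end
end

section

/-!
TASK B1. The functions `f_s`.

PROOF. `fS s r = exp (-(s x))` with `x = 1/r - 1` for `r > 0`. Continuity: at points `r < 0` the
function is locally `0`, at points `r > 0` it is locally the continuous formula; at `0`:
`0 ≤ fS s r ≤ exp s * exp (-(s/r))` for `r > 0`, and `exp (-(s/r)) → 0` for `r → 0+`
(`s > 0`). For `0 < r ≤ 1` we have `x ≥ 0`, hence `fS s r ≤ 1` for `s ≥ 0`, and `r = 1/(1+x)`.
`fS_sub_mul`: `|exp(-s x) - 1| r ≤ s x r = s (1 - r) ≤ s` for `r > 0` (`1 - e^{-y} ≤ y` for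
`y ≥ 0`); at `r = 0` the left side is `|0 - 1| * 0 = 0`.
`fS_lip`: `|exp(-s x) - exp(-t x)| ≤ |s - t| x exp(-min(s,t) x)` and `y e^{-y} ≤ 1` give
`≤ |s - t| / min(s,t)`.
`fS_diff2`: `|e^{-(s+h)x} - e^{-sx} + h x e^{-sx}| = e^{-sx} |e^{-hx} - 1 + h x| ≤
e^{-sx} (h x)² e^{|h| x} / 2` (Taylor: `|e^{-y} - 1 + y| ≤ y² e^{|y|} / 2`, `|h| ≤ s/2`), and
`x² e^{-sx/2} ≤ 4 / s²` (as `y² e^{-y} ≤ 1` for `y = s x / 2 ≥ 0`). Multiply with `r ≤ 1` and use
`r x = 1 - r`.
-/

open scoped InnerProductSpace ENNReal NNReal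
open Filter Topology Set MeasureTheory

namespace Pool.Agent.Lib.MP_df705a_gt.RL

noncomputable section

variable {H : Type*} [NormedAddCommGroup H] [InnerProductSpace ℂ H] [CompleteSpace H]

theorem B1_pos {s r : ℝ} (hr : 0 < r) : fS s r = Real.exp (-(s * (1 / r - 1))) := by
  simp [fS, not_le.2 hr]

theorem B1_nonpos {s r : ℝ} (hr : r ≤ 0) : fS s r = 0 := by
  simp [fS, hr]

theorem B1_x_nonneg {r : ℝ} (h0 : 0 < r) (h1 : r ≤ 1) : 0 ≤ 1 / r - 1 := by
  rw [sub_nonneg, le_div_iff₀ h0]
  linarith

/-- `e^y - 1 - y ≤ y²/2 e^y` for `y ≥ 0` -/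
theorem B1_taylor_nonneg {y : ℝ} (hy : 0 ≤ y) :
    Real.exp y - 1 - y ≤ y ^ 2 / 2 * Real.exp y := by
  have hd : ∀ x : ℝ, HasDerivAt (fun y : ℝ => (1 + y) * Real.exp (-y) + y ^ 2 / 2)
      (x * (1 - Real.exp (-x))) x := by
    intro x
    have h1 : HasDerivAt (fun y : ℝ => 1 + y) 1 x := (hasDerivAt_id x).const_add 1
    have h2 : HasDerivAt (fun y : ℝ => Real.exp (-y)) (Real.exp (-x) * (-1)) x :=
      (hasDerivAt_neg x).exp
    have h3 : HasDerivAt (fun y : ℝ => y ^ 2 / 2) (x) x := by
      have := (hasDerivAt_pow 2 x).div_const 2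
      have e : ((2 : ℕ) : ℝ) * x ^ (2 - 1) / 2 = x := by norm_num
      rwa [e] at this
    have := (h1.mul h2).add h3
    have e : 1 * Real.exp (-x) + (1 + x) * (Real.exp (-x) * -1) + x = x * (1 - Real.exp (-x)) := by
      ring
    rw [← e]
    exact this
  have hm : MonotoneOn (fun y : ℝ => (1 + y) * Real.exp (-y) + y ^ 2 / 2) (Set.Ici 0) := by
    refine monotoneOn_of_deriv_nonneg (convex_Ici 0)
      (fun x _ => (hd x).continuousAt.continuousWithinAt)
      (fun x _ => (hd x).differentiableAt.differentiableWithinAt) ?_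
    intro x hx
    rw [interior_Ici] at hx
    rw [(hd x).deriv]
    have hx' : 0 < x := hx
    refine mul_nonneg hx'.le (sub_nonneg.2 ?_)
    rw [Real.exp_le_one_iff]
    linarith
  have h := hm (Set.mem_Ici.2 le_rfl) (Set.mem_Ici.2 hy) hy
  simp only [add_zero, neg_zero, Real.exp_zero, mul_one] at h
  have hp := Real.exp_pos y
  have e1 : Real.exp (-y) * Real.exp y = 1 := by rw [← Real.exp_add]; simp
  have h2 : (1 : ℝ) ≤ (1 + y) * Real.exp (-y) + y ^ 2 / 2 := by
    have : (1 : ℝ) + 0 ^ 2 / 2 ≤ (1 + y) * Real.exp (-y) + y ^ 2 / 2 := h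
    linarith [this]
  nlinarith [mul_le_mul_of_nonneg_right h2 hp.le]

theorem B1_taylor (z : ℝ) : |Real.exp z - 1 - z| ≤ z ^ 2 / 2 * Real.exp |z| := by
  have hnn : 0 ≤ Real.exp z - 1 - z := by linarith [Real.add_one_le_exp z]
  rw [abs_of_nonneg hnn]
  rcases le_total 0 z with hz | hz
  · rw [abs_of_nonneg hz]
    exact B1_taylor_nonneg hz
  · rw [abs_of_nonpos hz]
    -- `e^z - 1 - z ≤ e^{-z} - 1 + z`
    have h := B1_taylor_nonneg (neg_nonneg.2 hz)
    have h3 : Real.exp z - Real.exp (-z) ≤ 2 * z := by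
      have hd : ∀ x : ℝ, HasDerivAt (fun y : ℝ => Real.exp y - Real.exp (-y) - 2 * y)
          (Real.exp x + Real.exp (-x) - 2) x := by
        intro x
        have h1 := Real.hasDerivAt_exp x
        have h2 : HasDerivAt (fun y : ℝ => Real.exp (-y)) (Real.exp (-x) * (-1)) x :=
          (hasDerivAt_neg x).exp
        have h3 : HasDerivAt (fun y : ℝ => 2 * y) 2 x := by
          simpa using (hasDerivAt_id x).const_mul 2
        have := (h1.sub h2).sub h3
        have e : Real.exp x - Real.exp (-x) * -1 - 2 = Real.exp x + Real.exp (-x) - 2 := by ring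
        rw [← e]
        exact this
      have hm : Monotone (fun y : ℝ => Real.exp y - Real.exp (-y) - 2 * y) := by
        refine monotone_of_deriv_nonneg (fun x => (hd x).differentiableAt) ?_
        intro x
        rw [(hd x).deriv]
        have e1 : Real.exp (-x) * Real.exp x = 1 := by rw [← Real.exp_add]; simp
        nlinarith [Real.exp_pos x, Real.exp_pos (-x), sq_nonneg (Real.exp x - 1),
          sq_nonneg (Real.exp (-x) - 1), sq_nonneg (Real.exp x - Real.exp (-x))]
      have := hm hz
      simp only [neg_zero, Real.exp_zero, mul_zero, sub_self] at this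
      linarith
    have e : (-z) ^ 2 = z ^ 2 := by ring
    rw [e] at h
    linarith

theorem B1_ye (y : ℝ) : y * Real.exp (-y) ≤ 1 := by
  have h := Real.add_one_le_exp y
  have e1 : Real.exp (-y) * Real.exp y = 1 := by rw [← Real.exp_add]; simp
  nlinarith [Real.exp_pos (-y)]

theorem B1_y2e {y : ℝ} (hy : 0 ≤ y) : y ^ 2 * Real.exp (-y) ≤ 1 := by
  have h := Real.add_one_le_exp (y / 2)
  have h0 : (0 : ℝ) ≤ y / 2 := by positivity
  have hsq : y ^ 2 ≤ Real.exp y := by
    have e2 : Real.exp y = Real.exp (y / 2) ^ 2 := by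
      rw [← Real.exp_nat_mul]
      congr 1
      push_cast
      ring
    have h4 : y ≤ Real.exp (y / 2) := by
      have h5 := Real.quadratic_le_exp_of_nonneg h0
      nlinarith [sq_nonneg (y / 2 - 1)]
    rw [e2]
    exact pow_le_pow_left₀ hy h4 2
  have e1 : Real.exp (-y) * Real.exp y = 1 := by rw [← Real.exp_add]; simp
  nlinarith [Real.exp_pos (-y)]

theorem fS_nonneg (s r : ℝ) : 0 ≤ fS s r := by
  unfold fS
  split_ifs
  · exact le_rfl
  · exact (Real.exp_pos _).le

theorem fS_continuous {s : ℝ} (hs : 0 < s) : Continuous (fS s) := by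
  rw [continuous_iff_continuousAt]
  intro r
  rcases lt_trichotomy r 0 with hr | hr | hr
  · have : fS s =ᶠ[𝓝 r] fun _ => 0 := by
      filter_upwards [Iio_mem_nhds hr] with x hx
      exact B1_nonpos (le_of_lt hx)
    exact continuousAt_const.congr this.symm
  · subst hr
    rw [ContinuousAt, B1_nonpos le_rfl]
    -- squeeze
    have hub : ∀ x : ℝ, fS s x ≤ Real.exp s / s * |x| := by
      intro x
      rcases le_or_gt x 0 with hx | hx
      · rw [B1_nonpos hx]
        positivity
      · rw [B1_pos hx, abs_of_pos hx]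
        have e : Real.exp (-(s * (1 / x - 1))) = Real.exp s * Real.exp (-(s / x)) := by
          rw [← Real.exp_add]
          congr 1
          ring
        rw [e]
        have h := B1_ye (s / x)
        have h2 : Real.exp (-(s / x)) ≤ x / s := by
          rw [le_div_iff₀ hs]
          have h3 := mul_le_mul_of_nonneg_right h hx.le
          have e3 : s / x * Real.exp (-(s / x)) * x = Real.exp (-(s / x)) * s := by
            field_simp
          rw [e3, one_mul] at h3
          exact h3
        calc Real.exp s * Real.exp (-(s / x)) ≤ Real.exp s * (x / s) :=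
              mul_le_mul_of_nonneg_left h2 (Real.exp_pos s).le
          _ = Real.exp s / s * x := by ring
    have hlim : Tendsto (fun x : ℝ => Real.exp s / s * |x|) (𝓝 0) (𝓝 0) := by
      have : Continuous (fun x : ℝ => Real.exp s / s * |x|) := by fun_prop
      have h := this.tendsto 0
      simpa using h
    exact tendsto_of_tendsto_of_tendsto_of_le_of_le tendsto_const_nhds hlim
      (fun x => fS_nonneg s x) hub
  · have : fS s =ᶠ[𝓝 r] fun x => Real.exp (-(s * (1 / x - 1))) := by
      filter_upwards [Ioi_mem_nhds hr] with x hx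
      exact B1_pos hx
    refine ContinuousAt.congr ?_ this.symm
    have hne : r ≠ 0 := hr.ne'
    fun_prop (disch := assumption)

theorem fS_le_one {s r : ℝ} (hs : 0 ≤ s) (hr : r ≤ 1) : fS s r ≤ 1 := by
  rcases le_or_gt r 0 with h | h
  · rw [B1_nonpos h]
    exact zero_le_one
  · rw [B1_pos h, Real.exp_le_one_iff]
    have := mul_nonneg hs (B1_x_nonneg h hr)
    linarith

theorem fS_mul (s t r : ℝ) : fS s r * fS t r = fS (s + t) r := by
  rcases le_or_gt r 0 with h | h
  · rw [B1_nonpos h, B1_nonpos h, B1_nonpos h, zero_mul]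
  · rw [B1_pos h, B1_pos h, B1_pos h, ← Real.exp_add]
    congr 1
    ring

theorem fS_sub_mul {s r : ℝ} (hs : 0 ≤ s) (h0 : 0 ≤ r) (h1 : r ≤ 1) :
    |fS s r - 1| * r ≤ s := by
  rcases h0.eq_or_lt with h | h
  · rw [← h]
    simpa using hs
  · have hle := fS_le_one hs h1
    rw [abs_of_nonpos (by linarith), B1_pos h]
    have h2 := Real.add_one_le_exp (-(s * (1 / r - 1)))
    have h3 : -(Real.exp (-(s * (1 / r - 1))) - 1) ≤ s * (1 / r - 1) := by linarith
    calc -(Real.exp (-(s * (1 / r - 1))) - 1) * r ≤ s * (1 / r - 1) * r :=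
          mul_le_mul_of_nonneg_right h3 h0
      _ = s * (1 - r) := by field_simp
      _ ≤ s := by nlinarith

theorem fS_lip {s t m r : ℝ} (hm : 0 < m) (hs : m ≤ s) (ht : m ≤ t) (h0 : 0 ≤ r) (h1 : r ≤ 1) :
    |fS s r - fS t r| ≤ |s - t| / m := by
  rcases h0.eq_or_lt with h | h
  · rw [B1_nonpos h.symm.le, B1_nonpos h.symm.le]
    simp only [sub_self, abs_zero]
    positivity
  · -- the case `s ≤ t`
    have main : ∀ s t : ℝ, m ≤ s → s ≤ t → |fS s r - fS t r| ≤ |s - t| / m := by
      intro s t hs hst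
      have hx := B1_x_nonneg h h1
      rw [B1_pos h, B1_pos h]
      set x := 1 / r - 1 with hxdef
      have e : Real.exp (-(t * x)) = Real.exp (-(s * x)) * Real.exp (-((t - s) * x)) := by
        rw [← Real.exp_add]
        congr 1
        ring
      have hle : Real.exp (-((t - s) * x)) ≤ 1 := by
        rw [Real.exp_le_one_iff]
        have := mul_nonneg (sub_nonneg.2 hst) hx
        linarith
      have h2 := Real.add_one_le_exp (-((t - s) * x))
      have hp := Real.exp_pos (-(s * x))
      rw [e]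
      have e2 : Real.exp (-(s * x)) - Real.exp (-(s * x)) * Real.exp (-((t - s) * x)) =
          Real.exp (-(s * x)) * (1 - Real.exp (-((t - s) * x))) := by ring
      rw [e2, abs_of_nonneg (mul_nonneg hp.le (by linarith)), abs_of_nonpos (by linarith)]
      have hs0 : 0 < s := lt_of_lt_of_le hm hs
      have h4 : x * Real.exp (-(s * x)) ≤ 1 / m := by
        have h5 := B1_ye (s * x)
        rw [le_div_iff₀ hm]
        have h6 : 0 ≤ x * Real.exp (-(s * x)) := mul_nonneg hx hp.le
        calc x * Real.exp (-(s * x)) * m ≤ x * Real.exp (-(s * x)) * s :=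
              mul_le_mul_of_nonneg_left hs h6
          _ = s * x * Real.exp (-(s * x)) := by ring
          _ ≤ 1 := h5
      calc Real.exp (-(s * x)) * (1 - Real.exp (-((t - s) * x)))
          ≤ Real.exp (-(s * x)) * ((t - s) * x) :=
            mul_le_mul_of_nonneg_left (by linarith) hp.le
        _ = (t - s) * (x * Real.exp (-(s * x))) := by ring
        _ ≤ (t - s) * (1 / m) := mul_le_mul_of_nonneg_left h4 (by linarith)
        _ = -(s - t) / m := by ring
    rcases le_total s t with hst | hst
    · exact main s t hs hst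
    · rw [abs_sub_comm, abs_sub_comm s t]
      exact main t s ht hst

theorem fS_diff2 {s h r : ℝ} (hs : 0 < s) (hh : |h| ≤ s / 2) (h0 : 0 ≤ r) (h1 : r ≤ 1) :
    |fS (s + h) r * r - fS s r * r + h * ((1 - r) * fS s r)| ≤ 2 / s ^ 2 * h ^ 2 := by
  rcases h0.eq_or_lt with h' | h'
  · rw [B1_nonpos h'.symm.le, B1_nonpos h'.symm.le]
    simp only [zero_mul, mul_zero, sub_self, add_zero, abs_zero]
    positivity
  · have hx := B1_x_nonneg h' h1
    rw [B1_pos h', B1_pos h']
    have hrx : 1 - r = r * (1 / r - 1) := by field_simp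
    rw [hrx]
    set x := 1 / r - 1 with hxdef
    have e : Real.exp (-((s + h) * x)) = Real.exp (-(s * x)) * Real.exp (-(h * x)) := by
      rw [← Real.exp_add]
      congr 1
      ring
    rw [e]
    have e2 : Real.exp (-(s * x)) * Real.exp (-(h * x)) * r - Real.exp (-(s * x)) * r +
        h * (r * x * Real.exp (-(s * x))) =
        r * Real.exp (-(s * x)) * (Real.exp (-(h * x)) - 1 - -(h * x)) := by ring
    have hp := Real.exp_pos (-(s * x))
    rw [e2, abs_mul, abs_of_nonneg (mul_nonneg h0 hp.le)]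
    have h3 := B1_taylor (-(h * x))
    have h4 : |(-(h * x))| ≤ s / 2 * x := by
      rw [abs_neg, abs_mul, abs_of_nonneg hx]
      exact mul_le_mul_of_nonneg_right hh hx
    have h5 : Real.exp |(-(h * x))| ≤ Real.exp (s / 2 * x) := Real.exp_le_exp.2 h4
    have h6 : Real.exp (-(s * x)) * Real.exp (s / 2 * x) = Real.exp (-(s * x / 2)) := by
      rw [← Real.exp_add]
      congr 1
      ring
    have h7 := B1_y2e (y := s * x / 2) (by positivity)
    have h8 : x ^ 2 * Real.exp (-(s * x / 2)) ≤ 4 / s ^ 2 := by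
      rw [le_div_iff₀ (by positivity)]
      nlinarith [h7]
    calc r * Real.exp (-(s * x)) * |Real.exp (-(h * x)) - 1 - -(h * x)|
        ≤ r * Real.exp (-(s * x)) * ((-(h * x)) ^ 2 / 2 * Real.exp |(-(h * x))|) :=
          mul_le_mul_of_nonneg_left h3 (mul_nonneg h0 hp.le)
      _ ≤ r * Real.exp (-(s * x)) * ((-(h * x)) ^ 2 / 2 * Real.exp (s / 2 * x)) := by
          refine mul_le_mul_of_nonneg_left ?_ (mul_nonneg h0 hp.le)
          exact mul_le_mul_of_nonneg_left h5 (by positivity)
      _ = r * (h ^ 2 / 2 * (x ^ 2 * (Real.exp (-(s * x)) * Real.exp (s / 2 * x)))) := by ring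
      _ = r * (h ^ 2 / 2 * (x ^ 2 * Real.exp (-(s * x / 2)))) := by rw [h6]
      _ ≤ 1 * (h ^ 2 / 2 * (4 / s ^ 2)) := by
          refine mul_le_mul h1 (mul_le_mul_of_nonneg_left h8 (by positivity)) (by positivity)
            zero_le_one
      _ = 2 / s ^ 2 * h ^ 2 := by ring

end

end Pool.Agent.Lib.MP_df705a_gt.RL
end

section

/-!
TASK B2. The operators `S_s = f_s(R)`.

PROOF. All functions are continuous on the spectrum, which is in `[0,1]` (`R.spec`).
`cfc_norm_le'`: `norm_cfc_le` (`‖cfc f R‖ ≤ c` if `‖f r‖ ≤ c` on the spectrum). `Sop_sa`: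
`cfc_predicate` or `IsSelfAdjoint.cfc`. `Sop_mul`: `cfc_mul` and `fS_mul`. `Sop_comm`:
`Commute.cfc_real`.
-/

open scoped InnerProductSpace ENNReal NNReal
open Filter Topology Set MeasureTheory

namespace Pool.Agent.Lib.MP_df705a_gt.RL

noncomputable section

variable {H : Type*} [NormedAddCommGroup H] [InnerProductSpace ℂ H] [CompleteSpace H]

variable {R : H →L[ℂ] H}

theorem cfc_norm_le' (hR : IsCon R) {f : ℝ → ℝ} {c : ℝ} (hc : 0 ≤ c)
    (hf : ∀ r ∈ Icc (0 : ℝ) 1, |f r| ≤ c) : ‖cfc f R‖ ≤ c := by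
  apply norm_cfc_le hc
  intro r hr
  rw [Real.norm_eq_abs]
  exact hf r (hR.spec hr)

theorem Sop_sa (s : ℝ) : IsSelfAdjoint (Sop R s) := by
  exact IsSelfAdjoint.cfc

theorem Sop_norm (hR : IsCon R) {s : ℝ} (hs : 0 ≤ s) : ‖Sop R s‖ ≤ 1 := by
  apply cfc_norm_le' hR zero_le_one
  intro r hr
  rw [abs_of_nonneg (fS_nonneg s r)]
  exact fS_le_one hs hr.2

theorem Sop_mul (hR : IsCon R) {s t : ℝ} (hs : 0 < s) (ht : 0 < t) :
    Sop R s * Sop R t = Sop R (s + t) := by
  rw [Sop, Sop, Sop, ← cfc_mul _ _ R ((fS_continuous hs).continuousOn)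
    ((fS_continuous ht).continuousOn)]
  congr 1
  ext r
  exact fS_mul s t r

theorem Sop_comm {T : H →L[ℂ] H} (h : Commute R T) (s : ℝ) : Commute (Sop R s) T := by
  exact Commute.cfc_real h (fS s)

end

end Pool.Agent.Lib.MP_df705a_gt.RL
end

section

/-!
TASK C4. The standard basis of a separable space is countable.

PROOF. The index set is a set `w : Set H` and `stdB H` is orthonormal
(`HilbertBasis.orthonormal`), so different elements have the distance `√2 > 1`. In a separable
metric space a family of points with pairwise distances `≥ 1` is countable: choose a countable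
dense set, every ball of radius `1/2` about a basis vector contains a point of it, and the balls
are disjoint (`Set.PairwiseDisjoint.countable_of_isOpen`, or
`TopologicalSpace.separableSpace...`, or the second countability of the discrete range).
-/

open scoped InnerProductSpace ENNReal NNReal
open Filter Topology Set MeasureTheory

namespace Pool.Agent.Lib.MP_df705a_gt.RL

noncomputable section

variable {H : Type*} [NormedAddCommGroup H] [InnerProductSpace ℂ H] [CompleteSpace H]

theorem stdB_countable [TopologicalSpace.SeparableSpace H] :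
    Countable ↥(exists_hilbertBasis ℂ H).choose := by
  have ho := (stdB H).orthonormal
  have hd : ∀ i j, i ≠ j → (1 : ℝ) ≤ dist (stdB H i) (stdB H j) := by
    intro i j hij
    have h1 : ‖stdB H i - stdB H j‖ ^ 2 = 2 := by
      have h2 := @norm_sub_sq ℂ H _ _ _ (stdB H i) (stdB H j)
      rw [ho.2 hij, ho.1 i, ho.1 j] at h2
      rw [h2]
      simp
      norm_num
    rw [dist_eq_norm]
    by_contra hc
    push Not at hc
    nlinarith [norm_nonneg (stdB H i - stdB H j)]
  refine Pairwise.countable_of_isOpen_disjoint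
    (s := fun i => Metric.ball (stdB H i) (1 / 2)) ?_ (fun i => Metric.isOpen_ball)
    (fun i => ⟨stdB H i, Metric.mem_ball_self (by norm_num)⟩)
  intro i j hij
  apply Metric.ball_disjoint_ball
  have := hd i j hij
  linarith

end

end Pool.Agent.Lib.MP_df705a_gt.RL
end

section

/-!
TASK C5. Strong measurability of families of operators.

A family `A x` (`x ∈ X`) of bounded operators is called measurable, `SM A`, if `x ↦ A x u` is
strongly measurable for every `u`. `H` is separable.

PROOF. `SM_mul`: `(v, x) ↦ A x v` is continuous in `v` and strongly measurable in `x`, so it is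
jointly strongly measurable (`stronglyMeasurable_uncurry_of_continuous_of_stronglyMeasurable`,
`H` is second countable), compose with `x ↦ (B x u, x)`. `SM_of_weak`: `A x u =
∑ᵢ ⟪b i, A x u⟫ b i` (`HilbertBasis.hasSum_repr`, countable index, `stdB_countable`), a limit of
finite sums of strongly measurable functions (`stronglyMeasurable_of_tendsto` along the
countably generated filter `atTop` on finite sets, or re-index by `ℕ`); or use Pettis'
theorem in Mathlib if you find it. `SM_inner` is `StronglyMeasurable.inner`.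
`SM_of_tendsto`: `stronglyMeasurable_of_tendsto`.
-/

open scoped InnerProductSpace ENNReal NNReal
open Filter Topology Set MeasureTheory

namespace Pool.Agent.Lib.MP_df705a_gt.RL

noncomputable section

variable {H : Type*} [NormedAddCommGroup H] [InnerProductSpace ℂ H] [CompleteSpace H]

variable {X : Type*} [MeasurableSpace X]

/-- `x ↦ A x u` is strongly measurable for every `u`. -/
def SM (A : X → H →L[ℂ] H) : Prop := ∀ u, StronglyMeasurable fun x => A x u

theorem SM_mul [TopologicalSpace.SeparableSpace H] {A B : X → H →L[ℂ] H} (hA : SM A)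
    (hB : SM B) : SM fun x => A x * B x := by
  intro u
  have : SecondCountableTopology H := UniformSpace.secondCountable_of_separable H
  borelize H
  have h1 : StronglyMeasurable (Function.uncurry fun (v : H) (x : X) => A x v) :=
    stronglyMeasurable_uncurry_of_continuous_of_stronglyMeasurable
      (fun x => (A x).continuous) (fun v => hA v)
  have h2 : Measurable fun x => ((B x u, x) : H × X) := (hB u).measurable.prodMk measurable_id
  exact h1.comp_measurable h2

theorem SM_of_weak [TopologicalSpace.SeparableSpace H] {A : X → H →L[ℂ] H}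
    (h : ∀ u v, Measurable fun x => ⟪v, A x u⟫_ℂ) : SM A := by
  intro u
  have := stdB_countable (H := H)
  refine stronglyMeasurable_of_tendsto (f := fun (s : Finset ↥(exists_hilbertBasis ℂ H).choose)
    (x : X) => ∑ i ∈ s, ⟪stdB H i, A x u⟫_ℂ • stdB H i) atTop ?_ ?_
  · intro s
    refine Finset.stronglyMeasurable_fun_sum s fun i _ => ?_
    exact (h u (stdB H i)).stronglyMeasurable.smul_const _
  · rw [tendsto_pi_nhds]
    intro x
    have h1 := (stdB H).hasSum_repr (A x u)
    simp only [HilbertBasis.repr_apply_apply] at h1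
    exact h1

theorem SM_add {A B : X → H →L[ℂ] H} (hA : SM A) (hB : SM B) : SM fun x => A x + B x := by
  intro u
  exact (hA u).add (hB u)

theorem SM_smul {A : X → H →L[ℂ] H} (c : ℂ) (hA : SM A) : SM fun x => c • A x := by
  intro u
  exact (hA u).const_smul c

theorem SM_const (A : H →L[ℂ] H) : SM fun _ : X => A := by
  intro u
  exact stronglyMeasurable_const

theorem SM_of_tendsto {A : ℕ → X → H →L[ℂ] H} {B : X → H →L[ℂ] H} (hA : ∀ n, SM (A n))
    (h : ∀ x u, Tendsto (fun n => A n x u) atTop (𝓝 (B x u))) : SM B := by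
  intro u
  refine stronglyMeasurable_of_tendsto (f := fun n x => A n x u) atTop (fun n => hA n u) ?_
  rw [tendsto_pi_nhds]
  intro x
  exact h x u

theorem SM_star [TopologicalSpace.SeparableSpace H] {A : X → H →L[ℂ] H} (hA : SM A) :
    SM fun x => star (A x) := by
  apply SM_of_weak
  intro u v
  simp only [ContinuousLinearMap.star_eq_adjoint, ContinuousLinearMap.adjoint_inner_right]
  exact ((hA v).inner stronglyMeasurable_const).measurable

theorem measurable_hs [TopologicalSpace.SeparableSpace H] {A : X → H →L[ℂ] H} (hA : SM A) :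
    Measurable fun x => hs (A x) := by
  have := stdB_countable (H := H)
  unfold hs
  exact Measurable.tsum fun i => ((hA (stdB H i)).enorm.pow_const 2)

end

end Pool.Agent.Lib.MP_df705a_gt.RL
end

section

/-!
TASK C7. The distance to a subspace spanned by measurable vectors is measurable.

`E` is a separable complex Hilbert space (later `WithLp 2 (H × H)`).

PROOF. `‖u - P u‖` is the distance of `u` to the closure of the span, which is the infimum of
`‖u - ∑_{n} c n • v n x‖` over the finitely supported `c : ℕ →₀ ℂ`, and this is the infimum over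
the finitely supported `c` with values in `ℚ + iℚ` (density: for fixed `x` the norm is continuous
in the coefficients `c n`, `n ∈ supp`). So it is the infimum of countably many measurable functions
(`Measurable.iInf`; index type `ℕ →₀ ℚ × ℚ` is countable).
`‖P u‖² = ‖u‖² - ‖u - P u‖²`; `⟪w, P u⟫ = ⟪P w, P u⟫` is a combination of
`‖P (u + i^k w)‖²`, `k = 0..3` (polarization, `inner_eq_sum_norm_sq_div_four`).
-/

open scoped InnerProductSpace ENNReal NNReal
open Filter Topology Set MeasureTheory

namespace Pool.Agent.Lib.MP_df705a_gt.RL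

noncomputable section

variable {H : Type*} [NormedAddCommGroup H] [InnerProductSpace ℂ H] [CompleteSpace H]

variable {X : Type*} [MeasurableSpace X]
variable {E : Type*} [NormedAddCommGroup E] [InnerProductSpace ℂ E] [CompleteSpace E]

def C7_q (q : ℚ × ℚ) : ℂ := ⟨(q.1 : ℝ), (q.2 : ℝ)⟩

omit [CompleteSpace E] in
theorem C7_dense : DenseRange C7_q := by
  have h1 : DenseRange (Prod.map (fun q : ℚ => (q : ℝ)) (fun q : ℚ => (q : ℝ))) :=
    Rat.denseRange_cast.prodMap Rat.denseRange_cast
  have h2 := Complex.equivRealProdCLM.symm.surjective.denseRange.comp h1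
    Complex.equivRealProdCLM.symm.continuous
  exact h2

def C7_qh : ℚ × ℚ →+ ℂ where
  toFun := C7_q
  map_zero' := by
    apply Complex.ext <;> simp [C7_q]
  map_add' a b := by
    apply Complex.ext <;> simp [C7_q]

def C7_F (w : ℕ → E) : (ℕ →₀ ℚ × ℚ) →+ E :=
  Finsupp.liftAddHom (fun n => ((smulAddHom ℂ E).flip (w n)).comp C7_qh)

theorem C7_F_apply (w : ℕ → E) (c : ℕ →₀ ℚ × ℚ) :
    C7_F w c = ∑ n ∈ c.support, C7_q (c n) • w n := by
  rfl

theorem C7_F_mem (w : ℕ → E) (c : ℕ →₀ ℚ × ℚ) :
    C7_F w c ∈ Submodule.span ℂ (range w) := by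
  rw [C7_F_apply]
  exact Submodule.sum_mem _ fun n _ =>
    Submodule.smul_mem _ _ (Submodule.subset_span ⟨n, rfl⟩)

theorem C7_single (w : ℕ → E) (n : ℕ) (a : ℂ) :
    a • w n ∈ (C7_F w).range.topologicalClosure := by
  have hc : Continuous fun z : ℂ => z • w n := continuous_id.smul continuous_const
  have h1 : a ∈ closure (range C7_q) := C7_dense a
  have h2 : (fun z : ℂ => z • w n) a ∈ closure ((fun z : ℂ => z • w n) '' range C7_q) :=
    image_closure_subset_closure_image hc ⟨a, h1, rfl⟩
  refine closure_mono ?_ h2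
  rintro _ ⟨_, ⟨q, rfl⟩, rfl⟩
  refine ⟨Finsupp.single n q, ?_⟩
  exact Finsupp.liftAddHom_apply_single _ n q

theorem C7_span_le (w : ℕ → E) {y : E} (hy : y ∈ Submodule.span ℂ (range w)) :
    y ∈ closure (range (C7_F w)) := by
  obtain ⟨c, rfl⟩ := Finsupp.mem_span_range_iff_exists_finsupp.1 hy
  have h : (c.sum fun i a => a • w i) ∈ (C7_F w).range.topologicalClosure :=
    AddSubgroup.sum_mem _ fun n _ => C7_single w n (c n)
  exact h

theorem C7_closure (w : ℕ → E) :
    closure (range (C7_F w)) = ((Submodule.span ℂ (range w)).topologicalClosure : Set E) := by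
  rw [Submodule.topologicalClosure_coe]
  apply Set.Subset.antisymm
  · apply closure_mono
    rintro _ ⟨c, rfl⟩
    exact C7_F_mem w c
  · apply closure_minimal _ isClosed_closure
    intro y hy
    exact C7_span_le w hy

theorem C7_norm (w : ℕ → E) (u : E) :
    ‖u - (Submodule.span ℂ (range w)).topologicalClosure.starProjection u‖ =
      ⨅ c : ℕ →₀ ℚ × ℚ, ‖u - C7_F w c‖ := by
  rw [Submodule.starProjection_minimal]
  have h1 : (⨅ x : (Submodule.span ℂ (range w)).topologicalClosure, ‖u - x‖) =
      Metric.infDist u ((Submodule.span ℂ (range w)).topologicalClosure : Set E) := by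
    rw [Metric.infDist_eq_iInf]
    simp only [dist_eq_norm]
    rfl
  have h2 : (⨅ c : ℕ →₀ ℚ × ℚ, ‖u - C7_F w c‖) = Metric.infDist u (range (C7_F w)) := by
    rw [Metric.infDist_eq_iInf]
    simp only [dist_eq_norm]
    exact (Set.rangeFactorization_surjective.iInf_comp
      (g := fun y : range (C7_F w) => ‖u - (y : E)‖))
  rw [h1, h2, ← C7_closure, Metric.infDist_closure]

theorem C7_meas {v : ℕ → X → E} (hv : ∀ n, StronglyMeasurable (v n)) (u : E)
    (c : ℕ →₀ ℚ × ℚ) : Measurable fun x => ‖u - C7_F (fun n => v n x) c‖ := by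
  have h : StronglyMeasurable fun x => u - C7_F (fun n => v n x) c := by
    simp only [C7_F_apply]
    refine stronglyMeasurable_const.sub ?_
    refine Finset.stronglyMeasurable_fun_sum _ fun n _ => ?_
    exact (hv n).const_smul _
  exact h.norm.measurable

theorem proj_norm_measurable [TopologicalSpace.SeparableSpace E] {v : ℕ → X → E}
    (hv : ∀ n, StronglyMeasurable (v n)) (u : E) :
    Measurable fun x =>
      ‖(Submodule.span ℂ (range fun n => v n x)).topologicalClosure.starProjection u‖ ^ 2 := by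
  have h1 : Measurable fun x =>
      ‖u - (Submodule.span ℂ (range fun n => v n x)).topologicalClosure.starProjection u‖ := by
    simp only [C7_norm]
    exact Measurable.iInf fun c => C7_meas hv u c
  have h2 : (fun x =>
      ‖(Submodule.span ℂ (range fun n => v n x)).topologicalClosure.starProjection u‖ ^ 2) =
      fun x => ‖u‖ ^ 2 -
        ‖u - (Submodule.span ℂ (range fun n => v n x)).topologicalClosure.starProjection u‖ ^ 2 := by
    funext x
    have h := Submodule.norm_sq_eq_add_norm_sq_starProjection u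
      (Submodule.span ℂ (range fun n => v n x)).topologicalClosure
    rw [Submodule.starProjection_orthogonal'] at h
    have h3 : (1 - (Submodule.span ℂ (range fun n => v n x)).topologicalClosure.starProjection :
        E →L[ℂ] E) u =
        u - (Submodule.span ℂ (range fun n => v n x)).topologicalClosure.starProjection u := rfl
    rw [h3] at h
    linarith
  rw [h2]
  exact measurable_const.sub (h1.pow_const 2)

theorem proj_inner_measurable [TopologicalSpace.SeparableSpace E] {v : ℕ → X → E}
    (hv : ∀ n, StronglyMeasurable (v n)) (u w : E) :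
    Measurable fun x =>
      ⟪w, (Submodule.span ℂ (range fun n => v n x)).topologicalClosure.starProjection u⟫_ℂ := by
  have key : ∀ K : Submodule ℂ E, ∀ _ : K.HasOrthogonalProjection,
      ⟪w, K.starProjection u⟫_ℂ =
      ((((‖K.starProjection (w + u)‖ ^ 2 : ℝ) : ℂ) - ((‖K.starProjection (w - u)‖ ^ 2 : ℝ) : ℂ) +
        (((‖K.starProjection (w - Complex.I • u)‖ ^ 2 : ℝ) : ℂ) -
          ((‖K.starProjection (w + Complex.I • u)‖ ^ 2 : ℝ) : ℂ)) * Complex.I) / 4) := by
    intro K _
    have h1 : ⟪w, K.starProjection u⟫_ℂ = ⟪K.starProjection w, K.starProjection u⟫_ℂ := by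
      have h2 := K.inner_starProjection_left_eq_right w (K.starProjection u)
      have h3 : K.starProjection (K.starProjection u) = K.starProjection u :=
        congrArg (fun T : E →L[ℂ] E => T u) K.isIdempotentElem_starProjection
      rw [h2, h3]
    rw [h1, inner_eq_sum_norm_sq_div_four]
    simp only [map_add, map_sub, map_smul]
    push_cast
    rfl
  have h0 : ∀ z : E, Measurable fun x => ((‖(Submodule.span ℂ
      (range fun n => v n x)).topologicalClosure.starProjection z‖ ^ 2 : ℝ) : ℂ) := fun z =>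
    Complex.measurable_ofReal.comp (proj_norm_measurable hv z)
  have h1 : (fun x => ⟪w, (Submodule.span ℂ
      (range fun n => v n x)).topologicalClosure.starProjection u⟫_ℂ) = fun x => _ :=
    funext fun x => key _ inferInstance
  rw [h1]
  exact ((((h0 _).sub (h0 _)).add (((h0 _).sub (h0 _)).mul_const _))).div_const _

end

end Pool.Agent.Lib.MP_df705a_gt.RL
end

section

/-!
Definitions: random systems.
-/

open scoped InnerProductSpace ENNReal NNReal
open Filter Topology Set MeasureTheory

namespace Pool.Agent.Lib.MP_df705a_gt.RL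

noncomputable section

variable {H : Type*} [NormedAddCommGroup H] [InnerProductSpace ℂ H] [CompleteSpace H]

/-- A random family of symmetric odd operators `D_x` (`x ∈ X`), equivariant for an action of a
group `G`. `Gr x` is the graph of `D_x`, `v n x` are measurable graph elements which span a dense
subspace of it, `p g` is the multiplication by the indicator function of `g F`, `M n x` is the
multiplication by `√(V_x ∧ n)`. `lich` is the inequality `c |a|² ≤ |D_x a|² + ∫ V_x |a|²` on the
closure of the graph. -/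
structure RSys (G X : Type*) [Group G] [MulAction G X] [MeasurableSpace X] (μ : Measure X)
    (H : Type*) [NormedAddCommGroup H] [InnerProductSpace ℂ H] [CompleteSpace H] where
  eps : H →L[ℂ] H
  grading : IsGrading eps
  Gr : X → Submodule ℂ (H × H)
  odd : ∀ x, IsOddSymm eps (Gr x)
  v : ℕ → X → H × H
  v_meas : ∀ n, StronglyMeasurable (v n)
  v_mem : ∀ n x, v n x ∈ Gr x
  v_dense : ∀ x, ∀ a ∈ Gr x,
    a ∈ closure (Submodule.span ℂ (range fun n => v n x) : Set (H × H))
  p : G → H →L[ℂ] H
  p_sa : ∀ g, IsSelfAdjoint (p g)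
  p_eps : ∀ g, Commute (p g) eps
  p_sum : ∀ u, ∑' g, ‖p g u‖ₑ ^ 2 = ‖u‖ₑ ^ 2
  M : ℕ → X → H →L[ℂ] H
  M_meas : ∀ n, SM (M n)
  M_sa : ∀ n x, IsSelfAdjoint (M n x)
  M_eps : ∀ n x, Commute (M n x) eps
  M_p : ∀ n x g, Commute (M n x) (p g)
  M_mono : ∀ x u, Monotone fun n => ‖M n x u‖
  equiv : ∀ g : G, ∀ᵐ x ∂μ, ∃ W : H ≃ₗᵢ[ℂ] H, (∀ u, W (eps u) = eps (W u)) ∧
    (∀ h u, W (p h u) = p (g * h) (W u)) ∧
    (∀ a a', (a, a') ∈ Gr x ↔ (W a, W a') ∈ Gr (g • x)) ∧
    (∀ n u, W (M n x u) = M n (g • x) (W u))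
  c : ℝ
  c_pos : 0 < c
  lich : ∀ x, ∀ w ∈ closure (Gr x : Set (H × H)),
    ENNReal.ofReal c * ‖w.1‖ₑ ^ 2 ≤ ‖w.2‖ₑ ^ 2 + ⨆ n, ‖M n x w.1‖ₑ ^ 2

namespace RSys

variable {G X : Type*} [Group G] [MulAction G X] [MeasurableSpace X] {μ : Measure X}

/-- `R_x = (1 + D_x²)⁻¹` -/
def R (S : RSys G X μ H) (x : X) : H →L[ℂ] H := Rop S.eps (S.Gr x)

/-- `B_x = D_x (1 + D_x²)⁻¹` -/
def B (S : RSys G X μ H) (x : X) : H →L[ℂ] H := Bop S.eps (S.Gr x)

/-- `Φ₊(s) = E Tr (1_F exp(-s D²) Π₊)` -/
def phiP (S : RSys G X μ H) (s : ℝ) : ℝ≥0∞ :=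
  ∫⁻ x, hs (Sop (S.R x) (s / 2) * Pip S.eps * S.p 1) ∂μ

/-- `Φ₋(s) = E Tr (1_F exp(-s D²) Π₋)` -/
def phiM (S : RSys G X μ H) (s : ℝ) : ℝ≥0∞ :=
  ∫⁻ x, hs (Sop (S.R x) (s / 2) * Pim S.eps * S.p 1) ∂μ

end RSys

end

end Pool.Agent.Lib.MP_df705a_gt.RL
end

section

/-!
TASK D2. Equivariance of the functional calculus.

PROOF. `φ(A) = W A W⁻¹` is a star algebra isomorphism of `H →L[ℂ] H`, continuous, and
`φ(R) = R'` (`Unitary.conjStarAlgAut` for the unitary element given by `W`, or
`LinearIsometryEquiv.conjStarAlgEquiv` if it exists). By `StarAlgHomClass.map_cfc`,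
`φ (cfc f R) = cfc f R'`. (Other proof: true for polynomials; uniform approximation by the theorem
of Weierstrass and `cfc_norm_le'`.)
-/

open scoped InnerProductSpace ENNReal NNReal
open Filter Topology Set MeasureTheory

namespace Pool.Agent.Lib.MP_df705a_gt.RL

noncomputable section

variable {H : Type*} [NormedAddCommGroup H] [InnerProductSpace ℂ H] [CompleteSpace H]

theorem cfc_equiv {R R' : H →L[ℂ] H} (hR : IsCon R) (hR' : IsCon R') (W : H ≃ₗᵢ[ℂ] H)
    (h : ∀ u, W (R u) = R' (W u)) {f : ℝ → ℝ} (hf : ContinuousOn f (Icc 0 1)) (u : H) :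
    W (cfc f R u) = cfc f R' (W u) := by
  have h1 : W.conjStarAlgEquiv R = R' := by
    refine ContinuousLinearMap.ext fun v => ?_
    rw [LinearIsometryEquiv.conjStarAlgEquiv_apply_apply, h, W.apply_symm_apply]
  have hc : Continuous (W.conjStarAlgEquiv : (H →L[ℂ] H) → (H →L[ℂ] H)) :=
    (continuous_const.clm_comp (continuous_id.clm_comp continuous_const))
  have h2 := StarAlgHomClass.map_cfc (S := ℂ) W.conjStarAlgEquiv f R (hf.mono hR.spec) hc hR.sa
    (by rw [h1]; exact hR'.sa)
  rw [h1] at h2
  rw [← h2, LinearIsometryEquiv.conjStarAlgEquiv_apply_apply, W.symm_apply_apply]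

end

end Pool.Agent.Lib.MP_df705a_gt.RL
end

section

/-!
TASK B10. `S_{s/2} ≤ S_{1/2}` in the sense of norms, for `s ≥ 1`.

PROOF. `S_{s/2} = S_{(s-1)/2} S_{1/2}` for `s > 1` (`Sop_mul`), `‖S_{(s-1)/2}‖ ≤ 1`; for `s = 1`
there is nothing to prove.
-/

open scoped InnerProductSpace ENNReal NNReal
open Filter Topology Set MeasureTheory

namespace Pool.Agent.Lib.MP_df705a_gt.RL

noncomputable section

variable {H : Type*} [NormedAddCommGroup H] [InnerProductSpace ℂ H] [CompleteSpace H]

theorem Sop_norm_mono {R : H →L[ℂ] H} (hR : IsCon R) {s t : ℝ} (hs : 0 < s) (hst : s ≤ t)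
    (u : H) : ‖Sop R t u‖ ≤ ‖Sop R s u‖ := by
  rcases hst.eq_or_lt with rfl | hlt
  · exact le_rfl
  · have h1 : 0 < t - s := sub_pos.2 hlt
    have h2 : Sop R t = Sop R (t - s) * Sop R s := by
      rw [Sop_mul hR h1 hs, sub_add_cancel]
    rw [h2, mul_apply_eq_comp]
    refine ((Sop R (t - s)).le_opNorm _).trans ?_
    have := mul_le_mul_of_nonneg_right (Sop_norm hR h1.le) (norm_nonneg (Sop R s u))
    rwa [one_mul] at this

end

end Pool.Agent.Lib.MP_df705a_gt.RL
end

section

/-!
TASK B3. Continuity of `s ↦ S_s` and strong convergence for `s → 0`.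

PROOF. `Sop_lip`: `Sop R s - Sop R t = cfc (fS s - fS t) R` (`cfc_sub`), B2 `cfc_norm_le'` and
`fS_lip`. `Sop_mul_R_sub`: `Sop R s * R - R = cfc (fun r => (fS s r - 1) * r) R`
(`cfc_mul`, `cfc_id`, `cfc_sub`), norm `≤ s` by `fS_sub_mul` (`|(f-1) r| = |f-1| r`).
`Sop_tendsto`: the range of `R` is dense: `R` is self-adjoint and injective, so
`(range R)ᗮ = ker R = 0`. For `u = R v`: `‖S_s u - u‖ ≤ s ‖v‖`. In general approximate `u` by
`R v` with an error `≤ δ`, `‖S_s u - u‖ ≤ 2 δ + s ‖v‖` (`‖S_s‖ ≤ 1`).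
-/

open scoped InnerProductSpace ENNReal NNReal
open Filter Topology Set MeasureTheory

namespace Pool.Agent.Lib.MP_df705a_gt.RL

noncomputable section

variable {H : Type*} [NormedAddCommGroup H] [InnerProductSpace ℂ H] [CompleteSpace H]

variable {R : H →L[ℂ] H}

theorem Sop_lip (hR : IsCon R) {s t m : ℝ} (hm : 0 < m) (hs : m ≤ s) (ht : m ≤ t) :
    ‖Sop R s - Sop R t‖ ≤ |s - t| / m := by
  have hs0 : 0 < s := hm.trans_le hs
  have ht0 : 0 < t := hm.trans_le ht
  rw [Sop, Sop, ← cfc_sub _ _ R ((fS_continuous hs0).continuousOn) ((fS_continuous ht0).continuousOn)]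
  exact cfc_norm_le' hR (by positivity) fun r hr => fS_lip hm hs ht hr.1 hr.2

theorem Sop_continuousOn (hR : IsCon R) : ContinuousOn (Sop R) (Ioi 0) := by
  intro s hs
  rw [mem_Ioi] at hs
  have h2 : 0 < s / 2 := by positivity
  have h3 : ContinuousAt (Sop R) s := by
    rw [Metric.continuousAt_iff]
    intro e he
    refine ⟨min (s / 2) (e * (s / 2)), by positivity, fun {t} ht => ?_⟩
    rw [Real.dist_eq, lt_min_iff] at ht
    have ht1 : s / 2 ≤ t := by
      have := (abs_lt.1 ht.1).1
      linarith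
    have ht2 : s / 2 ≤ s := by linarith
    rw [dist_eq_norm]
    calc ‖Sop R t - Sop R s‖ ≤ |t - s| / (s / 2) := Sop_lip hR h2 ht1 ht2
      _ < e := by
        rw [div_lt_iff₀ h2]
        exact ht.2
  exact h3.continuousWithinAt

theorem Sop_mul_R_sub (hR : IsCon R) {s : ℝ} (hs : 0 < s) : ‖Sop R s * R - R‖ ≤ s := by
  have hsa : IsSelfAdjoint R := hR.sa
  have h1 : Sop R s * R - R = cfc (fun r => fS s r * r - r) R := by
    rw [cfc_sub (fun r => fS s r * r) (fun r => r) R
      (((fS_continuous hs).mul continuous_id).continuousOn) continuousOn_id,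
      cfc_mul (fS s) (fun r => r) R ((fS_continuous hs).continuousOn) continuousOn_id,
      cfc_id' ℝ R]
    rfl
  rw [h1]
  apply cfc_norm_le' hR hs.le
  intro r hr
  have h2 : fS s r * r - r = (fS s r - 1) * r := by ring
  rw [h2, abs_mul, abs_of_nonneg hr.1]
  exact fS_sub_mul hs.le hr.1 hr.2

theorem Sop_tendsto (hR : IsCon R) (hinj : ∀ u, R u = 0 → u = 0) (u : H) :
    Tendsto (fun s => Sop R s u) (𝓝[>] 0) (𝓝 u) := by
  have hdense : Dense (Set.range R) := by
    have h1 : (LinearMap.range (R : H →ₗ[ℂ] H))ᗮ = ⊥ := by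
      rw [Submodule.eq_bot_iff]
      intro v hv
      apply hinj
      rw [Submodule.mem_orthogonal] at hv
      apply ext_inner_left ℂ
      intro w
      rw [inner_zero_right, ← ContinuousLinearMap.adjoint_inner_left,
        (ContinuousLinearMap.isSelfAdjoint_iff'.1 hR.sa)]
      exact hv (R w) ⟨w, rfl⟩
    have h2 := (Submodule.topologicalClosure_eq_top_iff).2 h1
    have h3 := (Submodule.dense_iff_topologicalClosure_eq_top).2 h2
    exact h3
  rw [Metric.tendsto_nhdsWithin_nhds]
  intro e he
  obtain ⟨w, hw, v, rfl⟩ := Metric.dense_iff.1 hdense u (e / 4) (by positivity)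
  rw [Metric.mem_ball, dist_eq_norm] at hw
  refine ⟨e / (4 * (‖v‖ + 1)), by positivity, fun {s} hs hsd => ?_⟩
  rw [mem_Ioi] at hs
  rw [Real.dist_eq, sub_zero, abs_of_pos hs, lt_div_iff₀ (by positivity)] at hsd
  rw [dist_eq_norm]
  have e1 : Sop R s u - u = (Sop R s * R - R) v - Sop R s (R v - u) + (R v - u) := by
    rw [map_sub]
    simp only [ContinuousLinearMap.sub_apply, mul_apply_eq_comp]
    abel
  have e2 : ‖(Sop R s * R - R) v‖ ≤ s * ‖v‖ :=
    ((Sop R s * R - R).le_opNorm v).trans
      (mul_le_mul_of_nonneg_right (Sop_mul_R_sub hR hs) (norm_nonneg v))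
  have e3 : ‖Sop R s (R v - u)‖ ≤ ‖R v - u‖ := by
    refine ((Sop R s).le_opNorm _).trans ?_
    have := mul_le_mul_of_nonneg_right (Sop_norm hR hs.le) (norm_nonneg (R v - u))
    rwa [one_mul] at this
  have e4 : s * ‖v‖ ≤ e / 4 := by
    nlinarith [norm_nonneg v]
  rw [e1]
  calc ‖(Sop R s * R - R) v - Sop R s (R v - u) + (R v - u)‖
      ≤ ‖(Sop R s * R - R) v - Sop R s (R v - u)‖ + ‖R v - u‖ := norm_add_le _ _
    _ ≤ ‖(Sop R s * R - R) v‖ + ‖Sop R s (R v - u)‖ + ‖R v - u‖ := by
        gcongr
        exact norm_sub_le _ _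
    _ < e := by linarith

end

end Pool.Agent.Lib.MP_df705a_gt.RL
end
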