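import Pool.Agent.Lib.MP_df705a_gt.Mg.G040
import Pool.Agent.Lib.MP_df705a_gt.Mg.G030

section

/-!
TASK C6. Measurability of the functional calculus.

PROOF. Polynomials: `Polynomial.aeval (R x) p` is a measurable family by `SM_mul`, `SM_add`,
`SM_smul`, `SM_const` (induction). By the theorem of Weierstrass
(`polynomialFunctions_closure_eq_top` or `exists_polynomial_near_of_continuousOn`) there are
real polynomials `p n` with `|f r - (p n) r| ≤ 1/(n+1)` on `[0,1]`, and
`cfc f (R x) - aeval (R x) (p n) = cfc (f - p n) (R x)` (`cfc_polynomial` / `cfc_eval...`,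
`cfc_sub`) has norm `≤ 1/(n+1)` (`cfc_norm_le'`). Use `SM_of_tendsto`.
-/

open scoped InnerProductSpace ENNReal NNReal
open Filter Topology Set MeasureTheory

namespace Pool.Agent.Lib.MP_df705a_gt.RL

noncomputable section

variable {H : Type*} [NormedAddCommGroup H] [InnerProductSpace ℂ H] [CompleteSpace H]

variable {X : Type*} [MeasurableSpace X]

theorem C6_pow [TopologicalSpace.SeparableSpace H] {R : X → H →L[ℂ] H} (hm : SM R) (n : ℕ) :
    SM fun x => R x ^ n := by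
  induction n with
  | zero => simpa using SM_const (X := X) (1 : H →L[ℂ] H)
  | succ n ih =>
    simp only [pow_succ]
    exact SM_mul ih hm

theorem C6_poly [TopologicalSpace.SeparableSpace H] {R : X → H →L[ℂ] H} (hm : SM R)
    (p : Polynomial ℝ) : SM fun x => Polynomial.aeval (R x) p := by
  induction p using Polynomial.induction_on' with
  | add p q hp hq =>
    simp only [map_add]
    exact SM_add hp hq
  | monomial n a =>
    have h : (fun x => Polynomial.aeval (R x) (Polynomial.monomial n a)) =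
        fun x => (a : ℂ) • R x ^ n := by
      funext x
      rw [Polynomial.aeval_monomial, ← Algebra.smul_def]
      ext u
      simp
    rw [h]
    exact SM_smul _ (C6_pow hm n)

theorem SM_cfc [TopologicalSpace.SeparableSpace H] {R : X → H →L[ℂ] H} (hR : ∀ x, IsCon (R x))
    (hm : SM R) {f : ℝ → ℝ} (hf : ContinuousOn f (Icc 0 1)) : SM fun x => cfc f (R x) := by
  have h1 : ∀ n : ℕ, ∃ p : Polynomial ℝ, ∀ r ∈ Icc (0 : ℝ) 1, |p.eval r - f r| < 1 / (n + 1) :=
    fun n => exists_polynomial_near_of_continuousOn 0 1 f hf _ (by positivity)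
  choose p hp using h1
  refine SM_of_tendsto (A := fun n x => Polynomial.aeval (R x) (p n)) (fun n => C6_poly hm _) ?_
  intro x u
  have hb : ∀ n : ℕ, ‖Polynomial.aeval (R x) (p n) - cfc f (R x)‖ ≤ 1 / ((n : ℝ) + 1) := by
    intro n
    have hc : ContinuousOn f (spectrum ℝ (R x)) := hf.mono (hR x).spec
    have e : Polynomial.aeval (R x) (p n) - cfc f (R x) =
        cfc (fun r => (p n).eval r - f r) (R x) := by
      rw [cfc_sub (fun r => (p n).eval r) f (R x) (by fun_prop) hc,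
        cfc_polynomial (p n) (R x) (hR x).sa]
    rw [e]
    exact cfc_norm_le' (hR x) (by positivity) fun r hr => (hp n r hr).le
  have ht : Tendsto (fun n => Polynomial.aeval (R x) (p n)) atTop (𝓝 (cfc f (R x))) := by
    rw [tendsto_iff_norm_sub_tendsto_zero]
    exact squeeze_zero (fun _ => norm_nonneg _) hb tendsto_one_div_add_atTop_nhds_zero_nat
  exact (ContinuousLinearMap.apply ℂ H u).continuous.continuousAt.tendsto.comp ht

end

end Pool.Agent.Lib.MP_df705a_gt.RL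
end

section

/-!
TASK C1. Hilbert-Schmidt norms do not depend on the basis.

PROOF. `parseval`: `∑ ‖⟪b i, u⟫‖² = ‖u‖²` (`HilbertBasis.hasSum_inner_mul_inner` or
`HilbertBasis.tsum_inner_mul_inner` for `u, u`; or `‖b.repr u‖² = ∑ ‖b.repr u i‖²`,
`lp.norm_rpow_eq_tsum`), transferred to `ℝ≥0∞` (`ENNReal.ofReal_tsum_of_nonneg`,
`ofReal_norm`). `hs_swap`: both sides are `∑ i, ∑ j, ‖⟪c j, A (b i)⟫‖ₑ² =
∑ j, ∑ i, ‖⟪A† (c j), b i⟫‖ₑ²` (`ENNReal.tsum_comm`, `ContinuousLinearMap.adjoint_inner_left`,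
`norm_inner_symm`). `hs_basis` and `hs_adjoint`: apply `hs_swap` twice, with `A` and `A†`.
-/

open scoped InnerProductSpace ENNReal NNReal
open Filter Topology Set MeasureTheory

namespace Pool.Agent.Lib.MP_df705a_gt.RL

noncomputable section

variable {H : Type*} [NormedAddCommGroup H] [InnerProductSpace ℂ H] [CompleteSpace H]

variable {K : Type*} [NormedAddCommGroup K] [InnerProductSpace ℂ K] [CompleteSpace K]
variable {K' : Type*} [NormedAddCommGroup K'] [InnerProductSpace ℂ K'] [CompleteSpace K']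

theorem parseval {ι : Type*} (b : HilbertBasis ι ℂ H) (u : H) :
    ∑' i, ‖⟪b i, u⟫_ℂ‖ₑ ^ 2 = ‖u‖ₑ ^ 2 := by
  have h1 := b.hasSum_inner_mul_inner u u
  have h2 : HasSum (fun i => ‖⟪b i, u⟫_ℂ‖ ^ 2) (‖u‖ ^ 2) := by
    have h3 : ∀ i, (⟪u, b i⟫_ℂ * ⟪b i, u⟫_ℂ) = ((‖⟪b i, u⟫_ℂ‖ ^ 2 : ℝ) : ℂ) := by
      intro i
      rw [← inner_conj_symm u (b i), RCLike.conj_mul]
      norm_cast
    have h4 : ⟪u, u⟫_ℂ = ((‖u‖ ^ 2 : ℝ) : ℂ) := by
      rw [inner_self_eq_norm_sq_to_K]
      norm_cast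
    simp only [h3, h4] at h1
    exact_mod_cast h1
  have h5 : ∀ i, ‖⟪b i, u⟫_ℂ‖ₑ ^ 2 = ENNReal.ofReal (‖⟪b i, u⟫_ℂ‖ ^ 2) := by
    intro i
    rw [ENNReal.ofReal_pow (norm_nonneg _), ofReal_norm]
  simp only [h5]
  rw [← ENNReal.ofReal_tsum_of_nonneg (fun i => by positivity) h2.summable, h2.tsum_eq,
    ENNReal.ofReal_pow (norm_nonneg _), ofReal_norm]

theorem hs_swap {ι κ : Type*} (b : HilbertBasis ι ℂ H) (c : HilbertBasis κ ℂ K)
    (A : H →L[ℂ] K) :
    ∑' i, ‖A (b i)‖ₑ ^ 2 = ∑' j, ‖ContinuousLinearMap.adjoint A (c j)‖ₑ ^ 2 := by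
  have h1 : ∀ i, ‖A (b i)‖ₑ ^ 2 = ∑' j, ‖⟪c j, A (b i)⟫_ℂ‖ₑ ^ 2 := fun i => (parseval c _).symm
  have h2 : ∀ j, ‖ContinuousLinearMap.adjoint A (c j)‖ₑ ^ 2 = ∑' i, ‖⟪c j, A (b i)⟫_ℂ‖ₑ ^ 2 := by
    intro j
    rw [← parseval b]
    refine tsum_congr fun i => ?_
    rw [enorm_eq_iff_norm_eq.2 (norm_inner_symm _ _), ContinuousLinearMap.adjoint_inner_left]
  simp only [h1, h2]
  exact ENNReal.tsum_comm

theorem hs_basis {ι : Type*} (b : HilbertBasis ι ℂ H) (A : H →L[ℂ] K) :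
    hs A = ∑' i, ‖A (b i)‖ₑ ^ 2 := by
  rw [hs, hs_swap (stdB H) (stdB K), ← hs_swap b (stdB K)]

theorem hs_adjoint (A : H →L[ℂ] K) : hs (ContinuousLinearMap.adjoint A) = hs A := by
  rw [hs, hs, hs_swap (stdB K) (stdB H), ContinuousLinearMap.adjoint_adjoint]

end

end Pool.Agent.Lib.MP_df705a_gt.RL
end

section

/-!
TASK C2. Simple rules for `hs`.

PROOF. `hs_mono`, `hs_add`, `hs_comp_left`: termwise (`ENNReal.tsum_le_tsum`,
`ENNReal.tsum_add`, `ENNReal.tsum_mul_left`, `ContinuousLinearMap.le_opENorm`).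
`hs_comp_right`: `hs (A ∘ C) = hs (C† ∘ A†) ≤ ‖C†‖² hs (A†) = ‖C‖² hs A`.
`hs_conj`: `‖W' (A (W (b i)))‖ = ‖A (W (b i))‖`, and `i ↦ W (b i)` is again a Hilbert basis
(`HilbertBasis` from the isometry `b.repr ∘ W.symm`, or `HilbertBasis.mk`), so `hs_basis`.
-/

open scoped InnerProductSpace ENNReal NNReal
open Filter Topology Set MeasureTheory

namespace Pool.Agent.Lib.MP_df705a_gt.RL

noncomputable section

variable {H : Type*} [NormedAddCommGroup H] [InnerProductSpace ℂ H] [CompleteSpace H]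

variable {K : Type*} [NormedAddCommGroup K] [InnerProductSpace ℂ K] [CompleteSpace K]
variable {K' : Type*} [NormedAddCommGroup K'] [InnerProductSpace ℂ K'] [CompleteSpace K']

theorem hs_mono {A : H →L[ℂ] K} {B : H →L[ℂ] K'} (h : ∀ u, ‖A u‖ ≤ ‖B u‖) : hs A ≤ hs B := by
  rw [hs, hs]
  refine ENNReal.tsum_le_tsum fun i => ?_
  gcongr
  exact enorm_le_iff_norm_le.2 (h _)

theorem hs_add {A B C : H →L[ℂ] K} (h : ∀ u, ‖A u‖ ^ 2 = ‖B u‖ ^ 2 + ‖C u‖ ^ 2) :
    hs A = hs B + hs C := by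
  rw [hs, hs, hs, ← ENNReal.tsum_add]
  refine tsum_congr fun i => ?_
  rw [← ofReal_norm, ← ofReal_norm, ← ofReal_norm, ← ENNReal.ofReal_pow (norm_nonneg _),
    ← ENNReal.ofReal_pow (norm_nonneg _), ← ENNReal.ofReal_pow (norm_nonneg _),
    ← ENNReal.ofReal_add (by positivity) (by positivity), h]

theorem hs_comp_left (A : H →L[ℂ] K) (C : K →L[ℂ] K') : hs (C ∘L A) ≤ ‖C‖ₑ ^ 2 * hs A := by
  rw [hs, hs, ← ENNReal.tsum_mul_left]
  refine ENNReal.tsum_le_tsum fun i => ?_
  rw [← mul_pow]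
  gcongr
  exact C.le_opENorm _

theorem hs_comp_right (A : H →L[ℂ] K) (C : H →L[ℂ] H) : hs (A ∘L C) ≤ ‖C‖ₑ ^ 2 * hs A := by
  rw [← hs_adjoint, ContinuousLinearMap.adjoint_comp, ← hs_adjoint A,
    ← enorm_eq_iff_norm_eq.2 (ContinuousLinearMap.adjoint.norm_map C)]
  exact hs_comp_left _ _

theorem hs_conj (A : H →L[ℂ] K) (W : H ≃ₗᵢ[ℂ] H) (W' : K ≃ₗᵢ[ℂ] K) :
    hs (W'.toContinuousLinearEquiv.toContinuousLinearMap ∘L A ∘L
      W.toContinuousLinearEquiv.toContinuousLinearMap) = hs A := by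
  have h1 : ∀ u, ‖(W'.toContinuousLinearEquiv.toContinuousLinearMap ∘L A ∘L
      W.toContinuousLinearEquiv.toContinuousLinearMap) u‖ = ‖A (W u)‖ := by
    intro u
    exact W'.norm_map _
  let b' : HilbertBasis _ ℂ H := HilbertBasis.ofRepr (W.symm.trans (stdB H).repr)
  have h2 : ∀ i, b' i = W (stdB H i) := by
    intro i
    rfl
  rw [hs_basis b' A, hs]
  refine tsum_congr fun i => ?_
  rw [h2, enorm_eq_iff_norm_eq.2 (h1 _)]

end

end Pool.Agent.Lib.MP_df705a_gt.RL
end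

section

/-!
TASK C3. Sums over a partition, suprema.

PROOF. `hs_partition`: `∑ g, hs (p g ∘ A) = ∑ g, ∑ i, ‖p g (A (b i))‖² =
∑ i, ∑ g, ‖p g (A (b i))‖² = ∑ i, ‖A (b i)‖²` (`ENNReal.tsum_comm`).
`hs_iSup`: monotone convergence for sums: `∑ i, ⨆ n, a n i = ⨆ n, ∑ i, a n i` for `a` monotone in
`n` (`ENNReal.iSup_tsum`-type lemma or `lintegral_iSup` for the counting measure;
or `ENNReal.tsum_eq_iSup_sum` and `ENNReal.finsetSum_iSup_of_monotone`).
-/

open scoped InnerProductSpace ENNReal NNReal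
open Filter Topology Set MeasureTheory

namespace Pool.Agent.Lib.MP_df705a_gt.RL

noncomputable section

set_option linter.unusedSectionVars false

variable {H : Type*} [NormedAddCommGroup H] [InnerProductSpace ℂ H] [CompleteSpace H]

variable {K : Type*} [NormedAddCommGroup K] [InnerProductSpace ℂ K] [CompleteSpace K]
variable {K' : Type*} [NormedAddCommGroup K'] [InnerProductSpace ℂ K'] [CompleteSpace K']

theorem hs_partition {G : Type*} (p : G → K →L[ℂ] K)
    (hp : ∀ u, ∑' g, ‖p g u‖ₑ ^ 2 = ‖u‖ₑ ^ 2) (A : H →L[ℂ] K) :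
    ∑' g, hs (p g ∘L A) = hs A := by
  unfold hs
  rw [ENNReal.tsum_comm]
  exact tsum_congr fun i => hp (A (stdB H i))

theorem hs_iSup (A : ℕ → H →L[ℂ] K) (hm : ∀ u, Monotone fun n => ‖A n u‖) :
    ∑' i, ⨆ n, ‖A n (stdB H i)‖ₑ ^ 2 = ⨆ n, hs (A n) := by
  have hmono : ∀ i, Monotone fun n => ‖A n (stdB H i)‖ₑ ^ 2 := by
    intro i n m hnm
    have h1 : ‖A n (stdB H i)‖ₑ ≤ ‖A m (stdB H i)‖ₑ := by
      rw [← ofReal_norm, ← ofReal_norm]
      exact ENNReal.ofReal_le_ofReal (hm _ hnm)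
    exact pow_le_pow_left₀ zero_le h1 2
  unfold hs
  rw [ENNReal.tsum_eq_iSup_sum]
  have h2 : ∀ s : Finset (exists_hilbertBasis ℂ H).choose,
      ∑ i ∈ s, ⨆ n, ‖A n (stdB H i)‖ₑ ^ 2 = ⨆ n, ∑ i ∈ s, ‖A n (stdB H i)‖ₑ ^ 2 := fun s =>
    ENNReal.finsetSum_iSup_of_monotone fun i => hmono i
  rw [iSup_congr h2, iSup_comm]
  exact iSup_congr fun n => (ENNReal.tsum_eq_iSup_sum).symm

end

end Pool.Agent.Lib.MP_df705a_gt.RL
end

section

/-!
TASK D3. The mass transport principle.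

PROOF. `∫ hs (A x * p 1) = ∫ ∑ g, hs (p g * (A x * p 1))` (`hs_partition`) `= ∑ g, ∫ hs (p g *
A x * p 1)` (`lintegral_tsum`, `measurable_hs`). For fixed `g` substitute `x = g • y`
(`hμ g`, measure preserving): `∫ hs (p g * A (g • y) * p 1) dμ(y)`. For almost every `y` there is
`W` with `p g ∘ W = W ∘ p 1`, `A (g • y) ∘ W = W ∘ A y`, `p 1 ∘ W = p (g g⁻¹) ∘ W = W ∘ p g⁻¹`,
so `W⁻¹ (p g * A (g • y) * p 1) W = p 1 * A y * p g⁻¹` and by `hs_conj` the integrand is
`hs (p 1 * A y * p g⁻¹) = hs (p g⁻¹ * star (A y) * p 1)` (`hs_adjoint`, `star` is the adjoint,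
`p_sa`). Sum over `g` (`Equiv.tsum_eq` for `g ↦ g⁻¹`), `lintegral_tsum` and `hs_partition` again.
-/

open scoped InnerProductSpace ENNReal NNReal
open Filter Topology Set MeasureTheory

namespace Pool.Agent.Lib.MP_df705a_gt.RL

noncomputable section

variable {H : Type*} [NormedAddCommGroup H] [InnerProductSpace ℂ H] [CompleteSpace H]

theorem D3_conj {B C : H →L[ℂ] H} (W : H ≃ₗᵢ[ℂ] H) (h : ∀ u, W (B u) = C (W u)) :
    hs C = hs B := by
  have e : C = W.toContinuousLinearEquiv.toContinuousLinearMap ∘L B ∘L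
      W.symm.toContinuousLinearEquiv.toContinuousLinearMap := by
    ext u
    have := h (W.symm u)
    simp only [LinearIsometryEquiv.apply_symm_apply] at this
    simpa using this.symm
  rw [e]
  exact hs_conj B W.symm W

theorem D3_star (B : H →L[ℂ] H) : hs (star B) = hs B := by
  rw [ContinuousLinearMap.star_eq_adjoint]
  exact hs_adjoint B

theorem mass_transport {G X : Type*} [Group G] [Countable G] [MulAction G X] [MeasurableSpace X]
    {μ : Measure X} [TopologicalSpace.SeparableSpace H]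
    (hμ : ∀ g : G, MeasurePreserving (fun x : X => g • x) μ μ) (p : G → H →L[ℂ] H)
    (p_sa : ∀ g, IsSelfAdjoint (p g)) (p_sum : ∀ u, ∑' g, ‖p g u‖ₑ ^ 2 = ‖u‖ₑ ^ 2)
    {A : X → H →L[ℂ] H} (hA : SM A)
    (he : ∀ g : G, ∀ᵐ x ∂μ, ∃ W : H ≃ₗᵢ[ℂ] H, (∀ h u, W (p h u) = p (g * h) (W u)) ∧
      ∀ u, W (A x u) = A (g • x) (W u)) :
    ∫⁻ x, hs (A x * p 1) ∂μ = ∫⁻ x, hs (star (A x) * p 1) ∂μ := by
  have hm : ∀ (g : G) (C : X → H →L[ℂ] H), SM C →
      Measurable fun x => hs (p g * (C x * p 1)) := by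
    intro g C hC
    exact measurable_hs (SM_mul (SM_const (p g)) (SM_mul hC (SM_const (p 1))))
  have hpart : ∀ B : H →L[ℂ] H, hs B = ∑' g, hs (p g * B) := by
    intro B
    exact (hs_partition p p_sum B).symm
  have key : ∀ g : G, ∫⁻ x, hs (p g * (A x * p 1)) ∂μ =
      ∫⁻ x, hs (p g⁻¹ * (star (A x) * p 1)) ∂μ := by
    intro g
    rw [← (hμ g).lintegral_comp (hm g A hA)]
    refine lintegral_congr_ae ?_
    filter_upwards [he g] with y hy
    obtain ⟨W, h1, h2⟩ := hy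
    have e1 : hs (p g * (A (g • y) * p 1)) = hs (p 1 * (A y * p g⁻¹)) := by
      refine D3_conj W ?_
      intro u
      simp only [mul_apply_eq_comp]
      rw [h1, h2, h1]
      simp
    have e2 : star (p 1 * (A y * p g⁻¹)) = p g⁻¹ * (star (A y) * p 1) := by
      rw [star_mul, star_mul, (p_sa 1).star_eq, (p_sa g⁻¹).star_eq, mul_assoc]
    rw [e1, ← e2, D3_star]
  calc ∫⁻ x, hs (A x * p 1) ∂μ = ∫⁻ x, ∑' g, hs (p g * (A x * p 1)) ∂μ := by
        refine lintegral_congr fun x => hpart _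
    _ = ∑' g, ∫⁻ x, hs (p g * (A x * p 1)) ∂μ :=
        lintegral_tsum fun g => (hm g A hA).aemeasurable
    _ = ∑' g, ∫⁻ x, hs (p g⁻¹ * (star (A x) * p 1)) ∂μ := by
        refine tsum_congr fun g => key g
    _ = ∑' g, ∫⁻ x, hs (p g * (star (A x) * p 1)) ∂μ :=
        (Equiv.inv G).tsum_eq fun g => ∫⁻ x, hs (p g * (star (A x) * p 1)) ∂μ
    _ = ∫⁻ x, ∑' g, hs (p g * (star (A x) * p 1)) ∂μ :=
        (lintegral_tsum fun g => (hm g _ (SM_star hA)).aemeasurable).symm
    _ = ∫⁻ x, hs (star (A x) * p 1) ∂μ := by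
        refine lintegral_congr fun x => (hpart _).symm

end

end Pool.Agent.Lib.MP_df705a_gt.RL
end

section

/-!
TASK A2. The elements of `GrPlus eps Gr` and of its closure are graded.

PROOF. `graph_unique`: by `symm` we have `⟪v, b.1⟫ = ⟪0, b.2⟫ = 0` for all `b ∈ Gr`, the first
components are dense, so `v = 0`. `GrPlus_graded`: let `w ∈ GrPlus`. By `odd` the pair
`(eps w.fst, -(eps w.snd)) = (w.fst, -(eps w.snd))` is in `Gr`, the difference with
`(w.fst, w.snd)` is `(0, w.snd + eps w.snd)`, so `w.snd + eps w.snd = 0`. The set of the `w`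
with `eps w.fst = w.fst ∧ eps w.snd = -w.snd` is closed, so the same holds on the closure.
-/

open scoped InnerProductSpace ENNReal NNReal
open Filter Topology Set

namespace Pool.Agent.Lib.MP_df705a_gt.RL

noncomputable section

variable {H : Type*} [NormedAddCommGroup H] [InnerProductSpace ℂ H] [CompleteSpace H]

variable {eps : H →L[ℂ] H} {Gr : Submodule ℂ (H × H)}

theorem graph_unique (h : IsOddSymm eps Gr) {v : H} (hv : ((0 : H), v) ∈ Gr) : v = 0 := by
  have h1 : (fun a : H => ⟪v, a⟫_ℂ) = fun _ => 0 := by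
    refine Continuous.ext_on h.dense (by fun_prop) continuous_const ?_
    rintro a ⟨a', ha⟩
    have h2 := h.symm _ hv _ ha
    simpa using h2
  exact inner_self_eq_zero.1 (congrFun h1 v)

theorem GrPlus_graded (h : IsOddSymm eps Gr) {w : WithLp 2 (H × H)} (hw : w ∈ GrPlus eps Gr) :
    eps w.fst = w.fst ∧ eps w.snd = -w.snd := by
  obtain ⟨h1, h2⟩ := hw
  refine ⟨h2, ?_⟩
  have h3 := h.odd _ h1
  rw [h2] at h3
  have h4 := Gr.sub_mem h1 h3
  have h5 : ((w.fst, w.snd) - (w.fst, -(eps w.snd)) : H × H) = (0, w.snd + eps w.snd) := by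
    rw [Prod.mk_sub_mk, sub_self, sub_neg_eq_add]
  rw [h5] at h4
  exact eq_neg_of_add_eq_zero_right (graph_unique h h4)

theorem GrPlus_closure_graded (h : IsOddSymm eps Gr) {w : WithLp 2 (H × H)}
    (hw : w ∈ (GrPlus eps Gr).topologicalClosure) :
    eps w.fst = w.fst ∧ eps w.snd = -w.snd := by
  have hf : Continuous fun w : WithLp 2 (H × H) => w.fst := (WithLp.fstL 2 ℂ H H).continuous
  have hs : Continuous fun w : WithLp 2 (H × H) => w.snd := (WithLp.sndL 2 ℂ H H).continuous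
  have h1 : IsClosed {w : WithLp 2 (H × H) | eps w.fst = w.fst ∧ eps w.snd = -w.snd} :=
    (isClosed_eq (eps.continuous.comp hf) hf).inter
      (isClosed_eq (eps.continuous.comp hs) hs.neg)
  exact closure_minimal (fun w hw => GrPlus_graded h hw) h1 hw

end

end Pool.Agent.Lib.MP_df705a_gt.RL
end

section

/-!
TASK A1. The blocks of the orthogonal projection `P = PrL L`.

PROOF. `P` is self-adjoint (`Submodule.starProjection_isSymmetric`, or
`isSelfAdjoint_starProjection`) and `P (P w) = P w`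
(`Submodule.isIdempotentElem_starProjection`). `fstW` is the adjoint of `inlW`, `sndW` is the
adjoint of `inrW` (`WithLp.prod_inner_apply`), and `w = inlW (fstW w) + inrW (sndW w)`. For the
first statements compute inner products: `⟪P11 u, v⟫ = ⟪fst (P (inl u)), v⟫ = ⟪P (inl u), inl v⟫ =
⟪inl u, P (inl v)⟫ = ⟪u, P11 v⟫`. For the others apply `fst` or `snd` to
`P (inl u) = P (P (inl u)) = P (inl (P11 u) + inr (P21 u))`, and the same with `inr u`.
-/

open scoped InnerProductSpace ENNReal NNReal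
open Filter Topology Set

namespace Pool.Agent.Lib.MP_df705a_gt.RL

noncomputable section

variable {H : Type*} [NormedAddCommGroup H] [InnerProductSpace ℂ H] [CompleteSpace H]

variable (L : Submodule ℂ (WithLp 2 (H × H)))

theorem PrL_idem (w : WithLp 2 (H × H)) : PrL L (PrL L w) = PrL L w := by
  have h := Submodule.isIdempotentElem_starProjection L.topologicalClosure
  have h1 := congrArg (fun T : WithLp 2 (H × H) →L[ℂ] WithLp 2 (H × H) => T w) h
  exact h1

theorem PrL_inner (v w : WithLp 2 (H × H)) : ⟪PrL L v, w⟫_ℂ = ⟪v, PrL L w⟫_ℂ :=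
  Submodule.starProjection_isSymmetric L.topologicalClosure v w

theorem inlW_fst_add (w : WithLp 2 (H × H)) : inlW (fstW w) + inrW (sndW w) = w := by
  apply (WithLp.prodContinuousLinearEquiv 2 ℂ H H).injective
  rw [map_add]
  apply Prod.ext
  · simp [inlW, inrW, fstW, sndW]
  · simp [inlW, inrW, fstW, sndW]

theorem A1_fst_inlW (u : H) : (inlW u).fst = u := rfl

theorem A1_snd_inlW (u : H) : (inlW u).snd = 0 := rfl

theorem A1_fst_inrW (u : H) : (inrW u).fst = 0 := rfl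

theorem A1_snd_inrW (u : H) : (inrW u).snd = u := rfl

theorem A1_inner_inlW (w : WithLp 2 (H × H)) (v : H) : ⟪w, inlW v⟫_ℂ = ⟪fstW w, v⟫_ℂ := by
  rw [WithLp.prod_inner_apply]
  have h1 : ⟪w.snd, (inlW v).snd⟫_ℂ = 0 := by
    rw [A1_snd_inlW, inner_zero_right]
  have h2 : ⟪w.fst, (inlW v).fst⟫_ℂ = ⟪fstW w, v⟫_ℂ := rfl
  exact (congrArg₂ (· + ·) h2 h1).trans (add_zero _)

theorem A1_inner_inrW (w : WithLp 2 (H × H)) (v : H) : ⟪w, inrW v⟫_ℂ = ⟪sndW w, v⟫_ℂ := by
  rw [WithLp.prod_inner_apply]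
  have h1 : ⟪w.fst, (inrW v).fst⟫_ℂ = 0 := by
    rw [A1_fst_inrW, inner_zero_right]
  have h2 : ⟪w.snd, (inrW v).snd⟫_ℂ = ⟪sndW w, v⟫_ℂ := rfl
  exact (congrArg₂ (· + ·) h1 h2).trans (zero_add _)

theorem A1_inlW_inner (w : WithLp 2 (H × H)) (v : H) : ⟪inlW v, w⟫_ℂ = ⟪v, fstW w⟫_ℂ := by
  rw [← inner_conj_symm, A1_inner_inlW, inner_conj_symm]

theorem A1_inrW_inner (w : WithLp 2 (H × H)) (v : H) : ⟪inrW v, w⟫_ℂ = ⟪v, sndW w⟫_ℂ := by
  rw [← inner_conj_symm, A1_inner_inrW, inner_conj_symm]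

theorem P11_sa : IsSelfAdjoint (P11 L) := by
  rw [ContinuousLinearMap.isSelfAdjoint_iff_isSymmetric]
  intro u v
  change ⟪fstW (PrL L (inlW u)), v⟫_ℂ = ⟪u, fstW (PrL L (inlW v))⟫_ℂ
  rw [← A1_inner_inlW, PrL_inner, A1_inlW_inner]

theorem P22_sa : IsSelfAdjoint (P22 L) := by
  rw [ContinuousLinearMap.isSelfAdjoint_iff_isSymmetric]
  intro u v
  change ⟪sndW (PrL L (inrW u)), v⟫_ℂ = ⟪u, sndW (PrL L (inrW v))⟫_ℂ
  rw [← A1_inner_inrW, PrL_inner, A1_inrW_inner]

theorem star_P12 : star (P12 L) = P21 L := by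
  rw [ContinuousLinearMap.star_eq_adjoint]
  symm
  rw [ContinuousLinearMap.eq_adjoint_iff]
  intro u v
  change ⟪sndW (PrL L (inlW u)), v⟫_ℂ = ⟪u, fstW (PrL L (inrW v))⟫_ℂ
  rw [← A1_inner_inrW, PrL_inner, A1_inlW_inner]

theorem A1_PrL_inlW (u : H) :
    PrL L (inlW (P11 L u)) + PrL L (inrW (P21 L u)) = PrL L (inlW u) := by
  have h1 : inlW (P11 L u) + inrW (P21 L u) = PrL L (inlW u) := inlW_fst_add _
  rw [← map_add, h1, PrL_idem]

theorem A1_PrL_inrW (u : H) :
    PrL L (inlW (P12 L u)) + PrL L (inrW (P22 L u)) = PrL L (inrW u) := by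
  have h1 : inlW (P12 L u) + inrW (P22 L u) = PrL L (inrW u) := inlW_fst_add _
  rw [← map_add, h1, PrL_idem]

theorem P_sq11 : P11 L * P11 L + P12 L * P21 L = P11 L := by
  ext u
  have h := congrArg fstW (A1_PrL_inlW L u)
  rw [map_add] at h
  exact h

theorem P_sq12 : P11 L * P12 L + P12 L * P22 L = P12 L := by
  ext u
  have h := congrArg fstW (A1_PrL_inrW L u)
  rw [map_add] at h
  exact h

theorem P_sq21 : P21 L * P11 L + P22 L * P21 L = P21 L := by
  ext u
  have h := congrArg sndW (A1_PrL_inlW L u)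
  rw [map_add] at h
  exact h

theorem P_sq22 : P21 L * P12 L + P22 L * P22 L = P22 L := by
  ext u
  have h := congrArg sndW (A1_PrL_inrW L u)
  rw [map_add] at h
  exact h

end

end Pool.Agent.Lib.MP_df705a_gt.RL
end

section

/-!
TASK A3. The blocks of the projection and the grading.

PROOF. `P w` is in the closure of `L`, so `eps (fst (P w)) = fst (P w)` and
`eps (snd (P w)) = - snd (P w)`. This gives `eps * P11 = P11`, `eps * P12 = P12`,
`eps * P21 = -P21`, `eps * P22 = -P22`. Take adjoints for the other four (`star (P12 L) = P21 L`,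
so `star (P21 L) = P12 L`).
-/

open scoped InnerProductSpace ENNReal NNReal
open Filter Topology Set

namespace Pool.Agent.Lib.MP_df705a_gt.RL

noncomputable section

variable {H : Type*} [NormedAddCommGroup H] [InnerProductSpace ℂ H] [CompleteSpace H]

variable {eps : H →L[ℂ] H} {L : Submodule ℂ (WithLp 2 (H × H))}

theorem blocks_left (hL : ∀ w ∈ L.topologicalClosure, eps w.fst = w.fst ∧ eps w.snd = -w.snd) :
    eps * P11 L = P11 L ∧ eps * P12 L = P12 L ∧ eps * P21 L = -P21 L ∧ eps * P22 L = -P22 L := by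
  have hm : ∀ w, PrL L w ∈ L.topologicalClosure := fun w =>
    L.topologicalClosure.starProjection_apply_mem w
  refine ⟨?_, ?_, ?_, ?_⟩ <;> ext u
  · exact (hL _ (hm (inlW u))).1
  · exact (hL _ (hm (inrW u))).1
  · exact (hL _ (hm (inlW u))).2
  · exact (hL _ (hm (inrW u))).2

theorem blocks_right (he : IsGrading eps)
    (hL : ∀ w ∈ L.topologicalClosure, eps w.fst = w.fst ∧ eps w.snd = -w.snd) :
    P11 L * eps = P11 L ∧ P21 L * eps = P21 L ∧ P12 L * eps = -P12 L ∧ P22 L * eps = -P22 L := by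
  obtain ⟨h1, h2, h3, h4⟩ := blocks_left hL
  have e1 : star (P21 L) = P12 L := by rw [← star_P12, star_star]
  have g1 := congrArg star h1
  have g2 := congrArg star h2
  have g3 := congrArg star h3
  have g4 := congrArg star h4
  rw [star_mul, he.sa.star_eq, (P11_sa L).star_eq] at g1
  rw [star_mul, he.sa.star_eq, star_P12] at g2
  rw [star_mul, he.sa.star_eq, star_neg, e1] at g3
  rw [star_mul, he.sa.star_eq, star_neg, (P22_sa L).star_eq] at g4
  exact ⟨g1, g2, g3, g4⟩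

end

end Pool.Agent.Lib.MP_df705a_gt.RL
end

section

/-!
TASK A4. The algebra of `R = Rop eps Gr` and `B = Bop eps Gr`.

PROOF. Let `L = GrPlus eps Gr`; A2 gives the hypothesis of A3. `R = P11 + Π₋ - P22` and
`B = P12 + P21` with `Π₋ = (1 - eps) / 2`. From A3: `P11 Π₋ = 0 = Π₋ P11`, `P22 Π₋ = P22 = Π₋ P22`,
`P12 Π₋ = P12`, `Π₋ P12 = 0`, `Π₋ P21 = P21`, `P21 Π₋ = 0`, and `P11 P22 = P11 eps P22 = - P11 P22`,
so `P11 P22 = 0`; in the same way `P22 P11 = 0`, `P11 P21 = 0` (`P11 P21 = P11 eps P21 =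
- P11 P21`), `P12 P11 = 0`, `P12 P12 = 0`, `P21 P21 = 0`, `P22 P12 = 0`, `P21 P22 = 0`.
Then `R B = P11 P12 + P21 - P22 P21` and `B R = P12 - P12 P22 + P21 P11`, equal by `P_sq12`,
`P_sq21`. `B B = P12 P21 + P21 P12 = P11 - P11² + P22 - P22²` by `P_sq11`, `P_sq22`, and
`R - R² = P11 + Π₋ - P22 - (P11² + Π₋ - 2 P22 + P22²)`; `Π₋² = Π₋` by `eps² = 1`.
-/

open scoped InnerProductSpace ENNReal NNReal
open Filter Topology Set

namespace Pool.Agent.Lib.MP_df705a_gt.RL

noncomputable section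

variable {H : Type*} [NormedAddCommGroup H] [InnerProductSpace ℂ H] [CompleteSpace H]

variable {eps : H →L[ℂ] H} {Gr : Submodule ℂ (H × H)}

private theorem A4_self {x : H →L[ℂ] H} (h : x = -x) : x = 0 := by
  have h1 : (2 : ℂ) • x = 0 := by
    rw [two_smul]
    nth_rw 1 [h]
    exact neg_add_cancel x
  exact (smul_eq_zero.1 h1).resolve_left two_ne_zero

private theorem A4_vanish {e x y : H →L[ℂ] H} (h1 : x * e = x) (h2 : e * y = -y) : x * y = 0 := by
  apply A4_self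
  calc x * y = (x * e) * y := by rw [h1]
    _ = -(x * y) := by rw [mul_assoc, h2, mul_neg]

private theorem A4_vanish' {e x y : H →L[ℂ] H} (h1 : x * e = -x) (h2 : e * y = y) :
    x * y = 0 := by
  apply A4_self
  calc x * y = x * (e * y) := by rw [h2]
    _ = -(x * y) := by rw [← mul_assoc, h1, neg_mul]

private theorem A4_pim {e x : H →L[ℂ] H} :
    (e * x = x → Pim e * x = 0) ∧ (e * x = -x → Pim e * x = x) ∧
      (x * e = x → x * Pim e = 0) ∧ (x * e = -x → x * Pim e = x) := by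
  have h2 : (1 / 2 : ℂ) • (x + x) = x := by
    rw [← two_smul ℂ x, smul_smul]
    norm_num
  refine ⟨fun h => ?_, fun h => ?_, fun h => ?_, fun h => ?_⟩
  · rw [Pim, smul_mul_assoc, sub_mul, one_mul, h, sub_self, smul_zero]
  · rw [Pim, smul_mul_assoc, sub_mul, one_mul, h, sub_neg_eq_add, h2]
  · rw [Pim, mul_smul_comm, mul_sub, mul_one, h, sub_self, smul_zero]
  · rw [Pim, mul_smul_comm, mul_sub, mul_one, h, sub_neg_eq_add, h2]

private theorem A4_e_pim (he : IsGrading eps) : eps * Pim eps = -Pim eps := by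
  rw [Pim, mul_smul_comm, mul_sub, mul_one, he.sq, ← smul_neg, neg_sub]

private theorem A4_pim_e (he : IsGrading eps) : Pim eps * eps = -Pim eps := by
  rw [Pim, smul_mul_assoc, sub_mul, one_mul, he.sq, ← smul_neg, neg_sub]

theorem Rop_sa (he : IsGrading eps) : IsSelfAdjoint (Rop eps Gr) := by
  have h1 : IsSelfAdjoint (Pim eps) := by
    rw [isSelfAdjoint_iff, Pim, star_smul, star_sub, star_one, he.sa.star_eq]
    simp
  exact ((P11_sa _).add h1).sub (P22_sa _)

theorem Bop_sa : IsSelfAdjoint (Bop eps Gr) := by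
  have e1 : star (P21 (GrPlus eps Gr)) = P12 (GrPlus eps Gr) := by rw [← star_P12, star_star]
  rw [isSelfAdjoint_iff, Bop, star_add, star_P12, e1, add_comm]

theorem Rop_comm_eps (he : IsGrading eps) (h : IsOddSymm eps Gr) :
    Commute (Rop eps Gr) eps := by
  obtain ⟨l1, l2, l3, l4⟩ := blocks_left (L := GrPlus eps Gr) fun w hw =>
    GrPlus_closure_graded h hw
  obtain ⟨r1, r3, r2, r4⟩ := blocks_right (L := GrPlus eps Gr) he fun w hw =>
    GrPlus_closure_graded h hw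
  change Rop eps Gr * eps = eps * Rop eps Gr
  rw [Rop, sub_mul, add_mul, mul_sub, mul_add, l1, l4, r1, r4, A4_e_pim he, A4_pim_e he]

theorem Bop_eps (he : IsGrading eps) (h : IsOddSymm eps Gr) :
    eps * Bop eps Gr = -(Bop eps Gr * eps) := by
  obtain ⟨l1, l2, l3, l4⟩ := blocks_left (L := GrPlus eps Gr) fun w hw =>
    GrPlus_closure_graded h hw
  obtain ⟨r1, r3, r2, r4⟩ := blocks_right (L := GrPlus eps Gr) he fun w hw =>
    GrPlus_closure_graded h hw
  rw [Bop, mul_add, add_mul, l2, l3, r2, r3]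
  abel

theorem Rop_comm_Bop (he : IsGrading eps) (h : IsOddSymm eps Gr) :
    Commute (Rop eps Gr) (Bop eps Gr) := by
  obtain ⟨l1, l2, l3, l4⟩ := blocks_left (L := GrPlus eps Gr) fun w hw =>
    GrPlus_closure_graded h hw
  obtain ⟨r1, r3, r2, r4⟩ := blocks_right (L := GrPlus eps Gr) he fun w hw =>
    GrPlus_closure_graded h hw
  change Rop eps Gr * Bop eps Gr = Bop eps Gr * Rop eps Gr
  rw [Rop, Bop]
  simp only [mul_add, add_mul, mul_sub, sub_mul]
  rw [A4_vanish r1 l3, A4_pim.1 l2, A4_pim.2.1 l3, A4_vanish' r4 l2, A4_vanish' r2 l1,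
    A4_pim.2.2.2 r2, A4_pim.2.2.1 r3, A4_vanish r3 l4]
  have e1 := P_sq12 (GrPlus eps Gr)
  have e2 := P_sq21 (GrPlus eps Gr)
  have e3 := eq_sub_of_add_eq e1
  have e4 := eq_sub_of_add_eq e2
  rw [e3, e4]
  abel

theorem Bop_sq (he : IsGrading eps) (h : IsOddSymm eps Gr) :
    Bop eps Gr * Bop eps Gr = Rop eps Gr - Rop eps Gr * Rop eps Gr := by
  obtain ⟨l1, l2, l3, l4⟩ := blocks_left (L := GrPlus eps Gr) fun w hw =>
    GrPlus_closure_graded h hw
  obtain ⟨r1, r3, r2, r4⟩ := blocks_right (L := GrPlus eps Gr) he fun w hw =>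
    GrPlus_closure_graded h hw
  rw [Rop, Bop]
  simp only [mul_add, add_mul, mul_sub, sub_mul]
  rw [A4_vanish' r2 l2, A4_vanish r3 l3, A4_vanish r1 l4, A4_vanish' r4 l1,
    A4_pim.2.2.1 r1, A4_pim.1 l1, A4_pim.2.1 (A4_e_pim he), A4_pim.2.1 l4, A4_pim.2.2.2 r4]
  have e3 := eq_sub_of_add_eq' (P_sq11 (GrPlus eps Gr))
  have e4 := eq_sub_of_add_eq (P_sq22 (GrPlus eps Gr))
  rw [e3, e4]
  abel

end

end Pool.Agent.Lib.MP_df705a_gt.RL
end

section

/-!
TASK A5. `0 ≤ R ≤ 1`.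

PROOF. `R = R² + B²` and `1 - R = (1 - R)² + B²` with `R`, `B` self-adjoint, so `0 ≤ R` and
`0 ≤ 1 - R`; the spectrum of a positive operator is in `[0, ∞)`.
-/

open scoped InnerProductSpace ENNReal NNReal
open Filter Topology Set

namespace Pool.Agent.Lib.MP_df705a_gt.RL

noncomputable section

variable {H : Type*} [NormedAddCommGroup H] [InnerProductSpace ℂ H] [CompleteSpace H]

variable {eps : H →L[ℂ] H} {Gr : Submodule ℂ (H × H)}

theorem A5_nonneg {R B C : H →L[ℂ] H} (hR : IsSelfAdjoint R) (hB : IsSelfAdjoint B)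
    (h : C = R * R + B * B) : 0 ≤ C := by
  rw [h]
  refine add_nonneg ?_ ?_
  · have := star_mul_self_nonneg R
    rwa [hR.star_eq] at this
  · have := star_mul_self_nonneg B
    rwa [hB.star_eq] at this

theorem Rop_isCon (he : IsGrading eps) (h : IsOddSymm eps Gr) : IsCon (Rop eps Gr) := by
  have hR := Rop_sa (Gr := Gr) he
  have hB := Bop_sa (eps := eps) (Gr := Gr)
  have hsq := Bop_sq he h
  have h0 : 0 ≤ Rop eps Gr := A5_nonneg hR hB (by rw [hsq]; abel)
  have h1 : 0 ≤ 1 - Rop eps Gr := by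
    refine A5_nonneg (IsSelfAdjoint.sub (IsSelfAdjoint.one _) hR) hB ?_
    rw [hsq]
    noncomm_ring
  refine ⟨hR, fun x hx => ⟨spectrum_nonneg_of_nonneg h0 hx, ?_⟩⟩
  have h2 : (1 : ℝ) - x ∈ spectrum ℝ (1 - Rop eps Gr) := by
    have h3 := spectrum.singleton_sub_eq (Rop eps Gr) (1 : ℝ)
    rw [map_one] at h3
    rw [← h3]
    exact Set.sub_mem_sub (Set.mem_singleton _) hx
  have := spectrum_nonneg_of_nonneg h1 h2
  linarith

end

end Pool.Agent.Lib.MP_df705a_gt.RL
end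

section

/-!
TASK C8. Measurability of `R` and `B`.

`v n x` are measurable graph elements which span a dense subspace of the graph.

PROOF. Let `Q = (Π₊, Π₋)` on `WithLp 2 (H × H)`. It maps the graph `Gr x` to
`GrPlus eps (Gr x)` (by `odd`) and it is the identity on `GrPlus` (`GrPlus_graded`), it is
continuous. So the vectors `Q (v n x)` are in `GrPlus` and the closure of their span contains
`Q (closure of span v) ⊇ Q (Gr) = GrPlus`: the closure of the span of the `Q (v n x)` is the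
closure of `GrPlus`. Hence `PrL (GrPlus eps (Gr x))` is the projection in C7, weakly
measurable; the blocks too (`⟪w, fst (P (inl u))⟫ = ⟪inl w, P (inl u)⟫`), `SM_of_weak`,
`SM_add`. (`WithLp 2 (H × H)` is separable.)
-/

open scoped InnerProductSpace ENNReal NNReal
open Filter Topology Set MeasureTheory

namespace Pool.Agent.Lib.MP_df705a_gt.RL

noncomputable section

variable {H : Type*} [NormedAddCommGroup H] [InnerProductSpace ℂ H] [CompleteSpace H]

variable {X : Type*} [MeasurableSpace X]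

theorem C8_congr {E : Type*} [NormedAddCommGroup E] [InnerProductSpace ℂ E] {A B : Submodule ℂ E}
    [A.HasOrthogonalProjection] [B.HasOrthogonalProjection] (h : A = B) :
    A.starProjection = B.starProjection := by
  subst h
  rfl

/-- `(a, b) ↦ (Π₊ a, Π₋ b)` -/
def C8_Q (eps : H →L[ℂ] H) : H × H →L[ℂ] WithLp 2 (H × H) :=
  (WithLp.prodContinuousLinearEquiv 2 ℂ H H).symm.toContinuousLinearMap ∘L
    (ContinuousLinearMap.prodMap (Pip eps) (Pim eps))

theorem C8_Q_fst (eps : H →L[ℂ] H) (a : H × H) : (C8_Q eps a).fst = Pip eps a.1 := rfl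

theorem C8_Q_snd (eps : H →L[ℂ] H) (a : H × H) : (C8_Q eps a).snd = Pim eps a.2 := rfl

theorem C8_Q_mem {eps : H →L[ℂ] H} (he : IsGrading eps) {G : Submodule ℂ (H × H)}
    (h : IsOddSymm eps G) {a : H × H} (ha : a ∈ G) : C8_Q eps a ∈ GrPlus eps G := by
  refine ⟨?_, ?_⟩
  · have h1 := G.smul_mem (1 / 2 : ℂ) (G.add_mem ha (h.odd a ha))
    have h2 : ((C8_Q eps a).fst, (C8_Q eps a).snd) =
        (1 / 2 : ℂ) • (a + (eps a.1, -(eps a.2))) := by
      rw [C8_Q_fst, C8_Q_snd]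
      unfold Pip Pim
      ext
      · simp
      · simp [sub_eq_add_neg]
    rw [h2]
    exact h1
  · rw [C8_Q_fst]
    have h3 : eps (eps a.1) = a.1 := by
      have := congrArg (fun T : H →L[ℂ] H => T a.1) he.sq
      simpa using this
    unfold Pip
    simp [h3, add_comm]

theorem C8_Q_eq {eps : H →L[ℂ] H} {G : Submodule ℂ (H × H)}
    (h : IsOddSymm eps G) {w : WithLp 2 (H × H)} (hw : w ∈ GrPlus eps G) :
    C8_Q eps (w.fst, w.snd) = w := by
  obtain ⟨h1, h2⟩ := GrPlus_graded h hw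
  have e1 : (C8_Q eps (w.fst, w.snd)).fst = w.fst := by
    rw [C8_Q_fst]
    unfold Pip
    simp only [ContinuousLinearMap.smul_apply, ContinuousLinearMap.add_apply,
      ContinuousLinearMap.one_apply, h1]
    rw [← two_smul ℂ w.fst, smul_smul]
    norm_num
  have e2 : (C8_Q eps (w.fst, w.snd)).snd = w.snd := by
    rw [C8_Q_snd]
    unfold Pim
    simp only [ContinuousLinearMap.smul_apply, ContinuousLinearMap.sub_apply,
      ContinuousLinearMap.one_apply, h2]
    rw [sub_neg_eq_add, ← two_smul ℂ w.snd, smul_smul]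
    norm_num
  apply (WithLp.equiv 2 (H × H)).injective
  exact Prod.ext e1 e2

theorem C8_closure {eps : H →L[ℂ] H} (he : IsGrading eps) {G : Submodule ℂ (H × H)}
    (h : IsOddSymm eps G) {v : ℕ → H × H} (hmem : ∀ n, v n ∈ G)
    (hd : ∀ a ∈ G, a ∈ closure (Submodule.span ℂ (range v) : Set (H × H))) :
    (Submodule.span ℂ (range fun n => C8_Q eps (v n))).topologicalClosure =
      (GrPlus eps G).topologicalClosure := by
  apply le_antisymm
  · refine Submodule.topologicalClosure_mono (Submodule.span_le.2 ?_)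
    rintro _ ⟨n, rfl⟩
    exact C8_Q_mem he h (hmem n)
  · refine Submodule.topologicalClosure_minimal _ (fun w hw => ?_)
      (Submodule.isClosed_topologicalClosure _)
    have h1 : (w.fst, w.snd) ∈ closure (Submodule.span ℂ (range v) : Set (H × H)) :=
      hd _ hw.1
    have h2 := map_mem_closure (C8_Q eps).continuous h1
      (t := (Submodule.span ℂ (range fun n => C8_Q eps (v n)) : Set (WithLp 2 (H × H)))) (by
        intro a ha
        have h3 : (Submodule.span ℂ (range v)).map (C8_Q eps).toLinearMap ≤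
            Submodule.span ℂ (range fun n => C8_Q eps (v n)) := by
          rw [Submodule.map_span, Submodule.span_le]
          rintro _ ⟨_, ⟨n, rfl⟩, rfl⟩
          exact Submodule.subset_span ⟨n, rfl⟩
        exact h3 ⟨a, ha, rfl⟩)
    rw [C8_Q_eq h hw] at h2
    exact h2

theorem C8_sep [TopologicalSpace.SeparableSpace H] :
    TopologicalSpace.SeparableSpace (WithLp 2 (H × H)) :=
  ((WithLp.prodContinuousLinearEquiv 2 ℂ H H).symm.surjective.denseRange).separableSpace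
    (WithLp.prodContinuousLinearEquiv 2 ℂ H H).symm.continuous

theorem C8_meas [TopologicalSpace.SeparableSpace H] {eps : H →L[ℂ] H} (he : IsGrading eps)
    {Gr : X → Submodule ℂ (H × H)} (h : ∀ x, IsOddSymm eps (Gr x)) {v : ℕ → X → H × H}
    (hv : ∀ n, StronglyMeasurable (v n)) (hmem : ∀ n x, v n x ∈ Gr x)
    (hd : ∀ x, ∀ a ∈ Gr x, a ∈ closure (Submodule.span ℂ (range fun n => v n x) : Set (H × H)))
    (u w : WithLp 2 (H × H)) :
    Measurable fun x => ⟪w, PrL (GrPlus eps (Gr x)) u⟫_ℂ := by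
  have hs := C8_sep (H := H)
  have h1 := proj_inner_measurable (v := fun n x => C8_Q eps (v n x))
    (fun n => (C8_Q eps).continuous.comp_stronglyMeasurable (hv n)) u w
  have h2 : (fun x => ⟪w, PrL (GrPlus eps (Gr x)) u⟫_ℂ) = fun x =>
      ⟪w, (Submodule.span ℂ
        (range fun n => C8_Q eps (v n x))).topologicalClosure.starProjection u⟫_ℂ := by
    funext x
    have h3 := C8_congr (C8_closure he (h x) (fun n => hmem n x) (hd x))
    unfold PrL
    rw [h3]
  rw [h2]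
  exact h1

theorem SM_Rop_Bop [TopologicalSpace.SeparableSpace H] {eps : H →L[ℂ] H} (he : IsGrading eps)
    {Gr : X → Submodule ℂ (H × H)} (h : ∀ x, IsOddSymm eps (Gr x)) {v : ℕ → X → H × H}
    (hv : ∀ n, StronglyMeasurable (v n)) (hmem : ∀ n x, v n x ∈ Gr x)
    (hd : ∀ x, ∀ a ∈ Gr x, a ∈ closure (Submodule.span ℂ (range fun n => v n x) : Set (H × H))) :
    SM (fun x => Rop eps (Gr x)) ∧ SM (fun x => Bop eps (Gr x)) := by
  have hm := C8_meas he h hv hmem hd
  have e1 : ∀ (a : H) (w : WithLp 2 (H × H)), ⟪a, fstW w⟫_ℂ = ⟪inlW a, w⟫_ℂ := by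
    intro a w
    rw [WithLp.prod_inner_apply]
    change _ = ⟪a, w.fst⟫_ℂ + ⟪(0 : H), w.snd⟫_ℂ
    rw [inner_zero_left, add_zero]
    rfl
  have e2 : ∀ (a : H) (w : WithLp 2 (H × H)), ⟪a, sndW w⟫_ℂ = ⟪inrW a, w⟫_ℂ := by
    intro a w
    rw [WithLp.prod_inner_apply]
    change _ = ⟪(0 : H), w.fst⟫_ℂ + ⟪a, w.snd⟫_ℂ
    rw [inner_zero_left, zero_add]
    rfl
  have h11 : SM fun x => P11 (GrPlus eps (Gr x)) := SM_of_weak fun u v => by
    change Measurable fun x => ⟪v, fstW (PrL (GrPlus eps (Gr x)) (inlW u))⟫_ℂ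
    simp only [e1]
    exact hm _ _
  have h12 : SM fun x => P12 (GrPlus eps (Gr x)) := SM_of_weak fun u v => by
    change Measurable fun x => ⟪v, fstW (PrL (GrPlus eps (Gr x)) (inrW u))⟫_ℂ
    simp only [e1]
    exact hm _ _
  have h21 : SM fun x => P21 (GrPlus eps (Gr x)) := SM_of_weak fun u v => by
    change Measurable fun x => ⟪v, sndW (PrL (GrPlus eps (Gr x)) (inlW u))⟫_ℂ
    simp only [e2]
    exact hm _ _
  have h22 : SM fun x => P22 (GrPlus eps (Gr x)) := SM_of_weak fun u v => by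
    change Measurable fun x => ⟪v, sndW (PrL (GrPlus eps (Gr x)) (inrW u))⟫_ℂ
    simp only [e2]
    exact hm _ _
  refine ⟨?_, SM_add h12 h21⟩
  have h3 := SM_add (SM_add h11 (SM_const (Pim eps))) (SM_smul (-1) h22)
  have h4 : (fun x => Rop eps (Gr x)) = fun x =>
      P11 (GrPlus eps (Gr x)) + Pim eps + (-1 : ℂ) • P22 (GrPlus eps (Gr x)) := by
    funext x
    unfold Rop
    rw [neg_smul, one_smul, sub_eq_add_neg]
  rw [h4]
  exact h3

end

end Pool.Agent.Lib.MP_df705a_gt.RL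
end

section

/-!
TASK D1. Equivariance of `R` and `B`.

PROOF. Let `T = W × W` on `WithLp 2 (H × H)`, a unitary. By `hW`, `hG` it maps
`L = GrPlus eps Gr` onto `L' = GrPlus eps Gr'` (for surjectivity use `W.symm`), hence the closure
onto the closure. For `w` the vector `T (P w)` is in the closure of `L'` and
`T w - T (P w) = T (w - P w)` is orthogonal to it, so `P' (T w) = T (P w)`
(`Submodule.eq_starProjection_of_mem_orthogonal` or similar). Take the blocks: `T (inl u) =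
inl (W u)`, `fst (T w) = W (fst w)` and so on. `W` commutes with `Π₋`.
-/

set_option linter.unusedSectionVars false

open scoped InnerProductSpace ENNReal NNReal
open Filter Topology Set MeasureTheory

namespace Pool.Agent.Lib.MP_df705a_gt.RL

noncomputable section

variable {H : Type*} [NormedAddCommGroup H] [InnerProductSpace ℂ H] [CompleteSpace H]

/-- The map `W × W`. -/
private def D1_T (W : H ≃ₗᵢ[ℂ] H) : WithLp 2 (H × H) →L[ℂ] WithLp 2 (H × H) :=
  inlW ∘L (W : H →L[ℂ] H) ∘L fstW + inrW ∘L (W : H →L[ℂ] H) ∘L sndW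

private theorem D1_fst (W : H ≃ₗᵢ[ℂ] H) (w : WithLp 2 (H × H)) : (D1_T W w).fst = W w.fst := by
  change W w.fst + (0 : H) = _
  rw [add_zero]

private theorem D1_snd (W : H ≃ₗᵢ[ℂ] H) (w : WithLp 2 (H × H)) : (D1_T W w).snd = W w.snd := by
  change (0 : H) + W w.snd = _
  rw [zero_add]

private theorem D1_inner (W : H ≃ₗᵢ[ℂ] H) (a b : WithLp 2 (H × H)) :
    ⟪D1_T W a, D1_T W b⟫_ℂ = ⟪a, b⟫_ℂ := by
  rw [WithLp.prod_inner_apply, WithLp.prod_inner_apply]
  have h1 := D1_fst W a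
  have h2 := D1_snd W a
  have h3 := D1_fst W b
  have h4 := D1_snd W b
  change ⟪(D1_T W a).fst, (D1_T W b).fst⟫_ℂ + ⟪(D1_T W a).snd, (D1_T W b).snd⟫_ℂ =
    ⟪a.fst, b.fst⟫_ℂ + ⟪a.snd, b.snd⟫_ℂ
  rw [h1, h2, h3, h4, W.inner_map_map, W.inner_map_map]

private theorem D1_ext {a b : WithLp 2 (H × H)} (h1 : a.fst = b.fst) (h2 : a.snd = b.snd) :
    a = b := by
  apply (WithLp.equiv 2 (H × H)).injective
  exact Prod.ext h1 h2

private theorem D1_inl (W : H ≃ₗᵢ[ℂ] H) (u : H) : D1_T W (inlW u) = inlW (W u) := by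
  apply D1_ext
  · rw [D1_fst]
    rfl
  · rw [D1_snd]
    change W (0 : H) = 0
    exact map_zero W

private theorem D1_inr (W : H ≃ₗᵢ[ℂ] H) (u : H) : D1_T W (inrW u) = inrW (W u) := by
  apply D1_ext
  · rw [D1_fst]
    change W (0 : H) = 0
    exact map_zero W
  · rw [D1_snd]
    rfl

private theorem D1_proj {eps : H →L[ℂ] H} {Gr Gr' : Submodule ℂ (H × H)} (W : H ≃ₗᵢ[ℂ] H)
    (hW : ∀ u, W (eps u) = eps (W u)) (hG : ∀ a a', (a, a') ∈ Gr ↔ (W a, W a') ∈ Gr')
    (w : WithLp 2 (H × H)) :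
    D1_T W (PrL (GrPlus eps Gr) w) = PrL (GrPlus eps Gr') (D1_T W w) := by
  have hmap : ∀ a ∈ GrPlus eps Gr, D1_T W a ∈ GrPlus eps Gr' := by
    intro a ha
    refine ⟨?_, ?_⟩
    · rw [D1_fst, D1_snd]
      exact (hG _ _).1 ha.1
    · rw [D1_fst, ← hW, ha.2]
  have hsurj : ∀ b ∈ GrPlus eps Gr', ∃ a ∈ GrPlus eps Gr, D1_T W a = b := by
    intro b hb
    refine ⟨D1_T W.symm b, ⟨?_, ?_⟩, ?_⟩
    · rw [D1_fst, D1_snd]
      refine (hG _ _).2 ?_
      rw [W.apply_symm_apply, W.apply_symm_apply]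
      exact hb.1
    · rw [D1_fst]
      apply W.injective
      rw [hW, W.apply_symm_apply]
      exact hb.2
    · apply D1_ext
      · rw [D1_fst, D1_fst, W.apply_symm_apply]
      · rw [D1_snd, D1_snd, W.apply_symm_apply]
  symm
  refine Submodule.eq_starProjection_of_mem_of_inner_eq_zero ?_ ?_
  · have h1 : PrL (GrPlus eps Gr) w ∈ (GrPlus eps Gr).topologicalClosure :=
      Submodule.starProjection_apply_mem _ _
    exact map_mem_closure (D1_T W).continuous h1 fun a ha => hmap a ha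
  · have h2 : ∀ b ∈ GrPlus eps Gr',
        ⟪D1_T W w - D1_T W (PrL (GrPlus eps Gr) w), b⟫_ℂ = 0 := by
      intro b hb
      obtain ⟨a, ha, rfl⟩ := hsurj b hb
      rw [← map_sub, D1_inner]
      exact Submodule.starProjection_inner_eq_zero _ _
        ((GrPlus eps Gr).le_topologicalClosure ha)
    intro b hb
    have h3 : IsClosed {b : WithLp 2 (H × H) |
        ⟪D1_T W w - D1_T W (PrL (GrPlus eps Gr) w), b⟫_ℂ = 0} :=
      isClosed_eq (continuous_const.inner continuous_id) continuous_const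
    exact closure_minimal (fun b hb => h2 b hb) h3 hb

theorem Rop_Bop_equiv {eps : H →L[ℂ] H} {Gr Gr' : Submodule ℂ (H × H)} (W : H ≃ₗᵢ[ℂ] H)
    (hW : ∀ u, W (eps u) = eps (W u)) (hG : ∀ a a', (a, a') ∈ Gr ↔ (W a, W a') ∈ Gr') (u : H) :
    W (Rop eps Gr u) = Rop eps Gr' (W u) ∧ W (Bop eps Gr u) = Bop eps Gr' (W u) := by
  have h11 : W (P11 (GrPlus eps Gr) u) = P11 (GrPlus eps Gr') (W u) := by
    change W (PrL (GrPlus eps Gr) (inlW u)).fst = (PrL (GrPlus eps Gr') (inlW (W u))).fst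
    rw [← D1_inl, ← D1_proj W hW hG, D1_fst]
  have h21 : W (P21 (GrPlus eps Gr) u) = P21 (GrPlus eps Gr') (W u) := by
    change W (PrL (GrPlus eps Gr) (inlW u)).snd = (PrL (GrPlus eps Gr') (inlW (W u))).snd
    rw [← D1_inl, ← D1_proj W hW hG, D1_snd]
  have h12 : W (P12 (GrPlus eps Gr) u) = P12 (GrPlus eps Gr') (W u) := by
    change W (PrL (GrPlus eps Gr) (inrW u)).fst = (PrL (GrPlus eps Gr') (inrW (W u))).fst
    rw [← D1_inr, ← D1_proj W hW hG, D1_fst]
  have h22 : W (P22 (GrPlus eps Gr) u) = P22 (GrPlus eps Gr') (W u) := by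
    change W (PrL (GrPlus eps Gr) (inrW u)).snd = (PrL (GrPlus eps Gr') (inrW (W u))).snd
    rw [← D1_inr, ← D1_proj W hW hG, D1_snd]
  have hm : W (Pim eps u) = Pim eps (W u) := by
    change W ((1 / 2 : ℂ) • (u - eps u)) = (1 / 2 : ℂ) • (W u - eps (W u))
    rw [map_smul, map_sub, hW]
  constructor
  · change W (P11 (GrPlus eps Gr) u + Pim eps u - P22 (GrPlus eps Gr) u) =
      P11 (GrPlus eps Gr') (W u) + Pim eps (W u) - P22 (GrPlus eps Gr') (W u)
    rw [map_sub, map_add, h11, h22, hm]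
  · change W (P12 (GrPlus eps Gr) u + P21 (GrPlus eps Gr) u) =
      P12 (GrPlus eps Gr') (W u) + P21 (GrPlus eps Gr') (W u)
    rw [map_add, h12, h21]

end

end Pool.Agent.Lib.MP_df705a_gt.RL
end

section

/-!
TASK D4. Measurability and equivariance for a random system.

PROOF. `isCon`: A5. `SM_R`, `SM_B`: C8. `comm_eps`, `comm_B`, `B_sq`, `B_sa`, `eps_B`: A4.
`equiv_cfc`: combine `S.equiv g` with D1 and D2 (`W (R x u) = R (g • x) (W u)`).
-/

open scoped InnerProductSpace ENNReal NNReal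
open Filter Topology Set MeasureTheory

namespace Pool.Agent.Lib.MP_df705a_gt.RL

noncomputable section

variable {H : Type*} [NormedAddCommGroup H] [InnerProductSpace ℂ H] [CompleteSpace H]

namespace RSys

variable {G X : Type*} [Group G] [MulAction G X] [MeasurableSpace X] {μ : Measure X}

theorem isCon (S : RSys G X μ H) (x : X) : IsCon (S.R x) :=
  Rop_isCon S.grading (S.odd x)

theorem SM_R [TopologicalSpace.SeparableSpace H] (S : RSys G X μ H) : SM S.R :=
  (SM_Rop_Bop S.grading S.odd S.v_meas S.v_mem S.v_dense).1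

theorem SM_B [TopologicalSpace.SeparableSpace H] (S : RSys G X μ H) : SM S.B :=
  (SM_Rop_Bop S.grading S.odd S.v_meas S.v_mem S.v_dense).2

theorem comm_eps (S : RSys G X μ H) (x : X) : Commute (S.R x) S.eps :=
  Rop_comm_eps S.grading (S.odd x)

theorem comm_B (S : RSys G X μ H) (x : X) : Commute (S.R x) (S.B x) :=
  Rop_comm_Bop S.grading (S.odd x)

theorem B_sq (S : RSys G X μ H) (x : X) : S.B x * S.B x = S.R x - S.R x * S.R x :=
  Bop_sq S.grading (S.odd x)

theorem B_sa (S : RSys G X μ H) (x : X) : IsSelfAdjoint (S.B x) :=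
  Bop_sa

theorem eps_B (S : RSys G X μ H) (x : X) : S.eps * S.B x = -(S.B x * S.eps) :=
  Bop_eps S.grading (S.odd x)

theorem equiv_cfc (S : RSys G X μ H) {f : ℝ → ℝ} (hf : ContinuousOn f (Icc 0 1)) (g : G) :
    ∀ᵐ x ∂μ, ∃ W : H ≃ₗᵢ[ℂ] H, (∀ u, W (S.eps u) = S.eps (W u)) ∧
      (∀ h u, W (S.p h u) = S.p (g * h) (W u)) ∧
      (∀ n u, W (S.M n x u) = S.M n (g • x) (W u)) ∧
      (∀ u, W (cfc f (S.R x) u) = cfc f (S.R (g • x)) (W u)) ∧
      (∀ u, W (S.B x u) = S.B (g • x) (W u)) := by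
  filter_upwards [S.equiv g] with x hx
  obtain ⟨W, h1, h2, h3, h4⟩ := hx
  have h5 := fun u => Rop_Bop_equiv W h1 h3 u
  exact ⟨W, h1, h2, h4, fun u => cfc_equiv (S.isCon x) (S.isCon (g • x)) W (fun u => (h5 u).1) hf u,
    fun u => (h5 u).2⟩

end RSys

end

end Pool.Agent.Lib.MP_df705a_gt.RL
end

section

/-!
TASK A6. The action of `R` and `B` on the graph.

PROOF. (1) Let `(a, a') ∈ Gr` with `eps a = a`. Then `w = (a, a')` is in `L = GrPlus eps Gr`, so
`P w = w`: `P11 a + P12 a' = a`, `P21 a + P22 a' = a'`. By A3 and `eps a = a`, `eps a' = -a'`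
(A2): `P12 a = 0`, `P22 a = 0`, `Π₋ a = 0`, `P11 a' = 0`, `P21 a' = 0`, `Π₋ a' = a'`, so
`B a = P21 a`, `R a = P11 a`, `B a' = P12 a'`, `R a' = a' - P22 a'`: this is `B a = R a'`,
`a - R a = B a'`.
(2) Let `(a, a') ∈ Gr` with `eps a = -a`. By `odd` (and `graph_unique`) `eps a' = a'`. The vector
`(-a', a)` is orthogonal to `GrPlus eps Gr`: for `(b, b')` in it
`-⟪a', b⟫ + ⟪a, b'⟫ = 0` by `symm`. So `P (-a', a) = 0`: `P12 a = P11 a'`, `P22 a = P21 a'`. Now
`B a = P12 a`, `R a' = P11 a'`, `R a = a - P22 a`, `B a' = P21 a'`.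
(3) In general `Gr` contains `((a + eps a)/2, (a' - eps a')/2)` and
`((a - eps a)/2, (a' + eps a')/2)` (by `odd`), of type (1) and (2), and their sum is `(a, a')`.
-/

open scoped InnerProductSpace ENNReal NNReal
open Filter Topology Set

namespace Pool.Agent.Lib.MP_df705a_gt.RL

noncomputable section

variable {H : Type*} [NormedAddCommGroup H] [InnerProductSpace ℂ H] [CompleteSpace H]

variable {eps : H →L[ℂ] H} {Gr : Submodule ℂ (H × H)}

omit [CompleteSpace H] in
theorem A6_zero {x : H} (h : x = -x) : x = 0 := by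
  have h1 : x + x = 0 := by
    nth_rewrite 2 [h]
    exact add_neg_cancel x
  have h2 : (2 : ℂ) • x = 0 := by rw [two_smul, h1]
  exact (smul_eq_zero.mp h2).resolve_left two_ne_zero

omit [CompleteSpace H] in
theorem A6_half (x : H) : (1 / 2 : ℂ) • (x + x) = x := by
  rw [← two_smul ℂ x, smul_smul]
  norm_num

theorem A6_blocks (L : Submodule ℂ (WithLp 2 (H × H))) (a b : H) :
    P11 L a + P12 L b = (PrL L (WithLp.toLp 2 (a, b))).fst ∧
      P21 L a + P22 L b = (PrL L (WithLp.toLp 2 (a, b))).snd := by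
  have h : inlW a + inrW b = WithLp.toLp 2 (a, b) := inlW_fst_add (WithLp.toLp 2 (a, b))
  constructor
  · rw [← h, map_add]
    rfl
  · rw [← h, map_add]
    rfl

theorem A6_right (he : IsGrading eps) (h : IsOddSymm eps Gr) (x : H) :
    P11 (GrPlus eps Gr) (eps x) = P11 (GrPlus eps Gr) x ∧
    P21 (GrPlus eps Gr) (eps x) = P21 (GrPlus eps Gr) x ∧
    P12 (GrPlus eps Gr) (eps x) = -P12 (GrPlus eps Gr) x ∧
    P22 (GrPlus eps Gr) (eps x) = -P22 (GrPlus eps Gr) x := by
  obtain ⟨h1, h2, h3, h4⟩ := blocks_right he (fun w hw => GrPlus_closure_graded h hw)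
  exact ⟨DFunLike.congr_fun h1 x, DFunLike.congr_fun h2 x, DFunLike.congr_fun h3 x,
    DFunLike.congr_fun h4 x⟩

theorem A6_Rop (x : H) : Rop eps Gr x = P11 (GrPlus eps Gr) x + (1 / 2 : ℂ) • (x - eps x) -
    P22 (GrPlus eps Gr) x := rfl

theorem A6_Bop (x : H) : Bop eps Gr x = P12 (GrPlus eps Gr) x + P21 (GrPlus eps Gr) x := rfl

theorem graph_plus (he : IsGrading eps) (h : IsOddSymm eps Gr) {a a' : H}
    (ha : (a, a') ∈ Gr) (hp : eps a = a) :
    Bop eps Gr a = Rop eps Gr a' ∧ a - Rop eps Gr a = Bop eps Gr a' := by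
  have hw : (WithLp.toLp 2 (a, a') : WithLp 2 (H × H)) ∈ GrPlus eps Gr := ⟨ha, hp⟩
  have hp' : eps a' = -a' := (GrPlus_graded h hw).2
  have hP : PrL (GrPlus eps Gr) (WithLp.toLp 2 (a, a')) = WithLp.toLp 2 (a, a') :=
    Submodule.starProjection_eq_self_iff.mpr ((GrPlus eps Gr).le_topologicalClosure hw)
  obtain ⟨e1, e2⟩ := A6_blocks (GrPlus eps Gr) a a'
  rw [hP] at e1 e2
  have e1' : P11 (GrPlus eps Gr) a + P12 (GrPlus eps Gr) a' = a := e1
  have e2' : P21 (GrPlus eps Gr) a + P22 (GrPlus eps Gr) a' = a' := e2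
  obtain ⟨_, _, f3, f4⟩ := A6_right he h a
  obtain ⟨g1, g2, _, _⟩ := A6_right he h a'
  rw [hp] at f3 f4
  rw [hp', map_neg] at g1 g2
  have z3 := A6_zero f3
  have z4 := A6_zero f4
  have y1 := A6_zero g1.symm
  have y2 := A6_zero g2.symm
  rw [A6_Bop, A6_Bop, A6_Rop, A6_Rop, hp, hp', z3, z4, y1, y2, sub_neg_eq_add, A6_half, sub_self,
    smul_zero]
  constructor
  · rw [zero_add, zero_add, eq_sub_iff_add_eq, e2']
  · rw [add_zero, add_zero, sub_zero, sub_eq_iff_eq_add, add_comm, e1']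

theorem graph_minus (he : IsGrading eps) (h : IsOddSymm eps Gr) {a a' : H}
    (ha : (a, a') ∈ Gr) (hp : eps a = -a) :
    Bop eps Gr a = Rop eps Gr a' ∧ a - Rop eps Gr a = Bop eps Gr a' := by
  have hp' : eps a' = a' := by
    have h1 := Gr.add_mem (h.odd _ ha) ha
    have h2 : ((0 : H), -(eps a') + a') ∈ Gr := by
      have e : ((0 : H), -(eps a') + a') = (eps (a, a').1, -(eps (a, a').2)) + (a, a') := by
        rw [Prod.mk_add_mk]
        simp [hp]
      rw [e]
      exact h1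
    have h3 := graph_unique h h2
    rw [neg_add_eq_zero] at h3
    exact h3
  have hP : PrL (GrPlus eps Gr) (WithLp.toLp 2 (-a', a)) = 0 := by
    unfold PrL
    rw [Submodule.starProjection_apply_eq_zero_iff, Submodule.orthogonal_closure,
      Submodule.mem_orthogonal]
    intro w hw
    have h1 := h.symm _ hw.1 _ ha
    have h2 : ⟪w, (WithLp.toLp 2 (-a', a) : WithLp 2 (H × H))⟫_ℂ =
        ⟪w.fst, -a'⟫_ℂ + ⟪w.snd, a⟫_ℂ := WithLp.prod_inner_apply _ _
    rw [h2, inner_neg_right]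
    have h3 : ⟪w.snd, a⟫_ℂ = ⟪w.fst, a'⟫_ℂ := h1
    rw [h3, neg_add_cancel]
  obtain ⟨e1, e2⟩ := A6_blocks (GrPlus eps Gr) (-a') a
  rw [hP, map_neg] at e1 e2
  have e1' : -P11 (GrPlus eps Gr) a' + P12 (GrPlus eps Gr) a = 0 := e1
  have e2' : -P21 (GrPlus eps Gr) a' + P22 (GrPlus eps Gr) a = 0 := e2
  rw [neg_add_eq_zero] at e1' e2'
  obtain ⟨f1, f2, _, _⟩ := A6_right he h a
  obtain ⟨_, _, g3, g4⟩ := A6_right he h a'
  rw [hp, map_neg] at f1 f2
  rw [hp'] at g3 g4
  have z1 := A6_zero f1.symm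
  have z2 := A6_zero f2.symm
  have y3 := A6_zero g3
  have y4 := A6_zero g4
  rw [A6_Bop, A6_Bop, A6_Rop, A6_Rop, hp, hp', z1, z2, y3, y4, sub_neg_eq_add, A6_half, sub_self,
    smul_zero, e1', e2']
  constructor
  · abel
  · abel

theorem graph_eq (he : IsGrading eps) (h : IsOddSymm eps Gr) {a a' : H}
    (ha : (a, a') ∈ Gr) :
    Bop eps Gr a = Rop eps Gr a' ∧ a - Rop eps Gr a = Bop eps Gr a' := by
  have hee : ∀ x, eps (eps x) = x := fun x => DFunLike.congr_fun he.sq x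
  have ho : (eps a, -(eps a')) ∈ Gr := h.odd _ ha
  have h1 : ((1 / 2 : ℂ) • (a + eps a), (1 / 2 : ℂ) • (a' - eps a')) ∈ Gr := by
    have := Gr.smul_mem (1 / 2 : ℂ) (Gr.add_mem ha ho)
    rwa [Prod.mk_add_mk, Prod.smul_mk, ← sub_eq_add_neg] at this
  have h2 : ((1 / 2 : ℂ) • (a - eps a), (1 / 2 : ℂ) • (a' + eps a')) ∈ Gr := by
    have := Gr.smul_mem (1 / 2 : ℂ) (Gr.sub_mem ha ho)
    rwa [Prod.mk_sub_mk, Prod.smul_mk, sub_neg_eq_add] at this
  obtain ⟨b1, b2⟩ := graph_plus he h h1 (by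
    rw [map_smul, map_add, hee, add_comm])
  obtain ⟨c1, c2⟩ := graph_minus he h h2 (by
    rw [map_smul, map_sub, hee, ← smul_neg, neg_sub])
  have ea : a = (1 / 2 : ℂ) • (a + eps a) + (1 / 2 : ℂ) • (a - eps a) := by
    rw [← smul_add, add_add_sub_cancel, A6_half]
  have ea' : a' = (1 / 2 : ℂ) • (a' - eps a') + (1 / 2 : ℂ) • (a' + eps a') := by
    rw [← smul_add, sub_add_add_cancel, A6_half]
  constructor
  · rw [ea, ea', map_add, map_add, b1, c1]
  · have e3 : a - Rop eps Gr a = ((1 / 2 : ℂ) • (a + eps a) - Rop eps Gr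
        ((1 / 2 : ℂ) • (a + eps a))) + ((1 / 2 : ℂ) • (a - eps a) - Rop eps Gr
        ((1 / 2 : ℂ) • (a - eps a))) := by
      rw [sub_add_sub_comm, ← map_add, ← ea]
    rw [e3, b2, c2, ← map_add, ← ea']

end

end Pool.Agent.Lib.MP_df705a_gt.RL
end

section

/-!
TASK A7. Consequences.

PROOF. `Rop_two`: by `graph_eq` for `(a, a')` and `(a', a'')`: `R a'' = B a'` and
`B a' = a - R a`, so `R (a + a'') = R a + a - R a = a`.
`Rop_inj`: let `R u = 0`. By `Bop_sq`, `‖B u‖² = ⟪B (B u), u⟫ = ⟪R u - R (R u), u⟫ = 0`. For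
`(a, a') ∈ Gr`: `⟪u, a⟫ = ⟪u, R a + B a'⟫ = ⟪R u, a⟫ + ⟪B u, a'⟫ = 0` (`graph_eq`, `R` and `B` are
self-adjoint), the first components are dense, so `u = 0`.
`mem_closure_of_plus`: for `eps u = u` we have `P (u, 0) = (P11 u, P21 u)`, it is in the closure,
and `P11 u = R u` (`P22 u = 0`, `Π₋ u = 0`), `P21 u = B u` (`P12 u = 0`), by A3.
-/

open scoped InnerProductSpace ENNReal NNReal
open Filter Topology Set

namespace Pool.Agent.Lib.MP_df705a_gt.RL

noncomputable section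

variable {H : Type*} [NormedAddCommGroup H] [InnerProductSpace ℂ H] [CompleteSpace H]

variable {eps : H →L[ℂ] H} {Gr : Submodule ℂ (H × H)}

theorem Rop_two (he : IsGrading eps) (h : IsOddSymm eps Gr) {a a' a'' : H}
    (ha : (a, a') ∈ Gr) (ha' : (a', a'') ∈ Gr) : Rop eps Gr (a + a'') = a := by
  have h1 := (graph_eq he h ha).2
  have h2 := (graph_eq he h ha').1
  rw [map_add, ← h2, ← h1]
  abel

theorem Rop_inj (he : IsGrading eps) (h : IsOddSymm eps Gr) {u : H}
    (hu : Rop eps Gr u = 0) : u = 0 := by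
  have hB : Bop eps Gr u = 0 := by
    have h1 : Bop eps Gr (Bop eps Gr u) = 0 := by
      have := congrArg (fun T : H →L[ℂ] H => T u) (Bop_sq he h)
      simpa [hu] using this
    have h2 : ⟪Bop eps Gr u, Bop eps Gr u⟫_ℂ = 0 := by
      have hs := (Bop_sa (eps := eps) (Gr := Gr)).isSymmetric (Bop eps Gr u) u
      simp only [ContinuousLinearMap.coe_coe] at hs
      rw [← hs, h1, inner_zero_left]
    exact inner_self_eq_zero.1 h2
  have key : ∀ a ∈ {a : H | ∃ a', (a, a') ∈ Gr}, ⟪u, a⟫_ℂ = 0 := by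
    rintro a ⟨a', ha⟩
    have h1 := (graph_eq he h ha).2
    have h2 : a = Rop eps Gr a + Bop eps Gr a' := by rw [← h1]; abel
    have h3 := (Rop_sa (Gr := Gr) he).isSymmetric u a
    have h4 := (Bop_sa (eps := eps) (Gr := Gr)).isSymmetric u a'
    simp only [ContinuousLinearMap.coe_coe] at h3 h4
    rw [h2, inner_add_right, ← h3, ← h4, hu, hB, inner_zero_left, inner_zero_left, add_zero]
  have hc : IsClosed {a : H | ⟪u, a⟫_ℂ = 0} :=
    isClosed_eq (continuous_const.inner continuous_id) continuous_const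
  have hall : ∀ a : H, ⟪u, a⟫_ℂ = 0 := fun a =>
    (hc.closure_subset_iff.2 key) (h.dense a)
  exact inner_self_eq_zero.1 (hall u)

theorem mem_closure_of_plus (he : IsGrading eps) (h : IsOddSymm eps Gr) {u : H}
    (hu : eps u = u) :
    WithLp.toLp 2 (Rop eps Gr u, Bop eps Gr u) ∈ (GrPlus eps Gr).topologicalClosure := by
  obtain ⟨_, _, h12, h22⟩ := blocks_right (L := GrPlus eps Gr) he
    (fun w hw => GrPlus_closure_graded h hw)
  have e12 : P12 (GrPlus eps Gr) u = 0 := by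
    have := congrArg (fun T : H →L[ℂ] H => T u) h12
    simp only [mul_apply_eq_comp, hu, ContinuousLinearMap.neg_apply] at this
    have h2 : (2 : ℂ) • P12 (GrPlus eps Gr) u = (0 : H) := by
      rw [two_smul]
      nth_rewrite 1 [this]
      exact neg_add_cancel _
    exact (smul_eq_zero.1 h2).resolve_left two_ne_zero
  have e22 : P22 (GrPlus eps Gr) u = 0 := by
    have := congrArg (fun T : H →L[ℂ] H => T u) h22
    simp only [mul_apply_eq_comp, hu, ContinuousLinearMap.neg_apply] at this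
    have h2 : (2 : ℂ) • P22 (GrPlus eps Gr) u = (0 : H) := by
      rw [two_smul]
      nth_rewrite 1 [this]
      exact neg_add_cancel _
    exact (smul_eq_zero.1 h2).resolve_left two_ne_zero
  have eR : Rop eps Gr u = P11 (GrPlus eps Gr) u := by
    simp [Rop, Pim, e22, hu]
  have eB : Bop eps Gr u = P21 (GrPlus eps Gr) u := by
    simp [Bop, e12]
  have e : WithLp.toLp 2 (Rop eps Gr u, Bop eps Gr u) =
      PrL (GrPlus eps Gr) (inlW u) := by
    rw [eR, eB]
    rfl
  rw [e]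
  exact Submodule.starProjection_apply_mem _ _

end

end Pool.Agent.Lib.MP_df705a_gt.RL
end
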