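import Mathlib
import Pool.Agent.Lib.MP_df705a_gt.Mg.G030
import Pool.Agent.Lib.MP_df705a_gt.Mg.G038
import Pool.Agent.Lib.MP_df705a_gt.Mg.G040

section

/-!
# Random line bundles, file C1: Clifford systems, monomials

`IsCliff c` : `c a * c a = -1`, `c a * c b = - c b * c a` for `a ≠ b`.
`mon c l = (l.map c).prod`.
-/

namespace Pool.Agent.Lib.MP_df705a_gt.RL

variable {N : ℕ} {A : Type*} [Ring A]

/-- Clifford relations. -/
structure IsCliff (c : Fin N → A) : Prop where
  sq : ∀ a, c a * c a = -1
  anti : ∀ a b, a ≠ b → c a * c b = -(c b * c a)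

/-- The monomial of a list of indices. -/
def mon (c : Fin N → A) (l : List (Fin N)) : A := (l.map c).prod

@[simp] theorem mon_nil (c : Fin N → A) : mon c [] = 1 := by simp [mon]
@[simp] theorem mon_cons (c : Fin N → A) (a : Fin N) (l : List (Fin N)) :
    mon c (a :: l) = c a * mon c l := by simp [mon]
@[simp] theorem mon_append (c : Fin N → A) (l l' : List (Fin N)) :
    mon c (l ++ l') = mon c l * mon c l' := by simp [mon]

variable {c : Fin N → A} (h : IsCliff c)
include h

theorem IsCliff.comm_rule (a : Fin N) (l : List (Fin N)) :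
    c a * mon c l = (-1) ^ (l.length + l.count a) * (mon c l * c a) := by
  induction l with
  | nil => simp
  | cons b l ih =>
    rw [mon_cons]
    by_cases hab : a = b
    · subst hab
      rw [ih, List.length_cons, List.count_cons_self]
      have e : ((-1 : A)) ^ (l.length + 1 + (l.count a + 1)) = (-1) ^ (l.length + l.count a) := by
        rw [show l.length + 1 + (l.count a + 1) = (l.length + l.count a) + 2 by ring, pow_add]
        simp
      rw [e]
      have hc : c a * (-1) ^ (l.length + l.count a) = (-1) ^ (l.length + l.count a) * c a :=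
        ((Commute.neg_one_right (c a)).pow_right _)
      rw [← mul_assoc, hc, ← ih]; simp only [mul_assoc]
    · have hl : (b :: l).count a = l.count a := by
        rw [List.count_cons_of_ne]; exact fun h => hab h.symm
      rw [← mul_assoc, h.anti a b hab, neg_mul, mul_assoc, ih, List.length_cons, hl]
      have hc : c b * (-1) ^ (l.length + l.count a) = (-1) ^ (l.length + l.count a) * c b :=
        ((Commute.neg_one_right (c b)).pow_right _)
      rw [← mul_assoc, hc, show l.length + 1 + l.count a = (l.length + l.count a) + 1 by ring,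
        pow_succ]
      simp only [mul_assoc, neg_mul, mul_neg, one_mul]

theorem IsCliff.mon_eq_one_or_of_even (n : ℕ) : ∀ l : List (Fin N), l.length = n →
    (∀ a, Even (l.count a)) → mon c l = 1 ∨ mon c l = -1 := by
  induction n using Nat.strong_induction_on with
  | _ n ih =>
    intro l hn hl
    cases l with
    | nil => left; simp
    | cons a l =>
      have ha : a ∈ l := by
        have h1 := hl a
        rw [List.count_cons_self] at h1
        by_contra hna
        rw [List.count_eq_zero_of_not_mem hna] at h1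
        simp at h1
      obtain ⟨l₁, l₂, rfl⟩ := List.append_of_mem ha
      have h2 : mon c (l₁ ++ l₂) = 1 ∨ mon c (l₁ ++ l₂) = -1 := by
        refine ih (l₁ ++ l₂).length (by simp at hn ⊢; omega) _ rfl fun b => ?_
        have := hl b
        by_cases hab : b = a
        · subst hab
          simp only [List.count_cons_self, List.count_append] at this ⊢
          rw [show List.count b l₁ + (List.count b l₂ + 1) + 1
            = (List.count b l₁ + List.count b l₂) + 2 by ring] at this
          rwa [Nat.even_add, iff_true_right (by decide)] at this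
        · have hab' : a ≠ b := fun h => hab h.symm
          simpa [List.count_cons, hab'] using this
      have h3 : mon c (a :: (l₁ ++ a :: l₂)) = (-1) ^ (l₁.length + l₁.count a) *
          (-(mon c (l₁ ++ l₂))) := by
        simp only [mon_cons, mon_append]
        rw [← mul_assoc, h.comm_rule a l₁]
        rw [show (-1 : A) ^ (l₁.length + l₁.count a) * (mon c l₁ * c a) * (c a * mon c l₂)
          = (-1) ^ (l₁.length + l₁.count a) * (mon c l₁ * (c a * c a) * mon c l₂) by
            simp only [mul_assoc]]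
        rw [h.sq]; simp
      rw [h3]
      rcases neg_one_pow_eq_or A (l₁.length + l₁.count a) with h4 | h4 <;>
        rcases h2 with h5 | h5 <;> rw [h4, h5] <;> simp

theorem IsCliff.isUnit_mon (l : List (Fin N)) : IsUnit (mon c l) := by
  induction l with
  | nil => simp
  | cons a l ih =>
    rw [mon_cons]
    refine IsUnit.mul ?_ ih
    exact ⟨⟨c a, -c a, by simp [h.sq], by simp [h.sq]⟩, rfl⟩

/-- a monomial that commutes with all generators is `± 1` (even dimension) -/
theorem IsCliff.central_mon [Nontrivial A] [Algebra ℚ A] (hN : Even N) (l : List (Fin N))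
    (hl : ∀ a, Commute (c a) (mon c l)) : mon c l = 1 ∨ mon c l = -1 := by
  have h1 : ∀ a, Even (l.length + l.count a) := by
    intro a
    by_contra hodd
    rw [Nat.not_even_iff_odd] at hodd
    have h2 := h.comm_rule a l
    rw [hodd.neg_one_pow, (hl a).eq, neg_one_mul] at h2
    have h3 : mon c l * c a = 0 := by
      have h4 : (2 : ℚ) • (mon c l * c a) = 0 := by
        rw [two_smul]
        nth_rewrite 1 [h2]
        simp
      simpa using h4
    have h5 : IsUnit (mon c l * c a) :=
      (h.isUnit_mon l).mul (by simpa using h.isUnit_mon [a])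
    exact h5.ne_zero h3
  have h2 : Even l.length := by
    have h3 : l.length = ∑ a : Fin N, l.count a := by
      rw [← Multiset.coe_card, ← Multiset.toFinset_sum_count_eq]
      refine (Finset.sum_subset (Finset.subset_univ _) ?_).trans ?_
      · intro x _ hx
        rw [Multiset.count_eq_zero]
        simpa using hx
      · simp
    have h4 : Even (∑ a : Fin N, (l.length + l.count a)) := Finset.even_sum _ fun a _ => h1 a
    rw [Finset.sum_add_distrib, ← h3, Finset.sum_const, Finset.card_univ, Fintype.card_fin,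
      smul_eq_mul] at h4
    rw [Nat.even_add] at h4
    exact h4.mp (hN.mul_right _)
  refine h.mon_eq_one_or_of_even _ l rfl fun a => ?_
  have := h1 a
  rw [Nat.even_add] at this
  exact this.mp h2

end Pool.Agent.Lib.MP_df705a_gt.RL
end

section

/-!
# Random line bundles, file C2: the algebra generated by a Clifford system, its centre,
the intertwiner of two Clifford systems
-/

set_option linter.unusedSectionVars false

namespace Pool.Agent.Lib.MP_df705a_gt.RL

variable {N : ℕ} {A : Type*} [Ring A]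

/-- The `𝕜`-span of all monomials. -/
def ClAlg (𝕜 : Type*) [Field 𝕜] [Algebra 𝕜 A] (c : Fin N → A) : Submodule 𝕜 A :=
  Submodule.span 𝕜 (Set.range (mon c))

theorem mon_mem (𝕜 : Type*) [Field 𝕜] [Algebra 𝕜 A] (c : Fin N → A) (l : List (Fin N)) :
    mon c l ∈ ClAlg 𝕜 c := Submodule.subset_span ⟨l, rfl⟩

theorem one_mem_ClAlg (𝕜 : Type*) [Field 𝕜] [Algebra 𝕜 A] (c : Fin N → A) :
    (1 : A) ∈ ClAlg 𝕜 c := by simpa using mon_mem 𝕜 c []

theorem c_mem_ClAlg (𝕜 : Type*) [Field 𝕜] [Algebra 𝕜 A] (c : Fin N → A) (a : Fin N) :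
    c a ∈ ClAlg 𝕜 c := by simpa using mon_mem 𝕜 c [a]

theorem mul_mem_ClAlg {𝕜 : Type*} [Field 𝕜] [Algebra 𝕜 A] {c : Fin N → A} {x y : A}
    (hx : x ∈ ClAlg 𝕜 c) (hy : y ∈ ClAlg 𝕜 c) : x * y ∈ ClAlg 𝕜 c := by
  unfold ClAlg at *
  induction hx using Submodule.span_induction with
  | mem x hx =>
    obtain ⟨l, rfl⟩ := hx
    induction hy using Submodule.span_induction with
    | mem y hy =>
      obtain ⟨l', rfl⟩ := hy
      rw [← mon_append]; exact mon_mem 𝕜 c _
    | zero => simp
    | add y z _ _ h1 h2 => rw [mul_add]; exact Submodule.add_mem _ h1 h2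
    | smul r y _ h1 => rw [mul_smul_comm]; exact Submodule.smul_mem _ _ h1
  | zero => simp
  | add x z _ _ h1 h2 => rw [add_mul]; exact Submodule.add_mem _ h1 h2
  | smul r x _ h1 => rw [smul_mul_assoc]; exact Submodule.smul_mem _ _ h1

/-- `½ (y - c' y c)`, the projection onto `{y | c' y = y c}`. -/
def half (𝕜 : Type*) [Field 𝕜] [Algebra 𝕜 A] (x' x : A) (y : A) : A :=
  (2⁻¹ : 𝕜) • (y - x' * y * x)

/-- apply all the projections of a list -/
def avg (𝕜 : Type*) [Field 𝕜] [Algebra 𝕜 A] (c' c : Fin N → A) (l : List (Fin N)) (y : A) : A :=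
  l.foldr (fun a z => half 𝕜 (c' a) (c a) z) y

variable {𝕜 : Type*} [Field 𝕜] [CharZero 𝕜] [Algebra 𝕜 A]

theorem half_intertwine {x' x y : A} (hx' : x' * x' = -1) (hx : x * x = -1) :
    x' * half 𝕜 x' x y = half 𝕜 x' x y * x := by
  unfold half
  rw [mul_smul_comm, smul_mul_assoc]
  congr 1
  have h1 : x' * (x' * y * x) = -(y * x) := by
    rw [← mul_assoc, ← mul_assoc, hx']; simp
  have h2 : x' * y * x * x = -(x' * y) := by
    rw [mul_assoc, hx]; simp
  rw [mul_sub, sub_mul, h1, h2]; abel

theorem half_eq_self {x' x y : A} (hx : x * x = -1) (h : x' * y = y * x) :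
    half 𝕜 x' x y = y := by
  unfold half
  rw [h, mul_assoc, hx, mul_neg_one, sub_neg_eq_add, ← two_smul 𝕜 y, smul_smul,
    inv_mul_cancel₀ two_ne_zero, one_smul]

/-- the projections respect the other intertwining relations -/
theorem half_other {x' x z' z y : A} (h' : x' * z' = -(z' * x')) (h : x * z = -(z * x))
    (hy : x' * y = y * x) : x' * half 𝕜 z' z y = half 𝕜 z' z y * x := by
  unfold half
  rw [mul_smul_comm, smul_mul_assoc]
  congr 1
  have h1 : x' * (z' * y * z) = z' * y * z * x := by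
    calc x' * (z' * y * z) = x' * z' * (y * z) := by simp only [mul_assoc]
      _ = -(z' * (x' * y) * z) := by rw [h']; simp only [neg_mul, mul_assoc]
      _ = -(z' * y * (x * z)) := by rw [hy]; simp only [mul_assoc]
      _ = z' * y * z * x := by rw [h]; simp only [mul_neg, neg_neg, mul_assoc]
  rw [mul_sub, sub_mul, h1, hy]

theorem avg_intertwine {c' c : Fin N → A} (h' : IsCliff c') (h : IsCliff c) (l : List (Fin N))
    (y : A) : ∀ a ∈ l, c' a * avg 𝕜 c' c l y = avg 𝕜 c' c l y * c a := by
  induction l with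
  | nil => simp
  | cons b l ih =>
    intro a ha
    simp only [avg, List.foldr_cons] at ih ⊢
    by_cases hab : a = b
    · subst hab
      exact half_intertwine (h'.sq a) (h.sq a)
    · have ha' : a ∈ l := by
        rcases List.mem_cons.mp ha with h1 | h1
        · exact absurd h1 hab
        · exact h1
      exact half_other (h'.anti a b hab) (h.anti a b hab) (ih a ha')

theorem avg_eq_self {c' c : Fin N → A} (h : IsCliff c) (l : List (Fin N)) {y : A}
    (hy : ∀ a, c' a * y = y * c a) : avg 𝕜 c' c l y = y := by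
  induction l with
  | nil => rfl
  | cons b l ih =>
    simp only [avg, List.foldr_cons] at ih ⊢
    rw [ih]; exact half_eq_self (h.sq b) (hy b)

theorem avg_add (c' c : Fin N → A) (l : List (Fin N)) (y z : A) :
    avg 𝕜 c' c l (y + z) = avg 𝕜 c' c l y + avg 𝕜 c' c l z := by
  induction l with
  | nil => rfl
  | cons b l ih =>
    simp only [avg, List.foldr_cons] at ih ⊢
    rw [ih]; unfold half; rw [← smul_add]; congr 1; noncomm_ring

theorem avg_smul (c' c : Fin N → A) (l : List (Fin N)) (r : 𝕜) (y : A) :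
    avg 𝕜 c' c l (r • y) = r • avg 𝕜 c' c l y := by
  induction l with
  | nil => rfl
  | cons b l ih =>
    simp only [avg, List.foldr_cons] at ih ⊢
    rw [ih]; unfold half
    rw [mul_smul_comm, smul_mul_assoc, ← smul_sub, smul_comm]

theorem avg_zero (c' c : Fin N → A) (l : List (Fin N)) : avg 𝕜 c' c l 0 = 0 := by
  induction l with
  | nil => rfl
  | cons b l ih =>
    simp only [avg, List.foldr_cons] at ih ⊢
    rw [ih]; unfold half; simp

/-- `half` on a monomial: `0` or the monomial. -/
theorem half_mon {c : Fin N → A} (h : IsCliff c) (a : Fin N) (l : List (Fin N)) :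
    half 𝕜 (c a) (c a) (mon c l) = 0 ∨
      (half 𝕜 (c a) (c a) (mon c l) = mon c l ∧ Commute (c a) (mon c l)) := by
  rcases neg_one_pow_eq_or A (l.length + l.count a) with h1 | h1
  · right
    have h2 : c a * mon c l = mon c l * c a := by rw [h.comm_rule, h1, one_mul]
    exact ⟨half_eq_self (h.sq a) h2, h2⟩
  · left
    have h2 : c a * mon c l = -(mon c l * c a) := by rw [h.comm_rule, h1, neg_one_mul]
    unfold half
    rw [h2, neg_mul, mul_assoc, h.sq]; simp

theorem avg_mon {c : Fin N → A} (h : IsCliff c) (l' : List (Fin N)) (l : List (Fin N)) :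
    avg 𝕜 c c l' (mon c l) = 0 ∨
      (avg 𝕜 c c l' (mon c l) = mon c l ∧ ∀ a ∈ l', Commute (c a) (mon c l)) := by
  induction l' with
  | nil => right; simp [avg]
  | cons b l' ih =>
    simp only [avg, List.foldr_cons] at ih ⊢
    rcases ih with h1 | ⟨h1, h2⟩
    · left; rw [h1]; simp [half]
    · rw [h1]
      rcases half_mon (𝕜 := 𝕜) h b l with h3 | ⟨h3, h4⟩
      · left; exact h3
      · right
        refine ⟨h3, fun a ha => ?_⟩
        rcases List.mem_cons.mp ha with rfl | ha
        · exact h4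
        · exact h2 a ha

/-- The centre of the even dimensional Clifford algebra. -/
theorem scalar_of_commute [Nontrivial A] [Algebra ℚ A] {c : Fin N → A} (h : IsCliff c)
    (hN : Even N) {x : A} (hx : x ∈ ClAlg 𝕜 c) (hc : ∀ a, Commute (c a) x) :
    ∃ r : 𝕜, x = r • 1 := by
  have h1 : ∀ x ∈ ClAlg 𝕜 c, ∃ r : 𝕜, avg 𝕜 c c (List.finRange N) x = r • 1 := by
    intro x hx
    unfold ClAlg at hx
    induction hx using Submodule.span_induction with
    | mem x hx =>
      obtain ⟨l, rfl⟩ := hx
      rcases avg_mon (𝕜 := 𝕜) h (List.finRange N) l with h2 | ⟨h2, h3⟩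
      · exact ⟨0, by rw [h2]; simp⟩
      · rcases h.central_mon hN l (fun a => h3 a (List.mem_finRange a)) with h4 | h4
        · exact ⟨1, by rw [h2, h4]; simp⟩
        · exact ⟨-1, by rw [h2, h4]; simp⟩
    | zero => exact ⟨0, by rw [avg_zero]; simp⟩
    | add x z _ _ h1 h2 =>
      obtain ⟨r, hr⟩ := h1
      obtain ⟨s, hs⟩ := h2
      exact ⟨r + s, by rw [avg_add, hr, hs, add_smul]⟩
    | smul t x _ h1 =>
      obtain ⟨r, hr⟩ := h1
      exact ⟨t * r, by rw [avg_smul, hr, smul_smul]⟩
  obtain ⟨r, hr⟩ := h1 x hx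
  exact ⟨r, by rw [← hr, avg_eq_self h _ hc]⟩

theorem half_mem {c' c : Fin N → A} (hc' : ∀ a, c' a ∈ ClAlg 𝕜 c) {y : A} (hy : y ∈ ClAlg 𝕜 c)
    (a : Fin N) : half 𝕜 (c' a) (c a) y ∈ ClAlg 𝕜 c :=
  Submodule.smul_mem _ _ (Submodule.sub_mem _ hy
    (mul_mem_ClAlg (mul_mem_ClAlg (hc' a) hy) (c_mem_ClAlg 𝕜 c a)))

theorem avg_mem {c' c : Fin N → A} (hc' : ∀ a, c' a ∈ ClAlg 𝕜 c) (l : List (Fin N)) {y : A}
    (hy : y ∈ ClAlg 𝕜 c) : avg 𝕜 c' c l y ∈ ClAlg 𝕜 c := by
  induction l with
  | nil => exact hy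
  | cons b l ih =>
    simp only [avg, List.foldr_cons] at ih ⊢
    exact half_mem hc' ih b

end Pool.Agent.Lib.MP_df705a_gt.RL
end

section

/-!
# RL2, file A4: Clifford systems in an abstract ring: filtration, adjoints, traces, chirality
-/

set_option linter.unusedSectionVars false

namespace Pool.Agent.Lib.MP_df705a_gt.RL

noncomputable section

variable {N : ℕ} {A : Type*} [Ring A] [Algebra ℂ A]

/-! ## products -/

/-- the filtration (abstract version of `Cliff.Cl`) -/
def FCl (c : Fin N → A) (d : ℕ) : Submodule ℂ A :=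
  Submodule.span ℂ {x | ∃ l : List (Fin N), l.length ≤ d ∧ x = (l.map c).prod}

/-- abstract version of `Cliff.two` -/
def twoA (c : Fin N → A) (Ω : Mt N) : A := ∑ a, ∑ b, (Ω a b : ℂ) • (c a * c b)

/-- abstract version of `Cliff.spin` -/
def spinA (c : Fin N → A) (M : Mt N) : A := (-(1 / 4) : ℂ) • ∑ a, ∑ b, (M a b : ℂ) • (c a * c b)

theorem spinA_eq (c : Fin N → A) (M : Mt N) : spinA c M = (-(1 / 4) : ℂ) • twoA c M := rfl

theorem mon_mem_FCl (c : Fin N → A) {l : List (Fin N)} {d : ℕ} (h : l.length ≤ d) :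
    mon c l ∈ FCl c d := Submodule.subset_span ⟨l, h, rfl⟩

theorem one_mem_FCl (c : Fin N → A) (d : ℕ) : (1 : A) ∈ FCl c d := by
  simpa using mon_mem_FCl c (l := []) (d := d) (by simp)

theorem c_mem_FCl (c : Fin N → A) (a : Fin N) {d : ℕ} (h : 1 ≤ d) : c a ∈ FCl c d := by
  simpa using mon_mem_FCl c (l := [a]) (d := d) (by simpa using h)

theorem FCl_mono (c : Fin N → A) {d e : ℕ} (h : d ≤ e) : FCl c d ≤ FCl c e :=
  Submodule.span_mono fun _ ⟨l, hl, hA⟩ => ⟨l, hl.trans h, hA⟩

theorem mul_mem_FCl {c : Fin N → A} {d e : ℕ} {x y : A} (hx : x ∈ FCl c d) (hy : y ∈ FCl c e) :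
    x * y ∈ FCl c (d + e) := by
  unfold FCl at hx
  induction hx using Submodule.span_induction with
  | mem x hx =>
    obtain ⟨l, hl, rfl⟩ := hx
    unfold FCl at hy
    induction hy using Submodule.span_induction with
    | mem y hy =>
      obtain ⟨l', hl', rfl⟩ := hy
      change mon c l * mon c l' ∈ _
      rw [← mon_append]
      exact mon_mem_FCl c (by simpa using Nat.add_le_add hl hl')
    | zero => rw [mul_zero]; exact Submodule.zero_mem _
    | add y z _ _ h1 h2 => rw [mul_add]; exact Submodule.add_mem _ h1 h2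
    | smul r y _ h1 => rw [mul_smul_comm]; exact Submodule.smul_mem _ _ h1
  | zero => rw [zero_mul]; exact Submodule.zero_mem _
  | add x z _ _ h1 h2 => rw [add_mul]; exact Submodule.add_mem _ h1 h2
  | smul r x _ h1 => rw [smul_mul_assoc]; exact Submodule.smul_mem _ _ h1

theorem twoA_mem_FCl (c : Fin N → A) (Ω : Mt N) : twoA c Ω ∈ FCl c 2 :=
  Submodule.sum_mem _ fun a _ => Submodule.sum_mem _ fun b _ => Submodule.smul_mem _ _
    (mul_mem_FCl (d := 1) (e := 1) (c_mem_FCl c a le_rfl) (c_mem_FCl c b le_rfl))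

/-! ## the commutator relations of `spinA` -/

theorem ccc {c : Fin N → A} (h : IsCliff c) (a b : Fin N) :
    c a * c b = -(c b * c a) + (if a = b then (-2 : ℂ) else 0) • (1 : A) := by
  split_ifs with hab
  · subst hab
    rw [h.sq, neg_smul, two_smul]; abel
  · rw [h.anti a b hab, zero_smul, add_zero]

theorem comm_cc {c : Fin N → A} (h : IsCliff c) (p q b : Fin N) :
    c p * c q * c b - c b * (c p * c q)
      = (if p = b then (2 : ℂ) else 0) • c q - (if q = b then (2 : ℂ) else 0) • c p := by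
  have h1 : c p * c q * c b = c p * -(c b * c q) + (if q = b then (-2 : ℂ) else 0) • c p := by
    rw [mul_assoc, ccc h q b, mul_add, mul_smul_comm, mul_one]
  have h2 : c b * (c p * c q) = -(c p * c b * c q) + (if b = p then (-2 : ℂ) else 0) • c q := by
    rw [← mul_assoc, ccc h b p, add_mul, smul_mul_assoc, one_mul, neg_mul]
  rw [h1, h2]
  by_cases hp : p = b <;> by_cases hq : q = b
  · rw [if_pos hq, if_pos hp.symm, if_pos hp, if_pos hq]
    simp only [mul_neg, neg_smul, mul_assoc]; abel
  · rw [if_neg hq, if_pos hp.symm, if_pos hp, if_neg hq]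
    simp only [mul_neg, neg_smul, zero_smul, mul_assoc]; abel
  · rw [if_pos hq, if_neg (fun h => hp h.symm), if_neg hp, if_pos hq]
    simp only [mul_neg, neg_smul, zero_smul, mul_assoc]; abel
  · rw [if_neg hq, if_neg (fun h => hp h.symm), if_neg hp, if_neg hq]
    simp only [mul_neg, zero_smul, mul_assoc]; abel

theorem spinA_comm_c {c : Fin N → A} (h : IsCliff c) {M : Mt N} (hM : ∀ a b, M b a = -M a b)
    (b : Fin N) : spinA c M * c b - c b * spinA c M = ∑ a, (M a b : ℂ) • c a := by
  have h1 : spinA c M * c b - c b * spinA c M = (-(1 / 4) : ℂ) •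
      ∑ p, ∑ q, (M p q : ℂ) • (c p * c q * c b - c b * (c p * c q)) := by
    unfold spinA
    rw [smul_mul_assoc, mul_smul_comm, ← smul_sub, Finset.sum_mul, Finset.mul_sum,
      ← Finset.sum_sub_distrib]
    congr 1
    refine Finset.sum_congr rfl fun p _ => ?_
    rw [Finset.sum_mul, Finset.mul_sum, ← Finset.sum_sub_distrib]
    refine Finset.sum_congr rfl fun q _ => ?_
    rw [smul_mul_assoc, mul_smul_comm, ← smul_sub]
  rw [h1]
  simp only [comm_cc h, smul_sub, ite_smul, zero_smul, smul_ite, smul_zero,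
    Finset.sum_sub_distrib]
  have h2 : (∑ p, ∑ q, if p = b then (M p q : ℂ) • (2 : ℂ) • c q else 0)
      = ∑ q, (M b q : ℂ) • (2 : ℂ) • c q := by
    rw [Finset.sum_comm]
    refine Finset.sum_congr rfl fun q _ => ?_
    rw [Finset.sum_ite_eq']; simp
  have h3 : (∑ p, ∑ q, if q = b then (M p q : ℂ) • (2 : ℂ) • c p else 0)
      = ∑ p, (M p b : ℂ) • (2 : ℂ) • c p := by
    refine Finset.sum_congr rfl fun q _ => ?_
    rw [Finset.sum_ite_eq']; simp
  rw [h2, h3, ← smul_sub, ← Finset.sum_sub_distrib, Finset.smul_sum]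
  refine Finset.sum_congr rfl fun a _ => ?_
  rw [hM a b, smul_smul, smul_smul, ← sub_smul, smul_smul]
  congr 1
  push_cast; ring

theorem twoA_add (c : Fin N → A) (M K : Mt N) : twoA c (M + K) = twoA c M + twoA c K := by
  unfold twoA
  simp only [Matrix.add_apply, Complex.ofReal_add, add_smul, Finset.sum_add_distrib]

theorem twoA_neg (c : Fin N → A) (M : Mt N) : twoA c (-M) = -twoA c M := by
  unfold twoA
  simp only [Matrix.neg_apply, Complex.ofReal_neg, neg_smul, Finset.sum_neg_distrib]

theorem twoA_sub (c : Fin N → A) (M K : Mt N) : twoA c (M - K) = twoA c M - twoA c K := by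
  rw [sub_eq_add_neg, twoA_add, twoA_neg, sub_eq_add_neg]

theorem twoA_smul (c : Fin N → A) (r : ℝ) (M : Mt N) : twoA c (r • M) = (r : ℂ) • twoA c M := by
  unfold twoA
  simp only [Matrix.smul_apply, smul_eq_mul, Complex.ofReal_mul, mul_smul, Finset.smul_sum]

theorem spinA_add (c : Fin N → A) (M K : Mt N) : spinA c (M + K) = spinA c M + spinA c K := by
  simp only [spinA_eq, twoA_add, smul_add]

theorem spinA_neg (c : Fin N → A) (M : Mt N) : spinA c (-M) = -spinA c M := by
  simp only [spinA_eq, twoA_neg, smul_neg]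

theorem spinA_sub (c : Fin N → A) (M K : Mt N) : spinA c (M - K) = spinA c M - spinA c K := by
  simp only [spinA_eq, twoA_sub, smul_sub]

theorem spinA_smul (c : Fin N → A) (r : ℝ) (M : Mt N) : spinA c (r • M) = (r : ℂ) • spinA c M := by
  rw [spinA_eq, twoA_smul, spinA_eq, smul_comm]

theorem twoA_zero (c : Fin N → A) : twoA c 0 = 0 := by unfold twoA; simp

theorem spinA_zero (c : Fin N → A) : spinA c 0 = 0 := by rw [spinA_eq, twoA_zero, smul_zero]

/-- `[spin M, two K] = two (M K - K M)` -/
theorem spinA_comm_twoA {c : Fin N → A} (h : IsCliff c) {M : Mt N} (hM : ∀ a b, M b a = -M a b)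
    (K : Mt N) : spinA c M * twoA c K - twoA c K * spinA c M = twoA c (M * K - K * M) := by
  have h1 : ∀ p q, spinA c M * (c p * c q) - c p * c q * spinA c M
      = (∑ a, (M a p : ℂ) • c a) * c q + c p * ∑ a, (M a q : ℂ) • c a := by
    intro p q
    rw [← spinA_comm_c h hM p, ← spinA_comm_c h hM q]
    noncomm_ring
  have h2 : spinA c M * twoA c K - twoA c K * spinA c M
      = ∑ p, ∑ q, (K p q : ℂ) • ((∑ a, (M a p : ℂ) • c a) * c q
        + c p * ∑ a, (M a q : ℂ) • c a) := by
    unfold twoA
    rw [Finset.sum_mul, Finset.mul_sum, ← Finset.sum_sub_distrib]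
    refine Finset.sum_congr rfl fun p _ => ?_
    rw [Finset.sum_mul, Finset.mul_sum, ← Finset.sum_sub_distrib]
    refine Finset.sum_congr rfl fun q _ => ?_
    rw [smul_mul_assoc, mul_smul_comm, ← smul_sub, h1]
  rw [h2, twoA_sub]
  have h3 : twoA c (M * K) = ∑ p, ∑ q, (K p q : ℂ) • ((∑ a, (M a p : ℂ) • c a) * c q) := by
    unfold twoA
    have : ∀ a q, ((M * K) a q : ℂ) • (c a * c q) = ∑ p, (K p q : ℂ) • ((M a p : ℂ) • (c a * c q)) := by
      intro a q
      rw [Matrix.mul_apply]
      push_cast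
      rw [Finset.sum_smul]
      refine Finset.sum_congr rfl fun p _ => ?_
      rw [smul_smul, mul_comm]
    simp only [this, Finset.sum_mul, Finset.smul_sum, smul_mul_assoc]
    rw [Finset.sum_comm]
    rw [Finset.sum_congr rfl fun q _ => Finset.sum_comm]
    rw [Finset.sum_comm]
  have h4 : -twoA c (K * M) = ∑ p, ∑ q, (K p q : ℂ) • (c p * ∑ a, (M a q : ℂ) • c a) := by
    rw [← twoA_neg]
    unfold twoA
    have : ∀ p a, ((-(K * M)) p a : ℂ) • (c p * c a)
        = ∑ q, (K p q : ℂ) • ((M a q : ℂ) • (c p * c a)) := by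
      intro p a
      rw [Matrix.neg_apply, Matrix.mul_apply]
      push_cast
      rw [← Finset.sum_neg_distrib, Finset.sum_smul]
      refine Finset.sum_congr rfl fun q _ => ?_
      rw [smul_smul, hM a q]; push_cast; simp only [neg_smul, mul_neg, neg_neg]
    simp only [this, Finset.mul_sum, Finset.smul_sum, mul_smul_comm]
    refine Finset.sum_congr rfl fun p _ => ?_
    rw [Finset.sum_comm]
  rw [sub_eq_add_neg, h3, h4, ← Finset.sum_add_distrib]
  refine Finset.sum_congr rfl fun p _ => ?_
  rw [← Finset.sum_add_distrib]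
  refine Finset.sum_congr rfl fun q _ => ?_
  rw [smul_add]

/-- `[spin M, spin K] = spin (M K - K M)` -/
theorem spinA_comm_spinA {c : Fin N → A} (h : IsCliff c) {M : Mt N} (hM : ∀ a b, M b a = -M a b)
    (K : Mt N) : spinA c M * spinA c K - spinA c K * spinA c M = spinA c (M * K - K * M) := by
  rw [spinA_eq c K, spinA_eq c (M * K - K * M), ← spinA_comm_twoA h hM, mul_smul_comm,
    smul_mul_assoc, smul_sub]

/-! ## star -/

section star

variable [StarRing A] [StarModule ℂ A]

theorem star_mon {c : Fin N → A} (hs : ∀ a, star (c a) = -c a) (l : List (Fin N)) :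
    star (mon c l) = (-1) ^ l.length * mon c l.reverse := by
  induction l with
  | nil => simp
  | cons a l ih =>
    rw [mon_cons, star_mul, ih, hs, List.reverse_cons, mon_append, List.length_cons, pow_succ]
    simp [mul_assoc]

theorem star_mon_mul {c : Fin N → A} (h : IsCliff c) (hs : ∀ a, star (c a) = -c a)
    (l : List (Fin N)) : star (mon c l) * mon c l = 1 := by
  induction l with
  | nil => simp
  | cons a l ih =>
    rw [mon_cons, star_mul, hs]
    calc star (mon c l) * -c a * (c a * mon c l)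
        = -(star (mon c l) * (c a * c a) * mon c l) := by noncomm_ring
      _ = 1 := by rw [h.sq]; simp [ih]

theorem mon_mul_star {c : Fin N → A} (h : IsCliff c) (hs : ∀ a, star (c a) = -c a)
    (l : List (Fin N)) : mon c l * star (mon c l) = 1 := by
  induction l with
  | nil => simp
  | cons a l ih =>
    rw [mon_cons, star_mul, hs]
    calc c a * mon c l * (star (mon c l) * -c a)
        = -(c a * (mon c l * star (mon c l)) * c a) := by noncomm_ring
      _ = 1 := by rw [ih, mul_one, h.sq]; simp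

theorem star_mem_FCl {c : Fin N → A} (hs : ∀ a, star (c a) = -c a) {d : ℕ} {x : A}
    (hx : x ∈ FCl c d) : star x ∈ FCl c d := by
  unfold FCl at hx
  induction hx using Submodule.span_induction with
  | mem x hx =>
    obtain ⟨l, hl, rfl⟩ := hx
    change star (mon c l) ∈ _
    rw [star_mon hs]
    have h2 : mon c l.reverse ∈ FCl c d := mon_mem_FCl c (by simpa using hl)
    rcases neg_one_pow_eq_or A l.length with h | h <;> rw [h]
    · rwa [one_mul]
    · rw [neg_one_mul]; exact (FCl c d).neg_mem h2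
  | zero => rw [star_zero]; exact (FCl c d).zero_mem
  | add x y _ _ h1 h2 => rw [star_add]; exact (FCl c d).add_mem h1 h2
  | smul r x _ h1 => rw [star_smul]; exact (FCl c d).smul_mem _ h1

theorem star_mem_ClAlg {𝕜 : Type*} [Field 𝕜] [Algebra 𝕜 A]
    (hr : ∀ (r : 𝕜) (y : A), star (r • y) = r • star y) {c : Fin N → A}
    (hs : ∀ a, star (c a) = -c a) {x : A}
    (hx : x ∈ ClAlg 𝕜 c) : star x ∈ ClAlg 𝕜 c := by
  unfold ClAlg at hx
  induction hx using Submodule.span_induction with
  | mem x hx =>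
    obtain ⟨l, rfl⟩ := hx
    rw [star_mon hs]
    have h2 : mon c l.reverse ∈ ClAlg 𝕜 c := mon_mem 𝕜 c _
    rcases neg_one_pow_eq_or A l.length with h | h <;> rw [h]
    · rwa [one_mul]
    · rw [neg_one_mul]; exact (ClAlg 𝕜 c).neg_mem h2
  | zero => rw [star_zero]; exact (ClAlg 𝕜 c).zero_mem
  | add x y _ _ h1 h2 => rw [star_add]; exact (ClAlg 𝕜 c).add_mem h1 h2
  | smul r x _ h1 => rw [hr]; exact (ClAlg 𝕜 c).smul_mem _ h1

theorem star_spinA {c : Fin N → A} (hs : ∀ a, star (c a) = -c a) {M : Mt N}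
    (hM : ∀ a b, M b a = -M a b) : star (spinA c M) = -spinA c M := by
  unfold spinA
  rw [star_smul, star_sum, ← smul_neg]
  congr 1
  · simp
  · rw [← Finset.sum_neg_distrib]
    simp only [star_sum, star_smul, star_mul, hs, neg_mul_neg]
    rw [Finset.sum_comm]
    refine Finset.sum_congr rfl fun a _ => ?_
    rw [← Finset.sum_neg_distrib]
    refine Finset.sum_congr rfl fun b _ => ?_
    rw [hM a b, ← neg_smul]
    simp

end star

/-! ## the chirality element -/

theorem mon_sq {c : Fin N → A} (h : IsCliff c) {l : List (Fin N)} (hl : l.Nodup) :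
    mon c l * mon c l = (-1) ^ (l.length * (l.length + 1) / 2) := by
  induction l with
  | nil => simp
  | cons a l ih =>
    have h1 := List.nodup_cons.mp hl
    have h2 := h.comm_rule a l
    rw [List.count_eq_zero_of_not_mem h1.1, add_zero] at h2
    rw [mon_cons]
    have h3 : c a * mon c l * (c a * mon c l) = (-1) ^ (l.length + 1) *
        (mon c l * mon c l) := by
      calc c a * mon c l * (c a * mon c l)
          = (-1) ^ l.length * (mon c l * c a) * (c a * mon c l) := by
            conv_lhs => enter [1]; rw [h2]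
        _ = (-1) ^ l.length * (mon c l * (c a * c a) * mon c l) := by
            simp only [mul_assoc]
        _ = (-1) ^ (l.length + 1) * (mon c l * mon c l) := by
            rw [h.sq, pow_succ]; noncomm_ring
    rw [h3, ih h1.2, ← pow_add, List.length_cons]
    congr 1
    have : (l.length + 1) * (l.length + 1 + 1) = l.length * (l.length + 1) + (l.length + 1) * 2 := by
      ring
    rw [this, Nat.add_mul_div_right _ _ (by norm_num)]
    ring

/-- the product of all -/
def topA (c : Fin N → A) : A := (List.ofFn c).prod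

theorem topA_eq (c : Fin N → A) : topA c = mon c (List.finRange N) := by
  unfold topA mon; rw [List.ofFn_eq_map]

theorem c_mul_topA {m : ℕ} {c : Fin (2 * m) → A} (h : IsCliff c) (a : Fin (2 * m)) :
    c a * topA c = -(topA c * c a) := by
  rw [topA_eq, h.comm_rule a, List.length_finRange]
  rw [List.count_eq_one_of_mem (List.nodup_finRange _) (List.mem_finRange a), pow_add, pow_mul]
  simp

theorem topA_mul_topA {m : ℕ} {c : Fin (2 * m) → A} (h : IsCliff c) :
    topA c * topA c = (-1) ^ m := by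
  rw [topA_eq, mon_sq h (List.nodup_finRange _), List.length_finRange]
  rw [show 2 * m * (2 * m + 1) / 2 = 2 * (m * m) + m by
    rw [mul_assoc, Nat.mul_div_cancel_left _ (by norm_num)]; ring]
  rw [pow_add, pow_mul]; simp

/-- abstract version of `Cliff.eps` -/
def epsA {m : ℕ} (c : Fin (2 * m) → A) : A := (Complex.I ^ m) • topA c

theorem epsA_mul_epsA {m : ℕ} {c : Fin (2 * m) → A} (h : IsCliff c) : epsA c * epsA c = 1 := by
  unfold epsA
  rw [smul_mul_smul_comm, topA_mul_topA h, ← pow_add, ← two_mul, pow_mul, Complex.I_sq]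
  rcases Nat.even_or_odd m with h1 | h1
  · rw [h1.neg_one_pow, h1.neg_one_pow, one_smul]
  · rw [h1.neg_one_pow, h1.neg_one_pow]; simp

theorem c_mul_epsA {m : ℕ} {c : Fin (2 * m) → A} (h : IsCliff c) (a : Fin (2 * m)) :
    c a * epsA c = -(epsA c * c a) := by
  unfold epsA
  rw [mul_smul_comm, c_mul_topA h, smul_neg, smul_mul_assoc]

theorem epsA_mul_c {m : ℕ} {c : Fin (2 * m) → A} (h : IsCliff c) (a : Fin (2 * m)) :
    epsA c * c a = -(c a * epsA c) := by
  rw [c_mul_epsA h, neg_neg]

theorem epsA_mul_mon {m : ℕ} {c : Fin (2 * m) → A} (h : IsCliff c) (l : List (Fin (2 * m))) :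
    epsA c * mon c l = (-1) ^ l.length * (mon c l * epsA c) := by
  induction l with
  | nil => simp
  | cons a l ih =>
    rw [mon_cons, ← mul_assoc, epsA_mul_c h, neg_mul, mul_assoc, ih, List.length_cons, pow_succ]
    have hc : c a * (-1) ^ l.length = (-1) ^ l.length * c a :=
      ((Commute.neg_one_right (c a)).pow_right _)
    rw [← mul_assoc, hc]; simp only [mul_assoc, mul_neg, neg_mul, one_mul]

theorem epsA_comm_twoA {m : ℕ} {c : Fin (2 * m) → A} (h : IsCliff c) (Ω : Mt (2 * m)) :
    epsA c * twoA c Ω = twoA c Ω * epsA c := by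
  unfold twoA
  rw [Finset.mul_sum, Finset.sum_mul]
  refine Finset.sum_congr rfl fun a _ => ?_
  rw [Finset.mul_sum, Finset.sum_mul]
  refine Finset.sum_congr rfl fun b _ => ?_
  rw [mul_smul_comm, smul_mul_assoc]
  congr 1
  rw [← mul_assoc, epsA_mul_c h, neg_mul, mul_assoc, epsA_mul_c h]; noncomm_ring

theorem epsA_comm_spinA {m : ℕ} {c : Fin (2 * m) → A} (h : IsCliff c) (M : Mt (2 * m)) :
    epsA c * spinA c M = spinA c M * epsA c := by
  rw [spinA_eq, mul_smul_comm, smul_mul_assoc, epsA_comm_twoA h]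

theorem star_epsA {m : ℕ} [StarRing A] [StarModule ℂ A] {c : Fin (2 * m) → A} (h : IsCliff c)
    (hs : ∀ a, star (c a) = -c a) : star (epsA c) = epsA c := by
  have h1 : star (epsA c) * epsA c = 1 := by
    unfold epsA
    rw [star_smul, smul_mul_smul_comm, topA_eq, star_mon_mul h hs, star_pow]
    have : star Complex.I = -Complex.I := by
      show (starRingEnd ℂ) Complex.I = _; simp
    rw [this, ← mul_pow]
    simp
  calc star (epsA c) = star (epsA c) * (epsA c * epsA c) := by rw [epsA_mul_epsA h, mul_one]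
    _ = epsA c := by rw [← mul_assoc, h1, one_mul]

/-! ## traces -/

section trace

variable {t : A →ₗ[ℂ] ℂ} (ht : ∀ x y, t (x * y) = t (y * x))
include ht

/-- `t X = 0` if `X` anticommutes with an invertible element. -/
theorem trace_eq_zero_of_anti {X u : A} (hu : u * u = -1 ∨ u * u = 1) (h : u * X = -(X * u)) :
    t X = 0 := by
  have h1 : t (u * X * u) = t (X * (u * u)) := by
    rw [ht, ← mul_assoc, ht]
  have h2 : t (u * X * u) = - t (X * (u * u)) := by
    rw [h, neg_mul, map_neg, mul_assoc]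
  have h3 : t (X * (u * u)) = 0 := by
    have := h1.symm.trans h2
    linear_combination (1 / 2 : ℂ) * this
  rcases hu with hu | hu
  · rw [hu, mul_neg_one, map_neg] at h3
    linear_combination -h3
  · rwa [hu, mul_one] at h3

theorem trace_epsA_mon_of_not_mem {m : ℕ} {c : Fin (2 * m) → A} (h : IsCliff c)
    {l : List (Fin (2 * m))} {a : Fin (2 * m)} (ha : a ∉ l) : t (epsA c * mon c l) = 0 := by
  rcases Nat.even_or_odd l.length with he | ho
  · have h1 := h.comm_rule a l
    rw [List.count_eq_zero_of_not_mem ha, add_zero, he.neg_one_pow, one_mul] at h1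
    refine trace_eq_zero_of_anti ht (u := c a) (Or.inl (h.sq a)) ?_
    rw [← mul_assoc, c_mul_epsA h, neg_mul, mul_assoc, h1, mul_assoc]
  · refine trace_eq_zero_of_anti ht (u := epsA c) (Or.inr (epsA_mul_epsA h)) ?_
    have h1 := epsA_mul_mon h l
    rw [ho.neg_one_pow, neg_one_mul] at h1
    have h2 : mon c l * epsA c = -(epsA c * mon c l) := by rw [h1, neg_neg]
    rw [mul_assoc, h2, mul_neg, neg_neg]

theorem exists_not_mem_list {l : List (Fin N)} (hl : l.length < N) : ∃ a, a ∉ l := by
  by_contra h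
  push Not at h
  have h1 : (Finset.univ : Finset (Fin N)) ⊆ l.toFinset := fun a _ => by simpa using h a
  have h2 := Finset.card_le_card h1
  rw [Finset.card_univ, Fintype.card_fin] at h2
  have := List.toFinset_card_le l
  omega

theorem trace_epsA_mul_of_mem_FCl {m : ℕ} {c : Fin (2 * m) → A} (h : IsCliff c) {d : ℕ}
    (hd : d < 2 * m) {x : A} (hx : x ∈ FCl c d) : t (epsA c * x) = 0 := by
  unfold FCl at hx
  induction hx using Submodule.span_induction with
  | mem x hx =>
    obtain ⟨l, hl, rfl⟩ := hx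
    obtain ⟨a, ha⟩ := exists_not_mem_list ht (hl.trans_lt hd)
    exact trace_epsA_mon_of_not_mem ht h ha
  | zero => rw [mul_zero, map_zero]
  | add x y _ _ h1 h2 => rw [mul_add, map_add, h1, h2, add_zero]
  | smul r x _ h1 => rw [mul_smul_comm, map_smul, h1, smul_zero]

end trace

end

end Pool.Agent.Lib.MP_df705a_gt.RL
end

section

/-!
TASK S09C (theorems lim_of_approx). Measurability and pointwise moments of the limit.

PROOFS.
* `pds_meas`: `(x, y) ↦ pds l (H c x) y` is the pointwise limit of the measurable functions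
  `(x, y) ↦ A.indicator (fun x => ∑ i ∈ s n, ε i x * pds l (h c i) y) x`
  (`measurable_of_tendsto_metrizable`, `tendsto_pi_nhds`); measurability of those: the function is
  `(Prod.fst ⁻¹' A).indicator (fun p => ∑ ..)`, `Measurable.indicator`.
* `eLpNorm_pds_le`: by Fatou (`Lp.eLpNorm_lim_le_liminf_eLpNorm`) and `IsSigns.eLpNorm_le` (the
  indicator makes the norm smaller: `eLpNorm_indicator_le`, or `eLpNorm_mono`).
* `lim_of_approx`: fix `c y p`, `K` of `IsSigns.eLpNorm_le`. `∑ i, h c i y ^ 2` is summable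
  (`hb` with `l = []`, `summable_of_sum_le`). Let `δ > 0`; choose a finset `s₀` with
  `∑ i ∈ t, h c i y ^ 2 < δ` for `t` disjoint from `s₀` (`summable_iff_vanishing_norm`). For
  `s ⊇ s₀`: `H c x y - ∑ i ∈ s, ε i x * h c i y` is for almost every `x` (all `x ∈ A`) the limit of
  `∑ i ∈ s n, .. - ∑ i ∈ s, .. = ∑ i ∈ s n \ s, ..` for `n` large (such that `s ⊆ s n`), and these have
  `eLpNorm ≤ ofReal (K sqrt δ)`; Fatou again. `ENNReal.tendsto_nhds_zero`.
-/

open scoped ContDiff InnerProductSpace Matrix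
open MeasureTheory Filter Topology

noncomputable section

namespace Pool.Agent.Lib.MP_df705a_gt.RL

variable {N : ℕ} {κ I X : Type*} [Countable I] [MeasurableSpace X] {P : Measure X}
  [IsProbabilityMeasure P] {ε : I → X → ℝ} {h : κ → I → V N → ℝ} {H : κ → X → V N → ℝ}

theorem lim_of_approx (hε : IsSigns P ε) (hb : SqBdd h)
    {s : ℕ → Finset I} (hs : Monotone s) (hs' : ∀ i, ∃ n, i ∈ s n) {A : Set X}
    (hA : MeasurableSet A) (hA' : P Aᶜ = 0)
    (hl : ∀ c x l y, Tendsto (fun n => A.indicator (fun x => ∑ i ∈ s n, ε i x * pds l (h c i) y) x)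
      atTop (𝓝 (pds l (H c x) y))) (c : κ) (y : V N) (p : ℕ) :
    Tendsto (fun s : Finset I => eLpNorm (fun x => H c x y - ∑ i ∈ s, ε i x * h c i y) p P)
      atTop (𝓝 0) := by
  classical
  obtain ⟨K, hK, hKb⟩ := hε.eLpNorm_le p
  obtain ⟨C, hC⟩ := hb c [] ‖y‖
  have hsum : Summable fun i => h c i y ^ 2 :=
    summable_of_sum_le (fun i => sq_nonneg _) (fun t => hC y le_rfl t)
  have key : ∀ δ : ℝ, 0 < δ → ∀ᶠ t : Finset I in atTop,
      eLpNorm (fun x => H c x y - ∑ i ∈ t, ε i x * h c i y) p P ≤ ENNReal.ofReal (K * Real.sqrt δ) := by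
    intro δ hδ
    obtain ⟨s₀, hs₀⟩ := summable_iff_vanishing_norm.1 hsum δ hδ
    refine eventually_atTop.2 ⟨s₀, fun t ht => ?_⟩
    refine (Lp.eLpNorm_lim_le_liminf_eLpNorm
      (f := fun n x => ∑ i ∈ s n, ε i x * h c i y - ∑ i ∈ t, ε i x * h c i y) ?_ _ ?_).trans ?_
    · intro n
      refine Measurable.aestronglyMeasurable ?_
      exact (Finset.measurable_sum _ fun i _ => (hε.meas i).mul_const _).sub
        (Finset.measurable_sum _ fun i _ => (hε.meas i).mul_const _)
    · have hA'' : ∀ᵐ x ∂P, x ∈ A := by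
        rw [ae_iff]
        exact hA'
      filter_upwards [hA''] with x hx
      refine Tendsto.sub_const ?_ _
      have := hl c x [] y
      simpa only [Set.indicator_of_mem hx, pds] using this
    · refine liminf_le_of_frequently_le' (Eventually.frequently ?_)
      have hts : ∀ᶠ n in atTop, t ⊆ s n := by
        have : ∀ᶠ n in atTop, ∀ i ∈ t, i ∈ s n := by
          refine (Finset.eventually_all t).2 fun i _ => ?_
          obtain ⟨n, hn⟩ := hs' i
          exact eventually_atTop.2 ⟨n, fun m hm => hs hm hn⟩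
        exact this
      filter_upwards [hts] with n hn
      have h1 : (fun x => ∑ i ∈ s n, ε i x * h c i y - ∑ i ∈ t, ε i x * h c i y) =
          fun x => ∑ i ∈ s n \ t, ε i x * h c i y := by
        funext x
        rw [← Finset.sum_sdiff hn]
        ring
      rw [h1]
      refine (hKb _ _).trans ?_
      gcongr
      have h2 := hs₀ (s n \ t) (Finset.disjoint_left.2 fun i hi hi' =>
        (Finset.mem_sdiff.1 hi).2 (ht hi'))
      rw [Real.norm_eq_abs] at h2
      exact (le_abs_self _).trans h2.le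
  rw [ENNReal.tendsto_nhds_zero]
  intro r hr
  rcases eq_or_ne r ⊤ with rfl | hr'
  · exact Eventually.of_forall fun _ => le_top
  · have hr0 : 0 < r.toReal := ENNReal.toReal_pos hr.ne' hr'
    have hd : 0 < r.toReal / (K + 1) := by positivity
    filter_upwards [key ((r.toReal / (K + 1)) ^ 2) (by positivity)] with t ht
    refine ht.trans ?_
    rw [Real.sqrt_sq hd.le]
    refine ENNReal.ofReal_le_of_le_toReal ?_
    rw [mul_div_assoc', div_le_iff₀ (by positivity)]
    nlinarith

end Pool.Agent.Lib.MP_df705a_gt.RL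
end
end

section

/-!
TASK S09B (theorems eLpNorm_pds_le). Measurability and pointwise moments of the limit.

PROOFS.
* `pds_meas`: `(x, y) ↦ pds l (H c x) y` is the pointwise limit of the measurable functions
  `(x, y) ↦ A.indicator (fun x => ∑ i ∈ s n, ε i x * pds l (h c i) y) x`
  (`measurable_of_tendsto_metrizable`, `tendsto_pi_nhds`); measurability of those: the function is
  `(Prod.fst ⁻¹' A).indicator (fun p => ∑ ..)`, `Measurable.indicator`.
* `eLpNorm_pds_le`: by Fatou (`Lp.eLpNorm_lim_le_liminf_eLpNorm`) and `IsSigns.eLpNorm_le` (the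
  indicator makes the norm smaller: `eLpNorm_indicator_le`, or `eLpNorm_mono`).
* `lim_of_approx`: fix `c y p`, `K` of `IsSigns.eLpNorm_le`. `∑ i, h c i y ^ 2` is summable
  (`hb` with `l = []`, `summable_of_sum_le`). Let `δ > 0`; choose a finset `s₀` with
  `∑ i ∈ t, h c i y ^ 2 < δ` for `t` disjoint from `s₀` (`summable_iff_vanishing_norm`). For
  `s ⊇ s₀`: `H c x y - ∑ i ∈ s, ε i x * h c i y` is for almost every `x` (all `x ∈ A`) the limit of
  `∑ i ∈ s n, .. - ∑ i ∈ s, .. = ∑ i ∈ s n \ s, ..` for `n` large (such that `s ⊆ s n`), and these have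
  `eLpNorm ≤ ofReal (K sqrt δ)`; Fatou again. `ENNReal.tendsto_nhds_zero`.
-/

open scoped ContDiff InnerProductSpace Matrix
open MeasureTheory Filter Topology

noncomputable section

namespace Pool.Agent.Lib.MP_df705a_gt.RL

variable {N : ℕ} {κ I X : Type*} [Countable I] [MeasurableSpace X] {P : Measure X}
  [IsProbabilityMeasure P] {ε : I → X → ℝ} {h : κ → I → V N → ℝ} {H : κ → X → V N → ℝ}

theorem eLpNorm_pds_le (hε : IsSigns P ε) (q : ℕ) : ∃ K : ℝ, 0 ≤ K ∧
    ∀ (h : κ → I → V N → ℝ) (H : κ → X → V N → ℝ) (s : ℕ → Finset I) (A : Set X),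
    MeasurableSet A →
    (∀ c x l y, Tendsto (fun n => A.indicator (fun x => ∑ i ∈ s n, ε i x * pds l (h c i) y) x)
      atTop (𝓝 (pds l (H c x) y))) →
    ∀ (c : κ) (l : List (Fin N)) (y : V N) (C : ℝ), (∀ s : Finset I, ∑ i ∈ s, pds l (h c i) y ^ 2 ≤ C) →
      eLpNorm (fun x => pds l (H c x) y) q P ≤ ENNReal.ofReal (K * Real.sqrt C) := by
  obtain ⟨K, hK, hKb⟩ := hε.eLpNorm_le q
  refine ⟨K, hK, fun h H s A hA hl c l y C hC => ?_⟩
  refine (Lp.eLpNorm_lim_le_liminf_eLpNorm
    (f := fun n x => A.indicator (fun x => ∑ i ∈ s n, ε i x * pds l (h c i) y) x) ?_ _ ?_).trans ?_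
  · intro n
    refine (Measurable.indicator ?_ hA).aestronglyMeasurable
    exact Finset.measurable_sum _ fun i _ => (hε.meas i).mul_const _
  · exact Eventually.of_forall fun x => hl c x l y
  · refine liminf_le_of_frequently_le' (Frequently.of_forall fun n => ?_)
    refine (eLpNorm_indicator_le _).trans ((hKb (s n) _).trans ?_)
    gcongr
    exact hC _

end Pool.Agent.Lib.MP_df705a_gt.RL
end
end

section

/-!
TASK B8. The function `ξ` of McKean and Singer.

PROOF. Put `x = 1/r - 1` for `0 < r ≤ 1`, `G(x) = ∫_{s}^{t} exp(-(u x)) du` (continuous in `x`,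
`G(x) x = exp(-s x) - exp(-t x)`, `0 ≤ G(x) ≤ (t - s) exp(-s x)` for `x ≥ 0`), and
`η(r) = r⁻² G(1/r - 1)` for `r > 0`, `η(r) = 0` for `r ≤ 0`. `η` is continuous on `[0,1]`: at `0`,
`0 ≤ η(r) ≤ (t - s) r⁻² fS s r → 0`. `(r - r²) η(r) = (1/r - 1) G(1/r - 1) = fS s r - fS t r` for
`r > 0`, and both sides are `0` for `r = 0`. Put `ξ = √η` (extended to a continuous function on
the line by `IccExtend`, or just `ContinuousOn`).
-/

open scoped InnerProductSpace ENNReal NNReal
open Filter Topology Set MeasureTheory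

namespace Pool.Agent.Lib.MP_df705a_gt.RL

noncomputable section

variable {H : Type*} [NormedAddCommGroup H] [InnerProductSpace ℂ H] [CompleteSpace H]

theorem B8_mul (s t x : ℝ) : x * ∫ u in s..t, Real.exp (-(u * x)) =
    Real.exp (-(s * x)) - Real.exp (-(t * x)) := by
  rw [← intervalIntegral.integral_const_mul]
  have h1 : ∀ u ∈ uIcc s t, HasDerivAt (fun u => -Real.exp (-(u * x)))
      (x * Real.exp (-(u * x))) u := fun u _ => by
    have := (((hasDerivAt_id u).mul_const x).neg.exp).neg
    simp only [id, one_mul, mul_neg, neg_neg] at this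
    rwa [mul_comm] at this
  rw [intervalIntegral.integral_eq_sub_of_hasDerivAt h1
    (Continuous.intervalIntegrable (by fun_prop) _ _)]
  ring

theorem B8_lim {s : ℝ} (hs : 0 < s) (c : ℝ) :
    Tendsto (fun r : ℝ => c * ((s / r) ^ 2 * Real.exp (-(s / r)))) (𝓝[>] 0) (𝓝 0) := by
  have h1 : Tendsto (fun r : ℝ => s / r) (𝓝[>] 0) atTop :=
    tendsto_inv_nhdsGT_zero.const_mul_atTop hs
  have h2 := ((Real.tendsto_pow_mul_exp_neg_atTop_nhds_zero 2).comp h1).const_mul c
  rwa [mul_zero] at h2

theorem exists_xi {s t : ℝ} (hs : 0 < s) (hst : s ≤ t) :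
    ∃ ξ : ℝ → ℝ, ContinuousOn ξ (Icc 0 1) ∧ (∀ r ∈ Icc (0 : ℝ) 1, 0 ≤ ξ r) ∧
      ∀ r ∈ Icc (0 : ℝ) 1, (r - r ^ 2) * ξ r ^ 2 = fS s r - fS t r := by
  let G : ℝ → ℝ := fun x => ∫ u in s..t, Real.exp (-(u * x))
  have hG : Continuous G := intervalIntegral.continuous_parametric_intervalIntegral_of_continuous'
    (by fun_prop) s t
  have hG0 : ∀ x, 0 ≤ G x := fun x =>
    intervalIntegral.integral_nonneg hst fun u _ => (Real.exp_pos _).le
  have hG1 : ∀ x, 0 ≤ x → G x ≤ Real.exp (-(s * x)) * (t - s) := fun x hx => by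
    have h1 := intervalIntegral.norm_integral_le_of_norm_le_const
      (a := s) (b := t) (f := fun u => Real.exp (-(u * x))) (C := Real.exp (-(s * x)))
      (fun u hu => by
        rw [uIoc_of_le hst] at hu
        rw [Real.norm_of_nonneg (Real.exp_pos _).le, Real.exp_le_exp]
        exact neg_le_neg (mul_le_mul_of_nonneg_right hu.1.le hx))
    rw [abs_of_nonneg (sub_nonneg.2 hst)] at h1
    exact (Real.le_norm_self _).trans h1
  let η : ℝ → ℝ := fun r => if r ≤ 0 then 0 else (1 / r) ^ 2 * G (1 / r - 1)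
  have hη0 : ∀ r, 0 ≤ η r := fun r => by
    simp only [η]
    split_ifs
    exacts [le_rfl, mul_nonneg (sq_nonneg _) (hG0 _)]
  have hηp : ∀ r, 0 < r → η r = (1 / r) ^ 2 * G (1 / r - 1) := fun r hr => if_neg hr.not_ge
  have hc : ContinuousOn η (Icc 0 1) := fun r hr => by
    rcases hr.1.eq_or_lt with rfl | h0
    · refine (continuousWithinAt_Ioi_iff_Ici.1 ?_).mono Icc_subset_Ici_self
      have he0 : η 0 = 0 := if_pos le_rfl
      rw [ContinuousWithinAt, he0]
      refine tendsto_of_tendsto_of_tendsto_of_le_of_le' tendsto_const_nhds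
        (B8_lim hs ((t - s) * Real.exp s / s ^ 2)) (Eventually.of_forall hη0) ?_
      filter_upwards [Ioo_mem_nhdsGT one_pos] with r hr
      rw [hηp r hr.1]
      have h1 := hG1 (1 / r - 1) (sub_nonneg.2 ((one_le_div hr.1).2 hr.2.le))
      refine (mul_le_mul_of_nonneg_left h1 (sq_nonneg _)).trans_eq ?_
      rw [show -(s * (1 / r - 1)) = s + -(s / r) by ring, Real.exp_add]
      have := hs.ne'
      field_simp
    · have h2 : ContinuousAt (fun r => (1 / r) ^ 2 * G (1 / r - 1)) r := by
        have h3 : ContinuousAt (fun r : ℝ => 1 / r) r :=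
          continuousAt_const.div continuousAt_id h0.ne'
        exact (h3.pow 2).mul (hG.continuousAt.comp (h3.sub continuousAt_const))
      refine (h2.congr ?_).continuousWithinAt
      filter_upwards [lt_mem_nhds h0] with r hr
      exact (hηp r hr).symm
  refine ⟨fun r => Real.sqrt (η r), hc.sqrt, fun r _ => Real.sqrt_nonneg _, fun r hr => ?_⟩
  rw [Real.sq_sqrt (hη0 r)]
  rcases hr.1.eq_or_lt with rfl | h0
  · simp [fS]
  · rw [hηp r h0, fS, fS, if_neg h0.not_ge, if_neg h0.not_ge, ← B8_mul]
    change _ = (1 / r - 1) * G (1 / r - 1)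
    have := h0.ne'
    field_simp

/-- `‖S_{s/2} u‖² = ‖S_{t/2} u‖² + ‖B ξ(R) u‖²` -/
theorem Sop_sq_sub {R B : H →L[ℂ] H} (hR : IsCon R) (hB : IsSelfAdjoint B) (hc : Commute R B)
    (hBB : B * B = R - R * R) {s t : ℝ} (hs : 0 < s) (hst : s ≤ t) {ξ : ℝ → ℝ}
    (hξ : ContinuousOn ξ (Icc 0 1))
    (h : ∀ r ∈ Icc (0 : ℝ) 1, (r - r ^ 2) * ξ r ^ 2 = fS s r - fS t r) (u : H) :
    ‖Sop R (s / 2) u‖ ^ 2 = ‖Sop R (t / 2) u‖ ^ 2 + ‖B (cfc ξ R u)‖ ^ 2 := by
  have hn : ∀ A T : H →L[ℂ] H, star A * A = T → ‖A u‖ ^ 2 = RCLike.re ⟪T u, u⟫_ℂ :=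
    fun A T hT => by
      rw [← hT]
      exact A.apply_norm_sq_eq_inner_adjoint_left u
  have hS : ∀ s : ℝ, 0 < s → ‖Sop R (s / 2) u‖ ^ 2 = RCLike.re ⟪Sop R s u, u⟫_ℂ := fun s hs =>
    hn _ _ (by rw [(Sop_sa _).star_eq, Sop_mul hR (half_pos hs) (half_pos hs), add_halves])
  have hx : ContinuousOn ξ (spectrum ℝ R) := hξ.mono hR.spec
  have hRs := hR.sa
  have h1 : cfc (fun r : ℝ => r - r * r) R = R - R * R := by
    rw [cfc_sub .., cfc_mul .., cfc_id' ℝ R]
  have h2 : star (B * cfc ξ R) * (B * cfc ξ R) = Sop R s - Sop R t := by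
    have h3 : IsSelfAdjoint (cfc ξ R) := IsSelfAdjoint.cfc
    have hs' := (fS_continuous hs).continuousOn (s := spectrum ℝ R)
    have ht' := (fS_continuous (hs.trans_le hst)).continuousOn (s := spectrum ℝ R)
    rw [star_mul, hB.star_eq, h3.star_eq, mul_assoc, ← mul_assoc B B, hBB, ← h1, Sop, Sop,
      ← cfc_sub .., ← cfc_mul .., ← cfc_mul ..]
    refine cfc_congr fun r hr => ?_
    have h4 := h r (hR.spec hr)
    linarith [h4]
  have h5 : ‖B (cfc ξ R u)‖ ^ 2 = _ := hn (B * cfc ξ R) _ h2
  rw [hS s hs, hS t (hs.trans_le hst), h5, ← map_add, ← inner_add_left]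
  simp

end

end Pool.Agent.Lib.MP_df705a_gt.RL
end
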