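import Pool.Agent.Lib.MP_df705a_gt.Mg.G032
import Pool.Agent.Lib.MP_df705a_gt.Mg.G031
import Pool.Agent.Lib.MP_df705a_gt.Mg.G038

section

/-!
TASK S10A (theorems mom_of_approx). The moments of the `C^k` norms, and the theorem on random series.

PROOFS.
* `mom_of_approx`: given `r, k` let `C` be the sum over `j ≤ k` of the constants of
  `sobolev_loc N j r` and `L x = 1 + C * ∑ c, ∑ l ∈ lists N (k+N+1), ∫ v in closedBall 0 (r+1),
  |pds l (H c x) v|`. The bound of the derivatives is `sobolev_loc`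
  (`lists N (j+N+1) ⊆ lists N (k+N+1)`, nonnegative terms). Measurable: `pds_meas` and
  `StronglyMeasurable.integral_prod_right'`. Integrability of `L ^ p`: enough `MemLp L p`
  (`MemLp.integrable_norm_pow`), so enough (sums, constants) that
  `G x = ∫_B |g(x,v)| dv`, `g(x,v) = pds l (H c x) v`, is in `L^p`, `p ≥ 1`:
  `‖G x‖ₑ^p ≤ (∫⁻_B ‖g(x,v)‖ₑ)^p ≤ (vol B)^(p-1) ∫⁻_B ‖g(x,v)‖ₑ^p` (Jensen / Hölder:
  `eLpNorm_le_eLpNorm_mul_rpow_measure_univ` with exponents `1 ≤ p` for `volume.restrict B`),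
  Tonelli and `eLpNorm_pds_le`: `∫⁻ x, ‖g(x,v)‖ₑ^p ≤ (ofReal (K sqrt C'))^p` for `v ∈ B` with the
  constant `C'` of `hb c l (r+1)`.
* `isSer_of_signs`: `exists_series`, `pds_meas`, `lim_of_approx`, `mom_of_approx`.
* `isSer_of_finite`: `H c x y = ∑ i, ε i x * h c i y` (`Fintype.ofFinite`), `s n = univ`,
  `A = univ`, `pds_sum`. Moments: `L = 1 + sup`: the derivatives are bounded by
  `∑ i, ‖iteratedFDeriv ℝ j (h c i) y‖ ≤ C` on the ball (compactness), a constant. `lim`: for
  `s = univ` (the top element of `atTop`) the difference is zero; `tendsto_const_nhds.congr'`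
  with `eventually_ge_atTop univ`.
-/

open scoped ContDiff InnerProductSpace Matrix
open MeasureTheory Filter Topology

noncomputable section

namespace Pool.Agent.Lib.MP_df705a_gt.RL

variable {N : ℕ} {κ I X : Type*} [Fintype κ] [MeasurableSpace X] {P : Measure X}
  [IsProbabilityMeasure P] {ε : I → X → ℝ} {h : κ → I → V N → ℝ}

omit [Fintype κ] [MeasurableSpace X] [IsProbabilityMeasure P] in
theorem S10A_memLp_integral {Y W : Type*} [MeasurableSpace Y] [MeasurableSpace W] {Q : Measure Y}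
    [SFinite Q] {ν : Measure W} [IsFiniteMeasure ν] {g : Y × W → ℝ} (hg : Measurable g) {p : ℕ}
    (hp : p ≠ 0) {D : ENNReal} (hD : D ≠ ⊤)
    (h : ∀ᵐ v ∂ν, eLpNorm (fun x => g (x, v)) p Q ≤ D) :
    MemLp (fun x => ∫ v, |g (x, v)| ∂ν) p Q := by
  have hp0 : (0 : ℝ) < p := by exact_mod_cast Nat.pos_of_ne_zero hp
  have hp1 : (1 : ℝ) ≤ p := by exact_mod_cast Nat.one_le_iff_ne_zero.2 hp
  have hpe : (p : ENNReal) ≠ 0 := by exact_mod_cast hp
  have hpt : (p : ENNReal) ≠ ⊤ := ENNReal.natCast_ne_top p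
  have hm : StronglyMeasurable fun x => ∫ v, |g (x, v)| ∂ν := by
    have h1 : StronglyMeasurable fun z : Y × W => |g z| := hg.abs.stronglyMeasurable
    exact h1.integral_prod_right'
  refine ⟨hm.aestronglyMeasurable, ?_⟩
  rw [eLpNorm_lt_top_iff_lintegral_rpow_enorm_lt_top hpe hpt, ENNReal.toReal_natCast]
  have hu : ν Set.univ ≠ ⊤ := measure_ne_top ν _
  set M : ENNReal := (ν Set.univ ^ (1 / (1 : ℝ) - 1 / (p : ℝ))) ^ (p : ℝ) with hM
  have hMt : M ≠ ⊤ := by
    rw [hM]
    refine ENNReal.rpow_ne_top_of_nonneg hp0.le (ENNReal.rpow_ne_top_of_nonneg ?_ hu)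
    rw [one_div_one, sub_nonneg, div_le_one hp0]
    exact hp1
  have key : ∀ x, ‖∫ v, |g (x, v)| ∂ν‖ₑ ^ (p : ℝ) ≤ (∫⁻ v, ‖g (x, v)‖ₑ ^ (p : ℝ) ∂ν) * M := by
    intro x
    have h1 : ‖∫ v, |g (x, v)| ∂ν‖ₑ ≤ ∫⁻ v, ‖g (x, v)‖ₑ ∂ν := by
      refine (enorm_integral_le_lintegral_enorm _).trans_eq ?_
      refine lintegral_congr fun v => ?_
      exact Real.enorm_abs _
    have hgx : Measurable fun v => g (x, v) := hg.comp measurable_prodMk_left
    have h2 : ∫⁻ v, ‖g (x, v)‖ₑ ∂ν
        ≤ eLpNorm' (fun v => g (x, v)) p ν * ν Set.univ ^ (1 / (1 : ℝ) - 1 / (p : ℝ)) := by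
      have h3 := eLpNorm'_le_eLpNorm'_mul_rpow_measure_univ (μ := ν) (f := fun v => g (x, v))
        zero_lt_one hp1 hgx.aestronglyMeasurable
      refine le_trans (le_of_eq ?_) h3
      rw [eLpNorm'_eq_lintegral_enorm]
      simp
    calc ‖∫ v, |g (x, v)| ∂ν‖ₑ ^ (p : ℝ)
        ≤ (eLpNorm' (fun v => g (x, v)) p ν * ν Set.univ ^ (1 / (1 : ℝ) - 1 / (p : ℝ))) ^ (p : ℝ) :=
          ENNReal.rpow_le_rpow (h1.trans h2) hp0.le
      _ = (∫⁻ v, ‖g (x, v)‖ₑ ^ (p : ℝ) ∂ν) * M := by
          rw [ENNReal.mul_rpow_of_nonneg _ _ hp0.le, lintegral_rpow_enorm_eq_rpow_eLpNorm' hp0]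
  have hgm : Measurable fun z : Y × W => ‖g z‖ₑ ^ (p : ℝ) := hg.enorm.pow_const _
  calc ∫⁻ x, ‖∫ v, |g (x, v)| ∂ν‖ₑ ^ (p : ℝ) ∂Q
      ≤ ∫⁻ x, (∫⁻ v, ‖g (x, v)‖ₑ ^ (p : ℝ) ∂ν) * M ∂Q := lintegral_mono key
    _ = (∫⁻ x, ∫⁻ v, ‖g (x, v)‖ₑ ^ (p : ℝ) ∂ν ∂Q) * M := lintegral_mul_const' _ _ hMt
    _ = (∫⁻ v, ∫⁻ x, ‖g (x, v)‖ₑ ^ (p : ℝ) ∂Q ∂ν) * M := by
        rw [lintegral_lintegral_swap]
        exact hgm.aemeasurable
    _ ≤ (∫⁻ _, D ^ (p : ℝ) ∂ν) * M := by
        refine mul_le_mul_left ?_ M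
        refine lintegral_mono_ae ?_
        filter_upwards [h] with v hv
        rw [eLpNorm_eq_eLpNorm' hpe hpt, ENNReal.toReal_natCast] at hv
        rw [lintegral_rpow_enorm_eq_rpow_eLpNorm' hp0]
        exact ENNReal.rpow_le_rpow hv hp0.le
    _ < ⊤ := by
        rw [lintegral_const]
        exact ENNReal.mul_lt_top (ENNReal.mul_lt_top
          (ENNReal.rpow_lt_top_of_nonneg hp0.le hD) (measure_lt_top ν _)) hMt.lt_top

theorem mom_of_approx [Countable I] (hε : IsSigns P ε) (hh : ∀ c i, ContDiff ℝ ∞ (h c i))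
    (hb : SqBdd h) {H : κ → X → V N → ℝ} {s : ℕ → Finset I} {A : Set X} (hA : MeasurableSet A)
    (hH : ∀ c x, ContDiff ℝ ∞ (H c x))
    (hl : ∀ c x l y, Tendsto (fun n => A.indicator (fun x => ∑ i ∈ s n, ε i x * pds l (h c i) y) x)
      atTop (𝓝 (pds l (H c x) y))) (r : ℝ) (k : ℕ) :
    ∃ L : X → ℝ, Measurable L ∧ (∀ x, 1 ≤ L x) ∧ (∀ p : ℕ, Integrable (fun x => L x ^ p) P) ∧
      ∀ c x, ∀ j ≤ k, ∀ y, ‖y‖ ≤ r → ‖iteratedFDeriv ℝ j (H c x) y‖ ≤ L x := by
  choose Cf hCf0 hCf using fun j => sobolev_loc N j r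
  set C : ℝ := ∑ j ∈ Finset.range (k + 1), Cf j with hC
  have hC0 : 0 ≤ C := Finset.sum_nonneg fun j _ => hCf0 j
  set B : Set (V N) := Metric.closedBall 0 (r + 1) with hB
  set G : κ → List (Fin N) → X → ℝ := fun c l x => ∫ v in B, |pds l (H c x) v| with hG
  have hG0 : ∀ c l x, 0 ≤ G c l x := fun c l x => integral_nonneg fun v => abs_nonneg _
  have hgm : ∀ c l, Measurable fun z : X × V N => pds l (H c z.1) z.2 := fun c l =>
    pds_meas hε.meas hh hA hl c l
  have hGm : ∀ c l, Measurable (G c l) := by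
    intro c l
    have h1 : StronglyMeasurable fun z : X × V N => |pds l (H c z.1) z.2| :=
      (hgm c l).abs.stronglyMeasurable
    exact (h1.integral_prod_right' (ν := volume.restrict B)).measurable
  have hfin : IsFiniteMeasure (volume.restrict B) := by
    refine ⟨?_⟩
    rw [Measure.restrict_apply_univ]
    exact (isCompact_closedBall (0 : V N) (r + 1)).measure_lt_top
  have hGp : ∀ c l (p : ℕ), p ≠ 0 → MemLp (G c l) p P := by
    intro c l p hp
    obtain ⟨K, hK0, hK⟩ := eLpNorm_pds_le (κ := κ) (N := N) hε p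
    obtain ⟨C', hC'⟩ := hb c l (r + 1)
    refine S10A_memLp_integral (g := fun z : X × V N => pds l (H c z.1) z.2) (hgm c l) hp
      (D := ENNReal.ofReal (K * Real.sqrt C')) ENNReal.ofReal_ne_top ?_
    refine (ae_restrict_iff' measurableSet_closedBall).2 (ae_of_all _ fun v hv => ?_)
    refine hK h H s A hA hl c l v C' (hC' v ?_)
    rwa [Metric.mem_closedBall, dist_zero_right] at hv
  set L : X → ℝ := fun x => 1 + C * ∑ c, ∑ l ∈ lists N (k + N + 1), G c l x with hL
  have hLm : Measurable L := by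
    refine measurable_const.add (measurable_const.mul ?_)
    exact Finset.measurable_sum _ fun c _ => Finset.measurable_sum _ fun l _ => hGm c l
  have hS0 : ∀ x, 0 ≤ ∑ c, ∑ l ∈ lists N (k + N + 1), G c l x := fun x =>
    Finset.sum_nonneg fun c _ => Finset.sum_nonneg fun l _ => hG0 c l x
  refine ⟨L, hLm, fun x => ?_, fun p => ?_, ?_⟩
  · have := mul_nonneg hC0 (hS0 x)
    show 1 ≤ 1 + C * ∑ c, ∑ l ∈ lists N (k + N + 1), G c l x
    linarith
  · rcases Nat.eq_zero_or_pos p with rfl | hp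
    · simp only [pow_zero]
      exact integrable_const 1
    · have hLp : MemLp L p P := by
        have h1 : MemLp (fun x => ∑ c, ∑ l ∈ lists N (k + N + 1), G c l x) p P :=
          memLp_finsetSum _ fun c _ => memLp_finsetSum _ fun l _ => hGp c l p hp.ne'
        exact (memLp_const (1 : ℝ)).add (h1.const_mul C)
      have h2 := hLp.integrable_norm_pow hp.ne'
      refine h2.congr (ae_of_all _ fun x => ?_)
      have h3 : 0 ≤ L x := by
        have := mul_nonneg hC0 (hS0 x)
        show 0 ≤ 1 + C * ∑ c, ∑ l ∈ lists N (k + N + 1), G c l x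
        linarith
      show ‖L x‖ ^ p = L x ^ p
      rw [Real.norm_of_nonneg h3]
  · intro c x j hj y hy
    have h1 := hCf j (H c x) (hH c x) y hy
    have h2 : Cf j ≤ C := Finset.single_le_sum (f := Cf) (fun i _ => hCf0 i)
      (Finset.mem_range.2 (by omega))
    have h3 : ∑ l ∈ lists N (j + N + 1), G c l x ≤ ∑ l ∈ lists N (k + N + 1), G c l x := by
      refine Finset.sum_le_sum_of_subset_of_nonneg ?_ fun l _ _ => hG0 c l x
      intro l hl'
      rw [mem_lists] at hl' ⊢
      omega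
    have h4 : ∑ l ∈ lists N (k + N + 1), G c l x ≤ ∑ c, ∑ l ∈ lists N (k + N + 1), G c l x :=
      Finset.single_le_sum (f := fun c => ∑ l ∈ lists N (k + N + 1), G c l x)
        (fun c _ => Finset.sum_nonneg fun l _ => hG0 c l x) (Finset.mem_univ c)
    have h5 : 0 ≤ ∑ l ∈ lists N (j + N + 1), G c l x :=
      Finset.sum_nonneg fun l _ => hG0 c l x
    calc ‖iteratedFDeriv ℝ j (H c x) y‖ ≤ Cf j * ∑ l ∈ lists N (j + N + 1), G c l x := h1
      _ ≤ C * ∑ c, ∑ l ∈ lists N (k + N + 1), G c l x :=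
        mul_le_mul h2 (h3.trans h4) h5 hC0
      _ ≤ L x := by
        show _ ≤ 1 + C * ∑ c, ∑ l ∈ lists N (k + N + 1), G c l x
        linarith

end Pool.Agent.Lib.MP_df705a_gt.RL
end
end

section

/-!
TASK S10B (theorems isSer_of_signs, isSer_of_finite). The moments of the `C^k` norms, and the theorem on random series.

PROOFS.
* `mom_of_approx`: given `r, k` let `C` be the sum over `j ≤ k` of the constants of
  `sobolev_loc N j r` and `L x = 1 + C * ∑ c, ∑ l ∈ lists N (k+N+1), ∫ v in closedBall 0 (r+1),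
  |pds l (H c x) v|`. The bound of the derivatives is `sobolev_loc`
  (`lists N (j+N+1) ⊆ lists N (k+N+1)`, nonnegative terms). Measurable: `pds_meas` and
  `StronglyMeasurable.integral_prod_right'`. Integrability of `L ^ p`: enough `MemLp L p`
  (`MemLp.integrable_norm_pow`), so enough (sums, constants) that
  `G x = ∫_B |g(x,v)| dv`, `g(x,v) = pds l (H c x) v`, is in `L^p`, `p ≥ 1`:
  `‖G x‖ₑ^p ≤ (∫⁻_B ‖g(x,v)‖ₑ)^p ≤ (vol B)^(p-1) ∫⁻_B ‖g(x,v)‖ₑ^p` (Jensen / Hölder:
  `eLpNorm_le_eLpNorm_mul_rpow_measure_univ` with exponents `1 ≤ p` for `volume.restrict B`),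
  Tonelli and `eLpNorm_pds_le`: `∫⁻ x, ‖g(x,v)‖ₑ^p ≤ (ofReal (K sqrt C'))^p` for `v ∈ B` with the
  constant `C'` of `hb c l (r+1)`.
* `isSer_of_signs`: `exists_series`, `pds_meas`, `lim_of_approx`, `mom_of_approx`.
* `isSer_of_finite`: `H c x y = ∑ i, ε i x * h c i y` (`Fintype.ofFinite`), `s n = univ`,
  `A = univ`, `pds_sum`. Moments: `L = 1 + sup`: the derivatives are bounded by
  `∑ i, ‖iteratedFDeriv ℝ j (h c i) y‖ ≤ C` on the ball (compactness), a constant. `lim`: for
  `s = univ` (the top element of `atTop`) the difference is zero; `tendsto_const_nhds.congr'`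
  with `eventually_ge_atTop univ`.
-/

open scoped ContDiff InnerProductSpace Matrix
open MeasureTheory Filter Topology

noncomputable section

namespace Pool.Agent.Lib.MP_df705a_gt.RL

variable {N : ℕ} {κ I X : Type*} [Fintype κ] [MeasurableSpace X] {P : Measure X}
  [IsProbabilityMeasure P] {ε : I → X → ℝ} {h : κ → I → V N → ℝ}

theorem isSer_of_signs [Countable I] (hε : IsSigns P ε) (hh : ∀ c i, ContDiff ℝ ∞ (h c i))
    (hb : SqBdd h) : ∃ H : κ → X → V N → ℝ, IsSer P ε h H := by
  obtain ⟨s, A, H, hs, hs', hA, hA', hH, hl⟩ := exists_series hε hh hb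
  exact ⟨H, hH, ⟨s, A, hA, hl⟩, fun r k => mom_of_approx hε hh hb hA hH hl r k,
    fun c y p => lim_of_approx hε hb hs hs' hA hA' hl c y p⟩

theorem isSer_of_finite [Finite I] (hm : ∀ i, Measurable (ε i)) (hbd : ∀ i x, |ε i x| ≤ 1)
    (hh : ∀ c i, ContDiff ℝ ∞ (h c i)) : ∃ H : κ → X → V N → ℝ, IsSer P ε h H := by
  classical
  have := Fintype.ofFinite I
  have hpds : ∀ c x l y, pds l (fun y => ∑ i, ε i x * h c i y) y
      = ∑ i, ε i x * pds l (h c i) y := fun c x l y =>
    pds_sum Finset.univ (fun i => ε i x) (hh c) l y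
  refine ⟨fun c x y => ∑ i, ε i x * h c i y, fun c x => ?_, ?_, ?_, ?_⟩
  · exact ContDiff.sum fun i _ => contDiff_const.mul (hh c i)
  · refine ⟨fun _ => Finset.univ, Set.univ, MeasurableSet.univ, fun c x l y => ?_⟩
    rw [hpds]
    simp only [Set.indicator_univ]
    exact tendsto_const_nhds
  · intro r k
    have hM : ∀ (c : κ) (i : I) (j : ℕ), ∃ M : ℝ, 0 ≤ M ∧ ∀ y : V N, ‖y‖ ≤ r →
        ‖iteratedFDeriv ℝ j (h c i) y‖ ≤ M := by
      intro c i j
      have hcont : Continuous (iteratedFDeriv ℝ j (h c i)) :=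
        (hh c i).continuous_iteratedFDeriv (by exact_mod_cast le_top)
      obtain ⟨M, hM⟩ := (isCompact_closedBall (0 : V N) r).exists_bound_of_continuousOn
        hcont.continuousOn
      refine ⟨max M 0, le_max_right _ _, fun y hy => ?_⟩
      exact (hM y (by rwa [mem_closedBall_zero_iff])).trans (le_max_left _ _)
    choose M hM0 hM1 using hM
    refine ⟨fun _ => 1 + ∑ c, ∑ j ∈ Finset.range (k + 1), ∑ i, M c i j, measurable_const,
      fun _ => ?_, fun _ => integrable_const _, ?_⟩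
    · have : 0 ≤ ∑ c, ∑ j ∈ Finset.range (k + 1), ∑ i, M c i j :=
        Finset.sum_nonneg fun c _ => Finset.sum_nonneg fun j _ => Finset.sum_nonneg fun i _ =>
          hM0 c i j
      linarith
    · intro c x j hj y hy
      have h1 : iteratedFDeriv ℝ j (fun y => ∑ i, ε i x * h c i y) y
          = ∑ i, ε i x • iteratedFDeriv ℝ j (h c i) y := by
        have e1 : (fun y => ∑ i, ε i x * h c i y) = fun y => ∑ i, (ε i x • h c i) y := by
          funext y
          rfl
        rw [e1]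
        refine (iteratedFDeriv_fun_sum_apply (f := fun i y => (ε i x • h c i) y) (fun i _ =>
          (((hh c i).of_le (by exact_mod_cast le_top)).const_smul (ε i x)).contDiffAt)).trans ?_
        refine Finset.sum_congr rfl fun i _ => ?_
        exact iteratedFDeriv_const_smul_apply ((hh c i).of_le (by exact_mod_cast le_top)).contDiffAt
      have h2 : ‖iteratedFDeriv ℝ j (fun y => ∑ i, ε i x * h c i y) y‖ ≤ ∑ i, M c i j := by
        rw [h1]
        refine (norm_sum_le _ _).trans (Finset.sum_le_sum fun i _ => ?_)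
        rw [norm_smul, Real.norm_eq_abs]
        calc |ε i x| * ‖iteratedFDeriv ℝ j (h c i) y‖ ≤ 1 * M c i j :=
              mul_le_mul (hbd i x) (hM1 c i j y hy) (norm_nonneg _) zero_le_one
          _ = M c i j := one_mul _
      have h3 : ∑ i, M c i j ≤ ∑ c, ∑ j ∈ Finset.range (k + 1), ∑ i, M c i j := by
        have e1 : ∑ i, M c i j ≤ ∑ j ∈ Finset.range (k + 1), ∑ i, M c i j :=
          Finset.single_le_sum (f := fun j => ∑ i, M c i j)
            (fun j _ => Finset.sum_nonneg fun i _ => hM0 c i j)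
            (Finset.mem_range.2 (Nat.lt_succ_of_le hj))
        have e2 : ∑ j ∈ Finset.range (k + 1), ∑ i, M c i j
            ≤ ∑ c, ∑ j ∈ Finset.range (k + 1), ∑ i, M c i j :=
          Finset.single_le_sum (f := fun c => ∑ j ∈ Finset.range (k + 1), ∑ i, M c i j)
            (fun c _ => Finset.sum_nonneg fun j _ => Finset.sum_nonneg fun i _ => hM0 c i j)
            (Finset.mem_univ c)
        exact e1.trans e2
      linarith
  · intro c y p
    refine tendsto_const_nhds.congr' ?_
    filter_upwards [eventually_ge_atTop (Finset.univ : Finset I)] with s hs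
    have hs1 : s = Finset.univ := Finset.univ_subset_iff.1 hs
    rw [hs1]
    simp

end Pool.Agent.Lib.MP_df705a_gt.RL
end
end

section

/-!
TASK S16. Finite sums of random series form a `Rand`.

PROOF. closed: `isClosed2_matOf` and finite sums of closed forms (`fderiv` of a finite sum; or apply
`IsClosed2` additivity inductively: zero and `+`). meas: `hH.approx` and `pds_meas` with `l = []`
(entries of the finite sum of matrices: `Matrix.sum_apply`). equi: `equi_matOf` for the finitely many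
`r` (`ae_all_iff`), `pull2` is additive (`Matrix.mul_sum`, `Matrix.sum_mul`).
mom: `L x = 1 + ∑ r ∈ S, L_r x` with the `L_r` of `(hH r).mom`; `iteratedFDeriv` of a finite sum;
integrability of `L ^ p`: each `L_r` is in all `Lᵖ` (`L_r ≥ 1`, `L_r ^ p` integrable ⇒ `MemLp L_r p`:
`memLp_iff_integrable_norm_rpow` or `integrable_norm_rpow_iff`), finite sums of `MemLp` are `MemLp`,
`MemLp.integrable_norm_pow`.
-/

open scoped ContDiff InnerProductSpace Matrix
open MeasureTheory Filter Topology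

noncomputable section

namespace Pool.Agent.Lib.MP_df705a_gt.RL

variable {N m : ℕ}

theorem rand_sum {X : Type*} [MeasurableSpace X] {P : Measure X} [IsProbabilityMeasure P]
    {G : Type*} [Group G] [MulAction G X] (a : Act G N)
    (hP : ∀ g : G, MeasurePreserving (fun x : X => g • x) P P)
    {I : Fin m → Type*} [∀ r, MulAction G (I r)] [∀ r, Countable (I r)]
    (ε : ∀ r, I r → X → ℝ)
    (hεm : ∀ r i, Measurable (ε r i)) (hε : ∀ (g : G) r i x, ε r (g • i) (g • x) = ε r i x)
    (h : ∀ r, I r → V N → Mt N) (hc : ∀ r i, IsClosed2 (h r i))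
    (he : ∀ (g : G) r i y, pull2 (a.act g) (h r (g • i)) y = h r i y)
    (H : Fin m → Fin N × Fin N → X → V N → ℝ) (hH : ∀ r, IsSer P (ε r) (comp (h r)) (H r))
    (S : Finset (Fin m)) : Rand P a (fun x y => ∑ r ∈ S, matOf (H r) x y) := by
  have hm : ∀ r c, Measurable fun p : X × V N => H r c p.1 p.2 := by
    intro r c
    obtain ⟨s, A, hA, hl⟩ := (hH r).approx
    have hs : ∀ (c : Fin N × Fin N) (i : I r), ContDiff ℝ ∞ (comp (h r) c i) := fun c i =>
      (hc r i).smooth c.1 c.2
    exact pds_meas (hεm r) hs hA hl c []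
  have hq : ∀ r c y, Measurable fun x => H r c x y := fun r c y =>
    (hm r c).comp (measurable_id.prodMk measurable_const)
  have he' : ∀ r (γ : G), ∀ᵐ x ∂P, ∀ y, pull2 (a.act γ) (matOf (H r) (γ • x)) y =
      matOf (H r) x y := fun r γ =>
    equi_matOf a hP (hεm r) (fun g i x => hε g r i x) (hc r) (fun g i y => he g r i y) (hH r)
      (hq r) γ
  have key : ∀ r, Rand P a (matOf (H r)) := by
    intro r
    refine ⟨fun x => isClosed2_matOf (hc r) (hH r) x, fun μ ν => hm r (μ, ν), he' r,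
      fun ρ k => ?_⟩
    obtain ⟨L, h1, h2, h3, h4⟩ := (hH r).mom ρ k
    exact ⟨L, h1, h2, h3, fun x j hj μ ν y hy => h4 (μ, ν) x j hj y hy⟩
  exact Rand.sum (Ω := fun r => matOf (H r)) S key

end Pool.Agent.Lib.MP_df705a_gt.RL
end
end

section

/-!
TASK S18A (theorems integral_prod_partial). The expectation of the product of the random series.

PROOFS.
* `integral_prod_partial`: `∏_r ∑_{i ∈ s (b r)} ε_{r,i}(x) f_r(i) = ∑_{g ∈ piFinset (fun r => s (b r))}
  ∏_r ε_{r, g r}(x) f_r(g r)` (`Finset.prod_univ_sum`), `Finset.prod_mul_distrib`, integrate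
  (`integral_finset_sum`, all functions bounded and measurable), `XX.integral_prod_eps`: only the
  `g` with `b r = b r' → ⟨b r, g r⟩ = ⟨b r', g r'⟩` survive. These are exactly the
  `g = fun r => i (b r)`, `i ∈ piFinset s`, and `i ↦ (fun r => i (b r))` is injective because `b` is
  surjective (`Finset.sum_bij` / `Finset.sum_nbij'`; inverse: `i j = h ▸ g r` for a chosen `r` with
  `b r = j`, `Function.surjInv hb`; use `Sigma.mk.inj_iff` and `HEq`, or write the survivors as the
  image of `piFinset s` and use `Finset.sum_image`).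
* `summable_prod`: for `j : J` and `i : I j` let `φ r ⟨j,i⟩ = if h : b r = j then f r (h ▸ i) else 1`
  (so `φ r ⟨b r, i⟩ = f r i`) and `g j i = ∏_{r with b r = j} |φ r ⟨j,i⟩|`. Then
  `∏_r |f r (i (b r))| = ∏_j g j (i j)` (`Finset.prod_fiberwise`), and for
  `s : ∀ j, Finset (I j)`: `∑_{i ∈ piFinset s} ∏_j g j (i j) = ∏_j ∑_{i ∈ s j} g j i ≤ ∏_j C j` where
  `C j` bounds all finite sums of `g j`: if `I j` is finite it is the full sum. If there are
  `r₁ ≠ r₂` in the block: `g j i = |φ r₁||φ r₂| ∏_{other} |φ r| ≤ (φ r₁² + φ r₂²) M` because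
  `φ r ^2 ≤ C_r` (a single term of the sum of squares, `hf`). Every finset of `∀ j, I j` is contained
  in a `piFinset s` (`s j = image of the projection`). `summable_of_sum_le` for the absolute values,
  `Summable.of_norm` / `Summable.of_abs`.
* `hasSum_prod`: by `TendsAll.prod` (over `Finset.univ : Finset (Fin m)`), `TendsAll.comp_tendsto`
  (`s ↦ s (b r)` tends to `atTop`: `tendsto_atTop_atTop` with `Function.update (fun _ => ∅) (b r) t`),
  `TendsAll.integral` and `integral_prod_partial`: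
  `∑_{i ∈ piFinset s} ∏_r f r (i (b r)) → ∫ ∏_r W r` along `atTop` on `∀ j, Finset (I j)`. Since the
  family is summable, the same sums tend to its `tsum` (`s ↦ piFinset s` tends to `atTop`); the limits
  agree (`tendsto_nhds_unique`), so `Summable.hasSum` gives the claim.
-/

open scoped ContDiff InnerProductSpace Matrix
open MeasureTheory Filter Topology

noncomputable section

namespace Pool.Agent.Lib.MP_df705a_gt.RL

universe u

variable {m : ℕ} {J : Type} [DecidableEq J] [Fintype J] {b : Fin m → J} {I : J → Type u}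

omit [Fintype J] in
theorem S18A_meas_eps (r : Fin m) (i : I (b r)) : Measurable (XX.eps (b := b) (I := I) r i) :=
  (Measurable.of_discrete (f := KK.sg (b := b) r)).comp
    (measurable_pi_apply (X := fun _ : Σ j, I j => KK b) (⟨b r, i⟩ : Σ j, I j))

theorem S18A_int_prod (g : ∀ r : Fin m, I (b r)) :
    Integrable (fun x => ∏ r, XX.eps r (g r) x) (XX.prob b I) := by
  refine Integrable.of_bound (C := 1) ?_ ?_
  · exact (Finset.measurable_prod _ fun r _ => S18A_meas_eps r (g r)).aestronglyMeasurable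
  · refine Filter.Eventually.of_forall fun x => ?_
    rw [Real.norm_eq_abs, Finset.abs_prod]
    simp [XX.abs_eps]

omit [DecidableEq J] [Fintype J] in
theorem S18A_cast {r : Fin m} {j : J} (h : b r = j) (g : ∀ r : Fin m, I (b r)) (a : I j)
    (e : (⟨j, a⟩ : Σ j, I j) = ⟨b r, g r⟩) : h ▸ g r = a := by
  subst h
  simpa using e.symm

theorem integral_prod_partial (hb : Function.Surjective b) (f : ∀ r : Fin m, I (b r) → ℝ)
    (s : ∀ j, Finset (I j)) :
    ∫ x, ∏ r, ∑ i ∈ s (b r), XX.eps r i x * f r i ∂XX.prob b I =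
      ∑ i ∈ Fintype.piFinset s, ∏ r, f r (i (b r)) := by
  classical
  have h1 : ∀ x : XX b I, ∏ r, ∑ i ∈ s (b r), XX.eps r i x * f r i =
      ∑ g ∈ Fintype.piFinset (fun r => s (b r)),
        (∏ r, XX.eps r (g r) x) * ∏ r, f r (g r) := by
    intro x
    rw [Finset.prod_univ_sum]
    refine Finset.sum_congr rfl fun g _ => ?_
    rw [Finset.prod_mul_distrib]
  have h2 : (∫ x, ∏ r, ∑ i ∈ s (b r), XX.eps r i x * f r i ∂XX.prob b I) =
      ∑ g ∈ Fintype.piFinset (fun r => s (b r)),
        (∫ x, ∏ r, XX.eps r (g r) x ∂XX.prob b I) * ∏ r, f r (g r) := by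
    simp_rw [h1]
    rw [integral_finsetSum]
    · refine Finset.sum_congr rfl fun g _ => ?_
      rw [integral_mul_const]
    · intro g _
      exact (S18A_int_prod g).mul_const _
  rw [h2]
  simp_rw [XX.integral_prod_eps, ite_mul, one_mul, zero_mul]
  rw [← Finset.sum_filter]
  have h3 : ((Fintype.piFinset (fun r => s (b r))).filter fun g : ∀ r : Fin m, I (b r) =>
      ∀ r r', b r = b r' → (⟨b r, g r⟩ : Σ j, I j) = ⟨b r', g r'⟩) =
      (Fintype.piFinset s).image (fun i r => i (b r)) := by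
    ext g
    simp only [Finset.mem_filter, Fintype.mem_piFinset, Finset.mem_image]
    constructor
    · rintro ⟨hg, hc⟩
      choose ρ hρ using hb
      have key : ∀ r, (hρ (b r)) ▸ g (ρ (b r)) = g r := fun r =>
        S18A_cast (hρ (b r)) g (g r) (hc r (ρ (b r)) (hρ (b r)).symm)
      refine ⟨fun j => hρ j ▸ g (ρ j), fun j => ?_, funext fun r => key r⟩
      obtain ⟨r, rfl⟩ : ∃ r, b r = j := ⟨ρ j, hρ j⟩
      have hgr := hg r
      rw [← key r] at hgr
      exact hgr
    · rintro ⟨i, hi, rfl⟩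
      refine ⟨fun r => hi (b r), fun r r' h => ?_⟩
      show (⟨b r, i (b r)⟩ : Σ j, I j) = ⟨b r', i (b r')⟩
      rw [h]
  rw [h3, Finset.sum_image]
  intro i _ i' _ h
  funext j
  obtain ⟨r, rfl⟩ := hb j
  exact congrFun h r

end Pool.Agent.Lib.MP_df705a_gt.RL
end
end

section

/-!
TASK S18C (theorems hasSum_prod). The expectation of the product of the random series.

PROOFS.
* `integral_prod_partial`: `∏_r ∑_{i ∈ s (b r)} ε_{r,i}(x) f_r(i) = ∑_{g ∈ piFinset (fun r => s (b r))}
  ∏_r ε_{r, g r}(x) f_r(g r)` (`Finset.prod_univ_sum`), `Finset.prod_mul_distrib`, integrate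
  (`integral_finset_sum`, all functions bounded and measurable), `XX.integral_prod_eps`: only the
  `g` with `b r = b r' → ⟨b r, g r⟩ = ⟨b r', g r'⟩` survive. These are exactly the
  `g = fun r => i (b r)`, `i ∈ piFinset s`, and `i ↦ (fun r => i (b r))` is injective because `b` is
  surjective (`Finset.sum_bij` / `Finset.sum_nbij'`; inverse: `i j = h ▸ g r` for a chosen `r` with
  `b r = j`, `Function.surjInv hb`; use `Sigma.mk.inj_iff` and `HEq`, or write the survivors as the
  image of `piFinset s` and use `Finset.sum_image`).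
* `summable_prod`: for `j : J` and `i : I j` let `φ r ⟨j,i⟩ = if h : b r = j then f r (h ▸ i) else 1`
  (so `φ r ⟨b r, i⟩ = f r i`) and `g j i = ∏_{r with b r = j} |φ r ⟨j,i⟩|`. Then
  `∏_r |f r (i (b r))| = ∏_j g j (i j)` (`Finset.prod_fiberwise`), and for
  `s : ∀ j, Finset (I j)`: `∑_{i ∈ piFinset s} ∏_j g j (i j) = ∏_j ∑_{i ∈ s j} g j i ≤ ∏_j C j` where
  `C j` bounds all finite sums of `g j`: if `I j` is finite it is the full sum. If there are
  `r₁ ≠ r₂` in the block: `g j i = |φ r₁||φ r₂| ∏_{other} |φ r| ≤ (φ r₁² + φ r₂²) M` because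
  `φ r ^2 ≤ C_r` (a single term of the sum of squares, `hf`). Every finset of `∀ j, I j` is contained
  in a `piFinset s` (`s j = image of the projection`). `summable_of_sum_le` for the absolute values,
  `Summable.of_norm` / `Summable.of_abs`.
* `hasSum_prod`: by `TendsAll.prod` (over `Finset.univ : Finset (Fin m)`), `TendsAll.comp_tendsto`
  (`s ↦ s (b r)` tends to `atTop`: `tendsto_atTop_atTop` with `Function.update (fun _ => ∅) (b r) t`),
  `TendsAll.integral` and `integral_prod_partial`: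
  `∑_{i ∈ piFinset s} ∏_r f r (i (b r)) → ∫ ∏_r W r` along `atTop` on `∀ j, Finset (I j)`. Since the
  family is summable, the same sums tend to its `tsum` (`s ↦ piFinset s` tends to `atTop`); the limits
  agree (`tendsto_nhds_unique`), so `Summable.hasSum` gives the claim.
-/

open scoped ContDiff InnerProductSpace Matrix
open MeasureTheory Filter Topology

noncomputable section

namespace Pool.Agent.Lib.MP_df705a_gt.RL

universe u

variable {m : ℕ} {J : Type} [DecidableEq J] [Fintype J] {b : Fin m → J} {I : J → Type u}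

theorem hasSum_prod (hb : Function.Surjective b)
    (hI : ∀ j, Finite (I j) ∨ ∃ r r' : Fin m, r ≠ r' ∧ b r = j ∧ b r' = j)
    (f : ∀ r : Fin m, I (b r) → ℝ)
    (hf : ∀ r, ∃ C : ℝ, ∀ s : Finset (I (b r)), ∑ i ∈ s, f r i ^ 2 ≤ C)
    (W : Fin m → XX b I → ℝ)
    (hW : ∀ r, TendsAll (XX.prob b I) atTop
      (fun (s : Finset (I (b r))) x => ∑ i ∈ s, XX.eps r i x * f r i) (W r)) :
    HasSum (fun i : ∀ j, I j => ∏ r, f r (i (b r))) (∫ x, ∏ r, W r x ∂XX.prob b I) := by
  classical
  have hsum := (summable_prod hI f hf).hasSum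
  have t1 : Tendsto (fun s : ∀ j, Finset (I j) => ∫ x, ∏ r, ∑ i ∈ s (b r), XX.eps r i x * f r i
      ∂XX.prob b I) atTop (𝓝 (∫ x, ∏ r, W r x ∂XX.prob b I)) := by
    have h := TendsAll.prod (P := XX.prob b I) (l := (atTop : Filter (∀ j, Finset (I j))))
      (Finset.univ : Finset (Fin m))
      (Z := fun r s x => ∑ i ∈ s (b r), XX.eps r i x * f r i) (W := W) (fun r _ => by
        refine (hW r).comp_tendsto (φ := fun s : ∀ j, Finset (I j) => s (b r)) ?_
        refine tendsto_atTop_atTop.2 fun t => ⟨Function.update (fun _ => ∅) (b r) t, fun s hs => ?_⟩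
        have := hs (b r)
        rwa [Function.update_self] at this)
    exact h.integral
  have t2 : Tendsto (fun s : ∀ j, Finset (I j) => Fintype.piFinset s) atTop atTop := by
    refine tendsto_atTop_atTop.2 fun T => ⟨fun j => T.image fun i => i j, fun s hs => ?_⟩
    intro i hi
    rw [Fintype.mem_piFinset]
    intro j
    exact hs j (Finset.mem_image_of_mem (fun i : ∀ j, I j => i j) hi)
  have t3 : Tendsto (fun s : ∀ j, Finset (I j) => ∫ x, ∏ r, ∑ i ∈ s (b r), XX.eps r i x * f r i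
      ∂XX.prob b I) atTop (𝓝 (∑' i : ∀ j, I j, ∏ r, f r (i (b r)))) := by
    simp_rw [integral_prod_partial hb f]
    have hsum' : Tendsto (fun T : Finset (∀ j, I j) => ∑ i ∈ T, ∏ r, f r (i (b r))) atTop
        (𝓝 (∑' i : ∀ j, I j, ∏ r, f r (i (b r)))) := hsum
    exact hsum'.comp t2
  rw [tendsto_nhds_unique t1 t3]
  exact hsum

end Pool.Agent.Lib.MP_df705a_gt.RL
end
end

section

/-!
TASK S19. The expectation of `pf`.

PROOF. `tendsAll_of_isSer`: `measZ, measW`: hypotheses / finite sums; `finZ`: bounded measurable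
functions on a probability space; `finW`: `|H c x y| ≤ L x` (`hH.mom` with `r = ‖y‖`, `k = 0`,
`norm_iteratedFDeriv_zero`), `L ^ p` integrable (`eLpNorm_mono`, `MemLp`); `lim`: `hH.lim`.
`hasSum_pf`: `pf (fun r => matOf (H r) x y) = ∑ σ, sign σ * ∏ r, H r (σ 2r, σ (2r+1)) x y`
(definition, `matOf` is `rfl`). For each `σ` apply `hasSum_prod` with
`f r i = h r i y (σ 2r) (σ (2r+1))` and `W r x = H r (σ 2r, σ (2r+1)) x y` (`tendsAll_of_isSer`);
`hf` from `hsq` with `l = []`. `HasSum.mul_left`, `hasSum_sum` over `σ`; `integral_finsetSum`,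
`integral_const_mul` (integrable: `∏ r, W r` is bounded by `∏ L_r`; or `TendsAll.prod` gives
`finW` with `p = 1`).
-/

open scoped ContDiff InnerProductSpace Matrix
open MeasureTheory Filter Topology

noncomputable section

namespace Pool.Agent.Lib.MP_df705a_gt.RL

universe u

variable {m : ℕ}

theorem S19_memLp_of_pow {X : Type*} [MeasurableSpace X] {P : Measure X} [IsProbabilityMeasure P]
    {f L : X → ℝ} (hf : Measurable f) (hL : Measurable L) (h1 : ∀ x, 1 ≤ L x)
    (hp : ∀ p : ℕ, Integrable (fun x => L x ^ p) P) (hfL : ∀ x, |f x| ≤ L x) (p : ℕ) :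
    eLpNorm f p P ≠ ⊤ := by
  rcases Nat.eq_zero_or_pos p with rfl | hp0
  · simp
  have hle : eLpNorm f p P ≤ eLpNorm L p P := by
    apply eLpNorm_mono
    intro x
    rw [Real.norm_eq_abs, Real.norm_eq_abs, abs_of_nonneg (zero_le_one.trans (h1 x))]
    exact hfL x
  refine ne_top_of_le_ne_top ?_ hle
  have hmem : MemLp L p P := by
    have h0 : (p : ENNReal) ≠ 0 := by exact_mod_cast hp0.ne'
    have ht : (p : ENNReal) ≠ ⊤ := ENNReal.natCast_ne_top p
    rw [← memLp_norm_rpow_iff (q := p) (p := p) hL.aestronglyMeasurable h0 ht]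
    have : (p : ENNReal) / (p : ENNReal) = 1 := ENNReal.div_self h0 ht
    rw [this, memLp_one_iff_integrable]
    have h2 := hp p
    refine h2.congr (Eventually.of_forall fun x => ?_)
    show L x ^ p = ‖L x‖ ^ ((p : ENNReal).toReal)
    rw [Real.norm_eq_abs, abs_of_nonneg (zero_le_one.trans (h1 x)), ENNReal.toReal_natCast,
      Real.rpow_natCast]
  exact hmem.2.ne

theorem tendsAll_of_isSer {N : ℕ} {κ I X : Type*} [MeasurableSpace X] {P : Measure X}
    [IsProbabilityMeasure P] {ε : I → X → ℝ} {h : κ → I → V N → ℝ} {H : κ → X → V N → ℝ}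
    (hεm : ∀ i, Measurable (ε i)) (hεb : ∀ i x, |ε i x| ≤ 1) (hH : IsSer P ε h H)
    (hHm : ∀ c y, Measurable fun x => H c x y) (c : κ) (y : V N) :
    TendsAll P atTop (fun (s : Finset I) x => ∑ i ∈ s, ε i x * h c i y) (fun x => H c x y) where
  measZ s := by
    refine Finset.measurable_sum s fun i _ => ?_
    exact (hεm i).mul_const _
  measW := hHm c y
  finZ s p := by
    have hm : Measurable fun x => ∑ i ∈ s, ε i x * h c i y :=
      Finset.measurable_sum s fun i _ => (hεm i).mul_const _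
    have hb : ∀ x, |∑ i ∈ s, ε i x * h c i y| ≤ 1 + ∑ i ∈ s, |h c i y| := by
      intro x
      refine (Finset.abs_sum_le_sum_abs _ _).trans ?_
      have : ∑ i ∈ s, |ε i x * h c i y| ≤ ∑ i ∈ s, |h c i y| := by
        refine Finset.sum_le_sum fun i _ => ?_
        rw [abs_mul]
        exact mul_le_of_le_one_left (abs_nonneg _) (hεb i x)
      linarith
    refine S19_memLp_of_pow (L := fun _ => 1 + ∑ i ∈ s, |h c i y|) hm measurable_const ?_ ?_ hb p
    · intro x
      have : 0 ≤ ∑ i ∈ s, |h c i y| := Finset.sum_nonneg fun i _ => abs_nonneg _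
      linarith
    · intro p
      exact integrable_const _
  finW p := by
    obtain ⟨L, hL, h1, hp, hb⟩ := hH.mom ‖y‖ 0
    refine S19_memLp_of_pow (hHm c y) hL h1 hp (fun x => ?_) p
    have := hb c x 0 le_rfl y le_rfl
    rwa [norm_iteratedFDeriv_zero, Real.norm_eq_abs] at this
  lim p := hH.lim c y p

variable {J : Type} [DecidableEq J] [Fintype J] {b : Fin m → J} {I : J → Type u}

theorem hasSum_pf (hb : Function.Surjective b)
    (hI : ∀ j, Finite (I j) ∨ ∃ r r' : Fin m, r ≠ r' ∧ b r = j ∧ b r' = j)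
    (h : ∀ r : Fin m, I (b r) → V (2 * m) → Mt (2 * m))
    (hsq : ∀ r, SqBdd (comp (h r)))
    (H : Fin m → Fin (2 * m) × Fin (2 * m) → XX b I → V (2 * m) → ℝ)
    (hH : ∀ r, IsSer (XX.prob b I) (fun i : I (b r) => XX.eps r i) (comp (h r)) (H r))
    (hHm : ∀ r c y, Measurable fun x => H r c x y) (y : V (2 * m)) :
    HasSum (fun i : ∀ j, I j => pf (fun r => h r (i (b r)) y))
      (∫ x, pf (fun r => matOf (H r) x y) ∂XX.prob b I) := by
  have hT : ∀ r c, TendsAll (XX.prob b I) atTop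
      (fun (s : Finset (I (b r))) x => ∑ i ∈ s, XX.eps r i x * comp (h r) c i y)
      (fun x => H r c x y) := fun r c =>
    tendsAll_of_isSer (fun i => XX.measurable_eps r i) (fun i x => (XX.abs_eps r i x).le) (hH r)
      (hHm r) c y
  have hP : ∀ σ : Equiv.Perm (Fin (2 * m)),
      HasSum (fun i : ∀ j, I j => ∏ r : Fin m, h r (i (b r)) y (σ ⟨2 * r, by omega⟩)
        (σ ⟨2 * r + 1, by omega⟩))
      (∫ x, ∏ r : Fin m, H r (σ ⟨2 * r, by omega⟩, σ ⟨2 * r + 1, by omega⟩) x y
        ∂XX.prob b I) := by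
    intro σ
    refine hasSum_prod hb hI (fun r i => h r i y (σ ⟨2 * r, by omega⟩)
        (σ ⟨2 * r + 1, by omega⟩)) (fun r => ?_)
      (fun r x => H r (σ ⟨2 * r, by omega⟩, σ ⟨2 * r + 1, by omega⟩) x y) (fun r => ?_)
    · obtain ⟨C, hC⟩ := hsq r (σ ⟨2 * r, by omega⟩, σ ⟨2 * r + 1, by omega⟩) [] ‖y‖
      exact ⟨C, fun s => hC y le_rfl s⟩
    · exact hT r (σ ⟨2 * r, by omega⟩, σ ⟨2 * r + 1, by omega⟩)
  have hint : ∀ σ : Equiv.Perm (Fin (2 * m)), Integrable (fun x =>
      ((Equiv.Perm.sign σ : ℤ) : ℝ) * ∏ r : Fin m,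
        H r (σ ⟨2 * r, by omega⟩, σ ⟨2 * r + 1, by omega⟩) x y) (XX.prob b I) := by
    intro σ
    refine Integrable.const_mul ?_ _
    have h1 := TendsAll.prod (P := XX.prob b I) (l := (atTop : Filter (∀ j, Finset (I j))))
      (Finset.univ : Finset (Fin m))
      (Z := fun r s x => ∑ i ∈ s (b r), XX.eps r i x *
        comp (h r) (σ ⟨2 * r, by omega⟩, σ ⟨2 * r + 1, by omega⟩) i y)
      (W := fun r x => H r (σ ⟨2 * r, by omega⟩, σ ⟨2 * r + 1, by omega⟩) x y)
      (fun r _ => by
        refine TendsAll.comp_tendsto (φ := fun s : ∀ j, Finset (I j) => s (b r)) ?_ (hT r _)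
        classical
        refine tendsto_atTop_atTop.2 fun t => ⟨Function.update (fun _ => ∅) (b r) t,
          fun s hs => ?_⟩
        have := hs (b r)
        simpa using this)
    have h2 := h1.finW 1
    have h3 := h1.measW
    rw [← memLp_one_iff_integrable]
    refine ⟨h3.aestronglyMeasurable, ?_⟩
    have : ((1 : ℕ) : ENNReal) = 1 := by norm_num
    rw [this] at h2
    exact lt_top_iff_ne_top.2 h2
  have hI2 : ∫ x, pf (fun r => matOf (H r) x y) ∂XX.prob b I =
      ∑ σ : Equiv.Perm (Fin (2 * m)), ((Equiv.Perm.sign σ : ℤ) : ℝ) *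
        ∫ x, ∏ r : Fin m, H r (σ ⟨2 * r, by omega⟩, σ ⟨2 * r + 1, by omega⟩) x y
          ∂XX.prob b I := by
    have : ∀ x, pf (fun r => matOf (H r) x y) = ∑ σ : Equiv.Perm (Fin (2 * m)),
        ((Equiv.Perm.sign σ : ℤ) : ℝ) * ∏ r : Fin m,
          H r (σ ⟨2 * r, by omega⟩, σ ⟨2 * r + 1, by omega⟩) x y := fun x => rfl
    simp_rw [this]
    rw [integral_finsetSum _ fun σ _ => hint σ]
    refine Finset.sum_congr rfl fun σ _ => ?_
    rw [integral_const_mul]
  rw [hI2]
  exact hasSum_sum fun σ _ => (hP σ).mul_left _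

end Pool.Agent.Lib.MP_df705a_gt.RL
end
end
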