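import Mathlib
import Pool.Agent.Lib.MP_df705a_gt.Mg.G030

section

/-!
# RL2, G1: measurable families of bounded operators
-/

open scoped ContDiff InnerProductSpace Matrix ENNReal Topology
open MeasureTheory Filter

noncomputable section

namespace Pool.Agent.Lib.MP_df705a_gt.RL

variable {X : Type*} [MeasurableSpace X]
  {H K L : Type*} [NormedAddCommGroup H] [InnerProductSpace ℂ H] [CompleteSpace H]
  [TopologicalSpace.SeparableSpace H]
  [NormedAddCommGroup K] [InnerProductSpace ℂ K] [CompleteSpace K]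
  [TopologicalSpace.SeparableSpace K]
  [NormedAddCommGroup L] [InnerProductSpace ℂ L] [CompleteSpace L]
  [TopologicalSpace.SeparableSpace L]

/-- Measurable families of bounded operators. -/
def OM (A : X → H →L[ℂ] K) : Prop := ∀ v, StronglyMeasurable fun x => A x v

omit [CompleteSpace H] [TopologicalSpace.SeparableSpace H] [CompleteSpace K]
  [TopologicalSpace.SeparableSpace K] in
theorem OM.const (A : H →L[ℂ] K) : OM fun _ : X => A := fun _ => stronglyMeasurable_const

omit [CompleteSpace H] [TopologicalSpace.SeparableSpace H] [CompleteSpace K]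
  [TopologicalSpace.SeparableSpace K] in
theorem OM.add {A B : X → H →L[ℂ] K} (hA : OM A) (hB : OM B) : OM fun x => A x + B x :=
  fun v => (hA v).add (hB v)

omit [CompleteSpace H] [TopologicalSpace.SeparableSpace H] [CompleteSpace K]
  [TopologicalSpace.SeparableSpace K] in
theorem OM.sub {A B : X → H →L[ℂ] K} (hA : OM A) (hB : OM B) : OM fun x => A x - B x :=
  fun v => (hA v).sub (hB v)

omit [CompleteSpace H] [TopologicalSpace.SeparableSpace H] [CompleteSpace K]
  [TopologicalSpace.SeparableSpace K] in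
theorem OM.smul {A : X → H →L[ℂ] K} (hA : OM A) (c : ℂ) : OM fun x => c • A x :=
  fun v => (hA v).const_smul c

omit [CompleteSpace H] in
private theorem G1_countable {ι : Type*} {b : ι → H} (hb : Orthonormal ℂ b) : Countable ι := by
  refine Pairwise.countable_of_isOpen_disjoint (s := fun i => Metric.ball (b i) (1 / 2)) ?_
    (fun i => Metric.isOpen_ball) (fun i => Metric.nonempty_ball.2 (by norm_num))
  intro i j hij
  change Disjoint (Metric.ball (b i) (1 / 2)) (Metric.ball (b j) (1 / 2))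
  apply Metric.ball_disjoint_ball
  rw [dist_eq_norm]
  have h1 := norm_sub_sq (𝕜 := ℂ) (b i) (b j)
  rw [hb.2 hij, hb.1 i, hb.1 j, map_zero] at h1
  nlinarith [norm_nonneg (b i - b j)]

/-- A function which is weakly measurable with values in a separable Hilbert space is strongly
measurable: it is the pointwise limit of the partial sums of its expansion in a countable Hilbert
basis (`exists_hilbertBasis`; orthonormal sets in separable spaces are countable). -/
theorem stronglyMeasurable_of_inner {f : X → H} (h : ∀ u, Measurable fun x => ⟪u, f x⟫_ℂ) :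
    StronglyMeasurable f := by
  obtain ⟨w, b, hb⟩ := exists_hilbertBasis ℂ H
  have : Countable w := G1_countable b.orthonormal
  refine stronglyMeasurable_of_tendsto (atTop : Filter (Finset w))
    (f := fun s x => ∑ i ∈ s, ⟪b i, f x⟫_ℂ • b i) (fun s => ?_) (tendsto_pi_nhds.2 fun x => ?_)
  · exact Finset.stronglyMeasurable_fun_sum _ fun i _ =>
      (h (b i)).stronglyMeasurable.smul_const (b i)
  · have h1 := b.hasSum_repr (f x)
    simp only [b.repr_apply_apply] at h1
    exact h1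

theorem OM.of_inner {A : X → H →L[ℂ] K} (h : ∀ u v, Measurable fun x => ⟪u, A x v⟫_ℂ) : OM A :=
  fun v => stronglyMeasurable_of_inner fun u => h u v

/-- Caratheodory functions: `(x, u) ↦ A x u` is measurable in `x` and continuous in `u`
(`stronglyMeasurable_uncurry_of_continuous_of_stronglyMeasurable`). -/
theorem OM.apply {A : X → H →L[ℂ] K} (hA : OM A) {u : X → H} (hu : StronglyMeasurable u) :
    StronglyMeasurable fun x => A x (u x) := by
  borelize H
  have : SecondCountableTopology H := UniformSpace.secondCountable_of_separable H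
  have h1 : StronglyMeasurable (Function.uncurry fun (v : H) (x : X) => A x v) :=
    stronglyMeasurable_uncurry_of_continuous_of_stronglyMeasurable
      (fun x => (A x).continuous) (fun v => hA v)
  exact h1.comp_measurable (hu.measurable.prodMk measurable_id)

theorem OM.comp {A : X → K →L[ℂ] L} {B : X → H →L[ℂ] K} (hA : OM A) (hB : OM B) :
    OM fun x => (A x).comp (B x) :=
  fun v => hA.apply (hB v)

theorem OM.mul {A B : X → H →L[ℂ] H} (hA : OM A) (hB : OM B) : OM fun x => A x * B x :=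
  hA.comp hB

theorem OM.adj {A : X → H →L[ℂ] K} (hA : OM A) : OM fun x => ContinuousLinearMap.adjoint (A x) := by
  refine OM.of_inner fun u v => ?_
  simp only [ContinuousLinearMap.adjoint_inner_right]
  exact ((hA u).inner stronglyMeasurable_const).measurable

omit [CompleteSpace H] [TopologicalSpace.SeparableSpace H] [CompleteSpace K]
  [TopologicalSpace.SeparableSpace K] in
theorem OM.lim {A : ℕ → X → H →L[ℂ] K} {A' : X → H →L[ℂ] K} (h : ∀ n, OM (A n))
    (hl : ∀ x v, Tendsto (fun n => A n x v) atTop (𝓝 (A' x v))) : OM A' := fun v =>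
  stronglyMeasurable_of_tendsto atTop (fun n => h n v)
    (tendsto_pi_nhds.2 fun x => hl x v)

theorem OM.pow {A : X → H →L[ℂ] H} (hA : OM A) (n : ℕ) : OM fun x => A x ^ n := by
  induction n with
  | zero =>
    simp only [pow_zero]
    exact OM.const 1
  | succ n ih =>
    simp only [pow_succ]
    exact ih.mul hA

/-- Polynomials: `Polynomial.aeval` with real coefficients. -/
theorem OM.aeval {A : X → H →L[ℂ] H} (hA : OM A) (p : Polynomial ℝ) :
    OM fun x => Polynomial.aeval (A x) p := by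
  intro v
  have e : (fun x => (Polynomial.aeval (A x) p) v) = fun x =>
      ∑ i ∈ Finset.range (p.natDegree + 1), p.coeff i • (A x ^ i) v := by
    funext x
    rw [Polynomial.aeval_eq_sum_range, sum_apply]
    rfl
  rw [e]
  exact Finset.stronglyMeasurable_fun_sum _ fun i _ => (hA.pow i v).const_smul (p.coeff i)

/-- The continuous functional calculus: `f` is a uniform limit of polynomials on `[0, 1]`
(Weierstrass: `exists_polynomial_near_of_continuousOn`), `cfc_polynomial`/`cfc_aeval`,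
`norm_cfc_le`. -/
theorem OM.cfc {R : X → H →L[ℂ] H} (hR : OM R) (sa : ∀ x, IsSelfAdjoint (R x))
    (sp : ∀ x, spectrum ℝ (R x) ⊆ Set.Icc 0 1) {f : ℝ → ℝ}
    (hf : ContinuousOn f (Set.Icc 0 1)) : OM fun x => cfc f (R x) := by
  choose p hp using fun n : ℕ => exists_polynomial_near_of_continuousOn 0 1 f hf (1 / ((n : ℝ) + 1))
    (by positivity)
  refine OM.lim (A := fun n x => Polynomial.aeval (R x) (p n)) (fun n => hR.aeval (p n))
    fun x v => ?_
  have hb : ∀ n, ‖Polynomial.aeval (R x) (p n) - _root_.cfc f (R x)‖ ≤ 1 / ((n : ℝ) + 1) := by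
    intro n
    have e1 : Polynomial.aeval (R x) (p n) = _root_.cfc (p n).eval (R x) :=
      (cfc_polynomial (p n) (R x) (sa x)).symm
    have hcf : ContinuousOn f (spectrum ℝ (R x)) := hf.mono (sp x)
    rw [e1, ← cfc_sub (p n).eval f (R x) (p n).continuous.continuousOn hcf]
    refine norm_cfc_le (by positivity) fun y hy => ?_
    rw [Real.norm_eq_abs]
    exact (hp n y (sp x hy)).le
  have h0 : Tendsto (fun n : ℕ => 1 / ((n : ℝ) + 1) * ‖v‖) atTop (𝓝 0) := by
    have := tendsto_one_div_add_atTop_nhds_zero_nat (𝕜 := ℝ) |>.mul_const ‖v‖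
    rwa [zero_mul] at this
  rw [tendsto_iff_norm_sub_tendsto_zero]
  refine squeeze_zero (fun n => norm_nonneg _) (fun n => ?_) h0
  rw [← ContinuousLinearMap.sub_apply]
  exact ((Polynomial.aeval (R x) (p n) - _root_.cfc f (R x)).le_opNorm v).trans
    (mul_le_mul_of_nonneg_right (hb n) (norm_nonneg v))

end Pool.Agent.Lib.MP_df705a_gt.RL
end
end

section

/-!
# RL2 parametrix: functions with all moments, the rings of coefficients
-/

open scoped ContDiff InnerProductSpace Matrix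
open MeasureTheory

noncomputable section

set_option linter.unusedSectionVars false

namespace Pool.Agent.Lib.MP_df705a_gt.RL

variable {X : Type*} [MeasurableSpace X] {P : Measure X} {N : ℕ}

/-- A nonnegative measurable function with all moments. -/
structure Mom (P : Measure X) (Φ : X → ℝ) : Prop where
  meas : Measurable Φ
  nonneg : ∀ x, 0 ≤ Φ x
  int : ∀ k : ℕ, Integrable (fun x => Φ x ^ k) P

theorem Mom.const [IsFiniteMeasure P] {c : ℝ} (hc : 0 ≤ c) : Mom P fun _ => c :=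
  ⟨measurable_const, fun _ => hc, fun _ => integrable_const _⟩

theorem Mom.add {Φ Ψ : X → ℝ} (h : Mom P Φ) (h' : Mom P Ψ) : Mom P fun x => Φ x + Ψ x := by
  refine ⟨h.meas.add h'.meas, fun x => add_nonneg (h.nonneg x) (h'.nonneg x), fun k => ?_⟩
  refine ((h.int k).add (h'.int k)).const_mul (2 ^ (k - 1)) |>.mono'
    ((h.meas.add h'.meas).pow_const k).aestronglyMeasurable
    (Filter.Eventually.of_forall fun x => ?_)
  rw [Real.norm_of_nonneg (pow_nonneg (add_nonneg (h.nonneg x) (h'.nonneg x)) k)]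
  exact add_pow_le (h.nonneg x) (h'.nonneg x) k

theorem Mom.mul {Φ Ψ : X → ℝ} (h : Mom P Φ) (h' : Mom P Ψ) : Mom P fun x => Φ x * Ψ x := by
  refine ⟨h.meas.mul h'.meas, fun x => mul_nonneg (h.nonneg x) (h'.nonneg x), fun k => ?_⟩
  refine ((h.int (2 * k)).add (h'.int (2 * k))).mono'
    ((h.meas.mul h'.meas).pow_const k).aestronglyMeasurable
    (Filter.Eventually.of_forall fun x => ?_)
  rw [Real.norm_of_nonneg (pow_nonneg (mul_nonneg (h.nonneg x) (h'.nonneg x)) k)]
  change (Φ x * Ψ x) ^ k ≤ Φ x ^ (2 * k) + Ψ x ^ (2 * k)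
  rw [mul_pow, pow_mul' (Φ x), pow_mul' (Ψ x)]
  nlinarith [sq_nonneg (Φ x ^ k - Ψ x ^ k), sq_nonneg (Φ x ^ k), sq_nonneg (Ψ x ^ k)]

theorem Mom.sum [IsFiniteMeasure P] {ι : Type*} {Φ : ι → X → ℝ} (s : Finset ι)
    (h : ∀ i ∈ s, Mom P (Φ i)) : Mom P fun x => ∑ i ∈ s, Φ i x := by
  classical
  induction s using Finset.induction_on with
  | empty => simpa using Mom.const (P := P) le_rfl
  | insert i s hi ih =>
    simp only [Finset.sum_insert hi]
    exact (h i (Finset.mem_insert_self _ _)).add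
      (ih fun j hj => h j (Finset.mem_insert_of_mem hj))

theorem Mom.pow [IsFiniteMeasure P] {Φ : X → ℝ} (h : Mom P Φ) (n : ℕ) :
    Mom P fun x => Φ x ^ n := by
  induction n with
  | zero => simpa using Mom.const (P := P) zero_le_one
  | succ n ih =>
    simp only [pow_succ]
    exact ih.mul h

theorem Mom.const_mul [IsFiniteMeasure P] {Φ : X → ℝ} (h : Mom P Φ) {c : ℝ} (hc : 0 ≤ c) :
    Mom P fun x => c * Φ x :=
  (Mom.const hc).mul h

/-- The ring of the functions of `x` and the base point `z` which are continuous in `z` and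
bounded for `‖z‖ ≤ ρ` by a function of `x` with all moments. -/
def RgS (P : Measure X) [IsProbabilityMeasure P] (N : ℕ) (ρ : ℝ) :
    Subalgebra ℂ (X → V N → ℂ) where
  carrier := {f | (∀ x, Continuous (f x)) ∧ ∃ Φ, Mom P Φ ∧ ∀ x z, ‖z‖ ≤ ρ → ‖f x z‖ ≤ Φ x}
  mul_mem' := by
    rintro f g ⟨h1, Φ, hΦ, h2⟩ ⟨h3, Ψ, hΨ, h4⟩
    refine ⟨fun x => (h1 x).mul (h3 x), _, hΦ.mul hΨ, fun x z hz => ?_⟩
    change ‖f x z * g x z‖ ≤ Φ x * Ψ x
    rw [norm_mul]
    exact mul_le_mul (h2 x z hz) (h4 x z hz) (norm_nonneg _) (hΦ.nonneg x)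
  add_mem' := by
    rintro f g ⟨h1, Φ, hΦ, h2⟩ ⟨h3, Ψ, hΨ, h4⟩
    refine ⟨fun x => (h1 x).add (h3 x), _, hΦ.add hΨ, fun x z hz => ?_⟩
    exact (norm_add_le _ _).trans (add_le_add (h2 x z hz) (h4 x z hz))
  algebraMap_mem' := fun c =>
    ⟨fun _ => continuous_const, _, Mom.const (norm_nonneg c), fun _ _ _ => le_rfl⟩

/-- The ring of coefficients, as a type. -/
def Rg (P : Measure X) [IsProbabilityMeasure P] (N : ℕ) (ρ : ℝ) : Type _ := RgS P N ρ

instance instCommRingRg (P : Measure X) [IsProbabilityMeasure P] (N : ℕ) (ρ : ℝ) :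
    CommRing (Rg P N ρ) := inferInstanceAs (CommRing (RgS P N ρ))

instance instAlgebraRg (P : Measure X) [IsProbabilityMeasure P] (N : ℕ) (ρ : ℝ) :
    Algebra ℂ (Rg P N ρ) := inferInstanceAs (Algebra ℂ (RgS P N ρ))

/-- The derivative of a family in the second variable. -/
def pv (μ : Fin N) (f : X → V N → V N → ℂ) : X → V N → V N → ℂ := fun x z v => pd μ (f x z) v

/-- Iterated derivatives. -/
def pvl : List (Fin N) → (X → V N → V N → ℂ) → X → V N → V N → ℂ
  | [], f => f
  | μ :: l, f => pvl l (pv μ f)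

/-- Smooth families: `f x z v` is smooth in the base point `z` and in `v`, and all derivatives in
`v` are bounded for `‖z‖ ≤ ρ`, `‖v‖ ≤ 1` by functions of `x` with all moments. -/
structure Fam (P : Measure X) (ρ : ℝ) (f : X → V N → V N → ℂ) : Prop where
  smooth : ∀ x, ContDiff ℝ ∞ fun p : V N × V N => f x p.1 p.2
  bd : ∀ l, ∃ Φ, Mom P Φ ∧ ∀ x z v, ‖z‖ ≤ ρ → ‖v‖ ≤ 1 → ‖pvl l f x z v‖ ≤ Φ x

variable {ρ : ℝ}

theorem Fam.smooth_v {f : X → V N → V N → ℂ} (h : Fam P ρ f) (x : X) (z : V N) :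
    ContDiff ℝ ∞ (f x z) :=
  (h.smooth x).comp (contDiff_const.prodMk contDiff_id)

theorem smooth_pv {f : X → V N → V N → ℂ}
    (h : ∀ x, ContDiff ℝ ∞ fun p : V N × V N => f x p.1 p.2) (μ : Fin N) (x : X) :
    ContDiff ℝ ∞ fun p : V N × V N => pv μ f x p.1 p.2 := by
  have h1 : ContDiff ℝ ∞ (Function.uncurry fun (p : V N × V N) (v : V N) => f x p.1 v) :=
    (h x).comp ((contDiff_fst.comp contDiff_fst).prodMk contDiff_snd)
  exact (h1.fderiv (g := fun p : V N × V N => p.2) contDiff_snd (by simp)).clm_apply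
    contDiff_const

theorem Fam.pv {f : X → V N → V N → ℂ} (h : Fam P ρ f) (μ : Fin N) : Fam P ρ (pv μ f) :=
  ⟨fun x => smooth_pv h.smooth μ x, fun l => h.bd (μ :: l)⟩

theorem smooth_v {f : X → V N → V N → ℂ}
    (h : ∀ x, ContDiff ℝ ∞ fun p : V N × V N => f x p.1 p.2) (x : X) (z : V N) :
    Differentiable ℝ (f x z) :=
  ((h x).comp (contDiff_const.prodMk contDiff_id)).differentiable (by simp)

theorem pv_add {f g : X → V N → V N → ℂ}
    (hf : ∀ x, ContDiff ℝ ∞ fun p : V N × V N => f x p.1 p.2)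
    (hg : ∀ x, ContDiff ℝ ∞ fun p : V N × V N => g x p.1 p.2) (μ : Fin N) :
    pv μ (f + g) = pv μ f + pv μ g := by
  funext x z v
  change fderiv ℝ (f x z + g x z) v (bv μ) = _
  rw [fderiv_add (smooth_v hf x z v) (smooth_v hg x z v)]
  rfl

theorem pv_mul {f g : X → V N → V N → ℂ}
    (hf : ∀ x, ContDiff ℝ ∞ fun p : V N × V N => f x p.1 p.2)
    (hg : ∀ x, ContDiff ℝ ∞ fun p : V N × V N => g x p.1 p.2) (μ : Fin N) :
    pv μ (f * g) = f * pv μ g + g * pv μ f := by
  funext x z v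
  change fderiv ℝ (f x z * g x z) v (bv μ) = _
  rw [fderiv_mul (smooth_v hf x z v) (smooth_v hg x z v)]
  rfl

theorem pvl_add (l : List (Fin N)) : ∀ {f g : X → V N → V N → ℂ},
    (∀ x, ContDiff ℝ ∞ fun p : V N × V N => f x p.1 p.2) →
    (∀ x, ContDiff ℝ ∞ fun p : V N × V N => g x p.1 p.2) →
    pvl l (f + g) = pvl l f + pvl l g := by
  induction l with
  | nil => intros; rfl
  | cons μ l ih =>
    intro f g hf hg
    change pvl l (Pool.Agent.Lib.MP_df705a_gt.RL.pv μ (f + g)) = _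
    rw [pv_add hf hg, ih (smooth_pv hf μ) (smooth_pv hg μ)]
    rfl

theorem Fam.add {f g : X → V N → V N → ℂ} (hf : Fam P ρ f) (hg : Fam P ρ g) :
    Fam P ρ (f + g) := by
  refine ⟨fun x => (hf.smooth x).add (hg.smooth x), fun l => ?_⟩
  obtain ⟨Φ, hΦ, h1⟩ := hf.bd l
  obtain ⟨Ψ, hΨ, h2⟩ := hg.bd l
  refine ⟨_, hΦ.add hΨ, fun x z v hz hv => ?_⟩
  rw [pvl_add l hf.smooth hg.smooth]
  exact (norm_add_le _ _).trans (add_le_add (h1 x z v hz hv) (h2 x z v hz hv))

theorem pvl_mul_bd (l : List (Fin N)) : ∀ {f g : X → V N → V N → ℂ}, Fam P ρ f → Fam P ρ g →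
    ∃ Φ, Mom P Φ ∧ ∀ x z v, ‖z‖ ≤ ρ → ‖v‖ ≤ 1 → ‖pvl l (f * g) x z v‖ ≤ Φ x := by
  induction l with
  | nil =>
    intro f g hf hg
    obtain ⟨Φ, hΦ, h1⟩ := hf.bd []
    obtain ⟨Ψ, hΨ, h2⟩ := hg.bd []
    refine ⟨_, hΦ.mul hΨ, fun x z v hz hv => ?_⟩
    change ‖f x z v * g x z v‖ ≤ _
    rw [norm_mul]
    exact mul_le_mul (h1 x z v hz hv) (h2 x z v hz hv) (norm_nonneg _) (hΦ.nonneg x)
  | cons μ l ih =>
    intro f g hf hg
    obtain ⟨Φ, hΦ, h1⟩ := ih hf (hg.pv μ)
    obtain ⟨Ψ, hΨ, h2⟩ := ih hg (hf.pv μ)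
    refine ⟨_, hΦ.add hΨ, fun x z v hz hv => ?_⟩
    change ‖pvl l (Pool.Agent.Lib.MP_df705a_gt.RL.pv μ (f * g)) x z v‖ ≤ _
    rw [pv_mul hf.smooth hg.smooth, pvl_add l
      (fun x => (hf.smooth x).mul ((hg.pv μ).smooth x))
      (fun x => (hg.smooth x).mul ((hf.pv μ).smooth x))]
    exact (norm_add_le _ _).trans (add_le_add (h1 x z v hz hv) (h2 x z v hz hv))

theorem Fam.mul {f g : X → V N → V N → ℂ} (hf : Fam P ρ f) (hg : Fam P ρ g) :
    Fam P ρ (f * g) :=
  ⟨fun x => (hf.smooth x).mul (hg.smooth x), fun l => pvl_mul_bd l hf hg⟩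

theorem pv_const {f : X → V N → ℂ} (μ : Fin N) :
    pv μ (fun x z (_ : V N) => f x z) = fun _ _ _ => 0 := by
  funext x z v
  change fderiv ℝ (fun _ : V N => f x z) v (bv μ) = 0
  simp

theorem pvl_zero (l : List (Fin N)) :
    pvl l (fun (_ : X) (_ : V N) (_ : V N) => (0 : ℂ)) = fun _ _ _ => 0 := by
  induction l with
  | nil => rfl
  | cons μ l ih =>
    change pvl l (Pool.Agent.Lib.MP_df705a_gt.RL.pv μ _) = _
    rw [pv_const (f := fun _ _ => 0), ih]

/-- Functions of the base point only. -/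
theorem Fam.base [IsProbabilityMeasure P] {f : X → V N → ℂ} (h : ∀ x, ContDiff ℝ ∞ (f x))
    (hb : ∃ Φ, Mom P Φ ∧ ∀ x z, ‖z‖ ≤ ρ → ‖f x z‖ ≤ Φ x) :
    Fam P ρ fun x z (_ : V N) => f x z := by
  refine ⟨fun x => (h x).comp contDiff_fst, fun l => ?_⟩
  cases l with
  | nil =>
    obtain ⟨Φ, hΦ, h1⟩ := hb
    exact ⟨Φ, hΦ, fun x z v hz _ => h1 x z hz⟩
  | cons μ l =>
    refine ⟨_, Mom.const le_rfl, fun x z v _ _ => ?_⟩
    change ‖pvl l (Pool.Agent.Lib.MP_df705a_gt.RL.pv μ _) x z v‖ ≤ 0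
    rw [pv_const, pvl_zero, norm_zero]

/-- The ring of the smooth families. -/
def FmS (P : Measure X) [IsProbabilityMeasure P] (N : ℕ) (ρ : ℝ) :
    Subalgebra ℂ (X → V N → V N → ℂ) where
  carrier := {f | Fam P ρ f}
  mul_mem' := fun hf hg => Fam.mul hf hg
  add_mem' := fun hf hg => Fam.add hf hg
  algebraMap_mem' := fun c => Fam.base (f := fun _ _ => c) (fun _ => contDiff_const)
    ⟨_, Mom.const (norm_nonneg c), fun _ _ _ => le_rfl⟩

/-- The ring of the smooth families, as a type. -/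
def Fm (P : Measure X) [IsProbabilityMeasure P] (N : ℕ) (ρ : ℝ) : Type _ := FmS P N ρ

instance instCommRingFm (P : Measure X) [IsProbabilityMeasure P] (N : ℕ) (ρ : ℝ) :
    CommRing (Fm P N ρ) := inferInstanceAs (CommRing (FmS P N ρ))

instance instAlgebraFm (P : Measure X) [IsProbabilityMeasure P] (N : ℕ) (ρ : ℝ) :
    Algebra ℂ (Fm P N ρ) := inferInstanceAs (Algebra ℂ (FmS P N ρ))

variable [IsProbabilityMeasure P]

theorem Rg.ext {f g : Rg P N ρ} (h : ∀ x z, f.1 x z = g.1 x z) : f = g :=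
  Subtype.ext (funext fun x => funext fun z => h x z)

theorem Rg.add_val (f g : Rg P N ρ) (x : X) (z : V N) : (f + g).1 x z = f.1 x z + g.1 x z := rfl
theorem Rg.sub_val (f g : Rg P N ρ) (x : X) (z : V N) : (f - g).1 x z = f.1 x z - g.1 x z := rfl
theorem Rg.neg_val (f : Rg P N ρ) (x : X) (z : V N) : (-f).1 x z = - f.1 x z := rfl
theorem Rg.mul_val (f g : Rg P N ρ) (x : X) (z : V N) : (f * g).1 x z = f.1 x z * g.1 x z := rfl
theorem Rg.zero_val (x : X) (z : V N) : (0 : Rg P N ρ).1 x z = 0 := rfl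
theorem Rg.one_val (x : X) (z : V N) : (1 : Rg P N ρ).1 x z = 1 := rfl
theorem Rg.algebraMap_val (c : ℂ) (x : X) (z : V N) :
    (algebraMap ℂ (Rg P N ρ) c).1 x z = c := rfl
theorem Rg.smul_val (c : ℂ) (f : Rg P N ρ) (x : X) (z : V N) : (c • f).1 x z = c * f.1 x z := rfl

theorem Fm.ext {f g : Fm P N ρ} (h : ∀ x z v, f.1 x z v = g.1 x z v) : f = g :=
  Subtype.ext (funext fun x => funext fun z => funext fun v => h x z v)

theorem Fm.add_val (f g : Fm P N ρ) (x : X) (z v : V N) :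
    (f + g).1 x z v = f.1 x z v + g.1 x z v := rfl
theorem Fm.sub_val (f g : Fm P N ρ) (x : X) (z v : V N) :
    (f - g).1 x z v = f.1 x z v - g.1 x z v := rfl
theorem Fm.neg_val (f : Fm P N ρ) (x : X) (z v : V N) : (-f).1 x z v = - f.1 x z v := rfl
theorem Fm.mul_val (f g : Fm P N ρ) (x : X) (z v : V N) :
    (f * g).1 x z v = f.1 x z v * g.1 x z v := rfl
theorem Fm.zero_val (x : X) (z v : V N) : (0 : Fm P N ρ).1 x z v = 0 := rfl
theorem Fm.one_val (x : X) (z v : V N) : (1 : Fm P N ρ).1 x z v = 1 := rfl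
theorem Fm.algebraMap_val (c : ℂ) (x : X) (z v : V N) :
    (algebraMap ℂ (Fm P N ρ) c).1 x z v = c := rfl
theorem Fm.smul_val (c : ℂ) (f : Fm P N ρ) (x : X) (z v : V N) :
    (c • f).1 x z v = c * f.1 x z v := rfl

/-- The derivative in the second variable on the ring of the smooth families. -/
def fpd (μ : Fin N) (f : Fm P N ρ) : Fm P N ρ := ⟨pv μ f.1, Fam.pv f.2 μ⟩

/-- The value at `v = 0`. -/
def at0 (f : Fm P N ρ) : Rg P N ρ :=
  ⟨fun x z => f.1 x z 0, fun x => (f.2.smooth x).continuous.comp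
    (continuous_id.prodMk continuous_const), by
    obtain ⟨Φ, hΦ, h⟩ := f.2.bd []
    exact ⟨Φ, hΦ, fun x z hz => h x z 0 hz (by simp)⟩⟩

/-- The homogeneous part of degree `k` of the Taylor series in `v`, as a polynomial. -/
def tay : ℕ → Fm P N ρ → MvPolynomial (Fin N) (Rg P N ρ)
  | 0, f => MvPolynomial.C (at0 f)
  | k + 1, f => (1 / ((k : ℂ) + 1)) • ∑ μ, MvPolynomial.X μ * tay k (fpd μ f)

/-- The evaluation of the coefficients at `x`, `z`. -/
def evR (x : X) (z : V N) : Rg P N ρ →+* ℂ where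
  toFun f := f.1 x z
  map_one' := rfl
  map_mul' _ _ := rfl
  map_zero' := rfl
  map_add' _ _ := rfl

/-- The evaluation of a polynomial at `x`, `z` and `η`. -/
def ev (x : X) (z η : V N) : MvPolynomial (Fin N) (Rg P N ρ) →+* ℂ :=
  MvPolynomial.eval₂Hom (evR x z) fun i => (η i : ℂ)

/-- The remainder of the Taylor series of order `k`. -/
def rem (k : ℕ) (f : Fm P N ρ) (x : X) (z v : V N) : ℂ :=
  f.1 x z v - ∑ j ∈ Finset.range k, ev x z v (tay j f)

end Pool.Agent.Lib.MP_df705a_gt.RL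
end
end

section

/-!
# RL2 parametrix: the left operator of the recursion on polynomials
-/

noncomputable section

set_option linter.unusedSectionVars false

namespace Pool.Agent.Lib.MP_df705a_gt.RL

open MvPolynomial

variable {N : ℕ} {R : Type*} [CommRing R] [Algebra ℂ R]

/-- The operator `∑ a_μν ∂_μ ∂_ν` on polynomials. -/
def lapP (a : Fin N → Fin N → R) : MvPolynomial (Fin N) R →ₗ[R] MvPolynomial (Fin N) R :=
  ∑ μ, ∑ ν, a μ ν • ((pderiv μ).toLinearMap ∘ₗ (pderiv ν).toLinearMap)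

/-- The Euler operator `∑ X_μ ∂_μ` on polynomials. -/
def eulP : MvPolynomial (Fin N) R →ₗ[R] MvPolynomial (Fin N) R :=
  ∑ μ, LinearMap.mulLeft R (X μ) ∘ₗ (pderiv μ).toLinearMap

/-- The operator `n / 2 + E / 2 - Δ_a`. -/
def opA (a : Fin N → Fin N → R) (n : ℕ) :
    MvPolynomial (Fin N) R →ₗ[R] MvPolynomial (Fin N) R :=
  algebraMap ℂ R (n / 2) • LinearMap.id + algebraMap ℂ R (1 / 2) • eulP - lapP a

theorem lapP_apply (a : Fin N → Fin N → R) (p : MvPolynomial (Fin N) R) :
    lapP a p = ∑ μ, ∑ ν, C (a μ ν) * pderiv μ (pderiv ν p) := by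
  simp [lapP, MvPolynomial.smul_eq_C_mul]

theorem eulP_apply (p : MvPolynomial (Fin N) R) : eulP p = ∑ μ, X μ * pderiv μ p := by
  simp [eulP]

theorem opA_apply (a : Fin N → Fin N → R) (n : ℕ) (p : MvPolynomial (Fin N) R) :
    opA a n p = C (algebraMap ℂ R (n / 2)) * p + C (algebraMap ℂ R (1 / 2)) * eulP p
      - lapP a p := by
  simp only [opA, LinearMap.sub_apply, LinearMap.add_apply, LinearMap.smul_apply,
    LinearMap.id_apply, MvPolynomial.smul_eq_C_mul]

/-- TASK P01a. PROOF. Euler's identity `MvPolynomial.IsHomogeneous.sum_X_mul_pderiv` (or by monomials). -/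
theorem eulP_hom {p : MvPolynomial (Fin N) R} {d : ℕ} (hp : p.IsHomogeneous d) :
    eulP p = C (algebraMap ℂ R d) * p := by
  rw [eulP_apply, hp.sum_X_mul_pderiv, nsmul_eq_mul]
  have h1 : (algebraMap ℂ R (d : ℂ)) = (d : R) := map_natCast _ d
  rw [h1]
  have h2 : (C (d : R) : MvPolynomial (Fin N) R) = (d : MvPolynomial (Fin N) R) :=
    map_natCast _ d
  rw [h2]

/-- TASK P01b. PROOF. `pderiv` lowers the degree of homogeneous polynomials by one
(`IsHomogeneous.pderiv` or by monomials); if `d ≤ 1` then `pderiv μ (pderiv ν p) = 0`. -/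
theorem lapP_hom (a : Fin N → Fin N → R) {p : MvPolynomial (Fin N) R} {d : ℕ}
    (hp : p.IsHomogeneous d) : (lapP a p).IsHomogeneous (d - 2) ∧ (d < 2 → lapP a p = 0) := by
  constructor
  · rw [lapP_apply]
    refine IsHomogeneous.sum _ _ _ (fun μ _ => IsHomogeneous.sum _ _ _ (fun ν _ => ?_))
    have h1 : (pderiv μ (pderiv ν p)).IsHomogeneous (d - 1 - 1) := hp.pderiv.pderiv
    have h2 : d - 1 - 1 = d - 2 := by omega
    rw [h2] at h1
    exact h1.C_mul (a μ ν)
  · intro hd
    rw [lapP_apply]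
    refine Finset.sum_eq_zero (fun μ _ => Finset.sum_eq_zero (fun ν _ => ?_))
    have h1 : (pderiv ν p).IsHomogeneous (d - 1) := hp.pderiv
    have h2 : d - 1 = 0 := by omega
    rw [h2] at h1
    have h3 : pderiv ν p = C (coeff 0 (pderiv ν p)) :=
      MvPolynomial.totalDegree_eq_zero_iff_eq_C.mp
        ((MvPolynomial.totalDegree_zero_iff_isHomogeneous _).mpr h1)
    rw [h3, pderiv_C, mul_zero]

theorem P01_opA_hom (a : Fin N → Fin N → R) (n d : ℕ) {p : MvPolynomial (Fin N) R}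
    (hp : p.IsHomogeneous d) :
    opA a n p = C (algebraMap ℂ R (((n : ℂ) + d) / 2)) * p - lapP a p := by
  rw [opA_apply, eulP_hom hp, ← mul_assoc, ← add_mul, ← C_mul, ← C_add, ← map_mul, ← map_add]
  have h : (n : ℂ) / 2 + 1 / 2 * (d : ℂ) = ((n : ℂ) + d) / 2 := by ring
  rw [h]

theorem P01_inv {n : ℕ} (hn : 0 < n) (d : ℕ) : ∃ r : R,
    algebraMap ℂ R (((n : ℂ) + d) / 2) * r = 1 := by
  have h : ((n : ℂ) + d) / 2 ≠ 0 := by
    have h1 : ((n + d : ℕ) : ℂ) ≠ 0 := by
      rw [Nat.cast_ne_zero]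
      omega
    push_cast at h1
    exact div_ne_zero h1 two_ne_zero
  refine ⟨algebraMap ℂ R ((((n : ℂ) + d) / 2)⁻¹), ?_⟩
  rw [← map_mul, mul_inv_cancel₀ h, map_one]

theorem P01_hom_mem (a : Fin N → Fin N → R) {n : ℕ} (hn : 0 < n) (d : ℕ) :
    ∀ p : MvPolynomial (Fin N) R, p.IsHomogeneous d → ∃ q, opA a n q = p := by
  induction d using Nat.strong_induction_on with
  | _ d ih =>
    intro p hp
    obtain ⟨r, hr⟩ := P01_inv (R := R) hn d
    have hq : (C r * p).IsHomogeneous d := by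
      have h := (isHomogeneous_C (Fin N) r).mul hp
      rwa [zero_add] at h
    have h0 : opA a n (C r * p) = p - lapP a (C r * p) := by
      rw [P01_opA_hom a n d hq, ← mul_assoc, ← C_mul, hr, C_1, one_mul]
    obtain ⟨h1, h2⟩ := lapP_hom a hq
    by_cases hd : d < 2
    · exact ⟨C r * p, by rw [h0, h2 hd, sub_zero]⟩
    · obtain ⟨q1, hq1⟩ := ih (d - 2) (by omega) (lapP a (C r * p)) h1
      exact ⟨C r * p + q1, by rw [map_add, h0, hq1, sub_add_cancel]⟩

/-- TASK P01c. PROOF. By linearity (`p` is the sum of its homogeneous components,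
`MvPolynomial.sum_homogeneousComponent`) it is enough to solve `opA a n q = p` for `p` homogeneous of
degree `d`; strong induction on `d`: with `q₀ = C (algebraMap ℂ R (2 / (n + d))) * p` (`n + d ≠ 0` in `ℂ`)
we have `opA a n q₀ = p - lapP a q₀` (`eulP_hom`), and `lapP a q₀` is zero or homogeneous of degree `d - 2 < d`
(`lapP_hom`), so `lapP a q₀ = opA a n q₁` and `q = q₀ + q₁`. -/
theorem opA_surjective (a : Fin N → Fin N → R) {n : ℕ} (hn : 0 < n) :
    Function.Surjective (opA a n) := by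
  intro p
  have h : p ∈ LinearMap.range (opA a n) := by
    rw [← sum_homogeneousComponent p]
    refine Submodule.sum_mem _ fun i _ => ?_
    obtain ⟨q, hq⟩ := P01_hom_mem a hn i _ (homogeneousComponent_isHomogeneous i p)
    exact ⟨q, hq⟩
  exact h

theorem P01_comp_hom (a : Fin N → Fin N → R) (n d j : ℕ) {q : MvPolynomial (Fin N) R}
    (hq : q.IsHomogeneous j) :
    homogeneousComponent d (opA a n q) =
      C (algebraMap ℂ R (((n : ℂ) + d) / 2)) * homogeneousComponent d q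
        - lapP a (homogeneousComponent (d + 2) q) := by
  obtain ⟨h1, h2⟩ := lapP_hom a hq
  rw [P01_opA_hom a n j hq, map_sub, homogeneousComponent_C_mul,
    homogeneousComponent_of_mem (m := d) (n := j) hq,
    homogeneousComponent_of_mem (m := d + 2) (n := j) hq,
    homogeneousComponent_of_mem (m := d) (n := j - 2) h1]
  by_cases hjd : d = j
  · subst hjd
    have h3 : (if d = d - 2 then lapP a q else 0) = 0 := by
      split_ifs with h
      · exact h2 (by omega)
      · rfl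
    have h4 : ¬ (d + 2 = d) := by omega
    rw [h3, if_pos rfl, if_neg h4, map_zero]
  · by_cases hj2 : d + 2 = j
    · subst hj2
      rw [if_pos rfl, if_neg hjd, if_pos (by omega), mul_zero, mul_zero]
    · rw [if_neg hjd, if_neg hj2, map_zero, mul_zero, mul_zero]
      split_ifs with h
      · rw [h2 (by omega)]
      · rfl

theorem P01_comp (a : Fin N → Fin N → R) (n d : ℕ) (p : MvPolynomial (Fin N) R) :
    homogeneousComponent d (opA a n p) =
      C (algebraMap ℂ R (((n : ℂ) + d) / 2)) * homogeneousComponent d p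
        - lapP a (homogeneousComponent (d + 2) p) := by
  induction p using MvPolynomial.induction_on' with
  | monomial u r => exact P01_comp_hom a n d u.degree (isHomogeneous_monomial r rfl)
  | add p q hp hq =>
    rw [map_add, map_add, hp, hq, map_add, map_add, map_add, mul_add]
    abel

/-- TASK P01d. PROOF. Let `opA a n p = 0`, `p ≠ 0`, `d = p.totalDegree`, `p_d` the homogeneous component of degree
`d`, which is not zero. `p = ∑_{j ≤ d} p_j`; by `eulP_hom`, `lapP_hom` the homogeneous component of degree `d` of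
`opA a n p` is `C ((n + d) / 2) * p_d` (`lapP a p_j` is homogeneous of degree `< d`). So
`C (algebraMap ((n + d) / 2)) * p_d = 0`, and `algebraMap ℂ R ((n + d) / 2)` is a unit: `p_d = 0`. Contradiction. -/
theorem opA_injective (a : Fin N → Fin N → R) {n : ℕ} (hn : 0 < n) :
    Function.Injective (opA a n) := by
  rw [injective_iff_map_eq_zero]
  intro p hp
  have h : ∀ k d, p.totalDegree < d + k → homogeneousComponent d p = 0 := by
    intro k
    induction k with
    | zero => intro d hd; exact homogeneousComponent_eq_zero d p hd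
    | succ k ih =>
      intro d hd
      by_cases hk : k = 0
      · subst hk
        by_cases hd' : p.totalDegree < d
        · exact homogeneousComponent_eq_zero d p hd'
        · have h1 := P01_comp a n d p
          rw [hp, map_zero, homogeneousComponent_eq_zero (d + 2) p (by omega), map_zero,
            sub_zero] at h1
          obtain ⟨r, hr⟩ := P01_inv (R := R) hn d
          have h2 : C r * (C (algebraMap ℂ R (((n : ℂ) + d) / 2)) *
              homogeneousComponent d p) = 0 := by rw [← h1, mul_zero]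
          rw [← mul_assoc, ← C_mul, mul_comm r, hr, C_1, one_mul] at h2
          exact h2
      · have h1 := P01_comp a n d p
        rw [hp, map_zero, ih (d + 2) (by omega), map_zero, sub_zero] at h1
        obtain ⟨r, hr⟩ := P01_inv (R := R) hn d
        have h2 : C r * (C (algebraMap ℂ R (((n : ℂ) + d) / 2)) *
            homogeneousComponent d p) = 0 := by rw [← h1, mul_zero]
        rw [← mul_assoc, ← C_mul, mul_comm r, hr, C_1, one_mul] at h2
        exact h2
  rw [← sum_homogeneousComponent p]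
  exact Finset.sum_eq_zero fun i _ => h (p.totalDegree + 1) i (by omega)

open Classical in
/-- The inverse of `opA a n`, `n > 0`. -/
def opT (a : Fin N → Fin N → R) (n : ℕ) :
    MvPolynomial (Fin N) R →ₗ[R] MvPolynomial (Fin N) R :=
  if h : Function.Bijective (opA a n) then (LinearEquiv.ofBijective (opA a n) h).symm.toLinearMap
  else 0

theorem opA_opT (a : Fin N → Fin N → R) {n : ℕ} (hn : 0 < n) (p : MvPolynomial (Fin N) R) :
    opA a n (opT a n p) = p := by
  have h : Function.Bijective (opA a n) := ⟨opA_injective a hn, opA_surjective a hn⟩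
  unfold opT
  rw [dif_pos h]
  exact (LinearEquiv.ofBijective (opA a n) h).apply_symm_apply p

theorem opT_opA (a : Fin N → Fin N → R) {n : ℕ} (hn : 0 < n) (p : MvPolynomial (Fin N) R) :
    opT a n (opA a n p) = p := by
  have h : Function.Bijective (opA a n) := ⟨opA_injective a hn, opA_surjective a hn⟩
  unfold opT
  rw [dif_pos h]
  exact (LinearEquiv.ofBijective (opA a n) h).symm_apply_apply p

/-- TASK P01e. PROOF. `opA a n (C c) = C (algebraMap ℂ R (n / 2) * c)` (`pderiv_C`); apply it to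
`C (algebraMap ℂ R (2 / n) * c)` and use `opT_opA`. -/
theorem opT_C (a : Fin N → Fin N → R) {n : ℕ} (hn : 0 < n) (c : R) :
    opT a n (C c) = C (algebraMap ℂ R (2 / n) * c) := by
  have hA : ∀ b : R, opA a n (C b) = C (algebraMap ℂ R (n / 2) * b) := by
    intro b
    rw [opA_apply, eulP_apply, lapP_apply]
    simp only [pderiv_C, mul_zero, map_zero, Finset.sum_const_zero, add_zero, sub_zero, ← C_mul]
  have hn' : (n : ℂ) ≠ 0 := Nat.cast_ne_zero.mpr hn.ne'
  have h1 : opA a n (C (algebraMap ℂ R (2 / n) * c)) = C c := by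
    rw [hA, ← mul_assoc, ← map_mul]
    have h2 : ((n : ℂ) / 2) * (2 / n) = 1 := by
      field_simp
    rw [h2, map_one, one_mul]
  rw [← h1, opT_opA a hn]

end Pool.Agent.Lib.MP_df705a_gt.RL
end
end

section

/-!
# RL2 parametrix: the recursion in the ring of matrices of polynomials
-/

noncomputable section

set_option linter.unusedSectionVars false

namespace Pool.Agent.Lib.MP_df705a_gt.RL

open MvPolynomial

variable {N : ℕ} {ι : Type*} [Fintype ι] [DecidableEq ι] {R : Type*} [CommRing R] [Algebra ℂ R]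

/-- Matrices of polynomials. -/
abbrev PM (ι : Type*) (N : ℕ) (R : Type*) [CommRing R] : Type _ :=
  Matrix ι ι (MvPolynomial (Fin N) R)

/-- The derivative of a matrix of polynomials. -/
def dM (μ : Fin N) : PM ι N R →ₗ[R] PM ι N R := (pderiv μ).toLinearMap.mapMatrix

/-- The linear polynomial `∑ G_μν X_ν`. -/
def gX (G : Fin N → Fin N → R) (μ : Fin N) : MvPolynomial (Fin N) R := ∑ ν, C (G μ ν) * X ν

/-- The quadratic polynomial `∑ G_μν X_μ X_ν`. -/
def gXX (G : Fin N → Fin N → R) : MvPolynomial (Fin N) R := ∑ μ, X μ * gX G μ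

/-- The operator `h_μ = ∂_μ - (1/2) ∑ G_μν X_ν`. -/
def hM (G : Fin N → Fin N → R) (μ : Fin N) : PM ι N R →ₗ[R] PM ι N R :=
  dM μ - (C (algebraMap ℂ R (1 / 2)) * gX G μ) • LinearMap.id

/-- The Euler operator on matrices. -/
def eulM : PM ι N R →ₗ[R] PM ι N R := eulP.mapMatrix

/-- The operator `opA` on matrices. -/
def opAM (a : Fin N → Fin N → R) (n : ℕ) : PM ι N R →ₗ[R] PM ι N R := (opA a n).mapMatrix

/-- The inverse of `opAM`. -/
def opTM (a : Fin N → Fin N → R) (n : ℕ) : PM ι N R →ₗ[R] PM ι N R := (opT a n).mapMatrix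

/-- The data of the recursion: the homogeneous parts of the coefficients of a second order
operator, by weight. `β` is the degree in `t`. -/
structure PDat (ι : Type*) (N : ℕ) (R : Type*) [CommRing R] where
  G : Fin N → Fin N → R
  a : Fin N → Fin N → R
  A : ℕ → Fin N → Fin N → MvPolynomial (Fin N) R
  B : Fin 3 → ℕ → Fin N → PM ι N R
  c : Fin 3 → ℕ → PM ι N R

/-- The conditions on the data. -/
structure PDat.Ok (D : PDat ι N R) : Prop where
  A0 : ∀ μ ν, D.A 0 μ ν = C (D.a μ ν)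
  inv : ∀ μ ν, ∑ l, D.a μ l * D.G l ν = if μ = ν then 1 else 0
  asymm : ∀ μ ν, D.a μ ν = D.a ν μ
  Gsymm : ∀ μ ν, D.G μ ν = D.G ν μ
  B0 : ∀ β μ, D.B β 0 μ = 0
  Blt : ∀ (β : Fin 3) (k : ℕ) (μ : Fin N), k < 2 * (β : ℕ) → D.B β k μ = 0
  c0 : ∀ β k, k < 2 → D.c β k = 0
  clt : ∀ (β : Fin 3) (k : ℕ), k < 2 * (β : ℕ) → D.c β k = 0

namespace PDat

/-- The part of weight `k` and of degree `β` in `t` of the operator. -/
def LL (D : PDat ι N R) (β : Fin 3) (k : ℕ) : PM ι N R →ₗ[R] PM ι N R :=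
  (if β = 0 then - ∑ μ, ∑ ν, D.A k μ ν • (hM D.G μ ∘ₗ hM D.G ν) else 0)
    + ∑ μ, LinearMap.mulLeft R (D.B β k μ) ∘ₗ hM D.G μ + LinearMap.mulLeft R (D.c β k)

/-- The coefficients `p_{n,b}` of the formal solution: `n` is the weight, `b` the degree in `t`. -/
def pp (D : PDat ι N R) : ℕ → ℕ → PM ι N R
  | n, b =>
    if n = 0 then (if b = 0 then 1 else 0)
    else - opTM D.a n (∑ k : Fin n, ∑ β : Fin 3,
      if (β : ℕ) ≤ b then D.LL β (n - k) (pp D k (b - β)) else 0)
termination_by n => n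
decreasing_by exact k.2

/-- The terms `P_n = ∑ t^b p_{n,b}` of the formal solution. -/
def PT (D : PDat ι N R) (t : ℂ) (n : ℕ) : PM ι N R :=
  ∑ b ∈ Finset.range (n + 1), algebraMap ℂ R (t ^ b) • D.pp n b

/-- The operator with the parameter `t`, part of weight `k`. -/
def LT (D : PDat ι N R) (t : ℂ) (k : ℕ) : PM ι N R →ₗ[R] PM ι N R :=
  ∑ β : Fin 3, algebraMap ℂ R (t ^ (β : ℕ)) • D.LL β k

theorem pp_zero_zero (D : PDat ι N R) : D.pp 0 0 = 1 := by
  rw [pp]; simp

theorem pp_zero_pos (D : PDat ι N R) {b : ℕ} (hb : b ≠ 0) : D.pp 0 b = 0 := by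
  rw [pp]; simp [hb]

theorem pp_rec (D : PDat ι N R) {n : ℕ} (hn : n ≠ 0) (b : ℕ) : D.pp n b =
    - opTM D.a n (∑ k : Fin n, ∑ β : Fin 3,
      if (β : ℕ) ≤ b then D.LL β (n - k) (D.pp k (b - β)) else 0) := by
  rw [pp, if_neg hn]

/-- TASK P02a. PROOF. `β = 0`: then `k < 0`, impossible. `β ≠ 0`: `Blt`, `clt`. -/
theorem LL_lt {D : PDat ι N R} (hD : D.Ok) {β : Fin 3} {k : ℕ} (h : k < 2 * (β : ℕ)) :
    D.LL β k = 0 := by
  have hβ : β ≠ 0 := by
    rintro rfl
    simp at h
  have h1 : (∑ μ, LinearMap.mulLeft R (D.B β k μ) ∘ₗ hM D.G μ) = 0 :=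
    Finset.sum_eq_zero fun μ _ => by
      rw [hD.Blt β k μ h, LinearMap.mulLeft_zero_eq_zero, LinearMap.zero_comp]
  rw [LL, if_neg hβ, h1, hD.clt β k h, LinearMap.mulLeft_zero_eq_zero, add_zero, add_zero]

/-- TASK P02b. PROOF. Strong induction on `n`. `n = 0`: `b ≠ 0`, `pp_zero_pos`. `n > 0`: `pp_rec`; all
summands vanish: if `2 * (b - β) > k` by induction, otherwise `2 * (b - β) ≤ k`, so
`n < 2 * b ≤ k + 2 * β`, `n - k < 2 * β` and `LL_lt`. -/
theorem pp_eq_zero {D : PDat ι N R} (hD : D.Ok) (n : ℕ) : ∀ b, n < 2 * b → D.pp n b = 0 := by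
  induction n using Nat.strong_induction_on with
  | _ n ih =>
    intro b hb
    by_cases hn : n = 0
    · subst hn
      exact pp_zero_pos D (by omega)
    · rw [pp_rec D hn]
      have h : (∑ k : Fin n, ∑ β : Fin 3,
          if (β : ℕ) ≤ b then D.LL β (n - k) (D.pp k (b - β)) else 0) = 0 := by
        refine Finset.sum_eq_zero fun k _ => Finset.sum_eq_zero fun β _ => ?_
        split_ifs with hβ
        · by_cases h1 : (k : ℕ) < 2 * (b - β)
          · rw [ih k k.2 _ h1, map_zero]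
          · have h2 : n - (k : ℕ) < 2 * (β : ℕ) := by omega
            rw [LL_lt hD h2, LinearMap.zero_apply]
        · rfl
      rw [h, map_zero, neg_zero]

/-- TASK P02c. PROOF. Entries: `opA_opT`. -/
theorem opAM_opTM (a : Fin N → Fin N → R) {n : ℕ} (hn : 0 < n) (p : PM ι N R) :
    opAM a n (opTM a n p) = p := by
  ext1 i j
  exact opA_opT a hn (p i j)

theorem P02_PT_big {D : PDat ι N R} (hD : D.Ok) (t : ℂ) (n M : ℕ) (hM : n < M) :
    D.PT t n = ∑ b ∈ Finset.range M, algebraMap ℂ R (t ^ b) • D.pp n b := by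
  unfold PT
  apply Finset.sum_subset
  · intro x hx
    rw [Finset.mem_range] at hx ⊢
    omega
  · intro b _ hb
    rw [Finset.mem_range] at hb
    rw [pp_eq_zero hD n b (by omega), smul_zero]

theorem P02_opAM_pp {D : PDat ι N R} {n : ℕ} (hn : 0 < n) (b : ℕ) :
    opAM D.a n (D.pp n b) = - ∑ k ∈ Finset.range n, ∑ β : Fin 3,
      if (β : ℕ) ≤ b then D.LL β (n - k) (D.pp k (b - β)) else 0 := by
  rw [pp_rec D (by omega), map_neg, opAM_opTM D.a hn, Finset.sum_range]

/-- shift of the summation index -/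
theorem P02_shift {V : Type*} [AddCommGroup V] [Module R V] (t : ℂ) (β M : ℕ) (f : ℕ → V)
    (hf : ∀ b, M - β ≤ b → f b = 0) :
    (∑ b ∈ Finset.range M, algebraMap ℂ R (t ^ b) • (if β ≤ b then f (b - β) else 0)) =
      ∑ b ∈ Finset.range M, algebraMap ℂ R (t ^ β) • algebraMap ℂ R (t ^ b) • f b := by
  have h1 : (∑ b ∈ Finset.range M, algebraMap ℂ R (t ^ b) • (if β ≤ b then f (b - β) else 0)) =
      ∑ b ∈ (Finset.range M).filter (fun b => β ≤ b), algebraMap ℂ R (t ^ b) • f (b - β) := by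
    rw [Finset.sum_filter]
    refine Finset.sum_congr rfl fun b _ => ?_
    split_ifs
    · rfl
    · rw [smul_zero]
  have h2 : (∑ b ∈ Finset.range M, algebraMap ℂ R (t ^ β) • algebraMap ℂ R (t ^ b) • f b) =
      ∑ b ∈ Finset.range (M - β), algebraMap ℂ R (t ^ (b + β)) • f b := by
    have h3 : (∑ b ∈ Finset.range (M - β), algebraMap ℂ R (t ^ (b + β)) • f b) =
        ∑ b ∈ Finset.range M, algebraMap ℂ R (t ^ (b + β)) • f b := by
      apply Finset.sum_subset
      · intro x hx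
        rw [Finset.mem_range] at hx ⊢
        omega
      · intro b _ hb
        rw [Finset.mem_range] at hb
        rw [hf b (by omega), smul_zero]
    rw [h3]
    refine Finset.sum_congr rfl fun b _ => ?_
    rw [smul_smul, ← map_mul, ← pow_add, add_comm β b]
  rw [h1, h2]
  symm
  refine Finset.sum_bij' (fun b _ => b + β) (fun b _ => b - β) ?_ ?_ ?_ ?_ ?_
  · intro b hb
    rw [Finset.mem_range] at hb
    rw [Finset.mem_filter, Finset.mem_range]
    omega
  · intro b hb
    rw [Finset.mem_filter, Finset.mem_range] at hb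
    rw [Finset.mem_range]
    omega
  · intro b _
    exact Nat.add_sub_cancel b β
  · intro b hb
    rw [Finset.mem_filter] at hb
    exact Nat.sub_add_cancel hb.2
  · intro b _
    rw [Nat.add_sub_cancel]

/-- TASK P02d. PROOF. Expand `PT`, `LT`; `opAM` of `pp n b` is minus the sum in `pp_rec`. The coefficient of
`t ^ b` on the right: `∑_k ∑_β LL β (n - k) (pp k (b - β))`, where `b ≤ n`, and `PT k` has the terms `b' ≤ k`. The
terms `(k, β, b')` with `b' ≤ k` and `b' + β > n` vanish by `LL_lt`, `pp_eq_zero` (`2 b' ≤ k` and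
`n - k ≥ 2 β` give `b' + β ≤ n`), the terms with `k < b' = b - β` vanish by `pp_eq_zero`. It is convenient to
write both sides with `b, b' ∈ range (2 * n + 3)` (the additional terms vanish by `pp_eq_zero`). -/
theorem opAM_PT {D : PDat ι N R} (hD : D.Ok) (t : ℂ) {n : ℕ} (hn : 0 < n) :
    opAM D.a n (D.PT t n) + ∑ k ∈ Finset.range n, D.LT t (n - k) (D.PT t k) = 0 := by
  have h1 : opAM D.a n (D.PT t n) = - ∑ k ∈ Finset.range n, ∑ β : Fin 3,
      ∑ b ∈ Finset.range (2 * n + 3), algebraMap ℂ R (t ^ b) •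
        (if (β : ℕ) ≤ b then D.LL β (n - k) (D.pp k (b - β)) else 0) := by
    rw [P02_PT_big hD t n (2 * n + 3) (by omega), map_sum]
    simp only [map_smul, P02_opAM_pp hn, smul_neg, Finset.sum_neg_distrib, Finset.smul_sum]
    rw [Finset.sum_comm]
    congr 1
    refine Finset.sum_congr rfl fun k _ => ?_
    rw [Finset.sum_comm]
  have h2 : ∀ k ∈ Finset.range n, D.LT t (n - k) (D.PT t k) = ∑ β : Fin 3,
      ∑ b ∈ Finset.range (2 * n + 3), algebraMap ℂ R (t ^ b) •
        (if (β : ℕ) ≤ b then D.LL β (n - k) (D.pp k (b - β)) else 0) := by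
    intro k hk
    rw [Finset.mem_range] at hk
    rw [P02_PT_big hD t k (2 * n + 3) (by omega), LT, LinearMap.sum_apply]
    refine Finset.sum_congr rfl fun β _ => ?_
    have h3 := P02_shift (R := R) t (β : ℕ) (2 * n + 3)
      (fun b => D.LL β (n - k) (D.pp k b)) (fun b hb => by
        have hβ := β.2
        show D.LL β (n - k) (D.pp k b) = 0
        rw [pp_eq_zero hD k b (by omega), map_zero])
    rw [h3, LinearMap.smul_apply, map_sum, Finset.smul_sum]
    refine Finset.sum_congr rfl fun b _ => ?_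
    rw [map_smul]
  rw [h1, Finset.sum_congr rfl h2, neg_add_cancel]

theorem PT_zero (D : PDat ι N R) (t : ℂ) : D.PT t 0 = 1 := by
  simp [PT, pp_zero_zero]

theorem P02B_agX {D : PDat ι N R} (hD : D.Ok) (μ : Fin N) :
    ∑ ν, C (D.a μ ν) * gX D.G ν = (X μ : MvPolynomial (Fin N) R) := by
  have h1 : ∑ ν, C (D.a μ ν) * gX D.G ν =
      ∑ l, C (∑ ν, D.a μ ν * D.G ν l) * (X l : MvPolynomial (Fin N) R) := by
    simp only [gX, Finset.mul_sum, map_sum, map_mul, Finset.sum_mul]
    rw [Finset.sum_comm]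
    exact Finset.sum_congr rfl fun l _ => Finset.sum_congr rfl fun ν _ => by ring
  rw [h1]
  simp only [hD.inv]
  rw [Finset.sum_eq_single μ (fun b _ hb => by simp [hb.symm]) (fun h => absurd (Finset.mem_univ _) h)]
  simp

theorem P02B_h (G : Fin N → Fin N → R) (μ ν : Fin N) (q : MvPolynomial (Fin N) R) (c : R) :
    pderiv μ (pderiv ν q - C c * gX G ν * q) - C c * gX G μ * (pderiv ν q - C c * gX G ν * q) =
      pderiv μ (pderiv ν q) - C c * C (G ν μ) * q - C c * gX G ν * pderiv μ q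
        - C c * gX G μ * pderiv ν q + C c * C c * gX G μ * gX G ν * q := by
  have h1 : pderiv μ (gX G ν) = C (G ν μ) := by
    rw [gX, map_sum, Finset.sum_eq_single μ (fun b _ hb => by
      rw [pderiv_C_mul, pderiv_X_of_ne hb, mul_zero]) (fun h => absurd (Finset.mem_univ _) h)]
    rw [pderiv_C_mul, pderiv_X_self, mul_one]
  rw [map_sub, pderiv_mul, pderiv_mul, pderiv_C, h1]
  ring

/-- The model identity for one polynomial. -/
theorem P02B_scalar {D : PDat ι N R} (hD : D.Ok) (q : MvPolynomial (Fin N) R) (c : R) :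
    ∑ μ, ∑ ν, C (D.a μ ν) * (pderiv μ (pderiv ν q - C c * gX D.G ν * q)
        - C c * gX D.G μ * (pderiv ν q - C c * gX D.G ν * q)) =
      lapP D.a q - C c * C (N : R) * q - 2 * C c * eulP q + C c * C c * gXX D.G * q := by
  have hs : ∀ ν, ∑ μ, C (D.a μ ν) * gX D.G μ = (X ν : MvPolynomial (Fin N) R) := fun ν => by
    rw [← P02B_agX hD ν]
    exact Finset.sum_congr rfl fun μ _ => by rw [hD.asymm]
  have h0 : ∑ μ, ∑ ν, C (D.a μ ν) * C (D.G ν μ) = (C (N : R) : MvPolynomial (Fin N) R) := by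
    have : ∀ μ, ∑ ν, C (D.a μ ν) * C (D.G ν μ) = (1 : MvPolynomial (Fin N) R) := fun μ => by
      have := congrArg (C : R → MvPolynomial (Fin N) R) (hD.inv μ μ)
      simpa [map_sum] using this
    simp [this]
  have h1 : ∑ μ, ∑ ν, C (D.a μ ν) * (gX D.G ν * pderiv μ q) = eulP q := by
    rw [eulP_apply]
    refine Finset.sum_congr rfl fun μ _ => ?_
    rw [← P02B_agX hD μ, Finset.sum_mul]
    exact Finset.sum_congr rfl fun ν _ => by ring
  have h2 : ∑ μ, ∑ ν, C (D.a μ ν) * (gX D.G μ * pderiv ν q) = eulP q := by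
    rw [eulP_apply, Finset.sum_comm]
    refine Finset.sum_congr rfl fun ν _ => ?_
    rw [← hs ν, Finset.sum_mul]
    exact Finset.sum_congr rfl fun μ _ => by ring
  have h3 : ∑ μ, ∑ ν, C (D.a μ ν) * (gX D.G μ * gX D.G ν) = gXX D.G := by
    rw [gXX, Finset.sum_comm]
    refine Finset.sum_congr rfl fun ν _ => ?_
    rw [← hs ν, Finset.sum_mul]
    exact Finset.sum_congr rfl fun μ _ => by ring
  rw [lapP_apply]
  have h4 : ∀ μ ν, C (D.a μ ν) * (pderiv μ (pderiv ν q - C c * gX D.G ν * q)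
        - C c * gX D.G μ * (pderiv ν q - C c * gX D.G ν * q)) =
      C (D.a μ ν) * pderiv μ (pderiv ν q) - C c * q * (C (D.a μ ν) * C (D.G ν μ))
        - C c * (C (D.a μ ν) * (gX D.G ν * pderiv μ q))
        - C c * (C (D.a μ ν) * (gX D.G μ * pderiv ν q))
        + C c * C c * q * (C (D.a μ ν) * (gX D.G μ * gX D.G ν)) := fun μ ν => by
    rw [P02B_h]; ring
  simp only [h4, Finset.sum_add_distrib, Finset.sum_sub_distrib, ← Finset.mul_sum, h0, h1, h2, h3]
  ring

/-- TASK P02e. PROOF. Entrywise identity of polynomials. `hM μ (hM ν p) = ∂_μ ∂_ν p - (1/2) G_μν p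
- (1/2) gX_ν ∂_μ p - (1/2) gX_μ ∂_ν p + (1/4) gX_μ gX_ν p` (`pderiv μ (gX G ν) = C (G ν μ)`). Sum with `a_μν`
(`A0`): `∑ a_μν G_μν = N` (trace of `inv`), `∑_ν a_μν gX_ν = X_μ` (`inv`), so the sum is
`lapP a p - (N/2) p - eulP p + (1/4) gXX p`. Add the other terms: `opA_apply`. -/
theorem model_id {D : PDat ι N R} (hD : D.Ok) (n : ℕ) (p : PM ι N R) :
    algebraMap ℂ R (n / 2) • p - algebraMap ℂ R (1 / 2) • eulM p
      + algebraMap ℂ R (1 / 4) • (gXX D.G • p) - algebraMap ℂ R (N / 2) • p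
      - ∑ μ, ∑ ν, D.A 0 μ ν • hM D.G μ (hM D.G ν p) = opAM D.a n p := by
  ext1 i j
  have hs : (∑ μ, ∑ ν, D.A 0 μ ν • hM D.G μ (hM D.G ν p)) i j =
      lapP D.a (p i j) - C (algebraMap ℂ R (1 / 2)) * C (N : R) * p i j
        - 2 * C (algebraMap ℂ R (1 / 2)) * eulP (p i j)
        + C (algebraMap ℂ R (1 / 2)) * C (algebraMap ℂ R (1 / 2)) * gXX D.G * p i j := by
    rw [← P02B_scalar hD, Matrix.sum_apply]
    refine Finset.sum_congr rfl fun μ _ => ?_
    rw [Matrix.sum_apply]
    refine Finset.sum_congr rfl fun ν _ => ?_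
    rw [hD.A0]
    rfl
  have e1 : (C (algebraMap ℂ R (1 / 2)) : MvPolynomial (Fin N) R) *
      C (algebraMap ℂ R (1 / 2)) = C (algebraMap ℂ R (1 / 4)) := by
    rw [← C_mul, ← map_mul]; norm_num
  have e2 : (C (algebraMap ℂ R (1 / 2)) : MvPolynomial (Fin N) R) * C (N : R) =
      C (algebraMap ℂ R (N / 2)) := by
    rw [← C_mul, ← map_natCast (algebraMap ℂ R), ← map_mul]; congr 2; ring
  have e3 : 2 * (C (algebraMap ℂ R (1 / 2)) : MvPolynomial (Fin N) R) = 1 := by
    rw [← map_ofNat (C : R →+* MvPolynomial (Fin N) R), ← map_ofNat (algebraMap ℂ R), ← C_mul,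
      ← map_mul]
    norm_num
  have e4 : (1 : MvPolynomial (Fin N) R) - C (algebraMap ℂ R (1 / 2)) =
      C (algebraMap ℂ R (1 / 2)) := by
    rw [← e3]; ring
  rw [Matrix.sub_apply, hs, e1, e2, e3]
  change _ = opA D.a n (p i j)
  rw [opA_apply]
  change algebraMap ℂ R (n / 2) • p i j - algebraMap ℂ R (1 / 2) • eulP (p i j)
      + algebraMap ℂ R (1 / 4) • (gXX D.G * p i j) - algebraMap ℂ R (N / 2) • p i j - _ = _
  simp only [smul_eq_C_mul]
  linear_combination (eulP (p i j)) * e4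

/-- TASK P02f. PROOF. By `B0`, `c0` only the part with `A` remains, for `β = 0`. -/
theorem LT_zero {D : PDat ι N R} (hD : D.Ok) (t : ℂ) (p : PM ι N R) :
    D.LT t 0 p = - ∑ μ, ∑ ν, D.A 0 μ ν • hM D.G μ (hM D.G ν p) := by
  have h1 : D.LL 1 0 = 0 := LL_lt hD (by norm_num)
  have h2 : D.LL 2 0 = 0 := LL_lt hD (by norm_num)
  rw [LT, Fin.sum_univ_three, h1, h2, smul_zero, smul_zero, add_zero, add_zero]
  simp [LL, hD.B0, hD.c0 0 0 (by norm_num)]

/-- The span of the powers `F^i`, `i < j`, with polynomial coefficients. -/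
def P02C_Sp (F : Matrix ι ι R) (j : ℕ) (M : PM ι N R) : Prop :=
  ∃ s : ℕ → MvPolynomial (Fin N) R, M = ∑ i ∈ Finset.range j, s i • ((F ^ i).map C : PM ι N R)

theorem P02C_add {F : Matrix ι ι R} {j : ℕ} {M M' : PM ι N R} (h : P02C_Sp F j M)
    (h' : P02C_Sp F j M') : P02C_Sp F j (M + M') := by
  obtain ⟨s, rfl⟩ := h
  obtain ⟨s', rfl⟩ := h'
  exact ⟨s + s', by simp [add_smul, Finset.sum_add_distrib]⟩

theorem P02C_smul {F : Matrix ι ι R} {j : ℕ} {M : PM ι N R} (q : MvPolynomial (Fin N) R)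
    (h : P02C_Sp F j M) : P02C_Sp F j (q • M) := by
  obtain ⟨s, rfl⟩ := h
  exact ⟨fun i => q * s i, by simp [mul_smul, Finset.smul_sum]⟩

theorem P02C_neg {F : Matrix ι ι R} {j : ℕ} {M : PM ι N R} (h : P02C_Sp F j M) :
    P02C_Sp F j (-M) := by
  have := P02C_smul (-1) h
  rwa [neg_one_smul] at this

theorem P02C_zero {F : Matrix ι ι R} {j : ℕ} : P02C_Sp F j (0 : PM ι N R) :=
  ⟨0, by simp⟩

theorem P02C_sum {F : Matrix ι ι R} {j : ℕ} {κ : Type*} (S : Finset κ) (M : κ → PM ι N R)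
    (h : ∀ k, P02C_Sp F j (M k)) : P02C_Sp F j (∑ k ∈ S, M k) := by
  classical
  induction S using Finset.induction_on with
  | empty => rw [Finset.sum_empty]; exact P02C_zero
  | insert a S ha ih => rw [Finset.sum_insert ha]; exact P02C_add (h a) ih

theorem P02C_mono {F : Matrix ι ι R} {j j' : ℕ} (hj : j ≤ j') {M : PM ι N R}
    (h : P02C_Sp F j M) : P02C_Sp F j' M := by
  obtain ⟨s, rfl⟩ := h
  refine ⟨fun i => if i < j then s i else 0, ?_⟩
  have e : Finset.range j = (Finset.range j').filter (· < j) := by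
    ext i; simp only [Finset.mem_range, Finset.mem_filter]; omega
  rw [e, Finset.sum_filter]
  exact Finset.sum_congr rfl fun i _ => by
    by_cases h : i < j
    · simp only [if_pos h]
    · simp only [if_neg h, zero_smul]

theorem P02C_mapM (ℓ : MvPolynomial (Fin N) R →ₗ[R] MvPolynomial (Fin N) R)
    (s : MvPolynomial (Fin N) R) (A : Matrix ι ι R) :
    ℓ.mapMatrix (s • (A.map C : PM ι N R)) = ℓ s • (A.map C : PM ι N R) := by
  ext1 i j
  change ℓ (s * C (A i j)) = ℓ s * C (A i j)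
  rw [mul_comm, ← smul_eq_C_mul, map_smul, smul_eq_C_mul, mul_comm]

theorem P02C_map {F : Matrix ι ι R} {j : ℕ}
    (ℓ : MvPolynomial (Fin N) R →ₗ[R] MvPolynomial (Fin N) R) {M : PM ι N R}
    (h : P02C_Sp F j M) : P02C_Sp F j (ℓ.mapMatrix M) := by
  obtain ⟨s, rfl⟩ := h
  exact ⟨fun i => ℓ (s i), by rw [map_sum]; exact Finset.sum_congr rfl fun i _ => P02C_mapM ℓ _ _⟩

theorem P02C_hM {F : Matrix ι ι R} {j : ℕ} (G : Fin N → Fin N → R) (μ : Fin N) {M : PM ι N R}
    (h : P02C_Sp F j M) : P02C_Sp F j (hM G μ M) := by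
  have e : hM G μ M = (pderiv μ).toLinearMap.mapMatrix M +
      -((C (algebraMap ℂ R (1 / 2)) * gX G μ) • M) := by
    rw [← sub_eq_add_neg]; rfl
  rw [e]
  exact P02C_add (P02C_map _ h) (P02C_neg (P02C_smul _ h))

theorem P02C_Fmul {F : Matrix ι ι R} (s : MvPolynomial (Fin N) R) (i : ℕ) :
    (F.map C : PM ι N R) * (s • ((F ^ i).map C : PM ι N R)) =
      s • ((F ^ (i + 1)).map C : PM ι N R) := by
  rw [Matrix.mul_smul, ← Matrix.map_mul, ← pow_succ']

theorem P02C_F {F : Matrix ι ι R} {j : ℕ} {M : PM ι N R} (h : P02C_Sp F j M) :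
    P02C_Sp F (j + 1) ((F.map C : PM ι N R) * M) := by
  obtain ⟨s, rfl⟩ := h
  refine ⟨fun i => if i = 0 then 0 else s (i - 1), ?_⟩
  rw [Finset.mul_sum, Finset.sum_range_succ']
  simp only [P02C_Fmul, if_true, zero_smul, add_zero]
  exact Finset.sum_congr rfl fun i _ => by simp

theorem P02C_LL {D : PDat ι N R} (F : Matrix ι ι R) {β : Fin 3} (hβ : β ≠ 0) (k : ℕ)
    (hB : ∀ μ, ∃ s : MvPolynomial (Fin N) R, D.B β k μ = s • (1 : PM ι N R)) {j : ℕ}
    {M : PM ι N R} (h : P02C_Sp F j M) :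
    ∃ M', P02C_Sp F j M' ∧ D.LL β k M = M' + D.c β k * M := by
  refine ⟨∑ μ, D.B β k μ * hM D.G μ M, P02C_sum _ _ fun μ => ?_, ?_⟩
  · obtain ⟨s, hs⟩ := hB μ
    rw [hs, Matrix.smul_mul, Matrix.one_mul]
    exact P02C_smul _ (P02C_hM _ _ h)
  · simp [LL, hβ]

/-- The leading part in `t`.
TASK P02g. PROOF. Strong induction on `b`. `b = 0`: `pp_zero_zero`. `b > 0`: `pp_rec` for `n = 2 * b`. A summand
`(k, β)` is not zero only if `2 * β ≤ 2 * b - k` (`LL_lt`) and `2 * (b - β) ≤ k` (`pp_eq_zero`), that is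
`k = 2 * (b - β)`, and `β ≠ 0` because `k < 2 * b`. So `pp (2 b) b = - opTM (LL 1 2 (pp (2 (b-1)) (b-1)) +
(if 2 ≤ b then LL 2 4 (pp (2 (b-2)) (b-2)) else 0))`. Let `𝓢 j` be the set of the matrices
`∑_{i<j} s_i • F^i` with polynomials `s_i` (scalars). By `hB1, hc1, hB2, hc2`: `LL 1 2` of `s • (F^i).map C` is
`s' • (F^i).map C + s • (F^(i+1)).map C`, `LL 2 4` of it is `s' • (F^i).map C`. `opTM` maps
`s • (F^i).map C` to `(opT s) • (F^i).map C` (`R`-linear in every entry) and, by `opT_C` (`n = 2 b`),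
`c • (F^b).map C` to `(c / b) • (F^b).map C`. -/
theorem pp_top {D : PDat ι N R} (hD : D.Ok) (F : Matrix ι ι R)
    (hB1 : ∀ μ, ∃ s : MvPolynomial (Fin N) R, D.B 1 2 μ = s • (1 : PM ι N R))
    (hc1 : ∃ s : MvPolynomial (Fin N) R, D.c 1 2 = F.map C + s • (1 : PM ι N R))
    (hB2 : ∀ μ, ∃ s : MvPolynomial (Fin N) R, D.B 2 4 μ = s • (1 : PM ι N R))
    (hc2 : ∃ s : MvPolynomial (Fin N) R, D.c 2 4 = s • (1 : PM ι N R)) (b : ℕ) :
    ∃ s : ℕ → MvPolynomial (Fin N) R, D.pp (2 * b) b =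
      ∑ j ∈ Finset.range b, s j • ((F ^ j).map C : PM ι N R)
        + algebraMap ℂ R ((-1) ^ b / (b.factorial : ℂ)) • ((F ^ b).map C : PM ι N R) := by
  induction b using Nat.strong_induction_on with
  | _ b ih =>
  rcases Nat.eq_zero_or_pos b with rfl | hb
  · refine ⟨0, ?_⟩
    rw [Nat.mul_zero, pp_zero_zero]
    simp only [Finset.range_zero, Finset.sum_empty, pow_zero, Nat.factorial_zero, Nat.cast_one,
      div_one, map_one, one_smul, zero_add]
    exact (Matrix.map_one _ C_0 C_1).symm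
  -- the value in the span of the powers up to `b`
  have hin : ∀ b' < b, P02C_Sp F (b' + 1) (D.pp (2 * b') b') := fun b' hb' => by
    obtain ⟨s, hs⟩ := ih b' hb'
    refine ⟨fun i => if i = b' then C (algebraMap ℂ R ((-1) ^ b' / (b'.factorial : ℂ))) else s i,
      ?_⟩
    rw [hs, Finset.sum_range_succ]
    congr 1
    · refine Finset.sum_congr rfl fun i hi => ?_
      simp only [if_neg (Finset.mem_range.1 hi).ne]
    · simp only [if_true]
      ext1 i j
      exact (smul_eq_C_mul _ _)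
  -- the recursion
  have h1 : D.pp (2 * b) b = - opTM D.a (2 * b) (D.LL 1 2 (D.pp (2 * (b - 1)) (b - 1)) +
      if 2 ≤ b then D.LL 2 4 (D.pp (2 * (b - 2)) (b - 2)) else 0) := by
    rw [pp_rec D (by omega) b]
    congr 2
    simp only [Fin.sum_univ_three]
    rw [Finset.sum_add_distrib, Finset.sum_add_distrib]
    have e0 : ∑ k : Fin (2 * b), (if ((0 : Fin 3) : ℕ) ≤ b then
        D.LL 0 (2 * b - k) (D.pp k (b - ((0 : Fin 3) : ℕ))) else 0) = 0 := by
      refine Finset.sum_eq_zero fun k _ => ?_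
      rw [if_pos (show ((0 : Fin 3) : ℕ) ≤ b from Nat.zero_le b),
        pp_eq_zero hD k _ (by simp), map_zero]
    have e1 : ∑ k : Fin (2 * b), (if ((1 : Fin 3) : ℕ) ≤ b then
        D.LL 1 (2 * b - k) (D.pp k (b - ((1 : Fin 3) : ℕ))) else 0) =
          D.LL 1 2 (D.pp (2 * (b - 1)) (b - 1)) := by
      rw [Finset.sum_eq_single ⟨2 * (b - 1), by omega⟩]
      · rw [if_pos (by simp; omega)]
        change D.LL 1 (2 * b - 2 * (b - 1)) (D.pp (2 * (b - 1)) (b - 1)) = _
        rw [show 2 * b - 2 * (b - 1) = 2 by omega]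
      · intro k _ hk
        have hk' : (k : ℕ) ≠ 2 * (b - 1) := fun h => hk (Fin.ext h)
        rw [if_pos (by simp; omega)]
        rcases lt_or_gt_of_ne hk' with h | h
        · rw [pp_eq_zero hD k _ (by simpa using h), map_zero]
        · rw [LL_lt hD (by have := k.2; simp; omega), LinearMap.zero_apply]
      · exact fun h => absurd (Finset.mem_univ _) h
    have e2 : ∑ k : Fin (2 * b), (if ((2 : Fin 3) : ℕ) ≤ b then
        D.LL 2 (2 * b - k) (D.pp k (b - ((2 : Fin 3) : ℕ))) else 0) =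
          if 2 ≤ b then D.LL 2 4 (D.pp (2 * (b - 2)) (b - 2)) else 0 := by
      split_ifs with h2 h2' h2'
      · rw [Finset.sum_eq_single ⟨2 * (b - 2), by omega⟩]
        · change D.LL 2 (2 * b - 2 * (b - 2)) (D.pp (2 * (b - 2)) (b - 2)) = _
          rw [show 2 * b - 2 * (b - 2) = 4 by omega]
        · intro k _ hk
          have hk' : (k : ℕ) ≠ 2 * (b - 2) := fun h => hk (Fin.ext h)
          rcases lt_or_gt_of_ne hk' with h | h
          · rw [pp_eq_zero hD k _ (by simpa using h), map_zero]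
          · rw [LL_lt hD (by have := k.2; simp; omega), LinearMap.zero_apply]
        · exact fun h => absurd (Finset.mem_univ _) h
      · exact absurd h2 h2'
      · exact absurd h2' h2
      · exact Finset.sum_const_zero
    rw [e0, e1, e2, zero_add]
  -- the part with `β = 2`
  have h2 : P02C_Sp F b (if 2 ≤ b then D.LL 2 4 (D.pp (2 * (b - 2)) (b - 2)) else 0) := by
    split_ifs with h
    · obtain ⟨s, hs⟩ := hc2
      have h0 := hin (b - 2) (by omega)
      obtain ⟨M', hM', e⟩ := P02C_LL F (β := 2) (by decide) 4 hB2 h0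
      rw [e, hs, Matrix.smul_mul, Matrix.one_mul]
      exact P02C_mono (by omega) (P02C_add hM' (P02C_smul _ h0))
    · exact P02C_zero
  -- the part with `β = 1`
  obtain ⟨s0, hs0⟩ := hc1
  have h3 := hin (b - 1) (by omega)
  obtain ⟨M', hM', e⟩ := P02C_LL F (β := 1) (by decide) 2 hB1 h3
  obtain ⟨s1, hs1⟩ := ih (b - 1) (by omega)
  have h4 : (F.map C : PM ι N R) * D.pp (2 * (b - 1)) (b - 1) =
      (F.map C : PM ι N R) * (∑ j ∈ Finset.range (b - 1), s1 j • ((F ^ j).map C : PM ι N R)) +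
      algebraMap ℂ R ((-1) ^ (b - 1) / ((b - 1).factorial : ℂ)) • ((F ^ b).map C : PM ι N R) := by
    rw [hs1, mul_add, Matrix.mul_smul, ← Matrix.map_mul, ← pow_succ', Nat.sub_add_cancel hb]
  have h5 : ∃ M'', P02C_Sp F b M'' ∧ D.LL 1 2 (D.pp (2 * (b - 1)) (b - 1)) = M'' +
      algebraMap ℂ R ((-1) ^ (b - 1) / ((b - 1).factorial : ℂ)) • ((F ^ b).map C : PM ι N R) := by
    refine ⟨M' + s0 • D.pp (2 * (b - 1)) (b - 1) +
      (F.map C : PM ι N R) * (∑ j ∈ Finset.range (b - 1), s1 j • ((F ^ j).map C : PM ι N R)),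
      ?_, ?_⟩
    · have h6 : P02C_Sp F (b - 1 + 1) ((F.map C : PM ι N R) *
          (∑ j ∈ Finset.range (b - 1), s1 j • ((F ^ j).map C : PM ι N R))) := P02C_F ⟨s1, rfl⟩
      have h7 := P02C_add (P02C_add hM' (P02C_smul s0 h3)) h6
      rwa [Nat.sub_add_cancel hb] at h7
    · rw [e, hs0, add_mul, h4, Matrix.smul_mul, Matrix.one_mul]
      abel
  obtain ⟨M'', hM'', e5⟩ := h5
  have h8 : P02C_Sp F b (-(opT D.a (2 * b)).mapMatrix
      (M'' + if 2 ≤ b then D.LL 2 4 (D.pp (2 * (b - 2)) (b - 2)) else 0)) :=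
    P02C_neg (P02C_map _ (P02C_add hM'' h2))
  obtain ⟨s, hs⟩ := h8
  refine ⟨s, ?_⟩
  rw [h1, e5, ← hs, opTM, add_right_comm, map_add, neg_add]
  congr 1
  ext1 i j
  change -(opT D.a (2 * b) (algebraMap ℂ R ((-1) ^ (b - 1) / ((b - 1).factorial : ℂ)) •
    C ((F ^ b) i j))) = algebraMap ℂ R ((-1) ^ b / (b.factorial : ℂ)) • C ((F ^ b) i j)
  rw [map_smul, opT_C _ (by omega), C_mul, ← smul_eq_C_mul, smul_smul, ← neg_smul, ← map_mul,
    ← map_neg]
  congr 2
  have hb0 : (b : ℂ) ≠ 0 := Nat.cast_ne_zero.2 hb.ne'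
  have hf : ((b - 1).factorial : ℂ) ≠ 0 := Nat.cast_ne_zero.2 (Nat.factorial_ne_zero _)
  have e6 : (b.factorial : ℂ) = b * (b - 1).factorial := by
    rw [← Nat.cast_mul, Nat.mul_factorial_pred hb.ne']
  have e7 : (-1 : ℂ) ^ b = - (-1) ^ (b - 1) := by
    conv_lhs => rw [← Nat.sub_add_cancel hb, pow_succ]
    ring
  rw [e6, e7]
  push_cast
  field_simp

end PDat

end Pool.Agent.Lib.MP_df705a_gt.RL
end
end

section

/-!
# RL2 parametrix: evaluation of polynomials, Taylor polynomials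
-/

open scoped ContDiff InnerProductSpace Matrix
open MeasureTheory

noncomputable section

set_option linter.unusedSectionVars false

namespace Pool.Agent.Lib.MP_df705a_gt.RL

variable {X : Type*} [MeasurableSpace X] {P : Measure X} [IsProbabilityMeasure P] {N m : ℕ}
  {ρ : ℝ}

/-- The index set of the spinor components. -/
abbrev Ix (m : ℕ) : Type := Fin (2 ^ m)

/-- A matrix as an endomorphism of the space of spinors. -/
def toEn (A : Matrix (Ix m) (Ix m) ℂ) : En m := Matrix.toEuclideanCLM (𝕜 := ℂ) A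

/-- The matrix of an endomorphism of the space of spinors. -/
def ofEn (A : En m) : Matrix (Ix m) (Ix m) ℂ := (Matrix.toEuclideanCLM (𝕜 := ℂ)).symm A

/-- The value of a matrix of polynomials. -/
def evM (x : X) (z η : V N) (p : PM (Ix m) N (Rg P N ρ)) : En m := toEn (p.map (ev x z η))

/-- The value of a matrix of smooth families. -/
def evF (x : X) (z v : V N) (f : Matrix (Ix m) (Ix m) (Fm P N ρ)) : En m :=
  toEn (f.map fun u => u.1 x z v)

/-- The matrix of the Taylor remainders. -/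
def remM (k : ℕ) (f : Matrix (Ix m) (Ix m) (Fm P N ρ)) (x : X) (z v : V N) : En m :=
  toEn (f.map fun u => rem k u x z v)

/-! ### P04: algebra of the evaluations -/

theorem evM_add (x : X) (z η : V N) (p q : PM (Ix m) N (Rg P N ρ)) :
    evM x z η (p + q) = evM x z η p + evM x z η q := by
  unfold evM toEn
  rw [Matrix.map_add _ (map_add _), map_add]

theorem evM_sub (x : X) (z η : V N) (p q : PM (Ix m) N (Rg P N ρ)) :
    evM x z η (p - q) = evM x z η p - evM x z η q := by
  unfold evM toEn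
  rw [Matrix.map_sub _ (map_sub _), map_sub]

theorem evM_neg (x : X) (z η : V N) (p : PM (Ix m) N (Rg P N ρ)) :
    evM x z η (-p) = - evM x z η p := by
  rw [← zero_sub, evM_sub]
  have h : evM x z η (0 : PM (Ix m) N (Rg P N ρ)) = 0 := by
    unfold evM toEn
    rw [Matrix.map_zero _ (map_zero _), map_zero]
  rw [h, zero_sub]

theorem evM_zero (x : X) (z η : V N) : evM x z η (0 : PM (Ix m) N (Rg P N ρ)) = 0 := by
  unfold evM toEn
  rw [Matrix.map_zero _ (map_zero _), map_zero]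

theorem evM_one (x : X) (z η : V N) : evM x z η (1 : PM (Ix m) N (Rg P N ρ)) = 1 := by
  unfold evM toEn
  rw [Matrix.map_one _ (map_zero _) (map_one _), map_one]

theorem evM_sum {κ : Type*} (x : X) (z η : V N) (s : Finset κ)
    (p : κ → PM (Ix m) N (Rg P N ρ)) :
    evM x z η (∑ i ∈ s, p i) = ∑ i ∈ s, evM x z η (p i) := by
  classical
  induction s using Finset.induction_on with
  | empty => rw [Finset.sum_empty, Finset.sum_empty, evM_zero]
  | insert a s ha ih => rw [Finset.sum_insert ha, Finset.sum_insert ha, evM_add, ih]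

theorem evM_mul (x : X) (z η : V N) (p q : PM (Ix m) N (Rg P N ρ)) :
    evM x z η (p * q) = evM x z η p * evM x z η q := by
  unfold evM toEn
  rw [Matrix.map_mul, map_mul]

theorem evM_smul (x : X) (z η : V N) (s : MvPolynomial (Fin N) (Rg P N ρ))
    (p : PM (Ix m) N (Rg P N ρ)) : evM x z η (s • p) = ev x z η s • evM x z η p := by
  unfold evM toEn
  rw [← map_smul]
  congr 1
  ext i j
  exact map_mul (ev x z η) s (p i j)

theorem evM_smul_R (x : X) (z η : V N) (s : Rg P N ρ) (p : PM (Ix m) N (Rg P N ρ)) :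
    evM x z η (s • p) = (s.1 x z) • evM x z η p := by
  have h : evM x z η (s • p) = evM x z η ((MvPolynomial.C s : MvPolynomial (Fin N) (Rg P N ρ)) • p) := by
    unfold evM
    congr 2
    ext1 i j
    exact MvPolynomial.smul_eq_C_mul _ _
  rw [h, evM_smul]
  congr 1
  exact MvPolynomial.eval₂_C _ _ _

theorem evM_smul_C (x : X) (z η : V N) (s : ℂ) (p : PM (Ix m) N (Rg P N ρ)) :
    evM x z η (algebraMap ℂ (Rg P N ρ) s • p) = s • evM x z η p := by
  exact evM_smul_R x z η (algebraMap ℂ (Rg P N ρ) s) p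

theorem evM_mapC (x : X) (z η : V N) (F : Matrix (Ix m) (Ix m) (Rg P N ρ)) :
    evM x z η (F.map MvPolynomial.C : PM (Ix m) N (Rg P N ρ)) = toEn (F.map fun u => u.1 x z) := by
  unfold evM
  congr 1
  ext i j
  exact MvPolynomial.eval₂_C _ _ _

/-- PROOF. `‖A‖ ≤ ∑ |entries|`: for a unit vector `u`, `‖A u‖ ≤ ∑_i |(A u) i| ≤ ∑_i ∑_j |A i j|`. -/
theorem norm_toEn_le (A : Matrix (Ix m) (Ix m) ℂ) : ‖toEn A‖ ≤ ∑ i, ∑ j, ‖A i j‖ := by
  refine ContinuousLinearMap.opNorm_le_bound _
    (Finset.sum_nonneg fun i _ => Finset.sum_nonneg fun j _ => norm_nonneg _) fun u => ?_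
  have h1 : ∀ w : Sp m, ‖w‖ ≤ ∑ i, ‖w i‖ := fun w => by
    rw [EuclideanSpace.norm_eq]
    exact Real.sqrt_le_iff.2 ⟨Finset.sum_nonneg fun i _ => norm_nonneg _,
      Finset.sum_sq_le_sq_sum_of_nonneg fun i _ => norm_nonneg _⟩
  refine (h1 _).trans ?_
  rw [Finset.sum_mul]
  refine Finset.sum_le_sum fun i _ => ?_
  rw [Finset.sum_mul]
  change ‖∑ j, A i j * u j‖ ≤ _
  refine (norm_sum_le _ _).trans (Finset.sum_le_sum fun j _ => ?_)
  rw [norm_mul]
  exact mul_le_mul_of_nonneg_left (PiLp.norm_apply_le u j) (norm_nonneg _)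

end Pool.Agent.Lib.MP_df705a_gt.RL
end
end

section

/-!
# RL2, Z3: expansions and polynomials
-/

open scoped ContDiff InnerProductSpace Matrix ENNReal NNReal Topology
open MeasureTheory Filter Set

noncomputable section

namespace Pool.Agent.Lib.MP_df705a_gt.RL

/-- Interpolation (invertibility of the Vandermonde matrix of the points `(j+1)/(m+1)`). -/
theorem exists_interp (m b : ℕ) (hb : b ≤ m) : ∃ c : ℕ → ℝ, ∀ i ≤ m,
    ∑ j ∈ Finset.range (m + 1), c j * (((j : ℝ) + 1) / (m + 1)) ^ i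
      = if i = b then 1 else 0 := by
  set v : ℕ → ℝ := fun j => ((j : ℝ) + 1) / (m + 1) with hv
  have hm : (0 : ℝ) < (m : ℝ) + 1 := by positivity
  have hinj : Set.InjOn v (Finset.range (m + 1) : Finset ℕ) := by
    intro i _ j _ h
    simp only [hv] at h
    have h1 := (div_left_inj' hm.ne').1 h
    exact_mod_cast (add_left_injective (1 : ℝ)) h1
  refine ⟨fun j => (Lagrange.basis (Finset.range (m + 1)) v j).coeff b, fun i hi => ?_⟩
  have hdeg : (Polynomial.X ^ i : Polynomial ℝ).degree < (Finset.range (m + 1)).card := by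
    rw [Polynomial.degree_X_pow, Finset.card_range]
    exact_mod_cast Nat.lt_succ_of_le hi
  have h := Lagrange.eq_interpolate hinj hdeg
  have h2 := congrArg (fun p => Polynomial.coeff p b) h
  simp only [Lagrange.interpolate_apply, Polynomial.finsetSum_coeff, Polynomial.coeff_C_mul,
    Polynomial.coeff_X_pow, Polynomial.eval_pow, Polynomial.eval_X] at h2
  have h3 : (if i = b then (1 : ℝ) else 0) = if b = i then (1 : ℝ) else 0 := by
    simp only [eq_comm]
  rw [h3, h2]
  refine Finset.sum_congr rfl fun j _ => ?_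
  simp only [hv]
  ring

/-- The points `(j+1)/(m+1)`. -/
private theorem z3_node {m j : ℕ} (hj : j ∈ Finset.range (m + 1)) :
    0 < ((j : ℝ) + 1) / (m + 1) ∧ ((j : ℝ) + 1) / (m + 1) ≤ 1 := by
  have hm : (0 : ℝ) < (m : ℝ) + 1 := by positivity
  refine ⟨by positivity, ?_⟩
  rw [div_le_one hm]
  have : (j : ℝ) ≤ m := by exact_mod_cast Nat.lt_succ_iff.1 (Finset.mem_range.1 hj)
  linarith

/-- Extraction of the coefficient `b` by interpolation. -/
private theorem z3_extract {m b : ℕ} (hb : b ≤ m) {c : ℕ → ℝ} (hc : ∀ i ≤ m,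
    ∑ j ∈ Finset.range (m + 1), c j * (((j : ℝ) + 1) / (m + 1)) ^ i
      = if i = b then 1 else 0) (α : ℕ → ℝ) (s : ℝ) :
    ∑ j ∈ Finset.range (m + 1), c j *
      ∑ i ∈ Finset.range (m + 1), (s * (((j : ℝ) + 1) / (m + 1))) ^ i * α i = s ^ b * α b := by
  have h1 : ∀ j ∈ Finset.range (m + 1), c j *
      ∑ i ∈ Finset.range (m + 1), (s * (((j : ℝ) + 1) / (m + 1))) ^ i * α i
      = ∑ i ∈ Finset.range (m + 1), (s ^ i * α i) * (c j * (((j : ℝ) + 1) / (m + 1)) ^ i) := by
    intro j _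
    rw [Finset.mul_sum]
    refine Finset.sum_congr rfl fun i _ => ?_
    rw [mul_pow]
    ring
  rw [Finset.sum_congr rfl h1, Finset.sum_comm]
  have h2 : ∀ i ∈ Finset.range (m + 1),
      ∑ j ∈ Finset.range (m + 1), (s ^ i * α i) * (c j * (((j : ℝ) + 1) / (m + 1)) ^ i)
      = if i = b then s ^ b * α b else 0 := by
    intro i hi
    rw [← Finset.mul_sum, hc i (Nat.lt_succ_iff.1 (Finset.mem_range.1 hi))]
    split_ifs with h
    · rw [h, mul_one]
    · rw [mul_zero]
  rw [Finset.sum_congr rfl h2, Finset.sum_ite_eq' (Finset.range (m + 1)) b,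
    if_pos (Finset.mem_range.2 (Nat.lt_succ_of_le hb))]

/-- Error bound for the extraction. -/
private theorem z3_bound {m : ℕ} {c : ℕ → ℝ} {b : ℕ} (hb : b ≤ m) (hc : ∀ i ≤ m,
    ∑ j ∈ Finset.range (m + 1), c j * (((j : ℝ) + 1) / (m + 1)) ^ i
      = if i = b then 1 else 0) {α : ℕ → ℝ} {P : ℝ → ℝ} {C : ℝ} (h : ∀ t, 0 < t → t ≤ 1 →
    |P t - ∑ n ∈ Finset.range (m + 1), t ^ n * α n| ≤ C * t ^ (m + 1)) {s : ℝ} (hs : 0 < s)
    (hs1 : s ≤ 1) :
    |(∑ j ∈ Finset.range (m + 1), c j * P (s * (((j : ℝ) + 1) / (m + 1)))) / s ^ b - α b|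
      ≤ (|C| * ∑ j ∈ Finset.range (m + 1), |c j|) * s := by
  have hsb : 0 < s ^ b := pow_pos hs b
  have e1 : (∑ j ∈ Finset.range (m + 1), c j * P (s * (((j : ℝ) + 1) / (m + 1)))) / s ^ b - α b
      = (∑ j ∈ Finset.range (m + 1), c j * (P (s * (((j : ℝ) + 1) / (m + 1)))
        - ∑ i ∈ Finset.range (m + 1), (s * (((j : ℝ) + 1) / (m + 1))) ^ i * α i)) / s ^ b := by
    simp only [mul_sub, Finset.sum_sub_distrib]
    rw [z3_extract hb hc α s]
    field_simp
  rw [e1, abs_div, abs_of_pos hsb, div_le_iff₀ hsb]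
  have e2 : ∀ j ∈ Finset.range (m + 1), |c j * (P (s * (((j : ℝ) + 1) / (m + 1)))
        - ∑ i ∈ Finset.range (m + 1), (s * (((j : ℝ) + 1) / (m + 1))) ^ i * α i)|
      ≤ |c j| * (|C| * s ^ (m + 1)) := by
    intro j hj
    obtain ⟨h0, h1⟩ := z3_node hj
    rw [abs_mul]
    refine mul_le_mul_of_nonneg_left ?_ (abs_nonneg _)
    refine (h _ (mul_pos hs h0) (mul_le_one₀ hs1 h0.le h1)).trans ?_
    refine mul_le_mul (le_abs_self C) ?_ (by positivity) (abs_nonneg _)
    exact pow_le_pow_left₀ (by positivity) (mul_le_of_le_one_right hs.le h1) _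
  refine (Finset.abs_sum_le_sum_abs _ _).trans ((Finset.sum_le_sum e2).trans ?_)
  rw [← Finset.sum_mul]
  have e3 : s ^ (m + 1) ≤ s * s ^ b := by
    rw [← pow_succ']
    exact pow_le_pow_of_le_one hs.le hs1 (by omega)
  have h4 : 0 ≤ (∑ j ∈ Finset.range (m + 1), |c j|) * |C| :=
    mul_nonneg (Finset.sum_nonneg fun j _ => abs_nonneg _) (abs_nonneg _)
  calc (∑ j ∈ Finset.range (m + 1), |c j|) * (|C| * s ^ (m + 1))
      = ((∑ j ∈ Finset.range (m + 1), |c j|) * |C|) * s ^ (m + 1) := by ring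
    _ ≤ ((∑ j ∈ Finset.range (m + 1), |c j|) * |C|) * (s * s ^ b) :=
        mul_le_mul_of_nonneg_left e3 h4
    _ = (|C| * ∑ j ∈ Finset.range (m + 1), |c j|) * s * s ^ b := by ring

/-- A real number `≤ K s` in absolute value for all small `s` vanishes. -/
private theorem z3_zero {a K : ℝ} (h : ∀ s, 0 < s → s ≤ 1 → |a| ≤ K * s) : a = 0 := by
  by_contra ha
  have hpos : 0 < |a| := abs_pos.2 ha
  have hK : 0 < K := by
    have := h 1 one_pos le_rfl
    linarith
  have hs : 0 < min 1 (|a| / (2 * K)) := lt_min one_pos (by positivity)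
  have h1 := h _ hs (min_le_left _ _)
  have h2 : K * min 1 (|a| / (2 * K)) ≤ K * (|a| / (2 * K)) :=
    mul_le_mul_of_nonneg_left (min_le_right _ _) hK.le
  have h3 : K * (|a| / (2 * K)) = |a| / 2 := by field_simp
  linarith

/-- A polynomial of degree `≤ m` which is `O(t^(m+1))` vanishes. (With `exists_interp m m`:
`h^m α m = ∑_j c_j p(h t_j)`, so `|α m| ≤ C' h` for `0 < h ≤ 1`.) -/
theorem coef_zero {m : ℕ} {α : ℕ → ℝ} {C : ℝ} (h : ∀ t, 0 < t → t ≤ 1 →
    |∑ b ∈ Finset.range (m + 1), t ^ b * α b| ≤ C * t ^ (m + 1)) : α m = 0 := by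
  obtain ⟨c, hc⟩ := exists_interp m m le_rfl
  have h' : ∀ t, 0 < t → t ≤ 1 →
      |(fun _ : ℝ => (0 : ℝ)) t - ∑ n ∈ Finset.range (m + 1), t ^ n * α n| ≤ C * t ^ (m + 1) := by
    intro t ht ht1
    simpa [abs_neg] using h t ht ht1
  refine z3_zero (K := |C| * ∑ j ∈ Finset.range (m + 1), |c j|) fun s hs hs1 => ?_
  have h1 := z3_bound le_rfl hc h' hs hs1
  simpa [abs_neg] using h1

/-- Rewriting of the expansion in `√r` as a polynomial in `t = √r`. -/
private theorem z3_sqrt {m : ℕ} {β : ℕ → ℝ} {D : ℝ → ℝ} {C : ℝ} (h : ∀ r, 0 < r → r ≤ 1 →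
    |D r - ∑ n ∈ Finset.range (2 * m + 1), (√r) ^ n / r ^ m * β n| ≤ C * √r) :
    ∀ t, 0 < t → t ≤ 1 →
      |t ^ (2 * m) * D (t ^ 2) - ∑ n ∈ Finset.range (2 * m + 1), t ^ n * β n|
        ≤ C * t ^ (2 * m + 1) := by
  intro t ht ht1
  have h1 := h (t ^ 2) (by positivity) (pow_le_one₀ ht.le ht1)
  rw [Real.sqrt_sq ht.le] at h1
  have hp : 0 < t ^ (2 * m) := by positivity
  have e1 : t ^ (2 * m) * D (t ^ 2) - ∑ n ∈ Finset.range (2 * m + 1), t ^ n * β n
      = t ^ (2 * m) * (D (t ^ 2)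
        - ∑ n ∈ Finset.range (2 * m + 1), t ^ n / (t ^ 2) ^ m * β n) := by
    rw [mul_sub, Finset.mul_sum]
    congr 1
    refine Finset.sum_congr rfl fun n _ => ?_
    rw [← pow_mul]
    field_simp
  rw [e1, abs_mul, abs_of_pos hp]
  calc t ^ (2 * m) * |D (t ^ 2) - ∑ n ∈ Finset.range (2 * m + 1), t ^ n / (t ^ 2) ^ m * β n|
      ≤ t ^ (2 * m) * (C * t) := mul_le_mul_of_nonneg_left h1 hp.le
    _ = C * t ^ (2 * m + 1) := by ring

/-- A constant with an asymptotic expansion. (Induction on `n`: `β n = 0` for `n < 2m`; multiply by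
`r^m / √r^n`.) -/
theorem const_expansion {m : ℕ} {β : ℕ → ℝ} {I C : ℝ} (h : ∀ r, 0 < r → r ≤ 1 →
    |I - ∑ n ∈ Finset.range (2 * m + 1), (√r) ^ n / r ^ m * β n| ≤ C * √r) :
    I = β (2 * m) := by
  have h1 := z3_sqrt (D := fun _ => I) h
  have h2 : (fun n => if n = 2 * m then I - β n else - β n) (2 * m) = 0 := by
    refine coef_zero (m := 2 * m) (α := fun n => if n = 2 * m then I - β n else - β n) (C := C)
      fun t ht ht1 => ?_
    refine le_of_eq_of_le (congrArg abs ?_) (h1 t ht ht1)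
    rw [Finset.sum_range_succ, Finset.sum_range_succ]
    have e : ∑ x ∈ Finset.range (2 * m), t ^ x * (if x = 2 * m then I - β x else -β x)
        = - ∑ x ∈ Finset.range (2 * m), t ^ x * β x := by
      rw [← Finset.sum_neg_distrib]
      refine Finset.sum_congr rfl fun x hx => ?_
      rw [if_neg (Finset.mem_range.1 hx).ne]
      ring
    rw [e, if_pos rfl]
    ring
  simp only [if_true] at h2
  linarith

/-- The coefficients of an asymptotic expansion of measurable functions are measurable. (Strong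
induction: `β n = lim r^m / √r^n (D r - ∑_{k<n} √r^k / r^m β k)` for `r = 1/(j+1)`, `j → ∞`.) -/
theorem measurable_coef {m : ℕ} {X : Type*} [MeasurableSpace X] {D : ℝ → X → ℝ}
    (hD : ∀ r, 0 < r → r ≤ 1 → Measurable (D r)) {β : ℕ → X → ℝ} {Φ : X → ℝ}
    (h : ∀ x r, 0 < r → r ≤ 1 →
      |D r x - ∑ n ∈ Finset.range (2 * m + 1), (√r) ^ n / r ^ m * β n x| ≤ Φ x * √r) :
    ∀ n ≤ 2 * m, Measurable (β n) := by
  intro b hb
  obtain ⟨c, hc⟩ := exists_interp (2 * m) b hb
  set s : ℕ → ℝ := fun k => 1 / ((k : ℝ) + 1) with hs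
  have hs0 : ∀ k, 0 < s k := fun k => by simp only [hs]; positivity
  have hs1 : ∀ k, s k ≤ 1 := fun k => by
    simp only [hs]
    rw [div_le_one (by positivity)]
    have : (0 : ℝ) ≤ k := by positivity
    linarith
  set P : ℝ → X → ℝ := fun t x => t ^ (2 * m) * D (t ^ 2) x with hP
  set F : ℕ → X → ℝ := fun k x => (∑ j ∈ Finset.range (2 * m + 1),
    c j * P (s k * (((j : ℝ) + 1) / ((2 * m : ℕ) + 1))) x) / s k ^ b with hF
  have hFm : ∀ k, Measurable (F k) := by
    intro k
    refine (Finset.measurable_sum _ fun j hj => ?_).div_const _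
    obtain ⟨h0, h1⟩ := z3_node hj
    refine Measurable.const_mul (Measurable.const_mul (hD _ ?_ ?_) _) _
    · exact pow_pos (mul_pos (hs0 k) h0) 2
    · exact pow_le_one₀ (mul_pos (hs0 k) h0).le (mul_le_one₀ (hs1 k) h0.le h1)
  refine measurable_of_tendsto_metrizable hFm ?_
  rw [tendsto_pi_nhds]
  intro x
  have hb' := fun k => z3_bound (α := fun n => β n x) hb hc
    (z3_sqrt (D := fun r => D r x) (fun r hr hr1 => h x r hr hr1)) (hs0 k) (hs1 k)
  have hlim : Tendsto (fun k => (|Φ x| * ∑ j ∈ Finset.range (2 * m + 1), |c j|) * s k) atTop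
      (𝓝 0) := by
    have := (tendsto_one_div_add_atTop_nhds_zero_nat (𝕜 := ℝ)).const_mul
      (|Φ x| * ∑ j ∈ Finset.range (2 * m + 1), |c j|)
    rwa [mul_zero] at this
  rw [tendsto_iff_norm_sub_tendsto_zero]
  refine squeeze_zero (fun _ => norm_nonneg _) (fun k => ?_) hlim
  rw [Real.norm_eq_abs]
  exact hb' k

/-- The coefficients of a polynomial in `t` which is measurable for every `t` are measurable. -/
theorem measurable_poly {m : ℕ} {X : Type*} [MeasurableSpace X] {A : X → ℕ → ℝ}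
    (h : ∀ t, 0 < t → t ≤ 1 → Measurable fun x => ∑ b ∈ Finset.range (m + 1), t ^ b * A x b) :
    ∀ b ≤ m, Measurable fun x => A x b := by
  intro b hb
  obtain ⟨c, hc⟩ := exists_interp m b hb
  have e : (fun x => A x b) = fun x => ∑ j ∈ Finset.range (m + 1), c j *
      ∑ i ∈ Finset.range (m + 1), (((j : ℝ) + 1) / (m + 1)) ^ i * A x i := by
    funext x
    have := z3_extract hb hc (A x) 1
    simp only [one_mul, one_pow] at this
    exact this.symm
  rw [e]
  refine Finset.measurable_sum _ fun j hj => ?_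
  obtain ⟨h0, h1⟩ := z3_node hj
  exact (h _ h0 h1).const_mul _

end Pool.Agent.Lib.MP_df705a_gt.RL
end
end
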