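import Pool.Agent.Lib.MP_df705a_gt.Mg.G030
import Pool.Agent.Lib.MP_df705a_gt.Mg.G043
import Pool.Agent.Lib.MP_df705a_gt.Mg.G032
import Pool.Agent.Lib.MP_df705a_gt.Mg.G040

section

/-!
# RL2, G5: measurability in the parameter of `D_x φ` and of multiplication operators
-/

open scoped ContDiff InnerProductSpace Matrix ENNReal Topology
open MeasureTheory Filter

noncomputable section

namespace Pool.Agent.Lib.MP_df705a_gt.RL

variable {m : ℕ} {X : Type*} [MeasurableSpace X]

/-- `D_B φ = D_0 φ + ∑ e_a^μ i B_μ c_a φ`, so `(x, y) ↦ D_{B x} φ (y)` is jointly measurable. -/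
theorem measurable_dirac (C : Cliff m) (g : Geo (2 * m)) (B : X → Pot (2 * m))
    (hm : ∀ μ, Measurable fun p : X × V (2 * m) => B p.1 μ p.2) {φ : V (2 * m) → Sp m}
    (hφ : IsTF φ) :
    StronglyMeasurable fun p : X × V (2 * m) => C.dirac g (B p.1) φ p.2 := by
  have hpd : ∀ μ, StronglyMeasurable fun p : X × V (2 * m) => pd μ φ p.2 := fun μ =>
    ((contDiff_pd hφ.1 μ).continuous.stronglyMeasurable).comp_measurable measurable_snd
  have hφ' : StronglyMeasurable fun p : X × V (2 * m) => φ p.2 :=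
    (hφ.1.continuous.stronglyMeasurable).comp_measurable measurable_snd
  have h0 : IsPot (fun _ _ => 0 : Pot (2 * m)) := fun _ => contDiff_const
  have hc : ∀ μ, StronglyMeasurable fun p : X × V (2 * m) =>
      C.conn g (fun _ _ => 0) μ p.2 (φ p.2) := fun μ =>
    (((contDiff_conn C g h0 μ).continuous.clm_apply hφ.1.continuous).stronglyMeasurable).comp_measurable
      measurable_snd
  have he : ∀ μ a, StronglyMeasurable fun p : X × V (2 * m) => (g.e p.2 μ a : ℂ) := fun μ a =>
    ((Complex.continuous_ofReal.comp (g.smooth_e μ a).continuous).stronglyMeasurable).comp_measurable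
      measurable_snd
  have hB' : ∀ μ, StronglyMeasurable fun p : X × V (2 * m) =>
      (Complex.I * (B p.1 μ p.2 : ℂ)) := fun μ =>
    ((Complex.measurable_ofReal.comp (hm μ)).stronglyMeasurable).const_mul _
  have hnab : ∀ μ, StronglyMeasurable fun p : X × V (2 * m) => C.nab g (B p.1) μ φ p.2 := by
    intro μ
    have h1 : (fun p : X × V (2 * m) => C.nab g (B p.1) μ φ p.2) = fun p =>
        pd μ φ p.2 + (C.conn g (fun _ _ => 0) μ p.2 (φ p.2) +
          (Complex.I * (B p.1 μ p.2 : ℂ)) • φ p.2) := by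
      funext p
      simp [Cliff.nab, Cliff.conn]
    rw [h1]
    exact (hpd μ).add ((hc μ).add ((hB' μ).smul hφ'))
  unfold Cliff.dirac Cliff.nabE
  refine Finset.stronglyMeasurable_fun_sum _ fun a _ => ?_
  refine (C.c a).continuous.comp_stronglyMeasurable ?_
  exact Finset.stronglyMeasurable_fun_sum _ fun μ _ => (he μ a).smul (hnab μ)

/-- Let `f : X × V → Sp` be jointly measurable and `f x` square integrable for all `x`. Then
`x ↦ emb (f x)` is strongly measurable: `stronglyMeasurable_of_inner`, and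
`⟪u, emb (f x)⟫ = ∫ ⟪u y, f x y⟫` is measurable in `x` (`StronglyMeasurable.integral_prod_right`;
replace `u` by a measurable representative). -/
theorem sm_emb (g : Geo (2 * m)) {f : X → V (2 * m) → Sp m}
    (hf : StronglyMeasurable fun p : X × V (2 * m) => f p.1 p.2)
    (h2 : ∀ x, MemLp (f x) 2 g.vol) : StronglyMeasurable fun x => g.emb (f x) := by
  refine stronglyMeasurable_of_inner fun u => ?_
  have hu : StronglyMeasurable fun p : X × V (2 * m) => u p.2 :=
    (Lp.stronglyMeasurable u).comp_measurable measurable_snd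
  have h1 : StronglyMeasurable fun x => ∫ y, ⟪f x y, u y⟫_ℂ ∂g.vol := by
    refine StronglyMeasurable.integral_prod_right ?_
    exact hf.inner hu
  have h3 : (fun x => ⟪u, g.emb (f x)⟫_ℂ) = fun x =>
      (starRingEnd ℂ) (∫ y, ⟪f x y, u y⟫_ℂ ∂g.vol) := by
    funext x
    rw [← g.inner_emb_left (h2 x) u, inner_conj_symm]
  rw [h3]
  exact (Complex.continuous_conj.comp_stronglyMeasurable h1).measurable

theorem sm_emb_dirac (C : Cliff m) (g : Geo (2 * m)) (B : X → Pot (2 * m))
    (hB : ∀ x, IsPot (B x)) (hm : ∀ μ, Measurable fun p : X × V (2 * m) => B p.1 μ p.2)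
    {φ : V (2 * m) → Sp m} (hφ : IsTF φ) :
    StronglyMeasurable fun x => g.emb (C.dirac g (B x) φ) :=
  sm_emb g (measurable_dirac C g B hm hφ) fun x => g.memLp_tf (isTF_dirac C g (hB x) hφ)

/-- Multiplication with jointly measurable functions; `u` replaced by a measurable representative. -/
theorem om_mulE (g : Geo (2 * m)) {A : X → V (2 * m) → En m} (hb : ∀ x, BddM (A x))
    (hm : StronglyMeasurable fun p : X × V (2 * m) => A p.1 p.2) : OM fun x => g.mulE (A x) := by
  intro v
  have h1 : (fun x => g.mulE (A x) v) = fun x => g.emb (fun y => A x y (v y)) := by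
    funext x
    have h2 := g.mulE_emb (hb x) (Lp.memLp v)
    rw [g.emb_self] at h2
    exact h2
  rw [h1]
  have hv : StronglyMeasurable fun p : X × V (2 * m) => v p.2 :=
    (Lp.stronglyMeasurable v).comp_measurable measurable_snd
  refine sm_emb g (f := fun x y => A x y (v y)) ?_ fun x => (hb x).memLp v
  exact (isBoundedBilinearMap_apply.continuous).comp_stronglyMeasurable (hm.prodMk hv)

end Pool.Agent.Lib.MP_df705a_gt.RL
end
end

section

/-!
# RL2, G6: the radial primitive of a closed two-form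
-/

open scoped ContDiff InnerProductSpace Matrix ENNReal Topology
open MeasureTheory Filter

noncomputable section

namespace Pool.Agent.Lib.MP_df705a_gt.RL

variable {N m : ℕ} {X : Type*} [MeasurableSpace X]

/-- Parametric integrals over `[0, 1]` of smooth functions are smooth, and one may differentiate under
the integral sign: `fderiv f y = ∫ fderiv (F (r, ·)) y dr` (`hasFDerivAt_integral_of_dominated...`,
bounds on compact sets), then induction on the order of differentiability. -/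
theorem contDiff_param {E F : Type*} [NormedAddCommGroup E] [NormedSpace ℝ E]
    [FiniteDimensional ℝ E] [NormedAddCommGroup F] [NormedSpace ℝ F] [CompleteSpace F]
    {f : ℝ × E → F} (hf : ContDiff ℝ ∞ f) :
    ContDiff ℝ ∞ fun y => ∫ r in (0:ℝ)..1, f (r, y) := by
  let χ : ContDiffBump (0 : ℝ) := ⟨2, 3, by norm_num, by norm_num⟩
  have hχ : ContDiff ℝ ∞ (χ : ℝ → ℝ) := χ.contDiff
  let g : E → ℝ → F := fun p x => χ x • f (-x, p)
  have hgs : ∀ p : E, ∀ x : ℝ, p ∈ (Set.univ : Set E) → x ∉ Metric.closedBall (0 : ℝ) 3 →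
      g p x = 0 := by
    intro p x _ hx
    have h1 : χ x = 0 := by
      refine χ.zero_of_le_dist ?_
      have h2 : ¬ dist x 0 ≤ 3 := hx
      exact (not_le.1 h2).le
    show χ x • f (-x, p) = 0
    rw [h1, zero_smul]
  have hg : ContDiffOn ℝ ((⊤ : ℕ∞) : WithTop ℕ∞) (Function.uncurry g)
      ((Set.univ : Set E) ×ˢ (Set.univ : Set ℝ)) := by
    refine ContDiff.contDiffOn ?_
    exact (hχ.comp contDiff_snd).smul (hf.comp (contDiff_snd.neg.prodMk contDiff_fst))
  have hf0 : LocallyIntegrable ((Set.Ioc (0 : ℝ) 1).indicator fun _ => (1 : ℝ)) volume := by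
    refine (locallyIntegrable_const 1).indicator measurableSet_Ioc
  have h := contDiffOn_convolution_right_with_param_comp
    (n := ⊤) (ContinuousLinearMap.lsmul ℝ ℝ : ℝ →L[ℝ] F →L[ℝ] F) (v := fun _ : E => (0 : ℝ))
    contDiffOn_const isOpen_univ (isCompact_closedBall (0 : ℝ) 3) hgs hf0 hg
  rw [contDiffOn_univ] at h
  refine (congrArg (ContDiff ℝ ∞) (funext fun y => ?_)).mpr h
  unfold MeasureTheory.convolution
  rw [intervalIntegral.integral_of_le zero_le_one, ← integral_indicator measurableSet_Ioc]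
  refine integral_congr_ae (Eventually.of_forall fun t => ?_)
  show (Set.Ioc (0 : ℝ) 1).indicator (fun r => f (r, y)) t =
    (Set.Ioc (0 : ℝ) 1).indicator (fun _ => (1 : ℝ)) t • χ (0 - t) • f (-(0 - t), y)
  by_cases ht : t ∈ Set.Ioc (0 : ℝ) 1
  · have h1 : χ (0 - t) = 1 := by
      refine χ.one_of_mem_closedBall ?_
      show dist (0 - t) 0 ≤ 2
      rw [Real.dist_eq, sub_zero, zero_sub, abs_neg, abs_of_pos ht.1]
      linarith [ht.2]
    rw [Set.indicator_of_mem ht, Set.indicator_of_mem ht, h1, one_smul, one_smul, zero_sub, neg_neg]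
  · rw [Set.indicator_of_notMem ht, Set.indicator_of_notMem ht, zero_smul]

theorem fderiv_param {E F : Type*} [NormedAddCommGroup E] [NormedSpace ℝ E]
    [FiniteDimensional ℝ E] [NormedAddCommGroup F] [NormedSpace ℝ F] [CompleteSpace F]
    {f : ℝ × E → F} (hf : ContDiff ℝ ∞ f) (y v : E) :
    fderiv ℝ (fun y => ∫ r in (0:ℝ)..1, f (r, y)) y v
      = ∫ r in (0:ℝ)..1, fderiv ℝ (fun y => f (r, y)) y v := by
  have hd : ∀ (r : ℝ) (z : E), HasFDerivAt (fun z => f (r, z))
      ((fderiv ℝ f (r, z)).comp (ContinuousLinearMap.inr ℝ ℝ E)) z := fun r z =>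
    (hf.differentiable (by simp) (r, z)).hasFDerivAt.comp z (hasFDerivAt_prodMk_right r z)
  have hc : Continuous fun p : ℝ × E =>
      (fderiv ℝ f p).comp (ContinuousLinearMap.inr ℝ ℝ E) :=
    (hf.continuous_fderiv (by simp)).clm_comp continuous_const
  obtain ⟨C, hC⟩ := ((isCompact_Icc (a := (0 : ℝ)) (b := 1)).prod
    (isCompact_closedBall y 1)).exists_bound_of_continuousOn hc.continuousOn
  have hcr : ∀ z : E, Continuous fun r : ℝ =>
      (fderiv ℝ f (r, z)).comp (ContinuousLinearMap.inr ℝ ℝ E) := fun z =>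
    hc.comp (continuous_id.prodMk continuous_const)
  have hcf : ∀ z : E, Continuous fun r : ℝ => f (r, z) := fun z =>
    hf.continuous.comp (continuous_id.prodMk continuous_const)
  have key := intervalIntegral.hasFDerivAt_integral_of_dominated_of_fderiv_le
    (μ := volume) (a := 0) (b := 1) (𝕜 := ℝ) (F := fun z r => f (r, z))
    (F' := fun z r => (fderiv ℝ f (r, z)).comp (ContinuousLinearMap.inr ℝ ℝ E))
    (x₀ := y) (s := Metric.closedBall y 1) (bound := fun _ => C)
    (Metric.closedBall_mem_nhds y one_pos)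
    (Eventually.of_forall fun z => (hcf z).aestronglyMeasurable)
    ((hcf y).intervalIntegrable 0 1)
    (hcr y).aestronglyMeasurable
    (Eventually.of_forall fun r hr z hz => hC (r, z) ⟨by
      rw [Set.uIoc_of_le zero_le_one] at hr
      exact ⟨hr.1.le, hr.2⟩, hz⟩)
    intervalIntegrable_const
    (Eventually.of_forall fun r _ z _ => hd r z)
  rw [key.fderiv, ContinuousLinearMap.intervalIntegral_apply ((hcr y).intervalIntegrable 0 1)]
  refine intervalIntegral.integral_congr fun r _ => ?_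
  show ((fderiv ℝ f (r, y)).comp (ContinuousLinearMap.inr ℝ ℝ E)) v = _
  rw [(hd r y).fderiv]

private theorem cd_radial {N : ℕ} {g : V N → ℝ} (hg : ContDiff ℝ ∞ g) :
    ContDiff ℝ ∞ fun p : ℝ × V N => g (p.1 • p.2) :=
  hg.comp (contDiff_fst.smul contDiff_snd)

private theorem cd_coord {N : ℕ} (μ : Fin N) : ContDiff ℝ ∞ fun y : V N => y μ := by
  exact (EuclideanSpace.proj (𝕜 := ℝ) μ).contDiff

private theorem cd_coord2 {N : ℕ} (μ : Fin N) : ContDiff ℝ ∞ fun p : ℝ × V N => p.2 μ :=
  (cd_coord μ).comp contDiff_snd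

private theorem hfd_radial {N : ℕ} {g : V N → ℝ} (hg : ContDiff ℝ ∞ g) (r : ℝ) (y : V N) :
    HasFDerivAt (fun y => g (r • y)) ((fderiv ℝ g (r • y)).comp
      (r • ContinuousLinearMap.id ℝ (V N))) y :=
  (hg.differentiable (by simp) (r • y)).hasFDerivAt.comp y
    ((r • ContinuousLinearMap.id ℝ (V N)).hasFDerivAt)

private theorem hfd_coord {N : ℕ} (μ : Fin N) (y : V N) :
    HasFDerivAt (fun y : V N => y μ) (EuclideanSpace.proj (𝕜 := ℝ) μ) y :=
  (EuclideanSpace.proj (𝕜 := ℝ) μ).hasFDerivAt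

private theorem bv_apply {N : ℕ} (μ α : Fin N) : (bv μ : V N) α = if α = μ then 1 else 0 := by
  unfold bv
  rw [PiLp.single_apply]

private theorem sum_bv {N : ℕ} (y : V N) : y = ∑ α, y α • bv α := by
  ext β
  rw [WithLp.ofLp_sum, Finset.sum_apply]
  rw [Finset.sum_eq_single β]
  · show y β = y β * bv β β
    rw [bv_apply, if_pos rfl, mul_one]
  · intro α _ hα
    show y α * bv α β = 0
    rw [bv_apply, if_neg (Ne.symm hα), mul_zero]
  · intro h
    exact absurd (Finset.mem_univ _) h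

private theorem fderiv_sum {N : ℕ} (g : V N → ℝ) (z y : V N) :
    fderiv ℝ g z y = ∑ α, y α * pd α g z := by
  conv_lhs => rw [sum_bv y, map_sum]
  refine Finset.sum_congr rfl fun α _ => ?_
  rw [map_smul]
  rfl

/-- The derivative of the radial integrand `∑ g_α(r y) y_α`. -/
private theorem pd_rad {N : ℕ} {g : Fin N → V N → ℝ} (hg : ∀ α, ContDiff ℝ ∞ (g α)) (r : ℝ)
    (y : V N) (μ : Fin N) :
    fderiv ℝ (fun y => ∑ α, g α (r • y) * y α) y (bv μ)
      = ∑ α, r * (y α * pd μ (g α) (r • y)) + g μ (r • y) := by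
  have h1 : HasFDerivAt (fun y => ∑ α, g α (r • y) * y α)
      (∑ α, (g α (r • y) • (EuclideanSpace.proj (𝕜 := ℝ) α : V N →L[ℝ] ℝ) + y α •
        ((fderiv ℝ (g α) (r • y)).comp (r • ContinuousLinearMap.id ℝ (V N))))) y :=
    HasFDerivAt.fun_sum fun α _ => (hfd_radial (hg α) r y).mul (hfd_coord α y)
  rw [h1.fderiv, sum_apply]
  have h2 : ∀ α : Fin N, (g α (r • y) • (EuclideanSpace.proj (𝕜 := ℝ) α : V N →L[ℝ] ℝ) + y α •
        ((fderiv ℝ (g α) (r • y)).comp (r • ContinuousLinearMap.id ℝ (V N)))) (bv μ)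
      = g α (r • y) * (if α = μ then 1 else 0) + r * (y α * pd μ (g α) (r • y)) := by
    intro α
    show g α (r • y) * (bv μ : V N) α + y α * (fderiv ℝ (g α) (r • y)) (r • bv μ) = _
    rw [bv_apply, map_smul, smul_eq_mul]
    unfold pd
    ring
  rw [Finset.sum_congr rfl fun α _ => h2 α, Finset.sum_add_distrib, add_comm]
  congr 1
  rw [Finset.sum_eq_single μ]
  · rw [if_pos rfl, mul_one]
  · intro α _ hα
    rw [if_neg hα, mul_zero]
  · intro h
    exact absurd (Finset.mem_univ _) h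

private theorem deriv_rad {N : ℕ} {g : V N → ℝ} (hg : ContDiff ℝ ∞ g) (r : ℝ) (y : V N) :
    HasDerivAt (fun r : ℝ => g (r • y)) (∑ α, y α * pd α g (r • y)) r := by
  have h1 : HasDerivAt (fun r : ℝ => r • y) ((1 : ℝ) • y) r := (hasDerivAt_id r).smul_const y
  have h2 := (hg.differentiable (by simp) (r • y)).hasFDerivAt.comp_hasDerivAt r h1
  rw [one_smul, fderiv_sum] at h2
  exact h2

private theorem cd_int {N : ℕ} {g : Fin N → V N → ℝ} (hg : ∀ α, ContDiff ℝ ∞ (g α)) :
    ContDiff ℝ ∞ fun p : ℝ × V N => ∑ α, g α (p.1 • p.2) * p.2 α :=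
  ContDiff.sum fun α _ => (cd_radial (hg α)).mul (cd_coord2 α)

theorem isPot_prim {Ω : V N → Mt N} (h : IsClosed2 Ω) : IsPot (prim Ω) := by
  intro ν
  exact contDiff_param (f := fun p : ℝ × V N => p.1 * ∑ μ, Ω (p.1 • p.2) μ ν * p.2 μ)
    (contDiff_fst.mul (cd_int fun α => h.smooth α ν))

private theorem cont_pd {N : ℕ} {g : V N → ℝ} (hg : ContDiff ℝ ∞ g) (μ : Fin N) :
    Continuous (pd μ g) :=
  (hg.continuous_fderiv (by simp)).clm_apply continuous_const

private theorem pd_prim {Ω : V N → Mt N} (h : IsClosed2 Ω) (μ ν : Fin N) (y : V N) :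
    pd μ (prim Ω ν) y = ∫ r in (0:ℝ)..1, r * (∑ α, r * (y α * pd μ (fun y => Ω y α ν) (r • y))
      + Ω (r • y) μ ν) := by
  have h1 := fderiv_param (f := fun p : ℝ × V N => p.1 * ∑ μ, Ω (p.1 • p.2) μ ν * p.2 μ)
    (contDiff_fst.mul (cd_int fun α => h.smooth α ν)) y (bv μ)
  unfold pd prim
  rw [h1]
  refine intervalIntegral.integral_congr fun r _ => ?_
  have h2 : DifferentiableAt ℝ (fun y : V N => ∑ μ, Ω (r • y) μ ν * y μ) y := by
    have h3 := (cd_int fun α => h.smooth α ν).differentiable (by simp) (r, y)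
    exact h3.comp y ((hasFDerivAt_prodMk_right r y).differentiableAt)
  show fderiv ℝ (fun y : V N => r * ∑ μ, Ω (r • y) μ ν * y μ) y (bv μ) = _
  rw [fderiv_const_mul h2, smul_apply, smul_eq_mul,
    pd_rad (fun α => h.smooth α ν)]
  rfl

/-- The Poincare lemma. With `β = prim Ω`:
`∂_μ β_ν - ∂_ν β_μ = ∫_0^1 (2 r Ω_{μν}(r y) + r² ∑_α y_α (∂_μ Ω_{αν} - ∂_ν Ω_{αμ})(r y)) dr`, and
`∂_μ Ω_{αν} - ∂_ν Ω_{αμ} = ∂_α Ω_{μν}` since `Ω` is closed and antisymmetric, so the integrand is the
derivative of `r² Ω_{μν}(r y)`. -/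
theorem dPot_prim {Ω : V N → Mt N} (h : IsClosed2 Ω) (y : V N) : dPot (prim Ω) y = Ω y := by
  ext μ ν
  show pd μ (prim Ω ν) y - pd ν (prim Ω μ) y = Ω y μ ν
  have hr : Continuous fun r : ℝ => r • y := continuous_id.smul continuous_const
  have hc : ∀ μ ν : Fin N, Continuous fun r : ℝ => r * (∑ α, r * (y α *
      pd μ (fun y => Ω y α ν) (r • y)) + Ω (r • y) μ ν) := by
    intro μ ν
    refine continuous_id.mul (Continuous.add ?_ ((h.smooth μ ν).continuous.comp hr))
    exact continuous_finsetSum _ fun α _ => continuous_id.mul (continuous_const.mul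
      ((cont_pd (h.smooth α ν) μ).comp hr))
  rw [pd_prim h, pd_prim h, ← intervalIntegral.integral_sub ((hc μ ν).intervalIntegrable 0 1)
    ((hc ν μ).intervalIntegrable 0 1)]
  have hpd : ∀ (l μ ν : Fin N) (z : V N), pd l (fun y => Ω y ν μ) z
      = - pd l (fun y => Ω y μ ν) z := by
    intro l μ ν z
    have h1 : (fun y => Ω y ν μ) = fun y => - Ω y μ ν := by
      funext y
      exact h.anti y μ ν
    unfold pd
    rw [h1, fderiv_fun_neg, neg_apply]
  have hder : ∀ r : ℝ, HasDerivAt (fun r : ℝ => r ^ 2 * Ω (r • y) μ ν)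
      (r * (∑ α, r * (y α * pd μ (fun y => Ω y α ν) (r • y)) + Ω (r • y) μ ν) -
        r * (∑ α, r * (y α * pd ν (fun y => Ω y α μ) (r • y)) + Ω (r • y) ν μ)) r := by
    intro r
    have h1 := (hasDerivAt_pow 2 r).mul (deriv_rad (h.smooth μ ν) r y)
    refine h1.congr_deriv ?_
    have h2 : ∀ α : Fin N, y α * pd α (fun y => Ω y μ ν) (r • y) =
        y α * pd μ (fun y => Ω y α ν) (r • y) - y α * pd ν (fun y => Ω y α μ) (r • y) := by
      intro α
      have h3 := h.closed (r • y) α μ ν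
      rw [hpd μ α ν] at h3
      linear_combination (y α) * h3
    rw [Finset.sum_congr rfl fun α _ => h2 α, Finset.sum_sub_distrib, ← Finset.mul_sum,
      ← Finset.mul_sum, h.anti (r • y) μ ν]
    push_cast
    ring
  have hint : IntervalIntegrable (fun r : ℝ =>
      r * (∑ α, r * (y α * pd μ (fun y => Ω y α ν) (r • y)) + Ω (r • y) μ ν) -
        r * (∑ α, r * (y α * pd ν (fun y => Ω y α μ) (r • y)) + Ω (r • y) ν μ)) volume 0 1 :=
    ((hc μ ν).sub (hc ν μ)).intervalIntegrable 0 1
  rw [intervalIntegral.integral_eq_sub_of_hasDerivAt (fun r _ => hder r) hint]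
  simp

theorem dPot_smul {B : Pot N} (hB : IsPot B) (t : ℝ) (y : V N) :
    dPot (fun μ y => t * B μ y) y = t • dPot B y := by
  ext μ ν
  show pd μ (fun y => t * B ν y) y - pd ν (fun y => t * B μ y) y
    = t * (pd μ (B ν) y - pd ν (B μ) y)
  unfold pd
  rw [fderiv_const_mul ((hB ν).differentiable (by simp) y),
    fderiv_const_mul ((hB μ).differentiable (by simp) y)]
  simp only [smul_apply, smul_eq_mul]
  ring

/-- Joint measurability (`StronglyMeasurable.integral_prod_right'`). -/
theorem measurable_prim {Ω : X → V N → Mt N}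
    (hm : ∀ μ ν, Measurable fun p : X × V N => Ω p.1 p.2 μ ν) (ν : Fin N) :
    Measurable fun p : X × V N => prim (Ω p.1) ν p.2 := by
  have h1 : Measurable fun q : (X × V N) × ℝ =>
      q.2 * ∑ μ, Ω q.1.1 (q.2 • q.1.2) μ ν * q.1.2 μ := by
    refine measurable_snd.mul (Finset.measurable_sum _ fun μ _ => Measurable.mul ?_ ?_)
    · exact (hm μ ν).comp ((measurable_fst.comp measurable_fst).prodMk
        (measurable_snd.smul (measurable_snd.comp measurable_fst)))
    · exact (cd_coord μ).continuous.measurable.comp (measurable_snd.comp measurable_fst)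
  have h2 := h1.stronglyMeasurable.integral_prod_right' (ν := volume.restrict (Set.Ioc (0 : ℝ) 1))
  have h3 : (fun p : X × V N => prim (Ω p.1) ν p.2) = fun x => ∫ y, (fun q : (X × V N) × ℝ =>
      q.2 * ∑ μ, Ω q.1.1 (q.2 • q.1.2) μ ν * q.1.2 μ) (x, y)
        ∂(volume.restrict (Set.Ioc (0 : ℝ) 1)) := by
    funext p
    unfold prim
    rw [intervalIntegral.integral_of_le zero_le_one]
  rw [h3]
  exact h2.measurable

/-- Poincare lemma for one-forms: a smooth potential with `dPot B = 0` is the differential of the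
smooth function `f y = ∫_0^1 ∑ B_ν(r y) y_ν dr`, `f 0 = 0`. -/
theorem exists_primitive {B : Pot N} (hB : IsPot B) (h : ∀ y, dPot B y = 0) :
    ∃ f : V N → ℝ, ContDiff ℝ ∞ f ∧ f 0 = 0 ∧ ∀ μ y, pd μ f y = B μ y := by
  refine ⟨fun y => ∫ r in (0:ℝ)..1, ∑ α, B α (r • y) * y α,
    contDiff_param (f := fun p : ℝ × V N => ∑ α, B α (p.1 • p.2) * p.2 α) (cd_int hB), ?_, ?_⟩
  · simp
  intro μ y
  have h1 := fderiv_param (f := fun p : ℝ × V N => ∑ α, B α (p.1 • p.2) * p.2 α) (cd_int hB) y
    (bv μ)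
  have hr : Continuous fun r : ℝ => r • y := continuous_id.smul continuous_const
  have hc : Continuous fun r : ℝ => ∑ α, r * (y α * pd μ (B α) (r • y)) + B μ (r • y) := by
    refine Continuous.add ?_ ((hB μ).continuous.comp hr)
    exact continuous_finsetSum _ fun α _ => continuous_id.mul (continuous_const.mul
      ((cont_pd (hB α) μ).comp hr))
  have hder : ∀ r : ℝ, HasDerivAt (fun r : ℝ => r * B μ (r • y))
      (∑ α, r * (y α * pd μ (B α) (r • y)) + B μ (r • y)) r := by
    intro r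
    have h2 := (hasDerivAt_id r).mul (deriv_rad (hB μ) r y)
    refine h2.congr_deriv ?_
    have h3 : ∀ α : Fin N, pd α (B μ) (r • y) = pd μ (B α) (r • y) := by
      intro α
      have h4 : pd α (B μ) (r • y) - pd μ (B α) (r • y) = 0 := congrFun (congrFun (h (r • y)) α) μ
      linarith
    rw [Finset.sum_congr rfl fun α _ => by rw [h3 α], ← Finset.mul_sum]
    show 1 * B μ (r • y) + r * _ = _
    ring
  unfold pd
  refine h1.trans ?_
  rw [intervalIntegral.integral_congr (g := fun r : ℝ => ∑ α, r * (y α * pd μ (B α) (r • y))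
      + B μ (r • y)) fun r _ => pd_rad hB r y μ,
    intervalIntegral.integral_eq_sub_of_hasDerivAt (fun r _ => hder r)
      (hc.intervalIntegrable 0 1)]
  simp

end Pool.Agent.Lib.MP_df705a_gt.RL
end
end

section

/-!
# RL2, file U1: lifts of orthogonal matrices, the algebra (abstract ring)
-/

set_option linter.unusedSectionVars false

open scoped Matrix

namespace Pool.Agent.Lib.MP_df705a_gt.RL

noncomputable section

variable {N : ℕ} {A : Type*} [Ring A] [Algebra ℂ A]

/-- the rotated Clifford elements `c'_a = ∑_b R_ba c_b` -/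
def cR (c : Fin N → A) (R : Mt N) (a : Fin N) : A := ∑ b, (R b a : ℂ) • c b

theorem cR_one (c : Fin N → A) : cR c 1 = c := by
  funext a
  unfold cR
  rw [Finset.sum_eq_single a]
  · simp
  · intro b _ hb; simp [Matrix.one_apply_ne hb]
  · intro h; exact absurd (Finset.mem_univ _) h

theorem cR_mul_cR_add {c : Fin N → A} (h : IsCliff c) {R : Mt N} (hR : Rᵀ * R = 1) (a b : Fin N) :
    cR c R a * cR c R b + cR c R b * cR c R a = (if a = b then (-2 : ℂ) else 0) • (1 : A) := by
  have h1 : ∀ p q, c p * c q + c q * c p = (if p = q then (-2 : ℂ) else 0) • (1 : A) := by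
    intro p q; rw [ccc h p q]; abel
  have h2 : cR c R a * cR c R b + cR c R b * cR c R a
      = ∑ p, ∑ q, ((R p a : ℂ) * (R q b : ℂ)) • (c p * c q + c q * c p) := by
    unfold cR
    rw [Finset.sum_mul_sum, Finset.sum_mul_sum]
    have h3 : (∑ i, ∑ j, (R i b : ℂ) • c i * (R j a : ℂ) • c j)
        = ∑ i, ∑ j, (R j b : ℂ) • c j * (R i a : ℂ) • c i := Finset.sum_comm
    rw [h3, ← Finset.sum_add_distrib]
    refine Finset.sum_congr rfl fun p _ => ?_
    rw [← Finset.sum_add_distrib]
    refine Finset.sum_congr rfl fun q _ => ?_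
    rw [smul_mul_smul_comm, smul_mul_smul_comm, mul_comm (R q b : ℂ), ← smul_add]
  rw [h2]
  simp only [h1]
  have h4 : ∀ p, (∑ q, ((R p a : ℂ) * (R q b : ℂ)) • (if p = q then (-2 : ℂ) else 0) • (1 : A))
      = ((R p a : ℂ) * (R p b : ℂ)) • (-2 : ℂ) • (1 : A) := by
    intro p
    rw [Finset.sum_eq_single p]
    · rw [if_pos rfl]
    · intro q _ hq; rw [if_neg (fun h => hq h.symm), zero_smul, smul_zero]
    · intro h; exact absurd (Finset.mem_univ _) h
  rw [Finset.sum_congr rfl fun p _ => h4 p, ← Finset.sum_smul, smul_smul]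
  have h5 : (∑ p, (R p a : ℂ) * (R p b : ℂ)) = if a = b then 1 else 0 := by
    have h6 := congrFun (congrFun hR a) b
    rw [Matrix.mul_apply, Matrix.one_apply] at h6
    have h7 := congrArg (fun x : ℝ => (x : ℂ)) h6
    simp only [Matrix.transpose_apply, Complex.ofReal_sum, Complex.ofReal_mul] at h7
    rw [h7]; split_ifs <;> simp
  rw [h5]
  split_ifs <;> simp

theorem isCliff_cR {c : Fin N → A} (h : IsCliff c) {R : Mt N} (hR : Rᵀ * R = 1) :
    IsCliff (cR c R) where
  sq a := by
    have h1 := cR_mul_cR_add h hR a a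
    rw [if_pos rfl] at h1
    have h3 : cR c R a * cR c R a = (1 / 2 : ℂ) • (cR c R a * cR c R a + cR c R a * cR c R a) := by
      rw [← two_smul ℂ, smul_smul]; norm_num
    rw [h3, h1, smul_smul]; norm_num
  anti a b hab := by
    have h1 := cR_mul_cR_add h hR a b
    rw [if_neg hab, zero_smul] at h1
    exact eq_neg_of_add_eq_zero_left h1

/-! ## the averages with signs -/

/-- `½ (y - s c' y c)` -/
def halfs (s : ℂ) (x' x : A) (y : A) : A := (2⁻¹ : ℂ) • (y - s • (x' * y * x))

/-- apply all the projections of a list -/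
def avgs (s : Fin N → ℂ) (c' c : Fin N → A) (l : List (Fin N)) (y : A) : A :=
  l.foldr (fun a z => halfs (s a) (c' a) (c a) z) y

theorem avgs_one (c' c : Fin N → A) (l : List (Fin N)) (y : A) :
    avgs (fun _ => 1) c' c l y = avg ℂ c' c l y := by
  unfold avgs avg
  congr 1
  funext a z
  unfold halfs half
  rw [one_smul]

theorem avgs_congr {s s' : Fin N → ℂ} (c' c : Fin N → A) (l : List (Fin N)) (y : A)
    (h : ∀ a ∈ l, s a = s' a) : avgs s c' c l y = avgs s' c' c l y := by
  induction l with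
  | nil => rfl
  | cons b l ih =>
    simp only [avgs, List.foldr_cons] at ih ⊢
    rw [ih (fun a ha => h a (List.mem_cons_of_mem _ ha)), h b (List.mem_cons_self)]

theorem exists_avgs_ne_zero (c' c : Fin N → A) {l : List (Fin N)} (hl : l.Nodup) {y : A}
    (hy : y ≠ 0) : ∃ s : Fin N → ℂ, (∀ a, s a = 1 ∨ s a = -1) ∧ avgs s c' c l y ≠ 0 := by
  induction l with
  | nil => exact ⟨fun _ => 1, fun _ => Or.inl rfl, hy⟩
  | cons b l ih =>
    obtain ⟨hb, hl⟩ := List.nodup_cons.mp hl
    obtain ⟨s, hs, hs'⟩ := ih hl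
    set Y := avgs s c' c l y with hY
    have h1 : halfs 1 (c' b) (c b) Y + halfs (-1) (c' b) (c b) Y = Y := by
      unfold halfs
      rw [← smul_add, one_smul, neg_smul, one_smul]
      have : Y - c' b * Y * c b + (Y - -(c' b * Y * c b)) = (2 : ℂ) • Y := by
        rw [two_smul]; abel
      rw [this, smul_smul, inv_mul_cancel₀ two_ne_zero, one_smul]
    have h2 : halfs 1 (c' b) (c b) Y ≠ 0 ∨ halfs (-1) (c' b) (c b) Y ≠ 0 := by
      by_contra h3
      push Not at h3
      apply hs'
      rw [← h1, h3.1, h3.2, add_zero]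
    have key : ∀ ε : ℂ, avgs (Function.update s b ε) c' c (b :: l) y
        = halfs ε (c' b) (c b) Y := by
      intro ε
      have h4 : avgs (Function.update s b ε) c' c (b :: l) y
          = halfs (Function.update s b ε b) (c' b) (c b) (avgs (Function.update s b ε) c' c l y) :=
        rfl
      rw [h4, Function.update_self, avgs_congr c' c l y (s' := s), ← hY]
      intro a ha
      rw [Function.update_of_ne]
      rintro rfl; exact hb ha
    rcases h2 with h2 | h2
    · refine ⟨Function.update s b 1, fun a => ?_, by rw [key]; exact h2⟩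
      by_cases hab : a = b
      · subst hab; rw [Function.update_self]; exact Or.inl rfl
      · rw [Function.update_of_ne hab]; exact hs a
    · refine ⟨Function.update s b (-1), fun a => ?_, by rw [key]; exact h2⟩
      by_cases hab : a = b
      · subst hab; rw [Function.update_self]; exact Or.inr rfl
      · rw [Function.update_of_ne hab]; exact hs a

/-- every sign vector is the commutation pattern of a monomial (even dimension) -/
theorem exists_list_sign (hN : Even N) {s : Fin N → ℂ} (hs : ∀ a, s a = 1 ∨ s a = -1) :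
    ∃ k : List (Fin N), ∀ a, (-1 : ℂ) ^ (k.length + k.count a) = s a := by
  classical
  set T : Finset (Fin N) := Finset.univ.filter fun a => s a = -1 with hT
  have h1 : ∀ a, s a = if a ∈ T then -1 else 1 := by
    intro a
    by_cases ha : s a = -1
    · rw [if_pos (by simp [hT, ha]), ha]
    · rw [if_neg (by simp [hT, ha])]
      exact (hs a).resolve_right ha
  rcases Nat.even_or_odd T.card with he | ho
  · refine ⟨T.toList, fun a => ?_⟩
    rw [h1 a, Finset.length_toList, pow_add, he.neg_one_pow, one_mul]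
    by_cases ha : a ∈ T
    · rw [if_pos ha, List.count_eq_one_of_mem (Finset.nodup_toList _) (by simpa using ha), pow_one]
    · rw [if_neg ha, List.count_eq_zero_of_not_mem (by simpa using ha), pow_zero]
  · refine ⟨(Tᶜ).toList, fun a => ?_⟩
    have h2 : Odd (Tᶜ).card := by
      rw [Finset.card_compl, Fintype.card_fin]
      exact Nat.Even.sub_odd (by simpa using Finset.card_le_univ T) hN ho
    rw [h1 a, Finset.length_toList, pow_add, h2.neg_one_pow]
    by_cases ha : a ∈ T
    · rw [if_pos ha, List.count_eq_zero_of_not_mem (by simpa using ha), pow_zero, mul_one]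
    · rw [if_neg ha, List.count_eq_one_of_mem (Finset.nodup_toList _) (by simpa using ha)]
      norm_num

theorem avg_mul_mon {c : Fin N → A} (h : IsCliff c) (c' : Fin N → A) {s : Fin N → ℂ}
    {k : List (Fin N)} (hk : ∀ a, (-1 : ℂ) ^ (k.length + k.count a) = s a) (l : List (Fin N))
    (y : A) : avg ℂ c' c l (y * mon c k) = avgs s c' c l y * mon c k := by
  induction l with
  | nil => rfl
  | cons b l ih =>
    have h1 : avg ℂ c' c (b :: l) (y * mon c k)
        = half ℂ (c' b) (c b) (avg ℂ c' c l (y * mon c k)) := rfl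
    have h2 : avgs s c' c (b :: l) y = halfs (s b) (c' b) (c b) (avgs s c' c l y) := rfl
    rw [h1, h2, ih]
    set Y := avgs s c' c l y
    unfold half halfs
    rw [smul_mul_assoc, sub_mul]
    congr 2
    have h3 : mon c k * c b = (s b) • (c b * mon c k) := by
      rw [h.comm_rule b k, ← hk b]
      rcases neg_one_pow_eq_or ℂ (k.length + k.count b) with h4 | h4
      · have h5 : (-1 : A) ^ (k.length + k.count b) = 1 := by
          have he : Even (k.length + k.count b) := by
            by_contra ho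
            rw [Nat.not_even_iff_odd] at ho
            rw [ho.neg_one_pow] at h4; norm_num at h4
          exact he.neg_one_pow
        rw [h4, h5, one_mul, one_smul]
      · have h5 : (-1 : A) ^ (k.length + k.count b) = -1 := by
          have ho : Odd (k.length + k.count b) := by
            by_contra he
            rw [Nat.not_odd_iff_even] at he
            rw [he.neg_one_pow] at h4; norm_num at h4
          exact ho.neg_one_pow
        rw [h4, h5, neg_one_mul, smul_neg, neg_smul, one_smul, neg_neg]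
    calc c' b * (Y * mon c k) * c b = c' b * Y * (mon c k * c b) := by simp only [mul_assoc]
      _ = (s b • (c' b * Y * c b)) * mon c k := by
          rw [h3]; simp only [mul_smul_comm, smul_mul_assoc, mul_assoc]

/-- some monomial has a nonzero average -/
theorem exists_avg_ne_zero [Nontrivial A] {c : Fin N → A} (h : IsCliff c) (hN : Even N)
    (c' : Fin N → A) :
    ∃ k : List (Fin N), avg ℂ c' c (List.finRange N) (mon c k) ≠ 0 := by
  obtain ⟨s, hs, hs'⟩ := exists_avgs_ne_zero c' c (List.nodup_finRange N) (one_ne_zero (α := A))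
  obtain ⟨k, hk⟩ := exists_list_sign hN hs
  refine ⟨k, ?_⟩
  have h1 := avg_mul_mon h c' hk (List.finRange N) 1
  rw [one_mul] at h1
  rw [h1]
  intro h2
  exact hs' ((h.isUnit_mon k).mul_left_eq_zero.mp h2)

/-! ## the determinant -/

theorem prod_cR (c : Fin N → A) (R : Mt N) (k : ℕ) (j : Fin k → Fin N) :
    (List.ofFn fun r => cR c R (j r)).prod = ∑ i : Fin k → Fin N,
      ((∏ r, R (i r) (j r) : ℝ) : ℂ) • mon c (List.ofFn i) := by
  induction k with
  | zero => simp
  | succ k ih =>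
    rw [List.ofFn_succ, List.prod_cons, ih (fun r => j r.succ)]
    rw [← (Fin.consEquiv (fun _ => Fin N)).sum_comp, Fintype.sum_prod_type]
    unfold cR
    rw [Finset.sum_mul]
    refine Finset.sum_congr rfl fun q _ => ?_
    rw [Finset.mul_sum]
    refine Finset.sum_congr rfl fun p _ => ?_
    rw [List.ofFn_succ, mon_cons, Fin.prod_univ_succ, smul_mul_smul_comm]
    simp [Fin.consEquiv]

theorem trace_epsA_top_cR {t : A →ₗ[ℂ] ℂ} (ht : ∀ x y, t (x * y) = t (y * x)) {m : ℕ}
    {c : Fin (2 * m) → A} (h : IsCliff c) (R : Mt (2 * m)) :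
    t (epsA c * topA (cR c R)) = (R.det : ℂ) * t (epsA c * topA c) := by
  have h0 : topA (cR c R) = ∑ i : Fin (2 * m) → Fin (2 * m),
      ((∏ r, R (i r) r : ℝ) : ℂ) • mon c (List.ofFn i) := prod_cR c R (2 * m) id
  rw [h0, Finset.mul_sum, map_sum, Matrix.det_apply]
  push_cast
  rw [Finset.sum_mul]
  refine (Fintype.sum_of_injective
    (fun σ : Equiv.Perm (Fin (2 * m)) => (σ : Fin (2 * m) → Fin (2 * m))) ?_ _ _ ?_ ?_).symm
  · exact DFunLike.coe_injective
  · intro i hi
    rw [mul_smul_comm, map_smul]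
    have h2 : ∃ a, a ∉ List.ofFn i := by
      by_contra h2
      push Not at h2
      apply hi
      have hsurj : Function.Surjective i := by
        intro a
        have := h2 a
        rw [List.mem_ofFn] at this
        exact this
      have hbij : Function.Bijective i := Finite.injective_iff_bijective.mp
        (Finite.injective_iff_surjective.mpr hsurj)
      exact ⟨Equiv.ofBijective _ hbij, rfl⟩
    obtain ⟨a, ha⟩ := h2
    rw [trace_epsA_mon_of_not_mem ht h ha, smul_zero]
  · intro σ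
    rw [mul_smul_comm, map_smul, mon_perm h σ]
    have h2 : epsA c * (((Equiv.Perm.sign σ : ℤ) : A) * (List.ofFn c).prod)
        = ((Equiv.Perm.sign σ : ℤ) : ℂ) • (epsA c * topA c) := by
      unfold topA
      rw [← mul_assoc, ← Int.cast_comm, mul_assoc, Int.cast_smul_eq_zsmul ℂ, zsmul_eq_mul]
    rw [h2, map_smul]
    simp only [smul_eq_mul, Units.smul_def, zsmul_eq_mul]
    push_cast
    ring

end

end Pool.Agent.Lib.MP_df705a_gt.RL
end

section

/-!
# RL2, file U2: lifts of orthogonal matrices: existence, uniqueness, products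
-/

set_option linter.unusedSectionVars false

open scoped Matrix

namespace Pool.Agent.Lib.MP_df705a_gt.RL

noncomputable section

section abstractRing

variable {N m : ℕ} {A : Type*} [Ring A] [Algebra ℂ A] [Algebra ℝ A]

theorem cR_mem (hrc : ∀ (r : ℝ) (x : A), r • x = (r : ℂ) • x) (c : Fin N → A) (R : Mt N)
    (a : Fin N) : cR c R a ∈ ClAlg ℝ c := by
  unfold cR
  refine Submodule.sum_mem _ fun b _ => ?_
  rw [← hrc]
  exact Submodule.smul_mem _ _ (c_mem_ClAlg ℝ c b)

theorem twoA_mem (hrc : ∀ (r : ℝ) (x : A), r • x = (r : ℂ) • x) (c : Fin N → A) (M : Mt N) :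
    twoA c M ∈ ClAlg ℝ c := by
  unfold twoA
  refine Submodule.sum_mem _ fun a _ => Submodule.sum_mem _ fun b _ => ?_
  rw [← hrc]
  exact Submodule.smul_mem _ _ (mul_mem_ClAlg (c_mem_ClAlg ℝ c a) (c_mem_ClAlg ℝ c b))

theorem spinA_mem (hrc : ∀ (r : ℝ) (x : A), r • x = (r : ℂ) • x) (c : Fin N → A) (M : Mt N) :
    spinA c M ∈ ClAlg ℝ c := by
  rw [spinA_eq]
  have h1 : (-(1 / 4) : ℂ) • twoA c M = (-(1 / 4) : ℝ) • twoA c M := by
    rw [hrc]; congr 1; push_cast; ring
  rw [h1]
  exact Submodule.smul_mem _ _ (twoA_mem hrc c M)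

theorem mon_mem' {c c' : Fin N → A} (h : ∀ a, c' a ∈ ClAlg ℝ c) (l : List (Fin N)) :
    mon c' l ∈ ClAlg ℝ c := by
  induction l with
  | nil => simpa using one_mem_ClAlg ℝ c
  | cons a l ih => rw [mon_cons]; exact mul_mem_ClAlg (h a) ih

/-- recover `c` from `c'` -/
theorem c_eq_sum_cR (c : Fin N → A) {R : Mt N} (hR : Rᵀ * R = 1) (b : Fin N) :
    c b = ∑ a, (R b a : ℂ) • cR c R a := by
  have hR' : R * Rᵀ = 1 := mul_eq_one_comm.mp hR
  unfold cR
  simp only [Finset.smul_sum, smul_smul]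
  rw [Finset.sum_comm]
  have h1 : ∀ d, (∑ a, ((R b a : ℂ) * (R d a : ℂ)) • c d) = (if b = d then (1 : ℂ) else 0) • c d := by
    intro d
    rw [← Finset.sum_smul]
    congr 1
    have h6 := congrFun (congrFun hR' b) d
    rw [Matrix.mul_apply, Matrix.one_apply] at h6
    have h7 := congrArg (fun x : ℝ => (x : ℂ)) h6
    simp only [Matrix.transpose_apply, Complex.ofReal_sum, Complex.ofReal_mul] at h7
    rw [h7]; split_ifs <;> simp
  rw [Finset.sum_congr rfl fun d _ => h1 d]
  simp

theorem commute_of_cR {c : Fin N → A} {R : Mt N} (hR : Rᵀ * R = 1) {x : A}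
    (h : ∀ a, cR c R a * x = x * cR c R a) (b : Fin N) : c b * x = x * c b := by
  rw [c_eq_sum_cR c hR b, Finset.sum_mul, Finset.mul_sum]
  refine Finset.sum_congr rfl fun a _ => ?_
  rw [smul_mul_assoc, mul_smul_comm, h]

theorem anti_of_cR {c : Fin N → A} {R : Mt N} (hR : Rᵀ * R = 1) {x : A}
    (h : ∀ a, cR c R a * x = -(x * cR c R a)) (b : Fin N) : c b * x = -(x * c b) := by
  rw [c_eq_sum_cR c hR b, Finset.sum_mul, Finset.mul_sum, ← Finset.sum_neg_distrib]
  refine Finset.sum_congr rfl fun a _ => ?_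
  rw [smul_mul_assoc, mul_smul_comm, h, smul_neg]

/-- the product of all rotated Clifford elements -/
theorem topA_cR [Nontrivial A] [Algebra ℚ A] (hrc : ∀ (r : ℝ) (x : A), r • x = (r : ℂ) • x)
    {t : A →ₗ[ℂ] ℂ} (ht : ∀ x y, t (x * y) = t (y * x)) {c : Fin (2 * m) → A} (h : IsCliff c)
    (htop : t (epsA c * topA c) ≠ 0) {R : Mt (2 * m)} (hR : Rᵀ * R = 1) :
    topA (cR c R) = (R.det : ℂ) • topA c := by
  have h1 : ∀ b, c b * topA (cR c R) = -(topA (cR c R) * c b) :=
    anti_of_cR hR (c_mul_topA (isCliff_cR h hR))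
  have h2 : ∀ b, Commute (c b) (topA (cR c R) * topA c) := by
    intro b
    show c b * (topA (cR c R) * topA c) = topA (cR c R) * topA c * c b
    rw [← mul_assoc, h1 b, neg_mul, mul_assoc, c_mul_topA h b, mul_neg, neg_neg, mul_assoc]
  have h3 : topA (cR c R) * topA c ∈ ClAlg ℝ c := by
    refine mul_mem_ClAlg ?_ ?_
    · rw [topA_eq]; exact mon_mem' (fun a => cR_mem hrc c R a) _
    · rw [topA_eq]; exact mon_mem ℝ c _
  obtain ⟨s, hs⟩ := scalar_of_commute h (even_two_mul m) h3 h2
  have h4 : topA (cR c R) = ((-1) ^ m * s : ℂ) • topA c := by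
    have h5 : topA (cR c R) * topA c * topA c = (s : ℂ) • topA c := by
      rw [hs, hrc, smul_mul_assoc, one_mul]
    rw [mul_assoc, topA_mul_topA h] at h5
    rw [mul_smul, ← h5]
    rcases Nat.even_or_odd m with he | ho
    · rw [he.neg_one_pow, he.neg_one_pow]; simp
    · rw [ho.neg_one_pow, ho.neg_one_pow]; simp
  have h5 := trace_epsA_top_cR ht h R
  rw [h4, mul_smul_comm, map_smul, smul_eq_mul] at h5
  rw [h4, mul_right_cancel₀ htop h5]

theorem top_intertwine {c c' : Fin N → A} {u : A} (h : ∀ a, c' a * u = u * c a)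
    (l : List (Fin N)) : mon c' l * u = u * mon c l := by
  induction l with
  | nil => simp
  | cons a l ih => rw [mon_cons, mon_cons, mul_assoc, ih, ← mul_assoc, h, mul_assoc]

theorem star_cR [StarRing A] [StarModule ℂ A] {c : Fin N → A} (hs : ∀ a, star (c a) = -c a)
    (R : Mt N) (a : Fin N) : star (cR c R a) = -cR c R a := by
  unfold cR
  rw [star_sum, ← Finset.sum_neg_distrib]
  refine Finset.sum_congr rfl fun b _ => ?_
  rw [star_smul, hs, smul_neg]
  congr 2
  simp

theorem star_intertwine [StarRing A] {c c' : Fin N → A} (hs : ∀ a, star (c a) = -c a)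
    (hs' : ∀ a, star (c' a) = -c' a) {u : A} (h : ∀ a, c' a * u = u * c a) (a : Fin N) :
    c a * star u = star u * c' a := by
  have h1 := congrArg star (h a)
  rw [star_mul, star_mul, hs, hs'] at h1
  rw [mul_neg, neg_mul] at h1
  exact (neg_injective h1).symm

theorem cR_mul (c : Fin N → A) (R R' : Mt N) (a : Fin N) :
    cR c (R * R') a = ∑ b, (R' b a : ℂ) • cR c R b := by
  unfold cR
  simp only [Finset.smul_sum, smul_smul]
  rw [Finset.sum_comm]
  refine Finset.sum_congr rfl fun d _ => ?_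
  rw [← Finset.sum_smul, Matrix.mul_apply]
  congr 1
  push_cast
  exact Finset.sum_congr rfl fun b _ => mul_comm _ _

/-! ## lifts -/

/-- the assumptions on the ring -/
structure CEnv [StarRing A] (t : A →ₗ[ℂ] ℂ) (c : Fin (2 * m) → A) : Prop where
  cl : IsCliff c
  st : ∀ a, star (c a) = -c a
  rc : ∀ (r : ℝ) (x : A), r • x = (r : ℂ) • x
  tr : ∀ x y, t (x * y) = t (y * x)
  top : t (epsA c * topA c) ≠ 0
  pos : ∀ (u : A) (r : ℝ), star u * u = (r : ℂ) • (1 : A) → u ≠ 0 → 0 < r

/-- `u` is a lift of the rotation `R` to the spin group. -/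
structure LiftA [StarRing A] (c : Fin (2 * m) → A) (R : Mt (2 * m)) (u : A) : Prop where
  re : u ∈ ClAlg ℝ c
  isom : star u * u = 1
  isom' : u * star u = 1
  tw : ∀ a, u * c a = (∑ b, (R b a : ℂ) • c b) * u
  eps : epsA c * u = u * epsA c

variable [Nontrivial A] [Algebra ℚ A] [StarRing A] [StarModule ℂ A]
variable {t : A →ₗ[ℂ] ℂ} {c : Fin (2 * m) → A}

theorem CEnv.star_real (h : CEnv t c) (r : ℝ) (x : A) : star (r • x) = r • star x := by
  rw [h.rc, star_smul, h.rc]; simp

theorem star_creal (r : ℝ) (x : A) : star ((r : ℂ) • x) = (r : ℂ) • star x := by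
  rw [star_smul]; simp

theorem CEnv.smul_mem (h : CEnv t c) (r : ℝ) {x : A} (hx : x ∈ ClAlg ℝ c) :
    (r : ℂ) • x ∈ ClAlg ℝ c := by
  rw [← h.rc]; exact Submodule.smul_mem _ _ hx

theorem CEnv.star_mem (h : CEnv t c) {x : A} (hx : x ∈ ClAlg ℝ c) : star x ∈ ClAlg ℝ c :=
  star_mem_ClAlg h.star_real h.st hx

theorem CEnv.scalar (h : CEnv t c) {x : A} (hx : x ∈ ClAlg ℝ c) (hc : ∀ a, c a * x = x * c a) :
    ∃ r : ℝ, x = (r : ℂ) • (1 : A) := by
  obtain ⟨r, hr⟩ := scalar_of_commute h.cl (even_two_mul m) hx hc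
  exact ⟨r, by rw [hr, h.rc]⟩

theorem CEnv.eps_cR (h : CEnv t c) {R : Mt (2 * m)} (hR : Rᵀ * R = 1) (hd : R.det = 1) :
    epsA (cR c R) = epsA c := by
  unfold epsA
  rw [topA_cR h.rc h.tr h.cl h.top hR, hd, Complex.ofReal_one, one_smul]

/-- the square of the norm of an intertwiner -/
theorem CEnv.intertwiner_sq (h : CEnv t c) {R : Mt (2 * m)} {u : A} (hu : u ∈ ClAlg ℝ c)
    (hi : ∀ a, cR c R a * u = u * c a) : ∃ r : ℝ, star u * u = (r : ℂ) • (1 : A) := by
  refine h.scalar (mul_mem_ClAlg (h.star_mem hu) hu) fun a => ?_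
  rw [← mul_assoc, star_intertwine h.st (star_cR h.st R) hi a, mul_assoc, hi a, mul_assoc]

/-- from an intertwiner to a lift -/
theorem CEnv.lift_of_intertwiner (h : CEnv t c) {R : Mt (2 * m)} (hR : Rᵀ * R = 1)
    (hd : R.det = 1) {u : A} (hu : u ∈ ClAlg ℝ c) (hi : ∀ a, cR c R a * u = u * c a) {r : ℝ}
    (hr : star u * u = (r : ℂ) • (1 : A)) (hr0 : 0 < r) :
    LiftA c R ((((√r)⁻¹ : ℝ) : ℂ) • u) := by
  have h0 : u ≠ 0 := by
    rintro rfl
    have h1 : (0 : A) = (r : ℂ) • (1 : A) := by rw [← hr]; simp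
    have h2 : (r : ℂ) • (1 : A) ≠ 0 :=
      smul_ne_zero (by exact_mod_cast hr0.ne') one_ne_zero
    exact h2 h1.symm
  have h1 : ∃ r' : ℝ, u * star u = (r' : ℂ) • (1 : A) := by
    refine h.scalar (mul_mem_ClAlg hu (h.star_mem hu)) (commute_of_cR hR fun a => ?_)
    rw [← mul_assoc, hi a, mul_assoc, star_intertwine h.st (star_cR h.st R) hi a, mul_assoc]
  obtain ⟨r', hr'⟩ := h1
  have hrr : r' = r := by
    have h2 : u * (star u * u) = (r : ℂ) • u := by rw [hr, mul_smul_comm, mul_one]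
    have h3 : u * star u * u = (r' : ℂ) • u := by rw [hr', smul_mul_assoc, one_mul]
    rw [mul_assoc, h2] at h3
    have h4 := smul_left_injective ℂ h0 h3
    exact_mod_cast h4.symm
  subst hrr
  have hs : ((((√r')⁻¹ : ℝ) : ℂ) * (((√r')⁻¹ : ℝ) : ℂ)) * (r' : ℂ) = 1 := by
    have h4 : √r' * √r' = r' := Real.mul_self_sqrt hr0.le
    have : (√r')⁻¹ * (√r')⁻¹ * r' = 1 := by rw [← mul_inv, h4, inv_mul_cancel₀ hr0.ne']
    exact_mod_cast this
  refine ⟨h.smul_mem _ hu, ?_, ?_, ?_, ?_⟩
  · rw [star_creal, smul_mul_smul_comm, hr, smul_smul, hs, one_smul]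
  · rw [star_creal, smul_mul_smul_comm, hr', smul_smul, hs, one_smul]
  · intro a
    have h5 : (∑ b, (R b a : ℂ) • c b) * u = u * c a := hi a
    rw [smul_mul_assoc, mul_smul_comm, h5]
  · have h5 : epsA (cR c R) * u = u * epsA c := by
      unfold epsA
      rw [smul_mul_assoc, mul_smul_comm, topA_eq, topA_eq, top_intertwine hi]
    rw [h.eps_cR hR hd] at h5
    rw [smul_mul_assoc, mul_smul_comm, h5]

/-- Every rotation has a lift. -/
theorem CEnv.exists_lift (h : CEnv t c) {R : Mt (2 * m)} (hR : Rᵀ * R = 1) (hd : R.det = 1) :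
    ∃ u, LiftA c R u := by
  obtain ⟨k, hk⟩ := exists_avg_ne_zero h.cl (even_two_mul m) (cR c R)
  have h0 : avg ℝ (cR c R) c (List.finRange (2 * m)) (mon c k)
      = avg ℂ (cR c R) c (List.finRange (2 * m)) (mon c k) := by
    unfold avg
    congr 1
    funext a z
    unfold half
    rw [h.rc]; congr 1; push_cast; rfl
  rw [← h0] at hk
  set u := avg ℝ (cR c R) c (List.finRange (2 * m)) (mon c k) with hu
  have h1 : u ∈ ClAlg ℝ c := avg_mem (fun a => cR_mem h.rc c R a) _ (mon_mem ℝ c k)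
  have h2 : ∀ a, cR c R a * u = u * c a := fun a =>
    avg_intertwine (isCliff_cR h.cl hR) h.cl _ _ a (List.mem_finRange a)
  obtain ⟨r, hr⟩ := h.intertwiner_sq h1 h2
  exact ⟨_, h.lift_of_intertwiner hR hd h1 h2 hr (h.pos u r hr hk)⟩

theorem LiftA.tw' {R : Mt (2 * m)} {u : A} (h : LiftA c R u) (a : Fin (2 * m)) :
    cR c R a * u = u * c a := (h.tw a).symm

theorem LiftA.one : LiftA c 1 1 := by
  refine ⟨one_mem_ClAlg ℝ c, ?_, ?_, fun a => ?_, ?_⟩
  · rw [star_one, mul_one]
  · rw [star_one, mul_one]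
  · have h1 : (∑ b, ((1 : Mt (2 * m)) b a : ℂ) • c b) = c a := congrFun (cR_one c) a
    rw [h1, one_mul, mul_one]
  · rw [one_mul, mul_one]

theorem LiftA.mul {R R' : Mt (2 * m)} {u u' : A} (h : LiftA c R u) (h' : LiftA c R' u') :
    LiftA c (R * R') (u * u') := by
  refine ⟨mul_mem_ClAlg h.re h'.re, ?_, ?_, fun a => ?_, ?_⟩
  · rw [star_mul, mul_assoc, ← mul_assoc (star u), h.isom, one_mul, h'.isom]
  · rw [star_mul, mul_assoc, ← mul_assoc u', h'.isom', one_mul, h.isom']
  · have h1 : (∑ b, ((R * R') b a : ℂ) • c b) = ∑ b, (R' b a : ℂ) • cR c R b :=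
      cR_mul c R R' a
    rw [h1, mul_assoc, h'.tw a, ← mul_assoc, ← mul_assoc, Finset.mul_sum]
    congr 1
    rw [Finset.sum_mul]
    refine Finset.sum_congr rfl fun b _ => ?_
    rw [mul_smul_comm, smul_mul_assoc, h.tw' b]
  · rw [← mul_assoc, h.eps, mul_assoc, h'.eps, mul_assoc]

theorem LiftA.neg {R : Mt (2 * m)} {u : A} (h : LiftA c R u) : LiftA c R (-u) := by
  refine ⟨Submodule.neg_mem _ h.re, ?_, ?_, fun a => ?_, ?_⟩
  · rw [star_neg, neg_mul_neg, h.isom]
  · rw [star_neg, neg_mul_neg, h.isom']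
  · rw [neg_mul, h.tw a, mul_neg]
  · rw [mul_neg, h.eps, neg_mul]

theorem LiftA.star {R : Mt (2 * m)} (hR : Rᵀ * R = 1) (hc : CEnv t c) {u : A}
    (h : LiftA c R u) : LiftA c Rᵀ (star u) := by
  have hi := star_intertwine hc.st (star_cR hc.st R) h.tw'
  refine ⟨hc.star_mem h.re, ?_, ?_, fun a => ?_, ?_⟩
  · rw [star_star, h.isom']
  · rw [star_star, h.isom]
  · have h2 : c a = ∑ b, (R a b : ℂ) • cR c R b := c_eq_sum_cR c hR a
    conv_lhs => rw [h2]
    rw [Finset.mul_sum, Finset.sum_mul]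
    refine Finset.sum_congr rfl fun b _ => ?_
    rw [mul_smul_comm, ← hi b, smul_mul_assoc, Matrix.transpose_apply]
  · have h3 := congrArg Star.star h.eps
    rw [star_mul, star_mul, star_epsA hc.cl hc.st] at h3
    exact h3.symm

/-- Two lifts of the same rotation differ by a sign. -/
theorem LiftA.unique (hc : CEnv t c) {R : Mt (2 * m)} {u v : A} (h : LiftA c R u)
    (h' : LiftA c R v) : u = v ∨ u = -v := by
  have h1 : ∃ r : ℝ, Star.star v * u = (r : ℂ) • (1 : A) := by
    refine hc.scalar (mul_mem_ClAlg (hc.star_mem h'.re) h.re) fun a => ?_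
    rw [← mul_assoc, star_intertwine hc.st (star_cR hc.st R) h'.tw' a, mul_assoc, h.tw', mul_assoc]
  obtain ⟨r, hr⟩ := h1
  have h2 : u = (r : ℂ) • v := by
    calc u = v * Star.star v * u := by rw [h'.isom', one_mul]
      _ = v * ((r : ℂ) • (1 : A)) := by rw [mul_assoc, hr]
      _ = (r : ℂ) • v := by rw [mul_smul_comm, mul_one]
  have h3 : (r : ℂ) * r = 1 := by
    have h4 := h.isom
    rw [h2, star_creal, smul_mul_smul_comm, h'.isom] at h4
    have h7 : ((r : ℂ) * r - 1) • (1 : A) = 0 := by rw [sub_smul, h4, one_smul, sub_self]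
    rcases smul_eq_zero.mp h7 with h8 | h8
    · exact sub_eq_zero.mp h8
    · exact absurd h8 one_ne_zero
  rcases mul_self_eq_one_iff.mp h3 with h4 | h4
  · left; rw [h2, h4, one_smul]
  · right; rw [h2, h4, neg_smul, one_smul]

/-- conjugation of `spin` -/
theorem LiftA.conj_twoA (hc : CEnv t c) {R : Mt (2 * m)} (hR : Rᵀ * R = 1) {u : A}
    (h : LiftA c R u) (M : Mt (2 * m)) : twoA c M * u = u * twoA c (Rᵀ * M * R) := by
  have hR' : R * Rᵀ = 1 := mul_eq_one_comm.mp hR
  -- `u two(K) = two'(K) u` with the rotated elements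
  have h1 : ∀ K : Mt (2 * m), u * twoA c K = twoA (cR c R) K * u := by
    intro K
    unfold twoA
    rw [Finset.mul_sum, Finset.sum_mul]
    refine Finset.sum_congr rfl fun a _ => ?_
    rw [Finset.mul_sum, Finset.sum_mul]
    refine Finset.sum_congr rfl fun b _ => ?_
    rw [mul_smul_comm, smul_mul_assoc, ← mul_assoc, ← h.tw' a, mul_assoc, ← h.tw' b, mul_assoc]
  -- `two'(K) = two (R K Rᵀ)`
  have h2 : ∀ K : Mt (2 * m), twoA (cR c R) K = twoA c (R * K * Rᵀ) := by
    intro K
    unfold twoA cR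
    have e1 : ∀ a b, (K a b : ℂ) • ((∑ p, (R p a : ℂ) • c p) * ∑ q, (R q b : ℂ) • c q)
        = ∑ p, ∑ q, ((R p a : ℂ) * (K a b : ℂ) * (R q b : ℂ)) • (c p * c q) := by
      intro a b
      rw [Finset.sum_mul_sum, Finset.smul_sum]
      refine Finset.sum_congr rfl fun p _ => ?_
      rw [Finset.smul_sum]
      refine Finset.sum_congr rfl fun q _ => ?_
      rw [smul_mul_smul_comm, smul_smul]
      congr 1; ring
    simp only [e1]
    have e2 : ∀ p q, (((R * K * Rᵀ) p q : ℝ) : ℂ) • (c p * c q)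
        = ∑ a, ∑ b, ((R p a : ℂ) * (K a b : ℂ) * (R q b : ℂ)) • (c p * c q) := by
      intro p q
      rw [Matrix.mul_apply]
      simp only [Matrix.mul_apply, Matrix.transpose_apply]
      push_cast
      simp only [Finset.sum_mul, Finset.sum_smul]
      rw [Finset.sum_comm]
    simp only [e2]
    rw [Finset.sum_congr rfl fun a _ => Finset.sum_comm]
    rw [Finset.sum_comm]
    refine Finset.sum_congr rfl fun p _ => ?_
    rw [Finset.sum_congr rfl fun a _ => Finset.sum_comm]
    rw [Finset.sum_comm]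
  rw [h1, h2]
  congr 2
  calc M = (R * Rᵀ) * M * (R * Rᵀ) := by rw [hR', one_mul, mul_one]
    _ = R * (Rᵀ * M * R) * Rᵀ := by simp only [mul_assoc]

theorem LiftA.conj_spinA (hc : CEnv t c) {R : Mt (2 * m)} (hR : Rᵀ * R = 1) {u : A}
    (h : LiftA c R u) (M : Mt (2 * m)) : spinA c M * u = u * spinA c (Rᵀ * M * R) := by
  rw [spinA_eq, spinA_eq, smul_mul_assoc, h.conj_twoA hc hR, mul_smul_comm]

/-- the derivative of a lift -/
theorem CEnv.eq_spinA (h : CEnv t c) {X : A} (hX : X ∈ ClAlg ℝ c) (hs : star X = -X)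
    {M : Mt (2 * m)} (hM : ∀ a b, M b a = -M a b)
    (hc : ∀ b, X * c b - c b * X = ∑ a, (M a b : ℂ) • c a) : X = spinA c M := by
  have h1 : ∃ r : ℝ, X - spinA c M = (r : ℂ) • (1 : A) := by
    refine h.scalar (Submodule.sub_mem _ hX (spinA_mem h.rc c M)) fun b => ?_
    have h2 := hc b
    rw [← spinA_comm_c h.cl hM b] at h2
    have h3 : (X - spinA c M) * c b - c b * (X - spinA c M) = 0 := by
      have : (X - spinA c M) * c b - c b * (X - spinA c M)
          = (X * c b - c b * X) - (spinA c M * c b - c b * spinA c M) := by noncomm_ring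
      rw [this, h2, sub_self]
    exact (sub_eq_zero.mp h3).symm
  obtain ⟨r, hr⟩ := h1
  have h2 : star (X - spinA c M) = -(X - spinA c M) := by
    rw [star_sub, hs, star_spinA h.st hM]; abel
  rw [hr, star_creal, star_one] at h2
  have h3 : (2 * (r : ℂ)) • (1 : A) = 0 := by
    rw [two_mul, add_smul]; nth_rewrite 1 [h2]; simp
  rcases smul_eq_zero.mp h3 with h4 | h4
  · have h5 : (r : ℂ) = 0 := by simpa using h4
    rw [h5, zero_smul] at hr
    exact sub_eq_zero.mp hr
  · exact absurd h4 one_ne_zero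

end abstractRing

end

end Pool.Agent.Lib.MP_df705a_gt.RL
end

section

/-!
TASK B4. The derivative of `s ↦ S_s R`.

PROOF. `Sop R (s+h) * R - Sop R s * R + h • ((1 - R) * Sop R s) = cfc g R` with
`g r = fS (s+h) r * r - fS s r * r + h * ((1 - r) * fS s r)` (`cfc_mul`, `cfc_sub`, `cfc_add`,
`cfc_const_mul`, `cfc_id`, `cfc_one`), so by `fS_diff2` and `cfc_norm_le'` its norm is
`≤ 2/s² h²` for `|h| ≤ s/2`. This is `o(h)`: `HasDerivAt` with derivative `-((1 - R) * Sop R s)`
(`hasDerivAt_iff_isLittleO_nhds_zero`).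
-/

open scoped InnerProductSpace ENNReal NNReal
open Filter Topology Set MeasureTheory

namespace Pool.Agent.Lib.MP_df705a_gt.RL

noncomputable section

variable {H : Type*} [NormedAddCommGroup H] [InnerProductSpace ℂ H] [CompleteSpace H]

variable {R : H →L[ℂ] H}

theorem B4_eq (hR : IsCon R) {s h : ℝ} (hs : 0 < s) (hh : 0 < s + h) :
    cfc (fun r : ℝ => fS (s + h) r * r - fS s r * r + h * ((1 - r) * fS s r)) R =
      Sop R (s + h) * R - Sop R s * R + h • ((1 - R) * Sop R s) := by
  have hsa : IsSelfAdjoint R := hR.sa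
  have c1 : Continuous (fS s) := fS_continuous hs
  have c2 : Continuous (fS (s + h)) := fS_continuous hh
  have cid : cfc (fun r : ℝ => r) R = R := cfc_id' ℝ R
  have e1 : cfc (fun r : ℝ => fS (s + h) r * r) R = Sop R (s + h) * R := by
    rw [cfc_mul (fS (s + h)) (fun r => r) R c2.continuousOn continuousOn_id, cid]
    rfl
  have e2 : cfc (fun r : ℝ => fS s r * r) R = Sop R s * R := by
    rw [cfc_mul (fS s) (fun r => r) R c1.continuousOn continuousOn_id, cid]
    rfl
  have e3 : cfc (fun r : ℝ => 1 - r) R = 1 - R := by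
    rw [cfc_sub (fun _ : ℝ => (1 : ℝ)) (fun r => r) R continuousOn_const continuousOn_id, cid,
      cfc_const_one ℝ R]
  have e4 : cfc (fun r : ℝ => (1 - r) * fS s r) R = (1 - R) * Sop R s := by
    rw [cfc_mul (fun r : ℝ => 1 - r) (fS s) R (by fun_prop) c1.continuousOn, e3]
    rfl
  have e5 : cfc (fun r : ℝ => h * ((1 - r) * fS s r)) R = h • ((1 - R) * Sop R s) := by
    rw [cfc_const_mul h (fun r : ℝ => (1 - r) * fS s r) R (by fun_prop), e4]
  rw [cfc_add R (fun r : ℝ => fS (s + h) r * r - fS s r * r)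
      (fun r : ℝ => h * ((1 - r) * fS s r)) (by fun_prop) (by fun_prop),
    cfc_sub (fun r : ℝ => fS (s + h) r * r) (fun r : ℝ => fS s r * r) R
      (by fun_prop) (by fun_prop), e1, e2, e5]

theorem Sop_R_hasDerivAt (hR : IsCon R) {s : ℝ} (hs : 0 < s) :
    HasDerivAt (fun t => Sop R t * R) (-((1 - R) * Sop R s)) s := by
  rw [hasDerivAt_iff_isLittleO_nhds_zero]
  have hO : (fun h : ℝ => Sop R (s + h) * R - Sop R s * R - h • (-((1 - R) * Sop R s)))
      =O[𝓝 0] (fun h : ℝ => h ^ 2) := by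
    refine Asymptotics.IsBigO.of_bound (2 / s ^ 2) ?_
    have hev : ∀ᶠ h : ℝ in 𝓝 0, |h| ≤ s / 2 := by
      have : Metric.closedBall (0 : ℝ) (s / 2) ∈ 𝓝 (0 : ℝ) :=
        Metric.closedBall_mem_nhds _ (by positivity)
      filter_upwards [this] with h hh
      simpa [Metric.mem_closedBall, Real.dist_eq] using hh
    filter_upwards [hev] with h hh
    have h1 : 0 < s + h := by have := (abs_le.1 hh).1; linarith
    have e : Sop R (s + h) * R - Sop R s * R - h • (-((1 - R) * Sop R s)) =
        cfc (fun r : ℝ => fS (s + h) r * r - fS s r * r + h * ((1 - r) * fS s r)) R := by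
      rw [B4_eq hR hs h1, smul_neg, sub_neg_eq_add]
    rw [e]
    have hn : ‖h ^ 2‖ = h ^ 2 := by rw [Real.norm_eq_abs, abs_of_nonneg (sq_nonneg h)]
    rw [hn]
    refine cfc_norm_le' hR (by positivity) ?_
    intro r hr
    exact fS_diff2 hs hh hr.1 hr.2
  refine hO.trans_isLittleO ?_
  have := Asymptotics.isLittleO_pow_id (𝕜 := ℝ) (n := 2) (by norm_num)
  simpa using this

end

end Pool.Agent.Lib.MP_df705a_gt.RL
end

section

/-!
TASK B5. The derivative of `τ ↦ S_{s-τ} q(τ)`.

PROOF. Let `0 < τ < s`, `p = q τ + a` with `q τ = R p` (`a` is `Hq τ`). For small `h`: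
`S_{s-τ-h} q(τ+h) - S_{s-τ} q(τ) = S_{s-τ-h} (q(τ+h) - q(τ)) + (S_{s-τ-h} R - S_{s-τ} R) p`.
Divided by `h` the first term tends to `S_{s-τ} q'` : `‖S‖ ≤ 1`,
`(q(τ+h) - q(τ))/h → q'` and `S_{s-τ-h} q' → S_{s-τ} q'` (`Sop_continuousOn`). The second term
tends to `(1 - R) S_{s-τ} p = S_{s-τ} (p - R p) = S_{s-τ} a` (B4 with the inner derivative `-1`,
`Sop_comm` for `T = R`).
-/

open scoped InnerProductSpace ENNReal NNReal
open Filter Topology Set MeasureTheory

namespace Pool.Agent.Lib.MP_df705a_gt.RL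

noncomputable section

variable {H : Type*} [NormedAddCommGroup H] [InnerProductSpace ℂ H] [CompleteSpace H]

variable {R : H →L[ℂ] H}

theorem duhamel_hasDerivAt (hR : IsCon R) {s τ : ℝ} (h0 : 0 < τ) (hs : τ < s) {q : ℝ → H}
    {q' a : H} (hq : HasDerivAt q q' τ) (ha : q τ = R (q τ + a)) :
    HasDerivAt (fun σ => Sop R (s - σ) (q σ)) (Sop R (s - τ) (q' + a)) τ := by
  have hst : 0 < s - τ := sub_pos.2 hs
  set p : H := q τ + a with hp
  -- the second term
  have h2 : HasDerivAt (fun σ => (Sop R (s - σ) * R) p) (Sop R (s - τ) a) τ := by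
    have hB := Sop_R_hasDerivAt hR hst
    have hin : HasDerivAt (fun σ : ℝ => s - σ) (-1) τ := by
      simpa using (hasDerivAt_id τ).const_sub s
    have hc : HasDerivAt (fun σ => Sop R (s - σ) * R)
        ((-1 : ℝ) • (-((1 - R) * Sop R (s - τ)))) τ := HasDerivAt.scomp τ hB hin
    have hev := ((ContinuousLinearMap.apply ℂ H p).restrictScalars ℝ).hasFDerivAt.comp_hasDerivAt
      τ hc
    have hval : ((ContinuousLinearMap.apply ℂ H p).restrictScalars ℝ)
        ((-1 : ℝ) • (-((1 - R) * Sop R (s - τ)))) = Sop R (s - τ) a := by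
      have hcom : R (Sop R (s - τ) p) = Sop R (s - τ) (R p) := by
        have := (Sop_comm (Commute.refl R) (s - τ)).eq
        have h3 := congrArg (fun A : H →L[ℂ] H => A p) this
        simpa using h3.symm
      have e1 : ((-1 : ℝ) • (-((1 - R) * Sop R (s - τ)))) = (1 - R) * Sop R (s - τ) := by
        rw [smul_neg, neg_smul, one_smul, neg_neg]
      rw [e1]
      change ((1 - R) * Sop R (s - τ)) p = _
      have e2 : ((1 - R) * Sop R (s - τ)) p = Sop R (s - τ) p - R (Sop R (s - τ) p) := rfl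
      rw [e2, hcom, ← map_sub, ← ha, hp]
      congr 1
      abel
    rw [hval] at hev
    exact hev
  -- the first term
  have h1 : HasDerivAt (fun σ => Sop R (s - σ) (q σ - q τ)) (Sop R (s - τ) q') τ := by
    rw [hasDerivAt_iff_tendsto_slope]
    have hsl : slope (fun σ => Sop R (s - σ) (q σ - q τ)) τ =
        fun σ => Sop R (s - σ) (slope q τ σ) := by
      funext σ
      simp only [slope, vsub_eq_sub, sub_self, map_zero, sub_zero]
      rw [← ContinuousLinearMap.map_smul_of_tower]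
    rw [hsl]
    have hS : Tendsto (fun σ : ℝ => Sop R (s - σ)) (𝓝[≠] τ) (𝓝 (Sop R (s - τ))) := by
      have hc : ContinuousAt (Sop R) (s - τ) :=
        (Sop_continuousOn hR).continuousAt (isOpen_Ioi.mem_nhds hst)
      have hin : Tendsto (fun σ : ℝ => s - σ) (𝓝[≠] τ) (𝓝 (s - τ)) :=
        ((continuous_const.sub continuous_id).tendsto τ).mono_left nhdsWithin_le_nhds
      exact hc.tendsto.comp hin
    have hcont : Continuous fun x : (H →L[ℂ] H) × H => x.1 x.2 :=
      isBoundedBilinearMap_apply.continuous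
    exact (hcont.tendsto (Sop R (s - τ), q')).comp
      (hS.prodMk_nhds (hasDerivAt_iff_tendsto_slope.1 hq))
  have h3 := h1.add h2
  have hf : (fun σ => Sop R (s - σ) (q σ)) =
      (fun σ => Sop R (s - σ) (q σ - q τ)) + fun σ => (Sop R (s - σ) * R) p := by
    funext σ
    change Sop R (s - σ) (q σ) = Sop R (s - σ) (q σ - q τ) + Sop R (s - σ) (R p)
    rw [← ha, ← map_add, sub_add_cancel]
  rw [hf, map_add]
  exact h3

end

end Pool.Agent.Lib.MP_df705a_gt.RL
end

section

/-!
TASK B6. Duhamel's formula.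

PROOF. Let `e τ = q' τ + a τ`. For `ε < s₁ < s` the function `τ ↦ S_{s-τ} (e τ)` is continuous on
`[ε, s₁]` (`Sop_continuousOn` and the continuity of `e`), so by B5 and
`intervalIntegral.integral_eq_sub_of_hasDerivAt`:
`∫_ε^{s₁} S_{s-τ} (e τ) dτ = S_{s-s₁} (q s₁) - S_{s-ε} (q ε)`. Let `s₁ → s`: on `[ε, s]` the
integrand is bounded by `‖e τ‖`, which is bounded, so the left side converges to the integral up
to `s`; and `S_{s-s₁} (q s₁) → q s`, because `‖S_{s-s₁} (q s₁ - q s)‖ ≤ ‖q s₁ - q s‖ → 0` and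
`S_{s-s₁} (q s) → q s` (`Sop_tendsto`).
-/

open scoped InnerProductSpace ENNReal NNReal
open Filter Topology Set MeasureTheory

namespace Pool.Agent.Lib.MP_df705a_gt.RL

noncomputable section

variable {H : Type*} [NormedAddCommGroup H] [InnerProductSpace ℂ H] [CompleteSpace H]

variable {R : H →L[ℂ] H}

theorem duhamel (hR : IsCon R) (hinj : ∀ u, R u = 0 → u = 0) {s ε : ℝ} (hε : 0 < ε)
    (hs : ε < s) {q q' a : ℝ → H} (hq : ∀ τ ∈ Ioc 0 s, HasDerivWithinAt q (q' τ) (Iic s) τ)
    (ha : ∀ τ ∈ Ioc 0 s, q τ = R (q τ + a τ))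
    (he : ContinuousOn (fun τ => q' τ + a τ) (Ioc 0 s)) :
    q s - Sop R (s - ε) (q ε) = ∫ τ in ε..s, Sop R (s - τ) (q' τ + a τ) := by
  have hs0 : 0 < s := hε.trans hs
  have hder : ∀ τ, 0 < τ → τ < s →
      HasDerivAt (fun σ => Sop R (s - σ) (q σ)) (Sop R (s - τ) (q' τ + a τ)) τ := by
    intro τ h0 h1
    have hmem : τ ∈ Ioc 0 s := ⟨h0, h1.le⟩
    exact duhamel_hasDerivAt hR h0 h1 ((hq τ hmem).hasDerivAt (Iic_mem_nhds h1)) (ha τ hmem)
  -- continuity of the integrand
  have hcS : ContinuousOn (fun τ : ℝ => Sop R (s - τ)) (Ioo ε s) := by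
    refine (Sop_continuousOn hR).comp (by fun_prop) ?_
    intro τ hτ
    exact sub_pos.2 hτ.2
  have hce : ContinuousOn (fun τ => q' τ + a τ) (Ioo ε s) :=
    he.mono fun τ hτ => ⟨hε.trans hτ.1, hτ.2.le⟩
  have hcont : Continuous fun x : (H →L[ℂ] H) × H => x.1 x.2 :=
    isBoundedBilinearMap_apply.continuous
  have hcf : ContinuousOn (fun τ : ℝ => Sop R (s - τ) (q' τ + a τ)) (Ioo ε s) :=
    hcont.comp_continuousOn (hcS.prodMk hce)
  -- bound
  obtain ⟨C, hC⟩ : ∃ C, ∀ τ ∈ Icc ε s, ‖q' τ + a τ‖ ≤ C :=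
    isCompact_Icc.exists_bound_of_continuousOn
      (he.mono fun τ hτ => ⟨hε.trans_le hτ.1, hτ.2⟩)
  have hint : IntervalIntegrable (fun τ : ℝ => Sop R (s - τ) (q' τ + a τ)) volume ε s := by
    rw [intervalIntegrable_iff_integrableOn_Ioo_of_le hs.le]
    refine Integrable.of_bound (hcf.aestronglyMeasurable measurableSet_Ioo) C ?_
    refine (ae_restrict_iff' measurableSet_Ioo).2 (Eventually.of_forall ?_)
    intro τ hτ
    calc ‖Sop R (s - τ) (q' τ + a τ)‖ ≤ ‖Sop R (s - τ)‖ * ‖q' τ + a τ‖ :=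
          ContinuousLinearMap.le_opNorm _ _
      _ ≤ 1 * ‖q' τ + a τ‖ :=
          mul_le_mul_of_nonneg_right (Sop_norm hR (sub_nonneg.2 hτ.2.le)) (norm_nonneg _)
      _ ≤ C := by rw [one_mul]; exact hC τ ⟨hτ.1.le, hτ.2.le⟩
  -- limits
  have hleft : Tendsto (fun σ => Sop R (s - σ) (q σ)) (𝓝[>] ε) (𝓝 (Sop R (s - ε) (q ε))) :=
    (hder ε hε hs).continuousAt.tendsto.mono_left nhdsWithin_le_nhds
  have hright : Tendsto (fun σ => Sop R (s - σ) (q σ)) (𝓝[<] s) (𝓝 (q s)) := by
    have hqc : Tendsto q (𝓝[<] s) (𝓝 (q s)) := by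
      have h1 : ContinuousWithinAt q (Iic s) s := (hq s ⟨hs0, le_rfl⟩).continuousWithinAt
      exact h1.tendsto.mono_left (nhdsWithin_mono _ Iio_subset_Iic_self)
    have hA : Tendsto (fun σ => Sop R (s - σ) (q σ - q s)) (𝓝[<] s) (𝓝 0) := by
      have hz : Tendsto (fun σ => ‖q σ - q s‖) (𝓝[<] s) (𝓝 0) := by
        have := (hqc.sub_const (q s)).norm
        simpa using this
      refine squeeze_zero_norm' ?_ hz
      filter_upwards [self_mem_nhdsWithin] with σ hσ
      calc ‖Sop R (s - σ) (q σ - q s)‖ ≤ ‖Sop R (s - σ)‖ * ‖q σ - q s‖ :=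
            ContinuousLinearMap.le_opNorm _ _
        _ ≤ 1 * ‖q σ - q s‖ :=
            mul_le_mul_of_nonneg_right (Sop_norm hR (sub_nonneg.2 (le_of_lt hσ))) (norm_nonneg _)
        _ = ‖q σ - q s‖ := one_mul _
    have hB : Tendsto (fun σ => Sop R (s - σ) (q s)) (𝓝[<] s) (𝓝 (q s)) := by
      have hin : Tendsto (fun σ : ℝ => s - σ) (𝓝[<] s) (𝓝[>] 0) := by
        refine tendsto_nhdsWithin_iff.2 ⟨?_, ?_⟩
        · have : Tendsto (fun σ : ℝ => s - σ) (𝓝 s) (𝓝 (s - s)) :=
            (continuous_const.sub continuous_id).tendsto s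
          rw [sub_self] at this
          exact this.mono_left nhdsWithin_le_nhds
        · filter_upwards [self_mem_nhdsWithin] with σ hσ
          exact sub_pos.2 (mem_Iio.1 hσ)
      exact (Sop_tendsto hR hinj (q s)).comp hin
    have hAB := hA.add hB
    rw [zero_add] at hAB
    refine hAB.congr ?_
    intro σ
    rw [← map_add, sub_add_cancel]
  have hmain := intervalIntegral.integral_eq_sub_of_hasDerivAt_of_tendsto hs
    (fun τ hτ => hder τ (hε.trans hτ.1) hτ.2) hint hleft hright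
  exact hmain.symm

end

end Pool.Agent.Lib.MP_df705a_gt.RL
end
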