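import Pool.Agent.Lib.MP_df705a_gt.Mg.G033
import Pool.Agent.Lib.MP_df705a_gt.Mg.G030
import Pool.Agent.Lib.MP_df705a_gt.Mg.G039
import Pool.Agent.Lib.MP_df705a_gt.Mg.G044

section

/-!
# RL2, Y3: the first Bianchi identity and the curvature term
-/

open scoped ContDiff InnerProductSpace Matrix ENNReal
open MeasureTheory

noncomputable section

namespace Pool.Agent.Lib.MP_df705a_gt.RL

variable {N m : ℕ}

private theorem y3_neg (f : V N → ℝ) (μ : Fin N) (y : V N) :
    pd μ (fun y => - f y) y = - pd μ f y := by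
  unfold pd
  rw [fderiv_fun_neg]
  rfl

private theorem y3_sub {f f' : V N → ℝ} (h : Differentiable ℝ f) (h' : Differentiable ℝ f')
    (μ : Fin N) (y : V N) : pd μ (fun y => f y - f' y) y = pd μ f y - pd μ f' y := by
  unfold pd
  rw [fderiv_fun_sub (h y) (h' y)]
  rfl

private theorem y3_add {f f' : V N → ℝ} (h : Differentiable ℝ f) (h' : Differentiable ℝ f')
    (μ : Fin N) (y : V N) : pd μ (fun y => f y + f' y) y = pd μ f y + pd μ f' y := by
  unfold pd
  rw [fderiv_fun_add (h y) (h' y)]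
  rfl

private theorem y3_mul {f f' : V N → ℝ} (h : Differentiable ℝ f) (h' : Differentiable ℝ f')
    (μ : Fin N) (y : V N) :
    pd μ (fun y => f y * f' y) y = pd μ f y * f' y + f y * pd μ f' y := by
  unfold pd
  rw [fderiv_fun_mul (h y) (h' y)]
  show f y * (fderiv ℝ f' y (bv μ)) + f' y * (fderiv ℝ f y (bv μ)) = _
  ring

private theorem y3_sum {ι : Type*} (t : Finset ι) {f : ι → V N → ℝ}
    (h : ∀ i ∈ t, Differentiable ℝ (f i)) (μ : Fin N) (y : V N) :
    pd μ (fun y => ∑ i ∈ t, f i y) y = ∑ i ∈ t, pd μ (f i) y := by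
  unfold pd
  rw [fderiv_fun_sum fun i hi => h i hi y]
  simp

private theorem y3_comm {f : V N → ℝ} (h : ContDiff ℝ ∞ f) (μ l : Fin N) (y : V N) :
    pd l (fun y => pd μ f y) y = pd μ (fun y => pd l f y) y := by
  have h1 : Differentiable ℝ (fderiv ℝ f) :=
    (contDiff_infty_iff_fderiv.1 h).2.differentiable (by simp)
  have h2 : ∀ a b : Fin N, pd a (fun y => pd b f y) y = (fderiv ℝ (fderiv ℝ f) y (bv a)) (bv b) := by
    intro a b
    unfold pd
    rw [fderiv_clm_apply (h1 y) (differentiableAt_const _)]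
    simp
  rw [h2, h2]
  have h3 : IsSymmSndFDerivAt ℝ f y := by
    refine (h.contDiffAt (x := y)).isSymmSndFDerivAt ?_
    rw [minSmoothness_of_isRCLikeNormedField]
    exact WithTop.coe_le_coe.2 le_top
  exact h3.eq _ _

/-- `F_{μν}` is antisymmetric in the matrix indices and in `μ, ν`. -/
theorem Geo.F_anti (g : Geo N) (μ ν : Fin N) (y : V N) (a b : Fin N) :
    g.F μ ν y b a = - g.F μ ν y a b := by
  unfold Geo.F
  have h1 : ∀ μ, (fun y => g.Γ μ y b a) = fun y => - g.Γ μ y a b := fun μ => by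
    funext y
    exact g.anti μ y a b
  have h2 : ∀ μ ν, (g.Γ μ y * g.Γ ν y) b a = (g.Γ ν y * g.Γ μ y) a b := by
    intro μ ν
    rw [Matrix.mul_apply, Matrix.mul_apply]
    refine Finset.sum_congr rfl fun c _ => ?_
    rw [g.anti μ y c b, g.anti ν y a c]
    ring
  rw [Matrix.of_apply, Matrix.of_apply, h1, h1, y3_neg, y3_neg, Matrix.sub_apply,
    Matrix.sub_apply, h2, h2]
  ring

theorem Geo.F_swap (g : Geo N) (μ ν : Fin N) (y : V N) (a b : Fin N) :
    g.F ν μ y a b = - g.F μ ν y a b := by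
  unfold Geo.F
  rw [Matrix.of_apply, Matrix.of_apply, Matrix.sub_apply, Matrix.sub_apply]
  ring

/-- The first Bianchi identity: `∑_cyc F_{μν} θ_λ = 0`.
Proof: differentiate the torsion equations: the sum of `∂_λ T_{μν}` over the cyclic permutations is
zero; the second derivatives of `θ` cancel (symmetry of second derivatives), there remains
`∑_cyc [(∂_λ Γ_μ - ∂_μ Γ_λ) θ_ν + Γ_μ (∂_λ θ_ν - ∂_ν θ_λ)] = 0`, and by the torsion equation
`∂_λ θ_ν - ∂_ν θ_λ = - Γ_λ θ_ν + Γ_ν θ_λ`, so after relabelling this is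
`∑_cyc (∂_λ Γ_μ - ∂_μ Γ_λ + Γ_λ Γ_μ - Γ_μ Γ_λ) θ_ν = ∑_cyc F_{λμ} θ_ν`. -/
theorem Geo.bianchi (g : Geo N) (μ ν l a : Fin N) (y : V N) :
    ∑ b, (g.F μ ν y a b * g.θ y b l + g.F ν l y a b * g.θ y b μ
      + g.F l μ y a b * g.θ y b ν) = 0 := by
  have dΓ : ∀ μ a b, Differentiable ℝ fun y => g.Γ μ y a b := fun μ a b =>
    (g.smooth_Γ μ a b).differentiable (by simp)
  have dθ : ∀ a μ, Differentiable ℝ fun y => g.θ y a μ := fun a μ =>
    (g.smooth_θ a μ).differentiable (by simp)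
  have dpθ : ∀ a μ ν, Differentiable ℝ fun y => pd ν (fun y => g.θ y a μ) y := fun a μ ν =>
    (contDiff_pd (g.smooth_θ a μ) ν).differentiable (by simp)
  have hT : ∀ l μ ν : Fin N,
      pd l (fun y => pd μ (fun y => g.θ y a ν) y) y - pd l (fun y => pd ν (fun y => g.θ y a μ) y) y
      + (∑ b, pd l (fun y => g.Γ μ y a b) y * g.θ y b ν
        + ∑ b, g.Γ μ y a b * pd l (fun y => g.θ y b ν) y
        - ∑ b, pd l (fun y => g.Γ ν y a b) y * g.θ y b μ
        - ∑ b, g.Γ ν y a b * pd l (fun y => g.θ y b μ) y) = 0 := by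
    intro l μ ν
    have e1 : (fun y => pd μ (fun y => g.θ y a ν) y - pd ν (fun y => g.θ y a μ) y
        + ∑ b, (g.Γ μ y a b * g.θ y b ν - g.Γ ν y a b * g.θ y b μ)) = fun _ => (0 : ℝ) := by
      funext y
      exact g.torsion μ ν y a
    have e2 : pd l (fun y => pd μ (fun y => g.θ y a ν) y - pd ν (fun y => g.θ y a μ) y
        + ∑ b, (g.Γ μ y a b * g.θ y b ν - g.Γ ν y a b * g.θ y b μ)) y = 0 := by
      rw [e1]
      unfold pd
      simp
    rw [y3_add ((dpθ a ν μ).fun_sub (dpθ a μ ν)) (Differentiable.fun_sum fun b _ =>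
      ((dΓ μ a b).fun_mul (dθ b ν)).fun_sub ((dΓ ν a b).fun_mul (dθ b μ))),
      y3_sub (dpθ a ν μ) (dpθ a μ ν), y3_sum _ (fun b _ =>
      ((dΓ μ a b).fun_mul (dθ b ν)).fun_sub ((dΓ ν a b).fun_mul (dθ b μ)))] at e2
    rw [← e2]
    congr 1
    rw [← Finset.sum_add_distrib, ← Finset.sum_sub_distrib, ← Finset.sum_sub_distrib]
    refine Finset.sum_congr rfl fun b _ => ?_
    rw [y3_sub ((dΓ μ a b).fun_mul (dθ b ν)) ((dΓ ν a b).fun_mul (dθ b μ)),
      y3_mul (dΓ μ a b) (dθ b ν), y3_mul (dΓ ν a b) (dθ b μ)]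
    ring
  have hQ : ∀ μ ν l : Fin N, ∑ b, g.Γ μ y a b * pd l (fun y => g.θ y b ν) y
      - ∑ b, g.Γ μ y a b * pd ν (fun y => g.θ y b l) y
      = - ∑ b, (g.Γ μ y * g.Γ l y) a b * g.θ y b ν
        + ∑ b, (g.Γ μ y * g.Γ ν y) a b * g.θ y b l := by
    intro μ ν l
    have e3 : ∀ κ ρ : Fin N, ∑ b, (g.Γ μ y * g.Γ κ y) a b * g.θ y b ρ
        = ∑ b, g.Γ μ y a b * ∑ c, g.Γ κ y b c * g.θ y c ρ := by
      intro κ ρ
      simp_rw [Matrix.mul_apply, Finset.sum_mul, Finset.mul_sum]
      rw [Finset.sum_comm]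
      refine Finset.sum_congr rfl fun b _ => Finset.sum_congr rfl fun c _ => ?_
      ring
    rw [e3, e3, ← Finset.sum_sub_distrib, ← Finset.sum_neg_distrib, ← Finset.sum_add_distrib]
    refine Finset.sum_congr rfl fun b _ => ?_
    have e4 := g.torsion l ν y b
    rw [Finset.sum_sub_distrib] at e4
    linear_combination (g.Γ μ y a b) * e4
  have hF : ∀ μ ν l : Fin N, ∑ b, g.F μ ν y a b * g.θ y b l
      = ∑ b, pd μ (fun y => g.Γ ν y a b) y * g.θ y b l
        - ∑ b, pd ν (fun y => g.Γ μ y a b) y * g.θ y b l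
        + (∑ b, (g.Γ μ y * g.Γ ν y) a b * g.θ y b l
          - ∑ b, (g.Γ ν y * g.Γ μ y) a b * g.θ y b l) := by
    intro μ ν l
    rw [← Finset.sum_sub_distrib, ← Finset.sum_sub_distrib, ← Finset.sum_add_distrib]
    refine Finset.sum_congr rfl fun b _ => ?_
    unfold Geo.F
    rw [Matrix.of_apply, Matrix.sub_apply]
    ring
  rw [Finset.sum_add_distrib, Finset.sum_add_distrib, hF, hF, hF]
  have t1 := hT l μ ν
  have t2 := hT μ ν l
  have t3 := hT ν l μ
  have c1 := y3_comm (g.smooth_θ a ν) μ l y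
  have c2 := y3_comm (g.smooth_θ a μ) ν l y
  have c3 := y3_comm (g.smooth_θ a l) ν μ y
  have q1 := hQ μ ν l
  have q2 := hQ ν l μ
  have q3 := hQ l μ ν
  linarith

/-- The curvature in the frame: `F_{cd;ab} = ∑ e_c^μ e_d^ν F_{μν}(a,b)`. -/
def Geo.Fr (g : Geo N) (y : V N) (c d a b : Fin N) : ℝ :=
  ∑ μ, ∑ ν, g.e y μ c * g.e y ν d * g.F μ ν y a b

theorem Geo.Fr_swap (g : Geo N) (y : V N) (c d a b : Fin N) :
    g.Fr y d c a b = - g.Fr y c d a b := by
  unfold Geo.Fr
  rw [Finset.sum_comm, ← Finset.sum_neg_distrib]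
  refine Finset.sum_congr rfl fun μ _ => ?_
  rw [← Finset.sum_neg_distrib]
  refine Finset.sum_congr rfl fun ν _ => ?_
  rw [g.F_swap μ ν]
  ring

theorem Geo.Fr_anti (g : Geo N) (y : V N) (c d a b : Fin N) :
    g.Fr y c d b a = - g.Fr y c d a b := by
  unfold Geo.Fr
  rw [← Finset.sum_neg_distrib]
  refine Finset.sum_congr rfl fun μ _ => ?_
  rw [← Finset.sum_neg_distrib]
  refine Finset.sum_congr rfl fun ν _ => ?_
  rw [g.F_anti μ ν]
  ring

private theorem y3_rot (f : Fin N → Fin N → Fin N → ℝ) :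
    ∑ μ, ∑ ν, ∑ l, f μ ν l = ∑ μ, ∑ ν, ∑ l, f ν l μ := by
  symm
  rw [Finset.sum_comm]
  exact Finset.sum_congr rfl fun ν _ => Finset.sum_comm

private theorem y3_Fr (g : Geo N) (y : V N) (c d a b : Fin N) :
    g.Fr y c d a b = ∑ μ, ∑ ν, ∑ l, g.e y μ c * g.e y ν d * g.e y l b
      * ∑ i, g.F μ ν y a i * g.θ y i l := by
  unfold Geo.Fr
  refine Finset.sum_congr rfl fun μ _ => Finset.sum_congr rfl fun ν _ => ?_
  have h : ∑ l, g.e y l b * ∑ i, g.F μ ν y a i * g.θ y i l = g.F μ ν y a b := by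
    simp_rw [Finset.mul_sum]
    rw [Finset.sum_comm]
    have h2 : ∀ i, ∑ l, g.e y l b * (g.F μ ν y a i * g.θ y i l)
        = g.F μ ν y a i * if i = b then 1 else 0 := by
      intro i
      rw [← g.sum_θ_e y i b, Finset.mul_sum]
      exact Finset.sum_congr rfl fun l _ => by ring
    simp_rw [h2]
    simp
  rw [← h, Finset.mul_sum]
  exact Finset.sum_congr rfl fun l _ => by ring

/-- `bianchi` contracted with `e_c^μ e_d^ν e_b^λ`, `sum_θ_e`. -/
theorem Geo.Fr_cyc (g : Geo N) (y : V N) (c d a b : Fin N) :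
    g.Fr y c d a b + g.Fr y d b a c + g.Fr y b c a d = 0 := by
  have h1 : g.Fr y d b a c = ∑ μ, ∑ ν, ∑ l, g.e y ν d * g.e y l b * g.e y μ c
      * ∑ i, g.F ν l y a i * g.θ y i μ := by
    rw [y3_Fr g y d b a c, y3_rot]
  have h2 : g.Fr y b c a d = ∑ μ, ∑ ν, ∑ l, g.e y l b * g.e y μ c * g.e y ν d
      * ∑ i, g.F l μ y a i * g.θ y i ν := by
    rw [y3_Fr g y b c a d, y3_rot, y3_rot]
  rw [y3_Fr g y c d a b, h1, h2, ← Finset.sum_add_distrib, ← Finset.sum_add_distrib]
  refine Finset.sum_eq_zero fun μ _ => ?_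
  rw [← Finset.sum_add_distrib, ← Finset.sum_add_distrib]
  refine Finset.sum_eq_zero fun ν _ => ?_
  rw [← Finset.sum_add_distrib, ← Finset.sum_add_distrib]
  refine Finset.sum_eq_zero fun l _ => ?_
  have h3 := g.bianchi μ ν l a y
  rw [Finset.sum_add_distrib, Finset.sum_add_distrib] at h3
  linear_combination (g.e y μ c * g.e y ν d * g.e y l b) * h3

theorem Geo.scal_eq (g : Geo N) (y : V N) : g.scal y = - ∑ a, ∑ c, g.Fr y c a a c := by
  unfold Geo.scal Geo.Fr
  rfl

/-- The gamma matrices `γ^μ = ∑_a e_a^μ c_a`. -/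
def Cliff.gam (C : Cliff m) (g : Geo (2 * m)) (μ : Fin (2 * m)) (y : V (2 * m)) : En m :=
  ∑ a, (g.e y μ a : ℂ) • C.c a

private theorem y3_ofs {ι : Type*} (t : Finset ι) (f : ι → ℝ) (A : En m) :
    ((∑ i ∈ t, f i : ℝ) : ℂ) • A = ∑ i ∈ t, (f i : ℂ) • A := by
  rw [Complex.ofReal_sum]
  exact Finset.sum_smul (R := ℂ) (M := En m)

private theorem y3_sw {M : Type*} [AddCommMonoid M] {N N' : ℕ} (G : Fin N → Fin N → Fin N' → M) :
    ∑ μ, ∑ ν, ∑ c, G μ ν c = ∑ c, ∑ μ, ∑ ν, G μ ν c := by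
  symm
  rw [Finset.sum_comm]
  exact Finset.sum_congr rfl fun ν _ => Finset.sum_comm

/-- The curvature term of Lichnerowicz: `(1/2) ∑ γ^μ γ^ν spin(F_{μν}) = scal / 4`
(`contraction` with `g.Fr y`, `scal_eq`). -/
theorem Cliff.curv_spin (C : Cliff m) (g : Geo (2 * m)) (y : V (2 * m)) :
    (1 / 2 : ℂ) • ∑ μ, ∑ ν, C.gam g μ y * C.gam g ν y * C.spin (g.F μ ν y)
      = ((g.scal y / 4 : ℝ) : ℂ) • (1 : En m) := by
  have h1 : ∀ μ ν, C.gam g μ y * C.gam g ν y * C.spin (g.F μ ν y) = (-(1 / 4) : ℂ) •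
      ∑ c, ∑ d, ∑ a, ∑ b, ((g.e y μ c * g.e y ν d * g.F μ ν y a b : ℝ) : ℂ) •
        (C.c c * C.c d * (C.c a * C.c b)) := by
    intro μ ν
    unfold Cliff.gam Cliff.spin
    rw [mul_smul_comm, Finset.sum_mul_sum, Finset.sum_mul]
    congr 1
    refine Finset.sum_congr rfl fun c _ => ?_
    rw [Finset.sum_mul]
    refine Finset.sum_congr rfl fun d _ => ?_
    rw [Finset.mul_sum]
    refine Finset.sum_congr rfl fun a _ => ?_
    rw [Finset.mul_sum]
    refine Finset.sum_congr rfl fun b _ => ?_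
    rw [smul_mul_smul_comm, smul_mul_smul_comm]
    push_cast
    rfl
  have h2 := C.contraction (fun c d a b => g.Fr y c d a b) (g.Fr_swap y) (g.Fr_anti y)
    (g.Fr_cyc y)
  have h3 : ∑ c, ∑ d, ∑ a, ∑ b, (g.Fr y c d a b : ℂ) • (C.c c * C.c d * (C.c a * C.c b))
      = ∑ μ, ∑ ν, ∑ c, ∑ d, ∑ a, ∑ b, ((g.e y μ c * g.e y ν d * g.F μ ν y a b : ℝ) : ℂ) •
        (C.c c * C.c d * (C.c a * C.c b)) := by
    symm
    rw [y3_sw]
    refine Finset.sum_congr rfl fun c _ => ?_
    rw [y3_sw]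
    refine Finset.sum_congr rfl fun d _ => ?_
    rw [y3_sw]
    refine Finset.sum_congr rfl fun a _ => ?_
    rw [y3_sw]
    refine Finset.sum_congr rfl fun b _ => ?_
    unfold Geo.Fr
    rw [y3_ofs]
    refine Finset.sum_congr rfl fun μ _ => ?_
    rw [y3_ofs]
  simp_rw [h1, ← Finset.smul_sum]
  rw [← h3]
  have h4 : ∑ c, ∑ d, ∑ a, ∑ b, (g.Fr y c d a b : ℂ) • (C.c c * C.c d * (C.c a * C.c b))
      = ((2 * ∑ a, ∑ c, g.Fr y c a a c : ℝ) : ℂ) • (1 : En m) := h2
  rw [h4, g.scal_eq, smul_smul, smul_smul]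
  congr 1
  push_cast
  ring

/-- The curvature term of the potential. -/
theorem Cliff.curv_pot (C : Cliff m) (g : Geo (2 * m)) (B : Pot (2 * m)) (y : V (2 * m)) :
    (1 / 2 : ℂ) • ∑ μ, ∑ ν, C.gam g μ y * C.gam g ν y
        * ((Complex.I * (dPot B y μ ν : ℂ)) • (1 : En m)) = C.curvB g B y := by
  have h1 : ∀ μ ν, C.gam g μ y * C.gam g ν y * ((Complex.I * (dPot B y μ ν : ℂ)) • (1 : En m))
      = ∑ a, ∑ b, (Complex.I * ((g.e y μ a * dPot B y μ ν * g.e y ν b : ℝ) : ℂ)) •
        (C.c a * C.c b) := by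
    intro μ ν
    unfold Cliff.gam
    rw [mul_smul_comm, mul_one, Finset.sum_mul_sum, Finset.smul_sum]
    refine Finset.sum_congr rfl fun a _ => ?_
    rw [Finset.smul_sum]
    refine Finset.sum_congr rfl fun b _ => ?_
    rw [smul_mul_smul_comm, smul_smul]
    congr 1
    push_cast
    ring
  have h3 : C.two (g.fr (dPot B) y) = ∑ μ, ∑ ν, ∑ a, ∑ b,
      ((g.e y μ a * dPot B y μ ν * g.e y ν b : ℝ) : ℂ) • (C.c a * C.c b) := by
    unfold Cliff.two
    symm
    rw [y3_sw]
    refine Finset.sum_congr rfl fun a _ => ?_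
    rw [y3_sw]
    refine Finset.sum_congr rfl fun b _ => ?_
    rw [Finset.sum_comm]
    have e1 : g.fr (dPot B) y a b = ∑ ν, ∑ μ, g.e y μ a * dPot B y μ ν * g.e y ν b := by
      unfold Geo.fr
      rw [Matrix.mul_apply]
      refine Finset.sum_congr rfl fun ν _ => ?_
      rw [Matrix.mul_apply, Finset.sum_mul]
      rfl
    rw [e1, y3_ofs]
    refine Finset.sum_congr rfl fun ν _ => ?_
    rw [y3_ofs]
  unfold Cliff.curvB
  rw [h3]
  simp_rw [h1, mul_smul, ← Finset.smul_sum]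
  rw [smul_smul]
  congr 1
  ring

end Pool.Agent.Lib.MP_df705a_gt.RL
end
end

section

/-!
TASK S20. The theorem on random forms.

PROOF. `SqBdd (comp (h r))` from `hsq` (`abs_pds_le`, `sq_le_sq'`, `comp (h r) (μ,ν) i = fun y => h r i y μ ν`).
`IsSer` for every slot `r`: if `I (b r)` is finite `isSer_of_finite`, otherwise there are two
different slots in the block `b r`; one of them, say `r'`, is different from `r`:
`XX.isSigns_eps r r'` and `isSer_of_signs`. Choose `H r`. `hHm`: `(hH r).approx`, `pds_meas`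
(`l = []`) and `Measurable.comp (x ↦ (x, y))`. `Ω S x y = ∑ r ∈ S, matOf (H r) x y`, `rand_sum`
(`XX.measurePreserving_smul`, `XX.smul_eps`, `XX.measurable_eps`).
Last claim: `e g = ∫ x, ∫ y in F, pf (fun r => matOf (H (g r)) x y)`. The function
`(x, y) ↦ pf (fun r => matOf (H (g r)) x y)` is measurable and for `y ∈ F` (bounded by `ρ`) at most
`(2m)! (L x)^m` in absolute value, `L = ∑ r, L_r` (`abs_pf_le`, `mom` with `k = 0`), so integrable on
`P ⊗ volume.restrict F` (`volume F < ∞`). By `pf_sum` and linearity (finite sums)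
`∑_{g ∈ piFinset (fun _ => S)} e g = ∫∫ pf (fun _ => Ω S x y) = 0`; `e τ = e id` by `pf_perm`
(`pf (fun r => W (τ r)) = pf W` with `W r = matOf (H r) x y`). `moebius`: `e id = 0`. By Fubini
(`integral_integral_swap`) `0 = ∫ y in F, ∫ x, pf (fun r => matOf (H r) x y)` and `(hasSum_pf ..).tsum_eq`.
-/

open scoped ContDiff InnerProductSpace Matrix
open MeasureTheory Filter Topology

noncomputable section

namespace Pool.Agent.Lib.MP_df705a_gt.RL

universe u

variable {m : ℕ} {J : Type} [DecidableEq J] [Fintype J]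

theorem S20_sqBdd {N : ℕ} {I : Type*} (h : I → V N → Mt N) (hc : ∀ i, IsClosed2 (h i))
    (hsq : ∀ (k : ℕ) (ρ : ℝ), ∃ C : ℝ, ∀ y, ‖y‖ ≤ ρ → ∀ μ ν,
      ∀ s : Finset I, ∑ i ∈ s, ‖iteratedFDeriv ℝ k (fun y => h i y μ ν) y‖ ^ 2 ≤ C) :
    SqBdd (comp h) := by
  intro c l r
  obtain ⟨C, hC⟩ := hsq l.length r
  refine ⟨C, fun y hy s => (Finset.sum_le_sum fun i _ => ?_).trans (hC y hy c.1 c.2 s)⟩
  have h1 := abs_pds_le ((hc i).smooth c.1 c.2) l y
  rw [← sq_abs]
  exact pow_le_pow_left₀ (abs_nonneg _) h1 2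

theorem random_forms {G : Type*} [Group G] (a : Act G (2 * m)) {F : Set (V (2 * m))}
    (hF : MeasurableSet F) (hF' : Bornology.IsBounded F) (b : Fin m → J)
    (hb : Function.Surjective b) (I : J → Type u) [∀ j, Countable (I j)]
    [∀ j, MulAction G (I j)]
    (hI : ∀ j, Finite (I j) ∨ ∃ r r' : Fin m, r ≠ r' ∧ b r = j ∧ b r' = j)
    (h : ∀ r : Fin m, I (b r) → V (2 * m) → Mt (2 * m)) (hc : ∀ r i, IsClosed2 (h r i))
    (he : ∀ (g : G) r i y, pull2 (a.act g) (h r (g • i)) y = h r i y)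
    (hsq : ∀ (r : Fin m) (k : ℕ) (ρ : ℝ), ∃ C : ℝ, ∀ y, ‖y‖ ≤ ρ → ∀ μ ν,
      ∀ s : Finset (I (b r)), ∑ i ∈ s, ‖iteratedFDeriv ℝ k (fun y => h r i y μ ν) y‖ ^ 2 ≤ C) :
    ∃ Ω : Finset (Fin m) → XX b I → V (2 * m) → Mt (2 * m),
      (∀ S, Rand (XX.prob b I) a (Ω S)) ∧
      ((∀ S, ∫ x, (∫ y in F, pf (fun _ => Ω S x y)) ∂XX.prob b I = 0) →
        ∫ y in F, ∑' i : ∀ j, I j, pf (fun r => h r (i (b r)) y) = 0) := by
  have hsq' : ∀ r, SqBdd (comp (h r)) := fun r => S20_sqBdd (h r) (hc r) (hsq r)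
  have hsm : ∀ (r : Fin m) c i, ContDiff ℝ ∞ (comp (h r) c i) := fun r c i =>
    (hc r i).smooth c.1 c.2
  have hex : ∀ r : Fin m, ∃ H : Fin (2 * m) × Fin (2 * m) → XX b I → V (2 * m) → ℝ,
      IsSer (XX.prob b I) (fun i : I (b r) => XX.eps r i) (comp (h r)) H := by
    intro r
    rcases hI (b r) with hfin | ⟨r1, r2, hne, h1, h2⟩
    · exact isSer_of_finite (fun i => XX.measurable_eps r i) (fun i x => (XX.abs_eps r i x).le)
        (hsm r)
    · by_cases hr : r = r1
      · subst hr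
        exact isSer_of_signs (XX.isSigns_eps r r2 hne h2.symm) (hsm r) (hsq' r)
      · exact isSer_of_signs (XX.isSigns_eps r r1 hr h1.symm) (hsm r) (hsq' r)
  choose H hH using hex
  have hjm : ∀ (r : Fin m) c, Measurable fun p : XX b I × V (2 * m) => H r c p.1 p.2 := by
    intro r c
    obtain ⟨s, A, hA, hl⟩ := (hH r).approx
    exact pds_meas (fun i => XX.measurable_eps r i) (hsm r) hA hl c []
  have hHm : ∀ (r : Fin m) c y, Measurable fun x => H r c x y := fun r c y =>
    (hjm r c).comp (measurable_id.prodMk measurable_const)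
  refine ⟨fun S x y => ∑ r ∈ S, matOf (H r) x y, fun S => ?_, fun h0 => ?_⟩
  · exact rand_sum (X := XX b I) (P := XX.prob b I) (I := fun r : Fin m => I (b r)) a
      (fun g => XX.measurePreserving_smul g) (fun r i => XX.eps r i)
      (fun r i => XX.measurable_eps r i) (fun g r i x => XX.smul_eps g r i x) h hc he H hH S
  · -- integrability
    obtain ⟨ρ, hρ⟩ := hF'.exists_norm_le
    choose L hLm hL1 hLp hLb using fun r => (hH r).mom ρ 0
    have hLmem : ∀ r (p : ℕ), MemLp (L r) p (XX.prob b I) := fun r p =>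
      ⟨(hLm r).aestronglyMeasurable, lt_top_iff_ne_top.2 (S19_memLp_of_pow (hLm r) (hLm r) (hL1 r)
        (hLp r) (fun x => (abs_of_nonneg (zero_le_one.trans (hL1 r x))).le) p)⟩
    have hLL : ∀ p : ℕ, Integrable (fun x => (∑ r, L r x) ^ p) (XX.prob b I) := by
      intro p
      have h1 : MemLp (fun x => ∑ r, L r x) p (XX.prob b I) := by
        have := memLp_finsetSum (μ := XX.prob b I) (p := (p : ENNReal)) (Finset.univ : Finset (Fin m))
          (f := fun r x => L r x) (fun r _ => hLmem r p)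
        exact this
      have h2 := h1.integrable_norm_pow'
      refine h2.congr (Eventually.of_forall fun x => ?_)
      have : 0 ≤ ∑ r, L r x := Finset.sum_nonneg fun r _ => zero_le_one.trans (hL1 r x)
      simp only [Real.norm_eq_abs, abs_of_nonneg this]
    have hvF : volume F ≠ ⊤ := hF'.measure_lt_top.ne
    have hfm : IsFiniteMeasure (volume.restrict F) := ⟨by
      rw [Measure.restrict_apply_univ]
      exact lt_top_iff_ne_top.2 hvF⟩
    have hint : ∀ g : Fin m → Fin m, Integrable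
        (fun p : XX b I × V (2 * m) => pf (fun r => matOf (H (g r)) p.1 p.2))
        ((XX.prob b I).prod (volume.restrict F)) := by
      intro g
      have hdom : Integrable (fun p : XX b I × V (2 * m) =>
          (2 * m).factorial * (∑ r, L r p.1) ^ m) ((XX.prob b I).prod (volume.restrict F)) :=
        ((hLL m).comp_fst _).const_mul _
      refine hdom.mono' ?_ ?_
      · refine Measurable.aestronglyMeasurable ?_
        have : ∀ p : XX b I × V (2 * m), pf (fun r => matOf (H (g r)) p.1 p.2) =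
            ∑ σ : Equiv.Perm (Fin (2 * m)), ((Equiv.Perm.sign σ : ℤ) : ℝ) * ∏ r : Fin m,
              H (g r) (σ ⟨2 * r, by omega⟩, σ ⟨2 * r + 1, by omega⟩) p.1 p.2 := fun p => rfl
        simp_rw [this]
        refine Finset.measurable_sum _ fun σ _ => Measurable.const_mul ?_ _
        exact Finset.measurable_prod _ fun r _ => hjm (g r) _
      · have hae : ∀ᵐ p ∂(XX.prob b I).prod (volume.restrict F), p.2 ∈ F := by
          have h1 : ∀ᵐ y ∂(volume.restrict F), y ∈ F := ae_restrict_mem hF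
          exact (Measure.quasiMeasurePreserving_snd (μ := XX.prob b I)
            (ν := volume.restrict F)).ae h1
        filter_upwards [hae] with p hp
        rw [Real.norm_eq_abs]
        refine abs_pf_le _ _ fun r i j => ?_
        have h1 := hLb (g r) (i, j) p.1 0 le_rfl p.2 (hρ p.2 hp)
        rw [norm_iteratedFDeriv_zero, Real.norm_eq_abs] at h1
        refine h1.trans ?_
        exact Finset.single_le_sum (f := fun r => L r p.1)
          (fun r _ => zero_le_one.trans (hL1 r p.1)) (Finset.mem_univ (g r))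
    set e : (Fin m → Fin m) → ℝ := fun g =>
      ∫ x, (∫ y in F, pf (fun r => matOf (H (g r)) x y)) ∂XX.prob b I with he'
    have h0' : ∀ S : Finset (Fin m), ∑ g ∈ Fintype.piFinset (fun _ : Fin m => S), e g = 0 := by
      intro S
      rw [← h0 S]
      have h1 : ∀ x y, pf (fun _ : Fin m => ∑ r ∈ S, matOf (H r) x y) =
          ∑ g ∈ Fintype.piFinset (fun _ : Fin m => S), pf (fun r => matOf (H (g r)) x y) :=
        fun x y => pf_sum S (fun r => matOf (H r) x y)
      simp_rw [h1]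
      have h3 := fun g => (hint g)
      have h4 : ∫ x, (∫ y in F, ∑ g ∈ Fintype.piFinset (fun _ : Fin m => S),
          pf (fun r => matOf (H (g r)) x y)) ∂XX.prob b I =
          ∫ p, ∑ g ∈ Fintype.piFinset (fun _ : Fin m => S),
            pf (fun r => matOf (H (g r)) p.1 p.2) ∂(XX.prob b I).prod (volume.restrict F) := by
        rw [integral_prod _ (integrable_finsetSum _ fun g _ => hint g)]
      rw [h4, integral_finsetSum _ fun g _ => hint g]
      refine Finset.sum_congr rfl fun g _ => ?_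
      rw [he']
      exact (integral_prod _ (hint g)).symm
    have hp : ∀ τ : Equiv.Perm (Fin m), e τ = e id := by
      intro τ
      rw [he']
      simp only [id]
      congr 1
      funext x
      congr 1
      funext y
      exact pf_perm τ (fun r => matOf (H r) x y)
    have h1 := moebius e h0' hp
    have h2 : ∫ y in F, ∫ x, pf (fun r => matOf (H r) x y) ∂XX.prob b I = 0 := by
      rw [← h1, he']
      exact (integral_integral_swap (hint id)).symm
    rw [← h2]
    refine integral_congr_ae (Eventually.of_forall fun y => ?_)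
    exact (hasSum_pf hb hI h hsq' H hH hHm y).tsum_eq

end Pool.Agent.Lib.MP_df705a_gt.RL
end
end

section

/-!
# RL2, file U3: smooth lifts of smooth maps to the rotation group (abstract normed ring)
-/

set_option linter.unusedSectionVars false

open scoped Matrix ContDiff Topology
open Metric

namespace Pool.Agent.Lib.MP_df705a_gt.RL

noncomputable section

variable {m : ℕ} {A : Type*} [NormedRing A] [NormedAlgebra ℂ A] [FiniteDimensional ℂ A]
  [StarRing A] [StarModule ℂ A] [ContinuousStar A] [Nontrivial A] [Algebra ℚ A]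
variable {t : A →ₗ[ℂ] ℂ} {c : Fin (2 * m) → A}
variable {E : Type*} [NormedAddCommGroup E] [NormedSpace ℝ E]

theorem contDiff_ofReal' {f : E → ℝ} (hf : ContDiff ℝ ∞ f) : ContDiff ℝ ∞ fun y => (f y : ℂ) :=
  Complex.ofRealCLM.contDiff.comp hf

theorem contDiff_cR {R : E → Mt (2 * m)} (hR : ∀ a b, ContDiff ℝ ∞ fun y => R y a b)
    (a : Fin (2 * m)) : ContDiff ℝ ∞ fun y => cR c (R y) a := by
  unfold cR
  exact ContDiff.sum fun b _ => (contDiff_ofReal' (hR b a)).smul contDiff_const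

/-- the average of `1` -/
def ua (c : Fin (2 * m) → A) (R : Mt (2 * m)) : A := avg ℝ (cR c R) c (List.finRange (2 * m)) 1

theorem contDiff_avg {R : E → Mt (2 * m)} (hR : ∀ a b, ContDiff ℝ ∞ fun y => R y a b)
    (l : List (Fin (2 * m))) (z : A) : ContDiff ℝ ∞ fun y => avg ℝ (cR c (R y)) c l z := by
  induction l with
  | nil => exact contDiff_const
  | cons b l ih =>
    have h1 : (fun y => avg ℝ (cR c (R y)) c (b :: l) z)
        = fun y => (2⁻¹ : ℝ) • (avg ℝ (cR c (R y)) c l z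
          - cR c (R y) b * avg ℝ (cR c (R y)) c l z * c b) := rfl
    rw [h1]
    exact (ih.sub (((contDiff_cR hR b).mul ih).mul contDiff_const)).const_smul (2⁻¹ : ℝ)

theorem contDiff_ua {R : E → Mt (2 * m)} (hR : ∀ a b, ContDiff ℝ ∞ fun y => R y a b) :
    ContDiff ℝ ∞ fun y => ua c (R y) := contDiff_avg hR _ _

theorem ua_one (hc : CEnv t c) : ua c (1 : Mt (2 * m)) = 1 := by
  unfold ua
  rw [cR_one]
  exact avg_eq_self hc.cl _ (fun a => by rw [mul_one, one_mul])

theorem ua_mem (hc : CEnv t c) (R : Mt (2 * m)) : ua c R ∈ ClAlg ℝ c :=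
  avg_mem (fun a => cR_mem hc.rc c R a) _ (one_mem_ClAlg ℝ c)

theorem ua_intertwine (hc : CEnv t c) {R : Mt (2 * m)} (hR : Rᵀ * R = 1) (a : Fin (2 * m)) :
    cR c R a * ua c R = ua c R * c a :=
  avg_intertwine (isCliff_cR hc.cl hR) hc.cl _ _ a (List.mem_finRange a)

/-- the square of its norm -/
def nu (t : A →ₗ[ℂ] ℂ) (c : Fin (2 * m) → A) (R : Mt (2 * m)) : ℝ :=
  (t (star (ua c R) * ua c R) / t 1).re

theorem contDiff_star' {f : E → A} (hf : ContDiff ℝ ∞ f) : ContDiff ℝ ∞ fun y => star (f y) :=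
  (starL' ℝ (A := A)).contDiff.comp hf

theorem contDiff_nu {R : E → Mt (2 * m)} (hR : ∀ a b, ContDiff ℝ ∞ fun y => R y a b) :
    ContDiff ℝ ∞ fun y => nu t c (R y) := by
  have h1 : ContDiff ℝ ∞ fun y => star (ua c (R y)) * ua c (R y) :=
    (contDiff_star' (contDiff_ua hR)).mul (contDiff_ua hR)
  have h2 : ContDiff ℝ ∞ fun y => t (star (ua c (R y)) * ua c (R y)) :=
    ((LinearMap.toContinuousLinearMap t).restrictScalars ℝ).contDiff.comp h1
  exact Complex.reCLM.contDiff.comp (h2.div_const _)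

theorem nu_spec (hc : CEnv t c) (ht1 : t 1 ≠ 0) {R : Mt (2 * m)} (hR : Rᵀ * R = 1) :
    star (ua c R) * ua c R = (nu t c R : ℂ) • (1 : A) := by
  obtain ⟨r, hr⟩ := hc.intertwiner_sq (ua_mem hc R) (ua_intertwine hc hR)
  have : nu t c R = r := by
    unfold nu
    rw [hr, map_smul, smul_eq_mul, mul_div_assoc, div_self ht1, mul_one, Complex.ofReal_re]
  rw [this, hr]

theorem nu_one (hc : CEnv t c) (ht1 : t 1 ≠ 0) : nu t c (1 : Mt (2 * m)) = 1 := by
  unfold nu
  rw [ua_one hc, star_one, mul_one, div_self ht1, Complex.one_re]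

/-- the normalised local lift near `1` -/
def uh (t : A →ₗ[ℂ] ℂ) (c : Fin (2 * m) → A) (R : Mt (2 * m)) : A :=
  (((√(nu t c R))⁻¹ : ℝ) : ℂ) • ua c R

theorem uh_lift (hc : CEnv t c) (ht1 : t 1 ≠ 0) {R : Mt (2 * m)} (hR : Rᵀ * R = 1)
    (hd : R.det = 1) (hn : 0 < nu t c R) : LiftA c R (uh t c R) :=
  hc.lift_of_intertwiner hR hd (ua_mem hc R) (ua_intertwine hc hR) (nu_spec hc ht1 hR) hn

theorem uh_smooth {R : E → Mt (2 * m)} (hR : ∀ a b, ContDiff ℝ ∞ fun y => R y a b) {y : E}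
    (hn : 0 < nu t c (R y)) : ContDiffAt ℝ ∞ (fun y => uh t c (R y)) y := by
  unfold uh
  have h1 : ContDiffAt ℝ ∞ (fun y => √(nu t c (R y))) y :=
    (contDiff_nu hR).contDiffAt.sqrt hn.ne'
  have h2 : ContDiffAt ℝ ∞ (fun y => (√(nu t c (R y)))⁻¹) y :=
    h1.inv (Real.sqrt_pos.mpr hn).ne'
  exact (Complex.ofRealCLM.contDiff.contDiffAt.comp y h2).smul (contDiff_ua hR).contDiffAt

/-- `nu` is positive near `1` -/
theorem exists_delta (hc : CEnv t c) (ht1 : t 1 ≠ 0) : ∃ δ > 0, ∀ R : Mt (2 * m),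
    (∀ a b, |R a b - (1 : Mt (2 * m)) a b| < δ) → 0 < nu t c R := by
  have h1 : ContDiff ℝ ∞ fun X : Fin (2 * m) → Fin (2 * m) → ℝ => nu t c (Matrix.of X) :=
    contDiff_nu (R := fun X : Fin (2 * m) → Fin (2 * m) → ℝ => Matrix.of X)
      fun a b => (contDiff_apply ℝ ℝ b).comp (contDiff_apply ℝ (Fin (2 * m) → ℝ) a)
  have h2 : ∀ᶠ X in 𝓝 (fun a b => (1 : Mt (2 * m)) a b), 0 < nu t c (Matrix.of X) := by
    refine h1.continuous.continuousAt.eventually_mem (Ioi_mem_nhds ?_)
    have : Matrix.of (fun a b => (1 : Mt (2 * m)) a b) = 1 := rfl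
    rw [this, nu_one hc ht1]; exact one_pos
  obtain ⟨δ, hδ, h3⟩ := Metric.eventually_nhds_iff.mp h2
  refine ⟨δ, hδ, fun R hR => ?_⟩
  have h4 : dist (fun a b => R a b) (fun a b => (1 : Mt (2 * m)) a b) < δ := by
    rw [dist_pi_lt_iff hδ]
    intro a
    rw [dist_pi_lt_iff hδ]
    intro b
    rw [Real.dist_eq]; exact hR a b
  exact h3 h4

/-- A rotation valued smooth map. -/
structure IsRot (R : E → Mt (2 * m)) : Prop where
  smooth : ∀ a b, ContDiff ℝ ∞ fun y => R y a b
  orth : ∀ y, (R y)ᵀ * R y = 1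
  det : ∀ y, (R y).det = 1

theorem IsRot.orth' {R : E → Mt (2 * m)} (h : IsRot R) (y : E) : R y * (R y)ᵀ = 1 :=
  mul_eq_one_comm.mp (h.orth y)

/-- smooth lifts on balls -/
theorem lift_on_ball [FiniteDimensional ℝ E] (hc : CEnv t c) (ht1 : t 1 ≠ 0)
    {R : E → Mt (2 * m)} (hR : IsRot R) (r : ℝ) :
    ∃ U : E → A, ∀ y ∈ ball (0 : E) r, LiftA c (R y) (U y) ∧ ContDiffAt ℝ ∞ U y := by
  obtain ⟨δ, hδ, hnu⟩ := exists_delta (m := m) hc ht1
  -- uniform continuity of the entries on the closed ball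
  have hcomp : IsCompact (closedBall (0 : E) r) := by
    have := FiniteDimensional.proper_real E
    exact isCompact_closedBall _ _
  set δ' := δ / (2 * m + 1) with hδ'
  have hδ'0 : 0 < δ' := by positivity
  have huc : ∃ ε > 0, ∀ x ∈ closedBall (0 : E) r, ∀ y ∈ closedBall (0 : E) r, dist x y < ε →
      ∀ a b, |R x a b - R y a b| < δ' := by
    have h1 : ContinuousOn (fun y => fun p : Fin (2 * m) × Fin (2 * m) => R y p.1 p.2)
        (closedBall (0 : E) r) :=
      (continuous_pi fun p : Fin (2 * m) × Fin (2 * m) =>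
        (hR.smooth p.1 p.2).continuous).continuousOn
    have h2 := hcomp.uniformContinuousOn_of_continuous h1
    rw [Metric.uniformContinuousOn_iff] at h2
    obtain ⟨ε, hε, h3⟩ := h2 δ' hδ'0
    refine ⟨ε, hε, fun x hx y hy hxy a b => ?_⟩
    have h4 := h3 x hx y hy hxy
    rw [dist_pi_lt_iff hδ'0] at h4
    have := h4 (a, b)
    rwa [Real.dist_eq] at this
  obtain ⟨ε, hε, huc⟩ := huc
  obtain ⟨M, hM⟩ := exists_nat_gt (|r| / ε)
  have hM0 : (0 : ℝ) < (M : ℝ) := lt_of_le_of_lt (by positivity) hM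
  have hentry : ∀ (Q : Mt (2 * m)), Qᵀ * Q = 1 → ∀ a b, |Q a b| ≤ 1 := by
    intro Q hQ a b
    have h1 := congrFun (congrFun hQ b) b
    rw [Matrix.mul_apply, Matrix.one_apply_eq] at h1
    have h2 : Q a b * Q a b ≤ ∑ j, Qᵀ b j * Q j b :=
      Finset.single_le_sum (f := fun j => Qᵀ b j * Q j b)
        (fun j _ => mul_self_nonneg (Q j b)) (Finset.mem_univ a)
    rw [h1] at h2
    rw [abs_le_one_iff_mul_self_le_one]; exact h2
  have key : ∀ k : ℕ, k ≤ M → ∃ U : E → A, ∀ y ∈ ball (0 : E) r,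
      LiftA c (R (((k : ℝ) / M) • y)) (U y) ∧ ContDiffAt ℝ ∞ U y := by
    intro k
    induction k with
    | zero =>
      intro _
      obtain ⟨u, hu⟩ := hc.exists_lift (hR.orth 0) (hR.det 0)
      refine ⟨fun _ => u, fun y _ => ⟨?_, contDiffAt_const⟩⟩
      simpa using hu
    | succ k ih =>
      intro hk
      obtain ⟨U, hU⟩ := ih (by omega)
      set Q : E → Mt (2 * m) := fun y =>
        R ((((k + 1 : ℕ) : ℝ) / M) • y) * (R (((k : ℝ) / M) • y))ᵀ with hQ
      have hQs : ∀ a b, ContDiff ℝ ∞ fun y => Q y a b := by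
        intro a b
        simp only [hQ, Matrix.mul_apply, Matrix.transpose_apply]
        refine ContDiff.sum fun j _ => ?_
        exact ((hR.smooth a j).comp (contDiff_id.const_smul _)).mul
          ((hR.smooth b j).comp (contDiff_id.const_smul _))
      have hQo : ∀ y, (Q y)ᵀ * Q y = 1 := by
        intro y
        simp only [hQ, Matrix.transpose_mul, Matrix.transpose_transpose]
        rw [mul_assoc, ← mul_assoc (R ((((k + 1 : ℕ) : ℝ) / M) • y))ᵀ, hR.orth, one_mul, hR.orth']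
      have hQd : ∀ y, (Q y).det = 1 := by
        intro y
        simp only [hQ, Matrix.det_mul, Matrix.det_transpose, hR.det, mul_one]
      have hQn : ∀ y ∈ ball (0 : E) r, 0 < nu t c (Q y) := by
        intro y hy
        apply hnu
        intro a b
        have hyr : ‖y‖ < r := by simpa using hy
        have hr : 0 < r := (norm_nonneg y).trans_lt hyr
        have e1 : Q y a b - (1 : Mt (2 * m)) a b = ∑ j,
            (R ((((k + 1 : ℕ) : ℝ) / M) • y) a j - R (((k : ℝ) / M) • y) a j)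
              * R (((k : ℝ) / M) • y) b j := by
          rw [← hR.orth' (((k : ℝ) / M) • y)]
          simp only [hQ, Matrix.mul_apply, Matrix.transpose_apply]
          rw [← Finset.sum_sub_distrib]
          exact Finset.sum_congr rfl fun j _ => by ring
        rw [e1]
        have hk1 : ((k + 1 : ℕ) : ℝ) ≤ M := by exact_mod_cast hk
        have hmem : ∀ s : ℝ, 0 ≤ s → s ≤ 1 → s • y ∈ closedBall (0 : E) r := by
          intro s h0 h1
          rw [mem_closedBall_zero_iff, norm_smul, Real.norm_eq_abs, abs_of_nonneg h0]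
          nlinarith [norm_nonneg y]
        have hd : dist ((((k + 1 : ℕ) : ℝ) / M) • y) (((k : ℝ) / M) • y) < ε := by
          rw [dist_eq_norm, ← sub_smul, norm_smul]
          have : (((k + 1 : ℕ) : ℝ) / M) - ((k : ℝ) / M) = 1 / M := by push_cast; ring
          rw [this, Real.norm_eq_abs, abs_of_pos (by positivity), one_div, ← div_eq_inv_mul,
            div_lt_iff₀ hM0]
          have h5 : |r| < M * ε := by rwa [div_lt_iff₀ hε] at hM
          have h6 : ‖y‖ < |r| := hyr.trans_le (le_abs_self r)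
          linarith [mul_comm (M : ℝ) ε]
        have h2 := huc _ (hmem _ (by positivity) (by rw [div_le_one hM0]; exact hk1)) _
          (hmem _ (by positivity) (by rw [div_le_one hM0]; push_cast at hk1; linarith)) hd a
        calc |∑ j, (R ((((k + 1 : ℕ) : ℝ) / M) • y) a j - R (((k : ℝ) / M) • y) a j)
              * R (((k : ℝ) / M) • y) b j|
            ≤ ∑ j, |(R ((((k + 1 : ℕ) : ℝ) / M) • y) a j - R (((k : ℝ) / M) • y) a j)
              * R (((k : ℝ) / M) • y) b j| := Finset.abs_sum_le_sum_abs _ _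
          _ ≤ ∑ _j : Fin (2 * m), δ' * 1 := by
              refine Finset.sum_le_sum fun j _ => ?_
              rw [abs_mul]
              exact mul_le_mul (h2 j).le (hentry _ (hR.orth _) b j) (abs_nonneg _) hδ'0.le
          _ = 2 * m * δ' := by simp
          _ < δ := by
              rw [hδ', mul_div_assoc', div_lt_iff₀ (by positivity)]
              nlinarith
      refine ⟨fun y => uh t c (Q y) * U y, fun y hy => ⟨?_, ?_⟩⟩
      · have h1 := (uh_lift hc ht1 (hQo y) (hQd y) (hQn y hy)).mul (hU y hy).1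
        have h2 : Q y * R (((k : ℝ) / M) • y) = R ((((k + 1 : ℕ) : ℝ) / M) • y) := by
          simp only [hQ]
          rw [mul_assoc, hR.orth, mul_one]
        rwa [h2] at h1
      · exact (uh_smooth hQs (hQn y hy)).mul (hU y hy).2
  obtain ⟨U, hU⟩ := key M le_rfl
  refine ⟨U, fun y hy => ?_⟩
  have := hU y hy
  rwa [div_self hM0.ne', one_smul] at this

theorem LiftA.ne_zero {R : Mt (2 * m)} {u : A} (h : LiftA c R u) : u ≠ 0 := by
  rintro rfl
  have := h.isom
  rw [mul_zero] at this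
  exact zero_ne_one this

/-- two continuous lifts on a ball which agree at `0` agree -/
theorem lift_unique_ball (hc : CEnv t c) {R : E → Mt (2 * m)} {r : ℝ} (hr : 0 < r) {U U' : E → A}
    (hU : ∀ y ∈ ball (0 : E) r, LiftA c (R y) (U y)) (hUc : ContinuousOn U (ball (0 : E) r))
    (hU' : ∀ y ∈ ball (0 : E) r, LiftA c (R y) (U' y)) (hUc' : ContinuousOn U' (ball (0 : E) r))
    (h0 : U 0 = U' 0) : ∀ y ∈ ball (0 : E) r, U y = U' y := by
  intro y hy
  rcases (hU y hy).unique hc (hU' y hy) with h1 | h1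
  · exact h1
  · exfalso
    set ψ : E → ℝ := fun z => ‖U z - U' z‖ - ‖U z + U' z‖ with hψ
    have hcont : ContinuousOn ψ (ball (0 : E) r) :=
      (hUc.sub hUc').norm.sub (hUc.add hUc').norm
    have hmem0 : (0 : E) ∈ ball (0 : E) r := mem_ball_self hr
    have e0 : ψ 0 < 0 := by
      simp only [hψ]
      rw [h0, sub_self, norm_zero, zero_sub, neg_lt_zero, norm_pos_iff, ← two_smul ℝ]
      exact smul_ne_zero two_ne_zero (hU' 0 hmem0).ne_zero
    have e1 : 0 < ψ y := by
      simp only [hψ]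
      rw [h1, neg_add_cancel, norm_zero, sub_zero, norm_pos_iff, ← neg_add', neg_ne_zero,
        ← two_smul ℝ]
      exact smul_ne_zero two_ne_zero (hU' y hy).ne_zero
    have hpre : IsPreconnected (ball (0 : E) r) := (convex_ball _ _).isPreconnected
    obtain ⟨z, hz, hz'⟩ := hpre.intermediate_value hmem0 hy hcont ⟨e0.le, e1.le⟩
    simp only [hψ] at hz'
    rcases (hU z hz).unique hc (hU' z hz) with h2 | h2
    · rw [h2, sub_self, norm_zero, zero_sub, neg_eq_zero, norm_eq_zero, ← two_smul ℝ] at hz'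
      exact (smul_ne_zero two_ne_zero (hU' z hz).ne_zero) hz'
    · rw [h2, neg_add_cancel, norm_zero, sub_zero, norm_eq_zero, ← neg_add', neg_eq_zero,
        ← two_smul ℝ] at hz'
      exact (smul_ne_zero two_ne_zero (hU' z hz).ne_zero) hz'

/-- SPIN LIFT: every smooth map to the rotation group has a smooth lift. -/
theorem exists_smooth_lift [FiniteDimensional ℝ E] (hc : CEnv t c) (ht1 : t 1 ≠ 0)
    {R : E → Mt (2 * m)} (hR : IsRot R) :
    ∃ U : E → A, ContDiff ℝ ∞ U ∧ ∀ y, LiftA c (R y) (U y) := by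
  obtain ⟨u, hu⟩ := hc.exists_lift (hR.orth 0) (hR.det 0)
  have h1 : ∀ n : ℕ, ∃ U : E → A, U 0 = u ∧ ∀ y ∈ ball (0 : E) (n + 1),
      LiftA c (R y) (U y) ∧ ContDiffAt ℝ ∞ U y := by
    intro n
    obtain ⟨U, hU⟩ := lift_on_ball hc ht1 hR (n + 1)
    have h0 : (0 : E) ∈ ball (0 : E) (n + 1) := mem_ball_self (by positivity)
    rcases (hU 0 h0).1.unique hc hu with h2 | h2
    · exact ⟨U, h2, hU⟩
    · refine ⟨fun y => -U y, by simp [h2], fun y hy => ⟨(hU y hy).1.neg, (hU y hy).2.neg⟩⟩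
  choose U hU0 hU using h1
  have hle : ∀ n k : ℕ, n ≤ k → ∀ y ∈ ball (0 : E) (n + 1), U n y = U k y := by
    intro n k hnk
    have hsub : ball (0 : E) ((n : ℝ) + 1) ⊆ ball (0 : E) (k + 1) :=
      ball_subset_ball (by have : (n : ℝ) ≤ k := by exact_mod_cast hnk
                           linarith)
    exact lift_unique_ball hc (by positivity) (fun y hy => (hU n y hy).1)
      (fun y hy => (hU n y hy).2.continuousAt.continuousWithinAt)
      (fun y hy => (hU k y (hsub hy)).1)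
      (fun y hy => (hU k y (hsub hy)).2.continuousAt.continuousWithinAt)
      (by rw [hU0, hU0])
  have hfl : ∀ y : E, y ∈ ball (0 : E) ((⌊‖y‖⌋₊ : ℕ) + 1) := fun y => by
    rw [mem_ball_zero_iff]; exact Nat.lt_floor_add_one _
  have hagree : ∀ n : ℕ, ∀ y ∈ ball (0 : E) (n + 1), U ⌊‖y‖⌋₊ y = U n y := by
    intro n y hy
    rcases le_total ⌊‖y‖⌋₊ n with h2 | h2
    · exact hle _ _ h2 y (hfl y)
    · exact (hle _ _ h2 y hy).symm
  refine ⟨fun y => U ⌊‖y‖⌋₊ y, ?_, fun y => (hU _ y (hfl y)).1⟩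
  rw [contDiff_iff_contDiffAt]
  intro y
  refine (hU ⌊‖y‖⌋₊ y (hfl y)).2.congr_of_eventuallyEq ?_
  filter_upwards [isOpen_ball.mem_nhds (hfl y)] with z hz
  exact hagree _ z hz

end

end Pool.Agent.Lib.MP_df705a_gt.RL
end

section

/-!
# RL2, file U4: the derivative of a lift (abstract normed ring)
-/

set_option linter.unusedSectionVars false

open scoped Matrix ContDiff Topology
open Metric

namespace Pool.Agent.Lib.MP_df705a_gt.RL

noncomputable section

section line

variable {E F : Type*} [NormedAddCommGroup E] [NormedSpace ℝ E] [NormedAddCommGroup F]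
  [NormedSpace ℝ F]

/-- the derivative along a line -/
theorem hasDerivAt_line {f : E → F} {y : E} (hf : DifferentiableAt ℝ f y) (v : E) :
    HasDerivAt (fun s : ℝ => f (y + s • v)) (fderiv ℝ f y v) 0 := by
  have h1 : HasDerivAt (fun s : ℝ => y + s • v) v 0 := by
    simpa using ((hasDerivAt_id (0 : ℝ)).smul_const v).const_add y
  have h2 : HasFDerivAt f (fderiv ℝ f y) (y + (0 : ℝ) • v) := by
    rw [zero_smul, add_zero]; exact hf.hasFDerivAt
  exact h2.comp_hasDerivAt (0 : ℝ) h1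

theorem hasDerivAt_mem {S : Submodule ℝ F} (hS : IsClosed (S : Set F)) {f : ℝ → F} {f' : F} {x : ℝ}
    (h : HasDerivAt f f' x) (hf : ∀ s, f s ∈ S) : f' ∈ S := by
  have h1 := hasDerivAt_iff_tendsto_slope.mp h
  have h2 : ∀ s, slope f x s ∈ (S : Set F) := fun s => by
    rw [slope_def_module]
    exact S.smul_mem _ (S.sub_mem (hf _) (hf _))
  exact hS.mem_of_tendsto h1 (Filter.Eventually.of_forall h2)

theorem fderiv_mem {S : Submodule ℝ F} (hS : IsClosed (S : Set F)) {f : E → F} {y : E}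
    (hf : DifferentiableAt ℝ f y) (h : ∀ z, f z ∈ S) (v : E) : fderiv ℝ f y v ∈ S :=
  hasDerivAt_mem hS (hasDerivAt_line hf v) fun _ => h _

end line

variable {m : ℕ} {A : Type*} [NormedRing A] [NormedAlgebra ℂ A] [FiniteDimensional ℂ A]
  [StarRing A] [StarModule ℂ A] [ContinuousStar A] [Nontrivial A] [Algebra ℚ A]
variable {t : A →ₗ[ℂ] ℂ} {c : Fin (2 * m) → A}
variable {E : Type*} [NormedAddCommGroup E] [NormedSpace ℝ E]

/-- the derivative of a matrix valued function -/
def duM (R : E → Mt (2 * m)) (y v : E) : Mt (2 * m) :=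
  Matrix.of fun a b => fderiv ℝ (fun y => R y a b) y v

theorem duM_line {R : E → Mt (2 * m)} (hR : ∀ a b, ContDiff ℝ ∞ fun y => R y a b) (y v : E)
    (a b : Fin (2 * m)) : HasDerivAt (fun s : ℝ => R (y + s • v) a b) (duM R y v a b) 0 :=
  hasDerivAt_line (f := fun y => R y a b)
    ((hR a b).differentiable (by simp)).differentiableAt v

/-- `Rᵀ dR` is antisymmetric -/
theorem duM_anti {R : E → Mt (2 * m)} (hR : IsRot R) (y v : E) (a b : Fin (2 * m)) :
    ((R y)ᵀ * duM R y v) b a = -((R y)ᵀ * duM R y v) a b := by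
  have h1 : HasDerivAt (fun s : ℝ => ∑ j, R (y + s • v) j a * R (y + s • v) j b)
      (∑ j, (duM R y v j a * R (y + (0 : ℝ) • v) j b + R (y + (0 : ℝ) • v) j a * duM R y v j b)) 0 :=
    HasDerivAt.fun_sum fun j _ => (duM_line hR.smooth y v j a).mul (duM_line hR.smooth y v j b)
  have h2 : (fun s : ℝ => ∑ j, R (y + s • v) j a * R (y + s • v) j b)
      = fun _ => (1 : Mt (2 * m)) a b := by
    funext s
    rw [← hR.orth (y + s • v), Matrix.mul_apply]; rfl
  rw [h2] at h1
  have h3 := h1.unique (hasDerivAt_const (0 : ℝ) _)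
  simp only [zero_smul, add_zero] at h3
  rw [Matrix.mul_apply, Matrix.mul_apply, ← Finset.sum_neg_distrib]
  rw [Finset.sum_add_distrib] at h3
  have h4 : ∑ j, (R y)ᵀ b j * duM R y v j a = ∑ j, duM R y v j a * R y j b :=
    Finset.sum_congr rfl fun j _ => by rw [Matrix.transpose_apply, mul_comm]
  rw [h4, eq_neg_of_add_eq_zero_left h3, ← Finset.sum_neg_distrib]
  rfl

/-- THE DERIVATIVE OF A LIFT: `U⁻¹ dU = spin (Rᵀ dR)` -/
theorem lift_deriv (hc : CEnv t c) {R : E → Mt (2 * m)} (hR : IsRot R) {U : E → A}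
    (hU : ContDiff ℝ ∞ U) (hL : ∀ y, LiftA c (R y) (U y)) (y v : E) :
    star (U y) * fderiv ℝ U y v = spinA c ((R y)ᵀ * duM R y v) := by
  have hUd : DifferentiableAt ℝ U y := (hU.differentiable (by simp)).differentiableAt
  have hUl := hasDerivAt_line hUd v
  have hSl : HasDerivAt (fun s : ℝ => star (U (y + s • v))) (star (fderiv ℝ U y v)) 0 :=
    ((starL' ℝ (A := A)).toContinuousLinearMap.hasFDerivAt.comp_hasDerivAt (0 : ℝ) hUl)
  have hfin : FiniteDimensional ℝ A := FiniteDimensional.complexToReal A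
  have hclosed : IsClosed (ClAlg ℝ c : Set A) := Submodule.closed_of_finiteDimensional _
  refine hc.eq_spinA ?_ ?_ (fun a b => duM_anti hR y v a b) fun a => ?_
  · exact mul_mem_ClAlg (hc.star_mem (hL y).re)
      (fderiv_mem hclosed hUd (fun z => (hL z).re) v)
  · -- skew
    have h1 := hSl.fun_mul hUl
    have h2 : (fun s : ℝ => star (U (y + s • v)) * U (y + s • v)) = fun _ => 1 :=
      funext fun s => (hL _).isom
    rw [h2] at h1
    have h3 := h1.unique (hasDerivAt_const (0 : ℝ) _)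
    simp only [zero_smul, add_zero] at h3
    rw [star_mul, star_star]
    exact eq_neg_of_add_eq_zero_left h3
  · -- the commutator
    have h1 : HasDerivAt (fun s : ℝ => U (y + s • v) * c a) (fderiv ℝ U y v * c a) 0 :=
      hUl.mul_const (c a)
    have h2 : HasDerivAt (fun s : ℝ => cR c (R (y + s • v)) a) (cR c (duM R y v) a) 0 := by
      unfold cR
      refine HasDerivAt.fun_sum fun b _ => ?_
      exact ((duM_line hR.smooth y v b a).ofReal_comp).smul_const (c b)
    have h3 := h2.mul hUl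
    have h4 : (fun s : ℝ => U (y + s • v) * c a)
        = fun s : ℝ => cR c (R (y + s • v)) a * U (y + s • v) := funext fun s => (hL _).tw a
    rw [h4] at h1
    have h5 := h1.unique h3
    simp only [zero_smul, add_zero] at h5
    have h6 : star (U y) * cR c (R y) a = c a * star (U y) :=
      (star_intertwine hc.st (star_cR hc.st (R y)) (hL y).tw' a).symm
    have h7 : star (U y) * fderiv ℝ U y v * c a - c a * (star (U y) * fderiv ℝ U y v)
        = star (U y) * cR c (duM R y v) a * U y := by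
      rw [mul_assoc, h5, mul_add, ← mul_assoc, ← mul_assoc, h6, ← mul_assoc]; abel
    rw [h7]
    have h8 : ∀ b, star (U y) * c b * U y = ∑ d, (R y b d : ℂ) • c d := by
      intro b
      conv_lhs => rw [c_eq_sum_cR c (hR.orth y) b]
      rw [Finset.mul_sum, Finset.sum_mul]
      refine Finset.sum_congr rfl fun d _ => ?_
      rw [mul_smul_comm, smul_mul_assoc, mul_assoc, (hL y).tw' d, ← mul_assoc, (hL y).isom, one_mul]
    have h9 : star (U y) * cR c (duM R y v) a * U y
        = ∑ b, (duM R y v b a : ℂ) • ∑ d, (R y b d : ℂ) • c d := by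
      unfold cR
      rw [Finset.mul_sum, Finset.sum_mul]
      refine Finset.sum_congr rfl fun b _ => ?_
      rw [mul_smul_comm, smul_mul_assoc, h8]
    rw [h9]
    simp only [Finset.smul_sum, smul_smul]
    rw [Finset.sum_comm]
    refine Finset.sum_congr rfl fun d _ => ?_
    rw [← Finset.sum_smul, Matrix.mul_apply]
    congr 1
    push_cast
    exact Finset.sum_congr rfl fun b _ => by rw [Matrix.transpose_apply]; ring

/-- the derivative of the inverse of a lift -/
theorem lift_deriv_star (hc : CEnv t c) {R : E → Mt (2 * m)} (hR : IsRot R) {U : E → A}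
    (hU : ContDiff ℝ ∞ U) (hL : ∀ y, LiftA c (R y) (U y)) (y v : E) :
    fderiv ℝ (fun y => star (U y)) y v = -(spinA c ((R y)ᵀ * duM R y v) * star (U y)) := by
  have hUd : DifferentiableAt ℝ U y := (hU.differentiable (by simp)).differentiableAt
  have hUl := hasDerivAt_line hUd v
  have hSl : HasDerivAt (fun s : ℝ => star (U (y + s • v))) (star (fderiv ℝ U y v)) 0 :=
    ((starL' ℝ (A := A)).toContinuousLinearMap.hasFDerivAt.comp_hasDerivAt (0 : ℝ) hUl)
  have h1 := hSl.fun_mul hUl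
  have h2 : (fun s : ℝ => star (U (y + s • v)) * U (y + s • v)) = fun _ => 1 :=
    funext fun s => (hL _).isom
  rw [h2] at h1
  have h3 := h1.unique (hasDerivAt_const (0 : ℝ) _)
  simp only [zero_smul, add_zero] at h3
  have h4 : star (fderiv ℝ U y v) * U y = -spinA c ((R y)ᵀ * duM R y v) := by
    rw [← lift_deriv hc hR hU hL]; exact eq_neg_of_add_eq_zero_left h3
  have h5 : fderiv ℝ (fun y => star (U y)) y v = star (fderiv ℝ U y v) := by
    have h6 : DifferentiableAt ℝ (fun y => star (U y)) y :=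
      (starL' ℝ (A := A)).toContinuousLinearMap.differentiableAt.comp y hUd
    exact (hasDerivAt_line h6 v).unique hSl
  rw [h5]
  calc star (fderiv ℝ U y v) = star (fderiv ℝ U y v) * U y * star (U y) := by
        rw [mul_assoc, (hL y).isom', mul_one]
    _ = _ := by rw [h4, neg_mul]

end

end Pool.Agent.Lib.MP_df705a_gt.RL
end

section

/-!
# RL2, file U5: transport of the Dirac operator (abstract spinor space)
-/

set_option linter.unusedSectionVars false

open scoped Matrix ContDiff Topology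
open Metric

namespace Pool.Agent.Lib.MP_df705a_gt.RL

noncomputable section

variable {N m : ℕ} {S : Type*} [NormedAddCommGroup S] [InnerProductSpace ℂ S] [CompleteSpace S]

/-- the covariant derivative (abstract version of `Cliff.nab`) -/
def nabS (c : Fin N → S →L[ℂ] S) (Γ : Fin N → V N → Mt N) (B : Pot N) (μ : Fin N) (φ : V N → S)
    (y : V N) : S :=
  pd μ φ y + (spinA c (Γ μ y) + (Complex.I * (B μ y : ℂ)) • (1 : S →L[ℂ] S)) (φ y)

/-- the Dirac operator (abstract version of `Cliff.dirac`) -/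
def diracS (c : Fin N → S →L[ℂ] S) (e : V N → Mt N) (Γ : Fin N → V N → Mt N) (B : Pot N)
    (φ : V N → S) (y : V N) : S :=
  ∑ a, c a (∑ μ, (e y μ a : ℂ) • nabS c Γ B μ φ y)

/-- the algebra of the transport -/
theorem transport_alg {c : Fin N → S →L[ℂ] S} {R J e e' : Mt N} (hR : Rᵀ * R = 1)
    (hJ : J * e' = e * R) {u : S →L[ℂ] S} (hu : ∀ a, c a * star u = star u * cR c R a)
    (ε : ℂ) (n : Fin N → S) :
    ∑ a, c a (∑ μ, (e' μ a : ℂ) • (ε • (star u) (∑ ν, (J ν μ : ℂ) • n ν)))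
      = ε • (star u) (∑ b, c b (∑ ν, (e ν b : ℂ) • n ν)) := by
  have h1 : ∀ a, (∑ μ, (e' μ a : ℂ) • (ε • (star u) (∑ ν, (J ν μ : ℂ) • n ν)))
      = ε • (star u) (∑ b, (R b a : ℂ) • ∑ ν, (e ν b : ℂ) • n ν) := by
    intro a
    have e1 : (∑ μ, (e' μ a : ℂ) • (ε • (star u) (∑ ν, (J ν μ : ℂ) • n ν)))
        = ε • (star u) (∑ μ, (e' μ a : ℂ) • ∑ ν, (J ν μ : ℂ) • n ν) := by
      rw [map_sum, Finset.smul_sum]
      refine Finset.sum_congr rfl fun μ _ => ?_
      rw [map_smul, smul_comm]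
    rw [e1]
    congr 2
    have e2 : ∀ ν, (∑ μ, (J ν μ : ℂ) * (e' μ a : ℂ)) = ∑ b, (e ν b : ℂ) * (R b a : ℂ) := by
      intro ν
      have h := congrFun (congrFun hJ ν) a
      rw [Matrix.mul_apply, Matrix.mul_apply] at h
      have h' := congrArg (fun x : ℝ => (x : ℂ)) h
      simpa only [Complex.ofReal_sum, Complex.ofReal_mul] using h'
    calc (∑ μ, (e' μ a : ℂ) • ∑ ν, (J ν μ : ℂ) • n ν)
        = ∑ ν, (∑ μ, (J ν μ : ℂ) * (e' μ a : ℂ)) • n ν := by
          simp only [Finset.smul_sum, smul_smul, Finset.sum_smul]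
          rw [Finset.sum_comm]
          exact Finset.sum_congr rfl fun ν _ => Finset.sum_congr rfl fun μ _ => by rw [mul_comm]
      _ = ∑ ν, (∑ b, (e ν b : ℂ) * (R b a : ℂ)) • n ν := by simp only [e2]
      _ = _ := by
          simp only [Finset.smul_sum, smul_smul, Finset.sum_smul]
          rw [Finset.sum_comm]
          exact Finset.sum_congr rfl fun ν _ => Finset.sum_congr rfl fun μ _ => by rw [mul_comm]
  rw [Finset.sum_congr rfl fun a _ => congrArg (c a) (h1 a)]
  obtain ⟨nE, hnE⟩ : ∃ nE : Fin N → S, nE = fun b => ∑ ν, (e ν b : ℂ) • n ν := ⟨_, rfl⟩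
  have hnE' : ∀ b, (∑ ν, (e ν b : ℂ) • n ν) = nE b := fun b => by rw [hnE]
  simp only [hnE']
  have h2 : ∀ a, c a (ε • (star u) (∑ b, (R b a : ℂ) • nE b))
      = ε • (star u) (∑ b, (R b a : ℂ) • cR c R a (nE b)) := by
    intro a
    rw [map_smul]
    congr 1
    have e3 : c a ((star u) (∑ b, (R b a : ℂ) • nE b))
        = (star u) (cR c R a (∑ b, (R b a : ℂ) • nE b)) := by
      have := congrArg (fun T : S →L[ℂ] S => T (∑ b, (R b a : ℂ) • nE b)) (hu a)
      exact this
    rw [e3]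
    congr 1
    rw [map_sum (cR c R a)]
    exact Finset.sum_congr rfl fun b _ => (cR c R a).map_smul _ _
  rw [Finset.sum_congr rfl fun a _ => h2 a, ← Finset.smul_sum, ← map_sum]
  congr 2
  rw [Finset.sum_comm]
  refine Finset.sum_congr rfl fun b _ => ?_
  conv_rhs => rw [c_eq_sum_cR c hR b]
  rw [sum_apply]
  exact Finset.sum_congr rfl fun a _ => rfl

theorem hasDerivAt_capply {W : ℝ → S →L[ℂ] S} {W' : S →L[ℂ] S} {u : ℝ → S} {u' : S} {x : ℝ}
    (hW : HasDerivAt W W' x) (hu : HasDerivAt u u' x) :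
    HasDerivAt (fun s => W s (u s)) (W' (u x) + W x u') x := by
  have h1 : HasDerivAt (fun s => (W s).restrictScalars ℝ) (W'.restrictScalars ℝ) x :=
    ((ContinuousLinearMap.restrictScalarsL ℂ S S ℝ ℝ).hasFDerivAt.comp_hasDerivAt x hW)
  exact h1.clm_apply hu

theorem jac_spec {Φ : V N → V N} (y : V N) (μ : Fin N) :
    fderiv ℝ Φ y (bv μ) = ∑ ν, jac Φ y ν μ • (bv ν : V N) := by
  ext i
  simp only [jac, Matrix.of_apply, bv]
  rw [WithLp.ofLp_sum, Finset.sum_apply, Finset.sum_eq_single i]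
  · simp
  · intro b _ hb
    simp [hb]
  · intro h; exact absurd (Finset.mem_univ _) h

theorem pd_comp {F : Type*} [NormedAddCommGroup F] [NormedSpace ℝ F] {Φ : V N → V N}
    (hΦ : Differentiable ℝ Φ) {ψ : V N → F} (hψ : Differentiable ℝ ψ) (μ : Fin N) (y : V N) :
    pd μ (fun y => ψ (Φ y)) y = ∑ ν, jac Φ y ν μ • pd ν ψ (Φ y) := by
  unfold pd
  have h1 : fderiv ℝ (fun y => ψ (Φ y)) y = (fderiv ℝ ψ (Φ y)).comp (fderiv ℝ Φ y) :=
    fderiv_comp y (hψ (Φ y)) (hΦ y)
  rw [h1, ContinuousLinearMap.comp_apply, jac_spec, map_sum]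
  simp only [map_smul]

variable [FiniteDimensional ℂ S] [Nontrivial S] [Algebra ℚ (S →L[ℂ] S)]
variable {t : (S →L[ℂ] S) →ₗ[ℂ] ℂ} {c : Fin (2 * m) → S →L[ℂ] S}

/-- the transport of the covariant derivative -/
theorem nabS_transport (hc : CEnv t c) {Φ : V (2 * m) → V (2 * m)} (hΦ : ContDiff ℝ ∞ Φ)
    {R : V (2 * m) → Mt (2 * m)} (hR : IsRot R) {U : V (2 * m) → S →L[ℂ] S}
    (hU : ContDiff ℝ ∞ U) (hL : ∀ y, LiftA c (R y) (U y)) {f : V (2 * m) → ℝ}
    (hf : ContDiff ℝ ∞ f) {Γ Γ' : Fin (2 * m) → V (2 * m) → Mt (2 * m)} {B B' : Pot (2 * m)}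
    (hΓ : ∀ μ y, Γ' μ y = (R y)ᵀ * (∑ ν, jac Φ y ν μ • Γ ν (Φ y)) * R y
      + (R y)ᵀ * duM R y (bv μ))
    (hB : ∀ μ y, B' μ y = pull1 Φ B μ y + pd μ f y)
    {ψ : V (2 * m) → S} (hψ : Differentiable ℝ ψ) (μ : Fin (2 * m)) (y : V (2 * m)) :
    nabS c Γ' B' μ (fun y => Complex.exp (-(Complex.I * (f y : ℂ))) • (star (U y)) (ψ (Φ y))) y
      = Complex.exp (-(Complex.I * (f y : ℂ))) •
        (star (U y)) (∑ ν, (jac Φ y ν μ : ℂ) • nabS c Γ B ν ψ (Φ y)) := by
  set ε : V (2 * m) → ℂ := fun y => Complex.exp (-(Complex.I * (f y : ℂ))) with hε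
  set M := (R y)ᵀ * duM R y (bv μ) with hM
  have hUs : ContDiff ℝ ∞ fun y => star (U y) := contDiff_star' hU
  -- the derivative
  have hd : pd μ (fun y => ε y • (star (U y)) (ψ (Φ y))) y
      = ε y • (-(Complex.I * ((pd μ f y : ℝ) : ℂ)) • (star (U y)) (ψ (Φ y))
        - (spinA c M) ((star (U y)) (ψ (Φ y)))
        + (star (U y)) (∑ ν, (jac Φ y ν μ : ℂ) • pd ν ψ (Φ y))) := by
    have h1 : HasDerivAt (fun s : ℝ => ((f (y + s • bv μ) : ℝ) : ℂ)) ((pd μ f y : ℝ) : ℂ) 0 :=
      (hasDerivAt_line ((hf.differentiable (by simp)) y) (bv μ)).ofReal_comp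
    have h2 : HasDerivAt (fun s : ℝ => ε (y + s • bv μ))
        (ε y * (-(Complex.I * ((pd μ f y : ℝ) : ℂ)))) 0 := by
      have h3 := ((h1.const_mul Complex.I).neg).cexp
      simpa [hε] using h3
    have h4 : HasDerivAt (fun s : ℝ => star (U (y + s • bv μ)))
        (-(spinA c M * star (U y))) 0 := by
      rw [← lift_deriv_star hc hR hU hL]
      exact hasDerivAt_line ((hUs.differentiable (by simp)) y) (bv μ)
    have h5 : HasDerivAt (fun s : ℝ => ψ (Φ (y + s • bv μ)))
        (∑ ν, (jac Φ y ν μ : ℂ) • pd ν ψ (Φ y)) 0 := by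
      have h6 := hasDerivAt_line (f := fun y => ψ (Φ y)) (y := y)
        ((hψ (Φ y)).comp y ((hΦ.differentiable (by simp)) y)) (bv μ)
      have h7 := pd_comp (hΦ.differentiable (by simp)) hψ μ y
      unfold pd at h7
      rw [h7] at h6
      simp only [Complex.coe_smul]
      exact h6
    have h8 := h2.smul (hasDerivAt_capply h4 h5)
    have h9 : DifferentiableAt ℝ (fun y => ε y • (star (U y)) (ψ (Φ y))) y := by
      have hε' : Differentiable ℝ ε := by
        have : ContDiff ℝ ∞ fun y => -(Complex.I * (f y : ℂ)) :=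
          (contDiff_const.mul (contDiff_ofReal' hf)).neg
        exact (this.cexp).differentiable (by simp)
      have hW : Differentiable ℝ fun y => (star (U y)).restrictScalars ℝ :=
        (ContinuousLinearMap.restrictScalarsL ℂ S S ℝ ℝ).differentiable.comp
          (hUs.differentiable (by simp))
      exact (hε' y).smul ((hW y).clm_apply
        ((hψ (Φ y)).comp y ((hΦ.differentiable (by simp)) y)))
    have h10 := (hasDerivAt_line h9 (bv μ)).unique h8
    unfold pd at h10 ⊢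
    rw [h10]
    simp only [zero_smul, add_zero, neg_apply, mul_apply_eq_comp]
    rw [← smul_smul, ← smul_add]
    congr 1
    abel
  -- `spin` terms
  have hs : (spinA c (Γ' μ y)) ((star (U y)) (ψ (Φ y)))
      = (star (U y)) (∑ ν, (jac Φ y ν μ : ℂ) • (spinA c (Γ ν (Φ y))) (ψ (Φ y)))
        + (spinA c M) ((star (U y)) (ψ (Φ y))) := by
    rw [hΓ, spinA_add, add_apply]
    congr 1
    set G := ∑ ν, jac Φ y ν μ • Γ ν (Φ y) with hG
    have h1 := (hL y).conj_spinA hc (hR.orth y) G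
    have h2 : spinA c ((R y)ᵀ * G * R y) * star (U y) = star (U y) * spinA c G := by
      calc spinA c ((R y)ᵀ * G * R y) * star (U y)
          = star (U y) * (U y * spinA c ((R y)ᵀ * G * R y)) * star (U y) := by
            rw [← mul_assoc, (hL y).isom, one_mul]
        _ = star (U y) * spinA c G := by
            rw [← h1, mul_assoc, mul_assoc, (hL y).isom', mul_one]
    have h3 := congrArg (fun T : S →L[ℂ] S => T (ψ (Φ y))) h2
    have h4 : spinA c G = ∑ ν, (jac Φ y ν μ : ℂ) • spinA c (Γ ν (Φ y)) := by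
      rw [hG]
      have : ∀ (s : Finset (Fin (2 * m))), spinA c (∑ ν ∈ s, jac Φ y ν μ • Γ ν (Φ y))
          = ∑ ν ∈ s, (jac Φ y ν μ : ℂ) • spinA c (Γ ν (Φ y)) := by
        intro s
        induction s using Finset.induction_on with
        | empty => simp [spinA_zero]
        | insert a s ha ih => rw [Finset.sum_insert ha, Finset.sum_insert ha, spinA_add,
            spinA_smul, ih]
      exact this _
    have h5 : (spinA c ((R y)ᵀ * G * R y)) ((star (U y)) (ψ (Φ y)))
        = (star (U y)) ((spinA c G) (ψ (Φ y))) := h3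
    rw [h5, h4, sum_apply]
    simp only [smul_apply]
  have hBn : (B' μ y : ℂ) = (∑ ν, (jac Φ y ν μ : ℂ) * (B ν (Φ y) : ℂ)) + ((pd μ f y : ℝ) : ℂ) := by
    rw [hB]
    unfold pull1
    push_cast
    congr 1
    exact Finset.sum_congr rfl fun ν _ => mul_comm _ _
  unfold nabS
  rw [hd]
  simp only [add_apply, smul_apply,
    one_apply_eq_self, map_smul]
  rw [hs, hBn]
  set x := (star (U y)) (ψ (Φ y)) with hx
  simp only [smul_add, map_sum, map_add, map_smul, Finset.sum_add_distrib, mul_add, add_smul,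
    Finset.mul_sum, Finset.sum_smul, ← hx]
  have e1 : ∀ ν, (jac Φ y ν μ : ℂ) • (Complex.I * (B ν (Φ y) : ℂ)) • x
      = (Complex.I * ((jac Φ y ν μ : ℂ) * (B ν (Φ y) : ℂ))) • x := by
    intro ν; rw [smul_smul]; congr 1; ring
  simp only [e1]
  simp only [smul_sub, neg_smul, smul_neg]
  have hεy : ε y = Complex.exp (-(Complex.I * (f y : ℂ))) := rfl
  rw [hεy]
  abel

/-- THE TRANSPORT OF THE DIRAC OPERATOR -/
theorem diracS_transport (hc : CEnv t c) {Φ : V (2 * m) → V (2 * m)} (hΦ : ContDiff ℝ ∞ Φ)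
    {R : V (2 * m) → Mt (2 * m)} (hR : IsRot R) {U : V (2 * m) → S →L[ℂ] S}
    (hU : ContDiff ℝ ∞ U) (hL : ∀ y, LiftA c (R y) (U y)) {f : V (2 * m) → ℝ}
    (hf : ContDiff ℝ ∞ f) {e e' : V (2 * m) → Mt (2 * m)}
    {Γ Γ' : Fin (2 * m) → V (2 * m) → Mt (2 * m)} {B B' : Pot (2 * m)}
    (he : ∀ y, jac Φ y * e' y = e (Φ y) * R y)
    (hΓ : ∀ μ y, Γ' μ y = (R y)ᵀ * (∑ ν, jac Φ y ν μ • Γ ν (Φ y)) * R y
      + (R y)ᵀ * duM R y (bv μ))
    (hB : ∀ μ y, B' μ y = pull1 Φ B μ y + pd μ f y)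
    {ψ : V (2 * m) → S} (hψ : Differentiable ℝ ψ) (y : V (2 * m)) :
    diracS c e' Γ' B' (fun y => Complex.exp (-(Complex.I * (f y : ℂ))) • (star (U y)) (ψ (Φ y))) y
      = Complex.exp (-(Complex.I * (f y : ℂ))) • (star (U y)) (diracS c e Γ B ψ (Φ y)) := by
  unfold diracS
  simp only [nabS_transport hc hΦ hR hU hL hf hΓ hB hψ]
  exact transport_alg (hR.orth y) (he y)
    (star_intertwine hc.st (star_cR hc.st (R y)) (hL y).tw') _ _

end

end Pool.Agent.Lib.MP_df705a_gt.RL
end
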