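import Pool.Agent.Lib.MP_df705a_gt.Mg.G043
import Pool.Agent.Lib.MP_df705a_gt.Mg.G030
import Pool.Agent.Lib.MP_df705a_gt.Mg.G044

section

/-!
# RL2 parametrix: derivatives, bounds and Taylor expansions of the evaluations
-/

open scoped ContDiff InnerProductSpace Matrix
open MeasureTheory

noncomputable section

set_option linter.unusedSectionVars false

namespace Pool.Agent.Lib.MP_df705a_gt.RL

variable {X : Type*} [MeasurableSpace X] {P : Measure X} [IsProbabilityMeasure P] {N m : ℕ}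
  {ρ : ℝ}

theorem P05A_C (x : X) (z η : V N) (a : Rg P N ρ) :
    ev x z η (MvPolynomial.C a) = a.1 x z :=
  MvPolynomial.eval₂_C _ _ _

theorem P05A_X (x : X) (z η : V N) (i : Fin N) :
    ev x z η (MvPolynomial.X i : MvPolynomial (Fin N) (Rg P N ρ)) = (η i : ℂ) :=
  MvPolynomial.eval₂_X _ _ _

/-- PROOF. `MvPolynomial.induction_on p`: constants, sums, products with `X i` (`η ↦ (η i : ℂ)` is a
continuous linear map). -/
theorem contDiff_ev (x : X) (z : V N) (p : MvPolynomial (Fin N) (Rg P N ρ)) :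
    ContDiff ℝ ∞ fun η => ev x z η p := by
  induction p using MvPolynomial.induction_on with
  | C a => simp only [P05A_C]; exact contDiff_const
  | add p q hp hq => simp only [map_add]; exact hp.add hq
  | mul_X p i hp =>
    simp only [map_mul, P05A_X]
    exact hp.mul (Complex.ofRealCLM.contDiff.comp (EuclideanSpace.proj (𝕜 := ℝ) i).contDiff)

/-- PROOF. `MvPolynomial.induction_on p`; `pd μ` of a product (`fderiv_mul`), `pd μ (fun η => (η i : ℂ)) = δ`. -/
theorem pd_ev (x : X) (z η : V N) (μ : Fin N) (p : MvPolynomial (Fin N) (Rg P N ρ)) :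
    pd μ (fun η => ev x z η p) η = ev x z η (MvPolynomial.pderiv μ p) := by
  have hd : ∀ q : MvPolynomial (Fin N) (Rg P N ρ), DifferentiableAt ℝ (fun η => ev x z η q) η :=
    fun q => (contDiff_ev x z q).differentiable (by simp) η
  induction p using MvPolynomial.induction_on with
  | C a =>
    simp only [P05A_C, MvPolynomial.pderiv_C, map_zero]
    simp [pd]
  | add p q hp hq =>
    simp only [map_add]
    rw [← hp, ← hq, pd, fderiv_fun_add (hd p) (hd q)]
    rfl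
  | mul_X p i hp =>
    have h1 : HasFDerivAt (fun η : V N => ((η i : ℝ) : ℂ))
        (Complex.ofRealCLM.comp (EuclideanSpace.proj (𝕜 := ℝ) i)) η :=
      (Complex.ofRealCLM.comp (EuclideanSpace.proj (𝕜 := ℝ) i)).hasFDerivAt
    have h2 : (fun η => ev x z η (p * MvPolynomial.X i)) =
        fun η => ev x z η p * ((η i : ℝ) : ℂ) := by
      funext η; rw [map_mul, P05A_X]
    have h4 : HasFDerivAt (fun η => ev x z η p * ((η i : ℝ) : ℂ)) _ η := (hd p).hasFDerivAt.mul h1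
    rw [h2, pd, h4.fderiv, Derivation.leibniz, map_add, smul_eq_mul,
      smul_eq_mul, map_mul, map_mul, P05A_X, ← hp]
    have h3 : ev x z η (MvPolynomial.pderiv μ (MvPolynomial.X i :
        MvPolynomial (Fin N) (Rg P N ρ))) = (((bv μ : V N) i : ℝ) : ℂ) := by
      rw [MvPolynomial.pderiv_X]
      rcases eq_or_ne i μ with rfl | h
      · simp [bv]
      · simp [bv, h]
    rw [h3]
    simp only [add_apply, smul_apply, smul_eq_mul]
    rfl

/-- PROOF. `MvPolynomial.induction_on p`; for constants `(p.2).1 x` is continuous. -/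
theorem continuous_ev (x : X) (p : MvPolynomial (Fin N) (Rg P N ρ)) :
    Continuous fun q : V N × V N => ev x q.1 q.2 p := by
  induction p using MvPolynomial.induction_on with
  | C a => simp only [P05A_C]; exact ((a.2).1 x).comp continuous_fst
  | add p q hp hq => simp only [map_add]; exact hp.add hq
  | mul_X p i hp =>
    simp only [map_mul, P05A_X]
    exact hp.mul (Complex.continuous_ofReal.comp
      ((EuclideanSpace.proj (𝕜 := ℝ) i).continuous.comp continuous_snd))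

/-- PROOF. `MvPolynomial.induction_on p`; constants: definition of `Rg`, `M = 0`; sums: `Mom.add`, the larger
exponent (`1 ≤ 1 + ‖η‖`); product with `X i`: `|η i| ≤ 1 + ‖η‖`, exponent `M + 1`. -/
theorem ev_bd (p : MvPolynomial (Fin N) (Rg P N ρ)) : ∃ (Φ : X → ℝ) (M : ℕ), Mom P Φ ∧
    ∀ x z η, ‖z‖ ≤ ρ → ‖ev x z η p‖ ≤ Φ x * (1 + ‖η‖) ^ M := by
  induction p using MvPolynomial.induction_on with
  | C a =>
    obtain ⟨Φ, hΦ, h⟩ := (a.2).2
    refine ⟨Φ, 0, hΦ, fun x z η hz => ?_⟩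
    rw [P05A_C, pow_zero, mul_one]
    exact h x z hz
  | add p q hp hq =>
    obtain ⟨Φ, M, hΦ, h⟩ := hp
    obtain ⟨Ψ, K, hΨ, h'⟩ := hq
    refine ⟨_, max M K, hΦ.add hΨ, fun x z η hz => ?_⟩
    have h1 : 1 ≤ 1 + ‖η‖ := le_add_of_nonneg_right (norm_nonneg _)
    rw [map_add, add_mul]
    refine (norm_add_le _ _).trans (add_le_add ((h x z η hz).trans ?_) ((h' x z η hz).trans ?_))
    · exact mul_le_mul_of_nonneg_left (pow_le_pow_right₀ h1 (le_max_left _ _)) (hΦ.nonneg x)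
    · exact mul_le_mul_of_nonneg_left (pow_le_pow_right₀ h1 (le_max_right _ _)) (hΨ.nonneg x)
  | mul_X p i hp =>
    obtain ⟨Φ, M, hΦ, h⟩ := hp
    refine ⟨Φ, M + 1, hΦ, fun x z η hz => ?_⟩
    rw [map_mul, P05A_X, norm_mul, Complex.norm_real, pow_succ, ← mul_assoc]
    refine mul_le_mul (h x z η hz) ((PiLp.norm_apply_le η i).trans ?_) (norm_nonneg _)
      (mul_nonneg (hΦ.nonneg x) (pow_nonneg (by positivity) _))
    linarith

private theorem P05B_ev_C (x : X) (z η : V N) (a : Rg P N ρ) :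
    ev x z η (MvPolynomial.C a) = a.1 x z := by
  unfold ev
  rw [MvPolynomial.coe_eval₂Hom, MvPolynomial.eval₂_C]
  rfl

private theorem P05B_ev_X (x : X) (z η : V N) (i : Fin N) :
    ev (P := P) (ρ := ρ) x z η (MvPolynomial.X i) = (η i : ℂ) := by
  unfold ev
  rw [MvPolynomial.coe_eval₂Hom, MvPolynomial.eval₂_X]

private theorem P05B_ev_smul (x : X) (z η : V N) (c : ℂ) (p : MvPolynomial (Fin N) (Rg P N ρ)) :
    ev x z η (c • p) = c * ev x z η p := by
  rw [Algebra.smul_def, map_mul, MvPolynomial.algebraMap_apply, P05B_ev_C, Rg.algebraMap_val]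

private theorem P05B_ev_tay_succ (k : ℕ) (f : Fm P N ρ) (x : X) (z v : V N) :
    ev x z v (tay (k + 1) f)
      = 1 / ((k : ℂ) + 1) * ∑ μ, (v μ : ℂ) * ev x z v (tay k (fpd μ f)) := by
  rw [tay, P05B_ev_smul, map_sum]
  congr 1
  refine Finset.sum_congr rfl fun μ _ => ?_
  rw [map_mul, P05B_ev_X]

/-- PROOF. Induction on `k` for all `f` (definition of `tay`). -/
theorem ev_tay_smul (k : ℕ) (f : Fm P N ρ) (x : X) (z v : V N) (c : ℝ) :
    ev x z (c • v) (tay k f) = (c : ℂ) ^ k * ev x z v (tay k f) := by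
  induction k generalizing f with
  | zero => rw [tay, P05B_ev_C, P05B_ev_C, pow_zero, one_mul]
  | succ k ih =>
    rw [P05B_ev_tay_succ, P05B_ev_tay_succ, mul_left_comm]
    congr 1
    rw [Finset.mul_sum]
    refine Finset.sum_congr rfl fun μ _ => ?_
    rw [ih]
    have h1 : (((c • v) μ : ℝ) : ℂ) = (c : ℂ) * (v μ : ℂ) := by
      rw [← Complex.ofReal_mul]
      rfl
    rw [h1]
    ring

/-- PROOF. Induction on `k` for all `f`: `ev x z v (tay (k+1) f) = (1/(k+1)) ∑ v_μ ev x z v (tay k (fpd μ f))`; for the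
curve `s ↦ s • v` use `ev_tay_smul`: `ev x z (s v) (tay (k+1) f) = s^(k+1) ev x z v (tay (k+1) f)` with the derivative
`(k+1) s^k ev x z v (tay (k+1) f) = ∑ v_μ ev x z (s v) (tay k (fpd μ f))`. -/
theorem hasDerivAt_tay (k : ℕ) (f : Fm P N ρ) (x : X) (z v : V N) (s : ℝ) :
    HasDerivAt (fun s : ℝ => ev x z (s • v) (tay (k + 1) f))
      (∑ μ, (v μ : ℂ) * ev x z (s • v) (tay k (fpd μ f))) s := by
  have h1 : (fun s : ℝ => ev x z (s • v) (tay (k + 1) f)) =
      fun s : ℝ => (s : ℂ) ^ (k + 1) * ev x z v (tay (k + 1) f) := by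
    funext s
    exact ev_tay_smul (k + 1) f x z v s
  rw [h1]
  have h2 : HasDerivAt (fun s : ℝ => (s : ℂ) ^ (k + 1)) (((k + 1 : ℕ) : ℂ) * (s : ℂ) ^ k * 1) s :=
    ((hasDerivAt_pow (k + 1) (s : ℂ)).comp_ofReal).congr_deriv (by simp)
  refine (h2.mul_const (ev x z v (tay (k + 1) f))).congr_deriv ?_
  have h3 : ∀ μ : Fin N, (v μ : ℂ) * ev x z (s • v) (tay k (fpd μ f)) =
      (s : ℂ) ^ k * ((v μ : ℂ) * ev x z v (tay k (fpd μ f))) := by
    intro μ
    rw [ev_tay_smul]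
    ring
  have h4 : ((k : ℂ) + 1) ≠ 0 := Nat.cast_add_one_ne_zero k
  rw [Finset.sum_congr rfl fun μ _ => h3 μ, ← Finset.mul_sum, P05B_ev_tay_succ]
  push_cast
  field_simp

private theorem P05B_sum_bv (v : V N) : v = ∑ μ, v μ • bv μ := by
  ext β
  rw [WithLp.ofLp_sum, Finset.sum_apply, Finset.sum_eq_single β]
  · show v β = v β * bv β β
    unfold bv
    rw [PiLp.single_apply, if_pos rfl, mul_one]
  · intro μ _ hμ
    show v μ * bv μ β = 0
    unfold bv
    rw [PiLp.single_apply, if_neg (Ne.symm hμ), mul_zero]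
  · intro h
    exact absurd (Finset.mem_univ _) h

private theorem P05B_clm (L : V N →L[ℝ] ℂ) (v : V N) : L v = ∑ μ, (v μ : ℂ) * L (bv μ) := by
  conv_lhs => rw [P05B_sum_bv v, map_sum]
  refine Finset.sum_congr rfl fun μ _ => ?_
  rw [map_smul, Complex.real_smul]

private theorem P05B_deriv (f : Fm P N ρ) (x : X) (z v : V N) (s : ℝ) :
    HasDerivAt (fun s : ℝ => f.1 x z (s • v)) (∑ μ, (v μ : ℂ) * (fpd μ f).1 x z (s • v)) s := by
  have h1 : HasDerivAt (fun r : ℝ => r • v) ((1 : ℝ) • v) s := (hasDerivAt_id s).smul_const v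
  have h2 := (((f.2.smooth_v x z).differentiable (by simp)) (s • v)).hasFDerivAt.comp_hasDerivAt s h1
  refine h2.congr_deriv ?_
  rw [one_smul]
  exact P05B_clm _ v

/-- PROOF. `v = ∑ v_μ bv μ`, chain rule for `s ↦ s • v`; `hasDerivAt_tay`; the sum over `j ∈ range (k+1)` is the term
`j = 0` (constant, `ev` of `C (at0 f)`) and the terms `j + 1`, `j ∈ range k` (`Finset.sum_range_succ'`). -/
theorem hasDerivAt_rem (k : ℕ) (f : Fm P N ρ) (x : X) (z v : V N) (s : ℝ) :
    HasDerivAt (fun s : ℝ => rem (k + 1) f x z (s • v))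
      (∑ μ, (v μ : ℂ) * rem k (fpd μ f) x z (s • v)) s := by
  have h1 : (fun s : ℝ => rem (k + 1) f x z (s • v)) = fun s : ℝ =>
      f.1 x z (s • v) - (∑ j ∈ Finset.range k, ev x z (s • v) (tay (j + 1) f) + f.1 x z 0) := by
    funext s
    unfold rem
    rw [Finset.sum_range_succ', tay, P05B_ev_C]
    rfl
  rw [h1]
  have h2 : HasDerivAt (fun s : ℝ => ∑ j ∈ Finset.range k, ev x z (s • v) (tay (j + 1) f)
      + f.1 x z 0) (∑ j ∈ Finset.range k, ∑ μ, (v μ : ℂ) * ev x z (s • v) (tay j (fpd μ f))) s :=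
    (HasDerivAt.fun_sum fun j _ => hasDerivAt_tay j f x z v s).add_const _
  refine ((P05B_deriv f x z v s).sub h2).congr_deriv ?_
  rw [Finset.sum_comm, ← Finset.sum_sub_distrib]
  refine Finset.sum_congr rfl fun μ _ => ?_
  unfold rem
  rw [mul_sub, Finset.mul_sum]

private theorem P05B_rem_zero (k : ℕ) (f : Fm P N ρ) (x : X) (z : V N) :
    rem (k + 1) f x z 0 = 0 := by
  have h1 : ∀ j : ℕ, ev x z 0 (tay (j + 1) f) = 0 := by
    intro j
    have h2 := ev_tay_smul (j + 1) f x z 0 0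
    rwa [zero_smul, Complex.ofReal_zero, zero_pow (Nat.succ_ne_zero j), zero_mul] at h2
  unfold rem
  rw [Finset.sum_range_succ', Finset.sum_eq_zero fun j _ => h1 j, zero_add, tay, P05B_ev_C]
  exact sub_self _

/-- PROOF. Induction on `k` for all `f`. `k = 0`: `rem 0 f = f`, `f.2.bd []`. `k + 1`: `rem (k+1) f x z 0 = 0`
(`f x z 0` is the term `j = 0`, the others vanish at `v = 0`: `ev_tay_smul` with `c = 0`); the derivative of
`s ↦ rem (k+1) f x z (s • v)` on `[0, 1]` is bounded by `∑_μ |v μ| Φ_μ x ‖s v‖^k ≤ (∑_μ Φ_μ x) ‖v‖^(k+1)`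
(`hasDerivAt_rem`, induction for `fpd μ f`); mean value inequality
(`norm_image_sub_le_of_norm_deriv_le_segment_01'`). -/
theorem rem_bd (k : ℕ) (f : Fm P N ρ) : ∃ Φ : X → ℝ, Mom P Φ ∧
    ∀ x z v, ‖z‖ ≤ ρ → ‖v‖ ≤ 1 → ‖rem k f x z v‖ ≤ Φ x * ‖v‖ ^ k := by
  induction k generalizing f with
  | zero =>
    obtain ⟨Φ, hΦ, h1⟩ := f.2.bd []
    refine ⟨Φ, hΦ, fun x z v hz hv => ?_⟩
    unfold rem
    rw [Finset.sum_range_zero, sub_zero, pow_zero, mul_one]
    exact h1 x z v hz hv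
  | succ k ih =>
    choose Φ hΦ h1 using fun μ : Fin N => ih (fpd μ f)
    refine ⟨fun x => ∑ μ, Φ μ x, Mom.sum Finset.univ fun μ _ => hΦ μ, fun x z v hz hv => ?_⟩
    have h2 := norm_image_sub_le_of_norm_deriv_le_segment_01'
      (f := fun s : ℝ => rem (k + 1) f x z (s • v))
      (f' := fun s : ℝ => ∑ μ, (v μ : ℂ) * rem k (fpd μ f) x z (s • v))
      (C := (∑ μ, Φ μ x) * ‖v‖ ^ (k + 1))
      (fun s _ => (hasDerivAt_rem k f x z v s).hasDerivWithinAt) (fun s hs => ?_)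
    · rw [one_smul, zero_smul, P05B_rem_zero, sub_zero] at h2
      exact h2
    · have hsv : ‖s • v‖ ≤ ‖v‖ := by
        rw [norm_smul, Real.norm_of_nonneg hs.1]
        exact mul_le_of_le_one_left (norm_nonneg _) hs.2.le
      refine (norm_sum_le _ _).trans ?_
      rw [Finset.sum_mul]
      refine Finset.sum_le_sum fun μ _ => ?_
      rw [norm_mul, Complex.norm_real]
      have h3 : ‖v μ‖ ≤ ‖v‖ := PiLp.norm_apply_le v μ
      have h4 : ‖rem k (fpd μ f) x z (s • v)‖ ≤ Φ μ x * ‖v‖ ^ k :=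
        (h1 μ x z (s • v) hz (hsv.trans hv)).trans
          (mul_le_mul_of_nonneg_left (pow_le_pow_left₀ (norm_nonneg _) hsv k) ((hΦ μ).nonneg x))
      refine (mul_le_mul h3 h4 (norm_nonneg _) (norm_nonneg _)).trans (le_of_eq ?_)
      ring

/-! ### matrices -/

private theorem P05C_toEn (A : Matrix (Ix m) (Ix m) ℂ) :
    toEn A = ∑ i, ∑ j, A i j • toEn (Matrix.single i j (1 : ℂ)) := by
  unfold toEn
  conv_lhs => rw [Matrix.matrix_eq_sum_single A]
  simp only [map_sum]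
  refine Finset.sum_congr rfl fun i _ => Finset.sum_congr rfl fun j _ => ?_
  rw [← map_smul, Matrix.smul_single, smul_eq_mul, mul_one]

private theorem P05C_evM (x : X) (z η : V N) (p : PM (Ix m) N (Rg P N ρ)) :
    evM x z η p = ∑ i, ∑ j, ev x z η (p i j) • toEn (Matrix.single i j (1 : ℂ)) :=
  P05C_toEn _

/-- PROOF. `toEn` is a continuous linear map on matrices (finite dimension) or
`toEn A = ∑_ij A i j • toEn (single i j 1)`; `contDiff_ev`. -/
theorem contDiff_evM (x : X) (z : V N) (p : PM (Ix m) N (Rg P N ρ)) :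
    ContDiff ℝ ∞ fun η => evM x z η p := by
  simp only [P05C_evM]
  exact ContDiff.sum fun i _ => ContDiff.sum fun j _ =>
    (contDiff_ev x z (p i j)).smul contDiff_const

/-- PROOF. As `contDiff_evM`, `pd_ev`. -/
theorem pd_evM (x : X) (z η : V N) (μ : Fin N) (p : PM (Ix m) N (Rg P N ρ)) :
    pd μ (fun η => evM x z η p) η = evM x z η (dM μ p) := by
  have hd : ∀ i j, DifferentiableAt ℝ (fun η => ev x z η (p i j)) η := fun i j =>
    (contDiff_ev x z (p i j)).differentiable (by simp) η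
  have h1 : HasFDerivAt (fun η => evM x z η p)
      (∑ i, ∑ j, (fderiv ℝ (fun η => ev x z η (p i j)) η).smulRight
        (toEn (Matrix.single i j (1 : ℂ)))) η := by
    simp only [P05C_evM]
    refine HasFDerivAt.fun_sum fun i _ => HasFDerivAt.fun_sum fun j _ => ?_
    exact (hd i j).hasFDerivAt.smul_const (toEn (Matrix.single i j (1 : ℂ)))
  unfold pd
  rw [h1.fderiv, P05C_evM, sum_apply]
  refine Finset.sum_congr rfl fun i _ => ?_
  rw [sum_apply]
  refine Finset.sum_congr rfl fun j _ => ?_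
  rw [ContinuousLinearMap.smulRight_apply]
  congr 1
  exact pd_ev x z η μ (p i j)

theorem continuous_evM (x : X) (p : PM (Ix m) N (Rg P N ρ)) :
    Continuous fun q : V N × V N => evM x q.1 q.2 p := by
  simp only [P05C_evM]
  exact continuous_finsetSum _ fun i _ => continuous_finsetSum _ fun j _ =>
    (continuous_ev x (p i j)).smul continuous_const

/-- PROOF. `norm_toEn_le`, `ev_bd` for the entries, `Mom.sum`, sum of the exponents. -/
theorem evM_bd (p : PM (Ix m) N (Rg P N ρ)) : ∃ (Φ : X → ℝ) (M : ℕ), Mom P Φ ∧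
    ∀ x z η, ‖z‖ ≤ ρ → ‖evM x z η p‖ ≤ Φ x * (1 + ‖η‖) ^ M := by
  choose Φ M hΦ h1 using fun ij : Ix m × Ix m => ev_bd (p ij.1 ij.2)
  refine ⟨fun x => ∑ i, ∑ j, Φ (i, j) x, ∑ ij, M ij,
    Mom.sum Finset.univ fun i _ => Mom.sum Finset.univ fun j _ => hΦ (i, j), fun x z η hz => ?_⟩
  refine (norm_toEn_le _).trans ?_
  rw [Finset.sum_mul]
  refine Finset.sum_le_sum fun i _ => ?_
  rw [Finset.sum_mul]
  refine Finset.sum_le_sum fun j _ => ?_
  refine (h1 (i, j) x z η hz).trans (mul_le_mul_of_nonneg_left ?_ ((hΦ (i, j)).nonneg x))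
  refine pow_le_pow_right₀ (by linarith [norm_nonneg η]) ?_
  exact Finset.single_le_sum (f := M) (fun _ _ => Nat.zero_le _) (Finset.mem_univ (i, j))

private theorem P05C_toEn_smul (c : ℂ) (A : Matrix (Ix m) (Ix m) ℂ) :
    toEn (c • A) = c • toEn A := by
  unfold toEn
  exact map_smul _ c A

private theorem P05C_toEn_add (A B : Matrix (Ix m) (Ix m) ℂ) :
    toEn (A + B) = toEn A + toEn B := by
  unfold toEn
  exact map_add _ A B

private theorem P05C_toEn_sum {κ : Type*} (s : Finset κ) (A : κ → Matrix (Ix m) (Ix m) ℂ) :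
    toEn (∑ k ∈ s, A k) = ∑ k ∈ s, toEn (A k) := by
  unfold toEn
  exact map_sum _ A s

theorem evM_tay_smul (k : ℕ) (f : Matrix (Ix m) (Ix m) (Fm P N ρ)) (x : X) (z v : V N) (c : ℝ) :
    evM x z (c • v) (f.map (tay k)) = (c : ℂ) ^ k • evM x z v (f.map (tay k)) := by
  unfold evM
  rw [← P05C_toEn_smul]
  congr 1
  ext i j
  exact ev_tay_smul k (f i j) x z v c

/-- PROOF. Definitions, entrywise. -/
theorem evF_eq (k : ℕ) (f : Matrix (Ix m) (Ix m) (Fm P N ρ)) (x : X) (z v : V N) :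
    evF x z v f = ∑ j ∈ Finset.range k, evM x z v (f.map (tay j)) + remM k f x z v := by
  unfold evF evM remM
  rw [← P05C_toEn_sum, ← P05C_toEn_add]
  congr 1
  ext i j
  rw [Matrix.add_apply, Matrix.sum_apply]
  simp only [Matrix.map_apply]
  unfold rem
  ring

theorem f_eq (k : ℕ) (f : Fm P N ρ) (x : X) (z v : V N) :
    f.1 x z v = ∑ j ∈ Finset.range k, ev x z v (tay j f) + rem k f x z v := by
  unfold rem
  ring

/-- PROOF. `norm_toEn_le`, `rem_bd` for the entries. -/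
theorem remM_bd (k : ℕ) (f : Matrix (Ix m) (Ix m) (Fm P N ρ)) : ∃ Φ : X → ℝ, Mom P Φ ∧
    ∀ x z v, ‖z‖ ≤ ρ → ‖v‖ ≤ 1 → ‖remM k f x z v‖ ≤ Φ x * ‖v‖ ^ k := by
  choose Φ hΦ h1 using fun ij : Ix m × Ix m => rem_bd k (f ij.1 ij.2)
  refine ⟨fun x => ∑ i, ∑ j, Φ (i, j) x,
    Mom.sum Finset.univ fun i _ => Mom.sum Finset.univ fun j _ => hΦ (i, j),
    fun x z v hz hv => ?_⟩
  refine (norm_toEn_le _).trans ?_
  rw [Finset.sum_mul]
  refine Finset.sum_le_sum fun i _ => ?_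
  rw [Finset.sum_mul]
  exact Finset.sum_le_sum fun j _ => h1 (i, j) x z v hz hv

theorem continuous_evF (f : Matrix (Ix m) (Ix m) (Fm P N ρ)) (x : X) :
    Continuous fun q : V N × V N => evF x q.1 q.2 f := by
  have h1 : ∀ q : V N × V N, evF x q.1 q.2 f =
      ∑ i, ∑ j, (f i j).1 x q.1 q.2 • toEn (Matrix.single i j (1 : ℂ)) := fun q =>
    P05C_toEn _
  simp only [h1]
  exact continuous_finsetSum _ fun i _ => continuous_finsetSum _ fun j _ =>
    ((f i j).2.smooth x).continuous.smul continuous_const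

end Pool.Agent.Lib.MP_df705a_gt.RL
end
end

section

/-!
# RL2 parametrix: the Gaussian, the metric coefficients as elements of the rings
-/

open scoped ContDiff InnerProductSpace Matrix Real
open MeasureTheory

noncomputable section

set_option linter.unusedSectionVars false

namespace Pool.Agent.Lib.MP_df705a_gt.RL

variable {X : Type*} [MeasurableSpace X] {P : Measure X} [IsProbabilityMeasure P] {N m : ℕ}
  {ρ : ℝ}

/-- A continuous function of the base point as a coefficient.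
(Proof of the second property: a continuous function is bounded on the compact ball.) -/
def ofCont (f : V N → ℂ) (hf : Continuous f) : Rg P N ρ :=
  ⟨fun _ z => f z, fun _ => hf, by
    obtain ⟨C, hC⟩ := (isCompact_closedBall (0 : V N) ρ).exists_bound_of_continuousOn
      hf.continuousOn
    refine ⟨_, Mom.const (abs_nonneg C), fun x z hz => ?_⟩
    exact (hC z (by rwa [mem_closedBall_zero_iff])).trans (le_abs_self C)⟩

/-- Iterated partial derivatives. -/
def pdl : List (Fin N) → (V N → ℂ) → V N → ℂ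
  | [], f => f
  | μ :: l, f => pdl l (pd μ f)

/-- A family of smooth functions such that all derivatives are locally bounded by functions with all
moments. -/
structure RF (P : Measure X) (F : X → V N → ℂ) : Prop where
  smooth : ∀ x, ContDiff ℝ ∞ (F x)
  bd : ∀ (l : List (Fin N)) (R : ℝ), ∃ Φ, Mom P Φ ∧ ∀ x y, ‖y‖ ≤ R → ‖pdl l (F x) y‖ ≤ Φ x

theorem pvl_shift (l : List (Fin N)) : ∀ F : X → V N → ℂ,
    pvl l (fun x z v => F x (z + v)) = fun x z v => pdl l (F x) (z + v) := by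
  induction l with
  | nil => intro F; rfl
  | cons μ l ih =>
    intro F
    have h1 : pv μ (fun x z v => F x (z + v)) = fun x z v => (fun x => pd μ (F x)) x (z + v) := by
      funext x z v
      exact congrFun (congrArg DFunLike.coe (fderiv_comp_add_left (𝕜 := ℝ) (f := F x) (a := z) (x := v))) (bv μ)
    change pvl l (pv μ _) = _
    rw [h1, ih]
    rfl

/-- The shifted family `F x (z + v)`. -/
def shiftF {F : X → V N → ℂ} (hF : RF P F) : Fm P N ρ :=
  ⟨fun x z v => F x (z + v), ⟨fun x => (hF.smooth x).comp (contDiff_fst.add contDiff_snd),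
    fun l => by
      obtain ⟨Φ, hΦ, h⟩ := hF.bd l (ρ + 1)
      refine ⟨Φ, hΦ, fun x z v hz hv => ?_⟩
      rw [pvl_shift]
      exact h x (z + v) ((norm_add_le z v).trans (add_le_add hz hv))⟩⟩

theorem P06_pd {f : V N → ℂ} (hf : ContDiff ℝ ∞ f) (μ : Fin N) : ContDiff ℝ ∞ (pd μ f) :=
  (hf.fderiv_right (m := ∞) (by simp)).clm_apply contDiff_const

theorem P06_pdl (l : List (Fin N)) : ∀ {f : V N → ℂ}, ContDiff ℝ ∞ f → ContDiff ℝ ∞ (pdl l f) := by
  induction l with
  | nil => exact fun h => h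
  | cons μ l ih => exact fun h => ih (P06_pd h μ)

/-- PROOF. `pdl l f` is smooth, so continuous, and bounded on the compact ball; `Mom.const`. -/
theorem RF.det {f : V N → ℂ} (hf : ContDiff ℝ ∞ f) : RF P fun _ => f := by
  refine ⟨fun _ => hf, fun l R => ?_⟩
  obtain ⟨C, hC⟩ := (isCompact_closedBall (0 : V N) R).exists_bound_of_continuousOn
    (P06_pdl l hf).continuous.continuousOn
  exact ⟨_, Mom.const (abs_nonneg C), fun x y hy =>
    (hC y (by rwa [mem_closedBall_zero_iff])).trans (le_abs_self C)⟩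

/-- The inverse metric as a smooth family. -/
def hiF (g : Geo N) (μ ν : Fin N) : Fm P N ρ :=
  shiftF (F := fun _ y => (g.hi y μ ν : ℂ)) (RF.det (by
    refine Complex.ofRealCLM.contDiff.comp ?_
    change ContDiff ℝ ∞ fun y => ∑ a, g.e y μ a * g.e y ν a
    exact ContDiff.sum fun a _ => (g.smooth_e μ a).mul (g.smooth_e ν a)))

theorem continuous_h (g : Geo N) (μ ν : Fin N) : Continuous fun y => (g.h y μ ν : ℂ) := by
  refine Complex.continuous_ofReal.comp ?_
  change Continuous fun y => ∑ a, g.θ y a μ * g.θ y a ν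
  exact continuous_finsetSum _ fun a _ =>
    (g.smooth_θ a μ).continuous.mul (g.smooth_θ a ν).continuous

theorem continuous_hi (g : Geo N) (μ ν : Fin N) : Continuous fun y => (g.hi y μ ν : ℂ) := by
  refine Complex.continuous_ofReal.comp ?_
  change Continuous fun y => ∑ a, g.e y μ a * g.e y ν a
  exact continuous_finsetSum _ fun a _ =>
    (g.smooth_e μ a).continuous.mul (g.smooth_e ν a).continuous

/-- The metric at the base point. -/
def hR (g : Geo N) (μ ν : Fin N) : Rg P N ρ := ofCont _ (continuous_h g μ ν)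

/-- The inverse metric at the base point. -/
def hiR (g : Geo N) (μ ν : Fin N) : Rg P N ρ := ofCont _ (continuous_hi g μ ν)

theorem h_symm (g : Geo N) (y : V N) (μ ν : Fin N) : g.h y μ ν = g.h y ν μ := by
  change ((g.θ y)ᵀ * g.θ y) μ ν = ((g.θ y)ᵀ * g.θ y) ν μ
  simp only [Matrix.mul_apply, Matrix.transpose_apply]
  exact Finset.sum_congr rfl fun a _ => mul_comm _ _

theorem hi_symm (g : Geo N) (y : V N) (μ ν : Fin N) : g.hi y μ ν = g.hi y ν μ := by
  change (g.e y * (g.e y)ᵀ) μ ν = (g.e y * (g.e y)ᵀ) ν μ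
  simp only [Matrix.mul_apply, Matrix.transpose_apply]
  exact Finset.sum_congr rfl fun a _ => mul_comm _ _

/-- PROOF. `hi * h = e eᵀ θᵀ θ = e (θ e)ᵀ θ = e θ = 1`. -/
theorem hi_mul_h (g : Geo N) (y : V N) : g.hi y * g.h y = 1 := by
  change g.e y * (g.e y)ᵀ * ((g.θ y)ᵀ * g.θ y) = 1
  rw [Matrix.mul_assoc, ← Matrix.mul_assoc (g.e y)ᵀ, ← Matrix.transpose_mul, g.θe,
    Matrix.transpose_one, Matrix.one_mul, g.eθ]

/-- The quadratic form of the metric. -/
def qf (g : Geo N) (z v : V N) : ℝ := ∑ μ, ∑ ν, g.h z μ ν * (v μ * v ν)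

/-- The Gaussian. -/
def gs (g : Geo (2 * m)) (z v : V (2 * m)) (r : ℝ) : ℝ :=
  ((4 * π * r) ^ m)⁻¹ * Real.exp (-(qf g z v / (4 * r)))

/-- PROOF. `qf g z v = ∑_a (∑_μ θ_aμ v_μ)²`. -/
theorem qf_eq (g : Geo N) (z v : V N) : qf g z v = ∑ a, (∑ μ, g.θ z a μ * v μ) ^ 2 := by
  unfold qf
  have h1 : ∀ μ ν, g.h z μ ν * (v μ * v ν) = ∑ a, (g.θ z a μ * v μ) * (g.θ z a ν * v ν) := by
    intro μ ν
    change ((g.θ z)ᵀ * g.θ z) μ ν * (v μ * v ν) = _
    rw [Matrix.mul_apply, Finset.sum_mul]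
    refine Finset.sum_congr rfl fun a _ => ?_
    rw [Matrix.transpose_apply]
    ring
  simp only [h1, sq, Finset.sum_mul_sum]
  rw [Finset.sum_congr rfl fun μ _ => Finset.sum_comm, Finset.sum_comm]

theorem P06_cont (g : Geo N) : Continuous fun p : V N × V N => qf g p.1 p.2 := by
  unfold qf
  refine continuous_finsetSum _ fun μ _ => continuous_finsetSum _ fun ν _ => ?_
  have h1 : Continuous fun y => g.h y μ ν := by
    change Continuous fun y => ∑ a, g.θ y a μ * g.θ y a ν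
    exact continuous_finsetSum _ fun a _ =>
      (g.smooth_θ a μ).continuous.mul (g.smooth_θ a ν).continuous
  exact (h1.comp continuous_fst).mul
    (((EuclideanSpace.proj μ).continuous.comp continuous_snd).mul
      ((EuclideanSpace.proj ν).continuous.comp continuous_snd))

theorem P06_smul (g : Geo N) (z v : V N) (c : ℝ) : qf g z (c • v) = c ^ 2 * qf g z v := by
  unfold qf
  simp only [Finset.mul_sum, PiLp.smul_apply, smul_eq_mul]
  exact Finset.sum_congr rfl fun μ _ => Finset.sum_congr rfl fun ν _ => by ring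

theorem P06_pos (g : Geo N) (z v : V N) (hv : v ≠ 0) : 0 < qf g z v := by
  rw [qf_eq]
  refine lt_of_le_of_ne (Finset.sum_nonneg fun a _ => sq_nonneg _) fun h0 => hv ?_
  have h1 := (Finset.sum_eq_zero_iff_of_nonneg fun a _ => sq_nonneg _).1 h0.symm
  have h2 : g.θ z *ᵥ (fun μ => v μ) = 0 := by
    funext a
    exact pow_eq_zero_iff two_ne_zero |>.1 (h1 a (Finset.mem_univ a))
  have h3 : (fun μ => v μ) = 0 := by
    have := congrArg (fun w => g.e z *ᵥ w) h2
    simpa only [Matrix.mulVec_mulVec, g.eθ, Matrix.one_mulVec, Matrix.mulVec_zero] using this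
  ext μ
  exact congrFun h3 μ

/-- PROOF. On the compact set `closedBall 0 ρ × sphere 0 1` the continuous function `qf` has a positive minimum
(`qf_eq`: it is zero only if `θ v = 0`, so `v = e θ v = 0`); homogeneity. If the set is empty (`N = 0` or `ρ < 0`)
take `κ = 1`. -/
theorem qf_lower (g : Geo N) (ρ : ℝ) : ∃ κ : ℝ, 0 < κ ∧ ∀ z v : V N, ‖z‖ ≤ ρ →
    κ * ‖v‖ ^ 2 ≤ qf g z v := by
  classical
  have hc : IsCompact (Metric.closedBall (0 : V N) ρ ×ˢ Metric.sphere (0 : V N) 1) :=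
    (isCompact_closedBall _ _).prod (isCompact_sphere _ _)
  rcases (Metric.closedBall (0 : V N) ρ ×ˢ Metric.sphere (0 : V N) 1).eq_empty_or_nonempty with h | h
  · refine ⟨1, one_pos, fun z v hz => ?_⟩
    rcases eq_or_ne v 0 with rfl | hv
    · have := P06_smul g z 0 0
      simp only [smul_zero, zero_pow two_ne_zero, zero_mul] at this
      simp [this]
    · exact absurd h (Set.Nonempty.ne_empty ⟨(z, ‖v‖⁻¹ • v), by
        simpa using hz, by simp [norm_smul, hv]⟩)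
  · obtain ⟨⟨z₀, v₀⟩, ⟨hz₀, hv₀⟩, hmin⟩ := hc.exists_isMinOn h (P06_cont g).continuousOn
    have hv₀' : v₀ ≠ 0 := by
      rintro rfl
      simp at hv₀
    refine ⟨qf g z₀ v₀, P06_pos g z₀ v₀ hv₀', fun z v hz => ?_⟩
    rcases eq_or_ne v 0 with rfl | hv
    · have := P06_smul g z 0 0
      simp only [smul_zero, zero_pow two_ne_zero, zero_mul] at this
      simp [this]
    · have hn : 0 < ‖v‖ := norm_pos_iff.2 hv
      have h1 : (z, ‖v‖⁻¹ • v) ∈ Metric.closedBall (0 : V N) ρ ×ˢ Metric.sphere (0 : V N) 1 := by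
        refine Set.mem_prod.2 ⟨?_, ?_⟩
        · simpa using hz
        · simp [norm_smul, hv]
      have h2 := isMinOn_iff.1 hmin _ h1
      simp only at h2
      rw [P06_smul] at h2
      calc qf g z₀ v₀ * ‖v‖ ^ 2 ≤ (‖v‖⁻¹ ^ 2 * qf g z v) * ‖v‖ ^ 2 :=
            mul_le_mul_of_nonneg_right h2 (sq_nonneg _)
        _ = qf g z v := by field_simp

theorem qf_smul (g : Geo N) (z v : V N) (c : ℝ) : qf g z (c • v) = c ^ 2 * qf g z v := by
  exact P06_smul g z v c

theorem contDiff_qf (g : Geo N) (z : V N) : ContDiff ℝ ∞ (qf g z) := by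
  unfold qf
  refine ContDiff.sum fun μ _ => ContDiff.sum fun ν _ => ?_
  exact contDiff_const.mul ((EuclideanSpace.proj μ : V N →L[ℝ] ℝ).contDiff.mul
    (EuclideanSpace.proj ν : V N →L[ℝ] ℝ).contDiff)

theorem continuous_qf (g : Geo N) : Continuous fun p : V N × V N => qf g p.1 p.2 := by
  exact P06_cont g

theorem gs_pos (g : Geo (2 * m)) (z v : V (2 * m)) {r : ℝ} (hr : 0 < r) : 0 < gs g z v r := by
  unfold gs
  positivity

theorem contDiff_gs (g : Geo (2 * m)) (z : V (2 * m)) (r : ℝ) :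
    ContDiff ℝ ∞ fun v => gs g z v r := by
  unfold gs
  exact contDiff_const.mul (((contDiff_qf g z).div_const _).neg.exp)

theorem P06_pdqf (g : Geo N) (z v : V N) (μ : Fin N) :
    fderiv ℝ (qf g z) v (bv μ) = 2 * ∑ ν, g.h z μ ν * v ν := by
  have h1 : HasDerivAt (fun s : ℝ => qf g z (v + s • bv μ)) (2 * ∑ ν, g.h z μ ν * v ν) 0 := by
    have e : (fun s : ℝ => qf g z (v + s • bv μ)) =
        fun s => qf g z v + s * (2 * ∑ ν, g.h z μ ν * v ν) + s ^ 2 * g.h z μ μ := by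
      funext s
      unfold qf
      have e1 : ∀ ν, (v + s • bv μ) ν = v ν + s * (if ν = μ then 1 else 0) := by
        intro ν
        simp [bv]
      have e2 : ∀ α β, g.h z α β * ((v + s • bv μ) α * (v + s • bv μ) β) =
          g.h z α β * (v α * v β) + (s * (if α = μ then g.h z α β * v β else 0) +
            s * (if β = μ then g.h z α β * v α else 0)) +
            s ^ 2 * (if α = μ then (if β = μ then g.h z α β else 0) else 0) := by
        intro α β
        rw [e1, e1]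
        split_ifs <;> ring
      simp only [e2, Finset.sum_add_distrib, ← Finset.mul_sum]
      have e3 : ∑ α, ∑ β, (if α = μ then g.h z α β * v β else 0) = ∑ ν, g.h z μ ν * v ν := by
        rw [Finset.sum_comm]
        simp
      have e4 : ∑ α, ∑ β, (if β = μ then g.h z α β * v α else 0) = ∑ ν, g.h z μ ν * v ν := by
        simp only [Finset.sum_ite_eq', Finset.mem_univ, if_true]
        exact Finset.sum_congr rfl fun ν _ => by rw [h_symm]
      have e5 : ∑ α, ∑ β, (if α = μ then (if β = μ then g.h z α β else 0) else 0) = g.h z μ μ := by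
        rw [Finset.sum_comm]
        simp
      rw [e3, e4, e5]
      ring
    rw [e]
    exact (((hasDerivAt_id' (0 : ℝ)).mul_const (2 * ∑ ν, g.h z μ ν * v ν)).const_add (qf g z v)
      |>.add (((hasDerivAt_id' (0 : ℝ)).pow 2).mul_const (g.h z μ μ))).congr_deriv (by simp)
  have h2 : HasDerivAt (fun s : ℝ => v + s • bv μ) (bv μ) 0 := by
    simpa using ((hasDerivAt_id (0 : ℝ)).smul_const (bv μ)).const_add v
  have h3 : HasFDerivAt (qf g z) (fderiv ℝ (qf g z) v) (v + (0 : ℝ) • bv μ) := by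
    rw [zero_smul, add_zero]
    exact ((contDiff_qf g z).differentiable (by simp) v).hasFDerivAt
  have h4 : HasDerivAt (fun s : ℝ => qf g z (v + s • bv μ)) (fderiv ℝ (qf g z) v (bv μ)) 0 :=
    HasFDerivAt.comp_hasDerivAt (f := fun s : ℝ => v + s • bv μ) (0 : ℝ) h3 h2
  exact h4.unique h1

/-- PROOF. Chain rule; `∂_μ qf = 2 ∑_ν h_μν v_ν` (`h_symm`). -/
theorem pd_gs (g : Geo (2 * m)) (z v : V (2 * m)) {r : ℝ} (hr : 0 < r) (μ : Fin (2 * m)) :
    pd μ (fun v => gs g z v r) v = -((∑ ν, g.h z μ ν * v ν) / (2 * r)) * gs g z v r := by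
  have h1 : HasFDerivAt (qf g z) (fderiv ℝ (qf g z) v) v :=
    ((contDiff_qf g z).differentiable (by simp) v).hasFDerivAt
  have h2 : HasFDerivAt (fun v => gs g z v r)
      (((4 * π * r) ^ m)⁻¹ • (Real.exp (-(qf g z v / (4 * r))) •
        (-((4 * r)⁻¹ • fderiv ℝ (qf g z) v)))) v := by
    have h3 : HasFDerivAt (fun v => -(qf g z v / (4 * r))) (-((4 * r)⁻¹ • fderiv ℝ (qf g z) v)) v := by
      simp only [div_eq_inv_mul]
      exact (h1.const_mul _).neg
    exact h3.exp.const_mul _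
  change fderiv ℝ (fun v => gs g z v r) v (bv μ) = _
  rw [h2.fderiv]
  simp only [_root_.smul_apply, _root_.neg_apply, P06_pdqf, smul_eq_mul]
  unfold gs
  field_simp
  ring

theorem hasDerivAt_gs (g : Geo (2 * m)) (z v : V (2 * m)) {r : ℝ} (hr : 0 < r) :
    HasDerivAt (fun r => gs g z v r) ((qf g z v / (4 * r ^ 2) - m / r) * gs g z v r) r := by
  have h4 : (4 * π * r) ≠ 0 := by positivity
  have h1 : HasDerivAt (fun r : ℝ => (4 * π * r) ^ m) (m * (4 * π * r) ^ (m - 1) * (4 * π)) r :=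
    (((hasDerivAt_id' r).const_mul (4 * π)).pow m).congr_deriv (by simp)
  have h6 : (4 * π * r) ^ m ≠ 0 := pow_ne_zero m h4
  have h2 : HasDerivAt (fun r : ℝ => ((4 * π * r) ^ m)⁻¹)
      (-(m * (4 * π * r) ^ (m - 1) * (4 * π)) / ((4 * π * r) ^ m) ^ 2) r := h1.inv h6
  have h3 : HasDerivAt (fun r : ℝ => -(qf g z v / (4 * r))) (qf g z v / (4 * r ^ 2)) r := by
    have h7 : HasDerivAt (fun r : ℝ => (4 * r)⁻¹) (-(4 * 1) / (4 * r) ^ 2) r :=
      ((hasDerivAt_id' r).const_mul 4).inv (by positivity)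
    have h8 := h7.const_mul (-(qf g z v))
    refine (h8.congr_deriv ?_).congr_of_eventuallyEq (Filter.Eventually.of_forall fun r => ?_)
    · field_simp
    · change -(qf g z v / (4 * r)) = -(qf g z v) * (4 * r)⁻¹
      rw [div_eq_mul_inv, neg_mul]
  have h5 : (m : ℝ) * (4 * π * r) ^ (m - 1) * (4 * π) = m / r * (4 * π * r) ^ m := by
    rcases m with _ | m
    · simp
    · rw [Nat.add_sub_cancel, pow_succ]
      field_simp
  have h9 : HasDerivAt (fun r : ℝ => gs g z v r) (-(m * (4 * π * r) ^ (m - 1) * (4 * π)) /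
      ((4 * π * r) ^ m) ^ 2 * Real.exp (-(qf g z v / (4 * r))) + ((4 * π * r) ^ m)⁻¹ *
      (Real.exp (-(qf g z v / (4 * r))) * (qf g z v / (4 * r ^ 2)))) r := h2.mul h3.exp
  refine h9.congr_deriv ?_
  rw [h5]
  unfold gs
  generalize (4 * π * r) ^ m = G at h6
  generalize Real.exp (-(qf g z v / (4 * r))) = Q
  field_simp
  ring

theorem continuousOn_gs (g : Geo (2 * m)) :
    ContinuousOn (fun p : ℝ × V (2 * m) × V (2 * m) => gs g p.2.1 p.2.2 p.1) {p | 0 < p.1} := by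
  unfold gs
  refine ContinuousOn.mul ?_ ?_
  · refine ContinuousOn.inv₀ (by fun_prop) fun p hp => ?_
    have : (0 : ℝ) < p.1 := hp
    positivity
  · refine (ContinuousOn.div ((continuous_qf g).comp continuous_snd).continuousOn (by fun_prop)
      fun p hp => ?_).neg.rexp
    have : (0 : ℝ) < p.1 := hp
    positivity

theorem P06_poly (κ : ℝ) (hκ : 0 < κ) (M : ℕ) : ∃ C : ℝ, 0 < C ∧ ∀ s : ℝ, 0 ≤ s →
    (1 + s) ^ M * Real.exp (-(κ * s ^ 2)) ≤ C := by
  refine ⟨Real.exp (M * (1 + M / (4 * κ))), Real.exp_pos _, fun s hs => ?_⟩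
  have h1 : (1 + s) ^ M ≤ Real.exp (M * s) := by
    rw [Real.exp_nat_mul]
    exact pow_le_pow_left₀ (by positivity) (by linarith [Real.add_one_le_exp s]) M
  calc (1 + s) ^ M * Real.exp (-(κ * s ^ 2)) ≤ Real.exp (M * s) * Real.exp (-(κ * s ^ 2)) :=
        mul_le_mul_of_nonneg_right h1 (Real.exp_pos _).le
    _ = Real.exp (M * s - κ * s ^ 2) := by rw [← Real.exp_add]; ring_nf
    _ ≤ _ := by
        refine Real.exp_le_exp.2 ?_
        have h2 : M * s - κ * s ^ 2 ≤ M * (M / (4 * κ)) := by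
          have e : M * (M / (4 * κ)) - (M * s - κ * s ^ 2) = κ * (s - M / (2 * κ)) ^ 2 := by
            field_simp
            ring
          have := mul_nonneg hκ.le (sq_nonneg (s - M / (2 * κ)))
          linarith
        have h3 : (0 : ℝ) ≤ M := Nat.cast_nonneg _
        linarith [mul_add (M : ℝ) 1 (M / (4 * κ))]

/-- PROOF. With `s = ‖v‖ / √r`, `qf ≥ κ ‖v‖²`: `exp(-qf/(4r)) (1 + s)^M ≤ exp(-κ s²/4) (1 + s)^M ≤ C exp(-κ s²/8)`
because `(1 + s)^M exp(-κ s²/8)` is bounded for `s ≥ 0` (it tends to `0` at infinity and is continuous; or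
`(1 + s)^(2M) ≤ C' exp(κ s² / 4)`). -/
theorem gs_poly_le (g : Geo (2 * m)) (ρ : ℝ) : ∃ c : ℝ, 0 < c ∧ ∀ M : ℕ, ∃ C : ℝ, 0 < C ∧
    ∀ z v : V (2 * m), ∀ r : ℝ, ‖z‖ ≤ ρ → 0 < r →
      gs g z v r * (1 + ‖(√r)⁻¹ • v‖) ^ M ≤ C * (r ^ m)⁻¹ * Real.exp (-(c * ‖v‖ ^ 2 / r)) := by
  obtain ⟨κ, hκ, hq⟩ := qf_lower g ρ
  refine ⟨κ / 8, by positivity, fun M => ?_⟩
  obtain ⟨C, hC, hC2⟩ := P06_poly (κ / 8) (by positivity) M
  refine ⟨C, hC, fun z v r hz hr => ?_⟩
  have hs : ‖(√r)⁻¹ • v‖ ^ 2 = ‖v‖ ^ 2 / r := by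
    rw [norm_smul, mul_pow, norm_inv, inv_pow, Real.norm_of_nonneg (Real.sqrt_nonneg r),
      Real.sq_sqrt hr.le, inv_mul_eq_div]
  have h1 := hC2 ‖(√r)⁻¹ • v‖ (norm_nonneg _)
  rw [hs] at h1
  have h2 : Real.exp (-(qf g z v / (4 * r))) ≤
      Real.exp (-(κ / 8 * (‖v‖ ^ 2 / r))) * Real.exp (-(κ / 8 * ‖v‖ ^ 2 / r)) := by
    rw [← Real.exp_add]
    refine Real.exp_le_exp.2 ?_
    have h3 : κ * ‖v‖ ^ 2 / (4 * r) ≤ qf g z v / (4 * r) :=
      div_le_div_of_nonneg_right (hq z v hz) (by positivity)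
    have e : κ * ‖v‖ ^ 2 / (4 * r) = κ / 8 * (‖v‖ ^ 2 / r) + κ / 8 * ‖v‖ ^ 2 / r := by
      field_simp
      ring
    linarith
  have h4 : ((4 * π * r) ^ m)⁻¹ ≤ (r ^ m)⁻¹ := by
    refine inv_anti₀ (by positivity) (pow_le_pow_left₀ hr.le ?_ m)
    have : 1 ≤ 4 * π := by linarith [Real.pi_gt_three]
    nlinarith
  unfold gs
  have h5 : (0 : ℝ) ≤ (1 + ‖(√r)⁻¹ • v‖) ^ M := by positivity
  calc ((4 * π * r) ^ m)⁻¹ * Real.exp (-(qf g z v / (4 * r))) * (1 + ‖(√r)⁻¹ • v‖) ^ M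
      ≤ (r ^ m)⁻¹ * (Real.exp (-(κ / 8 * (‖v‖ ^ 2 / r))) * Real.exp (-(κ / 8 * ‖v‖ ^ 2 / r))) *
        (1 + ‖(√r)⁻¹ • v‖) ^ M := by
        refine mul_le_mul_of_nonneg_right (mul_le_mul h4 h2 (Real.exp_pos _).le
          (by positivity)) h5
    _ = (r ^ m)⁻¹ * ((1 + ‖(√r)⁻¹ • v‖) ^ M * Real.exp (-(κ / 8 * (‖v‖ ^ 2 / r)))) *
        Real.exp (-(κ / 8 * ‖v‖ ^ 2 / r)) := by ring
    _ ≤ (r ^ m)⁻¹ * C * Real.exp (-(κ / 8 * ‖v‖ ^ 2 / r)) := by
        refine mul_le_mul_of_nonneg_right (mul_le_mul_of_nonneg_left h1 (by positivity))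
          (Real.exp_pos _).le
    _ = _ := by ring

end Pool.Agent.Lib.MP_df705a_gt.RL
end
end

section

/-!
# RL2 parametrix: Gaussian times rescaled polynomial; the second order operator
-/

open scoped ContDiff InnerProductSpace Matrix Real
open MeasureTheory

noncomputable section

set_option linter.unusedSectionVars false

namespace Pool.Agent.Lib.MP_df705a_gt.RL

variable {X : Type*} [MeasurableSpace X] {P : Measure X} [IsProbabilityMeasure P] {N m : ℕ}
  {ρ : ℝ}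

/-- The Gaussian times the rescaled polynomial `p (v / √r)`. -/
def Wp (g : Geo (2 * m)) (x : X) (z : V (2 * m)) (r : ℝ) (p : PM (Ix m) (2 * m) (Rg P (2 * m) ρ))
    (v : V (2 * m)) : En m :=
  (gs g z v r : ℂ) • evM x z ((√r)⁻¹ • v) p

/-- A second order operator with parameter `t`: the coefficients of the first and zero order terms. -/
structure Op (P : Measure X) [IsProbabilityMeasure P] (m : ℕ) (ρ : ℝ) where
  b : Fin 3 → Fin (2 * m) → Matrix (Ix m) (Ix m) (Fm P (2 * m) ρ)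
  c : Fin 3 → Matrix (Ix m) (Ix m) (Fm P (2 * m) ρ)

/-- The conditions on the coefficients. -/
structure Op.Ok (o : Op P m ρ) : Prop where
  b1 : ∀ μ, (o.b 1 μ).map (tay 0) = 0
  b2 : ∀ μ, o.b 2 μ = 0
  c20 : (o.c 2).map (tay 0) = 0
  c21 : (o.c 2).map (tay 1) = 0

namespace Op

/-- The first order coefficient at `z + v`. -/
def bT (o : Op P m ρ) (t : ℝ) (x : X) (z v : V (2 * m)) (μ : Fin (2 * m)) : En m :=
  ∑ β : Fin 3, ((t : ℂ) ^ (β : ℕ)) • evF x z v (o.b β μ)

/-- The zero order coefficient at `z + v`. -/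
def cT (o : Op P m ρ) (t : ℝ) (x : X) (z v : V (2 * m)) : En m :=
  ∑ β : Fin 3, ((t : ℂ) ^ (β : ℕ)) • evF x z v (o.c β)

/-- The operator `- ∑ h^{μν}(z + v) ∂_μ ∂_ν + ∑ b_μ ∂_μ + c`, acting on functions of `v`. -/
def L (g : Geo (2 * m)) (o : Op P m ρ) (t : ℝ) (x : X) (z : V (2 * m)) (u : V (2 * m) → En m)
    (v : V (2 * m)) : En m :=
  - ∑ μ, ∑ ν, (g.hi (z + v) μ ν : ℂ) • pd μ (pd ν u) v
    + ∑ μ, o.bT t x z v μ * pd μ u v + o.cT t x z v * u v

/-- The homogeneous parts of the first order coefficients, by weight. -/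
def wB (o : Op P m ρ) (β : Fin 3) : ℕ → Fin (2 * m) → PM (Ix m) (2 * m) (Rg P (2 * m) ρ)
  | 0, _ => 0
  | k + 1, μ => (o.b β μ).map (tay k)

/-- The homogeneous parts of the zero order coefficient, by weight. -/
def wC (o : Op P m ρ) (β : Fin 3) : ℕ → PM (Ix m) (2 * m) (Rg P (2 * m) ρ)
  | 0 => 0
  | 1 => 0
  | k + 2 => (o.c β).map (tay k)

/-- The data of the recursion. -/
def dat (g : Geo (2 * m)) (o : Op P m ρ) : PDat (Ix m) (2 * m) (Rg P (2 * m) ρ) where
  G := hR g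
  a := hiR g
  A k μ ν := tay k (hiF g μ ν)
  B := o.wB
  c := o.wC

private theorem P07A_fpd_zero {N : ℕ} (μ : Fin N) : fpd μ (0 : Fm P N ρ) = 0 := by
  refine Fm.ext fun x z v => ?_
  show fderiv ℝ (fun _ : V N => (0 : ℂ)) v (bv μ) = 0
  simp

private theorem P07A_tay_zero {N : ℕ} (k : ℕ) : tay k (0 : Fm P N ρ) = 0 := by
  induction k with
  | zero =>
    rw [tay]
    have h1 : at0 (0 : Fm P N ρ) = 0 := Rg.ext fun x z => rfl
    rw [h1, map_zero]
  | succ k ih =>
    rw [tay, Finset.sum_eq_zero, smul_zero]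
    intro μ _
    rw [P07A_fpd_zero, ih, mul_zero]

/-- PROOF. `A0`: `at0 (hiF g μ ν) = hiR g μ ν` (`z + 0 = z`). `inv`: `hi_mul_h`. Symmetry: `h_symm`, `hi_symm`.
`Blt`: `β = 1`: `k = 0` or `k = 1` (`b1`); `β = 2`: `b2`. `clt`: `β = 1`: `k ≤ 1`; `β = 2`: `k ≤ 3`, `c20`, `c21`. -/
theorem dat_ok (g : Geo (2 * m)) {o : Op P m ρ} (ho : o.Ok) : (o.dat g).Ok := by
  refine ⟨?_, ?_, ?_, ?_, ?_, ?_, ?_, ?_⟩
  · intro μ ν
    show tay 0 (hiF g μ ν) = MvPolynomial.C (hiR g μ ν)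
    rw [tay]
    congr 1
    refine Rg.ext fun x z => ?_
    show ((g.hi (z + 0) μ ν : ℝ) : ℂ) = (g.hi z μ ν : ℂ)
    rw [add_zero]
  · intro μ ν
    show ∑ l, hiR g μ l * hR g l ν = if μ = ν then 1 else 0
    refine Rg.ext fun x z => ?_
    have h1 : (∑ l, hiR (P := P) (ρ := ρ) g μ l * hR g l ν).1 x z =
        evR x z (∑ l, hiR (P := P) (ρ := ρ) g μ l * hR g l ν) := rfl
    have h2 : ∀ l, evR x z (hiR (P := P) (ρ := ρ) g μ l * hR g l ν) =
        ((g.hi z μ l * g.h z l ν : ℝ) : ℂ) := by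
      intro l
      rw [Complex.ofReal_mul]
      rfl
    have h3 : ∑ l, g.hi z μ l * g.h z l ν = (1 : Mt (2 * m)) μ ν := by
      rw [← hi_mul_h g z]
      rfl
    rw [h1, map_sum, Finset.sum_congr rfl fun l _ => h2 l, ← Complex.ofReal_sum, h3,
      Matrix.one_apply]
    by_cases h4 : μ = ν
    · rw [if_pos h4, if_pos h4]
      rfl
    · rw [if_neg h4, if_neg h4]
      rfl
  · intro μ ν
    refine Rg.ext fun x z => ?_
    show ((g.hi z μ ν : ℝ) : ℂ) = (g.hi z ν μ : ℂ)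
    rw [hi_symm]
  · intro μ ν
    refine Rg.ext fun x z => ?_
    show ((g.h z μ ν : ℝ) : ℂ) = (g.h z ν μ : ℂ)
    rw [h_symm]
  · intro β μ
    rfl
  · intro β k μ hk
    show o.wB β k μ = 0
    cases k with
    | zero => rfl
    | succ k =>
      fin_cases β
      · exact absurd hk (by simp)
      · have hk0 : k = 0 := by
          have : k + 1 < 2 * 1 := hk
          omega
        subst hk0
        exact ho.b1 μ
      · show (o.b 2 μ).map (tay k) = 0
        rw [ho.b2 μ]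
        refine Matrix.ext fun i j => ?_
        exact P07A_tay_zero k
  · intro β k hk
    show o.wC β k = 0
    match k, hk with
    | 0, _ => rfl
    | 1, _ => rfl
  · intro β k hk
    show o.wC β k = 0
    match k, hk with
    | 0, _ => rfl
    | 1, _ => rfl
    | k + 2, hk =>
      fin_cases β
      · exact absurd hk (by simp)
      · have : k + 2 < 2 * 1 := hk
        omega
      · have hk4 : k + 2 < 2 * 2 := hk
        match k, hk4 with
        | 0, _ => exact ho.c20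
        | 1, _ => exact ho.c21

/-- The approximate solution, terms of weight `≤ J`. -/
def U (g : Geo (2 * m)) (o : Op P m ρ) (J : ℕ) (t : ℝ) (x : X) (z : V (2 * m)) (r : ℝ)
    (v : V (2 * m)) : En m :=
  ∑ n ∈ Finset.range (J + 1), ((√r : ℂ) ^ n) • Wp g x z r ((o.dat g).PT t n) v

/-- The polynomial part of the time derivative of `(√r)^n • Wp p`. -/
def tD (g : Geo (2 * m)) (n : ℕ) (p : PM (Ix m) (2 * m) (Rg P (2 * m) ρ)) :
    PM (Ix m) (2 * m) (Rg P (2 * m) ρ) :=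
  algebraMap ℂ (Rg P (2 * m) ρ) (n / 2) • p
    - algebraMap ℂ (Rg P (2 * m) ρ) (1 / 2) • eulM p
    + algebraMap ℂ (Rg P (2 * m) ρ) (1 / 4) • (gXX (hR (P := P) (ρ := ρ) g) • p)
    - algebraMap ℂ (Rg P (2 * m) ρ) ((2 * m : ℕ) / 2) • p

/-- The time derivative of `U`. -/
def Ud (g : Geo (2 * m)) (o : Op P m ρ) (J : ℕ) (t : ℝ) (x : X) (z : V (2 * m)) (r : ℝ)
    (v : V (2 * m)) : En m :=
  ∑ n ∈ Finset.range (J + 1), ((√r : ℂ) ^ n) • ((r⁻¹ : ℂ) •
    Wp g x z r (tD g n ((o.dat g).PT t n)) v)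

/-- The remainder of order `k` of the first order coefficient. -/
def remB (o : Op P m ρ) (k : ℕ) (t : ℝ) (x : X) (z v : V (2 * m)) (μ : Fin (2 * m)) : En m :=
  ∑ β : Fin 3, ((t : ℂ) ^ (β : ℕ)) • remM k (o.b β μ) x z v

/-- The remainder of order `k` of the zero order coefficient. -/
def remC (o : Op P m ρ) (k : ℕ) (t : ℝ) (x : X) (z v : V (2 * m)) : En m :=
  ∑ β : Fin 3, ((t : ℂ) ^ (β : ℕ)) • remM k (o.c β) x z v

/-- The error terms. -/
def Er (g : Geo (2 * m)) (o : Op P m ρ) (J : ℕ) (t : ℝ) (x : X) (z : V (2 * m)) (r : ℝ)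
    (v : V (2 * m)) : En m :=
  ∑ n ∈ Finset.range (J + 1), ((√r : ℂ) ^ n) •
    (- ∑ μ, ∑ ν, (rem (J + 1 - n) (hiF (ρ := ρ) (P := P) g μ ν) x z v) •
        Wp g x z r (hM (hR g) μ (hM (hR g) ν ((o.dat g).PT t n))) v
      + (√r : ℂ) • ∑ μ, o.remB (J - n) t x z v μ * Wp g x z r (hM (hR g) μ ((o.dat g).PT t n)) v
      + (r : ℂ) • (o.remC (J - 1 - n) t x z v * Wp g x z r ((o.dat g).PT t n) v))

end Op

end Pool.Agent.Lib.MP_df705a_gt.RL
end
end

section

/-!
# RL2 parametrix: random forms and their primitives have all moments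
-/

open scoped ContDiff InnerProductSpace Matrix
open MeasureTheory

noncomputable section

set_option linter.unusedSectionVars false

namespace Pool.Agent.Lib.MP_df705a_gt.RL

variable {X : Type*} [MeasurableSpace X] {P : Measure X} [IsProbabilityMeasure P] {N : ℕ}
  {I : Type*}

/-- Random closed two-forms with all moments (the part of `Rand` used for the parametrix). -/
structure RForm (P : Measure X) (Ω : X → V N → Mt N) : Prop where
  closed : ∀ x, IsClosed2 (Ω x)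
  mom : ∀ (r : ℝ) (k : ℕ), ∃ L : X → ℝ, Measurable L ∧ (∀ x, 1 ≤ L x) ∧
    (∀ p : ℕ, Integrable (fun x => L x ^ p) P) ∧
    ∀ x, ∀ j ≤ k, ∀ μ ν, ∀ y, ‖y‖ ≤ r → ‖iteratedFDeriv ℝ j (fun y => Ω x y μ ν) y‖ ≤ L x

theorem Rand.rform {G : Type*} [Group G] [MulAction G X] {a : Act G N} {Ω : X → V N → Mt N}
    (h : Rand P a Ω) : RForm P Ω := ⟨h.closed, h.mom⟩

/-- Families of smooth functions, indexed by `I`, such that all derivatives are bounded on balls by
functions of `ϖ i` with all moments. -/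
structure RFI (P : Measure X) (ϖ : I → X) (F : I → V N → ℂ) : Prop where
  smooth : ∀ i, ContDiff ℝ ∞ (F i)
  bd : ∀ (l : List (Fin N)) (R : ℝ), ∃ Φ, Mom P Φ ∧
    ∀ i y, ‖y‖ ≤ R → ‖pdl l (F i) y‖ ≤ Φ (ϖ i)

theorem RFI.rf {F : X → V N → ℂ} (h : RFI P (fun x => x) F) : RF P F := ⟨h.smooth, h.bd⟩

theorem RF.rfi {F : X → V N → ℂ} (h : RF P F) (ϖ : I → X) : RFI P ϖ fun i => F (ϖ i) :=
  ⟨fun i => h.smooth _, fun l R => by
    obtain ⟨Φ, hΦ, h1⟩ := h.bd l R
    exact ⟨Φ, hΦ, fun i y hy => h1 _ y hy⟩⟩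

/-- PROOF. `pd` of a sum of differentiable functions; induction on `l` for all `f`, `g` (`pd μ f` is smooth,
`contDiff_pd` from Base4). -/
theorem pdl_add (l : List (Fin N)) {f g : V N → ℂ} (hf : ContDiff ℝ ∞ f) (hg : ContDiff ℝ ∞ g) :
    pdl l (fun y => f y + g y) = fun y => pdl l f y + pdl l g y := by
  induction l generalizing f g with
  | nil => rfl
  | cons μ l ih =>
    change pdl l (pd μ fun y => f y + g y) = _
    have h1 : (pd μ fun y => f y + g y) = fun y => pd μ f y + pd μ g y := by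
      funext y
      unfold pd
      rw [fderiv_fun_add (hf.differentiable (by simp) y) (hg.differentiable (by simp) y)]
      rfl
    rw [h1, ih (contDiff_pd hf μ) (contDiff_pd hg μ)]
    rfl

/-- PROOF. As `Fam.add` in P00 (`pdl_add`, `Mom.add`). -/
theorem RFI.add {ϖ : I → X} {F F' : I → V N → ℂ} (h : RFI P ϖ F) (h' : RFI P ϖ F') :
    RFI P ϖ fun i y => F i y + F' i y := by
  refine ⟨fun i => (h.smooth i).add (h'.smooth i), fun l R => ?_⟩
  obtain ⟨Φ, hΦ, h1⟩ := h.bd l R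
  obtain ⟨Ψ, hΨ, h2⟩ := h'.bd l R
  refine ⟨_, hΦ.add hΨ, fun i y hy => ?_⟩
  rw [pdl_add l (h.smooth i) (h'.smooth i)]
  exact (norm_add_le _ _).trans (add_le_add (h1 i y hy) (h2 i y hy))

theorem P14A_pd {ϖ : I → X} {F : I → V N → ℂ} (h : RFI P ϖ F) (μ : Fin N) :
    RFI P ϖ fun i => pd μ (F i) :=
  ⟨fun i => contDiff_pd (h.smooth i) μ, fun l R => h.bd (μ :: l) R⟩

theorem P14A_mul (l : List (Fin N)) (R : ℝ) {ϖ : I → X} : ∀ {F F' : I → V N → ℂ},
    RFI P ϖ F → RFI P ϖ F' → ∃ Φ, Mom P Φ ∧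
      ∀ i y, ‖y‖ ≤ R → ‖pdl l (fun y => F i y * F' i y) y‖ ≤ Φ (ϖ i) := by
  induction l with
  | nil =>
    intro F F' h h'
    obtain ⟨Φ, hΦ, h1⟩ := h.bd [] R
    obtain ⟨Ψ, hΨ, h2⟩ := h'.bd [] R
    refine ⟨_, hΦ.mul hΨ, fun i y hy => ?_⟩
    change ‖F i y * F' i y‖ ≤ _
    rw [norm_mul]
    exact mul_le_mul (h1 i y hy) (h2 i y hy) (norm_nonneg _) (hΦ.nonneg _)
  | cons μ l ih =>
    intro F F' h h'
    obtain ⟨Φ, hΦ, h1⟩ := ih h (P14A_pd h' μ)
    obtain ⟨Ψ, hΨ, h2⟩ := ih h' (P14A_pd h μ)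
    refine ⟨_, hΦ.add hΨ, fun i y hy => ?_⟩
    change ‖pdl l (pd μ fun y => F i y * F' i y) y‖ ≤ _
    have h3 : (pd μ fun y => F i y * F' i y) =
        fun y => F i y * pd μ (F' i) y + F' i y * pd μ (F i) y := by
      funext y
      unfold pd
      rw [fderiv_fun_mul ((h.smooth i).differentiable (by simp) y)
        ((h'.smooth i).differentiable (by simp) y)]
      rfl
    rw [h3, pdl_add l ((h.smooth i).mul (contDiff_pd (h'.smooth i) μ))
      ((h'.smooth i).mul (contDiff_pd (h.smooth i) μ))]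
    exact (norm_add_le _ _).trans (add_le_add (h1 i y hy) (h2 i y hy))

/-- PROOF. As `Fam.mul` / `pvl_mul_bd` in P00: induction on `l`, `pd μ (f g) = f pd μ g + g pd μ f`, `pdl_add`,
and `pd μ` of a family `RFI` is a family `RFI`. -/
theorem RFI.mul {ϖ : I → X} {F F' : I → V N → ℂ} (h : RFI P ϖ F) (h' : RFI P ϖ F') :
    RFI P ϖ fun i y => F i y * F' i y := by
  exact ⟨fun i => (h.smooth i).mul (h'.smooth i), fun l R => P14A_mul l R h h'⟩

theorem P14A_zero (l : List (Fin N)) : pdl l (fun _ : V N => (0 : ℂ)) = fun _ => 0 := by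
  induction l with
  | nil => rfl
  | cons μ l ih =>
    change pdl l (pd μ fun _ => (0 : ℂ)) = _
    have h1 : (pd μ fun _ : V N => (0 : ℂ)) = fun _ => 0 := by
      funext y
      unfold pd
      simp
    rw [h1, ih]

theorem P14A_const {ϖ : I → X} {a : I → ℂ} {A : ℝ} (hA : ∀ i, ‖a i‖ ≤ A) :
    RFI P ϖ fun (i : I) (_ : V N) => a i := by
  refine ⟨fun i => contDiff_const, fun l R => ?_⟩
  cases l with
  | nil =>
    exact ⟨_, Mom.const (le_max_right A 0), fun i y _ => (hA i).trans (le_max_left A 0)⟩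
  | cons μ l =>
    refine ⟨_, Mom.const le_rfl, fun i y _ => ?_⟩
    change ‖pdl l (pd μ fun _ => a i) y‖ ≤ 0
    have h1 : (pd μ fun _ : V N => a i) = fun _ => 0 := by
      funext y
      unfold pd
      simp
    rw [h1, P14A_zero, norm_zero]

theorem RFI.sum {ϖ : I → X} {κ : Type*} (s : Finset κ) {F : κ → I → V N → ℂ}
    (h : ∀ k ∈ s, RFI P ϖ (F k)) : RFI P ϖ fun i y => ∑ k ∈ s, F k i y := by
  classical
  induction s using Finset.induction_on with
  | empty =>
    simp only [Finset.sum_empty]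
    exact P14A_const (a := fun _ => 0) (A := 0) fun _ => norm_zero.le
  | insert k s hk ih =>
    simp only [Finset.sum_insert hk]
    exact (h k (Finset.mem_insert_self _ _)).add (ih fun j hj => h j (Finset.mem_insert_of_mem hj))

/-- PROOF. `pdl l` of a constant function is `0` for `l ≠ []`. -/
theorem RFI.const {ϖ : I → X} {a : I → ℂ} {A : ℝ} (hA : ∀ i, ‖a i‖ ≤ A) :
    RFI P ϖ fun (i : I) (_ : V N) => a i := by
  exact P14A_const hA

theorem P14B_norm_bv (μ : Fin N) : ‖(bv μ : V N)‖ = 1 := by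
  unfold bv
  rw [PiLp.norm_single, norm_one]

theorem P14B_norm_iter_pd_le (μ : Fin N) {f : V N → ℂ} (hf : ContDiff ℝ ∞ f) (n : ℕ) (y : V N) :
    ‖iteratedFDeriv ℝ n (pd μ f) y‖ ≤ ‖iteratedFDeriv ℝ (n + 1) f y‖ := by
  have h1 : pd μ f = (ContinuousLinearMap.apply ℝ ℂ (bv μ)) ∘ (fderiv ℝ f) := rfl
  have h3 : ContDiff ℝ ∞ (fderiv ℝ f) := hf.fderiv_right (m := ∞) (by simp)
  have h4 : ‖ContinuousLinearMap.apply ℝ ℂ (bv μ : V N)‖ ≤ 1 := by
    refine ContinuousLinearMap.opNorm_le_bound _ zero_le_one fun L => ?_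
    rw [ContinuousLinearMap.apply_apply, one_mul]
    refine (L.le_opNorm _).trans ?_
    rw [P14B_norm_bv, mul_one]
  rw [h1]
  refine (ContinuousLinearMap.norm_iteratedFDeriv_comp_left
    (ContinuousLinearMap.apply ℝ ℂ (bv μ : V N)) (N := ∞) (n := n) h3.contDiffAt
    (by exact_mod_cast le_top)).trans ?_
  rw [norm_iteratedFDeriv_fderiv]
  exact (mul_le_mul_of_nonneg_right h4 (norm_nonneg _)).trans_eq (one_mul _)

/-- PROOF. Induction on `l`: `pdl (μ :: l) f = pdl l (pd μ f)`; `‖iteratedFDeriv n (pd μ f) y‖ ≤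
‖iteratedFDeriv (n+1) f y‖` (`ContinuousLinearMap.norm_iteratedFDeriv_comp_left` for the evaluation at `bv μ`, norm
`≤ 1`, and `norm_iteratedFDeriv_fderiv`). -/
theorem norm_pdl_le (l : List (Fin N)) {f : V N → ℂ} (hf : ContDiff ℝ ∞ f) (y : V N) :
    ‖pdl l f y‖ ≤ ‖iteratedFDeriv ℝ l.length f y‖ := by
  induction l generalizing f with
  | nil =>
    change ‖f y‖ ≤ ‖iteratedFDeriv ℝ 0 f y‖
    rw [norm_iteratedFDeriv_zero]
  | cons μ l ih =>
    exact (ih (contDiff_pd hf μ)).trans (P14B_norm_iter_pd_le μ hf l.length y)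

/-- PROOF. `norm_pdl_le` and `ContinuousLinearMap.norm_iteratedFDeriv_comp_left` for `Complex.ofRealCLM`; `Mom` from
`RForm.mom R l.length`. -/
theorem rf_form {Ω : X → V N → Mt N} (h : RForm P Ω) (μ ν : Fin N) :
    RF P fun x y => (Ω x y μ ν : ℂ) := by
  have hs : ∀ x, ContDiff ℝ ∞ fun y => (Ω x y μ ν : ℂ) := fun x =>
    Complex.ofRealCLM.contDiff.comp ((h.closed x).smooth μ ν)
  refine ⟨hs, fun l R => ?_⟩
  obtain ⟨L, hL1, hL2, hL3, hL4⟩ := h.mom R l.length
  refine ⟨L, ⟨hL1, fun x => zero_le_one.trans (hL2 x), hL3⟩, fun x y hy => ?_⟩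
  refine (norm_pdl_le l (hs x) y).trans ?_
  refine le_trans ?_ (hL4 x l.length le_rfl μ ν y hy)
  refine (ContinuousLinearMap.norm_iteratedFDeriv_comp_left Complex.ofRealCLM (N := ∞)
    (n := l.length) ((h.closed x).smooth μ ν).contDiffAt (by exact_mod_cast le_top)).trans ?_
  rw [Complex.ofRealCLM_norm, one_mul]

theorem P14B_pd_scale (μ : Fin N) {f : V N → ℂ} (hf : ContDiff ℝ ∞ f) (r : ℝ) :
    pd μ (fun y => f (r • y)) = fun y => (r : ℂ) * pd μ f (r • y) := by
  funext y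
  have h1 : HasFDerivAt f (fderiv ℝ f (r • y)) (r • y) :=
    (hf.differentiable (by simp) _).hasFDerivAt
  have h2 : HasFDerivAt (fun y : V N => r • y) (r • ContinuousLinearMap.id ℝ (V N)) y :=
    (hasFDerivAt_id y).const_smul r
  have h3 : HasFDerivAt (fun y : V N => f (r • y)) _ y := h1.comp y h2
  change fderiv ℝ (fun y => f (r • y)) y (bv μ) = (r : ℂ) * fderiv ℝ f (r • y) (bv μ)
  rw [h3.fderiv]
  change fderiv ℝ f (r • y) (r • bv μ) = _
  rw [map_smul, Complex.real_smul]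

theorem P14B_pd_const_mul (μ : Fin N) {f : V N → ℂ} (hf : ContDiff ℝ ∞ f) (c : ℂ) :
    pd μ (fun y => c * f y) = fun y => c * pd μ f y := by
  funext y
  have h1 : HasFDerivAt f (fderiv ℝ f y) y := (hf.differentiable (by simp) _).hasFDerivAt
  have h3 : HasFDerivAt (fun y : V N => c * f y) (c • fderiv ℝ f y) y := h1.const_mul c
  change fderiv ℝ (fun y => c * f y) y (bv μ) = c * fderiv ℝ f y (bv μ)
  rw [h3.fderiv]
  rfl

theorem P14B_pdl_const_mul (l : List (Fin N)) {f : V N → ℂ} (hf : ContDiff ℝ ∞ f) (c : ℂ) :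
    pdl l (fun y => c * f y) = fun y => c * pdl l f y := by
  induction l generalizing f with
  | nil => rfl
  | cons μ l ih =>
    change pdl l (pd μ fun y => c * f y) = fun y => c * pdl l (pd μ f) y
    rw [P14B_pd_const_mul μ hf c, ih (contDiff_pd hf μ)]

theorem P14B_pdl_scale (l : List (Fin N)) {f : V N → ℂ} (hf : ContDiff ℝ ∞ f) (r : ℝ) :
    pdl l (fun y => f (r • y)) = fun y => (r : ℂ) ^ l.length * pdl l f (r • y) := by
  induction l generalizing f with
  | nil =>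
    funext y
    change f (r • y) = (r : ℂ) ^ 0 * f (r • y)
    rw [pow_zero, one_mul]
  | cons μ l ih =>
    change pdl l (pd μ fun y => f (r • y)) = fun y => (r : ℂ) ^ (l.length + 1) * pdl l (pd μ f) (r • y)
    have hs : ContDiff ℝ ∞ fun y : V N => pd μ f (r • y) :=
      (contDiff_pd hf μ).comp (contDiff_id.const_smul r)
    rw [P14B_pd_scale μ hf r, P14B_pdl_const_mul l hs, ih (contDiff_pd hf μ)]
    funext y
    change (r : ℂ) * ((r : ℂ) ^ l.length * _) = _
    rw [pow_succ]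
    ring

/-- PROOF. Induction on `l` for all `f`: `pd μ (fun y => f (r • y)) = fun y => r * pd μ f (r • y)`, and `pdl l` commutes
with constant factors. -/
theorem pdl_scale (l : List (Fin N)) {f : V N → ℂ} (hf : ContDiff ℝ ∞ f) (r : ℝ) (y : V N) :
    pdl l (fun y => f (r • y)) y = (r : ℂ) ^ l.length * pdl l f (r • y) :=
  congrFun (P14B_pdl_scale l hf r) y

/-- PROOF. `pdl_scale`, `‖r • y‖ ≤ ‖y‖`, `|r| ≤ 1`. -/
theorem RF.scale {F : X → V N → ℂ} (h : RF P F) :
    RFI P (fun i : X × Set.Icc (0:ℝ) 1 => i.1) fun i y => F i.1 ((i.2 : ℝ) • y) := by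
  refine ⟨fun i => (h.smooth i.1).comp (contDiff_id.const_smul (i.2 : ℝ)), fun l R => ?_⟩
  obtain ⟨Φ, hΦ, h1⟩ := h.bd l R
  refine ⟨Φ, hΦ, ?_⟩
  rintro ⟨x, r, hr0, hr1⟩ y hy
  change ‖pdl l (fun y => F x (r • y)) y‖ ≤ Φ x
  rw [pdl_scale l (h.smooth x) r y, norm_mul, norm_pow, Complex.norm_real,
    Real.norm_of_nonneg hr0]
  have h2 : ‖r • y‖ ≤ R := by
    rw [norm_smul, Real.norm_of_nonneg hr0]
    exact (mul_le_of_le_one_left (norm_nonneg y) hr1).trans hy
  exact (mul_le_of_le_one_left (norm_nonneg _) (pow_le_one₀ hr0 hr1)).trans (h1 x _ h2)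

theorem P14B_smooth_pd_param (μ : Fin N) {f : ℝ × V N → ℂ} (hf : ContDiff ℝ ∞ f) :
    ContDiff ℝ ∞ fun p : ℝ × V N => pd μ (fun y => f (p.1, y)) p.2 := by
  have h1 : ContDiff ℝ ∞ (Function.uncurry fun (p : ℝ × V N) (v : V N) => f (p.1, v)) :=
    hf.comp ((contDiff_fst.comp contDiff_fst).prodMk contDiff_snd)
  exact (h1.fderiv (g := fun p : ℝ × V N => p.2) contDiff_snd (by simp)).clm_apply
    contDiff_const

/-- PROOF. Induction on `l` for all `f`: `fderiv_param` (G6), and `(r, y) ↦ pd μ (f (r, ·)) y` is smooth. -/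
theorem pdl_integral (l : List (Fin N)) {f : ℝ × V N → ℂ} (hf : ContDiff ℝ ∞ f) (y : V N) :
    pdl l (fun y => ∫ r in (0:ℝ)..1, f (r, y)) y = ∫ r in (0:ℝ)..1, pdl l (fun y => f (r, y)) y := by
  induction l generalizing f with
  | nil => rfl
  | cons μ l ih =>
    have h1 : pd μ (fun y => ∫ r in (0:ℝ)..1, f (r, y))
        = fun y => ∫ r in (0:ℝ)..1, (fun p : ℝ × V N => pd μ (fun y => f (p.1, y)) p.2) (r, y) := by
      funext z
      exact fderiv_param hf z (bv μ)
    change pdl l (pd μ (fun y => ∫ r in (0:ℝ)..1, f (r, y))) y = _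
    rw [h1, ih (P14B_smooth_pd_param μ hf)]
    rfl

theorem P14C_rfi {Ω : X → V N → Mt N} (h : RForm P Ω) (ν : Fin N) :
    RFI P (fun i : X × Set.Icc (0:ℝ) 1 => i.1) fun i y =>
      ((i.2 : ℝ) : ℂ) * ∑ μ, (Ω i.1 ((i.2 : ℝ) • y) μ ν : ℂ) * ((y μ : ℝ) : ℂ) := by
  refine RFI.mul (RFI.const (A := 1) fun i => ?_) (RFI.sum Finset.univ fun μ _ => RFI.mul ?_ ?_)
  · rw [Complex.norm_real, Real.norm_of_nonneg i.2.2.1]
    exact i.2.2.2
  · exact (rf_form h μ ν).scale
  · have h1 : ContDiff ℝ ∞ fun y : V N => ((y μ : ℝ) : ℂ) :=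
      Complex.ofRealCLM.contDiff.comp (EuclideanSpace.proj (𝕜 := ℝ) μ).contDiff
    exact (RF.det (P := P) h1).rfi (fun i : X × Set.Icc (0:ℝ) 1 => i.1)

theorem P14C_smooth {Ω : V N → Mt N} (h : IsClosed2 Ω) (ν : Fin N) :
    ContDiff ℝ ∞ fun p : ℝ × V N =>
      (p.1 : ℂ) * ∑ μ, (Ω (p.1 • p.2) μ ν : ℂ) * ((p.2 μ : ℝ) : ℂ) := by
  refine (Complex.ofRealCLM.contDiff.comp contDiff_fst).mul (ContDiff.sum fun μ _ => ?_)
  refine ContDiff.mul ?_ ?_
  · exact Complex.ofRealCLM.contDiff.comp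
      ((h.smooth μ ν).comp (contDiff_fst.smul contDiff_snd))
  · exact Complex.ofRealCLM.contDiff.comp
      ((EuclideanSpace.proj (𝕜 := ℝ) μ).contDiff.comp contDiff_snd)

theorem P14C_prim (Ω : V N → Mt N) (ν : Fin N) (y : V N) :
    (prim Ω ν y : ℂ) = ∫ r in (0:ℝ)..1,
      (r : ℂ) * ∑ μ, (Ω (r • y) μ ν : ℂ) * ((y μ : ℝ) : ℂ) := by
  unfold prim
  rw [← intervalIntegral.integral_ofReal]
  refine intervalIntegral.integral_congr fun r _ => ?_
  push_cast
  rfl

/-- PROOF. `(prim (Ω x) ν y : ℂ) = ∫_0^1 f (r, y) dr`, `f (r, y) = r ∑_μ Ω x (r y) μ ν y_μ` (complex valued,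
`intervalIntegral.integral_ofReal`); for `r ∈ [0, 1]` the functions `f (r, ·)` form an `RFI` with
`I = X × Icc 0 1` (`rf_form`, `RF.scale`, `RFI.mul`, `RFI.sum`, `RFI.const` for `r`, `y ↦ y_μ` deterministic:
`RF.det` and `RF.rfi`), so `‖pdl l (f (r, ·)) y‖ ≤ Φ x` for `‖y‖ ≤ R`; `pdl_integral` and
`intervalIntegral.norm_integral_le_of_norm_le_const`. Smoothness: `isPot_prim`. -/
theorem rf_prim {Ω : X → V N → Mt N} (h : RForm P Ω) (ν : Fin N) :
    RF P fun x y => (prim (Ω x) ν y : ℂ) := by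
  refine ⟨fun x => Complex.ofRealCLM.contDiff.comp (isPot_prim (h.closed x) ν), fun l R => ?_⟩
  obtain ⟨Φ, hΦ, h1⟩ := (P14C_rfi h ν).bd l R
  refine ⟨Φ, hΦ, fun x y hy => ?_⟩
  have h2 : (fun y => (prim (Ω x) ν y : ℂ)) = fun y => ∫ r in (0:ℝ)..1,
      (fun p : ℝ × V N => (p.1 : ℂ) * ∑ μ, (Ω x (p.1 • p.2) μ ν : ℂ) * ((p.2 μ : ℝ) : ℂ)) (r, y) :=
    funext fun z => P14C_prim (Ω x) ν z
  rw [h2, pdl_integral l (P14C_smooth (h.closed x) ν) y]
  refine (intervalIntegral.norm_integral_le_of_norm_le_const (C := Φ x) fun r hr => ?_).trans ?_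
  · rw [Set.uIoc_of_le zero_le_one] at hr
    exact h1 (x, ⟨r, hr.1.le, hr.2⟩) y hy
  · rw [sub_zero, abs_one, mul_one]

end Pool.Agent.Lib.MP_df705a_gt.RL
end
end
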