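import Pool.Agent.Lib.MP_df705a_gt.Mg.G030
import Pool.Agent.Lib.MP_df705a_gt.Mg.G043
import Pool.Agent.Lib.MP_df705a_gt.Mg.G038

section

/-!
# RL2: the parametrix as a structure (interface between the parametrix and the `L²` part)
-/

open scoped ContDiff InnerProductSpace Matrix ENNReal Topology
open MeasureTheory Filter

noncomputable section

namespace Pool.Agent.Lib.MP_df705a_gt.RL

variable {m : ℕ}

/-- The reference Gaussian. -/
def gz (m : ℕ) (c : ℝ) (v : V (2 * m)) (r : ℝ) : ℝ := (r ^ m)⁻¹ * Real.exp (-(c * ‖v‖ ^ 2 / r))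

/-- A parametrix for the heat equation of `D²`, `D = dirac g B`, at the points `z` of the ball of
radius `ρ`; `c` is the constant in the bounds, `κ` the rate of decay. -/
structure ParaX (C : Cliff m) (g : Geo (2 * m)) (B : Pot (2 * m)) (ρ c κ : ℝ) where
  q : ℝ → V (2 * m) → V (2 * m) → En m
  qd : ℝ → V (2 * m) → V (2 * m) → En m
  e : ℝ → V (2 * m) → V (2 * m) → En m
  κ_pos : 0 < κ
  c_pos : 0 < c
  cont_q : ContinuousOn (fun p : ℝ × V (2 * m) × V (2 * m) => q p.1 p.2.1 p.2.2) {p | 0 < p.1}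
  cont_qd : ContinuousOn (fun p : ℝ × V (2 * m) × V (2 * m) => qd p.1 p.2.1 p.2.2) {p | 0 < p.1}
  cont_e : ContinuousOn (fun p : ℝ × V (2 * m) × V (2 * m) => e p.1 p.2.1 p.2.2) {p | 0 < p.1}
  smooth : ∀ r z, 0 < r → ContDiff ℝ ∞ (q r z)
  supp : ∀ r z y, 1 < ‖y - z‖ → q r z y = 0 ∧ qd r z y = 0 ∧ e r z y = 0
  deriv : ∀ r z y, 0 < r → HasDerivAt (fun r => q r z y) (qd r z y) r
  heat : ∀ r z y u, 0 < r →
    e r z y u = qd r z y u + C.dirac g B (C.dirac g B fun y => q r z y u) y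
  bd_q : ∀ r z y, ‖z‖ ≤ ρ → 0 < r → r ≤ 1 → ‖q r z y‖ ≤ c * gz m κ (y - z) r
  bd_qd : ∀ r z y, ‖z‖ ≤ ρ → 0 < r → r ≤ 1 → ‖qd r z y‖ ≤ c * (r⁻¹ * gz m κ (y - z) r)
  bd_e : ∀ r z y, ‖z‖ ≤ ρ → 0 < r → r ≤ 1 →
    ‖e r z y‖ ≤ c * (r⁻¹ * (√r) ^ (2 * m + 1) * gz m κ (y - z) r)
  delta : ∀ (z : V (2 * m)) (φ : V (2 * m) → Sp m), ‖z‖ ≤ ρ → Continuous φ → HasCompactSupport φ →
    Tendsto (fun r => ∫ y, adj (q r z y) (φ y) ∂g.vol) (𝓝[>] 0) (𝓝 (φ z))

end Pool.Agent.Lib.MP_df705a_gt.RL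
end
end

section

/-!
# RL2: the parametrix in `L²`
-/

open scoped ContDiff InnerProductSpace Matrix ENNReal Topology Real
open MeasureTheory Filter

noncomputable section

set_option linter.unusedSectionVars false

namespace Pool.Agent.Lib.MP_df705a_gt.RL

variable {m : ℕ} {C : Cliff m} {g : Geo (2 * m)} {B : Pot (2 * m)} {ρ c κ : ℝ}

/-! ### integrals of the reference Gaussian against the Riemannian measure -/

private theorem PL1_int (m : ℕ) {κ r : ℝ} (hκ : 0 < κ) (hr : 0 < r) (z : V (2 * m)) :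
    Integrable (fun y => gz m κ (y - z) r ^ 2) ∧
      ∫ y, gz m κ (y - z) r ^ 2 = (π / (2 * κ)) ^ m * (r ^ m)⁻¹ := by
  have hb : 0 < 2 * κ / r := by positivity
  have hI : ∫ v : V (2 * m), Real.exp (-(2 * κ / r) * ‖v‖ ^ 2) = (π / (2 * κ / r)) ^ m := by
    rw [GaussianFourier.integral_rexp_neg_mul_sq_norm hb, finrank_euclideanSpace_fin]
    rw [show ((2 * m : ℕ) : ℝ) / 2 = (m : ℝ) by push_cast; ring, Real.rpow_natCast]
  have hi : Integrable fun v : V (2 * m) => Real.exp (-(2 * κ / r) * ‖v‖ ^ 2) := by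
    by_contra h
    rw [integral_undef h] at hI
    have : 0 < (π / (2 * κ / r)) ^ m := by positivity
    exact this.ne hI
  have he : (fun v : V (2 * m) => gz m κ v r ^ 2) =
      fun v => ((r ^ m)⁻¹) ^ 2 * Real.exp (-(2 * κ / r) * ‖v‖ ^ 2) := by
    funext v
    rw [gz, mul_pow, ← Real.exp_nat_mul]
    congr 2
    push_cast
    ring
  have hi' : Integrable fun v : V (2 * m) => gz m κ v r ^ 2 := by
    rw [he]
    exact hi.const_mul _
  refine ⟨hi'.comp_sub_right z, ?_⟩
  rw [integral_sub_right_eq_self (fun v : V (2 * m) => gz m κ v r ^ 2) z, he, integral_const_mul,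
    hI]
  have hrm : r ^ m ≠ 0 := by positivity
  rw [div_div_eq_mul_div, div_pow, mul_pow, div_pow]
  field_simp

/-- PROOF. `integral_vol`-free version: the set is contained in the ball of radius `ρ + 1`, where the density `det θ` is
bounded by a constant `D` (`contDiff_det`, compactness); `∫ gz² ≤ D r^{-2m} (π r / (2κ))^m = D (π/(2κ))^m (r^m)⁻¹`
(`GaussianFourier.integral_rexp_neg_mul_sq_norm` with `b = 2κ/r`, translation invariance). -/
theorem integral_gz_vol (g : Geo (2 * m)) (ρ : ℝ) {κ : ℝ} (hκ : 0 < κ) : ∃ K : ℝ, 0 ≤ K ∧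
    ∀ (z : V (2 * m)) (r : ℝ), ‖z‖ ≤ ρ → 0 < r →
      Integrable (fun y => (Metric.closedBall z 1).indicator
        (fun y => gz m κ (y - z) r ^ 2) y) g.vol ∧
      ∫ y, (Metric.closedBall z 1).indicator (fun y => gz m κ (y - z) r ^ 2) y ∂g.vol
        ≤ K * (r ^ m)⁻¹ := by
  obtain ⟨D, hD, hv⟩ := g.vol_le (ρ + 1)
  refine ⟨D * (π / (2 * κ)) ^ m, by positivity, fun z r hz hr => ?_⟩
  obtain ⟨hi, hI⟩ := PL1_int m hκ hr z
  have hle : g.vol.restrict (Metric.closedBall z 1) ≤ ENNReal.ofReal D • volume := by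
    refine (Measure.restrict_mono_set _ (Metric.closedBall_subset_closedBall' ?_)).trans (hv.trans ?_)
    · rw [dist_zero_right]
      linarith
    · refine Measure.le_iff'.2 fun s => ?_
      rw [Measure.smul_apply, Measure.smul_apply, smul_eq_mul, smul_eq_mul]
      gcongr
      exact Measure.restrict_le_self
  have hi' : Integrable (fun y => gz m κ (y - z) r ^ 2)
      (ENNReal.ofReal D • (volume : Measure (V (2 * m)))) := hi.smul_measure ENNReal.ofReal_ne_top
  rw [integrable_indicator_iff Metric.isClosed_closedBall.measurableSet,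
    integral_indicator Metric.isClosed_closedBall.measurableSet]
  refine ⟨hi'.mono_measure hle, ?_⟩
  refine (integral_mono_measure hle (Filter.Eventually.of_forall fun y => sq_nonneg _) hi').trans ?_
  rw [integral_smul_measure, ENNReal.toReal_ofReal hD, hI, smul_eq_mul, mul_assoc]

/-- If `‖f y‖ ≤ a * gz` on the unit ball around `z` and `f = 0` outside, then `‖emb f‖ ≤ K a (√r)^{-m}`.
PROOF. `norm_emb_sq`, `integral_gz_vol` (`K` is the square root of the constant there), `(√r)^(2m) = r^m`. -/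
theorem norm_emb_gz (g : Geo (2 * m)) (ρ : ℝ) {κ : ℝ} (hκ : 0 < κ) : ∃ K : ℝ, 0 ≤ K ∧
    ∀ (z : V (2 * m)) (r a : ℝ) (f : V (2 * m) → Sp m), ‖z‖ ≤ ρ → 0 < r → 0 ≤ a →
      AEStronglyMeasurable f g.vol → (∀ y, 1 < ‖y - z‖ → f y = 0) →
      (∀ y, ‖f y‖ ≤ a * gz m κ (y - z) r) →
        MemLp f 2 g.vol ∧ ‖g.emb f‖ ≤ K * a * ((√r) ^ m)⁻¹ := by
  obtain ⟨K, hK, h⟩ := integral_gz_vol g ρ hκ
  obtain ⟨K', hK', h'⟩ := g.norm_emb_le (ρ + 1)
  refine ⟨√K, Real.sqrt_nonneg K, fun z r a f hz hr ha hm h0 hb => ?_⟩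
  have hrm : 0 < (r ^ m)⁻¹ := by positivity
  have hgz0 : ∀ y, 0 ≤ gz m κ (y - z) r := fun y => by
    unfold gz
    positivity
  have hgz : ∀ y, gz m κ (y - z) r ≤ (r ^ m)⁻¹ := fun y => by
    unfold gz
    refine mul_le_of_le_one_right hrm.le (Real.exp_le_one_iff.2 ?_)
    rw [neg_nonpos]
    positivity
  have hL : MemLp f 2 g.vol := by
    refine (h' f (a * (r ^ m)⁻¹) (by positivity) hm (fun y hy => h0 y ?_) fun y => ?_).1
    · have := norm_sub_norm_le y z
      linarith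
    · exact (hb y).trans (mul_le_mul_of_nonneg_left (hgz y) ha)
  refine ⟨hL, le_of_sq_le_sq ?_ (by positivity)⟩
  obtain ⟨hi, hI⟩ := h z r hz hr
  rw [g.norm_emb_sq hL]
  have h1 : ∫ y, ‖f y‖ ^ 2 ∂g.vol ≤ ∫ y, a ^ 2 * (Metric.closedBall z 1).indicator
      (fun y => gz m κ (y - z) r ^ 2) y ∂g.vol := by
    refine integral_mono_of_nonneg (Filter.Eventually.of_forall fun y => sq_nonneg _)
      (hi.const_mul _) (Filter.Eventually.of_forall fun y => ?_)
    show ‖f y‖ ^ 2 ≤ a ^ 2 * (Metric.closedBall z 1).indicator (fun y => gz m κ (y - z) r ^ 2) y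
    by_cases hy : y ∈ Metric.closedBall z 1
    · rw [Set.indicator_of_mem hy, ← mul_pow]
      exact pow_le_pow_left₀ (norm_nonneg _) (hb y) 2
    · rw [Set.indicator_of_notMem hy, h0 y]
      · simp
      · rw [Metric.mem_closedBall, dist_eq_norm] at hy
        exact not_le.1 hy
  rw [integral_const_mul] at h1
  refine h1.trans ((mul_le_mul_of_nonneg_left hI (sq_nonneg a)).trans (le_of_eq ?_))
  rw [mul_pow, mul_pow, Real.sq_sqrt hK, inv_pow, ← pow_mul, mul_comm m 2, pow_mul,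
    Real.sq_sqrt hr.le]
  ring

namespace ParaX

/-! ### regularity -/

theorem PL2_app {A : V (2 * m) → En m} (hA : ContDiff ℝ ∞ A) (u : Sp m) :
    ContDiff ℝ ∞ fun y => A y u :=
  ((ContinuousLinearMap.apply ℂ (Sp m) u).restrictScalars ℝ).contDiff.comp hA

theorem PL2_supp {φ : V (2 * m) → Sp m} (z : V (2 * m)) (h : ∀ y, 1 < ‖y - z‖ → φ y = 0) :
    HasCompactSupport φ := by
  refine HasCompactSupport.intro (isCompact_closedBall z 1) fun y hy => h y ?_
  rw [Metric.mem_closedBall, dist_eq_norm, not_le] at hy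
  exact hy

theorem isTF_q (p : ParaX C g B ρ c κ) {r : ℝ} (hr : 0 < r) (z : V (2 * m)) (u : Sp m) :
    IsTF fun y => p.q r z y u := by
  refine ⟨PL2_app (p.smooth r z hr) u, PL2_supp z fun y hy => ?_⟩
  rw [(p.supp r z y hy).1]
  rfl

/-- PROOF. `qd` and `e` are continuous in `y` for fixed `r`, `z` (`cont_qd`, `cont_e`), zero outside the ball. -/
theorem cc (p : ParaX C g B ρ c κ) {r : ℝ} (hr : 0 < r) (z : V (2 * m)) (u : Sp m) :
    (Continuous fun y => p.qd r z y u) ∧ (HasCompactSupport fun y => p.qd r z y u) ∧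
    (Continuous fun y => p.e r z y u) ∧ HasCompactSupport fun y => p.e r z y u := by
  have hc : Continuous fun y : V (2 * m) => ((r, z, y) : ℝ × V (2 * m) × V (2 * m)) := by
    fun_prop
  refine ⟨?_, PL2_supp z fun y hy => ?_, ?_, PL2_supp z fun y hy => ?_⟩
  · exact (p.cont_qd.comp_continuous hc fun _ => hr).clm_apply continuous_const
  · rw [(p.supp r z y hy).2.1]
    rfl
  · exact (p.cont_e.comp_continuous hc fun _ => hr).clm_apply continuous_const
  · rw [(p.supp r z y hy).2.2]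
    rfl

theorem memLp (p : ParaX C g B ρ c κ) {r : ℝ} (hr : 0 < r) (z : V (2 * m)) (u : Sp m) :
    MemLp (fun y => p.q r z y u) 2 g.vol ∧ MemLp (fun y => p.qd r z y u) 2 g.vol ∧
    MemLp (fun y => p.e r z y u) 2 g.vol := by
  obtain ⟨h1, h2, h3, h4⟩ := p.cc hr z u
  exact ⟨g.memLp_tf (p.isTF_q hr z u), g.memLp_cc h1 h2, g.memLp_cc h3 h4⟩

/-- PROOF. Definition of `gr`; `isTF_q`, `isTF_dirac`. -/
theorem mem_gr (hB : IsPot B) (p : ParaX C g B ρ c κ) {r : ℝ} (hr : 0 < r) (z : V (2 * m))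
    (u : Sp m) :
    (g.emb (fun y => p.q r z y u), g.emb (C.dirac g B fun y => p.q r z y u)) ∈ C.gr g B ∧
    (g.emb (C.dirac g B fun y => p.q r z y u),
      g.emb (C.dirac g B (C.dirac g B fun y => p.q r z y u))) ∈ C.gr g B := by
  exact ⟨⟨_, p.isTF_q hr z u, rfl⟩, ⟨_, isTF_dirac C g hB (p.isTF_q hr z u), rfl⟩⟩

/-- PROOF. `heat`, `emb_add`. -/
theorem emb_heat (hB : IsPot B) (p : ParaX C g B ρ c κ) {r : ℝ} (hr : 0 < r) (z : V (2 * m))
    (u : Sp m) :
    g.emb (fun y => p.e r z y u) = g.emb (fun y => p.qd r z y u)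
      + g.emb (C.dirac g B (C.dirac g B fun y => p.q r z y u)) := by
  have h1 : (fun y => p.e r z y u) = (fun y => p.qd r z y u)
      + C.dirac g B (C.dirac g B fun y => p.q r z y u) := by
    funext y
    exact p.heat r z y u hr
  rw [h1]
  exact g.emb_add (p.memLp hr z u).2.1
    (g.memLp_tf (isTF_dirac C g hB (isTF_dirac C g hB (p.isTF_q hr z u))))

/-! ### dependence on the time -/

theorem PL3_unif {f : ℝ → V (2 * m) → Sp m} {R : ℝ}
    (hf : ContinuousOn (fun p : ℝ × V (2 * m) => f p.1 p.2) {p | 0 < p.1})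
    (h0 : ∀ r y, 0 < r → R < ‖y‖ → f r y = 0) {r : ℝ} (hr : 0 < r) {ε : ℝ} (hε : 0 < ε) :
    ∃ δ : ℝ, 0 < δ ∧ δ ≤ r / 2 ∧ ∀ r', |r' - r| < δ → ∀ y, ‖f r' y - f r y‖ ≤ ε := by
  have hK : IsCompact (Set.Icc (r / 2) (2 * r) ×ˢ Metric.closedBall (0 : V (2 * m)) R) :=
    isCompact_Icc.prod (isCompact_closedBall _ _)
  have hu := hK.uniformContinuousOn_of_continuous (hf.mono fun p hp => by
    have := hp.1.1
    show 0 < p.1
    linarith)
  obtain ⟨δ, hδ, h⟩ := Metric.uniformContinuousOn_iff.1 hu ε hε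
  refine ⟨min δ (r / 2), lt_min hδ (by linarith), min_le_right _ _, fun r' hr' y => ?_⟩
  have h1 := hr'.trans_le (min_le_left _ _)
  have h2 := abs_lt.1 (hr'.trans_le (min_le_right _ _))
  have hr0 : 0 < r' := by linarith
  rcases lt_or_ge R ‖y‖ with hy | hy
  · rw [h0 r' y hr0 hy, h0 r y hr hy, sub_zero, norm_zero]
    exact hε.le
  · have hm : y ∈ Metric.closedBall (0 : V (2 * m)) R := by
      rwa [mem_closedBall_zero_iff]
    have h3 := h (r', y) ⟨⟨by linarith, by linarith⟩, hm⟩ (r, y) ⟨⟨by linarith, by linarith⟩, hm⟩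
      (by
        rw [Prod.dist_eq, dist_self, Real.dist_eq]
        exact max_lt h1 hδ)
    rw [dist_eq_norm] at h3
    exact h3.le

theorem PL3_memLp {f : ℝ → V (2 * m) → Sp m} {R : ℝ}
    (hf : ContinuousOn (fun p : ℝ × V (2 * m) => f p.1 p.2) {p | 0 < p.1})
    (h0 : ∀ r y, 0 < r → R < ‖y‖ → f r y = 0) {r : ℝ} (hr : 0 < r) :
    MemLp (f r) 2 g.vol := by
  refine g.memLp_cc ?_ ?_
  · have hc : Continuous fun y : V (2 * m) => ((r, y) : ℝ × V (2 * m)) := by
      fun_prop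
    exact hf.comp_continuous hc fun _ => hr
  · refine HasCompactSupport.intro (isCompact_closedBall (0 : V (2 * m)) R) fun y hy =>
      h0 r y hr ?_
    rw [mem_closedBall_zero_iff, not_le] at hy
    exact hy

/-- A jointly continuous function on `(0, ∞) × V` which vanishes outside a fixed ball is continuous in
`r > 0` with values in `L²`.
PROOF. Uniform continuity on compact sets `[a, b] × closedBall`: `sup_y ‖f r y - f r' y‖ → 0` as `r' → r`;
`norm_emb_le` (Base2) for `f r' - f r`. -/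
theorem continuousOn_emb {f : ℝ → V (2 * m) → Sp m} {R : ℝ}
    (hf : ContinuousOn (fun p : ℝ × V (2 * m) => f p.1 p.2) {p | 0 < p.1})
    (h0 : ∀ r y, 0 < r → R < ‖y‖ → f r y = 0) :
    ContinuousOn (fun r => g.emb (f r)) (Set.Ioi 0) := by
  obtain ⟨K, hK, hK1⟩ := g.norm_emb_le R
  intro r hr
  have hr : 0 < r := hr
  refine ContinuousAt.continuousWithinAt ?_
  rw [Metric.continuousAt_iff]
  intro ε hε
  obtain ⟨δ, hδ, hδr, h1⟩ := PL3_unif hf h0 hr (div_pos hε (by positivity : 0 < 2 * (K + 1)))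
  refine ⟨δ, hδ, fun {r'} hr' => ?_⟩
  rw [Real.dist_eq] at hr'
  have hr0 : 0 < r' := by
    have := (abs_lt.1 hr').1
    linarith
  have hm := PL3_memLp (g := g) hf h0 hr
  have hm' := PL3_memLp (g := g) hf h0 hr0
  rw [dist_eq_norm, ← g.emb_sub hm' hm]
  have h2 := (hK1 (f r' - f r) (ε / (2 * (K + 1))) (by positivity)
    (hm'.sub hm).aestronglyMeasurable (fun y hy => by
      rw [Pi.sub_apply, h0 r' y hr0 hy, h0 r y hr hy, sub_zero]) fun y => h1 r' hr' y).2
  refine h2.trans_lt ?_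
  rw [mul_div_assoc', div_lt_iff₀ (by positivity)]
  nlinarith

/-- If moreover `f' r y` is the derivative in `r`, then `emb (f r)` is differentiable with derivative `emb (f' r)`.
PROOF. `‖f r' y - f r y - (r' - r) f' r y‖ ≤ |r' - r| sup_{s between} ‖f' s y - f' r y‖` (mean value inequality,
`norm_image_sub_le_of_norm_deriv_le_segment'` applied to `s ↦ f s y - s • f' r y`), and the supremum tends to `0`
uniformly in `y` (as in `continuousOn_emb`); `norm_emb_le`. -/
theorem hasDerivAt_emb' {f f' : ℝ → V (2 * m) → Sp m} {R : ℝ}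
    (hf : ContinuousOn (fun p : ℝ × V (2 * m) => f p.1 p.2) {p | 0 < p.1})
    (hf' : ContinuousOn (fun p : ℝ × V (2 * m) => f' p.1 p.2) {p | 0 < p.1})
    (h0 : ∀ r y, 0 < r → R < ‖y‖ → f r y = 0 ∧ f' r y = 0)
    (hd : ∀ r y, 0 < r → HasDerivAt (fun r => f r y) (f' r y) r) {r : ℝ} (hr : 0 < r) :
    HasDerivAt (fun r => g.emb (f r)) (g.emb (f' r)) r := by
  obtain ⟨K, hK, hK1⟩ := g.norm_emb_le R
  rw [hasDerivAt_iff_isLittleO, Asymptotics.isLittleO_iff]
  intro ε hε
  obtain ⟨δ, hδ, hδr, h1⟩ := PL3_unif hf' (fun r y hr hy => (h0 r y hr hy).2) hr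
    (div_pos hε (by positivity : 0 < K + 1))
  filter_upwards [Metric.ball_mem_nhds r hδ] with r' hr'
  rw [Metric.mem_ball, Real.dist_eq] at hr'
  have hr0 : 0 < r' := by
    have := (abs_lt.1 hr').1
    linarith
  have hm := PL3_memLp (g := g) hf (fun r y hr hy => (h0 r y hr hy).1) hr
  have hm' := PL3_memLp (g := g) hf (fun r y hr hy => (h0 r y hr hy).1) hr0
  have hmd := PL3_memLp (g := g) hf' (fun r y hr hy => (h0 r y hr hy).2) hr
  have e1 : g.emb (f r') - g.emb (f r) - (r' - r) • g.emb (f' r)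
      = g.emb (f r' - f r - ((r' - r : ℝ) : ℂ) • f' r) := by
    rw [g.emb_sub (hm'.sub hm) (hmd.const_smul _), g.emb_sub hm' hm, g.emb_smul hmd]
    rfl
  rw [e1]
  have h2 : ∀ y, ‖(f r' - f r - ((r' - r : ℝ) : ℂ) • f' r) y‖ ≤ ε / (K + 1) * |r' - r| := by
    intro y
    have hder : ∀ s ∈ Metric.ball r δ, HasDerivWithinAt (fun s => f s y - s • f' r y)
        (f' s y - (1 : ℝ) • f' r y) (Metric.ball r δ) s := by
      intro s hs
      rw [Metric.mem_ball, Real.dist_eq] at hs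
      have hs0 : 0 < s := by
        have := (abs_lt.1 hs).1
        linarith
      exact ((hd s y hs0).sub ((hasDerivAt_id s).smul_const (f' r y))).hasDerivWithinAt
    have hbd : ∀ s ∈ Metric.ball r δ, ‖f' s y - (1 : ℝ) • f' r y‖ ≤ ε / (K + 1) := by
      intro s hs
      rw [Metric.mem_ball, Real.dist_eq] at hs
      rw [one_smul]
      exact h1 s hs y
    have h3 := (convex_ball r δ).norm_image_sub_le_of_norm_hasDerivWithin_le hder hbd
      (Metric.mem_ball_self hδ) (by rw [Metric.mem_ball, Real.dist_eq]; exact hr' : r' ∈ _)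
    have h4 : (f r' - f r - ((r' - r : ℝ) : ℂ) • f' r) y
        = f r' y - r' • f' r y - (f r y - r • f' r y) := by
      have e : (((r' - r : ℝ) : ℂ) • f' r) y = (r' - r) • f' r y :=
        (RCLike.real_smul_eq_coe_smul (K := ℂ) _ _).symm
      rw [Pi.sub_apply, Pi.sub_apply, e, sub_smul]
      abel
    rw [h4]
    exact h3
  have h5 := (hK1 (f r' - f r - ((r' - r : ℝ) : ℂ) • f' r) (ε / (K + 1) * |r' - r|)
    (by positivity) ((hm'.sub hm).sub (hmd.const_smul _)).aestronglyMeasurable (fun y hy => by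
      rw [Pi.sub_apply, Pi.sub_apply, Pi.smul_apply, (h0 r' y hr0 hy).1, (h0 r y hr hy).1,
        (h0 r y hr hy).2, smul_zero, sub_zero, sub_zero]) h2).2
  refine h5.trans ?_
  rw [Real.norm_eq_abs, ← mul_assoc]
  refine mul_le_mul_of_nonneg_right ?_ (abs_nonneg _)
  rw [mul_div_assoc', div_le_iff₀ (by positivity)]
  nlinarith

theorem PL3_joint {q : ℝ → V (2 * m) → V (2 * m) → En m}
    (hq : ContinuousOn (fun p : ℝ × V (2 * m) × V (2 * m) => q p.1 p.2.1 p.2.2) {p | 0 < p.1})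
    (z : V (2 * m)) (u : Sp m) :
    ContinuousOn (fun p : ℝ × V (2 * m) => q p.1 z p.2 u) {p | 0 < p.1} := by
  have hc : ContinuousOn (fun p : ℝ × V (2 * m) => ((p.1, z, p.2) : ℝ × V (2 * m) × V (2 * m)))
      {p | 0 < p.1} := by
    fun_prop
  exact (hq.comp hc fun p hp => hp).clm_apply continuousOn_const

theorem PL3_far {z y : V (2 * m)} (hy : ‖z‖ + 1 < ‖y‖) : 1 < ‖y - z‖ := by
  have := norm_sub_norm_le y z
  linarith

/-- PROOF. `hasDerivAt_emb'` with `R = ‖z‖ + 1`. -/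
theorem hasDerivAt_emb (p : ParaX C g B ρ c κ) {r : ℝ} (hr : 0 < r) (z : V (2 * m)) (u : Sp m) :
    HasDerivAt (fun r => g.emb fun y => p.q r z y u) (g.emb fun y => p.qd r z y u) r := by
  refine hasDerivAt_emb' (R := ‖z‖ + 1) (f := fun r y => p.q r z y u)
    (f' := fun r y => p.qd r z y u) (PL3_joint p.cont_q z u) (PL3_joint p.cont_qd z u) ?_ ?_ hr
  · intro r y _ hy
    have h := p.supp r z y (PL3_far hy)
    exact ⟨by rw [h.1]; rfl, by rw [h.2.1]; rfl⟩
  · intro r y hr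
    exact ((ContinuousLinearMap.apply ℂ (Sp m) u).restrictScalars ℝ).hasFDerivAt.comp_hasDerivAt r
      (p.deriv r z y hr)

/-- PROOF. `continuousOn_emb` with `R = ‖z‖ + 1`. -/
theorem continuousOn_emb_e (p : ParaX C g B ρ c κ) (z : V (2 * m)) (u : Sp m) :
    ContinuousOn (fun r => g.emb fun y => p.e r z y u) (Set.Ioi 0) := by
  refine continuousOn_emb (R := ‖z‖ + 1) (f := fun r y => p.e r z y u)
    (PL3_joint p.cont_e z u) ?_
  intro r y _ hy
  rw [(p.supp r z y (PL3_far hy)).2.2]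
  rfl

/-! ### bounds -/

/-- PROOF. `norm_emb_gz` with `a = c ‖u‖` and `a = c r⁻¹ (√r)^(2m+1) ‖u‖`; `r⁻¹ (√r)^(2m+1) ((√r)^m)⁻¹ =
(√r)⁻¹ (√r)^m`. -/
theorem norm_emb (g : Geo (2 * m)) (ρ : ℝ) {κ : ℝ} (hκ : 0 < κ) : ∃ K : ℝ, 0 ≤ K ∧
    ∀ (C : Cliff m) (B : Pot (2 * m)) (c : ℝ) (p : ParaX C g B ρ c κ) (z : V (2 * m)) (u : Sp m)
      (r : ℝ), ‖z‖ ≤ ρ → 0 < r → r ≤ 1 →
      ‖g.emb fun y => p.q r z y u‖ ≤ K * c * ((√r) ^ m)⁻¹ * ‖u‖ ∧
      ‖g.emb fun y => p.e r z y u‖ ≤ K * c * ((√r)⁻¹ * (√r) ^ m) * ‖u‖ := by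
  obtain ⟨K, hK, h⟩ := norm_emb_gz g ρ hκ
  refine ⟨K, hK, fun C B c p z u r hz hr hr1 => ?_⟩
  have hc := p.c_pos
  have hs : 0 < √r := Real.sqrt_pos.2 hr
  obtain ⟨h1, -, h3⟩ := p.memLp hr z u
  constructor
  · refine (h z r (c * ‖u‖) _ hz hr (by positivity) h1.1 (fun y hy => ?_) fun y => ?_).2.trans
      (le_of_eq ?_)
    · rw [(p.supp r z y hy).1]
      rfl
    · refine ((p.q r z y).le_opNorm u).trans ?_
      refine (mul_le_mul_of_nonneg_right (p.bd_q r z y hz hr hr1) (norm_nonneg u)).trans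
        (le_of_eq ?_)
      ring
    · ring
  · refine (h z r (c * (r⁻¹ * (√r) ^ (2 * m + 1)) * ‖u‖) _ hz hr (by positivity) h3.1
      (fun y hy => ?_) fun y => ?_).2.trans (le_of_eq ?_)
    · rw [(p.supp r z y hy).2.2]
      rfl
    · refine ((p.e r z y).le_opNorm u).trans ?_
      refine (mul_le_mul_of_nonneg_right (p.bd_e r z y hz hr hr1) (norm_nonneg u)).trans
        (le_of_eq ?_)
      ring
    · have hr2 : r = √r * √r := (Real.mul_self_sqrt hr.le).symm
      have h4 : r⁻¹ * (√r) ^ (2 * m + 1) * ((√r) ^ m)⁻¹ = (√r)⁻¹ * (√r) ^ m := by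
        have h5 : r⁻¹ = (√r)⁻¹ * (√r)⁻¹ := by
          rw [← mul_inv, ← hr2]
        rw [h5, show 2 * m + 1 = m + m + 1 by omega, pow_succ, pow_add]
        field_simp
      calc K * (c * (r⁻¹ * (√r) ^ (2 * m + 1)) * ‖u‖) * ((√r) ^ m)⁻¹
          = K * c * (r⁻¹ * (√r) ^ (2 * m + 1) * ((√r) ^ m)⁻¹) * ‖u‖ := by ring
        _ = _ := by rw [h4]

end ParaX

end Pool.Agent.Lib.MP_df705a_gt.RL
end
end

section

/-!
# RL2, RA: sums of random forms, polarisation
-/

open scoped ContDiff InnerProductSpace Matrix ENNReal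
open MeasureTheory

noncomputable section

namespace Pool.Agent.Lib.MP_df705a_gt.RL

variable {N m : ℕ} {X : Type*} [MeasurableSpace X] {P : Measure X} [IsProbabilityMeasure P]
  {G : Type*} [Group G] [MulAction G X]

private theorem RA_pd_add {f g : V N → ℝ} (hf : ContDiff ℝ ∞ f) (hg : ContDiff ℝ ∞ g) (μ : Fin N)
    (y : V N) : pd μ (fun y => f y + g y) y = pd μ f y + pd μ g y := by
  unfold pd
  rw [fderiv_fun_add (hf.differentiable (by simp) y) (hg.differentiable (by simp) y)]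
  rfl

theorem IsClosed2.add {Ω Ω' : V N → Mt N} (h : IsClosed2 Ω) (h' : IsClosed2 Ω') :
    IsClosed2 fun y => Ω y + Ω' y where
  smooth μ ν := (h.smooth μ ν).add (h'.smooth μ ν)
  anti y μ ν := by
    rw [Matrix.add_apply, Matrix.add_apply, h.anti, h'.anti]
    ring
  closed y l μ ν := by
    have h1 := h.closed y l μ ν
    have h2 := h'.closed y l μ ν
    have e : ∀ i j k, pd i (fun y => (Ω y + Ω' y) j k) y
        = pd i (fun y => Ω y j k) y + pd i (fun y => Ω' y j k) y := fun i j k =>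
      RA_pd_add (h.smooth j k) (h'.smooth j k) i y
    rw [e, e, e]
    linarith

theorem Rand.add {a : Act G N} {Ω Ω' : X → V N → Mt N} (h : Rand P a Ω) (h' : Rand P a Ω') :
    Rand P a fun x y => Ω x y + Ω' x y where
  closed x := (h.closed x).add (h'.closed x)
  meas μ ν := (h.meas μ ν).add (h'.meas μ ν)
  equi γ := by
    filter_upwards [h.equi γ, h'.equi γ] with x h1 h2 y
    have e1 := h1 y
    have e2 := h2 y
    unfold pull2 at e1 e2 ⊢
    rw [Matrix.mul_add, Matrix.add_mul, e1, e2]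
  mom r k := by
    obtain ⟨L, hL, hL1, hL2, hL3⟩ := h.mom r k
    obtain ⟨L', hL', hL1', hL2', hL3'⟩ := h'.mom r k
    have hM : Mom P L := ⟨hL, fun x => zero_le_one.trans (hL1 x), hL2⟩
    have hM' : Mom P L' := ⟨hL', fun x => zero_le_one.trans (hL1' x), hL2'⟩
    refine ⟨fun x => L x + L' x, hL.add hL', fun x => ?_, (hM.add hM').int, ?_⟩
    · have h1 := hL1 x
      have h2 := hL1' x
      linarith
    · intro x j hj μ ν y hy
      have e : iteratedFDeriv ℝ j (fun y => (Ω x y + Ω' x y) μ ν) y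
          = iteratedFDeriv ℝ j (fun y => Ω x y μ ν) y + iteratedFDeriv ℝ j (fun y => Ω' x y μ ν) y := by
        have h1 : (fun y => (Ω x y + Ω' x y) μ ν) = (fun y => Ω x y μ ν) + fun y => Ω' x y μ ν := rfl
        rw [h1]
        exact iteratedFDeriv_add_apply
          (((h.closed x).smooth μ ν).contDiffAt.of_le (by exact_mod_cast le_top))
          (((h'.closed x).smooth μ ν).contDiffAt.of_le (by exact_mod_cast le_top))
      rw [e]
      exact (norm_add_le _ _).trans (add_le_add (hL3 x j hj μ ν y hy) (hL3' x j hj μ ν y hy))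

theorem Rand.zero {a : Act G N} : Rand P a fun (_ : X) (_ : V N) => (0 : Mt N) where
  closed x := by
    refine ⟨fun μ ν => contDiff_const, fun y μ ν => by simp, fun y l μ ν => ?_⟩
    have e : ∀ i j k, pd i (fun _ : V N => (0 : Mt N) j k) y = 0 := fun i j k => by
      unfold pd
      simp
    rw [e, e, e]
    simp
  meas μ ν := measurable_const
  equi γ := Filter.Eventually.of_forall fun x y => by
    unfold pull2
    rw [Matrix.mul_zero, Matrix.zero_mul]
  mom r k := by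
    refine ⟨fun _ => 1, measurable_const, fun _ => le_rfl, fun p => integrable_const _, ?_⟩
    intro x j hj μ ν y hy
    have e : (fun _ : V N => (0 : Mt N) μ ν) = fun _ => (0 : ℝ) := rfl
    rw [e, iteratedFDeriv_zero_fun]
    simp

theorem Rand.finset_sum {a : Act G N} {ι : Type*} {Ω : ι → X → V N → Mt N} (S : Finset ι)
    (h : ∀ r ∈ S, Rand P a (Ω r)) : Rand P a fun x y => ∑ r ∈ S, Ω r x y := by
  classical
  induction S using Finset.induction_on with
  | empty =>
    simp only [Finset.sum_empty]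
    exact Rand.zero
  | insert i s hi ih =>
    simp only [Finset.sum_insert hi]
    exact (h i (Finset.mem_insert_self i s)).add
      (ih fun r hr => h r (Finset.mem_insert_of_mem hr))

/-- `|pf (Ω · x y)| ≤ (2m)! (L x)^m` for `y ∈ F`, with `L` the sum of the functions of `Rand.mom`
(`abs_pf_le`), so the function is integrable. -/
theorem integrable_pf {a : Act G (2 * m)} {F : Set (V (2 * m))} (hF : MeasurableSet F)
    (hFb : Bornology.IsBounded F) {Ω : Fin m → X → V (2 * m) → Mt (2 * m)}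
    (h : ∀ r, Rand P a (Ω r)) :
    Integrable (fun p : X × V (2 * m) => pf fun r => Ω r p.1 p.2)
      (P.prod (volume.restrict F)) := by
  obtain ⟨ρ, hρ⟩ := hFb.subset_closedBall 0
  have hfin : IsFiniteMeasure (volume.restrict F) := by
    refine ⟨?_⟩
    rw [Measure.restrict_apply_univ]
    exact (measure_mono hρ).trans_lt (isCompact_closedBall (0 : V (2 * m)) ρ).measure_lt_top
  choose L hL hL1 hL2 hL3 using fun r => (h r).mom ρ 0
  have hM : Mom P fun x => ∑ r, L r x := Mom.sum Finset.univ fun r _ =>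
    ⟨hL r, fun x => zero_le_one.trans (hL1 r x), hL2 r⟩
  have hb : Integrable (fun x => ((2 * m).factorial : ℝ) * (∑ r, L r x) ^ m) P :=
    (hM.int m).const_mul _
  refine (hb.comp_fst (volume.restrict F)).mono' ?_ ?_
  · refine Measurable.aestronglyMeasurable ?_
    unfold pf
    refine Finset.measurable_sum _ fun σ _ => Measurable.const_mul ?_ _
    exact Finset.measurable_prod _ fun r _ => (h r).meas _ _
  · have h1 : ∀ᵐ p ∂(P.prod (volume.restrict F)), p.2 ∈ F :=
      Measure.quasiMeasurePreserving_snd.ae (ae_restrict_mem hF)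
    filter_upwards [h1] with p hp
    rw [Real.norm_eq_abs]
    refine abs_pf_le _ _ fun r i j => ?_
    have hp' : ‖p.2‖ ≤ ρ := mem_closedBall_zero_iff.1 (hρ hp)
    have h2 := hL3 r p.1 0 le_rfl i j p.2 hp'
    rw [norm_iteratedFDeriv_zero, Real.norm_eq_abs] at h2
    exact h2.trans (Finset.single_le_sum (f := fun r => L r p.1)
      (fun r _ => zero_le_one.trans (hL1 r p.1)) (Finset.mem_univ r))

/-- Polarisation: `e g = ∫ x, ∫ y in F, pf (fun r => Ω (g r) x y)`, `pf_sum`, `pf_perm`, `moebius`. -/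
theorem polarize {a : Act G (2 * m)} {F : Set (V (2 * m))} (hF : MeasurableSet F)
    (hFb : Bornology.IsBounded F)
    (h0 : ∀ Ω : X → V (2 * m) → Mt (2 * m), Rand P a Ω →
      ∫ x, (∫ y in F, pf (fun _ : Fin m => Ω x y)) ∂P = 0)
    {Ω : Fin m → X → V (2 * m) → Mt (2 * m)} (h : ∀ r, Rand P a (Ω r)) :
    ∫ x, (∫ y in F, pf (fun r => Ω r x y)) ∂P = 0 := by
  have hi : ∀ g : Fin m → Fin m, Integrable (fun p : X × V (2 * m) => pf fun r => Ω (g r) p.1 p.2)
      (P.prod (volume.restrict F)) := fun g => integrable_pf hF hFb fun r => h (g r)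
  have hfin : IsFiniteMeasure (volume.restrict F) := by
    refine ⟨?_⟩
    obtain ⟨ρ, hρ⟩ := hFb.subset_closedBall 0
    rw [Measure.restrict_apply_univ]
    exact (measure_mono hρ).trans_lt (isCompact_closedBall (0 : V (2 * m)) ρ).measure_lt_top
  have hprod : ∀ g : Fin m → Fin m, ∫ x, (∫ y in F, pf (fun r => Ω (g r) x y)) ∂P
      = ∫ p, (pf fun r => Ω (g r) p.1 p.2) ∂(P.prod (volume.restrict F)) := fun g =>
    (integral_prod (fun p : X × V (2 * m) => pf fun r => Ω (g r) p.1 p.2) (hi g)).symm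
  have key := moebius (fun g : Fin m → Fin m => ∫ x, (∫ y in F, pf (fun r => Ω (g r) x y)) ∂P)
    (fun S => ?_) (fun τ => ?_)
  · exact key
  · simp only [hprod]
    rw [← integral_finsetSum _ fun g _ => hi g]
    have h1 := h0 _ (Rand.finset_sum S fun r _ => h r)
    have h2 : ∀ x y, pf (fun _ : Fin m => ∑ r ∈ S, Ω r x y)
        = ∑ g ∈ Fintype.piFinset (fun _ : Fin m => S), pf (fun r => Ω (g r) x y) := fun x y =>
      pf_sum S fun q => Ω q x y
    simp only [h2] at h1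
    rw [← h1]
    exact integral_prod (fun p : X × V (2 * m) =>
      ∑ g ∈ Fintype.piFinset (fun _ : Fin m => S), pf (fun r => Ω (g r) p.1 p.2))
      (integrable_finsetSum _ fun g _ => hi g)
  · change ∫ x, (∫ y in F, pf (fun r => Ω (τ r) x y)) ∂P = ∫ x, (∫ y in F, pf (fun r => Ω r x y)) ∂P
    congr 1
    funext x
    congr 1
    funext y
    exact pf_perm τ fun r => Ω r x y

end Pool.Agent.Lib.MP_df705a_gt.RL
end
end
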