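import Pool.Agent.Lib.MP_df705a_gt.Mg.G044
import Pool.Agent.Lib.MP_df705a_gt.Mg.G030
import Pool.Agent.Lib.MP_df705a_gt.Mg.G048
import Pool.Agent.Lib.MP_df705a_gt.Mg.G049

section

/-!
TASK B7. The limit `ε → 0` in Duhamel's formula.

PROOF. `τ ↦ S_{s-τ} (e τ)` is continuous on `(0, s)` and bounded by `‖e τ‖`, so it is integrable
on `(0, s)`; by B6 `S_{s-ε} (q ε) = q s - ∫_ε^s`, and `∫_ε^s → ∫_0^s`
(`intervalIntegral.continuousWithinAt_primitive` or dominated convergence).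
The norm: `intervalIntegral.norm_integral_le_integral_norm` and `‖S‖ ≤ 1`.
-/

open scoped InnerProductSpace ENNReal NNReal
open Filter Topology Set MeasureTheory

namespace Pool.Agent.Lib.MP_df705a_gt.RL

noncomputable section

variable {H : Type*} [NormedAddCommGroup H] [InnerProductSpace ℂ H] [CompleteSpace H]

variable {R : H →L[ℂ] H}

/-- `K_s = q_s - ∫_0^s S_{s-τ} e_τ dτ` -/
def Kop (R : H →L[ℂ] H) (q e : ℝ → H) (s : ℝ) : H :=
  q s - ∫ τ in (0 : ℝ)..s, Sop R (s - τ) (e τ)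

theorem B7_norm (hR : IsCon R) {s τ : ℝ} (hτ : τ ≤ s) (v : H) : ‖Sop R (s - τ) v‖ ≤ ‖v‖ :=
  (ContinuousLinearMap.le_opNorm _ _).trans
    (mul_le_of_le_one_left (norm_nonneg _) (Sop_norm hR (sub_nonneg.2 hτ)))

theorem B7_int (hR : IsCon R) {s : ℝ} (hs : 0 < s) {e : ℝ → H}
    (he : ContinuousOn e (Ioc 0 s)) (hi : IntegrableOn e (Ioc 0 s)) :
    IntervalIntegrable (fun τ => Sop R (s - τ) (e τ)) volume 0 s := by
  rw [intervalIntegrable_iff_integrableOn_Ioc_of_le hs.le]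
  have hc : ContinuousOn (fun τ => Sop R (s - τ) (e τ)) (Ioo 0 s) :=
    ContinuousOn.clm_apply ((Sop_continuousOn hR).comp (by fun_prop) fun τ hτ => by
      simpa using hτ.2) (he.mono Ioo_subset_Ioc_self)
  refine Integrable.mono' hi.norm ?_ ((ae_restrict_iff' measurableSet_Ioc).2
    (Eventually.of_forall fun τ hτ => B7_norm hR hτ.2 _))
  have h1 := hc.aestronglyMeasurable measurableSet_Ioo (μ := volume)
  rwa [Measure.restrict_congr_set Ioo_ae_eq_Ioc] at h1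

theorem Kop_tendsto (hR : IsCon R) (hinj : ∀ u, R u = 0 → u = 0) {s : ℝ}
    (hs : 0 < s) {q q' a : ℝ → H} (hq : ∀ τ ∈ Ioc 0 s, HasDerivWithinAt q (q' τ) (Iic s) τ)
    (ha : ∀ τ ∈ Ioc 0 s, q τ = R (q τ + a τ))
    (he : ContinuousOn (fun τ => q' τ + a τ) (Ioc 0 s))
    (hi : IntegrableOn (fun τ => q' τ + a τ) (Ioc 0 s)) :
    Tendsto (fun ε => Sop R (s - ε) (q ε)) (𝓝[>] 0)
      (𝓝 (Kop R q (fun τ => q' τ + a τ) s)) := by
  have h1 : ContinuousOn (fun b => ∫ τ in s..b, Sop R (s - τ) (q' τ + a τ)) (uIcc 0 s) :=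
    intervalIntegral.continuousOn_primitive_interval' (B7_int hR hs he hi) right_mem_uIcc
  have h2 := (h1 0 left_mem_uIcc).tendsto.mono_left
    (nhdsWithin_le_of_mem (by rw [uIcc_of_le hs.le]; exact Icc_mem_nhdsGT hs) :
      𝓝[>] (0 : ℝ) ≤ 𝓝[uIcc 0 s] 0)
  have h3 : Kop R q (fun τ => q' τ + a τ) s =
      q s + ∫ τ in s..0, Sop R (s - τ) (q' τ + a τ) := by
    rw [Kop, intervalIntegral.integral_symm, sub_eq_add_neg, neg_neg]
  rw [h3]
  refine (h2.const_add (q s)).congr' ?_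
  filter_upwards [Ioo_mem_nhdsGT hs] with ε hε
  rw [intervalIntegral.integral_symm, ← duhamel hR hinj hε.1 hε.2 hq ha he]
  abel

theorem Kop_sub_norm (hR : IsCon R) {s : ℝ} (hs : 0 < s) {q e : ℝ → H}
    (he : ContinuousOn e (Ioc 0 s)) (hi : IntegrableOn e (Ioc 0 s)) :
    ‖Kop R q e s - q s‖ ≤ ∫ τ in (0 : ℝ)..s, ‖e τ‖ := by
  rw [Kop, sub_sub_cancel_left, norm_neg]
  exact intervalIntegral.norm_integral_le_of_norm_le hs.le
    (Eventually.of_forall fun τ hτ => B7_norm hR hτ.2 _)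
    ((intervalIntegrable_iff_integrableOn_Ioc_of_le hs.le).2 hi.norm)

end

end Pool.Agent.Lib.MP_df705a_gt.RL
end

section

/-!
# RL2, E3: parametrices (interface between the parametrix and the kernel of the heat semigroup)
-/

open scoped ContDiff InnerProductSpace Matrix ENNReal NNReal Topology
open MeasureTheory Filter Set

noncomputable section

namespace Pool.Agent.Lib.MP_df705a_gt.RL

variable {m : ℕ}

/-- A parametrix at the base points `z ∈ F` for the heat operator of `D²`: `q τ z y` is the value at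
`y`, `qd` its `τ`-derivative, `e = (∂_τ + D²) q` the error; `c` is the constant in the estimates,
`κ` the constant in the Gaussian, `r₀` bounds the supports. -/
structure Para (C : Cliff m) (g : Geo (2 * m)) (B : Pot (2 * m)) (F : Set (V (2 * m)))
    (q qd e : ℝ → V (2 * m) → V (2 * m) → En m) (c κ r₀ : ℝ) : Prop where
  c_pos : 0 < c
  κ_pos : 0 < κ
  tf : ∀ τ > 0, ∀ z ∈ F, ∀ u, IsTF fun y => q τ z y u
  supp : ∀ τ > 0, ∀ z ∈ F, ∀ y, r₀ < ‖y‖ → q τ z y = 0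
  qd_cont : ∀ τ > 0, ∀ z ∈ F, Continuous fun y => qd τ z y
  qd_supp : ∀ τ > 0, ∀ z ∈ F, ∀ y, r₀ < ‖y‖ → qd τ z y = 0
  eqn : ∀ τ > 0, ∀ z ∈ F, ∀ y u, e τ z y u
    = qd τ z y u + C.dirac g B (C.dirac g B fun y => q τ z y u) y
  der : ∀ z ∈ F, ∀ u, ∀ τ > 0, HasDerivAt (fun τ => g.emb fun y => q τ z y u)
    (g.emb fun y => qd τ z y u) τ
  cont : ∀ z ∈ F, ∀ u, ContinuousOn (fun τ => g.emb fun y => e τ z y u) (Ioi 0)
  meas : ∀ τ > 0, StronglyMeasurable fun p : V (2 * m) × V (2 * m) => q τ p.1 p.2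
  bq : ∀ τ, 0 < τ → τ ≤ 1 → ∀ z ∈ F, ∀ y,
    ‖q τ z y‖ ≤ c / τ ^ m * Real.exp (-(κ * ‖y - z‖ ^ 2 / τ))
  be : ∀ τ, 0 < τ → τ ≤ 1 → ∀ z ∈ F, ∀ u,
    ‖g.emb fun y => e τ z y u‖ ≤ c * √τ ^ (m - 1) * ‖u‖
  delta : ∀ z ∈ F, ∀ φ : V (2 * m) → Sp m, Continuous φ → HasCompactSupport φ →
    Tendsto (fun τ => ∫ y, adj (q τ z y) (φ y) ∂g.vol) (𝓝[>] 0) (𝓝 (φ z))

/-- The kernel `K_s(z) u = q_s(·, z) u - ∫_0^s S_{s-τ} e_τ(·, z) u dτ`. -/
def kerS (g : Geo (2 * m)) (R : g.L2 →L[ℂ] g.L2)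
    (q e : ℝ → V (2 * m) → V (2 * m) → En m) (s : ℝ) (z : V (2 * m)) (u : Sp m) : g.L2 :=
  Kop R (fun τ => g.emb fun y => q τ z y u) (fun τ => g.emb fun y => e τ z y u) s

end Pool.Agent.Lib.MP_df705a_gt.RL
end
end

section

/-!
# RL2, E4: Schur test and Gaussian bounds
-/

open scoped ContDiff InnerProductSpace Matrix ENNReal NNReal Topology
open MeasureTheory Filter Set

noncomputable section

namespace Pool.Agent.Lib.MP_df705a_gt.RL

variable {m : ℕ}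

/-- Cauchy-Schwarz for a finite measure. -/
private theorem E4_cs {Y : Type*} [MeasurableSpace Y] (κ : Measure Y) {f : Y → ℝ≥0∞}
    (hf : AEMeasurable f κ) :
    (∫⁻ y, f y ∂κ) ^ 2 ≤ κ univ * ∫⁻ y, f y ^ 2 ∂κ := by
  have h := ENNReal.lintegral_mul_le_Lp_mul_Lq κ (p := 2) (q := 2)
    (by rw [Real.holderConjugate_iff]; norm_num)
    (f := fun _ => 1) (g := f) aemeasurable_const hf
  have e2 : ∀ x : ℝ≥0∞, (x ^ ((1 : ℝ) / 2)) ^ 2 = x := fun x => by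
    rw [← ENNReal.rpow_natCast, ← ENNReal.rpow_mul]
    norm_num
  have h1 : (∫⁻ y, f y ∂κ) ≤ (κ univ) ^ ((1 : ℝ) / 2) * (∫⁻ y, f y ^ 2 ∂κ) ^ ((1 : ℝ) / 2) := by
    refine le_trans (le_of_eq ?_) (h.trans (le_of_eq ?_))
    · simp
    · simp
  calc (∫⁻ y, f y ∂κ) ^ 2
      ≤ ((κ univ) ^ ((1 : ℝ) / 2) * (∫⁻ y, f y ^ 2 ∂κ) ^ ((1 : ℝ) / 2)) ^ 2 := by gcongr
    _ = κ univ * ∫⁻ y, f y ^ 2 ∂κ := by rw [mul_pow, e2, e2]

/-- The Schur test. Proof: Cauchy-Schwarz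
`(∫ k(z,y) f(y) dμ(y))² ≤ (∫ k(z,y) dμ(y)) (∫ k(z,y) f(y)² dμ(y))`, then Tonelli. -/
theorem schur {Y Z : Type*} [MeasurableSpace Y] [MeasurableSpace Z] {μ : Measure Y}
    {ν : Measure Z} [SFinite μ] [SFinite ν] {k : Z → Y → ℝ≥0∞}
    (hk : Measurable fun p : Z × Y => k p.1 p.2) {a b : ℝ≥0∞}
    (h1 : ∀ z, ∫⁻ y, k z y ∂μ ≤ a) (h2 : ∀ y, ∫⁻ z, k z y ∂ν ≤ b) {f : Y → ℝ≥0∞}
    (hf : Measurable f) :
    ∫⁻ z, (∫⁻ y, k z y * f y ∂μ) ^ 2 ∂ν ≤ a * b * ∫⁻ y, f y ^ 2 ∂μ := by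
  have hkz : ∀ z, Measurable (k z) := fun z => hk.comp (measurable_const.prodMk measurable_id)
  have hky : ∀ y, Measurable fun z => k z y := fun y =>
    hk.comp (measurable_id.prodMk measurable_const)
  have hcs : ∀ z, (∫⁻ y, k z y * f y ∂μ) ^ 2 ≤ a * ∫⁻ y, k z y * f y ^ 2 ∂μ := by
    intro z
    have h := E4_cs (μ.withDensity (k z)) (f := f) hf.aemeasurable
    rw [lintegral_withDensity_eq_lintegral_mul μ (hkz z) hf,
      lintegral_withDensity_eq_lintegral_mul μ (hkz z) (hf.pow_const 2),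
      withDensity_apply _ MeasurableSet.univ, Measure.restrict_univ] at h
    refine h.trans ?_
    gcongr
    · exact h1 z
    · exact le_rfl
  have hm : Measurable fun p : Z × Y => k p.1 p.2 * f p.2 ^ 2 :=
    hk.mul ((hf.comp measurable_snd).pow_const 2)
  calc ∫⁻ z, (∫⁻ y, k z y * f y ∂μ) ^ 2 ∂ν
      ≤ ∫⁻ z, a * ∫⁻ y, k z y * f y ^ 2 ∂μ ∂ν := lintegral_mono hcs
    _ = a * ∫⁻ z, ∫⁻ y, k z y * f y ^ 2 ∂μ ∂ν := lintegral_const_mul _ hm.lintegral_prod_right'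
    _ = a * ∫⁻ y, ∫⁻ z, k z y * f y ^ 2 ∂ν ∂μ := by
        rw [lintegral_lintegral_swap hm.aemeasurable]
    _ = a * ∫⁻ y, (∫⁻ z, k z y ∂ν) * f y ^ 2 ∂μ := by
        congr 1
        refine lintegral_congr fun y => ?_
        rw [lintegral_mul_const _ (hky y)]
    _ ≤ a * ∫⁻ y, b * f y ^ 2 ∂μ := by
        gcongr with y
        exact h2 y
    _ = a * b * ∫⁻ y, f y ^ 2 ∂μ := by
        rw [lintegral_const_mul _ (hf.pow_const 2), mul_assoc]

/-- The Gaussian integral. -/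
private theorem E4_gauss (τ κ : ℝ) (hτ : 0 < τ) (hκ : 0 < κ) (z : V (2 * m)) :
    ∫⁻ y, ENNReal.ofReal (1 / τ ^ m * Real.exp (-(κ * ‖y - z‖ ^ 2 / τ)))
      = ENNReal.ofReal ((Real.pi / κ) ^ m) := by
  have hb : 0 < κ / τ := div_pos hκ hτ
  have h0 : ∀ y : V (2 * m), 1 / τ ^ m * Real.exp (-(κ * ‖y - z‖ ^ 2 / τ))
      = 1 / τ ^ m * Real.exp (-(κ / τ) * ‖y - z‖ ^ 2) := by
    intro y
    congr 2
    ring
  have hi : ∫ y : V (2 * m), Real.exp (-(κ / τ) * ‖y‖ ^ 2) = (Real.pi * τ / κ) ^ m := by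
    rw [GaussianFourier.integral_rexp_neg_mul_sq_norm hb]
    have e1 : (Module.finrank ℝ (V (2 * m)) : ℝ) / 2 = (m : ℝ) := by
      rw [finrank_euclideanSpace, Fintype.card_fin]
      push_cast
      ring
    rw [e1, Real.rpow_natCast]
    congr 1
    field_simp
  have hint : Integrable fun y : V (2 * m) => Real.exp (-(κ / τ) * ‖y‖ ^ 2) := by
    by_contra hcon
    rw [integral_undef hcon] at hi
    have : 0 < (Real.pi * τ / κ) ^ m := by positivity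
    rw [← hi] at this
    exact lt_irrefl _ this
  have hint2 : Integrable fun y : V (2 * m) => Real.exp (-(κ / τ) * ‖y - z‖ ^ 2) :=
    hint.comp_sub_right z
  have hi2 : ∫ y : V (2 * m), Real.exp (-(κ / τ) * ‖y - z‖ ^ 2) = (Real.pi * τ / κ) ^ m := by
    rw [← hi]
    exact integral_sub_right_eq_self (fun y : V (2 * m) => Real.exp (-(κ / τ) * ‖y‖ ^ 2)) z
  simp_rw [h0]
  rw [← ofReal_integral_eq_lintegral_ofReal (hint2.const_mul _)
    (Eventually.of_forall fun y => by positivity), integral_const_mul, hi2]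
  congr 1
  rw [div_pow, div_pow, mul_pow]
  field_simp

/-- `∫ exp(-κ |y - z|²/τ) dy = (π τ / κ)^m` in dimension `2m`, so the integral over a ball for
`g.vol` divided by `τ^m` is bounded (`vol_le`). -/
theorem gauss_vol (g : Geo (2 * m)) (r κ : ℝ) (hκ : 0 < κ) : ∃ a : ℝ, 0 ≤ a ∧
    ∀ τ, 0 < τ → ∀ z : V (2 * m),
      ∫⁻ y in Metric.closedBall 0 r, ENNReal.ofReal (1 / τ ^ m *
        Real.exp (-(κ * ‖y - z‖ ^ 2 / τ))) ∂g.vol ≤ ENNReal.ofReal a := by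
  obtain ⟨c, hc, hv⟩ := g.vol_le r
  refine ⟨c * (Real.pi / κ) ^ m, by positivity, fun τ hτ z => ?_⟩
  calc ∫⁻ y in Metric.closedBall 0 r, ENNReal.ofReal (1 / τ ^ m *
        Real.exp (-(κ * ‖y - z‖ ^ 2 / τ))) ∂g.vol
      ≤ ∫⁻ y, ENNReal.ofReal (1 / τ ^ m * Real.exp (-(κ * ‖y - z‖ ^ 2 / τ)))
          ∂(ENNReal.ofReal c • (volume.restrict (Metric.closedBall 0 r))) :=
        lintegral_mono' hv le_rfl
    _ = ENNReal.ofReal c * ∫⁻ y in Metric.closedBall 0 r, ENNReal.ofReal (1 / τ ^ m *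
          Real.exp (-(κ * ‖y - z‖ ^ 2 / τ))) := by
        rw [lintegral_smul_measure, smul_eq_mul]
    _ ≤ ENNReal.ofReal c * ∫⁻ y, ENNReal.ofReal (1 / τ ^ m *
          Real.exp (-(κ * ‖y - z‖ ^ 2 / τ))) := by
        gcongr
        exact Measure.restrict_le_self
    _ = ENNReal.ofReal (c * (Real.pi / κ) ^ m) := by
        rw [E4_gauss τ κ hτ hκ z, ENNReal.ofReal_mul hc]

/-- The `L²` norm of the parametrix: `‖emb (q τ z · u)‖ ≤ a c ‖u‖ / √τ^m`, with `a` depending only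
on `g, κ, r₀` (`‖q‖² ≤ c² τ^{-m} · τ^{-m} exp(-2κ|y-z|²/τ)`, `gauss_vol` with `2κ`). -/
theorem norm_q_le (g : Geo (2 * m)) (κ r₀ : ℝ) (hκ : 0 < κ) : ∃ a : ℝ, 0 ≤ a ∧
    ∀ (C : Cliff m) (B : Pot (2 * m)) (F : Set (V (2 * m)))
      (q qd e : ℝ → V (2 * m) → V (2 * m) → En m) (c : ℝ), Para C g B F q qd e c κ r₀ →
      ∀ τ, 0 < τ → τ ≤ 1 → ∀ z ∈ F, ∀ u,
        ‖g.emb fun y => q τ z y u‖ ≤ a * c / √τ ^ m * ‖u‖ := by
  obtain ⟨a, ha, hg⟩ := gauss_vol g r₀ (2 * κ) (by positivity)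
  refine ⟨√a, Real.sqrt_nonneg _, fun C B F q qd e c hP τ hτ hτ1 z hz u => ?_⟩
  have hc := hP.c_pos
  have hM : MemLp (fun y => q τ z y u) 2 g.vol := g.memLp_tf (hP.tf τ hτ z hz u)
  have h1 : ENNReal.ofReal (‖g.emb fun y => q τ z y u‖ ^ 2)
      ≤ ENNReal.ofReal (c ^ 2 / τ ^ m * ‖u‖ ^ 2 * a) := by
    have e1 : ENNReal.ofReal (‖g.emb fun y => q τ z y u‖ ^ 2)
        = ∫⁻ y, ‖q τ z y u‖ₑ ^ 2 ∂g.vol := by
      rw [ENNReal.ofReal_pow (norm_nonneg _), ofReal_norm, g.enorm_L2_sq]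
      refine lintegral_congr_ae ?_
      filter_upwards [g.emb_coe hM] with y hy
      rw [hy]
    rw [e1]
    calc ∫⁻ y, ‖q τ z y u‖ₑ ^ 2 ∂g.vol
        ≤ ∫⁻ y, (Metric.closedBall (0 : V (2 * m)) r₀).indicator
            (fun y => ENNReal.ofReal (c ^ 2 / τ ^ m * ‖u‖ ^ 2) * ENNReal.ofReal (1 / τ ^ m *
              Real.exp (-(2 * κ * ‖y - z‖ ^ 2 / τ)))) y ∂g.vol := by
          refine lintegral_mono fun y => ?_
          by_cases hy : y ∈ Metric.closedBall (0 : V (2 * m)) r₀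
          · rw [indicator_of_mem hy, ← ENNReal.ofReal_mul (by positivity),
              ← ofReal_norm, ← ENNReal.ofReal_pow (norm_nonneg _)]
            refine ENNReal.ofReal_le_ofReal ?_
            have hb : ‖q τ z y u‖ ≤ c / τ ^ m * Real.exp (-(κ * ‖y - z‖ ^ 2 / τ)) * ‖u‖ :=
              ((q τ z y).le_opNorm u).trans
                (mul_le_mul_of_nonneg_right (hP.bq τ hτ hτ1 z hz y) (norm_nonneg _))
            refine (pow_le_pow_left₀ (norm_nonneg _) hb 2).trans (le_of_eq ?_)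
            have e2 : Real.exp (-(2 * κ * ‖y - z‖ ^ 2 / τ))
                = Real.exp (-(κ * ‖y - z‖ ^ 2 / τ)) ^ 2 := by
              rw [← Real.exp_nat_mul]
              congr 1
              push_cast
              ring
            rw [e2]
            field_simp
          · rw [indicator_of_notMem hy]
            have hy' : r₀ < ‖y‖ := by
              rw [mem_closedBall_zero_iff] at hy
              exact not_le.1 hy
            rw [hP.supp τ hτ z hz y hy']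
            simp
      _ = ∫⁻ y in Metric.closedBall 0 r₀, ENNReal.ofReal (c ^ 2 / τ ^ m * ‖u‖ ^ 2)
            * ENNReal.ofReal (1 / τ ^ m * Real.exp (-(2 * κ * ‖y - z‖ ^ 2 / τ))) ∂g.vol :=
          lintegral_indicator Metric.isClosed_closedBall.measurableSet _
      _ = ENNReal.ofReal (c ^ 2 / τ ^ m * ‖u‖ ^ 2) * ∫⁻ y in Metric.closedBall 0 r₀,
            ENNReal.ofReal (1 / τ ^ m * Real.exp (-(2 * κ * ‖y - z‖ ^ 2 / τ))) ∂g.vol :=
          lintegral_const_mul' _ _ ENNReal.ofReal_ne_top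
      _ ≤ ENNReal.ofReal (c ^ 2 / τ ^ m * ‖u‖ ^ 2) * ENNReal.ofReal a := by
          gcongr
          exact hg τ hτ z
      _ = ENNReal.ofReal (c ^ 2 / τ ^ m * ‖u‖ ^ 2 * a) := by
          rw [← ENNReal.ofReal_mul (by positivity)]
  have h2 : ‖g.emb fun y => q τ z y u‖ ^ 2 ≤ c ^ 2 / τ ^ m * ‖u‖ ^ 2 * a :=
    (ENNReal.ofReal_le_ofReal_iff (by positivity)).1 h1
  refine le_of_sq_le_sq ?_ (by positivity)
  refine h2.trans (le_of_eq ?_)
  have e3 : (√τ ^ m) ^ 2 = τ ^ m := by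
    rw [← pow_mul, mul_comm m 2, pow_mul, Real.sq_sqrt hτ.le]
  rw [mul_pow, div_pow, mul_pow, e3, Real.sq_sqrt ha]
  ring

private theorem E4_int {C : Cliff m} {g : Geo (2 * m)} {B : Pot (2 * m)} {F : Set (V (2 * m))}
    {q qd e : ℝ → V (2 * m) → V (2 * m) → En m} {c κ r₀ : ℝ}
    (hP : Para C g B F q qd e c κ r₀) {s : ℝ} (hs1 : s ≤ 1) {z : V (2 * m)} (hz : z ∈ F)
    (u : Sp m) :
    ContinuousOn (fun τ => g.emb fun y => e τ z y u) (Ioc 0 s) ∧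
    (∀ τ ∈ Ioc 0 s, ‖g.emb fun y => e τ z y u‖ ≤ c * √s ^ (m - 1) * ‖u‖) ∧
    IntegrableOn (fun τ => g.emb fun y => e τ z y u) (Ioc 0 s) := by
  have hc : ContinuousOn (fun τ => g.emb fun y => e τ z y u) (Ioc 0 s) :=
    (hP.cont z hz u).mono fun τ hτ => hτ.1
  have hb : ∀ τ ∈ Ioc 0 s, ‖g.emb fun y => e τ z y u‖ ≤ c * √s ^ (m - 1) * ‖u‖ := by
    intro τ hτ
    refine (hP.be τ hτ.1 (hτ.2.trans hs1) z hz u).trans ?_
    have := hP.c_pos
    have h2 : √τ ≤ √s := Real.sqrt_le_sqrt hτ.2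
    gcongr
  refine ⟨hc, hb, ?_⟩
  exact Integrable.mono' (integrable_const (c * √s ^ (m - 1) * ‖u‖))
    (hc.aestronglyMeasurable measurableSet_Ioc)
    ((ae_restrict_iff' measurableSet_Ioc).2 (Eventually.of_forall hb))

/-- `‖K_s(z) u - q_s(·, z) u‖ ≤ c s √s^(m-1) ‖u‖` (`Kop_sub_norm`, `be`, monotonicity of `√τ`). -/
theorem kerS_sub_le {C : Cliff m} {g : Geo (2 * m)} {B : Pot (2 * m)} {F : Set (V (2 * m))}
    {q qd e : ℝ → V (2 * m) → V (2 * m) → En m} {c κ r₀ : ℝ}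
    (hP : Para C g B F q qd e c κ r₀) {R : g.L2 →L[ℂ] g.L2} (hR : IsCon R) {s : ℝ}
    (hs : 0 < s) (hs1 : s ≤ 1) {z : V (2 * m)} (hz : z ∈ F) (u : Sp m) :
    ‖kerS g R q e s z u - g.emb fun y => q s z y u‖ ≤ c * s * √s ^ (m - 1) * ‖u‖ := by
  obtain ⟨hc, hb, hi⟩ := E4_int hP hs1 hz u
  refine (Kop_sub_norm (q := fun τ => g.emb fun y => q τ z y u) hR hs hc hi).trans ?_
  rw [intervalIntegral.integral_of_le hs.le]
  refine (setIntegral_mono_on (g := fun _ => c * √s ^ (m - 1) * ‖u‖) hi.norm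
    (integrable_const _) measurableSet_Ioc hb).trans (le_of_eq ?_)
  rw [setIntegral_const, Measure.real, Real.volume_Ioc, sub_zero, ENNReal.toReal_ofReal hs.le,
    smul_eq_mul]
  ring

private theorem E4_memE {C : Cliff m} {g : Geo (2 * m)} {B : Pot (2 * m)} (hB : IsPot B)
    {F : Set (V (2 * m))}
    {q qd e : ℝ → V (2 * m) → V (2 * m) → En m} {c κ r₀ : ℝ}
    (hP : Para C g B F q qd e c κ r₀) {τ : ℝ} (hτ : 0 < τ) {z : V (2 * m)} (hz : z ∈ F)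
    (u : Sp m) : MemLp (fun y => e τ z y u) 2 g.vol := by
  have h1 : MemLp (fun y => qd τ z y u) 2 g.vol := by
    refine g.memLp_cc ((hP.qd_cont τ hτ z hz).clm_apply continuous_const) ?_
    refine HasCompactSupport.intro (isCompact_closedBall (0 : V (2 * m)) r₀) fun y hy => ?_
    have hy' : r₀ < ‖y‖ := by
      rw [mem_closedBall_zero_iff] at hy
      exact not_le.1 hy
    rw [hP.qd_supp τ hτ z hz y hy']
    rfl
  have h2 : MemLp (C.dirac g B (C.dirac g B fun y => q τ z y u)) 2 g.vol :=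
    g.memLp_tf (isTF_dirac C g hB (isTF_dirac C g hB (hP.tf τ hτ z hz u)))
  have h3 : (fun y => e τ z y u) = (fun y => qd τ z y u)
      + C.dirac g B (C.dirac g B fun y => q τ z y u) := by
    funext y
    exact hP.eqn τ hτ z hz y u
  rw [h3]
  exact h1.add h2

private theorem E4_lin {g : Geo (2 * m)} {A : V (2 * m) → En m} {u u' : Sp m} (k : ℂ)
    (h : MemLp (fun y => A y u) 2 g.vol) (h' : MemLp (fun y => A y u') 2 g.vol) :
    (g.emb fun y => A y (u + k • u')) = (g.emb fun y => A y u) + k • g.emb fun y => A y u' := by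
  have e1 : (fun y => A y (u + k • u')) = (fun y => A y u) + k • fun y => A y u' := by
    funext y
    rw [Pi.add_apply, Pi.smul_apply, map_add, map_smul]
  rw [e1, g.emb_add h (h'.const_smul k), g.emb_smul h' k]

/-- Linearity in `u`. -/
theorem kerS_add {C : Cliff m} {g : Geo (2 * m)} {B : Pot (2 * m)} (hB : IsPot B)
    {F : Set (V (2 * m))}
    {q qd e : ℝ → V (2 * m) → V (2 * m) → En m} {c κ r₀ : ℝ}
    (hP : Para C g B F q qd e c κ r₀) {R : g.L2 →L[ℂ] g.L2} (hR : IsCon R) {s : ℝ}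
    (hs : 0 < s) (hs1 : s ≤ 1) {z : V (2 * m)} (hz : z ∈ F) (u u' : Sp m) (k : ℂ) :
    kerS g R q e s z (u + k • u') = kerS g R q e s z u + k • kerS g R q e s z u' := by
  have hq : ∀ τ, 0 < τ → ∀ u, MemLp (fun y => q τ z y u) 2 g.vol := fun τ hτ u =>
    g.memLp_tf (hP.tf τ hτ z hz u)
  have i1 : IntervalIntegrable (fun τ => Sop R (s - τ) (g.emb fun y => e τ z y u)) volume 0 s :=
    B7_int hR hs (E4_int hP hs1 hz u).1 (E4_int hP hs1 hz u).2.2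
  have i2 : IntervalIntegrable (fun τ => Sop R (s - τ) (g.emb fun y => e τ z y u')) volume 0 s :=
    B7_int hR hs (E4_int hP hs1 hz u').1 (E4_int hP hs1 hz u').2.2
  have h1 : ∫ τ in (0 : ℝ)..s, Sop R (s - τ) (g.emb fun y => e τ z y (u + k • u'))
      = (∫ τ in (0 : ℝ)..s, Sop R (s - τ) (g.emb fun y => e τ z y u))
        + k • ∫ τ in (0 : ℝ)..s, Sop R (s - τ) (g.emb fun y => e τ z y u') := by
    have i3 : IntervalIntegrable (fun τ => k • Sop R (s - τ) (g.emb fun y => e τ z y u'))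
        volume 0 s := i2.smul k
    rw [← intervalIntegral.integral_smul, ← intervalIntegral.integral_add i1 i3]
    rw [intervalIntegral.integral_of_le hs.le, intervalIntegral.integral_of_le hs.le]
    refine setIntegral_congr_fun measurableSet_Ioc fun τ hτ => ?_
    show Sop R (s - τ) (g.emb fun y => e τ z y (u + k • u')) = Sop R (s - τ)
      (g.emb fun y => e τ z y u) + k • Sop R (s - τ) (g.emb fun y => e τ z y u')
    rw [E4_lin k (E4_memE hB hP hτ.1 hz u) (E4_memE hB hP hτ.1 hz u'), map_add, map_smul]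
  have h2 := E4_lin k (hq s hs u) (hq s hs u')
  unfold kerS Kop
  show (g.emb fun y => q s z y (u + k • u'))
      - (∫ τ in (0 : ℝ)..s, Sop R (s - τ) (g.emb fun y => e τ z y (u + k • u')))
    = ((g.emb fun y => q s z y u)
      - ∫ τ in (0 : ℝ)..s, Sop R (s - τ) (g.emb fun y => e τ z y u))
      + k • ((g.emb fun y => q s z y u')
      - ∫ τ in (0 : ℝ)..s, Sop R (s - τ) (g.emb fun y => e τ z y u'))
  rw [h1, h2, smul_sub]
  abel

end Pool.Agent.Lib.MP_df705a_gt.RL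
end
end

section

/-!
# RL2 parametrix: calculus of Gaussian times rescaled polynomial
-/

open scoped ContDiff InnerProductSpace Matrix Real
open MeasureTheory

noncomputable section

set_option linter.unusedSectionVars false

namespace Pool.Agent.Lib.MP_df705a_gt.RL

variable {X : Type*} [MeasurableSpace X] {P : Measure X} [IsProbabilityMeasure P] {m : ℕ}
  {ρ : ℝ}

theorem Wp_add (g : Geo (2 * m)) (x : X) (z v : V (2 * m)) (r : ℝ)
    (p q : PM (Ix m) (2 * m) (Rg P (2 * m) ρ)) :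
    Wp g x z r (p + q) v = Wp g x z r p v + Wp g x z r q v := by
  simp only [Wp, evM_add, smul_add]

theorem Wp_neg (g : Geo (2 * m)) (x : X) (z v : V (2 * m)) (r : ℝ)
    (p : PM (Ix m) (2 * m) (Rg P (2 * m) ρ)) : Wp g x z r (-p) v = - Wp g x z r p v := by
  simp only [Wp, evM_neg, smul_neg]

theorem Wp_zero (g : Geo (2 * m)) (x : X) (z v : V (2 * m)) (r : ℝ) :
    Wp g x z r (0 : PM (Ix m) (2 * m) (Rg P (2 * m) ρ)) v = 0 := by
  rw [Wp, evM_zero]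
  exact smul_zero (M := ℂ) (A := En m) _

theorem Wp_sum {κ : Type*} (g : Geo (2 * m)) (x : X) (z v : V (2 * m)) (r : ℝ) (s : Finset κ)
    (p : κ → PM (Ix m) (2 * m) (Rg P (2 * m) ρ)) :
    Wp g x z r (∑ i ∈ s, p i) v = ∑ i ∈ s, Wp g x z r (p i) v := by
  simp only [Wp, evM_sum, Finset.smul_sum]

theorem Wp_smul (g : Geo (2 * m)) (x : X) (z v : V (2 * m)) (r : ℝ)
    (s : MvPolynomial (Fin (2 * m)) (Rg P (2 * m) ρ)) (p : PM (Ix m) (2 * m) (Rg P (2 * m) ρ)) :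
    Wp g x z r (s • p) v = ev x z ((√r)⁻¹ • v) s • Wp g x z r p v := by
  simp only [Wp, evM_smul]
  rw [smul_comm]

theorem Wp_smul_C (g : Geo (2 * m)) (x : X) (z v : V (2 * m)) (r : ℝ) (s : ℂ)
    (p : PM (Ix m) (2 * m) (Rg P (2 * m) ρ)) :
    Wp g x z r (algebraMap ℂ (Rg P (2 * m) ρ) s • p) v = s • Wp g x z r p v := by
  simp only [Wp, evM_smul_C]
  rw [smul_comm]

theorem Wp_mul (g : Geo (2 * m)) (x : X) (z v : V (2 * m)) (r : ℝ)
    (q p : PM (Ix m) (2 * m) (Rg P (2 * m) ρ)) :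
    Wp g x z r (q * p) v = evM x z ((√r)⁻¹ • v) q * Wp g x z r p v := by
  simp only [Wp, evM_mul, mul_smul_comm]

theorem contDiff_Wp (g : Geo (2 * m)) (x : X) (z : V (2 * m)) (r : ℝ)
    (p : PM (Ix m) (2 * m) (Rg P (2 * m) ρ)) : ContDiff ℝ ∞ (Wp g x z r p) := by
  exact (Complex.ofRealCLM.contDiff.comp (contDiff_gs g z r)).smul
    ((contDiff_evM x z p).comp (contDiff_id.const_smul (√r)⁻¹))

theorem P08_ev_gX (g : Geo (2 * m)) (x : X) (z η : V (2 * m)) (μ : Fin (2 * m)) :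
    ev x z η (gX (hR (P := P) (ρ := ρ) g) μ) = ∑ ν, (g.h z μ ν : ℂ) * (η ν : ℂ) := by
  simp only [gX, map_sum, map_mul, ev, MvPolynomial.coe_eval₂Hom, MvPolynomial.eval₂_C,
    MvPolynomial.eval₂_X]
  rfl

theorem P08_ev_C (x : X) (z η : V (2 * m)) (c : ℂ) :
    ev x z η (MvPolynomial.C (algebraMap ℂ (Rg P (2 * m) ρ) c)) = c := by
  simp only [ev, MvPolynomial.coe_eval₂Hom, MvPolynomial.eval₂_C]
  rfl

theorem P08_evM_hM (g : Geo (2 * m)) (x : X) (z η : V (2 * m)) (μ : Fin (2 * m))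
    (p : PM (Ix m) (2 * m) (Rg P (2 * m) ρ)) :
    evM x z η (hM (hR g) μ p) = evM x z η (dM μ p) -
      ((1 / 2 : ℂ) * ∑ ν, (g.h z μ ν : ℂ) * (η ν : ℂ)) • evM x z η p := by
  rw [hM, LinearMap.sub_apply, evM_sub, LinearMap.smul_apply, LinearMap.id_apply, evM_smul,
    map_mul, P08_ev_C, P08_ev_gX]

theorem P08_sq {r : ℝ} (hr : 0 < r) : (√r : ℂ)⁻¹ * (√r : ℂ)⁻¹ = (r : ℂ)⁻¹ := by
  rw [← mul_inv, ← Complex.ofReal_mul, Real.mul_self_sqrt hr.le]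

/-- PROOF. Product rule, `pd_gs`, `pd_evM` and the chain rule for `v ↦ (√r)⁻¹ • v`:
`(∑ h_μν v_ν) / (2 r) = (√r)⁻¹ (1/2) ev (gX (hR g) μ)` at `(√r)⁻¹ • v`, since `r = √r * √r`. -/
theorem pd_Wp (g : Geo (2 * m)) (x : X) (z v : V (2 * m)) {r : ℝ} (hr : 0 < r) (μ : Fin (2 * m))
    (p : PM (Ix m) (2 * m) (Rg P (2 * m) ρ)) :
    pd μ (Wp g x z r p) v = ((√r)⁻¹ : ℂ) • Wp g x z r (hM (hR g) μ p) v := by
  have h0 : HasFDerivAt (fun v => (gs g z v r : ℂ))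
      (Complex.ofRealCLM.comp (fderiv ℝ (fun v => gs g z v r) v)) v :=
    Complex.ofRealCLM.hasFDerivAt.comp v
      (((contDiff_gs g z r).differentiable (by simp)) v).hasFDerivAt
  have h2 : HasFDerivAt (fun η => evM x z η p) (fderiv ℝ (fun η => evM x z η p) ((√r)⁻¹ • v))
      ((√r)⁻¹ • v) := (((contDiff_evM x z p).differentiable (by simp)) _).hasFDerivAt
  have h4 := h2.comp v ((hasFDerivAt_id v).const_smul (√r)⁻¹)
  have h5 := (h0.smul h4).fderiv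
  have h6 := pd_gs g z v hr μ
  have h7 := pd_evM x z ((√r)⁻¹ • v) μ p
  unfold pd at h6 h7 ⊢
  have h8 := congrArg (fun A => A (bv μ)) h5
  refine h8.trans ?_
  simp only [add_apply, smul_apply, ContinuousLinearMap.smulRight_apply,
    ContinuousLinearMap.comp_apply, ContinuousLinearMap.id_apply, map_smul, h6, h7,
    Function.comp_apply]
  have h9 : ∑ ν, (g.h z μ ν : ℂ) * ((((√r)⁻¹ • v) ν : ℝ) : ℂ) =
      (√r : ℂ)⁻¹ * ∑ ν, (g.h z μ ν : ℂ) * (v ν : ℂ) := by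
    rw [Finset.mul_sum]
    refine Finset.sum_congr rfl fun ν _ => ?_
    rw [PiLp.smul_apply, smul_eq_mul]
    push_cast
    ring
  rw [Wp, P08_evM_hM, h9]
  have h10 := P08_sq hr
  set E := evM x z ((√r)⁻¹ • v) p
  set F := evM x z ((√r)⁻¹ • v) (dM μ p)
  have h12 : (√r)⁻¹ • F = ((√r : ℂ)⁻¹) • F := by
    rw [← Complex.ofReal_inv]
    exact (Complex.coe_smul (E := En m) _ _).symm
  rw [h12]
  set S := ∑ ν, (g.h z μ ν : ℂ) * (v ν : ℂ) with hS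
  have h11 : (Complex.ofRealCLM (-((∑ ν, g.h z μ ν * v ν) / (2 * r)) * gs g z v r) : ℂ) =
      -((√r : ℂ)⁻¹ * (√r : ℂ)⁻¹ * (1 / 2) * S) * (gs g z v r : ℂ) := by
    rw [h10, hS, Complex.ofRealCLM_apply]
    push_cast
    ring
  rw [h11]
  module

/-- PROOF. `pd_Wp` twice (`pd μ` commutes with constant factors). -/
theorem pd_pd_Wp (g : Geo (2 * m)) (x : X) (z v : V (2 * m)) {r : ℝ} (hr : 0 < r)
    (μ ν : Fin (2 * m)) (p : PM (Ix m) (2 * m) (Rg P (2 * m) ρ)) :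
    pd μ (pd ν (Wp g x z r p)) v = (r⁻¹ : ℂ) • Wp g x z r (hM (hR g) μ (hM (hR g) ν p)) v := by
  have h1 : pd ν (Wp g x z r p) = fun v => ((√r)⁻¹ : ℂ) • Wp g x z r (hM (hR g) ν p) v :=
    funext fun v => pd_Wp g x z v hr ν p
  have h2 : pd μ (fun v => ((√r)⁻¹ : ℂ) • Wp g x z r (hM (hR g) ν p) v) v =
      ((√r)⁻¹ : ℂ) • pd μ (Wp g x z r (hM (hR g) ν p)) v := by
    have h3 := ((contDiff_Wp g x z r (hM (hR g) ν p)).differentiable (by simp)) v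
    exact congrArg (fun A => A (bv μ)) (h3.hasFDerivAt.const_smul ((√r)⁻¹ : ℂ)).fderiv
  rw [h1, h2, pd_Wp g x z v hr, smul_smul, P08_sq hr]

theorem P08_ev_gXX (g : Geo (2 * m)) (x : X) (z η : V (2 * m)) :
    ev x z η (gXX (hR (P := P) (ρ := ρ) g)) = (qf g z η : ℂ) := by
  have h (μ : Fin (2 * m)) : ev x z η (MvPolynomial.X μ : MvPolynomial _ (Rg P (2 * m) ρ)) =
      (η μ : ℂ) := by
    simp only [ev, MvPolynomial.coe_eval₂Hom, MvPolynomial.eval₂_X]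
  simp only [gXX, map_sum, map_mul, h, P08_ev_gX, qf]
  push_cast
  refine Finset.sum_congr rfl fun μ _ => ?_
  rw [Finset.mul_sum]
  refine Finset.sum_congr rfl fun ν _ => ?_
  ring

theorem P08_eulM (p : PM (Ix m) (2 * m) (Rg P (2 * m) ρ)) :
    eulM p = ∑ μ, (MvPolynomial.X μ : MvPolynomial _ (Rg P (2 * m) ρ)) • dM μ p := by
  refine Matrix.ext fun i j => ?_
  rw [Matrix.sum_apply]
  change (eulP : MvPolynomial (Fin (2 * m)) (Rg P (2 * m) ρ) →ₗ[Rg P (2 * m) ρ] _) (p i j) = _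
  rw [eulP_apply]
  rfl

theorem P08_eul (x : X) (z η : V (2 * m)) (p : PM (Ix m) (2 * m) (Rg P (2 * m) ρ)) :
    fderiv ℝ (fun η => evM x z η p) η η = evM x z η (eulM p) := by
  have h1 : η = ∑ μ, η μ • (bv μ : V (2 * m)) := by
    ext i
    simp [bv, Pi.single_apply]
  have h (μ : Fin (2 * m)) : ev x z η (MvPolynomial.X μ : MvPolynomial _ (Rg P (2 * m) ρ)) =
      (η μ : ℂ) := by
    simp only [ev, MvPolynomial.coe_eval₂Hom, MvPolynomial.eval₂_X]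
  conv_lhs => rw [show fderiv ℝ (fun η => evM x z η p) η η =
    fderiv ℝ (fun η => evM x z η p) η (∑ μ, η μ • (bv μ : V (2 * m))) by rw [← h1]]
  rw [map_sum, P08_eulM, evM_sum]
  refine Finset.sum_congr rfl fun μ _ => ?_
  rw [map_smul, evM_smul, h, ← pd_evM]
  exact (Complex.coe_smul (E := En m) _ _).symm

/-- PROOF. Product rule. `d/dr (√r)^n = (n / (2 r)) (√r)^n`; `hasDerivAt_gs`, where
`qf g z v / (4 r²) = r⁻¹ (1/4) qf g z η`, `η = (√r)⁻¹ • v` (`qf_smul`), `qf g z η = ev η (gXX (hR g))`;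
`d/dr (√r)⁻¹ = - (1/(2 r)) (√r)⁻¹`, so `d/dr evM η p = - (1 / (2 r)) ∑ η_μ evM η (dM μ p)
= - (1/(2 r)) evM η (eulM p)` (chain rule, `pd_evM`, `v = ∑ v_μ bv μ`). -/
theorem hasDerivAt_Wp (g : Geo (2 * m)) (x : X) (z v : V (2 * m)) {r : ℝ} (hr : 0 < r) (n : ℕ)
    (p : PM (Ix m) (2 * m) (Rg P (2 * m) ρ)) :
    HasDerivAt (fun r : ℝ => ((√r : ℂ) ^ n) • Wp g x z r p v)
      (((√r : ℂ) ^ n) • ((r⁻¹ : ℂ) • Wp g x z r (Op.tD g n p) v)) r := by
  have hs : 0 < √r := Real.sqrt_pos.2 hr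
  have hrr : √r * √r = r := Real.mul_self_sqrt hr.le
  have hrc : (r : ℂ) = (√r : ℂ) * (√r : ℂ) := by rw [← Complex.ofReal_mul, hrr]
  have hsc : (√r : ℂ) ≠ 0 := Complex.ofReal_ne_zero.2 hs.ne'
  have h1 : HasDerivAt (fun r : ℝ => √r) (1 / (2 * √r)) r := Real.hasDerivAt_sqrt hr.ne'
  have h2 : HasDerivAt (fun r : ℝ => (√r : ℂ)) ((1 / (2 * √r) : ℝ) : ℂ) r := h1.ofReal_comp
  have h3 : HasDerivAt (fun r : ℝ => (√r : ℂ) ^ n)
      (((n : ℂ) / 2) * (√r : ℂ) ^ n * (r : ℂ)⁻¹) r := by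
    refine (h2.pow n).congr_deriv ?_
    rcases n with _ | n
    · simp
    · rw [hrc, Nat.add_sub_cancel]
      push_cast
      field_simp
      ring
  have h4 : HasDerivAt (fun r : ℝ => (√r)⁻¹ • v) ((-(1 / (2 * r))) • ((√r)⁻¹ • v)) r := by
    refine ((h1.inv hs.ne').smul_const v).congr_deriv ?_
    rw [smul_smul]
    congr 1
    rw [sq, hrr]
    field_simp
  have h5 : HasFDerivAt (fun η => evM x z η p) (fderiv ℝ (fun η => evM x z η p) ((√r)⁻¹ • v))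
      ((√r)⁻¹ • v) := (((contDiff_evM x z p).differentiable (by simp)) _).hasFDerivAt
  have h6 : HasDerivAt (fun r : ℝ => evM x z ((√r)⁻¹ • v) p)
      ((-(1 / (2 * (r : ℂ)))) • evM x z ((√r)⁻¹ • v) (eulM p)) r := by
    refine (h5.comp_hasDerivAt r h4).congr_deriv ?_
    rw [map_smul, P08_eul]
    have h := Complex.coe_smul (E := En m) (-(1 / (2 * r))) (evM x z ((√r)⁻¹ • v) (eulM p))
    rw [← h]
    push_cast
    rfl
  have h7 := (hasDerivAt_gs g z v hr).ofReal_comp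
  have h8 : HasDerivAt (fun r : ℝ => (gs g z v r : ℂ) • evM x z ((√r)⁻¹ • v) p) _ r := h7.smul h6
  refine (h3.smul h8).congr_deriv ?_
  rw [Wp, Op.tD, evM_sub, evM_add, evM_sub, evM_smul_C, evM_smul_C, evM_smul_C, evM_smul_C,
    evM_smul, P08_ev_gXX, qf_smul]
  push_cast
  rw [hrc]
  module

/-- PROOF. `continuousOn_gs`, `continuous_evM` composed with `(r, z, v) ↦ (z, (√r)⁻¹ • v)`. -/
theorem continuousOn_Wp (g : Geo (2 * m)) (x : X) (p : PM (Ix m) (2 * m) (Rg P (2 * m) ρ)) :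
    ContinuousOn (fun q : ℝ × V (2 * m) × V (2 * m) => Wp g x q.2.1 q.1 p q.2.2) {q | 0 < q.1} := by
  change ContinuousOn (fun q : ℝ × V (2 * m) × V (2 * m) =>
    (gs g q.2.1 q.2.2 q.1 : ℂ) • evM x q.2.1 ((√q.1)⁻¹ • q.2.2) p) _
  have c1 : Continuous fun q : ℝ × V (2 * m) × V (2 * m) => q.2.1 := by fun_prop
  have c2 : Continuous fun q : ℝ × V (2 * m) × V (2 * m) => q.2.2 := by fun_prop
  have c3 : ContinuousOn (fun q : ℝ × V (2 * m) × V (2 * m) => (√q.1)⁻¹) {q | 0 < q.1} :=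
    ContinuousOn.inv₀ (by fun_prop) fun q hq => (Real.sqrt_pos.2 hq).ne'
  have c4 : ContinuousOn (fun q : ℝ × V (2 * m) × V (2 * m) => (q.2.1, (√q.1)⁻¹ • q.2.2))
      {q | 0 < q.1} := c1.continuousOn.prodMk (c3.smul c2.continuousOn)
  have c5 := (continuous_evM x p).comp_continuousOn c4
  have c6 := Complex.continuous_ofReal.comp_continuousOn (continuousOn_gs g)
  exact c6.smul c5

/-- The master bound.
PROOF. `c` from `gs_poly_le`; `evM_bd p`: `‖Wp‖ ≤ gs * Φ x (1 + ‖η‖)^M`, and `‖η‖^k ≤ (1 + ‖η‖)^k`; `gs_poly_le`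
with `M + k`. -/
theorem Wp_bd (g : Geo (2 * m)) (ρ : ℝ) : ∃ c : ℝ, 0 < c ∧
    ∀ (p : PM (Ix m) (2 * m) (Rg P (2 * m) ρ)) (k : ℕ), ∃ Φ : X → ℝ, Mom P Φ ∧
      ∀ x z v r, ‖z‖ ≤ ρ → 0 < r → ‖(√r)⁻¹ • v‖ ^ k * ‖Wp g x z r p v‖ ≤
        Φ x * ((r ^ m)⁻¹ * Real.exp (-(c * ‖v‖ ^ 2 / r))) := by
  obtain ⟨c, hc, h⟩ := gs_poly_le g ρ
  refine ⟨c, hc, fun p k => ?_⟩
  obtain ⟨Φ, M, hΦ, hp⟩ := evM_bd p
  obtain ⟨C, hC, hg⟩ := h (M + k)
  refine ⟨fun x => C * Φ x, hΦ.const_mul hC.le, fun x z v r hz hr => ?_⟩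
  have h1 := hp x z ((√r)⁻¹ • v) hz
  have h2 := hg z v r hz hr
  have h3 : ‖(√r)⁻¹ • v‖ ^ k ≤ (1 + ‖(√r)⁻¹ • v‖) ^ k :=
    pow_le_pow_left₀ (norm_nonneg _) (by linarith) k
  have h4 : 0 ≤ gs g z v r := (gs_pos g z v hr).le
  have h5 : ‖Wp g x z r p v‖ = gs g z v r * ‖evM x z ((√r)⁻¹ • v) p‖ := by
    rw [Wp, norm_smul, Complex.norm_real, Real.norm_of_nonneg h4]
  rw [h5]
  calc ‖(√r)⁻¹ • v‖ ^ k * (gs g z v r * ‖evM x z ((√r)⁻¹ • v) p‖)
      ≤ (1 + ‖(√r)⁻¹ • v‖) ^ k * (gs g z v r * (Φ x * (1 + ‖(√r)⁻¹ • v‖) ^ M)) := by gcongr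
    _ = Φ x * (gs g z v r * (1 + ‖(√r)⁻¹ • v‖) ^ (M + k)) := by rw [pow_add]; ring
    _ ≤ Φ x * (C * (r ^ m)⁻¹ * Real.exp (-(c * ‖v‖ ^ 2 / r))) :=
      mul_le_mul_of_nonneg_left h2 (hΦ.nonneg x)
    _ = _ := by ring

namespace Op

theorem contDiff_U (g : Geo (2 * m)) (o : Op P m ρ) (J : ℕ) (t : ℝ) (x : X) (z : V (2 * m))
    (r : ℝ) : ContDiff ℝ ∞ (o.U g J t x z r) := by
  exact ContDiff.sum fun n _ => (contDiff_Wp g x z r _).const_smul _

theorem hasDerivAt_U (g : Geo (2 * m)) (o : Op P m ρ) (J : ℕ) (t : ℝ) (x : X) (z v : V (2 * m))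
    {r : ℝ} (hr : 0 < r) :
    HasDerivAt (fun r => o.U g J t x z r v) (o.Ud g J t x z r v) r := by
  exact HasDerivAt.fun_sum fun n _ => hasDerivAt_Wp g x z v hr n _

theorem pd_U (g : Geo (2 * m)) (o : Op P m ρ) (J : ℕ) (t : ℝ) (x : X) (z v : V (2 * m))
    {r : ℝ} (hr : 0 < r) (μ : Fin (2 * m)) :
    pd μ (o.U g J t x z r) v = ((√r)⁻¹ : ℂ) • ∑ n ∈ Finset.range (J + 1),
      ((√r : ℂ) ^ n) • Wp g x z r (hM (hR g) μ ((o.dat g).PT t n)) v := by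
  have h1 : HasFDerivAt (o.U g J t x z r) (∑ n ∈ Finset.range (J + 1), ((√r : ℂ) ^ n) •
      fderiv ℝ (Wp g x z r ((o.dat g).PT t n)) v) v :=
    HasFDerivAt.fun_sum fun n _ => ((((contDiff_Wp g x z r ((o.dat g).PT t n)).differentiable
      (by simp)) v).hasFDerivAt).const_smul ((√r : ℂ) ^ n)
  have h2 : pd μ (o.U g J t x z r) v = ∑ n ∈ Finset.range (J + 1), ((√r : ℂ) ^ n) •
      pd μ (Wp g x z r ((o.dat g).PT t n)) v := by
    refine (congrArg (fun A => A (bv μ)) h1.fderiv).trans ?_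
    simp only [sum_apply, smul_apply]
    rfl
  rw [h2, Finset.smul_sum]
  refine Finset.sum_congr rfl fun n _ => ?_
  rw [pd_Wp g x z v hr, smul_comm]

theorem pd_pd_U (g : Geo (2 * m)) (o : Op P m ρ) (J : ℕ) (t : ℝ) (x : X) (z v : V (2 * m))
    {r : ℝ} (hr : 0 < r) (μ ν : Fin (2 * m)) :
    pd μ (pd ν (o.U g J t x z r)) v = (r⁻¹ : ℂ) • ∑ n ∈ Finset.range (J + 1),
      ((√r : ℂ) ^ n) • Wp g x z r (hM (hR g) μ (hM (hR g) ν ((o.dat g).PT t n))) v := by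
  have h1 : pd ν (o.U g J t x z r) = fun v => ((√r)⁻¹ : ℂ) • ∑ n ∈ Finset.range (J + 1),
      ((√r : ℂ) ^ n) • Wp g x z r (hM (hR g) ν ((o.dat g).PT t n)) v :=
    funext fun v => pd_U g o J t x z v hr ν
  have h2 : HasFDerivAt (fun v => ((√r)⁻¹ : ℂ) • ∑ n ∈ Finset.range (J + 1),
      ((√r : ℂ) ^ n) • Wp g x z r (hM (hR g) ν ((o.dat g).PT t n)) v)
      (((√r)⁻¹ : ℂ) • ∑ n ∈ Finset.range (J + 1), ((√r : ℂ) ^ n) •
      fderiv ℝ (Wp g x z r (hM (hR g) ν ((o.dat g).PT t n))) v) v :=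
    (HasFDerivAt.fun_sum fun n _ => ((((contDiff_Wp g x z r
      (hM (hR g) ν ((o.dat g).PT t n))).differentiable
      (by simp)) v).hasFDerivAt).const_smul ((√r : ℂ) ^ n)).const_smul ((√r)⁻¹ : ℂ)
  have h3 : pd μ (fun v => ((√r)⁻¹ : ℂ) • ∑ n ∈ Finset.range (J + 1),
      ((√r : ℂ) ^ n) • Wp g x z r (hM (hR g) ν ((o.dat g).PT t n)) v) v =
      ((√r)⁻¹ : ℂ) • ∑ n ∈ Finset.range (J + 1), ((√r : ℂ) ^ n) •
      pd μ (Wp g x z r (hM (hR g) ν ((o.dat g).PT t n))) v := by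
    refine (congrArg (fun A => A (bv μ)) h2.fderiv).trans ?_
    simp only [sum_apply, smul_apply]
    rfl
  rw [h1, h3, ← P08_sq hr, mul_smul]
  congr 1
  rw [Finset.smul_sum]
  refine Finset.sum_congr rfl fun n _ => ?_
  rw [pd_Wp g x z v hr, smul_comm]

end Op

end Pool.Agent.Lib.MP_df705a_gt.RL
end
end

section

/-!
# RL2: from `ParaX` to `Para` (E3)
-/

open scoped ContDiff InnerProductSpace Matrix ENNReal NNReal Topology
open MeasureTheory Filter Set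

noncomputable section

namespace Pool.Agent.Lib.MP_df705a_gt.RL

variable {m : ℕ}

/-- The bridge.
PROOF. `a = max 1 K` with `K` from `ParaX.norm_emb`. `tf`: `ParaX.isTF_q`; `supp`, `qd_supp`: `‖y‖ > ρ + 1`,
`‖z‖ ≤ ρ` give `‖y - z‖ > 1`; `qd_cont`: `cont_qd` with fixed `τ`, `z`; `eqn`: `heat`; `der`: `ParaX.hasDerivAt_emb`;
`cont`: `ParaX.continuousOn_emb_e`; `meas`: `cont_q` with fixed `τ > 0` is continuous in `(z, y)`; `bq`: `bd_q`, `gz`
unfolded, `a ≥ 1`; `be`: `ParaX.norm_emb`, `(√τ)⁻¹ (√τ)^m = √τ^(m-1)` since `m ≥ 1`; `delta`: `delta`. -/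
theorem ParaX.exists_para (g : Geo (2 * m)) (hm : 1 ≤ m) (ρ : ℝ) {κ : ℝ} (hκ : 0 < κ) :
    ∃ a : ℝ, 1 ≤ a ∧ ∀ (C : Cliff m) (B : Pot (2 * m)) (c : ℝ) (p : ParaX C g B ρ c κ)
      (F : Set (V (2 * m))), (∀ z ∈ F, ‖z‖ ≤ ρ) →
        Para C g B F p.q p.qd p.e (a * c) κ (ρ + 1) := by
  obtain ⟨K, hK, h⟩ := ParaX.norm_emb g ρ hκ
  refine ⟨max 1 K, le_max_left _ _, fun C B c p F hF => ?_⟩
  have hc := p.c_pos
  have ha : (1 : ℝ) ≤ max 1 K := le_max_left _ _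
  have hb : K ≤ max 1 K := le_max_right _ _
  have hfar : ∀ z ∈ F, ∀ y : V (2 * m), ρ + 1 < ‖y‖ → 1 < ‖y - z‖ := fun z hz y hy => by
    have h1 := norm_sub_norm_le y z
    have h2 := hF z hz
    linarith
  refine
    { c_pos := mul_pos (by linarith) hc
      κ_pos := hκ
      tf := fun τ hτ z _ u => p.isTF_q hτ z u
      supp := fun τ _ z hz y hy => (p.supp τ z y (hfar z hz y hy)).1
      qd_cont := fun τ hτ z _ => ?_
      qd_supp := fun τ _ z hz y hy => (p.supp τ z y (hfar z hz y hy)).2.1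
      eqn := fun τ hτ z _ y u => p.heat τ z y u hτ
      der := fun z _ u τ hτ => p.hasDerivAt_emb hτ z u
      cont := fun z _ u => p.continuousOn_emb_e z u
      meas := fun τ hτ => ?_
      bq := fun τ hτ hτ1 z hz y => ?_
      be := fun τ hτ hτ1 z hz u => ?_
      delta := fun z hz φ hφ hφ' => p.delta z φ (hF z hz) hφ hφ' }
  · exact p.cont_qd.comp_continuous (f := fun y => ((τ, z, y) : ℝ × V (2 * m) × V (2 * m)))
      (by fun_prop) fun _ => hτ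
  · exact (p.cont_q.comp_continuous
      (f := fun x : V (2 * m) × V (2 * m) => ((τ, x.1, x.2) : ℝ × V (2 * m) × V (2 * m)))
      (by fun_prop) fun _ => hτ).stronglyMeasurable
  · refine (p.bd_q τ z y (hF z hz) hτ hτ1).trans ?_
    have h1 : 0 ≤ c * ((τ ^ m)⁻¹ * Real.exp (-(κ * ‖y - z‖ ^ 2 / τ))) := by positivity
    calc c * gz m κ (y - z) τ
        = 1 * (c * ((τ ^ m)⁻¹ * Real.exp (-(κ * ‖y - z‖ ^ 2 / τ)))) := by rw [gz, one_mul]
      _ ≤ max 1 K * (c * ((τ ^ m)⁻¹ * Real.exp (-(κ * ‖y - z‖ ^ 2 / τ)))) :=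
        mul_le_mul_of_nonneg_right ha h1
      _ = _ := by rw [div_eq_mul_inv]; ring
  · refine ((h C B c p z u τ (hF z hz) hτ hτ1).2).trans ?_
    have hs : 0 < √τ := Real.sqrt_pos.2 hτ
    have h1 : (√τ)⁻¹ * (√τ) ^ m = √τ ^ (m - 1) := by
      obtain ⟨k, rfl⟩ : ∃ k, m = k + 1 := ⟨m - 1, by omega⟩
      rw [pow_succ, Nat.add_sub_cancel]
      field_simp
    rw [h1]
    have h2 : 0 ≤ c * √τ ^ (m - 1) * ‖u‖ := by positivity
    calc K * c * √τ ^ (m - 1) * ‖u‖ = K * (c * √τ ^ (m - 1) * ‖u‖) := by ring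
      _ ≤ max 1 K * (c * √τ ^ (m - 1) * ‖u‖) := mul_le_mul_of_nonneg_right hb h2
      _ = _ := by ring

end Pool.Agent.Lib.MP_df705a_gt.RL
end
end
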