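import Pool.Agent.Lib.MP_df705a_gt.Mg.G032
import Pool.Agent.Lib.MP_df705a_gt.Mg.G034
import Pool.Agent.Lib.MP_df705a_gt.Mg.G044
import Pool.Agent.Lib.MP_df705a_gt.Mg.G047

section

/-!
# RL2, file U6: transport of the Dirac operator of a `Geo`; isometries
-/

set_option linter.unusedSectionVars false

open scoped Matrix ContDiff Topology
open Metric

namespace Pool.Agent.Lib.MP_df705a_gt.RL

noncomputable section

variable {N m : ℕ}

/-! ## specialisation to `Cliff m` -/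

theorem Cliff.env (C : Cliff m) : CEnv (A := En m) (trL m) C.c where
  cl := C.isCliff
  st := C.star_c
  rc r x := En.real_smul_eq r x
  tr := trL_comm
  top := C.tr_eps_top_ne_zero
  pos u r h hu := by
    have h1 : ∀ x : Sp m, ‖u x‖ ^ 2 = r * ‖x‖ ^ 2 := by
      intro x
      have h1 : inner ℂ (u x) (u x) = inner ℂ x ((star u * u) x) := by
        show _ = inner ℂ x (adj u (u x))
        rw [ContinuousLinearMap.adjoint_inner_right]
      rw [h] at h1
      have h2 : (((r : ℂ) • (1 : En m)) x) = (r : ℂ) • x := rfl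
      rw [h2, inner_smul_right, inner_self_eq_norm_sq_to_K, inner_self_eq_norm_sq_to_K] at h1
      have h3 : ((‖u x‖ ^ 2 : ℝ) : ℂ) = ((r * ‖x‖ ^ 2 : ℝ) : ℂ) := by
        push_cast; exact h1
      exact_mod_cast h3
    have h2 : ∃ x : Sp m, u x ≠ 0 := by
      by_contra h3
      push Not at h3
      exact hu (ContinuousLinearMap.ext h3)
    obtain ⟨x, hx⟩ := h2
    have h3 : 0 < ‖u x‖ ^ 2 := by positivity
    rw [h1 x] at h3
    by_contra h4
    push Not at h4
    have : r * ‖x‖ ^ 2 ≤ 0 := mul_nonpos_of_nonpos_of_nonneg h4 (by positivity)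
    linarith

theorem trL_one_ne_zero : trL m (1 : En m) ≠ 0 := by
  rw [trL_apply, tr_one]; exact pow_ne_zero m two_ne_zero

/-- The smooth spin lift, for Clifford matrices. -/
theorem Cliff.exists_smooth_lift (C : Cliff m) {R : V (2 * m) → Mt (2 * m)} (hR : IsRot R) :
    ∃ U : V (2 * m) → En m, ContDiff ℝ ∞ U ∧ ∀ y, LiftA C.c (R y) (U y) :=
  RL.exists_smooth_lift C.env trL_one_ne_zero hR

/-! ## matrix calculus -/

theorem pd_mul' {f g : V N → ℝ} (hf : Differentiable ℝ f) (hg : Differentiable ℝ g) (μ : Fin N)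
    (y : V N) : pd μ (fun y => f y * g y) y = pd μ f y * g y + f y * pd μ g y := by
  unfold pd
  have h1 : fderiv ℝ (fun y => f y * g y) y = f y • fderiv ℝ g y + g y • fderiv ℝ f y :=
    fderiv_fun_mul (hf y) (hg y)
  rw [h1]
  simp only [add_apply, smul_apply, smul_eq_mul]; ring

theorem pd_sum' {F ι : Type*} [NormedAddCommGroup F] [NormedSpace ℝ F] (s : Finset ι)
    {f : ι → V N → F} (hf : ∀ i ∈ s, Differentiable ℝ (f i)) (μ : Fin N) (y : V N) :
    pd μ (fun y => ∑ i ∈ s, f i y) y = ∑ i ∈ s, pd μ (f i) y := by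
  unfold pd
  rw [fderiv_fun_sum fun i hi => hf i hi y, sum_apply]

theorem contDiff_jac {Φ : V N → V N} (hΦ : ContDiff ℝ ∞ Φ) (ν μ : Fin N) :
    ContDiff ℝ ∞ fun y => jac Φ y ν μ := by
  unfold jac
  simp only [Matrix.of_apply]
  have h1 : ContDiff ℝ ∞ fun y => fderiv ℝ Φ y (bv μ) :=
    (hΦ.fderiv_right (by simp)).clm_apply contDiff_const
  exact (EuclideanSpace.proj (𝕜 := ℝ) ν).contDiff.comp h1

/-- the second derivatives of `Φ` are symmetric -/
theorem pd_jac_symm {Φ : V N → V N} (hΦ : ContDiff ℝ ∞ Φ) (k μ ν : Fin N) (y : V N) :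
    pd μ (fun y => jac Φ y k ν) y = pd ν (fun y => jac Φ y k μ) y := by
  have h1 : ∀ μ ν : Fin N, pd μ (fun y => jac Φ y k ν) y
      = (fderiv ℝ (fderiv ℝ Φ) y (bv μ)) (bv ν) k := by
    intro μ ν
    unfold pd jac
    simp only [Matrix.of_apply]
    have hd : DifferentiableAt ℝ (fderiv ℝ Φ) y :=
      ((hΦ.fderiv_right (m := ∞) (by simp)).differentiable (by simp)) y
    have h2 : HasFDerivAt (fun y => fderiv ℝ Φ y (bv ν))
        ((ContinuousLinearMap.apply ℝ (V N) (bv ν)).comp (fderiv ℝ (fderiv ℝ Φ) y)) y :=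
      (ContinuousLinearMap.apply ℝ (V N) (bv ν)).hasFDerivAt.comp y hd.hasFDerivAt
    have h3 : HasFDerivAt (fun y => (fderiv ℝ Φ y (bv ν)) k)
        ((EuclideanSpace.proj (𝕜 := ℝ) k).comp
          ((ContinuousLinearMap.apply ℝ (V N) (bv ν)).comp (fderiv ℝ (fderiv ℝ Φ) y))) y :=
      (EuclideanSpace.proj (𝕜 := ℝ) k).hasFDerivAt.comp y h2
    rw [h3.fderiv]; rfl
  rw [h1, h1]
  have h4 : IsSymmSndFDerivAt ℝ Φ y := by
    refine hΦ.contDiffAt.isSymmSndFDerivAt ?_
    rw [minSmoothness_of_isRCLikeNormedField]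
    exact WithTop.coe_le_coe.mpr le_top
  rw [h4.eq (bv μ) (bv ν)]

/-! ## uniqueness of the connection matrices -/

/-- the torsion equation -/
def Tors (θ : V N → Mt N) (Γ : Fin N → V N → Mt N) : Prop :=
  ∀ μ ν y a, pd μ (fun y => θ y a ν) y - pd ν (fun y => θ y a μ) y
    + ∑ b, (Γ μ y a b * θ y b ν - Γ ν y a b * θ y b μ) = 0

theorem Gamma_unique {θ e : V N → Mt N} (θe : ∀ y, θ y * e y = 1) {Γ Γ' : Fin N → V N → Mt N}
    (ha : ∀ μ y a b, Γ μ y b a = -Γ μ y a b) (ha' : ∀ μ y a b, Γ' μ y b a = -Γ' μ y a b)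
    (ht : Tors θ Γ) (ht' : Tors θ Γ') (μ : Fin N) (y : V N) : Γ μ y = Γ' μ y := by
  set D : Fin N → Mt N := fun μ => Γ μ y - Γ' μ y with hD
  have hDa : ∀ μ a b, D μ b a = -D μ a b := by
    intro μ a b
    simp only [hD, Matrix.sub_apply, ha μ y a b, ha' μ y a b]; ring
  have hDt : ∀ μ ν a, ∑ b, D μ a b * θ y b ν = ∑ b, D ν a b * θ y b μ := by
    intro μ ν a
    have h1 := ht μ ν y a
    have h2 := ht' μ ν y a
    have h3 : ∑ b, (D μ a b * θ y b ν - D ν a b * θ y b μ)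
        = ∑ b, (Γ μ y a b * θ y b ν - Γ ν y a b * θ y b μ)
          - ∑ b, (Γ' μ y a b * θ y b ν - Γ' ν y a b * θ y b μ) := by
      rw [← Finset.sum_sub_distrib]
      refine Finset.sum_congr rfl fun b _ => ?_
      simp only [hD, Matrix.sub_apply]; ring
    have h4 : ∑ b, (D μ a b * θ y b ν - D ν a b * θ y b μ) = 0 := by
      rw [h3]; linarith
    rw [Finset.sum_sub_distrib] at h4
    linarith
  -- frame components
  set T : Fin N → Mt N := fun c => ∑ μ, e y μ c • D μ with hT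
  have hTa : ∀ c a b, T c b a = -T c a b := by
    intro c a b
    simp only [hT, Matrix.sum_apply, Matrix.smul_apply, smul_eq_mul, hDa _ a b, mul_neg,
      Finset.sum_neg_distrib]
  have hte : ∀ b d, ∑ ν, θ y b ν * e y ν d = if b = d then 1 else 0 := by
    intro b d
    have := congrFun (congrFun (θe y) b) d
    rwa [Matrix.mul_apply, Matrix.one_apply] at this
  have hTs : ∀ a c d, T c a d = T d a c := by
    have key : ∀ a c d, T c a d = ∑ μ, ∑ ν, e y μ c * e y ν d * ∑ b, D μ a b * θ y b ν := by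
      intro a c d
      simp only [hT, Matrix.sum_apply, Matrix.smul_apply, smul_eq_mul]
      refine Finset.sum_congr rfl fun μ _ => ?_
      have h1 : D μ a d = ∑ b, D μ a b * ∑ ν, θ y b ν * e y ν d := by
        simp only [hte]; simp
      rw [h1, Finset.mul_sum]
      simp only [Finset.mul_sum]
      rw [Finset.sum_comm]
      refine Finset.sum_congr rfl fun ν _ => Finset.sum_congr rfl fun b _ => ?_
      ring
    intro a c d
    rw [key a c d, key a d c, Finset.sum_comm]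
    refine Finset.sum_congr rfl fun ν _ => Finset.sum_congr rfl fun μ _ => ?_
    rw [hDt μ ν a]; ring
  have hT0 : ∀ c a d, T c a d = 0 := by
    intro c a d
    have h1 := hTs a c d
    have h2 := hTa d c a
    have h3 := hTs c d a
    have h4 := hTa a d c
    have h5 := hTs d a c
    have h6 := hTa c a d
    linarith
  -- back
  have hDT : ∀ μ a b, D μ a b = ∑ c, θ y c μ * T c a b := by
    intro μ a b
    simp only [hT, Matrix.sum_apply, Matrix.smul_apply, smul_eq_mul, Finset.mul_sum]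
    rw [Finset.sum_comm]
    have het : ∀ ν, ∑ c, θ y c μ * (e y ν c * D ν a b) = (if ν = μ then 1 else 0) * D ν a b := by
      intro ν
      have h1 : (e y * θ y) ν μ = (1 : Mt N) ν μ := by
        rw [mul_eq_one_comm.mp (θe y)]
      rw [Matrix.mul_apply, Matrix.one_apply] at h1
      rw [← h1, Finset.sum_mul]
      exact Finset.sum_congr rfl fun c _ => by ring
    rw [Finset.sum_congr rfl fun ν _ => het ν]
    simp
  ext a b
  have : D μ a b = 0 := by rw [hDT]; simp [hT0]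
  simp only [hD, Matrix.sub_apply] at this
  linarith

/-! ## the transported geometry -/

/-- pull-back of matrix valued one-forms -/
def pullG (Φ : V N → V N) (Γ : Fin N → V N → Mt N) (μ : Fin N) (y : V N) : Mt N :=
  ∑ ν, jac Φ y ν μ • Γ ν (Φ y)

/-- the torsion equation is invariant under pull-back -/
theorem tors_pull {Φ : V N → V N} (hΦ : ContDiff ℝ ∞ Φ) {θ : V N → Mt N}
    (hθ : ∀ a μ, ContDiff ℝ ∞ fun y => θ y a μ) {Γ : Fin N → V N → Mt N} (ht : Tors θ Γ) :
    Tors (fun y => θ (Φ y) * jac Φ y) (pullG Φ Γ) := by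
  intro μ ν y a
  have hΦd : Differentiable ℝ Φ := hΦ.differentiable (by simp)
  have h1 : ∀ μ ν, pd μ (fun y => (θ (Φ y) * jac Φ y) a ν) y
      = ∑ l, ((∑ k, jac Φ y k μ * pd k (fun y => θ y a l) (Φ y)) * jac Φ y l ν
        + θ (Φ y) a l * pd μ (fun y => jac Φ y l ν) y) := by
    intro μ ν
    have e0 : (fun y => (θ (Φ y) * jac Φ y) a ν) = fun y => ∑ l, θ (Φ y) a l * jac Φ y l ν := by
      funext y; rw [Matrix.mul_apply]
    rw [e0, pd_sum']
    · refine Finset.sum_congr rfl fun l _ => ?_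
      rw [pd_mul']
      · congr 2
        have := pd_comp hΦd (ψ := fun y => θ y a l) ((hθ a l).differentiable (by simp)) μ y
        simpa only [smul_eq_mul] using this
      · exact ((hθ a l).comp hΦ).differentiable (by simp)
      · exact (contDiff_jac hΦ l ν).differentiable (by simp)
    · intro l _
      exact (((hθ a l).comp hΦ).mul (contDiff_jac hΦ l ν)).differentiable (by simp)
  have h2 : ∀ μ ν, ∑ b, pullG Φ Γ μ y a b * (θ (Φ y) * jac Φ y) b ν
      = ∑ k, ∑ l, jac Φ y k μ * jac Φ y l ν * ∑ b, Γ k (Φ y) a b * θ (Φ y) b l := by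
    intro μ ν
    simp only [pullG, Matrix.sum_apply, Matrix.smul_apply, smul_eq_mul, Matrix.mul_apply,
      Finset.sum_mul, Finset.mul_sum]
    conv_rhs => rw [Finset.sum_comm]
    rw [Finset.sum_comm]
    refine Finset.sum_congr rfl fun l _ => ?_
    rw [Finset.sum_comm]
    refine Finset.sum_congr rfl fun k _ => Finset.sum_congr rfl fun b _ => ?_
    ring
  have h3 : ∀ μ ν, pd μ (fun y => (θ (Φ y) * jac Φ y) a ν) y
      + ∑ b, pullG Φ Γ μ y a b * (θ (Φ y) * jac Φ y) b ν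
      = (∑ k, ∑ l, jac Φ y k μ * jac Φ y l ν * (pd k (fun y => θ y a l) (Φ y)
          + ∑ b, Γ k (Φ y) a b * θ (Φ y) b l))
        + ∑ l, θ (Φ y) a l * pd μ (fun y => jac Φ y l ν) y := by
    intro μ ν
    rw [h1, h2, Finset.sum_add_distrib]
    have e1 : ∑ l, (∑ k, jac Φ y k μ * pd k (fun y => θ y a l) (Φ y)) * jac Φ y l ν
        = ∑ k, ∑ l, jac Φ y k μ * jac Φ y l ν * pd k (fun y => θ y a l) (Φ y) := by
      simp only [Finset.sum_mul]
      rw [Finset.sum_comm]
      refine Finset.sum_congr rfl fun k _ => Finset.sum_congr rfl fun l _ => ?_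
      ring
    rw [e1]
    simp only [mul_add, Finset.sum_add_distrib]
    ring
  have h4 : pd μ (fun y => (θ (Φ y) * jac Φ y) a ν) y
      - pd ν (fun y => (θ (Φ y) * jac Φ y) a μ) y
      + ∑ b, (pullG Φ Γ μ y a b * (θ (Φ y) * jac Φ y) b ν
        - pullG Φ Γ ν y a b * (θ (Φ y) * jac Φ y) b μ)
      = (pd μ (fun y => (θ (Φ y) * jac Φ y) a ν) y
          + ∑ b, pullG Φ Γ μ y a b * (θ (Φ y) * jac Φ y) b ν)
        - (pd ν (fun y => (θ (Φ y) * jac Φ y) a μ) y
          + ∑ b, pullG Φ Γ ν y a b * (θ (Φ y) * jac Φ y) b μ) := by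
    rw [Finset.sum_sub_distrib]; ring
  rw [h4, h3 μ ν, h3 ν μ]
  have h5 : ∑ l, θ (Φ y) a l * pd μ (fun y => jac Φ y l ν) y
      = ∑ l, θ (Φ y) a l * pd ν (fun y => jac Φ y l μ) y :=
    Finset.sum_congr rfl fun l _ => by rw [pd_jac_symm hΦ]
  rw [h5]
  have h6 : (∑ k, ∑ l, jac Φ y k ν * jac Φ y l μ * (pd k (fun y => θ y a l) (Φ y)
          + ∑ b, Γ k (Φ y) a b * θ (Φ y) b l))
      = ∑ k, ∑ l, jac Φ y k μ * jac Φ y l ν * (pd l (fun y => θ y a k) (Φ y)
          + ∑ b, Γ l (Φ y) a b * θ (Φ y) b k) := by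
    rw [Finset.sum_comm]
    refine Finset.sum_congr rfl fun k _ => Finset.sum_congr rfl fun l _ => ?_
    ring
  rw [h6]
  have h7 : ∀ k l, (pd k (fun y => θ y a l) (Φ y) + ∑ b, Γ k (Φ y) a b * θ (Φ y) b l)
      = (pd l (fun y => θ y a k) (Φ y) + ∑ b, Γ l (Φ y) a b * θ (Φ y) b k) := by
    intro k l
    have := ht k l (Φ y) a
    rw [Finset.sum_sub_distrib] at this
    linarith
  have h8 : (∑ k, ∑ l, jac Φ y k μ * jac Φ y l ν * (pd k (fun y => θ y a l) (Φ y)
          + ∑ b, Γ k (Φ y) a b * θ (Φ y) b l))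
      = ∑ k, ∑ l, jac Φ y k μ * jac Φ y l ν * (pd l (fun y => θ y a k) (Φ y)
          + ∑ b, Γ l (Φ y) a b * θ (Φ y) b k) :=
    Finset.sum_congr rfl fun k _ => Finset.sum_congr rfl fun l _ => by rw [h7]
  rw [h8]; ring

end

end Pool.Agent.Lib.MP_df705a_gt.RL
end

section

/-!
# RL2, file U7: isometries, the transport for a `Geo`, potentials
-/

set_option linter.unusedSectionVars false

open scoped Matrix ContDiff Topology
open Metric

namespace Pool.Agent.Lib.MP_df705a_gt.RL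

noncomputable section

variable {N m : ℕ}

/-- the gauge transformation of the torsion equation -/
theorem tors_gauge {R : V (2 * m) → Mt (2 * m)} (hR : IsRot R) {w : V (2 * m) → Mt (2 * m)}
    (hw : ∀ a μ, ContDiff ℝ ∞ fun y => w y a μ) {G : Fin (2 * m) → V (2 * m) → Mt (2 * m)}
    (ht : Tors w G) : Tors (fun y => (R y)ᵀ * w y)
      (fun μ y => (R y)ᵀ * G μ y * R y + (R y)ᵀ * duM R y (bv μ)) := by
  have key : ∀ μ ν y a, pd μ (fun y => ((R y)ᵀ * w y) a ν) y
      + (((R y)ᵀ * G μ y * R y + (R y)ᵀ * duM R y (bv μ)) * ((R y)ᵀ * w y)) a ν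
      = ∑ b, R y b a * (pd μ (fun y => w y b ν) y + (G μ y * w y) b ν) := by
    intro μ ν y a
    have h1 : pd μ (fun y => ((R y)ᵀ * w y) a ν) y
        = ((duM R y (bv μ))ᵀ * w y) a ν + ∑ b, R y b a * pd μ (fun y => w y b ν) y := by
      have e0 : (fun y => ((R y)ᵀ * w y) a ν) = fun y => ∑ b, R y b a * w y b ν := by
        funext y; rw [Matrix.mul_apply]; rfl
      rw [e0, pd_sum', Matrix.mul_apply, ← Finset.sum_add_distrib]
      · refine Finset.sum_congr rfl fun b _ => ?_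
        rw [pd_mul' ((hR.smooth b a).differentiable (by simp)) ((hw b ν).differentiable (by simp))]
        rfl
      · intro b _
        exact ((hR.smooth b a).mul (hw b ν)).differentiable (by simp)
    have h2 : ((R y)ᵀ * G μ y * R y + (R y)ᵀ * duM R y (bv μ)) * ((R y)ᵀ * w y)
        = (R y)ᵀ * (G μ y * w y) - (duM R y (bv μ))ᵀ * w y := by
      have e1 : (R y)ᵀ * duM R y (bv μ) = -((duM R y (bv μ))ᵀ * R y) := by
        ext a b
        have h := duM_anti hR y (bv μ) b a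
        rw [h, Matrix.neg_apply]
        congr 1
        rw [Matrix.mul_apply, Matrix.mul_apply]
        exact Finset.sum_congr rfl fun j _ => by
          rw [Matrix.transpose_apply, Matrix.transpose_apply, mul_comm]
      rw [add_mul, e1]
      calc (R y)ᵀ * G μ y * R y * ((R y)ᵀ * w y) + -((duM R y (bv μ))ᵀ * R y) * ((R y)ᵀ * w y)
          = (R y)ᵀ * G μ y * (R y * (R y)ᵀ) * w y
            - (duM R y (bv μ))ᵀ * (R y * (R y)ᵀ) * w y := by
            simp only [Matrix.mul_assoc, Matrix.neg_mul, sub_eq_add_neg]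
        _ = _ := by rw [hR.orth']; simp only [Matrix.mul_one, Matrix.mul_assoc]
    rw [h1, h2, Matrix.sub_apply]
    have h3 : ((R y)ᵀ * (G μ y * w y)) a ν = ∑ b, R y b a * (G μ y * w y) b ν := by
      rw [Matrix.mul_apply]; rfl
    rw [h3]
    simp only [mul_add, Finset.sum_add_distrib]
    ring
  intro μ ν y a
  have h1 : ∀ (A B C D : Mt (2 * m)), ∑ b, (A a b * B b ν - C a b * D b μ)
      = (A * B) a ν - (C * D) a μ := by
    intro A B C D
    rw [Finset.sum_sub_distrib, Matrix.mul_apply, Matrix.mul_apply]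
  rw [h1]
  have h2 := key μ ν y a
  have h3 := key ν μ y a
  have h4 : ∑ b, R y b a * (pd μ (fun y => w y b ν) y + (G μ y * w y) b ν)
      = ∑ b, R y b a * (pd ν (fun y => w y b μ) y + (G ν y * w y) b μ) := by
    refine Finset.sum_congr rfl fun b _ => ?_
    congr 1
    have := ht μ ν y b
    rw [Finset.sum_sub_distrib] at this
    rw [Matrix.mul_apply, Matrix.mul_apply]
    linarith
  linarith

theorem gauge_anti {R : V (2 * m) → Mt (2 * m)} (hR : IsRot R)
    {G : Fin (2 * m) → V (2 * m) → Mt (2 * m)} (hG : ∀ μ y a b, G μ y b a = -G μ y a b)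
    (μ : Fin (2 * m)) (y : V (2 * m)) (a b : Fin (2 * m)) :
    ((R y)ᵀ * G μ y * R y + (R y)ᵀ * duM R y (bv μ)) b a
      = -((R y)ᵀ * G μ y * R y + (R y)ᵀ * duM R y (bv μ)) a b := by
  rw [Matrix.add_apply, Matrix.add_apply, duM_anti hR y (bv μ) a b, neg_add]
  congr 1
  have h1 : (G μ y)ᵀ = -(G μ y) := by
    ext i j; rw [Matrix.transpose_apply, Matrix.neg_apply]; exact hG μ y i j
  have h2 : ((R y)ᵀ * G μ y * R y)ᵀ = -((R y)ᵀ * G μ y * R y) := by
    rw [Matrix.transpose_mul, Matrix.transpose_mul, Matrix.transpose_transpose, h1]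
    simp only [Matrix.mul_neg, Matrix.neg_mul, Matrix.mul_assoc]
  have h3 := congrFun (congrFun h2 a) b
  rwa [Matrix.transpose_apply, Matrix.neg_apply] at h3

theorem pullG_anti (Φ : V N → V N) {Γ : Fin N → V N → Mt N}
    (h : ∀ μ y a b, Γ μ y b a = -Γ μ y a b) (μ : Fin N) (y : V N) (a b : Fin N) :
    pullG Φ Γ μ y b a = -pullG Φ Γ μ y a b := by
  simp only [pullG, Matrix.sum_apply, Matrix.smul_apply, smul_eq_mul, h _ _ a b, mul_neg,
    Finset.sum_neg_distrib]

theorem contDiff_matmul {A B : V N → Mt N} (hA : ∀ a b, ContDiff ℝ ∞ fun y => A y a b)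
    (hB : ∀ a b, ContDiff ℝ ∞ fun y => B y a b) (a b : Fin N) :
    ContDiff ℝ ∞ fun y => (A y * B y) a b := by
  simp only [Matrix.mul_apply]
  exact ContDiff.sum fun j _ => (hA a j).mul (hB j b)

/-! ## isometries -/

/-- `Φ` is an isometry for `g` which preserves the orientation. -/
structure IsIsom (g : Geo N) (Φ : V N → V N) : Prop where
  smooth : ContDiff ℝ ∞ Φ
  isom : ∀ y, (jac Φ y)ᵀ * g.h (Φ y) * jac Φ y = g.h y
  ori : ∀ y, 0 < (jac Φ y).det

/-- the rotation of an isometry -/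
def rotOf (g : Geo N) (Φ : V N → V N) (y : V N) : Mt N := g.θ (Φ y) * jac Φ y * g.e y

theorem rotOf_mul_θ (g : Geo N) (Φ : V N → V N) (y : V N) :
    rotOf g Φ y * g.θ y = g.θ (Φ y) * jac Φ y := by
  unfold rotOf
  rw [Matrix.mul_assoc, g.eθ, Matrix.mul_one]

theorem rotOf_orth {g : Geo N} {Φ : V N → V N} (h : IsIsom g Φ) (y : V N) :
    (rotOf g Φ y)ᵀ * rotOf g Φ y = 1 := by
  unfold rotOf
  have h1 := h.isom y
  unfold Geo.h at h1
  calc (g.θ (Φ y) * jac Φ y * g.e y)ᵀ * (g.θ (Φ y) * jac Φ y * g.e y)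
      = (g.e y)ᵀ * ((jac Φ y)ᵀ * ((g.θ (Φ y))ᵀ * g.θ (Φ y)) * jac Φ y) * g.e y := by
        simp only [Matrix.transpose_mul, Matrix.mul_assoc]
    _ = (g.e y)ᵀ * ((g.θ y)ᵀ * g.θ y) * g.e y := by rw [h1]
    _ = (g.θ y * g.e y)ᵀ * (g.θ y * g.e y) := by
        simp only [Matrix.transpose_mul, Matrix.mul_assoc]
    _ = 1 := by rw [g.θe]; simp

theorem Geo.det_e_pos (g : Geo N) (y : V N) : 0 < (g.e y).det := by
  have h1 := congrArg Matrix.det (g.θe y)
  rw [Matrix.det_mul, Matrix.det_one] at h1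
  have h2 := g.det_pos y
  by_contra h3
  push Not at h3
  have : (g.θ y).det * (g.e y).det ≤ 0 := mul_nonpos_of_nonneg_of_nonpos h2.le h3
  linarith

theorem rotOf_det {g : Geo N} {Φ : V N → V N} (h : IsIsom g Φ) (y : V N) :
    (rotOf g Φ y).det = 1 := by
  have h1 := congrArg Matrix.det (rotOf_orth h y)
  rw [Matrix.det_mul, Matrix.det_transpose, Matrix.det_one] at h1
  have h2 : 0 < (rotOf g Φ y).det := by
    unfold rotOf
    rw [Matrix.det_mul, Matrix.det_mul]
    exact mul_pos (mul_pos (g.det_pos _) (h.ori y)) (g.det_e_pos y)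
  nlinarith

theorem isRot_rotOf {g : Geo (2 * m)} {Φ : V (2 * m) → V (2 * m)} (h : IsIsom g Φ) :
    IsRot (rotOf g Φ) where
  smooth := by
    unfold rotOf
    refine contDiff_matmul (contDiff_matmul ?_ ?_) ?_
    · exact fun a b => (g.smooth_θ a b).comp h.smooth
    · exact fun a b => contDiff_jac h.smooth a b
    · exact fun a b => g.smooth_e a b
  orth := rotOf_orth h
  det := rotOf_det h

/-- `θ = Rᵀ (θ ∘ Φ) DΦ` -/
theorem θ_eq_of_isom {g : Geo (2 * m)} {Φ : V (2 * m) → V (2 * m)} (h : IsIsom g Φ)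
    (y : V (2 * m)) : (rotOf g Φ y)ᵀ * (g.θ (Φ y) * jac Φ y) = g.θ y := by
  rw [← rotOf_mul_θ, ← Matrix.mul_assoc, rotOf_orth h, Matrix.one_mul]

theorem jac_mul_e (g : Geo N) (Φ : V N → V N) (y : V N) :
    jac Φ y * g.e y = g.e (Φ y) * rotOf g Φ y := by
  unfold rotOf
  rw [← Matrix.mul_assoc, ← Matrix.mul_assoc, g.eθ, Matrix.one_mul]

/-- the connection matrices are invariant -/
theorem Γ_eq_of_isom {g : Geo (2 * m)} {Φ : V (2 * m) → V (2 * m)} (h : IsIsom g Φ)
    (μ : Fin (2 * m)) (y : V (2 * m)) :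
    g.Γ μ y = (rotOf g Φ y)ᵀ * (∑ ν, jac Φ y ν μ • g.Γ ν (Φ y)) * rotOf g Φ y
      + (rotOf g Φ y)ᵀ * duM (rotOf g Φ) y (bv μ) := by
  have h1 : Tors (fun y => g.θ (Φ y) * jac Φ y) (pullG Φ g.Γ) :=
    tors_pull h.smooth g.smooth_θ g.torsion
  have h2 := tors_gauge (isRot_rotOf h) (w := fun y => g.θ (Φ y) * jac Φ y)
    (contDiff_matmul (fun a b => (g.smooth_θ a b).comp h.smooth)
      (fun a b => contDiff_jac h.smooth a b)) h1
  have h3 : (fun y => (rotOf g Φ y)ᵀ * (g.θ (Φ y) * jac Φ y)) = g.θ :=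
    funext fun y => θ_eq_of_isom h y
  rw [h3] at h2
  exact Gamma_unique g.θe g.anti (gauge_anti (isRot_rotOf h)
    (pullG_anti Φ g.anti)) g.torsion h2 μ y

/-- General transport between two `Geo`. -/
theorem Cliff.dirac_transport (C : Cliff m) {g g' : Geo (2 * m)} {Φ : V (2 * m) → V (2 * m)}
    (hΦ : ContDiff ℝ ∞ Φ) {R : V (2 * m) → Mt (2 * m)} (hR : IsRot R) {U : V (2 * m) → En m}
    (hU : ContDiff ℝ ∞ U) (hL : ∀ y, LiftA C.c (R y) (U y)) {f : V (2 * m) → ℝ}
    (hf : ContDiff ℝ ∞ f) {B B' : Pot (2 * m)}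
    (hθ : ∀ y, g'.θ y = (R y)ᵀ * (g.θ (Φ y) * jac Φ y))
    (hB : ∀ μ y, B' μ y = pull1 Φ B μ y + pd μ f y)
    {ψ : V (2 * m) → Sp m} (hψ : Differentiable ℝ ψ) (y : V (2 * m)) :
    C.dirac g' B' (fun y => Complex.exp (-(Complex.I * (f y : ℂ))) • (adj (U y)) (ψ (Φ y))) y
      = Complex.exp (-(Complex.I * (f y : ℂ))) • (adj (U y)) (C.dirac g B ψ (Φ y)) := by
  have he : ∀ y, jac Φ y * g'.e y = g.e (Φ y) * R y := by
    intro y
    have h1 := g'.θe y
    rw [hθ y] at h1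
    -- `Rᵀ (θ(Φ) J) e' = 1`, hence `θ(Φ) J e' = R`
    have h2 : g.θ (Φ y) * (jac Φ y * g'.e y) = R y := by
      calc g.θ (Φ y) * (jac Φ y * g'.e y)
          = (R y * (R y)ᵀ) * (g.θ (Φ y) * (jac Φ y * g'.e y)) := by
            rw [hR.orth', Matrix.one_mul]
        _ = R y * ((R y)ᵀ * (g.θ (Φ y) * jac Φ y) * g'.e y) := by
            simp only [Matrix.mul_assoc]
        _ = R y := by rw [h1, Matrix.mul_one]
    calc jac Φ y * g'.e y = (g.e (Φ y) * g.θ (Φ y)) * (jac Φ y * g'.e y) := by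
          rw [g.eθ, Matrix.one_mul]
      _ = g.e (Φ y) * R y := by rw [Matrix.mul_assoc, h2]
  have hΓ : ∀ μ y, g'.Γ μ y = (R y)ᵀ * (∑ ν, jac Φ y ν μ • g.Γ ν (Φ y)) * R y
      + (R y)ᵀ * duM R y (bv μ) := by
    intro μ y
    have h1 : Tors (fun y => g.θ (Φ y) * jac Φ y) (pullG Φ g.Γ) :=
      tors_pull hΦ g.smooth_θ g.torsion
    have h2 := tors_gauge hR (w := fun y => g.θ (Φ y) * jac Φ y)
      (contDiff_matmul (fun a b => (g.smooth_θ a b).comp hΦ)
        (fun a b => contDiff_jac hΦ a b)) h1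
    have h3 : (fun y => (R y)ᵀ * (g.θ (Φ y) * jac Φ y)) = g'.θ :=
      funext fun y => (hθ y).symm
    rw [h3] at h2
    exact Gamma_unique g'.θe g'.anti (gauge_anti hR (pullG_anti Φ g.anti)) g'.torsion h2 μ y
  exact diracS_transport (S := Sp m) C.env hΦ hR hU hL hf he hΓ hB hψ y

/-! ## potentials -/

theorem isPot_pull1 {Φ : V N → V N} (hΦ : ContDiff ℝ ∞ Φ) {B : Pot N} (hB : IsPot B) :
    IsPot (pull1 Φ B) := fun μ =>
  ContDiff.sum fun ν _ => ((hB ν).comp hΦ).mul (contDiff_jac hΦ ν μ)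

theorem dPot_pull1 {Φ : V N → V N} (hΦ : ContDiff ℝ ∞ Φ) {B : Pot N} (hB : IsPot B) (y : V N) :
    dPot (pull1 Φ B) y = pull2 Φ (dPot B) y := by
  have hΦd : Differentiable ℝ Φ := hΦ.differentiable (by simp)
  have h1 : ∀ μ ν, pd μ (pull1 Φ B ν) y
      = (∑ k, ∑ l, jac Φ y k μ * jac Φ y l ν * pd k (B l) (Φ y))
        + ∑ l, B l (Φ y) * pd μ (fun y => jac Φ y l ν) y := by
    intro μ ν
    have e0 : pull1 Φ B ν = fun y => ∑ l, B l (Φ y) * jac Φ y l ν := rfl
    rw [e0, pd_sum']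
    · have e1 : ∀ l, pd μ (fun y => B l (Φ y) * jac Φ y l ν) y
          = (∑ k, jac Φ y k μ * jac Φ y l ν * pd k (B l) (Φ y))
            + B l (Φ y) * pd μ (fun y => jac Φ y l ν) y := by
        intro l
        rw [pd_mul']
        · congr 1
          have := pd_comp hΦd (ψ := B l) ((hB l).differentiable (by simp)) μ y
          rw [this, Finset.sum_mul]
          exact Finset.sum_congr rfl fun k _ => by rw [smul_eq_mul]; ring
        · exact ((hB l).comp hΦ).differentiable (by simp)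
        · exact (contDiff_jac hΦ l ν).differentiable (by simp)
      rw [Finset.sum_congr rfl fun l _ => e1 l, Finset.sum_add_distrib, Finset.sum_comm]
    · intro l _
      exact (((hB l).comp hΦ).mul (contDiff_jac hΦ l ν)).differentiable (by simp)
  ext μ ν
  have h2 : dPot (pull1 Φ B) y μ ν = pd μ (pull1 Φ B ν) y - pd ν (pull1 Φ B μ) y := rfl
  rw [h2, h1, h1]
  have h3 : ∑ l, B l (Φ y) * pd μ (fun y => jac Φ y l ν) y
      = ∑ l, B l (Φ y) * pd ν (fun y => jac Φ y l μ) y :=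
    Finset.sum_congr rfl fun l _ => by rw [pd_jac_symm hΦ]
  have h4 : (∑ k, ∑ l, jac Φ y k ν * jac Φ y l μ * pd k (B l) (Φ y))
      = ∑ k, ∑ l, jac Φ y k μ * jac Φ y l ν * pd l (B k) (Φ y) := by
    rw [Finset.sum_comm]
    exact Finset.sum_congr rfl fun k _ => Finset.sum_congr rfl fun l _ => by ring
  rw [h3, h4]
  have h5 : pull2 Φ (dPot B) y μ ν
      = ∑ k, ∑ l, jac Φ y k μ * jac Φ y l ν * (pd k (B l) (Φ y) - pd l (B k) (Φ y)) := by
    unfold pull2
    rw [Matrix.mul_apply]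
    simp only [Matrix.mul_apply, Matrix.transpose_apply, Finset.sum_mul]
    rw [Finset.sum_comm]
    refine Finset.sum_congr rfl fun k _ => Finset.sum_congr rfl fun l _ => ?_
    show jac Φ y k μ * (pd k (B l) (Φ y) - pd l (B k) (Φ y)) * jac Φ y l ν = _
    ring
  rw [h5]
  simp only [mul_sub, Finset.sum_sub_distrib]
  ring

/-- Two potentials with the same curvature differ by the differential of a smooth function. -/
theorem exists_gauge {B B' : Pot N} (hB : IsPot B) (hB' : IsPot B')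
    (h : ∀ y, dPot B y = dPot B' y) :
    ∃ f : V N → ℝ, ContDiff ℝ ∞ f ∧ ∀ μ y, B' μ y = B μ y + pd μ f y := by
  have h1 : IsPot (fun μ y => B' μ y - B μ y) := fun μ => (hB' μ).sub (hB μ)
  have h2 : ∀ y, dPot (fun μ y => B' μ y - B μ y) y = 0 := by
    intro y
    ext μ ν
    have e1 : ∀ μ ν, pd μ (fun y => B' ν y - B ν y) y = pd μ (B' ν) y - pd μ (B ν) y := by
      intro μ ν
      unfold pd
      rw [fderiv_fun_sub ((hB' ν).differentiable (by simp) y) ((hB ν).differentiable (by simp) y)]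
      rfl
    have e2 := congrFun (congrFun (h y) μ) ν
    have e3 : pd μ (B ν) y - pd ν (B μ) y = pd μ (B' ν) y - pd ν (B' μ) y := e2
    show pd μ (fun y => B' ν y - B ν y) y - pd ν (fun y => B' μ y - B μ y) y = 0
    rw [e1, e1]
    linarith
  obtain ⟨f, hf, _, hf'⟩ := exists_primitive h1 h2
  exact ⟨f, hf, fun μ y => by rw [hf']; ring⟩

end

end Pool.Agent.Lib.MP_df705a_gt.RL
end

section

/-!
# RL2 parametrix: the main identity
-/

open scoped ContDiff InnerProductSpace Matrix Real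
open MeasureTheory

noncomputable section

set_option linter.unusedSectionVars false

namespace Pool.Agent.Lib.MP_df705a_gt.RL

variable {X : Type*} [MeasurableSpace X] {P : Measure X} [IsProbabilityMeasure P] {m : ℕ}
  {ρ : ℝ}

namespace Op

/-- The sum over the weights which vanishes by the recursion. -/
theorem sum_weights (g : Geo (2 * m)) {o : Op P m ρ} (ho : o.Ok) (J : ℕ) (t : ℝ) (s : ℂ)
    {Y : Type*} [AddCommGroup Y] [Module ℂ Y]
    (W : PM (Ix m) (2 * m) (Rg P (2 * m) ρ) →+ Y) :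
    ∑ n ∈ Finset.range (J + 1), s ^ n • (W (opAM (o.dat g).a n ((o.dat g).PT t n))
      + ∑ w ∈ Finset.range (J - n), s ^ (w + 1) • W ((o.dat g).LT t (w + 1) ((o.dat g).PT t n)))
      = 0 := by
  have h1 : ∀ n ∈ Finset.range (J + 1), s ^ n • (W (opAM (o.dat g).a n ((o.dat g).PT t n))
      + ∑ w ∈ Finset.range (J - n), s ^ (w + 1) • W ((o.dat g).LT t (w + 1) ((o.dat g).PT t n))) =
      s ^ n • W (opAM (o.dat g).a n ((o.dat g).PT t n)) +
        ∑ l ∈ Finset.Ico (n + 1) (J + 1), s ^ l • W ((o.dat g).LT t (l - n)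
          ((o.dat g).PT t n)) := by
    intro n _
    rw [smul_add, Finset.smul_sum, Finset.sum_Ico_eq_sum_range, Nat.add_sub_add_right]
    congr 1
    refine Finset.sum_congr rfl fun w _ => ?_
    rw [smul_smul, ← pow_add]
    have e1 : n + 1 + w - n = w + 1 := by omega
    have e2 : n + (w + 1) = n + 1 + w := by omega
    rw [e1, e2]
  rw [Finset.sum_congr rfl h1, Finset.sum_add_distrib,
    Finset.sum_comm' (t' := Finset.range (J + 1)) (s' := fun l => Finset.range l)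
      (fun n l => by simp only [Finset.mem_range, Finset.mem_Ico]; omega),
    ← Finset.sum_add_distrib]
  refine Finset.sum_eq_zero fun l _ => ?_
  rw [← Finset.smul_sum, ← smul_add, ← map_sum, ← map_add]
  rcases Nat.eq_zero_or_pos l with rfl | hl
  · have h2 : opAM (o.dat g).a 0 ((o.dat g).PT t 0) = 0 := by
      rw [PDat.PT_zero]
      refine Matrix.ext fun i j => ?_
      change opA (o.dat g).a 0 ((1 : PM (Ix m) (2 * m) (Rg P (2 * m) ρ)) i j) = 0
      rw [opA_apply, eulP_apply, lapP_apply, Matrix.one_apply]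
      split_ifs <;> simp
    rw [h2, Finset.range_zero, Finset.sum_empty, add_zero, map_zero, smul_zero]
  · rw [PDat.opAM_PT (dat_ok g ho) _ hl, map_zero, smul_zero]

private theorem P09_add_smul (a b : ℂ) (T : En m) : (a + b) • T = a • T + b • T := by
  have := add_smul a b T
  exact this

private theorem P09_smul_add (a : ℂ) (T S : En m) : a • (T + S) = a • T + a • S :=
  smul_add _ _ _

private theorem P09_sum_smul {κ : Type*} (s : Finset κ) (f : κ → ℂ) (T : En m) :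
    (∑ i ∈ s, f i) • T = ∑ i ∈ s, f i • T := by
  have := Finset.sum_smul (s := s) (f := f) (x := T)
  exact this

private theorem P09_smul_sum {κ : Type*} (s : Finset κ) (a : ℂ) (f : κ → En m) :
    a • (∑ i ∈ s, f i) = ∑ i ∈ s, a • f i := by
  have := Finset.smul_sum (s := s) (f := f) (r := a)
  exact this

private theorem P09_smul_zero (a : ℂ) : a • (0 : En m) = 0 := by
  have := smul_zero (A := En m) a
  exact this

private theorem P09_smul_neg (a : ℂ) (T : En m) : a • (-T) = -(a • T) := by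
  have := smul_neg a T
  exact this

/-- The operator applied to one term. -/
theorem L_Wp (g : Geo (2 * m)) {o : Op P m ρ} (ho : o.Ok) (J n : ℕ) (hn : n ≤ J) (t : ℝ) (x : X)
    (z v : V (2 * m)) {r : ℝ} (hr : 0 < r) (p : PM (Ix m) (2 * m) (Rg P (2 * m) ρ)) :
    o.L g t x z (Wp g x z r p) v = (r⁻¹ : ℂ) • (∑ w ∈ Finset.range (J - n + 1),
        ((√r : ℂ) ^ w) • Wp g x z r ((o.dat g).LT t w p) v
      + (- ∑ μ, ∑ ν, (rem (J + 1 - n) (hiF (ρ := ρ) (P := P) g μ ν) x z v) •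
          Wp g x z r (hM (hR g) μ (hM (hR g) ν p)) v
        + (√r : ℂ) • ∑ μ, o.remB (J - n) t x z v μ * Wp g x z r (hM (hR g) μ p) v
        + (r : ℂ) • (o.remC (J - 1 - n) t x z v * Wp g x z r p v))) := by
  have hs : (√r : ℂ) * (√r : ℂ) = (r : ℂ) := by
    rw [← Complex.ofReal_mul, Real.mul_self_sqrt hr.le]
  have hsr : √r ≠ 0 := (Real.sqrt_pos.2 hr).ne'
  have hsc : (√r : ℂ) ≠ 0 := Complex.ofReal_ne_zero.2 hsr
  have hrc : (r : ℂ) ≠ 0 := Complex.ofReal_ne_zero.2 hr.ne'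
  have hsi : ((√r : ℂ))⁻¹ = (r : ℂ)⁻¹ * (√r : ℂ) := by
    rw [← hs]
    field_simp
  obtain ⟨η, hη⟩ : ∃ η : V (2 * m), η = (√r)⁻¹ • v := ⟨_, rfl⟩
  have hv : v = √r • η := by rw [hη, smul_smul, mul_inv_cancel₀ hsr, one_smul]
  -- the parts of the operator of weight `w`
  obtain ⟨A, hA⟩ : ∃ A : ℕ → PM (Ix m) (2 * m) (Rg P (2 * m) ρ), A = fun w =>
    - ∑ μ, ∑ ν, (o.dat g).A w μ ν • hM (hR g) μ (hM (hR g) ν p) := ⟨_, rfl⟩
  obtain ⟨B, hB⟩ : ∃ B : ℕ → PM (Ix m) (2 * m) (Rg P (2 * m) ρ), B = fun w =>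
    ∑ β : Fin 3, algebraMap ℂ (Rg P (2 * m) ρ) ((t : ℂ) ^ (β : ℕ)) •
      ∑ μ, o.wB β w μ * hM (hR g) μ p := ⟨_, rfl⟩
  obtain ⟨Cc, hC⟩ : ∃ C : ℕ → PM (Ix m) (2 * m) (Rg P (2 * m) ρ), C = fun w =>
    ∑ β : Fin 3, algebraMap ℂ (Rg P (2 * m) ρ) ((t : ℂ) ^ (β : ℕ)) • (o.wC β w * p) := ⟨_, rfl⟩
  have hLT : ∀ w, (o.dat g).LT t w p = A w + B w + Cc w := by
    intro w
    have e1 : (o.dat g).LT t w p = ∑ β : Fin 3,
        algebraMap ℂ (Rg P (2 * m) ρ) ((t : ℂ) ^ (β : ℕ)) • (((if β = 0 then A w else 0) +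
          ∑ μ, o.wB β w μ * hM (hR g) μ p) + o.wC β w * p) := by
      rw [PDat.LT, LinearMap.sum_apply]
      refine Finset.sum_congr rfl fun β _ => ?_
      rw [LinearMap.smul_apply, PDat.LL, LinearMap.add_apply, LinearMap.add_apply]
      congr 3
      · rw [hA]
        split_ifs
        · simp only [LinearMap.neg_apply, LinearMap.sum_apply, LinearMap.smul_apply,
            LinearMap.comp_apply]
          rfl
        · rfl
      · rw [LinearMap.sum_apply]
        rfl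
    rw [e1]
    simp only [smul_add, Finset.sum_add_distrib]
    rw [hB, hC]
    congr 2
    rw [Finset.sum_eq_single (0 : Fin 3)]
    · simp
    · intro β _ hβ
      rw [if_neg hβ, smul_zero]
    · intro h
      exact absurd (Finset.mem_univ _) h
  -- the second order terms
  have h2 : - ∑ μ, ∑ ν, (g.hi (z + v) μ ν : ℂ) • pd μ (pd ν (Wp g x z r p)) v =
      (r⁻¹ : ℂ) • (∑ w ∈ Finset.range (J - n + 1), ((√r : ℂ) ^ w) • Wp g x z r (A w) v
        + - ∑ μ, ∑ ν, (rem (J + 1 - n) (hiF (ρ := ρ) (P := P) g μ ν) x z v) •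
          Wp g x z r (hM (hR g) μ (hM (hR g) ν p)) v) := by
    have e0 : J + 1 - n = J - n + 1 := by omega
    have e1 : ∀ μ ν, (g.hi (z + v) μ ν : ℂ) • pd μ (pd ν (Wp g x z r p)) v =
        (r⁻¹ : ℂ) • (∑ w ∈ Finset.range (J - n + 1), ((√r : ℂ) ^ w) •
          (ev x z η (tay w (hiF (ρ := ρ) (P := P) g μ ν)) •
            Wp g x z r (hM (hR g) μ (hM (hR g) ν p)) v) +
          (rem (J + 1 - n) (hiF (ρ := ρ) (P := P) g μ ν) x z v) •
            Wp g x z r (hM (hR g) μ (hM (hR g) ν p)) v) := by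
      intro μ ν
      have e2 : (g.hi (z + v) μ ν : ℂ) = (hiF (ρ := ρ) (P := P) g μ ν).1 x z v := rfl
      rw [e2, f_eq (J + 1 - n), pd_pd_Wp g x z v hr, smul_comm, P09_add_smul, P09_sum_smul, e0]
      congr 2
      refine Finset.sum_congr rfl fun w _ => ?_
      nth_rw 1 [hv]
      rw [ev_tay_smul, smul_smul]
    have e3 : ∀ w, Wp g x z r (A w) v = - ∑ μ, ∑ ν, ev x z η (tay w (hiF (ρ := ρ) (P := P) g μ ν)) •
        Wp g x z r (hM (hR g) μ (hM (hR g) ν p)) v := by
      intro w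
      rw [hA]
      change Wp g x z r (- ∑ μ, ∑ ν, tay w (hiF (ρ := ρ) (P := P) g μ ν) •
        hM (hR g) μ (hM (hR g) ν p)) v = _
      rw [Wp_neg, Wp_sum]
      congr 1
      refine Finset.sum_congr rfl fun μ _ => ?_
      rw [Wp_sum]
      refine Finset.sum_congr rfl fun ν _ => ?_
      rw [Wp_smul, hη]
    simp only [e1, e3, ← P09_smul_sum, Finset.sum_add_distrib, P09_smul_neg,
      Finset.sum_neg_distrib]
    rw [← neg_add, P09_smul_neg]
    congr 3
    simp only [P09_smul_sum]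
    refine (Finset.sum_congr rfl fun μ _ => Finset.sum_comm).trans ?_
    exact Finset.sum_comm
  -- the first order terms
  have hb : ∀ μ, o.bT t x z v μ = ∑ k ∈ Finset.range (J - n), ((√r : ℂ) ^ k) •
      ∑ β : Fin 3, ((t : ℂ) ^ (β : ℕ)) • evM x z η ((o.b β μ).map (tay k)) +
        o.remB (J - n) t x z v μ := by
    intro μ
    rw [bT, remB]
    simp only [evF_eq (J - n), P09_smul_add, Finset.sum_add_distrib]
    congr 1
    simp only [P09_smul_sum]
    rw [Finset.sum_comm]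
    refine Finset.sum_congr rfl fun k _ => Finset.sum_congr rfl fun β _ => ?_
    nth_rw 1 [hv]
    rw [evM_tay_smul, smul_comm]
  have hWB : ∀ w, Wp g x z r (B w) v = ∑ μ, (∑ β : Fin 3, ((t : ℂ) ^ (β : ℕ)) •
      evM x z η (o.wB β w μ)) * Wp g x z r (hM (hR g) μ p) v := by
    intro w
    rw [hB]
    change Wp g x z r (∑ β : Fin 3, algebraMap ℂ (Rg P (2 * m) ρ) ((t : ℂ) ^ (β : ℕ)) •
      ∑ μ, o.wB β w μ * hM (hR g) μ p) v = _
    rw [Wp_sum]
    simp only [Wp_smul_C, Wp_sum, Wp_mul, P09_smul_sum, Finset.sum_mul, smul_mul_assoc, ← hη]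
    exact Finset.sum_comm
  have h3 : ∑ μ, o.bT t x z v μ * pd μ (Wp g x z r p) v =
      (r⁻¹ : ℂ) • (∑ w ∈ Finset.range (J - n + 1), ((√r : ℂ) ^ w) • Wp g x z r (B w) v
        + (√r : ℂ) • ∑ μ, o.remB (J - n) t x z v μ * Wp g x z r (hM (hR g) μ p) v) := by
    have e1 : ∀ μ, o.bT t x z v μ * pd μ (Wp g x z r p) v =
        (r⁻¹ : ℂ) • ((√r : ℂ) • (o.bT t x z v μ * Wp g x z r (hM (hR g) μ p) v)) := by
      intro μ
      rw [pd_Wp g x z v hr, mul_smul_comm, hsi, smul_smul]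
    have e2 : Wp g x z r (B 0) v = 0 := by
      rw [hWB]
      refine Finset.sum_eq_zero fun μ _ => ?_
      have e3 : ∑ β : Fin 3, ((t : ℂ) ^ (β : ℕ)) • evM x z η (o.wB β 0 μ) = 0 := by
        refine Finset.sum_eq_zero fun β _ => ?_
        change ((t : ℂ) ^ (β : ℕ)) • evM x z η (0 : PM (Ix m) (2 * m) (Rg P (2 * m) ρ)) = 0
        rw [evM_zero, P09_smul_zero]
      rw [e3, zero_mul]
    simp only [e1, ← P09_smul_sum]
    rw [Finset.sum_range_succ', e2, P09_smul_zero, add_zero]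
    congr 1
    simp only [hb, add_mul, Finset.sum_add_distrib, P09_smul_add]
    congr 1
    simp only [hWB, P09_smul_sum, Finset.sum_mul, smul_mul_assoc, smul_smul]
    rw [Finset.sum_comm]
    refine Finset.sum_congr rfl fun k _ => Finset.sum_congr rfl fun μ _ =>
      Finset.sum_congr rfl fun β _ => ?_
    rw [← mul_assoc, ← pow_succ']
    rfl
  -- the terms of order zero
  have hc : o.cT t x z v = ∑ k ∈ Finset.range (J - 1 - n), ((√r : ℂ) ^ k) •
      ∑ β : Fin 3, ((t : ℂ) ^ (β : ℕ)) • evM x z η ((o.c β).map (tay k)) +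
        o.remC (J - 1 - n) t x z v := by
    rw [cT, remC]
    simp only [evF_eq (J - 1 - n), P09_smul_add, Finset.sum_add_distrib]
    congr 1
    simp only [P09_smul_sum]
    rw [Finset.sum_comm]
    refine Finset.sum_congr rfl fun k _ => Finset.sum_congr rfl fun β _ => ?_
    nth_rw 1 [hv]
    rw [evM_tay_smul, smul_comm]
  have hWC : ∀ w, Wp g x z r (Cc w) v = (∑ β : Fin 3, ((t : ℂ) ^ (β : ℕ)) •
      evM x z η (o.wC β w)) * Wp g x z r p v := by
    intro w
    rw [hC]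
    change Wp g x z r (∑ β : Fin 3, algebraMap ℂ (Rg P (2 * m) ρ) ((t : ℂ) ^ (β : ℕ)) •
      (o.wC β w * p)) v = _
    rw [Wp_sum]
    simp only [Wp_smul_C, Wp_mul, Finset.sum_mul, smul_mul_assoc, ← hη]
  have h4 : o.cT t x z v * Wp g x z r p v =
      (r⁻¹ : ℂ) • (∑ w ∈ Finset.range (J - n + 1), ((√r : ℂ) ^ w) • Wp g x z r (Cc w) v
        + (r : ℂ) • (o.remC (J - 1 - n) t x z v * Wp g x z r p v)) := by
    have e1 : ∀ w, w < 2 → Wp g x z r (Cc w) v = 0 := by
      intro w hw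
      rw [hWC]
      have e3 : ∑ β : Fin 3, ((t : ℂ) ^ (β : ℕ)) • evM x z η (o.wC β w) = 0 := by
        refine Finset.sum_eq_zero fun β _ => ?_
        have e4 : o.wC β w = 0 := by
          interval_cases w <;> rfl
        rw [e4, evM_zero, P09_smul_zero]
      rw [e3, zero_mul]
    have e2 : ∑ w ∈ Finset.range (J - n + 1), ((√r : ℂ) ^ w) • Wp g x z r (Cc w) v =
        ∑ k ∈ Finset.range (J - 1 - n), ((√r : ℂ) ^ (k + 2)) • Wp g x z r (Cc (k + 2)) v := by
      rw [Finset.sum_range_succ', e1 0 two_pos, P09_smul_zero, add_zero]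
      rcases Nat.eq_zero_or_pos (J - n) with h0 | h0
      · have e5 : J - 1 - n = 0 := by omega
        rw [h0, e5, Finset.range_zero, Finset.sum_empty, Finset.sum_empty]
      · obtain ⟨M, hM⟩ : ∃ M, J - n = M + 1 := ⟨J - n - 1, by omega⟩
        have e5 : J - 1 - n = M := by omega
        rw [hM, e5, Finset.sum_range_succ', e1 (0 + 1) (by omega), P09_smul_zero, add_zero]
    rw [e2, hc, add_mul, P09_smul_add, smul_smul, inv_mul_cancel₀ hrc, one_smul]
    congr 1
    simp only [hWC, P09_smul_sum, Finset.sum_mul, smul_mul_assoc, smul_smul]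
    refine Finset.sum_congr rfl fun k _ => Finset.sum_congr rfl fun β _ => ?_
    have e6 : (r : ℂ)⁻¹ * ((√r : ℂ) ^ (k + 2) * (t : ℂ) ^ (β : ℕ)) =
        (√r : ℂ) ^ k * (t : ℂ) ^ (β : ℕ) := by
      rw [pow_add, sq, hs]
      field_simp
    rw [e6]
    rfl
  rw [L, h2, h3, h4, ← P09_smul_add, ← P09_smul_add]
  congr 1
  have e5 : ∑ w ∈ Finset.range (J - n + 1), ((√r : ℂ) ^ w) •
      Wp g x z r ((o.dat g).LT t w p) v =
      ∑ w ∈ Finset.range (J - n + 1), ((√r : ℂ) ^ w) • Wp g x z r (A w) v +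
      ∑ w ∈ Finset.range (J - n + 1), ((√r : ℂ) ^ w) • Wp g x z r (B w) v +
      ∑ w ∈ Finset.range (J - n + 1), ((√r : ℂ) ^ w) • Wp g x z r (Cc w) v := by
    rw [← Finset.sum_add_distrib, ← Finset.sum_add_distrib]
    refine Finset.sum_congr rfl fun w _ => ?_
    rw [hLT, Wp_add, Wp_add, P09_smul_add, P09_smul_add]
  rw [e5]
  abel

/-- `Wp` as an additive map. -/
def P09C_W (g : Geo (2 * m)) (x : X) (z : V (2 * m)) (r : ℝ) (v : V (2 * m)) :
    PM (Ix m) (2 * m) (Rg P (2 * m) ρ) →+ En m where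
  toFun p := Wp g x z r p v
  map_zero' := Wp_zero g x z v r
  map_add' p q := Wp_add g x z v r p q

theorem P09C_alg (a b : ℂ) (T L0 S E : En m) :
    a • (b • ((S + L0) + E)) + a • (b • T) = b • (a • ((T + L0) + S)) + b • (a • E) := by
  have s : ∀ (c : ℂ) (A B : En m), c • (A + B) = c • A + c • B := fun c A B => smul_add c A B
  have c : ∀ A : En m, b • (a • A) = a • (b • A) := fun A => smul_comm b a A
  simp only [s, c]
  abel

theorem P09C_pd_smul (μ : Fin (2 * m)) (c : ℂ) {u : V (2 * m) → En m} {v : V (2 * m)}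
    (hu : DifferentiableAt ℝ u v) : pd μ (fun v => c • u v) v = c • pd μ u v := by
  unfold pd
  have h1 : HasFDerivAt (fun v => c • u v) (c • fderiv ℝ u v) v := hu.hasFDerivAt.const_smul c
  rw [h1.fderiv]
  rfl

theorem P09C_pd_sum {ι : Type*} (μ : Fin (2 * m)) (s : Finset ι) {u : ι → V (2 * m) → En m}
    {v : V (2 * m)} (hu : ∀ i, DifferentiableAt ℝ (u i) v) :
    pd μ (fun v => ∑ i ∈ s, u i v) v = ∑ i ∈ s, pd μ (u i) v := by
  unfold pd
  have h1 : HasFDerivAt (fun v => ∑ i ∈ s, u i v) (∑ i ∈ s, fderiv ℝ (u i) v) v :=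
    HasFDerivAt.fun_sum fun i _ => (hu i).hasFDerivAt
  rw [h1.fderiv]
  exact sum_apply _ _ _

theorem P09C_pd_contDiff (μ : Fin (2 * m)) {f : V (2 * m) → En m} (hf : ContDiff ℝ ∞ f) :
    ContDiff ℝ ∞ (pd μ f) :=
  (hf.fderiv_right (m := ∞) (by simp)).clm_apply contDiff_const

theorem P09C_L_sum {ι : Type*} (g : Geo (2 * m)) (o : Op P m ρ) (t : ℝ) (x : X)
    (z v : V (2 * m)) (s : Finset ι) (c : ι → ℂ) (u : ι → V (2 * m) → En m)
    (hu : ∀ i, ContDiff ℝ ∞ (u i)) :
    o.L g t x z (fun v => ∑ i ∈ s, c i • u i v) v = ∑ i ∈ s, c i • o.L g t x z (u i) v := by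
  have h0 : ∀ i, ContDiff ℝ ∞ fun v => c i • u i v := fun i => (hu i).const_smul (c i)
  have h1 : ∀ μ, pd μ (fun v => ∑ i ∈ s, c i • u i v) = fun v => ∑ i ∈ s, c i • pd μ (u i) v := by
    intro μ
    funext v
    rw [P09C_pd_sum μ s fun i => (h0 i).differentiable (by simp) v]
    exact Finset.sum_congr rfl fun i _ => P09C_pd_smul μ (c i) ((hu i).differentiable (by simp) v)
  have h2 : ∀ μ ν, pd μ (pd ν (fun v => ∑ i ∈ s, c i • u i v)) v =
      ∑ i ∈ s, c i • pd μ (pd ν (u i)) v := by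
    intro μ ν
    rw [h1 ν, P09C_pd_sum μ s fun i => ((P09C_pd_contDiff ν (hu i)).const_smul
      (c i)).differentiable (by simp) v]
    exact Finset.sum_congr rfl fun i _ => P09C_pd_smul μ (c i)
      ((P09C_pd_contDiff ν (hu i)).differentiable (by simp) v)
  unfold L
  simp only [h2]
  simp only [h1]
  simp only [smul_add, Finset.sum_add_distrib, smul_neg, Finset.smul_sum, Finset.mul_sum,
    mul_smul_comm, Finset.sum_neg_distrib]
  congr 2
  · congr 1
    rw [Finset.sum_comm (s := s)]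
    refine Finset.sum_congr rfl fun μ _ => ?_
    rw [Finset.sum_comm (s := s)]
    refine Finset.sum_congr rfl fun ν _ => Finset.sum_congr rfl fun i _ => ?_
    exact smul_comm _ _ _
  · exact Finset.sum_comm

/-- **The main identity.**
PROOF. `L` is linear on smooth functions, so `L (U) = ∑_n (√r)^n • L (Wp (PT t n))`, `L_Wp` with the given `n`.
The term `w = 0` is `Wp (LT t 0 (PT t n))`; with `Wp (tD g n (PT t n))` it gives `Wp (opAM n (PT t n))`
(`PDat.LT_zero`, `PDat.model_id`). The remaining terms `w + 1`, `w < J - n`, cancel by `sum_weights` with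
`s = √r`, `W p = Wp g x z r p v`. What remains is `r⁻¹ • Er`. -/
theorem main_id (g : Geo (2 * m)) {o : Op P m ρ} (ho : o.Ok) (J : ℕ) (t : ℝ) (x : X)
    (z v : V (2 * m)) {r : ℝ} (hr : 0 < r) :
    o.Ud g J t x z r v + o.L g t x z (o.U g J t x z r) v =
      (r⁻¹ : ℂ) • o.Er g J t x z r v := by
  have hsr : ((√r : ℝ) : ℂ) * ((√r : ℝ) : ℂ) = (r : ℂ) := by
    rw [← Complex.ofReal_mul, Real.mul_self_sqrt hr.le]
  have hL : o.L g t x z (o.U g J t x z r) v = ∑ n ∈ Finset.range (J + 1), ((√r : ℂ) ^ n) •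
      o.L g t x z (Wp g x z r ((o.dat g).PT t n)) v :=
    P09C_L_sum g o t x z v (Finset.range (J + 1)) (fun n => (√r : ℂ) ^ n)
      (fun n => Wp g x z r ((o.dat g).PT t n)) fun n => contDiff_Wp g x z r _
  have hn : ∀ n ∈ Finset.range (J + 1), ((√r : ℂ) ^ n) •
      o.L g t x z (Wp g x z r ((o.dat g).PT t n)) v + ((√r : ℂ) ^ n) • ((r⁻¹ : ℂ) •
        Wp g x z r (tD g n ((o.dat g).PT t n)) v) = (r⁻¹ : ℂ) • (((√r : ℂ) ^ n) •
        (Wp g x z r (opAM (o.dat g).a n ((o.dat g).PT t n)) v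
      + ∑ w ∈ Finset.range (J - n), ((√r : ℂ) ^ (w + 1)) • Wp g x z r
          ((o.dat g).LT t (w + 1) ((o.dat g).PT t n)) v)) + (r⁻¹ : ℂ) • (((√r : ℂ) ^ n) •
    (- ∑ μ, ∑ ν, (rem (J + 1 - n) (hiF (ρ := ρ) (P := P) g μ ν) x z v) •
        Wp g x z r (hM (hR g) μ (hM (hR g) ν ((o.dat g).PT t n))) v
      + (√r : ℂ) • ∑ μ, o.remB (J - n) t x z v μ * Wp g x z r (hM (hR g) μ ((o.dat g).PT t n)) v
      + (r : ℂ) • (o.remC (J - 1 - n) t x z v * Wp g x z r ((o.dat g).PT t n) v))) := by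
    intro n hn
    have hn' : n ≤ J := by
      rw [Finset.mem_range] at hn
      omega
    rw [L_Wp g ho J n hn' t x z v hr, Finset.sum_range_succ']
    have h1 : Wp g x z r (opAM (o.dat g).a n ((o.dat g).PT t n)) v =
        Wp g x z r (tD g n ((o.dat g).PT t n)) v +
          Wp g x z r ((o.dat g).LT t 0 ((o.dat g).PT t n)) v := by
      rw [← Wp_add]
      congr 1
      rw [PDat.LT_zero (dat_ok g ho), ← PDat.model_id (dat_ok g ho), tD, sub_eq_add_neg]
      rfl
    rw [h1, pow_zero]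
    have h2 : ∀ A : En m, (1 : ℂ) • A = A := fun A => one_smul ℂ A
    rw [h2]
    exact P09C_alg _ _ _ _ _ _
  have hW := o.sum_weights (P := P) g ho J t ((√r : ℝ) : ℂ)
    (P09C_W g x z r v : PM (Ix m) (2 * m) (Rg P (2 * m) ρ) →+ En m)
  rw [hL, Ud, add_comm, ← Finset.sum_add_distrib, Finset.sum_congr rfl hn,
    Finset.sum_add_distrib, ← Finset.smul_sum, ← Finset.smul_sum]
  have h3 : ∑ n ∈ Finset.range (J + 1), ((√r : ℂ) ^ n) •
        (Wp g x z r (opAM (o.dat g).a n ((o.dat g).PT t n)) v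
      + ∑ w ∈ Finset.range (J - n), ((√r : ℂ) ^ (w + 1)) • Wp g x z r
          ((o.dat g).LT t (w + 1) ((o.dat g).PT t n)) v) = 0 := hW
  rw [h3]
  have h4 : (r⁻¹ : ℂ) • (0 : En m) = 0 := smul_zero (A := En m) (r⁻¹ : ℂ)
  rw [h4, zero_add]
  rfl

end Op

end Pool.Agent.Lib.MP_df705a_gt.RL
end
end
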