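import Pool.Agent.Lib.MP_df705a_gt.Mg.G030
import Pool.Agent.Lib.MP_df705a_gt.Mg.G045
import Pool.Agent.Lib.MP_df705a_gt.Mg.G041
import Pool.Agent.Lib.MP_df705a_gt.Mg.G033
import Pool.Agent.Lib.MP_df705a_gt.Mg.G047
import Pool.Agent.Lib.MP_df705a_gt.Mg.G040

section

/-!
# RL2, file U8: the unitary operator of an isometry
-/

set_option linter.unusedSectionVars false

open scoped Matrix ContDiff Topology ENNReal
open Metric MeasureTheory

namespace Pool.Agent.Lib.MP_df705a_gt.RL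

noncomputable section

variable {N m : ℕ}

/-! ## measure preservation -/

theorem jac_det {Φ : V N → V N} (y : V N) : (fderiv ℝ Φ y).det = (jac Φ y).det := by
  have h1 : LinearMap.toMatrix (EuclideanSpace.basisFun (Fin N) ℝ).toBasis
      (EuclideanSpace.basisFun (Fin N) ℝ).toBasis (fderiv ℝ Φ y : V N →ₗ[ℝ] V N) = jac Φ y := by
    ext i j
    rw [LinearMap.toMatrix_apply]
    simp [jac, bv]
  rw [← h1, LinearMap.det_toMatrix]

theorem det_θ_eq {g : Geo N} {Φ : V N → V N} (h : IsIsom g Φ) (y : V N) :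
    (g.θ y).det = (jac Φ y).det * (g.θ (Φ y)).det := by
  have h1 := congrArg Matrix.det (rotOf_mul_θ g Φ y)
  rw [Matrix.det_mul, Matrix.det_mul, rotOf_det h, one_mul] at h1
  rw [h1, mul_comm]

theorem measurePreserving_of_isom {g : Geo N} {Φ Φ' : V N → V N} (h : IsIsom g Φ)
    (h1 : ∀ y, Φ (Φ' y) = y) (h2 : ∀ y, Φ' (Φ y) = y) : MeasurePreserving Φ g.vol g.vol := by
  have hm : Measurable Φ := h.smooth.continuous.measurable
  refine ⟨hm, ?_⟩
  ext E hE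
  rw [Measure.map_apply hm hE]
  have hE' : MeasurableSet (Φ ⁻¹' E) := hm hE
  unfold Geo.vol
  rw [withDensity_apply _ hE', withDensity_apply _ hE]
  have himg : Φ '' (Φ ⁻¹' E) = E := by
    rw [Set.image_preimage_eq]
    exact fun y => ⟨Φ' y, h1 y⟩
  have hinj : Set.InjOn Φ (Φ ⁻¹' E) := by
    intro x _ y _ hxy
    rw [← h2 x, ← h2 y, hxy]
  have h3 := lintegral_image_eq_lintegral_abs_det_fderiv_mul volume hE'
    (f := Φ) (f' := fun y => fderiv ℝ Φ y)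
    (fun x _ => ((h.smooth.differentiable (by simp)) x).hasFDerivAt.hasFDerivWithinAt) hinj
    (fun z => ENNReal.ofReal (g.θ z).det)
  rw [himg] at h3
  rw [h3]
  refine lintegral_congr fun y => ?_
  rw [jac_det, abs_of_pos (h.ori y), ← ENNReal.ofReal_mul (h.ori y).le, det_θ_eq h y]

/-! ## the unitary -/

/-- The data of the transport of an isometry. -/
structure IsoData (C : Cliff m) (g : Geo (2 * m)) (Φ Φ' : V (2 * m) → V (2 * m))
    (U : V (2 * m) → En m) (f : V (2 * m) → ℝ) : Prop where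
  iso : IsIsom g Φ
  iso' : IsIsom g Φ'
  inv : ∀ y, Φ (Φ' y) = y
  inv' : ∀ y, Φ' (Φ y) = y
  smoothU : ContDiff ℝ ∞ U
  lift : ∀ y, LiftA C.c (rotOf g Φ y) (U y)
  smoothf : ContDiff ℝ ∞ f

/-- the fibrewise unitary -/
def fibU (U : V (2 * m) → En m) (f : V (2 * m) → ℝ) (y : V (2 * m)) : En m :=
  Complex.exp (Complex.I * (f y : ℂ)) • U y

theorem exp_mul_exp (r : ℝ) :
    Complex.exp (-(Complex.I * (r : ℂ))) * Complex.exp (Complex.I * (r : ℂ)) = 1 := by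
  rw [← Complex.exp_add, neg_add_cancel, Complex.exp_zero]

theorem conj_exp (r : ℝ) : (starRingEnd ℂ) (Complex.exp (Complex.I * (r : ℂ)))
    = Complex.exp (-(Complex.I * (r : ℂ))) := by
  rw [← Complex.exp_conj]; simp

theorem adj_fibU (U : V (2 * m) → En m) (f : V (2 * m) → ℝ) (y : V (2 * m)) :
    adj (fibU U f y) = Complex.exp (-(Complex.I * (f y : ℂ))) • adj (U y) := by
  unfold fibU
  rw [adj_smul, conj_exp]

namespace IsoData

variable {C : Cliff m} {g : Geo (2 * m)} {Φ Φ' : V (2 * m) → V (2 * m)} {U : V (2 * m) → En m}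
  {f : V (2 * m) → ℝ} (h : IsoData C g Φ Φ' U f)
include h

theorem adj_mul_self (y : V (2 * m)) : adj (fibU U f y) * fibU U f y = 1 := by
  rw [adj_fibU]
  unfold fibU
  have h1 : adj (U y) * U y = 1 := (h.lift y).isom
  rw [smul_mul_smul_comm, h1, exp_mul_exp]
  exact one_smul ℂ (1 : En m)

theorem mul_adj_self (y : V (2 * m)) : fibU U f y * adj (fibU U f y) = 1 := by
  rw [adj_fibU]
  unfold fibU
  have h1 : U y * adj (U y) = 1 := (h.lift y).isom'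
  rw [smul_mul_smul_comm, h1, mul_comm, exp_mul_exp]
  exact one_smul ℂ (1 : En m)

theorem norm_fibU (y : V (2 * m)) (x : Sp m) : ‖fibU U f y x‖ = ‖x‖ := by
  have h1 : inner ℂ (fibU U f y x) (fibU U f y x)
      = inner ℂ x ((adj (fibU U f y) * fibU U f y) x) := by
    show _ = inner ℂ x (adj (fibU U f y) (fibU U f y x))
    rw [ContinuousLinearMap.adjoint_inner_right]
  rw [h.adj_mul_self y] at h1
  have h2 : ((1 : En m) x) = x := rfl
  rw [h2, inner_self_eq_norm_sq_to_K, inner_self_eq_norm_sq_to_K] at h1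
  have h3 : ‖fibU U f y x‖ ^ 2 = ‖x‖ ^ 2 := by exact_mod_cast h1
  exact (pow_left_inj₀ (norm_nonneg _) (norm_nonneg _) two_ne_zero).mp h3

theorem contDiff_fibU : ContDiff ℝ ∞ (fibU U f) := by
  unfold fibU
  have h1 : ContDiff ℝ ∞ fun y => Complex.exp (Complex.I * (f y : ℂ)) :=
    (contDiff_const.mul (contDiff_ofReal' h.smoothf)).cexp
  exact h1.smul h.smoothU

theorem bdd_fibU : BddM (fibU U f) :=
  ⟨h.contDiff_fibU.continuous.stronglyMeasurable, 1, fun y =>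
    ContinuousLinearMap.opNorm_le_bound _ zero_le_one fun x => by rw [h.norm_fibU, one_mul]⟩

theorem bdd_adj : BddM fun y => adj (fibU U f y) := h.bdd_fibU.adj

/-- composition with `Φ'` -/
theorem mp' : MeasurePreserving Φ' g.vol g.vol := measurePreserving_of_isom h.iso' h.inv' h.inv

theorem mp : MeasurePreserving Φ g.vol g.vol := measurePreserving_of_isom h.iso h.inv h.inv'

/-- `(W u)(z) = fibU (Φ' z) (u (Φ' z))` -/
def Wfun (u : g.L2) : g.L2 :=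
  Lp.compMeasurePreserving Φ' h.mp' (g.mulE (fibU U f) u)

/-- `(W⁻¹ u)(y) = (fibU y)⁻¹ (u (Φ y))` -/
def Winv (u : g.L2) : g.L2 :=
  g.mulE (fun y => adj (fibU U f y)) (Lp.compMeasurePreserving Φ h.mp u)

theorem Wfun_coe (u : g.L2) :
    h.Wfun u =ᵐ[g.vol] fun z => fibU U f (Φ' z) (u (Φ' z)) := by
  unfold Wfun
  have h1 := Lp.coeFn_compMeasurePreserving (g.mulE (fibU U f) u) h.mp'
  have h2 := h.mp'.quasiMeasurePreserving.ae_eq_comp (g.mulE_coe h.bdd_fibU u)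
  exact h1.trans h2

theorem Winv_coe (u : g.L2) :
    h.Winv u =ᵐ[g.vol] fun y => adj (fibU U f y) (u (Φ y)) := by
  unfold Winv
  have h1 := g.mulE_coe h.bdd_adj (Lp.compMeasurePreserving Φ h.mp u)
  have h2 := Lp.coeFn_compMeasurePreserving u h.mp
  filter_upwards [h1, h2] with y h3 h4
  rw [h3, h4]; rfl

theorem W_left (u : g.L2) : h.Winv (h.Wfun u) = u := by
  refine Lp.ext ?_
  have h1 := h.Winv_coe (h.Wfun u)
  have h2 := h.mp.quasiMeasurePreserving.ae_eq_comp (h.Wfun_coe u)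
  filter_upwards [h1, h2] with y h3 h4
  rw [h3]
  simp only [Function.comp_apply] at h4
  rw [h4, h.inv' y]
  exact congrArg (fun T : En m => T (u y)) (h.adj_mul_self y)

theorem W_right (u : g.L2) : h.Wfun (h.Winv u) = u := by
  refine Lp.ext ?_
  have h1 := h.Wfun_coe (h.Winv u)
  have h2 := h.mp'.quasiMeasurePreserving.ae_eq_comp (h.Winv_coe u)
  filter_upwards [h1, h2] with z h3 h4
  rw [h3]
  simp only [Function.comp_apply] at h4
  rw [h4, h.inv z]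
  exact congrArg (fun T : En m => T (u z)) (h.mul_adj_self (Φ' z))

theorem W_norm (u : g.L2) : ‖h.Wfun u‖ = ‖u‖ := by
  unfold Wfun
  rw [Lp.norm_compMeasurePreserving]
  have h1 : ∀ᵐ y ∂g.vol, ‖g.mulE (fibU U f) u y‖ = ‖u y‖ := by
    filter_upwards [g.mulE_coe h.bdd_fibU u] with y h2
    rw [h2, h.norm_fibU]
  refine le_antisymm (Lp.norm_le_norm_of_ae_le ?_) (Lp.norm_le_norm_of_ae_le ?_)
  · filter_upwards [h1] with y h2 using h2.le
  · filter_upwards [h1] with y h2 using h2.ge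

/-- THE UNITARY -/
def W : g.L2 ≃ₗᵢ[ℂ] g.L2 where
  toFun := h.Wfun
  invFun := h.Winv
  left_inv := h.W_left
  right_inv := h.W_right
  map_add' u v := by
    unfold Wfun
    rw [map_add, map_add]
  map_smul' r u := by
    unfold Wfun
    rw [map_smul]
    exact (Lp.compMeasurePreservingₗ ℂ Φ' h.mp').map_smul r _
  norm_map' := h.W_norm

theorem W_coe (u : g.L2) : h.W u =ᵐ[g.vol] fun z => fibU U f (Φ' z) (u (Φ' z)) :=
  h.Wfun_coe u

/-- `W` and multiplication operators -/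
theorem W_mulE {A A' : V (2 * m) → En m} (hA : BddM A) (hA' : BddM A')
    (hAA : ∀ y, fibU U f y * A y = A' (Φ y) * fibU U f y) (u : g.L2) :
    h.W (g.mulE A u) = g.mulE A' (h.W u) := by
  refine Lp.ext ?_
  have h1 := h.W_coe (g.mulE A u)
  have h2 := h.mp'.quasiMeasurePreserving.ae_eq_comp (g.mulE_coe hA u)
  have h3 := g.mulE_coe hA' (h.W u)
  have h4 := h.W_coe u
  filter_upwards [h1, h2, h3, h4] with z e1 e2 e3 e4
  simp only [Function.comp_apply] at e2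
  rw [e1, e2, e3, e4]
  have h5 := congrArg (fun T : En m => T (u (Φ' z))) (hAA (Φ' z))
  rw [h.inv z] at h5
  exact h5

theorem W_Eps (κ : ℝ) (u : g.L2) : h.W (C.Eps g κ u) = C.Eps g κ (h.W u) := by
  unfold Cliff.Eps
  refine h.W_mulE (BddM.const _) (BddM.const _) (fun y => ?_) u
  unfold fibU
  rw [smul_mul_smul_comm, smul_mul_smul_comm]
  have h1 : C.eps * U y = U y * C.eps := (h.lift y).eps
  rw [h1, mul_comm (κ : ℂ)]

theorem W_scalar {a a' : V (2 * m) → ℂ} (ha : BddM fun y => a y • (1 : En m))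
    (ha' : BddM fun y => a' y • (1 : En m)) (haa : ∀ y, a' (Φ y) = a y) (u : g.L2) :
    h.W (g.mulE (fun y => a y • (1 : En m)) u) = g.mulE (fun y => a' y • (1 : En m)) (h.W u) := by
  refine h.W_mulE ha ha' (fun y => ?_) u
  rw [haa]
  have h1 : fibU U f y * (a y • (1 : En m)) = a y • fibU U f y :=
    (mul_smul_comm (a y) (fibU U f y) (1 : En m)).trans (congrArg _ (mul_one _))
  have h2 : (a y • (1 : En m)) * fibU U f y = a y • fibU U f y :=
    (smul_mul_assoc (a y) (1 : En m) (fibU U f y)).trans (congrArg _ (one_mul _))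
  rw [h1, h2]

theorem W_ind {E : Set (V (2 * m))} (hE : MeasurableSet E) (u : g.L2) :
    h.W (g.ind E u) = g.ind (Φ '' E) (h.W u) := by
  unfold Geo.ind
  have hE' : MeasurableSet (Φ '' E) := by
    have : Φ '' E = Φ' ⁻¹' E := by
      ext z
      constructor
      · rintro ⟨y, hy, rfl⟩; rw [Set.mem_preimage, h.inv']; exact hy
      · intro hz; exact ⟨Φ' z, hz, h.inv z⟩
    rw [this]
    exact h.iso'.smooth.continuous.measurable hE
  refine h.W_mulE ((BddM.const 1).indicator hE) ((BddM.const 1).indicator hE') (fun y => ?_) u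
  by_cases hy : y ∈ E
  · have hy' : Φ y ∈ Φ '' E := ⟨y, hy, rfl⟩
    rw [Set.indicator_of_mem hy, Set.indicator_of_mem hy', mul_one, one_mul]
  · have hy' : Φ y ∉ Φ '' E := by
      rintro ⟨x, hx, hxy⟩
      apply hy
      rw [← h.inv' y, ← hxy, h.inv' x]; exact hx
    rw [Set.indicator_of_notMem hy, Set.indicator_of_notMem hy', mul_zero, zero_mul]

/-- the image of a function -/
def Wtf (_ : IsoData C g Φ Φ' U f) (φ : V (2 * m) → Sp m) (z : V (2 * m)) : Sp m :=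
  fibU U f (Φ' z) (φ (Φ' z))

theorem isTF_comp {φ : V (2 * m) → Sp m} (hφ : IsTF φ) {Ψ Ψ' : V (2 * m) → V (2 * m)}
    (hΨ : ContDiff ℝ ∞ Ψ) (hΨ' : Continuous Ψ') (hi : ∀ y, Ψ' (Ψ y) = y) :
    IsTF fun y => φ (Ψ y) := by
  refine ⟨hφ.1.comp hΨ, ?_⟩
  refine HasCompactSupport.of_support_subset_isCompact (hφ.2.isCompact.image hΨ') ?_
  intro y hy
  exact ⟨Ψ y, subset_tsupport _ hy, hi y⟩

theorem isTF_Wtf {φ : V (2 * m) → Sp m} (hφ : IsTF φ) : IsTF (h.Wtf φ) := by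
  have h1 : IsTF fun y => fibU U f y (φ y) := hφ.mulA h.contDiff_fibU
  exact h.isTF_comp h1 h.iso'.smooth h.iso.smooth.continuous h.inv

theorem W_emb {φ : V (2 * m) → Sp m} (hφ : IsTF φ) : h.W (g.emb φ) = g.emb (h.Wtf φ) := by
  refine Lp.ext ?_
  have h1 := h.W_coe (g.emb φ)
  have h2 := h.mp'.quasiMeasurePreserving.ae_eq_comp (g.emb_coe (g.memLp_tf hφ))
  have h3 := g.emb_coe (g.memLp_tf (h.isTF_Wtf hφ))
  filter_upwards [h1, h2, h3] with z e1 e2 e3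
  simp only [Function.comp_apply] at e2
  rw [e1, e2, e3]; rfl

/-- `D_{B'} W = W D_B` -/
theorem dirac_Wtf {B B' : Pot (2 * m)} (hBB : ∀ μ y, B μ y = pull1 Φ B' μ y + pd μ f y)
    {φ : V (2 * m) → Sp m} (hφ : ContDiff ℝ ∞ φ) :
    C.dirac g B' (h.Wtf φ) = h.Wtf (C.dirac g B φ) := by
  have hψs : ContDiff ℝ ∞ (h.Wtf φ) := by
    have h1 : ContDiff ℝ ∞ fun y => fibU U f y (φ y) := by
      have := (ContinuousLinearMap.restrictScalarsL ℂ (Sp m) (Sp m) ℝ ℝ).contDiff.comp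
        h.contDiff_fibU
      exact this.clm_apply hφ
    exact h1.comp h.iso'.smooth
  have hL : ∀ y, LiftA C.c (rotOf g Φ y) (U y) := h.lift
  have h1 := C.dirac_transport (g := g) (g' := g) h.iso.smooth (isRot_rotOf h.iso) h.smoothU hL
    h.smoothf (B := B') (B' := B) (fun y => (θ_eq_of_isom h.iso y).symm) hBB
    (hψs.differentiable (by simp))
  have h2 : (fun y => Complex.exp (-(Complex.I * (f y : ℂ))) • (adj (U y)) (h.Wtf φ (Φ y))) = φ := by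
    funext y
    have e1 : h.Wtf φ (Φ y) = fibU U f y (φ y) := by
      unfold Wtf; rw [h.inv' y]
    have e2 := congrArg (fun T : En m => T (φ y)) (h.adj_mul_self y)
    rw [adj_fibU] at e2
    rw [e1]
    exact e2
  rw [h2] at h1
  funext z
  have h3 := h1 (Φ' z)
  rw [h.inv z] at h3
  unfold Wtf
  rw [h3]
  have e3 := congrArg (fun T : En m => T (C.dirac g B' (h.Wtf φ) z)) (h.mul_adj_self (Φ' z))
  rw [adj_fibU] at e3
  exact e3.symm

end IsoData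

end

end Pool.Agent.Lib.MP_df705a_gt.RL
end

section

/-!
# RL2, E5: the kernel identity
-/

open scoped ContDiff InnerProductSpace Matrix ENNReal NNReal Topology
open MeasureTheory Filter Set

noncomputable section

namespace Pool.Agent.Lib.MP_df705a_gt.RL

variable {m : ℕ}

/-- The operators `Q_τ φ (z) = ∫ q_τ(y,z)* φ(y) dvol(y)`. -/
def Qop (g : Geo (2 * m)) (q : ℝ → V (2 * m) → V (2 * m) → En m) (τ : ℝ) (φ : g.L2)
    (z : V (2 * m)) : Sp m := ∫ y, adj (q τ z y) (φ y) ∂g.vol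

private theorem e5_adj (A : En m) (v : Sp m) :
    adj A v = ∑ j, ⟪A (sb j), v⟫_ℂ • (sb j : Sp m) := by
  have h := (EuclideanSpace.basisFun (Fin (2 ^ m)) ℂ).sum_repr' (adj A v)
  rw [← h]
  refine Finset.sum_congr rfl fun j _ => ?_
  rw [EuclideanSpace.basisFun_apply]
  congr 1
  exact ContinuousLinearMap.adjoint_inner_right A (sb j) v

private theorem e5_int {C : Cliff m} {g : Geo (2 * m)} {B : Pot (2 * m)} {F : Set (V (2 * m))}
    {q qd e : ℝ → V (2 * m) → V (2 * m) → En m} {c κ r₀ : ℝ}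
    (hP : Para C g B F q qd e c κ r₀) {τ : ℝ} (hτ : 0 < τ) {z : V (2 * m)} (hz : z ∈ F)
    (φ : g.L2) : Integrable (fun y => adj (q τ z y) (φ y)) g.vol := by
  have h1 : (fun y => adj (q τ z y) (φ y))
      = fun y => ∑ j, ⟪q τ z y (sb j), φ y⟫_ℂ • (sb j : Sp m) := by
    funext y
    exact e5_adj _ _
  rw [h1]
  refine integrable_finsetSum _ fun j _ => Integrable.smul_const ?_ _
  refine (L2.integrable_inner (𝕜 := ℂ) (g.emb fun y => q τ z y (sb j)) φ).congr ?_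
  filter_upwards [g.emb_coe (g.memLp_tf (hP.tf τ hτ z hz (sb j)))] with y hy
  rw [hy]

theorem inner_Qop {C : Cliff m} {g : Geo (2 * m)} {B : Pot (2 * m)} {F : Set (V (2 * m))}
    {q qd e : ℝ → V (2 * m) → V (2 * m) → En m} {c κ r₀ : ℝ}
    (hP : Para C g B F q qd e c κ r₀) {τ : ℝ} (hτ : 0 < τ) {z : V (2 * m)} (hz : z ∈ F)
    (u : Sp m) (φ : g.L2) :
    ⟪u, Qop g q τ φ z⟫_ℂ = ⟪g.emb fun y => q τ z y u, φ⟫_ℂ := by
  unfold Qop
  rw [← integral_inner (e5_int hP hτ hz φ) u,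
    g.inner_emb_left (g.memLp_tf (hP.tf τ hτ z hz u)) φ]
  refine integral_congr_ae (Eventually.of_forall fun y => ?_)
  exact ContinuousLinearMap.adjoint_inner_right _ _ _

private theorem e5_joint {C : Cliff m} {g : Geo (2 * m)} {B : Pot (2 * m)} {F : Set (V (2 * m))}
    {q qd e : ℝ → V (2 * m) → V (2 * m) → En m} {c κ r₀ : ℝ}
    (hP : Para C g B F q qd e c κ r₀) {τ : ℝ} (hτ : 0 < τ) (φ : g.L2) :
    StronglyMeasurable fun p : V (2 * m) × V (2 * m) => adj (q τ p.1 p.2) (φ p.2) := by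
  have h1 : StronglyMeasurable fun p : V (2 * m) × V (2 * m) => adj (q τ p.1 p.2) :=
    (ContinuousLinearMap.adjoint (𝕜 := ℂ)).continuous.comp_stronglyMeasurable (hP.meas τ hτ)
  have h2 : StronglyMeasurable fun p : V (2 * m) × V (2 * m) => φ p.2 :=
    (Lp.stronglyMeasurable φ).comp_measurable measurable_snd
  exact (isBoundedBilinearMap_apply.continuous).comp_stronglyMeasurable (h1.prodMk h2)

theorem aesm_Qop {C : Cliff m} {g : Geo (2 * m)} {B : Pot (2 * m)} {F : Set (V (2 * m))}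
    {q qd e : ℝ → V (2 * m) → V (2 * m) → En m} {c κ r₀ : ℝ}
    (hP : Para C g B F q qd e c κ r₀) {τ : ℝ} (hτ : 0 < τ) (φ : g.L2) :
    AEStronglyMeasurable (Qop g q τ φ) (g.vol.restrict F) :=
  (e5_joint hP hτ φ).integral_prod_right.aestronglyMeasurable

private theorem e5_gauss {C : Cliff m} {g : Geo (2 * m)} {B : Pot (2 * m)} {F : Set (V (2 * m))}
    {q qd e : ℝ → V (2 * m) → V (2 * m) → En m} {c κ r₀ : ℝ}
    (hP : Para C g B F q qd e c κ r₀) {τ : ℝ} (hτ : 0 < τ) (hτ1 : τ ≤ 1) {z : V (2 * m)}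
    (hz : z ∈ F) (y : V (2 * m)) :
    ‖q τ z y‖ₑ ≤ ENNReal.ofReal c *
      ENNReal.ofReal (1 / τ ^ m * Real.exp (-(κ * ‖y - z‖ ^ 2 / τ))) := by
  rw [← ENNReal.ofReal_mul hP.c_pos.le, ← ofReal_norm]
  refine ENNReal.ofReal_le_ofReal ((hP.bq τ hτ hτ1 z hz y).trans (le_of_eq ?_))
  ring

private theorem e5_row {C : Cliff m} {g : Geo (2 * m)} {B : Pot (2 * m)} {F : Set (V (2 * m))}
    {q qd e : ℝ → V (2 * m) → V (2 * m) → En m} {c κ r₀ : ℝ}
    (hP : Para C g B F q qd e c κ r₀) : ∃ a : ℝ, 0 ≤ a ∧ ∀ τ, 0 < τ → τ ≤ 1 → ∀ z ∈ F,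
      ∫⁻ y, ‖q τ z y‖ₑ ∂g.vol ≤ ENNReal.ofReal a := by
  obtain ⟨a, ha, h⟩ := gauss_vol g r₀ κ hP.κ_pos
  refine ⟨c * a, mul_nonneg hP.c_pos.le ha, fun τ hτ hτ1 z hz => ?_⟩
  have h1 : ∀ y, ‖q τ z y‖ₑ ≤ (Metric.closedBall 0 r₀).indicator (fun y => ENNReal.ofReal c *
      ENNReal.ofReal (1 / τ ^ m * Real.exp (-(κ * ‖y - z‖ ^ 2 / τ)))) y := by
    intro y
    by_cases hy : y ∈ Metric.closedBall (0 : V (2 * m)) r₀
    · rw [indicator_of_mem hy]
      exact e5_gauss hP hτ hτ1 hz y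
    · rw [indicator_of_notMem hy]
      rw [mem_closedBall_zero_iff, not_le] at hy
      rw [hP.supp τ hτ z hz y hy]
      exact le_of_eq (enorm_zero (E := En m))
  refine (lintegral_mono h1).trans ?_
  rw [lintegral_indicator measurableSet_closedBall, lintegral_const_mul' _ _ ENNReal.ofReal_ne_top,
    ENNReal.ofReal_mul hP.c_pos.le]
  gcongr
  exact h τ hτ z

private theorem e5_col {C : Cliff m} {g : Geo (2 * m)} {B : Pot (2 * m)} {F : Set (V (2 * m))}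
    (hFb : Bornology.IsBounded F) {q qd e : ℝ → V (2 * m) → V (2 * m) → En m} {c κ r₀ : ℝ}
    (hP : Para C g B F q qd e c κ r₀) : ∃ a : ℝ, 0 ≤ a ∧ ∀ τ, 0 < τ → τ ≤ 1 → ∀ y,
      ∫⁻ z, F.indicator (fun z => ‖q τ z y‖ₑ) z ∂g.vol ≤ ENNReal.ofReal a := by
  obtain ⟨r, hr⟩ := hFb.subset_closedBall 0
  obtain ⟨a, ha, h⟩ := gauss_vol g r κ hP.κ_pos
  refine ⟨c * a, mul_nonneg hP.c_pos.le ha, fun τ hτ hτ1 y => ?_⟩
  have h1 : ∀ z, F.indicator (fun z => ‖q τ z y‖ₑ) z ≤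
      (Metric.closedBall 0 r).indicator (fun z => ENNReal.ofReal c *
      ENNReal.ofReal (1 / τ ^ m * Real.exp (-(κ * ‖z - y‖ ^ 2 / τ)))) z := by
    intro z
    by_cases hz : z ∈ F
    · rw [indicator_of_mem hz, indicator_of_mem (hr hz), norm_sub_rev z y]
      exact e5_gauss hP hτ hτ1 hz y
    · rw [indicator_of_notMem hz]
      exact zero_le
  refine (lintegral_mono h1).trans ?_
  rw [lintegral_indicator measurableSet_closedBall, lintegral_const_mul' _ _ ENNReal.ofReal_ne_top,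
    ENNReal.ofReal_mul hP.c_pos.le]
  gcongr
  exact h τ hτ y

private theorem e5_enorm_Qop (g : Geo (2 * m)) (q : ℝ → V (2 * m) → V (2 * m) → En m) (τ : ℝ)
    (φ : g.L2) (z : V (2 * m)) :
    ‖Qop g q τ φ z‖ₑ ≤ ∫⁻ y, ‖q τ z y‖ₑ * ‖φ y‖ₑ ∂g.vol := by
  refine (enorm_integral_le_lintegral_enorm _).trans (lintegral_mono fun y => ?_)
  have h1 : ‖adj (q τ z y)‖ₑ = ‖q τ z y‖ₑ := by
    rw [← ofReal_norm, ← ofReal_norm, LinearIsometryEquiv.norm_map]
  rw [← h1]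
  exact ContinuousLinearMap.le_opENorm _ _

/-- The Schur test for `k(z,y) = ‖q τ z y‖` on `F × V`. -/
theorem Qop_bdd {C : Cliff m} {g : Geo (2 * m)} {B : Pot (2 * m)} {F : Set (V (2 * m))}
    (hF : MeasurableSet F) (hFb : Bornology.IsBounded F)
    {q qd e : ℝ → V (2 * m) → V (2 * m) → En m} {c κ r₀ : ℝ}
    (hP : Para C g B F q qd e c κ r₀) : ∃ a : ℝ, 0 ≤ a ∧ ∀ τ, 0 < τ → τ ≤ 1 → ∀ φ : g.L2,
      ∫⁻ z in F, ‖Qop g q τ φ z‖ₑ ^ 2 ∂g.vol ≤ ENNReal.ofReal a * ‖φ‖ₑ ^ 2 := by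
  obtain ⟨a, ha, h1⟩ := e5_row hP
  obtain ⟨b, hb, h2⟩ := e5_col hFb hP
  refine ⟨a * b, mul_nonneg ha hb, fun τ hτ hτ1 φ => ?_⟩
  rw [ENNReal.ofReal_mul ha, g.enorm_L2_sq φ]
  have hk : Measurable fun p : V (2 * m) × V (2 * m) =>
      F.indicator (fun z => ‖q τ z p.2‖ₑ) p.1 := by
    have e1 : (fun p : V (2 * m) × V (2 * m) => F.indicator (fun z => ‖q τ z p.2‖ₑ) p.1)
        = (Prod.fst ⁻¹' F).indicator fun p => ‖q τ p.1 p.2‖ₑ := by
      funext p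
      by_cases hp : p.1 ∈ F
      · rw [indicator_of_mem hp, indicator_of_mem (show p ∈ Prod.fst ⁻¹' F from hp)]
      · rw [indicator_of_notMem hp, indicator_of_notMem (show p ∉ Prod.fst ⁻¹' F from hp)]
    rw [e1]
    exact (hP.meas τ hτ).enorm.indicator (measurable_fst hF)
  have h3 := schur (μ := g.vol) (ν := g.vol) (k := fun z y => F.indicator (fun z => ‖q τ z y‖ₑ) z)
    hk (a := ENNReal.ofReal a) (b := ENNReal.ofReal b) ?_ (h2 τ hτ hτ1)
    (f := fun y => ‖φ y‖ₑ) (Lp.stronglyMeasurable φ).enorm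
  · refine le_trans ?_ h3
    refine le_trans ?_ (setLIntegral_le_lintegral F _)
    refine setLIntegral_mono' hF fun z hz => ?_
    gcongr
    simp only [indicator_of_mem hz]
    exact e5_enorm_Qop g q τ φ z
  · intro z
    by_cases hz : z ∈ F
    · simp only [indicator_of_mem hz]
      exact h1 τ hτ hτ1 z hz
    · simp only [indicator_of_notMem hz, lintegral_zero]
      exact zero_le

private theorem e5_sq (a b : ℝ≥0∞) : (a + b) ^ 2 ≤ 4 * (a ^ 2 + b ^ 2) := by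
  rcases le_total a b with h | h
  · calc (a + b) ^ 2 ≤ (b + b) ^ 2 := by gcongr
      _ = 4 * b ^ 2 := by ring
      _ ≤ 4 * (a ^ 2 + b ^ 2) := by
        gcongr
        exact le_add_self
  · calc (a + b) ^ 2 ≤ (a + a) ^ 2 := by gcongr
      _ = 4 * a ^ 2 := by ring
      _ ≤ 4 * (a ^ 2 + b ^ 2) := by
        gcongr
        exact le_self_add

private theorem e5_sub {C : Cliff m} {g : Geo (2 * m)} {B : Pot (2 * m)} {F : Set (V (2 * m))}
    {q qd e : ℝ → V (2 * m) → V (2 * m) → En m} {c κ r₀ : ℝ}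
    (hP : Para C g B F q qd e c κ r₀) {τ : ℝ} (hτ : 0 < τ) {z : V (2 * m)} (hz : z ∈ F)
    (φ ψ : g.L2) : Qop g q τ (φ - ψ) z = Qop g q τ φ z - Qop g q τ ψ z := by
  unfold Qop
  rw [← integral_sub (e5_int hP hτ hz φ) (e5_int hP hτ hz ψ)]
  refine integral_congr_ae ?_
  filter_upwards [Lp.coeFn_sub φ ψ] with y hy
  rw [hy, Pi.sub_apply, map_sub]

/-- `Q_τ φ → φ` for continuous `φ` with compact support. -/
private theorem e5_cc {C : Cliff m} {g : Geo (2 * m)} {B : Pot (2 * m)} {F : Set (V (2 * m))}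
    (hF : MeasurableSet F) (hFb : Bornology.IsBounded F)
    {q qd e : ℝ → V (2 * m) → V (2 * m) → En m} {c κ r₀ : ℝ}
    (hP : Para C g B F q qd e c κ r₀) {f : V (2 * m) → Sp m} (hf : Continuous f)
    (hf' : HasCompactSupport f) :
    Tendsto (fun τ => ∫⁻ z in F, ‖Qop g q τ (g.emb f) z - g.emb f z‖ₑ ^ 2 ∂g.vol) (𝓝[>] 0)
      (𝓝 0) := by
  obtain ⟨a, ha, hrow⟩ := e5_row hP
  obtain ⟨M, hM⟩ := hf.bounded_above_of_compact_support hf'
  have hM0 : 0 ≤ M := (norm_nonneg _).trans (hM 0)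
  have hvol : g.vol F < ⊤ := hFb.measure_lt_top
  have hfm := g.memLp_cc hf hf'
  have hev : ∀ᶠ τ : ℝ in 𝓝[>] 0, 0 < τ ∧ τ ≤ 1 := by
    filter_upwards [Ioc_mem_nhdsGT (zero_lt_one' ℝ)] with τ hτ using hτ
  have hlim := tendsto_lintegral_filter_of_dominated_convergence' (μ := g.vol.restrict F)
    (l := 𝓝[>] (0 : ℝ)) (F := fun τ z => ‖Qop g q τ (g.emb f) z - g.emb f z‖ₑ ^ 2)
    (f := fun _ => 0) (fun _ => (ENNReal.ofReal (a * M) + ENNReal.ofReal M) ^ 2) ?_ ?_ ?_ ?_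
  · simpa using hlim
  · filter_upwards [hev] with τ hτ
    exact ((aesm_Qop hP hτ.1 _).sub
      (Lp.aestronglyMeasurable (g.emb f)).restrict).enorm.pow_const 2
  · filter_upwards [hev] with τ hτ
    rw [ae_restrict_iff' hF]
    filter_upwards [g.emb_coe hfm] with z hz hzF
    gcongr
    refine (enorm_sub_le).trans (add_le_add ?_ ?_)
    · refine (e5_enorm_Qop g q τ _ z).trans ?_
      have h1 : ∫⁻ y, ‖q τ z y‖ₑ * ‖g.emb f y‖ₑ ∂g.vol
          ≤ ∫⁻ y, ‖q τ z y‖ₑ * ENNReal.ofReal M ∂g.vol := by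
        refine lintegral_mono_ae ?_
        filter_upwards [g.emb_coe hfm] with y hy
        rw [hy, ← ofReal_norm (f y)]
        gcongr
        exact hM y
      refine h1.trans ?_
      rw [lintegral_mul_const' _ _ ENNReal.ofReal_ne_top, ENNReal.ofReal_mul ha]
      gcongr
      exact hrow τ hτ.1 hτ.2 z hzF
    · rw [hz, ← ofReal_norm (f z)]
      exact ENNReal.ofReal_le_ofReal (hM z)
  · rw [lintegral_const]
    refine ENNReal.mul_ne_top ?_ (by rw [Measure.restrict_apply_univ]; exact hvol.ne)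
    exact ENNReal.pow_ne_top (ENNReal.add_ne_top.2 ⟨ENNReal.ofReal_ne_top, ENNReal.ofReal_ne_top⟩)
  · rw [ae_restrict_iff' hF]
    filter_upwards [g.emb_coe hfm] with z hz hzF
    have h1 : (fun τ => Qop g q τ (g.emb f) z) = fun τ => ∫ y, adj (q τ z y) (f y) ∂g.vol := by
      funext τ
      unfold Qop
      refine integral_congr_ae ?_
      filter_upwards [g.emb_coe hfm] with y hy
      rw [hy]
    have h2 := hP.delta z hzF f hf hf'
    rw [← h1] at h2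
    have h3 : Tendsto (fun τ => ‖Qop g q τ (g.emb f) z - g.emb f z‖ₑ ^ 2) (𝓝[>] 0)
        (𝓝 (‖f z - f z‖ₑ ^ 2)) := by
      rw [hz]
      exact ((ENNReal.continuous_pow 2).tendsto _).comp
        ((continuous_enorm.tendsto _).comp (h2.sub_const (f z)))
    simpa using h3

/-- `Q_τ φ → φ` in `L²(F)`: for `φ` continuous with compact support pointwise by `delta` and
dominated (`‖Q_τ φ (z)‖ ≤ sup |φ| ∫ ‖q τ z y‖ dvol(y) ≤ C`), in general by density and `Qop_bdd`. -/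
theorem Qop_tendsto {C : Cliff m} {g : Geo (2 * m)} {B : Pot (2 * m)} {F : Set (V (2 * m))}
    (hF : MeasurableSet F) (hFb : Bornology.IsBounded F)
    {q qd e : ℝ → V (2 * m) → V (2 * m) → En m} {c κ r₀ : ℝ}
    (hP : Para C g B F q qd e c κ r₀) (φ : g.L2) :
    Tendsto (fun τ => ∫⁻ z in F, ‖Qop g q τ φ z - φ z‖ₑ ^ 2 ∂g.vol) (𝓝[>] 0) (𝓝 0) := by
  obtain ⟨a, ha, hb⟩ := Qop_bdd hF hFb hP
  rw [ENNReal.tendsto_nhds_zero]
  intro ε hε
  -- choose a test function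
  obtain ⟨δ, hδ, hδε⟩ : ∃ δ : ℝ≥0∞, 0 < δ ∧
      4 * (ENNReal.ofReal a * δ ^ 2 + 4 * (δ + δ ^ 2)) ≤ ε := by
    have h1 : Tendsto (fun δ : ℝ≥0∞ => 4 * (ENNReal.ofReal a * δ ^ 2 + 4 * (δ + δ ^ 2)))
        (𝓝[>] 0) (𝓝 0) := by
      have hc : Continuous fun δ : ℝ≥0∞ =>
          4 * (ENNReal.ofReal a * δ ^ 2 + 4 * (δ + δ ^ 2)) := by
        refine (ENNReal.continuous_const_mul (by norm_num)).comp ?_
        refine ((ENNReal.continuous_const_mul ENNReal.ofReal_ne_top).comp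
          (ENNReal.continuous_pow 2)).add ?_
        exact (ENNReal.continuous_const_mul (by norm_num)).comp
          (continuous_id.add (ENNReal.continuous_pow 2))
      have h2 := (hc.tendsto 0).mono_left (nhdsWithin_le_nhds (s := Ioi 0))
      simpa using h2
    rw [ENNReal.tendsto_nhds_zero] at h1
    obtain ⟨δ, h2, h3⟩ := ((h1 ε hε).and self_mem_nhdsWithin).exists
    exact ⟨δ, h3, h2⟩
  obtain ⟨ψ, hψ, hdist⟩ : ∃ ψ : g.L2, (∃ f, IsTF f ∧ ψ = g.emb f) ∧ ‖φ - ψ‖ₑ ≤ δ := by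
    obtain ⟨ψ, h1, h2⟩ := EMetric.mem_closure_iff.1 (g.dense_tf φ) δ hδ
    exact ⟨ψ, h1, by rw [← edist_eq_enorm_sub]; exact h2.le⟩
  obtain ⟨f, hf, rfl⟩ := hψ
  have hcc := e5_cc hF hFb hP hf.1.continuous hf.2
  rw [ENNReal.tendsto_nhds_zero] at hcc
  filter_upwards [hcc δ hδ, Ioc_mem_nhdsGT (zero_lt_one' ℝ)] with τ h1 hτ
  refine le_trans ?_ hδε
  have hpt : ∀ᵐ z ∂(g.vol.restrict F), ‖Qop g q τ φ z - φ z‖ₑ ^ 2
      ≤ 4 * (‖Qop g q τ (φ - g.emb f) z‖ₑ ^ 2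
        + 4 * (‖Qop g q τ (g.emb f) z - g.emb f z‖ₑ ^ 2 + ‖(φ - g.emb f : g.L2) z‖ₑ ^ 2)) := by
    rw [ae_restrict_iff' hF]
    filter_upwards [Lp.coeFn_sub φ (g.emb f)] with z hz hzF
    rw [hz, Pi.sub_apply, e5_sub hP hτ.1 hzF]
    have e1 : Qop g q τ φ z - φ z = (Qop g q τ φ z - Qop g q τ (g.emb f) z)
        + ((Qop g q τ (g.emb f) z - g.emb f z) + -(φ z - g.emb f z)) := by abel
    calc ‖Qop g q τ φ z - φ z‖ₑ ^ 2
        ≤ (‖Qop g q τ φ z - Qop g q τ (g.emb f) z‖ₑ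
          + (‖Qop g q τ (g.emb f) z - g.emb f z‖ₑ + ‖φ z - g.emb f z‖ₑ)) ^ 2 := by
          gcongr
          rw [e1]
          refine (enorm_add_le _ _).trans ?_
          gcongr
          refine (enorm_add_le _ _).trans ?_
          rw [enorm_neg]
      _ ≤ 4 * (‖Qop g q τ φ z - Qop g q τ (g.emb f) z‖ₑ ^ 2
          + (‖Qop g q τ (g.emb f) z - g.emb f z‖ₑ + ‖φ z - g.emb f z‖ₑ) ^ 2) := e5_sq _ _
      _ ≤ _ := by
          gcongr
          exact e5_sq _ _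
  have hm1 : AEMeasurable (fun z => ‖Qop g q τ (φ - g.emb f) z‖ₑ ^ 2) (g.vol.restrict F) :=
    (aesm_Qop hP hτ.1 _).enorm.pow_const 2
  have hm2 : AEMeasurable (fun z => ‖Qop g q τ (g.emb f) z - g.emb f z‖ₑ ^ 2)
      (g.vol.restrict F) :=
    ((aesm_Qop hP hτ.1 _).sub (Lp.aestronglyMeasurable (g.emb f)).restrict).enorm.pow_const 2
  refine (lintegral_mono_ae hpt).trans ?_
  rw [lintegral_const_mul' _ _ (by norm_num), lintegral_add_left' hm1,
    lintegral_const_mul' _ _ (by norm_num), lintegral_add_left' hm2]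
  gcongr
  · refine (hb τ hτ.1 hτ.2 _).trans ?_
    gcongr
  · refine (setLIntegral_le_lintegral F _).trans ?_
    rw [← g.enorm_L2_sq]
    gcongr

private theorem e5_kernel (C : Cliff m) (g : Geo (2 * m)) {B : Pot (2 * m)} (hB : IsPot B)
    {κ' : ℝ} (hκ' : κ' ^ 2 = 1) {F : Set (V (2 * m))}
    {q qd e : ℝ → V (2 * m) → V (2 * m) → En m} {c κ r₀ : ℝ}
    (hP : Para C g B F q qd e c κ r₀) {s : ℝ} (hs : 0 < s) (hs1 : s ≤ 1) {z : V (2 * m)}
    (hz : z ∈ F) (u : Sp m) :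
    Tendsto (fun ε => Sop (Rop (C.Eps g κ') (C.Gr g B)) (s - ε) (g.emb fun y => q ε z y u))
      (𝓝[>] 0) (𝓝 (kerS g (Rop (C.Eps g κ') (C.Gr g B)) q e s z u)) := by
  have he := isGrading_Eps C g hκ'
  have ho := isOddSymm_Gr C g hB hκ'
  have hR : IsCon (Rop (C.Eps g κ') (C.Gr g B)) := Rop_isCon he ho
  have hc := hP.c_pos
  have hadd : ∀ τ : ℝ, (g.emb fun y => qd τ z y u)
      + ((g.emb fun y => e τ z y u) - g.emb fun y => qd τ z y u)
      = g.emb fun y => e τ z y u := fun τ => add_sub_cancel _ _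
  have hcont : ContinuousOn (fun τ => g.emb fun y => e τ z y u) (Ioc 0 s) :=
    (hP.cont z hz u).mono fun τ hτ => hτ.1
  have hint : IntegrableOn (fun τ => g.emb fun y => e τ z y u) (Ioc 0 s) := by
    refine Integrable.of_bound (hcont.aestronglyMeasurable measurableSet_Ioc) (c * ‖u‖) ?_
    rw [ae_restrict_iff' measurableSet_Ioc]
    refine Eventually.of_forall fun τ hτ => ?_
    have hτ1 : τ ≤ 1 := hτ.2.trans hs1
    refine (hP.be τ hτ.1 hτ1 z hz u).trans ?_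
    have h1 : √τ ^ (m - 1) ≤ 1 := pow_le_one₀ (Real.sqrt_nonneg _) (Real.sqrt_le_one.2 hτ1)
    have h2 : c * √τ ^ (m - 1) ≤ c * 1 := mul_le_mul_of_nonneg_left h1 hc.le
    rw [mul_one] at h2
    exact mul_le_mul_of_nonneg_right h2 (norm_nonneg _)
  have h := Kop_tendsto hR (fun u hu => Rop_inj he ho hu) hs
    (q := fun τ => g.emb fun y => q τ z y u) (q' := fun τ => g.emb fun y => qd τ z y u)
    (a := fun τ => (g.emb fun y => e τ z y u) - g.emb fun y => qd τ z y u)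
    (fun τ hτ => (hP.der z hz u τ hτ.1).hasDerivWithinAt) ?_ (by simpa only [hadd] using hcont)
    (by simpa only [hadd] using hint)
  · simp only [hadd] at h
    exact h
  · intro τ hτ
    have htf := hP.tf τ hτ.1 z hz u
    have hD := isTF_dirac C g hB (isTF_dirac C g hB htf)
    have hqd : MemLp (fun y => qd τ z y u) 2 g.vol := by
      refine g.memLp_cc ?_ ?_
      · exact (hP.qd_cont τ hτ.1 z hz).clm_apply continuous_const
      · refine HasCompactSupport.intro (isCompact_closedBall (0 : V (2 * m)) r₀) fun y hy => ?_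
        rw [mem_closedBall_zero_iff, not_le] at hy
        rw [hP.qd_supp τ hτ.1 z hz y hy]
        rfl
    have h1 : (g.emb fun y => e τ z y u) = (g.emb fun y => qd τ z y u)
        + g.emb (C.dirac g B (C.dirac g B fun y => q τ z y u)) := by
      rw [← g.emb_add hqd (g.memLp_tf hD)]
      congr 1
      funext y
      exact hP.eqn τ hτ.1 z hz y u
    have h2 : (g.emb fun y => e τ z y u) - (g.emb fun y => qd τ z y u)
        = g.emb (C.dirac g B (C.dirac g B fun y => q τ z y u)) := by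
      rw [h1, add_sub_cancel_left]
    rw [h2]
    exact (Rop_two he ho (emb_mem_Gr C g B htf) (emb_mem_Gr C g B (isTF_dirac C g hB htf))).symm

private theorem e5_lim {C : Cliff m} {g : Geo (2 * m)} {B : Pot (2 * m)} {F : Set (V (2 * m))}
    (hF : MeasurableSet F) (hFb : Bornology.IsBounded F)
    {q qd e : ℝ → V (2 * m) → V (2 * m) → En m} {c κ r₀ : ℝ}
    (hP : Para C g B F q qd e c κ r₀) {R : g.L2 →L[ℂ] g.L2} (hR : IsCon R) {s : ℝ} (hs : 0 < s)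
    (ψ : g.L2) :
    Tendsto (fun ε => ∫⁻ z in F, ‖Qop g q ε (Sop R (s - ε) ψ) z - (Sop R s ψ : g.L2) z‖ₑ ^ 2
      ∂g.vol) (𝓝[>] 0) (𝓝 0) := by
  obtain ⟨a, ha, hb⟩ := Qop_bdd hF hFb hP
  have h1 := Qop_tendsto hF hFb hP (Sop R s ψ)
  have h2 : Tendsto (fun ε : ℝ => Sop R (s - ε) ψ - Sop R s ψ) (𝓝[>] 0) (𝓝 0) := by
    have hc : ContinuousAt (Sop R) s := (Sop_continuousOn hR).continuousAt (isOpen_Ioi.mem_nhds hs)
    have hin : Tendsto (fun ε : ℝ => s - ε) (𝓝[>] 0) (𝓝 s) := by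
      have h3 : Tendsto (fun ε : ℝ => s - ε) (𝓝 0) (𝓝 (s - 0)) :=
        (continuous_const.sub continuous_id).tendsto 0
      rw [sub_zero] at h3
      exact h3.mono_left nhdsWithin_le_nhds
    have h3 : Tendsto (fun ε : ℝ => Sop R (s - ε) ψ) (𝓝[>] 0) (𝓝 (Sop R s ψ)) :=
      ((ContinuousLinearMap.apply ℂ g.L2 ψ).continuous.tendsto _).comp (hc.tendsto.comp hin)
    simpa using h3.sub_const (Sop R s ψ)
  have h3 : Tendsto (fun ε : ℝ => 4 * (ENNReal.ofReal a * ‖Sop R (s - ε) ψ - Sop R s ψ‖ₑ ^ 2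
      + ∫⁻ z in F, ‖Qop g q ε (Sop R s ψ) z - (Sop R s ψ : g.L2) z‖ₑ ^ 2 ∂g.vol)) (𝓝[>] 0)
      (𝓝 (4 * (ENNReal.ofReal a * 0 ^ 2 + 0))) := by
    refine ENNReal.Tendsto.const_mul (Tendsto.add ?_ h1) (Or.inr (by norm_num))
    refine ENNReal.Tendsto.const_mul ?_ (Or.inr ENNReal.ofReal_ne_top)
    refine ((ENNReal.continuous_pow 2).tendsto _).comp ?_
    have h4 := (continuous_enorm.tendsto (0 : g.L2)).comp h2
    rw [enorm_zero] at h4
    exact h4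
  have h0 : (4 : ℝ≥0∞) * (ENNReal.ofReal a * 0 ^ 2 + 0) = 0 := by simp
  rw [h0] at h3
  refine tendsto_of_tendsto_of_tendsto_of_le_of_le' tendsto_const_nhds h3
    (Eventually.of_forall fun _ => zero_le) ?_
  filter_upwards [Ioc_mem_nhdsGT (zero_lt_one' ℝ)] with ε hε
  have hpt : ∀ᵐ z ∂(g.vol.restrict F),
      ‖Qop g q ε (Sop R (s - ε) ψ) z - (Sop R s ψ : g.L2) z‖ₑ ^ 2
      ≤ 4 * (‖Qop g q ε (Sop R (s - ε) ψ - Sop R s ψ) z‖ₑ ^ 2
        + ‖Qop g q ε (Sop R s ψ) z - (Sop R s ψ : g.L2) z‖ₑ ^ 2) := by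
    rw [ae_restrict_iff' hF]
    refine Eventually.of_forall fun z hz => ?_
    rw [e5_sub hP hε.1 hz]
    refine le_trans ?_ (e5_sq _ _)
    gcongr
    refine le_trans (le_of_eq ?_) (enorm_add_le _ _)
    congr 1
    abel
  have hm1 : AEMeasurable (fun z => ‖Qop g q ε (Sop R (s - ε) ψ - Sop R s ψ) z‖ₑ ^ 2)
      (g.vol.restrict F) := (aesm_Qop hP hε.1 _).enorm.pow_const 2
  refine (lintegral_mono_ae hpt).trans ?_
  rw [lintegral_const_mul' _ _ (by norm_num), lintegral_add_left' hm1]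
  gcongr
  exact hb ε hε.1 hε.2 _

/-- THE KERNEL IDENTITY. Proof: let `R = Rop ..`, `S_s = Sop R s`. By `Rop_two` (graph elements
`(q, Dq)`, `(Dq, D²q)`) the hypotheses of `Kop_tendsto` hold for
`q τ = emb (q τ z · u)`, `a τ = emb (D² (q τ z · u))`, `q' = emb qd`, `q' + a = emb e`; so for every
`z ∈ F` and `u`: `⟪u, Q_ε (S_{s-ε} ψ) (z)⟫ = ⟪emb (q ε z · u), S_{s-ε} ψ⟫
= ⟪S_{s-ε} emb (q ε z · u), ψ⟫ → ⟪kerS s z u, ψ⟫` for `ε → 0`. On the other hand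
`Q_ε (S_{s-ε} ψ) → S_s ψ` in `L²(F)` by `Qop_bdd` (for `S_{s-ε} ψ - S_s ψ → 0`) and
`Qop_tendsto`. Along a sequence `ε_k → 0` it converges almost everywhere on `F`, so the limits
agree for the basis vectors `u = sb j`, hence for all `u` (`kerS_add`). -/
theorem kernel_identity (C : Cliff m) (g : Geo (2 * m)) {B : Pot (2 * m)} (hB : IsPot B)
    {κ' : ℝ} (hκ' : κ' ^ 2 = 1) {F : Set (V (2 * m))}
    (hF : MeasurableSet F) (hFb : Bornology.IsBounded F)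
    {q qd e : ℝ → V (2 * m) → V (2 * m) → En m} {c κ r₀ : ℝ}
    (hP : Para C g B F q qd e c κ r₀) {s : ℝ} (hs : 0 < s) (hs1 : s ≤ 1) (ψ : g.L2) :
    ∀ᵐ z ∂(g.vol.restrict F), ∀ u,
      ⟪kerS g (Rop (C.Eps g κ') (C.Gr g B)) q e s z u, ψ⟫_ℂ
        = ⟪u, (Sop (Rop (C.Eps g κ') (C.Gr g B)) s ψ : g.L2) z⟫_ℂ := by
  have hR : IsCon (Rop (C.Eps g κ') (C.Gr g B)) :=
    Rop_isCon (isGrading_Eps C g hκ') (isOddSymm_Gr C g hB hκ')
  set R := Rop (C.Eps g κ') (C.Gr g B) with hRdef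
  have hlim := e5_lim hF hFb hP hR hs ψ
  -- a sequence
  have hex : ∀ k : ℕ, ∃ ε : ℝ, 0 < ε ∧ ε ≤ 1 / ((k : ℝ) + 1) ∧
      ∫⁻ z in F, ‖Qop g q ε (Sop R (s - ε) ψ) z - (Sop R s ψ : g.L2) z‖ₑ ^ 2 ∂g.vol
        ≤ (2 : ℝ≥0∞)⁻¹ ^ k := by
    intro k
    rw [ENNReal.tendsto_nhds_zero] at hlim
    have h1 : (0 : ℝ≥0∞) < (2 : ℝ≥0∞)⁻¹ ^ k := by
      refine ENNReal.pow_pos ?_ k
      simp
    obtain ⟨ε, h2, h3⟩ := ((hlim _ h1).and (Ioc_mem_nhdsGT
      (show (0 : ℝ) < 1 / ((k : ℝ) + 1) by positivity))).exists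
    exact ⟨ε, h3.1, h3.2, h2⟩
  choose ε hε0 hε1 hε2 using hex
  have hεlim : Tendsto ε atTop (𝓝[>] 0) := by
    rw [tendsto_nhdsWithin_iff]
    refine ⟨squeeze_zero (fun k => (hε0 k).le) hε1 tendsto_one_div_add_atTop_nhds_zero_nat,
      Eventually.of_forall hε0⟩
  have hmeas : ∀ k, AEMeasurable (fun z => ‖Qop g q (ε k) (Sop R (s - ε k) ψ) z
      - (Sop R s ψ : g.L2) z‖ₑ ^ 2) (g.vol.restrict F) := fun k =>
    ((aesm_Qop hP (hε0 k) _).sub (Lp.aestronglyMeasurable _).restrict).enorm.pow_const 2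
  have hsum : ∫⁻ z in F, ∑' k, ‖Qop g q (ε k) (Sop R (s - ε k) ψ) z
      - (Sop R s ψ : g.L2) z‖ₑ ^ 2 ∂g.vol ≠ ⊤ := by
    rw [lintegral_tsum hmeas]
    refine ne_top_of_le_ne_top ?_ (ENNReal.tsum_le_tsum hε2)
    rw [ENNReal.tsum_geometric]
    simp
  have hae := ae_lt_top' (AEMeasurable.tsum hmeas) hsum
  have hmem : ∀ᵐ z ∂(g.vol.restrict F), z ∈ F := ae_restrict_mem hF
  filter_upwards [hae, hmem] with z hz hzF
  intro u
  have h0 := ENNReal.tendsto_atTop_zero_of_tsum_ne_top hz.ne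
  have hconv : Tendsto (fun k => Qop g q (ε k) (Sop R (s - ε k) ψ) z) atTop
      (𝓝 ((Sop R s ψ : g.L2) z)) := by
    rw [tendsto_iff_norm_sub_tendsto_zero]
    have h1 := (ENNReal.tendsto_toReal ENNReal.zero_ne_top).comp h0
    have h2 := (Real.continuous_sqrt.tendsto _).comp h1
    simp only [ENNReal.toReal_zero, Real.sqrt_zero] at h2
    refine h2.congr fun k => ?_
    simp only [Function.comp_apply]
    rw [ENNReal.toReal_pow, toReal_enorm, Real.sqrt_sq (norm_nonneg _)]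
  have hA : Tendsto (fun k => ⟪u, Qop g q (ε k) (Sop R (s - ε k) ψ) z⟫_ℂ) atTop
      (𝓝 ⟪u, (Sop R s ψ : g.L2) z⟫_ℂ) := tendsto_const_nhds.inner hconv
  have hB2 : Tendsto (fun k => ⟪u, Qop g q (ε k) (Sop R (s - ε k) ψ) z⟫_ℂ) atTop
      (𝓝 ⟪kerS g R q e s z u, ψ⟫_ℂ) := by
    have h1 : Tendsto (fun k => ⟪Sop R (s - ε k) (g.emb fun y => q (ε k) z y u), ψ⟫_ℂ) atTop
        (𝓝 ⟪kerS g R q e s z u, ψ⟫_ℂ) :=
      ((e5_kernel C g hB hκ' hP hs hs1 hzF u).comp hεlim).inner tendsto_const_nhds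
    refine h1.congr fun k => ?_
    rw [inner_Qop hP (hε0 k) hzF]
    exact (Sop_sa (R := R) (s - ε k)).isSymmetric _ _
  exact tendsto_nhds_unique hB2 hA

end Pool.Agent.Lib.MP_df705a_gt.RL
end
end

section

/-!
# RL2, E6: Hilbert-Schmidt norms and the kernel
-/

open scoped ContDiff InnerProductSpace Matrix ENNReal NNReal Topology
open MeasureTheory Filter Set

noncomputable section

namespace Pool.Agent.Lib.MP_df705a_gt.RL

variable {m : ℕ}

/-- The square of the norm of a spinor as a sum over the basis. -/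
private theorem E6_norm (w : Sp m) : ‖w‖ₑ ^ 2 = ∑ j, ‖⟪(sb j : Sp m), w⟫_ℂ‖ₑ ^ 2 := by
  have h : ‖w‖ ^ 2 = ∑ j, ‖⟪(sb j : Sp m), w⟫_ℂ‖ ^ 2 := by
    rw [EuclideanSpace.norm_sq_eq]
    refine Finset.sum_congr rfl fun j _ => ?_
    rw [sb, EuclideanSpace.inner_single_left, map_one, one_mul]
  have h1 : ∀ x : ℝ, 0 ≤ x → ENNReal.ofReal x ^ 2 = ENNReal.ofReal (x ^ 2) := fun x hx =>
    (ENNReal.ofReal_pow hx 2).symm
  simp only [← ofReal_norm]
  rw [h1 _ (norm_nonneg _), h, ENNReal.ofReal_sum_of_nonneg fun j _ => by positivity]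
  exact Finset.sum_congr rfl fun j _ => (h1 _ (norm_nonneg _)).symm

private theorem E6_norm_adj (A : En m) (w : Sp m) :
    ‖adj A w‖ₑ ^ 2 = ∑ j, ‖⟪A (sb j), w⟫_ℂ‖ₑ ^ 2 := by
  rw [E6_norm]
  exact Finset.sum_congr rfl fun j _ => by rw [ContinuousLinearMap.adjoint_inner_right]

/-- The adjoint of the operator in `hs_formula` applied to a vector. -/
private theorem E6_adj (g : Geo (2 * m)) {F : Set (V (2 * m))} (hF : MeasurableSet F)
    {A : V (2 * m) → En m} (hA : BddM A) {T : g.L2 →L[ℂ] g.L2} (hT : IsSelfAdjoint T)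
    (u : g.L2) : ‖ContinuousLinearMap.adjoint (T * g.mulE A * g.ind F) u‖ₑ ^ 2 =
      ∫⁻ z in F, ∑ j, ‖⟪A z (sb j), (T u : g.L2) z⟫_ℂ‖ₑ ^ 2 ∂g.vol := by
  have h1 : ContinuousLinearMap.adjoint (T * g.mulE A * g.ind F) u =
      g.ind F (g.mulE (fun y => adj (A y)) (T u)) := by
    have h2 : star (T * g.mulE A * g.ind F) =
        g.ind F * (g.mulE (fun y => adj (A y)) * T) := by
      rw [star_mul, star_mul, hT.star_eq, (g.ind_sa hF).star_eq]
      exact congrArg (fun x => g.ind F * (x * T)) (g.adj_mulE hA)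
    exact congrArg (fun x : g.L2 →L[ℂ] g.L2 => x u) h2
  rw [h1, g.enorm_L2_sq, ← lintegral_indicator hF]
  refine lintegral_congr_ae ?_
  filter_upwards [g.mulE_coe ((BddM.const 1).indicator hF) (g.mulE (fun y => adj (A y)) (T u)),
    g.mulE_coe hA.adj (T u)] with y hy1 hy2
  unfold Geo.ind
  rw [hy1]
  by_cases hy : y ∈ F
  · rw [Set.indicator_of_mem hy, Set.indicator_of_mem hy, ← E6_norm_adj]
    change ‖(g.mulE (fun y => adj (A y)) (T u)) y‖ₑ ^ 2 = _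
    rw [hy2]
  · rw [Set.indicator_of_notMem hy, Set.indicator_of_notMem hy]
    simp

private theorem E6_meas (g : Geo (2 * m)) {A : V (2 * m) → En m} (hA : BddM A) (u : g.L2)
    (j : Fin (2 ^ m)) (F : Set (V (2 * m))) :
    AEMeasurable (fun z => ‖⟪A z (sb j), u z⟫_ℂ‖ₑ ^ 2) (g.vol.restrict F) := by
  have h1 : AEStronglyMeasurable (fun z => A z (sb j)) (g.vol.restrict F) :=
    ((ContinuousLinearMap.apply ℂ (Sp m) (sb j)).continuous.comp_stronglyMeasurable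
      hA.1).aestronglyMeasurable
  exact ((h1.inner (Lp.aestronglyMeasurable u).restrict).enorm).pow_const 2

/-- The formula for the Hilbert-Schmidt norm. Proof: `hs (S (mulE A) ind F) = hs` of the adjoint
`= hs (ind F (mulE A*) S)` (`hs_adjoint`) `= ∑_i ∫_F ‖A(z)* (S b_i)(z)‖² = ∑_i ∫_F ∑_j
|⟪A(z) sb_j, (S b_i)(z)⟫|² = ∑_j ∫_F ∑_i |⟪kerS z (A(z) sb_j), b_i⟫|²` (`kernel_identity` for the
countably many `ψ = b_i`, Tonelli) and the inner sum is `‖kerS z (A(z) sb_j)‖²` (Parseval).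
The function `z ↦ ‖kerS z (A(z) sb_j)‖` is almost everywhere measurable on `F` by the same
formula. -/
theorem hs_formula (C : Cliff m) (g : Geo (2 * m)) {B : Pot (2 * m)} (hB : IsPot B)
    {κ' : ℝ} (hκ' : κ' ^ 2 = 1) {F : Set (V (2 * m))}
    (hF : MeasurableSet F) (hFb : Bornology.IsBounded F)
    {q qd e : ℝ → V (2 * m) → V (2 * m) → En m} {c κ r₀ : ℝ}
    (hP : Para C g B F q qd e c κ r₀) {s : ℝ} (hs : 0 < s) (hs1 : s ≤ 1)
    {A : V (2 * m) → En m} (hA : BddM A) :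
    (∀ j, AEMeasurable (fun z => ‖kerS g (Rop (C.Eps g κ') (C.Gr g B)) q e s z (A z (sb j))‖ₑ ^ 2)
      (g.vol.restrict F)) ∧
    RL.hs (Sop (Rop (C.Eps g κ') (C.Gr g B)) s * g.mulE A * g.ind F)
      = ∫⁻ z in F, ∑ j, ‖kerS g (Rop (C.Eps g κ') (C.Gr g B)) q e s z (A z (sb j))‖ₑ ^ 2
        ∂g.vol := by
  have hcnt : Countable ↥(exists_hilbertBasis ℂ g.L2).choose := stdB_countable
  set R := Rop (C.Eps g κ') (C.Gr g B) with hR
  have hk : ∀ᵐ z ∂(g.vol.restrict F), ∀ i, ∀ u,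
      ⟪kerS g R q e s z u, stdB g.L2 i⟫_ℂ = ⟪u, (Sop R s (stdB g.L2 i) : g.L2) z⟫_ℂ :=
    ae_all_iff.2 fun i => kernel_identity C g hB hκ' hF hFb hP hs hs1 (stdB g.L2 i)
  have hj : ∀ j, (fun z => ‖kerS g R q e s z (A z (sb j))‖ₑ ^ 2) =ᵐ[g.vol.restrict F]
      fun z => ∑' i, ‖⟪A z (sb j), (Sop R s (stdB g.L2 i) : g.L2) z⟫_ℂ‖ₑ ^ 2 := by
    intro j
    filter_upwards [hk] with z hz
    rw [← parseval (stdB g.L2)]
    refine tsum_congr fun i => ?_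
    rw [← hz i, enorm_eq_iff_norm_eq.2 (norm_inner_symm _ _)]
  refine ⟨fun j => ?_, ?_⟩
  · exact AEMeasurable.congr (AEMeasurable.tsum fun i => E6_meas g hA _ j F) (hj j).symm
  · rw [← hs_adjoint, RL.hs]
    simp only [E6_adj g hF hA (Sop_sa s)]
    rw [← lintegral_tsum fun i => Finset.aemeasurable_fun_sum _ fun j _ => E6_meas g hA _ j F]
    refine lintegral_congr_ae ?_
    filter_upwards [ae_all_iff.2 hj] with z hz
    simp only [hz]
    simp only [← tsum_fintype (L := SummationFilter.unconditional _)]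
    exact ENNReal.tsum_comm

/-- Finiteness with a weight: if `‖A z‖ ≤ v z` on `F` then
`hs (S_s (mulE A) ind F) ≤ a c² / s^m ∫_F v²`, where `a` depends only on `g, κ, r₀` (`norm_q_le`,
`kerS_sub_le`: `‖kerS s z u‖ ≤ (a' + 1) c ‖u‖ / √s^m` since `s √s^(m-1) ≤ 1 ≤ 1/√s^m`). -/
theorem hs_le (g : Geo (2 * m)) (κ r₀ : ℝ) (hκ : 0 < κ) : ∃ a : ℝ, 0 ≤ a ∧
    ∀ (C : Cliff m) (B : Pot (2 * m)), IsPot B → ∀ (κ' : ℝ), κ' ^ 2 = 1 →
      ∀ F : Set (V (2 * m)), MeasurableSet F → Bornology.IsBounded F →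
      ∀ (q qd e : ℝ → V (2 * m) → V (2 * m) → En m) (c : ℝ), Para C g B F q qd e c κ r₀ →
      ∀ s, 0 < s → s ≤ 1 → ∀ (A : V (2 * m) → En m), BddM A → ∀ v : V (2 * m) → ℝ,
        (∀ z ∈ F, ‖A z‖ ≤ v z) →
        RL.hs (Sop (Rop (C.Eps g κ') (C.Gr g B)) s * g.mulE A * g.ind F)
          ≤ ENNReal.ofReal (a * c ^ 2 / s ^ m) * ∫⁻ z in F, ENNReal.ofReal (v z ^ 2) ∂g.vol := by
  obtain ⟨a, ha, h⟩ := norm_q_le g κ r₀ hκ
  refine ⟨2 ^ m * (a + 1) ^ 2, by positivity, ?_⟩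
  intro C B hB κ' hκ' F hF hFb q qd e c hP s hs hs1 A hA v hv
  rw [(hs_formula C g hB hκ' hF hFb hP hs hs1 hA).2]
  have hR : IsCon (Rop (C.Eps g κ') (C.Gr g B)) :=
    Rop_isCon (isGrading_Eps C g hκ') (isOddSymm_Gr C g hB hκ')
  have hc := hP.c_pos
  have hsq : 0 < √s := Real.sqrt_pos.2 hs
  have hsq1 : √s ≤ 1 := Real.sqrt_le_one.2 hs1
  have hk : ∀ z ∈ F, ∀ u, ‖kerS g (Rop (C.Eps g κ') (C.Gr g B)) q e s z u‖ ≤
      (a + 1) * c / √s ^ m * ‖u‖ := by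
    intro z hz u
    have h1 := h C B F q qd e c hP s hs hs1 z hz u
    have h2 := kerS_sub_le hP hR hs hs1 hz u
    have h3 : c * s * √s ^ (m - 1) ≤ c / √s ^ m := by
      have h4 : s * √s ^ (m - 1) ≤ 1 :=
        mul_le_one₀ hs1 (by positivity) (pow_le_one₀ hsq.le hsq1)
      have h5 : 1 ≤ 1 / √s ^ m := by
        rw [le_div_iff₀ (pow_pos hsq m), one_mul]
        exact pow_le_one₀ hsq.le hsq1
      calc c * s * √s ^ (m - 1) = c * (s * √s ^ (m - 1)) := by ring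
        _ ≤ c * (1 / √s ^ m) := mul_le_mul_of_nonneg_left (h4.trans h5) hc.le
        _ = c / √s ^ m := by ring
    have h6 := mul_le_mul_of_nonneg_right h3 (norm_nonneg u)
    have h7 := norm_sub_norm_le (kerS g (Rop (C.Eps g κ') (C.Gr g B)) q e s z u)
      (g.emb fun y => q s z y u)
    have h8 : (a + 1) * c / √s ^ m * ‖u‖ = a * c / √s ^ m * ‖u‖ + c / √s ^ m * ‖u‖ := by ring
    rw [h8]
    linarith
  rw [← lintegral_const_mul' _ _ ENNReal.ofReal_ne_top]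
  refine lintegral_mono_ae ((ae_restrict_iff' hF).2 (Eventually.of_forall fun z hz => ?_))
  have h0 : 0 ≤ v z := (norm_nonneg _).trans (hv z hz)
  have hj : ∀ j : Fin (2 ^ m), ‖kerS g (Rop (C.Eps g κ') (C.Gr g B)) q e s z (A z (sb j))‖ₑ ^ 2 ≤
      ENNReal.ofReal ((a + 1) ^ 2 * c ^ 2 / s ^ m * v z ^ 2) := by
    intro j
    rw [← ofReal_norm, ← ENNReal.ofReal_pow (norm_nonneg _)]
    refine ENNReal.ofReal_le_ofReal ?_
    have h1 : ‖A z (sb j)‖ ≤ v z := by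
      refine ((A z).le_opNorm _).trans ?_
      rw [sb, PiLp.norm_single, norm_one, mul_one]
      exact hv z hz
    have h2 : ‖kerS g (Rop (C.Eps g κ') (C.Gr g B)) q e s z (A z (sb j))‖ ≤
        (a + 1) * c / √s ^ m * v z :=
      (hk z hz _).trans (mul_le_mul_of_nonneg_left h1 (by positivity))
    refine (pow_le_pow_left₀ (norm_nonneg _) h2 2).trans (le_of_eq ?_)
    have h3 : (√s ^ m) ^ 2 = s ^ m := by
      rw [← pow_mul, mul_comm m 2, pow_mul, Real.sq_sqrt hs.le]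
    rw [mul_pow, div_pow, mul_pow, h3]
  refine (Finset.sum_le_sum fun j _ => hj j).trans ?_
  rw [Finset.sum_const, Finset.card_univ, Fintype.card_fin, nsmul_eq_mul,
    ← ENNReal.ofReal_mul (by positivity)]
  have h9 : ((2 ^ m : ℕ) : ℝ≥0∞) = ENNReal.ofReal (2 ^ m) := by
    rw [← ENNReal.ofReal_natCast]
    push_cast
    rfl
  rw [h9, ← ENNReal.ofReal_mul (by positivity)]
  refine ENNReal.ofReal_le_ofReal (le_of_eq ?_)
  ring

end Pool.Agent.Lib.MP_df705a_gt.RL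
end
end

section

/-!
# RL2, E7: the supertrace
-/

open scoped ContDiff InnerProductSpace Matrix ENNReal NNReal Topology
open MeasureTheory Filter Set

noncomputable section

namespace Pool.Agent.Lib.MP_df705a_gt.RL

variable {m : ℕ}

/-- The supertrace density of the parametrix. -/
def strq (C : Cliff m) (g : Geo (2 * m)) (F : Set (V (2 * m)))
    (q : ℝ → V (2 * m) → V (2 * m) → En m) (τ : ℝ) : ℝ :=
  ∫ z in F, ∫ y, (tr (C.eps * (adj (q τ z y) * q τ z y))).re ∂g.vol ∂g.vol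

private theorem e7_tr (A : En m) : tr A = ∑ j, ⟪(sb j : Sp m), A (sb j)⟫_ℂ := by
  unfold tr
  rw [LinearMap.trace_eq_sum_inner _ (EuclideanSpace.basisFun (Fin (2 ^ m)) ℂ)]
  refine Finset.sum_congr rfl fun j _ => ?_
  rw [EuclideanSpace.basisFun_apply]
  rfl

private theorem e7_one (a b : Sp m) (k : ℝ) :
    ‖(1 / 2 : ℂ) • (a + (k : ℂ) • b)‖ ^ 2 - ‖(1 / 2 : ℂ) • (a - (k : ℂ) • b)‖ ^ 2
      = k * (⟪a, b⟫_ℂ).re := by
  have h1 : ‖(1 / 2 : ℂ)‖ = 1 / 2 := by norm_num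
  rw [norm_smul, norm_smul, h1, mul_pow, mul_pow, norm_add_sq (𝕜 := ℂ), norm_sub_sq (𝕜 := ℂ),
    inner_smul_right]
  have h2 : RCLike.re ((k : ℂ) * ⟪a, b⟫_ℂ) = k * (⟪a, b⟫_ℂ).re := by
    show ((k : ℂ) * ⟪a, b⟫_ℂ).re = _
    rw [Complex.re_ofReal_mul]
  rw [h2]
  ring

/-- `∑_j ‖Q Π_+ sb_j‖² - ∑_j ‖Q Π_- sb_j‖² = κ' tr(eps Q* Q)` for `Q : En m`,
`Π_± = (1 ± κ' eps)/2`. -/
theorem sum_pm (C : Cliff m) {κ' : ℝ} (hκ' : κ' ^ 2 = 1) (Q : En m) :
    ∑ j, ‖Q ((1 / 2 : ℂ) • (sb j + (κ' : ℂ) • C.eps (sb j)))‖ ^ 2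
      - ∑ j, ‖Q ((1 / 2 : ℂ) • (sb j - (κ' : ℂ) • C.eps (sb j)))‖ ^ 2
      = κ' * (tr (C.eps * (adj Q * Q))).re := by
  have h1 : tr (C.eps * (adj Q * Q)) = tr ((adj Q * Q) * C.eps) :=
    LinearMap.trace_mul_comm ℂ (C.eps : Sp m →ₗ[ℂ] Sp m) ((adj Q * Q : En m) : Sp m →ₗ[ℂ] Sp m)
  rw [h1, e7_tr, Complex.re_sum, Finset.mul_sum, ← Finset.sum_sub_distrib]
  refine Finset.sum_congr rfl fun j _ => ?_
  have h2 : Q ((1 / 2 : ℂ) • (sb j + (κ' : ℂ) • C.eps (sb j)))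
      = (1 / 2 : ℂ) • (Q (sb j) + (κ' : ℂ) • Q (C.eps (sb j))) := by
    rw [map_smul, map_add, map_smul]
  have h3 : Q ((1 / 2 : ℂ) • (sb j - (κ' : ℂ) • C.eps (sb j)))
      = (1 / 2 : ℂ) • (Q (sb j) - (κ' : ℂ) • Q (C.eps (sb j))) := by
    rw [map_smul, map_sub, map_smul]
  rw [h2, h3, e7_one]
  have h4 : ⟪(sb j : Sp m), (adj Q * Q * C.eps) (sb j)⟫_ℂ = ⟪Q (sb j), Q (C.eps (sb j))⟫_ℂ :=
    ContinuousLinearMap.adjoint_inner_right Q (sb j) (Q (C.eps (sb j)))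
  rw [h4]

private theorem e7_sq {E : Type*} [NormedAddCommGroup E] (x y : E) {d b : ℝ}
    (h1 : ‖x - y‖ ≤ d) (h2 : ‖y‖ ≤ b) : |‖x‖ ^ 2 - ‖y‖ ^ 2| ≤ d * (2 * b + d) := by
  have h3 : |‖x‖ - ‖y‖| ≤ d := (abs_norm_sub_norm_le x y).trans h1
  have h4 : ‖x‖ ≤ b + d := by
    have := (abs_le.1 h3).2
    linarith
  have h5 : ‖x‖ ^ 2 - ‖y‖ ^ 2 = (‖x‖ - ‖y‖) * (‖x‖ + ‖y‖) := by ring
  have h6 : 0 ≤ ‖x‖ + ‖y‖ := by positivity
  rw [h5, abs_mul, abs_of_nonneg h6]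
  exact mul_le_mul h3 (by linarith) h6 ((norm_nonneg _).trans h1)

private theorem e7_num {a c s : ℝ} (ha : 0 ≤ a) (hc : 0 < c) (hs : 0 < s) (hs1 : s ≤ 1)
    (n : ℕ) {k : ℝ} (hk : 0 ≤ k) (hk1 : k ≤ 1) :
    (c * s * √s ^ (n - 1) * k) * (2 * (a * c / √s ^ n * k) + c * s * √s ^ (n - 1) * k)
      ≤ (2 * a + 1) * c ^ 2 * √s := by
  obtain ⟨t, ht0, ht1, hst⟩ : ∃ t : ℝ, 0 < t ∧ t ≤ 1 ∧ √s = t :=
    ⟨√s, Real.sqrt_pos.2 hs, Real.sqrt_le_one.2 hs1, rfl⟩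
  have hs2 : s = t ^ 2 := by rw [← hst, Real.sq_sqrt hs.le]
  rw [hst, hs2]
  have hp : 0 < t ^ n := pow_pos ht0 n
  have hq : 0 < t ^ (n - 1) := pow_pos ht0 _
  have hq1 : t ^ (n - 1) ≤ 1 := pow_le_one₀ ht0.le ht1
  have h1 : t ^ (n - 1) * t ≤ t ^ n := by
    cases n with
    | zero => simpa using ht1
    | succ n => rw [Nat.add_sub_cancel, pow_succ]
  have h2 : t ^ 2 * t ^ (n - 1) / t ^ n ≤ t := by
    rw [div_le_iff₀ hp]
    nlinarith [mul_le_mul_of_nonneg_left h1 ht0.le]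
  have h3 : (t ^ 2 * t ^ (n - 1)) ^ 2 ≤ t := by
    have e1 : t ^ 2 * t ^ (n - 1) ≤ t := by
      have : t ^ 2 * t ^ (n - 1) ≤ t ^ 2 * 1 := mul_le_mul_of_nonneg_left hq1 (by positivity)
      nlinarith
    have e2 : 0 ≤ t ^ 2 * t ^ (n - 1) := by positivity
    nlinarith
  have hk2 : k ^ 2 ≤ 1 := by nlinarith
  have e : (c * t ^ 2 * t ^ (n - 1) * k) * (2 * (a * c / t ^ n * k) + c * t ^ 2 * t ^ (n - 1) * k)
      = c ^ 2 * k ^ 2 * (2 * a * (t ^ 2 * t ^ (n - 1) / t ^ n) + (t ^ 2 * t ^ (n - 1)) ^ 2) := by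
    field_simp
  rw [e]
  have h4 : 2 * a * (t ^ 2 * t ^ (n - 1) / t ^ n) + (t ^ 2 * t ^ (n - 1)) ^ 2 ≤ (2 * a + 1) * t := by
    nlinarith [mul_le_mul_of_nonneg_left h2 (by positivity : (0 : ℝ) ≤ 2 * a)]
  have h5 : 0 ≤ (2 * a + 1) * t := by positivity
  calc c ^ 2 * k ^ 2 * (2 * a * (t ^ 2 * t ^ (n - 1) / t ^ n) + (t ^ 2 * t ^ (n - 1)) ^ 2)
      ≤ c ^ 2 * k ^ 2 * ((2 * a + 1) * t) := mul_le_mul_of_nonneg_left h4 (by positivity)
    _ ≤ c ^ 2 * 1 * ((2 * a + 1) * t) := by gcongr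
    _ = (2 * a + 1) * c ^ 2 * t := by ring

private theorem e7_sb (j : Fin (2 ^ m)) : ‖(sb j : Sp m)‖ = 1 := by
  unfold sb
  rw [EuclideanSpace.single, PiLp.norm_single, norm_one]

private theorem e7_aux (g : Geo (2 * m)) (κ r₀ : ℝ) (hκ : 0 < κ) {F : Set (V (2 * m))}
    (hF : MeasurableSet F) (hFb : Bornology.IsBounded F) : ∃ a : ℝ, 0 ≤ a ∧
    ∀ (C : Cliff m) (B : Pot (2 * m)), IsPot B → ∀ (κ' : ℝ), κ' ^ 2 = 1 →
      ∀ (q qd e : ℝ → V (2 * m) → V (2 * m) → En m) (c : ℝ), Para C g B F q qd e c κ r₀ →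
      ∀ s, 0 < s → s ≤ 1 → ∀ A : En m, ‖A‖ ≤ 1 →
        RL.hs (Sop (Rop (C.Eps g κ') (C.Gr g B)) s * g.mulE (fun _ => A) * g.ind F)
          ≠ (⊤ : ℝ≥0∞) ∧
        |(RL.hs (Sop (Rop (C.Eps g κ') (C.Gr g B)) s * g.mulE (fun _ => A) * g.ind F)).toReal
          - ∫ z in F, ∑ j, ∫ y, ‖q s z y (A (sb j))‖ ^ 2 ∂g.vol ∂g.vol| ≤ a * c ^ 2 * √s ∧
        IntegrableOn (fun z => ∑ j, ∫ y, ‖q s z y (A (sb j))‖ ^ 2 ∂g.vol) F g.vol := by
  obtain ⟨a1, ha1, hq⟩ := norm_q_le g κ r₀ hκ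
  obtain ⟨a2, ha2, hle⟩ := hs_le g κ r₀ hκ
  have hvol : g.vol F < ⊤ := hFb.measure_lt_top
  refine ⟨(2 ^ m : ℕ) * (2 * a1 + 1) * g.vol.real F, by positivity, ?_⟩
  intro C B hB κ' hκ' q qd e c hP s hs hs1 A hA
  have hR : IsCon (Rop (C.Eps g κ') (C.Gr g B)) :=
    Rop_isCon (isGrading_Eps C g hκ') (isOddSymm_Gr C g hB hκ')
  have hc := hP.c_pos
  have hAsb : ∀ j : Fin (2 ^ m), ‖A (sb j)‖ ≤ 1 := fun j => by
    have := A.le_opNorm (sb j)
    rw [e7_sb, mul_one] at this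
    exact this.trans hA
  obtain ⟨hm, hform⟩ := hs_formula C g hB hκ' hF hFb hP hs hs1 (BddM.const (m := m) A)
  have hfin : RL.hs (Sop (Rop (C.Eps g κ') (C.Gr g B)) s * g.mulE (fun _ => A) * g.ind F)
      ≠ (⊤ : ℝ≥0∞) := by
    refine ne_top_of_le_ne_top ?_ (hle C B hB κ' hκ' F hF hFb q qd e c hP s hs hs1 (fun _ => A)
      (BddM.const A) (fun _ => 1) (fun _ _ => hA))
    refine ENNReal.mul_ne_top ENNReal.ofReal_ne_top ?_
    rw [setLIntegral_const]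
    exact ENNReal.mul_ne_top ENNReal.ofReal_ne_top hvol.ne
  -- the two densities
  have hqf : ∀ z ∈ F, ∀ u : Sp m,
      ∫ y, ‖q s z y u‖ ^ 2 ∂g.vol = ‖g.emb fun y => q s z y u‖ ^ 2 := fun z hz u =>
    (g.norm_emb_sq (g.memLp_tf (hP.tf s hs z hz u))).symm
  have hqm : ∀ u : Sp m, StronglyMeasurable fun z => ∫ y, ‖q s z y u‖ ^ 2 ∂g.vol := by
    intro u
    have h1 : StronglyMeasurable fun p : V (2 * m) × V (2 * m) => ‖q s p.1 p.2 u‖ ^ 2 := by
      have h2 : StronglyMeasurable fun p : V (2 * m) × V (2 * m) => q s p.1 p.2 u :=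
        (ContinuousLinearMap.apply ℂ (Sp m) u).continuous.comp_stronglyMeasurable (hP.meas s hs)
      exact h2.norm.pow 2
    exact h1.integral_prod_right
  have hqb : ∀ z ∈ F, ∀ j : Fin (2 ^ m), ‖g.emb fun y => q s z y (A (sb j))‖ ^ 2
      ≤ (a1 * c / √s ^ m) ^ 2 := by
    intro z hz j
    have h1 := hq C B F q qd e c hP s hs hs1 z hz (A (sb j))
    have h2 : ‖g.emb fun y => q s z y (A (sb j))‖ ≤ a1 * c / √s ^ m :=
      h1.trans (mul_le_of_le_one_right (by positivity) (hAsb j))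
    gcongr
  have hqint : IntegrableOn (fun z => ∑ j, ∫ y, ‖q s z y (A (sb j))‖ ^ 2 ∂g.vol) F g.vol := by
    refine Measure.integrableOn_of_bounded (M := ∑ _j : Fin (2 ^ m), (a1 * c / √s ^ m) ^ 2)
      hvol.ne ?_ ?_
    · refine (Finset.stronglyMeasurable_fun_sum _ fun j _ => hqm _).aestronglyMeasurable
    · rw [ae_restrict_iff' hF]
      refine Eventually.of_forall fun z hz => ?_
      rw [Real.norm_of_nonneg (Finset.sum_nonneg fun j _ => integral_nonneg fun y => by positivity)]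
      refine Finset.sum_le_sum fun j _ => ?_
      rw [hqf z hz]
      exact hqb z hz j
  have hof : ∀ z, ENNReal.ofReal (∑ j, ‖kerS g (Rop (C.Eps g κ') (C.Gr g B)) q e s z
        (A (sb j))‖ ^ 2)
      = ∑ j, ‖kerS g (Rop (C.Eps g κ') (C.Gr g B)) q e s z (A (sb j))‖ₑ ^ 2 := by
    intro z
    rw [ENNReal.ofReal_sum_of_nonneg fun j _ => by positivity]
    refine Finset.sum_congr rfl fun j _ => ?_
    rw [ENNReal.ofReal_pow (norm_nonneg _), ofReal_norm]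
  have hkm : AEStronglyMeasurable (fun z => ∑ j, ‖kerS g (Rop (C.Eps g κ') (C.Gr g B)) q e s z
        (A (sb j))‖ ^ 2) (g.vol.restrict F) := by
    refine AEMeasurable.aestronglyMeasurable ?_
    have h1 : (fun z => ∑ j, ‖kerS g (Rop (C.Eps g κ') (C.Gr g B)) q e s z (A (sb j))‖ ^ 2)
        = fun z => ∑ j, (‖kerS g (Rop (C.Eps g κ') (C.Gr g B)) q e s z
          (A (sb j))‖ₑ ^ 2).toReal := by
      funext z
      refine Finset.sum_congr rfl fun j _ => ?_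
      rw [ENNReal.toReal_pow, toReal_enorm]
    rw [h1]
    exact Finset.aemeasurable_fun_sum _ fun j _ => (hm j).ennreal_toReal
  have hkint : Integrable (fun z => ∑ j, ‖kerS g (Rop (C.Eps g κ') (C.Gr g B)) q e s z
        (A (sb j))‖ ^ 2) (g.vol.restrict F) := by
    refine ⟨hkm, ?_⟩
    rw [hasFiniteIntegral_iff_ofReal (Eventually.of_forall fun z =>
      Finset.sum_nonneg fun j _ => by positivity)]
    simp only [hof]
    rw [← hform]
    exact lt_top_iff_ne_top.2 hfin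
  have hkeq : (RL.hs (Sop (Rop (C.Eps g κ') (C.Gr g B)) s * g.mulE (fun _ => A) *
      g.ind F)).toReal
      = ∫ z in F, ∑ j, ‖kerS g (Rop (C.Eps g κ') (C.Gr g B)) q e s z (A (sb j))‖ ^ 2 ∂g.vol := by
    rw [integral_eq_lintegral_of_nonneg_ae (Eventually.of_forall fun z =>
      Finset.sum_nonneg fun j _ => by positivity) hkm]
    simp only [hof]
    rw [← hform]
  refine ⟨hfin, ?_, hqint⟩
  rw [hkeq, ← integral_sub hkint hqint, ← Real.norm_eq_abs]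
  have hbd := norm_setIntegral_le_of_norm_le_const (μ := g.vol) (s := F)
    (f := fun z => ∑ j, ‖kerS g (Rop (C.Eps g κ') (C.Gr g B)) q e s z (A (sb j))‖ ^ 2
      - ∑ j, ∫ y, ‖q s z y (A (sb j))‖ ^ 2 ∂g.vol)
    (C := (2 ^ m : ℕ) * ((2 * a1 + 1) * c ^ 2 * √s)) hvol ?_
  · refine hbd.trans (le_of_eq ?_)
    ring
  · intro z hz
    rw [← Finset.sum_sub_distrib]
    refine (norm_sum_le _ _).trans ?_
    have h1 : ∀ j ∈ (Finset.univ : Finset (Fin (2 ^ m))),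
        ‖‖kerS g (Rop (C.Eps g κ') (C.Gr g B)) q e s z (A (sb j))‖ ^ 2
          - ∫ y, ‖q s z y (A (sb j))‖ ^ 2 ∂g.vol‖ ≤ (2 * a1 + 1) * c ^ 2 * √s := by
      intro j _
      rw [hqf z hz, Real.norm_eq_abs]
      refine (e7_sq _ _ (kerS_sub_le hP hR hs hs1 hz (A (sb j)))
        (hq C B F q qd e c hP s hs hs1 z hz (A (sb j)))).trans ?_
      exact e7_num ha1 hc hs hs1 m (norm_nonneg _) (hAsb j)
    refine (Finset.sum_le_card_nsmul _ _ _ h1).trans (le_of_eq ?_)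
    rw [Finset.card_univ, Fintype.card_fin, nsmul_eq_mul]

private theorem e7_Pi_norm (C : Cliff m) {k : ℝ} (hk : k ^ 2 = 1) :
    ‖(1 / 2 : ℂ) • ((1 : En m) + (k : ℂ) • C.eps)‖ ≤ 1 := by
  have h1 : ‖(1 / 2 : ℂ)‖ = 1 / 2 := by norm_num
  have h2 : |k| = 1 := by rw [← Real.sqrt_sq_eq_abs, hk, Real.sqrt_one]
  rw [norm_smul, h1]
  have h3 : ‖(1 : En m)‖ ≤ 1 := ContinuousLinearMap.norm_id_le
  have h4 : ‖(k : ℂ) • C.eps‖ ≤ 1 := by
    rw [norm_smul, Complex.norm_real, Real.norm_eq_abs, h2, one_mul]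
    exact C.norm_eps_le
  have h5 := norm_add_le (1 : En m) ((k : ℂ) • C.eps)
  linarith

/-- The supertrace of the heat semigroup is the one of the parametrix up to `a c² √s`.
Proof: `hs_formula` with `A = Π_±` (constant functions), `Pip (Eps) = mulE Π_+`;
`|‖kerS u‖² - ‖q u‖²| ≤ ‖kerS u - q u‖ (2 ‖q u‖ + ‖kerS u - q u‖)` with `kerS_sub_le`,
`norm_q_le`; `norm_emb_sq`, `sum_pm`, and the volume of `F` is finite. The bound `a` depends on
`g, κ, r₀, F` only. -/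
theorem supertrace (g : Geo (2 * m)) (κ r₀ : ℝ) (hκ : 0 < κ) {F : Set (V (2 * m))}
    (hF : MeasurableSet F) (hFb : Bornology.IsBounded F) : ∃ a : ℝ, 0 ≤ a ∧
    ∀ (C : Cliff m) (B : Pot (2 * m)), IsPot B → ∀ (κ' : ℝ), κ' ^ 2 = 1 →
      ∀ (q qd e : ℝ → V (2 * m) → V (2 * m) → En m) (c : ℝ), Para C g B F q qd e c κ r₀ →
      ∀ s, 0 < s → s ≤ 1 →
        RL.hs (Sop (Rop (C.Eps g κ') (C.Gr g B)) s * Pip (C.Eps g κ') * g.ind F) ≠ (⊤ : ℝ≥0∞) ∧
        RL.hs (Sop (Rop (C.Eps g κ') (C.Gr g B)) s * Pim (C.Eps g κ') * g.ind F) ≠ (⊤ : ℝ≥0∞) ∧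
        |(RL.hs (Sop (Rop (C.Eps g κ') (C.Gr g B)) s * Pip (C.Eps g κ') * g.ind F)).toReal
          - (RL.hs (Sop (Rop (C.Eps g κ') (C.Gr g B)) s * Pim (C.Eps g κ') * g.ind F)).toReal
          - κ' * strq C g F q s| ≤ a * c ^ 2 * √s := by
  obtain ⟨a, ha, h⟩ := e7_aux g κ r₀ hκ hF hFb
  refine ⟨a + a, by positivity, ?_⟩
  intro C B hB κ' hκ' q qd e c hP s hs hs1
  have hκn : (-κ') ^ 2 = 1 := by rw [neg_sq, hκ']
  have hp : Pip (C.Eps g κ') = g.mulE fun _ => (1 / 2 : ℂ) • ((1 : En m) + (κ' : ℂ) • C.eps) :=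
    (C.pj_eq g κ').symm
  have hn : Pim (C.Eps g κ')
      = g.mulE fun _ => (1 / 2 : ℂ) • ((1 : En m) + ((-κ' : ℝ) : ℂ) • C.eps) := by
    have h1 := C.pj_eq g (-κ')
    have h2 : C.Eps g (-κ') = -C.Eps g κ' := by
      unfold Cliff.Eps
      have h3 := g.mulE_smul (BddM.const (m := m) ((κ' : ℂ) • C.eps)) (-1)
      have h4 : (fun _ : V (2 * m) => (-1 : ℂ) • ((κ' : ℂ) • C.eps))
          = fun _ => ((-κ' : ℝ) : ℂ) • C.eps := by
        funext _
        rw [smul_smul]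
        congr 1
        push_cast
        ring
      rw [h4] at h3
      rw [h3, neg_one_smul]
    rw [h2] at h1
    unfold Pim
    rw [sub_eq_add_neg]
    exact h1.symm
  obtain ⟨p1, p2, p3⟩ := h C B hB κ' hκ' q qd e c hP s hs hs1 _ (e7_Pi_norm C hκ')
  obtain ⟨n1, n2, n3⟩ := h C B hB κ' hκ' q qd e c hP s hs hs1 _ (e7_Pi_norm C hκn)
  rw [hp, hn]
  refine ⟨p1, n1, ?_⟩
  have hstr : ∫ z in F, ∑ j, ∫ y, ‖q s z y (((1 / 2 : ℂ) • ((1 : En m) + (κ' : ℂ) • C.eps))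
        (sb j))‖ ^ 2 ∂g.vol ∂g.vol
      - ∫ z in F, ∑ j, ∫ y, ‖q s z y (((1 / 2 : ℂ) • ((1 : En m) + ((-κ' : ℝ) : ℂ) • C.eps))
        (sb j))‖ ^ 2 ∂g.vol ∂g.vol = κ' * strq C g F q s := by
    rw [← integral_sub p3 n3]
    unfold strq
    rw [← integral_const_mul]
    refine setIntegral_congr_fun hF fun z hz => ?_
    have hint : ∀ u : Sp m, Integrable (fun y => ‖q s z y u‖ ^ 2) g.vol := fun u =>
      (g.memLp_tf (hP.tf s hs z hz u)).integrable_norm_pow (by norm_num)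
    show _ - _ = κ' * ∫ y, (tr (C.eps * (adj (q s z y) * q s z y))).re ∂g.vol
    rw [← integral_const_mul, ← integral_finsetSum _ fun j _ => hint _,
      ← integral_finsetSum _ fun j _ => hint _, ← integral_sub
      (integrable_finsetSum _ fun j _ => hint _) (integrable_finsetSum _ fun j _ => hint _)]
    refine integral_congr_ae (Eventually.of_forall fun y => ?_)
    show _ = κ' * (tr (C.eps * (adj (q s z y) * q s z y))).re
    rw [← sum_pm C hκ' (q s z y)]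
    have e1 : ∀ j : Fin (2 ^ m), ((1 / 2 : ℂ) • ((1 : En m) + (κ' : ℂ) • C.eps)) (sb j)
        = (1 / 2 : ℂ) • (sb j + (κ' : ℂ) • C.eps (sb j)) := fun j => rfl
    have e2 : ∀ j : Fin (2 ^ m), ((1 / 2 : ℂ) • ((1 : En m) + ((-κ' : ℝ) : ℂ) • C.eps)) (sb j)
        = (1 / 2 : ℂ) • (sb j - (κ' : ℂ) • C.eps (sb j)) := fun j => by
      show (1 / 2 : ℂ) • (sb j + ((-κ' : ℝ) : ℂ) • C.eps (sb j)) = _
      rw [Complex.ofReal_neg, neg_smul, ← sub_eq_add_neg]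
    simp only [e1, e2]
  rw [← hstr]
  have h5 := abs_sub_le_iff.1 p2
  have h6 := abs_sub_le_iff.1 n2
  rw [abs_sub_le_iff]
  constructor <;> nlinarith [h5.1, h5.2, h6.1, h6.2]

end Pool.Agent.Lib.MP_df705a_gt.RL
end
end
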