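import Mathlib
import Pool.Agent.Lib.MP_df705a_gt.Mg.G030

section

/-!
# SV, block A: definitions
-/

open scoped ContDiff InnerProductSpace Matrix ENNReal NNReal Topology
open MeasureTheory Filter Set

noncomputable section

namespace Pool.Agent.Lib.MP_df705a_gt.SV

open Pool.Agent.Lib.MP_df705a_gt.RL

variable {m : ℕ}

/-- The trace as a continuous linear map. -/
def trC (m : ℕ) : En m →L[ℂ] ℂ :=
  LinearMap.toContinuousLinearMap ((LinearMap.trace ℂ (Sp m)).comp
    (ContinuousLinearMap.coeLM ℂ))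

theorem trC_apply (A : En m) : trC m A = tr A := rfl

/-- The kernel restricted to the ball of radius `R`. -/
def rb (R : ℝ) (k : V (2 * m) → V (2 * m) → En m) (x y : V (2 * m)) : En m :=
  if ‖x‖ ≤ R ∧ ‖y‖ ≤ R then k x y else 0

end Pool.Agent.Lib.MP_df705a_gt.SV
end
end

section

/-!
# SV, Defs: kernels with values in an algebra, loops, the functional `TT`
-/

open scoped ENNReal NNReal Topology
open MeasureTheory Filter Set

noncomputable section

namespace Pool.Agent.Lib.MP_df705a_gt.SV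

variable {X G : Type*} [MeasurableSpace X] {A : Type*} [NormedRing A] [NormedAlgebra ℂ A]

/-- Almost everywhere equal kernels. -/
def KEq (μ : Measure X) (a b : X → X → A) : Prop := ∀ᵐ q ∂μ.prod μ, a q.1 q.2 = b q.1 q.2

/-- The product of the kernels along the loop `x_0, x_1, …, x_n, x_0`. -/
def loop {n : ℕ} (a : Fin (n + 1) → X → X → A) (x : Fin (n + 1) → X) : A :=
  (List.ofFn fun i => a i (x i) (x (i + 1))).prod

/-- `∫_{x_0 ∈ F} φ(x_0, …, x_n) τ(a_0(x_0, x_1) a_1(x_1, x_2) … a_n(x_n, x_0))`. -/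
def TT (μ : Measure X) (τ : A →L[ℂ] ℂ) (F : Set X) {n : ℕ} (φ : (Fin (n + 1) → X) → ℝ)
    (a : Fin (n + 1) → X → X → A) : ℂ :=
  ∫ x in {x : Fin (n + 1) → X | x 0 ∈ F}, (φ x : ℂ) * τ (loop a x) ∂Measure.pi fun _ => μ

/-- A measure preserving action of `G` with a fundamental set `F` of finite measure. -/
structure IsSys [Group G] (μ : Measure X) (act : G → X → X) (F : Set X) : Prop where
  one : ∀ y, act 1 y = y
  mul : ∀ γ δ y, act (γ * δ) y = act γ (act δ y)
  mp : ∀ γ, MeasurePreserving (act γ) μ μ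
  meas : MeasurableSet F
  fin : μ F < ∞
  tile : ∀ y, ∃! γ, act γ y ∈ F

/-- Invertible functions commuting with `ε`. -/
structure IsLift (U U' : G → X → A) (ε : A) : Prop where
  mul : ∀ γ x, U γ x * U' γ x = 1
  mul' : ∀ γ x, U' γ x * U γ x = 1
  comm : ∀ γ x, U γ x * ε = ε * U γ x

/-- The kernel `k` is equivariant: `k(γx, γy) = U_γ(x) k(x, y) U_γ(y)⁻¹` for almost all `x, y`. -/
def Eqv (μ : Measure X) (act : G → X → X) (U U' : G → X → A) (k : X → X → A) : Prop :=
  ∀ γ, ∀ᵐ q ∂μ.prod μ, k (act γ q.1) (act γ q.2) = U γ q.1 * k q.1 q.2 * U' γ q.2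

/-- The properties of the cocycle `φ`. -/
structure IsPhi {n : ℕ} (act : G → X → X) (w : X → X → ℝ) (φ : (Fin (n + 1) → X) → ℝ) : Prop where
  meas : Measurable φ
  inv : ∀ γ x, φ (fun i => act γ (x i)) = φ x
  rot : ∀ x, φ (fun i => x (i + 1)) = φ x
  coc : ∀ x : Fin (n + 2) → X,
    ∑ i : Fin (n + 2), (-1 : ℝ) ^ (i : ℕ) * φ (fun j => x (i.succAbove j)) = 0
  bdd : ∃ C : ℝ, 0 ≤ C ∧ ∀ x, |φ x| ≤ C * ∏ i, w (x i) (x (i + 1))

end Pool.Agent.Lib.MP_df705a_gt.SV
end
end

section

/-!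
# SV, block K: the cyclic Hölder inequality
-/

open MeasureTheory
open scoped ENNReal

set_option autoImplicit false

namespace Pool.Agent.Lib.MP_df705a_gt.SV

variable {X : Type*} [MeasurableSpace X] {μ : Measure X} [SigmaFinite μ]

/-- integrating one variable first -/
theorem lint_peel {n : ℕ} (i : Fin (n + 1)) {f : (Fin (n + 1) → X) → ℝ≥0∞} (hf : Measurable f) :
    ∫⁻ x, f x ∂(Measure.pi fun _ => μ) =
      ∫⁻ y : Fin n → X, ∫⁻ t, f (i.insertNth t y) ∂μ ∂(Measure.pi fun _ => μ) := by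
  have h1 := (measurePreserving_piFinSuccAbove (fun _ : Fin (n + 1) => μ) i).symm
  have h2 := h1.lintegral_comp hf
  rw [← h2]
  have h3 : Measurable fun a => f ((MeasurableEquiv.piFinSuccAbove (fun _ : Fin (n + 1) => X) i).symm a) :=
    hf.comp (MeasurableEquiv.measurable _)
  exact lintegral_prod_symm _ h3.aemeasurable

theorem meas_insertNth {n : ℕ} (i : Fin (n + 1)) :
    Measurable fun t : X × (Fin n → X) => (i.insertNth t.1 t.2 : Fin (n + 1) → X) :=
  (MeasurableEquiv.piFinSuccAbove (fun _ : Fin (n + 1) => X) i).symm.measurable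

theorem meas_pair {ι : Type*} {K : X → X → ℝ≥0∞} (hK : Measurable (Function.uncurry K)) (i j : ι) :
    Measurable fun x : ι → X => K (x i) (x j) := by
  have h : Measurable fun x : ι → X => (x i, x j) :=
    (measurable_pi_apply i).prodMk (measurable_pi_apply j)
  exact hK.comp h

/-- relabelling the variables -/
theorem lint_perm {ι : Type*} [Fintype ι] (σ : ι ≃ ι) {f : (ι → X) → ℝ≥0∞}
    (hf : Measurable f) : ∫⁻ x, f (fun i => x (σ i)) ∂(Measure.pi fun _ => μ) =
      ∫⁻ x, f x ∂(Measure.pi fun _ => μ) := by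
  have h1 := (measurePreserving_piCongrLeft (fun _ : ι => μ) σ).symm
  rw [← h1.lintegral_comp hf]
  rfl

/-- integration over a path: the vertices `x_0, …, x_n`, one of them carries `g` -/
theorem path_bound : ∀ (n : ℕ) (L : Fin n → X → X → ℝ≥0∞) (c : Fin n → ℝ≥0∞) (r : Fin (n + 1))
    (g : X → ℝ≥0∞), (∀ j, Measurable (Function.uncurry (L j))) → Measurable g →
    (∀ j, ∀ᵐ x ∂μ, ∫⁻ y, L j x y ∂μ ≤ c j) → (∀ j, ∀ᵐ y ∂μ, ∫⁻ x, L j x y ∂μ ≤ c j) →
    ∫⁻ x : Fin (n + 1) → X, g (x r) * ∏ j : Fin n, L j (x j.castSucc) (x j.succ)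
      ∂(Measure.pi fun _ => μ) ≤ (∫⁻ y, g y ∂μ) * ∏ j, c j := by
  intro n
  induction n with
  | zero =>
    intro L c r g _ hg _ _
    have hr : r = 0 := Fin.ext (by omega)
    subst hr
    simp only [Finset.univ_eq_empty, Finset.prod_empty, mul_one]
    have hm : Measurable fun x : Fin 1 → X => g (x 0) := hg.comp (measurable_pi_apply 0)
    rw [lint_peel 0 hm]
    simp
  | succ n ih =>
    intro L c r g hL hg hrow hcol
    have hmeas : Measurable fun x : Fin (n + 2) → X =>
        g (x r) * ∏ j : Fin (n + 1), L j (x j.castSucc) (x j.succ) := by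
      refine (hg.comp (measurable_pi_apply r)).mul (Finset.measurable_fun_prod _ fun j _ => ?_)
      exact meas_pair (hL j) _ _
    by_cases hr : r = Fin.last (n + 1)
    · -- integrate the first variable
      subst hr
      rw [lint_peel 0 hmeas]
      have h1 : ∀ᵐ y : Fin (n + 1) → X ∂(Measure.pi fun _ => μ), ∫⁻ t, L 0 t (y 0) ∂μ ≤ c 0 :=
        (Measure.quasiMeasurePreserving_eval (fun _ : Fin (n + 1) => μ) 0).ae (hcol 0)
      have h2 : ∀ᵐ y : Fin (n + 1) → X ∂(Measure.pi fun _ => μ),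
          ∫⁻ t, (g ((Fin.insertNth (α := fun _ => X) 0 t y) (Fin.last (n + 1))) *
            ∏ j : Fin (n + 1), L j ((Fin.insertNth (α := fun _ => X) 0 t y) j.castSucc)
              ((Fin.insertNth (α := fun _ => X) 0 t y) j.succ)) ∂μ ≤
          c 0 * (g (y (Fin.last n)) * ∏ j : Fin n, L j.succ (y j.castSucc) (y j.succ)) := by
        filter_upwards [h1] with y hy
        have h3 : ∀ t, g ((Fin.insertNth (α := fun _ => X) 0 t y) (Fin.last (n + 1))) *
            ∏ j : Fin (n + 1), L j ((Fin.insertNth (α := fun _ => X) 0 t y) j.castSucc)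
              ((Fin.insertNth (α := fun _ => X) 0 t y) j.succ) =
            L 0 t (y 0) * (g (y (Fin.last n)) * ∏ j : Fin n, L j.succ (y j.castSucc) (y j.succ)) := by
          intro t
          rw [Fin.insertNth_zero']
          have e1 : (Fin.cons t y : Fin (n + 2) → X) (Fin.last (n + 1)) = y (Fin.last n) := by
            rw [← Fin.succ_last, Fin.cons_succ]
          rw [e1, Fin.prod_univ_succ]
          have e2 : (Fin.cons t y : Fin (n + 2) → X) (Fin.castSucc 0) = t := rfl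
          have e3 : (Fin.cons t y : Fin (n + 2) → X) (Fin.succ 0) = y 0 := rfl
          rw [e2, e3]
          have e4 : ∀ j : Fin n, L j.succ ((Fin.cons t y : Fin (n + 2) → X) j.succ.castSucc)
              ((Fin.cons t y : Fin (n + 2) → X) j.succ.succ) = L j.succ (y j.castSucc) (y j.succ) := by
            intro j
            rfl
          rw [Finset.prod_congr rfl fun j _ => e4 j]
          ring
        rw [lintegral_congr h3, lintegral_mul_const]
        · gcongr
        · exact (hL 0).comp (measurable_id.prodMk measurable_const)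
      refine (lintegral_mono_ae h2).trans ?_
      rw [lintegral_const_mul, Fin.prod_univ_succ]
      · calc c 0 * ∫⁻ y : Fin (n + 1) → X, g (y (Fin.last n)) *
              ∏ j : Fin n, L j.succ (y j.castSucc) (y j.succ) ∂(Measure.pi fun _ => μ)
            ≤ c 0 * ((∫⁻ y, g y ∂μ) * ∏ j : Fin n, c j.succ) := by
              gcongr
              exact ih (fun j => L j.succ) (fun j => c j.succ) (Fin.last n) g (fun j => hL _) hg
                (fun j => hrow _) (fun j => hcol _)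
          _ = _ := by ring
      · refine (hg.comp (measurable_pi_apply _)).mul (Finset.measurable_fun_prod _ fun j _ => ?_)
        exact meas_pair (hL j.succ) _ _
    · -- integrate the last variable
      obtain ⟨r', rfl⟩ : ∃ r' : Fin (n + 1), r = r'.castSucc := Fin.exists_castSucc_eq.mpr hr |>.imp fun _ h => h.symm
      rw [lint_peel (Fin.last (n + 1)) hmeas]
      have h1 : ∀ᵐ y : Fin (n + 1) → X ∂(Measure.pi fun _ => μ),
          ∫⁻ t, L (Fin.last n) (y (Fin.last n)) t ∂μ ≤ c (Fin.last n) :=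
        (Measure.quasiMeasurePreserving_eval (fun _ : Fin (n + 1) => μ) (Fin.last n)).ae
          (hrow (Fin.last n))
      have h2 : ∀ᵐ y : Fin (n + 1) → X ∂(Measure.pi fun _ => μ),
          ∫⁻ t, (g ((Fin.insertNth (α := fun _ => X) (Fin.last (n + 1)) t y) r'.castSucc) *
            ∏ j : Fin (n + 1), L j ((Fin.insertNth (α := fun _ => X) (Fin.last (n + 1)) t y) j.castSucc)
              ((Fin.insertNth (α := fun _ => X) (Fin.last (n + 1)) t y) j.succ)) ∂μ ≤
          c (Fin.last n) * (g (y r') * ∏ j : Fin n, L j.castSucc (y j.castSucc) (y j.succ)) := by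
        filter_upwards [h1] with y hy
        have h3 : ∀ t, g ((Fin.insertNth (α := fun _ => X) (Fin.last (n + 1)) t y) r'.castSucc) *
            ∏ j : Fin (n + 1), L j ((Fin.insertNth (α := fun _ => X) (Fin.last (n + 1)) t y) j.castSucc)
              ((Fin.insertNth (α := fun _ => X) (Fin.last (n + 1)) t y) j.succ) =
            L (Fin.last n) (y (Fin.last n)) t *
              (g (y r') * ∏ j : Fin n, L j.castSucc (y j.castSucc) (y j.succ)) := by
          intro t
          rw [Fin.insertNth_last', Fin.prod_univ_castSucc]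
          simp only [Fin.snoc_castSucc, Fin.succ_last, Fin.snoc_last]
          have e4 : ∀ j : Fin n, L j.castSucc (y j.castSucc)
              ((Fin.snoc y t : Fin (n + 2) → X) j.castSucc.succ) = L j.castSucc (y j.castSucc) (y j.succ) := by
            intro j
            rw [← Fin.castSucc_succ, Fin.snoc_castSucc]
          rw [Finset.prod_congr rfl fun j _ => e4 j]
          ring
        rw [lintegral_congr h3, lintegral_mul_const]
        · gcongr
        · exact (hL _).comp (measurable_const.prodMk measurable_id)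
      refine (lintegral_mono_ae h2).trans ?_
      rw [lintegral_const_mul, Fin.prod_univ_castSucc]
      · calc c (Fin.last n) * ∫⁻ y : Fin (n + 1) → X, g (y r') *
              ∏ j : Fin n, L j.castSucc (y j.castSucc) (y j.succ) ∂(Measure.pi fun _ => μ)
            ≤ c (Fin.last n) * ((∫⁻ y, g y ∂μ) * ∏ j : Fin n, c j.castSucc) := by
              gcongr
              exact ih (fun j => L j.castSucc) (fun j => c j.castSucc) r' g (fun j => hL _) hg
                (fun j => hrow _) (fun j => hcol _)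
          _ = _ := by ring
      · refine (hg.comp (measurable_pi_apply _)).mul (Finset.measurable_fun_prod _ fun j _ => ?_)
        exact meas_pair (hL j.castSucc) _ _

theorem prod_erase_rot {M : Type*} [CommMonoid M] {n : ℕ} (i : Fin (n + 1)) (F : Fin (n + 1) → M) :
    ∏ k ∈ Finset.univ.erase i, F k = ∏ j : Fin n, F (j.castSucc + (i + 1)) := by
  classical
  have h1 : ∏ k ∈ Finset.univ.erase i, F k = ∏ k, (if k = i then 1 else F k) := by
    rw [← Finset.mul_prod_erase Finset.univ (fun k => if k = i then 1 else F k) (Finset.mem_univ i)]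
    rw [if_pos rfl, one_mul]
    refine Finset.prod_congr rfl fun k hk => ?_
    rw [if_neg (Finset.ne_of_mem_erase hk)]
  have h0 : Fin.last n + (i + 1) = i := by
    rw [add_comm i 1, ← add_assoc, Fin.last_add_one, zero_add]
  rw [h1, ← Equiv.prod_comp (Equiv.addRight (i + 1)), Fin.prod_univ_castSucc]
  have h4 : (if (Equiv.addRight (i + 1)) (Fin.last n) = i then (1 : M)
      else F ((Equiv.addRight (i + 1)) (Fin.last n))) = 1 := if_pos h0
  rw [h4, mul_one]
  refine Finset.prod_congr rfl fun j _ => ?_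
  refine (if_neg ?_).trans rfl
  intro h
  have h2 : j.castSucc + (i + 1) = Fin.last n + (i + 1) := h.trans h0.symm
  have h3 := add_right_cancel h2
  exact (Fin.castSucc_lt_last j).ne h3

theorem rpow_sum' {ι : Type*} (s : Finset ι) (a : ℝ≥0∞) (f : ι → ℝ) (hf : ∀ i ∈ s, 0 ≤ f i) :
    a ^ (∑ i ∈ s, f i) = ∏ i ∈ s, a ^ f i := by
  classical
  induction s using Finset.induction_on with
  | empty => rw [Finset.sum_empty, Finset.prod_empty, ENNReal.rpow_zero]
  | insert i s hi ih =>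
    rw [Finset.sum_insert hi, Finset.prod_insert hi, ENNReal.rpow_add_of_nonneg _ _
      (hf i (Finset.mem_insert_self i s))
      (Finset.sum_nonneg fun j hj => hf j (Finset.mem_insert_of_mem hj)),
      ih fun j hj => hf j (Finset.mem_insert_of_mem hj)]

/-- integration over a cycle with one edge removed -/
theorem cut_bound {n : ℕ} (L : Fin (n + 1) → X → X → ℝ≥0∞) (c : Fin (n + 1) → ℝ≥0∞)
    (i r : Fin (n + 1)) (g : X → ℝ≥0∞) (hL : ∀ j, Measurable (Function.uncurry (L j)))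
    (hg : Measurable g) (hrow : ∀ j, ∀ᵐ x ∂μ, ∫⁻ y, L j x y ∂μ ≤ c j)
    (hcol : ∀ j, ∀ᵐ y ∂μ, ∫⁻ x, L j x y ∂μ ≤ c j) :
    ∫⁻ x : Fin (n + 1) → X, g (x r) * ∏ j ∈ Finset.univ.erase i, L j (x j) (x (j + 1))
      ∂(Measure.pi fun _ => μ) ≤ (∫⁻ y, g y ∂μ) * ∏ j ∈ Finset.univ.erase i, c j := by
  have h1 := path_bound (μ := μ) n (fun j => L (j.castSucc + (i + 1)))
    (fun j => c (j.castSucc + (i + 1))) (r - (i + 1)) g (fun j => hL _) hg (fun j => hrow _)
    (fun j => hcol _)
  rw [prod_erase_rot i c]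
  refine le_trans (le_of_eq ?_) h1
  have hm : Measurable fun x : Fin (n + 1) → X => g (x (r - (i + 1))) *
      ∏ j : Fin n, L (j.castSucc + (i + 1)) (x j.castSucc) (x j.succ) := by
    refine (hg.comp (measurable_pi_apply _)).mul (Finset.measurable_fun_prod _ fun j _ => ?_)
    exact meas_pair (hL _) _ _
  rw [← lint_perm (Equiv.addRight (i + 1)) hm]
  refine lintegral_congr fun x => ?_
  simp only [Equiv.coe_addRight, sub_add_cancel]
  rw [prod_erase_rot i (fun j => L j (x j) (x (j + 1)))]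
  congr 1
  refine Finset.prod_congr rfl fun j _ => ?_
  rw [← Fin.coeSucc_eq_succ]
  congr 2
  exact add_right_comm _ _ _

/-- **The cyclic Hölder inequality.** -/
theorem cyc_holder {n : ℕ} (K : Fin (n + 1) → X → X → ℝ≥0∞) (q : Fin (n + 1) → ℝ)
    (C : Fin (n + 1) → ℝ≥0∞) (hK : ∀ j, Measurable (Function.uncurry (K j)))
    (hq : ∀ j, 1 ≤ q j) (hs : ∑ j, (1 - 1 / q j) = 1)
    (hrow : ∀ j, ∀ᵐ x ∂μ, ∫⁻ y, K j x y ^ q j ∂μ ≤ C j ^ q j)
    (hcol : ∀ j, ∀ᵐ y ∂μ, ∫⁻ x, K j x y ^ q j ∂μ ≤ C j ^ q j) (r : Fin (n + 1))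
    (g : X → ℝ≥0∞) (hg : Measurable g) :
    ∫⁻ x : Fin (n + 1) → X, g (x r) * ∏ j, K j (x j) (x (j + 1)) ∂(Measure.pi fun _ => μ) ≤
      (∫⁻ y, g y ∂μ) * ∏ j, C j := by
  classical
  have hθ : ∀ j, 0 ≤ 1 - 1 / q j := fun j => by
    have := hq j
    rw [sub_nonneg, div_le_one (by linarith)]
    exact this
  -- algebra
  have key : ∀ (a : ℝ≥0∞) (b : Fin (n + 1) → ℝ≥0∞),
      ∏ i, (a * ∏ j ∈ Finset.univ.erase i, b j ^ q j) ^ (1 - 1 / q i) = a * ∏ j, b j := by
    intro a b
    have h1 : ∀ i, (a * ∏ j ∈ Finset.univ.erase i, b j ^ q j) ^ (1 - 1 / q i) =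
        a ^ (1 - 1 / q i) * ∏ j ∈ Finset.univ.erase i, b j ^ (q j * (1 - 1 / q i)) := by
      intro i
      rw [ENNReal.mul_rpow_of_nonneg _ _ (hθ i), ← ENNReal.prod_rpow_of_nonneg (hθ i)]
      congr 1
      refine Finset.prod_congr rfl fun j _ => ?_
      rw [← ENNReal.rpow_mul]
    rw [Finset.prod_congr rfl fun i _ => h1 i, Finset.prod_mul_distrib]
    have h2 : ∏ i, a ^ (1 - 1 / q i) = a := by
      rw [← rpow_sum' _ _ _ (fun i _ => hθ i), hs, ENNReal.rpow_one]
    have h3 : ∏ i, ∏ j ∈ Finset.univ.erase i, b j ^ (q j * (1 - 1 / q i)) =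
        ∏ j, ∏ i ∈ Finset.univ.erase j, b j ^ (q j * (1 - 1 / q i)) := by
      refine Finset.prod_comm' ?_
      intro i j
      simp only [Finset.mem_univ, Finset.mem_erase, true_and, and_true]
      exact ne_comm
    rw [h2, h3]
    congr 1
    refine Finset.prod_congr rfl fun j _ => ?_
    have q0 : 0 < q j := by linarith [hq j]
    rw [← rpow_sum' _ _ _ (fun i _ => mul_nonneg q0.le (hθ i))]
    have h4 : ∑ i ∈ Finset.univ.erase j, q j * (1 - 1 / q i) = 1 := by
      rw [← Finset.mul_sum]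
      have h5 := Finset.add_sum_erase Finset.univ (fun i => 1 - 1 / q i) (Finset.mem_univ j)
      rw [hs] at h5
      have h6 : ∑ i ∈ Finset.univ.erase j, (1 - 1 / q i) = 1 / q j := by
        linarith
      rw [h6]
      field_simp
    rw [h4, ENNReal.rpow_one]
  calc ∫⁻ x : Fin (n + 1) → X, g (x r) * ∏ j, K j (x j) (x (j + 1)) ∂(Measure.pi fun _ => μ)
      = ∫⁻ x : Fin (n + 1) → X, ∏ i, (g (x r) *
          ∏ j ∈ Finset.univ.erase i, K j (x j) (x (j + 1)) ^ q j) ^ (1 - 1 / q i)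
          ∂(Measure.pi fun _ => μ) := by
        refine lintegral_congr fun x => ?_
        exact (key (g (x r)) (fun j => K j (x j) (x (j + 1)))).symm
    _ ≤ ∏ i, (∫⁻ x : Fin (n + 1) → X, g (x r) *
          ∏ j ∈ Finset.univ.erase i, K j (x j) (x (j + 1)) ^ q j ∂(Measure.pi fun _ => μ)) ^
            (1 - 1 / q i) := by
        refine ENNReal.lintegral_prod_norm_pow_le _ (fun i _ => ?_) hs (fun i _ => hθ i)
        refine ((hg.comp (measurable_pi_apply _)).mul
          (Finset.measurable_fun_prod _ fun j _ => ?_)).aemeasurable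
        exact (meas_pair (hK j) _ _).pow_const _
    _ ≤ ∏ i, ((∫⁻ y, g y ∂μ) * ∏ j ∈ Finset.univ.erase i, C j ^ q j) ^ (1 - 1 / q i) := by
        refine Finset.prod_le_prod' fun i _ => ENNReal.rpow_le_rpow ?_ (hθ i)
        exact cut_bound (fun j x y => K j x y ^ q j) (fun j => C j ^ q j) i r g
          (fun j => (hK j).pow_const _) hg hrow hcol
    _ = _ := key _ _

end Pool.Agent.Lib.MP_df705a_gt.SV
end

section

/-!
# SV, block K: definitions

`X` is a measurable space with a measure `μ`, `w` a weight, kernels are functions `a : X → X → E`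
with values in a normed algebra.
-/

open MeasureTheory
open scoped ENNReal NNReal

set_option autoImplicit false

noncomputable section

namespace Pool.Agent.Lib.MP_df705a_gt.SV

variable {X : Type*} [MeasurableSpace X] {E : Type*} [NormedRing E] [NormedAlgebra ℝ E]

/-- The weighted norm `w(x,y) |a(x,y)|` of a kernel. -/
def nk (w : X → X → ℝ) (a : X → X → E) (x y : X) : ℝ≥0∞ := ENNReal.ofReal (w x y) * ‖a x y‖ₑ

/-- Row and column bounds in `L^p`. -/
def NB (μ : Measure X) (p : ℝ) (K : X → X → ℝ≥0∞) (C : ℝ≥0) : Prop :=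
  (∀ᵐ x ∂μ, ∫⁻ y, K x y ^ p ∂μ ≤ (C : ℝ≥0∞) ^ p) ∧ (∀ᵐ y ∂μ, ∫⁻ x, K x y ^ p ∂μ ≤ (C : ℝ≥0∞) ^ p)

/-- Submultiplicative weights. -/
structure Wt (w : X → X → ℝ) : Prop where
  meas : Measurable (Function.uncurry w)
  one : ∀ x y, 1 ≤ w x y
  sub : ∀ x y z, w x z ≤ w x y * w y z

/-- The class of kernels with bounds in (weighted) `L^1` and `L^p`, rows and columns. -/
structure KB (μ : Measure X) (w : X → X → ℝ) (p : ℝ) (a : X → X → E) (C₁ Cp : ℝ≥0) : Prop where
  meas : StronglyMeasurable (Function.uncurry a)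
  n1 : NB μ 1 (nk w a) C₁
  np : NB μ p (nk w a) Cp

/-- The composition of kernels `(a ∘ b)(x,y) = ∫ a(x,z) b(z,y) dz`. -/
def comp (μ : Measure X) (a b : X → X → E) (x y : X) : E := ∫ z, a x z * b z y ∂μ

/-- The composition of nonnegative kernels. -/
def kc (μ : Measure X) (K L : X → X → ℝ≥0∞) (x z : X) : ℝ≥0∞ := ∫⁻ y, K x y * L y z ∂μ

end Pool.Agent.Lib.MP_df705a_gt.SV
end
end

section

/-!
# SV, block K: Young's inequality for kernels with values in `ℝ≥0∞`
-/

open MeasureTheory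
open scoped ENNReal

set_option autoImplicit false

namespace Pool.Agent.Lib.MP_df705a_gt.SV

variable {X : Type*} [MeasurableSpace X]

theorem kc_meas {μ : Measure X} [SFinite μ] {K L : X → X → ℝ≥0∞} (hK : Measurable (Function.uncurry K))
    (hL : Measurable (Function.uncurry L)) : Measurable (Function.uncurry (kc μ K L)) := by
  have h : Measurable fun t : (X × X) × X => K t.1.1 t.2 * L t.2 t.1.2 := by
    apply Measurable.mul
    · exact hK.comp ((measurable_fst.comp measurable_fst).prodMk measurable_snd)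
    · exact hL.comp (measurable_snd.prodMk (measurable_snd.comp measurable_fst))
  exact h.lintegral_prod_right'

/-- three function Hölder inequality with exponents `a + b + c = 1` -/
theorem holder3 {μ : Measure X} {f g h : X → ℝ≥0∞} (hf : AEMeasurable f μ) (hg : AEMeasurable g μ)
    (hh : AEMeasurable h μ) {a b c : ℝ} (ha : 0 ≤ a) (hb : 0 ≤ b) (hc : 0 ≤ c) (habc : a + b + c = 1) :
    ∫⁻ y, f y ^ a * g y ^ b * h y ^ c ∂μ ≤
      (∫⁻ y, f y ∂μ) ^ a * (∫⁻ y, g y ∂μ) ^ b * (∫⁻ y, h y ∂μ) ^ c := by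
  have h1 := ENNReal.lintegral_prod_norm_pow_le (μ := μ) (Finset.univ : Finset (Fin 3))
    (f := ![f, g, h]) (p := ![a, b, c])
    (by
      intro i _
      fin_cases i
      · exact hf
      · exact hg
      · exact hh)
    (by
      rw [Fin.sum_univ_three]
      exact habc)
    (by
      intro i _
      fin_cases i
      · exact ha
      · exact hb
      · exact hc)
  simp only [Fin.prod_univ_three] at h1
  exact h1

/-- **Young's inequality for kernels.** -/
theorem young {μ : Measure X} [SFinite μ] {K L : X → X → ℝ≥0∞} (hK : Measurable (Function.uncurry K))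
    (hL : Measurable (Function.uncurry L)) {p q r : ℝ} (hp : 1 ≤ p) (hq : 1 ≤ q) (hr : 1 ≤ r)
    (hpq : 1 / p + 1 / q = 1 + 1 / r) {A B : ℝ≥0∞}
    (hK1 : ∀ᵐ x ∂μ, ∫⁻ y, K x y ^ p ∂μ ≤ A ^ p)
    (hL1 : ∀ᵐ y ∂μ, ∫⁻ z, L y z ^ q ∂μ ≤ B ^ q)
    (hL2 : ∀ᵐ z ∂μ, ∫⁻ y, L y z ^ q ∂μ ≤ B ^ q) :
    ∀ᵐ x ∂μ, ∫⁻ z, kc μ K L x z ^ r ∂μ ≤ (A * B) ^ r := by
  have p0 : 0 < p := by linarith
  have q0 : 0 < q := by linarith
  have r0 : 0 < r := by linarith
  have hp1 : 1 / p ≤ 1 := by rw [div_le_one p0]; exact hp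
  have hq1 : 1 / q ≤ 1 := by rw [div_le_one q0]; exact hq
  have hpr : 1 / r ≤ 1 / p := by linarith
  have hqr : 1 / r ≤ 1 / q := by linarith
  have ha : 0 ≤ 1 / r := by positivity
  have hb : 0 ≤ 1 / p - 1 / r := by linarith
  have hc : 0 ≤ 1 / q - 1 / r := by linarith
  have e1 : 1 / r + (1 / p - 1 / r) + (1 / q - 1 / r) = 1 := by linarith
  have ep : p * (1 / p - 1 / r) = 1 - p / r := by
    field_simp
  have eq : q * (1 / q - 1 / r) = 1 - q / r := by
    field_simp
  have hpr' : p ≤ r := by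
    rw [div_le_div_iff₀ r0 p0] at hpr
    linarith
  have hqr' : q ≤ r := by
    rw [div_le_div_iff₀ r0 q0] at hqr
    linarith
  have hKy : ∀ x, Measurable fun y => K x y := fun x => hK.comp (measurable_const.prodMk measurable_id)
  have hLy : ∀ z, Measurable fun y => L y z := fun z => hL.comp (measurable_id.prodMk measurable_const)
  filter_upwards [hK1] with x hx
  -- the pointwise bound
  have h1 : ∀ᵐ z ∂μ, kc μ K L x z ^ r ≤
      (∫⁻ y, K x y ^ p * L y z ^ q ∂μ) * A ^ (r - p) * B ^ (r - q) := by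
    filter_upwards [hL2] with z hz
    have h2 : kc μ K L x z ≤ (∫⁻ y, K x y ^ p * L y z ^ q ∂μ) ^ (1 / r) *
        (∫⁻ y, K x y ^ p ∂μ) ^ (1 / p - 1 / r) * (∫⁻ y, L y z ^ q ∂μ) ^ (1 / q - 1 / r) := by
      refine le_trans (le_of_eq ?_) (holder3 (μ := μ) (f := fun y => K x y ^ p * L y z ^ q)
        (g := fun y => K x y ^ p) (h := fun y => L y z ^ q)
        (((hKy x).pow_const p).mul ((hLy z).pow_const q)).aemeasurable
        ((hKy x).pow_const p).aemeasurable ((hLy z).pow_const q).aemeasurable ha hb hc e1)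
      refine lintegral_congr fun y => ?_
      rw [ENNReal.mul_rpow_of_nonneg _ _ ha, ← ENNReal.rpow_mul, ← ENNReal.rpow_mul,
        ← ENNReal.rpow_mul, ← ENNReal.rpow_mul, ep, eq]
      have h3 : K x y = K x y ^ (p * (1 / r)) * K x y ^ (1 - p / r) := by
        rw [← ENNReal.rpow_add_of_nonneg _ _ (by positivity)
          (by rw [sub_nonneg, div_le_one r0]; exact hpr')]
        have : p * (1 / r) + (1 - p / r) = 1 := by ring
        rw [this, ENNReal.rpow_one]
      have h4 : L y z = L y z ^ (q * (1 / r)) * L y z ^ (1 - q / r) := by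
        rw [← ENNReal.rpow_add_of_nonneg _ _ (by positivity)
          (by rw [sub_nonneg, div_le_one r0]; exact hqr')]
        have : q * (1 / r) + (1 - q / r) = 1 := by ring
        rw [this, ENNReal.rpow_one]
      calc K x y * L y z = (K x y ^ (p * (1 / r)) * K x y ^ (1 - p / r)) *
            (L y z ^ (q * (1 / r)) * L y z ^ (1 - q / r)) := by rw [← h3, ← h4]
        _ = _ := by ring
    have h5 : (∫⁻ y, K x y ^ p ∂μ) ^ (1 / p - 1 / r) ≤ A ^ (1 - p / r) := by
      refine (ENNReal.rpow_le_rpow hx hb).trans ?_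
      rw [← ENNReal.rpow_mul, ep]
    have h6 : (∫⁻ y, L y z ^ q ∂μ) ^ (1 / q - 1 / r) ≤ B ^ (1 - q / r) := by
      refine (ENNReal.rpow_le_rpow hz hc).trans ?_
      rw [← ENNReal.rpow_mul, eq]
    calc kc μ K L x z ^ r ≤ ((∫⁻ y, K x y ^ p * L y z ^ q ∂μ) ^ (1 / r) *
          A ^ (1 - p / r) * B ^ (1 - q / r)) ^ r := by
          refine ENNReal.rpow_le_rpow (h2.trans ?_) r0.le
          gcongr
      _ = (∫⁻ y, K x y ^ p * L y z ^ q ∂μ) * A ^ (r - p) * B ^ (r - q) := by
          rw [ENNReal.mul_rpow_of_nonneg _ _ r0.le, ENNReal.mul_rpow_of_nonneg _ _ r0.le,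
            ← ENNReal.rpow_mul, ← ENNReal.rpow_mul, ← ENNReal.rpow_mul]
          have i1 : 1 / r * r = 1 := by field_simp
          have i2 : (1 - p / r) * r = r - p := by field_simp
          have i3 : (1 - q / r) * r = r - q := by field_simp
          rw [i1, i2, i3, ENNReal.rpow_one]
  refine (lintegral_mono_ae h1).trans ?_
  have hm : Measurable fun t : X × X => K x t.2 ^ p * L t.2 t.1 ^ q :=
    (((hKy x).comp measurable_snd).pow_const p).mul ((hL.comp measurable_swap).pow_const q)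
  have hm' : Measurable fun z => ∫⁻ y, K x y ^ p * L y z ^ q ∂μ := hm.lintegral_prod_right'
  rw [lintegral_mul_const _ (hm'.mul_const _), lintegral_mul_const _ hm']
  have h7 : ∫⁻ z, ∫⁻ y, K x y ^ p * L y z ^ q ∂μ ∂μ ≤ A ^ p * B ^ q := by
    rw [lintegral_lintegral_swap hm.aemeasurable]
    have h8 : ∀ᵐ y ∂μ, ∫⁻ z, K x y ^ p * L y z ^ q ∂μ ≤ K x y ^ p * B ^ q := by
      filter_upwards [hL1] with y hy
      have hLz : Measurable fun z => L y z := hL.comp (measurable_const.prodMk measurable_id)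
      rw [lintegral_const_mul _ (hLz.pow_const q)]
      gcongr
    refine (lintegral_mono_ae h8).trans ?_
    rw [lintegral_mul_const _ ((hKy x).pow_const p)]
    gcongr
  calc (∫⁻ z, ∫⁻ y, K x y ^ p * L y z ^ q ∂μ ∂μ) * A ^ (r - p) * B ^ (r - q)
      ≤ A ^ p * B ^ q * A ^ (r - p) * B ^ (r - q) := by gcongr
    _ = (A ^ p * A ^ (r - p)) * (B ^ q * B ^ (r - q)) := by ring
    _ = (A * B) ^ r := by
        rw [← ENNReal.rpow_add_of_nonneg _ _ p0.le (sub_nonneg.mpr hpr'),
          ← ENNReal.rpow_add_of_nonneg _ _ q0.le (sub_nonneg.mpr hqr'),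
          ENNReal.mul_rpow_of_nonneg _ _ r0.le]
        congr 2 <;> ring

end Pool.Agent.Lib.MP_df705a_gt.SV
end

section

/-!
# SV, block C, part 1: loops and iterated compositions
-/

open scoped ENNReal NNReal Topology
open MeasureTheory Filter Set

set_option autoImplicit false
set_option linter.unusedSectionVars false

noncomputable section

namespace Pool.Agent.Lib.MP_df705a_gt.SV

/-! ## Loops -/

section Loop

variable {X : Type*} {A : Type*}

theorem C1_loop_last_two [Monoid A] {n : ℕ} (P : Fin n → X → X → A) (a b : X → X → A)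
    (k : Fin (n + 2) → X → X → A) (h1 : ∀ i : Fin n, k i.castSucc.castSucc = P i)
    (h2 : k (Fin.last n).castSucc = a) (h3 : k (Fin.last (n + 1)) = b) (y : Fin (n + 1) → X)
    (z : X) : (List.ofFn fun i => k i ((Fin.snoc y z : Fin (n + 2) → X) i)
      ((Fin.snoc y z : Fin (n + 2) → X) (i + 1))).prod =
      (List.ofFn fun i : Fin n => P i (y i.castSucc) (y (i.castSucc + 1))).prod *
        (a (y (Fin.last n)) z * b z (y 0)) := by
  rw [List.ofFn_succ', List.concat_eq_append, List.prod_append, List.prod_singleton,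
    List.ofFn_succ', List.concat_eq_append, List.prod_append, List.prod_singleton, mul_assoc]
  congr 1
  · congr 2
    funext i
    have h1' : (i.castSucc.castSucc + 1 : Fin (n + 2)) = (i.castSucc + 1 : Fin (n + 1)).castSucc := by
      rw [Fin.coeSucc_eq_succ, Fin.coeSucc_eq_succ]
      rfl
    rw [h1', Fin.snoc_castSucc, Fin.snoc_castSucc, h1]
  · rw [Fin.snoc_castSucc, Fin.coeSucc_eq_succ, Fin.succ_last, Fin.snoc_last, Fin.last_add_one,
      show (0 : Fin (n + 2)) = (0 : Fin (n + 1)).castSucc from rfl, Fin.snoc_castSucc, h2, h3]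

end Loop

section LoopA

variable {X : Type*} {A : Type*} [NormedRing A] [NormedAlgebra ℂ A]

theorem C1_loop_snoc {n : ℕ} (k : Fin (n + 2) → X → X → A) (y : Fin (n + 1) → X) (z : X) :
    loop k (Fin.snoc y z : Fin (n + 2) → X) =
      (List.ofFn fun i : Fin n => k i.castSucc.castSucc (y i.castSucc) (y (i.castSucc + 1))).prod *
        (k (Fin.last n).castSucc (y (Fin.last n)) z * k (Fin.last (n + 1)) z (y 0)) :=
  C1_loop_last_two _ _ _ k (fun _ => rfl) rfl rfl y z

theorem C1_loop_last {n : ℕ} (a : Fin (n + 1) → X → X → A) (y : Fin (n + 1) → X) :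
    loop a y = (List.ofFn fun i : Fin n => a i.castSucc (y i.castSucc) (y (i.castSucc + 1))).prod *
      a (Fin.last n) (y (Fin.last n)) (y 0) := by
  unfold loop
  rw [List.ofFn_succ', List.concat_eq_append, List.prod_append, List.prod_singleton,
    Fin.last_add_one]

theorem C1_loop_first {n : ℕ} (a : Fin (n + 1) → X → X → A) (y : Fin (n + 1) → X) :
    loop a y = a 0 (y 0) (y (0 + 1)) *
      (List.ofFn fun i : Fin n => a i.succ (y i.succ) (y (i.succ + 1))).prod := by
  unfold loop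
  rw [List.ofFn_succ, List.prod_cons]

theorem C1_enorm_loop {n : ℕ} (a : Fin (n + 1) → X → X → A) (x : Fin (n + 1) → X) :
    ‖loop a x‖ₑ ≤ ∏ i, ‖a i (x i) (x (i + 1))‖ₑ := by
  have h1 : ‖loop a x‖₊ ≤ ∏ i, ‖a i (x i) (x (i + 1))‖₊ := by
    unfold loop
    refine (List.nnnorm_prod_le' ?_).trans ?_
    · intro h
      have := congrArg List.length h
      simp at this
    · rw [List.map_ofFn, List.prod_ofFn]
      exact le_rfl
  have h2 : ((‖loop a x‖₊ : ℝ≥0) : ℝ≥0∞) ≤ ((∏ i, ‖a i (x i) (x (i + 1))‖₊ : ℝ≥0) : ℝ≥0∞) := by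
    exact_mod_cast h1
  rw [ENNReal.ofNNReal_finsetProd] at h2
  exact h2

variable [MeasurableSpace X]

theorem C1_meas_eval {ι : Type*} {a : X → X → A} (ha : StronglyMeasurable (Function.uncurry a))
    (i j : ι) : StronglyMeasurable fun x : ι → X => a (x i) (x j) := by
  have h : Measurable fun x : ι → X => (x i, x j) :=
    (measurable_pi_apply i).prodMk (measurable_pi_apply j)
  exact ha.comp_measurable h

theorem C1_meas_list {Y : Type*} [MeasurableSpace Y] : ∀ {n : ℕ} (f : Fin n → Y → A),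
    (∀ i, StronglyMeasurable (f i)) → StronglyMeasurable fun y => (List.ofFn fun i => f i y).prod := by
  intro n
  induction n with
  | zero =>
    intro f _
    simp only [List.ofFn_zero, List.prod_nil]
    exact stronglyMeasurable_const
  | succ n ih =>
    intro f hf
    simp only [List.ofFn_succ, List.prod_cons]
    exact (hf 0).mul (ih (fun i => f i.succ) fun i => hf _)

theorem C1_meas_loop {n : ℕ} {a : Fin (n + 1) → X → X → A}
    (ha : ∀ i, StronglyMeasurable (Function.uncurry (a i))) :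
    StronglyMeasurable fun x : Fin (n + 1) → X => loop a x :=
  C1_meas_list _ fun i => C1_meas_eval (ha i) _ _

theorem C1_pair_ae {μ : Measure X} [SigmaFinite μ] {n : ℕ} {i j : Fin (n + 1)} (hij : i ≠ j)
    {P : X × X → Prop} (h : ∀ᵐ p ∂(μ.prod μ), P p) :
    ∀ᵐ x ∂(Measure.pi fun _ : Fin (n + 1) => μ), P (x i, x j) := by
  obtain ⟨k, rfl⟩ := Fin.exists_succAbove_eq hij.symm
  have hmp := (measurePreserving_piFinSuccAbove (fun _ : Fin (n + 1) => μ) i).quasiMeasurePreserving
  have h2 : Measure.QuasiMeasurePreserving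
      (Prod.map (id : X → X) (fun y : Fin n → X => y k))
      (μ.prod (Measure.pi fun _ : Fin n => μ)) (μ.prod μ) :=
    QuasiMeasurePreserving.prodMap (Measure.QuasiMeasurePreserving.id μ)
      (Measure.quasiMeasurePreserving_eval _ k)
  have h3 := (h2.comp hmp).ae h
  filter_upwards [h3] with x hx
  exact hx

end LoopA

/-! ## Integrals over loops -/

section Int

variable {X : Type*} [MeasurableSpace X] {μ : Measure X} [SigmaFinite μ]

/-- The integral of `G(x_0) ∏ K_i(x_i, x_{i+1})`. -/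
def LI (μ : Measure X) (G : X → ℝ≥0∞) {n : ℕ} (K : Fin (n + 1) → X → X → ℝ≥0∞) : ℝ≥0∞ :=
  ∫⁻ x : Fin (n + 1) → X, G (x 0) * ∏ i, K i (x i) (x (i + 1)) ∂(Measure.pi fun _ => μ)

/-- Merging the last two kernels. -/
def mgE (μ : Measure X) {n : ℕ} (K : Fin (n + 2) → X → X → ℝ≥0∞) : Fin (n + 1) → X → X → ℝ≥0∞ :=
  Fin.snoc (α := fun _ => X → X → ℝ≥0∞) (fun i : Fin n => K i.castSucc.castSucc)
    (kc μ (K (Fin.last n).castSucc) (K (Fin.last (n + 1))))

/-- Iterated composition. -/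
def rcE (μ : Measure X) : (n : ℕ) → (Fin (n + 1) → X → X → ℝ≥0∞) → X → X → ℝ≥0∞
  | 0, K => K 0
  | n + 1, K => kc μ (K 0) (rcE μ n fun i => K i.succ)

theorem mgE_meas {n : ℕ} {K : Fin (n + 2) → X → X → ℝ≥0∞}
    (hK : ∀ i, Measurable (Function.uncurry (K i))) (i : Fin (n + 1)) :
    Measurable (Function.uncurry (mgE μ K i)) := by
  refine Fin.lastCases ?_ (fun j => ?_) i
  · rw [mgE, Fin.snoc_last]
    exact kc_meas (hK _) (hK _)
  · rw [mgE, Fin.snoc_castSucc]
    exact hK _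

theorem rcE_meas : ∀ {n : ℕ} {K : Fin (n + 1) → X → X → ℝ≥0∞},
    (∀ i, Measurable (Function.uncurry (K i))) → Measurable (Function.uncurry (rcE μ n K)) := by
  intro n
  induction n with
  | zero =>
    intro K hK
    exact hK 0
  | succ n ih =>
    intro K hK
    exact kc_meas (hK 0) (ih fun i => hK i.succ)

theorem mgE_zero {n : ℕ} (K : Fin (n + 3) → X → X → ℝ≥0∞) : mgE μ K 0 = K 0 := by
  rw [mgE, show (0 : Fin (n + 2)) = (0 : Fin (n + 1)).castSucc from rfl, Fin.snoc_castSucc]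
  rfl

theorem mgE_succ {n : ℕ} (K : Fin (n + 3) → X → X → ℝ≥0∞) :
    (fun i : Fin (n + 1) => mgE μ K i.succ) = mgE μ fun i => K i.succ := by
  funext i
  refine Fin.lastCases ?_ (fun j => ?_) i
  · rw [mgE, mgE, Fin.succ_last, Fin.snoc_last, Fin.snoc_last]
    rfl
  · rw [mgE, mgE, Fin.succ_castSucc, Fin.snoc_castSucc, Fin.snoc_castSucc]
    rfl

theorem rcE_mg : ∀ {n : ℕ} (K : Fin (n + 2) → X → X → ℝ≥0∞), rcE μ n (mgE μ K) = rcE μ (n + 1) K := by
  intro n
  induction n with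
  | zero =>
    intro K
    rfl
  | succ n ih =>
    intro K
    show kc μ (mgE μ K 0) (rcE μ n fun i => mgE μ K i.succ) = kc μ (K 0) (rcE μ (n + 1) fun i => K i.succ)
    rw [mgE_zero, mgE_succ, ih]

theorem LI_merge {n : ℕ} {G : X → ℝ≥0∞} (hG : Measurable G) {K : Fin (n + 2) → X → X → ℝ≥0∞}
    (hK : ∀ i, Measurable (Function.uncurry (K i))) : LI μ G (mgE μ K) = LI μ G K := by
  have hm : Measurable fun x : Fin (n + 2) → X => G (x 0) * ∏ i, K i (x i) (x (i + 1)) :=
    (hG.comp (measurable_pi_apply _)).mul (Finset.measurable_fun_prod _ fun i _ => meas_pair (hK i) _ _)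
  unfold LI
  rw [lint_peel (Fin.last (n + 1)) hm]
  refine lintegral_congr fun y => ?_
  have h1 : ∀ z, G ((Fin.insertNth (α := fun _ => X) (Fin.last (n + 1)) z y) 0) *
      ∏ i, K i ((Fin.insertNth (α := fun _ => X) (Fin.last (n + 1)) z y) i)
        ((Fin.insertNth (α := fun _ => X) (Fin.last (n + 1)) z y) (i + 1)) =
      (G (y 0) * ∏ i : Fin n, K i.castSucc.castSucc (y i.castSucc) (y (i.castSucc + 1))) *
        (K (Fin.last n).castSucc (y (Fin.last n)) z * K (Fin.last (n + 1)) z (y 0)) := by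
    intro z
    rw [Fin.insertNth_last']
    have h2 := C1_loop_last_two (fun i : Fin n => K i.castSucc.castSucc) _ _ K (fun _ => rfl) rfl rfl y z
    rw [List.prod_ofFn, List.prod_ofFn] at h2
    rw [h2, mul_assoc]
    rfl
  rw [lintegral_congr h1, lintegral_const_mul]
  · have h3 : ∏ i, mgE μ K i (y i) (y (i + 1)) =
        (∏ i : Fin n, K i.castSucc.castSucc (y i.castSucc) (y (i.castSucc + 1))) *
          kc μ (K (Fin.last n).castSucc) (K (Fin.last (n + 1))) (y (Fin.last n)) (y 0) := by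
      rw [Fin.prod_univ_castSucc, Fin.last_add_one]
      simp only [mgE, Fin.snoc_castSucc, Fin.snoc_last]
    rw [h3, mul_assoc]
    rfl
  · have m1 : Measurable fun z => K (Fin.last n).castSucc (y (Fin.last n)) z :=
      (hK _).comp (measurable_const.prodMk measurable_id)
    have m2 : Measurable fun z => K (Fin.last (n + 1)) z (y 0) :=
      (hK _).comp (measurable_id.prodMk measurable_const)
    exact m1.mul m2

/-- The two-point form. -/
def PE (μ : Measure X) (G : X → ℝ≥0∞) (K L : X → X → ℝ≥0∞) : ℝ≥0∞ :=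
  ∫⁻ x, G x * ∫⁻ y, K x y * L y x ∂μ ∂μ

theorem C1_lint_one {f : X → ℝ≥0∞} (hf : Measurable f) :
    ∫⁻ x : Fin 1 → X, f (x 0) ∂(Measure.pi fun _ => μ) = ∫⁻ y, f y ∂μ :=
  (measurePreserving_funUnique μ (Fin 1)).lintegral_comp hf

theorem PE_meas {G : X → ℝ≥0∞} (hG : Measurable G) {K L : X → X → ℝ≥0∞}
    (hK : Measurable (Function.uncurry K)) (hL : Measurable (Function.uncurry L)) :
    Measurable fun x => G x * ∫⁻ y, K x y * L y x ∂μ := by
  have h : Measurable fun t : X × X => K t.1 t.2 * L t.2 t.1 := hK.mul (hL.comp measurable_swap)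
  exact hG.mul h.lintegral_prod_right'

theorem LI_two {G : X → ℝ≥0∞} (hG : Measurable G) {K : Fin 2 → X → X → ℝ≥0∞}
    (hK : ∀ i, Measurable (Function.uncurry (K i))) : LI μ G K = PE μ G (K 0) (K 1) := by
  rw [← LI_merge hG hK]
  unfold LI PE
  rw [← C1_lint_one (PE_meas hG (hK 0) (hK 1))]
  refine lintegral_congr fun x => ?_
  rw [Fin.prod_univ_one]
  rfl

theorem LI_pair : ∀ {n : ℕ} {G : X → ℝ≥0∞} (_ : Measurable G) {K : Fin (n + 2) → X → X → ℝ≥0∞}
    (_ : ∀ i, Measurable (Function.uncurry (K i))),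
    LI μ G K = PE μ G (K 0) (rcE μ n fun i => K i.succ) := by
  intro n
  induction n with
  | zero =>
    intro G hG K hK
    exact LI_two hG hK
  | succ n ih =>
    intro G hG K hK
    rw [← LI_merge hG hK, ih hG (mgE_meas hK), mgE_zero, mgE_succ, rcE_mg]

/-- moving a factor -/
theorem PE_assoc {G : X → ℝ≥0∞} {K L M : X → X → ℝ≥0∞}
    (hK : Measurable (Function.uncurry K)) (hL : Measurable (Function.uncurry L))
    (hM : Measurable (Function.uncurry M)) : PE μ G (kc μ K L) M = PE μ G K (kc μ L M) := by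
  unfold PE kc
  refine lintegral_congr fun x => ?_
  congr 1
  have hKx : Measurable fun z => K x z := hK.comp (measurable_const.prodMk measurable_id)
  have hMx : Measurable fun z => M z x := hM.comp (measurable_id.prodMk measurable_const)
  have hm : Measurable fun t : X × X => K x t.2 * L t.2 t.1 * M t.1 x :=
    ((hKx.comp measurable_snd).mul (hL.comp measurable_swap)).mul (hMx.comp measurable_fst)
  calc ∫⁻ y, (∫⁻ z, K x z * L z y ∂μ) * M y x ∂μ = ∫⁻ y, ∫⁻ z, K x z * L z y * M y x ∂μ ∂μ := by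
        refine lintegral_congr fun y => ?_
        rw [lintegral_mul_const]
        exact hKx.mul (hL.comp (measurable_id.prodMk measurable_const))
    _ = ∫⁻ z, ∫⁻ y, K x z * L z y * M y x ∂μ ∂μ := lintegral_lintegral_swap hm.aemeasurable
    _ = ∫⁻ z, K x z * ∫⁻ y, L z y * M y x ∂μ ∂μ := by
        refine lintegral_congr fun z => ?_
        rw [← lintegral_const_mul]
        · refine lintegral_congr fun y => ?_
          exact mul_assoc _ _ _
        · have hLz : Measurable fun y => L z y := hL.comp (measurable_const.prodMk measurable_id)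
          exact hLz.mul hMx

end Int

/-! ## The functional `TT` with a weight depending on `x_0` -/

section T

variable {X : Type*} [MeasurableSpace X] {μ : Measure X} [SigmaFinite μ]
variable {A : Type*} [NormedRing A] [NormedAlgebra ℂ A]

theorem LI_ind {n : ℕ} {F : Set X} (hF : MeasurableSet F) (G : X → ℝ≥0∞)
    (K : Fin (n + 1) → X → X → ℝ≥0∞) : LI μ (F.indicator G) K =
      ∫⁻ x : Fin (n + 1) → X in {x | x 0 ∈ F}, G (x 0) * ∏ i, K i (x i) (x (i + 1))
        ∂(Measure.pi fun _ => μ) := by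
  have hS : MeasurableSet {x : Fin (n + 1) → X | x 0 ∈ F} := (measurable_pi_apply 0) hF
  rw [← lintegral_indicator hS]
  refine lintegral_congr fun x => ?_
  by_cases hx : x 0 ∈ F
  · rw [Set.indicator_of_mem (show x ∈ {x : Fin (n + 1) → X | x 0 ∈ F} from hx),
      Set.indicator_of_mem hx]
  · rw [Set.indicator_of_notMem (show x ∉ {x : Fin (n + 1) → X | x 0 ∈ F} from hx),
      Set.indicator_of_notMem hx, zero_mul]

/-- the bound of the integrand -/
theorem C1_bound {n : ℕ} (τ : A →L[ℂ] ℂ) (g : X → ℝ) {k : Fin (n + 1) → X → X → A}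
    {K : Fin (n + 1) → X → X → ℝ≥0∞} (hkK : ∀ i x y, ‖k i x y‖ₑ ≤ K i x y) (x : Fin (n + 1) → X) :
    ‖(g (x 0) : ℂ) * τ (loop k x)‖ₑ ≤ ‖τ‖ₑ * (‖g (x 0)‖ₑ * ∏ i, K i (x i) (x (i + 1))) := by
  rw [enorm_mul]
  have h1 : ‖(g (x 0) : ℂ)‖ₑ = ‖g (x 0)‖ₑ := by
    rw [← ofReal_norm, ← ofReal_norm, Complex.norm_real]
  have h2 : ‖τ (loop k x)‖ₑ ≤ ‖τ‖ₑ * ‖loop k x‖ₑ := by
    have h3 : ‖τ (loop k x)‖₊ ≤ ‖τ‖₊ * ‖loop k x‖₊ := τ.le_opNNNorm _
    have h4 : ((‖τ (loop k x)‖₊ : ℝ≥0) : ℝ≥0∞) ≤ ((‖τ‖₊ * ‖loop k x‖₊ : ℝ≥0) : ℝ≥0∞) := by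
      exact_mod_cast h3
    rw [ENNReal.coe_mul] at h4
    exact h4
  have h3 : ‖loop k x‖ₑ ≤ ∏ i, K i (x i) (x (i + 1)) :=
    (C1_enorm_loop k x).trans (Finset.prod_le_prod' fun i _ => hkK i _ _)
  rw [h1]
  calc ‖g (x 0)‖ₑ * ‖τ (loop k x)‖ₑ ≤ ‖g (x 0)‖ₑ * (‖τ‖ₑ * ∏ i, K i (x i) (x (i + 1))) := by
        gcongr
        exact h2.trans (by gcongr)
    _ = _ := by ring

theorem C1_meas {n : ℕ} (τ : A →L[ℂ] ℂ) {g : X → ℝ} (hg : Measurable g)
    {k : Fin (n + 1) → X → X → A} (hk : ∀ i, StronglyMeasurable (Function.uncurry (k i))) :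
    StronglyMeasurable fun x : Fin (n + 1) → X => (g (x 0) : ℂ) * τ (loop k x) := by
  have h1 : StronglyMeasurable fun x : Fin (n + 1) → X => (g (x 0) : ℂ) :=
    (Complex.measurable_ofReal.comp (hg.comp (measurable_pi_apply 0))).stronglyMeasurable
  exact h1.mul (τ.continuous.comp_stronglyMeasurable (C1_meas_loop hk))

theorem C1_int {n : ℕ} (τ : A →L[ℂ] ℂ) {F : Set X} (hF : MeasurableSet F) {g : X → ℝ}
    (hg : Measurable g) {k : Fin (n + 1) → X → X → A}
    (hk : ∀ i, StronglyMeasurable (Function.uncurry (k i))) {K : Fin (n + 1) → X → X → ℝ≥0∞}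
    (hkK : ∀ i x y, ‖k i x y‖ₑ ≤ K i x y)
    (H : LI μ (F.indicator fun x => ‖g x‖ₑ) K < ∞) :
    IntegrableOn (fun x : Fin (n + 1) → X => (g (x 0) : ℂ) * τ (loop k x)) {x | x 0 ∈ F}
      (Measure.pi fun _ => μ) := by
  refine ⟨(C1_meas τ hg hk).aestronglyMeasurable, ?_⟩
  rw [LI_ind hF] at H
  refine lt_of_le_of_lt (lintegral_mono fun x => C1_bound τ g hkK x) ?_
  rw [lintegral_const_mul' _ _ enorm_ne_top]
  exact ENNReal.mul_lt_top enorm_lt_top H

end T

end Pool.Agent.Lib.MP_df705a_gt.SV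
end
end

section

/-!
# SV, block K: calculus of the class `KB`
-/

open MeasureTheory
open scoped ENNReal NNReal

set_option autoImplicit false
set_option linter.unusedSectionVars false

noncomputable section

namespace Pool.Agent.Lib.MP_df705a_gt.SV

variable {X : Type*} [MeasurableSpace X] {μ : Measure X}

section NB

variable {K L : X → X → ℝ≥0∞} {p : ℝ} {C D : ℝ≥0}

theorem ae_swap' [SFinite μ] {P : X × X → Prop} (h : ∀ᵐ t ∂(μ.prod μ), P t) :
    ∀ᵐ t ∂(μ.prod μ), P t.swap :=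
  (Measure.measurePreserving_swap (μ := μ) (ν := μ)).quasiMeasurePreserving.ae h

theorem NB.mono_ae [SFinite μ] (hp : 0 ≤ p) (hKL : ∀ᵐ t ∂(μ.prod μ), K t.1 t.2 ≤ L t.1 t.2)
    (h : NB μ p L C) : NB μ p K C := by
  refine ⟨?_, ?_⟩
  · filter_upwards [h.1, Measure.ae_ae_of_ae_prod hKL] with x h1 h2
    refine le_trans (lintegral_mono_ae ?_) h1
    filter_upwards [h2] with y h3
    exact ENNReal.rpow_le_rpow h3 hp
  · filter_upwards [h.2, Measure.ae_ae_of_ae_prod (ae_swap' hKL)] with x h1 h2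
    refine le_trans (lintegral_mono_ae ?_) h1
    filter_upwards [h2] with y h3
    exact ENNReal.rpow_le_rpow h3 hp

theorem NB.mono (hp : 0 ≤ p) (hKL : ∀ x y, K x y ≤ L x y) (h : NB μ p L C) : NB μ p K C := by
  refine ⟨?_, ?_⟩
  · filter_upwards [h.1] with x h1
    exact le_trans (lintegral_mono fun y => ENNReal.rpow_le_rpow (hKL _ _) hp) h1
  · filter_upwards [h.2] with x h1
    exact le_trans (lintegral_mono fun y => ENNReal.rpow_le_rpow (hKL _ _) hp) h1

theorem NB.mono_const (hp : 0 ≤ p) (hCD : C ≤ D) (h : NB μ p K C) : NB μ p K D := by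
  have h0 : (C : ℝ≥0∞) ^ p ≤ (D : ℝ≥0∞) ^ p := ENNReal.rpow_le_rpow (by exact_mod_cast hCD) hp
  refine ⟨?_, ?_⟩
  · filter_upwards [h.1] with x h1
    exact h1.trans h0
  · filter_upwards [h.2] with x h1
    exact h1.trans h0

theorem NB.swap (h : NB μ p K C) : NB μ p (fun x y => K y x) C := ⟨h.2, h.1⟩

theorem NB.young [SFinite μ] (hK : Measurable (Function.uncurry K))
    (hL : Measurable (Function.uncurry L)) {p q r : ℝ} (hp : 1 ≤ p) (hq : 1 ≤ q) (hr : 1 ≤ r)
    (hpq : 1 / p + 1 / q = 1 + 1 / r) (h1 : NB μ p K C) (h2 : NB μ q L D) :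
    NB μ r (kc μ K L) (C * D) := by
  refine ⟨?_, ?_⟩
  · rw [ENNReal.coe_mul]
    exact SV.young hK hL hp hq hr hpq h1.1 h2.1 h2.2
  · rw [mul_comm C D, ENNReal.coe_mul]
    have h3 := SV.young (μ := μ) (K := fun x y => L y x) (L := fun x y => K y x)
      (hL.comp measurable_swap) (hK.comp measurable_swap) hq hp hr (by rw [add_comm]; exact hpq)
      (A := D) (B := C) h2.2 h1.2 h1.1
    filter_upwards [h3] with y hy
    refine le_trans (le_of_eq ?_) hy
    refine lintegral_congr fun x => ?_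
    congr 1
    refine lintegral_congr fun z => ?_
    exact mul_comm _ _

theorem NB.add [SFinite μ] (hK : Measurable (Function.uncurry K))
    (hL : Measurable (Function.uncurry L)) (hp : 1 ≤ p) (h1 : NB μ p K C) (h2 : NB μ p L D) :
    NB μ p (fun x y => K x y + L x y) (C + D) := by
  have p0 : 0 < p := by linarith
  have key : ∀ (f g : X → ℝ≥0∞), Measurable f → Measurable g → ∫⁻ y, f y ^ p ∂μ ≤ (C : ℝ≥0∞) ^ p →
      ∫⁻ y, g y ^ p ∂μ ≤ (D : ℝ≥0∞) ^ p →
      ∫⁻ y, (f y + g y) ^ p ∂μ ≤ ((C + D : ℝ≥0) : ℝ≥0∞) ^ p := by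
    intro f g hf hg h3 h4
    have h5 := ENNReal.lintegral_Lp_add_le (μ := μ) hf.aemeasurable hg.aemeasurable hp
    have h6 : (∫⁻ y, f y ^ p ∂μ) ^ (1 / p) ≤ C := by
      refine (ENNReal.rpow_le_rpow h3 (by positivity)).trans (le_of_eq ?_)
      rw [← ENNReal.rpow_mul, mul_one_div_cancel p0.ne', ENNReal.rpow_one]
    have h7 : (∫⁻ y, g y ^ p ∂μ) ^ (1 / p) ≤ D := by
      refine (ENNReal.rpow_le_rpow h4 (by positivity)).trans (le_of_eq ?_)
      rw [← ENNReal.rpow_mul, mul_one_div_cancel p0.ne', ENNReal.rpow_one]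
    have h8 := h5.trans (add_le_add h6 h7)
    have h9 := ENNReal.rpow_le_rpow h8 p0.le
    rw [← ENNReal.rpow_mul, one_div_mul_cancel p0.ne', ENNReal.rpow_one] at h9
    rw [ENNReal.coe_add]
    exact h9
  have mK1 : ∀ x, Measurable fun y => K x y := fun x => hK.comp (measurable_const.prodMk measurable_id)
  have mL1 : ∀ x, Measurable fun y => L x y := fun x => hL.comp (measurable_const.prodMk measurable_id)
  have mK2 : ∀ y, Measurable fun x => K x y := fun x => hK.comp (measurable_id.prodMk measurable_const)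
  have mL2 : ∀ y, Measurable fun x => L x y := fun x => hL.comp (measurable_id.prodMk measurable_const)
  refine ⟨?_, ?_⟩
  · filter_upwards [h1.1, h2.1] with x h3 h4
    exact key _ _ (mK1 x) (mL1 x) h3 h4
  · filter_upwards [h1.2, h2.2] with x h3 h4
    exact key _ _ (mK2 x) (mL2 x) h3 h4

theorem NB.const_mul (hK : Measurable (Function.uncurry K)) (hp : 0 ≤ p) (c : ℝ≥0)
    (h : NB μ p K C) : NB μ p (fun x y => (c : ℝ≥0∞) * K x y) (c * C) := by
  have mK1 : ∀ x, Measurable fun y => K x y := fun x => hK.comp (measurable_const.prodMk measurable_id)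
  have mK2 : ∀ y, Measurable fun x => K x y := fun x => hK.comp (measurable_id.prodMk measurable_const)
  have e : ∀ k : ℝ≥0∞, ((c : ℝ≥0∞) * k) ^ p = (c : ℝ≥0∞) ^ p * k ^ p := fun k =>
    ENNReal.mul_rpow_of_nonneg _ _ hp
  refine ⟨?_, ?_⟩
  · filter_upwards [h.1] with x h1
    simp only [e]
    rw [lintegral_const_mul _ ((mK1 x).pow_const p), ENNReal.coe_mul, e]
    gcongr
  · filter_upwards [h.2] with x h1
    simp only [e]
    rw [lintegral_const_mul _ ((mK2 x).pow_const p), ENNReal.coe_mul, e]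
    gcongr

/-- finiteness almost everywhere -/
theorem NB.ae_lt_top [SFinite μ] (hK : Measurable (Function.uncurry K)) (hp : 0 < p)
    (h : NB μ p K C) : ∀ᵐ t ∂(μ.prod μ), K t.1 t.2 < ∞ := by
  have hm : MeasurableSet {t : X × X | K t.1 t.2 < ∞} := measurableSet_lt hK measurable_const
  rw [Measure.ae_prod_iff_ae_ae hm]
  filter_upwards [h.1] with x h1
  have h2 : ∫⁻ y, K x y ^ p ∂μ ≠ ∞ :=
    ne_top_of_le_ne_top (ENNReal.rpow_ne_top_of_nonneg hp.le ENNReal.coe_ne_top) h1
  have h3 := MeasureTheory.ae_lt_top ((hK.comp (measurable_const.prodMk measurable_id)).pow_const p) h2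
  filter_upwards [h3] with y hy
  by_contra h4
  rw [not_lt, top_le_iff] at h4
  have h5 : (Function.uncurry K ∘ fun a => (x, id a)) y = ∞ := h4
  rw [h5, ENNReal.top_rpow_of_pos hp] at hy
  exact lt_irrefl _ hy

end NB

variable {E : Type*} [NormedRing E] [NormedAlgebra ℝ E] {w : X → X → ℝ} {a b : X → X → E}
  {p : ℝ} {A₁ Ap B₁ Bp : ℝ≥0}

theorem nk_meas (hw : Measurable (Function.uncurry w)) (ha : StronglyMeasurable (Function.uncurry a)) :
    Measurable (Function.uncurry (nk w a)) :=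
  (hw.ennreal_ofReal).mul ha.enorm

theorem nk_le_of_norm_le {c : ℝ≥0} {x y : X} (h : ‖a x y‖ ≤ c * ‖b x y‖) :
    nk w a x y ≤ (c : ℝ≥0∞) * nk w b x y := by
  have h1 : ‖a x y‖ₑ ≤ (c : ℝ≥0∞) * ‖b x y‖ₑ := by
    have h2 : ‖a x y‖₊ ≤ c * ‖b x y‖₊ := by
      rw [← NNReal.coe_le_coe]
      exact h
    have h3 : ((‖a x y‖₊ : ℝ≥0) : ℝ≥0∞) ≤ ((c * ‖b x y‖₊ : ℝ≥0) : ℝ≥0∞) := by exact_mod_cast h2
    rw [ENNReal.coe_mul] at h3
    exact h3
  calc nk w a x y = ENNReal.ofReal (w x y) * ‖a x y‖ₑ := rfl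
    _ ≤ ENNReal.ofReal (w x y) * ((c : ℝ≥0∞) * ‖b x y‖ₑ) := by gcongr
    _ = (c : ℝ≥0∞) * nk w b x y := by
        rw [nk]
        ring

/-- the general comparison -/
theorem KB.of_le [SFinite μ] (hw : Measurable (Function.uncurry w)) (hp : 0 ≤ p)
    (hb : KB μ w p b B₁ Bp) (ha : StronglyMeasurable (Function.uncurry a)) (c : ℝ≥0)
    (hab : ∀ᵐ t ∂(μ.prod μ), ‖a t.1 t.2‖ ≤ c * ‖b t.1 t.2‖) :
    KB μ w p a (c * B₁) (c * Bp) := by
  have h1 : ∀ᵐ t ∂(μ.prod μ), nk w a t.1 t.2 ≤ (c : ℝ≥0∞) * nk w b t.1 t.2 := by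
    filter_upwards [hab] with t ht
    exact nk_le_of_norm_le ht
  have hm := nk_meas hw hb.meas
  exact ⟨ha, (hb.n1.const_mul hm zero_le_one c).mono_ae zero_le_one h1,
    (hb.np.const_mul hm hp c).mono_ae hp h1⟩

theorem KB.mono (hp : 0 ≤ p) (h : KB μ w p a A₁ Ap) (h1 : A₁ ≤ B₁) (h2 : Ap ≤ Bp) :
    KB μ w p a B₁ Bp :=
  ⟨h.meas, h.n1.mono_const zero_le_one h1, h.np.mono_const hp h2⟩

/-- smaller weight -/
theorem KB.weight {w' : X → X → ℝ} (hp : 0 ≤ p) (h : KB μ w p a A₁ Ap)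
    (hw : ∀ x y, w' x y ≤ w x y) : KB μ w' p a A₁ Ap := by
  have h1 : ∀ x y, nk w' a x y ≤ nk w a x y := fun x y => by
    unfold nk
    gcongr
    exact hw x y
  exact ⟨h.meas, h.n1.mono zero_le_one h1, h.np.mono hp h1⟩

theorem KB.congr_ae [SFinite μ] (hp : 0 ≤ p) (h : KB μ w p a A₁ Ap)
    (hb : StronglyMeasurable (Function.uncurry b))
    (hab : ∀ᵐ t ∂(μ.prod μ), b t.1 t.2 = a t.1 t.2) : KB μ w p b A₁ Ap := by
  have h1 : ∀ᵐ t ∂(μ.prod μ), nk w b t.1 t.2 ≤ nk w a t.1 t.2 := by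
    filter_upwards [hab] with t ht
    unfold nk
    rw [ht]
  exact ⟨hb, h.n1.mono_ae zero_le_one h1, h.np.mono_ae hp h1⟩

theorem KB.zero (hp : 0 < p) : KB μ w p (fun _ _ => (0 : E)) 0 0 := by
  have h1 : ∀ q : ℝ, 0 < q → NB μ q (nk w (fun _ _ => (0 : E))) 0 := by
    intro q hq
    have h2 : ∀ x y, nk w (fun _ _ => (0 : E)) x y ^ q = 0 := by
      intro x y
      unfold nk
      rw [enorm_zero, mul_zero, ENNReal.zero_rpow_of_pos hq]
    constructor
    · refine Filter.Eventually.of_forall fun x => ?_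
      simp only [h2, lintegral_zero]
      exact zero_le
    · refine Filter.Eventually.of_forall fun x => ?_
      simp only [h2, lintegral_zero]
      exact zero_le
  exact ⟨stronglyMeasurable_const, h1 1 one_pos, h1 p hp⟩

theorem KB.add [SFinite μ] (hw : Measurable (Function.uncurry w)) (hp : 1 ≤ p)
    (ha : KB μ w p a A₁ Ap) (hb : KB μ w p b B₁ Bp) :
    KB μ w p (fun x y => a x y + b x y) (A₁ + B₁) (Ap + Bp) := by
  have h1 : ∀ x y, nk w (fun x y => a x y + b x y) x y ≤ nk w a x y + nk w b x y := fun x y => by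
    unfold nk
    rw [← mul_add]
    gcongr
    exact enorm_add_le _ _
  have ma := nk_meas hw ha.meas
  have mb := nk_meas hw hb.meas
  exact ⟨ha.meas.add hb.meas, (ha.n1.add ma mb le_rfl hb.n1).mono zero_le_one h1,
    (ha.np.add ma mb hp hb.np).mono (by linarith) h1⟩

theorem KB.neg (ha : KB μ w p a A₁ Ap) : KB μ w p (fun x y => - a x y) A₁ Ap := by
  have h1 : nk w (fun x y => - a x y) = nk w a := by
    funext x y
    unfold nk
    rw [enorm_neg]
  refine ⟨ha.meas.neg, ?_, ?_⟩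
  · rw [h1]
    exact ha.n1
  · rw [h1]
    exact ha.np

theorem KB.sub [SFinite μ] (hw : Measurable (Function.uncurry w)) (hp : 1 ≤ p)
    (ha : KB μ w p a A₁ Ap) (hb : KB μ w p b B₁ Bp) :
    KB μ w p (fun x y => a x y - b x y) (A₁ + B₁) (Ap + Bp) := by
  have h := ha.add hw hp hb.neg
  simp only [← sub_eq_add_neg] at h
  exact h

theorem KB.smul [SFinite μ] {𝕜 : Type*} [NormedField 𝕜] [NormedSpace 𝕜 E]
    (hw : Measurable (Function.uncurry w)) (hp : 0 ≤ p) (ha : KB μ w p a A₁ Ap) (c : 𝕜) :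
    KB μ w p (fun x y => c • a x y) (‖c‖₊ * A₁) (‖c‖₊ * Ap) :=
  KB.of_le (a := fun x y => c • a x y) hw hp ha (ha.meas.const_smul c) ‖c‖₊ (Filter.Eventually.of_forall fun _ => norm_smul_le _ _)

theorem KB.const_mul [SFinite μ] (hw : Measurable (Function.uncurry w)) (hp : 0 ≤ p)
    (ha : KB μ w p a A₁ Ap) (e : E) :
    KB μ w p (fun x y => e * a x y) (‖e‖₊ * A₁) (‖e‖₊ * Ap) :=
  KB.of_le (a := fun x y => e * a x y) hw hp ha (stronglyMeasurable_const.mul ha.meas) ‖e‖₊
    (Filter.Eventually.of_forall fun _ => norm_mul_le _ _)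

theorem KB.mul_const [SFinite μ] (hw : Measurable (Function.uncurry w)) (hp : 0 ≤ p)
    (ha : KB μ w p a A₁ Ap) (e : E) :
    KB μ w p (fun x y => a x y * e) (‖e‖₊ * A₁) (‖e‖₊ * Ap) :=
  KB.of_le (a := fun x y => a x y * e) hw hp ha (ha.meas.mul stronglyMeasurable_const) ‖e‖₊
    (Filter.Eventually.of_forall fun _ => by
      rw [mul_comm (‖e‖₊ : ℝ)]
      exact norm_mul_le _ _)

/-- left multiplication by a bounded function of the first variable -/
theorem KB.fmul [SFinite μ] (hw : Measurable (Function.uncurry w)) (hp : 0 ≤ p)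
    (ha : KB μ w p a A₁ Ap) {f : X → E} (hf : StronglyMeasurable f) (c : ℝ≥0)
    (hc : ∀ x, ‖f x‖ ≤ c) : KB μ w p (fun x y => f x * a x y) (c * A₁) (c * Ap) :=
  KB.of_le (a := fun x y => f x * a x y) hw hp ha ((hf.comp_measurable measurable_fst).mul ha.meas) c
    (Filter.Eventually.of_forall fun _ => (norm_mul_le _ _).trans (by
      gcongr
      exact hc _))

/-- right multiplication by a bounded function of the second variable -/
theorem KB.mulf [SFinite μ] (hw : Measurable (Function.uncurry w)) (hp : 0 ≤ p)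
    (ha : KB μ w p a A₁ Ap) {f : X → E} (hf : StronglyMeasurable f) (c : ℝ≥0)
    (hc : ∀ x, ‖f x‖ ≤ c) : KB μ w p (fun x y => a x y * f y) (c * A₁) (c * Ap) :=
  KB.of_le (a := fun x y => a x y * f y) hw hp ha (ha.meas.mul (hf.comp_measurable measurable_snd)) c
    (Filter.Eventually.of_forall fun _ => (norm_mul_le _ _).trans (by
      rw [mul_comm]
      gcongr
      exact hc _))

/-- the adjoint kernel (for a symmetric weight) -/
theorem KB.of_swap [SFinite μ] (hsym : ∀ x y, w x y = w y x) (ha : KB μ w p a A₁ Ap)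
    (hb : StronglyMeasurable (Function.uncurry b)) (hab : ∀ x y, ‖b x y‖ = ‖a y x‖) :
    KB μ w p b A₁ Ap := by
  have h1 : nk w b = fun x y => nk w a y x := by
    funext x y
    unfold nk
    rw [hsym x y]
    congr 1
    rw [← ofReal_norm, ← ofReal_norm, hab]
  refine ⟨hb, ?_, ?_⟩
  · rw [h1]
    exact ha.n1.swap
  · rw [h1]
    exact ha.np.swap

/-! ## Composition -/

theorem comp_meas [SFinite μ] (ha : StronglyMeasurable (Function.uncurry a))
    (hb : StronglyMeasurable (Function.uncurry b)) :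
    StronglyMeasurable (Function.uncurry (comp μ a b)) := by
  have h : StronglyMeasurable fun t : (X × X) × X => a t.1.1 t.2 * b t.2 t.1.2 := by
    apply StronglyMeasurable.mul
    · exact ha.comp_measurable ((measurable_fst.comp measurable_fst).prodMk measurable_snd)
    · exact hb.comp_measurable (measurable_snd.prodMk (measurable_snd.comp measurable_fst))
  exact h.integral_prod_right'

theorem nk_comp_le (hw : Wt w) (x y : X) :
    nk w (comp μ a b) x y ≤ kc μ (nk w a) (nk w b) x y := by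
  unfold nk kc comp
  calc ENNReal.ofReal (w x y) * ‖∫ z, a x z * b z y ∂μ‖ₑ
      ≤ ENNReal.ofReal (w x y) * ∫⁻ z, ‖a x z * b z y‖ₑ ∂μ := by
        gcongr
        exact enorm_integral_le_lintegral_enorm _
    _ = ∫⁻ z, ENNReal.ofReal (w x y) * ‖a x z * b z y‖ₑ ∂μ := by
        rw [lintegral_const_mul' _ _ ENNReal.ofReal_ne_top]
    _ ≤ ∫⁻ z, ENNReal.ofReal (w x z) * ‖a x z‖ₑ * (ENNReal.ofReal (w z y) * ‖b z y‖ₑ) ∂μ := by
        refine lintegral_mono fun z => ?_
        have h0 : 0 ≤ w x z := zero_le_one.trans (hw.one _ _)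
        have h1 : ENNReal.ofReal (w x y) ≤ ENNReal.ofReal (w x z) * ENNReal.ofReal (w z y) := by
          rw [← ENNReal.ofReal_mul h0]
          exact ENNReal.ofReal_le_ofReal (hw.sub _ _ _)
        have h2 : ‖a x z * b z y‖ₑ ≤ ‖a x z‖ₑ * ‖b z y‖ₑ := by
          have h3 : ‖a x z * b z y‖₊ ≤ ‖a x z‖₊ * ‖b z y‖₊ := nnnorm_mul_le _ _
          have h4 : ((‖a x z * b z y‖₊ : ℝ≥0) : ℝ≥0∞) ≤ ((‖a x z‖₊ * ‖b z y‖₊ : ℝ≥0) : ℝ≥0∞) := by
            exact_mod_cast h3
          rw [ENNReal.coe_mul] at h4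
          exact h4
        calc ENNReal.ofReal (w x y) * ‖a x z * b z y‖ₑ
            ≤ (ENNReal.ofReal (w x z) * ENNReal.ofReal (w z y)) * (‖a x z‖ₑ * ‖b z y‖ₑ) := by gcongr
          _ = _ := by ring

/-- the composition, with the `L^p` bound of the second factor -/
theorem KB.comp [SFinite μ] (hw : Wt w) (hp : 1 ≤ p) (ha : KB μ w p a A₁ Ap)
    (hb : KB μ w p b B₁ Bp) : KB μ w p (comp μ a b) (A₁ * B₁) (A₁ * Bp) := by
  have ma := nk_meas hw.meas ha.meas
  have mb := nk_meas hw.meas hb.meas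
  refine ⟨comp_meas ha.meas hb.meas, ?_, ?_⟩
  · exact (NB.young ma mb le_rfl le_rfl le_rfl (by norm_num) ha.n1 hb.n1).mono zero_le_one
      (nk_comp_le hw)
  · exact (NB.young ma mb le_rfl hp hp (by rw [div_one]) ha.n1 hb.np).mono (by linarith)
      (nk_comp_le hw)

/-- the composition, with the `L^p` bound of the first factor -/
theorem KB.comp' [SFinite μ] (hw : Wt w) (hp : 1 ≤ p) (ha : KB μ w p a A₁ Ap)
    (hb : KB μ w p b B₁ Bp) : KB μ w p (SV.comp μ a b) (A₁ * B₁) (Ap * B₁) := by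
  have ma := nk_meas hw.meas ha.meas
  have mb := nk_meas hw.meas hb.meas
  refine ⟨comp_meas ha.meas hb.meas, ?_, ?_⟩
  · exact (NB.young ma mb le_rfl le_rfl le_rfl (by norm_num) ha.n1 hb.n1).mono zero_le_one
      (nk_comp_le hw)
  · exact (NB.young ma mb hp le_rfl hp (by rw [div_one, add_comm]) ha.np hb.n1).mono (by linarith)
      (nk_comp_le hw)

theorem KB.ae_integrable [SFinite μ] (hw : Wt w) (ha : KB μ w p a A₁ Ap)
    (hb : KB μ w p b B₁ Bp) :
    ∀ᵐ t ∂(μ.prod μ), Integrable (fun z => a t.1 z * b z t.2) μ := by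
  have ma := nk_meas hw.meas ha.meas
  have mb := nk_meas hw.meas hb.meas
  have h1 := (NB.young ma mb le_rfl le_rfl le_rfl (by norm_num) ha.n1 hb.n1).ae_lt_top
    (kc_meas ma mb) one_pos
  filter_upwards [h1] with t ht
  have hm : StronglyMeasurable fun z => a t.1 z * b z t.2 :=
    (ha.meas.comp_measurable (measurable_const.prodMk measurable_id)).mul
      (hb.meas.comp_measurable (measurable_id.prodMk measurable_const))
  refine ⟨hm.aestronglyMeasurable, ?_⟩
  refine lt_of_le_of_lt (lintegral_mono fun z => ?_) ht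
  have h2 : ‖a t.1 z * b z t.2‖ₑ ≤ ‖a t.1 z‖ₑ * ‖b z t.2‖ₑ := by
    have h3 : ‖a t.1 z * b z t.2‖₊ ≤ ‖a t.1 z‖₊ * ‖b z t.2‖₊ := nnnorm_mul_le _ _
    have h4 : ((‖a t.1 z * b z t.2‖₊ : ℝ≥0) : ℝ≥0∞) ≤ ((‖a t.1 z‖₊ * ‖b z t.2‖₊ : ℝ≥0) : ℝ≥0∞) := by
      exact_mod_cast h3
    rw [ENNReal.coe_mul] at h4
    exact h4
  refine h2.trans ?_
  have h5 : ∀ x y, (1 : ℝ≥0∞) ≤ ENNReal.ofReal (w x y) := fun x y => by
    rw [ENNReal.one_le_ofReal]
    exact hw.one x y
  unfold nk
  calc ‖a t.1 z‖ₑ * ‖b z t.2‖ₑ = (1 * ‖a t.1 z‖ₑ) * (1 * ‖b z t.2‖ₑ) := by rw [one_mul, one_mul]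
    _ ≤ _ := by
      gcongr
      · exact h5 _ _
      · exact h5 _ _

end Pool.Agent.Lib.MP_df705a_gt.SV
end
end

section

/-!
# SV, block K: algebraic identities for the composition of kernels
-/

open MeasureTheory
open scoped ENNReal NNReal

set_option autoImplicit false
set_option linter.unusedSectionVars false

noncomputable section

namespace Pool.Agent.Lib.MP_df705a_gt.SV

variable {X : Type*} [MeasurableSpace X] {μ : Measure X} [SFinite μ]
variable {E : Type*} [NormedRing E] [NormedAlgebra ℝ E]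
variable {w : X → X → ℝ} {a a' b b' c : X → X → E} {p : ℝ}
  {A₁ Ap A₁' Ap' B₁ Bp B₁' Bp' C₁ Cp : ℝ≥0}

theorem ae_fst {P : X → Prop} (h : ∀ᵐ x ∂μ, P x) : ∀ᵐ t ∂(μ.prod μ), P t.1 :=
  Measure.quasiMeasurePreserving_fst.ae h

theorem ae_snd {P : X → Prop} (h : ∀ᵐ x ∂μ, P x) : ∀ᵐ t ∂(μ.prod μ), P t.2 :=
  Measure.quasiMeasurePreserving_snd.ae h

theorem comp_congr_ae (h1 : ∀ᵐ t ∂(μ.prod μ), a t.1 t.2 = a' t.1 t.2)
    (h2 : ∀ᵐ t ∂(μ.prod μ), b t.1 t.2 = b' t.1 t.2) :
    ∀ᵐ t ∂(μ.prod μ), comp μ a b t.1 t.2 = comp μ a' b' t.1 t.2 := by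
  have h3 : ∀ᵐ t ∂(μ.prod μ), ∀ᵐ z ∂μ, a t.1 z = a' t.1 z := ae_fst (Measure.ae_ae_of_ae_prod h1)
  have h4 : ∀ᵐ t ∂(μ.prod μ), ∀ᵐ z ∂μ, b z t.2 = b' z t.2 :=
    ae_snd (Measure.ae_ae_of_ae_prod (ae_swap' h2))
  filter_upwards [h3, h4] with t h5 h6
  refine integral_congr_ae ?_
  filter_upwards [h5, h6] with z h7 h8
  show a t.1 z * b z t.2 = a' t.1 z * b' z t.2
  rw [h7, h8]

theorem comp_add_left (hw : Wt w) (ha : KB μ w p a A₁ Ap) (ha' : KB μ w p a' A₁' Ap')
    (hb : KB μ w p b B₁ Bp) : ∀ᵐ t ∂(μ.prod μ),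
      comp μ (fun x y => a x y + a' x y) b t.1 t.2 = comp μ a b t.1 t.2 + comp μ a' b t.1 t.2 := by
  filter_upwards [ha.ae_integrable hw hb, ha'.ae_integrable hw hb] with t h1 h2
  show ∫ z, (a t.1 z + a' t.1 z) * b z t.2 ∂μ = ∫ z, a t.1 z * b z t.2 ∂μ + ∫ z, a' t.1 z * b z t.2 ∂μ
  rw [← integral_add h1 h2]
  simp only [add_mul]

theorem comp_add_right (hw : Wt w) (ha : KB μ w p a A₁ Ap) (hb : KB μ w p b B₁ Bp)
    (hb' : KB μ w p b' B₁' Bp') : ∀ᵐ t ∂(μ.prod μ),
      comp μ a (fun x y => b x y + b' x y) t.1 t.2 = comp μ a b t.1 t.2 + comp μ a b' t.1 t.2 := by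
  filter_upwards [ha.ae_integrable hw hb, ha.ae_integrable hw hb'] with t h1 h2
  show ∫ z, a t.1 z * (b z t.2 + b' z t.2) ∂μ = ∫ z, a t.1 z * b z t.2 ∂μ + ∫ z, a t.1 z * b' z t.2 ∂μ
  rw [← integral_add h1 h2]
  simp only [mul_add]

theorem comp_sub_left (hw : Wt w) (ha : KB μ w p a A₁ Ap) (ha' : KB μ w p a' A₁' Ap')
    (hb : KB μ w p b B₁ Bp) : ∀ᵐ t ∂(μ.prod μ),
      comp μ (fun x y => a x y - a' x y) b t.1 t.2 = comp μ a b t.1 t.2 - comp μ a' b t.1 t.2 := by
  filter_upwards [ha.ae_integrable hw hb, ha'.ae_integrable hw hb] with t h1 h2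
  show ∫ z, (a t.1 z - a' t.1 z) * b z t.2 ∂μ = ∫ z, a t.1 z * b z t.2 ∂μ - ∫ z, a' t.1 z * b z t.2 ∂μ
  rw [← integral_sub h1 h2]
  simp only [sub_mul]

theorem comp_sub_right (hw : Wt w) (ha : KB μ w p a A₁ Ap) (hb : KB μ w p b B₁ Bp)
    (hb' : KB μ w p b' B₁' Bp') : ∀ᵐ t ∂(μ.prod μ),
      comp μ a (fun x y => b x y - b' x y) t.1 t.2 = comp μ a b t.1 t.2 - comp μ a b' t.1 t.2 := by
  filter_upwards [ha.ae_integrable hw hb, ha.ae_integrable hw hb'] with t h1 h2
  show ∫ z, a t.1 z * (b z t.2 - b' z t.2) ∂μ = ∫ z, a t.1 z * b z t.2 ∂μ - ∫ z, a t.1 z * b' z t.2 ∂μ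
  rw [← integral_sub h1 h2]
  simp only [mul_sub]

theorem comp_mid (e : E) (x y : X) :
    comp μ (fun x y => a x y * e) b x y = comp μ a (fun x y => e * b x y) x y := by
  unfold comp
  simp only [mul_assoc]

theorem comp_midf (f : X → E) (x y : X) :
    comp μ (fun x y => a x y * f y) b x y = comp μ a (fun x y => f x * b x y) x y := by
  unfold comp
  simp only [mul_assoc]

theorem comp_smul_left {𝕜 : Type*} [NontriviallyNormedField 𝕜] [NormedSpace 𝕜 E]
    [SMulCommClass ℝ 𝕜 E] [IsScalarTower 𝕜 E E] (r : 𝕜) (x y : X) :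
    comp μ (fun x y => r • a x y) b x y = r • comp μ a b x y := by
  unfold comp
  simp only [smul_mul_assoc]
  exact integral_smul r _

theorem comp_smul_right {𝕜 : Type*} [NontriviallyNormedField 𝕜] [NormedSpace 𝕜 E]
    [SMulCommClass ℝ 𝕜 E] [SMulCommClass 𝕜 E E] (r : 𝕜) (x y : X) :
    comp μ a (fun x y => r • b x y) x y = r • comp μ a b x y := by
  unfold comp
  simp only [mul_smul_comm]
  exact integral_smul r _

section Complete

variable [CompleteSpace E]

theorem int_const_mul {f : X → E} (e : E) (hf : Integrable f μ) :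
    ∫ z, e * f z ∂μ = e * ∫ z, f z ∂μ := by
  have h := (ContinuousLinearMap.mul ℝ E e).integral_comp_comm hf
  simpa using h

theorem int_mul_const {f : X → E} (e : E) (hf : Integrable f μ) :
    ∫ z, f z * e ∂μ = (∫ z, f z ∂μ) * e := by
  have h := ((ContinuousLinearMap.mul ℝ E).flip e).integral_comp_comm hf
  simpa using h

theorem comp_const_mul (hw : Wt w) (ha : KB μ w p a A₁ Ap) (hb : KB μ w p b B₁ Bp) (e : E) :
    ∀ᵐ t ∂(μ.prod μ), comp μ (fun x y => e * a x y) b t.1 t.2 = e * comp μ a b t.1 t.2 := by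
  filter_upwards [ha.ae_integrable hw hb] with t h1
  show ∫ z, e * a t.1 z * b z t.2 ∂μ = e * ∫ z, a t.1 z * b z t.2 ∂μ
  rw [← int_const_mul e h1]
  simp only [mul_assoc]

theorem comp_mul_const (hw : Wt w) (ha : KB μ w p a A₁ Ap) (hb : KB μ w p b B₁ Bp) (e : E) :
    ∀ᵐ t ∂(μ.prod μ), comp μ a (fun x y => b x y * e) t.1 t.2 = comp μ a b t.1 t.2 * e := by
  filter_upwards [ha.ae_integrable hw hb] with t h1
  show ∫ z, a t.1 z * (b z t.2 * e) ∂μ = (∫ z, a t.1 z * b z t.2 ∂μ) * e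
  rw [← int_mul_const e h1]
  simp only [mul_assoc]

/-- multiplication by a function of the first variable -/
theorem comp_fmul (hw : Wt w) (ha : KB μ w p a A₁ Ap) (hb : KB μ w p b B₁ Bp) (f : X → E) :
    ∀ᵐ t ∂(μ.prod μ), comp μ (fun x y => f x * a x y) b t.1 t.2 = f t.1 * comp μ a b t.1 t.2 := by
  filter_upwards [ha.ae_integrable hw hb] with t h1
  show ∫ z, f t.1 * a t.1 z * b z t.2 ∂μ = f t.1 * ∫ z, a t.1 z * b z t.2 ∂μ
  rw [← int_const_mul (f t.1) h1]
  simp only [mul_assoc]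

/-- multiplication by a function of the second variable -/
theorem comp_mulf (hw : Wt w) (ha : KB μ w p a A₁ Ap) (hb : KB μ w p b B₁ Bp) (f : X → E) :
    ∀ᵐ t ∂(μ.prod μ), comp μ a (fun x y => b x y * f y) t.1 t.2 = comp μ a b t.1 t.2 * f t.2 := by
  filter_upwards [ha.ae_integrable hw hb] with t h1
  show ∫ z, a t.1 z * (b z t.2 * f t.2) ∂μ = (∫ z, a t.1 z * b z t.2 ∂μ) * f t.2
  rw [← int_mul_const (f t.2) h1]
  simp only [mul_assoc]

/-- associativity -/
theorem comp_assoc (hw : Wt w) (ha : KB μ w p a A₁ Ap) (hb : KB μ w p b B₁ Bp)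
    (hc : KB μ w p c C₁ Cp) : ∀ᵐ t ∂(μ.prod μ),
      comp μ (comp μ a b) c t.1 t.2 = comp μ a (comp μ b c) t.1 t.2 := by
  have ma := nk_meas hw.meas ha.meas
  have mb := nk_meas hw.meas hb.meas
  have mc := nk_meas hw.meas hc.meas
  have n1 := NB.young ma mb le_rfl le_rfl le_rfl (by norm_num) ha.n1 hb.n1
  have n2 := NB.young (kc_meas ma mb) mc le_rfl le_rfl le_rfl (by norm_num) n1 hc.n1
  have h1 := n2.ae_lt_top (kc_meas (kc_meas ma mb) mc) one_pos
  have h2 : ∀ᵐ t ∂(μ.prod μ), ∀ᵐ z ∂μ, Integrable (fun u => a t.1 u * b u z) μ :=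
    ae_fst (Measure.ae_ae_of_ae_prod (ha.ae_integrable hw hb))
  have h3 : ∀ᵐ t ∂(μ.prod μ), ∀ᵐ u ∂μ, Integrable (fun z => b u z * c z t.2) μ :=
    ae_snd (Measure.ae_ae_of_ae_prod (ae_swap' (hb.ae_integrable hw hc)))
  filter_upwards [h1, h2, h3] with t h4 h5 h6
  -- integrability on the product
  have hm : StronglyMeasurable fun s : X × X => a t.1 s.2 * b s.2 s.1 * c s.1 t.2 := by
    refine ((ha.meas.comp_measurable (measurable_const.prodMk measurable_snd)).mul
      (hb.meas.comp_measurable measurable_swap)).mul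
      (hc.meas.comp_measurable (measurable_fst.prodMk measurable_const))
  have h7 : Integrable (Function.uncurry fun z u => a t.1 u * b u z * c z t.2) (μ.prod μ) := by
    refine ⟨hm.aestronglyMeasurable, ?_⟩
    have h8 : ∫⁻ s, ‖a t.1 s.2 * b s.2 s.1 * c s.1 t.2‖ₑ ∂(μ.prod μ) ≤
        kc μ (kc μ (nk w a) (nk w b)) (nk w c) t.1 t.2 := by
      rw [lintegral_prod _ hm.enorm.aemeasurable]
      refine lintegral_mono fun z => ?_
      have mu1 : Measurable fun u => nk w a t.1 u * nk w b u z :=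
        (ma.comp (measurable_const.prodMk measurable_id)).mul
          (mb.comp (measurable_id.prodMk measurable_const))
      show ∫⁻ u, ‖a t.1 u * b u z * c z t.2‖ₑ ∂μ ≤ (∫⁻ u, nk w a t.1 u * nk w b u z ∂μ) * nk w c z t.2
      rw [← lintegral_mul_const _ mu1]
      refine lintegral_mono fun u => ?_
      have e1 : ‖a t.1 u * b u z * c z t.2‖ₑ ≤ ‖a t.1 u‖ₑ * ‖b u z‖ₑ * ‖c z t.2‖ₑ := by
        have h3 : ‖a t.1 u * b u z * c z t.2‖₊ ≤ ‖a t.1 u‖₊ * ‖b u z‖₊ * ‖c z t.2‖₊ :=
          (nnnorm_mul_le _ _).trans (by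
            gcongr
            exact nnnorm_mul_le _ _)
        have h4 : ((‖a t.1 u * b u z * c z t.2‖₊ : ℝ≥0) : ℝ≥0∞) ≤
            ((‖a t.1 u‖₊ * ‖b u z‖₊ * ‖c z t.2‖₊ : ℝ≥0) : ℝ≥0∞) := by
          exact_mod_cast h3
        rw [ENNReal.coe_mul, ENNReal.coe_mul] at h4
        exact h4
      have e2 : ∀ (k : X → X → E) (x y : X), ‖k x y‖ₑ ≤ nk w k x y := fun k x y => by
        unfold nk
        calc ‖k x y‖ₑ = 1 * ‖k x y‖ₑ := (one_mul _).symm
          _ ≤ _ := by
            gcongr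
            rw [ENNReal.one_le_ofReal]
            exact hw.one x y
      refine e1.trans ?_
      gcongr
      · exact e2 a _ _
      · exact e2 b _ _
      · exact e2 c _ _
    exact lt_of_le_of_lt h8 h4
  calc comp μ (comp μ a b) c t.1 t.2 = ∫ z, (∫ u, a t.1 u * b u z ∂μ) * c z t.2 ∂μ := rfl
    _ = ∫ z, ∫ u, a t.1 u * b u z * c z t.2 ∂μ ∂μ := by
        refine integral_congr_ae ?_
        filter_upwards [h5] with z hz
        exact (int_mul_const _ hz).symm
    _ = ∫ u, ∫ z, a t.1 u * b u z * c z t.2 ∂μ ∂μ := integral_integral_swap h7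
    _ = ∫ u, a t.1 u * ∫ z, b u z * c z t.2 ∂μ ∂μ := by
        refine integral_congr_ae ?_
        filter_upwards [h6] with u hu
        show ∫ z, a t.1 u * b u z * c z t.2 ∂μ = a t.1 u * ∫ z, b u z * c z t.2 ∂μ
        rw [← int_const_mul _ hu]
        simp only [mul_assoc]
    _ = comp μ a (comp μ b c) t.1 t.2 := rfl

end Complete

end Pool.Agent.Lib.MP_df705a_gt.SV
end
end

section

/-!
# SV, block K: integrability of loops
-/

open MeasureTheory
open scoped ENNReal NNReal

set_option autoImplicit false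
set_option linter.unusedSectionVars false

noncomputable section

namespace Pool.Agent.Lib.MP_df705a_gt.SV

variable {X : Type*} [MeasurableSpace X] {μ : Measure X} [SigmaFinite μ]

theorem K_one_le {N : ℕ} (hN : 0 < N) : 1 ≤ ((N : ℝ) + 1) / N := by
  have h : (0 : ℝ) < N := by exact_mod_cast hN
  rw [le_div_iff₀ h]
  linarith

theorem K_pos {N : ℕ} (hN : 0 < N) : 0 < ((N : ℝ) + 1) / N := lt_of_lt_of_le one_pos (K_one_le hN)

theorem K_one_sub {N : ℕ} (hN : 0 < N) : 1 - 1 / (((N : ℝ) + 1) / N) = 1 / ((N : ℝ) + 1) := by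
  have h : (0 : ℝ) < N := by exact_mod_cast hN
  field_simp
  ring

/-- loops of kernels, `N + 1` of them measured in `L^p`, the others in `L^1` -/
theorem loop_lint {N : ℕ} (hN : 0 < N) {n : ℕ} (J : Finset (Fin (n + 1))) (hJ : J.card = N + 1)
    (K : Fin (n + 1) → X → X → ℝ≥0∞) (hK : ∀ i, Measurable (Function.uncurry (K i)))
    (C : Fin (n + 1) → ℝ≥0) (h1 : ∀ i ∈ J, NB μ (((N : ℝ) + 1) / N) (K i) (C i))
    (h2 : ∀ i ∉ J, NB μ 1 (K i) (C i)) {F : Set X} (hF : MeasurableSet F) (r : Fin (n + 1)) :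
    ∫⁻ x : Fin (n + 1) → X in {x | x r ∈ F}, ∏ i, K i (x i) (x (i + 1)) ∂(Measure.pi fun _ => μ) ≤
      μ F * ∏ i, (C i : ℝ≥0∞) := by
  classical
  have hq : ∀ i : Fin (n + 1), 1 ≤ (if i ∈ J then ((N : ℝ) + 1) / N else 1) := by
    intro i
    split_ifs
    · exact K_one_le hN
    · exact le_rfl
  have hs : ∑ i : Fin (n + 1), (1 - 1 / (if i ∈ J then ((N : ℝ) + 1) / N else 1)) = 1 := by
    have e : ∀ i : Fin (n + 1), (1 - 1 / (if i ∈ J then ((N : ℝ) + 1) / N else 1)) =
        if i ∈ J then 1 / ((N : ℝ) + 1) else 0 := by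
      intro i
      split_ifs
      · exact K_one_sub hN
      · norm_num
    rw [Finset.sum_congr rfl fun i _ => e i, Finset.sum_ite_mem, Finset.univ_inter,
      Finset.sum_const, hJ, nsmul_eq_mul]
    have h : ((N : ℝ) + 1) ≠ 0 := by positivity
    push_cast
    field_simp
  have hS : MeasurableSet {x : Fin (n + 1) → X | x r ∈ F} := (measurable_pi_apply r) hF
  have hg : Measurable (F.indicator fun _ : X => (1 : ℝ≥0∞)) := measurable_const.indicator hF
  have h3 := cyc_holder (μ := μ) K (fun i => if i ∈ J then ((N : ℝ) + 1) / N else 1) (fun i => (C i : ℝ≥0∞)) hK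
    hq hs
    (fun j => by
      by_cases hj : j ∈ J
      · simp only [hj, if_true]
        exact (h1 j hj).1
      · simp only [hj, if_false]
        exact (h2 j hj).1)
    (fun j => by
      by_cases hj : j ∈ J
      · simp only [hj, if_true]
        exact (h1 j hj).2
      · simp only [hj, if_false]
        exact (h2 j hj).2) r (F.indicator fun _ => 1) hg
  rw [← lintegral_indicator hS]
  refine le_trans (le_of_eq ?_) (h3.trans (le_of_eq ?_))
  · refine lintegral_congr fun x => ?_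
    by_cases hx : x r ∈ F
    · rw [Set.indicator_of_mem (show x ∈ {x : Fin (n + 1) → X | x r ∈ F} from hx),
        Set.indicator_of_mem hx, one_mul]
    · rw [Set.indicator_of_notMem (show x ∉ {x : Fin (n + 1) → X | x r ∈ F} from hx),
        Set.indicator_of_notMem hx, zero_mul]
  · rw [lintegral_indicator hF, setLIntegral_one]

variable {E : Type*} [NormedRing E] [NormedAlgebra ℝ E] {w : X → X → ℝ}

/-- (K1): `N + 1` kernels of the class `KB` -/
theorem KB.loop {N : ℕ} (hN : 0 < N) (hw : Measurable (Function.uncurry w))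
    {a : Fin (N + 1) → X → X → E} {C₁ Cp : Fin (N + 1) → ℝ≥0}
    (ha : ∀ i, KB μ w (((N : ℝ) + 1) / N) (a i) (C₁ i) (Cp i)) {F : Set X} (hF : MeasurableSet F)
    (r : Fin (N + 1)) :
    ∫⁻ x : Fin (N + 1) → X in {x | x r ∈ F}, ∏ i, nk w (a i) (x i) (x (i + 1))
      ∂(Measure.pi fun _ => μ) ≤ μ F * ∏ i, (Cp i : ℝ≥0∞) :=
  loop_lint hN Finset.univ (by rw [Finset.card_univ, Fintype.card_fin]) _
    (fun i => nk_meas hw (ha i).meas) Cp (fun i _ => (ha i).np)
    (fun i hi => absurd (Finset.mem_univ i) hi) hF r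

/-- (K1) for `N + 2` kernels of the class `KB`, the kernel `j` measured in `L^1` -/
theorem KB.loop1 {N : ℕ} (hN : 0 < N) (hw : Measurable (Function.uncurry w))
    {a : Fin (N + 2) → X → X → E} {C₁ Cp : Fin (N + 2) → ℝ≥0}
    (ha : ∀ i, KB μ w (((N : ℝ) + 1) / N) (a i) (C₁ i) (Cp i)) {F : Set X} (hF : MeasurableSet F)
    (r j : Fin (N + 2)) :
    ∫⁻ x : Fin (N + 2) → X in {x | x r ∈ F}, ∏ i, nk w (a i) (x i) (x (i + 1))
      ∂(Measure.pi fun _ => μ) ≤ μ F * ∏ i, ((if i = j then C₁ i else Cp i : ℝ≥0) : ℝ≥0∞) := by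
  classical
  refine loop_lint hN (Finset.univ.erase j) ?_ _ (fun i => nk_meas hw (ha i).meas)
    (fun i => if i = j then C₁ i else Cp i) (fun i hi => ?_) (fun i hi => ?_) hF r
  · rw [Finset.card_erase_of_mem (Finset.mem_univ j), Finset.card_univ, Fintype.card_fin]
    rfl
  · rw [if_neg (Finset.ne_of_mem_erase hi)]
    exact (ha i).np
  · have hij : i = j := by
      by_contra h
      exact hi (Finset.mem_erase.mpr ⟨h, Finset.mem_univ i⟩)
    rw [if_pos hij]
    exact (ha i).n1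

/-- `N + 1 + k` kernels of the class `KB`, those outside `J` measured in `L^1` -/
theorem KB.loopJ {N : ℕ} (hN : 0 < N) (hw : Measurable (Function.uncurry w)) {n : ℕ}
    (J : Finset (Fin (n + 1))) (hJ : J.card = N + 1)
    {a : Fin (n + 1) → X → X → E} {C₁ Cp : Fin (n + 1) → ℝ≥0}
    (ha : ∀ i, KB μ w (((N : ℝ) + 1) / N) (a i) (C₁ i) (Cp i)) {F : Set X} (hF : MeasurableSet F)
    (r : Fin (n + 1)) :
    ∫⁻ x : Fin (n + 1) → X in {x | x r ∈ F}, ∏ i, nk w (a i) (x i) (x (i + 1))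
      ∂(Measure.pi fun _ => μ) ≤ μ F * ∏ i, ((if i ∈ J then Cp i else C₁ i : ℝ≥0) : ℝ≥0∞) := by
  classical
  refine loop_lint hN J hJ _ (fun i => nk_meas hw (ha i).meas)
    (fun i => if i ∈ J then Cp i else C₁ i) (fun i hi => ?_) (fun i hi => ?_) hF r
  · rw [if_pos hi]
    exact (ha i).np
  · rw [if_neg hi]
    exact (ha i).n1

end Pool.Agent.Lib.MP_df705a_gt.SV
end
end

section

/-!
# SV, block T: products of kernels around closed paths
-/

noncomputable section

namespace Pool.Agent.Lib.MP_df705a_gt.SV.TB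

variable {X : Type*} {A : Type*}

theorem loop_rotate [NormedRing A] {B : Type*} {τ : A → B} (hτ : ∀ b c, τ (b * c) = τ (c * b)) {n : ℕ}
    (a : Fin (n + 1) → X → X → A) (x : Fin (n + 1) → X) :
    τ (loop (fun i => a (i + 1)) (fun i => x (i + 1))) = τ (loop a x) := by
  have h1 : loop a x = a 0 (x 0) (x (0 + 1)) *
      (List.ofFn fun i : Fin n => a i.succ (x i.succ) (x (i.succ + 1))).prod := by
    unfold loop
    rw [List.ofFn_succ, List.prod_cons]
  have h2 : loop (fun i => a (i + 1)) (fun i => x (i + 1)) =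
      (List.ofFn fun i : Fin n => a i.succ (x i.succ) (x (i.succ + 1))).prod *
        a 0 (x 0) (x (0 + 1)) := by
    unfold loop
    rw [List.ofFn_succ', List.concat_eq_append, List.prod_append, List.prod_singleton]
    simp only [Fin.coeSucc_eq_succ, Fin.last_add_one]
  rw [h1, h2]
  exact hτ _ _

/-- The last two factors of a product around a closed path. -/
theorem loop_last_two [NormedRing A] {n : ℕ} (a : Fin (n + 2) → X → X → A) (y : Fin (n + 1) → X)
    (z : X) : loop a (Fin.snoc y z : Fin (n + 2) → X) =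
      (List.ofFn fun i : Fin n => a i.castSucc.castSucc (y i.castSucc) (y (i.castSucc + 1))).prod *
        (a (Fin.last n).castSucc (y (Fin.last n)) z * a (Fin.last (n + 1)) z (y 0)) := by
  unfold loop
  rw [List.ofFn_succ', List.concat_eq_append, List.prod_append, List.prod_singleton,
    List.ofFn_succ', List.concat_eq_append, List.prod_append, List.prod_singleton, mul_assoc]
  congr 1
  · congr 2
    funext i
    have h1 : (i.castSucc.castSucc + 1 : Fin (n + 2)) = (i.castSucc + 1 : Fin (n + 1)).castSucc := by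
      rw [Fin.coeSucc_eq_succ, Fin.coeSucc_eq_succ]
      rfl
    rw [h1, Fin.snoc_castSucc, Fin.snoc_castSucc]
  · rw [Fin.snoc_castSucc, Fin.coeSucc_eq_succ, Fin.succ_last, Fin.snoc_last, Fin.last_add_one,
      show (0 : Fin (n + 2)) = (0 : Fin (n + 1)).castSucc from rfl, Fin.snoc_castSucc]

/-- The last factor of a product around a closed path. -/
theorem loop_last [NormedRing A] {n : ℕ} (a : Fin (n + 1) → X → X → A) (y : Fin (n + 1) → X) :
    loop a y = (List.ofFn fun i : Fin n => a i.castSucc (y i.castSucc) (y (i.castSucc + 1))).prod *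
      a (Fin.last n) (y (Fin.last n)) (y 0) := by
  unfold loop
  rw [List.ofFn_succ', List.concat_eq_append, List.prod_append, List.prod_singleton,
    Fin.last_add_one]

/-- The product around a closed path is multilinear in the kernels. -/
theorem loop_eq_mkPi (R : Type*) [CommSemiring R] [NormedRing A] [Algebra R A] {n : ℕ}
    (a : Fin (n + 1) → X → X → A) (x : Fin (n + 1) → X) :
    loop a x = MultilinearMap.mkPiAlgebraFin R (n + 1) A (fun i => a i (x i) (x (i + 1))) := by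
  rw [MultilinearMap.mkPiAlgebraFin_apply]
  rfl

theorem loop_update_add [NormedRing A] {n : ℕ} [DecidableEq (Fin (n + 1))]
    (a : Fin (n + 1) → X → X → A) (j : Fin (n + 1)) (b c : X → X → A) (x : Fin (n + 1) → X) :
    loop (Function.update a j (b + c)) x =
      loop (Function.update a j b) x + loop (Function.update a j c) x := by
  have h : ∀ k : X → X → A, (fun i => Function.update a j k i (x i) (x (i + 1))) =
      Function.update (fun i => a i (x i) (x (i + 1))) j (k (x j) (x (j + 1))) := by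
    intro k
    funext i
    by_cases hi : i = j
    · subst hi
      rw [Function.update_self, Function.update_self]
    · rw [Function.update_of_ne hi, Function.update_of_ne hi]
  rw [loop_eq_mkPi ℕ, loop_eq_mkPi ℕ, loop_eq_mkPi ℕ, h, h, h, Pi.add_apply, Pi.add_apply,
    MultilinearMap.map_update_add]

theorem loop_update_smul {R : Type*} [CommSemiring R] [NormedRing A] [Algebra R A] {n : ℕ}
    [DecidableEq (Fin (n + 1))] (a : Fin (n + 1) → X → X → A) (j : Fin (n + 1)) (s : R)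
    (b : X → X → A) (x : Fin (n + 1) → X) :
    loop (Function.update a j (s • b)) x = s • loop (Function.update a j b) x := by
  have h : ∀ k : X → X → A, (fun i => Function.update a j k i (x i) (x (i + 1))) =
      Function.update (fun i => a i (x i) (x (i + 1))) j (k (x j) (x (j + 1))) := by
    intro k
    funext i
    by_cases hi : i = j
    · subst hi
      rw [Function.update_self, Function.update_self]
    · rw [Function.update_of_ne hi, Function.update_of_ne hi]
  rw [loop_eq_mkPi R, loop_eq_mkPi R, h, h, Pi.smul_apply, Pi.smul_apply,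
    MultilinearMap.map_update_smul]

/-- A constant between two factors may be moved from the right of the last factor to the left of the
first. -/
theorem loop_move [NormedRing A] {B : Type*} {τ : A → B} (hτ : ∀ b c, τ (b * c) = τ (c * b)) {n : ℕ}
    (a : Fin (n + 1) → X → X → A) (e : A) (x : Fin (n + 1) → X) :
    τ (loop (Function.update a (Fin.last n) (fun u v => a (Fin.last n) u v * e)) x) =
      τ (loop (Function.update a 0 (fun u v => e * a 0 u v)) x) := by
  have h1 : loop (Function.update a (Fin.last n) (fun u v => a (Fin.last n) u v * e)) x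
      = loop a x * e := by
    rw [loop_last, loop_last, Function.update_self, ← mul_assoc]
    have : (fun i : Fin n => Function.update a (Fin.last n)
        (fun u v => a (Fin.last n) u v * e) i.castSucc (x i.castSucc) (x (i.castSucc + 1))) =
        fun i : Fin n => a i.castSucc (x i.castSucc) (x (i.castSucc + 1)) := by
      funext i
      rw [Function.update_of_ne (Fin.castSucc_lt_last i).ne]
    rw [this]
  have h2 : loop (Function.update a 0 (fun u v => e * a 0 u v)) x = e * loop a x := by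
    have h : ∀ b : Fin (n + 1) → X → X → A, loop b x = b 0 (x 0) (x (0 + 1)) *
        (List.ofFn fun i : Fin n => b i.succ (x i.succ) (x (i.succ + 1))).prod := by
      intro b
      unfold loop
      rw [List.ofFn_succ, List.prod_cons]
    rw [h, h, Function.update_self, mul_assoc]
    have : (fun i : Fin n => Function.update a 0 (fun u v => e * a 0 u v) i.succ (x i.succ)
        (x (i.succ + 1))) = fun i : Fin n => a i.succ (x i.succ) (x (i.succ + 1)) := by
      funext i
      rw [Function.update_of_ne (Fin.succ_ne_zero i)]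
    rw [this]
  rw [h1, h2]
  exact hτ _ _

end Pool.Agent.Lib.MP_df705a_gt.SV.TB
end
end

section

/-!
# SV, block T: null sets of pairs, merging the last variable
-/

set_option linter.unusedSectionVars false
set_option linter.unusedVariables false

open MeasureTheory

noncomputable section

namespace Pool.Agent.Lib.MP_df705a_gt.SV.TB

variable {X : Type*} [MeasurableSpace X] {μ : Measure X} [SigmaFinite μ]

/-- Two coordinates: a property of almost all pairs holds for almost all points of the product. -/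
theorem pair_ae {n : ℕ} {i j : Fin (n + 1)} (hij : i ≠ j) {P : X × X → Prop}
    (h : ∀ᵐ p ∂(μ.prod μ), P p) :
    ∀ᵐ x ∂(Measure.pi fun _ : Fin (n + 1) => μ), P (x i, x j) := by
  obtain ⟨k, rfl⟩ := Fin.exists_succAbove_eq hij.symm
  have hmp := (measurePreserving_piFinSuccAbove (fun _ : Fin (n + 1) => μ) i).quasiMeasurePreserving
  have h2 : Measure.QuasiMeasurePreserving
      (Prod.map (id : X → X) (fun y : Fin n → X => y k))
      (μ.prod (Measure.pi fun _ : Fin n => μ)) (μ.prod μ) :=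
    QuasiMeasurePreserving.prodMap (Measure.QuasiMeasurePreserving.id μ)
      (Measure.quasiMeasurePreserving_eval _ k)
  have h3 := (h2.comp hmp).ae h
  filter_upwards [h3] with x hx
  exact hx

variable {A : Type*} [NormedRing A] [NormedAlgebra ℂ A]

/-- The product around a closed path depends only on the classes of the kernels. -/
theorem loop_ae {n : ℕ} {a b : Fin (n + 2) → X → X → A}
    (h : ∀ i, ∀ᵐ p : X × X ∂(μ.prod μ), a i p.1 p.2 = b i p.1 p.2) :
    ∀ᵐ x ∂(Measure.pi fun _ : Fin (n + 2) => μ), loop a x = loop b x := by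
  have h1 : ∀ i : Fin (n + 2), ∀ᵐ x ∂(Measure.pi fun _ : Fin (n + 2) => μ),
      a i (x i) (x (i + 1)) = b i (x i) (x (i + 1)) := by
    intro i
    have hij : i ≠ i + 1 := by
      intro hi
      have h2 : (1 : Fin (n + 2)) = 0 := by
        have := hi
        rwa [left_eq_add] at this
      exact absurd h2 (by simp)
    exact pair_ae hij (h i)
  filter_upwards [ae_all_iff.2 h1] with x hx
  unfold loop
  congr 2
  funext i
  exact hx i

/-- Merging the last variable. -/
theorem integral_merge {n : ℕ} {E : Type*} [NormedAddCommGroup E] [NormedSpace ℝ E]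
    [CompleteSpace E] {F : Set X} (Φ : (Fin (n + 2) → X) → E)
    (hint : IntegrableOn Φ {x : Fin (n + 2) → X | x 0 ∈ F} (Measure.pi fun _ => μ))
    (hF : MeasurableSet F) :
    ∫ x in {x : Fin (n + 2) → X | x 0 ∈ F}, Φ x ∂(Measure.pi fun _ => μ) =
      ∫ y in {y : Fin (n + 1) → X | y 0 ∈ F}, (∫ z, Φ (Fin.snoc y z) ∂μ)
        ∂(Measure.pi fun _ => μ) := by
  have hmp := (measurePreserving_piFinSuccAbove (fun _ : Fin (n + 2) => μ) (Fin.last (n + 1)))
  have hemb := (MeasurableEquiv.piFinSuccAbove (fun _ : Fin (n + 2) => X)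
    (Fin.last (n + 1))).measurableEmbedding
  have hset : {x : Fin (n + 2) → X | x 0 ∈ F} =
      (MeasurableEquiv.piFinSuccAbove (fun _ : Fin (n + 2) => X) (Fin.last (n + 1))) ⁻¹'
        (Set.univ ×ˢ {y : Fin (n + 1) → X | y 0 ∈ F}) := by
    ext x
    simp only [Set.mem_setOf_eq, Set.mem_preimage, Set.mem_prod, Set.mem_univ, true_and]
    rfl
  have hfun : Φ = fun x => (fun p : X × (Fin (n + 1) → X) => Φ (Fin.snoc p.2 p.1))
      ((MeasurableEquiv.piFinSuccAbove (fun _ : Fin (n + 2) => X) (Fin.last (n + 1))) x) := by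
    funext x
    show Φ x = Φ (Fin.snoc (fun j => x ((Fin.last (n + 1)).succAbove j)) (x (Fin.last (n + 1))))
    congr 1
    have : (fun j => x ((Fin.last (n + 1)).succAbove j)) = Fin.init x := by
      funext j
      rw [Fin.succAbove_last]
      rfl
    rw [this, Fin.snoc_init_self]
  have hint' : IntegrableOn (fun p : X × (Fin (n + 1) → X) => Φ (Fin.snoc p.2 p.1))
      (Set.univ ×ˢ {y : Fin (n + 1) → X | y 0 ∈ F}) (μ.prod (Measure.pi fun _ => μ)) := by
    rw [hfun, hset] at hint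
    exact (hmp.integrableOn_comp_preimage hemb).1 hint
  conv_lhs => rw [hfun, hset]
  rw [hmp.setIntegral_preimage_emb hemb (fun p : X × (Fin (n + 1) → X) => Φ (Fin.snoc p.2 p.1)) _]
  rw [IntegrableOn, ← Measure.prod_restrict, Measure.restrict_univ] at hint'
  rw [← Measure.prod_restrict, Measure.restrict_univ, integral_prod_symm _ hint']

end Pool.Agent.Lib.MP_df705a_gt.SV.TB
end
end

section

/-!
# SV, Q4: interpolation of weights and series of kernels
-/

open MeasureTheory Filter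
open scoped ENNReal NNReal Topology

set_option autoImplicit false
set_option linter.unusedSectionVars false

noncomputable section

namespace Pool.Agent.Lib.MP_df705a_gt.SV

variable {X : Type*} [MeasurableSpace X] {μ : Measure X}

/-! ## Interpolation -/

/-- Hölder between the weights `1` and `w`. -/
theorem NB.interp {K L : X → X → ℝ≥0∞} (hK : Measurable (Function.uncurry K))
    (hL : Measurable (Function.uncurry L)) {c C : ℝ≥0} (h1 : NB μ 1 K c) (h2 : NB μ 1 L C)
    {θ : ℝ} (hθ0 : 0 ≤ θ) (hθ1 : θ ≤ 1) :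
    NB μ 1 (fun x y => K x y ^ (1 - θ) * L x y ^ θ) (c ^ (1 - θ) * C ^ θ) := by
  have h0 : 0 ≤ 1 - θ := by linarith
  have key : ∀ f g : X → ℝ≥0∞, Measurable f → Measurable g → ∫⁻ y, f y ^ (1 : ℝ) ∂μ ≤ (c : ℝ≥0∞) ^ (1 : ℝ) →
      ∫⁻ y, g y ^ (1 : ℝ) ∂μ ≤ (C : ℝ≥0∞) ^ (1 : ℝ) →
      ∫⁻ y, (f y ^ (1 - θ) * g y ^ θ) ^ (1 : ℝ) ∂μ
        ≤ ((c ^ (1 - θ) * C ^ θ : ℝ≥0) : ℝ≥0∞) ^ (1 : ℝ) := by
    intro f g hf hg e1 e2
    simp only [ENNReal.rpow_one] at e1 e2 ⊢
    refine (ENNReal.lintegral_mul_norm_pow_le hf.aemeasurable hg.aemeasurable h0 hθ0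
      (by ring)).trans ?_
    rw [ENNReal.coe_mul, ENNReal.coe_rpow_of_nonneg _ h0, ENNReal.coe_rpow_of_nonneg _ hθ0]
    gcongr
  have mK1 : ∀ x, Measurable fun y => K x y := fun x => hK.comp (measurable_const.prodMk measurable_id)
  have mL1 : ∀ x, Measurable fun y => L x y := fun x => hL.comp (measurable_const.prodMk measurable_id)
  have mK2 : ∀ y, Measurable fun x => K x y := fun x => hK.comp (measurable_id.prodMk measurable_const)
  have mL2 : ∀ y, Measurable fun x => L x y := fun x => hL.comp (measurable_id.prodMk measurable_const)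
  refine ⟨?_, ?_⟩
  · filter_upwards [h1.1, h2.1] with x h3 h4
    exact key _ _ (mK1 x) (mL1 x) h3 h4
  · filter_upwards [h1.2, h2.2] with x h3 h4
    exact key _ _ (mK2 x) (mL2 x) h3 h4

theorem Wt.rpow {w : X → X → ℝ} (hw : Wt w) {θ : ℝ} (hθ : 0 ≤ θ) : Wt fun x y => w x y ^ θ where
  meas := hw.meas.pow_const θ
  one := fun x y => Real.one_le_rpow (hw.one x y) hθ
  sub := fun x y z => by
    rw [← Real.mul_rpow (zero_le_one.trans (hw.one _ _)) (zero_le_one.trans (hw.one _ _))]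
    exact Real.rpow_le_rpow (zero_le_one.trans (hw.one _ _)) (hw.sub x y z) hθ

variable {E : Type*} [NormedRing E] [NormedAlgebra ℝ E] {w : X → X → ℝ} {a : X → X → E}
  {p : ℝ} {A₁ Ap : ℝ≥0}

/-- The bound with the weight `w^θ`. -/
theorem nb_interp (hw : Wt w) (ha : StronglyMeasurable (Function.uncurry a)) {c C : ℝ≥0}
    (h1 : NB μ 1 (fun x y => ‖a x y‖ₑ) c) (h2 : NB μ 1 (nk w a) C) {θ : ℝ} (hθ0 : 0 ≤ θ)
    (hθ1 : θ ≤ 1) : NB μ 1 (nk (fun x y => w x y ^ θ) a) (c ^ (1 - θ) * C ^ θ) := by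
  refine (NB.interp ha.enorm (nk_meas hw.meas ha) h1 h2 hθ0 hθ1).mono zero_le_one fun x y => ?_
  have h0 : 0 ≤ 1 - θ := by linarith
  have e1 : ‖a x y‖ₑ = ‖a x y‖ₑ ^ (1 - θ) * ‖a x y‖ₑ ^ θ := by
    rw [← ENNReal.rpow_add_of_nonneg _ _ h0 hθ0]
    norm_num
  refine le_of_eq ?_
  unfold nk
  rw [ENNReal.mul_rpow_of_nonneg _ _ hθ0, ← ENNReal.ofReal_rpow_of_nonneg
    (zero_le_one.trans (hw.one _ _)) hθ0]
  calc ENNReal.ofReal (w x y) ^ θ * ‖a x y‖ₑ
      = ENNReal.ofReal (w x y) ^ θ * (‖a x y‖ₑ ^ (1 - θ) * ‖a x y‖ₑ ^ θ) := by rw [← e1]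
    _ = _ := by ring

/-! ## Infinite sums -/

/-- Minkowski for infinite sums. -/
theorem NB.tsum [SFinite μ] {K : ℕ → X → X → ℝ≥0∞} (hK : ∀ j, Measurable (Function.uncurry (K j)))
    (hp : 1 ≤ p) {C : ℕ → ℝ≥0} {D : ℝ≥0} (h : ∀ j, NB μ p (K j) (C j))
    (hD : ∀ n, ∑ j ∈ Finset.range n, C j ≤ D) : NB μ p (fun x y => ∑' j, K j x y) D := by
  have p0 : 0 < p := by linarith
  have hn : ∀ n, NB μ p (fun x y => ∑ j ∈ Finset.range n, K j x y) D := by
    intro n
    have h1 : NB μ p (fun x y => ∑ j ∈ Finset.range n, K j x y) (∑ j ∈ Finset.range n, C j) ∧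
        Measurable (Function.uncurry fun x y => ∑ j ∈ Finset.range n, K j x y) := by
      induction n with
      | zero =>
        simp only [Finset.range_zero, Finset.sum_empty]
        refine ⟨⟨Eventually.of_forall fun x => ?_, Eventually.of_forall fun x => ?_⟩,
          measurable_const⟩
        · simp only [ENNReal.zero_rpow_of_pos p0, lintegral_zero]
          exact zero_le
        · simp only [ENNReal.zero_rpow_of_pos p0, lintegral_zero]
          exact zero_le
      | succ n ih =>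
        simp only [Finset.sum_range_succ]
        exact ⟨ih.1.add ih.2 (hK n) hp (h n), ih.2.add (hK n)⟩
    exact h1.1.mono_const p0.le (hD n)
  have key : ∀ f : ℕ → X → ℝ≥0∞, (∀ j, Measurable (f j)) →
      (∀ n, ∫⁻ y, (∑ j ∈ Finset.range n, f j y) ^ p ∂μ ≤ (D : ℝ≥0∞) ^ p) →
      ∫⁻ y, (∑' j, f j y) ^ p ∂μ ≤ (D : ℝ≥0∞) ^ p := by
    intro f hf hfn
    have e1 : ∀ y, (∑' j, f j y) ^ p = ⨆ n, (∑ j ∈ Finset.range n, f j y) ^ p := by
      intro y
      rw [ENNReal.tsum_eq_iSup_nat]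
      exact (ENNReal.orderIsoRpow p p0).map_iSup _
    simp_rw [e1]
    rw [lintegral_iSup]
    · exact iSup_le hfn
    · intro n
      exact (Finset.measurable_fun_sum _ fun j _ => hf j).pow_const p
    · intro n k hnk y
      exact ENNReal.rpow_le_rpow (Finset.sum_le_sum_of_subset (Finset.range_mono hnk)) p0.le
  refine ⟨?_, ?_⟩
  · filter_upwards [ae_all_iff.2 fun n => (hn n).1] with x hx
    exact key _ (fun j => (hK j).comp (measurable_const.prodMk measurable_id)) hx
  · filter_upwards [ae_all_iff.2 fun n => (hn n).2] with x hx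
    exact key _ (fun j => (hK j).comp (measurable_id.prodMk measurable_const)) hx

open Classical in
/-- The sum of a series of kernels. -/
def ksum (a : ℕ → X → X → E) (x y : X) : E :=
  if ∑' j, ‖a j x y‖ₑ < ∞ then ∑' j, a j x y else 0

theorem summable_of_tsum_enorm [CompleteSpace E] {f : ℕ → E} (h : ∑' j, ‖f j‖ₑ < ∞) :
    Summable f := by
  refine Summable.of_norm ?_
  have h1 : ∑' j, ENNReal.ofReal ‖f j‖ ≠ ∞ := by
    simp only [ofReal_norm]
    exact h.ne
  exact (ENNReal.summable_toReal h1).congr fun j => by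
    rw [ENNReal.toReal_ofReal (norm_nonneg _)]

theorem enorm_ksum_le [CompleteSpace E] (a : ℕ → X → X → E) (x y : X) :
    ‖ksum a x y‖ₑ ≤ ∑' j, ‖a j x y‖ₑ := by
  unfold ksum
  split_ifs with h
  · exact enorm_tsum_le_tsum_enorm
  · rw [enorm_zero]
    exact zero_le

theorem measurableSet_ksum {a : ℕ → X → X → E} (ha : ∀ j, StronglyMeasurable (Function.uncurry (a j))) :
    MeasurableSet {t : X × X | ∑' j, ‖a j t.1 t.2‖ₑ < ∞} := by
  refine measurableSet_lt (Measurable.tsum fun j => ?_) measurable_const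
  exact (ha j).enorm

theorem ksum_meas [CompleteSpace E] {a : ℕ → X → X → E}
    (ha : ∀ j, StronglyMeasurable (Function.uncurry (a j))) :
    StronglyMeasurable (Function.uncurry (ksum a)) := by
  set S : Set (X × X) := {t : X × X | ∑' j, ‖a j t.1 t.2‖ₑ < ∞} with hS
  have hSm : MeasurableSet S := measurableSet_ksum ha
  refine stronglyMeasurable_of_tendsto (u := atTop)
    (f := fun n : ℕ => S.indicator fun t : X × X => ∑ j ∈ Finset.range n, a j t.1 t.2) ?_ ?_
  · intro n
    exact (Finset.stronglyMeasurable_fun_sum _ fun j _ => ha j).indicator hSm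
  · rw [tendsto_pi_nhds]
    intro t
    by_cases ht : t ∈ S
    · simp only [Set.indicator_of_mem ht]
      have h1 : Function.uncurry (ksum a) t = ∑' j, a j t.1 t.2 := if_pos ht
      rw [h1]
      exact (summable_of_tsum_enorm ht).hasSum.tendsto_sum_nat
    · simp only [Set.indicator_of_notMem ht]
      have h1 : Function.uncurry (ksum a) t = 0 := if_neg ht
      rw [h1]
      exact tendsto_const_nhds

/-- The bounds for the sum of a series of kernels. -/
theorem KB.ksum [SFinite μ] [CompleteSpace E] (hw : Wt w) (hp : 1 ≤ p) {a : ℕ → X → X → E}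
    {A P : ℕ → ℝ≥0} (h : ∀ j, KB μ w p (a j) (A j) (P j)) {D₁ Dp : ℝ≥0}
    (h1 : ∀ n, ∑ j ∈ Finset.range n, A j ≤ D₁) (h2 : ∀ n, ∑ j ∈ Finset.range n, P j ≤ Dp) :
    KB μ w p (SV.ksum a) D₁ Dp := by
  have hle : ∀ x y, nk w (SV.ksum a) x y ≤ ∑' j, nk w (a j) x y := by
    intro x y
    unfold nk
    rw [ENNReal.tsum_mul_left]
    gcongr
    exact enorm_ksum_le a x y
  have hm := fun j => nk_meas hw.meas (h j).meas
  exact ⟨ksum_meas fun j => (h j).meas,
    (NB.tsum hm le_rfl (fun j => (h j).n1) h1).mono zero_le_one hle,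
    (NB.tsum hm hp (fun j => (h j).np) h2).mono (by linarith) hle⟩

end Pool.Agent.Lib.MP_df705a_gt.SV
end
end

section

/-!
# SV, L6a: the Neumann series of kernels
-/

open scoped ContDiff InnerProductSpace Matrix ENNReal NNReal Topology Real
open MeasureTheory Filter Set

noncomputable section

set_option linter.unusedSectionVars false

namespace Pool.Agent.Lib.MP_df705a_gt.SV

variable {X : Type*} [MeasurableSpace X] {μ : Measure X} {E : Type*} [NormedRing E]
  [NormedAlgebra ℝ E] {w : X → X → ℝ} {p : ℝ}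

/-- `(-e)^j k` -/
def neuT (μ : Measure X) (e k : X → X → E) : ℕ → X → X → E
  | 0 => k
  | j + 1 => comp μ (fun x y => - e x y) (neuT μ e k j)

/-- `∑_j (-e)^j k` -/
def neu (μ : Measure X) (e k : X → X → E) : X → X → E := ksum (neuT μ e k)

theorem KB_neuT [SFinite μ] (hw : Wt w) (hp : 1 ≤ p) {e k : X → X → E} {E₁ Ep K₁ Kp : ℝ≥0}
    (he : KB μ w p e E₁ Ep) (hk : KB μ w p k K₁ Kp) (j : ℕ) :
    KB μ w p (neuT μ e k j) (E₁ ^ j * K₁) (E₁ ^ j * Kp) := by
  induction j with
  | zero =>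
    rw [pow_zero, one_mul, one_mul]
    exact hk
  | succ j ih =>
    have h := KB.comp hw hp he.neg ih
    rw [pow_succ', mul_assoc, mul_assoc]
    exact h

private theorem L6a_geom (n : ℕ) :
    ∑ j ∈ Finset.range n, (1 / 2 : ℝ≥0) ^ j + 2 * (1 / 2 : ℝ≥0) ^ n = 2 := by
  induction n with
  | zero => simp
  | succ n ih =>
    rw [Finset.sum_range_succ]
    have e : 2 * (1 / 2 : ℝ≥0) ^ (n + 1) = (1 / 2 : ℝ≥0) ^ n := by
      rw [pow_succ']
      rw [← mul_assoc]
      rw [mul_one_div_cancel (two_ne_zero), one_mul]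
    rw [e, add_assoc, ← two_mul]
    exact ih

private theorem L6a_sum {r : ℝ≥0} (h : r ≤ 1 / 2) (n : ℕ) : ∑ j ∈ Finset.range n, r ^ j ≤ 2 := by
  calc ∑ j ∈ Finset.range n, r ^ j ≤ ∑ j ∈ Finset.range n, (1 / 2 : ℝ≥0) ^ j :=
        Finset.sum_le_sum fun j _ => pow_le_pow_left' h j
    _ ≤ ∑ j ∈ Finset.range n, (1 / 2 : ℝ≥0) ^ j + 2 * (1 / 2 : ℝ≥0) ^ n := le_self_add
    _ = 2 := L6a_geom n

private theorem L6a_sum' {r : ℝ≥0} (h : r ≤ 1 / 2) (K : ℝ≥0) (n : ℕ) :
    ∑ j ∈ Finset.range n, r ^ j * K ≤ 2 * K := by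
  rw [← Finset.sum_mul]
  exact mul_le_mul_left (L6a_sum h n) K

/-- PROOF. `KB.ksum` (Q4), geometric series with ratio `≤ 1/2`. -/
theorem KB_neu [SFinite μ] [CompleteSpace E] (hw : Wt w) (hp : 1 ≤ p) {e k : X → X → E}
    {E₁ Ep K₁ Kp : ℝ≥0} (he : KB μ w p e E₁ Ep) (hk : KB μ w p k K₁ Kp) (h1 : E₁ ≤ 1 / 2) :
    KB μ w p (neu μ e k) (2 * K₁) (2 * Kp) :=
  KB.ksum hw hp (fun j => KB_neuT hw hp he hk j) (L6a_sum' h1 K₁) (L6a_sum' h1 Kp)

private theorem L6a_fin [SFinite μ] (hw : Wt w) (hp : 1 ≤ p) {e k : X → X → E}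
    {E₁ Ep K₁ Kp : ℝ≥0} (he : KB μ w p e E₁ Ep) (hk : KB μ w p k K₁ Kp) (h1 : E₁ ≤ 1 / 2) :
    ∀ᵐ q ∂μ.prod μ, ∑' j, ‖neuT μ e k j q.1 q.2‖ₑ < (⊤ : ℝ≥0∞) := by
  have hT := fun j => KB_neuT hw hp he hk j
  have hm := fun j => nk_meas hw.meas (hT j).meas
  have h2 := NB.tsum hm le_rfl (fun j => (hT j).n1) (L6a_sum' h1 K₁)
  have hm2 : Measurable (Function.uncurry fun x y => ∑' j, nk w (neuT μ e k j) x y) :=
    Measurable.tsum fun j => hm j
  filter_upwards [h2.ae_lt_top hm2 one_pos] with q hq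
  refine lt_of_le_of_lt (ENNReal.tsum_le_tsum fun j => ?_) hq
  unfold nk
  calc ‖neuT μ e k j q.1 q.2‖ₑ = 1 * ‖neuT μ e k j q.1 q.2‖ₑ := (one_mul _).symm
    _ ≤ _ := by
      gcongr
      rw [ENNReal.one_le_ofReal]
      exact hw.one _ _

/-- PROOF. Almost everywhere the series converges absolutely (`NB.tsum`, `NB.ae_lt_top`), and there `neu - k` is the sum of the terms
with `j ≥ 1`: `KB.ksum` for `j ↦ neuT (j + 1)`, `KB.congr_ae`. -/
theorem KB_neu_sub [SFinite μ] [CompleteSpace E] (hw : Wt w) (hp : 1 ≤ p) {e k : X → X → E}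
    {E₁ Ep K₁ Kp : ℝ≥0} (he : KB μ w p e E₁ Ep) (hk : KB μ w p k K₁ Kp) (h1 : E₁ ≤ 1 / 2) :
    KB μ w p (fun x y => neu μ e k x y - k x y) (2 * E₁ * K₁) (2 * E₁ * Kp) := by
  have hT := fun j => KB_neuT hw hp he hk j
  have hs : ∀ (K : ℝ≥0) (n : ℕ), ∑ j ∈ Finset.range n, E₁ ^ (j + 1) * K ≤ 2 * E₁ * K := by
    intro K n
    have e1 : ∀ j, E₁ ^ (j + 1) * K = E₁ ^ j * (E₁ * K) := fun j => by
      rw [pow_succ, mul_assoc]
    simp only [e1]
    rw [mul_assoc]
    exact L6a_sum' h1 _ n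
  have h2 : KB μ w p (SV.ksum fun j => neuT μ e k (j + 1)) (2 * E₁ * K₁) (2 * E₁ * Kp) :=
    KB.ksum hw hp (fun j => hT (j + 1)) (hs K₁) (hs Kp)
  refine h2.congr_ae (zero_le_one.trans hp) ((KB_neu hw hp he hk h1).meas.sub hk.meas) ?_
  filter_upwards [L6a_fin hw hp he hk h1] with q hq
  have hsum := summable_of_tsum_enorm hq
  have hq' : ∑' j, ‖neuT μ e k (j + 1) q.1 q.2‖ₑ < (⊤ : ℝ≥0∞) := by
    refine lt_of_le_of_lt ?_ hq
    rw [tsum_eq_zero_add' ENNReal.summable (f := fun j => ‖neuT μ e k j q.1 q.2‖ₑ)]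
    exact le_add_self
  have e1 : neu μ e k q.1 q.2 = ∑' j, neuT μ e k j q.1 q.2 := if_pos hq
  have e2 : SV.ksum (fun j => neuT μ e k (j + 1)) q.1 q.2 = ∑' j, neuT μ e k (j + 1) q.1 q.2 :=
    if_pos hq'
  rw [e2]
  change neu μ e k q.1 q.2 - k q.1 q.2 = _
  rw [e1, hsum.tsum_eq_zero_add]
  change k q.1 q.2 + _ - k q.1 q.2 = _
  rw [add_sub_cancel_left]

/-- Almost everywhere equality with the unconditional sum. -/
theorem neu_ae [SFinite μ] [CompleteSpace E] (hw : Wt w) (hp : 1 ≤ p) {e k : X → X → E}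
    {E₁ Ep K₁ Kp : ℝ≥0} (he : KB μ w p e E₁ Ep) (hk : KB μ w p k K₁ Kp) (h1 : E₁ ≤ 1 / 2) :
    ∀ᵐ q ∂μ.prod μ, neu μ e k q.1 q.2 = ∑' j, neuT μ e k j q.1 q.2 := by
  filter_upwards [L6a_fin hw hp he hk h1] with q hq
  exact if_pos hq

end Pool.Agent.Lib.MP_df705a_gt.SV
end
end

section

/-!
# SV, O0: operators on `L²` and kernels, definitions
-/

open scoped ENNReal NNReal Topology InnerProductSpace
open MeasureTheory Filter Set

noncomputable section

namespace Pool.Agent.Lib.MP_df705a_gt.SV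

variable {V E : Type*} [MeasurableSpace V] {μ : Measure V} [NormedAddCommGroup E]
  [InnerProductSpace ℂ E]

/-- The operator `T` on `L²(V; E)` has the kernel `k`: `(T u)(x) = ∫ k(x, y) u(y) dy`. -/
def IsKer (μ : Measure V) (T : Lp E 2 μ →L[ℂ] Lp E 2 μ) (k : V → V → E →L[ℂ] E) : Prop :=
  ∀ u : Lp E 2 μ, ∀ᵐ x ∂μ, T u x = ∫ y, k x y (u y) ∂μ

/-- Row and column bounds in `L¹`. -/
structure KB1 (μ : Measure V) (k : V → V → E →L[ℂ] E) (c : ℝ≥0) : Prop where
  meas : StronglyMeasurable (Function.uncurry k)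
  n1 : NB μ 1 (fun x y => ‖k x y‖ₑ) c

end Pool.Agent.Lib.MP_df705a_gt.SV
end
end
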