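import Pool.Agent.Lib.MP_df705a_gt.Mg.G074
import Pool.Agent.Lib.MP_df705a_gt.Mg.G072
import Pool.Agent.Lib.MP_df705a_gt.Mg.G048
import Pool.Agent.Lib.MP_df705a_gt.Mg.G030

section

/-!
# SV, block T: the homotopy
-/

set_option linter.unusedSectionVars false
set_option linter.unusedVariables false

open MeasureTheory

noncomputable section

namespace Pool.Agent.Lib.MP_df705a_gt.SV.TB

variable {X : Type*} [MeasurableSpace X] {μ : Measure X} [SigmaFinite μ]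
  {G : Type*} [Group G] {act : G → X → X} {F : Set X}
  {A : Type*} [NormedRing A] [NormedAlgebra ℂ A] [CompleteSpace A]
  {τ : A →L[ℂ] ℂ} {n : ℕ}

/-- The functional as a multilinear map on the space of kernels. -/
def TM {φ : (Fin (n + 1) → X) → ℝ} {𝒦 : Submodule ℂ (X → X → A)} (h𝒦 : KAlg μ act F τ φ 𝒦) :
    MultilinearMap ℂ (fun _ : Fin (n + 1) => 𝒦) ℂ where
  toFun a := TT μ τ F φ (fun i => (a i : X → X → A))
  map_update_add' := by
    intro inst m i x y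
    obtain rfl : inst = (fun a b => instDecidableEqFin (n + 1) a b) := Subsingleton.elim _ _
    have h : ∀ z : 𝒦, (fun j => (Function.update m i z j : X → X → A)) =
        Function.update (fun j => (m j : X → X → A)) i (z : X → X → A) := by
      intro z
      funext j
      by_cases hj : j = i
      · subst hj
        rw [Function.update_self, Function.update_self]
      · rw [Function.update_of_ne hj, Function.update_of_ne hj]
    rw [h, h, h, Submodule.coe_add]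
    exact TT_add h𝒦 (fun j => (m j).2) i x.2 y.2
  map_update_smul' := by
    intro inst m i s x
    obtain rfl : inst = (fun a b => instDecidableEqFin (n + 1) a b) := Subsingleton.elim _ _
    have h : ∀ z : 𝒦, (fun j => (Function.update m i z j : X → X → A)) =
        Function.update (fun j => (m j : X → X → A)) i (z : X → X → A) := by
      intro z
      funext j
      by_cases hj : j = i
      · subst hj
        rw [Function.update_self, Function.update_self]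
      · rw [Function.update_of_ne hj, Function.update_of_ne hj]
    rw [h, h, Submodule.coe_smul, smul_eq_mul]
    exact TT_smul i s (x : X → X → A)

/-- The bounds of kernels which are needed for the homotopy. -/
structure KNb (μ : Measure X) (F : Set X) (τ : A →L[ℂ] ℂ) {n : ℕ} (φ : (Fin (n + 1) → X) → ℝ)
    (𝒦 : Submodule ℂ (X → X → A)) (e : A) (nb : (X → X → A) → ℝ → Prop) : Prop where
  bound : ∃ C : ℝ, 0 ≤ C ∧ ∀ (a : Fin (n + 1) → X → X → A) (c : Fin (n + 1) → ℝ),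
    (∀ i, a i ∈ 𝒦) → (∀ i, nb (a i) (c i)) → ‖TT μ τ F φ a‖ ≤ C * ∏ i, c i
  nonneg : ∀ {a c}, nb a c → 0 ≤ c
  mono : ∀ {a c d}, nb a c → c ≤ d → nb a d
  sub : ∀ {a b c d}, a ∈ 𝒦 → b ∈ 𝒦 → nb a c → nb b d → nb (a - b) (c + d)
  smul : ∀ {a c} (z : ℂ), a ∈ 𝒦 → nb a c → nb (z • a) (‖z‖ * c)
  comp : ∀ {a b c d}, a ∈ 𝒦 → b ∈ 𝒦 → nb a c → nb b d → nb (comp μ a b) (c * d)
  lm : ∃ C : ℝ, 0 ≤ C ∧ ∀ {a c}, a ∈ 𝒦 → nb a c → nb (lm e a) (C * c)
  congr : ∀ {a b c}, nb a c → b ∈ 𝒦 → (∀ᵐ p : X × X ∂(μ.prod μ), a p.1 p.2 = b p.1 p.2) → nb b c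

theorem TM_sub {φ : (Fin (n + 1) → X) → ℝ} {𝒦 : Submodule ℂ (X → X → A)}
    (h𝒦 : KAlg μ act F τ φ 𝒦) {nb : (X → X → A) → ℝ → Prop} {C : ℝ} (hC : 0 ≤ C)
    (hb : ∀ (a : Fin (n + 1) → X → X → A) (c : Fin (n + 1) → ℝ),
      (∀ i, a i ∈ 𝒦) → (∀ i, nb (a i) (c i)) → ‖TT μ τ F φ a‖ ≤ C * ∏ i, c i)
    {a b : Fin (n + 1) → 𝒦} {M δ : ℝ} (ha : ∀ i, nb (a i) M) (hb' : ∀ i, nb (b i) M)
    (hd : ∀ i, nb ((a i : X → X → A) - (b i : X → X → A)) δ) :
    ‖TM h𝒦 a - TM h𝒦 b‖ ≤ (n + 1) * (C * (δ * M ^ n)) := by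
  have h1 := (TM h𝒦).map_sub_map_piecewise a b Finset.univ
  rw [Finset.piecewise_univ] at h1
  rw [h1]
  refine (norm_sum_le _ _).trans ?_
  have h2 : ∀ i ∈ (Finset.univ : Finset (Fin (n + 1))), ‖TM h𝒦 (fun j ↦ if j ∈ Finset.univ → j < i
      then a j else if i = j then a j - b j else b j)‖ ≤ C * (δ * M ^ n) := by
    intro i _
    refine (hb _ (fun j => if j = i then δ else M) (fun j => Subtype.coe_prop _) fun j => ?_).trans
      (le_of_eq ?_)
    · by_cases h : j < i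
      · rw [if_pos fun _ => h, if_neg h.ne]
        exact ha j
      · rw [if_neg fun h' => h (h' (Finset.mem_univ _))]
        by_cases h' : i = j
        · rw [if_pos h', if_pos h'.symm]
          exact hd j
        · rw [if_neg h', if_neg (fun h => h' h.symm)]
          exact hb' j
    · congr 1
      rw [Fin.prod_univ_succAbove _ i, if_pos rfl]
      congr 1
      rw [Finset.prod_congr rfl fun k _ => if_neg (Fin.succAbove_ne i k), Finset.prod_const,
        Finset.card_univ, Fintype.card_fin]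
  refine (Finset.sum_le_sum h2).trans (le_of_eq ?_)
  rw [Finset.sum_const, Finset.card_univ, Fintype.card_fin, nsmul_eq_mul]
  push_cast
  ring

theorem TT_rotate_iter (hD : Dom μ act F) [Countable G] {φ : (Fin (n + 1) → X) → ℝ}
    (hφ : Coc act φ) {𝒦 : Submodule ℂ (X → X → A)} (h𝒦 : KAlg μ act F τ φ 𝒦)
    (hτ : ∀ b c, τ (b * c) = τ (c * b)) (j : Fin (n + 1)) :
    ∀ a : Fin (n + 1) → X → X → A, (∀ i, a i ∈ 𝒦) →
    TT μ τ F φ (fun i => a (i + j)) = TT μ τ F φ a := by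
  refine Fin.induction ?_ (fun j ih => ?_) j
  · intro a ha
    simp only [add_zero]
  · intro a ha
    have h1 := ih (fun i => a (i + 1)) (fun i => ha _)
    rw [TT_rotate hD hφ h𝒦 hτ ha] at h1
    rw [← h1]
    congr 1
    funext i
    show a (i + j.succ) = a (i + j.castSucc + 1)
    rw [add_assoc, Fin.coeSucc_eq_succ]

/-- The value of the functional on `r, …, r, u, r, …, r` does not depend on the place of `u`. -/
theorem TT_place (hD : Dom μ act F) [Countable G] {φ : (Fin (n + 1) → X) → ℝ}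
    (hφ : Coc act φ) {𝒦 : Submodule ℂ (X → X → A)} (h𝒦 : KAlg μ act F τ φ 𝒦)
    (hτ : ∀ b c, τ (b * c) = τ (c * b)) {r u : X → X → A} (hr : r ∈ 𝒦) (hu : u ∈ 𝒦)
    (i j : Fin (n + 1)) :
    TT μ τ F φ (Function.update (fun _ => r) i u) =
      TT μ τ F φ (Function.update (fun _ => r) j u) := by
  have hm : ∀ i k : Fin (n + 1), Function.update (fun _ : Fin (n + 1) => r) i u k ∈ 𝒦 := by
    intro i k
    by_cases hi : k = i
    · subst hi
      rw [Function.update_self]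
      exact hu
    · rw [Function.update_of_ne hi]
      exact hr
  rw [← TT_rotate_iter hD hφ h𝒦 hτ (i - j) _ (hm i)]
  congr 1
  funext k
  by_cases hk : k = j
  · subst hk
    rw [Function.update_self, add_sub_cancel, Function.update_self]
  · have : k + (i - j) ≠ i := by
      intro h
      apply hk
      have h2 : k + (i - j) = j + (i - j) := by rw [h, add_sub_cancel]
      exact add_right_cancel h2
    rw [Function.update_of_ne this, Function.update_of_ne hk]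

/-- The second order estimate. -/
theorem TT_second_order (hN : Even (n + 1)) (hD : Dom μ act F) [Countable G]
    {φ : (Fin (n + 2) → X) → ℝ} (hφ : Coc act φ) {𝒦 : Submodule ℂ (X → X → A)}
    (h𝒦 : KAlg μ act F τ φ 𝒦) (hτ : ∀ b c, τ (b * c) = τ (c * b)) {e : A} (he : e * e = 1)
    (hl : ∀ k ∈ 𝒦, lm e k ∈ 𝒦) (hrm : ∀ k ∈ 𝒦, rm k e ∈ 𝒦)
    {nb : (X → X → A) → ℝ → Prop} (hnb : KNb μ F τ φ 𝒦 e nb) {α M : ℝ} (hα : 0 < α)
    (hM : 0 ≤ M) :
    ∃ C : ℝ, 0 ≤ C ∧ ∀ (r : ℝ → X → X → A) (t s : ℝ), α ≤ s → r t ∈ 𝒦 → r s ∈ 𝒦 →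
      nb (r t) M → nb (r s) M →
      (∀ᵐ p : X × X ∂(μ.prod μ), comp μ (r t) (r t) p.1 p.2 =
        (1 / 2 : ℂ) • (e * r t p.1 p.2 + r t p.1 p.2 * e)) →
      (∀ᵐ p : X × X ∂(μ.prod μ), (s : ℂ) • (r t p.1 p.2 - r s p.1 p.2) =
        ((s - t : ℝ) : ℂ) • (r t p.1 p.2 - comp μ (r t) (lm e (r s)) p.1 p.2)) →
      ‖TT μ τ F φ (fun _ => r t) - TT μ τ F φ (fun _ => r s)‖ ≤ C * |t - s| ^ 2 := by
  obtain ⟨C0, hC0, hb⟩ := hnb.bound
  obtain ⟨E, hE, hlm⟩ := hnb.lm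
  -- constants
  set M1 : ℝ := M + M * (E * M) with hM1
  set L : ℝ := M1 / α with hL
  set L2 : ℝ := M * (E * L) + L with hL2
  have hM1' : 0 ≤ M1 := by positivity
  have hL' : 0 ≤ L := by positivity
  have hL2' : 0 ≤ L2 := by positivity
  refine ⟨(n + 2) * (α⁻¹ * ((n + 2) * (C0 * (L2 * (M + M1) ^ (n + 1))))), by positivity, ?_⟩
  intro r t s hs htK hsK ht hs' h1 h2
  have hs0 : 0 < s := hα.trans_le hs
  have hsC : (s : ℂ) ≠ 0 := by exact_mod_cast hs0.ne'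
  -- the kernels
  set u : X → X → A := r t - comp μ (r t) (lm e (r s)) with hu
  set v : X → X → A := r t - comp μ (r t) (lm e (r t)) with hv
  have huK : u ∈ 𝒦 := 𝒦.sub_mem htK (h𝒦.comp _ htK _ (hl _ hsK))
  have hvK : v ∈ 𝒦 := 𝒦.sub_mem htK (h𝒦.comp _ htK _ (hl _ htK))
  have hun : nb u M1 :=
    hnb.sub htK (h𝒦.comp _ htK _ (hl _ hsK)) ht (hnb.comp htK (hl _ hsK) ht (hlm hsK hs'))
  have hvn : nb v M1 :=
    hnb.sub htK (h𝒦.comp _ htK _ (hl _ htK)) ht (hnb.comp htK (hl _ htK) ht (hlm htK ht))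
  -- the difference of the resolvents
  have hd0 : ∀ᵐ p : X × X ∂(μ.prod μ), (((s : ℂ)⁻¹ * ((s - t : ℝ) : ℂ)) • u) p.1 p.2 =
      (r t - r s) p.1 p.2 := by
    filter_upwards [h2] with p hp
    show ((s : ℂ)⁻¹ * ((s - t : ℝ) : ℂ)) • (r t p.1 p.2 - comp μ (r t) (lm e (r s)) p.1 p.2) =
      r t p.1 p.2 - r s p.1 p.2
    rw [mul_smul, ← hp, smul_smul, inv_mul_cancel₀ hsC, one_smul]
  have hdn : nb (r t - r s) (L * |t - s|) := by
    have h3 := hnb.congr (hnb.smul ((s : ℂ)⁻¹ * ((s - t : ℝ) : ℂ)) huK hun)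
      (𝒦.sub_mem htK hsK) hd0
    refine hnb.mono h3 ?_
    rw [norm_mul, norm_inv, Complex.norm_real, Complex.norm_real, Real.norm_eq_abs,
      Real.norm_eq_abs, abs_of_pos hs0, abs_sub_comm s t, hL]
    have h4 : s⁻¹ ≤ α⁻¹ := inv_anti₀ hα hs
    calc s⁻¹ * |t - s| * M1 ≤ α⁻¹ * |t - s| * M1 := by gcongr
      _ = M1 / α * |t - s| := by ring
  have hdn' : nb (r s - r t) (L * |t - s|) := by
    have h3 := hnb.smul (-1 : ℂ) (𝒦.sub_mem htK hsK) hdn
    rw [norm_neg, norm_one, one_mul, neg_smul, one_smul, neg_sub] at h3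
    exact h3
  -- the difference of u and v
  have huv : nb (u - v) (L2 * |t - s|) := by
    have h3 : nb (comp μ (r t) (lm e (r t - r s))) (M * (E * (L * |t - s|))) :=
      hnb.comp htK (hl _ (𝒦.sub_mem htK hsK)) ht (hlm (𝒦.sub_mem htK hsK) hdn)
    have h4 : ∀ᵐ p : X × X ∂(μ.prod μ), comp μ (r t) (lm e (r t - r s)) p.1 p.2 =
        (u - v) p.1 p.2 := by
      filter_upwards [h𝒦.cint (r t) htK (lm e (r t)) (hl _ htK),
        h𝒦.cint (r t) htK (lm e (r s)) (hl _ hsK)] with p hp1 hp2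
      have h5 : comp μ (r t) (lm e (r t - r s)) p.1 p.2 =
          comp μ (r t) (lm e (r t)) p.1 p.2 - comp μ (r t) (lm e (r s)) p.1 p.2 := by
        unfold comp
        rw [← integral_sub hp1 hp2]
        congr 1
        funext z
        show r t p.1 z * (e * (r t z p.2 - r s z p.2)) =
          r t p.1 z * (e * r t z p.2) - r t p.1 z * (e * r s z p.2)
        rw [mul_sub, mul_sub]
      rw [h5]
      show _ = (r t p.1 p.2 - comp μ (r t) (lm e (r s)) p.1 p.2) -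
        (r t p.1 p.2 - comp μ (r t) (lm e (r t)) p.1 p.2)
      abel
    refine hnb.mono (hnb.congr h3 (𝒦.sub_mem huK hvK) h4) ?_
    have h5 : 0 ≤ L * |t - s| := by positivity
    rw [hL2]
    nlinarith
  have hLL : L * |t - s| ≤ L2 * |t - s| := by
    have : L ≤ L2 := by
      rw [hL2]
      have : 0 ≤ M * (E * L) := by positivity
      linarith
    gcongr
  have hMM : M ≤ M + M1 := by linarith
  have hMM1 : M1 ≤ M + M1 := by linarith
  -- the multilinear form at v vanishes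
  have hvan : ∀ i : Fin (n + 2), TT μ τ F φ (Function.update (fun _ => r t) i v) = 0 := by
    intro i
    rw [TT_place hD hφ h𝒦 hτ htK hvK i (Fin.last (n + 1))]
    have h5 : v = r t + (-1 : ℂ) • comp μ (r t) (lm e (r t)) := by
      rw [hv, neg_smul, one_smul, sub_eq_add_neg]
    rw [h5, TT_add h𝒦 (fun _ => htK) _ htK (𝒦.smul_mem _ (h𝒦.comp _ htK _ (hl _ htK))),
      TT_smul, TT_eps hN hD hφ h𝒦 hτ he hl hrm htK h1, Function.update_eq_self
      (f := fun _ : Fin (n + 2) => r t)]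
    ring
  -- the telescoping sum
  let a : Fin (n + 2) → 𝒦 := fun _ => ⟨r t, htK⟩
  let b : Fin (n + 2) → 𝒦 := fun _ => ⟨r s, hsK⟩
  have htel := (TM h𝒦).map_sub_map_piecewise a b Finset.univ
  rw [Finset.piecewise_univ] at htel
  change ‖TM h𝒦 a - TM h𝒦 b‖ ≤ _
  rw [htel]
  refine (norm_sum_le _ _).trans ?_
  have hterm : ∀ i ∈ (Finset.univ : Finset (Fin (n + 2))),
      ‖TM h𝒦 (fun j ↦ if j ∈ Finset.univ → j < i then a j else if i = j then a j - b j else b j)‖ ≤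
        α⁻¹ * ((n + 2) * (C0 * (L2 * (M + M1) ^ (n + 1)))) * |t - s| ^ 2 := by
    intro i _
    let P : 𝒦 → Fin (n + 2) → 𝒦 := fun w j =>
      if j < i then ⟨r t, htK⟩ else if j = i then w else ⟨r s, hsK⟩
    let Q : Fin (n + 2) → 𝒦 := fun j => if j = i then ⟨v, hvK⟩ else ⟨r t, htK⟩
    have hP : ∀ w : 𝒦, P w = Function.update (P 0) i w := by
      intro w
      funext j
      by_cases hj : j = i
      · subst hj
        rw [Function.update_self]
        simp only [P, lt_irrefl, if_false, if_true]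
      · rw [Function.update_of_ne hj]
        simp only [P, if_neg hj]
    have h5 : (fun j ↦ if j ∈ Finset.univ → j < i then a j else if i = j then a j - b j else b j) =
        P (⟨r t, htK⟩ - ⟨r s, hsK⟩) := by
      funext j
      by_cases h : j < i
      · simp only [P]
        rw [if_pos fun _ => h, if_pos h]
      · rw [if_neg fun h' => h (h' (Finset.mem_univ _))]
        simp only [P]
        rw [if_neg h]
        by_cases h' : i = j
        · rw [if_pos h', if_pos h'.symm]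
        · rw [if_neg h', if_neg (fun h => h' h.symm)]
    have h6 : TM h𝒦 (P (⟨r t, htK⟩ - ⟨r s, hsK⟩)) =
        ((s : ℂ)⁻¹ * ((s - t : ℝ) : ℂ)) * TM h𝒦 (P ⟨u, huK⟩) := by
      rw [hP ⟨u, huK⟩, ← smul_eq_mul, ← (TM h𝒦).map_update_smul, ← hP]
      show TT μ τ F φ _ = TT μ τ F φ _
      apply TT_congr
      intro j
      by_cases hj : j < i
      · simp only [P, if_pos hj]
        exact Filter.Eventually.of_forall fun _ => trivial
      · by_cases hj' : j = i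
        · subst hj'
          simp only [P, lt_irrefl, if_false, if_true]
          filter_upwards [hd0] with p hp
          exact hp.symm
        · simp only [P, if_neg hj, if_neg hj']
          exact Filter.Eventually.of_forall fun _ => trivial
    have h7 : TM h𝒦 Q = 0 := by
      show TT μ τ F φ _ = 0
      rw [← hvan i]
      congr 1
      funext j
      by_cases hj : j = i
      · subst hj
        simp only [Q, if_true, Function.update_self]
      · simp only [Q, if_neg hj, Function.update_of_ne hj]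
    have h8 : ‖TM h𝒦 (P ⟨u, huK⟩)‖ ≤
        ((n + 1 : ℕ) + 1) * (C0 * (L2 * |t - s| * (M + M1) ^ (n + 1))) := by
      have h9 : TM h𝒦 (P ⟨u, huK⟩) = TM h𝒦 (P ⟨u, huK⟩) - TM h𝒦 Q := by rw [h7, sub_zero]
      rw [h9]
      refine TM_sub h𝒦 hC0 hb (fun j => ?_) (fun j => ?_) fun j => ?_
      · by_cases hj : j < i
        · simp only [P, if_pos hj]
          exact hnb.mono ht hMM
        · by_cases hj' : j = i
          · simp only [P, if_neg hj, if_pos hj']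
            exact hnb.mono hun hMM1
          · simp only [P, if_neg hj, if_neg hj']
            exact hnb.mono hs' hMM
      · by_cases hj' : j = i
        · simp only [Q, if_pos hj']
          exact hnb.mono hvn hMM1
        · simp only [Q, if_neg hj']
          exact hnb.mono ht hMM
      · have h10 : nb (0 : X → X → A) 0 := by
          have := hnb.smul (0 : ℂ) htK ht
          rw [zero_smul, norm_zero, zero_mul] at this
          exact this
        by_cases hj : j < i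
        · simp only [P, Q, if_pos hj, if_neg hj.ne]
          rw [sub_self]
          exact hnb.mono h10 (by positivity)
        · by_cases hj' : j = i
          · simp only [P, Q, if_neg hj, if_pos hj']
            exact huv
          · simp only [P, Q, if_neg hj, if_neg hj']
            exact hnb.mono hdn' hLL
    rw [h5, h6, norm_mul, norm_mul, norm_inv, Complex.norm_real, Complex.norm_real,
      Real.norm_eq_abs, Real.norm_eq_abs, abs_of_pos hs0, abs_sub_comm s t]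
    have h11 : s⁻¹ ≤ α⁻¹ := inv_anti₀ hα hs
    calc s⁻¹ * |t - s| * ‖TM h𝒦 (P ⟨u, huK⟩)‖ ≤
        α⁻¹ * |t - s| * (((n + 1 : ℕ) + 1) * (C0 * (L2 * |t - s| * (M + M1) ^ (n + 1)))) := by
          gcongr
      _ = α⁻¹ * ((n + 2) * (C0 * (L2 * (M + M1) ^ (n + 1)))) * |t - s| ^ 2 := by
          push_cast
          ring
  refine (Finset.sum_le_sum hterm).trans (le_of_eq ?_)
  rw [Finset.sum_const, Finset.card_univ, Fintype.card_fin, nsmul_eq_mul]
  push_cast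
  ring

/-- The functional is constant along the family. -/
theorem TT_const (hN : Even (n + 1)) (hD : Dom μ act F) [Countable G]
    {φ : (Fin (n + 2) → X) → ℝ} (hφ : Coc act φ) {𝒦 : Submodule ℂ (X → X → A)}
    (h𝒦 : KAlg μ act F τ φ 𝒦) (hτ : ∀ b c, τ (b * c) = τ (c * b)) {e : A} (he : e * e = 1)
    (hl : ∀ k ∈ 𝒦, lm e k ∈ 𝒦) (hrm : ∀ k ∈ 𝒦, rm k e ∈ 𝒦)
    {nb : (X → X → A) → ℝ → Prop} (hnb : KNb μ F τ φ 𝒦 e nb) {r : ℝ → X → X → A}
    {I : Set ℝ} (hI : IsOpen I) (hIc : IsPreconnected I) (hI0 : ∀ t ∈ I, 0 < t)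
    (hr : ∀ t ∈ I, r t ∈ 𝒦)
    (hbd : ∀ t ∈ I, ∃ δ > 0, ∃ M : ℝ, ∀ s ∈ I, |s - t| < δ → nb (r s) M)
    (h1 : ∀ t ∈ I, ∀ᵐ p : X × X ∂(μ.prod μ), comp μ (r t) (r t) p.1 p.2 =
        (1 / 2 : ℂ) • (e * r t p.1 p.2 + r t p.1 p.2 * e))
    (h2 : ∀ t ∈ I, ∀ s ∈ I, ∀ᵐ p : X × X ∂(μ.prod μ), (s : ℂ) • (r t p.1 p.2 - r s p.1 p.2) =
        ((s - t : ℝ) : ℂ) • (r t p.1 p.2 - comp μ (r t) (lm e (r s)) p.1 p.2))
    {t s : ℝ} (ht : t ∈ I) (hs : s ∈ I) :
    TT μ τ F φ (fun _ => r t) = TT μ τ F φ (fun _ => r s) := by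
  have hder : ∀ t ∈ I, HasDerivAt (fun t => TT μ τ F φ (fun _ => r t)) 0 t := by
    intro t ht
    obtain ⟨δ, hδ, M, hM⟩ := hbd t ht
    have hM0 : 0 ≤ M := hnb.nonneg (hM t ht (by simpa using hδ))
    obtain ⟨C, hC, hest⟩ := TT_second_order hN hD hφ h𝒦 hτ he hl hrm hnb
      (half_pos (hI0 t ht)) hM0
    rw [hasDerivAt_iff_isLittleO]
    have hO : (fun s => TT μ τ F φ (fun _ => r s) - TT μ τ F φ (fun _ => r t) -
        (s - t) • (0 : ℂ)) =O[nhds t] fun s => (s - t) ^ 2 := by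
      refine Asymptotics.IsBigO.of_bound C ?_
      have hn1 : ∀ᶠ s in nhds t, s ∈ I := hI.mem_nhds ht
      have hn2 : ∀ᶠ s in nhds t, |s - t| < min δ (t / 2) := by
        have := Metric.ball_mem_nhds t (lt_min hδ (half_pos (hI0 t ht)))
        filter_upwards [this] with s hs
        rwa [Metric.mem_ball, Real.dist_eq] at hs
      filter_upwards [hn1, hn2] with s hs hs2
      have h3 : |s - t| < δ := hs2.trans_le (min_le_left _ _)
      have h4 : |s - t| < t / 2 := hs2.trans_le (min_le_right _ _)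
      rw [smul_zero, sub_zero, Real.norm_eq_abs, abs_pow]
      exact hest r s t (by linarith [hI0 t ht]) (hr s hs) (hr t ht) (hM s hs h3)
        (hM t ht (by simpa using hδ)) (h1 s hs) (h2 s hs t ht)
    refine hO.trans_isLittleO ?_
    have h5 : (fun s : ℝ => (s - t) ^ 2) =o[nhds t] fun s => (s - t) ^ 1 := by
      have h6 : Filter.Tendsto (fun s : ℝ => s - t) (nhds t) (nhds 0) := by
        have h7 : ContinuousAt (fun s : ℝ => s - t) t := by fun_prop
        have h8 := h7.tendsto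
        rwa [sub_self] at h8
      exact (Asymptotics.isLittleO_pow_pow (𝕜 := ℝ) (m := 1) (n := 2) (by norm_num)).comp_tendsto h6
    simpa using h5
  exact hI.is_const_of_deriv_eq_zero hIc
    (fun t ht => (hder t ht).differentiableAt.differentiableWithinAt)
    (fun t ht => (hder t ht).deriv) ht hs

end Pool.Agent.Lib.MP_df705a_gt.SV.TB
end
end

section

/-!
# SV, block T: verification of the hypotheses for equivariant kernels with bounds
-/

set_option linter.unusedSectionVars false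
set_option linter.unusedVariables false

open MeasureTheory
open scoped ENNReal NNReal

noncomputable section

namespace Pool.Agent.Lib.MP_df705a_gt.SV.TB

variable {X : Type*} [MeasurableSpace X] {μ : Measure X} [SigmaFinite μ]
  {G : Type*} [Group G] {act : G → X → X} {F : Set X}
  {A : Type*} [NormedRing A] [NormedAlgebra ℂ A] [CompleteSpace A]
  {τ : A →L[ℂ] ℂ} {n : ℕ} {U U' : G → X → A} {e : A} {w : X → X → ℝ}

/-- The exponent. -/
abbrev pT (n : ℕ) : ℝ := (((n + 1 : ℕ) : ℝ) + 1) / ((n + 1 : ℕ) : ℝ)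

theorem one_le_pT (n : ℕ) : 1 ≤ pT n := K_one_le (Nat.succ_pos n)

theorem pT_pos (n : ℕ) : 0 < pT n := K_pos (Nat.succ_pos n)

theorem enorm_loop_le {m : ℕ} (a : Fin (m + 1) → X → X → A) (x : Fin (m + 1) → X) :
    ‖loop a x‖ₑ ≤ ∏ i, ‖a i (x i) (x (i + 1))‖ₑ := by
  have h1 : ‖loop a x‖₊ ≤ ∏ i, ‖a i (x i) (x (i + 1))‖₊ := by
    unfold loop
    have h2 : (List.ofFn fun i => a i (x i) (x (i + 1))) ≠ [] := by
      rw [List.ofFn_succ]
      exact List.cons_ne_nil _ _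
    refine (List.nnnorm_prod_le' h2).trans (le_of_eq ?_)
    rw [List.map_ofFn, List.prod_ofFn]
    rfl
  have h3 : ((‖loop a x‖₊ : ℝ≥0) : ℝ≥0∞) ≤ ((∏ i, ‖a i (x i) (x (i + 1))‖₊ : ℝ≥0) : ℝ≥0∞) := by
    exact_mod_cast h1
  rw [ENNReal.coe_finset_prod] at h3
  exact h3

theorem enorm_tau_loop_le {m : ℕ} (τ : A →L[ℂ] ℂ) (hw1 : ∀ x y, 1 ≤ w x y)
    (a : Fin (m + 1) → X → X → A) (x : Fin (m + 1) → X) {c : ℝ} {f : ℝ} (hc : 0 ≤ c)
    (hf : |f| ≤ c * ∏ i, w (x i) (x (i + 1))) :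
    ‖(f : ℂ) * τ (loop a x)‖ₑ ≤
      ENNReal.ofReal c * ‖τ‖ₑ * ∏ i, nk w (a i) (x i) (x (i + 1)) := by
  rw [enorm_mul]
  have h1 : ‖(f : ℂ)‖ₑ ≤ ENNReal.ofReal c * ∏ i, ENNReal.ofReal (w (x i) (x (i + 1))) := by
    rw [← ENNReal.ofReal_prod_of_nonneg (fun i _ => zero_le_one.trans (hw1 _ _)),
      ← ENNReal.ofReal_mul hc, ← ofReal_norm_eq_enorm, Complex.norm_real, Real.norm_eq_abs]
    exact ENNReal.ofReal_le_ofReal hf
  have h2 : ‖τ (loop a x)‖ₑ ≤ ‖τ‖ₑ * ∏ i, ‖a i (x i) (x (i + 1))‖ₑ := by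
    refine (τ.le_opNorm_enorm _).trans ?_
    gcongr
    exact enorm_loop_le a x
  calc ‖(f : ℂ)‖ₑ * ‖τ (loop a x)‖ₑ ≤
      (ENNReal.ofReal c * ∏ i, ENNReal.ofReal (w (x i) (x (i + 1)))) *
        (‖τ‖ₑ * ∏ i, ‖a i (x i) (x (i + 1))‖ₑ) := by gcongr
    _ = ENNReal.ofReal c * ‖τ‖ₑ * ∏ i, nk w (a i) (x i) (x (i + 1)) := by
        unfold nk
        rw [Finset.prod_mul_distrib]
        ring

theorem loop_sm {m : ℕ} {a : Fin (m + 1) → X → X → A}
    (ha : ∀ i, StronglyMeasurable (Function.uncurry (a i))) :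
    StronglyMeasurable (loop a) := by
  unfold loop
  have h : ∀ (k : ℕ) (f : Fin k → (Fin (m + 1) → X) → A), (∀ i, StronglyMeasurable (f i)) →
      StronglyMeasurable fun x => (List.ofFn fun i => f i x).prod := by
    intro k
    induction k with
    | zero =>
      intro f _
      simp only [List.ofFn_zero, List.prod_nil]
      exact stronglyMeasurable_const
    | succ k ih =>
      intro f hf
      simp only [List.ofFn_succ, List.prod_cons]
      exact (hf 0).mul (ih (fun i => f i.succ) fun i => hf _)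
  refine h _ (fun i x => a i (x i) (x (i + 1))) fun i => ?_
  have h1 : Measurable fun x : Fin (m + 1) → X => (x i, x (i + 1)) :=
    (measurable_pi_apply i).prodMk (measurable_pi_apply (i + 1))
  exact (ha i).comp_measurable h1

/-- The bound of the cocycle by the weight. -/
structure PhiB (w : X → X → ℝ) {n : ℕ} (φ : (Fin (n + 1) → X) → ℝ) (c : ℝ) : Prop where
  meas : Measurable φ
  nonneg : 0 ≤ c
  le : ∀ x, |φ x| ≤ c * ∏ i, w (x i) (x (i + 1))

theorem lint_TT_le (hw : Wt w) (hF : MeasurableSet F) {φ : (Fin (n + 2) → X) → ℝ} {c : ℝ}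
    (hφ : PhiB w φ c) {a : Fin (n + 2) → X → X → A} {C₁ Cp : Fin (n + 2) → ℝ≥0}
    (ha : ∀ i, KB μ w (pT n) (a i) (C₁ i) (Cp i)) :
    ∫⁻ x in {x : Fin (n + 2) → X | x 0 ∈ F}, ‖(φ x : ℂ) * τ (loop a x)‖ₑ
      ∂(Measure.pi fun _ => μ) ≤ ENNReal.ofReal c * ‖τ‖ₑ * (μ F * ∏ i, (Cp i : ℝ≥0∞)) := by
  calc _ ≤ ∫⁻ x in {x : Fin (n + 2) → X | x 0 ∈ F}, ENNReal.ofReal c * ‖τ‖ₑ *
        ∏ i, nk w (a i) (x i) (x (i + 1)) ∂(Measure.pi fun _ => μ) :=
        lintegral_mono fun x => enorm_tau_loop_le τ hw.one a x hφ.nonneg (hφ.le x)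
    _ = ENNReal.ofReal c * ‖τ‖ₑ * ∫⁻ x in {x : Fin (n + 2) → X | x 0 ∈ F},
        ∏ i, nk w (a i) (x i) (x (i + 1)) ∂(Measure.pi fun _ => μ) := by
        rw [lintegral_const_mul']
        exact ENNReal.mul_ne_top ENNReal.ofReal_ne_top enorm_ne_top
    _ ≤ _ := by
        gcongr
        exact KB.loop (Nat.succ_pos n) hw.meas ha hF 0

theorem int1_KB (hw : Wt w) (hF : MeasurableSet F) (hFt : μ F ≠ ∞) {φ : (Fin (n + 2) → X) → ℝ}
    {c : ℝ} (hφ : PhiB w φ c) {a : Fin (n + 2) → X → X → A} {C₁ Cp : Fin (n + 2) → ℝ≥0}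
    (ha : ∀ i, KB μ w (pT n) (a i) (C₁ i) (Cp i)) :
    IntegrableOn (fun x => (φ x : ℂ) * τ (loop a x)) {x : Fin (n + 2) → X | x 0 ∈ F}
      (Measure.pi fun _ => μ) := by
  refine ⟨?_, ?_⟩
  · refine AEStronglyMeasurable.mul ?_ ?_
    · exact (Complex.measurable_ofReal.comp hφ.meas).aestronglyMeasurable
    · exact (τ.continuous.comp_stronglyMeasurable (loop_sm fun i => (ha i).meas)).aestronglyMeasurable
  · refine lt_of_le_of_lt (lint_TT_le hw hF hφ ha) ?_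
    refine ENNReal.mul_lt_top (ENNReal.mul_lt_top ENNReal.ofReal_lt_top enorm_lt_top)
      (ENNReal.mul_lt_top hFt.lt_top ?_)
    exact ENNReal.prod_lt_top fun i _ => ENNReal.coe_lt_top

theorem norm_TT_le (hw : Wt w) (hF : MeasurableSet F) (hFt : μ F ≠ ∞)
    {φ : (Fin (n + 2) → X) → ℝ} {c : ℝ} (hφ : PhiB w φ c) {a : Fin (n + 2) → X → X → A}
    {C₁ Cp : Fin (n + 2) → ℝ≥0} (ha : ∀ i, KB μ w (pT n) (a i) (C₁ i) (Cp i)) :
    ‖TT μ τ F φ a‖ ≤ c * ‖τ‖ * (μ F).toReal * ∏ i, (Cp i : ℝ) := by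
  have h1 : ‖TT μ τ F φ a‖ₑ ≤ ENNReal.ofReal c * ‖τ‖ₑ * (μ F * ∏ i, (Cp i : ℝ≥0∞)) :=
    (enorm_integral_le_lintegral_enorm _).trans (lint_TT_le hw hF hφ ha)
  have h2 : ENNReal.ofReal c * ‖τ‖ₑ * (μ F * ∏ i, (Cp i : ℝ≥0∞)) ≠ ∞ := by
    refine (ENNReal.mul_lt_top (ENNReal.mul_lt_top ENNReal.ofReal_lt_top enorm_lt_top)
      (ENNReal.mul_lt_top hFt.lt_top ?_)).ne
    exact ENNReal.prod_lt_top fun i _ => ENNReal.coe_lt_top
  have h3 := ENNReal.toReal_mono h2 h1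
  rw [toReal_enorm] at h3
  refine h3.trans (le_of_eq ?_)
  rw [ENNReal.toReal_mul, ENNReal.toReal_mul, ENNReal.toReal_mul, ENNReal.toReal_ofReal hφ.nonneg,
    toReal_enorm, ENNReal.toReal_prod]
  simp only [ENNReal.coe_toReal]
  ring

theorem prod_w_init (hw : Wt w) {m : ℕ} (x : Fin (m + 2) → X) :
    ∏ i : Fin (m + 1), w (Fin.init x i) (Fin.init x (i + 1)) ≤
      ∏ i : Fin (m + 2), w (x i) (x (i + 1)) := by
  rw [Fin.prod_univ_castSucc, Fin.prod_univ_castSucc (n := m + 1), Fin.prod_univ_castSucc]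
  simp only [Fin.init, Fin.coeSucc_eq_succ, Fin.last_add_one, Fin.succ_last]
  have h0 : (0 : Fin (m + 1)).castSucc = (0 : Fin (m + 2)) := rfl
  rw [h0, mul_assoc]
  have h1 : (∏ i : Fin m, w (x i.castSucc.castSucc) (x i.succ.castSucc)) =
      ∏ i : Fin m, w (x i.castSucc.castSucc) (x i.castSucc.succ) := rfl
  rw [h1]
  refine mul_le_mul_of_nonneg_left (hw.sub _ _ _) ?_
  exact Finset.prod_nonneg fun i _ => zero_le_one.trans (hw.one _ _)

theorem int2_KB (hw : Wt w) (hF : MeasurableSet F) (hFt : μ F ≠ ∞) {φ : (Fin (n + 2) → X) → ℝ}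
    {c : ℝ} (hφ : PhiB w φ c) {a : Fin (n + 3) → X → X → A} {C₁ Cp : Fin (n + 3) → ℝ≥0}
    (ha : ∀ i, KB μ w (pT n) (a i) (C₁ i) (Cp i)) :
    IntegrableOn (fun x => (φ (Fin.init x) : ℂ) * τ (loop a x)) {x : Fin (n + 3) → X | x 0 ∈ F}
      (Measure.pi fun _ => μ) := by
  have hle : ∀ x : Fin (n + 3) → X, |φ (Fin.init x)| ≤ c * ∏ i, w (x i) (x (i + 1)) := fun x =>
    (hφ.le _).trans (mul_le_mul_of_nonneg_left (prod_w_init hw x) hφ.nonneg)
  have hinit : Measurable (fun x : Fin (n + 3) → X => (Fin.init x : Fin (n + 2) → X)) :=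
    measurable_pi_lambda _ fun i => measurable_pi_apply _
  refine ⟨?_, ?_⟩
  · refine AEStronglyMeasurable.mul ?_ ?_
    · exact (Complex.measurable_ofReal.comp (hφ.meas.comp hinit)).aestronglyMeasurable
    · exact (τ.continuous.comp_stronglyMeasurable (loop_sm fun i => (ha i).meas)).aestronglyMeasurable
  · have h1 : ∫⁻ x in {x : Fin (n + 3) → X | x 0 ∈ F}, ‖(φ (Fin.init x) : ℂ) * τ (loop a x)‖ₑ
        ∂(Measure.pi fun _ => μ) ≤ ENNReal.ofReal c * ‖τ‖ₑ *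
        (μ F * ∏ i, ((if i = 0 then C₁ i else Cp i : ℝ≥0) : ℝ≥0∞)) := by
      calc _ ≤ ∫⁻ x in {x : Fin (n + 3) → X | x 0 ∈ F}, ENNReal.ofReal c * ‖τ‖ₑ *
            ∏ i, nk w (a i) (x i) (x (i + 1)) ∂(Measure.pi fun _ => μ) :=
            lintegral_mono fun x => enorm_tau_loop_le τ hw.one a x hφ.nonneg (hle x)
        _ = ENNReal.ofReal c * ‖τ‖ₑ * ∫⁻ x in {x : Fin (n + 3) → X | x 0 ∈ F},
            ∏ i, nk w (a i) (x i) (x (i + 1)) ∂(Measure.pi fun _ => μ) := by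
            rw [lintegral_const_mul']
            exact ENNReal.mul_ne_top ENNReal.ofReal_ne_top enorm_ne_top
        _ ≤ _ := by
            gcongr
            exact KB.loop1 (Nat.succ_pos n) hw.meas ha hF 0 0
    refine lt_of_le_of_lt h1 ?_
    refine ENNReal.mul_lt_top (ENNReal.mul_lt_top ENNReal.ofReal_lt_top enorm_lt_top)
      (ENNReal.mul_lt_top hFt.lt_top ?_)
    exact ENNReal.prod_lt_top fun i _ => ENNReal.coe_lt_top

/-- The class of equivariant kernels with bounds satisfies all requirements. -/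
theorem kAlg_KK (hD : Dom μ act F) (hFt : μ F ≠ ∞) (hw : Wt w) (hU : Gauge U U' e)
    (hτ : ∀ b c, τ (b * c) = τ (c * b)) {φ : (Fin (n + 2) → X) → ℝ} {c : ℝ}
    (hφ : PhiB w φ c) :
    KAlg μ act F τ φ (KK μ act U U' w hw (one_le_pT n)) where
  int1 a ha := by
    choose C Cp h using fun i => (ha i).1
    exact int1_KB hw hD.meas hFt hφ h
  int2 a ha := by
    choose C Cp h using fun i => (ha i).1
    exact int2_KB hw hD.meas hFt hφ h
  inv1 a ha γ := loop_inv hτ hU (fun i => (ha i).2) γ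
  inv2 a ha γ := loop_inv hτ hU (fun i => (ha i).2) γ
  comp := by
    rintro a ⟨⟨C, D, h1⟩, h2⟩ b ⟨⟨C', D', h1'⟩, h2'⟩
    exact ⟨⟨_, _, h1.comp hw (one_le_pT n) h1'⟩,
      h2.comp hD hU h2' (KB.ae_integrable hw h1 h1')⟩
  cint := by
    rintro a ⟨⟨C, D, h1⟩, h2⟩ b ⟨⟨C', D', h1'⟩, h2'⟩
    exact KB.ae_integrable hw h1 h1'

/-- `N_1(a) ≤ c` and `N_p(a) ≤ c`. -/
def nbd (μ : Measure X) (w : X → X → ℝ) (p : ℝ) (a : X → X → A) (c : ℝ) : Prop :=
  ∃ C₁ Cp : ℝ≥0, KB μ w p a C₁ Cp ∧ (C₁ : ℝ) ≤ c ∧ (Cp : ℝ) ≤ c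

theorem kNb_KK (hD : Dom μ act F) (hFt : μ F ≠ ∞) (hw : Wt w) (hU : Gauge U U' e)
    (hτ : ∀ b c, τ (b * c) = τ (c * b)) {φ : (Fin (n + 2) → X) → ℝ} {c : ℝ}
    (hφ : PhiB w φ c) :
    KNb μ F τ φ (KK μ act U U' w hw (one_le_pT n)) e
      (nbd μ w (pT n)) where
  bound := by
    refine ⟨c * ‖τ‖ * (μ F).toReal, by have := hφ.nonneg; positivity, ?_⟩
    intro a d ha hd
    choose C Cp h1 h2 h3 using hd
    refine (norm_TT_le hw hD.meas hFt hφ h1).trans ?_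
    have := hφ.nonneg
    gcongr with i _
    exact h3 i
  nonneg := by
    rintro a d ⟨C, Cp, h1, h2, h3⟩
    exact C.2.trans h2
  mono := by
    rintro a d d' ⟨C, Cp, h1, h2, h3⟩ h
    exact ⟨C, Cp, h1, h2.trans h, h3.trans h⟩
  sub := by
    rintro a b d d' _ _ ⟨C, Cp, h1, h2, h3⟩ ⟨C', Cp', h1', h2', h3'⟩
    refine ⟨C + C', Cp + Cp', h1.sub hw.meas (one_le_pT n) h1', ?_, ?_⟩
    · push_cast
      linarith
    · push_cast
      linarith
  smul := by
    rintro a d z _ ⟨C, Cp, h1, h2, h3⟩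
    refine ⟨‖z‖₊ * C, ‖z‖₊ * Cp, h1.smul hw.meas (pT_pos n).le z, ?_, ?_⟩
    · push_cast
      gcongr
    · push_cast
      gcongr
  comp := by
    rintro a b d d' _ _ ⟨C, Cp, h1, h2, h3⟩ ⟨C', Cp', h1', h2', h3'⟩
    have hd : 0 ≤ d := C.2.trans h2
    refine ⟨_, _, h1.comp hw (one_le_pT n) h1', ?_, ?_⟩
    · push_cast
      gcongr
    · push_cast
      gcongr
  lm := by
    refine ⟨‖e‖, norm_nonneg _, ?_⟩
    rintro a d _ ⟨C, Cp, h1, h2, h3⟩
    refine ⟨‖e‖₊ * C, ‖e‖₊ * Cp, h1.const_mul hw.meas (pT_pos n).le e, ?_, ?_⟩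
    · push_cast
      gcongr
    · push_cast
      gcongr
  congr := by
    rintro a b d ⟨C, Cp, h1, h2, h3⟩ ⟨⟨C', Cp', h4⟩, h5⟩ h6
    refine ⟨C, Cp, h1.congr_ae (pT_pos n).le h4.meas ?_, h2, h3⟩
    filter_upwards [h6] with p hp
    exact hp.symm

/-- The functional is constant along a family of equivariant kernels which satisfies the two
resolvent identities. -/
theorem TT_const_KB (hN : Even (n + 1)) (hD : Dom μ act F) [Countable G] (hFt : μ F ≠ ∞)
    (hw : Wt w) (hU : Gauge U U' e) (hτ : ∀ b c, τ (b * c) = τ (c * b)) (he : e * e = 1)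
    {φ : (Fin (n + 2) → X) → ℝ} {c : ℝ} (hφ : Coc act φ) (hφb : PhiB w φ c)
    {r : ℝ → X → X → A} {I : Set ℝ} (hI : IsOpen I) (hIc : IsPreconnected I)
    (hI0 : ∀ t ∈ I, 0 < t) (hre : ∀ t ∈ I, Equi μ act U U' (r t))
    (hbd : ∀ t ∈ I, ∃ δ > 0, ∃ C : ℝ≥0, ∀ s ∈ I, |s - t| < δ → KB μ w (pT n) (r s) C C)
    (h1 : ∀ t ∈ I, ∀ᵐ p : X × X ∂(μ.prod μ), comp μ (r t) (r t) p.1 p.2 =
        (1 / 2 : ℂ) • (e * r t p.1 p.2 + r t p.1 p.2 * e))
    (h2 : ∀ t ∈ I, ∀ s ∈ I, ∀ᵐ p : X × X ∂(μ.prod μ), (s : ℂ) • (r t p.1 p.2 - r s p.1 p.2) =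
        ((s - t : ℝ) : ℂ) • (r t p.1 p.2 - comp μ (r t) (lm e (r s)) p.1 p.2))
    {t s : ℝ} (ht : t ∈ I) (hs : s ∈ I) :
    TT μ τ F φ (fun _ => r t) = TT μ τ F φ (fun _ => r s) := by
  have hp := one_le_pT n
  refine TT_const hN hD hφ (kAlg_KK hD hFt hw hU hτ hφb) hτ he ?_ ?_ (kNb_KK hD hFt hw hU hτ hφb)
    hI hIc hI0 (fun t ht => ?_) (fun t ht => ?_) h1 h2 ht hs
  · rintro k ⟨⟨C, Cp, h3⟩, h4⟩
    exact ⟨⟨_, _, h3.const_mul hw.meas (by linarith) e⟩, h4.lm hU⟩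
  · rintro k ⟨⟨C, Cp, h3⟩, h4⟩
    exact ⟨⟨_, _, h3.mul_const hw.meas (by linarith) e⟩, h4.rm hU⟩
  · obtain ⟨δ, hδ, C, hC⟩ := hbd t ht
    exact ⟨⟨C, C, hC t ht (by simpa using hδ)⟩, hre t ht⟩
  · obtain ⟨δ, hδ, C, hC⟩ := hbd t ht
    exact ⟨δ, hδ, C, fun s hs h => ⟨C, C, hC s hs h, le_rfl, le_rfl⟩⟩

end Pool.Agent.Lib.MP_df705a_gt.SV.TB
end
end

section

/-!
# SV, block T: the homotopy (final statement; owner helper53)

PROOF (`n` even, `n + 1` points). `T(k) = TT μ τ F φ k`.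
(1) Unfolding and rotation: for equivariant kernels `τ(loop)` is invariant under `G`, so `1_F(x_0)` may
be replaced by `1_F(x_i)`; since `φ ∘ rot = φ`, `T(k ∘ rot) = T(k)`.
(2) `T(r, …, r, r ε r) = T(r, …, r)` from `δφ = 0` and `comp r r = (ε r + r ε)/2`.
(3) `T(r', …, r') - T(r, …, r)` telescopes; `r' - r = -(t' - t)/t' (r - comp r (ε r'))`; so
`|f(t) - f(t')| ≤ C |t - t'|²` on compact intervals and `f` is constant.
-/

open scoped ENNReal NNReal Topology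
open MeasureTheory Filter Set

noncomputable section

namespace Pool.Agent.Lib.MP_df705a_gt.SV

variable {X G A : Type*} [MeasurableSpace X] [NormedRing A] [NormedAlgebra ℂ A] [CompleteSpace A]
  [Group G] [Countable G] {μ : Measure X} [SigmaFinite μ] {act : G → X → X} {F : Set X}
  {U U' : G → X → A} {ε : A} {n : ℕ} {w : X → X → ℝ} {τ : A →L[ℂ] ℂ}

/-- The homotopy. -/
theorem homotopy (hτ : ∀ x y, τ (x * y) = τ (y * x)) (hs : IsSys μ act F)
    (hε : ε * ε = 1) (hU : IsLift U U' ε) (hn : Even n) (hn' : 2 ≤ n) (hw : Wt w)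
    {φ : (Fin (n + 1) → X) → ℝ} (hφ : IsPhi act w φ) {r : ℝ → X → X → A}
    (hb : ∀ t₁ t₂ : ℝ, 0 < t₁ → ∃ c : ℝ≥0, ∀ t : ℝ, t₁ ≤ t → t ≤ t₂ →
      KB μ w (((n : ℝ) + 1) / n) (r t) c c)
    (h1 : ∀ t : ℝ, 0 < t → KEq μ (comp μ (r t) (r t))
      (fun x y => (2⁻¹ : ℂ) • (ε * r t x y + r t x y * ε)))
    (h2 : ∀ t t' : ℝ, 0 < t → 0 < t' → KEq μ (fun x y => (t' : ℂ) • (r t x y - r t' x y))
      (fun x y => (t' - t : ℂ) • (r t x y - comp μ (r t) (fun x y => ε * r t' x y) x y)))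
    (h3 : ∀ t : ℝ, 0 < t → Eqv μ act U U' (r t)) {t t' : ℝ} (ht : 0 < t) (ht' : 0 < t') :
    TT μ τ F φ (fun _ => r t) = TT μ τ F φ (fun _ => r t') := by
  obtain ⟨n, rfl⟩ : ∃ k, n = k + 1 := ⟨n - 1, by omega⟩
  obtain ⟨c, hc, hle⟩ := hφ.bdd
  have hD : TB.Dom μ act F := ⟨hs.one, hs.mul, hs.mp, hs.meas, hs.tile⟩
  have hG : TB.Gauge U U' ε := by
    refine ⟨hU.mul', hU.mul, fun γ x => (hU.comm γ x).symm, fun γ x => ?_⟩
    calc U' γ x * ε = U' γ x * (ε * (U γ x * U' γ x)) := by rw [hU.mul, mul_one]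
      _ = U' γ x * (U γ x * ε * U' γ x) := by rw [hU.comm]; simp only [mul_assoc]
      _ = (U' γ x * U γ x) * (ε * U' γ x) := by simp only [mul_assoc]
      _ = ε * U' γ x := by rw [hU.mul', one_mul]
  have hC : TB.Coc act φ := ⟨hφ.inv, hφ.rot, hφ.coc⟩
  have hP : TB.PhiB w φ c := ⟨hφ.meas, hc, hle⟩
  refine TB.TT_const_KB (e := ε) (U := U) (U' := U') (I := Ioi 0) hn hD hs.fin.ne hw hG hτ hε hC
    hP isOpen_Ioi isPreconnected_Ioi (fun t ht => ht) (fun t ht => h3 t ht) (fun t ht => ?_)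
    (fun t ht => ?_) (fun t ht s hs => ?_) ht ht'
  · have ht0 : 0 < t := ht
    obtain ⟨C, hC⟩ := hb (t / 2) (2 * t) (half_pos ht0)
    refine ⟨t / 2, half_pos ht0, C, fun s _ hst => hC s ?_ ?_⟩
    · have := (abs_lt.1 hst).1
      linarith
    · have := (abs_lt.1 hst).2
      linarith
  · have := h1 t ht
    unfold KEq at this
    rw [one_div]
    exact this
  · have := h2 t s ht hs
    unfold KEq at this
    push_cast
    exact this

end Pool.Agent.Lib.MP_df705a_gt.SV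
end
end

section

/-!
# SV, D0: geometric definitions
-/

open scoped ContDiff InnerProductSpace Matrix ENNReal NNReal Topology
open MeasureTheory Filter Set

noncomputable section

namespace Pool.Agent.Lib.MP_df705a_gt.SV

open Pool.Agent.Lib.MP_df705a_gt.RL

variable {G : Type*} [Group G] {m : ℕ}

/-- Length functions on a group. -/
structure IsLen (ℓ : G → ℝ) : Prop where
  one : ℓ 1 = 0
  nonneg : ∀ g, 0 ≤ ℓ g
  inv : ∀ g, ℓ g⁻¹ = ℓ g
  mul : ∀ g h, ℓ (g * h) ≤ ℓ g + ℓ h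

/-- Invariant homogeneous `n`-cocycles of growth `exp (δ · diameter)`. -/
structure IsCoc (ℓ : G → ℝ) (δ : ℝ) {n : ℕ} (c : (Fin (n + 1) → G) → ℝ) : Prop where
  inv : ∀ γ g, c (fun i => γ * g i) = c g
  coc : ∀ g : Fin (n + 2) → G,
    ∑ i : Fin (n + 2), (-1 : ℝ) ^ (i : ℕ) * c (fun j => g (i.succAbove j)) = 0
  growth : ∃ C : ℝ, ∀ (g : Fin (n + 1) → G) (D : ℝ), (∀ i j, ℓ ((g i)⁻¹ * g j) ≤ D) →
    |c g| ≤ C * Real.exp (δ * D)

/-- The action is proper. -/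
def IsProper (a : Act G (2 * m)) : Prop :=
  ∀ R : ℝ, {γ | ∃ y, ‖y‖ ≤ R ∧ ‖a.act γ y‖ ≤ R}.Finite

/-- The element which moves `y` to the fundamental set. -/
def tl {a : Act G (2 * m)} {F : Set (V (2 * m))} (hF : a.Fund F) (y : V (2 * m)) : G :=
  (hF.tile y).choose

/-- The weight `exp (δ ℓ(τ(x)⁻¹ τ(y)))`, `x ∈ τ(x) F`. -/
def tw {a : Act G (2 * m)} {F : Set (V (2 * m))} (hF : a.Fund F) (ℓ : G → ℝ) (δ : ℝ)
    (x y : V (2 * m)) : ℝ :=
  Real.exp (δ * ℓ (tl hF x * (tl hF y)⁻¹))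

/-- The Clifford multiplication by `dψ`. -/
def cd (C : Cliff m) (g : Geo (2 * m)) (ψ : V (2 * m) → ℝ) (x : V (2 * m)) : En m :=
  ∑ a, ((∑ μ, g.e x μ a * pd μ ψ x : ℝ) : ℂ) • C.c a

/-- The model kernel `t⁻² ∫_0^∞ exp (-r/t²) gs(x, y - x, r) dr`. -/
def hmod (g : Geo (2 * m)) (t : ℝ) (x y : V (2 * m)) : ℝ :=
  (t ^ 2)⁻¹ * ∫ r in Ioi (0 : ℝ), Real.exp (-(r / t ^ 2)) * gs g x (y - x) r

/-- The exponent `(N + 1) / N`, `N = 2 m`. -/
abbrev pN (m : ℕ) : ℝ := (((2 * m : ℕ) : ℝ) + 1) / (2 * m : ℕ)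

/-- The size `D t^(-N/(N+1))` of the kernels of `(1 + t² D²)⁻¹` for small `t`. -/
def sz (m : ℕ) (D t : ℝ) : ℝ≥0 := (D * t ^ (-(2 * m / (2 * m + 1) : ℝ))).toNNReal

/-- The kernels `ρ t` for small `t`: bounds, approximation by kernels of finite range, and by the
model kernel. -/
structure SmallK (a : Act G (2 * m)) (g : Geo (2 * m)) (w : V (2 * m) → V (2 * m) → ℝ)
    (ρ : ℝ → V (2 * m) → V (2 * m) → En m) : Prop where
  fin : ∃ π : ℝ → V (2 * m) → V (2 * m) → En m, ∃ R D t₀ : ℝ, 0 < t₀ ∧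
    (∀ t x y, π t x y ≠ 0 → ∃ γ, ‖a.act γ x‖ ≤ R ∧ ‖a.act γ y‖ ≤ R) ∧
    ∀ t : ℝ, 0 < t → t ≤ t₀ → ∃ c₁ : ℝ≥0,
      KB g.vol w (pN m) (ρ t) c₁ (sz m D t) ∧ KB g.vol w (pN m) (π t) c₁ (sz m D t) ∧
      KB g.vol w (pN m) (fun x y => ρ t x y - π t x y) c₁ (sz m (D * t) t)
  model : ∀ R : ℝ, ∃ D t₀ : ℝ, 0 < t₀ ∧ ∀ t : ℝ, 0 < t → t ≤ t₀ → ∃ c₁ : ℝ≥0,
    KB g.vol (fun _ _ => 1) (pN m) (fun x y => if ‖x‖ ≤ R ∧ ‖y‖ ≤ R then
      ρ t x y - (hmod g t x y : ℂ) • (1 : En m) else 0) c₁ (sz m (D * t) t)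

/-- The kernels `r t` of `(eps + t D)⁻¹` and `ρ t` of `(1 + t² D²)⁻¹`: algebraic properties. -/
structure Pack (C : Cliff m) (g : Geo (2 * m)) (a : Act G (2 * m)) (U : G → V (2 * m) → En m)
    (r ρ : ℝ → V (2 * m) → V (2 * m) → En m) : Prop where
  measr : ∀ t : ℝ, 0 < t → StronglyMeasurable (Function.uncurry (r t))
  measρ : ∀ t : ℝ, 0 < t → StronglyMeasurable (Function.uncurry (ρ t))
  sq : ∀ t : ℝ, 0 < t → KEq g.vol (comp g.vol (r t) (r t)) (ρ t)
  half : ∀ t : ℝ, 0 < t →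
    KEq g.vol (ρ t) (fun x y => (2⁻¹ : ℂ) • (C.eps * r t x y + r t x y * C.eps))
  res : ∀ t t' : ℝ, 0 < t → 0 < t' → KEq g.vol (fun x y => (t' : ℂ) • (r t x y - r t' x y))
    (fun x y => (t' - t : ℂ) • (r t x y - comp g.vol (r t) (fun x y => C.eps * r t' x y) x y))
  eqv : ∀ t : ℝ, 0 < t → Eqv g.vol a.act U (fun γ x => adj (U γ x)) (r t)
  comm : ∀ t : ℝ, 0 < t → ∀ ψ : V (2 * m) → ℝ, ContDiff ℝ ∞ ψ → HasCompactSupport ψ →
    KEq g.vol (fun x y => ((ψ x - ψ y : ℝ) : ℂ) • r t x y)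
      (fun x y => (t : ℂ) • comp g.vol (r t) (fun x y => cd C g ψ x * r t x y) x y)

/-- The bounds of the kernels with the weight `w`. -/
structure Bds (g : Geo (2 * m)) (w : V (2 * m) → V (2 * m) → ℝ)
    (r ρ : ℝ → V (2 * m) → V (2 * m) → En m) : Prop where
  loc : ∀ t₁ t₂ : ℝ, 0 < t₁ → ∃ c : ℝ≥0, ∀ t : ℝ, t₁ ≤ t → t ≤ t₂ →
    KB g.vol w (pN m) (r t) c c
  dec : ∃ D : ℝ, ∀ t : ℝ, 1 ≤ t → ∃ c₁ : ℝ≥0, KB g.vol w (pN m) (ρ t) c₁ (D / t ^ 2).toNNReal

end Pool.Agent.Lib.MP_df705a_gt.SV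
end
end

section

/-!
# SV, G0: the data of the expansion for a cocycle of the group
-/

open scoped ContDiff InnerProductSpace Matrix ENNReal NNReal Topology
open MeasureTheory Filter Set

noncomputable section

namespace Pool.Agent.Lib.MP_df705a_gt.SV

open Pool.Agent.Lib.MP_df705a_gt.RL

variable {G : Type*} [Group G] {m n k : ℕ}

/-- The translate `χ_γ(y) = χ(γ⁻¹ y)`. -/
def ch (a : Act G (2 * m)) (χ : V (2 * m) → ℝ) (γ : G) (y : V (2 * m)) : ℝ := χ (a.act γ⁻¹ y)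

/-- The functions `χ_{g 1}, …, χ_{g n}, s_1, …, s_k`. -/
def rw' (a : Act G (2 * m)) (χ : V (2 * m) → ℝ) (s : V (2 * m) → V k) (g : Fin (n + 1) → G)
    (i : Fin (n + k)) (y : V (2 * m)) : ℝ :=
  Fin.addCases (fun i : Fin n => ch a χ (g i.succ) y) (fun j : Fin k => s y j) i

/-- The same, with index in `Fin (2 m)`. -/
def rwc (a : Act G (2 * m)) (χ : V (2 * m) → ℝ) (s : V (2 * m) → V k) (h : n + k = 2 * m)
    (g : Fin (n + 1) → G) (i : Fin (2 * m)) (y : V (2 * m)) : ℝ :=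
  rw' a χ s g (Fin.cast h.symm i) y

/-- The index set of the expansion. -/
abbrev Ind (G : Type*) (m n : ℕ) : Type _ := (Fin (n + 1) → G) × Equiv.Perm (Fin (2 * m))

/-- `sign σ c(g) χ_{g 0}` -/
def psi0 (a : Act G (2 * m)) (χ : V (2 * m) → ℝ) (c : (Fin (n + 1) → G) → ℝ) (α : Ind G m n)
    (y : V (2 * m)) : ℝ :=
  ((Equiv.Perm.sign α.2 : ℤ) : ℝ) * c α.1 * ch a χ (α.1 0) y

/-- The function number `σ j` of the list `χ_{g 1}, …, χ_{g n}, s_1, …, s_k`. -/
def psi (a : Act G (2 * m)) (χ : V (2 * m) → ℝ) (s : V (2 * m) → V k) (h : n + k = 2 * m)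
    (α : Ind G m n) (j : Fin (2 * m)) (y : V (2 * m)) : ℝ :=
  rwc a χ s h α.1 (α.2 j) y

/-- The function `φ` of the cocycle `c`. -/
def phi (a : Act G (2 * m)) (χ : V (2 * m) → ℝ) (s : V (2 * m) → V k) (h : n + k = 2 * m)
    (c : (Fin (n + 1) → G) → ℝ) (x : Fin (2 * m + 1) → V (2 * m)) : ℝ :=
  ∑' α : Ind G m n, psi0 a χ c α (x 0) *
    ∏ j : Fin (2 * m), (psi a χ s h α j (x j.succ) - psi a χ s h α j (x j.castSucc))

/-- A smooth function with compact support and `∑ χ_γ = 1`. -/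
structure IsPU (a : Act G (2 * m)) (χ : V (2 * m) → ℝ) : Prop where
  smooth : ContDiff ℝ ∞ χ
  supp : HasCompactSupport χ
  sum : ∀ y, ∑ᶠ γ, χ (a.act γ⁻¹ y) = 1

/-- Smooth functions with `s_j(γ y) = s_j(y) + const`. -/
structure IsAdd (a : Act G (2 * m)) (s : V (2 * m) → V k) : Prop where
  smooth : ∀ j, ContDiff ℝ ∞ fun y => s y j
  add : ∀ γ, ∃ t : Fin k → ℝ, ∀ y j, s (a.act γ y) j = s y j + t j

end Pool.Agent.Lib.MP_df705a_gt.SV
end
end

section

/-!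
# SV, G1: the weight
-/

open scoped ContDiff InnerProductSpace Matrix ENNReal NNReal Topology
open MeasureTheory Filter Set

noncomputable section

namespace Pool.Agent.Lib.MP_df705a_gt.SV

open Pool.Agent.Lib.MP_df705a_gt.RL

variable {G : Type*} [Group G] [Countable G] {m : ℕ}

namespace G1x

theorem measurable_tw {a : Act G (2 * m)} {F : Set (V (2 * m))} (hF : a.Fund F) (ℓ : G → ℝ)
    (δ : ℝ) : Measurable (Function.uncurry (tw hF ℓ δ)) := by
  letI : MeasurableSpace G := ⊤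
  haveI : MeasurableSingletonClass G := ⟨fun _ => trivial⟩
  have h1 : Measurable (tl hF) := by
    refine measurable_to_countable' fun γ => ?_
    have h2 : tl hF ⁻¹' {γ} = a.act γ ⁻¹' F := by
      ext y
      constructor
      · intro h
        have h3 : tl hF y = γ := h
        rw [← h3]
        exact (hF.tile y).choose_spec.1
      · intro h
        exact ((hF.tile y).choose_spec.2 γ h).symm
    rw [h2]
    exact (a.smooth γ).continuous.measurable hF.meas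
  have h3 : Measurable fun p : G × G => Real.exp (δ * ℓ (p.1 * p.2⁻¹)) := measurable_of_countable _
  exact h3.comp ((h1.comp measurable_fst).prodMk (h1.comp measurable_snd))

end G1x

theorem wt_tw {a : Act G (2 * m)} {F : Set (V (2 * m))} (hF : a.Fund F) {ℓ : G → ℝ}
    (hℓ : IsLen ℓ) {δ : ℝ} (hδ : 0 ≤ δ) : Wt (tw hF ℓ δ) where
  meas := G1x.measurable_tw hF ℓ δ
  one x y := by
    unfold tw
    rw [Real.one_le_exp_iff]
    exact mul_nonneg hδ (hℓ.nonneg _)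
  sub x y z := by
    unfold tw
    rw [← Real.exp_add, Real.exp_le_exp, ← mul_add]
    refine mul_le_mul_of_nonneg_left ?_ hδ
    have h := hℓ.mul (tl hF x * (tl hF y)⁻¹) (tl hF y * (tl hF z)⁻¹)
    have e : tl hF x * (tl hF y)⁻¹ * (tl hF y * (tl hF z)⁻¹) = tl hF x * (tl hF z)⁻¹ := by group
    rwa [e] at h

end Pool.Agent.Lib.MP_df705a_gt.SV
end
end
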