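import Pool.Agent.Lib.MP_df705a_gt.Mg.G045
import Pool.Agent.Lib.MP_df705a_gt.Mg.G075
import Pool.Agent.Lib.MP_df705a_gt.Mg.G046

section

/-!
# SV, E1b: the differential of functions in the frame, bounds
-/

open scoped ContDiff InnerProductSpace Matrix ENNReal NNReal Topology
open MeasureTheory Filter Set

noncomputable section

namespace Pool.Agent.Lib.MP_df705a_gt.SV

open Pool.Agent.Lib.MP_df705a_gt.RL

variable {G : Type*} [Group G] {m : ℕ}

namespace E1x

/-- The components of the differential in the frame. -/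
def gv {N : ℕ} (g : Geo N) (ψ : V N → ℝ) (x : V N) (a : Fin N) : ℝ :=
  ∑ μ, g.e x μ a * pd μ ψ x

/-- The square of the length of the differential. -/
def gsq {N : ℕ} (g : Geo N) (ψ : V N → ℝ) (x : V N) : ℝ := ∑ a, gv g ψ x a ^ 2

theorem gv_comp {N : ℕ} {g : Geo N} {Φ : V N → V N} (hΦ : IsIsom g Φ) {ψ : V N → ℝ}
    (hψ : Differentiable ℝ ψ) (y : V N) (a : Fin N) :
    gv g (fun y => ψ (Φ y)) y a = ∑ b, rotOf g Φ y b a * gv g ψ (Φ y) b := by
  have h1 : ∀ ν, (∑ μ, jac Φ y ν μ * g.e y μ a) = ∑ b, g.e (Φ y) ν b * rotOf g Φ y b a := by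
    intro ν
    have h := congrFun (congrFun (jac_mul_e g Φ y) ν) a
    rw [Matrix.mul_apply, Matrix.mul_apply] at h
    exact h
  have hd : Differentiable ℝ Φ := hΦ.smooth.differentiable (by simp)
  calc gv g (fun y => ψ (Φ y)) y a
      = ∑ μ, g.e y μ a * ∑ ν, jac Φ y ν μ * pd ν ψ (Φ y) := by
        unfold gv
        refine Finset.sum_congr rfl fun μ _ => ?_
        rw [pd_comp hd hψ μ y]
        rfl
    _ = ∑ ν, (∑ μ, jac Φ y ν μ * g.e y μ a) * pd ν ψ (Φ y) := by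
        simp only [Finset.mul_sum, Finset.sum_mul]
        rw [Finset.sum_comm]
        refine Finset.sum_congr rfl fun ν _ => Finset.sum_congr rfl fun μ _ => ?_
        ring
    _ = ∑ ν, (∑ b, g.e (Φ y) ν b * rotOf g Φ y b a) * pd ν ψ (Φ y) := by
        simp only [h1]
    _ = ∑ b, rotOf g Φ y b a * gv g ψ (Φ y) b := by
        unfold gv
        simp only [Finset.mul_sum, Finset.sum_mul]
        rw [Finset.sum_comm]
        refine Finset.sum_congr rfl fun ν _ => Finset.sum_congr rfl fun μ _ => ?_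
        ring

theorem gsq_comp {N : ℕ} {g : Geo N} {Φ : V N → V N} (hΦ : IsIsom g Φ) {ψ : V N → ℝ}
    (hψ : Differentiable ℝ ψ) (y : V N) : gsq g (fun y => ψ (Φ y)) y = gsq g ψ (Φ y) := by
  have hR : rotOf g Φ y * (rotOf g Φ y)ᵀ = 1 := mul_eq_one_comm.mp (rotOf_orth hΦ y)
  unfold gsq
  simp only [gv_comp hΦ hψ]
  set R := rotOf g Φ y
  set v := gv g ψ (Φ y)
  calc ∑ a, (∑ b, R b a * v b) ^ 2 = ∑ a, ∑ b, ∑ c, (R b a * v b) * (R c a * v c) := by
        refine Finset.sum_congr rfl fun a _ => ?_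
        rw [sq, Finset.sum_mul_sum]
    _ = ∑ b, ∑ c, ∑ a, (R b a * v b) * (R c a * v c) := by
        rw [Finset.sum_comm]
        refine Finset.sum_congr rfl fun b _ => ?_
        rw [Finset.sum_comm]
    _ = ∑ b, ∑ c, (∑ a, R b a * R c a) * (v b * v c) := by
        refine Finset.sum_congr rfl fun b _ => Finset.sum_congr rfl fun c _ => ?_
        rw [Finset.sum_mul]
        exact Finset.sum_congr rfl fun a _ => by ring
    _ = ∑ b, ∑ c, (if b = c then (1:ℝ) else 0) * (v b * v c) := by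
        refine Finset.sum_congr rfl fun b _ => Finset.sum_congr rfl fun c _ => ?_
        have h := congrFun (congrFun hR b) c
        rw [Matrix.mul_apply, Matrix.one_apply] at h
        simp only [Matrix.transpose_apply] at h
        rw [h]
    _ = ∑ b, v b ^ 2 := by
        simp [sq]

theorem gsq_nonneg {N : ℕ} (g : Geo N) (ψ : V N → ℝ) (x : V N) : 0 ≤ gsq g ψ x :=
  Finset.sum_nonneg fun _ _ => sq_nonneg _

theorem contDiff_pd {N : ℕ} {ψ : V N → ℝ} (hψ : ContDiff ℝ ∞ ψ) (μ : Fin N) :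
    ContDiff ℝ ∞ (pd μ ψ) := by
  unfold pd
  exact (hψ.fderiv_right (by simp)).clm_apply contDiff_const

theorem contDiff_gv {N : ℕ} (g : Geo N) {ψ : V N → ℝ} (hψ : ContDiff ℝ ∞ ψ) (a : Fin N) :
    ContDiff ℝ ∞ fun x => gv g ψ x a := by
  unfold gv
  exact ContDiff.sum fun μ _ => (g.smooth_e μ a).mul (contDiff_pd hψ μ)

theorem continuous_gsq {N : ℕ} (g : Geo N) {ψ : V N → ℝ} (hψ : ContDiff ℝ ∞ ψ) :
    Continuous (gsq g ψ) := by
  unfold gsq
  exact continuous_finsetSum _ fun a _ => ((contDiff_gv g hψ a).continuous).pow 2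

theorem cd_eq (C : Cliff m) (g : Geo (2 * m)) (ψ : V (2 * m) → ℝ) (x : V (2 * m)) :
    cd C g ψ x = ∑ a, ((gv g ψ x a : ℝ) : ℂ) • C.c a := rfl

/-- The constant in the bound of `cd`. -/
def KC (C : Cliff m) : ℝ := ∑ a, ‖C.c a‖

theorem KC_nonneg (C : Cliff m) : 0 ≤ KC C := Finset.sum_nonneg fun _ _ => norm_nonneg _

theorem norm_cd_le (C : Cliff m) (g : Geo (2 * m)) (ψ : V (2 * m) → ℝ) (x : V (2 * m)) :
    ‖cd C g ψ x‖ ≤ KC C * √(gsq g ψ x) := by
  rw [cd_eq, KC, Finset.sum_mul]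
  refine (norm_sum_le _ _).trans (Finset.sum_le_sum fun a _ => ?_)
  rw [norm_smul, mul_comm]
  refine mul_le_mul_of_nonneg_left ?_ (norm_nonneg _)
  rw [Complex.norm_real, Real.norm_eq_abs, ← Real.sqrt_sq_eq_abs]
  refine Real.sqrt_le_sqrt ?_
  exact Finset.single_le_sum (f := fun a => gv g ψ x a ^ 2) (fun _ _ => sq_nonneg _)
    (Finset.mem_univ a)

theorem continuous_cd (C : Cliff m) (g : Geo (2 * m)) {ψ : V (2 * m) → ℝ}
    (hψ : ContDiff ℝ ∞ ψ) : Continuous (cd C g ψ) := by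
  have h1 : cd C g ψ = fun x => ∑ a, ((gv g ψ x a : ℝ) : ℂ) • C.c a := rfl
  rw [h1]
  exact continuous_finsetSum _ fun a _ =>
    (Complex.continuous_ofReal.comp (contDiff_gv g hψ a).continuous).smul continuous_const

theorem pd_congr {N : ℕ} {f h : V N → ℝ} {x : V N} (hfh : f =ᶠ[𝓝 x] h) (μ : Fin N) :
    pd μ f x = pd μ h x := by
  unfold pd
  rw [hfh.fderiv_eq]

theorem cd_congr (C : Cliff m) (g : Geo (2 * m)) {f h : V (2 * m) → ℝ} {x : V (2 * m)}
    (hfh : f =ᶠ[𝓝 x] h) : cd C g f x = cd C g h x := by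
  unfold cd
  simp only [pd_congr hfh]

theorem gv_zero {N : ℕ} (g : Geo N) (x : V N) (a : Fin N) : gv g (fun _ => 0) x a = 0 := by
  have h1 : ∀ μ : Fin N, pd μ (fun _ : V N => (0 : ℝ)) x = 0 := by
    intro μ
    unfold pd
    rw [fderiv_fun_const]
    rfl
  unfold gv
  exact Finset.sum_eq_zero fun μ _ => by rw [h1, mul_zero]

theorem cd_zero (C : Cliff m) (g : Geo (2 * m)) (x : V (2 * m)) :
    cd C g (fun _ => 0) x = 0 := by
  rw [cd_eq]
  refine Finset.sum_eq_zero fun a _ => ?_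
  rw [gv_zero, Complex.ofReal_zero]
  exact zero_smul ℂ (C.c a)

theorem gv_sum {N : ℕ} (g : Geo N) {ι : Type*} (s : Finset ι) {f : ι → V N → ℝ}
    (hf : ∀ i ∈ s, Differentiable ℝ (f i)) (x : V N) (a : Fin N) :
    gv g (fun y => ∑ i ∈ s, f i y) x a = ∑ i ∈ s, gv g (f i) x a := by
  unfold gv
  rw [Finset.sum_comm]
  refine Finset.sum_congr rfl fun μ _ => ?_
  rw [pd_sum' s hf, Finset.mul_sum]

theorem cd_sum (C : Cliff m) (g : Geo (2 * m)) {ι : Type*} (s : Finset ι)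
    {f : ι → V (2 * m) → ℝ} (hf : ∀ i ∈ s, Differentiable ℝ (f i)) (x : V (2 * m)) :
    cd C g (fun y => ∑ i ∈ s, f i y) x = ∑ i ∈ s, cd C g (f i) x := by
  simp only [cd_eq]
  rw [Finset.sum_comm]
  refine Finset.sum_congr rfl fun a _ => ?_
  rw [gv_sum g s hf, Complex.ofReal_sum]
  exact Finset.sum_smul (R := ℂ) (M := En m) (f := fun i => ((gv g (f i) x a : ℝ) : ℂ))
    (s := s) (x := C.c a)

theorem gv_mul {N : ℕ} (g : Geo N) {f h : V N → ℝ} (hf : Differentiable ℝ f)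
    (hh : Differentiable ℝ h) (x : V N) (a : Fin N) :
    gv g (fun y => f y * h y) x a = h x * gv g f x a + f x * gv g h x a := by
  unfold gv
  rw [Finset.mul_sum, Finset.mul_sum, ← Finset.sum_add_distrib]
  refine Finset.sum_congr rfl fun μ _ => ?_
  rw [pd_mul' hf hh]
  ring

theorem cd_mul (C : Cliff m) (g : Geo (2 * m)) {f h : V (2 * m) → ℝ}
    (hf : Differentiable ℝ f) (hh : Differentiable ℝ h) (x : V (2 * m)) :
    cd C g (fun y => f y * h y) x
      = ((h x : ℝ) : ℂ) • cd C g f x + ((f x : ℝ) : ℂ) • cd C g h x := by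
  simp only [cd_eq]
  rw [Finset.smul_sum, Finset.smul_sum, ← Finset.sum_add_distrib]
  refine Finset.sum_congr rfl fun a _ => ?_
  rw [smul_smul, smul_smul, gv_mul g hf hh]
  push_cast
  exact add_smul _ _ (C.c a)

theorem gv_add_const {N : ℕ} (g : Geo N) (ψ : V N → ℝ) (c : ℝ) (x : V N) (a : Fin N) :
    gv g (fun y => ψ y + c) x a = gv g ψ x a := by
  unfold gv pd
  simp only [fderiv_add_const]

theorem gsq_add_const {N : ℕ} (g : Geo N) (ψ : V N → ℝ) (c : ℝ) (x : V N) :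
    gsq g (fun y => ψ y + c) x = gsq g ψ x := by
  unfold gsq
  simp only [gv_add_const]

end E1x

end Pool.Agent.Lib.MP_df705a_gt.SV
end
end

section

/-!
# SV, L4: equivariant extension of kernels (definitions)
-/

open scoped ContDiff InnerProductSpace Matrix ENNReal NNReal Topology Real
open MeasureTheory Filter Set

noncomputable section

set_option linter.unusedSectionVars false

namespace Pool.Agent.Lib.MP_df705a_gt.SV

open Pool.Agent.Lib.MP_df705a_gt.RL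

variable {G : Type*} [Group G] {m : ℕ} {C : Cliff m} {g : Geo (2 * m)} {a : Act G (2 * m)}
  {F : Set (V (2 * m))}

/-- Spin lifts of the isometries. -/
def Lifts (C : Cliff m) (g : Geo (2 * m)) (a : Act G (2 * m)) (U : G → V (2 * m) → En m) : Prop :=
  ∀ γ, IsoData C g (a.act γ) (a.act γ⁻¹) (U γ) fun _ => 0

/-- The extension of a kernel given for `z ∈ F`. -/
def ext (hF : a.Fund F) (U : G → V (2 * m) → En m) (k : V (2 * m) → V (2 * m) → En m)
    (z y : V (2 * m)) : En m :=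
  adj (U (tl hF z) z) * k (a.act (tl hF z) z) (a.act (tl hF z) y) * U (tl hF z) y

/-- Kernels of finite range. -/
def Rng (a : Act G (2 * m)) (R : ℝ) (k : V (2 * m) → V (2 * m) → En m) : Prop :=
  ∀ x y, k x y ≠ 0 → ∃ γ, ‖a.act γ x‖ ≤ R ∧ ‖a.act γ y‖ ≤ R

theorem tl_mem (hF : a.Fund F) (y : V (2 * m)) : a.act (tl hF y) y ∈ F := (hF.tile y).choose_spec.1

theorem tl_unique (hF : a.Fund F) {y : V (2 * m)} {γ : G} (h : a.act γ y ∈ F) : γ = tl hF y :=
  (hF.tile y).choose_spec.2 γ h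

/-- The unitary of `γ`. -/
def Lifts.W {U : G → V (2 * m) → En m} (hU : Lifts C g a U) (γ : G) : g.L2 ≃ₗᵢ[ℂ] g.L2 := (hU γ).W

end Pool.Agent.Lib.MP_df705a_gt.SV
end
end

section

/-!
# SV, L3c: the local identity
-/

open scoped ContDiff InnerProductSpace Matrix ENNReal NNReal Topology Real
open MeasureTheory Filter Set

noncomputable section

set_option linter.unusedSectionVars false

namespace Pool.Agent.Lib.MP_df705a_gt.SV

open Pool.Agent.Lib.MP_df705a_gt.RL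

variable {m : ℕ}

/-- A sequence along which the approximate identity converges almost everywhere. -/
theorem exists_seq_Qop {C : Cliff m} {g : Geo (2 * m)} {B : Pot (2 * m)} {F : Set (V (2 * m))}
    (hF : MeasurableSet F) (hFb : Bornology.IsBounded F)
    {q qd e : ℝ → V (2 * m) → V (2 * m) → En m} {c κ r₀ : ℝ}
    (hP : Para C g B F q qd e c κ r₀) (φ : g.L2) :
    ∃ ε : ℕ → ℝ, (∀ k, 0 < ε k ∧ ε k ≤ 1) ∧ Tendsto ε atTop (𝓝[>] 0) ∧
      ∀ᵐ z ∂(g.vol.restrict F), Tendsto (fun k => Qop g q (ε k) φ z) atTop (𝓝 (φ z)) := by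
  have hlim := Qop_tendsto hF hFb hP φ
  have hex : ∀ k : ℕ, ∃ ε : ℝ, 0 < ε ∧ ε ≤ 1 / ((k : ℝ) + 1) ∧
      ∫⁻ z in F, ‖Qop g q ε φ z - φ z‖ₑ ^ 2 ∂g.vol ≤ (2 : ℝ≥0∞)⁻¹ ^ k := by
    intro k
    rw [ENNReal.tendsto_nhds_zero] at hlim
    have h1 : (0 : ℝ≥0∞) < (2 : ℝ≥0∞)⁻¹ ^ k := by
      refine ENNReal.pow_pos ?_ k
      simp
    obtain ⟨ε, h2, h3⟩ := ((hlim _ h1).and (Ioc_mem_nhdsGT
      (show (0 : ℝ) < 1 / ((k : ℝ) + 1) by positivity))).exists
    exact ⟨ε, h3.1, h3.2, h2⟩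
  choose ε hε0 hε1 hε2 using hex
  have hεlim : Tendsto ε atTop (𝓝[>] 0) := by
    rw [tendsto_nhdsWithin_iff]
    refine ⟨squeeze_zero (fun k => (hε0 k).le) hε1 tendsto_one_div_add_atTop_nhds_zero_nat,
      Eventually.of_forall hε0⟩
  refine ⟨ε, fun k => ⟨hε0 k, (hε1 k).trans ?_⟩, hεlim, ?_⟩
  · rw [div_le_one (by positivity)]
    have : (0 : ℝ) ≤ k := Nat.cast_nonneg k
    linarith
  have hmeas : ∀ k, AEMeasurable (fun z => ‖Qop g q (ε k) φ z - φ z‖ₑ ^ 2)
      (g.vol.restrict F) := fun k =>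
    ((aesm_Qop hP (hε0 k) _).sub (Lp.aestronglyMeasurable _).restrict).enorm.pow_const 2
  have hsum : ∫⁻ z in F, ∑' k, ‖Qop g q (ε k) φ z - φ z‖ₑ ^ 2 ∂g.vol ≠ ⊤ := by
    rw [lintegral_tsum hmeas]
    refine ne_top_of_le_ne_top ?_ (ENNReal.tsum_le_tsum hε2)
    rw [ENNReal.tsum_geometric]
    simp
  have hae := ae_lt_top' (AEMeasurable.tsum hmeas) hsum
  filter_upwards [hae] with z hz
  have h0 := ENNReal.tendsto_atTop_zero_of_tsum_ne_top hz.ne
  rw [tendsto_iff_norm_sub_tendsto_zero]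
  have h1 := (ENNReal.tendsto_toReal ENNReal.zero_ne_top).comp h0
  have h2 := (Real.continuous_sqrt.tendsto _).comp h1
  simp only [ENNReal.toReal_zero, Real.sqrt_zero] at h2
  refine h2.congr fun k => ?_
  simp only [Function.comp_apply]
  rw [ENNReal.toReal_pow, toReal_enorm, Real.sqrt_sq (norm_nonneg _)]

/-- Inner products and interval integrals. -/
theorem inner_intInt {H : Type*} [NormedAddCommGroup H] [InnerProductSpace ℂ H] [CompleteSpace H]
    {F : ℝ → H} {a b : ℝ} (hF : IntervalIntegrable F volume a b) (φ : H) :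
    ⟪∫ r in a..b, F r, φ⟫_ℂ = ∫ r in a..b, ⟪F r, φ⟫_ℂ := by
  have h1 : ⟪φ, ∫ r in a..b, F r⟫_ℂ = ∫ r in a..b, ⟪φ, F r⟫_ℂ :=
    ((innerSL ℂ φ).intervalIntegral_comp_comm hF).symm
  rw [← inner_conj_symm, h1]
  have h2 : ∀ r, ⟪F r, φ⟫_ℂ = (starRingEnd ℂ) ⟪φ, F r⟫_ℂ := fun r => (inner_conj_symm _ _).symm
  simp_rw [h2]
  unfold intervalIntegral
  rw [integral_conj, integral_conj, map_sub]

/-- The limit of the interval integrals. -/
theorem tendsto_intInt {J : ℝ → ℂ} (hJ : IntegrableOn J (Ioc (0 : ℝ) 1)) {ε : ℕ → ℝ}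
    (hε : ∀ k, 0 < ε k ∧ ε k ≤ 1) (hlim : Tendsto ε atTop (𝓝[>] 0)) :
    Tendsto (fun k => ∫ r in (ε k)..1, J r) atTop (𝓝 (∫ r in Ioc (0 : ℝ) 1, J r)) := by
  have hi : ∀ a b, IntervalIntegrable ((Ioc (0 : ℝ) 1).indicator J) volume a b := by
    intro a b
    exact ((integrable_indicator_iff measurableSet_Ioc).2 hJ).intervalIntegrable
  have hc := intervalIntegral.continuous_primitive hi 1
  have h1 : Tendsto (fun k => ∫ r in (1 : ℝ)..(ε k), (Ioc (0 : ℝ) 1).indicator J r) atTop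
      (𝓝 (∫ r in (1 : ℝ)..0, (Ioc (0 : ℝ) 1).indicator J r)) :=
    (hc.tendsto 0).comp (hlim.mono_right nhdsWithin_le_nhds)
  have h2 := h1.neg
  rw [← intervalIntegral.integral_symm, intervalIntegral.integral_of_le zero_le_one,
    setIntegral_indicator measurableSet_Ioc, inter_self] at h2
  refine h2.congr fun k => ?_
  rw [← intervalIntegral.integral_symm, intervalIntegral.integral_of_le (hε k).2,
    intervalIntegral.integral_of_le (hε k).2]
  refine setIntegral_congr_fun measurableSet_Ioc fun r hr => ?_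
  exact indicator_of_mem (s := Ioc (0 : ℝ) 1) ⟨(hε k).1.trans hr.1, hr.2⟩ J

end Pool.Agent.Lib.MP_df705a_gt.SV
end
end

section

/-!
# SV, L4a2: the range of the extension
-/

open scoped ContDiff InnerProductSpace Matrix ENNReal NNReal Topology Real
open MeasureTheory Filter Set

noncomputable section

set_option linter.unusedSectionVars false

namespace Pool.Agent.Lib.MP_df705a_gt.SV

open Pool.Agent.Lib.MP_df705a_gt.RL

variable {G : Type*} [Group G] [Countable G] {m : ℕ} {C : Cliff m} {g : Geo (2 * m)}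
  {a : Act G (2 * m)} {F : Set (V (2 * m))}

/-- The weights are bounded on kernels of finite range.
PROOF. `γ x, γ y` in the ball of radius `R`, `F` in a ball of radius `R₀` (`hF.bdd`): `tl x * γ⁻¹` and `tl y * γ⁻¹` are in the
finite set of `hp (max R R₀)`, and `ℓ (tl x * (tl y)⁻¹) ≤ ℓ (tl x * γ⁻¹) + ℓ (tl y * γ⁻¹)`. -/
theorem tw_le (hF : a.Fund F) (hp : IsProper a) {ℓ : G → ℝ} (hℓ : IsLen ℓ) (R : ℝ) :
    ∃ c₀ : ℝ, 0 ≤ c₀ ∧ ∀ x y, (∃ γ, ‖a.act γ x‖ ≤ R ∧ ‖a.act γ y‖ ≤ R) →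
      ∀ δ : ℝ, 0 ≤ δ → tw hF ℓ δ x y ≤ Real.exp (δ * c₀) := by
  classical
  obtain ⟨R₀, hR₀⟩ := hF.bdd.exists_norm_le
  set R' := max R R₀ with hR'
  set S : Finset G := (hp R').toFinset with hS
  have hmem : ∀ (x : V (2 * m)) (γ : G), ‖a.act γ x‖ ≤ R → tl hF x * γ⁻¹ ∈ S := by
    intro x γ hx
    rw [hS, Set.Finite.mem_toFinset]
    refine ⟨a.act γ x, hx.trans (le_max_left _ _), ?_⟩
    rw [← a.mul, inv_mul_cancel_right]
    exact (hR₀ _ (tl_mem hF x)).trans (le_max_right _ _)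
  have hsum : ∀ σ ∈ S, ℓ σ ≤ ∑ γ ∈ S, ℓ γ := fun σ hσ =>
    Finset.single_le_sum (f := ℓ) (fun i _ => hℓ.nonneg i) hσ
  have h0 : 0 ≤ ∑ γ ∈ S, ℓ γ := Finset.sum_nonneg fun i _ => hℓ.nonneg i
  refine ⟨2 * ∑ γ ∈ S, ℓ γ, by positivity, ?_⟩
  rintro x y ⟨γ, hx, hy⟩ δ hδ
  unfold tw
  rw [Real.exp_le_exp]
  refine mul_le_mul_of_nonneg_left ?_ hδ
  have h1 : tl hF x * (tl hF y)⁻¹ = (tl hF x * γ⁻¹) * (tl hF y * γ⁻¹)⁻¹ := by group
  rw [h1]
  calc ℓ ((tl hF x * γ⁻¹) * (tl hF y * γ⁻¹)⁻¹)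
      ≤ ℓ (tl hF x * γ⁻¹) + ℓ ((tl hF y * γ⁻¹)⁻¹) := hℓ.mul _ _
    _ = ℓ (tl hF x * γ⁻¹) + ℓ (tl hF y * γ⁻¹) := by rw [hℓ.inv]
    _ ≤ _ := by
      have h2 := hsum _ (hmem x γ hx)
      have h3 := hsum _ (hmem y γ hy)
      linarith

theorem rng_ext (hF : a.Fund F) {R : ℝ} (hR : ∀ z ∈ F, ‖z‖ ≤ R) (U : G → V (2 * m) → En m)
    {k : V (2 * m) → V (2 * m) → En m} (hk : ∀ z y, 1 < ‖y - z‖ → k z y = 0) :
    Rng a (R + 1) (ext hF U k) := by
  intro x y hxy
  have h1 := hR _ (tl_mem hF x)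
  refine ⟨tl hF x, by linarith, ?_⟩
  by_contra h2
  apply hxy
  have h3 : k (a.act (tl hF x) x) (a.act (tl hF x) y) = 0 := by
    apply hk
    have h4 : ‖a.act (tl hF x) y‖ ≤
        ‖a.act (tl hF x) y - a.act (tl hF x) x‖ + ‖a.act (tl hF x) x‖ := by
      calc ‖a.act (tl hF x) y‖
          = ‖(a.act (tl hF x) y - a.act (tl hF x) x) + a.act (tl hF x) x‖ := by
            rw [sub_add_cancel]
        _ ≤ _ := norm_add_le _ _
    rw [not_le] at h2
    linarith
  unfold ext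
  rw [h3, mul_zero, zero_mul]

/-- The number of translates in a ball.
PROOF. If `‖γ y‖ ≤ R` then `γ (tl y)⁻¹` is in the finite set of `hp (max R R₀)`, `R₀` a bound for `F`. -/
theorem card_le (hF : a.Fund F) (hp : IsProper a) (R : ℝ) : ∃ M : ℕ, ∀ y,
    ∃ S : Finset G, S.card ≤ M ∧ ∀ γ, ‖a.act γ y‖ ≤ R → γ ∈ S := by
  classical
  obtain ⟨R₀, hR₀⟩ := hF.bdd.exists_norm_le
  set R' := max R R₀ with hR'
  refine ⟨(hp R').toFinset.card, fun y => ⟨(hp R').toFinset.image fun σ => σ * tl hF y,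
    Finset.card_image_le, fun γ hγ => ?_⟩⟩
  refine Finset.mem_image.2 ⟨γ * (tl hF y)⁻¹, ?_, inv_mul_cancel_right _ _⟩
  rw [Set.Finite.mem_toFinset]
  refine ⟨a.act (tl hF y) y, (hR₀ _ (tl_mem hF y)).trans (le_max_right _ _), ?_⟩
  rw [← a.mul, inv_mul_cancel_right]
  exact hγ.trans (le_max_left _ _)

end Pool.Agent.Lib.MP_df705a_gt.SV
end
end

section

/-!
# SV, Z1b: a cocompact isometric action is proper
-/

open scoped ContDiff Topology ENNReal Matrix
open MeasureTheory Filter Set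

noncomputable section

namespace Pool.Agent.Lib.MP_df705a_gt.SV

open Pool.Agent.Lib.MP_df705a_gt.RL

variable {m : ℕ} {G : Type*} [Group G] [Countable G]

private theorem Z1b_adj {N : ℕ} (A : Mt N) (x y : Fin N → ℝ) :
    (A.mulVec x) ⬝ᵥ y = x ⬝ᵥ (Aᵀ.mulVec y) := by
  rw [Matrix.dotProduct_mulVec, Matrix.vecMul_transpose]

/-- the square of the length in the frame -/
private theorem Z1b_quad {N : ℕ} (g : Geo N) (p : V N) (v : Fin N → ℝ) :
    ((g.θ p).mulVec v) ⬝ᵥ ((g.θ p).mulVec v) = v ⬝ᵥ ((g.h p).mulVec v) := by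
  rw [Z1b_adj, Matrix.mulVec_mulVec]
  rfl

/-- the length is preserved by isometries -/
private theorem Z1b_isom {N : ℕ} (g : Geo N) {Φ : V N → V N} {p : V N}
    (h : (jac Φ p)ᵀ * g.h (Φ p) * jac Φ p = g.h p) (v : Fin N → ℝ) :
    ((g.θ (Φ p)).mulVec ((jac Φ p).mulVec v)) ⬝ᵥ ((g.θ (Φ p)).mulVec ((jac Φ p).mulVec v))
      = ((g.θ p).mulVec v) ⬝ᵥ ((g.θ p).mulVec v) := by
  rw [Z1b_quad, Z1b_quad, Z1b_adj, Matrix.mulVec_mulVec, Matrix.mulVec_mulVec, h]

private theorem Z1b_sum {N : ℕ} (v : V N) : v = ∑ μ, v μ • bv μ := by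
  ext ν
  simp [bv, Finset.sum_apply, Pi.single_apply]

private theorem Z1b_fderiv {N : ℕ} {E : Type*} [NormedAddCommGroup E] [NormedSpace ℝ E]
    (L : V N →L[ℝ] E) (v : V N) : L v = ∑ μ, v μ • L (bv μ) := by
  conv_lhs => rw [Z1b_sum v]
  rw [map_sum]
  exact Finset.sum_congr rfl fun μ _ => map_smul _ _ _

private theorem Z1b_jac {N : ℕ} (Φ : V N → V N) (p v : V N) :
    (fun ν => (fderiv ℝ Φ p v) ν) = (jac Φ p).mulVec (fun μ => v μ) := by
  funext ν
  rw [Z1b_fderiv (fderiv ℝ Φ p) v]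
  simp only [Matrix.mulVec, dotProduct, jac, Matrix.of_apply, smul_eq_mul,
    WithLp.ofLp_sum, WithLp.ofLp_smul, Finset.sum_apply, Pi.smul_apply]
  exact Finset.sum_congr rfl fun μ _ => mul_comm _ _

/-- the derivative in the frame -/
private theorem Z1b_frame {N : ℕ} (g : Geo N) (κ : V N → ℝ) (q w : V N) :
    fderiv ℝ κ q w = ((g.θ q).mulVec fun ν => w ν) ⬝ᵥ fun a => ∑ μ, g.e q μ a * pd μ κ q := by
  have h1 : (fun a => ∑ μ, g.e q μ a * pd μ κ q) = ((g.e q)ᵀ).mulVec fun μ => pd μ κ q := by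
    funext a
    rfl
  rw [h1, Z1b_adj, Matrix.mulVec_mulVec, ← Matrix.transpose_mul, g.eθ, Matrix.transpose_one,
    Matrix.one_mulVec, Z1b_fderiv (fderiv ℝ κ q) w]
  rfl

/-- Cauchy-Schwarz -/
private theorem Z1b_bound {N : ℕ} (g : Geo N) {κ : V N → ℝ} {Φ : V N → V N} {p v : V N} {B c : ℝ}
    (h : (jac Φ p)ᵀ * g.h (Φ p) * jac Φ p = g.h p)
    (hB : ∑ a, (∑ μ, g.θ p a μ * v μ) ^ 2 ≤ B)
    (hc : ∑ a, (∑ μ, g.e (Φ p) μ a * pd μ κ (Φ p)) ^ 2 ≤ c) (hB0 : 0 ≤ B) :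
    (fderiv ℝ κ (Φ p) (fderiv ℝ Φ p v)) ^ 2 ≤ B * c := by
  rw [Z1b_frame g, Z1b_jac]
  have h1 := Finset.sum_mul_sq_le_sq_mul_sq Finset.univ
    (fun a => ((g.θ (Φ p)).mulVec ((jac Φ p).mulVec fun μ => v μ)) a)
    (fun a => ∑ μ, g.e (Φ p) μ a * pd μ κ (Φ p))
  refine h1.trans ?_
  have h2 : ∑ a, (((g.θ (Φ p)).mulVec ((jac Φ p).mulVec fun μ => v μ)) a) ^ 2
      = ∑ a, (∑ μ, g.θ p a μ * v μ) ^ 2 := by
    have h3 := Z1b_isom g h (fun μ => v μ)
    simp only [dotProduct, ← sq] at h3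
    rw [h3]
    rfl
  rw [h2]
  exact mul_le_mul hB hc (Finset.sum_nonneg fun a _ => sq_nonneg _) hB0

/-- The action is proper.
PROOF. Let `R` be given, `R' ≥ R` with `F` in the ball of radius `R'`. There is a constant `L` with `|v|_g ≤ L` for all
velocities `v = z - y`, `‖y‖ ≤ R'`, `‖z‖ ≤ R'`, at all points of the segment `[y, z]` (compactness; `|v|_g² = ∑_a (∑_μ θ_aμ v_μ)²`).
Take `n ≥ R'`, `n + 1 > L` and the cutoff function `κ` of `Cutoffs` for this `n`. Let `‖y‖ ≤ R`, `‖γ y‖ ≤ R` and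
`z ∈ F`. The function `t ↦ κ(γ(y + t (z - y)))` is `1` at `t = 0` and its derivative is bounded by
`|dκ|_g |dγ v|_g ≤ L / (n + 1) < 1` (`|dγ v|_g = |v|_g`: `Act.Iso.isom`; Cauchy-Schwarz for the frame components), so
`κ(γ z) > 0`. Hence `γ F` is contained in the compact support `K` of `κ` for all these `γ`. The sets `γ F` are disjoint (`tile`)
with the same volume `g.vol F` (`measurePreserving_of_isom`), `0 < g.vol F` (countably many translates cover the space,
`g.vol` is nonzero), `g.vol K < ∞`: finitely many `γ`. -/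
theorem isProper_of_cutoffs {g : Geo (2 * m)} {a : Act G (2 * m)} (ha : a.Iso g)
    {F : Set (V (2 * m))} (hF : a.Fund F) (hcut : Cutoffs g) : IsProper a := by
  intro R
  obtain ⟨R₀, hR₀⟩ := hF.bdd.exists_norm_le
  set R' : ℝ := max (max R R₀) 0 with hR'
  have hRR' : R ≤ R' := (le_max_left _ _).trans (le_max_left _ _)
  have hR₀R' : R₀ ≤ R' := (le_max_right _ _).trans (le_max_left _ _)
  have hR'0 : 0 ≤ R' := le_max_right _ _
  -- the bound for the velocities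
  have hcont : Continuous fun q : V (2 * m) × V (2 * m) =>
      ∑ a, (∑ μ, g.θ q.1 a μ * q.2 μ) ^ 2 := by
    refine continuous_finsetSum _ fun a _ => (continuous_finsetSum _ fun μ _ => ?_).pow 2
    have h1 : Continuous fun q : V (2 * m) × V (2 * m) => g.θ q.1 a μ :=
      (g.smooth_θ a μ).continuous.comp continuous_fst
    have h2 : Continuous fun q : V (2 * m) × V (2 * m) => q.2 μ :=
      (PiLp.continuous_apply 2 _ μ).comp continuous_snd
    exact h1.mul h2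
  obtain ⟨B, hB⟩ := ((isCompact_closedBall (0 : V (2 * m)) R').prod
    (isCompact_closedBall (0 : V (2 * m)) (2 * R'))).exists_bound_of_continuousOn hcont.continuousOn
  have hB' : ∀ p v : V (2 * m), ‖p‖ ≤ R' → ‖v‖ ≤ 2 * R' →
      ∑ a, (∑ μ, g.θ p a μ * v μ) ^ 2 ≤ |B| := by
    intro p v hp hv
    have h1 := hB (p, v) ⟨mem_closedBall_zero_iff.2 hp, mem_closedBall_zero_iff.2 hv⟩
    exact (le_abs_self _).trans (h1.trans (le_abs_self _))
  obtain ⟨n, hn⟩ := exists_nat_ge (max R' (2 * (|B| + 1)))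
  have hn1 : R' ≤ n := (le_max_left _ _).trans hn
  have hn2 : 2 * (|B| + 1) ≤ n := (le_max_right _ _).trans hn
  obtain ⟨κ, hκs, hκc, hκ0, hκ1, hκn, hκd⟩ := hcut n
  have hBn : |B| * (1 / ((n : ℝ) + 1)) ^ 2 ≤ (1 / 2) ^ 2 := by
    have hB0 := abs_nonneg B
    have h1 : (0 : ℝ) < (n : ℝ) + 1 := by linarith
    rw [div_pow, one_pow, mul_one_div, div_le_iff₀ (by positivity)]
    nlinarith
  -- the translates of the fundamental set
  have hkey : ∀ γ ∈ {γ : G | ∃ y, ‖y‖ ≤ R ∧ ‖a.act γ y‖ ≤ R}, a.act γ '' F ⊆ tsupport κ := by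
    rintro γ ⟨y, hy, hγy⟩ _ ⟨z, hz, rfl⟩
    apply subset_tsupport
    rw [Function.mem_support]
    set v : V (2 * m) := z - y with hv
    have hzn : ‖z‖ ≤ R' := (hR₀ z hz).trans hR₀R'
    have hyn : ‖y‖ ≤ R' := hy.trans hRR'
    have hvn : ‖v‖ ≤ 2 * R' := (norm_sub_le _ _).trans (by linarith)
    have hder : ∀ t : ℝ, HasDerivAt (fun t : ℝ => κ (a.act γ (y + t • v)))
        (fderiv ℝ κ (a.act γ (y + t • v)) (fderiv ℝ (a.act γ) (y + t • v) v)) t := by
      intro t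
      have h1 : HasDerivAt (fun t : ℝ => y + t • v) v t := by
        have h2 := ((hasDerivAt_id t).smul_const v).const_add y
        rw [one_smul] at h2
        exact h2
      have h3 : HasFDerivAt (a.act γ) (fderiv ℝ (a.act γ) (y + t • v)) (y + t • v) :=
        (((a.smooth γ).differentiable (by simp)) _).hasFDerivAt
      have h4 : HasFDerivAt κ (fderiv ℝ κ (a.act γ (y + t • v))) (a.act γ (y + t • v)) :=
        ((hκs.differentiable (by simp)) _).hasFDerivAt
      have h5 : HasDerivAt (fun t : ℝ => a.act γ (y + t • v))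
          (fderiv ℝ (a.act γ) (y + t • v) v) t := h3.comp_hasDerivAt t h1
      exact h4.comp_hasDerivAt t h5
    have hbd : ∀ t ∈ Ico (0 : ℝ) 1,
        ‖fderiv ℝ κ (a.act γ (y + t • v)) (fderiv ℝ (a.act γ) (y + t • v) v)‖ ≤ 1 / 2 := by
      intro t ht
      have hp : ‖y + t • v‖ ≤ R' := by
        have e : y + t • v = (1 - t) • y + t • z := by
          rw [hv, smul_sub, sub_smul, one_smul]
          abel
        rw [e]
        refine (norm_add_le _ _).trans ?_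
        rw [norm_smul, norm_smul, Real.norm_of_nonneg ht.1,
          Real.norm_of_nonneg (show (0 : ℝ) ≤ 1 - t by linarith [ht.2])]
        nlinarith [mul_le_mul_of_nonneg_left hyn (show (0 : ℝ) ≤ 1 - t by linarith [ht.2]),
          mul_le_mul_of_nonneg_left hzn ht.1]
      have h1 := Z1b_bound g (κ := κ) (Φ := a.act γ) (v := v) (ha.isom γ (y + t • v))
        (hB' _ _ hp hvn) (hκd (a.act γ (y + t • v))) (abs_nonneg B)
      have h2 := h1.trans hBn
      rw [Real.norm_eq_abs]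
      exact abs_le_of_sq_le_sq h2 (by norm_num)
    have hmv := norm_image_sub_le_of_norm_deriv_le_segment_01'
      (fun t _ => (hder t).hasDerivWithinAt) hbd
    have e1 : κ (a.act γ (y + (1 : ℝ) • v)) = κ (a.act γ z) := by
      rw [one_smul, hv, add_sub_cancel]
    have e0 : κ (a.act γ (y + (0 : ℝ) • v)) = 1 := by
      rw [zero_smul, add_zero]
      exact hκn _ (hγy.trans (hRR'.trans hn1))
    rw [e1, e0, Real.norm_eq_abs, abs_le] at hmv
    intro h0
    rw [h0] at hmv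
    linarith [hmv.1]
  -- the volumes
  have himage : ∀ γ : G, a.act γ '' F = a.act γ⁻¹ ⁻¹' F := by
    intro γ
    ext y
    constructor
    · rintro ⟨z, hz, rfl⟩
      rw [mem_preimage, ← a.mul, inv_mul_cancel, a.one]
      exact hz
    · intro h
      exact ⟨a.act γ⁻¹ y, h, by rw [← a.mul, mul_inv_cancel, a.one]⟩
  have hmeas : ∀ γ : G, MeasurableSet (a.act γ '' F) := by
    intro γ
    rw [himage]
    exact (a.smooth γ⁻¹).continuous.measurable hF.meas
  have hvol : ∀ γ : G, g.vol (a.act γ '' F) = g.vol F := by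
    intro γ
    rw [himage]
    refine (measurePreserving_of_isom (Φ' := a.act γ)
      ⟨a.smooth γ⁻¹, ha.isom γ⁻¹, ha.ori γ⁻¹⟩ (fun y => ?_) (fun y => ?_)).measure_preimage
        hF.meas.nullMeasurableSet
    · rw [← a.mul, inv_mul_cancel, a.one]
    · rw [← a.mul, mul_inv_cancel, a.one]
  have hpos : 0 < g.vol F := by
    rw [pos_iff_ne_zero]
    intro h0
    have h1 : g.vol (⋃ γ : G, a.act γ '' F) = 0 :=
      measure_iUnion_null fun γ => by rw [hvol γ, h0]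
    have h2 : (⋃ γ : G, a.act γ '' F) = Set.univ := by
      rw [Set.eq_univ_iff_forall]
      intro y
      obtain ⟨γ, hγ, -⟩ := hF.tile y
      refine Set.mem_iUnion.2 ⟨γ⁻¹, ?_⟩
      rw [himage, inv_inv]
      exact hγ
    rw [h2] at h1
    exact (isOpen_univ.measure_pos g.vol Set.univ_nonempty).ne' h1
  have hdisj : Pairwise (Function.onFun Disjoint fun γ : G => a.act γ '' F ∩ tsupport κ) := by
    intro γ δ hne
    rw [Function.onFun, Set.disjoint_left]
    intro y h1 h2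
    have h3 := h1.1
    have h4 := h2.1
    rw [himage] at h3 h4
    have h5 := (hF.tile y).unique h3 h4
    exact hne (inv_injective h5)
  have hfin := Measure.finite_const_le_meas_of_disjoint_iUnion g.vol hpos
    (fun γ : G => (hmeas γ).inter (isClosed_tsupport κ).measurableSet) hdisj (by
      refine ne_top_of_le_ne_top (b := g.vol (tsupport κ)) ?_
        (measure_mono (Set.iUnion_subset fun γ => Set.inter_subset_right))
      exact (IsCompact.measure_lt_top hκc).ne)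
  refine hfin.subset fun γ hγ => ?_
  change g.vol F ≤ g.vol (a.act γ '' F ∩ tsupport κ)
  rw [Set.inter_eq_left.2 (hkey γ hγ), hvol γ]

end Pool.Agent.Lib.MP_df705a_gt.SV
end
end
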