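import Mathlib
import Pool.Agent.Lib.MP_df705a_gt.Mg.G030
import Pool.Agent.Lib.MP_df705a_gt.SV.St

section

/-!
# SV, L2a4: a Gamma integral
-/

open scoped ContDiff InnerProductSpace Matrix ENNReal NNReal Topology Real
open MeasureTheory Filter Set

noncomputable section

set_option linter.unusedSectionVars false

namespace Pool.Agent.Lib.MP_df705a_gt.SV

/-- `∫_0^1 exp(-r/t²) r^(-β) dr ≤ A t^(2 (1-β))`.
PROOF. `A = Γ(1 - β)`: `Real.integral_rpow_mul_exp_neg_mul_Ioi` (with `a = 1 - β`, rate `1/t²`) on `Ioi 0`, the integrand is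
nonnegative and integrable (`Real.GammaIntegral_convergent` scaled, or the integral being nonzero), and `Ioc 0 1 ⊆ Ioi 0`. -/
theorem gamma_bound {β : ℝ} (hβ : β < 1) : ∃ A : ℝ, 0 < A ∧ ∀ t : ℝ, 0 < t →
    ∫⁻ r in Ioc (0 : ℝ) 1, ENNReal.ofReal (Real.exp (-(r / t ^ 2)) * r ^ (-β)) ≤
      ENNReal.ofReal (A * t ^ (2 * (1 - β))) := by
  refine ⟨Real.Gamma (1 - β), Real.Gamma_pos_of_pos (by linarith), fun t ht => ?_⟩
  have hr : 0 < 1 / t ^ 2 := by positivity
  have key := Real.integral_rpow_mul_exp_neg_mul_Ioi (a := 1 - β) (r := 1 / t ^ 2)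
    (by linarith) hr
  have hpos : 0 < (1 / (1 / t ^ 2)) ^ (1 - β) * Real.Gamma (1 - β) :=
    mul_pos (Real.rpow_pos_of_pos (by positivity) _) (Real.Gamma_pos_of_pos (by linarith))
  have hint : IntegrableOn (fun r : ℝ => r ^ (1 - β - 1) * Real.exp (-(1 / t ^ 2 * r)))
      (Ioi 0) := by
    by_contra h
    have h0 := integral_undef h
    rw [key] at h0
    linarith
  have hnn : ∀ᵐ r ∂(volume.restrict (Ioi (0 : ℝ))),
      0 ≤ r ^ (1 - β - 1) * Real.exp (-(1 / t ^ 2 * r)) := by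
    filter_upwards [ae_restrict_mem measurableSet_Ioi] with r hr'
    have : (0 : ℝ) < r := hr'
    positivity
  calc ∫⁻ r in Ioc (0 : ℝ) 1, ENNReal.ofReal (Real.exp (-(r / t ^ 2)) * r ^ (-β))
      ≤ ∫⁻ r in Ioi (0 : ℝ), ENNReal.ofReal (Real.exp (-(r / t ^ 2)) * r ^ (-β)) :=
        lintegral_mono_set Ioc_subset_Ioi_self
    _ = ∫⁻ r in Ioi (0 : ℝ), ENNReal.ofReal (r ^ (1 - β - 1) * Real.exp (-(1 / t ^ 2 * r))) := by
        refine lintegral_congr fun r => ?_
        congr 1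
        rw [mul_comm]
        have h1 : (1 - β - 1 : ℝ) = -β := by ring
        have h2 : (1 / t ^ 2 * r : ℝ) = r / t ^ 2 := by ring
        rw [h1, h2]
    _ = ENNReal.ofReal (∫ r in Ioi (0 : ℝ), r ^ (1 - β - 1) * Real.exp (-(1 / t ^ 2 * r))) :=
        (ofReal_integral_eq_lintegral_ofReal hint hnn).symm
    _ ≤ ENNReal.ofReal (Real.Gamma (1 - β) * t ^ (2 * (1 - β))) := by
        rw [key]
        refine le_of_eq ?_
        congr 1
        rw [one_div_one_div, ← Real.rpow_natCast t 2, ← Real.rpow_mul ht.le, mul_comm]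
        norm_num

end Pool.Agent.Lib.MP_df705a_gt.SV
end
end

section

/-!
# SV, Q1: a countable family of test functions which computes all `L¹` norms
-/

open scoped ContDiff InnerProductSpace Matrix ENNReal NNReal Topology
open MeasureTheory Filter Set

noncomputable section

namespace Pool.Agent.Lib.MP_df705a_gt.SV

open Pool.Agent.Lib.MP_df705a_gt.RL

/-- The phase. -/
def phs (z : ℂ) : ℂ := (starRingEnd ℂ) z * ((‖z‖⁻¹ : ℝ) : ℂ)

theorem measurable_phs : Measurable phs := by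
  unfold phs
  exact (Complex.continuous_conj.measurable).mul
    (Complex.measurable_ofReal.comp (measurable_norm.inv))

theorem norm_phs_le (z : ℂ) : ‖phs z‖ ≤ 1 := by
  unfold phs
  rw [norm_mul, RCLike.norm_conj, Complex.norm_real, norm_inv, norm_norm]
  by_cases h : ‖z‖ = 0
  · rw [h]
    simp
  · rw [mul_inv_cancel₀ h]

theorem mul_phs (z : ℂ) : z * phs z = ((‖z‖ : ℝ) : ℂ) := by
  unfold phs
  rw [← mul_assoc, Complex.mul_conj, Complex.normSq_eq_norm_sq]
  by_cases h : ‖z‖ = 0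
  · rw [h]
    simp
  · rw [← Complex.ofReal_mul, pow_two, mul_assoc, mul_inv_cancel₀ h, mul_one]

/-- The countable family of test functions. -/
theorem exists_tests {N : ℕ} (ν : Measure (V N)) [SigmaFinite ν] :
    ∃ f : ℕ → V N → ℂ, (∀ n, Measurable (f n)) ∧ (∀ n y, ‖f n y‖ ≤ 1) ∧
      (∀ n, ∃ r : ℝ, ∀ y, r < ‖y‖ → f n y = 0) ∧
      ∀ h : V N → ℂ, Integrable h ν → ∀ c : ℝ, (∀ n, ‖∫ y, h y * f n y ∂ν‖ ≤ c) →
        ∫ y, ‖h y‖ ∂ν ≤ c := by
  classical
  have : Fact ((1 : ℝ≥0∞) ≤ 1) := ⟨le_rfl⟩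
  have : Fact ((1 : ℝ≥0∞) ≠ ⊤) := ⟨ENNReal.one_ne_top⟩
  set D : ℕ → Lp ℂ 1 ν := TopologicalSpace.denseSeq (Lp ℂ 1 ν) with hD
  let F : ℕ × ℕ → V N → ℂ := fun p =>
    (Metric.closedBall (0 : V N) (p.2 : ℝ)).indicator fun y => phs (D p.1 y)
  have hFm : ∀ p, Measurable (F p) := fun p =>
    (measurable_phs.comp (Lp.stronglyMeasurable (D p.1)).measurable).indicator
      Metric.isClosed_closedBall.measurableSet
  have hFb : ∀ p y, ‖F p y‖ ≤ 1 := fun p y =>
    (norm_indicator_le_norm_self _ _).trans (norm_phs_le _)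
  obtain ⟨e⟩ : Nonempty (ℕ ≃ ℕ × ℕ) := ⟨Nat.pairEquiv.symm⟩
  refine ⟨fun n => F (e n), fun n => hFm _, fun n y => hFb _ y, fun n => ⟨(e n).2, fun y hy => ?_⟩,
    fun h hh c hc => ?_⟩
  · exact indicator_of_notMem (fun h => by
      rw [mem_closedBall_zero_iff] at h
      linarith) _
  have hc' : ∀ p, ‖∫ y, h y * F p y ∂ν‖ ≤ c := fun p => by
    have := hc (e.symm p)
    simpa using this
  refine le_of_forall_pos_le_add fun ε hε => ?_
  -- approximate `h`
  set H : Lp ℂ 1 ν := (memLp_one_iff_integrable.2 hh).toLp h with hH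
  have hHh : H =ᵐ[ν] h := (memLp_one_iff_integrable.2 hh).coeFn_toLp
  obtain ⟨n, hn⟩ : ∃ n, dist H (D n) < ε / 2 :=
    (TopologicalSpace.denseRange_denseSeq (Lp ℂ 1 ν)).exists_dist_lt H (by positivity)
  have hDi : Integrable (fun y => D n y) ν := L1.integrable_coeFn _
  have hd : ∫ y, ‖h y - D n y‖ ∂ν < ε / 2 := by
    rw [dist_eq_norm] at hn
    rw [L1.norm_eq_integral_norm] at hn
    refine lt_of_eq_of_lt ?_ hn
    refine integral_congr_ae ?_
    filter_upwards [hHh, Lp.coeFn_sub H (D n)] with y h1 h2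
    rw [h2, Pi.sub_apply, h1]
  have hdi : Integrable (fun y => ‖h y - D n y‖) ν := (hh.sub hDi).norm
  -- the truncated integrals
  have h1 : ∀ l : ℕ, ∫ y in Metric.closedBall (0 : V N) (l : ℝ), ‖D n y‖ ∂ν ≤ c + ε / 2 := by
    intro l
    have i1 : Integrable (fun y => h y * F (n, l) y) ν :=
      hh.mul_bdd (c := 1) (hFm _).aestronglyMeasurable (Eventually.of_forall (hFb _))
    have i2 : Integrable (fun y => (D n y - h y) * F (n, l) y) ν :=
      (hDi.sub hh).mul_bdd (c := 1) (hFm _).aestronglyMeasurable (Eventually.of_forall (hFb _))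
    have e1 : ((∫ y in Metric.closedBall (0 : V N) (l : ℝ), ‖D n y‖ ∂ν : ℝ) : ℂ)
        = ∫ y, h y * F (n, l) y ∂ν + ∫ y, (D n y - h y) * F (n, l) y ∂ν := by
      rw [← integral_add i1 i2, ← integral_complex_ofReal,
        ← integral_indicator Metric.isClosed_closedBall.measurableSet]
      refine integral_congr_ae (Eventually.of_forall fun y => ?_)
      show (Metric.closedBall (0 : V N) (l : ℝ)).indicator (fun y => ((‖D n y‖ : ℝ) : ℂ)) y
        = h y * F (n, l) y + (D n y - h y) * F (n, l) y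
      rw [← add_mul, add_sub_cancel]
      by_cases hy : y ∈ Metric.closedBall (0 : V N) (l : ℝ)
      · rw [indicator_of_mem hy]
        show _ = D n y * (Metric.closedBall (0 : V N) (l : ℝ)).indicator (fun y => phs (D n y)) y
        rw [indicator_of_mem hy, mul_phs]
      · rw [indicator_of_notMem hy]
        show _ = D n y * (Metric.closedBall (0 : V N) (l : ℝ)).indicator (fun y => phs (D n y)) y
        rw [indicator_of_notMem hy, mul_zero]
    have e2 : ‖∫ y, (D n y - h y) * F (n, l) y ∂ν‖ ≤ ε / 2 := by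
      refine (norm_integral_le_integral_norm _).trans (le_trans ?_ hd.le)
      refine integral_mono i2.norm hdi fun y => ?_
      show ‖(D n y - h y) * F (n, l) y‖ ≤ ‖h y - D n y‖
      rw [norm_mul, norm_sub_rev]
      exact mul_le_of_le_one_right (norm_nonneg _) (hFb _ _)
    have e3 : ∫ y in Metric.closedBall (0 : V N) (l : ℝ), ‖D n y‖ ∂ν
        = ‖((∫ y in Metric.closedBall (0 : V N) (l : ℝ), ‖D n y‖ ∂ν : ℝ) : ℂ)‖ := by
      rw [Complex.norm_real, Real.norm_eq_abs,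
        abs_of_nonneg (integral_nonneg fun y => norm_nonneg _)]
    rw [e3, e1]
    exact (norm_add_le _ _).trans (add_le_add (hc' _) e2)
  have h2 : Tendsto (fun l : ℕ => ∫ y in Metric.closedBall (0 : V N) (l : ℝ), ‖D n y‖ ∂ν) atTop
      (𝓝 (∫ y, ‖D n y‖ ∂ν)) := by
    have e4 : ⋃ l : ℕ, Metric.closedBall (0 : V N) (l : ℝ) = univ := by
      refine eq_univ_of_forall fun y => ?_
      obtain ⟨l, hl⟩ := exists_nat_ge ‖y‖
      exact mem_iUnion.2 ⟨l, mem_closedBall_zero_iff.2 hl⟩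
    have := tendsto_setIntegral_of_monotone (μ := ν) (f := fun y => ‖D n y‖)
      (s := fun l : ℕ => Metric.closedBall (0 : V N) (l : ℝ))
      (fun l => Metric.isClosed_closedBall.measurableSet)
      (fun a b hab => Metric.closedBall_subset_closedBall (Nat.cast_le.2 hab))
      (by rw [e4]; exact hDi.norm.integrableOn)
    rw [e4, Measure.restrict_univ] at this
    exact this
  have h3 : ∫ y, ‖D n y‖ ∂ν ≤ c + ε / 2 := le_of_tendsto' h2 h1
  calc ∫ y, ‖h y‖ ∂ν ≤ ∫ y, (‖h y - D n y‖ + ‖D n y‖) ∂ν := by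
        refine integral_mono hh.norm (hdi.add hDi.norm) fun y => ?_
        calc ‖h y‖ = ‖(h y - D n y) + D n y‖ := by rw [sub_add_cancel]
          _ ≤ _ := norm_add_le _ _
    _ = ∫ y, ‖h y - D n y‖ ∂ν + ∫ y, ‖D n y‖ ∂ν := integral_add hdi hDi.norm
    _ ≤ ε / 2 + (c + ε / 2) := add_le_add hd.le h3
    _ = c + ε := by ring

end Pool.Agent.Lib.MP_df705a_gt.SV
end
end

section

/-!
# SV, Q2: a sup bound for an integral operator is an `L¹` bound for its kernel
-/

open scoped ContDiff InnerProductSpace Matrix ENNReal NNReal Topology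
open MeasureTheory Filter Set

noncomputable section

namespace Pool.Agent.Lib.MP_df705a_gt.SV

open Pool.Agent.Lib.MP_df705a_gt.RL

variable {m N : ℕ}

theorem norm_sb (j : Fin (2 ^ m)) : ‖(sb j : Sp m)‖ = 1 := by
  unfold sb
  rw [PiLp.norm_single]
  simp

theorem sb_inner (j : Fin (2 ^ m)) (w : Sp m) : ⟪(sb j : Sp m), w⟫_ℂ = w j := by
  unfold sb
  rw [EuclideanSpace.inner_single_left]
  simp

theorem norm_le_sum_coord (w : Sp m) : ‖w‖ ≤ ∑ j, ‖w j‖ := by
  have h : w = ∑ j, w j • (sb j : Sp m) := by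
    ext i
    rw [WithLp.ofLp_sum, Finset.sum_apply]
    simp [sb]
  calc ‖w‖ = ‖∑ j, w j • (sb j : Sp m)‖ := by rw [← h]
    _ ≤ ∑ j, ‖w j • (sb j : Sp m)‖ := norm_sum_le _ _
    _ = ∑ j, ‖w j‖ := by
        refine Finset.sum_congr rfl fun j _ => ?_
        rw [norm_smul, norm_sb, mul_one]

theorem norm_coord_le (w : Sp m) (j : Fin (2 ^ m)) : ‖w j‖ ≤ ‖w‖ := by
  rw [← sb_inner]
  exact (norm_inner_le_norm _ _).trans (by rw [norm_sb, one_mul])

/-- The norm of an endomorphism is at most the sum of the sizes of its entries. -/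
theorem norm_le_sum_entries (A : En m) : ‖A‖ ≤ ∑ i, ∑ j, ‖(A (sb i)) j‖ := by
  refine A.opNorm_le_bound (Finset.sum_nonneg fun i _ => Finset.sum_nonneg fun j _ =>
    norm_nonneg _) fun w => ?_
  have h : w = ∑ j, w j • (sb j : Sp m) := by
    ext i
    rw [WithLp.ofLp_sum, Finset.sum_apply]
    simp [sb]
  calc ‖A w‖ = ‖A (∑ j, w j • (sb j : Sp m))‖ := by rw [← h]
    _ = ‖∑ i, w i • A (sb i)‖ := by rw [map_sum]; simp only [map_smul]
    _ ≤ ∑ i, ‖w i • A (sb i)‖ := norm_sum_le _ _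
    _ ≤ ∑ i, (∑ j, ‖(A (sb i)) j‖) * ‖w‖ := by
        refine Finset.sum_le_sum fun i _ => ?_
        rw [norm_smul, mul_comm]
        exact mul_le_mul (norm_le_sum_coord _) (norm_coord_le _ _) (norm_nonneg _)
          (Finset.sum_nonneg fun j _ => norm_nonneg _)
    _ = _ := by rw [Finset.sum_mul]

/-- If the integral operator with the kernel `k` is bounded by `c` in the sup norm then
`∫ ‖k(x, y)‖ dy ≤ 4^m c`. -/
theorem l1_of_linf {ν : Measure (V N)} [SigmaFinite ν] {k : V N → V N → En m}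
    (hk : StronglyMeasurable (Function.uncurry k))
    (hfin : ∀ᵐ x ∂ν, ∫⁻ y, ‖k x y‖ₑ ∂ν < ⊤) {c : ℝ}
    (h : ∀ f : V N → Sp m, Measurable f → (∀ y, ‖f y‖ ≤ 1) → (∃ r : ℝ, ∀ y, r < ‖y‖ → f y = 0) →
      ∀ᵐ x ∂ν, ‖∫ y, k x y (f y) ∂ν‖ ≤ c) :
    ∀ᵐ x ∂ν, ∫⁻ y, ‖k x y‖ₑ ∂ν ≤ ENNReal.ofReal ((2 ^ m) ^ 2 * c) := by
  obtain ⟨f, fm, fb, fs, hf⟩ := exists_tests ν
  have h1 : ∀ᵐ x ∂ν, ∀ n (i : Fin (2 ^ m)), ‖∫ y, k x y (f n y • sb i) ∂ν‖ ≤ c := by
    rw [ae_all_iff]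
    intro n
    rw [ae_all_iff]
    intro i
    refine h (fun y => f n y • sb i) ((fm n).smul_const _) (fun y => ?_) ?_
    · rw [norm_smul, norm_sb, mul_one]
      exact fb n y
    · obtain ⟨r, hr⟩ := fs n
      exact ⟨r, fun y hy => by rw [hr y hy, zero_smul]⟩
  filter_upwards [hfin, h1] with x hx h2
  have hkx : StronglyMeasurable fun y => k x y := hk.comp_measurable measurable_prodMk_left
  have hint : Integrable (fun y => k x y) ν := ⟨hkx.aestronglyMeasurable, hx⟩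
  have he : ∀ i j, Integrable (fun y => (k x y (sb i)) j) ν := by
    intro i j
    have h3 : Integrable (fun y => k x y (sb i)) ν :=
      (ContinuousLinearMap.apply ℂ (Sp m) (sb i)).integrable_comp hint
    exact (EuclideanSpace.proj (𝕜 := ℂ) j : Sp m →L[ℂ] ℂ).integrable_comp h3
  have hent : ∀ i j, ∫ y, ‖(k x y (sb i)) j‖ ∂ν ≤ c := by
    intro i j
    refine hf _ (he i j) c fun n => ?_
    have i1 : Integrable (fun y => k x y (f n y • sb i)) ν := by
      have h3 : Integrable (fun y => k x y (sb i)) ν :=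
        (ContinuousLinearMap.apply ℂ (Sp m) (sb i)).integrable_comp hint
      have h4 : Integrable (fun y => f n y • k x y (sb i)) ν :=
        h3.bdd_smul 1 (fm n).aestronglyMeasurable (Eventually.of_forall (fb n))
      refine h4.congr (Eventually.of_forall fun y => ?_)
      show _ = k x y (f n y • sb i)
      rw [map_smul]
    have e1 : ∫ y, (k x y (sb i)) j * f n y ∂ν = (∫ y, k x y (f n y • sb i) ∂ν) j := by
      have e2 := (EuclideanSpace.proj (𝕜 := ℂ) j : Sp m →L[ℂ] ℂ).integral_comp_comm i1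
      have e3 : (∫ y, k x y (f n y • sb i) ∂ν) j
          = (EuclideanSpace.proj (𝕜 := ℂ) j : Sp m →L[ℂ] ℂ) (∫ y, k x y (f n y • sb i) ∂ν) := rfl
      rw [e3, ← e2]
      refine integral_congr_ae (Eventually.of_forall fun y => ?_)
      show (k x y (sb i)) j * f n y = (k x y (f n y • sb i)) j
      rw [map_smul]
      show _ = f n y * (k x y (sb i)) j
      ring
    rw [e1]
    exact (norm_coord_le _ _).trans (h2 n i)
  have e4 : ∫⁻ y, ‖k x y‖ₑ ∂ν = ENNReal.ofReal (∫ y, ‖k x y‖ ∂ν) :=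
    (ofReal_integral_norm_eq_lintegral_enorm hint).symm
  rw [e4]
  refine ENNReal.ofReal_le_ofReal ?_
  calc ∫ y, ‖k x y‖ ∂ν ≤ ∫ y, ∑ i, ∑ j, ‖(k x y (sb i)) j‖ ∂ν := by
        refine integral_mono hint.norm ?_ fun y => norm_le_sum_entries _
        exact integrable_finsetSum _ fun i _ => integrable_finsetSum _ fun j _ => (he i j).norm
    _ = ∑ i, ∑ j, ∫ y, ‖(k x y (sb i)) j‖ ∂ν := by
        rw [integral_finsetSum _ fun i _ => integrable_finsetSum _ fun j _ => (he i j).norm]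
        refine Finset.sum_congr rfl fun i _ => ?_
        rw [integral_finsetSum _ fun j _ => (he i j).norm]
    _ ≤ ∑ i : Fin (2 ^ m), ∑ j : Fin (2 ^ m), c :=
        Finset.sum_le_sum fun i _ => Finset.sum_le_sum fun j _ => hent i j
    _ = (2 ^ m) ^ 2 * c := by
        simp only [Finset.sum_const, Finset.card_univ, Fintype.card_fin, nsmul_eq_mul]
        push_cast
        ring

end Pool.Agent.Lib.MP_df705a_gt.SV
end
end

section

/-!
# SV, Z3: duality, a cycle on which all cocycles of growth `exp (δ diam)` vanish is a limit of boundaries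
-/

open scoped Topology ENNReal
open Filter Set

noncomputable section

namespace Pool.Agent.Lib.MP_df705a_gt.SVS

variable {G : Type*} [Group G] {n : ℕ}

theorem diam_smul (ℓ : G → ℝ) (γ : G) (g : Fin (n + 1) → G) :
    diam ℓ (fun i => γ * g i) = diam ℓ g := by
  unfold diam
  congr 1
  funext p
  rw [mul_inv_rev, mul_assoc, inv_mul_cancel_left]

theorem diam_nonneg {ℓ : G → ℝ} (hℓ : IsLength ℓ) (g : Fin (n + 1) → G) : 0 ≤ diam ℓ g :=
  Real.iSup_nonneg fun _ => hℓ.nonneg _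

/-- `g = g_0 · smp (nml g)`. -/
theorem smp_nml (g : Fin (n + 1) → G) : (fun i => g 0 * smp (nml g) i) = g := by
  funext i
  refine Fin.cases ?_ (fun j => ?_) i
  · simp [smp]
  · simp [smp, nml]

private theorem Z3_nml_smul (γ : G) (g : Fin (n + 1) → G) : nml (fun i => γ * g i) = nml g := by
  funext i
  unfold nml
  rw [mul_inv_rev, mul_assoc, inv_mul_cancel_left]

private theorem Z3_nml_smp (h : Fin n → G) : nml (smp h) = h := by
  funext i
  simp [smp, nml]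

private theorem Z3_face (g : Fin (n + 2) → G) (i : Fin (n + 2)) :
    nml (fun j => smp (nml g) (i.succAbove j)) = nml (fun j => g (i.succAbove j)) := by
  have h := smp_nml g
  have h2 : (fun j => g (i.succAbove j)) = fun j => g 0 * smp (nml g) (i.succAbove j) := by
    funext j
    exact (congrFun h (i.succAbove j)).symm
  rw [h2, Z3_nml_smul]

/-- the boundary as a linear map -/
private def Z3_B : ((Fin (n + 1) → G) →₀ ℝ) →ₗ[ℝ] ((Fin n → G) →₀ ℝ) where
  toFun := bdry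
  map_add' b b' := by
    unfold bdry
    refine Finsupp.sum_add_index' (fun h => ?_) (fun h t t' => ?_)
    · simp
    · rw [← Finset.sum_add_distrib]
      refine Finset.sum_congr rfl fun i _ => ?_
      rw [mul_add, Finsupp.single_add]
  map_smul' r b := by
    unfold bdry
    rw [Finsupp.sum_smul_index' (fun h => by simp), RingHom.id_apply, Finsupp.smul_sum]
    refine Finsupp.sum_congr fun h _ => ?_
    rw [Finset.smul_sum]
    refine Finset.sum_congr rfl fun i _ => ?_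
    rw [Finsupp.smul_single]
    congr 1
    simp only [smul_eq_mul]
    ring

private theorem Z3_B_apply (b : (Fin (n + 1) → G) →₀ ℝ) : Z3_B b = bdry b := rfl

/-- The value of a cocycle on a boundary is zero. -/
theorem cocycle_bdry {ℓ : G → ℝ} {δ : ℝ} {c : (Fin (n + 1) → G) → ℝ} (hc : IsCocycle ℓ δ c)
    (b : (Fin (n + 1) → G) →₀ ℝ) : ((bdry b).sum fun h t => t * c (smp h)) = 0 := by
  have hval : ∀ x : (Fin n → G) →₀ ℝ, (x.sum fun h t => t * c (smp h))
      = Finsupp.linearCombination ℝ (fun h => c (smp h)) x := by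
    intro x
    rw [Finsupp.linearCombination_apply]
    rfl
  have hc2 : ∀ g : Fin (n + 1) → G, c (smp (nml g)) = c g := by
    intro g
    have h := hc.inv (g 0) (smp (nml g))
    rw [smp_nml] at h
    exact h.symm
  rw [hval, bdry, Finsupp.sum, map_sum]
  refine Finset.sum_eq_zero fun h _ => ?_
  rw [map_sum]
  have h3 : ∀ i : Fin (n + 2), Finsupp.linearCombination ℝ (fun h => c (smp h))
      (Finsupp.single (nml fun j => smp h (i.succAbove j)) ((-1 : ℝ) ^ (i : ℕ) * b h))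
      = b h * ((-1 : ℝ) ^ (i : ℕ) * c (fun j => smp h (i.succAbove j))) := by
    intro i
    rw [Finsupp.linearCombination_single, hc2, smul_eq_mul]
    ring
  rw [Finset.sum_congr rfl fun i _ => h3 i, ← Finset.mul_sum, hc.coc, mul_zero]

/-- the weighted norm -/
private def Z3_N (ℓ : G → ℝ) (δ : ℝ) (x : (Fin n → G) →₀ ℝ) : ℝ :=
  x.sum fun h t => |t| * Real.exp (δ * diam ℓ (smp h))

private theorem Z3_N_eq (ℓ : G → ℝ) (δ : ℝ) (x : (Fin n → G) →₀ ℝ) {s : Finset (Fin n → G)}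
    (hs : x.support ⊆ s) :
    Z3_N ℓ δ x = ∑ h ∈ s, |x h| * Real.exp (δ * diam ℓ (smp h)) :=
  Finsupp.sum_of_support_subset _ hs _ fun h _ => by simp

private theorem Z3_N_nonneg (ℓ : G → ℝ) (δ : ℝ) (x : (Fin n → G) →₀ ℝ) : 0 ≤ Z3_N ℓ δ x :=
  Finset.sum_nonneg fun h _ => by positivity

private theorem Z3_N_add (ℓ : G → ℝ) (δ : ℝ) (x y : (Fin n → G) →₀ ℝ) :
    Z3_N ℓ δ (x + y) ≤ Z3_N ℓ δ x + Z3_N ℓ δ y := by
  classical
  rw [Z3_N_eq ℓ δ (x + y) Finsupp.support_add,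
    Z3_N_eq ℓ δ x (s := x.support ∪ y.support) Finset.subset_union_left,
    Z3_N_eq ℓ δ y (s := x.support ∪ y.support) Finset.subset_union_right, ← Finset.sum_add_distrib]
  refine Finset.sum_le_sum fun h _ => ?_
  rw [← add_mul]
  exact mul_le_mul_of_nonneg_right (by rw [Finsupp.add_apply]; exact abs_add_le _ _)
    (Real.exp_pos _).le

private theorem Z3_N_smul (ℓ : G → ℝ) (δ : ℝ) (r : ℝ) (x : (Fin n → G) →₀ ℝ) :
    Z3_N ℓ δ (r • x) = |r| * Z3_N ℓ δ x := by
  rw [Z3_N_eq ℓ δ (r • x) Finsupp.support_smul, Z3_N_eq ℓ δ x (Finset.Subset.refl _),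
    Finset.mul_sum]
  refine Finset.sum_congr rfl fun h _ => ?_
  rw [Finsupp.smul_apply, smul_eq_mul, abs_mul, mul_assoc]

private theorem Z3_N_single (ℓ : G → ℝ) (δ : ℝ) (h : Fin n → G) :
    Z3_N ℓ δ (Finsupp.single h 1) = Real.exp (δ * diam ℓ (smp h)) := by
  unfold Z3_N
  rw [Finsupp.sum_single_index (by simp), abs_one, one_mul]

/-- the quotient seminorm -/
private def Z3_D (ℓ : G → ℝ) (δ : ℝ) (x : (Fin n → G) →₀ ℝ) : ℝ :=
  ⨅ b : (Fin (n + 1) → G) →₀ ℝ, Z3_N ℓ δ (x - Z3_B b)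

private theorem Z3_bdd (ℓ : G → ℝ) (δ : ℝ) (x : (Fin n → G) →₀ ℝ) :
    BddBelow (range fun b : (Fin (n + 1) → G) →₀ ℝ => Z3_N ℓ δ (x - Z3_B b)) :=
  ⟨0, by rintro _ ⟨b, rfl⟩; exact Z3_N_nonneg _ _ _⟩

private theorem Z3_D_le (ℓ : G → ℝ) (δ : ℝ) (x : (Fin n → G) →₀ ℝ)
    (b : (Fin (n + 1) → G) →₀ ℝ) : Z3_D ℓ δ x ≤ Z3_N ℓ δ (x - Z3_B b) :=
  ciInf_le (Z3_bdd ℓ δ x) b

private theorem Z3_D_nonneg (ℓ : G → ℝ) (δ : ℝ) (x : (Fin n → G) →₀ ℝ) : 0 ≤ Z3_D ℓ δ x :=
  le_ciInf fun _ => Z3_N_nonneg _ _ _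

private theorem Z3_D_add (ℓ : G → ℝ) (δ : ℝ) (x y : (Fin n → G) →₀ ℝ) :
    Z3_D ℓ δ (x + y) ≤ Z3_D ℓ δ x + Z3_D ℓ δ y := by
  refine le_of_forall_pos_le_add fun ε hε => ?_
  obtain ⟨b, hb⟩ := exists_lt_of_ciInf_lt (show Z3_D ℓ δ x < Z3_D ℓ δ x + ε / 2 by linarith)
  obtain ⟨b', hb'⟩ := exists_lt_of_ciInf_lt (show Z3_D ℓ δ y < Z3_D ℓ δ y + ε / 2 by linarith)
  have h1 := Z3_D_le ℓ δ (x + y) (b + b')
  have e : x + y - Z3_B (b + b') = (x - Z3_B b) + (y - Z3_B b') := by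
    rw [map_add]
    abel
  rw [e] at h1
  have h2 := Z3_N_add ℓ δ (x - Z3_B b) (y - Z3_B b')
  linarith

private theorem Z3_D_smul_le (ℓ : G → ℝ) (δ : ℝ) (x : (Fin n → G) →₀ ℝ) {r : ℝ} (hr : 0 < r) :
    Z3_D ℓ δ (r • x) ≤ r * Z3_D ℓ δ x := by
  refine le_of_forall_pos_le_add fun ε hε => ?_
  obtain ⟨b, hb⟩ := exists_lt_of_ciInf_lt
    (show Z3_D ℓ δ x < Z3_D ℓ δ x + ε / r by have := div_pos hε hr; linarith)
  have h1 := Z3_D_le ℓ δ (r • x) (r • b)
  rw [map_smul, ← smul_sub, Z3_N_smul, abs_of_pos hr] at h1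
  have h2 : r * Z3_N ℓ δ (x - Z3_B b) ≤ r * (Z3_D ℓ δ x + ε / r) :=
    mul_le_mul_of_nonneg_left hb.le hr.le
  rw [mul_add, mul_div_cancel₀ _ hr.ne'] at h2
  exact h1.trans h2

private theorem Z3_D_smul (ℓ : G → ℝ) (δ : ℝ) (x : (Fin n → G) →₀ ℝ) {r : ℝ} (hr : 0 < r) :
    Z3_D ℓ δ (r • x) = r * Z3_D ℓ δ x := by
  refine le_antisymm (Z3_D_smul_le ℓ δ x hr) ?_
  have h := Z3_D_smul_le ℓ δ (r • x) (inv_pos.2 hr)
  rw [inv_smul_smul₀ hr.ne'] at h
  calc r * Z3_D ℓ δ x ≤ r * (r⁻¹ * Z3_D ℓ δ (r • x)) := mul_le_mul_of_nonneg_left h hr.le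
    _ = Z3_D ℓ δ (r • x) := by rw [mul_inv_cancel_left₀ hr.ne']

/-- PROOF (Hahn-Banach). `E = lp (fun _ : Fin n → G => ℝ) 1`, `J : ((Fin n → G) →₀ ℝ) → E` multiplies by the weight
`exp (δ diam (smp h))`. If the conclusion fails for some `ε`, then `J z` is not in the closure of `J (range bdry)`, so there is a
continuous linear functional `Λ` on `E`, `Λ = 0` on this subspace and `Λ (J z) ≠ 0` (for instance
`Submodule.exists_dual_map_eq_bot_of_notMem`, or `exists_dual_forall_apply_eq_zero_iff`, or separation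
`geometric_hahn_banach_closed_point`). Put `c g = Λ (J (single (nml g) 1))`. Then `|c g| ≤ ‖Λ‖ exp (δ diam g)` (`diam` is invariant), `c` is
invariant (`nml (γ g) = nml g`) and a cocycle (`Λ (J (bdry (single h 1))) = 0` and invariance), and
`∑ z(h) c(smp h) = Λ (J z) ≠ 0`: contradiction. -/
theorem dual {ℓ : G → ℝ} (hℓ : IsLength ℓ) {δ : ℝ} (hδ : 0 ≤ δ) {z : (Fin n → G) →₀ ℝ}
    (hz : ∀ c : (Fin (n + 1) → G) → ℝ, IsCocycle ℓ δ c → (z.sum fun h t => t * c (smp h)) = 0)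
    {ε : ℝ} (hε : 0 < ε) :
    ∃ b : (Fin (n + 1) → G) →₀ ℝ,
      ((z - bdry b).sum fun h t => |t| * Real.exp (δ * diam ℓ (smp h))) < ε := by
  by_contra hcon
  push Not at hcon
  have hDz : ε ≤ Z3_D ℓ δ z := le_ciInf fun b => hcon b
  have hz0 : z ≠ 0 := by
    rintro rfl
    have h1 := Z3_D_le ℓ δ (0 : (Fin n → G) →₀ ℝ) 0
    rw [map_zero, sub_zero] at h1
    have h2 : Z3_N ℓ δ (0 : (Fin n → G) →₀ ℝ) = 0 := Finsupp.sum_zero_index
    rw [h2] at h1
    linarith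
  obtain ⟨f, hf1, hf2⟩ : ∃ f : ((Fin n → G) →₀ ℝ) →ₗ.[ℝ] ℝ,
      (∀ x : f.domain, ∃ r : ℝ, (x : (Fin n → G) →₀ ℝ) = r • z ∧ f x = r * Z3_D ℓ δ z) ∧
      ∃ hzf : z ∈ f.domain, f ⟨z, hzf⟩ = Z3_D ℓ δ z := by
    refine ⟨LinearPMap.mkSpanSingleton (K := ℝ) z (Z3_D ℓ δ z) hz0, ?_,
      Submodule.mem_span_singleton_self z, ?_⟩
    · rintro ⟨x, hx⟩
      obtain ⟨r, hr⟩ := Submodule.mem_span_singleton.1 hx
      subst hr
      exact ⟨r, rfl, LinearPMap.mkSpanSingleton'_apply _ _ _ r hx⟩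
    · exact LinearPMap.mkSpanSingleton'_apply_self _ _ _ _
  obtain ⟨hzf, hf2⟩ := hf2
  obtain ⟨Λ, hΛ1, hΛ2⟩ := exists_extension_of_le_sublinear f (Z3_D ℓ δ)
    (fun r hr x => Z3_D_smul ℓ δ x hr) (Z3_D_add ℓ δ) (by
      intro x
      obtain ⟨r, hr1, hr2⟩ := hf1 x
      rw [hr1, hr2]
      rcases le_or_gt r 0 with hr | hr
      · refine le_trans ?_ (Z3_D_nonneg _ _ _)
        exact mul_nonpos_of_nonpos_of_nonneg hr (Z3_D_nonneg _ _ _)
      · rw [Z3_D_smul ℓ δ z hr])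
  have hΛz : Λ z = Z3_D ℓ δ z := by
    have h1 := hΛ1 ⟨z, hzf⟩
    rw [hf2] at h1
    exact h1
  have hΛN : ∀ x, Λ x ≤ Z3_N ℓ δ x := by
    intro x
    refine (hΛ2 x).trans ?_
    have h1 := Z3_D_le ℓ δ x 0
    rwa [map_zero, sub_zero] at h1
  have hΛB : ∀ b, Λ (Z3_B b) = 0 := by
    have h1 : ∀ b, Λ (Z3_B b) ≤ 0 := by
      intro b
      refine (hΛ2 _).trans ?_
      have h2 := Z3_D_le ℓ δ (Z3_B b) b
      rw [sub_self] at h2
      have h3 : Z3_N ℓ δ (0 : (Fin n → G) →₀ ℝ) = 0 := Finsupp.sum_zero_index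
      rwa [h3] at h2
    intro b
    refine le_antisymm (h1 b) ?_
    have h2 := h1 (-b)
    rw [map_neg, map_neg] at h2
    linarith
  have hc : IsCocycle ℓ δ (fun g : Fin (n + 1) → G => Λ (Finsupp.single (nml g) 1)) := by
    refine ⟨fun γ g => ?_, fun g => ?_, 1, fun g => ?_⟩
    · change Λ (Finsupp.single (nml fun i => γ * g i) 1) = Λ (Finsupp.single (nml g) 1)
      rw [Z3_nml_smul]
    · have h1 := hΛB (Finsupp.single (nml g) 1)
      rw [Z3_B_apply, bdry, Finsupp.sum_single_index (by simp), map_sum] at h1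
      rw [← h1]
      refine Finset.sum_congr rfl fun i _ => ?_
      rw [Z3_face, mul_one]
      have e : Finsupp.single (nml fun j => g (i.succAbove j)) ((-1 : ℝ) ^ (i : ℕ))
          = (-1 : ℝ) ^ (i : ℕ) • Finsupp.single (nml fun j => g (i.succAbove j)) (1 : ℝ) := by
        rw [Finsupp.smul_single, smul_eq_mul, mul_one]
      rw [e, map_smul, smul_eq_mul]
    · have h1 := hΛN (Finsupp.single (nml g) 1)
      have h2 := hΛN (-Finsupp.single (nml g) 1)
      have h3 : Z3_N ℓ δ (-Finsupp.single (nml g) (1 : ℝ)) = Z3_N ℓ δ (Finsupp.single (nml g) 1) := by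
        rw [← neg_one_smul ℝ, Z3_N_smul, abs_neg, abs_one, one_mul]
      rw [h3, map_neg] at h2
      have h4 : diam ℓ (smp (nml g)) = diam ℓ g := by
        rw [← diam_smul ℓ (g 0) (smp (nml g)), smp_nml]
      rw [Z3_N_single, h4] at h1 h2
      rw [one_mul, abs_le]
      constructor <;> linarith
  have hfin := hz _ hc
  simp only [Z3_nml_smp] at hfin
  have hrep : (z.sum fun h t => t * Λ (Finsupp.single h 1)) = Λ z := by
    conv_rhs => rw [← Finsupp.sum_single z]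
    rw [Finsupp.sum, Finsupp.sum, map_sum]
    refine Finset.sum_congr rfl fun h _ => ?_
    have e : Finsupp.single h (z h) = z h • Finsupp.single h (1 : ℝ) := by
      rw [Finsupp.smul_single, smul_eq_mul, mul_one]
    rw [e, map_smul, smul_eq_mul]
  rw [hrep, hΛz] at hfin
  linarith

end Pool.Agent.Lib.MP_df705a_gt.SVS
end
end
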