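import Pool.Agent.Lib.MP_df705a_gt.Mg.G034
import Pool.Agent.Lib.MP_df705a_gt.Mg.G033

section

/-!
# RL2, Y4: the square of the Dirac operator
-/

open scoped ContDiff InnerProductSpace Matrix ENNReal
open MeasureTheory

noncomputable section

namespace Pool.Agent.Lib.MP_df705a_gt.RL

variable {N m : ℕ}

private theorem y4_ofs {ι : Type*} (t : Finset ι) (f : ι → ℝ) (A : En m) :
    ((∑ i ∈ t, f i : ℝ) : ℂ) • A = ∑ i ∈ t, (f i : ℂ) • A := by
  rw [Complex.ofReal_sum]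
  exact Finset.sum_smul (R := ℂ) (M := En m)

private theorem y4_ofsp {ι : Type*} (t : Finset ι) (f : ι → ℝ) (v : Sp m) :
    ((∑ i ∈ t, f i : ℝ) : ℂ) • v = ∑ i ∈ t, (f i : ℂ) • v := by
  rw [Complex.ofReal_sum]
  exact Finset.sum_smul (R := ℂ) (M := Sp m)

private theorem y4_ssub (r : ℂ) (A A' : En m) : r • A - r • A' = r • (A - A') :=
  (smul_sub (A := En m) r A A').symm

private theorem y4_sadd (r : ℂ) (A A' : En m) : r • A + r • A' = r • (A + A') :=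
  (smul_add (A := En m) r A A').symm

private theorem y4_adds (r s : ℂ) (A : En m) : r • A + s • A = (r + s) • A :=
  (add_smul (M := En m) r s A).symm

private theorem y4_zs (A : En m) : (0 : ℂ) • A = 0 := zero_smul (M₀ := ℂ) (A := En m) A

private theorem y4_sz (r : ℂ) : r • (0 : En m) = 0 := smul_zero (A := En m) r

private theorem y4_negs (r : ℂ) (A : En m) : (-r) • A = - (r • A) :=
  neg_smul (R := ℂ) (M := En m) r A

private theorem y4_subs (r s : ℂ) (A : En m) : (r - s) • A = r • A - s • A :=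
  sub_smul (R := ℂ) (M := En m) r s A

private theorem y4_comm {A : Type*} [Ring A] [Algebra ℂ A] (a b : ℂ) (S T : A) :
    (S + a • (1 : A)) * (T + b • (1 : A)) - (T + b • (1 : A)) * (S + a • (1 : A))
      = S * T - T * S := by
  simp only [add_mul, mul_add, smul_mul_assoc, mul_smul_comm, one_mul, mul_one, smul_add]
  rw [smul_comm b a (1 : A)]
  abel

private theorem y4_alg {n : ℕ} (G : Fin n → En m) (h : Fin n → Fin n → ℝ)
    (hh : ∀ μ ν, h μ ν = h ν μ)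
    (hG : ∀ μ ν, G μ * G ν + G ν * G μ = (-2 * (h μ ν : ℂ)) • (1 : En m))
    (X : Fin n → Fin n → Sp m) :
    ∑ μ, ∑ ν, G μ (G ν (X μ ν)) = - ∑ μ, ∑ ν, (h μ ν : ℂ) • X μ ν
      + (1 / 2 : ℂ) • ∑ μ, ∑ ν, G μ (G ν (X μ ν - X ν μ)) := by
  have h1 : ∀ μ ν v, G ν (G μ v) = - G μ (G ν v) - (2 : ℂ) • ((h μ ν : ℂ) • v) := by
    intro μ ν v
    have h2 := congrArg (fun T : En m => T v) (hG μ ν)
    change G μ (G ν v) + G ν (G μ v) = (-2 * (h μ ν : ℂ)) • v at h2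
    rw [neg_mul, neg_smul, mul_smul] at h2
    rw [sub_eq_add_neg, ← h2]
    abel
  have hS : ∑ μ, ∑ ν, G μ (G ν (X μ ν)) = - ∑ μ, ∑ ν, G μ (G ν (X ν μ))
      - (2 : ℂ) • ∑ μ, ∑ ν, (h μ ν : ℂ) • X μ ν := by
    have h2 : ∑ μ, ∑ ν, (h μ ν : ℂ) • X μ ν = ∑ μ, ∑ ν, (h μ ν : ℂ) • X ν μ := by
      rw [Finset.sum_comm]
      exact Finset.sum_congr rfl fun ν _ => Finset.sum_congr rfl fun μ _ => by rw [hh]
    rw [h2, Finset.smul_sum, ← Finset.sum_neg_distrib, ← Finset.sum_sub_distrib, Finset.sum_comm]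
    refine Finset.sum_congr rfl fun ν _ => ?_
    rw [Finset.smul_sum, ← Finset.sum_neg_distrib, ← Finset.sum_sub_distrib]
    refine Finset.sum_congr rfl fun μ _ => ?_
    exact h1 ν μ (X μ ν)
  have hT : ∑ μ, ∑ ν, G μ (G ν (X μ ν - X ν μ)) = ∑ μ, ∑ ν, G μ (G ν (X μ ν))
      - ∑ μ, ∑ ν, G μ (G ν (X ν μ)) := by
    simp only [map_sub, Finset.sum_sub_distrib]
  have h3 : ∑ μ, ∑ ν, G μ (G ν (X ν μ)) = - ∑ μ, ∑ ν, G μ (G ν (X μ ν))
      - (2 : ℂ) • ∑ μ, ∑ ν, (h μ ν : ℂ) • X μ ν := by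
    rw [hS]
    abel
  rw [hT, h3, sub_sub_eq_add_sub, sub_neg_eq_add]
  rw [show ∑ μ, ∑ ν, G μ (G ν (X μ ν)) + (2 : ℂ) • ∑ μ, ∑ ν, (h μ ν : ℂ) • X μ ν
    + ∑ μ, ∑ ν, G μ (G ν (X μ ν)) = (2 : ℂ) • (∑ μ, ∑ ν, G μ (G ν (X μ ν))
      + ∑ μ, ∑ ν, (h μ ν : ℂ) • X μ ν) by rw [smul_add, two_smul ℂ (∑ μ, ∑ ν, G μ (G ν (X μ ν)))]; abel,
    smul_smul]
  norm_num

private theorem y4_clm {A : V (2 * m) → En m} (hA : Differentiable ℝ A)
    {φ : V (2 * m) → Sp m} (hφ : Differentiable ℝ φ) (μ : Fin (2 * m)) (y : V (2 * m)) :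
    pd μ (fun y => A y (φ y)) y = pd μ A y (φ y) + A y (pd μ φ y) := by
  have h1 : HasFDerivAt (fun y => ContinuousLinearMap.restrictScalarsL ℂ (Sp m) (Sp m) ℝ ℝ (A y))
      ((ContinuousLinearMap.restrictScalarsL ℂ (Sp m) (Sp m) ℝ ℝ).comp (fderiv ℝ A y)) y :=
    (ContinuousLinearMap.restrictScalarsL ℂ (Sp m) (Sp m) ℝ ℝ).hasFDerivAt.comp y
      (hA y).hasFDerivAt
  have h2 := h1.clm_apply (hφ y).hasFDerivAt
  have h3 : fderiv ℝ (fun y => A y (φ y)) y = _ := h2.fderiv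
  unfold pd
  rw [h3]
  exact add_comm (A y (fderiv ℝ φ y (bv μ))) (fderiv ℝ A y (bv μ) (φ y))

private theorem y4_ofr {r : V N → ℝ} (h : Differentiable ℝ r) (μ : Fin N) (y : V N) :
    pd μ (fun y => (r y : ℂ)) y = ((pd μ r y : ℝ) : ℂ) := by
  unfold pd
  have h1 : HasFDerivAt (fun y => (r y : ℂ)) (Complex.ofRealCLM.comp (fderiv ℝ r y)) y :=
    Complex.ofRealCLM.hasFDerivAt.comp y (h y).hasFDerivAt
  rw [h1.fderiv]
  rfl

private theorem y4_smul {F : Type*} [NormedAddCommGroup F] [NormedSpace ℂ F]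
    {r : V N → ℝ} (h : Differentiable ℝ r) {φ : V N → F}
    (hφ : Differentiable ℝ φ) (μ : Fin N) (y : V N) :
    pd μ (fun y => (r y : ℂ) • φ y) y = ((pd μ r y : ℝ) : ℂ) • φ y + (r y : ℂ) • pd μ φ y := by
  have h1 : Differentiable ℝ fun y => (r y : ℂ) := Complex.ofRealCLM.differentiable.comp h
  rw [← y4_ofr h]
  unfold pd
  rw [fderiv_fun_smul (h1 y) (hφ y)]
  exact add_comm ((r y : ℂ) • fderiv ℝ φ y (bv μ)) (fderiv ℝ (fun y => (r y : ℂ)) y (bv μ) • φ y)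

private theorem y4_sum {F : Type*} [NormedAddCommGroup F] [NormedSpace ℝ F] {ι : Type*}
    (t : Finset ι) {f : ι → V N → F} (h : ∀ i ∈ t, Differentiable ℝ (f i)) (μ : Fin N) (y : V N) :
    pd μ (fun y => ∑ i ∈ t, f i y) y = ∑ i ∈ t, pd μ (f i) y := by
  unfold pd
  rw [fderiv_fun_sum fun i hi => h i hi y]
  simp

private theorem y4_add {F : Type*} [NormedAddCommGroup F] [NormedSpace ℝ F]
    {f f' : V N → F} (h : Differentiable ℝ f) (h' : Differentiable ℝ f') (μ : Fin N) (y : V N) :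
    pd μ (fun y => f y + f' y) y = pd μ f y + pd μ f' y := by
  unfold pd
  rw [fderiv_fun_add (h y) (h' y)]
  rfl

private theorem y4_de (g : Geo N) (a μ : Fin N) : Differentiable ℝ fun y => g.e y a μ :=
  (g.smooth_e a μ).differentiable (by simp)

private theorem y4_cda {A : V (2 * m) → En m} (hA : ContDiff ℝ ∞ A)
    {φ : V (2 * m) → Sp m} (h : ContDiff ℝ ∞ φ) : ContDiff ℝ ∞ fun y => A y (φ y) :=
  ((ContinuousLinearMap.restrictScalarsL ℂ (Sp m) (Sp m) ℝ ℝ).contDiff.comp hA).clm_apply h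

private theorem y4_nab (C : Cliff m) (g : Geo (2 * m)) {B : Pot (2 * m)} (hB : IsPot B)
    (μ : Fin (2 * m)) {φ : V (2 * m) → Sp m} (h : ContDiff ℝ ∞ φ) :
    ContDiff ℝ ∞ (C.nab g B μ φ) :=
  (contDiff_pd h μ).add (y4_cda (contDiff_conn C g hB μ) h)

private theorem y4_nab_sum (C : Cliff m) (g : Geo (2 * m)) (B : Pot (2 * m)) (μ : Fin (2 * m))
    {ι : Type*} (t : Finset ι) {ψ : ι → V (2 * m) → Sp m}
    (h : ∀ i ∈ t, Differentiable ℝ (ψ i)) (y : V (2 * m)) :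
    C.nab g B μ (fun y => ∑ i ∈ t, ψ i y) y = ∑ i ∈ t, C.nab g B μ (ψ i) y := by
  unfold Cliff.nab
  rw [y4_sum t h, map_sum, Finset.sum_add_distrib]

private theorem y4_nab_smul (C : Cliff m) (g : Geo (2 * m)) (B : Pot (2 * m)) (μ : Fin (2 * m))
    {r : V (2 * m) → ℝ} (hr : Differentiable ℝ r) {ψ : V (2 * m) → Sp m}
    (h : Differentiable ℝ ψ) (y : V (2 * m)) :
    C.nab g B μ (fun y => (r y : ℂ) • ψ y) y
      = ((pd μ r y : ℝ) : ℂ) • ψ y + (r y : ℂ) • C.nab g B μ ψ y := by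
  unfold Cliff.nab
  rw [y4_smul hr h, map_smul, smul_add, add_assoc]

private theorem y4_dd (C : Cliff m) (g : Geo (2 * m)) {B : Pot (2 * m)} (hB : IsPot B)
    (μ ν : Fin (2 * m)) {φ : V (2 * m) → Sp m} (h : ContDiff ℝ ∞ φ) (y : V (2 * m)) :
    C.nab g B μ (C.nab g B ν φ) y = pd μ (pd ν φ) y + (pd μ (C.conn g B ν) y (φ y)
      + (C.conn g B ν y (pd μ φ y) + (C.conn g B μ y (pd ν φ y)
        + C.conn g B μ y (C.conn g B ν y (φ y))))) := by
  have h1 : pd μ (C.nab g B ν φ) y = pd μ (pd ν φ) y + (pd μ (C.conn g B ν) y (φ y)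
      + C.conn g B ν y (pd μ φ y)) := by
    have h2 : C.nab g B ν φ = fun y => pd ν φ y + C.conn g B ν y (φ y) := rfl
    rw [h2, y4_add ((contDiff_pd h ν).differentiable (by simp))
      ((y4_cda (contDiff_conn C g hB ν) h).differentiable (by simp)),
      y4_clm ((contDiff_conn C g hB ν).differentiable (by simp)) (h.differentiable (by simp))]
  have h3 : C.nab g B μ (C.nab g B ν φ) y
      = pd μ (C.nab g B ν φ) y + C.conn g B μ y (C.nab g B ν φ y) := rfl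
  rw [h3, h1]
  have h4 : C.nab g B ν φ y = pd ν φ y + C.conn g B ν y (φ y) := rfl
  rw [h4, map_add]
  abel

private theorem y4_symm {φ : V N → Sp m} (h : ContDiff ℝ ∞ φ) (μ ν : Fin N) (y : V N) :
    pd μ (pd ν φ) y = pd ν (pd μ φ) y := by
  have h1 : Differentiable ℝ (fderiv ℝ φ) :=
    (contDiff_infty_iff_fderiv.1 h).2.differentiable (by simp)
  have h2 : ∀ a b : Fin N, pd a (pd b φ) y = (fderiv ℝ (fderiv ℝ φ) y (bv a)) (bv b) := by
    intro a b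
    have h3 : HasFDerivAt (fun y => fderiv ℝ φ y (bv b))
        ((fderiv ℝ φ y).comp (0 : V N →L[ℝ] V N) + (fderiv ℝ (fderiv ℝ φ) y).flip (bv b)) y :=
      (h1 y).hasFDerivAt.clm_apply (hasFDerivAt_const (bv b) y)
    have h4 : pd b φ = fun y => fderiv ℝ φ y (bv b) := rfl
    rw [h4]
    unfold pd
    rw [h3.fderiv]
    simp
  rw [h2, h2]
  have h5 : ContDiffAt ℝ ∞ φ y := h.contDiffAt
  exact (h5.isSymmSndFDerivAt (by simpa using WithTop.coe_le_coe.2 (le_top : (2 : ℕ∞) ≤ ⊤))) (bv μ) (bv ν)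

private theorem y4_pd_spin (C : Cliff m) {A : V (2 * m) → Mt (2 * m)}
    (hA : ∀ a b, Differentiable ℝ fun y => A y a b) (μ : Fin (2 * m)) (y : V (2 * m)) :
    pd μ (fun y => C.spin (A y)) y = C.spin (Matrix.of fun a b => pd μ (fun y => A y a b) y) := by
  have h0 : ∀ a b, Differentiable ℝ fun y => (A y a b : ℂ) • (C.c a * C.c b) := fun a b =>
    (Complex.ofRealCLM.differentiable.comp (hA a b)).smul_const _
  have h1 : ∀ a b, pd μ (fun y => (A y a b : ℂ) • (C.c a * C.c b)) y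
      = ((pd μ (fun y => A y a b) y : ℝ) : ℂ) • (C.c a * C.c b) := by
    intro a b
    have h2 := y4_smul (hA a b) (φ := fun _ => C.c a * C.c b) (differentiable_const _) μ y
    rw [h2]
    have h3 : pd μ (fun _ : V (2 * m) => C.c a * C.c b) y = 0 := by
      unfold pd
      rw [fderiv_fun_const]
      rfl
    rw [h3, smul_zero, add_zero]
  have h4 : pd μ (fun y => C.spin (A y)) y
      = (-(1 / 4) : ℂ) • pd μ (fun y => ∑ a, ∑ b, (A y a b : ℂ) • (C.c a * C.c b)) y := by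
    unfold Cliff.spin pd
    rw [fderiv_fun_const_smul (Differentiable.fun_sum fun a _ =>
      Differentiable.fun_sum fun b _ => h0 a b).differentiableAt]
    rfl
  rw [h4, y4_sum _ fun a _ => Differentiable.fun_sum fun b _ => h0 a b]
  unfold Cliff.spin
  congr 1
  refine Finset.sum_congr rfl fun a _ => ?_
  rw [y4_sum _ fun b _ => h0 a b]
  exact Finset.sum_congr rfl fun b _ => h1 a b

private theorem y4_pd_conn (C : Cliff m) (g : Geo (2 * m)) {B : Pot (2 * m)} (hB : IsPot B)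
    (μ ν : Fin (2 * m)) (y : V (2 * m)) :
    pd μ (C.conn g B ν) y = C.spin (Matrix.of fun a b => pd μ (fun y => g.Γ ν y a b) y)
      + (Complex.I * ((pd μ (B ν) y : ℝ) : ℂ)) • (1 : En m) := by
  have hΓ : ∀ a b, Differentiable ℝ fun y => g.Γ ν y a b := fun a b =>
    (g.smooth_Γ ν a b).differentiable (by simp)
  have hb : Differentiable ℝ (B ν) := (hB ν).differentiable (by simp)
  have h1 : C.conn g B ν = fun y => C.spin (g.Γ ν y) + (B ν y : ℂ) • (Complex.I • (1 : En m)) := by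
    funext z
    unfold Cliff.conn
    rw [smul_smul, mul_comm Complex.I]
  have h2 : Differentiable ℝ fun y => C.spin (g.Γ ν y) := by
    unfold Cliff.spin
    exact (Differentiable.fun_sum fun a _ => Differentiable.fun_sum fun b _ =>
      (Complex.ofRealCLM.differentiable.comp (hΓ a b)).smul_const _).const_smul (-(1 / 4) : ℂ)
  have h3 : Differentiable ℝ fun y => (B ν y : ℂ) • (Complex.I • (1 : En m)) :=
    (Complex.ofRealCLM.differentiable.comp hb).smul_const _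
  rw [h1, y4_add h2 h3, y4_pd_spin C hΓ]
  have h4 := y4_smul hb (φ := fun _ => Complex.I • (1 : En m)) (differentiable_const _) μ y
  have h5 : pd μ (fun _ : V (2 * m) => Complex.I • (1 : En m)) y = 0 := by
    unfold pd
    rw [fderiv_fun_const]
    rfl
  rw [h4, h5, smul_zero, add_zero, smul_smul, mul_comm Complex.I]

theorem dirac_eq_gam (C : Cliff m) (g : Geo (2 * m)) (B : Pot (2 * m))
    (φ : V (2 * m) → Sp m) (y : V (2 * m)) :
    C.dirac g B φ y = ∑ μ, C.gam g μ y (C.nab g B μ φ y) := by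
  unfold Cliff.dirac Cliff.nabE Cliff.gam
  simp only [map_sum, map_smul, _root_.sum_apply, _root_.smul_apply]
  exact Finset.sum_comm

theorem contDiff_gam (C : Cliff m) (g : Geo (2 * m)) (μ : Fin (2 * m)) :
    ContDiff ℝ ∞ (C.gam g μ) := by
  unfold Cliff.gam
  exact ContDiff.sum fun a _ =>
    (Complex.ofRealCLM.contDiff.comp (g.smooth_e μ a)).smul contDiff_const

/-- `γ^μ γ^ν + γ^ν γ^μ = - 2 h^{μν}`. -/
theorem gam_mul (C : Cliff m) (g : Geo (2 * m)) (μ ν : Fin (2 * m)) (y : V (2 * m)) :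
    C.gam g μ y * C.gam g ν y + C.gam g ν y * C.gam g μ y
      = (-2 * (g.hi y μ ν : ℂ)) • (1 : En m) := by
  unfold Cliff.gam
  have h1 : (∑ a, (g.e y ν a : ℂ) • C.c a) * (∑ a, (g.e y μ a : ℂ) • C.c a)
      = ∑ a, ∑ b, ((g.e y μ a : ℂ) * (g.e y ν b : ℂ)) • (C.c b * C.c a) := by
    rw [Finset.sum_mul_sum, Finset.sum_comm]
    refine Finset.sum_congr rfl fun a _ => Finset.sum_congr rfl fun b _ => ?_
    rw [smul_mul_smul_comm, mul_comm (g.e y ν b : ℂ)]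
  have h2 : (∑ a, (g.e y μ a : ℂ) • C.c a) * (∑ a, (g.e y ν a : ℂ) • C.c a)
      = ∑ a, ∑ b, ((g.e y μ a : ℂ) * (g.e y ν b : ℂ)) • (C.c a * C.c b) := by
    rw [Finset.sum_mul_sum]
    refine Finset.sum_congr rfl fun a _ => Finset.sum_congr rfl fun b _ => ?_
    rw [smul_mul_smul_comm]
  have h3 : (-2 * (g.hi y μ ν : ℂ)) • (1 : En m)
      = ∑ a, ((-2 * (g.e y μ a * g.e y ν a) : ℝ) : ℂ) • (1 : En m) := by
    rw [← y4_ofs, ← Finset.mul_sum, ← g.hi_apply]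
    push_cast
    rfl
  rw [h1, h2, ← Finset.sum_add_distrib, h3]
  refine Finset.sum_congr rfl fun a _ => ?_
  rw [← Finset.sum_add_distrib]
  simp_rw [y4_sadd, C.rel]
  rw [Finset.sum_eq_single a]
  · rw [if_pos rfl, smul_smul]
    congr 1
    push_cast
    ring
  · intro b _ hb
    rw [if_neg fun h => hb h.symm, y4_zs, y4_sz]
  · intro h
    exact absurd (Finset.mem_univ a) h

/-- `∂_μ γ^ν + [A_μ, γ^ν] = - ∑_l K^ν_{μl} γ^l` (`spin_comm`, `pd_e_K`; the scalar part of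
`A_μ` commutes). -/
theorem pd_gam (C : Cliff m) (g : Geo (2 * m)) (B : Pot (2 * m)) (μ ν : Fin (2 * m))
    (y : V (2 * m)) :
    pd μ (C.gam g ν) y + (C.conn g B μ y * C.gam g ν y - C.gam g ν y * C.conn g B μ y)
      = - ∑ l, (g.K ν μ l y : ℂ) • C.gam g l y := by
  have h1 : pd μ (C.gam g ν) y = ∑ a, ((pd μ (fun y => g.e y ν a) y : ℝ) : ℂ) • C.c a := by
    have h2 : C.gam g ν = fun y => ∑ a, (g.e y ν a : ℂ) • C.c a := rfl
    have h0 : ∀ a, Differentiable ℝ fun y => (g.e y ν a : ℂ) • C.c a := fun a =>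
      (Complex.ofRealCLM.differentiable.comp (y4_de g ν a)).smul_const _
    rw [h2, y4_sum _ fun a _ => h0 a]
    refine Finset.sum_congr rfl fun a _ => ?_
    have h3 := y4_smul (y4_de g ν a) (φ := fun _ => C.c a) (differentiable_const _) μ y
    have h4 : pd μ (fun _ : V (2 * m) => C.c a) y = 0 := by
      unfold pd
      rw [fderiv_fun_const]
      rfl
    rw [h3, h4, smul_zero, add_zero]
  have h5 : C.conn g B μ y * C.gam g ν y - C.gam g ν y * C.conn g B μ y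
      = ∑ a, ((∑ b, g.e y ν b * g.Γ μ y a b : ℝ) : ℂ) • C.c a := by
    have h6 : C.conn g B μ y * C.gam g ν y - C.gam g ν y * C.conn g B μ y
        = C.spin (g.Γ μ y) * C.gam g ν y - C.gam g ν y * C.spin (g.Γ μ y) := by
      unfold Cliff.conn
      rw [add_mul, mul_add, smul_mul_assoc, mul_smul_comm, one_mul, mul_one]
      abel
    rw [h6]
    unfold Cliff.gam
    rw [Finset.mul_sum, Finset.sum_mul, ← Finset.sum_sub_distrib]
    have h7 : ∀ b, C.spin (g.Γ μ y) * ((g.e y ν b : ℂ) • C.c b)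
        - ((g.e y ν b : ℂ) • C.c b) * C.spin (g.Γ μ y)
        = ∑ a, ((g.e y ν b * g.Γ μ y a b : ℝ) : ℂ) • C.c a := by
      intro b
      rw [mul_smul_comm, smul_mul_assoc, y4_ssub, C.spin_comm (g.anti μ y), Finset.smul_sum]
      refine Finset.sum_congr rfl fun a _ => ?_
      rw [smul_smul, Complex.ofReal_mul]
    simp_rw [h7]
    rw [Finset.sum_comm]
    refine Finset.sum_congr rfl fun a _ => ?_
    rw [y4_ofs]
  have h8 : ∑ l, (g.K ν μ l y : ℂ) • C.gam g l y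
      = ∑ a, ((∑ l, g.K ν μ l y * g.e y l a : ℝ) : ℂ) • C.c a := by
    unfold Cliff.gam
    simp_rw [Finset.smul_sum]
    rw [Finset.sum_comm]
    refine Finset.sum_congr rfl fun a _ => ?_
    rw [y4_ofs]
    refine Finset.sum_congr rfl fun l _ => ?_
    rw [smul_smul, Complex.ofReal_mul]
  rw [h1, h5, h8, ← Finset.sum_add_distrib, ← Finset.sum_neg_distrib]
  refine Finset.sum_congr rfl fun a _ => ?_
  rw [y4_adds, ← Complex.ofReal_add, g.pd_e_K, Complex.ofReal_neg, y4_negs]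

theorem nab_gam (C : Cliff m) (g : Geo (2 * m)) (B : Pot (2 * m)) (μ ν : Fin (2 * m))
    {ψ : V (2 * m) → Sp m} (hψ : Differentiable ℝ ψ) (y : V (2 * m)) :
    C.nab g B μ (fun y => C.gam g ν y (ψ y)) y = C.gam g ν y (C.nab g B μ ψ y)
      - ∑ l, (g.K ν μ l y : ℂ) • C.gam g l y (ψ y) := by
  have h1 := congrArg (fun T : En m => T (ψ y)) (pd_gam C g B μ ν y)
  have h2 : pd μ (C.gam g ν) y (ψ y) + (C.conn g B μ y (C.gam g ν y (ψ y))
      - C.gam g ν y (C.conn g B μ y (ψ y))) = - ∑ l, (g.K ν μ l y : ℂ) • C.gam g l y (ψ y) := by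
    refine h1.trans ?_
    simp only [_root_.neg_apply, _root_.sum_apply, _root_.smul_apply]
  unfold Cliff.nab
  rw [y4_clm ((contDiff_gam C g ν).differentiable (by simp)) hψ, map_add, sub_eq_add_neg, ← h2]
  abel

/-- `∇_μ ∇_ν φ - ∇_ν ∇_μ φ = (spin(F_{μν}) + i (dB)_{μν}) φ` (`spin_lie`, symmetry of second
derivatives). -/
theorem nab_comm (C : Cliff m) (g : Geo (2 * m)) {B : Pot (2 * m)} (hB : IsPot B)
    (μ ν : Fin (2 * m)) {φ : V (2 * m) → Sp m} (hφ : ContDiff ℝ ∞ φ) (y : V (2 * m)) :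
    C.nab g B μ (C.nab g B ν φ) y - C.nab g B ν (C.nab g B μ φ) y
      = C.spin (g.F μ ν y) (φ y) + (Complex.I * (dPot B y μ ν : ℂ)) • φ y := by
  rw [y4_dd C g hB μ ν hφ, y4_dd C g hB ν μ hφ, y4_symm hφ μ ν]
  have h1 : pd μ (C.conn g B ν) y - pd ν (C.conn g B μ) y
      + (C.conn g B μ y * C.conn g B ν y - C.conn g B ν y * C.conn g B μ y)
      = C.spin (g.F μ ν y) + (Complex.I * (dPot B y μ ν : ℂ)) • (1 : En m) := by
    have h2 : C.conn g B μ y * C.conn g B ν y - C.conn g B ν y * C.conn g B μ y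
        = C.spin (g.Γ μ y * g.Γ ν y - g.Γ ν y * g.Γ μ y) := by
      rw [← C.spin_lie (g.anti μ y)]
      exact y4_comm (A := En m) _ _ _ _
    have h3 : g.F μ ν y = Matrix.of (fun a b => pd μ (fun y => g.Γ ν y a b) y)
        - Matrix.of (fun a b => pd ν (fun y => g.Γ μ y a b) y)
        + (g.Γ μ y * g.Γ ν y - g.Γ ν y * g.Γ μ y) := by
      ext a b
      rfl
    have h4 : dPot B y μ ν = pd μ (B ν) y - pd ν (B μ) y := rfl
    rw [h2, y4_pd_conn C g hB, y4_pd_conn C g hB, h3, C.spin_add, C.spin_sub, h4,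
      Complex.ofReal_sub, mul_sub, y4_subs, C.spin_sub]
    abel
  have h5 := congrArg (fun T : En m => T (φ y)) h1
  have h6 : pd μ (C.conn g B ν) y (φ y) - pd ν (C.conn g B μ) y (φ y)
      + (C.conn g B μ y (C.conn g B ν y (φ y)) - C.conn g B ν y (C.conn g B μ y (φ y)))
      = C.spin (g.F μ ν y) (φ y) + (Complex.I * (dPot B y μ ν : ℂ)) • φ y := h5
  rw [← h6]
  abel

/-- The formula of Lichnerowicz: `D² = - h^{μν} (∇_μ ∇_ν - K^l_{μν} ∇_l) + scal / 4 + curvB`.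
Proof: `dirac_eq_gam` twice and `nab_gam`:
`D² φ = ∑ γ^μ γ^ν ∇_μ ∇_ν φ - ∑ K^ν_{μl} γ^μ γ^l ∇_ν φ`. Split `γ^μ γ^ν` into the symmetric part
`- h^{μν}` and the antisymmetric part (`gam_mul`). First sum: `- ∑ h^{μν} ∇_μ ∇_ν φ
+ (1/2) ∑ γ^μ γ^ν [∇_μ, ∇_ν] φ`. Second sum: `K` is symmetric in `μ, l`, so it is
`+ ∑ h^{μl} K^ν_{μl} ∇_ν φ`. Then `nab_comm`, `curv_spin`, `curv_pot`. -/
theorem dirac_dirac_coord (C : Cliff m) (g : Geo (2 * m)) {B : Pot (2 * m)} (hB : IsPot B)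
    {φ : V (2 * m) → Sp m} (hφ : ContDiff ℝ ∞ φ) (y : V (2 * m)) :
    C.dirac g B (C.dirac g B φ) y
      = - ∑ μ, ∑ ν, (g.hi y μ ν : ℂ) • C.nab g B μ (C.nab g B ν φ) y
        + ∑ ν, ((∑ μ, ∑ l, g.hi y μ l * g.K ν μ l y : ℝ) : ℂ) • C.nab g B ν φ y
        + ((g.scal y / 4 : ℝ) : ℂ) • φ y + C.curvB g B y (φ y) := by
  have hφd : Differentiable ℝ φ := hφ.differentiable (by simp)
  have hn : ∀ ν, Differentiable ℝ (C.nab g B ν φ) := fun ν =>
    (y4_nab C g hB ν hφ).differentiable (by simp)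
  have hg : ∀ ν, Differentiable ℝ fun y => C.gam g ν y (C.nab g B ν φ y) := fun ν =>
    (y4_cda (contDiff_gam C g ν) (y4_nab C g hB ν hφ)).differentiable (by simp)
  have h1 : C.dirac g B φ = fun y => ∑ ν, C.gam g ν y (C.nab g B ν φ y) := by
    funext z
    exact dirac_eq_gam C g B φ z
  have h2 : C.dirac g B (C.dirac g B φ) y = ∑ μ, ∑ ν, C.gam g μ y
      (C.gam g ν y (C.nab g B μ (C.nab g B ν φ) y))
      - ∑ ν, ∑ μ, ∑ l, C.gam g μ y (C.gam g l y ((g.K ν μ l y : ℂ) • C.nab g B ν φ y)) := by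
    rw [dirac_eq_gam, h1]
    simp_rw [y4_nab_sum C g B _ Finset.univ fun ν _ => hg ν, nab_gam C g B _ _ (hn _)]
    simp only [map_sum, map_sub, Finset.sum_sub_distrib, map_smul]
    congr 1
    exact Finset.sum_comm
  have h3 := y4_alg (fun μ => C.gam g μ y) (fun μ ν => g.hi y μ ν) (g.hi_symm y)
    (fun μ ν => gam_mul C g μ ν y)
  have h4 := h3 fun μ ν => C.nab g B μ (C.nab g B ν φ) y
  have h5 : ∀ ν, ∑ μ, ∑ l, C.gam g μ y (C.gam g l y ((g.K ν μ l y : ℂ) • C.nab g B ν φ y))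
      = - (((∑ μ, ∑ l, g.hi y μ l * g.K ν μ l y : ℝ) : ℂ) • C.nab g B ν φ y) := by
    intro ν
    have h6 := h3 fun μ l => (g.K ν μ l y : ℂ) • C.nab g B ν φ y
    have h7 : ∀ μ l, (g.K ν μ l y : ℂ) • C.nab g B ν φ y - (g.K ν l μ y : ℂ) • C.nab g B ν φ y
        = 0 := by
      intro μ l
      rw [g.K_symm ν μ l, sub_self]
    simp only [h7, map_zero, Finset.sum_const_zero, smul_zero, add_zero] at h6
    rw [h6, Complex.ofReal_sum, Finset.sum_smul]
    congr 1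
    refine Finset.sum_congr rfl fun μ _ => ?_
    rw [Complex.ofReal_sum, Finset.sum_smul]
    refine Finset.sum_congr rfl fun l _ => ?_
    rw [smul_smul, Complex.ofReal_mul]
  have h8 : (1 / 2 : ℂ) • ∑ μ, ∑ ν, C.gam g μ y (C.gam g ν y
      (C.nab g B μ (C.nab g B ν φ) y - C.nab g B ν (C.nab g B μ φ) y))
      = ((g.scal y / 4 : ℝ) : ℂ) • φ y + C.curvB g B y (φ y) := by
    have h9 : ((1 / 2 : ℂ) • ∑ μ, ∑ ν, C.gam g μ y * C.gam g ν y * C.spin (g.F μ ν y)) (φ y)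
        = ((g.scal y / 4 : ℝ) : ℂ) • φ y := by
      rw [C.curv_spin g y]
      rfl
    have h10 := congrArg (fun T : En m => T (φ y)) (C.curv_pot g B y)
    rw [← h9]
    rw [← show ((1 / 2 : ℂ) • ∑ μ, ∑ ν, C.gam g μ y * C.gam g ν y
        * ((Complex.I * (dPot B y μ ν : ℂ)) • (1 : En m))) (φ y) = C.curvB g B y (φ y) from h10]
    simp_rw [nab_comm C g hB _ _ hφ]
    simp only [_root_.smul_apply, _root_.sum_apply, map_add, Finset.sum_add_distrib, smul_add]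
    rfl
  rw [h2, h4, h8]
  simp_rw [h5]
  rw [Finset.sum_neg_distrib]
  abel

/-- SqForm. Expand `∇_μ ∇_ν φ = ∂_μ ∂_ν φ + (∂_μ A_ν) φ + A_ν ∂_μ φ + A_μ ∂_ν φ + A_μ A_ν φ`. -/
theorem dirac_sq (C : Cliff m) (g : Geo (2 * m)) {B : Pot (2 * m)} (hB : IsPot B)
    {φ : V (2 * m) → Sp m} (hφ : ContDiff ℝ ∞ φ) (y : V (2 * m)) :
    C.dirac g B (C.dirac g B φ) y
      = - ∑ μ, ∑ ν, (g.hi y μ ν : ℂ) • pd μ (pd ν φ) y + ∑ μ, C.bop g B μ y (pd μ φ y)
        + C.cop g B y (φ y) := by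
  rw [dirac_dirac_coord C g hB hφ]
  have h1 : ∀ μ ν, (g.hi y μ ν : ℂ) • C.nab g B μ (C.nab g B ν φ) y
      = (g.hi y μ ν : ℂ) • pd μ (pd ν φ) y
        + ((g.hi y μ ν : ℂ) • C.conn g B ν y (pd μ φ y)
        + ((g.hi y μ ν : ℂ) • C.conn g B μ y (pd ν φ y)
        + (g.hi y μ ν : ℂ) • (pd μ (C.conn g B ν) y (φ y)
          + C.conn g B μ y (C.conn g B ν y (φ y))))) := by
    intro μ ν
    rw [y4_dd C g hB μ ν hφ]
    simp only [smul_add]
    abel
  have h2 : ∑ μ, ∑ ν, (g.hi y μ ν : ℂ) • C.conn g B μ y (pd ν φ y)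
      = ∑ μ, ∑ ν, (g.hi y μ ν : ℂ) • C.conn g B ν y (pd μ φ y) := by
    rw [Finset.sum_comm]
    exact Finset.sum_congr rfl fun ν _ => Finset.sum_congr rfl fun μ _ => by rw [g.hi_symm]
  have h3 : ∀ μ, C.bop g B μ y (pd μ φ y)
      = (-2 : ℂ) • ∑ ν, (g.hi y μ ν : ℂ) • C.conn g B ν y (pd μ φ y)
        + ((∑ α, ∑ β, g.hi y α β * g.K μ α β y : ℝ) : ℂ) • pd μ φ y := by
    intro μ
    unfold Cliff.bop
    simp only [_root_.add_apply, _root_.smul_apply, _root_.sum_apply]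
    rfl
  have h4 : C.cop g B y (φ y) = (-1 : ℂ) • ∑ μ, ∑ ν, (g.hi y μ ν : ℂ) •
        (pd μ (C.conn g B ν) y (φ y) + C.conn g B μ y (C.conn g B ν y (φ y)))
      + ∑ l, ((∑ μ, ∑ ν, g.hi y μ ν * g.K l μ ν y : ℝ) : ℂ) • C.conn g B l y (φ y)
      + ((g.scal y / 4 : ℝ) : ℂ) • φ y + C.curvB g B y (φ y) := by
    unfold Cliff.cop
    simp only [_root_.add_apply, _root_.smul_apply, _root_.sum_apply]
    rfl
  have h5 : ∀ ν, ((∑ μ, ∑ l, g.hi y μ l * g.K ν μ l y : ℝ) : ℂ) • C.nab g B ν φ y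
      = ((∑ μ, ∑ l, g.hi y μ l * g.K ν μ l y : ℝ) : ℂ) • pd ν φ y
        + ((∑ μ, ∑ l, g.hi y μ l * g.K ν μ l y : ℝ) : ℂ) • C.conn g B ν y (φ y) := fun ν =>
    smul_add _ _ _
  simp_rw [h1, h3, h5]
  rw [h4]
  simp_rw [Finset.sum_add_distrib]
  rw [h2, ← Finset.smul_sum, neg_one_smul, neg_smul, two_smul]
  abel

/-- The form with the frame: `∑_a ∇_{e_a} ∇_{e_a} φ = ∑ e_a^μ (∂_μ e_a^ν) ∇_ν φ
+ ∑ h^{μν} ∇_μ ∇_ν φ` and `trace_K`. -/
theorem dirac_dirac (C : Cliff m) (g : Geo (2 * m)) {B : Pot (2 * m)} (hB : IsPot B)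
    {φ : V (2 * m) → Sp m} (hφ : ContDiff ℝ ∞ φ) (y : V (2 * m)) :
    C.dirac g B (C.dirac g B φ) y
      = - ∑ a, (C.nabE g B a (C.nabE g B a φ) y + (g.dv a y : ℂ) • C.nabE g B a φ y)
        + ((g.scal y / 4 : ℝ) : ℂ) • φ y + C.curvB g B y (φ y) := by
  rw [dirac_dirac_coord C g hB hφ]
  congr 1
  congr 1
  have hn : ∀ ν, Differentiable ℝ (C.nab g B ν φ) := fun ν =>
    (y4_nab C g hB ν hφ).differentiable (by simp)
  have h1 : ∀ a, C.nabE g B a (C.nabE g B a φ) y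
      = ∑ μ, ∑ ν, ((g.e y μ a * pd μ (fun y => g.e y ν a) y : ℝ) : ℂ) • C.nab g B ν φ y
        + ∑ μ, ∑ ν, ((g.e y μ a * g.e y ν a : ℝ) : ℂ) • C.nab g B μ (C.nab g B ν φ) y := by
    intro a
    have h2 : C.nabE g B a φ = fun y => ∑ ν, (g.e y ν a : ℂ) • C.nab g B ν φ y := rfl
    have hd : ∀ ν, Differentiable ℝ fun y => (g.e y ν a : ℂ) • C.nab g B ν φ y := fun ν =>
      (Complex.ofRealCLM.differentiable.comp (y4_de g ν a)).smul (hn ν)
    have h3 : C.nabE g B a (C.nabE g B a φ) y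
        = ∑ μ, (g.e y μ a : ℂ) • C.nab g B μ (C.nabE g B a φ) y := rfl
    rw [h3, h2, ← Finset.sum_add_distrib]
    refine Finset.sum_congr rfl fun μ _ => ?_
    rw [y4_nab_sum C g B μ Finset.univ fun ν _ => hd ν, ← Finset.sum_add_distrib,
      Finset.smul_sum]
    refine Finset.sum_congr rfl fun ν _ => ?_
    rw [y4_nab_smul C g B μ (y4_de g ν a) (hn ν), smul_add, smul_smul, smul_smul,
      Complex.ofReal_mul, Complex.ofReal_mul]
  have h4 : ∀ a, (g.dv a y : ℂ) • C.nabE g B a φ y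
      = ∑ ν, ((g.dv a y * g.e y ν a : ℝ) : ℂ) • C.nab g B ν φ y := by
    intro a
    unfold Cliff.nabE
    rw [Finset.smul_sum]
    refine Finset.sum_congr rfl fun ν _ => ?_
    rw [smul_smul, Complex.ofReal_mul]
  have h5 : ∑ a, ∑ μ, ∑ ν, ((g.e y μ a * g.e y ν a : ℝ) : ℂ) • C.nab g B μ (C.nab g B ν φ) y
      = ∑ μ, ∑ ν, (g.hi y μ ν : ℂ) • C.nab g B μ (C.nab g B ν φ) y := by
    rw [Finset.sum_comm]
    refine Finset.sum_congr rfl fun μ _ => ?_
    rw [Finset.sum_comm]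
    refine Finset.sum_congr rfl fun ν _ => ?_
    rw [g.hi_apply, Complex.ofReal_sum, Finset.sum_smul]
  have h6 : ∑ a, ∑ μ, ∑ ν, ((g.e y μ a * pd μ (fun y => g.e y ν a) y : ℝ) : ℂ) •
        C.nab g B ν φ y + ∑ a, ∑ ν, ((g.dv a y * g.e y ν a : ℝ) : ℂ) • C.nab g B ν φ y
      = - ∑ ν, ((∑ μ, ∑ l, g.hi y μ l * g.K ν μ l y : ℝ) : ℂ) • C.nab g B ν φ y := by
    have h7 : ∀ ν, - (((∑ μ, ∑ l, g.hi y μ l * g.K ν μ l y : ℝ) : ℂ) • C.nab g B ν φ y)
        = ∑ a, ∑ μ, ((g.e y μ a * pd μ (fun y => g.e y ν a) y : ℝ) : ℂ) • C.nab g B ν φ y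
          + ∑ a, ((g.dv a y * g.e y ν a : ℝ) : ℂ) • C.nab g B ν φ y := by
      intro ν
      rw [← neg_smul, ← Complex.ofReal_neg, ← g.trace_K, Complex.ofReal_add, add_smul,
        Complex.ofReal_sum, Complex.ofReal_sum, Finset.sum_smul, Finset.sum_smul]
      congr 1
      refine Finset.sum_congr rfl fun a _ => ?_
      rw [Complex.ofReal_sum, Finset.sum_smul]
    rw [← Finset.sum_neg_distrib]
    simp_rw [h7]
    rw [Finset.sum_add_distrib, Finset.sum_comm (s := (Finset.univ : Finset (Fin (2 * m))))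
      (f := fun a ν => ((g.dv a y * g.e y ν a : ℝ) : ℂ) • C.nab g B ν φ y)]
    congr 1
    rw [Finset.sum_comm (s := (Finset.univ : Finset (Fin (2 * m))))
      (f := fun ν a => ∑ μ, ((g.e y μ a * pd μ (fun y => g.e y ν a) y : ℝ) : ℂ) •
        C.nab g B ν φ y)]
    exact Finset.sum_congr rfl fun a _ => Finset.sum_comm
  simp_rw [h1, h4]
  rw [Finset.sum_add_distrib, Finset.sum_add_distrib, h5, add_right_comm, h6, neg_add, neg_neg]
  abel

end Pool.Agent.Lib.MP_df705a_gt.RL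
end
end

section

/-!
# RL2, Y5: the integrated inequality of Lichnerowicz
-/

open scoped ContDiff InnerProductSpace Matrix ENNReal
open MeasureTheory

noncomputable section

namespace Pool.Agent.Lib.MP_df705a_gt.RL

variable {N m : ℕ}

theorem norm_curvB_le (C : Cliff m) (g : Geo (2 * m)) (B : Pot (2 * m)) (y : V (2 * m)) :
    ‖C.curvB g B y‖ ≤ (1 / 2) * ∑ a, ∑ b, |g.fr (dPot B) y a b| := by
  have h := C.norm_two_le (g.fr (dPot B) y)
  have h1 : ‖C.curvB g B y‖ = ‖(Complex.I / 2 : ℂ)‖ * ‖C.two (g.fr (dPot B) y)‖ :=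
    norm_smul (Complex.I / 2 : ℂ) (C.two (g.fr (dPot B) y))
  have h2 : ‖(Complex.I / 2 : ℂ)‖ = 1 / 2 := by simp
  rw [h1, h2]
  exact mul_le_mul_of_nonneg_left h (by norm_num)

theorem Y5_cont_fr (g : Geo (2 * m)) {B : Pot (2 * m)} (hB : IsPot B) (a b : Fin (2 * m)) :
    Continuous fun y => g.fr (dPot B) y a b := by
  have he : ∀ μ a, Continuous fun y => g.e y μ a := fun μ a => (g.smooth_e μ a).continuous
  have hd : ∀ μ ν, Continuous fun y => dPot B y μ ν := fun μ ν =>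
    ((contDiff_pd (hB ν) μ).continuous).sub ((contDiff_pd (hB μ) ν).continuous)
  have : (fun y => g.fr (dPot B) y a b)
      = fun y => ∑ ν, (∑ μ, g.e y μ a * dPot B y μ ν) * g.e y ν b := by
    funext y
    simp only [Geo.fr, Matrix.mul_apply, Matrix.transpose_apply]
  rw [this]
  exact continuous_finsetSum _ fun ν _ =>
    (continuous_finsetSum _ fun μ _ => (he μ a).mul (hd μ ν)).mul (he ν b)

theorem Y5_int (g : Geo (2 * m)) {φ ψ : V (2 * m) → Sp m} (hφ : IsTF φ) (hψ : Continuous ψ) :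
    Integrable (fun y => ⟪φ y, ψ y⟫_ℂ) g.vol := by
  refine (hφ.1.continuous.inner hψ).integrable_of_hasCompactSupport ?_
  refine hφ.2.mono fun y hy => ?_
  rw [Function.mem_support] at hy ⊢
  intro h
  exact hy (by rw [h, inner_zero_left])

theorem Y5_alg (x : Sp m) (A : En m) (s : ℝ) (u : Sp m) (hu : u = ((s : ℝ) : ℂ) • x + A x) {c : ℝ}
    (hA : ‖A‖ ≤ c) : (s - c) * ‖x‖ ^ 2 ≤ RCLike.re ⟪x, u⟫_ℂ := by
  rw [hu, inner_add_right, inner_smul_right, map_add, inner_self_eq_norm_sq_to_K]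
  have h1 : RCLike.re (((s : ℝ) : ℂ) * ((‖x‖ : ℂ) ^ 2)) = s * ‖x‖ ^ 2 := by
    rw [← Complex.ofReal_pow, ← Complex.ofReal_mul]
    exact Complex.ofReal_re _
  have h2 : |RCLike.re ⟪x, A x⟫_ℂ| ≤ c * ‖x‖ ^ 2 := by
    calc |RCLike.re ⟪x, A x⟫_ℂ| ≤ ‖⟪x, A x⟫_ℂ‖ := RCLike.abs_re_le_norm _
      _ ≤ ‖x‖ * ‖A x‖ := norm_inner_le_norm _ _
      _ ≤ ‖x‖ * (c * ‖x‖) :=
        mul_le_mul_of_nonneg_left (A.le_of_opNorm_le hA x) (norm_nonneg _)
      _ = c * ‖x‖ ^ 2 := by ring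
  have h3 := (abs_le.1 h2).1
  have h4 : RCLike.re (((s : ℝ) : ℂ) * ((‖x‖ : ℂ) ^ 2)) + RCLike.re ⟪x, A x⟫_ℂ
      = s * ‖x‖ ^ 2 + RCLike.re ⟪x, A x⟫_ℂ := by rw [h1]
  refine le_trans ?_ (le_of_eq h4.symm)
  linarith

/-- `‖Dφ‖² = ⟪φ, D²φ⟫` (`dirac_symm`), `dirac_dirac`, and by `nabE_adj` with `ψ = ∇_{e_a} φ` the
first term is `∑_a ‖∇_{e_a} φ‖² ≥ 0`. -/
theorem lich_tf (C : Cliff m) (g : Geo (2 * m)) {B : Pot (2 * m)} (hB : IsPot B)
    {φ : V (2 * m) → Sp m} (hφ : IsTF φ) :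
    ∫ y, (g.scal y / 4 - (1 / 2) * ∑ a, ∑ b, |g.fr (dPot B) y a b|) * ‖φ y‖ ^ 2 ∂g.vol
      ≤ ‖g.emb (C.dirac g B φ)‖ ^ 2 := by
  have hD := isTF_dirac C g hB hφ
  have hDD := isTF_dirac C g hB hD
  have hn := fun a => isTF_nabE C g hB a hφ
  have hF := fun a => (isTF_nabE C g hB a (hn a)).add ((hn a).mulr (g.contDiff_dv a))
  -- the curvature part
  set G : V (2 * m) → Sp m := fun y => ((g.scal y / 4 : ℝ) : ℂ) • φ y + C.curvB g B y (φ y)
    with hG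
  have hDDe : ∀ y, C.dirac g B (C.dirac g B φ) y
      = - ∑ a, (C.nabE g B a (C.nabE g B a φ) y + (g.dv a y : ℂ) • C.nabE g B a φ y) + G y := by
    intro y
    rw [dirac_dirac C g hB hφ.1 y, add_assoc]
  have hGc : Continuous G := by
    have : G = fun y => C.dirac g B (C.dirac g B φ) y
        + ∑ a, (C.nabE g B a (C.nabE g B a φ) y + (g.dv a y : ℂ) • C.nabE g B a φ y) := by
      funext y
      rw [hDDe y]
      abel
    rw [this]
    exact hDD.1.continuous.add (continuous_finsetSum _ fun a _ => (hF a).1.continuous)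
  -- `‖D φ‖² = ⟪φ, D² φ⟫`
  have h1 : ⟪g.emb (C.dirac g B φ), g.emb (C.dirac g B φ)⟫_ℂ
      = ∑ a, ⟪g.emb (C.nabE g B a φ), g.emb (C.nabE g B a φ)⟫_ℂ
        + ∫ y, ⟪φ y, G y⟫_ℂ ∂g.vol := by
    rw [dirac_symm C g hB hφ hD, g.inner_emb (g.memLp_tf hφ) (g.memLp_tf hDD)]
    have e1 : ∀ y, ⟪φ y, C.dirac g B (C.dirac g B φ) y⟫_ℂ
        = - ∑ a, ⟪φ y, C.nabE g B a (C.nabE g B a φ) y + (g.dv a y : ℂ) • C.nabE g B a φ y⟫_ℂ
          + ⟪φ y, G y⟫_ℂ := by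
      intro y
      rw [hDDe y, inner_add_right, inner_neg_right, inner_sum]
    have hi : ∀ a, Integrable (fun y => ⟪φ y, C.nabE g B a (C.nabE g B a φ) y
        + (g.dv a y : ℂ) • C.nabE g B a φ y⟫_ℂ) g.vol :=
      fun a => Y5_int g hφ (hF a).1.continuous
    have hs : Integrable (fun y => - ∑ a, ⟪φ y, C.nabE g B a (C.nabE g B a φ) y
        + (g.dv a y : ℂ) • C.nabE g B a φ y⟫_ℂ) g.vol :=
      (integrable_finsetSum Finset.univ fun a _ => hi a).neg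
    rw [integral_congr_ae (Filter.Eventually.of_forall e1), integral_add hs (Y5_int g hφ hGc),
      integral_neg, integral_finsetSum Finset.univ fun a _ => hi a, ← Finset.sum_neg_distrib]
    congr 1
    refine Finset.sum_congr rfl fun a _ => ?_
    rw [g.inner_emb (g.memLp_tf (hn a)) (g.memLp_tf (hn a)), nabE_adj C g hB a hφ (hn a)]
  have h2 : ‖g.emb (C.dirac g B φ)‖ ^ 2
      = RCLike.re ⟪g.emb (C.dirac g B φ), g.emb (C.dirac g B φ)⟫_ℂ :=
    (inner_self_eq_norm_sq (𝕜 := ℂ) _).symm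
  rw [h2, h1, map_add, map_sum]
  have h3 : 0 ≤ ∑ a, RCLike.re ⟪g.emb (C.nabE g B a φ), g.emb (C.nabE g B a φ)⟫_ℂ :=
    Finset.sum_nonneg fun a _ => inner_self_nonneg
  have hfr : Continuous fun y => g.scal y / 4 - (1 / 2) * ∑ a, ∑ b, |g.fr (dPot B) y a b| :=
    (g.contDiff_scal.continuous.div_const 4).sub (continuous_const.mul
      (continuous_finsetSum _ fun a _ => continuous_finsetSum _ fun b _ =>
        (Y5_cont_fr g hB a b).abs))
  have h4 : ∫ y, (g.scal y / 4 - (1 / 2) * ∑ a, ∑ b, |g.fr (dPot B) y a b|) * ‖φ y‖ ^ 2 ∂g.vol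
      ≤ ∫ y, RCLike.re ⟪φ y, G y⟫_ℂ ∂g.vol := by
    refine integral_mono ?_ (Y5_int g hφ hGc).re fun y => ?_
    · refine (hfr.mul (hφ.1.continuous.norm.pow 2)).integrable_of_hasCompactSupport ?_
      refine hφ.2.mono fun y hy => ?_
      rw [Function.mem_support] at hy ⊢
      intro h
      exact hy (by simp [h])
    · exact Y5_alg (φ y) (C.curvB g B y) (g.scal y / 4) (G y) rfl (norm_curvB_le C g B y)
  have h5 : ∫ y, RCLike.re ⟪φ y, G y⟫_ℂ ∂g.vol = RCLike.re (∫ y, ⟪φ y, G y⟫_ℂ ∂g.vol) :=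
    integral_re (Y5_int g hφ hGc)
  rw [← h5]
  linarith

end Pool.Agent.Lib.MP_df705a_gt.RL
end
end
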