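import Pool.Agent.Lib.MP_df705a_gt.Mg.G033
import Pool.Agent.Lib.MP_df705a_gt.Mg.G035
import Pool.Agent.Lib.MP_df705a_gt.Mg.G046

section

/-!
# RL2, E2: the inequality of Lichnerowicz on the closure of the graph
-/

open scoped ContDiff InnerProductSpace Matrix ENNReal NNReal Topology
open MeasureTheory Filter Set

noncomputable section

namespace Pool.Agent.Lib.MP_df705a_gt.RL

variable {m : ℕ}

/-- The size `w = m (∑ dB(e_a, e_b)²)^(1/2)` of the curvature (invariant under rotations of the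
frame). -/
def wcurv (g : Geo (2 * m)) (B : Pot (2 * m)) (y : V (2 * m)) : ℝ :=
  m * √(∑ a, ∑ b, (g.fr (dPot B) y a b) ^ 2)

/-- Cauchy-Schwarz. -/
theorem sum_abs_le_wcurv (g : Geo (2 * m)) (B : Pot (2 * m)) (y : V (2 * m)) :
    (1 / 2) * ∑ a, ∑ b, |g.fr (dPot B) y a b| ≤ wcurv g B y := by
  have h1 : (∑ p : Fin (2 * m) × Fin (2 * m), |g.fr (dPot B) y p.1 p.2|) ^ 2
      ≤ (Finset.univ : Finset (Fin (2 * m) × Fin (2 * m))).card
        * ∑ p : Fin (2 * m) × Fin (2 * m), |g.fr (dPot B) y p.1 p.2| ^ 2 :=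
    sq_sum_le_card_mul_sum_sq
  rw [Finset.card_univ, Fintype.card_prod, Fintype.card_fin, Fintype.sum_prod_type,
    Fintype.sum_prod_type] at h1
  simp only [sq_abs] at h1
  have h2 : ∑ a, ∑ b, |g.fr (dPot B) y a b| ≤ (2 * m) * √(∑ a, ∑ b, (g.fr (dPot B) y a b) ^ 2) := by
    refine Real.le_sqrt_of_sq_le h1 |>.trans (le_of_eq ?_)
    push_cast
    rw [Real.sqrt_mul (by positivity), Real.sqrt_mul_self (by positivity)]
  unfold wcurv
  linarith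

/-- The potential `V = (w - σ/2)₊`. -/
def Vpot (g : Geo (2 * m)) (B : Pot (2 * m)) (σ : ℝ) (y : V (2 * m)) : ℝ :=
  max 0 (wcurv g B y - σ / 2)

/-- The multiplication operator with `√(V ∧ n)`. -/
def Mop (g : Geo (2 * m)) (B : Pot (2 * m)) (σ : ℝ) (n : ℕ) : g.L2 →L[ℂ] g.L2 :=
  g.mulE fun y => (√(min (Vpot g B σ y) n) : ℂ) • (1 : En m)

private theorem E2_fr (g : Geo (2 * m)) {B : Pot (2 * m)} (hB : IsPot B) (a b : Fin (2 * m)) :
    Continuous fun y => g.fr (dPot B) y a b := by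
  have e1 : (fun y => g.fr (dPot B) y a b) = fun y =>
      ∑ ν, (∑ μ, g.e y μ a * dPot B y μ ν) * g.e y ν b := by
    funext y
    unfold Geo.fr
    rw [Matrix.mul_apply]
    refine Finset.sum_congr rfl fun ν _ => ?_
    rw [Matrix.mul_apply]
    rfl
  rw [e1]
  have h2 : ∀ μ ν, Continuous fun y => dPot B y μ ν := fun μ ν =>
    ((contDiff_pd (hB ν) μ).continuous).sub ((contDiff_pd (hB μ) ν).continuous)
  exact continuous_finsetSum _ fun ν _ => (continuous_finsetSum _ fun μ _ =>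
    (g.smooth_e μ a).continuous.mul (h2 μ ν)).mul (g.smooth_e ν b).continuous

theorem continuous_wcurv (g : Geo (2 * m)) {B : Pot (2 * m)} (hB : IsPot B) :
    Continuous (wcurv g B) := by
  have h1 := E2_fr g hB
  unfold wcurv
  exact continuous_const.mul (continuous_finsetSum _ fun a _ => continuous_finsetSum _ fun b _ =>
    (h1 a b).pow 2).sqrt

private theorem E2_contV (g : Geo (2 * m)) {B : Pot (2 * m)} (hB : IsPot B) (σ : ℝ) :
    Continuous (Vpot g B σ) := by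
  unfold Vpot
  exact continuous_const.max ((continuous_wcurv g hB).sub continuous_const)

private theorem E2_V0 (g : Geo (2 * m)) (B : Pot (2 * m)) (σ : ℝ) (y : V (2 * m)) :
    0 ≤ Vpot g B σ y := le_max_left _ _

private theorem E2_bdd {s : V (2 * m) → ℝ} (hs : Continuous s) {c : ℝ} (h0 : ∀ y, 0 ≤ s y)
    (h : ∀ y, s y ≤ c) : BddM fun y : V (2 * m) => (s y : ℂ) • (1 : En m) := by
  refine ⟨((Complex.continuous_ofReal.comp hs).smul continuous_const).stronglyMeasurable,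
    c * ‖(1 : En m)‖, fun y => ?_⟩
  rw [norm_smul, Complex.norm_real, Real.norm_eq_abs, abs_of_nonneg (h0 y)]
  exact mul_le_mul_of_nonneg_right (h y) (norm_nonneg _)

private theorem E2_enorm (g : Geo (2 * m)) {s : V (2 * m) → ℝ} (h0 : ∀ y, 0 ≤ s y)
    (hA : BddM fun y : V (2 * m) => (s y : ℂ) • (1 : En m)) (u : g.L2) :
    ‖g.mulE (fun y => (s y : ℂ) • (1 : En m)) u‖ₑ ^ 2
      = ∫⁻ y, ENNReal.ofReal (s y ^ 2) * ‖u y‖ₑ ^ 2 ∂g.vol := by
  rw [g.enorm_L2_sq]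
  refine lintegral_congr_ae ?_
  filter_upwards [g.mulE_coe hA u] with y hy
  rw [hy]
  have e1 : ((s y : ℂ) • (1 : En m)) (u y) = (s y : ℂ) • u y := rfl
  rw [e1, enorm_smul, mul_pow]
  congr 1
  rw [← ofReal_norm, Complex.norm_real, Real.norm_eq_abs, abs_of_nonneg (h0 y),
    ENNReal.ofReal_pow (h0 y)]

private theorem E2_min0 (g : Geo (2 * m)) (B : Pot (2 * m)) (σ : ℝ) (n : ℕ) (y : V (2 * m)) :
    0 ≤ min (Vpot g B σ y) n := le_min (E2_V0 g B σ y) (Nat.cast_nonneg n)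

theorem bddM_Mop (g : Geo (2 * m)) {B : Pot (2 * m)} (hB : IsPot B) (σ : ℝ) (n : ℕ) :
    BddM fun y : V (2 * m) => (√(min (Vpot g B σ y) n) : ℂ) • (1 : En m) :=
  E2_bdd (((E2_contV g hB σ).min continuous_const).sqrt) (c := √n)
    (fun _ => Real.sqrt_nonneg _) fun _ => Real.sqrt_le_sqrt (min_le_right _ _)

private theorem E2_enorm_Mop (g : Geo (2 * m)) {B : Pot (2 * m)} (hB : IsPot B) (σ : ℝ) (n : ℕ)
    (u : g.L2) : ‖Mop g B σ n u‖ₑ ^ 2
      = ∫⁻ y, ENNReal.ofReal (min (Vpot g B σ y) n) * ‖u y‖ₑ ^ 2 ∂g.vol := by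
  unfold Mop
  rw [E2_enorm g (fun _ => Real.sqrt_nonneg _) (bddM_Mop g hB σ n) u]
  refine lintegral_congr fun y => ?_
  rw [Real.sq_sqrt (E2_min0 g B σ n y)]

/-- `⨆ n, ‖M n u‖² = ∫ V |u|²` (monotone convergence). -/
theorem iSup_Mop (g : Geo (2 * m)) {B : Pot (2 * m)} (hB : IsPot B) (σ : ℝ) (u : g.L2) :
    ⨆ n, ‖Mop g B σ n u‖ₑ ^ 2 = ∫⁻ y, ENNReal.ofReal (Vpot g B σ y) * ‖u y‖ₑ ^ 2 ∂g.vol := by
  simp_rw [E2_enorm_Mop g hB σ]
  rw [← lintegral_iSup']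
  · refine lintegral_congr fun y => ?_
    rw [← ENNReal.iSup_mul]
    congr 1
    refine le_antisymm (iSup_le fun n => ENNReal.ofReal_le_ofReal (min_le_left _ _)) ?_
    obtain ⟨n, hn⟩ := exists_nat_ge (Vpot g B σ y)
    refine le_trans (le_of_eq ?_) (le_iSup _ n)
    rw [min_eq_left hn]
  · intro n
    refine AEMeasurable.mul ?_ ((Lp.stronglyMeasurable u).enorm.pow_const 2).aemeasurable
    exact (ENNReal.measurable_ofReal.comp
      ((E2_contV g hB σ).min continuous_const).measurable).aemeasurable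
  · refine Eventually.of_forall fun y n k hnk => ?_
    refine mul_le_mul_left ?_ _
    exact ENNReal.ofReal_le_ofReal (min_le_min_left _ (Nat.cast_le.2 hnk))

theorem Mop_mono (g : Geo (2 * m)) {B : Pot (2 * m)} (hB : IsPot B) (σ : ℝ) (u : g.L2) :
    Monotone fun n => ‖Mop g B σ n u‖ := by
  intro n k hnk
  refine Lp.norm_le_norm_of_ae_le ?_
  unfold Mop
  filter_upwards [g.mulE_coe (bddM_Mop g hB σ n) u, g.mulE_coe (bddM_Mop g hB σ k) u]
    with y h1 h2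
  rw [h1, h2]
  have e1 : ∀ n : ℕ, ((√(min (Vpot g B σ y) n) : ℂ) • (1 : En m)) (u y)
      = (√(min (Vpot g B σ y) n) : ℂ) • u y := fun _ => rfl
  rw [e1, e1, norm_smul, norm_smul, Complex.norm_real, Complex.norm_real, Real.norm_eq_abs,
    Real.norm_eq_abs, abs_of_nonneg (Real.sqrt_nonneg _), abs_of_nonneg (Real.sqrt_nonneg _)]
  exact mul_le_mul_of_nonneg_right (Real.sqrt_le_sqrt (min_le_min_left _ (Nat.cast_le.2 hnk)))
    (norm_nonneg _)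

/-- For test functions: `(σ/2) ‖φ‖² ≤ ‖Dφ‖² + ∫ V |φ|²` (`lich_tf`, `scal / 4 ≥ σ`,
`σ - w ≥ σ/2 - V`). -/
theorem lich_tf_V (C : Cliff m) (g : Geo (2 * m)) {B : Pot (2 * m)} (hB : IsPot B) {σ : ℝ}
    (hs : ∀ y, 4 * σ ≤ g.scal y) {φ : V (2 * m) → Sp m} (hφ : IsTF φ) :
    σ / 2 * ‖g.emb φ‖ ^ 2 ≤ ‖g.emb (C.dirac g B φ)‖ ^ 2
      + ∫ y, Vpot g B σ y * ‖φ y‖ ^ 2 ∂g.vol := by
  have h := lich_tf C g hB hφ
  have hint : ∀ s : V (2 * m) → ℝ, Continuous s →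
      Integrable (fun y => s y * ‖φ y‖ ^ 2) g.vol := by
    intro s hsc
    refine Continuous.integrable_of_hasCompactSupport
      (hsc.mul (hφ.1.continuous.norm.pow 2)) ?_
    refine HasCompactSupport.mul_left ?_
    exact hφ.2.comp_left (g := fun x => ‖x‖ ^ 2) (by simp)
  have i1 := hint (fun y => g.scal y / 4 - wcurv g B y)
    ((g.contDiff_scal.continuous.div_const 4).sub (continuous_wcurv g hB))
  have hfr : Continuous fun y => (1 / 2) * ∑ a, ∑ b, |g.fr (dPot B) y a b| :=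
    continuous_const.mul (continuous_finsetSum _ fun a _ => continuous_finsetSum _ fun b _ =>
      (E2_fr g hB a b).abs)
  have i0 := hint (fun y => g.scal y / 4 - (1 / 2) * ∑ a, ∑ b, |g.fr (dPot B) y a b|)
    ((g.contDiff_scal.continuous.div_const 4).sub hfr)
  have i2 := hint (Vpot g B σ) (E2_contV g hB σ)
  have i3 := hint (fun _ => σ / 2) continuous_const
  rw [g.norm_emb_sq (g.memLp_tf hφ), ← integral_const_mul]
  have h' : ∫ y, (g.scal y / 4 - wcurv g B y) * ‖φ y‖ ^ 2 ∂g.vol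
      ≤ ‖g.emb (C.dirac g B φ)‖ ^ 2 := by
    refine le_trans (integral_mono i1 i0 fun y => ?_) h
    have h1 := sum_abs_le_wcurv g B y
    have h4 : 0 ≤ ‖φ y‖ ^ 2 := by positivity
    exact mul_le_mul_of_nonneg_right (by linarith) h4
  calc ∫ y, σ / 2 * ‖φ y‖ ^ 2 ∂g.vol
      ≤ ∫ y, ((g.scal y / 4 - wcurv g B y) * ‖φ y‖ ^ 2 + Vpot g B σ y * ‖φ y‖ ^ 2) ∂g.vol := by
        refine integral_mono i3 (i1.add i2) fun y => ?_
        have h1 : wcurv g B y - σ / 2 ≤ Vpot g B σ y := le_max_right _ _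
        have h2 := hs y
        have h3 : σ / 2 ≤ (g.scal y / 4 - wcurv g B y) + Vpot g B σ y := by linarith
        have h4 : 0 ≤ ‖φ y‖ ^ 2 := by positivity
        have h5 := mul_le_mul_of_nonneg_right h3 h4
        show σ / 2 * ‖φ y‖ ^ 2 ≤ _
        rw [add_mul] at h5
        exact h5
    _ = (∫ y, (g.scal y / 4 - wcurv g B y) * ‖φ y‖ ^ 2 ∂g.vol)
          + ∫ y, Vpot g B σ y * ‖φ y‖ ^ 2 ∂g.vol := integral_add i1 i2
    _ ≤ _ := by
        have := h'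
        linarith

/-- The inequality of Lichnerowicz for the test functions, for all potentials, with the constants
`c₀` and `σ`. -/
def LichC (C : Cliff m) (g : Geo (2 * m)) (c₀ σ : ℝ) : Prop :=
  ∀ B : Pot (2 * m), IsPot B → ∀ φ : V (2 * m) → Sp m, IsTF φ →
    c₀ * ‖g.emb φ‖ ^ 2 ≤ ‖g.emb (C.dirac g B φ)‖ ^ 2 + ∫ y, Vpot g B σ y * ‖φ y‖ ^ 2 ∂g.vol

theorem lichC_of_scal (C : Cliff m) (g : Geo (2 * m)) {σ : ℝ} (hs : ∀ y, 4 * σ ≤ g.scal y) :
    LichC C g (σ / 2) σ := fun _ hB _ hφ => lich_tf_V C g hB hs hφ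

/-- The inequality on the closure of the graph with a cutoff function. -/
private theorem E2_cut (C : Cliff m) (g : Geo (2 * m)) {B : Pot (2 * m)}
    (hB : IsPot B) {c₀ σ : ℝ} (hc₀ : 0 < c₀) (hL : LichC C g c₀ σ) {χ : V (2 * m) → ℝ}
    {δ : ℝ} (hδ : 0 ≤ δ)
    (c1 : ContDiff ℝ ∞ χ) (c2 : HasCompactSupport χ) (c3 : ∀ y, 0 ≤ χ y) (c4 : ∀ y, χ y ≤ 1)
    (c5 : ∀ y, ∑ a, (∑ μ, g.e y μ a * pd μ χ y) ^ 2 ≤ δ ^ 2) (w : g.L2 × g.L2)
    (hw : w ∈ closure (C.Gr g B : Set (g.L2 × g.L2))) :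
    ENNReal.ofReal c₀ * ∫⁻ y, ENNReal.ofReal (χ y ^ 2) * ‖w.1 y‖ₑ ^ 2 ∂g.vol
      ≤ ENNReal.ofReal ((‖w.2‖ + δ * ‖w.1‖) ^ 2)
        + ∫⁻ y, ENNReal.ofReal (Vpot g B σ y) * ‖w.1 y‖ₑ ^ 2 ∂g.vol := by
  have bX : BddM fun y : V (2 * m) => (χ y : ℂ) • (1 : En m) := E2_bdd c1.continuous c3 c4
  have hVc := E2_contV g hB σ
  have hYc : Continuous fun y => √(Vpot g B σ y) * χ y := hVc.sqrt.mul c1.continuous
  have hY0 : ∀ y, 0 ≤ √(Vpot g B σ y) * χ y := fun y => mul_nonneg (Real.sqrt_nonneg _) (c3 y)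
  obtain ⟨cY, hcY⟩ := (HasCompactSupport.mul_left c2 :
    HasCompactSupport fun y => √(Vpot g B σ y) * χ y).exists_bound_of_continuous hYc
  have bY : BddM fun y : V (2 * m) => ((√(Vpot g B σ y) * χ y : ℝ) : ℂ) • (1 : En m) :=
    E2_bdd hYc hY0 fun y => (le_abs_self _).trans (hcY y)
  set X : g.L2 →L[ℂ] g.L2 := g.mulE fun y => (χ y : ℂ) • (1 : En m) with hX
  set Y : g.L2 →L[ℂ] g.L2 := g.mulE fun y => ((√(Vpot g B σ y) * χ y : ℝ) : ℂ) • (1 : En m)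
    with hY
  have key : ∀ p ∈ (C.Gr g B : Set (g.L2 × g.L2)),
      c₀ * ‖X p.1‖ ^ 2 ≤ (‖p.2‖ + δ * ‖p.1‖) ^ 2 + ‖Y p.1‖ ^ 2 := by
    intro p hp
    obtain ⟨φ, hφ, rfl⟩ := (mem_Gr C g hB p).1 hp
    have hD := isTF_dirac C g hB hφ
    have hχφ : IsTF fun y => (χ y : ℂ) • φ y := hφ.mulr c1
    have hχD : IsTF fun y => (χ y : ℂ) • C.dirac g B φ y := hD.mulr c1
    have hDχ := isTF_dirac C g hB hχφ
    have eX : X (g.emb φ) = g.emb fun y => (χ y : ℂ) • φ y := by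
      rw [hX, g.mulE_emb bX (g.memLp_tf hφ)]
      rfl
    have eY : ‖Y (g.emb φ)‖ ^ 2 = ∫ y, Vpot g B σ y * ‖(χ y : ℂ) • φ y‖ ^ 2 ∂g.vol := by
      rw [hY, g.mulE_emb bY (g.memLp_tf hφ)]
      have hm : MemLp (fun y => (((√(Vpot g B σ y) * χ y : ℝ) : ℂ) • (1 : En m)) (φ y)) 2
          g.vol := by
        refine g.memLp_cc ?_ ?_
        · exact ((Complex.continuous_ofReal.comp hYc).smul continuous_const).clm_apply
            hφ.1.continuous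
        · exact HasCompactSupport.intro hφ.2 fun y hy => by
            rw [image_eq_zero_of_notMem_tsupport hy, map_zero]
      rw [g.norm_emb_sq hm]
      refine integral_congr_ae (Eventually.of_forall fun y => ?_)
      show ‖(((√(Vpot g B σ y) * χ y : ℝ) : ℂ)) • φ y‖ ^ 2
        = Vpot g B σ y * ‖(χ y : ℂ) • φ y‖ ^ 2
      rw [norm_smul, norm_smul, Complex.norm_real, Complex.norm_real, Real.norm_eq_abs,
        Real.norm_eq_abs, mul_pow, mul_pow, sq_abs, sq_abs, mul_pow,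
        Real.sq_sqrt (E2_V0 g B σ y)]
      ring
    have h1 := hL B hB _ hχφ
    rw [eX]
    refine h1.trans ?_
    rw [eY]
    refine add_le_add_left ?_ _
    refine pow_le_pow_left₀ (norm_nonneg _) ?_ 2
    have e3 : g.emb (C.dirac g B fun y => (χ y : ℂ) • φ y)
        = g.emb (fun y => (χ y : ℂ) • C.dirac g B φ y)
          + g.emb ((C.dirac g B fun y => (χ y : ℂ) • φ y)
            - fun y => (χ y : ℂ) • C.dirac g B φ y) := by
      rw [g.emb_sub (g.memLp_tf hDχ) (g.memLp_tf hχD)]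
      abel
    rw [e3]
    refine (norm_add_le _ _).trans (add_le_add ?_ ?_)
    · refine Lp.norm_le_norm_of_ae_le ?_
      filter_upwards [g.emb_coe (g.memLp_tf hχD), g.emb_coe (g.memLp_tf hD)] with y a1 a2
      rw [a1, a2, norm_smul, Complex.norm_real, Real.norm_eq_abs, abs_of_nonneg (c3 y)]
      exact mul_le_of_le_one_left (norm_nonneg _) (c4 y)
    · refine Lp.norm_le_mul_norm_of_ae_le_mul ?_
      filter_upwards [g.emb_coe ((g.memLp_tf hDχ).sub (g.memLp_tf hχD)),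
        g.emb_coe (g.memLp_tf hφ)] with y a1 a2
      rw [a1, a2, Pi.sub_apply]
      have h2 := norm_dirac_mulr C g B (hφ.1.differentiable (by simp))
        (c1.differentiable (by simp)) y
      refine le_of_sq_le_sq ?_ (by positivity)
      rw [h2, mul_pow]
      exact mul_le_mul_of_nonneg_right (c5 y) (by positivity)
  have hcl : IsClosed {p : g.L2 × g.L2 |
      c₀ * ‖X p.1‖ ^ 2 ≤ (‖p.2‖ + δ * ‖p.1‖) ^ 2 + ‖Y p.1‖ ^ 2} := by
    refine isClosed_le ?_ ?_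
    · exact continuous_const.mul ((X.continuous.comp continuous_fst).norm.pow 2)
    · exact ((continuous_snd.norm.add (continuous_const.mul continuous_fst.norm)).pow 2).add
        ((Y.continuous.comp continuous_fst).norm.pow 2)
  have hfin : c₀ * ‖X w.1‖ ^ 2 ≤ (‖w.2‖ + δ * ‖w.1‖) ^ 2 + ‖Y w.1‖ ^ 2 :=
    (hcl.closure_subset_iff.2 key) hw
  have hX2 : ENNReal.ofReal (‖X w.1‖ ^ 2)
      = ∫⁻ y, ENNReal.ofReal (χ y ^ 2) * ‖w.1 y‖ₑ ^ 2 ∂g.vol := by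
    rw [ENNReal.ofReal_pow (norm_nonneg _), ofReal_norm, hX, E2_enorm g c3 bX]
  have hY2 : ENNReal.ofReal (‖Y w.1‖ ^ 2)
      ≤ ∫⁻ y, ENNReal.ofReal (Vpot g B σ y) * ‖w.1 y‖ₑ ^ 2 ∂g.vol := by
    rw [ENNReal.ofReal_pow (norm_nonneg _), ofReal_norm, hY, E2_enorm g hY0 bY]
    refine lintegral_mono fun y => ?_
    refine mul_le_mul_left (ENNReal.ofReal_le_ofReal ?_) _
    rw [mul_pow, Real.sq_sqrt (E2_V0 g B σ y)]
    have h1 : χ y ^ 2 ≤ 1 := pow_le_one₀ (c3 y) (c4 y)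
    exact mul_le_of_le_one_right (E2_V0 g B σ y) h1
  rw [← hX2, ← ENNReal.ofReal_mul (by positivity)]
  refine (ENNReal.ofReal_le_ofReal hfin).trans ?_
  rw [ENNReal.ofReal_add (by positivity) (by positivity)]
  exact add_le_add_right hY2 _

/-- The inequality on the closure of the graph. Proof: let `(φ_k, D φ_k) → w`. Fix a cutoff function
`χ` with `|dχ| ≤ 1/(n+1)` (`Cutoffs`). By `norm_dirac_mulr`
`‖D(χ φ_k)‖ ≤ ‖D φ_k‖ + ‖φ_k‖ / (n+1)`, so `lich_tf_V` for `χ φ_k` gives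
`(σ/2) ‖χ φ_k‖² ≤ (‖D φ_k‖ + ‖φ_k‖/(n+1))² + ∫ V χ² |φ_k|²`. `V` is bounded on the support of `χ`, so
for `k → ∞`: `(σ/2) ‖χ w.1‖² ≤ (‖w.2‖ + ‖w.1‖/(n+1))² + ∫ V χ² |w.1|²
≤ (‖w.2‖ + ‖w.1‖/(n+1))² + ∫⁻ V |w.1|²`. Now `n → ∞` (`χ = 1` on the ball of radius `n`; dominated
convergence or Fatou). Use `iSup_Mop`. -/
theorem lich_closure' (C : Cliff m) (g : Geo (2 * m)) (hcut : Cutoffs g) {B : Pot (2 * m)}
    (hB : IsPot B) {c₀ σ : ℝ} (hc₀ : 0 < c₀) (hL₀ : LichC C g c₀ σ) (w : g.L2 × g.L2)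
    (hw : w ∈ closure (C.Gr g B : Set (g.L2 × g.L2))) :
    ENNReal.ofReal c₀ * ‖w.1‖ₑ ^ 2 ≤ ‖w.2‖ₑ ^ 2 + ⨆ n, ‖Mop g B σ n w.1‖ₑ ^ 2 := by
  rw [iSup_Mop g hB σ w.1]
  choose χ c1 c2 c3 c4 c6 c5 using hcut
  have hn : ∀ n : ℕ, ENNReal.ofReal c₀ *
      ∫⁻ y, (Metric.closedBall (0 : V (2 * m)) n).indicator (fun y => ‖w.1 y‖ₑ ^ 2) y ∂g.vol
      ≤ ENNReal.ofReal ((‖w.2‖ + 1 / ((n : ℝ) + 1) * ‖w.1‖) ^ 2)
        + ∫⁻ y, ENNReal.ofReal (Vpot g B σ y) * ‖w.1 y‖ₑ ^ 2 ∂g.vol := by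
    intro n
    refine le_trans (mul_le_mul_right ?_ _) (E2_cut C g hB hc₀ hL₀ (by positivity) (c1 n) (c2 n)
      (c3 n) (c4 n) (c5 n) w hw)
    refine lintegral_mono fun y => ?_
    by_cases hy : y ∈ Metric.closedBall (0 : V (2 * m)) n
    · rw [indicator_of_mem hy, c6 n y (mem_closedBall_zero_iff.1 hy)]
      simp
    · rw [indicator_of_notMem hy]
      exact zero_le
  have hm : Measurable fun y => ‖w.1 y‖ₑ ^ 2 := (Lp.stronglyMeasurable w.1).enorm.pow_const 2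
  have hmono : Monotone fun n : ℕ => ∫⁻ y, (Metric.closedBall (0 : V (2 * m)) n).indicator
      (fun y => ‖w.1 y‖ₑ ^ 2) y ∂g.vol := by
    intro n k hnk
    refine lintegral_mono fun y => ?_
    exact indicator_le_indicator_of_subset
      (Metric.closedBall_subset_closedBall (Nat.cast_le.2 hnk)) (fun _ => zero_le) y
  have hsup : ⨆ n : ℕ, ∫⁻ y, (Metric.closedBall (0 : V (2 * m)) n).indicator
      (fun y => ‖w.1 y‖ₑ ^ 2) y ∂g.vol = ‖w.1‖ₑ ^ 2 := by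
    rw [← lintegral_iSup, g.enorm_L2_sq]
    · refine lintegral_congr fun y => ?_
      obtain ⟨k, hk⟩ := exists_nat_ge ‖y‖
      refine le_antisymm (iSup_le fun n => ?_) ?_
      · exact indicator_le_self _ _ _
      · refine le_trans (le_of_eq ?_) (le_iSup _ k)
        rw [indicator_of_mem (mem_closedBall_zero_iff.2 hk)]
    · exact fun n => hm.indicator Metric.isClosed_closedBall.measurableSet
    · intro n k hnk y
      exact indicator_le_indicator_of_subset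
        (Metric.closedBall_subset_closedBall (Nat.cast_le.2 hnk)) (fun _ => zero_le) y
  have hL : Tendsto (fun n : ℕ => ENNReal.ofReal c₀ * ∫⁻ y,
      (Metric.closedBall (0 : V (2 * m)) n).indicator (fun y => ‖w.1 y‖ₑ ^ 2) y ∂g.vol) atTop
      (𝓝 (ENNReal.ofReal c₀ * ‖w.1‖ₑ ^ 2)) := by
    refine ENNReal.Tendsto.const_mul ?_ (Or.inr ENNReal.ofReal_ne_top)
    rw [← hsup]
    exact tendsto_atTop_iSup hmono
  have hR : Tendsto (fun n : ℕ => ENNReal.ofReal ((‖w.2‖ + 1 / ((n : ℝ) + 1) * ‖w.1‖) ^ 2)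
        + ∫⁻ y, ENNReal.ofReal (Vpot g B σ y) * ‖w.1 y‖ₑ ^ 2 ∂g.vol) atTop
      (𝓝 (‖w.2‖ₑ ^ 2 + ∫⁻ y, ENNReal.ofReal (Vpot g B σ y) * ‖w.1 y‖ₑ ^ 2 ∂g.vol)) := by
    refine Tendsto.add ?_ tendsto_const_nhds
    have e1 : ‖w.2‖ₑ ^ 2 = ENNReal.ofReal ((‖w.2‖ + 0 * ‖w.1‖) ^ 2) := by
      rw [zero_mul, add_zero, ENNReal.ofReal_pow (norm_nonneg _), ofReal_norm]
    rw [e1]
    refine ENNReal.tendsto_ofReal ?_
    exact ((tendsto_one_div_add_atTop_nhds_zero_nat.mul_const _).const_add _).pow 2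
  exact le_of_tendsto_of_tendsto' hL hR hn

theorem lich_closure (C : Cliff m) (g : Geo (2 * m)) (hcut : Cutoffs g) {B : Pot (2 * m)}
    (hB : IsPot B) {σ : ℝ} (hσ : 0 < σ) (hs : ∀ y, 4 * σ ≤ g.scal y) (w : g.L2 × g.L2)
    (hw : w ∈ closure (C.Gr g B : Set (g.L2 × g.L2))) :
    ENNReal.ofReal (σ / 2) * ‖w.1‖ₑ ^ 2 ≤ ‖w.2‖ₑ ^ 2 + ⨆ n, ‖Mop g B σ n w.1‖ₑ ^ 2 :=
  lich_closure' C g hcut hB (by positivity) (lichC_of_scal C g hs) w hw

end Pool.Agent.Lib.MP_df705a_gt.RL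
end
end

section

/-!
# RL2, KT2: Lichnerowicz with the kinetic term, smooth approximations of `‖φ‖`
-/

open scoped ContDiff InnerProductSpace Matrix ENNReal
open MeasureTheory

noncomputable section

namespace Pool.Agent.Lib.MP_df705a_gt.RL

variable {m : ℕ}

theorem kt_int (g : Geo (2 * m)) {ψ : V (2 * m) → Sp m} (hψ : IsTF ψ) :
    Integrable (fun y => ‖ψ y‖ ^ 2) g.vol := by
  refine Continuous.integrable_of_hasCompactSupport (hψ.1.continuous.norm.pow 2) ?_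
  exact hψ.2.comp_left (g := fun x => ‖x‖ ^ 2) (by simp)

/-- Lichnerowicz with the kinetic term. -/
theorem lich_tf_kin (C : Cliff m) (g : Geo (2 * m)) {B : Pot (2 * m)} (hB : IsPot B)
    {φ : V (2 * m) → Sp m} (hφ : IsTF φ) :
    ∫ y, ∑ a, ‖C.nabE g B a φ y‖ ^ 2 ∂g.vol
      + ∫ y, (g.scal y / 4 - (1 / 2) * ∑ a, ∑ b, |g.fr (dPot B) y a b|) * ‖φ y‖ ^ 2 ∂g.vol
      ≤ ‖g.emb (C.dirac g B φ)‖ ^ 2 := by
  have hD := isTF_dirac C g hB hφ
  have hDD := isTF_dirac C g hB hD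
  have hn := fun a => isTF_nabE C g hB a hφ
  have hF := fun a => (isTF_nabE C g hB a (hn a)).add ((hn a).mulr (g.contDiff_dv a))
  -- the curvature part
  set G : V (2 * m) → Sp m := fun y => ((g.scal y / 4 : ℝ) : ℂ) • φ y + C.curvB g B y (φ y)
    with hG
  have hDDe : ∀ y, C.dirac g B (C.dirac g B φ) y
      = - ∑ a, (C.nabE g B a (C.nabE g B a φ) y + (g.dv a y : ℂ) • C.nabE g B a φ y) + G y := by
    intro y
    rw [dirac_dirac C g hB hφ.1 y, add_assoc]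
  have hGc : Continuous G := by
    have : G = fun y => C.dirac g B (C.dirac g B φ) y
        + ∑ a, (C.nabE g B a (C.nabE g B a φ) y + (g.dv a y : ℂ) • C.nabE g B a φ y) := by
      funext y
      rw [hDDe y]
      abel
    rw [this]
    exact hDD.1.continuous.add (continuous_finsetSum _ fun a _ => (hF a).1.continuous)
  -- `‖D φ‖² = ⟪φ, D² φ⟫`
  have h1 : ⟪g.emb (C.dirac g B φ), g.emb (C.dirac g B φ)⟫_ℂ
      = ∑ a, ⟪g.emb (C.nabE g B a φ), g.emb (C.nabE g B a φ)⟫_ℂ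
        + ∫ y, ⟪φ y, G y⟫_ℂ ∂g.vol := by
    rw [dirac_symm C g hB hφ hD, g.inner_emb (g.memLp_tf hφ) (g.memLp_tf hDD)]
    have e1 : ∀ y, ⟪φ y, C.dirac g B (C.dirac g B φ) y⟫_ℂ
        = - ∑ a, ⟪φ y, C.nabE g B a (C.nabE g B a φ) y + (g.dv a y : ℂ) • C.nabE g B a φ y⟫_ℂ
          + ⟪φ y, G y⟫_ℂ := by
      intro y
      rw [hDDe y, inner_add_right, inner_neg_right, inner_sum]
    have hi : ∀ a, Integrable (fun y => ⟪φ y, C.nabE g B a (C.nabE g B a φ) y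
        + (g.dv a y : ℂ) • C.nabE g B a φ y⟫_ℂ) g.vol :=
      fun a => Y5_int g hφ (hF a).1.continuous
    have hs : Integrable (fun y => - ∑ a, ⟪φ y, C.nabE g B a (C.nabE g B a φ) y
        + (g.dv a y : ℂ) • C.nabE g B a φ y⟫_ℂ) g.vol :=
      (integrable_finsetSum Finset.univ fun a _ => hi a).neg
    rw [integral_congr_ae (Filter.Eventually.of_forall e1), integral_add hs (Y5_int g hφ hGc),
      integral_neg, integral_finsetSum Finset.univ fun a _ => hi a, ← Finset.sum_neg_distrib]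
    congr 1
    refine Finset.sum_congr rfl fun a _ => ?_
    rw [g.inner_emb (g.memLp_tf (hn a)) (g.memLp_tf (hn a)), nabE_adj C g hB a hφ (hn a)]
  have h2 : ‖g.emb (C.dirac g B φ)‖ ^ 2
      = RCLike.re ⟪g.emb (C.dirac g B φ), g.emb (C.dirac g B φ)⟫_ℂ :=
    (inner_self_eq_norm_sq (𝕜 := ℂ) _).symm
  rw [h2, h1, map_add, map_sum]
  have h3 : ∫ y, ∑ a, ‖C.nabE g B a φ y‖ ^ 2 ∂g.vol
      = ∑ a, RCLike.re ⟪g.emb (C.nabE g B a φ), g.emb (C.nabE g B a φ)⟫_ℂ := by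
    rw [integral_finsetSum Finset.univ fun a _ => ?_]
    · refine Finset.sum_congr rfl fun a _ => ?_
      rw [inner_self_eq_norm_sq (𝕜 := ℂ), g.norm_emb_sq (g.memLp_tf (hn a))]
    · exact kt_int g (hn a)
  have hfr : Continuous fun y => g.scal y / 4 - (1 / 2) * ∑ a, ∑ b, |g.fr (dPot B) y a b| :=
    (g.contDiff_scal.continuous.div_const 4).sub (continuous_const.mul
      (continuous_finsetSum _ fun a _ => continuous_finsetSum _ fun b _ =>
        (Y5_cont_fr g hB a b).abs))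
  have h4 : ∫ y, (g.scal y / 4 - (1 / 2) * ∑ a, ∑ b, |g.fr (dPot B) y a b|) * ‖φ y‖ ^ 2 ∂g.vol
      ≤ ∫ y, RCLike.re ⟪φ y, G y⟫_ℂ ∂g.vol := by
    refine integral_mono ?_ (Y5_int g hφ hGc).re fun y => ?_
    · refine (hfr.mul (hφ.1.continuous.norm.pow 2)).integrable_of_hasCompactSupport ?_
      refine hφ.2.mono fun y hy => ?_
      rw [Function.mem_support] at hy ⊢
      intro h
      exact hy (by simp [h])
    · exact Y5_alg (φ y) (C.curvB g B y) (g.scal y / 4) (G y) rfl (norm_curvB_le C g B y)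
  have h5 : ∫ y, RCLike.re ⟪φ y, G y⟫_ℂ ∂g.vol = RCLike.re (∫ y, ⟪φ y, G y⟫_ℂ ∂g.vol) :=
    integral_re (Y5_int g hφ hGc)
  rw [← h5, h3]
  linarith

private theorem kt_conn (C : Cliff m) (g : Geo (2 * m)) (B : Pot (2 * m)) (μ : Fin (2 * m))
    (y : V (2 * m)) (u : Sp m) : RCLike.re ⟪u, C.conn g B μ y u⟫_ℂ = 0 := by
  have h1 : ⟪C.spin (g.Γ μ y) u, u⟫_ℂ = - ⟪u, C.spin (g.Γ μ y) u⟫_ℂ := by
    have h := C.adj_spin (g.anti μ y)
    rw [← ContinuousLinearMap.adjoint_inner_right, show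
      ContinuousLinearMap.adjoint (C.spin (g.Γ μ y)) = - C.spin (g.Γ μ y) from h]
    show ⟪u, -(C.spin (g.Γ μ y) u)⟫_ℂ = _
    rw [inner_neg_right]
  have h2 : C.conn g B μ y u = C.spin (g.Γ μ y) u + (Complex.I * (B μ y : ℂ)) • u := rfl
  have h3 : ⟪C.conn g B μ y u, u⟫_ℂ = - ⟪u, C.conn g B μ y u⟫_ℂ := by
    rw [h2, inner_add_left, inner_add_right, h1, inner_smul_left, inner_smul_right, map_mul,
      Complex.conj_I, Complex.conj_ofReal]
    ring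
  have h4 : RCLike.re ⟪C.conn g B μ y u, u⟫_ℂ = - RCLike.re ⟪u, C.conn g B μ y u⟫_ℂ := by
    rw [h3, map_neg]
  rw [inner_re_symm] at h4
  linarith

/-- The smooth approximation of `‖φ‖`. -/
def ktu (φ : V (2 * m) → Sp m) (ε : ℝ) (y : V (2 * m)) : ℝ := √(‖φ y‖ ^ 2 + ε ^ 2) - ε

private theorem kt_sq_smooth {φ : V (2 * m) → Sp m} (hφ : IsTF φ) :
    ContDiff ℝ ∞ fun y => ‖φ y‖ ^ 2 := by
  have h : (fun y => ‖φ y‖ ^ 2) = fun y => Complex.reCLM ⟪φ y, φ y⟫_ℂ :=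
    funext fun y => norm_sq_eq_re_inner (𝕜 := ℂ) (φ y)
  rw [h]
  exact Complex.reCLM.contDiff.comp (hφ.1.inner ℂ hφ.1)

theorem ktu_smooth {φ : V (2 * m) → Sp m} (hφ : IsTF φ) {ε : ℝ} (hε : 0 < ε) :
    ContDiff ℝ ∞ (ktu φ ε) := by
  unfold ktu
  have h : ContDiff ℝ ∞ fun y => √(‖φ y‖ ^ 2 + ε ^ 2) := by
    refine ContDiff.sqrt ((kt_sq_smooth hφ).add contDiff_const) fun y => ?_
    positivity
  exact h.sub contDiff_const

theorem ktu_cs {φ : V (2 * m) → Sp m} (hφ : IsTF φ) {ε : ℝ} (hε : 0 < ε) :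
    HasCompactSupport (ktu φ ε) := by
  refine hφ.2.comp_left (g := fun x => √(‖x‖ ^ 2 + ε ^ 2) - ε) ?_
  simp [Real.sqrt_sq hε.le]

theorem ktu_nonneg (φ : V (2 * m) → Sp m) {ε : ℝ} (hε : 0 < ε) (y : V (2 * m)) :
    0 ≤ ktu φ ε y := by
  unfold ktu
  have : ε ≤ √(‖φ y‖ ^ 2 + ε ^ 2) := Real.le_sqrt_of_sq_le (by nlinarith [sq_nonneg ‖φ y‖])
  linarith

theorem ktu_le (φ : V (2 * m) → Sp m) {ε : ℝ} (hε : 0 < ε) (y : V (2 * m)) :
    ktu φ ε y ≤ ‖φ y‖ := by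
  unfold ktu
  have : √(‖φ y‖ ^ 2 + ε ^ 2) ≤ ‖φ y‖ + ε := by
    rw [Real.sqrt_le_left (by positivity)]
    nlinarith [norm_nonneg (φ y)]
  linarith

theorem le_ktu (φ : V (2 * m) → Sp m) {ε : ℝ} (y : V (2 * m)) :
    ‖φ y‖ ≤ ktu φ ε y + ε := by
  unfold ktu
  have : ‖φ y‖ ≤ √(‖φ y‖ ^ 2 + ε ^ 2) := Real.le_sqrt_of_sq_le (by nlinarith [sq_nonneg ε])
  linarith

private theorem kt_sq_pd {φ : V (2 * m) → Sp m} (hd : Differentiable ℝ φ) (μ : Fin (2 * m))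
    (y : V (2 * m)) :
    fderiv ℝ (fun y => ‖φ y‖ ^ 2) y (bv μ) = 2 * RCLike.re ⟪φ y, pd μ φ y⟫_ℂ := by
  have h : (fun y => ‖φ y‖ ^ 2) = fun y => Complex.reCLM ⟪φ y, φ y⟫_ℂ :=
    funext fun y => norm_sq_eq_re_inner (𝕜 := ℂ) (φ y)
  rw [h]
  have hin : DifferentiableAt ℝ (fun y => ⟪φ y, φ y⟫_ℂ) y := (hd.inner ℂ hd) y
  have h1 : fderiv ℝ (fun y => Complex.reCLM ⟪φ y, φ y⟫_ℂ) y
      = Complex.reCLM.comp (fderiv ℝ (fun y => ⟪φ y, φ y⟫_ℂ) y) :=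
    (Complex.reCLM.hasFDerivAt.comp y hin.hasFDerivAt).fderiv
  have h2 : fderiv ℝ (fun y => ⟪φ y, φ y⟫_ℂ) y (bv μ) = ⟪φ y, pd μ φ y⟫_ℂ + ⟪pd μ φ y, φ y⟫_ℂ :=
    fderiv_inner_apply ℂ (hd y) (hd y) (bv μ)
  rw [h1, ContinuousLinearMap.comp_apply, h2, Complex.reCLM_apply, Complex.add_re]
  have h3 : Complex.re ⟪pd μ φ y, φ y⟫_ℂ = Complex.re ⟪φ y, pd μ φ y⟫_ℂ :=
    inner_re_symm (𝕜 := ℂ) (pd μ φ y) (φ y)
  rw [h3]
  exact (two_mul _).symm

private theorem kt_pd_sqrt {φ : V (2 * m) → Sp m} (hφ : IsTF φ) (y : V (2 * m))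
    {ε : ℝ} (hε : 0 < ε) (μ : Fin (2 * m)) : pd μ (ktu φ ε) y
      = 1 / √(‖φ y‖ ^ 2 + ε ^ 2) * RCLike.re ⟪φ y, pd μ φ y⟫_ℂ := by
  have hpos : 0 < ‖φ y‖ ^ 2 + ε ^ 2 := by positivity
  have e1 : HasFDerivAt (fun y => ‖φ y‖ ^ 2) (fderiv ℝ (fun y => ‖φ y‖ ^ 2) y) y :=
    ((kt_sq_smooth hφ).differentiable (by simp) y).hasFDerivAt
  have e2 := ((e1.add_const (ε ^ 2)).sqrt hpos.ne').sub_const ε
  have e3 : fderiv ℝ (ktu φ ε) y
      = (1 / (2 * √(‖φ y‖ ^ 2 + ε ^ 2))) • fderiv ℝ (fun y => ‖φ y‖ ^ 2) y := e2.fderiv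
  unfold pd
  rw [e3, smul_apply, kt_sq_pd (hφ.1.differentiable (by simp)), smul_eq_mul]
  unfold pd
  field_simp

/-- The derivatives of the approximation. -/
theorem pd_ktu (C : Cliff m) (g : Geo (2 * m)) (B : Pot (2 * m)) {φ : V (2 * m) → Sp m}
    (hφ : IsTF φ) {ε : ℝ} (hε : 0 < ε) (y : V (2 * m)) (a : Fin (2 * m)) :
    ∑ μ, g.e y μ a * pd μ (ktu φ ε) y
      = RCLike.re ⟪((1 / √(‖φ y‖ ^ 2 + ε ^ 2) : ℝ) : ℂ) • φ y, C.nabE g B a φ y⟫_ℂ := by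
  have h1 : ∀ μ, pd μ (ktu φ ε) y
      = 1 / √(‖φ y‖ ^ 2 + ε ^ 2) * RCLike.re ⟪φ y, pd μ φ y⟫_ℂ := by
    intro μ
    exact kt_pd_sqrt hφ y hε μ
  have h2 : ∀ μ, RCLike.re ⟪φ y, pd μ φ y⟫_ℂ = RCLike.re ⟪φ y, C.nab g B μ φ y⟫_ℂ := by
    intro μ
    unfold Cliff.nab
    rw [inner_add_right, map_add, kt_conn, add_zero]
  unfold Cliff.nabE
  rw [inner_smul_left, Complex.conj_ofReal]
  have h3 : RCLike.re (((1 / √(‖φ y‖ ^ 2 + ε ^ 2) : ℝ) : ℂ) *
      ⟪φ y, ∑ μ, (g.e y μ a : ℂ) • C.nab g B μ φ y⟫_ℂ) = 1 / √(‖φ y‖ ^ 2 + ε ^ 2) *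
      RCLike.re ⟪φ y, ∑ μ, (g.e y μ a : ℂ) • C.nab g B μ φ y⟫_ℂ :=
    RCLike.re_ofReal_mul (K := ℂ) _ _
  rw [h3, inner_sum, map_sum, Finset.mul_sum]
  refine Finset.sum_congr rfl fun μ _ => ?_
  have h4 : RCLike.re ⟪φ y, (g.e y μ a : ℂ) • C.nab g B μ φ y⟫_ℂ
      = g.e y μ a * RCLike.re ⟪φ y, C.nab g B μ φ y⟫_ℂ := by
    rw [inner_smul_right]
    exact RCLike.re_ofReal_mul (K := ℂ) _ _
  rw [h4, h1, h2]
  ring

theorem ktu_norm_le (φ : V (2 * m) → Sp m) {ε : ℝ} (hε : 0 < ε) (y : V (2 * m)) :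
    ‖((1 / √(‖φ y‖ ^ 2 + ε ^ 2) : ℝ) : ℂ) • φ y‖ ≤ 1 := by
  have h0 : 0 < √(‖φ y‖ ^ 2 + ε ^ 2) := Real.sqrt_pos.2 (by positivity)
  rw [norm_smul, Complex.norm_real, Real.norm_eq_abs, abs_of_nonneg (by positivity), one_div,
    inv_mul_le_iff₀ h0, mul_one]
  exact Real.le_sqrt_of_sq_le (by nlinarith [sq_nonneg ε])

/-- The refined inequality of Kato for the approximations. -/
theorem kato_tf (C : Cliff m) (hm : 1 ≤ m) (g : Geo (2 * m)) (B : Pot (2 * m))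
    {φ : V (2 * m) → Sp m} (hφ : IsTF φ) {ε : ℝ} (hε : 0 < ε) {δ : ℝ} (hδ : 0 < δ)
    (y : V (2 * m)) :
    (1 + 1 / ((1 + δ) * (2 * m - 1))) * ∑ a, (∑ μ, g.e y μ a * pd μ (ktu φ ε) y) ^ 2
      ≤ ∑ a, ‖C.nabE g B a φ y‖ ^ 2 + 1 / (δ * (2 * m - 1)) * ‖C.dirac g B φ y‖ ^ 2 := by
  have h := kato_alg C hm (fun a => C.nabE g B a φ y) (ktu_norm_le φ hε y) hδ
  have h1 : ∀ a, (∑ μ, g.e y μ a * pd μ (ktu φ ε) y) ^ 2
      = (RCLike.re ⟪((1 / √(‖φ y‖ ^ 2 + ε ^ 2) : ℝ) : ℂ) • φ y, C.nabE g B a φ y⟫_ℂ) ^ 2 :=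
    fun a => by rw [pd_ktu C g B hφ hε y a]
  rw [Finset.sum_congr rfl fun a _ => h1 a]
  exact h

end Pool.Agent.Lib.MP_df705a_gt.RL
end
end

section

/-!
# RL2, KT3: the inequality of Lichnerowicz from a lower bound of the spectrum of `-κΔ + scal`
-/

open scoped ContDiff InnerProductSpace Matrix ENNReal
open MeasureTheory

noncomputable section

namespace Pool.Agent.Lib.MP_df705a_gt.RL

variable {N m : ℕ}

/-- `-κΔ + scal ≥ σ` on the smooth functions with compact support. -/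
def Geo.SpecGe (g : Geo N) (κ σ : ℝ) : Prop :=
  ∀ u : V N → ℝ, ContDiff ℝ ∞ u → HasCompactSupport u →
    σ * ∫ y, u y ^ 2 ∂g.vol
      ≤ ∫ y, (κ * ∑ a, (∑ μ, g.e y μ a * pd μ u y) ^ 2 + g.scal y * u y ^ 2) ∂g.vol

theorem kt_intc (g : Geo N) {f : V N → ℝ} (hf : Continuous f) (hc : HasCompactSupport f) :
    Integrable f g.vol := hf.integrable_of_hasCompactSupport hc

theorem kt_cs_sq {φ : V (2 * m) → Sp m} (hφ : IsTF φ) :
    HasCompactSupport fun y => ‖φ y‖ ^ 2 :=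
  hφ.2.comp_left (g := fun x => ‖x‖ ^ 2) (by simp)

theorem kt_cs_n {φ : V (2 * m) → Sp m} (hφ : IsTF φ) :
    HasCompactSupport fun y => ‖φ y‖ :=
  hφ.2.comp_left (g := fun x => ‖x‖) (by simp)

/-- The gradient of a test function has compact support. -/
theorem kt_grad (g : Geo N) {u : V N → ℝ} (hu : ContDiff ℝ ∞ u) (hc : HasCompactSupport u) :
    Continuous (fun y => ∑ a, (∑ μ, g.e y μ a * pd μ u y) ^ 2) ∧
      HasCompactSupport fun y => ∑ a, (∑ μ, g.e y μ a * pd μ u y) ^ 2 := by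
  constructor
  · exact continuous_finsetSum _ fun a _ => (continuous_finsetSum _ fun μ _ =>
      (g.smooth_e μ a).continuous.mul (contDiff_pd hu μ).continuous).pow 2
  · refine HasCompactSupport.intro (hc.fderiv (𝕜 := ℝ)) fun y hy => ?_
    have h : fderiv ℝ u y = 0 := image_eq_zero_of_notMem_tsupport hy
    refine Finset.sum_eq_zero fun a _ => ?_
    have h1 : ∀ μ, g.e y μ a * pd μ u y = 0 := by
      intro μ
      unfold pd
      rw [h, zero_apply, mul_zero]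
    rw [Finset.sum_eq_zero fun μ _ => h1 μ]
    norm_num

/-- The inequality with the error term `ε`. -/
theorem lich_spec_eps (C : Cliff m) (hm : 1 ≤ m) (g : Geo (2 * m)) {B : Pot (2 * m)} (hB : IsPot B)
    {κ σ δ : ℝ} (hδ : 0 < δ) (hκ : κ / 4 ≤ 1 + 1 / ((1 + δ) * (2 * m - 1)))
    (hs : g.SpecGe κ σ) {φ : V (2 * m) → Sp m} (hφ : IsTF φ) {ε : ℝ} (hε : 0 < ε) :
    σ / 4 * ∫ y, ‖φ y‖ ^ 2 ∂g.vol
      ≤ (1 + 1 / (δ * (2 * m - 1))) * ‖g.emb (C.dirac g B φ)‖ ^ 2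
        + ∫ y, wcurv g B y * ‖φ y‖ ^ 2 ∂g.vol
        + ε * ∫ y, |(σ - g.scal y) / 2| * ‖φ y‖ ∂g.vol := by
  set C' : ℝ := 1 / (δ * (2 * m - 1)) with hC'
  set u := ktu φ ε with hu
  have hus : ContDiff ℝ ∞ u := ktu_smooth hφ hε
  have huc : HasCompactSupport u := ktu_cs hφ hε
  have hn := fun a => isTF_nabE C g hB a hφ
  have hD := isTF_dirac C g hB hφ
  obtain ⟨gc, gs⟩ := kt_grad g hus huc
  have hscal := g.contDiff_scal.continuous
  have hu2s : HasCompactSupport fun y => u y ^ 2 := huc.comp_left (g := fun x => x ^ 2) (by simp)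
  have hu2c : Continuous fun y => u y ^ 2 := hus.continuous.pow 2
  -- integrability
  have iG : Integrable (fun y => ∑ a, (∑ μ, g.e y μ a * pd μ u y) ^ 2) g.vol := kt_intc g gc gs
  have iN : Integrable (fun y => ∑ a, ‖C.nabE g B a φ y‖ ^ 2) g.vol :=
    integrable_finsetSum _ fun a _ => kt_int g (hn a)
  have iD : Integrable (fun y => ‖C.dirac g B φ y‖ ^ 2) g.vol := kt_int g hD
  have iφ : ∀ s : V (2 * m) → ℝ, Continuous s →
      Integrable (fun y => s y * ‖φ y‖ ^ 2) g.vol := fun s hsc =>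
    kt_intc g (hsc.mul (hφ.1.continuous.norm.pow 2)) (kt_cs_sq hφ).mul_left
  have iφ1 : ∀ s : V (2 * m) → ℝ, Continuous s →
      Integrable (fun y => s y * ‖φ y‖) g.vol := fun s hsc =>
    kt_intc g (hsc.mul hφ.1.continuous.norm) (kt_cs_n hφ).mul_left
  have iu : ∀ s : V (2 * m) → ℝ, Continuous s →
      Integrable (fun y => s y * u y ^ 2) g.vol := fun s hsc =>
    kt_intc g (hsc.mul hu2c) hu2s.mul_left
  have hfr : Continuous fun y => (1 / 2) * ∑ a, ∑ b, |g.fr (dPot B) y a b| :=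
    continuous_const.mul (continuous_finsetSum _ fun a _ => continuous_finsetSum _ fun b _ =>
      (Y5_cont_fr g hB a b).abs)
  have hw := continuous_wcurv g hB
  -- Kato
  have k1 : ∫ y, κ / 4 * ∑ a, (∑ μ, g.e y μ a * pd μ u y) ^ 2 ∂g.vol
      ≤ ∫ y, (∑ a, ‖C.nabE g B a φ y‖ ^ 2 + C' * ‖C.dirac g B φ y‖ ^ 2) ∂g.vol := by
    refine integral_mono (iG.const_mul _) (iN.add (iD.const_mul _)) fun y => ?_
    have h := kato_tf C hm g B hφ hε hδ y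
    refine le_trans ?_ h
    exact mul_le_mul_of_nonneg_right hκ (Finset.sum_nonneg fun a _ => sq_nonneg _)
  rw [integral_add iN (iD.const_mul _), integral_const_mul C', integral_const_mul (κ / 4)] at k1
  -- Lichnerowicz
  have k2 := lich_tf_kin C g hB hφ
  have k2' : ∫ y, (g.scal y / 4 - wcurv g B y) * ‖φ y‖ ^ 2 ∂g.vol
      ≤ ∫ y, (g.scal y / 4 - (1 / 2) * ∑ a, ∑ b, |g.fr (dPot B) y a b|) * ‖φ y‖ ^ 2 ∂g.vol := by
    refine integral_mono (iφ _ ((hscal.div_const 4).sub hw))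
      (iφ _ ((hscal.div_const 4).sub hfr)) fun y => ?_
    have h1 := sum_abs_le_wcurv g B y
    exact mul_le_mul_of_nonneg_right (by linarith) (by positivity)
  have k3 : ‖g.emb (C.dirac g B φ)‖ ^ 2 = ∫ y, ‖C.dirac g B φ y‖ ^ 2 ∂g.vol :=
    g.norm_emb_sq (g.memLp_tf hD)
  -- the spectrum
  have k4 := hs u hus huc
  rw [integral_add (iG.const_mul κ) (iu _ hscal), integral_const_mul κ] at k4
  -- the error
  have k5 : ∫ y, (σ - g.scal y) / 4 * (‖φ y‖ ^ 2 - u y ^ 2) ∂g.vol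
      ≤ ε * ∫ y, |(σ - g.scal y) / 2| * ‖φ y‖ ∂g.vol := by
    rw [← integral_const_mul]
    have c1 : Continuous fun y => (σ - g.scal y) / 4 := (continuous_const.sub hscal).div_const 4
    have c2 : Continuous fun y => |(σ - g.scal y) / 2| :=
      ((continuous_const.sub hscal).div_const 2).abs
    refine integral_mono ?_ ((iφ1 _ c2).const_mul ε) fun y => ?_
    · have := (iφ _ c1).sub (iu _ c1)
      refine this.congr (Filter.Eventually.of_forall fun y => ?_)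
      show (σ - g.scal y) / 4 * ‖φ y‖ ^ 2 - (σ - g.scal y) / 4 * u y ^ 2 = _
      ring
    · have h0 := ktu_nonneg φ hε y
      have h1 := ktu_le φ hε y
      have h2 := le_ktu φ (ε := ε) y
      rw [← hu] at h0 h1 h2
      have h3 : 0 ≤ ‖φ y‖ ^ 2 - u y ^ 2 := by nlinarith
      have h4 : ‖φ y‖ ^ 2 - u y ^ 2 ≤ 2 * (ε * ‖φ y‖) := by
        have : (‖φ y‖ - u y) * (‖φ y‖ + u y) ≤ ε * (2 * ‖φ y‖) := by
          refine mul_le_mul (by linarith) (by linarith) (by linarith [norm_nonneg (φ y)]) hε.le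
        nlinarith
      calc (σ - g.scal y) / 4 * (‖φ y‖ ^ 2 - u y ^ 2)
          ≤ |(σ - g.scal y) / 4| * (‖φ y‖ ^ 2 - u y ^ 2) :=
            mul_le_mul_of_nonneg_right (le_abs_self _) h3
        _ ≤ |(σ - g.scal y) / 4| * (2 * (ε * ‖φ y‖)) :=
            mul_le_mul_of_nonneg_left h4 (abs_nonneg _)
        _ = ε * (|(σ - g.scal y) / 2| * ‖φ y‖) := by
            rw [abs_div, abs_div, abs_of_pos (by norm_num : (0:ℝ) < 4),
              abs_of_pos (by norm_num : (0:ℝ) < 2)]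
            ring
  -- splitting
  have c1 : Continuous fun y => (σ - g.scal y) / 4 := (continuous_const.sub hscal).div_const 4
  have s1 : ∫ y, (σ - g.scal y) / 4 * (‖φ y‖ ^ 2 - u y ^ 2) ∂g.vol
      = (σ / 4 * ∫ y, ‖φ y‖ ^ 2 ∂g.vol - ∫ y, g.scal y / 4 * ‖φ y‖ ^ 2 ∂g.vol)
        - (σ / 4 * ∫ y, u y ^ 2 ∂g.vol - 1 / 4 * ∫ y, g.scal y * u y ^ 2 ∂g.vol) := by
    have iu2 : Integrable (fun y => u y ^ 2) g.vol := kt_intc g hu2c hu2s
    have iφ2 : Integrable (fun y => ‖φ y‖ ^ 2) g.vol := kt_int g hφ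
    have is4 : Continuous fun y => g.scal y / 4 := hscal.div_const 4
    have i1 : Integrable (fun y => σ / 4 * ‖φ y‖ ^ 2 - g.scal y / 4 * ‖φ y‖ ^ 2) g.vol :=
      (iφ2.const_mul _).sub (iφ _ is4)
    have i2 : Integrable (fun y => σ / 4 * u y ^ 2 - 1 / 4 * (g.scal y * u y ^ 2)) g.vol :=
      (iu2.const_mul _).sub ((iu _ hscal).const_mul _)
    rw [← integral_const_mul (σ / 4), ← integral_const_mul (σ / 4), ← integral_const_mul (1 / 4),
      ← integral_sub (iφ2.const_mul _) (iφ _ is4),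
      ← integral_sub (iu2.const_mul _) ((iu _ hscal).const_mul _), ← integral_sub i1 i2]
    refine integral_congr_ae (Filter.Eventually.of_forall fun y => ?_)
    show _ = (σ / 4 * ‖φ y‖ ^ 2 - g.scal y / 4 * ‖φ y‖ ^ 2)
      - (σ / 4 * u y ^ 2 - 1 / 4 * (g.scal y * u y ^ 2))
    ring
  have s2 : ∫ y, (g.scal y / 4 - wcurv g B y) * ‖φ y‖ ^ 2 ∂g.vol
      = ∫ y, g.scal y / 4 * ‖φ y‖ ^ 2 ∂g.vol - ∫ y, wcurv g B y * ‖φ y‖ ^ 2 ∂g.vol := by
    rw [← integral_sub (iφ _ (hscal.div_const 4)) (iφ _ hw)]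
    refine integral_congr_ae (Filter.Eventually.of_forall fun y => ?_)
    show _ = g.scal y / 4 * ‖φ y‖ ^ 2 - wcurv g B y * ‖φ y‖ ^ 2
    ring
  rw [s2] at k2'
  rw [s1] at k5
  rw [← k3] at k1
  linarith

/-- THE INEQUALITY OF LICHNEROWICZ under the spectral hypothesis: if `-κΔ + scal ≥ 4σ` with
`κ < 4N/(N-1)` then `(σ/2) ‖φ‖² ≤ K ‖Dφ‖² + ∫ V |φ|²`. -/
theorem lich_spec (C : Cliff m) (hm : 1 ≤ m) (g : Geo (2 * m)) {B : Pot (2 * m)} (hB : IsPot B)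
    {κ σ δ : ℝ} (hδ : 0 < δ) (hκ : κ / 4 ≤ 1 + 1 / ((1 + δ) * (2 * m - 1)))
    (hs : g.SpecGe κ (4 * σ)) {φ : V (2 * m) → Sp m} (hφ : IsTF φ) :
    σ / 2 * ‖g.emb φ‖ ^ 2 ≤ (1 + 1 / (δ * (2 * m - 1))) * ‖g.emb (C.dirac g B φ)‖ ^ 2
      + ∫ y, Vpot g B σ y * ‖φ y‖ ^ 2 ∂g.vol := by
  have h0 : σ * ∫ y, ‖φ y‖ ^ 2 ∂g.vol ≤ (1 + 1 / (δ * (2 * m - 1))) *
      ‖g.emb (C.dirac g B φ)‖ ^ 2 + ∫ y, wcurv g B y * ‖φ y‖ ^ 2 ∂g.vol := by
    set c0 := ∫ y, |(4 * σ - g.scal y) / 2| * ‖φ y‖ ∂g.vol with hc0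
    have hc : 0 ≤ c0 := integral_nonneg fun y => by positivity
    refine le_of_forall_pos_le_add fun η hη => ?_
    have h := lich_spec_eps C hm g hB hδ hκ hs hφ (ε := η / (c0 + 1)) (by positivity)
    have h1 : η / (c0 + 1) * c0 ≤ η := by
      rw [div_mul_eq_mul_div, div_le_iff₀ (by positivity)]
      nlinarith
    rw [← hc0] at h
    have h2 : 4 * σ / 4 = σ := by ring
    rw [h2] at h
    linarith
  have hw := continuous_wcurv g hB
  have hV : Continuous (Vpot g B σ) := by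
    unfold Vpot
    exact continuous_const.max (hw.sub continuous_const)
  have iφ : ∀ s : V (2 * m) → ℝ, Continuous s →
      Integrable (fun y => s y * ‖φ y‖ ^ 2) g.vol := fun s hsc =>
    kt_intc g (hsc.mul (hφ.1.continuous.norm.pow 2)) (kt_cs_sq hφ).mul_left
  have h1 : ∫ y, wcurv g B y * ‖φ y‖ ^ 2 ∂g.vol
      ≤ ∫ y, Vpot g B σ y * ‖φ y‖ ^ 2 ∂g.vol + σ / 2 * ∫ y, ‖φ y‖ ^ 2 ∂g.vol := by
    rw [← integral_const_mul, ← integral_add (iφ _ hV) ((kt_int g hφ).const_mul _)]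
    refine integral_mono (iφ _ hw) ((iφ _ hV).add ((kt_int g hφ).const_mul _)) fun y => ?_
    have h2 : wcurv g B y - σ / 2 ≤ Vpot g B σ y := le_max_right _ _
    have h3 : wcurv g B y * ‖φ y‖ ^ 2 ≤ (Vpot g B σ y + σ / 2) * ‖φ y‖ ^ 2 :=
      mul_le_mul_of_nonneg_right (by linarith) (by positivity)
    rw [add_mul] at h3
    exact h3
  rw [g.norm_emb_sq (g.memLp_tf hφ)]
  linarith

/-- The constants of the inequality of Lichnerowicz under the spectral hypothesis. -/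
theorem lichC_of_spec (C : Cliff m) (hm : 1 ≤ m) (g : Geo (2 * m)) {κ σ δ : ℝ} (hδ : 0 < δ)
    (hσ : 0 < σ) (hκ : κ / 4 ≤ 1 + 1 / ((1 + δ) * (2 * m - 1))) (hs : g.SpecGe κ (4 * σ)) :
    LichC C g (σ / 2 / (1 + 1 / (δ * (2 * m - 1)))) σ := by
  intro B hB φ hφ
  have h := lich_spec C hm g hB hδ hκ hs hφ
  have hN : (0 : ℝ) < 2 * m - 1 := by
    have : (1 : ℝ) ≤ m := by exact_mod_cast hm
    linarith
  have hK : 1 ≤ 1 + 1 / (δ * (2 * m - 1)) := by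
    have : 0 < 1 / (δ * (2 * m - 1)) := by positivity
    linarith
  set K := 1 + 1 / (δ * (2 * m - 1)) with hKd
  have hV : 0 ≤ ∫ y, Vpot g B σ y * ‖φ y‖ ^ 2 ∂g.vol :=
    integral_nonneg fun y => mul_nonneg (le_max_left _ _) (by positivity)
  have h1 : σ / 2 / K * ‖g.emb φ‖ ^ 2 = (σ / 2 * ‖g.emb φ‖ ^ 2) / K := by ring
  rw [h1, div_le_iff₀ (by linarith)]
  refine h.trans ?_
  have h2 : ∫ y, Vpot g B σ y * ‖φ y‖ ^ 2 ∂g.vol ≤ (∫ y, Vpot g B σ y * ‖φ y‖ ^ 2 ∂g.vol) * K :=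
    le_mul_of_one_le_right hV hK
  rw [add_mul]
  linarith

/-- The limiting case: if `scal ≥ -b` and `-(4N/(N-1))Δ + scal ≥ σ₀ > 0` then the inequality of
Lichnerowicz holds. -/
theorem lichC_of_spec_lim (g : Geo (2 * m)) (hm : 1 ≤ m) {b σ₀ : ℝ} (hσ₀ : 0 < σ₀)
    (hb : ∀ y, -b ≤ g.scal y) (hs : g.SpecGe (4 * (2 * m) / (2 * m - 1)) σ₀) (C : Cliff m) :
    ∃ c₀ σ : ℝ, 0 < c₀ ∧ 0 < σ ∧ LichC C g c₀ σ := by
  have hN : (1 : ℝ) ≤ 2 * m - 1 := by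
    have : (1 : ℝ) ≤ m := by exact_mod_cast hm
    linarith
  set b' : ℝ := |b| with hb'
  have hbb : ∀ y, -b' ≤ g.scal y := fun y => by
    have h1 := hb y
    have h2 := le_abs_self b
    linarith
  have hb0 : 0 ≤ b' := abs_nonneg b
  set η : ℝ := σ₀ / (2 * (σ₀ + b')) with hη
  have hη0 : 0 < η := by positivity
  have hη1 : η ≤ 1 / 2 := by
    rw [hη, div_le_div_iff₀ (by positivity) (by norm_num)]
    linarith
  have hη2 : η * (σ₀ + b') = σ₀ / 2 := by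
    rw [hη]
    field_simp
  refine ⟨_, σ₀ / 8, ?_, by positivity, lichC_of_spec C hm g
    (κ := (1 - η) * (4 * (2 * m) / (2 * m - 1))) (σ := σ₀ / 8) (δ := η) hη0 (by positivity) ?_ ?_⟩
  · have h1 : (0 : ℝ) < 2 * m - 1 := by linarith
    positivity
  · have h1 : (0 : ℝ) < 2 * m - 1 := by linarith
    have h2 : 1 - η * (2 * m) ≤ 1 / (1 + η) := by
      rw [le_div_iff₀ (by positivity)]
      have h5 : (1 - η * (2 * m)) * (1 + η) ≤ (1 - η) * (1 + η) := by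
        refine mul_le_mul_of_nonneg_right ?_ (by positivity)
        nlinarith
      nlinarith [sq_nonneg η]
    have h3 : (1 - η) * (4 * (2 * m) / (2 * m - 1)) / 4 = 1 + (1 - η * (2 * m)) / (2 * m - 1) := by
      field_simp
      ring
    rw [h3]
    have h4 : 1 / ((1 + η) * (2 * m - 1)) = 1 / (1 + η) / (2 * m - 1) := by
      field_simp
    rw [h4]
    gcongr
  · intro u hu hc
    obtain ⟨gc, gs⟩ := kt_grad g hu hc
    have h0 := hs u hu hc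
    have hu2s : HasCompactSupport fun y => u y ^ 2 := hc.comp_left (g := fun x => x ^ 2) (by simp)
    have hu2c : Continuous fun y => u y ^ 2 := hu.continuous.pow 2
    have iG : Integrable (fun y => ∑ a, (∑ μ, g.e y μ a * pd μ u y) ^ 2) g.vol := kt_intc g gc gs
    have iu : Integrable (fun y => u y ^ 2) g.vol := kt_intc g hu2c hu2s
    have isu : Integrable (fun y => g.scal y * u y ^ 2) g.vol :=
      kt_intc g (g.contDiff_scal.continuous.mul hu2c) hu2s.mul_left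
    rw [integral_add (iG.const_mul _) isu, integral_const_mul] at h0 ⊢
    have h1 : -b' * ∫ y, u y ^ 2 ∂g.vol ≤ ∫ y, g.scal y * u y ^ 2 ∂g.vol := by
      rw [← integral_const_mul]
      refine integral_mono (iu.const_mul _) isu fun y => ?_
      exact mul_le_mul_of_nonneg_right (hbb y) (sq_nonneg _)
    have h2 : 0 ≤ ∫ y, u y ^ 2 ∂g.vol := integral_nonneg fun y => sq_nonneg _
    have h3 : (1 - η) * (σ₀ * ∫ y, u y ^ 2 ∂g.vol) ≤ (1 - η) * (4 * (2 * m) / (2 * m - 1) *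
        ∫ y, ∑ a, (∑ μ, g.e y μ a * pd μ u y) ^ 2 ∂g.vol + ∫ y, g.scal y * u y ^ 2 ∂g.vol) :=
      mul_le_mul_of_nonneg_left h0 (by linarith)
    have h4 : η * (-b' * ∫ y, u y ^ 2 ∂g.vol) ≤ η * ∫ y, g.scal y * u y ^ 2 ∂g.vol :=
      mul_le_mul_of_nonneg_left h1 hη0.le
    have h5 : 4 * (σ₀ / 8) * ∫ y, u y ^ 2 ∂g.vol
        = (1 - η) * (σ₀ * ∫ y, u y ^ 2 ∂g.vol) + η * (-b' * ∫ y, u y ^ 2 ∂g.vol) := by
      have : (1 - η) * σ₀ + η * (-b') = σ₀ / 2 := by linarith [hη2]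
      calc 4 * (σ₀ / 8) * ∫ y, u y ^ 2 ∂g.vol = (σ₀ / 2) * ∫ y, u y ^ 2 ∂g.vol := by ring
        _ = ((1 - η) * σ₀ + η * (-b')) * ∫ y, u y ^ 2 ∂g.vol := by rw [this]
        _ = _ := by ring
    rw [h5]
    refine (add_le_add h3 h4).trans (le_of_eq ?_)
    ring

end Pool.Agent.Lib.MP_df705a_gt.RL
end
end

section

/-!
# RL2, UW: the unitary operator of an isometry
-/

open scoped ContDiff InnerProductSpace Matrix ENNReal NNReal Topology
open MeasureTheory Filter Set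

noncomputable section

namespace Pool.Agent.Lib.MP_df705a_gt.RL

variable {m : ℕ}

theorem isIsom_act {g : Geo (2 * m)} {G : Type*} [Group G] {a : Act G (2 * m)} (ha : a.Iso g)
    (γ : G) : IsIsom g (a.act γ) where
  smooth := a.smooth γ
  isom := ha.isom γ
  ori := ha.ori γ

theorem sq_sum_eq_trace {N : ℕ} (A : Mt N) : ∑ a, ∑ b, (A a b) ^ 2 = (Aᵀ * A).trace := by
  rw [Matrix.trace, Finset.sum_comm]
  refine Finset.sum_congr rfl fun b _ => ?_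
  rw [Matrix.diag_apply, Matrix.mul_apply]
  exact Finset.sum_congr rfl fun a _ => by rw [Matrix.transpose_apply, sq]

/-- the size of the curvature is invariant -/
theorem wcurv_isom {g : Geo (2 * m)} {Φ : V (2 * m) → V (2 * m)} (hΦ : IsIsom g Φ)
    {B B' : Pot (2 * m)} (h : ∀ y, pull2 Φ (dPot B') y = dPot B y) (y : V (2 * m)) :
    wcurv g B y = wcurv g B' (Φ y) := by
  unfold wcurv
  congr 2
  have h1 : g.fr (dPot B) y = (rotOf g Φ y)ᵀ * g.fr (dPot B') (Φ y) * rotOf g Φ y := by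
    unfold Geo.fr
    rw [← h y]
    unfold pull2
    calc (g.e y)ᵀ * ((jac Φ y)ᵀ * dPot B' (Φ y) * jac Φ y) * g.e y
        = (jac Φ y * g.e y)ᵀ * dPot B' (Φ y) * (jac Φ y * g.e y) := by
          simp only [Matrix.transpose_mul, Matrix.mul_assoc]
      _ = _ := by
          rw [jac_mul_e]
          simp only [Matrix.transpose_mul, Matrix.mul_assoc]
  rw [h1, sq_sum_eq_trace, sq_sum_eq_trace]
  set R := rotOf g Φ y
  set Q := g.fr (dPot B') (Φ y)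
  have hR : Rᵀ * R = 1 := rotOf_orth hΦ y
  have hR' : R * Rᵀ = 1 := mul_eq_one_comm.mp hR
  calc ((Rᵀ * Q * R)ᵀ * (Rᵀ * Q * R)).trace = (Rᵀ * (Qᵀ * (R * Rᵀ) * Q) * R).trace := by
        simp only [Matrix.transpose_mul, Matrix.transpose_transpose, Matrix.mul_assoc]
    _ = (Rᵀ * (Qᵀ * Q) * R).trace := by rw [hR', Matrix.mul_one]
    _ = (R * Rᵀ * (Qᵀ * Q)).trace := by rw [Matrix.trace_mul_comm, ← Matrix.mul_assoc]
    _ = (Qᵀ * Q).trace := by rw [hR', Matrix.one_mul]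

/-- (2.5)-(2.7). The differential of the isometry `Φ = a.act γ` in the frames is a smooth function
`R` with values in `SO(2m)`, it has a spin lift `U`, and `B - Φ^* B' = df`. The operator is
`(W u)(Φ y) = exp(i f(y)) U(y) u(y)`. -/
theorem exists_unitary (C : Cliff m) (g : Geo (2 * m)) {G : Type*} [Group G]
    (a : Act G (2 * m)) (ha : a.Iso g) (γ : G) {B B' : Pot (2 * m)} (hB : IsPot B)
    (hB' : IsPot B') (h : ∀ y, pull2 (a.act γ) (dPot B') y = dPot B y) :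
    ∃ W : g.L2 ≃ₗᵢ[ℂ] g.L2,
      (∀ (κ : ℝ) (u : g.L2), W (C.Eps g κ u) = C.Eps g κ (W u)) ∧
      (∀ E, MeasurableSet E → ∀ u : g.L2, W (g.ind E u) = g.ind (a.act γ '' E) (W u)) ∧
      (∀ p q : g.L2, (p, q) ∈ C.Gr g B ↔ (W p, W q) ∈ C.Gr g B') ∧
      ∀ (σ : ℝ) (n : ℕ) (u : g.L2), W (Mop g B σ n u) = Mop g B' σ n (W u) := by
  have hiso := isIsom_act ha γ
  have hiso' := isIsom_act ha γ⁻¹
  have hinv : ∀ y, a.act γ (a.act γ⁻¹ y) = y := fun y => by rw [← a.mul, mul_inv_cancel, a.one]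
  have hinv' : ∀ y, a.act γ⁻¹ (a.act γ y) = y := fun y => by rw [← a.mul, inv_mul_cancel, a.one]
  obtain ⟨U, hU, hL⟩ := C.exists_smooth_lift (isRot_rotOf hiso)
  obtain ⟨f, hf, hBf⟩ := exists_gauge (isPot_pull1 hiso.smooth hB') hB
    (fun y => by rw [dPot_pull1 hiso.smooth hB', h])
  have hD : IsoData C g (a.act γ) (a.act γ⁻¹) U f :=
    ⟨hiso, hiso', hinv, hinv', hU, hL, hf⟩
  have hmem : ∀ φ : V (2 * m) → Sp m, IsTF φ →
      (hD.W (g.emb φ), hD.W (g.emb (C.dirac g B φ)))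
        = (g.emb (hD.Wtf φ), g.emb (C.dirac g B' (hD.Wtf φ))) := by
    intro φ hφ
    rw [hD.W_emb hφ, hD.W_emb (isTF_dirac C g hB hφ), hD.dirac_Wtf hBf hφ.1]
  refine ⟨hD.W, hD.W_Eps, fun E hE u => hD.W_ind hE u, fun p q => ⟨?_, ?_⟩, fun σ n u => ?_⟩
  · intro hpq
    obtain ⟨φ, hφ, hφ'⟩ := (mem_Gr C g hB (p, q)).mp hpq
    rw [mem_Gr C g hB']
    refine ⟨hD.Wtf φ, hD.isTF_Wtf hφ, ?_⟩
    rw [← hmem φ hφ]
    rw [Prod.mk.injEq] at hφ'
    rw [hφ'.1, hφ'.2]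
  · intro hpq
    obtain ⟨ψ, hψ, hψ'⟩ := (mem_Gr C g hB' _).mp hpq
    -- the preimage of `ψ`
    set φ : V (2 * m) → Sp m := fun y => adj (fibU U f y) (ψ (a.act γ y)) with hφ
    have h1 : IsTF fun y => ψ (a.act γ y) :=
      hD.isTF_comp hψ hiso.smooth hiso'.smooth.continuous hinv'
    have h2 : ContDiff ℝ ∞ fun y => adj (fibU U f y) :=
      contDiff_star' (A := En m) hD.contDiff_fibU
    have h3 : IsTF φ := h1.mulA h2
    have h4 : hD.Wtf φ = ψ := by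
      funext z
      unfold IsoData.Wtf
      simp only [hφ, hinv z]
      exact congrArg (fun T : En m => T (ψ z)) (hD.mul_adj_self (a.act γ⁻¹ z))
    have h5 := hmem φ h3
    rw [h4] at h5
    rw [← hψ', Prod.mk.injEq] at h5
    have e1 : g.emb φ = p := hD.W.injective h5.1
    have e2 : g.emb (C.dirac g B φ) = q := hD.W.injective h5.2
    rw [mem_Gr C g hB]
    exact ⟨φ, h3, by rw [e1, e2]⟩
  · unfold Mop
    refine hD.W_scalar (bddM_Mop g hB σ n) (bddM_Mop g hB' σ n) (fun y => ?_) u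
    unfold Vpot
    rw [wcurv_isom hiso h y]

end Pool.Agent.Lib.MP_df705a_gt.RL
end
end
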