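import Pool.Agent.Lib.MP_df705a_gt.Mg.G051
import Pool.Agent.Lib.MP_df705a_gt.Mg.G046
import Pool.Agent.Lib.MP_df705a_gt.Mg.G047
import Pool.Agent.Lib.MP_df705a_gt.Mg.G040
import Pool.Agent.Lib.MP_df705a_gt.Mg.G044
import Pool.Agent.Lib.MP_df705a_gt.Mg.G036

section

/-!
# RL2 parametrix: the gauge phase and the final kernel
-/

open scoped ContDiff InnerProductSpace Matrix Topology Real
open MeasureTheory Filter

noncomputable section

set_option linter.unusedSectionVars false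

namespace Pool.Agent.Lib.MP_df705a_gt.RL

variable {X : Type*} [MeasurableSpace X] {P : Measure X} [IsProbabilityMeasure P] {m : ℕ}
  {ρ : ℝ}

/-- The gauge phase `exp(- i t ∑ β_μ(z) v_μ)`. -/
def ph (Ω : V (2 * m) → Mt (2 * m)) (t : ℝ) (z v : V (2 * m)) : ℂ :=
  Complex.exp (-(Complex.I * (t * ∑ μ, prim Ω μ z * v μ : ℝ)))

theorem norm_ph (Ω : V (2 * m) → Mt (2 * m)) (t : ℝ) (z v : V (2 * m)) : ‖ph Ω t z v‖ = 1 := by
  have h : -(Complex.I * ((t * ∑ μ, prim Ω μ z * v μ : ℝ) : ℂ)) =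
      ((-(t * ∑ μ, prim Ω μ z * v μ) : ℝ) : ℂ) * Complex.I := by
    push_cast
    ring
  rw [ph, h]
  exact Complex.norm_exp_ofReal_mul_I _

theorem contDiff_ph (Ω : V (2 * m) → Mt (2 * m)) (t : ℝ) (z : V (2 * m)) :
    ContDiff ℝ ∞ (ph Ω t z) := by
  have h1 : ContDiff ℝ ∞ fun v : V (2 * m) => t * ∑ μ, prim Ω μ z * v μ :=
    contDiff_const.mul (ContDiff.sum fun μ _ => contDiff_const.mul
      ((EuclideanSpace.proj μ : V (2 * m) →L[ℝ] ℝ).contDiff))
  have h2 : ContDiff ℝ ∞ fun v : V (2 * m) => ((t * ∑ μ, prim Ω μ z * v μ : ℝ) : ℂ) :=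
    Complex.ofRealCLM.contDiff.comp h1
  exact (contDiff_const.mul h2).neg.cexp

/-- PROOF. `prim Ω μ` is continuous (`isPot_prim`). -/
theorem continuous_ph {Ω : V (2 * m) → Mt (2 * m)} (h : IsClosed2 Ω) (t : ℝ) :
    Continuous fun p : V (2 * m) × V (2 * m) => ph Ω t p.1 p.2 := by
  have h1 : ∀ μ, Continuous fun p : V (2 * m) × V (2 * m) => p.2 μ := fun μ =>
    (EuclideanSpace.proj μ : V (2 * m) →L[ℝ] ℝ).continuous.comp continuous_snd
  have h2 : ∀ μ, Continuous fun p : V (2 * m) × V (2 * m) => prim Ω μ p.1 := fun μ =>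
    (isPot_prim h μ).continuous.comp continuous_fst
  have h3 : Continuous fun p : V (2 * m) × V (2 * m) => t * ∑ μ, prim Ω μ p.1 * p.2 μ :=
    continuous_const.mul (continuous_finsetSum _ fun μ _ => (h2 μ).mul (h1 μ))
  exact Complex.continuous_exp.comp
    (continuous_const.mul (Complex.continuous_ofReal.comp h3)).neg

/-- The exponent of the phase as a linear map. -/
def P16_lin (Ω : V (2 * m) → Mt (2 * m)) (t : ℝ) (z : V (2 * m)) : V (2 * m) →L[ℝ] ℝ :=
  ∑ μ, (t * prim Ω μ z) • (EuclideanSpace.proj μ : V (2 * m) →L[ℝ] ℝ)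

theorem P16_lin_apply (Ω : V (2 * m) → Mt (2 * m)) (t : ℝ) (z v : V (2 * m)) :
    P16_lin Ω t z v = t * ∑ μ, prim Ω μ z * v μ := by
  simp [P16_lin, Finset.mul_sum, mul_assoc]

theorem P16_lin_bv (Ω : V (2 * m) → Mt (2 * m)) (t : ℝ) (z : V (2 * m)) (μ : Fin (2 * m)) :
    P16_lin Ω t z (bv μ) = t * prim Ω μ z := by
  rw [P16_lin_apply]
  congr 1
  rw [Finset.sum_eq_single μ]
  · simp [bv]
  · intro b _ hb
    simp [bv, hb]
  · intro h
    exact absurd (Finset.mem_univ μ) h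

theorem P16_ph_fderiv (Ω : V (2 * m) → Mt (2 * m)) (t : ℝ) (z y : V (2 * m)) :
    ∃ E' : V (2 * m) →L[ℝ] ℂ, HasFDerivAt (fun y => ph Ω t z (y - z)) E' y ∧
      ∀ μ, E' (bv μ) = -(Complex.I * ((t * prim Ω μ z : ℝ) : ℂ)) * ph Ω t z (y - z) := by
  have h0 : (fun y => ph Ω t z (y - z)) =
      fun y => Complex.exp (-(Complex.I * ((P16_lin Ω t z (y - z) : ℝ) : ℂ))) := by
    funext y
    rw [ph, P16_lin_apply]
  have h1 : HasFDerivAt (fun y => y - z) (ContinuousLinearMap.id ℝ (V (2 * m))) y :=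
    (hasFDerivAt_id y).sub_const z
  have h2 : HasFDerivAt (fun y => P16_lin Ω t z (y - z))
      ((P16_lin Ω t z).comp (ContinuousLinearMap.id ℝ (V (2 * m)))) y :=
    (P16_lin Ω t z).hasFDerivAt.comp y h1
  have h3 : HasFDerivAt (fun y => ((P16_lin Ω t z (y - z) : ℝ) : ℂ))
      (Complex.ofRealCLM.comp ((P16_lin Ω t z).comp (ContinuousLinearMap.id ℝ (V (2 * m))))) y :=
    Complex.ofRealCLM.hasFDerivAt.comp y h2
  have h4 := ((h3.const_mul Complex.I).neg).cexp
  refine ⟨_, by rw [h0]; exact h4, fun μ => ?_⟩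
  have h5 : ph Ω t z (y - z) =
      Complex.exp (-(Complex.I * ((P16_lin Ω t z (y - z) : ℝ) : ℂ))) := congrFun h0 y
  rw [h5, ← P16_lin_bv Ω t z μ]
  show Complex.exp (-(Complex.I * ((P16_lin Ω t z (y - z) : ℝ) : ℂ))) •
    (-(Complex.I • ((P16_lin Ω t z (bv μ) : ℝ) : ℂ))) = _
  rw [smul_eq_mul, smul_eq_mul]
  ring

theorem P16_nab (C : Cliff m) (g : Geo (2 * m)) (Ω : V (2 * m) → Mt (2 * m)) (t : ℝ)
    (z : V (2 * m)) {ψ : V (2 * m) → Sp m} (hψ : Differentiable ℝ ψ) (μ : Fin (2 * m))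
    (y : V (2 * m)) :
    C.nab g (tPot Ω t) μ (fun y => ph Ω t z (y - z) • ψ y) y
      = ph Ω t z (y - z) • C.nab g (zPot Ω t z) μ ψ y := by
  obtain ⟨E', hE, hE'⟩ := P16_ph_fderiv Ω t z y
  have h1 : HasFDerivAt (fun y => ph Ω t z (y - z) • ψ y)
      (ph Ω t z (y - z) • fderiv ℝ ψ y + E'.smulRight (ψ y)) y :=
    hE.smul (hψ y).hasFDerivAt
  have h2 : pd μ (fun y => ph Ω t z (y - z) • ψ y) y =
      ph Ω t z (y - z) • pd μ ψ y +
        (-(Complex.I * ((t * prim Ω μ z : ℝ) : ℂ)) * ph Ω t z (y - z)) • ψ y := by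
    show fderiv ℝ (fun y => ph Ω t z (y - z) • ψ y) y (bv μ) = _
    rw [h1.fderiv, ← hE' μ]
    rfl
  have h3 : ∀ (B : Pot (2 * m)) (w : Sp m), C.conn g B μ y w =
      C.spin (g.Γ μ y) w + (Complex.I * (B μ y : ℂ)) • w := fun B w => rfl
  unfold Cliff.nab
  rw [h2, h3, h3, map_smul]
  have h4 : ((tPot Ω t μ y : ℝ) : ℂ) = (t : ℂ) * (prim Ω μ y : ℂ) := by
    simp [tPot]
  have h5 : ((zPot Ω t z μ y : ℝ) : ℂ) = (t : ℂ) * ((prim Ω μ y : ℂ) - (prim Ω μ z : ℂ)) := by
    simp [zPot]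
  rw [h4, h5]
  push_cast
  module

/-- The gauge transformation.
PROOF. With `E y = ph Ω t z (y - z)`: `pd μ E y = - i t β_μ(z) E y`. So
`nab (tPot Ω t) μ (fun y => E y • ψ y) y = E y • (pd μ ψ y - i t β_μ(z) ψ y + spin Γ_μ ψ y + i t β_μ(y) ψ y)
= E y • nab (zPot Ω t z) μ ψ y`; then sum over the frame and the Clifford matrices. -/
theorem dirac_ph (C : Cliff m) (g : Geo (2 * m)) (Ω : V (2 * m) → Mt (2 * m)) (t : ℝ)
    (z : V (2 * m)) {ψ : V (2 * m) → Sp m} (hψ : Differentiable ℝ ψ) (y : V (2 * m)) :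
    C.dirac g (tPot Ω t) (fun y => ph Ω t z (y - z) • ψ y) y
      = ph Ω t z (y - z) • C.dirac g (zPot Ω t z) ψ y := by
  unfold Cliff.dirac Cliff.nabE
  rw [Finset.smul_sum]
  refine Finset.sum_congr rfl fun a _ => ?_
  rw [← map_smul, Finset.smul_sum]
  congr 1
  refine Finset.sum_congr rfl fun μ _ => ?_
  rw [P16_nab C g Ω t z hψ μ y, smul_comm]

variable {Ω : X → V (2 * m) → Mt (2 * m)}

/-- The kernel. -/
def kq (C : Cliff m) (g : Geo (2 * m)) (h : RForm P Ω) (ρ : ℝ) (t : ℝ) (x : X) (r : ℝ)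
    (z y : V (2 * m)) : En m :=
  ph (Ω x) t z (y - z) • (dOp (ρ := ρ) C g h).Q g (2 * m) t x z r (y - z)

/-- Its time derivative. -/
def kqd (C : Cliff m) (g : Geo (2 * m)) (h : RForm P Ω) (ρ : ℝ) (t : ℝ) (x : X) (r : ℝ)
    (z y : V (2 * m)) : En m :=
  ph (Ω x) t z (y - z) • (dOp (ρ := ρ) C g h).Qd g (2 * m) t x z r (y - z)

/-- The error. -/
def kqe (C : Cliff m) (g : Geo (2 * m)) (h : RForm P Ω) (ρ : ℝ) (t : ℝ) (x : X) (r : ℝ)
    (z y : V (2 * m)) : En m :=
  ph (Ω x) t z (y - z) • (dOp (ρ := ρ) C g h).Qe g (2 * m) t x z r (y - z)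

theorem P16_cont {Ω : V (2 * m) → Mt (2 * m)} (h : IsClosed2 Ω) (t : ℝ)
    {F : ℝ × V (2 * m) × V (2 * m) → En m} (hF : ContinuousOn F {q | 0 < q.1}) :
    ContinuousOn (fun p : ℝ × V (2 * m) × V (2 * m) =>
      ph Ω t p.2.1 (p.2.2 - p.2.1) • F (p.1, p.2.1, p.2.2 - p.2.1)) {p | 0 < p.1} := by
  have h1 : Continuous fun p : ℝ × V (2 * m) × V (2 * m) => p.2.1 :=
    continuous_fst.comp continuous_snd
  have h2 : Continuous fun p : ℝ × V (2 * m) × V (2 * m) => p.2.2 - p.2.1 :=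
    (continuous_snd.comp continuous_snd).sub h1
  have h3 : Continuous fun p : ℝ × V (2 * m) × V (2 * m) => ph Ω t p.2.1 (p.2.2 - p.2.1) :=
    (continuous_ph h t).comp (h1.prodMk h2)
  have h4 : Continuous fun p : ℝ × V (2 * m) × V (2 * m) => (p.1, p.2.1, p.2.2 - p.2.1) :=
    continuous_fst.prodMk (h1.prodMk h2)
  exact h3.continuousOn.smul (hF.comp h4.continuousOn fun p hp => hp)

/-- PROOF. `continuousOn_Q`, `continuous_ph`, composition with `(r, z, y) ↦ (r, z, y - z)`. -/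
theorem continuousOn_kq (C : Cliff m) (g : Geo (2 * m)) (h : RForm P Ω) (ρ t : ℝ) (x : X) :
    ContinuousOn (fun p : ℝ × V (2 * m) × V (2 * m) => kq C g h ρ t x p.1 p.2.1 p.2.2)
      {p | 0 < p.1} ∧
    ContinuousOn (fun p : ℝ × V (2 * m) × V (2 * m) => kqd C g h ρ t x p.1 p.2.1 p.2.2)
      {p | 0 < p.1} ∧
    ContinuousOn (fun p : ℝ × V (2 * m) × V (2 * m) => kqe C g h ρ t x p.1 p.2.1 p.2.2)
      {p | 0 < p.1} := by
  obtain ⟨h1, h2, h3⟩ := (dOp (ρ := ρ) C g h).continuousOn_Q g (2 * m) t x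
  have k1 := P16_cont (h.closed x) t h1
  have k2 := P16_cont (h.closed x) t h2
  have k3 := P16_cont (h.closed x) t h3
  unfold kq kqd kqe
  exact ⟨k1, k2, k3⟩

theorem contDiff_kq (C : Cliff m) (g : Geo (2 * m)) (h : RForm P Ω) (ρ t : ℝ) (x : X) (r : ℝ)
    (z : V (2 * m)) : ContDiff ℝ ∞ (kq C g h ρ t x r z) := by
  have h1 : ContDiff ℝ ∞ fun y : V (2 * m) => y - z := contDiff_id.sub contDiff_const
  exact ((contDiff_ph (Ω x) t z).comp h1).smul
    (((dOp (ρ := ρ) C g h).contDiff_Q g (2 * m) t x z r).comp h1)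

theorem kq_supp (C : Cliff m) (g : Geo (2 * m)) (h : RForm P Ω) (ρ t : ℝ) (x : X) (r : ℝ)
    {z y : V (2 * m)} (hy : 1 < ‖y - z‖) :
    kq C g h ρ t x r z y = 0 ∧ kqd C g h ρ t x r z y = 0 ∧ kqe C g h ρ t x r z y = 0 := by
  obtain ⟨h1, h2⟩ := (dOp (ρ := ρ) C g h).Q_zero g (2 * m) t x z r hy.le
  have h3 := (dOp (ρ := ρ) C g h).Qe_zero g (2 * m) t x z r hy
  have h0 : ∀ c : ℂ, c • (0 : En m) = 0 := fun c => by
    ext w i
    simp
  refine ⟨?_, ?_, ?_⟩
  · rw [kq, h1]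
    exact h0 _
  · rw [kqd, h2]
    exact h0 _
  · rw [kqe, h3]
    exact h0 _

theorem hasDerivAt_kq (C : Cliff m) (g : Geo (2 * m)) (h : RForm P Ω) (ρ t : ℝ) (x : X)
    (z y : V (2 * m)) {r : ℝ} (hr : 0 < r) :
    HasDerivAt (fun r => kq C g h ρ t x r z y) (kqd C g h ρ t x r z y) r := by
  have k := ((dOp (ρ := ρ) C g h).hasDerivAt_Q g (2 * m) t x z (y - z) hr).fun_const_smul
    (ph (Ω x) t z (y - z))
  unfold kq kqd
  exact k

/-- PROOF. `dirac_ph` twice (the inner function `fun y => Q (y - z) u` and `dirac (zPot) (..)` are smooth: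
`contDiff_dirac` from Base4), `dirac_L` with `v = y - z`, `Op.Qe_eq` with `dOp_ok`. -/
theorem kq_heat (C : Cliff m) (g : Geo (2 * m)) (h : RForm P Ω) (ρ t : ℝ) (x : X)
    (z y : V (2 * m)) (u : Sp m) {r : ℝ} (hr : 0 < r) :
    kqe C g h ρ t x r z y u = kqd C g h ρ t x r z y u
      + C.dirac g (tPot (Ω x) t) (C.dirac g (tPot (Ω x) t) fun y => kq C g h ρ t x r z y u) y := by
  have hQ : ContDiff ℝ ∞ ((dOp (ρ := ρ) C g h).Q g (2 * m) t x z r) :=
    Op.contDiff_Q g (dOp (ρ := ρ) C g h) (2 * m) t x z r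
  have hψ : ContDiff ℝ ∞ fun y : V (2 * m) =>
      (dOp (ρ := ρ) C g h).Q g (2 * m) t x z r (y - z) u := by
    have h1 : ContDiff ℝ ∞ fun y : V (2 * m) =>
        (dOp (ρ := ρ) C g h).Q g (2 * m) t x z r (y - z) :=
      hQ.comp (contDiff_id.sub contDiff_const)
    have h2 : ContDiff ℝ ∞ fun A : En m => A u := by
      have h3 : ContDiff ℝ ∞ (((ContinuousLinearMap.apply ℂ (Sp m) u).restrictScalars ℝ)) :=
        ContinuousLinearMap.contDiff _
      exact h3
    exact h2.comp h1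
  have h1 : (fun y => kq C g h ρ t x r z y u) = fun y => ph (Ω x) t z (y - z) •
      (dOp (ρ := ρ) C g h).Q g (2 * m) t x z r (y - z) u := by
    funext y
    rfl
  have h2 : C.dirac g (tPot (Ω x) t) (fun y => kq C g h ρ t x r z y u) = fun y =>
      ph (Ω x) t z (y - z) • C.dirac g (zPot (Ω x) t z) (fun y =>
        (dOp (ρ := ρ) C g h).Q g (2 * m) t x z r (y - z) u) y := by
    rw [h1]
    funext y
    exact dirac_ph C g (Ω x) t z (hψ.differentiable (by simp)) y
  have hψ' : ContDiff ℝ ∞ (C.dirac g (zPot (Ω x) t z) (fun y =>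
        (dOp (ρ := ρ) C g h).Q g (2 * m) t x z r (y - z) u)) :=
    contDiff_dirac C g (isPot_zPot (h.closed x) t z) hψ
  rw [h2, dirac_ph C g (Ω x) t z (hψ'.differentiable (by simp)) y]
  have h3 := dirac_L (ρ := ρ) C g h t x z (y - z) hQ u
  rw [add_sub_cancel] at h3
  rw [h3]
  have h4 := Op.Qe_eq g (dOp_ok (ρ := ρ) C g h) (2 * m) t x z (y - z) hr
  show (ph (Ω x) t z (y - z) • (dOp (ρ := ρ) C g h).Qe g (2 * m) t x z r (y - z)) u =
    (ph (Ω x) t z (y - z) • (dOp (ρ := ρ) C g h).Qd g (2 * m) t x z r (y - z)) u + _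
  rw [h4, smul_apply, smul_apply, add_apply, smul_add]

/-- PROOF. `norm_ph`, `Op.Q_bd`, `Op.Qe_bd` with `J = 2 * m`. -/
theorem kq_bd (C : Cliff m) (g : Geo (2 * m)) (h : RForm P Ω) (ρ : ℝ) :
    ∃ Φ : X → ℝ, Mom P Φ ∧ ∀ x z y r t, ‖z‖ ≤ ρ → 0 < r → r ≤ 1 → |t| ≤ 1 →
      ‖kq C g h ρ t x r z y‖ ≤ Φ x * gz m (rate P g ρ) (y - z) r ∧
      ‖kqd C g h ρ t x r z y‖ ≤ Φ x * (r⁻¹ * gz m (rate P g ρ) (y - z) r) ∧
      ‖kqe C g h ρ t x r z y‖ ≤ Φ x * (r⁻¹ * (√r) ^ (2 * m + 1) * gz m (rate P g ρ) (y - z) r) := by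
  obtain ⟨Φ, hΦ, h1⟩ := (dOp (ρ := ρ) C g h).Q_bd g (2 * m)
  obtain ⟨Φ', hΦ', h2⟩ := (dOp (ρ := ρ) C g h).Qe_bd g (2 * m)
  refine ⟨fun x => Φ x + Φ' x, hΦ.add hΦ', fun x z y r t hz hr hr1 ht => ?_⟩
  have hg : 0 ≤ gz m (rate P g ρ) (y - z) r := by
    unfold gz
    positivity
  have hs : 0 ≤ √r := Real.sqrt_nonneg r
  have n1 : 0 ≤ Φ x := hΦ.nonneg x
  have n2 : 0 ≤ Φ' x := hΦ'.nonneg x
  obtain ⟨h3, h4⟩ := h1 x z (y - z) r hz hr hr1 t ht
  have h5 := h2 x z (y - z) r hz hr hr1 t ht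
  refine ⟨?_, ?_, ?_⟩
  · rw [kq, norm_smul, norm_ph, one_mul]
    exact h3.trans (mul_le_mul_of_nonneg_right (by linarith) hg)
  · rw [kqd, norm_smul, norm_ph, one_mul]
    exact h4.trans (mul_le_mul_of_nonneg_right (by linarith) (by positivity))
  · rw [kqe, norm_smul, norm_ph, one_mul]
    exact h5.trans (mul_le_mul_of_nonneg_right (by linarith) (by positivity))

/-! ### the approximate identity -/

theorem gs_delta_scale (g : Geo (2 * m)) (z η : V (2 * m)) {r : ℝ} (hr : 0 < r) :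
    gs g z ((√r) • η) r = (r ^ m)⁻¹ * gs g z η 1 := by
  unfold gs
  rw [qf_smul, Real.sq_sqrt hr.le]
  have h1 : r * qf g z η / (4 * r) = qf g z η / (4 * 1) := by
    field_simp
  rw [h1, mul_one, mul_pow]
  rw [mul_inv]
  ring

theorem gs_delta_integrable (g : Geo (2 * m)) (z : V (2 * m)) :
    Integrable fun η : V (2 * m) => gs g z η 1 := by
  obtain ⟨c, hc, h⟩ := gs_poly_le g ‖z‖
  obtain ⟨C, hC, h1⟩ := h 0
  have h2 : Integrable fun η : V (2 * m) => C * gz m c η 1 :=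
    (integrable_gz hc one_pos).const_mul C
  refine h2.mono' ?_ (Filter.Eventually.of_forall fun η => ?_)
  · exact ((contDiff_gs g z 1).continuous).aestronglyMeasurable
  · rw [Real.norm_of_nonneg (gs_pos g z η one_pos).le]
    have h3 := h1 z η 1 le_rfl one_pos
    rw [pow_zero, mul_one] at h3
    refine h3.trans (le_of_eq ?_)
    unfold gz
    ring

theorem gs_delta_integral (g : Geo (2 * m)) (z : V (2 * m)) :
    ∫ η : V (2 * m), gs g z η 1 = ((g.θ z).det)⁻¹ := by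
  have h1 : ∀ η : V (2 * m), gs g z η 1 = ((4 * π) ^ m)⁻¹ * Real.exp (-(qf g z η / 4)) := by
    intro η
    unfold gs
    rw [mul_one, mul_one]
  simp only [h1]
  rw [integral_const_mul, integral_scale (fun η : V (2 * m) => Real.exp (-(qf g z η / 4)))
    (r := 2) two_pos]
  have h2 : ∀ η : V (2 * m), Real.exp (-(qf g z ((√2) • η) / 4)) =
      Real.exp (-(qf g z η / 2)) := by
    intro η
    rw [qf_smul, Real.sq_sqrt (by norm_num)]
    congr 1
    ring
  simp only [h2]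
  rw [integral_qf, smul_eq_mul]
  have h3 : (4 * π) ^ m = 2 ^ m * (2 * π) ^ m := by
    rw [← mul_pow]
    congr 1
    ring
  rw [h3]
  have h4 : (0:ℝ) < (2 * π) ^ m := by positivity
  have h5 := g.det_pos z
  field_simp

theorem gs_delta_aux {E : Type*} [NormedAddCommGroup E] [NormedSpace ℂ E] (a b d : ℝ) (hb : b ≠ 0)
    (u : E) : b • d • (((b⁻¹ * a : ℝ) : ℂ) • u) = a • d • u := by
  rw [← Complex.coe_smul d, ← Complex.coe_smul d, ← Complex.coe_smul b, ← Complex.coe_smul a,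
    smul_smul, smul_smul, smul_smul]
  congr 1
  have h4 : (b : ℂ) ≠ 0 := by exact_mod_cast hb
  push_cast
  field_simp

theorem gs_delta_subst (g : Geo (2 * m)) (z : V (2 * m)) (φ : V (2 * m) → Sp m) {r : ℝ}
    (hr : 0 < r) : ∫ y, (gs g z (y - z) r : ℂ) • φ y ∂g.vol =
      ∫ η : V (2 * m), (gs g z η 1) • (g.θ (z + (√r) • η)).det • φ (z + (√r) • η) := by
  have h1 := g.integral_vol (fun y => (gs g z (y - z) r : ℂ) • φ y)
  have h2 := integral_add_left_eq_self (μ := (volume : Measure (V (2 * m))))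
    (fun y => (g.θ y).det • (gs g z (y - z) r : ℂ) • φ y) z
  have h3 := integral_scale (fun v : V (2 * m) =>
    (g.θ (z + v)).det • (gs g z (z + v - z) r : ℂ) • φ (z + v)) hr
  rw [h1, ← h2, h3, ← integral_smul]
  refine integral_congr_ae (Filter.Eventually.of_forall fun η => ?_)
  have h4 : gs g z (z + √r • η - z) r = (r ^ m)⁻¹ * gs g z η 1 := by
    rw [add_sub_cancel_left]
    exact gs_delta_scale g z η hr
  show r ^ m • (g.θ (z + √r • η)).det • ((gs g z (z + √r • η - z) r : ℝ) : ℂ) • φ (z + √r • η) = _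
  rw [h4]
  exact gs_delta_aux (gs g z η 1) (r ^ m) (g.θ (z + √r • η)).det (pow_pos hr m).ne' _

theorem gs_delta_lim (g : Geo (2 * m)) (z : V (2 * m)) {ψ : V (2 * m) → Sp m}
    (hψ : Continuous ψ) {K : ℝ} (hK : ∀ y, ‖ψ y‖ ≤ K) :
    Tendsto (fun r : ℝ => ∫ η, (gs g z η 1) • ψ (z + (√r) • η)) (𝓝[>] 0)
      (𝓝 (∫ η, (gs g z η 1) • ψ z)) := by
  refine tendsto_integral_filter_of_dominated_convergence (fun η => gs g z η 1 * K) ?_ ?_ ?_ ?_
  · refine Filter.Eventually.of_forall fun r => ?_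
    have c1 : Continuous fun η : V (2 * m) => gs g z η 1 := (contDiff_gs g z 1).continuous
    have c2 : Continuous fun η : V (2 * m) => z + (√r) • η :=
      continuous_const.add (continuous_id.const_smul (√r))
    have c3 : Continuous fun η : V (2 * m) => ψ (z + (√r) • η) := hψ.comp c2
    exact (c1.smul c3).aestronglyMeasurable
  · refine Filter.Eventually.of_forall fun r => Filter.Eventually.of_forall fun η => ?_
    rw [norm_smul, Real.norm_of_nonneg (gs_pos g z η one_pos).le]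
    exact mul_le_mul_of_nonneg_left (hK _) (gs_pos g z η one_pos).le
  · exact (gs_delta_integrable g z).mul_const K
  · refine Filter.Eventually.of_forall fun η => ?_
    have h5 : Tendsto (fun r : ℝ => z + (√r) • η) (𝓝[>] 0) (𝓝 z) := by
      have h6 : Continuous fun r : ℝ => z + (√r) • η :=
        continuous_const.add (Real.continuous_sqrt.smul continuous_const)
      have h7 := h6.tendsto 0
      simp only [Real.sqrt_zero, zero_smul, add_zero] at h7
      exact h7.mono_left nhdsWithin_le_nhds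
    exact ((hψ.tendsto z).comp h5).const_smul _

/-- PROOF. Substitution `y = z + √r η` (`integral_scale` and translation invariance):
`∫ gs g z (y - z) r (det θ(y)) • φ y dy = ∫ gs g z η 1 det θ(z + √r η) • φ (z + √r η) dη`; dominated convergence
(`φ` bounded with compact support, `gs g z η 1 ≤ C exp(-c ‖η‖²)`, and `det θ` is bounded on the support of
`φ`) gives the limit `(∫ gs g z η 1 dη) det θ(z) • φ z = φ z`: `∫ gs g z η 1 = (4π)^(-m) ∫ exp(-qf/4)
= 1 / det θ(z)` (as `integral_qf`: substitute `η = √2 η'`). -/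
theorem gs_delta (g : Geo (2 * m)) (z : V (2 * m)) {φ : V (2 * m) → Sp m} (hφ : Continuous φ)
    (hc : HasCompactSupport φ) :
    Tendsto (fun r => ∫ y, (gs g z (y - z) r : ℂ) • φ y ∂g.vol) (𝓝[>] 0) (𝓝 (φ z)) := by
  have hψ : Continuous (fun y => (g.θ y).det • φ y) := g.continuous_det.smul hφ
  have hψc : HasCompactSupport (fun y => (g.θ y).det • φ y) := by
    refine hc.mono fun y hy => ?_
    intro h0
    exact hy (by simp only [h0, smul_zero])
  obtain ⟨K, hK⟩ := hψ.bounded_above_of_compact_support hψc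
  have h2 := gs_delta_lim g z hψ hK
  have h3 : ∫ η, (gs g z η 1) • ((g.θ z).det • φ z) = φ z := by
    rw [integral_smul_const, gs_delta_integral, smul_smul, inv_mul_cancel₀ (g.det_pos z).ne',
      one_smul]
  rw [h3] at h2
  refine h2.congr' ?_
  filter_upwards [self_mem_nhdsWithin] with r hr
  exact (gs_delta_subst g z φ hr).symm

/-- PROOF. Let `ψ y = conj(ph (y - z)) • φ y`: continuous with compact support, `ψ z = φ z`. `adj (kq r z y) (φ y) =
gs g z (y - z) r • ψ y + adj(Q - gs • 1) ψ y`. First part: `gs_delta`. The second part is bounded by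
`Φ x √r ∫ gz m c (y - z) r ‖ψ y‖ dvol(y) ≤ C √r` (`Op.Q_sub_bd`, `ψ` bounded with compact support, `det θ` bounded on it,
`integral_gz`), which tends to `0`. -/
theorem kq_delta (C : Cliff m) (g : Geo (2 * m)) (h : RForm P Ω) (ρ : ℝ) {t : ℝ} (ht : |t| ≤ 1)
    (x : X) {z : V (2 * m)} (hz : ‖z‖ ≤ ρ) {φ : V (2 * m) → Sp m} (hφ : Continuous φ)
    (hc : HasCompactSupport φ) :
    Tendsto (fun r => ∫ y, adj (kq C g h ρ t x r z y) (φ y) ∂g.vol) (𝓝[>] 0) (𝓝 (φ z)) := by
  obtain ⟨Φ, hΦ, hb⟩ := Op.Q_sub_bd g (dOp (ρ := ρ) C g h) (2 * m)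
  have hrate := rate_pos P g ρ
  have hadj : Continuous (adj : En m → En m) :=
    (ContinuousLinearMap.adjoint (𝕜 := ℂ) (E := Sp m) (F := Sp m)).continuous
  have hsub : Continuous fun y : V (2 * m) => y - z := continuous_id.sub continuous_const
  obtain ⟨ψ, hψd⟩ : ∃ ψ : V (2 * m) → Sp m,
      ψ = fun y => (starRingEnd ℂ) (ph (Ω x) t z (y - z)) • φ y := ⟨_, rfl⟩
  have hψ : Continuous ψ := by
    rw [hψd]
    exact (Complex.continuous_conj.comp ((contDiff_ph (Ω x) t z).continuous.comp hsub)).smul hφ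
  have hψc : HasCompactSupport ψ := by
    rw [hψd]
    refine hc.mono fun y hy => ?_
    rw [Function.mem_support] at hy ⊢
    intro h0
    apply hy
    rw [h0, smul_zero]
  have hψz : ψ z = φ z := by
    rw [hψd]
    simp [ph]
  have h1 := gs_delta g z hψ hψc
  rw [hψz] at h1
  obtain ⟨E, hE⟩ : ∃ E : ℝ → V (2 * m) → En m, E = fun r y =>
      (dOp (ρ := ρ) C g h).Q g (2 * m) t x z r (y - z) - (gs g z (y - z) r : ℂ) • (1 : En m) :=
    ⟨_, rfl⟩
  have hEc : ∀ r, Continuous (E r) := by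
    intro r
    rw [hE]
    refine Continuous.sub ((Op.contDiff_Q g _ (2 * m) t x z r).continuous.comp hsub) ?_
    exact (Complex.continuous_ofReal.comp ((contDiff_gs g z r).continuous.comp hsub)).smul
      continuous_const
  have e1 : ∀ r y, adj (kq C g h ρ t x r z y) (φ y)
      = (gs g z (y - z) r : ℂ) • ψ y + adj (E r y) (ψ y) := by
    intro r y
    have e2 : adj (E r y) = adj ((dOp (ρ := ρ) C g h).Q g (2 * m) t x z r (y - z))
        - (gs g z (y - z) r : ℂ) • (1 : En m) := by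
      rw [hE]
      refine (adj_sub _ _).trans ?_
      rw [adj_smul, Complex.conj_ofReal, adj_one]
    have e3 : adj (kq C g h ρ t x r z y) = (starRingEnd ℂ) (ph (Ω x) t z (y - z)) •
        adj ((dOp (ρ := ρ) C g h).Q g (2 * m) t x z r (y - z)) := adj_smul _ _
    rw [e2, e3]
    show (starRingEnd ℂ) (ph (Ω x) t z (y - z)) •
        adj ((dOp (ρ := ρ) C g h).Q g (2 * m) t x z r (y - z)) (φ y) = (gs g z (y - z) r : ℂ) • ψ y
      + (adj ((dOp (ρ := ρ) C g h).Q g (2 * m) t x z r (y - z)) (ψ y)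
        - (gs g z (y - z) r : ℂ) • ψ y)
    rw [add_sub_cancel, hψd]
    exact (map_smul _ _ _).symm
  have hEs : ∀ r, HasCompactSupport fun y => adj (E r y) (ψ y) := by
    intro r
    refine hψc.mono fun y hy => ?_
    rw [Function.mem_support] at hy ⊢
    intro h0
    apply hy
    show adj (E r y) (ψ y) = 0
    rw [h0, map_zero]
  have hE2 : ∀ r, Continuous fun y => adj (E r y) (ψ y) := fun r =>
    (hadj.comp (hEc r)).clm_apply hψ
  obtain ⟨D, hD⟩ : ∃ D : V (2 * m) → Sp m, D = fun y => (((g.θ y).det : ℝ) : ℂ) • ψ y := ⟨_, rfl⟩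
  have hDc : Continuous D := by
    rw [hD]
    exact (Complex.continuous_ofReal.comp g.continuous_det).smul hψ
  have hDs : HasCompactSupport D := by
    rw [hD]
    refine hψc.mono fun y hy => ?_
    rw [Function.mem_support] at hy ⊢
    intro h0
    apply hy
    show (((g.θ y).det : ℝ) : ℂ) • ψ y = 0
    rw [h0, smul_zero]
  obtain ⟨C', hC'⟩ : ∃ C' : ℝ, ∀ y, ‖D y‖ ≤ C' := hDs.exists_bound_of_continuous hDc
  have hC0 : 0 ≤ C' := (norm_nonneg _).trans (hC' 0)
  have h2 : Tendsto (fun r => ∫ y, adj (E r y) (ψ y) ∂g.vol) (𝓝[>] 0) (𝓝 0) := by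
    have h3 : Tendsto (fun r : ℝ => Φ x * √r * C' * (π / rate P g ρ) ^ m) (𝓝[>] 0) (𝓝 0) := by
      have h4 : Continuous fun r : ℝ => Φ x * √r * C' * (π / rate P g ρ) ^ m :=
        ((continuous_const.mul Real.continuous_sqrt).mul continuous_const).mul continuous_const
      have h5 := h4.tendsto 0
      rw [Real.sqrt_zero, mul_zero, zero_mul, zero_mul] at h5
      exact h5.mono_left nhdsWithin_le_nhds
    refine squeeze_zero_norm' ?_ h3
    filter_upwards [Ioo_mem_nhdsGT one_pos] with r hr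
    have hi : Integrable (fun y : V (2 * m) => gz m (rate P g ρ) (y - z) r) :=
      (integrable_gz hrate hr.1).comp_sub_right z
    have hi2 : ∫ y : V (2 * m), gz m (rate P g ρ) (y - z) r = (π / rate P g ρ) ^ m := by
      rw [integral_sub_right_eq_self (fun y : V (2 * m) => gz m (rate P g ρ) y r) z]
      exact integral_gz hrate hr.1
    rw [g.integral_vol]
    have key : ∀ y, ‖(g.θ y).det • adj (E r y) (ψ y)‖
        ≤ (Φ x * √r * C') * gz m (rate P g ρ) (y - z) r := by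
      intro y
      have k1 : ‖E r y‖ ≤ Φ x * (√r * gz m (rate P g ρ) (y - z) r) := by
        rw [hE]
        exact hb x z (y - z) r hz hr.1 hr.2.le t ht
      have k2 : ‖adj (E r y)‖ = ‖E r y‖ :=
        (ContinuousLinearMap.adjoint (𝕜 := ℂ) (E := Sp m) (F := Sp m)).norm_map (E r y)
      have k3 : (g.θ y).det • adj (E r y) (ψ y) = adj (E r y) (D y) := by
        rw [hD]
        exact (Complex.coe_smul _ _).symm.trans (map_smul (adj (E r y)) _ _).symm
      have k4 : 0 ≤ Φ x * (√r * gz m (rate P g ρ) (y - z) r) := (norm_nonneg _).trans k1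
      rw [k3]
      calc ‖adj (E r y) (D y)‖ ≤ ‖adj (E r y)‖ * ‖D y‖ :=
            ContinuousLinearMap.le_opNorm _ _
        _ ≤ (Φ x * (√r * gz m (rate P g ρ) (y - z) r)) * C' := by
            rw [k2]
            exact mul_le_mul k1 (hC' y) (norm_nonneg _) k4
        _ = _ := by ring
    have h5 := norm_integral_le_of_norm_le (hi.const_mul _) (Filter.Eventually.of_forall key)
    rw [integral_const_mul, hi2] at h5
    exact h5
  have h6 := h1.add h2
  rw [add_zero] at h6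
  refine h6.congr fun r => ?_
  have i0 : HasCompactSupport fun y => (gs g z (y - z) r : ℂ) • ψ y := by
    refine hψc.mono fun y hy => ?_
    rw [Function.mem_support] at hy ⊢
    intro h0
    apply hy
    rw [h0, smul_zero]
  have i1 : Integrable (fun y => (gs g z (y - z) r : ℂ) • ψ y) g.vol :=
    ((Complex.continuous_ofReal.comp ((contDiff_gs g z r).continuous.comp hsub)).smul
      hψ).integrable_of_hasCompactSupport i0
  have i2 : Integrable (fun y => adj (E r y) (ψ y)) g.vol :=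
    (hE2 r).integrable_of_hasCompactSupport (hEs r)
  rw [← integral_add i1 i2]
  exact integral_congr_ae (Filter.Eventually.of_forall fun y => (e1 r y).symm)

/-! ### the trace -/

/-- PROOF. `|ph| = 1`: `adj (ph • Q) * (ph • Q) = adj Q * Q`; `integral_vol`, translation `y = z + v`. -/
theorem trace_kq (C : Cliff m) (g : Geo (2 * m)) (h : RForm P Ω) (ρ t : ℝ) (x : X) (r : ℝ)
    (z : V (2 * m)) :
    ∫ y, tr (C.eps * (adj (kq C g h ρ t x r z y) * kq C g h ρ t x r z y)) ∂g.vol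
      = ∫ v, ((g.θ (z + v)).det : ℂ) *
          tr (C.eps * (adj ((dOp (ρ := ρ) C g h).Q g (2 * m) t x z r v)
            * (dOp (ρ := ρ) C g h).Q g (2 * m) t x z r v)) := by
  rw [g.integral_vol, ← integral_add_left_eq_self (μ := volume) _ z]
  refine integral_congr_ae (Filter.Eventually.of_forall fun v => ?_)
  have h1 : adj (kq C g h ρ t x r z (z + v)) * kq C g h ρ t x r z (z + v) =
      adj ((dOp (ρ := ρ) C g h).Q g (2 * m) t x z r v)
            * (dOp (ρ := ρ) C g h).Q g (2 * m) t x z r v := by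
    unfold kq
    rw [add_sub_cancel_left, adj_smul, smul_mul_smul_comm]
    have h2 : (starRingEnd ℂ) (ph (Ω x) t z v) * ph (Ω x) t z v = 1 := by
      rw [Complex.conj_mul', norm_ph]
      simp
    rw [h2, one_smul]
  simp only
  rw [h1, Complex.real_smul]

/-- The coefficients at the base point. -/
def aK (C : Cliff m) (g : Geo (2 * m)) (h : RForm P Ω) (ρ : ℝ) (n b : ℕ) (x : X)
    (z : V (2 * m)) : ℂ := (dOp (ρ := ρ) C g h).aT g C.eps n b x z

/-- The integrated coefficients. -/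
def AK (C : Cliff m) (g : Geo (2 * m)) (h : RForm P Ω) (ρ : ℝ) (F : Set (V (2 * m))) (x : X)
    (n b : ℕ) : ℂ := ∫ z in F, aK C g h ρ n b x z ∂g.vol

/-- PROOF. `Op.aT_zero`, `dOp_ok`. -/
theorem AK_zero (C : Cliff m) (g : Geo (2 * m)) (h : RForm P Ω) (ρ : ℝ) (F : Set (V (2 * m)))
    (x : X) {n b : ℕ} (hb : n < 2 * b) : AK C g h ρ F x n b = 0 := by
  unfold AK aK
  simp only [Op.aT_zero g (dOp_ok C g h) C.eps hb x]
  simp

/-- PROOF. `Op.aT_bd`, `g.vol F < ∞`. -/
theorem AK_bd (C : Cliff m) (g : Geo (2 * m)) (h : RForm P Ω) (ρ : ℝ) {F : Set (V (2 * m))}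
    (hF : MeasurableSet F) (hFρ : ∀ z ∈ F, ‖z‖ ≤ ρ) (n b : ℕ) :
    ∃ Φ : X → ℝ, Mom P Φ ∧ ∀ x, ‖AK C g h ρ F x n b‖ ≤ Φ x := by
  obtain ⟨Φ, hΦ, h1⟩ := (dOp (ρ := ρ) C g h).aT_bd g C.eps n b
  have hfin : g.vol F < ⊤ :=
    (measure_mono fun z hz => by simpa using hFρ z hz).trans_lt
      (isCompact_closedBall (0 : V (2 * m)) ρ).measure_lt_top
  refine ⟨_, hΦ.mul (Mom.const (measureReal_nonneg (μ := g.vol) (s := F))), fun x => ?_⟩
  exact norm_setIntegral_le_of_norm_le_const hfin fun z hz => h1 x z (hFρ z hz)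

/-- The pairs `(r, k)` as indices `2 r + k`. -/
def P16G_E (m : ℕ) : Fin m × Fin 2 ≃ Fin (2 * m) :=
  finProdFinEquiv.trans (finCongr (mul_comm m 2))

theorem P16G_E0 (r : Fin m) : P16G_E m (r, 0) = ⟨2 * r, by omega⟩ := by
  apply Fin.ext
  simp [P16G_E, finProdFinEquiv]

theorem P16G_E1 (r : Fin m) : P16G_E m (r, 1) = ⟨2 * r + 1, by omega⟩ := by
  apply Fin.ext
  simp [P16G_E, finProdFinEquiv, add_comm]

/-- `pf (eᵀ Ω e) = det e · pf Ω`.
PROOF. Expand every entry `(eᵀ Ω e)_{ab} = ∑_{μν} e_{μa} Ω_{μν} e_{νb}`: `pf` becomes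
`∑_{f : Fin (2m) → Fin (2m)} (∑_σ sign σ ∏_i e (f i) (σ i)) ∏_r Ω (f (2r)) (f (2r+1))`, the inner sum is
`det (fun i j => e (f i) j)`, which is `0` if `f` is not injective and `sign f · det e` if `f` is a permutation
(`Matrix.det_permute`, `Matrix.det_zero_of_row_eq`). -/
theorem pf_conj (Ω e : Mt (2 * m)) :
    pf (fun _ : Fin m => eᵀ * Ω * e) = e.det * pf (fun _ : Fin m => Ω) := by
  classical
  have hpf : ∀ M : Mt (2 * m), pf (fun _ : Fin m => M) = ∑ σ : Equiv.Perm (Fin (2 * m)),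
      ((Equiv.Perm.sign σ : ℤ) : ℝ) * ∏ r : Fin m, M (σ (P16G_E m (r, 0))) (σ (P16G_E m (r, 1))) := by
    intro M
    unfold pf
    refine Finset.sum_congr rfl fun σ _ => ?_
    congr 1
    refine Finset.prod_congr rfl fun r _ => ?_
    rw [P16G_E0, P16G_E1]
  have hprod : ∀ u : Fin (2 * m) → ℝ, ∏ i, u i
      = ∏ r : Fin m, (u (P16G_E m (r, 0)) * u (P16G_E m (r, 1))) := by
    intro u
    rw [← (P16G_E m).prod_comp u, Fintype.prod_prod_type]
    exact Finset.prod_congr rfl fun r _ => Fin.prod_univ_two _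
  obtain ⟨G, hG⟩ : ∃ G : (Fin (2 * m) → Fin (2 * m)) → ℝ, G = fun f =>
      (∏ r : Fin m, Ω (f (P16G_E m (r, 0))) (f (P16G_E m (r, 1)))) *
        ∑ σ : Equiv.Perm (Fin (2 * m)), ((Equiv.Perm.sign σ : ℤ) : ℝ) * ∏ i, e (f i) (σ i) :=
    ⟨_, rfl⟩
  have hdet : ∀ f : Fin (2 * m) → Fin (2 * m), G f
      = (∏ r : Fin m, Ω (f (P16G_E m (r, 0))) (f (P16G_E m (r, 1)))) * (e.submatrix f id).det := by
    intro f
    rw [hG, ← Matrix.det_transpose, Matrix.det_apply']
    rfl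
  have h1 : pf (fun _ : Fin m => eᵀ * Ω * e) = ∑ f, G f := by
    rw [hpf, hG]
    have h2 : ∀ σ : Equiv.Perm (Fin (2 * m)),
        ∏ r : Fin m, (eᵀ * Ω * e) (σ (P16G_E m (r, 0))) (σ (P16G_E m (r, 1)))
        = ∑ f : Fin (2 * m) → Fin (2 * m),
          (∏ r : Fin m, Ω (f (P16G_E m (r, 0))) (f (P16G_E m (r, 1)))) * ∏ i, e (f i) (σ i) := by
      intro σ
      have h3 : ∀ r : Fin m, (eᵀ * Ω * e) (σ (P16G_E m (r, 0))) (σ (P16G_E m (r, 1)))
          = ∑ k : Fin 2 → Fin (2 * m), Ω (k 0) (k 1) *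
            (e (k 0) (σ (P16G_E m (r, 0))) * e (k 1) (σ (P16G_E m (r, 1)))) := by
        intro r
        rw [← (finTwoArrowEquiv (Fin (2 * m))).symm.sum_comp, Fintype.sum_prod_type,
          Finset.sum_comm, Matrix.mul_apply]
        refine Finset.sum_congr rfl fun j _ => ?_
        rw [Matrix.mul_apply, Finset.sum_mul]
        refine Finset.sum_congr rfl fun i _ => ?_
        simp only [Matrix.transpose_apply, finTwoArrowEquiv_symm_apply, Matrix.cons_val_zero,
          Matrix.cons_val_one]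
        ring
      simp_rw [h3]
      rw [Finset.prod_univ_sum, Fintype.piFinset_univ,
        ← ((Equiv.curry (Fin m) (Fin 2) (Fin (2 * m))).symm.trans
          ((P16G_E m).arrowCongr (Equiv.refl (Fin (2 * m))))).symm.sum_comp]
      refine Finset.sum_congr rfl fun f _ => ?_
      rw [hprod, ← Finset.prod_mul_distrib]
      rfl
    simp_rw [h2, Finset.mul_sum]
    rw [Finset.sum_comm]
    refine Finset.sum_congr rfl fun f _ => Finset.sum_congr rfl fun σ _ => ?_
    ring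
  have h4 : ∑ τ : Equiv.Perm (Fin (2 * m)), G τ = ∑ f, G f := by
    refine Finset.sum_of_injOn (fun τ : Equiv.Perm (Fin (2 * m)) => (τ : Fin (2 * m) → Fin (2 * m)))
      (fun a _ b _ hab => DFunLike.coe_injective hab) (fun _ _ => Finset.mem_coe.2
        (Finset.mem_univ _)) (fun f _ hf => ?_) (fun _ _ => rfl)
    rw [hdet]
    have h5 : ¬ Function.Injective f := by
      intro hinj
      exact hf ⟨Equiv.ofBijective f (Finite.injective_iff_bijective.1 hinj),
        Finset.mem_coe.2 (Finset.mem_univ _), rfl⟩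
    rw [Function.not_injective_iff] at h5
    obtain ⟨a, b, hab, hne⟩ := h5
    rw [Matrix.det_zero_of_row_eq hne (by
      funext j
      show e (f a) j = e (f b) j
      rw [hab]), mul_zero]
  rw [h1, ← h4, hpf, Finset.mul_sum]
  refine Finset.sum_congr rfl fun τ _ => ?_
  rw [hdet, Matrix.det_permute]
  ring

/-- The constant in front of `pf`. -/
def kap (m : ℕ) (C : Cliff m) : ℂ :=
  (((-1) ^ m * ((4 * π) ^ m)⁻¹ / (m.factorial : ℝ) : ℝ) : ℂ) * ((Complex.I / 2) ^ m *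
    tr (C.eps * C.top))

/-- PROOF. `tr_eps_top_ne_zero` (KA6); the other factors are not zero. -/
theorem kap_ne_zero (C : Cliff m) : kap m C ≠ 0 := by
  unfold kap
  refine mul_ne_zero (Complex.ofReal_ne_zero.2 ?_) (mul_ne_zero (pow_ne_zero _ ?_)
    C.tr_eps_top_ne_zero)
  · refine div_ne_zero (mul_ne_zero (pow_ne_zero _ (by norm_num)) (inv_ne_zero (pow_ne_zero _ ?_)))
      (Nat.cast_ne_zero.2 m.factorial_ne_zero)
    positivity
  · exact div_ne_zero Complex.I_ne_zero two_ne_zero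

/-- PROOF. `Op.aT_top` with `F = cuR` (`dOp_B1`, `dOp_c1`, `dOp_B2`, `dOp_c2`, `cuR_val`); `(i/2) two (fr Ω)` is
self-adjoint (`C.skew`, antisymmetry of `fr Ω`, `IsClosed2.anti`); `tr (eps * two^j) = 0` for `j < m`:
`tr_eps_pow_two_of_lt`; `tr (eps two^m) = pf (fr Ω) tr (eps top)`: `tr_eps_pow_two`; `pf_conj` with `e = e(z)`. -/
theorem aK_top (C : Cliff m) (g : Geo (2 * m)) (h : RForm P Ω) (ρ : ℝ) (x : X)
    (z : V (2 * m)) :
    aK C g h ρ (2 * m) m x z = kap m C * (((g.e z).det * pf fun _ : Fin m => Ω x z : ℝ) : ℂ) := by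
  obtain ⟨M, hM⟩ : ∃ M : Mt (2 * m), M = g.fr (Ω x) z := ⟨_, rfl⟩
  have hval : toEn ((cuR (ρ := ρ) C g h).map fun u => u.1 x z) = (Complex.I / 2) • C.two M := by
    rw [hM]
    exact cuR_val C g h x z
  have h2 : Mᵀ = -M := by
    have h1 : (Ω x z)ᵀ = -(Ω x z) := by
      ext i j
      exact (h.closed x).anti z i j
    rw [hM]
    unfold Geo.fr
    rw [Matrix.transpose_mul, Matrix.transpose_mul, Matrix.transpose_transpose, h1,
      Matrix.neg_mul, Matrix.mul_neg, Matrix.mul_assoc]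
  have hanti : ∀ a b, M b a = -M a b := fun a b => congrFun (congrFun h2 a) b
  have hsa : adj ((Complex.I / 2) • C.two M) = (Complex.I / 2) • C.two M := by
    have h1 : (Complex.I / 2) • C.two M = (-(2 * Complex.I)) • C.spin M := by
      rw [C.spin_eq_two, smul_smul]
      congr 1
      ring
    rw [h1, adj_smul, C.adj_spin hanti, smul_neg, ← neg_smul]
    congr 1
    rw [map_neg, map_mul, Complex.conj_I, Complex.conj_ofNat]
    ring
  have htr : ∀ j < m, tr (C.eps * ((Complex.I / 2) • C.two M) ^ j) = 0 := by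
    intro j hj
    rw [smul_pow, mul_smul_comm, tr_smul, C.tr_eps_pow_two_of_lt M hj, mul_zero]
  have h3 := Op.aT_top g (dOp_ok (ρ := ρ) C g h) C.eps (cuR C g h) (dOp_B1 C g h) (dOp_c1 C g h)
    (dOp_B2 C g h) (dOp_c2 C g h) x z (by rw [hval]; exact hsa) (by rw [hval]; exact htr)
  rw [hval, smul_pow, mul_smul_comm, tr_smul, C.tr_eps_pow_two] at h3
  have h4 : pf (fun _ : Fin m => M) = (g.e z).det * pf fun _ : Fin m => Ω x z := by
    rw [hM]
    exact pf_conj _ _
  rw [h4] at h3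
  unfold aK kap
  rw [h3]
  ring

/-- PROOF. `aK_top`, `integral_vol` (restricted to `F`), `det θ det e = 1` (`θe`), `integral_ofReal`. -/
theorem AK_top (C : Cliff m) (g : Geo (2 * m)) (h : RForm P Ω) (ρ : ℝ) {F : Set (V (2 * m))}
    (hF : MeasurableSet F) (x : X) :
    AK C g h ρ F x (2 * m) m = kap m C * ((∫ z in F, pf fun _ : Fin m => Ω x z : ℝ) : ℂ) := by
  have h1 : ∀ z, aK C g h ρ (2 * m) m x z =
      kap m C * (((g.e z).det * pf fun _ : Fin m => Ω x z : ℝ) : ℂ) := fun z => aK_top C g h ρ x z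
  unfold AK
  simp only [h1]
  rw [integral_const_mul, integral_complex_ofReal]
  congr 2
  rw [← integral_indicator hF, Geo.integral_vol, ← integral_indicator hF]
  refine integral_congr_ae (Eventually.of_forall fun z => ?_)
  by_cases hz : z ∈ F
  · simp only [Set.indicator_of_mem hz, smul_eq_mul]
    rw [← mul_assoc, ← Matrix.det_mul, g.θe, Matrix.det_one, one_mul]
  · simp only [Set.indicator_of_notMem hz, smul_zero]

private theorem P16I_vol (g : Geo (2 * m)) {ρ : ℝ} {F : Set (V (2 * m))}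
    (hFρ : ∀ z ∈ F, ‖z‖ ≤ ρ) : g.vol F < ⊤ :=
  (measure_mono fun z hz => mem_closedBall_zero_iff.2 (hFρ z hz)).trans_lt
    (isCompact_closedBall (0 : V (2 * m)) ρ).measure_lt_top

private theorem P16I_aux {Y : Type*} [TopologicalSpace Y] {f : ℝ → Y → Y → En m} {r : ℝ}
    (hr : 0 < r) (h : ContinuousOn (fun q : ℝ × Y × Y => f q.1 q.2.1 q.2.2) {q | 0 < q.1}) :
    Continuous fun q : Y × Y => f r q.1 q.2 := by
  have h3 : Continuous fun q : Y × Y => ((r, q.1, q.2) : ℝ × Y × Y) :=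
    continuous_const.prodMk (continuous_fst.prodMk continuous_snd)
  exact h.comp_continuous h3 fun q => hr

private theorem P16I_meas (g : Geo (2 * m)) (o : Op P m ρ) (ε : En m) (t : ℝ) (x : X) {r : ℝ}
    (hr : 0 < r) : StronglyMeasurable fun z : V (2 * m) => ∫ v, ((g.θ (z + v)).det : ℂ) *
      tr (ε * (adj (o.Q g (2 * m) t x z r v) * o.Q g (2 * m) t x z r v)) := by
  have h1 : Continuous fun q : V (2 * m) × V (2 * m) => o.Q g (2 * m) t x q.1 r q.2 :=
    P16I_aux (f := fun r z v => o.Q g (2 * m) t x z r v) hr (o.continuousOn_Q g (2 * m) t x).1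
  have h4 : Continuous fun q : V (2 * m) × V (2 * m) => adj (o.Q g (2 * m) t x q.1 r q.2) :=
    (ContinuousLinearMap.adjoint (𝕜 := ℂ)).continuous.comp h1
  have h5 : Continuous fun q : V (2 * m) × V (2 * m) =>
      ε * (adj (o.Q g (2 * m) t x q.1 r q.2) * o.Q g (2 * m) t x q.1 r q.2) :=
    continuous_const.mul (h4.mul h1)
  have h6 : Continuous fun q : V (2 * m) × V (2 * m) => ((g.θ (q.1 + q.2)).det : ℂ) *
      tr (ε * (adj (o.Q g (2 * m) t x q.1 r q.2) * o.Q g (2 * m) t x q.1 r q.2)) :=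
    (Complex.continuous_ofReal.comp
      (g.continuous_det.comp (continuous_fst.add continuous_snd))).mul (continuous_tr.comp h5)
  exact h6.stronglyMeasurable.integral_prod_right

/-- PROOF. `trace_kq`, `tr_expand` (`dOp_ok`) for every `z` in `F`; the inner integral is measurable in `z`
(continuity of the integrand in `(z, v)`, `StronglyMeasurable.integral_prod_right`), `aT` too (`Op.aT_meas`), both are
bounded on `F` and `g.vol F < ∞`, so the integral over `F` of the difference is bounded by `Φ x √r g.vol F`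
(`norm_setIntegral_le_of_norm_le_const`), `integral_sub`, `integral_finset_sum`, `integral_const_mul`. -/
theorem trace_expand (C : Cliff m) (g : Geo (2 * m)) (h : RForm P Ω) (ρ : ℝ)
    {F : Set (V (2 * m))} (hF : MeasurableSet F) (hFρ : ∀ z ∈ F, ‖z‖ ≤ ρ) :
    ∃ Φ : X → ℝ, Mom P Φ ∧ ∀ x r t, 0 < r → r ≤ 1 → |t| ≤ 1 →
      ‖(∫ z in F, ∫ y, tr (C.eps * (adj (kq C g h ρ t x r z y) * kq C g h ρ t x r z y))
          ∂g.vol ∂g.vol)
        - ∑ n ∈ Finset.range (2 * m + 1), (((√r) ^ n * (r ^ m)⁻¹ : ℝ) : ℂ) *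
            ∑ b ∈ Finset.range (m + 1), (t : ℂ) ^ b * AK C g h ρ F x n b‖ ≤ Φ x * √r := by
  obtain ⟨Φ, hΦ, hb⟩ := Op.tr_expand g (dOp_ok (ρ := ρ) C g h) C.eps
  have hfin : g.vol F < ⊤ := P16I_vol g hFρ
  refine ⟨fun x => g.vol.real F * Φ x, hΦ.const_mul ENNReal.toReal_nonneg,
    fun x r t hr hr1 ht => ?_⟩
  have haI : ∀ n b, IntegrableOn (fun z => aK C g h ρ n b x z) F g.vol := by
    intro n b
    obtain ⟨Ψ, -, h2⟩ := Op.aT_bd g (dOp (ρ := ρ) C g h) C.eps n b
    refine IntegrableOn.of_bound hfin (Op.aT_meas g (dOp (ρ := ρ) C g h) C.eps n b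
      x).aestronglyMeasurable (Ψ x) ?_
    rw [ae_restrict_iff' hF]
    exact Eventually.of_forall fun z hz => h2 x z (hFρ z hz)
  have hSI : IntegrableOn (fun z => ∑ n ∈ Finset.range (2 * m + 1),
      (((√r) ^ n * (r ^ m)⁻¹ : ℝ) : ℂ) * ∑ b ∈ Finset.range (m + 1), (t : ℂ) ^ b *
        aK C g h ρ n b x z) F g.vol := by
    refine integrable_finsetSum _ fun n _ => Integrable.const_mul ?_ _
    exact integrable_finsetSum _ fun b _ => (haI n b).const_mul _
  have hdiff : ∀ z ∈ F, ‖(∫ v, ((g.θ (z + v)).det : ℂ) *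
          tr (C.eps * (adj ((dOp (ρ := ρ) C g h).Q g (2 * m) t x z r v)
            * (dOp (ρ := ρ) C g h).Q g (2 * m) t x z r v)))
        - ∑ n ∈ Finset.range (2 * m + 1), (((√r) ^ n * (r ^ m)⁻¹ : ℝ) : ℂ) *
            ∑ b ∈ Finset.range (m + 1), (t : ℂ) ^ b * aK C g h ρ n b x z‖ ≤ Φ x * √r :=
    fun z hz => hb x z r t (hFρ z hz) hr hr1 ht
  have hDI : IntegrableOn (fun z => (∫ v, ((g.θ (z + v)).det : ℂ) *
          tr (C.eps * (adj ((dOp (ρ := ρ) C g h).Q g (2 * m) t x z r v)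
            * (dOp (ρ := ρ) C g h).Q g (2 * m) t x z r v)))
        - ∑ n ∈ Finset.range (2 * m + 1), (((√r) ^ n * (r ^ m)⁻¹ : ℝ) : ℂ) *
            ∑ b ∈ Finset.range (m + 1), (t : ℂ) ^ b * aK C g h ρ n b x z) F g.vol := by
    refine IntegrableOn.of_bound hfin ?_ (Φ x * √r) ?_
    · exact (P16I_meas g (dOp (ρ := ρ) C g h) C.eps t x hr).aestronglyMeasurable.sub
        hSI.aestronglyMeasurable
    · rw [ae_restrict_iff' hF]
      exact Eventually.of_forall hdiff
  have hTI : IntegrableOn (fun z => ∫ v, ((g.θ (z + v)).det : ℂ) *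
          tr (C.eps * (adj ((dOp (ρ := ρ) C g h).Q g (2 * m) t x z r v)
            * (dOp (ρ := ρ) C g h).Q g (2 * m) t x z r v))) F g.vol := by
    refine (hDI.add hSI).congr (Eventually.of_forall fun z => ?_)
    exact sub_add_cancel _ _
  have hS : ∑ n ∈ Finset.range (2 * m + 1), (((√r) ^ n * (r ^ m)⁻¹ : ℝ) : ℂ) *
            ∑ b ∈ Finset.range (m + 1), (t : ℂ) ^ b * AK C g h ρ F x n b =
      ∫ z in F, ∑ n ∈ Finset.range (2 * m + 1), (((√r) ^ n * (r ^ m)⁻¹ : ℝ) : ℂ) *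
        ∑ b ∈ Finset.range (m + 1), (t : ℂ) ^ b * aK C g h ρ n b x z ∂g.vol := by
    rw [integral_finsetSum _ fun n _ => Integrable.const_mul
      (integrable_finsetSum _ fun b _ => (haI n b).const_mul _) _]
    refine Finset.sum_congr rfl fun n _ => ?_
    rw [integral_const_mul, integral_finsetSum _ fun b _ => (haI n b).const_mul _]
    congr 1
    refine Finset.sum_congr rfl fun b _ => ?_
    rw [integral_const_mul]
    rfl
  have hT : (∫ z in F, ∫ y, tr (C.eps * (adj (kq C g h ρ t x r z y) * kq C g h ρ t x r z y))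
          ∂g.vol ∂g.vol) = ∫ z in F, (∫ v, ((g.θ (z + v)).det : ℂ) *
          tr (C.eps * (adj ((dOp (ρ := ρ) C g h).Q g (2 * m) t x z r v)
            * (dOp (ρ := ρ) C g h).Q g (2 * m) t x z r v))) ∂g.vol := by
    refine integral_congr_ae (Eventually.of_forall fun z => ?_)
    exact trace_kq C g h ρ t x r z
  rw [hT, hS, ← integral_sub hTI hSI]
  refine (norm_setIntegral_le_of_norm_le_const hfin hdiff).trans (le_of_eq ?_)
  ring

/-- The parametrix as a structure. -/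
theorem exists_para (C : Cliff m) (g : Geo (2 * m)) (h : RForm P Ω) (ρ : ℝ) :
    ∃ Φ : X → ℝ, Mom P Φ ∧ ∀ x t, |t| ≤ 1 →
      ∃ p : ParaX C g (tPot (Ω x) t) ρ (Φ x) (rate P g ρ), p.q = kq C g h ρ t x := by
  obtain ⟨Φ₀, hΦ₀, hb₀⟩ := kq_bd C g h ρ
  obtain ⟨Φ, hΦ, hpos, hle⟩ : ∃ Φ : X → ℝ, Mom P Φ ∧ (∀ x, 0 < Φ x) ∧ ∀ x, Φ₀ x ≤ Φ x :=
    ⟨fun x => Φ₀ x + 1, hΦ₀.add (Mom.const zero_le_one), fun x => by
      have := hΦ₀.nonneg x
      linarith, fun x => by linarith⟩
  have hg : ∀ (v : V (2 * m)) {r : ℝ}, 0 < r → 0 ≤ gz m (rate P g ρ) v r := by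
    intro v r hr
    unfold gz
    positivity
  have hb : ∀ x z y r t, ‖z‖ ≤ ρ → 0 < r → r ≤ 1 → |t| ≤ 1 →
      ‖kq C g h ρ t x r z y‖ ≤ Φ x * gz m (rate P g ρ) (y - z) r ∧
      ‖kqd C g h ρ t x r z y‖ ≤ Φ x * (r⁻¹ * gz m (rate P g ρ) (y - z) r) ∧
      ‖kqe C g h ρ t x r z y‖ ≤
        Φ x * (r⁻¹ * (√r) ^ (2 * m + 1) * gz m (rate P g ρ) (y - z) r) := by
    intro x z y r t hz hr hr1 ht
    obtain ⟨h1, h2, h3⟩ := hb₀ x z y r t hz hr hr1 ht
    exact ⟨h1.trans (mul_le_mul_of_nonneg_right (hle x) (hg _ hr)),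
      h2.trans (mul_le_mul_of_nonneg_right (hle x) (mul_nonneg (inv_nonneg.2 hr.le) (hg _ hr))),
      h3.trans (mul_le_mul_of_nonneg_right (hle x) (mul_nonneg (mul_nonneg (inv_nonneg.2 hr.le)
        (pow_nonneg (Real.sqrt_nonneg r) _)) (hg _ hr)))⟩
  refine ⟨Φ, hΦ, fun x t ht => ⟨
    { q := kq C g h ρ t x
      qd := kqd C g h ρ t x
      e := kqe C g h ρ t x
      κ_pos := rate_pos P g ρ
      c_pos := hpos x
      cont_q := (continuousOn_kq C g h ρ t x).1
      cont_qd := (continuousOn_kq C g h ρ t x).2.1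
      cont_e := (continuousOn_kq C g h ρ t x).2.2
      smooth := fun r z _ => contDiff_kq C g h ρ t x r z
      supp := fun r z y hy => kq_supp C g h ρ t x r hy
      deriv := fun r z y hr => hasDerivAt_kq C g h ρ t x z y hr
      heat := fun r z y u hr => kq_heat C g h ρ t x z y u hr
      bd_q := fun r z y hz hr hr1 => (hb x z y r t hz hr hr1 ht).1
      bd_qd := fun r z y hz hr hr1 => (hb x z y r t hz hr hr1 ht).2.1
      bd_e := fun r z y hz hr hr1 => (hb x z y r t hz hr hr1 ht).2.2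
      delta := fun z φ hz hφ hc => kq_delta C g h ρ ht x hz hφ hc }, rfl⟩⟩

end Pool.Agent.Lib.MP_df705a_gt.RL
end
end

section

/-!
# RL2 parametrix: the final statement
-/

open scoped ContDiff InnerProductSpace Matrix Topology Real
open MeasureTheory Filter

noncomputable section

set_option linter.unusedSectionVars false

namespace Pool.Agent.Lib.MP_df705a_gt.RL

variable {X : Type*} [MeasurableSpace X] {P : Measure X} [IsProbabilityMeasure P] {m : ℕ}

theorem gz_nonneg (m : ℕ) (c : ℝ) (v : V (2 * m)) {r : ℝ} (hr : 0 < r) : 0 ≤ gz m c v r := by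
  unfold gz
  positivity

/-- The constant of a parametrix may be increased. -/
def ParaX.mono {C : Cliff m} {g : Geo (2 * m)} {B : Pot (2 * m)} {ρ c c' κ : ℝ}
    (p : ParaX C g B ρ c κ) (h : c ≤ c') : ParaX C g B ρ c' κ where
  q := p.q
  qd := p.qd
  e := p.e
  κ_pos := p.κ_pos
  c_pos := p.c_pos.trans_le h
  cont_q := p.cont_q
  cont_qd := p.cont_qd
  cont_e := p.cont_e
  smooth := p.smooth
  supp := p.supp
  deriv := p.deriv
  heat := p.heat
  bd_q := fun r z y hz hr hr1 => (p.bd_q r z y hz hr hr1).trans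
    (mul_le_mul_of_nonneg_right h (gz_nonneg m κ _ hr))
  bd_qd := fun r z y hz hr hr1 => (p.bd_qd r z y hz hr hr1).trans
    (mul_le_mul_of_nonneg_right h (mul_nonneg (inv_nonneg.2 hr.le) (gz_nonneg m κ _ hr)))
  bd_e := fun r z y hz hr hr1 => (p.bd_e r z y hz hr hr1).trans
    (mul_le_mul_of_nonneg_right h (mul_nonneg (mul_nonneg (inv_nonneg.2 hr.le)
      (pow_nonneg (Real.sqrt_nonneg r) _)) (gz_nonneg m κ _ hr)))
  delta := p.delta

/-- The constant in front of `pf` as a real number. -/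
def kapR (m : ℕ) : ℝ := (-1) ^ m * ((4 * π) ^ m)⁻¹ / (m.factorial : ℝ)

theorem kapR_ne_zero (m : ℕ) : kapR m ≠ 0 := by
  unfold kapR
  have h1 : ((4 * π) ^ m)⁻¹ ≠ 0 := by positivity
  have h2 : (m.factorial : ℝ) ≠ 0 := by positivity
  have h3 : ((-1 : ℝ)) ^ m ≠ 0 := pow_ne_zero _ (by norm_num)
  exact div_ne_zero (mul_ne_zero h3 h1) h2

/-- PROOF. `tr_eps_top` (KA6): `I^m tr(eps top) = 2^m`, so `(I/2)^m tr(eps top) = 1`. -/
theorem kap_eq (C : Cliff m) : kap m C = (kapR m : ℂ) := by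
  unfold kap kapR
  have h := C.tr_eps_top
  rw [div_pow, div_mul_eq_mul_div, h, div_self (pow_ne_zero m two_ne_zero), mul_one]

/-- The integral of the real part.
PROOF. For every `z` the function `y ↦ tr (..)` is continuous with compact support (`continuousOn_kq`, `kq_supp`,
`continuous_tr`), so integrable: `integral_re`. The function `z ↦ ∫ y, tr (..)` is measurable (`StronglyMeasurable.
integral_prod_right`) and bounded on `F` (`kq_bd`, `norm_tr_le`, `integral_gz`; or `trace_kq`, `tr_expand` and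
`aT_bd`), `g.vol F < ∞`, so integrable on `F`: `integral_re` again. -/
theorem trace_re (C : Cliff m) (g : Geo (2 * m)) {Ω : X → V (2 * m) → Mt (2 * m)}
    (h : RForm P Ω) (ρ : ℝ) {F : Set (V (2 * m))} (hF : MeasurableSet F)
    (hFρ : ∀ z ∈ F, ‖z‖ ≤ ρ) {t : ℝ} (ht : |t| ≤ 1) (x : X) {r : ℝ} (hr : 0 < r) (hr1 : r ≤ 1) :
    ∫ z in F, ∫ y, (tr (C.eps * (adj (kq C g h ρ t x r z y) * kq C g h ρ t x r z y))).re
          ∂g.vol ∂g.vol
      = (∫ z in F, ∫ y, tr (C.eps * (adj (kq C g h ρ t x r z y) * kq C g h ρ t x r z y))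
          ∂g.vol ∂g.vol).re := by
  have hk : Continuous fun p : V (2 * m) × V (2 * m) => kq C g h ρ t x r p.1 p.2 :=
    (continuousOn_kq C g h ρ t x).1.comp_continuous
      (f := fun p : V (2 * m) × V (2 * m) => ((r, p.1, p.2) : ℝ × V (2 * m) × V (2 * m)))
      (by fun_prop) fun _ => hr
  have hf : Continuous fun p : V (2 * m) × V (2 * m) =>
      tr (C.eps * (adj (kq C g h ρ t x r p.1 p.2) * kq C g h ρ t x r p.1 p.2)) :=
    continuous_tr.comp (continuous_const.mul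
      (((ContinuousLinearMap.adjoint : En m ≃ₗᵢ⋆[ℂ] En m).continuous.comp hk).mul hk))
  obtain ⟨f, hfe⟩ : ∃ f : V (2 * m) × V (2 * m) → ℂ, f = fun p =>
      tr (C.eps * (adj (kq C g h ρ t x r p.1 p.2) * kq C g h ρ t x r p.1 p.2)) := ⟨_, rfl⟩
  rw [← hfe] at hf
  have h0 : ∀ z y, 1 < ‖y - z‖ → f (z, y) = 0 := by
    intro z y hy
    rw [hfe]
    show tr (C.eps * (adj (kq C g h ρ t x r z y) * kq C g h ρ t x r z y)) = 0
    rw [(kq_supp C g h ρ t x r hy).1, mul_zero, mul_zero]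
    exact map_zero (LinearMap.trace ℂ (Sp m))
  have h1 : ∀ z, Integrable (fun y => f (z, y)) g.vol := by
    intro z
    refine (hf.comp (by fun_prop : Continuous fun y : V (2 * m) => (z, y))).integrable_of_hasCompactSupport
      (HasCompactSupport.intro (isCompact_closedBall z 1) fun y hy => h0 z y ?_)
    rw [Metric.mem_closedBall, dist_eq_norm] at hy
    exact not_le.1 hy
  obtain ⟨M, hM⟩ := ((isCompact_closedBall (0 : V (2 * m)) ρ).prod
    (isCompact_closedBall (0 : V (2 * m)) (ρ + 1))).exists_bound_of_continuousOn hf.continuousOn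
  have hfin : g.vol (Metric.closedBall 0 (ρ + 1)) < ⊤ :=
    (isCompact_closedBall (0 : V (2 * m)) (ρ + 1)).measure_lt_top
  have hFfin : g.vol F ≠ ⊤ := by
    refine ((measure_mono fun z hz => ?_).trans_lt
      ((isCompact_closedBall (0 : V (2 * m)) ρ).measure_lt_top (μ := g.vol))).ne
    rw [mem_closedBall_zero_iff]
    exact hFρ z hz
  have h2 : IntegrableOn (fun z => ∫ y, f (z, y) ∂g.vol) F g.vol := by
    refine Measure.integrableOn_of_bounded hFfin
      (M := M * g.vol.real (Metric.closedBall 0 (ρ + 1)))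
      hf.stronglyMeasurable.integral_prod_right'.aestronglyMeasurable ?_
    rw [ae_restrict_iff' hF]
    refine Filter.Eventually.of_forall fun z hz => ?_
    have hz' := hFρ z hz
    rw [← setIntegral_eq_integral_of_forall_compl_eq_zero (s := Metric.closedBall 0 (ρ + 1))
      fun y hy => h0 z y ?_]
    · refine norm_setIntegral_le_of_norm_le_const hfin fun y hy => hM (z, y) ⟨?_, hy⟩
      rw [mem_closedBall_zero_iff]
      exact hz'
    · rw [mem_closedBall_zero_iff, not_le] at hy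
      have := norm_sub_norm_le y z
      linarith
  have h3 : ∀ z, ∫ y, (f (z, y)).re ∂g.vol = (∫ y, f (z, y) ∂g.vol).re := fun z =>
    integral_re (𝕜 := ℂ) (h1 z)
  have h4 : ∫ z in F, (∫ y, f (z, y) ∂g.vol).re ∂g.vol
      = (∫ z in F, ∫ y, f (z, y) ∂g.vol ∂g.vol).re := integral_re (𝕜 := ℂ) h2
  simp only [← h3] at h4
  rw [hfe] at h4
  exact h4

/-- **The parametrix and the expansion of the trace.** -/
theorem parametrix (C : Cliff m) (g : Geo (2 * m)) {Ω : X → V (2 * m) → Mt (2 * m)}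
    (h : RForm P Ω) (ρ : ℝ) {F : Set (V (2 * m))} (hF : MeasurableSet F)
    (hFρ : ∀ z ∈ F, ‖z‖ ≤ ρ) :
    ∃ κ : ℝ, 0 < κ ∧ ∃ (Φ : X → ℝ) (A : X → ℕ → ℕ → ℝ), Mom P Φ ∧ (∀ x, 0 < Φ x) ∧
      (∀ x n b, n ≤ 2 * m → b ≤ m → |A x n b| ≤ Φ x) ∧
      (∀ x n b, n < 2 * b → A x n b = 0) ∧
      (∀ x, A x (2 * m) m = kapR m * ∫ z in F, pf fun _ : Fin m => Ω x z) ∧
      ∀ x t, |t| ≤ 1 → ∃ p : ParaX C g (tPot (Ω x) t) ρ (Φ x) κ, ∀ r, 0 < r → r ≤ 1 →
        |(∫ z in F, ∫ y, (tr (C.eps * (adj (p.q r z y) * p.q r z y))).re ∂g.vol ∂g.vol)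
          - ∑ n ∈ Finset.range (2 * m + 1), (√r) ^ n * (r ^ m)⁻¹ *
              ∑ b ∈ Finset.range (m + 1), t ^ b * A x n b| ≤ Φ x * √r := by
  obtain ⟨Φ₁, h1, hp⟩ := exists_para C g h ρ
  obtain ⟨Φ₂, h2, he⟩ := trace_expand C g h ρ hF hFρ
  have hA := fun n b => AK_bd C g h ρ hF hFρ n b
  choose Φ₃ h3 hA using hA
  have h4 : Mom P fun x => ∑ n ∈ Finset.range (2 * m + 1), ∑ b ∈ Finset.range (m + 1), Φ₃ n b x :=
    Mom.sum _ fun n _ => Mom.sum _ fun b _ => h3 n b
  refine ⟨rate P g ρ, rate_pos P g ρ, fun x => 1 + (Φ₁ x + Φ₂ x) + ∑ n ∈ Finset.range (2 * m + 1),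
    ∑ b ∈ Finset.range (m + 1), Φ₃ n b x, fun x n b => (AK C g h ρ F x n b).re,
    ((Mom.const zero_le_one).add (h1.add h2)).add h4, ?_, ?_, ?_, ?_, ?_⟩
  · intro x
    have := h1.nonneg x
    have := h2.nonneg x
    have h5 : 0 ≤ ∑ n ∈ Finset.range (2 * m + 1), ∑ b ∈ Finset.range (m + 1), Φ₃ n b x :=
      h4.nonneg x
    change 0 < 1 + (Φ₁ x + Φ₂ x) + ∑ n ∈ Finset.range (2 * m + 1),
      ∑ b ∈ Finset.range (m + 1), Φ₃ n b x
    linarith
  · intro x n b hn hb
    refine (Complex.abs_re_le_norm _).trans ((hA n b x).trans ?_)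
    have h5 : Φ₃ n b x ≤ ∑ b ∈ Finset.range (m + 1), Φ₃ n b x :=
      Finset.single_le_sum (f := fun b => Φ₃ n b x) (fun b _ => (h3 n b).nonneg x)
        (Finset.mem_range.2 (by omega))
    have h6 : ∑ b ∈ Finset.range (m + 1), Φ₃ n b x ≤ ∑ n ∈ Finset.range (2 * m + 1),
        ∑ b ∈ Finset.range (m + 1), Φ₃ n b x :=
      Finset.single_le_sum (f := fun n => ∑ b ∈ Finset.range (m + 1), Φ₃ n b x)
        (fun n _ => Finset.sum_nonneg fun b _ => (h3 n b).nonneg x)
        (Finset.mem_range.2 (by omega))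
    have := h1.nonneg x
    have := h2.nonneg x
    linarith
  · intro x n b hb
    change (AK C g h ρ F x n b).re = 0
    rw [AK_zero C g h ρ F x hb]
    rfl
  · intro x
    change (AK C g h ρ F x (2 * m) m).re = _
    rw [AK_top C g h ρ hF x, kap_eq, ← Complex.ofReal_mul, Complex.ofReal_re]
  · intro x t ht
    obtain ⟨p, hq⟩ := hp x t ht
    have h5 : 0 ≤ ∑ n ∈ Finset.range (2 * m + 1), ∑ b ∈ Finset.range (m + 1), Φ₃ n b x :=
      h4.nonneg x
    refine ⟨p.mono (by have := h2.nonneg x; linarith), fun r hr hr1 => ?_⟩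
    change |(∫ z in F, ∫ y, (tr (C.eps * (adj (p.q r z y) * p.q r z y))).re ∂g.vol ∂g.vol) - _| ≤ _
    rw [hq, trace_re C g h ρ hF hFρ ht x hr hr1]
    have h6 : ∑ n ∈ Finset.range (2 * m + 1), (√r) ^ n * (r ^ m)⁻¹ *
        ∑ b ∈ Finset.range (m + 1), t ^ b * (AK C g h ρ F x n b).re
        = (∑ n ∈ Finset.range (2 * m + 1), (((√r) ^ n * (r ^ m)⁻¹ : ℝ) : ℂ) *
            ∑ b ∈ Finset.range (m + 1), (t : ℂ) ^ b * AK C g h ρ F x n b).re := by
      rw [Complex.re_sum]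
      refine Finset.sum_congr rfl fun n _ => ?_
      rw [Complex.re_ofReal_mul, Complex.re_sum]
      congr 1
      refine Finset.sum_congr rfl fun b _ => ?_
      rw [← Complex.ofReal_pow, Complex.re_ofReal_mul]
    rw [h6, ← Complex.sub_re]
    refine (Complex.abs_re_le_norm _).trans ((he x r t hr hr1 ht).trans ?_)
    exact mul_le_mul_of_nonneg_right (by have := h1.nonneg x; linarith) (Real.sqrt_nonneg r)

end Pool.Agent.Lib.MP_df705a_gt.RL
end
end

section

/-!
# RL2, ZP: the parametrix and the local index theorem (from the files P)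
-/

open scoped ContDiff InnerProductSpace Matrix ENNReal NNReal Topology
open MeasureTheory Filter Set

noncomputable section

namespace Pool.Agent.Lib.MP_df705a_gt.RL

variable {m : ℕ}

/-- The potential of `t Ω`. -/
def tp (Ω : V (2 * m) → Mt (2 * m)) (t : ℝ) : Pot (2 * m) := fun ν y => t * prim Ω ν y

/-- The parametrices for the potentials `t prim (Ω x)` and the asymptotic expansion of their
supertraces. -/
theorem exists_parametrix (hm : 1 ≤ m) (C : Cliff m) (g : Geo (2 * m)) {X : Type*}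
    [MeasurableSpace X] {P : Measure X} [IsProbabilityMeasure P] {G : Type*} [Group G]
    [MulAction G X] {a : Act G (2 * m)} {Ω : X → V (2 * m) → Mt (2 * m)} (h : Rand P a Ω)
    {F : Set (V (2 * m))} (hF : MeasurableSet F) (hFb : Bornology.IsBounded F) :
    ∃ (κ r₀ K : ℝ) (Φ : X → ℝ) (A : X → ℕ → ℕ → ℝ), 0 < κ ∧ K ≠ 0 ∧ Mom P Φ ∧
      (∀ x, 1 ≤ Φ x) ∧ (∀ x, ∀ n ≤ 2 * m, ∀ b ≤ m, |A x n b| ≤ Φ x) ∧
      (∀ x n b, n < 2 * b → A x n b = 0) ∧
      (∀ x, A x (2 * m) m = K * ∫ y in F, pf fun _ : Fin m => Ω x y) ∧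
      ∀ x t, |t| ≤ 1 → ∃ q qd e : ℝ → V (2 * m) → V (2 * m) → En m,
        Para C g (tp (Ω x) t) F q qd e (Φ x) κ r₀ ∧
        ∀ r, 0 < r → r ≤ 1 →
          |strq C g F q r - ∑ n ∈ Finset.range (2 * m + 1), (√r) ^ n / r ^ m *
            ∑ b ∈ Finset.range (m + 1), t ^ b * A x n b| ≤ Φ x * √r := by
  obtain ⟨ρ, hρ⟩ := hFb.exists_norm_le
  obtain ⟨κ, hκ, Φ, A, hΦ, hpos, hA, hA0, hAt, hpar⟩ := parametrix C g h.rform ρ hF hρ
  obtain ⟨a, ha, hbr⟩ := ParaX.exists_para g hm ρ hκ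
  have hbase : Mom P fun x => 1 + a * Φ x :=
    (Mom.const zero_le_one).add (hΦ.const_mul (by linarith))
  have hle : ∀ x, Φ x ≤ 1 + a * Φ x := fun x => by
    have := hpos x
    nlinarith
  refine ⟨κ, ρ + 1, kapR m, fun x => 1 + a * Φ x, A, hκ, kapR_ne_zero m, hbase, fun x => ?_,
    fun x n hn b hb => (hA x n b hn hb).trans (hle x), hA0, hAt, fun x t ht => ?_⟩
  · have := hpos x
    have : 0 ≤ a * Φ x := by positivity
    linarith
  · obtain ⟨p, hp⟩ := hpar x t ht
    have h1 : (1 + a * Φ x) / a * a = 1 + a * Φ x := div_mul_cancel₀ _ (by positivity)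
    have h2 : Φ x ≤ (1 + a * Φ x) / a := by
      rw [le_div_iff₀ (by positivity)]
      linarith
    have h3 := hbr C (tPot (Ω x) t) _ (p.mono h2) F hρ
    have h4 : a * ((1 + a * Φ x) / a) = 1 + a * Φ x := by rw [mul_comm]; exact h1
    rw [h4] at h3
    refine ⟨(p.mono h2).q, (p.mono h2).qd, (p.mono h2).e, h3, fun r hr hr1 => ?_⟩
    refine (hp r hr hr1).trans ?_
    exact mul_le_mul_of_nonneg_right (hle x) (Real.sqrt_nonneg r)

theorem isPot_tp {Ω : V (2 * m) → Mt (2 * m)} (h : IsClosed2 Ω) (t : ℝ) : IsPot (tp Ω t) :=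
  fun ν => contDiff_const.mul (isPot_prim h ν)

theorem dPot_tp {Ω : V (2 * m) → Mt (2 * m)} (h : IsClosed2 Ω) (t : ℝ) (y : V (2 * m)) :
    dPot (tp Ω t) y = t • Ω y := by
  have h1 := dPot_smul (isPot_prim h) t y
  rw [dPot_prim h] at h1
  exact h1

end Pool.Agent.Lib.MP_df705a_gt.RL
end
end

section

/-!
# RL2, Z1: the random system of the Dirac operators
-/

open scoped ContDiff InnerProductSpace Matrix ENNReal NNReal Topology
open MeasureTheory Filter Set

noncomputable section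

namespace Pool.Agent.Lib.MP_df705a_gt.RL

variable {m : ℕ}

theorem fr_tp (g : Geo (2 * m)) {Ω : V (2 * m) → Mt (2 * m)} (h : IsClosed2 Ω) (t : ℝ)
    (y : V (2 * m)) (a b : Fin (2 * m)) :
    g.fr (dPot (tp Ω t)) y a b = t * g.fr Ω y a b := by
  have h1 : (dPot (tp Ω t) : V (2 * m) → Mt (2 * m)) y = t • Ω y := dPot_tp h t y
  simp only [Geo.fr, h1]
  rw [Matrix.mul_smul, Matrix.smul_mul, Matrix.smul_apply, smul_eq_mul]

/-- `wcurv` for `t Ω`. -/
theorem wcurv_tp (g : Geo (2 * m)) {Ω : V (2 * m) → Mt (2 * m)} (h : IsClosed2 Ω) (t : ℝ)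
    (y : V (2 * m)) :
    wcurv g (tp Ω t) y = |t| * (m * √(∑ a, ∑ b, (g.fr Ω y a b) ^ 2)) := by
  unfold wcurv
  have h1 : ∑ a, ∑ b, (g.fr (dPot (tp Ω t)) y a b) ^ 2
      = t ^ 2 * ∑ a, ∑ b, (g.fr Ω y a b) ^ 2 := by
    rw [Finset.mul_sum]
    refine Finset.sum_congr rfl fun a _ => ?_
    rw [Finset.mul_sum]
    refine Finset.sum_congr rfl fun b _ => ?_
    rw [fr_tp g h, mul_pow]
  rw [h1, Real.sqrt_mul (sq_nonneg t), Real.sqrt_sq_eq_abs]
  ring

theorem image_act {G : Type*} [Group G] {N : ℕ} (a : Act G N) (γ : G) (E : Set (V N)) :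
    a.act γ '' E = a.act γ⁻¹ ⁻¹' E := by
  ext y
  constructor
  · rintro ⟨z, hz, rfl⟩
    rw [mem_preimage, ← a.mul, inv_mul_cancel, a.one]
    exact hz
  · intro h
    exact ⟨a.act γ⁻¹ y, h, by rw [← a.mul, mul_inv_cancel, a.one]⟩

/-- The translates of the fundamental domain form a partition. -/
theorem Act.Fund.part {G : Type*} [Group G] {N : ℕ} {a : Act G N} {F : Set (V N)}
    (hF : a.Fund F) (y : V N) : ∃! γ : G, y ∈ a.act γ '' F := by
  obtain ⟨γ, h1, h2⟩ := hF.tile y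
  refine ⟨γ⁻¹, ?_, fun δ hδ => ?_⟩
  · change y ∈ a.act γ⁻¹ '' F
    rw [image_act, inv_inv]
    exact h1
  · change y ∈ a.act δ '' F at hδ
    rw [image_act] at hδ
    rw [← h2 _ hδ, inv_inv]

theorem Act.Fund.meas_image {G : Type*} [Group G] {N : ℕ} {a : Act G N} {F : Set (V N)}
    (hF : a.Fund F) (γ : G) : MeasurableSet (a.act γ '' F) := by
  rw [image_act]
  exact (a.smooth γ⁻¹).continuous.measurable hF.meas

theorem measurable_Vpot {X : Type*} [MeasurableSpace X] (g : Geo (2 * m))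
    {Ω : X → V (2 * m) → Mt (2 * m)} (hc : ∀ x, IsClosed2 (Ω x))
    (hm : ∀ μ ν, Measurable fun p : X × V (2 * m) => Ω p.1 p.2 μ ν)
    (t σ : ℝ) : Measurable fun p : X × V (2 * m) => Vpot g (tp (Ω p.1) t) σ p.2 := by
  have he : ∀ μ a, Measurable fun p : X × V (2 * m) => g.e p.2 μ a := fun μ a =>
    (g.smooth_e μ a).continuous.measurable.comp measurable_snd
  have h1 : ∀ a b, Measurable fun p : X × V (2 * m) => g.fr (Ω p.1) p.2 a b := by
    intro a b
    have h2 : (fun p : X × V (2 * m) => g.fr (Ω p.1) p.2 a b)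
        = fun p => ∑ ν, (∑ μ, g.e p.2 μ a * Ω p.1 p.2 μ ν) * g.e p.2 ν b := by
      funext p
      simp only [Geo.fr, Matrix.mul_apply, Matrix.transpose_apply]
    rw [h2]
    exact Finset.measurable_sum _ fun ν _ => (Finset.measurable_sum _ fun μ _ =>
      (he μ a).mul (hm μ ν)).mul (he ν b)
  unfold Vpot
  refine measurable_const.max (Measurable.sub_const ?_ _)
  have h3 : (fun p : X × V (2 * m) => wcurv g (tp (Ω p.1) t) p.2)
      = fun p => |t| * (m * √(∑ a, ∑ b, (g.fr (Ω p.1) p.2 a b) ^ 2)) :=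
    funext fun p => wcurv_tp g (hc p.1) t p.2
  rw [h3]
  refine Measurable.const_mul (Measurable.const_mul (Real.continuous_sqrt.measurable.comp
    (Finset.measurable_sum _ fun a _ => Finset.measurable_sum _ fun b _ => ?_)) _) _
  exact (h1 a b).pow_const 2

theorem commute_mulE_smul (g : Geo (2 * m)) {f : V (2 * m) → ℂ} {A : V (2 * m) → En m}
    (hf : BddM fun y => f y • (1 : En m)) (hA : BddM A) :
    Commute (g.mulE fun y => f y • (1 : En m)) (g.mulE A) := by
  change g.mulE _ * g.mulE _ = g.mulE _ * g.mulE _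
  rw [g.mulE_mul hf hA, g.mulE_mul hA hf]
  congr 1
  funext y
  rw [smul_mul_assoc, mul_smul_comm, one_mul, mul_one]

theorem BddM.ind {E : Set (V (2 * m))} (hE : MeasurableSet E) :
    BddM (E.indicator fun _ => (1 : En m)) := (BddM.const 1).indicator hE

theorem Mop_sa (g : Geo (2 * m)) {B : Pot (2 * m)} (hB : IsPot B) (σ : ℝ) (n : ℕ) :
    IsSelfAdjoint (Mop g B σ n) := by
  change star (Mop g B σ n) = Mop g B σ n
  rw [ContinuousLinearMap.star_eq_adjoint]
  refine (g.adj_mulE (bddM_Mop g hB σ n)).trans ?_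
  unfold Mop
  congr 1
  funext y
  change star (((√(min (Vpot g B σ y) n) : ℝ) : ℂ) • (1 : En m)) = _
  rw [star_smul, star_one]
  simp

theorem commute_ind (g : Geo (2 * m)) {E : Set (V (2 * m))} (hE : MeasurableSet E)
    {A : V (2 * m) → En m} (hA : BddM A) : Commute (g.ind E) (g.mulE A) := by
  change g.mulE _ * g.mulE _ = g.mulE _ * g.mulE _
  rw [g.mulE_mul (BddM.ind hE) hA, g.mulE_mul hA (BddM.ind hE)]
  congr 1
  funext y
  by_cases h : y ∈ E
  · rw [indicator_of_mem h, one_mul, mul_one]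
  · rw [indicator_of_notMem h, zero_mul, mul_zero]

/-- The measurability of the potential term. -/
theorem SM_Mop (g : Geo (2 * m)) {X : Type*} [MeasurableSpace X]
    {Ω : X → V (2 * m) → Mt (2 * m)} (hc : ∀ x, IsClosed2 (Ω x))
    (hm : ∀ μ ν, Measurable fun p : X × V (2 * m) => Ω p.1 p.2 μ ν) (t σ : ℝ) (n : ℕ) :
    SM fun x => Mop g (tp (Ω x) t) σ n := by
  refine om_mulE g (fun x => bddM_Mop g (isPot_tp (hc x) t) σ n) ?_
  have h1 : Measurable fun p : X × V (2 * m) =>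
      ((√(min (Vpot g (tp (Ω p.1) t) σ p.2) n) : ℝ) : ℂ) :=
    Complex.measurable_ofReal.comp (Real.continuous_sqrt.measurable.comp
      ((measurable_Vpot g hc hm t σ).min measurable_const))
  exact h1.stronglyMeasurable.smul_const 1

/-- The random system: `eps = Eps g κ'`, `Gr x` the graph of the Dirac operator with the potential
`t prim (Ω x)`, `v n x = (emb (φ n), emb (D_x (φ n)))` for a dense sequence of test functions
(`exists_denseTF`, `dense_Gr`, `sm_emb_dirac`, `measurable_prim`), `p γ = ind (γ F)`,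
`M n x = Mop g (tp (Ω x) t) σ n`, `c = σ/2`, `lich_closure`, and `equiv` by `exists_unitary`:
`pull2 (a.act γ) (dPot (tp (Ω (γ • x)) t)) = dPot (tp (Ω x) t)` for almost every `x` (`Rand.equi`,
`dPot_tp`), `W (ind (h F) u) = ind (γ (h F)) (W u)`. -/
theorem exists_rsys' (C : Cliff m) (g : Geo (2 * m)) (hcut : Cutoffs g) {c₀ σ : ℝ} (hc₀ : 0 < c₀)
    (hL : LichC C g c₀ σ) {X : Type*} [MeasurableSpace X] {P : Measure X}
    {G : Type*} [Group G] [Countable G] [MulAction G X] {a : Act G (2 * m)} (ha : a.Iso g)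
    {F : Set (V (2 * m))} (hF : a.Fund F) {Ω : X → V (2 * m) → Mt (2 * m)} (hΩ : Rand P a Ω)
    (t : ℝ) {κ' : ℝ} (hκ' : κ' ^ 2 = 1) :
    ∃ S : RSys G X P g.L2, S.eps = C.Eps g κ' ∧ (∀ x, S.Gr x = C.Gr g (tp (Ω x) t)) ∧
      S.p 1 = g.ind F ∧ (∀ n x, S.M n x = Mop g (tp (Ω x) t) σ n) ∧ S.c = c₀ := by
  obtain ⟨φ, hφ⟩ := exists_denseTF m
  have hB : ∀ x, IsPot (tp (Ω x) t) := fun x => isPot_tp (hΩ.closed x) t
  have hBm : ∀ μ, Measurable fun p : X × V (2 * m) => tp (Ω p.1) t μ p.2 := fun μ =>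
    (measurable_prim hΩ.meas μ).const_mul t
  have hEm : ∀ γ : G, MeasurableSet (a.act γ '' F) := hF.meas_image
  have hMb := fun n x => bddM_Mop g (hB x) σ n
  refine ⟨{
    eps := C.Eps g κ'
    grading := isGrading_Eps C g hκ'
    Gr := fun x => C.Gr g (tp (Ω x) t)
    odd := fun x => isOddSymm_Gr C g (hB x) hκ'
    v := fun n x => (g.emb (φ n), g.emb (C.dirac g (tp (Ω x) t) (φ n)))
    v_meas := fun n => stronglyMeasurable_const.prodMk (sm_emb_dirac C g _ hB hBm (hφ.1 n))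
    v_mem := fun n x => emb_mem_Gr C g _ (hφ.1 n)
    v_dense := fun x b hb => dense_Gr C g (hB x) hφ b hb
    p := fun γ => g.ind (a.act γ '' F)
    p_sa := fun γ => g.ind_sa (hEm γ)
    p_eps := fun γ => commute_ind g (hEm γ) (BddM.const _)
    p_sum := fun u => (g.enorm_sq_ind _ hEm hF.part u).symm
    M := fun n x => Mop g (tp (Ω x) t) σ n
    M_meas := fun n => SM_Mop g hΩ.closed hΩ.meas t σ n
    M_sa := fun n x => Mop_sa g (hB x) σ n
    M_eps := fun n x => commute_mulE_smul g (hMb n x) (BddM.const _)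
    M_p := fun n x γ => commute_mulE_smul g (hMb n x) (BddM.ind (hEm γ))
    M_mono := fun x u => Mop_mono g (hB x) σ u
    equiv := fun γ => ?_
    c := c₀
    c_pos := hc₀
    lich := fun x w hw => lich_closure' C g hcut (hB x) hc₀ hL w hw }, rfl, fun _ => rfl, ?_,
    fun _ _ => rfl, rfl⟩
  · filter_upwards [hΩ.equi γ] with x hx
    obtain ⟨W, h1, h2, h3, h4⟩ := exists_unitary C g a ha γ (hB x) (hB (γ • x)) (fun y => by
      have e1 : dPot (tp (Ω (γ • x)) t) (a.act γ y) = t • Ω (γ • x) (a.act γ y) :=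
        dPot_tp (hΩ.closed _) t _
      have e2 : dPot (tp (Ω x) t) y = t • Ω x y := dPot_tp (hΩ.closed x) t y
      have e3 := hx y
      unfold pull2 at e3 ⊢
      rw [e1, e2, Matrix.mul_smul, Matrix.smul_mul, e3])
    refine ⟨W, h1 κ', fun δ u => ?_, h3, h4 σ⟩
    rw [h2 _ (hEm δ) u, ← image_comp]
    congr 3
    funext y
    exact (a.mul γ δ y).symm
  · change g.ind (a.act 1 '' F) = g.ind F
    congr 1
    rw [image_act, inv_one]
    ext y
    rw [mem_preimage, a.one]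

end Pool.Agent.Lib.MP_df705a_gt.RL
end
end

section

/-!
# RL2, F2a: pull-backs of two-forms, unfolding an integral over the fundamental domain
-/

open scoped Manifold ContDiff InnerProductSpace Matrix ENNReal
open Module Bundle MeasureTheory

noncomputable section

namespace Pool.Agent.Lib.MP_df705a_gt.RL

variable {N m : ℕ}

private theorem f2_comm {f : V N → ℝ} (h : ContDiff ℝ ∞ f) (μ l : Fin N) (y : V N) :
    pd l (fun y => pd μ f y) y = pd μ (fun y => pd l f y) y := by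
  have h1 : Differentiable ℝ (fderiv ℝ f) :=
    (contDiff_infty_iff_fderiv.1 h).2.differentiable (by simp)
  have h2 : ∀ a b : Fin N, pd a (fun y => pd b f y) y = (fderiv ℝ (fderiv ℝ f) y (bv a)) (bv b) := by
    intro a b
    unfold pd
    rw [fderiv_clm_apply (h1 y) (differentiableAt_const _)]
    simp
  rw [h2, h2]
  have h3 : IsSymmSndFDerivAt ℝ f y := by
    refine (h.contDiffAt (x := y)).isSymmSndFDerivAt ?_
    rw [minSmoothness_of_isRCLikeNormedField]
    exact WithTop.coe_le_coe.2 le_top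
  exact h3.eq _ _

private theorem f2_smooth {f : V N → ℝ} (hf : ContDiff ℝ ∞ f) (μ : Fin N) :
    ContDiff ℝ ∞ (pd μ f) :=
  ((contDiff_infty_iff_fderiv.1 hf).2).clm_apply contDiff_const

/-- The curvature of a potential is closed. -/
theorem isClosed2_dPot {B : Pot N} (hB : IsPot B) : IsClosed2 (dPot B) where
  smooth μ ν := (f2_smooth (hB ν) μ).sub (f2_smooth (hB μ) ν)
  anti y μ ν := by
    show pd ν (B μ) y - pd μ (B ν) y = -(pd μ (B ν) y - pd ν (B μ) y)
    ring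
  closed y l μ ν := by
    have h1 : ∀ a b c : Fin N, pd a (fun y => dPot B y b c) y
        = pd a (fun y => pd b (B c) y) y - pd a (fun y => pd c (B b) y) y := by
      intro a b c
      show fderiv ℝ (fun y => pd b (B c) y - pd c (B b) y) y (bv a) = _
      rw [fderiv_fun_sub ((f2_smooth (hB c) b).differentiable (by simp) y)
        ((f2_smooth (hB b) c).differentiable (by simp) y)]
      rfl
    rw [h1, h1, h1, f2_comm (hB ν) μ l, f2_comm (hB μ) ν l, f2_comm (hB l) μ ν]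
    ring

/-- The pull-back of a closed two-form is closed. -/
theorem IsClosed2.pull2 {Ω : V N → Mt N} (h : IsClosed2 Ω) {Φ : V N → V N}
    (hΦ : ContDiff ℝ ∞ Φ) : IsClosed2 (pull2 Φ Ω) := by
  have h1 : Pool.Agent.Lib.MP_df705a_gt.RL.pull2 Φ Ω = dPot (pull1 Φ (prim Ω)) := by
    funext y
    rw [dPot_pull1 hΦ (isPot_prim h) y]
    unfold Pool.Agent.Lib.MP_df705a_gt.RL.pull2
    rw [dPot_prim h]
  rw [h1]
  exact isClosed2_dPot (isPot_pull1 hΦ (isPot_prim h))

theorem jac_comp {Φ Ψ : V N → V N} (hΦ : ContDiff ℝ ∞ Φ) (hΨ : ContDiff ℝ ∞ Ψ) (y : V N) :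
    jac (fun y => Ψ (Φ y)) y = jac Ψ (Φ y) * jac Φ y := by
  ext ν μ
  have h1 : fderiv ℝ (fun y => Ψ (Φ y)) y = (fderiv ℝ Ψ (Φ y)).comp (fderiv ℝ Φ y) :=
    fderiv_comp y (hΨ.differentiable (by simp) (Φ y)) (hΦ.differentiable (by simp) y)
  rw [Matrix.mul_apply]
  show (fderiv ℝ (fun y => Ψ (Φ y)) y (bv μ)) ν = _
  rw [h1, ContinuousLinearMap.comp_apply, jac_spec (Φ := Φ), map_sum, WithLp.ofLp_sum,
    Finset.sum_apply]
  refine Finset.sum_congr rfl fun k _ => ?_
  rw [map_smul]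
  show jac Φ y k μ * (fderiv ℝ Ψ (Φ y) (bv k)) ν = jac Ψ (Φ y) ν k * jac Φ y k μ
  rw [mul_comm]
  rfl

theorem pull2_comp {Φ Ψ : V N → V N} (hΦ : ContDiff ℝ ∞ Φ) (hΨ : ContDiff ℝ ∞ Ψ)
    (Ω : V N → Mt N) (y : V N) :
    pull2 (fun y => Ψ (Φ y)) Ω y = pull2 Φ (pull2 Ψ Ω) y := by
  unfold pull2
  rw [jac_comp hΦ hΨ, Matrix.transpose_mul]
  simp only [Matrix.mul_assoc]

/-- The pairs `(r, k)` as indices `2 r + k`. -/
private def f2E (m : ℕ) : Fin m × Fin 2 ≃ Fin (2 * m) :=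
  finProdFinEquiv.trans (finCongr (mul_comm m 2))

private theorem f2E0 (r : Fin m) : f2E m (r, 0) = ⟨2 * r, by omega⟩ := by
  apply Fin.ext
  simp [f2E, finProdFinEquiv]

private theorem f2E1 (r : Fin m) : f2E m (r, 1) = ⟨2 * r + 1, by omega⟩ := by
  apply Fin.ext
  simp [f2E, finProdFinEquiv, add_comm]

/-- `pf (eᵀ Ω e) = det e · pf Ω` for families.
PROOF. Expand every entry `(eᵀ Ω e)_{ab} = ∑_{μν} e_{μa} Ω_{μν} e_{νb}`: `pf` becomes
`∑_{f : Fin (2m) → Fin (2m)} (∑_σ sign σ ∏_i e (f i) (σ i)) ∏_r Ω (f (2r)) (f (2r+1))`, the inner sum is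
`det (fun i j => e (f i) j)`, which is `0` if `f` is not injective and `sign f · det e` if `f` is a permutation
(`Matrix.det_permute`, `Matrix.det_zero_of_row_eq`). -/
theorem pf_conjF (Ω : Fin m → Mt (2 * m)) (e : Mt (2 * m)) :
    pf (fun r => eᵀ * Ω r * e) = e.det * pf Ω := by
  classical
  have hpf : ∀ M : Fin m → Mt (2 * m), pf M = ∑ σ : Equiv.Perm (Fin (2 * m)),
      ((Equiv.Perm.sign σ : ℤ) : ℝ) * ∏ r : Fin m, M r (σ (f2E m (r, 0))) (σ (f2E m (r, 1))) := by
    intro M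
    unfold pf
    refine Finset.sum_congr rfl fun σ _ => ?_
    congr 1
    refine Finset.prod_congr rfl fun r _ => ?_
    rw [f2E0, f2E1]
  have hprod : ∀ u : Fin (2 * m) → ℝ, ∏ i, u i
      = ∏ r : Fin m, (u (f2E m (r, 0)) * u (f2E m (r, 1))) := by
    intro u
    rw [← (f2E m).prod_comp u, Fintype.prod_prod_type]
    exact Finset.prod_congr rfl fun r _ => Fin.prod_univ_two _
  obtain ⟨G, hG⟩ : ∃ G : (Fin (2 * m) → Fin (2 * m)) → ℝ, G = fun f =>
      (∏ r : Fin m, Ω r (f (f2E m (r, 0))) (f (f2E m (r, 1)))) *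
        ∑ σ : Equiv.Perm (Fin (2 * m)), ((Equiv.Perm.sign σ : ℤ) : ℝ) * ∏ i, e (f i) (σ i) :=
    ⟨_, rfl⟩
  have hdet : ∀ f : Fin (2 * m) → Fin (2 * m), G f
      = (∏ r : Fin m, Ω r (f (f2E m (r, 0))) (f (f2E m (r, 1)))) * (e.submatrix f id).det := by
    intro f
    rw [hG, ← Matrix.det_transpose, Matrix.det_apply']
    rfl
  have h1 : pf (fun r => eᵀ * Ω r * e) = ∑ f, G f := by
    rw [hpf, hG]
    have h2 : ∀ σ : Equiv.Perm (Fin (2 * m)),
        ∏ r : Fin m, (eᵀ * Ω r * e) (σ (f2E m (r, 0))) (σ (f2E m (r, 1)))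
        = ∑ f : Fin (2 * m) → Fin (2 * m),
          (∏ r : Fin m, Ω r (f (f2E m (r, 0))) (f (f2E m (r, 1)))) * ∏ i, e (f i) (σ i) := by
      intro σ
      have h3 : ∀ r : Fin m, (eᵀ * Ω r * e) (σ (f2E m (r, 0))) (σ (f2E m (r, 1)))
          = ∑ k : Fin 2 → Fin (2 * m), Ω r (k 0) (k 1) *
            (e (k 0) (σ (f2E m (r, 0))) * e (k 1) (σ (f2E m (r, 1)))) := by
        intro r
        rw [← (finTwoArrowEquiv (Fin (2 * m))).symm.sum_comp, Fintype.sum_prod_type,
          Finset.sum_comm, Matrix.mul_apply]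
        refine Finset.sum_congr rfl fun j _ => ?_
        rw [Matrix.mul_apply, Finset.sum_mul]
        refine Finset.sum_congr rfl fun i _ => ?_
        simp only [Matrix.transpose_apply, finTwoArrowEquiv_symm_apply, Matrix.cons_val_zero,
          Matrix.cons_val_one]
        ring
      simp_rw [h3]
      rw [Finset.prod_univ_sum, Fintype.piFinset_univ,
        ← ((Equiv.curry (Fin m) (Fin 2) (Fin (2 * m))).symm.trans
          ((f2E m).arrowCongr (Equiv.refl (Fin (2 * m))))).symm.sum_comp]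
      refine Finset.sum_congr rfl fun f _ => ?_
      rw [hprod, ← Finset.prod_mul_distrib]
      rfl
    simp_rw [h2, Finset.mul_sum]
    rw [Finset.sum_comm]
    refine Finset.sum_congr rfl fun f _ => Finset.sum_congr rfl fun σ _ => ?_
    ring
  have h4 : ∑ τ : Equiv.Perm (Fin (2 * m)), G τ = ∑ f, G f := by
    refine Finset.sum_of_injOn (fun τ : Equiv.Perm (Fin (2 * m)) => (τ : Fin (2 * m) → Fin (2 * m)))
      (fun a _ b _ hab => DFunLike.coe_injective hab) (fun _ _ => Finset.mem_coe.2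
        (Finset.mem_univ _)) (fun f _ hf => ?_) (fun _ _ => rfl)
    rw [hdet]
    have h5 : ¬ Function.Injective f := by
      intro hinj
      exact hf ⟨Equiv.ofBijective f (Finite.injective_iff_bijective.1 hinj),
        Finset.mem_coe.2 (Finset.mem_univ _), rfl⟩
    rw [Function.not_injective_iff] at h5
    obtain ⟨a, b, hab, hne⟩ := h5
    rw [Matrix.det_zero_of_row_eq hne (by
      funext j
      show e (f a) j = e (f b) j
      rw [hab]), mul_zero]
  rw [h1, ← h4, hpf, Finset.mul_sum]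
  refine Finset.sum_congr rfl fun τ _ => ?_
  rw [hdet, Matrix.det_permute]
  ring

/-- Unfolding: the integral over the space is the integral over the fundamental domain of the sum over
the group. -/
theorem Act.Fund.unfold {G : Type*} [Group G] [Countable G] {a : Act G N} {F : Set (V N)}
    (hF : a.Fund F) (ori : ∀ γ y, 0 < (jac (a.act γ) y).det) {f : V N → ℝ} (hf : Continuous f)
    {B : ℝ} (hB : ∀ y ∈ F, ∀ S : Finset G,
      ∑ γ ∈ S, |(jac (a.act γ) y).det * f (a.act γ y)| ≤ B) :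
    Integrable f ∧ ∫ y, f y = ∫ y in F, ∑' γ : G, (jac (a.act γ) y).det * f (a.act γ y) := by
  have hd : ∀ γ, ∀ y ∈ F, HasFDerivWithinAt (a.act γ) (fderiv ℝ (a.act γ) y) F y := fun γ y _ =>
    (((a.smooth γ).differentiable (by simp)) y).hasFDerivAt.hasFDerivWithinAt
  have hinj : ∀ γ, Set.InjOn (a.act γ) F := by
    intro γ x _ y _ hxy
    have h1 := congrArg (a.act γ⁻¹) hxy
    rwa [← a.mul, ← a.mul, inv_mul_cancel, a.one, a.one] at h1
  have hdisj : Pairwise (Function.onFun Disjoint fun γ : G => a.act γ '' F) := by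
    intro γ δ hne
    rw [Function.onFun, Set.disjoint_left]
    intro y h1 h2
    exact hne ((hF.part y).unique h1 h2)
  have huniv : (⋃ γ : G, a.act γ '' F) = Set.univ := by
    rw [Set.eq_univ_iff_forall]
    intro y
    obtain ⟨γ, h1, -⟩ := hF.part y
    exact Set.mem_iUnion.2 ⟨γ, h1⟩
  have hjm : ∀ γ, Continuous fun y => (jac (a.act γ) y).det := by
    intro γ
    refine Continuous.matrix_det ?_
    exact continuous_matrix fun i j => (contDiff_jac (a.smooth γ) i j).continuous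
  have hgm : ∀ γ, Continuous fun y => (jac (a.act γ) y).det * f (a.act γ y) := fun γ =>
    (hjm γ).mul (hf.comp (a.smooth γ).continuous)
  have hvol : volume F < ⊤ := hF.bdd.measure_lt_top
  have h1 : ∑' γ : G, ∫⁻ y in F, ‖(jac (a.act γ) y).det * f (a.act γ y)‖ₑ
      = ∫⁻ y, ‖f y‖ₑ := by
    rw [← setLIntegral_univ, ← huniv, lintegral_iUnion (fun γ => hF.meas_image γ) hdisj]
    refine tsum_congr fun γ => ?_
    rw [lintegral_image_eq_lintegral_abs_det_fderiv_mul volume hF.meas (hd γ) (hinj γ)]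
    refine lintegral_congr fun y => ?_
    rw [jac_det, abs_of_pos (ori γ y), enorm_mul, Real.enorm_of_nonneg (ori γ y).le]
  have h2 : ∑' γ : G, ∫⁻ y in F, ‖(jac (a.act γ) y).det * f (a.act γ y)‖ₑ < ⊤ := by
    rw [← lintegral_tsum fun γ => (hgm γ).measurable.enorm.aemeasurable]
    have h3 : ∀ y ∈ F, ∑' γ : G, ‖(jac (a.act γ) y).det * f (a.act γ y)‖ₑ ≤ ENNReal.ofReal B := by
      intro y hy
      rw [ENNReal.tsum_eq_iSup_sum]
      refine iSup_le fun S => ?_
      have h4 : ∑ γ ∈ S, ‖(jac (a.act γ) y).det * f (a.act γ y)‖ₑ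
          = ENNReal.ofReal (∑ γ ∈ S, |(jac (a.act γ) y).det * f (a.act γ y)|) := by
        rw [ENNReal.ofReal_sum_of_nonneg fun _ _ => abs_nonneg _]
        exact Finset.sum_congr rfl fun γ _ => Real.enorm_eq_ofReal_abs _
      rw [h4]
      exact ENNReal.ofReal_le_ofReal (hB y hy S)
    calc ∫⁻ y in F, ∑' γ : G, ‖(jac (a.act γ) y).det * f (a.act γ y)‖ₑ
        ≤ ∫⁻ y in F, ENNReal.ofReal B := setLIntegral_mono measurable_const h3
      _ = ENNReal.ofReal B * volume F := setLIntegral_const _ _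
      _ < ⊤ := ENNReal.mul_lt_top ENNReal.ofReal_lt_top hvol
  have hint : Integrable f := ⟨hf.aestronglyMeasurable, by
    rw [hasFiniteIntegral_iff_enorm, ← h1]
    exact h2⟩
  refine ⟨hint, ?_⟩
  have hi : ∀ γ, Integrable (fun y => (jac (a.act γ) y).det * f (a.act γ y))
      (volume.restrict F) := fun γ => ⟨(hgm γ).aestronglyMeasurable, by
    rw [hasFiniteIntegral_iff_enorm]
    exact (ENNReal.le_tsum γ).trans_lt h2⟩
  have h5 : HasSum (fun γ : G => ∫ y in a.act γ '' F, f y) (∫ y, f y) := by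
    have h6 := hasSum_integral_iUnion (μ := volume) (f := f) (fun γ => hF.meas_image γ) hdisj
      hint.integrableOn
    rwa [huniv, setIntegral_univ] at h6
  have h7 : (fun γ : G => ∫ y in a.act γ '' F, f y)
      = fun γ => ∫ y in F, (jac (a.act γ) y).det * f (a.act γ y) := by
    funext γ
    rw [integral_image_eq_integral_abs_det_fderiv_smul volume hF.meas (hd γ) (hinj γ)]
    refine integral_congr_ae (Filter.Eventually.of_forall fun y => ?_)
    simp only [smul_eq_mul]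
    rw [jac_det, abs_of_pos (ori γ y)]
  rw [h7] at h5
  rw [← h5.tsum_eq]
  refine (integral_tsum (fun γ => (hgm γ).aestronglyMeasurable) ?_).symm
  exact h2.ne

end Pool.Agent.Lib.MP_df705a_gt.RL
end
end
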