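import Mathlib
import Pool.Agent.Lib.MP_df705a_gt.Mg.G072

section

/-!
# SV, block C, part 2: the loop integral as a two-point integral
-/

open scoped ENNReal NNReal Topology
open MeasureTheory Filter Set

set_option autoImplicit false
set_option linter.unusedSectionVars false

noncomputable section

namespace Pool.Agent.Lib.MP_df705a_gt.SV

variable {X : Type*} [MeasurableSpace X] {μ : Measure X} [SigmaFinite μ]
variable {A : Type*} [NormedRing A] [NormedAlgebra ℂ A]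

/-- Merging the last two kernels. -/
def mg (μ : Measure X) {n : ℕ} (k : Fin (n + 2) → X → X → A) : Fin (n + 1) → X → X → A :=
  Fin.snoc (α := fun _ => X → X → A) (fun i : Fin n => k i.castSucc.castSucc)
    (comp μ (k (Fin.last n).castSucc) (k (Fin.last (n + 1))))

/-- Iterated composition. -/
def rc (μ : Measure X) : (n : ℕ) → (Fin (n + 1) → X → X → A) → X → X → A
  | 0, k => k 0
  | n + 1, k => comp μ (k 0) (rc μ n fun i => k i.succ)

theorem mg_meas {n : ℕ} {k : Fin (n + 2) → X → X → A}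
    (hk : ∀ i, StronglyMeasurable (Function.uncurry (k i))) (i : Fin (n + 1)) :
    StronglyMeasurable (Function.uncurry (mg μ k i)) := by
  refine Fin.lastCases ?_ (fun j => ?_) i
  · rw [mg, Fin.snoc_last]
    exact comp_meas (hk _) (hk _)
  · rw [mg, Fin.snoc_castSucc]
    exact hk _

theorem mg_zero {n : ℕ} (k : Fin (n + 3) → X → X → A) : mg μ k 0 = k 0 := by
  rw [mg, show (0 : Fin (n + 2)) = (0 : Fin (n + 1)).castSucc from rfl, Fin.snoc_castSucc]
  rfl

theorem mg_succ {n : ℕ} (k : Fin (n + 3) → X → X → A) :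
    (fun i : Fin (n + 1) => mg μ k i.succ) = mg μ fun i => k i.succ := by
  funext i
  refine Fin.lastCases ?_ (fun j => ?_) i
  · rw [mg, mg, Fin.succ_last, Fin.snoc_last, Fin.snoc_last]
    rfl
  · rw [mg, mg, Fin.succ_castSucc, Fin.snoc_castSucc, Fin.snoc_castSucc]
    rfl

theorem rc_mg : ∀ {n : ℕ} (k : Fin (n + 2) → X → X → A), rc μ n (mg μ k) = rc μ (n + 1) k := by
  intro n
  induction n with
  | zero =>
    intro k
    rfl
  | succ n ih =>
    intro k
    show comp μ (mg μ k 0) (rc μ n fun i => mg μ k i.succ) = comp μ (k 0) (rc μ (n + 1) fun i => k i.succ)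
    rw [mg_zero, mg_succ, ih]

/-- the norm of a composition -/
theorem C2_comp_le {a b : X → X → A} {K L : X → X → ℝ≥0∞} (ha : ∀ x y, ‖a x y‖ₑ ≤ K x y)
    (hb : ∀ x y, ‖b x y‖ₑ ≤ L x y) (x y : X) : ‖comp μ a b x y‖ₑ ≤ kc μ K L x y := by
  unfold comp kc
  refine (enorm_integral_le_lintegral_enorm _).trans (lintegral_mono fun z => ?_)
  have h3 : ‖a x z * b z y‖₊ ≤ ‖a x z‖₊ * ‖b z y‖₊ := nnnorm_mul_le _ _
  have h4 : ((‖a x z * b z y‖₊ : ℝ≥0) : ℝ≥0∞) ≤ ((‖a x z‖₊ * ‖b z y‖₊ : ℝ≥0) : ℝ≥0∞) := by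
    exact_mod_cast h3
  rw [ENNReal.coe_mul] at h4
  exact h4.trans (mul_le_mul' (ha _ _) (hb _ _))

theorem mg_le {n : ℕ} {k : Fin (n + 2) → X → X → A} {K : Fin (n + 2) → X → X → ℝ≥0∞}
    (hkK : ∀ i x y, ‖k i x y‖ₑ ≤ K i x y) (i : Fin (n + 1)) (x y : X) :
    ‖mg μ k i x y‖ₑ ≤ mgE μ K i x y := by
  refine Fin.lastCases ?_ (fun j => ?_) i
  · rw [mg, mgE, Fin.snoc_last, Fin.snoc_last]
    exact C2_comp_le (hkK _) (hkK _) x y
  · rw [mg, mgE, Fin.snoc_castSucc, Fin.snoc_castSucc]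
    exact hkK _ _ _

theorem rc_le : ∀ {n : ℕ} {k : Fin (n + 1) → X → X → A} {K : Fin (n + 1) → X → X → ℝ≥0∞},
    (∀ i x y, ‖k i x y‖ₑ ≤ K i x y) → ∀ x y, ‖rc μ n k x y‖ₑ ≤ rcE μ n K x y := by
  intro n
  induction n with
  | zero =>
    intro k K h x y
    exact h 0 x y
  | succ n ih =>
    intro k K h x y
    exact C2_comp_le (h 0) (ih fun i => h i.succ) x y

/-- Being of class `KB` for some constants. -/
def IsKB (μ : Measure X) (w : X → X → ℝ) (p : ℝ) (a : X → X → A) : Prop := ∃ c₁ c, KB μ w p a c₁ c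

theorem IsKB.meas {w : X → X → ℝ} {p : ℝ} {a : X → X → A} (h : IsKB μ w p a) :
    StronglyMeasurable (Function.uncurry a) := by
  obtain ⟨_, _, h⟩ := h
  exact h.meas

theorem IsKB.comp {w : X → X → ℝ} {p : ℝ} {a b : X → X → A} (hw : Wt w) (hp : 1 ≤ p)
    (ha : IsKB μ w p a) (hb : IsKB μ w p b) : IsKB μ w p (SV.comp μ a b) := by
  obtain ⟨_, _, ha⟩ := ha
  obtain ⟨_, _, hb⟩ := hb
  exact ⟨_, _, ha.comp hw hp hb⟩

theorem mg_IsKB {w : X → X → ℝ} {p : ℝ} (hw : Wt w) (hp : 1 ≤ p) {n : ℕ}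
    {k : Fin (n + 2) → X → X → A} (hk : ∀ i, IsKB μ w p (k i)) (i : Fin (n + 1)) :
    IsKB μ w p (mg μ k i) := by
  refine Fin.lastCases ?_ (fun j => ?_) i
  · rw [mg, Fin.snoc_last]
    exact (hk _).comp hw hp (hk _)
  · rw [mg, Fin.snoc_castSucc]
    exact hk _

theorem rc_IsKB {w : X → X → ℝ} {p : ℝ} (hw : Wt w) (hp : 1 ≤ p) : ∀ {n : ℕ}
    {k : Fin (n + 1) → X → X → A}, (∀ i, IsKB μ w p (k i)) → IsKB μ w p (rc μ n k) := by
  intro n
  induction n with
  | zero =>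
    intro k hk
    exact hk 0
  | succ n ih =>
    intro k hk
    exact (hk 0).comp hw hp (ih fun i => hk i.succ)

theorem IsKB.ae_int {w : X → X → ℝ} {p : ℝ} {a b : X → X → A} (hw : Wt w)
    (ha : IsKB μ w p a) (hb : IsKB μ w p b) :
    ∀ᵐ t ∂(μ.prod μ), Integrable (fun z => a t.1 z * b z t.2) μ := by
  obtain ⟨_, _, ha⟩ := ha
  obtain ⟨_, _, hb⟩ := hb
  exact ha.ae_integrable hw hb

variable {w : X → X → ℝ} {p : ℝ} {τ : A →L[ℂ] ℂ} {F : Set X} {g : X → ℝ}

/-- integrating out the last variable -/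
theorem C2_integral_merge {n : ℕ} {E : Type*} [NormedAddCommGroup E] [NormedSpace ℝ E]
    [CompleteSpace E] {F : Set X} (Φ : (Fin (n + 2) → X) → E)
    (hint : IntegrableOn Φ {x : Fin (n + 2) → X | x 0 ∈ F} (Measure.pi fun _ => μ))
    (hF : MeasurableSet F) :
    ∫ x in {x : Fin (n + 2) → X | x 0 ∈ F}, Φ x ∂(Measure.pi fun _ => μ) =
      ∫ y in {y : Fin (n + 1) → X | y 0 ∈ F}, (∫ z, Φ (Fin.snoc y z) ∂μ)
        ∂(Measure.pi fun _ => μ) := by
  have hmp := (measurePreserving_piFinSuccAbove (fun _ : Fin (n + 2) => μ) (Fin.last (n + 1)))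
  have hemb := (MeasurableEquiv.piFinSuccAbove (fun _ : Fin (n + 2) => X)
    (Fin.last (n + 1))).measurableEmbedding
  have hset : {x : Fin (n + 2) → X | x 0 ∈ F} =
      (MeasurableEquiv.piFinSuccAbove (fun _ : Fin (n + 2) => X) (Fin.last (n + 1))) ⁻¹'
        (Set.univ ×ˢ {y : Fin (n + 1) → X | y 0 ∈ F}) := by
    ext x
    simp only [Set.mem_setOf_eq, Set.mem_preimage, Set.mem_prod, Set.mem_univ, true_and]
    rfl
  have hfun : Φ = fun x => (fun p : X × (Fin (n + 1) → X) => Φ (Fin.snoc p.2 p.1))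
      ((MeasurableEquiv.piFinSuccAbove (fun _ : Fin (n + 2) => X) (Fin.last (n + 1))) x) := by
    funext x
    show Φ x = Φ (Fin.snoc (fun j => x ((Fin.last (n + 1)).succAbove j)) (x (Fin.last (n + 1))))
    congr 1
    have : (fun j => x ((Fin.last (n + 1)).succAbove j)) = Fin.init x := by
      funext j
      rw [Fin.succAbove_last]
      rfl
    rw [this, Fin.snoc_init_self]
  have hint' : IntegrableOn (fun p : X × (Fin (n + 1) → X) => Φ (Fin.snoc p.2 p.1))
      (Set.univ ×ˢ {y : Fin (n + 1) → X | y 0 ∈ F}) (μ.prod (Measure.pi fun _ => μ)) := by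
    rw [hfun, hset] at hint
    exact (hmp.integrableOn_comp_preimage hemb).1 hint
  conv_lhs => rw [hfun, hset]
  rw [hmp.setIntegral_preimage_emb hemb (fun p : X × (Fin (n + 1) → X) => Φ (Fin.snoc p.2 p.1)) _]
  rw [IntegrableOn, ← Measure.prod_restrict, Measure.restrict_univ] at hint'
  rw [← Measure.prod_restrict, Measure.restrict_univ, integral_prod_symm _ hint']

section Complete

variable [CompleteSpace A]

/-- the inner integral -/
theorem C2_inner {a b : X → X → A} (c : ℂ) (P : A) (x y : X)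
    (h : Integrable (fun z => a x z * b z y) μ) :
    ∫ z, c * τ (P * (a x z * b z y)) ∂μ = c * τ (P * comp μ a b x y) := by
  have h1 : ∫ z, P * (a x z * b z y) ∂μ = P * comp μ a b x y := int_const_mul P h
  have h2 : Integrable (fun z => P * (a x z * b z y)) μ := h.const_mul P
  have h3 := τ.integral_comp_comm h2
  rw [h1] at h3
  rw [integral_const_mul, h3]

theorem TT_merge {n : ℕ} (hF : MeasurableSet F) (hg : Measurable g) {k : Fin (n + 3) → X → X → A}
    (hw : Wt w) (hk : ∀ i, IsKB μ w p (k i)) {K : Fin (n + 3) → X → X → ℝ≥0∞}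
    (hkK : ∀ i x y, ‖k i x y‖ₑ ≤ K i x y)
    (H : LI μ (F.indicator fun x => ‖g x‖ₑ) K < ∞) :
    TT μ τ F (fun x : Fin (n + 3) → X => g (x 0)) k =
      TT μ τ F (fun x : Fin (n + 2) → X => g (x 0)) (mg μ k) := by
  have hint := C1_int τ hF hg (fun i => (hk i).meas) hkK H
  unfold TT
  rw [C2_integral_merge _ hint hF]
  have h1 := (hk (Fin.last (n + 1)).castSucc).ae_int hw (hk (Fin.last (n + 2)))
  have hne : (Fin.last (n + 1) : Fin (n + 2)) ≠ 0 := by
    intro h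
    have := congrArg Fin.val h
    simp at this
  have h2 := C1_pair_ae (μ := μ) hne h1
  refine integral_congr_ae (ae_restrict_of_ae ?_)
  filter_upwards [h2] with y hy
  have h3 : ∀ z, ((g ((Fin.snoc y z : Fin (n + 3) → X) 0) : ℝ) : ℂ) *
      τ (loop k (Fin.snoc y z : Fin (n + 3) → X)) = (g (y 0) : ℂ) *
        τ ((List.ofFn fun i : Fin (n + 1) => k i.castSucc.castSucc (y i.castSucc)
          (y (i.castSucc + 1))).prod * (k (Fin.last (n + 1)).castSucc (y (Fin.last (n + 1))) z *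
            k (Fin.last (n + 2)) z (y 0))) := by
    intro z
    rw [C1_loop_snoc]
    rfl
  rw [integral_congr_ae (Filter.Eventually.of_forall h3), C2_inner _ _ _ _ hy, C1_loop_last]
  simp only [mg, Fin.snoc_castSucc, Fin.snoc_last]

/-- the two-point form -/
def Q2 (μ : Measure X) (τ : A →L[ℂ] ℂ) (F : Set X) (g : X → ℝ) (a b : X → X → A) : ℂ :=
  ∫ x in F, ∫ y, (g x : ℂ) * τ (a x y * b y x) ∂μ ∂μ

theorem TT_two (hF : MeasurableSet F) (hg : Measurable g) {k : Fin 2 → X → X → A}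
    (hk : ∀ i, IsKB μ w p (k i)) {K : Fin 2 → X → X → ℝ≥0∞}
    (hkK : ∀ i x y, ‖k i x y‖ₑ ≤ K i x y)
    (H : LI μ (F.indicator fun x => ‖g x‖ₑ) K < ∞) :
    TT μ τ F (fun x : Fin 2 → X => g (x 0)) k = Q2 μ τ F g (k 0) (k 1) := by
  have hint := C1_int τ hF hg (fun i => (hk i).meas) hkK H
  unfold TT Q2
  rw [C2_integral_merge _ hint hF]
  have hmp := measurePreserving_funUnique μ (Fin 1)
  have hemb := (MeasurableEquiv.funUnique (Fin 1) X).measurableEmbedding
  have hset : {y : Fin 1 → X | y 0 ∈ F} = (MeasurableEquiv.funUnique (Fin 1) X) ⁻¹' F := rfl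
  rw [hset, ← hmp.setIntegral_preimage_emb hemb (fun x => ∫ y, (g x : ℂ) * τ (k 0 x y * k 1 y x) ∂μ)]
  refine integral_congr_ae (Filter.Eventually.of_forall fun y => ?_)
  refine integral_congr_ae (Filter.Eventually.of_forall fun z => ?_)
  show ((g ((Fin.snoc y z : Fin 2 → X) 0) : ℝ) : ℂ) * τ (loop k (Fin.snoc y z : Fin 2 → X)) =
    (g (y 0) : ℂ) * τ (k 0 (y 0) z * k 1 z (y 0))
  rw [C1_loop_snoc]
  simp only [List.ofFn_zero, List.prod_nil, one_mul]
  rfl

theorem TT_pair : ∀ {n : ℕ} (_ : MeasurableSet F) (_ : Measurable g) {k : Fin (n + 2) → X → X → A}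
    (_ : Wt w) (_ : 1 ≤ p) (_ : ∀ i, IsKB μ w p (k i)) {K : Fin (n + 2) → X → X → ℝ≥0∞}
    (_ : ∀ i, Measurable (Function.uncurry (K i)))
    (_ : ∀ i x y, ‖k i x y‖ₑ ≤ K i x y)
    (_ : LI μ (F.indicator fun x => ‖g x‖ₑ) K < ∞),
    TT μ τ F (fun x : Fin (n + 2) → X => g (x 0)) k =
      Q2 μ τ F g (k 0) (rc μ n fun i => k i.succ) := by
  intro n
  induction n with
  | zero =>
    intro hF hg k hw hp hk K hK hkK H
    exact TT_two hF hg hk hkK H
  | succ n ih =>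
    intro hF hg k hw hp hk K hK hkK H
    have hG : Measurable (F.indicator fun x => ‖g x‖ₑ) := hg.enorm.indicator hF
    rw [TT_merge hF hg hw hk hkK H]
    rw [ih hF hg hw hp (mg_IsKB hw hp hk) (mgE_meas hK) (mg_le hkK) (by rw [LI_merge hG hK]; exact H)]
    rw [mg_zero, mg_succ, rc_mg]

theorem Q2_congr (hF : MeasurableSet F) {a b b' : X → X → A} (h : KEq μ b b') :
    Q2 μ τ F g a b = Q2 μ τ F g a b' := by
  unfold Q2
  refine integral_congr_ae (ae_restrict_of_ae ?_)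
  filter_upwards [Measure.ae_ae_of_ae_prod (ae_swap' h)] with x hx
  refine integral_congr_ae ?_
  filter_upwards [hx] with y hy
  show (g x : ℂ) * τ (a x y * b y x) = (g x : ℂ) * τ (a x y * b' y x)
  have hy' : b y x = b' y x := hy
  rw [hy']

/-- moving a factor -/
theorem Q2_assoc (hF : MeasurableSet F) (hg : Measurable g) {a b c : X → X → A} (hw : Wt w)
    (ha : IsKB μ w p a) (hb : IsKB μ w p b) (hc : IsKB μ w p c)
    {K L M : X → X → ℝ≥0∞} (hK : Measurable (Function.uncurry K))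
    (hL : Measurable (Function.uncurry L)) (hM : Measurable (Function.uncurry M))
    (hKa : ∀ x y, ‖a x y‖ₑ ≤ K x y) (hLb : ∀ x y, ‖b x y‖ₑ ≤ L x y) (hMc : ∀ x y, ‖c x y‖ₑ ≤ M x y)
    (H : PE μ (F.indicator fun x => ‖g x‖ₑ) (kc μ K L) M < ∞) :
    Q2 μ τ F g (comp μ a b) c = Q2 μ τ F g a (comp μ b c) := by
  have hG : Measurable (F.indicator fun x => ‖g x‖ₑ) := hg.enorm.indicator hF
  unfold PE at H
  have h1 := ae_lt_top (PE_meas hG (kc_meas hK hL) hM) H.ne
  have h2 : ∀ᵐ x ∂μ, ∀ᵐ z ∂μ, Integrable (fun u => a x u * b u z) μ :=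
    Measure.ae_ae_of_ae_prod (ha.ae_int hw hb)
  have h3 : ∀ᵐ x ∂μ, ∀ᵐ u ∂μ, Integrable (fun z => b u z * c z x) μ :=
    Measure.ae_ae_of_ae_prod (ae_swap' (hb.ae_int hw hc))
  unfold Q2
  refine setIntegral_congr_ae hF ?_
  filter_upwards [h1, h2, h3] with x h4 h5 h6 hx
  rw [Set.indicator_of_mem hx] at h4
  by_cases hgx : g x = 0
  · simp only [hgx, Complex.ofReal_zero, zero_mul, integral_zero]
  have h7 : ∫⁻ y, kc μ K L x y * M y x ∂μ < ∞ := by
    by_contra h8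
    rw [not_lt, top_le_iff] at h8
    rw [h8, ENNReal.mul_top (by simpa using hgx)] at h4
    exact lt_irrefl _ h4
  have hm : StronglyMeasurable fun s : X × X => a x s.2 * b s.2 s.1 * c s.1 x :=
    ((ha.meas.comp_measurable (measurable_const.prodMk measurable_snd)).mul
      (hb.meas.comp_measurable measurable_swap)).mul
      (hc.meas.comp_measurable (measurable_fst.prodMk measurable_const))
  have h8 : Integrable (Function.uncurry fun z u => a x u * b u z * c z x) (μ.prod μ) := by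
    refine ⟨hm.aestronglyMeasurable, ?_⟩
    refine lt_of_le_of_lt ?_ h7
    show ∫⁻ s : X × X, ‖a x s.2 * b s.2 s.1 * c s.1 x‖ₑ ∂(μ.prod μ) ≤ _
    rw [lintegral_prod _ hm.enorm.aemeasurable]
    refine lintegral_mono fun z => ?_
    have mu1 : Measurable fun u => K x u * L u z :=
      (hK.comp (measurable_const.prodMk measurable_id)).mul
        (hL.comp (measurable_id.prodMk measurable_const))
    show ∫⁻ u, ‖a x u * b u z * c z x‖ₑ ∂μ ≤ (∫⁻ u, K x u * L u z ∂μ) * M z x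
    rw [← lintegral_mul_const _ mu1]
    refine lintegral_mono fun u => ?_
    have e1 : ‖a x u * b u z * c z x‖ₑ ≤ ‖a x u‖ₑ * ‖b u z‖ₑ * ‖c z x‖ₑ := by
      have h3 : ‖a x u * b u z * c z x‖₊ ≤ ‖a x u‖₊ * ‖b u z‖₊ * ‖c z x‖₊ :=
        (nnnorm_mul_le _ _).trans (by
          gcongr
          exact nnnorm_mul_le _ _)
      have h4 : ((‖a x u * b u z * c z x‖₊ : ℝ≥0) : ℝ≥0∞) ≤
          ((‖a x u‖₊ * ‖b u z‖₊ * ‖c z x‖₊ : ℝ≥0) : ℝ≥0∞) := by
        exact_mod_cast h3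
      rw [ENNReal.coe_mul, ENNReal.coe_mul] at h4
      exact h4
    exact e1.trans (mul_le_mul' (mul_le_mul' (hKa _ _) (hLb _ _)) (hMc _ _))
  have h9 : Integrable (Function.uncurry fun z u => τ (a x u * b u z * c z x)) (μ.prod μ) :=
    τ.integrable_comp h8
  rw [integral_const_mul, integral_const_mul]
  congr 1
  calc ∫ y, τ (comp μ a b x y * c y x) ∂μ = ∫ z, ∫ u, τ (a x u * b u z * c z x) ∂μ ∂μ := by
        refine integral_congr_ae ?_
        filter_upwards [h5] with z hz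
        have e1 : comp μ a b x z * c z x = ∫ u, a x u * b u z * c z x ∂μ := (int_mul_const _ hz).symm
        show τ (comp μ a b x z * c z x) = ∫ u, τ (a x u * b u z * c z x) ∂μ
        rw [e1]
        exact (τ.integral_comp_comm (hz.mul_const (c z x))).symm
    _ = ∫ u, ∫ z, τ (a x u * b u z * c z x) ∂μ ∂μ := integral_integral_swap h9
    _ = ∫ u, τ (a x u * comp μ b c u x) ∂μ := by
        refine integral_congr_ae ?_
        filter_upwards [h6] with u hu
        have e1 : a x u * comp μ b c u x = ∫ z, a x u * (b u z * c z x) ∂μ := (int_const_mul _ hu).symm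
        show ∫ z, τ (a x u * b u z * c z x) ∂μ = τ (a x u * comp μ b c u x)
        rw [e1]
        have e2 := τ.integral_comp_comm (hu.const_mul (a x u))
        rw [← e2]
        simp only [mul_assoc]

end Complete

end Pool.Agent.Lib.MP_df705a_gt.SV
end
end

section

/-!
# SV, block C, part 3: moving the factors `r` around the loop
-/

open scoped ENNReal NNReal Topology
open MeasureTheory Filter Set

set_option autoImplicit false
set_option linter.unusedSectionVars false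

noncomputable section

namespace Pool.Agent.Lib.MP_df705a_gt.SV

variable {X : Type*} [MeasurableSpace X] {μ : Measure X} [SigmaFinite μ]
variable {A : Type*} [NormedRing A] [NormedAlgebra ℂ A]
variable {w : X → X → ℝ} {p : ℝ}

theorem C3_snoc_succ {Z : Type*} {n : ℕ} (f : Fin (n + 1) → Z) (r : Z) :
    (fun i : Fin (n + 1) => (Fin.snoc (α := fun _ => Z) f r : Fin (n + 2) → Z) i.succ) =
      Fin.snoc (α := fun _ => Z) (fun j : Fin n => f j.succ) r := by
  funext i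
  refine Fin.lastCases ?_ (fun j => ?_) i
  · rw [Fin.succ_last, Fin.snoc_last, Fin.snoc_last]
  · rw [Fin.succ_castSucc, Fin.snoc_castSucc, Fin.snoc_castSucc]

theorem C3_snoc_zero {Z : Type*} {n : ℕ} (f : Fin (n + 1) → Z) (r : Z) :
    (Fin.snoc (α := fun _ => Z) f r : Fin (n + 2) → Z) 0 = f 0 := by
  rw [show (0 : Fin (n + 2)) = (0 : Fin (n + 1)).castSucc from rfl, Fin.snoc_castSucc]

theorem IsKB.fmul (hw : Wt w) (hp : 1 ≤ p) {r : X → X → A} (hr : IsKB μ w p r) {M : X → A}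
    (hM : StronglyMeasurable M) (hb : ∃ C : ℝ, ∀ x, ‖M x‖ ≤ C) :
    IsKB μ w p (fun x y => M x * r x y) := by
  obtain ⟨c₁, c, h⟩ := hr
  obtain ⟨C, hC⟩ := hb
  exact ⟨_, _, h.fmul hw.meas (by linarith) hM C.toNNReal fun x =>
    (hC x).trans (Real.le_coe_toNNReal C)⟩

section Complete

variable [CompleteSpace A]

/-- the algebra: `(M_0 r) ∘ r ∘ (M_1 r) ∘ r ∘ ⋯ ∘ (M_n r) ∘ r = (M_0 ρ) ∘ ⋯ ∘ (M_n ρ)` -/
theorem C3_alg (hw : Wt w) (hp : 1 ≤ p) {r ρ : X → X → A} (hr : IsKB μ w p r)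
    (h1 : KEq μ (comp μ r r) ρ) : ∀ {n : ℕ} {M : Fin (n + 1) → X → A}
    (_ : ∀ j, StronglyMeasurable (M j)) (_ : ∀ j, ∃ C : ℝ, ∀ x, ‖M j x‖ ≤ C),
    KEq μ (comp μ (fun x y => M 0 x * r x y) (rc μ n (Fin.snoc (α := fun _ => X → X → A)
      (fun j : Fin n => comp μ r (fun x y => M j.succ x * r x y)) r)))
      (rc μ n fun j x y => M j x * ρ x y) := by
  have key : ∀ M : X → A, StronglyMeasurable M → (∃ C : ℝ, ∀ x, ‖M x‖ ≤ C) →
      KEq μ (comp μ (fun x y => M x * r x y) r) (fun x y => M x * ρ x y) := by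
    intro M hM hb
    obtain ⟨_, _, h⟩ := hr
    filter_upwards [comp_fmul hw h h M, h1] with q h2 h3
    rw [h2]
    show M q.1 * comp μ r r q.1 q.2 = M q.1 * ρ q.1 q.2
    rw [h3]
  intro n
  induction n with
  | zero =>
    intro M hM hb
    exact key (M 0) (hM 0) (hb 0)
  | succ n ih =>
    intro M hM hb
    have e1 : rc μ (n + 1) (Fin.snoc (α := fun _ => X → X → A)
        (fun j : Fin (n + 1) => comp μ r (fun x y => M j.succ x * r x y)) r) =
        comp μ (comp μ r (fun x y => M 1 x * r x y)) (rc μ n (Fin.snoc (α := fun _ => X → X → A)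
          (fun j : Fin n => comp μ r (fun x y => M j.succ.succ x * r x y)) r)) := by
      show comp μ _ (rc μ n fun i => _) = _
      rw [C3_snoc_succ, C3_snoc_zero]
      rfl
    rw [e1]
    have kM : ∀ j, IsKB μ w p (fun x y => M j x * r x y) := fun j => hr.fmul hw hp (hM j) (hb j)
    have kR : IsKB μ w p (rc μ n (Fin.snoc (α := fun _ => X → X → A)
        (fun j : Fin n => comp μ r (fun x y => M j.succ.succ x * r x y)) r)) := by
      refine rc_IsKB hw hp fun i => ?_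
      refine Fin.lastCases ?_ (fun j => ?_) i
      · rw [Fin.snoc_last]
        exact hr
      · rw [Fin.snoc_castSucc]
        exact hr.comp hw hp (kM _)
    obtain ⟨_, _, hr'⟩ := hr
    obtain ⟨_, _, k0⟩ := kM 0
    obtain ⟨_, _, k1⟩ := kM 1
    obtain ⟨_, _, kR'⟩ := kR
    have s1 : KEq μ (comp μ (fun x y => M 0 x * r x y) (comp μ (comp μ r (fun x y => M 1 x * r x y))
        (rc μ n (Fin.snoc (α := fun _ => X → X → A)
          (fun j : Fin n => comp μ r (fun x y => M j.succ.succ x * r x y)) r))))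
        (comp μ (fun x y => M 0 x * r x y) (comp μ r (comp μ (fun x y => M 1 x * r x y)
        (rc μ n (Fin.snoc (α := fun _ => X → X → A)
          (fun j : Fin n => comp μ r (fun x y => M j.succ.succ x * r x y)) r))))) :=
      comp_congr_ae (Filter.Eventually.of_forall fun _ => rfl) (comp_assoc hw hr' k1 kR')
    have s2 := comp_assoc hw k0 hr' (k1.comp hw hp kR')
    have s3 : KEq μ (comp μ (comp μ (fun x y => M 0 x * r x y) r) (comp μ (fun x y => M 1 x * r x y)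
        (rc μ n (Fin.snoc (α := fun _ => X → X → A)
          (fun j : Fin n => comp μ r (fun x y => M j.succ.succ x * r x y)) r))))
        (comp μ (fun x y => M 0 x * ρ x y) (rc μ n fun j x y => M j.succ x * ρ x y)) :=
      comp_congr_ae (key (M 0) (hM 0) (hb 0)) (ih (M := fun j => M j.succ) (fun j => hM _) fun j => hb _)
    filter_upwards [s1, s2, s3] with q h2 h3 h4
    rw [h2, ← h3, h4]
    rfl

/-! ## Finiteness -/

theorem LI_le {n : ℕ} (hn : 1 ≤ n) {G : X → ℝ≥0∞} (hG : Measurable G)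
    {K : Fin (n + 1) → X → X → ℝ≥0∞} (hK : ∀ i, Measurable (Function.uncurry (K i)))
    {C : Fin (n + 1) → ℝ≥0} (h : ∀ i, NB μ (((n : ℝ) + 1) / n) (K i) (C i)) :
    LI μ G K ≤ (∫⁻ x, G x ∂μ) * ∏ i, (C i : ℝ≥0∞) := by
  refine cyc_holder K (fun _ => ((n : ℝ) + 1) / n) (fun i => (C i : ℝ≥0∞)) hK
    (fun _ => K_one_le hn) ?_ (fun j => (h j).1) (fun j => (h j).2) 0 G hG
  rw [Finset.sum_congr rfl fun i _ => K_one_sub hn, Finset.sum_const, Finset.card_univ,
    Fintype.card_fin, nsmul_eq_mul]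
  have : ((n : ℝ) + 1) ≠ 0 := by positivity
  push_cast
  field_simp

theorem le_nk (hw : Wt w) (k : X → X → A) (x y : X) : ‖k x y‖ₑ ≤ nk w k x y := by
  unfold nk
  calc ‖k x y‖ₑ = 1 * ‖k x y‖ₑ := (one_mul _).symm
    _ ≤ _ := by
      gcongr
      rw [ENNReal.one_le_ofReal]
      exact hw.one x y

theorem C3_indicator {F : Set X} (hF : MeasurableSet F) (hF' : μ F < ∞) {g : X → ℝ} {C : ℝ}
    (hC : ∀ x ∈ F, |g x| ≤ C) : ∫⁻ x, F.indicator (fun x => ‖g x‖ₑ) x ∂μ < ∞ := by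
  rw [lintegral_indicator hF]
  have h1 : ∫⁻ x in F, ‖g x‖ₑ ∂μ ≤ ∫⁻ _ in F, ENNReal.ofReal C ∂μ := by
    refine setLIntegral_mono measurable_const fun x hx => ?_
    rw [← ofReal_norm]
    exact ENNReal.ofReal_le_ofReal (hC x hx)
  refine lt_of_le_of_lt h1 ?_
  rw [setLIntegral_const]
  exact ENNReal.mul_lt_top ENNReal.ofReal_lt_top hF'

theorem C3_prod_lt {n : ℕ} (C : Fin n → ℝ≥0) : ∏ i, (C i : ℝ≥0∞) < ∞ := by
  rw [← ENNReal.ofNNReal_finsetProd]
  exact ENNReal.coe_lt_top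

/-- **Moving the factors.** -/
theorem C3_main {n : ℕ} (hw : Wt w) {τ : A →L[ℂ] ℂ} {F : Set X} (hF : MeasurableSet F)
    (hF' : μ F < ∞) {g : X → ℝ} (hg : Measurable g) {C : ℝ} (hC : ∀ x ∈ F, |g x| ≤ C)
    {M : Fin (n + 1) → X → A} (hM : ∀ j, StronglyMeasurable (M j))
    (hb : ∀ j, ∃ C : ℝ, ∀ x, ‖M j x‖ ≤ C) {r ρ : X → X → A}
    (hr : IsKB μ w ((((n + 1 : ℕ) : ℝ) + 1) / (n + 1 : ℕ)) r)
    (hρ : StronglyMeasurable (Function.uncurry ρ)) (h1 : KEq μ (comp μ r r) ρ) :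
    TT μ τ F (fun x : Fin (n + 2) → X => g (x 0)) (Fin.snoc (α := fun _ => X → X → A)
      (fun j : Fin (n + 1) => comp μ r (fun x y => M j x * r x y)) r) =
    TT μ τ F (fun x : Fin (n + 2) → X => g (x 0))
      (Fin.cons (α := fun _ => X → X → A) r fun j x y => M j x * ρ x y) := by
  have hp := K_one_le (Nat.succ_pos n)
  have hp0 := K_pos (Nat.succ_pos n)
  have hG : Measurable (F.indicator fun x => ‖g x‖ₑ) := hg.enorm.indicator hF
  have hGf := C3_indicator hF hF' hC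
  have kM : ∀ j, IsKB μ w ((((n + 1 : ℕ) : ℝ) + 1) / (n + 1 : ℕ)) (fun x y => M j x * r x y) :=
    fun j => hr.fmul hw hp (hM j) (hb j)
  have kρ : IsKB μ w ((((n + 1 : ℕ) : ℝ) + 1) / (n + 1 : ℕ)) ρ := by
    obtain ⟨_, _, h⟩ := hr.comp hw hp hr
    refine ⟨_, _, h.congr_ae hp0.le hρ ?_⟩
    filter_upwards [h1] with q hq
    exact hq.symm
  have mr : Measurable (Function.uncurry (nk w r)) := nk_meas hw.meas hr.meas
  have mM : ∀ j, Measurable (Function.uncurry (nk w (fun x y => M j x * r x y))) := fun j =>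
    nk_meas hw.meas (kM j).meas
  -- the left side
  set kL : Fin (n + 2) → X → X → A := Fin.snoc (α := fun _ => X → X → A)
      (fun j : Fin (n + 1) => comp μ r (fun x y => M j x * r x y)) r with hkL
  set KL : Fin (n + 2) → X → X → ℝ≥0∞ := Fin.snoc (α := fun _ => X → X → ℝ≥0∞)
      (fun j : Fin (n + 1) => kc μ (nk w r) (nk w (fun x y => M j x * r x y))) (nk w r) with hKL
  have mL : ∀ i, Measurable (Function.uncurry (KL i)) := by
    intro i
    refine Fin.lastCases ?_ (fun j => ?_) i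
    · rw [hKL, Fin.snoc_last]
      exact mr
    · rw [hKL, Fin.snoc_castSucc]
      exact kc_meas mr (mM j)
  have bL : ∀ i x y, ‖kL i x y‖ₑ ≤ KL i x y := by
    intro i
    refine Fin.lastCases ?_ (fun j => ?_) i
    · rw [hKL, hkL, Fin.snoc_last, Fin.snoc_last]
      exact le_nk hw r
    · rw [hKL, hkL, Fin.snoc_castSucc, Fin.snoc_castSucc]
      exact C2_comp_le (le_nk hw _) (le_nk hw _)
  have kbL : ∀ i, IsKB μ w ((((n + 1 : ℕ) : ℝ) + 1) / (n + 1 : ℕ)) (kL i) := by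
    intro i
    refine Fin.lastCases ?_ (fun j => ?_) i
    · rw [hkL, Fin.snoc_last]
      exact hr
    · rw [hkL, Fin.snoc_castSucc]
      exact hr.comp hw hp (kM j)
  have nL : ∀ i, ∃ c : ℝ≥0, NB μ ((((n + 1 : ℕ) : ℝ) + 1) / (n + 1 : ℕ)) (KL i) c := by
    intro i
    obtain ⟨_, _, h⟩ := hr
    refine Fin.lastCases ?_ (fun j => ?_) i
    · rw [hKL, Fin.snoc_last]
      exact ⟨_, h.np⟩
    · rw [hKL, Fin.snoc_castSucc]
      obtain ⟨_, _, h'⟩ := kM j
      exact ⟨_, NB.young mr (mM j) le_rfl hp hp (by rw [div_one]) h.n1 h'.np⟩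
  choose cL hcL using nL
  have HL : LI μ (F.indicator fun x => ‖g x‖ₑ) KL < ∞ :=
    lt_of_le_of_lt (LI_le (Nat.succ_pos n) hG mL hcL) (ENNReal.mul_lt_top hGf (C3_prod_lt _))
  rw [TT_pair hF hg hw hp kbL mL bL HL]
  -- the right side
  set kR : Fin (n + 2) → X → X → A := Fin.cons (α := fun _ => X → X → A) r
    (fun j x y => M j x * ρ x y) with hkR
  have kbR : ∀ i, IsKB μ w ((((n + 1 : ℕ) : ℝ) + 1) / (n + 1 : ℕ)) (kR i) := by
    intro i
    refine Fin.cases ?_ (fun j => ?_) i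
    · rw [hkR, Fin.cons_zero]
      exact hr
    · rw [hkR, Fin.cons_succ]
      exact kρ.fmul hw hp (hM j) (hb j)
  have HR : LI μ (F.indicator fun x => ‖g x‖ₑ) (fun i => nk w (kR i)) < ∞ := by
    choose c1 c2 hc using kbR
    exact lt_of_le_of_lt (LI_le (Nat.succ_pos n) hG (fun i => nk_meas hw.meas (hc i).meas)
      (fun i => (hc i).np)) (ENNReal.mul_lt_top hGf (C3_prod_lt _))
  rw [TT_pair hF hg hw hp kbR (fun i => nk_meas hw.meas (kbR i).meas) (fun i => le_nk hw _) HR]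
  -- the two-point forms
  have e1 : kL 0 = comp μ r (fun x y => M 0 x * r x y) := C3_snoc_zero _ _
  have e2 : (fun i : Fin (n + 1) => kL i.succ) = Fin.snoc (α := fun _ => X → X → A)
      (fun j : Fin n => comp μ r (fun x y => M j.succ x * r x y)) r := C3_snoc_succ _ _
  have e3 : KL 0 = kc μ (nk w r) (nk w (fun x y => M 0 x * r x y)) := C3_snoc_zero _ _
  have e4 : kR 0 = r := rfl
  have e5 : (fun i : Fin (n + 1) => kR i.succ) = fun j x y => M j x * ρ x y := rfl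
  rw [e1, e4, e5]
  have hPE : PE μ (F.indicator fun x => ‖g x‖ₑ) (kc μ (nk w r) (nk w (fun x y => M 0 x * r x y)))
      (rcE μ n fun i => KL i.succ) < ∞ := by
    rw [← e3, ← LI_pair hG mL]
    exact HL
  rw [Q2_assoc hF hg hw hr (kM 0) (rc_IsKB hw hp fun i => kbL i.succ) mr (mM 0)
    (rcE_meas fun i => mL i.succ) (le_nk hw _) (le_nk hw _) (rc_le fun i => bL i.succ) hPE]
  refine Q2_congr hF ?_
  rw [e2]
  exact C3_alg hw hp hr h1 hM hb

end Complete

/-! ## The argument with `ε` -/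

theorem C3_comm_prod {ε : A} : ∀ {n : ℕ} (b : Fin n → A), (∀ j, b j * ε = -(ε * b j)) →
    (List.ofFn b).prod * ε = (-1 : A) ^ n * (ε * (List.ofFn b).prod) := by
  intro n
  induction n with
  | zero =>
    intro b _
    simp
  | succ n ih =>
    intro b hb
    rw [List.ofFn_succ, List.prod_cons, mul_assoc, ih (fun j => b j.succ) fun j => hb _, pow_succ]
    have h1 : b 0 * ((-1 : A) ^ n * (ε * (List.ofFn fun j => b j.succ).prod)) =
        (-1 : A) ^ n * (b 0 * ε * (List.ofFn fun j => b j.succ).prod) := by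
      rcases Nat.even_or_odd n with h | h
      · rw [h.neg_one_pow]
        simp only [one_mul, mul_assoc]
      · rw [h.neg_one_pow]
        simp only [neg_mul, one_mul, mul_neg, mul_assoc]
    rw [h1, hb 0]
    simp only [neg_mul, mul_neg, mul_one, mul_assoc]

/-- the trace of the odd part vanishes -/
theorem C3_eps {τ : A →L[ℂ] ℂ} (hτ : ∀ x y, τ (x * y) = τ (y * x)) {ε : A} (hε : ε * ε = 1)
    {n : ℕ} (hn : Even n) (b : Fin n → A) (hb : ∀ j, b j * ε = -(ε * b j)) {r ρ : A}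
    (h2 : ρ = (2⁻¹ : ℂ) • (ε * r + r * ε)) :
    τ (r * (List.ofFn b).prod) = τ (ε * ρ * (List.ofFn b).prod) := by
  have hQ := C3_comm_prod b hb
  rw [hn.neg_one_pow, one_mul] at hQ
  set Q := (List.ofFn b).prod with hQd
  -- `τ (ε r ε Q) = τ (r Q)`
  have h3 : τ (ε * r * ε * Q) = τ (r * Q) := by
    have e1 : ε * r * ε * Q = ε * (r * Q * ε) := by
      rw [mul_assoc r Q ε, hQ]
      simp only [mul_assoc]
    rw [e1, hτ, mul_assoc, mul_assoc, hε, mul_one]
  have h4 : ε * ρ * Q = (2⁻¹ : ℂ) • (r * Q + ε * r * ε * Q) := by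
    rw [h2, mul_smul_comm, smul_mul_assoc, mul_add, add_mul, ← mul_assoc ε ε r, hε, one_mul,
      ← mul_assoc ε r ε]
  rw [h4, map_smul, map_add, h3, smul_eq_mul]
  ring

end Pool.Agent.Lib.MP_df705a_gt.SV
end
end

section

/-!
# SV, block C, part 4: products of several factors
-/

open scoped ENNReal NNReal Topology
open MeasureTheory Filter Set

set_option autoImplicit false
set_option linter.unusedSectionVars false

noncomputable section

namespace Pool.Agent.Lib.MP_df705a_gt.SV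

variable {A : Type*} [NormedRing A] [NormedAlgebra ℂ A]

theorem C4_mul_le (a b : A) : ‖a * b‖ₑ ≤ ‖a‖ₑ * ‖b‖ₑ := by
  have h3 : ‖a * b‖₊ ≤ ‖a‖₊ * ‖b‖₊ := nnnorm_mul_le _ _
  have h4 : ((‖a * b‖₊ : ℝ≥0) : ℝ≥0∞) ≤ ((‖a‖₊ * ‖b‖₊ : ℝ≥0) : ℝ≥0∞) := by exact_mod_cast h3
  rw [ENNReal.coe_mul] at h4
  exact h4

theorem C4_mulprod : ∀ {n : ℕ} (x : A) (b : Fin n → A),
    ‖x * (List.ofFn b).prod‖ₑ ≤ ‖x‖ₑ * ∏ i, ‖b i‖ₑ := by
  intro n
  induction n with
  | zero =>
    intro x b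
    simp
  | succ n ih =>
    intro x b
    rw [List.ofFn_succ, List.prod_cons, ← mul_assoc, Fin.prod_univ_succ, ← mul_assoc]
    refine (ih (x * b 0) fun i => b i.succ).trans ?_
    gcongr
    exact C4_mul_le _ _

/-- The factors of the telescoping sum. -/
def tele {n : ℕ} (u v : Fin n → A) (s i : Fin n) : A :=
  if i < s then v i else if i = s then u i - v i else u i

theorem C4_tele_succ {n : ℕ} (u v : Fin (n + 1) → A) :
    ∑ s, ∏ i, ‖tele u v s i‖ₑ = ‖u 0 - v 0‖ₑ * ∏ i : Fin n, ‖u i.succ‖ₑ +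
      ‖v 0‖ₑ * ∑ s, ∏ i, ‖tele (fun i : Fin n => u i.succ) (fun i => v i.succ) s i‖ₑ := by
  rw [Fin.sum_univ_succ]
  have h1 : ∏ i, ‖tele u v 0 i‖ₑ = ‖u 0 - v 0‖ₑ * ∏ i : Fin n, ‖u i.succ‖ₑ := by
    rw [Fin.prod_univ_succ]
    have e0 : tele u v 0 0 = u 0 - v 0 := by
      unfold tele
      rw [if_neg (lt_irrefl _), if_pos rfl]
    have e1 : ∀ i : Fin n, tele u v 0 i.succ = u i.succ := by
      intro i
      unfold tele
      rw [if_neg (by simp), if_neg (Fin.succ_ne_zero i)]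
    rw [e0]
    simp only [e1]
  have h2 : ∀ s : Fin n, ∏ i, ‖tele u v s.succ i‖ₑ =
      ‖v 0‖ₑ * ∏ i, ‖tele (fun i : Fin n => u i.succ) (fun i => v i.succ) s i‖ₑ := by
    intro s
    rw [Fin.prod_univ_succ]
    have e0 : tele u v s.succ 0 = v 0 := by
      unfold tele
      rw [if_pos (Fin.succ_pos s)]
    have e1 : ∀ i : Fin n, tele u v s.succ i.succ =
        tele (fun i : Fin n => u i.succ) (fun i => v i.succ) s i := by
      intro i
      unfold tele
      simp only [Fin.succ_lt_succ_iff, Fin.succ_inj]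
    rw [e0]
    simp only [e1]
  rw [h1, Finset.sum_congr rfl fun s _ => h2 s, Finset.mul_sum]

theorem C4_sub : ∀ {n : ℕ} (x : A) (m u v : Fin n → A),
    ‖x * ((List.ofFn fun i => m i * u i).prod - (List.ofFn fun i => m i * v i).prod)‖ₑ ≤
      ‖x‖ₑ * ((∏ i, ‖m i‖ₑ) * ∑ s, ∏ i, ‖tele u v s i‖ₑ) := by
  intro n
  induction n with
  | zero =>
    intro x m u v
    simp
  | succ n ih =>
    intro x m u v
    have e1 : x * ((List.ofFn fun i => m i * u i).prod - (List.ofFn fun i => m i * v i).prod) =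
        (x * (m 0 * (u 0 - v 0))) * (List.ofFn fun i : Fin n => m i.succ * u i.succ).prod +
        (x * (m 0 * v 0)) * ((List.ofFn fun i : Fin n => m i.succ * u i.succ).prod -
          (List.ofFn fun i : Fin n => m i.succ * v i.succ).prod) := by
      rw [List.ofFn_succ, List.ofFn_succ, List.prod_cons, List.prod_cons]
      noncomm_ring
    rw [e1, C4_tele_succ, Fin.prod_univ_succ]
    have i1 := C4_mulprod (x * (m 0 * (u 0 - v 0))) fun i : Fin n => m i.succ * u i.succ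
    have i2 := ih (x * (m 0 * v 0)) (fun i => m i.succ) (fun i => u i.succ) fun i => v i.succ
    have i3 : ∏ i : Fin n, ‖m i.succ * u i.succ‖ₑ ≤ (∏ i : Fin n, ‖m i.succ‖ₑ) * ∏ i : Fin n, ‖u i.succ‖ₑ := by
      rw [← Finset.prod_mul_distrib]
      exact Finset.prod_le_prod' fun i _ => C4_mul_le _ _
    have i4 : ‖x * (m 0 * (u 0 - v 0))‖ₑ ≤ ‖x‖ₑ * (‖m 0‖ₑ * ‖u 0 - v 0‖ₑ) :=
      (C4_mul_le _ _).trans (mul_le_mul' le_rfl (C4_mul_le _ _))
    have i5 : ‖x * (m 0 * v 0)‖ₑ ≤ ‖x‖ₑ * (‖m 0‖ₑ * ‖v 0‖ₑ) :=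
      (C4_mul_le _ _).trans (mul_le_mul' le_rfl (C4_mul_le _ _))
    calc _ ≤ ‖(x * (m 0 * (u 0 - v 0))) * (List.ofFn fun i : Fin n => m i.succ * u i.succ).prod‖ₑ +
          ‖(x * (m 0 * v 0)) * ((List.ofFn fun i : Fin n => m i.succ * u i.succ).prod -
          (List.ofFn fun i : Fin n => m i.succ * v i.succ).prod)‖ₑ := enorm_add_le _ _
      _ ≤ (‖x‖ₑ * (‖m 0‖ₑ * ‖u 0 - v 0‖ₑ)) * ((∏ i : Fin n, ‖m i.succ‖ₑ) * ∏ i : Fin n, ‖u i.succ‖ₑ) +
          (‖x‖ₑ * (‖m 0‖ₑ * ‖v 0‖ₑ)) * ((∏ i : Fin n, ‖m i.succ‖ₑ) *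
            ∑ s, ∏ i, ‖tele (fun i : Fin n => u i.succ) (fun i => v i.succ) s i‖ₑ) :=
        add_le_add (i1.trans (mul_le_mul' i4 i3)) (i2.trans (mul_le_mul' i5 le_rfl))
      _ = _ := by ring

/-- the difference of two products of at least one factor -/
theorem C4_sub_succ {n : ℕ} (m u v : Fin (n + 1) → A) :
    ‖(List.ofFn fun i => m i * u i).prod - (List.ofFn fun i => m i * v i).prod‖ₑ ≤
      (∏ i, ‖m i‖ₑ) * ∑ s, ∏ i, ‖tele u v s i‖ₑ := by
  have e1 : (List.ofFn fun i => m i * u i).prod - (List.ofFn fun i => m i * v i).prod =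
      (m 0 * (u 0 - v 0)) * (List.ofFn fun i : Fin n => m i.succ * u i.succ).prod +
      (m 0 * v 0) * ((List.ofFn fun i : Fin n => m i.succ * u i.succ).prod -
        (List.ofFn fun i : Fin n => m i.succ * v i.succ).prod) := by
    rw [List.ofFn_succ, List.ofFn_succ, List.prod_cons, List.prod_cons]
    noncomm_ring
  rw [e1, C4_tele_succ, Fin.prod_univ_succ]
  have i1 := C4_mulprod (m 0 * (u 0 - v 0)) fun i : Fin n => m i.succ * u i.succ
  have i2 := C4_sub (m 0 * v 0) (fun i : Fin n => m i.succ) (fun i => u i.succ) fun i => v i.succ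
  have i3 : ∏ i : Fin n, ‖m i.succ * u i.succ‖ₑ ≤ (∏ i : Fin n, ‖m i.succ‖ₑ) * ∏ i : Fin n, ‖u i.succ‖ₑ := by
    rw [← Finset.prod_mul_distrib]
    exact Finset.prod_le_prod' fun i _ => C4_mul_le _ _
  calc _ ≤ ‖(m 0 * (u 0 - v 0)) * (List.ofFn fun i : Fin n => m i.succ * u i.succ).prod‖ₑ +
        ‖(m 0 * v 0) * ((List.ofFn fun i : Fin n => m i.succ * u i.succ).prod -
        (List.ofFn fun i : Fin n => m i.succ * v i.succ).prod)‖ₑ := enorm_add_le _ _
    _ ≤ (‖m 0‖ₑ * ‖u 0 - v 0‖ₑ) * ((∏ i : Fin n, ‖m i.succ‖ₑ) * ∏ i : Fin n, ‖u i.succ‖ₑ) +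
        (‖m 0‖ₑ * ‖v 0‖ₑ) * ((∏ i : Fin n, ‖m i.succ‖ₑ) *
          ∑ s, ∏ i, ‖tele (fun i : Fin n => u i.succ) (fun i => v i.succ) s i‖ₑ) :=
      add_le_add (i1.trans (mul_le_mul' (C4_mul_le _ _) i3)) (i2.trans (mul_le_mul' (C4_mul_le _ _) le_rfl))
    _ = _ := by ring

/-- scalars in front of the factors -/
theorem C4_smul : ∀ {n : ℕ} (c : Fin n → ℂ) (b : Fin n → A),
    (List.ofFn fun i => c i • b i).prod = (∏ i, c i) • (List.ofFn b).prod := by
  intro n
  induction n with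
  | zero =>
    intro c b
    simp
  | succ n ih =>
    intro c b
    rw [List.ofFn_succ, List.prod_cons, ih (fun i => c i.succ) fun i => b i.succ, List.ofFn_succ,
      List.prod_cons, Fin.prod_univ_succ, smul_mul_smul_comm]

/-- series with a bound in `ℝ≥0∞` -/
theorem C4_tsum {I : Type*} {f : I → ℂ} {B : ℝ≥0} (h : ∑' α, ‖f α‖ₑ ≤ (B : ℝ≥0∞)) :
    (Summable fun α => ‖f α‖) ∧ ‖∑' α, f α‖ ≤ B := by
  have h1 : Summable fun α => ‖f α‖₊ := by
    rw [← ENNReal.tsum_coe_ne_top_iff_summable]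
    exact ne_top_of_le_ne_top ENNReal.coe_ne_top h
  have h2 : Summable fun α => ‖f α‖ := NNReal.summable_coe.mpr h1
  refine ⟨h2, (norm_tsum_le_tsum_norm h2).trans ?_⟩
  have h3 : ((∑' α, ‖f α‖₊ : ℝ≥0) : ℝ≥0∞) ≤ B := by
    rw [ENNReal.coe_tsum h1]
    exact h
  have h4 : (∑' α, ‖f α‖₊ : ℝ≥0) ≤ B := by exact_mod_cast h3
  have h5 : ((∑' α, ‖f α‖₊ : ℝ≥0) : ℝ) = ∑' α, ‖f α‖ := by
    rw [NNReal.coe_tsum]
    rfl
  rw [← h5]
  exact_mod_cast h4

end Pool.Agent.Lib.MP_df705a_gt.SV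
end
end

section

/-!
# SV, L2a1: Minkowski's inequality
-/

open scoped ContDiff InnerProductSpace Matrix ENNReal NNReal Topology Real
open MeasureTheory Filter Set

noncomputable section

set_option linter.unusedSectionVars false

namespace Pool.Agent.Lib.MP_df705a_gt.SV

/-- Minkowski's inequality.
PROOF. `B = ∫ b dν`. If `B = ⊤` nothing to prove (`p ≥ 1`). By Hoelder for the measure `b dν` (`b > 0` and `b < ⊤` almost
everywhere): `(∫ f(r,y) dν(r))^p = (∫ (f/b) b dν)^p ≤ B^(p-1) ∫ (f/b)^p b dν`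
(`ENNReal.lintegral_mul_le_Lp_mul_Lq` with `f b^(-(p-1)/p)` and `b^((p-1)/p)`; `p = 1` is Tonelli); integrate over `y`, Tonelli:
`≤ B^(p-1) ∫ b^(1-p) b^p dν = B^p`. -/
theorem minkowski {R Y : Type*} [MeasurableSpace R] [MeasurableSpace Y] {ν : Measure R}
    {μ : Measure Y} [SFinite ν] [SFinite μ] {p : ℝ} (hp : 1 ≤ p) {f : R → Y → ℝ≥0∞}
    (hf : Measurable (Function.uncurry f)) {b : R → ℝ≥0∞} (hb : Measurable b)
    (hb0 : ∀ᵐ r ∂ν, b r ≠ 0) (hb1 : ∀ᵐ r ∂ν, b r ≠ ⊤)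
    (h : ∀ᵐ r ∂ν, ∫⁻ y, f r y ^ p ∂μ ≤ b r ^ p) :
    ∫⁻ y, (∫⁻ r, f r y ∂ν) ^ p ∂μ ≤ (∫⁻ r, b r ∂ν) ^ p := by
  rcases eq_or_lt_of_le hp with rfl | hp1
  · simp only [ENNReal.rpow_one] at h ⊢
    rw [← lintegral_lintegral_swap (hf.aemeasurable)]
    exact lintegral_mono_ae h
  · have hp0 : 0 < p := by linarith
    obtain ⟨q, hpq⟩ : ∃ q : ℝ, p.HolderConjugate q := ⟨_, Real.HolderConjugate.conjExponent hp1⟩
    have hq0 : 0 < q := hpq.symm.pos
    have hpq1 : p * (1 / q) = p - 1 := by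
      have := hpq.div_conj_eq_sub_one
      rw [← this]; ring
    have hfy : ∀ y, Measurable fun r => f r y := fun y =>
      hf.comp (measurable_id.prodMk measurable_const)
    -- Hoelder for every `y`
    have key : ∀ y, (∫⁻ r, f r y ∂ν) ^ p
        ≤ (∫⁻ r, b r ∂ν) ^ (p - 1) * ∫⁻ r, f r y ^ p * b r ^ (-(p - 1)) ∂ν := by
      intro y
      have h1 : ∫⁻ r, f r y ∂ν
          = ∫⁻ r, ((fun r => f r y * b r ^ (-(1 / q))) * fun r => b r ^ (1 / q)) r ∂ν := by
        apply lintegral_congr_ae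
        filter_upwards [hb0, hb1] with r h0 h2
        rw [Pi.mul_apply, mul_assoc, ← ENNReal.rpow_add _ _ h0 h2, neg_add_cancel,
          ENNReal.rpow_zero, mul_one]
      have h2 := ENNReal.lintegral_mul_le_Lp_mul_Lq ν hpq
        (f := fun r => f r y * b r ^ (-(1 / q))) (g := fun r => b r ^ (1 / q))
        (((hfy y).mul (hb.pow_const _)).aemeasurable) ((hb.pow_const _).aemeasurable)
      rw [← h1] at h2
      have h3 : ∫⁻ r, (b r ^ (1 / q)) ^ q ∂ν = ∫⁻ r, b r ∂ν := by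
        apply lintegral_congr
        intro r
        rw [← ENNReal.rpow_mul, one_div_mul_cancel hq0.ne', ENNReal.rpow_one]
      have h4 : ∫⁻ r, (f r y * b r ^ (-(1 / q))) ^ p ∂ν = ∫⁻ r, f r y ^ p * b r ^ (-(p - 1)) ∂ν := by
        apply lintegral_congr
        intro r
        rw [ENNReal.mul_rpow_of_nonneg _ _ hp0.le, ← ENNReal.rpow_mul]
        congr 2
        rw [← hpq1]; ring
      rw [h3, h4] at h2
      calc (∫⁻ r, f r y ∂ν) ^ p
          ≤ ((∫⁻ r, f r y ^ p * b r ^ (-(p - 1)) ∂ν) ^ (1 / p) * (∫⁻ r, b r ∂ν) ^ (1 / q)) ^ p :=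
            ENNReal.rpow_le_rpow h2 hp0.le
        _ = (∫⁻ r, b r ∂ν) ^ (p - 1) * ∫⁻ r, f r y ^ p * b r ^ (-(p - 1)) ∂ν := by
            rw [ENNReal.mul_rpow_of_nonneg _ _ hp0.le, ← ENNReal.rpow_mul, ← ENNReal.rpow_mul,
              one_div_mul_cancel hp0.ne', ENNReal.rpow_one, mul_comm (1 / q) p, hpq1, mul_comm]
    have hm : Measurable (Function.uncurry fun (r : R) (y : Y) => f r y ^ p * b r ^ (-(p - 1))) :=
      (hf.pow_const p).mul ((hb.comp measurable_fst).pow_const _)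
    calc ∫⁻ y, (∫⁻ r, f r y ∂ν) ^ p ∂μ
        ≤ ∫⁻ y, (∫⁻ r, b r ∂ν) ^ (p - 1) * ∫⁻ r, f r y ^ p * b r ^ (-(p - 1)) ∂ν ∂μ :=
          lintegral_mono key
      _ = (∫⁻ r, b r ∂ν) ^ (p - 1) * ∫⁻ y, ∫⁻ r, f r y ^ p * b r ^ (-(p - 1)) ∂ν ∂μ := by
          apply lintegral_const_mul
          exact Measurable.lintegral_prod_left' hm
      _ = (∫⁻ r, b r ∂ν) ^ (p - 1) * ∫⁻ r, ∫⁻ y, f r y ^ p * b r ^ (-(p - 1)) ∂μ ∂ν := by
          rw [lintegral_lintegral_swap (f := fun (r : R) (y : Y) => f r y ^ p * b r ^ (-(p - 1)))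
            hm.aemeasurable]
      _ ≤ (∫⁻ r, b r ∂ν) ^ (p - 1) * ∫⁻ r, b r ∂ν := by
          gcongr (∫⁻ r, b r ∂ν) ^ (p - 1) * ?_
          apply lintegral_mono_ae
          filter_upwards [h, hb0, hb1] with r h1 h2 h3
          rw [lintegral_mul_const]
          · calc (∫⁻ y, f r y ^ p ∂μ) * b r ^ (-(p - 1)) ≤ b r ^ p * b r ^ (-(p - 1)) :=
                  mul_le_mul_left h1 _
              _ = b r := by
                  rw [← ENNReal.rpow_add _ _ h2 h3]
                  have : p + -(p - 1) = 1 := by ring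
                  rw [this, ENNReal.rpow_one]
          · exact (hf.comp (measurable_const.prodMk measurable_id)).pow_const p
      _ = (∫⁻ r, b r ∂ν) ^ p := by
          have h5 := ENNReal.rpow_add_of_nonneg (x := ∫⁻ r, b r ∂ν) (p - 1) 1 (by linarith)
            zero_le_one
          rw [sub_add_cancel, ENNReal.rpow_one] at h5
          exact h5.symm

end Pool.Agent.Lib.MP_df705a_gt.SV
end
end
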