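import Pool.Agent.Lib.MP_df705a_gt.Mg.G082
import Pool.Agent.Lib.MP_df705a_gt.Mg.G035

section

/-!
# SV, L4a1: measurability of the extension
-/

open scoped ContDiff InnerProductSpace Matrix ENNReal NNReal Topology Real
open MeasureTheory Filter Set

noncomputable section

set_option linter.unusedSectionVars false

namespace Pool.Agent.Lib.MP_df705a_gt.SV

open Pool.Agent.Lib.MP_df705a_gt.RL

variable {G : Type*} [Group G] [Countable G] {m : ℕ} {C : Cliff m} {g : Geo (2 * m)}
  {a : Act G (2 * m)} {F : Set (V (2 * m))}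

/-- PROOF. `{y | tl y = γ} = act γ ⁻¹' F` (`tl_mem`, `tl_unique`). -/
theorem measurableSet_tl (hF : a.Fund F) (γ : G) : MeasurableSet {y | tl hF y = γ} := by
  have h1 : {y | tl hF y = γ} = a.act γ ⁻¹' F := by
    ext y
    change tl hF y = γ ↔ a.act γ y ∈ F
    constructor
    · intro h
      rw [← h]
      exact tl_mem hF y
    · intro h
      exact (tl_unique hF h).symm
  rw [h1]
  exact (a.smooth γ).continuous.measurable hF.meas

/-- PROOF. On the measurable set `{q | tl q.1 = γ}` (countably many `γ`, a partition) the function is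
`adj (U γ q.1) * k (γ q.1) (γ q.2) * U γ q.2`, strongly measurable. (Countable union: e.g.
`StronglyMeasurable` of a function which is strongly measurable on every piece: `stronglyMeasurable_of_restrict...` or
by hand: limit of finite sums of indicators over an enumeration of `G`, or `measurable` + separable target `En m`.) -/
theorem stronglyMeasurable_ext (hF : a.Fund F) {U : G → V (2 * m) → En m} (hU : Lifts C g a U)
    {k : V (2 * m) → V (2 * m) → En m} (hk : StronglyMeasurable (Function.uncurry k)) :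
    StronglyMeasurable (Function.uncurry (ext hF U k)) := by
  let _ : MeasurableSpace G := ⊤
  have : MeasurableSingletonClass G := ⟨fun _ => trivial⟩
  have : ProperSpace (En m) := FiniteDimensional.proper ℂ (En m)
  have hadj : Continuous fun A : En m => adj A :=
    (ContinuousLinearMap.adjoint (𝕜 := ℂ) (E := Sp m) (F := Sp m)).continuous
  have htl : Measurable fun q : V (2 * m) × V (2 * m) => tl hF q.1 := by
    refine measurable_to_countable' fun γ => ?_
    exact measurable_fst (measurableSet_tl hF γ)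
  have hγ : ∀ γ : G, StronglyMeasurable fun q : V (2 * m) × V (2 * m) =>
      adj (U γ q.1) * k (a.act γ q.1) (a.act γ q.2) * U γ q.2 := by
    intro γ
    have h1 : StronglyMeasurable fun q : V (2 * m) × V (2 * m) => adj (U γ q.1) :=
      (hadj.comp ((hU γ).smoothU.continuous.comp continuous_fst)).stronglyMeasurable
    have h2 : StronglyMeasurable fun q : V (2 * m) × V (2 * m) => U γ q.2 :=
      ((hU γ).smoothU.continuous.comp continuous_snd).stronglyMeasurable
    have h3 : StronglyMeasurable fun q : V (2 * m) × V (2 * m) =>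
        k (a.act γ q.1) (a.act γ q.2) :=
      hk.comp_measurable (g := fun q : V (2 * m) × V (2 * m) => (a.act γ q.1, a.act γ q.2))
        ((((a.smooth γ).continuous.comp continuous_fst).prodMk
          ((a.smooth γ).continuous.comp continuous_snd)).measurable)
    exact (h1.mul h3).mul h2
  have hG : Measurable fun p : G × (V (2 * m) × V (2 * m)) =>
      adj (U p.1 p.2.1) * k (a.act p.1 p.2.1) (a.act p.1 p.2.2) * U p.1 p.2.2 :=
    measurable_from_prod_countable_right fun γ => (hγ γ).measurable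
  exact (hG.comp (htl.prodMk measurable_id)).stronglyMeasurable

end Pool.Agent.Lib.MP_df705a_gt.SV
end
end

section

/-!
# SV, P1: the formula of Lichnerowicz with a truncation
-/

open scoped ContDiff InnerProductSpace Matrix ENNReal
open MeasureTheory

noncomputable section

namespace Pool.Agent.Lib.MP_df705a_gt.SV

open Pool.Agent.Lib.MP_df705a_gt.RL

variable {m : ℕ}

theorem p1_conn (C : Cliff m) (g : Geo (2 * m)) (B : Pot (2 * m)) (μ : Fin (2 * m))
    (y : V (2 * m)) (u v : Sp m) :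
    ⟪C.conn g B μ y u, v⟫_ℂ = - ⟪u, C.conn g B μ y v⟫_ℂ := by
  have h1 : ⟪C.spin (g.Γ μ y) u, v⟫_ℂ = - ⟪u, C.spin (g.Γ μ y) v⟫_ℂ := by
    have h := C.adj_spin (g.anti μ y)
    rw [← ContinuousLinearMap.adjoint_inner_right, show
      ContinuousLinearMap.adjoint (C.spin (g.Γ μ y)) = - C.spin (g.Γ μ y) from h]
    show ⟪u, -(C.spin (g.Γ μ y) v)⟫_ℂ = _
    rw [inner_neg_right]
  have h2 : ∀ w : Sp m, C.conn g B μ y w
      = C.spin (g.Γ μ y) w + (Complex.I * (B μ y : ℂ)) • w := fun w => rfl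
  rw [h2, h2, inner_add_left, inner_add_right, h1, inner_smul_left, inner_smul_right, map_mul,
    Complex.conj_I, Complex.conj_ofReal]
  ring

theorem p1_conn_re (C : Cliff m) (g : Geo (2 * m)) (B : Pot (2 * m)) (μ : Fin (2 * m))
    (y : V (2 * m)) (u : Sp m) : RCLike.re ⟪C.conn g B μ y u, u⟫_ℂ = 0 := by
  have h := congrArg RCLike.re (p1_conn C g B μ y u u)
  rw [map_neg, inner_re_symm (𝕜 := ℂ) u (C.conn g B μ y u)] at h
  linarith

theorem p1_re (u v : Sp m) : (inner ℝ u v : ℝ) = RCLike.re ⟪u, v⟫_ℂ := by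
  rw [PiLp.inner_apply, PiLp.inner_apply, map_sum]
  refine Finset.sum_congr rfl fun i _ => ?_
  rw [Complex.inner]
  simp [mul_comm]

/-- The connection is metric: `e_a ‖φ‖² = 2 Re ⟪∇_a φ, φ⟫`. -/
theorem frame_normSq (C : Cliff m) (g : Geo (2 * m)) (B : Pot (2 * m))
    {φ : V (2 * m) → Sp m} (hφ : Differentiable ℝ φ) (a : Fin (2 * m)) (y : V (2 * m)) :
    ∑ μ, g.e y μ a * pd μ (fun y => ‖φ y‖ ^ 2) y = 2 * RCLike.re ⟪C.nabE g B a φ y, φ y⟫_ℂ := by
  have h1 : ∀ μ, pd μ (fun y => ‖φ y‖ ^ 2) y = 2 * RCLike.re ⟪pd μ φ y, φ y⟫_ℂ := by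
    intro μ
    have h2 : HasFDerivAt (fun y => ‖φ y‖ ^ 2)
        (2 • (innerSL ℝ (φ y)).comp (fderiv ℝ φ y)) y := (hφ y).hasFDerivAt.norm_sq
    unfold pd
    rw [h2.fderiv]
    have h3 : (inner ℝ (φ y) (fderiv ℝ φ y (bv μ)) : ℝ)
        = RCLike.re ⟪fderiv ℝ φ y (bv μ), φ y⟫_ℂ := by
      rw [inner_re_symm (𝕜 := ℂ)]
      exact p1_re _ _
    rw [← h3]
    simp
  have h4 : ∀ μ, RCLike.re ⟪pd μ φ y, φ y⟫_ℂ = RCLike.re ⟪C.nab g B μ φ y, φ y⟫_ℂ := by
    intro μ
    unfold Cliff.nab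
    rw [inner_add_left, map_add, p1_conn_re, add_zero]
  unfold Cliff.nabE
  rw [sum_inner, map_sum, Finset.mul_sum]
  refine Finset.sum_congr rfl fun μ _ => ?_
  rw [h1, h4, inner_smul_left, Complex.conj_ofReal]
  have h5 : ∀ (r : ℝ) (z : ℂ), RCLike.re ((r : ℂ) * z) = r * RCLike.re z := fun r z => by
    simp
  rw [h5]
  ring

theorem p1_ofr {N : ℕ} {r : V N → ℝ} (h : Differentiable ℝ r) (μ : Fin N) (y : V N) :
    pd μ (fun y => (r y : ℂ)) y = ((pd μ r y : ℝ) : ℂ) := by
  unfold pd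
  have h1 : HasFDerivAt (fun y => (r y : ℂ)) (Complex.ofRealCLM.comp (fderiv ℝ r y)) y :=
    Complex.ofRealCLM.hasFDerivAt.comp y (h y).hasFDerivAt
  rw [h1.fderiv]
  rfl

/-- The product rule for `∇_a`. -/
theorem nabE_mulr (C : Cliff m) (g : Geo (2 * m)) (B : Pot (2 * m))
    {φ : V (2 * m) → Sp m} (hφ : Differentiable ℝ φ) {χ : V (2 * m) → ℝ}
    (hχ : Differentiable ℝ χ) (a : Fin (2 * m)) (y : V (2 * m)) :
    C.nabE g B a (fun y => (χ y : ℂ) • φ y) y = (χ y : ℂ) • C.nabE g B a φ y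
      + ((∑ μ, g.e y μ a * pd μ χ y : ℝ) : ℂ) • φ y := by
  have h1 : ∀ μ, pd μ (fun y => (χ y : ℂ) • φ y) y = (χ y : ℂ) • pd μ φ y
      + ((pd μ χ y : ℝ) : ℂ) • φ y := by
    intro μ
    rw [← p1_ofr hχ]
    have hc : DifferentiableAt ℝ (fun y => (χ y : ℂ)) y :=
      (Complex.ofRealCLM.differentiable.comp hχ) y
    unfold pd
    rw [fderiv_fun_smul hc (hφ y)]
    rfl
  unfold Cliff.nabE Cliff.nab
  rw [Complex.ofReal_sum, Finset.sum_smul, Finset.smul_sum, ← Finset.sum_add_distrib]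
  refine Finset.sum_congr rfl fun μ _ => ?_
  rw [h1, map_smul, Complex.ofReal_mul]
  module

/-- The curvature term in the formula of Lichnerowicz. -/
def lichG (C : Cliff m) (g : Geo (2 * m)) (B : Pot (2 * m)) (φ : V (2 * m) → Sp m)
    (y : V (2 * m)) : Sp m := ((g.scal y / 4 : ℝ) : ℂ) • φ y + C.curvB g B y (φ y)

theorem continuous_lichG (C : Cliff m) (g : Geo (2 * m)) {B : Pot (2 * m)} (hB : IsPot B)
    {φ : V (2 * m) → Sp m} (hφ : IsTF φ) : Continuous (lichG C g B φ) := by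
  have hD := isTF_dirac C g hB hφ
  have hDD := isTF_dirac C g hB hD
  have hn := fun a => isTF_nabE C g hB a hφ
  have hF := fun a => (isTF_nabE C g hB a (hn a)).add ((hn a).mulr (g.contDiff_dv a))
  have : lichG C g B φ = fun y => C.dirac g B (C.dirac g B φ) y
      + ∑ a, (C.nabE g B a (C.nabE g B a φ) y + (g.dv a y : ℂ) • C.nabE g B a φ y) := by
    funext y
    rw [dirac_dirac C g hB hφ.1 y, add_assoc]
    unfold lichG
    abel
  rw [this]
  exact hDD.1.continuous.add (continuous_finsetSum _ fun a _ => (hF a).1.continuous)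

/-- The formula of Lichnerowicz, as an identity of sesquilinear forms. -/
theorem inner_dirac_dirac (C : Cliff m) (g : Geo (2 * m)) {B : Pot (2 * m)} (hB : IsPot B)
    {φ ψ : V (2 * m) → Sp m} (hφ : IsTF φ) (hψ : IsTF ψ) :
    ⟪g.emb (C.dirac g B φ), g.emb (C.dirac g B ψ)⟫_ℂ
      = ∑ a, ∫ y, ⟪C.nabE g B a φ y, C.nabE g B a ψ y⟫_ℂ ∂g.vol
        + ∫ y, ⟪φ y, lichG C g B ψ y⟫_ℂ ∂g.vol := by
  have hD := isTF_dirac C g hB hψ
  have hDD := isTF_dirac C g hB hD
  have hn := fun a => isTF_nabE C g hB a hψ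
  have hF := fun a => (isTF_nabE C g hB a (hn a)).add ((hn a).mulr (g.contDiff_dv a))
  have hDDe : ∀ y, C.dirac g B (C.dirac g B ψ) y
      = - ∑ a, (C.nabE g B a (C.nabE g B a ψ) y + (g.dv a y : ℂ) • C.nabE g B a ψ y)
        + lichG C g B ψ y := by
    intro y
    rw [dirac_dirac C g hB hψ.1 y, add_assoc]
    rfl
  rw [dirac_symm C g hB hφ hD, g.inner_emb (g.memLp_tf hφ) (g.memLp_tf hDD)]
  have e1 : ∀ y, ⟪φ y, C.dirac g B (C.dirac g B ψ) y⟫_ℂ
      = - ∑ a, ⟪φ y, C.nabE g B a (C.nabE g B a ψ) y + (g.dv a y : ℂ) • C.nabE g B a ψ y⟫_ℂ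
        + ⟪φ y, lichG C g B ψ y⟫_ℂ := by
    intro y
    rw [hDDe y, inner_add_right, inner_neg_right, inner_sum]
  have hi : ∀ a, Integrable (fun y => ⟪φ y, C.nabE g B a (C.nabE g B a ψ) y
      + (g.dv a y : ℂ) • C.nabE g B a ψ y⟫_ℂ) g.vol :=
    fun a => Y5_int g hφ (hF a).1.continuous
  have hs : Integrable (fun y => - ∑ a, ⟪φ y, C.nabE g B a (C.nabE g B a ψ) y
      + (g.dv a y : ℂ) • C.nabE g B a ψ y⟫_ℂ) g.vol :=
    (integrable_finsetSum Finset.univ fun a _ => hi a).neg
  rw [integral_congr_ae (Filter.Eventually.of_forall e1), integral_add hs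
    (Y5_int g hφ (continuous_lichG C g hB hψ)),
    integral_neg, integral_finsetSum Finset.univ fun a _ => hi a, ← Finset.sum_neg_distrib]
  congr 1
  refine Finset.sum_congr rfl fun a _ => ?_
  rw [nabE_adj C g hB a hφ (hn a)]

end Pool.Agent.Lib.MP_df705a_gt.SV
end
end
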