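import Pool.Agent.Lib.MP_df705a_gt.Mg.G077
import Pool.Agent.Lib.MP_df705a_gt.Mg.G082
import Pool.Agent.Lib.MP_df705a_gt.Mg.G086
import Pool.Agent.Lib.MP_df705a_gt.Mg.G047
import Pool.Agent.Lib.MP_df705a_gt.Mg.G075
import Pool.Agent.Lib.MP_df705a_gt.Mg.G073
import Pool.Agent.Lib.MP_df705a_gt.Mg.G084
import Pool.Agent.Lib.MP_df705a_gt.Mg.G052
import Pool.Agent.Lib.MP_df705a_gt.SV.St

section

/-!
# SV, L4a3: the bounds of the extension
-/

open scoped ContDiff InnerProductSpace Matrix ENNReal NNReal Topology Real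
open MeasureTheory Filter Set

noncomputable section

set_option linter.unusedSectionVars false

namespace Pool.Agent.Lib.MP_df705a_gt.SV

open Pool.Agent.Lib.MP_df705a_gt.RL

variable {G : Type*} [Group G] [Countable G] {m : ℕ} {C : Cliff m} {g : Geo (2 * m)}
  {a : Act G (2 * m)} {F : Set (V (2 * m))}

private theorem L4a3_norm_U {U : G → V (2 * m) → En m} (hU : Lifts C g a U) (γ : G)
    (y : V (2 * m)) : ‖U γ y‖ ≤ 1 := by
  refine ContinuousLinearMap.opNorm_le_bound _ zero_le_one fun x => ?_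
  have h1 := (hU γ).norm_fibU y x
  have h2 : fibU (U γ) (fun _ => 0) y = U γ y := by
    unfold fibU
    rw [Complex.ofReal_zero, mul_zero, Complex.exp_zero, one_smul]
  rw [h2] at h1
  rw [h1, one_mul]

private theorem L4a3_norm_adj (A : En m) (hA : ‖A‖ ≤ 1) : ‖adj A‖ ≤ 1 := by
  have h1 : ‖adj A‖ = ‖A‖ := LinearIsometryEquiv.norm_map ContinuousLinearMap.adjoint A
  rw [h1]
  exact hA

private theorem L4a3_enorm (hF : a.Fund F) {U : G → V (2 * m) → En m}
    (hU : Lifts C g a U) {k : V (2 * m) → V (2 * m) → En m} {K : V (2 * m) → V (2 * m) → ℝ≥0∞}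
    (hK : ∀ z y, ‖k z y‖ₑ ≤ K z y) (x y : V (2 * m)) :
    ‖ext hF U k x y‖ₑ ≤ K (a.act (tl hF x) x) (a.act (tl hF x) y) := by
  refine le_trans ?_ (hK _ _)
  rw [← ofReal_norm, ← ofReal_norm]
  refine ENNReal.ofReal_le_ofReal ?_
  unfold ext
  have h1 := L4a3_norm_adj _ (L4a3_norm_U hU (tl hF x) x)
  have h2 := L4a3_norm_U hU (tl hF x) y
  calc _ ≤ ‖adj (U (tl hF x) x) * k (a.act (tl hF x) x) (a.act (tl hF x) y)‖ *
        ‖U (tl hF x) y‖ := norm_mul_le _ _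
    _ ≤ (‖adj (U (tl hF x) x)‖ * ‖k (a.act (tl hF x) x) (a.act (tl hF x) y)‖) *
        ‖U (tl hF x) y‖ := mul_le_mul_of_nonneg_right (norm_mul_le _ _) (norm_nonneg _)
    _ ≤ (1 * ‖k (a.act (tl hF x) x) (a.act (tl hF x) y)‖) * 1 := by
        refine mul_le_mul (mul_le_mul_of_nonneg_right h1 (norm_nonneg _)) h2 (norm_nonneg _)
          (by positivity)
    _ = _ := by rw [one_mul, mul_one]

/-- The bounds of the extension.
PROOF. `‖ext k z y‖ ≤ K (γ z) (γ y)`, `γ = tl z` (`U` is unitary: `IsoData.adj_mul_self` / `IsoData.norm_fibU` with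
`fibU U 0 = U`). Rows: `act γ` preserves the measure (`IsoData.mp`). Columns: sum over `γ` of the integral over
`{z | tl z = γ} = γ⁻¹ F` (`lintegral_iUnion`, or `lintegral` of the sum of indicators): it is `∫_{w ∈ F} K w (γ y)^p dw ≤ c^p`, and zero
unless `‖γ y‖ ≤ R + 1`; `card_le`; `M c^p ≤ (M c)^p`. -/
theorem NB_ext (hF : a.Fund F) (hp : IsProper a) (ha : a.Iso g) {U : G → V (2 * m) → En m}
    (hU : Lifts C g a U) : ∃ M : ℝ≥0, 1 ≤ M ∧
    ∀ (p : ℝ) (_ : 1 ≤ p) (k : V (2 * m) → V (2 * m) → En m) (K : V (2 * m) → V (2 * m) → ℝ≥0∞)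
      (c : ℝ≥0), Measurable (Function.uncurry K) → (∀ z y, 1 < ‖y - z‖ → K z y = 0) →
      (∀ z y, ‖k z y‖ₑ ≤ K z y) → LB g.vol F p K c →
        NB g.vol p (fun x y => ‖ext hF U k x y‖ₑ) (M * c) := by
  obtain ⟨R₀, hR₀⟩ := hF.bdd.exists_norm_le
  obtain ⟨M₀, hM₀⟩ := card_le hF hp (R₀ + 1)
  refine ⟨max (M₀ : ℝ≥0) 1, le_max_right _ _, ?_⟩
  intro p hp1 k K c hKm hK0 hkK hLB
  have hp0 : 0 < p := by linarith
  have hM1 : (1 : ℝ≥0∞) ≤ ((max (M₀ : ℝ≥0) 1 : ℝ≥0) : ℝ≥0∞) := by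
    exact_mod_cast le_max_right (M₀ : ℝ≥0) 1
  have hbig : ((max (M₀ : ℝ≥0) 1 : ℝ≥0) : ℝ≥0∞) * (c : ℝ≥0∞) ^ p ≤
      (((max (M₀ : ℝ≥0) 1 * c : ℝ≥0)) : ℝ≥0∞) ^ p := by
    rw [ENNReal.coe_mul, ENNReal.mul_rpow_of_nonneg _ _ hp0.le]
    gcongr
    calc ((max (M₀ : ℝ≥0) 1 : ℝ≥0) : ℝ≥0∞) = ((max (M₀ : ℝ≥0) 1 : ℝ≥0) : ℝ≥0∞) ^ (1 : ℝ) :=
          (ENNReal.rpow_one _).symm
      _ ≤ _ := ENNReal.rpow_le_rpow_of_exponent_le hM1 hp1
  have hle : ∀ x y, ‖ext hF U k x y‖ₑ ^ p ≤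
      K (a.act (tl hF x) x) (a.act (tl hF x) y) ^ p := fun x y =>
    ENNReal.rpow_le_rpow (L4a3_enorm hF hU hkK x y) hp0.le
  refine ⟨Eventually.of_forall fun x => ?_, Eventually.of_forall fun y => ?_⟩
  · have hmeas : Measurable fun y => K (a.act (tl hF x) x) y ^ p :=
      (hKm.of_uncurry_left).pow_const p
    calc ∫⁻ y, ‖ext hF U k x y‖ₑ ^ p ∂g.vol
        ≤ ∫⁻ y, K (a.act (tl hF x) x) (a.act (tl hF x) y) ^ p ∂g.vol :=
          lintegral_mono fun y => hle x y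
      _ = ∫⁻ y, K (a.act (tl hF x) x) y ^ p ∂g.vol :=
          (hU (tl hF x)).mp.lintegral_comp hmeas
      _ ≤ (c : ℝ≥0∞) ^ p := hLB.row _ (tl_mem hF x)
      _ ≤ ((max (M₀ : ℝ≥0) 1 : ℝ≥0) : ℝ≥0∞) * (c : ℝ≥0∞) ^ p := le_mul_of_one_le_left' hM1
      _ ≤ _ := hbig
  · have hterm : ∀ γ : G, ∫⁻ x, (a.act γ ⁻¹' F).indicator
        (fun x => K (a.act γ x) (a.act γ y) ^ p) x ∂g.vol =
          ∫⁻ w in F, K w (a.act γ y) ^ p ∂g.vol := by
      intro γ
      have hmeas : Measurable fun w => K w (a.act γ y) ^ p :=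
        (hKm.of_uncurry_right).pow_const p
      have hms : MeasurableSet (a.act γ ⁻¹' F) := (hU γ).mp.measurable hF.meas
      rw [lintegral_indicator hms]
      exact (hU γ).mp.setLIntegral_comp_preimage hF.meas hmeas
    obtain ⟨S, hS, hSm⟩ := hM₀ y
    have hzero : ∀ γ ∉ S, ∫⁻ w in F, K w (a.act γ y) ^ p ∂g.vol = 0 := by
      intro γ hγ
      have h1 : R₀ + 1 < ‖a.act γ y‖ := by
        by_contra h2
        exact hγ (hSm γ (not_lt.1 h2))
      have h2 : ∀ w ∈ F, K w (a.act γ y) ^ p = 0 := by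
        intro w hw
        have h3 : K w (a.act γ y) = 0 := by
          apply hK0
          have h4 : ‖a.act γ y‖ ≤ ‖a.act γ y - w‖ + ‖w‖ := by
            calc ‖a.act γ y‖ = ‖(a.act γ y - w) + w‖ := by rw [sub_add_cancel]
              _ ≤ _ := norm_add_le _ _
          have h5 := hR₀ w hw
          linarith
        rw [h3, ENNReal.zero_rpow_of_pos hp0]
      rw [setLIntegral_congr_fun hF.meas h2]
      exact lintegral_zero
    have hmeasg : ∀ γ : G, Measurable ((a.act γ ⁻¹' F).indicator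
        (fun x => K (a.act γ x) (a.act γ y) ^ p)) := by
      intro γ
      have hmeas : Measurable fun w => K w (a.act γ y) ^ p :=
        (hKm.of_uncurry_right).pow_const p
      exact (hmeas.comp (hU γ).mp.measurable).indicator ((hU γ).mp.measurable hF.meas)
    calc ∫⁻ x, ‖ext hF U k x y‖ₑ ^ p ∂g.vol
        ≤ ∫⁻ x, ∑' γ : G, (a.act γ ⁻¹' F).indicator
            (fun x => K (a.act γ x) (a.act γ y) ^ p) x ∂g.vol := by
          refine lintegral_mono fun x => (hle x y).trans ?_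
          refine le_trans (le_of_eq ?_) (ENNReal.le_tsum (tl hF x))
          rw [Set.indicator_of_mem (show x ∈ a.act (tl hF x) ⁻¹' F from tl_mem hF x)]
      _ = ∑' γ : G, ∫⁻ x, (a.act γ ⁻¹' F).indicator
            (fun x => K (a.act γ x) (a.act γ y) ^ p) x ∂g.vol :=
          lintegral_tsum fun γ => (hmeasg γ).aemeasurable
      _ = ∑' γ : G, ∫⁻ w in F, K w (a.act γ y) ^ p ∂g.vol := tsum_congr hterm
      _ = ∑ γ ∈ S, ∫⁻ w in F, K w (a.act γ y) ^ p ∂g.vol := tsum_eq_sum hzero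
      _ ≤ ∑ _γ ∈ S, (c : ℝ≥0∞) ^ p := Finset.sum_le_sum fun γ _ => hLB.col _
      _ = (S.card : ℝ≥0∞) * (c : ℝ≥0∞) ^ p := by rw [Finset.sum_const, nsmul_eq_mul]
      _ ≤ ((max (M₀ : ℝ≥0) 1 : ℝ≥0) : ℝ≥0∞) * (c : ℝ≥0∞) ^ p := by
          gcongr
          calc (S.card : ℝ≥0∞) ≤ (M₀ : ℝ≥0∞) := by exact_mod_cast hS
            _ = ((M₀ : ℝ≥0) : ℝ≥0∞) := by simp
            _ ≤ _ := by exact_mod_cast le_max_left (M₀ : ℝ≥0) 1
      _ ≤ _ := hbig

end Pool.Agent.Lib.MP_df705a_gt.SV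
end
end

section

/-!
# SV, L4a4: the weighted bounds of the extension
-/

open scoped ContDiff InnerProductSpace Matrix ENNReal NNReal Topology Real
open MeasureTheory Filter Set

noncomputable section

set_option linter.unusedSectionVars false

namespace Pool.Agent.Lib.MP_df705a_gt.SV

open Pool.Agent.Lib.MP_df705a_gt.RL

variable {G : Type*} [Group G] [Countable G] {m : ℕ} {C : Cliff m} {g : Geo (2 * m)}
  {a : Act G (2 * m)} {F : Set (V (2 * m))}

private theorem L4a4_NB {X : Type*} [MeasurableSpace X] {μ : Measure X} {p : ℝ} (hp : 0 ≤ p)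
    {K L : X → X → ℝ≥0∞} {c E : ℝ≥0} (h : NB μ p K c)
    (hle : ∀ x y, L x y ≤ (E : ℝ≥0∞) * K x y) : NB μ p L (E * c) := by
  have key : ∀ f f' : X → ℝ≥0∞, (∀ y, f' y ≤ (E : ℝ≥0∞) * f y) →
      ∫⁻ y, f y ^ p ∂μ ≤ (c : ℝ≥0∞) ^ p → ∫⁻ y, f' y ^ p ∂μ ≤ ((E * c : ℝ≥0) : ℝ≥0∞) ^ p := by
    intro f f' hf hint
    calc ∫⁻ y, f' y ^ p ∂μ ≤ ∫⁻ y, (E : ℝ≥0∞) ^ p * f y ^ p ∂μ := by
          refine lintegral_mono fun y => ?_
          rw [← ENNReal.mul_rpow_of_nonneg _ _ hp]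
          exact ENNReal.rpow_le_rpow (hf y) hp
      _ = (E : ℝ≥0∞) ^ p * ∫⁻ y, f y ^ p ∂μ :=
          lintegral_const_mul' _ _ (ENNReal.rpow_ne_top_of_nonneg hp ENNReal.coe_ne_top)
      _ ≤ (E : ℝ≥0∞) ^ p * (c : ℝ≥0∞) ^ p := by gcongr
      _ = _ := by rw [ENNReal.coe_mul, ENNReal.mul_rpow_of_nonneg _ _ hp]
  refine ⟨?_, ?_⟩
  · filter_upwards [h.1] with x hx
    exact key _ _ (fun y => hle x y) hx
  · filter_upwards [h.2] with y hy
    exact key _ _ (fun x => hle x y) hy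

/-- The weighted bounds. PROOF. `NB_ext`, `rng_ext` (`F` is bounded), `tw_le`: the weighted norm is at most
`exp (δ c₀) ‖ext k x y‖`. -/
theorem KB_ext (hF : a.Fund F) (hp : IsProper a) (ha : a.Iso g) {U : G → V (2 * m) → En m}
    (hU : Lifts C g a U) : ∃ M : ℝ≥0, 1 ≤ M ∧ ∀ ℓ : G → ℝ, IsLen ℓ → ∃ c₀ : ℝ, 0 ≤ c₀ ∧
    ∀ δ : ℝ, 0 ≤ δ → ∀ (p : ℝ) (_ : 1 ≤ p) (k : V (2 * m) → V (2 * m) → En m)
      (K : V (2 * m) → V (2 * m) → ℝ≥0∞) (c₁ c : ℝ≥0), StronglyMeasurable (Function.uncurry k) →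
      Measurable (Function.uncurry K) → (∀ z y, 1 < ‖y - z‖ → K z y = 0) →
      (∀ z y, ‖k z y‖ₑ ≤ K z y) → LB g.vol F 1 K c₁ → LB g.vol F p K c →
        KB g.vol (tw hF ℓ δ) p (ext hF U k) (M * (Real.exp (δ * c₀)).toNNReal * c₁)
          (M * (Real.exp (δ * c₀)).toNNReal * c) := by
  obtain ⟨R₀, hR₀⟩ := hF.bdd.exists_norm_le
  obtain ⟨M, hM1, hM⟩ := NB_ext (C := C) (g := g) hF hp ha hU
  refine ⟨M, hM1, fun ℓ hℓ => ?_⟩
  obtain ⟨c₀, hc₀, htw⟩ := tw_le hF hp hℓ (R₀ + 1)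
  refine ⟨c₀, hc₀, ?_⟩
  intro δ hδ p hp1 k K c₁ c hk hKm hK0 hkK hL1 hLp
  have hk0 : ∀ z y, 1 < ‖y - z‖ → k z y = 0 := by
    intro z y hzy
    have h1 := hkK z y
    rw [hK0 z y hzy, ← ofReal_norm] at h1
    have h2 : ‖k z y‖ ≤ 0 := ENNReal.ofReal_eq_zero.1 (le_antisymm h1 bot_le)
    exact norm_le_zero_iff.1 h2
  have hle : ∀ x y, nk (tw hF ℓ δ) (ext hF U k) x y ≤
      (((Real.exp (δ * c₀)).toNNReal : ℝ≥0) : ℝ≥0∞) * ‖ext hF U k x y‖ₑ := by
    intro x y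
    unfold nk
    by_cases h0 : ext hF U k x y = 0
    · have h2 : ‖ext hF U k x y‖ₑ = 0 := by
        rw [h0, ← ofReal_norm, norm_zero, ENNReal.ofReal_zero]
      rw [h2, mul_zero, mul_zero]
    · have h1 := htw x y (rng_ext hF hR₀ U hk0 x y h0) δ hδ
      gcongr
      exact ENNReal.ofReal_le_ofReal h1
  refine ⟨stronglyMeasurable_ext hF hU hk, ?_, ?_⟩
  · have h1 := L4a4_NB zero_le_one (hM 1 le_rfl k K c₁ hKm hK0 hkK hL1) hle
    have h2 : M * (Real.exp (δ * c₀)).toNNReal * c₁ = (Real.exp (δ * c₀)).toNNReal * (M * c₁) := by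
      ring
    rw [h2]
    exact h1
  · have h1 := L4a4_NB (zero_le_one.trans hp1) (hM p hp1 k K c hKm hK0 hkK hLp) hle
    have h2 : M * (Real.exp (δ * c₀)).toNNReal * c = (Real.exp (δ * c₀)).toNNReal * (M * c) := by
      ring
    rw [h2]
    exact h1

/-- The bounds without weight. -/
theorem KB_ext_one (hF : a.Fund F) (hp : IsProper a) (ha : a.Iso g) {U : G → V (2 * m) → En m}
    (hU : Lifts C g a U) : ∃ M : ℝ≥0, 1 ≤ M ∧ ∀ (p : ℝ) (_ : 1 ≤ p)
      (k : V (2 * m) → V (2 * m) → En m)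
      (K : V (2 * m) → V (2 * m) → ℝ≥0∞) (c₁ c : ℝ≥0), StronglyMeasurable (Function.uncurry k) →
      Measurable (Function.uncurry K) → (∀ z y, 1 < ‖y - z‖ → K z y = 0) →
      (∀ z y, ‖k z y‖ₑ ≤ K z y) → LB g.vol F 1 K c₁ → LB g.vol F p K c →
        KB g.vol (fun _ _ => 1) p (ext hF U k) (M * c₁) (M * c) := by
  obtain ⟨M, hM1, hM⟩ := NB_ext (C := C) (g := g) hF hp ha hU
  refine ⟨M, hM1, ?_⟩
  intro p hp1 k K c₁ c hk hKm hK0 hkK hL1 hLp
  have hnk : nk (fun _ _ => 1) (ext hF U k) = fun x y => ‖ext hF U k x y‖ₑ := by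
    funext x y
    unfold nk
    rw [ENNReal.ofReal_one, one_mul]
  refine ⟨stronglyMeasurable_ext hF hU hk, ?_, ?_⟩
  · rw [hnk]
    exact hM 1 le_rfl k K c₁ hKm hK0 hkK hL1
  · rw [hnk]
    exact hM p hp1 k K c hKm hK0 hkK hLp

end Pool.Agent.Lib.MP_df705a_gt.SV
end
end

section

/-!
# SV, L7a: the model kernel
-/

open scoped ContDiff InnerProductSpace Matrix ENNReal NNReal Topology Real
open MeasureTheory Filter Set

noncomputable section

set_option linter.unusedSectionVars false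

namespace Pool.Agent.Lib.MP_df705a_gt.SV

open Pool.Agent.Lib.MP_df705a_gt.RL

variable {m : ℕ} {C : Cliff m} {g : Geo (2 * m)} {ρ c κ : ℝ}

theorem L7a_qf_nonneg (g : Geo (2 * m)) (z v : V (2 * m)) : 0 ≤ qf g z v := by
  rw [qf_eq]
  exact Finset.sum_nonneg fun a _ => sq_nonneg _

theorem L7a_gs_nonneg (g : Geo (2 * m)) (z v : V (2 * m)) {r : ℝ} (hr : 0 ≤ r) :
    0 ≤ gs g z v r := by
  unfold gs
  positivity

theorem L7a_gs_le_one (g : Geo (2 * m)) (z v : V (2 * m)) {r : ℝ} (hr : 1 ≤ r) :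
    gs g z v r ≤ 1 := by
  unfold gs
  have h1 : (1 : ℝ) ≤ (4 * π * r) ^ m := by
    refine one_le_pow₀ ?_
    have := Real.pi_gt_three
    nlinarith
  have h2 : ((4 * π * r) ^ m)⁻¹ ≤ 1 := inv_le_one_of_one_le₀ h1
  have h3 : Real.exp (-(qf g z v / (4 * r))) ≤ 1 := by
    rw [Real.exp_le_one_iff]
    have := L7a_qf_nonneg g z v
    have : 0 ≤ qf g z v / (4 * r) := by positivity
    linarith
  exact mul_le_one₀ h2 (Real.exp_pos _).le h3

theorem L7a_meas_gs (g : Geo (2 * m)) (t : ℝ) :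
    Measurable fun q : (V (2 * m) × V (2 * m)) × ℝ =>
      Real.exp (-(q.2 / t ^ 2)) * gs g q.1.1 (q.1.2 - q.1.1) q.2 := by
  unfold gs
  have h1 : Measurable fun q : (V (2 * m) × V (2 * m)) × ℝ => qf g q.1.1 (q.1.2 - q.1.1) :=
    ((P06_cont g).comp (f := fun q : (V (2 * m) × V (2 * m)) × ℝ => (q.1.1, q.1.2 - q.1.1))
      (by fun_prop)).measurable
  have h2 : Measurable fun q : (V (2 * m) × V (2 * m)) × ℝ => q.2 := measurable_snd
  have h3 := (((h2.const_mul (4 * π)).pow_const m).inv).mul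
    ((h1.div (h2.const_mul 4)).neg.exp)
  exact ((h2.div_const (t ^ 2)).neg.exp).mul h3

set_option linter.unusedVariables false in
theorem measurable_hmod (g : Geo (2 * m)) {t : ℝ} (ht : 0 < t) :
    StronglyMeasurable fun q : V (2 * m) × V (2 * m) => hmod g t q.1 q.2 := by
  unfold hmod
  refine StronglyMeasurable.const_mul ?_ _
  exact (L7a_meas_gs g t).stronglyMeasurable.integral_prod_right'

theorem L7a_int_exp {t : ℝ} (ht : 0 < t) :
    IntegrableOn (fun r : ℝ => Real.exp (-(r / t ^ 2))) (Ioi (1 : ℝ)) ∧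
      ∫ r in Ioi (1 : ℝ), Real.exp (-(r / t ^ 2)) = t ^ 2 * Real.exp (-(1 / t ^ 2)) := by
  have h0 : 0 < (t ^ 2)⁻¹ := by positivity
  have e : (fun r : ℝ => Real.exp (-(r / t ^ 2))) = fun r => Real.exp (-(t ^ 2)⁻¹ * r) := by
    funext r
    congr 1
    field_simp
  rw [e]
  refine ⟨exp_neg_integrableOn_Ioi 1 h0, ?_⟩
  have := integral_exp_mul_Ioi (a := -(t ^ 2)⁻¹) (by linarith) 1
  rw [this]
  have e2 : -(t ^ 2)⁻¹ * 1 = -(1 / t ^ 2) := by ring
  rw [e2]
  field_simp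

/-- The tail of the model kernel. -/
theorem hmod_tail (g : Geo (2 * m)) {t : ℝ} (ht : 0 < t) (x y : V (2 * m)) :
    IntegrableOn (fun r => Real.exp (-(r / t ^ 2)) * gs g x (y - x) r) (Ioi (1 : ℝ)) ∧
      |(t ^ 2)⁻¹ * ∫ r in Ioi (1 : ℝ), Real.exp (-(r / t ^ 2)) * gs g x (y - x) r| ≤ t ^ 2 := by
  obtain ⟨h1, h2⟩ := L7a_int_exp ht
  have hm : Measurable fun r : ℝ => Real.exp (-(r / t ^ 2)) * gs g x (y - x) r :=
    (L7a_meas_gs g t).comp ((measurable_const (a := (x, y))).prodMk measurable_id)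
  have hb : ∀ r ∈ Ioi (1 : ℝ), ‖Real.exp (-(r / t ^ 2)) * gs g x (y - x) r‖ ≤
      Real.exp (-(r / t ^ 2)) := by
    intro r hr
    have hr' : (1 : ℝ) ≤ r := le_of_lt hr
    rw [norm_mul, Real.norm_of_nonneg (Real.exp_pos _).le,
      Real.norm_of_nonneg (L7a_gs_nonneg g _ _ (by linarith))]
    exact mul_le_of_le_one_right (Real.exp_pos _).le (L7a_gs_le_one g _ _ hr')
  have hi : IntegrableOn (fun r => Real.exp (-(r / t ^ 2)) * gs g x (y - x) r) (Ioi (1 : ℝ)) :=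
    Integrable.mono' h1 hm.aestronglyMeasurable
      ((ae_restrict_iff' measurableSet_Ioi).2 (Eventually.of_forall hb))
  refine ⟨hi, ?_⟩
  have h3 : ‖∫ r in Ioi (1 : ℝ), Real.exp (-(r / t ^ 2)) * gs g x (y - x) r‖ ≤
      t ^ 2 * Real.exp (-(1 / t ^ 2)) := by
    rw [← h2]
    exact norm_integral_le_of_norm_le h1
      ((ae_restrict_iff' measurableSet_Ioi).2 (Eventually.of_forall hb))
  have h4 : Real.exp (-(1 / t ^ 2)) ≤ t ^ 2 := by
    rw [Real.exp_neg, inv_le_comm₀ (Real.exp_pos _) (by positivity)]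
    have := Real.add_one_le_exp (1 / t ^ 2)
    rw [← one_div]
    linarith
  have h0 : 0 < (t ^ 2)⁻¹ := by positivity
  rw [abs_mul, abs_of_pos h0]
  rw [Real.norm_eq_abs] at h3
  calc (t ^ 2)⁻¹ * |∫ r in Ioi (1 : ℝ), Real.exp (-(r / t ^ 2)) * gs g x (y - x) r|
      ≤ (t ^ 2)⁻¹ * (t ^ 2 * Real.exp (-(1 / t ^ 2))) := by gcongr
    _ = Real.exp (-(1 / t ^ 2)) := by
        field_simp
    _ ≤ t ^ 2 := h4

/-! ### Gaussian integrals -/

theorem L7a_gz_cont (κ : ℝ) (z : V (2 * m)) :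
    Measurable fun q : ℝ × V (2 * m) => gz m κ (q.2 - z) q.1 := by
  unfold gz
  have h1 : Measurable fun q : ℝ × V (2 * m) => κ * ‖q.2 - z‖ ^ 2 := by
    have : Continuous fun q : ℝ × V (2 * m) => κ * ‖q.2 - z‖ ^ 2 := by fun_prop
    exact this.measurable
  have h2 : Measurable fun q : ℝ × V (2 * m) => q.1 := measurable_fst
  exact ((h2.pow_const m).inv).mul (h1.div h2).neg.exp

theorem L7a_gauss (g : Geo (2 * m)) (ρ : ℝ) {κ : ℝ} (hκ : 0 < κ) {p : ℝ} (hp : 1 ≤ p) :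
    ∃ A : ℝ, 0 < A ∧ ∀ r : ℝ, 0 < r → ∀ z : V (2 * m),
      ∫⁻ y in Metric.closedBall 0 ρ, ENNReal.ofReal (gz m κ (y - z) r) ^ p ∂g.vol ≤
        ENNReal.ofReal (A * r ^ (-(m * (p - 1) / p))) ^ p := by
  have hp0 : 0 < p := by linarith
  obtain ⟨a, ha, hg⟩ := gauss_vol g ρ (p * κ) (by positivity)
  refine ⟨max 1 a, by positivity, fun r hr z => ?_⟩
  have e : ∀ y : V (2 * m), ENNReal.ofReal (gz m κ (y - z) r) ^ p =
      ENNReal.ofReal (r ^ (-(m * (p - 1)))) * ENNReal.ofReal (1 / r ^ m *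
        Real.exp (-(p * κ * ‖y - z‖ ^ 2 / r))) := by
    intro y
    rw [ENNReal.ofReal_rpow_of_nonneg (gz_nonneg κ _ hr.le) hp0.le, ← ENNReal.ofReal_mul (by positivity)]
    congr 1
    unfold gz
    rw [Real.mul_rpow (by positivity) (Real.exp_pos _).le, ← Real.exp_mul]
    have e1 : -(κ * ‖y - z‖ ^ 2 / r) * p = -(p * κ * ‖y - z‖ ^ 2 / r) := by ring
    rw [e1, ← mul_assoc]
    congr 1
    rw [one_div, Real.inv_rpow (by positivity), ← Real.rpow_natCast r m, ← Real.rpow_mul hr.le,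
      ← Real.rpow_neg hr.le, ← Real.rpow_neg hr.le, ← Real.rpow_add hr]
    congr 1
    ring
  simp_rw [e]
  rw [lintegral_const_mul' _ _ ENNReal.ofReal_ne_top]
  calc ENNReal.ofReal (r ^ (-(m * (p - 1)))) * ∫⁻ y in Metric.closedBall 0 ρ,
        ENNReal.ofReal (1 / r ^ m * Real.exp (-(p * κ * ‖y - z‖ ^ 2 / r))) ∂g.vol
      ≤ ENNReal.ofReal (r ^ (-(m * (p - 1)))) * ENNReal.ofReal a := by
        gcongr
        exact hg r hr z
    _ = ENNReal.ofReal (r ^ (-(m * (p - 1))) * a) := by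
        rw [← ENNReal.ofReal_mul (by positivity)]
    _ ≤ ENNReal.ofReal ((max 1 a * r ^ (-(m * (p - 1) / p))) ^ p) := by
        apply ENNReal.ofReal_le_ofReal
        rw [Real.mul_rpow (by positivity) (by positivity), ← Real.rpow_mul hr.le]
        have e2 : -(m * (p - 1) / p) * p = -(m * (p - 1)) := by field_simp
        rw [e2, mul_comm]
        gcongr
        calc a ≤ max 1 a := le_max_right _ _
          _ = (max 1 a) ^ (1 : ℝ) := (Real.rpow_one _).symm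
          _ ≤ (max 1 a) ^ p := Real.rpow_le_rpow_of_exponent_le (le_max_left _ _) hp
    _ = ENNReal.ofReal (max 1 a * r ^ (-(m * (p - 1) / p))) ^ p := by
        rw [ENNReal.ofReal_rpow_of_nonneg (by positivity) hp0.le]

/-- The time integral of the Gaussians. -/
theorem L7a_core (g : Geo (2 * m)) (ρ : ℝ) {κ c : ℝ} (hκ : 0 < κ) (hc : 0 < c) {p : ℝ}
    (hp : 1 ≤ p) (hα : m * (p - 1) / p < 3 / 2) :
    ∃ B : ℝ, 0 < B ∧ ∀ t : ℝ, 0 < t → ∀ z : V (2 * m),
      ∫⁻ y in Metric.closedBall 0 ρ, (∫⁻ r in Ioc (0 : ℝ) 1,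
        ENNReal.ofReal (hP t r * (c * (√r * gz m κ (y - z) r)))) ^ p ∂g.vol ≤
        ENNReal.ofReal (B * t ^ (1 - 2 * (m * (p - 1) / p))) ^ p := by
  have hp0 : 0 < p := by linarith
  obtain ⟨A, hA, hg⟩ := L7a_gauss g ρ hκ hp
  obtain ⟨A', hA', hG⟩ := gamma_bound (β := m * (p - 1) / p - 1 / 2) (by linarith)
  set α : ℝ := m * (p - 1) / p with hαdef
  refine ⟨c * A * A', by positivity, fun t ht z => ?_⟩
  have ht2 : 0 < t ^ 2 := by positivity
  have hhP : ∀ r, 0 < hP t r := fun r => by unfold hP; positivity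
  set f : ℝ → V (2 * m) → ℝ≥0∞ := fun r y =>
    ENNReal.ofReal (hP t r * (c * (√r * gz m κ (y - z) r))) with hf
  set b : ℝ → ℝ≥0∞ := fun r =>
    ENNReal.ofReal (hP t r * (c * (√r * (A * r ^ (-α))))) with hb
  have hPm : Measurable (hP t) := by unfold hP; fun_prop
  have hfm : Measurable (Function.uncurry f) := by
    refine ENNReal.measurable_ofReal.comp ?_
    have h1 : Measurable fun q : ℝ × V (2 * m) => hP t q.1 := hPm.comp measurable_fst
    have h2 : Measurable fun q : ℝ × V (2 * m) => √q.1 :=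
      (Real.continuous_sqrt.comp continuous_fst).measurable
    exact h1.mul ((h2.mul (L7a_gz_cont κ z)).const_mul c)
  have hbm : Measurable b := by
    refine ENNReal.measurable_ofReal.comp ?_
    have h2 : Measurable fun r : ℝ => √r := Real.continuous_sqrt.measurable
    exact hPm.mul ((h2.mul ((measurable_id.pow_const (-α)).const_mul A)).const_mul c)
  have hb0 : ∀ᵐ r ∂(volume.restrict (Ioc (0 : ℝ) 1)), b r ≠ 0 := by
    refine (ae_restrict_iff' measurableSet_Ioc).2 (Eventually.of_forall fun r hr => ?_)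
    have hr0 : 0 < r := hr.1
    have := hhP r
    have h3 : 0 < √r := Real.sqrt_pos.2 hr0
    exact (ENNReal.ofReal_pos.2 (by positivity)).ne'
  have hb1 : ∀ᵐ r ∂(volume.restrict (Ioc (0 : ℝ) 1)), b r ≠ ⊤ :=
    Eventually.of_forall fun r => ENNReal.ofReal_ne_top
  have hfb : ∀ᵐ r ∂(volume.restrict (Ioc (0 : ℝ) 1)),
      ∫⁻ y, f r y ^ p ∂(g.vol.restrict (Metric.closedBall 0 ρ)) ≤ b r ^ p := by
    refine (ae_restrict_iff' measurableSet_Ioc).2 (Eventually.of_forall fun r hr => ?_)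
    have hr0 : 0 < r := hr.1
    have h3 : 0 < √r := Real.sqrt_pos.2 hr0
    have h4 := hhP r
    have e1 : ∀ y, f r y ^ p = ENNReal.ofReal (hP t r * (c * √r)) ^ p *
        ENNReal.ofReal (gz m κ (y - z) r) ^ p := by
      intro y
      rw [← ENNReal.mul_rpow_of_nonneg _ _ hp0.le, ← ENNReal.ofReal_mul (by positivity)]
      simp only [hf]
      congr 2
      ring
    have e2 : b r ^ p = ENNReal.ofReal (hP t r * (c * √r)) ^ p *
        ENNReal.ofReal (A * r ^ (-α)) ^ p := by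
      rw [← ENNReal.mul_rpow_of_nonneg _ _ hp0.le, ← ENNReal.ofReal_mul (by positivity)]
      simp only [hb]
      congr 2
      ring
    simp_rw [e1]
    rw [lintegral_const_mul' _ _ (ENNReal.rpow_ne_top_of_nonneg hp0.le ENNReal.ofReal_ne_top), e2]
    gcongr
    exact hg r hr0 z
  refine (minkowski hp hfm hbm hb0 hb1 hfb).trans ?_
  gcongr
  have e3 : ∀ r ∈ Ioc (0 : ℝ) 1, b r = ENNReal.ofReal ((t ^ 2)⁻¹ * (c * A)) *
      ENNReal.ofReal (Real.exp (-(r / t ^ 2)) * r ^ (-(α - 1 / 2))) := by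
    intro r hr
    have hr0 : 0 < r := hr.1
    rw [← ENNReal.ofReal_mul (by positivity)]
    simp only [hb]
    congr 1
    unfold hP
    have e4 : r ^ (-(α - 1 / 2)) = √r * r ^ (-α) := by
      rw [Real.sqrt_eq_rpow, ← Real.rpow_add hr0]
      congr 1
      ring
    rw [e4]
    ring
  rw [setLIntegral_congr_fun measurableSet_Ioc e3, lintegral_const_mul' _ _ ENNReal.ofReal_ne_top]
  calc ENNReal.ofReal ((t ^ 2)⁻¹ * (c * A)) * ∫⁻ r in Ioc (0 : ℝ) 1,
        ENNReal.ofReal (Real.exp (-(r / t ^ 2)) * r ^ (-(α - 1 / 2)))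
      ≤ ENNReal.ofReal ((t ^ 2)⁻¹ * (c * A)) *
        ENNReal.ofReal (A' * t ^ (2 * (1 - (α - 1 / 2)))) := by
        gcongr
        exact hG t ht
    _ = ENNReal.ofReal (c * A * A' * t ^ (1 - 2 * α)) := by
        rw [← ENNReal.ofReal_mul (by positivity)]
        congr 1
        have e5 : t ^ (2 * (1 - (α - 1 / 2))) = t ^ 2 * t ^ (1 - 2 * α) := by
          rw [← Real.rpow_natCast t 2, ← Real.rpow_add ht]
          congr 1
          push_cast
          ring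
        rw [e5]
        field_simp

/-! ### the pointwise bound -/

theorem L7a_adj_real (a : ℝ) : adj ((a : ℂ) • (1 : En m)) = (a : ℂ) • (1 : En m) := by
  have h1 : adj (1 : En m) = 1 := star_one (En m)
  show ContinuousLinearMap.adjoint ((a : ℂ) • (1 : En m)) = _
  rw [map_smulₛₗ]
  show (starRingEnd ℂ) (a : ℂ) • adj (1 : En m) = _
  rw [h1, Complex.conj_ofReal]

theorem L7a_gz_bound {κ : ℝ} (hκ : 0 < κ) {v : V (2 * m)} (hv : v ≠ 0) {r : ℝ} (hr : 0 < r) :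
    gz m κ v r ≤ m.factorial * ((κ * ‖v‖ ^ 2) ^ m)⁻¹ := by
  unfold gz
  have hv0 : 0 < ‖v‖ := norm_pos_iff.2 hv
  have hs : 0 < κ * ‖v‖ ^ 2 / r := by positivity
  have h1 := Real.pow_div_factorial_le_exp (κ * ‖v‖ ^ 2 / r) hs.le m
  have h2 : Real.exp (-(κ * ‖v‖ ^ 2 / r)) ≤ ((κ * ‖v‖ ^ 2 / r) ^ m / m.factorial)⁻¹ := by
    rw [Real.exp_neg]
    exact inv_anti₀ (by positivity) h1
  calc (r ^ m)⁻¹ * Real.exp (-(κ * ‖v‖ ^ 2 / r))
      ≤ (r ^ m)⁻¹ * ((κ * ‖v‖ ^ 2 / r) ^ m / m.factorial)⁻¹ := by gcongr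
    _ = m.factorial * ((κ * ‖v‖ ^ 2) ^ m)⁻¹ := by
        rw [div_pow]
        field_simp

theorem L7a_point (p : ParaD C g ρ c κ) {t : ℝ} (ht : 0 < t) {z y : V (2 * m)} (hz : ‖z‖ ≤ ρ)
    (hyz : y ≠ z) : ‖kP p t z y - (hmod g t z y : ℂ) • (1 : En m)‖ₑ ≤
      (∫⁻ r in Ioc (0 : ℝ) 1, ENNReal.ofReal (hP t r * (c * (√r * gz m κ (y - z) r)))) +
        ENNReal.ofReal (t ^ 2) := by
  have hv : y - z ≠ 0 := sub_ne_zero.2 hyz
  have ht2 : 0 < (t ^ 2)⁻¹ := by positivity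
  have hc := p.c_pos
  have hκ := p.κ_pos
  have hhP : ∀ r, 0 < hP t r := fun r => by unfold hP; positivity
  set F : ℝ → ℝ := fun r => Real.exp (-(r / t ^ 2)) * gs g z (y - z) r with hF
  set M : ℝ := m.factorial * ((κ * ‖y - z‖ ^ 2) ^ m)⁻¹ with hM
  have hM0 : 0 ≤ M := by positivity
  have hMb : ∀ r : ℝ, 0 < r → gz m κ (y - z) r ≤ M := fun r hr => L7a_gz_bound hκ hv hr
  have hPb : ∀ r : ℝ, 0 < r → hP t r ≤ (t ^ 2)⁻¹ := by
    intro r hr
    unfold hP
    refine mul_le_of_le_one_right ht2.le ?_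
    rw [Real.exp_le_one_iff]
    have : 0 ≤ r / t ^ 2 := by positivity
    linarith
  have hqb : ∀ r ∈ Ioc (0 : ℝ) 1, ‖(hP t r : ℂ) • adj (p.q r z y)‖ ≤ (t ^ 2)⁻¹ * (c * M) := by
    intro r hr
    have h1 := p.bd_q r z y hz hr.1 hr.2
    rw [norm_smul, Complex.norm_real, Real.norm_of_nonneg (hhP r).le]
    have h2 : ‖adj (p.q r z y)‖ = ‖p.q r z y‖ := LinearIsometryEquiv.norm_map _ _
    rw [h2]
    have h3 := hMb r hr.1
    have h4 := hPb r hr.1
    calc hP t r * ‖p.q r z y‖ ≤ (t ^ 2)⁻¹ * (c * gz m κ (y - z) r) := by gcongr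
      _ ≤ (t ^ 2)⁻¹ * (c * M) := by gcongr
  have hcq : ContinuousOn (fun r => (hP t r : ℂ) • adj (p.q r z y)) (Ioc (0 : ℝ) 1) := by
    have h1 : ContinuousOn (fun r => p.q r z y) (Ioc (0 : ℝ) 1) :=
      p.cont_q.comp (f := fun r : ℝ => (r, z, y)) (by fun_prop) fun r hr => hr.1
    have h2 : ContinuousOn (fun r => adj (p.q r z y)) (Ioc (0 : ℝ) 1) :=
      (ContinuousLinearMap.adjoint (𝕜 := ℂ) (E := Sp m) (F := Sp m)).continuous.comp_continuousOn h1
    have h3 : Continuous fun r => (hP t r : ℂ) := by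
      unfold hP
      fun_prop
    exact h3.continuousOn.smul h2
  have hiq : IntegrableOn (fun r => (hP t r : ℂ) • adj (p.q r z y)) (Ioc (0 : ℝ) 1) := by
    refine Integrable.mono' (g := fun _ => (t ^ 2)⁻¹ * (c * M)) (integrable_const _)
      (hcq.aestronglyMeasurable measurableSet_Ioc) ?_
    exact (ae_restrict_iff' measurableSet_Ioc).2 (Eventually.of_forall hqb)
  have hgsb : ∀ r ∈ Ioc (0 : ℝ) 1, |gs g z (y - z) r| ≤ 2 * c * gz m κ (y - z) r := by
    intro r hr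
    have h1 := p.bd_q r z y hz hr.1 hr.2
    have h2 := p.lead_q r z y hz hr.1 hr.2
    have h3 : ‖(gs g z (y - z) r : ℂ) • (1 : En m)‖ = |gs g z (y - z) r| := by
      rw [norm_smul, norm_one, mul_one, Complex.norm_real, Real.norm_eq_abs]
    rw [← h3]
    have h4 : ‖(gs g z (y - z) r : ℂ) • (1 : En m)‖ ≤ ‖p.q r z y‖ +
        ‖p.q r z y - (gs g z (y - z) r : ℂ) • (1 : En m)‖ := by
      have := norm_sub_le (p.q r z y) (p.q r z y - (gs g z (y - z) r : ℂ) • (1 : En m))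
      rwa [sub_sub_cancel] at this
    have h5 : √r ≤ 1 := Real.sqrt_le_one.2 hr.2
    have h6 := gz_nonneg κ (y - z) hr.1.le
    have h7 : c * (√r * gz m κ (y - z) r) ≤ c * (1 * gz m κ (y - z) r) := by gcongr
    linarith
  have hmF : Measurable F := (L7a_meas_gs g t).comp
    ((measurable_const (a := (z, y))).prodMk measurable_id)
  have hFb : ∀ r ∈ Ioc (0 : ℝ) 1, ‖F r‖ ≤ 2 * c * M := by
    intro r hr
    have h1 := hgsb r hr
    have h2 := hMb r hr.1
    have h3 : Real.exp (-(r / t ^ 2)) ≤ 1 := by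
      rw [Real.exp_le_one_iff]
      have hr1 := hr.1
      have : 0 ≤ r / t ^ 2 := by positivity
      linarith
    simp only [hF]
    rw [norm_mul, Real.norm_of_nonneg (Real.exp_pos _).le, Real.norm_eq_abs]
    calc Real.exp (-(r / t ^ 2)) * |gs g z (y - z) r| ≤ 1 * (2 * c * gz m κ (y - z) r) := by gcongr
      _ ≤ 2 * c * M := by
        rw [one_mul]
        gcongr
  have hiF : IntegrableOn F (Ioc (0 : ℝ) 1) := by
    refine Integrable.mono' (g := fun _ => 2 * c * M) (integrable_const _)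
      hmF.aestronglyMeasurable ?_
    exact (ae_restrict_iff' measurableSet_Ioc).2 (Eventually.of_forall hFb)
  obtain ⟨htl, htl2⟩ := hmod_tail g ht z y
  have hsplit : hmod g t z y = (t ^ 2)⁻¹ * (∫ r in Ioc (0 : ℝ) 1, F r) +
      (t ^ 2)⁻¹ * ∫ r in Ioi (1 : ℝ), F r := by
    unfold hmod
    rw [← Ioc_union_Ioi_eq_Ioi (zero_le_one (α := ℝ)),
      setIntegral_union (Set.Ioc_disjoint_Ioi le_rfl) measurableSet_Ioi hiF htl, mul_add]
  have hint2 : ∫ r in Ioc (0 : ℝ) 1, (hP t r : ℂ) • ((gs g z (y - z) r : ℂ) • (1 : En m)) =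
      (((t ^ 2)⁻¹ * ∫ r in Ioc (0 : ℝ) 1, F r : ℝ) : ℂ) • (1 : En m) := by
    have e1 : (fun r => (hP t r : ℂ) • ((gs g z (y - z) r : ℂ) • (1 : En m))) =
        fun r => (((t ^ 2)⁻¹ * F r : ℝ) : ℂ) • (1 : En m) := by
      funext r
      rw [smul_smul]
      congr 1
      simp only [hF]
      unfold hP
      push_cast
      ring
    rw [e1, integral_smul_const]
    congr 1
    rw [← integral_const_mul, ← integral_complex_ofReal]
  have hi2 : IntegrableOn (fun r => (hP t r : ℂ) • ((gs g z (y - z) r : ℂ) • (1 : En m)))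
      (Ioc (0 : ℝ) 1) := by
    have e1 : (fun r => (hP t r : ℂ) • ((gs g z (y - z) r : ℂ) • (1 : En m))) =
        fun r => (((t ^ 2)⁻¹ * F r : ℝ) : ℂ) • (1 : En m) := by
      funext r
      rw [smul_smul]
      congr 1
      simp only [hF]
      unfold hP
      push_cast
      ring
    rw [e1]
    exact (Integrable.ofReal (hiF.const_mul _)).smul_const _
  have hmain : kP p t z y - (hmod g t z y : ℂ) • (1 : En m) =
      (∫ r in Ioc (0 : ℝ) 1, (hP t r : ℂ) • (adj (p.q r z y) -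
        (gs g z (y - z) r : ℂ) • (1 : En m))) -
      (((t ^ 2)⁻¹ * ∫ r in Ioi (1 : ℝ), F r : ℝ) : ℂ) • (1 : En m) := by
    have e1 : (fun r => (hP t r : ℂ) • (adj (p.q r z y) - (gs g z (y - z) r : ℂ) • (1 : En m))) =
        fun r => (hP t r : ℂ) • adj (p.q r z y) -
          (hP t r : ℂ) • ((gs g z (y - z) r : ℂ) • (1 : En m)) := by
      funext r
      rw [smul_sub]
    have e3 : ∀ (a b : ℂ) (X : En m), (a + b) • X = a • X + b • X := fun a b X => add_smul a b X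
    rw [e1, integral_sub hiq hi2, hint2, hsplit, Complex.ofReal_add, e3]
    unfold kP kk
    abel
  rw [hmain]
  refine (enorm_sub_le).trans ?_
  gcongr
  · refine (enorm_integral_le_lintegral_enorm _).trans ?_
    refine setLIntegral_mono' measurableSet_Ioc fun r hr => ?_
    have h1 : ‖(hP t r : ℂ) • (adj (p.q r z y) - (gs g z (y - z) r : ℂ) • (1 : En m))‖ ≤
        hP t r * (c * (√r * gz m κ (y - z) r)) := by
      rw [norm_smul, Complex.norm_real, Real.norm_of_nonneg (hhP r).le]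
      have e2 : adj (p.q r z y) - (gs g z (y - z) r : ℂ) • (1 : En m) =
          adj (p.q r z y - (gs g z (y - z) r : ℂ) • (1 : En m)) := by
        have h5 : adj (p.q r z y - (gs g z (y - z) r : ℂ) • (1 : En m)) = adj (p.q r z y) -
            adj ((gs g z (y - z) r : ℂ) • (1 : En m)) := map_sub _ _ _
        rw [h5, L7a_adj_real]
      rw [e2]
      have h2 : ‖adj (p.q r z y - (gs g z (y - z) r : ℂ) • (1 : En m))‖ =
          ‖p.q r z y - (gs g z (y - z) r : ℂ) • (1 : En m)‖ := LinearIsometryEquiv.norm_map _ _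
      rw [h2]
      have := hhP r
      gcongr
      exact p.lead_q r z y hz hr.1 hr.2
    rw [← ofReal_norm]
    exact ENNReal.ofReal_le_ofReal h1
  · rw [← ofReal_norm]
    apply ENNReal.ofReal_le_ofReal
    rw [norm_smul, norm_one, mul_one, Complex.norm_real, Real.norm_eq_abs]
    exact htl2

/-! ### the bounds -/

theorem L7a_ae_ne (hm : 1 ≤ m) (g : Geo (2 * m)) (S : Set (V (2 * m))) (z : V (2 * m)) :
    ∀ᵐ y ∂(g.vol.restrict S), y ≠ z := by
  have : Nonempty (Fin (2 * m)) := ⟨⟨0, by omega⟩⟩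
  have h0 : (volume : Measure (V (2 * m))) {z} = 0 := measure_singleton z
  have h1 : g.vol {z} = 0 := g.vol_ac h0
  have h2 : ∀ᵐ y ∂g.vol, y ≠ z := by
    rw [ae_iff]
    simpa using h1
  exact ae_restrict_of_ae h2

/-- The integral of the pointwise bound. -/
theorem L7a_sum (g : Geo (2 * m)) (ρ : ℝ) {κ c : ℝ} (hκ : 0 < κ) (hc : 0 < c) {p : ℝ}
    (hp : 1 ≤ p) (hα : m * (p - 1) / p < 3 / 2) :
    ∃ D : ℝ, 0 < D ∧ ∀ t : ℝ, 0 < t → t ≤ 1 → ∀ z : V (2 * m),
      ∫⁻ y in Metric.closedBall 0 ρ, ((∫⁻ r in Ioc (0 : ℝ) 1,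
        ENNReal.ofReal (hP t r * (c * (√r * gz m κ (y - z) r)))) + ENNReal.ofReal (t ^ 2)) ^ p
          ∂g.vol ≤ ENNReal.ofReal (D * t ^ (1 - 2 * (m * (p - 1) / p))) ^ p := by
  have hp0 : 0 < p := by linarith
  obtain ⟨B, hB, hg⟩ := L7a_core g ρ hκ hc hp hα
  have hα0 : 0 ≤ m * (p - 1) / p := by
    have : 0 ≤ p - 1 := by linarith
    positivity
  set α : ℝ := m * (p - 1) / p with hαdef
  set W : ℝ≥0∞ := g.vol (Metric.closedBall (0 : V (2 * m)) ρ) with hW
  have hWt : W ≠ ⊤ := (isCompact_closedBall (0 : V (2 * m)) ρ).measure_lt_top.ne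
  set W' : ℝ := max 1 W.toReal with hW'
  have hW1 : 1 ≤ W' := le_max_left _ _
  refine ⟨2 * max B W', by positivity, fun t ht ht1 z => ?_⟩
  set E : ℝ := t ^ (1 - 2 * α) with hE
  have hE0 : 0 < E := by positivity
  have hTE : t ^ 2 ≤ E := by
    rw [← Real.rpow_natCast t 2]
    exact Real.rpow_le_rpow_of_exponent_ge ht ht1 (by push_cast; linarith)
  have hWp : ENNReal.ofReal (t ^ 2) ^ p * W ≤ ENNReal.ofReal (W' * E) ^ p := by
    have h1 : W ≤ ENNReal.ofReal W' ^ p := by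
      calc W = ENNReal.ofReal W.toReal := (ENNReal.ofReal_toReal hWt).symm
        _ ≤ ENNReal.ofReal W' := ENNReal.ofReal_le_ofReal (le_max_right _ _)
        _ = ENNReal.ofReal W' ^ (1 : ℝ) := (ENNReal.rpow_one _).symm
        _ ≤ ENNReal.ofReal W' ^ p := by
          refine ENNReal.rpow_le_rpow_of_exponent_le ?_ hp
          rw [← ENNReal.ofReal_one]
          exact ENNReal.ofReal_le_ofReal hW1
    calc ENNReal.ofReal (t ^ 2) ^ p * W ≤ ENNReal.ofReal E ^ p * ENNReal.ofReal W' ^ p := by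
          gcongr
      _ = ENNReal.ofReal (W' * E) ^ p := by
          rw [← ENNReal.mul_rpow_of_nonneg _ _ hp0.le, ← ENNReal.ofReal_mul (by positivity),
            mul_comm]
  calc ∫⁻ y in Metric.closedBall 0 ρ, ((∫⁻ r in Ioc (0 : ℝ) 1,
        ENNReal.ofReal (hP t r * (c * (√r * gz m κ (y - z) r)))) + ENNReal.ofReal (t ^ 2)) ^ p
          ∂g.vol
      ≤ ∫⁻ y in Metric.closedBall 0 ρ, 2 ^ (p - 1) * ((∫⁻ r in Ioc (0 : ℝ) 1,
        ENNReal.ofReal (hP t r * (c * (√r * gz m κ (y - z) r)))) ^ p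
          + ENNReal.ofReal (t ^ 2) ^ p) ∂g.vol :=
        lintegral_mono fun y => ENNReal.rpow_add_le_mul_rpow_add_rpow _ _ hp
    _ = 2 ^ (p - 1) * ((∫⁻ y in Metric.closedBall 0 ρ, (∫⁻ r in Ioc (0 : ℝ) 1,
        ENNReal.ofReal (hP t r * (c * (√r * gz m κ (y - z) r)))) ^ p ∂g.vol)
          + ENNReal.ofReal (t ^ 2) ^ p * W) := by
        rw [lintegral_const_mul' _ _ (ENNReal.rpow_ne_top_of_nonneg (by linarith)
          ENNReal.ofNat_ne_top), lintegral_add_right _ measurable_const, lintegral_const,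
          Measure.restrict_apply_univ]
    _ ≤ 2 ^ (p - 1) * (ENNReal.ofReal (max B W' * E) ^ p + ENNReal.ofReal (max B W' * E) ^ p) := by
        gcongr
        · refine (hg t ht z).trans ?_
          gcongr
          exact le_max_left _ _
        · refine hWp.trans ?_
          gcongr
          exact le_max_right _ _
    _ = ENNReal.ofReal (2 * max B W' * E) ^ p := by
        rw [← two_mul, ← mul_assoc]
        have h2 : (2 : ℝ≥0∞) ^ (p - 1) * 2 = 2 ^ p := by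
          nth_rewrite 2 [← ENNReal.rpow_one 2]
          rw [← ENNReal.rpow_add _ _ two_ne_zero ENNReal.ofNat_ne_top]
          congr 1
          ring
        rw [h2, ← ENNReal.mul_rpow_of_nonneg _ _ hp0.le]
        congr 1
        rw [mul_assoc, ENNReal.ofReal_mul (p := 2) (by norm_num)]
        norm_num

/-- The bound for one exponent. -/
theorem L7a_LB (hm : 1 ≤ m) (p : ParaD C g ρ c κ) {s : ℝ} (hs : 1 ≤ s)
    (hα : m * (s - 1) / s < 3 / 2) :
    ∃ D : ℝ, 0 < D ∧ ∀ D' : ℝ, D ≤ D' → ∀ t : ℝ, 0 < t → t ≤ 1 →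
      LB g.vol (Metric.closedBall 0 ρ) s (fun z y => if ‖z‖ ≤ ρ ∧ ‖y‖ ≤ ρ then
        ‖kP p t z y - (hmod g t z y : ℂ) • (1 : En m)‖ₑ else 0)
        (D' * t ^ (1 - 2 * (m * (s - 1) / s))).toNNReal := by
  have hs0 : 0 < s := by linarith
  obtain ⟨D, hD, hg⟩ := L7a_sum g ρ p.κ_pos p.c_pos hs hα
  refine ⟨D, hD, fun D' hD' t ht ht1 => ?_⟩
  have hle : ∀ z : V (2 * m), ∫⁻ y in Metric.closedBall 0 ρ, ((∫⁻ r in Ioc (0 : ℝ) 1,
        ENNReal.ofReal (hP t r * (c * (√r * gz m κ (y - z) r)))) + ENNReal.ofReal (t ^ 2)) ^ s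
          ∂g.vol ≤ ((D' * t ^ (1 - 2 * (m * (s - 1) / s))).toNNReal : ℝ≥0∞) ^ s := by
    intro z
    refine (hg t ht ht1 z).trans ?_
    show _ ≤ ENNReal.ofReal _ ^ s
    gcongr
  constructor
  · intro z hz
    have hz' : ‖z‖ ≤ ρ := mem_closedBall_zero_iff.1 hz
    refine le_trans ?_ (hle z)
    rw [← lintegral_indicator Metric.isClosed_closedBall.measurableSet]
    have h1 := (ae_restrict_iff' Metric.isClosed_closedBall.measurableSet).1
      (L7a_ae_ne hm g (Metric.closedBall 0 ρ) z)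
    refine lintegral_mono_ae (h1.mono fun y hy => ?_)
    by_cases hyr : ‖y‖ ≤ ρ
    · have hyb : y ∈ Metric.closedBall (0 : V (2 * m)) ρ := mem_closedBall_zero_iff.2 hyr
      rw [Set.indicator_of_mem hyb, if_pos ⟨hz', hyr⟩]
      gcongr
      exact L7a_point p ht hz' (hy hyb)
    · rw [if_neg fun h => hyr h.2, ENNReal.zero_rpow_of_pos hs0]
      exact zero_le
  · intro y
    by_cases hyr : ‖y‖ ≤ ρ
    · refine le_trans ?_ (hle y)
      have h1 := L7a_ae_ne hm g (Metric.closedBall 0 ρ) y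
      refine lintegral_mono_ae ?_
      filter_upwards [h1, ae_restrict_mem Metric.isClosed_closedBall.measurableSet] with x hx hxb
      have hxr : ‖x‖ ≤ ρ := mem_closedBall_zero_iff.1 hxb
      rw [if_pos ⟨hxr, hyr⟩]
      gcongr
      refine (L7a_point p ht hxr (Ne.symm hx)).trans (le_of_eq ?_)
      have e : ∀ r, gz m κ (y - x) r = gz m κ (x - y) r := fun r => by
        unfold gz
        rw [norm_sub_rev]
      simp_rw [e]
    · simp only [hyr, and_false, if_false]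
      rw [ENNReal.zero_rpow_of_pos hs0, lintegral_zero]
      exact zero_le

/-- The local kernel of `(1 + t² D²)⁻¹` and the model kernel. -/
theorem model_bound (hm : 1 ≤ m) (p : ParaD C g ρ c κ) : ∃ D : ℝ, 0 < D ∧ ∀ t : ℝ, 0 < t → t ≤ 1 →
    LB g.vol (Metric.closedBall 0 ρ) 1 (fun z y => if ‖z‖ ≤ ρ ∧ ‖y‖ ≤ ρ then
      ‖kP p t z y - (hmod g t z y : ℂ) • (1 : En m)‖ₑ else 0) (D * t).toNNReal ∧
    LB g.vol (Metric.closedBall 0 ρ) (pN m) (fun z y => if ‖z‖ ≤ ρ ∧ ‖y‖ ≤ ρ then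
      ‖kP p t z y - (hmod g t z y : ℂ) • (1 : En m)‖ₑ else 0) (sz m (D * t) t) := by
  have hm0 : (0 : ℝ) < m := by exact_mod_cast hm
  have hpN : (1 : ℝ) ≤ pN m := by
    unfold pN
    rw [le_div_iff₀ (by push_cast; linarith)]
    linarith
  have hα : m * (pN m - 1) / pN m = m / (2 * m + 1) := by
    unfold pN
    push_cast
    field_simp
    ring
  obtain ⟨D₁, hD₁, h₁⟩ := L7a_LB hm p (s := 1) le_rfl (by norm_num)
  obtain ⟨D₂, hD₂, h₂⟩ := L7a_LB hm p hpN (by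
    rw [hα, div_lt_div_iff₀ (by linarith) (by norm_num)]
    linarith)
  refine ⟨max D₁ D₂, by positivity, fun t ht ht1 => ⟨?_, ?_⟩⟩
  · have h3 := h₁ _ (le_max_left D₁ D₂) t ht ht1
    simpa using h3
  · have h3 := h₂ _ (le_max_right D₁ D₂) t ht ht1
    rw [hα] at h3
    have e : max D₁ D₂ * t ^ (1 - 2 * (m / (2 * m + 1)) : ℝ) =
        max D₁ D₂ * t * t ^ (-(2 * m / (2 * m + 1) : ℝ)) := by
      rw [mul_assoc]
      congr 1
      nth_rewrite 2 [← Real.rpow_one t]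
      rw [← Real.rpow_add ht]
      congr 1
      ring
    rw [e] at h3
    exact h3

end Pool.Agent.Lib.MP_df705a_gt.SV
end
end

section

/-!
# SV, Z2: unfolding, the integral over the fundamental set is a finite sum over simplices
-/

open scoped ContDiff InnerProductSpace Matrix ENNReal NNReal Topology
open MeasureTheory Filter Set

noncomputable section

namespace Pool.Agent.Lib.MP_df705a_gt.SV

open Pool.Agent.Lib.MP_df705a_gt.RL

variable {G : Type*} [Group G] [Countable G] {m n k : ℕ}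

/-- The determinant of the derivatives of the `2 m` functions. -/
def Z2_D (a : Act G (2 * m)) (χ : V (2 * m) → ℝ) (s : V (2 * m) → V k) (h : n + k = 2 * m)
    (f : Fin (n + 1) → G) (y : V (2 * m)) : ℝ :=
  (Matrix.of fun i μ : Fin (2 * m) => pd μ (rwc a χ s h f i) y).det

omit [Countable G] in
theorem Z2_smooth (a : Act G (2 * m)) {χ : V (2 * m) → ℝ} (hχ : ContDiff ℝ ∞ χ)
    {s : V (2 * m) → V k} (hs : ∀ j, ContDiff ℝ ∞ fun y => s y j) (h : n + k = 2 * m)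
    (f : Fin (n + 1) → G) (i : Fin (2 * m)) : ContDiff ℝ ∞ (rwc a χ s h f i) := by
  have key : ∀ i : Fin (n + k), ContDiff ℝ ∞ (rw' a χ s f i) := by
    intro i
    refine Fin.addCases (fun i => ?_) (fun j => ?_) i
    · have h1 : rw' a χ s f (Fin.castAdd k i) = ch a χ (f i.succ) := by
        funext y
        simp only [rw', Fin.addCases_left]
      rw [h1]
      exact hχ.comp (a.smooth _)
    · have h1 : rw' a χ s f (Fin.natAdd n j) = fun y => s y j := by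
        funext y
        simp only [rw', Fin.addCases_right]
      rw [h1]
      exact hs j
  exact key _

omit [Countable G] in
theorem Z2_shift (a : Act G (2 * m)) (χ : V (2 * m) → ℝ) {s : V (2 * m) → V k}
    (hs : IsAdd a s) (h : n + k = 2 * m) (γ : G) (f : Fin (n + 1) → G) (i : Fin (2 * m)) :
    ∃ C : ℝ, ∀ y, rwc a χ s h (fun i => γ * f i) i y = rwc a χ s h f i (a.act γ⁻¹ y) + C := by
  have key : ∀ i : Fin (n + k), ∃ C : ℝ, ∀ y,
      rw' a χ s (fun i => γ * f i) i y = rw' a χ s f i (a.act γ⁻¹ y) + C := by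
    intro i
    refine Fin.addCases (fun i => ⟨0, fun y => ?_⟩) (fun j => ?_) i
    · simp only [rw', Fin.addCases_left, ch]
      rw [mul_inv_rev, a.mul, add_zero]
    · obtain ⟨t, ht⟩ := hs.add γ⁻¹
      refine ⟨-t j, fun y => ?_⟩
      simp only [rw', Fin.addCases_right]
      rw [ht y j]
      ring
  exact key _

omit [Countable G] in
theorem Z2_det (a : Act G (2 * m)) {χ : V (2 * m) → ℝ} (hχ : ContDiff ℝ ∞ χ)
    {s : V (2 * m) → V k} (hs : IsAdd a s) (h : n + k = 2 * m) (γ : G) (f : Fin (n + 1) → G)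
    (y : V (2 * m)) :
    Z2_D a χ s h (fun i => γ * f i) y =
      (jac (a.act γ⁻¹) y).det * Z2_D a χ s h f (a.act γ⁻¹ y) := by
  unfold Z2_D
  rw [mul_comm (jac (a.act γ⁻¹) y).det, ← Matrix.det_mul]
  congr 1
  ext i μ
  obtain ⟨C, hC⟩ := Z2_shift a χ hs h γ f i
  have h1 : rwc a χ s h (fun i => γ * f i) i = fun y => rwc a χ s h f i (a.act γ⁻¹ y) + C :=
    funext hC
  have h2 : pd μ (fun y => rwc a χ s h f i (a.act γ⁻¹ y) + C) y =
      pd μ (fun y => rwc a χ s h f i (a.act γ⁻¹ y)) y := by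
    unfold pd
    rw [fderiv_add_const]
  rw [Matrix.of_apply, h1, h2, pd_comp ((a.smooth γ⁻¹).differentiable (by simp))
    ((Z2_smooth a hχ hs.smooth h f i).differentiable (by simp)), Matrix.mul_apply]
  refine Finset.sum_congr rfl fun ν _ => ?_
  rw [Matrix.of_apply, smul_eq_mul, mul_comm]

/-- The simplices `γ (1, l)` and the pairs `(γ, l)`. -/
def Z2_e (G : Type*) [Group G] (n : ℕ) : G × (Fin n → G) ≃ (Fin (n + 1) → G) where
  toFun p := fun i => p.1 * SVS.smp p.2 i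
  invFun f := (f 0, SVS.nml f)
  left_inv p := by
    refine Prod.ext ?_ (funext fun i => ?_)
    · show p.1 * SVS.smp p.2 0 = p.1
      rw [SVS.smp, Fin.cons_zero, mul_one]
    · show (p.1 * SVS.smp p.2 0)⁻¹ * (p.1 * SVS.smp p.2 i.succ) = p.2 i
      rw [SVS.smp, Fin.cons_zero, mul_one, Fin.cons_succ, inv_mul_cancel_left]
  right_inv f := by
    funext i
    refine Fin.cases ?_ (fun i => ?_) i
    · show f 0 * SVS.smp (SVS.nml f) 0 = f 0
      rw [SVS.smp, Fin.cons_zero, mul_one]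
    · show f 0 * SVS.smp (SVS.nml f) i.succ = f i.succ
      rw [SVS.smp, Fin.cons_succ, SVS.nml, mul_inv_cancel_left]

omit [Countable G] in
theorem Z2_cont (a : Act G (2 * m)) {χ : V (2 * m) → ℝ} (hχ : ContDiff ℝ ∞ χ)
    {s : V (2 * m) → V k} (hs : ∀ j, ContDiff ℝ ∞ fun y => s y j) (h : n + k = 2 * m)
    (f : Fin (n + 1) → G) : Continuous fun y => χ y * Z2_D a χ s h f y := by
  refine hχ.continuous.mul (Continuous.matrix_det ?_)
  exact continuous_matrix fun i μ => (contDiff_pd (Z2_smooth a hχ hs h f i) μ).continuous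

omit [Countable G] in
theorem Z2_fin (a : Act G (2 * m)) (hp : IsProper a) (h : n + k = 2 * m)
    (s : V (2 * m) → V k) {χ : V (2 * m) → ℝ} (hχ : IsPU a χ) :
    {l : Fin n → G | ∃ y, χ y * Z2_D a χ s h (SVS.smp l) y ≠ 0}.Finite := by
  obtain ⟨R, hR⟩ := hχ.supp.isCompact.isBounded.subset_closedBall (0 : V (2 * m))
  have hA := hp R
  have h1 : {l : Fin n → G | ∀ i, l i ∈ (fun γ : G => γ⁻¹) '' {γ | ∃ y, ‖y‖ ≤ R ∧
      ‖a.act γ y‖ ≤ R}}.Finite := Set.Finite.pi' fun _ => hA.image _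
  refine h1.subset ?_
  rintro l ⟨y, hy⟩ i
  have hy1 : χ y ≠ 0 := left_ne_zero_of_mul hy
  have hy2 : Z2_D a χ s h (SVS.smp l) y ≠ 0 := right_ne_zero_of_mul hy
  have hyR : ‖y‖ ≤ R := by
    have := hR (subset_tsupport _ (Function.mem_support.2 hy1))
    rwa [Metric.mem_closedBall, dist_zero_right] at this
  have hrow : ∃ μ, pd μ (rwc a χ s h (SVS.smp l) (Fin.cast h (Fin.castAdd k i))) y ≠ 0 := by
    by_contra hcon
    push Not at hcon
    exact hy2 (Matrix.det_eq_zero_of_row_eq_zero (Fin.cast h (Fin.castAdd k i)) hcon)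
  obtain ⟨μ, hμ⟩ := hrow
  have h2 : rwc a χ s h (SVS.smp l) (Fin.cast h (Fin.castAdd k i)) = χ ∘ a.act (l i)⁻¹ := by
    funext z
    show rw' a χ s (SVS.smp l) (Fin.castAdd k i) z = χ (a.act (l i)⁻¹ z)
    simp only [rw', Fin.addCases_left, ch, SVS.smp, Fin.cons_succ]
  rw [h2] at hμ
  have h3 : y ∈ tsupport (χ ∘ a.act (l i)⁻¹) := by
    refine support_fderiv_subset ℝ (Function.mem_support.2 fun h0 => hμ ?_)
    unfold pd
    rw [h0]
    rfl
  have h4 : a.act (l i)⁻¹ y ∈ tsupport χ :=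
    tsupport_comp_subset_preimage χ (a.smooth _).continuous h3
  have h5 : ‖a.act (l i)⁻¹ y‖ ≤ R := by
    have := hR h4
    rwa [Metric.mem_closedBall, dist_zero_right] at this
  exact ⟨(l i)⁻¹, ⟨y, hyR, h5⟩, inv_inv _⟩

/-- PROOF. `f = f_0 · (1, h)`: the sum over `f : Fin (n+1) → G` is the sum over `γ = f_0 ∈ G` and `h : Fin n → G`
(`f = γ · smp h`), `c f = c (smp h)`. With `Φ = a.act γ⁻¹`: `ch a χ (γ h_i) = (χ_{h_i}) ∘ Φ`, `s_j = s_j ∘ Φ + const`, so
`det (∂_μ rwc (γ · smp h)) = det (∂_μ rwc (smp h)) ∘ Φ · det (jac Φ)`, and the integral over `F` of the term is the integral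
over `Φ(F)` of `c (smp h) χ det(∂_μ rwc (smp h))` (change of variables, `0 < det jac Φ`). The sets `Φ_γ(F)`, `γ ∈ G`, are disjoint
with union everything (`Act.Fund.unfold` may help). Only finitely many `(γ, h)` contribute (`IsProper`, `F` bounded,
`χ` compact support; a determinant with a zero row), so sums and integrals may be exchanged. -/
theorem unfold_sum (g : Geo (2 * m)) (a : Act G (2 * m)) (ha : a.Iso g) {F : Set (V (2 * m))}
    (hF : a.Fund F) (hp : IsProper a) (h : n + k = 2 * m) {s : V (2 * m) → V k}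
    (hs : IsAdd a s) {χ : V (2 * m) → ℝ} (hχ : IsPU a χ) {c : (Fin (n + 1) → G) → ℝ}
    (hc : ∀ γ g, c (fun i => γ * g i) = c g) :
    ∫ y in F, ∑' f : Fin (n + 1) → G, c f * ch a χ (f 0) y *
      (Matrix.of fun i μ : Fin (2 * m) => pd μ (rwc a χ s h f i) y).det =
    ∑ᶠ l : Fin n → G, c (SVS.smp l) * ∫ y, χ y *
      (Matrix.of fun i μ : Fin (2 * m) => pd μ (rwc a χ s h (SVS.smp l) i) y).det := by
  classical
  have hSfin := Z2_fin a hp h s hχ
  obtain ⟨S, hS⟩ : ∃ S, S = hSfin.toFinset := ⟨_, rfl⟩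
  have hSn : ∀ l, l ∉ S → ∀ y, χ y * Z2_D a χ s h (SVS.smp l) y = 0 := by
    intro l hl y
    by_contra h0
    rw [hS, Set.Finite.mem_toFinset] at hl
    exact hl ⟨y, h0⟩
  obtain ⟨gl, hgl⟩ : ∃ gl : (Fin n → G) → V (2 * m) → ℝ,
    gl = fun l y => χ y * Z2_D a χ s h (SVS.smp l) y := ⟨_, rfl⟩
  have hglc : ∀ l, Continuous (gl l) := fun l => by
    rw [hgl]
    exact Z2_cont a hχ.smooth hs.smooth h _
  obtain ⟨R₀, hR₀⟩ := hχ.supp.isCompact.isBounded.subset_closedBall (0 : V (2 * m))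
  obtain ⟨R₁, hR₁⟩ := hF.bdd.subset_closedBall (0 : V (2 * m))
  obtain ⟨R, hR⟩ : ∃ R, R = max R₀ R₁ := ⟨_, rfl⟩
  have hFR : ∀ y ∈ F, ‖y‖ ≤ R := by
    intro y hy
    have := hR₁ hy
    rw [Metric.mem_closedBall, dist_zero_right] at this
    rw [hR]
    exact this.trans (le_max_right _ _)
  have hχR : ∀ y, χ y ≠ 0 → ‖y‖ ≤ R := by
    intro y hy
    have := hR₀ (subset_tsupport _ (Function.mem_support.2 hy))
    rw [Metric.mem_closedBall, dist_zero_right] at this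
    rw [hR]
    exact this.trans (le_max_left _ _)
  obtain ⟨A, hA⟩ : ∃ A, A = (hp R).toFinset := ⟨_, rfl⟩
  have hAm : ∀ γ, ∀ y ∈ F, χ (a.act γ y) ≠ 0 → γ ∈ A := by
    intro γ y hy h0
    rw [hA, Set.Finite.mem_toFinset]
    exact ⟨y, hFR y hy, hχR _ h0⟩
  -- the terms
  obtain ⟨v, hv⟩ : ∃ v : (Fin n → G) → G → V (2 * m) → ℝ,
    v = fun l γ y => (jac (a.act γ) y).det * gl l (a.act γ y) := ⟨_, rfl⟩
  have hjc : ∀ γ, Continuous fun y => (jac (a.act γ) y).det := by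
    intro γ
    refine Continuous.matrix_det ?_
    exact continuous_matrix fun i j => (contDiff_jac (a.smooth γ) i j).continuous
  have hvc : ∀ l γ, Continuous (v l γ) := by
    intro l γ
    rw [hv]
    exact (hjc γ).mul ((hglc l).comp (a.smooth γ).continuous)
  have hv0 : ∀ l γ, ∀ y ∈ F, γ ∉ A → v l γ y = 0 := by
    intro l γ y hy hγ
    have h1 : χ (a.act γ y) = 0 := by
      by_contra h0
      exact hγ (hAm γ y hy h0)
    rw [hv, hgl]
    simp only
    rw [h1, zero_mul, mul_zero]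
  have hvl : ∀ l, l ∉ S → ∀ γ y, v l γ y = 0 := by
    intro l hl γ y
    rw [hv, hgl]
    simp only
    rw [hSn l hl, mul_zero]
  -- unfolding for every `l`
  have hunf : ∀ l, ∫ y, gl l y = ∫ y in F, ∑' γ : G, v l γ y := by
    intro l
    have hb : ∀ γ, ∃ C : ℝ, ∀ y, ‖y‖ ≤ R → |v l γ y| ≤ C := by
      intro γ
      obtain ⟨C, hC⟩ := (isCompact_closedBall (0 : V (2 * m)) R).exists_bound_of_continuousOn
        (hvc l γ).continuousOn
      exact ⟨C, fun y hy => by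
        have := hC y (by rwa [Metric.mem_closedBall, dist_zero_right])
        rwa [Real.norm_eq_abs] at this⟩
    choose C hC using hb
    have h1 := (hF.unfold (fun γ y => ha.ori γ y) (hglc l) (B := ∑ γ ∈ A, C γ) ?_).2
    · rw [h1, hv]
    · intro y hy T
      have h2 : ∑ γ ∈ T, |(jac (a.act γ) y).det * gl l (a.act γ y)| =
          ∑ γ ∈ T, |v l γ y| := by rw [hv]
      rw [h2]
      have h3 : ∑ γ ∈ T, |v l γ y| = ∑ γ ∈ T.filter (fun γ => γ ∈ A), |v l γ y| := by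
        refine (Finset.sum_subset (Finset.filter_subset _ _) fun γ hγ hn => ?_).symm
        rw [hv0 l γ y hy fun h0 => hn (Finset.mem_filter.2 ⟨hγ, h0⟩), abs_zero]
      rw [h3]
      have h4 : T.filter (fun γ => γ ∈ A) ⊆ A := fun γ hγ => (Finset.mem_filter.1 hγ).2
      exact (Finset.sum_le_sum_of_subset_of_nonneg h4 fun _ _ _ => abs_nonneg _).trans
        (Finset.sum_le_sum fun γ _ => hC γ y (hFR y hy))
  -- the sum over the simplices
  obtain ⟨B, hB⟩ : ∃ B : Finset G, B = A.image fun γ => γ⁻¹ := ⟨_, rfl⟩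
  have hBm : ∀ γ, γ ∉ B → γ⁻¹ ∉ A := by
    intro γ hγ h0
    rw [hB] at hγ
    exact hγ (Finset.mem_image.2 ⟨γ⁻¹, h0, inv_inv γ⟩)
  have hterm : ∀ (p : G × (Fin n → G)) y, c (Z2_e G n p) * ch a χ (Z2_e G n p 0) y *
      (Matrix.of fun i μ : Fin (2 * m) => pd μ (rwc a χ s h (Z2_e G n p) i) y).det =
      c (SVS.smp p.2) * v p.2 p.1⁻¹ y := by
    intro p y
    have h1 : (Matrix.of fun i μ : Fin (2 * m) => pd μ (rwc a χ s h (Z2_e G n p) i) y).det =
        (jac (a.act p.1⁻¹) y).det * Z2_D a χ s h (SVS.smp p.2) (a.act p.1⁻¹ y) :=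
      Z2_det a hχ.smooth hs h p.1 (SVS.smp p.2) y
    have h2 : c (Z2_e G n p) = c (SVS.smp p.2) := hc p.1 (SVS.smp p.2)
    have h3 : ch a χ (Z2_e G n p 0) y = χ (a.act p.1⁻¹ y) := by
      show χ (a.act (p.1 * SVS.smp p.2 0)⁻¹ y) = _
      rw [SVS.smp, Fin.cons_zero, mul_one]
    rw [h1, h2, h3, hv, hgl]
    ring
  have hsum : ∀ y ∈ F, ∑' f : Fin (n + 1) → G, c f * ch a χ (f 0) y *
      (Matrix.of fun i μ : Fin (2 * m) => pd μ (rwc a χ s h f i) y).det =
      ∑ l ∈ S, c (SVS.smp l) * ∑ γ ∈ B, v l γ⁻¹ y := by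
    intro y hy
    rw [← (Z2_e G n).tsum_eq]
    have h1 : ∀ p : G × (Fin n → G), c (Z2_e G n p) * ch a χ (Z2_e G n p 0) y *
      (Matrix.of fun i μ : Fin (2 * m) => pd μ (rwc a χ s h (Z2_e G n p) i) y).det =
      c (SVS.smp p.2) * v p.2 p.1⁻¹ y := fun p => hterm p y
    rw [tsum_congr h1, tsum_eq_sum (s := B ×ˢ S)]
    · rw [Finset.sum_product_right]
      exact Finset.sum_congr rfl fun l _ => by rw [Finset.mul_sum]
    · intro p hpn
      rw [Finset.mem_product, not_and_or] at hpn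
      rcases hpn with h2 | h2
      · rw [hv0 p.2 p.1⁻¹ y hy (hBm p.1 h2), mul_zero]
      · rw [hvl p.2 h2, mul_zero]
  have hv' : ∀ l, ∀ y ∈ F, ∑ γ ∈ B, v l γ⁻¹ y = ∑' γ : G, v l γ y := by
    intro l y hy
    have h1 : ∑' γ : G, v l γ⁻¹ y = ∑' γ : G, v l γ y :=
      (Equiv.inv G).tsum_eq fun γ => v l γ y
    rw [← h1, tsum_eq_sum (s := B)]
    intro γ hγ
    exact hv0 l γ⁻¹ y hy (hBm γ hγ)
  have hvi : ∀ l, IntegrableOn (fun y => ∑ γ ∈ B, v l γ⁻¹ y) F := by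
    intro l
    have h1 : Continuous fun y => ∑ γ ∈ B, v l γ⁻¹ y :=
      continuous_finsetSum _ fun γ _ => hvc l γ⁻¹
    exact (h1.continuousOn.integrableOn_compact (isCompact_closedBall (0 : V (2 * m)) R)).mono_set
      fun y hy => by
        rw [Metric.mem_closedBall, dist_zero_right]
        exact hFR y hy
  rw [setIntegral_congr_fun hF.meas hsum, integral_finsetSum _ fun l _ => (hvi l).const_mul _]
  have h1 : ∀ l, ∫ y in F, c (SVS.smp l) * ∑ γ ∈ B, v l γ⁻¹ y = c (SVS.smp l) * ∫ y, gl l y := by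
    intro l
    rw [integral_const_mul, hunf l, setIntegral_congr_fun hF.meas (hv' l)]
  rw [Finset.sum_congr rfl fun l _ => h1 l]
  have h2 : ∀ l, ∫ y, gl l y = ∫ y, χ y *
      (Matrix.of fun i μ : Fin (2 * m) => pd μ (rwc a χ s h (SVS.smp l) i) y).det := by
    intro l
    rw [hgl]
    rfl
  rw [finsum_eq_sum_of_support_subset (s := S)]
  · exact Finset.sum_congr rfl fun l _ => by rw [h2 l]
  · intro l hl
    by_contra hlS
    refine hl ?_
    simp only
    rw [← h2 l]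
    have h3 : gl l = fun _ => 0 := by
      funext y
      rw [hgl]
      exact hSn l hlS y
    rw [h3, integral_zero, mul_zero]

/-- Only finitely many simplices have a nonzero coefficient. -/
theorem finite_fund (a : Act G (2 * m)) (hp : IsProper a) (h : n + k = 2 * m)
    (s : V (2 * m) → V k) {χ : V (2 * m) → ℝ} (hχ : IsPU a χ) :
    {l : Fin n → G | (∫ y, χ y *
      (Matrix.of fun i μ : Fin (2 * m) => pd μ (rwc a χ s h (SVS.smp l) i) y).det) ≠ 0}.Finite := by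
  refine (Z2_fin a hp h s hχ).subset fun l hl => ?_
  by_contra h0
  refine hl ?_
  have h1 : ∀ y, χ y *
      (Matrix.of fun i μ : Fin (2 * m) => pd μ (rwc a χ s h (SVS.smp l) i) y).det = 0 := by
    intro y
    by_contra h2
    exact h0 ⟨y, h2⟩
  rw [integral_congr_ae (Filter.Eventually.of_forall h1), integral_zero]

end Pool.Agent.Lib.MP_df705a_gt.SV
end
end
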