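import Pool.Agent.Lib.MP_df705a_gt.CG.Q1
import Pool.Agent.Lib.MP_df705a_gt.CG.St
import Pool.Agent.Lib.MP_df705a_gt.SV.Z5
import Pool.Agent.Lib.MP_df705a_gt.Mg.G090
import Pool.Agent.Lib.MP_df705a_gt.Mg.G095

section

/-!
# The action of `π₁(M) × ℤᵏ`
-/

open scoped Manifold ContDiff Topology
open Set Filter

noncomputable section

namespace Pool.Agent.Lib.MP_df705a_gt.CG

open Pool.Agent.Lib.MP_df705a_gt.SVS (V Act Deck jdet)

/-- The group `ℤᵏ`. -/
abbrev Zk (k : ℕ) : Type := Multiplicative (Fin k → ℤ)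

/-- An integer vector as a real vector. -/
def vec {k : ℕ} (c : Zk k) : V k := WithLp.toLp 2 fun j => ((Multiplicative.toAdd c j : ℤ) : ℝ)

lemma vec_apply {k : ℕ} (c : Zk k) (j : Fin k) : vec c j = ((Multiplicative.toAdd c j : ℤ) : ℝ) := rfl

lemma vec_one {k : ℕ} : vec (1 : Zk k) = 0 := by
  ext j
  rw [vec_apply, toAdd_one]
  simp

lemma vec_mul {k : ℕ} (c d : Zk k) : vec (c * d) = vec c + vec d := by
  ext j
  rw [PiLp.add_apply, vec_apply, vec_apply, vec_apply, toAdd_mul, Pi.add_apply]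
  push_cast
  rfl

lemma vec_inj {k : ℕ} {c d : Zk k} (h : vec c = vec d) : c = d := by
  apply Multiplicative.toAdd.injective
  funext j
  have := congrArg (fun v : V k => v j) h
  simp only [vec_apply] at this
  exact_mod_cast this

section Jac

variable {m : ℕ}

lemma jdet_comp {Φ Ψ : V (2 * m) → V (2 * m)} (hΦ : ContDiff ℝ ∞ Φ) (hΨ : ContDiff ℝ ∞ Ψ)
    (y : V (2 * m)) : jdet (fun y => Ψ (Φ y)) y = jdet Ψ (Φ y) * jdet Φ y := by
  have h1 : (RL.jac (fun y => Ψ (Φ y)) y).det = jdet (fun y => Ψ (Φ y)) y :=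
    SVS.jdet_eq (hΨ.comp hΦ) y
  rw [← h1, ← SVS.jdet_eq hΨ, ← SVS.jdet_eq hΦ, ← Matrix.det_mul, ← RL.jac_comp hΦ hΨ]

lemma jdet_id (y : V (2 * m)) : jdet (fun y : V (2 * m) => y) y = 1 := by
  have h1 : (RL.jac (fun y : V (2 * m) => y) y).det = jdet (fun y : V (2 * m) => y) y :=
    SVS.jdet_eq contDiff_id y
  rw [← h1]
  have : RL.jac (fun y : V (2 * m) => y) y = 1 := by
    ext i j
    simp only [RL.jac, Matrix.of_apply, RL.bv]
    rw [fderiv_fun_id, ContinuousLinearMap.id_apply, Matrix.one_apply, PiLp.single_apply]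
  rw [this, Matrix.det_one]

lemma continuous_jdet {Φ : V (2 * m) → V (2 * m)} (hΦ : ContDiff ℝ ∞ Φ) : Continuous (jdet Φ) := by
  have h : jdet Φ = fun y => (RL.jac Φ y).det := funext fun y => (SVS.jdet_eq hΦ y).symm
  rw [h]
  refine Continuous.matrix_det (continuous_matrix fun i j => ?_)
  show Continuous fun y => (fderiv ℝ Φ y (RL.bv j)) i
  have h1 : Continuous fun y => fderiv ℝ Φ y := hΦ.continuous_fderiv (by simp)
  have h2 : Continuous fun y => fderiv ℝ Φ y (RL.bv j) := h1.clm_apply continuous_const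
  exact (EuclideanSpace.proj i : V (2 * m) →L[ℝ] ℝ).continuous.comp h2

/-- The square of a diffeomorphism preserves the orientation. -/
lemma jdet_sq_pos {Φ Ψ : V (2 * m) → V (2 * m)} (hΦ : ContDiff ℝ ∞ Φ) (hΨ : ContDiff ℝ ∞ Ψ)
    (h : ∀ y, Ψ (Φ y) = y) (y : V (2 * m)) : 0 < jdet (fun y => Φ (Φ y)) y := by
  have h0 : ∀ y, jdet Φ y ≠ 0 := by
    intro y h0
    have h1 := jdet_comp hΦ hΨ y
    have h2 : (fun y => Ψ (Φ y)) = fun y => y := funext h
    rw [h2, jdet_id, h0, mul_zero] at h1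
    exact one_ne_zero h1
  rw [jdet_comp hΦ hΦ]
  have hc := continuous_jdet hΦ
  rcases lt_or_gt_of_ne (h0 y) with h1 | h1 <;> rcases lt_or_gt_of_ne (h0 (Φ y)) with h2 | h2
  · exact mul_pos_of_neg_of_neg h2 h1
  · obtain ⟨z, hz⟩ := mem_range_of_exists_le_of_exists_ge hc ⟨y, h1.le⟩ ⟨Φ y, h2.le⟩
    exact absurd hz (h0 z)
  · obtain ⟨z, hz⟩ := mem_range_of_exists_le_of_exists_ge hc ⟨Φ y, h2.le⟩ ⟨y, h1.le⟩
    exact absurd hz (h0 z)
  · exact mul_pos h2 h1

end Jac

variable {n k m : ℕ} {M : Type*} [TopologicalSpace M] [ChartedSpace (V n) M]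
  [IsManifold 𝓘(ℝ, V n) ∞ M] {q : V (2 * m) → M} {s : V (2 * m) → V k}
  {Γ : Type*} [Group Γ]

/-- The group `Γ × ℤᵏ` is the group of the deck transformations of the covering of `M × Tᵏ`. -/
theorem exists_deck (H : Pin.StableCover (V n) q s) {a : Act Γ (2 * m)} (ha : UDeck a q s)
    (ori : ∀ γ y, 0 < jdet (a.act γ) y) :
    ∃ b : Act (Γ × Zk k) (2 * m), Deck b q s ∧ ∀ γ y, 0 < jdet (b.act γ) y := by
  obtain ⟨Θ, hΘ, hqs, h0, hadd, hcomm⟩ := exists_flow H
  have hcm : ∀ γ w u, a.act γ (Θ w u) = Θ (a.act γ w) u := fun γ =>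
    hcomm (a.act γ) 0 (a.smooth γ).continuous fun w => by
      rw [add_zero]; exact ha.cover γ w
  refine ⟨⟨fun g y => a.act g.1 (Θ y (vec g.2)), fun y => ?_, fun g h y => ?_, fun g => ?_⟩,
    ⟨fun g => ⟨Multiplicative.toAdd g.2, fun y => ⟨?_, fun j => ?_⟩⟩, fun y z hq hs => ?_⟩,
    fun g y => ?_⟩
  · rw [Prod.fst_one, Prod.snd_one, vec_one, h0, a.one]
  · rw [Prod.fst_mul, Prod.snd_mul, vec_mul, a.mul, add_comm (vec g.2), ← hadd, hcm h.1, hcm h.1]
  · exact (a.smooth g.1).comp (hΘ _)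
  · exact ((ha.cover _ _).1).trans (hqs _ _).1
  · change s (a.act g.1 (Θ y (vec g.2))) j = _
    rw [(ha.cover _ _).2, (hqs _ _).2, PiLp.add_apply, vec_apply]
  · choose c hc using hs
    have hsz : s z = s y + vec (Multiplicative.ofAdd c : Zk k) := by
      ext j
      rw [PiLp.add_apply, vec_apply]
      exact hc j
    set v : V k := vec (Multiplicative.ofAdd c : Zk k) with hv
    obtain ⟨γ, hγ, hun⟩ := ha.trans y (Θ z (-v)) (by rw [(hqs _ _).1, hq])
      (by rw [(hqs _ _).2, hsz, add_neg_cancel_right])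
    refine ⟨(γ, Multiplicative.ofAdd c), ?_, ?_⟩
    · change a.act γ (Θ y v) = z
      rw [hcm]
      change a.act γ y = Θ z (-v) at hγ
      rw [hγ, hadd, neg_add_cancel, h0]
    · rintro ⟨γ', d⟩ hd
      change a.act γ' (Θ y (vec d)) = z at hd
      have h1 : s z = s y + vec d := by rw [← hd, (ha.cover _ _).2, (hqs _ _).2]
      have h2 : vec d = v := add_left_cancel (h1.symm.trans hsz)
      have h3 : d = Multiplicative.ofAdd c := vec_inj h2
      refine Prod.ext (hun γ' ?_) h3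
      change a.act γ' y = Θ z (-v)
      rw [← hd, h2, hcm, hadd, add_neg_cancel, h0]
  · change 0 < jdet (fun y => a.act g.1 (Θ y (vec g.2))) y
    rw [jdet_comp (hΘ _) (a.smooth _)]
    refine mul_pos (ori _ _) ?_
    set v : V k := vec g.2 with hv
    have h1 : (fun y => Θ y v) = fun y => Θ (Θ y ((1 / 2 : ℝ) • v)) ((1 / 2 : ℝ) • v) := by
      funext y
      rw [hadd, ← add_smul]
      norm_num
    rw [h1]
    exact jdet_sq_pos (hΘ ((1 / 2 : ℝ) • v)) (hΘ (-((1 / 2 : ℝ) • v)))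
      (fun y => by rw [hadd, add_neg_cancel, h0]) y

end Pool.Agent.Lib.MP_df705a_gt.CG
end
end

section

/-!
# The product of a fillable group with `ℤᵏ` is fillable
-/

set_option linter.unusedSectionVars false

noncomputable section

namespace Pool.Agent.Lib.MP_df705a_gt.CG

open Pool.Agent.Lib.MP_df705a_gt.Comb (C d dS cone mp prism)
open Pool.Agent.Lib.MP_df705a_gt.SVS (IsLength)

/-- The sum of the prism operators of the paths `σ` up to the time `T`. -/
def comP {G : Type*} (σ : ℕ → G → G) (T : ℕ) (k : ℕ) : C G (k + 1) →ₗ[ℝ] C G (k + 2) :=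
  ∑ t ∈ Finset.range T, (prism (σ t) (σ (t + 1)) (k + 1) - prism (fun g => g) (fun g => g) (k + 1))

lemma comP_apply {G : Type*} (σ : ℕ → G → G) (T : ℕ) {k : ℕ} (w : C G (k + 1)) :
    comP σ T k w = ∑ t ∈ Finset.range T, (prism (σ t) (σ (t + 1)) (k + 1) w -
      prism (fun g => g) (fun g => g) (k + 1) w) := by
  simp [comP, LinearMap.sum_apply]

lemma d_comP {G : Type*} [Group G] {σ : ℕ → G → G} {T : ℕ} {k : ℕ} {w : C G (k + 1)}
    (hT : ∀ x, w x ≠ 0 → ∀ i, σ T (x i) = x i) (hw : d w = 0) :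
    d (comP σ T k w) = w - mp (σ 0) w := by
  rw [comP_apply, map_sum]
  have h1 : ∀ t ∈ Finset.range T, d (prism (σ t) (σ (t + 1)) (k + 1) w -
      prism (fun g => g) (fun g => g) (k + 1) w) = mp (σ (t + 1)) w - mp (σ t) w := by
    intro t _
    rw [map_sub, Comb.d_prism, Comb.d_prism, hw, map_zero, map_zero, sub_zero, sub_zero,
      Comb.mp_id, sub_self, sub_zero]
  rw [Finset.sum_congr rfl h1, Finset.sum_range_sub (fun t => mp (σ t) w),
    mp_eq (σ T) (fun g => g) hT, Comb.mp_id]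

section Clamp

variable {k : ℕ}

/-- The norm of an integer vector. -/
def nz (c : Zk k) : ℝ := ‖(Multiplicative.toAdd c : Fin k → ℤ)‖

/-- The vector with the entries clamped to the interval `[-t, t]`. -/
def clamp (t : ℕ) (c : Zk k) : Zk k :=
  Multiplicative.ofAdd fun j => max (-(t : ℤ)) (min t (Multiplicative.toAdd c j))

lemma nz_nonneg (c : Zk k) : 0 ≤ nz c := norm_nonneg _

lemma nz_le {c : Zk k} {R : ℝ} (hR : 0 ≤ R) (h : ∀ j, |((Multiplicative.toAdd c j : ℤ) : ℝ)| ≤ R) :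
    nz c ≤ R := by
  rw [nz, pi_norm_le_iff_of_nonneg hR]
  intro j
  rw [Int.norm_eq_abs]
  exact h j

lemma le_nz (c : Zk k) (j : Fin k) : |((Multiplicative.toAdd c j : ℤ) : ℝ)| ≤ nz c := by
  rw [← Int.norm_eq_abs]
  exact norm_le_pi_norm (Multiplicative.toAdd c : Fin k → ℤ) j

lemma nz_one : nz (1 : Zk k) = 0 := by rw [nz, toAdd_one, norm_zero]

lemma nz_inv (c : Zk k) : nz c⁻¹ = nz c := by rw [nz, nz, toAdd_inv, norm_neg]

lemma nz_mul (c d : Zk k) : nz (c * d) ≤ nz c + nz d := by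
  rw [nz, nz, nz, toAdd_mul]; exact norm_add_le _ _

lemma clamp_zero (c : Zk k) : clamp 0 c = 1 := by
  apply Multiplicative.toAdd.injective
  funext j
  rw [clamp, toAdd_ofAdd, toAdd_one, Pi.zero_apply]
  omega

lemma clamp_eq {t : ℕ} {c : Zk k} (h : nz c ≤ t) : clamp t c = c := by
  apply Multiplicative.toAdd.injective
  funext j
  have h1 : |(Multiplicative.toAdd c j : ℤ)| ≤ (t : ℤ) := by
    have := (le_nz c j).trans h
    exact_mod_cast this
  rw [abs_le] at h1
  rw [clamp, toAdd_ofAdd]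
  omega

lemma nz_clamp (t : ℕ) (c : Zk k) : nz (clamp t c) ≤ nz c := by
  refine nz_le (nz_nonneg c) fun j => (le_trans ?_ (le_nz c j))
  rw [clamp, toAdd_ofAdd]
  have : |max (-(t : ℤ)) (min t (Multiplicative.toAdd c j))| ≤ |(Multiplicative.toAdd c j : ℤ)| := by
    rcases abs_cases (Multiplicative.toAdd c j : ℤ) with h | h <;>
      rw [abs_le] <;> constructor <;> omega
  exact_mod_cast this

/-- The distance of two clamped vectors. -/
lemma nz_clamp_clamp (t : ℕ) (c e : Zk k) : nz ((clamp t c)⁻¹ * clamp t e) ≤ nz (c⁻¹ * e) := by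
  refine nz_le (nz_nonneg _) fun j => (le_trans ?_ (le_nz _ j))
  rw [toAdd_mul, toAdd_inv, toAdd_mul, toAdd_inv, Pi.add_apply, Pi.neg_apply, Pi.add_apply,
    Pi.neg_apply, clamp, clamp, toAdd_ofAdd, toAdd_ofAdd]
  have : |-(max (-(t : ℤ)) (min t (Multiplicative.toAdd c j))) +
      max (-(t : ℤ)) (min t (Multiplicative.toAdd e j))| ≤
      |-(Multiplicative.toAdd c j : ℤ) + Multiplicative.toAdd e j| := by
    rcases abs_cases (-(Multiplicative.toAdd c j : ℤ) + Multiplicative.toAdd e j) with h | h <;>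
      rw [abs_le] <;> constructor <;> omega
  exact_mod_cast this

lemma nz_clamp_succ (t : ℕ) (c : Zk k) : nz ((clamp t c)⁻¹ * clamp (t + 1) c) ≤ 1 := by
  refine nz_le zero_le_one fun j => ?_
  rw [toAdd_mul, toAdd_inv, Pi.add_apply, Pi.neg_apply, clamp, clamp, toAdd_ofAdd, toAdd_ofAdd]
  have : |-(max (-(t : ℤ)) (min t (Multiplicative.toAdd c j))) +
      max (-((t + 1 : ℕ) : ℤ)) (min ((t + 1 : ℕ) : ℤ) (Multiplicative.toAdd c j))| ≤ 1 := by
    rw [abs_le]; constructor <;> omega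
  exact_mod_cast this

end Clamp

variable {Γ : Type*} [Group Γ] {k : ℕ} {ℓ : Γ → ℝ}

/-- The length function on the product. -/
def lenP (ℓ : Γ → ℝ) (g : Γ × Zk k) : ℝ := ℓ g.1 + nz g.2

lemma isLength_lenP (hℓ : IsLength ℓ) : IsLength (lenP (k := k) ℓ) := by
  refine ⟨?_, fun g => add_nonneg (hℓ.nonneg _) (nz_nonneg _), fun g => ?_, fun g h => ?_⟩
  · rw [lenP, Prod.fst_one, Prod.snd_one, hℓ.one, nz_one, add_zero]
  · rw [lenP, lenP, Prod.fst_inv, Prod.snd_inv, hℓ.inv, nz_inv]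
  · rw [lenP, lenP, lenP, Prod.fst_mul, Prod.snd_mul]
    linarith [hℓ.mul g.1 h.1, nz_mul g.2 h.2]

lemma finite_lenP (hℓ : IsLength ℓ) (hfin : ∀ r, {γ | ℓ γ ≤ r}.Finite) (r : ℝ) :
    {g : Γ × Zk k | lenP ℓ g ≤ r}.Finite := by
  have h1 : {c : Zk k | nz c ≤ r}.Finite := by
    have h2 : (Set.Icc (fun _ : Fin k => -⌈|r|⌉) (fun _ : Fin k => ⌈|r|⌉)).Finite :=
      Set.finite_Icc _ _
    refine (h2.preimage (Multiplicative.toAdd.injective.injOn)).subset fun c hc => ?_
    have h3 : ∀ j, |(Multiplicative.toAdd c j : ℤ)| ≤ ⌈|r|⌉ := by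
      intro j
      have h4 : |((Multiplicative.toAdd c j : ℤ) : ℝ)| ≤ |r| :=
        (le_nz c j).trans ((show nz c ≤ r from hc).trans (le_abs_self r))
      have h5 : |((Multiplicative.toAdd c j : ℤ) : ℝ)| ≤ (⌈|r|⌉ : ℝ) := h4.trans (Int.le_ceil _)
      exact_mod_cast h5
    exact ⟨fun j => (abs_le.1 (h3 j)).1, fun j => (abs_le.1 (h3 j)).2⟩
  refine ((hfin r).prod h1).subset fun g hg => ?_
  have hg' : ℓ g.1 + nz g.2 ≤ r := hg
  exact ⟨by show ℓ g.1 ≤ r; linarith [nz_nonneg g.2], by show nz g.2 ≤ r; linarith [hℓ.nonneg g.1]⟩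

/-- The paths in the product. -/
def pth (t : ℕ) (g : Γ × Zk k) : Γ × Zk k := (g.1, clamp t g.2)

lemma len_pth (t : ℕ) (g h : Γ × Zk k) : lenP ℓ ((pth t g)⁻¹ * pth t h) ≤ lenP ℓ (g⁻¹ * h) := by
  rw [lenP, lenP]
  have := nz_clamp_clamp t g.2 h.2
  simp only [pth, Prod.fst_mul, Prod.snd_mul, Prod.fst_inv, Prod.snd_inv]
  linarith

lemma len_pth_succ (hℓ : IsLength ℓ) (t : ℕ) (g : Γ × Zk k) :
    lenP ℓ ((pth t g)⁻¹ * pth (t + 1) g) ≤ 1 := by
  rw [lenP]
  have := nz_clamp_succ t g.2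
  simp only [pth, Prod.fst_mul, Prod.snd_mul, Prod.fst_inv, Prod.snd_inv, inv_mul_cancel, hℓ.one]
  linarith

end Pool.Agent.Lib.MP_df705a_gt.CG
end
end

section

/-!
# The product of a fillable group with `ℤᵏ` is fillable, 2
-/

set_option linter.unusedSectionVars false

noncomputable section

namespace Pool.Agent.Lib.MP_df705a_gt.CG

open Pool.Agent.Lib.MP_df705a_gt.Comb (C d dS cone mp prism)
open Pool.Agent.Lib.MP_df705a_gt.SVS (IsLength)

variable {Γ : Type*} [Group Γ] {k n : ℕ} {ℓ : Γ → ℝ}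

/-- The weights on the product. -/
def uP (u : ℕ → Γ → ℝ) (n i : ℕ) (g : Γ × Zk k) : ℝ := u i g.1 * (1 + nz g.2) ^ (n - i)

lemma sw_nonneg {G : Type*} {u : G → ℝ} (hu : ∀ g, 0 ≤ u g) {j : ℕ} (x : Fin j → G) : 0 ≤ sw u x :=
  Finset.sum_nonneg fun _ _ => hu _

/-- The estimate of the norm of the prism operators of the paths. -/
lemma N_prism {G : Type*} [Group G] {f f' : G → G} {u : G → ℝ} (hu : ∀ g, 0 ≤ u g)
    (hf : ∀ g, u (f g) ≤ u g) (hf' : ∀ g, u (f' g) ≤ u g) {i : ℕ} (x : Fin (i + 1) → G) :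
    N (sw u) (prism f f' (i + 1) (Finsupp.single x 1)) ≤ (i + 1) * ((i + 2) * sw u x) := by
  have h1 := VIn_prism f f' x (S := {a | u a ≤ sw u x})
    (fun j => (hf _).trans (Finset.single_le_sum (f := fun j => u (x j)) (fun _ _ => hu _)
      (Finset.mem_univ j)))
    (fun j => (hf' _).trans (Finset.single_le_sum (f := fun j => u (x j)) (fun _ _ => hu _)
      (Finset.mem_univ j)))
  refine (N_le_l1 (b := (i + 2) * sw u x) fun y hy => ?_).trans
    (mul_le_mul_of_nonneg_right ?_ (mul_nonneg (by positivity) (sw_nonneg hu x)))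
  · calc sw u y = ∑ j, u (y j) := rfl
      _ ≤ ∑ _j : Fin (i + 2), sw u x := Finset.sum_le_sum fun j _ => h1 y hy j
      _ = (i + 2) * sw u x := by
          rw [Finset.sum_const, Finset.card_univ, Fintype.card_fin, nsmul_eq_mul]; push_cast; ring
  · have := l1_prism_le f f' x
    push_cast at this
    linarith

/-- The product of a fillable group with `ℤᵏ` is fillable. -/
theorem Fillable.prod (hℓ : IsLength ℓ) (h : Fillable ℓ n) : Fillable (lenP (k := k) ℓ) n := by
  classical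
  intro δ hδ
  obtain ⟨u, A, hu1, hmono, hmul, hfill⟩ := h δ hδ
  obtain ⟨A₁, hA₁, hexp⟩ := pow_le_exp hδ n
  have hu0 : ∀ i g, 0 ≤ u i g := fun i g => zero_le_one.trans (hu1 i g)
  have hAe : ∀ g, 0 ≤ A * Real.exp (δ * ℓ g) := by
    intro g
    have h1 := (hu1 0 (g * 1)).trans (hmul 0 g 1)
    by_contra h2
    have := mul_nonpos_of_nonpos_of_nonneg (not_le.1 h2).le (hu0 0 1)
    linarith
  have hU0 : ∀ i (g : Γ × Zk k), 0 ≤ uP u n i g := fun i g =>
    mul_nonneg (hu0 i _) (pow_nonneg (by linarith [nz_nonneg g.2]) _)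
  refine ⟨uP u n, A * A₁, fun i g => ?_, fun i g => ?_, fun i g h => ?_, fun i hi r => ?_⟩
  · exact one_le_mul_of_one_le_of_one_le (hu1 i _) (one_le_pow₀ (by linarith [nz_nonneg g.2]))
  · exact mul_le_mul (hmono i _) (pow_le_pow_right₀ (by linarith [nz_nonneg g.2]) (by omega))
      (pow_nonneg (by linarith [nz_nonneg g.2]) _) (hu0 _ _)
  · -- the translations
    have hg := nz_nonneg g.2
    have hh := nz_nonneg h.2
    have h1 : 1 + nz (g * h).2 ≤ (1 + nz g.2) * (1 + nz h.2) := by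
      rw [Prod.snd_mul]; nlinarith [nz_mul g.2 h.2]
    have h2 : (1 + nz (g * h).2) ^ (n - i) ≤ A₁ * Real.exp (δ * nz g.2) * (1 + nz h.2) ^ (n - i) := by
      calc (1 + nz (g * h).2) ^ (n - i) ≤ ((1 + nz g.2) * (1 + nz h.2)) ^ (n - i) :=
            pow_le_pow_left₀ (by linarith [nz_nonneg (g * h).2]) h1 _
        _ = (1 + nz g.2) ^ (n - i) * (1 + nz h.2) ^ (n - i) := mul_pow _ _ _
        _ ≤ _ := mul_le_mul_of_nonneg_right ((pow_le_pow_right₀ (by linarith)
            (Nat.sub_le _ _)).trans (hexp _ hg)) (by positivity)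
    have h3 := hmul i g.1 h.1
    have h4 := mul_le_mul h3 h2 (pow_nonneg (by linarith [nz_nonneg (g * h).2]) _)
      (mul_nonneg (hAe g.1) (hu0 _ _))
    calc uP u n i (g * h) = u i (g.1 * h.1) * (1 + nz (g * h).2) ^ (n - i) := rfl
      _ ≤ _ := h4
      _ = A * A₁ * Real.exp (δ * lenP ℓ g) * uP u n i h := by
          have h5 : Real.exp (δ * lenP ℓ g) = Real.exp (δ * ℓ g.1) * Real.exp (δ * nz g.2) := by
            rw [← Real.exp_add, lenP]; congr 1; ring
          rw [h5, uP]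
          ring
  · -- the fillings
    obtain ⟨R, K, hRK⟩ := hfill i hi r
    set r' : ℝ := |r| with hr'
    refine ⟨max R (r' + 1), (2 * ((i + 1) * (i + 2)) * (2 * r' + 1)) + |K|, fun w hw hwd => ?_⟩
    rw [isRips_iff] at hw
    rw [bd_eq] at hwd
    have hr0 : 0 ≤ r' := abs_nonneg _
    -- the part over `Γ`
    set wΓ : C Γ (i + 1) := mpx Prod.fst w with hwΓ
    obtain ⟨yΓ, hyR, hyd, hyn⟩ := hRK wΓ (by
      rw [isRips_iff]
      refine rips_mpx hw _ fun a b hab => ?_
      have : lenP ℓ (a⁻¹ * b) = ℓ (a.1⁻¹ * b.1) + nz (a.2⁻¹ * b.2) := rfl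
      linarith [nz_nonneg (a.2⁻¹ * b.2)]) (by
      rw [bd_eq, hwΓ, d_mpx, hwd, map_zero])
    rw [isRips_iff] at hyR
    rw [bd_eq] at hyd
    rw [wnorm_eq, wnorm_eq] at hyn
    -- the times
    let Tx : (Fin (i + 1) → Γ × Zk k) → ℕ := fun x => ⌈nz (x 0).2 + r'⌉₊
    have hlen : ∀ x, w x ≠ 0 → ∀ a b, nz (x a).2 ≤ nz (x b).2 + r' := by
      intro x hx a b
      have h1 := nz_mul (x b).2 ((x b).2⁻¹ * (x a).2)
      rw [mul_inv_cancel_left] at h1
      have h2 := hw x hx b a
      have h3 : lenP ℓ ((x b)⁻¹ * x a) = ℓ ((x b).1⁻¹ * (x a).1) + nz ((x b).2⁻¹ * (x a).2) := rfl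
      have h4 := hℓ.nonneg ((x b).1⁻¹ * (x a).1)
      have h5 : r ≤ r' := le_abs_self r
      linarith
    have hfix : ∀ x, w x ≠ 0 → ∀ t, Tx x ≤ t → ∀ j, pth t (x j) = x j := by
      intro x hx t ht j
      have h1 : nz (x j).2 ≤ t := (hlen x hx j 0).trans ((Nat.le_ceil _).trans (by exact_mod_cast ht))
      exact Prod.ext rfl (clamp_eq h1)
    let T : ℕ := w.support.sup Tx
    have hT : ∀ x, w x ≠ 0 → Tx x ≤ T := fun x hx =>
      Finset.le_sup (f := Tx) (Finsupp.mem_support_iff.2 hx)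
    set ι : Γ → Γ × Zk k := fun γ => (γ, 1) with hι
    refine ⟨comP pth T i w + mpx ι yΓ, ?_, ?_, ?_⟩
    · rw [isRips_iff]
      refine RC.add (RC.mono ?_ (le_max_right R (r' + 1)))
        (rips_mpx (r' := max R (r' + 1)) hyR ι fun a b hab => ?_)
      · rw [eq_lc (comP pth T i) w]
        refine RC.lc fun x hx => ?_
        rw [comP_apply]
        have hxr : ∀ a b, lenP ℓ ((x a)⁻¹ * x b) ≤ r' := fun a b =>
          (hw x hx a b).trans (le_abs_self r)
        refine RC.sum fun t _ => ?_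
        rw [sub_eq_add_neg]
        refine RC.add ?_ (RC.neg ?_)
        · refine (VIn_prism (pth t) (pth (t + 1)) x
            (S := {a | (∃ i, a = pth t (x i)) ∨ ∃ i, a = pth (t + 1) (x i)})
            (fun i => Or.inl ⟨i, rfl⟩) (fun i => Or.inr ⟨i, rfl⟩)).rips ?_
          have hL := isLength_lenP (k := k) hℓ
          have key : ∀ a b, lenP ℓ ((pth t (x a))⁻¹ * pth (t + 1) (x b)) ≤ r' + 1 := by
            intro a b
            have h1 := hL.mul ((pth t (x a))⁻¹ * pth t (x b)) ((pth t (x b))⁻¹ * pth (t + 1) (x b))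
            rw [mul_assoc, mul_inv_cancel_left] at h1
            linarith [(len_pth (ℓ := ℓ) t (x a) (x b)).trans (hxr a b), len_pth_succ hℓ t (x b)]
          rintro a (⟨i, rfl⟩ | ⟨i, rfl⟩) b (⟨j, rfl⟩ | ⟨j, rfl⟩)
          · linarith [(len_pth (ℓ := ℓ) t (x i) (x j)).trans (hxr i j)]
          · exact key i j
          · have h1 := key j i
            rwa [← hL.inv, mul_inv_rev, inv_inv] at h1
          · linarith [(len_pth (ℓ := ℓ) (t + 1) (x i) (x j)).trans (hxr i j)]
        · refine (VIn_prism (fun g => g) (fun g => g) x (S := {a | ∃ i, a = x i})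
            (fun i => ⟨i, rfl⟩) (fun i => ⟨i, rfl⟩)).rips ?_
          rintro a ⟨i, rfl⟩ b ⟨j, rfl⟩
          linarith [hxr i j]
      · have h1 : lenP (k := k) ℓ ((ι a)⁻¹ * ι b) = ℓ (a⁻¹ * b) + nz ((1 : Zk k)⁻¹ * 1) := rfl
        rw [h1, inv_one, one_mul, nz_one, add_zero]
        exact hab.trans (le_max_left _ _)
    · rw [bd_eq, map_add, d_comP (fun x hx => hfix x hx T (hT x hx)) hwd, d_mpx, hyd, hwΓ, mpx_mpx]
      have h1 : (pth 0 : Γ × Zk k → Γ × Zk k) = fun g => ι g.1 := by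
        funext g
        exact Prod.ext rfl (clamp_zero _)
      rw [h1, mpx_eq_mp]
      abel
    · rw [wnorm_eq, wnorm_eq]
      have hφ : ∀ (j : ℕ) (x : Fin j → Γ × Zk k), 0 ≤ sw (uP u n (i + 1)) x := fun j x =>
        sw_nonneg (hU0 (i + 1)) x
      refine (N_add_le (hφ _) _ _).trans ?_
      rw [add_mul]
      refine add_le_add ?_ ?_
      · rw [eq_lc (comP pth T i) w]
        refine (N_lc (hφ _) _ w).trans (N_le_N fun x hx => ?_)
        have hcut : comP pth T i (Finsupp.single x 1) = comP pth (Tx x) i (Finsupp.single x 1) := by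
          rw [comP_apply, comP_apply]
          symm
          refine Finset.sum_subset (Finset.range_subset_range.2 (hT x hx)) fun t _ ht => ?_
          rw [Finset.mem_range, not_lt] at ht
          rw [prism_eq (pth t) (pth (t + 1)) x (e := fun g => g) (e' := fun g => g)
            (hfix x hx t ht) (hfix x hx (t + 1) (by omega)), sub_self]
        rw [hcut, comP_apply]
        have hpth : ∀ t g, uP u n (i + 1) (pth (k := k) t g) ≤ uP u n (i + 1) g := by
          intro t g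
          refine mul_le_mul_of_nonneg_left (pow_le_pow_left₀ ?_ ?_ _) (hu0 _ _)
          · linarith [nz_nonneg (pth (k := k) t g).2]
          · have := nz_clamp t g.2
            change 1 + nz (clamp t g.2) ≤ _
            linarith
        have hterm : ∀ t ∈ Finset.range (Tx x), N (sw (uP u n (i + 1)))
            (prism (pth t) (pth (t + 1)) (i + 1) (Finsupp.single x 1) -
              prism (fun g => g) (fun g => g) (i + 1) (Finsupp.single x 1)) ≤
            2 * ((i + 1) * (i + 2)) * sw (uP u n (i + 1)) x := by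
          intro t _
          refine (N_sub_le (hφ _) _ _).trans ?_
          have h1 := N_prism (hU0 (i + 1)) (hpth t) (hpth (t + 1)) x
          have h2 := N_prism (f := fun g => g) (f' := fun g => g) (hU0 (i + 1)) (fun _ => le_rfl)
            (fun _ => le_rfl) x
          linarith
        refine (N_sum_le (hφ _) _ _).trans ((Finset.sum_le_sum hterm).trans ?_)
        rw [Finset.sum_const, Finset.card_range, nsmul_eq_mul]
        have hsum : (Tx x : ℝ) * sw (uP u n (i + 1)) x ≤ (2 * r' + 1) * sw (uP u n i) x := by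
          rw [sw, sw, Finset.mul_sum, Finset.mul_sum]
          refine Finset.sum_le_sum fun j _ => ?_
          have h1 : (Tx x : ℝ) ≤ (2 * r' + 1) * (1 + nz (x j).2) := by
            have h2 : (Tx x : ℝ) ≤ nz (x 0).2 + r' + 1 :=
              (Nat.ceil_lt_add_one (by linarith [nz_nonneg (x 0).2])).le
            have h3 := hlen x hx 0 j
            nlinarith [nz_nonneg (x j).2]
          have h4 : (1 + nz (x j).2) * uP u n (i + 1) (x j) ≤ uP u n i (x j) := by
            have h5 : n - i = (n - (i + 1)) + 1 := by omega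
            rw [uP, uP, h5, pow_succ]
            have h6 := hmono i (x j).1
            have h7 : 0 ≤ (1 + nz (x j).2) ^ (n - (i + 1)) * (1 + nz (x j).2) := by
              have := nz_nonneg (x j).2; positivity
            have h8 := mul_le_mul_of_nonneg_right h6 h7
            linarith
          calc (Tx x : ℝ) * uP u n (i + 1) (x j)
              ≤ (2 * r' + 1) * (1 + nz (x j).2) * uP u n (i + 1) (x j) :=
                mul_le_mul_of_nonneg_right h1 (hU0 _ _)
            _ = (2 * r' + 1) * ((1 + nz (x j).2) * uP u n (i + 1) (x j)) := by ring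
            _ ≤ _ := mul_le_mul_of_nonneg_left h4 (by linarith)
        have hc : (0 : ℝ) ≤ 2 * ((i + 1) * (i + 2)) := by positivity
        calc (Tx x : ℝ) * (2 * ((i + 1) * (i + 2)) * sw (uP u n (i + 1)) x)
            = 2 * ((i + 1) * (i + 2)) * ((Tx x : ℝ) * sw (uP u n (i + 1)) x) := by ring
          _ ≤ 2 * ((i + 1) * (i + 2)) * ((2 * r' + 1) * sw (uP u n i) x) :=
              mul_le_mul_of_nonneg_left hsum hc
          _ = _ := by ring
      · -- the part over `Γ`
        refine (N_mpx (hφ _) ι yΓ).trans ?_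
        have h1 : (fun x : Fin (i + 2) → Γ => sw (uP u n (i + 1)) fun j => ι (x j)) =
            sw (u (i + 1)) := by
          funext x
          rw [sw, sw]
          refine Finset.sum_congr rfl fun j _ => ?_
          rw [uP, hι]
          simp only [nz_one, add_zero, one_pow, mul_one]
        rw [h1]
        have h2 : N (sw (u i)) wΓ ≤ N (sw (uP u n i)) w := by
          rw [hwΓ]
          refine (N_mpx (fun x => sw_nonneg (hu0 i) x) _ w).trans ?_
          rw [← one_mul (N (sw (uP u n i)) w)]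
          refine N_le_N fun x _ => ?_
          rw [one_mul, sw, sw]
          refine Finset.sum_le_sum fun j _ => ?_
          rw [uP]
          exact le_mul_of_one_le_right (hu0 _ _) (one_le_pow₀ (by linarith [nz_nonneg (x j).2]))
        have h3 : 0 ≤ N (sw (u i)) wΓ := N_nonneg (fun x => sw_nonneg (hu0 i) x) _
        calc N (sw (u (i + 1))) yΓ ≤ K * N (sw (u i)) wΓ := hyn
          _ ≤ |K| * N (sw (u i)) wΓ := mul_le_mul_of_nonneg_right (le_abs_self _) h3
          _ ≤ |K| * N (sw (uP u n i)) w := mul_le_mul_of_nonneg_left h2 (abs_nonneg _)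

end Pool.Agent.Lib.MP_df705a_gt.CG
end
end

section

/-!
# The action of `π₁(M) × ℤᵏ`, without orientation
-/

open scoped Manifold ContDiff Topology
open Set Filter

noncomputable section

namespace Pool.Agent.Lib.MP_df705a_gt.CGN

open Pool.Agent.Lib.MP_df705a_gt.SVS (V Act Deck jdet)
open Pool.Agent.Lib.MP_df705a_gt.CG

variable {n k m : ℕ} {M : Type*} [TopologicalSpace M] [ChartedSpace (V n) M]
  [IsManifold 𝓘(ℝ, V n) ∞ M] {q : V (2 * m) → M} {s : V (2 * m) → V k}
  {Γ : Type*} [Group Γ]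

/-- The group `Γ × ℤᵏ` is the group of the deck transformations of the covering of `M × Tᵏ`. -/
theorem exists_deck (H : Pin.StableCover (V n) q s) {a : Act Γ (2 * m)} (ha : UDeck a q s) :
    ∃ b : Act (Γ × Zk k) (2 * m), Deck b q s := by
  obtain ⟨Θ, hΘ, hqs, h0, hadd, hcomm⟩ := exists_flow H
  have hcm : ∀ γ w u, a.act γ (Θ w u) = Θ (a.act γ w) u := fun γ =>
    hcomm (a.act γ) 0 (a.smooth γ).continuous fun w => by
      rw [add_zero]; exact ha.cover γ w
  refine ⟨⟨fun g y => a.act g.1 (Θ y (vec g.2)), fun y => ?_, fun g h y => ?_, fun g => ?_⟩,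
    ⟨fun g => ⟨Multiplicative.toAdd g.2, fun y => ⟨?_, fun j => ?_⟩⟩, fun y z hq hs => ?_⟩⟩
  · rw [Prod.fst_one, Prod.snd_one, vec_one, h0, a.one]
  · rw [Prod.fst_mul, Prod.snd_mul, vec_mul, a.mul, add_comm (vec g.2), ← hadd, hcm h.1, hcm h.1]
  · exact (a.smooth g.1).comp (hΘ _)
  · exact ((ha.cover _ _).1).trans (hqs _ _).1
  · change s (a.act g.1 (Θ y (vec g.2))) j = _
    rw [(ha.cover _ _).2, (hqs _ _).2, PiLp.add_apply, vec_apply]
  · choose c hc using hs
    have hsz : s z = s y + vec (Multiplicative.ofAdd c : Zk k) := by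
      ext j
      rw [PiLp.add_apply, vec_apply]
      exact hc j
    set v : V k := vec (Multiplicative.ofAdd c : Zk k) with hv
    obtain ⟨γ, hγ, hun⟩ := ha.trans y (Θ z (-v)) (by rw [(hqs _ _).1, hq])
      (by rw [(hqs _ _).2, hsz, add_neg_cancel_right])
    refine ⟨(γ, Multiplicative.ofAdd c), ?_, ?_⟩
    · change a.act γ (Θ y v) = z
      rw [hcm]
      change a.act γ y = Θ z (-v) at hγ
      rw [hγ, hadd, neg_add_cancel, h0]
    · rintro ⟨γ', d⟩ hd
      change a.act γ' (Θ y (vec d)) = z at hd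
      have h1 : s z = s y + vec d := by rw [← hd, (ha.cover _ _).2, (hqs _ _).2]
      have h2 : vec d = v := add_left_cancel (h1.symm.trans hsz)
      have h3 : d = Multiplicative.ofAdd c := vec_inj h2
      refine Prod.ext (hun γ' ?_) h3
      change a.act γ' y = Θ z (-v)
      rw [← hd, h2, hcm, hadd, add_neg_cancel, h0]

end Pool.Agent.Lib.MP_df705a_gt.CGN
end
end

section

/-!
# The orientation preserving elements, subgroups of finite index of the deck group
-/

open scoped Manifold ContDiff Topology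
open Set Filter MeasureTheory

noncomputable section

namespace Pool.Agent.Lib.MP_df705a_gt.CGN

open Pool.Agent.Lib.MP_df705a_gt
open Pool.Agent.Lib.MP_df705a_gt.SVS (V Act Deck jdet)
open Pool.Agent.Lib.MP_df705a_gt.CG

variable {m : ℕ} {G : Type*} [Group G]

lemma jdet_ne (a : Act G (2 * m)) (γ : G) (y : V (2 * m)) : jdet (a.act γ) y ≠ 0 := by
  intro h0
  have h1 := jdet_comp (a.smooth γ) (a.smooth γ⁻¹) y
  have h2 : (fun y => a.act γ⁻¹ (a.act γ y)) = fun y => y := by
    funext y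
    rw [← a.mul, inv_mul_cancel, a.one]
  rw [h2, jdet_id, h0, mul_zero] at h1
  exact one_ne_zero h1

/-- The sign of the Jacobian determinant is constant. -/
lemma jdet_sign (a : Act G (2 * m)) (γ : G) :
    (∀ y, 0 < jdet (a.act γ) y) ∨ ∀ y, jdet (a.act γ) y < 0 := by
  have hc := continuous_jdet (a.smooth γ)
  rcases lt_or_gt_of_ne (jdet_ne a γ 0) with h | h
  · right
    intro y
    by_contra h1
    obtain ⟨z, hz⟩ := mem_range_of_exists_le_of_exists_ge hc ⟨0, h.le⟩ ⟨y, not_lt.1 h1⟩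
    exact jdet_ne a γ z hz
  · left
    intro y
    by_contra h1
    obtain ⟨z, hz⟩ := mem_range_of_exists_le_of_exists_ge hc ⟨y, not_lt.1 h1⟩ ⟨0, h.le⟩
    exact jdet_ne a γ z hz

/-- The sign of an element. -/
def sgn (a : Act G (2 * m)) : G →* ℤˣ where
  toFun γ := by
    classical
    exact if 0 < jdet (a.act γ) 0 then 1 else -1
  map_one' := by
    have h : a.act 1 = fun y => y := funext a.one
    rw [h, jdet_id, if_pos one_pos]
  map_mul' γ δ := by
    have h1 : jdet (a.act (γ * δ)) 0 = jdet (a.act γ) (a.act δ 0) * jdet (a.act δ) 0 := by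
      have h2 : a.act (γ * δ) = fun y => a.act γ (a.act δ y) := funext (a.mul γ δ)
      rw [h2, jdet_comp (a.smooth δ) (a.smooth γ)]
    rw [h1]
    rcases jdet_sign a γ with hγ | hγ <;> rcases jdet_sign a δ with hδ | hδ
    · rw [if_pos (mul_pos (hγ _) (hδ _)), if_pos (hγ _), if_pos (hδ _), one_mul]
    · rw [if_neg (not_lt.2 (mul_neg_of_pos_of_neg (hγ _) (hδ _)).le), if_pos (hγ _),
        if_neg (not_lt.2 (hδ _).le), one_mul]
    · rw [if_neg (not_lt.2 (mul_neg_of_neg_of_pos (hγ _) (hδ _)).le), if_neg (not_lt.2 (hγ _).le),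
        if_pos (hδ _), mul_one]
    · rw [if_pos (mul_pos_of_neg_of_neg (hγ _) (hδ _)), if_neg (not_lt.2 (hγ _).le),
        if_neg (not_lt.2 (hδ _).le)]
      decide

lemma ker_pos (a : Act G (2 * m)) {γ : G} (h : γ ∈ (sgn a).ker) (y : V (2 * m)) :
    0 < jdet (a.act γ) y := by
  rcases jdet_sign a γ with hγ | hγ
  · exact hγ y
  · exfalso
    have h1 : sgn a γ = 1 := h
    change (if 0 < jdet (a.act γ) 0 then (1 : ℤˣ) else -1) = 1 at h1
    rw [if_neg (not_lt.2 (hγ 0).le)] at h1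
    exact absurd h1 (by decide)

/-- The restriction of an action to a subgroup. -/
def res {N : ℕ} (a : Act G N) (K : Subgroup G) : Act K N :=
  ⟨fun γ => a.act (γ : G), a.one, fun γ δ y => a.mul (γ : G) (δ : G) y, fun γ => a.smooth (γ : G)⟩

/-- A bounded fundamental set of a subgroup of finite index. -/
theorem exists_fund {N : ℕ} {a : RL.Act G N} {F : Set (RL.V N)} (hF : a.Fund F) (K : Subgroup G)
    [K.FiniteIndex] {b : RL.Act K N} (hb : ∀ (γ : K) y, b.act γ y = a.act (γ : G) y) :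
    ∃ F', b.Fund F' := by
  have hfin : Finite (Quotient (QuotientGroup.rightRel K)) :=
    Finite.of_equiv _ (QuotientGroup.quotientRightRelEquivQuotientLeftRel K).symm
  have hinv : ∀ (t : G) y, a.act t (a.act t⁻¹ y) = y := fun t y => by
    rw [← a.mul, mul_inv_cancel, a.one]
  set out : Quotient (QuotientGroup.rightRel K) → G := fun c => Quotient.out c with hout
  refine ⟨⋃ c, (a.act (out c)⁻¹) ⁻¹' F, ?_, ?_, fun y => ?_⟩
  · exact MeasurableSet.iUnion fun c => (a.smooth _).continuous.measurable hF.meas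
  · rw [Bornology.isBounded_iUnion]
    intro c
    obtain ⟨R, hR⟩ := hF.bdd.subset_closedBall 0
    have h1 : IsCompact (a.act (out c) '' Metric.closedBall 0 R) :=
      (isCompact_closedBall 0 R).image (a.smooth _).continuous
    refine h1.isBounded.subset fun y hy => ?_
    exact ⟨a.act (out c)⁻¹ y, hR hy, hinv _ _⟩
  · obtain ⟨γ, hγ, hun⟩ := hF.tile y
    set c := Quotient.mk (QuotientGroup.rightRel K) γ⁻¹ with hc
    have h1 : (QuotientGroup.rightRel K) (out c) γ⁻¹ := Quotient.mk_out γ⁻¹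
    rw [QuotientGroup.rightRel_apply] at h1
    have h2 : out c * γ ∈ K := by
      have h3 := K.inv_mem h1
      have h4 : (γ⁻¹ * (out c)⁻¹)⁻¹ = out c * γ := by group
      rwa [h4] at h3
    refine ⟨⟨out c * γ, h2⟩, ?_, fun κ hκ => ?_⟩
    · refine mem_iUnion.2 ⟨c, ?_⟩
      change a.act (out c)⁻¹ (b.act ⟨out c * γ, h2⟩ y) ∈ F
      rw [hb]
      change a.act (out c)⁻¹ (a.act (out c * γ) y) ∈ F
      rw [← a.mul]
      have h3 : (out c)⁻¹ * (out c * γ) = γ := by group
      rw [h3]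
      exact hγ
    · have hκ' : b.act κ y ∈ ⋃ c, (a.act (out c)⁻¹) ⁻¹' F := hκ
      rw [mem_iUnion] at hκ'
      obtain ⟨c', hc'⟩ := hκ'
      change a.act (out c')⁻¹ (b.act κ y) ∈ F at hc'
      rw [hb, ← a.mul] at hc'
      have h3 : (out c')⁻¹ * (κ : G) = γ := hun _ hc'
      have h4 : (κ : G) = out c' * γ := by
        rw [← h3]
        group
      have h5 : c' = c := by
        rw [hc, ← Quotient.out_eq c']
        apply Quotient.sound
        change (QuotientGroup.rightRel K) (out c') γ⁻¹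
        rw [QuotientGroup.rightRel_apply]
        have h6 : γ⁻¹ * (out c')⁻¹ = (κ : G)⁻¹ := by
          rw [h4]
          group
        rw [h6]
        exact K.inv_mem κ.2
      apply Subtype.ext
      rw [h4, h5]

/-- A group with a properly acting subgroup of finite index acts properly. -/
theorem proper_of_sub {N : ℕ} (a : Act G N) (K : Subgroup G) [K.FiniteIndex]
    (h : ∀ R : ℝ, {γ : K | ∃ y, ‖y‖ ≤ R ∧ ‖a.act (γ : G) y‖ ≤ R}.Finite) (R : ℝ) :
    {γ : G | ∃ y, ‖y‖ ≤ R ∧ ‖a.act γ y‖ ≤ R}.Finite := by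
  obtain ⟨ρ, -, -, hρ⟩ := exists_retraction K
  set T : Set G := {x : G | ∃ g, x = ((ρ g : K) : G)⁻¹ * g} with hT
  have h1 : ∀ t ∈ T, ∃ R', ∀ y, ‖y‖ ≤ R → ‖a.act t y‖ ≤ R' := by
    intro t _
    have h2 : IsCompact (a.act t '' Metric.closedBall 0 R) :=
      (isCompact_closedBall 0 R).image (a.smooth t).continuous
    obtain ⟨R', hR'⟩ := h2.isBounded.exists_norm_le
    exact ⟨R', fun y hy => hR' _ ⟨y, mem_closedBall_zero_iff.2 hy, rfl⟩⟩
  choose! r hr using h1
  obtain ⟨B, hB⟩ := (hρ.image r).bddAbove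
  have h3 := h (max R B)
  refine (Set.Finite.image2 (fun (κ : K) (t : G) => (κ : G) * t) h3 hρ).subset ?_
  rintro γ ⟨y, hy1, hy2⟩
  have hγT : ((ρ γ : K) : G)⁻¹ * γ ∈ T := ⟨γ, rfl⟩
  refine ⟨ρ γ, ⟨a.act (((ρ γ : K) : G)⁻¹ * γ) y, ?_, ?_⟩, ((ρ γ : K) : G)⁻¹ * γ, hγT, ?_⟩
  · exact ((hr _ hγT y hy1).trans (hB ⟨_, hγT, rfl⟩)).trans (le_max_right _ _)
  · rw [← a.mul]
    have h4 : ((ρ γ : K) : G) * (((ρ γ : K) : G)⁻¹ * γ) = γ := by group
    rw [h4]
    exact hy2.trans (le_max_left _ _)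
  · change ((ρ γ : K) : G) * (((ρ γ : K) : G)⁻¹ * γ) = γ
    group

end Pool.Agent.Lib.MP_df705a_gt.CGN
end
end
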