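import Mathlib
import Pool.Agent.Lib.MP_df705a_gt.Mg.G090

section

/-!
# NV, F2: integrals over `[0, 1]` of smooth functions with a parameter

PROOF. `hasFDerivAt_int`: `intervalIntegral.hasFDerivAt_integral_of_dominated_of_fderiv_le` (or the version with
`hasFDerivAt_integral_of_dominated_of_fderiv_le`): on the compact set `closedBall x 1 × [0, 1]` the derivative
`(x, t) ↦ fderiv (fun x => φ x t) x` is continuous (it is `fderiv (uncurry φ) (x, t) ∘ inl`), hence bounded.
`contDiff_int`: prove `∀ n : ℕ, ∀ F φ, ContDiff ∞ (uncurry φ) → ContDiff n (∫ φ)` by induction on `n` (`F` in `Type`, so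
that the induction may change `F` to `E →L[ℝ] F`): n = 0: continuity from `hasFDerivAt_int`; n + 1:
`contDiff_succ_iff_fderiv`, the derivative is the integral of the smooth function
`(x, t) ↦ fderiv (fun x => φ x t) x`. Finally `contDiff_infty`.
-/

open scoped ContDiff Topology
open MeasureTheory

noncomputable section

namespace Pool.Agent.Lib.MP_df705a_gt.NV

variable {E F : Type} [NormedAddCommGroup E] [NormedSpace ℝ E] [FiniteDimensional ℝ E]
  [NormedAddCommGroup F] [NormedSpace ℝ F] [CompleteSpace F]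

omit [FiniteDimensional ℝ E] [CompleteSpace F] in
private theorem F2_fd {φ : E → ℝ → F} (h : ContDiff ℝ ∞ (Function.uncurry φ)) (x : E) (t : ℝ) :
    HasFDerivAt (fun x => φ x t)
      ((fderiv ℝ (Function.uncurry φ) (x, t)).comp (ContinuousLinearMap.inl ℝ E ℝ)) x := by
  have h1 : HasFDerivAt (Function.uncurry φ) (fderiv ℝ (Function.uncurry φ) (x, t)) (x, t) :=
    (h.differentiable (by norm_num) (x, t)).hasFDerivAt
  have h2 : HasFDerivAt (fun y : E => ((y, t) : E × ℝ)) (ContinuousLinearMap.inl ℝ E ℝ) x :=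
    hasFDerivAt_prodMk_left x t
  exact h1.comp x h2

omit [FiniteDimensional ℝ E] [CompleteSpace F] in
private theorem F2_sm {φ : E → ℝ → F} (h : ContDiff ℝ ∞ (Function.uncurry φ)) :
    ContDiff ℝ ∞ (Function.uncurry fun (x : E) (t : ℝ) => fderiv ℝ (fun x => φ x t) x) := by
  have h1 : ContDiff ℝ ∞ (fderiv ℝ (Function.uncurry φ)) := h.fderiv_right (by norm_num)
  have h2 : (Function.uncurry fun (x : E) (t : ℝ) => fderiv ℝ (fun x => φ x t) x) =
      fun p : E × ℝ => (fderiv ℝ (Function.uncurry φ) p).comp (ContinuousLinearMap.inl ℝ E ℝ) := by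
    funext p
    exact (F2_fd h p.1 p.2).fderiv
  rw [h2]
  exact h1.clm_comp contDiff_const

theorem hasFDerivAt_int {φ : E → ℝ → F} (h : ContDiff ℝ ∞ (Function.uncurry φ)) (x : E) :
    HasFDerivAt (fun x => ∫ t in (0 : ℝ)..1, φ x t)
      (∫ t in (0 : ℝ)..1, fderiv ℝ (fun x => φ x t) x) x := by
  have : ProperSpace E := FiniteDimensional.proper ℝ E
  have hc : Continuous (Function.uncurry φ) := h.continuous
  have hc' : Continuous (Function.uncurry fun (x : E) (t : ℝ) => fderiv ℝ (fun x => φ x t) x) :=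
    (F2_sm h).continuous
  have hφx : ∀ y : E, Continuous (φ y) := fun y => hc.comp (Continuous.prodMk_right y)
  have hφx' : ∀ y : E, Continuous fun t => fderiv ℝ (fun x => φ x t) y := fun y =>
    hc'.comp (Continuous.prodMk_right y)
  obtain ⟨C, hC⟩ := ((isCompact_closedBall x 1).prod
    (isCompact_Icc (a := (0 : ℝ)) (b := 1))).exists_bound_of_continuousOn hc'.continuousOn
  refine intervalIntegral.hasFDerivAt_integral_of_dominated_of_fderiv_le (𝕜 := ℝ)
    (F' := fun y t => fderiv ℝ (fun x => φ x t) y) (bound := fun _ => C)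
    (Metric.closedBall_mem_nhds x one_pos) ?_ ?_ ?_ ?_ ?_ ?_
  · exact Filter.Eventually.of_forall fun y => (hφx y).aestronglyMeasurable
  · exact (hφx x).intervalIntegrable _ _
  · exact (hφx' x).aestronglyMeasurable
  · refine Filter.Eventually.of_forall fun t ht y hy => ?_
    rw [Set.uIoc_of_le zero_le_one] at ht
    exact hC (y, t) ⟨hy, Set.Ioc_subset_Icc_self ht⟩
  · exact intervalIntegrable_const
  · refine Filter.Eventually.of_forall fun t _ y _ => ?_
    rw [(F2_fd h y t).fderiv]
    exact F2_fd h y t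

theorem contDiff_int {φ : E → ℝ → F} (h : ContDiff ℝ ∞ (Function.uncurry φ)) :
    ContDiff ℝ ∞ fun x => ∫ t in (0 : ℝ)..1, φ x t := by
  have key : ∀ n : ℕ, ∀ (F : Type) [NormedAddCommGroup F] [NormedSpace ℝ F] [CompleteSpace F]
      (φ : E → ℝ → F), ContDiff ℝ ∞ (Function.uncurry φ) →
      ContDiff ℝ n fun x => ∫ t in (0 : ℝ)..1, φ x t := by
    intro n
    induction n with
    | zero =>
      intro F _ _ _ φ h
      rw [Nat.cast_zero, contDiff_zero]
      exact continuous_iff_continuousAt.mpr fun x => (hasFDerivAt_int h x).continuousAt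
    | succ n ih =>
      intro F _ _ _ φ h
      rw [Nat.cast_succ, contDiff_succ_iff_fderiv]
      refine ⟨fun x => (hasFDerivAt_int h x).differentiableAt, ?_, ?_⟩
      · intro hn
        exact absurd hn (by simp)
      · have h1 : fderiv ℝ (fun x => ∫ t in (0 : ℝ)..1, φ x t) = fun x =>
            ∫ t in (0 : ℝ)..1, fderiv ℝ (fun x => φ x t) x := by
          funext x
          exact (hasFDerivAt_int h x).fderiv
        rw [h1]
        exact ih (E →L[ℝ] F) _ (F2_sm h)
  rw [contDiff_infty]
  intro n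
  exact key n F φ h

end Pool.Agent.Lib.MP_df705a_gt.NV
end
end

section

/-!
# NV, F3: the homotopy operator

PROOF. `Sm_KK`: `contDiff_int` with `φ x t = t ^ j • (w (j + 1) (t • x)).curryLeft x` (jointly smooth: use the continuous
linear map `ContinuousAlternatingMap.curryLeftLI`; `ContDiff.clm_apply`).

`homotopy`: `funext j`. Degree 0: `dd (KK w) 0 = 0`, and `KK (dd w) 0 x = ∫_0^1 (fderiv (w 0) (t x)) x dt = w 0 x - w 0 0`
(fundamental theorem of calculus for `t ↦ w 0 (t x)`, as alternating forms of degree 0: `ext v`).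
Degree j + 1, at `x`, applied to `v_0, …, v_j`: with `ω = w (j + 1)`, by `hasFDerivAt_int` the form `extDeriv (KK w j) x` is
`∫ alternatizeUncurryFin (v ↦ t^j ι_v ω(tx) + t^(j+1) ι_x (Dω(tx) v)) dt`; the first part is `(j + 1) t^j ω(tx)`
(`alternatizeUncurryFin_curryLeft`), the second one
`t^(j+1) ∑_i (-1)^i (Dω(tx) v_i)(x, v_0, .., no v_i, ..)`. And `KK (dd w) (j + 1) x = ∫ t^(j+1) (dω)(tx)(x, v_0, …, v_j) dt`
with `(dω)(tx)(x, v) = (Dω(tx) x)(v) - ∑_i (-1)^i (Dω(tx) v_i)(x, .., no v_i, ..)` (`alternatizeUncurryFin_apply`,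
`Fin.sum_univ_succ`). The sum is `∫ ((j + 1) t^j ω(tx) + t^(j+1) Dω(tx) x)(v) dt = ∫ d/dt (t^(j+1) ω(tx)(v)) dt = ω(x)(v)`.
Work with real valued functions of `t` (apply to `v` first: `ContinuousLinearMap.intervalIntegral_comp_comm` or
`ContinuousLinearMap.integral_comp_comm` for the evaluation at `v`).
-/

open scoped ContDiff Topology
open MeasureTheory

noncomputable section

namespace Pool.Agent.Lib.MP_df705a_gt.NV

open Pool.Agent.Lib.MP_df705a_gt.SVS (V pd jdet)
open Pool.Agent.Lib.MP_df705a_gt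

variable {N : ℕ}

private theorem F3_phi {j : ℕ} {w : V N → Alt N (j + 1)} (hw : ContDiff ℝ ∞ w) (m : ℕ) :
    ContDiff ℝ ∞ (Function.uncurry fun (y : V N) (t : ℝ) => t ^ m • (w (t • y)).curryLeft y) := by
  have h1 : ContDiff ℝ ∞ fun q : V N × ℝ => w (q.2 • q.1) :=
    hw.comp (contDiff_snd.smul contDiff_fst)
  have h2 : ContDiff ℝ ∞ fun q : V N × ℝ =>
      ((ContinuousAlternatingMap.curryLeftLI (𝕜 := ℝ) (E := V N) (F := ℝ)
        (n := j)).toContinuousLinearMap (w (q.2 • q.1))) :=
    (ContinuousLinearMap.contDiff _).comp h1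
  have h3 := h2.clm_apply (contDiff_fst (E := V N) (F := ℝ))
  exact (contDiff_snd.pow m).smul h3

theorem Sm_KK {w : TF N} (hw : Sm w) : Sm (KK w) := by
  intro j
  exact contDiff_int (F3_phi (hw (j + 1)) j)

private theorem F3_ext {j : ℕ} {w : V N → Alt N j} (hw : ContDiff ℝ ∞ w) :
    ContDiff ℝ ∞ fun x => extDeriv w x := by
  have h1 : ContDiff ℝ ∞ (fderiv ℝ w) := hw.fderiv_right (by simp)
  exact (ContinuousAlternatingMap.alternatizeUncurryFinCLM ℝ (V N) ℝ).contDiff.comp h1

private theorem F3_gen {E F G : Type} [NormedAddCommGroup E] [NormedSpace ℝ E]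
    [FiniteDimensional ℝ E] [NormedAddCommGroup F] [NormedSpace ℝ F] [CompleteSpace F]
    [NormedAddCommGroup G] [NormedSpace ℝ G] [CompleteSpace G]
    {φ : E → ℝ → F} (h : ContDiff ℝ ∞ (Function.uncurry φ)) (x : E) (U : (E →L[ℝ] F) →L[ℝ] G) :
    U (fderiv ℝ (fun x => ∫ t in (0 : ℝ)..1, φ x t) x) =
      (∫ t in (0 : ℝ)..1, U (fderiv ℝ (fun x => φ x t) x)) ∧
    Continuous fun t : ℝ => U (fderiv ℝ (fun x => φ x t) x) := by
  have hcont1 : Continuous fun t : ℝ => fderiv ℝ (fun x => φ x t) x := by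
    have h1 : ContDiff ℝ ∞ (Function.uncurry fun (t : ℝ) (y : E) => φ y t) :=
      h.comp (contDiff_snd.prodMk contDiff_fst)
    have h2 := ContDiff.fderiv (n := 0) (m := ∞) h1 (contDiff_const (c := x)) (by simp)
    exact h2.continuous
  refine ⟨?_, U.continuous.comp hcont1⟩
  rw [(hasFDerivAt_int h x).fderiv]
  exact (ContinuousLinearMap.intervalIntegral_comp_comm U
    (hcont1.intervalIntegrable 0 1)).symm

private theorem F3_comp {E F G : Type} [NormedAddCommGroup E] [NormedSpace ℝ E]
    [NormedAddCommGroup F] [NormedSpace ℝ F] [NormedAddCommGroup G] [NormedSpace ℝ G]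
    {f : E → F} {f' : E →L[ℝ] F} {x : E} (h : HasFDerivAt f f' x) (C : F →L[ℝ] E →L[ℝ] G)
    (c : ℝ) :
    fderiv ℝ (fun y => c • C (f y) y) x = c • (C (f x) + (C.comp f').flip x) := by
  have h3 : HasFDerivAt (fun y => C (f y)) (C.comp f') x := C.hasFDerivAt.comp x h
  have h4 := (h3.clm_apply (hasFDerivAt_id x)).const_smul c
  have h5 : (fun y => c • C (f y) y) = (c • fun y : E => (C (f y)) (id y)) := rfl
  rw [h5, h4.fderiv]
  simp

private theorem F3_path {j : ℕ} {w : V N → Alt N j} (hw : ContDiff ℝ ∞ w) (x : V N) (t : ℝ) :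
    HasDerivAt (fun t : ℝ => w (t • x)) (fderiv ℝ w (t • x) x) t := by
  have h1 : HasDerivAt (fun t : ℝ => t • x) x t := by
    simpa using (hasDerivAt_id t).smul_const x
  exact ((hw.differentiable (by simp)) (t • x)).hasFDerivAt.comp_hasDerivAt t h1

private theorem F3_zero {w : TF N} (hw : Sm w) (x : V N) :
    KK (dd w) 0 x = w 0 x - w 0 0 := by
  have h1 : ∀ t : ℝ, t ^ 0 • ((dd w (0 + 1)) (t • x)).curryLeft x = fderiv ℝ (w 0) (t • x) x := by
    intro t
    rw [pow_zero, one_smul]
    ext v
    rw [ContinuousAlternatingMap.curryLeft_apply_apply]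
    change ContinuousAlternatingMap.alternatizeUncurryFin (fderiv ℝ (w 0) (t • x)) _ = _
    rw [ContinuousAlternatingMap.alternatizeUncurryFin_apply, Fin.sum_univ_one]
    simp only [Fin.isValue, Fin.val_zero, pow_zero, one_smul, Matrix.cons_val_zero]
    congr 1
  unfold KK
  simp_rw [h1]
  have h2 : Continuous fun t : ℝ => fderiv ℝ (w 0) (t • x) x := by
    have h3 : Continuous (fderiv ℝ (w 0)) := (hw 0).continuous_fderiv (by simp)
    exact (h3.comp (by fun_prop)).clm_apply continuous_const
  have h4 := intervalIntegral.integral_eq_sub_of_hasDerivAt (a := 0) (b := 1)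
    (fun t _ => F3_path (hw 0) x t) (h2.intervalIntegrable 0 1)
  rw [h4, one_smul, zero_smul]

private theorem F3_succ {w : TF N} (hw : Sm w) (j : ℕ) (x : V N) :
    dd (KK w) (j + 1) x + KK (dd w) (j + 1) x = w (j + 1) x := by
  set C := (ContinuousAlternatingMap.curryLeftLI (𝕜 := ℝ) (E := V N) (F := ℝ)
    (n := j)).toContinuousLinearMap with hC
  have hCa : ∀ (f : Alt N (j + 1)) (u : V N), C f u = f.curryLeft u := fun f u => rfl
  set U := ContinuousAlternatingMap.alternatizeUncurryFinCLM (n := j) ℝ (V N) ℝ with hU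
  have hphi := F3_phi (hw (j + 1)) j
  -- the first term
  have hd1 : ∀ t : ℝ, fderiv ℝ (fun y => t ^ j • (w (j + 1) (t • y)).curryLeft y) x =
      t ^ j • (C (w (j + 1) (t • x)) +
        (C.comp ((fderiv ℝ (w (j + 1)) (t • x)).comp
          (t • ContinuousLinearMap.id ℝ (V N)))).flip x) := by
    intro t
    have h1 : HasFDerivAt (fun y : V N => t • y) (t • ContinuousLinearMap.id ℝ (V N)) x :=
      (hasFDerivAt_id x).const_smul t
    have h2 : HasFDerivAt (fun y : V N => w (j + 1) (t • y))
        ((fderiv ℝ (w (j + 1)) (t • x)).comp (t • ContinuousLinearMap.id ℝ (V N))) x :=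
      (((hw (j + 1)).differentiable (by simp)) (t • x)).hasFDerivAt.comp x h1
    exact F3_comp h2 C (t ^ j)
  obtain ⟨hfirst', hcI1⟩ := F3_gen hphi x U
  have hfirst : dd (KK w) (j + 1) x =
      ∫ t in (0 : ℝ)..1, U (fderiv ℝ (fun y => t ^ j • (w (j + 1) (t • y)).curryLeft y) x) :=
    hfirst'
  -- the second term
  have hcI2 : Continuous fun t : ℝ =>
      t ^ (j + 1) • ((dd w (j + 1 + 1)) (t • x)).curryLeft x := by
    have h1 := (F3_phi (F3_ext (hw (j + 1))) (j + 1)).continuous
    exact h1.comp (by fun_prop : Continuous fun t : ℝ => ((x, t) : V N × ℝ))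
  -- the sum of the integrands is a derivative
  have hder : ∀ t : ℝ, HasDerivAt (fun t : ℝ => t ^ (j + 1) • w (j + 1) (t • x))
      (U (fderiv ℝ (fun y => t ^ j • (w (j + 1) (t • y)).curryLeft y) x) +
        t ^ (j + 1) • ((dd w (j + 1 + 1)) (t • x)).curryLeft x) t := by
    intro t
    have h1 := (hasDerivAt_pow (j + 1) t).smul (F3_path (hw (j + 1)) x t)
    refine h1.congr_deriv ?_
    rw [hd1]
    ext v
    have h2 : ((dd w (j + 1 + 1)) (t • x)).curryLeft x v =
        fderiv ℝ (w (j + 1)) (t • x) x v -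
          ∑ i : Fin (j + 1), (-1 : ℤ) ^ (i : ℕ) •
            (fderiv ℝ (w (j + 1)) (t • x) (v i)) (Matrix.vecCons x (i.removeNth v)) := by
      rw [ContinuousAlternatingMap.curryLeft_apply_apply]
      change ContinuousAlternatingMap.alternatizeUncurryFin
        (fderiv ℝ (w (j + 1)) (t • x)) (Matrix.vecCons x v) = _
      rw [ContinuousAlternatingMap.alternatizeUncurryFin_apply, Fin.sum_univ_succ]
      simp only [Fin.val_zero, pow_zero, one_smul, Matrix.cons_val_zero, Fin.val_succ,
        Matrix.cons_val_succ, pow_succ]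
      have e0 : Fin.removeNth 0 (Matrix.vecCons x v : Fin (j + 1 + 1) → V N) = v := by
        funext i
        simp [Fin.removeNth]
      have e1 : ∀ i : Fin (j + 1), i.succ.removeNth (Matrix.vecCons x v : Fin (j + 1 + 1) → V N) =
          Matrix.vecCons x (i.removeNth v) := by
        intro i
        funext l
        refine Fin.cases ?_ (fun l => ?_) l
        · simp [Fin.removeNth]
        · simp [Fin.removeNth]
      rw [e0, sub_eq_add_neg, ← Finset.sum_neg_distrib]
      congr 1
      refine Finset.sum_congr rfl fun i _ => ?_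
      rw [e1, mul_neg, mul_one, neg_smul]
    have h3 : (U (t ^ j • (C (w (j + 1) (t • x)) +
        (C.comp ((fderiv ℝ (w (j + 1)) (t • x)).comp
          (t • ContinuousLinearMap.id ℝ (V N)))).flip x))) v =
        t ^ j * (((j : ℝ) + 1) * w (j + 1) (t • x) v) + t ^ (j + 1) *
          ∑ i : Fin (j + 1), (-1 : ℤ) ^ (i : ℕ) •
            (fderiv ℝ (w (j + 1)) (t • x) (v i)) (Matrix.vecCons x (i.removeNth v)) := by
      have e2 : U (C (w (j + 1) (t • x))) = ((j : ℝ) + 1) • w (j + 1) (t • x) := by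
        have := ContinuousAlternatingMap.alternatizeUncurryFin_curryLeft (w (j + 1) (t • x))
        change ContinuousAlternatingMap.alternatizeUncurryFin ((w (j + 1) (t • x)).curryLeft) = _
        rw [this]
        ext v
        simp
      rw [map_smul, map_add, e2]
      have e3 : (U ((C.comp ((fderiv ℝ (w (j + 1)) (t • x)).comp
          (t • ContinuousLinearMap.id ℝ (V N)))).flip x)) v = t *
          ∑ i : Fin (j + 1), (-1 : ℤ) ^ (i : ℕ) •
            (fderiv ℝ (w (j + 1)) (t • x) (v i)) (Matrix.vecCons x (i.removeNth v)) := by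
        change ContinuousAlternatingMap.alternatizeUncurryFin _ v = _
        rw [ContinuousAlternatingMap.alternatizeUncurryFin_apply, Finset.mul_sum]
        refine Finset.sum_congr rfl fun i _ => ?_
        have e4 : ((C.comp ((fderiv ℝ (w (j + 1)) (t • x)).comp
          (t • ContinuousLinearMap.id ℝ (V N)))).flip x) (v i) =
          t • (fderiv ℝ (w (j + 1)) (t • x) (v i)).curryLeft x := by
          rw [← hCa]
          simp
        rw [e4]
        simp only [ContinuousAlternatingMap.smul_apply,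
          ContinuousAlternatingMap.curryLeft_apply_apply, smul_eq_mul, zsmul_eq_mul]
        ring
      rw [ContinuousAlternatingMap.smul_apply, ContinuousAlternatingMap.add_apply, e3]
      simp only [ContinuousAlternatingMap.smul_apply, smul_eq_mul]
      ring
    rw [ContinuousAlternatingMap.add_apply, ContinuousAlternatingMap.add_apply, h3,
      ContinuousAlternatingMap.smul_apply, ContinuousAlternatingMap.smul_apply,
      ContinuousAlternatingMap.smul_apply, h2]
    simp only [smul_eq_mul, Nat.cast_add, Nat.cast_one, Nat.add_sub_cancel]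
    ring
  have hFTC := intervalIntegral.integral_eq_sub_of_hasDerivAt (a := 0) (b := 1)
    (fun t _ => hder t) ((hcI1.add hcI2).intervalIntegrable 0 1)
  rw [intervalIntegral.integral_add (hcI1.intervalIntegrable 0 1)
    (hcI2.intervalIntegrable 0 1)] at hFTC
  rw [hfirst]
  change _ + (∫ t in (0 : ℝ)..1, t ^ (j + 1) • ((dd w (j + 1 + 1)) (t • x)).curryLeft x) = _
  rw [hFTC]
  simp

theorem homotopy {w : TF N} (hw : Sm w) : dd (KK w) + KK (dd w) = w - ev 0 w := by
  funext j x
  cases j with
  | zero =>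
    change (0 : Alt N 0) + KK (dd w) 0 x = w 0 x - w 0 0
    rw [zero_add]
    exact F3_zero hw x
  | succ j =>
    change dd (KK w) (j + 1) x + KK (dd w) (j + 1) x = w (j + 1) x - 0
    rw [sub_zero]
    exact F3_succ hw j x

end Pool.Agent.Lib.MP_df705a_gt.NV
end
end

section

/-!
# NV, F8b: sums of products over `S^p` (pointwise algebra)

`S : Finset G`, `β : G → covectors` with `∑_{g ∈ S} β g = 0`, `f : G → ℝ` with `∑_{g ∈ S} f g = 1`.

PROOFS. `sum_face`: induction on `p` and `i`. A sum over `Fintype.piFinset (fun _ : Fin (p + 1) => S)` is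
`∑ g₀ ∈ S, ∑ g' ∈ piFinset (Fin p), F (Fin.cons g₀ g')` (prove this first as a lemma, e.g. with
`Fin.consEquiv`/`Fin.cons_self_tail`, `Finset.sum_bij'` or `Finset.sum_nbij'`, `Fintype.mem_piFinset`, `Finset.sum_product'`).
i = 0: `B (fun j => g (succAbove 0 j)) = B g'` does not depend on `g₀`: `∑_{g₀} β(g₀) ∧ (…) = (∑ β) ∧ (…) = 0`
(`wc_sum_left`, `wc_zero_left`). i = succ i' (then `p = p' + 1`): for fixed `g₀` the inner sum
`∑_{g'} wc (β g₀) (wcs p (β ∘ g') (B (cons g₀ (g' ∘ succAbove i'))))` is `wc (β g₀)` of a sum which vanishes by induction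
(`wc_sum`). `sum_face_zero` and `sum_face_succ` follow in the same way.
-/

open scoped ContDiff Topology
open MeasureTheory

noncomputable section

namespace Pool.Agent.Lib.MP_df705a_gt.NV

open Pool.Agent.Lib.MP_df705a_gt.SVS (V pd jdet)
open Pool.Agent.Lib.MP_df705a_gt

variable {N : ℕ} {G : Type*} [Group G]

theorem sum_cons {E : Type*} [AddCommMonoid E] (S : Finset G) (p : ℕ) (F : (Fin (p + 1) → G) → E) :
    ∑ g ∈ Fintype.piFinset (fun _ : Fin (p + 1) => S), F g =
      ∑ g₀ ∈ S, ∑ g' ∈ Fintype.piFinset (fun _ : Fin p => S), F (Fin.cons g₀ g') := by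
  rw [← Finset.sum_product' S (Fintype.piFinset (fun _ : Fin p => S))
    (fun g₀ g' => F (Fin.cons g₀ g'))]
  refine Finset.sum_nbij' (fun g => (g 0, Fin.tail g)) (fun q => Fin.cons q.1 q.2) ?_ ?_ ?_ ?_ ?_
  · intro g hg
    rw [Fintype.mem_piFinset] at hg
    rw [Finset.mem_product, Fintype.mem_piFinset]
    exact ⟨hg 0, fun j => hg j.succ⟩
  · intro q hq
    rw [Finset.mem_product, Fintype.mem_piFinset] at hq
    rw [Fintype.mem_piFinset]
    intro j
    refine Fin.cases ?_ (fun i => ?_) j
    · simpa using hq.1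
    · simpa using hq.2 i
  · intro g _
    exact Fin.cons_self_tail g
  · intro q _
    simp
  · intro g _
    rw [Fin.cons_self_tail]

private theorem F8b_cons_succAbove {p : ℕ} (g₀ : G) (g' : Fin (p + 1) → G) (i : Fin (p + 1)) :
    (fun j : Fin (p + 1) => (Fin.cons g₀ g' : Fin (p + 2) → G) (i.succ.succAbove j)) =
      Fin.cons g₀ (fun j => g' (i.succAbove j)) := by
  funext j
  refine Fin.cases ?_ (fun k => ?_) j
  · simp
  · simp [Fin.succ_succAbove_succ]

private theorem F8b_wcs_succ (p : ℕ) (α : Fin (p + 1) → V N →L[ℝ] ℝ) (θ : GA N) :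
    wcs (p + 1) α θ = wc (α 0) (wcs p (Fin.tail α) θ) := rfl

theorem sum_face (S : Finset G) (β : G → V N →L[ℝ] ℝ) (hβ : ∑ g ∈ S, β g = 0) (p : ℕ)
    (B : (Fin p → G) → GA N) (i : Fin (p + 1)) :
    ∑ g ∈ Fintype.piFinset (fun _ : Fin (p + 1) => S),
      wcs (p + 1) (fun j => β (g j)) (B fun j => g (i.succAbove j)) = 0 := by
  induction p with
  | zero =>
    have hi : i = 0 := Subsingleton.elim (α := Fin 1) _ _
    subst hi
    rw [sum_cons, Finset.sum_comm]
    refine Finset.sum_eq_zero fun g' _ => ?_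
    have h : ∀ g₀ ∈ S, wcs (0 + 1) (fun j => β ((Fin.cons g₀ g' : Fin (0 + 1) → G) j))
        (B fun j => (Fin.cons g₀ g' : Fin (0 + 1) → G) ((0 : Fin (0 + 1)).succAbove j)) =
        wc (β g₀) (B g') := by
      intro g₀ _
      rw [F8b_wcs_succ]
      have e : (fun j => (Fin.cons g₀ g' : Fin (0 + 1) → G) ((0 : Fin (0 + 1)).succAbove j)) = g' :=
        Subsingleton.elim _ _
      rw [e]
      rfl
    rw [Finset.sum_congr rfl h, ← wc_sum_left, hβ, wc_zero_left]
  | succ p ih =>
    refine Fin.cases ?_ (fun i' => ?_) i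
    · rw [sum_cons, Finset.sum_comm]
      refine Finset.sum_eq_zero fun g' _ => ?_
      have h : ∀ g₀ ∈ S, wcs (p + 1 + 1) (fun j => β ((Fin.cons g₀ g' : Fin (p + 1 + 1) → G) j))
          (B fun j => (Fin.cons g₀ g' : Fin (p + 1 + 1) → G) ((0 : Fin (p + 1 + 1)).succAbove j)) =
          wc (β g₀) (wcs (p + 1) (fun j => β (g' j)) (B g')) := by
        intro g₀ _
        rw [F8b_wcs_succ]
        have e : (fun j => (Fin.cons g₀ g' : Fin (p + 1 + 1) → G)
            ((0 : Fin (p + 1 + 1)).succAbove j)) = g' := by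
          funext j
          simp
        rw [e]
        rfl
      rw [Finset.sum_congr rfl h, ← wc_sum_left, hβ, wc_zero_left]
    · rw [sum_cons]
      refine Finset.sum_eq_zero fun g₀ _ => ?_
      have h : ∀ g' ∈ Fintype.piFinset (fun _ : Fin (p + 1) => S),
          wcs (p + 1 + 1) (fun j => β ((Fin.cons g₀ g' : Fin (p + 1 + 1) → G) j))
          (B fun j => (Fin.cons g₀ g' : Fin (p + 1 + 1) → G) (i'.succ.succAbove j)) =
          wc (β g₀) (wcs (p + 1) (fun j => β (g' j))
            ((fun h : Fin p → G => B (Fin.cons g₀ h)) fun j => g' (i'.succAbove j))) := by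
        intro g' _
        rw [F8b_wcs_succ, F8b_cons_succAbove]
        rfl
      rw [Finset.sum_congr rfl h, ← wc_sum]
      exact (congrArg (wc (β g₀)) (ih (fun h : Fin p → G => B (Fin.cons g₀ h)) i')).trans
        (wc_zero _)

theorem sum_face_zero (S : Finset G) (f : G → ℝ) (hf : ∑ g ∈ S, f g = 1) (β : G → V N →L[ℝ] ℝ)
    (p : ℕ) (B : (Fin p → G) → GA N) :
    ∑ g ∈ Fintype.piFinset (fun _ : Fin (p + 1) => S),
      f (g 0) • wcs p (fun j => β (g j.succ)) (B fun j => g ((0 : Fin (p + 1)).succAbove j)) =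
    ∑ g ∈ Fintype.piFinset (fun _ : Fin p => S), wcs p (fun j => β (g j)) (B g) := by
  rw [sum_cons, Finset.sum_comm]
  refine Finset.sum_congr rfl fun g' _ => ?_
  have h : ∀ g₀ ∈ S, f ((Fin.cons g₀ g' : Fin (p + 1) → G) 0) •
      wcs p (fun j => β ((Fin.cons g₀ g' : Fin (p + 1) → G) j.succ))
        (B fun j => (Fin.cons g₀ g' : Fin (p + 1) → G) ((0 : Fin (p + 1)).succAbove j)) =
      f g₀ • wcs p (fun j => β (g' j)) (B g') := by
    intro g₀ _
    have e : (fun j => (Fin.cons g₀ g' : Fin (p + 1) → G)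
        ((0 : Fin (p + 1)).succAbove j)) = g' := by
      funext j
      simp
    rw [e]
    rfl
  rw [Finset.sum_congr rfl h, ← Finset.sum_smul, hf, one_smul]

theorem sum_face_succ (S : Finset G) (f : G → ℝ) (β : G → V N →L[ℝ] ℝ) (hβ : ∑ g ∈ S, β g = 0)
    (p : ℕ) (B : (Fin p → G) → GA N) (i : Fin p) :
    ∑ g ∈ Fintype.piFinset (fun _ : Fin (p + 1) => S),
      f (g 0) • wcs p (fun j => β (g j.succ)) (B fun j => g (i.succ.succAbove j)) = 0 := by
  cases p with
  | zero => exact i.elim0
  | succ p =>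
    rw [sum_cons]
    refine Finset.sum_eq_zero fun g₀ _ => ?_
    have h : ∀ g' ∈ Fintype.piFinset (fun _ : Fin (p + 1) => S),
        f ((Fin.cons g₀ g' : Fin (p + 1 + 1) → G) 0) •
        wcs (p + 1) (fun j => β ((Fin.cons g₀ g' : Fin (p + 1 + 1) → G) j.succ))
        (B fun j => (Fin.cons g₀ g' : Fin (p + 1 + 1) → G) (i.succ.succAbove j)) =
        f g₀ • wcs (p + 1) (fun j => β (g' j))
          ((fun h : Fin p → G => B (Fin.cons g₀ h)) fun j => g' (i.succAbove j)) := by
      intro g' _
      rw [F8b_cons_succAbove]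
      rfl
    rw [Finset.sum_congr rfl h, ← Finset.smul_sum]
    exact (congrArg (fun z : GA N => f g₀ • z)
      (sum_face S β hβ p (fun h : Fin p → G => B (Fin.cons g₀ h)) i)).trans (smul_zero _)

end Pool.Agent.Lib.MP_df705a_gt.NV
end
end

section

/-!
# NV, F4: Stokes for forms with compact support

PROOF. `N = 0`: `dd w 0 = 0`. `N = j + 1`: `top (dd w) x = ∑_i (-1)^i (fderiv (w j) x e_i)(e without e_i)` (`extDeriv_apply`
or `alternatizeUncurryFin_apply`), and each summand is the derivative in the direction `e_i` of the smooth function with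
compact support `x ↦ w j x (i.removeNth e)`; its integral over `ℝᴺ` is zero (`integral_fderiv_eq_zero`-type lemma; for example
`integral_bilinear_hasLineDerivAt_right_eq_neg_left_of_integrable` with the constant function `1`, or
`integral_mul_fderiv_eq_neg_fderiv_mul_of_integrable`, or search in `Mathlib.Analysis.Calculus.LineDeriv.IntegrationByParts`).
-/

open scoped ContDiff Topology
open MeasureTheory

noncomputable section

namespace Pool.Agent.Lib.MP_df705a_gt.NV

open Pool.Agent.Lib.MP_df705a_gt.SVS (V pd jdet)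
open Pool.Agent.Lib.MP_df705a_gt

variable {N : ℕ}

private theorem F4_int {u : V N → ℝ} (hu : ContDiff ℝ ∞ u) (hc : HasCompactSupport u) (v : V N) :
    Integrable (fun x => fderiv ℝ u x v) volume ∧ ∫ x, fderiv ℝ u x v = 0 := by
  have h1 : Continuous (fun x => fderiv ℝ u x v) :=
    (hu.continuous_fderiv (by simp)).clm_apply continuous_const
  have h2 : HasCompactSupport (fun x => fderiv ℝ u x v) := by
    refine (hc.fderiv ℝ).mono ?_
    intro x hx
    rw [Function.mem_support] at hx ⊢
    intro h0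
    exact hx (by simp [h0])
  have i1 : Integrable (fun x => fderiv ℝ u x v) volume := h1.integrable_of_hasCompactSupport h2
  refine ⟨i1, ?_⟩
  have i2 : Integrable u volume := hu.continuous.integrable_of_hasCompactSupport hc
  have h3 := integral_mul_fderiv_eq_neg_fderiv_mul_of_integrable (μ := (volume : Measure (V N)))
    (f := fun _ : V N => (1 : ℝ)) (g := u) (v := v) (by simp) (by simpa using i1)
    (by simpa using i2) (fun x _ => differentiableAt_const _)
    (fun x _ => (hu.differentiable (by simp)) x)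
  simpa using h3

theorem stokes {w : TF N} (hw : Sm w) (hc : ∀ j, HasCompactSupport (w j)) :
    ∫ x, top (dd w) x = 0 := by
  cases N with
  | zero => simp [top, dd]
  | succ j =>
    set e : Fin (j + 1) → V (j + 1) := fun i => EuclideanSpace.single i 1 with he
    have key : ∀ i : Fin (j + 1), ∃ u : V (j + 1) → ℝ, ContDiff ℝ ∞ u ∧ HasCompactSupport u ∧
        ∀ x, fderiv ℝ (w j) x (e i) (i.removeNth e) = fderiv ℝ u x (e i) := by
      intro i
      refine ⟨fun x => ContinuousAlternatingMap.apply ℝ (V (j + 1)) ℝ (i.removeNth e) (w j x),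
        ?_, ?_, ?_⟩
      · exact (ContinuousAlternatingMap.apply ℝ (V (j + 1)) ℝ (i.removeNth e)).contDiff.comp
          (hw j)
      · exact (hc j).comp_left (map_zero _)
      · intro x
        have h1 := (ContinuousAlternatingMap.apply ℝ (V (j + 1)) ℝ
          (i.removeNth e)).hasFDerivAt.comp x ((hw j).differentiable (by simp) x).hasFDerivAt
        have h2 := h1.fderiv
        simp only [Function.comp_def] at h2
        rw [h2]
        rfl
    choose u hu1 hu2 hu3 using key
    have h1 : ∀ x, top (dd w) x = ∑ i : Fin (j + 1), (-1 : ℝ) ^ (i : ℕ) *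
        fderiv ℝ (u i) x (e i) := by
      intro x
      show extDeriv (w j) x e = _
      rw [extDeriv, ContinuousAlternatingMap.alternatizeUncurryFin_apply]
      refine Finset.sum_congr rfl fun i _ => ?_
      rw [hu3 i x]
      simp
    simp only [h1]
    rw [integral_finsetSum _ (fun i _ => ((F4_int (hu1 i) (hu2 i) (e i)).1.const_mul _))]
    refine Finset.sum_eq_zero fun i _ => ?_
    rw [integral_const_mul, (F4_int (hu1 i) (hu2 i) (e i)).2, mul_zero]

end Pool.Agent.Lib.MP_df705a_gt.NV
end
end
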