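import Pool.Agent.Lib.MP_df705a_gt.Mg.G092
import Pool.Agent.Lib.MP_df705a_gt.Mg.G090
import Pool.Agent.Lib.MP_df705a_gt.Mg.G093
import Pool.Agent.Lib.MP_df705a_gt.Mg.G095

section

/-!
# NV, F8e: the last step: pairing of the cocycle with the fundamental cycle

PROOF. Both sums have their supports in `Fintype.piFinset (fun _ : Fin n => S)`, `S` from `exists_fin` (if `h i ∉ S` then
`dχ_{h i} = 0` at the points of `tsupport χ`), so they are finite sums, which can be exchanged with the integral (continuous integrands with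
compact support). By `del_tt`, `cc (cons 1 h) • one = del (tt n) (cons 1 h) = ∑ i, (-1)^i • tt n (fun j => cons 1 h (i.succAbove j))`.
Pointwise at `y ∈ tsupport χ`: the term `i = 0` is `tt n h`, which gives the right side. The term `i = i'.succ` is
`tt n (cons 1 (h without h_{i'}))` (`n = n' + 1`), which does not depend on `h_{i'}`; its sum is zero by `sum_face` with
`p = n'`, `β g = fderiv χ_g y`, `B g = fun j => wds k (co s) (tt a w n (Fin.cons 1 g)) j y`
(`(fun j => (Fin.cons 1 h) (i'.succ.succAbove j)) = Fin.cons 1 (fun j => h (i'.succAbove j))`).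
-/

open scoped ContDiff Topology
open MeasureTheory

noncomputable section

namespace Pool.Agent.Lib.MP_df705a_gt.NV

open Pool.Agent.Lib.MP_df705a_gt.SVS (V pd jdet)
open Pool.Agent.Lib.MP_df705a_gt

variable {N : ℕ} {G : Type*} [Group G]

variable {a : SVS.Act G N} {χ : V N → ℝ} {k n : ℕ} {s : V N → V k} {w : TF N}

private lemma F8e_wcs_zero : ∀ (p : ℕ) (α : Fin p → V N →L[ℝ] ℝ) (i : Fin p) (_ : α i = 0)
    (θ : GA N), wcs p α θ = 0 := by
  intro p
  induction p with
  | zero => exact fun _ i => i.elim0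
  | succ p ih =>
    intro α i hi θ
    change wc (α 0) (wcs p (Fin.tail α) θ) = 0
    refine Fin.cases (motive := fun i => α i = 0 → wc (α 0) (wcs p (Fin.tail α) θ) = 0)
      (fun h0 => ?_) (fun i hi => ?_) i hi
    · rw [h0, wc_zero_left]
    · rw [ih (Fin.tail α) i hi θ, wc_zero]

private lemma F8e_top (p : ℕ) (f : Fin p → V N → ℝ) (w : TF N) (y : V N) :
    top (wds p f w) y = wcs p (fun i => fderiv ℝ (f i) y) (fun i => w i y) N
      fun i => EuclideanSpace.single i 1 := rfl

private lemma F8e_top_zero (p : ℕ) (f : Fin p → V N → ℝ) (w : TF N) (y : V N) (i : Fin p)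
    (hi : fderiv ℝ (f i) y = 0) : top (wds p f w) y = 0 := by
  rw [F8e_top, F8e_wcs_zero p _ i hi]
  rfl

private lemma F8e_face (S : Finset G) (y : V N) (hβ : ∑ g ∈ S, fderiv ℝ (tr a χ g) y = 0)
    (s : V N → V k) (w : TF N) : ∀ (n : ℕ) (i : Fin n),
    ∑ h ∈ Fintype.piFinset (fun _ : Fin n => S), top (wds n (fun i => tr a χ (h i))
      (wds k (co s) (tt a w n fun j => (Fin.cons 1 h : Fin (n + 1) → G) (i.succ.succAbove j)))) y
      = 0 := by
  intro n
  rcases n with _ | n
  · exact fun i => i.elim0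
  intro i
  have h1 := sum_face S (fun g => fderiv ℝ (tr a χ g) y) hβ n
    (fun g j => wds k (co s) (tt a w (n + 1) (Fin.cons 1 g)) j y) i
  have h2 := congrArg (fun θ : GA N => θ N (fun i => EuclideanSpace.single i 1)) h1
  simp only [Finset.sum_apply, ContinuousAlternatingMap.sum_apply] at h2
  refine Eq.trans (Finset.sum_congr rfl fun h _ => ?_) h2
  rw [F8e_top]
  have : (fun j => (Fin.cons 1 h : Fin (n + 2) → G) (i.succ.succAbove j)) =
      Fin.cons 1 fun j => h (i.succAbove j) := by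
    funext j
    refine Fin.cases ?_ (fun j => ?_) j
    · rw [Fin.succ_succAbove_zero]
      rfl
    · rw [Fin.succ_succAbove_succ, Fin.cons_succ, Fin.cons_succ]
  rw [this]

private lemma F8e_int (H : Setup a χ s w n) (h : Fin n → G) {θ : TF N} (hθ : Sm θ) :
    Integrable fun y => χ y * top (wds n (fun i => tr a χ (h i)) (wds k (co s) θ)) y := by
  have htr : ∀ g, ContDiff ℝ ∞ (tr a χ g) := fun g => H.chi.comp (a.smooth g⁻¹)
  have hco : ∀ j, ContDiff ℝ ∞ (co s j) := fun j => (contDiff_euclidean.1 H.ss) j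
  have hsm : Sm (wds n (fun i => tr a χ (h i)) (wds k (co s) θ)) :=
    (hθ.wds hco).wds fun i => htr (h i)
  refine Continuous.integrable_of_hasCompactSupport
    (H.chi.continuous.mul hsm.top.continuous) ?_
  exact H.supp.mul_right

theorem AA_last (H : Setup a χ s w n) :
    ∑ᶠ h : Fin n → G, (∫ y, χ y *
      top (wds n (fun i => tr a χ (h i)) (wds k (co s) one)) y) * cc a w n (Fin.cons 1 h) =
    ∑ᶠ g, AA a χ s w n g := by
  classical
  obtain ⟨S, hS1, -, hS3⟩ := exists_fin H
  -- the integrands vanish outside the finite set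
  have hzero : ∀ h : Fin n → G, h ∉ Fintype.piFinset (fun _ : Fin n => S) → ∀ (θ : TF N)
      (y : V N), χ y * top (wds n (fun i => tr a χ (h i)) (wds k (co s) θ)) y = 0 := by
    intro h hh θ y
    rw [Fintype.mem_piFinset] at hh
    push Not at hh
    obtain ⟨i, hi⟩ := hh
    by_cases hy : y ∈ tsupport χ
    · have hy2 : y ∉ tsupport (tr a χ (h i)) := fun h2 =>
        (Set.disjoint_left.1 (hS1 _ hi)) hy h2
      have hy3 : fderiv ℝ (tr a χ (h i)) y = 0 := by
        by_contra hne
        exact hy2 (support_fderiv_subset ℝ hne)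
      rw [F8e_top_zero n _ _ y i hy3, mul_zero]
    · rw [image_eq_zero_of_notMem_tsupport hy, zero_mul]
  have hsm : ∀ g : Fin n → G, Sm (tt a w n g) := fun g => Sm_tt a H.sm n g
  rw [finsum_eq_finsetSum_of_support_subset (s := Fintype.piFinset (fun _ : Fin n => S)),
    finsum_eq_finsetSum_of_support_subset (s := Fintype.piFinset (fun _ : Fin n => S))]
  rotate_left
  · intro g hg
    by_contra hg2
    apply hg
    unfold AA
    rw [← integral_zero (V N) ℝ (μ := volume)]
    exact integral_congr_ae (Filter.Eventually.of_forall fun y =>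
      hzero g (by simpa using hg2) _ y)
  · intro g hg
    by_contra hg2
    apply hg
    have : ∫ y, χ y * top (wds n (fun i => tr a χ (g i)) (wds k (co s) one)) y = 0 := by
      rw [← integral_zero (V N) ℝ (μ := volume)]
      exact integral_congr_ae (Filter.Eventually.of_forall fun y =>
        hzero g (by simpa using hg2) _ y)
    change (∫ y, χ y * top (wds n (fun i => tr a χ (g i)) (wds k (co s) one)) y) *
      cc a w n (Fin.cons 1 g) = 0
    rw [this, zero_mul]
  -- the left side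
  have hL : ∀ h : Fin n → G, (∫ y, χ y *
      top (wds n (fun i => tr a χ (h i)) (wds k (co s) one)) y) * cc a w n (Fin.cons 1 h) =
      ∑ i : Fin (n + 1), (-1 : ℝ) ^ (i : ℕ) * ∫ y, χ y * top (wds n (fun i => tr a χ (h i))
        (wds k (co s) (tt a w n fun j => (Fin.cons 1 h : Fin (n + 1) → G) (i.succAbove j)))) y := by
    intro h
    have h1 : (∫ y, χ y * top (wds n (fun i => tr a χ (h i)) (wds k (co s) one)) y) *
        cc a w n (Fin.cons 1 h) = ∫ y, χ y * top (wds n (fun i => tr a χ (h i))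
          (wds k (co s) (cc a w n (Fin.cons 1 h) • one))) y := by
      rw [← integral_mul_const]
      refine integral_congr_ae (Filter.Eventually.of_forall fun y => ?_)
      simp only [wds_smul, top_smul]
      ring
    rw [h1, ← del_tt a H.sm H.closed H.deg (Fin.cons 1 h)]
    unfold del
    have h2 : ∀ y, χ y * top (wds n (fun i => tr a χ (h i)) (wds k (co s)
        (∑ i : Fin (n + 1), (-1 : ℝ) ^ (i : ℕ) • tt a w n
          fun j => (Fin.cons 1 h : Fin (n + 1) → G) (i.succAbove j)))) y =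
        ∑ i : Fin (n + 1), (-1 : ℝ) ^ (i : ℕ) * (χ y * top (wds n (fun i => tr a χ (h i))
        (wds k (co s) (tt a w n fun j => (Fin.cons 1 h : Fin (n + 1) → G) (i.succAbove j)))) y) := by
      intro y
      rw [wds_sum, wds_sum, top_sum, Finset.mul_sum]
      refine Finset.sum_congr rfl fun i _ => ?_
      rw [wds_smul, wds_smul, top_smul]
      ring
    rw [integral_congr_ae (Filter.Eventually.of_forall h2), integral_finsetSum]
    · refine Finset.sum_congr rfl fun i _ => ?_
      rw [integral_const_mul]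
    · intro i _
      exact (F8e_int H h (hsm _)).const_mul _
  rw [Finset.sum_congr rfl fun h _ => hL h, Finset.sum_comm, Fin.sum_univ_succ]
  have hz : ∀ i : Fin n, ∑ h ∈ Fintype.piFinset (fun _ : Fin n => S),
      (-1 : ℝ) ^ ((i.succ : Fin (n + 1)) : ℕ) * ∫ y, χ y * top (wds n (fun i => tr a χ (h i))
        (wds k (co s) (tt a w n fun j =>
          (Fin.cons 1 h : Fin (n + 1) → G) (i.succ.succAbove j)))) y = 0 := by
    intro i
    rw [← Finset.mul_sum, ← integral_finsetSum _ fun h _ => F8e_int H h (hsm _)]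
    have : ∀ y, ∑ h ∈ Fintype.piFinset (fun _ : Fin n => S), χ y * top (wds n
        (fun i => tr a χ (h i)) (wds k (co s) (tt a w n fun j =>
          (Fin.cons 1 h : Fin (n + 1) → G) (i.succ.succAbove j)))) y = 0 := by
      intro y
      rw [← Finset.mul_sum]
      by_cases hy : y ∈ tsupport χ
      · rw [F8e_face S y (hS3 y hy) s w n i, mul_zero]
      · rw [image_eq_zero_of_notMem_tsupport hy, zero_mul]
    rw [integral_congr_ae (Filter.Eventually.of_forall this), integral_zero, mul_zero]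
  rw [Finset.sum_eq_zero fun i _ => hz i, add_zero]
  refine Finset.sum_congr rfl fun h _ => ?_
  rw [Fin.val_zero, pow_zero, one_mul]
  unfold AA
  have : (fun j => (Fin.cons 1 h : Fin (n + 1) → G) ((0 : Fin (n + 1)).succAbove j)) = h := by
    funext j
    rw [Fin.succAbove_zero, Fin.cons_succ]
  rw [this]

end Pool.Agent.Lib.MP_df705a_gt.NV
end
end

section

/-!
# NV, F8: the pairing of the cocycle with the fundamental cycle
-/

open scoped ContDiff Topology
open MeasureTheory

noncomputable section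

namespace Pool.Agent.Lib.MP_df705a_gt.NV

open Pool.Agent.Lib.MP_df705a_gt.SVS (V pd jdet)
open Pool.Agent.Lib.MP_df705a_gt

variable {N : ℕ} {G : Type*} [Group G]

variable {a : SVS.Act G N} {χ : V N → ℝ} {k n : ℕ} {s : V N → V k} {w : TF N}

theorem AA_iter (H : Setup a χ s w n) (p : ℕ) (hp : p ≤ n) :
    ∃ ε : ℝ, ε ≠ 0 ∧ ∑ᶠ g, AA a χ s w 0 g = ε * ∑ᶠ g, AA a χ s w p g := by
  induction p with
  | zero => exact ⟨1, one_ne_zero, by rw [one_mul]⟩
  | succ p ih =>
    obtain ⟨ε, hε, h⟩ := ih (by omega)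
    refine ⟨ε * -(-1) ^ (p + k), ?_, ?_⟩
    · exact mul_ne_zero hε (neg_ne_zero.2 (pow_ne_zero _ (by norm_num)))
    · rw [h, AA_step H p (by omega) (XX_sum H p) fun hS => XX_supp H hS p, mul_assoc]

/-- The pairing of the cocycle with the fundamental cycle is not zero. -/
theorem pairing_ne (H : Setup a χ s w n) (hT : ∫ y, χ y * top (wds k (co s) w) y ≠ 0) :
    ∑ᶠ h : Fin n → G, (∫ y, χ y *
      top (wds n (fun i => tr a χ (h i)) (wds k (co s) one)) y) * cc a w n (Fin.cons 1 h) ≠ 0 := by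
  rw [AA_last H]
  intro h0
  obtain ⟨ε, hε, h⟩ := AA_iter H n le_rfl
  rw [h0, mul_zero] at h
  apply hT
  rw [← h, finsum_unique]
  rfl

end Pool.Agent.Lib.MP_df705a_gt.NV
end
end

section

/-!
# NV, F9c: the closed invariant form

PROOF. Let `ω₁ = wds n U one` and `Δ y = top (wds k (co s) ω₁) y` where `co s j y = s y j`. By `top_wds_one` (with `p = k`,
`q = n`) `Δ y` is the determinant of the matrix of the covectors `ds_1, …, ds_k, dU_1, …, dU_n`; it is not zero for
`y ∈ tsupport r`: otherwise there is `v ≠ 0` (`Matrix.exists_mulVec_eq_zero_iff`) killed by all of them, so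
`fderiv s y v = 0` and (hypothesis `hU`) `mfderiv q y v = 0`, against `hinj`. `Δ` is continuous (`Sm.top`). `pull (a.act γ)` of
`wds k (co s) ω₁` is itself (`pull_wds`, `pull_one`, `U i (γ y) = U i y`, `s (γ y) = s y + c`), so
`jdet γ y * Δ (γ y) = Δ y` (`top_pull`): `Δ (γ y)` and `Δ y` have the same sign.
Let `R y = SignType.sign (Δ y) * r y` (real valued). `R` is smooth: near a point of `tsupport r` the sign is constant (`Δ ≠ 0`
continuous); near any other point `r = 0`. `tsupport R ⊆ tsupport r`, `R (γ y) = R y`.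
`w = ml R ω₁`. Smooth. `pull (a.act γ) w = w` (`pull_ml, pull_wds, pull_one`). `w j = 0` for `j ≠ n` (`wcs n α one_x j = 0` for
`j ≠ n`, induction). `dd w = wd R ω₁ + ml R (dd ω₁)` (`dd_ml`), `dd ω₁ = ± wds n U (dd one) = 0` (`dd_wds`, `dd_one`), and
`wd R ω₁ = 0`: for `y ∈ tsupport r`, `fderiv R y = ± fderiv r y = ± ∑ b_i fderiv (U i) y`, and
`wc (fderiv (U i) y) (wcs n (fun i => fderiv (U i) y) _) = 0` (`wc_wcs_mem`, `wc_sum_left`, `wc_smul_left`); for
`y ∉ tsupport r`, `fderiv R y = 0`. Finally `top (wds k (co s) w) y = R y * Δ y = r y * |Δ y|` (`wds` commutes with `ml`: pointwise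
`wcs_smul`), which is `≥ 0`, and `> 0` at `y₀`.
-/

open scoped ContDiff Topology Manifold
open MeasureTheory

noncomputable section

namespace Pool.Agent.Lib.MP_df705a_gt.NV

open Pool.Agent.Lib.MP_df705a_gt.SVS (V pd jdet)
open Pool.Agent.Lib.MP_df705a_gt

variable {N : ℕ} {G : Type*} [Group G]

private lemma F9c_wcs_deg : ∀ (n : ℕ) (α : Fin n → V N →L[ℝ] ℝ) (θ : GA N), (∀ j, j ≠ 0 → θ j = 0) →
    ∀ j, j ≠ n → wcs n α θ j = 0
  | 0, _, θ, h, j, hj => h j hj
  | n + 1, α, θ, h, 0, _ => rfl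
  | n + 1, α, θ, h, j + 1, hj => by
    have h1 := F9c_wcs_deg n (Fin.tail α) θ h j (fun h => hj (by rw [h]))
    ext v
    show wc (α 0) (wcs n (Fin.tail α) θ) (j + 1) v = 0
    rw [wc_apply, h1]
    simp

private lemma F9c_wds_zero (n : ℕ) (f : Fin n → V N → ℝ) : wds n f (0 : TF N) = 0 := by
  funext j x
  show wcs n (fun i => fderiv ℝ (f i) x) (0 : GA N) j = 0
  rw [wcs_zero]
  rfl

private lemma F9c_wds_congr (n : ℕ) {f g : Fin n → V N → ℝ} (w : TF N)
    (h : ∀ i x, fderiv ℝ (f i) x = fderiv ℝ (g i) x) : wds n f w = wds n g w := by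
  funext j x
  show wcs n (fun i => fderiv ℝ (f i) x) (fun i => w i x) j =
    wcs n (fun i => fderiv ℝ (g i) x) (fun i => w i x) j
  rw [show (fun i => fderiv ℝ (f i) x) = (fun i => fderiv ℝ (g i) x) from
    funext fun i => h i x]

private lemma F9c_wds_ml (n : ℕ) (f : Fin n → V N → ℝ) (R : V N → ℝ) (w : TF N) :
    wds n f (ml R w) = ml R (wds n f w) := by
  funext j x
  show wcs n (fun i => fderiv ℝ (f i) x) (R x • fun i => w i x) j =
    R x • wcs n (fun i => fderiv ℝ (f i) x) (fun i => w i x) j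
  rw [wcs_smul]
  rfl

private lemma F9c_ml_zero (R : V N → ℝ) : ml R (0 : TF N) = 0 := by
  funext j x
  show R x • (0 : Alt N j) = 0
  rw [smul_zero]

private lemma F9c_det {m q : ℕ} (e : m + q = N) {f : Fin m → V N → ℝ} {g : Fin q → V N → ℝ}
    (y : V N)
    (hker : ∀ v : V N, (∀ i, fderiv ℝ (f i) y v = 0) → (∀ i, fderiv ℝ (g i) y v = 0) → v = 0) :
    top (wds m f (wds q g one)) y ≠ 0 := by
  rw [top_wds_one e]
  intro h0
  obtain ⟨v, hv, hMv⟩ := Matrix.exists_mulVec_eq_zero_iff.mpr h0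
  apply hv
  have key : ∀ i : Fin N, fderiv ℝ (fun y => Fin.addCases (motive := fun _ => ℝ)
      (fun i : Fin m => f i y) (fun j : Fin q => g j y) (Fin.cast e.symm i)) y
      (WithLp.toLp 2 v : V N) = 0 := by
    intro i
    have h1 := congrFun hMv i
    rw [Matrix.mulVec, dotProduct] at h1
    have h2 : (WithLp.toLp 2 v : V N) = ∑ μ, v μ • EuclideanSpace.single μ (1 : ℝ) := by
      ext ν
      simp [Finset.sum_apply, Pi.single_apply]
    rw [h2, map_sum]
    simp only [Matrix.of_apply, pd, Pi.zero_apply] at h1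
    rw [← h1]
    refine Finset.sum_congr rfl fun μ _ => ?_
    rw [map_smul, smul_eq_mul, mul_comm]
  have hz := hker (WithLp.toLp 2 v) (fun i => by
    have h1 := key (Fin.cast e (Fin.castAdd q i))
    simpa using h1) (fun i => by
    have h1 := key (Fin.cast e (Fin.natAdd m i))
    simpa using h1)
  have h3 : (WithLp.toLp 2 v : V N) = WithLp.toLp 2 0 := hz
  exact (WithLp.toLp_injective 2) h3

theorem exists_form {n k : ℕ} (e : n + k = N) {s : V N → V k} (hs : ContDiff ℝ ∞ s)
    {K : V N → V N → Prop} {r : V N → ℝ} {U : Fin n → V N → ℝ} {y₀ : V N}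
    (hr : ContDiff ℝ ∞ r) (hUs : ∀ i, ContDiff ℝ ∞ (U i)) (hr0 : ∀ y, 0 ≤ r y) (hy₀ : 0 < r y₀)
    (hb : ∀ y ∈ tsupport r, ∃ b : Fin n → ℝ, fderiv ℝ r y = ∑ i, b i • fderiv ℝ (U i) y)
    (hU : ∀ y ∈ tsupport r, ∀ v : V N, (∀ i, fderiv ℝ (U i) y v = 0) → K y v)
    (hinj : ∀ y v, K y v → fderiv ℝ s y v = 0 → v = 0)
    (a : SVS.Act G N) (hact : ∀ γ y, r (a.act γ y) = r y ∧ ∀ i, U i (a.act γ y) = U i y)
    (hadd : ∀ γ, ∃ c, ∀ y, s (a.act γ y) = s y + c) (ori : ∀ γ y, 0 < jdet (a.act γ) y) :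
    ∃ w : TF N, Sm w ∧ dd w = 0 ∧ (∀ γ, pull (a.act γ) w = w) ∧ (∀ j, j ≠ n → w j = 0) ∧
      (∀ y, 0 ≤ top (wds k (fun j y => s y j) w) y) ∧
      ∃ y, 0 < top (wds k (fun j y => s y j) w) y := by
  have e' : k + n = N := by omega
  set co : Fin k → V N → ℝ := fun j y => s y j with hco
  have hcos : ∀ j, ContDiff ℝ ∞ (co j) := fun j => by
    rw [hco]
    exact (contDiff_euclidean.mp hs) j
  set ω₁ : TF N := wds n U one with hω
  have hωs : Sm ω₁ := Sm.wds Sm_one hUs
  set Δ : V N → ℝ := top (wds k co ω₁) with hΔ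
  have hΔs : ContDiff ℝ ∞ Δ := Sm.top (Sm.wds hωs hcos)
  have hΔne : ∀ y ∈ tsupport r, Δ y ≠ 0 := by
    intro y hy
    apply F9c_det e'
    intro v h1 h2
    apply hinj y v (hU y hy v h2)
    have hd : DifferentiableAt ℝ s y := hs.differentiable (by simp) y
    ext j
    have h3 := h1 j
    have h4 : fderiv ℝ (co j) y v = (fderiv ℝ s y v) j := by
      have h5 : HasFDerivAt (co j) ((EuclideanSpace.proj j).comp (fderiv ℝ s y)) y :=
        (EuclideanSpace.proj j : EuclideanSpace ℝ (Fin k) →L[ℝ] ℝ).hasFDerivAt.comp y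
          hd.hasFDerivAt
      rw [h5.fderiv]
      rfl
    rw [h4] at h3
    simpa using h3
  have hpω : ∀ γ, pull (a.act γ) ω₁ = ω₁ := by
    intro γ
    rw [hω, pull_wds (a.smooth γ) hUs, pull_one]
    congr 1
    funext i y
    exact (hact γ y).2 i
  have hpΔ : ∀ γ, pull (a.act γ) (wds k co ω₁) = wds k co ω₁ := by
    intro γ
    rw [pull_wds (a.smooth γ) hcos, hpω]
    apply F9c_wds_congr
    intro i x
    obtain ⟨c, hc⟩ := hadd γ
    have h1 : (fun y => co i (a.act γ y)) = fun y => co i y + c i := by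
      funext y
      rw [hco]
      show s (a.act γ y) i = s y i + c i
      rw [hc]
      rfl
    rw [h1, fderiv_add_const]
  have hjΔ : ∀ γ y, Δ y = jdet (a.act γ) y * Δ (a.act γ y) := by
    intro γ y
    have h1 := top_pull (a.smooth γ) (wds k co ω₁) y
    rw [hpΔ] at h1
    exact h1
  have hsign : ∀ γ y, SignType.sign (Δ (a.act γ y)) = SignType.sign (Δ y) := by
    intro γ y
    rw [hjΔ γ y, sign_mul, sign_pos (ori γ y), one_mul]
  set R : V N → ℝ := fun y => (SignType.sign (Δ y) : ℝ) * r y with hR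
  have hRloc : ∀ y ∈ tsupport r, R =ᶠ[𝓝 y] fun z => (SignType.sign (Δ y) : ℝ) * r z := by
    intro y hy
    rcases lt_or_gt_of_ne (hΔne y hy) with h | h
    · filter_upwards [hΔs.continuous.continuousAt.eventually_lt continuousAt_const h] with z hz
      rw [hR]
      show (SignType.sign (Δ z) : ℝ) * r z = _
      rw [sign_neg hz, sign_neg h]
    · filter_upwards [continuousAt_const.eventually_lt hΔs.continuous.continuousAt h] with z hz
      rw [hR]
      show (SignType.sign (Δ z) : ℝ) * r z = _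
      rw [sign_pos hz, sign_pos h]
  have hRloc0 : ∀ y, y ∉ tsupport r → R =ᶠ[𝓝 y] fun _ => 0 := by
    intro y hy
    filter_upwards [notMem_tsupport_iff_eventuallyEq.mp hy] with z hz
    rw [hR]
    show (SignType.sign (Δ z) : ℝ) * r z = 0
    rw [hz]
    simp
  have hRs : ContDiff ℝ ∞ R := by
    rw [contDiff_iff_contDiffAt]
    intro y
    by_cases hy : y ∈ tsupport r
    · exact (contDiffAt_const.mul hr.contDiffAt).congr_of_eventuallyEq (hRloc y hy)
    · exact contDiffAt_const.congr_of_eventuallyEq (hRloc0 y hy)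
  have hRinv : ∀ γ y, R (a.act γ y) = R y := by
    intro γ y
    rw [hR]
    show (SignType.sign (Δ (a.act γ y)) : ℝ) * r (a.act γ y) = (SignType.sign (Δ y) : ℝ) * r y
    rw [hsign, (hact γ y).1]
  have htop : ∀ y, top (wds k co (ml R ω₁)) y = r y * |Δ y| := by
    intro y
    rw [F9c_wds_ml, top_ml, ← hΔ, hR]
    show (SignType.sign (Δ y) : ℝ) * r y * Δ y = _
    rw [mul_comm (SignType.sign (Δ y) : ℝ), mul_assoc, sign_mul_self]
  refine ⟨ml R ω₁, Sm.ml hωs hRs, ?_, ?_, ?_, ?_, ?_⟩
  · rw [dd_ml hωs hRs, hω, dd_wds Sm_one hUs, dd_one, F9c_wds_zero, smul_zero, F9c_ml_zero,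
      add_zero]
    funext j x
    show wc (fderiv ℝ R x) (wcs n (fun i => fderiv ℝ (U i) x) (fun i => one i x)) j = 0
    have h1 : wc (fderiv ℝ R x) (wcs n (fun i => fderiv ℝ (U i) x) (fun i => one i x)) = 0 := by
      by_cases hx : x ∈ tsupport r
      · obtain ⟨b, hb'⟩ := hb x hx
        have hd : DifferentiableAt ℝ r x := hr.differentiable (by simp) x
        rw [(hRloc x hx).fderiv_eq, fderiv_const_mul hd, hb', wc_smul_left, wc_sum_left]
        rw [Finset.sum_eq_zero, smul_zero]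
        intro i _
        rw [wc_smul_left]
        have h2 := wc_wcs_mem (fun i => fderiv ℝ (U i) x) i (fun i => one i x)
        rw [h2, smul_zero]
      · rw [(hRloc0 x hx).fderiv_eq, fderiv_fun_const, Pi.zero_apply, wc_zero_left]
    rw [h1]
    rfl
  · intro γ
    rw [pull_ml, hpω]
    congr 1
    funext y
    exact hRinv γ y
  · intro j hj
    funext x
    show R x • wcs n (fun i => fderiv ℝ (U i) x) (fun i => one i x) j = 0
    rw [F9c_wcs_deg n _ _ _ j hj, smul_zero]
    intro i hi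
    cases i with
    | zero => exact absurd rfl hi
    | succ i => rfl
  · intro y
    rw [htop]
    exact mul_nonneg (hr0 y) (abs_nonneg _)
  · refine ⟨y₀, ?_⟩
    rw [htop]
    exact mul_pos hy₀ (abs_pos.mpr (hΔne y₀ (subset_tsupport r (by
      rw [Function.mem_support]
      exact hy₀.ne'))))

end Pool.Agent.Lib.MP_df705a_gt.NV
end
end

section

/-!
# A cocycle which does not vanish on the fundamental cycle, for groups of deck transformations
-/

open scoped ContDiff Topology Manifold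
open MeasureTheory

noncomputable section

namespace Pool.Agent.Lib.MP_df705a_gt.CGN

open Pool.Agent.Lib.MP_df705a_gt.SVS (V pd jdet)
open Pool.Agent.Lib.MP_df705a_gt
open Pool.Agent.Lib.MP_df705a_gt.NV

variable {N : ℕ} {G : Type*} [Group G]

theorem exists_cocycle {n k m : ℕ} {M : Type*} [TopologicalSpace M] [ChartedSpace (V n) M]
    [IsManifold 𝓘(ℝ, V n) ∞ M] [T2Space M] {q : V (2 * m) → M} {s : V (2 * m) → V k}
    (hq : ContMDiff 𝓘(ℝ, V (2 * m)) 𝓘(ℝ, V n) ∞ q) (hs : ContDiff ℝ ∞ s)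
    (hbij : ∀ y, Function.Bijective fun v : V (2 * m) =>
      ((mfderiv 𝓘(ℝ, V (2 * m)) 𝓘(ℝ, V n) q y v : V n), fderiv ℝ s y v))
    (e : n + k = 2 * m) {a : SVS.Act G (2 * m)}
    (hcov : ∀ γ, ∃ c : V k, ∀ y, q (a.act γ y) = q y ∧ s (a.act γ y) = s y + c)
    (ori : ∀ γ y, 0 < jdet (a.act γ) y)
    (prop : ∀ R : ℝ, {γ | ∃ y, ‖y‖ ≤ R ∧ ‖a.act γ y‖ ≤ R}.Finite)
    {χ : V (2 * m) → ℝ} (hχ : SVS.IsPart a χ) (h0 : ∀ y, 0 ≤ χ y) :
    ∃ c : (Fin (n + 1) → G) → ℝ, (∀ γ g, c (fun i => γ * g i) = c g) ∧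
      (∀ g : Fin (n + 2) → G,
        ∑ i : Fin (n + 2), (-1 : ℝ) ^ (i : ℕ) * c (fun j => g (i.succAbove j)) = 0) ∧
      ∑ᶠ h, SVS.fund a χ s e h * c (SVS.smp h) ≠ 0 := by
  obtain ⟨r, U, hr, hUs, hqU, hr0, hr00, hb, hUK⟩ := exists_chart_fns hq (0 : V (2 * m))
  have hact : ∀ γ y, r (a.act γ y) = r y ∧ ∀ i, U i (a.act γ y) = U i y := by
    intro γ y
    obtain ⟨c, hc⟩ := hcov γ
    exact hqU _ _ (hc y).1
  have hadd : ∀ γ, ∃ c, ∀ y, s (a.act γ y) = s y + c := by
    intro γ
    obtain ⟨c, hc⟩ := hcov γ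
    exact ⟨c, fun y => (hc y).2⟩
  have hinj : ∀ y v, (mfderiv 𝓘(ℝ, V (2 * m)) 𝓘(ℝ, V n) q y v : V n) = 0 →
      fderiv ℝ s y v = 0 → v = 0 := by
    intro y v h1 h2
    apply (hbij y).1
    show ((mfderiv 𝓘(ℝ, V (2 * m)) 𝓘(ℝ, V n) q y v : V n), fderiv ℝ s y v) =
      ((mfderiv 𝓘(ℝ, V (2 * m)) 𝓘(ℝ, V n) q y (0 : V (2 * m)) : V n), fderiv ℝ s y 0)
    rw [h1, h2, map_zero]
    exact Prod.ext (map_zero (mfderiv 𝓘(ℝ, V (2 * m)) 𝓘(ℝ, V n) q y)).symm rfl
  obtain ⟨w, wsm, wcl, winv, wdeg, wnn, y₁, wpos⟩ := exists_form e hs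
    (K := fun y v => (mfderiv 𝓘(ℝ, V (2 * m)) 𝓘(ℝ, V n) q y v : V n) = 0) (y₀ := 0)
    hr hUs hr0 hr00 hb hUK hinj a hact hadd ori
  have H : Setup a χ s w n :=
    { chi := hχ.smooth
      supp := hχ.supp
      sum := hχ.sum
      prop := prop
      ori := ori
      ss := hs
      sadd := hadd
      sm := wsm
      closed := wcl
      inv := winv
      deg := wdeg }
  have hco : ∀ j : Fin k, ContDiff ℝ ∞ (co s j) := by
    intro j
    exact (contDiff_euclidean.1 hs) j
  have hF : Continuous fun y => top (wds k (co s) w) y := (Sm.wds wsm hco).top.continuous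
  have hT : 0 < ∫ y, χ y * top (wds k (co s) w) y := by
    refine int_pos (a := a) hχ.smooth.continuous hχ.supp hχ.sum h0 hF wnn ?_ ori wpos
    intro γ y
    obtain ⟨c, hc⟩ := hadd γ
    rw [← top_pull (a.smooth γ), pull_wds (a.smooth γ) hco, winv γ]
    have : (wds k (fun i y => co s i (a.act γ y)) w) = wds k (co s) w := by
      funext j x
      have : (fun i : Fin k => fderiv ℝ (fun y => co s i (a.act γ y)) x) =
          fun i : Fin k => fderiv ℝ (co s i) x := by
        funext i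
        have e1 : (fun y => co s i (a.act γ y)) = fun y => co s i y + c i := by
          funext y
          show s (a.act γ y) i = s y i + c i
          rw [hc y]
          rfl
        rw [e1, fderiv_add_const]
      show wcs k (fun i : Fin k => fderiv ℝ (fun y => co s i (a.act γ y)) x) _ j = _
      rw [this]
      rfl
    rw [this]
  refine ⟨cc a w n, fun γ g => cc_inv a wsm winv γ g, fun g => cc_coc a wsm wcl wdeg g, ?_⟩
  have hp := pairing_ne H hT.ne'
  have hf : ∀ h : Fin n → G, SVS.fund a χ s e h * cc a w n (SVS.smp h) =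
      (∫ y, χ y * top (wds n (fun i => tr a χ (h i)) (wds k (co s) one)) y) *
        cc a w n (Fin.cons 1 h) := by
    intro h
    have : SVS.fund a χ s e h =
        ∫ y, χ y * top (wds n (fun i => tr a χ (h i)) (wds k (co s) one)) y := by
      unfold SVS.fund
      congr 1
      funext y
      rw [top_wds_one e]
      rfl
    rw [this]
    rfl
  rw [finsum_congr hf]
  exact hp

end Pool.Agent.Lib.MP_df705a_gt.CGN
end
end
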