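import Mathlib

section

/-!
# Abstract distance functions and separated sets
-/

open scoped Topology
open Set MeasureTheory

noncomputable section

namespace Pool.Agent.Lib.MP_df705a_gt.Pin

/-- `d` is a continuous pseudometric on the topological space `X` with compact closed balls. -/
structure IsD {X : Type*} [TopologicalSpace X] (d : X → X → ℝ) : Prop where
  self : ∀ x, d x x = 0
  comm : ∀ x y, d x y = d y x
  tri : ∀ x y z, d x z ≤ d x y + d y z
  cont : Continuous fun p : X × X => d p.1 p.2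
  proper : ∀ x r, IsCompact {y | d x y ≤ r}

/-- The open ball. -/
def bd {X : Type*} (d : X → X → ℝ) (x : X) (r : ℝ) : Set X := {y | d x y < r}

/-- `σ` is a scale function: positive and `1/100`-Lipschitz. -/
structure Scale {X : Type*} (d : X → X → ℝ) (σ : X → ℝ) : Prop where
  pos : ∀ x, 0 < σ x
  lip : ∀ x y, σ x ≤ σ y + d x y / 100

/-- `Z` is a net for the scale function `σ`: separated and covering. -/
structure Net {X : Type*} (d : X → X → ℝ) (σ : X → ℝ) (Z : Set X) : Prop where
  sep : ∀ p ∈ Z, ∀ q ∈ Z, p ≠ q → σ p / 4 ≤ d p q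
  cov : ∀ x, ∃ p ∈ Z, d x p < σ p / 2

section basic

variable {X : Type*} [TopologicalSpace X] {d : X → X → ℝ}

theorem IsD.nonneg (hd : IsD d) (x y : X) : 0 ≤ d x y := by
  have h1 := hd.tri x y x
  rw [hd.self, hd.comm y x] at h1
  linarith

theorem IsD.isOpen_bd (hd : IsD d) (x : X) (r : ℝ) : IsOpen (bd d x r) := by
  have h1 : Continuous fun y => d x y := hd.cont.comp (Continuous.prodMk_right x)
  exact isOpen_lt h1 continuous_const

theorem IsD.measurableSet_bd [MeasurableSpace X] [BorelSpace X] (hd : IsD d) (x : X) (r : ℝ) :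
    MeasurableSet (bd d x r) := (hd.isOpen_bd x r).measurableSet

theorem IsD.bd_subset (hd : IsD d) {x y : X} {r R : ℝ} (h : d x y + r ≤ R) :
    bd d y r ⊆ bd d x R := by
  intro z hz
  have h1 := hd.tri x y z
  have h2 : d y z < r := hz
  show d x z < R
  linarith

end basic

end Pool.Agent.Lib.MP_df705a_gt.Pin
end
end

section

/-!
# The capped distance to the complement of a set
-/

open scoped Topology
open Set

noncomputable section

namespace Pool.Agent.Lib.MP_df705a_gt.Pin

variable {X : Type*}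

/-- The distance from `x` to the complement of `U`, cut off at `r x`. -/
def capD (d : X → X → ℝ) (r : X → ℝ) (U : Set X) (x : X) : ℝ :=
  sInf (insert (r x) ((fun y => d x y) '' Uᶜ))

variable [TopologicalSpace X] {d : X → X → ℝ} {r : X → ℝ} {U : Set X}

theorem capD_bdd (hd : IsD d) (hr : ∀ x, 0 ≤ r x) (x : X) :
    BddBelow (insert (r x) ((fun y => d x y) '' Uᶜ)) := by
  refine ⟨0, ?_⟩
  rintro t (rfl | ⟨y, -, rfl⟩)
  · exact hr x
  · exact hd.nonneg x y

theorem capD_nonneg (hd : IsD d) (hr : ∀ x, 0 ≤ r x) (x : X) : 0 ≤ capD d r U x := by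
  refine le_csInf ⟨_, mem_insert _ _⟩ ?_
  rintro t (rfl | ⟨y, -, rfl⟩)
  · exact hr x
  · exact hd.nonneg x y

theorem capD_le (hd : IsD d) (hr : ∀ x, 0 ≤ r x) (x : X) : capD d r U x ≤ r x :=
  csInf_le (capD_bdd hd hr x) (mem_insert _ _)

theorem capD_le_dist (hd : IsD d) (hr : ∀ x, 0 ≤ r x) {x y : X} (hy : y ∉ U) :
    capD d r U x ≤ d x y :=
  csInf_le (capD_bdd hd hr x) (mem_insert_of_mem _ ⟨y, hy, rfl⟩)

theorem mem_of_lt_capD (hd : IsD d) (hr : ∀ x, 0 ≤ r x) {x y : X} (h : d x y < capD d r U x) :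
    y ∈ U := by
  by_contra hy
  exact absurd (capD_le_dist hd hr hy) (not_le.2 h)

theorem mem_of_capD_pos (hd : IsD d) (hr : ∀ x, 0 ≤ r x) {x : X} (h : 0 < capD d r U x) :
    x ∈ U := mem_of_lt_capD hd hr (by rw [hd.self]; exact h)

theorem capD_eq (hd : IsD d) (hr : ∀ x, 0 ≤ r x) {x : X} (h : ∀ y, d x y < r x → y ∈ U) :
    capD d r U x = r x := by
  refine le_antisymm (capD_le hd hr x) (le_csInf ⟨_, mem_insert _ _⟩ ?_)
  rintro t (rfl | ⟨y, hy, rfl⟩)
  · exact le_rfl
  · by_contra hlt
    exact hy (h y (not_le.1 hlt))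

omit [TopologicalSpace X] in
theorem exists_of_capD_lt {x : X} {t : ℝ} (h : capD d r U x < t) (ht : t ≤ r x) :
    ∃ y, y ∉ U ∧ d x y < t := by
  obtain ⟨a, ha, hat⟩ := exists_lt_of_csInf_lt (insert_nonempty _ _) h
  rcases ha with rfl | ⟨y, hy, rfl⟩
  · linarith
  · exact ⟨y, hy, hat⟩

theorem capD_lip (hd : IsD d) (hr : ∀ x, 0 ≤ r x) (hr1 : ∀ x y, |r x - r y| ≤ d x y) (x y : X) :
    |capD d r U x - capD d r U y| ≤ d x y := by
  have key : ∀ x y, capD d r U x ≤ capD d r U y + d x y := by
    intro x y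
    rw [← sub_le_iff_le_add]
    refine le_csInf ⟨_, mem_insert _ _⟩ ?_
    rintro t (rfl | ⟨z, hz, rfl⟩)
    · have h1 := capD_le (U := U) hd hr x
      have h2 := (abs_le.1 (hr1 x y)).2
      linarith
    · have h1 := capD_le_dist hd hr (x := x) hz
      have h2 := hd.tri x y z
      show capD d r U x - d x y ≤ d y z
      linarith
  rw [abs_le]
  have h1 := key x y
  have h2 := key y x
  rw [hd.comm y x] at h2
  constructor <;> linarith

omit [TopologicalSpace X] in
theorem capD_map {γ : X → X} (hγs : Function.Surjective γ) (hγd : ∀ x y, d (γ x) (γ y) = d x y)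
    (hγr : ∀ x, r (γ x) = r x) (hγU : ∀ x, γ x ∈ U ↔ x ∈ U) (x : X) :
    capD d r U (γ x) = capD d r U x := by
  unfold capD
  congr 1
  rw [hγr]
  congr 1
  ext t
  constructor
  · rintro ⟨y, hy, rfl⟩
    obtain ⟨z, rfl⟩ := hγs y
    exact ⟨z, fun hz => hy ((hγU z).2 hz), (hγd x z).symm⟩
  · rintro ⟨y, hy, rfl⟩
    exact ⟨γ y, fun hz => hy ((hγU y).1 hz), hγd x y⟩

end Pool.Agent.Lib.MP_df705a_gt.Pin
end
end

section

/-!
# Ricci pinching, part A, AO1a: superposition operators on spaces of continuous curves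
-/

open scoped ContDiff Topology
open Set Filter MeasureTheory

noncomputable section

set_option linter.unusedSectionVars false

namespace Pool.Agent.Lib.MP_df705a_gt.Pin.A

section nem

variable {X : Type*} [TopologicalSpace X] [CompactSpace X]
  {V : Type*} [NormedAddCommGroup V] [NormedSpace ℝ V]
  {W : Type*} [NormedAddCommGroup W] [NormedSpace ℝ W]

/-- The superposition operator `c ↦ F ∘ c`. -/
def nem (X : Type*) [TopologicalSpace X] [CompactSpace X] {V : Type*} [NormedAddCommGroup V]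
    {W : Type*} [NormedAddCommGroup W] {F : V → W} (hF : Continuous F) (c : C(X, V)) : C(X, W) :=
  (⟨F, hF⟩ : C(V, W)).comp c

/-- The bilinear map `(A, v) ↦ (x ↦ A x (v x))`. -/
def nemB (X : Type*) [TopologicalSpace X] [CompactSpace X]
    (V : Type*) [NormedAddCommGroup V] [NormedSpace ℝ V]
    (W : Type*) [NormedAddCommGroup W] [NormedSpace ℝ W] :
    C(X, V →L[ℝ] W) →L[ℝ] C(X, V) →L[ℝ] C(X, W) :=
  LinearMap.mkContinuous₂
    (LinearMap.mk₂ ℝ (fun (A : C(X, V →L[ℝ] W)) (v : C(X, V)) =>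
        (⟨fun x => A x (v x), by fun_prop⟩ : C(X, W)))
      (fun A A' v => by ext x; simp) (fun c A v => by ext x; simp)
      (fun A v v' => by ext x; simp) (fun c A v => by ext x; simp))
    1 (fun A v => by
      rw [one_mul, ContinuousMap.norm_le _ (by positivity)]
      intro x
      refine ((A x).le_opNorm (v x)).trans ?_
      gcongr
      · exact A.norm_coe_le_norm x
      · exact v.norm_coe_le_norm x)

@[simp] theorem nemB_apply (A : C(X, V →L[ℝ] W)) (v : C(X, V)) (x : X) :
    nemB X V W A v x = A x (v x) := rfl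

@[simp] theorem nem_apply {F : V → W} (hF : Continuous F) (c : C(X, V)) (x : X) :
    nem X hF c x = F (c x) := rfl

/-- Proof: `ContinuousMap.continuous_postcomp`. -/
theorem nem_continuous {F : V → W} (hF : Continuous F) :
    Continuous (nem X hF : C(X, V) → C(X, W)) := by
  exact ContinuousMap.continuous_postcomp (⟨F, hF⟩ : C(V, W))

/-- The derivative of the superposition operator.
Proof: put `N' = nem X (hF.continuous_fderiv one_ne_zero)`, continuous by `nem_continuous`. Given
`ε > 0` there is `δ > 0` with `‖N' (c + w) - N' c‖ ≤ ε` for `‖w‖ < δ`. For `‖v‖ < δ`, every `x` and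
every point `z` of the segment from `c x` to `c x + v x` one has `z = c x + s v x`, `0 ≤ s ≤ 1`,
`‖s v‖ < δ`, hence `‖fderiv F z - fderiv F (c x)‖ ≤ ε`. The mean value inequality
(`Convex.norm_image_sub_le_of_norm_hasFDerivWithin_le'` or
`Convex.norm_image_sub_le_of_norm_fderiv_le'` on the segment) gives
`‖F (c x + v x) - F (c x) - fderiv F (c x) (v x)‖ ≤ ε ‖v x‖ ≤ ε ‖v‖`; take the supremum over `x`
(`ContinuousMap.norm_le`). -/
theorem nem_hasFDerivAt {F : V → W} (hF : ContDiff ℝ 1 F) (c : C(X, V)) :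
    HasFDerivAt (nem X hF.continuous : C(X, V) → C(X, W))
      (nemB X V W (nem X (hF.continuous_fderiv one_ne_zero) c)) c := by
  set N' : C(X, V) → C(X, V →L[ℝ] W) := nem X (hF.continuous_fderiv one_ne_zero) with hN'
  have hc : ContinuousAt N' c := (nem_continuous (hF.continuous_fderiv one_ne_zero)).continuousAt
  rw [hasFDerivAt_iff_isLittleO_nhds_zero, Asymptotics.isLittleO_iff]
  intro ε hε
  obtain ⟨δ, hδ, hd⟩ := (Metric.continuousAt_iff (f := N') (a := c)).1 hc ε hε
  rw [Metric.eventually_nhds_iff]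
  refine ⟨δ, hδ, fun v hv => ?_⟩
  rw [dist_zero_right] at hv
  rw [ContinuousMap.norm_le _ (by positivity)]
  intro x
  change ‖F (c x + v x) - F (c x) - fderiv ℝ F (c x) (v x)‖ ≤ ε * ‖v‖
  have hdiff : Differentiable ℝ F := hF.differentiable one_ne_zero
  have hb : ∀ z ∈ segment ℝ (c x) (c x + v x), ‖fderiv ℝ F z - fderiv ℝ F (c x)‖ ≤ ε := by
    intro z hz
    rw [segment_eq_image'] at hz
    obtain ⟨s, ⟨hs0, hs1⟩, rfl⟩ := hz
    have h1 : dist (c + s • v) c < δ := by
      rw [dist_eq_norm, add_sub_cancel_left, norm_smul, Real.norm_of_nonneg hs0]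
      calc s * ‖v‖ ≤ 1 * ‖v‖ := by gcongr
        _ < δ := by rw [one_mul]; exact hv
    have h2 := (hd h1).le
    have h3 : dist (N' (c + s • v) x) (N' c x) ≤ ε :=
      (ContinuousMap.dist_apply_le_dist x).trans h2
    rw [dist_eq_norm] at h3
    rw [add_sub_cancel_left]
    exact h3
  have h5 := Convex.norm_image_sub_le_of_norm_hasFDerivWithin_le' (f := F)
    (f' := fun z => fderiv ℝ F z) (φ := fderiv ℝ F (c x))
    (fun z _ => (hdiff z).hasFDerivAt.hasFDerivWithinAt) hb (convex_segment (c x) (c x + v x))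
    (left_mem_segment ℝ _ _) (right_mem_segment ℝ _ _)
  rw [add_sub_cancel_left] at h5
  refine h5.trans ?_
  gcongr
  exact v.norm_coe_le_norm x

end nem

end Pool.Agent.Lib.MP_df705a_gt.Pin.A
end
end

section

/-!
# Ricci pinching, part A, AO1: superposition operators on spaces of continuous curves
-/

open scoped ContDiff Topology
open Set Filter MeasureTheory

noncomputable section

set_option linter.unusedSectionVars false

namespace Pool.Agent.Lib.MP_df705a_gt.Pin.A

section nemsmooth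

universe u

variable {X : Type*} [TopologicalSpace X] [CompactSpace X]
  {V W : Type u} [NormedAddCommGroup V] [NormedSpace ℝ V] [NormedAddCommGroup W] [NormedSpace ℝ W]

theorem AO1_aux (n : ℕ) : ∀ (W : Type u) [NormedAddCommGroup W] [NormedSpace ℝ W] (F : V → W)
    (hF : ContDiff ℝ ∞ F), ContDiff ℝ n (nem X hF.continuous : C(X, V) → C(X, W)) := by
  induction n with
  | zero =>
    intro W _ _ F hF
    rw [Nat.cast_zero, contDiff_zero]
    exact nem_continuous _
  | succ n ih =>
    intro W _ _ F hF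
    have h1 : ContDiff ℝ 1 F := hF.of_le (by exact_mod_cast le_top)
    have h2 : ContDiff ℝ ∞ (fderiv ℝ F) := hF.fderiv_right (m := ∞) (by simp)
    rw [Nat.cast_succ, contDiff_succ_iff_fderiv]
    refine ⟨fun c => (nem_hasFDerivAt h1 c).differentiableAt, fun h => by simp at h, ?_⟩
    have e : fderiv ℝ (nem X hF.continuous : C(X, V) → C(X, W)) =
        (nemB X V W) ∘ (nem X h2.continuous) := by
      ext1 c
      exact (nem_hasFDerivAt h1 c).fderiv
    rw [e]
    exact (nemB X V W).contDiff.comp (ih (V →L[ℝ] W) (fderiv ℝ F) h2)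

/-- The superposition operator of a smooth map is smooth.
Proof: by induction on `n : ℕ` show for all `W` and all `F` that `ContDiff ℝ n F` implies
`ContDiff ℝ n (nem X _)` (`contDiff_succ_iff_fderiv`, the derivative is
`nemB ∘ nem (fderiv F)` by `nem_hasFDerivAt`, and `fderiv F : V → V →L[ℝ] W` is `C^n`; compose with
the continuous linear map `nemB X V W`); then `contDiff_infty`. -/
theorem nem_contDiff {F : V → W} (hF : ContDiff ℝ ∞ F) :
    ContDiff ℝ ∞ (nem X hF.continuous : C(X, V) → C(X, W)) := by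
  exact contDiff_infty.2 fun n => AO1_aux n W F hF

end nemsmooth

end Pool.Agent.Lib.MP_df705a_gt.Pin.A
end
end

section

/-!
# TASK W1: existence of nets
-/

open scoped Topology
open Set MeasureTheory

noncomputable section

namespace Pool.Agent.Lib.MP_df705a_gt.Pin

variable {X : Type*} [TopologicalSpace X] {d : X → X → ℝ} {σ : X → ℝ}

/-- A maximal set `Z` with `σ p / 4 ≤ d p q` for all `p ≠ q` in `Z` (Zorn: `zorn_subset` for the
family of such sets; the union of a chain of such sets is such a set) is a net: if `x ∉ Z`, then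
`Z ∪ {x}` is not separated, so there is `p ∈ Z` with `d x p < σ p / 4` or `d x p < σ x / 4`; in the
second case `σ x ≤ σ p + d x p / 100` gives `d x p * (1 - 1/400) < σ p / 4`, so `d x p < σ p / 2`.
If `x ∈ Z` take `p = x`. -/
theorem exists_net (hd : IsD d) (hσ : Scale d σ) : ∃ Z : Set X, Net d σ Z := by
  obtain ⟨Z, hZ⟩ := zorn_subset {Z : Set X | ∀ p ∈ Z, ∀ q ∈ Z, p ≠ q → σ p / 4 ≤ d p q} (by
    intro c hc hchain
    refine ⟨⋃₀ c, ?_, fun s hs => subset_sUnion_of_mem hs⟩
    rintro p ⟨s, hs, hps⟩ q ⟨t, ht, hqt⟩ hpq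
    rcases hchain.total hs ht with h | h
    · exact hc ht p (h hps) q hqt hpq
    · exact hc hs p hps q (h hqt) hpq)
  refine ⟨Z, hZ.prop, fun x => ?_⟩
  by_cases hx : x ∈ Z
  · refine ⟨x, hx, ?_⟩
    rw [hd.self]
    have := hσ.pos x
    linarith
  · have h1 : insert x Z ∉ {Z : Set X | ∀ p ∈ Z, ∀ q ∈ Z, p ≠ q → σ p / 4 ≤ d p q} := by
      intro hmem
      exact hx (hZ.le_of_ge hmem (subset_insert x Z) (mem_insert x Z))
    simp only [mem_setOf_eq, not_forall, not_le] at h1
    obtain ⟨p, hp, q, hq, hpq, hlt⟩ := h1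
    rcases hp with rfl | hp
    · rcases hq with rfl | hq
      · exact absurd rfl hpq
      · refine ⟨q, hq, ?_⟩
        have h2 := hσ.lip p q
        have h3 := hσ.pos q
        linarith
    · rcases hq with rfl | hq
      · refine ⟨p, hp, ?_⟩
        rw [hd.comm]
        have h3 := hσ.pos p
        linarith
      · exact absurd (hZ.prop p hp q hq hpq) (not_le.mpr hlt)

/-- The balls `bd d p (σ p / 16)`, `p ∈ Z`, are pairwise disjoint: a common point of two of them
gives `d p q < (σ p + σ q) / 16 ≤ max / 8`. -/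
theorem Net.disjoint (hd : IsD d) (hσ : Scale d σ) {Z : Set X} (hZ : Net d σ Z) :
    Z.PairwiseDisjoint fun p => bd d p (σ p / 16) := by
  intro p hp q hq hpq
  rw [Function.onFun, Set.disjoint_left]
  intro z hz1 hz2
  have h1 : d p z < σ p / 16 := hz1
  have h2 : d q z < σ q / 16 := hz2
  have h3 := hd.tri p z q
  rw [hd.comm z q] at h3
  have h4 := hZ.sep p hp q hq hpq
  have h5 := hZ.sep q hq p hp hpq.symm
  rw [hd.comm q p] at h5
  have h6 := hσ.pos p
  have h7 := hσ.pos q
  linarith

end Pool.Agent.Lib.MP_df705a_gt.Pin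
end
end

section

/-!
# The tuples of indices with a common point
-/

open scoped Topology ENNReal
open Set Filter MeasureTheory

noncomputable section

namespace Pool.Agent.Lib.MP_df705a_gt.Pin

variable {X : Type*} [TopologicalSpace X] {d : X → X → ℝ} {σ : X → ℝ}

/-- The injective tuples of points of `Z` whose balls have a common point. -/
def tups (d : X → X → ℝ) (σ : X → ℝ) (Z : Set X) (n : ℕ) : Set (Fin n → Z) :=
  {I | Function.Injective I ∧ ∃ y, ∀ j, d (I j).1 y ≤ σ (I j).1}

/-- Two points whose balls meet have comparable scales. -/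
theorem scale_compare (hd : IsD d) (hσ : Scale d σ) {p q y : X} (hp : d p y ≤ σ p)
    (hq : d q y ≤ σ q) : σ p ≤ 103 / 100 * σ q ∧ d p q ≤ 3 * σ q := by
  have h1 := hσ.lip p q
  have h2 := hd.tri p y q
  rw [hd.comm y q] at h2
  have h3 := hσ.pos q
  have h4 := hσ.pos p
  constructor <;> linarith

/-- Every point lies in a bounded number of tuples. -/
theorem tups_count (hd : IsD d) (hσ : Scale d σ) {Z : Set X} {N₀ : ℕ}
    (hloc : ∀ x, {l ∈ Z | d x l ≤ 8 * σ l}.Finite ∧ {l ∈ Z | d x l ≤ 8 * σ l}.ncard ≤ N₀) (n : ℕ)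
    (p : Z) : {I ∈ tups d σ Z n | ∃ j, I j = p}.encard ≤ (N₀ ^ n : ℕ) := by
  classical
  obtain ⟨hfin, hcard⟩ := hloc p.1
  haveI : Fintype {l ∈ Z | d p.1 l ≤ 8 * σ l} := hfin.fintype
  have hmem : ∀ I ∈ {I ∈ tups d σ Z n | ∃ j, I j = p}, ∀ j,
      (I j).1 ∈ {l ∈ Z | d p.1 l ≤ 8 * σ l} := by
    rintro I ⟨⟨-, y, hy⟩, j₀, hj₀⟩ j
    refine ⟨(I j).2, ?_⟩
    have h1 := hy j₀
    rw [hj₀] at h1
    have h2 := (scale_compare hd hσ h1 (hy j)).2
    have h3 := hσ.pos (I j).1
    linarith
  have h1 : {I ∈ tups d σ Z n | ∃ j, I j = p} ⊆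
      range fun (J : Fin n → {l ∈ Z | d p.1 l ≤ 8 * σ l}) (j : Fin n) =>
        (⟨(J j).1, (J j).2.1⟩ : Z) := by
    intro I hI
    exact ⟨fun j => ⟨(I j).1, hmem I hI j⟩, rfl⟩
  refine (encard_le_encard h1).trans ?_
  rw [← image_univ]
  refine (encard_image_le _ _).trans ?_
  rw [encard_univ, ENat.card_eq_coe_fintype_card, Fintype.card_fun, Fintype.card_fin]
  have h2 : Fintype.card {l ∈ Z | d p.1 l ≤ 8 * σ l} ≤ N₀ := by
    rw [← Nat.card_eq_fintype_card]
    exact hcard
  exact_mod_cast Nat.pow_le_pow_left h2 n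

/-- A net in a separable space is countable. -/
theorem Net.countable (hd : IsD d) (hσ : Scale d σ) [TopologicalSpace.SeparableSpace X] {Z : Set X}
    (hZ : Net d σ Z) : Countable Z := by
  have h1 : Z.Countable := (hZ.disjoint hd hσ).countable_of_isOpen
    (fun p _ => hd.isOpen_bd p _) (fun p _ => ⟨p, by
      show d p p < σ p / 16
      rw [hd.self]
      have := hσ.pos p
      linarith⟩)
  exact h1.to_subtype

end Pool.Agent.Lib.MP_df705a_gt.Pin
end
end
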