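import Mathlib
import Pool.Agent.Lib.MP_df705a_gt.Twist.PointDefs

section

/-!
# Local two point functions: definitions
-/

open scoped ContDiff Topology
open Set Module Filter

noncomputable section

namespace Pool.Agent.Lib.MP_df705a_gt.Perm

open Pool.Agent.Lib.MP_df705a_gt.Twist

variable {E : Type*} [NormedAddCommGroup E] [NormedSpace ℝ E] [FiniteDimensional ℝ E]

/-- The bilinear form with the matrix `h y`. -/
def hB (h : Curv.Coeff E) (y v w : E) : ℝ :=
  ∑ i, ∑ j, h y i j * ((finBasis ℝ E).repr v i * (finBasis ℝ E).repr w j)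

/-- The derivative in the direction `z` of the bilinear form with the matrix `h`. -/
def dB (h : Curv.Coeff E) (y z v w : E) : ℝ :=
  ∑ i, ∑ j, fderiv ℝ (fun x => h x i j) y z *
    ((finBasis ℝ E).repr v i * (finBasis ℝ E).repr w j)

/-- A metric `h` on the open set `U`, and a two point function `R` adapted to it. -/
structure LocData (h : Curv.Coeff E) (R : E × E → ℝ) (U : Set E) : Prop where
  isOpen : IsOpen U
  h_smooth : ∀ i j, ContDiffOn ℝ ∞ (fun y => h y i j) U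
  h_pos : ∀ y ∈ U, (h y).PosDef
  R_smooth : ContDiffOn ℝ ∞ R (U ×ˢ U)
  R_symm : ∀ x ∈ U, ∀ y ∈ U, R (x, y) = R (y, x)
  R_diag : ∀ x ∈ U, R (x, x) = 0
  R_nonneg : ∀ x ∈ U, ∀ y ∈ U, 0 ≤ R (x, y)
  R_hess : ∀ y ∈ U, ∀ v w : E,
    fderiv ℝ (fun x => fderiv ℝ (fun x => R (x, y)) x v) y w = 2 * hB h y v w

/-- The Laplacian of `R(·, y)` at `x`. -/
def LR (h : Curv.Coeff E) (R : E × E → ℝ) (q : E × E) : ℝ :=
  lapC h (fun x => R (x, q.2)) q.1

/-- The square of the length of the gradient of `R(·, y)` at `x`. -/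
def GR (h : Curv.Coeff E) (R : E × E → ℝ) (q : E × E) : ℝ :=
  gradC h (fun x => R (x, q.2)) (fun x => R (x, q.2)) q.1

end Pool.Agent.Lib.MP_df705a_gt.Perm
end
end

section

/-!
# Derivatives of determinants and inverses of matrices
-/

open scoped ContDiff Topology
open Filter

noncomputable section

namespace Pool.Agent.Lib.MP_df705a_gt.Twist

variable {E : Type*} [NormedAddCommGroup E] [NormedSpace ℝ E]
  {κ : Type*} [Fintype κ] [DecidableEq κ] {h : E → Matrix κ κ ℝ} {x : E}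

theorem sum_perm_eq (X Y : Matrix κ κ ℝ) :
    ∑ σ : Equiv.Perm κ, ((Equiv.Perm.sign σ : ℤ) : ℝ) *
      ∑ i, (∏ j ∈ Finset.univ.erase i, X (σ j) j) * Y (σ i) i =
    ∑ i, ∑ k, X.adjugate i k * Y k i := by
  have h1 : ∀ i, ∑ k, X.adjugate i k * Y k i = (X.updateCol i (fun k => Y k i)).det := by
    intro i
    rw [← Matrix.cramer_apply, Matrix.cramer_eq_adjugate_mulVec, Matrix.mulVec, dotProduct]
  simp only [h1, Matrix.det_apply', Finset.mul_sum]
  rw [Finset.sum_comm]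
  apply Finset.sum_congr rfl
  intro i _
  apply Finset.sum_congr rfl
  intro σ _
  congr 1
  rw [← Finset.mul_prod_erase Finset.univ _ (Finset.mem_univ i), mul_comm]
  congr 1
  · rw [Matrix.updateCol_self]
  · apply Finset.prod_congr rfl
    intro j hj
    rw [Matrix.updateCol_ne (Finset.ne_of_mem_erase hj)]

theorem det_hasFDerivAt {h' : κ → κ → E →L[ℝ] ℝ}
    (hh : ∀ i j, HasFDerivAt (fun y => h y i j) (h' i j) x) :
    HasFDerivAt (fun y => (h y).det) (∑ i, ∑ k, (h x).adjugate i k • h' k i) x := by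
  have h0 : (fun y => (h y).det) = fun y => ∑ σ : Equiv.Perm κ,
      ((Equiv.Perm.sign σ : ℤ) : ℝ) * ∏ i, h y (σ i) i := by
    funext y
    rw [Matrix.det_apply']
  rw [h0]
  have h1 : HasFDerivAt (fun y => ∑ σ : Equiv.Perm κ,
      ((Equiv.Perm.sign σ : ℤ) : ℝ) * ∏ i, h y (σ i) i)
      (∑ σ : Equiv.Perm κ, ((Equiv.Perm.sign σ : ℤ) : ℝ) •
        ∑ i, (∏ j ∈ Finset.univ.erase i, h x (σ j) j) • h' (σ i) i) x := by
    refine HasFDerivAt.fun_sum fun σ _ => ?_
    refine HasFDerivAt.const_mul ?_ _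
    exact HasFDerivAt.finsetProd (fun i _ => hh (σ i) i)
  convert h1 using 1
  ext v
  simp only [sum_apply, smul_apply, smul_eq_mul]
  exact (sum_perm_eq (h x) (fun i j => h' i j v)).symm

variable {n : WithTop ℕ∞}

theorem contDiffAt_det (hh : ∀ i j, ContDiffAt ℝ n (fun y => h y i j) x) :
    ContDiffAt ℝ n (fun y => (h y).det) x := by
  have h0 : (fun y => (h y).det) = fun y => ∑ σ : Equiv.Perm κ,
      ((Equiv.Perm.sign σ : ℤ) : ℝ) * ∏ i, h y (σ i) i := by
    funext y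
    rw [Matrix.det_apply']
  rw [h0]
  refine ContDiffAt.sum fun σ _ => ?_
  refine contDiffAt_const.mul ?_
  exact contDiffAt_prod fun i _ => hh (σ i) i

theorem contDiffAt_adjugate (hh : ∀ i j, ContDiffAt ℝ n (fun y => h y i j) x) (i j : κ) :
    ContDiffAt ℝ n (fun y => (h y).adjugate i j) x := by
  have h0 : (fun y => (h y).adjugate i j) = fun y => ((h y).updateRow j (Pi.single i 1)).det := by
    funext y
    rw [Matrix.adjugate_apply]
  rw [h0]
  apply contDiffAt_det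
  intro k l
  by_cases hk : k = j
  · subst hk
    simp only [Matrix.updateRow_self]
    exact contDiffAt_const
  · simp only [Matrix.updateRow_ne hk]
    exact hh k l

theorem contDiffAt_inv (hh : ∀ i j, ContDiffAt ℝ n (fun y => h y i j) x)
    (hdet : (h x).det ≠ 0) (i j : κ) : ContDiffAt ℝ n (fun y => (h y)⁻¹ i j) x := by
  have h1 : (fun y => (h y)⁻¹ i j) = fun y => ((h y).det)⁻¹ * (h y).adjugate i j := by
    funext y
    rw [Matrix.inv_def, Ring.inverse_eq_inv', Matrix.smul_apply, smul_eq_mul]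
  rw [h1]
  exact ((contDiffAt_det hh).inv hdet).mul (contDiffAt_adjugate hh i j)

theorem fderiv_inv (hh : ∀ i j, ContDiffAt ℝ 1 (fun y => h y i j) x)
    (hdet : (h x).det ≠ 0) (i j : κ) (v : E) :
    fderiv ℝ (fun y => (h y)⁻¹ i j) x v =
      -∑ k, ∑ l, (h x)⁻¹ i k * (h x)⁻¹ l j * fderiv ℝ (fun y => h y k l) x v := by
  have hd : ∀ k l, DifferentiableAt ℝ (fun y => h y k l) x := fun k l =>
    (hh k l).differentiableAt one_ne_zero
  have hdi : ∀ k l, DifferentiableAt ℝ (fun y => (h y)⁻¹ k l) x := fun k l =>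
    (contDiffAt_inv hh hdet k l).differentiableAt one_ne_zero
  have hev : ∀ᶠ y in 𝓝 x, (h y).det ≠ 0 :=
    (contDiffAt_det hh).continuousAt.eventually_ne hdet
  -- the product rule
  have h1 : ∀ m, ∑ l, (fderiv ℝ (fun y => (h y)⁻¹ i l) x v * h x l m +
      (h x)⁻¹ i l * fderiv ℝ (fun y => h y l m) x v) = 0 := by
    intro m
    have h2 : HasFDerivAt (fun y => ∑ l, (h y)⁻¹ i l * h y l m)
        (∑ l, ((h x)⁻¹ i l • fderiv ℝ (fun y => h y l m) x +
          h x l m • fderiv ℝ (fun y => (h y)⁻¹ i l) x)) x :=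
      HasFDerivAt.fun_sum fun l _ => (hdi i l).hasFDerivAt.mul (hd l m).hasFDerivAt
    have h3 : (fun y => ∑ l, (h y)⁻¹ i l * h y l m) =ᶠ[𝓝 x]
        fun _ => (1 : Matrix κ κ ℝ) i m := by
      filter_upwards [hev] with y hy
      rw [← Matrix.mul_apply, Matrix.nonsing_inv_mul _ hy.isUnit]
    have h4 := h2.fderiv
    rw [h3.fderiv_eq, fderiv_const_apply] at h4
    have h5 := congrArg (fun L : E →L[ℝ] ℝ => L v) h4
    simp only [sum_apply, add_apply, smul_apply, smul_eq_mul, zero_apply] at h5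
    rw [h5]
    apply Finset.sum_congr rfl
    intro l _
    ring
  have h6 : ∑ m, (∑ l, fderiv ℝ (fun y => (h y)⁻¹ i l) x v * h x l m) * (h x)⁻¹ m j =
      fderiv ℝ (fun y => (h y)⁻¹ i j) x v := by
    have h7 : ∀ l, ∑ m, h x l m * (h x)⁻¹ m j = (1 : Matrix κ κ ℝ) l j := by
      intro l
      rw [← Matrix.mul_apply, Matrix.mul_nonsing_inv _ hdet.isUnit]
    calc ∑ m, (∑ l, fderiv ℝ (fun y => (h y)⁻¹ i l) x v * h x l m) * (h x)⁻¹ m j
        = ∑ l, fderiv ℝ (fun y => (h y)⁻¹ i l) x v * ∑ m, h x l m * (h x)⁻¹ m j := by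
          simp only [Finset.sum_mul, Finset.mul_sum]
          rw [Finset.sum_comm]
          apply Finset.sum_congr rfl
          intro l _
          apply Finset.sum_congr rfl
          intro m _
          ring
      _ = _ := by
          simp only [h7, Matrix.one_apply, mul_ite, mul_one, mul_zero]
          simp
  rw [← h6]
  have h8 : ∀ m, ∑ l, fderiv ℝ (fun y => (h y)⁻¹ i l) x v * h x l m =
      -∑ l, (h x)⁻¹ i l * fderiv ℝ (fun y => h y l m) x v := by
    intro m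
    have := h1 m
    rw [Finset.sum_add_distrib] at this
    linarith
  simp only [h8]
  rw [Finset.sum_comm, ← Finset.sum_neg_distrib]
  apply Finset.sum_congr rfl
  intro m _
  rw [neg_mul, neg_inj, Finset.sum_mul]
  apply Finset.sum_congr rfl
  intro l _
  ring

/-- Jacobi's formula. -/
theorem fderiv_det (hh : ∀ i j, DifferentiableAt ℝ (fun y => h y i j) x)
    (hdet : (h x).det ≠ 0) (v : E) :
    fderiv ℝ (fun y => (h y).det) x v =
      (h x).det * ∑ k, ∑ l, (h x)⁻¹ k l * fderiv ℝ (fun y => h y l k) x v := by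
  rw [(det_hasFDerivAt fun i j => (hh i j).hasFDerivAt).fderiv]
  simp only [sum_apply, smul_apply, smul_eq_mul, Finset.mul_sum]
  apply Finset.sum_congr rfl
  intro k _
  apply Finset.sum_congr rfl
  intro l _
  rw [Matrix.inv_def, Ring.inverse_eq_inv', Matrix.smul_apply, smul_eq_mul]
  field_simp

end Pool.Agent.Lib.MP_df705a_gt.Twist
end
end

section

/-!
# Matrix fields whose determinant does not change in some directions
-/

open scoped ContDiff Topology
open Filter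

noncomputable section

namespace Pool.Agent.Lib.MP_df705a_gt.Twist

variable {E : Type*} [NormedAddCommGroup E] [NormedSpace ℝ E]
  {κ : Type*} [Fintype κ] [DecidableEq κ] {f : E → Matrix κ κ ℝ} {q : E}

theorem posDef_symm {A : Matrix κ κ ℝ} (hA : A.PosDef) (i j : κ) : A i j = A j i := by
  have h2 := congrFun (congrFun hA.isHermitian j) i
  rw [Matrix.conjTranspose_apply, star_trivial] at h2
  exact h2

theorem fderiv_entry_symm (hp : ∀ᶠ p in 𝓝 q, (f p).PosDef) (k l : κ) :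
    fderiv ℝ (fun p => f p k l) q = fderiv ℝ (fun p => f p l k) q := by
  have h2 : (fun y => f y k l) =ᶠ[𝓝 q] fun y => f y l k := by
    filter_upwards [hp] with y hy
    exact posDef_symm hy k l
  rw [h2.fderiv_eq]

theorem det_dir1 (hf : ∀ i j, ContDiffAt ℝ 1 (fun y => f y i j) q)
    (hp : ∀ᶠ p in 𝓝 q, (f p).PosDef) {v : E} (h0 : fderiv ℝ (fun p => (f p).det) q v = 0) :
    ∑ k, ∑ l, (f q)⁻¹ k l * fderiv ℝ (fun p => f p k l) q v = 0 := by
  have hdet : (f q).det ≠ 0 := hp.self_of_nhds.det_pos.ne'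
  rw [fderiv_det (fun i j => (hf i j).differentiableAt one_ne_zero) hdet] at h0
  have h1 := (mul_eq_zero.1 h0).resolve_left hdet
  rw [← h1]
  apply Finset.sum_congr rfl
  intro k _
  apply Finset.sum_congr rfl
  intro l _
  rw [fderiv_entry_symm hp]

theorem det_dir2 (hf : ∀ i j, ContDiffAt ℝ ∞ (fun y => f y i j) q)
    (hp : ∀ᶠ p in 𝓝 q, (f p).PosDef) {v : E}
    (h0 : ∀ᶠ p in 𝓝 q, fderiv ℝ (fun p => (f p).det) p v = 0) (v' : E) :
    ∑ k, ∑ l, (f q)⁻¹ k l * fderiv ℝ (fun p => fderiv ℝ (fun p => f p k l) p v) q v' =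
      ∑ k, ∑ l, ∑ r, ∑ s, (f q)⁻¹ k l * (f q)⁻¹ r s *
        fderiv ℝ (fun p => f p k r) q v * fderiv ℝ (fun p => f p l s) q v' := by
  have hf1 : ∀ i j, ContDiffAt ℝ 1 (fun y => f y i j) q := fun i j =>
    (hf i j).of_le (by norm_num)
  have hdet : (f q).det ≠ 0 := hp.self_of_nhds.det_pos.ne'
  have hf1e : ∀ᶠ p in 𝓝 q, ∀ i j, ContDiffAt ℝ 1 (fun y => f y i j) p := by
    rw [eventually_all]
    intro i
    rw [eventually_all]
    intro j
    exact (hf1 i j).eventually (by simp)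
  have h1 : (fun p => ∑ k, ∑ l, (f p)⁻¹ k l * fderiv ℝ (fun p => f p k l) p v) =ᶠ[𝓝 q]
      fun _ => 0 := by
    filter_upwards [hf1e, hp.eventually_nhds, h0] with p h2 h3 h4
    exact det_dir1 h2 h3 h4
  have hd : ∀ k l, DifferentiableAt ℝ (fun p => fderiv ℝ (fun p => f p k l) p v) q := by
    intro k l
    have h2 : ContDiffAt ℝ 1 (fderiv ℝ (fun p => f p k l)) q :=
      ((hf k l).fderiv_right (m := ∞) (by simp)).of_le (by norm_num)
    exact (h2.clm_apply contDiffAt_const).differentiableAt one_ne_zero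
  have hid : ∀ i j, DifferentiableAt ℝ (fun y => (f y)⁻¹ i j) q := fun i j =>
    (contDiffAt_inv hf1 hdet i j).differentiableAt one_ne_zero
  have h2 : HasFDerivAt (fun p => ∑ k, ∑ l, (f p)⁻¹ k l * fderiv ℝ (fun p => f p k l) p v)
      (∑ k, ∑ l, ((f q)⁻¹ k l • fderiv ℝ (fun p => fderiv ℝ (fun p => f p k l) p v) q +
        fderiv ℝ (fun p => f p k l) q v • fderiv ℝ (fun p => (f p)⁻¹ k l) q)) q :=
    HasFDerivAt.fun_sum fun k _ => HasFDerivAt.fun_sum fun l _ =>
      (hid k l).hasFDerivAt.mul (hd k l).hasFDerivAt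
  have h3 := h2.fderiv
  rw [h1.fderiv_eq, fderiv_const_apply] at h3
  have h4 := congrArg (fun L : E →L[ℝ] ℝ => L v') h3
  simp only [sum_apply, add_apply, smul_apply, smul_eq_mul, zero_apply] at h4
  have h5 : ∑ k, ∑ l, (f q)⁻¹ k l * fderiv ℝ (fun p => fderiv ℝ (fun p => f p k l) p v) q v' =
      ∑ k, ∑ l, fderiv ℝ (fun p => f p k l) q v *
        ∑ a, ∑ b, (f q)⁻¹ k a * (f q)⁻¹ b l * fderiv ℝ (fun p => f p a b) q v' := by
    have h6 : ∀ k l, fderiv ℝ (fun p => f p k l) q v * fderiv ℝ (fun p => (f p)⁻¹ k l) q v' =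
        - (fderiv ℝ (fun p => f p k l) q v *
          ∑ a, ∑ b, (f q)⁻¹ k a * (f q)⁻¹ b l * fderiv ℝ (fun p => f p a b) q v') := by
      intro k l
      rw [fderiv_inv hf1 hdet]
      ring
    simp only [h6, Finset.sum_add_distrib, Finset.sum_neg_distrib] at h4
    linarith
  rw [h5]
  apply Finset.sum_congr rfl
  intro k _
  have h7 : ∑ l, fderiv ℝ (fun p => f p k l) q v *
        ∑ a, ∑ b, (f q)⁻¹ k a * (f q)⁻¹ b l * fderiv ℝ (fun p => f p a b) q v' =
      ∑ l, ∑ a, ∑ b, (f q)⁻¹ k a * (f q)⁻¹ l b * fderiv ℝ (fun p => f p k l) q v *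
        fderiv ℝ (fun p => f p a b) q v' := by
    apply Finset.sum_congr rfl
    intro l _
    rw [Finset.mul_sum]
    apply Finset.sum_congr rfl
    intro a _
    rw [Finset.mul_sum]
    apply Finset.sum_congr rfl
    intro b _
    rw [posDef_symm hp.self_of_nhds.inv b l]
    ring
  rw [h7, Finset.sum_comm]

/-- A function which does not depend on the first variable. -/
theorem fderiv_left_eq_zero {E₁ E₂ : Type*} [NormedAddCommGroup E₁] [NormedSpace ℝ E₁]
    [NormedAddCommGroup E₂] [NormedSpace ℝ E₂] {φ : E₁ × E₂ → ℝ} {T₁ : Set E₁} {T₂ : Set E₂}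
    (hT₁ : IsOpen T₁) {q : E₁ × E₂} (hq : q ∈ T₁ ×ˢ T₂)
    (hφ : ∀ x ∈ T₁, ∀ x' ∈ T₁, ∀ y ∈ T₂, φ (x, y) = φ (x', y)) (v : E₁) :
    fderiv ℝ φ q (v, 0) = 0 := by
  by_cases hd : DifferentiableAt ℝ φ q
  · have h1 : HasDerivAt (fun t : ℝ => q + t • ((v, 0) : E₁ × E₂)) (v, 0) 0 := by
      have := ((hasDerivAt_id (0 : ℝ)).smul_const ((v, 0) : E₁ × E₂)).const_add q
      simpa using this
    have h2 : HasFDerivAt φ (fderiv ℝ φ q) ((fun t : ℝ => q + t • ((v, 0) : E₁ × E₂)) 0) := by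
      simpa using hd.hasFDerivAt
    have h3 := h2.comp_hasDerivAt (0 : ℝ) h1
    have h4 : (φ ∘ fun t : ℝ => q + t • ((v, 0) : E₁ × E₂)) =ᶠ[𝓝 0] fun _ => φ q := by
      have h5 : ∀ᶠ t : ℝ in 𝓝 0, q.1 + t • v ∈ T₁ := by
        have h6 : Continuous fun t : ℝ => q.1 + t • v := by fun_prop
        have h7 : (fun t : ℝ => q.1 + t • v) 0 ∈ T₁ := by simpa using hq.1
        exact h6.continuousAt.eventually_mem (hT₁.mem_nhds h7)
      filter_upwards [h5] with t ht
      have h8 : q + t • ((v, 0) : E₁ × E₂) = (q.1 + t • v, q.2) := by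
        ext <;> simp
      rw [Function.comp_apply, h8]
      exact hφ _ ht _ hq.1 _ hq.2
    have h9 := (h3.congr_of_eventuallyEq h4.symm).unique (hasDerivAt_const (0 : ℝ) (φ q))
    exact h9
  · rw [fderiv_zero_of_not_differentiableAt hd]
    rfl

/-- A function which does not depend on the second variable. -/
theorem fderiv_right_eq_zero {E₁ E₂ : Type*} [NormedAddCommGroup E₁] [NormedSpace ℝ E₁]
    [NormedAddCommGroup E₂] [NormedSpace ℝ E₂] {φ : E₁ × E₂ → ℝ} {T₁ : Set E₁} {T₂ : Set E₂}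
    (hT₂ : IsOpen T₂) {q : E₁ × E₂} (hq : q ∈ T₁ ×ˢ T₂)
    (hφ : ∀ x ∈ T₁, ∀ y ∈ T₂, ∀ y' ∈ T₂, φ (x, y) = φ (x, y')) (v : E₂) :
    fderiv ℝ φ q (0, v) = 0 := by
  by_cases hd : DifferentiableAt ℝ φ q
  · have h1 : HasDerivAt (fun t : ℝ => q + t • ((0, v) : E₁ × E₂)) (0, v) 0 := by
      have := ((hasDerivAt_id (0 : ℝ)).smul_const ((0, v) : E₁ × E₂)).const_add q
      simpa using this
    have h2 : HasFDerivAt φ (fderiv ℝ φ q) ((fun t : ℝ => q + t • ((0, v) : E₁ × E₂)) 0) := by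
      simpa using hd.hasFDerivAt
    have h3 := h2.comp_hasDerivAt (0 : ℝ) h1
    have h4 : (φ ∘ fun t : ℝ => q + t • ((0, v) : E₁ × E₂)) =ᶠ[𝓝 0] fun _ => φ q := by
      have h5 : ∀ᶠ t : ℝ in 𝓝 0, q.2 + t • v ∈ T₂ := by
        have h6 : Continuous fun t : ℝ => q.2 + t • v := by fun_prop
        have h7 : (fun t : ℝ => q.2 + t • v) 0 ∈ T₂ := by simpa using hq.2
        exact h6.continuousAt.eventually_mem (hT₂.mem_nhds h7)
      filter_upwards [h5] with t ht
      have h8 : q + t • ((0, v) : E₁ × E₂) = (q.1, q.2 + t • v) := by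
        ext <;> simp
      rw [Function.comp_apply, h8]
      exact hφ _ hq.1 _ ht _ hq.2
    have h9 := (h3.congr_of_eventuallyEq h4.symm).unique (hasDerivAt_const (0 : ℝ) (φ q))
    exact h9
  · rw [fderiv_zero_of_not_differentiableAt hd]
    rfl

end Pool.Agent.Lib.MP_df705a_gt.Twist
end
end

section

/-!
Pure linear algebra of the curvature: traces with respect to a bilinear form, the curvature
expression built from the 2-jet of a metric.
-/

noncomputable section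

namespace Pool.Agent.Lib.MP_df705a_gt.Twist.Alg

open Module

/-- Bilinear forms. -/
abbrev Bil (V : Type*) [AddCommGroup V] [Module ℝ V] := V →ₗ[ℝ] V →ₗ[ℝ] ℝ

section

variable {V : Type*} [AddCommGroup V] [Module ℝ V] {ι : Type*} [Fintype ι]
  [DecidableEq ι] (e : Basis ι ℝ V)

/-- The Gram matrix. -/
def gram (h : Bil V) : Matrix ι ι ℝ := Matrix.of fun i j => h (e i) (e j)

/-- The trace of `T` with respect to `h`. -/
def tr (h : Bil V) (T : V → V → ℝ) : ℝ := ∑ i, ∑ j, (gram e h)⁻¹ i j * T (e i) (e j)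

/-- The pairing of two covectors with respect to `h`. -/
def cop (h : Bil V) (ξ η : V → ℝ) : ℝ := tr e h fun u v => ξ u * η v

/-- The Christoffel symbols of the first kind, from the derivative of the metric. -/
def chr (D : V →ₗ[ℝ] Bil V) (u v : V) : V →ₗ[ℝ] ℝ :=
  (2⁻¹ : ℝ) • (D u v + D v u - (D.flip u).flip v)

/-- The curvature from the 2-jet of the metric. -/
def curv (h : Bil V) (D : V →ₗ[ℝ] Bil V) (D2 : V →ₗ[ℝ] V →ₗ[ℝ] Bil V) (u v w z : V) : ℝ :=
  chr (D2 u) v w z - chr (D2 v) u w z +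
    (cop e h (chr D u w) (chr D v z) - cop e h (chr D v w) (chr D u z))

/-- The scalar curvature from the 2-jet of the metric. -/
def scal (h : Bil V) (D : V →ₗ[ℝ] Bil V) (D2 : V →ₗ[ℝ] V →ₗ[ℝ] Bil V) : ℝ :=
  tr e h fun u z => tr e h fun v w => curv e h D D2 u v w z

/-- The Laplacian from the jets. -/
def lap (h : Bil V) (D : V →ₗ[ℝ] Bil V) (f1 : V →ₗ[ℝ] ℝ) (f2 : Bil V) : ℝ :=
  tr e h fun u v => f2 u v - cop e h (chr D u v) f1

/-- The form is symmetric with invertible Gram matrix. -/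
structure Nondeg (h : Bil V) : Prop where
  symm : ∀ u v, h u v = h v u
  det : IsUnit (gram e h).det

variable {e} {h : Bil V}

theorem chr_apply (D : V →ₗ[ℝ] Bil V) (u v w : V) :
    chr D u v w = (D u v w + D v u w - D w u v) / 2 := by
  simp only [chr, LinearMap.smul_apply, LinearMap.sub_apply, LinearMap.add_apply,
    LinearMap.flip_apply, smul_eq_mul]
  ring

theorem tr_congr {T T' : V → V → ℝ} (hT : ∀ u v, T u v = T' u v) : tr e h T = tr e h T' := by
  unfold tr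
  simp only [hT]

theorem tr_add (T T' : V → V → ℝ) : tr e h (fun u v => T u v + T' u v) = tr e h T + tr e h T' := by
  simp only [tr, mul_add, Finset.sum_add_distrib]

theorem tr_sub (T T' : V → V → ℝ) : tr e h (fun u v => T u v - T' u v) = tr e h T - tr e h T' := by
  simp only [tr, mul_sub, Finset.sum_sub_distrib]

theorem tr_const_mul (c : ℝ) (T : V → V → ℝ) : tr e h (fun u v => c * T u v) = c * tr e h T := by
  simp only [tr, Finset.mul_sum]
  refine Finset.sum_congr rfl fun i _ => Finset.sum_congr rfl fun j _ => ?_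
  ring

theorem tr_neg (T : V → V → ℝ) : tr e h (fun u v => -T u v) = -tr e h T := by
  simp only [tr, mul_neg, Finset.sum_neg_distrib]

theorem tr_sum {κ : Type*} (s : Finset κ) (T : κ → V → V → ℝ) :
    tr e h (fun u v => ∑ r ∈ s, T r u v) = ∑ r ∈ s, tr e h (T r) := by
  classical
  induction s using Finset.induction_on with
  | empty => simp [tr]
  | insert a s ha ih =>
    simp only [Finset.sum_insert ha]
    rw [tr_add, ih]

theorem cop_add_left (ξ ξ' η : V → ℝ) : cop e h (ξ + ξ') η = cop e h ξ η + cop e h ξ' η := by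
  simp only [cop, Pi.add_apply, add_mul, tr_add]

theorem cop_sub_left (ξ ξ' η : V → ℝ) : cop e h (ξ - ξ') η = cop e h ξ η - cop e h ξ' η := by
  simp only [cop, Pi.sub_apply, sub_mul, tr_sub]

theorem cop_smul_left (c : ℝ) (ξ η : V → ℝ) : cop e h (c • ξ) η = c * cop e h ξ η := by
  simp only [cop, Pi.smul_apply, smul_eq_mul, mul_assoc, tr_const_mul]

theorem cop_add_right (ξ η η' : V → ℝ) : cop e h ξ (η + η') = cop e h ξ η + cop e h ξ η' := by
  simp only [cop, Pi.add_apply, mul_add, tr_add]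

theorem cop_sub_right (ξ η η' : V → ℝ) : cop e h ξ (η - η') = cop e h ξ η - cop e h ξ η' := by
  simp only [cop, Pi.sub_apply, mul_sub, tr_sub]

theorem cop_smul_right (c : ℝ) (ξ η : V → ℝ) : cop e h ξ (c • η) = c * cop e h ξ η := by
  simp only [cop, Pi.smul_apply, smul_eq_mul]
  rw [← tr_const_mul]
  refine tr_congr fun u v => ?_
  ring

theorem cop_zero_left (η : V → ℝ) : cop e h 0 η = 0 := by
  simp [cop, tr]

theorem cop_zero_right (ξ : V → ℝ) : cop e h ξ 0 = 0 := by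
  simp [cop, tr]

theorem gram_symm (hh : Nondeg e h) : (gram e h).transpose = gram e h := by
  ext i j
  simp [gram, hh.symm (e i)]

theorem inv_symm (hh : Nondeg e h) (i j : ι) : (gram e h)⁻¹ i j = (gram e h)⁻¹ j i := by
  have h1 : ((gram e h)⁻¹).transpose = (gram e h)⁻¹ := by
    rw [Matrix.transpose_nonsing_inv, gram_symm hh]
  conv_lhs => rw [← h1]
  rfl

theorem tr_flip (hh : Nondeg e h) (T : V → V → ℝ) :
    tr e h (fun u v => T v u) = tr e h T := by
  unfold tr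
  rw [Finset.sum_comm]
  refine Finset.sum_congr rfl fun i _ => Finset.sum_congr rfl fun j _ => ?_
  rw [inv_symm hh]

theorem cop_comm (hh : Nondeg e h) (ξ η : V → ℝ) : cop e h ξ η = cop e h η ξ := by
  unfold cop
  rw [← tr_flip hh]
  exact tr_congr fun u v => mul_comm _ _

theorem gram_mul_inv (hh : Nondeg e h) (i k : ι) :
    ∑ j, gram e h i j * (gram e h)⁻¹ j k = if i = k then 1 else 0 := by
  have := Matrix.mul_nonsing_inv _ hh.det
  have h2 := congrFun (congrFun this i) k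
  rw [Matrix.mul_apply, Matrix.one_apply] at h2
  exact h2

theorem sum_form (z : V) (p : ι) : h z (e p) = ∑ r, e.repr z r * gram e h r p := by
  conv_lhs => rw [← e.sum_repr z]
  simp only [map_sum, map_smul, LinearMap.sum_apply, LinearMap.smul_apply, smul_eq_mul, gram,
    Matrix.of_apply]

theorem sum_lin (η : V →ₗ[ℝ] ℝ) (z : V) : ∑ q, e.repr z q * η (e q) = η z := by
  conv_rhs => rw [← e.sum_repr z]
  simp only [map_sum, map_smul, smul_eq_mul]

/-- Contracting with `h z`. -/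
theorem cop_form (hh : Nondeg e h) (z : V) (η : V →ₗ[ℝ] ℝ) : cop e h (h z) η = η z := by
  unfold cop tr
  have h2 : ∀ q, ∑ p, (gram e h)⁻¹ p q * (h z (e p)) = e.repr z q := by
    intro q
    simp only [sum_form, Finset.mul_sum]
    rw [Finset.sum_comm]
    have h3 : ∀ r, ∑ p, (gram e h)⁻¹ p q * (e.repr z r * gram e h r p) =
        e.repr z r * (if r = q then 1 else 0) := by
      intro r
      rw [← gram_mul_inv hh, Finset.mul_sum]
      refine Finset.sum_congr rfl fun p _ => ?_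
      ring
    simp only [h3]
    simp
  rw [Finset.sum_comm]
  have h4 : ∀ q, ∑ p, (gram e h)⁻¹ p q * (h z (e p) * η (e q)) = e.repr z q * η (e q) := by
    intro q
    rw [← h2 q, Finset.sum_mul]
    refine Finset.sum_congr rfl fun p _ => ?_
    ring
  simp only [h4]
  exact sum_lin η z

theorem cop_form_right (hh : Nondeg e h) (z : V) (η : V →ₗ[ℝ] ℝ) : cop e h η (h z) = η z := by
  rw [cop_comm hh, cop_form hh]

theorem tr_form (hh : Nondeg e h) : tr e h (fun u v => h u v) = Fintype.card ι := by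
  unfold tr
  have h1 : ∀ i, ∑ j, (gram e h)⁻¹ i j * h (e i) (e j) = 1 := by
    intro i
    have := gram_mul_inv hh i i
    rw [if_pos rfl] at this
    rw [← this]
    refine Finset.sum_congr rfl fun j _ => ?_
    rw [inv_symm hh i j]
    simp only [gram, Matrix.of_apply]
    ring
  simp only [h1]
  simp

/-- Nondegeneracy: every covector is `h x`. -/
theorem exists_rep (hh : Nondeg e h) (ξ : V →ₗ[ℝ] ℝ) : ∃ x : V, ∀ v, h x v = ξ v := by
  refine ⟨∑ i, (∑ j, (gram e h)⁻¹ i j * ξ (e j)) • e i, fun v => ?_⟩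
  have h1 : ∀ r, h (∑ i, (∑ j, (gram e h)⁻¹ i j * ξ (e j)) • e i) (e r) = ξ (e r) := by
    intro r
    have h2 : h (∑ i, (∑ j, (gram e h)⁻¹ i j * ξ (e j)) • e i) (e r) =
        ∑ i, (∑ j, (gram e h)⁻¹ i j * ξ (e j)) * gram e h i r := by
      simp only [map_sum, map_smul, LinearMap.sum_apply, LinearMap.smul_apply, smul_eq_mul, gram,
        Matrix.of_apply]
    rw [h2]
    simp only [Finset.sum_mul]
    rw [Finset.sum_comm]
    have h3 : ∀ j, ∑ i, (gram e h)⁻¹ i j * ξ (e j) * gram e h i r =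
        ξ (e j) * (if r = j then 1 else 0) := by
      intro j
      rw [← gram_mul_inv hh, Finset.mul_sum]
      refine Finset.sum_congr rfl fun p _ => ?_
      have h4 : gram e h p r = gram e h r p := by
        simp only [gram, Matrix.of_apply, hh.symm (e p)]
      rw [h4]
      ring
    simp only [h3]
    simp
  rw [← sum_lin (e := e) (h (∑ i, (∑ j, (gram e h)⁻¹ i j * ξ (e j)) • e i)) v,
    ← sum_lin (e := e) ξ v]
  simp only [h1]

end

section basis

variable {V : Type*} [AddCommGroup V] [Module ℝ V] {ι κ : Type*} [Fintype ι]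
  [DecidableEq ι] [Fintype κ] [DecidableEq κ] {e : Basis ι ℝ V} {f : Basis κ ℝ V} {h : Bil V}

theorem cop_basis (he : Nondeg e h) (hf : Nondeg f h) (ξ η : V →ₗ[ℝ] ℝ) :
    cop e h ξ η = cop f h ξ η := by
  obtain ⟨x, hx⟩ := exists_rep he ξ
  have h1 : (ξ : V → ℝ) = h x := by
    funext v
    exact (hx v).symm
  rw [h1, cop_form he, cop_form hf]

theorem tr_expand {κ' : Type*} [Fintype κ'] [DecidableEq κ'] (e' : Basis κ' ℝ V)
    (f : Basis κ ℝ V) (T : V →ₗ[ℝ] V →ₗ[ℝ] ℝ) :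
    tr e' h (fun u v => T u v) = ∑ r, cop e' h (f.coord r) (T (f r)) := by
  have key : ∀ u v, T u v = ∑ r, f.coord r u * T (f r) v := by
    intro u v
    conv_lhs => rw [← f.sum_repr u]
    simp only [map_sum, map_smul, LinearMap.sum_apply, LinearMap.smul_apply, smul_eq_mul,
      Basis.coord_apply]
  rw [tr_congr key, tr_sum]
  rfl

theorem tr_basis (he : Nondeg e h) (hf : Nondeg f h) (T : V →ₗ[ℝ] V →ₗ[ℝ] ℝ) :
    tr e h (fun u v => T u v) = tr f h (fun u v => T u v) := by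
  rw [tr_expand e f, tr_expand f f]
  exact Finset.sum_congr rfl fun r _ => cop_basis he hf _ _

end basis

end Pool.Agent.Lib.MP_df705a_gt.Twist.Alg
end
end

section

/-!
The scalar curvature of an orthogonal product, at the level of 2-jets.
-/

noncomputable section

set_option linter.unusedSectionVars false
set_option linter.unusedSimpArgs false

namespace Pool.Agent.Lib.MP_df705a_gt.Twist.Alg

open Module

section

variable {V : Type*} [AddCommGroup V] [Module ℝ V] {ι : Type*} [Fintype ι]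
  [DecidableEq ι] {e : Basis ι ℝ V} {h : Bil V}

theorem cop_congr {ξ ξ' η η' : V → ℝ} (h1 : ∀ v, ξ v = ξ' v) (h2 : ∀ v, η v = η' v) :
    cop e h ξ η = cop e h ξ' η' := by
  rw [funext h1, funext h2]

theorem cop_mul_left (c : ℝ) (ξ η : V → ℝ) : cop e h (fun v => c * ξ v) η = c * cop e h ξ η :=
  cop_smul_left c ξ η

theorem cop_mul_right (c : ℝ) (ξ η : V → ℝ) : cop e h ξ (fun v => c * η v) = c * cop e h ξ η :=
  cop_smul_right c ξ η

theorem tr_eq_sum (T : V → V → ℝ) :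
    tr e h T = ∑ p : ι × ι, (gram e h)⁻¹ p.1 p.2 * T (e p.1) (e p.2) := by
  rw [Fintype.sum_prod_type]
  rfl

theorem tr_comm {W : Type*} [AddCommGroup W] [Module ℝ W] {κ : Type*} [Fintype κ]
    [DecidableEq κ] {f : Basis κ ℝ W} {k : Bil W} (T : V → V → W → W → ℝ) :
    tr e h (fun u v => tr f k fun x y => T u v x y) =
      tr f k fun x y => tr e h fun u v => T u v x y := by
  simp only [tr_eq_sum, Finset.mul_sum]
  rw [Finset.sum_comm]
  refine Finset.sum_congr rfl fun a _ => Finset.sum_congr rfl fun b _ => ?_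
  ring

end

section

variable {V₁ V₂ : Type*} [AddCommGroup V₁] [Module ℝ V₁] [AddCommGroup V₂] [Module ℝ V₂]
  {ι₁ ι₂ : Type*} [Fintype ι₁] [DecidableEq ι₁] [Fintype ι₂] [DecidableEq ι₂]
  {e₁ : Basis ι₁ ℝ V₁} {e₂ : Basis ι₂ ℝ V₂} {H : Bil V₁} {K : Bil V₂} {g : Bil (V₁ × V₂)}

theorem gram_prod (hg : ∀ u v, g u v = H u.1 v.1 + K u.2 v.2) :
    gram (e₁.prod e₂) g = Matrix.fromBlocks (gram e₁ H) 0 0 (gram e₂ K) := by
  ext i j
  rcases i with i | i <;> rcases j with j | j <;> simp [gram, hg, Basis.prod_apply]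

theorem nondeg_prod (hH : Nondeg e₁ H) (hK : Nondeg e₂ K)
    (hg : ∀ u v, g u v = H u.1 v.1 + K u.2 v.2) : Nondeg (e₁.prod e₂) g := by
  refine ⟨fun u v => by rw [hg, hg, hH.symm, hK.symm], ?_⟩
  rw [gram_prod hg, Matrix.det_fromBlocks_zero₂₁]
  exact hH.det.mul hK.det

theorem inv_prod (hH : Nondeg e₁ H) (hK : Nondeg e₂ K)
    (hg : ∀ u v, g u v = H u.1 v.1 + K u.2 v.2) :
    (gram (e₁.prod e₂) g)⁻¹ = Matrix.fromBlocks (gram e₁ H)⁻¹ 0 0 (gram e₂ K)⁻¹ := by
  apply Matrix.inv_eq_right_inv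
  rw [gram_prod hg, Matrix.fromBlocks_multiply]
  simp [Matrix.mul_nonsing_inv _ hH.det, Matrix.mul_nonsing_inv _ hK.det]

theorem tr_prod (hH : Nondeg e₁ H) (hK : Nondeg e₂ K)
    (hg : ∀ u v, g u v = H u.1 v.1 + K u.2 v.2) (T : V₁ × V₂ → V₁ × V₂ → ℝ) :
    tr (e₁.prod e₂) g T = tr e₁ H (fun u v => T (u, 0) (v, 0)) +
      tr e₂ K (fun u v => T (0, u) (0, v)) := by
  unfold tr
  rw [inv_prod hH hK hg]
  simp [Fintype.sum_sum_type, Basis.prod_apply]

theorem cop_prod (hH : Nondeg e₁ H) (hK : Nondeg e₂ K)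
    (hg : ∀ u v, g u v = H u.1 v.1 + K u.2 v.2) (ξ η : V₁ × V₂ → ℝ) :
    cop (e₁.prod e₂) g ξ η = cop e₁ H (fun u => ξ (u, 0)) (fun u => η (u, 0)) +
      cop e₂ K (fun u => ξ (0, u)) (fun u => η (0, u)) :=
  tr_prod hH hK hg _

variable {D : (V₁ × V₂) →ₗ[ℝ] Bil (V₁ × V₂)}
  {D2 : (V₁ × V₂) →ₗ[ℝ] (V₁ × V₂) →ₗ[ℝ] Bil (V₁ × V₂)}
  {DH : V₁ × V₂ → V₁ → V₁ → ℝ} {DK : V₁ × V₂ → V₂ → V₂ → ℝ}
  {D2H : V₁ × V₂ → V₁ × V₂ → V₁ → V₁ → ℝ} {D2K : V₁ × V₂ → V₁ × V₂ → V₂ → V₂ → ℝ}
  {dH : V₁ →ₗ[ℝ] Bil V₁} {d2H : V₁ →ₗ[ℝ] V₁ →ₗ[ℝ] Bil V₁}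
  {dK : V₂ →ₗ[ℝ] Bil V₂} {d2K : V₂ →ₗ[ℝ] V₂ →ₗ[ℝ] Bil V₂}

/-- The data of the block formula. -/
structure Blk (e₁ : Basis ι₁ ℝ V₁) (e₂ : Basis ι₂ ℝ V₂) (H : Bil V₁) (K : Bil V₂)
    (g : Bil (V₁ × V₂)) (D : (V₁ × V₂) →ₗ[ℝ] Bil (V₁ × V₂))
    (D2 : (V₁ × V₂) →ₗ[ℝ] (V₁ × V₂) →ₗ[ℝ] Bil (V₁ × V₂))
    (DH : V₁ × V₂ → V₁ → V₁ → ℝ) (DK : V₁ × V₂ → V₂ → V₂ → ℝ)
    (D2H : V₁ × V₂ → V₁ × V₂ → V₁ → V₁ → ℝ) (D2K : V₁ × V₂ → V₁ × V₂ → V₂ → V₂ → ℝ)
    (dH : V₁ →ₗ[ℝ] Bil V₁) (d2H : V₁ →ₗ[ℝ] V₁ →ₗ[ℝ] Bil V₁)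
    (dK : V₂ →ₗ[ℝ] Bil V₂) (d2K : V₂ →ₗ[ℝ] V₂ →ₗ[ℝ] Bil V₂) : Prop where
  hH : Nondeg e₁ H
  hK : Nondeg e₂ K
  hg : ∀ u v, g u v = H u.1 v.1 + K u.2 v.2
  hD : ∀ u v w, D u v w = DH u v.1 w.1 + DK u v.2 w.2
  hD2 : ∀ u v w z, D2 u v w z = D2H u v w.1 z.1 + D2K u v w.2 z.2
  hdH : ∀ u v w, dH u v w = DH (u, 0) v w
  hd2H : ∀ u v w z, d2H u v w z = D2H (u, 0) (v, 0) w z
  hdK : ∀ u v w, dK u v w = DK (0, u) v w
  hd2K : ∀ u v w z, d2K u v w z = D2K (0, u) (0, v) w z
  sH : ∀ u v w, DH u v w = DH u w v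
  sK : ∀ u v w, DK u v w = DK u w v
  zH : ∀ u v, DH u v 0 = 0
  zK : ∀ u v, DK u v 0 = 0
  zH2 : ∀ u v w, D2H u v w 0 = 0
  zK2 : ∀ u v w, D2K u v w 0 = 0
  s2H : ∀ u v w z, D2H u v w z = D2H u v z w
  s2K : ∀ u v w z, D2K u v w z = D2K u v z w

namespace Blk

variable (B : Blk e₁ e₂ H K g D D2 DH DK D2H D2K dH d2H dK d2K)

include B

theorem zH' (u : V₁ × V₂) (v : V₁) : DH u 0 v = 0 := by rw [B.sH, B.zH]

theorem zK' (u : V₁ × V₂) (v : V₂) : DK u 0 v = 0 := by rw [B.sK, B.zK]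

theorem zH2' (u v : V₁ × V₂) (w : V₁) : D2H u v 0 w = 0 := by rw [B.s2H, B.zH2]

theorem zK2' (u v : V₁ × V₂) (w : V₂) : D2K u v 0 w = 0 := by rw [B.s2K, B.zK2]

theorem chr_111 (u w x : V₁) : chr D (u, 0) (w, 0) (x, 0) = chr dH u w x := by
  rw [chr_apply, chr_apply, B.hD, B.hD, B.hD, B.hdH, B.hdH, B.hdH]
  simp only [B.zK]
  ring

theorem chr_112 (u w : V₁) (y : V₂) :
    chr D (u, 0) (w, 0) (0, y) = (-(1 / 2)) * DH (0, y) u w := by
  rw [chr_apply, B.hD, B.hD, B.hD]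
  simp only [B.zK, B.zK', B.zH]
  ring

theorem chr_222 (u w x : V₂) : chr D (0, u) (0, w) (0, x) = chr dK u w x := by
  rw [chr_apply, chr_apply, B.hD, B.hD, B.hD, B.hdK, B.hdK, B.hdK]
  simp only [B.zH]
  ring

theorem chr_221 (u w : V₂) (y : V₁) :
    chr D (0, u) (0, w) (y, 0) = (-(1 / 2)) * DK (y, 0) u w := by
  rw [chr_apply, B.hD, B.hD, B.hD]
  simp only [B.zH, B.zH', B.zK]
  ring

theorem chr_121 (u : V₁) (w : V₂) (x : V₁) :
    chr D (u, 0) (0, w) (x, 0) = (1 / 2) * DH (0, w) u x := by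
  rw [chr_apply, B.hD, B.hD, B.hD]
  simp only [B.zH, B.zH', B.zK, B.zK']
  ring

theorem chr_122 (u : V₁) (w : V₂) (y : V₂) :
    chr D (u, 0) (0, w) (0, y) = (1 / 2) * DK (u, 0) w y := by
  rw [chr_apply, B.hD, B.hD, B.hD]
  simp only [B.zH, B.zH', B.zK, B.zK']
  ring

theorem chr_211 (w : V₂) (u : V₁) (x : V₁) :
    chr D (0, w) (u, 0) (x, 0) = (1 / 2) * DH (0, w) u x := by
  rw [chr_apply, B.hD, B.hD, B.hD]
  simp only [B.zH, B.zH', B.zK, B.zK']
  ring

theorem chr_212 (w : V₂) (u : V₁) (y : V₂) :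
    chr D (0, w) (u, 0) (0, y) = (1 / 2) * DK (u, 0) w y := by
  rw [chr_apply, B.hD, B.hD, B.hD]
  simp only [B.zH, B.zH', B.zK, B.zK']
  ring

theorem curv_11 (u v w z : V₁) :
    curv (e₁.prod e₂) g D D2 (u, 0) (v, 0) (w, 0) (z, 0) = curv e₁ H dH d2H u v w z +
      ((1 / 4) * cop e₂ K (fun y => DH (0, y) u w) (fun y => DH (0, y) v z) -
        (1 / 4) * cop e₂ K (fun y => DH (0, y) v w) (fun y => DH (0, y) u z)) := by
  unfold curv
  rw [cop_prod B.hH B.hK B.hg, cop_prod B.hH B.hK B.hg]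
  simp only [B.chr_111, B.chr_112, cop_mul_left, cop_mul_right]
  have e1 : chr (D2 (u, 0)) (v, 0) (w, 0) (z, 0) = chr (d2H u) v w z := by
    rw [chr_apply, chr_apply, B.hD2, B.hD2, B.hD2, B.hd2H, B.hd2H, B.hd2H]
    simp only [B.zK2]
    ring
  have e2 : chr (D2 (v, 0)) (u, 0) (w, 0) (z, 0) = chr (d2H v) u w z := by
    rw [chr_apply, chr_apply, B.hD2, B.hD2, B.hD2, B.hd2H, B.hd2H, B.hd2H]
    simp only [B.zK2]
    ring
  rw [e1, e2]
  ring

theorem curv_22 (u v w z : V₂) :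
    curv (e₁.prod e₂) g D D2 (0, u) (0, v) (0, w) (0, z) = curv e₂ K dK d2K u v w z +
      ((1 / 4) * cop e₁ H (fun y => DK (y, 0) u w) (fun y => DK (y, 0) v z) -
        (1 / 4) * cop e₁ H (fun y => DK (y, 0) v w) (fun y => DK (y, 0) u z)) := by
  unfold curv
  rw [cop_prod B.hH B.hK B.hg, cop_prod B.hH B.hK B.hg]
  simp only [B.chr_222, B.chr_221, cop_mul_left, cop_mul_right]
  have e1 : chr (D2 (0, u)) (0, v) (0, w) (0, z) = chr (d2K u) v w z := by
    rw [chr_apply, chr_apply, B.hD2, B.hD2, B.hD2, B.hd2K, B.hd2K, B.hd2K]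
    simp only [B.zH2]
    ring
  have e2 : chr (D2 (0, v)) (0, u) (0, w) (0, z) = chr (d2K v) u w z := by
    rw [chr_apply, chr_apply, B.hD2, B.hD2, B.hD2, B.hd2K, B.hd2K, B.hd2K]
    simp only [B.zH2]
    ring
  rw [e1, e2]
  ring

theorem curv_12 (u z : V₁) (v w : V₂) :
    curv (e₁.prod e₂) g D D2 (u, 0) (0, v) (0, w) (z, 0) =
      (-(1 / 2)) * D2K (u, 0) (z, 0) v w + (-(1 / 2)) * D2H (0, v) (0, w) u z +
      ((1 / 4) * cop e₁ H (fun x => DH (0, w) u x) (fun x => DH (0, v) z x) +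
        (1 / 4) * cop e₂ K (fun y => DK (u, 0) w y) (fun y => DK (z, 0) v y)) +
      ((1 / 2) * cop e₁ H (fun x => DK (x, 0) v w) (chr dH u z) +
        (1 / 2) * cop e₂ K (chr dK v w) (fun y => DH (0, y) u z)) := by
  unfold curv
  rw [cop_prod B.hH B.hK B.hg, cop_prod B.hH B.hK B.hg]
  simp only [B.chr_111, B.chr_112, B.chr_121, B.chr_122, B.chr_211, B.chr_212, B.chr_221,
    B.chr_222, cop_mul_left, cop_mul_right]
  have e1 : chr (D2 (u, 0)) (0, v) (0, w) (z, 0) = (-(1 / 2)) * D2K (u, 0) (z, 0) v w := by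
    rw [chr_apply, B.hD2, B.hD2, B.hD2]
    simp only [B.zH2, B.zH2', B.zK2, B.zK2']
    ring
  have e2 : chr (D2 (0, v)) (u, 0) (0, w) (z, 0) = (1 / 2) * D2H (0, v) (0, w) u z := by
    rw [chr_apply, B.hD2, B.hD2, B.hD2]
    simp only [B.zH2, B.zH2', B.zK2, B.zK2']
    ring
  rw [e1, e2]
  ring

theorem curv_21 (v w : V₁) (u z : V₂) :
    curv (e₁.prod e₂) g D D2 (0, u) (v, 0) (w, 0) (0, z) =
      (-(1 / 2)) * D2H (0, u) (0, z) v w + (-(1 / 2)) * D2K (v, 0) (w, 0) u z +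
      ((1 / 4) * cop e₁ H (fun x => DH (0, u) w x) (fun x => DH (0, z) v x) +
        (1 / 4) * cop e₂ K (fun y => DK (w, 0) u y) (fun y => DK (v, 0) z y)) +
      ((1 / 2) * cop e₁ H (chr dH v w) (fun x => DK (x, 0) u z) +
        (1 / 2) * cop e₂ K (fun y => DH (0, y) v w) (chr dK u z)) := by
  unfold curv
  rw [cop_prod B.hH B.hK B.hg, cop_prod B.hH B.hK B.hg]
  simp only [B.chr_111, B.chr_112, B.chr_121, B.chr_122, B.chr_211, B.chr_212, B.chr_221,
    B.chr_222, cop_mul_left, cop_mul_right]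
  have e1 : chr (D2 (0, u)) (v, 0) (w, 0) (0, z) = (-(1 / 2)) * D2H (0, u) (0, z) v w := by
    rw [chr_apply, B.hD2, B.hD2, B.hD2]
    simp only [B.zH2, B.zH2', B.zK2, B.zK2']
    ring
  have e2 : chr (D2 (v, 0)) (0, u) (w, 0) (0, z) = (1 / 2) * D2K (v, 0) (w, 0) u z := by
    rw [chr_apply, B.hD2, B.hD2, B.hD2]
    simp only [B.zH2, B.zH2', B.zK2, B.zK2']
    ring
  rw [e1, e2]
  ring

end Blk

end

section

variable {V : Type*} [AddCommGroup V] [Module ℝ V] {ι : Type*} [Fintype ι]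
  [DecidableEq ι] {e : Basis ι ℝ V} {h : Bil V}
  {W : Type*} [AddCommGroup W] [Module ℝ W] {κ : Type*} [Fintype κ]
  [DecidableEq κ] {f : Basis κ ℝ W} {k : Bil W}

theorem tr_cop_left (T : W → W → V → ℝ) (η : V → ℝ) :
    tr f k (fun v w => cop e h (fun x => T v w x) η) =
      cop e h (fun x => tr f k fun v w => T v w x) η := by
  unfold cop
  rw [tr_comm]
  refine tr_congr fun a b => ?_
  rw [mul_comm, ← tr_const_mul]
  exact tr_congr fun c d => mul_comm _ _

theorem tr_cop_right (T : W → W → V → ℝ) (η : V → ℝ) :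
    tr f k (fun v w => cop e h η (fun x => T v w x)) =
      cop e h η (fun x => tr f k fun v w => T v w x) := by
  unfold cop
  rw [tr_comm]
  refine tr_congr fun a b => ?_
  rw [← tr_const_mul]

/-- The derivative of the logarithm of the volume density. -/
def dlog (f : Basis κ ℝ W) (k : Bil W) (DK : V → W → W → ℝ) (x : V) : ℝ :=
  (1 / 2) * tr f k (DK x)

/-- The quadratic form `tr (k⁻¹ ∂k k⁻¹ ∂k)`. -/
def quad (f : Basis κ ℝ W) (k : Bil W) (DK : V → W → W → ℝ) (u z : V) : ℝ :=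
  tr f k fun v w => cop f k (DK u w) (DK z v)

/-- The second derivative of the logarithm of the volume density. -/
def d2log (f : Basis κ ℝ W) (k : Bil W) (DK : V → W → W → ℝ) (D2K : V → V → W → W → ℝ)
    (u z : V) : ℝ :=
  (1 / 2) * tr f k (D2K u z) - (1 / 2) * quad f k DK u z

end

section

variable {V₁ V₂ : Type*} [AddCommGroup V₁] [Module ℝ V₁] [AddCommGroup V₂] [Module ℝ V₂]
  {ι₁ ι₂ : Type*} [Fintype ι₁] [DecidableEq ι₁] [Fintype ι₂] [DecidableEq ι₂]
  {e₁ : Basis ι₁ ℝ V₁} {e₂ : Basis ι₂ ℝ V₂} {H : Bil V₁} {K : Bil V₂} {g : Bil (V₁ × V₂)}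
  {D : (V₁ × V₂) →ₗ[ℝ] Bil (V₁ × V₂)}
  {D2 : (V₁ × V₂) →ₗ[ℝ] (V₁ × V₂) →ₗ[ℝ] Bil (V₁ × V₂)}
  {DH : V₁ × V₂ → V₁ → V₁ → ℝ} {DK : V₁ × V₂ → V₂ → V₂ → ℝ}
  {D2H : V₁ × V₂ → V₁ × V₂ → V₁ → V₁ → ℝ} {D2K : V₁ × V₂ → V₁ × V₂ → V₂ → V₂ → ℝ}
  {dH : V₁ →ₗ[ℝ] Bil V₁} {d2H : V₁ →ₗ[ℝ] V₁ →ₗ[ℝ] Bil V₁}
  {dK : V₂ →ₗ[ℝ] Bil V₂} {d2K : V₂ →ₗ[ℝ] V₂ →ₗ[ℝ] Bil V₂}

/-- The quadratic form with the roles of the traces exchanged. -/
theorem quad_swap (hH : Nondeg e₁ H) (S : V₂ → V₁ → V₁ → ℝ)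
    (hS : ∀ y u w, S y u w = S y w u) :
    tr e₁ H (fun u z => tr e₁ H fun v w => cop e₂ K (fun y => S y u w) (fun y => S y v z)) =
      tr e₂ K (fun v w => quad e₁ H S v w) := by
  have h1 : ∀ u z, tr e₁ H (fun v w => cop e₂ K (fun y => S y u w) (fun y => S y v z)) =
      tr e₂ K (fun p q => tr e₁ H fun v w => S p u w * S q v z) := by
    intro u z
    unfold cop
    rw [tr_comm]
  have h2 : ∀ p q, tr e₁ H (fun u z => tr e₁ H fun v w => S p u w * S q v z) =
      quad e₁ H S p q := by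
    intro p q
    unfold quad
    rw [← tr_flip hH]
    refine tr_congr fun u z => ?_
    unfold cop
    rw [← tr_flip hH]
    refine tr_congr fun v w => ?_
    rw [hS q]
  rw [tr_congr h1, tr_comm]
  exact tr_congr h2

theorem scal_block (B : Blk e₁ e₂ H K g D D2 DH DK D2H D2K dH d2H dK d2K) :
    scal (e₁.prod e₂) g D D2 = scal e₁ H dH d2H + scal e₂ K dK d2K
      - 2 * tr e₁ H (fun u z => d2log e₂ K (fun x => DK (x, 0)) (fun x y => D2K (x, 0) (y, 0)) u z
        - cop e₁ H (chr dH u z) (dlog e₂ K fun x => DK (x, 0)))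
      - 2 * tr e₂ K (fun u z => d2log e₁ H (fun x => DH (0, x)) (fun x y => D2H (0, x) (0, y)) u z
        - cop e₂ K (chr dK u z) (dlog e₁ H fun x => DH (0, x)))
      - cop e₁ H (dlog e₂ K fun x => DK (x, 0)) (dlog e₂ K fun x => DK (x, 0))
      - cop e₂ K (dlog e₁ H fun x => DH (0, x)) (dlog e₁ H fun x => DH (0, x))
      - (1 / 4) * tr e₁ H (fun u z => quad e₂ K (fun x => DK (x, 0)) u z)
      - (1 / 4) * tr e₂ K (fun u z => quad e₁ H (fun x => DH (0, x)) u z) := by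
  have hH := B.hH
  have hK := B.hK
  -- the four blocks
  have h0 : scal (e₁.prod e₂) g D D2 =
      tr e₁ H (fun u z => tr e₁ H (fun v w =>
        curv (e₁.prod e₂) g D D2 (u, 0) (v, 0) (w, 0) (z, 0))) +
      tr e₁ H (fun u z => tr e₂ K (fun v w =>
        curv (e₁.prod e₂) g D D2 (u, 0) (0, v) (0, w) (z, 0))) +
      (tr e₂ K (fun u z => tr e₁ H (fun v w =>
        curv (e₁.prod e₂) g D D2 (0, u) (v, 0) (w, 0) (0, z))) +
      tr e₂ K (fun u z => tr e₂ K (fun v w =>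
        curv (e₁.prod e₂) g D D2 (0, u) (0, v) (0, w) (0, z)))) := by
    unfold scal
    rw [tr_prod hH hK B.hg]
    simp only [tr_prod hH hK B.hg]
    rw [tr_add, tr_add]
  -- block 11
  have h11 : tr e₁ H (fun u z => tr e₁ H (fun v w =>
        curv (e₁.prod e₂) g D D2 (u, 0) (v, 0) (w, 0) (z, 0))) = scal e₁ H dH d2H +
      ((1 / 4) * tr e₂ K (fun u z => quad e₁ H (fun x => DH (0, x)) u z) -
        cop e₂ K (dlog e₁ H fun x => DH (0, x)) (dlog e₁ H fun x => DH (0, x))) := by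
    have a1 := quad_swap (e₂ := e₂) (K := K) hH (fun x => DH (0, x)) (fun y u w => B.sH (0, y) u w)
    have a2 : tr e₁ H (fun u z => tr e₁ H fun v w =>
        cop e₂ K (fun y => DH (0, y) v w) (fun y => DH (0, y) u z)) =
        4 * cop e₂ K (dlog e₁ H fun x => DH (0, x)) (dlog e₁ H fun x => DH (0, x)) := by
      simp only [tr_cop_left, tr_cop_right]
      unfold dlog
      rw [cop_mul_left, cop_mul_right]
      ring
    simp only [B.curv_11, tr_add, tr_sub, tr_const_mul]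
    rw [a1, a2]
    unfold scal
    ring
  have h22 : tr e₂ K (fun u z => tr e₂ K (fun v w =>
        curv (e₁.prod e₂) g D D2 (0, u) (0, v) (0, w) (0, z))) = scal e₂ K dK d2K +
      ((1 / 4) * tr e₁ H (fun u z => quad e₂ K (fun x => DK (x, 0)) u z) -
        cop e₁ H (dlog e₂ K fun x => DK (x, 0)) (dlog e₂ K fun x => DK (x, 0))) := by
    have a1 := quad_swap (e₂ := e₁) (K := H) hK (fun x => DK (x, 0)) (fun y u w => B.sK (y, 0) u w)
    have a2 : tr e₂ K (fun u z => tr e₂ K fun v w =>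
        cop e₁ H (fun y => DK (y, 0) v w) (fun y => DK (y, 0) u z)) =
        4 * cop e₁ H (dlog e₂ K fun x => DK (x, 0)) (dlog e₂ K fun x => DK (x, 0)) := by
      simp only [tr_cop_left, tr_cop_right]
      unfold dlog
      rw [cop_mul_left, cop_mul_right]
      ring
    simp only [B.curv_22, tr_add, tr_sub, tr_const_mul]
    rw [a1, a2]
    unfold scal
    ring
  -- the mixed blocks
  have b1 : tr e₁ H (fun u z => tr e₂ K fun v w =>
      cop e₁ H (fun x => DH (0, w) u x) (fun x => DH (0, v) z x)) =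
      tr e₂ K (fun u z => quad e₁ H (fun x => DH (0, x)) u z) := by
    rw [tr_comm]
    refine tr_congr fun v w => ?_
    unfold quad
    refine tr_congr fun u z => ?_
    rw [cop_comm hH]
  have b2 : tr e₂ K (fun u z => tr e₁ H fun v w =>
      cop e₂ K (fun y => DK (w, 0) u y) (fun y => DK (v, 0) z y)) =
      tr e₁ H (fun u z => quad e₂ K (fun x => DK (x, 0)) u z) := by
    rw [tr_comm]
    refine tr_congr fun v w => ?_
    unfold quad
    refine tr_congr fun u z => ?_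
    rw [cop_comm hK]
  have c1 : tr e₁ H (fun u z => tr e₂ K fun v w =>
      cop e₁ H (fun x => DK (x, 0) v w) (chr dH u z)) =
      2 * tr e₁ H (fun u z => cop e₁ H (chr dH u z) (dlog e₂ K fun x => DK (x, 0))) := by
    rw [← tr_const_mul]
    refine tr_congr fun u z => ?_
    rw [tr_cop_left, cop_comm hH]
    unfold dlog
    rw [cop_mul_right]
    ring
  have c2 : tr e₁ H (fun u z => tr e₂ K fun v w =>
      cop e₂ K (chr dK v w) (fun y => DH (0, y) u z)) =
      2 * tr e₂ K (fun u z => cop e₂ K (chr dK u z) (dlog e₁ H fun x => DH (0, x))) := by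
    rw [tr_comm, ← tr_const_mul]
    refine tr_congr fun v w => ?_
    rw [tr_cop_right]
    unfold dlog
    rw [cop_mul_right]
    ring
  have d1 : tr e₁ H (fun u z => tr e₂ K fun v w => D2H (0, v) (0, w) u z) =
      tr e₂ K (fun v w => tr e₁ H fun u z => D2H (0, v) (0, w) u z) := tr_comm _
  have h12 : tr e₁ H (fun u z => tr e₂ K (fun v w =>
        curv (e₁.prod e₂) g D D2 (u, 0) (0, v) (0, w) (z, 0))) =
      (-(1 / 2)) * tr e₁ H (fun u z => tr e₂ K fun v w => D2K (u, 0) (z, 0) v w) +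
      (-(1 / 2)) * tr e₂ K (fun v w => tr e₁ H fun u z => D2H (0, v) (0, w) u z) +
      ((1 / 4) * tr e₂ K (fun u z => quad e₁ H (fun x => DH (0, x)) u z) +
        (1 / 4) * tr e₁ H (fun u z => quad e₂ K (fun x => DK (x, 0)) u z)) +
      (tr e₁ H (fun u z => cop e₁ H (chr dH u z) (dlog e₂ K fun x => DK (x, 0))) +
        tr e₂ K (fun u z => cop e₂ K (chr dK u z) (dlog e₁ H fun x => DH (0, x)))) := by
    simp only [B.curv_12, tr_add, tr_sub, tr_const_mul]
    rw [b1, c1, c2, d1]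
    unfold quad
    ring
  have e1 : tr e₂ K (fun u z => tr e₁ H fun v w =>
      cop e₁ H (fun x => DH (0, u) w x) (fun x => DH (0, z) v x)) =
      tr e₂ K (fun u z => quad e₁ H (fun x => DH (0, x)) u z) := rfl
  have e2 : tr e₂ K (fun u z => tr e₁ H fun v w =>
      cop e₁ H (chr dH v w) (fun x => DK (x, 0) u z)) =
      2 * tr e₁ H (fun u z => cop e₁ H (chr dH u z) (dlog e₂ K fun x => DK (x, 0))) := by
    rw [tr_comm, ← tr_const_mul]
    refine tr_congr fun v w => ?_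
    rw [tr_cop_right]
    unfold dlog
    rw [cop_mul_right]
    ring
  have e3 : tr e₂ K (fun u z => tr e₁ H fun v w =>
      cop e₂ K (fun y => DH (0, y) v w) (chr dK u z)) =
      2 * tr e₂ K (fun u z => cop e₂ K (chr dK u z) (dlog e₁ H fun x => DH (0, x))) := by
    rw [← tr_const_mul]
    refine tr_congr fun u z => ?_
    rw [tr_cop_left, cop_comm hK]
    unfold dlog
    rw [cop_mul_right]
    ring
  have e4 : tr e₂ K (fun u z => tr e₁ H fun v w => D2K (v, 0) (w, 0) u z) =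
      tr e₁ H (fun v w => tr e₂ K fun u z => D2K (v, 0) (w, 0) u z) := tr_comm _
  have h21 : tr e₂ K (fun u z => tr e₁ H (fun v w =>
        curv (e₁.prod e₂) g D D2 (0, u) (v, 0) (w, 0) (0, z))) =
      (-(1 / 2)) * tr e₁ H (fun u z => tr e₂ K fun v w => D2K (u, 0) (z, 0) v w) +
      (-(1 / 2)) * tr e₂ K (fun v w => tr e₁ H fun u z => D2H (0, v) (0, w) u z) +
      ((1 / 4) * tr e₂ K (fun u z => quad e₁ H (fun x => DH (0, x)) u z) +
        (1 / 4) * tr e₁ H (fun u z => quad e₂ K (fun x => DK (x, 0)) u z)) +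
      (tr e₁ H (fun u z => cop e₁ H (chr dH u z) (dlog e₂ K fun x => DK (x, 0))) +
        tr e₂ K (fun u z => cop e₂ K (chr dK u z) (dlog e₁ H fun x => DH (0, x)))) := by
    simp only [B.curv_21, tr_add, tr_sub, tr_const_mul]
    rw [e1, b2, e2, e3, e4]
    ring
  rw [h0, h11, h22, h12, h21]
  simp only [d2log, tr_sub, tr_const_mul]
  ring

end

end Pool.Agent.Lib.MP_df705a_gt.Twist.Alg
end
end

section

/-!
The conformal change of the scalar curvature and of the Laplacian, at the level of 2-jets.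
-/

noncomputable section

set_option linter.unusedSectionVars false
set_option linter.unusedSimpArgs false

namespace Pool.Agent.Lib.MP_df705a_gt.Twist.Alg

open Module

variable {V : Type*} [AddCommGroup V] [Module ℝ V] {ι : Type*} [Fintype ι]
  [DecidableEq ι] {e : Basis ι ℝ V} {h H : Bil V} {A : ℝ}

theorem gram_smul (hH : ∀ u v, H u v = A * h u v) : gram e H = A • gram e h := by
  ext i j
  simp [gram, hH]

theorem nondeg_smul (hA : A ≠ 0) (hh : Nondeg e h) (hH : ∀ u v, H u v = A * h u v) :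
    Nondeg e H := by
  refine ⟨fun u v => by rw [hH, hH, hh.symm], ?_⟩
  rw [gram_smul hH, Matrix.det_smul]
  exact ((isUnit_iff_ne_zero.mpr hA).pow _).mul hh.det

theorem inv_smul (hA : A ≠ 0) (hh : Nondeg e h) (hH : ∀ u v, H u v = A * h u v) :
    (gram e H)⁻¹ = A⁻¹ • (gram e h)⁻¹ := by
  apply Matrix.inv_eq_right_inv
  rw [gram_smul hH, Matrix.smul_mul, Matrix.mul_smul, smul_smul, mul_inv_cancel₀ hA, one_smul,
    Matrix.mul_nonsing_inv _ hh.det]

theorem tr_smul (hA : A ≠ 0) (hh : Nondeg e h) (hH : ∀ u v, H u v = A * h u v)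
    (T : V → V → ℝ) : tr e H T = A⁻¹ * tr e h T := by
  unfold tr
  rw [inv_smul hA hh hH, Finset.mul_sum]
  refine Finset.sum_congr rfl fun i _ => ?_
  rw [Finset.mul_sum]
  refine Finset.sum_congr rfl fun j _ => ?_
  rw [Matrix.smul_apply, smul_eq_mul]
  ring

theorem cop_smul (hA : A ≠ 0) (hh : Nondeg e h) (hH : ∀ u v, H u v = A * h u v)
    (ξ η : V → ℝ) : cop e H ξ η = A⁻¹ * cop e h ξ η :=
  tr_smul hA hh hH _

variable {D DH : V →ₗ[ℝ] Bil V} {D2 D2H : V →ₗ[ℝ] V →ₗ[ℝ] Bil V} {a : V →ₗ[ℝ] ℝ} {a2 : Bil V}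

/-- The data of a conformal change. -/
structure Cnf (e : Basis ι ℝ V) (h H : Bil V) (A : ℝ) (D DH : V →ₗ[ℝ] Bil V)
    (D2 D2H : V →ₗ[ℝ] V →ₗ[ℝ] Bil V) (a : V →ₗ[ℝ] ℝ) (a2 : Bil V) : Prop where
  hA : A ≠ 0
  hh : Nondeg e h
  sD : ∀ u v w, D u v w = D u w v
  sa : ∀ u v, a2 u v = a2 v u
  hH : ∀ u v, H u v = A * h u v
  hDH : ∀ u v w, DH u v w = A * (2 * a u * h v w + D u v w)
  hD2H : ∀ u v w z, D2H u v w z = A * ((4 * a u * a v + 2 * a2 u v) * h w z +
    2 * a u * D v w z + 2 * a v * D u w z + D2 u v w z)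

namespace Cnf

variable (C : Cnf e h H A D DH D2 D2H a a2)

include C

theorem chr_eq (u w x : V) :
    chr DH u w x = A * (chr D u w x + a u * h w x + a w * h u x - h u w * a x) := by
  rw [chr_apply, chr_apply, C.hDH, C.hDH, C.hDH]
  ring

theorem chr2_eq (u v w z : V) :
    chr (D2H u) v w z = A * (chr (D2 u) v w z +
      2 * a u * (chr D v w z + a v * h w z + a w * h v z - a z * h v w) +
      (a2 u v * h w z + a2 u w * h v z - a2 u z * h v w) +
      (a v * D u w z + a w * D u v z - a z * D u v w)) := by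
  rw [chr_apply, chr_apply, chr_apply, C.hD2H, C.hD2H, C.hD2H]
  ring

/-- The product of two Christoffel symbols. -/
theorem cop_chr (u w v z : V) :
    cop e H (chr DH u w) (chr DH v z) = A * (cop e h (chr D u w) (chr D v z) +
      a v * chr D u w z + a z * chr D u w v - h v z * cop e h (chr D u w) a +
      a u * (chr D v z w + a v * h z w + a z * h v w - h v z * a w) +
      a w * (chr D v z u + a v * h z u + a z * h v u - h v z * a u) -
      h u w * (cop e h (chr D v z) a + a v * a z + a z * a v - h v z * cop e h a a)) := by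
  have hA := C.hA
  rw [cop_smul hA C.hh C.hH]
  have h1 : ∀ u w, (chr DH u w : V → ℝ) = A • ((chr D u w : V → ℝ) + a u • (h w : V → ℝ) +
      a w • (h u : V → ℝ) - h u w • (a : V → ℝ)) := by
    intro u w
    funext x
    rw [C.chr_eq]
    simp only [Pi.smul_apply, Pi.add_apply, Pi.sub_apply, smul_eq_mul]
  have hc := cop_comm C.hh
  rw [h1, h1, cop_smul_left, cop_smul_right]
  simp only [cop_add_left, cop_sub_left, cop_smul_left, cop_add_right, cop_sub_right,
    cop_smul_right]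
  have k1 : ∀ (y : V) (η : V →ₗ[ℝ] ℝ), cop e h (h y) η = η y := cop_form C.hh
  have k2 : ∀ (y : V) (η : V →ₗ[ℝ] ℝ), cop e h η (h y) = η y := cop_form_right C.hh
  simp only [k1, k2]
  rw [hc a (chr D v z)]
  field_simp
  ring

/-- The curvature after the conformal change. -/
theorem curv_eq (u v w z : V) :
    curv e H DH D2H u v w z = A * (curv e h D D2 u v w z -
      ((a2 u z - cop e h (chr D u z) a - a u * a z + (1 / 2) * cop e h a a * h u z) * h v w +
        (a2 v w - cop e h (chr D v w) a - a v * a w + (1 / 2) * cop e h a a * h v w) * h u z -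
        (a2 u w - cop e h (chr D u w) a - a u * a w + (1 / 2) * cop e h a a * h u w) * h v z -
        (a2 v z - cop e h (chr D v z) a - a v * a z + (1 / 2) * cop e h a a * h v z) * h u w)) := by
  unfold curv
  rw [C.cop_chr, C.cop_chr, C.chr2_eq, C.chr2_eq]
  have sD := C.sD
  have f1 : chr D v w z + chr D v z w = D v w z := by
    rw [chr_apply, chr_apply, sD v z w]
    ring
  have f2 : chr D u w z + chr D u z w = D u w z := by
    rw [chr_apply, chr_apply, sD u z w]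
    ring
  have f3 : chr D v z u - chr D u z v = D v u z - D u v z := by
    rw [chr_apply, chr_apply, sD v z u, sD u z v, sD z v u]
    ring
  have f4 : chr D u w v - chr D v w u = D u v w - D v u w := by
    rw [chr_apply, chr_apply, sD u w v, sD v w u, sD w u v]
    ring
  have hs := C.hh.symm
  have sa := C.sa
  rw [hs z w, hs z u, hs z v, hs v u, sa v u]
  linear_combination A * (a u * f1 - a v * f2 + a w * f3 + a z * f4)

omit C in
/-- The double trace of a Kulkarni-Nomizu product with the metric. -/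
theorem tr_kn (hh : Nondeg e h) (S : V →ₗ[ℝ] V →ₗ[ℝ] ℝ) :
    tr e h (fun u z => tr e h fun v w =>
      S u z * h v w + S v w * h u z - S u w * h v z - S v z * h u w) =
      2 * (Fintype.card ι - 1) * tr e h fun u v => S u v := by
  have h1 : ∀ u z, tr e h (fun v w =>
      S u z * h v w + S v w * h u z - S u w * h v z - S v z * h u w) =
      Fintype.card ι * S u z + (tr e h fun v w => S v w) * h u z - S u z - S u z := by
    intro u z
    rw [tr_sub, tr_sub, tr_add, tr_const_mul, tr_form hh]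
    have e1 : tr e h (fun v w => S v w * h u z) = (tr e h fun v w => S v w) * h u z := by
      rw [mul_comm, ← tr_const_mul]
      exact tr_congr fun v w => mul_comm _ _
    have e2 : tr e h (fun v w => S u w * h v z) = S u z := by
      rw [← cop_form hh z (S u)]
      refine tr_congr fun v w => ?_
      rw [hh.symm v z]
      ring
    have e3 : tr e h (fun v w => S v z * h u w) = S u z := by
      have := cop_form_right hh u (S.flip z)
      exact this
    rw [e1, e2, e3]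
    ring
  rw [tr_congr h1, tr_sub, tr_sub, tr_add, tr_const_mul, tr_const_mul, tr_form hh]
  ring

omit C in
/-- The Hessian part as a bilinear form. -/
theorem exists_hess (hh : Nondeg e h) (D : V →ₗ[ℝ] Bil V) (a : V →ₗ[ℝ] ℝ) :
    ∃ T : V →ₗ[ℝ] V →ₗ[ℝ] ℝ, ∀ u v, T u v = cop e h (chr D u v) a := by
  obtain ⟨x, hx⟩ := exists_rep hh a
  refine ⟨LinearMap.mk₂ ℝ (fun u v => chr D u v x) ?_ ?_ ?_ ?_, fun u v => ?_⟩
  · intro u v w
    simp only [chr_apply, map_add, LinearMap.add_apply]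
    ring
  · intro c u v
    simp only [chr_apply, map_smul, LinearMap.smul_apply, smul_eq_mul]
    ring
  · intro u v w
    simp only [chr_apply, map_add, LinearMap.add_apply]
    ring
  · intro c u v
    simp only [chr_apply, map_smul, LinearMap.smul_apply, smul_eq_mul]
    ring
  · rw [LinearMap.mk₂_apply]
    have h1 : (a : V → ℝ) = h x := funext fun v => (hx v).symm
    rw [h1, cop_form_right hh]

theorem scal_eq : scal e H DH D2H = A⁻¹ * (scal e h D D2 -
    2 * (Fintype.card ι - 1) * lap e h D a a2 -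
    (Fintype.card ι - 1) * (Fintype.card ι - 2) * cop e h a a) := by
  have hA := C.hA
  have hh := C.hh
  obtain ⟨T, hT⟩ := exists_hess hh D a
  set S : V →ₗ[ℝ] V →ₗ[ℝ] ℝ := a2 - T - (LinearMap.mul ℝ ℝ).compl₁₂ a a +
    ((1 / 2) * cop e h a a) • h with hS
  have hSa : ∀ u v, S u v = a2 u v - cop e h (chr D u v) a - a u * a v +
      (1 / 2) * cop e h a a * h u v := by
    intro u v
    simp only [hS, LinearMap.add_apply, LinearMap.sub_apply, LinearMap.smul_apply, hT,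
      LinearMap.compl₁₂_apply, LinearMap.mul_apply', smul_eq_mul]
  have h1 : scal e H DH D2H = A⁻¹ * (scal e h D D2 -
      tr e h (fun u z => tr e h fun v w =>
        S u z * h v w + S v w * h u z - S u w * h v z - S v z * h u w)) := by
    unfold scal
    rw [tr_smul hA hh C.hH, ← tr_sub]
    congr 1
    refine tr_congr fun u z => ?_
    rw [tr_smul hA hh C.hH, ← tr_const_mul, ← tr_sub]
    refine tr_congr fun v w => ?_
    rw [C.curv_eq, hSa, hSa, hSa, hSa]
    field_simp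
  have h2 : tr e h (fun u v => S u v) = lap e h D a a2 - cop e h a a +
      (1 / 2) * cop e h a a * Fintype.card ι := by
    rw [tr_congr hSa, tr_add, tr_sub, tr_const_mul, tr_form hh]
    rfl
  rw [h1, tr_kn hh, h2]
  ring

/-- The Laplacian after the conformal change. -/
theorem lap_eq (f1 : V →ₗ[ℝ] ℝ) (f2 : Bil V) : lap e H DH f1 f2 =
    A⁻¹ * (lap e h D f1 f2 + (Fintype.card ι - 2) * cop e h a f1) := by
  have hA := C.hA
  have hh := C.hh
  unfold lap
  rw [tr_smul hA hh C.hH]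
  congr 1
  have h1 : ∀ u v, f2 u v - cop e H (chr DH u v) f1 = (f2 u v - cop e h (chr D u v) f1) -
      (a u * f1 v + a v * f1 u - cop e h a f1 * h u v) := by
    intro u v
    rw [cop_smul hA hh C.hH]
    have h2 : (chr DH u v : V → ℝ) = A • ((chr D u v : V → ℝ) + a u • (h v : V → ℝ) +
        a v • (h u : V → ℝ) - h u v • (a : V → ℝ)) := by
      funext x
      rw [C.chr_eq]
      simp only [Pi.smul_apply, Pi.add_apply, Pi.sub_apply, smul_eq_mul]
    rw [h2, cop_smul_left, cop_sub_left, cop_add_left, cop_add_left, cop_smul_left,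
      cop_smul_left, cop_smul_left, cop_form hh, cop_form hh]
    field_simp
    ring
  have h3 : tr e h (fun u v => a v * f1 u) = cop e h a f1 := by
    rw [cop_comm hh]
    refine tr_congr fun u v => mul_comm _ _
  have h4 : tr e h (fun u v => a u * f1 v) = cop e h a f1 := rfl
  have h5 : tr e h (fun u v => a u * f1 v + a v * f1 u - cop e h a f1 * h u v) =
      cop e h a f1 + cop e h a f1 - cop e h a f1 * Fintype.card ι := by
    rw [tr_sub, tr_add, tr_const_mul, tr_form hh, h3, h4]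
  rw [tr_congr h1, tr_sub (fun u v => f2 u v - cop e h (chr D u v) f1), h5]
  ring

end Cnf

end Pool.Agent.Lib.MP_df705a_gt.Twist.Alg
end
end

section

/-!
The scalar curvature of `A h + B f` at the level of 2-jets.
-/

noncomputable section

set_option linter.unusedSectionVars false
set_option linter.unusedSimpArgs false

namespace Pool.Agent.Lib.MP_df705a_gt.Twist.Alg

open Module

section

variable {V : Type*} [AddCommGroup V] [Module ℝ V]
  {W : Type*} [AddCommGroup W] [Module ℝ W] {κ : Type*} [Fintype κ]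
  [DecidableEq κ] {e : Basis κ ℝ W} {f K : Bil W} {B : ℝ} {b : V → ℝ} {b2 : V → V → ℝ}
  {Df : V → Bil W} {D2f : V → V → Bil W} {DK : V → W → W → ℝ} {D2K : V → V → W → W → ℝ}

theorem dlog_eq (hB : B ≠ 0) (hf : Nondeg e f) (hK : ∀ u v, K u v = B * f u v)
    (hDK : ∀ x v w, DK x v w = B * (2 * b x * f v w + Df x v w))
    (h0 : ∀ x, tr e f (fun v w => Df x v w) = 0) (x : V) :
    dlog e K DK x = Fintype.card κ * b x := by
  unfold dlog
  rw [tr_smul hB hf hK, tr_congr (hDK x), tr_const_mul, tr_add, tr_const_mul, tr_form hf, h0]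
  field_simp
  ring

theorem quad_eq (hB : B ≠ 0) (hf : Nondeg e f) (hK : ∀ u v, K u v = B * f u v)
    (hDK : ∀ x v w, DK x v w = B * (2 * b x * f v w + Df x v w))
    (sf : ∀ x v w, Df x v w = Df x w v)
    (h0 : ∀ x, tr e f (fun v w => Df x v w) = 0) (u z : V) :
    quad e K DK u z = 4 * Fintype.card κ * (b u * b z) +
      quad e f (fun x v w => Df x v w) u z := by
  unfold quad
  rw [tr_smul hB hf hK]
  have h1 : ∀ v w, cop e K (DK u w) (DK z v) = B * ((4 * (b u * b z)) * f v w +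
      (2 * b u) * Df z v w + (2 * b z) * Df u v w +
      cop e f (fun x => Df u w x) (fun x => Df z v x)) := by
    intro v w
    rw [cop_smul hB hf hK]
    have h2 : ∀ x w, DK x w = B • (((2 * b x) • (f w : W → ℝ)) + (Df x w : W → ℝ)) := by
      intro x w
      funext y
      rw [hDK]
      simp only [Pi.smul_apply, Pi.add_apply, smul_eq_mul]
    rw [h2, h2, cop_smul_left, cop_smul_right]
    simp only [cop_add_left, cop_smul_left, cop_add_right, cop_smul_right]
    rw [cop_form hf w (f v), cop_form hf w (Df z v), cop_form_right hf v (Df u w)]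
    rw [sf u w v]
    field_simp
    ring
  rw [tr_congr h1, tr_const_mul, tr_add, tr_add, tr_add, tr_const_mul, tr_const_mul,
    tr_const_mul, tr_form hf, h0, h0]
  field_simp
  ring

theorem d2log_eq (hB : B ≠ 0) (hf : Nondeg e f) (hK : ∀ u v, K u v = B * f u v)
    (hDK : ∀ x v w, DK x v w = B * (2 * b x * f v w + Df x v w))
    (hD2K : ∀ x y v w, D2K x y v w = B * ((4 * b x * b y + 2 * b2 x y) * f v w +
      2 * b x * Df y v w + 2 * b y * Df x v w + D2f x y v w))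
    (sf : ∀ x v w, Df x v w = Df x w v)
    (h0 : ∀ x, tr e f (fun v w => Df x v w) = 0)
    (h2 : ∀ x y, tr e f (fun v w => D2f x y v w) = quad e f (fun x v w => Df x v w) x y)
    (u z : V) :
    d2log e K DK D2K u z = Fintype.card κ * b2 u z := by
  unfold d2log
  rw [quad_eq hB hf hK hDK sf h0, tr_smul hB hf hK, tr_congr (hD2K u z), tr_const_mul, tr_add,
    tr_add, tr_add, tr_const_mul, tr_const_mul, tr_const_mul, tr_form hf, h0, h0, h2]
  field_simp
  ring

end

section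

variable {V : Type*} [AddCommGroup V] [Module ℝ V]

/-- The derivative of a conformally changed metric. -/
def cD (A : ℝ) (h : Bil V) (D : V →ₗ[ℝ] Bil V) (a : V →ₗ[ℝ] ℝ) : V →ₗ[ℝ] Bil V :=
  A • ((2 : ℝ) • a.smulRight h + D)

theorem cD_apply (A : ℝ) (h : Bil V) (D : V →ₗ[ℝ] Bil V) (a : V →ₗ[ℝ] ℝ) (u v w : V) :
    cD A h D a u v w = A * (2 * a u * h v w + D u v w) := by
  simp only [cD, LinearMap.smul_apply, LinearMap.add_apply, LinearMap.smulRight_apply,
    smul_eq_mul]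
  ring

/-- The second derivative of a conformally changed metric. -/
def cD2 (A : ℝ) (h : Bil V) (D : V →ₗ[ℝ] Bil V) (D2 : V →ₗ[ℝ] V →ₗ[ℝ] Bil V)
    (a : V →ₗ[ℝ] ℝ) (a2 : Bil V) : V →ₗ[ℝ] V →ₗ[ℝ] Bil V :=
  LinearMap.mk₂ ℝ (fun u v => A • ((4 * a u * a v + 2 * a2 u v) • h + (2 * a u) • D v +
    (2 * a v) • D u + D2 u v))
    (fun u u' v => by
      ext x y
      simp only [map_add, LinearMap.add_apply, LinearMap.smul_apply, smul_eq_mul]
      ring)
    (fun c u v => by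
      ext x y
      simp only [map_smul, LinearMap.add_apply, LinearMap.smul_apply, smul_eq_mul]
      ring)
    (fun u v v' => by
      ext x y
      simp only [map_add, LinearMap.add_apply, LinearMap.smul_apply, smul_eq_mul]
      ring)
    (fun c u v => by
      ext x y
      simp only [map_smul, LinearMap.add_apply, LinearMap.smul_apply, smul_eq_mul]
      ring)

theorem cD2_apply (A : ℝ) (h : Bil V) (D : V →ₗ[ℝ] Bil V) (D2 : V →ₗ[ℝ] V →ₗ[ℝ] Bil V)
    (a : V →ₗ[ℝ] ℝ) (a2 : Bil V) (u v w z : V) :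
    cD2 A h D D2 a a2 u v w z = A * ((4 * a u * a v + 2 * a2 u v) * h w z +
      2 * a u * D v w z + 2 * a v * D u w z + D2 u v w z) := by
  simp only [cD2, LinearMap.mk₂_apply, LinearMap.add_apply, LinearMap.smul_apply, smul_eq_mul]

end

section

variable {V₁ V₂ : Type*} [AddCommGroup V₁] [Module ℝ V₁] [AddCommGroup V₂] [Module ℝ V₂]
  {ι₁ ι₂ : Type*} [Fintype ι₁] [DecidableEq ι₁] [Fintype ι₂] [DecidableEq ι₂]

/-- The jets of the metric `A h + B f`. -/
structure Tw (e₁ : Basis ι₁ ℝ V₁) (e₂ : Basis ι₂ ℝ V₂) (h : Bil V₁) (f : Bil V₂)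
    (g : Bil (V₁ × V₂)) (D : (V₁ × V₂) →ₗ[ℝ] Bil (V₁ × V₂))
    (D2 : (V₁ × V₂) →ₗ[ℝ] (V₁ × V₂) →ₗ[ℝ] Bil (V₁ × V₂)) (A B : ℝ)
    (a b : (V₁ × V₂) →ₗ[ℝ] ℝ) (a2 b2 : Bil (V₁ × V₂))
    (Dh : (V₁ × V₂) →ₗ[ℝ] Bil V₁) (D2h : (V₁ × V₂) →ₗ[ℝ] (V₁ × V₂) →ₗ[ℝ] Bil V₁)
    (Df : (V₁ × V₂) →ₗ[ℝ] Bil V₂) (D2f : (V₁ × V₂) →ₗ[ℝ] (V₁ × V₂) →ₗ[ℝ] Bil V₂) : Prop where
  hA : 0 < A
  hB : 0 < B
  hh : Nondeg e₁ h
  hf : Nondeg e₂ f
  hg : ∀ u v, g u v = A * h u.1 v.1 + B * f u.2 v.2
  hD : ∀ u v w, D u v w = A * (2 * a u * h v.1 w.1 + Dh u v.1 w.1) +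
    B * (2 * b u * f v.2 w.2 + Df u v.2 w.2)
  hD2 : ∀ u v w z, D2 u v w z =
    A * ((4 * a u * a v + 2 * a2 u v) * h w.1 z.1 + 2 * a u * Dh v w.1 z.1 +
      2 * a v * Dh u w.1 z.1 + D2h u v w.1 z.1) +
    B * ((4 * b u * b v + 2 * b2 u v) * f w.2 z.2 + 2 * b u * Df v w.2 z.2 +
      2 * b v * Df u w.2 z.2 + D2f u v w.2 z.2)
  sa : ∀ u v, a2 u v = a2 v u
  sb : ∀ u v, b2 u v = b2 v u
  sh : ∀ u v w, Dh u v w = Dh u w v
  sf : ∀ u v w, Df u v w = Df u w v
  s2h : ∀ u v w z, D2h u v w z = D2h u v z w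
  s2f : ∀ u v w z, D2f u v w z = D2f u v z w
  th : ∀ y : V₂, tr e₁ h (fun v w => Dh (0, y) v w) = 0
  tf : ∀ x : V₁, tr e₂ f (fun v w => Df (x, 0) v w) = 0
  t2h : ∀ y y' : V₂, tr e₁ h (fun v w => D2h (0, y) (0, y') v w) =
    quad e₁ h (fun (x : V₂) v w => Dh (0, x) v w) y y'
  t2f : ∀ x x' : V₁, tr e₂ f (fun v w => D2f (x, 0) (x', 0) v w) =
    quad e₂ f (fun (x : V₁) v w => Df (x, 0) v w) x x'

variable {e₁ : Basis ι₁ ℝ V₁} {e₂ : Basis ι₂ ℝ V₂} {h : Bil V₁} {f : Bil V₂}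
  {g : Bil (V₁ × V₂)} {D : (V₁ × V₂) →ₗ[ℝ] Bil (V₁ × V₂)}
  {D2 : (V₁ × V₂) →ₗ[ℝ] (V₁ × V₂) →ₗ[ℝ] Bil (V₁ × V₂)} {A B : ℝ}
  {a b : (V₁ × V₂) →ₗ[ℝ] ℝ} {a2 b2 : Bil (V₁ × V₂)}
  {Dh : (V₁ × V₂) →ₗ[ℝ] Bil V₁} {D2h : (V₁ × V₂) →ₗ[ℝ] (V₁ × V₂) →ₗ[ℝ] Bil V₁}
  {Df : (V₁ × V₂) →ₗ[ℝ] Bil V₂} {D2f : (V₁ × V₂) →ₗ[ℝ] (V₁ × V₂) →ₗ[ℝ] Bil V₂}

/-- Restriction of a linear map to the first factor. -/
abbrev r1 {X : Type*} [AddCommMonoid X] [Module ℝ X] (L : (V₁ × V₂) →ₗ[ℝ] X) : V₁ →ₗ[ℝ] X :=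
  L.comp (LinearMap.inl ℝ V₁ V₂)

/-- Restriction of a linear map to the second factor. -/
abbrev r2 {X : Type*} [AddCommMonoid X] [Module ℝ X] (L : (V₁ × V₂) →ₗ[ℝ] X) : V₂ →ₗ[ℝ] X :=
  L.comp (LinearMap.inr ℝ V₁ V₂)

/-- Restriction of a bilinear map to the first factor. -/
abbrev r11 {X : Type*} [AddCommMonoid X] [Module ℝ X]
    (L : (V₁ × V₂) →ₗ[ℝ] (V₁ × V₂) →ₗ[ℝ] X) : V₁ →ₗ[ℝ] V₁ →ₗ[ℝ] X :=
  L.compl₁₂ (LinearMap.inl ℝ V₁ V₂) (LinearMap.inl ℝ V₁ V₂)

/-- Restriction of a bilinear map to the second factor. -/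
abbrev r22 {X : Type*} [AddCommMonoid X] [Module ℝ X]
    (L : (V₁ × V₂) →ₗ[ℝ] (V₁ × V₂) →ₗ[ℝ] X) : V₂ →ₗ[ℝ] V₂ →ₗ[ℝ] X :=
  L.compl₁₂ (LinearMap.inr ℝ V₁ V₂) (LinearMap.inr ℝ V₁ V₂)

namespace Tw

variable (T : Tw e₁ e₂ h f g D D2 A B a b a2 b2 Dh D2h Df D2f)

include T

theorem scal_twist : scal (e₁.prod e₂) g D D2 =
    A⁻¹ * (scal e₁ h (r1 Dh) (r11 D2h) -
      2 * (Fintype.card ι₁ - 1) * lap e₁ h (r1 Dh) (r1 a) (r11 a2) -
      (Fintype.card ι₁ - 1) * (Fintype.card ι₁ - 2) * cop e₁ h (r1 a) (r1 a) -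
      2 * Fintype.card ι₂ * (lap e₁ h (r1 Dh) (r1 b) (r11 b2) +
        (Fintype.card ι₁ - 2) * cop e₁ h (r1 a) (r1 b)) -
      Fintype.card ι₂ * (Fintype.card ι₂ + 1) * cop e₁ h (r1 b) (r1 b) -
      (1 / 4) * tr e₁ h (fun u z => quad e₂ f (fun (x : V₁) v w => Df (x, 0) v w) u z)) +
    B⁻¹ * (scal e₂ f (r2 Df) (r22 D2f) -
      2 * (Fintype.card ι₂ - 1) * lap e₂ f (r2 Df) (r2 b) (r22 b2) -
      (Fintype.card ι₂ - 1) * (Fintype.card ι₂ - 2) * cop e₂ f (r2 b) (r2 b) -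
      2 * Fintype.card ι₁ * (lap e₂ f (r2 Df) (r2 a) (r22 a2) +
        (Fintype.card ι₂ - 2) * cop e₂ f (r2 b) (r2 a)) -
      Fintype.card ι₁ * (Fintype.card ι₁ + 1) * cop e₂ f (r2 a) (r2 a) -
      (1 / 4) * tr e₂ f (fun u z => quad e₁ h (fun (x : V₂) v w => Dh (0, x) v w) u z)) := by
  have hA : A ≠ 0 := T.hA.ne'
  have hB : B ≠ 0 := T.hB.ne'
  have hh := T.hh
  have hf := T.hf
  set H : Bil V₁ := A • h with hHd
  set K : Bil V₂ := B • f with hKd
  have hH : ∀ u v, H u v = A * h u v := fun u v => rfl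
  have hK : ∀ u v, K u v = B * f u v := fun u v => rfl
  have CH : Cnf e₁ h H A (r1 Dh) (cD A h (r1 Dh) (r1 a)) (r11 D2h)
      (cD2 A h (r1 Dh) (r11 D2h) (r1 a) (r11 a2)) (r1 a) (r11 a2) :=
    { hA := hA
      hh := hh
      sD := fun u v w => T.sh _ _ _
      sa := fun u v => T.sa _ _
      hH := hH
      hDH := cD_apply _ _ _ _
      hD2H := cD2_apply _ _ _ _ _ _ }
  have CK : Cnf e₂ f K B (r2 Df) (cD B f (r2 Df) (r2 b)) (r22 D2f)
      (cD2 B f (r2 Df) (r22 D2f) (r2 b) (r22 b2)) (r2 b) (r22 b2) :=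
    { hA := hB
      hh := hf
      sD := fun u v w => T.sf _ _ _
      sa := fun u v => T.sb _ _
      hH := hK
      hDH := cD_apply _ _ _ _
      hD2H := cD2_apply _ _ _ _ _ _ }
  have hBlk : Blk e₁ e₂ H K g D D2
      (fun u v w => A * (2 * a u * h v w + Dh u v w))
      (fun u v w => B * (2 * b u * f v w + Df u v w))
      (fun u v w z => A * ((4 * a u * a v + 2 * a2 u v) * h w z + 2 * a u * Dh v w z +
        2 * a v * Dh u w z + D2h u v w z))
      (fun u v w z => B * ((4 * b u * b v + 2 * b2 u v) * f w z + 2 * b u * Df v w z +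
        2 * b v * Df u w z + D2f u v w z))
      (cD A h (r1 Dh) (r1 a)) (cD2 A h (r1 Dh) (r11 D2h) (r1 a) (r11 a2))
      (cD B f (r2 Df) (r2 b)) (cD2 B f (r2 Df) (r22 D2f) (r2 b) (r22 b2)) :=
    { hH := nondeg_smul hA hh hH
      hK := nondeg_smul hB hf hK
      hg := T.hg
      hD := T.hD
      hD2 := T.hD2
      hdH := fun u v w => cD_apply _ _ _ _ _ _ _
      hd2H := fun u v w z => cD2_apply _ _ _ _ _ _ _ _ _ _
      hdK := fun u v w => cD_apply _ _ _ _ _ _ _
      hd2K := fun u v w z => cD2_apply _ _ _ _ _ _ _ _ _ _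
      sH := fun u v w => by rw [hh.symm v w, T.sh]
      sK := fun u v w => by rw [hf.symm v w, T.sf]
      zH := fun u v => by simp
      zK := fun u v => by simp
      zH2 := fun u v w => by simp
      zK2 := fun u v w => by simp
      s2H := fun u v w z => by rw [hh.symm w z, T.sh v w z, T.sh u w z, T.s2h]
      s2K := fun u v w z => by rw [hf.symm w z, T.sf v w z, T.sf u w z, T.s2f] }
  -- the logarithms of the volume densities
  have kl : ∀ x : V₁, dlog e₂ K (fun (x : V₁) v w => B * (2 * b (x, 0) * f v w +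
      Df (x, 0) v w)) x = Fintype.card ι₂ * b (x, 0) :=
    dlog_eq (b := fun x : V₁ => b (x, 0)) (Df := fun x : V₁ => Df (x, 0)) hB hf hK
      (fun x v w => rfl) T.tf
  have hl : ∀ x : V₂, dlog e₁ H (fun (x : V₂) v w => A * (2 * a (0, x) * h v w +
      Dh (0, x) v w)) x = Fintype.card ι₁ * a (0, x) :=
    dlog_eq (b := fun x : V₂ => a (0, x)) (Df := fun x : V₂ => Dh (0, x)) hA hh hH
      (fun x v w => rfl) T.th
  have kq : ∀ u z : V₁, quad e₂ K (fun (x : V₁) v w => B * (2 * b (x, 0) * f v w +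
      Df (x, 0) v w)) u z = 4 * Fintype.card ι₂ * (b (u, 0) * b (z, 0)) +
      quad e₂ f (fun (x : V₁) v w => Df (x, 0) v w) u z :=
    quad_eq (b := fun x : V₁ => b (x, 0)) (Df := fun x : V₁ => Df (x, 0)) hB hf hK
      (fun x v w => rfl) (fun x v w => T.sf _ _ _) T.tf
  have hq : ∀ u z : V₂, quad e₁ H (fun (x : V₂) v w => A * (2 * a (0, x) * h v w +
      Dh (0, x) v w)) u z = 4 * Fintype.card ι₁ * (a (0, u) * a (0, z)) +
      quad e₁ h (fun (x : V₂) v w => Dh (0, x) v w) u z :=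
    quad_eq (b := fun x : V₂ => a (0, x)) (Df := fun x : V₂ => Dh (0, x)) hA hh hH
      (fun x v w => rfl) (fun x v w => T.sh _ _ _) T.th
  have k2 : ∀ u z : V₁, d2log e₂ K (fun (x : V₁) v w => B * (2 * b (x, 0) * f v w +
      Df (x, 0) v w)) (fun (x y : V₁) w z => B * ((4 * b (x, 0) * b (y, 0) +
        2 * b2 (x, 0) (y, 0)) * f w z + 2 * b (x, 0) * Df (y, 0) w z +
        2 * b (y, 0) * Df (x, 0) w z + D2f (x, 0) (y, 0) w z)) u z =
      Fintype.card ι₂ * b2 (u, 0) (z, 0) :=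
    d2log_eq (b := fun x : V₁ => b (x, 0)) (Df := fun x : V₁ => Df (x, 0))
      (b2 := fun x y : V₁ => b2 (x, 0) (y, 0)) (D2f := fun x y : V₁ => D2f (x, 0) (y, 0))
      hB hf hK (fun x v w => rfl) (fun x y v w => rfl) (fun x v w => T.sf _ _ _) T.tf T.t2f
  have h2 : ∀ u z : V₂, d2log e₁ H (fun (x : V₂) v w => A * (2 * a (0, x) * h v w +
      Dh (0, x) v w)) (fun (x y : V₂) w z => A * ((4 * a (0, x) * a (0, y) +
        2 * a2 (0, x) (0, y)) * h w z + 2 * a (0, x) * Dh (0, y) w z +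
        2 * a (0, y) * Dh (0, x) w z + D2h (0, x) (0, y) w z)) u z =
      Fintype.card ι₁ * a2 (0, u) (0, z) :=
    d2log_eq (b := fun x : V₂ => a (0, x)) (Df := fun x : V₂ => Dh (0, x))
      (b2 := fun x y : V₂ => a2 (0, x) (0, y)) (D2f := fun x y : V₂ => D2h (0, x) (0, y))
      hA hh hH (fun x v w => rfl) (fun x y v w => rfl) (fun x v w => T.sh _ _ _) T.th T.t2h
  rw [scal_block hBlk, CH.scal_eq, CK.scal_eq]
  simp only [funext kl, funext hl, kq, hq, k2, h2]
  have l1 : tr e₁ H (fun u z => Fintype.card ι₂ * b2 (u, 0) (z, 0) -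
      cop e₁ H (chr (cD A h (r1 Dh) (r1 a)) u z) fun x => Fintype.card ι₂ * b (x, 0)) =
      Fintype.card ι₂ * (A⁻¹ * (lap e₁ h (r1 Dh) (r1 b) (r11 b2) +
        (Fintype.card ι₁ - 2) * cop e₁ h (r1 a) (r1 b))) := by
    rw [← CH.lap_eq]
    unfold lap
    rw [← tr_const_mul]
    refine tr_congr fun u z => ?_
    rw [cop_mul_right]
    simp only [LinearMap.compl₁₂_apply, LinearMap.inl_apply]
    rw [mul_sub]
    rfl
  have l2 : tr e₂ K (fun u z => Fintype.card ι₁ * a2 (0, u) (0, z) -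
      cop e₂ K (chr (cD B f (r2 Df) (r2 b)) u z) fun x => Fintype.card ι₁ * a (0, x)) =
      Fintype.card ι₁ * (B⁻¹ * (lap e₂ f (r2 Df) (r2 a) (r22 a2) +
        (Fintype.card ι₂ - 2) * cop e₂ f (r2 b) (r2 a))) := by
    rw [← CK.lap_eq]
    unfold lap
    rw [← tr_const_mul]
    refine tr_congr fun u z => ?_
    rw [cop_mul_right]
    simp only [LinearMap.compl₁₂_apply, LinearMap.inr_apply]
    rw [mul_sub]
    rfl
  have m1 : cop e₁ H (fun x => Fintype.card ι₂ * b (x, 0)) (fun x => Fintype.card ι₂ * b (x, 0)) =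
      A⁻¹ * (Fintype.card ι₂ * (Fintype.card ι₂ * cop e₁ h (r1 b) (r1 b))) := by
    rw [cop_smul hA hh hH, cop_mul_left, cop_mul_right]
    rfl
  have m2 : cop e₂ K (fun x => Fintype.card ι₁ * a (0, x)) (fun x => Fintype.card ι₁ * a (0, x)) =
      B⁻¹ * (Fintype.card ι₁ * (Fintype.card ι₁ * cop e₂ f (r2 a) (r2 a))) := by
    rw [cop_smul hB hf hK, cop_mul_left, cop_mul_right]
    rfl
  have n1 : tr e₁ H (fun u z => 4 * Fintype.card ι₂ * (b (u, 0) * b (z, 0)) +
      quad e₂ f (fun (x : V₁) v w => Df (x, 0) v w) u z) =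
      A⁻¹ * (4 * Fintype.card ι₂ * cop e₁ h (r1 b) (r1 b) +
        tr e₁ h (fun u z => quad e₂ f (fun (x : V₁) v w => Df (x, 0) v w) u z)) := by
    rw [tr_smul hA hh hH, tr_add, tr_const_mul]
    rfl
  have n2 : tr e₂ K (fun u z => 4 * Fintype.card ι₁ * (a (0, u) * a (0, z)) +
      quad e₁ h (fun (x : V₂) v w => Dh (0, x) v w) u z) =
      B⁻¹ * (4 * Fintype.card ι₁ * cop e₂ f (r2 a) (r2 a) +
        tr e₂ f (fun u z => quad e₁ h (fun (x : V₂) v w => Dh (0, x) v w) u z)) := by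
    rw [tr_smul hB hf hK, tr_add, tr_const_mul]
    rfl
  rw [l1, l2, m1, m2, n1, n2]
  ring

end Tw

end

end Pool.Agent.Lib.MP_df705a_gt.Twist.Alg
end
end

section

/-!
Bilinear forms and jets given by coefficients.
-/

noncomputable section

set_option linter.unusedSectionVars false
set_option linter.unusedSimpArgs false

namespace Pool.Agent.Lib.MP_df705a_gt.Twist.Alg

open Module

section

variable {V : Type*} [AddCommGroup V] [Module ℝ V] {ι : Type*} [Fintype ι]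
  [DecidableEq ι] (b : Basis ι ℝ V) {X : Type*} [AddCommGroup X] [Module ℝ X]

/-- The form `x_i y_j`. -/
def cc (i j : ι) : Bil V := (LinearMap.mul ℝ ℝ).compl₁₂ (b.coord i) (b.coord j)

theorem cc_apply (i j : ι) (u v : V) : cc b i j u v = b.repr u i * b.repr v j := by
  simp [cc]

/-- The bilinear form with given coefficients. -/
def mkB (M : ι → ι → ℝ) : Bil V := ∑ i, ∑ j, M i j • cc b i j

theorem mkB_apply (M : ι → ι → ℝ) (u v : V) :
    mkB b M u v = ∑ i, ∑ j, M i j * (b.repr u i * b.repr v j) := by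
  simp only [mkB, LinearMap.sum_apply, LinearMap.smul_apply, cc_apply, smul_eq_mul]

theorem mkB_basis (M : ι → ι → ℝ) (i j : ι) : mkB b M (b i) (b j) = M i j := by
  rw [mkB_apply]
  simp [Finsupp.single_apply]

theorem gram_mkB (M : Matrix ι ι ℝ) : gram b (mkB b fun i j => M i j) = M := by
  ext i j
  exact mkB_basis b (fun i j => M i j) i j

/-- The derivative of a form, from the derivatives of the coefficients. -/
def mkD (L : ι → ι → X →ₗ[ℝ] ℝ) : X →ₗ[ℝ] Bil V := ∑ i, ∑ j, (L i j).smulRight (cc b i j)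

theorem mkD_apply (L : ι → ι → X →ₗ[ℝ] ℝ) (x : X) (u v : V) :
    mkD b L x u v = ∑ i, ∑ j, L i j x * (b.repr u i * b.repr v j) := by
  simp only [mkD, LinearMap.sum_apply, LinearMap.smul_apply, LinearMap.smulRight_apply, cc_apply,
    smul_eq_mul]

theorem mkD_basis (L : ι → ι → X →ₗ[ℝ] ℝ) (x : X) (i j : ι) :
    mkD b L x (b i) (b j) = L i j x := by
  rw [mkD_apply]
  simp [Finsupp.single_apply]

/-- The second derivative of a form, from the second derivatives of the coefficients. -/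
def mkD2 (L : ι → ι → X →ₗ[ℝ] X →ₗ[ℝ] ℝ) : X →ₗ[ℝ] X →ₗ[ℝ] Bil V :=
  ∑ i, ∑ j, (L i j).compr₂ (LinearMap.toSpanSingleton ℝ (Bil V) (cc b i j))

theorem mkD2_apply (L : ι → ι → X →ₗ[ℝ] X →ₗ[ℝ] ℝ) (x y : X) (u v : V) :
    mkD2 b L x y u v = ∑ i, ∑ j, L i j x y * (b.repr u i * b.repr v j) := by
  simp only [mkD2, LinearMap.sum_apply, LinearMap.smul_apply, LinearMap.compr₂_apply,
    LinearMap.toSpanSingleton_apply, cc_apply, smul_eq_mul]

theorem mkD2_basis (L : ι → ι → X →ₗ[ℝ] X →ₗ[ℝ] ℝ) (x y : X) (i j : ι) :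
    mkD2 b L x y (b i) (b j) = L i j x y := by
  rw [mkD2_apply]
  simp [Finsupp.single_apply]

theorem mkB_symm {M : ι → ι → ℝ} (hM : ∀ i j, M i j = M j i) (u v : V) :
    mkB b M u v = mkB b M v u := by
  rw [mkB_apply, mkB_apply, Finset.sum_comm]
  refine Finset.sum_congr rfl fun i _ => Finset.sum_congr rfl fun j _ => ?_
  rw [hM i j]
  ring

theorem mkD_symm {L : ι → ι → X →ₗ[ℝ] ℝ} (hL : ∀ i j, L i j = L j i) (x : X) (u v : V) :
    mkD b L x u v = mkD b L x v u := by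
  rw [mkD_apply, mkD_apply, Finset.sum_comm]
  refine Finset.sum_congr rfl fun i _ => Finset.sum_congr rfl fun j _ => ?_
  rw [hL i j]
  ring

theorem mkD2_symm {L : ι → ι → X →ₗ[ℝ] X →ₗ[ℝ] ℝ} (hL : ∀ i j, L i j = L j i) (x y : X)
    (u v : V) : mkD2 b L x y u v = mkD2 b L x y v u := by
  rw [mkD2_apply, mkD2_apply, Finset.sum_comm]
  refine Finset.sum_congr rfl fun i _ => Finset.sum_congr rfl fun j _ => ?_
  rw [hL i j]
  ring

end

section

/-! ### Basis independence -/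

variable {V : Type*} [AddCommGroup V] [Module ℝ V] {ι κ : Type*} [Fintype ι]
  [DecidableEq ι] [Fintype κ] [DecidableEq κ] {e : Basis ι ℝ V} {f : Basis κ ℝ V} {h : Bil V}
  (D : V →ₗ[ℝ] Bil V) (D2 : V →ₗ[ℝ] V →ₗ[ℝ] Bil V)

theorem chr_add_left (u u' v : V) : (chr D (u + u') v : V → ℝ) = chr D u v + chr D u' v := by
  funext w
  simp only [Pi.add_apply, chr_apply, map_add, LinearMap.add_apply]
  ring

theorem chr_add_right (u v v' : V) : (chr D u (v + v') : V → ℝ) = chr D u v + chr D u v' := by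
  funext w
  simp only [Pi.add_apply, chr_apply, map_add, LinearMap.add_apply]
  ring

theorem chr_smul_left (c : ℝ) (u v : V) : (chr D (c • u) v : V → ℝ) = c • chr D u v := by
  funext w
  simp only [Pi.smul_apply, chr_apply, map_smul, LinearMap.smul_apply, smul_eq_mul]
  ring

theorem chr_smul_right (c : ℝ) (u v : V) : (chr D u (c • v) : V → ℝ) = c • chr D u v := by
  funext w
  simp only [Pi.smul_apply, chr_apply, map_smul, LinearMap.smul_apply, smul_eq_mul]
  ring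

/-- The curvature as a bilinear form in the middle variables. -/
def curvMid (e : Basis ι ℝ V) (h : Bil V) (u z : V) : V →ₗ[ℝ] V →ₗ[ℝ] ℝ :=
  LinearMap.mk₂ ℝ (fun v w => curv e h D D2 u v w z)
    (fun v v' w => by
      simp only [curv, chr_add_left, chr_add_right, cop_add_left, cop_add_right, chr_apply,
        map_add, LinearMap.add_apply]
      ring)
    (fun c v w => by
      simp only [curv, chr_smul_left, chr_smul_right, cop_smul_left, cop_smul_right, chr_apply,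
        map_smul, LinearMap.smul_apply, smul_eq_mul]
      ring)
    (fun v w w' => by
      simp only [curv, chr_add_left, chr_add_right, cop_add_left, cop_add_right, chr_apply,
        map_add, LinearMap.add_apply]
      ring)
    (fun c v w => by
      simp only [curv, chr_smul_left, chr_smul_right, cop_smul_left, cop_smul_right, chr_apply,
        map_smul, LinearMap.smul_apply, smul_eq_mul]
      ring)

/-- The Ricci form. -/
def ric (e : Basis ι ℝ V) (h : Bil V) : V →ₗ[ℝ] V →ₗ[ℝ] ℝ :=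
  LinearMap.mk₂ ℝ (fun u z => tr e h fun v w => curv e h D D2 u v w z)
    (fun v v' w => by
      rw [← tr_add]
      refine tr_congr fun x y => ?_
      simp only [curv, chr_add_left, chr_add_right, cop_add_left, cop_add_right, chr_apply,
        map_add, LinearMap.add_apply]
      ring)
    (fun c v w => by
      rw [smul_eq_mul, ← tr_const_mul]
      refine tr_congr fun x y => ?_
      simp only [curv, chr_smul_left, chr_smul_right, cop_smul_left, cop_smul_right, chr_apply,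
        map_smul, LinearMap.smul_apply, smul_eq_mul]
      ring)
    (fun v w w' => by
      rw [← tr_add]
      refine tr_congr fun x y => ?_
      simp only [curv, chr_add_left, chr_add_right, cop_add_left, cop_add_right, chr_apply,
        map_add, LinearMap.add_apply]
      ring)
    (fun c v w => by
      rw [smul_eq_mul, ← tr_const_mul]
      refine tr_congr fun x y => ?_
      simp only [curv, chr_smul_left, chr_smul_right, cop_smul_left, cop_smul_right, chr_apply,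
        map_smul, LinearMap.smul_apply, smul_eq_mul]
      ring)

theorem scal_basis (he : Nondeg e h) (hf : Nondeg f h) : scal e h D D2 = scal f h D D2 := by
  have h1 : ∀ u z, tr e h (fun v w => curv e h D D2 u v w z) =
      tr f h (fun v w => curv f h D D2 u v w z) := by
    intro u z
    have h2 := tr_basis he hf (curvMid D D2 e h u z)
    have h3 : ∀ v w, curvMid D D2 e h u z v w = curv e h D D2 u v w z := fun v w => rfl
    have h4 : ∀ v w, curv e h D D2 u v w z = curv f h D D2 u v w z := by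
      intro v w
      unfold curv
      rw [cop_basis he hf, cop_basis he hf]
    simp only [h3] at h2
    rw [h2]
    exact tr_congr h4
  have h5 := tr_basis he hf (ric D D2 f h)
  have h6 : ∀ v w, ric D D2 f h v w = tr f h fun x y => curv f h D D2 v x y w := fun v w => rfl
  simp only [h6] at h5
  unfold scal
  rw [tr_congr h1, h5]

end

end Pool.Agent.Lib.MP_df705a_gt.Twist.Alg
end
end
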