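import Mathlib
import Pool.Agent.Lib.MP_df705a_gt.Mg.G001
import Pool.Agent.Lib.MP_df705a_gt.Mg.G054

section

/-!
# Ricci pinching, part A, AO2: integration on spaces of continuous curves
-/

open scoped ContDiff Topology
open Set Filter MeasureTheory

noncomputable section

set_option linter.unusedSectionVars false

namespace Pool.Agent.Lib.MP_df705a_gt.Pin.A

/-- Integration as a continuous linear operator.
Proof: `LinearMap.mkContinuous` of `u ↦ (t ↦ ∫ s in 0..t, u.IccExtend zero_le_one s)`; the function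
of `t` is continuous (`intervalIntegral.continuous_primitive` or
`continuous_primitive`/`Continuous.integral_hasStrictDerivAt`), it is linear in `u`
(`intervalIntegral.integral_add`, the integrands are continuous), and its norm is at most
`∫ s in 0..t, ‖u‖ ≤ ‖u‖` (`intervalIntegral.norm_integral_le_of_norm_le_const`). -/
theorem exists_prim (V : Type*) [NormedAddCommGroup V] [NormedSpace ℝ V] [CompleteSpace V] :
    ∃ J : C(Icc (0 : ℝ) 1, V) →L[ℝ] C(Icc (0 : ℝ) 1, V), ‖J‖ ≤ 1 ∧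
      ∀ (u : C(Icc (0 : ℝ) 1, V)) (t : Icc (0 : ℝ) 1),
        J u t = ∫ s in (0 : ℝ)..t, u.IccExtend zero_le_one s := by
  have hint : ∀ (u : C(Icc (0 : ℝ) 1, V)) (a b : ℝ),
      IntervalIntegrable (fun s => u.IccExtend zero_le_one s) volume a b := fun u a b =>
    (u.IccExtend zero_le_one).continuous.intervalIntegrable a b
  let L : C(Icc (0 : ℝ) 1, V) →ₗ[ℝ] C(Icc (0 : ℝ) 1, V) :=
    { toFun := fun u => ⟨fun t => ∫ s in (0 : ℝ)..t, u.IccExtend zero_le_one s,
        (intervalIntegral.continuous_primitive (hint u) 0).comp continuous_subtype_val⟩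
      map_add' := fun u v => by
        ext t
        change ∫ s in (0 : ℝ)..t, (u.IccExtend zero_le_one s + v.IccExtend zero_le_one s) =
          (∫ s in (0 : ℝ)..t, u.IccExtend zero_le_one s) +
            ∫ s in (0 : ℝ)..t, v.IccExtend zero_le_one s
        exact intervalIntegral.integral_add (hint u _ _) (hint v _ _)
      map_smul' := fun c u => by
        ext t
        change ∫ s in (0 : ℝ)..t, (c • u.IccExtend zero_le_one s) =
          c • ∫ s in (0 : ℝ)..t, u.IccExtend zero_le_one s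
        exact intervalIntegral.integral_smul _ _ }
  have hL : ∀ u, ‖L u‖ ≤ 1 * ‖u‖ := by
    intro u
    rw [one_mul, ContinuousMap.norm_le _ (norm_nonneg _)]
    intro t
    change ‖∫ s in (0 : ℝ)..t, u.IccExtend zero_le_one s‖ ≤ ‖u‖
    refine (intervalIntegral.norm_integral_le_of_norm_le_const (C := ‖u‖)
      fun s _ => u.norm_coe_le_norm _).trans ?_
    rw [sub_zero, abs_of_nonneg t.2.1]
    calc ‖u‖ * (t : ℝ) ≤ ‖u‖ * 1 := mul_le_mul_of_nonneg_left t.2.2 (norm_nonneg _)
      _ = ‖u‖ := mul_one _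
  exact ⟨L.mkContinuous 1 hL, L.mkContinuous_norm_le zero_le_one hL, fun u t => rfl⟩

end Pool.Agent.Lib.MP_df705a_gt.Pin.A
end
end

section

/-!
# Ricci pinching, part A, AD1b: differential inequalities of one variable
-/

open scoped ContDiff Topology
open Set Filter MeasureTheory

noncomputable section

namespace Pool.Agent.Lib.MP_df705a_gt.Pin.A

/-- The bound on the integral of the Ricci curvature along a shortest geodesic, one interval.
Proof: the function `G s = φ s ^ 2 * m s + ∫ x in a..s, φ x ^ 2 * r x - N * ∫ x in a..s, φ' x ^ 2`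
has at `s ∈ [a, b]` the derivative
`2 φ φ' m + φ² m' + φ² r - N φ'² ≤ 2 φ φ' m - φ² m² / N - N φ'² = - (φ m / √N - √N φ')² ≤ 0`, so
`G b ≤ G a` (`antitoneOn_of_deriv_nonpos` on `Icc a b` or `image_le_of_deriv_right_le_deriv_boundary`). -/
theorem index_interval {m m' r φ φ' : ℝ → ℝ} {a b N : ℝ} (hab : a ≤ b) (hN : 0 < N)
    (hm : ∀ s ∈ Icc a b, HasDerivAt m (m' s) s)
    (hle : ∀ s ∈ Icc a b, m' s ≤ -m s ^ 2 / N - r s) (hr : ContinuousOn r (Icc a b))
    (hφ : ∀ s, HasDerivAt φ (φ' s) s) (hφ' : Continuous φ') :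
    φ b ^ 2 * m b - φ a ^ 2 * m a + ∫ s in a..b, φ s ^ 2 * r s ≤ N * ∫ s in a..b, φ' s ^ 2 := by
  obtain ⟨F, hF⟩ : ∃ F : ℝ → ℝ, F = fun x => φ x ^ 2 * r x - N * φ' x ^ 2 := ⟨_, rfl⟩
  have hφc : Continuous φ := continuous_iff_continuousAt.2 fun x => (hφ x).continuousAt
  have c1 : ContinuousOn (fun x => φ x ^ 2 * r x) (Icc a b) :=
    (hφc.pow 2).continuousOn.mul hr
  have c2 : ContinuousOn (fun x => N * φ' x ^ 2) (Icc a b) :=
    (continuous_const.mul (hφ'.pow 2)).continuousOn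
  have cF : ContinuousOn F (Icc a b) := by rw [hF]; exact c1.sub c2
  have i1 : IntervalIntegrable (fun x => φ x ^ 2 * r x) volume a b := by
    apply ContinuousOn.intervalIntegrable
    rwa [uIcc_of_le hab]
  have i2 : IntervalIntegrable (fun x => N * φ' x ^ 2) volume a b := by
    apply ContinuousOn.intervalIntegrable
    rwa [uIcc_of_le hab]
  have iF : IntervalIntegrable F volume a b := by rw [hF]; exact i1.sub i2
  obtain ⟨G, hG⟩ : ∃ G : ℝ → ℝ, G = fun s => φ s ^ 2 * m s + ∫ x in a..s, F x := ⟨_, rfl⟩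
  have hGd : ∀ s ∈ Ioo a b, HasDerivAt G
      ((2 * φ s * φ' s) * m s + φ s ^ 2 * m' s + F s) s := by
    intro s hs
    have hs' : s ∈ Icc a b := Ioo_subset_Icc_self hs
    have h1 : HasDerivAt (fun s => φ s ^ 2) (2 * φ s * φ' s) s := by
      have := (hφ s).pow 2
      have e : ((2 : ℕ) : ℝ) * φ s ^ (2 - 1) * φ' s = 2 * φ s * φ' s := by norm_num
      rw [e] at this
      exact this
    have h2 := h1.mul (hm s hs')
    have h3 : HasDerivAt (fun s => ∫ x in a..s, F x) (F s) s := by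
      apply intervalIntegral.integral_hasDerivAt_right
      · apply iF.mono_set
        rw [uIcc_of_le hs.1.le, uIcc_of_le hab]
        exact Icc_subset_Icc_right hs.2.le
      · exact (cF.mono Ioo_subset_Icc_self).stronglyMeasurableAtFilter isOpen_Ioo s hs
      · exact cF.continuousAt (Icc_mem_nhds hs.1 hs.2)
    rw [hG]
    exact h2.add h3
  have hanti : AntitoneOn G (Icc a b) := by
    apply antitoneOn_of_deriv_nonpos (convex_Icc a b)
    · rw [hG]
      apply ContinuousOn.add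
      · apply ContinuousOn.mul (hφc.pow 2).continuousOn
        intro x hx
        exact (hm x hx).continuousAt.continuousWithinAt
      · have := intervalIntegral.continuousOn_primitive_interval' iF left_mem_uIcc
        rwa [uIcc_of_le hab] at this
    · intro x hx
      rw [interior_Icc] at hx
      exact (hGd x hx).differentiableAt.differentiableWithinAt
    · intro x hx
      rw [interior_Icc] at hx
      rw [(hGd x hx).deriv]
      have h1 := hle x (Ioo_subset_Icc_self hx)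
      have h2 : φ x ^ 2 * m' x ≤ φ x ^ 2 * (-m x ^ 2 / N - r x) :=
        mul_le_mul_of_nonneg_left h1 (by positivity)
      have h3 : 2 * φ x * φ' x * m x + φ x ^ 2 * (-m x ^ 2 / N - r x) +
          (φ x ^ 2 * r x - N * φ' x ^ 2) = -((φ x * m x - N * φ' x) ^ 2 / N) := by
        field_simp
        ring
      have h4 : 0 ≤ (φ x * m x - N * φ' x) ^ 2 / N := by positivity
      rw [hF]
      simp only
      linarith
  have h1 := hanti (left_mem_Icc.2 hab) (right_mem_Icc.2 hab) hab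
  rw [hG] at h1
  simp only [intervalIntegral.integral_same, add_zero] at h1
  have h2 : ∫ x in a..b, F x = (∫ s in a..b, φ s ^ 2 * r s) - N * ∫ s in a..b, φ' s ^ 2 := by
    rw [hF, intervalIntegral.integral_sub i1 i2, intervalIntegral.integral_const_mul]
  rw [h2] at h1
  linarith

end Pool.Agent.Lib.MP_df705a_gt.Pin.A
end
end

section

/-!
# Ricci pinching, part A, AD1c: differential inequalities of one variable
-/

open scoped ContDiff Topology
open Set Filter MeasureTheory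

noncomputable section

namespace Pool.Agent.Lib.MP_df705a_gt.Pin.A

/-- The bound on the integral of the Ricci curvature along a shortest geodesic of length `2 R`.
Proof: for small `ε > 0` apply `index_interval` on `[ε, R/2]` with `φ s = 2 s / R`, on `[R/2, R]`
with `φ = 1`, on `[R, 3R/2]` with `φ s = 3 - 2 s / R`, and add: the boundary terms at `R/2` and
`R` cancel (`φ = 1`), `φ (3R/2) = 0`, and `φ ε ^ 2 * m ε ≤ (2 ε / R)² (N / ε + C) → 0` as `ε → 0`.
So `∫ φ² r ≤ N (4 / R² · R/2 + 4 / R² · R/2) = 4 N / R` up to an error which tends to `0`; add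
`κ ∫ φ² ≤ κ · 5 R / 6 ≤ (5 / 6) / R` and drop the integrals of `φ² (r + κ) ≥ 0` over the outer
intervals. -/
theorem index_bound {m m' r : ℝ → ℝ} {R N κ C : ℝ} (hR : 0 < R) (hN : 0 < N) (hκ : 0 ≤ κ)
    (hκR : κ * R ^ 2 ≤ 1) (hm : ∀ s ∈ Ioo 0 (2 * R), HasDerivAt m (m' s) s)
    (hle : ∀ s ∈ Ioo 0 (2 * R), m' s ≤ -m s ^ 2 / N - r s)
    (hr : ContinuousOn r (Ioo 0 (2 * R))) (hrκ : ∀ s ∈ Ioo 0 (2 * R), -κ ≤ r s)
    (hb : ∀ᶠ s in 𝓝[>] (0 : ℝ), m s ≤ N / s + C) :
    ∫ s in (R / 2)..R, (r s + κ) ≤ (4 * N + 1) / R := by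
  have hsub : ∀ a b : ℝ, 0 < a → b < 2 * R → ∀ s ∈ Icc a b, s ∈ Ioo 0 (2 * R) :=
    fun a b ha hb s hs => ⟨lt_of_lt_of_le ha hs.1, lt_of_le_of_lt hs.2 hb⟩
  have hrc : ∀ a b : ℝ, 0 < a → b < 2 * R → ContinuousOn r (Icc a b) :=
    fun a b ha hb => hr.mono fun s hs => hsub a b ha hb s hs
  -- choose epsilon
  have hev : ∀ᶠ e in 𝓝[>] (0 : ℝ), (2 * e / R) ^ 2 * (N / e + C) ≤ 1 / (6 * R) := by
    have h1 : Continuous (fun e : ℝ => 4 * N * e / R ^ 2 + 4 * C * e ^ 2 / R ^ 2) := by fun_prop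
    have h2 := (h1.tendsto 0).mono_left (nhdsWithin_le_nhds (s := Ioi (0 : ℝ)))
    simp only [mul_zero, zero_div, ne_eq, OfNat.ofNat_ne_zero, not_false_eq_true, zero_pow,
      add_zero] at h2
    have h3 := h2.eventually_lt_const (show (0 : ℝ) < 1 / (6 * R) by positivity)
    filter_upwards [h3, self_mem_nhdsWithin] with e he he0
    have he0' : (0 : ℝ) < e := he0
    have e1 : (2 * e / R) ^ 2 * (N / e + C) = 4 * N * e / R ^ 2 + 4 * C * e ^ 2 / R ^ 2 := by
      field_simp
      ring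
    rw [e1]
    exact he.le
  obtain ⟨e, he1, he2, he3⟩ := (hev.and (hb.and (Ioo_mem_nhdsGT
    (show (0 : ℝ) < R / 2 by positivity)))).exists
  have he0 : 0 < e := he3.1
  have heR : e < R / 2 := he3.2
  -- the three intervals
  have k1 := index_interval (m := m) (m' := m') (r := r) (φ := fun s => 2 * s / R)
    (φ' := fun _ => 2 / R) (a := e) (b := R / 2) (N := N) heR.le hN
    (fun s hs => hm s (hsub _ _ he0 (by linarith) s hs))
    (fun s hs => hle s (hsub _ _ he0 (by linarith) s hs)) (hrc _ _ he0 (by linarith))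
    (fun s => by
      have := ((hasDerivAt_id s).const_mul 2).div_const R
      rw [mul_one] at this
      exact this) continuous_const
  have k2 := index_interval (m := m) (m' := m') (r := r) (φ := fun _ => 1)
    (φ' := fun _ => 0) (a := R / 2) (b := R) (N := N) (by linarith) hN
    (fun s hs => hm s (hsub _ _ (by linarith) (by linarith) s hs))
    (fun s hs => hle s (hsub _ _ (by linarith) (by linarith) s hs))
    (hrc _ _ (by linarith) (by linarith))
    (fun s => hasDerivAt_const s 1) continuous_const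
  have k3 := index_interval (m := m) (m' := m') (r := r) (φ := fun s => 3 - 2 * s / R)
    (φ' := fun _ => -(2 / R)) (a := R) (b := 3 * R / 2) (N := N) (by linarith) hN
    (fun s hs => hm s (hsub _ _ (by linarith) (by linarith) s hs))
    (fun s hs => hle s (hsub _ _ (by linarith) (by linarith) s hs))
    (hrc _ _ (by linarith) (by linarith))
    (fun s => by
      have := (((hasDerivAt_id s).const_mul 2).div_const R).const_sub 3
      rw [mul_one] at this
      exact this) continuous_const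
  have q1 : ∫ s in e..(R / 2), (2 * s / R) ^ 2 ≤ R / 6 := by
    have h1 : ∀ x ∈ uIcc e (R / 2), HasDerivAt (fun x => (R / 6) * (2 * x / R) ^ 3)
        ((2 * x / R) ^ 2) x := by
      intro x _
      have h2 := ((((hasDerivAt_id x).const_mul 2).div_const R).pow 3).const_mul (R / 6)
      have e1 : (2 * x / R) ^ 2 = R / 6 * (((3 : ℕ) : ℝ) * (2 * id x / R) ^ (3 - 1) * (2 * 1 / R)) := by
        simp only [id_eq]
        norm_num
        field_simp
        ring
      rw [e1]
      exact h2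
    have h3 := intervalIntegral.integral_eq_sub_of_hasDerivAt h1 (by
      apply Continuous.intervalIntegrable
      fun_prop)
    rw [h3]
    have h4 : 0 ≤ (R / 6) * (2 * e / R) ^ 3 := by positivity
    have h5 : (R / 6) * (2 * (R / 2) / R) ^ 3 = R / 6 := by
      field_simp
    rw [h5]
    linarith
  have q3 : ∫ s in R..(3 * R / 2), (3 - 2 * s / R) ^ 2 ≤ R / 6 := by
    have h1 : ∀ x ∈ uIcc R (3 * R / 2), HasDerivAt (fun x => -(R / 6) * (3 - 2 * x / R) ^ 3)
        ((3 - 2 * x / R) ^ 2) x := by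
      intro x _
      have h2 := (((((hasDerivAt_id x).const_mul 2).div_const R).const_sub 3).pow 3).const_mul
        (-(R / 6))
      have e1 : (3 - 2 * x / R) ^ 2 =
          -(R / 6) * (((3 : ℕ) : ℝ) * (3 - 2 * id x / R) ^ (3 - 1) * (-(2 * 1 / R))) := by
        simp only [id_eq]
        norm_num
        field_simp
        ring
      rw [e1]
      exact h2
    have h3 := intervalIntegral.integral_eq_sub_of_hasDerivAt h1 (by
      apply Continuous.intervalIntegrable
      fun_prop)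
    rw [h3]
    have h5 : -(R / 6) * (3 - 2 * (3 * R / 2) / R) ^ 3 - -(R / 6) * (3 - 2 * R / R) ^ 3 = R / 6 := by
      field_simp
      norm_num
    rw [h5]
  -- lower bounds
  have low : ∀ (a b : ℝ) (φ : ℝ → ℝ), 0 < a → a ≤ b → b < 2 * R → Continuous φ →
      -(κ * ∫ s in a..b, φ s ^ 2) ≤ ∫ s in a..b, φ s ^ 2 * r s := by
    intro a b φ ha hab hbR hφ
    have h1 : -(κ * ∫ s in a..b, φ s ^ 2) = ∫ s in a..b, φ s ^ 2 * (-κ) := by
      rw [intervalIntegral.integral_mul_const]
      ring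
    rw [h1]
    apply intervalIntegral.integral_mono_on hab
    · apply Continuous.intervalIntegrable
      fun_prop
    · apply ContinuousOn.intervalIntegrable
      rw [uIcc_of_le hab]
      exact (hφ.pow 2).continuousOn.mul (hrc a b ha hbR)
    · intro s hs
      exact mul_le_mul_of_nonneg_left (hrκ s (hsub a b ha hbR s hs)) (by positivity)
  have l1 := low e (R / 2) (fun s => 2 * s / R) he0 heR.le (by linarith) (by fun_prop)
  have l3 := low R (3 * R / 2) (fun s => 3 - 2 * s / R) hR (by linarith) (by linarith)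
    (by fun_prop)
  have hir : IntervalIntegrable r volume (R / 2) R := by
    apply ContinuousOn.intervalIntegrable
    rw [uIcc_of_le (by linarith)]
    exact hrc _ _ (by linarith) (by linarith)
  have hsplit : ∫ s in (R / 2)..R, (r s + κ) = (∫ s in (R / 2)..R, r s) + κ * (R / 2) := by
    rw [intervalIntegral.integral_add hir intervalIntegrable_const,
      intervalIntegral.integral_const, smul_eq_mul]
    ring
  have p1 : N * ∫ _s in e..(R / 2), (2 / R) ^ 2 ≤ 2 * N / R := by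
    rw [intervalIntegral.integral_const, smul_eq_mul]
    have h1 : (R / 2 - e) * (2 / R) ^ 2 ≤ 2 / R := by
      have h2 : (R / 2 - e) * (2 / R) ^ 2 = 2 / R - e * (2 / R) ^ 2 := by
        field_simp
      have h3 : 0 ≤ e * (2 / R) ^ 2 := by positivity
      rw [h2]
      linarith
    calc N * ((R / 2 - e) * (2 / R) ^ 2) ≤ N * (2 / R) := mul_le_mul_of_nonneg_left h1 hN.le
      _ = 2 * N / R := by ring
  have p3 : N * ∫ _s in R..(3 * R / 2), (-(2 / R)) ^ 2 = 2 * N / R := by
    rw [intervalIntegral.integral_const, smul_eq_mul]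
    field_simp
    ring
  simp only [one_pow, one_mul, ne_eq, OfNat.ofNat_ne_zero, not_false_eq_true, zero_pow,
    intervalIntegral.integral_zero, mul_zero] at k2
  have e1 : (2 * (R / 2) / R) = 1 := by field_simp
  have e2 : (3 - 2 * (3 * R / 2) / R) = 0 := by field_simp; norm_num
  have e3 : (3 - 2 * R / R) = 1 := by field_simp; norm_num
  rw [e1] at k1
  rw [e2, e3, p3] at k3
  have he4 : (2 * e / R) ^ 2 * m e ≤ 1 / (6 * R) :=
    (mul_le_mul_of_nonneg_left he2 (by positivity)).trans he1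
  have hκ1 : κ * R ≤ 1 / R := by
    rw [le_div_iff₀ hR]
    calc κ * R * R = κ * R ^ 2 := by ring
      _ ≤ 1 := hκR
  have m1 : κ * ∫ s in e..(R / 2), (2 * s / R) ^ 2 ≤ κ * (R / 6) :=
    mul_le_mul_of_nonneg_left q1 hκ
  have m3 : κ * ∫ s in R..(3 * R / 2), (3 - 2 * s / R) ^ 2 ≤ κ * (R / 6) :=
    mul_le_mul_of_nonneg_left q3 hκ
  rw [hsplit]
  have e5 : (4 * N + 1) / R = 2 * N / R + 2 * N / R + 5 / 6 * (1 / R) + 1 / (6 * R) := by
    field_simp
    ring
  rw [e5]
  have e6 : 5 / 6 * (κ * R) ≤ 5 / 6 * (1 / R) := by linarith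
  linarith

end Pool.Agent.Lib.MP_df705a_gt.Pin.A
end
end

section

/-!
# TASK T8: swelling a locally finite closed cover
-/

open scoped Topology
open Set Metric

noncomputable section

namespace Pool.Agent.Lib.MP_df705a_gt.Pin

/-- Open swelling with the same multiplicity. Proof. For a point `x` the union of the `V i` which do not
contain `x` is closed (`LocallyFinite.isClosed_biUnion` or `LocallyFinite.isClosed_iUnion` of a
subfamily), so there is `r x > 0` such that `ball x (r x)` is disjoint from all `V i` with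
`x ∉ V i`; we may take `r x ≤ δ x` where `δ : X → ℝ` is a given positive function. Put
`O i = ⋃ x ∈ V i, ball x (r x / 2)`. If `y ∈ O i` for all `i` in a finite set `I` (nonempty), choose
`x i ∈ V i` with `dist y (x i) < r (x i) / 2`, and `j ∈ I` with `r (x j)` maximal. Then for `i ∈ I`
`dist (x i) (x j) < r (x j)` and `x i ∈ V i`, so `x j ∈ V i`. Hence `I ⊆ {i | x j ∈ V i}` has at most
`n` elements. As all finite subsets of `{i | y ∈ O i}` have at most `n` elements, so has the set. -/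
theorem exists_swelling {X : Type*} [MetricSpace X] {ι : Type*} {V : ι → Set X}
    (hV : LocallyFinite V) (hc : ∀ i, IsClosed (V i)) {n : ℕ} (hm : ∀ x, {i | x ∈ V i}.encard ≤ n)
    (δ : X → ℝ) (hδ : ∀ x, 0 < δ x) :
    ∃ O : ι → Set X, (∀ i, IsOpen (O i)) ∧ (∀ i, V i ⊆ O i) ∧ (∀ y, {i | y ∈ O i}.encard ≤ n) ∧
      ∀ i, ∀ y ∈ O i, ∃ x ∈ V i, dist y x < δ x := by
  have h1 : ∀ x, ∃ r : ℝ, 0 < r ∧ r ≤ δ x ∧ ∀ i, x ∉ V i → ∀ y, dist y x < r → y ∉ V i := by
    intro x
    have a1 : IsClosed (⋃ i : {i // x ∉ V i}, V i) :=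
      (hV.comp_injective (g := fun i : {i // x ∉ V i} => (i : ι))
        Subtype.val_injective).isClosed_iUnion fun i => hc i
    have a2 : x ∈ (⋃ i : {i // x ∉ V i}, V i)ᶜ := by
      intro hx
      obtain ⟨i, hi⟩ := mem_iUnion.1 hx
      exact i.2 hi
    obtain ⟨r, hr, hb⟩ := Metric.isOpen_iff.1 a1.isOpen_compl x a2
    refine ⟨min r (δ x), lt_min hr (hδ x), min_le_right _ _, fun i hi y hy hyi => ?_⟩
    exact hb (mem_ball.2 (hy.trans_le (min_le_left _ _))) (mem_iUnion.2 ⟨⟨i, hi⟩, hyi⟩)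
  choose r hr hrδ hrV using h1
  refine ⟨fun i => ⋃ x ∈ V i, ball x (r x / 2), fun i => isOpen_biUnion fun x _ => isOpen_ball,
    fun i x hx => mem_biUnion hx (mem_ball_self (by have := hr x; positivity)), ?_, ?_⟩
  · intro y
    by_contra hlt
    have hlt' : (n : ℕ∞) + 1 ≤ {i | y ∈ ⋃ x ∈ V i, ball x (r x / 2)}.encard :=
      Order.add_one_le_of_lt (not_le.1 hlt)
    obtain ⟨t, hts, htn⟩ := exists_subset_encard_eq hlt'
    have htf : t.Finite := by
      apply finite_of_encard_eq_coe (k := n + 1)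
      rw [htn]
      norm_cast
    have hne : t.Nonempty := by
      rw [← encard_pos, htn]
      positivity
    have hex : ∀ i, ∃ x, i ∈ t → x ∈ V i ∧ dist y x < r x / 2 := by
      intro i
      by_cases hi : i ∈ t
      · obtain ⟨x, hx, hyx⟩ := mem_iUnion₂.1 (hts hi)
        exact ⟨x, fun _ => ⟨hx, mem_ball.1 hyx⟩⟩
      · exact ⟨y, fun h => absurd h hi⟩
    choose x hx using hex
    obtain ⟨j, hj, hmax⟩ := exists_max_image t (fun i => r (x i)) htf hne
    have hsub : t ⊆ {i | x j ∈ V i} := by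
      intro i hi
      by_contra hn
      refine hrV (x j) i hn (x i) ?_ (hx i hi).1
      have b1 := dist_triangle (x i) y (x j)
      have b2 := (hx i hi).2
      have b3 := (hx j hj).2
      have b4 : r (x i) ≤ r (x j) := hmax i hi
      rw [dist_comm (x i) y] at b1
      linarith
    have h2 := (encard_le_encard hsub).trans (hm (x j))
    rw [htn] at h2
    have h3 : n + 1 ≤ n := by exact_mod_cast h2
    omega
  · intro i y hy
    obtain ⟨x, hx, hyx⟩ := mem_iUnion₂.1 hy
    refine ⟨x, hx, (mem_ball.1 hyx).trans_le ?_⟩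
    have := hr x
    have := hrδ x
    linarith

end Pool.Agent.Lib.MP_df705a_gt.Pin
end
end

section

/-!
# Covers by superlevel sets in general position
-/

open scoped Topology ENNReal
open Set Filter MeasureTheory

noncomputable section

namespace Pool.Agent.Lib.MP_df705a_gt.Pin

/-- The bump regions. -/
def lev {X : Type*} (d : X → X → ℝ) (σ : X → ℝ) (f : X → X → ℝ) (t : X → ℝ) (p : X) : Set X :=
  {x | d p x < σ p ∧ t p < f p x}

variable {X : Type*} [MetricSpace X] {d : X → X → ℝ} {σ : X → ℝ}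

theorem isOpen_lev (hd : IsD d) {f : X → X → ℝ} {t : X → ℝ} {p : X} (hf : Continuous (f p)) :
    IsOpen (lev d σ f t p) := by
  have h1 : Continuous fun y => d p y := hd.cont.comp (Continuous.prodMk_right p)
  exact (isOpen_lt h1 continuous_const).inter (isOpen_lt continuous_const hf)

theorem closure_lev (hd : IsD d) {f : X → X → ℝ} {t : X → ℝ} {p : X} (hf : Continuous (f p))
    {x : X} (hx : x ∈ closure (lev d σ f t p)) : d p x ≤ σ p ∧ t p ≤ f p x := by
  have h1 : Continuous fun y => d p y := hd.cont.comp (Continuous.prodMk_right p)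
  have h2 : IsClosed {x | d p x ≤ σ p ∧ t p ≤ f p x} :=
    (isClosed_le h1 continuous_const).inter (isClosed_le continuous_const hf)
  have h3 : lev d σ f t p ⊆ {x | d p x ≤ σ p ∧ t p ≤ f p x} := fun y hy => ⟨hy.1.le, hy.2.le⟩
  exact closure_minimal h3 h2 hx

/-- A boundary point of the region lies on the level set. -/
theorem frontier_lev (hd : IsD d) (hσ : Scale d σ) {f : X → X → ℝ} {t : X → ℝ} {p : X}
    (hf : Continuous (f p))
    (h2 : ∀ y, 7 / 8 * σ p ≤ d p y → d p y ≤ 2 * σ p → f p y < 1 / 4) (ht : 1 / 4 ≤ t p)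
    {x : X} (hx : x ∈ closure (lev d σ f t p)) (hx' : x ∉ lev d σ f t p) :
    d p x ≤ σ p ∧ f p x = t p := by
  obtain ⟨h3, h4⟩ := closure_lev hd hf hx
  refine ⟨h3, ?_⟩
  have hσp := hσ.pos p
  by_contra hne
  have h5 : t p < f p x := lt_of_le_of_ne h4 (Ne.symm hne)
  rcases lt_or_eq_of_le h3 with h6 | h6
  · exact hx' ⟨h6, h5⟩
  · have := h2 x (by linarith) (by linarith)
    linarith

/-- The closed balls of radius `σ p` about the points of a net are locally finite. -/
theorem near_of_le (hσ : Scale d σ) (hd : IsD d) {x y p : X} (h1 : d x y < σ x / 2)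
    (h2 : d p y ≤ σ p) : d x p ≤ 8 * σ p := by
  have h3 := hσ.lip x p
  have h4 := hd.tri x y p
  rw [hd.comm y p] at h4
  have h5 := hσ.pos p
  have h6 := hd.nonneg x p
  linarith

theorem locallyFinite_ball (hd : IsD d) (hσ : Scale d σ) {Z : Set X}
    (hloc : ∀ x, {l ∈ Z | d x l ≤ 8 * σ l}.Finite) (V : Z → Set X)
    (hV : ∀ p : Z, ∀ y ∈ V p, d p.1 y ≤ σ p.1) : LocallyFinite V := by
  intro x
  have h1 : Continuous fun y => d x y := hd.cont.comp (Continuous.prodMk_right x)
  refine ⟨{y | d x y < σ x / 2}, (isOpen_lt h1 continuous_const).mem_nhds ?_, ?_⟩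
  · show d x x < σ x / 2
    rw [hd.self]
    have := hσ.pos x
    linarith
  · refine Set.Finite.subset ((hloc x).preimage (f := fun p : Z => p.1)
      Subtype.val_injective.injOn) ?_
    rintro p ⟨y, hy, hy'⟩
    exact ⟨p.2, near_of_le hσ hd hy' (hV p y hy)⟩

/-- A set of indices with more than `n` elements contains `n` distinct elements which are not
maximal. -/
theorem exists_tuple {ι : Type*} (e : ι → ℕ) (he : Function.Injective e) {n : ℕ} {P : Set ι}
    (hP : (n : ℕ∞) < P.encard) :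
    ∃ I : Fin n → ι, Function.Injective I ∧ ∀ j, I j ∈ P ∧ ∃ q ∈ P, e (I j) < e q := by
  classical
  obtain ⟨Q, hQP, hQ⟩ := Set.exists_subset_encard_eq (s := P) (k := (n + 1 : ℕ))
    (by exact_mod_cast Order.add_one_le_of_lt hP)
  have hQf : Q.Finite := Set.finite_of_encard_eq_coe hQ
  have hcard : hQf.toFinset.card = n + 1 := by
    rw [hQf.encard_eq_coe_toFinset_card] at hQ
    exact_mod_cast hQ
  have hne : hQf.toFinset.Nonempty := Finset.card_pos.1 (by omega)
  obtain ⟨m, hm, hmax⟩ := hQf.toFinset.exists_max_image e hne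
  have hcard' : (hQf.toFinset.erase m).card = n := by
    rw [Finset.card_erase_of_mem hm, hcard]; rfl
  let E := (hQf.toFinset.erase m).equivFinOfCardEq hcard'
  refine ⟨fun j => (E.symm j).1, fun j j' h => E.symm.injective (Subtype.ext h), fun j => ?_⟩
  have h1 := (E.symm j).2
  rw [Finset.mem_erase, Finite.mem_toFinset] at h1
  rw [Finite.mem_toFinset] at hm
  refine ⟨hQP h1.2, m, hQP hm, ?_⟩
  have h2 := hmax (E.symm j).1 (by rw [Finite.mem_toFinset]; exact h1.2)
  exact lt_of_le_of_ne h2 (fun h => h1.1 (he h))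

/-- **Covers by superlevel sets in general position.** -/
theorem level_cover (hd : IsD d) (hσ : Scale d σ) {Z : Set X} (hZ : Net d σ Z)
    (hloc : ∀ x, {l ∈ Z | d x l ≤ 8 * σ l}.Finite) (e : Z → ℕ) (he : Function.Injective e)
    (n : ℕ) (f : X → X → ℝ) (hf : ∀ p ∈ Z, Continuous (f p))
    (h1 : ∀ p ∈ Z, ∀ y, d p y ≤ σ p / 2 → 3 / 4 < f p y)
    (h2 : ∀ p ∈ Z, ∀ y, 7 / 8 * σ p ≤ d p y → d p y ≤ 2 * σ p → f p y < 1 / 4)
    (t : X → ℝ) (ht : ∀ p ∈ Z, 1 / 4 ≤ t p ∧ t p ≤ 3 / 4)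
    (hgen : ∀ I : Fin n → Z, Function.Injective I → ∀ y, (∀ j, d (I j).1 y ≤ σ (I j).1) →
      ¬ ∀ j, f (I j).1 y = t (I j).1) :
    ∃ 𝒰 : Set (Set X), (∀ U ∈ 𝒰, IsOpen U) ∧ ⋃₀ 𝒰 = univ ∧
      (∀ x, {U ∈ 𝒰 | x ∈ U}.encard ≤ n) ∧ ∀ U ∈ 𝒰, ∃ p ∈ Z, ∀ y ∈ U, d p y ≤ 6 / 5 * σ p := by
  classical
  let V : Z → Set X := fun p =>
    closure (lev d σ f t p.1) ∩ (⋃ q ∈ {q : Z | e q < e p}, lev d σ f t q.1)ᶜ
  have hVc : ∀ p, IsClosed (V p) := fun p =>
    isClosed_closure.inter (isOpen_biUnion fun q _ => isOpen_lev hd (hf q.1 q.2)).isClosed_compl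
  have hVb : ∀ p : Z, ∀ y ∈ V p, d p.1 y ≤ σ p.1 := fun p y hy =>
    (closure_lev hd (hf p.1 p.2) hy.1).1
  have hVl : LocallyFinite V := locallyFinite_ball hd hσ hloc V hVb
  have hVm : ∀ x, {p | x ∈ V p}.encard ≤ n := by
    intro x
    by_contra hcon
    rw [not_le] at hcon
    obtain ⟨I, hI, hI'⟩ := exists_tuple e he hcon
    have hfr : ∀ j, d (I j).1 x ≤ σ (I j).1 ∧ f (I j).1 x = t (I j).1 := by
      intro j
      obtain ⟨hj, q, hq, hlt⟩ := hI' j
      refine frontier_lev hd hσ (hf _ (I j).2) (h2 _ (I j).2) (ht _ (I j).2).1 hj.1 ?_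
      intro hmem
      exact hq.2 (mem_iUnion₂.2 ⟨I j, hlt, hmem⟩)
    exact hgen I hI x (fun j => (hfr j).1) fun j => (hfr j).2
  have hVcov : ∀ x, ∃ p, x ∈ V p := by
    intro x
    obtain ⟨p, hp, hxp⟩ := hZ.cov x
    have hmem : ∃ p : Z, x ∈ lev d σ f t p.1 := by
      refine ⟨⟨p, hp⟩, ?_, ?_⟩
      · rw [hd.comm]
        have := hσ.pos p
        show d x p < σ p
        linarith
      · have h3 := h1 p hp x (by rw [hd.comm]; exact hxp.le)
        have h4 := (ht p hp).2
        show t p < f p x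
        linarith
    obtain ⟨p, hp, hmin⟩ : ∃ p : Z, x ∈ lev d σ f t p.1 ∧
        ∀ q : Z, x ∈ lev d σ f t q.1 → e p ≤ e q := by
      have hne : (e '' {p : Z | x ∈ lev d σ f t p.1}).Nonempty := by
        obtain ⟨p, hp⟩ := hmem
        exact ⟨e p, p, hp, rfl⟩
      obtain ⟨p, hp, hpe⟩ := Nat.sInf_mem hne
      exact ⟨p, hp, fun q hq => hpe ▸ Nat.sInf_le ⟨q, hq, rfl⟩⟩
    refine ⟨p, subset_closure hp, ?_⟩
    intro hx
    obtain ⟨q, hq, hxq⟩ := mem_iUnion₂.1 hx
    exact absurd (hmin q hxq) (not_le.2 hq)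
  have hδ : ∀ x, ∃ δ : ℝ, 0 < δ ∧ ∀ y, dist y x < δ → d x y < σ x / 10 := by
    intro x
    have h3 : Continuous fun y => d x y := hd.cont.comp (Continuous.prodMk_right x)
    have h4 : {y | d x y < σ x / 10} ∈ 𝓝 x := (isOpen_lt h3 continuous_const).mem_nhds (by
      show d x x < σ x / 10
      rw [hd.self]
      have := hσ.pos x
      linarith)
    obtain ⟨δ, hδ, h⟩ := Metric.mem_nhds_iff.1 h4
    exact ⟨δ, hδ, fun y hy => h (Metric.mem_ball.2 hy)⟩
  choose δ hδ0 hδ1 using hδ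
  obtain ⟨O, hO1, hO2, hO3, hO4⟩ := exists_swelling hVl hVc hVm δ hδ0
  refine ⟨range O, ?_, ?_, ?_, ?_⟩
  · rintro _ ⟨p, rfl⟩
    exact hO1 p
  · refine eq_univ_of_forall fun x => ?_
    obtain ⟨p, hp⟩ := hVcov x
    exact mem_sUnion.2 ⟨O p, ⟨p, rfl⟩, hO2 p hp⟩
  · intro x
    have h3 : {U ∈ range O | x ∈ U} ⊆ O '' {p | x ∈ O p} := by
      rintro _ ⟨⟨p, rfl⟩, hp⟩
      exact ⟨p, hp, rfl⟩
    exact (encard_le_encard h3).trans ((encard_image_le _ _).trans (hO3 x))
  · rintro _ ⟨p, rfl⟩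
    refine ⟨p.1, p.2, fun y hy => ?_⟩
    obtain ⟨x, hx, hxy⟩ := hO4 p y hy
    have h3 := hδ1 x y hxy
    have h4 := hVb p x hx
    have h5 := hσ.lip x p.1
    rw [hd.comm x p.1] at h5
    have h6 := hd.tri p.1 x y
    have h7 := hσ.pos p.1
    linarith

end Pool.Agent.Lib.MP_df705a_gt.Pin
end
end

section

/-!
# Covers by superlevel sets in general position, with a closed remainder
-/

open scoped Topology ENNReal
open Set Filter MeasureTheory

noncomputable section

namespace Pool.Agent.Lib.MP_df705a_gt.Pin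

/-- Counting the points of a separated set of points with the doubling property. -/
theorem sep_count {X : Type*} [TopologicalSpace X] [MeasurableSpace X] [BorelSpace X]
    {d : X → X → ℝ} {σ : X → ℝ} (hd : IsD d) (hσ : Scale d σ) {Z : Set X}
    (hsep : Z.PairwiseDisjoint fun p => bd d p (σ p / 16)) {μ : Measure X}
    (hfin : ∀ x r, μ (bd d x r) < ⊤) (hpos : ∀ x r, 0 < r → 0 < μ (bd d x r)) {N : ℝ}
    (hN : 0 ≤ N)
    (hD : ∀ x ∈ Z, μ (bd d x (20 * σ x)) ≤ ENNReal.ofReal N * μ (bd d x (σ x / 16))) (x : X) :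
    {l ∈ Z | d x l ≤ 8 * σ l}.Finite ∧ ({l ∈ Z | d x l ≤ 8 * σ l}.ncard : ℝ) ≤ N := by
  have key : ∀ T : Finset X, (T : Set X) ⊆ {l ∈ Z | d x l ≤ 8 * σ l} → (T.card : ℝ) ≤ N := by
    intro T hT
    have hest : ∀ l ∈ T, bd d l (σ l / 16) ⊆ bd d x (9 * σ x) ∧
        μ (bd d x (9 * σ x)) ≤ ENNReal.ofReal N * μ (bd d l (σ l / 16)) := by
      intro l hl
      have h1 : d x l ≤ 8 * σ l := (hT hl).2
      have h2 := hσ.lip l x
      have h3 := hσ.lip x l
      have h4 := hσ.pos l
      have h5 := hσ.pos x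
      rw [hd.comm l x] at h2
      refine ⟨hd.bd_subset (by linarith), ?_⟩
      refine le_trans (measure_mono (hd.bd_subset (x := l) (y := x) (R := 20 * σ l) ?_))
        (hD l (hT hl).1)
      rw [hd.comm l x]
      linarith
    have hdis : (T : Set X).PairwiseDisjoint fun p => bd d p (σ p / 16) :=
      hsep.subset fun l hl => (hT hl).1
    have hM0 := hpos x (9 * σ x) (by have := hσ.pos x; linarith)
    have hM1 := hfin x (9 * σ x)
    have hsum : (T.card : ENNReal) * μ (bd d x (9 * σ x)) ≤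
        ENNReal.ofReal N * μ (bd d x (9 * σ x)) := by
      calc (T.card : ENNReal) * μ (bd d x (9 * σ x)) = ∑ l ∈ T, μ (bd d x (9 * σ x)) := by
            rw [Finset.sum_const, nsmul_eq_mul]
        _ ≤ ∑ l ∈ T, ENNReal.ofReal N * μ (bd d l (σ l / 16)) :=
            Finset.sum_le_sum fun l hl => (hest l hl).2
        _ = ENNReal.ofReal N * ∑ l ∈ T, μ (bd d l (σ l / 16)) := by rw [Finset.mul_sum]
        _ = ENNReal.ofReal N * μ (⋃ l ∈ T, bd d l (σ l / 16)) := by
            rw [measure_biUnion_finset hdis fun l _ => hd.measurableSet_bd l _]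
        _ ≤ ENNReal.ofReal N * μ (bd d x (9 * σ x)) := by
            gcongr
            exact iUnion₂_subset fun l hl => (hest l hl).1
    have h6 : (T.card : ENNReal) ≤ ENNReal.ofReal N := by
      have h7 := ENNReal.mul_le_mul_iff_left hM0.ne' hM1.ne (a := (T.card : ENNReal))
        (b := ENNReal.ofReal N)
      exact h7.mp hsum
    have h8 : ENNReal.ofReal (T.card : ℝ) ≤ ENNReal.ofReal N := by
      rw [ENNReal.ofReal_natCast]; exact h6
    exact (ENNReal.ofReal_le_ofReal_iff hN).mp h8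
  have hfinite : {l ∈ Z | d x l ≤ 8 * σ l}.Finite := by
    by_contra hinf
    obtain ⟨T, hT, hcard⟩ := Set.Infinite.exists_subset_card_eq hinf (⌊N⌋₊ + 1)
    have h1 := key T hT
    rw [hcard] at h1
    have h2 := Nat.lt_floor_add_one N
    push_cast at h1
    linarith
  refine ⟨hfinite, ?_⟩
  rw [Set.ncard_eq_toFinset_card _ hfinite]
  exact key _ (by simp)

variable {X : Type*} [MetricSpace X] {d : X → X → ℝ} {σ : X → ℝ}

/-- A set with at least `n` elements contains `n` distinct elements. -/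
theorem exists_tuple_of_le {ι : Type*} {n : ℕ} {P : Set ι} (hP : (n : ℕ∞) ≤ P.encard) :
    ∃ I : Fin n → ι, Function.Injective I ∧ ∀ j, I j ∈ P := by
  classical
  obtain ⟨Q, hQP, hQ⟩ := Set.exists_subset_encard_eq (s := P) (k := (n : ℕ)) hP
  have hQf : Q.Finite := Set.finite_of_encard_eq_coe hQ
  have hcard : hQf.toFinset.card = n := by
    rw [hQf.encard_eq_coe_toFinset_card] at hQ
    exact_mod_cast hQ
  let E := hQf.toFinset.equivFinOfCardEq hcard
  refine ⟨fun j => (E.symm j).1, fun j j' h => E.symm.injective (Subtype.ext h), fun j => ?_⟩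
  have h1 := (E.symm j).2
  rw [Finite.mem_toFinset] at h1
  exact hQP h1

/-- **Covers by superlevel sets in general position, with a closed remainder.** -/
theorem mixed_level_cover (hd : IsD d) (hσ : Scale d σ) {Z : Set X}
    (hloc : ∀ x, {l ∈ Z | d x l ≤ 8 * σ l}.Finite) (e : Z → ℕ) (he : Function.Injective e)
    (n : ℕ) (f : X → X → ℝ) (hf : ∀ p ∈ Z, Continuous (f p))
    (h2 : ∀ p ∈ Z, ∀ y, 7 / 8 * σ p ≤ d p y → d p y ≤ 2 * σ p → f p y < 1 / 4)
    (t : X → ℝ) (ht : ∀ p ∈ Z, 1 / 4 ≤ t p)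
    (hgen : ∀ I : Fin n → Z, Function.Injective I → ∀ y, (∀ j, d (I j).1 y ≤ σ (I j).1) →
      ¬ ∀ j, f (I j).1 y = t (I j).1) :
    ∃ V : Z → Set X, (∀ p, IsClosed (V p)) ∧ LocallyFinite V ∧
      (∀ p, ∀ y ∈ V p, d p.1 y ≤ σ p.1) ∧
      IsClosed {x | ∀ p ∈ Z, x ∉ lev d σ f t p} ∧
      (∀ x, (∀ p ∈ Z, x ∉ lev d σ f t p) ∨ ∃ p, x ∈ V p) ∧
      (∀ x, {p | x ∈ V p}.encard ≤ n) ∧
      ∀ x, (∀ p ∈ Z, x ∉ lev d σ f t p) → {p | x ∈ V p}.encard + 1 ≤ n := by
  classical
  let V : Z → Set X := fun p =>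
    closure (lev d σ f t p.1) ∩ (⋃ q ∈ {q : Z | e q < e p}, lev d σ f t q.1)ᶜ
  have hVc : ∀ p, IsClosed (V p) := fun p =>
    isClosed_closure.inter (isOpen_biUnion fun q _ => isOpen_lev hd (hf q.1 q.2)).isClosed_compl
  have hVb : ∀ p : Z, ∀ y ∈ V p, d p.1 y ≤ σ p.1 := fun p y hy =>
    (closure_lev hd (hf p.1 p.2) hy.1).1
  refine ⟨V, hVc, locallyFinite_ball hd hσ hloc V hVb, hVb, ?_, ?_, ?_, ?_⟩
  · have h3 : {x | ∀ p ∈ Z, x ∉ lev d σ f t p} = (⋃ p : Z, lev d σ f t p.1)ᶜ := by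
      ext x
      simp
    rw [h3]
    exact (isOpen_iUnion fun q : Z => isOpen_lev hd (hf q.1 q.2)).isClosed_compl
  · intro x
    by_cases hx : ∀ p ∈ Z, x ∉ lev d σ f t p
    · exact Or.inl hx
    refine Or.inr ?_
    push Not at hx
    obtain ⟨p₀, hp₀, hxp₀⟩ := hx
    obtain ⟨p, hp, hmin⟩ : ∃ p : Z, x ∈ lev d σ f t p.1 ∧
        ∀ q : Z, x ∈ lev d σ f t q.1 → e p ≤ e q := by
      have hne : (e '' {p : Z | x ∈ lev d σ f t p.1}).Nonempty :=
        ⟨e ⟨p₀, hp₀⟩, ⟨p₀, hp₀⟩, hxp₀, rfl⟩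
      obtain ⟨p, hp, hpe⟩ := Nat.sInf_mem hne
      exact ⟨p, hp, fun q hq => hpe ▸ Nat.sInf_le ⟨q, hq, rfl⟩⟩
    refine ⟨p, subset_closure hp, ?_⟩
    intro hx
    obtain ⟨q, hq, hxq⟩ := mem_iUnion₂.1 hx
    exact absurd (hmin q hxq) (not_le.2 hq)
  · intro x
    by_contra hcon
    rw [not_le] at hcon
    obtain ⟨I, hI, hI'⟩ := exists_tuple e he hcon
    have hfr : ∀ j, d (I j).1 x ≤ σ (I j).1 ∧ f (I j).1 x = t (I j).1 := by
      intro j
      obtain ⟨hj, q, hq, hlt⟩ := hI' j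
      refine frontier_lev hd hσ (hf _ (I j).2) (h2 _ (I j).2) (ht _ (I j).2) hj.1 ?_
      intro hmem
      exact hq.2 (mem_iUnion₂.2 ⟨I j, hlt, hmem⟩)
    exact hgen I hI x (fun j => (hfr j).1) fun j => (hfr j).2
  · intro x hx
    refine Order.add_one_le_of_lt ?_
    by_contra hcon
    rw [not_lt] at hcon
    obtain ⟨I, hI, hI'⟩ := exists_tuple_of_le hcon
    have hfr : ∀ j, d (I j).1 x ≤ σ (I j).1 ∧ f (I j).1 x = t (I j).1 := fun j =>
      frontier_lev hd hσ (hf _ (I j).2) (h2 _ (I j).2) (ht _ (I j).2) (hI' j).1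
        (hx _ (I j).2)
    exact hgen I hI x (fun j => (hfr j).1) fun j => (hfr j).2

end Pool.Agent.Lib.MP_df705a_gt.Pin
end
end

section

/-!
# TASK L2: Taylor's formula at the diagonal, uniform in the base point
-/

open scoped ContDiff Topology
open Set Filter

noncomputable section

namespace Pool.Agent.Lib.MP_df705a_gt.Perm

section Line

variable {E' : Type*} [NormedAddCommGroup E'] [NormedSpace ℝ E']

private theorem tl_hasDerivAt_line (a b : E') (t : ℝ) :
    HasDerivAt (fun s : ℝ => a + s • b) b t := by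
  have h := ((hasDerivAt_id t).smul_const b).const_add a
  simpa using h

private theorem tl_continuous_line (a b : E') : Continuous fun s : ℝ => a + s • b := by
  fun_prop

/-- iterated derivatives along a line -/
private theorem tl_line_iter {Φ : E' → ℝ} {a b : E'} (n : ℕ) :
    ∀ t : ℝ, ContDiffAt ℝ n Φ (a + t • b) →
      iteratedDeriv n (fun s : ℝ => Φ (a + s • b)) t =
        iteratedFDeriv ℝ n Φ (a + t • b) (fun _ => b) := by
  induction n with
  | zero =>
    intro t _
    simp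
  | succ n ih =>
    intro t h
    have hev : ∀ᶠ s in 𝓝 t, ContDiffAt ℝ n Φ (a + s • b) := by
      have h1 : ∀ᶠ y in 𝓝 (a + t • b), ContDiffAt ℝ ((n + 1 : ℕ)) Φ y := h.eventually (by simp)
      have h2 := ((tl_continuous_line a b).continuousAt (x := t)).eventually h1
      exact h2.mono fun s hs => hs.of_le (by exact_mod_cast Nat.le_succ n)
    rw [iteratedDeriv_succ]
    have heq : iteratedDeriv n (fun s : ℝ => Φ (a + s • b)) =ᶠ[𝓝 t]
        fun s => iteratedFDeriv ℝ n Φ (a + s • b) (fun _ => b) :=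
      hev.mono fun s hs => ih s hs
    rw [heq.deriv_eq]
    have hd : DifferentiableAt ℝ (iteratedFDeriv ℝ n Φ) (a + t • b) :=
      h.differentiableAt_iteratedFDeriv (by exact_mod_cast Nat.lt_succ_self n)
    have hc := hd.hasFDerivAt.comp_hasDerivAt t (tl_hasDerivAt_line a b t)
    have hc2 := (ContinuousMultilinearMap.apply ℝ (fun _ : Fin n => E') ℝ
      (fun _ => b)).hasFDerivAt.comp_hasDerivAt t hc
    rw [iteratedFDeriv_succ_apply_left]
    exact hc2.deriv

/-- Taylor's formula along a line, with a bound for the remainder -/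
private theorem tl_taylor (n : ℕ) {W : E' → ℝ} {a b : E'} {K : ℝ}
    (h : ∀ t ∈ Icc (0 : ℝ) 1, ContDiffAt ℝ (n + 1 : ℕ) W (a + t • b))
    (hK : ∀ t ∈ Icc (0 : ℝ) 1, ‖iteratedFDeriv ℝ (n + 1) W (a + t • b)‖ ≤ K) :
    |W (a + b) - ∑ j ∈ Finset.range (n + 1),
      ((j.factorial : ℝ)⁻¹) * iteratedDeriv j (fun s : ℝ => W (a + s • b)) 0| ≤
        K * ‖b‖ ^ (n + 1) := by
  have hU : UniqueDiffOn ℝ (Icc (0 : ℝ) 1) := uniqueDiffOn_Icc one_pos
  have hψ : ∀ t ∈ Icc (0 : ℝ) 1, ContDiffAt ℝ (n + 1 : ℕ) (fun s : ℝ => W (a + s • b)) t := by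
    intro t ht
    exact (h t ht).comp t (by fun_prop : ContDiff ℝ (n + 1 : ℕ) fun s : ℝ => a + s • b).contDiffAt
  have hcd : ContDiffOn ℝ (n + 1) (fun s : ℝ => W (a + s • b)) (Icc 0 1) := fun t ht =>
    (hψ t ht).contDiffWithinAt
  have hK0 : 0 ≤ K := (norm_nonneg _).trans (hK 0 (by simp))
  have hbd : ∀ y ∈ Icc (0 : ℝ) 1, ‖iteratedDerivWithin (n + 1) (fun s : ℝ => W (a + s • b))
      (Icc 0 1) y‖ ≤ K * ‖b‖ ^ (n + 1) := by
    intro t ht
    rw [iteratedDerivWithin_eq_iteratedDeriv hU (hψ t ht) ht, tl_line_iter _ _ (h t ht)]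
    refine (ContinuousMultilinearMap.le_opNorm _ _).trans ?_
    rw [Finset.prod_const, Finset.card_univ, Fintype.card_fin]
    exact mul_le_mul_of_nonneg_right (hK t ht) (by positivity)
  have hT := taylor_mean_remainder_bound (x := 1) zero_le_one hcd (by simp) hbd
  rw [taylor_within_apply] at hT
  simp only [sub_zero, one_pow, mul_one, smul_eq_mul, one_smul] at hT
  have hsum : ∑ k ∈ Finset.range (n + 1), ((k.factorial : ℝ)⁻¹) *
      iteratedDerivWithin k (fun s : ℝ => W (a + s • b)) (Icc 0 1) 0 =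
      ∑ j ∈ Finset.range (n + 1),
        ((j.factorial : ℝ)⁻¹) * iteratedDeriv j (fun s : ℝ => W (a + s • b)) 0 := by
    apply Finset.sum_congr rfl
    intro j hj
    rw [iteratedDerivWithin_eq_iteratedDeriv hU ((hψ 0 (by simp)).of_le ?_) (by simp)]
    have := Finset.mem_range.1 hj
    exact_mod_cast this.le
  rw [hsum, Real.norm_eq_abs] at hT
  refine hT.trans ?_
  have h1 : (1 : ℝ) ≤ (n.factorial : ℝ) := by exact_mod_cast n.factorial_pos
  exact div_le_self (by positivity) h1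

/-- local bounds for the iterated derivatives -/
private theorem tl_bound (n : ℕ) {W : E' → ℝ} {q₀ : E'} (hW : ContDiffAt ℝ ∞ W q₀) :
    ∃ r K : ℝ, 0 < r ∧ 0 ≤ K ∧ ∀ q ∈ Metric.ball q₀ r, ContDiffAt ℝ (n : ℕ) W q ∧
      ‖iteratedFDeriv ℝ n W q‖ ≤ K := by
  have h1 : ContDiffAt ℝ (n : ℕ) W q₀ := hW.of_le (by exact_mod_cast le_top)
  have h2 : ∀ᶠ q in 𝓝 q₀, ContDiffAt ℝ (n : ℕ) W q := h1.eventually (by simp)
  have h3 := (h1.continuousAt_iteratedFDeriv le_rfl).norm
  have h4 : ∀ᶠ q in 𝓝 q₀, ‖iteratedFDeriv ℝ n W q‖ < ‖iteratedFDeriv ℝ n W q₀‖ + 1 :=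
    h3.eventually (gt_mem_nhds (by linarith))
  obtain ⟨r, hr, h5⟩ := Metric.eventually_nhds_iff_ball.1 (h2.and h4)
  exact ⟨r, ‖iteratedFDeriv ℝ n W q₀‖ + 1, hr, by positivity, fun q hq =>
    ⟨(h5 q hq).1, (h5 q hq).2.le⟩⟩

end Line

/-- iterated derivatives along a line, as nested directional derivatives -/
private theorem tl_nest {E' : Type*} [NormedAddCommGroup E'] [NormedSpace ℝ E'] {a b : E'}
    (n : ℕ) : ∀ (W : E' → ℝ) (t : ℝ), ContDiffAt ℝ n W (a + t • b) →
      iteratedDeriv n (fun s : ℝ => W (a + s • b)) t =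
        ((fun (G : E' → ℝ) (q : E') => fderiv ℝ G q b)^[n] W) (a + t • b) := by
  induction n with
  | zero =>
    intro W t _
    simp
  | succ n ih =>
    intro W t h
    have h1 : ∀ᶠ y in 𝓝 (a + t • b), ContDiffAt ℝ ((n + 1 : ℕ)) W y := h.eventually (by simp)
    have h2 := ((tl_continuous_line a b).continuousAt (x := t)).eventually h1
    have heq : deriv (fun s : ℝ => W (a + s • b)) =ᶠ[𝓝 t]
        fun s => fderiv ℝ W (a + s • b) b := by
      refine h2.mono fun s hs => ?_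
      have hd : DifferentiableAt ℝ W (a + s • b) := hs.differentiableAt (by simp)
      exact (hd.hasFDerivAt.comp_hasDerivAt s (tl_hasDerivAt_line a b s)).deriv
    rw [iteratedDeriv_succ', Function.iterate_succ_apply]
    have h3 : ContDiffAt ℝ n (fun q => fderiv ℝ W q b) (a + t • b) := by
      have h4 : ContDiffAt ℝ n (fderiv ℝ W) (a + t • b) :=
        h.fderiv_right (by exact_mod_cast le_rfl)
      exact h4.clm_apply contDiffAt_const
    rw [← ih (fun q => fderiv ℝ W q b) t h3]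
    exact heq.iteratedDeriv_eq n

variable {E : Type*} [NormedAddCommGroup E] [NormedSpace ℝ E]

private theorem tl_seg {p : E} {r : ℝ} {q : E × E} (hq : q ∈ Metric.ball (p, p) r) {t : ℝ}
    (ht : t ∈ Icc (0 : ℝ) 1) :
    ((q.2, q.2) : E × E) + t • ((q.1 - q.2, 0) : E × E) ∈ Metric.ball (p, p) r := by
  rw [← ball_prod_same] at hq ⊢
  obtain ⟨h1, h2⟩ := hq
  refine ⟨?_, ?_⟩
  · exact (convex_ball p r).add_smul_sub_mem h2 h1 ht
  · simpa using h2

private theorem tl_diag (n : ℕ) {W : E × E → ℝ} {p : E} (hW : ContDiffAt ℝ ∞ W (p, p)) :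
    ∃ K : ℝ, ∀ᶠ q : E × E in 𝓝 (p, p), ContDiffAt ℝ (n + 1 : ℕ) W (q.2, q.2) ∧
      |W q - ∑ j ∈ Finset.range (n + 1), ((j.factorial : ℝ)⁻¹) *
        iteratedDeriv j (fun s : ℝ => W (((q.2, q.2) : E × E) + s • (q.1 - q.2, 0))) 0| ≤
          K * ‖q.1 - q.2‖ ^ (n + 1) := by
  obtain ⟨r, K, hr, hK, h⟩ := tl_bound (n + 1) hW
  refine ⟨K, ?_⟩
  filter_upwards [Metric.ball_mem_nhds (p, p) hr] with q hq
  refine ⟨?_, ?_⟩
  · have := (h _ (tl_seg hq (t := 0) (by simp))).1
    simpa using this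
  · have h1 := tl_taylor n (W := W) (a := (q.2, q.2)) (b := (q.1 - q.2, 0)) (K := K)
      (fun t ht => (h _ (tl_seg hq ht)).1) (fun t ht => (h _ (tl_seg hq ht)).2)
    have h2 : ((q.2, q.2) : E × E) + (q.1 - q.2, 0) = q := by
      ext <;> simp
    have h3 : ‖((q.1 - q.2, 0) : E × E)‖ = ‖q.1 - q.2‖ := by
      simp [Prod.norm_def]
    rw [h2, h3] at h1
    exact h1

/-- the nested derivatives at the base point -/
private theorem tl_nest_zero {W : E × E → ℝ} {y v : E} {n : ℕ} (j : ℕ) (hj : j ≤ n)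
    (hW : ContDiffAt ℝ n W (y, y)) :
    iteratedDeriv j (fun s : ℝ => W (((y, y) : E × E) + s • (v, 0))) 0 =
      ((fun (G : E × E → ℝ) (q : E × E) => fderiv ℝ G q (v, 0))^[j] W) (y, y) := by
  have h := tl_nest (a := ((y, y) : E × E)) (b := (v, 0)) j W 0 (by
    simpa using hW.of_le (by exact_mod_cast hj))
  simpa using h

/-- First order: a smooth function vanishing on the diagonal is `O(|x - y|)`. -/
theorem diag_one {W : E × E → ℝ} {p : E} (hW : ContDiffAt ℝ ∞ W (p, p))
    (h0 : ∀ᶠ y in 𝓝 p, W (y, y) = 0) :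
    ∃ C : ℝ, ∀ᶠ q : E × E in 𝓝 (p, p), |W q| ≤ C * ‖q.1 - q.2‖ := by
  obtain ⟨K, hK⟩ := tl_diag 0 hW
  refine ⟨K, ?_⟩
  have h0' := (continuous_snd.tendsto (p, p)).eventually h0
  filter_upwards [hK, h0'] with q hq hq0
  have h2 := hq.2
  simp [hq0] at h2
  exact h2

/-- Second order. -/
theorem diag_two {W : E × E → ℝ} {p : E} (hW : ContDiffAt ℝ ∞ W (p, p))
    (h0 : ∀ᶠ y in 𝓝 p, W (y, y) = 0)
    (h1 : ∀ᶠ y in 𝓝 p, ∀ v, fderiv ℝ W (y, y) (v, 0) = 0) :
    ∃ C : ℝ, ∀ᶠ q : E × E in 𝓝 (p, p), |W q| ≤ C * ‖q.1 - q.2‖ ^ 2 := by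
  obtain ⟨K, hK⟩ := tl_diag 1 hW
  refine ⟨K, ?_⟩
  have h0' := (continuous_snd.tendsto (p, p)).eventually h0
  have h1' := (continuous_snd.tendsto (p, p)).eventually h1
  filter_upwards [hK, h0', h1'] with q hq hq0 hq1
  obtain ⟨h3, h2⟩ := hq
  rw [Finset.sum_range_succ, Finset.sum_range_one, tl_nest_zero 0 (by omega) h3,
    tl_nest_zero 1 (by omega) h3] at h2
  simp only [Function.iterate_zero, id_eq, Function.iterate_one, hq0, hq1, mul_zero, add_zero,
    sub_zero] at h2
  exact h2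

/-- Third order: expansion of a smooth function with error `O(|x - y|^3)`. -/
theorem diag_expand_two {W : E × E → ℝ} {p : E} (hW : ContDiffAt ℝ ∞ W (p, p)) :
    ∃ C : ℝ, ∀ᶠ q : E × E in 𝓝 (p, p),
      |W q - (W (q.2, q.2) + fderiv ℝ W (q.2, q.2) (q.1 - q.2, 0) +
        (1 / 2) * fderiv ℝ (fun x => fderiv ℝ W x (q.1 - q.2, 0)) (q.2, q.2) (q.1 - q.2, 0))| ≤
        C * ‖q.1 - q.2‖ ^ 3 := by
  obtain ⟨K, hK⟩ := tl_diag 2 hW
  refine ⟨K, ?_⟩
  filter_upwards [hK] with q hq
  obtain ⟨h3, h2⟩ := hq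
  rw [Finset.sum_range_succ, Finset.sum_range_succ, Finset.sum_range_one,
    tl_nest_zero 0 (by omega) h3, tl_nest_zero 1 (by omega) h3,
    tl_nest_zero 2 (by omega) h3] at h2
  simp only [Function.iterate_succ, Function.iterate_zero, Function.comp_apply, id_eq,
    Nat.factorial, Nat.cast_one, inv_one, one_mul] at h2
  norm_num at h2 ⊢
  exact h2

/-- Fourth order: expansion of a smooth function with error `O(|x - y|^4)`. -/
theorem diag_expand_three {W : E × E → ℝ} {p : E} (hW : ContDiffAt ℝ ∞ W (p, p)) :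
    ∃ C : ℝ, ∀ᶠ q : E × E in 𝓝 (p, p),
      |W q - (W (q.2, q.2) + fderiv ℝ W (q.2, q.2) (q.1 - q.2, 0) +
        (1 / 2) * fderiv ℝ (fun x => fderiv ℝ W x (q.1 - q.2, 0)) (q.2, q.2) (q.1 - q.2, 0) +
        (1 / 6) * fderiv ℝ (fun x => fderiv ℝ (fun x' => fderiv ℝ W x' (q.1 - q.2, 0)) x
          (q.1 - q.2, 0)) (q.2, q.2) (q.1 - q.2, 0))| ≤
        C * ‖q.1 - q.2‖ ^ 4 := by
  obtain ⟨K, hK⟩ := tl_diag 3 hW
  refine ⟨K, ?_⟩
  filter_upwards [hK] with q hq
  obtain ⟨h3, h2⟩ := hq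
  rw [Finset.sum_range_succ, Finset.sum_range_succ, Finset.sum_range_succ,
    Finset.sum_range_one, tl_nest_zero 0 (by omega) h3, tl_nest_zero 1 (by omega) h3,
    tl_nest_zero 2 (by omega) h3, tl_nest_zero 3 (by omega) h3] at h2
  simp only [Function.iterate_succ, Function.iterate_zero, Function.comp_apply, id_eq,
    Nat.factorial, Nat.cast_one, inv_one, one_mul] at h2
  norm_num at h2 ⊢
  exact h2

end Pool.Agent.Lib.MP_df705a_gt.Perm
end
end

section

/-!
# R: identification of two model spaces of the same dimension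
-/

open scoped Manifold ContDiff Topology
open Set Bundle Module Filter MeasureTheory

noncomputable section

namespace Pool.Agent.Lib.MP_df705a_gt.Coll

open Pool.Agent.Lib.MP_df705a_gt.Twist Pool.Agent.Lib.MP_df705a_gt.Perm

/-- The linear isomorphism which maps the basis `finBasis ℝ E'` to the basis `finBasis ℝ E`
preserves the measures given by these bases.
Proof: let `b' = (finBasis ℝ E').reindex (finCongr h)`, a basis indexed by `Fin (finrank ℝ E)`, and
`A = (b'.equiv (finBasis ℝ E) (Equiv.refl _)).toContinuousLinearEquiv`. Then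
`A (finBasis ℝ E' i) = A (b' (Fin.cast h i)) = finBasis ℝ E (Fin.cast h i)`. By `Basis.map_addHaar`
(Mathlib, MeasureTheory/Measure/Lebesgue/EqHaar.lean) `Measure.map A b'.addHaar =
(b'.map A.toLinearEquiv).addHaar`, `b'.map A.toLinearEquiv = finBasis ℝ E` and
`b'.addHaar = (finBasis ℝ E').addHaar` by `Basis.addHaar_reindex`. -/
theorem exists_iso {E' : Type*} [NormedAddCommGroup E'] [NormedSpace ℝ E'] [FiniteDimensional ℝ E']
    [MeasurableSpace E'] [BorelSpace E']
    {E : Type*} [NormedAddCommGroup E] [NormedSpace ℝ E] [FiniteDimensional ℝ E]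
    [MeasurableSpace E] [BorelSpace E] (h : finrank ℝ E' = finrank ℝ E) :
    ∃ A : E' ≃L[ℝ] E, (∀ i, A (finBasis ℝ E' i) = finBasis ℝ E (Fin.cast h i)) ∧
      MeasurePreserving A (finBasis ℝ E').addHaar (finBasis ℝ E).addHaar := by
  set b' : Basis (Fin (finrank ℝ E)) ℝ E' := (finBasis ℝ E').reindex (finCongr h) with hb'
  set A : E' ≃L[ℝ] E := (b'.equiv (finBasis ℝ E) (Equiv.refl _)).toContinuousLinearEquiv with hA
  have h1 : ∀ i, A (finBasis ℝ E' i) = finBasis ℝ E (Fin.cast h i) := by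
    intro i
    have h2 : finBasis ℝ E' i = b' (Fin.cast h i) := by
      rw [hb', Basis.reindex_apply]
      rfl
    rw [h2]
    exact b'.equiv_apply _ (finBasis ℝ E) (Equiv.refl _)
  refine ⟨A, h1, A.continuous.measurable, ?_⟩
  have h3 := Basis.map_addHaar b' A
  have h4 : b'.map A.toLinearEquiv = finBasis ℝ E := by
    refine Basis.eq_of_apply_eq fun i => ?_
    rw [Basis.map_apply]
    exact b'.equiv_apply _ (finBasis ℝ E) (Equiv.refl _)
  have h5 : b'.addHaar = (finBasis ℝ E').addHaar := by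
    rw [hb', Basis.addHaar_reindex]
  rw [h4, h5] at h3
  exact h3

end Pool.Agent.Lib.MP_df705a_gt.Coll
end
end

section

/-!
# A push along a segment, and the swelling of a mixed cover
-/

open scoped Topology ContDiff
open Set MeasureTheory Module

noncomputable section

namespace Pool.Agent.Lib.MP_df705a_gt.Pin

/-- Let the closed set `A` be disjoint from the segment from `p` to `y`. The map
`x ↦ x + θ x (p - y)` is the identity on `A` and takes the value `p` only at `y`. -/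
theorem exists_push {E : Type*} [NormedAddCommGroup E] [NormedSpace ℝ E] {A : Set E}
    (hA : IsClosed A) (p y : E) (hdis : Disjoint (segment ℝ p y) A) :
    ∃ θ : E → ℝ, Continuous θ ∧ (∀ x ∈ A, θ x = 0) ∧ ∀ x, x + θ x • (p - y) = p → x = y := by
  have hseg : IsClosed (segment ℝ p y) := by
    rw [segment_eq_image]
    exact (isCompact_Icc.image (by fun_prop)).isClosed
  obtain ⟨f, hf0, hf1, hf⟩ := exists_continuous_zero_one_of_isClosed hA hseg hdis.symm
  refine ⟨f, f.continuous, fun x hx => hf0 hx, ?_⟩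
  intro x hx
  have hx' : x = p - f x • (p - y) := eq_sub_of_add_eq hx
  have hxs : x ∈ segment ℝ p y := by
    refine ⟨1 - f x, f x, by linarith [(hf x).2], (hf x).1, by ring, ?_⟩
    conv_rhs => rw [hx']
    rw [sub_smul, one_smul, smul_sub]
    abel
  have h1 : f x = 1 := hf1 hxs
  rw [h1, one_smul] at hx
  have h2 : x = p - (p - y) := eq_sub_of_add_eq hx
  rwa [sub_sub_cancel] at h2

section

variable {E : Type*} [MetricSpace E] {d : E → E → ℝ} {J I : Type*} {V : J → Set E} {Y : Set E}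
  {W : I → Set E}

private theorem locallyFinite_option (hV : LocallyFinite V) (Y : Set E) :
    LocallyFinite fun o : Option J => o.elim Y V := by
  intro x
  obtain ⟨t, ht, hfin⟩ := hV x
  refine ⟨t, ht, ((hfin.image some).insert none).subset ?_⟩
  rintro (_ | j) h
  · exact mem_insert _ _
  · exact mem_insert_of_mem _ (mem_image_of_mem some h)

private theorem encard_option_le {n : ℕ} {S : Set (Option J)}
    (h1 : {j | some j ∈ S}.encard ≤ n) (h2 : none ∈ S → {j | some j ∈ S}.encard + 1 ≤ n) :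
    S.encard ≤ n := by
  by_cases hn : none ∈ S
  · have h3 : S = insert none (some '' {j | some j ∈ S}) := by
      ext o
      rcases o with _ | j
      · simp [hn]
      · simp
    rw [h3]
    refine (encard_insert_le _ _).trans ?_
    rw [(Option.some_injective J).encard_image]
    exact h2 hn
  · have h3 : S = some '' {j | some j ∈ S} := by
      ext o
      rcases o with _ | j
      · simp [hn]
      · simp
    rw [h3, (Option.some_injective J).encard_image]
    exact h1

private theorem encard_some_le {n : ℕ} {S : Set (Option J)} (h : S.encard ≤ n) :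
    {j | some j ∈ S}.encard ≤ n := by
  rw [← (Option.some_injective J).encard_image]
  refine (encard_le_encard ?_).trans h
  rintro _ ⟨j, hj, rfl⟩
  exact hj

private theorem encard_some_add_one_le {n : ℕ} {S : Set (Option J)} (h : S.encard ≤ n)
    (hn : none ∈ S) : {j | some j ∈ S}.encard + 1 ≤ n := by
  rw [← (Option.some_injective J).encard_image, ← encard_insert_of_notMem (a := none)]
  · refine (encard_le_encard ?_).trans h
    rintro o (rfl | ⟨j, hj, rfl⟩)
    · exact hn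
    · exact hj
  · rintro ⟨j, _, hj⟩
    exact Option.some_ne_none j hj

/-- The swelling of a mixed cover. -/
theorem mixed_swelling (hd : IsD d) (hV : LocallyFinite V)
    (hVc : ∀ j, IsClosed (V j)) (hY : IsClosed Y) {n : ℕ}
    (hm : ∀ x, {j | x ∈ V j}.encard ≤ n) (hmY : ∀ x ∈ Y, {j | x ∈ V j}.encard + 1 ≤ n)
    (hW : ∀ i, IsOpen (W i)) (hWd : ∀ i i', i ≠ i' → Disjoint (W i) (W i'))
    (hYW : Y ⊆ ⋃ i, W i) {D : ℝ} (hD : ∀ j, ∀ x ∈ V j, ∀ y ∈ V j, d x y ≤ D) :
    ∃ (O : J → Set E) (lam : E → ℝ), (∀ j, IsOpen (O j)) ∧ (∀ j, V j ⊆ O j) ∧ Continuous lam ∧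
      (∀ x, 0 ≤ lam x) ∧ (∀ x ∈ Y, 0 < lam x) ∧ closure {x | 0 < lam x} ⊆ ⋃ i, W i ∧
      (∀ x, {j | x ∈ O j}.encard ≤ n) ∧
      (∀ x ∈ closure {x | 0 < lam x}, {j | x ∈ O j}.encard + 1 ≤ n) ∧
      (∀ j, ∀ x ∈ O j, ∀ y ∈ O j, d x y ≤ D + 2) ∧
      ∀ i, ∀ x ∈ W i, 0 < lam x → ∃ x' ∈ Y ∩ W i, d x' x ≤ 1 := by
  have hδ : ∀ x : E, ∃ δ : ℝ, 0 < δ ∧ (∀ y, dist y x < δ → d x y ≤ 1) ∧
      ∀ i, x ∈ W i → ∀ y, dist y x < δ → y ∈ W i := by
    intro x
    have h1 : Continuous fun y => d x y := hd.cont.comp (Continuous.prodMk_right x)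
    have h2 : {y | d x y < 1} ∈ 𝓝 x := by
      apply (isOpen_lt h1 continuous_const).mem_nhds
      show d x x < 1
      rw [hd.self]
      exact one_pos
    by_cases hx : ∃ i, x ∈ W i
    · obtain ⟨i, hi⟩ := hx
      obtain ⟨δ, hδ, hδ'⟩ := Metric.mem_nhds_iff.1 (Filter.inter_mem h2 ((hW i).mem_nhds hi))
      refine ⟨δ, hδ, fun y hy => (hδ' hy).1.le, fun i' hi' y hy => ?_⟩
      have h3 : i' = i := by
        by_contra hne
        exact (hWd i' i hne).le_bot ⟨hi', hi⟩
      subst h3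
      exact (hδ' hy).2
    · obtain ⟨δ, hδ, hδ'⟩ := Metric.mem_nhds_iff.1 h2
      exact ⟨δ, hδ, fun y hy => (hδ' hy).le, fun i hi => absurd ⟨i, hi⟩ hx⟩
  choose δ hδ0 hδ1 hδ2 using hδ
  obtain ⟨O, hO1, hO2, hO3, hO4⟩ := exists_swelling (locallyFinite_option hV Y)
    (by
      rintro (_ | j)
      · exact hY
      · exact hVc j) (n := n)
    (fun x => encard_option_le (hm x) (fun h => hmY x h)) δ hδ0
  have hYO : Y ⊆ O none ∩ ⋃ i, W i := subset_inter (hO2 none) hYW
  obtain ⟨u, hu1, hu2, hu3⟩ := normal_exists_closure_subset hY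
    ((hO1 none).inter (isOpen_iUnion hW)) hYO
  obtain ⟨f, hf0, hf1, hf⟩ := exists_continuous_zero_one_of_isClosed hu1.isClosed_compl hY
    (disjoint_left.2 fun x hx hxY => hx (hu2 hxY))
  have hfu : {x | 0 < f x} ⊆ u := by
    intro x hx
    by_contra hxu
    have h1 : f x = 0 := hf0 hxu
    have h2 : 0 < f x := hx
    rw [h1] at h2
    exact lt_irrefl _ h2
  have hcl : closure {x | 0 < f x} ⊆ O none ∩ ⋃ i, W i := (closure_mono hfu).trans hu3
  refine ⟨fun j => O (some j), f, fun j => hO1 _, fun j => hO2 (some j), f.continuous,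
    fun x => (hf x).1, fun x hx => ?_, hcl.trans inter_subset_right,
    fun x => encard_some_le (hO3 x), fun x hx => encard_some_add_one_le (hO3 x) (hcl hx).1,
    ?_, ?_⟩
  · rw [hf1 hx]
    exact one_pos
  · intro j x hx y hy
    obtain ⟨x', hx', hxx'⟩ := hO4 (some j) x hx
    obtain ⟨y', hy', hyy'⟩ := hO4 (some j) y hy
    have h1 := hδ1 x' x hxx'
    have h2 := hδ1 y' y hyy'
    have h3 := hD j x' hx' y' hy'
    have h4 := hd.tri x x' y
    have h5 := hd.tri x' y' y
    have h6 := hd.comm x x'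
    linarith
  · intro i x hx hlx
    have hxO : x ∈ O none := (hcl (subset_closure hlx)).1
    obtain ⟨x', hx', hxx'⟩ := hO4 none x hxO
    refine ⟨x', ⟨hx', ?_⟩, hδ1 x' x hxx'⟩
    obtain ⟨k, hk⟩ := mem_iUnion.1 (hYW hx')
    have h1 := hδ2 x' k hk x hxx'
    have h2 : k = i := by
      by_contra hne
      exact (hWd k i hne).le_bot ⟨h1, hx⟩
    rwa [← h2]

end

end Pool.Agent.Lib.MP_df705a_gt.Pin
end
end
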