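import Mathlib
import Pool.Agent.Lib.MP_df705a_gt.Mg.G054
import Pool.Agent.Lib.MP_df705a_gt.Mg.G004

section

/-!
# TASK A1: separation of a convex cone of functions from the positive functions
-/

open scoped Topology
open Set Filter MeasureTheory

noncomputable section

namespace Pool.Agent.Lib.MP_df705a_gt.Perm

/-- Let `C` be a convex cone of continuous functions on a compact space, none of which is
everywhere positive. Then there is a nonzero finite measure with nonpositive integral on `C`.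
(Hahn-Banach in `C(M, ℝ)` against the open convex cone of positive functions, then the
Riesz-Markov-Kakutani theorem `RealRMK`.) -/
theorem exists_measure {M : Type*} [TopologicalSpace M] [CompactSpace M] [T2Space M]
    [MeasurableSpace M] [BorelSpace M] [Nonempty M]
    (C : Set (M → ℝ)) (hc : ∀ f ∈ C, Continuous f) (hne : C.Nonempty)
    (hadd : ∀ f ∈ C, ∀ g ∈ C, (fun x => f x + g x) ∈ C)
    (hsmul : ∀ f ∈ C, ∀ t : ℝ, 0 < t → (fun x => t * f x) ∈ C)
    (hno : ∀ f ∈ C, ∃ x, f x ≤ 0) :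
    ∃ μ : Measure M, IsFiniteMeasure μ ∧ μ ≠ 0 ∧ ∀ f ∈ C, ∫ x, f x ∂μ ≤ 0 := by
  classical
  set S : Set C(M, ℝ) := {f | ∀ x, 0 < f x} with hS
  set K : Set C(M, ℝ) := {f | (f : M → ℝ) ∈ C} with hK
  have hSo : IsOpen S := by
    have h := ContinuousMap.isOpen_setOfPred_mapsTo (X := M) (Y := ℝ) isCompact_univ
      (isOpen_Ioi (a := (0 : ℝ)))
    have e : S = {f : C(M, ℝ) | MapsTo f univ (Ioi 0)} := by
      ext f
      simp [hS, MapsTo]
    rw [e]
    exact h
  have hSc : Convex ℝ S := by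
    intro f hf g hg a b ha hb hab x
    have h1 := hf x
    have h2 := hg x
    have : (a • f + b • g) x = a * f x + b * g x := rfl
    rw [this]
    rcases ha.eq_or_lt with h | h
    · have hb1 : b = 1 := by linarith
      rw [← h, hb1]
      simpa using h2
    · have := mul_pos h h1
      have := mul_nonneg hb h2.le
      linarith
  have hKc : Convex ℝ K := by
    intro f hf g hg a b ha hb hab
    rcases ha.eq_or_lt with h | h
    · have hb1 : b = 1 := by linarith
      rw [← h, hb1]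
      simpa using hg
    · rcases hb.eq_or_lt with h' | h'
      · have ha1 : a = 1 := by linarith
        rw [← h', ha1]
        simpa using hf
      · exact hadd _ (hsmul _ hf a h) _ (hsmul _ hg b h')
  have hd : Disjoint S K := by
    rw [Set.disjoint_left]
    intro f hf hf'
    obtain ⟨x, hx⟩ := hno _ hf'
    exact absurd (hf x) (not_lt.2 hx)
  obtain ⟨φ, u, h1, h2⟩ := geometric_hahn_banach_open hSc hSo hKc hd
  -- cones
  have hSs : ∀ f ∈ S, ∀ t : ℝ, 0 < t → t • f ∈ S := fun f hf t ht x => mul_pos ht (hf x)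
  have hone : (1 : C(M, ℝ)) ∈ S := fun x => zero_lt_one
  have hKs : ∀ f ∈ K, ∀ t : ℝ, 0 < t → t • f ∈ K := fun f hf t ht => hsmul _ hf t ht
  have hu0 : 0 ≤ u := by
    by_contra hu
    push Not at hu
    have a1 := h1 _ hone
    -- choose t small
    have a2 : φ (1 : C(M, ℝ)) < 0 := a1.trans hu
    have a3 : 0 < u / (2 * φ (1 : C(M, ℝ))) := div_pos_of_neg_of_neg hu (by linarith)
    have a4 := h1 _ (hSs _ hone _ a3)
    rw [map_smul, smul_eq_mul] at a4
    have a5 : u / (2 * φ (1 : C(M, ℝ))) * φ (1 : C(M, ℝ)) = u / 2 := by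
      have : φ (1 : C(M, ℝ)) ≠ 0 := a2.ne
      field_simp
    rw [a5] at a4
    linarith
  have hKn : ∀ f ∈ K, 0 ≤ φ f := by
    intro f hf
    by_contra hcon
    push Not at hcon
    -- large t
    have a4 := h2 _ (hKs _ hf ((u + 1) / (-φ f)) (div_pos (by linarith) (by linarith)))
    rw [map_smul, smul_eq_mul] at a4
    have a5 : (u + 1) / (-φ f) * φ f = -(u + 1) := by
      have : φ f ≠ 0 := hcon.ne
      field_simp
    rw [a5] at a4
    linarith
  have hSn : ∀ f ∈ S, φ f < 0 := by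
    have hu1 : u ≤ 0 := by
      obtain ⟨f0, hf0⟩ := hne
      have hf0' : (⟨f0, hc _ hf0⟩ : C(M, ℝ)) ∈ K := hf0
      by_contra hu
      push Not at hu
      have a0 := hKn _ hf0'
      have a1 := h2 _ hf0'
      have a2 : 0 < φ (⟨f0, hc _ hf0⟩ : C(M, ℝ)) := by linarith
      have a4 := h2 _ (hKs _ hf0' (u / (2 * φ (⟨f0, hc _ hf0⟩ : C(M, ℝ)))) (by positivity))
      rw [map_smul, smul_eq_mul] at a4
      have a5 : u / (2 * φ (⟨f0, hc _ hf0⟩ : C(M, ℝ))) * φ (⟨f0, hc _ hf0⟩ : C(M, ℝ)) = u / 2 := by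
        have := a2.ne'
        field_simp
      rw [a5] at a4
      linarith
    intro f hf
    exact (h1 f hf).trans_le hu1
  have hpos : ∀ f : C(M, ℝ), 0 ≤ f → 0 ≤ -φ f := by
    intro f hf
    by_contra hcon
    push Not at hcon
    have b1 : φ (1 : C(M, ℝ)) < 0 := hSn _ hone
    have b2 : 0 < φ f := by linarith
    -- f + ε 1
    have b3 : 0 < φ f / (-φ (1 : C(M, ℝ))) := div_pos b2 (by linarith)
    have b4 : f + (φ f / (-φ (1 : C(M, ℝ)))) • (1 : C(M, ℝ)) ∈ S := by
      intro x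
      have c1 : 0 ≤ f x := hf x
      have c2 : (f + (φ f / (-φ (1 : C(M, ℝ)))) • (1 : C(M, ℝ))) x =
        f x + (φ f / (-φ (1 : C(M, ℝ)))) * 1 := rfl
      rw [c2]
      linarith
    have b5 := hSn _ b4
    rw [map_add, map_smul, smul_eq_mul] at b5
    have b6 : φ f / (-φ (1 : C(M, ℝ))) * φ (1 : C(M, ℝ)) = -φ f := by
      have := b1.ne
      field_simp
    rw [b6] at b5
    linarith
  -- the positive functional on compactly supported functions
  let Λ₀ : CompactlySupportedContinuousMap M ℝ →ₗ[ℝ] ℝ :=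
    { toFun := fun f => -φ (f : C(M, ℝ))
      map_add' := by
        intro f g
        have : ((f + g : CompactlySupportedContinuousMap M ℝ) : C(M, ℝ)) =
          (f : C(M, ℝ)) + (g : C(M, ℝ)) := by ext x; rfl
        rw [this, map_add]
        ring
      map_smul' := by
        intro t f
        have : ((t • f : CompactlySupportedContinuousMap M ℝ) : C(M, ℝ)) =
          t • (f : C(M, ℝ)) := by ext x; rfl
        rw [this, map_smul]
        simp }
  let Λ : CompactlySupportedContinuousMap M ℝ →ₚ[ℝ] ℝ :=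
    PositiveLinearMap.mk₀ Λ₀ (fun f hf => hpos _ (fun x => hf x))
  have hΛ : ∀ f : C(M, ℝ), ∫ x, f x ∂(RealRMK.rieszMeasure Λ) = -φ f := by
    intro f
    have h := RealRMK.integral_rieszMeasure Λ
      (CompactlySupportedContinuousMap.continuousMapEquiv f)
    exact h
  refine ⟨RealRMK.rieszMeasure Λ, inferInstance, ?_, ?_⟩
  · intro h0
    have h := hΛ 1
    rw [h0] at h
    have h3 := hSn _ hone
    simp at h
    linarith
  · intro f hf
    have h := hΛ ⟨f, hc f hf⟩
    have h3 := hKn ⟨f, hc f hf⟩ hf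
    have h4 : ∫ x, f x ∂(RealRMK.rieszMeasure Λ) = -φ ⟨f, hc f hf⟩ := h
    rw [h4]
    linarith

end Pool.Agent.Lib.MP_df705a_gt.Perm
end
end

section

/-!
# Spectral pinching, part S1, S1a: separation by a pair of measures
-/

open scoped Topology
open Set Filter MeasureTheory

noncomputable section

namespace Pool.Agent.Lib.MP_df705a_gt.Pin.S1

variable {M : Type*} [TopologicalSpace M] [MeasurableSpace M] [BorelSpace M]

/-- A finite measure on the sum of two copies of a space is a pair of finite measures.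
Proof: `μ₁ = m.comap Sum.inl`, `μ₂ = m.comap Sum.inr`; the inclusions are closed embeddings
(`Topology.IsClosedEmbedding.inl`, `.inr`), hence measurable embeddings, with disjoint ranges which
cover the space; split the integral of `F` over `range Sum.inl` and its complement `range Sum.inr`
(`MeasurableEmbedding.integral_map`, `MeasurableEmbedding.map_comap`, `integral_add_compl`). -/
theorem sum_measure [CompactSpace M] [MeasurableSpace (M ⊕ M)] [BorelSpace (M ⊕ M)]
    (m : Measure (M ⊕ M)) [IsFiniteMeasure m] :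
    ∃ μ₁ μ₂ : Measure M, IsFiniteMeasure μ₁ ∧ IsFiniteMeasure μ₂ ∧
      m univ = μ₁ univ + μ₂ univ ∧
      ∀ F : M ⊕ M → ℝ, Continuous F →
        ∫ x, F x ∂m = ∫ x, F (Sum.inl x) ∂μ₁ + ∫ x, F (Sum.inr x) ∂μ₂ := by
  have hl : MeasurableEmbedding (Sum.inl : M → M ⊕ M) :=
    Topology.IsClosedEmbedding.inl.measurableEmbedding
  have hr : MeasurableEmbedding (Sum.inr : M → M ⊕ M) :=
    Topology.IsClosedEmbedding.inr.measurableEmbedding
  have hcompl : (range (Sum.inl : M → M ⊕ M))ᶜ = range Sum.inr :=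
    isCompl_range_inl_range_inr.compl_eq
  refine ⟨m.comap Sum.inl, m.comap Sum.inr, ?_, ?_, ?_, ?_⟩
  · exact ⟨by rw [hl.comap_apply]; exact measure_lt_top _ _⟩
  · exact ⟨by rw [hr.comap_apply]; exact measure_lt_top _ _⟩
  · rw [hl.comap_apply, hr.comap_apply, image_univ, image_univ, ← hcompl,
      measure_add_measure_compl hl.measurableSet_range]
  · intro F hF
    have hint : Integrable F m :=
      hF.integrable_of_hasCompactSupport (HasCompactSupport.of_compactSpace F)
    rw [← hl.integral_map, ← hr.integral_map, hl.map_comap, hr.map_comap, ← hcompl,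
      integral_add_compl hl.measurableSet_range hint]

/-- Proof: `M ⊕ M` is compact and Hausdorff; with `borel (M ⊕ M)` apply `Perm.exists_measure` to
the cone of the functions `F (inl x) = v x - t G x + t ε`, `F (inr x) = - v x + t G x + t ε` with
`v ∈ V`, `t > 0`. None of them is everywhere positive: it would mean `|v / t - G| < ε`. For the
measures `μ₁, μ₂` of `sum_measure`: `∫ v dμ₁ - ∫ v dμ₂ + t (ε (μ₁ + μ₂)(M) - ∫ G d μ₁ + ∫ G dμ₂) ≤ 0` for
all `v ∈ V`, `t > 0`. Replace `v` by `s v` with `s → ±∞`: `∫ v dμ₁ = ∫ v dμ₂`. With `v = 0`, `t = 1`: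
`∫ G dμ₁ - ∫ G dμ₂ ≥ ε (μ₁ + μ₂)(M) > 0`. -/
theorem exists_pair [CompactSpace M] [T2Space M] [Nonempty M] (V : Set (M → ℝ))
    (hc : ∀ v ∈ V, Continuous v) (h0 : (fun _ => (0 : ℝ)) ∈ V)
    (hadd : ∀ v ∈ V, ∀ w ∈ V, (fun x => v x + w x) ∈ V)
    (hsmul : ∀ v ∈ V, ∀ t : ℝ, (fun x => t * v x) ∈ V) {G : M → ℝ} (hG : Continuous G) {ε : ℝ}
    (hε : 0 < ε) (hno : ∀ v ∈ V, ∃ x, ε < |v x - G x|) :
    ∃ μ₁ μ₂ : Measure M, IsFiniteMeasure μ₁ ∧ IsFiniteMeasure μ₂ ∧
      (∀ v ∈ V, ∫ x, v x ∂μ₁ = ∫ x, v x ∂μ₂) ∧ ∫ x, G x ∂μ₂ < ∫ x, G x ∂μ₁ := by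
  letI : MeasurableSpace (M ⊕ M) := borel _
  haveI : BorelSpace (M ⊕ M) := ⟨rfl⟩
  set C : Set (M ⊕ M → ℝ) := {F | ∃ v ∈ V, ∃ t : ℝ, 0 < t ∧
    F = Sum.elim (fun x => v x - t * G x + t * ε) (fun x => -v x + t * G x + t * ε)} with hC
  have hm := Perm.exists_measure C ?_ ?_ ?_ ?_ ?_
  · obtain ⟨m, hm1, hm2, hm3⟩ := hm
    obtain ⟨μ₁, μ₂, h1, h2, h3, h4⟩ := sum_measure m
    have hi1 : ∀ f : M → ℝ, Continuous f → Integrable f μ₁ := fun f hf =>
      hf.integrable_of_hasCompactSupport (HasCompactSupport.of_compactSpace f)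
    have hi2 : ∀ f : M → ℝ, Continuous f → Integrable f μ₂ := fun f hf =>
      hf.integrable_of_hasCompactSupport (HasCompactSupport.of_compactSpace f)
    set B : ℝ := ε * (μ₁.real univ + μ₂.real univ) - ∫ x, G x ∂μ₁ + ∫ x, G x ∂μ₂ with hB
    have key : ∀ v ∈ V, (∫ x, v x ∂μ₁ - ∫ x, v x ∂μ₂) + B ≤ 0 := by
      intro v hv
      have hvc := hc v hv
      have h5 := hm3 _ (show Sum.elim (fun x => v x - 1 * G x + 1 * ε)
        (fun x => -v x + 1 * G x + 1 * ε) ∈ C from ⟨v, hv, 1, one_pos, rfl⟩)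
      rw [h4 _ (by fun_prop)] at h5
      simp only [Sum.elim_inl, Sum.elim_inr, one_mul] at h5
      have e1 : ∫ x, (v x - G x + ε) ∂μ₁ =
          ∫ x, v x ∂μ₁ - ∫ x, G x ∂μ₁ + μ₁.real univ * ε := by
        rw [integral_add (hi1 _ (by fun_prop)) (hi1 _ (by fun_prop)),
          integral_sub (hi1 _ (by fun_prop)) (hi1 _ (by fun_prop)), integral_const, smul_eq_mul]
      have e2 : ∫ x, (-v x + G x + ε) ∂μ₂ =
          -∫ x, v x ∂μ₂ + ∫ x, G x ∂μ₂ + μ₂.real univ * ε := by
        rw [integral_add (hi2 _ (by fun_prop)) (hi2 _ (by fun_prop)),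
          integral_add (hi2 _ (by fun_prop)) (hi2 _ (by fun_prop)), integral_const, smul_eq_mul,
          integral_neg]
      rw [e1, e2] at h5
      rw [hB]
      linarith
    refine ⟨μ₁, μ₂, h1, h2, ?_, ?_⟩
    · intro v hv
      by_contra hne
      have hd : ∫ x, v x ∂μ₁ - ∫ x, v x ∂μ₂ ≠ 0 := sub_ne_zero.2 hne
      have h6 := key _ (hsmul v hv ((1 - B) / (∫ x, v x ∂μ₁ - ∫ x, v x ∂μ₂)))
      rw [integral_const_mul, integral_const_mul, ← mul_sub, div_mul_cancel₀ _ hd] at h6
      linarith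
    · have h6 := key _ h0
      rw [integral_zero, integral_zero, sub_zero, zero_add, hB] at h6
      have h7 : 0 < μ₁.real univ + μ₂.real univ := by
        have h8 : m.real univ = μ₁.real univ + μ₂.real univ := by
          rw [Measure.real, h3, ENNReal.toReal_add (measure_ne_top _ _) (measure_ne_top _ _)]
          rfl
        rw [← h8]
        have h9 : m univ ≠ 0 := by
          rw [Ne, Measure.measure_univ_eq_zero]
          exact hm2
        exact ENNReal.toReal_pos h9 (measure_ne_top _ _)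
      have h8 := mul_pos hε h7
      linarith
  · rintro F ⟨v, hv, t, ht, rfl⟩
    have hvc := hc v hv
    fun_prop
  · exact ⟨_, _, h0, 1, one_pos, rfl⟩
  · rintro F ⟨v, hv, t, ht, rfl⟩ F' ⟨v', hv', t', ht', rfl⟩
    refine ⟨_, hadd v hv v' hv', t + t', add_pos ht ht', ?_⟩
    funext x
    rcases x with x | x
    · simp only [Sum.elim_inl]
      ring
    · simp only [Sum.elim_inr]
      ring
  · rintro F ⟨v, hv, t, ht, rfl⟩ t' ht'
    refine ⟨_, hsmul v hv t', t' * t, mul_pos ht' ht, ?_⟩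
    funext x
    rcases x with x | x
    · simp only [Sum.elim_inl]
      ring
    · simp only [Sum.elim_inr]
      ring
  · rintro F ⟨v, hv, t, ht, rfl⟩
    by_contra hcon
    push Not at hcon
    obtain ⟨x, hx⟩ := hno _ (hsmul v hv t⁻¹)
    have h1 := hcon (Sum.inl x)
    have h2 := hcon (Sum.inr x)
    simp only [Sum.elim_inl] at h1
    simp only [Sum.elim_inr] at h2
    have h3 : t⁻¹ * v x - G x = t⁻¹ * (v x - t * G x) := by
      field_simp
    have h4 : |v x - t * G x| ≤ t * ε := by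
      rw [abs_le]
      constructor <;> linarith
    rw [h3, abs_mul, abs_of_pos (inv_pos.2 ht)] at hx
    have h5 : t⁻¹ * |v x - t * G x| ≤ t⁻¹ * (t * ε) :=
      mul_le_mul_of_nonneg_left h4 (inv_pos.2 ht).le
    rw [← mul_assoc, inv_mul_cancel₀ ht.ne', one_mul] at h5
    linarith

/-- Proof: `σ = μ₁ + μ₂`, `a = (μ₁.rnDeriv σ).toReal`, `b = (μ₂.rnDeriv σ).toReal`; `a + b = 1` almost
everywhere (`Measure.rnDeriv_add`, `Measure.rnDeriv_self`), `s = max (-1) (min 1 (a - b))`;
`integral_rnDeriv_smul`. -/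
theorem exists_density {M : Type*} [MeasurableSpace M] (μ₁ μ₂ : Measure M) [IsFiniteMeasure μ₁]
    [IsFiniteMeasure μ₂] :
    ∃ (σ : Measure M) (s : M → ℝ), IsFiniteMeasure σ ∧ Measurable s ∧ (∀ x, |s x| ≤ 1) ∧
      ∀ f : M → ℝ, Integrable f μ₁ → Integrable f μ₂ →
        Integrable f σ ∧ ∫ x, f x * s x ∂σ = ∫ x, f x ∂μ₁ - ∫ x, f x ∂μ₂ := by
  set σ : Measure M := μ₁ + μ₂ with hσ
  have hac1 : μ₁ ≪ σ := Measure.absolutelyContinuous_of_le (Measure.le_add_right le_rfl)
  have hac2 : μ₂ ≪ σ := Measure.absolutelyContinuous_of_le (Measure.le_add_left le_rfl)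
  refine ⟨σ, fun x => max (-1) (min 1 ((μ₁.rnDeriv σ x).toReal - (μ₂.rnDeriv σ x).toReal)),
    inferInstance, ?_, ?_, ?_⟩
  · exact measurable_const.max (measurable_const.min
      ((Measure.measurable_rnDeriv μ₁ σ).ennreal_toReal.sub
        (Measure.measurable_rnDeriv μ₂ σ).ennreal_toReal))
  · intro x
    rw [abs_le]
    exact ⟨le_max_left _ _, max_le (by norm_num) (min_le_left _ _)⟩
  · intro f hf1 hf2
    refine ⟨hf1.add_measure hf2, ?_⟩
    have hab : ∀ᵐ x ∂σ, μ₁.rnDeriv σ x + μ₂.rnDeriv σ x = 1 := by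
      filter_upwards [Measure.rnDeriv_add μ₁ μ₂ σ, Measure.rnDeriv_self σ] with x h1 h2
      rw [← hσ] at h1
      rw [h2] at h1
      exact h1.symm
    have hs : ∀ᵐ x ∂σ, f x * max (-1) (min 1 ((μ₁.rnDeriv σ x).toReal -
        (μ₂.rnDeriv σ x).toReal)) =
          (μ₁.rnDeriv σ x).toReal • f x - (μ₂.rnDeriv σ x).toReal • f x := by
      filter_upwards [hab] with x hx
      have h1 : μ₁.rnDeriv σ x ≠ ⊤ := by
        intro h
        rw [h, top_add] at hx
        exact ENNReal.top_ne_one hx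
      have h2 : μ₂.rnDeriv σ x ≠ ⊤ := by
        intro h
        rw [h, add_top] at hx
        exact ENNReal.top_ne_one hx
      have h3 : (μ₁.rnDeriv σ x).toReal + (μ₂.rnDeriv σ x).toReal = 1 := by
        rw [← ENNReal.toReal_add h1 h2, hx, ENNReal.toReal_one]
      have h4 : 0 ≤ (μ₁.rnDeriv σ x).toReal := ENNReal.toReal_nonneg
      have h5 : 0 ≤ (μ₂.rnDeriv σ x).toReal := ENNReal.toReal_nonneg
      rw [min_eq_right (by linarith), max_eq_right (by linarith), smul_eq_mul, smul_eq_mul]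
      ring
    rw [integral_congr_ae hs, integral_sub ((integrable_rnDeriv_smul_iff hac1).2 hf1)
      ((integrable_rnDeriv_smul_iff hac2).2 hf2), integral_rnDeriv_smul hac1,
      integral_rnDeriv_smul hac2]

end Pool.Agent.Lib.MP_df705a_gt.Pin.S1
end
end

section

/-!
# TASK L4: the derivatives of the two point function on the diagonal
-/

open scoped ContDiff Topology
open Set Module Filter

noncomputable section

namespace Pool.Agent.Lib.MP_df705a_gt.Perm

open Pool.Agent.Lib.MP_df705a_gt.Twist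

variable {E : Type*} [NormedAddCommGroup E] [NormedSpace ℝ E] [FiniteDimensional ℝ E]
  {h : Curv.Coeff E} {R : E × E → ℝ} {U : Set E}

section aux

variable {V : Type*} [NormedAddCommGroup V] [NormedSpace ℝ V]

/-- Directional derivatives of smooth functions are smooth. -/
private theorem contDiffAt_dir {f : V → ℝ} {q : V} (hf : ContDiffAt ℝ ∞ f q) (v : V) :
    ContDiffAt ℝ ∞ (fun q' => fderiv ℝ f q' v) q := by
  have h1 : ContDiffAt ℝ ∞ (fderiv ℝ f) q := hf.fderiv_right (m := ∞) (by simp)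
  exact h1.clm_apply contDiffAt_const

/-- Symmetry of the second derivative. -/
private theorem fderiv_dir_symm {f : V → ℝ} {q : V} (hf : ContDiffAt ℝ ∞ f q) (v w : V) :
    fderiv ℝ (fun q' => fderiv ℝ f q' v) q w = fderiv ℝ (fun q' => fderiv ℝ f q' w) q v := by
  have h1 : ContDiffAt ℝ ∞ (fderiv ℝ f) q := hf.fderiv_right (m := ∞) (by simp)
  have h2 : DifferentiableAt ℝ (fderiv ℝ f) q := h1.differentiableAt (by simp)
  have h3 : ∀ u : V, fderiv ℝ (fun q' => fderiv ℝ f q' u) q = (fderiv ℝ (fderiv ℝ f) q).flip u := by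
    intro u
    have := (h2.hasFDerivAt.clm_apply (hasFDerivAt_const u q)).fderiv
    rw [this]
    ext z
    simp
  have h4 : IsSymmSndFDerivAt ℝ f q := by
    apply hf.isSymmSndFDerivAt
    simp only [minSmoothness_of_isRCLikeNormedField]
    exact WithTop.coe_le_coe.2 le_top
  rw [h3 v, h3 w]
  simp only [ContinuousLinearMap.flip_apply]
  exact h4 w v

/-- Chain rule on the diagonal. -/
private theorem fderiv_diag {f : V × V → ℝ} {y : V} (hf : ContDiffAt ℝ ∞ f (y, y)) (w : V) :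
    fderiv ℝ (fun x => f (x, x)) y w = fderiv ℝ f (y, y) (w, 0) + fderiv ℝ f (y, y) (0, w) := by
  have h1 : HasFDerivAt (fun x : V => (x, x))
      ((ContinuousLinearMap.id ℝ V).prod (ContinuousLinearMap.id ℝ V)) y :=
    (hasFDerivAt_id y).prodMk (hasFDerivAt_id y)
  have h2 : HasFDerivAt f (fderiv ℝ f (y, y)) (y, y) :=
    (hf.differentiableAt (by simp)).hasFDerivAt
  have h3 : HasFDerivAt (fun x => f (x, x)) _ y := HasFDerivAt.comp y h2 h1
  rw [h3.fderiv, ← map_add]
  simp

/-- Chain rule in the first variable. -/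
private theorem fderiv_fst {f : V × V → ℝ} {x y : V} (hf : ContDiffAt ℝ ∞ f (x, y)) (w : V) :
    fderiv ℝ (fun x => f (x, y)) x w = fderiv ℝ f (x, y) (w, 0) := by
  have h1 : HasFDerivAt (fun x : V => (x, y))
      ((ContinuousLinearMap.id ℝ V).prod (0 : V →L[ℝ] V)) x :=
    (hasFDerivAt_id x).prodMk (hasFDerivAt_const y x)
  have h2 : HasFDerivAt f (fderiv ℝ f (x, y)) (x, y) :=
    (hf.differentiableAt (by simp)).hasFDerivAt
  have h3 : HasFDerivAt (fun x => f (x, y)) _ x := HasFDerivAt.comp x h2 h1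
  rw [h3.fderiv]
  simp

/-- Chain rule for the exchange of the variables. -/
private theorem fderiv_swap {f g : V × V → ℝ} {O : Set (V × V)} (hO : IsOpen O)
    (hfg : ∀ q ∈ O, f q = g q.swap) {q : V × V} (hq : q ∈ O)
    (hg : ContDiffAt ℝ ∞ g q.swap) (v : V × V) :
    fderiv ℝ f q v = fderiv ℝ g q.swap v.swap := by
  have h1 : f =ᶠ[𝓝 q] fun q' => g q'.swap :=
    Filter.eventuallyEq_of_mem (hO.mem_nhds hq) (fun q' hq' => hfg q' hq')
  rw [h1.fderiv_eq]
  have h2 : HasFDerivAt g (fderiv ℝ g q.swap) q.swap :=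
    (hg.differentiableAt (by simp)).hasFDerivAt
  have h0 : HasFDerivAt (Prod.swap : V × V → V × V)
      ((ContinuousLinearMap.snd ℝ V V).prod (ContinuousLinearMap.fst ℝ V V)) q :=
    (hasFDerivAt_snd (𝕜 := ℝ) (p := q)).prodMk (hasFDerivAt_fst (𝕜 := ℝ) (p := q))
  have h3 : HasFDerivAt (fun q' => g q'.swap) _ q := HasFDerivAt.comp q h2 h0
  rw [h3.fderiv]
  rfl

end aux

omit [NormedAddCommGroup E] [NormedSpace ℝ E] [FiniteDimensional ℝ E] in
private theorem mem_prod {y : E} (hy : y ∈ U) : (y, y) ∈ U ×ˢ U := ⟨hy, hy⟩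

private theorem smooth_at (D : LocData h R U) {q : E × E} (hq : q ∈ U ×ˢ U) :
    ContDiffAt ℝ ∞ R q :=
  D.R_smooth.contDiffAt ((D.isOpen.prod D.isOpen).mem_nhds hq)

/-- The derivative of the bilinear form. -/
private theorem fderiv_hB (D : LocData h R U) {y : E} (hy : y ∈ U) (v w z : E) :
    fderiv ℝ (fun x => hB h x v w) y z = dB h y z v w := by
  have h1 : ∀ i j, DifferentiableAt ℝ (fun x => h x i j) y := fun i j =>
    ((D.h_smooth i j).contDiffAt (D.isOpen.mem_nhds hy)).differentiableAt (by simp)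
  have h2 : HasFDerivAt (fun x => hB h x v w)
      (∑ i, ∑ j, ((finBasis ℝ E).repr v i * (finBasis ℝ E).repr w j) •
        fderiv ℝ (fun x => h x i j) y) y := by
    unfold hB
    refine HasFDerivAt.fun_sum fun i _ => HasFDerivAt.fun_sum fun j _ => ?_
    exact (h1 i j).hasFDerivAt.mul_const _
  rw [h2.fderiv]
  simp only [sum_apply, smul_apply, smul_eq_mul, dB]
  exact Finset.sum_congr rfl fun i _ => Finset.sum_congr rfl fun j _ => mul_comm _ _

/-- First derivative: `R(·, y)` has a minimum at `y`. -/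
theorem jet_one (D : LocData h R U) {y : E} (hy : y ∈ U) (v : E × E) :
    fderiv ℝ R (y, y) v = 0 := by
  have h1 : IsLocalMin R (y, y) := by
    filter_upwards [(D.isOpen.prod D.isOpen).mem_nhds (mem_prod hy)] with q hq
    rw [D.R_diag y hy]
    exact D.R_nonneg q.1 hq.1 q.2 hq.2
  rw [h1.fderiv_eq_zero]
  rfl

/-- Second derivative in the first variable. -/
theorem jet_two (D : LocData h R U) {y : E} (hy : y ∈ U) (v w : E) :
    fderiv ℝ (fun q => fderiv ℝ R q (v, 0)) (y, y) (w, 0) = 2 * hB h y v w := by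
  rw [← D.R_hess y hy v w]
  have h1 : (fun x => fderiv ℝ (fun x => R (x, y)) x v) =ᶠ[𝓝 y]
      fun x => fderiv ℝ R (x, y) (v, 0) := by
    filter_upwards [D.isOpen.mem_nhds hy] with x hx
    exact fderiv_fst (smooth_at D (q := (x, y)) ⟨hx, hy⟩) v
  rw [h1.fderiv_eq]
  exact (fderiv_fst (f := fun q => fderiv ℝ R q (v, 0))
    (contDiffAt_dir (smooth_at D (mem_prod hy)) _) w).symm

/-- Mixed second derivative. -/
theorem jet_mixed (D : LocData h R U) {y : E} (hy : y ∈ U) (v w : E) :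
    fderiv ℝ (fun q => fderiv ℝ R q (v, 0)) (y, y) (0, w) = -(2 * hB h y v w) := by
  have h1 : (fun x => fderiv ℝ R (x, x) (v, 0)) =ᶠ[𝓝 y] fun _ => (0 : ℝ) := by
    filter_upwards [D.isOpen.mem_nhds hy] with x hx
    exact jet_one D hx _
  have h2 : fderiv ℝ (fun x => fderiv ℝ R (x, x) (v, 0)) y w = 0 := by
    rw [h1.fderiv_eq]
    simp
  rw [fderiv_diag (f := fun q => fderiv ℝ R q (v, 0))
    (contDiffAt_dir (smooth_at D (mem_prod hy)) _) w, jet_two D hy v w] at h2
  linarith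

/-- **Third derivative in the first variable**: `D_x³ R (v, w, z) = D_v h (w, z) + D_w h (v, z) +
D_z h (v, w)`. See the proof sketch in the task list. -/
theorem jet_three (D : LocData h R U) {y : E} (hy : y ∈ U) (v w z : E) :
    fderiv ℝ (fun q => fderiv ℝ (fun q' => fderiv ℝ R q' (v, 0)) q (w, 0)) (y, y) (z, 0) =
      dB h y v w z + dB h y w v z + dB h y z v w := by
  have hO : IsOpen (U ×ˢ U) := D.isOpen.prod D.isOpen
  -- notation
  set d1 : E × E → E × E → ℝ := fun a q => fderiv ℝ R q a with hd1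
  set d2 : E × E → E × E → E × E → ℝ := fun a b q => fderiv ℝ (d1 a) q b with hd2
  set d3 : E × E → E × E → E × E → E × E → ℝ := fun a b c q => fderiv ℝ (d2 a b) q c with hd3
  have s1 : ∀ a q, q ∈ U ×ˢ U → ContDiffAt ℝ ∞ (d1 a) q := fun a q hq =>
    contDiffAt_dir (smooth_at D hq) a
  have s2 : ∀ a b q, q ∈ U ×ˢ U → ContDiffAt ℝ ∞ (d2 a b) q := fun a b q hq =>
    contDiffAt_dir (s1 a q hq) b
  -- symmetries
  have y12 : ∀ a b q, q ∈ U ×ˢ U → d2 a b q = d2 b a q := fun a b q hq =>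
    fderiv_dir_symm (smooth_at D hq) a b
  have t12 : ∀ a b c, d3 a b c (y, y) = d3 b a c (y, y) := by
    intro a b c
    have : d2 a b =ᶠ[𝓝 (y, y)] d2 b a :=
      Filter.eventuallyEq_of_mem (hO.mem_nhds (mem_prod hy)) (fun q hq => y12 a b q hq)
    simp only [hd3]
    rw [this.fderiv_eq]
  have t23 : ∀ a b c, d3 a b c (y, y) = d3 a c b (y, y) := fun a b c =>
    fderiv_dir_symm (s1 a _ (mem_prod hy)) b c
  -- exchange of the variables
  have hsw : ∀ q : E × E, q ∈ U ×ˢ U → q.swap ∈ U ×ˢ U := fun q hq => ⟨hq.2, hq.1⟩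
  have w0 : ∀ q ∈ U ×ˢ U, R q = R q.swap := fun q hq => D.R_symm q.1 hq.1 q.2 hq.2
  have w1 : ∀ a, ∀ q ∈ U ×ˢ U, d1 a q = d1 a.swap q.swap := fun a q hq =>
    fderiv_swap hO w0 hq (smooth_at D (hsw q hq)) a
  have w2 : ∀ a b, ∀ q ∈ U ×ˢ U, d2 a b q = d2 a.swap b.swap q.swap := fun a b q hq =>
    fderiv_swap hO (w1 a) hq (s1 _ _ (hsw q hq)) b
  have w3 : ∀ a b c, d3 a b c (y, y) = d3 a.swap b.swap c.swap (y, y) := fun a b c =>
    fderiv_swap hO (w2 a b) (mem_prod hy) (s2 _ _ _ (hsw _ (mem_prod hy))) c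
  -- differentiate `jet_two` along the diagonal
  have e1 : ∀ v w z : E, d3 (v, 0) (w, 0) (z, 0) (y, y) + d3 (v, 0) (w, 0) (0, z) (y, y) =
      2 * dB h y z v w := by
    intro v w z
    have h1 : (fun x => d2 (v, 0) (w, 0) (x, x)) =ᶠ[𝓝 y] fun x => 2 * hB h x v w := by
      filter_upwards [D.isOpen.mem_nhds hy] with x hx
      exact jet_two D hx v w
    have h2 := fderiv_diag (f := d2 (v, 0) (w, 0)) (s2 _ _ _ (mem_prod hy)) z
    rw [h1.fderiv_eq] at h2
    have h3 : DifferentiableAt ℝ (fun x => hB h x v w) y := by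
      unfold hB
      refine DifferentiableAt.fun_sum fun i _ => DifferentiableAt.fun_sum fun j _ => ?_
      exact (((D.h_smooth i j).contDiffAt (D.isOpen.mem_nhds hy)).differentiableAt
        (by simp)).mul_const _
    have h4 : fderiv ℝ (fun x => 2 * hB h x v w) y z = 2 * dB h y z v w := by
      rw [(h3.hasFDerivAt.const_mul 2).fderiv]
      simp only [smul_apply, smul_eq_mul]
      rw [fderiv_hB D hy]
    rw [h4] at h2
    exact h2.symm
  -- differentiate `jet_mixed` along the diagonal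
  have e2 : ∀ v w z : E, d3 (v, 0) (0, w) (z, 0) (y, y) + d3 (v, 0) (0, w) (0, z) (y, y) =
      -(2 * dB h y z v w) := by
    intro v w z
    have h1 : (fun x => d2 (v, 0) (0, w) (x, x)) =ᶠ[𝓝 y] fun x => -(2 * hB h x v w) := by
      filter_upwards [D.isOpen.mem_nhds hy] with x hx
      exact jet_mixed D hx v w
    have h2 := fderiv_diag (f := d2 (v, 0) (0, w)) (s2 _ _ _ (mem_prod hy)) z
    rw [h1.fderiv_eq] at h2
    have h3 : DifferentiableAt ℝ (fun x => hB h x v w) y := by
      unfold hB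
      refine DifferentiableAt.fun_sum fun i _ => DifferentiableAt.fun_sum fun j _ => ?_
      exact (((D.h_smooth i j).contDiffAt (D.isOpen.mem_nhds hy)).differentiableAt
        (by simp)).mul_const _
    have h4 : fderiv ℝ (fun x => -(2 * hB h x v w)) y z = -(2 * dB h y z v w) := by
      have h5 : (fun x => -(2 * hB h x v w)) = fun x => (-2) * hB h x v w := by
        funext x
        ring
      rw [h5, (h3.hasFDerivAt.const_mul (-2)).fderiv]
      simp only [smul_apply, smul_eq_mul]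
      rw [fderiv_hB D hy]
      ring
    rw [h4] at h2
    exact h2.symm
  -- `U z v w = D_x² D_y R (v, w; z)`
  have e3 : ∀ v w z : E, d3 (v, 0) (z, 0) (0, w) (y, y) + d3 (w, 0) (z, 0) (0, v) (y, y) =
      -(2 * dB h y z v w) := by
    intro v w z
    rw [← e2 v w z, t23 (v, 0) (z, 0) (0, w)]
    congr 1
    have := w3 (v, 0) (0, w) (0, z)
    simp only [Prod.swap_prod_mk] at this
    rw [this, t12 (0, v) (w, 0) (z, 0), t23 (w, 0) (0, v) (z, 0)]
  have f1 := e3 v w z
  have f2 := e3 v z w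
  have f3 := e3 w z v
  have f4 := e1 v w z
  -- rename
  have g1 : d3 (z, 0) (w, 0) (0, v) (y, y) = d3 (w, 0) (z, 0) (0, v) (y, y) := t12 _ _ _
  have g2 : d3 (z, 0) (v, 0) (0, w) (y, y) = d3 (v, 0) (z, 0) (0, w) (y, y) := t12 _ _ _
  have g3 : d3 (w, 0) (v, 0) (0, z) (y, y) = d3 (v, 0) (w, 0) (0, z) (y, y) := t12 _ _ _
  have hsymm : ∀ a b c : E, dB h y a b c = dB h y a c b := by
    intro a b c
    have k2 : (fun x => hB h x b c) =ᶠ[𝓝 y] fun x => hB h x c b := by
      filter_upwards [D.isOpen.mem_nhds hy] with x hx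
      have m1 := jet_two D hx b c
      have m2 := jet_two D hx c b
      have m3 := y12 (b, 0) (c, 0) (x, x) ⟨hx, hx⟩
      simp only [hd2, hd1] at m3
      linarith
    rw [← fderiv_hB D hy, ← fderiv_hB D hy, k2.fderiv_eq]
  have goal' : d3 (v, 0) (w, 0) (z, 0) (y, y) = dB h y v w z + dB h y w v z + dB h y z v w := by
    rw [g1] at f2
    rw [g2, g3] at f3
    linarith
  exact goal'

end Pool.Agent.Lib.MP_df705a_gt.Perm
end
end

section

/-!
# TASK L7: the two point function is comparable with `|x - y|²`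
-/

open scoped ContDiff Topology
open Set Module Filter

noncomputable section

namespace Pool.Agent.Lib.MP_df705a_gt.Perm

open Pool.Agent.Lib.MP_df705a_gt.Twist

variable {E : Type*} [NormedAddCommGroup E] [NormedSpace ℝ E] [FiniteDimensional ℝ E]
  {h : Curv.Coeff E} {R : E × E → ℝ} {U : Set E}

private theorem lb_hB_smul (h : Curv.Coeff E) (y : E) (t : ℝ) (v : E) :
    hB h y (t • v) (t • v) = t ^ 2 * hB h y v v := by
  unfold hB
  rw [Finset.mul_sum]
  refine Finset.sum_congr rfl fun i _ => ?_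
  rw [Finset.mul_sum]
  refine Finset.sum_congr rfl fun j _ => ?_
  simp only [map_smul, Finsupp.smul_apply, smul_eq_mul]
  ring

private theorem lb_hB_pos {y : E} (hp : (h y).PosDef) {v : E} (hv : v ≠ 0) :
    0 < hB h y v v := by
  have hx : (fun i => (finBasis ℝ E).repr v i) ≠ 0 := by
    intro h0
    apply hv
    have : (finBasis ℝ E).repr v = 0 := by
      ext i
      exact congrFun h0 i
    exact (LinearEquiv.map_eq_zero_iff _).1 this
  have h1 := hp.dotProduct_mulVec_pos hx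
  have h2 : star (fun i => (finBasis ℝ E).repr v i) ⬝ᵥ
      ((h y).mulVec (fun i => (finBasis ℝ E).repr v i)) = hB h y v v := by
    unfold hB
    simp only [dotProduct, Matrix.mulVec, star_trivial, Finset.mul_sum]
    refine Finset.sum_congr rfl fun i _ => Finset.sum_congr rfl fun j _ => ?_
    ring
  rw [h2] at h1
  exact h1

private theorem lb_hB_cont (D : LocData h R U) {p : E} (hp : p ∈ U) (v : E) :
    ContinuousAt (fun z : E × E => hB h z.1 z.2 z.2) (p, v) := by
  unfold hB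
  have hc : ∀ i j, ContinuousAt (fun z : E × E => h z.1 i j) (p, v) := by
    intro i j
    have h1 : ContinuousAt (fun y => h y i j) p :=
      ((D.h_smooth i j).continuousOn).continuousAt (D.isOpen.mem_nhds hp)
    exact ContinuousAt.comp (f := fun z : E × E => z.1) (g := fun y => h y i j) (x := (p, v)) h1
      continuousAt_fst
  have hr : ∀ i, ContinuousAt (fun z : E × E => (finBasis ℝ E).repr z.2 i) (p, v) := by
    intro i
    have h1 : Continuous fun w : E => (finBasis ℝ E).repr w i :=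
      ((finBasis ℝ E).coord i).continuous_of_finiteDimensional
    exact (h1.comp continuous_snd).continuousAt
  refine tendsto_finsetSum _ fun i _ => tendsto_finsetSum _ fun j _ => ?_
  exact (hc i j).mul ((hr i).mul (hr j))

private theorem lb_form (D : LocData h R U) {p : E} (hp : p ∈ U) :
    ∃ c C : ℝ, 0 < c ∧ ∀ᶠ y in 𝓝 p, ∀ v : E,
      c * ‖v‖ ^ 2 ≤ hB h y v v ∧ hB h y v v ≤ C * ‖v‖ ^ 2 := by
  have hK : IsCompact (Metric.sphere (0 : E) 1) := isCompact_sphere _ _
  have hcont : ContinuousOn (fun v : E => hB h p v v) (Metric.sphere (0 : E) 1) := by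
    intro v _
    have h1 := lb_hB_cont D hp v
    exact (ContinuousAt.comp (f := fun v : E => (p, v)) (g := fun z : E × E => hB h z.1 z.2 z.2)
      (x := v) h1 (by fun_prop)).continuousWithinAt
  have hne : ∀ v ∈ Metric.sphere (0 : E) 1, v ≠ 0 := by
    intro v hv h0
    rw [h0] at hv
    simp at hv
  obtain ⟨c, hc, hc'⟩ := hK.exists_forall_le' hcont (a := 0)
    (fun v hv => lb_hB_pos (D.h_pos p hp) (hne v hv))
  obtain ⟨C, hC⟩ := (hK.image_of_continuousOn hcont).bddAbove
  have hC' : ∀ v ∈ Metric.sphere (0 : E) 1, hB h p v v ≤ C := fun v hv =>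
    hC ⟨v, hv, rfl⟩
  have hev : ∀ᶠ y in 𝓝 p, ∀ v ∈ Metric.sphere (0 : E) 1,
      c / 2 < hB h y v v ∧ hB h y v v < C + 1 := by
    apply hK.eventually_forall_of_forall_eventually
      (P := fun y v => c / 2 < hB h y v v ∧ hB h y v v < C + 1)
    intro v hv
    have h1 := lb_hB_cont D hp v
    have h2 := hc' v hv
    have h3 := hC' v hv
    exact (h1.eventually (lt_mem_nhds (show c / 2 < hB h p v v by linarith))).and
      (h1.eventually (gt_mem_nhds (show hB h p v v < C + 1 by linarith)))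
  refine ⟨c / 2, C + 1, by positivity, hev.mono fun y hy v => ?_⟩
  by_cases hv : v = 0
  · subst hv
    have h0 : hB h y 0 0 = 0 := by simp [hB]
    simp [h0]
  · have hn : 0 < ‖v‖ := norm_pos_iff.2 hv
    have hs : (‖v‖⁻¹ • v) ∈ Metric.sphere (0 : E) 1 := by
      rw [mem_sphere_zero_iff_norm, norm_smul, norm_inv, norm_norm]
      exact inv_mul_cancel₀ hn.ne'
    have h1 := hy _ hs
    rw [lb_hB_smul] at h1
    obtain ⟨h2, h3⟩ := h1
    have h4 : (‖v‖⁻¹) ^ 2 * hB h y v v = hB h y v v / ‖v‖ ^ 2 := by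
      field_simp
    rw [h4] at h2 h3
    rw [lt_div_iff₀ (by positivity)] at h2
    rw [div_lt_iff₀ (by positivity)] at h3
    exact ⟨h2.le, h3.le⟩

theorem R_bounds (D : LocData h R U) {p : E} (hp : p ∈ U) :
    ∃ c C : ℝ, 0 < c ∧ ∀ᶠ q : E × E in 𝓝 (p, p),
      c * ‖q.1 - q.2‖ ^ 2 ≤ R q ∧ R q ≤ C * ‖q.1 - q.2‖ ^ 2 := by
  have hRp : ContDiffAt ℝ ∞ R (p, p) :=
    D.R_smooth.contDiffAt ((D.isOpen.prod D.isOpen).mem_nhds ⟨hp, hp⟩)
  obtain ⟨K, hK⟩ := diag_expand_two hRp
  obtain ⟨c, C, hc, hform⟩ := lb_form D hp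
  have hU := (continuous_snd.tendsto (p, p)).eventually (D.isOpen.mem_nhds hp)
  have hform' := (continuous_snd.tendsto (p, p)).eventually hform
  -- `|x - y|` is small
  have hsmall : ∀ᶠ q : E × E in 𝓝 (p, p), (|K| + 1) * ‖q.1 - q.2‖ < c / 2 := by
    have h1 : ContinuousAt (fun q : E × E => (|K| + 1) * ‖q.1 - q.2‖) (p, p) := by fun_prop
    apply h1.eventually (gt_mem_nhds _)
    simp only [sub_self, norm_zero, mul_zero]
    positivity
  refine ⟨c / 2, C + c, by positivity, ?_⟩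
  filter_upwards [hK, hU, hform', hsmall] with q hq hqU hqf hqs
  have hq2 : q.2 ∈ U := hqU
  rw [D.R_diag _ hq2, jet_one D hq2, jet_two D hq2] at hq
  obtain ⟨hf1, hf2⟩ := hqf (q.1 - q.2)
  have e1 : R q - (0 + 0 + 1 / 2 * (2 * hB h q.2 (q.1 - q.2) (q.1 - q.2))) =
      R q - hB h q.2 (q.1 - q.2) (q.1 - q.2) := by ring
  rw [e1] at hq
  have hn : 0 ≤ ‖q.1 - q.2‖ := norm_nonneg _
  have h3 : K * ‖q.1 - q.2‖ ^ 3 ≤ (c / 2) * ‖q.1 - q.2‖ ^ 2 := by
    have h4 : K * ‖q.1 - q.2‖ ≤ c / 2 := by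
      have h5 : K * ‖q.1 - q.2‖ ≤ (|K| + 1) * ‖q.1 - q.2‖ :=
        mul_le_mul_of_nonneg_right (by linarith [le_abs_self K]) hn
      linarith
    have h6 : K * ‖q.1 - q.2‖ ^ 3 = (K * ‖q.1 - q.2‖) * ‖q.1 - q.2‖ ^ 2 := by ring
    rw [h6]
    exact mul_le_mul_of_nonneg_right h4 (by positivity)
  obtain ⟨h7, h8⟩ := abs_le.1 hq
  have hn2 : 0 ≤ ‖q.1 - q.2‖ ^ 2 := by positivity
  constructor
  · nlinarith
  · nlinarith

end Pool.Agent.Lib.MP_df705a_gt.Perm
end
end

section

/-!
# Abstract Laplace operators with a two point function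
-/

open scoped ContDiff Topology
open Set Filter MeasureTheory

noncomputable section

namespace Pool.Agent.Lib.MP_df705a_gt.Perm

/-- An abstract Laplace operator `Lap` (with `Gam f = |∇ f|²`) acting on a class `S` of functions
on the space `M`, together with a two point function `rho`, a substitute for the square of the
distance. -/
structure LapSys (M : Type*) [TopologicalSpace M] where
  /-- the class of smooth functions -/
  S : Set (M → ℝ)
  /-- the Laplacian -/
  Lap : (M → ℝ) → M → ℝ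
  /-- the square of the length of the gradient -/
  Gam : (M → ℝ) → M → ℝ
  /-- the two point function -/
  rho : M → M → ℝ
  cont : ∀ f ∈ S, Continuous f
  lap_cont : ∀ f ∈ S, Continuous (Lap f)
  const_mem : ∀ c : ℝ, (fun _ => c) ∈ S
  add_mem : ∀ f ∈ S, ∀ g ∈ S, (fun x => f x + g x) ∈ S
  smul_mem : ∀ f ∈ S, ∀ c : ℝ, (fun x => c * f x) ∈ S
  lap_const : ∀ (c : ℝ) (x : M), Lap (fun _ => c) x = 0
  lap_add : ∀ f ∈ S, ∀ g ∈ S, ∀ x, Lap (fun x => f x + g x) x = Lap f x + Lap g x
  lap_smul : ∀ f ∈ S, ∀ (c : ℝ) (x : M), Lap (fun x => c * f x) x = c * Lap f x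
  comp_mem : ∀ f ∈ S, ∀ φ : ℝ → ℝ, (∀ x, ContDiffAt ℝ ∞ φ (f x)) → (fun x => φ (f x)) ∈ S
  lap_comp : ∀ f ∈ S, ∀ φ : ℝ → ℝ, (∀ x, ContDiffAt ℝ ∞ φ (f x)) → ∀ x,
    Lap (fun x => φ (f x)) x = deriv φ (f x) * Lap f x + deriv (deriv φ) (f x) * Gam f x
  gam_nonneg : ∀ f ∈ S, ∀ x, 0 ≤ Gam f x
  rho_mem : ∀ y, (fun x => rho x y) ∈ S
  rho_symm : ∀ x y, rho x y = rho y x
  rho_self : ∀ x, rho x x = 0
  rho_pos : ∀ x y, x ≠ y → 0 < rho x y
  rho_cont : Continuous fun p : M × M => rho p.1 p.2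
  lapRho_cont : Continuous fun p : M × M => Lap (fun x => rho x p.2) p.1
  gamRho_cont : Continuous fun p : M × M => Gam (fun x => rho x p.2) p.1
  est1 : ∃ C : ℝ, ∀ x y, |Lap (fun z => rho z y) x - Lap (fun z => rho z x) y| ≤
    C * (rho x y * √(rho x y))
  est2 : ∃ C : ℝ, ∀ x y, |Gam (fun z => rho z y) x - Gam (fun z => rho z x) y| ≤
    C * (rho x y ^ 2 * √(rho x y))
  est3 : ∃ c r : ℝ, 0 < c ∧ 0 < r ∧ ∀ x y, rho x y ≤ r → c * rho x y ≤ Gam (fun z => rho z y) x

/-- The function `t ↦ (t + s)^(-N)`. -/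
def ker (N : ℕ) (s t : ℝ) : ℝ := ((t + s) ^ N)⁻¹

/-- The operator `-c Lap + V`. -/
def LapSys.op {M : Type*} [TopologicalSpace M] (A : LapSys M) (c : ℝ) (V : M → ℝ) (u : M → ℝ)
    (x : M) : ℝ :=
  -c * A.Lap u x + V x * u x

end Pool.Agent.Lib.MP_df705a_gt.Perm
end
end

section

/-!
# TASK L3: smoothness of the Laplacian and of the gradient square of the two point function
-/

open scoped ContDiff Topology
open Set Module Filter

noncomputable section

namespace Pool.Agent.Lib.MP_df705a_gt.Perm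

open Pool.Agent.Lib.MP_df705a_gt.Twist

variable {E : Type*} [NormedAddCommGroup E] [NormedSpace ℝ E] [FiniteDimensional ℝ E]
  {h : Curv.Coeff E} {R : E × E → ℝ} {U : Set E}

omit [FiniteDimensional ℝ E] in
/-- The derivative of a slice. -/
private theorem fderiv_slice_fst {Ψ : E × E → ℝ} {q : E × E} (hΨ : DifferentiableAt ℝ Ψ q) (v : E) :
    fderiv ℝ (fun x => Ψ (x, q.2)) q.1 v = fderiv ℝ Ψ q (v, 0) := by
  have h1 : HasFDerivAt (fun x : E => (x, q.2)) (ContinuousLinearMap.inl ℝ E E) q.1 :=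
    hasFDerivAt_prodMk_left q.1 q.2
  have h2 : HasFDerivAt Ψ (fderiv ℝ Ψ q) ((fun x : E => (x, q.2)) q.1) := hΨ.hasFDerivAt
  have h3 := (h2.comp q.1 h1).fderiv
  have h4 : (Ψ ∘ fun x : E => (x, q.2)) = fun x => Ψ (x, q.2) := rfl
  rw [h4] at h3
  rw [h3]
  simp

private theorem LocData.prod_nhds (D : LocData h R U) {q : E × E} (hq : q ∈ U ×ˢ U) :
    U ×ˢ U ∈ 𝓝 q := (D.isOpen.prod D.isOpen).mem_nhds hq

private theorem LocData.R_contDiffAt (D : LocData h R U) {q : E × E} (hq : q ∈ U ×ˢ U) :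
    ContDiffAt ℝ ∞ R q := (D.R_smooth q hq).contDiffAt (D.prod_nhds hq)

private theorem LocData.h_contDiffAt (D : LocData h R U) {y : E} (hy : y ∈ U)
    (i j : Fin (finrank ℝ E)) : ContDiffAt ℝ ∞ (fun y => h y i j) y :=
  (D.h_smooth i j y hy).contDiffAt (D.isOpen.mem_nhds hy)

private theorem contDiffAt_fderiv_apply {F : Type*} [NormedAddCommGroup F] [NormedSpace ℝ F]
    {Ψ : F → ℝ} {q : F} (hΨ : ContDiffAt ℝ ∞ Ψ q) (v : F) :
    ContDiffAt ℝ ∞ (fun q => fderiv ℝ Ψ q v) q :=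
  (hΨ.fderiv_right (m := ∞) (by simp)).clm_apply contDiffAt_const

/-- The partial derivative in the first variable, as a derivative of the function of two
variables. -/
theorem pd_slice (D : LocData h R U) {q : E × E} (hq : q ∈ U ×ˢ U) (i : Fin (finrank ℝ E)) :
    Curv.pd i (fun x => R (x, q.2)) q.1 = fderiv ℝ R q (finBasis ℝ E i, 0) := by
  unfold Curv.pd
  exact fderiv_slice_fst ((D.R_contDiffAt hq).differentiableAt (by simp)) _

theorem pd_pd_slice (D : LocData h R U) {q : E × E} (hq : q ∈ U ×ˢ U)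
    (i j : Fin (finrank ℝ E)) :
    Curv.pd i (Curv.pd j (fun x => R (x, q.2))) q.1 =
      fderiv ℝ (fun q => fderiv ℝ R q (finBasis ℝ E j, 0)) q (finBasis ℝ E i, 0) := by
  have h1 : Curv.pd j (fun x => R (x, q.2)) =ᶠ[𝓝 q.1]
      fun x => fderiv ℝ R (x, q.2) (finBasis ℝ E j, 0) := by
    filter_upwards [D.isOpen.mem_nhds hq.1] with x hx
    exact pd_slice D (q := (x, q.2)) ⟨hx, hq.2⟩ j
  have h2 : Curv.pd i (Curv.pd j (fun x => R (x, q.2))) q.1 =
      fderiv ℝ (fun x => fderiv ℝ R (x, q.2) (finBasis ℝ E j, 0)) q.1 (finBasis ℝ E i) := by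
    unfold Curv.pd at h1 ⊢
    rw [h1.fderiv_eq]
  rw [h2]
  exact fderiv_slice_fst (Ψ := fun q => fderiv ℝ R q (finBasis ℝ E j, 0))
    ((contDiffAt_fderiv_apply (D.R_contDiffAt hq) _).differentiableAt (by simp)) _

private theorem LocData.inv_contDiffAt (D : LocData h R U) {q : E × E} (hq : q ∈ U ×ˢ U)
    (i j : Fin (finrank ℝ E)) : ContDiffAt ℝ ∞ (fun q : E × E => (h q.1)⁻¹ i j) q := by
  have h1 : ContDiffAt ℝ ∞ (fun y => (h y)⁻¹ i j) q.1 :=
    contDiffAt_inv (fun i j => D.h_contDiffAt hq.1 i j) (D.h_pos _ hq.1).det_pos.ne' i j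
  exact ContDiffAt.comp q h1 contDiffAt_fst

private theorem LocData.christoffel_contDiffAt (D : LocData h R U) {q : E × E} (hq : q ∈ U ×ˢ U)
    (i j k : Fin (finrank ℝ E)) :
    ContDiffAt ℝ ∞ (fun q : E × E => Curv.christoffel h i j k q.1) q := by
  have h1 : ∀ a b c, ContDiffAt ℝ ∞ (fun y => Curv.pd a (fun y => h y b c) y) q.1 :=
    fun a b c => contDiffAt_fderiv_apply (D.h_contDiffAt hq.1 b c) _
  have h2 : ContDiffAt ℝ ∞ (fun y => Curv.christoffel h i j k y) q.1 := by
    unfold Curv.christoffel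
    exact (((h1 _ _ _).add (h1 _ _ _)).sub (h1 _ _ _)).div_const _
  exact ContDiffAt.comp q h2 contDiffAt_fst

theorem LR_contDiffAt (D : LocData h R U) {q : E × E} (hq : q ∈ U ×ˢ U) :
    ContDiffAt ℝ ∞ (LR h R) q := by
  have h1 : LR h R =ᶠ[𝓝 q] fun q => ∑ i, ∑ j, (h q.1)⁻¹ i j *
      (fderiv ℝ (fun q => fderiv ℝ R q (finBasis ℝ E j, 0)) q (finBasis ℝ E i, 0) -
        ∑ k, ∑ l, (h q.1)⁻¹ k l * Curv.christoffel h i j k q.1 *
          fderiv ℝ R q (finBasis ℝ E l, 0)) := by
    filter_upwards [D.prod_nhds hq] with z hz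
    unfold LR lapC Curv.covHess
    simp only [pd_pd_slice D hz, pd_slice D hz]
  refine ContDiffAt.congr_of_eventuallyEq ?_ h1
  refine ContDiffAt.sum fun i _ => ContDiffAt.sum fun j _ => ?_
  refine (D.inv_contDiffAt hq i j).mul (ContDiffAt.sub ?_ ?_)
  · exact contDiffAt_fderiv_apply (contDiffAt_fderiv_apply (D.R_contDiffAt hq) _) _
  · refine ContDiffAt.sum fun k _ => ContDiffAt.sum fun l _ => ?_
    exact ((D.inv_contDiffAt hq k l).mul (D.christoffel_contDiffAt hq i j k)).mul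
      (contDiffAt_fderiv_apply (D.R_contDiffAt hq) _)

theorem GR_contDiffAt (D : LocData h R U) {q : E × E} (hq : q ∈ U ×ˢ U) :
    ContDiffAt ℝ ∞ (GR h R) q := by
  have h1 : GR h R =ᶠ[𝓝 q] fun q => ∑ i, ∑ j, (h q.1)⁻¹ i j *
      (fderiv ℝ R q (finBasis ℝ E i, 0) * fderiv ℝ R q (finBasis ℝ E j, 0)) := by
    filter_upwards [D.prod_nhds hq] with z hz
    unfold GR gradC
    simp only [pd_slice D hz]
  refine ContDiffAt.congr_of_eventuallyEq ?_ h1
  refine ContDiffAt.sum fun i _ => ContDiffAt.sum fun j _ => ?_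
  exact (D.inv_contDiffAt hq i j).mul ((contDiffAt_fderiv_apply (D.R_contDiffAt hq) _).mul
    (contDiffAt_fderiv_apply (D.R_contDiffAt hq) _))

end Pool.Agent.Lib.MP_df705a_gt.Perm
end
end

section

/-!
# TASK L6: the gradient square of the two point function is `4 R + O(|x - y|⁴)`
-/

open scoped ContDiff Topology
open Set Module Filter

noncomputable section

namespace Pool.Agent.Lib.MP_df705a_gt.Perm

open Pool.Agent.Lib.MP_df705a_gt.Twist

set_option linter.unusedSectionVars false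

variable {E : Type*} [NormedAddCommGroup E] [NormedSpace ℝ E] [FiniteDimensional ℝ E]
  {h : Curv.Coeff E} {R : E × E → ℝ} {U : Set E}

private theorem gf_hB_left (y : E) (i : Fin (finrank ℝ E)) (v : E) :
    hB h y (finBasis ℝ E i) v = ∑ j, h y i j * (finBasis ℝ E).repr v j := by
  unfold hB
  rw [Finset.sum_eq_single i]
  · refine Finset.sum_congr rfl fun j _ => ?_
    rw [Basis.repr_self, Finsupp.single_eq_same, one_mul]
  · intro k _ hk
    refine Finset.sum_eq_zero fun j _ => ?_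
    rw [Basis.repr_self, Finsupp.single_eq_of_ne hk, zero_mul, mul_zero]
  · intro hi
    exact absurd (Finset.mem_univ i) hi

private theorem gf_dB_left (y z : E) (i : Fin (finrank ℝ E)) (v : E) :
    dB h y z (finBasis ℝ E i) v =
      ∑ j, fderiv ℝ (fun x => h x i j) y z * (finBasis ℝ E).repr v j := by
  unfold dB
  rw [Finset.sum_eq_single i]
  · refine Finset.sum_congr rfl fun j _ => ?_
    rw [Basis.repr_self, Finsupp.single_eq_same, one_mul]
  · intro k _ hk
    refine Finset.sum_eq_zero fun j _ => ?_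
    rw [Basis.repr_self, Finsupp.single_eq_of_ne hk, zero_mul, mul_zero]
  · intro hi
    exact absurd (Finset.mem_univ i) hi

private theorem gf_hB_expand (y v w : E) :
    hB h y v w = ∑ i, (finBasis ℝ E).repr v i * hB h y (finBasis ℝ E i) w := by
  simp only [gf_hB_left]
  unfold hB
  refine Finset.sum_congr rfl fun i _ => ?_
  rw [Finset.mul_sum]
  refine Finset.sum_congr rfl fun j _ => ?_
  ring

private theorem gf_dB_expand (y z v w : E) :
    dB h y z v w = ∑ i, (finBasis ℝ E).repr v i * dB h y z (finBasis ℝ E i) w := by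
  simp only [gf_dB_left]
  unfold dB
  refine Finset.sum_congr rfl fun i _ => ?_
  rw [Finset.mul_sum]
  refine Finset.sum_congr rfl fun j _ => ?_
  ring

private theorem gf_dB_expand_dir (y z v w : E) :
    dB h y z v w = ∑ p, (finBasis ℝ E).repr z p * dB h y (finBasis ℝ E p) v w := by
  have hL : ∀ z, dB h y z v w = (∑ i, ∑ j, ((finBasis ℝ E).repr v i * (finBasis ℝ E).repr w j) •
      fderiv ℝ (fun x => h x i j) y) z := by
    intro z
    unfold dB
    simp only [_root_.sum_apply, _root_.smul_apply, smul_eq_mul]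
    refine Finset.sum_congr rfl fun i _ => Finset.sum_congr rfl fun j _ => ?_
    ring
  rw [hL z]
  conv_lhs => rw [← (finBasis ℝ E).sum_repr z, map_sum]
  refine Finset.sum_congr rfl fun p _ => ?_
  rw [map_smul, smul_eq_mul, ← hL]

private theorem gf_det (D : LocData h R U) {y : E} (hy : y ∈ U) : (h y).det ≠ 0 :=
  (D.h_pos y hy).det_pos.ne'

private theorem gf_inv_symm (D : LocData h R U) {y : E} (hy : y ∈ U)
    (i j : Fin (finrank ℝ E)) : (h y)⁻¹ i j = (h y)⁻¹ j i := by
  have h1 := (D.h_pos y hy).isHermitian.inv.apply i j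
  simpa using h1.symm

/-- Contraction with the inverse matrix. -/
private theorem gf_contract (D : LocData h R U) {y : E} (hy : y ∈ U)
    (p : Fin (finrank ℝ E)) (v : E) :
    ∑ q, (h y)⁻¹ p q * hB h y (finBasis ℝ E q) v = (finBasis ℝ E).repr v p := by
  have hGH : ∀ l, ∑ q, (h y)⁻¹ p q * h y q l =
      (1 : Matrix (Fin (finrank ℝ E)) (Fin (finrank ℝ E)) ℝ) p l := by
    intro l
    rw [← Matrix.mul_apply, Matrix.nonsing_inv_mul _ (gf_det D hy).isUnit]
  simp only [gf_hB_left, Finset.mul_sum]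
  rw [Finset.sum_comm]
  have h1 : ∀ l, ∑ q, (h y)⁻¹ p q * (h y q l * (finBasis ℝ E).repr v l) =
      (1 : Matrix (Fin (finrank ℝ E)) (Fin (finrank ℝ E)) ℝ) p l *
        (finBasis ℝ E).repr v l := by
    intro l
    rw [← hGH l, Finset.sum_mul]
    refine Finset.sum_congr rfl fun q _ => ?_
    ring
  simp only [h1, Matrix.one_apply, ite_mul, one_mul, zero_mul]
  simp

/-- The second order part of the derivative. -/
private def gf_b (h : Curv.Coeff E) (y v : E) (i : Fin (finrank ℝ E)) : ℝ :=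
  (1 / 2) * (dB h y (finBasis ℝ E i) v v + 2 * dB h y v (finBasis ℝ E i) v)

/-- The algebraic identity for the terms of order two and three. -/
private theorem gf_main (D : LocData h R U) {y : E} (hy : y ∈ U) (v : E) :
    ∑ i, ∑ j, ((h y)⁻¹ i j * ((2 * hB h y (finBasis ℝ E i) v) *
        (2 * hB h y (finBasis ℝ E j) v)) +
      (h y)⁻¹ i j * ((2 * hB h y (finBasis ℝ E i) v) * gf_b h y v j +
        gf_b h y v i * (2 * hB h y (finBasis ℝ E j) v)) +
      fderiv ℝ (fun x => (h x)⁻¹ i j) y v * ((2 * hB h y (finBasis ℝ E i) v) *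
        (2 * hB h y (finBasis ℝ E j) v))) =
      4 * hB h y v v + 2 * dB h y v v v := by
  have hUy : U ∈ 𝓝 y := D.isOpen.mem_nhds hy
  have hh : ∀ i j, ContDiffAt ℝ ∞ (fun x => h x i j) y := fun i j =>
    (D.h_smooth i j).contDiffAt hUy
  have hdet := gf_det D hy
  have hinv : ∀ i j, fderiv ℝ (fun x => (h x)⁻¹ i j) y v =
      -∑ k, ∑ l, (h y)⁻¹ i k * (h y)⁻¹ l j * fderiv ℝ (fun x => h x k l) y v := fun i j =>
    fderiv_inv (fun k l => (hh k l).of_le (by simp)) hdet i j v
  simp only [hinv]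
  set G := (h y)⁻¹ with hGdef
  set A : Fin (finrank ℝ E) → ℝ := fun i => hB h y (finBasis ℝ E i) v with hA
  set V : Fin (finrank ℝ E) → ℝ := fun i => (finBasis ℝ E).repr v i with hV
  set B : Fin (finrank ℝ E) → ℝ := fun i => gf_b h y v i with hB'
  set δ : Fin (finrank ℝ E) → Fin (finrank ℝ E) → ℝ :=
    fun k l => fderiv ℝ (fun x => h x k l) y v with hδ
  have hGs : ∀ i j, G i j = G j i := gf_inv_symm D hy
  have hc1 : ∀ i, ∑ j, G i j * A j = V i := fun i => gf_contract D hy i v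
  have hc2 : ∀ j, ∑ i, G i j * A i = V j := by
    intro j
    rw [← hc1 j]
    refine Finset.sum_congr rfl fun i _ => ?_
    rw [hGs i j]
  have hAV : ∑ i, V i * A i = hB h y v v := (gf_hB_expand y v v).symm
  have hBV : ∑ i, V i * B i = (3 / 2) * dB h y v v v := by
    have h1 : ∑ i, V i * B i = (1 / 2) * (∑ i, V i * dB h y (finBasis ℝ E i) v v +
        2 * ∑ i, V i * dB h y v (finBasis ℝ E i) v) := by
      rw [mul_add, Finset.mul_sum, Finset.mul_sum, Finset.mul_sum, ← Finset.sum_add_distrib]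
      refine Finset.sum_congr rfl fun i _ => ?_
      rw [hB']
      unfold gf_b
      ring
    rw [h1, ← gf_dB_expand_dir y v v v, ← gf_dB_expand y v v v]
    ring
  have hδV : ∑ k, ∑ l, δ k l * (V k * V l) = dB h y v v v := rfl
  have s1 : ∑ i, ∑ j, G i j * ((2 * A i) * (2 * A j)) = 4 * hB h y v v := by
    rw [← hAV, Finset.mul_sum]
    refine Finset.sum_congr rfl fun i _ => ?_
    rw [← hc1 i, Finset.sum_mul, Finset.mul_sum]
    refine Finset.sum_congr rfl fun j _ => ?_
    ring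
  have s2 : ∑ i, ∑ j, G i j * ((2 * A i) * B j + B i * (2 * A j)) = 6 * dB h y v v v := by
    have h1 : ∑ i, ∑ j, G i j * ((2 * A i) * B j) = 2 * ∑ j, V j * B j := by
      rw [Finset.sum_comm, Finset.mul_sum]
      refine Finset.sum_congr rfl fun j _ => ?_
      rw [← hc2 j, Finset.sum_mul, Finset.mul_sum]
      refine Finset.sum_congr rfl fun i _ => ?_
      ring
    have h2 : ∑ i, ∑ j, G i j * (B i * (2 * A j)) = 2 * ∑ i, V i * B i := by
      rw [Finset.mul_sum]
      refine Finset.sum_congr rfl fun i _ => ?_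
      rw [← hc1 i, Finset.sum_mul, Finset.mul_sum]
      refine Finset.sum_congr rfl fun j _ => ?_
      ring
    simp only [mul_add, Finset.sum_add_distrib]
    rw [h1, h2, hBV]
    ring
  have s3 : ∑ i, ∑ j, (-∑ k, ∑ l, G i k * G l j * δ k l) * ((2 * A i) * (2 * A j)) =
      -4 * dB h y v v v := by
    rw [← hδV]
    have h1 : ∀ i j, (-∑ k, ∑ l, G i k * G l j * δ k l) * ((2 * A i) * (2 * A j)) =
        ∑ k, ∑ l, -4 * (δ k l * ((G i k * A i) * (G l j * A j))) := by
      intro i j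
      rw [neg_mul, Finset.sum_mul, ← Finset.sum_neg_distrib]
      refine Finset.sum_congr rfl fun k _ => ?_
      rw [Finset.sum_mul, ← Finset.sum_neg_distrib]
      refine Finset.sum_congr rfl fun l _ => ?_
      ring
    simp only [h1]
    have h2 : ∑ i, ∑ j, ∑ k, ∑ l, -4 * (δ k l * ((G i k * A i) * (G l j * A j))) =
        ∑ k, ∑ l, ∑ i, ∑ j, -4 * (δ k l * ((G i k * A i) * (G l j * A j))) := by
      calc ∑ i, ∑ j, ∑ k, ∑ l, -4 * (δ k l * ((G i k * A i) * (G l j * A j)))
          = ∑ i, ∑ k, ∑ j, ∑ l, -4 * (δ k l * ((G i k * A i) * (G l j * A j))) := by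
            refine Finset.sum_congr rfl fun i _ => Finset.sum_comm
        _ = ∑ k, ∑ i, ∑ j, ∑ l, -4 * (δ k l * ((G i k * A i) * (G l j * A j))) :=
            Finset.sum_comm
        _ = ∑ k, ∑ i, ∑ l, ∑ j, -4 * (δ k l * ((G i k * A i) * (G l j * A j))) := by
            refine Finset.sum_congr rfl fun k _ => Finset.sum_congr rfl fun i _ =>
              Finset.sum_comm
        _ = _ := by
            refine Finset.sum_congr rfl fun k _ => Finset.sum_comm
    rw [h2, Finset.mul_sum]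
    refine Finset.sum_congr rfl fun k _ => ?_
    rw [Finset.mul_sum]
    refine Finset.sum_congr rfl fun l _ => ?_
    rw [← hc2 k, ← hc1 l, Finset.sum_mul_sum, Finset.mul_sum, Finset.mul_sum]
    refine Finset.sum_congr rfl fun i _ => ?_
    rw [Finset.mul_sum, Finset.mul_sum]
  simp only [Finset.sum_add_distrib]
  rw [s1, s2, s3]
  ring

/-- The function measuring the distance to the diagonal. -/
private abbrev gfN (q : E × E) : ℝ := ‖q.1 - q.2‖

private theorem gf_isBigO_of {f : E × E → ℝ} {p : E} {k : ℕ}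
    (hf : ∃ C : ℝ, ∀ᶠ q : E × E in 𝓝 (p, p), |f q| ≤ C * ‖q.1 - q.2‖ ^ k) :
    f =O[𝓝 (p, p)] fun q => gfN q ^ k := by
  obtain ⟨C, hC⟩ := hf
  refine Asymptotics.IsBigO.of_bound C ?_
  filter_upwards [hC] with q hq
  rw [Real.norm_eq_abs, Real.norm_of_nonneg (by positivity)]
  exact hq

private theorem gf_of_isBigO {f : E × E → ℝ} {p : E} {k : ℕ}
    (hf : f =O[𝓝 (p, p)] fun q => gfN q ^ k) :
    ∃ C : ℝ, ∀ᶠ q : E × E in 𝓝 (p, p), |f q| ≤ C * ‖q.1 - q.2‖ ^ k := by
  obtain ⟨C, hC⟩ := hf.bound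
  refine ⟨C, ?_⟩
  filter_upwards [hC] with q hq
  rwa [Real.norm_eq_abs, Real.norm_of_nonneg (by positivity)] at hq

private theorem gf_const {F : E → ℝ} {p : E} (hF : ContinuousAt F p) :
    (fun q : E × E => F q.2) =O[𝓝 (p, p)] fun _ => (1 : ℝ) := by
  have h1 : ContinuousAt (fun q : E × E => F q.2) (p, p) :=
    ContinuousAt.comp (g := F) (f := Prod.snd) hF continuousAt_snd
  exact h1.tendsto.isBigO_one ℝ

private theorem gf_dir {F : E → ℝ} {p : E} (hF : ContDiffAt ℝ ∞ F p) :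
    (fun q : E × E => fderiv ℝ F q.2 (q.1 - q.2)) =O[𝓝 (p, p)] fun q => gfN q := by
  have h1 : ContinuousAt (fun q : E × E => fderiv ℝ F q.2) (p, p) :=
    ContinuousAt.comp (g := fderiv ℝ F) (f := Prod.snd)
      ((hF.fderiv_right (m := ∞) (by simp)).continuousAt) continuousAt_snd
  have h2 := h1.tendsto.isBigO_one ℝ
  obtain ⟨C, hC⟩ := h2.bound
  refine Asymptotics.IsBigO.of_bound C ?_
  filter_upwards [hC] with q hq
  rw [norm_one, mul_one] at hq
  refine (ContinuousLinearMap.le_opNorm _ _).trans ?_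
  rw [Real.norm_of_nonneg (norm_nonneg _)]
  exact mul_le_mul_of_nonneg_right hq (norm_nonneg _)

private theorem gf_coord (p : E) (i : Fin (finrank ℝ E)) :
    (fun q : E × E => (finBasis ℝ E).repr (q.1 - q.2) i) =O[𝓝 (p, p)] fun q => gfN q := by
  set L : E →L[ℝ] ℝ := LinearMap.toContinuousLinearMap ((finBasis ℝ E).coord i) with hL
  refine Asymptotics.IsBigO.of_bound ‖L‖ (Eventually.of_forall fun q => ?_)
  have h1 : (finBasis ℝ E).repr (q.1 - q.2) i = L (q.1 - q.2) := rfl
  rw [h1, Real.norm_of_nonneg (norm_nonneg _)]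
  exact L.le_opNorm _

private theorem gf_taylor {F : E → ℝ} {p : E} (hF : ContDiffAt ℝ ∞ F p) :
    (fun q : E × E => F q.1 - F q.2 - fderiv ℝ F q.2 (q.1 - q.2)) =O[𝓝 (p, p)]
      fun q => gfN q ^ 2 := by
  have hd : ContDiffAt ℝ ∞ (fderiv ℝ F) p := hF.fderiv_right (m := ∞) (by simp)
  refine gf_isBigO_of (diag_two ?_ ?_ ?_)
  · have h1 : ContDiffAt ℝ ∞ (fun q : E × E => F q.1) (p, p) :=
      ContDiffAt.comp (g := F) (f := Prod.fst) (p, p) hF contDiffAt_fst
    have h2 : ContDiffAt ℝ ∞ (fun q : E × E => F q.2) (p, p) :=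
      ContDiffAt.comp (g := F) (f := Prod.snd) (p, p) hF contDiffAt_snd
    have h3 : ContDiffAt ℝ ∞ (fun q : E × E => fderiv ℝ F q.2) (p, p) :=
      ContDiffAt.comp (g := fderiv ℝ F) (f := Prod.snd) (p, p) hd contDiffAt_snd
    exact (h1.sub h2).sub (h3.clm_apply (contDiffAt_fst.sub contDiffAt_snd))
  · exact Eventually.of_forall fun y => by simp
  · have hev : ∀ᶠ y in 𝓝 p, ContDiffAt ℝ 1 F y :=
      (hF.of_le (m := 1) (by simp)).eventually (by simp)
    have hev2 : ∀ᶠ y in 𝓝 p, ContDiffAt ℝ 1 (fderiv ℝ F) y :=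
      (hd.of_le (m := 1) (by simp)).eventually (by simp)
    filter_upwards [hev, hev2] with y hy hy2 v
    have h1 : HasFDerivAt (fun q : E × E => F q.1)
        ((fderiv ℝ F y).comp (ContinuousLinearMap.fst ℝ E E)) (y, y) := by
      have h0 : HasFDerivAt F (fderiv ℝ F y) ((Prod.fst : E × E → E) (y, y)) :=
        (hy.differentiableAt (by simp)).hasFDerivAt
      exact h0.comp (y, y) hasFDerivAt_fst
    have h2 : HasFDerivAt (fun q : E × E => F q.2)
        ((fderiv ℝ F y).comp (ContinuousLinearMap.snd ℝ E E)) (y, y) := by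
      have h0 : HasFDerivAt F (fderiv ℝ F y) ((Prod.snd : E × E → E) (y, y)) :=
        (hy.differentiableAt (by simp)).hasFDerivAt
      exact h0.comp (y, y) hasFDerivAt_snd
    have h3 : HasFDerivAt (fun q : E × E => fderiv ℝ F q.2)
        ((fderiv ℝ (fderiv ℝ F) y).comp (ContinuousLinearMap.snd ℝ E E)) (y, y) := by
      have h0 : HasFDerivAt (fderiv ℝ F) (fderiv ℝ (fderiv ℝ F) y)
          ((Prod.snd : E × E → E) (y, y)) :=
        (hy2.differentiableAt (by simp)).hasFDerivAt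
      exact h0.comp (y, y) hasFDerivAt_snd
    have h4 : HasFDerivAt (fun q : E × E => q.1 - q.2)
        (ContinuousLinearMap.fst ℝ E E - ContinuousLinearMap.snd ℝ E E) (y, y) :=
      hasFDerivAt_fst.sub hasFDerivAt_snd
    have h5 := (h1.sub h2).sub (h3.clm_apply h4)
    rw [HasFDerivAt.fderiv (f := fun q : E × E => F q.1 - F q.2 - fderiv ℝ F q.2 (q.1 - q.2)) h5]
    simp

theorem GR_four (D : LocData h R U) {p : E} (hp : p ∈ U) :
    ∃ C : ℝ, ∀ᶠ q : E × E in 𝓝 (p, p), |GR h R q - 4 * R q| ≤ C * ‖q.1 - q.2‖ ^ 4 := by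
  have hpp : (p, p) ∈ U ×ˢ U := ⟨hp, hp⟩
  have hUp : U ∈ 𝓝 p := D.isOpen.mem_nhds hp
  have hUU : U ×ˢ U ∈ 𝓝 (p, p) := (D.isOpen.prod D.isOpen).mem_nhds hpp
  have hR : ContDiffAt ℝ ∞ R (p, p) := D.R_smooth.contDiffAt hUU
  have hh : ∀ i j, ContDiffAt ℝ ∞ (fun x => h x i j) p := fun i j =>
    (D.h_smooth i j).contDiffAt hUp
  have hG : ∀ i j, ContDiffAt ℝ ∞ (fun x => (h x)⁻¹ i j) p := fun i j =>
    contDiffAt_inv hh (gf_det D hp) i j
  have hW1 : ∀ w : E × E, ContDiffAt ℝ ∞ (fun q => fderiv ℝ R q w) (p, p) := fun w =>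
    (hR.fderiv_right (m := ∞) (by simp)).clm_apply contDiffAt_const
  have hsnd : ∀ᶠ q : E × E in 𝓝 (p, p), q.2 ∈ U := by
    filter_upwards [hUU] with q hq using hq.2
  -- the four families of functions
  set P : Fin (finrank ℝ E) → E × E → ℝ := fun i q => fderiv ℝ R q (finBasis ℝ E i, 0) with hPdef
  set a : Fin (finrank ℝ E) → E × E → ℝ :=
    fun i q => 2 * hB h q.2 (finBasis ℝ E i) (q.1 - q.2) with hadef
  set b : Fin (finrank ℝ E) → E × E → ℝ := fun i q => gf_b h q.2 (q.1 - q.2) i with hbdef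
  have hPN : ∀ i, P i =O[𝓝 (p, p)] fun q => gfN q := by
    intro i
    obtain ⟨C, hC⟩ := diag_one (hW1 (finBasis ℝ E i, 0)) (by
      filter_upwards [hUp] with y hy
      exact jet_one D hy _)
    have h1 := gf_isBigO_of (f := P i) (k := 1) (p := p) ⟨C, by
      filter_upwards [hC] with q hq
      rw [pow_one]
      exact hq⟩
    simpa only [pow_one] using h1
  have haN : ∀ i, a i =O[𝓝 (p, p)] fun q => gfN q := by
    intro i
    have h1 : a i = fun q => 2 * ∑ j, h q.2 i j * (finBasis ℝ E).repr (q.1 - q.2) j := by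
      funext q
      rw [hadef]
      simp only [gf_hB_left]
    rw [h1]
    refine Asymptotics.IsBigO.const_mul_left (Asymptotics.IsBigO.fun_sum fun j _ => ?_) 2
    have h2 := (gf_const (hh i j).continuousAt).mul (gf_coord p j)
    simpa only [one_mul] using h2
  have hbN : ∀ i, b i =O[𝓝 (p, p)] fun q => gfN q ^ 2 := by
    intro i
    have h1 : b i = fun q => (1 / 2) * ((∑ k, ∑ l, fderiv ℝ (fun x => h x k l) q.2
        (finBasis ℝ E i) * ((finBasis ℝ E).repr (q.1 - q.2) k *
          (finBasis ℝ E).repr (q.1 - q.2) l)) +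
        2 * ∑ l, fderiv ℝ (fun x => h x i l) q.2 (q.1 - q.2) *
          (finBasis ℝ E).repr (q.1 - q.2) l) := by
      funext q
      rw [hbdef]
      simp only [gf_b, gf_dB_left]
      rfl
    rw [h1]
    refine Asymptotics.IsBigO.const_mul_left (Asymptotics.IsBigO.add ?_ ?_) _
    · refine Asymptotics.IsBigO.fun_sum fun k _ => Asymptotics.IsBigO.fun_sum fun l _ => ?_
      have hc : ContinuousAt (fun x => fderiv ℝ (fun x => h x k l) x (finBasis ℝ E i)) p :=
        (((hh k l).fderiv_right (m := ∞) (by simp)).clm_apply contDiffAt_const).continuousAt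
      have h2 := (gf_const hc).mul ((gf_coord p k).mul (gf_coord p l))
      simpa only [one_mul, ← pow_two] using h2
    · refine Asymptotics.IsBigO.const_mul_left (Asymptotics.IsBigO.fun_sum fun l _ => ?_) 2
      have h2 := (gf_dir (hh i l)).mul (gf_coord p l)
      simpa only [← pow_two] using h2
  have hcN : ∀ i, (fun q => P i q - a i q - b i q) =O[𝓝 (p, p)] fun q => gfN q ^ 3 := by
    intro i
    obtain ⟨C, hC⟩ := diag_expand_two (hW1 (finBasis ℝ E i, 0))
    refine gf_isBigO_of ⟨C, ?_⟩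
    filter_upwards [hC, hsnd] with q hq hq2
    rw [jet_one D hq2, jet_two D hq2, jet_three D hq2] at hq
    refine le_trans (le_of_eq ?_) hq
    congr 1
    rw [hPdef, hadef, hbdef]
    simp only [gf_b]
    ring
  have hdN : ∀ i, (fun q => P i q - a i q) =O[𝓝 (p, p)] fun q => gfN q ^ 2 := by
    intro i
    have hN3 : (fun q : E × E => gfN q ^ 3) =O[𝓝 (p, p)] fun q => gfN q ^ 2 := by
      have hN1 : (fun q : E × E => gfN q) =O[𝓝 (p, p)] fun _ => (1 : ℝ) := by
        have h1 : ContinuousAt (fun q : E × E => gfN q) (p, p) := by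
          unfold gfN
          fun_prop
        exact h1.tendsto.isBigO_one ℝ
      have h2 := (Asymptotics.isBigO_refl (fun q : E × E => gfN q ^ 2) (𝓝 (p, p))).mul hN1
      simpa only [mul_one, ← pow_succ] using h2
    have h1 := ((hcN i).trans hN3).add (hbN i)
    refine h1.congr_left fun q => ?_
    ring
  have hg0 : ∀ i j, (fun q : E × E => (h q.2)⁻¹ i j) =O[𝓝 (p, p)] fun _ => (1 : ℝ) :=
    fun i j => gf_const (F := fun x => (h x)⁻¹ i j) (hG i j).continuousAt
  have hg1 : ∀ i j, (fun q : E × E => fderiv ℝ (fun x => (h x)⁻¹ i j) q.2 (q.1 - q.2))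
      =O[𝓝 (p, p)] fun q => gfN q := fun i j => gf_dir (hG i j)
  have hg2 : ∀ i j, (fun q : E × E => (h q.1)⁻¹ i j - (h q.2)⁻¹ i j -
      fderiv ℝ (fun x => (h x)⁻¹ i j) q.2 (q.1 - q.2)) =O[𝓝 (p, p)] fun q => gfN q ^ 2 :=
    fun i j => gf_taylor (hG i j)
  -- each summand
  have hterm : ∀ i j, (fun q : E × E => (h q.1)⁻¹ i j * (P i q * P j q) -
      ((h q.2)⁻¹ i j * (a i q * a j q) + (h q.2)⁻¹ i j * (a i q * b j q + b i q * a j q) +
        fderiv ℝ (fun x => (h x)⁻¹ i j) q.2 (q.1 - q.2) * (a i q * a j q)))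
      =O[𝓝 (p, p)] fun q => gfN q ^ 4 := by
    intro i j
    have t1 := (hg2 i j).mul ((hPN i).mul (hPN j))
    have t2 := (hg1 i j).mul ((((hdN i).mul (hPN j))).add ((haN i).mul (hdN j) |>.congr_right
      (g₂ := fun q => gfN q ^ 2 * gfN q) (fun q => by ring)))
    have t3 := (hg0 i j).mul ((((haN i).mul (hcN j)).add (((hbN i).mul (hdN j)).congr_right
      (g₂ := fun q => gfN q * gfN q ^ 3) (fun q => by ring))).add
      (((hcN i).mul (hPN j)).congr_right (g₂ := fun q => gfN q * gfN q ^ 3) (fun q => by ring)))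
    have t1' := t1.congr_right (g₂ := fun q => gfN q ^ 4) (fun q => by ring)
    have t2' := t2.congr_right (g₂ := fun q => gfN q ^ 4) (fun q => by ring)
    have t3' := t3.congr_right (g₂ := fun q => gfN q ^ 4) (fun q => by ring)
    refine ((t1'.add t2').add t3').congr_left fun q => ?_
    ring
  have hsum := Asymptotics.IsBigO.fun_sum (s := Finset.univ) fun i (_ : i ∈ Finset.univ) =>
    Asymptotics.IsBigO.fun_sum (s := Finset.univ) fun j (_ : j ∈ Finset.univ) => hterm i j
  -- the expansion of `R`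
  have hRx : (fun q : E × E => R q - (hB h q.2 (q.1 - q.2) (q.1 - q.2) +
      (1 / 2) * dB h q.2 (q.1 - q.2) (q.1 - q.2) (q.1 - q.2))) =O[𝓝 (p, p)]
      fun q => gfN q ^ 4 := by
    obtain ⟨C, hC⟩ := diag_expand_three hR
    refine gf_isBigO_of ⟨C, ?_⟩
    filter_upwards [hC, hsnd] with q hq hq2
    rw [D.R_diag _ hq2, jet_one D hq2, jet_two D hq2, jet_three D hq2] at hq
    refine le_trans (le_of_eq ?_) hq
    congr 1
    ring
  have hfin := hsum.sub (hRx.const_mul_left 4)
  refine gf_of_isBigO (hfin.congr' ?_ EventuallyEq.rfl)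
  filter_upwards [hUU] with q hq
  have h1 : GR h R q = ∑ i, ∑ j, (h q.1)⁻¹ i j * (P i q * P j q) := by
    show gradC h (fun x => R (x, q.2)) (fun x => R (x, q.2)) q.1 = _
    unfold gradC
    refine Finset.sum_congr rfl fun i _ => Finset.sum_congr rfl fun j _ => ?_
    rw [pd_slice D hq i, pd_slice D hq j]
  have h2 := gf_main D hq.2 (q.1 - q.2)
  rw [h1]
  simp only [Finset.sum_sub_distrib]
  have h3 : ∑ i, ∑ j, ((h q.2)⁻¹ i j * (a i q * a j q) +
      (h q.2)⁻¹ i j * (a i q * b j q + b i q * a j q) +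
        fderiv ℝ (fun x => (h x)⁻¹ i j) q.2 (q.1 - q.2) * (a i q * a j q)) =
      4 * hB h q.2 (q.1 - q.2) (q.1 - q.2) +
        2 * dB h q.2 (q.1 - q.2) (q.1 - q.2) (q.1 - q.2) := h2
  rw [h3]
  ring

end Pool.Agent.Lib.MP_df705a_gt.Perm
end
end

section

/-!
# TASK A2: the kernel estimate
-/

open scoped ContDiff Topology
open Set Filter MeasureTheory

noncomputable section

namespace Pool.Agent.Lib.MP_df705a_gt.Perm

variable {M : Type*} [TopologicalSpace M]

theorem ker_contDiffAt (N : ℕ) {s t : ℝ} (hs : 0 < s) (ht : 0 ≤ t) :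
    ContDiffAt ℝ ∞ (ker N s) t := by
  have hne : (t + s) ^ N ≠ 0 := by positivity
  exact (((contDiffAt_id.add contDiffAt_const).pow N).inv hne)

theorem hasDerivAt_ker (N : ℕ) {s t : ℝ} (ht : 0 < t + s) :
    HasDerivAt (ker N s) (-(N * ker (N + 1) s t)) t := by
  have hne : (t + s) ^ N ≠ 0 := by positivity
  have h1 : HasDerivAt (fun u : ℝ => (u + s) ^ N) (N * (t + s) ^ (N - 1) * 1) t :=
    ((hasDerivAt_id t).add_const s).pow N
  have h2 := h1.inv hne
  have e : -(N * (t + s) ^ (N - 1) * 1) / ((t + s) ^ N) ^ 2 = -(N * ker (N + 1) s t) := by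
    unfold ker
    rcases Nat.eq_zero_or_pos N with rfl | hN
    · simp
    · have e1 : (t + s) ^ N = (t + s) ^ (N - 1) * (t + s) := by
        rw [← pow_succ]; congr 1; omega
      have h3 : t + s ≠ 0 := ht.ne'
      have h4 : (t + s) ^ (N - 1) ≠ 0 := by positivity
      rw [pow_succ (t + s) N, e1]
      field_simp
  rw [e] at h2
  exact h2

theorem deriv_ker_of_pos (N : ℕ) {s t : ℝ} (ht : 0 < t + s) :
    deriv (ker N s) t = -(N * ker (N + 1) s t) := (hasDerivAt_ker N ht).deriv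

theorem deriv_ker (N : ℕ) {s t : ℝ} (hs : 0 < s) (ht : 0 ≤ t) :
    deriv (ker N s) t = -(N * ker (N + 1) s t) :=
  deriv_ker_of_pos N (by linarith)

theorem deriv_deriv_ker (N : ℕ) {s t : ℝ} (hs : 0 < s) (ht : 0 ≤ t) :
    deriv (deriv (ker N s)) t = N * (N + 1) * ker (N + 2) s t := by
  have h1 : deriv (ker N s) =ᶠ[𝓝 t] fun u => -(N * ker (N + 1) s u) := by
    have : ∀ᶠ u in 𝓝 t, 0 < u + s := by
      have hc : Continuous fun u : ℝ => u + s := by fun_prop
      exact hc.continuousAt.eventually (lt_mem_nhds (by linarith : 0 < t + s))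
    filter_upwards [this] with u hu
    exact deriv_ker_of_pos N hu
  rw [h1.deriv_eq]
  have h2 := ((hasDerivAt_ker (N + 1) (s := s) (t := t) (by linarith)).const_mul (N : ℝ)).neg
  have h3 := h2.deriv
  have e : (fun u => -((N : ℝ) * ker (N + 1) s u)) = -(fun u => (N : ℝ) * ker (N + 1) s u) := rfl
  first
    | rw [h3]
    | rw [e, h3]
  push_cast
  ring

theorem rho_nonneg (A : LapSys M) (x y : M) : 0 ≤ A.rho x y := by
  by_cases h : x = y
  · rw [h, A.rho_self]
  · exact (A.rho_pos x y h).le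

/-- The kernel belongs to the class. -/
theorem ker_mem (A : LapSys M) (N : ℕ) {s : ℝ} (hs : 0 < s) (y : M) :
    (fun x => ker N s (A.rho x y)) ∈ A.S :=
  A.comp_mem _ (A.rho_mem y) (ker N s) (fun x => ker_contDiffAt N hs (rho_nonneg A x y))

/-- Joint continuity of the kernel and of its Laplacian. -/
theorem ker_cont (A : LapSys M) (N : ℕ) {s : ℝ} (hs : 0 < s) :
    Continuous fun p : M × M => ker N s (A.rho p.1 p.2) := by
  unfold ker
  refine ((A.rho_cont.add continuous_const).pow N).inv₀ (fun p => ?_)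
  have := rho_nonneg A p.1 p.2
  exact (pow_pos (by linarith : 0 < A.rho p.1 p.2 + s) N).ne'

theorem lap_ker (A : LapSys M) (N : ℕ) {s : ℝ} (hs : 0 < s) (x y : M) :
    A.Lap (fun z => ker N s (A.rho z y)) x =
      -(N * ker (N + 1) s (A.rho x y)) * A.Lap (fun z => A.rho z y) x +
        N * (N + 1) * ker (N + 2) s (A.rho x y) * A.Gam (fun z => A.rho z y) x := by
  rw [A.lap_comp _ (A.rho_mem y) (ker N s)
    (fun x => ker_contDiffAt N hs (rho_nonneg A x y)) x,
    deriv_ker N hs (rho_nonneg A x y), deriv_deriv_ker N hs (rho_nonneg A x y)]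

theorem lapKer_cont (A : LapSys M) (N : ℕ) {s : ℝ} (hs : 0 < s) :
    Continuous fun p : M × M => A.Lap (fun z => ker N s (A.rho z p.2)) p.1 := by
  simp_rw [lap_ker A N hs]
  have h1 := ker_cont A (N + 1) hs
  have h2 := ker_cont A (N + 2) hs
  exact ((continuous_const.mul h1).neg.mul A.lapRho_cont).add
    ((continuous_const.mul h2).mul A.gamRho_cont)

theorem ker_nonneg (N : ℕ) {s t : ℝ} (hs : 0 < s) (ht : 0 ≤ t) : 0 ≤ ker N s t := by
  unfold ker; positivity

theorem ker_succ_mul (N : ℕ) {s t : ℝ} (hs : 0 < s) (ht : 0 ≤ t) :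
    ker (N + 1) s t * t ≤ ker N s t := by
  unfold ker
  have h : 0 < t + s := by linarith
  rw [pow_succ, mul_inv, mul_assoc]
  have h1 : (t + s)⁻¹ * t ≤ 1 := by
    rw [inv_mul_le_one₀ h]; linarith
  have h2 : 0 ≤ ((t + s) ^ N)⁻¹ := by positivity
  nlinarith

theorem ker_two_mul (N : ℕ) {s t : ℝ} (hs : 0 < s) (ht : 0 ≤ t) :
    ker (N + 2) s t * t ^ 2 ≤ ker N s t := by
  have h1 := ker_succ_mul (N + 1) hs ht
  have h2 := ker_succ_mul N hs ht
  calc ker (N + 2) s t * t ^ 2 = (ker (N + 1 + 1) s t * t) * t := by ring_nf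
    _ ≤ ker (N + 1) s t * t := mul_le_mul_of_nonneg_right h1 ht
    _ ≤ _ := h2

/-- **The kernel estimate**: the commutator of the kernel with the operator `-c Lap + V` is small
compared with the kernel, up to a bounded error. -/
theorem kernel_est [CompactSpace M] (A : LapSys M) {c : ℝ} (hc : 0 < c) {V : M → ℝ}
    (hV : Continuous V) (N : ℕ) {η : ℝ} (hη : 0 < η) :
    ∃ C : ℝ, ∀ s : ℝ, 0 < s → s ≤ 1 → ∀ x y : M,
      A.op c V (fun z => ker N s (A.rho z y)) x - A.op c V (fun z => ker N s (A.rho z x)) y ≤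
        η * ker N s (A.rho x y) + C := by
  obtain ⟨C1, hC1⟩ := A.est1
  obtain ⟨C2, hC2⟩ := A.est2
  set D : ℝ := c * (N * |C1| + N * (N + 1) * |C2|) with hD
  have hD0 : 0 ≤ D := by positivity
  set Φ : M × M → ℝ := fun p => D * √(A.rho p.1 p.2) + |V p.1 - V p.2| with hΦ
  have hΦc : Continuous Φ := by
    have h1 := A.rho_cont
    have h2 : Continuous fun p : M × M => √(A.rho p.1 p.2) := h1.sqrt
    have h3 : Continuous fun p : M × M => |V p.1 - V p.2| :=
      ((hV.comp continuous_fst).sub (hV.comp continuous_snd)).abs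
    exact (continuous_const.mul h2).add h3
  have hΦ0 : ∀ p, 0 ≤ Φ p := fun p => by simp only [hΦ]; positivity
  -- the basic bound
  have key : ∀ s : ℝ, 0 < s → ∀ x y : M,
      A.op c V (fun z => ker N s (A.rho z y)) x - A.op c V (fun z => ker N s (A.rho z x)) y ≤
        Φ (x, y) * ker N s (A.rho x y) := by
    intro s hs x y
    have hρ := rho_nonneg A x y
    set ρ := A.rho x y with hρd
    unfold LapSys.op
    rw [lap_ker A N hs x y, lap_ker A N hs y x]
    beta_reduce
    rw [A.rho_symm y x, ← hρd]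
    set Lx := A.Lap (fun z => A.rho z y) x
    set Ly := A.Lap (fun z => A.rho z x) y
    set Gx := A.Gam (fun z => A.rho z y) x
    set Gy := A.Gam (fun z => A.rho z x) y
    have b1 : |Lx - Ly| ≤ |C1| * (ρ * √ρ) := (hC1 x y).trans
      (mul_le_mul_of_nonneg_right (le_abs_self _) (by positivity))
    have b2 : |Gx - Gy| ≤ |C2| * (ρ ^ 2 * √ρ) := (hC2 x y).trans
      (mul_le_mul_of_nonneg_right (le_abs_self _) (by positivity))
    have k1 := ker_succ_mul N hs hρ
    have k2 := ker_two_mul N hs hρ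
    have n0 := ker_nonneg N hs hρ
    have n1 := ker_nonneg (N + 1) hs hρ
    have n2 := ker_nonneg (N + 2) hs hρ
    have t1 : c * (N * ker (N + 1) s ρ * (Lx - Ly)) ≤ c * (N * |C1| * √ρ * ker N s ρ) := by
      apply mul_le_mul_of_nonneg_left _ hc.le
      calc N * ker (N + 1) s ρ * (Lx - Ly) ≤ N * ker (N + 1) s ρ * (|C1| * (ρ * √ρ)) :=
            mul_le_mul_of_nonneg_left ((le_abs_self _).trans b1) (by positivity)
        _ = (N * |C1| * √ρ) * (ker (N + 1) s ρ * ρ) := by ring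
        _ ≤ (N * |C1| * √ρ) * ker N s ρ := mul_le_mul_of_nonneg_left k1 (by positivity)
    have t2 : c * (N * (N + 1) * ker (N + 2) s ρ * (Gy - Gx)) ≤
        c * (N * (N + 1) * |C2| * √ρ * ker N s ρ) := by
      apply mul_le_mul_of_nonneg_left _ hc.le
      calc N * (N + 1) * ker (N + 2) s ρ * (Gy - Gx) ≤
            N * (N + 1) * ker (N + 2) s ρ * (|C2| * (ρ ^ 2 * √ρ)) := by
              apply mul_le_mul_of_nonneg_left _ (by positivity)
              rw [← abs_sub_comm] at b2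
              exact (le_abs_self _).trans b2
        _ = (N * (N + 1) * |C2| * √ρ) * (ker (N + 2) s ρ * ρ ^ 2) := by ring
        _ ≤ (N * (N + 1) * |C2| * √ρ) * ker N s ρ := mul_le_mul_of_nonneg_left k2 (by positivity)
    have t3 : (V x - V y) * ker N s ρ ≤ |V x - V y| * ker N s ρ :=
      mul_le_mul_of_nonneg_right (le_abs_self _) n0
    simp only [hΦ]
    rw [← hρd]
    calc _ = c * (N * ker (N + 1) s ρ * (Lx - Ly)) +
          c * (N * (N + 1) * ker (N + 2) s ρ * (Gy - Gx)) + (V x - V y) * ker N s ρ := by ring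
      _ ≤ c * (N * |C1| * √ρ * ker N s ρ) + c * (N * (N + 1) * |C2| * √ρ * ker N s ρ) +
          |V x - V y| * ker N s ρ := by linarith
      _ = _ := by rw [hD]; ring
  -- compactness
  have hKc : IsCompact {p : M × M | η ≤ Φ p} :=
    (isClosed_le continuous_const hΦc).isCompact
  obtain ⟨r, hr, hrK⟩ := hKc.exists_forall_le' (f := fun p : M × M => A.rho p.1 p.2) (a := 0)
    A.rho_cont.continuousOn (by
      rintro ⟨x, y⟩ hp
      apply A.rho_pos
      intro hxy
      have hxy' : x = y := hxy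
      subst hxy'
      simp only [Set.mem_ofPred_eq, hΦ, A.rho_self, Real.sqrt_zero, mul_zero, sub_self, abs_zero,
        add_zero] at hp
      linarith)
  obtain ⟨B, hB⟩ := (isCompact_univ : IsCompact (univ : Set (M × M))).exists_bound_of_continuousOn
    hΦc.continuousOn
  refine ⟨|B| * (r ^ N)⁻¹, fun s hs _ x y => (key s hs x y).trans ?_⟩
  have hρ := rho_nonneg A x y
  have n0 := ker_nonneg N hs hρ
  by_cases h : η ≤ Φ (x, y)
  · have h1 : r ≤ A.rho x y := hrK (x, y) h
    have h2 : Φ (x, y) ≤ |B| := by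
      have := hB (x, y) (mem_univ _)
      rw [Real.norm_eq_abs] at this
      exact ((le_abs_self _).trans this).trans (le_abs_self _)
    have h3 : ker N s (A.rho x y) ≤ (r ^ N)⁻¹ := by
      unfold ker
      apply inv_anti₀ (by positivity)
      exact pow_le_pow_left₀ hr.le (by linarith) N
    have h4 : Φ (x, y) * ker N s (A.rho x y) ≤ |B| * (r ^ N)⁻¹ :=
      mul_le_mul h2 h3 n0 (abs_nonneg _)
    have h5 : 0 ≤ η * ker N s (A.rho x y) := by positivity
    linarith
  · push Not at h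
    have h4 : Φ (x, y) * ker N s (A.rho x y) ≤ η * ker N s (A.rho x y) :=
      mul_le_mul_of_nonneg_right h.le n0
    have h5 : 0 ≤ |B| * (r ^ N)⁻¹ := by positivity
    linarith

end Pool.Agent.Lib.MP_df705a_gt.Perm
end
end
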