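import Pool.Agent.Lib.MP_df705a_gt.Mg.G054
import Pool.Agent.Lib.MP_df705a_gt.Curv

section

/-!
Positivity, and the pointwise inequality at the level of 2-jets.
-/

noncomputable section

set_option linter.unusedSectionVars false
set_option linter.unusedSimpArgs false

namespace Pool.Agent.Lib.MP_df705a_gt.Twist.Alg

open Module

section

variable {V : Type*} [AddCommGroup V] [Module ℝ V] {ι : Type*} [Fintype ι]
  [DecidableEq ι] {e : Basis ι ℝ V} {h : Bil V}

open scoped MatrixOrder in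
theorem exists_star {M : Matrix ι ι ℝ} (hM : M.PosSemidef) :
    ∃ C : Matrix ι ι ℝ, ∀ i j, M i j = ∑ k, C k i * C k j := by
  obtain ⟨y, hy⟩ := CStarAlgebra.nonneg_iff_eq_star_mul_self.mp hM.nonneg
  refine ⟨y, fun i j => ?_⟩
  rw [hy, Matrix.star_eq_conjTranspose, Matrix.mul_apply]
  refine Finset.sum_congr rfl fun k _ => ?_
  rw [Matrix.conjTranspose_apply]
  simp

/-- The trace as a sum over an orthonormal frame. -/
theorem exists_frame (hp : (gram e h).PosDef) :
    ∃ x : ι → V, ∀ T : V →ₗ[ℝ] V →ₗ[ℝ] ℝ, tr e h (fun u v => T u v) = ∑ k, T (x k) (x k) := by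
  obtain ⟨C, hC⟩ := exists_star hp.inv.posSemidef
  refine ⟨fun k => ∑ i, C k i • e i, fun T => ?_⟩
  have h1 : ∀ k, T (∑ i, C k i • e i) (∑ i, C k i • e i) =
      ∑ i, ∑ j, C k i * C k j * T (e i) (e j) := by
    intro k
    simp only [map_sum, map_smul, LinearMap.sum_apply, LinearMap.smul_apply, smul_eq_mul,
      Finset.mul_sum]
    rw [Finset.sum_comm]
    refine Finset.sum_congr rfl fun i _ => Finset.sum_congr rfl fun j _ => ?_
    ring
  simp only [h1]
  unfold tr
  simp only [hC, Finset.sum_mul]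
  symm
  rw [Finset.sum_comm]
  refine Finset.sum_congr rfl fun i _ => ?_
  rw [Finset.sum_comm]

theorem cop_frame {x : ι → V}
    (hx : ∀ T : V →ₗ[ℝ] V →ₗ[ℝ] ℝ, tr e h (fun u v => T u v) = ∑ k, T (x k) (x k))
    (ξ η : V →ₗ[ℝ] ℝ) : cop e h ξ η = ∑ k, ξ (x k) * η (x k) := by
  have := hx ((LinearMap.mul ℝ ℝ).compl₁₂ ξ η)
  simpa [cop] using this

theorem cop_self_nonneg (hp : (gram e h).PosDef) (ξ : V →ₗ[ℝ] ℝ) : 0 ≤ cop e h ξ ξ := by
  obtain ⟨x, hx⟩ := exists_frame hp
  rw [cop_frame hx]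
  exact Finset.sum_nonneg fun k _ => mul_self_nonneg _

end

section

variable {V₁ V₂ : Type*} [AddCommGroup V₁] [Module ℝ V₁] [AddCommGroup V₂] [Module ℝ V₂]
  {ι₁ ι₂ : Type*} [Fintype ι₁] [DecidableEq ι₁] [Fintype ι₂] [DecidableEq ι₂]
  {e₁ : Basis ι₁ ℝ V₁} {e₂ : Basis ι₂ ℝ V₂} {h : Bil V₁} {f : Bil V₂}

theorem quad_nonneg (hp : (gram e₁ h).PosDef) (fp : (gram e₂ f).PosDef)
    (S : V₁ →ₗ[ℝ] Bil V₂) :
    0 ≤ tr e₁ h (fun u z => quad e₂ f (fun x v w => S x v w) u z) := by
  obtain ⟨y, hy⟩ := exists_frame fp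
  have h1 : ∀ u z, quad e₂ f (fun x v w => S x v w) u z =
      ∑ l, ∑ k, S u (y l) (y k) * S z (y l) (y k) := by
    intro u z
    unfold quad
    have h2 : ∀ v w, cop e₂ f (fun x => S u w x) (fun x => S z v x) =
        (∑ k, (LinearMap.mul ℝ ℝ).compl₁₂ ((S z).flip (y k)) ((S u).flip (y k))) v w := by
      intro v w
      rw [cop_frame hy (S u w) (S z v)]
      simp only [LinearMap.sum_apply, LinearMap.compl₁₂_apply, LinearMap.mul_apply',
        LinearMap.flip_apply]
      refine Finset.sum_congr rfl fun k _ => mul_comm _ _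
    rw [tr_congr h2, hy]
    refine Finset.sum_congr rfl fun l _ => ?_
    simp only [LinearMap.sum_apply, LinearMap.compl₁₂_apply, LinearMap.mul_apply',
      LinearMap.flip_apply]
    refine Finset.sum_congr rfl fun k _ => mul_comm _ _
  rw [tr_congr h1, tr_sum]
  refine Finset.sum_nonneg fun l _ => ?_
  rw [tr_sum]
  refine Finset.sum_nonneg fun k _ => ?_
  exact cop_self_nonneg hp ((S.flip (y l)).flip (y k))

/-- The quadratic form `Q`. -/
theorem Q_nonneg {V : Type*} [AddCommGroup V] [Module ℝ V] {ι : Type*} [Fintype ι]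
    [DecidableEq ι] {e : Basis ι ℝ V} {h : Bil V} (hh : Nondeg e h) (hp : (gram e h).PosDef)
    (a b : V →ₗ[ℝ] ℝ) {m k : ℝ} (hm : 1 ≤ m) (hk : 1 ≤ k) :
    0 ≤ m * (m - 1) * cop e h a a + 2 * (m - 1) * (k - 1) * cop e h a b +
      k * (k - 1) * cop e h b b := by
  have h1 := cop_self_nonneg hp (m • a + (k - 1) • b)
  have h2 := cop_self_nonneg hp b
  have h3 : cop e h (m • a + (k - 1) • b : V →ₗ[ℝ] ℝ) (m • a + (k - 1) • b : V →ₗ[ℝ] ℝ) =
      m ^ 2 * cop e h a a + 2 * m * (k - 1) * cop e h a b + (k - 1) ^ 2 * cop e h b b := by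
    have h4 : ((m • a + (k - 1) • b : V →ₗ[ℝ] ℝ) : V → ℝ) = m • (a : V → ℝ) +
        (k - 1) • (b : V → ℝ) := rfl
    rw [h4]
    simp only [cop_add_left, cop_smul_left, cop_add_right, cop_smul_right]
    rw [cop_comm hh b a]
    ring
  rw [h3] at h1
  have hm0 : 0 < m := by linarith
  have h5 : m * (m - 1) * cop e h a a + 2 * (m - 1) * (k - 1) * cop e h a b +
      k * (k - 1) * cop e h b b = (m - 1) / m * (m ^ 2 * cop e h a a +
        2 * m * (k - 1) * cop e h a b + (k - 1) ^ 2 * cop e h b b) +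
      (k - 1) * (1 + (k - 1) / m) * cop e h b b := by
    field_simp
    ring
  rw [h5]
  have h6 : 0 ≤ (m - 1) / m := div_nonneg (by linarith) hm0.le
  have h7 : 0 ≤ (k - 1) * (1 + (k - 1) / m) :=
    mul_nonneg (by linarith) (add_nonneg zero_le_one (div_nonneg (by linarith) hm0.le))
  exact add_nonneg (mul_nonneg h6 h1) (mul_nonneg h7 h2)

variable {g : Bil (V₁ × V₂)} {D : (V₁ × V₂) →ₗ[ℝ] Bil (V₁ × V₂)}
  {D2 : (V₁ × V₂) →ₗ[ℝ] (V₁ × V₂) →ₗ[ℝ] Bil (V₁ × V₂)} {A B : ℝ}
  {a b : (V₁ × V₂) →ₗ[ℝ] ℝ} {a2 b2 : Bil (V₁ × V₂)}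
  {Dh : (V₁ × V₂) →ₗ[ℝ] Bil V₁} {D2h : (V₁ × V₂) →ₗ[ℝ] (V₁ × V₂) →ₗ[ℝ] Bil V₁}
  {Df : (V₁ × V₂) →ₗ[ℝ] Bil V₂} {D2f : (V₁ × V₂) →ₗ[ℝ] (V₁ × V₂) →ₗ[ℝ] Bil V₂}

/-- The pointwise inequality. -/
theorem Tw.ineq (T : Tw e₁ e₂ h f g D D2 A B a b a2 b2 Dh D2h Df D2f)
    (hp : (gram e₁ h).PosDef) (fp : (gram e₂ f).PosDef)
    (hm : (1 : ℝ) ≤ Fintype.card ι₁) (hk : (1 : ℝ) ≤ Fintype.card ι₂) {W c : ℝ}
    (hc : 0 < c) (hWA : W * A⁻¹ = c) (hWB : W * B⁻¹ = c⁻¹) :
    W * scal (e₁.prod e₂) g D D2 + 2 * c *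
      ((Fintype.card ι₁ - 1) * lap e₁ h (r1 Dh) (r1 a) (r11 a2) +
        Fintype.card ι₂ * lap e₁ h (r1 Dh) (r1 b) (r11 b2) +
        ((Fintype.card ι₁ - 1) * (cop e₁ h (r1 a) (r1 b) - cop e₁ h (r1 a) (r1 a)) +
          Fintype.card ι₂ * (cop e₁ h (r1 b) (r1 b) - cop e₁ h (r1 a) (r1 b)))) +
      2 * c⁻¹ * ((Fintype.card ι₂ - 1) * lap e₂ f (r2 Df) (r2 b) (r22 b2) +
        Fintype.card ι₁ * lap e₂ f (r2 Df) (r2 a) (r22 a2) +
        ((Fintype.card ι₂ - 1) * (cop e₂ f (r2 b) (r2 a) - cop e₂ f (r2 b) (r2 b)) +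
          Fintype.card ι₁ * (cop e₂ f (r2 a) (r2 a) - cop e₂ f (r2 b) (r2 a)))) ≤
    c * scal e₁ h (r1 Dh) (r11 D2h) + c⁻¹ * scal e₂ f (r2 Df) (r22 D2f) := by
  rw [T.scal_twist, mul_add, ← mul_assoc, ← mul_assoc, hWA, hWB]
  have q1 := Q_nonneg T.hh hp (r1 a) (r1 b) hm hk
  have q2 := Q_nonneg T.hf fp (r2 b) (r2 a) hk hm
  have t1 := quad_nonneg hp fp (r1 Df)
  have t2 := quad_nonneg fp hp (r2 Dh)
  have t1' : 0 ≤ tr e₁ h (fun u z => quad e₂ f (fun (x : V₁) v w => Df (x, 0) v w) u z) := t1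
  have t2' : 0 ≤ tr e₂ f (fun u z => quad e₁ h (fun (x : V₂) v w => Dh (0, x) v w) u z) := t2
  have hc' : 0 < c⁻¹ := inv_pos.mpr hc
  have q1' := mul_nonneg hc.le q1
  have q2' := mul_nonneg hc'.le q2
  have t1'' := mul_nonneg hc.le t1'
  have t2'' := mul_nonneg hc'.le t2'
  nlinarith [q1', q2', t1'', t2'']

end

end Pool.Agent.Lib.MP_df705a_gt.Twist.Alg
end
end

section

/-!
The coordinate formulas for the scalar curvature in terms of 2-jets.
-/

noncomputable section

set_option linter.unusedSectionVars false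
set_option linter.unusedSimpArgs false

open scoped ContDiff Topology
open Module Filter

namespace Pool.Agent.Lib.MP_df705a_gt.Twist.Alg

section

variable {X : Type*} [NormedAddCommGroup X] [NormedSpace ℝ X] {ι : Type*}

theorem two_le_inf : (2 : WithTop ℕ∞) ≤ ∞ :=
  (WithTop.coe_le_coe.2 (le_top : (2 : ℕ∞) ≤ ⊤) :
    ((2 : ℕ∞) : WithTop ℕ∞) ≤ ((⊤ : ℕ∞) : WithTop ℕ∞))

/-- A continuous bilinear form as a bilinear form. -/
def toL2 (L : X →L[ℝ] X →L[ℝ] ℝ) : X →ₗ[ℝ] X →ₗ[ℝ] ℝ :=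
  (ContinuousLinearMap.coeLM ℝ).comp (L : X →ₗ[ℝ] X →L[ℝ] ℝ)

theorem toL2_apply (L : X →L[ℝ] X →L[ℝ] ℝ) (u v : X) : toL2 L u v = L u v := rfl

/-- The first derivatives of the coefficients. -/
def j1 (M : ι → ι → X → ℝ) (x : X) (i j : ι) : X →ₗ[ℝ] ℝ :=
  (fderiv ℝ (M i j) x : X →ₗ[ℝ] ℝ)

/-- The second derivatives of the coefficients. -/
def j2 (M : ι → ι → X → ℝ) (x : X) (i j : ι) : X →ₗ[ℝ] X →ₗ[ℝ] ℝ :=
  toL2 (fderiv ℝ (fderiv ℝ (M i j)) x)

theorem j1_apply (M : ι → ι → X → ℝ) (x : X) (i j : ι) (u : X) :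
    j1 M x i j u = fderiv ℝ (M i j) x u := rfl

theorem j2_apply (M : ι → ι → X → ℝ) (x : X) (i j : ι) (u v : X) :
    j2 M x i j u v = fderiv ℝ (fderiv ℝ (M i j)) x u v := rfl

theorem differentiableAt_fderiv {F : X → ℝ} {x : X} (hF : ContDiffAt ℝ ∞ F x) :
    DifferentiableAt ℝ (fderiv ℝ F) x :=
  ((hF.of_le two_le_inf).fderiv_right (m := 1) (by norm_num)).differentiableAt
    (by norm_num)

theorem fderiv_fderiv_apply {F : X → ℝ} {x : X} (hF : ContDiffAt ℝ ∞ F x) (u v : X) :
    fderiv ℝ (fun y => fderiv ℝ F y v) x u = fderiv ℝ (fderiv ℝ F) x u v := by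
  rw [fderiv_clm_apply (differentiableAt_fderiv hF) (differentiableAt_const v)]
  simp

theorem fderiv_fderiv_symm {F : X → ℝ} {x : X} (hF : ContDiffAt ℝ ∞ F x) (u v : X) :
    fderiv ℝ (fderiv ℝ F) x u v = fderiv ℝ (fderiv ℝ F) x v u :=
  ((hF.of_le two_le_inf).isSymmSndFDerivAt (by simp)) u v

theorem j1_symm {M : ι → ι → X → ℝ} {x : X} (hM : ∀ᶠ y in 𝓝 x, ∀ i j, M i j y = M j i y)
    (i j : ι) : j1 M x i j = j1 M x j i := by
  unfold j1
  have h1 : M i j =ᶠ[𝓝 x] M j i := hM.mono fun y hy => hy i j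
  rw [h1.fderiv_eq]

theorem j2_symm {M : ι → ι → X → ℝ} {x : X} (hM : ∀ᶠ y in 𝓝 x, ∀ i j, M i j y = M j i y)
    (i j : ι) : j2 M x i j = j2 M x j i := by
  unfold j2
  have h1 : M i j =ᶠ[𝓝 x] M j i := hM.mono fun y hy => hy i j
  rw [h1.fderiv.fderiv_eq]

end

section

variable {E : Type*} [NormedAddCommGroup E] [NormedSpace ℝ E] [FiniteDimensional ℝ E]

/-- The form with the coefficients `h`. -/
abbrev fB (h : Curv.Coeff E) (x : E) : Bil E := mkB (finBasis ℝ E) fun i j => h x i j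

/-- The first derivative of the form with the coefficients `h`. -/
abbrev fD (h : Curv.Coeff E) (x : E) : E →ₗ[ℝ] Bil E := mkD (finBasis ℝ E) (j1 (fun i j y => h y i j) x)

/-- The second derivative of the form with the coefficients `h`. -/
abbrev fD2 (h : Curv.Coeff E) (x : E) : E →ₗ[ℝ] E →ₗ[ℝ] Bil E :=
  mkD2 (finBasis ℝ E) (j2 (fun i j y => h y i j) x)

theorem christoffel_eq (h : Curv.Coeff E) (i j k : Fin (finrank ℝ E)) (x : E) :
    Curv.christoffel h i j k x =
      chr (fD h x) (finBasis ℝ E i) (finBasis ℝ E j) (finBasis ℝ E k) := by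
  rw [chr_apply, mkD_basis, mkD_basis, mkD_basis]
  rfl

theorem pd_pd {F : E → ℝ} {x : E} (hF : ContDiffAt ℝ ∞ F x) (i j : Fin (finrank ℝ E)) :
    Curv.pd i (Curv.pd j F) x = fderiv ℝ (fderiv ℝ F) x (finBasis ℝ E i) (finBasis ℝ E j) :=
  fderiv_fderiv_apply hF _ _

theorem differentiableAt_pd {F : E → ℝ} {x : E} (hF : ContDiffAt ℝ ∞ F x)
    (j : Fin (finrank ℝ E)) : DifferentiableAt ℝ (Curv.pd j F) x :=
  (differentiableAt_fderiv hF).clm_apply (differentiableAt_const _)

theorem pd_christoffel {h : Curv.Coeff E} {x : E}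
    (hh : ∀ i j, ContDiffAt ℝ ∞ (fun y => h y i j) x) (i j k l : Fin (finrank ℝ E)) :
    Curv.pd i (Curv.christoffel h j k l) x =
      chr (fD2 h x (finBasis ℝ E i)) (finBasis ℝ E j) (finBasis ℝ E k) (finBasis ℝ E l) := by
  rw [chr_apply, mkD2_basis, mkD2_basis, mkD2_basis, j2_apply, j2_apply, j2_apply,
    ← pd_pd (hh k l), ← pd_pd (hh j l), ← pd_pd (hh j k)]
  have h1 : Curv.christoffel h j k l = fun y => (Curv.pd j (fun y => h y k l) y +
      Curv.pd k (fun y => h y j l) y - Curv.pd l (fun y => h y j k) y) / 2 := rfl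
  have d1 := differentiableAt_pd (hh k l) j
  have d2 := differentiableAt_pd (hh j l) k
  have d3 := differentiableAt_pd (hh j k) l
  rw [h1]
  have h2 : HasFDerivAt (fun y => (Curv.pd j (fun y => h y k l) y +
      Curv.pd k (fun y => h y j l) y - Curv.pd l (fun y => h y j k) y) / 2)
      ((2⁻¹ : ℝ) • (fderiv ℝ (Curv.pd j fun y => h y k l) x + fderiv ℝ (Curv.pd k fun y => h y j l) x -
        fderiv ℝ (Curv.pd l fun y => h y j k) x)) x := by
    simp only [div_eq_mul_inv]
    exact ((d1.hasFDerivAt.add d2.hasFDerivAt).sub d3.hasFDerivAt).mul_const _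
  unfold Curv.pd at h2 ⊢
  rw [h2.fderiv]
  simp only [_root_.smul_apply, _root_.add_apply, _root_.sub_apply, smul_eq_mul]
  ring

theorem riemann_eq {h : Curv.Coeff E} {x : E}
    (hh : ∀ i j, ContDiffAt ℝ ∞ (fun y => h y i j) x) (i j k l : Fin (finrank ℝ E)) :
    Curv.riemann h i j k l x = curv (finBasis ℝ E) (fB h x) (fD h x) (fD2 h x)
      (finBasis ℝ E i) (finBasis ℝ E j) (finBasis ℝ E k) (finBasis ℝ E l) := by
  unfold Curv.riemann curv
  rw [pd_christoffel hh, pd_christoffel hh]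
  congr 1
  unfold cop tr
  rw [gram_mkB, ← Finset.sum_sub_distrib]
  refine Finset.sum_congr rfl fun p _ => ?_
  rw [← Finset.sum_sub_distrib]
  refine Finset.sum_congr rfl fun q _ => ?_
  rw [christoffel_eq, christoffel_eq, christoffel_eq, christoffel_eq]
  ring

theorem scal_link {h : Curv.Coeff E} {x : E}
    (hh : ∀ i j, ContDiffAt ℝ ∞ (fun y => h y i j) x) :
    Curv.scal h x = scal (finBasis ℝ E) (fB h x) (fD h x) (fD2 h x) := by
  unfold Curv.scal scal tr
  rw [gram_mkB]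
  refine Finset.sum_congr rfl fun i _ => ?_
  simp only [Finset.mul_sum]
  have h1 : ∀ j : Fin (finrank ℝ E), ∑ k, ∑ l, (h x)⁻¹ i l * (h x)⁻¹ j k *
      Curv.riemann h i j k l x = ∑ l, ∑ k, (h x)⁻¹ i l * (h x)⁻¹ j k *
      Curv.riemann h i j k l x := fun j => Finset.sum_comm
  simp only [h1]
  rw [Finset.sum_comm]
  refine Finset.sum_congr rfl fun l _ => Finset.sum_congr rfl fun j _ =>
    Finset.sum_congr rfl fun k _ => ?_
  rw [riemann_eq hh]
  ring

end

end Pool.Agent.Lib.MP_df705a_gt.Twist.Alg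
end
end

section

/-!
Derivative rules for the coefficients: conformal factors, slices, contractions.
-/

noncomputable section

set_option linter.unusedSectionVars false
set_option linter.unusedSimpArgs false

open scoped ContDiff Topology
open Module Filter

namespace Pool.Agent.Lib.MP_df705a_gt.Twist.Alg

section

variable {X : Type*} [NormedAddCommGroup X] [NormedSpace ℝ X] {α S : X → ℝ} {q : X}

theorem eventually_differentiableAt (hS : ContDiffAt ℝ ∞ S q) :
    ∀ᶠ y in 𝓝 q, DifferentiableAt ℝ S y := by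
  have h1 : ContDiffAt ℝ 1 S q := hS.of_le (by exact_mod_cast (le_trans one_le_two two_le_inf))
  filter_upwards [h1.eventually (by simp)] with y hy
  exact hy.differentiableAt (by norm_num)

theorem conf_hasFDerivAt {y : X} (hα : DifferentiableAt ℝ α y) (hS : DifferentiableAt ℝ S y) :
    HasFDerivAt (fun y => Real.exp (α y) ^ 2 * S y)
      (Real.exp (α y) ^ 2 • ((2 * S y) • fderiv ℝ α y + fderiv ℝ S y)) y := by
  have h1 : HasFDerivAt (fun y => Real.exp (α y) ^ 2)
      ((2 * Real.exp (α y) ^ 2) • fderiv ℝ α y) y := by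
    have := (hα.hasFDerivAt.exp).pow 2
    refine this.congr_fderiv ?_
    ext u
    simp
    ring
  refine (h1.mul hS.hasFDerivAt).congr_fderiv ?_
  ext u
  simp only [_root_.smul_apply, _root_.add_apply, smul_eq_mul]
  ring

theorem conf_fderiv (hα : ContDiffAt ℝ ∞ α q) (hS : ContDiffAt ℝ ∞ S q) (u : X) :
    fderiv ℝ (fun y => Real.exp (α y) ^ 2 * S y) q u =
      Real.exp (α q) ^ 2 * (2 * fderiv ℝ α q u * S q + fderiv ℝ S q u) := by
  rw [(conf_hasFDerivAt (eventually_differentiableAt hα).self_of_nhds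
    (eventually_differentiableAt hS).self_of_nhds).fderiv]
  simp only [_root_.smul_apply, _root_.add_apply, smul_eq_mul]
  ring

theorem conf_fderiv2 (hα : ContDiffAt ℝ ∞ α q) (hS : ContDiffAt ℝ ∞ S q) (u v : X) :
    fderiv ℝ (fderiv ℝ fun y => Real.exp (α y) ^ 2 * S y) q u v =
      Real.exp (α q) ^ 2 * ((4 * fderiv ℝ α q u * fderiv ℝ α q v +
        2 * fderiv ℝ (fderiv ℝ α) q u v) * S q + 2 * fderiv ℝ α q u * fderiv ℝ S q v +
        2 * fderiv ℝ α q v * fderiv ℝ S q u + fderiv ℝ (fderiv ℝ S) q u v) := by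
  have hα0 := (eventually_differentiableAt hα).self_of_nhds
  have hS0 := (eventually_differentiableAt hS).self_of_nhds
  have h1 : (fderiv ℝ fun y => Real.exp (α y) ^ 2 * S y) =ᶠ[𝓝 q]
      fun y => Real.exp (α y) ^ 2 • ((2 * S y) • fderiv ℝ α y + fderiv ℝ S y) := by
    filter_upwards [eventually_differentiableAt hα, eventually_differentiableAt hS] with y h1 h2
    exact (conf_hasFDerivAt h1 h2).fderiv
  have h2 : HasFDerivAt (fun y => Real.exp (α y) ^ 2)
      ((2 * Real.exp (α q) ^ 2) • fderiv ℝ α q) q := by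
    have := (hα0.hasFDerivAt.exp).pow 2
    refine this.congr_fderiv ?_
    ext u
    simp
    ring
  have h3 : HasFDerivAt (fun y => (2 * S y)) ((2 : ℝ) • fderiv ℝ S q) q :=
    hS0.hasFDerivAt.const_mul 2
  have h4 := h3.smul (differentiableAt_fderiv hα).hasFDerivAt
  have h5 := h4.add (differentiableAt_fderiv hS).hasFDerivAt
  have h6 : HasFDerivAt (fun y => Real.exp (α y) ^ 2 • ((2 * S y) • fderiv ℝ α y + fderiv ℝ S y))
      _ q := h2.smul h5
  rw [h1.fderiv_eq, h6.fderiv]
  simp only [_root_.smul_apply, _root_.add_apply, smul_eq_mul,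
    ContinuousLinearMap.smulRight_apply, Pi.add_apply, Pi.smul_apply', Pi.smul_apply]
  ring

end

section

variable {X : Type*} [NormedAddCommGroup X] [NormedSpace ℝ X]
  {V : Type*} [AddCommGroup V] [Module ℝ V] {ι : Type*} [Fintype ι]
  [DecidableEq ι] (b : Basis ι ℝ V) {M : ι → ι → X → ℝ} {q : X}

theorem form_contDiffAt (hM : ∀ i j, ContDiffAt ℝ ∞ (M i j) q) (v w : V) :
    ContDiffAt ℝ ∞ (fun y => mkB b (fun i j => M i j y) v w) q := by
  simp only [mkB_apply]
  exact ContDiffAt.sum fun i _ => ContDiffAt.sum fun j _ => (hM i j).mul contDiffAt_const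

theorem form_hasFDerivAt {y : X} (hM : ∀ i j, DifferentiableAt ℝ (M i j) y) (v w : V) :
    HasFDerivAt (fun y => mkB b (fun i j => M i j y) v w)
      (∑ i, ∑ j, (b.repr v i * b.repr w j) • fderiv ℝ (M i j) y) y := by
  simp only [mkB_apply]
  exact HasFDerivAt.fun_sum fun i _ => HasFDerivAt.fun_sum fun j _ =>
    (hM i j).hasFDerivAt.mul_const _

theorem form_fderiv (hM : ∀ i j, ContDiffAt ℝ ∞ (M i j) q) (u : X) (v w : V) :
    fderiv ℝ (fun y => mkB b (fun i j => M i j y) v w) q u = mkD b (j1 M q) u v w := by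
  rw [(form_hasFDerivAt b (fun i j => (eventually_differentiableAt (hM i j)).self_of_nhds)
    v w).fderiv, mkD_apply]
  simp only [_root_.sum_apply, _root_.smul_apply, smul_eq_mul, j1_apply]
  refine Finset.sum_congr rfl fun i _ => Finset.sum_congr rfl fun j _ => mul_comm _ _

theorem form_fderiv2 (hM : ∀ i j, ContDiffAt ℝ ∞ (M i j) q) (u u' : X) (v w : V) :
    fderiv ℝ (fderiv ℝ fun y => mkB b (fun i j => M i j y) v w) q u u' =
      mkD2 b (j2 M q) u u' v w := by
  have h1 : (fderiv ℝ fun y => mkB b (fun i j => M i j y) v w) =ᶠ[𝓝 q]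
      fun y => ∑ i, ∑ j, (b.repr v i * b.repr w j) • fderiv ℝ (M i j) y := by
    have h2 : ∀ᶠ y in 𝓝 q, ∀ i j, DifferentiableAt ℝ (M i j) y := by
      rw [eventually_all]
      intro i
      rw [eventually_all]
      intro j
      exact eventually_differentiableAt (hM i j)
    filter_upwards [h2] with y hy
    exact (form_hasFDerivAt b hy v w).fderiv
  have h3 : HasFDerivAt (fun y => ∑ i, ∑ j, (b.repr v i * b.repr w j) • fderiv ℝ (M i j) y)
      (∑ i, ∑ j, (b.repr v i * b.repr w j) • fderiv ℝ (fderiv ℝ (M i j)) q) q :=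
    HasFDerivAt.fun_sum fun i _ => HasFDerivAt.fun_sum fun j _ =>
      (differentiableAt_fderiv (hM i j)).hasFDerivAt.fun_const_smul _
  rw [h1.fderiv_eq, h3.fderiv, mkD2_apply]
  simp only [_root_.sum_apply, _root_.smul_apply, smul_eq_mul, j2_apply]
  refine Finset.sum_congr rfl fun i _ => Finset.sum_congr rfl fun j _ => mul_comm _ _

end

section

variable {E₁ : Type*} [NormedAddCommGroup E₁] [NormedSpace ℝ E₁]
  {E₂ : Type*} [NormedAddCommGroup E₂] [NormedSpace ℝ E₂] {F : E₁ × E₂ → ℝ} {q : E₁ × E₂}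

theorem slice1_hasFDerivAt {x : E₁} {y : E₂} (hF : DifferentiableAt ℝ F (x, y)) :
    HasFDerivAt (fun x => F (x, y)) ((fderiv ℝ F (x, y)).comp (ContinuousLinearMap.inl ℝ E₁ E₂))
      x :=
  hF.hasFDerivAt.comp x ((hasFDerivAt_id x).prodMk (hasFDerivAt_const y x))

theorem slice2_hasFDerivAt {x : E₁} {y : E₂} (hF : DifferentiableAt ℝ F (x, y)) :
    HasFDerivAt (fun y => F (x, y)) ((fderiv ℝ F (x, y)).comp (ContinuousLinearMap.inr ℝ E₁ E₂))
      y :=
  hF.hasFDerivAt.comp y ((hasFDerivAt_const x y).prodMk (hasFDerivAt_id y))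

theorem slice1_contDiffAt (hF : ContDiffAt ℝ ∞ F q) :
    ContDiffAt ℝ ∞ (fun x => F (x, q.2)) q.1 :=
  ContDiffAt.comp (g := F) (f := fun x : E₁ => (x, q.2)) q.1 hF
    (contDiffAt_id.prodMk contDiffAt_const)

theorem slice2_contDiffAt (hF : ContDiffAt ℝ ∞ F q) :
    ContDiffAt ℝ ∞ (fun y => F (q.1, y)) q.2 :=
  ContDiffAt.comp (g := F) (f := fun y : E₂ => (q.1, y)) q.2 hF
    (contDiffAt_const.prodMk contDiffAt_id)

theorem slice1_fderiv (hF : ContDiffAt ℝ ∞ F q) (u : E₁) :
    fderiv ℝ (fun x => F (x, q.2)) q.1 u = fderiv ℝ F q (u, 0) := by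
  have h1 : DifferentiableAt ℝ F (q.1, q.2) := (eventually_differentiableAt hF).self_of_nhds
  rw [(slice1_hasFDerivAt h1).fderiv]
  rfl

theorem slice2_fderiv (hF : ContDiffAt ℝ ∞ F q) (u : E₂) :
    fderiv ℝ (fun y => F (q.1, y)) q.2 u = fderiv ℝ F q (0, u) := by
  have h1 : DifferentiableAt ℝ F (q.1, q.2) := (eventually_differentiableAt hF).self_of_nhds
  rw [(slice2_hasFDerivAt h1).fderiv]
  rfl

theorem slice1_fderiv2 (hF : ContDiffAt ℝ ∞ F q) (u v : E₁) :
    fderiv ℝ (fderiv ℝ fun x => F (x, q.2)) q.1 u v = fderiv ℝ (fderiv ℝ F) q (u, 0) (v, 0) := by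
  have hc : Tendsto (fun x : E₁ => (x, q.2)) (𝓝 q.1) (𝓝 q) := by
    have : Continuous fun x : E₁ => (x, q.2) := by fun_prop
    exact this.tendsto q.1
  have h1 : (fderiv ℝ fun x => F (x, q.2)) =ᶠ[𝓝 q.1]
      fun x => (fderiv ℝ F (x, q.2)).comp (ContinuousLinearMap.inl ℝ E₁ E₂) := by
    filter_upwards [hc.eventually (eventually_differentiableAt hF)] with x hx
    exact (slice1_hasFDerivAt hx).fderiv
  have h2 : HasFDerivAt (fun x : E₁ => fderiv ℝ F (x, q.2))
      ((fderiv ℝ (fderiv ℝ F) q).comp (ContinuousLinearMap.inl ℝ E₁ E₂)) q.1 := by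
    have h3 : HasFDerivAt (fderiv ℝ F) (fderiv ℝ (fderiv ℝ F) q) ((fun x : E₁ => (x, q.2)) q.1) :=
      (differentiableAt_fderiv hF).hasFDerivAt
    exact h3.comp q.1 ((hasFDerivAt_id q.1).prodMk (hasFDerivAt_const q.2 q.1))
  have h4 := h2.clm_comp (hasFDerivAt_const (ContinuousLinearMap.inl ℝ E₁ E₂) q.1)
  rw [h1.fderiv_eq, h4.fderiv]
  simp

theorem slice2_fderiv2 (hF : ContDiffAt ℝ ∞ F q) (u v : E₂) :
    fderiv ℝ (fderiv ℝ fun y => F (q.1, y)) q.2 u v = fderiv ℝ (fderiv ℝ F) q (0, u) (0, v) := by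
  have hc : Tendsto (fun y : E₂ => (q.1, y)) (𝓝 q.2) (𝓝 q) := by
    have : Continuous fun y : E₂ => (q.1, y) := by fun_prop
    exact this.tendsto q.2
  have h1 : (fderiv ℝ fun y => F (q.1, y)) =ᶠ[𝓝 q.2]
      fun y => (fderiv ℝ F (q.1, y)).comp (ContinuousLinearMap.inr ℝ E₁ E₂) := by
    filter_upwards [hc.eventually (eventually_differentiableAt hF)] with x hx
    exact (slice2_hasFDerivAt hx).fderiv
  have h2 : HasFDerivAt (fun y : E₂ => fderiv ℝ F (q.1, y))
      ((fderiv ℝ (fderiv ℝ F) q).comp (ContinuousLinearMap.inr ℝ E₁ E₂)) q.2 := by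
    have h3 : HasFDerivAt (fderiv ℝ F) (fderiv ℝ (fderiv ℝ F) q) ((fun y : E₂ => (q.1, y)) q.2) :=
      (differentiableAt_fderiv hF).hasFDerivAt
    exact h3.comp q.2 ((hasFDerivAt_const q.1 q.2).prodMk (hasFDerivAt_id q.2))
  have h4 := h2.clm_comp (hasFDerivAt_const (ContinuousLinearMap.inr ℝ E₁ E₂) q.2)
  rw [h1.fderiv_eq, h4.fderiv]
  simp

end

end Pool.Agent.Lib.MP_df705a_gt.Twist.Alg
end
end

section

/-!
# TASK GA: curvature of the sum of a form and a flat form (linear algebra)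
-/

noncomputable section

namespace Pool.Agent.Lib.MP_df705a_gt.Pin

open Module Pool.Agent.Lib.MP_df705a_gt.Twist Pool.Agent.Lib.MP_df705a_gt.Twist.Alg

variable {V' V F : Type*} [AddCommGroup V'] [Module ℝ V'] [AddCommGroup V] [Module ℝ V]
  [NormedAddCommGroup F] [InnerProductSpace ℝ F] [FiniteDimensional ℝ F]
  {ι' ι : Type*} [Fintype ι'] [DecidableEq ι'] [Fintype ι] [DecidableEq ι]
  {e' : Basis ι' ℝ V'} {e : Basis ι ℝ V} {h' : Bil V'} {h : Bil V} {P : V' →ₗ[ℝ] V}
  {S : V' →ₗ[ℝ] F}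

/-- `h'` is the orthogonal sum of `h` (by the projection `P`) and of the scalar product of `F` (by the
projection `S`). -/
structure Split (P : V' →ₗ[ℝ] V) (S : V' →ₗ[ℝ] F) (h' : Bil V') (h : Bil V) : Prop where
  bij : Function.Bijective fun v => (P v, S v)
  form : ∀ u v, h' u v = h (P u) (P v) + inner ℝ (S u) (S v)

/-- An adapted basis: with `Θ : V' ≃ₗ V × F`, `Θ v = (P v, S v)`, and an orthonormal basis `φ` of `F`
(`stdOrthonormalBasis ℝ F`), the basis `(e.prod φ.toBasis).map Θ.symm` indexed by `ι ⊕ κ`; its Gram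
matrix for `h'` is `Matrix.fromBlocks (gram e h) 0 0 1`. -/
theorem exists_adapted (H : Split P S h' h) (e : Basis ι ℝ V) :
    ∃ f : Basis (ι ⊕ Fin (finrank ℝ F)) ℝ V', (∀ i, P (f (Sum.inl i)) = e i) ∧
      (∀ j, P (f (Sum.inr j)) = 0) ∧
      gram f h' = Matrix.fromBlocks (gram e h) 0 0 1 := by
  let Θ : V' ≃ₗ[ℝ] V × F := LinearEquiv.ofBijective (P.prod S) H.bij
  have hP : ∀ w : V × F, P (Θ.symm w) = w.1 := by
    intro w
    have h1 : Θ (Θ.symm w) = w := Θ.apply_symm_apply w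
    exact congrArg Prod.fst h1
  have hS : ∀ w : V × F, S (Θ.symm w) = w.2 := by
    intro w
    have h1 : Θ (Θ.symm w) = w := Θ.apply_symm_apply w
    exact congrArg Prod.snd h1
  let φ := stdOrthonormalBasis ℝ F
  let f : Basis (ι ⊕ Fin (finrank ℝ F)) ℝ V' := (e.prod φ.toBasis).map Θ.symm
  have hfl : ∀ i, f (Sum.inl i) = Θ.symm (e i, 0) := by
    intro i
    simp [f]
  have hfr : ∀ j, f (Sum.inr j) = Θ.symm (0, φ j) := by
    intro j
    simp [f]
  refine ⟨f, fun i => by rw [hfl, hP], fun j => by rw [hfr, hP], ?_⟩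
  ext a b
  rcases a with i | i <;> rcases b with j | j
  · rw [Matrix.fromBlocks_apply₁₁]
    simp only [gram, Matrix.of_apply]
    rw [H.form, hfl, hfl, hP, hP, hS, hS]
    simp
  · rw [Matrix.fromBlocks_apply₁₂]
    simp only [gram, Matrix.of_apply]
    rw [H.form, hfl, hfr, hP, hP, hS, hS]
    simp
  · rw [Matrix.fromBlocks_apply₂₁]
    simp only [gram, Matrix.of_apply]
    rw [H.form, hfr, hfl, hP, hP, hS, hS]
    simp
  · rw [Matrix.fromBlocks_apply₂₂]
    simp only [gram, Matrix.of_apply]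
    rw [H.form, hfr, hfr, hP, hP, hS, hS]
    simp only [map_zero, LinearMap.zero_apply, zero_add]
    rw [Matrix.one_apply]
    exact orthonormal_iff_ite.mp φ.orthonormal i j

private theorem ga_ker (H : Split P S h' h) (hn : Nondeg e h) (v : V')
    (hv : ∀ u, h' u v = 0) : v = 0 := by
  let Θ : V' ≃ₗ[ℝ] V × F := LinearEquiv.ofBijective (P.prod S) H.bij
  have hP : ∀ w : V × F, P (Θ.symm w) = w.1 := by
    intro w
    have h1 : Θ (Θ.symm w) = w := Θ.apply_symm_apply w
    exact congrArg Prod.fst h1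
  have hS : ∀ w : V × F, S (Θ.symm w) = w.2 := by
    intro w
    have h1 : Θ (Θ.symm w) = w := Θ.apply_symm_apply w
    exact congrArg Prod.snd h1
  have h1 : ∀ x : V, h x (P v) = 0 := by
    intro x
    have := hv (Θ.symm (x, 0))
    rw [H.form, hP, hS] at this
    simpa using this
  have h2 : S v = 0 := by
    have := hv (Θ.symm (0, S v))
    rw [H.form, hP, hS] at this
    simpa using this
  have h3 : P v = 0 := by
    have h4 : ∀ ξ : V →ₗ[ℝ] ℝ, ξ (P v) = 0 := by
      intro ξ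
      obtain ⟨x, hx⟩ := exists_rep hn ξ
      rw [← hx]
      exact h1 x
    have h5 : e.repr (P v) = 0 := by
      ext i
      exact h4 (e.coord i)
    exact (LinearEquiv.map_eq_zero_iff e.repr).mp h5
  apply H.bij.injective
  show (P v, S v) = (P 0, S 0)
  rw [h2, h3, map_zero, map_zero]

/-- (Symmetric: from `form`.) -/
theorem nondeg_split (H : Split P S h' h) (hn : Nondeg e h) (e' : Basis ι' ℝ V') :
    Nondeg e' h' := by
  refine ⟨fun u v => ?_, ?_⟩
  · rw [H.form, H.form, hn.symm, real_inner_comm]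
  · rw [isUnit_iff_ne_zero]
    intro hdet
    obtain ⟨c, hc, hc0⟩ := Matrix.exists_mulVec_eq_zero_iff.mpr hdet
    apply hc
    have h1 : ∀ i, h' (e' i) (∑ j, c j • e' j) = 0 := by
      intro i
      have h2 := congrFun hc0 i
      simp only [Matrix.mulVec, dotProduct, gram, Matrix.of_apply, Pi.zero_apply] at h2
      rw [map_sum, ← h2]
      refine Finset.sum_congr rfl fun j _ => ?_
      rw [map_smul, smul_eq_mul, mul_comm]
    have h3 : ∑ j, c j • e' j = 0 := by
      apply ga_ker H hn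
      intro u
      have hu : h' u = ∑ i, e'.repr u i • h' (e' i) := by
        conv_lhs => rw [← e'.sum_repr u]
        simp only [map_sum, map_smul]
      rw [hu, LinearMap.sum_apply]
      refine Finset.sum_eq_zero fun i _ => ?_
      rw [LinearMap.smul_apply, h1 i, smul_zero]
    funext j
    have h4 := (Fintype.linearIndependent_iff.mp e'.linearIndependent) c h3 j
    exact h4

/-- The trace of a form which factors through `P`. (`tr_basis` with the adapted basis; the inverse of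
a block diagonal matrix is block diagonal.) -/
theorem tr_split (H : Split P S h' h) (hn : Nondeg e h) (e' : Basis ι' ℝ V') (T : Bil V) :
    tr e' h' (fun u v => T (P u) (P v)) = tr e h fun u v => T u v := by
  obtain ⟨f, hf1, hf2, hf3⟩ := exists_adapted H e
  have h1 := tr_basis (nondeg_split H hn e') (nondeg_split H hn f) (T.compl₁₂ P P)
  simp only [LinearMap.compl₁₂_apply] at h1
  rw [h1]
  unfold tr
  have hinv : (gram f h')⁻¹ = Matrix.fromBlocks (gram e h)⁻¹ 0 0 1 := by
    rw [hf3]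
    apply Matrix.inv_eq_right_inv
    rw [Matrix.fromBlocks_multiply]
    rw [Matrix.mul_nonsing_inv _ hn.det]
    simp
  rw [hinv, Fintype.sum_sum_type]
  have h2 : ∀ j : Fin (finrank ℝ F), ∑ x : ι ⊕ Fin (finrank ℝ F),
      Matrix.fromBlocks (gram e h)⁻¹ 0 0 1 (Sum.inr j) x *
        T (P (f (Sum.inr j))) (P (f x)) = 0 := by
    intro j
    refine Finset.sum_eq_zero fun x _ => ?_
    rw [hf2, map_zero, LinearMap.zero_apply, mul_zero]
  rw [Finset.sum_eq_zero (s := (Finset.univ : Finset (Fin (finrank ℝ F)))) fun j _ => h2 j,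
    add_zero]
  refine Finset.sum_congr rfl fun i _ => ?_
  rw [Fintype.sum_sum_type]
  rw [Finset.sum_eq_zero (s := (Finset.univ : Finset (Fin (finrank ℝ F)))) fun j _ => by
    show _ * T (P (f (Sum.inl i))) (P (f (Sum.inr j))) = 0
    rw [hf2, map_zero, mul_zero], add_zero]
  refine Finset.sum_congr rfl fun j _ => ?_
  show _ * T (P (f (Sum.inl i))) (P (f (Sum.inl j))) = _
  rw [Matrix.fromBlocks_apply₁₁, hf1, hf1]

theorem cop_split (H : Split P S h' h) (hn : Nondeg e h) (e' : Basis ι' ℝ V') (ξ η : V →ₗ[ℝ] ℝ) :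
    cop e' h' (fun u => ξ (P u)) (fun v => η (P v)) = cop e h ξ η := by
  have h1 := tr_split H hn e' (ξ.smulRight η)
  simp only [LinearMap.smulRight_apply, LinearMap.smul_apply, smul_eq_mul] at h1
  exact h1

variable {D' : V' →ₗ[ℝ] Bil V'} {D2' : V' →ₗ[ℝ] V' →ₗ[ℝ] Bil V'} {D : V →ₗ[ℝ] Bil V}
  {D2 : V →ₗ[ℝ] V →ₗ[ℝ] Bil V}

private theorem ga_chr (hD : ∀ u v w, D' u v w = D (P u) (P v) (P w)) (u v : V') :
    (chr D' u v : V' → ℝ) = fun x => chr D (P u) (P v) (P x) := by
  funext x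
  rw [chr_apply, chr_apply, hD, hD, hD]

theorem curv_split (H : Split P S h' h) (hn : Nondeg e h) (e' : Basis ι' ℝ V')
    (hD : ∀ u v w, D' u v w = D (P u) (P v) (P w))
    (hD2 : ∀ t u v w, D2' t u v w = D2 (P t) (P u) (P v) (P w)) (u v w z : V') :
    curv e' h' D' D2' u v w z = curv e h D D2 (P u) (P v) (P w) (P z) := by
  unfold curv
  rw [ga_chr hD, ga_chr hD, ga_chr hD, ga_chr hD, cop_split H hn, cop_split H hn]
  rw [chr_apply, chr_apply, chr_apply, chr_apply]
  simp only [hD2]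

/-- The curvature as a bilinear form in the outer variables. -/
def gaOut (D : V →ₗ[ℝ] Bil V) (D2 : V →ₗ[ℝ] V →ₗ[ℝ] Bil V) (e : Basis ι ℝ V) (h : Bil V)
    (v w : V) : V →ₗ[ℝ] V →ₗ[ℝ] ℝ :=
  LinearMap.mk₂ ℝ (fun u z => curv e h D D2 u v w z)
    (fun v v' w => by
      simp only [curv, chr_add_left, chr_add_right, cop_add_left, cop_add_right, chr_apply,
        map_add, LinearMap.add_apply]
      ring)
    (fun c v w => by
      simp only [curv, chr_smul_left, chr_smul_right, cop_smul_left, cop_smul_right, chr_apply,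
        map_smul, LinearMap.smul_apply, smul_eq_mul]
      ring)
    (fun v w w' => by
      simp only [curv, chr_add_left, chr_add_right, cop_add_left, cop_add_right, chr_apply,
        map_add, LinearMap.add_apply]
      ring)
    (fun c v w => by
      simp only [curv, chr_smul_left, chr_smul_right, cop_smul_left, cop_smul_right, chr_apply,
        map_smul, LinearMap.smul_apply, smul_eq_mul]
      ring)

/-- The Ricci form in the middle variables. -/
def gaMid (D : V →ₗ[ℝ] Bil V) (D2 : V →ₗ[ℝ] V →ₗ[ℝ] Bil V) (e : Basis ι ℝ V) (h : Bil V) :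
    V →ₗ[ℝ] V →ₗ[ℝ] ℝ :=
  LinearMap.mk₂ ℝ (fun v w => tr e h fun u z => curv e h D D2 u v w z)
    (fun v v' w => by
      rw [← tr_add]
      refine tr_congr fun x y => ?_
      simp only [curv, chr_add_left, chr_add_right, cop_add_left, cop_add_right, chr_apply,
        map_add, LinearMap.add_apply]
      ring)
    (fun c v w => by
      rw [smul_eq_mul, ← tr_const_mul]
      refine tr_congr fun x y => ?_
      simp only [curv, chr_smul_left, chr_smul_right, cop_smul_left, cop_smul_right, chr_apply,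
        map_smul, LinearMap.smul_apply, smul_eq_mul]
      ring)
    (fun v w w' => by
      rw [← tr_add]
      refine tr_congr fun x y => ?_
      simp only [curv, chr_add_left, chr_add_right, cop_add_left, cop_add_right, chr_apply,
        map_add, LinearMap.add_apply]
      ring)
    (fun c v w => by
      rw [smul_eq_mul, ← tr_const_mul]
      refine tr_congr fun x y => ?_
      simp only [curv, chr_smul_left, chr_smul_right, cop_smul_left, cop_smul_right, chr_apply,
        map_smul, LinearMap.smul_apply, smul_eq_mul]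
      ring)

/-- The Ricci form. -/
theorem ric_split (H : Split P S h' h) (hn : Nondeg e h) (e' : Basis ι' ℝ V')
    (hD : ∀ u v w, D' u v w = D (P u) (P v) (P w))
    (hD2 : ∀ t u v w, D2' t u v w = D2 (P t) (P u) (P v) (P w)) (v w : V') :
    tr e' h' (fun u z => curv e' h' D' D2' u v w z) =
      tr e h (fun u z => curv e h D D2 u (P v) (P w) z) := by
  have h1 := tr_split H hn e' (gaOut D D2 e h (P v) (P w))
  have h2 : ∀ u z, gaOut D D2 e h (P v) (P w) u z = curv e h D D2 u (P v) (P w) z :=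
    fun u z => rfl
  simp only [h2] at h1
  rw [← h1]
  exact tr_congr fun u z => curv_split H hn e' hD hD2 u v w z

theorem scal_split (H : Split P S h' h) (hn : Nondeg e h) (e' : Basis ι' ℝ V')
    (hD : ∀ u v w, D' u v w = D (P u) (P v) (P w))
    (hD2 : ∀ t u v w, D2' t u v w = D2 (P t) (P u) (P v) (P w)) :
    scal e' h' D' D2' = scal e h D D2 := by
  unfold scal
  have h1 : ∀ u z : V', tr e' h' (fun v w => curv e' h' D' D2' u v w z) =
      tr e h (fun v w => curv e h D D2 (P u) v w (P z)) := by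
    intro u z
    let T : Bil V := LinearMap.mk₂ ℝ (fun v w => curv e h D D2 (P u) v w (P z))
      (fun v v' w => by
        simp only [curv, chr_add_left, chr_add_right, cop_add_left, cop_add_right, chr_apply,
          map_add, LinearMap.add_apply]
        ring)
      (fun c v w => by
        simp only [curv, chr_smul_left, chr_smul_right, cop_smul_left, cop_smul_right, chr_apply,
          map_smul, LinearMap.smul_apply, smul_eq_mul]
        ring)
      (fun v w w' => by
        simp only [curv, chr_add_left, chr_add_right, cop_add_left, cop_add_right, chr_apply,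
          map_add, LinearMap.add_apply]
        ring)
      (fun c v w => by
        simp only [curv, chr_smul_left, chr_smul_right, cop_smul_left, cop_smul_right, chr_apply,
          map_smul, LinearMap.smul_apply, smul_eq_mul]
        ring)
    have h2 := tr_split H hn e' T
    have h3 : ∀ v w, T v w = curv e h D D2 (P u) v w (P z) := fun v w => rfl
    simp only [h3] at h2
    rw [← h2]
    exact tr_congr fun v w => curv_split H hn e' hD hD2 u v w z
  rw [tr_congr h1]
  let T : Bil V := LinearMap.mk₂ ℝ (fun u z => tr e h fun v w => curv e h D D2 u v w z)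
    (fun v v' w => by
      rw [← tr_add]
      refine tr_congr fun x y => ?_
      simp only [curv, chr_add_left, chr_add_right, cop_add_left, cop_add_right, chr_apply,
        map_add, LinearMap.add_apply]
      ring)
    (fun c v w => by
      rw [smul_eq_mul, ← tr_const_mul]
      refine tr_congr fun x y => ?_
      simp only [curv, chr_smul_left, chr_smul_right, cop_smul_left, cop_smul_right, chr_apply,
        map_smul, LinearMap.smul_apply, smul_eq_mul]
      ring)
    (fun v w w' => by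
      rw [← tr_add]
      refine tr_congr fun x y => ?_
      simp only [curv, chr_add_left, chr_add_right, cop_add_left, cop_add_right, chr_apply,
        map_add, LinearMap.add_apply]
      ring)
    (fun c v w => by
      rw [smul_eq_mul, ← tr_const_mul]
      refine tr_congr fun x y => ?_
      simp only [curv, chr_smul_left, chr_smul_right, cop_smul_left, cop_smul_right, chr_apply,
        map_smul, LinearMap.smul_apply, smul_eq_mul]
      ring)
  exact tr_split H hn e' T

theorem lap_split (H : Split P S h' h) (hn : Nondeg e h) (e' : Basis ι' ℝ V')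
    (hD : ∀ u v w, D' u v w = D (P u) (P v) (P w)) {f1' : V' →ₗ[ℝ] ℝ} {f2' : Bil V'}
    {f1 : V →ₗ[ℝ] ℝ} {f2 : Bil V} (hf1 : ∀ u, f1' u = f1 (P u))
    (hf2 : ∀ u v, f2' u v = f2 (P u) (P v)) :
    lap e' h' D' f1' f2' = lap e h D f1 f2 := by
  unfold lap
  have h1 : ∀ u v : V', f2' u v - cop e' h' (chr D' u v) f1' =
      f2 (P u) (P v) - cop e h (chr D (P u) (P v)) f1 := by
    intro u v
    have h2 : (f1' : V' → ℝ) = fun x => f1 (P x) := funext hf1
    rw [ga_chr hD, h2, cop_split H hn, hf2]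
  rw [tr_congr h1]
  let T : Bil V := LinearMap.mk₂ ℝ (fun u v => f2 u v - cop e h (chr D u v) f1)
    (fun v v' w => by
      simp only [chr_add_left, cop_add_left, map_add, LinearMap.add_apply]
      ring)
    (fun c v w => by
      simp only [chr_smul_left, cop_smul_left, map_smul, LinearMap.smul_apply, smul_eq_mul]
      ring)
    (fun v w w' => by
      simp only [chr_add_right, cop_add_left, map_add]
      ring)
    (fun c v w => by
      simp only [chr_smul_right, cop_smul_left, map_smul, smul_eq_mul]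
      ring)
  exact tr_split H hn e' T

end Pool.Agent.Lib.MP_df705a_gt.Pin
end
end
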