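import Mathlib
import Pool.Agent.Lib.MP_df705a_gt.Pin.Defs
import Pool.Agent.Lib.MP_df705a_gt.Mg.G057
import Pool.Agent.Lib.MP_df705a_gt.Curv
import Pool.Agent.Lib.MP_df705a_gt.Twist.PointDefs

section

/-!
# Cones in the universal covering of a compact space
-/

open scoped Topology ContDiff
open Set MeasureTheory

noncomputable section

namespace Pool.Agent.Lib.MP_df705a_gt.Pin

variable {E : Type*} [NormedAddCommGroup E] [NormedSpace ℝ E]

/-- For every `x` the map `G x : E → E` is a `C¹` diffeomorphism with inverse `G' x`, which preserves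
the distance function `d`, and `G' x` moves `x` into the compact set `K`. -/
structure CoCpt (d : E → E → ℝ) (K : Set E) (G G' : E → E → E) : Prop where
  cpt : IsCompact K
  smooth : ∀ x, ContDiff ℝ 1 (G x)
  smooth' : ∀ x, ContDiff ℝ 1 (G' x)
  left : ∀ x y, G x (G' x y) = y
  right : ∀ x y, G' x (G x y) = y
  iso : ∀ x y z, d (G x y) (G x z) = d y z
  mem : ∀ x, G' x x ∈ K

/-- The cone with vertex `x`: the point at time `s` of the straight path (in the coordinates `G x`)
from `y` to `x`. -/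
def cone (G G' : E → E → E) (x : E) (s : ℝ) (y : E) : E :=
  G x ((1 - s) • G' x y + s • G' x x)

/-- The iterated cone: the point of the simplex with vertices in the list `L` and last vertex `y`,
with the weights of `L` and the weight `τ` of `y`. -/
def Psi (C : E → ℝ → E → E) : List (E × ℝ) → E → ℝ → E
  | [], y, _ => y
  | p :: L, y, τ => C p.1 (p.2 / (p.2 + (L.map Prod.snd).sum + τ)) (Psi C L y τ)

/-- The properties of the cones which do not involve the distance. -/
structure IsCone (C : E → ℝ → E → E) : Prop where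
  smooth : ∀ x, ContDiff ℝ 1 fun p : ℝ × E => C x p.1 p.2
  zero : ∀ x y, C x 0 y = y
  one : ∀ x y, C x 1 y = x

end Pool.Agent.Lib.MP_df705a_gt.Pin
end
end

section

/-!
# Ricci pinching, part A: definitions

`h` is a Riemannian metric on the vector space `E` (`Curv.IsMetric h`), given by its coefficients.
-/

open scoped Manifold ContDiff Topology
open Set Bundle Module Filter MeasureTheory

noncomputable section

namespace Pool.Agent.Lib.MP_df705a_gt.Pin.A

variable {E : Type*} [NormedAddCommGroup E] [NormedSpace ℝ E] [FiniteDimensional ℝ E]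

/-- The coordinates of a vector, as continuous linear maps. -/
def co (E : Type*) [NormedAddCommGroup E] [NormedSpace ℝ E] [FiniteDimensional ℝ E]
    (i : Fin (finrank ℝ E)) : E →L[ℝ] ℝ :=
  LinearMap.toContinuousLinearMap ((finBasis ℝ E).coord i)

/-- The metric `h` as a field of bilinear forms. -/
def bf (h : Curv.Coeff E) (x : E) : E →L[ℝ] E →L[ℝ] ℝ :=
  ∑ i, ∑ j, h x i j • (co E i).smulRight (co E j)

/-- The norm of the tangent vector `v` at `x`. -/
def nm (h : Curv.Coeff E) (x v : E) : ℝ := √ (Curv.ip h x v v)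

/-- The covector `w ↦ - (∂_v h)(v, w) + (∂_w h)(v, v) / 2`. -/
def kz (h : Curv.Coeff E) (x v : E) : E →L[ℝ] ℝ :=
  (2⁻¹ : ℝ) • ((fderiv ℝ (bf h) x).flip v).flip v - fderiv ℝ (bf h) x v v

/-- The acceleration of the geodesic through `x` with velocity `v`: `- ∑ Γ^k_{ij} v_i v_j e_k`. -/
def acc (h : Curv.Coeff E) (x v : E) : E := (bf h x).inverse (kz h x v)

/-- `γ` is a geodesic on `[0, b]` with velocity `β`. -/
def IsGeo (h : Curv.Coeff E) (γ β : ℝ → E) (b : ℝ) : Prop :=
  ∀ t ∈ Icc 0 b, HasDerivWithinAt γ (β t) (Icc 0 b) t ∧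
    HasDerivWithinAt β (acc h (γ t) (β t)) (Icc 0 b) t

/-- The velocity at the time `t` of the curve `s ↦ Ex p (s v)`. -/
def vel (Ex : E → E → E) (p v : E) (t : ℝ) : E := fderiv ℝ (Ex p) (t • v) v

/-- `Ex` is the exponential map of the metric `h`: `t ↦ Ex p (t v)` is the geodesic which starts at
`p` with velocity `v`. -/
structure IsExp (h : Curv.Coeff E) (Ex : E → E → E) : Prop where
  smooth : ContDiff ℝ ∞ fun q : E × E => Ex q.1 q.2
  zero : ∀ p, Ex p 0 = p
  vel_zero : ∀ p v, vel Ex p v 0 = v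
  geo : ∀ p v t, HasDerivAt (vel Ex p v) (acc h (Ex p (t • v)) (vel Ex p v t)) t
  flow : ∀ p v s t, Ex (Ex p (s • v)) (t • vel Ex p v s) = Ex p ((s + t) • v)

/-- `ε` is a normal radius at `p`. -/
structure Nb (h : Curv.Coeff E) (Ex : E → E → E) (p : E) (ε : ℝ) : Prop where
  pos : 0 < ε
  inj : InjOn (Ex p) {v | nm h p v < ε}
  reg : ∀ v, nm h p v < ε → (fderiv ℝ (Ex p) v).det ≠ 0

/-- `t ↦ Ex p (t v)`, `0 ≤ t ≤ 1`, is a shortest curve. -/
def Seg (h : Curv.Coeff E) (Ex : E → E → E) (p v : E) : Prop := dh h p (Ex p v) = nm h p v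

/-- The Ricci curvature in the direction `u`. -/
def rc (h : Curv.Coeff E) (x u : E) : ℝ :=
  ∑ i, ∑ j, ric h x i j * ((finBasis ℝ E).repr u i * (finBasis ℝ E).repr u j)

/-- The metric in exponential coordinates at `p`. -/
def hp (h : Curv.Coeff E) (Ex : E → E → E) (p : E) : Curv.Coeff E := fun v =>
  (LinearMap.toMatrix (finBasis ℝ E) (finBasis ℝ E) (fderiv ℝ (Ex p) v : E →ₗ[ℝ] E)).transpose *
    h (Ex p v) *
    LinearMap.toMatrix (finBasis ℝ E) (finBasis ℝ E) (fderiv ℝ (Ex p) v : E →ₗ[ℝ] E)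

/-- The volume density in exponential coordinates at `p`. -/
def dens (h : Curv.Coeff E) (Ex : E → E → E) (p v : E) : ℝ := √ (hp h Ex p v).det

theorem bf_apply (h : Curv.Coeff E) (x u v : E) : bf h x u v = Curv.ip h x u v := by
  unfold bf Curv.ip
  simp only [_root_.sum_apply, _root_.smul_apply,
    ContinuousLinearMap.smulRight_apply, smul_eq_mul]
  rfl

end Pool.Agent.Lib.MP_df705a_gt.Pin.A
end
end

section

/-!
# Ricci pinching, part A, AB1: the bilinear form of a metric
-/

open scoped Manifold ContDiff Topology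
open Set Bundle Module Filter MeasureTheory

noncomputable section

set_option linter.unusedSectionVars false

namespace Pool.Agent.Lib.MP_df705a_gt.Pin.A

variable {E : Type*} [NormedAddCommGroup E] [NormedSpace ℝ E] [FiniteDimensional ℝ E]
  {h : Curv.Coeff E}

theorem bf_symm (hm : Curv.IsMetric h) (x u v : E) : bf h x u v = bf h x v u := by
  rw [bf_apply, bf_apply]
  exact ip_symm hm x u v

theorem bf_pos (hm : Curv.IsMetric h) (x : E) {u : E} (hu : u ≠ 0) : 0 < bf h x u u := by
  rw [bf_apply]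
  exact ip_pos hm x hu

theorem bf_nonneg (hm : Curv.IsMetric h) (x u : E) : 0 ≤ bf h x u u := by
  rw [bf_apply]
  exact ip_nonneg hm x u

/-- The Cauchy-Schwarz inequality. -/
theorem bf_cs (hm : Curv.IsMetric h) (x u v : E) :
    bf h x u v ^ 2 ≤ bf h x u u * bf h x v v := by
  rw [bf_apply, bf_apply, bf_apply]
  have h1 := ip_le hm x u v
  rw [← Real.sqrt_mul (ip_nonneg hm x u)] at h1
  have h2 : 0 ≤ Curv.ip h x u u * Curv.ip h x v v :=
    mul_nonneg (ip_nonneg hm x u) (ip_nonneg hm x v)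
  calc Curv.ip h x u v ^ 2 = |Curv.ip h x u v| ^ 2 := (sq_abs _).symm
    _ ≤ √ (Curv.ip h x u u * Curv.ip h x v v) ^ 2 := pow_le_pow_left₀ (abs_nonneg _) h1 2
    _ = Curv.ip h x u u * Curv.ip h x v v := Real.sq_sqrt h2

theorem bf_smooth (hm : Curv.IsMetric h) : ContDiff ℝ ∞ (bf h) := by
  have h1 : bf h = fun x => ∑ i, ∑ j, (ContinuousLinearMap.toSpanSingleton ℝ
      ((co E i).smulRight (co E j))) (h x i j) := by
    funext x
    unfold bf
    simp only [ContinuousLinearMap.toSpanSingleton_apply]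
  rw [h1]
  exact ContDiff.sum fun i _ => ContDiff.sum fun j _ =>
    (ContinuousLinearMap.contDiff _).comp (hm.1 i j)

/-- The bilinear form `bf h x` as an isomorphism of `E` and its dual. -/
theorem bf_equiv (hm : Curv.IsMetric h) (x : E) :
    ∃ e : E ≃L[ℝ] (E →L[ℝ] ℝ), (e : E →L[ℝ] (E →L[ℝ] ℝ)) = bf h x := by
  have hinj : Function.Injective (bf h x : E →ₗ[ℝ] (E →L[ℝ] ℝ)) := by
    rw [injective_iff_map_eq_zero]
    intro u hu
    by_contra h0
    have h1 := bf_pos hm x h0
    have h2 : bf h x u = 0 := hu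
    rw [h2] at h1
    exact lt_irrefl _ h1
  have hfr : finrank ℝ E = finrank ℝ (E →L[ℝ] ℝ) := by
    rw [← Subspace.dual_finrank_eq (K := ℝ) (V := E)]
    exact (LinearMap.toContinuousLinearMap : (E →ₗ[ℝ] ℝ) ≃ₗ[ℝ] (E →L[ℝ] ℝ)).finrank_eq
  let e1 : E ≃ₗ[ℝ] (E →L[ℝ] ℝ) := LinearEquiv.ofInjectiveOfFinrankEq _ hinj hfr
  refine ⟨e1.toContinuousLinearEquiv, ?_⟩
  ext u v
  rfl

end Pool.Agent.Lib.MP_df705a_gt.Pin.A
end
end

section

/-!
# Ricci pinching, part A, AG7a: the exponential map, differential equation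
-/

open scoped Manifold ContDiff Topology
open Set Bundle Module Filter MeasureTheory

noncomputable section

set_option linter.unusedSectionVars false

namespace Pool.Agent.Lib.MP_df705a_gt.Pin.A

variable {E : Type*} [NormedAddCommGroup E] [NormedSpace ℝ E] [FiniteDimensional ℝ E]
  {h : Curv.Coeff E}

/-- The first component of the flow. -/
def exOf (Φ : E × E → E × E) (p v : E) : E := (Φ (p, v)).1

theorem hasDerivAt_ex {Ex : E → E → E} (hs : ContDiff ℝ ∞ fun q : E × E => Ex q.1 q.2) (p v : E)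
    (t : ℝ) : HasDerivAt (fun s : ℝ => Ex p (s • v)) (vel Ex p v t) t := by
  have h1 : ContDiff ℝ ∞ (Ex p) := hs.comp (contDiff_prodMk_right p)
  have h2 : HasFDerivAt (Ex p) (fderiv ℝ (Ex p) (t • v)) (t • v) :=
    (h1.differentiable (by simp) (t • v)).hasFDerivAt
  have h3 : HasDerivAt (fun s : ℝ => s • v) v t := by
    simpa using (hasDerivAt_id t).smul_const v
  exact h2.comp_hasDerivAt t h3

theorem AG7aAux.vel_eq {Ex : E → E → E} (hs : ContDiff ℝ ∞ fun q : E × E => Ex q.1 q.2) (p v : E)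
    (t : ℝ) : vel Ex p v t = fderiv ℝ (fun q : E × E => Ex q.1 q.2) (p, t • v) (0, v) := by
  have h1 : HasFDerivAt (fun q : E × E => Ex q.1 q.2)
      (fderiv ℝ (fun q : E × E => Ex q.1 q.2) (p, t • v)) (p, t • v) :=
    (hs.differentiable (by simp) (p, t • v)).hasFDerivAt
  have h2 : HasFDerivAt (Ex p) ((fderiv ℝ (fun q : E × E => Ex q.1 q.2) (p, t • v)).comp
      (ContinuousLinearMap.inr ℝ E E)) (t • v) :=
    h1.comp (t • v) (hasFDerivAt_prodMk_right p (t • v))
  unfold vel
  rw [h2.fderiv]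
  rfl

/-- `vel` is smooth. Proof: `vel Ex p v t = fderiv (Ex p) (t v) v` is the derivative of the smooth
map `q ↦ Ex q.1 q.2` at `(p, t v)` in the direction `(0, v)`. -/
theorem vel_smooth {Ex : E → E → E} (hs : ContDiff ℝ ∞ fun q : E × E => Ex q.1 q.2) :
    ContDiff ℝ ∞ fun q : E × E × ℝ => vel Ex q.1 q.2.1 q.2.2 := by
  have h1 : (fun q : E × E × ℝ => vel Ex q.1 q.2.1 q.2.2) = fun q : E × E × ℝ =>
      fderiv ℝ (fun q : E × E => Ex q.1 q.2) (q.1, q.2.2 • q.2.1) (0, q.2.1) := by
    funext q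
    exact AG7aAux.vel_eq hs q.1 q.2.1 q.2.2
  rw [h1]
  have h2 : ContDiff ℝ ∞ (fderiv ℝ (fun q : E × E => Ex q.1 q.2)) :=
    hs.fderiv_right (m := ∞) (by simp)
  have h3 : ContDiff ℝ ∞ (fun q : E × E × ℝ => ((q.1, q.2.2 • q.2.1) : E × E)) :=
    contDiff_fst.prodMk ((contDiff_snd.comp contDiff_snd).smul (contDiff_fst.comp contDiff_snd))
  have h4 : ContDiff ℝ ∞ (fun q : E × E × ℝ => ((0, q.2.1) : E × E)) :=
    contDiff_const.prodMk (contDiff_fst.comp contDiff_snd)
  exact (h2.comp h3).clm_apply h4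

theorem vel_smul (Ex : E → E → E) (p v : E) (c t : ℝ) :
    vel Ex p (c • v) t = c • vel Ex p v (t * c) := by
  unfold vel
  rw [smul_smul, map_smul]

end Pool.Agent.Lib.MP_df705a_gt.Pin.A
end
end

section

/-!
# Ricci pinching, part A, AN3a: distances from the centre of a normal ball
-/

open scoped Manifold ContDiff Topology
open Set Bundle Module Filter MeasureTheory

noncomputable section

set_option linter.unusedSectionVars false

namespace Pool.Agent.Lib.MP_df705a_gt.Pin.A

variable {E : Type*} [NormedAddCommGroup E] [NormedSpace ℝ E] [FiniteDimensional ℝ E]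
  {h : Curv.Coeff E}

variable {Ex : E → E → E}

/-- Proof: `ψ τ = ∫ s in 0..τ, g s` with the continuous function
`g s = min 1 (max 0 ((r' - s) / (r' - r)))`. -/
theorem exists_cutoff {r r' : ℝ} (hr : r < r') (h0 : 0 ≤ r) : ∃ ψ ψ' : ℝ → ℝ,
    (∀ τ, HasDerivAt ψ (ψ' τ) τ) ∧ Continuous ψ' ∧ (∀ τ, 0 ≤ ψ' τ ∧ ψ' τ ≤ 1) ∧
      (∀ τ, 0 ≤ τ → τ ≤ r → ψ τ = τ) ∧ (∀ τ, r' ≤ τ → ψ τ = ψ r') ∧ r ≤ ψ r' := by
  set g : ℝ → ℝ := fun s => min 1 (max 0 ((r' - s) / (r' - r))) with hg
  have hrr : 0 < r' - r := by linarith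
  have hgc : Continuous g := by
    rw [hg]
    fun_prop
  have hg0 : ∀ s, 0 ≤ g s := fun s => le_min zero_le_one (le_max_left _ _)
  have hg1 : ∀ s, g s ≤ 1 := fun s => min_le_left _ _
  have hgr : ∀ s, s ≤ r → g s = 1 := by
    intro s hs
    have h1 : 1 ≤ (r' - s) / (r' - r) := by
      rw [le_div_iff₀ hrr]
      linarith
    rw [hg]
    exact min_eq_left (h1.trans (le_max_right _ _))
  have hgr' : ∀ s, r' ≤ s → g s = 0 := by
    intro s hs
    have h1 : (r' - s) / (r' - r) ≤ 0 := div_nonpos_of_nonpos_of_nonneg (by linarith) hrr.le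
    rw [hg]
    show min 1 (max 0 ((r' - s) / (r' - r))) = 0
    rw [max_eq_left h1, min_eq_right zero_le_one]
  have hψr : ∀ τ, 0 ≤ τ → τ ≤ r → ∫ s in (0 : ℝ)..τ, g s = τ := by
    intro τ h1 h2
    have h3 : ∫ s in (0 : ℝ)..τ, g s = ∫ s in (0 : ℝ)..τ, (1 : ℝ) := by
      refine intervalIntegral.integral_congr fun s hs => ?_
      rw [uIcc_of_le h1] at hs
      exact hgr s (hs.2.trans h2)
    rw [h3]
    simp
  have hint : ∀ a b, IntervalIntegrable g volume a b := fun a b => hgc.intervalIntegrable a b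
  refine ⟨fun τ => ∫ s in (0 : ℝ)..τ, g s, g, fun τ => ?_, hgc, fun τ => ⟨hg0 τ, hg1 τ⟩, hψr, ?_, ?_⟩
  · exact intervalIntegral.integral_hasDerivAt_right (hint 0 τ)
      (hgc.stronglyMeasurableAtFilter _ _) hgc.continuousAt
  · intro τ hτ
    show ∫ s in (0 : ℝ)..τ, g s = ∫ s in (0 : ℝ)..r', g s
    rw [← intervalIntegral.integral_add_adjacent_intervals (hint 0 r') (hint r' τ)]
    have h3 : ∫ s in r'..τ, g s = ∫ s in r'..τ, (0 : ℝ) := by
      refine intervalIntegral.integral_congr fun s hs => ?_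
      rw [uIcc_of_le hτ] at hs
      exact hgr' s hs.1
    rw [h3]
    simp
  · show r ≤ ∫ s in (0 : ℝ)..r', g s
    rw [← intervalIntegral.integral_add_adjacent_intervals (hint 0 r) (hint r r'),
      hψr r h0 le_rfl]
    have h3 : 0 ≤ ∫ s in r..r', g s := intervalIntegral.integral_nonneg hr.le fun s _ => hg0 s
    linarith

end Pool.Agent.Lib.MP_df705a_gt.Pin.A
end
end

section

/-!
# Ricci pinching, part A, AD1a: differential inequalities of one variable
-/

open scoped ContDiff Topology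
open Set Filter MeasureTheory

noncomputable section

namespace Pool.Agent.Lib.MP_df705a_gt.Pin.A

/-- Proof: the function `g s = s ^ 2 * δ s - κ * s ^ 3 / 3` has the derivative
`2 s δ + s² δ' - κ s² ≤ 0` on `(0, S)`, so it is antitone there (`antitoneOn_of_deriv_nonpos`), and
it tends to `0` at `0+` since `δ` is bounded near `0`. Hence `g ≤ 0`. -/
theorem riccati_upper {δ δ' : ℝ → ℝ} {S κ : ℝ}
    (hd : ∀ s ∈ Ioo 0 S, HasDerivAt δ (δ' s) s)
    (hle : ∀ s ∈ Ioo 0 S, δ' s ≤ -2 * δ s / s + κ)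
    (hb : ∃ C : ℝ, ∀ᶠ s in 𝓝[>] (0 : ℝ), |δ s| ≤ C) {s : ℝ} (hs : s ∈ Ioo 0 S) :
    δ s ≤ κ * s / 3 := by
  obtain ⟨C, hC⟩ := hb
  have hs0 : 0 < s := hs.1
  obtain ⟨g, hg⟩ : ∃ g : ℝ → ℝ, g = fun x => x ^ 2 * δ x - κ * x ^ 3 / 3 := ⟨_, rfl⟩
  have hgd : ∀ x ∈ Ioo 0 S, HasDerivAt g (2 * x * δ x + x ^ 2 * δ' x - κ * x ^ 2) x := by
    intro x hx
    rw [hg]
    have h1 := ((hasDerivAt_pow 2 x).mul (hd x hx)).sub (((hasDerivAt_pow 3 x).const_mul κ).div_const 3)
    have e : 2 * x * δ x + x ^ 2 * δ' x - κ * x ^ 2 =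
        ((2 : ℕ) : ℝ) * x ^ (2 - 1) * δ x + x ^ 2 * δ' x - κ * (((3 : ℕ) : ℝ) * x ^ (3 - 1)) / 3 := by
      norm_num
      ring
    rw [e]
    exact h1
  have hanti : AntitoneOn g (Ioo 0 S) := by
    apply antitoneOn_of_deriv_nonpos (convex_Ioo 0 S)
    · intro x hx
      exact (hgd x hx).continuousAt.continuousWithinAt
    · intro x hx
      rw [interior_Ioo] at hx
      exact (hgd x hx).differentiableAt.differentiableWithinAt
    · intro x hx
      rw [interior_Ioo] at hx
      rw [(hgd x hx).deriv]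
      have h1 := hle x hx
      have hx0 : 0 < x := hx.1
      have h2 : x ^ 2 * δ' x ≤ x ^ 2 * (-2 * δ x / x + κ) :=
        mul_le_mul_of_nonneg_left h1 (by positivity)
      have h3 : x ^ 2 * (-2 * δ x / x + κ) = -2 * x * δ x + κ * x ^ 2 := by
        field_simp
      linarith
  have hlim : Tendsto g (𝓝[>] 0) (𝓝 0) := by
    have h1 : Tendsto (fun x : ℝ => x ^ 2 * C + |κ| * x ^ 3 / 3) (𝓝[>] 0) (𝓝 0) := by
      have h2 : Continuous (fun x : ℝ => x ^ 2 * C + |κ| * x ^ 3 / 3) := by fun_prop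
      have h3 := h2.tendsto 0
      simp only [ne_eq, OfNat.ofNat_ne_zero, not_false_eq_true, zero_pow, zero_mul, mul_zero,
        zero_div, add_zero] at h3
      exact h3.mono_left nhdsWithin_le_nhds
    apply squeeze_zero_norm' _ h1
    filter_upwards [hC, self_mem_nhdsWithin] with x hx hx0
    have hx0' : (0 : ℝ) < x := hx0
    rw [hg, Real.norm_eq_abs]
    calc |x ^ 2 * δ x - κ * x ^ 3 / 3| ≤ |x ^ 2 * δ x| + |κ * x ^ 3 / 3| := abs_sub _ _
      _ = x ^ 2 * |δ x| + |κ| * x ^ 3 / 3 := by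
          rw [abs_mul, abs_of_pos (show 0 < x ^ 2 by positivity), abs_div, abs_mul,
            abs_of_pos (show 0 < x ^ 3 by positivity), abs_of_pos (show (0 : ℝ) < 3 by norm_num)]
      _ ≤ x ^ 2 * C + |κ| * x ^ 3 / 3 := by
          have := mul_le_mul_of_nonneg_left hx (show 0 ≤ x ^ 2 by positivity)
          linarith
  have hgs : g s ≤ 0 := by
    apply ge_of_tendsto hlim
    filter_upwards [Ioo_mem_nhdsGT hs0] with x hx
    exact hanti ⟨hx.1, hx.2.trans hs.2⟩ hs hx.2.le
  rw [hg] at hgs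
  have h1 : s ^ 2 * δ s ≤ s ^ 2 * (κ * s / 3) := by
    have : s ^ 2 * (κ * s / 3) = κ * s ^ 3 / 3 := by ring
    rw [this]
    linarith
  exact le_of_mul_le_mul_left h1 (by positivity)

end Pool.Agent.Lib.MP_df705a_gt.Pin.A
end
end

section

/-!
# Ricci pinching, part A, AD1: differential inequalities of one variable
-/

open scoped ContDiff Topology
open Set Filter MeasureTheory

noncomputable section

namespace Pool.Agent.Lib.MP_df705a_gt.Pin.A

/-- A positive function on `(a, b)` whose logarithm has a derivative bounded from below does not tend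
to `0` at `b`. Proof: `s ↦ log (ρ s) + C s` is monotone on `(a, b)`. -/
theorem log_deriv_lower {ρ l : ℝ → ℝ} {a b C : ℝ} (hab : a < b)
    (hρ : ∀ s ∈ Ioo a b, 0 < ρ s)
    (hl : ∀ s ∈ Ioo a b, HasDerivAt (fun s => Real.log (ρ s)) (l s) s)
    (hC : ∀ s ∈ Ioo a b, -C ≤ l s) (hlim : Tendsto ρ (𝓝[<] b) (𝓝 0)) : False := by
  obtain ⟨s₀, hs₀⟩ : ∃ s₀, s₀ ∈ Ioo a b := ⟨(a + b) / 2, by constructor <;> linarith⟩
  have hmono : MonotoneOn (fun s => Real.log (ρ s) + C * s) (Ioo a b) := by
    have hd : ∀ s ∈ Ioo a b, HasDerivAt (fun s => Real.log (ρ s) + C * s) (l s + C * 1) s :=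
      fun s hs => (hl s hs).add ((hasDerivAt_id s).const_mul C)
    apply monotoneOn_of_deriv_nonneg (convex_Ioo a b)
    · intro x hx
      exact (hd x hx).continuousAt.continuousWithinAt
    · intro x hx
      rw [interior_Ioo] at hx
      exact (hd x hx).differentiableAt.differentiableWithinAt
    · intro x hx
      rw [interior_Ioo] at hx
      rw [(hd x hx).deriv]
      have := hC x hx
      linarith
  obtain ⟨K, hK⟩ : ∃ K, K = Real.log (ρ s₀) + C * s₀ - |C| * max |a| |b| := ⟨_, rfl⟩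
  have hlow : ∀ᶠ s in 𝓝[<] b, Real.exp K ≤ ρ s := by
    filter_upwards [Ioo_mem_nhdsLT hs₀.2] with s hs
    have hs' : s ∈ Ioo a b := ⟨hs₀.1.trans hs.1, hs.2⟩
    have h1 := hmono hs₀ hs' hs.1.le
    simp only at h1
    have h2 : C * s ≤ |C| * max |a| |b| := by
      calc C * s ≤ |C * s| := le_abs_self _
        _ = |C| * |s| := abs_mul _ _
        _ ≤ |C| * max |a| |b| :=
            mul_le_mul_of_nonneg_left (abs_le_max_abs_abs hs'.1.le hs'.2.le) (abs_nonneg _)
    rw [← Real.le_log_iff_exp_le (hρ s hs')]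
    linarith
  have h3 := ge_of_tendsto hlim hlow
  have h4 := Real.exp_pos K
  linarith

end Pool.Agent.Lib.MP_df705a_gt.Pin.A
end
end

section

/-! Scaling of the metric. -/

open scoped Manifold ContDiff Topology Pointwise
open Set Bundle Module Filter MeasureTheory

noncomputable section

namespace Pool.Agent.Lib.MP_df705a_gt.Pin

open Pool.Agent.Lib.MP_df705a_gt.Twist

variable {E : Type*} [NormedAddCommGroup E] [NormedSpace ℝ E] [FiniteDimensional ℝ E]

/-- The metric `a h`. -/
def sca (a : ℝ) (h : Curv.Coeff E) : Curv.Coeff E := fun x => a • h x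

variable {h : Curv.Coeff E} {a : ℝ}

theorem isMetric_sca (hh : Curv.IsMetric h) (ha : 0 < a) : Curv.IsMetric (sca a h) := by
  refine ⟨fun i j => ?_, fun x => (hh.2 x).smul ha⟩
  have h1 : (fun x => sca a h x i j) = fun x => a * h x i j := by
    funext x
    simp [sca]
  rw [h1]
  exact contDiff_const.mul (hh.1 i j)

private theorem sca_apply (x : E) (i j : Fin (finrank ℝ E)) : sca a h x i j = a * h x i j := by
  simp [sca]

private theorem ip_sca (x u v : E) : Curv.ip (sca a h) x u v = a * Curv.ip h x u v := by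
  unfold Curv.ip
  rw [Finset.mul_sum]
  refine Finset.sum_congr rfl fun i _ => ?_
  rw [Finset.mul_sum]
  refine Finset.sum_congr rfl fun j _ => ?_
  rw [sca_apply]
  ring

private theorem len_sca (ha : 0 < a) (γ : ℝ → E) : len (sca a h) γ = √ a * len h γ := by
  unfold len
  rw [← intervalIntegral.integral_const_mul]
  refine intervalIntegral.integral_congr fun t _ => ?_
  show √ (Curv.ip (sca a h) (γ t) (deriv γ t) (deriv γ t)) = _
  rw [ip_sca, Real.sqrt_mul ha.le]

/-- The lengths of curves are multiplied by `√a` (`Curv.ip` is linear in `h`). -/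
theorem dh_sca (ha : 0 < a) (x y : E) : dh (sca a h) x y = √ a * dh h x y := by
  unfold dh
  have h1 : {l : ℝ | ∃ γ : ℝ → E, IsPath γ x y ∧ l = len (sca a h) γ} =
      √ a • {l : ℝ | ∃ γ : ℝ → E, IsPath γ x y ∧ l = len h γ} := by
    ext l
    rw [Set.mem_smul_set]
    constructor
    · rintro ⟨γ, hγ, rfl⟩
      exact ⟨len h γ, ⟨γ, hγ, rfl⟩, by rw [len_sca ha, smul_eq_mul]⟩
    · rintro ⟨_, ⟨γ, hγ, rfl⟩, rfl⟩
      exact ⟨γ, hγ, by rw [len_sca ha, smul_eq_mul]⟩
  rw [h1, Real.sInf_smul_of_nonneg (Real.sqrt_nonneg a), smul_eq_mul]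

theorem proper_sca (hp : Proper h) (ha : 0 < a) : Proper (sca a h) := by
  intro x r
  have h0 : 0 < √ a := Real.sqrt_pos.mpr ha
  have h1 : {y | dh (sca a h) x y ≤ r} = {y | dh h x y ≤ r / √ a} := by
    ext y
    show dh (sca a h) x y ≤ r ↔ dh h x y ≤ r / √ a
    rw [dh_sca ha, le_div_iff₀ h0, mul_comm]
  rw [h1]
  exact hp x _

private theorem inv_sca (ha : 0 < a) (x : E) (i j : Fin (finrank ℝ E)) :
    (sca a h x)⁻¹ i j = (h x)⁻¹ i j / a := by
  have h1 : (sca a h x)⁻¹ = a⁻¹ • (h x)⁻¹ := by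
    show (a • h x)⁻¹ = a⁻¹ • (h x)⁻¹
    have : Invertible a := invertibleOfNonzero ha.ne'
    rcases eq_or_ne (h x).det 0 with h0 | h0
    · have h2 : (h x)⁻¹ = 0 := Matrix.nonsing_inv_apply_not_isUnit _ (by rw [h0]; simp)
      rw [h2, smul_zero]
      rcases isEmpty_or_nonempty (Fin (finrank ℝ E)) with hn | hn
      · exact Subsingleton.elim _ _
      · apply Matrix.nonsing_inv_apply_not_isUnit
        rw [Matrix.det_smul, h0, mul_zero]
        simp
    · apply Matrix.inv_eq_right_inv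
      rw [Matrix.smul_mul, Matrix.mul_smul, Matrix.mul_nonsing_inv _ (isUnit_iff_ne_zero.mpr h0),
        smul_smul, mul_inv_cancel₀ ha.ne', one_smul]
  rw [h1, Matrix.smul_apply, smul_eq_mul]
  field_simp

private theorem pd_sca (i j k : Fin (finrank ℝ E)) (x : E) :
    Curv.pd i (fun y => sca a h y j k) x = a * Curv.pd i (fun y => h y j k) x := by
  unfold Curv.pd
  have h1 : (fun y => sca a h y j k) = a • fun y => h y j k := by
    funext y
    rw [sca_apply]
    rfl
  rw [h1, fderiv_const_smul_field]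
  rfl

private theorem christoffel_sca (i j k : Fin (finrank ℝ E)) (x : E) :
    Curv.christoffel (sca a h) i j k x = a * Curv.christoffel h i j k x := by
  unfold Curv.christoffel
  rw [pd_sca, pd_sca, pd_sca]
  ring

/-- The inverse is divided by `a`, the Christoffel symbols of the first kind are multiplied by `a`,
so `covHess` does not change. -/
theorem lapC_sca (ha : 0 < a) (u : E → ℝ) (x : E) : lapC (sca a h) u x = lapC h u x / a := by
  have h1 : Curv.covHess (sca a h) u x = Curv.covHess h u x := by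
    ext i j
    unfold Curv.covHess
    congr 1
    refine Finset.sum_congr rfl fun p _ => Finset.sum_congr rfl fun q _ => ?_
    rw [inv_sca ha, christoffel_sca]
    field_simp
  unfold lapC
  rw [h1, Finset.sum_div]
  refine Finset.sum_congr rfl fun i _ => ?_
  rw [Finset.sum_div]
  refine Finset.sum_congr rfl fun j _ => ?_
  rw [inv_sca ha]
  ring

theorem gradC_sca (ha : 0 < a) (u v : E → ℝ) (x : E) :
    gradC (sca a h) u v x = gradC h u v x / a := by
  unfold gradC
  rw [Finset.sum_div]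
  refine Finset.sum_congr rfl fun i _ => ?_
  rw [Finset.sum_div]
  refine Finset.sum_congr rfl fun j _ => ?_
  rw [inv_sca ha]
  ring

private theorem riemann_sca (ha : 0 < a) (i j k l : Fin (finrank ℝ E)) (x : E) :
    Curv.riemann (sca a h) i j k l x = a * Curv.riemann h i j k l x := by
  unfold Curv.riemann
  have h1 : ∀ i j k l : Fin (finrank ℝ E), Curv.pd i (Curv.christoffel (sca a h) j k l) x =
      a * Curv.pd i (Curv.christoffel h j k l) x := by
    intro i j k l
    unfold Curv.pd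
    have h2 : Curv.christoffel (sca a h) j k l = a • Curv.christoffel h j k l := by
      funext y
      rw [christoffel_sca]
      rfl
    rw [h2, fderiv_const_smul_field]
    rfl
  rw [h1, h1]
  have h3 : ∑ p, ∑ q, (sca a h x)⁻¹ p q *
      (Curv.christoffel (sca a h) i k p x * Curv.christoffel (sca a h) j l q x -
        Curv.christoffel (sca a h) j k p x * Curv.christoffel (sca a h) i l q x) =
      a * ∑ p, ∑ q, (h x)⁻¹ p q *
      (Curv.christoffel h i k p x * Curv.christoffel h j l q x -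
        Curv.christoffel h j k p x * Curv.christoffel h i l q x) := by
    rw [Finset.mul_sum]
    refine Finset.sum_congr rfl fun p _ => ?_
    rw [Finset.mul_sum]
    refine Finset.sum_congr rfl fun q _ => ?_
    rw [inv_sca ha, christoffel_sca, christoffel_sca, christoffel_sca, christoffel_sca]
    field_simp
  rw [h3]
  ring

/-- `riemann (a h) = a riemann h`. -/
theorem ric_sca (ha : 0 < a) (x : E) : ric (sca a h) x = ric h x := by
  ext j k
  unfold ric
  refine Finset.sum_congr rfl fun i _ => Finset.sum_congr rfl fun l _ => ?_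
  rw [inv_sca ha, riemann_sca ha]
  field_simp

theorem scal_sca (ha : 0 < a) (x : E) : Curv.scal (sca a h) x = Curv.scal h x / a := by
  unfold Curv.scal
  rw [Finset.sum_div]
  refine Finset.sum_congr rfl fun i _ => ?_
  rw [Finset.sum_div]
  refine Finset.sum_congr rfl fun j _ => ?_
  rw [Finset.sum_div]
  refine Finset.sum_congr rfl fun k _ => ?_
  rw [Finset.sum_div]
  refine Finset.sum_congr rfl fun l _ => ?_
  rw [inv_sca ha, inv_sca ha, riemann_sca ha]
  field_simp

theorem ricGeAt_sca (ha : 0 < a) {κ : ℝ} {x : E} :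
    RicGeAt (sca a h) κ x ↔ RicGeAt h (κ * a) x := by
  unfold RicGeAt
  rw [ric_sca ha]
  have h1 : κ • sca a h x = (κ * a) • h x := by
    show κ • (a • h x) = (κ * a) • h x
    rw [smul_smul]
  rw [h1]

end Pool.Agent.Lib.MP_df705a_gt.Pin
end
end
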