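import Pool.Agent.Lib.MP_df705a_gt.Pin.Defs
import Pool.Agent.Lib.MP_df705a_gt.Mg.G055
import Pool.Agent.Lib.MP_df705a_gt.Mg.G057
import Pool.Agent.Lib.MP_df705a_gt.Mg.G066

section

/-!
# TASK GB: the product of a metric with a flat metric, in linear coordinates
-/

open scoped Manifold ContDiff Topology
open Set Bundle Module Filter MeasureTheory

noncomputable section

namespace Pool.Agent.Lib.MP_df705a_gt.Pin

open Pool.Agent.Lib.MP_df705a_gt.Twist Pool.Agent.Lib.MP_df705a_gt.Twist.Alg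

variable {E' : Type*} [NormedAddCommGroup E'] [NormedSpace ℝ E'] [FiniteDimensional ℝ E']
  {E : Type*} [NormedAddCommGroup E] [NormedSpace ℝ E] [FiniteDimensional ℝ E]
  {F : Type*} [NormedAddCommGroup F] [InnerProductSpace ℝ F] [FiniteDimensional ℝ F]

/-- The metric `h(P z)(P u, P v) + ⟨S u, S v⟩` on `E'`. -/
def lin (h : Curv.Coeff E) (P : E' →L[ℝ] E) (S : E' →L[ℝ] F) : Curv.Coeff E' := fun z i j =>
  fB h (P z) (P (finBasis ℝ E' i)) (P (finBasis ℝ E' j)) +
    inner ℝ (S (finBasis ℝ E' i)) (S (finBasis ℝ E' j))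

/-- The Ricci form of `h` at `x`. -/
def ricB (h : Curv.Coeff E) (x : E) : Bil E := mkB (finBasis ℝ E) fun i j => ric h x i j

variable {h : Curv.Coeff E} {P : E' →L[ℝ] E} {S : E' →L[ℝ] F} {z : E'}

private theorem gb_contDiffAt (hh : ∀ i j, ContDiffAt ℝ ∞ (fun x => h x i j) (P z))
    (v w : E) : ContDiffAt ℝ ∞ (fun x => fB h x v w) (P z) := by
  simp only [mkB_apply]
  exact ContDiffAt.sum fun a _ => ContDiffAt.sum fun b _ =>
    ContDiffAt.mul (hh a b) contDiffAt_const

theorem fB_lin (h : Curv.Coeff E) (P : E' →L[ℝ] E) (S : E' →L[ℝ] F) (z u v : E') :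
    fB (lin h P S) z u v = fB h (P z) (P u) (P v) + inner ℝ (S u) (S v) := by
  have h1 : fB (lin h P S) z = (fB h (P z)).compl₁₂ (P : E' →ₗ[ℝ] E) (P : E' →ₗ[ℝ] E) +
      (innerₗ F).compl₁₂ (S : E' →ₗ[ℝ] F) (S : E' →ₗ[ℝ] F) := by
    refine (finBasis ℝ E').ext fun i => (finBasis ℝ E').ext fun j => ?_
    rw [mkB_basis]
    rfl
  rw [h1]
  rfl

theorem contDiffAt_lin (hh : ∀ i j, ContDiffAt ℝ ∞ (fun x => h x i j) (P z))
    (S : E' →L[ℝ] F) (i j : Fin (finrank ℝ E')) :
    ContDiffAt ℝ ∞ (fun z => lin h P S z i j) z := by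
  unfold lin
  simp only [mkB_apply]
  refine ContDiffAt.add ?_ contDiffAt_const
  exact ContDiffAt.sum fun a _ => ContDiffAt.sum fun b _ =>
    ContDiffAt.mul ((hh a b).comp z P.contDiff.contDiffAt) contDiffAt_const

/-- (The chain rule for the linear map `P`; compare `PJ.Gf_fderiv` in Perm/PullJets.lean.) -/
theorem fD_lin (hh : ∀ i j, ContDiffAt ℝ ∞ (fun x => h x i j) (P z)) (S : E' →L[ℝ] F)
    (u v w : E') : fD (lin h P S) z u v w = fD h (P z) (P u) (P v) (P w) := by
  rw [← form_fderiv (finBasis ℝ E') (M := fun i j y => lin h P S y i j)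
    (fun i j => contDiffAt_lin hh S i j), ← form_fderiv (finBasis ℝ E) (M := fun i j y => h y i j)
    hh]
  have h1 : (fun y => mkB (finBasis ℝ E') (fun i j => lin h P S y i j) v w) =
      fun y => (fun x => fB h x (P v) (P w)) (P y) + inner ℝ (S v) (S w) :=
    funext fun y => fB_lin h P S y v w
  have h2 := ((gb_contDiffAt hh (P v) (P w)).differentiableAt (by simp)).hasFDerivAt.comp z
    P.hasFDerivAt
  rw [h1]
  have h3 := (h2.add_const (inner ℝ (S v) (S w) : ℝ)).fderiv
  have h4 : (fun y => (fun x => fB h x (P v) (P w)) (P y) + inner ℝ (S v) (S w)) =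
      fun y => ((fun x => fB h x (P v) (P w)) ∘ ⇑P) y + inner ℝ (S v) (S w) := rfl
  rw [h4, h3]
  rfl

theorem fD2_lin (hh : ∀ i j, ContDiffAt ℝ ∞ (fun x => h x i j) (P z)) (S : E' →L[ℝ] F)
    (t u v w : E') : fD2 (lin h P S) z t u v w = fD2 h (P z) (P t) (P u) (P v) (P w) := by
  rw [← form_fderiv2 (finBasis ℝ E') (M := fun i j y => lin h P S y i j)
    (fun i j => contDiffAt_lin hh S i j), ← form_fderiv2 (finBasis ℝ E) (M := fun i j y => h y i j)
    hh]
  have h1 : (fun y => mkB (finBasis ℝ E') (fun i j => lin h P S y i j) v w) =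
      fun y => (fun x => fB h x (P v) (P w)) (P y) + inner ℝ (S v) (S w) :=
    funext fun y => fB_lin h P S y v w
  rw [h1]
  have hu := gb_contDiffAt hh (P v) (P w)
  have hu2 : ContDiffAt ℝ 2 (fun x => fB h x (P v) (P w)) (P z) := hu.of_le two_le_inf
  have hev : ∀ᶠ y in 𝓝 z, ContDiffAt ℝ 2 (fun x => fB h x (P v) (P w)) (P y) := by
    have h1 : ∀ᶠ x in 𝓝 (P z), ContDiffAt ℝ 2 (fun x => fB h x (P v) (P w)) x :=
      hu2.eventually (by simp)
    exact P.continuous.continuousAt.eventually h1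
  have h3 : fderiv ℝ (fun y => (fun x => fB h x (P v) (P w)) (P y) + inner ℝ (S v) (S w)) =ᶠ[𝓝 z]
      fun y => (fderiv ℝ (fun x => fB h x (P v) (P w)) (P y)).comp P := by
    filter_upwards [hev] with y hy
    have h2 := (hy.differentiableAt (by simp)).hasFDerivAt.comp y P.hasFDerivAt
    exact (h2.add_const (inner ℝ (S v) (S w) : ℝ)).fderiv
  rw [h3.fderiv_eq]
  have h4 : HasFDerivAt (fun y => (fderiv ℝ (fun x => fB h x (P v) (P w)) (P y)).comp P)
      (((ContinuousLinearMap.compL ℝ E' E ℝ).flip P).comp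
        ((fderiv ℝ (fderiv ℝ (fun x => fB h x (P v) (P w))) (P z)).comp P)) z := by
    have h5 : HasFDerivAt (fun y => fderiv ℝ (fun x => fB h x (P v) (P w)) (P y))
        ((fderiv ℝ (fderiv ℝ (fun x => fB h x (P v) (P w))) (P z)).comp P) z :=
      (differentiableAt_fderiv hu).hasFDerivAt.comp z P.hasFDerivAt
    exact ((ContinuousLinearMap.compL ℝ E' E ℝ).flip P).hasFDerivAt.comp z h5
  rw [h4.fderiv]
  rfl

/-- Positive definite at `z` if `h` is so at `P z` and `(P, S)` is injective. -/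
theorem posDef_lin (hpos : (h (P z)).PosDef)
    (hb : Function.Bijective fun v : E' => (P v, S v)) : (lin h P S z).PosDef := by
  have hs : ∀ u v : E, fB h (P z) u v = fB h (P z) v u := by
    refine mkB_symm (finBasis ℝ E) fun i j => ?_
    have h1 := hpos.isHermitian.apply j i
    simpa using h1
  have hp : ∀ w : E, w ≠ 0 → 0 < fB h (P z) w w := by
    intro w hw
    have hne : (fun i => (finBasis ℝ E).repr w i) ≠ 0 := by
      intro h0
      refine hw ((finBasis ℝ E).repr.map_eq_zero_iff.1 ?_)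
      ext i
      exact congrFun h0 i
    have h1 := hpos.dotProduct_mulVec_pos hne
    rw [mkB_apply]
    have h2 : star (fun i => (finBasis ℝ E).repr w i) ⬝ᵥ
        ((h (P z)).mulVec fun j => (finBasis ℝ E).repr w j) =
        ∑ i, ∑ j, h (P z) i j * ((finBasis ℝ E).repr w i * (finBasis ℝ E).repr w j) := by
      unfold dotProduct Matrix.mulVec dotProduct
      refine Finset.sum_congr rfl fun i _ => ?_
      rw [Finset.mul_sum]
      refine Finset.sum_congr rfl fun j _ => ?_
      simp only [Pi.star_apply, star_trivial]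
      ring
    rw [← h2]
    exact h1
  refine Matrix.PosDef.of_dotProduct_mulVec_pos ?_ fun c hc => ?_
  · ext i j
    rw [Matrix.conjTranspose_apply, star_trivial]
    unfold lin
    rw [hs, real_inner_comm]
  · have hv : ∑ i, c i • finBasis ℝ E' i ≠ 0 := by
      intro h0
      apply hc
      funext i
      exact (Fintype.linearIndependent_iff.mp (finBasis ℝ E').linearIndependent) c h0 i
    set v := ∑ i, c i • finBasis ℝ E' i with hvdef
    have hr : ∀ i, (finBasis ℝ E').repr v i = c i := by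
      intro i
      rw [hvdef, Basis.repr_sum_self]
    have h1 : star c ⬝ᵥ ((lin h P S z).mulVec c) = fB (lin h P S) z v v := by
      rw [mkB_apply]
      unfold dotProduct Matrix.mulVec dotProduct
      refine Finset.sum_congr rfl fun i _ => ?_
      rw [Finset.mul_sum]
      refine Finset.sum_congr rfl fun j _ => ?_
      rw [hr, hr]
      simp only [Pi.star_apply, star_trivial]
      ring
    rw [h1, fB_lin]
    rcases eq_or_ne (P v) 0 with h0 | h0
    · have h2 : S v ≠ 0 := by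
        intro h2
        apply hv
        apply hb.injective
        show (P v, S v) = (P 0, S 0)
        rw [h0, h2, map_zero, map_zero]
      rw [h0, map_zero, zero_add]
      exact real_inner_self_pos.mpr h2
    · have h2 : (0 : ℝ) ≤ inner ℝ (S v) (S v) := real_inner_self_nonneg
      have h3 := hp _ h0
      linarith

end Pool.Agent.Lib.MP_df705a_gt.Pin
end
end

section

/-!
# TASK LC1: the Riemannian distance is a pseudometric
-/

open scoped Manifold ContDiff Topology
open Set Bundle Module Filter MeasureTheory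

noncomputable section

namespace Pool.Agent.Lib.MP_df705a_gt.Pin

variable {E : Type*} [NormedAddCommGroup E] [NormedSpace ℝ E] [FiniteDimensional ℝ E]
  {h : Curv.Coeff E}

theorem LC1_len_nonneg (h : Curv.Coeff E) (γ : ℝ → E) : 0 ≤ len h γ := by
  rw [len_eq]
  exact intervalIntegral.integral_nonneg zero_le_one fun t _ => spd_nonneg h γ t

theorem LC1_dh_le_len (h : Curv.Coeff E) {γ : ℝ → E} {x y : E} (hγ : IsPath γ x y) :
    dh h x y ≤ len h γ := by
  refine csInf_le ⟨0, ?_⟩ ⟨γ, hγ, rfl⟩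
  rintro l ⟨γ', -, rfl⟩
  exact LC1_len_nonneg h γ'

omit [FiniteDimensional ℝ E] in
theorem LC1_isPath {γ : ℝ → E} {x y : E} (hγ : PW γ 0 1) (h0 : γ 0 = x) (h1 : γ 1 = y) :
    IsPath γ x y := ⟨h0, h1, hγ.cont, hγ.diff, hγ.bdd⟩

omit [FiniteDimensional ℝ E] in
theorem LC1_segment (x y : E) : IsPath (fun t => x + t • (y - x)) x y :=
  LC1_isPath (PW.segment x (y - x) 0 1) (by simp) (by simp)

theorem LC1_ip_zero (h : Curv.Coeff E) (x : E) : Curv.ip h x (0 : E) 0 = 0 := by
  have := ip_smul_smul h x 0 (0 : E)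
  rw [zero_smul] at this
  rw [this]
  simp

/-- The set of lengths is bounded below by `0` and nonempty (segment). -/
theorem dh_nonneg (h : Curv.Coeff E) (x y : E) : 0 ≤ dh h x y := by
  refine Real.sInf_nonneg ?_
  rintro l ⟨γ, -, rfl⟩
  exact LC1_len_nonneg h γ

/-- (`csInf_lt_iff` and the segment as a path.) -/
theorem exists_path (h : Curv.Coeff E) (x y : E) {ε : ℝ} (hε : 0 < ε) :
    ∃ γ : ℝ → E, IsPath γ x y ∧ len h γ < dh h x y + ε := by
  have hne : {l : ℝ | ∃ γ : ℝ → E, IsPath γ x y ∧ l = len h γ}.Nonempty :=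
    ⟨_, _, LC1_segment x y, rfl⟩
  have hlt : sInf {l : ℝ | ∃ γ : ℝ → E, IsPath γ x y ∧ l = len h γ} < dh h x y + ε :=
    lt_add_of_pos_right _ hε
  obtain ⟨l, ⟨γ, hγ, rfl⟩, hl⟩ := exists_lt_of_csInf_lt hne hlt
  exact ⟨γ, hγ, hl⟩

theorem LC1_self (h : Curv.Coeff E) (x : E) : dh h x x = 0 := by
  refine le_antisymm ?_ (dh_nonneg h x x)
  refine (LC1_dh_le_len h (LC1_segment x x)).trans ?_
  rw [len_eq]
  have e : ∀ t, spd h (fun t : ℝ => x + t • (x - x)) t = 0 := by
    intro t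
    rw [spd_segment, sub_self, LC1_ip_zero, Real.sqrt_zero]
  simp only [e]
  simp

/-- The distance of the end points of a curve is at most its length: reparametrize affinely to
`[0, 1]` if `a < b` (`PW.affine` with `m = b - a`, `q = a`); if `a = b` use the constant path. -/
theorem PW.dh_le {γ : ℝ → E} {a b : ℝ} (hγ : PW γ a b) (hab : a ≤ b) :
    dh h (γ a) (γ b) ≤ ∫ t in a..b, spd h γ t := by
  rcases hab.lt_or_eq with h1 | h1
  · have hm : 0 < b - a := sub_pos.2 h1
    have e0 : (b - a) * 0 + a = a := by ring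
    have e1 : (b - a) * 1 + a = b := by ring
    obtain ⟨p1, -, p3⟩ := PW.affine (h := h) (a := 0) (b := 1) (q := a) hm (γ := γ)
      (by rw [e0, e1]; exact hγ)
    rw [e0, e1] at p3
    rw [← p3, ← len_eq]
    exact LC1_dh_le_len h (LC1_isPath p1 (by rw [e0]) (by rw [e1]))
  · subst h1
    rw [LC1_self, intervalIntegral.integral_same]

theorem dh_self (h : Curv.Coeff E) (x : E) : dh h x x = 0 := by
  exact LC1_self h x

theorem LC1_comm_le (h : Curv.Coeff E) (x y : E) : dh h x y ≤ dh h y x := by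
  refine le_of_forall_pos_le_add fun ε hε => ?_
  obtain ⟨γ, hγ, hl⟩ := exists_path h y x hε
  obtain ⟨p1, p2⟩ := PW.reverse (h := h) hγ.pw
  rw [← len_eq, ← len_eq] at p2
  refine le_trans ?_ hl.le
  rw [← p2]
  refine LC1_dh_le_len h (LC1_isPath p1 ?_ ?_)
  · rw [zero_add, sub_zero]
    exact hγ.one
  · rw [zero_add, sub_self]
    exact hγ.zero

theorem dh_comm (h : Curv.Coeff E) (x y : E) : dh h x y = dh h y x := by
  exact le_antisymm (LC1_comm_le h x y) (LC1_comm_le h y x)

theorem LC1_congr {u v : ℝ → ℝ} {a b : ℝ} (hab : a ≤ b) (huv : ∀ t ∈ Ioo a b, u t = v t) :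
    ∫ t in a..b, u t = ∫ t in a..b, v t := by
  rw [intervalIntegral.integral_of_le hab, intervalIntegral.integral_of_le hab,
    integral_Ioc_eq_integral_Ioo, integral_Ioc_eq_integral_Ioo]
  exact setIntegral_congr_fun measurableSet_Ioo huv

/-- Glue two almost shortest paths. -/
theorem dh_triangle (hh : Curv.IsMetric h) (x y z : E) : dh h x z ≤ dh h x y + dh h y z := by
  refine le_of_forall_pos_le_add fun ε hε => ?_
  obtain ⟨γ₁, hγ₁, hl₁⟩ := exists_path h x y (half_pos hε)
  obtain ⟨γ₂, hγ₂, hl₂⟩ := exists_path h y z (half_pos hε)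
  have e0 : (1 : ℝ) * 1 + (-1) = 0 := by ring
  have e1 : (1 : ℝ) * 2 + (-1) = 1 := by ring
  obtain ⟨q1, -, q3⟩ := PW.affine (h := h) (a := 1) (b := 2) (q := -1) one_pos (γ := γ₂)
    (by rw [e0, e1]; exact hγ₂.pw)
  rw [e0, e1] at q3
  obtain ⟨r1, r2, r3⟩ := PW.glue (h := h) zero_le_one one_le_two hγ₁.pw q1
    (by rw [e0]; exact hγ₁.one.trans hγ₂.zero.symm)
  have hd := r1.dh_le (h := h) zero_le_two
  have h12 : ¬ (2 : ℝ) ≤ 1 := by norm_num
  simp only [zero_le_one, if_true, if_neg h12] at hd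
  rw [e1, hγ₁.zero, hγ₂.one] at hd
  refine hd.trans ?_
  have i1 := (r1.mono le_rfl one_le_two).intervalIntegrable hh zero_le_one
  have i2 := (r1.mono zero_le_one le_rfl).intervalIntegrable hh one_le_two
  rw [← intervalIntegral.integral_add_adjacent_intervals i1 i2, LC1_congr zero_le_one r2,
    LC1_congr one_le_two r3, q3, ← len_eq, ← len_eq]
  linarith

/-- The distance along a segment. -/
theorem dh_le_segment (hh : Curv.IsMetric h) {x y : E} {b : ℝ}
    (hb : ∀ z ∈ segment ℝ x y, √ (Curv.ip h z (y - x) (y - x)) ≤ b * ‖y - x‖) :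
    dh h x y ≤ b * ‖y - x‖ := by
  refine (LC1_dh_le_len h (LC1_segment x y)).trans ?_
  rw [len_eq]
  have h1 : ‖∫ t in (0 : ℝ)..1, spd h (fun t : ℝ => x + t • (y - x)) t‖ ≤
      b * ‖y - x‖ * |1 - 0| := by
    refine intervalIntegral.norm_integral_le_of_norm_le_const fun t ht => ?_
    rw [uIoc_of_le zero_le_one] at ht
    rw [spd_segment, Real.norm_eq_abs, abs_of_nonneg (Real.sqrt_nonneg _)]
    refine hb _ ?_
    rw [segment_eq_image']
    exact ⟨t, ⟨ht.1.le, ht.2⟩, rfl⟩
  rw [sub_zero, abs_one, mul_one, Real.norm_eq_abs] at h1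
  exact (le_abs_self _).trans h1

/-- Intermediate points: with `PW.mono`, for a point `γ s` of a path. -/
theorem IsPath.dh_add_le (hh : Curv.IsMetric h) {γ : ℝ → E} {x y : E} (hγ : IsPath γ x y) {s : ℝ}
    (hs : s ∈ Icc (0 : ℝ) 1) : dh h x (γ s) + dh h (γ s) y ≤ len h γ := by
  have p1 := hγ.pw.mono le_rfl hs.2
  have p2 := hγ.pw.mono hs.1 le_rfl
  have d1 := p1.dh_le (h := h) hs.1
  have d2 := p2.dh_le (h := h) hs.2
  rw [hγ.zero] at d1
  rw [hγ.one] at d2
  rw [len_eq, ← intervalIntegral.integral_add_adjacent_intervals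
    (p1.intervalIntegrable hh hs.1) (p2.intervalIntegrable hh hs.2)]
  exact add_le_add d1 d2

end Pool.Agent.Lib.MP_df705a_gt.Pin
end
end

section

/-!
# TASK LC3: Lipschitz functions and isometries
-/

open scoped Manifold ContDiff Topology
open Set Bundle Module Filter MeasureTheory

noncomputable section

namespace Pool.Agent.Lib.MP_df705a_gt.Pin

variable {E : Type*} [NormedAddCommGroup E] [NormedSpace ℝ E] [FiniteDimensional ℝ E]
  {h : Curv.Coeff E}

/-- A `C¹` function with gradient of length at most `L` is `L`-Lipschitz. -/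
theorem abs_sub_le_dh (hh : Curv.IsMetric h) {f : E → ℝ} (hf : ContDiff ℝ 1 f) {L : ℝ}
    (hL : 0 ≤ L) (hfL : ∀ x v : E, |fderiv ℝ f x v| ≤ L * √ (Curv.ip h x v v)) (x y : E) :
    |f x - f y| ≤ L * dh h x y := by
  have key : ∀ ε : ℝ, 0 < ε → |f x - f y| ≤ L * (dh h x y + ε) := by
    intro ε hε
    obtain ⟨γ, hγ, hl⟩ := exists_path h x y hε
    have h1 := hγ.pw.abs_sub_le hh zero_le_one hf hL fun t _ v => hfL (γ t) v
    rw [hγ.zero, hγ.one, ← len_eq, abs_sub_comm] at h1
    exact h1.trans (mul_le_mul_of_nonneg_left hl.le hL)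
  refine le_of_forall_pos_le_add fun ε hε => ?_
  have h2 := key (ε / (L + 1)) (by positivity)
  have h3 : L * (ε / (L + 1)) ≤ ε := by
    rw [mul_div_assoc', div_le_iff₀ (by positivity)]
    nlinarith
  rw [mul_add] at h2
  linarith

/-- A `C¹` map which preserves the metric does not increase distances. -/
theorem dh_map_le (hh : Curv.IsMetric h) {φ : E → E} (hφ : ContDiff ℝ 1 φ)
    (hi : ∀ x v : E, Curv.ip h (φ x) (fderiv ℝ φ x v) (fderiv ℝ φ x v) = Curv.ip h x v v)
    (x y : E) : dh h (φ x) (φ y) ≤ dh h x y := by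
  refine le_of_forall_pos_le_add fun ε hε => ?_
  obtain ⟨γ, hγ, hl⟩ := exists_path h x y hε
  obtain ⟨hpw, s, hs, hs'⟩ := hγ.pw.comp hφ
  have hd := hpw.dh_le (h := h) zero_le_one
  have e0 : (φ ∘ γ) 0 = φ x := congrArg φ hγ.zero
  have e1 : (φ ∘ γ) 1 = φ y := congrArg φ hγ.one
  rw [e0, e1] at hd
  refine hd.trans (le_trans ?_ hl.le)
  rw [len_eq]
  refine LB1_integral_mono zero_le_one (hpw.intervalIntegrable hh zero_le_one)
    (hγ.pw.intervalIntegrable hh zero_le_one) hs fun t ht => ?_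
  unfold spd
  rw [(hs' t ht).2]
  have := hi (γ t) (deriv γ t)
  change √ (Curv.ip h (φ (γ t)) _ _) ≤ _
  rw [this]

end Pool.Agent.Lib.MP_df705a_gt.Pin
end
end

section

/-!
# TASK LC2: comparison of the Riemannian distance with the norm
-/

open scoped Manifold ContDiff Topology
open Set Bundle Module Filter MeasureTheory

noncomputable section

namespace Pool.Agent.Lib.MP_df705a_gt.Pin

variable {E : Type*} [NormedAddCommGroup E] [NormedSpace ℝ E] [FiniteDimensional ℝ E]
  {h : Curv.Coeff E}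

theorem LC2_sub {x y : E} {a r : ℝ} (hh : Curv.IsMetric h) (ha : 0 ≤ a)
    (hK : ∀ z ∈ Metric.closedBall x r, ∀ v : E, a * ‖v‖ ≤ √ (Curv.ip h z v v))
    {γ : ℝ → E} (hγ : IsPath γ x y) {T : ℝ} (hT : T ∈ Icc (0 : ℝ) 1)
    (hr : ∀ t ∈ Ioo 0 T, ‖γ t - x‖ ≤ r) : a * ‖γ T - x‖ ≤ len h γ := by
  have p1 := hγ.pw.mono le_rfl hT.2
  have p2 := hγ.pw.mono hT.1 le_rfl
  have h1 := p1.norm_sub_le hT.1
  rw [hγ.zero] at h1
  have h2 : a * ‖γ T - x‖ ≤ ∫ t in (0 : ℝ)..T, a * ‖deriv γ t‖ := by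
    rw [intervalIntegral.integral_const_mul]
    exact mul_le_mul_of_nonneg_left h1 ha
  have h3 : ∫ t in (0 : ℝ)..T, a * ‖deriv γ t‖ ≤ ∫ t in (0 : ℝ)..T, spd h γ t := by
    refine LB1_integral_mono hT.1 ((p1.integrable_norm hT.1).const_mul a)
      (p1.intervalIntegrable hh hT.1) finite_empty fun t ht => ?_
    refine hK (γ t) ?_ (deriv γ t)
    rw [mem_closedBall_iff_norm]
    exact hr t ht.1
  rw [len_eq, ← intervalIntegral.integral_add_adjacent_intervals
    (p1.intervalIntegrable hh hT.1) (p2.intervalIntegrable hh hT.2)]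
  have h4 : 0 ≤ ∫ t in T..1, spd h γ t :=
    intervalIntegral.integral_nonneg hT.2 fun t _ => spd_nonneg h γ t
  linarith

/-- If `a ‖v‖ ≤ |v|_h` at the points of the closed ball of radius `r` about `x`, then
`a * min ‖y - x‖ r ≤ dh h x y` for every `y`. Proof: let `γ` be a path from `x` to `y`. If
`‖γ t - x‖ ≤ r` for all `t ∈ [0, 1]`, then `a ‖y - x‖ ≤ a ∫ ‖γ'‖ ≤ len γ` (`PW.norm_sub_le`). Otherwise
let `T` be the infimum of the (closed, nonempty) set of `t ∈ [0, 1]` with `‖γ t - x‖ ≥ r` (intermediate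
value; `‖γ T - x‖ = r`, and `‖γ t - x‖ ≤ r` for `t ≤ T`); then `a r = a ‖γ T - x‖ ≤ ∫_0^T spd ≤ len γ`.
Take the infimum over `γ`. -/
theorem le_dh (hh : Curv.IsMetric h) {x y : E} {a r : ℝ} (ha : 0 ≤ a) (hr : 0 ≤ r)
    (hK : ∀ z ∈ Metric.closedBall x r, ∀ v : E, a * ‖v‖ ≤ √ (Curv.ip h z v v)) :
    a * min ‖y - x‖ r ≤ dh h x y := by
  refine le_csInf ⟨_, _, LC1_segment x y, rfl⟩ ?_
  rintro l ⟨γ, hγ, rfl⟩
  by_cases hc : ∀ t ∈ Icc (0 : ℝ) 1, ‖γ t - x‖ < r
  · have h1 := LC2_sub hh ha hK hγ (right_mem_Icc.2 zero_le_one)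
      fun t ht => (hc t (Ioo_subset_Icc_self ht)).le
    rw [hγ.one] at h1
    exact (mul_le_mul_of_nonneg_left (min_le_left _ _) ha).trans h1
  · push Not at hc
    obtain ⟨t₀, ht₀, ht₀'⟩ := hc
    have hcont : ContinuousOn (fun t => ‖γ t - x‖) (Icc 0 1) :=
      (hγ.cont.sub continuousOn_const).norm
    have hcl : IsClosed (Icc (0 : ℝ) 1 ∩ (fun t => ‖γ t - x‖) ⁻¹' Ici r) :=
      hcont.preimage_isClosed_of_isClosed isClosed_Icc isClosed_Ici
    have hne : (Icc (0 : ℝ) 1 ∩ (fun t => ‖γ t - x‖) ⁻¹' Ici r).Nonempty := ⟨t₀, ht₀, ht₀'⟩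
    have hbd : BddBelow (Icc (0 : ℝ) 1 ∩ (fun t => ‖γ t - x‖) ⁻¹' Ici r) :=
      ⟨0, fun t ht => ht.1.1⟩
    have hT := hcl.csInf_mem hne hbd
    set T := sInf (Icc (0 : ℝ) 1 ∩ (fun t => ‖γ t - x‖) ⁻¹' Ici r) with hTdef
    have h1 := LC2_sub hh ha hK hγ hT.1 fun t ht => by
      by_contra hcon
      have hmem : t ∈ Icc (0 : ℝ) 1 ∩ (fun t => ‖γ t - x‖) ⁻¹' Ici r :=
        ⟨⟨ht.1.le, ht.2.le.trans hT.1.2⟩, (not_le.1 hcon).le⟩
      have := csInf_le hbd hmem
      rw [← hTdef] at this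
      exact absurd ht.2 (not_lt.2 this)
    have h2 : r ≤ ‖γ T - x‖ := hT.2
    calc a * min ‖y - x‖ r ≤ a * ‖γ T - x‖ :=
          mul_le_mul_of_nonneg_left ((min_le_right _ _).trans h2) ha
      _ ≤ len h γ := h1

/-- Local comparison on a compact set `K`. Proof: `exists_comparison` on the compact 1-neighbourhood
`Metric.cthickening 1 K` gives `a, b`; take `r = 1`; `le_dh` and `dh_le_segment` (balls are convex). -/
theorem exists_local_comparison (hh : Curv.IsMetric h) {K : Set E} (hK : IsCompact K) :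
    ∃ a b : ℝ, 0 < a ∧ 0 < b ∧
      (∀ x ∈ K, ∀ y : E, a * min ‖y - x‖ 1 ≤ dh h x y) ∧
      ∀ x ∈ K, ∀ y : E, ‖y - x‖ ≤ 1 → dh h x y ≤ b * ‖y - x‖ := by
  obtain ⟨a, b, ha, hb, hab⟩ := exists_comparison hh (hK.cthickening (r := 1))
  refine ⟨a, b, ha, hb, fun x hx y => ?_, fun x hx y hy => ?_⟩
  · refine le_dh hh ha.le zero_le_one fun z hz v => (hab z ?_ v).1
    exact Metric.closedBall_subset_cthickening hx 1 hz
  · refine dh_le_segment hh fun z hz => (hab z ?_ _).2
    refine Metric.closedBall_subset_cthickening hx 1 ?_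
    refine (convex_closedBall x 1).segment_subset (Metric.mem_closedBall_self zero_le_one) ?_ hz
    rw [mem_closedBall_iff_norm]
    exact hy

theorem eq_of_dh_eq_zero (hh : Curv.IsMetric h) {x y : E} (hxy : dh h x y = 0) : x = y := by
  obtain ⟨a, b, ha, -, h1, -⟩ := exists_local_comparison hh (isCompact_singleton (x := x))
  have h2 := h1 x rfl y
  rw [hxy] at h2
  have h3 : min ‖y - x‖ 1 ≤ 0 := by
    by_contra hcon
    push Not at hcon
    exact absurd h2 (not_le.2 (mul_pos ha hcon))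
  rcases min_le_iff.1 h3 with h4 | h4
  · exact (sub_eq_zero.1 (norm_le_zero_iff.1 h4)).symm
  · exact absurd h4 (not_le.2 one_pos)

theorem dh_pos (hh : Curv.IsMetric h) {x y : E} (hxy : x ≠ y) : 0 < dh h x y := by
  exact lt_of_le_of_ne (dh_nonneg h x y) fun h0 => hxy (eq_of_dh_eq_zero hh h0.symm)

theorem LC2_tendsto (hh : Curv.IsMetric h) (x₀ : E) :
    Tendsto (fun x => dh h x₀ x) (𝓝 x₀) (𝓝 0) := by
  obtain ⟨a, b, -, hb, -, h2⟩ := exists_local_comparison hh (isCompact_singleton (x := x₀))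
  refine squeeze_zero' (Eventually.of_forall fun x => dh_nonneg h x₀ x)
    (g := fun x => b * ‖x - x₀‖) ?_ ?_
  · filter_upwards [Metric.closedBall_mem_nhds x₀ one_pos] with x hx
    rw [mem_closedBall_iff_norm] at hx
    exact h2 x₀ rfl x hx
  · have hc : Continuous fun x : E => b * ‖x - x₀‖ := by fun_prop
    have := hc.tendsto x₀
    rwa [sub_self, norm_zero, mul_zero] at this

/-- `|dh x y - dh x' y'| ≤ dh x x' + dh y y'` and the local comparison. -/
theorem continuous_dh (hh : Curv.IsMetric h) : Continuous fun p : E × E => dh h p.1 p.2 := by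
  refine continuous_iff_continuousAt.2 fun p₀ => ?_
  rw [ContinuousAt, tendsto_iff_dist_tendsto_zero]
  refine squeeze_zero (fun _ => dist_nonneg)
    (g := fun p : E × E => dh h p₀.1 p.1 + dh h p₀.2 p.2) (fun p => ?_) ?_
  · rw [Real.dist_eq, abs_sub_le_iff]
    have t1 := dh_triangle hh p.1 p₀.1 p.2
    have t2 := dh_triangle hh p₀.1 p₀.2 p.2
    have t3 := dh_triangle hh p₀.1 p.1 p₀.2
    have t4 := dh_triangle hh p.1 p.2 p₀.2
    rw [dh_comm h p.1 p₀.1] at t1
    rw [dh_comm h p.2 p₀.2] at t4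
    constructor <;> linarith
  · have t1 : Tendsto (fun p : E × E => dh h p₀.1 p.1) (𝓝 p₀) (𝓝 0) :=
      (LC2_tendsto hh p₀.1).comp (continuous_fst.tendsto p₀)
    have t2 : Tendsto (fun p : E × E => dh h p₀.2 p.2) (𝓝 p₀) (𝓝 0) :=
      (LC2_tendsto hh p₀.2).comp (continuous_snd.tendsto p₀)
    have := t1.add t2
    rwa [add_zero] at this

theorem isOpen_ballh (hh : Curv.IsMetric h) (x : E) (r : ℝ) : IsOpen (ballh h x r) := by
  exact isOpen_lt ((continuous_dh hh).comp (continuous_const.prodMk continuous_id))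
    continuous_const

/-- Small Riemannian balls are small for the norm, uniformly on compact sets. -/
theorem exists_ballh_subset (hh : Curv.IsMetric h) {K : Set E} (hK : IsCompact K) {ε : ℝ}
    (hε : 0 < ε) : ∃ δ : ℝ, 0 < δ ∧ ∀ x ∈ K, ∀ y : E, dh h x y ≤ δ → ‖y - x‖ ≤ ε := by
  obtain ⟨a, b, ha, -, h1, -⟩ := exists_local_comparison hh hK
  have hm : 0 < min ε 1 := lt_min hε one_pos
  refine ⟨a * (min ε 1 / 2), by positivity, fun x hx y hy => ?_⟩
  by_contra hcon
  push Not at hcon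
  have h2 := (h1 x hx y).trans hy
  have h3 : min ‖y - x‖ 1 ≤ min ε 1 / 2 := le_of_mul_le_mul_left h2 ha
  have h4 : min ε 1 ≤ min ‖y - x‖ 1 := min_le_min hcon.le le_rfl
  linarith

/-- For a complete metric the `R`-neighbourhood of a compact set is bounded. (Cover: if `x₀ ∈ K`, then
`dh x₀ y ≤ R + sup_K dh x₀`.) -/
theorem Proper.isCompact_nhd (hh : Curv.IsMetric h) (hp : Proper h) {K : Set E} (hK : IsCompact K)
    (R : ℝ) : IsCompact {y : E | ∃ x ∈ K, dh h x y ≤ R} := by
  rcases K.eq_empty_or_nonempty with h0 | ⟨x₀, hx₀⟩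
  · rw [h0]
    simp
  obtain ⟨M, hM⟩ := hK.exists_bound_of_continuousOn
    ((continuous_dh hh).comp (continuous_const.prodMk continuous_id) :
      Continuous fun y : E => dh h x₀ y).continuousOn
  have hc : IsCompact ((K ×ˢ {y : E | dh h x₀ y ≤ M + R}) ∩ {p : E × E | dh h p.1 p.2 ≤ R}) :=
    (hK.prod (hp x₀ (M + R))).inter_right (isClosed_le (continuous_dh hh) continuous_const)
  have e : {y : E | ∃ x ∈ K, dh h x y ≤ R} =
      Prod.snd '' ((K ×ˢ {y : E | dh h x₀ y ≤ M + R}) ∩ {p : E × E | dh h p.1 p.2 ≤ R}) := by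
    ext y
    constructor
    · rintro ⟨x, hx, hxy⟩
      refine ⟨(x, y), ⟨⟨hx, ?_⟩, hxy⟩, rfl⟩
      have h1 := hM x hx
      rw [Real.norm_eq_abs] at h1
      have h2 : dh h x₀ x ≤ M := (le_abs_self _).trans h1
      have h3 := dh_triangle hh x₀ x y
      have hxy' : dh h x y ≤ R := hxy
      change dh h x₀ y ≤ M + R
      linarith
    · rintro ⟨⟨x, y'⟩, ⟨⟨hx, -⟩, hxy⟩, rfl⟩
      exact ⟨x, hx, hxy⟩
  rw [e]
  exact hc.image continuous_snd

/-- Intermediate points: almost geodesics. Take a path with `len γ < dh x y + ε`, and `s` with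
`dh x (γ s) = t` (intermediate value theorem for the continuous function `s ↦ dh x (γ s)` on
`[0, 1]`); then `IsPath.dh_add_le`. -/
theorem exists_between (hh : Curv.IsMetric h) (x y : E) {t ε : ℝ} (ht : 0 ≤ t)
    (ht' : t ≤ dh h x y) (hε : 0 < ε) : ∃ z : E, dh h x z = t ∧ dh h z y < dh h x y - t + ε := by
  obtain ⟨γ, hγ, hl⟩ := exists_path h x y hε
  have hcont : ContinuousOn (fun s => dh h x (γ s)) (Icc 0 1) :=
    ((continuous_dh hh).comp (continuous_const.prodMk continuous_id) :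
      Continuous fun y : E => dh h x y).comp_continuousOn hγ.cont
  have hiv := intermediate_value_Icc zero_le_one hcont
  rw [hγ.zero, hγ.one, dh_self] at hiv
  obtain ⟨s, hs, hs'⟩ := hiv ⟨ht, ht'⟩
  have h1 := hγ.dh_add_le hh hs
  have hs'' : dh h x (γ s) = t := hs'
  refine ⟨γ s, hs'', ?_⟩
  rw [hs''] at h1
  linarith

end Pool.Agent.Lib.MP_df705a_gt.Pin
end
end

section

/-!
# TASK GK: cocompact metrics are complete
-/

open scoped Manifold ContDiff Topology
open Set Bundle Module Filter MeasureTheory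

noncomputable section

namespace Pool.Agent.Lib.MP_df705a_gt.Pin

variable {E : Type*} [NormedAddCommGroup E] [NormedSpace ℝ E] [FiniteDimensional ℝ E]
  {h : Curv.Coeff E}

/-- There is `ε > 0` such that all the closed balls of radius `ε` are compact: for the centres in `K` by
`exists_ballh_subset` (bounded) and `continuous_dh` (closed), for the other centres by the
homeomorphisms `G x`. -/
theorem exists_compact_balls (hh : Curv.IsMetric h) {K : Set E} {G G' : E → E → E}
    (hG : CoCpt (dh h) K G G') : ∃ ε : ℝ, 0 < ε ∧ ∀ x, IsCompact {y | dh h x y ≤ ε} := by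
  obtain ⟨ε, hε, h1⟩ := exists_ballh_subset hh hG.cpt one_pos
  refine ⟨ε, hε, fun x => ?_⟩
  have hc : ∀ z, IsClosed {y | dh h z y ≤ ε} := fun z =>
    isClosed_le ((continuous_dh hh).comp (Continuous.prodMk_right z)) continuous_const
  have h2 : IsCompact {y | dh h (G' x x) y ≤ ε} := by
    refine (isCompact_closedBall (G' x x) 1).of_isClosed_subset (hc _) ?_
    intro y hy
    rw [Metric.mem_closedBall, dist_eq_norm]
    exact h1 _ (hG.mem x) y hy
  have h3 : {y | dh h x y ≤ ε} = G x '' {y | dh h (G' x x) y ≤ ε} := by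
    ext y
    constructor
    · intro hy
      refine ⟨G' x y, ?_, hG.left x y⟩
      show dh h (G' x x) (G' x y) ≤ ε
      rw [← hG.iso x, hG.left, hG.left]
      exact hy
    · rintro ⟨z, hz, rfl⟩
      have h4 : dh h (G' x x) z ≤ ε := hz
      rw [← hG.iso x, hG.left] at h4
      exact h4
  rw [h3]
  exact h2.image (hG.smooth x).continuous

/-- If all closed `ε`-balls are compact then all closed balls are compact. Proof: if
`B = {y | dh x y ≤ r}` is compact, `r ≥ 0`, then so is `{y | dh x y ≤ r + ε / 2}`: it is closed, and for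
such `y` there is (`exists_between`) `z` with `dh x z ≤ r`, `dh z y < 3 ε / 4`; cover `B` by finitely
many open balls `{z | dh b z < ε / 4}`, `b ∈ B` (`isOpen_ballh`): `y` lies in the union of the finitely
many compact sets `{y | dh b y ≤ ε}`. Induction on the number of steps of length `ε / 2`. -/
theorem proper_of_coCpt (hh : Curv.IsMetric h) {K : Set E} {G G' : E → E → E}
    (hG : CoCpt (dh h) K G G') : Proper h := by
  obtain ⟨ε, hε, h1⟩ := exists_compact_balls hh hG
  have hc : ∀ z r, IsClosed {y | dh h z y ≤ r} := fun z r =>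
    isClosed_le ((continuous_dh hh).comp (Continuous.prodMk_right z)) continuous_const
  have key : ∀ (x : E) (k : ℕ), IsCompact {y | dh h x y ≤ k * (ε / 2)} := by
    intro x k
    induction k with
    | zero =>
      refine (h1 x).of_isClosed_subset (hc _ _) ?_
      intro y hy
      have h2 : dh h x y ≤ ((0 : ℕ) : ℝ) * (ε / 2) := hy
      rw [Nat.cast_zero, zero_mul] at h2
      exact h2.trans hε.le
    | succ k ih =>
      obtain ⟨t, ht, htc⟩ := ih.elim_nhds_subcover (fun b => ballh h b (ε / 4)) (fun b _ =>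
        (isOpen_ballh hh b (ε / 4)).mem_nhds (by
          show dh h b b < ε / 4
          rw [dh_self]; positivity))
      refine (t.finite_toSet.isCompact_biUnion fun b _ => h1 b).of_isClosed_subset (hc _ _) ?_
      intro y hy
      have hy' : dh h x y ≤ ((k + 1 : ℕ) : ℝ) * (ε / 2) := hy
      push_cast at hy'
      have hk0 : (0 : ℝ) ≤ k * (ε / 2) := by positivity
      obtain ⟨z, hz1, hz2⟩ : ∃ z, dh h x z ≤ k * (ε / 2) ∧ dh h z y < 3 * ε / 4 := by
        rcases le_or_gt (dh h x y) (k * (ε / 2)) with hle | hlt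
        · exact ⟨y, hle, by rw [dh_self]; positivity⟩
        · obtain ⟨z, hz1, hz2⟩ := exists_between hh x y hk0 hlt.le (ε := ε / 4) (by positivity)
          exact ⟨z, hz1.le, by linarith⟩
      obtain ⟨b, hb, hbz⟩ := mem_iUnion₂.mp (htc (show z ∈ {y | dh h x y ≤ k * (ε / 2)} from hz1))
      have hbz' : dh h b z < ε / 4 := hbz
      refine mem_iUnion₂.mpr ⟨b, hb, ?_⟩
      show dh h b y ≤ ε
      have := dh_triangle hh b z y
      linarith
  intro x r
  obtain ⟨k, hk⟩ := exists_nat_ge (r / (ε / 2))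
  refine (key x k).of_isClosed_subset (hc _ _) ?_
  intro y hy
  have hy' : dh h x y ≤ r := hy
  show dh h x y ≤ k * (ε / 2)
  rw [div_le_iff₀ (by positivity)] at hk
  exact hy'.trans hk

end Pool.Agent.Lib.MP_df705a_gt.Pin
end
end

section

/-!
# Ricci pinching, part A, AB2: the norm of a metric
-/

open scoped Manifold ContDiff Topology
open Set Bundle Module Filter MeasureTheory

noncomputable section

set_option linter.unusedSectionVars false

namespace Pool.Agent.Lib.MP_df705a_gt.Pin.A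

variable {E : Type*} [NormedAddCommGroup E] [NormedSpace ℝ E] [FiniteDimensional ℝ E]
  {h : Curv.Coeff E}

theorem nm_eq (h : Curv.Coeff E) (x v : E) : nm h x v = √ (bf h x v v) := by
  rw [bf_apply]
  rfl

theorem nm_nonneg (h : Curv.Coeff E) (x v : E) : 0 ≤ nm h x v := Real.sqrt_nonneg _

theorem nm_sq (hm : Curv.IsMetric h) (x v : E) : nm h x v ^ 2 = bf h x v v := by
  rw [nm_eq, Real.sq_sqrt (bf_nonneg hm x v)]

theorem nm_zero (h : Curv.Coeff E) (x : E) : nm h x 0 = 0 := by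
  rw [nm_eq]
  simp

theorem nm_pos (hm : Curv.IsMetric h) (x : E) {v : E} (hv : v ≠ 0) : 0 < nm h x v := by
  rw [nm_eq]
  exact Real.sqrt_pos.2 (bf_pos hm x hv)

theorem nm_smul (h : Curv.Coeff E) (x : E) (c : ℝ) (v : E) :
    nm h x (c • v) = |c| * nm h x v := by
  unfold nm
  rw [ip_smul_smul, Real.sqrt_mul (sq_nonneg c), Real.sqrt_sq_eq_abs]

theorem abs_bf_le (hm : Curv.IsMetric h) (x u v : E) : |bf h x u v| ≤ nm h x u * nm h x v := by
  rw [bf_apply]
  exact ip_le hm x u v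

theorem nm_add_le (hm : Curv.IsMetric h) (x u v : E) : nm h x (u + v) ≤ nm h x u + nm h x v := by
  have h0 : 0 ≤ nm h x u + nm h x v := add_nonneg (nm_nonneg h x u) (nm_nonneg h x v)
  refine abs_le_of_sq_le_sq' ?_ h0 |>.2
  have h1 := abs_bf_le hm x u v
  have h2 := le_abs_self (bf h x u v)
  have h3 : bf h x (u + v) (u + v) = bf h x u u + 2 * bf h x u v + bf h x v v := by
    rw [map_add, map_add]
    simp only [_root_.add_apply]
    rw [bf_symm hm x v u]
    ring
  rw [nm_sq hm, h3, add_sq, nm_sq hm, nm_sq hm]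
  nlinarith

theorem nm_continuous (hm : Curv.IsMetric h) : Continuous fun q : E × E => nm h q.1 q.2 :=
  continuous_nrm hm

theorem nm_smooth (hm : Curv.IsMetric h) (x : E) {v : E} (hv : v ≠ 0) :
    ContDiffAt ℝ ∞ (nm h x) v := by
  have h1 : nm h x = fun v => √ (bf h x v v) := by
    funext v
    exact nm_eq h x v
  rw [h1]
  have h2 : ContDiffAt ℝ ∞ (fun v => bf h x v v) v :=
    ((bf h x).contDiff.contDiffAt).clm_apply contDiffAt_id
  exact h2.sqrt (bf_pos hm x hv).ne'

theorem nm_fderiv (hm : Curv.IsMetric h) (x : E) {v : E} (hv : v ≠ 0) (u : E) :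
    fderiv ℝ (nm h x) v u = bf h x v u / nm h x v := by
  have h1 : nm h x = fun v => √ (bf h x v v) := by
    funext v
    exact nm_eq h x v
  have h2 : HasFDerivAt (fun v => bf h x v v)
      ((bf h x v).comp (ContinuousLinearMap.id ℝ E) + (bf h x).flip v) v :=
    ((bf h x).hasFDerivAt (x := v)).clm_apply (hasFDerivAt_id v)
  have h3 := h2.sqrt (bf_pos hm x hv).ne'
  have h4 : fderiv ℝ (nm h x) v = (1 / (2 * √ (bf h x v v))) •
      ((bf h x v).comp (ContinuousLinearMap.id ℝ E) + (bf h x).flip v) := by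
    rw [h1]
    exact h3.fderiv
  rw [h4, nm_eq]
  simp only [_root_.smul_apply, _root_.add_apply, ContinuousLinearMap.comp_apply,
    ContinuousLinearMap.id_apply, ContinuousLinearMap.flip_apply, smul_eq_mul]
  rw [bf_symm hm x u v]
  have h5 : √ (bf h x v v) ≠ 0 := (Real.sqrt_pos.2 (bf_pos hm x hv)).ne'
  field_simp
  ring

theorem nm_compact (hm : Curv.IsMetric h) {K : Set E} (hK : IsCompact K) :
    ∃ c C : ℝ, 0 < c ∧ 0 < C ∧ ∀ x ∈ K, ∀ v, c * ‖v‖ ≤ nm h x v ∧ nm h x v ≤ C * ‖v‖ :=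
  exists_comparison hm hK

end Pool.Agent.Lib.MP_df705a_gt.Pin.A
end
end

section

/-!
# The length metric: statements used in the Riemannian part
-/

open scoped Manifold ContDiff Topology
open Set Bundle Module Filter MeasureTheory

noncomputable section

namespace Pool.Agent.Lib.MP_df705a_gt.Pin

variable {E : Type*} [NormedAddCommGroup E] [NormedSpace ℝ E] [FiniteDimensional ℝ E]
  {h : Curv.Coeff E}

theorem dh_continuous (hh : Curv.IsMetric h) : Continuous fun q : E × E => dh h q.1 q.2 :=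
  continuous_dh hh

theorem dual (hh : Curv.IsMetric h) {f : E → ℝ} (hf : ContDiff ℝ 1 f)
    (hf1 : ∀ x u, (fderiv ℝ f x u) ^ 2 ≤ Curv.ip h x u u) (x y : E) :
    |f x - f y| ≤ dh h x y := by
  have h1 := abs_sub_le_dh hh hf (L := 1) zero_le_one (fun x v => by
    rw [one_mul]
    exact Real.abs_le_sqrt (hf1 x v)) x y
  rwa [one_mul] at h1

theorem dh_le_curve (hh : Curv.IsMetric h) {g g' : ℝ → E} {a b C : ℝ} (hab : a ≤ b)
    (hg : ∀ t ∈ Icc a b, HasDerivWithinAt g (g' t) (Icc a b) t) (hg' : ContinuousOn g' (Icc a b))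
    (hC : ∀ t ∈ Icc a b, √ (Curv.ip h (g t) (g' t) (g' t)) ≤ C) :
    dh h (g a) (g b) ≤ C * (b - a) := by
  have hd : ∀ t ∈ Ioo a b, HasDerivAt g (g' t) t := fun t ht =>
    (hg t (Ioo_subset_Icc_self ht)).hasDerivAt (Icc_mem_nhds ht.1 ht.2)
  have hpw : PW g a b := by
    refine ⟨fun t ht => (hg t ht).continuousWithinAt, ⟨∅, finite_empty, fun t ht =>
      (hd t ht.1).differentiableAt⟩, ?_⟩
    obtain ⟨B, hB⟩ := (isCompact_Icc.image_of_continuousOn hg').isBounded.exists_norm_le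
    refine ⟨B, fun t ht => ?_⟩
    rw [(hd t ht).deriv]
    exact hB _ ⟨t, Ioo_subset_Icc_self ht, rfl⟩
  refine (hpw.dh_le hab).trans ?_
  have h1 : ∫ t in a..b, spd h g t ≤ ∫ _ in a..b, C := by
    apply intervalIntegral.integral_mono_on_of_le_Ioo hab (hpw.intervalIntegrable hh hab)
      intervalIntegrable_const
    intro t ht
    unfold spd
    rw [(hd t ht).deriv]
    exact hC t (Ioo_subset_Icc_self ht)
  refine h1.trans (le_of_eq ?_)
  rw [intervalIntegral.integral_const, smul_eq_mul]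
  ring

theorem split (hh : Curv.IsMetric h) {p q : E} {s η : ℝ} (hs : 0 ≤ s) (hs' : s ≤ dh h p q)
    (hη : 0 < η) : ∃ x, dh h p x = s ∧ dh h x q ≤ dh h p q - s + η := by
  obtain ⟨z, hz, hz'⟩ := exists_between hh p q hs hs' hη
  exact ⟨z, hz, hz'.le⟩

theorem exists_le_dh (hh : Curv.IsMetric h) {K : Set E} (hK : IsCompact K) :
    ∃ c : ℝ, 0 < c ∧ ∀ x ∈ K, ∀ y, c * min ‖x - y‖ 1 ≤ dh h x y := by
  obtain ⟨a, b, ha, hb, h1, h2⟩ := exists_local_comparison hh hK
  refine ⟨a, ha, fun x hx y => ?_⟩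
  rw [norm_sub_rev]
  exact h1 x hx y

theorem exists_dh_eq [Nontrivial E] (hh : Curv.IsMetric h) (hp : Proper h) (p : E) {s : ℝ}
    (hs : 0 ≤ s) : ∃ q, dh h p q = s := by
  have hc : Continuous fun q => dh h p q := (continuous_dh hh).comp (Continuous.prodMk_right p)
  have h1 : ∃ q, s < dh h p q := by
    by_contra hcon
    push Not at hcon
    have h2 : IsCompact (univ : Set E) := by
      have h3 := hp p s
      have h4 : {y | dh h p y ≤ s} = univ := eq_univ_of_forall hcon
      rwa [h4] at h3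
    exact NoncompactSpace.noncompact_univ (X := E) h2
  obtain ⟨q, hq⟩ := h1
  have h2 := intermediate_value_univ p q hc
  rw [dh_self] at h2
  exact h2 ⟨hs, hq.le⟩

end Pool.Agent.Lib.MP_df705a_gt.Pin
end
end

section

/-!
# Ricci pinching: facts on the Riemannian distance, in the form used in part A
-/

open scoped Manifold ContDiff Topology
open Set Bundle Module Filter MeasureTheory

noncomputable section

namespace Pool.Agent.Lib.MP_df705a_gt.Pin.A

variable {E : Type*} [NormedAddCommGroup E] [NormedSpace ℝ E] [FiniteDimensional ℝ E]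
  {h : Curv.Coeff E}

theorem dh_nonneg (_hm : Curv.IsMetric h) (x y : E) : 0 ≤ dh h x y := Pin.dh_nonneg h x y

theorem dh_self (_hm : Curv.IsMetric h) (x : E) : dh h x x = 0 := Pin.dh_self h x

theorem dh_comm (_hm : Curv.IsMetric h) (x y : E) : dh h x y = dh h y x := Pin.dh_comm h x y

theorem dh_triangle (hm : Curv.IsMetric h) (x y z : E) : dh h x z ≤ dh h x y + dh h y z :=
  Pin.dh_triangle hm x y z

theorem dh_pos (hm : Curv.IsMetric h) {x y : E} (hxy : x ≠ y) : 0 < dh h x y :=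
  Pin.dh_pos hm hxy

theorem dh_continuous (hm : Curv.IsMetric h) : Continuous fun q : E × E => dh h q.1 q.2 :=
  Pin.dh_continuous hm

/-- A function whose differential has norm at most one is `1`-Lipschitz. -/
theorem dh_dual (hm : Curv.IsMetric h) {f : E → ℝ} (hf : ContDiff ℝ 1 f)
    (hd : ∀ x u, fderiv ℝ f x u ^ 2 ≤ Curv.ip h x u u) (x y : E) : |f x - f y| ≤ dh h x y :=
  Pin.dual hm hf hd x y

/-- The distance of the end points of a curve of speed at most `C`. -/
theorem dh_le_curve (hm : Curv.IsMetric h) {g g' : ℝ → E} {a b C : ℝ} (hab : a ≤ b)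
    (hg : ∀ t ∈ Icc a b, HasDerivWithinAt g (g' t) (Icc a b) t) (hg' : ContinuousOn g' (Icc a b))
    (hC : ∀ t ∈ Icc a b, √ (Curv.ip h (g t) (g' t) (g' t)) ≤ C) :
    dh h (g a) (g b) ≤ C * (b - a) :=
  Pin.dh_le_curve hm hab hg hg' hC

theorem dh_split (hm : Curv.IsMetric h) {p q : E} {s η : ℝ} (hs : 0 ≤ s) (hs' : s ≤ dh h p q)
    (hη : 0 < η) : ∃ x, dh h p x = s ∧ dh h x q ≤ dh h p q - s + η :=
  Pin.split hm hs hs' hη

theorem dh_lower (hm : Curv.IsMetric h) {K : Set E} (hK : IsCompact K) :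
    ∃ c : ℝ, 0 < c ∧ ∀ x ∈ K, ∀ y, c * min ‖x - y‖ 1 ≤ dh h x y :=
  Pin.exists_le_dh hm hK

theorem exists_dh_eq [Nontrivial E] (hm : Curv.IsMetric h) (hP : Proper h) (p : E) {s : ℝ}
    (hs : 0 ≤ s) : ∃ q, dh h p q = s :=
  Pin.exists_dh_eq hm hP p hs

end Pool.Agent.Lib.MP_df705a_gt.Pin.A
end
end
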