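import Pool.Agent.Lib.MP_df705a_gt.Mg.G055
import Pool.Agent.Lib.MP_df705a_gt.Twist.PointDefs
import Pool.Agent.Lib.MP_df705a_gt.Mg.G054
import Pool.Agent.Lib.MP_df705a_gt.Mg.G057

section

/-!
# The pointwise inequality for metrics with orthogonal factors
-/

noncomputable section

set_option linter.unusedSectionVars false
set_option linter.unusedSimpArgs false

open scoped ContDiff Topology
open Module Filter

namespace Pool.Agent.Lib.MP_df705a_gt.Twist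

open Alg

section

variable {E : Type*} [NormedAddCommGroup E] [NormedSpace ℝ E] [FiniteDimensional ℝ E]

theorem lapC_link {h : Curv.Coeff E} {u : E → ℝ} {x : E} (hu : ContDiffAt ℝ ∞ u x) :
    lapC h u x = lap (finBasis ℝ E) (fB h x) (fD h x) (fderiv ℝ u x : E →ₗ[ℝ] ℝ)
      (toL2 (fderiv ℝ (fderiv ℝ u) x)) := by
  unfold lapC lap tr
  rw [gram_mkB]
  refine Finset.sum_congr rfl fun i _ => Finset.sum_congr rfl fun j _ => ?_
  unfold Curv.covHess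
  rw [pd_pd hu]
  congr 2
  unfold cop tr
  rw [gram_mkB]
  refine Finset.sum_congr rfl fun p _ => Finset.sum_congr rfl fun r _ => ?_
  rw [christoffel_eq, mul_assoc]
  rfl

theorem gradC_link {h : Curv.Coeff E} {u v : E → ℝ} {x : E} :
    gradC h u v x = cop (finBasis ℝ E) (fB h x) (fderiv ℝ u x : E →ₗ[ℝ] ℝ)
      (fderiv ℝ v x : E →ₗ[ℝ] ℝ) := by
  unfold gradC cop tr
  rw [gram_mkB]
  rfl

theorem lap_linear {V : Type*} [AddCommGroup V] [Module ℝ V] {ι : Type*} [Fintype ι]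
    [DecidableEq ι] {e : Basis ι ℝ V} {h : Bil V} (D : V →ₗ[ℝ] Bil V) (c c' : ℝ)
    (f1 f1' g1 : V →ₗ[ℝ] ℝ) (f2 f2' g2 : Bil V) (h1 : ∀ u, g1 u = c * f1 u + c' * f1' u)
    (h2 : ∀ u v, g2 u v = c * f2 u v + c' * f2' u v) :
    lap e h D g1 g2 = c * lap e h D f1 f2 + c' * lap e h D f1' f2' := by
  unfold lap
  rw [← tr_const_mul, ← tr_const_mul, ← tr_add]
  refine tr_congr fun u v => ?_
  have h3 : (g1 : V → ℝ) = c • (f1 : V → ℝ) + c' • (f1' : V → ℝ) := funext h1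
  rw [h2, h3, cop_add_right, cop_smul_right, cop_smul_right]
  ring

end

variable {E₁ : Type*} [NormedAddCommGroup E₁] [NormedSpace ℝ E₁] [FiniteDimensional ℝ E₁]
  {E₂ : Type*} [NormedAddCommGroup E₂] [NormedSpace ℝ E₂] [FiniteDimensional ℝ E₂]
  {h : E₁ × E₂ → Matrix (Fin (finrank ℝ E₁)) (Fin (finrank ℝ E₁)) ℝ}
  {f : E₁ × E₂ → Matrix (Fin (finrank ℝ E₂)) (Fin (finrank ℝ E₂)) ℝ} {α β : E₁ × E₂ → ℝ}
  {q : E₁ × E₂}

/-- The coefficients as families of functions. -/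
abbrev cf {X ι : Type*} (M : X → Matrix ι ι ℝ) : ι → ι → X → ℝ := fun i j y => M y i j

theorem block_apply (y : E₁ × E₂) (i j : Fin (finrank ℝ (E₁ × E₂))) :
    blockMetric h f α β y i j =
      Real.exp (α y) ^ 2 * mkB (finBasis ℝ E₁) (fun i j => cf h i j y)
        (finBasis ℝ (E₁ × E₂) i).1 (finBasis ℝ (E₁ × E₂) j).1 +
      Real.exp (β y) ^ 2 * mkB (finBasis ℝ E₂) (fun i j => cf f i j y)
        (finBasis ℝ (E₁ × E₂) i).2 (finBasis ℝ (E₁ × E₂) j).2 := by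
  rw [mkB_apply, mkB_apply]
  rfl

/-- Extensionality for bilinear forms on a product. -/
theorem ext_prod {V₁ V₂ : Type*} [AddCommGroup V₁] [Module ℝ V₁] [AddCommGroup V₂]
    [Module ℝ V₂] {ι : Type*} (b : Basis ι ℝ (V₁ × V₂)) (S : Bil (V₁ × V₂)) (P : Bil V₁)
    (Q : Bil V₂) (hS : ∀ i j, S (b i) (b j) = P (b i).1 (b j).1 + Q (b i).2 (b j).2)
    (v w : V₁ × V₂) : S v w = P v.1 w.1 + Q v.2 w.2 := by
  have h1 : S = P.compl₁₂ (LinearMap.fst ℝ V₁ V₂) (LinearMap.fst ℝ V₁ V₂) +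
      Q.compl₁₂ (LinearMap.snd ℝ V₁ V₂) (LinearMap.snd ℝ V₁ V₂) := by
    refine LinearMap.ext_basis b b fun i j => ?_
    rw [hS]
    rfl
  rw [h1]
  rfl

section block

variable (hh : ∀ i j, ContDiffAt ℝ ∞ (fun q => h q i j) q)
  (hf : ∀ i j, ContDiffAt ℝ ∞ (fun q => f q i j) q)
  (hα : ContDiffAt ℝ ∞ α q) (hβ : ContDiffAt ℝ ∞ β q)

include hh hf hα hβ

theorem block_contDiffAt (i j : Fin (finrank ℝ (E₁ × E₂))) :
    ContDiffAt ℝ ∞ (fun y => blockMetric h f α β y i j) q := by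
  simp only [block_apply]
  exact ((hα.exp.pow 2).mul (form_contDiffAt _ hh _ _)).add
    ((hβ.exp.pow 2).mul (form_contDiffAt _ hf _ _))

omit hh hf hα hβ in
theorem block_form (v w : E₁ × E₂) : fB (blockMetric h f α β) q v w =
    Real.exp (α q) ^ 2 * mkB (finBasis ℝ E₁) (fun i j => h q i j) v.1 w.1 +
      Real.exp (β q) ^ 2 * mkB (finBasis ℝ E₂) (fun i j => f q i j) v.2 w.2 := by
  refine ext_prod (finBasis ℝ (E₁ × E₂)) _
    (Real.exp (α q) ^ 2 • mkB (finBasis ℝ E₁) fun i j => h q i j)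
    (Real.exp (β q) ^ 2 • mkB (finBasis ℝ E₂) fun i j => f q i j) (fun i j => ?_) v w
  rw [mkB_basis, block_apply]
  rfl

theorem block_D (u v w : E₁ × E₂) : fD (blockMetric h f α β) q u v w =
    Real.exp (α q) ^ 2 * (2 * fderiv ℝ α q u *
      mkB (finBasis ℝ E₁) (fun i j => h q i j) v.1 w.1 +
      mkD (finBasis ℝ E₁) (j1 (cf h) q) u v.1 w.1) +
    Real.exp (β q) ^ 2 * (2 * fderiv ℝ β q u *
      mkB (finBasis ℝ E₂) (fun i j => f q i j) v.2 w.2 +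
      mkD (finBasis ℝ E₂) (j1 (cf f) q) u v.2 w.2) := by
  refine ext_prod (finBasis ℝ (E₁ × E₂)) _
    (Real.exp (α q) ^ 2 • ((2 * fderiv ℝ α q u) • (mkB (finBasis ℝ E₁) fun i j => h q i j) +
      mkD (finBasis ℝ E₁) (j1 (cf h) q) u))
    (Real.exp (β q) ^ 2 • ((2 * fderiv ℝ β q u) • (mkB (finBasis ℝ E₂) fun i j => f q i j) +
      mkD (finBasis ℝ E₂) (j1 (cf f) q) u)) (fun i j => ?_) v w
  rw [mkD_basis, j1_apply]
  simp only [block_apply]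
  have c1 := form_contDiffAt (finBasis ℝ E₁) hh (finBasis ℝ (E₁ × E₂) i).1
    (finBasis ℝ (E₁ × E₂) j).1
  have c2 := form_contDiffAt (finBasis ℝ E₂) hf (finBasis ℝ (E₁ × E₂) i).2
    (finBasis ℝ (E₁ × E₂) j).2
  have d1 := (eventually_differentiableAt ((hα.exp.pow 2).mul c1)).self_of_nhds
  have d2 := (eventually_differentiableAt ((hβ.exp.pow 2).mul c2)).self_of_nhds
  rw [fderiv_fun_add d1 d2, _root_.add_apply, conf_fderiv hα c1, conf_fderiv hβ c2,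
    form_fderiv _ hh, form_fderiv _ hf]
  rfl

theorem block_D2 (u u' v w : E₁ × E₂) : fD2 (blockMetric h f α β) q u u' v w =
    Real.exp (α q) ^ 2 * ((4 * fderiv ℝ α q u * fderiv ℝ α q u' +
      2 * fderiv ℝ (fderiv ℝ α) q u u') * mkB (finBasis ℝ E₁) (fun i j => h q i j) v.1 w.1 +
      2 * fderiv ℝ α q u * mkD (finBasis ℝ E₁) (j1 (cf h) q) u' v.1 w.1 +
      2 * fderiv ℝ α q u' * mkD (finBasis ℝ E₁) (j1 (cf h) q) u v.1 w.1 +
      mkD2 (finBasis ℝ E₁) (j2 (cf h) q) u u' v.1 w.1) +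
    Real.exp (β q) ^ 2 * ((4 * fderiv ℝ β q u * fderiv ℝ β q u' +
      2 * fderiv ℝ (fderiv ℝ β) q u u') * mkB (finBasis ℝ E₂) (fun i j => f q i j) v.2 w.2 +
      2 * fderiv ℝ β q u * mkD (finBasis ℝ E₂) (j1 (cf f) q) u' v.2 w.2 +
      2 * fderiv ℝ β q u' * mkD (finBasis ℝ E₂) (j1 (cf f) q) u v.2 w.2 +
      mkD2 (finBasis ℝ E₂) (j2 (cf f) q) u u' v.2 w.2) := by
  refine ext_prod (finBasis ℝ (E₁ × E₂)) _
    (Real.exp (α q) ^ 2 • ((4 * fderiv ℝ α q u * fderiv ℝ α q u' +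
        2 * fderiv ℝ (fderiv ℝ α) q u u') • (mkB (finBasis ℝ E₁) fun i j => h q i j) +
      (2 * fderiv ℝ α q u) • mkD (finBasis ℝ E₁) (j1 (cf h) q) u' +
      (2 * fderiv ℝ α q u') • mkD (finBasis ℝ E₁) (j1 (cf h) q) u +
      mkD2 (finBasis ℝ E₁) (j2 (cf h) q) u u'))
    (Real.exp (β q) ^ 2 • ((4 * fderiv ℝ β q u * fderiv ℝ β q u' +
        2 * fderiv ℝ (fderiv ℝ β) q u u') • (mkB (finBasis ℝ E₂) fun i j => f q i j) +
      (2 * fderiv ℝ β q u) • mkD (finBasis ℝ E₂) (j1 (cf f) q) u' +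
      (2 * fderiv ℝ β q u') • mkD (finBasis ℝ E₂) (j1 (cf f) q) u +
      mkD2 (finBasis ℝ E₂) (j2 (cf f) q) u u')) (fun i j => ?_) v w
  rw [mkD2_basis, j2_apply]
  simp only [block_apply]
  have c1 := form_contDiffAt (finBasis ℝ E₁) hh (finBasis ℝ (E₁ × E₂) i).1
    (finBasis ℝ (E₁ × E₂) j).1
  have c2 := form_contDiffAt (finBasis ℝ E₂) hf (finBasis ℝ (E₁ × E₂) i).2
    (finBasis ℝ (E₁ × E₂) j).2
  have e1 := (hα.exp.pow 2).mul c1
  have e2 := (hβ.exp.pow 2).mul c2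
  have d1 := eventually_differentiableAt e1
  have d2 := eventually_differentiableAt e2
  have h1 : (fderiv ℝ fun y => Real.exp (α y) ^ 2 * mkB (finBasis ℝ E₁)
        (fun i j => cf h i j y) (finBasis ℝ (E₁ × E₂) i).1 (finBasis ℝ (E₁ × E₂) j).1 +
      Real.exp (β y) ^ 2 * mkB (finBasis ℝ E₂) (fun i j => cf f i j y)
        (finBasis ℝ (E₁ × E₂) i).2 (finBasis ℝ (E₁ × E₂) j).2) =ᶠ[𝓝 q]
      fun y => (fderiv ℝ fun y => Real.exp (α y) ^ 2 * mkB (finBasis ℝ E₁)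
        (fun i j => cf h i j y) (finBasis ℝ (E₁ × E₂) i).1 (finBasis ℝ (E₁ × E₂) j).1) y +
      (fderiv ℝ fun y => Real.exp (β y) ^ 2 * mkB (finBasis ℝ E₂)
        (fun i j => cf f i j y) (finBasis ℝ (E₁ × E₂) i).2 (finBasis ℝ (E₁ × E₂) j).2) y := by
    filter_upwards [d1, d2] with y h1 h2
    exact fderiv_fun_add h1 h2
  rw [h1.fderiv_eq, fderiv_fun_add (differentiableAt_fderiv e1) (differentiableAt_fderiv e2),
    _root_.add_apply, _root_.add_apply, conf_fderiv2 hα c1, conf_fderiv2 hβ c2,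
    form_fderiv _ hh, form_fderiv _ hf, form_fderiv _ hh, form_fderiv _ hf,
    form_fderiv2 _ hh, form_fderiv2 _ hf]
  rfl

end block

/-! ### Slices -/

theorem slice1_fD (hh : ∀ i j, ContDiffAt ℝ ∞ (fun q => h q i j) q) :
    fD (fun x => h (x, q.2)) q.1 = r1 (mkD (finBasis ℝ E₁) (j1 (cf h) q)) := by
  refine LinearMap.ext fun u => LinearMap.ext_basis (finBasis ℝ E₁) (finBasis ℝ E₁) fun i j => ?_
  rw [LinearMap.comp_apply, mkD_basis, mkD_basis, j1_apply, j1_apply]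
  exact slice1_fderiv (hh i j) u

theorem slice1_fD2 (hh : ∀ i j, ContDiffAt ℝ ∞ (fun q => h q i j) q) :
    fD2 (fun x => h (x, q.2)) q.1 = r11 (mkD2 (finBasis ℝ E₁) (j2 (cf h) q)) := by
  refine LinearMap.ext fun u => LinearMap.ext fun v =>
    LinearMap.ext_basis (finBasis ℝ E₁) (finBasis ℝ E₁) fun i j => ?_
  rw [LinearMap.compl₁₂_apply, mkD2_basis, mkD2_basis, j2_apply, j2_apply]
  exact slice1_fderiv2 (hh i j) u v

theorem slice2_fD (hf : ∀ i j, ContDiffAt ℝ ∞ (fun q => f q i j) q) :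
    fD (fun y => f (q.1, y)) q.2 = r2 (mkD (finBasis ℝ E₂) (j1 (cf f) q)) := by
  refine LinearMap.ext fun u => LinearMap.ext_basis (finBasis ℝ E₂) (finBasis ℝ E₂) fun i j => ?_
  rw [LinearMap.comp_apply, mkD_basis, mkD_basis, j1_apply, j1_apply]
  exact slice2_fderiv (hf i j) u

theorem slice2_fD2 (hf : ∀ i j, ContDiffAt ℝ ∞ (fun q => f q i j) q) :
    fD2 (fun y => f (q.1, y)) q.2 = r22 (mkD2 (finBasis ℝ E₂) (j2 (cf f) q)) := by
  refine LinearMap.ext fun u => LinearMap.ext fun v =>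
    LinearMap.ext_basis (finBasis ℝ E₂) (finBasis ℝ E₂) fun i j => ?_
  rw [LinearMap.compl₁₂_apply, mkD2_basis, mkD2_basis, j2_apply, j2_apply]
  exact slice2_fderiv2 (hf i j) u v

section lin

variable {X : Type*} [NormedAddCommGroup X] [NormedSpace ℝ X] {φ ψ : X → ℝ} {x : X}

theorem lin_contDiffAt (hφ : ContDiffAt ℝ ∞ φ x) (hψ : ContDiffAt ℝ ∞ ψ x) (c d : ℝ) :
    ContDiffAt ℝ ∞ (fun y => c * φ y + d * ψ y) x :=
  (contDiffAt_const.mul hφ).add (contDiffAt_const.mul hψ)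

theorem lin_hasFDerivAt (hφ : DifferentiableAt ℝ φ x) (hψ : DifferentiableAt ℝ ψ x) (c d : ℝ) :
    HasFDerivAt (fun y => c * φ y + d * ψ y) (c • fderiv ℝ φ x + d • fderiv ℝ ψ x) x :=
  (hφ.hasFDerivAt.const_mul c).add (hψ.hasFDerivAt.const_mul d)

theorem lin_fderiv (hφ : ContDiffAt ℝ ∞ φ x) (hψ : ContDiffAt ℝ ∞ ψ x) (c d : ℝ) (u : X) :
    fderiv ℝ (fun y => c * φ y + d * ψ y) x u = c * fderiv ℝ φ x u + d * fderiv ℝ ψ x u := by
  rw [(lin_hasFDerivAt (eventually_differentiableAt hφ).self_of_nhds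
    (eventually_differentiableAt hψ).self_of_nhds c d).fderiv]
  rfl

theorem lin_fderiv2 (hφ : ContDiffAt ℝ ∞ φ x) (hψ : ContDiffAt ℝ ∞ ψ x) (c d : ℝ) (u v : X) :
    fderiv ℝ (fderiv ℝ fun y => c * φ y + d * ψ y) x u v =
      c * fderiv ℝ (fderiv ℝ φ) x u v + d * fderiv ℝ (fderiv ℝ ψ) x u v := by
  have h1 : (fderiv ℝ fun y => c * φ y + d * ψ y) =ᶠ[𝓝 x]
      fun y => c • fderiv ℝ φ y + d • fderiv ℝ ψ y := by
    filter_upwards [eventually_differentiableAt hφ, eventually_differentiableAt hψ] with y h1 h2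
    exact (lin_hasFDerivAt h1 h2 c d).fderiv
  have h2 : HasFDerivAt (fun y => c • fderiv ℝ φ y + d • fderiv ℝ ψ y)
      (c • fderiv ℝ (fderiv ℝ φ) x + d • fderiv ℝ (fderiv ℝ ψ) x) x :=
    ((differentiableAt_fderiv hφ).hasFDerivAt.fun_const_smul c).fun_add
      ((differentiableAt_fderiv hψ).hasFDerivAt.fun_const_smul d)
  rw [h1.fderiv_eq, h2.fderiv]
  rfl

end lin

/-- Rearrangement of the quadratic expression in the second hypothesis. -/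
theorem quad_rearrange {ι W : Type*} [Fintype ι] [DecidableEq ι] [AddCommGroup W] [Module ℝ W]
    {b : Basis ι ℝ W} {M : Matrix ι ι ℝ} (hM : ∀ i j, M⁻¹ i j = M⁻¹ j i)
    {k : Bil W} (hk : gram b k = M) {V : Type*} (S : V → Bil W) (x x' : V) :
    quad b k (fun x v w => S x v w) x x' =
      ∑ i, ∑ j, ∑ r, ∑ s, M⁻¹ i j * M⁻¹ r s * S x' (b i) (b r) * S x (b j) (b s) := by
  unfold quad cop tr
  rw [hk]
  refine Finset.sum_congr rfl fun i _ => Finset.sum_congr rfl fun j _ => ?_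
  simp only [Finset.mul_sum]
  rw [Finset.sum_comm]
  refine Finset.sum_congr rfl fun r _ => Finset.sum_congr rfl fun s _ => ?_
  rw [hM r s]
  ring

/-- The pointwise inequality. -/
theorem point_ineq (hd₁ : 0 < finrank ℝ E₁) (hd₂ : 0 < finrank ℝ E₂)
    (h : E₁ × E₂ → Matrix (Fin (finrank ℝ E₁)) (Fin (finrank ℝ E₁)) ℝ)
    (f : E₁ × E₂ → Matrix (Fin (finrank ℝ E₂)) (Fin (finrank ℝ E₂)) ℝ) (α β : E₁ × E₂ → ℝ)
    {q : E₁ × E₂}
    (hh : ∀ i j, ContDiffAt ℝ ∞ (fun q => h q i j) q)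
    (hf : ∀ i j, ContDiffAt ℝ ∞ (fun q => f q i j) q)
    (hα : ContDiffAt ℝ ∞ α q) (hβ : ContDiffAt ℝ ∞ β q)
    (hhp : ∀ᶠ q in nhds q, (h q).PosDef) (hfp : ∀ᶠ q in nhds q, (f q).PosDef)
    (hf1 : ∀ x : E₁, ∑ k, ∑ l, (f q)⁻¹ k l * fderiv ℝ (fun q => f q k l) q (x, 0) = 0)
    (hf2 : ∀ x x' : E₁, ∑ k, ∑ l, (f q)⁻¹ k l *
        fderiv ℝ (fun q => fderiv ℝ (fun q => f q k l) q (x, 0)) q (x', 0) =
      ∑ k, ∑ l, ∑ r, ∑ s, (f q)⁻¹ k l * (f q)⁻¹ r s *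
        fderiv ℝ (fun q => f q k r) q (x, 0) * fderiv ℝ (fun q => f q l s) q (x', 0))
    (hh1 : ∀ y : E₂, ∑ k, ∑ l, (h q)⁻¹ k l * fderiv ℝ (fun q => h q k l) q (0, y) = 0)
    (hh2 : ∀ y y' : E₂, ∑ k, ∑ l, (h q)⁻¹ k l *
        fderiv ℝ (fun q => fderiv ℝ (fun q => h q k l) q (0, y)) q (0, y') =
      ∑ k, ∑ l, ∑ r, ∑ s, (h q)⁻¹ k l * (h q)⁻¹ r s *
        fderiv ℝ (fun q => h q k r) q (0, y) * fderiv ℝ (fun q => h q l s) q (0, y'))
    (u v : E₁ × E₂ → ℝ)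
    (hu : u = fun q => ((finrank ℝ E₁ : ℝ) - 1) * α q + (finrank ℝ E₂ : ℝ) * β q)
    (hv : v = fun q => ((finrank ℝ E₂ : ℝ) - 1) * β q + (finrank ℝ E₁ : ℝ) * α q) :
    Real.exp (α q + β q) * Curv.scal (blockMetric h f α β) q +
      2 * Real.exp (β q - α q) *
        (lapC (fun x => h (x, q.2)) (fun x => u (x, q.2)) q.1 +
          gradC (fun x => h (x, q.2)) (fun x => β (x, q.2) - α (x, q.2))
            (fun x => u (x, q.2)) q.1) +
      2 * Real.exp (α q - β q) *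
        (lapC (fun y => f (q.1, y)) (fun y => v (q.1, y)) q.2 +
          gradC (fun y => f (q.1, y)) (fun y => α (q.1, y) - β (q.1, y))
            (fun y => v (q.1, y)) q.2) ≤
    Real.exp (β q - α q) * Curv.scal (fun x => h (x, q.2)) q.1 +
      Real.exp (α q - β q) * Curv.scal (fun y => f (q.1, y)) q.2 := by
  have hhq := hhp.self_of_nhds
  have hfq := hfp.self_of_nhds
  have hsy : ∀ᶠ y in 𝓝 q, ∀ i j, cf h i j y = cf h j i y := by
    filter_upwards [hhp] with y hy i j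
    have := hy.isHermitian.apply j i
    simpa using this
  have fsy : ∀ᶠ y in 𝓝 q, ∀ i j, cf f i j y = cf f j i y := by
    filter_upwards [hfp] with y hy i j
    have := hy.isHermitian.apply j i
    simpa using this
  have hg1 : gram (finBasis ℝ E₁) (mkB (finBasis ℝ E₁) fun i j => h q i j) = h q := gram_mkB _ _
  have hg2 : gram (finBasis ℝ E₂) (mkB (finBasis ℝ E₂) fun i j => f q i j) = f q := gram_mkB _ _
  have nh : Nondeg (finBasis ℝ E₁) (mkB (finBasis ℝ E₁) fun i j => h q i j) :=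
    ⟨mkB_symm _ fun i j => hsy.self_of_nhds i j, by
      rw [hg1]
      exact (Matrix.isUnit_iff_isUnit_det _).mp hhq.isUnit⟩
  have nf : Nondeg (finBasis ℝ E₂) (mkB (finBasis ℝ E₂) fun i j => f q i j) :=
    ⟨mkB_symm _ fun i j => fsy.self_of_nhds i j, by
      rw [hg2]
      exact (Matrix.isUnit_iff_isUnit_det _).mp hfq.isUnit⟩
  have ih : ∀ i j, (h q)⁻¹ i j = (h q)⁻¹ j i := fun i j => by
    have := inv_symm nh i j
    rwa [hg1] at this
  have jf : ∀ i j, (f q)⁻¹ i j = (f q)⁻¹ j i := fun i j => by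
    have := inv_symm nf i j
    rwa [hg2] at this
  have T : Tw (finBasis ℝ E₁) (finBasis ℝ E₂) (mkB (finBasis ℝ E₁) fun i j => h q i j)
      (mkB (finBasis ℝ E₂) fun i j => f q i j) (fB (blockMetric h f α β) q)
      (fD (blockMetric h f α β) q) (fD2 (blockMetric h f α β) q) (Real.exp (α q) ^ 2)
      (Real.exp (β q) ^ 2) (fderiv ℝ α q : (E₁ × E₂) →ₗ[ℝ] ℝ)
      (fderiv ℝ β q : (E₁ × E₂) →ₗ[ℝ] ℝ) (toL2 (fderiv ℝ (fderiv ℝ α) q))
      (toL2 (fderiv ℝ (fderiv ℝ β) q)) (mkD (finBasis ℝ E₁) (j1 (cf h) q))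
      (mkD2 (finBasis ℝ E₁) (j2 (cf h) q)) (mkD (finBasis ℝ E₂) (j1 (cf f) q))
      (mkD2 (finBasis ℝ E₂) (j2 (cf f) q)) :=
    { hA := by positivity
      hB := by positivity
      hh := nh
      hf := nf
      hg := block_form
      hD := block_D hh hf hα hβ
      hD2 := block_D2 hh hf hα hβ
      sa := fun u v => fderiv_fderiv_symm hα u v
      sb := fun u v => fderiv_fderiv_symm hβ u v
      sh := mkD_symm _ (j1_symm hsy)
      sf := mkD_symm _ (j1_symm fsy)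
      s2h := mkD2_symm _ (j2_symm hsy)
      s2f := mkD2_symm _ (j2_symm fsy)
      th := fun y => by
        unfold tr
        rw [hg1, ← hh1 y]
        refine Finset.sum_congr rfl fun i _ => Finset.sum_congr rfl fun j _ => ?_
        simp only [mkD_basis, j1_apply]
      tf := fun x => by
        unfold tr
        rw [hg2, ← hf1 x]
        refine Finset.sum_congr rfl fun i _ => Finset.sum_congr rfl fun j _ => ?_
        simp only [mkD_basis, j1_apply]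
      t2h := fun y y' => by
        rw [quad_rearrange ih hg1 (fun x : E₂ => mkD (finBasis ℝ E₁) (j1 (cf h) q) (0, x)) y y']
        simp only [mkD_basis, j1_apply]
        rw [← hh2 y' y]
        unfold tr
        rw [hg1]
        refine Finset.sum_congr rfl fun i _ => Finset.sum_congr rfl fun j _ => ?_
        simp only [mkD2_basis, j2_apply]
        rw [fderiv_fderiv_apply (hh i j)]
      t2f := fun x x' => by
        rw [quad_rearrange jf hg2 (fun x : E₁ => mkD (finBasis ℝ E₂) (j1 (cf f) q) (x, 0)) x x']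
        simp only [mkD_basis, j1_apply]
        rw [← hf2 x' x]
        unfold tr
        rw [hg2]
        refine Finset.sum_congr rfl fun i _ => Finset.sum_congr rfl fun j _ => ?_
        simp only [mkD2_basis, j2_apply]
        rw [fderiv_fderiv_apply (hf i j)] }
  -- the scalar curvature of the block metric
  have nprod : Nondeg ((finBasis ℝ E₁).prod (finBasis ℝ E₂)) (fB (blockMetric h f α β) q) :=
    nondeg_prod (nondeg_smul T.hA.ne' nh (H := Real.exp (α q) ^ 2 • mkB (finBasis ℝ E₁) fun i j => h q i j)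
      fun u v => rfl) (nondeg_smul T.hB.ne' nf (H := Real.exp (β q) ^ 2 • mkB (finBasis ℝ E₂) fun i j => f q i j)
      fun u v => rfl) fun u v => block_form u v
  have nfin : Nondeg (finBasis ℝ (E₁ × E₂)) (fB (blockMetric h f α β) q) := by
    refine ⟨nprod.symm, ?_⟩
    have h1 := (LinearMap.BilinForm.nondegenerate_iff_det_ne_zero
      (B := fB (blockMetric h f α β) q) ((finBasis ℝ E₁).prod (finBasis ℝ E₂))).mpr ?_
    · have h2 := (LinearMap.BilinForm.nondegenerate_iff_det_ne_zero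
        (B := fB (blockMetric h f α β) q) (finBasis ℝ (E₁ × E₂))).mp h1
      have h3 : gram (finBasis ℝ (E₁ × E₂)) (fB (blockMetric h f α β) q) =
          LinearMap.BilinForm.toMatrix (finBasis ℝ (E₁ × E₂)) (fB (blockMetric h f α β) q) := by
        ext i j
        rw [LinearMap.BilinForm.toMatrix_apply]
        rfl
      rw [h3]
      exact isUnit_iff_ne_zero.mpr h2
    · have h3 : LinearMap.BilinForm.toMatrix ((finBasis ℝ E₁).prod (finBasis ℝ E₂))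
          (fB (blockMetric h f α β) q) =
          gram ((finBasis ℝ E₁).prod (finBasis ℝ E₂)) (fB (blockMetric h f α β) q) := by
        ext i j
        rw [LinearMap.BilinForm.toMatrix_apply]
        rfl
      rw [h3]
      exact isUnit_iff_ne_zero.mp nprod.det
  have hs : Curv.scal (blockMetric h f α β) q = scal ((finBasis ℝ E₁).prod (finBasis ℝ E₂))
      (fB (blockMetric h f α β) q) (fD (blockMetric h f α β) q) (fD2 (blockMetric h f α β) q) := by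
    rw [scal_link (block_contDiffAt hh hf hα hβ), scal_basis _ _ nfin nprod]
  -- the slices
  have hS1 : Curv.scal (fun x => h (x, q.2)) q.1 = scal (finBasis ℝ E₁)
      (mkB (finBasis ℝ E₁) fun i j => h q i j) (r1 (mkD (finBasis ℝ E₁) (j1 (cf h) q)))
      (r11 (mkD2 (finBasis ℝ E₁) (j2 (cf h) q))) := by
    rw [scal_link (h := fun x => h (x, q.2)) (fun i j => slice1_contDiffAt (hh i j)),
      slice1_fD hh, slice1_fD2 hh]
  have hS2 : Curv.scal (fun y => f (q.1, y)) q.2 = scal (finBasis ℝ E₂)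
      (mkB (finBasis ℝ E₂) fun i j => f q i j) (r2 (mkD (finBasis ℝ E₂) (j1 (cf f) q)))
      (r22 (mkD2 (finBasis ℝ E₂) (j2 (cf f) q))) := by
    rw [scal_link (h := fun y => f (q.1, y)) (fun i j => slice2_contDiffAt (hf i j)),
      slice2_fD hf, slice2_fD2 hf]
  have cu : ContDiffAt ℝ ∞ u q := by
    rw [hu]
    exact lin_contDiffAt hα hβ _ _
  have cv : ContDiffAt ℝ ∞ v q := by
    rw [hv]
    exact lin_contDiffAt hβ hα _ _
  have du : ∀ w, fderiv ℝ u q w = ((finrank ℝ E₁ : ℝ) - 1) * fderiv ℝ α q w +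
      (finrank ℝ E₂ : ℝ) * fderiv ℝ β q w := fun w => by
    rw [hu]
    exact lin_fderiv hα hβ _ _ w
  have dv : ∀ w, fderiv ℝ v q w = ((finrank ℝ E₂ : ℝ) - 1) * fderiv ℝ β q w +
      (finrank ℝ E₁ : ℝ) * fderiv ℝ α q w := fun w => by
    rw [hv]
    exact lin_fderiv hβ hα _ _ w
  have ddu : ∀ w w', fderiv ℝ (fderiv ℝ u) q w w' =
      ((finrank ℝ E₁ : ℝ) - 1) * fderiv ℝ (fderiv ℝ α) q w w' +
      (finrank ℝ E₂ : ℝ) * fderiv ℝ (fderiv ℝ β) q w w' := fun w w' => by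
    rw [hu]
    exact lin_fderiv2 hα hβ _ _ w w'
  have ddv : ∀ w w', fderiv ℝ (fderiv ℝ v) q w w' =
      ((finrank ℝ E₂ : ℝ) - 1) * fderiv ℝ (fderiv ℝ β) q w w' +
      (finrank ℝ E₁ : ℝ) * fderiv ℝ (fderiv ℝ α) q w w' := fun w w' => by
    rw [hv]
    exact lin_fderiv2 hβ hα _ _ w w'
  have hL1 : lapC (fun x => h (x, q.2)) (fun x => u (x, q.2)) q.1 =
      ((finrank ℝ E₁ : ℝ) - 1) * lap (finBasis ℝ E₁) (mkB (finBasis ℝ E₁) fun i j => h q i j)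
        (r1 (mkD (finBasis ℝ E₁) (j1 (cf h) q))) (r1 (fderiv ℝ α q : (E₁ × E₂) →ₗ[ℝ] ℝ))
        (r11 (toL2 (fderiv ℝ (fderiv ℝ α) q))) +
      (finrank ℝ E₂ : ℝ) * lap (finBasis ℝ E₁) (mkB (finBasis ℝ E₁) fun i j => h q i j)
        (r1 (mkD (finBasis ℝ E₁) (j1 (cf h) q))) (r1 (fderiv ℝ β q : (E₁ × E₂) →ₗ[ℝ] ℝ))
        (r11 (toL2 (fderiv ℝ (fderiv ℝ β) q))) := by
    refine (lapC_link (h := fun x => h (x, q.2)) (u := fun x => u (x, q.2))
      (slice1_contDiffAt cu)).trans ?_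
    rw [slice1_fD hh]
    refine lap_linear _ _ _ _ _ _ _ _ _ (fun w => ?_) fun w w' => ?_
    · exact (slice1_fderiv cu w).trans (du _)
    · exact (slice1_fderiv2 cu w w').trans (ddu _ _)
  have hL2 : lapC (fun y => f (q.1, y)) (fun y => v (q.1, y)) q.2 =
      ((finrank ℝ E₂ : ℝ) - 1) * lap (finBasis ℝ E₂) (mkB (finBasis ℝ E₂) fun i j => f q i j)
        (r2 (mkD (finBasis ℝ E₂) (j1 (cf f) q))) (r2 (fderiv ℝ β q : (E₁ × E₂) →ₗ[ℝ] ℝ))
        (r22 (toL2 (fderiv ℝ (fderiv ℝ β) q))) +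
      (finrank ℝ E₁ : ℝ) * lap (finBasis ℝ E₂) (mkB (finBasis ℝ E₂) fun i j => f q i j)
        (r2 (mkD (finBasis ℝ E₂) (j1 (cf f) q))) (r2 (fderiv ℝ α q : (E₁ × E₂) →ₗ[ℝ] ℝ))
        (r22 (toL2 (fderiv ℝ (fderiv ℝ α) q))) := by
    refine (lapC_link (h := fun y => f (q.1, y)) (u := fun y => v (q.1, y))
      (slice2_contDiffAt cv)).trans ?_
    rw [slice2_fD hf]
    refine lap_linear _ _ _ _ _ _ _ _ _ (fun w => ?_) fun w w' => ?_
    · exact (slice2_fderiv cv w).trans (dv _)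
    · exact (slice2_fderiv2 cv w w').trans (ddv _ _)
  -- gradients
  have sub1 : ∀ w : E₁, fderiv ℝ (fun x => β (x, q.2) - α (x, q.2)) q.1 w =
      fderiv ℝ β q (w, 0) - fderiv ℝ α q (w, 0) := by
    intro w
    have c1 := (eventually_differentiableAt (slice1_contDiffAt hβ)).self_of_nhds
    have c2 := (eventually_differentiableAt (slice1_contDiffAt hα)).self_of_nhds
    rw [fderiv_fun_sub c1 c2, _root_.sub_apply, slice1_fderiv hβ, slice1_fderiv hα]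
  have sub2 : ∀ w : E₂, fderiv ℝ (fun y => α (q.1, y) - β (q.1, y)) q.2 w =
      fderiv ℝ α q (0, w) - fderiv ℝ β q (0, w) := by
    intro w
    have c1 := (eventually_differentiableAt (slice2_contDiffAt hα)).self_of_nhds
    have c2 := (eventually_differentiableAt (slice2_contDiffAt hβ)).self_of_nhds
    rw [fderiv_fun_sub c1 c2, _root_.sub_apply, slice2_fderiv hβ, slice2_fderiv hα]
  set a₁ : E₁ →ₗ[ℝ] ℝ := r1 (fderiv ℝ α q : (E₁ × E₂) →ₗ[ℝ] ℝ) with ha₁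
  set b₁ : E₁ →ₗ[ℝ] ℝ := r1 (fderiv ℝ β q : (E₁ × E₂) →ₗ[ℝ] ℝ) with hb₁
  set a₂ : E₂ →ₗ[ℝ] ℝ := r2 (fderiv ℝ α q : (E₁ × E₂) →ₗ[ℝ] ℝ) with ha₂
  set b₂ : E₂ →ₗ[ℝ] ℝ := r2 (fderiv ℝ β q : (E₁ × E₂) →ₗ[ℝ] ℝ) with hb₂
  have hG1 : gradC (fun x => h (x, q.2)) (fun x => β (x, q.2) - α (x, q.2))
      (fun x => u (x, q.2)) q.1 =
      ((finrank ℝ E₁ : ℝ) - 1) * (cop (finBasis ℝ E₁) (mkB (finBasis ℝ E₁) fun i j => h q i j)
        a₁ b₁ - cop (finBasis ℝ E₁) (mkB (finBasis ℝ E₁) fun i j => h q i j) a₁ a₁) +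
      (finrank ℝ E₂ : ℝ) * (cop (finBasis ℝ E₁) (mkB (finBasis ℝ E₁) fun i j => h q i j)
        b₁ b₁ - cop (finBasis ℝ E₁) (mkB (finBasis ℝ E₁) fun i j => h q i j) a₁ b₁) := by
    refine (gradC_link (h := fun x => h (x, q.2))).trans ?_
    refine (cop_congr (ξ' := (b₁ : E₁ → ℝ) - (a₁ : E₁ → ℝ))
      (η' := ((finrank ℝ E₁ : ℝ) - 1) • (a₁ : E₁ → ℝ) + (finrank ℝ E₂ : ℝ) • (b₁ : E₁ → ℝ))
      (fun w => sub1 w) (fun w => (slice1_fderiv cu w).trans (du _))).trans ?_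
    rw [cop_sub_left, cop_add_right, cop_add_right, cop_smul_right, cop_smul_right,
      cop_smul_right, cop_smul_right]
    have hc := cop_comm nh b₁ a₁
    change ((finrank ℝ E₁ : ℝ) - 1) * cop (finBasis ℝ E₁)
      (mkB (finBasis ℝ E₁) fun i j => h q i j) b₁ a₁ + _ - _ = _
    rw [hc]
    ring
  have hG2 : gradC (fun y => f (q.1, y)) (fun y => α (q.1, y) - β (q.1, y))
      (fun y => v (q.1, y)) q.2 =
      ((finrank ℝ E₂ : ℝ) - 1) * (cop (finBasis ℝ E₂) (mkB (finBasis ℝ E₂) fun i j => f q i j)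
        b₂ a₂ - cop (finBasis ℝ E₂) (mkB (finBasis ℝ E₂) fun i j => f q i j) b₂ b₂) +
      (finrank ℝ E₁ : ℝ) * (cop (finBasis ℝ E₂) (mkB (finBasis ℝ E₂) fun i j => f q i j)
        a₂ a₂ - cop (finBasis ℝ E₂) (mkB (finBasis ℝ E₂) fun i j => f q i j) b₂ a₂) := by
    refine (gradC_link (h := fun y => f (q.1, y))).trans ?_
    refine (cop_congr (ξ' := (a₂ : E₂ → ℝ) - (b₂ : E₂ → ℝ))
      (η' := ((finrank ℝ E₂ : ℝ) - 1) • (b₂ : E₂ → ℝ) + (finrank ℝ E₁ : ℝ) • (a₂ : E₂ → ℝ))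
      (fun w => sub2 w) (fun w => (slice2_fderiv cv w).trans (dv _))).trans ?_
    rw [cop_sub_left, cop_add_right, cop_add_right, cop_smul_right, cop_smul_right,
      cop_smul_right, cop_smul_right]
    have hc := cop_comm nf a₂ b₂
    change ((finrank ℝ E₂ : ℝ) - 1) * cop (finBasis ℝ E₂)
      (mkB (finBasis ℝ E₂) fun i j => f q i j) a₂ b₂ + _ - _ = _
    rw [hc]
    ring
  -- the inequality
  have hWA : Real.exp (α q + β q) * (Real.exp (α q) ^ 2)⁻¹ = Real.exp (β q - α q) := by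
    rw [Real.exp_add, Real.exp_sub]
    field_simp
  have hWB : Real.exp (α q + β q) * (Real.exp (β q) ^ 2)⁻¹ = (Real.exp (β q - α q))⁻¹ := by
    rw [Real.exp_add, Real.exp_sub]
    field_simp
  have hcinv : (Real.exp (β q - α q))⁻¹ = Real.exp (α q - β q) := by
    rw [← Real.exp_neg]
    congr 1
    ring
  have hm : (1 : ℝ) ≤ Fintype.card (Fin (finrank ℝ E₁)) := by
    rw [Fintype.card_fin]
    exact_mod_cast hd₁
  have hk : (1 : ℝ) ≤ Fintype.card (Fin (finrank ℝ E₂)) := by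
    rw [Fintype.card_fin]
    exact_mod_cast hd₂
  have key := T.ineq (by rw [hg1]; exact hhq) (by rw [hg2]; exact hfq) hm hk
    (Real.exp_pos (β q - α q)) hWA hWB
  rw [hcinv, Fintype.card_fin, Fintype.card_fin, ← hs, ← hS1, ← hS2] at key
  rw [hL1, hL2, hG1, hG2]
  linarith [key]

end Pool.Agent.Lib.MP_df705a_gt.Twist
end
end

section

/-!
# The vector density
-/

open scoped Manifold ContDiff Topology
open Set Module Filter

noncomputable section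

namespace Pool.Agent.Lib.MP_df705a_gt.Twist

variable {E₁ : Type*} [NormedAddCommGroup E₁] [NormedSpace ℝ E₁] [FiniteDimensional ℝ E₁]
  {E₂ : Type*} [NormedAddCommGroup E₂] [NormedSpace ℝ E₂] [FiniteDimensional ℝ E₂]

/-- The function `(m - 1) α + k β`. -/
def pot₁ (α β : E₁ × E₂ → ℝ) (q : E₁ × E₂) : ℝ :=
  ((finrank ℝ E₁ : ℝ) - 1) * α q + (finrank ℝ E₂ : ℝ) * β q

/-- The function `(k - 1) β + m α`. -/
def pot₂ (α β : E₁ × E₂ → ℝ) (q : E₁ × E₂) : ℝ :=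
  ((finrank ℝ E₂ : ℝ) - 1) * β q + (finrank ℝ E₁ : ℝ) * α q

/-- The density `√ det h √ det f`. -/
def dens {m k : ℕ} (h : E₁ × E₂ → Matrix (Fin m) (Fin m) ℝ)
    (f : E₁ × E₂ → Matrix (Fin k) (Fin k) ℝ) (q : E₁ × E₂) : ℝ :=
  √ (h q).det * √ (f q).det

/-- The vector density. -/
def Zfield (h : E₁ × E₂ → Matrix (Fin (finrank ℝ E₁)) (Fin (finrank ℝ E₁)) ℝ)
    (f : E₁ × E₂ → Matrix (Fin (finrank ℝ E₂)) (Fin (finrank ℝ E₂)) ℝ) (α β : E₁ × E₂ → ℝ)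
    (q : E₁ × E₂) : E₁ × E₂ :=
  ((Real.exp (β q - α q) * dens h f q) • gradM (finBasis ℝ E₁) (h q)
      ((fderiv ℝ (pot₁ α β) q).comp (ContinuousLinearMap.inl ℝ E₁ E₂)),
    (Real.exp (α q - β q) * dens h f q) • gradM (finBasis ℝ E₂) (f q)
      ((fderiv ℝ (pot₂ α β) q).comp (ContinuousLinearMap.inr ℝ E₁ E₂)))

/-! ### The trace of the derivative of a map between products -/

theorem trace_prod (L : E₁ × E₂ →L[ℝ] E₁ × E₂) :
    LinearMap.trace ℝ (E₁ × E₂) (L : E₁ × E₂ →ₗ[ℝ] E₁ × E₂) =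
      LinearMap.trace ℝ E₁ (((ContinuousLinearMap.fst ℝ E₁ E₂).comp
        (L.comp (ContinuousLinearMap.inl ℝ E₁ E₂)) : E₁ →L[ℝ] E₁) : E₁ →ₗ[ℝ] E₁) +
      LinearMap.trace ℝ E₂ (((ContinuousLinearMap.snd ℝ E₁ E₂).comp
        (L.comp (ContinuousLinearMap.inr ℝ E₁ E₂)) : E₂ →L[ℝ] E₂) : E₂ →ₗ[ℝ] E₂) := by
  rw [LinearMap.trace_eq_matrix_trace ℝ ((finBasis ℝ E₁).prod (finBasis ℝ E₂)),
    LinearMap.trace_eq_matrix_trace ℝ (finBasis ℝ E₁),
    LinearMap.trace_eq_matrix_trace ℝ (finBasis ℝ E₂)]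
  unfold Matrix.trace
  rw [Fintype.sum_sum_type]
  congr 1
  · apply Finset.sum_congr rfl
    intro i _
    have h1 : ((finBasis ℝ E₁).prod (finBasis ℝ E₂)) (Sum.inl i) = (finBasis ℝ E₁ i, 0) := by
      ext1
      · rw [Basis.prod_apply_inl_fst]
      · rw [Basis.prod_apply_inl_snd]
    rw [Matrix.diag_apply, Matrix.diag_apply, LinearMap.toMatrix_apply, LinearMap.toMatrix_apply,
      h1, Basis.prod_repr_inl]
    rfl
  · apply Finset.sum_congr rfl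
    intro i _
    have h1 : ((finBasis ℝ E₁).prod (finBasis ℝ E₂)) (Sum.inr i) = (0, finBasis ℝ E₂ i) := by
      ext1
      · rw [Basis.prod_apply_inr_fst]
      · rw [Basis.prod_apply_inr_snd]
    rw [Matrix.diag_apply, Matrix.diag_apply, LinearMap.toMatrix_apply, LinearMap.toMatrix_apply,
      h1, Basis.prod_repr_inr]
    rfl

theorem dv_prod {Z : E₁ × E₂ → E₁ × E₂} {q : E₁ × E₂} (hZ : DifferentiableAt ℝ Z q) :
    dv Z q = dv (fun x => (Z (x, q.2)).1) q.1 + dv (fun y => (Z (q.1, y)).2) q.2 := by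
  have h1 : HasFDerivAt (fun x => (Z (x, q.2)).1)
      ((ContinuousLinearMap.fst ℝ E₁ E₂).comp
        ((fderiv ℝ Z q).comp (ContinuousLinearMap.inl ℝ E₁ E₂))) q.1 := by
    have h2 : HasFDerivAt (fun x : E₁ => (x, q.2)) (ContinuousLinearMap.inl ℝ E₁ E₂) q.1 :=
      hasFDerivAt_prodMk_left q.1 q.2
    have h3 : HasFDerivAt Z (fderiv ℝ Z q) (q.1, q.2) := hZ.hasFDerivAt
    exact hasFDerivAt_fst.comp q.1 (h3.comp q.1 h2)
  have h1' : HasFDerivAt (fun y => (Z (q.1, y)).2)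
      ((ContinuousLinearMap.snd ℝ E₁ E₂).comp
        ((fderiv ℝ Z q).comp (ContinuousLinearMap.inr ℝ E₁ E₂))) q.2 := by
    have h2 : HasFDerivAt (fun y : E₂ => (q.1, y)) (ContinuousLinearMap.inr ℝ E₁ E₂) q.2 :=
      hasFDerivAt_prodMk_right q.1 q.2
    have h3 : HasFDerivAt Z (fderiv ℝ Z q) (q.1, q.2) := hZ.hasFDerivAt
    exact hasFDerivAt_snd.comp q.2 (h3.comp q.2 h2)
  unfold dv
  rw [h1.fderiv, h1'.fderiv]
  exact trace_prod _

theorem dv_congr {E : Type*} [NormedAddCommGroup E] [NormedSpace ℝ E] [FiniteDimensional ℝ E]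
    {Z Z' : E → E} {x : E} (h : Z =ᶠ[𝓝 x] Z') : dv Z x = dv Z' x := by
  unfold dv
  rw [h.fderiv_eq]

section chart

variable {T₁ : Set E₁} {T₂ : Set E₂}
  {h : E₁ × E₂ → Matrix (Fin (finrank ℝ E₁)) (Fin (finrank ℝ E₁)) ℝ}
  {f : E₁ × E₂ → Matrix (Fin (finrank ℝ E₂)) (Fin (finrank ℝ E₂)) ℝ} {α β : E₁ × E₂ → ℝ}

theorem gradM_contDiffAt {E F : Type*} [NormedAddCommGroup E] [NormedSpace ℝ E]
    [NormedAddCommGroup F] [NormedSpace ℝ F]
    {κ : Type*} [Fintype κ] [DecidableEq κ] (b : Basis κ ℝ E) {h : F → Matrix κ κ ℝ}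
    {L : F → E →L[ℝ] ℝ} {x : F} {n : WithTop ℕ∞}
    (hh : ∀ i j, ContDiffAt ℝ n (fun y => h y i j) x) (hdet : (h x).det ≠ 0)
    (hL : ContDiffAt ℝ n L x) : ContDiffAt ℝ n (fun y => gradM b (h y) (L y)) x := by
  unfold gradM
  refine ContDiffAt.sum fun i _ => ?_
  refine ContDiffAt.smul ?_ contDiffAt_const
  refine ContDiffAt.sum fun j _ => ?_
  exact (contDiffAt_inv hh hdet i j).mul (hL.clm_apply contDiffAt_const)

theorem Zfield_contDiffAt {q : E₁ × E₂}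
    (hh : ∀ i j, ContDiffAt ℝ ∞ (fun q => h q i j) q)
    (hf : ∀ i j, ContDiffAt ℝ ∞ (fun q => f q i j) q)
    (hα : ContDiffAt ℝ ∞ α q) (hβ : ContDiffAt ℝ ∞ β q)
    (hhp : (h q).PosDef) (hfp : (f q).PosDef) : ContDiffAt ℝ 1 (Zfield h f α β) q := by
  have hdh : (h q).det ≠ 0 := hhp.det_pos.ne'
  have hdf : (f q).det ≠ 0 := hfp.det_pos.ne'
  have hh1 : ∀ i j, ContDiffAt ℝ 1 (fun q => h q i j) q := fun i j => (hh i j).of_le (by norm_num)
  have hf1 : ∀ i j, ContDiffAt ℝ 1 (fun q => f q i j) q := fun i j => (hf i j).of_le (by norm_num)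
  have hα1 : ContDiffAt ℝ 1 α q := hα.of_le (by norm_num)
  have hβ1 : ContDiffAt ℝ 1 β q := hβ.of_le (by norm_num)
  have hdens : ContDiffAt ℝ 1 (dens h f) q :=
    ((contDiffAt_det hh1).sqrt hdh).mul ((contDiffAt_det hf1).sqrt hdf)
  have hu : ContDiffAt ℝ ∞ (pot₁ α β) q :=
    (contDiffAt_const.mul hα).add (contDiffAt_const.mul hβ)
  have hv : ContDiffAt ℝ ∞ (pot₂ α β) q :=
    (contDiffAt_const.mul hβ).add (contDiffAt_const.mul hα)
  have hu1 : ContDiffAt ℝ 1 (fderiv ℝ (pot₁ α β)) q :=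
    (hu.fderiv_right (m := ∞) (by simp)).of_le (by norm_num)
  have hv1 : ContDiffAt ℝ 1 (fderiv ℝ (pot₂ α β)) q :=
    (hv.fderiv_right (m := ∞) (by simp)).of_le (by norm_num)
  refine ContDiffAt.prodMk ?_ ?_
  · refine ContDiffAt.smul ((hβ1.sub hα1).exp.mul hdens) ?_
    exact gradM_contDiffAt _ hh1 hdh (hu1.clm_comp contDiffAt_const)
  · refine ContDiffAt.smul ((hα1.sub hβ1).exp.mul hdens) ?_
    exact gradM_contDiffAt _ hf1 hdf (hv1.clm_comp contDiffAt_const)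

theorem dv_Zfield (hT₁ : IsOpen T₁) (hT₂ : IsOpen T₂)
    (hh : ∀ i j, ContDiffOn ℝ ∞ (fun q => h q i j) (T₁ ×ˢ T₂))
    (hf : ∀ i j, ContDiffOn ℝ ∞ (fun q => f q i j) (T₁ ×ˢ T₂))
    (hα : ContDiffOn ℝ ∞ α (T₁ ×ˢ T₂)) (hβ : ContDiffOn ℝ ∞ β (T₁ ×ˢ T₂))
    (hhp : ∀ q ∈ T₁ ×ˢ T₂, (h q).PosDef) (hfp : ∀ q ∈ T₁ ×ˢ T₂, (f q).PosDef)
    (hhd : ∀ x ∈ T₁, ∀ y ∈ T₂, ∀ y' ∈ T₂, (h (x, y)).det = (h (x, y')).det)
    (hfd : ∀ x ∈ T₁, ∀ x' ∈ T₁, ∀ y ∈ T₂, (f (x, y)).det = (f (x', y)).det)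
    {q : E₁ × E₂} (hq : q ∈ T₁ ×ˢ T₂) :
    dv (Zfield h f α β) q =
      dens h f q * (Real.exp (β q - α q) *
        (lapC (fun x => h (x, q.2)) (fun x => pot₁ α β (x, q.2)) q.1 +
          gradC (fun x => h (x, q.2)) (fun x => β (x, q.2) - α (x, q.2))
            (fun x => pot₁ α β (x, q.2)) q.1) +
        Real.exp (α q - β q) *
        (lapC (fun y => f (q.1, y)) (fun y => pot₂ α β (q.1, y)) q.2 +
          gradC (fun y => f (q.1, y)) (fun y => α (q.1, y) - β (q.1, y))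
            (fun y => pot₂ α β (q.1, y)) q.2)) := by
  have hT : IsOpen (T₁ ×ˢ T₂) := hT₁.prod hT₂
  have at_of : ∀ {φ : E₁ × E₂ → ℝ}, ContDiffOn ℝ ∞ φ (T₁ ×ˢ T₂) → ∀ p ∈ T₁ ×ˢ T₂,
      ContDiffAt ℝ ∞ φ p := fun hφ p hp => hφ.contDiffAt (hT.mem_nhds hp)
  have hZ := (Zfield_contDiffAt (fun i j => at_of (hh i j) q hq) (fun i j => at_of (hf i j) q hq)
    (at_of hα q hq) (at_of hβ q hq) (hhp q hq) (hfp q hq)).differentiableAt one_ne_zero
  have hpot₁ : ContDiffOn ℝ ∞ (pot₁ α β) (T₁ ×ˢ T₂) :=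
    (contDiffOn_const.mul hα).add (contDiffOn_const.mul hβ)
  have hpot₂ : ContDiffOn ℝ ∞ (pot₂ α β) (T₁ ×ˢ T₂) :=
    (contDiffOn_const.mul hβ).add (contDiffOn_const.mul hα)
  have sl₁ : ∀ {φ : E₁ × E₂ → ℝ}, ContDiffOn ℝ ∞ φ (T₁ ×ˢ T₂) →
      ContDiffAt ℝ ∞ (fun x => φ (x, q.2)) q.1 := by
    intro φ hφ
    have h1 : ContDiffAt ℝ ∞ φ ((fun x : E₁ => (x, q.2)) q.1) := at_of hφ q hq
    exact h1.comp q.1 (contDiffAt_id.prodMk contDiffAt_const)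
  have sl₂ : ∀ {φ : E₁ × E₂ → ℝ}, ContDiffOn ℝ ∞ φ (T₁ ×ˢ T₂) →
      ContDiffAt ℝ ∞ (fun y => φ (q.1, y)) q.2 := by
    intro φ hφ
    have h1 : ContDiffAt ℝ ∞ φ ((fun y : E₂ => (q.1, y)) q.2) := at_of hφ q hq
    exact h1.comp q.2 (contDiffAt_const.prodMk contDiffAt_id)
  rw [dv_prod hZ]
  have e1 : (fun x => (Zfield h f α β (x, q.2)).1) =ᶠ[𝓝 q.1]
      fun x => (√ (f q).det * (Real.exp (β (x, q.2) - α (x, q.2)) * √ (h (x, q.2)).det)) •
        gradM (finBasis ℝ E₁) (h (x, q.2)) (fderiv ℝ (fun x => pot₁ α β (x, q.2)) x) := by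
    filter_upwards [hT₁.mem_nhds hq.1] with x hx
    have h1 : fderiv ℝ (fun x => pot₁ α β (x, q.2)) x =
        (fderiv ℝ (pot₁ α β) (x, q.2)).comp (ContinuousLinearMap.inl ℝ E₁ E₂) := by
      have h2 : HasFDerivAt (fun x : E₁ => (x, q.2)) (ContinuousLinearMap.inl ℝ E₁ E₂) x :=
        hasFDerivAt_prodMk_left x q.2
      have h3 : DifferentiableAt ℝ (pot₁ α β) (x, q.2) :=
        (at_of hpot₁ (x, q.2) ⟨hx, hq.2⟩).differentiableAt (by norm_num)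
      exact (h3.hasFDerivAt.comp x h2).fderiv
    have h4 : (f (x, q.2)).det = (f q).det := hfd x hx q.1 hq.1 q.2 hq.2
    unfold Zfield dens
    simp only
    rw [h1, h4]
    congr 1
    ring
  have e2 : (fun y => (Zfield h f α β (q.1, y)).2) =ᶠ[𝓝 q.2]
      fun y => (√ (h q).det * (Real.exp (α (q.1, y) - β (q.1, y)) * √ (f (q.1, y)).det)) •
        gradM (finBasis ℝ E₂) (f (q.1, y)) (fderiv ℝ (fun y => pot₂ α β (q.1, y)) y) := by
    filter_upwards [hT₂.mem_nhds hq.2] with y hy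
    have h1 : fderiv ℝ (fun y => pot₂ α β (q.1, y)) y =
        (fderiv ℝ (pot₂ α β) (q.1, y)).comp (ContinuousLinearMap.inr ℝ E₁ E₂) := by
      have h2 : HasFDerivAt (fun y : E₂ => (q.1, y)) (ContinuousLinearMap.inr ℝ E₁ E₂) y :=
        hasFDerivAt_prodMk_right q.1 y
      have h3 : DifferentiableAt ℝ (pot₂ α β) (q.1, y) :=
        (at_of hpot₂ (q.1, y) ⟨hq.1, hy⟩).differentiableAt (by norm_num)
      exact (h3.hasFDerivAt.comp y h2).fderiv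
    have h4 : (h (q.1, y)).det = (h q).det := hhd q.1 hq.1 y hy q.2 hq.2
    unfold Zfield dens
    simp only
    rw [h1, h4]
    congr 1
    ring
  rw [dv_congr e1, dv_congr e2]
  have ev₁ : ∀ᶠ x in 𝓝 q.1, (h (x, q.2)).PosDef := by
    filter_upwards [hT₁.mem_nhds hq.1] with x hx
    exact hhp _ ⟨hx, hq.2⟩
  have ev₂ : ∀ᶠ y in 𝓝 q.2, (f (q.1, y)).PosDef := by
    filter_upwards [hT₂.mem_nhds hq.2] with y hy
    exact hfp _ ⟨hq.1, hy⟩
  rw [dv_slice (h := fun x => h (x, q.2)) (ψ := fun x => β (x, q.2) - α (x, q.2))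
      (fun i j => sl₁ (hh i j)) ev₁ ((sl₁ hβ).sub (sl₁ hα)) (sl₁ hpot₁),
    dv_slice (h := fun y => f (q.1, y)) (ψ := fun y => α (q.1, y) - β (q.1, y))
      (fun i j => sl₂ (hf i j)) ev₂ ((sl₂ hα).sub (sl₂ hβ)) (sl₂ hpot₂)]
  unfold dens
  simp only [Prod.mk.eta]
  ring

theorem chart_ineq (hd₁ : 0 < finrank ℝ E₁) (hd₂ : 0 < finrank ℝ E₂)
    (hT₁ : IsOpen T₁) (hT₂ : IsOpen T₂)
    (hh : ∀ i j, ContDiffOn ℝ ∞ (fun q => h q i j) (T₁ ×ˢ T₂))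
    (hf : ∀ i j, ContDiffOn ℝ ∞ (fun q => f q i j) (T₁ ×ˢ T₂))
    (hα : ContDiffOn ℝ ∞ α (T₁ ×ˢ T₂)) (hβ : ContDiffOn ℝ ∞ β (T₁ ×ˢ T₂))
    (hhp : ∀ q ∈ T₁ ×ˢ T₂, (h q).PosDef) (hfp : ∀ q ∈ T₁ ×ˢ T₂, (f q).PosDef)
    (hhd : ∀ x ∈ T₁, ∀ y ∈ T₂, ∀ y' ∈ T₂, (h (x, y)).det = (h (x, y')).det)
    (hfd : ∀ x ∈ T₁, ∀ x' ∈ T₁, ∀ y ∈ T₂, (f (x, y)).det = (f (x', y)).det)
    {q : E₁ × E₂} (hq : q ∈ T₁ ×ˢ T₂)
    (hs₁ : Curv.scal (fun x => h (x, q.2)) q.1 ≤ 0) (hs₂ : Curv.scal (fun y => f (q.1, y)) q.2 ≤ 0)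
    (hpos : 0 < Curv.scal (blockMetric h f α β) q) :
    dv (Zfield h f α β) q < 0 := by
  have hT : IsOpen (T₁ ×ˢ T₂) := hT₁.prod hT₂
  have at_of : ∀ {φ : E₁ × E₂ → ℝ}, ContDiffOn ℝ ∞ φ (T₁ ×ˢ T₂) → ∀ p ∈ T₁ ×ˢ T₂,
      ContDiffAt ℝ ∞ φ p := fun hφ p hp => hφ.contDiffAt (hT.mem_nhds hp)
  have hhe : ∀ᶠ q in 𝓝 q, (h q).PosDef := by
    filter_upwards [hT.mem_nhds hq] with p hp using hhp p hp
  have hfe : ∀ᶠ q in 𝓝 q, (f q).PosDef := by
    filter_upwards [hT.mem_nhds hq] with p hp using hfp p hp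
  have hf1 : ∀ x : E₁, ∀ p ∈ T₁ ×ˢ T₂, fderiv ℝ (fun p => (f p).det) p (x, 0) = 0 :=
    fun x p hp => fderiv_left_eq_zero hT₁ hp hfd x
  have hh1 : ∀ y : E₂, ∀ p ∈ T₁ ×ˢ T₂, fderiv ℝ (fun p => (h p).det) p (0, y) = 0 :=
    fun y p hp => fderiv_right_eq_zero hT₂ hp hhd y
  have key := point_ineq hd₁ hd₂ h f α β (q := q)
    (fun i j => at_of (hh i j) q hq) (fun i j => at_of (hf i j) q hq)
    (at_of hα q hq) (at_of hβ q hq) hhe hfe
    (fun x => det_dir1 (fun i j => (at_of (hf i j) q hq).of_le (by norm_num)) hfe (hf1 x q hq))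
    (fun x x' => det_dir2 (fun i j => at_of (hf i j) q hq) hfe (by
      filter_upwards [hT.mem_nhds hq] with p hp using hf1 x p hp) (x', 0))
    (fun y => det_dir1 (fun i j => (at_of (hh i j) q hq).of_le (by norm_num)) hhe (hh1 y q hq))
    (fun y y' => det_dir2 (fun i j => at_of (hh i j) q hq) hhe (by
      filter_upwards [hT.mem_nhds hq] with p hp using hh1 y p hp) (0, y'))
    (pot₁ α β) (pot₂ α β) rfl rfl
  rw [dv_Zfield hT₁ hT₂ hh hf hα hβ hhp hfp hhd hfd hq]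
  have hw : 0 < dens h f q :=
    mul_pos (Real.sqrt_pos.2 (hhp q hq).det_pos) (Real.sqrt_pos.2 (hfp q hq).det_pos)
  have h1 : 0 < Real.exp (α q + β q) * Curv.scal (blockMetric h f α β) q :=
    mul_pos (Real.exp_pos _) hpos
  have h2 : Real.exp (β q - α q) * Curv.scal (fun x => h (x, q.2)) q.1 ≤ 0 :=
    mul_nonpos_of_nonneg_of_nonpos (Real.exp_pos _).le hs₁
  have h3 : Real.exp (α q - β q) * Curv.scal (fun y => f (q.1, y)) q.2 ≤ 0 :=
    mul_nonpos_of_nonneg_of_nonpos (Real.exp_pos _).le hs₂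
  apply mul_neg_of_pos_of_neg hw
  linarith

end chart

end Pool.Agent.Lib.MP_df705a_gt.Twist
end
end

section

/-!
# Metrics with a horizontally conformal projection, in coordinates

The coordinates are `q = (x, y)` in `E₁ × E₂`; the metric is
`e^{2α} h(dx, dx) + e^{2β} f(dy - Γ dx, dy - Γ dx)`, where `h` depends on `x` only.
-/

open scoped Manifold ContDiff Topology
open Set Bundle Module Filter

noncomputable section

namespace Pool.Agent.Lib.MP_df705a_gt.Sub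

open Pool.Agent.Lib.MP_df705a_gt.Twist

variable {E : Type*} [NormedAddCommGroup E] [NormedSpace ℝ E] [FiniteDimensional ℝ E]
  {E₁ : Type*} [NormedAddCommGroup E₁] [NormedSpace ℝ E₁] [FiniteDimensional ℝ E₁]
  {E₂ : Type*} [NormedAddCommGroup E₂] [NormedSpace ℝ E₂] [FiniteDimensional ℝ E₂]

/-- The bilinear form with the matrix `M`. -/
def mB (M : Matrix (Fin (finrank ℝ E)) (Fin (finrank ℝ E)) ℝ) (v w : E) : ℝ :=
  ∑ i, ∑ j, M i j * ((finBasis ℝ E).repr v i * (finBasis ℝ E).repr w j)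

/-- The square of the length of the covector `ξ` for the scalar product with the matrix `M`. -/
def cnorm (M : Matrix (Fin (finrank ℝ E)) (Fin (finrank ℝ E)) ℝ) (ξ : E → ℝ) : ℝ :=
  ∑ i, ∑ j, M⁻¹ i j * (ξ (finBasis ℝ E i) * ξ (finBasis ℝ E j))

/-- The gradient of the covector `ξ` for the scalar product with the matrix `M`. -/
def cgrad (M : Matrix (Fin (finrank ℝ E)) (Fin (finrank ℝ E)) ℝ) (ξ : E → ℝ) : E :=
  ∑ i, (∑ j, M⁻¹ i j * ξ (finBasis ℝ E j)) • finBasis ℝ E i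

/-- The metric `e^{2α} h(dx, dx) + e^{2β} f(dy - Γ dx, dy - Γ dx)`. -/
def connMetric (h : Curv.Coeff E₁) (f : E₁ × E₂ → Matrix (Fin (finrank ℝ E₂)) (Fin (finrank ℝ E₂)) ℝ)
    (Γ : E₁ × E₂ → E₁ →L[ℝ] E₂) (α β : E₁ × E₂ → ℝ) : Curv.Coeff (E₁ × E₂) := fun q i j =>
  Real.exp (α q) ^ 2 * mB (h q.1) (finBasis ℝ (E₁ × E₂) i).1 (finBasis ℝ (E₁ × E₂) j).1 +
  Real.exp (β q) ^ 2 * mB (f q)
    ((finBasis ℝ (E₁ × E₂) i).2 - Γ q (finBasis ℝ (E₁ × E₂) i).1)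
    ((finBasis ℝ (E₁ × E₂) j).2 - Γ q (finBasis ℝ (E₁ × E₂) j).1)

/-- The horizontal lift of the vector `u`. -/
def lift (Γ : E₁ × E₂ → E₁ →L[ℝ] E₂) (q : E₁ × E₂) (u : E₁) : E₁ × E₂ := (u, Γ q u)

/-- The derivative of `φ` in the horizontal direction over `u`. -/
def hd (Γ : E₁ × E₂ → E₁ →L[ℝ] E₂) (φ : E₁ × E₂ → ℝ) (q : E₁ × E₂) (u : E₁) : ℝ :=
  fderiv ℝ φ q (lift Γ q u)

/-- The rate of change of the vertical volume density `√(det f) dy` along the horizontal lift of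
`u`: `½ X_u log det f + div_y (Γ u)`. -/
def expn (f : E₁ × E₂ → Matrix (Fin (finrank ℝ E₂)) (Fin (finrank ℝ E₂)) ℝ)
    (Γ : E₁ × E₂ → E₁ →L[ℝ] E₂) (q : E₁ × E₂) (u : E₁) : ℝ :=
  (1 / 2) * hd Γ (fun p => Real.log (f p).det) q u + dv (fun y => Γ (q.1, y) u) q.2

/-- The covector `(m - 1) X α + k X β + expn`. -/
def cov (f : E₁ × E₂ → Matrix (Fin (finrank ℝ E₂)) (Fin (finrank ℝ E₂)) ℝ)
    (Γ : E₁ × E₂ → E₁ →L[ℝ] E₂) (α β : E₁ × E₂ → ℝ) (q : E₁ × E₂) (u : E₁) : ℝ :=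
  ((finrank ℝ E₁ : ℝ) - 1) * hd Γ α q u + (finrank ℝ E₂ : ℝ) * hd Γ β q u + expn f Γ q u

/-- The density `√ det h √ det f`. -/
def dns (h : Curv.Coeff E₁) (f : E₁ × E₂ → Matrix (Fin (finrank ℝ E₂)) (Fin (finrank ℝ E₂)) ℝ)
    (q : E₁ × E₂) : ℝ :=
  √ (h q.1).det * √ (f q).det

/-- The vector density. -/
def Zc (h : Curv.Coeff E₁) (f : E₁ × E₂ → Matrix (Fin (finrank ℝ E₂)) (Fin (finrank ℝ E₂)) ℝ)
    (Γ : E₁ × E₂ → E₁ →L[ℝ] E₂) (α β : E₁ × E₂ → ℝ) (q : E₁ × E₂) : E₁ × E₂ :=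
  (Real.exp (β q - α q) * dns h f q) • lift Γ q (cgrad (h q.1) (cov f Γ α β q)) +
    (0, (Real.exp (α q - β q) * dns h f q) •
      cgrad (f q) (fun v => fderiv ℝ (pot₂ α β) q (0, v)))

/-- Smooth data near the point `q`, with positive definite matrices. -/
structure Dat (h : Curv.Coeff E₁)
    (f : E₁ × E₂ → Matrix (Fin (finrank ℝ E₂)) (Fin (finrank ℝ E₂)) ℝ)
    (Γ : E₁ × E₂ → E₁ →L[ℝ] E₂) (α β : E₁ × E₂ → ℝ) (q : E₁ × E₂) : Prop where
  h_smooth : ∀ i j, ContDiffAt ℝ ∞ (fun x => h x i j) q.1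
  f_smooth : ∀ i j, ContDiffAt ℝ ∞ (fun p => f p i j) q
  Γ_smooth : ContDiffAt ℝ ∞ Γ q
  α_smooth : ContDiffAt ℝ ∞ α q
  β_smooth : ContDiffAt ℝ ∞ β q
  h_pos : ∀ᶠ x in 𝓝 q.1, (h x).PosDef
  f_pos : ∀ᶠ p in 𝓝 q, (f p).PosDef

/-- The right hand side of the inequality. -/
def rhs (h : Curv.Coeff E₁) (f : E₁ × E₂ → Matrix (Fin (finrank ℝ E₂)) (Fin (finrank ℝ E₂)) ℝ)
    (Γ : E₁ × E₂ → E₁ →L[ℝ] E₂) (α β : E₁ × E₂ → ℝ) (q : E₁ × E₂) : ℝ :=
  dns h f q *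
    ((Real.exp (β q - α q) * (Curv.scal h q.1 -
        ((finrank ℝ E₁ : ℝ) - 1) * cnorm (h q.1) (hd Γ α q)) +
      Real.exp (α q - β q) * Curv.scal (fun y => f (q.1, y)) q.2 -
      Real.exp (α q + β q) * Curv.scal (connMetric h f Γ α β) q) / 2)

end Pool.Agent.Lib.MP_df705a_gt.Sub
end
end
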