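import Pool.Agent.Lib.MP_df705a_gt.Mg.G054
import Pool.Agent.Lib.MP_df705a_gt.Mg.G056
import Pool.Agent.Lib.MP_df705a_gt.Mg.G057
import Pool.Agent.Lib.MP_df705a_gt.Mg.G055

section

/-!
# Horizontally conformal submersions with one-dimensional fibres: definitions

Local coordinates: `q = (x, y)` in `E₁ × ℝ`, the submersion is `(x, y) ↦ x`; the metric is
`h(dx, dx) + (e^β (dy - Γ dx))²` where `h` depends on `x` only.
-/

open scoped Manifold ContDiff Topology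
open Set Bundle Module Filter

noncomputable section

namespace Pool.Agent.Lib.MP_df705a_gt.Circ

open Pool.Agent.Lib.MP_df705a_gt.Twist Pool.Agent.Lib.MP_df705a_gt.Perm
open Pool.Agent.Lib.MP_df705a_gt.Sub (mB)

section local_defs

variable {E₁ : Type*} [NormedAddCommGroup E₁] [NormedSpace ℝ E₁] [FiniteDimensional ℝ E₁]

/-- The metric `h(dx, dx) + (e^β (dy - Γ dx))²` on `E₁ × ℝ`. -/
def conn (h : Curv.Coeff E₁) (Γ : E₁ × ℝ → E₁ →L[ℝ] ℝ) (β : E₁ × ℝ → ℝ) :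
    Curv.Coeff (E₁ × ℝ) := fun q i j =>
  mB (h q.1) (finBasis ℝ (E₁ × ℝ) i).1 (finBasis ℝ (E₁ × ℝ) j).1 +
  Real.exp (β q) ^ 2 * (((finBasis ℝ (E₁ × ℝ) i).2 - Γ q (finBasis ℝ (E₁ × ℝ) i).1) *
    ((finBasis ℝ (E₁ × ℝ) j).2 - Γ q (finBasis ℝ (E₁ × ℝ) j).1))

/-- The covector `u ↦ X_u β + ∂_y Γ u` where `X_u = ∂_(u, Γ u)`. -/
def kap (Γ : E₁ × ℝ → E₁ →L[ℝ] ℝ) (β : E₁ × ℝ → ℝ) (q : E₁ × ℝ) : E₁ →L[ℝ] ℝ :=
  (fderiv ℝ β q).comp ((ContinuousLinearMap.id ℝ E₁).prod (Γ q)) + fderiv ℝ Γ q (0, 1)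

/-- The trace `∑ h^{ij} ∂_i ∂_y Γ_j`. -/
def trG (h : Curv.Coeff E₁) (Γ : E₁ × ℝ → E₁ →L[ℝ] ℝ) (q : E₁ × ℝ) : ℝ :=
  ∑ i, ∑ j, (h q.1)⁻¹ i j *
    fderiv ℝ (fun p => fderiv ℝ Γ p (0, 1)) q (finBasis ℝ E₁ i, 0) (finBasis ℝ E₁ j)

/-- Smooth data near the point `q`. -/
structure CDat (h : Curv.Coeff E₁) (Γ : E₁ × ℝ → E₁ →L[ℝ] ℝ) (β : E₁ × ℝ → ℝ)
    (q : E₁ × ℝ) : Prop where
  h_smooth : ∀ i j, ContDiffAt ℝ ∞ (fun x => h x i j) q.1
  Γ_smooth : ContDiffAt ℝ ∞ Γ q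
  β_smooth : ContDiffAt ℝ ∞ β q
  h_pos : ∀ᶠ x in 𝓝 q.1, (h x).PosDef

/-- The normal form of the connection at the point `q`. -/
structure NF (Γ : E₁ × ℝ → E₁ →L[ℝ] ℝ) (q : E₁ × ℝ) : Prop where
  zero : Γ q = 0
  dy : fderiv ℝ Γ q (0, 1) = 0
  anti : ∀ u v : E₁, fderiv ℝ Γ q (u, 0) v = -fderiv ℝ Γ q (v, 0) u

end local_defs

section para

variable {E' : Type*} [NormedAddCommGroup E'] [NormedSpace ℝ E'] [FiniteDimensional ℝ E']
  {E : Type*} [NormedAddCommGroup E] [NormedSpace ℝ E] [FiniteDimensional ℝ E]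
  {M : Type*} [TopologicalSpace M] [ChartedSpace E M] [IsManifold 𝓘(ℝ, E) ∞ M]

/-- The coefficients of the metric `g` in the parametrization `σ : E' → M`. -/
def cf (g : ContMDiffRiemannianMetric 𝓘(ℝ, E) ∞ E (fun x : M => TangentSpace 𝓘(ℝ, E) x))
    (σ : E' → M) : Curv.Coeff E' := fun y i j =>
  g.inner (σ y) (mfderiv 𝓘(ℝ, E') 𝓘(ℝ, E) σ y (finBasis ℝ E' i))
    (mfderiv 𝓘(ℝ, E') 𝓘(ℝ, E) σ y (finBasis ℝ E' j))

/-- `σ` is a smooth parametrization near `q`. -/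
structure Para (E : Type*) [NormedAddCommGroup E] [NormedSpace ℝ E]
    {M : Type*} [TopologicalSpace M] [ChartedSpace E M]
    (σ : E' → M) (q : E') : Prop where
  smooth : ContMDiffAt 𝓘(ℝ, E') 𝓘(ℝ, E) ∞ σ q
  bij : Function.Bijective (mfderiv 𝓘(ℝ, E') 𝓘(ℝ, E) σ q)

end para

section subm

variable {E₁ : Type*} [NormedAddCommGroup E₁] [NormedSpace ℝ E₁] [FiniteDimensional ℝ E₁]
  {B : Type*} [TopologicalSpace B] [ChartedSpace E₁ B] [IsManifold 𝓘(ℝ, E₁) ∞ B]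
  {E : Type*} [NormedAddCommGroup E] [NormedSpace ℝ E] [FiniteDimensional ℝ E]
  {M : Type*} [TopologicalSpace M] [ChartedSpace E M] [IsManifold 𝓘(ℝ, E) ∞ M]

/-- `pr` is a submersion: its differential is surjective at every point. -/
def Submersion (E E₁ : Type*) [NormedAddCommGroup E] [NormedSpace ℝ E]
    [NormedAddCommGroup E₁] [NormedSpace ℝ E₁] {M B : Type*} [TopologicalSpace M]
    [ChartedSpace E M] [TopologicalSpace B] [ChartedSpace E₁ B] (pr : M → B) : Prop :=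
  ContMDiff 𝓘(ℝ, E) 𝓘(ℝ, E₁) ∞ pr ∧
    ∀ p : M, Function.Surjective (mfderiv 𝓘(ℝ, E) 𝓘(ℝ, E₁) pr p)

/-- The tangent vector `u` at `p` is orthogonal to the fibre of `pr` through `p`. -/
def Horizontal (g : ContMDiffRiemannianMetric 𝓘(ℝ, E) ∞ E (fun x : M => TangentSpace 𝓘(ℝ, E) x))
    (pr : M → B) (p : M) (u : TangentSpace 𝓘(ℝ, E) p) : Prop :=
  ∀ w : TangentSpace 𝓘(ℝ, E) p, mfderiv 𝓘(ℝ, E) 𝓘(ℝ, E₁) pr p w = 0 → g.inner p u w = 0

/-- The map `pr : (M, g) → (B, gB)` is horizontally conformal: at every point its differential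
multiplies the scalar products of horizontal vectors by a positive number. -/
def HorConf (g : ContMDiffRiemannianMetric 𝓘(ℝ, E) ∞ E (fun x : M => TangentSpace 𝓘(ℝ, E) x))
    (gB : ContMDiffRiemannianMetric 𝓘(ℝ, E₁) ∞ E₁ (fun x : B => TangentSpace 𝓘(ℝ, E₁) x))
    (pr : M → B) : Prop :=
  ∀ p : M, ∃ r : ℝ, 0 < r ∧ ∀ u v : TangentSpace 𝓘(ℝ, E) p,
    Horizontal (E₁ := E₁) g pr p u → Horizontal (E₁ := E₁) g pr p v →
      gB.inner (pr p) (mfderiv 𝓘(ℝ, E) 𝓘(ℝ, E₁) pr p u) (mfderiv 𝓘(ℝ, E) 𝓘(ℝ, E₁) pr p v) =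
        r * g.inner p u v

/-- At the point `p` the map `pr` multiplies the scalar products of horizontal vectors by `r`. -/
def HorAt (g : ContMDiffRiemannianMetric 𝓘(ℝ, E) ∞ E (fun x : M => TangentSpace 𝓘(ℝ, E) x))
    (gB : ContMDiffRiemannianMetric 𝓘(ℝ, E₁) ∞ E₁ (fun x : B => TangentSpace 𝓘(ℝ, E₁) x))
    (pr : M → B) (p : M) (r : ℝ) : Prop :=
  ∀ u v : TangentSpace 𝓘(ℝ, E) p,
    Horizontal (E₁ := E₁) g pr p u → Horizontal (E₁ := E₁) g pr p v →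
      gB.inner (pr p) (mfderiv 𝓘(ℝ, E) 𝓘(ℝ, E₁) pr p u) (mfderiv 𝓘(ℝ, E) 𝓘(ℝ, E₁) pr p v) =
        r * g.inner p u v

end subm

end Pool.Agent.Lib.MP_df705a_gt.Circ
end
end

section

/-!
# Jets of a pulled back metric and the invariance of curvature and Laplacian
(common part of the tasks G1 and G2)
-/

open scoped Manifold ContDiff Topology
open Set Bundle Module Filter

noncomputable section

namespace Pool.Agent.Lib.MP_df705a_gt.Perm

open Pool.Agent.Lib.MP_df705a_gt.Twist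

namespace PJ

open Alg

section algebra

variable {V : Type*} [AddCommGroup V] [Module ℝ V] {ι : Type*} [Fintype ι]
  [DecidableEq ι] {e f : Basis ι ℝ V} {h h' : Bil V} {D D' : V →ₗ[ℝ] Bil V}
  {D2 D2' : V →ₗ[ℝ] V →ₗ[ℝ] Bil V} {L : V → V} {Q : V → V → V} {C : V → V → V → V}

theorem tr_pull (hf : ∀ i, f i = L (e i)) (h0 : ∀ u v, h' u v = h (L u) (L v))
    (T : V → V → ℝ) : tr e h' (fun u v => T (L u) (L v)) = tr f h T := by
  have hg : gram e h' = gram f h := by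
    ext i j
    simp only [gram, Matrix.of_apply, h0, hf]
  unfold tr
  rw [hg]
  refine Finset.sum_congr rfl fun i _ => Finset.sum_congr rfl fun j _ => ?_
  rw [hf, hf]

theorem cop_pull (hf : ∀ i, f i = L (e i)) (h0 : ∀ u v, h' u v = h (L u) (L v))
    {ξ' η' : V → ℝ} (ξ η : V → ℝ) (hξ : ∀ u, ξ' u = ξ (L u)) (hη : ∀ u, η' u = η (L u)) :
    cop e h' ξ' η' = cop f h ξ η := by
  unfold cop
  rw [← tr_pull hf h0 (fun u v => ξ u * η v)]
  exact tr_congr fun u v => by rw [hξ, hη]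

theorem chr_pull (hs : ∀ u v, h u v = h v u) (hQ : ∀ u v, Q u v = Q v u)
    (h1 : ∀ a u v, D' a u v = D (L a) (L u) (L v) + h (Q a u) (L v) + h (L u) (Q a v))
    (u v w : V) : chr D' u v w = (chr D (L u) (L v) + h (Q u v)) (L w) := by
  rw [LinearMap.add_apply, chr_apply, chr_apply, h1, h1, h1, hQ v u, hQ w u, hQ w v,
    hs (L v) (Q u w), hs (Q u w) (L v)]
  ring

theorem chr2_pull (hs : ∀ u v, h u v = h v u) (hQ : ∀ u v, Q u v = Q v u)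
    (hDs : ∀ a u v, D a u v = D a v u) (hC : ∀ a b c, C a b c = C a c b)
    (h2 : ∀ a b u v, D2' a b u v = D2 (L a) (L b) (L u) (L v) + D (Q a b) (L u) (L v)
      + D (L b) (Q a u) (L v) + D (L b) (L u) (Q a v)
      + (D (L a) (Q b u) (L v) + h (C a b u) (L v) + h (Q b u) (Q a v))
      + (D (L a) (L u) (Q b v) + h (Q a u) (Q b v) + h (L u) (C a b v)))
    (u v w z : V) : chr (D2' u) v w z = chr (D2 (L u)) (L v) (L w) (L z)
      + chr D (Q u v) (L w) (L z) + chr D (L v) (Q u w) (L z) + chr D (L v) (L w) (Q u z)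
      + D (L u) (Q v w) (L z) + h (C u v w) (L z) + h (Q v w) (Q u z) := by
  simp only [chr_apply]
  rw [h2, h2, h2, hQ w v, hQ z v, hQ z w, hC u w v, hC u z v, hC u z w,
    hDs (L u) (L w) (Q v z), hs (L w) (C u v z), hs (Q v z) (Q u w), hDs (L z) (L v) (Q u w)]
  ring

theorem curv_pull (hf : ∀ i, f i = L (e i)) (hnd : Nondeg f h)
    (h0 : ∀ u v, h' u v = h (L u) (L v)) (hQ : ∀ u v, Q u v = Q v u)
    (hDs : ∀ a u v, D a u v = D a v u) (hC : ∀ a b c, C a b c = C a c b)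
    (hC' : ∀ a b c, C a b c = C b a c)
    (h1 : ∀ a u v, D' a u v = D (L a) (L u) (L v) + h (Q a u) (L v) + h (L u) (Q a v))
    (h2 : ∀ a b u v, D2' a b u v = D2 (L a) (L b) (L u) (L v) + D (Q a b) (L u) (L v)
      + D (L b) (Q a u) (L v) + D (L b) (L u) (Q a v)
      + (D (L a) (Q b u) (L v) + h (C a b u) (L v) + h (Q b u) (Q a v))
      + (D (L a) (L u) (Q b v) + h (Q a u) (Q b v) + h (L u) (C a b v)))
    (u v w z : V) : curv e h' D' D2' u v w z = curv f h D D2 (L u) (L v) (L w) (L z) := by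
  have hs := hnd.symm
  have hc : ∀ a b c d, cop e h' (chr D' a b) (chr D' c d) =
      cop f h (chr D (L a) (L b)) (chr D (L c) (L d)) + chr D (L a) (L b) (Q c d)
        + chr D (L c) (L d) (Q a b) + h (Q a b) (Q c d) := by
    intro a b c d
    rw [cop_pull hf h0 (chr D (L a) (L b) + h (Q a b) : V →ₗ[ℝ] ℝ)
      (chr D (L c) (L d) + h (Q c d) : V →ₗ[ℝ] ℝ) (chr_pull hs hQ h1 a b)
      (chr_pull hs hQ h1 c d)]
    have e1 : ∀ x y : V →ₗ[ℝ] ℝ, ((x + y : V →ₗ[ℝ] ℝ) : V → ℝ) = (x : V → ℝ) + (y : V → ℝ) :=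
      fun x y => rfl
    rw [e1, e1, cop_add_left, cop_add_right, cop_add_right, cop_form_right hnd, cop_form hnd,
      cop_form hnd, hs (Q a b) (Q c d)]
    ring
  unfold curv
  rw [hc, hc, chr2_pull hs hQ hDs hC h2, chr2_pull hs hQ hDs hC h2, hQ v u, hC' v u w,
    hs (Q v w) (Q u z)]
  have k1 : chr D (L v) (Q u w) (L z) + chr D (L v) (L z) (Q u w) = D (L v) (Q u w) (L z) := by
    rw [chr_apply, chr_apply, hDs (L v) (L z) (Q u w)]
    ring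
  have k2 : chr D (L u) (Q v w) (L z) + chr D (L u) (L z) (Q v w) = D (L u) (Q v w) (L z) := by
    rw [chr_apply, chr_apply, hDs (L u) (L z) (Q v w)]
    ring
  linear_combination k1 - k2

theorem scal_pull_alg (hf : ∀ i, f i = L (e i)) (hnd : Nondeg f h) (hnd' : Nondeg e h)
    (h0 : ∀ u v, h' u v = h (L u) (L v)) (hQ : ∀ u v, Q u v = Q v u)
    (hDs : ∀ a u v, D a u v = D a v u) (hC : ∀ a b c, C a b c = C a c b)
    (hC' : ∀ a b c, C a b c = C b a c)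
    (h1 : ∀ a u v, D' a u v = D (L a) (L u) (L v) + h (Q a u) (L v) + h (L u) (Q a v))
    (h2 : ∀ a b u v, D2' a b u v = D2 (L a) (L b) (L u) (L v) + D (Q a b) (L u) (L v)
      + D (L b) (Q a u) (L v) + D (L b) (L u) (Q a v)
      + (D (L a) (Q b u) (L v) + h (C a b u) (L v) + h (Q b u) (Q a v))
      + (D (L a) (L u) (Q b v) + h (Q a u) (Q b v) + h (L u) (C a b v))) :
    scal e h' D' D2' = scal e h D D2 := by
  rw [scal_basis D D2 hnd' hnd]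
  unfold scal
  rw [← tr_pull hf h0]
  refine tr_congr fun u z => ?_
  rw [← tr_pull hf h0]
  exact tr_congr fun v w => curv_pull hf hnd h0 hQ hDs hC hC' h1 h2 u v w z

/-- The Laplacian does not depend on the basis. -/
theorem lap_basis (he : Nondeg e h) (hf : Nondeg f h) (D : V →ₗ[ℝ] Bil V) (f1 : V →ₗ[ℝ] ℝ)
    (f2 : Bil V) : lap e h D f1 f2 = lap f h D f1 f2 := by
  obtain ⟨x, hx⟩ := exists_rep he f1
  have h1 : (f1 : V → ℝ) = h x := funext fun v => (hx v).symm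
  have h2 : ∀ u v, chr D u v x = (2⁻¹ : ℝ) * (D u v x + D v u x - D x u v) := by
    intro u v
    rw [chr_apply]
    ring
  have h3 : ∀ u v, f2 u v - cop e h (chr D u v) f1 =
      (f2 - (2⁻¹ : ℝ) • ((D.flip.flip.compr₂ (LinearMap.applyₗ x)) +
        (D.flip.compr₂ (LinearMap.applyₗ x)) - D x) : Bil V) u v := by
    intro u v
    rw [h1, cop_form_right he, h2]
    simp [LinearMap.compr₂_apply]
  have h4 : ∀ u v, f2 u v - cop f h (chr D u v) f1 =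
      (f2 - (2⁻¹ : ℝ) • ((D.flip.flip.compr₂ (LinearMap.applyₗ x)) +
        (D.flip.compr₂ (LinearMap.applyₗ x)) - D x) : Bil V) u v := by
    intro u v
    rw [h1, cop_form_right hf, h2]
    simp [LinearMap.compr₂_apply]
  unfold lap
  rw [tr_congr h3, tr_congr h4]
  exact tr_basis he hf _

theorem lap_pull_alg (hf : ∀ i, f i = L (e i)) (hnd : Nondeg f h) (hnd' : Nondeg e h)
    (h0 : ∀ u v, h' u v = h (L u) (L v)) (hQ : ∀ u v, Q u v = Q v u)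
    (h1 : ∀ a u v, D' a u v = D (L a) (L u) (L v) + h (Q a u) (L v) + h (L u) (Q a v))
    {f1 f1' : V →ₗ[ℝ] ℝ} {f2 f2' : Bil V} (g1 : ∀ u, f1' u = f1 (L u))
    (g2 : ∀ u v, f2' u v = f2 (L u) (L v) + f1 (Q u v)) :
    lap e h' D' f1' f2' = lap e h D f1 f2 := by
  rw [lap_basis hnd' hnd]
  unfold lap
  rw [← tr_pull hf h0]
  refine tr_congr fun u v => ?_
  rw [cop_pull hf h0 (chr D (L u) (L v) + h (Q u v) : V →ₗ[ℝ] ℝ) f1
    (chr_pull hnd.symm hQ h1 u v) g1, g2]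
  have e1 : ∀ x y : V →ₗ[ℝ] ℝ, ((x + y : V →ₗ[ℝ] ℝ) : V → ℝ) = (x : V → ℝ) + (y : V → ℝ) :=
    fun x y => rfl
  rw [e1, cop_add_left, cop_form hnd]
  ring

end algebra

/-! ### Calculus -/

namespace Shortcuts

variable {E : Type*} [NormedAddCommGroup E] [NormedSpace ℝ E]

scoped instance sc1 : NormedAddCommGroup (E →L[ℝ] ℝ) := inferInstance
scoped instance sc2 : NormedSpace ℝ (E →L[ℝ] ℝ) := inferInstance
scoped instance sc3 : NormedAddCommGroup (E →L[ℝ] E →L[ℝ] ℝ) := inferInstance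
scoped instance sc4 : NormedSpace ℝ (E →L[ℝ] E →L[ℝ] ℝ) := inferInstance
scoped instance sc5 : NormedAddCommGroup (E →L[ℝ] E →L[ℝ] E →L[ℝ] ℝ) := inferInstance
scoped instance sc6 : NormedSpace ℝ (E →L[ℝ] E →L[ℝ] E →L[ℝ] ℝ) := inferInstance

end Shortcuts

open scoped Shortcuts

section calculus

variable {E : Type*} [NormedAddCommGroup E] [NormedSpace ℝ E]

theorem clm1_hasFDerivAt {W : Type*} [NormedAddCommGroup W] [NormedSpace ℝ W]
    {T : E → E →L[ℝ] W} {T' : E →L[ℝ] E →L[ℝ] W} {y : E} (hT : HasFDerivAt T T' y) (v : E) :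
    HasFDerivAt (fun y => T y v) (T'.flip v) y := by
  have h1 := hT.clm_apply (hasFDerivAt_const v y)
  simpa using h1

theorem clm2_hasFDerivAt {T : E → E →L[ℝ] E →L[ℝ] ℝ} {a b : E → E}
    {T' : E →L[ℝ] E →L[ℝ] E →L[ℝ] ℝ} {a' b' : E →L[ℝ] E} {y : E}
    (hT : HasFDerivAt T T' y) (ha : HasFDerivAt a a' y) (hb : HasFDerivAt b b' y) :
    ∃ L : E →L[ℝ] ℝ, HasFDerivAt (fun y => T y (a y) (b y)) L y ∧
      ∀ u, L u = T' u (a y) (b y) + T y (a' u) (b y) + T y (a y) (b' u) := by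
  refine ⟨_, (hT.clm_apply ha).clm_apply hb, ?_⟩
  intro u
  simp
  ring

theorem clm3_hasFDerivAt {T : E → E →L[ℝ] E →L[ℝ] E →L[ℝ] ℝ} {a b c : E → E}
    {T' : E →L[ℝ] E →L[ℝ] E →L[ℝ] E →L[ℝ] ℝ} {a' b' c' : E →L[ℝ] E} {y : E}
    (hT : HasFDerivAt T T' y) (ha : HasFDerivAt a a' y) (hb : HasFDerivAt b b' y)
    (hc : HasFDerivAt c c' y) :
    ∃ L : E →L[ℝ] ℝ, HasFDerivAt (fun y => T y (a y) (b y) (c y)) L y ∧
      ∀ u, L u = T' u (a y) (b y) (c y) + T y (a' u) (b y) (c y) + T y (a y) (b' u) (c y)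
        + T y (a y) (b y) (c' u) := by
  refine ⟨_, ((hT.clm_apply ha).clm_apply hb).clm_apply hc, ?_⟩
  intro u
  simp
  ring

theorem three_le_inf : (3 : WithTop ℕ∞) ≤ ∞ :=
  (WithTop.coe_le_coe.2 (le_top : (3 : ℕ∞) ≤ ⊤) :
    ((3 : ℕ∞) : WithTop ℕ∞) ≤ ((⊤ : ℕ∞) : WithTop ℕ∞))

/-- The derivatives of a smooth map at a point. -/
theorem smooth_jets {F : Type*} [NormedAddCommGroup F] [NormedSpace ℝ F] {G : E → F} {z : E}
    (hG : ContDiffAt ℝ ∞ G z) : HasFDerivAt G (fderiv ℝ G z) z ∧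
      HasFDerivAt (fderiv ℝ G) (fderiv ℝ (fderiv ℝ G) z) z ∧
      HasFDerivAt (fderiv ℝ (fderiv ℝ G)) (fderiv ℝ (fderiv ℝ (fderiv ℝ G)) z) z := by
  have h3 : ContDiffAt ℝ 3 G z := hG.of_le three_le_inf
  have hc2 : ContDiffAt ℝ 2 (fderiv ℝ G) z := h3.fderiv_right (by norm_num)
  have hc3 : ContDiffAt ℝ 1 (fderiv ℝ (fderiv ℝ G)) z := hc2.fderiv_right (by norm_num)
  exact ⟨(h3.differentiableAt (by norm_num)).hasFDerivAt,
    (hc2.differentiableAt (by norm_num)).hasFDerivAt,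
    (hc3.differentiableAt (by norm_num)).hasFDerivAt⟩

theorem eventually_jets {F : Type*} [NormedAddCommGroup F] [NormedSpace ℝ F] {G : E → F} {z : E}
    (hG : ContDiffAt ℝ ∞ G z) : ∀ᶠ x in 𝓝 z, HasFDerivAt G (fderiv ℝ G x) x ∧
      HasFDerivAt (fderiv ℝ G) (fderiv ℝ (fderiv ℝ G) x) x := by
  have h3 : ContDiffAt ℝ 3 G z := hG.of_le three_le_inf
  filter_upwards [h3.eventually (by simp)] with x hx
  have hc2 : ContDiffAt ℝ 2 (fderiv ℝ G) x := hx.fderiv_right (by norm_num)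
  exact ⟨(hx.differentiableAt (by norm_num)).hasFDerivAt,
    (hc2.differentiableAt (by norm_num)).hasFDerivAt⟩

variable {G : E → E →L[ℝ] E →L[ℝ] ℝ} {τ : E → E} {y : E}

/-- The first derivative of the pulled back form. -/
theorem pull_fderiv (hG : HasFDerivAt G (fderiv ℝ G (τ y)) (τ y))
    (h1 : HasFDerivAt τ (fderiv ℝ τ y) y)
    (h2 : HasFDerivAt (fderiv ℝ τ) (fderiv ℝ (fderiv ℝ τ) y) y) (u v w : E) :
    fderiv ℝ (fun x => G (τ x) (fderiv ℝ τ x v) (fderiv ℝ τ x w)) y u =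
      fderiv ℝ G (τ y) (fderiv ℝ τ y u) (fderiv ℝ τ y v) (fderiv ℝ τ y w)
      + G (τ y) (fderiv ℝ (fderiv ℝ τ) y u v) (fderiv ℝ τ y w)
      + G (τ y) (fderiv ℝ τ y v) (fderiv ℝ (fderiv ℝ τ) y u w) := by
  have h3 : HasFDerivAt (fun x => G (τ x)) ((fderiv ℝ G (τ y)).comp (fderiv ℝ τ y)) y :=
    hG.comp y h1
  obtain ⟨L, hL, hLu⟩ := clm2_hasFDerivAt h3 (clm1_hasFDerivAt h2 v) (clm1_hasFDerivAt h2 w)
  rw [hL.fderiv, hLu]
  simp

/-- The second derivative of the pulled back form. -/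
theorem pull_fderiv2 (hG : ContDiffAt ℝ ∞ G (τ y)) (hτ : ContDiffAt ℝ ∞ τ y) (u u' v w : E) :
    fderiv ℝ (fderiv ℝ fun x => G (τ x) (fderiv ℝ τ x v) (fderiv ℝ τ x w)) y u u' =
      fderiv ℝ (fderiv ℝ G) (τ y) (fderiv ℝ τ y u) (fderiv ℝ τ y u') (fderiv ℝ τ y v)
          (fderiv ℝ τ y w)
        + fderiv ℝ G (τ y) (fderiv ℝ (fderiv ℝ τ) y u u') (fderiv ℝ τ y v) (fderiv ℝ τ y w)
        + fderiv ℝ G (τ y) (fderiv ℝ τ y u') (fderiv ℝ (fderiv ℝ τ) y u v) (fderiv ℝ τ y w)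
        + fderiv ℝ G (τ y) (fderiv ℝ τ y u') (fderiv ℝ τ y v) (fderiv ℝ (fderiv ℝ τ) y u w)
      + (fderiv ℝ G (τ y) (fderiv ℝ τ y u) (fderiv ℝ (fderiv ℝ τ) y u' v) (fderiv ℝ τ y w)
        + G (τ y) (fderiv ℝ (fderiv ℝ (fderiv ℝ τ)) y u u' v) (fderiv ℝ τ y w)
        + G (τ y) (fderiv ℝ (fderiv ℝ τ) y u' v) (fderiv ℝ (fderiv ℝ τ) y u w))
      + (fderiv ℝ G (τ y) (fderiv ℝ τ y u) (fderiv ℝ τ y v) (fderiv ℝ (fderiv ℝ τ) y u' w)
        + G (τ y) (fderiv ℝ (fderiv ℝ τ) y u v) (fderiv ℝ (fderiv ℝ τ) y u' w)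
        + G (τ y) (fderiv ℝ τ y v) (fderiv ℝ (fderiv ℝ (fderiv ℝ τ)) y u u' w)) := by
  obtain ⟨g1, g2, -⟩ := smooth_jets hG
  obtain ⟨t1, t2, t3⟩ := smooth_jets hτ
  have hc : ContDiffAt ℝ ∞ (fun x => G (τ x) (fderiv ℝ τ x v) (fderiv ℝ τ x w)) y := by
    have c1 : ContDiffAt ℝ ∞ (fderiv ℝ τ) y := hτ.fderiv_right (by norm_num)
    exact ((hG.comp y hτ).clm_apply (c1.clm_apply contDiffAt_const)).clm_apply
      (c1.clm_apply contDiffAt_const)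
  rw [← fderiv_fderiv_apply hc]
  have hev : (fun x => fderiv ℝ (fun x => G (τ x) (fderiv ℝ τ x v) (fderiv ℝ τ x w)) x u') =ᶠ[𝓝 y]
      fun x => fderiv ℝ G (τ x) (fderiv ℝ τ x u') (fderiv ℝ τ x v) (fderiv ℝ τ x w)
      + G (τ x) (fderiv ℝ (fderiv ℝ τ) x u' v) (fderiv ℝ τ x w)
      + G (τ x) (fderiv ℝ τ x v) (fderiv ℝ (fderiv ℝ τ) x u' w) := by
    have e1 := (hτ.continuousAt).eventually (eventually_jets hG)
    filter_upwards [e1, eventually_jets hτ] with x hx hx'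
    exact pull_fderiv hx.1 hx'.1 hx'.2 u' v w
  rw [hev.fderiv_eq]
  have h3 : HasFDerivAt (fun x => G (τ x)) ((fderiv ℝ G (τ y)).comp (fderiv ℝ τ y)) y :=
    g1.comp y t1
  have h4 : HasFDerivAt (fun x => fderiv ℝ G (τ x))
      ((fderiv ℝ (fderiv ℝ G) (τ y)).comp (fderiv ℝ τ y)) y := g2.comp y t1
  obtain ⟨L1, hL1, hL1u⟩ := clm3_hasFDerivAt h4 (clm1_hasFDerivAt t2 u') (clm1_hasFDerivAt t2 v)
    (clm1_hasFDerivAt t2 w)
  obtain ⟨L2, hL2, hL2u⟩ := clm2_hasFDerivAt h3 (clm1_hasFDerivAt (clm1_hasFDerivAt t3 u') v)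
    (clm1_hasFDerivAt t2 w)
  obtain ⟨L3, hL3, hL3u⟩ := clm2_hasFDerivAt h3 (clm1_hasFDerivAt t2 v)
    (clm1_hasFDerivAt (clm1_hasFDerivAt t3 u') w)
  have h5 := (hL1.fun_add hL2).fun_add hL3
  rw [h5.fderiv, _root_.add_apply, _root_.add_apply, hL1u, hL2u, hL3u]
  simp only [ContinuousLinearMap.comp_apply, ContinuousLinearMap.flip_apply]

end calculus

/-! ### The jets of the coefficients -/

section link

variable {E : Type*} [NormedAddCommGroup E] [NormedSpace ℝ E] [FiniteDimensional ℝ E]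

/-- The continuous bilinear form with the coefficients `h x`. -/
def Gf (h : Curv.Coeff E) (x : E) : E →L[ℝ] E →L[ℝ] ℝ :=
  ∑ i, ∑ j, h x i j • (cd i : E →L[ℝ] ℝ).smulRight (cd j : E →L[ℝ] ℝ)

theorem Gf_apply (h : Curv.Coeff E) (x u v : E) : Gf h x u v = fB h x u v := by
  unfold Gf fB
  rw [mkB_apply]
  simp only [_root_.sum_apply, _root_.smul_apply, ContinuousLinearMap.smulRight_apply,
    cd_apply, smul_eq_mul]

theorem Gf_contDiffAt {h : Curv.Coeff E} {x : E}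
    (hh : ∀ i j, ContDiffAt ℝ ∞ (fun x => h x i j) x) : ContDiffAt ℝ ∞ (Gf h) x := by
  unfold Gf
  exact ContDiffAt.sum fun i _ => ContDiffAt.sum fun j _ => (hh i j).smul contDiffAt_const

theorem Gf_fderiv {h : Curv.Coeff E} {x : E}
    (hh : ∀ i j, ContDiffAt ℝ ∞ (fun x => h x i j) x) (u v w : E) :
    fderiv ℝ (Gf h) x u v w = fD h x u v w := by
  have h1 := form_fderiv (finBasis ℝ E) (M := fun i j y => h y i j) hh u v w
  rw [← h1]
  obtain ⟨g1, -, -⟩ := smooth_jets (Gf_contDiffAt hh)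
  have h2 := clm1_hasFDerivAt (clm1_hasFDerivAt g1 v) w
  have h3 : (fun y => Gf h y v w) = fun y => mkB (finBasis ℝ E) (fun i j => h y i j) v w :=
    funext fun y => Gf_apply h y v w
  rw [← h3, h2.fderiv]
  rfl

theorem Gf_fderiv2 {h : Curv.Coeff E} {x : E}
    (hh : ∀ i j, ContDiffAt ℝ ∞ (fun x => h x i j) x) (u u' v w : E) :
    fderiv ℝ (fderiv ℝ (Gf h)) x u u' v w = fD2 h x u u' v w := by
  have h1 := form_fderiv2 (finBasis ℝ E) (M := fun i j y => h y i j) hh u u' v w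
  rw [← h1]
  have hG := Gf_contDiffAt hh
  obtain ⟨-, g2, -⟩ := smooth_jets hG
  have h3 : (fun y => Gf h y v w) = fun y => mkB (finBasis ℝ E) (fun i j => h y i j) v w :=
    funext fun y => Gf_apply h y v w
  rw [← h3]
  have hc : ContDiffAt ℝ ∞ (fun x => Gf h x v w) x :=
    (hG.clm_apply contDiffAt_const).clm_apply contDiffAt_const
  rw [← fderiv_fderiv_apply hc]
  have hev : (fun x => fderiv ℝ (fun x => Gf h x v w) x u') =ᶠ[𝓝 x]
      fun x => fderiv ℝ (Gf h) x u' v w := by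
    filter_upwards [eventually_jets hG] with x hx
    rw [(clm1_hasFDerivAt (clm1_hasFDerivAt hx.1 v) w).fderiv]
    rfl
  rw [hev.fderiv_eq, (clm1_hasFDerivAt (clm1_hasFDerivAt (clm1_hasFDerivAt g2 u') v) w).fderiv]
  rfl

theorem law_apply {H H' : Matrix (Fin (finrank ℝ E)) (Fin (finrank ℝ E)) ℝ} {L : E →L[ℝ] E}
    (hlaw : H' = (LinearMap.toMatrix (finBasis ℝ E) (finBasis ℝ E) (L : E →ₗ[ℝ] E)).transpose * H *
      LinearMap.toMatrix (finBasis ℝ E) (finBasis ℝ E) (L : E →ₗ[ℝ] E)) (u v : E) :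
    mkB (finBasis ℝ E) (fun i j => H' i j) u v =
      mkB (finBasis ℝ E) (fun i j => H i j) (L u) (L v) := by
  have h1 : mkB (finBasis ℝ E) (fun i j => H' i j) =
      (mkB (finBasis ℝ E) (fun i j => H i j)).compl₁₂ (L : E →ₗ[ℝ] E) (L : E →ₗ[ℝ] E) := by
    refine (finBasis ℝ E).ext fun i => (finBasis ℝ E).ext fun j => ?_
    rw [mkB_basis, LinearMap.compl₁₂_apply, mkB_apply, hlaw, Matrix.mul_apply]
    simp only [Matrix.mul_apply, Matrix.transpose_apply, LinearMap.toMatrix_apply, Finset.sum_mul]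
    rw [Finset.sum_comm]
    refine Finset.sum_congr rfl fun k _ => Finset.sum_congr rfl fun l _ => ?_
    ring
  rw [h1]
  rfl

/-- The basis `L e_i`. -/
theorem exists_basis {L : E →L[ℝ] E} (hdet : L.det ≠ 0) :
    ∃ f : Basis (Fin (finrank ℝ E)) ℝ E, ∀ i, f i = L (finBasis ℝ E i) := by
  have h1 : LinearMap.det (L : E →ₗ[ℝ] E) ≠ 0 := hdet
  refine ⟨(finBasis ℝ E).map (LinearEquiv.ofIsUnitDet (f := (L : E →ₗ[ℝ] E))
    (v := finBasis ℝ E) (v' := finBasis ℝ E) ?_), fun i => ?_⟩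
  · rw [LinearMap.det_toMatrix]
    exact h1.isUnit
  · simp

variable {h h' : Curv.Coeff E} {τ : E → E} {y : E}

theorem coeff_contDiffAt (hτ : ContDiffAt ℝ ∞ τ y)
    (hh : ∀ i j, ContDiffAt ℝ ∞ (fun x => h x i j) (τ y))
    (hlaw : ∀ᶠ x in 𝓝 y, h' x = (LinearMap.toMatrix (finBasis ℝ E) (finBasis ℝ E)
        (fderiv ℝ τ x : E →ₗ[ℝ] E)).transpose * h (τ x) *
      LinearMap.toMatrix (finBasis ℝ E) (finBasis ℝ E) (fderiv ℝ τ x : E →ₗ[ℝ] E))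
    (i j : Fin (finrank ℝ E)) : ContDiffAt ℝ ∞ (fun x => h' x i j) y := by
  have c1 : ContDiffAt ℝ ∞ (fderiv ℝ τ) y := hτ.fderiv_right (by norm_num)
  have hc : ContDiffAt ℝ ∞ (fun x => Gf h (τ x) (fderiv ℝ τ x (finBasis ℝ E i))
      (fderiv ℝ τ x (finBasis ℝ E j))) y :=
    (((Gf_contDiffAt hh).comp y hτ).clm_apply (c1.clm_apply contDiffAt_const)).clm_apply
      (c1.clm_apply contDiffAt_const)
  refine hc.congr_of_eventuallyEq ?_
  filter_upwards [hlaw] with x hx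
  rw [Gf_apply, ← law_apply hx, mkB_basis]

theorem jets (hτ : ContDiffAt ℝ ∞ τ y)
    (hh : ∀ i j, ContDiffAt ℝ ∞ (fun x => h x i j) (τ y))
    (hlaw : ∀ᶠ x in 𝓝 y, h' x = (LinearMap.toMatrix (finBasis ℝ E) (finBasis ℝ E)
        (fderiv ℝ τ x : E →ₗ[ℝ] E)).transpose * h (τ x) *
      LinearMap.toMatrix (finBasis ℝ E) (finBasis ℝ E) (fderiv ℝ τ x : E →ₗ[ℝ] E)) :
    (∀ u v, fB h' y u v = fB h (τ y) (fderiv ℝ τ y u) (fderiv ℝ τ y v)) ∧
    (∀ a u v, fD h' y a u v = fD h (τ y) (fderiv ℝ τ y a) (fderiv ℝ τ y u) (fderiv ℝ τ y v) +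
      fB h (τ y) (fderiv ℝ (fderiv ℝ τ) y a u) (fderiv ℝ τ y v) +
      fB h (τ y) (fderiv ℝ τ y u) (fderiv ℝ (fderiv ℝ τ) y a v)) ∧
    (∀ a b u v, fD2 h' y a b u v =
      fD2 h (τ y) (fderiv ℝ τ y a) (fderiv ℝ τ y b) (fderiv ℝ τ y u) (fderiv ℝ τ y v)
      + fD h (τ y) (fderiv ℝ (fderiv ℝ τ) y a b) (fderiv ℝ τ y u) (fderiv ℝ τ y v)
      + fD h (τ y) (fderiv ℝ τ y b) (fderiv ℝ (fderiv ℝ τ) y a u) (fderiv ℝ τ y v)
      + fD h (τ y) (fderiv ℝ τ y b) (fderiv ℝ τ y u) (fderiv ℝ (fderiv ℝ τ) y a v)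
      + (fD h (τ y) (fderiv ℝ τ y a) (fderiv ℝ (fderiv ℝ τ) y b u) (fderiv ℝ τ y v)
        + fB h (τ y) (fderiv ℝ (fderiv ℝ (fderiv ℝ τ)) y a b u) (fderiv ℝ τ y v)
        + fB h (τ y) (fderiv ℝ (fderiv ℝ τ) y b u) (fderiv ℝ (fderiv ℝ τ) y a v))
      + (fD h (τ y) (fderiv ℝ τ y a) (fderiv ℝ τ y u) (fderiv ℝ (fderiv ℝ τ) y b v)
        + fB h (τ y) (fderiv ℝ (fderiv ℝ τ) y a u) (fderiv ℝ (fderiv ℝ τ) y b v)
        + fB h (τ y) (fderiv ℝ τ y u) (fderiv ℝ (fderiv ℝ (fderiv ℝ τ)) y a b v))) := by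
  have hh' := coeff_contDiffAt hτ hh hlaw
  have hG := Gf_contDiffAt hh
  obtain ⟨g1, -, -⟩ := smooth_jets hG
  obtain ⟨t1, t2, -⟩ := smooth_jets hτ
  have key : ∀ v w, (fun x => mkB (finBasis ℝ E) (fun i j => h' x i j) v w) =ᶠ[𝓝 y]
      fun x => Gf h (τ x) (fderiv ℝ τ x v) (fderiv ℝ τ x w) := by
    intro v w
    filter_upwards [hlaw] with x hx
    rw [Gf_apply, law_apply hx]
  refine ⟨fun u v => ?_, fun a u v => ?_, fun a b u v => ?_⟩
  · exact law_apply hlaw.self_of_nhds u v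
  · have h1 := form_fderiv (finBasis ℝ E) (M := fun i j y => h' y i j) hh' a u v
    rw [← h1, (key u v).fderiv_eq, pull_fderiv g1 t1 t2, Gf_fderiv hh, Gf_apply, Gf_apply]
  · have h1 := form_fderiv2 (finBasis ℝ E) (M := fun i j y => h' y i j) hh' a b u v
    rw [← h1, (key u v).fderiv.fderiv_eq, pull_fderiv2 hG hτ, Gf_fderiv2 hh]
    simp only [Gf_fderiv hh, Gf_apply]

omit [FiniteDimensional ℝ E] in
theorem second_symm (hτ : ContDiffAt ℝ ∞ τ y) (u v : E) :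
    fderiv ℝ (fderiv ℝ τ) y u v = fderiv ℝ (fderiv ℝ τ) y v u :=
  ((hτ.of_le two_le_inf).isSymmSndFDerivAt (by simp)) u v

omit [FiniteDimensional ℝ E] in
theorem third_symm (hτ : ContDiffAt ℝ ∞ τ y) (u v w : E) :
    fderiv ℝ (fderiv ℝ (fderiv ℝ τ)) y u v w = fderiv ℝ (fderiv ℝ (fderiv ℝ τ)) y v u w := by
  have c1 : ContDiffAt ℝ ∞ (fderiv ℝ τ) y := hτ.fderiv_right (by norm_num)
  have h1 : IsSymmSndFDerivAt ℝ (fderiv ℝ τ) y :=
    (c1.of_le two_le_inf).isSymmSndFDerivAt (by simp)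
  have h2 : fderiv ℝ (fderiv ℝ (fderiv ℝ τ)) y u v = fderiv ℝ (fderiv ℝ (fderiv ℝ τ)) y v u :=
    h1 u v
  rw [h2]

omit [FiniteDimensional ℝ E] in
theorem third_symm' (hτ : ContDiffAt ℝ ∞ τ y) (u v w : E) :
    fderiv ℝ (fderiv ℝ (fderiv ℝ τ)) y u v w = fderiv ℝ (fderiv ℝ (fderiv ℝ τ)) y u w v := by
  obtain ⟨t1, t2, t3⟩ := smooth_jets hτ
  have h1 : HasFDerivAt (fun x => fderiv ℝ (fderiv ℝ τ) x v w)
      (((fderiv ℝ (fderiv ℝ (fderiv ℝ τ)) y).flip v).flip w) y :=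
    clm1_hasFDerivAt (clm1_hasFDerivAt t3 v) w
  have h2 : HasFDerivAt (fun x => fderiv ℝ (fderiv ℝ τ) x w v)
      (((fderiv ℝ (fderiv ℝ (fderiv ℝ τ)) y).flip w).flip v) y :=
    clm1_hasFDerivAt (clm1_hasFDerivAt t3 w) v
  have h3 : (fun x => fderiv ℝ (fderiv ℝ τ) x v w) =ᶠ[𝓝 y]
      fun x => fderiv ℝ (fderiv ℝ τ) x w v := by
    have h4 : ContDiffAt ℝ 2 τ y := hτ.of_le two_le_inf
    filter_upwards [h4.eventually (by simp)] with x hx
    have h6 : IsSymmSndFDerivAt ℝ τ x := hx.isSymmSndFDerivAt (by simp)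
    exact h6 v w
  have h5 := h3.fderiv_eq (𝕜 := ℝ)
  rw [h1.fderiv, h2.fderiv] at h5
  exact DFunLike.congr_fun h5 u

theorem nondeg_of (hsymm : ∀ i j, h (τ y) i j = h (τ y) j i) (hnd : (h (τ y)).det ≠ 0) :
    Nondeg (V := E) (ι := Fin (finrank ℝ E)) (finBasis ℝ E) (fB h (τ y)) := by
  refine ⟨fun u v => mkB_symm (finBasis ℝ E) hsymm u v, ?_⟩
  rw [gram_mkB]
  exact hnd.isUnit

theorem nondeg_of' {f : Basis (Fin (finrank ℝ E)) ℝ E}
    (hf : ∀ i, f i = fderiv ℝ τ y (finBasis ℝ E i)) (hdet : (fderiv ℝ τ y).det ≠ 0)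
    (hsymm : ∀ i j, h (τ y) i j = h (τ y) j i) (hnd : (h (τ y)).det ≠ 0)
    (hlaw : h' y = (LinearMap.toMatrix (finBasis ℝ E) (finBasis ℝ E)
        (fderiv ℝ τ y : E →ₗ[ℝ] E)).transpose * h (τ y) *
      LinearMap.toMatrix (finBasis ℝ E) (finBasis ℝ E) (fderiv ℝ τ y : E →ₗ[ℝ] E)) :
    Nondeg f (fB h (τ y)) := by
  refine ⟨fun u v => mkB_symm (finBasis ℝ E) hsymm u v, ?_⟩
  have h1 : gram f (fB h (τ y)) = h' y := by
    ext i j
    rw [gram, Matrix.of_apply, hf, hf, ← law_apply hlaw, mkB_basis]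
  have h2 : LinearMap.det (fderiv ℝ τ y : E →ₗ[ℝ] E) ≠ 0 := hdet
  rw [h1, hlaw, Matrix.det_mul, Matrix.det_mul, Matrix.det_transpose, LinearMap.det_toMatrix]
  exact (mul_ne_zero (mul_ne_zero h2 hnd) h2).isUnit

end link

end PJ

end Pool.Agent.Lib.MP_df705a_gt.Perm
end
end

section

/-!
# Pullbacks between two model spaces of the same dimension: definition
-/

open scoped Manifold ContDiff Topology
open Set Bundle Module Filter

noncomputable section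

namespace Pool.Agent.Lib.MP_df705a_gt.Circ

open Pool.Agent.Lib.MP_df705a_gt.Twist Pool.Agent.Lib.MP_df705a_gt.Perm
open Pool.Agent.Lib.MP_df705a_gt.Sub (mB)

variable {E' : Type*} [NormedAddCommGroup E'] [NormedSpace ℝ E'] [FiniteDimensional ℝ E']
  {E : Type*} [NormedAddCommGroup E] [NormedSpace ℝ E] [FiniteDimensional ℝ E]

/-- Near `y` the coefficients `C'` are the pullback of `C` by `τ`. -/
structure PullAt (C' : Curv.Coeff E') (C : Curv.Coeff E) (τ : E' → E) (y : E') : Prop where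
  smooth : ContDiffAt ℝ ∞ τ y
  bij : Function.Bijective (fderiv ℝ τ y)
  c_smooth : ∀ i j, ContDiffAt ℝ ∞ (fun x => C x i j) (τ y)
  c_symm : ∀ᶠ x in 𝓝 (τ y), ∀ i j, C x i j = C x j i
  c_det : (C (τ y)).det ≠ 0
  law : ∀ᶠ x in 𝓝 y, ∀ i j, C' x i j =
    mB (C (τ x)) (fderiv ℝ τ x (finBasis ℝ E' i)) (fderiv ℝ τ x (finBasis ℝ E' j))

end Pool.Agent.Lib.MP_df705a_gt.Circ
end
end

section

/-!
# TASK G2: the Laplacian and the gradient product are invariant under changes of coordinates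
-/

open scoped Manifold ContDiff Topology
open Set Bundle Module Filter

noncomputable section

namespace Pool.Agent.Lib.MP_df705a_gt.Perm

open Pool.Agent.Lib.MP_df705a_gt.Twist

variable {E : Type*} [NormedAddCommGroup E] [NormedSpace ℝ E] [FiniteDimensional ℝ E]

theorem gradC_pull {h h' : Curv.Coeff E} {τ : E → E} {y : E} (hτ : ContDiffAt ℝ ∞ τ y)
    (hdet : (fderiv ℝ τ y).det ≠ 0)
    (hlaw : h' y = (LinearMap.toMatrix (finBasis ℝ E) (finBasis ℝ E)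
        (fderiv ℝ τ y : E →ₗ[ℝ] E)).transpose * h (τ y) *
      LinearMap.toMatrix (finBasis ℝ E) (finBasis ℝ E) (fderiv ℝ τ y : E →ₗ[ℝ] E))
    {u v : E → ℝ} (hu : ContDiffAt ℝ ∞ u (τ y)) (hv : ContDiffAt ℝ ∞ v (τ y)) :
    gradC h' (u ∘ τ) (v ∘ τ) y = gradC h u v (τ y) := by
  obtain ⟨t1, -, -⟩ := PJ.smooth_jets hτ
  have hd : ∀ {w : E → ℝ}, ContDiffAt ℝ ∞ w (τ y) →
      fderiv ℝ (w ∘ τ) y = (fderiv ℝ w (τ y)).comp (fderiv ℝ τ y) := fun {w} hw =>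
    ((PJ.smooth_jets hw).1.comp y t1).fderiv
  have key : ∀ (H : Matrix (Fin (finrank ℝ E)) (Fin (finrank ℝ E)) ℝ) (a b : E →L[ℝ] ℝ),
      ∑ i, ∑ j, H⁻¹ i j * (a (finBasis ℝ E i) * b (finBasis ℝ E j)) =
        a (gradM (finBasis ℝ E) H b) := by
    intro H a b
    unfold gradM
    rw [map_sum]
    refine Finset.sum_congr rfl fun i _ => ?_
    rw [map_smul, smul_eq_mul, Finset.sum_mul]
    refine Finset.sum_congr rfl fun j _ => ?_
    ring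
  unfold gradC Curv.pd
  rw [key, key, hd hu, hd hv, ContinuousLinearMap.comp_apply,
    gradM_law (finBasis ℝ E) hdet hlaw]

theorem lapC_pull {h h' : Curv.Coeff E} {τ : E → E} {y : E} (hτ : ContDiffAt ℝ ∞ τ y)
    (hdet : (fderiv ℝ τ y).det ≠ 0)
    (hh : ∀ i j, ContDiffAt ℝ ∞ (fun x => h x i j) (τ y))
    (hsymm : ∀ᶠ x in 𝓝 (τ y), ∀ i j, h x i j = h x j i) (hnd : (h (τ y)).det ≠ 0)
    (hlaw : ∀ᶠ x in 𝓝 y, h' x = (LinearMap.toMatrix (finBasis ℝ E) (finBasis ℝ E)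
        (fderiv ℝ τ x : E →ₗ[ℝ] E)).transpose * h (τ x) *
      LinearMap.toMatrix (finBasis ℝ E) (finBasis ℝ E) (fderiv ℝ τ x : E →ₗ[ℝ] E))
    {u : E → ℝ} (hu : ContDiffAt ℝ ∞ u (τ y)) :
    lapC h' (u ∘ τ) y = lapC h u (τ y) := by
  have hs := hsymm.self_of_nhds
  obtain ⟨f, hf⟩ := PJ.exists_basis hdet
  obtain ⟨j0, j1, -⟩ := PJ.jets hτ hh hlaw
  obtain ⟨t1, t2, -⟩ := PJ.smooth_jets hτ
  have hc : ContDiffAt ℝ ∞ (u ∘ τ) y := hu.comp y hτ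
  have hd : ∀ᶠ x in 𝓝 y, fderiv ℝ (u ∘ τ) x = (fderiv ℝ u (τ x)).comp (fderiv ℝ τ x) := by
    filter_upwards [hτ.continuousAt.eventually (PJ.eventually_jets hu), PJ.eventually_jets hτ]
      with x hx hx'
    exact (hx.1.comp x hx'.1).fderiv
  rw [lapC_link hc, lapC_link hu]
  refine PJ.lap_pull_alg (L := fderiv ℝ τ y) (Q := fun u v => fderiv ℝ (fderiv ℝ τ) y u v) hf
    (PJ.nondeg_of' hf hdet hs hnd hlaw.self_of_nhds) (PJ.nondeg_of hs hnd) j0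
    (PJ.second_symm hτ) j1 (fun v => ?_) (fun v w => ?_)
  · change fderiv ℝ (u ∘ τ) y v = fderiv ℝ u (τ y) (fderiv ℝ τ y v)
    rw [hd.self_of_nhds]
    rfl
  · change fderiv ℝ (fderiv ℝ (u ∘ τ)) y v w = fderiv ℝ (fderiv ℝ u) (τ y) (fderiv ℝ τ y v)
      (fderiv ℝ τ y w) + fderiv ℝ u (τ y) (fderiv ℝ (fderiv ℝ τ) y v w)
    have g2 := (PJ.smooth_jets hu).2.1.comp y t1
    have h3 := g2.clm_apply (PJ.clm1_hasFDerivAt t2 w)
    rw [← Alg.fderiv_fderiv_apply hc]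
    have hev : (fun x => fderiv ℝ (u ∘ τ) x w) =ᶠ[𝓝 y]
        fun x => (fderiv ℝ u ∘ τ) x (fderiv ℝ τ x w) := by
      filter_upwards [hd] with x hx
      rw [hx]
      rfl
    rw [hev.fderiv_eq, h3.fderiv]
    simp
    ring

end Pool.Agent.Lib.MP_df705a_gt.Perm
end
end
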