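import Pool.Agent.Lib.MP_df705a_gt.Coll.Defs
import Pool.Agent.Lib.MP_df705a_gt.Mg.G058
import Pool.Agent.Lib.MP_df705a_gt.Mg.G055
import Pool.Agent.Lib.MP_df705a_gt.Mg.G060

section

/-!
# Module T: definitions
-/

open scoped Manifold ContDiff Topology
open Set Bundle Module Filter MeasureTheory

noncomputable section

namespace Pool.Agent.Lib.MP_df705a_gt.Coll.T

open Pool.Agent.Lib.MP_df705a_gt.Twist Pool.Agent.Lib.MP_df705a_gt.Perm
open Pool.Agent.Lib.MP_df705a_gt.Circ (cf Para)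

set_option linter.unusedSectionVars false

section coordinates

variable {E : Type*} [NormedAddCommGroup E] [NormedSpace ℝ E] [FiniteDimensional ℝ E]

/-- The symmetric product of the differentials of `u` and `v`, in coordinates. -/
def ddC (u v : E → ℝ) (x : E) : Matrix (Fin (finrank ℝ E)) (Fin (finrank ℝ E)) ℝ :=
  fun i j => (Curv.pd i u x * Curv.pd j v x + Curv.pd j u x * Curv.pd i v x) / 2

/-- The matrix of a linear map. -/
def mat (L : E →L[ℝ] E) : Matrix (Fin (finrank ℝ E)) (Fin (finrank ℝ E)) ℝ :=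
  LinearMap.toMatrix (finBasis ℝ E) (finBasis ℝ E) (L : E →ₗ[ℝ] E)

/-- The pullback of the metric `h` by the map `τ`. -/
def pull (h : Curv.Coeff E) (τ : E → E) : Curv.Coeff E := fun x =>
  (mat (fderiv ℝ τ x)).transpose * h (τ x) * mat (fderiv ℝ τ x)

/-- `h` is a smooth Riemannian metric near `x`. -/
def RM (h : Curv.Coeff E) (x : E) : Prop :=
  ∀ᶠ z in 𝓝 x, (∀ i j, ContDiffAt ℝ ∞ (fun y => h y i j) z) ∧ (h z).PosDef

/-- `u` is smooth near `x`. -/
def SmF (u : E → ℝ) (x : E) : Prop := ∀ᶠ z in 𝓝 x, ContDiffAt ℝ ∞ u z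

/-- Normal coordinates at `x`. -/
structure Nrm (h : Curv.Coeff E) (x : E) : Prop where
  rm : RM h x
  one : h x = 1
  flat : ∀ i j, fderiv ℝ (fun y => h y i j) x = 0

/-- The linearization of the scalar curvature in the direction `dw ⊗ dw`, in coordinates. -/
def DSC (h : Curv.Coeff E) (w : E → ℝ) (x : E) : ℝ :=
  lapC h w x ^ 2 + gradC h w (lapC h w) x - (1 / 2) * lapC h (gradC h w w) x -
    ipM (h x) (ric h x) (ddC w w x)

theorem RM.self {h : Curv.Coeff E} {x : E} (H : RM h x) :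
    (∀ i j, ContDiffAt ℝ ∞ (fun y => h y i j) x) ∧ (h x).PosDef := H.self_of_nhds

theorem RM.nhds {h : Curv.Coeff E} {x : E} (H : RM h x) : ∀ᶠ z in 𝓝 x, RM h z :=
  eventually_eventually_nhds.2 H

theorem RM.symm {h : Curv.Coeff E} {x : E} (H : RM h x) (i j) : h x i j = h x j i := by
  have h1 := H.self.2.isHermitian.apply i j
  simpa using h1.symm

theorem RM.det {h : Curv.Coeff E} {x : E} (H : RM h x) : (h x).det ≠ 0 :=
  H.self.2.det_pos.ne'

theorem SmF.self {u : E → ℝ} {x : E} (H : SmF u x) : ContDiffAt ℝ ∞ u x := H.self_of_nhds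

theorem SmF.nhds {u : E → ℝ} {x : E} (H : SmF u x) : ∀ᶠ z in 𝓝 x, SmF u z :=
  eventually_eventually_nhds.2 H

end coordinates

section manifold

variable {E : Type*} [NormedAddCommGroup E] [NormedSpace ℝ E] [FiniteDimensional ℝ E]
  {M : Type*} [TopologicalSpace M] [ChartedSpace E M] [IsManifold 𝓘(ℝ, E) ∞ M]

/-- The matrix of the change of coordinates from the chart at `z` to the preferred chart at the
point with the coordinates `y`. -/
def chg (E : Type*) [NormedAddCommGroup E] [NormedSpace ℝ E] [FiniteDimensional ℝ E]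
    {M : Type*} [TopologicalSpace M] [ChartedSpace E M] (z : M) (y : E) :
    Matrix (Fin (finrank ℝ E)) (Fin (finrank ℝ E)) ℝ :=
  mat (fderiv ℝ (trans 𝓘(ℝ, E) ((extChartAt 𝓘(ℝ, E) z).symm y) z) y)

/-- `K` is a smooth covariant tensor field. -/
def Ten (E : Type*) [NormedAddCommGroup E] [NormedSpace ℝ E] [FiniteDimensional ℝ E]
    {M : Type*} [TopologicalSpace M] [ChartedSpace E M]
    (K : M → Matrix (Fin (finrank ℝ E)) (Fin (finrank ℝ E)) ℝ) : Prop :=
  ∀ z : M, ∃ C : E → Matrix (Fin (finrank ℝ E)) (Fin (finrank ℝ E)) ℝ,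
    ∀ y ∈ (extChartAt 𝓘(ℝ, E) z).target, (∀ i j, ContDiffAt ℝ ∞ (fun y => C y i j) y) ∧
      C y = (chg E z y).transpose * K ((extChartAt 𝓘(ℝ, E) z).symm y) * chg E z y

end manifold

end Pool.Agent.Lib.MP_df705a_gt.Coll.T
end
end

section

/-!
# Module T, L3: the Ricci curvature in other coordinates
-/

open scoped Manifold ContDiff Topology
open Set Bundle Module Filter MeasureTheory

noncomputable section

set_option linter.unusedSectionVars false

namespace Pool.Agent.Lib.MP_df705a_gt.Coll.T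

open Pool.Agent.Lib.MP_df705a_gt.Twist Pool.Agent.Lib.MP_df705a_gt.Perm
open Pool.Agent.Lib.MP_df705a_gt.Circ (cf Para)

namespace L3Aux

open Alg

section algebra

variable {V : Type*} [AddCommGroup V] [Module ℝ V] {ι κ : Type*} [Fintype ι]
  [DecidableEq ι] [Fintype κ] [DecidableEq κ] {e : Basis ι ℝ V} {f : Basis κ ℝ V} {h : Bil V}
  (D : V →ₗ[ℝ] Bil V) (D2 : V →ₗ[ℝ] V →ₗ[ℝ] Bil V)

/-- The curvature as a bilinear form in the outer variables. -/
def curvOut (e : Basis ι ℝ V) (h : Bil V) (v w : V) : V →ₗ[ℝ] V →ₗ[ℝ] ℝ :=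
  LinearMap.mk₂ ℝ (fun u z => curv e h D D2 u v w z)
    (fun v v' w => by
      simp only [curv, chr_add_left, chr_add_right, cop_add_left, cop_add_right, chr_apply,
        map_add, LinearMap.add_apply]
      ring)
    (fun c v w => by
      simp only [curv, chr_smul_left, chr_smul_right, cop_smul_left, cop_smul_right, chr_apply,
        map_smul, LinearMap.smul_apply, smul_eq_mul]
      ring)
    (fun v w w' => by
      simp only [curv, chr_add_left, chr_add_right, cop_add_left, cop_add_right, chr_apply,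
        map_add, LinearMap.add_apply]
      ring)
    (fun c v w => by
      simp only [curv, chr_smul_left, chr_smul_right, cop_smul_left, cop_smul_right, chr_apply,
        map_smul, LinearMap.smul_apply, smul_eq_mul]
      ring)

/-- The Ricci form in the middle variables. -/
def ricMid (e : Basis ι ℝ V) (h : Bil V) : V →ₗ[ℝ] V →ₗ[ℝ] ℝ :=
  LinearMap.mk₂ ℝ (fun v w => tr e h fun u z => curv e h D D2 u v w z)
    (fun v v' w => by
      rw [← tr_add]
      refine tr_congr fun x y => ?_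
      simp only [curv, chr_add_left, chr_add_right, cop_add_left, cop_add_right, chr_apply,
        map_add, LinearMap.add_apply]
      ring)
    (fun c v w => by
      rw [smul_eq_mul, ← tr_const_mul]
      refine tr_congr fun x y => ?_
      simp only [curv, chr_smul_left, chr_smul_right, cop_smul_left, cop_smul_right, chr_apply,
        map_smul, LinearMap.smul_apply, smul_eq_mul]
      ring)
    (fun v w w' => by
      rw [← tr_add]
      refine tr_congr fun x y => ?_
      simp only [curv, chr_add_left, chr_add_right, cop_add_left, cop_add_right, chr_apply,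
        map_add, LinearMap.add_apply]
      ring)
    (fun c v w => by
      rw [smul_eq_mul, ← tr_const_mul]
      refine tr_congr fun x y => ?_
      simp only [curv, chr_smul_left, chr_smul_right, cop_smul_left, cop_smul_right, chr_apply,
        map_smul, LinearMap.smul_apply, smul_eq_mul]
      ring)

theorem ric_basis (he : Nondeg e h) (hf : Nondeg f h) (v w : V) :
    tr e h (fun u z => curv e h D D2 u v w z) = tr f h (fun u z => curv f h D D2 u v w z) := by
  have h2 := tr_basis he hf (curvOut D D2 e h v w)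
  have h3 : ∀ u z, curvOut D D2 e h v w u z = curv e h D D2 u v w z := fun u z => rfl
  have h4 : ∀ u z, curv e h D D2 u v w z = curv f h D D2 u v w z := by
    intro u z
    unfold curv
    rw [cop_basis he hf, cop_basis he hf]
  simp only [h3] at h2
  rw [h2]
  exact tr_congr h4

end algebra

variable {E : Type*} [NormedAddCommGroup E] [NormedSpace ℝ E] [FiniteDimensional ℝ E]

theorem form_law {S S' : Matrix (Fin (finrank ℝ E)) (Fin (finrank ℝ E)) ℝ} {L : E →L[ℝ] E}
    (T : Bil E) (hS : ∀ i j, S i j = T (finBasis ℝ E i) (finBasis ℝ E j))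
    (hS' : ∀ i j, S' i j = T (L (finBasis ℝ E i)) (L (finBasis ℝ E j))) :
    S' = (mat L).transpose * S * mat L := by
  have h1 : T = mkB (finBasis ℝ E) (fun i j => S i j) := by
    refine (finBasis ℝ E).ext fun i => (finBasis ℝ E).ext fun j => ?_
    rw [mkB_basis, hS]
  ext i j
  have h2 := PJ.law_apply (H' := (mat L).transpose * S * mat L) (H := S) (L := L) rfl
    (finBasis ℝ E i) (finBasis ℝ E j)
  rw [mkB_basis] at h2
  rw [h2, hS', h1]

theorem ric_link {h : Curv.Coeff E} {x : E}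
    (hh : ∀ i j, ContDiffAt ℝ ∞ (fun y => h y i j) x) (j k : Fin (finrank ℝ E)) :
    ric h x j k = tr (finBasis ℝ E) (fB h x) (fun u z => curv (finBasis ℝ E) (fB h x) (fD h x)
      (fD2 h x) u (finBasis ℝ E j) (finBasis ℝ E k) z) := by
  unfold Coll.ric tr
  rw [gram_mkB]
  refine Finset.sum_congr rfl fun i _ => Finset.sum_congr rfl fun l _ => ?_
  rw [riemann_eq hh]

end L3Aux

variable {E : Type*} [NormedAddCommGroup E] [NormedSpace ℝ E] [FiniteDimensional ℝ E]
  {h h' : Curv.Coeff E} {τ : E → E} {y : E}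

open L3Aux in
/-- As `scal_pull` (Perm/ScalPull.lean): `ric h x j k = tr e h (fun u z => curv e h D D2 u e_j e_k z)`
by `Alg.riemann_eq`; `PJ.curv_pull`, `PJ.tr_pull`, and independence of the trace of the basis. -/
theorem ric_pull (hτ : ContDiffAt ℝ ∞ τ y) (hdet : (fderiv ℝ τ y).det ≠ 0)
    (hh : ∀ i j, ContDiffAt ℝ ∞ (fun x => h x i j) (τ y))
    (hsymm : ∀ᶠ x in 𝓝 (τ y), ∀ i j, h x i j = h x j i) (hnd : (h (τ y)).det ≠ 0)
    (hlaw : ∀ᶠ x in 𝓝 y, h' x = (mat (fderiv ℝ τ x)).transpose * h (τ x) * mat (fderiv ℝ τ x)) :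
    ric h' y = (mat (fderiv ℝ τ y)).transpose * ric h (τ y) * mat (fderiv ℝ τ y) := by
  have hs := hsymm.self_of_nhds
  obtain ⟨f, hf⟩ := PJ.exists_basis hdet
  obtain ⟨j0, j1, j2⟩ := PJ.jets hτ hh hlaw
  have hn1 := PJ.nondeg_of' hf hdet hs hnd hlaw.self_of_nhds
  have hn2 := PJ.nondeg_of hs hnd
  refine form_law (ricMid (Alg.fD h (τ y)) (Alg.fD2 h (τ y)) (finBasis ℝ E) (Alg.fB h (τ y)))
    (fun i j => ?_) (fun j k => ?_)
  · exact ric_link hh i j
  · rw [ric_link (PJ.coeff_contDiffAt hτ hh hlaw)]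
    have h1 : ricMid (Alg.fD h (τ y)) (Alg.fD2 h (τ y)) (finBasis ℝ E) (Alg.fB h (τ y))
        (fderiv ℝ τ y (finBasis ℝ E j)) (fderiv ℝ τ y (finBasis ℝ E k)) =
        Alg.tr (finBasis ℝ E) (Alg.fB h (τ y)) (fun u z => Alg.curv (finBasis ℝ E)
          (Alg.fB h (τ y)) (Alg.fD h (τ y)) (Alg.fD2 h (τ y)) u
          (fderiv ℝ τ y (finBasis ℝ E j)) (fderiv ℝ τ y (finBasis ℝ E k)) z) := rfl
    rw [h1, ric_basis _ _ hn2 hn1, ← PJ.tr_pull hf j0]
    refine Alg.tr_congr fun u z => ?_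
    exact PJ.curv_pull (L := fderiv ℝ τ y) (Q := fun u v => fderiv ℝ (fderiv ℝ τ) y u v)
      (C := fun u v w => fderiv ℝ (fderiv ℝ (fderiv ℝ τ)) y u v w) hf hn1 j0
      (PJ.second_symm hτ) (fun a u v => Alg.mkD_symm (finBasis ℝ E) (Alg.j1_symm hsymm) a u v)
      (PJ.third_symm' hτ) (PJ.third_symm hτ) j1 j2 _ _ _ _

end Pool.Agent.Lib.MP_df705a_gt.Coll.T
end
end

section

/-!
# TASK GC: curvature of the product with a flat metric
-/

open scoped Manifold ContDiff Topology
open Set Bundle Module Filter MeasureTheory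

noncomputable section

namespace Pool.Agent.Lib.MP_df705a_gt.Pin

open Pool.Agent.Lib.MP_df705a_gt.Twist Pool.Agent.Lib.MP_df705a_gt.Twist.Alg

variable {E' : Type*} [NormedAddCommGroup E'] [NormedSpace ℝ E'] [FiniteDimensional ℝ E']
  {E : Type*} [NormedAddCommGroup E] [NormedSpace ℝ E] [FiniteDimensional ℝ E]
  {F : Type*} [NormedAddCommGroup F] [InnerProductSpace ℝ F] [FiniteDimensional ℝ F]
  {h : Curv.Coeff E} {P : E' →L[ℝ] E} {S : E' →L[ℝ] F} {z : E'}

private theorem gc_split (h : Curv.Coeff E) (z : E')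
    (hb : Function.Bijective fun v : E' => (P v, S v)) :
    Split (P : E' →ₗ[ℝ] E) (S : E' →ₗ[ℝ] F) (fB (lin h P S) z) (fB h (P z)) :=
  ⟨hb, fun u v => fB_lin h P S z u v⟩

private theorem gc_nondeg (hpos : (h (P z)).PosDef) : Nondeg (finBasis ℝ E) (fB h (P z)) := by
  refine Perm.PJ.nondeg_of (τ := fun x : E => x) (y := P z) (fun i j => ?_) ?_
  · have h1 := hpos.isHermitian.apply j i
    simpa using h1
  · exact hpos.det_pos.ne'

private theorem gc_ricB (hh : ∀ i j, ContDiffAt ℝ ∞ (fun x => h x i j) (P z)) :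
    ricB h (P z) = gaMid (fD h (P z)) (fD2 h (P z)) (finBasis ℝ E) (fB h (P z)) := by
  refine (finBasis ℝ E).ext fun i => (finBasis ℝ E).ext fun j => ?_
  unfold ricB
  rw [mkB_basis]
  exact Coll.T.L3Aux.ric_link hh i j

/-- (`Coll.T.L3Aux.ric_link` on both sides, `ric_split` with `fD_lin`, `fD2_lin`; on the right one needs
that `ricB` evaluated on arbitrary vectors is the trace `tr e h (curv u v w z)`, which is bilinear in
`v, w`: `Coll.T.L3Aux.ricMid`.) -/
theorem ric_lin (hh : ∀ i j, ContDiffAt ℝ ∞ (fun x => h x i j) (P z)) (hpos : (h (P z)).PosDef)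
    (hb : Function.Bijective fun v : E' => (P v, S v)) (j k : Fin (finrank ℝ E')) :
    ric (lin h P S) z j k =
      ricB h (P z) (P (finBasis ℝ E' j)) (P (finBasis ℝ E' k)) := by
  have h1 : ric (lin h P S) z j k = _ :=
    Coll.T.L3Aux.ric_link (fun i j => contDiffAt_lin hh S i j) j k
  rw [h1, ric_split (gc_split h z hb) (gc_nondeg hpos) (finBasis ℝ E') (fD_lin hh S)
    (fD2_lin hh S), gc_ricB hh]
  rfl

/-- (`scal_link`, `scal_split`) -/
theorem scal_lin (hh : ∀ i j, ContDiffAt ℝ ∞ (fun x => h x i j) (P z)) (hpos : (h (P z)).PosDef)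
    (hb : Function.Bijective fun v : E' => (P v, S v)) :
    Curv.scal (lin h P S) z = Curv.scal h (P z) := by
  rw [scal_link (fun i j => contDiffAt_lin hh S i j), scal_link hh]
  exact scal_split (gc_split h z hb) (gc_nondeg hpos) (finBasis ℝ E') (fD_lin hh S)
    (fD2_lin hh S)

/-- (`lapC_link`, `lap_split`) -/
theorem lapC_lin (hh : ∀ i j, ContDiffAt ℝ ∞ (fun x => h x i j) (P z)) (hpos : (h (P z)).PosDef)
    (hb : Function.Bijective fun v : E' => (P v, S v)) {u : E → ℝ}
    (hu : ContDiffAt ℝ ∞ u (P z)) :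
    lapC (lin h P S) (fun z => u (P z)) z = lapC h u (P z) := by
  have hu' : ContDiffAt ℝ ∞ (fun z => u (P z)) z := hu.comp z P.contDiff.contDiffAt
  rw [lapC_link hu', lapC_link hu]
  have hu2 : ContDiffAt ℝ 2 u (P z) := hu.of_le two_le_inf
  have hev : ∀ᶠ y in 𝓝 z, ContDiffAt ℝ 2 u (P y) := by
    have h1 : ∀ᶠ x in 𝓝 (P z), ContDiffAt ℝ 2 u x := hu2.eventually (by simp)
    exact P.continuous.continuousAt.eventually h1
  have hf1 : ∀ y, ContDiffAt ℝ 2 u (P y) → fderiv ℝ (fun z => u (P z)) y =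
      (fderiv ℝ u (P y)).comp P := by
    intro y hy
    have h2 : HasFDerivAt (fun z => u (P z)) ((fderiv ℝ u (P y)).comp P) y :=
      (hy.differentiableAt (by simp)).hasFDerivAt.comp y P.hasFDerivAt
    exact h2.fderiv
  refine lap_split (gc_split h z hb) (gc_nondeg hpos) (finBasis ℝ E') (fD_lin hh S)
    (fun v => ?_) (fun v w => ?_)
  · show fderiv ℝ (fun z => u (P z)) z v = fderiv ℝ u (P z) (P v)
    rw [hf1 z hu2]
    rfl
  · rw [toL2_apply, toL2_apply]
    have h3 : fderiv ℝ (fun z => u (P z)) =ᶠ[𝓝 z] fun y => (fderiv ℝ u (P y)).comp P :=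
      hev.mono hf1
    rw [h3.fderiv_eq]
    have h4 : HasFDerivAt (fun y => (fderiv ℝ u (P y)).comp P)
        (((ContinuousLinearMap.compL ℝ E' E ℝ).flip P).comp
          ((fderiv ℝ (fderiv ℝ u) (P z)).comp P)) z := by
      have h5 : HasFDerivAt (fun y => fderiv ℝ u (P y))
          ((fderiv ℝ (fderiv ℝ u) (P z)).comp P) z :=
        (differentiableAt_fderiv hu).hasFDerivAt.comp z P.hasFDerivAt
      exact ((ContinuousLinearMap.compL ℝ E' E ℝ).flip P).hasFDerivAt.comp z h5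
    rw [h4.fderiv]
    rfl

end Pool.Agent.Lib.MP_df705a_gt.Pin
end
end

section

/-!
# Module T, L2: the covariant Hessian in other coordinates
-/

open scoped Manifold ContDiff Topology
open Set Bundle Module Filter MeasureTheory

noncomputable section

set_option linter.unusedSectionVars false

namespace Pool.Agent.Lib.MP_df705a_gt.Coll.T

open Pool.Agent.Lib.MP_df705a_gt.Twist Pool.Agent.Lib.MP_df705a_gt.Perm
open Pool.Agent.Lib.MP_df705a_gt.Circ (cf Para)

namespace L2Aux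

open Alg

section algebra

variable {V : Type*} [AddCommGroup V] [Module ℝ V] {ι : Type*} [Fintype ι]
  [DecidableEq ι] {e f : Basis ι ℝ V} {h h' : Bil V} {D D' : V →ₗ[ℝ] Bil V}
  {L : V → V} {Q : V → V → V}

/-- The covariant Hessian is a bilinear form. -/
theorem exists_form (he : Nondeg e h) (D : V →ₗ[ℝ] Bil V) (f1 : V →ₗ[ℝ] ℝ) (f2 : Bil V) :
    ∃ T : Bil V, ∀ u v, T u v = f2 u v - cop e h (chr D u v) f1 := by
  obtain ⟨x, hx⟩ := exists_rep he f1
  have h1 : (f1 : V → ℝ) = h x := funext fun v => (hx v).symm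
  have h2 : ∀ u v, chr D u v x = (2⁻¹ : ℝ) * (D u v x + D v u x - D x u v) := by
    intro u v
    rw [chr_apply]
    ring
  refine ⟨f2 - (2⁻¹ : ℝ) • ((D.flip.flip.compr₂ (LinearMap.applyₗ x)) +
        (D.flip.compr₂ (LinearMap.applyₗ x)) - D x), fun u v => ?_⟩
  rw [h1, cop_form_right he, h2]
  simp [LinearMap.compr₂_apply]

theorem hess_alg (hf : ∀ i, f i = L (e i)) (hnd : Nondeg f h) (hnd' : Nondeg e h)
    (h0 : ∀ u v, h' u v = h (L u) (L v)) (hQ : ∀ u v, Q u v = Q v u)
    (h1 : ∀ a u v, D' a u v = D (L a) (L u) (L v) + h (Q a u) (L v) + h (L u) (Q a v))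
    {f1 f1' : V →ₗ[ℝ] ℝ} {f2 f2' : Bil V} (g1 : ∀ u, f1' u = f1 (L u))
    (g2 : ∀ u v, f2' u v = f2 (L u) (L v) + f1 (Q u v)) (u v : V) :
    f2' u v - cop e h' (chr D' u v) f1' =
      f2 (L u) (L v) - cop e h (chr D (L u) (L v)) f1 := by
  rw [PJ.cop_pull hf h0 (chr D (L u) (L v) + h (Q u v) : V →ₗ[ℝ] ℝ) f1
    (PJ.chr_pull hnd.symm hQ h1 u v) g1, g2]
  have e1 : ∀ x y : V →ₗ[ℝ] ℝ, ((x + y : V →ₗ[ℝ] ℝ) : V → ℝ) = (x : V → ℝ) + (y : V → ℝ) :=
    fun x y => rfl
  rw [e1, cop_add_left, cop_form hnd, cop_basis hnd hnd']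
  ring

end algebra

variable {E : Type*} [NormedAddCommGroup E] [NormedSpace ℝ E] [FiniteDimensional ℝ E]

theorem form_law {S S' : Matrix (Fin (finrank ℝ E)) (Fin (finrank ℝ E)) ℝ} {L : E →L[ℝ] E}
    (T : Bil E) (hS : ∀ i j, S i j = T (finBasis ℝ E i) (finBasis ℝ E j))
    (hS' : ∀ i j, S' i j = T (L (finBasis ℝ E i)) (L (finBasis ℝ E j))) :
    S' = (mat L).transpose * S * mat L := by
  have h1 : T = mkB (finBasis ℝ E) (fun i j => S i j) := by
    refine (finBasis ℝ E).ext fun i => (finBasis ℝ E).ext fun j => ?_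
    rw [mkB_basis, hS]
  ext i j
  have h2 := PJ.law_apply (H' := (mat L).transpose * S * mat L) (H := S) (L := L) rfl
    (finBasis ℝ E i) (finBasis ℝ E j)
  rw [mkB_basis] at h2
  rw [h2, hS', h1]

theorem covHess_link {h : Curv.Coeff E} {u : E → ℝ} {x : E} (hu : ContDiffAt ℝ ∞ u x)
    (i j : Fin (finrank ℝ E)) :
    Curv.covHess h u x i j =
      toL2 (fderiv ℝ (fderiv ℝ u) x) (finBasis ℝ E i) (finBasis ℝ E j) -
        cop (finBasis ℝ E) (fB h x) (chr (fD h x) (finBasis ℝ E i) (finBasis ℝ E j))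
          (fderiv ℝ u x : E →ₗ[ℝ] ℝ) := by
  unfold Curv.covHess
  rw [pd_pd hu]
  congr 1
  unfold cop tr
  rw [gram_mkB]
  refine Finset.sum_congr rfl fun p _ => Finset.sum_congr rfl fun r _ => ?_
  rw [christoffel_eq, mul_assoc]
  rfl

end L2Aux

variable {E : Type*} [NormedAddCommGroup E] [NormedSpace ℝ E] [FiniteDimensional ℝ E]
  {h h' : Curv.Coeff E} {τ : E → E} {y : E}

open L2Aux in
/-- As `lapC_pull` (Perm/Pull.lean): `covHess h u x i j = ∂²u(e_i, e_j) - cop e h (chr D e_i e_j) ∂u`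
(proof of `lapC_link`, Twist/Point.lean), `PJ.jets`, `PJ.chr_pull`, `PJ.cop_pull`, `Alg.cop_form`,
`Alg.cop_basis`, and `(Aᵀ * S * A) i j = S (L e_i, L e_j)` (see `PJ.law_apply`). -/
theorem covHess_pull (hτ : ContDiffAt ℝ ∞ τ y) (hdet : (fderiv ℝ τ y).det ≠ 0)
    (hh : ∀ i j, ContDiffAt ℝ ∞ (fun x => h x i j) (τ y))
    (hsymm : ∀ᶠ x in 𝓝 (τ y), ∀ i j, h x i j = h x j i) (hnd : (h (τ y)).det ≠ 0)
    (hlaw : ∀ᶠ x in 𝓝 y, h' x = (mat (fderiv ℝ τ x)).transpose * h (τ x) * mat (fderiv ℝ τ x))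
    {u : E → ℝ} (hu : ContDiffAt ℝ ∞ u (τ y)) :
    Curv.covHess h' (u ∘ τ) y =
      (mat (fderiv ℝ τ y)).transpose * Curv.covHess h u (τ y) * mat (fderiv ℝ τ y) := by
  have hs := hsymm.self_of_nhds
  obtain ⟨f, hf⟩ := PJ.exists_basis hdet
  obtain ⟨j0, j1, -⟩ := PJ.jets hτ hh hlaw
  obtain ⟨t1, t2, -⟩ := PJ.smooth_jets hτ
  have hc : ContDiffAt ℝ ∞ (u ∘ τ) y := hu.comp y hτ
  have hd : ∀ᶠ x in 𝓝 y, fderiv ℝ (u ∘ τ) x = (fderiv ℝ u (τ x)).comp (fderiv ℝ τ x) := by
    filter_upwards [hτ.continuousAt.eventually (PJ.eventually_jets hu), PJ.eventually_jets hτ]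
      with x hx hx'
    exact (hx.1.comp x hx'.1).fderiv
  have hn1 := PJ.nondeg_of' hf hdet hs hnd hlaw.self_of_nhds
  have hn2 := PJ.nondeg_of hs hnd
  obtain ⟨T, hT⟩ := exists_form hn2 (Alg.fD h (τ y)) (fderiv ℝ u (τ y) : E →ₗ[ℝ] ℝ)
    (Alg.toL2 (fderiv ℝ (fderiv ℝ u) (τ y)))
  refine form_law T (fun i j => ?_) (fun i j => ?_)
  · rw [hT]
    exact covHess_link hu i j
  · rw [hT, covHess_link hc]
    refine hess_alg (L := fderiv ℝ τ y) (Q := fun u v => fderiv ℝ (fderiv ℝ τ) y u v) hf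
      hn1 hn2 j0 (PJ.second_symm hτ) j1 (fun v => ?_) (fun v w => ?_) _ _
    · change fderiv ℝ (u ∘ τ) y v = fderiv ℝ u (τ y) (fderiv ℝ τ y v)
      rw [hd.self_of_nhds]
      rfl
    · change fderiv ℝ (fderiv ℝ (u ∘ τ)) y v w = fderiv ℝ (fderiv ℝ u) (τ y) (fderiv ℝ τ y v)
        (fderiv ℝ τ y w) + fderiv ℝ u (τ y) (fderiv ℝ (fderiv ℝ τ) y v w)
      have g2 := (PJ.smooth_jets hu).2.1.comp y t1
      have h3 := g2.clm_apply (PJ.clm1_hasFDerivAt t2 w)
      rw [← Alg.fderiv_fderiv_apply hc]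
      have hev : (fun x => fderiv ℝ (u ∘ τ) x w) =ᶠ[𝓝 y]
          fun x => (fderiv ℝ u ∘ τ) x (fderiv ℝ τ x w) := by
        filter_upwards [hd] with x hx
        rw [hx]
        rfl
      rw [hev.fderiv_eq, h3.fderiv]
      simp
      ring

end Pool.Agent.Lib.MP_df705a_gt.Coll.T
end
end

section

/-!
# Module T, L4: differentials in other coordinates
-/

open scoped Manifold ContDiff Topology
open Set Bundle Module Filter MeasureTheory

noncomputable section

set_option linter.unusedSectionVars false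

namespace Pool.Agent.Lib.MP_df705a_gt.Coll.T

open Pool.Agent.Lib.MP_df705a_gt.Twist Pool.Agent.Lib.MP_df705a_gt.Perm
open Pool.Agent.Lib.MP_df705a_gt.Circ (cf Para)

variable {E : Type*} [NormedAddCommGroup E] [NormedSpace ℝ E] [FiniteDimensional ℝ E]
  {τ : E → E} {y : E}

/-- Chain rule: `∂_i (u ∘ τ) = ∑ k, A k i * ∂_k u`, `A = mat (fderiv ℝ τ y)`. -/
theorem pd_pull (hτ : DifferentiableAt ℝ τ y) {u : E → ℝ} (hu : DifferentiableAt ℝ u (τ y))
    (i : Fin (finrank ℝ E)) :
    Curv.pd i (u ∘ τ) y = ∑ k, mat (fderiv ℝ τ y) k i * Curv.pd k u (τ y) := by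
  have h1 : fderiv ℝ (u ∘ τ) y = (fderiv ℝ u (τ y)).comp (fderiv ℝ τ y) := fderiv_comp y hu hτ
  unfold Curv.pd
  rw [h1, ContinuousLinearMap.comp_apply]
  conv_lhs => rw [← (finBasis ℝ E).sum_repr (fderiv ℝ τ y (finBasis ℝ E i))]
  rw [map_sum]
  refine Finset.sum_congr rfl fun k _ => ?_
  rw [map_smul, smul_eq_mul, mat, LinearMap.toMatrix_apply]
  rfl

theorem ddC_pull (hτ : DifferentiableAt ℝ τ y) {u v : E → ℝ} (hu : DifferentiableAt ℝ u (τ y))
    (hv : DifferentiableAt ℝ v (τ y)) :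
    ddC (u ∘ τ) (v ∘ τ) y =
      (mat (fderiv ℝ τ y)).transpose * ddC u v (τ y) * mat (fderiv ℝ τ y) := by
  ext i j
  have e1 : ddC (u ∘ τ) (v ∘ τ) y i j = (Curv.pd i (u ∘ τ) y * Curv.pd j (v ∘ τ) y +
      Curv.pd j (u ∘ τ) y * Curv.pd i (v ∘ τ) y) / 2 := rfl
  rw [e1, pd_pull hτ hu, pd_pull hτ hu, pd_pull hτ hv, pd_pull hτ hv, Matrix.mul_apply]
  simp only [Matrix.mul_apply, Matrix.transpose_apply]
  rw [Finset.sum_mul_sum, Finset.sum_mul_sum]
  have e2 : ∑ k, ∑ l, mat (fderiv ℝ τ y) k i * Curv.pd k u (τ y) *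
      (mat (fderiv ℝ τ y) l j * Curv.pd l v (τ y)) =
      ∑ l, ∑ k, mat (fderiv ℝ τ y) k i * Curv.pd k u (τ y) *
      (mat (fderiv ℝ τ y) l j * Curv.pd l v (τ y)) := Finset.sum_comm
  rw [e2, ← Finset.sum_add_distrib, Finset.sum_div]
  refine Finset.sum_congr rfl fun l _ => ?_
  rw [← Finset.sum_add_distrib, Finset.sum_div, Finset.sum_mul]
  refine Finset.sum_congr rfl fun k _ => ?_
  have e3 : ddC u v (τ y) k l = (Curv.pd k u (τ y) * Curv.pd l v (τ y) +
      Curv.pd l u (τ y) * Curv.pd k v (τ y)) / 2 := rfl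
  rw [e3]
  ring

end Pool.Agent.Lib.MP_df705a_gt.Coll.T
end
end

section

/-!
# Module T, N0: existence of normal coordinates
-/

open scoped Manifold ContDiff Topology
open Set Bundle Module Filter MeasureTheory

noncomputable section

set_option linter.unusedSectionVars false

namespace Pool.Agent.Lib.MP_df705a_gt.Coll.T

open Pool.Agent.Lib.MP_df705a_gt.Twist Pool.Agent.Lib.MP_df705a_gt.Perm
open Pool.Agent.Lib.MP_df705a_gt.Circ (cf Para)

variable {E : Type*} [NormedAddCommGroup E] [NormedSpace ℝ E] [FiniteDimensional ℝ E]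
  {h : Curv.Coeff E} {x : E}

open scoped MatrixOrder in
private theorem N0_sqrt {n : ℕ} {H : Matrix (Fin n) (Fin n) ℝ} (hH : H.PosSemidef) :
    ∃ B : Matrix (Fin n) (Fin n) ℝ, H = B.conjTranspose * B := by
  obtain ⟨B, hB⟩ := CStarAlgebra.nonneg_iff_eq_star_mul_self.mp hH.nonneg
  exact ⟨B, hB⟩

/-- `H = Bᵀ * B`, `L` the linear map with the matrix `B⁻¹`. -/
theorem exists_frame {H : Matrix (Fin (finrank ℝ E)) (Fin (finrank ℝ E)) ℝ} (hH : H.PosDef) :
    ∃ L : E →L[ℝ] E, L.det ≠ 0 ∧ (mat L).transpose * H * mat L = 1 := by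
  obtain ⟨B, hB⟩ := N0_sqrt hH.posSemidef
  have hBt : B.conjTranspose = B.transpose := by
    ext i j
    simp [Matrix.conjTranspose_apply]
  rw [hBt] at hB
  have hdet : B.det ≠ 0 := by
    intro h0
    have h1 := hH.det_pos
    rw [hB, Matrix.det_mul, h0, mul_zero] at h1
    exact lt_irrefl _ h1
  have hu : IsUnit B.det := isUnit_iff_ne_zero.2 hdet
  have hm : mat (LinearMap.toContinuousLinearMap
      (Matrix.toLin (finBasis ℝ E) (finBasis ℝ E) B⁻¹)) = B⁻¹ := by
    unfold mat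
    rw [LinearMap.coe_toContinuousLinearMap, LinearMap.toMatrix_toLin]
  refine ⟨LinearMap.toContinuousLinearMap (Matrix.toLin (finBasis ℝ E) (finBasis ℝ E) B⁻¹),
    ?_, ?_⟩
  · rw [ContinuousLinearMap.det, LinearMap.coe_toContinuousLinearMap,
      LinearMap.det_toLin, Matrix.det_nonsing_inv]
    exact (hu.ringInverse).ne_zero
  · rw [hm, hB, Matrix.transpose_nonsing_inv]
    have hut : IsUnit B.transpose.det := by rwa [Matrix.det_transpose]
    rw [← Matrix.mul_assoc, Matrix.nonsing_inv_mul _ hut, Matrix.one_mul,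
      Matrix.mul_nonsing_inv _ hu]

/-- The Christoffel symbols of the second kind (`Alg.exists_rep` on the basis, then `Basis.constr`
or an explicit sum with `(h x)⁻¹`). -/
theorem exists_chr (H : RM h x) : ∃ Q : E →L[ℝ] E →L[ℝ] E, (∀ a b, Q a b = Q b a) ∧
    ∀ a b c, Alg.fB h x (Q a b) c = -Alg.chr (Alg.fD h x) a b c := by
  classical
  have hnd : Alg.Nondeg (finBasis ℝ E) (Alg.fB h x) := by
    refine ⟨fun u v => Alg.mkB_symm _ (fun i j => H.symm i j) u v, ?_⟩
    rw [Alg.gram_mkB]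
    exact isUnit_iff_ne_zero.2 H.det
  choose q hq using fun ξ : E →ₗ[ℝ] ℝ => Alg.exists_rep hnd ξ
  have hev : ∀ᶠ y in 𝓝 x, ∀ i j, h y i j = h y j i := by
    filter_upwards [H.nhds] with y hy i j
    exact hy.symm i j
  have hDs : ∀ u v w, Alg.fD h x u v w = Alg.fD h x u w v := fun u v w =>
    Alg.mkD_symm _ (fun i j => Alg.j1_symm (M := fun i j y => h y i j) hev i j) u v w
  have hcs : ∀ u v, Alg.chr (Alg.fD h x) u v = Alg.chr (Alg.fD h x) v u := by
    intro u v
    refine LinearMap.ext fun w => ?_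
    rw [Alg.chr_apply, Alg.chr_apply, hDs w u v]
    ring
  let Q0 : E →ₗ[ℝ] E →ₗ[ℝ] E := (finBasis ℝ E).constr ℝ fun i =>
    (finBasis ℝ E).constr ℝ fun j =>
      q (-Alg.chr (Alg.fD h x) (finBasis ℝ E i) (finBasis ℝ E j))
  have hQ0 : ∀ i j, Q0 (finBasis ℝ E i) (finBasis ℝ E j) =
      q (-Alg.chr (Alg.fD h x) (finBasis ℝ E i) (finBasis ℝ E j)) := by
    intro i j
    simp only [Q0, Basis.constr_basis]
  have hQs : Q0 = Q0.flip := by
    refine (finBasis ℝ E).ext fun i => (finBasis ℝ E).ext fun j => ?_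
    rw [LinearMap.flip_apply, hQ0, hQ0, hcs]
  have hmain : ∀ a b c, Alg.fB h x (Q0 a b) c = -Alg.chr (Alg.fD h x) a b c := by
    intro a b c
    let F : E →ₗ[ℝ] E →ₗ[ℝ] ℝ := LinearMap.mk₂ ℝ
      (fun a b => Alg.fB h x (Q0 a b) c + Alg.chr (Alg.fD h x) a b c)
      (by
        intro m m' n
        simp only [Alg.chr_apply, map_add, LinearMap.add_apply]
        ring)
      (by
        intro r m n
        simp only [Alg.chr_apply, map_smul, LinearMap.smul_apply, smul_eq_mul]
        ring)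
      (by
        intro m n n'
        simp only [Alg.chr_apply, map_add, LinearMap.add_apply]
        ring)
      (by
        intro r m n
        simp only [Alg.chr_apply, map_smul, LinearMap.smul_apply, smul_eq_mul]
        ring)
    have hF : F = 0 := by
      refine (finBasis ℝ E).ext fun i => (finBasis ℝ E).ext fun j => ?_
      show Alg.fB h x (Q0 (finBasis ℝ E i) (finBasis ℝ E j)) c +
        Alg.chr (Alg.fD h x) (finBasis ℝ E i) (finBasis ℝ E j) c = 0
      rw [hQ0, hq, LinearMap.neg_apply]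
      ring
    have h1 : F a b = 0 := by rw [hF]; rfl
    have h2 : F a b = Alg.fB h x (Q0 a b) c + Alg.chr (Alg.fD h x) a b c := rfl
    linarith
  refine ⟨LinearMap.toContinuousLinearMap
    ((LinearMap.toContinuousLinearMap : (E →ₗ[ℝ] E) ≃ₗ[ℝ] E →L[ℝ] E).toLinearMap.comp Q0),
    fun a b => ?_, fun a b c => ?_⟩
  · show Q0 a b = Q0 b a
    conv_lhs => rw [hQs]
    rfl
  · exact hmain a b c

/-- `τ v = x + L v + (1/2) Q (L v) (L v)`: `fderiv ℝ τ 0 = L`, `fderiv ℝ (fderiv ℝ τ) 0 u v =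
Q (L u) (L v)`. -/
theorem exists_quad (x : E) (L : E →L[ℝ] E) (Q : E →L[ℝ] E →L[ℝ] E) (hQ : ∀ a b, Q a b = Q b a) :
    ∃ τ : E → E, ContDiff ℝ ∞ τ ∧ τ 0 = x ∧ fderiv ℝ τ 0 = L ∧
      ∀ u v, fderiv ℝ (fderiv ℝ τ) 0 u v = Q (L u) (L v) := by
  let A : E →L[ℝ] E →L[ℝ] E := ((ContinuousLinearMap.compL ℝ E E E).flip L).comp (Q.comp L)
  have hA : ∀ u v, A u v = Q (L u) (L v) := fun u v => rfl
  have hAs : ∀ u, A.flip u = A u := fun u => by
    ext v
    rw [ContinuousLinearMap.flip_apply, hA, hA, hQ]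
  have hder : ∀ v, HasFDerivAt (fun v => x + L v + (1 / 2 : ℝ) • A v v) (L + A v) v := by
    intro v
    have h1 : HasFDerivAt (fun v => A v v)
        ((A v).comp (ContinuousLinearMap.id ℝ E) + A.flip v) v :=
      HasFDerivAt.clm_apply (A.hasFDerivAt (x := v)) (hasFDerivAt_id v)
    have h2 := ((L.hasFDerivAt (x := v)).const_add x).fun_add (h1.fun_const_smul (1 / 2 : ℝ))
    refine h2.congr_fderiv ?_
    rw [ContinuousLinearMap.comp_id, hAs, ← two_smul ℝ (A v), smul_smul]
    norm_num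
  have hfd : fderiv ℝ (fun v => x + L v + (1 / 2 : ℝ) • A v v) = fun v => L + A v :=
    funext fun v => (hder v).fderiv
  refine ⟨fun v => x + L v + (1 / 2 : ℝ) • A v v, ?_, ?_, ?_, fun u v => ?_⟩
  · exact (contDiff_const.add L.contDiff).add
      ((A.contDiff.clm_apply contDiff_id).const_smul (1 / 2 : ℝ))
  · simp
  · rw [hfd]
    simp
  · rw [hfd]
    have h3 : HasFDerivAt (fun v => L + A v) A 0 := (A.hasFDerivAt (x := 0)).const_add L
    rw [h3.fderiv, hA]

end Pool.Agent.Lib.MP_df705a_gt.Coll.T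
end
end

section

/-!
# Ricci pinching, part A, AR6a: no conjugate points inside shortest geodesics
-/

open scoped Manifold ContDiff Topology
open Set Bundle Module Filter MeasureTheory

noncomputable section

set_option linter.unusedSectionVars false

namespace Pool.Agent.Lib.MP_df705a_gt.Pin.A

open Pool.Agent.Lib.MP_df705a_gt.Twist Pool.Agent.Lib.MP_df705a_gt.Perm
open Pool.Agent.Lib.MP_df705a_gt.Coll (trM ipM)
open Pool.Agent.Lib.MP_df705a_gt.Coll.T (ddC mat pull RM SmF)

variable {E : Type*} [NormedAddCommGroup E] [NormedSpace ℝ E] [FiniteDimensional ℝ E]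
  {h : Curv.Coeff E}

variable {Ex : E → E → E}

namespace AR6aAux

section

variable {U : Type*} [NormedAddCommGroup U] [NormedSpace ℝ U]

/-- The second derivative at a local maximum is nonpositive. -/
theorem second_le_zero {F : U → ℝ} {y : U} (hF : ContDiffAt ℝ 2 F y) (hmax : IsLocalMax F y)
    (v : U) : fderiv ℝ (fderiv ℝ F) y v v ≤ 0 := by
  by_contra hcon
  rw [not_le] at hcon
  set g : ℝ → ℝ := fun t => F (y + t • v) with hg
  have hline : ∀ t : ℝ, HasDerivAt (fun t : ℝ => y + t • v) v t := by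
    intro t
    simpa using ((hasDerivAt_id t).smul_const v).const_add y
  have hlc : ContinuousAt (fun t : ℝ => y + t • v) 0 := (hline 0).continuousAt
  have hl0 : y + (0 : ℝ) • v = y := by simp
  have hev : ∀ᶠ t in 𝓝 (0 : ℝ), ContDiffAt ℝ 2 F (y + t • v) := by
    have h1 := hF.eventually (by simp)
    have h2 : Tendsto (fun t : ℝ => y + t • v) (𝓝 0) (𝓝 y) := by
      have := hlc.tendsto
      rwa [hl0] at this
    exact h2.eventually h1
  have hgd : ∀ᶠ t in 𝓝 (0 : ℝ), deriv g t = fderiv ℝ F (y + t • v) v := by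
    filter_upwards [hev] with t ht
    exact ((ht.differentiableAt two_ne_zero).hasFDerivAt.comp_hasDerivAt t (hline t)).deriv
  have hF1 : ContDiffAt ℝ 1 (fderiv ℝ F) y := hF.fderiv_right (by norm_num)
  have hgdd : deriv (deriv g) 0 = fderiv ℝ (fderiv ℝ F) y v v := by
    have h1 : HasFDerivAt (fderiv ℝ F) (fderiv ℝ (fderiv ℝ F) y) (y + (0 : ℝ) • v) := by
      rw [hl0]
      exact (hF1.differentiableAt one_ne_zero).hasFDerivAt
    have h2 : HasDerivAt (fun t : ℝ => fderiv ℝ F (y + t • v)) (fderiv ℝ (fderiv ℝ F) y v) 0 :=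
      h1.comp_hasDerivAt (0 : ℝ) (hline 0)
    have h3 : HasDerivAt (fun t : ℝ => fderiv ℝ F (y + t • v) v)
        (fderiv ℝ (fderiv ℝ F) y v v) 0 := by
      have := h2.clm_apply (hasDerivAt_const (0 : ℝ) v)
      simpa using this
    exact (h3.congr_of_eventuallyEq hgd).deriv
  have hgmax : IsLocalMax g 0 := by
    have h2 : Tendsto (fun t : ℝ => y + t • v) (𝓝 0) (𝓝 y) := by
      have := hlc.tendsto
      rwa [hl0] at this
    have h3 := h2.eventually hmax
    filter_upwards [h3] with t ht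
    simp only [hg, hl0]
    exact ht
  have hg0 : deriv g 0 = 0 := hgmax.deriv_eq_zero
  have hgc : ContinuousAt g 0 := by
    have : ContinuousAt F (y + (0 : ℝ) • v) := by
      rw [hl0]; exact (hF.differentiableAt two_ne_zero).continuousAt
    exact this.comp (f := fun t : ℝ => y + t • v) hlc
  have hgmin : IsLocalMin g 0 := isLocalMin_of_deriv_deriv_pos (by rw [hgdd]; exact hcon) hg0 hgc
  have hconst : ∀ᶠ t in 𝓝 (0 : ℝ), g t = g 0 := by
    filter_upwards [hgmax, hgmin] with t h1 h2 using le_antisymm h1 h2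
  have h5 : deriv g =ᶠ[𝓝 0] fun _ => 0 := by
    have h6 : g =ᶠ[𝓝 0] fun _ => g 0 := hconst
    have h7 := h6.deriv
    simpa using h7
  have h8 : deriv (deriv g) 0 = 0 := by
    rw [h5.deriv_eq]; simp
  rw [hgdd] at h8
  linarith

end

/-- Pairing of a positive semidefinite matrix with a nonnegative form. -/
theorem psd_pair {n : ℕ} {P : Matrix (Fin n) (Fin n) ℝ} (hP : P.PosSemidef)
    (S : Fin n → Fin n → ℝ) (hS : ∀ y : Fin n → ℝ, 0 ≤ ∑ j, ∑ k, y j * y k * S j k) :
    0 ≤ ∑ j, ∑ k, P j k * S j k := by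
  obtain ⟨B, hB⟩ : ∃ B : Matrix (Fin n) (Fin n) ℝ, P = B.transpose * B := by
    open scoped MatrixOrder in
    obtain ⟨B, hB⟩ := CStarAlgebra.nonneg_iff_eq_star_mul_self.mp hP.nonneg
    refine ⟨B, ?_⟩
    rw [hB, Matrix.star_eq_conjTranspose, Matrix.conjTranspose_eq_transpose_of_trivial]
  have h1 : ∑ j, ∑ k, P j k * S j k = ∑ a, ∑ j, ∑ k, B a j * B a k * S j k := by
    have h2 : ∀ j k, P j k * S j k = ∑ a, B a j * B a k * S j k := by
      intro j k
      rw [hB, Matrix.mul_apply, Finset.sum_mul]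
      rfl
    simp only [h2]
    rw [Finset.sum_comm]
    rw [Finset.sum_congr rfl fun k _ => Finset.sum_comm]
    rw [Finset.sum_comm]
    apply Finset.sum_congr rfl
    intro a _
    exact Finset.sum_comm
  rw [h1]
  exact Finset.sum_nonneg fun a _ => hS (fun j => B a j)

theorem second_nonneg {F : E → ℝ} {y : E} (hF : ContDiffAt ℝ 2 F y) (hmin : IsLocalMin F y)
    (v : E) : 0 ≤ fderiv ℝ (fderiv ℝ F) y v v := by
  have h1 := second_le_zero (F := fun z => -F z) hF.neg hmin.neg v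
  have h2 : fderiv ℝ (fun z => -F z) = fun z => -fderiv ℝ F z := by
    funext z
    exact fderiv_fun_neg
  rw [h2, fderiv_fun_neg] at h1
  simpa using h1

end AR6aAux

open AR6aAux in
/-- Proof: at a local minimum the differential of `f` vanishes, so `covHess` is the matrix of the
second derivatives, which is positive semidefinite (second derivative test along lines; see
`second_le_zero` in Boundary.lean), and the trace of the product of the positive definite matrix
`(h x)⁻¹` with a positive semidefinite matrix is nonnegative (`trM` of a positive semidefinite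
matrix; write it as a sum of squares). -/
theorem lapC_nonneg_of_isLocalMin {k : Curv.Coeff E} {f : E → ℝ} {x : E} (hk : (k x).PosDef)
    (hf : ContDiffAt ℝ ∞ f x) (hx : IsLocalMin f x) : 0 ≤ lapC k f x := by
  have h0 : fderiv ℝ f x = 0 := hx.fderiv_eq_zero
  have hf2 : ContDiffAt ℝ 2 f x := contDiffAt_infty.mp hf 2
  have hf1 : ContDiffAt ℝ 1 (fderiv ℝ f) x := hf2.fderiv_right (by norm_num)
  have hd : DifferentiableAt ℝ (fderiv ℝ f) x := hf1.differentiableAt one_ne_zero
  have h1 : ∀ i j, Curv.covHess k f x i j =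
      fderiv ℝ (fderiv ℝ f) x (finBasis ℝ E i) (finBasis ℝ E j) := by
    intro i j
    have h2 : ∀ q, Curv.pd q f x = 0 := by
      intro q
      unfold Curv.pd
      rw [h0]
      rfl
    have h3 : Curv.pd i (Curv.pd j f) x =
        fderiv ℝ (fderiv ℝ f) x (finBasis ℝ E i) (finBasis ℝ E j) := by
      have h4 : HasFDerivAt (Curv.pd j f)
          ((ContinuousLinearMap.apply ℝ ℝ (finBasis ℝ E j)).comp (fderiv ℝ (fderiv ℝ f) x)) x :=
        (ContinuousLinearMap.apply ℝ ℝ (finBasis ℝ E j)).hasFDerivAt.comp x hd.hasFDerivAt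
      unfold Curv.pd at h4 ⊢
      rw [h4.fderiv]
      rfl
    unfold Curv.covHess
    rw [h3]
    simp only [h2, mul_zero, Finset.sum_const_zero, sub_zero]
  unfold lapC
  simp only [h1]
  refine psd_pair (hk.inv).posSemidef (fun i j => fderiv ℝ (fderiv ℝ f) x (finBasis ℝ E i)
    (finBasis ℝ E j)) fun y => ?_
  have h5 := second_nonneg hf2 hx (∑ i, y i • finBasis ℝ E i)
  have h6 : fderiv ℝ (fderiv ℝ f) x (∑ i, y i • finBasis ℝ E i) (∑ i, y i • finBasis ℝ E i) =
      ∑ j, ∑ k, y j * y k * fderiv ℝ (fderiv ℝ f) x (finBasis ℝ E j) (finBasis ℝ E k) := by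
    simp only [map_sum, map_smul, _root_.sum_apply, _root_.smul_apply, smul_eq_mul,
      Finset.mul_sum]
    rw [Finset.sum_comm]
    refine Finset.sum_congr rfl fun i _ => Finset.sum_congr rfl fun j _ => ?_
    ring
  rw [← h6]
  exact h5

end Pool.Agent.Lib.MP_df705a_gt.Pin.A
end
end
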