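import Pool.Agent.Lib.MP_df705a_gt.Mg.G058
import Pool.Agent.Lib.MP_df705a_gt.Perm.Defs
import Pool.Agent.Lib.MP_df705a_gt.Mg.G054
import Pool.Agent.Lib.MP_df705a_gt.Mg.G056

section

/-!
# TASK G1: the scalar curvature is invariant under changes of coordinates
-/

open scoped Manifold ContDiff Topology
open Set Bundle Module Filter

noncomputable section

namespace Pool.Agent.Lib.MP_df705a_gt.Perm

open Pool.Agent.Lib.MP_df705a_gt.Twist

variable {E : Type*} [NormedAddCommGroup E] [NormedSpace ℝ E] [FiniteDimensional ℝ E]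

theorem scal_pull {h h' : Curv.Coeff E} {τ : E → E} {y : E} (hτ : ContDiffAt ℝ ∞ τ y)
    (hdet : (fderiv ℝ τ y).det ≠ 0)
    (hh : ∀ i j, ContDiffAt ℝ ∞ (fun x => h x i j) (τ y))
    (hsymm : ∀ᶠ x in 𝓝 (τ y), ∀ i j, h x i j = h x j i) (hnd : (h (τ y)).det ≠ 0)
    (hlaw : ∀ᶠ x in 𝓝 y, h' x = (LinearMap.toMatrix (finBasis ℝ E) (finBasis ℝ E)
        (fderiv ℝ τ x : E →ₗ[ℝ] E)).transpose * h (τ x) *
      LinearMap.toMatrix (finBasis ℝ E) (finBasis ℝ E) (fderiv ℝ τ x : E →ₗ[ℝ] E)) :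
    Curv.scal h' y = Curv.scal h (τ y) := by
  have hs := hsymm.self_of_nhds
  obtain ⟨f, hf⟩ := PJ.exists_basis hdet
  obtain ⟨j0, j1, j2⟩ := PJ.jets hτ hh hlaw
  rw [Alg.scal_link (PJ.coeff_contDiffAt hτ hh hlaw), Alg.scal_link hh]
  exact PJ.scal_pull_alg (L := fderiv ℝ τ y) (Q := fun u v => fderiv ℝ (fderiv ℝ τ) y u v)
    (C := fun u v w => fderiv ℝ (fderiv ℝ (fderiv ℝ τ)) y u v w) hf
    (PJ.nondeg_of' hf hdet hs hnd hlaw.self_of_nhds) (PJ.nondeg_of hs hnd) j0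
    (PJ.second_symm hτ) (fun a u v => Alg.mkD_symm (finBasis ℝ E) (Alg.j1_symm hsymm) a u v)
    (PJ.third_symm' hτ) (PJ.third_symm hτ) j1 j2

end Pool.Agent.Lib.MP_df705a_gt.Perm
end
end

section

/-!
# TASK I1a: the scalar curvature under pullbacks between two model spaces
-/

open scoped Manifold ContDiff Topology
open Set Bundle Module Filter

noncomputable section

namespace Pool.Agent.Lib.MP_df705a_gt.Circ

open Pool.Agent.Lib.MP_df705a_gt.Twist Pool.Agent.Lib.MP_df705a_gt.Perm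
open Pool.Agent.Lib.MP_df705a_gt.Sub (mB)

variable {E' : Type*} [NormedAddCommGroup E'] [NormedSpace ℝ E'] [FiniteDimensional ℝ E']
  {E : Type*} [NormedAddCommGroup E] [NormedSpace ℝ E] [FiniteDimensional ℝ E]

namespace CS

section reindex

variable (𝓛 : E' ≃L[ℝ] E) (σ : Fin (finrank ℝ E') ≃ Fin (finrank ℝ E))
  (h𝓛 : ∀ i, 𝓛 (finBasis ℝ E' i) = finBasis ℝ E (σ i)) (C : Curv.Coeff E)

/-- The coefficients transported by a linear equivalence which maps the basis to the basis. -/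
def tr : Curv.Coeff E' := fun x => (C (𝓛 x)).submatrix σ σ

include h𝓛 in
theorem pd_tr (i : Fin (finrank ℝ E')) (F : E → ℝ) (x : E') :
    Curv.pd i (fun y => F (𝓛 y)) x = Curv.pd (σ i) F (𝓛 x) := by
  unfold Curv.pd
  have h1 : (fun y => F (𝓛 y)) = F ∘ 𝓛 := rfl
  rw [h1, ContinuousLinearEquiv.comp_right_fderiv, ← h𝓛]
  rfl

include h𝓛 in
theorem christoffel_tr (i j k : Fin (finrank ℝ E')) :
    Curv.christoffel (tr 𝓛 σ C) i j k =
      fun x => Curv.christoffel C (σ i) (σ j) (σ k) (𝓛 x) := by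
  funext x
  unfold Curv.christoffel
  rw [← pd_tr 𝓛 σ h𝓛, ← pd_tr 𝓛 σ h𝓛, ← pd_tr 𝓛 σ h𝓛]
  rfl

include h𝓛 in
theorem riemann_tr (i j k l : Fin (finrank ℝ E')) (x : E') :
    Curv.riemann (tr 𝓛 σ C) i j k l x =
      Curv.riemann C (σ i) (σ j) (σ k) (σ l) (𝓛 x) := by
  unfold Curv.riemann
  simp only [christoffel_tr 𝓛 σ h𝓛]
  rw [pd_tr 𝓛 σ h𝓛, pd_tr 𝓛 σ h𝓛]
  congr 1
  rw [← Equiv.sum_comp σ]
  refine Finset.sum_congr rfl fun p _ => ?_
  rw [← Equiv.sum_comp σ]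
  refine Finset.sum_congr rfl fun q _ => ?_
  have h1 : (tr 𝓛 σ C x)⁻¹ = ((C (𝓛 x))⁻¹).submatrix σ σ := by
    unfold tr
    rw [Matrix.inv_submatrix_equiv]
  rw [h1, Matrix.submatrix_apply]

include h𝓛 in
theorem scal_tr (x : E') : Curv.scal (tr 𝓛 σ C) x = Curv.scal C (𝓛 x) := by
  unfold Curv.scal
  have h1 : (tr 𝓛 σ C x)⁻¹ = ((C (𝓛 x))⁻¹).submatrix σ σ := by
    unfold tr
    rw [Matrix.inv_submatrix_equiv]
  simp only [riemann_tr 𝓛 σ h𝓛, h1, Matrix.submatrix_apply]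
  rw [← Equiv.sum_comp σ]
  refine Finset.sum_congr rfl fun i _ => ?_
  rw [← Equiv.sum_comp σ]
  refine Finset.sum_congr rfl fun j _ => ?_
  rw [← Equiv.sum_comp σ]
  refine Finset.sum_congr rfl fun k _ => ?_
  rw [← Equiv.sum_comp σ]

end reindex

theorem mB_eq_matrix (M : Matrix (Fin (finrank ℝ E)) (Fin (finrank ℝ E)) ℝ) (L : E →L[ℝ] E)
    (i j : Fin (finrank ℝ E)) :
    ((LinearMap.toMatrix (finBasis ℝ E) (finBasis ℝ E) (L : E →ₗ[ℝ] E)).transpose * M *
      LinearMap.toMatrix (finBasis ℝ E) (finBasis ℝ E) (L : E →ₗ[ℝ] E)) i j =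
      mB M (L (finBasis ℝ E i)) (L (finBasis ℝ E j)) := by
  unfold mB
  simp only [Matrix.mul_apply, Matrix.transpose_apply, LinearMap.toMatrix_apply,
    Finset.sum_mul]
  rw [Finset.sum_comm]
  refine Finset.sum_congr rfl fun k _ => Finset.sum_congr rfl fun l _ => ?_
  change (finBasis ℝ E).repr (L (finBasis ℝ E i)) k * M k l *
    (finBasis ℝ E).repr (L (finBasis ℝ E j)) l = _
  ring

end CS

theorem PullAt.scal {C' : Curv.Coeff E'} {C : Curv.Coeff E} {τ : E' → E} {y : E'}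
    (P : PullAt C' C τ y) : Curv.scal C' y = Curv.scal C (τ y) := by
  have hfr : finrank ℝ E' = finrank ℝ E :=
    (LinearEquiv.ofBijective ((fderiv ℝ τ y : E' →L[ℝ] E) : E' →ₗ[ℝ] E) P.bij).finrank_eq
  set σ : Fin (finrank ℝ E') ≃ Fin (finrank ℝ E) := finCongr hfr with hσ
  set 𝓛 : E' ≃L[ℝ] E :=
    ((finBasis ℝ E').equiv (finBasis ℝ E) σ).toContinuousLinearEquiv with h𝓛def
  have h𝓛 : ∀ i, 𝓛 (finBasis ℝ E' i) = finBasis ℝ E (σ i) := fun i =>
    (finBasis ℝ E').equiv_apply i (finBasis ℝ E) σ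
  have h𝓛' : ∀ i, 𝓛.symm (finBasis ℝ E i) = finBasis ℝ E' (σ.symm i) := by
    intro i
    rw [ContinuousLinearEquiv.symm_apply_eq, h𝓛, Equiv.apply_symm_apply]
  set C1 : Curv.Coeff E := fun x => (C' (𝓛.symm x)).submatrix σ.symm σ.symm with hC1
  have hC' : C' = CS.tr 𝓛 σ C1 := by
    funext x
    ext i j
    simp [CS.tr, hC1]
  have hs0 : (τ ∘ 𝓛.symm) (𝓛 y) = τ y := by simp
  have hsm : ContDiffAt ℝ ∞ (τ ∘ 𝓛.symm) (𝓛 y) := by
    have h1 : ContDiffAt ℝ ∞ τ (𝓛.symm (𝓛 y)) := by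
      rw [ContinuousLinearEquiv.symm_apply_apply]
      exact P.smooth
    exact h1.comp (𝓛 y) 𝓛.symm.contDiff.contDiffAt
  have hfd : ∀ x, fderiv ℝ (τ ∘ 𝓛.symm) x =
      (fderiv ℝ τ (𝓛.symm x)).comp (𝓛.symm : E →L[ℝ] E') := fun x =>
    ContinuousLinearEquiv.comp_right_fderiv 𝓛.symm
  have hdet : (fderiv ℝ (τ ∘ 𝓛.symm) (𝓛 y)).det ≠ 0 := by
    rw [hfd, ContinuousLinearEquiv.symm_apply_apply]
    have hb : Function.Bijective (((fderiv ℝ τ y).comp (𝓛.symm : E →L[ℝ] E') : E →L[ℝ] E) :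
        E →ₗ[ℝ] E) := P.bij.comp 𝓛.symm.bijective
    have h2 := (LinearEquiv.ofBijective _ hb).isUnit_det'
    exact h2.ne_zero
  have h1 : Curv.scal C1 (𝓛 y) = Curv.scal C ((τ ∘ 𝓛.symm) (𝓛 y)) := by
    apply scal_pull hsm hdet
    · rw [hs0]; exact P.c_smooth
    · rw [hs0]; exact P.c_symm
    · rw [hs0]; exact P.c_det
    · have h3 : Tendsto 𝓛.symm (𝓝 (𝓛 y)) (𝓝 y) := by
        have := 𝓛.symm.continuous.tendsto (𝓛 y)
        rwa [ContinuousLinearEquiv.symm_apply_apply] at this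
      filter_upwards [h3.eventually P.law] with x hx
      ext i j
      rw [CS.mB_eq_matrix, hfd]
      change C' (𝓛.symm x) (σ.symm i) (σ.symm j) = _
      rw [hx]
      simp only [ContinuousLinearMap.comp_apply, Function.comp_apply]
      change _ = mB (C (τ (𝓛.symm x))) (fderiv ℝ τ (𝓛.symm x) (𝓛.symm (finBasis ℝ E i)))
        (fderiv ℝ τ (𝓛.symm x) (𝓛.symm (finBasis ℝ E j)))
      rw [h𝓛', h𝓛']
  rw [hC', CS.scal_tr 𝓛 σ h𝓛, h1, hs0]

end Pool.Agent.Lib.MP_df705a_gt.Circ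
end
end

section

/-!
# TASK G4: rules for the Laplacian and the gradient product
-/

open scoped Manifold ContDiff Topology
open Set Bundle Module Filter

noncomputable section

set_option linter.unusedSectionVars false

namespace Pool.Agent.Lib.MP_df705a_gt.Perm

open Pool.Agent.Lib.MP_df705a_gt.Twist

/-! ### rules in coordinates -/

namespace G4

variable {E : Type*} [NormedAddCommGroup E] [NormedSpace ℝ E] [FiniteDimensional ℝ E]
  {u v : E → ℝ} {y : E}

theorem diff_of (hu : ContDiffAt ℝ ∞ u y) : DifferentiableAt ℝ u y :=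
  hu.differentiableAt (by norm_num)

theorem ev_diff (hu : ContDiffAt ℝ ∞ u y) : ∀ᶠ z in 𝓝 y, DifferentiableAt ℝ u z :=
  Twist.Alg.eventually_differentiableAt hu

theorem pd_contDiffAt (hu : ContDiffAt ℝ ∞ u y) (i : Fin (finrank ℝ E)) :
    ContDiffAt ℝ ∞ (Curv.pd i u) y := by
  have h1 : ContDiffAt ℝ ∞ (fderiv ℝ u) y := hu.fderiv_right (by simp)
  exact h1.clm_apply contDiffAt_const

theorem pd_const (c : ℝ) (i : Fin (finrank ℝ E)) : Curv.pd i (fun _ : E => c) = fun _ => 0 := by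
  funext z
  unfold Curv.pd
  simp

theorem pd_add (hu : DifferentiableAt ℝ u y) (hv : DifferentiableAt ℝ v y)
    (i : Fin (finrank ℝ E)) :
    Curv.pd i (fun z => u z + v z) y = Curv.pd i u y + Curv.pd i v y := by
  unfold Curv.pd
  rw [fderiv_fun_add hu hv]
  rfl

theorem pd_sub (hu : DifferentiableAt ℝ u y) (hv : DifferentiableAt ℝ v y)
    (i : Fin (finrank ℝ E)) :
    Curv.pd i (fun z => u z - v z) y = Curv.pd i u y - Curv.pd i v y := by
  unfold Curv.pd
  rw [fderiv_fun_sub hu hv]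
  rfl

theorem pd_smul (hu : DifferentiableAt ℝ u y) (c : ℝ) (i : Fin (finrank ℝ E)) :
    Curv.pd i (fun z => c * u z) y = c * Curv.pd i u y := by
  unfold Curv.pd
  rw [fderiv_const_mul hu c]
  rfl

theorem pd_comp {φ : ℝ → ℝ} (hu : DifferentiableAt ℝ u y) (hφ : DifferentiableAt ℝ φ (u y))
    (i : Fin (finrank ℝ E)) :
    Curv.pd i (fun z => φ (u z)) y = deriv φ (u y) * Curv.pd i u y := by
  have h := hφ.hasDerivAt.comp_hasFDerivAt y hu.hasFDerivAt
  have h2 : fderiv ℝ (fun z => φ (u z)) y = deriv φ (u y) • fderiv ℝ u y := h.fderiv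
  unfold Curv.pd
  rw [h2]
  rfl

theorem pd_mul (hu : DifferentiableAt ℝ u y) (hv : DifferentiableAt ℝ v y)
    (i : Fin (finrank ℝ E)) :
    Curv.pd i (fun z => u z * v z) y = u y * Curv.pd i v y + v y * Curv.pd i u y := by
  unfold Curv.pd
  rw [fderiv_fun_mul hu hv]
  rfl

theorem pd_congr (h : u =ᶠ[𝓝 y] v) (i : Fin (finrank ℝ E)) : Curv.pd i u y = Curv.pd i v y := by
  unfold Curv.pd
  rw [h.fderiv_eq]

theorem pd2_add (hu : ContDiffAt ℝ ∞ u y) (hv : ContDiffAt ℝ ∞ v y) (i j : Fin (finrank ℝ E)) :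
    Curv.pd i (Curv.pd j (fun z => u z + v z)) y =
      Curv.pd i (Curv.pd j u) y + Curv.pd i (Curv.pd j v) y := by
  have h : Curv.pd j (fun z => u z + v z) =ᶠ[𝓝 y] fun z => Curv.pd j u z + Curv.pd j v z := by
    filter_upwards [ev_diff hu, ev_diff hv] with z h1 h2
    exact pd_add h1 h2 j
  rw [pd_congr h, pd_add (diff_of (pd_contDiffAt hu j)) (diff_of (pd_contDiffAt hv j))]

theorem pd2_smul (hu : ContDiffAt ℝ ∞ u y) (c : ℝ) (i j : Fin (finrank ℝ E)) :
    Curv.pd i (Curv.pd j (fun z => c * u z)) y = c * Curv.pd i (Curv.pd j u) y := by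
  have h : Curv.pd j (fun z => c * u z) =ᶠ[𝓝 y] fun z => c * Curv.pd j u z := by
    filter_upwards [ev_diff hu] with z h1
    exact pd_smul h1 c j
  rw [pd_congr h, pd_smul (diff_of (pd_contDiffAt hu j))]

theorem deriv_contDiffAt {φ : ℝ → ℝ} {t : ℝ} (hφ : ContDiffAt ℝ ∞ φ t) :
    ContDiffAt ℝ ∞ (deriv φ) t := by
  have h1 : ContDiffAt ℝ ∞ (fderiv ℝ φ) t := hφ.fderiv_right (by simp)
  have h2 : deriv φ = fun s => fderiv ℝ φ s 1 := by
    funext s
    exact fderiv_apply_one_eq_deriv.symm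
  rw [h2]
  exact h1.clm_apply contDiffAt_const

theorem pd2_comp {φ : ℝ → ℝ} (hu : ContDiffAt ℝ ∞ u y) (hφ : ContDiffAt ℝ ∞ φ (u y))
    (i j : Fin (finrank ℝ E)) :
    Curv.pd i (Curv.pd j (fun z => φ (u z))) y = deriv φ (u y) * Curv.pd i (Curv.pd j u) y +
      deriv (deriv φ) (u y) * (Curv.pd i u y * Curv.pd j u y) := by
  have hc : Tendsto u (𝓝 y) (𝓝 (u y)) := hu.continuousAt
  have h : Curv.pd j (fun z => φ (u z)) =ᶠ[𝓝 y] fun z => deriv φ (u z) * Curv.pd j u z := by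
    filter_upwards [ev_diff hu, hc.eventually (ev_diff hφ)] with z h1 h2
    exact pd_comp h1 h2 j
  have hd := deriv_contDiffAt hφ
  have h3 : ContDiffAt ℝ ∞ (fun z => deriv φ (u z)) y := hd.comp y hu
  rw [pd_congr h, pd_mul (diff_of h3) (diff_of (pd_contDiffAt hu j)),
    pd_comp (φ := deriv φ) (diff_of hu) (diff_of hd)]
  ring

theorem lapC_const (h : Curv.Coeff E) (c : ℝ) : lapC h (fun _ => c) y = 0 := by
  unfold lapC
  refine Finset.sum_eq_zero fun i _ => Finset.sum_eq_zero fun j _ => ?_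
  have h1 : Curv.covHess h (fun _ => c) y i j = 0 := by
    unfold Curv.covHess
    rw [pd_const, pd_const]
    simp only [pd_const, mul_zero, Finset.sum_const_zero, sub_zero]
  rw [h1, mul_zero]

theorem lapC_add (h : Curv.Coeff E) (hu : ContDiffAt ℝ ∞ u y) (hv : ContDiffAt ℝ ∞ v y) :
    lapC h (fun z => u z + v z) y = lapC h u y + lapC h v y := by
  unfold lapC
  rw [← Finset.sum_add_distrib]
  refine Finset.sum_congr rfl fun i _ => ?_
  rw [← Finset.sum_add_distrib]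
  refine Finset.sum_congr rfl fun j _ => ?_
  have h1 : Curv.covHess h (fun z => u z + v z) y i j =
      Curv.covHess h u y i j + Curv.covHess h v y i j := by
    unfold Curv.covHess
    rw [pd2_add hu hv]
    simp only [pd_add (diff_of hu) (diff_of hv), mul_add, Finset.sum_add_distrib]
    ring
  rw [h1]
  ring

theorem lapC_smul (h : Curv.Coeff E) (hu : ContDiffAt ℝ ∞ u y) (c : ℝ) :
    lapC h (fun z => c * u z) y = c * lapC h u y := by
  unfold lapC
  rw [Finset.mul_sum]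
  refine Finset.sum_congr rfl fun i _ => ?_
  rw [Finset.mul_sum]
  refine Finset.sum_congr rfl fun j _ => ?_
  have h1 : Curv.covHess h (fun z => c * u z) y i j = c * Curv.covHess h u y i j := by
    unfold Curv.covHess
    rw [pd2_smul hu, mul_sub, Finset.mul_sum]
    congr 1
    refine Finset.sum_congr rfl fun p _ => ?_
    rw [Finset.mul_sum]
    refine Finset.sum_congr rfl fun q _ => ?_
    rw [pd_smul (diff_of hu)]
    ring
  rw [h1]
  ring

theorem lapC_comp (h : Curv.Coeff E) {φ : ℝ → ℝ} (hu : ContDiffAt ℝ ∞ u y)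
    (hφ : ContDiffAt ℝ ∞ φ (u y)) :
    lapC h (fun z => φ (u z)) y =
      deriv φ (u y) * lapC h u y + deriv (deriv φ) (u y) * gradC h u u y := by
  unfold lapC gradC
  rw [Finset.mul_sum, Finset.mul_sum, ← Finset.sum_add_distrib]
  refine Finset.sum_congr rfl fun i _ => ?_
  rw [Finset.mul_sum, Finset.mul_sum, ← Finset.sum_add_distrib]
  refine Finset.sum_congr rfl fun j _ => ?_
  have h1 : Curv.covHess h (fun z => φ (u z)) y i j = deriv φ (u y) * Curv.covHess h u y i j +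
      deriv (deriv φ) (u y) * (Curv.pd i u y * Curv.pd j u y) := by
    unfold Curv.covHess
    rw [pd2_comp hu hφ, mul_sub, Finset.mul_sum]
    have h2 : ∑ p, ∑ q, (h y)⁻¹ p q * Curv.christoffel h i j p y *
        Curv.pd q (fun z => φ (u z)) y = ∑ p, deriv φ (u y) * ∑ q, (h y)⁻¹ p q *
        Curv.christoffel h i j p y * Curv.pd q u y := by
      refine Finset.sum_congr rfl fun p _ => ?_
      rw [Finset.mul_sum]
      refine Finset.sum_congr rfl fun q _ => ?_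
      rw [pd_comp (diff_of hu) (diff_of hφ)]
      ring
    rw [h2]
    ring
  rw [h1]
  ring

theorem gradC_comp (h : Curv.Coeff E) {φ : ℝ → ℝ} (hu : DifferentiableAt ℝ u y)
    (hφ : DifferentiableAt ℝ φ (u y)) :
    gradC h (fun z => φ (u z)) (fun z => φ (u z)) y = deriv φ (u y) ^ 2 * gradC h u u y := by
  unfold gradC
  rw [Finset.mul_sum]
  refine Finset.sum_congr rfl fun i _ => ?_
  rw [Finset.mul_sum]
  refine Finset.sum_congr rfl fun j _ => ?_
  rw [pd_comp hu hφ, pd_comp hu hφ]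
  ring

/-- the quadratic form of the inverse matrix -/
theorem quad_nonneg {m : ℕ} {A : Matrix (Fin m) (Fin m) ℝ} (hA : A.PosDef) (ξ : Fin m → ℝ) :
    0 ≤ ∑ i, ∑ j, A⁻¹ i j * (ξ i * ξ j) := by
  have h1 := hA.inv.posSemidef.dotProduct_mulVec_nonneg ξ
  have h2 : star ξ ⬝ᵥ (A⁻¹.mulVec ξ) = ∑ i, ∑ j, A⁻¹ i j * (ξ i * ξ j) := by
    unfold dotProduct Matrix.mulVec dotProduct
    refine Finset.sum_congr rfl fun i _ => ?_
    rw [Finset.mul_sum]
    refine Finset.sum_congr rfl fun j _ => ?_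
    simp only [star_trivial, Pi.star_apply]
    ring
  rw [h2] at h1
  exact h1

theorem gradC_nonneg {h : Curv.Coeff E} (hh : (h y).PosDef) : 0 ≤ gradC h u u y :=
  quad_nonneg hh fun i => Curv.pd i u y

theorem gradC_le {h : Curv.Coeff E} (hh : (h y).PosDef) (hu : DifferentiableAt ℝ u y)
    (hv : DifferentiableAt ℝ v y) :
    gradC h u u y ≤ 2 * gradC h v v y +
      2 * gradC h (fun z => v z - u z) (fun z => v z - u z) y := by
  have h1 := quad_nonneg hh fun i => 2 * Curv.pd i v y - Curv.pd i u y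
  have h2 : ∑ i, ∑ j, (h y)⁻¹ i j * ((2 * Curv.pd i v y - Curv.pd i u y) *
      (2 * Curv.pd j v y - Curv.pd j u y)) = 2 * gradC h v v y +
      2 * gradC h (fun z => v z - u z) (fun z => v z - u z) y - gradC h u u y := by
    unfold gradC
    rw [Finset.mul_sum, Finset.mul_sum, ← Finset.sum_add_distrib, ← Finset.sum_sub_distrib]
    refine Finset.sum_congr rfl fun i _ => ?_
    rw [Finset.mul_sum, Finset.mul_sum, ← Finset.sum_add_distrib, ← Finset.sum_sub_distrib]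
    refine Finset.sum_congr rfl fun j _ => ?_
    rw [pd_sub hv hu, pd_sub hv hu]
    ring
  rw [h2] at h1
  linarith

end G4

variable {E : Type*} [NormedAddCommGroup E] [NormedSpace ℝ E] [FiniteDimensional ℝ E]
  {M : Type*} [TopologicalSpace M] [ChartedSpace E M] [IsManifold 𝓘(ℝ, E) ∞ M]
  (g : ContMDiffRiemannianMetric 𝓘(ℝ, E) ∞ E (fun x : M => TangentSpace 𝓘(ℝ, E) x))

theorem sm_const (c : ℝ) : Sm E (fun _ : M => c) := contMDiff_const

theorem sm_add {f f' : M → ℝ} (hf : Sm E f) (hf' : Sm E f') : Sm E (fun x => f x + f' x) :=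
  ContMDiff.add hf hf'

theorem sm_smul {f : M → ℝ} (hf : Sm E f) (c : ℝ) : Sm E (fun x => c * f x) :=
  ContMDiff.mul (contMDiff_const (c := c)) hf

theorem sm_comp {f : M → ℝ} (hf : Sm E f) {φ : ℝ → ℝ} (hφ : ∀ x, ContDiffAt ℝ ∞ φ (f x)) :
    Sm E (fun x => φ (f x)) := by
  intro x
  exact ContMDiffAt.comp x (hφ x).contMDiffAt (hf x)

namespace G4

theorem rd_contDiffAt {f : M → ℝ} (hf : Sm E f) (x : M) :
    ContDiffAt ℝ ∞ (rd E x f) (extChartAt 𝓘(ℝ, E) x x) :=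
  read_contDiffAt 𝓘(ℝ, E) hf (mem_extChartAt_target x)

theorem rd_self (f : M → ℝ) (x : M) : rd E x f (extChartAt 𝓘(ℝ, E) x x) = f x := by
  unfold rd
  rw [extChartAt_to_inv]

end G4

theorem lap_const (c : ℝ) (x : M) : Lap g (fun _ => c) x = 0 :=
  G4.lapC_const (coeff g x) c

theorem lap_add {f f' : M → ℝ} (hf : Sm E f) (hf' : Sm E f') (x : M) :
    Lap g (fun x => f x + f' x) x = Lap g f x + Lap g f' x :=
  G4.lapC_add (coeff g x) (G4.rd_contDiffAt hf x) (G4.rd_contDiffAt hf' x)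

theorem lap_smul {f : M → ℝ} (hf : Sm E f) (c : ℝ) (x : M) :
    Lap g (fun x => c * f x) x = c * Lap g f x :=
  G4.lapC_smul (coeff g x) (G4.rd_contDiffAt hf x) c

theorem lap_comp {f : M → ℝ} (hf : Sm E f) {φ : ℝ → ℝ} (hφ : ∀ x, ContDiffAt ℝ ∞ φ (f x))
    (x : M) : Lap g (fun x => φ (f x)) x =
      deriv φ (f x) * Lap g f x + deriv (deriv φ) (f x) * Grd g f f x := by
  have h := G4.lapC_comp (coeff g x) (φ := φ) (G4.rd_contDiffAt hf x)
    (by rw [G4.rd_self]; exact hφ x)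
  rw [G4.rd_self] at h
  exact h

theorem grd_comp {f : M → ℝ} (hf : Sm E f) {φ : ℝ → ℝ} (hφ : ∀ x, ContDiffAt ℝ ∞ φ (f x))
    (x : M) : Grd g (fun x => φ (f x)) (fun x => φ (f x)) x = deriv φ (f x) ^ 2 * Grd g f f x := by
  have h := G4.gradC_comp (coeff g x) (φ := φ) (G4.diff_of (G4.rd_contDiffAt hf x))
    (by rw [G4.rd_self]; exact G4.diff_of (hφ x))
  rw [G4.rd_self] at h
  exact h

theorem grd_nonneg (f : M → ℝ) (x : M) : 0 ≤ Grd g f f x :=
  G4.gradC_nonneg (chartMetric_posDef 𝓘(ℝ, E) (finBasis ℝ E) g x (mem_extChartAt_target x))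

/-- `|∇ f|² ≤ 2 |∇ f'|² + 2 |∇ (f' - f)|²`. -/
theorem grd_le {f f' : M → ℝ} (hf : Sm E f) (hf' : Sm E f') (x : M) :
    Grd g f f x ≤ 2 * Grd g f' f' x +
      2 * Grd g (fun x => f' x - f x) (fun x => f' x - f x) x :=
  G4.gradC_le (chartMetric_posDef 𝓘(ℝ, E) (finBasis ℝ E) g x (mem_extChartAt_target x))
    (G4.diff_of (G4.rd_contDiffAt hf x)) (G4.diff_of (G4.rd_contDiffAt hf' x))

end Pool.Agent.Lib.MP_df705a_gt.Perm
end
end

section

/-!
# TASK J7: the divergence of a field of covectors, and metrics `∑ c_kl df_k df_l`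
-/

open scoped Manifold ContDiff Topology
open Set Bundle Module Filter

noncomputable section

namespace Pool.Agent.Lib.MP_df705a_gt.Circ

open Pool.Agent.Lib.MP_df705a_gt.Twist Pool.Agent.Lib.MP_df705a_gt.Perm
open Pool.Agent.Lib.MP_df705a_gt.Sub (mB)

variable {E₁ : Type*} [NormedAddCommGroup E₁] [NormedSpace ℝ E₁] [FiniteDimensional ℝ E₁]

/-- The divergence `∑ h^{ij} ∇_i ξ_j` of a field of covectors. -/
def divC (h : Curv.Coeff E₁) (ξ : E₁ → E₁ →L[ℝ] ℝ) (x : E₁) : ℝ :=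
  ∑ i, ∑ j, (h x)⁻¹ i j * (fderiv ℝ (fun x' => ξ x' (finBasis ℝ E₁ j)) x (finBasis ℝ E₁ i) -
    ∑ p, ∑ r, (h x)⁻¹ p r * Curv.christoffel h i j p x * ξ x (finBasis ℝ E₁ r))

private theorem j7_gradM_diff {h : Curv.Coeff E₁} {x : E₁}
    (hh : ∀ i j, ContDiffAt ℝ ∞ (fun y => h y i j) x) (hdet : (h x).det ≠ 0)
    {ξ : E₁ → E₁ →L[ℝ] ℝ} (hξ : ContDiffAt ℝ 1 ξ x) :
    DifferentiableAt ℝ (fun y => gradM (finBasis ℝ E₁) (h y) (ξ y)) x := by
  have hh1 : ∀ i j, ContDiffAt ℝ 1 (fun y => h y i j) x := fun i j => (hh i j).of_le (by norm_num)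
  have hid : ∀ i j, DifferentiableAt ℝ (fun y => (h y)⁻¹ i j) x := fun i j =>
    (contDiffAt_inv hh1 hdet i j).differentiableAt one_ne_zero
  have hudj : ∀ j, DifferentiableAt ℝ (fun y => ξ y (finBasis ℝ E₁ j)) x := fun j =>
    (hξ.clm_apply contDiffAt_const).differentiableAt one_ne_zero
  unfold gradM
  refine DifferentiableAt.fun_sum fun i _ => ?_
  refine DifferentiableAt.smul_const ?_ _
  exact DifferentiableAt.fun_sum fun j _ => (hid i j).mul (hudj j)

private theorem j7_dv_cov {h : Curv.Coeff E₁} {x : E₁}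
    (hh : ∀ i j, ContDiffAt ℝ ∞ (fun y => h y i j) x) (hp : ∀ᶠ y in 𝓝 x, (h y).PosDef)
    {ξ : E₁ → E₁ →L[ℝ] ℝ} (hξ : ContDiffAt ℝ ∞ ξ x) :
    dv (fun y => √ (h y).det • gradM (finBasis ℝ E₁) (h y) (ξ y)) x =
      √ (h x).det * divC h ξ x := by
  have hpx : (h x).PosDef := hp.self_of_nhds
  have hdet : (h x).det ≠ 0 := hpx.det_pos.ne'
  have hh1 : ∀ i j, ContDiffAt ℝ 1 (fun y => h y i j) x := fun i j => (hh i j).of_le (by norm_num)
  have hhd : ∀ i j, DifferentiableAt ℝ (fun y => h y i j) x := fun i j =>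
    (hh1 i j).differentiableAt one_ne_zero
  have hid : ∀ i j, DifferentiableAt ℝ (fun y => (h y)⁻¹ i j) x := fun i j =>
    (contDiffAt_inv hh1 hdet i j).differentiableAt one_ne_zero
  have hud : ContDiffAt ℝ 1 ξ x := hξ.of_le (by norm_num)
  have hudj : ∀ j, DifferentiableAt ℝ (fun y => ξ y (finBasis ℝ E₁ j)) x := fun j =>
    (hud.clm_apply contDiffAt_const).differentiableAt one_ne_zero
  have hdd : DifferentiableAt ℝ (fun y => (h y).det) x :=
    (contDiffAt_det hh1).differentiableAt one_ne_zero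
  have hφ : HasFDerivAt (fun y => √ (h y).det)
      ((1 / (2 * √ (h x).det)) • fderiv ℝ (fun y => (h y).det) x) x :=
    hdd.hasFDerivAt.sqrt hdet
  have hZd : DifferentiableAt ℝ (fun y => √ (h y).det •
      gradM (finBasis ℝ E₁) (h y) (ξ y)) x :=
    hφ.differentiableAt.smul (j7_gradM_diff hh hdet hud)
  rw [dv_eq_sum hZd]
  set A : Fin (finrank ℝ E₁) → Fin (finrank ℝ E₁) → ℝ := fun i j => (h x)⁻¹ i j with hAdef
  set G : Fin (finrank ℝ E₁) → Fin (finrank ℝ E₁) → Fin (finrank ℝ E₁) → ℝ := fun i j k =>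
    fderiv ℝ (fun y => h y i j) x (finBasis ℝ E₁ k) with hGdef
  set U : Fin (finrank ℝ E₁) → ℝ := fun i => ξ x (finBasis ℝ E₁ i) with hUdef
  set W : Fin (finrank ℝ E₁) → Fin (finrank ℝ E₁) → ℝ := fun i j =>
    fderiv ℝ (fun y => ξ y (finBasis ℝ E₁ j)) x (finBasis ℝ E₁ i) with hWdef
  set φ : ℝ := √ (h x).det with hφdef
  have hsymm : ∀ y, (h y).PosDef → ∀ i j, h y i j = h y j i := by
    intro y hy i j
    have h2 := congrFun (congrFun hy.isHermitian j) i
    rw [Matrix.conjTranspose_apply, star_trivial] at h2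
    exact h2
  have hA : ∀ i j, A i j = A j i := by
    intro i j
    have h2 := congrFun (congrFun hpx.inv.isHermitian j) i
    rw [Matrix.conjTranspose_apply, star_trivial] at h2
    exact h2
  have hG : ∀ i j k, G i j k = G j i k := by
    intro i j k
    simp only [hGdef]
    have h2 : (fun y => h y i j) =ᶠ[𝓝 x] fun y => h y j i := by
      filter_upwards [hp] with y hy
      exact hsymm y hy i j
    rw [h2.fderiv_eq]
  have key := div_algebra A G (fun _ => 0) U W hA hG φ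
  have hterm : ∀ i, fderiv ℝ (fun y => cd i (√ (h y).det •
      gradM (finBasis ℝ E₁) (h y) (ξ y))) x (finBasis ℝ E₁ i) =
      (φ * ((fun _ => 0 : Fin (finrank ℝ E₁) → ℝ) i + (∑ k, ∑ l, A k l * G l k i) / 2)) *
        ∑ j, A i j * U j +
      φ * ∑ j, ((-∑ k, ∑ l, A i k * A l j * G k l i) * U j + A i j * W i j) := by
    intro i
    have h1 : (fun y => cd i (√ (h y).det •
        gradM (finBasis ℝ E₁) (h y) (ξ y))) = fun y =>
        √ (h y).det * ∑ j, (h y)⁻¹ i j * ξ y (finBasis ℝ E₁ j) := by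
      funext y
      rw [map_smul, cd_gradM, smul_eq_mul]
    have h2 : HasFDerivAt (fun y => ∑ j, (h y)⁻¹ i j * ξ y (finBasis ℝ E₁ j))
        (∑ j, ((h x)⁻¹ i j • fderiv ℝ (fun y => ξ y (finBasis ℝ E₁ j)) x +
          ξ x (finBasis ℝ E₁ j) • fderiv ℝ (fun y => (h y)⁻¹ i j) x)) x :=
      HasFDerivAt.fun_sum fun j _ => (hid i j).hasFDerivAt.mul (hudj j).hasFDerivAt
    have h3 : HasFDerivAt (fun y => √ (h y).det *
          ∑ j, (h y)⁻¹ i j * ξ y (finBasis ℝ E₁ j)) _ x := hφ.mul h2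
    rw [h1, h3.fderiv]
    simp only [add_apply, smul_apply, sum_apply, smul_eq_mul]
    rw [fderiv_det hhd hdet]
    simp only [fderiv_inv hh1 hdet]
    have hs : √ (h x).det * √ (h x).det = (h x).det := Real.mul_self_sqrt hpx.det_pos.le
    have hs0 : √ (h x).det ≠ 0 := (Real.sqrt_pos.2 hpx.det_pos).ne'
    have e2 : 1 / (2 * √ (h x).det) * ((h x).det *
        ∑ k, ∑ l, (h x)⁻¹ k l * fderiv ℝ (fun y => h y l k) x (finBasis ℝ E₁ i)) =
        φ * (0 + (∑ k, ∑ l, A k l * G l k i) / 2) := by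
      have e3 : ∀ s d X : ℝ, s ≠ 0 → s * s = d → 1 / (2 * s) * (d * X) = s * (0 + X / 2) := by
        intro s d X h0 h1
        rw [← h1]
        field_simp
        ring
      exact e3 _ _ _ hs0 hs
    rw [e2, add_comm]
    congr 1
    · rw [mul_comm]
    · rw [hφdef]
      congr 1
      apply Finset.sum_congr rfl
      intro j _
      simp only [hAdef, hGdef, hUdef, hWdef]
      ring
  rw [Finset.sum_congr rfl (fun i _ => hterm i), key]
  have h0 : ∑ i, ∑ j, A i j * ((fun _ => 0 : Fin (finrank ℝ E₁) → ℝ) i * U j) = 0 := by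
    simp
  rw [h0, add_zero]
  rfl

private theorem j7_dv_smul {a : E₁ → ℝ} {Z : E₁ → E₁} {x : E₁} (ha : DifferentiableAt ℝ a x)
    (hZ : DifferentiableAt ℝ Z x) :
    dv (fun y => a y • Z y) x = a x * dv Z x + fderiv ℝ a x (Z x) := by
  have h1 : DifferentiableAt ℝ (fun y => a y • Z y) x := ha.smul hZ
  rw [dv_eq_sum h1, dv_eq_sum hZ, Finset.mul_sum]
  have h2 : ∀ i, fderiv ℝ (fun y => cd i (a y • Z y)) x (finBasis ℝ E₁ i) =
      a x * fderiv ℝ (fun y => cd i (Z y)) x (finBasis ℝ E₁ i) +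
        fderiv ℝ a x (finBasis ℝ E₁ i) * cd i (Z x) := by
    intro i
    have h3 : (fun y => cd i (a y • Z y)) = fun y => a y * cd i (Z y) := by
      funext y
      rw [map_smul, smul_eq_mul]
    have h4 : DifferentiableAt ℝ (fun y => cd i (Z y)) x := (cd i).differentiableAt.comp x hZ
    have h5 : HasFDerivAt (fun y => a y * cd i (Z y)) _ x := ha.hasFDerivAt.mul h4.hasFDerivAt
    rw [h3, h5.fderiv]
    simp only [add_apply, smul_apply, smul_eq_mul]
    ring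
  rw [Finset.sum_congr rfl (fun i _ => h2 i), Finset.sum_add_distrib]
  congr 1
  conv_rhs => rw [← (finBasis ℝ E₁).sum_repr (Z x)]
  rw [map_sum]
  apply Finset.sum_congr rfl
  intro i _
  rw [map_smul, smul_eq_mul, cd_apply]
  ring

private theorem j7_dv_sum {ι : Type*} (s : Finset ι) {Z : ι → E₁ → E₁} {x : E₁}
    (hZ : ∀ i ∈ s, DifferentiableAt ℝ (Z i) x) :
    dv (fun y => ∑ i ∈ s, Z i y) x = ∑ i ∈ s, dv (Z i) x := by
  unfold dv
  rw [fderiv_fun_sum hZ]
  have h1 : ((∑ i ∈ s, fderiv ℝ (Z i) x : E₁ →L[ℝ] E₁) : E₁ →ₗ[ℝ] E₁) =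
      ∑ i ∈ s, (fderiv ℝ (Z i) x : E₁ →ₗ[ℝ] E₁) := by
    ext v
    simp
  rw [h1, map_sum]

private theorem j7_gradM_sum {ι : Type*} (s : Finset ι)
    (h : Matrix (Fin (finrank ℝ E₁)) (Fin (finrank ℝ E₁)) ℝ) (L : ι → E₁ →L[ℝ] ℝ) :
    gradM (finBasis ℝ E₁) h (∑ k ∈ s, L k) = ∑ k ∈ s, gradM (finBasis ℝ E₁) h (L k) := by
  unfold gradM
  rw [Finset.sum_comm]
  apply Finset.sum_congr rfl
  intro i _
  rw [← Finset.sum_smul]
  congr 1
  rw [Finset.sum_comm]
  apply Finset.sum_congr rfl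
  intro j _
  rw [sum_apply, Finset.mul_sum]

private theorem j7_gradM_smul (h : Matrix (Fin (finrank ℝ E₁)) (Fin (finrank ℝ E₁)) ℝ)
    (a : ℝ) (L : E₁ →L[ℝ] ℝ) :
    gradM (finBasis ℝ E₁) h (a • L) = a • gradM (finBasis ℝ E₁) h L := by
  unfold gradM
  rw [Finset.smul_sum]
  apply Finset.sum_congr rfl
  intro i _
  rw [smul_smul]
  congr 1
  rw [Finset.mul_sum]
  apply Finset.sum_congr rfl
  intro j _
  rw [smul_apply, smul_eq_mul]
  ring

private theorem j7_mB_gradM {M : Matrix (Fin (finrank ℝ E₁)) (Fin (finrank ℝ E₁)) ℝ}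
    (hM : M.PosDef) (L : E₁ →L[ℝ] ℝ) (w : E₁) :
    mB M (gradM (finBasis ℝ E₁) M L) w = L w := by
  have hdet : IsUnit M.det := hM.det_pos.ne'.isUnit
  have hsym : ∀ i j, M⁻¹ i j = M⁻¹ j i := by
    intro i j
    have h2 := congrFun (congrFun hM.inv.isHermitian j) i
    rw [Matrix.conjTranspose_apply, star_trivial] at h2
    exact h2
  unfold mB
  have h1 : ∀ i, (finBasis ℝ E₁).repr (gradM (finBasis ℝ E₁) M L) i =
      ∑ j, M⁻¹ i j * L (finBasis ℝ E₁ j) := fun i => by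
    rw [← cd_apply, cd_gradM]
  simp only [h1]
  have h2 : L w = ∑ j, (finBasis ℝ E₁).repr w j * L (finBasis ℝ E₁ j) := by
    conv_lhs => rw [← (finBasis ℝ E₁).sum_repr w]
    rw [map_sum]
    apply Finset.sum_congr rfl
    intro j _
    rw [map_smul, smul_eq_mul]
  rw [h2, Finset.sum_comm]
  apply Finset.sum_congr rfl
  intro j _
  have h3 : ∑ i, M i j * ((∑ l, M⁻¹ i l * L (finBasis ℝ E₁ l)) * (finBasis ℝ E₁).repr w j) =
      (finBasis ℝ E₁).repr w j * ∑ l, (∑ i, M⁻¹ l i * M i j) * L (finBasis ℝ E₁ l) := by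
    simp only [Finset.mul_sum, Finset.sum_mul]
    rw [Finset.sum_comm]
    apply Finset.sum_congr rfl
    intro l _
    apply Finset.sum_congr rfl
    intro i _
    rw [hsym l i]
    ring
  rw [h3]
  congr 1
  have h4 : ∀ l, ∑ i, M⁻¹ l i * M i j = (1 : Matrix (Fin (finrank ℝ E₁)) (Fin (finrank ℝ E₁)) ℝ) l j :=
    fun l => by rw [← Matrix.mul_apply, Matrix.nonsing_inv_mul M hdet]
  simp only [h4, Matrix.one_apply]
  rw [Finset.sum_eq_single j]
  · simp
  · intro b _ hb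
    simp [hb]
  · intro hn
    exact absurd (Finset.mem_univ j) hn

private theorem j7_mB_symm {M : Matrix (Fin (finrank ℝ E₁)) (Fin (finrank ℝ E₁)) ℝ}
    (hM : M.PosDef) (v w : E₁) : mB M v w = mB M w v := by
  have hsym : ∀ i j, M i j = M j i := by
    intro i j
    have h2 := congrFun (congrFun hM.isHermitian j) i
    rw [Matrix.conjTranspose_apply, star_trivial] at h2
    exact h2
  unfold mB
  rw [Finset.sum_comm]
  apply Finset.sum_congr rfl
  intro i _
  apply Finset.sum_congr rfl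
  intro j _
  rw [hsym j i]
  ring

theorem divC_data {h : Curv.Coeff E₁} {x : E₁} (hh : ∀ i j, ContDiffAt ℝ ∞ (fun y => h y i j) x)
    (hp : ∀ᶠ y in 𝓝 x, (h y).PosDef) {ξ : E₁ → E₁ →L[ℝ] ℝ} (hξ : ContDiffAt ℝ ∞ ξ x)
    {κ : Type*} [Fintype κ] {f : κ → E₁ → ℝ} {c : κ → κ → E₁ → ℝ}
    (hf : ∀ k, ContDiffAt ℝ ∞ (f k) x) (hc : ∀ k l, ContDiffAt ℝ ∞ (c k l) x)
    (hdata : ∀ᶠ y in 𝓝 x, ∀ u v, mB (h y) u v =
      ∑ k, ∑ l, c k l y * (fderiv ℝ (f k) y u * fderiv ℝ (f l) y v)) :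
    ∑ k, ∑ l, (fderiv ℝ (fun y => c k l y *
        ξ y (gradM (finBasis ℝ E₁) (h y) (fderiv ℝ (f k) y))) x
          (gradM (finBasis ℝ E₁) (h x) (fderiv ℝ (f l) x)) +
      c k l x * ξ x (gradM (finBasis ℝ E₁) (h x) (fderiv ℝ (f k) x)) * lapC h (f l) x) =
    divC h ξ x := by
  have hpx : (h x).PosDef := hp.self_of_nhds
  have hdet : (h x).det ≠ 0 := hpx.det_pos.ne'
  have hs0 : √ (h x).det ≠ 0 := (Real.sqrt_pos.2 hpx.det_pos).ne'
  have hh1 : ∀ i j, ContDiffAt ℝ 1 (fun y => h y i j) x := fun i j => (hh i j).of_le (by norm_num)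
  have hdd : DifferentiableAt ℝ (fun y => (h y).det) x :=
    (contDiffAt_det hh1).differentiableAt one_ne_zero
  have hφ : DifferentiableAt ℝ (fun y => √ (h y).det) x :=
    (hdd.hasFDerivAt.sqrt hdet).differentiableAt
  have hfd : ∀ k, ContDiffAt ℝ 1 (fderiv ℝ (f k)) x := fun k =>
    ((hf k).fderiv_right (m := ∞) (by simp)).of_le (by norm_num)
  have hgd : ∀ k, DifferentiableAt ℝ (fun y => gradM (finBasis ℝ E₁) (h y) (fderiv ℝ (f k) y)) x :=
    fun k => j7_gradM_diff hh hdet (hfd k)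
  have hξd : DifferentiableAt ℝ ξ x := hξ.differentiableAt (by norm_num)
  have had : ∀ k l, DifferentiableAt ℝ (fun y => c k l y *
        ξ y (gradM (finBasis ℝ E₁) (h y) (fderiv ℝ (f k) y))) x := fun k l =>
    ((hc k l).differentiableAt (by norm_num)).mul (hξd.clm_apply (hgd k))
  -- the vector field near `x`
  have hZ : (fun y => √ (h y).det • gradM (finBasis ℝ E₁) (h y) (ξ y)) =ᶠ[𝓝 x]
      fun y => ∑ k, ∑ l, (c k l y * ξ y (gradM (finBasis ℝ E₁) (h y) (fderiv ℝ (f k) y))) •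
        (√ (h y).det • gradM (finBasis ℝ E₁) (h y) (fderiv ℝ (f l) y)) := by
    filter_upwards [hp, hdata] with y hy hdy
    have h1 : ξ y = ∑ k, ∑ l, (c k l y *
        ξ y (gradM (finBasis ℝ E₁) (h y) (fderiv ℝ (f k) y))) • fderiv ℝ (f l) y := by
      ext w
      rw [← j7_mB_gradM hy (ξ y) w, hdy]
      rw [sum_apply]
      apply Finset.sum_congr rfl
      intro k _
      rw [sum_apply]
      apply Finset.sum_congr rfl
      intro l _
      rw [smul_apply, smul_eq_mul]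
      have h2 : fderiv ℝ (f k) y (gradM (finBasis ℝ E₁) (h y) (ξ y)) =
          ξ y (gradM (finBasis ℝ E₁) (h y) (fderiv ℝ (f k) y)) := by
        rw [← j7_mB_gradM hy (fderiv ℝ (f k) y) (gradM (finBasis ℝ E₁) (h y) (ξ y)),
          j7_mB_symm hy, j7_mB_gradM hy]
      rw [h2]
      ring
    have h3 : gradM (finBasis ℝ E₁) (h y) (ξ y) = ∑ k, ∑ l, (c k l y *
        ξ y (gradM (finBasis ℝ E₁) (h y) (fderiv ℝ (f k) y))) •
          gradM (finBasis ℝ E₁) (h y) (fderiv ℝ (f l) y) := by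
      conv_lhs => rw [h1]
      rw [j7_gradM_sum]
      apply Finset.sum_congr rfl
      intro k _
      rw [j7_gradM_sum]
      apply Finset.sum_congr rfl
      intro l _
      rw [j7_gradM_smul]
    rw [h3, Finset.smul_sum]
    apply Finset.sum_congr rfl
    intro k _
    rw [Finset.smul_sum]
    apply Finset.sum_congr rfl
    intro l _
    rw [smul_smul, smul_smul, mul_comm]
  have hdiv := j7_dv_cov hh hp hξ
  have hcongr : dv (fun y => √ (h y).det • gradM (finBasis ℝ E₁) (h y) (ξ y)) x =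
      dv (fun y => ∑ k, ∑ l,
        (c k l y * ξ y (gradM (finBasis ℝ E₁) (h y) (fderiv ℝ (f k) y))) •
        (√ (h y).det • gradM (finBasis ℝ E₁) (h y) (fderiv ℝ (f l) y))) x := by
    unfold dv
    rw [hZ.fderiv_eq]
  have hsl : ∀ l, DifferentiableAt ℝ (fun y => √ (h y).det •
      gradM (finBasis ℝ E₁) (h y) (fderiv ℝ (f l) y)) x := fun l => hφ.smul (hgd l)
  have hkl : ∀ k l, DifferentiableAt ℝ (fun y =>
      (c k l y * ξ y (gradM (finBasis ℝ E₁) (h y) (fderiv ℝ (f k) y))) •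
        (√ (h y).det • gradM (finBasis ℝ E₁) (h y) (fderiv ℝ (f l) y))) x := fun k l =>
    (had k l).smul (hsl l)
  have hslice : ∀ l, dv (fun y => √ (h y).det •
      gradM (finBasis ℝ E₁) (h y) (fderiv ℝ (f l) y)) x = √ (h x).det * lapC h (f l) x := by
    intro l
    have h1 := dv_slice (ψ := fun _ => 0) hh hp contDiffAt_const (hf l) 1
    simp only [Real.exp_zero, one_mul] at h1
    rw [h1]
    have h2 : gradC h (fun _ => 0) (f l) x = 0 := by
      unfold gradC Curv.pd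
      simp
    rw [h2, add_zero]
  rw [hcongr, j7_dv_sum Finset.univ (fun k _ => DifferentiableAt.fun_sum fun l _ => hkl k l)]
    at hdiv
  have h5 : ∀ k, dv (fun y => ∑ l,
      (c k l y * ξ y (gradM (finBasis ℝ E₁) (h y) (fderiv ℝ (f k) y))) •
        (√ (h y).det • gradM (finBasis ℝ E₁) (h y) (fderiv ℝ (f l) y))) x =
      √ (h x).det * ∑ l, (fderiv ℝ (fun y => c k l y *
        ξ y (gradM (finBasis ℝ E₁) (h y) (fderiv ℝ (f k) y))) x
          (gradM (finBasis ℝ E₁) (h x) (fderiv ℝ (f l) x)) +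
      c k l x * ξ x (gradM (finBasis ℝ E₁) (h x) (fderiv ℝ (f k) x)) * lapC h (f l) x) := by
    intro k
    rw [j7_dv_sum Finset.univ (fun l _ => hkl k l), Finset.mul_sum]
    apply Finset.sum_congr rfl
    intro l _
    rw [j7_dv_smul (had k l) (hsl l), hslice l, map_smul, smul_eq_mul]
    ring
  rw [Finset.sum_congr rfl (fun k _ => h5 k), ← Finset.mul_sum] at hdiv
  exact mul_left_cancel₀ hs0 hdiv

end Pool.Agent.Lib.MP_df705a_gt.Circ
end
end
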