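import Pool.Agent.Lib.MP_df705a_gt.Mg.G058
import Pool.Agent.Lib.MP_df705a_gt.Perm.Defs
import Pool.Agent.Lib.MP_df705a_gt.Mg.G062
import Pool.Agent.Lib.MP_df705a_gt.Coll.Defs
import Pool.Agent.Lib.MP_df705a_gt.Mg.G059

section

/-!
# TASK I1b: gradient product and Laplacian under pullbacks between two model spaces
-/

open scoped Manifold ContDiff Topology
open Set Bundle Module Filter

noncomputable section

namespace Pool.Agent.Lib.MP_df705a_gt.Circ

open Pool.Agent.Lib.MP_df705a_gt.Twist Pool.Agent.Lib.MP_df705a_gt.Perm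
open Pool.Agent.Lib.MP_df705a_gt.Sub (mB)

variable {E' : Type*} [NormedAddCommGroup E'] [NormedSpace ℝ E'] [FiniteDimensional ℝ E']
  {E : Type*} [NormedAddCommGroup E] [NormedSpace ℝ E] [FiniteDimensional ℝ E]

set_option linter.unusedSectionVars false

namespace I1b

/-- The coefficients in the linear coordinates given by `L`. -/
def lc (C' : Curv.Coeff E') (L : E ≃L[ℝ] E') (σ : Fin (finrank ℝ E) ≃ Fin (finrank ℝ E')) :
    Curv.Coeff E := fun x => (C' (L x)).submatrix σ σ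

theorem fd_comp (L : E ≃L[ℝ] E') (F : E' → ℝ) (x : E) :
    fderiv ℝ (F ∘ L) x = (fderiv ℝ F (L x)).comp (L : E →L[ℝ] E') :=
  L.comp_right_fderiv

variable {L : E ≃L[ℝ] E'} {σ : Fin (finrank ℝ E) ≃ Fin (finrank ℝ E')}

theorem pd_comp (hL : ∀ i, L (finBasis ℝ E i) = finBasis ℝ E' (σ i)) (i : Fin (finrank ℝ E))
    (F : E' → ℝ) (x : E) : Curv.pd i (F ∘ L) x = Curv.pd (σ i) F (L x) := by
  unfold Curv.pd
  rw [fd_comp, ContinuousLinearMap.comp_apply]
  congr 1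
  exact hL i

theorem inv_lc (C' : Curv.Coeff E') (x : E) (i j : Fin (finrank ℝ E)) :
    (lc C' L σ x)⁻¹ i j = (C' (L x))⁻¹ (σ i) (σ j) := by
  unfold lc
  rw [Matrix.inv_submatrix_equiv]
  rfl

theorem christoffel_lc (hL : ∀ i, L (finBasis ℝ E i) = finBasis ℝ E' (σ i))
    (C' : Curv.Coeff E') (i j k : Fin (finrank ℝ E)) (x : E) :
    Curv.christoffel (lc C' L σ) i j k x = Curv.christoffel C' (σ i) (σ j) (σ k) (L x) := by
  unfold Curv.christoffel
  have h : ∀ a b : Fin (finrank ℝ E), (fun y => lc C' L σ y a b) =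
      (fun y => C' y (σ a) (σ b)) ∘ L := fun a b => rfl
  rw [h, h, h, pd_comp hL, pd_comp hL, pd_comp hL]

theorem covHess_lc (hL : ∀ i, L (finBasis ℝ E i) = finBasis ℝ E' (σ i))
    (C' : Curv.Coeff E') (F : E' → ℝ) (x : E) (i j : Fin (finrank ℝ E)) :
    Curv.covHess (lc C' L σ) (F ∘ L) x i j = Curv.covHess C' F (L x) (σ i) (σ j) := by
  unfold Curv.covHess
  have h : Curv.pd j (F ∘ L) = Curv.pd (σ j) F ∘ L := by
    funext y
    exact pd_comp hL j F y
  rw [h, pd_comp hL]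
  congr 1
  rw [← σ.sum_comp]
  refine Finset.sum_congr rfl fun p _ => ?_
  rw [← σ.sum_comp]
  refine Finset.sum_congr rfl fun q _ => ?_
  rw [inv_lc, christoffel_lc hL, pd_comp hL]

theorem lapC_lc (hL : ∀ i, L (finBasis ℝ E i) = finBasis ℝ E' (σ i))
    (C' : Curv.Coeff E') (F : E' → ℝ) (x : E) :
    lapC (lc C' L σ) (F ∘ L) x = lapC C' F (L x) := by
  unfold lapC
  symm
  rw [← σ.sum_comp]
  refine Finset.sum_congr rfl fun p _ => ?_
  rw [← σ.sum_comp]
  refine Finset.sum_congr rfl fun q _ => ?_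
  rw [inv_lc, covHess_lc hL]

theorem gradC_lc (hL : ∀ i, L (finBasis ℝ E i) = finBasis ℝ E' (σ i))
    (C' : Curv.Coeff E') (F G : E' → ℝ) (x : E) :
    gradC (lc C' L σ) (F ∘ L) (G ∘ L) x = gradC C' F G (L x) := by
  unfold gradC
  symm
  rw [← σ.sum_comp]
  refine Finset.sum_congr rfl fun p _ => ?_
  rw [← σ.sum_comp]
  refine Finset.sum_congr rfl fun q _ => ?_
  rw [inv_lc, pd_comp hL, pd_comp hL]

theorem matrix_law (M : Matrix (Fin (finrank ℝ E)) (Fin (finrank ℝ E)) ℝ) (D : E →L[ℝ] E)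
    (i j : Fin (finrank ℝ E)) :
    ((LinearMap.toMatrix (finBasis ℝ E) (finBasis ℝ E) (D : E →ₗ[ℝ] E)).transpose * M *
      LinearMap.toMatrix (finBasis ℝ E) (finBasis ℝ E) (D : E →ₗ[ℝ] E)) i j =
      mB M (D (finBasis ℝ E i)) (D (finBasis ℝ E j)) := by
  unfold Sub.mB
  simp only [Matrix.mul_apply, Matrix.transpose_apply, LinearMap.toMatrix_apply,
    ContinuousLinearMap.coe_coe, Finset.sum_mul]
  rw [Finset.sum_comm]
  refine Finset.sum_congr rfl fun p _ => Finset.sum_congr rfl fun q _ => ?_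
  ring

theorem exists_lin {A : E' →L[ℝ] E} (hA : Function.Bijective A) :
    ∃ (L : E ≃L[ℝ] E') (σ : Fin (finrank ℝ E) ≃ Fin (finrank ℝ E')),
      ∀ i, L (finBasis ℝ E i) = finBasis ℝ E' (σ i) := by
  have h : finrank ℝ E = finrank ℝ E' :=
    (LinearEquiv.ofBijective (A : E' →ₗ[ℝ] E) hA).finrank_eq.symm
  refine ⟨((finBasis ℝ E).equiv (finBasis ℝ E') (finCongr h)).toContinuousLinearEquiv,
    finCongr h, fun i => ?_⟩
  exact Basis.equiv_apply _ i _ _

theorem det_ne {D : E →L[ℝ] E} (hD : Function.Bijective D) : D.det ≠ 0 := by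
  have h := LinearEquiv.isUnit_det' (LinearEquiv.ofBijective (D : E →ₗ[ℝ] E) hD)
  exact h.ne_zero

end I1b

open I1b

theorem PullAt.grad {C' : Curv.Coeff E'} {C : Curv.Coeff E} {τ : E' → E} {y : E'}
    (P : PullAt C' C τ y) {u v : E → ℝ} (hu : ContDiffAt ℝ ∞ u (τ y))
    (hv : ContDiffAt ℝ ∞ v (τ y)) :
    gradC C' (u ∘ τ) (v ∘ τ) y = gradC C u v (τ y) := by
  obtain ⟨L, σ, hL⟩ := exists_lin P.bij
  obtain ⟨z, rfl⟩ : ∃ z, L z = y := ⟨L.symm y, L.apply_symm_apply y⟩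
  have hfd : fderiv ℝ (τ ∘ L) z = (fderiv ℝ τ (L z)).comp (L : E →L[ℝ] E') :=
    L.comp_right_fderiv
  have hs : ContDiffAt ℝ ∞ (τ ∘ L) z := P.smooth.comp z L.contDiff.contDiffAt
  have hdet : (fderiv ℝ (τ ∘ L) z).det ≠ 0 := by
    apply det_ne
    rw [hfd]
    exact P.bij.comp L.bijective
  have e := gradC_pull (h := C) (h' := lc C' L σ) hs hdet (by
    ext i j
    rw [matrix_law, hfd]
    have := P.law.self_of_nhds (σ i) (σ j)
    rw [← hL, ← hL] at this
    exact this) hu hv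
  rw [← gradC_lc hL]
  exact e

theorem PullAt.lap {C' : Curv.Coeff E'} {C : Curv.Coeff E} {τ : E' → E} {y : E'}
    (P : PullAt C' C τ y) {u : E → ℝ} (hu : ContDiffAt ℝ ∞ u (τ y)) :
    lapC C' (u ∘ τ) y = lapC C u (τ y) := by
  obtain ⟨L, σ, hL⟩ := exists_lin P.bij
  obtain ⟨z, rfl⟩ : ∃ z, L z = y := ⟨L.symm y, L.apply_symm_apply y⟩
  have hfd : ∀ x, fderiv ℝ (τ ∘ L) x = (fderiv ℝ τ (L x)).comp (L : E →L[ℝ] E') :=
    fun x => L.comp_right_fderiv
  have hs : ContDiffAt ℝ ∞ (τ ∘ L) z := P.smooth.comp z L.contDiff.contDiffAt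
  have hdet : (fderiv ℝ (τ ∘ L) z).det ≠ 0 := by
    apply det_ne
    rw [hfd]
    exact P.bij.comp L.bijective
  have hlaw : ∀ᶠ x in 𝓝 z, lc C' L σ x =
      (LinearMap.toMatrix (finBasis ℝ E) (finBasis ℝ E)
        (fderiv ℝ (τ ∘ L) x : E →ₗ[ℝ] E)).transpose * C ((τ ∘ L) x) *
      LinearMap.toMatrix (finBasis ℝ E) (finBasis ℝ E) (fderiv ℝ (τ ∘ L) x : E →ₗ[ℝ] E) := by
    filter_upwards [L.continuous.continuousAt.eventually P.law] with x hx
    ext i j
    rw [matrix_law, hfd]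
    have := hx (σ i) (σ j)
    rw [← hL, ← hL] at this
    exact this
  have e := lapC_pull (h := C) (h' := lc C' L σ) hs hdet P.c_smooth P.c_symm P.c_det hlaw hu
  rw [← lapC_lc hL]
  exact e

end Pool.Agent.Lib.MP_df705a_gt.Circ
end
end

section

/-!
# TASK G3: Laplacian, gradient product and scalar curvature in an arbitrary chart
-/

open scoped Manifold ContDiff Topology
open Set Bundle Module Filter

noncomputable section

set_option linter.unusedSectionVars false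

namespace Pool.Agent.Lib.MP_df705a_gt.Perm

open Pool.Agent.Lib.MP_df705a_gt.Twist

/-! ### Smoothness of the coordinate expressions -/

section smoothness

variable {E : Type*} [NormedAddCommGroup E] [NormedSpace ℝ E] [FiniteDimensional ℝ E]
  {W : Type*} [NormedAddCommGroup W] [NormedSpace ℝ W]

theorem g3_pd_smooth {F : E → ℝ} {y : E} (hF : ContDiffAt ℝ ∞ F y) (i : Fin (finrank ℝ E)) :
    ContDiffAt ℝ ∞ (Curv.pd i F) y :=
  (hF.fderiv_right (m := ∞) (by simp)).clm_apply contDiffAt_const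

theorem g3_pd_smooth₂ {F : W → E → ℝ} {y : E} {w : W}
    (hF : ContDiffAt ℝ ∞ (fun q : E × W => F q.2 q.1) (y, w)) (i : Fin (finrank ℝ E)) :
    ContDiffAt ℝ ∞ (fun q : E × W => Curv.pd i (F q.2) q.1) (y, w) := by
  have h1 : ContDiffAt ℝ ∞ (Function.uncurry fun (q : E × W) (y' : E) => F q.2 y')
      ((y, w), y) := by
    have h2 : ContDiffAt ℝ ∞ (fun p : (E × W) × E => (p.2, p.1.2)) ((y, w), y) :=
      contDiffAt_snd.prodMk (contDiffAt_snd.comp _ contDiffAt_fst)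
    exact ContDiffAt.comp ((y, w), y) (g := fun q : E × W => F q.2 q.1)
      (f := fun p : (E × W) × E => (p.2, p.1.2)) hF h2
  have h3 : ContDiffAt ℝ ∞ (fun q : E × W => fderiv ℝ (F q.2) q.1) (y, w) :=
    ContDiffAt.fderiv (f := fun (q : E × W) (y' : E) => F q.2 y') (g := fun q : E × W => q.1)
      (m := ∞) h1 contDiffAt_fst (by simp)
  exact h3.clm_apply contDiffAt_const

variable {h : Curv.Coeff E}

theorem g3_christoffel_smooth {y : E} (hh : ∀ i j, ContDiffAt ℝ ∞ (fun x => h x i j) y)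
    (i j k : Fin (finrank ℝ E)) : ContDiffAt ℝ ∞ (Curv.christoffel h i j k) y :=
  (((g3_pd_smooth (hh j k) i).add (g3_pd_smooth (hh i k) j)).sub
    (g3_pd_smooth (hh i j) k)).div_const 2

theorem g3_riemann_smooth {y : E} (hh : ∀ i j, ContDiffAt ℝ ∞ (fun x => h x i j) y)
    (hnd : (h y).det ≠ 0) (i j k l : Fin (finrank ℝ E)) :
    ContDiffAt ℝ ∞ (Curv.riemann h i j k l) y := by
  refine ((g3_pd_smooth (g3_christoffel_smooth hh j k l) i).sub
    (g3_pd_smooth (g3_christoffel_smooth hh i k l) j)).add ?_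
  refine ContDiffAt.sum fun p _ => ContDiffAt.sum fun q _ => ?_
  refine (contDiffAt_inv hh hnd p q).mul ?_
  exact ((g3_christoffel_smooth hh i k p).mul (g3_christoffel_smooth hh j l q)).sub
    ((g3_christoffel_smooth hh j k p).mul (g3_christoffel_smooth hh i l q))

theorem g3_scal_smooth {y : E} (hh : ∀ i j, ContDiffAt ℝ ∞ (fun x => h x i j) y)
    (hnd : (h y).det ≠ 0) : ContDiffAt ℝ ∞ (Curv.scal h) y := by
  refine ContDiffAt.sum fun i _ => ContDiffAt.sum fun j _ => ContDiffAt.sum fun k _ =>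
    ContDiffAt.sum fun l _ => ?_
  exact ((contDiffAt_inv hh hnd i l).mul (contDiffAt_inv hh hnd j k)).mul
    (g3_riemann_smooth hh hnd i j k l)

theorem g3_lift {G : E → ℝ} {y : E} (hG : ContDiffAt ℝ ∞ G y) (w : W) :
    ContDiffAt ℝ ∞ (fun q : E × W => G q.1) (y, w) :=
  ContDiffAt.comp (y, w) (g := G) (f := fun q : E × W => q.1) hG contDiffAt_fst

theorem g3_lapC_smooth {y : E} (hh : ∀ i j, ContDiffAt ℝ ∞ (fun x => h x i j) y)
    (hnd : (h y).det ≠ 0) {F : W → E → ℝ} {w : W}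
    (hF : ContDiffAt ℝ ∞ (fun q : E × W => F q.2 q.1) (y, w)) :
    ContDiffAt ℝ ∞ (fun q : E × W => lapC h (F q.2) q.1) (y, w) := by
  refine ContDiffAt.sum fun i _ => ContDiffAt.sum fun j _ => ?_
  refine (g3_lift (contDiffAt_inv hh hnd i j) w).mul ?_
  refine (g3_pd_smooth₂ (F := fun w => Curv.pd j (F w)) (g3_pd_smooth₂ hF j) i).sub ?_
  refine ContDiffAt.sum fun p _ => ContDiffAt.sum fun q _ => ?_
  exact ((g3_lift (contDiffAt_inv hh hnd p q) w).mul
    (g3_lift (g3_christoffel_smooth hh i j p) w)).mul (g3_pd_smooth₂ hF q)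

theorem g3_gradC_smooth {y : E} (hh : ∀ i j, ContDiffAt ℝ ∞ (fun x => h x i j) y)
    (hnd : (h y).det ≠ 0) {F G : W → E → ℝ} {w : W}
    (hF : ContDiffAt ℝ ∞ (fun q : E × W => F q.2 q.1) (y, w))
    (hG : ContDiffAt ℝ ∞ (fun q : E × W => G q.2 q.1) (y, w)) :
    ContDiffAt ℝ ∞ (fun q : E × W => gradC h (F q.2) (G q.2) q.1) (y, w) := by
  refine ContDiffAt.sum fun i _ => ContDiffAt.sum fun j _ => ?_
  exact (g3_lift (contDiffAt_inv hh hnd i j) w).mul
    ((g3_pd_smooth₂ hF i).mul (g3_pd_smooth₂ hG j))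

end smoothness

section

variable {E : Type*} [NormedAddCommGroup E] [NormedSpace ℝ E] [FiniteDimensional ℝ E]
  {H : Type*} [TopologicalSpace H] {I : ModelWithCorners ℝ E H} [I.Boundaryless]
  {M : Type*} [TopologicalSpace M] [ChartedSpace H M] [IsManifold I ∞ M]

theorem g3_coeff_smooth (g : ContMDiffRiemannianMetric I ∞ E (fun x : M => TangentSpace I x))
    (z : M) {y : E} (hy : y ∈ (extChartAt I z).target) (i j : Fin (finrank ℝ E)) :
    ContDiffAt ℝ ∞ (fun x => coeff g z x i j) y :=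
  (chartMetric_smooth I (finBasis ℝ E) g z i j).contDiffAt
    ((isOpen_extChartAt_target z).mem_nhds hy)

theorem g3_coeff_det (g : ContMDiffRiemannianMetric I ∞ E (fun x : M => TangentSpace I x))
    (z : M) {y : E} (hy : y ∈ (extChartAt I z).target) : (coeff g z y).det ≠ 0 :=
  (chartMetric_posDef I (finBasis ℝ E) g z hy).det_pos.ne'

theorem g3_mem_dom {z : M} {y : E} (hy : y ∈ (extChartAt I z).target) :
    y ∈ dom I ((extChartAt I z).symm y) z :=
  ⟨hy, mem_extChartAt_source _⟩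

theorem g3_trans_smooth {z z' : M} {y : E} (hy : y ∈ dom I z z') :
    ContDiffAt ℝ ∞ (trans I z z') y :=
  (trans_contDiffOn I z z').contDiffAt ((dom_open I z z').mem_nhds hy)

theorem g3_law (g : ContMDiffRiemannianMetric I ∞ E (fun x : M => TangentSpace I x))
    {z z' : M} {y : E} (hy : y ∈ dom I z z') :
    ∀ᶠ x in 𝓝 y, coeff g z' x = (LinearMap.toMatrix (finBasis ℝ E) (finBasis ℝ E)
        (fderiv ℝ (trans I z z') x : E →ₗ[ℝ] E)).transpose * coeff g z (trans I z z' x) *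
      LinearMap.toMatrix (finBasis ℝ E) (finBasis ℝ E)
        (fderiv ℝ (trans I z z') x : E →ₗ[ℝ] E) := by
  filter_upwards [(dom_open I z z').mem_nhds hy] with x hx
  exact chartMetric_law I (finBasis ℝ E) g hx

theorem scal_chart (g : ContMDiffRiemannianMetric I ∞ E (fun x : M => TangentSpace I x)) (z : M)
    {y : E} (hy : y ∈ (extChartAt I z).target) :
    Curv.scal (coeff g z) y = Scal g ((extChartAt I z).symm y) := by
  set p : M := (extChartAt I z).symm y with hp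
  have hd : y ∈ dom I p z := g3_mem_dom (I := I) hy
  have ht := trans_mem_target I hd
  have h1 := scal_pull (h := coeff g p) (h' := coeff g z) (τ := trans I p z) (y := y)
    (g3_trans_smooth hd) (det_trans_ne_zero I hd)
    (fun i j => g3_coeff_smooth g p ht i j)
    (Eventually.of_forall fun x i j => chartMetric_symm I (finBasis ℝ E) g p x i j)
    (g3_coeff_det g p ht) (g3_law g hd)
  rw [h1]
  unfold Scal Twist.trans
  rw [← hp]

theorem scal_cont (g : ContMDiffRiemannianMetric I ∞ E (fun x : M => TangentSpace I x)) :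
    Continuous (Scal g) := by
  rw [continuous_iff_continuousAt]
  intro p
  have ht : extChartAt I p p ∈ (extChartAt I p).target := mem_extChartAt_target p
  have h1 : ContinuousAt (fun x => Curv.scal (coeff g p) (extChartAt I p x)) p :=
    ContinuousAt.comp (g := Curv.scal (coeff g p))
      (g3_scal_smooth (g3_coeff_smooth g p ht) (g3_coeff_det g p ht)).continuousAt
      (continuousAt_extChartAt p)
  refine h1.congr ?_
  filter_upwards [extChartAt_source_mem_nhds (I := I) p] with x hx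
  rw [scal_chart g p ((extChartAt I p).map_source hx), (extChartAt I p).left_inv hx]

end

variable {E : Type*} [NormedAddCommGroup E] [NormedSpace ℝ E] [FiniteDimensional ℝ E]
  {M : Type*} [TopologicalSpace M] [ChartedSpace E M] [IsManifold 𝓘(ℝ, E) ∞ M]
  (g : ContMDiffRiemannianMetric 𝓘(ℝ, E) ∞ E (fun x : M => TangentSpace 𝓘(ℝ, E) x))

omit [FiniteDimensional ℝ E] in
theorem g3_rd_smooth {f : M → ℝ} (hf : Sm E f) (z : M) {y : E}
    (hy : y ∈ (extChartAt 𝓘(ℝ, E) z).target) : ContDiffAt ℝ ∞ (rd E z f) y := by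
  have h1 : ContMDiffOn 𝓘(ℝ, E) 𝓘(ℝ, ℝ) ∞ (f ∘ (extChartAt 𝓘(ℝ, E) z).symm)
      (extChartAt 𝓘(ℝ, E) z).target :=
    ContMDiff.comp_contMDiffOn hf (contMDiffOn_extChartAt_symm z)
  exact h1.contDiffOn.contDiffAt ((isOpen_extChartAt_target z).mem_nhds hy)

theorem g3_rd_trans (f : M → ℝ) {z z' : M} {y : E} (hy : y ∈ dom 𝓘(ℝ, E) z z') :
    rd E z' f =ᶠ[𝓝 y] rd E z f ∘ trans 𝓘(ℝ, E) z z' := by
  filter_upwards [(dom_open 𝓘(ℝ, E) z z').mem_nhds hy] with x hx
  unfold rd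
  rw [Function.comp_apply, symm_trans 𝓘(ℝ, E) hx]

theorem g3_pd_congr {F G : E → ℝ} {y : E} (h : F =ᶠ[𝓝 y] G) (i : Fin (finrank ℝ E)) :
    Curv.pd i F y = Curv.pd i G y := by
  unfold Curv.pd
  rw [h.fderiv_eq]

theorem g3_lapC_congr {h : Curv.Coeff E} {F G : E → ℝ} {y : E} (hFG : F =ᶠ[𝓝 y] G) :
    lapC h F y = lapC h G y := by
  have h1 : ∀ j, Curv.pd j F =ᶠ[𝓝 y] Curv.pd j G := by
    intro j
    filter_upwards [hFG.eventuallyEq_nhds] with x hx
    exact g3_pd_congr hx j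
  unfold lapC Curv.covHess
  simp only [g3_pd_congr hFG, g3_pd_congr (h1 _)]

theorem g3_gradC_congr {h : Curv.Coeff E} {F G F' G' : E → ℝ} {y : E} (hF : F =ᶠ[𝓝 y] F')
    (hG : G =ᶠ[𝓝 y] G') : gradC h F G y = gradC h F' G' y := by
  unfold gradC
  simp only [g3_pd_congr hF, g3_pd_congr hG]

theorem lap_chart {f : M → ℝ} (hf : Sm E f) (z : M) {y : E}
    (hy : y ∈ (extChartAt 𝓘(ℝ, E) z).target) :
    lapC (coeff g z) (rd E z f) y = Lap g f ((extChartAt 𝓘(ℝ, E) z).symm y) := by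
  have hd := g3_mem_dom (I := 𝓘(ℝ, E)) hy
  have ht := trans_mem_target 𝓘(ℝ, E) hd
  rw [g3_lapC_congr (g3_rd_trans f hd)]
  exact lapC_pull (g3_trans_smooth hd) (det_trans_ne_zero 𝓘(ℝ, E) hd)
    (fun i j => g3_coeff_smooth g _ ht i j)
    (Eventually.of_forall fun x i j => chartMetric_symm 𝓘(ℝ, E) (finBasis ℝ E) g _ x i j)
    (g3_coeff_det g _ ht) (g3_law g hd) (g3_rd_smooth hf _ ht)

theorem grd_chart {u v : M → ℝ} (hu : Sm E u) (hv : Sm E v) (z : M) {y : E}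
    (hy : y ∈ (extChartAt 𝓘(ℝ, E) z).target) :
    gradC (coeff g z) (rd E z u) (rd E z v) y = Grd g u v ((extChartAt 𝓘(ℝ, E) z).symm y) := by
  have hd := g3_mem_dom (I := 𝓘(ℝ, E)) hy
  have ht := trans_mem_target 𝓘(ℝ, E) hd
  rw [g3_gradC_congr (g3_rd_trans u hd) (g3_rd_trans v hd)]
  exact gradC_pull (g3_trans_smooth hd) (det_trans_ne_zero 𝓘(ℝ, E) hd)
    (g3_law g hd).self_of_nhds (g3_rd_smooth hu _ ht) (g3_rd_smooth hv _ ht)

section family

variable {E' : Type*} [NormedAddCommGroup E'] [NormedSpace ℝ E'] [FiniteDimensional ℝ E']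
    {P : Type*} [TopologicalSpace P] [ChartedSpace E' P] [IsManifold 𝓘(ℝ, E') ∞ P]
    {Φ : M × P → ℝ}

omit [FiniteDimensional ℝ E] [FiniteDimensional ℝ E'] in
/-- The family of functions, read in charts. -/
theorem g3_family_smooth (hΦ : ContMDiff (𝓘(ℝ, E).prod 𝓘(ℝ, E')) 𝓘(ℝ, ℝ) ∞ Φ) (z : M × P)
    {q : E × E'} (hq : q ∈ (extChartAt 𝓘(ℝ, E) z.1).target ×ˢ (extChartAt 𝓘(ℝ, E') z.2).target) :
    ContDiffAt ℝ ∞ (fun q : E × E' => Φ ((extChartAt 𝓘(ℝ, E) z.1).symm q.1,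
      (extChartAt 𝓘(ℝ, E') z.2).symm q.2)) q := by
  have h1 : ContMDiffOn 𝓘(ℝ, E × E') 𝓘(ℝ, E) ∞ (fun q : E × E' =>
      (extChartAt 𝓘(ℝ, E) z.1).symm q.1)
      ((extChartAt 𝓘(ℝ, E) z.1).target ×ˢ (extChartAt 𝓘(ℝ, E') z.2).target) := by
    have h2 : ContMDiffOn 𝓘(ℝ, E) 𝓘(ℝ, E) ∞ (extChartAt 𝓘(ℝ, E) z.1).symm
        (extChartAt 𝓘(ℝ, E) z.1).target := contMDiffOn_extChartAt_symm z.1
    have h3 : ContMDiff 𝓘(ℝ, E × E') 𝓘(ℝ, E) ∞ (fun q : E × E' => q.1) :=
      contDiff_fst.contMDiff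
    exact h2.comp h3.contMDiffOn (fun q hq => hq.1)
  have h1' : ContMDiffOn 𝓘(ℝ, E × E') 𝓘(ℝ, E') ∞ (fun q : E × E' =>
      (extChartAt 𝓘(ℝ, E') z.2).symm q.2)
      ((extChartAt 𝓘(ℝ, E) z.1).target ×ˢ (extChartAt 𝓘(ℝ, E') z.2).target) := by
    have h2 : ContMDiffOn 𝓘(ℝ, E') 𝓘(ℝ, E') ∞ (extChartAt 𝓘(ℝ, E') z.2).symm
        (extChartAt 𝓘(ℝ, E') z.2).target := contMDiffOn_extChartAt_symm z.2
    have h3 : ContMDiff 𝓘(ℝ, E × E') 𝓘(ℝ, E') ∞ (fun q : E × E' => q.2) :=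
      contDiff_snd.contMDiff
    exact h2.comp h3.contMDiffOn (fun q hq => hq.2)
  have h4 := hΦ.comp_contMDiffOn (h1.prodMk h1')
  exact h4.contDiffOn.contDiffAt
    (((isOpen_extChartAt_target z.1).prod (isOpen_extChartAt_target z.2)).mem_nhds hq)

omit [FiniteDimensional ℝ E] [FiniteDimensional ℝ E'] [IsManifold 𝓘(ℝ, E) ∞ M]
  [IsManifold 𝓘(ℝ, E') ∞ P] in
theorem g3_slice_smooth (hΦ : ContMDiff (𝓘(ℝ, E).prod 𝓘(ℝ, E')) 𝓘(ℝ, ℝ) ∞ Φ) (p : P) :
    Sm E (fun x => Φ (x, p)) := by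
  have h1 : ContMDiff 𝓘(ℝ, E) (𝓘(ℝ, E).prod 𝓘(ℝ, E')) ∞ (fun x : M => (x, p)) :=
    contMDiff_id.prodMk contMDiff_const
  exact hΦ.comp h1

/-- Joint continuity of a quantity which is smooth in charts. -/
theorem g3_cont_of_chart {Q : (M → ℝ) → M → ℝ} {C : M → (E → ℝ) → E → ℝ}
    (hΦ : ContMDiff (𝓘(ℝ, E).prod 𝓘(ℝ, E')) 𝓘(ℝ, ℝ) ∞ Φ)
    (hQ : ∀ (f : M → ℝ), Sm E f → ∀ (z : M) (y : E), y ∈ (extChartAt 𝓘(ℝ, E) z).target →
      C z (rd E z f) y = Q f ((extChartAt 𝓘(ℝ, E) z).symm y))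
    (hC : ∀ (z : M) (y : E) (w : E') (F : E' → E → ℝ), y ∈ (extChartAt 𝓘(ℝ, E) z).target →
      ContDiffAt ℝ ∞ (fun q : E × E' => F q.2 q.1) (y, w) →
      ContDiffAt ℝ ∞ (fun q : E × E' => C z (F q.2) q.1) (y, w)) :
    Continuous fun p : M × P => Q (fun x => Φ (x, p.2)) p.1 := by
  rw [continuous_iff_continuousAt]
  intro p
  set F : E' → E → ℝ := fun w y => Φ ((extChartAt 𝓘(ℝ, E) p.1).symm y,
      (extChartAt 𝓘(ℝ, E') p.2).symm w) with hF
  have ht₁ : extChartAt 𝓘(ℝ, E) p.1 p.1 ∈ (extChartAt 𝓘(ℝ, E) p.1).target :=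
    mem_extChartAt_target p.1
  have ht₂ : extChartAt 𝓘(ℝ, E') p.2 p.2 ∈ (extChartAt 𝓘(ℝ, E') p.2).target :=
    mem_extChartAt_target p.2
  have h0 := hC p.1 (extChartAt 𝓘(ℝ, E) p.1 p.1) (extChartAt 𝓘(ℝ, E') p.2 p.2) F ht₁
    (g3_family_smooth hΦ p ⟨ht₁, ht₂⟩)
  have h1 : ContinuousAt (fun q : M × P => C p.1 (F (extChartAt 𝓘(ℝ, E') p.2 q.2))
      (extChartAt 𝓘(ℝ, E) p.1 q.1)) p := by
    refine ContinuousAt.comp (g := fun q : E × E' => C p.1 (F q.2) q.1)
      (f := fun q : M × P => (extChartAt 𝓘(ℝ, E) p.1 q.1, extChartAt 𝓘(ℝ, E') p.2 q.2))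
      h0.continuousAt ?_
    exact ((continuousAt_extChartAt (I := 𝓘(ℝ, E)) p.1).comp continuousAt_fst).prodMk
      ((continuousAt_extChartAt (I := 𝓘(ℝ, E')) p.2).comp continuousAt_snd)
  refine h1.congr ?_
  have h2 : (extChartAt 𝓘(ℝ, E) p.1).source ×ˢ (extChartAt 𝓘(ℝ, E') p.2).source ∈ 𝓝 p :=
    prod_mem_nhds (extChartAt_source_mem_nhds (I := 𝓘(ℝ, E)) p.1)
      (extChartAt_source_mem_nhds (I := 𝓘(ℝ, E')) p.2)
  filter_upwards [h2] with q hq
  have h3 : F (extChartAt 𝓘(ℝ, E') p.2 q.2) = rd E p.1 (fun x => Φ (x, q.2)) := by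
    funext y
    simp only [hF, rd]
    rw [(extChartAt 𝓘(ℝ, E') p.2).left_inv hq.2]
  rw [h3, hQ _ (g3_slice_smooth hΦ q.2) p.1 _ ((extChartAt 𝓘(ℝ, E) p.1).map_source hq.1),
    (extChartAt 𝓘(ℝ, E) p.1).left_inv hq.1]

end family

/-- Joint continuity of the Laplacian for a family of functions. -/
theorem lap_cont₂ {E' : Type*} [NormedAddCommGroup E'] [NormedSpace ℝ E'] [FiniteDimensional ℝ E']
    {P : Type*} [TopologicalSpace P] [ChartedSpace E' P] [IsManifold 𝓘(ℝ, E') ∞ P]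
    {Φ : M × P → ℝ} (hΦ : ContMDiff (𝓘(ℝ, E).prod 𝓘(ℝ, E')) 𝓘(ℝ, ℝ) ∞ Φ) :
    Continuous fun p : M × P => Lap g (fun x => Φ (x, p.2)) p.1 := by
  refine g3_cont_of_chart (Q := Lap g) (C := fun z F y => lapC (coeff g z) F y) hΦ ?_ ?_
  · intro f hf z y hy
    exact lap_chart g hf z hy
  · intro z y w F hy hF
    exact g3_lapC_smooth (g3_coeff_smooth g z hy) (g3_coeff_det g z hy) hF

theorem grd_cont₂ {E' : Type*} [NormedAddCommGroup E'] [NormedSpace ℝ E'] [FiniteDimensional ℝ E']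
    {P : Type*} [TopologicalSpace P] [ChartedSpace E' P] [IsManifold 𝓘(ℝ, E') ∞ P]
    {Φ : M × P → ℝ} (hΦ : ContMDiff (𝓘(ℝ, E).prod 𝓘(ℝ, E')) 𝓘(ℝ, ℝ) ∞ Φ) :
    Continuous fun p : M × P => Grd g (fun x => Φ (x, p.2)) (fun x => Φ (x, p.2)) p.1 := by
  refine g3_cont_of_chart (Q := fun f => Grd g f f)
    (C := fun z F y => gradC (coeff g z) F F y) hΦ ?_ ?_
  · intro f hf z y hy
    exact grd_chart g hf hf z hy
  · intro z y w F hy hF
    exact g3_gradC_smooth (g3_coeff_smooth g z hy) (g3_coeff_det g z hy) hF hF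

theorem lap_cont {f : M → ℝ} (hf : Sm E f) : Continuous (Lap g f) := by
  have h1 : ContMDiff (𝓘(ℝ, E).prod 𝓘(ℝ, E)) 𝓘(ℝ, ℝ) ∞ (fun p : M × M => f p.1) :=
    ContMDiff.comp hf contMDiff_fst
  have h2 := lap_cont₂ g h1
  have h3 : Continuous fun x : M => (x, x) := continuous_id.prodMk continuous_id
  have h4 := h2.comp h3
  have h5 : ((fun p : M × M => Lap g (fun x => f x) p.1) ∘ fun x : M => (x, x)) = Lap g f := rfl
  rw [← h5]
  exact h4

theorem grd_cont {f : M → ℝ} (hf : Sm E f) : Continuous (Grd g f f) := by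
  have h1 : ContMDiff (𝓘(ℝ, E).prod 𝓘(ℝ, E)) 𝓘(ℝ, ℝ) ∞ (fun p : M × M => f p.1) :=
    ContMDiff.comp hf contMDiff_fst
  have h2 := grd_cont₂ g h1
  have h3 : Continuous fun x : M => (x, x) := continuous_id.prodMk continuous_id
  have h4 := h2.comp h3
  have h5 : ((fun p : M × M => Grd g (fun x => f x) (fun x => f x) p.1) ∘
      fun x : M => (x, x)) = Grd g f f := rfl
  rw [← h5]
  exact h4

end Pool.Agent.Lib.MP_df705a_gt.Perm
end
end

section

/-!
# TASK I2: scalar curvature, Laplacian and gradient product in a parametrization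
-/

open scoped Manifold ContDiff Topology
open Set Bundle Module Filter

noncomputable section

set_option linter.unusedSectionVars false

namespace Pool.Agent.Lib.MP_df705a_gt.Circ

open Pool.Agent.Lib.MP_df705a_gt.Twist Pool.Agent.Lib.MP_df705a_gt.Perm
open Pool.Agent.Lib.MP_df705a_gt.Sub (mB)

variable {E' : Type*} [NormedAddCommGroup E'] [NormedSpace ℝ E'] [FiniteDimensional ℝ E']
  {E : Type*} [NormedAddCommGroup E] [NormedSpace ℝ E] [FiniteDimensional ℝ E]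
  {M : Type*} [TopologicalSpace M] [ChartedSpace E M] [IsManifold 𝓘(ℝ, E) ∞ M]

namespace I2

/-- the parametrization read in the chart at `σ q` -/
def tau (E : Type*) [NormedAddCommGroup E] [NormedSpace ℝ E] {M : Type*} [TopologicalSpace M]
    [ChartedSpace E M] (σ : E' → M) (q : E') (y : E') : E := extChartAt 𝓘(ℝ, E) (σ q) (σ y)

theorem mB_coeff (g : ContMDiffRiemannianMetric 𝓘(ℝ, E) ∞ E
      (fun x : M => TangentSpace 𝓘(ℝ, E) x)) (z : M) (y u v : E) :
    mB (coeff g z y) u v = mform 𝓘(ℝ, E) g z y u v := by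
  conv_rhs => rw [← (finBasis ℝ E).sum_repr u, ← (finBasis ℝ E).sum_repr v, bilin_sum]
  unfold mB
  refine Finset.sum_congr rfl fun m _ => Finset.sum_congr rfl fun p _ => ?_
  have h2 : coeff g z y m p = mform 𝓘(ℝ, E) g z y (finBasis ℝ E m) (finBasis ℝ E p) := rfl
  rw [h2]
  exact mul_comm _ _

theorem tau_smooth {σ : E' → M} {q : E'} (hσ : Para E σ q) : ContDiffAt ℝ ∞ (tau E σ q) q := by
  have h1 : ContMDiffAt 𝓘(ℝ, E) 𝓘(ℝ, E) ∞ (extChartAt 𝓘(ℝ, E) (σ q)) (σ q) :=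
    contMDiffAt_extChartAt
  have h2 : ContMDiffAt 𝓘(ℝ, E') 𝓘(ℝ, E) ∞ (extChartAt 𝓘(ℝ, E) (σ q) ∘ σ) q :=
    ContMDiffAt.comp q h1 hσ.smooth
  exact h2.contDiffAt

theorem near {σ : E' → M} {q : E'} (hσ : Para E σ q) :
    ∀ᶠ x in 𝓝 q, σ x ∈ (extChartAt 𝓘(ℝ, E) (σ q)).source :=
  hσ.smooth.continuousAt.eventually (extChartAt_source_mem_nhds (I := 𝓘(ℝ, E)) (σ q))

theorem deriv_eq {σ : E' → M} {q : E'} (hσ : Para E σ q) :
    ∀ᶠ x in 𝓝 q, ∀ v : E', (mfderiv 𝓘(ℝ, E') 𝓘(ℝ, E) σ x : E' →L[ℝ] E) v =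
      (mfderiv 𝓘(ℝ, E) 𝓘(ℝ, E) (extChartAt 𝓘(ℝ, E) (σ q)).symm (tau E σ q x) : E →L[ℝ] E)
        (fderiv ℝ (tau E σ q) x v) := by
  filter_upwards [(near hσ).eventually_nhds, PJ.eventually_jets (tau_smooth hσ)] with x hx hx'
  intro v
  have h1 : σ =ᶠ[𝓝 x] (extChartAt 𝓘(ℝ, E) (σ q)).symm ∘ tau E σ q := by
    filter_upwards [hx] with y hy
    exact ((extChartAt 𝓘(ℝ, E) (σ q)).left_inv hy).symm
  have ht : tau E σ q x ∈ (extChartAt 𝓘(ℝ, E) (σ q)).target :=
    (extChartAt 𝓘(ℝ, E) (σ q)).map_source hx.self_of_nhds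
  have h2 : MDifferentiableAt 𝓘(ℝ, E') 𝓘(ℝ, E) (tau E σ q) x :=
    hx'.1.differentiableAt.mdifferentiableAt
  have h3 := mfderiv_comp (I := 𝓘(ℝ, E')) (I' := 𝓘(ℝ, E)) (I'' := 𝓘(ℝ, E)) x
    (symm_mdiff 𝓘(ℝ, E) (σ q) ht) h2
  have h4 : mfderiv 𝓘(ℝ, E') 𝓘(ℝ, E) (tau E σ q) x = fderiv ℝ (tau E σ q) x := mfderiv_eq_fderiv
  rw [h1.mfderiv_eq, h3, h4]
  rfl

theorem law (g : ContMDiffRiemannianMetric 𝓘(ℝ, E) ∞ E (fun x : M => TangentSpace 𝓘(ℝ, E) x))
    {σ : E' → M} {q : E'} (hσ : Para E σ q) :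
    ∀ᶠ x in 𝓝 q, ∀ i j, cf g σ x i j = mB (coeff g (σ q) (tau E σ q x))
      (fderiv ℝ (tau E σ q) x (finBasis ℝ E' i)) (fderiv ℝ (tau E σ q) x (finBasis ℝ E' j)) := by
  filter_upwards [near hσ, deriv_eq hσ] with x hx hx'
  intro i j
  rw [mB_coeff, mform_apply]
  have e3 : ∀ x' : M, x' = σ x → ∀ v' w' v w : E, v' = v → w' = w →
      g.inner x' v' w' = g.inner (σ x) v w := by
    rintro _ rfl _ _ _ _ rfl rfl
    rfl
  exact (e3 _ ((extChartAt 𝓘(ℝ, E) (σ q)).left_inv hx) _ _ _ _ (hx' _).symm (hx' _).symm).symm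

theorem pullAt (g : ContMDiffRiemannianMetric 𝓘(ℝ, E) ∞ E
      (fun x : M => TangentSpace 𝓘(ℝ, E) x)) {σ : E' → M} {q : E'} (hσ : Para E σ q) :
    PullAt (cf g σ) (coeff g (σ q)) (tau E σ q) q where
  smooth := tau_smooth hσ
  bij := by
    have ht : tau E σ q q ∈ (extChartAt 𝓘(ℝ, E) (σ q)).target := mem_extChartAt_target (σ q)
    have key : ∀ (D : E' →L[ℝ] E) (S : E →L[ℝ] E) (T : E' →L[ℝ] E), (∀ v, D v = S (T v)) →
        Function.Injective S → Function.Bijective D → Function.Bijective T := by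
      intro D S T h1 h2 hb
      refine ⟨fun v w hvw => hb.1 ?_, fun w => ?_⟩
      · rw [h1, h1, hvw]
      · obtain ⟨v, hv⟩ := hb.2 (S w)
        refine ⟨v, h2 ?_⟩
        rw [h1] at hv
        exact hv
    exact key _ _ _ (deriv_eq hσ).self_of_nhds (symm_injective 𝓘(ℝ, E) (σ q) ht) hσ.bij
  c_smooth := fun i j => g3_coeff_smooth g (σ q) (mem_extChartAt_target (σ q)) i j
  c_symm := Eventually.of_forall fun x i j =>
    chartMetric_symm 𝓘(ℝ, E) (finBasis ℝ E) g (σ q) x i j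
  c_det := g3_coeff_det g (σ q) (mem_extChartAt_target (σ q))
  law := law g hσ

theorem read {σ : E' → M} {q : E'} (hσ : Para E σ q) (u : M → ℝ) :
    u ∘ σ =ᶠ[𝓝 q] rd E (σ q) u ∘ tau E σ q := by
  filter_upwards [near hσ] with x hx
  change u (σ x) = u ((extChartAt 𝓘(ℝ, E) (σ q)).symm (extChartAt 𝓘(ℝ, E) (σ q) (σ x)))
  rw [(extChartAt 𝓘(ℝ, E) (σ q)).left_inv hx]

end I2

theorem cf_smooth (g : ContMDiffRiemannianMetric 𝓘(ℝ, E) ∞ E (fun x : M => TangentSpace 𝓘(ℝ, E) x))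
    {σ : E' → M} {q : E'} (hσ : Para E σ q) (i j) :
    ContDiffAt ℝ ∞ (fun y => cf g σ y i j) q := by
  have P := I2.pullAt g hσ
  have h1 : (fun y => cf g σ y i j) =ᶠ[𝓝 q] fun y => mB (coeff g (σ q) (I2.tau E σ q y))
      (fderiv ℝ (I2.tau E σ q) y (finBasis ℝ E' i)) (fderiv ℝ (I2.tau E σ q) y (finBasis ℝ E' j)) := by
    filter_upwards [P.law] with x hx
    exact hx i j
  refine ContDiffAt.congr_of_eventuallyEq ?_ h1
  have hd : ContDiffAt ℝ ∞ (fderiv ℝ (I2.tau E σ q)) q :=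
    P.smooth.fderiv_right (m := ∞) (by simp)
  have hr : ∀ (k : Fin (finrank ℝ E)) (w : E'),
      ContDiffAt ℝ ∞ (fun y => (finBasis ℝ E).repr (fderiv ℝ (I2.tau E σ q) y w) k) q := by
    intro k w
    have h2 : ContDiffAt ℝ ∞ (fun y => fderiv ℝ (I2.tau E σ q) y w) q :=
      hd.clm_apply contDiffAt_const
    exact ((LinearMap.toContinuousLinearMap ((finBasis ℝ E).coord k)).contDiff.contDiffAt).comp
      q h2
  unfold mB
  refine ContDiffAt.sum fun k _ => ContDiffAt.sum fun l _ => ?_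
  exact ((P.c_smooth k l).comp q P.smooth).mul ((hr k _).mul (hr l _))

theorem scal_cf (g : ContMDiffRiemannianMetric 𝓘(ℝ, E) ∞ E (fun x : M => TangentSpace 𝓘(ℝ, E) x))
    {σ : E' → M} {q : E'} (hσ : Para E σ q) : Curv.scal (cf g σ) q = Scal g (σ q) :=
  (I2.pullAt g hσ).scal

theorem grd_cf (g : ContMDiffRiemannianMetric 𝓘(ℝ, E) ∞ E (fun x : M => TangentSpace 𝓘(ℝ, E) x))
    {σ : E' → M} {q : E'} (hσ : Para E σ q) {u v : M → ℝ} (hu : Sm E u) (hv : Sm E v) :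
    gradC (cf g σ) (u ∘ σ) (v ∘ σ) q = Grd g u v (σ q) := by
  rw [g3_gradC_congr (I2.read hσ u) (I2.read hσ v)]
  exact (I2.pullAt g hσ).grad (g3_rd_smooth hu _ (mem_extChartAt_target (σ q)))
    (g3_rd_smooth hv _ (mem_extChartAt_target (σ q)))

theorem lap_cf (g : ContMDiffRiemannianMetric 𝓘(ℝ, E) ∞ E (fun x : M => TangentSpace 𝓘(ℝ, E) x))
    {σ : E' → M} {q : E'} (hσ : Para E σ q) {u : M → ℝ} (hu : Sm E u) :
    lapC (cf g σ) (u ∘ σ) q = Lap g u (σ q) := by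
  rw [g3_lapC_congr (I2.read hσ u)]
  exact (I2.pullAt g hσ).lap (g3_rd_smooth hu _ (mem_extChartAt_target (σ q)))

end Pool.Agent.Lib.MP_df705a_gt.Circ
end
end

section

/-!
# Module T, A1: change of basis for traces and scalar products of matrices
-/

open scoped Manifold ContDiff Topology
open Set Bundle Module Filter MeasureTheory

noncomputable section

set_option linter.unusedSectionVars false

namespace Pool.Agent.Lib.MP_df705a_gt.Coll.T

open Pool.Agent.Lib.MP_df705a_gt.Twist Pool.Agent.Lib.MP_df705a_gt.Perm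
open Pool.Agent.Lib.MP_df705a_gt.Circ (cf Para)

private theorem A1_trM_eq {n : ℕ} (H S : Matrix (Fin n) (Fin n) ℝ) :
    trM H S = (H⁻¹ * S.transpose).trace := by
  simp only [trM, Matrix.trace, Matrix.diag_apply, Matrix.mul_apply, Matrix.transpose_apply]

private theorem A1_ipM_eq {n : ℕ} (H S T : Matrix (Fin n) (Fin n) ℝ) :
    ipM H S T = (H⁻¹ * (T * ((H⁻¹).transpose * S.transpose))).trace := by
  simp only [ipM, Matrix.trace, Matrix.diag_apply, Matrix.mul_apply, Matrix.transpose_apply,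
    Finset.mul_sum]
  refine Finset.sum_congr rfl fun i _ => ?_
  rw [Finset.sum_comm]
  refine Finset.sum_congr rfl fun a _ => ?_
  rw [Finset.sum_comm]
  refine Finset.sum_congr rfl fun b _ => Finset.sum_congr rfl fun j _ => ?_
  ring

/-- `trM H S = trace (H⁻¹ * Sᵀ)`; `(Aᵀ * H * A)⁻¹ = A⁻¹ * H⁻¹ * (Aᵀ)⁻¹` (`Matrix.mul_inv_rev`) and
`trace (X * Y) = trace (Y * X)`. -/
theorem trM_conj {n : ℕ} {A : Matrix (Fin n) (Fin n) ℝ} (hA : A.det ≠ 0)
    (H S : Matrix (Fin n) (Fin n) ℝ) :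
    trM (A.transpose * H * A) (A.transpose * S * A) = trM H S := by
  have hu : IsUnit A.det := isUnit_iff_ne_zero.2 hA
  have hut : IsUnit A.transpose.det := by rw [Matrix.det_transpose]; exact hu
  have h1 : A * A⁻¹ = 1 := Matrix.mul_nonsing_inv A hu
  have h2 : (A.transpose)⁻¹ * A.transpose = 1 := Matrix.nonsing_inv_mul _ hut
  rw [A1_trM_eq, A1_trM_eq, Matrix.mul_inv_rev, Matrix.mul_inv_rev, Matrix.transpose_mul,
    Matrix.transpose_mul, Matrix.transpose_transpose]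
  have h3 : A⁻¹ * (H⁻¹ * (A.transpose)⁻¹) * (A.transpose * (S.transpose * A)) =
      A⁻¹ * (H⁻¹ * S.transpose * A) := by
    calc A⁻¹ * (H⁻¹ * (A.transpose)⁻¹) * (A.transpose * (S.transpose * A)) =
        A⁻¹ * (H⁻¹ * ((A.transpose)⁻¹ * A.transpose) * S.transpose * A) := by
          simp only [Matrix.mul_assoc]
      _ = A⁻¹ * (H⁻¹ * S.transpose * A) := by rw [h2, Matrix.mul_one]
  rw [h3, Matrix.trace_mul_comm, Matrix.mul_assoc, h1, Matrix.mul_one]

/-- `ipM H S T = trace (Sᵀ * H⁻¹ * T * (H⁻¹)ᵀ)`. -/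
theorem ipM_conj {n : ℕ} {A : Matrix (Fin n) (Fin n) ℝ} (hA : A.det ≠ 0)
    (H S S' : Matrix (Fin n) (Fin n) ℝ) :
    ipM (A.transpose * H * A) (A.transpose * S * A) (A.transpose * S' * A) = ipM H S S' := by
  have hu : IsUnit A.det := isUnit_iff_ne_zero.2 hA
  have hut : IsUnit A.transpose.det := by rw [Matrix.det_transpose]; exact hu
  have h1 : A * A⁻¹ = 1 := Matrix.mul_nonsing_inv A hu
  have h2 : (A.transpose)⁻¹ * A.transpose = 1 := Matrix.nonsing_inv_mul _ hut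
  have h4 : (A⁻¹).transpose * A.transpose = 1 := by
    rw [← Matrix.transpose_mul, h1, Matrix.transpose_one]
  have h5 : ((A.transpose)⁻¹).transpose = A⁻¹ := by
    rw [Matrix.transpose_nonsing_inv, Matrix.transpose_transpose]
  rw [A1_ipM_eq, A1_ipM_eq, Matrix.mul_inv_rev, Matrix.mul_inv_rev]
  simp only [Matrix.transpose_mul, Matrix.transpose_transpose, h5]
  have h3 : A⁻¹ * (H⁻¹ * (A.transpose)⁻¹) * (A.transpose * S' * A *
      (A⁻¹ * (H⁻¹).transpose * (A⁻¹).transpose * (A.transpose * (S.transpose * A)))) =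
      A⁻¹ * (H⁻¹ * (S' * ((H⁻¹).transpose * S.transpose)) * A) := by
    calc A⁻¹ * (H⁻¹ * (A.transpose)⁻¹) * (A.transpose * S' * A *
        (A⁻¹ * (H⁻¹).transpose * (A⁻¹).transpose * (A.transpose * (S.transpose * A)))) =
        A⁻¹ * (H⁻¹ * (((A.transpose)⁻¹ * A.transpose) * (S' * ((A * A⁻¹) * ((H⁻¹).transpose *
          (((A⁻¹).transpose * A.transpose) * S.transpose)))))) * A := by
          simp only [Matrix.mul_assoc]
      _ = A⁻¹ * (H⁻¹ * (S' * ((H⁻¹).transpose * S.transpose)) * A) := by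
          rw [h1, h2, h4, Matrix.one_mul, Matrix.one_mul, Matrix.one_mul, Matrix.mul_assoc]
  rw [h3, Matrix.trace_mul_comm, Matrix.mul_assoc, h1, Matrix.mul_one]

end Pool.Agent.Lib.MP_df705a_gt.Coll.T
end
end

section

/-!
# Module T, L1: pullback of a metric
-/

open scoped Manifold ContDiff Topology
open Set Bundle Module Filter MeasureTheory

noncomputable section

set_option linter.unusedSectionVars false

namespace Pool.Agent.Lib.MP_df705a_gt.Coll.T

open Pool.Agent.Lib.MP_df705a_gt.Twist Pool.Agent.Lib.MP_df705a_gt.Perm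
open Pool.Agent.Lib.MP_df705a_gt.Circ (cf Para)

variable {E : Type*} [NormedAddCommGroup E] [NormedSpace ℝ E] [FiniteDimensional ℝ E]
  {h : Curv.Coeff E} {τ : E → E} {y : E}

theorem det_mat (L : E →L[ℝ] E) : (mat L).det = L.det :=
  LinearMap.det_toMatrix (finBasis ℝ E) (L : E →ₗ[ℝ] E)

private theorem L1_law (h : Curv.Coeff E) (τ : E → E) (y : E) :
    ∀ᶠ x in 𝓝 y, pull h τ x = (LinearMap.toMatrix (finBasis ℝ E) (finBasis ℝ E)
        (fderiv ℝ τ x : E →ₗ[ℝ] E)).transpose * h (τ x) *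
      LinearMap.toMatrix (finBasis ℝ E) (finBasis ℝ E) (fderiv ℝ τ x : E →ₗ[ℝ] E) :=
  Eventually.of_forall fun _ => rfl

private theorem L1_det (hτ : ContDiff ℝ ∞ τ) (hd : (fderiv ℝ τ y).det ≠ 0) :
    ∀ᶠ z in 𝓝 y, (fderiv ℝ τ z).det ≠ 0 := by
  have h1 : Continuous fun z => (fderiv ℝ τ z).det :=
    ContinuousLinearMap.continuous_det.comp (hτ.continuous_fderiv (by simp))
  exact h1.continuousAt.eventually_ne hd

private theorem L1_ev (hτ : ContDiff ℝ ∞ τ) {P : E → Prop} (H : ∀ᶠ x in 𝓝 (τ y), P x) :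
    ∀ᶠ z in 𝓝 y, P (τ z) :=
  hτ.continuous.continuousAt.eventually H

private theorem L1_symm {x : E} (H : RM h x) : ∀ᶠ z in 𝓝 x, ∀ i j, h z i j = h z j i :=
  H.nhds.mono fun _ hz i j => hz.symm i j

/-- Smoothness: `PJ.coeff_contDiffAt` (Perm/PullJets.lean); positivity: `det_mat`. -/
theorem pull_rm (hτ : ContDiff ℝ ∞ τ) (hd : (fderiv ℝ τ y).det ≠ 0) (H : RM h (τ y)) :
    RM (pull h τ) y := by
  filter_upwards [L1_ev hτ H, L1_det hτ hd] with z hz hdz
  refine ⟨fun i j => PJ.coeff_contDiffAt hτ.contDiffAt hz.1 (L1_law h τ z) i j, ?_⟩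
  have h1 : pull h τ z = (mat (fderiv ℝ τ z)).conjTranspose * h (τ z) * mat (fderiv ℝ τ z) := by
    rw [Matrix.conjTranspose_eq_transpose_of_trivial]
    rfl
  rw [h1]
  refine hz.2.conjTranspose_mul_mul_same ?_
  rw [← det_mat] at hdz
  exact Matrix.mulVec_injective_of_isUnit ((Matrix.isUnit_iff_isUnit_det _).2 hdz.isUnit)

theorem pull_smF (hτ : ContDiff ℝ ∞ τ) {u : E → ℝ} (hu : SmF u (τ y)) : SmF (u ∘ τ) y :=
  (L1_ev hτ hu).mono fun z hz => hz.comp z hτ.contDiffAt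

/-- `lapC_pull` (Perm/Pull.lean) near `y`. -/
theorem pull_lap (hτ : ContDiff ℝ ∞ τ) (hd : (fderiv ℝ τ y).det ≠ 0) (H : RM h (τ y))
    {u : E → ℝ} (hu : SmF u (τ y)) :
    lapC (pull h τ) (u ∘ τ) =ᶠ[𝓝 y] lapC h u ∘ τ := by
  filter_upwards [L1_ev hτ H.nhds, L1_det hτ hd, L1_ev hτ hu] with z hz hdz huz
  exact lapC_pull hτ.contDiffAt hdz hz.self.1 (L1_symm hz) hz.det (L1_law h τ z) huz

/-- `gradC_pull` (Perm/Pull.lean) near `y`. -/
theorem pull_grad (hτ : ContDiff ℝ ∞ τ) (hd : (fderiv ℝ τ y).det ≠ 0) (H : RM h (τ y))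
    {u v : E → ℝ} (hu : SmF u (τ y)) (hv : SmF v (τ y)) :
    gradC (pull h τ) (u ∘ τ) (v ∘ τ) =ᶠ[𝓝 y] gradC h u v ∘ τ := by
  filter_upwards [L1_det hτ hd, L1_ev hτ hu, L1_ev hτ hv] with z hdz huz hvz
  exact gradC_pull hτ.contDiffAt hdz (L1_law h τ z).self_of_nhds huz hvz

/-- `scal_pull` (Perm/ScalPull.lean). -/
theorem pull_scal (hτ : ContDiff ℝ ∞ τ) (hd : (fderiv ℝ τ y).det ≠ 0) (H : RM h (τ y)) :
    Curv.scal (pull h τ) y = Curv.scal h (τ y) :=
  scal_pull hτ.contDiffAt hd H.self.1 (L1_symm H) H.det (L1_law h τ y)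

/-- `contDiffAt_inv`, `g3_pd_smooth`, `g3_christoffel_smooth` (Perm/Chart.lean). -/
theorem smF_lap {x : E} (H : RM h x) {u : E → ℝ} (hu : SmF u x) : SmF (lapC h u) x := by
  filter_upwards [H, hu] with z hz huz
  have hnd : (h z).det ≠ 0 := hz.2.det_pos.ne'
  refine ContDiffAt.sum fun i _ => ContDiffAt.sum fun j _ => ?_
  refine (contDiffAt_inv hz.1 hnd i j).mul ?_
  refine (g3_pd_smooth (g3_pd_smooth huz j) i).sub ?_
  refine ContDiffAt.sum fun p _ => ContDiffAt.sum fun q _ => ?_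
  exact ((contDiffAt_inv hz.1 hnd p q).mul (g3_christoffel_smooth hz.1 i j p)).mul
    (g3_pd_smooth huz q)

theorem smF_grad {x : E} (H : RM h x) {u v : E → ℝ} (hu : SmF u x) (hv : SmF v x) :
    SmF (gradC h u v) x := by
  filter_upwards [H, hu, hv] with z hz huz hvz
  have hnd : (h z).det ≠ 0 := hz.2.det_pos.ne'
  refine ContDiffAt.sum fun i _ => ContDiffAt.sum fun j _ => ?_
  exact (contDiffAt_inv hz.1 hnd i j).mul ((g3_pd_smooth huz i).mul (g3_pd_smooth hvz j))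

end Pool.Agent.Lib.MP_df705a_gt.Coll.T
end
end

section

/-!
# Module T, P1: rules for partial derivatives
-/

open scoped Manifold ContDiff Topology
open Set Bundle Module Filter MeasureTheory

noncomputable section

set_option linter.unusedSectionVars false

namespace Pool.Agent.Lib.MP_df705a_gt.Coll.T

open Pool.Agent.Lib.MP_df705a_gt.Twist Pool.Agent.Lib.MP_df705a_gt.Perm
open Pool.Agent.Lib.MP_df705a_gt.Circ (cf Para)

variable {E : Type*} [NormedAddCommGroup E] [NormedSpace ℝ E] [FiniteDimensional ℝ E]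
  {u v : E → ℝ} {x : E}

private theorem P1_pd_comm2 (hu : ContDiffAt ℝ 2 u x) (i j : Fin (finrank ℝ E)) :
    Curv.pd i (Curv.pd j u) x = Curv.pd j (Curv.pd i u) x := by
  have hd : DifferentiableAt ℝ (fderiv ℝ u) x :=
    (hu.fderiv_right (m := 1) (by norm_num)).differentiableAt (by norm_num)
  have h1 : ∀ a b : E, fderiv ℝ (fun y => fderiv ℝ u y b) x a =
      fderiv ℝ (fderiv ℝ u) x a b := by
    intro a b
    rw [fderiv_clm_apply hd (differentiableAt_const b)]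
    simp
  have h2 := hu.isSymmSndFDerivAt (by simp) (finBasis ℝ E i) (finBasis ℝ E j)
  unfold Curv.pd
  rw [h1, h1, h2]

/-- See `Alg.pd_pd`, `Alg.fderiv_fderiv_symm` (Twist/Jets.lean). -/
theorem pd_comm (hu : ContDiffAt ℝ ∞ u x) (i j : Fin (finrank ℝ E)) :
    Curv.pd i (Curv.pd j u) x = Curv.pd j (Curv.pd i u) x :=
  P1_pd_comm2 (hu.of_le (by norm_cast)) i j

/-- `pd_comm` near `x` (a function which is `C^∞` at `x` is `C^3` near `x`). -/
theorem pd3_comm (hu : ContDiffAt ℝ ∞ u x) (i j k : Fin (finrank ℝ E)) :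
    Curv.pd i (Curv.pd j (Curv.pd k u)) x = Curv.pd i (Curv.pd k (Curv.pd j u)) x := by
  refine G4.pd_congr ?_ i
  have h2 : ContDiffAt ℝ 2 u x := hu.of_le (by norm_cast)
  filter_upwards [h2.eventually (by simp)] with z hz
  exact P1_pd_comm2 hz j k

theorem pd_sum {ι : Type*} (s : Finset ι) {F : ι → E → ℝ}
    (hF : ∀ a ∈ s, DifferentiableAt ℝ (F a) x) (i : Fin (finrank ℝ E)) :
    Curv.pd i (fun z => ∑ a ∈ s, F a z) x = ∑ a ∈ s, Curv.pd i (F a) x := by
  unfold Curv.pd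
  rw [fderiv_fun_sum hF, ContinuousLinearMap.sum_apply]

theorem pd2_sum {ι : Type*} (s : Finset ι) {F : ι → E → ℝ}
    (hF : ∀ a ∈ s, ContDiffAt ℝ ∞ (F a) x) (i j : Fin (finrank ℝ E)) :
    Curv.pd i (Curv.pd j (fun z => ∑ a ∈ s, F a z)) x =
      ∑ a ∈ s, Curv.pd i (Curv.pd j (F a)) x := by
  have h1 : Curv.pd j (fun z => ∑ a ∈ s, F a z) =ᶠ[𝓝 x] fun z => ∑ a ∈ s, Curv.pd j (F a) z := by
    have h2 : ∀ᶠ z in 𝓝 x, ∀ a ∈ s, DifferentiableAt ℝ (F a) z := by
      rw [Filter.eventually_all_finset]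
      intro a ha
      exact G4.ev_diff (hF a ha)
    filter_upwards [h2] with z hz
    exact pd_sum s hz j
  rw [G4.pd_congr h1, pd_sum s fun a ha => G4.diff_of (G4.pd_contDiffAt (hF a ha) j)]

theorem pd2_mul (hu : ContDiffAt ℝ ∞ u x) (hv : ContDiffAt ℝ ∞ v x) (i j : Fin (finrank ℝ E)) :
    Curv.pd i (Curv.pd j (fun z => u z * v z)) x =
      u x * Curv.pd i (Curv.pd j v) x + v x * Curv.pd i (Curv.pd j u) x +
      Curv.pd i u x * Curv.pd j v x + Curv.pd j u x * Curv.pd i v x := by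
  have h1 : Curv.pd j (fun z => u z * v z) =ᶠ[𝓝 x]
      fun z => u z * Curv.pd j v z + v z * Curv.pd j u z := by
    filter_upwards [G4.ev_diff hu, G4.ev_diff hv] with z h1 h2
    exact G4.pd_mul h1 h2 j
  have hju := G4.diff_of (G4.pd_contDiffAt hu j)
  have hjv := G4.diff_of (G4.pd_contDiffAt hv j)
  have hu' := G4.diff_of hu
  have hv' := G4.diff_of hv
  have h2 := G4.pd_add (u := fun z => u z * Curv.pd j v z) (v := fun z => v z * Curv.pd j u z)
    (hu'.mul hjv) (hv'.mul hju) i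
  rw [G4.pd_congr h1, h2, G4.pd_mul hu' hjv, G4.pd_mul hv' hju]
  ring

end Pool.Agent.Lib.MP_df705a_gt.Coll.T
end
end

section

/-!
# Module T, N2: the jets of the inverse metric in normal coordinates
-/

open scoped Manifold ContDiff Topology
open Set Bundle Module Filter MeasureTheory

noncomputable section

set_option linter.unusedSectionVars false

namespace Pool.Agent.Lib.MP_df705a_gt.Coll.T

open Pool.Agent.Lib.MP_df705a_gt.Twist Pool.Agent.Lib.MP_df705a_gt.Perm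
open Pool.Agent.Lib.MP_df705a_gt.Circ (cf Para)

variable {E : Type*} [NormedAddCommGroup E] [NormedSpace ℝ E] [FiniteDimensional ℝ E]
  {h : Curv.Coeff E} {x : E}


private theorem N2_cd (N : Nrm h x) (i j : Fin (finrank ℝ E)) :
    ContDiffAt ℝ ∞ (fun y => h y i j) x := N.rm.self.1 i j

private theorem N2_one_le : (1 : WithTop ℕ∞) ≤ ∞ :=
  (WithTop.coe_le_coe.2 (le_top : (1 : ℕ∞) ≤ ⊤) :
    ((1 : ℕ∞) : WithTop ℕ∞) ≤ ((⊤ : ℕ∞) : WithTop ℕ∞))

theorem Nrm.inv (N : Nrm h x) : (h x)⁻¹ = 1 := by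
  rw [N.one, inv_one]

theorem Nrm.pd_h (N : Nrm h x) (k i j : Fin (finrank ℝ E)) :
    Curv.pd k (fun y => h y i j) x = 0 := by
  unfold Curv.pd
  rw [N.flat i j]
  rfl

/-- `fderiv_inv` (Twist/MatCalc.lean). -/
theorem Nrm.pd_inv (N : Nrm h x) (k i j : Fin (finrank ℝ E)) :
    Curv.pd k (fun y => (h y)⁻¹ i j) x = 0 := by
  unfold Curv.pd
  rw [fderiv_inv (fun i j => (N2_cd N i j).of_le N2_one_le) N.rm.det]
  simp only [N.flat, zero_apply, mul_zero, Finset.sum_const_zero, neg_zero]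

/-- Differentiate `fderiv_inv` (valid near `x`) once more. -/
theorem Nrm.pd2_inv (N : Nrm h x) (k l i j : Fin (finrank ℝ E)) :
    Curv.pd k (Curv.pd l (fun y => (h y)⁻¹ i j)) x =
      -Curv.pd k (Curv.pd l (fun y => h y i j)) x := by
  have hev : Curv.pd l (fun y => (h y)⁻¹ i j) =ᶠ[𝓝 x] fun y =>
      ∑ a, ∑ b, (-1) * ((h y)⁻¹ i a * ((h y)⁻¹ b j * Curv.pd l (fun z => h z a b) y)) := by
    filter_upwards [N.rm] with y hy
    have hdet : (h y).det ≠ 0 := hy.2.det_pos.ne'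
    have e1 := fderiv_inv (fun i j => (hy.1 i j).of_le N2_one_le) hdet i j (finBasis ℝ E l)
    unfold Curv.pd
    rw [e1, ← Finset.sum_neg_distrib]
    refine Finset.sum_congr rfl fun a _ => ?_
    rw [← Finset.sum_neg_distrib]
    refine Finset.sum_congr rfl fun b _ => ?_
    ring
  have hinv : ∀ a b, ContDiffAt ℝ ∞ (fun y => (h y)⁻¹ a b) x := fun a b =>
    contDiffAt_inv (N2_cd N) N.rm.det a b
  have hpd : ∀ a b, ContDiffAt ℝ ∞ (Curv.pd l (fun z => h z a b)) x := fun a b =>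
    G4.pd_contDiffAt (N2_cd N a b) l
  have hd1 : ∀ a b, DifferentiableAt ℝ (fun y => (h y)⁻¹ a b) x := fun a b =>
    G4.diff_of (hinv a b)
  have hd2 : ∀ a b, DifferentiableAt ℝ (Curv.pd l (fun z => h z a b)) x := fun a b =>
    G4.diff_of (hpd a b)
  have hterm : ∀ a b, Curv.pd k (fun y => (-1) * ((h y)⁻¹ i a * ((h y)⁻¹ b j *
      Curv.pd l (fun z => h z a b) y))) x =
      -((h x)⁻¹ i a * ((h x)⁻¹ b j * Curv.pd k (Curv.pd l (fun z => h z a b)) x)) := by
    intro a b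
    have e1 : DifferentiableAt ℝ (fun y => (h y)⁻¹ b j * Curv.pd l (fun z => h z a b) y) x :=
      (hd1 b j).fun_mul (hd2 a b)
    have e3 : DifferentiableAt ℝ (fun y => (h y)⁻¹ i a * ((h y)⁻¹ b j *
      Curv.pd l (fun z => h z a b) y)) x := (hd1 i a).fun_mul e1
    rw [G4.pd_smul e3, G4.pd_mul (hd1 i a) e1, G4.pd_mul (hd1 b j) (hd2 a b),
      N.pd_inv, N.pd_inv, N.pd_h]
    ring
  have hdt : ∀ a b, DifferentiableAt ℝ (fun y => (-1) * ((h y)⁻¹ i a * ((h y)⁻¹ b j *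
      Curv.pd l (fun z => h z a b) y))) x := fun a b =>
    (DifferentiableAt.fun_mul (hd1 i a)
      (DifferentiableAt.fun_mul (hd1 b j) (hd2 a b))).const_mul (-1)
  have hds : ∀ a, DifferentiableAt ℝ (fun y => ∑ b, (-1) * ((h y)⁻¹ i a * ((h y)⁻¹ b j *
      Curv.pd l (fun z => h z a b) y))) x := fun a =>
    DifferentiableAt.fun_sum fun b _ => hdt a b
  rw [G4.pd_congr hev, pd_sum _ (fun a _ => hds a)]
  have e2 : ∀ a, Curv.pd k (fun y => ∑ b, (-1) * ((h y)⁻¹ i a * ((h y)⁻¹ b j *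
      Curv.pd l (fun z => h z a b) y))) x =
      ∑ b, -((h x)⁻¹ i a * ((h x)⁻¹ b j * Curv.pd k (Curv.pd l (fun z => h z a b)) x)) := by
    intro a
    rw [pd_sum _ (fun b _ => hdt a b)]
    exact Finset.sum_congr rfl fun b _ => hterm a b
  simp only [e2, N.inv, Matrix.one_apply]
  simp

end Pool.Agent.Lib.MP_df705a_gt.Coll.T
end
end

section

/-!
# TASK G1: the integral of `⟨dw, du⟩ + w Δu` over a closed manifold vanishes
-/

open scoped Manifold ContDiff Topology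
open Set Bundle Module Filter

noncomputable section

set_option linter.unusedSectionVars false

namespace Pool.Agent.Lib.MP_df705a_gt.Circ

open Pool.Agent.Lib.MP_df705a_gt.Twist Pool.Agent.Lib.MP_df705a_gt.Perm

variable {E : Type*} [NormedAddCommGroup E] [NormedSpace ℝ E] [FiniteDimensional ℝ E]
  {M : Type*} [TopologicalSpace M] [ChartedSpace E M] [IsManifold 𝓘(ℝ, E) ∞ M]

namespace TaskG1

/-- The product rule for the divergence. -/
theorem dv_smul_field {f : E → ℝ} {Z : E → E} {x : E} (hf : DifferentiableAt ℝ f x)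
    (hZ : DifferentiableAt ℝ Z x) :
    dv (fun y => f y • Z y) x = f x * dv Z x + fderiv ℝ f x (Z x) := by
  have h0 : DifferentiableAt ℝ (fun y => f y • Z y) x := hf.smul hZ
  rw [dv_eq_sum h0, dv_eq_sum hZ]
  have h1 : ∀ i, fderiv ℝ (fun y => cd i (f y • Z y)) x (finBasis ℝ E i) =
      f x * fderiv ℝ (fun y => cd i (Z y)) x (finBasis ℝ E i) +
        cd i (Z x) * fderiv ℝ f x (finBasis ℝ E i) := by
    intro i
    have h2 : (fun y => cd i (f y • Z y)) = fun y => f y * cd i (Z y) := by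
      funext y
      rw [map_smul, smul_eq_mul]
    have h3 : DifferentiableAt ℝ (fun y => cd i (Z y)) x := (cd i).differentiableAt.comp x hZ
    rw [h2, fderiv_fun_mul hf h3]
    simp only [add_apply, smul_apply, smul_eq_mul]
  rw [Finset.sum_congr rfl fun i _ => h1 i, Finset.sum_add_distrib, ← Finset.mul_sum]
  congr 1
  conv_rhs => rw [← (finBasis ℝ E).sum_repr (Z x), map_sum]
  apply Finset.sum_congr rfl
  intro i _
  rw [map_smul, smul_eq_mul, cd_apply]

/-- The divergence of a finite sum. -/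
theorem dv_sum_field {ι : Type*} [Fintype ι] {Z : ι → E → E} {x : E}
    (hZ : ∀ i, DifferentiableAt ℝ (Z i) x) :
    dv (fun y => ∑ i, Z i y) x = ∑ i, dv (Z i) x := by
  unfold dv
  rw [fderiv_fun_sum fun i _ => hZ i]
  rw [ContinuousLinearMap.toLinearMap_sum, map_sum]

/-- The divergence of the opposite field. -/
theorem dv_neg_field {Z : E → E} {x : E} : dv (fun y => -Z y) x = -dv Z x := by
  unfold dv
  rw [fderiv_fun_neg, ContinuousLinearMap.toLinearMap_neg, map_neg]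

theorem apply_gradM (h : Curv.Coeff E) (u v : E → ℝ) (x : E) :
    fderiv ℝ u x (gradM (finBasis ℝ E) (h x) (fderiv ℝ v x)) = gradC h u v x := by
  unfold gradM gradC Curv.pd
  rw [map_sum]
  apply Finset.sum_congr rfl
  intro i _
  rw [map_smul, smul_eq_mul, Finset.sum_mul]
  apply Finset.sum_congr rfl
  intro j _
  ring

/-- The vector density `√det w grad u` in the chart at `z`. -/
def fld (g : ContMDiffRiemannianMetric 𝓘(ℝ, E) ∞ E (fun x : M => TangentSpace 𝓘(ℝ, E) x))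
    (w u : M → ℝ) (z : M) (y : E) : E :=
  rd E z w y • ((1 * (Real.exp 0 * √ (coeff g z y).det)) •
    gradM (finBasis ℝ E) (coeff g z y) (fderiv ℝ (rd E z u) y))

variable (g : ContMDiffRiemannianMetric 𝓘(ℝ, E) ∞ E (fun x : M => TangentSpace 𝓘(ℝ, E) x))

theorem base_smooth {u : M → ℝ} (hu : Sm E u) (z : M) {y : E}
    (hy : y ∈ (extChartAt 𝓘(ℝ, E) z).target) :
    ContDiffAt ℝ 1 (fun y => (1 * (Real.exp 0 * √ (coeff g z y).det)) •
      gradM (finBasis ℝ E) (coeff g z y) (fderiv ℝ (rd E z u) y)) y := by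
  have hh1 : ∀ i j, ContDiffAt ℝ 1 (fun x => coeff g z x i j) y := fun i j =>
    (g3_coeff_smooth g z hy i j).of_le (by norm_num)
  have hdet := g3_coeff_det g z hy
  have hu1 : ContDiffAt ℝ 1 (fderiv ℝ (rd E z u)) y :=
    ((g3_rd_smooth hu z hy).fderiv_right (m := ∞) (by simp)).of_le (by norm_num)
  refine ContDiffAt.smul ?_ (gradM_contDiffAt _ hh1 hdet hu1)
  exact contDiffAt_const.mul (contDiffAt_const.mul ((contDiffAt_det hh1).sqrt hdet))

theorem fld_smooth {w u : M → ℝ} (hw : Sm E w) (hu : Sm E u) (z : M) {y : E}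
    (hy : y ∈ (extChartAt 𝓘(ℝ, E) z).target) : ContDiffAt ℝ 1 (fld g w u z) y :=
  ((g3_rd_smooth hw z hy).of_le (by norm_num)).smul (base_smooth g hu z hy)

theorem fld_dv {w u : M → ℝ} (hw : Sm E w) (hu : Sm E u) (z : M) {y : E}
    (hy : y ∈ (extChartAt 𝓘(ℝ, E) z).target) :
    dv (fld g w u z) y = √ (coeff g z y).det *
      (Grd g w u ((extChartAt 𝓘(ℝ, E) z).symm y) +
        w ((extChartAt 𝓘(ℝ, E) z).symm y) * Lap g u ((extChartAt 𝓘(ℝ, E) z).symm y)) := by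
  have hp : ∀ᶠ x in 𝓝 y, (coeff g z x).PosDef := by
    filter_upwards [(isOpen_extChartAt_target z).mem_nhds hy] with x hx
    exact chartMetric_posDef 𝓘(ℝ, E) (finBasis ℝ E) g z hx
  have hbase := (base_smooth g hu z hy).differentiableAt one_ne_zero
  have hwd : DifferentiableAt ℝ (rd E z w) y :=
    (g3_rd_smooth hw z hy).differentiableAt (by norm_num)
  have h1 := dv_slice (h := coeff g z) (ψ := fun _ => (0 : ℝ)) (u := rd E z u) (x := y)
    (g3_coeff_smooth g z hy) hp contDiffAt_const (g3_rd_smooth hu z hy) 1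
  have h2 : gradC (coeff g z) (fun _ => (0 : ℝ)) (rd E z u) y = 0 := by
    unfold gradC Curv.pd
    simp
  unfold fld
  rw [dv_smul_field hwd hbase, h1, h2, map_smul, smul_eq_mul, apply_gradM, lap_chart g hu z hy,
    grd_chart g hw hu z hy, Real.exp_zero]
  unfold rd
  ring

theorem fld_law {w u : M → ℝ} (hu : Sm E u) {z z' : M} {y : E}
    (hy : y ∈ dom 𝓘(ℝ, E) z z') :
    |(fderiv ℝ (trans 𝓘(ℝ, E) z z') y).det| • fld g w u z (trans 𝓘(ℝ, E) z z' y) =
      fderiv ℝ (trans 𝓘(ℝ, E) z z') y (fld g w u z' y) := by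
  have hD : (fderiv ℝ (trans 𝓘(ℝ, E) z z') y).det ≠ 0 := det_trans_ne_zero 𝓘(ℝ, E) hy
  have ht := trans_mem_target 𝓘(ℝ, E) hy
  have hlaw := (g3_law g hy).self_of_nhds
  have hw' : rd E z' w y = rd E z w (trans 𝓘(ℝ, E) z z' y) :=
    (g3_rd_trans w hy).self_of_nhds
  have hdu : fderiv ℝ (rd E z' u) y =
      (fderiv ℝ (rd E z u) (trans 𝓘(ℝ, E) z z' y)).comp (fderiv ℝ (trans 𝓘(ℝ, E) z z') y) := by
    rw [(g3_rd_trans u hy).fderiv_eq]
    exact (((g3_rd_smooth hu z ht).differentiableAt (by norm_num)).hasFDerivAt.comp y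
      (trans_differentiableAt 𝓘(ℝ, E) hy).hasFDerivAt).fderiv
  unfold fld
  rw [map_smul, map_smul, hdu, gradM_law (finBasis ℝ E) hD hlaw, hw',
    det_law (finBasis ℝ E) hlaw, smul_smul, smul_smul, smul_smul]
  congr 1
  ring

end TaskG1

open TaskG1 in
/-- A sum of divergences `div (w_i grad u_i)` is not everywhere positive. -/
theorem exists_nonpos_sum [CompactSpace M] [T2Space M] [Nonempty M]
    (g : ContMDiffRiemannianMetric 𝓘(ℝ, E) ∞ E (fun x : M => TangentSpace 𝓘(ℝ, E) x))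
    {ι : Type*} [Fintype ι] (w u : ι → M → ℝ) (hw : ∀ i, Sm E (w i)) (hu : ∀ i, Sm E (u i)) :
    ∃ x, ∑ i, (Grd g (w i) (u i) x + w i x * Lap g (u i) x) ≤ 0 := by
  by_contra hcon
  push Not at hcon
  refine no_neg_div 𝓘(ℝ, E) (M := M) (Z := fun z y => -∑ i, fld g (w i) (u i) z y) ?_ ?_ ?_
  · intro z y hy
    refine ContDiffAt.contDiffWithinAt ?_
    exact (ContDiffAt.sum fun i _ => fld_smooth g (hw i) (hu i) z hy).neg
  · intro z z' y hy
    simp only [smul_neg, map_neg, Finset.smul_sum, map_sum]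
    congr 1
    exact Finset.sum_congr rfl fun i _ => fld_law g (hu i) hy
  · intro z y hy
    rw [dv_neg_field, dv_sum_field fun i =>
      (fld_smooth g (hw i) (hu i) z hy).differentiableAt one_ne_zero]
    simp only [fun i => fld_dv g (hw i) (hu i) z hy]
    rw [← Finset.mul_sum, neg_neg_iff_pos]
    exact mul_pos (Real.sqrt_pos.2
      (chartMetric_posDef 𝓘(ℝ, E) (finBasis ℝ E) g z hy).det_pos) (hcon _)

end Pool.Agent.Lib.MP_df705a_gt.Circ
end
end

section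

/-!
# Ricci pinching, part A, AR8a: Laplacian comparison, a family of functions
-/

open scoped Manifold ContDiff Topology
open Set Bundle Module Filter MeasureTheory

noncomputable section

set_option linter.unusedSectionVars false

namespace Pool.Agent.Lib.MP_df705a_gt.Pin.A

open Pool.Agent.Lib.MP_df705a_gt.Twist Pool.Agent.Lib.MP_df705a_gt.Perm
open Pool.Agent.Lib.MP_df705a_gt.Coll (trM ipM)
open Pool.Agent.Lib.MP_df705a_gt.Coll.T (ddC mat pull RM SmF)

variable {E : Type*} [NormedAddCommGroup E] [NormedSpace ℝ E] [FiniteDimensional ℝ E]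
  {h : Curv.Coeff E}

/-- The Laplacian of a family of functions is continuous in the parameter.
Proof: `lapC` is a combination, with coefficients which are continuous functions of `x` (the inverse
matrix of `h` and the Christoffel symbols), of the first and second derivatives in the direction of
`E` of the function `Φ`, which are `fderiv Φ q' (0, ·)` and `fderiv (fderiv Φ) q' (0, ·) (0, ·)`
(`slice2_fderiv`, `slice2_fderiv2` of Twist/Rules.lean; `Curv.pd` of `Curv.pd`: `pd_pd_two` of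
Circ/DForm.lean), continuous near `q`. -/
theorem continuousAt_lapC_param (hm : Curv.IsMetric h) {Φ : ℝ × E → ℝ} {q : ℝ × E}
    (hΦ : ContDiffAt ℝ ∞ Φ q) :
    ContinuousAt (fun q' : ℝ × E => lapC h (fun x => Φ (q'.1, x)) q'.2) q := by
  have h1 : ContDiffAt ℝ ∞ (fun q' : E × ℝ => (fun (s : ℝ) (x : E) => Φ (s, x)) q'.2 q'.1)
      (q.2, q.1) :=
    ContDiffAt.comp (g := Φ) (f := fun q' : E × ℝ => (q'.2, q'.1)) (q.2, q.1) hΦ
      (contDiffAt_snd.prodMk contDiffAt_fst)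
  have h2 := g3_lapC_smooth (h := h) (y := q.2) (w := q.1)
    (F := fun (s : ℝ) (x : E) => Φ (s, x)) (fun i j => (hm.1 i j).contDiffAt)
    (hm.2 q.2).det_pos.ne' h1
  exact ContinuousAt.comp (f := fun q' : ℝ × E => (q'.2, q'.1))
    (g := fun q' : E × ℝ => lapC h (fun x : E => Φ (q'.2, x)) q'.1) (x := q) h2.continuousAt
    (continuous_snd.prodMk continuous_fst).continuousAt

end Pool.Agent.Lib.MP_df705a_gt.Pin.A
end
end
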