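import Pool.Agent.Lib.MP_df705a_gt.Mg.G059
import Pool.Agent.Lib.MP_df705a_gt.Mg.G060
import Pool.Agent.Lib.MP_df705a_gt.Coll.Defs
import Pool.Agent.Lib.MP_df705a_gt.Mg.G061
import Pool.Agent.Lib.MP_df705a_gt.Mg.G004
import Pool.Agent.Lib.MP_df705a_gt.Perm.Defs
import Pool.Agent.Lib.MP_df705a_gt.Fib.Defs
import Pool.Agent.Lib.MP_df705a_gt.Mg.G054
import Pool.Agent.Lib.MP_df705a_gt.Mg.G009

section

/-!
# Ricci pinching, part A, AZ6a: pairs of points, bad pairs
-/

open scoped Manifold ContDiff Topology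
open Set Bundle Module Filter MeasureTheory

noncomputable section

set_option linter.unusedSectionVars false

namespace Pool.Agent.Lib.MP_df705a_gt.Pin.A

open Pool.Agent.Lib.MP_df705a_gt.Twist Pool.Agent.Lib.MP_df705a_gt.Perm
open Pool.Agent.Lib.MP_df705a_gt.Coll (trM ipM)
open Pool.Agent.Lib.MP_df705a_gt.Coll.T (ddC mat pull RM SmF)

variable {E : Type*} [NormedAddCommGroup E] [NormedSpace ℝ E] [FiniteDimensional ℝ E]
  {h : Curv.Coeff E}

variable {Ex : E → E → E} [MeasurableSpace E] [BorelSpace E]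

namespace AZ6aAux

theorem form_eq (A : Curv.Coeff E) (x u w : E) :
    bf A x u w = (fun i => (finBasis ℝ E).repr u i) ⬝ᵥ ((A x).mulVec fun j => (finBasis ℝ E).repr w j) := by
  rw [bf_apply]
  unfold Curv.ip
  simp only [dotProduct, Matrix.mulVec, Finset.mul_sum]
  refine Finset.sum_congr rfl fun i _ => Finset.sum_congr rfl fun j _ => ?_
  ring

theorem form_nonneg {A : Curv.Coeff E} {x : E} (hA : (A x).PosSemidef) (u : E) : 0 ≤ bf A x u u := by
  rw [form_eq]
  exact hA.dotProduct_mulVec_nonneg _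

theorem form_symm {A : Curv.Coeff E} {x : E} (hA : (A x).PosSemidef) (u w : E) : bf A x u w = bf A x w u := by
  rw [bf_apply, bf_apply]
  unfold Curv.ip
  rw [Finset.sum_comm]
  refine Finset.sum_congr rfl fun i _ => Finset.sum_congr rfl fun j _ => ?_
  have : A x j i = A x i j := by
    have := hA.isHermitian.apply i j
    simpa using this
  rw [this]
  ring

theorem form_cs {A : Curv.Coeff E} {x : E} (hA : (A x).PosSemidef) (u z : E) (hz : 0 < bf A x z z) :
    bf A x z u ^ 2 / bf A x z z ≤ bf A x u u := by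
  have h1 := form_nonneg hA (u - (bf A x z u / bf A x z z) • z)
  simp only [map_sub, map_smul, ContinuousLinearMap.sub_apply, ContinuousLinearMap.smul_apply, smul_eq_mul] at h1
  rw [form_symm hA u z] at h1
  have h2 : bf A x u u - bf A x z u / bf A x z z * bf A x z u -
      bf A x z u / bf A x z z * (bf A x z u - bf A x z u / bf A x z z * bf A x z z) =
      bf A x u u - bf A x z u ^ 2 / bf A x z z := by
    field_simp
    ring
  have h3 := h1
  linarith

theorem form_add (h : Curv.Coeff E) (κ : ℝ) (x u w : E) :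
    bf (fun y => ric h y + κ • h y) x u w = bf (fun y => ric h y) x u w + κ * bf h x u w := by
  rw [bf_apply, bf_apply, bf_apply]
  unfold Curv.ip
  simp only [Matrix.add_apply, Matrix.smul_apply, smul_eq_mul, Finset.mul_sum, ← Finset.sum_add_distrib]
  refine Finset.sum_congr rfl fun i _ => Finset.sum_congr rfl fun j _ => ?_
  ring

theorem form_sub (h : Curv.Coeff E) (L : ℝ) (x u w : E) :
    bf (fun y => L • h y - ric h y) x u w = L * bf h x u w - bf (fun y => ric h y) x u w := by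
  rw [bf_apply, bf_apply, bf_apply]
  unfold Curv.ip
  simp only [Matrix.sub_apply, Matrix.smul_apply, smul_eq_mul, Finset.mul_sum, ← Finset.sum_sub_distrib]
  refine Finset.sum_congr rfl fun i _ => Finset.sum_congr rfl fun j _ => ?_
  ring

theorem rc_eq (h : Curv.Coeff E) (x u : E) : rc h x u = bf (fun y => ric h y) x u u := by
  rw [bf_apply]
  rfl

end AZ6aAux

/-- A point where `Ric ≤ L` fails, while `Ric ≥ - κ`: there is a unit vector `ξ` such that
`Ric + κ ≥ L ⟨·, ξ⟩²`.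
Proof: let `A u w = ∑ ric_{ij} u_i w_j + κ ⟨u, w⟩`, positive semidefinite (hence symmetric) by `hκ`;
by `hL` there is `ζ` with `A ζ ζ ≥ ∑ ric ζ ζ > L ⟨ζ, ζ⟩` (`κ ≥ 0`), in particular `ζ ≠ 0` and
`A ζ ζ > 0`. By the inequality of Cauchy and Schwarz `(A u ζ) ^ 2 ≤ A u u · A ζ ζ`. Let `w` be the
vector with `⟨u, w⟩ = A u ζ / √ (A ζ ζ)` for all `u` (`bf_equiv`): `⟨ζ, w⟩ = √ (A ζ ζ) ≥
√ L nm h x ζ`, so `nm h x w ≥ √ L` (`abs_bf_le`) and `w ≠ 0`. Put `ξ = w / nm h x w`:
`A u u ≥ ⟨u, w⟩ ^ 2 = (nm h x w) ^ 2 ⟨u, ξ⟩ ^ 2 ≥ L ⟨u, ξ⟩ ^ 2`. -/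
theorem exists_direction (hm : Curv.IsMetric h) {x : E} {κ L : ℝ} (hκ0 : 0 ≤ κ) (hL0 : 0 < L)
    (hκ : RicGeAt h κ x) (hL : ¬ RicLeAt h L x) :
    ∃ ξ : E, nm h x ξ = 1 ∧ ∀ u, L * bf h x u ξ ^ 2 ≤ rc h x u + κ * bf h x u u := by
  obtain ⟨A, hA⟩ : ∃ A : Curv.Coeff E, A = fun y => ric h y + κ • h y := ⟨_, rfl⟩
  have hAx : (A x).PosSemidef := by rw [hA]; exact hκ
  have hAbf : ∀ u w, bf A x u w = bf (fun y => ric h y) x u w + κ * bf h x u w := by
    intro u w; rw [hA]; exact AZ6aAux.form_add h κ x u w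
  -- the direction ζ
  have hherm : (L • h x - ric h x).IsHermitian := by
    have h1 : (h x).IsHermitian := (hm.2 x).isHermitian
    have h2 : (ric h x + κ • h x).IsHermitian := hκ.isHermitian
    have h3 : L • h x - ric h x = (L + κ) • h x - (ric h x + κ • h x) := by
      rw [add_smul]; abel
    rw [h3]
    refine Matrix.IsHermitian.sub ?_ h2
    rw [Matrix.IsHermitian, Matrix.conjTranspose_smul, h1.eq]
    simp
  obtain ⟨ζ, hζ⟩ : ∃ ζ : E, bf (fun y => L • h y - ric h y) x ζ ζ < 0 := by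
    by_contra hcon
    push Not at hcon
    apply hL
    refine Matrix.posSemidef_iff_dotProduct_mulVec.mpr ⟨hherm, fun z => ?_⟩
    have h1 := hcon ((finBasis ℝ E).equivFun.symm z)
    rw [AZ6aAux.form_eq] at h1
    have h2 : (fun i => (finBasis ℝ E).repr ((finBasis ℝ E).equivFun.symm z) i) = z := by
      funext i
      rw [← Basis.equivFun_apply, LinearEquiv.apply_symm_apply]
    rw [h2] at h1
    simpa using h1
  rw [AZ6aAux.form_sub] at hζ
  have hζ0 : ζ ≠ 0 := by
    rintro rfl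
    simp at hζ
  have hnζ : 0 < nm h x ζ := nm_pos hm x hζ0
  have hbζ : nm h x ζ ^ 2 = bf h x ζ ζ := nm_sq hm x ζ
  have ha : L * nm h x ζ ^ 2 < bf A x ζ ζ := by
    rw [hAbf, hbζ]
    have := bf_nonneg hm x ζ
    nlinarith [mul_nonneg hκ0 this]
  have ha0 : 0 < bf A x ζ ζ := lt_of_le_of_lt (by positivity) ha
  have hsq : √ (bf A x ζ ζ) ^ 2 = bf A x ζ ζ := Real.sq_sqrt ha0.le
  have hs0 : 0 < √ (bf A x ζ ζ) := Real.sqrt_pos.mpr ha0
  obtain ⟨e, he⟩ := bf_equiv hm x
  obtain ⟨w, hw⟩ : ∃ w : E, w = e.symm ((√ (bf A x ζ ζ))⁻¹ • bf A x ζ) := ⟨_, rfl⟩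
  have hwu : ∀ u, bf h x u w = (√ (bf A x ζ ζ))⁻¹ * bf A x ζ u := by
    intro u
    rw [bf_symm hm x u w, ← he]
    change (e w) u = _
    rw [hw, e.apply_symm_apply]
    rfl
  have h1 : bf h x ζ w = √ (bf A x ζ ζ) := by
    rw [hwu]
    field_simp
    exact hsq.symm
  have hnw : √ (bf A x ζ ζ) ≤ nm h x ζ * nm h x w := by
    rw [← h1]
    exact (le_abs_self _).trans (abs_bf_le hm x ζ w)
  have hnw0 : 0 ≤ nm h x w := nm_nonneg h x w
  have hLw : L ≤ nm h x w ^ 2 := by
    have h2 : √ (bf A x ζ ζ) ^ 2 ≤ (nm h x ζ * nm h x w) ^ 2 :=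
      pow_le_pow_left₀ hs0.le hnw 2
    rw [hsq, mul_pow] at h2
    have h3 : L * nm h x ζ ^ 2 ≤ nm h x w ^ 2 * nm h x ζ ^ 2 := by linarith
    exact le_of_mul_le_mul_right h3 (by positivity)
  have hwpos : 0 < nm h x w := by
    rcases hnw0.lt_or_eq with h2 | h2
    · exact h2
    · rw [← h2] at hLw
      norm_num at hLw
      linarith
  refine ⟨(nm h x w)⁻¹ • w, ?_, fun u => ?_⟩
  · rw [nm_smul, abs_of_pos (inv_pos.mpr hwpos), inv_mul_cancel₀ hwpos.ne']
  · rw [map_smul, smul_eq_mul, hwu, AZ6aAux.rc_eq, ← hAbf]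
    have h2 := AZ6aAux.form_cs hAx u ζ ha0
    have h3 : ((nm h x w)⁻¹ * ((√ (bf A x ζ ζ))⁻¹ * bf A x ζ u)) ^ 2 =
        (nm h x w ^ 2)⁻¹ * (bf A x ζ u ^ 2 / bf A x ζ ζ) := by
      rw [mul_pow, mul_pow, inv_pow, inv_pow, hsq]
      field_simp
    rw [h3, ← mul_assoc]
    have h4 : L * (nm h x w ^ 2)⁻¹ ≤ 1 := by
      rw [← div_eq_mul_inv, div_le_one (by positivity)]
      exact hLw
    have h5 : 0 ≤ bf A x ζ u ^ 2 / bf A x ζ ζ := by positivity
    calc L * (nm h x w ^ 2)⁻¹ * (bf A x ζ u ^ 2 / bf A x ζ ζ) ≤ 1 * (bf A x ζ u ^ 2 / bf A x ζ ζ) :=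
          mul_le_mul_of_nonneg_right h4 h5
      _ ≤ bf A x u u := by rw [one_mul]; exact h2

end Pool.Agent.Lib.MP_df705a_gt.Pin.A
end
end

section

/-!
# R: the determinant of the metric in a parametrization
-/

open scoped Manifold ContDiff Topology
open Set Bundle Module Filter MeasureTheory

noncomputable section

namespace Pool.Agent.Lib.MP_df705a_gt.Coll

open Pool.Agent.Lib.MP_df705a_gt.Twist Pool.Agent.Lib.MP_df705a_gt.Perm
open Pool.Agent.Lib.MP_df705a_gt.Circ (cf Para)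

variable {E : Type*} [NormedAddCommGroup E] [NormedSpace ℝ E] [FiniteDimensional ℝ E]
  {M : Type*} [TopologicalSpace M] [ChartedSpace E M] [IsManifold 𝓘(ℝ, E) ∞ M]

/-- The inverse of a chart is a parametrization.
Proof: `contMDiffOn_extChartAt_symm` and `isOpen_extChartAt_target` for the smoothness; for the
bijectivity `isInvertible_mfderivWithin_extChartAt_symm` with `ModelWithCorners.range_eq_univ`,
`mfderivWithin_univ`, as in Circ/SubChart.lean (there `h2 : Function.Bijective ...`). -/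
theorem para_symm (z : M) {y : E} (hy : y ∈ (extChartAt 𝓘(ℝ, E) z).target) :
    Para E (M := M) (extChartAt 𝓘(ℝ, E) z).symm y where
  smooth := (contMDiffOn_extChartAt_symm z).contMDiffAt ((isOpen_extChartAt_target z).mem_nhds hy)
  bij := by
    have h1 := isInvertible_mfderivWithin_extChartAt_symm (I := 𝓘(ℝ, E)) (x := z) hy
    rw [ModelWithCorners.range_eq_univ, mfderivWithin_univ] at h1
    exact h1.bijective

/-- The metric in the parametrization given by a chart (true by definition). -/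
theorem cf_symm (g : Met E M) (z : M) : cf g (extChartAt 𝓘(ℝ, E) z).symm = coeff g z := rfl

variable {E' : Type*} [NormedAddCommGroup E'] [NormedSpace ℝ E'] [FiniteDimensional ℝ E']

/-- The dimension of the parameter space of a parametrization.
Proof: the differential is a bijective linear map `E' → E`. -/
theorem finrank_para {σ : E' → M} {q : E'} (hσ : Para E σ q) : finrank ℝ E' = finrank ℝ E := by
  have key : ∀ D : E' →L[ℝ] E, Function.Bijective D → finrank ℝ E' = finrank ℝ E := fun D hD =>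
    (LinearEquiv.ofBijective (D : E' →ₗ[ℝ] E) hD).finrank_eq
  exact key _ hσ.bij

/-- A parametrization read in a chart is smooth.
Proof: composition of `hσ.smooth` with `contMDiffAt_extChartAt'` (see `I2.tau_smooth` in
Circ/ParaInv.lean), then `ContMDiffAt.contDiffAt` (`contMDiffAt_iff_contDiffAt`). -/
theorem para_smooth {σ : E' → M} {q : E'} (hσ : Para E σ q) {z : M}
    (hz : σ q ∈ (extChartAt 𝓘(ℝ, E) z).source) :
    ContDiffAt ℝ ∞ (fun x => extChartAt 𝓘(ℝ, E) z (σ x)) q := by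
  have h1 : ContMDiffAt 𝓘(ℝ, E) 𝓘(ℝ, E) ∞ (extChartAt 𝓘(ℝ, E) z) (σ q) :=
    contMDiffAt_extChartAt' (by rwa [extChartAt_source] at hz)
  have h2 : ContMDiffAt 𝓘(ℝ, E') 𝓘(ℝ, E) ∞ (extChartAt 𝓘(ℝ, E) z ∘ σ) q :=
    ContMDiffAt.comp q h1 hσ.smooth
  exact h2.contDiffAt

namespace CfDetAux

/-- The parametrization read in the chart at `z`. -/
def ta (E : Type*) [NormedAddCommGroup E] [NormedSpace ℝ E] {M : Type*} [TopologicalSpace M]
    [ChartedSpace E M] (σ : E' → M) (z : M) (y : E') : E := extChartAt 𝓘(ℝ, E) z (σ y)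

theorem deriv_eq {σ : E' → M} {q : E'} (hσ : Para E σ q) {z : M}
    (hz : σ q ∈ (extChartAt 𝓘(ℝ, E) z).source) (v : E') :
    (mfderiv 𝓘(ℝ, E') 𝓘(ℝ, E) σ q : E' →L[ℝ] E) v =
      (mfderiv 𝓘(ℝ, E) 𝓘(ℝ, E) (extChartAt 𝓘(ℝ, E) z).symm (ta E σ z q) : E →L[ℝ] E)
        (fderiv ℝ (ta E σ z) q v) := by
  have h0 : ∀ᶠ x in 𝓝 q, σ x ∈ (extChartAt 𝓘(ℝ, E) z).source :=
    hσ.smooth.continuousAt.eventually (extChartAt_source_mem_nhds' (I := 𝓘(ℝ, E)) hz)
  have h1 : σ =ᶠ[𝓝 q] (extChartAt 𝓘(ℝ, E) z).symm ∘ ta E σ z := by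
    filter_upwards [h0] with y hy
    exact ((extChartAt 𝓘(ℝ, E) z).left_inv hy).symm
  have ht : ta E σ z q ∈ (extChartAt 𝓘(ℝ, E) z).target :=
    (extChartAt 𝓘(ℝ, E) z).map_source hz
  have hsm : ContDiffAt ℝ ∞ (ta E σ z) q := para_smooth hσ hz
  have h2 : MDifferentiableAt 𝓘(ℝ, E') 𝓘(ℝ, E) (ta E σ z) q :=
    (hsm.differentiableAt (by simp)).mdifferentiableAt
  have h3 := mfderiv_comp (I := 𝓘(ℝ, E')) (I' := 𝓘(ℝ, E)) (I'' := 𝓘(ℝ, E)) q
    (symm_mdiff 𝓘(ℝ, E) z ht) h2
  have h4 : mfderiv 𝓘(ℝ, E') 𝓘(ℝ, E) (ta E σ z) q = fderiv ℝ (ta E σ z) q := mfderiv_eq_fderiv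
  rw [h1.mfderiv_eq, h3, h4]
  rfl

end CfDetAux

/-- The law for the determinant. Here `A` is the linear isomorphism of `exists_iso` and `D` is the
differential at `A q` of the parametrization `σ ∘ A⁻¹`, read in the chart at `z`.
Proof: near `q`, `σ x = (extChartAt z).symm (τ x)` with `τ x = extChartAt z (σ x)` (as in
`I2.deriv_eq` of Circ/ParaInv.lean, with the chart at `z` instead of the chart at `σ q`), so
`mfderiv σ q v = mfderiv (extChartAt z).symm (τ q) (fderiv τ q v)`, and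
`fderiv τ q v = D (A v)` by the chain rule. Hence, with `y = τ q` and `B = mform 𝓘(ℝ, E) g z y`,
`cf g σ q i j = B (D (A (b' i))) (D (A (b' j))) = B (D (b (cast i))) (D (b (cast j)))` where
`b' = finBasis ℝ E'`, `b = finBasis ℝ E`, so `cf g σ q` is, up to the reindexing `finCongr h`, the
matrix `Tᵀ * coeff g z y * T` with `T = LinearMap.toMatrix b b D` (`map_basis` and `bilin_sum` in
Twist/Law.lean, compare the proof of `chartMetric_law`). Determinants: `Matrix.det_reindex_self` (or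
`Matrix.det_submatrix_equiv_self`), `Matrix.det_mul`, `Matrix.det_transpose`,
`LinearMap.det_toMatrix`, as in `coeff_det_law` (Twist/FinalT.lean). -/
theorem cf_det_law (g : Met E M) {σ : E' → M} {q : E'} (hσ : Para E σ q) {z : M}
    (hz : σ q ∈ (extChartAt 𝓘(ℝ, E) z).source) (h : finrank ℝ E' = finrank ℝ E) {A : E' ≃L[ℝ] E}
    (hA : ∀ i, A (finBasis ℝ E' i) = finBasis ℝ E (Fin.cast h i)) :
    (cf g σ q).det = (fderiv ℝ (fun x => extChartAt 𝓘(ℝ, E) z (σ (A.symm x))) (A q)).det ^ 2 *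
      (coeff g z (extChartAt 𝓘(ℝ, E) z (σ q))).det := by
  set b := finBasis ℝ E with hb
  set y : E := extChartAt 𝓘(ℝ, E) z (σ q) with hy
  set D : E →L[ℝ] E := fderiv ℝ (fun x => extChartAt 𝓘(ℝ, E) z (σ (A.symm x))) (A q) with hD
  have hDv : ∀ v : E', fderiv ℝ (CfDetAux.ta E σ z) q v = D (A v) := by
    intro v
    have h1 : DifferentiableAt ℝ (CfDetAux.ta E σ z) (A.symm (A q)) := by
      rw [A.symm_apply_apply]
      exact (para_smooth hσ hz).differentiableAt (by simp)
    have h2 : D = (fderiv ℝ (CfDetAux.ta E σ z) (A.symm (A q))).comp (A.symm : E →L[ℝ] E') := by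
      rw [hD]
      have h3 := h1.hasFDerivAt.comp (A q) A.symm.hasFDerivAt
      exact h3.fderiv
    rw [h2, A.symm_apply_apply]
    simp
  have hc : ∀ i j, cf g σ q i j = mform 𝓘(ℝ, E) g z y (D (b (Fin.cast h i)))
      (D (b (Fin.cast h j))) := by
    intro i j
    rw [mform_apply]
    have e3 : ∀ x' : M, x' = σ q → ∀ v' w' v w : E, v' = v → w' = w →
        g.inner x' v' w' = g.inner (σ q) v w := by
      rintro _ rfl _ _ _ _ rfl rfl
      rfl
    refine (e3 _ ((extChartAt 𝓘(ℝ, E) z).left_inv hz) _ _ _ _ ?_ ?_).symm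
    · rw [CfDetAux.deriv_eq hσ hz, hDv, hA]
      rfl
    · rw [CfDetAux.deriv_eq hσ hz, hDv, hA]
      rfl
  have hm : cf g σ q = Matrix.reindex (finCongr h).symm (finCongr h).symm
      ((LinearMap.toMatrix b b (D : E →ₗ[ℝ] E)).transpose * coeff g z y *
        LinearMap.toMatrix b b (D : E →ₗ[ℝ] E)) := by
    ext i j
    rw [hc, Matrix.reindex_apply, Matrix.submatrix_apply, map_basis b D _, map_basis b D _,
      bilin_sum, Matrix.mul_apply]
    simp only [Matrix.mul_apply, Finset.sum_mul, Matrix.transpose_apply]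
    rw [Finset.sum_comm]
    refine Finset.sum_congr rfl fun k _ => Finset.sum_congr rfl fun l _ => ?_
    rw [coeff_eq, chartMetric_eq]
    change _ * _ * mform 𝓘(ℝ, E) g z y (b l) (b k) = _ * mform 𝓘(ℝ, E) g z y (b l) (b k) * _
    have e1 : ((finCongr h).symm.symm i) = Fin.cast h i := rfl
    have e2 : ((finCongr h).symm.symm j) = Fin.cast h j := rfl
    rw [e1, e2]
    ring
  rw [hm, Matrix.det_reindex_self, Matrix.det_mul, Matrix.det_mul, Matrix.det_transpose,
    LinearMap.det_toMatrix]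
  change D.det * _ * D.det = _
  ring

/-- The determinant in the chart at `z` in terms of the determinant in the preferred chart.
Proof: `coeff_det_law` with `z := (extChartAt z).symm y` and `z' := z`; `g3_mem_dom` gives
`y ∈ dom 𝓘(ℝ, E) p z` for `p = (extChartAt z).symm y` and
`trans 𝓘(ℝ, E) p z y = extChartAt p p` (definition of `trans`). The determinant of the differential
is not zero by `det_trans_ne_zero`. -/
theorem exists_det_cof (z : M) {y : E} (hy : y ∈ (extChartAt 𝓘(ℝ, E) z).target) :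
    ∃ c : ℝ, 0 < c ∧ ∀ g : Met E M,
      (coeff g z y).det = c * (cof g ((extChartAt 𝓘(ℝ, E) z).symm y)).det := by
  set p : M := (extChartAt 𝓘(ℝ, E) z).symm y with hp
  have hd : y ∈ dom 𝓘(ℝ, E) p z := g3_mem_dom hy
  refine ⟨(fderiv ℝ (trans 𝓘(ℝ, E) p z) y).det ^ 2, ?_, fun g => ?_⟩
  · have := det_trans_ne_zero 𝓘(ℝ, E) hd
    positivity
  · exact coeff_det_law g hd

/-- Proof: `chartMetric_posDef` and `Matrix.PosDef.det_pos`. -/
theorem coeff_det_pos (g : Met E M) (z : M) {y : E} (hy : y ∈ (extChartAt 𝓘(ℝ, E) z).target) :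
    0 < (coeff g z y).det :=
  (chartMetric_posDef 𝓘(ℝ, E) (finBasis ℝ E) g z hy).det_pos

/-- Proof: `coeff_det_pos` at `y = extChartAt p p`. -/
theorem cof_det_pos (g : Met E M) (p : M) : 0 < (cof g p).det :=
  coeff_det_pos g p (mem_extChartAt_target p)

/-- Proof: `contDiffAt_det` and `g3_coeff_smooth`. -/
theorem coeff_det_cont (g : Met E M) (z : M) :
    ContinuousOn (fun y => (coeff g z y).det) (extChartAt 𝓘(ℝ, E) z).target := fun _ hy =>
  (contDiffAt_det (g3_coeff_smooth g z hy)).continuousAt.continuousWithinAt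

/-- The ratio of the determinants of two metrics is a continuous function on `M`.
Proof: at a point `z` the function equals, on the source of the chart at `z`,
`p ↦ (coeff g' z (extChartAt z p)).det / (coeff g z (extChartAt z p)).det` by `exists_det_cof` (for
`y = extChartAt z p`, the same constant `c` for `g` and `g'`), and this function is continuous at
`z` (`coeff_det_cont`, `coeff_det_pos`, `continuousAt_extChartAt`). -/
theorem cont_ratio (g g' : Met E M) :
    Continuous fun p : M => (cof g' p).det / (cof g p).det := by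
  rw [continuous_iff_continuousAt]
  intro z
  have ho : ∀ g : Met E M, ContinuousAt (fun p => (coeff g z (extChartAt 𝓘(ℝ, E) z p)).det) z := by
    intro g
    have h1 : ContinuousAt (fun y => (coeff g z y).det) (extChartAt 𝓘(ℝ, E) z z) :=
      (coeff_det_cont g z).continuousAt (extChartAt_target_mem_nhds z)
    exact ContinuousAt.comp (f := extChartAt 𝓘(ℝ, E) z) h1 (continuousAt_extChartAt z)
  have h2 : ContinuousAt (fun p => (coeff g' z (extChartAt 𝓘(ℝ, E) z p)).det /
      (coeff g z (extChartAt 𝓘(ℝ, E) z p)).det) z :=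
    (ho g').div (ho g) (coeff_det_pos g z (mem_extChartAt_target z)).ne'
  refine h2.congr ?_
  filter_upwards [extChartAt_source_mem_nhds (I := 𝓘(ℝ, E)) z] with p hp
  obtain ⟨c, hc, h⟩ := exists_det_cof z ((extChartAt 𝓘(ℝ, E) z).map_source hp)
  rw [h g, h g', (extChartAt 𝓘(ℝ, E) z).left_inv hp, mul_div_mul_left _ _ hc.ne']

end Pool.Agent.Lib.MP_df705a_gt.Coll
end
end

section

/-!
# R: the measure with the density `ρ` in a chart
-/

open scoped Manifold ContDiff Topology
open Set Bundle Module Filter MeasureTheory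

noncomputable section

set_option linter.unusedSectionVars false

namespace Pool.Agent.Lib.MP_df705a_gt.Coll

open Pool.Agent.Lib.MP_df705a_gt.Twist Pool.Agent.Lib.MP_df705a_gt.Perm
open Pool.Agent.Lib.MP_df705a_gt.Circ (cf Para)

variable {E : Type*} [NormedAddCommGroup E] [NormedSpace ℝ E] [FiniteDimensional ℝ E]
  {M : Type*} [TopologicalSpace M] [ChartedSpace E M] [IsManifold 𝓘(ℝ, E) ∞ M]
  [MeasurableSpace E] [BorelSpace E] [MeasurableSpace M] [BorelSpace M]
  [CompactSpace M] [T2Space M]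

/-- A function which is supported in the domain of the chart at `z` gives an integrable function
in the chart.
Proof: `integrable_aux` (Twist/NoNegDiv.lean) with `K = hatK 𝓘(ℝ, E) z f`, `T = target`, applied to
the function `target.indicator (fun y => f (symm y) * F y)`
(`integrable_indicator_iff`, measurability of the open set `target`): it is continuous on the
target (`hf.comp_continuousOn (continuousOn_extChartAt_symm z)`) and vanishes outside `K`
(`symm_mem_tsupport`, `image_eq_zero_of_notMem_tsupport`). `hatK_compact`, `hatK_subset`. -/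
theorem integrableOn_chart (z : M) {f : M → ℝ} (hf : Continuous f)
    (hz : tsupport f ⊆ (extChartAt 𝓘(ℝ, E) z).source) {F : E → ℝ}
    (hF : ContinuousOn F (extChartAt 𝓘(ℝ, E) z).target) :
    IntegrableOn (fun y => f ((extChartAt 𝓘(ℝ, E) z).symm y) * F y)
      (extChartAt 𝓘(ℝ, E) z).target (finBasis ℝ E).addHaar := by
  rw [← integrable_indicator_iff (isOpen_extChartAt_target z).measurableSet]
  refine integrable_aux (finBasis ℝ E).addHaar (hatK_compact 𝓘(ℝ, E) hz)
    (hatK_subset 𝓘(ℝ, E) hz) ?_ ?_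
  · have h1 : ContinuousOn (fun y => f ((extChartAt 𝓘(ℝ, E) z).symm y) * F y)
        (extChartAt 𝓘(ℝ, E) z).target :=
      (hf.comp_continuousOn (continuousOn_extChartAt_symm z)).mul hF
    exact h1.congr fun y hy => indicator_of_mem hy _
  · intro y hy
    by_cases hyT : y ∈ (extChartAt 𝓘(ℝ, E) z).target
    · rw [indicator_of_mem hyT]
      have h2 : (extChartAt 𝓘(ℝ, E) z).symm y ∉ tsupport f := fun h =>
        hy (symm_mem_tsupport 𝓘(ℝ, E) hyT h)
      rw [image_eq_zero_of_notMem_tsupport h2, zero_mul]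
    · exact indicator_of_notMem hyT _

/-- The measure with the density `ρ √det` in the chart at `z`. -/
def chartMeas (g : Met E M) (z : M) (ρ : M → ℝ) : Measure M :=
  Measure.map (extChartAt 𝓘(ℝ, E) z).symm
    (((finBasis ℝ E).addHaar.restrict (extChartAt 𝓘(ℝ, E) z).target).withDensity fun y =>
      ENNReal.ofReal (ρ ((extChartAt 𝓘(ℝ, E) z).symm y) * √ (coeff g z y).det))

/-- Proof: `Measure.map` preserves finiteness (`Measure.isFiniteMeasure_map`), and
`isFiniteMeasure_withDensity_ofReal` for the integrable function of `integrableOn_chart` with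
`F = √ (coeff g z ·).det` (`coeff_det_cont`). -/
theorem chartMeas_finite (g : Met E M) (z : M) {ρ : M → ℝ} (hρ : Continuous ρ)
    (hz : tsupport ρ ⊆ (extChartAt 𝓘(ℝ, E) z).source) : IsFiniteMeasure (chartMeas g z ρ) := by
  have h1 : IsFiniteMeasure (((finBasis ℝ E).addHaar.restrict
      (extChartAt 𝓘(ℝ, E) z).target).withDensity fun y =>
      ENNReal.ofReal (ρ ((extChartAt 𝓘(ℝ, E) z).symm y) * √ (coeff g z y).det)) := by
    apply isFiniteMeasure_withDensity_ofReal
    exact (integrableOn_chart z hρ hz (F := fun y => √ (coeff g z y).det)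
      (coeff_det_cont g z).sqrt).2
  unfold chartMeas
  infer_instance

/-- Proof: `integral_map` (the map `(extChartAt z).symm` is continuous on the open set `target`, so
`AEMeasurable` for the restricted measure (`ContinuousOn.aemeasurable`) and for the measure with
density, `AEMeasurable.mono_ac (withDensity_absolutelyContinuous _ _)`; `f` is continuous, hence
strongly measurable), then `integral_withDensity_eq_integral_toReal_smul₀` (or
`integral_withDensity_eq_integral_smul`), `ENNReal.toReal_ofReal` and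
`ρ * √det ≥ 0`. -/
theorem chartMeas_integral (g : Met E M) (z : M) {ρ : M → ℝ} (hρ : Continuous ρ)
    (h0 : ∀ p, 0 ≤ ρ p) {f : M → ℝ} (hf : Continuous f) :
    ∫ p, f p ∂(chartMeas g z ρ) = ∫ y in (extChartAt 𝓘(ℝ, E) z).target,
      (ρ ((extChartAt 𝓘(ℝ, E) z).symm y) * f ((extChartAt 𝓘(ℝ, E) z).symm y)) *
        √ (coeff g z y).det ∂(finBasis ℝ E).addHaar := by
  have hT : MeasurableSet (extChartAt 𝓘(ℝ, E) z).target :=
    (isOpen_extChartAt_target z).measurableSet
  have hc : ContinuousOn (fun y => ρ ((extChartAt 𝓘(ℝ, E) z).symm y) * √ (coeff g z y).det)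
      (extChartAt 𝓘(ℝ, E) z).target :=
    (hρ.comp_continuousOn (continuousOn_extChartAt_symm z)).mul (coeff_det_cont g z).sqrt
  have hm : AEMeasurable (fun y => ENNReal.ofReal (ρ ((extChartAt 𝓘(ℝ, E) z).symm y) *
      √ (coeff g z y).det)) ((finBasis ℝ E).addHaar.restrict (extChartAt 𝓘(ℝ, E) z).target) :=
    (hc.aemeasurable hT).ennreal_ofReal
  have hs : AEMeasurable (extChartAt 𝓘(ℝ, E) z).symm
      ((finBasis ℝ E).addHaar.restrict (extChartAt 𝓘(ℝ, E) z).target) :=
    (continuousOn_extChartAt_symm z).aemeasurable hT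
  unfold chartMeas
  rw [integral_map (hs.mono_ac (withDensity_absolutelyContinuous _ _))
    hf.aestronglyMeasurable, integral_withDensity_eq_integral_toReal_smul₀ hm
    (Eventually.of_forall fun y => ENNReal.ofReal_lt_top)]
  refine integral_congr_ae (Eventually.of_forall fun y => ?_)
  have h1 : 0 ≤ ρ ((extChartAt 𝓘(ℝ, E) z).symm y) * √ (coeff g z y).det :=
    mul_nonneg (h0 _) (Real.sqrt_nonneg _)
  change (ENNReal.ofReal (ρ ((extChartAt 𝓘(ℝ, E) z).symm y) * √ (coeff g z y).det)).toReal •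
    f ((extChartAt 𝓘(ℝ, E) z).symm y) = _
  rw [ENNReal.toReal_ofReal h1, smul_eq_mul]
  ring

end Pool.Agent.Lib.MP_df705a_gt.Coll
end
end

section

/-!
# R: change of variables between a chart and a parametrization
-/

open scoped Manifold ContDiff Topology
open Set Bundle Module Filter MeasureTheory

noncomputable section

set_option linter.unusedSectionVars false

namespace Pool.Agent.Lib.MP_df705a_gt.Coll

open Pool.Agent.Lib.MP_df705a_gt.Twist Pool.Agent.Lib.MP_df705a_gt.Perm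
open Pool.Agent.Lib.MP_df705a_gt.Circ (cf Para)

variable {E : Type*} [NormedAddCommGroup E] [NormedSpace ℝ E] [FiniteDimensional ℝ E]
  {M : Type*} [TopologicalSpace M] [ChartedSpace E M] [IsManifold 𝓘(ℝ, E) ∞ M]
  [MeasurableSpace E] [BorelSpace E]
  {E' : Type*} [NormedAddCommGroup E'] [NormedSpace ℝ E'] [FiniteDimensional ℝ E']
  [MeasurableSpace E'] [BorelSpace E']

/-- Integration in a chart and in a parametrization.
Proof. If `W` is empty then `f = 0` by `hs` and both sides are `0`. Otherwise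
`h := finrank_para (hσ q₀ _)`; let `A` be the isomorphism of `exists_iso h`.
`W' := {q ∈ W | σ q ∈ source z}` is open (`σ` is continuous at the points of `W`, by
`(hσ q _).smooth.continuousAt`). The right side is the integral over `W'`
(`setIntegral_eq_of_subset_of_forall_sdiff_eq_zero`: for `q ∈ W \ W'` one has
`σ q ∉ tsupport f`, so `f (σ q) = 0`).
As `A` preserves the measures, it is `∫ x in A '' W', f (σ (A.symm x)) * √ (cf g σ (A.symm x)).det`
(`MeasurePreserving.setIntegral_image_emb`, measurable embedding `A.toHomeomorph.measurableEmbedding`).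
Let `τ x = extChartAt z (σ (A.symm x))` on `V := A '' W'` (open): it is injective on `V`
(`hinj`, injectivity of the chart on its source) and differentiable at the points of `V`
(`para_smooth` composed with `A.symm`).
The left side is the integral over `τ '' V ⊆ target`: if `y ∈ target` and `f (symm y) ≠ 0` then
`symm y ∈ tsupport f ⊆ σ '' W`, `symm y = σ q` with `q ∈ W` and `σ q ∈ source` (as
`(extChartAt z).map_target`), so `y = extChartAt z (σ q) ∈ τ '' V`.
(`setIntegral_eq_of_subset_of_forall_sdiff_eq_zero`; `τ '' V` is measurable by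
`measurable_image_of_fderivWithin`, or because it is open, being
`target ∩ symm ⁻¹' (σ '' W')`... the first is easier.)
By `integral_image_eq_integral_abs_det_fderiv_smul` it equals
`∫ x in V, |D.det| * (f (σ (A.symm x)) * √ (coeff g z (τ x)).det)` (`(extChartAt z).left_inv`), and
`√ (cf g σ q).det = |D.det| * √ (coeff g z (τ x)).det` for `q = A.symm x` by `cf_det_law`
(`Real.sqrt_mul (sq_nonneg _)`, `Real.sqrt_sq_eq_abs`). See also the proof of
`Twist.cross_integral` (Twist/NoNegDiv.lean) which is very similar. -/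
theorem integral_chart_eq (g : Met E M) {σ : E' → M} {W : Set E'} (hW : IsOpen W)
    (hσ : ∀ q ∈ W, Para E σ q) (hinj : InjOn σ W) (z : M) {f : M → ℝ}
    (hs : tsupport f ⊆ σ '' W) (hz : tsupport f ⊆ (extChartAt 𝓘(ℝ, E) z).source) :
    ∫ y in (extChartAt 𝓘(ℝ, E) z).target, f ((extChartAt 𝓘(ℝ, E) z).symm y) *
        √ (coeff g z y).det ∂(finBasis ℝ E).addHaar =
      ∫ q in W, f (σ q) * √ (cf g σ q).det ∂(finBasis ℝ E').addHaar := by
  rcases W.eq_empty_or_nonempty with hWe | ⟨q₀, hq₀⟩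
  · have hf0 : ∀ p, f p = 0 := by
      intro p
      by_contra h
      obtain ⟨q, hq, -⟩ := hs (subset_tsupport _ h)
      rw [hWe] at hq
      exact hq
    simp only [hf0, zero_mul, integral_zero]
  have h : finrank ℝ E' = finrank ℝ E := finrank_para (hσ q₀ hq₀)
  obtain ⟨A, hA, hAm⟩ := exists_iso h
  obtain ⟨τ, hτ⟩ : ∃ τ : E → E, τ = fun x => extChartAt 𝓘(ℝ, E) z (σ (A.symm x)) := ⟨_, rfl⟩
  have hτa : ∀ x, τ x = extChartAt 𝓘(ℝ, E) z (σ (A.symm x)) := fun x => by rw [hτ]
  have hσc : ContinuousOn σ W := fun q hq => (hσ q hq).smooth.continuousAt.continuousWithinAt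
  have hW'o : IsOpen (W ∩ σ ⁻¹' (extChartAt 𝓘(ℝ, E) z).source) :=
    hσc.isOpen_inter_preimage hW (isOpen_extChartAt_source z)
  have hVo : IsOpen (A.symm ⁻¹' (W ∩ σ ⁻¹' (extChartAt 𝓘(ℝ, E) z).source)) :=
    hW'o.preimage A.symm.continuous
  have hR : ∫ q in W, f (σ q) * √ (cf g σ q).det ∂(finBasis ℝ E').addHaar =
      ∫ x in A.symm ⁻¹' (W ∩ σ ⁻¹' (extChartAt 𝓘(ℝ, E) z).source),
        f (σ (A.symm x)) * √ (cf g σ (A.symm x)).det ∂(finBasis ℝ E).addHaar := by
    have e1 : ∫ q in W, f (σ q) * √ (cf g σ q).det ∂(finBasis ℝ E').addHaar =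
        ∫ q in W ∩ σ ⁻¹' (extChartAt 𝓘(ℝ, E) z).source,
          f (σ q) * √ (cf g σ q).det ∂(finBasis ℝ E').addHaar := by
      refine setIntegral_eq_of_subset_of_forall_sdiff_eq_zero hW.measurableSet inter_subset_left ?_
      rintro q ⟨hq1, hq2⟩
      have h2 : σ q ∉ tsupport f := fun h3 => hq2 ⟨hq1, hz h3⟩
      rw [image_eq_zero_of_notMem_tsupport h2, zero_mul]
    have e2 := hAm.setIntegral_preimage_emb A.toHomeomorph.measurableEmbedding
      (fun x => f (σ (A.symm x)) * √ (cf g σ (A.symm x)).det)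
      (A.symm ⁻¹' (W ∩ σ ⁻¹' (extChartAt 𝓘(ℝ, E) z).source))
    have e3 : A ⁻¹' (A.symm ⁻¹' (W ∩ σ ⁻¹' (extChartAt 𝓘(ℝ, E) z).source)) =
        W ∩ σ ⁻¹' (extChartAt 𝓘(ℝ, E) z).source := by
      ext q
      rw [mem_preimage, mem_preimage, A.symm_apply_apply]
    rw [e3] at e2
    rw [e1, ← e2]
    simp only [A.symm_apply_apply]
  have hτi : InjOn τ (A.symm ⁻¹' (W ∩ σ ⁻¹' (extChartAt 𝓘(ℝ, E) z).source)) := by
    intro x hx x' hx' hxx
    rw [hτa, hτa] at hxx
    have h3 := (extChartAt 𝓘(ℝ, E) z).injOn hx.2 hx'.2 hxx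
    exact A.symm.injective (hinj hx.1 hx'.1 h3)
  have hτd : ∀ x ∈ A.symm ⁻¹' (W ∩ σ ⁻¹' (extChartAt 𝓘(ℝ, E) z).source),
      DifferentiableAt ℝ τ x := by
    intro x hx
    have h3 := para_smooth (hσ _ hx.1) hx.2
    have h4 : DifferentiableAt ℝ (fun q => extChartAt 𝓘(ℝ, E) z (σ q)) (A.symm x) :=
      h3.differentiableAt (by simp)
    rw [hτ]
    exact h4.comp x A.symm.differentiableAt
  have hL : ∫ y in (extChartAt 𝓘(ℝ, E) z).target, f ((extChartAt 𝓘(ℝ, E) z).symm y) *
        √ (coeff g z y).det ∂(finBasis ℝ E).addHaar =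
      ∫ y in τ '' (A.symm ⁻¹' (W ∩ σ ⁻¹' (extChartAt 𝓘(ℝ, E) z).source)),
        f ((extChartAt 𝓘(ℝ, E) z).symm y) * √ (coeff g z y).det ∂(finBasis ℝ E).addHaar := by
    refine setIntegral_eq_of_subset_of_forall_sdiff_eq_zero
      (isOpen_extChartAt_target z).measurableSet ?_ ?_
    · rintro _ ⟨x, hx, rfl⟩
      rw [hτa]
      exact (extChartAt 𝓘(ℝ, E) z).map_source hx.2
    · rintro y ⟨hy1, hy2⟩
      by_contra hne
      have h3 : f ((extChartAt 𝓘(ℝ, E) z).symm y) ≠ 0 := left_ne_zero_of_mul hne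
      obtain ⟨q, hq, hqy⟩ := hs (subset_tsupport _ h3)
      apply hy2
      have h4 : σ q ∈ (extChartAt 𝓘(ℝ, E) z).source := by
        rw [hqy]
        exact (extChartAt 𝓘(ℝ, E) z).map_target hy1
      refine ⟨A q, ?_, ?_⟩
      · rw [mem_preimage, A.symm_apply_apply]
        exact ⟨hq, h4⟩
      · rw [hτa, A.symm_apply_apply, hqy, (extChartAt 𝓘(ℝ, E) z).right_inv hy1]
  rw [hL, hR, integral_image_eq_integral_abs_det_fderiv_smul (finBasis ℝ E).addHaar
    hVo.measurableSet (fun x hx => (hτd x hx).hasFDerivAt.hasFDerivWithinAt) hτi]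
  refine setIntegral_congr_fun hVo.measurableSet fun x hx => ?_
  have h5 := cf_det_law g (hσ _ hx.1) hx.2 h hA
  rw [A.apply_symm_apply, ← hτ, ← hτa] at h5
  change |(fderiv ℝ τ x).det| • (f ((extChartAt 𝓘(ℝ, E) z).symm (τ x)) *
    √ (coeff g z (τ x)).det) = f (σ (A.symm x)) * √ (cf g σ (A.symm x)).det
  rw [h5, Real.sqrt_mul (sq_nonneg _), Real.sqrt_sq_eq_abs, smul_eq_mul, hτa,
    (extChartAt 𝓘(ℝ, E) z).left_inv hx.2]
  ring

/-- Integration in two charts.
Proof: `integral_chart_eq` for `σ = (extChartAt z').symm`, `W = (extChartAt z').target`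
(`para_symm`, `cf_symm`, `(extChartAt z').symm.injOn`,
`(extChartAt z').symm '' target = source`: `PartialEquiv.symm_image_target_eq_source`). -/
theorem integral_chart_chart (g : Met E M) (z z' : M) {f : M → ℝ}
    (hz : tsupport f ⊆ (extChartAt 𝓘(ℝ, E) z).source)
    (hz' : tsupport f ⊆ (extChartAt 𝓘(ℝ, E) z').source) :
    ∫ y in (extChartAt 𝓘(ℝ, E) z).target, f ((extChartAt 𝓘(ℝ, E) z).symm y) *
        √ (coeff g z y).det ∂(finBasis ℝ E).addHaar =
      ∫ y in (extChartAt 𝓘(ℝ, E) z').target, f ((extChartAt 𝓘(ℝ, E) z').symm y) *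
        √ (coeff g z' y).det ∂(finBasis ℝ E).addHaar := by
  have h1 := integral_chart_eq g (σ := (extChartAt 𝓘(ℝ, E) z').symm)
    (W := (extChartAt 𝓘(ℝ, E) z').target) (isOpen_extChartAt_target z')
    (fun q hq => para_symm z' hq) (extChartAt 𝓘(ℝ, E) z').symm.injOn z (f := f) ?_ hz
  · rw [h1, cf_symm]
  · rw [PartialEquiv.symm_image_target_eq_source]
    exact hz'

end Pool.Agent.Lib.MP_df705a_gt.Coll
end
end

section

/-!
# TASK R1: a metric as a combination of differentials of finitely many global functions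
-/

open scoped Manifold ContDiff Topology
open Set Bundle Module Filter

noncomputable section

set_option linter.unusedSectionVars false

namespace Pool.Agent.Lib.MP_df705a_gt.Perm

open Pool.Agent.Lib.MP_df705a_gt.Twist

variable {E : Type*} [NormedAddCommGroup E] [NormedSpace ℝ E] [FiniteDimensional ℝ E]
  {M : Type*} [TopologicalSpace M] [ChartedSpace E M] [IsManifold 𝓘(ℝ, E) ∞ M]

/-- The differential of a real function, as a function on the model space. -/
def dfun {κ : Type} (f : κ → M → ℝ) (k : κ) (x : M) (v : E) : ℝ :=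
  mfderiv 𝓘(ℝ, E) 𝓘(ℝ, ℝ) (f k) x v

namespace R1

/-- a finite family of bump functions, one of which is `1` at each point -/
theorem cover (E : Type*) [NormedAddCommGroup E] [NormedSpace ℝ E] [FiniteDimensional ℝ E]
    (M : Type*) [TopologicalSpace M] [ChartedSpace E M] [IsManifold 𝓘(ℝ, E) ∞ M]
    [CompactSpace M] [T2Space M] :
    ∃ (N : ℕ) (z : Fin N → M) (b : ∀ i, SmoothBumpFunction 𝓘(ℝ, E) (z i)),
      ∀ x, ∃ i, b i x = 1 := by
  obtain ⟨ι, fs, -⟩ := SmoothBumpCovering.exists_isSubordinate 𝓘(ℝ, E) (isClosed_univ (X := M))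
    (U := fun _ => univ) (fun (x : M) _ => univ_mem)
  have : Fintype ι := fs.fintype
  let e := Fintype.equivFin ι
  refine ⟨Fintype.card ι, fun i => fs.c (e.symm i), fun i => fs (e.symm i), fun x => ?_⟩
  have key : ∀ j, j = fs.ind x (mem_univ x) → fs j x = 1 := by
    rintro _ rfl
    exact fs.apply_ind x (mem_univ x)
  exact ⟨e (fs.ind x (mem_univ x)), key _ (e.symm_apply_apply _)⟩

/-- the composition of the derivatives of the chart and of its inverse -/
theorem symm_comp (z : M) {x : M} (hx : x ∈ (extChartAt 𝓘(ℝ, E) z).source) (v : E) :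
    (mfderiv 𝓘(ℝ, E) 𝓘(ℝ, E) (extChartAt 𝓘(ℝ, E) z).symm (extChartAt 𝓘(ℝ, E) z x) : E →L[ℝ] E)
      ((mfderiv 𝓘(ℝ, E) 𝓘(ℝ, E) (extChartAt 𝓘(ℝ, E) z) x : E →L[ℝ] E) v) = v := by
  have h := mfderivWithin_extChartAt_symm_comp_mfderiv_extChartAt' (I := 𝓘(ℝ, E)) (x := z) hx
  rw [ModelWithCorners.range_eq_univ, mfderivWithin_univ] at h
  exact DFunLike.congr_fun h v

/-- the metric in terms of the coordinates of the chart -/
theorem inner_eq (g : ContMDiffRiemannianMetric 𝓘(ℝ, E) ∞ E (fun x : M => TangentSpace 𝓘(ℝ, E) x))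
    (z : M) {x : M} (hx : x ∈ (extChartAt 𝓘(ℝ, E) z).source) (v w : E) :
    ∑ m, ∑ p, coeff g z (extChartAt 𝓘(ℝ, E) z x) m p *
      ((finBasis ℝ E).repr
        ((mfderiv 𝓘(ℝ, E) 𝓘(ℝ, E) (extChartAt 𝓘(ℝ, E) z) x : E →L[ℝ] E) v) m *
      (finBasis ℝ E).repr
        ((mfderiv 𝓘(ℝ, E) 𝓘(ℝ, E) (extChartAt 𝓘(ℝ, E) z) x : E →L[ℝ] E) w) p) =
      g.inner x v w := by
  set D : E →L[ℝ] E := mfderiv 𝓘(ℝ, E) 𝓘(ℝ, E) (extChartAt 𝓘(ℝ, E) z) x with hD
  set y := extChartAt 𝓘(ℝ, E) z x with hy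
  have h1 : mform 𝓘(ℝ, E) g z y (D v) (D w) = g.inner x v w := by
    rw [mform_apply]
    have e1 := symm_comp z hx v
    have e2 := symm_comp z hx w
    have e3 : ∀ x' : M, x' = x → ∀ v' w' : E, v' = v → w' = w →
        g.inner x' v' w' = g.inner x v w := by
      rintro _ rfl _ _ rfl rfl
      rfl
    exact e3 _ ((extChartAt 𝓘(ℝ, E) z).left_inv hx) _ _ e1 e2
  rw [← h1]
  conv_rhs => rw [← (finBasis ℝ E).sum_repr (D v), ← (finBasis ℝ E).sum_repr (D w), bilin_sum]
  refine Finset.sum_congr rfl fun m _ => Finset.sum_congr rfl fun p _ => ?_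
  have h2 : coeff g z y m p = mform 𝓘(ℝ, E) g z y (finBasis ℝ E m) (finBasis ℝ E p) := rfl
  rw [h2]
  exact mul_comm _ _

/-- the matrix that expresses `b d x_m` through `d (b x_m)` and `d b` -/
def TT {n : ℕ} (c : Fin n → ℝ) : Option (Fin n) → Fin n → ℝ
  | none, m => -c m
  | some k, m => if k = m then 1 else 0

theorem sum_TT {n : ℕ} (c : Fin n → ℝ) (ξ : Option (Fin n) → ℝ) (m : Fin n) :
    ∑ a, TT c a m * ξ a = ξ (some m) - c m * ξ none := by
  rw [Fintype.sum_option]
  simp only [TT]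
  have h : ∑ k, (if k = m then (1 : ℝ) else 0) * ξ (some k) = ξ (some m) := by
    simp
  rw [h]
  ring

/-- a sum over pairs of indices -/
theorem sum_pairs {N n : ℕ} (β : Fin N → ℝ) (T : Fin N → Option (Fin n) → Fin n → ℝ)
    (h : Fin N → Fin n → Fin n → ℝ) (ξ η : Fin N × Option (Fin n) → ℝ) :
    ∑ k : Fin N × Option (Fin n), ∑ l : Fin N × Option (Fin n),
      (if k.1 = l.1 then β k.1 * ∑ m, ∑ p, T k.1 k.2 m * h k.1 m p * T k.1 l.2 p else 0) *
        (ξ k * η l) =
    ∑ i, β i * ∑ m, ∑ p, h i m p * ((∑ a, T i a m * ξ (i, a)) * (∑ a, T i a p * η (i, a))) := by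
  rw [Fintype.sum_prod_type]
  refine Finset.sum_congr rfl fun i _ => ?_
  have h1 : ∀ a : Option (Fin n), ∑ l : Fin N × Option (Fin n),
      (if i = l.1 then β i * ∑ m, ∑ p, T i a m * h i m p * T i l.2 p else 0) *
        (ξ (i, a) * η l) = ∑ b, ∑ m, ∑ p, β i * (h i m p * ((T i a m * ξ (i, a)) *
          (T i b p * η (i, b)))) := by
    intro a
    rw [Fintype.sum_prod_type, Finset.sum_eq_single i]
    · refine Finset.sum_congr rfl fun b _ => ?_
      rw [if_pos rfl, Finset.mul_sum, Finset.sum_mul]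
      refine Finset.sum_congr rfl fun m _ => ?_
      rw [Finset.mul_sum, Finset.sum_mul]
      refine Finset.sum_congr rfl fun p _ => ?_
      ring
    · intro j _ hj
      refine Finset.sum_eq_zero fun b _ => ?_
      rw [if_neg (fun e => hj e.symm), zero_mul]
    · intro hi
      exact absurd (Finset.mem_univ i) hi
  rw [Finset.sum_congr rfl fun a _ => h1 a]
  have h2 : β i * ∑ m, ∑ p, h i m p * ((∑ a, T i a m * ξ (i, a)) * (∑ a, T i a p * η (i, a))) =
      ∑ m, ∑ p, ∑ a, ∑ b, β i * (h i m p * ((T i a m * ξ (i, a)) * (T i b p * η (i, b)))) := by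
    rw [Finset.mul_sum]
    refine Finset.sum_congr rfl fun m _ => ?_
    rw [Finset.mul_sum]
    refine Finset.sum_congr rfl fun p _ => ?_
    rw [Finset.sum_mul_sum, Finset.mul_sum, Finset.mul_sum]
    refine Finset.sum_congr rfl fun a _ => ?_
    rw [Finset.mul_sum, Finset.mul_sum]
  rw [h2]
  have h3 : ∀ a : Option (Fin n), ∑ b, ∑ m, ∑ p, β i * (h i m p * ((T i a m * ξ (i, a)) *
      (T i b p * η (i, b)))) = ∑ m, ∑ p, ∑ b, β i * (h i m p * ((T i a m * ξ (i, a)) *
      (T i b p * η (i, b)))) := by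
    intro a
    rw [Finset.sum_comm]
    refine Finset.sum_congr rfl fun m _ => ?_
    rw [Finset.sum_comm]
  rw [Finset.sum_congr rfl fun a _ => h3 a, Finset.sum_comm]
  refine Finset.sum_congr rfl fun m _ => ?_
  rw [Finset.sum_comm]

/-- the `m`-th coordinate of the chart at `z` -/
def cd (z : M) (m : Fin (finrank ℝ E)) (x : M) : ℝ :=
  (finBasis ℝ E).repr (extChartAt 𝓘(ℝ, E) z x) m

/-- the `m`-th coordinate on the model space -/
def cl (m : Fin (finrank ℝ E)) : E →L[ℝ] ℝ := LinearMap.toContinuousLinearMap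
  ((finBasis ℝ E).coord m)

theorem cl_apply (m : Fin (finrank ℝ E)) (v : E) : cl m v = (finBasis ℝ E).repr v m := rfl

theorem cd_contMDiffOn (z : M) (m : Fin (finrank ℝ E)) :
    ContMDiffOn 𝓘(ℝ, E) 𝓘(ℝ, ℝ) ∞ (cd (E := E) z m) (chartAt E z).source := by
  have h1 : ContMDiffOn 𝓘(ℝ, E) 𝓘(ℝ, E) ∞ (extChartAt 𝓘(ℝ, E) z) (chartAt E z).source :=
    contMDiffOn_extChartAt
  exact (cl m).contMDiff.comp_contMDiffOn h1

theorem cd_hasMFDerivAt (z : M) (m : Fin (finrank ℝ E)) {x : M}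
    (hx : x ∈ (extChartAt 𝓘(ℝ, E) z).source) :
    HasMFDerivAt 𝓘(ℝ, E) 𝓘(ℝ, ℝ) (cd (E := E) z m) x
      ((cl m).comp (mfderiv 𝓘(ℝ, E) 𝓘(ℝ, E) (extChartAt 𝓘(ℝ, E) z) x : E →L[ℝ] E)) := by
  have h1 : MDifferentiableAt 𝓘(ℝ, E) 𝓘(ℝ, E) (extChartAt 𝓘(ℝ, E) z) x :=
    mdifferentiableAt_extChartAt (by rwa [← extChartAt_source 𝓘(ℝ, E)])
  exact ((cl m).hasMFDerivAt (x := extChartAt 𝓘(ℝ, E) z x)).comp x h1.hasMFDerivAt

/-- the coefficient `h_mp` of the metric in the chart at `z`, as a function on the manifold -/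
def hc (g : ContMDiffRiemannianMetric 𝓘(ℝ, E) ∞ E (fun x : M => TangentSpace 𝓘(ℝ, E) x))
    (z : M) (m p : Fin (finrank ℝ E)) (x : M) : ℝ :=
  coeff g z (extChartAt 𝓘(ℝ, E) z x) m p

theorem hc_contMDiffOn
    (g : ContMDiffRiemannianMetric 𝓘(ℝ, E) ∞ E (fun x : M => TangentSpace 𝓘(ℝ, E) x))
    (z : M) (m p : Fin (finrank ℝ E)) :
    ContMDiffOn 𝓘(ℝ, E) 𝓘(ℝ, ℝ) ∞ (hc g z m p) (chartAt E z).source := by
  have h1 : ContMDiffOn 𝓘(ℝ, E) 𝓘(ℝ, E) ∞ (extChartAt 𝓘(ℝ, E) z) (chartAt E z).source :=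
    contMDiffOn_extChartAt
  have h2 : ContDiffOn ℝ ∞ (fun y => coeff g z y m p) (extChartAt 𝓘(ℝ, E) z).target :=
    chartMetric_smooth 𝓘(ℝ, E) (finBasis ℝ E) g z m p
  refine h2.contMDiffOn.comp h1 fun x hx => ?_
  exact (extChartAt 𝓘(ℝ, E) z).map_source (by rwa [extChartAt_source 𝓘(ℝ, E)])

end R1

open R1 in
/-- On a compact manifold there are finitely many smooth functions `f k` separating the points,
and smooth coefficients `c k l`, symmetric and positive semidefinite at every point, such that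
`g = ∑ c k l (d f k) (d f l)`. -/
theorem exists_data [CompactSpace M] [T2Space M]
    (g : ContMDiffRiemannianMetric 𝓘(ℝ, E) ∞ E (fun x : M => TangentSpace 𝓘(ℝ, E) x)) :
    ∃ (κ : Type) (_ : Fintype κ) (f : κ → M → ℝ) (c : κ → κ → M → ℝ),
      (∀ k, Sm E (f k)) ∧ (∀ k l, Sm E (c k l)) ∧ (∀ k l x, c k l x = c l k x) ∧
      (∀ (x : M) (ξ : κ → ℝ), 0 ≤ ∑ k, ∑ l, c k l x * (ξ k * ξ l)) ∧
      (∀ (x : M) (v w : E), ∑ k, ∑ l, c k l x * (dfun f k x v * dfun f l x w) =
        g.inner x v w) ∧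
      (∀ x y, (∀ k, f k x = f k y) → x = y) := by
  classical
  obtain ⟨N, z, b, hb⟩ := cover E M
  -- the functions
  let f : Fin N × Option (Fin (finrank ℝ E)) → M → ℝ := fun k x =>
    match k.2 with
    | none => b k.1 x
    | some m => b k.1 x * cd (E := E) (z k.1) m x
  -- the normalization
  let S : M → ℝ := fun x => ∑ i, b i x ^ 3
  have hbs : ∀ i, Sm E (b i) := fun i => (b i).contMDiff
  have hSs : Sm E S := by
    have h1 : ∀ i, ContMDiff 𝓘(ℝ, E) 𝓘(ℝ, ℝ) ∞ (fun x => b i x ^ 3) := fun i => (hbs i).pow 3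
    exact contMDiff_finsetSum fun i _ => h1 i
  have hS : ∀ x, 0 < S x := by
    intro x
    obtain ⟨i, hi⟩ := hb x
    refine Finset.sum_pos' (fun j _ => pow_nonneg (b j).nonneg 3) ⟨i, Finset.mem_univ i, ?_⟩
    rw [hi]
    norm_num
  have hSi : Sm E (fun x => (S x)⁻¹) := by
    intro x
    exact ContMDiffAt.comp x (contDiffAt_inv ℝ (hS x).ne').contMDiffAt (hSs x)
  let T : Fin N → M → Option (Fin (finrank ℝ E)) → Fin (finrank ℝ E) → ℝ := fun i x =>
    TT fun m => cd (E := E) (z i) m x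
  let c : Fin N × Option (Fin (finrank ℝ E)) → Fin N × Option (Fin (finrank ℝ E)) → M → ℝ :=
    fun k l x => if k.1 = l.1 then ((S x)⁻¹ * b k.1 x) *
      ∑ m, ∑ p, T k.1 x k.2 m * hc g (z k.1) m p x * T k.1 x l.2 p else 0
  have hTs : ∀ i a m, ContMDiffOn 𝓘(ℝ, E) 𝓘(ℝ, ℝ) ∞ (fun x => T i x a m)
      (chartAt E (z i)).source := by
    intro i a m
    cases a with
    | none => exact (cd_contMDiffOn (z i) m).neg
    | some k => exact contMDiffOn_const
  refine ⟨Fin N × Option (Fin (finrank ℝ E)), inferInstance, f, c, ?_, ?_, ?_, ?_, ?_, ?_⟩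
  · rintro ⟨i, a⟩
    cases a with
    | none => exact hbs i
    | some m => exact (b i).contMDiff_smul (cd_contMDiffOn (z i) m)
  · rintro ⟨i, a⟩ ⟨j, a'⟩
    by_cases hij : i = j
    · subst hij
      have h1 : ContMDiffOn 𝓘(ℝ, E) 𝓘(ℝ, ℝ) ∞
          (fun x => ∑ m, ∑ p, T i x a m * hc g (z i) m p x * T i x a' p)
          (chartAt E (z i)).source := by
        refine contMDiffOn_finsetSum fun m _ => contMDiffOn_finsetSum fun p _ => ?_
        exact ((hTs i a m).mul (hc_contMDiffOn g (z i) m p)).mul (hTs i a' p)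
      have h2 := (b i).contMDiff_smul h1
      have h3 := ContMDiff.mul hSi h2
      have h4 : c (i, a) (i, a') = fun x => (S x)⁻¹ *
          (b i x • ∑ m, ∑ p, T i x a m * hc g (z i) m p x * T i x a' p) := by
        funext x
        show (if i = i then _ else 0) = _
        rw [if_pos rfl, smul_eq_mul, mul_assoc]
      rw [h4]
      exact h3
    · have h4 : c (i, a) (j, a') = fun _ => 0 := by
        funext x
        exact if_neg hij
      rw [h4]
      exact contMDiff_const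
  · rintro ⟨i, a⟩ ⟨j, a'⟩ x
    by_cases hij : i = j
    · subst hij
      show (if i = i then _ else 0) = (if i = i then _ else 0)
      rw [if_pos rfl, if_pos rfl]
      congr 1
      rw [Finset.sum_comm]
      refine Finset.sum_congr rfl fun m _ => Finset.sum_congr rfl fun p _ => ?_
      have h1 : hc g (z i) p m x = hc g (z i) m p x :=
        chartMetric_symm 𝓘(ℝ, E) (finBasis ℝ E) g (z i) _ p m
      show T i x a p * hc g (z i) p m x * T i x a' m = T i x a' m * hc g (z i) m p x * T i x a p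
      rw [h1]
      ring
    · show (if i = j then _ else 0) = (if j = i then _ else 0)
      rw [if_neg hij, if_neg (fun e => hij e.symm)]
  · intro x ξ
    have h1 := sum_pairs (fun i => (S x)⁻¹ * b i x) (fun i => T i x)
      (fun i m p => hc g (z i) m p x) ξ ξ
    refine le_of_le_of_eq ?_ h1.symm
    refine Finset.sum_nonneg fun i _ => ?_
    by_cases hx : x ∈ (extChartAt 𝓘(ℝ, E) (z i)).source
    · refine mul_nonneg (mul_nonneg (inv_nonneg.2 (hS x).le) (b i).nonneg) ?_
      have hP : (coeff g (z i) (extChartAt 𝓘(ℝ, E) (z i) x)).PosDef :=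
        chartMetric_posDef 𝓘(ℝ, E) (finBasis ℝ E) g (z i)
          ((extChartAt 𝓘(ℝ, E) (z i)).map_source hx)
      have h2 := hP.posSemidef.dotProduct_mulVec_nonneg
        (fun m => ∑ a, T i x a m * ξ (i, a))
      refine le_of_le_of_eq h2 ?_
      unfold dotProduct Matrix.mulVec dotProduct
      refine Finset.sum_congr rfl fun m _ => ?_
      rw [Finset.mul_sum]
      refine Finset.sum_congr rfl fun p _ => ?_
      simp only [star_trivial, Pi.star_apply]
      show _ = coeff g (z i) (extChartAt 𝓘(ℝ, E) (z i) x) m p * _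
      ring
    · have h3 : b i x = 0 := by
        by_contra h4
        apply hx
        rw [extChartAt_source]
        exact (b i).support_subset_source h4
      rw [h3, mul_zero, zero_mul]
  · intro x v w
    have h1 := sum_pairs (fun i => (S x)⁻¹ * b i x) (fun i => T i x)
      (fun i m p => hc g (z i) m p x) (fun k => dfun f k x v) (fun k => dfun f k x w)
    refine h1.trans ?_
    have h2 : ∀ i, ((S x)⁻¹ * b i x) * ∑ m, ∑ p, hc g (z i) m p x *
        ((∑ a, T i x a m * dfun f (i, a) x v) * (∑ a, T i x a p * dfun f (i, a) x w)) =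
        (S x)⁻¹ * (b i x ^ 3) * g.inner x v w := by
      intro i
      by_cases hx : x ∈ (extChartAt 𝓘(ℝ, E) (z i)).source
      · have h3 : ∀ (m : Fin (finrank ℝ E)) (u : E), ∑ a, T i x a m * dfun f (i, a) x u =
            b i x * (finBasis ℝ E).repr ((mfderiv 𝓘(ℝ, E) 𝓘(ℝ, E)
              (extChartAt 𝓘(ℝ, E) (z i)) x : E →L[ℝ] E) u) m := by
          intro m u
          rw [sum_TT]
          have e1 : HasMFDerivAt 𝓘(ℝ, E) 𝓘(ℝ, ℝ) (b i) x
              (mfderiv 𝓘(ℝ, E) 𝓘(ℝ, ℝ) (b i) x) :=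
            ((hbs i x).mdifferentiableAt (by simp)).hasMFDerivAt
          have e2 := e1.mul (cd_hasMFDerivAt (z i) m hx)
          have e3 : dfun f (i, some m) x u = b i x * (finBasis ℝ E).repr
              ((mfderiv 𝓘(ℝ, E) 𝓘(ℝ, E) (extChartAt 𝓘(ℝ, E) (z i)) x : E →L[ℝ] E) u) m +
              cd (E := E) (z i) m x * dfun f (i, none) x u := by
            have e4 : mfderiv 𝓘(ℝ, E) 𝓘(ℝ, ℝ) (f (i, some m)) x = _ := e2.mfderiv
            unfold dfun
            rw [e4]
            rfl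
          rw [e3]
          ring
        simp only [h3]
        rw [← inner_eq g (z i) hx v w, Finset.mul_sum, Finset.mul_sum]
        refine Finset.sum_congr rfl fun m _ => ?_
        rw [Finset.mul_sum, Finset.mul_sum]
        refine Finset.sum_congr rfl fun p _ => ?_
        unfold hc
        ring
      · have h3 : b i x = 0 := by
          by_contra h4
          apply hx
          rw [extChartAt_source]
          exact (b i).support_subset_source h4
        rw [h3]
        ring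
    rw [Finset.sum_congr rfl fun i _ => h2 i, ← Finset.sum_mul, ← Finset.mul_sum]
    have h5 : (S x)⁻¹ * ∑ i, b i x ^ 3 = 1 := inv_mul_cancel₀ (hS x).ne'
    rw [h5, one_mul]
  · intro x y hxy
    obtain ⟨i, hi⟩ := hb x
    have hi' : b i y = 1 := by
      rw [← hi]
      exact (hxy (i, none)).symm
    have hx : x ∈ (extChartAt 𝓘(ℝ, E) (z i)).source := by
      rw [extChartAt_source]
      exact (b i).support_subset_source (by
        rw [Function.mem_support, hi]
        norm_num)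
    have hy : y ∈ (extChartAt 𝓘(ℝ, E) (z i)).source := by
      rw [extChartAt_source]
      exact (b i).support_subset_source (by
        rw [Function.mem_support, hi']
        norm_num)
    refine (extChartAt 𝓘(ℝ, E) (z i)).injOn hx hy ?_
    apply (finBasis ℝ E).ext_elem
    intro m
    have h1 : b i x * cd (E := E) (z i) m x = b i y * cd (E := E) (z i) m y := hxy (i, some m)
    rw [hi, hi', one_mul, one_mul] at h1
    exact h1

end Pool.Agent.Lib.MP_df705a_gt.Perm
end
end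

section

/-!
# Partitions of unity
-/

open scoped Manifold ContDiff Topology
open Set Bundle Module Filter MeasureTheory

noncomputable section

namespace Pool.Agent.Lib.MP_df705a_gt.Coll

open Pool.Agent.Lib.MP_df705a_gt.Twist Pool.Agent.Lib.MP_df705a_gt.Perm
open Pool.Agent.Lib.MP_df705a_gt.Circ (Horizontal Submersion cf Para HorConf)
open Pool.Agent.Lib.MP_df705a_gt.Fib (RiemSub Biconformal)

variable {E : Type*} [NormedAddCommGroup E] [NormedSpace ℝ E] [FiniteDimensional ℝ E]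
  {M : Type*} [TopologicalSpace M] [ChartedSpace E M] [IsManifold 𝓘(ℝ, E) ∞ M]

/-- A finite smooth partition of unity subordinate to the charts. Proof: the bump functions of
`Perm.R1.cover` (Perm/RhoData.lean), divided by their sum. -/
theorem exists_part (E : Type*) [NormedAddCommGroup E] [NormedSpace ℝ E] [FiniteDimensional ℝ E]
    (M : Type*) [TopologicalSpace M] [ChartedSpace E M] [IsManifold 𝓘(ℝ, E) ∞ M]
    [CompactSpace M] [T2Space M] :
    ∃ (N : ℕ) (z : Fin N → M) (ρ : Fin N → M → ℝ), (∀ i, Sm E (ρ i)) ∧ (∀ i x, 0 ≤ ρ i x) ∧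
      (∀ i, tsupport (ρ i) ⊆ (extChartAt 𝓘(ℝ, E) (z i)).source) ∧ ∀ x, ∑ i, ρ i x = 1 := by
  obtain ⟨N, z, b, hb⟩ := Perm.R1.cover E M
  let S : M → ℝ := fun x => ∑ i, b i x
  have hbs : ∀ i, Sm E (b i) := fun i => (b i).contMDiff
  have hSs : Sm E S := contMDiff_finsetSum fun i _ => hbs i
  have hS : ∀ x, 0 < S x := by
    intro x
    obtain ⟨i, hi⟩ := hb x
    refine Finset.sum_pos' (fun j _ => (b j).nonneg) ⟨i, Finset.mem_univ i, ?_⟩
    rw [hi]
    norm_num
  have hSi : Sm E (fun x => (S x)⁻¹) := by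
    intro x
    exact ContMDiffAt.comp x (contDiffAt_inv ℝ (hS x).ne').contMDiffAt (hSs x)
  refine ⟨N, z, fun i x => b i x * (S x)⁻¹, fun i => (hbs i).mul hSi,
    fun i x => mul_nonneg (b i).nonneg (inv_nonneg.2 (hS x).le), fun i => ?_, fun x => ?_⟩
  · refine (tsupport_mul_subset_left (f := b i) (g := fun x => (S x)⁻¹)).trans ?_
    rw [extChartAt_source]
    exact (b i).tsupport_subset_chartAt_source
  · rw [← Finset.sum_mul]
    exact mul_inv_cancel₀ (hS x).ne'

end Pool.Agent.Lib.MP_df705a_gt.Coll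
end
end

section

/-!
# R: existence of the Riemannian measure
-/

open scoped Manifold ContDiff Topology
open Set Bundle Module Filter MeasureTheory

noncomputable section

namespace Pool.Agent.Lib.MP_df705a_gt.Coll

open Pool.Agent.Lib.MP_df705a_gt.Twist Pool.Agent.Lib.MP_df705a_gt.Perm
open Pool.Agent.Lib.MP_df705a_gt.Circ (cf Para)

variable {E : Type*} [NormedAddCommGroup E] [NormedSpace ℝ E] [FiniteDimensional ℝ E]
  {M : Type*} [TopologicalSpace M] [ChartedSpace E M] [IsManifold 𝓘(ℝ, E) ∞ M]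
  [MeasurableSpace E] [BorelSpace E] [MeasurableSpace M] [BorelSpace M]
  [CompactSpace M] [T2Space M]

/-- Existence of the Riemannian measure.
Proof: take `N, z, ρ` from `exists_part E M` and `μ = ∑ i, chartMeas g (z i) (ρ i)` (finite sum of
finite measures, `chartMeas_finite`; `Measure.sum` over `Fin N` or `Finset.sum`). For `f`
continuous with support in the source of the chart at `z₀`:
`∫ f dμ = ∑ i, ∫ f d(chartMeas g (z i) (ρ i))` (`integral_finsetSum_measure` or induction with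
`integral_add_measure`; `f` is integrable for each finite measure because it is continuous on a
compact space, `Continuous.integrable_of_hasCompactSupport`), by `chartMeas_integral` the `i`-th
term is `∫ y in target (z i), (ρ i * f) (symm y) * √ det`, by `integral_chart_chart` (the support of
`ρ i * f` is contained in both sources: `tsupport_mul_subset_left`, `tsupport_mul_subset_right`) it
is `∫ y in target z₀, (ρ i * f) (symm y) * √ det`, and the sum over `i` is the integral of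
`(∑ i, ρ i * f) = f` (`integral_finset_sum` with `integrableOn_chart`, `coeff_det_cont`). -/
theorem exists_rvol (g : Met E M) : ∃ μ : Measure M, IsRVol g μ := by
  obtain ⟨N, z, ρ, h1, h2, h3, h4⟩ := exists_part E M
  have hρ : ∀ i, Continuous (ρ i) := fun i => (h1 i).continuous
  have hfin : ∀ i, IsFiniteMeasure (chartMeas g (z i) (ρ i)) := fun i =>
    chartMeas_finite g (z i) (hρ i) (h3 i)
  refine ⟨∑ i, chartMeas g (z i) (ρ i), ⟨?_, ?_⟩⟩
  · infer_instance
  · intro z₀ f hf hz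
    have hint : ∀ i, Integrable f (chartMeas g (z i) (ρ i)) := fun i =>
      hf.integrable_of_hasCompactSupport (HasCompactSupport.of_compactSpace f)
    rw [integral_finsetSum_measure fun i _ => hint i]
    have hs1 : ∀ i, tsupport (fun p => ρ i p * f p) ⊆ (extChartAt 𝓘(ℝ, E) (z i)).source :=
      fun i => (tsupport_mul_subset_left (f := ρ i) (g := f)).trans (h3 i)
    have hs2 : ∀ i, tsupport (fun p => ρ i p * f p) ⊆ (extChartAt 𝓘(ℝ, E) z₀).source :=
      fun i => (tsupport_mul_subset_right (f := ρ i) (g := f)).trans hz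
    have h5 : ∀ i, ∫ p, f p ∂(chartMeas g (z i) (ρ i)) =
        ∫ y in (extChartAt 𝓘(ℝ, E) z₀).target,
          (ρ i ((extChartAt 𝓘(ℝ, E) z₀).symm y) * f ((extChartAt 𝓘(ℝ, E) z₀).symm y)) *
            √ (coeff g z₀ y).det ∂(finBasis ℝ E).addHaar := by
      intro i
      rw [chartMeas_integral g (z i) (hρ i) (h2 i) hf]
      exact integral_chart_chart g (z i) z₀ (f := fun p => ρ i p * f p) (hs1 i) (hs2 i)
    rw [Finset.sum_congr rfl fun i _ => h5 i, ← integral_finsetSum]
    · refine integral_congr_ae (Eventually.of_forall fun y => ?_)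
      change ∑ i, (ρ i ((extChartAt 𝓘(ℝ, E) z₀).symm y) * f ((extChartAt 𝓘(ℝ, E) z₀).symm y)) *
            √ (coeff g z₀ y).det = f ((extChartAt 𝓘(ℝ, E) z₀).symm y) * √ (coeff g z₀ y).det
      rw [← Finset.sum_mul, ← Finset.sum_mul, h4, one_mul]
    · intro i _
      exact integrableOn_chart z₀ ((hρ i).mul hf) (hs2 i) (F := fun y => √ (coeff g z₀ y).det)
        (coeff_det_cont g z₀).sqrt

end Pool.Agent.Lib.MP_df705a_gt.Coll
end
end

section

/-!
# TASK R2: the two point function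
-/

open scoped Manifold ContDiff Topology
open Set Bundle Module Filter

noncomputable section

namespace Pool.Agent.Lib.MP_df705a_gt.Perm

open Pool.Agent.Lib.MP_df705a_gt.Twist

variable {E : Type*} [NormedAddCommGroup E] [NormedSpace ℝ E] [FiniteDimensional ℝ E]
  {M : Type*} [TopologicalSpace M] [ChartedSpace E M] [IsManifold 𝓘(ℝ, E) ∞ M]

/-- The expression of a function of two points in the chart at `z`. -/
def rd₂ (E : Type*) [NormedAddCommGroup E] [NormedSpace ℝ E] {M : Type*} [TopologicalSpace M]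
    [ChartedSpace E M] (z : M) (ρ : M × M → ℝ) (q : E × E) : ℝ :=
  ρ ((extChartAt 𝓘(ℝ, E) z).symm q.1, (extChartAt 𝓘(ℝ, E) z).symm q.2)

/-! ### The second derivative on the diagonal -/

section hess

variable {κ : Type} [Fintype κ]

/-- The algebraic expression of the two point function. -/
private def rfun {X : Type*} (F : κ → X → ℝ) (C : κ → κ → X → ℝ) (x y : X) : ℝ :=
  (∑ k, ∑ l, (1 / 2 * (C k l x + C k l y)) * ((F k x - F k y) * (F l x - F l y))) +
    ∑ k, (F k x - F k y) ^ 4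

/-- The first derivative of the two point function in its first argument. -/
private def rder (F : κ → E → ℝ) (C : κ → κ → E → ℝ) (v y x : E) : ℝ :=
  (∑ k, ∑ l, ((1 / 2 * (C k l x + C k l y)) *
      ((F k x - F k y) * fderiv ℝ (F l) x v + (F l x - F l y) * fderiv ℝ (F k) x v) +
      ((F k x - F k y) * (F l x - F l y)) * (1 / 2 * fderiv ℝ (C k l) x v))) +
    ∑ k, 4 * (F k x - F k y) ^ 3 * fderiv ℝ (F k) x v

omit [FiniteDimensional ℝ E] in
private theorem rfun_deriv {U : Set E} {F : κ → E → ℝ} {C : κ → κ → E → ℝ}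
    (hF : ∀ k, ∀ x ∈ U, ContDiffAt ℝ ∞ (F k) x) (hC : ∀ k l, ∀ x ∈ U, ContDiffAt ℝ ∞ (C k l) x)
    (y v : E) {x : E} (hx : x ∈ U) :
    fderiv ℝ (fun x => rfun F C x y) x v = rder F C v y x := by
  have dF : ∀ k, HasFDerivAt (F k) (fderiv ℝ (F k) x) x := fun k =>
    ((hF k x hx).differentiableAt (by simp)).hasFDerivAt
  have dC : ∀ k l, HasFDerivAt (C k l) (fderiv ℝ (C k l) x) x := fun k l =>
    ((hC k l x hx).differentiableAt (by simp)).hasFDerivAt
  have dF' : ∀ k, HasFDerivAt (fun x => F k x - F k y) (fderiv ℝ (F k) x) x := fun k =>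
    (dF k).sub_const _
  have dC' : ∀ k l, HasFDerivAt (fun x => 1 / 2 * (C k l x + C k l y))
      ((1 / 2 : ℝ) • fderiv ℝ (C k l) x) x := fun k l => ((dC k l).add_const _).const_mul _
  have h1 : HasFDerivAt (fun x => rfun F C x y) _ x :=
    (HasFDerivAt.fun_sum (u := Finset.univ) fun k _ => HasFDerivAt.fun_sum (u := Finset.univ)
      fun l _ => (dC' k l).mul ((dF' k).mul (dF' l))).add
      (HasFDerivAt.fun_sum (u := Finset.univ) fun k _ => (dF' k).pow 4)
  rw [h1.fderiv]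
  unfold rder
  simp only [add_apply, sum_apply, smul_apply, smul_eq_mul]
  norm_num

omit [FiniteDimensional ℝ E] in
private theorem rder_deriv {U : Set E} {F : κ → E → ℝ} {C : κ → κ → E → ℝ}
    (hF : ∀ k, ∀ x ∈ U, ContDiffAt ℝ ∞ (F k) x) (hC : ∀ k l, ∀ x ∈ U, ContDiffAt ℝ ∞ (C k l) x)
    (hS : ∀ k l x, C k l x = C l k x)
    {y : E} (hy : y ∈ U) (v w : E) :
    fderiv ℝ (rder F C v y) y w =
      2 * ∑ k, ∑ l, C k l y * (fderiv ℝ (F k) y v * fderiv ℝ (F l) y w) := by
  have dF : ∀ k, HasFDerivAt (F k) (fderiv ℝ (F k) y) y := fun k =>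
    ((hF k y hy).differentiableAt (by simp)).hasFDerivAt
  have dC : ∀ k l, HasFDerivAt (C k l) (fderiv ℝ (C k l) y) y := fun k l =>
    ((hC k l y hy).differentiableAt (by simp)).hasFDerivAt
  have dF' : ∀ k, HasFDerivAt (fun x => F k x - F k y) (fderiv ℝ (F k) y) y := fun k =>
    (dF k).sub_const _
  have dC' : ∀ k l, HasFDerivAt (fun x => 1 / 2 * (C k l x + C k l y))
      ((1 / 2 : ℝ) • fderiv ℝ (C k l) y) y := fun k l => ((dC k l).add_const _).const_mul _
  have ddF : ∀ k, HasFDerivAt (fun x => fderiv ℝ (F k) x v)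
      (fderiv ℝ (fun x => fderiv ℝ (F k) x v) y) y := by
    intro k
    have h1 : ContDiffAt ℝ ∞ (fderiv ℝ (F k)) y := (hF k y hy).fderiv_right (by simp)
    exact ((h1.differentiableAt (by simp)).clm_apply (differentiableAt_const v)).hasFDerivAt
  have ddC : ∀ k l, HasFDerivAt (fun x => 1 / 2 * fderiv ℝ (C k l) x v)
      (fderiv ℝ (fun x => 1 / 2 * fderiv ℝ (C k l) x v) y) y := by
    intro k l
    have h1 : ContDiffAt ℝ ∞ (fderiv ℝ (C k l)) y := (hC k l y hy).fderiv_right (by simp)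
    exact (((h1.differentiableAt (by simp)).clm_apply
      (differentiableAt_const v)).const_mul _).hasFDerivAt
  have h1 : HasFDerivAt (rder F C v y) _ y :=
    (HasFDerivAt.fun_sum (u := Finset.univ) fun k _ => HasFDerivAt.fun_sum (u := Finset.univ)
      fun l _ => ((dC' k l).mul (((dF' k).mul (ddF l)).add ((dF' l).mul (ddF k)))).add
        (((dF' k).mul (dF' l)).mul (ddC k l))).add
      (HasFDerivAt.fun_sum (u := Finset.univ) fun k _ => (((dF' k).pow 3).const_mul 4).mul (ddF k))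
  rw [h1.fderiv]
  simp only [add_apply, sum_apply, smul_apply, smul_eq_mul, sub_self]
  have h2 : ∑ k, ∑ l, C k l y * (fderiv ℝ (F l) y v * fderiv ℝ (F k) y w) =
      ∑ k, ∑ l, C k l y * (fderiv ℝ (F k) y v * fderiv ℝ (F l) y w) := by
    rw [Finset.sum_comm]
    apply Finset.sum_congr rfl
    intro k _
    apply Finset.sum_congr rfl
    intro l _
    rw [hS l k]
  rw [two_mul]
  nth_rewrite 1 [← h2]
  rw [← Finset.sum_add_distrib]
  have haux : ∀ a b c : ℝ, a = c → b = 0 → a + b = c := by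
    intro a b c h h'
    rw [h, h', add_zero]
  refine Eq.trans (Finset.sum_congr rfl fun k _ => ?_) Finset.sum_add_distrib
  refine haux _ _ _ ?_ (by norm_num)
  rw [← Finset.sum_add_distrib]
  apply Finset.sum_congr rfl
  intro l _
  simp only [Pi.add_apply, Pi.mul_apply, sub_self]
  ring

end hess

/-- The two point function
`ρ(x, y) = ∑ ½ (c k l x + c k l y) (f k x - f k y) (f l x - f l y) + ∑ (f k x - f k y)^4`. -/
theorem exists_rho [CompactSpace M] [T2Space M]
    (g : ContMDiffRiemannianMetric 𝓘(ℝ, E) ∞ E (fun x : M => TangentSpace 𝓘(ℝ, E) x)) :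
    ∃ ρ : M × M → ℝ, ContMDiff (𝓘(ℝ, E).prod 𝓘(ℝ, E)) 𝓘(ℝ, ℝ) ∞ ρ ∧
      (∀ x y, ρ (x, y) = ρ (y, x)) ∧ (∀ x, ρ (x, x) = 0) ∧ (∀ x y, x ≠ y → 0 < ρ (x, y)) ∧
      ∀ z : M, LocData (coeff g z) (rd₂ E z ρ) (extChartAt 𝓘(ℝ, E) z).target := by
  classical
  obtain ⟨κ, _, f, c, hf, hc, hcs, hcp, hg, hsep⟩ := exists_data g
  have hpos0 : ∀ x y, 0 ≤ ∑ k, ∑ l, (1 / 2 * (c k l x + c k l y)) *
      ((f k x - f k y) * (f l x - f l y)) := by
    intro x y
    have h1 := hcp x (fun k => f k x - f k y)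
    have h2 := hcp y (fun k => f k x - f k y)
    have h3 : ∑ k, ∑ l, (1 / 2 * (c k l x + c k l y)) * ((f k x - f k y) * (f l x - f l y)) =
        1 / 2 * (∑ k, ∑ l, c k l x * ((f k x - f k y) * (f l x - f l y))) +
        1 / 2 * (∑ k, ∑ l, c k l y * ((f k x - f k y) * (f l x - f l y))) := by
      simp only [Finset.mul_sum, ← Finset.sum_add_distrib]
      apply Finset.sum_congr rfl
      intro k _
      apply Finset.sum_congr rfl
      intro l _
      ring
    rw [h3]
    linarith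
  have hpos1 : ∀ x y, 0 ≤ ∑ k, (f k x - f k y) ^ 4 := fun x y =>
    Finset.sum_nonneg fun k _ => by positivity
  have hrd : ∀ (z : M) (q : E × E), rd₂ E z (fun p : M × M => rfun f c p.1 p.2) q =
      rfun (fun k => rd E z (f k)) (fun k l => rd E z (c k l)) q.1 q.2 := fun _ _ => rfl
  have hF : ∀ (z : M) k, ∀ x ∈ (extChartAt 𝓘(ℝ, E) z).target,
      ContDiffAt ℝ ∞ (rd E z (f k)) x := fun z k x hx => read_contDiffAt 𝓘(ℝ, E) (hf k) hx
  have hC : ∀ (z : M) k l, ∀ x ∈ (extChartAt 𝓘(ℝ, E) z).target,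
      ContDiffAt ℝ ∞ (rd E z (c k l)) x := fun z k l x hx => read_contDiffAt 𝓘(ℝ, E) (hc k l) hx
  refine ⟨fun p => rfun f c p.1 p.2, ?_, ?_, ?_, ?_, ?_⟩
  · have hf1 : ∀ k, ContMDiff (𝓘(ℝ, E).prod 𝓘(ℝ, E)) 𝓘(ℝ, ℝ) ∞
        (fun p : M × M => f k p.1) := fun k => (hf k).comp contMDiff_fst
    have hf2 : ∀ k, ContMDiff (𝓘(ℝ, E).prod 𝓘(ℝ, E)) 𝓘(ℝ, ℝ) ∞
        (fun p : M × M => f k p.2) := fun k => (hf k).comp contMDiff_snd
    have hc1 : ∀ k l, ContMDiff (𝓘(ℝ, E).prod 𝓘(ℝ, E)) 𝓘(ℝ, ℝ) ∞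
        (fun p : M × M => c k l p.1) := fun k l => (hc k l).comp contMDiff_fst
    have hc2 : ∀ k l, ContMDiff (𝓘(ℝ, E).prod 𝓘(ℝ, E)) 𝓘(ℝ, ℝ) ∞
        (fun p : M × M => c k l p.2) := fun k l => (hc k l).comp contMDiff_snd
    have hd : ∀ k, ContMDiff (𝓘(ℝ, E).prod 𝓘(ℝ, E)) 𝓘(ℝ, ℝ) ∞
        (fun p : M × M => f k p.1 - f k p.2) := fun k => (hf1 k).sub (hf2 k)
    exact (contMDiff_finsetSum fun k _ => contMDiff_finsetSum fun l _ =>
      (contMDiff_const.mul ((hc1 k l).add (hc2 k l))).mul ((hd k).mul (hd l))).add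
      (contMDiff_finsetSum fun k _ => (hd k).pow 4)
  · intro x y
    change rfun f c x y = rfun f c y x
    unfold rfun
    congr 1
    · apply Finset.sum_congr rfl
      intro k _
      apply Finset.sum_congr rfl
      intro l _
      ring
    · apply Finset.sum_congr rfl
      intro k _
      ring
  · intro x
    change rfun f c x x = 0
    simp [rfun]
  · intro x y hxy
    change 0 < rfun f c x y
    have h1 : ∃ k, f k x ≠ f k y := by
      by_contra hcon
      push Not at hcon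
      exact hxy (hsep x y hcon)
    obtain ⟨k, hk⟩ := h1
    have h2 : 0 < ∑ k, (f k x - f k y) ^ 4 := by
      apply Finset.sum_pos' (fun k _ => by positivity)
      exact ⟨k, Finset.mem_univ _, by have := sub_ne_zero.mpr hk; positivity⟩
    have h3 := hpos0 x y
    unfold rfun
    linarith
  · intro z
    set U := (extChartAt 𝓘(ℝ, E) z).target with hU
    have hUo : IsOpen U := isOpen_extChartAt_target z
    refine ⟨hUo, ?_, ?_, ?_, ?_, ?_, ?_, ?_⟩
    · exact chartMetric_smooth 𝓘(ℝ, E) (finBasis ℝ E) g z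
    · intro y hy
      exact chartMetric_posDef 𝓘(ℝ, E) (finBasis ℝ E) g z hy
    · have hF' : ∀ k, ContDiffOn ℝ ∞ (rd E z (f k)) U := fun k x hx =>
        (hF z k x hx).contDiffWithinAt
      have hC' : ∀ k l, ContDiffOn ℝ ∞ (rd E z (c k l)) U := fun k l x hx =>
        (hC z k l x hx).contDiffWithinAt
      have hf1 : ∀ k, ContDiffOn ℝ ∞ (fun p : E × E => rd E z (f k) p.1) (U ×ˢ U) := fun k =>
        (hF' k).comp contDiff_fst.contDiffOn fun p hp => hp.1
      have hf2 : ∀ k, ContDiffOn ℝ ∞ (fun p : E × E => rd E z (f k) p.2) (U ×ˢ U) := fun k =>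
        (hF' k).comp contDiff_snd.contDiffOn fun p hp => hp.2
      have hc1 : ∀ k l, ContDiffOn ℝ ∞ (fun p : E × E => rd E z (c k l) p.1) (U ×ˢ U) :=
        fun k l => (hC' k l).comp contDiff_fst.contDiffOn fun p hp => hp.1
      have hc2 : ∀ k l, ContDiffOn ℝ ∞ (fun p : E × E => rd E z (c k l) p.2) (U ×ˢ U) :=
        fun k l => (hC' k l).comp contDiff_snd.contDiffOn fun p hp => hp.2
      have hd : ∀ k, ContDiffOn ℝ ∞ (fun p : E × E => rd E z (f k) p.1 - rd E z (f k) p.2)
        (U ×ˢ U) := fun k => (hf1 k).sub (hf2 k)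
      exact (ContDiffOn.sum fun k _ => ContDiffOn.sum fun l _ =>
        (contDiffOn_const.mul ((hc1 k l).add (hc2 k l))).mul ((hd k).mul (hd l))).add
        (ContDiffOn.sum fun k _ => (hd k).pow 4)
    · intro x _ y _
      rw [hrd, hrd]
      unfold rfun
      congr 1
      · apply Finset.sum_congr rfl
        intro k _
        apply Finset.sum_congr rfl
        intro l _
        ring
      · apply Finset.sum_congr rfl
        intro k _
        ring
    · intro x _
      rw [hrd]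
      simp [rfun]
    · intro x _ y _
      exact add_nonneg (hpos0 _ _) (hpos1 _ _)
    · intro y hy v w
      have h1 : (fun x => fderiv ℝ (fun x => rd₂ E z (fun p : M × M => rfun f c p.1 p.2) (x, y)) x v)
          =ᶠ[𝓝 y] rder (fun k => rd E z (f k)) (fun k l => rd E z (c k l)) v y := by
        filter_upwards [hUo.mem_nhds hy] with x hx
        exact rfun_deriv (hF z) (hC z) y v hx
      rw [h1.fderiv_eq, rder_deriv (hF z) (hC z) (fun k l x => hcs k l _) hy]
      congr 1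
      have h2 : hB (coeff g z) y v w = mform 𝓘(ℝ, E) g z y v w := by
        conv_rhs => rw [← (finBasis ℝ E).sum_repr v, ← (finBasis ℝ E).sum_repr w]
        rw [bilin_sum]
        unfold hB
        apply Finset.sum_congr rfl
        intro i _
        apply Finset.sum_congr rfl
        intro j _
        rw [coeff_eq, chartMetric_eq]
        ring
      rw [h2]
      refine Eq.trans ?_ (hg ((extChartAt 𝓘(ℝ, E) z).symm y)
        (mfderiv 𝓘(ℝ, E) 𝓘(ℝ, E) (extChartAt 𝓘(ℝ, E) z).symm y v)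
        (mfderiv 𝓘(ℝ, E) 𝓘(ℝ, E) (extChartAt 𝓘(ℝ, E) z).symm y w))
      have h3 : ∀ k (u : E), fderiv ℝ (rd E z (f k)) y u =
          dfun (E := E) f k ((extChartAt 𝓘(ℝ, E) z).symm y)
            (mfderiv 𝓘(ℝ, E) 𝓘(ℝ, E) (extChartAt 𝓘(ℝ, E) z).symm y u) := by
        intro k u
        have h4 := mfderiv_comp (I := 𝓘(ℝ, E)) (I' := 𝓘(ℝ, E)) (I'' := 𝓘(ℝ, ℝ)) y
          ((hf k).mdifferentiable (by simp) ((extChartAt 𝓘(ℝ, E) z).symm y))
          (symm_mdiff 𝓘(ℝ, E) z hy)
        have h5 : fderiv ℝ (rd E z (f k)) y =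
          mfderiv 𝓘(ℝ, E) 𝓘(ℝ, ℝ) (f k ∘ (extChartAt 𝓘(ℝ, E) z).symm) y := by
          rw [mfderiv_eq_fderiv]
          rfl
        rw [h5, h4]
        rfl
      apply Finset.sum_congr rfl
      intro k _
      apply Finset.sum_congr rfl
      intro l _
      rw [h3 k v, h3 l w]
      rfl

end Pool.Agent.Lib.MP_df705a_gt.Perm
end
end

section

/-!
# The masses of the kernels
-/

open scoped Manifold ContDiff Topology
open Set Bundle Module Filter MeasureTheory

noncomputable section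

namespace Pool.Agent.Lib.MP_df705a_gt.Coll

open Pool.Agent.Lib.MP_df705a_gt.Twist Pool.Agent.Lib.MP_df705a_gt.Perm
open Pool.Agent.Lib.MP_df705a_gt.Circ (Horizontal Submersion cf Para HorConf)
open Pool.Agent.Lib.MP_df705a_gt.Fib (RiemSub Biconformal)

variable {E : Type*} [NormedAddCommGroup E] [NormedSpace ℝ E] [FiniteDimensional ℝ E]
  {M : Type*} [TopologicalSpace M] [ChartedSpace E M] [IsManifold 𝓘(ℝ, E) ∞ M]
  [MeasurableSpace E] [BorelSpace E] [MeasurableSpace M] [BorelSpace M]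
  [CompactSpace M] [T2Space M]
  {g : Met E M} {μ : Measure M}

private lemma mm_pos (N : ℕ) {s t : ℝ} (hs : 0 < s) (ht : 0 ≤ t) : 0 < ker N s t := by
  unfold Perm.ker
  positivity

private lemma mm_anti (N : ℕ) {s t t' : ℝ} (hs : 0 < s) (ht : 0 ≤ t) (h : t ≤ t') :
    ker N s t' ≤ ker N s t := by
  unfold Perm.ker
  exact inv_anti₀ (by positivity) (pow_le_pow_left₀ (by positivity) (by linarith) N)

omit [FiniteDimensional ℝ E] [MeasurableSpace E] [BorelSpace E] in
private lemma mm_scale (N : ℕ) {s : ℝ} (hs : 0 < s) (w : E) :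
    ker N s (‖w‖ ^ 2) = (s ^ N)⁻¹ * ker N 1 (‖(√s)⁻¹ • w‖ ^ 2) := by
  unfold Perm.ker
  have h1 : ‖(√s)⁻¹ • w‖ ^ 2 = ‖w‖ ^ 2 / s := by
    rw [norm_smul, mul_pow, norm_inv, inv_pow, Real.norm_of_nonneg (Real.sqrt_nonneg s),
      Real.sq_sqrt hs.le]
    ring
  rw [h1, ← mul_inv, ← mul_pow]
  congr 2
  field_simp

private lemma mm_int1 (ν : Measure E) [ν.IsAddHaarMeasure] {N : ℕ} (hN : finrank ℝ E < N) :
    Integrable (fun y : E => ker N 1 (‖y‖ ^ 2)) ν := by
  have h0 : (finrank ℝ E : ℝ) < 2 * (N : ℝ) := by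
    have h1 : (finrank ℝ E : ℝ) < N := by exact_mod_cast hN
    have h2 : (0 : ℝ) ≤ N := Nat.cast_nonneg _
    linarith
  refine (integrable_rpow_neg_one_add_norm_sq (μ := ν) h0).congr (Eventually.of_forall fun y => ?_)
  have h1 : (0 : ℝ) ≤ 1 + ‖y‖ ^ 2 := by positivity
  change (1 + ‖y‖ ^ 2) ^ (-(2 * (N : ℝ)) / 2) = ker N 1 (‖y‖ ^ 2)
  have h2 : -(2 * (N : ℝ)) / 2 = -(N : ℝ) := by ring
  rw [h2, Real.rpow_neg h1, Real.rpow_natCast, add_comm]
  rfl

private lemma mm_ints (ν : Measure E) [ν.IsAddHaarMeasure] {N : ℕ} (hN : finrank ℝ E < N) (x : E)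
    {s : ℝ} (hs : 0 < s) : Integrable (fun y : E => ker N s (‖y - x‖ ^ 2)) ν := by
  have h1 : Integrable (fun y : E => ker N s (‖y‖ ^ 2)) ν := by
    simp only [mm_scale N hs]
    refine Integrable.const_mul ?_ _
    exact (integrable_comp_smul_iff ν (fun y : E => ker N 1 (‖y‖ ^ 2))
      (inv_ne_zero (Real.sqrt_pos.2 hs).ne')).2 (mm_int1 ν hN)
  exact h1.comp_sub_right x

private lemma mm_eq (ν : Measure E) [ν.IsAddHaarMeasure] (N : ℕ) (x : E) {s : ℝ} (hs : 0 < s) :
    ∫ y, ker N s (‖y - x‖ ^ 2) ∂ν =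
      (∫ y, ker N 1 (‖y‖ ^ 2) ∂ν) * (√ s ^ finrank ℝ E / s ^ N) := by
  rw [integral_sub_right_eq_self (fun y : E => ker N s (‖y‖ ^ 2)) x]
  simp only [mm_scale N hs]
  rw [integral_const_mul, Measure.integral_comp_inv_smul_of_nonneg ν
    (fun y : E => ker N 1 (‖y‖ ^ 2)) (Real.sqrt_nonneg s), smul_eq_mul]
  ring

/-- The integral of the kernel in `E`: `∫ (|y - x|² + s) ^ (-N) dy` over balls, up to constants.
Proof: substitute `y = x + √ s • w`; `∫ (1 + |w|²) ^ (-N) dw < ∞` for `2 N > d`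
(`integrable_one_add_norm` and similar), for the lower bound restrict to `|w| ≤ 1`. -/
theorem ker_int_E (hd : 0 < finrank ℝ E) (ν : Measure E) [ν.IsAddHaarMeasure] {N : ℕ}
    (hN : finrank ℝ E < N) {r : ℝ} (hr : 0 < r) :
    ∃ c C : ℝ, 0 < c ∧ 0 < C ∧ ∀ (x : E) (s : ℝ), 0 < s → s ≤ 1 →
      c * √ s ^ finrank ℝ E / s ^ N ≤ ∫ y in Metric.ball x r, ker N s (‖y - x‖ ^ 2) ∂ν ∧
      ∫ y, ker N s (‖y - x‖ ^ 2) ∂ν ≤ C * √ s ^ finrank ℝ E / s ^ N := by
  have hnt : Nontrivial E := Module.nontrivial_of_finrank_pos hd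
  set m : ℝ := min r 1 with hm
  have hm0 : 0 < m := lt_min hr one_pos
  set v : ℝ := ν.real (Metric.ball (0 : E) 1) with hv
  have hv0 : 0 < v := by
    rw [hv, measureReal_def, ENNReal.toReal_pos_iff]
    exact ⟨Metric.measure_ball_pos ν 0 one_pos, measure_ball_lt_top⟩
  have hI : 0 ≤ ∫ y, ker N 1 (‖y‖ ^ 2) ∂ν :=
    integral_nonneg fun y => (mm_pos N one_pos (by positivity)).le
  refine ⟨((2 : ℝ) ^ N)⁻¹ * (m ^ finrank ℝ E * v), (∫ y, ker N 1 (‖y‖ ^ 2) ∂ν) + 1,
    by positivity, by linarith, fun x s hs hs1 => ⟨?_, ?_⟩⟩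
  · have hss : 0 < √s := Real.sqrt_pos.2 hs
    have hss1 : √s ≤ 1 := Real.sqrt_le_one.2 hs1
    have hsub : Metric.ball x (m * √s) ⊆ Metric.ball x r := by
      apply Metric.ball_subset_ball
      calc m * √s ≤ m * 1 := mul_le_mul_of_nonneg_left hss1 hm0.le
        _ = m := mul_one m
        _ ≤ r := min_le_left _ _
    have hint := mm_ints ν hN x hs
    have h1 : ∫ y in Metric.ball x (m * √s), ker N s (‖y - x‖ ^ 2) ∂ν ≤
        ∫ y in Metric.ball x r, ker N s (‖y - x‖ ^ 2) ∂ν :=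
      setIntegral_mono_set hint.integrableOn
        (Eventually.of_forall fun y => (mm_pos N hs (by positivity)).le) hsub.eventuallyLE
    have h2 : ((2 * s) ^ N)⁻¹ * ν.real (Metric.ball x (m * √s)) ≤
        ∫ y in Metric.ball x (m * √s), ker N s (‖y - x‖ ^ 2) ∂ν := by
      refine setIntegral_ge_of_const_le_real measurableSet_ball measure_ball_lt_top.ne ?_
        hint.integrableOn
      intro y hy
      unfold Perm.ker
      refine inv_anti₀ (by positivity) (pow_le_pow_left₀ (by positivity) ?_ N)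
      have h3 : ‖y - x‖ < m * √s := by
        rw [← dist_eq_norm]
        exact hy
      have h4 : ‖y - x‖ ≤ √s := by
        have : m * √s ≤ 1 * √s := mul_le_mul_of_nonneg_right (min_le_right _ _) hss.le
        linarith
      have h5 : ‖y - x‖ ^ 2 ≤ √s ^ 2 := pow_le_pow_left₀ (norm_nonneg _) h4 2
      rw [Real.sq_sqrt hs.le] at h5
      linarith
    have h3 : ν.real (Metric.ball x (m * √s)) = (m * √s) ^ finrank ℝ E * v := by
      rw [measureReal_def, Measure.addHaar_ball ν x (by positivity), ENNReal.toReal_mul,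
        ENNReal.toReal_ofReal (by positivity)]
      rfl
    refine le_trans (le_of_eq ?_) (h2.trans h1)
    rw [h3, mul_pow, mul_pow]
    field_simp
  · rw [mm_eq ν N x hs, mul_div_assoc]
    refine mul_le_mul_of_nonneg_right (by linarith) (by positivity)

private lemma mm_arg_le (N : ℕ) {s t u c : ℝ} (hs : 0 < s) (ht : 0 ≤ t) (hc : 0 < c) (hc1 : c ≤ 1)
    (h : c * t ≤ u) : ker N s u ≤ (c ^ N)⁻¹ * ker N s t := by
  unfold Perm.ker
  rw [← mul_inv, ← mul_pow]
  refine inv_anti₀ (by positivity) (pow_le_pow_left₀ (by positivity) ?_ N)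
  nlinarith

private lemma mm_arg_ge (N : ℕ) {s t u c : ℝ} (hs : 0 < s) (hu : 0 ≤ u) (hc1 : 1 ≤ c)
    (h : u ≤ c * t) : (c ^ N)⁻¹ * ker N s t ≤ ker N s u := by
  unfold Perm.ker
  rw [← mul_inv, ← mul_pow]
  refine inv_anti₀ (by positivity) (pow_le_pow_left₀ (by positivity) ?_ N)
  nlinarith

private lemma mm_A {d N : ℕ} (hN : d < N) {s : ℝ} (hs : 0 < s) (hs1 : s ≤ 1) :
    1 ≤ √ s ^ d / s ^ N := by
  rw [one_le_div (by positivity)]
  have h1 : s ≤ √s := by
    have h2 : √s * √s = s := Real.mul_self_sqrt hs.le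
    have h3 : √s ≤ 1 := Real.sqrt_le_one.2 hs1
    nlinarith [Real.sqrt_nonneg s]
  calc s ^ N ≤ s ^ d := pow_le_pow_of_le_one hs.le hs1 hN.le
    _ ≤ √s ^ d := pow_le_pow_left₀ hs.le h1 d

omit [MeasurableSpace M] [BorelSpace M] [CompactSpace M] [T2Space M] in
private lemma mm_kcont {ρ : M × M → ℝ} (hρ : Continuous ρ) (hn : ∀ q, 0 ≤ ρ q) (N : ℕ) {s : ℝ}
    (hs : 0 < s) (x : M) : Continuous fun y => ker N s (ρ (x, y)) := by
  unfold Perm.ker
  refine Continuous.inv₀ (by fun_prop) fun y => ?_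
  have := hn (x, y)
  positivity

private lemma mm_local (hd : 0 < finrank ℝ E) (hμ : IsRVol g μ) {ρ : M × M → ℝ}
    (hρ : ContMDiff (𝓘(ℝ, E).prod 𝓘(ℝ, E)) 𝓘(ℝ, ℝ) ∞ ρ) (hself : ∀ x, ρ (x, x) = 0)
    (hpos : ∀ x y, x ≠ y → 0 < ρ (x, y))
    (hD : ∀ z : M, LocData (coeff g z) (rd₂ E z ρ) (extChartAt 𝓘(ℝ, E) z).target) {N : ℕ}
    (hN : finrank ℝ E < N) (p : M) :
    ∃ c C : ℝ, 0 < c ∧ 0 < C ∧ ∀ᶠ x in 𝓝 p, ∀ s : ℝ, 0 < s → s ≤ 1 →
      c * (√ s ^ finrank ℝ E / s ^ N) ≤ ∫ y, ker N s (ρ (x, y)) ∂μ ∧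
      ∫ y, ker N s (ρ (x, y)) ∂μ ≤ C * (√ s ^ finrank ℝ E / s ^ N) := by
  have hfin := hμ.fin
  have hρc : Continuous ρ := hρ.continuous
  have hn : ∀ q, 0 ≤ ρ q := by
    rintro ⟨x, y⟩
    by_cases h : x = y
    · subst h
      exact (hself x).ge
    · exact (hpos x y h).le
  set φ := extChartAt 𝓘(ℝ, E) p with hφ
  set x₀ : E := φ p with hx₀
  have hTo : IsOpen φ.target := isOpen_extChartAt_target p
  have hx₀T : x₀ ∈ φ.target := mem_extChartAt_target p
  set ν : Measure E := (finBasis ℝ E).addHaar with hν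
  set dens : E → ℝ := fun y => √ (coeff g p y).det with hdens
  have hdc : ContinuousOn dens φ.target := by
    intro y hy
    refine ContinuousAt.continuousWithinAt ?_
    exact (contDiffAt_det (n := ∞) (fun i j => g3_coeff_smooth g p hy i j)).continuousAt.sqrt
  have hdp : ∀ y ∈ φ.target, 0 < dens y := fun y hy =>
    Real.sqrt_pos.2 (chartMetric_posDef 𝓘(ℝ, E) (finBasis ℝ E) g p hy).det_pos
  -- the radius
  obtain ⟨c₁, C₁, hc₁, hev⟩ := R_bounds (hD p) hx₀T
  obtain ⟨e1, he1, hb1⟩ := Metric.eventually_nhds_iff_ball.1 hev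
  obtain ⟨e2, he2, hb2⟩ := Metric.isOpen_iff.1 hTo x₀ hx₀T
  set r : ℝ := min e1 e2 / 2 with hr
  have hr0 : 0 < r := half_pos (lt_min he1 he2)
  have hre1 : r < e1 := lt_of_lt_of_le (half_lt_self (lt_min he1 he2)) (min_le_left _ _)
  have hre2 : r < e2 := lt_of_lt_of_le (half_lt_self (lt_min he1 he2)) (min_le_right _ _)
  have hcb : Metric.closedBall x₀ r ⊆ φ.target := fun y hy =>
    hb2 (Metric.mem_ball.2 ((Metric.mem_closedBall.1 hy).trans_lt hre2))
  have hRb : ∀ x ∈ Metric.closedBall x₀ r, ∀ y ∈ Metric.closedBall x₀ r,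
      c₁ * ‖x - y‖ ^ 2 ≤ rd₂ E p ρ (x, y) ∧ rd₂ E p ρ (x, y) ≤ C₁ * ‖x - y‖ ^ 2 := by
    intro x hx y hy
    refine hb1 (x, y) ?_
    rw [Metric.mem_ball, Prod.dist_eq]
    exact max_lt ((Metric.mem_closedBall.1 hx).trans_lt hre1)
      ((Metric.mem_closedBall.1 hy).trans_lt hre1)
  have hcomp : IsCompact (Metric.closedBall x₀ r) := isCompact_closedBall _ _
  obtain ⟨a, ha, hab⟩ := hcomp.exists_forall_le' (hdc.mono hcb) (a := 0)
    (fun y hy => hdp y (hcb hy))
  obtain ⟨b', hb'⟩ := (hcomp.image_of_continuousOn (hdc.mono hcb)).bddAbove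
  have hbb : ∀ y ∈ Metric.closedBall x₀ r, dens y ≤ b' := fun y hy => hb' ⟨y, hy, rfl⟩
  have hb0 : 0 < b' := (hdp x₀ hx₀T).trans_le (hbb x₀ (Metric.mem_closedBall_self hr0.le))
  -- the cut-off function
  let χ : SmoothBumpFunction 𝓘(ℝ, E) p :=
    { rIn := r / 2
      rOut := r
      rIn_pos := by positivity
      rIn_lt_rOut := by linarith
      closedBall_subset := fun y hy => hcb hy.1 }
  have hχc : Continuous χ := χ.continuous
  have hχs : tsupport χ ⊆ φ.source := χ.tsupport_subset_extChartAt_source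
  have hχ0 : ∀ y, 0 ≤ χ y := fun y => χ.nonneg
  have hχ1 : ∀ y, χ y ≤ 1 := fun y => χ.le_one
  have hχT : ∀ y ∈ φ.target, χ (φ.symm y) = χ.toContDiffBump y := by
    intro y hy
    have h1 : φ.symm y ∈ φ.source := φ.map_target hy
    have h2 := χ.eqOn_source (show φ.symm y ∈ (chartAt E p).source by
      rw [← extChartAt_source 𝓘(ℝ, E)]
      exact h1)
    rw [h2, Function.comp_apply]
    congr 1
    exact φ.right_inv hy
  have hχin : ∀ y ∈ Metric.closedBall x₀ (r / 2), χ (φ.symm y) = 1 := by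
    intro y hy
    have h1 : y ∈ Metric.closedBall x₀ r :=
      Metric.closedBall_subset_closedBall (by linarith) hy
    rw [hχT y (hcb h1)]
    exact χ.toContDiffBump.one_of_mem_closedBall hy
  have hχout : ∀ y ∈ φ.target, y ∉ Metric.ball x₀ r → χ (φ.symm y) = 0 := by
    intro y hy hyb
    rw [hχT y hy]
    exact χ.toContDiffBump.zero_of_le_dist (not_lt.1 hyb)
  -- the constants
  obtain ⟨cE, CE, hcE, hCE, hE⟩ := ker_int_E hd ν hN (show 0 < r / 4 by positivity)
  -- away from the diagonal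
  have hKF : IsCompact ((φ.symm '' Metric.closedBall x₀ (r / 4)) ×ˢ
      (φ.symm '' Metric.ball x₀ (r / 2))ᶜ) := by
    have hsub : Metric.closedBall x₀ (r / 4) ⊆ φ.target := fun y hy =>
      hcb (Metric.closedBall_subset_closedBall (by linarith) hy)
    have h1 : IsCompact (φ.symm '' Metric.closedBall x₀ (r / 4)) :=
      (isCompact_closedBall _ _).image_of_continuousOn
        ((continuousOn_extChartAt_symm p).mono hsub)
    refine h1.prod (IsClosed.isCompact ?_)
    rw [isClosed_compl_iff]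
    have hsub2 : Metric.ball x₀ (r / 2) ⊆ φ.target := fun y hy =>
      hcb (Metric.closedBall_subset_closedBall (by linarith) (Metric.ball_subset_closedBall hy))
    have h2 : φ.symm '' Metric.ball x₀ (r / 2) = φ.source ∩ φ ⁻¹' Metric.ball x₀ (r / 2) := by
      rw [φ.symm_image_eq_source_inter_preimage hsub2]
    rw [h2]
    exact isOpen_extChartAt_preimage' p Metric.isOpen_ball
  obtain ⟨δ, hδ, hδb⟩ := hKF.exists_forall_le' hρc.continuousOn (a := 0) (by
    rintro ⟨x, y⟩ ⟨hx, hy⟩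
    refine hpos x y ?_
    rintro rfl
    apply hy
    obtain ⟨x', hx', he⟩ := hx
    refine ⟨x', ?_, he⟩
    rw [Metric.mem_ball]
    exact (Metric.mem_closedBall.1 hx').trans_lt (by linarith))
  set c' : ℝ := min c₁ 1 with hc'
  have hc'0 : 0 < c' := lt_min hc₁ one_pos
  set C' : ℝ := max C₁ 1 with hC'
  have hC'1 : 1 ≤ C' := le_max_right _ _
  have hC'0 : 0 < C' := by linarith
  set A : ℝ → ℝ := fun s => √ s ^ finrank ℝ E / s ^ N with hA
  refine ⟨a * (C' ^ N)⁻¹ * cE, b' * (c' ^ N)⁻¹ * CE + (δ ^ N)⁻¹ * (μ.real univ) + 1,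
    by positivity, by positivity, ?_⟩
  have hV : φ.source ∩ φ ⁻¹' Metric.ball x₀ (r / 4) ∈ 𝓝 p := by
    refine (isOpen_extChartAt_preimage' p Metric.isOpen_ball).mem_nhds
      ⟨mem_extChartAt_source p, ?_⟩
    exact Metric.mem_ball_self (by positivity)
  filter_upwards [hV] with x hx s hs hs1
  obtain ⟨hxs, hxb⟩ := hx
  set x' : E := φ x with hx'
  have hxb' : x' ∈ Metric.ball x₀ (r / 4) := hxb
  have hsx : φ.symm x' = x := φ.left_inv hxs
  have hx'r : x' ∈ Metric.closedBall x₀ r :=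
    Metric.closedBall_subset_closedBall (by linarith) (Metric.ball_subset_closedBall hxb')
  have hkc := mm_kcont hρc hn N hs x
  have hA1 : 1 ≤ A s := mm_A hN hs hs1
  have hA0 : 0 < A s := by linarith
  -- the integral in the chart
  set F : E → ℝ := fun y => χ (φ.symm y) * ker N s (ρ (x, φ.symm y)) * dens y with hF
  have hchart : ∫ y, χ y * ker N s (ρ (x, y)) ∂μ = ∫ y in φ.target, F y ∂ν := by
    refine hμ.chart p (fun y => χ y * ker N s (ρ (x, y))) (hχc.mul hkc) ?_
    exact (tsupport_mul_subset_left).trans hχs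
  have hG := mm_ints ν hN x' hs
  have hG0 : ∀ y : E, 0 < ker N s (‖y - x'‖ ^ 2) := fun y => mm_pos N hs (by positivity)
  have hF0 : ∀ y ∈ φ.target, 0 ≤ F y := fun y hy =>
    mul_nonneg (mul_nonneg (hχ0 _) (mm_pos N hs (hn _)).le) (hdp y hy).le
  have hRx : ∀ y, ρ (x, φ.symm y) = rd₂ E p ρ (x', y) := by
    intro y
    unfold rd₂
    rw [← hφ, hsx]
  have hFle : ∀ y ∈ φ.target, F y ≤ b' * (c' ^ N)⁻¹ * ker N s (‖y - x'‖ ^ 2) := by
    intro y hy
    by_cases hyb : y ∈ Metric.ball x₀ r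
    · have hyr := Metric.ball_subset_closedBall hyb
      have h1 := (hRb x' hx'r y hyr).1
      have h2 : c' * ‖y - x'‖ ^ 2 ≤ ρ (x, φ.symm y) := by
        rw [hRx, norm_sub_rev]
        refine le_trans ?_ h1
        exact mul_le_mul_of_nonneg_right (min_le_left _ _) (by positivity)
      have h3 := mm_arg_le N hs (sq_nonneg ‖y - x'‖) hc'0 (min_le_right _ _) h2
      have h4 : χ (φ.symm y) * ker N s (ρ (x, φ.symm y)) ≤
          (c' ^ N)⁻¹ * ker N s (‖y - x'‖ ^ 2) := by
        refine le_trans ?_ h3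
        exact mul_le_of_le_one_left (mm_pos N hs (hn _)).le (hχ1 _)
      calc F y ≤ (c' ^ N)⁻¹ * ker N s (‖y - x'‖ ^ 2) * b' :=
            mul_le_mul h4 (hbb y hyr) (hdp y hy).le
              (mul_nonneg (by positivity) (hG0 y).le)
        _ = b' * (c' ^ N)⁻¹ * ker N s (‖y - x'‖ ^ 2) := by ring
    · have h1 : F y = 0 := by
        simp only [hF, hχout y hy hyb, zero_mul]
      rw [h1]
      exact mul_nonneg (by positivity) (hG0 y).le
  have hFge : ∀ y ∈ Metric.ball x' (r / 4), a * (C' ^ N)⁻¹ * ker N s (‖y - x'‖ ^ 2) ≤ F y := by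
    intro y hy
    have h0 : y ∈ Metric.closedBall x₀ (r / 2) := by
      rw [Metric.mem_closedBall]
      have e3 := Metric.mem_ball.1 hy
      have e4 := Metric.mem_ball.1 hxb'
      have e5 := dist_triangle y x' x₀
      linarith
    have hyr : y ∈ Metric.closedBall x₀ r := Metric.closedBall_subset_closedBall (by linarith) h0
    have h1 := (hRb x' hx'r y hyr).2
    have h2 : ρ (x, φ.symm y) ≤ C' * ‖y - x'‖ ^ 2 := by
      rw [hRx, norm_sub_rev]
      refine h1.trans ?_
      exact mul_le_mul_of_nonneg_right (le_max_left _ _) (by positivity)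
    have h3 := mm_arg_ge N hs (hn _) hC'1 h2
    have h4 : F y = ker N s (ρ (x, φ.symm y)) * dens y := by
      simp only [hF, hχin y h0, one_mul]
    rw [h4]
    calc a * (C' ^ N)⁻¹ * ker N s (‖y - x'‖ ^ 2) =
          (C' ^ N)⁻¹ * ker N s (‖y - x'‖ ^ 2) * a := by ring
      _ ≤ ker N s (ρ (x, φ.symm y)) * dens y :=
          mul_le_mul h3 (hab y hyr) ha.le (mm_pos N hs (hn _)).le
  have hballT : Metric.ball x' (r / 4) ⊆ φ.target := by
    intro y hy
    refine hcb ?_
    rw [Metric.mem_closedBall]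
    have e3 := Metric.mem_ball.1 hy
    have e4 := Metric.mem_ball.1 hxb'
    have e5 := dist_triangle y x' x₀
    linarith
  have hFc : ContinuousOn F φ.target := by
    have h1 : ContinuousOn (fun y => χ (φ.symm y) * ker N s (ρ (x, φ.symm y))) φ.target :=
      (hχc.mul hkc).comp_continuousOn (continuousOn_extChartAt_symm p)
    exact h1.mul hdc
  have hFint : IntegrableOn F φ.target ν := by
    have h1 : IntegrableOn F (Metric.closedBall x₀ r) ν :=
      (hFc.mono hcb).integrableOn_compact hcomp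
    have h2 : IntegrableOn F (φ.target \ Metric.closedBall x₀ r) ν := by
      refine (integrableOn_zero (μ := ν)).congr_fun ?_
        (hTo.measurableSet.diff Metric.isClosed_closedBall.measurableSet)
      intro y hy
      have h3 : y ∉ Metric.ball x₀ r := fun h => hy.2 (Metric.ball_subset_closedBall h)
      simp only [hF, hχout y hy.1 h3, zero_mul]
    refine (h1.union h2).mono_set ?_
    intro y hy
    by_cases h : y ∈ Metric.closedBall x₀ r
    · exact Or.inl h
    · exact Or.inr ⟨hy, h⟩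
  have hk1 : Integrable (fun y => χ y * ker N s (ρ (x, y))) μ :=
    (hχc.mul hkc).integrable_of_hasCompactSupport (HasCompactSupport.of_compactSpace _)
  have hk2 : Integrable (fun y => ker N s (ρ (x, y))) μ :=
    hkc.integrable_of_hasCompactSupport (HasCompactSupport.of_compactSpace _)
  have hkp : ∀ y, 0 ≤ ker N s (ρ (x, y)) := fun y => (mm_pos N hs (hn _)).le
  constructor
  · have h1 : ∫ y, χ y * ker N s (ρ (x, y)) ∂μ ≤ ∫ y, ker N s (ρ (x, y)) ∂μ :=
      integral_mono hk1 hk2 fun y => mul_le_of_le_one_left (hkp y) (hχ1 y)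
    rw [hchart] at h1
    have h2 : ∫ y in Metric.ball x' (r / 4), F y ∂ν ≤ ∫ y in φ.target, F y ∂ν :=
      setIntegral_mono_set hFint
        ((ae_restrict_iff' hTo.measurableSet).2 (Eventually.of_forall hF0)) hballT.eventuallyLE
    have h3 : ∫ y in Metric.ball x' (r / 4), a * (C' ^ N)⁻¹ * ker N s (‖y - x'‖ ^ 2) ∂ν ≤
        ∫ y in Metric.ball x' (r / 4), F y ∂ν :=
      setIntegral_mono_on (hG.integrableOn.const_mul _) (hFint.mono_set hballT)
        measurableSet_ball hFge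
    rw [integral_const_mul] at h3
    have h4 := (hE x' s hs hs1).1
    have h5 : a * (C' ^ N)⁻¹ * cE * A s = a * (C' ^ N)⁻¹ * (cE * √ s ^ finrank ℝ E / s ^ N) := by
      simp only [hA]
      ring
    rw [h5]
    exact ((mul_le_mul_of_nonneg_left h4 (by positivity)).trans h3).trans (h2.trans h1)
  · have h1 : ∫ y in φ.target, F y ∂ν ≤
        ∫ y in φ.target, b' * (c' ^ N)⁻¹ * ker N s (‖y - x'‖ ^ 2) ∂ν :=
      setIntegral_mono_on hFint (hG.integrableOn.const_mul _) hTo.measurableSet hFle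
    have h2 : ∫ y in φ.target, b' * (c' ^ N)⁻¹ * ker N s (‖y - x'‖ ^ 2) ∂ν ≤
        ∫ y, b' * (c' ^ N)⁻¹ * ker N s (‖y - x'‖ ^ 2) ∂ν :=
      setIntegral_le_integral (hG.const_mul _)
        (Eventually.of_forall fun y => mul_nonneg (by positivity) (hG0 y).le)
    have h12 := h1.trans h2
    rw [integral_const_mul] at h12
    have h3 := (hE x' s hs hs1).2
    have h4 : ∫ y, χ y * ker N s (ρ (x, y)) ∂μ ≤ b' * (c' ^ N)⁻¹ * CE * A s := by
      rw [hchart]
      refine h12.trans ?_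
      have h5 : b' * (c' ^ N)⁻¹ * CE * A s =
          b' * (c' ^ N)⁻¹ * (CE * √ s ^ finrank ℝ E / s ^ N) := by
        simp only [hA]
        ring
      rw [h5]
      exact mul_le_mul_of_nonneg_left h3 (by positivity)
    have h5 : ∀ y, ker N s (ρ (x, y)) ≤ χ y * ker N s (ρ (x, y)) + (δ ^ N)⁻¹ := by
      intro y
      by_cases hy : y ∈ φ.symm '' Metric.ball x₀ (r / 2)
      · obtain ⟨y', hy', rfl⟩ := hy
        rw [hχin y' (Metric.ball_subset_closedBall hy'), one_mul]
        have : 0 < (δ ^ N)⁻¹ := by positivity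
        linarith
      · have h6 := hδb (x, y) ⟨⟨x', Metric.ball_subset_closedBall hxb', hsx⟩, hy⟩
        have h7 : ker N s (ρ (x, y)) ≤ (δ ^ N)⁻¹ := by
          unfold Perm.ker
          exact inv_anti₀ (by positivity) (pow_le_pow_left₀ hδ.le (by linarith) N)
        have h8 : 0 ≤ χ y * ker N s (ρ (x, y)) := mul_nonneg (hχ0 y) (hkp y)
        linarith
    have h6 : ∫ y, ker N s (ρ (x, y)) ∂μ ≤
        ∫ y, (χ y * ker N s (ρ (x, y)) + (δ ^ N)⁻¹) ∂μ :=
      integral_mono hk2 (hk1.add (integrable_const _)) h5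
    rw [integral_add hk1 (integrable_const _), integral_const, smul_eq_mul] at h6
    have h7 : μ.real univ * (δ ^ N)⁻¹ ≤ (δ ^ N)⁻¹ * μ.real univ * A s := by
      have : 0 ≤ (δ ^ N)⁻¹ * μ.real univ := by positivity
      nlinarith
    nlinarith

/-- The mass of the kernel is comparable to `s ^ (d / 2 - N)`, uniformly. Proof: near the diagonal
`c ‖x - y‖² ≤ ρ ≤ C ‖x - y‖²` in charts (`Perm.R_bounds`), away from it `ρ` is bounded below;
finitely many charts (compactness of the diagonal); `IsRVol.chart` with continuous cut-off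
functions; `√ s ^ d / s ^ N ≥ 1`. -/
theorem mass_bounds (hd : 0 < finrank ℝ E) (hμ : IsRVol g μ) {ρ : M × M → ℝ}
    (hρ : ContMDiff (𝓘(ℝ, E).prod 𝓘(ℝ, E)) 𝓘(ℝ, ℝ) ∞ ρ) (hself : ∀ x, ρ (x, x) = 0)
    (hpos : ∀ x y, x ≠ y → 0 < ρ (x, y))
    (hD : ∀ z : M, LocData (coeff g z) (rd₂ E z ρ) (extChartAt 𝓘(ℝ, E) z).target) {N : ℕ}
    (hN : finrank ℝ E < N) :
    ∃ c C : ℝ, 0 < c ∧ 0 < C ∧ ∀ (x : M) (s : ℝ), 0 < s → s ≤ 1 →
      c * √ s ^ finrank ℝ E / s ^ N ≤ ∫ y, ker N s (ρ (x, y)) ∂μ ∧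
      ∫ y, ker N s (ρ (x, y)) ∂μ ≤ C * √ s ^ finrank ℝ E / s ^ N := by
  choose c C hc hC hev using mm_local hd hμ hρ hself hpos hD hN
  obtain ⟨t, ht⟩ := CompactSpace.elim_nhds_subcover _ hev
  have hc0 : ∀ p ∈ t, 0 ≤ (c p)⁻¹ := fun p _ => (inv_pos.2 (hc p)).le
  have hC0 : ∀ p ∈ t, 0 ≤ C p := fun p _ => (hC p).le
  have hs1 : 0 ≤ ∑ p ∈ t, (c p)⁻¹ := Finset.sum_nonneg hc0
  have hs2 : 0 ≤ ∑ p ∈ t, C p := Finset.sum_nonneg hC0
  refine ⟨(∑ p ∈ t, (c p)⁻¹ + 1)⁻¹, ∑ p ∈ t, C p + 1, by positivity, by positivity,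
    fun x s hs hs' => ?_⟩
  have hx : x ∈ ⋃ p ∈ t, {x | ∀ s : ℝ, 0 < s → s ≤ 1 →
      c p * (√ s ^ finrank ℝ E / s ^ N) ≤ ∫ y, ker N s (ρ (x, y)) ∂μ ∧
      ∫ y, ker N s (ρ (x, y)) ∂μ ≤ C p * (√ s ^ finrank ℝ E / s ^ N)} := by
    rw [ht]
    trivial
  simp only [mem_iUnion] at hx
  obtain ⟨p, hp, hx⟩ := hx
  obtain ⟨h1, h2⟩ := hx s hs hs'
  have hA : 0 ≤ √ s ^ finrank ℝ E / s ^ N := by positivity
  rw [mul_div_assoc, mul_div_assoc]
  constructor
  · refine le_trans (mul_le_mul_of_nonneg_right ?_ hA) h1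
    rw [inv_le_comm₀ (by positivity) (hc p)]
    have := Finset.single_le_sum hc0 hp
    linarith
  · refine h2.trans (mul_le_mul_of_nonneg_right ?_ hA)
    have := Finset.single_le_sum hC0 hp
    linarith

end Pool.Agent.Lib.MP_df705a_gt.Coll
end
end
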