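import Pool.Agent.Lib.MP_df705a_gt.Mg.G061
import Pool.Agent.Lib.MP_df705a_gt.Fib.Defs
import Pool.Agent.Lib.MP_df705a_gt.Coll.Defs
import Pool.Agent.Lib.MP_df705a_gt.Mg.G062
import Pool.Agent.Lib.MP_df705a_gt.Mg.G007
import Pool.Agent.Lib.MP_df705a_gt.Mg.G058

section

/-!
# TASK I3: the gradient product and the Laplacian are smooth functions
-/

open scoped Manifold ContDiff Topology
open Set Bundle Module Filter

noncomputable section

namespace Pool.Agent.Lib.MP_df705a_gt.Circ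

open Pool.Agent.Lib.MP_df705a_gt.Twist Pool.Agent.Lib.MP_df705a_gt.Perm

variable {E : Type*} [NormedAddCommGroup E] [NormedSpace ℝ E] [FiniteDimensional ℝ E]
  {M : Type*} [TopologicalSpace M] [ChartedSpace E M] [IsManifold 𝓘(ℝ, E) ∞ M]

private theorem i3_gradC {h : Curv.Coeff E} {y : E}
    (hh : ∀ i j, ContDiffAt ℝ ∞ (fun x => h x i j) y)
    (hnd : (h y).det ≠ 0) {F G : E → ℝ} (hF : ContDiffAt ℝ ∞ F y) (hG : ContDiffAt ℝ ∞ G y) :
    ContDiffAt ℝ ∞ (gradC h F G) y := by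
  refine ContDiffAt.sum fun i _ => ContDiffAt.sum fun j _ => ?_
  exact (contDiffAt_inv hh hnd i j).mul ((g3_pd_smooth hF i).mul (g3_pd_smooth hG j))

private theorem i3_lapC {h : Curv.Coeff E} {y : E}
    (hh : ∀ i j, ContDiffAt ℝ ∞ (fun x => h x i j) y)
    (hnd : (h y).det ≠ 0) {F : E → ℝ} (hF : ContDiffAt ℝ ∞ F y) :
    ContDiffAt ℝ ∞ (lapC h F) y := by
  refine ContDiffAt.sum fun i _ => ContDiffAt.sum fun j _ => ?_
  refine (contDiffAt_inv hh hnd i j).mul ?_
  refine (g3_pd_smooth (g3_pd_smooth hF j) i).sub ?_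
  refine ContDiffAt.sum fun p _ => ContDiffAt.sum fun q _ => ?_
  exact ((contDiffAt_inv hh hnd p q).mul (g3_christoffel_smooth hh i j p)).mul (g3_pd_smooth hF q)

omit [FiniteDimensional ℝ E] in
private theorem i3_of_chart {Q : M → ℝ} {C : M → E → ℝ}
    (hQ : ∀ (z : M) (y : E), y ∈ (extChartAt 𝓘(ℝ, E) z).target →
      C z y = Q ((extChartAt 𝓘(ℝ, E) z).symm y))
    (hC : ∀ (z : M) (y : E), y ∈ (extChartAt 𝓘(ℝ, E) z).target → ContDiffAt ℝ ∞ (C z) y) :
    Sm E Q := by
  intro p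
  have ht : extChartAt 𝓘(ℝ, E) p p ∈ (extChartAt 𝓘(ℝ, E) p).target := mem_extChartAt_target p
  have h1 : ContMDiffAt 𝓘(ℝ, E) 𝓘(ℝ, ℝ) ∞ (fun x => C p (extChartAt 𝓘(ℝ, E) p x)) p :=
    ContMDiffAt.comp (g := C p) (f := fun x => extChartAt 𝓘(ℝ, E) p x) p
      (hC p _ ht).contMDiffAt (contMDiffAt_extChartAt (x := p))
  refine h1.congr_of_eventuallyEq ?_
  filter_upwards [extChartAt_source_mem_nhds (I := 𝓘(ℝ, E)) p] with x hx
  rw [hQ p _ ((extChartAt 𝓘(ℝ, E) p).map_source hx), (extChartAt 𝓘(ℝ, E) p).left_inv hx]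

theorem sm_grd (g : ContMDiffRiemannianMetric 𝓘(ℝ, E) ∞ E (fun x : M => TangentSpace 𝓘(ℝ, E) x))
    {u v : M → ℝ} (hu : Sm E u) (hv : Sm E v) : Sm E (Grd g u v) := by
  refine i3_of_chart (C := fun z => gradC (coeff g z) (rd E z u) (rd E z v)) ?_ ?_
  · intro z y hy
    exact grd_chart g hu hv z hy
  · intro z y hy
    exact i3_gradC (g3_coeff_smooth g z hy) (g3_coeff_det g z hy) (g3_rd_smooth hu z hy)
      (g3_rd_smooth hv z hy)

theorem sm_lap (g : ContMDiffRiemannianMetric 𝓘(ℝ, E) ∞ E (fun x : M => TangentSpace 𝓘(ℝ, E) x))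
    {u : M → ℝ} (hu : Sm E u) : Sm E (Lap g u) := by
  refine i3_of_chart (C := fun z => lapC (coeff g z) (rd E z u)) ?_ ?_
  · intro z y hy
    exact lap_chart g hu z hy
  · intro z y hy
    exact i3_lapC (g3_coeff_smooth g z hy) (g3_coeff_det g z hy) (g3_rd_smooth hu z hy)

end Pool.Agent.Lib.MP_df705a_gt.Circ
end
end

section

/-!
# The inequality of Poincaré in a ball
-/

open scoped Manifold ContDiff Topology
open Set Bundle Module Filter MeasureTheory

noncomputable section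

namespace Pool.Agent.Lib.MP_df705a_gt.Coll

open Pool.Agent.Lib.MP_df705a_gt.Twist Pool.Agent.Lib.MP_df705a_gt.Perm
open Pool.Agent.Lib.MP_df705a_gt.Circ (Horizontal Submersion cf Para HorConf)
open Pool.Agent.Lib.MP_df705a_gt.Fib (RiemSub Biconformal)


variable {E : Type*} [NormedAddCommGroup E] [NormedSpace ℝ E] [FiniteDimensional ℝ E]
  [MeasurableSpace E] [BorelSpace E]

namespace EucAux

theorem scale (μ : Measure E) [μ.IsAddHaarMeasure] {x₀ : E} {r : ℝ} {G : E → ENNReal}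
    (hG : Measurable G) {s : ℝ} (hs : 1 / 2 ≤ s) (hs1 : s ≤ 1) {p : E}
    (hp : p ∈ Metric.ball x₀ r) :
    ∫⁻ y in Metric.ball x₀ r, G (s • y + (1 - s) • p) ∂μ ≤
      ENNReal.ofReal (2 ^ finrank ℝ E) * ∫⁻ y in Metric.ball x₀ r, G y ∂μ := by
  have hs0 : s ≠ 0 := by linarith
  set B := Metric.ball x₀ r with hB
  have hBm : MeasurableSet B := measurableSet_ball
  have hF : Measurable (B.indicator G) := hG.indicator hBm
  have hconv : ∀ y ∈ B, s • y + (1 - s) • p ∈ B := fun y hy =>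
    (convex_ball x₀ r) hy hp (by linarith) (by linarith) (by ring)
  calc ∫⁻ y in B, G (s • y + (1 - s) • p) ∂μ
      = ∫⁻ y in B, B.indicator G (s • y + (1 - s) • p) ∂μ :=
        setLIntegral_congr_fun hBm (fun y hy => (indicator_of_mem (hconv y hy) G).symm)
    _ ≤ ∫⁻ y, B.indicator G (s • y + (1 - s) • p) ∂μ := setLIntegral_le_lintegral _ _
    _ = ∫⁻ z, B.indicator G (z + (1 - s) • p) ∂(μ.map (s • ·)) := by
        rw [lintegral_map (f := fun z => B.indicator G (z + (1 - s) • p))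
          (hF.comp (measurable_id.add_const _)) (measurable_const_smul s)]
    _ = ENNReal.ofReal |(s ^ finrank ℝ E)⁻¹| * ∫⁻ z, B.indicator G (z + (1 - s) • p) ∂μ := by
        rw [Measure.map_addHaar_smul μ hs0, lintegral_smul_measure, smul_eq_mul]
    _ = ENNReal.ofReal |(s ^ finrank ℝ E)⁻¹| * ∫⁻ z in B, G z ∂μ := by
        rw [lintegral_add_right_eq_self (fun z => B.indicator G z) _, lintegral_indicator hBm]
    _ ≤ _ := by
        gcongr
        rw [abs_inv, abs_pow, abs_of_nonneg (by linarith : (0 : ℝ) ≤ s), ← inv_pow]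
        refine pow_le_pow_left₀ (inv_nonneg.mpr (by linarith)) ?_ _
        rw [inv_le_comm₀ (by linarith) (by norm_num)]
        linarith

theorem point {u : E → ℝ} {x₀ : E} {r : ℝ} (hr : 0 < r)
    (hu : ∀ x ∈ Metric.closedBall x₀ r, ContDiffAt ℝ ∞ u x) {x y : E}
    (hx : x ∈ Metric.ball x₀ r) (hy : y ∈ Metric.ball x₀ r) :
    ENNReal.ofReal ((u x - u y) ^ 2) ≤ ENNReal.ofReal ((2 * r) ^ 2) *
      ∫⁻ t in Ioc (0 : ℝ) 1, ENNReal.ofReal (‖fderiv ℝ u ((1 - t) • y + t • x)‖ ^ 2) := by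
  have hγ : ∀ t ∈ Icc (0 : ℝ) 1, (1 - t) • y + t • x ∈ Metric.closedBall x₀ r := fun t ht =>
    Metric.ball_subset_closedBall ((convex_ball x₀ r) hy hx (by linarith [ht.2]) ht.1 (by ring))
  have hγd : ∀ t : ℝ, HasDerivAt (fun t : ℝ => (1 - t) • y + t • x) (x - y) t := by
    intro t
    have h1 : HasDerivAt (fun t : ℝ => (1 - t) • y) ((-1 : ℝ) • y) t := by
      have h0 : HasDerivAt (fun t : ℝ => 1 - t) (-1) t := by
        simpa using (hasDerivAt_id t).const_sub 1
      exact h0.smul_const y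
    have h2 : HasDerivAt (fun t : ℝ => t • x) ((1 : ℝ) • x) t := (hasDerivAt_id t).smul_const x
    have h3 := h1.add h2
    have h4 : (-1 : ℝ) • y + (1 : ℝ) • x = x - y := by
      rw [neg_one_smul, one_smul]; abel
    rw [h4] at h3
    exact h3
  have hγc : Continuous (fun t : ℝ => (1 - t) • y + t • x) := by fun_prop
  have hfc : ∀ z ∈ Metric.closedBall x₀ r, ContinuousAt (fderiv ℝ u) z := fun z hz =>
    ((hu z hz).fderiv_right (m := 0) (by simp)).continuousAt
  have hcont : ContinuousOn (fun t : ℝ => fderiv ℝ u ((1 - t) • y + t • x)) (Icc 0 1) :=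
    fun t ht => (ContinuousAt.comp (g := fderiv ℝ u) (f := fun t : ℝ => (1 - t) • y + t • x)
      (hfc _ (hγ t ht)) hγc.continuousAt).continuousWithinAt
  have hder : ∀ t ∈ Icc (0 : ℝ) 1, HasDerivAt (fun t : ℝ => u ((1 - t) • y + t • x))
      (fderiv ℝ u ((1 - t) • y + t • x) (x - y)) t := fun t ht =>
    ((hu _ (hγ t ht)).differentiableAt (by norm_num)).hasFDerivAt.comp_hasDerivAt t (hγd t)
  have hwc : ContinuousOn (fun t : ℝ => fderiv ℝ u ((1 - t) • y + t • x) (x - y)) (Icc 0 1) :=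
    hcont.clm_apply continuousOn_const
  have hwi : IntervalIntegrable (fun t : ℝ => fderiv ℝ u ((1 - t) • y + t • x) (x - y))
      volume 0 1 := hwc.intervalIntegrable_of_Icc zero_le_one
  have hwi2 : IntervalIntegrable (fun t : ℝ => (fderiv ℝ u ((1 - t) • y + t • x) (x - y)) ^ 2)
      volume 0 1 := (hwc.pow 2).intervalIntegrable_of_Icc zero_le_one
  have hGc : ContinuousOn (fun t : ℝ => ‖fderiv ℝ u ((1 - t) • y + t • x)‖ ^ 2) (Icc 0 1) :=
    hcont.norm.pow 2
  have hGi : IntervalIntegrable (fun t : ℝ => ‖fderiv ℝ u ((1 - t) • y + t • x)‖ ^ 2)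
      volume 0 1 := hGc.intervalIntegrable_of_Icc zero_le_one
  have h1 : ∫ t in (0 : ℝ)..1, fderiv ℝ u ((1 - t) • y + t • x) (x - y) = u x - u y := by
    rw [intervalIntegral.integral_eq_sub_of_hasDerivAt (f := fun t : ℝ => u ((1 - t) • y + t • x))
      (fun t ht => hder t (by rwa [uIcc_of_le zero_le_one] at ht)) hwi]
    simp
  have h2 : (u x - u y) ^ 2 ≤
      ∫ t in (0 : ℝ)..1, (fderiv ℝ u ((1 - t) • y + t • x) (x - y)) ^ 2 := by
    have h3 : 0 ≤ ∫ t in (0 : ℝ)..1,
        ((fderiv ℝ u ((1 - t) • y + t • x) (x - y)) - (u x - u y)) ^ 2 :=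
      intervalIntegral.integral_nonneg zero_le_one (fun t _ => sq_nonneg _)
    have h4 : ∫ t in (0 : ℝ)..1,
        ((fderiv ℝ u ((1 - t) • y + t • x) (x - y)) - (u x - u y)) ^ 2 =
        (∫ t in (0 : ℝ)..1, (fderiv ℝ u ((1 - t) • y + t • x) (x - y)) ^ 2) -
          (2 * (u x - u y)) * (∫ t in (0 : ℝ)..1, fderiv ℝ u ((1 - t) • y + t • x) (x - y)) +
          (u x - u y) ^ 2 := by
      rw [← intervalIntegral.integral_const_mul, ← intervalIntegral.integral_sub hwi2
        (hwi.const_mul _)]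
      have h5 : (u x - u y) ^ 2 = ∫ _ in (0 : ℝ)..1, (u x - u y) ^ 2 := by simp
      rw [h5, ← intervalIntegral.integral_add (hwi2.sub (hwi.const_mul _))
        intervalIntegrable_const]
      refine intervalIntegral.integral_congr (fun t _ => ?_)
      ring
    rw [h4, h1] at h3
    nlinarith [h3]
  have h3 : ∫ t in (0 : ℝ)..1, (fderiv ℝ u ((1 - t) • y + t • x) (x - y)) ^ 2 ≤
      ∫ t in (0 : ℝ)..1, (2 * r) ^ 2 * ‖fderiv ℝ u ((1 - t) • y + t • x)‖ ^ 2 := by
    refine intervalIntegral.integral_mono_on zero_le_one hwi2 (hGi.const_mul _) (fun t _ => ?_)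
    have h4 : ‖x - y‖ ≤ 2 * r := by
      rw [Metric.mem_ball] at hx hy
      rw [← dist_eq_norm]
      have := dist_triangle_right x y x₀
      linarith
    have h5 := (fderiv ℝ u ((1 - t) • y + t • x)).le_opNorm (x - y)
    have h6 : |fderiv ℝ u ((1 - t) • y + t • x) (x - y)| ≤
        2 * r * ‖fderiv ℝ u ((1 - t) • y + t • x)‖ := by
      rw [Real.norm_eq_abs] at h5
      refine h5.trans ?_
      rw [mul_comm]
      exact mul_le_mul_of_nonneg_right h4 (norm_nonneg _)
    calc (fderiv ℝ u ((1 - t) • y + t • x) (x - y)) ^ 2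
        = |fderiv ℝ u ((1 - t) • y + t • x) (x - y)| ^ 2 := (sq_abs _).symm
      _ ≤ (2 * r * ‖fderiv ℝ u ((1 - t) • y + t • x)‖) ^ 2 :=
          pow_le_pow_left₀ (abs_nonneg _) h6 2
      _ = _ := by ring
  calc ENNReal.ofReal ((u x - u y) ^ 2)
      ≤ ENNReal.ofReal (∫ t in (0 : ℝ)..1,
          (2 * r) ^ 2 * ‖fderiv ℝ u ((1 - t) • y + t • x)‖ ^ 2) :=
        ENNReal.ofReal_le_ofReal (h2.trans h3)
    _ = _ := by
        rw [intervalIntegral.integral_const_mul, ENNReal.ofReal_mul (by positivity),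
          intervalIntegral.integral_of_le zero_le_one, ofReal_integral_eq_lintegral_ofReal
          ((intervalIntegrable_iff_integrableOn_Ioc_of_le zero_le_one).mp hGi)
          (Eventually.of_forall fun t => by positivity)]

theorem triple (μ : Measure E) [μ.IsAddHaarMeasure] {x₀ : E} {r : ℝ} {G : E → ENNReal}
    (hG : Measurable G) :
    ∫⁻ x in Metric.ball x₀ r, ∫⁻ y in Metric.ball x₀ r,
      (∫⁻ t in Ioc (0 : ℝ) 1, G ((1 - t) • y + t • x)) ∂μ ∂μ ≤
      μ (Metric.ball x₀ r) * (ENNReal.ofReal (2 ^ finrank ℝ E) *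
        ∫⁻ y in Metric.ball x₀ r, G y ∂μ) := by
  set B := Metric.ball x₀ r with hB
  set J := ENNReal.ofReal (2 ^ finrank ℝ E) * ∫⁻ y in B, G y ∂μ with hJ
  have hBm : MeasurableSet B := measurableSet_ball
  have hm : Measurable (fun q : (E × ℝ) × E => G ((1 - q.1.2) • q.2 + q.1.2 • q.1.1)) :=
    hG.comp (by fun_prop)
  have hm1 : ∀ x : E, Measurable (Function.uncurry fun (y : E) (t : ℝ) => G ((1 - t) • y + t • x)) :=
    fun x => hG.comp (by fun_prop)
  have hm2 : Measurable (Function.uncurry fun (x : E) (t : ℝ) =>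
      ∫⁻ y in B, G ((1 - t) • y + t • x) ∂μ) :=
    hm.lintegral_prod_right'
  have hm3 : ∀ t : ℝ, Measurable (Function.uncurry fun (x y : E) => G ((1 - t) • y + t • x)) :=
    fun t => hG.comp (by fun_prop)
  have e1 : ∫⁻ x in B, ∫⁻ y in B, (∫⁻ t in Ioc (0 : ℝ) 1, G ((1 - t) • y + t • x)) ∂μ ∂μ =
      ∫⁻ t in Ioc (0 : ℝ) 1, ∫⁻ x in B, ∫⁻ y in B, G ((1 - t) • y + t • x) ∂μ ∂μ := by
    rw [← lintegral_lintegral_swap hm2.aemeasurable]
    refine lintegral_congr fun x => ?_
    exact lintegral_lintegral_swap (hm1 x).aemeasurable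
  rw [e1]
  have e2 : ∀ t ∈ Ioc (0 : ℝ) 1, ∫⁻ x in B, ∫⁻ y in B, G ((1 - t) • y + t • x) ∂μ ∂μ ≤
      μ B * J := by
    intro t ht
    rcases le_total t (1 / 2) with h | h
    · have h1 : ∀ x ∈ B, ∫⁻ y in B, G ((1 - t) • y + t • x) ∂μ ≤ J := by
        intro x hx
        have := scale μ hG (s := 1 - t) (by linarith) (by linarith [ht.1]) hx
        rwa [sub_sub_cancel] at this
      calc ∫⁻ x in B, ∫⁻ y in B, G ((1 - t) • y + t • x) ∂μ ∂μ
          ≤ ∫⁻ _ in B, J ∂μ := setLIntegral_mono' hBm h1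
        _ = μ B * J := by rw [setLIntegral_const, mul_comm]
    · rw [lintegral_lintegral_swap (hm3 t).aemeasurable]
      have h1 : ∀ y ∈ B, ∫⁻ x in B, G ((1 - t) • y + t • x) ∂μ ≤ J := by
        intro y hy
        have := scale μ hG (s := t) h ht.2 hy
        simpa only [add_comm] using this
      calc ∫⁻ y in B, ∫⁻ x in B, G ((1 - t) • y + t • x) ∂μ ∂μ
          ≤ ∫⁻ _ in B, J ∂μ := setLIntegral_mono' hBm h1
        _ = μ B * J := by rw [setLIntegral_const, mul_comm]
  calc ∫⁻ t in Ioc (0 : ℝ) 1, ∫⁻ x in B, ∫⁻ y in B, G ((1 - t) • y + t • x) ∂μ ∂μ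
      ≤ ∫⁻ _ in Ioc (0 : ℝ) 1, μ B * J := setLIntegral_mono' measurableSet_Ioc e2
    _ = μ B * J := by rw [setLIntegral_const]; simp

end EucAux

/-- The inequality of Poincaré in a ball, in the form of a double integral.  Proof: for `x, y` in
the ball `u x - u y = ∫₀¹ Du (y + t (x - y)) (x - y) dt`, so the square is at most
`(2 r)² ∫₀¹ ‖Du (y + t (x - y))‖² dt`; by the symmetry `(x, y, t) ↦ (y, x, 1 - t)` the integral over
`t ∈ (0, 1)` is twice the integral over `t ∈ (1/2, 1)`; for fixed `y` and `t ≥ 1/2` the map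
`x ↦ y + t (x - y)` maps the ball into itself and multiplies the measure by `t ^ d ≥ 2 ^ (-d)`. -/
theorem euclid_poin (μ : Measure E) [μ.IsAddHaarMeasure] (x₀ : E) {r : ℝ} (hr : 0 < r) :
    ∃ C : ℝ, 0 ≤ C ∧ ∀ u : E → ℝ, (∀ x ∈ Metric.closedBall x₀ r, ContDiffAt ℝ ∞ u x) →
      ∫ x in Metric.ball x₀ r, ∫ y in Metric.ball x₀ r, (u x - u y) ^ 2 ∂μ ∂μ ≤
        C * ∫ x in Metric.ball x₀ r, ‖fderiv ℝ u x‖ ^ 2 ∂μ := by
  set B := Metric.ball x₀ r with hB
  have hBm : MeasurableSet B := measurableSet_ball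
  have hBf : μ B ≠ ⊤ := measure_ball_lt_top.ne
  refine ⟨(2 * r) ^ 2 * ((μ B).toReal * 2 ^ finrank ℝ E), by positivity, fun u hu => ?_⟩
  have hGm : Measurable (fun z => ‖fderiv ℝ u z‖ ^ 2) := (measurable_fderiv ℝ u).norm.pow_const 2
  have hG : Measurable (fun z => ENNReal.ofReal (‖fderiv ℝ u z‖ ^ 2)) := hGm.ennreal_ofReal
  -- finiteness of the energy
  have hfc : ContinuousOn (fun z => ‖fderiv ℝ u z‖ ^ 2) (Metric.closedBall x₀ r) := fun z hz =>
    ((((hu z hz).fderiv_right (m := 0) (by simp)).continuousAt).norm.pow 2).continuousWithinAt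
  have hint : IntegrableOn (fun z => ‖fderiv ℝ u z‖ ^ 2) B μ :=
    (hfc.integrableOn_compact (isCompact_closedBall x₀ r)).mono_set Metric.ball_subset_closedBall
  have hJ : ∫⁻ z in B, ENNReal.ofReal (‖fderiv ℝ u z‖ ^ 2) ∂μ =
      ENNReal.ofReal (∫ z in B, ‖fderiv ℝ u z‖ ^ 2 ∂μ) :=
    (ofReal_integral_eq_lintegral_ofReal hint (Eventually.of_forall fun z => by positivity)).symm
  have hJ0 : 0 ≤ ∫ z in B, ‖fderiv ℝ u z‖ ^ 2 ∂μ :=
    integral_nonneg fun z => by positivity
  have h1 : ∫⁻ x in B, ∫⁻ y in B, ENNReal.ofReal ((u x - u y) ^ 2) ∂μ ∂μ ≤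
      ENNReal.ofReal ((2 * r) ^ 2) * (μ B * (ENNReal.ofReal (2 ^ finrank ℝ E) *
        ∫⁻ z in B, ENNReal.ofReal (‖fderiv ℝ u z‖ ^ 2) ∂μ)) := by
    refine le_trans ?_ (mul_le_mul_right (EucAux.triple μ (x₀ := x₀) (r := r) hG) _)
    rw [← lintegral_const_mul' _ _ ENNReal.ofReal_ne_top]
    refine setLIntegral_mono' hBm fun x hx => ?_
    rw [← lintegral_const_mul' _ _ ENNReal.ofReal_ne_top]
    exact setLIntegral_mono' hBm fun y hy => EucAux.point hr hu hx hy
  have h2 : ‖∫ x in B, ∫ y in B, (u x - u y) ^ 2 ∂μ ∂μ‖ₑ ≤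
      ENNReal.ofReal ((2 * r) ^ 2 * ((μ B).toReal * 2 ^ finrank ℝ E) *
        ∫ z in B, ‖fderiv ℝ u z‖ ^ 2 ∂μ) := by
    have h3 : ‖∫ x in B, ∫ y in B, (u x - u y) ^ 2 ∂μ ∂μ‖ₑ ≤
        ∫⁻ x in B, ∫⁻ y in B, ENNReal.ofReal ((u x - u y) ^ 2) ∂μ ∂μ := by
      refine (enorm_integral_le_lintegral_enorm _).trans (lintegral_mono fun x => ?_)
      refine (enorm_integral_le_lintegral_enorm _).trans (lintegral_mono fun y => ?_)
      rw [Real.enorm_of_nonneg (sq_nonneg _)]
    refine (h3.trans h1).trans (le_of_eq ?_)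
    rw [hJ, ENNReal.ofReal_mul (by positivity), ENNReal.ofReal_mul (by positivity),
      ENNReal.ofReal_mul (by positivity), ENNReal.ofReal_toReal hBf]
    ring
  have h4 : 0 ≤ ∫ x in B, ∫ y in B, (u x - u y) ^ 2 ∂μ ∂μ :=
    integral_nonneg fun x => integral_nonneg fun y => sq_nonneg _
  rw [Real.enorm_of_nonneg h4] at h2
  exact (ENNReal.ofReal_le_ofReal_iff (by positivity)).mp h2

end Pool.Agent.Lib.MP_df705a_gt.Coll
end
end

section

/-!
# Double integrals controlled by the energy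
-/

open scoped Manifold ContDiff Topology
open Set Bundle Module Filter MeasureTheory

noncomputable section

namespace Pool.Agent.Lib.MP_df705a_gt.Coll

open Pool.Agent.Lib.MP_df705a_gt.Twist Pool.Agent.Lib.MP_df705a_gt.Perm
open Pool.Agent.Lib.MP_df705a_gt.Circ (Horizontal Submersion cf Para HorConf)
open Pool.Agent.Lib.MP_df705a_gt.Fib (RiemSub Biconformal)

variable {E : Type*} [NormedAddCommGroup E] [NormedSpace ℝ E] [FiniteDimensional ℝ E]
  {M : Type*} [TopologicalSpace M] [ChartedSpace E M] [IsManifold 𝓘(ℝ, E) ∞ M]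

/-- The weighted double integral of `(u x - u y)²` is controlled by the energy of `u`. -/
def PP (g : Met E M) [MeasurableSpace M] (μ : Measure M) (χ χ' : M → ℝ) : Prop :=
  ∃ C : ℝ, 0 ≤ C ∧ ∀ u : M → ℝ, Sm E u →
    ∫ x, ∫ y, χ x * χ' y * (u x - u y) ^ 2 ∂μ ∂μ ≤ C * ∫ p, Grd g u u p ∂μ

end Pool.Agent.Lib.MP_df705a_gt.Coll
end
end

section

/-!
# The inequality of Poincaré, locally
-/

open scoped Manifold ContDiff Topology
open Set Bundle Module Filter MeasureTheory

noncomputable section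

namespace Pool.Agent.Lib.MP_df705a_gt.Coll

open Pool.Agent.Lib.MP_df705a_gt.Twist Pool.Agent.Lib.MP_df705a_gt.Perm
open Pool.Agent.Lib.MP_df705a_gt.Circ (Horizontal Submersion cf Para HorConf)
open Pool.Agent.Lib.MP_df705a_gt.Fib (RiemSub Biconformal)

variable {E : Type*} [NormedAddCommGroup E] [NormedSpace ℝ E] [FiniteDimensional ℝ E]
  {M : Type*} [TopologicalSpace M] [ChartedSpace E M] [IsManifold 𝓘(ℝ, E) ∞ M]
  [MeasurableSpace E] [BorelSpace E] [MeasurableSpace M] [BorelSpace M]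
  [CompactSpace M] [T2Space M]
  {g : Met E M} {μ : Measure M}

namespace LocAux

omit [CompactSpace M] [T2Space M] [BorelSpace M] [MeasurableSpace M] [BorelSpace E]
  [MeasurableSpace E] [IsManifold 𝓘(ℝ, E) ∞ M] [ChartedSpace E M] [TopologicalSpace M]
  [FiniteDimensional ℝ E] [NormedSpace ℝ E] [NormedAddCommGroup E]

theorem sq_int {α : Type*} [MeasurableSpace α] (ν : Measure α) [IsFiniteMeasure ν] {v : α → ℝ}
    (h1 : Integrable v ν) (h2 : Integrable (fun y => v y ^ 2) ν) (c : ℝ) :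
    ∫ y, (c - v y) ^ 2 ∂ν =
      c ^ 2 * ν.real univ - 2 * c * ∫ y, v y ∂ν + ∫ y, v y ^ 2 ∂ν := by
  have e1 : ∀ y, (c - v y) ^ 2 = (c ^ 2 - 2 * c * v y) + v y ^ 2 := fun y => by ring
  simp only [e1]
  rw [integral_add (f := fun y => c ^ 2 - 2 * c * v y) (g := fun y => v y ^ 2)
    ((integrable_const _).sub (h1.const_mul _)) h2,
    integral_sub (f := fun _ => c ^ 2) (g := fun y => 2 * c * v y)
    (integrable_const _) (h1.const_mul _), integral_const, integral_const_mul,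
    smul_eq_mul]
  ring

theorem sq_integrable {α : Type*} [MeasurableSpace α] (ν : Measure α) [IsFiniteMeasure ν]
    {v : α → ℝ} (h1 : Integrable v ν) (h2 : Integrable (fun y => v y ^ 2) ν) :
    Integrable (fun x => ∫ y, (v x - v y) ^ 2 ∂ν) ν := by
  simp only [sq_int ν h1 h2]
  exact ((h2.mul_const _).sub ((h1.const_mul 2).mul_const _)).add (integrable_const _)

theorem integrable_cont {X : Type*} [TopologicalSpace X] [CompactSpace X] [MeasurableSpace X]
    [BorelSpace X] (μ : Measure X) [IsFiniteMeasure μ] {f : X → ℝ} (hf : Continuous f) :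
    Integrable f μ :=
  hf.integrable_of_hasCompactSupport (HasCompactSupport.of_compactSpace f)

theorem cont_F {X : Type*} [TopologicalSpace X] [CompactSpace X] [MeasurableSpace X]
    [BorelSpace X] (μ : Measure X) [IsFiniteMeasure μ] {χ χ' u : X → ℝ} (hχ : Continuous χ)
    (hχ' : Continuous χ') (hu : Continuous u) :
    Continuous fun x => ∫ y, χ x * χ' y * (u x - u y) ^ 2 ∂μ := by
  have e1 : ∀ x, ∫ y, χ x * χ' y * (u x - u y) ^ 2 ∂μ =
      χ x * (u x ^ 2 * ∫ y, χ' y ∂μ - 2 * u x * ∫ y, χ' y * u y ∂μ +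
        ∫ y, χ' y * u y ^ 2 ∂μ) := by
    intro x
    have i1 := integrable_cont μ hχ'
    have i2 : Integrable (fun y => χ' y * u y) μ := integrable_cont μ (hχ'.mul hu)
    have i3 : Integrable (fun y => χ' y * u y ^ 2) μ := integrable_cont μ (hχ'.mul (hu.pow 2))
    have e2 : ∀ y, χ x * χ' y * (u x - u y) ^ 2 =
        χ x * ((u x ^ 2 * χ' y - 2 * u x * (χ' y * u y)) + χ' y * u y ^ 2) := fun y => by ring
    simp only [e2]
    rw [integral_const_mul,
      integral_add (f := fun y => u x ^ 2 * χ' y - 2 * u x * (χ' y * u y))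
        (g := fun y => χ' y * u y ^ 2) ((i1.const_mul _).sub (i2.const_mul _)) i3,
      integral_sub (f := fun y => u x ^ 2 * χ' y) (g := fun y => 2 * u x * (χ' y * u y))
        (i1.const_mul _) (i2.const_mul _), integral_const_mul, integral_const_mul]
  simp only [e1]
  fun_prop

/-- Cauchy-Schwarz for the inverse matrix. -/
theorem cs {m : ℕ} {A : Matrix (Fin m) (Fin m) ℝ} (hA : A.PosDef) (ξ : Fin m → ℝ) (i : Fin m) :
    ξ i ^ 2 ≤ A i i * ∑ a, ∑ b, A⁻¹ a b * (ξ a * ξ b) := by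
  have hpos : 0 < A i i := hA.diag_pos
  have hdet : IsUnit A.det := (hA.det_pos.ne').isUnit
  have hinv1 : ∀ a c, ∑ b, A⁻¹ a b * A b c = if a = c then 1 else 0 := by
    intro a c
    rw [← Matrix.mul_apply, Matrix.nonsing_inv_mul A hdet, Matrix.one_apply]
  have hAs : ∀ a b, A a b = A b a := fun a b => by
    have := hA.isHermitian.apply b a
    simpa using this
  have hinvs : ∀ a b, A⁻¹ a b = A⁻¹ b a := fun a b => by
    have := hA.inv.isHermitian.apply b a
    simpa using this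
  have h1 := G4.quad_nonneg hA fun a => ξ a - (ξ i / A i i) * A a i
  set t := ξ i / A i i with ht
  have e1 : ∑ a, ∑ b, A⁻¹ a b * (ξ a * A b i) = ξ i := by
    have : ∀ a, ∑ b, A⁻¹ a b * (ξ a * A b i) = if a = i then ξ a else 0 := by
      intro a
      have h2 : ∀ b, A⁻¹ a b * (ξ a * A b i) = ξ a * (A⁻¹ a b * A b i) := fun b => by ring
      simp only [h2]
      rw [← Finset.mul_sum, hinv1]
      split_ifs <;> simp
    simp only [this, Finset.sum_ite_eq', Finset.mem_univ, if_true]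
  have e2 : ∑ a, ∑ b, A⁻¹ a b * (A a i * ξ b) = ξ i := by
    rw [← e1, Finset.sum_comm]
    refine Finset.sum_congr rfl fun a _ => Finset.sum_congr rfl fun b _ => ?_
    rw [hinvs b a]
    ring
  have e3 : ∑ a, ∑ b, A⁻¹ a b * (A a i * A b i) = A i i := by
    have : ∀ a, ∑ b, A⁻¹ a b * (A a i * A b i) = if a = i then A a i else 0 := by
      intro a
      have h2 : ∀ b, A⁻¹ a b * (A a i * A b i) = A a i * (A⁻¹ a b * A b i) := fun b => by ring
      simp only [h2]
      rw [← Finset.mul_sum, hinv1]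
      split_ifs <;> simp
    simp only [this, Finset.sum_ite_eq', Finset.mem_univ, if_true]
  have e4 : ∑ a, ∑ b, A⁻¹ a b * ((ξ a - t * A a i) * (ξ b - t * A b i)) =
      (∑ a, ∑ b, A⁻¹ a b * (ξ a * ξ b)) - t * (∑ a, ∑ b, A⁻¹ a b * (ξ a * A b i)) -
      t * (∑ a, ∑ b, A⁻¹ a b * (A a i * ξ b)) +
      t ^ 2 * ∑ a, ∑ b, A⁻¹ a b * (A a i * A b i) := by
    simp only [Finset.mul_sum, ← Finset.sum_sub_distrib, ← Finset.sum_add_distrib]
    refine Finset.sum_congr rfl fun a _ => Finset.sum_congr rfl fun b _ => ?_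
    ring
  rw [e4, e1, e2, e3] at h1
  have h2 : t * A i i = ξ i := by rw [ht]; field_simp
  have h3 : t * ξ i ≤ ∑ a, ∑ b, A⁻¹ a b * (ξ a * ξ b) := by
    have : t ^ 2 * A i i = t * ξ i := by rw [pow_two, mul_assoc, h2]
    rw [this] at h1
    linarith
  calc ξ i ^ 2 = A i i * (t * ξ i) := by rw [← mul_assoc, mul_comm (A i i) t, h2]; ring
    _ ≤ _ := mul_le_mul_of_nonneg_left h3 hpos.le

end LocAux

namespace LocAux

theorem ellip (g : Met E M) (p : M) {K : Set E} (hK : IsCompact K)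
    (hKT : K ⊆ (extChartAt 𝓘(ℝ, E) p).target) :
    ∃ C : ℝ, 0 ≤ C ∧ ∀ (u : E → ℝ), ∀ y ∈ K,
      ‖fderiv ℝ u y‖ ^ 2 ≤ C * gradC (coeff g p) u u y := by
  have hb : ∀ i, ∃ C : ℝ, ∀ y ∈ K, ‖coeff g p y i i‖ ≤ C := fun i =>
    hK.exists_bound_of_continuousOn (fun y hy =>
      (g3_coeff_smooth g p (hKT hy) i i).continuousAt.continuousWithinAt)
  choose Cc hCc using hb
  obtain ⟨C₀, hC₀, hop⟩ := (finBasis ℝ E).exists_opNorm_le (F := ℝ)
  set C₁ := ∑ i, |Cc i| with hC₁
  have hC₁0 : 0 ≤ C₁ := Finset.sum_nonneg fun i _ => abs_nonneg _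
  refine ⟨C₀ ^ 2 * C₁, by positivity, fun u y hy => ?_⟩
  have hpd : (coeff g p y).PosDef := chartMetric_posDef 𝓘(ℝ, E) (finBasis ℝ E) g p (hKT hy)
  have hg0 : 0 ≤ gradC (coeff g p) u u y := G4.gradC_nonneg hpd
  have h1 : ∀ i, (Curv.pd i u y) ^ 2 ≤ C₁ * gradC (coeff g p) u u y := by
    intro i
    refine (cs hpd (fun i => Curv.pd i u y) i).trans ?_
    refine mul_le_mul_of_nonneg_right ?_ hg0
    calc coeff g p y i i ≤ ‖coeff g p y i i‖ := le_abs_self _
      _ ≤ Cc i := hCc i y hy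
      _ ≤ |Cc i| := le_abs_self _
      _ ≤ C₁ := Finset.single_le_sum (f := fun i => |Cc i|) (fun i _ => abs_nonneg _)
          (Finset.mem_univ i)
  have h2 : ‖fderiv ℝ u y‖ ≤ C₀ * √(C₁ * gradC (coeff g p) u u y) := by
    refine hop (Real.sqrt_nonneg _) fun i => ?_
    rw [Real.norm_eq_abs]
    exact Real.abs_le_sqrt (h1 i)
  calc ‖fderiv ℝ u y‖ ^ 2 ≤ (C₀ * √(C₁ * gradC (coeff g p) u u y)) ^ 2 :=
        pow_le_pow_left₀ (norm_nonneg _) h2 2
    _ = _ := by
        rw [mul_pow, Real.sq_sqrt (mul_nonneg hC₁0 hg0)]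
        ring

theorem dens_cont (g : Met E M) (p : M) {y : E} (hy : y ∈ (extChartAt 𝓘(ℝ, E) p).target) :
    ContinuousAt (fun y => √ (coeff g p y).det) y := by
  have h1 : ContDiffAt ℝ ∞ (fun y => (coeff g p y).det) y :=
    Twist.contDiffAt_det fun i j => g3_coeff_smooth g p hy i j
  exact Real.continuous_sqrt.continuousAt.comp (f := fun y => (coeff g p y).det) h1.continuousAt

theorem dens_pos (g : Met E M) (p : M) {y : E} (hy : y ∈ (extChartAt 𝓘(ℝ, E) p).target) :
    0 < √ (coeff g p y).det :=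
  Real.sqrt_pos.mpr (chartMetric_posDef 𝓘(ℝ, E) (finBasis ℝ E) g p hy).det_pos

end LocAux

/-- Proof: in the chart at `p` choose `r > 0` such that the closed ball `B` of radius `r` around the
image `x₀` of `p` is contained in the target, `χ` a continuous function with support in the chart
preimage of the open ball, `χ p > 0`, `0 ≤ χ ≤ 1`, and `χ₂` continuous, `0 ≤ χ₂ ≤ 1`, with support in
the source and equal to `1` on the preimage of `B`. On `B` the density `√ det` lies between two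
positive constants and `c ‖D (rd u)‖² ≤ Grd g u u`. By `IsRVol.chart` (twice) the left hand side
is at most a constant times the double integral over the ball, use `euclid_poin`, and
`∫_B Grd √ det ≤ ∫ χ₂ Grd ∂μ ≤ ∫ Grd ∂μ`. -/
theorem loc_poin (hμ : IsRVol g μ) (p : M) :
    ∃ χ : M → ℝ, Continuous χ ∧ (∀ x, 0 ≤ χ x) ∧ 0 < χ p ∧ PP g μ χ χ := by
  have hfin := hμ.fin
  set e := extChartAt 𝓘(ℝ, E) p with he
  set T := e.target with hT
  set x₀ := e p with hx₀
  have hTo : IsOpen T := isOpen_extChartAt_target p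
  have hx₀T : x₀ ∈ T := mem_extChartAt_target p
  obtain ⟨r, hr, hrT⟩ := Metric.isOpen_iff.mp hTo x₀ hx₀T
  set R := r / 4 with hR
  have hR0 : 0 < R := by positivity
  have h2R : Metric.closedBall x₀ (2 * R) ⊆ T :=
    (Metric.closedBall_subset_ball (by rw [hR]; linarith)).trans hrT
  have h1R : Metric.closedBall x₀ R ⊆ T :=
    (Metric.closedBall_subset_closedBall (by linarith)).trans h2R
  -- bump functions
  let f₁ : SmoothBumpFunction 𝓘(ℝ, E) p :=
    { rIn := R / 2, rOut := R, rIn_pos := by positivity, rIn_lt_rOut := by linarith,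
      closedBall_subset := inter_subset_left.trans h1R }
  let f₂ : SmoothBumpFunction 𝓘(ℝ, E) p :=
    { rIn := R, rOut := 2 * R, rIn_pos := by positivity, rIn_lt_rOut := by linarith,
      closedBall_subset := inter_subset_left.trans h2R }
  have hc1 : Continuous f₁ := f₁.continuous
  have hc2 : Continuous f₂ := f₂.continuous
  have hz1 : ∀ y ∈ T \ Metric.ball x₀ R, f₁ (e.symm y) = 0 := by
    intro y hy
    by_contra h
    have h3 : e.symm y ∈ Function.support f₁ := h
    rw [f₁.support_eq_inter_preimage] at h3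
    have h4 : e (e.symm y) ∈ Metric.ball x₀ R := h3.2
    rw [e.right_inv hy.1] at h4
    exact hy.2 h4
  have hz2 : ∀ y ∈ T \ Metric.closedBall x₀ (2 * R), f₂ (e.symm y) = 0 := by
    intro y hy
    by_contra h
    have h3 : e.symm y ∈ Function.support f₂ := h
    rw [f₂.support_eq_inter_preimage] at h3
    have h4 : e (e.symm y) ∈ Metric.ball x₀ (2 * R) := h3.2
    rw [e.right_inv hy.1] at h4
    exact hy.2 (Metric.ball_subset_closedBall h4)
  have ho2 : ∀ y ∈ Metric.ball x₀ R, f₂ (e.symm y) = 1 := by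
    intro y hy
    have hyT : y ∈ T := h1R (Metric.ball_subset_closedBall hy)
    refine f₂.one_of_dist_le ?_ ?_
    · have := e.map_target hyT
      rwa [he, extChartAt_source] at this
    · change dist (e (e.symm y)) (e p) ≤ R
      rw [e.right_inv hyT]
      exact (Metric.mem_ball.mp hy).le
  -- constants
  set w : E → ℝ := fun y => √ (coeff g p y).det with hw
  have hwc : ∀ y ∈ T, ContinuousAt w y := fun y hy => LocAux.dens_cont g p hy
  have hwp : ∀ y ∈ T, 0 < w y := fun y hy => LocAux.dens_pos g p hy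
  have hcB : IsCompact (Metric.closedBall x₀ R) := isCompact_closedBall x₀ R
  obtain ⟨K, hK⟩ := hcB.exists_bound_of_continuousOn (f := w)
    (fun y hy => (hwc y (h1R hy)).continuousWithinAt)
  obtain ⟨y₁, hy₁, hmin⟩ := hcB.exists_isMinOn ⟨x₀, Metric.mem_closedBall_self hR0.le⟩
    (f := w) (fun y hy => (hwc y (h1R hy)).continuousWithinAt)
  set m := w y₁ with hm
  have hm0 : 0 < m := hwp _ (h1R hy₁)
  have hK0 : 0 ≤ K := (norm_nonneg _).trans (hK _ hy₁)
  obtain ⟨C₁, hC₁, hell⟩ := LocAux.ellip g p hcB h1R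
  set lam := (finBasis ℝ E).addHaar with hlam
  obtain ⟨C₀, hC₀, hpoin⟩ := euclid_poin lam x₀ hR0
  set B := Metric.ball x₀ R with hB
  have hBm : MeasurableSet B := measurableSet_ball
  have hTm : MeasurableSet T := hTo.measurableSet
  have hBc : B ⊆ Metric.closedBall x₀ R := Metric.ball_subset_closedBall
  have hBT : B ⊆ T := hBc.trans h1R
  have hBfin : IsFiniteMeasure (lam.restrict B) := ⟨by
    rw [Measure.restrict_apply_univ]
    exact measure_ball_lt_top⟩
  refine ⟨f₁, hc1, fun x => f₁.nonneg, ?_, K ^ 2 * (C₀ * (C₁ * m⁻¹)), by positivity,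
    fun u hu => ?_⟩
  · rw [f₁.eq_one]
    exact one_pos
  have huc : Continuous u := ContMDiff.continuous hu
  set v := rd E p u with hv
  have hvs : ∀ y ∈ T, ContDiffAt ℝ ∞ v y := fun y hy => g3_rd_smooth hu p hy
  have hvc : ContinuousOn v (Metric.closedBall x₀ R) := fun y hy =>
    (hvs y (h1R hy)).continuousAt.continuousWithinAt
  have hvi : Integrable v (lam.restrict B) :=
    (hvc.integrableOn_compact hcB).mono_set hBc
  have hvi2 : Integrable (fun y => v y ^ 2) (lam.restrict B) :=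
    ((hvc.pow 2).integrableOn_compact hcB).mono_set hBc
  -- the left hand side
  have hcF := LocAux.cont_F μ hc1 hc1 huc
  have ts1 : tsupport f₁ ⊆ e.source := f₁.tsupport_subset_extChartAt_source
  have hsF : tsupport (fun x => ∫ y, f₁ x * f₁ y * (u x - u y) ^ 2 ∂μ) ⊆ e.source := by
    refine (closure_mono ?_).trans ts1
    intro x hx
    rw [Function.mem_support] at hx ⊢
    intro h
    apply hx
    simp [h]
  have hA : ∫ x, ∫ y, f₁ x * f₁ y * (u x - u y) ^ 2 ∂μ ∂μ =
      ∫ x in T, (∫ y, f₁ (e.symm x) * f₁ y * (u (e.symm x) - u y) ^ 2 ∂μ) * w x ∂lam :=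
    hμ.chart p _ hcF hsF
  have hA2 : ∀ x, ∫ y, f₁ (e.symm x) * f₁ y * (u (e.symm x) - u y) ^ 2 ∂μ =
      ∫ y in B, f₁ (e.symm x) * f₁ (e.symm y) * (v x - v y) ^ 2 * w y ∂lam := by
    intro x
    have hc : Continuous fun y => f₁ (e.symm x) * f₁ y * (u (e.symm x) - u y) ^ 2 := by
      fun_prop
    have hs : tsupport (fun y => f₁ (e.symm x) * f₁ y * (u (e.symm x) - u y) ^ 2) ⊆
        e.source := by
      refine (closure_mono ?_).trans ts1
      intro y hy
      rw [Function.mem_support] at hy ⊢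
      intro h
      apply hy
      simp [h]
    rw [hμ.chart p _ hc hs]
    refine setIntegral_eq_of_subset_of_forall_sdiff_eq_zero hTm hBT fun y hy => ?_
    rw [hz1 y hy]
    ring
  have hA3 : ∫ x in T, (∫ y, f₁ (e.symm x) * f₁ y * (u (e.symm x) - u y) ^ 2 ∂μ) * w x ∂lam =
      ∫ x in B, (∫ y in B, f₁ (e.symm x) * f₁ (e.symm y) * (v x - v y) ^ 2 * w y ∂lam) *
        w x ∂lam := by
    simp only [hA2]
    refine setIntegral_eq_of_subset_of_forall_sdiff_eq_zero hTm hBT fun y hy => ?_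
    rw [hz1 y hy]
    simp
  have hle : ∀ x ∈ B, (∫ y in B, f₁ (e.symm x) * f₁ (e.symm y) * (v x - v y) ^ 2 * w y ∂lam) *
      w x ≤ K ^ 2 * ∫ y in B, (v x - v y) ^ 2 ∂lam := by
    intro x hx
    have hwx : w x ≤ K := (le_abs_self _).trans (hK x (hBc hx))
    have hwx0 : 0 ≤ w x := Real.sqrt_nonneg _
    have hi0 : 0 ≤ ∫ y in B, (v x - v y) ^ 2 ∂lam := integral_nonneg fun y => sq_nonneg _
    have hii : Integrable (fun y => (v x - v y) ^ 2) (lam.restrict B) := by
      have h3 : (fun y => (v x - v y) ^ 2) = fun y => (v x ^ 2 - 2 * v x * v y) + v y ^ 2 := by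
        funext y; ring
      rw [h3]
      exact ((integrable_const _).sub (hvi.const_mul _)).add hvi2
    have h4 : ∫ y in B, f₁ (e.symm x) * f₁ (e.symm y) * (v x - v y) ^ 2 * w y ∂lam ≤
        K * ∫ y in B, (v x - v y) ^ 2 ∂lam := by
      rw [← integral_const_mul]
      refine integral_mono_of_nonneg (Eventually.of_forall fun y => ?_) (hii.const_mul K) ?_
      · exact mul_nonneg (mul_nonneg (mul_nonneg f₁.nonneg f₁.nonneg) (sq_nonneg _))
          (Real.sqrt_nonneg _)
      · filter_upwards [ae_restrict_mem hBm] with y hy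
        have hwy : w y ≤ K := (le_abs_self _).trans (hK y (hBc hy))
        have h5 : f₁ (e.symm x) * f₁ (e.symm y) ≤ 1 :=
          mul_le_one₀ f₁.le_one f₁.nonneg f₁.le_one
        calc f₁ (e.symm x) * f₁ (e.symm y) * (v x - v y) ^ 2 * w y
            ≤ 1 * (v x - v y) ^ 2 * w y := by
              have : 0 ≤ w y := Real.sqrt_nonneg _
              gcongr
          _ ≤ 1 * (v x - v y) ^ 2 * K := by gcongr
          _ = K * (v x - v y) ^ 2 := by ring
    calc (∫ y in B, f₁ (e.symm x) * f₁ (e.symm y) * (v x - v y) ^ 2 * w y ∂lam) * w x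
        ≤ (K * ∫ y in B, (v x - v y) ^ 2 ∂lam) * w x := by gcongr
      _ ≤ (K * ∫ y in B, (v x - v y) ^ 2 ∂lam) * K := by gcongr
      _ = _ := by ring
  have hL : ∫ x, ∫ y, f₁ x * f₁ y * (u x - u y) ^ 2 ∂μ ∂μ ≤
      K ^ 2 * ∫ x in B, ∫ y in B, (v x - v y) ^ 2 ∂lam ∂lam := by
    rw [hA, hA3, ← integral_const_mul]
    refine integral_mono_of_nonneg (Eventually.of_forall fun x => ?_)
      ((LocAux.sq_integrable (lam.restrict B) hvi hvi2).const_mul _) ?_
    · refine mul_nonneg (integral_nonneg fun y => ?_) (Real.sqrt_nonneg _)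
      exact mul_nonneg (mul_nonneg (mul_nonneg f₁.nonneg f₁.nonneg) (sq_nonneg _))
        (Real.sqrt_nonneg _)
    · filter_upwards [ae_restrict_mem hBm] with x hx
      exact hle x hx
  -- the right hand side
  have hG : Continuous (Grd g u u) := ContMDiff.continuous (Circ.sm_grd g hu hu)
  have hG0 : ∀ q, 0 ≤ Grd g u u q := fun q => grd_nonneg g u q
  have hR1 : ∫ q, f₂ q * Grd g u u q ∂μ ≤ ∫ q, Grd g u u q ∂μ := by
    refine integral_mono (LocAux.integrable_cont μ (hc2.mul hG)) (LocAux.integrable_cont μ hG)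
      fun q => ?_
    exact mul_le_of_le_one_left (hG0 q) f₂.le_one
  have ts2 : tsupport f₂ ⊆ e.source := f₂.tsupport_subset_extChartAt_source
  have hR2 : ∫ q, f₂ q * Grd g u u q ∂μ =
      ∫ y in T, f₂ (e.symm y) * Grd g u u (e.symm y) * w y ∂lam := by
    refine hμ.chart p _ (hc2.mul hG) ?_
    refine (closure_mono ?_).trans ts2
    intro x hx
    rw [Function.mem_support] at hx ⊢
    exact left_ne_zero_of_mul hx
  have hsymmc : ContinuousOn e.symm T := continuousOn_extChartAt_symm p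
  have hh : IntegrableOn (fun y => f₂ (e.symm y) * Grd g u u (e.symm y) * w y) T lam := by
    have h3 : IntegrableOn (fun y => f₂ (e.symm y) * Grd g u u (e.symm y) * w y)
        (Metric.closedBall x₀ (2 * R)) lam := by
      refine ContinuousOn.integrableOn_compact (isCompact_closedBall _ _) ?_
      have hs' : ContinuousOn e.symm (Metric.closedBall x₀ (2 * R)) := hsymmc.mono h2R
      exact ((hc2.comp_continuousOn hs').mul (hG.comp_continuousOn hs')).mul
        (fun y hy => (hwc y (h2R hy)).continuousWithinAt)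
    refine h3.of_forall_sdiff_eq_zero hTm fun y hy => ?_
    rw [hz2 y hy]
    ring
  have hR3 : ∫ y in B, Grd g u u (e.symm y) * w y ∂lam ≤
      ∫ y in T, f₂ (e.symm y) * Grd g u u (e.symm y) * w y ∂lam := by
    have h3 : ∫ y in B, Grd g u u (e.symm y) * w y ∂lam =
        ∫ y in B, f₂ (e.symm y) * Grd g u u (e.symm y) * w y ∂lam := by
      refine setIntegral_congr_fun hBm fun y hy => ?_
      simp only [ho2 y hy, one_mul]
    rw [h3]
    refine setIntegral_mono_set hh (Eventually.of_forall fun y => ?_)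
      (LE.le.eventuallyLE hBT)
    exact mul_nonneg (mul_nonneg f₂.nonneg (hG0 _)) (Real.sqrt_nonneg _)
  have hR4 : ∫ y in B, ‖fderiv ℝ v y‖ ^ 2 ∂lam ≤
      (C₁ * m⁻¹) * ∫ y in B, Grd g u u (e.symm y) * w y ∂lam := by
    rw [← integral_const_mul]
    refine integral_mono_of_nonneg (Eventually.of_forall fun y => by positivity) ?_ ?_
    · refine Integrable.const_mul ?_ _
      have h4 : ContinuousOn (fun y => Grd g u u (e.symm y) * w y) (Metric.closedBall x₀ R) :=
        (hG.comp_continuousOn (hsymmc.mono h1R)).mul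
          (fun y hy => (hwc y (h1R hy)).continuousWithinAt)
      exact (h4.integrableOn_compact hcB).mono_set hBc
    · filter_upwards [ae_restrict_mem hBm] with y hy
      have h5 := hell v y (hBc hy)
      rw [grd_chart g hu hu p (hBT hy)] at h5
      have h6 : m ≤ w y := hmin (hBc hy)
      refine h5.trans ?_
      have h7 : Grd g u u (e.symm y) ≤ m⁻¹ * (Grd g u u (e.symm y) * w y) := by
        rw [inv_mul_eq_div, le_div_iff₀ hm0]
        exact mul_le_mul_of_nonneg_left h6 (hG0 _)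
      calc C₁ * Grd g u u (e.symm y) ≤ C₁ * (m⁻¹ * (Grd g u u (e.symm y) * w y)) := by
            gcongr
        _ = _ := by ring
  calc ∫ x, ∫ y, f₁ x * f₁ y * (u x - u y) ^ 2 ∂μ ∂μ
      ≤ K ^ 2 * ∫ x in B, ∫ y in B, (v x - v y) ^ 2 ∂lam ∂lam := hL
    _ ≤ K ^ 2 * (C₀ * ∫ y in B, ‖fderiv ℝ v y‖ ^ 2 ∂lam) := by
        gcongr
        exact hpoin v fun x hx => hvs x (h1R hx)
    _ ≤ K ^ 2 * (C₀ * ((C₁ * m⁻¹) * ∫ y in B, Grd g u u (e.symm y) * w y ∂lam)) := by
        gcongr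
    _ ≤ K ^ 2 * (C₀ * ((C₁ * m⁻¹) * ∫ q, Grd g u u q ∂μ)) := by
        have := hR3.trans (hR2.symm.le.trans hR1)
        gcongr
    _ = _ := by ring

end Pool.Agent.Lib.MP_df705a_gt.Coll
end
end

section

/-!
# R: rules for integrals on a closed manifold
-/

open scoped Manifold ContDiff Topology
open Set Bundle Module Filter MeasureTheory

noncomputable section

namespace Pool.Agent.Lib.MP_df705a_gt.Coll

open Pool.Agent.Lib.MP_df705a_gt.Twist Pool.Agent.Lib.MP_df705a_gt.Perm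
open Pool.Agent.Lib.MP_df705a_gt.Circ (cf Para)

variable {E : Type*} [NormedAddCommGroup E] [NormedSpace ℝ E] [FiniteDimensional ℝ E]
  {M : Type*} [TopologicalSpace M] [ChartedSpace E M] [IsManifold 𝓘(ℝ, E) ∞ M]
  [MeasurableSpace E] [BorelSpace E] [MeasurableSpace M] [BorelSpace M]
  [CompactSpace M] [T2Space M]
  {g : Met E M} {μ : Measure M}

/-- Continuous functions are integrable.
Proof: `mmain_integrable` (Perm/MMain.lean) or `Continuous.integrable_of_hasCompactSupport`; the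
measure is finite by `hμ.fin`. -/
theorem IsRVol.integrable (hμ : IsRVol g μ) {f : M → ℝ} (hf : Continuous f) :
    Integrable f μ := by
  have := hμ.fin
  exact hf.integrable_of_hasCompactSupport (HasCompactSupport.of_compactSpace f)

/-- Decomposition of an integral with a partition of unity.
Proof: `f p = ∑ i, ρ i p * f p`, `integral_finsetSum` (`integral_finset_sum`) and
`IsRVol.integrable`. -/
theorem IsRVol.int_part (hμ : IsRVol g μ) {N : ℕ} {ρ : Fin N → M → ℝ}
    (hρ : ∀ i, Continuous (ρ i)) (h1 : ∀ p, ∑ i, ρ i p = 1) {f : M → ℝ} (hf : Continuous f) :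
    ∫ p, f p ∂μ = ∑ i, ∫ p, ρ i p * f p ∂μ := by
  rw [← integral_finsetSum]
  · refine integral_congr_ae (Eventually.of_forall fun p => ?_)
    change f p = ∑ i, ρ i p * f p
    rw [← Finset.sum_mul, h1, one_mul]
  · intro i _
    exact hμ.integrable ((hρ i).mul hf)

/-- Proof: `tsupport_mul_subset_left`. -/
theorem tsupport_part {ρ f : M → ℝ} {S : Set M} (h : tsupport ρ ⊆ S) :
    tsupport (fun p => ρ p * f p) ⊆ S :=
  (tsupport_mul_subset_left (f := ρ) (g := f)).trans h

end Pool.Agent.Lib.MP_df705a_gt.Coll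
end
end

section

/-!
# R: positivity, densities, scaling
-/

open scoped Manifold ContDiff Topology
open Set Bundle Module Filter MeasureTheory

noncomputable section

set_option linter.unusedSectionVars false

namespace Pool.Agent.Lib.MP_df705a_gt.Coll

open Pool.Agent.Lib.MP_df705a_gt.Twist Pool.Agent.Lib.MP_df705a_gt.Perm
open Pool.Agent.Lib.MP_df705a_gt.Circ (cf Para)

variable {E : Type*} [NormedAddCommGroup E] [NormedSpace ℝ E] [FiniteDimensional ℝ E]
  {M : Type*} [TopologicalSpace M] [ChartedSpace E M] [IsManifold 𝓘(ℝ, E) ∞ M]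
  [MeasurableSpace E] [BorelSpace E] [MeasurableSpace M] [BorelSpace M]
  [CompactSpace M] [T2Space M]
  {g : Met E M} {μ : Measure M}

/-- Strict positivity of the integral.
Proof: take `N, z, ρ` from `exists_part E M`; as `∑ i, ρ i p = 1` there is `i` with `0 < ρ i p`
(`Finset.exists_lt_of_sum_lt` or by contradiction with `h0 : 0 ≤ ρ i p`). Then
`∫ ρ i * f dμ ≤ ∫ f dμ` (`integral_mono`, `ρ i ≤ 1` because the other terms are nonnegative) and
`∫ ρ i * f dμ = ∫ y in target, (ρ i * f) (symm y) * √ det` (`hμ.chart`). The integrand is nonnegative,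
integrable (`integrableOn_chart`, `coeff_det_cont`), continuous on the open set `target` and
positive at `y₀ = extChartAt (z i) p` (`p ∈ source` as `ρ i p ≠ 0`, `subset_tsupport`): positivity
of the integral: `setIntegral_pos_iff_support_of_nonneg_ae`, the support contains the open
nonempty set `{y ∈ target | 0 < ...}` (`ContinuousOn.isOpen_inter_preimage`), which has positive
measure (`IsOpen.measure_pos`). -/
theorem IsRVol.pos (hμ : IsRVol g μ) {f : M → ℝ} (hf : Continuous f) (h0 : ∀ p, 0 ≤ f p)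
    {p : M} (hp : 0 < f p) : 0 < ∫ p, f p ∂μ := by
  obtain ⟨N, z, ρ, h1, h2, h3, h4⟩ := exists_part E M
  have hρ : ∀ i, Continuous (ρ i) := fun i => (h1 i).continuous
  obtain ⟨i, hi⟩ : ∃ i, 0 < ρ i p := by
    by_contra hcon
    push Not at hcon
    have h5 : ∑ i, ρ i p ≤ 0 := Finset.sum_nonpos fun i _ => hcon i
    rw [h4] at h5
    linarith
  have hle : ∀ q, ρ i q ≤ 1 := by
    intro q
    rw [← h4 q]
    exact Finset.single_le_sum (f := fun j => ρ j q) (fun j _ => h2 j q) (Finset.mem_univ i)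
  have h6 : ∫ q, ρ i q * f q ∂μ ≤ ∫ q, f q ∂μ := by
    refine integral_mono (hμ.integrable ((hρ i).mul hf)) (hμ.integrable hf) fun q => ?_
    have h7 := mul_le_mul_of_nonneg_right (hle q) (h0 q)
    rw [one_mul] at h7
    exact h7
  refine lt_of_lt_of_le ?_ h6
  have hs : tsupport (fun q => ρ i q * f q) ⊆ (extChartAt 𝓘(ℝ, E) (z i)).source :=
    tsupport_part (h3 i)
  have hc1 : Continuous (fun q => ρ i q * f q) := (hρ i).mul hf
  rw [hμ.chart (z i) (fun q => ρ i q * f q) hc1 hs]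
  have hTo : IsOpen (extChartAt 𝓘(ℝ, E) (z i)).target := isOpen_extChartAt_target (z i)
  have hcs : ContinuousOn (fun y => √ (coeff g (z i) y).det) (extChartAt 𝓘(ℝ, E) (z i)).target :=
    (coeff_det_cont g (z i)).sqrt
  have hint := integrableOn_chart (z i) hc1 hs hcs
  have hcont : ContinuousOn (fun y => (ρ i ((extChartAt 𝓘(ℝ, E) (z i)).symm y) *
      f ((extChartAt 𝓘(ℝ, E) (z i)).symm y)) * √ (coeff g (z i) y).det)
      (extChartAt 𝓘(ℝ, E) (z i)).target :=
    (hc1.comp_continuousOn (continuousOn_extChartAt_symm (z i))).mul hcs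
  have hnn : ∀ y, 0 ≤ (ρ i ((extChartAt 𝓘(ℝ, E) (z i)).symm y) *
      f ((extChartAt 𝓘(ℝ, E) (z i)).symm y)) * √ (coeff g (z i) y).det := fun y =>
    mul_nonneg (mul_nonneg (h2 i _) (h0 _)) (Real.sqrt_nonneg _)
  rw [setIntegral_pos_iff_support_of_nonneg_ae (Eventually.of_forall hnn) hint]
  have hps : p ∈ (extChartAt 𝓘(ℝ, E) (z i)).source := h3 i (subset_tsupport _ hi.ne')
  have hyT := (extChartAt 𝓘(ℝ, E) (z i)).map_source hps
  have hopen : IsOpen ((extChartAt 𝓘(ℝ, E) (z i)).target ∩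
      (fun y => (ρ i ((extChartAt 𝓘(ℝ, E) (z i)).symm y) *
      f ((extChartAt 𝓘(ℝ, E) (z i)).symm y)) * √ (coeff g (z i) y).det) ⁻¹' Ioi 0) :=
    hcont.isOpen_inter_preimage hTo isOpen_Ioi
  have hmem : extChartAt 𝓘(ℝ, E) (z i) p ∈ ((extChartAt 𝓘(ℝ, E) (z i)).target ∩
      (fun y => (ρ i ((extChartAt 𝓘(ℝ, E) (z i)).symm y) *
      f ((extChartAt 𝓘(ℝ, E) (z i)).symm y)) * √ (coeff g (z i) y).det) ⁻¹' Ioi 0) := by
    refine ⟨hyT, ?_⟩
    change 0 < (ρ i ((extChartAt 𝓘(ℝ, E) (z i)).symm (extChartAt 𝓘(ℝ, E) (z i) p)) *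
      f ((extChartAt 𝓘(ℝ, E) (z i)).symm (extChartAt 𝓘(ℝ, E) (z i) p))) *
        √ (coeff g (z i) (extChartAt 𝓘(ℝ, E) (z i) p)).det
    rw [(extChartAt 𝓘(ℝ, E) (z i)).left_inv hps]
    exact mul_pos (mul_pos hi hp) (Real.sqrt_pos.2 (coeff_det_pos g (z i) hyT))
  have hpos : 0 < (finBasis ℝ E).addHaar ((extChartAt 𝓘(ℝ, E) (z i)).target ∩
      (fun y => (ρ i ((extChartAt 𝓘(ℝ, E) (z i)).symm y) *
      f ((extChartAt 𝓘(ℝ, E) (z i)).symm y)) * √ (coeff g (z i) y).det) ⁻¹' Ioi 0) :=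
    hopen.measure_pos _ ⟨_, hmem⟩
  refine hpos.trans_le (measure_mono ?_)
  rintro y ⟨hy1, hy2⟩
  exact ⟨(show (0 : ℝ) < _ from hy2).ne', hy1⟩

/-- The densities of two metrics.
Proof: the function `G p = √ ((cof g' p).det / (cof g p).det)` is continuous (`cont_ratio`). Take
`N, z, ρ` from `exists_part E M` and `IsRVol.int_part` for both sides. It suffices that
`∫ ρ i * f dμ' = ∫ ρ i * (f * G) dμ`; by `hμ'.chart` and `hμ.chart` both are integrals over the target
of the chart at `z i`, and the integrands agree (`setIntegral_congr_fun`): for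
`y ∈ target`, `p = symm y`, `exists_det_cof` gives `c > 0` with `(coeff g' z y).det = c (cof g' p).det`
and `(coeff g z y).det = c (cof g p).det`; so `√ (coeff g' z y).det = G p * √ (coeff g z y).det`
(`Real.sqrt_mul`, `Real.sqrt_div`, `cof_det_pos`). -/
theorem IsRVol.dens (hμ : IsRVol g μ) {g' : Met E M} {μ' : Measure M} (hμ' : IsRVol g' μ')
    {f : M → ℝ} (hf : Continuous f) :
    ∫ p, f p ∂μ' = ∫ p, f p * √ ((cof g' p).det / (cof g p).det) ∂μ := by
  obtain ⟨N, z, ρ, h1, h2, h3, h4⟩ := exists_part E M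
  have hρ : ∀ i, Continuous (ρ i) := fun i => (h1 i).continuous
  have hG : Continuous fun p : M => √ ((cof g' p).det / (cof g p).det) := (cont_ratio g g').sqrt
  have hfG : Continuous fun p : M => f p * √ ((cof g' p).det / (cof g p).det) := hf.mul hG
  rw [hμ'.int_part hρ h4 hf, hμ.int_part hρ h4 hfG]
  refine Finset.sum_congr rfl fun i _ => ?_
  have hc1 : Continuous (fun q => ρ i q * f q) := (hρ i).mul hf
  have hc2 : Continuous (fun q => ρ i q * (f q * √ ((cof g' q).det / (cof g q).det))) :=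
    (hρ i).mul hfG
  rw [hμ'.chart (z i) (fun q => ρ i q * f q) hc1 (tsupport_part (h3 i)),
    hμ.chart (z i) (fun q => ρ i q * (f q * √ ((cof g' q).det / (cof g q).det))) hc2
      (tsupport_part (h3 i))]
  refine setIntegral_congr_fun (isOpen_extChartAt_target (z i)).measurableSet fun y hy => ?_
  obtain ⟨c, hc, hcg⟩ := exists_det_cof (E := E) (z i) hy
  have e1 := cof_det_pos g ((extChartAt 𝓘(ℝ, E) (z i)).symm y)
  have e2 : √ (coeff g' (z i) y).det = √ ((cof g' ((extChartAt 𝓘(ℝ, E) (z i)).symm y)).det /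
      (cof g ((extChartAt 𝓘(ℝ, E) (z i)).symm y)).det) * √ (coeff g (z i) y).det := by
    rw [← Real.sqrt_mul (div_nonneg (cof_det_pos g' _).le e1.le), hcg g, hcg g']
    congr 1
    field_simp
  change (ρ i ((extChartAt 𝓘(ℝ, E) (z i)).symm y) * f ((extChartAt 𝓘(ℝ, E) (z i)).symm y)) *
    √ (coeff g' (z i) y).det = (ρ i ((extChartAt 𝓘(ℝ, E) (z i)).symm y) *
      (f ((extChartAt 𝓘(ℝ, E) (z i)).symm y) *
        √ ((cof g' ((extChartAt 𝓘(ℝ, E) (z i)).symm y)).det /
          (cof g ((extChartAt 𝓘(ℝ, E) (z i)).symm y)).det))) * √ (coeff g (z i) y).det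
  rw [e2]
  ring

/-- Scaling.
Proof: `fin`: `hμ.fin` gives `μ univ < ∞`, `Measure.smul_apply`, `ENNReal.mul_lt_top`
(or the instance for `ENNReal.ofReal c`, write it as an `NNReal`). `chart`:
`∫ f d(c μ) = c ∫ f dμ` (`integral_smul_measure`, `ENNReal.toReal_ofReal`), `hμ.chart`, and for
`y ∈ target` `√ (coeff g' z y).det = c * √ (coeff g z y).det` by `exists_det_cof` and `hdet`
(`Real.sqrt_mul (sq_nonneg _)`, `Real.sqrt_sq hc.le`); `integral_const_mul`
(`integral_mul_left`). -/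
theorem IsRVol.scale (hμ : IsRVol g μ) {g' : Met E M} {c : ℝ} (hc : 0 < c)
    (hdet : ∀ p, (cof g' p).det = c ^ 2 * (cof g p).det) :
    IsRVol g' (ENNReal.ofReal c • μ) := by
  have hfin := hμ.fin
  refine ⟨⟨?_⟩, ?_⟩
  · rw [Measure.smul_apply, smul_eq_mul]
    exact ENNReal.mul_lt_top ENNReal.ofReal_lt_top (measure_lt_top μ univ)
  · intro z f hf hz
    rw [integral_smul_measure, ENNReal.toReal_ofReal hc.le, hμ.chart z f hf hz, smul_eq_mul,
      ← integral_const_mul]
    refine setIntegral_congr_fun (isOpen_extChartAt_target z).measurableSet fun y hy => ?_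
    obtain ⟨c', hc', hcg⟩ := exists_det_cof (E := E) z hy
    have e2 : √ (coeff g' z y).det = c * √ (coeff g z y).det := by
      have e3 : (coeff g' z y).det = c ^ 2 * (coeff g z y).det := by
        rw [hcg g, hcg g', hdet]
        ring
      rw [e3, Real.sqrt_mul (sq_nonneg c), Real.sqrt_sq hc.le]
    change c * (f ((extChartAt 𝓘(ℝ, E) z).symm y) * √ (coeff g z y).det) =
      f ((extChartAt 𝓘(ℝ, E) z).symm y) * √ (coeff g' z y).det
    rw [e2]
    ring

end Pool.Agent.Lib.MP_df705a_gt.Coll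
end
end

section

/-!
# R: the formula of Green
-/

open scoped Manifold ContDiff Topology
open Set Bundle Module Filter MeasureTheory

noncomputable section

set_option linter.unusedSectionVars false

namespace Pool.Agent.Lib.MP_df705a_gt.Coll

open Pool.Agent.Lib.MP_df705a_gt.Twist Pool.Agent.Lib.MP_df705a_gt.Perm
open Pool.Agent.Lib.MP_df705a_gt.Circ (cf Para)

variable {E : Type*} [NormedAddCommGroup E] [NormedSpace ℝ E] [FiniteDimensional ℝ E]
  {M : Type*} [TopologicalSpace M] [ChartedSpace E M] [IsManifold 𝓘(ℝ, E) ∞ M]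
  [MeasurableSpace E] [BorelSpace E] [MeasurableSpace M] [BorelSpace M]
  [CompactSpace M] [T2Space M]
  {g : Met E M} {μ : Measure M}

namespace GreenAux

theorem gradC_sum (h : Curv.Coeff E) {ι : Type*} [Fintype ι] {w : ι → E → ℝ} {y : E}
    (hw : ∀ i, DifferentiableAt ℝ (w i) y) (F : E → ℝ) :
    gradC h (fun z => ∑ i, w i z) F y = ∑ i, gradC h (w i) F y := by
  have hpd : ∀ j, Curv.pd j (fun z => ∑ i, w i z) y = ∑ i, Curv.pd j (w i) y := by
    intro j
    unfold Curv.pd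
    rw [fderiv_fun_sum fun i _ => hw i, _root_.sum_apply]
  unfold gradC
  rw [Finset.sum_comm]
  simp only [hpd, Finset.sum_mul, Finset.mul_sum]
  rw [Finset.sum_comm]
  have h1 : ∀ a, ∑ b, ∑ i, (h y)⁻¹ a b * (Curv.pd a (w i) y * Curv.pd b F y) =
      ∑ i, ∑ b, (h y)⁻¹ a b * (Curv.pd a (w i) y * Curv.pd b F y) := fun a => Finset.sum_comm
  rw [Finset.sum_congr rfl fun a _ => h1 a, Finset.sum_comm]

theorem gradC_const (h : Curv.Coeff E) (c : ℝ) (F : E → ℝ) (y : E) :
    gradC h (fun _ => c) F y = 0 := by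
  unfold gradC Curv.pd
  simp

end GreenAux

/-- The support of `v Δu + ⟨∇v, ∇u⟩`.
Proof: outside `tsupport v` the function `v` vanishes near the point, so `v p = 0` and
`Grd g v u p = 0` (`g3_gradC_congr` in Perm/Chart.lean: `rd E p v =ᶠ 0` near `extChartAt p p`, by
continuity of `(extChartAt p).symm` there). Use `closure_minimal` with
`isClosed_tsupport`. -/
theorem tsupport_green (g : Met E M) (u v : M → ℝ) :
    tsupport (fun p => v p * Lap g u p + Grd g v u p) ⊆ tsupport v := by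
  refine closure_minimal ?_ (isClosed_tsupport v)
  intro p hp
  by_contra hpv
  apply hp
  have h1 : v p = 0 := image_eq_zero_of_notMem_tsupport hpv
  have h2 : rd E p v =ᶠ[𝓝 (extChartAt 𝓘(ℝ, E) p p)] fun _ => (0 : ℝ) := by
    have h3 : (extChartAt 𝓘(ℝ, E) p).symm ⁻¹' (tsupport v)ᶜ ∈ 𝓝 (extChartAt 𝓘(ℝ, E) p p) := by
      refine (continuousAt_extChartAt_symm p).preimage_mem_nhds ?_
      rw [extChartAt_to_inv]
      exact (isClosed_tsupport v).isOpen_compl.mem_nhds hpv
    filter_upwards [h3] with y hy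
    exact image_eq_zero_of_notMem_tsupport (f := v) hy
  have h4 : Grd g v u p = 0 := by
    have h5 := g3_gradC_congr (h := coeff g p) h2 (EventuallyEq.refl _ (rd E p u))
    exact h5.trans (GreenAux.gradC_const _ _ _ _)
  change v p * Lap g u p + Grd g v u p = 0
  rw [h1, h4, zero_mul, zero_add]

/-- The formula of Green in a chart.
Proof: `Z y = (1 * (Real.exp 0 * √ det)) • gradM (finBasis ℝ E) (coeff g z y) (fderiv ℝ (rd E z u) y)`
is `C^1` on the target (`TaskG1.base_smooth` of Circ/NoPos.lean) and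
`dv Z y = √ det * Lap g u (symm y)` (see the proof of `TaskG1.fld_dv`: `dv_slice` with `ψ = 0`, and
`lap_chart`). Let `r = hat 𝓘(ℝ, E) z v`, smooth with compact support in the target
(`hat_contDiff`, `hat_hasCompactSupport`, `tsupport_hat`, `hatK_subset`). By `ibp` (for the measure
`(finBasis ℝ E).addHaar`) `∫ r * dv Z = - ∫ fderiv r (Z ·)`. On the target
`fderiv r y (Z y) = √ det * Grd g v u (symm y)` (`hat_eventuallyEq`, `TaskG1.apply_gradM`,
`grd_chart`), outside the target both integrands vanish; so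
`∫ y in target, (v (symm y) * Lap g u (symm y) + Grd g v u (symm y)) * √ det = 0`.
(Integrability of the two parts: as in `ibp`, `integrable_aux`.) -/
theorem green_chart (g : Met E M) (z : M) {u v : M → ℝ} (hu : Sm E u) (hv : Sm E v)
    (hz : tsupport v ⊆ (extChartAt 𝓘(ℝ, E) z).source) :
    ∫ y in (extChartAt 𝓘(ℝ, E) z).target,
      (v ((extChartAt 𝓘(ℝ, E) z).symm y) * Lap g u ((extChartAt 𝓘(ℝ, E) z).symm y) +
        Grd g v u ((extChartAt 𝓘(ℝ, E) z).symm y)) * √ (coeff g z y).det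
        ∂(finBasis ℝ E).addHaar = 0 := by
  have hTo : IsOpen (extChartAt 𝓘(ℝ, E) z).target := isOpen_extChartAt_target z
  have h1s : Sm E (fun _ : M => (1 : ℝ)) := sm_const 1
  obtain ⟨Z, hZd⟩ : ∃ Z : E → E, Z = Circ.TaskG1.fld g (fun _ : M => (1 : ℝ)) u z := ⟨_, rfl⟩
  have hZs : ContDiffOn ℝ 1 Z (extChartAt 𝓘(ℝ, E) z).target := fun y hy => by
    rw [hZd]
    exact (Circ.TaskG1.fld_smooth g h1s hu z hy).contDiffWithinAt
  have hdv : ∀ y ∈ (extChartAt 𝓘(ℝ, E) z).target, dv Z y =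
      √ (coeff g z y).det * Lap g u ((extChartAt 𝓘(ℝ, E) z).symm y) := by
    intro y hy
    rw [hZd, Circ.TaskG1.fld_dv g h1s hu z hy]
    have h2 : Grd g (fun _ : M => (1 : ℝ)) u ((extChartAt 𝓘(ℝ, E) z).symm y) = 0 :=
      GreenAux.gradC_const _ _ _ _
    rw [h2, zero_add, one_mul]
  obtain ⟨r, hrd⟩ : ∃ r : E → ℝ, r = hat 𝓘(ℝ, E) z v := ⟨_, rfl⟩
  have hrs : ContDiff ℝ ∞ r := by
    rw [hrd]
    exact hat_contDiff 𝓘(ℝ, E) hv hz
  have hrc : HasCompactSupport r := by
    rw [hrd]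
    exact hat_hasCompactSupport 𝓘(ℝ, E) hz
  have hrT : tsupport r ⊆ (extChartAt 𝓘(ℝ, E) z).target := by
    rw [hrd]
    exact (tsupport_hat 𝓘(ℝ, E) hz).trans (hatK_subset 𝓘(ℝ, E) hz)
  have hre : ∀ y ∈ (extChartAt 𝓘(ℝ, E) z).target, r =ᶠ[𝓝 y] rd E z v := by
    intro y hy
    rw [hrd]
    exact hat_eventuallyEq 𝓘(ℝ, E) hy
  have hfd : ∀ y ∈ (extChartAt 𝓘(ℝ, E) z).target, fderiv ℝ r y (Z y) =
      √ (coeff g z y).det * Grd g v u ((extChartAt 𝓘(ℝ, E) z).symm y) := by
    intro y hy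
    rw [(hre y hy).fderiv_eq, hZd]
    unfold Circ.TaskG1.fld
    rw [map_smul, map_smul, Circ.TaskG1.apply_gradM, grd_chart g hv hu z hy, smul_eq_mul,
      smul_eq_mul, Real.exp_zero, one_mul, one_mul]
    unfold rd
    rw [one_mul]
  have hr0 : ∀ y, y ∉ tsupport r → r y = 0 := fun y hy => image_eq_zero_of_notMem_tsupport hy
  have hr0' : ∀ y, y ∉ tsupport r → fderiv ℝ r y = 0 := fun y hy =>
    image_eq_zero_of_notMem_tsupport fun h => hy (tsupport_fderiv_subset ℝ h)
  have hr1 : ContDiff ℝ 1 r := hrs.of_le (by norm_num)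
  have hLc : ContinuousOn (fun y => √ (coeff g z y).det *
      Lap g u ((extChartAt 𝓘(ℝ, E) z).symm y)) (extChartAt 𝓘(ℝ, E) z).target :=
    (coeff_det_cont g z).sqrt.mul
      ((Circ.sm_lap g hu).continuous.comp_continuousOn (continuousOn_extChartAt_symm z))
  have i1 : Integrable (fun y => r y * dv Z y) (finBasis ℝ E).addHaar := by
    refine integrable_aux _ hrc hrT ?_ ?_
    · refine (hrs.continuous.continuousOn.mul hLc).congr fun y hy => ?_
      rw [hdv y hy]
      rfl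
    · intro y hy
      rw [hr0 y hy, zero_mul]
  have i2 : Integrable (fun y => fderiv ℝ r y (Z y)) (finBasis ℝ E).addHaar := by
    refine integrable_aux _ hrc hrT ?_ ?_
    · exact (hr1.continuous_fderiv one_ne_zero).continuousOn.clm_apply hZs.continuousOn
    · intro y hy
      rw [hr0' y hy]
      simp
  have hib := ibp (finBasis ℝ E).addHaar hrs hrc hTo hrT hZs
  have h3 : ∫ y, (r y * dv Z y + fderiv ℝ r y (Z y)) ∂(finBasis ℝ E).addHaar = 0 := by
    rw [integral_add i1 i2, hib]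
    ring
  have h4 : ∫ y in (extChartAt 𝓘(ℝ, E) z).target, (r y * dv Z y + fderiv ℝ r y (Z y))
      ∂(finBasis ℝ E).addHaar = ∫ y, (r y * dv Z y + fderiv ℝ r y (Z y))
        ∂(finBasis ℝ E).addHaar := by
    refine setIntegral_eq_integral_of_forall_compl_eq_zero fun y hy => ?_
    have h5 : y ∉ tsupport r := fun h => hy (hrT h)
    rw [hr0 y h5, hr0' y h5]
    simp
  rw [← h3, ← h4]
  refine setIntegral_congr_fun hTo.measurableSet fun y hy => ?_
  have h6 : r y = v ((extChartAt 𝓘(ℝ, E) z).symm y) := (hre y hy).self_of_nhds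
  change _ = r y * dv Z y + fderiv ℝ r y (Z y)
  rw [hdv y hy, hfd y hy, h6]
  ring

/-- The formula of Green.
Proof: take `N, z, ρ` from `exists_part E M`. With `v_i = ρ i * v` (smooth), pointwise
`v Lap u + Grd v u = ∑ i, (v_i Lap u + Grd v_i u)`: `Fib.grd_mul_left` (Fib/DivId.lean) gives
`Grd g v_i u = ρ_i Grd g v u + v Grd g ρ_i u` and `∑ i, Grd g ρ_i u = Grd g 1 u = 0`: for this
use that `∑ i, rd E p (ρ i) = 1` so the sum of the derivatives vanishes (`Curv.pd`, `fderiv_fun_sum`,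
`G4.rd_contDiffAt`, `G4.diff_of` as in Fib/DivId.lean). Each function `v_i Lap u + Grd v_i u` is
continuous (`Circ.sm_lap`, `Circ.sm_grd`) with support in the source of the chart at `z i`
(`tsupport_green`, `tsupport_part`), so its integral is `0` by `hμ.chart` and `green_chart`.
`integral_finset_sum`, `IsRVol.integrable`. -/
theorem IsRVol.green (hμ : IsRVol g μ) {u v : M → ℝ} (hu : Sm E u) (hv : Sm E v) :
    ∫ p, (v p * Lap g u p + Grd g v u p) ∂μ = 0 := by
  obtain ⟨N, z, ρ, h1, h2, h3, h4⟩ := exists_part E M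
  have hw : ∀ i, Sm E (fun p => ρ i p * v p) := fun i => ContMDiff.mul (h1 i) hv
  have hsum : ∀ p, v p * Lap g u p + Grd g v u p =
      ∑ i, ((ρ i p * v p) * Lap g u p + Grd g (fun p => ρ i p * v p) u p) := by
    intro p
    have h5 : rd E p v = fun y => ∑ i, rd E p (fun p => ρ i p * v p) y := by
      funext y
      unfold rd
      rw [← Finset.sum_mul, h4, one_mul]
    have h6 : Grd g v u p = ∑ i, Grd g (fun p => ρ i p * v p) u p := by
      have h7 := GreenAux.gradC_sum (coeff g p) (w := fun i => rd E p (fun p => ρ i p * v p))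
        (y := extChartAt 𝓘(ℝ, E) p p) (fun i => G4.diff_of (G4.rd_contDiffAt (hw i) p))
        (rd E p u)
      have h8 : Grd g v u p = gradC (coeff g p) (fun y => ∑ i, rd E p (fun p => ρ i p * v p) y)
          (rd E p u) (extChartAt 𝓘(ℝ, E) p p) := by
        rw [← h5]
        rfl
      exact h8.trans h7
    rw [Finset.sum_add_distrib, ← h6, ← Finset.sum_mul, ← Finset.sum_mul, h4, one_mul]
  have hc : ∀ i, Continuous (fun p => (ρ i p * v p) * Lap g u p +
      Grd g (fun p => ρ i p * v p) u p) := fun i =>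
    ((hw i).continuous.mul (Circ.sm_lap g hu).continuous).add
      (Circ.sm_grd g (hw i) hu).continuous
  have hs : ∀ i, tsupport (fun p => ρ i p * v p) ⊆ (extChartAt 𝓘(ℝ, E) (z i)).source :=
    fun i => tsupport_part (h3 i)
  have h0 : ∀ i, ∫ p, ((ρ i p * v p) * Lap g u p + Grd g (fun p => ρ i p * v p) u p) ∂μ = 0 := by
    intro i
    rw [hμ.chart (z i) _ (hc i) ((tsupport_green g u (fun p => ρ i p * v p)).trans (hs i))]
    exact green_chart g (z i) hu (hw i) (hs i)
  rw [integral_congr_ae (Eventually.of_forall hsum),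
    integral_finsetSum _ fun i _ => hμ.integrable (hc i)]
  exact Finset.sum_eq_zero fun i _ => h0 i

end Pool.Agent.Lib.MP_df705a_gt.Coll
end
end

section

/-!
# Spectral pinching, part S1, S1h: the sphere, cutoff functions
-/

open scoped Manifold ContDiff Topology
open Set Bundle Module Filter MeasureTheory

noncomputable section

set_option linter.unusedSectionVars false

namespace Pool.Agent.Lib.MP_df705a_gt.Pin.S1

open Pool.Agent.Lib.MP_df705a_gt.Twist Pool.Agent.Lib.MP_df705a_gt.Perm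

namespace S1hAux

section calc2

variable {U : Type*} [NormedAddCommGroup U] [NormedSpace ℝ U]

/-- The second derivative at a local maximum is nonpositive. -/
theorem second_le_zero {F : U → ℝ} {y : U} (hF : ContDiffAt ℝ 2 F y) (hmax : IsLocalMax F y)
    (v : U) : fderiv ℝ (fderiv ℝ F) y v v ≤ 0 := by
  by_contra hcon
  rw [not_le] at hcon
  set g : ℝ → ℝ := fun t => F (y + t • v) with hg
  have hline : ∀ t : ℝ, HasDerivAt (fun t : ℝ => y + t • v) v t := by
    intro t
    simpa using ((hasDerivAt_id t).smul_const v).const_add y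
  have hlc : ContinuousAt (fun t : ℝ => y + t • v) 0 := (hline 0).continuousAt
  have hl0 : y + (0 : ℝ) • v = y := by simp
  have hev : ∀ᶠ t in 𝓝 (0 : ℝ), ContDiffAt ℝ 2 F (y + t • v) := by
    have h1 := hF.eventually (by simp)
    have h2 : Tendsto (fun t : ℝ => y + t • v) (𝓝 0) (𝓝 y) := by
      have := hlc.tendsto
      rwa [hl0] at this
    exact h2.eventually h1
  have hgd : ∀ᶠ t in 𝓝 (0 : ℝ), deriv g t = fderiv ℝ F (y + t • v) v := by
    filter_upwards [hev] with t ht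
    exact ((ht.differentiableAt two_ne_zero).hasFDerivAt.comp_hasDerivAt t (hline t)).deriv
  have hF1 : ContDiffAt ℝ 1 (fderiv ℝ F) y := hF.fderiv_right (by norm_num)
  have hgdd : deriv (deriv g) 0 = fderiv ℝ (fderiv ℝ F) y v v := by
    have h1 : HasFDerivAt (fderiv ℝ F) (fderiv ℝ (fderiv ℝ F) y) (y + (0 : ℝ) • v) := by
      rw [hl0]
      exact (hF1.differentiableAt one_ne_zero).hasFDerivAt
    have h2 : HasDerivAt (fun t : ℝ => fderiv ℝ F (y + t • v)) (fderiv ℝ (fderiv ℝ F) y v) 0 :=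
      h1.comp_hasDerivAt (0 : ℝ) (hline 0)
    have h3 : HasDerivAt (fun t : ℝ => fderiv ℝ F (y + t • v) v)
        (fderiv ℝ (fderiv ℝ F) y v v) 0 := by
      have := h2.clm_apply (hasDerivAt_const (0 : ℝ) v)
      simpa using this
    exact (h3.congr_of_eventuallyEq hgd).deriv
  have hgmax : IsLocalMax g 0 := by
    have h2 : Tendsto (fun t : ℝ => y + t • v) (𝓝 0) (𝓝 y) := by
      have := hlc.tendsto
      rwa [hl0] at this
    have h3 := h2.eventually hmax
    filter_upwards [h3] with t ht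
    simp only [hg, hl0]
    exact ht
  have hg0 : deriv g 0 = 0 := hgmax.deriv_eq_zero
  have hgc : ContinuousAt g 0 := by
    have : ContinuousAt F (y + (0 : ℝ) • v) := by
      rw [hl0]; exact (hF.differentiableAt two_ne_zero).continuousAt
    exact this.comp (f := fun t : ℝ => y + t • v) hlc
  have hgmin : IsLocalMin g 0 := isLocalMin_of_deriv_deriv_pos (by rw [hgdd]; exact hcon) hg0 hgc
  have hconst : ∀ᶠ t in 𝓝 (0 : ℝ), g t = g 0 := by
    filter_upwards [hgmax, hgmin] with t h1 h2 using le_antisymm h1 h2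
  have h5 : deriv g =ᶠ[𝓝 0] fun _ => 0 := by
    have h6 : g =ᶠ[𝓝 0] fun _ => g 0 := hconst
    have h7 := h6.deriv
    simpa using h7
  have h8 : deriv (deriv g) 0 = 0 := by
    rw [h5.deriv_eq]; simp
  rw [hgdd] at h8
  linarith

end calc2

/-- Pairing of a positive semidefinite matrix with a nonnegative form. -/
theorem psd_pair {n : ℕ} {P : Matrix (Fin n) (Fin n) ℝ} (hP : P.PosSemidef)
    (S : Fin n → Fin n → ℝ) (hS : ∀ y : Fin n → ℝ, 0 ≤ ∑ j, ∑ k, y j * y k * S j k) :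
    0 ≤ ∑ j, ∑ k, P j k * S j k := by
  obtain ⟨B, hB⟩ : ∃ B : Matrix (Fin n) (Fin n) ℝ, P = B.transpose * B := by
    open scoped MatrixOrder in
    obtain ⟨B, hB⟩ := CStarAlgebra.nonneg_iff_eq_star_mul_self.mp hP.nonneg
    refine ⟨B, ?_⟩
    rw [hB, Matrix.star_eq_conjTranspose, Matrix.conjTranspose_eq_transpose_of_trivial]
  have h1 : ∑ j, ∑ k, P j k * S j k = ∑ a, ∑ j, ∑ k, B a j * B a k * S j k := by
    have h2 : ∀ j k, P j k * S j k = ∑ a, B a j * B a k * S j k := by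
      intro j k
      rw [hB, Matrix.mul_apply, Finset.sum_mul]
      rfl
    simp only [h2]
    rw [Finset.sum_comm]
    rw [Finset.sum_congr rfl fun k _ => Finset.sum_comm]
    rw [Finset.sum_comm]
    apply Finset.sum_congr rfl
    intro a _
    exact Finset.sum_comm
  rw [h1]
  exact Finset.sum_nonneg fun a _ => hS (fun j => B a j)

end S1hAux

/-- Proof: the unit sphere of `EuclideanSpace ℝ (Fin (n + 1))` with the charted space and manifold
structure of `Mathlib.Geometry.Manifold.Instances.Sphere` (the fact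
`finrank ℝ (EuclideanSpace ℝ (Fin (n + 1))) = n + 1` is `finrank_euclideanSpace_fin`); `z` is any point, the
preferred chart is `stereographic'`, with target `univ` (`stereographic'_target`). -/
theorem exists_sphere (n : ℕ) :
    ∃ (M : Type) (_ : TopologicalSpace M) (_ : ChartedSpace (EuclideanSpace ℝ (Fin n)) M)
      (_ : IsManifold 𝓘(ℝ, EuclideanSpace ℝ (Fin n)) ∞ M) (_ : CompactSpace M) (_ : T2Space M)
      (z : M), (extChartAt 𝓘(ℝ, EuclideanSpace ℝ (Fin n)) z).target = univ := by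
  have : Fact (finrank ℝ (EuclideanSpace ℝ (Fin (n + 1))) = n + 1) :=
    ⟨finrank_euclideanSpace_fin⟩
  have hne : (Metric.sphere (0 : EuclideanSpace ℝ (Fin (n + 1))) 1).Nonempty :=
    NormedSpace.sphere_nonempty.2 zero_le_one
  obtain ⟨z, hz⟩ := hne
  have : IsManifold 𝓘(ℝ, EuclideanSpace ℝ (Fin n)) ω
      (Metric.sphere (0 : EuclideanSpace ℝ (Fin (n + 1))) 1) :=
    EuclideanSpace.instIsManifoldSphere
  refine ⟨Metric.sphere (0 : EuclideanSpace ℝ (Fin (n + 1))) 1, inferInstance, inferInstance,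
    IsManifold.of_le (n := ω) (by simp), inferInstance, inferInstance, ⟨z, hz⟩, ?_⟩
  rw [extChartAt_target]
  simp only [modelWithCornersSelf_coe_symm, Set.preimage_id, modelWithCornersSelf_coe,
    Set.range_id, Set.inter_univ]
  exact stereographic'_target _

variable {E : Type*} [NormedAddCommGroup E] [NormedSpace ℝ E] [FiniteDimensional ℝ E]
  {M : Type*} [TopologicalSpace M] [ChartedSpace E M] [IsManifold 𝓘(ℝ, E) ∞ M]
  [CompactSpace M] [T2Space M]

/-- Proof: choose open sets `C ⊆ V`, `closure V ⊆ W`, `closure W ⊆ U` (normality) and apply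
`exists_contMDiffMap_zero_one_of_isClosed` (or the name of this fact in
`Mathlib.Geometry.Manifold.PartitionOfUnity`) to the closed sets `Wᶜ` and `closure V`. -/
theorem exists_cut {C U : Set M} (hC : IsClosed C) (hU : IsOpen U) (hCU : C ⊆ U) :
    ∃ χ : M → ℝ, Sm E χ ∧ (∀ x, 0 ≤ χ x) ∧ (∀ x, χ x ≤ 1) ∧ tsupport χ ⊆ U ∧
      ∃ V : Set M, IsOpen V ∧ C ⊆ V ∧ ∀ x ∈ V, χ x = 1 := by
  obtain ⟨W, hW, hCW, hWU⟩ := normal_exists_closure_subset hC hU hCU
  obtain ⟨V, hV, hCV, hVW⟩ := normal_exists_closure_subset hC hW hCW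
  have hd : Disjoint (Wᶜ) (closure V) :=
    Set.disjoint_left.2 fun x hx hx' => hx (hVW hx')
  obtain ⟨f, hf0, hf1, hf⟩ := exists_contMDiffMap_zero_one_of_isClosed (n := ⊤) 𝓘(ℝ, E)
    hW.isClosed_compl isClosed_closure hd
  refine ⟨f, f.contMDiff, fun x => (hf x).1, fun x => (hf x).2, ?_, V, hV, hCV,
    fun x hx => hf1 (subset_closure hx)⟩
  refine (closure_mono ?_).trans hWU
  intro x hx
  by_contra hxW
  exact hx (hf0 hxW)

/-- The Laplacian in coordinates only depends on the metric near the point. -/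
theorem lapC_congr_metric {h h' : Curv.Coeff E} {x : E} (hh : h =ᶠ[𝓝 x] h') (f : E → ℝ) :
    lapC h f x = lapC h' f x := by
  have h0 : h x = h' x := hh.self_of_nhds
  have h1 : ∀ i j k, Curv.christoffel h i j k x = Curv.christoffel h' i j k x := by
    intro i j k
    have h2 : ∀ a b, (fun y => h y a b) =ᶠ[𝓝 x] fun y => h' y a b := by
      intro a b
      filter_upwards [hh] with y hy
      rw [hy]
    unfold Curv.christoffel
    rw [g3_pd_congr (h2 j k), g3_pd_congr (h2 i k), g3_pd_congr (h2 i j)]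
  unfold lapC Curv.covHess
  simp only [h0, h1]

/-- Proof: at a local minimum the differential of `f` vanishes, so `covHess` is the matrix of the
second derivatives, which is positive semidefinite (`second_le_zero` in Boundary.lean for `-f`, or the
second derivative test along lines), and the trace of the product of the positive definite matrix
`(k x)⁻¹` with a positive semidefinite matrix is nonnegative (write `(k x)⁻¹ = ∑ v vᵀ`, e.g.
`Matrix.PosSemidef` square root or spectral theorem). -/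
theorem lapC_nonneg_min {k : Curv.Coeff E} {f : E → ℝ} {x : E} (hk : (k x).PosDef)
    (hf : ContDiffAt ℝ ∞ f x) (hx : IsLocalMin f x) : 0 ≤ lapC k f x := by
  have h0 : fderiv ℝ f x = 0 := hx.fderiv_eq_zero
  have h1 : ∀ i j, Curv.covHess k f x i j =
      fderiv ℝ (fderiv ℝ f) x (finBasis ℝ E i) (finBasis ℝ E j) := by
    intro i j
    have h2 : ∀ q, Curv.pd q f x = 0 := by
      intro q
      unfold Curv.pd
      rw [h0]
      rfl
    unfold Curv.covHess
    simp only [h2, mul_zero, Finset.sum_const_zero, sub_zero]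
    have h3 : DifferentiableAt ℝ (fderiv ℝ f) x :=
      (hf.fderiv_right (m := ∞) (by simp)).differentiableAt (by simp)
    have h4 : HasFDerivAt (fun y => fderiv ℝ f y (finBasis ℝ E j))
        ((fderiv ℝ (fderiv ℝ f) x).flip (finBasis ℝ E j)) x := by
      have h5 := h3.hasFDerivAt.clm_apply (hasFDerivAt_const (finBasis ℝ E j) x)
      simpa using h5
    have h6 : Curv.pd i (Curv.pd j f) x = fderiv ℝ (fun y => fderiv ℝ f y (finBasis ℝ E j)) x
      (finBasis ℝ E i) := rfl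
    rw [h6, h4.fderiv]
    rfl
  unfold lapC
  simp only [h1]
  refine S1hAux.psd_pair hk.inv.posSemidef
    (fun i j => fderiv ℝ (fderiv ℝ f) x (finBasis ℝ E i) (finBasis ℝ E j)) ?_
  intro y
  set v : E := ∑ i, y i • finBasis ℝ E i with hv
  have h7 : ContDiffAt ℝ 2 (fun x => - f x) x := (hf.of_le (by norm_cast)).neg
  have h8 : IsLocalMax (fun x => - f x) x := hx.neg
  have h9 := S1hAux.second_le_zero h7 h8 v
  have h10 : fderiv ℝ (fderiv ℝ fun x => - f x) x v v = - fderiv ℝ (fderiv ℝ f) x v v := by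
    have h11 : (fderiv ℝ fun x => - f x) = fun y => - fderiv ℝ f y := by
      funext y
      exact fderiv_neg
    rw [h11]
    have h12 : fderiv ℝ (fun y => - fderiv ℝ f y) x = - fderiv ℝ (fderiv ℝ f) x := fderiv_neg
    rw [h12]
    rfl
  rw [h10] at h9
  have h13 : fderiv ℝ (fderiv ℝ f) x v v = ∑ j, ∑ k, y j * y k *
      fderiv ℝ (fderiv ℝ f) x (finBasis ℝ E j) (finBasis ℝ E k) := by
    conv_lhs => rw [hv]
    simp only [map_sum, map_smul, _root_.sum_apply, _root_.smul_apply, smul_eq_mul,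
      Finset.mul_sum]
    rw [Finset.sum_comm]
    refine Finset.sum_congr rfl fun i _ => Finset.sum_congr rfl fun j _ => ?_
    ring
  rw [← h13]
  linarith

end Pool.Agent.Lib.MP_df705a_gt.Pin.S1
end
end

section

/-!
# TASK G3a: horizontally conformal maps and gradient products
-/

open scoped Manifold ContDiff Topology
open Set Bundle Module Filter

noncomputable section

namespace Pool.Agent.Lib.MP_df705a_gt.Circ

open Pool.Agent.Lib.MP_df705a_gt.Twist Pool.Agent.Lib.MP_df705a_gt.Perm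

variable {E₁ : Type*} [NormedAddCommGroup E₁] [NormedSpace ℝ E₁] [FiniteDimensional ℝ E₁]
  {B : Type*} [TopologicalSpace B] [ChartedSpace E₁ B] [IsManifold 𝓘(ℝ, E₁) ∞ B]
  {E : Type*} [NormedAddCommGroup E] [NormedSpace ℝ E] [FiniteDimensional ℝ E]
  {M : Type*} [TopologicalSpace M] [ChartedSpace E M] [IsManifold 𝓘(ℝ, E) ∞ M]

theorem sm_comp_pr {pr : M → B} (hpr : ContMDiff 𝓘(ℝ, E) 𝓘(ℝ, E₁) ∞ pr) {u : B → ℝ}
    (hu : Sm E₁ u) : Sm E (fun p => u (pr p)) :=
  ContMDiff.comp hu hpr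

namespace GrdSub

/-- The gradient is characterized by the bilinear form. -/
theorem mform_gradM (g : ContMDiffRiemannianMetric 𝓘(ℝ, E) ∞ E
      (fun x : M => TangentSpace 𝓘(ℝ, E) x)) (z : M) {y : E}
    (hy : y ∈ (extChartAt 𝓘(ℝ, E) z).target) (L : E →L[ℝ] ℝ) (w : E) :
    mform 𝓘(ℝ, E) g z y (gradM (finBasis ℝ E) (coeff g z y) L) w = L w := by
  set b := finBasis ℝ E with hb
  have hpos : (coeff g z y).PosDef := chartMetric_posDef 𝓘(ℝ, E) b g z hy
  have hsymm : ∀ i j, coeff g z y i j = coeff g z y j i :=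
    fun i j => chartMetric_symm 𝓘(ℝ, E) b g z y i j
  have hdet : IsUnit (coeff g z y).det := hpos.det_pos.ne'.isUnit
  have hsymm' : (coeff g z y).transpose = coeff g z y := by
    ext i j; exact hsymm j i
  have hbase : ∀ k, mform 𝓘(ℝ, E) g z y (gradM b (coeff g z y) L) (b k) = L (b k) := by
    intro k
    unfold gradM
    simp only [map_sum, map_smul, sum_apply, smul_apply, smul_eq_mul]
    have h1 : ∀ i, mform 𝓘(ℝ, E) g z y (b i) (b k) = coeff g z y i k := fun i => rfl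
    simp only [h1, Finset.sum_mul]
    rw [Finset.sum_comm]
    have h2 : ∀ j, ∑ i, (coeff g z y)⁻¹ i j * L (b j) * coeff g z y i k =
        (if j = k then 1 else 0) * L (b j) := by
      intro j
      have h3 : ∑ i, (coeff g z y)⁻¹ i j * coeff g z y i k = if j = k then 1 else 0 := by
        have h4 : ((coeff g z y)⁻¹.transpose * coeff g z y) j k = (1 : Matrix _ _ ℝ) j k := by
          have h5 : (coeff g z y)⁻¹.transpose * coeff g z y = 1 := by
            rw [Matrix.transpose_nonsing_inv, hsymm', Matrix.nonsing_inv_mul _ hdet]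
          rw [h5]
        rw [Matrix.mul_apply, Matrix.one_apply] at h4
        rw [← h4]
        apply Finset.sum_congr rfl
        intro i _
        rw [Matrix.transpose_apply]
      rw [← h3, Finset.sum_mul]
      apply Finset.sum_congr rfl
      intro i _
      ring
    rw [Finset.sum_congr rfl (fun j _ => h2 j)]
    simp
  have h5 : (mform 𝓘(ℝ, E) g z y (gradM b (coeff g z y) L) : E →ₗ[ℝ] ℝ) = (L : E →ₗ[ℝ] ℝ) :=
    b.ext (fun k => hbase k)
  exact LinearMap.congr_fun h5 w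

theorem fderiv_rd {v : M → ℝ} (hv : Sm E v) (z : M) {y : E}
    (hy : y ∈ (extChartAt 𝓘(ℝ, E) z).target) (w : E) :
    fderiv ℝ (rd E z v) y w = mfderiv 𝓘(ℝ, E) 𝓘(ℝ, ℝ) v ((extChartAt 𝓘(ℝ, E) z).symm y)
      (mfderiv 𝓘(ℝ, E) 𝓘(ℝ, E) (extChartAt 𝓘(ℝ, E) z).symm y w) := by
  have h1 : MDifferentiableAt 𝓘(ℝ, E) 𝓘(ℝ, ℝ) v ((extChartAt 𝓘(ℝ, E) z).symm y) :=
    (ContMDiff.contMDiffAt hv).mdifferentiableAt (by simp)
  have h2 := mfderiv_comp (I := 𝓘(ℝ, E)) (I' := 𝓘(ℝ, E)) (I'' := 𝓘(ℝ, ℝ)) y h1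
    (symm_mdiff 𝓘(ℝ, E) z hy)
  have h3 : rd E z v = v ∘ (extChartAt 𝓘(ℝ, E) z).symm := rfl
  rw [h3, ← mfderiv_eq_fderiv, h2]
  rfl

theorem gradC_eq (h : Curv.Coeff E) (u v : E → ℝ) (x : E) :
    gradC h u v x = fderiv ℝ u x (gradM (finBasis ℝ E) (h x) (fderiv ℝ v x)) := by
  unfold gradC gradM
  rw [map_sum]
  apply Finset.sum_congr rfl
  intro i _
  rw [map_smul, smul_eq_mul, Finset.sum_mul]
  apply Finset.sum_congr rfl
  intro j _
  unfold Curv.pd
  ring

theorem inner_ne (g : ContMDiffRiemannianMetric 𝓘(ℝ, E) ∞ E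
      (fun x : M => TangentSpace 𝓘(ℝ, E) x)) {p : M} {X Y : TangentSpace 𝓘(ℝ, E) p}
    (h : ∀ W, g.inner p X W = g.inner p Y W) : X = Y := by
  by_contra hne
  have h1 := g.pos p (X - Y) (sub_ne_zero.mpr hne)
  have h2 : g.inner p (X - Y) (X - Y) = 0 := by
    have h3 : g.inner p (X - Y) = g.inner p X - g.inner p Y := map_sub _ _ _
    rw [h3]
    exact sub_eq_zero.mpr (h (X - Y))
  exact h1.ne' h2

/-- The gradient product is the differential of `u` at the gradient of `v`. -/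
theorem grd_eq (g : ContMDiffRiemannianMetric 𝓘(ℝ, E) ∞ E
      (fun x : M => TangentSpace 𝓘(ℝ, E) x)) {u v : M → ℝ} (hu : Sm E u) (hv : Sm E v) {p : M}
    {X : TangentSpace 𝓘(ℝ, E) p}
    (hX : ∀ W : TangentSpace 𝓘(ℝ, E) p, g.inner p X W = mfderiv 𝓘(ℝ, E) 𝓘(ℝ, ℝ) v p W) :
    Grd g u v p = mfderiv 𝓘(ℝ, E) 𝓘(ℝ, ℝ) u p X := by
  have hex : ∃ z : M, ∃ y ∈ (extChartAt 𝓘(ℝ, E) z).target, (extChartAt 𝓘(ℝ, E) z).symm y = p :=
    ⟨p, extChartAt 𝓘(ℝ, E) p p, mem_extChartAt_target p, extChartAt_to_inv p⟩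
  obtain ⟨z, y, hy, rfl⟩ := hex
  rw [← grd_chart g hu hv z hy, gradC_eq, fderiv_rd hu z hy]
  congr 1
  have hinv := isInvertible_mfderivWithin_extChartAt_symm (I := 𝓘(ℝ, E)) (x := z) hy
  rw [ModelWithCorners.range_eq_univ, mfderivWithin_univ] at hinv
  apply inner_ne g
  intro W
  obtain ⟨w, rfl⟩ := hinv.surjective W
  rw [hX, ← fderiv_rd hv z hy w]
  exact mform_gradM g z hy _ w

/-- Riesz representation. -/
theorem exists_riesz (g : ContMDiffRiemannianMetric 𝓘(ℝ, E) ∞ E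
      (fun x : M => TangentSpace 𝓘(ℝ, E) x)) (p : M) (L : TangentSpace 𝓘(ℝ, E) p →L[ℝ] ℝ) :
    ∃ X : TangentSpace 𝓘(ℝ, E) p, ∀ W, g.inner p X W = L W := by
  let G : E →L[ℝ] E →L[ℝ] ℝ := g.inner p
  let L' : E →L[ℝ] ℝ := L
  let F : E →ₗ[ℝ] Dual ℝ E :=
    { toFun := fun X => (G X : E →ₗ[ℝ] ℝ)
      map_add' := by intro X Y; rw [map_add]; rfl
      map_smul' := by intro c X; rw [map_smul]; rfl }
  have hinj : Function.Injective F := by
    intro X Y hXY
    exact inner_ne (E := E) g (p := p) (fun W => LinearMap.congr_fun hXY W)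
  have hsurj : Function.Surjective F :=
    (LinearMap.injective_iff_surjective_of_finrank_eq_finrank
      (Subspace.dual_finrank_eq (K := ℝ) (V := E)).symm).mp hinj
  obtain ⟨X, hX⟩ := hsurj (L' : E →ₗ[ℝ] ℝ)
  exact ⟨X, fun W => LinearMap.congr_fun hX W⟩

end GrdSub

open GrdSub in
theorem grd_sub (g : ContMDiffRiemannianMetric 𝓘(ℝ, E) ∞ E
      (fun x : M => TangentSpace 𝓘(ℝ, E) x))
    (gB : ContMDiffRiemannianMetric 𝓘(ℝ, E₁) ∞ E₁ (fun x : B => TangentSpace 𝓘(ℝ, E₁) x))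
    {pr : M → B} (hpr : Submersion E E₁ pr) {p : M} {r : ℝ} (hH : HorAt g gB pr p r)
    {u v : B → ℝ} (hu : Sm E₁ u) (hv : Sm E₁ v) :
    Grd g (fun p => u (pr p)) (fun p => v (pr p)) p = r * Grd gB u v (pr p) := by
  have hprd : MDifferentiableAt 𝓘(ℝ, E) 𝓘(ℝ, E₁) pr p :=
    hpr.1.contMDiffAt.mdifferentiableAt (by simp)
  set D : TangentSpace 𝓘(ℝ, E) p →L[ℝ] TangentSpace 𝓘(ℝ, E₁) (pr p) :=
    mfderiv 𝓘(ℝ, E) 𝓘(ℝ, E₁) pr p with hD
  -- the differential of a pulled back function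
  have hcomp : ∀ {f : B → ℝ}, Sm E₁ f → ∀ W : TangentSpace 𝓘(ℝ, E) p,
      mfderiv 𝓘(ℝ, E) 𝓘(ℝ, ℝ) (fun p => f (pr p)) p W =
        mfderiv 𝓘(ℝ, E₁) 𝓘(ℝ, ℝ) f (pr p) (D W) := by
    intro f hf W
    have h1 : MDifferentiableAt 𝓘(ℝ, E₁) 𝓘(ℝ, ℝ) f (pr p) :=
      (ContMDiff.contMDiffAt hf).mdifferentiableAt (by simp)
    have h2 := mfderiv_comp (I := 𝓘(ℝ, E)) (I' := 𝓘(ℝ, E₁)) (I'' := 𝓘(ℝ, ℝ)) p h1 hprd
    have h3 : (fun p => f (pr p)) = f ∘ pr := rfl
    rw [h3, h2]
    rfl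
  -- lifts of covectors
  have hlift : ∀ L : TangentSpace 𝓘(ℝ, E₁) (pr p) →L[ℝ] ℝ, ∃ X : TangentSpace 𝓘(ℝ, E) p,
      ∀ W, g.inner p X W = L (D W) := by
    intro L
    obtain ⟨X, hX⟩ := exists_riesz g p (L.comp D)
    exact ⟨X, fun W => hX W⟩
  have hhor : ∀ {L : TangentSpace 𝓘(ℝ, E₁) (pr p) →L[ℝ] ℝ} {X : TangentSpace 𝓘(ℝ, E) p},
      (∀ W, g.inner p X W = L (D W)) → Horizontal (E₁ := E₁) g pr p X := by
    intro L X hX W hW
    rw [hX W]
    have h1 : D W = 0 := hW
    rw [h1, map_zero]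
  let dv : TangentSpace 𝓘(ℝ, E₁) (pr p) →L[ℝ] ℝ := mfderiv 𝓘(ℝ, E₁) 𝓘(ℝ, ℝ) v (pr p)
  obtain ⟨X, hX⟩ := hlift dv
  obtain ⟨Y, hY⟩ := exists_riesz gB (pr p) dv
  -- the key: `D X = r Y`
  have hkey : D X = r • Y := by
    set L₁ : TangentSpace 𝓘(ℝ, E₁) (pr p) →L[ℝ] ℝ :=
      gB.inner (pr p) (D X) - r • dv with hL₁
    obtain ⟨X₁, hX₁⟩ := hlift L₁
    have h1 : L₁ (D X₁) = 0 := by
      have h2 := hH X X₁ (hhor hX) (hhor hX₁)
      have h3 : g.inner p X X₁ = dv (D X₁) := hX X₁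
      rw [h3] at h2
      rw [hL₁]
      change gB.inner (pr p) (D X) (D X₁) - r * dv (D X₁) = 0
      exact sub_eq_zero.mpr h2
    have h4 : g.inner p X₁ X₁ = 0 := (hX₁ X₁).trans h1
    have h5 : X₁ = 0 := by
      by_contra hne
      exact (g.pos p X₁ hne).ne' h4
    have h6 : ∀ Z, L₁ Z = 0 := by
      intro Z
      obtain ⟨W, hW⟩ := hpr.2 p Z
      have h7 : D W = Z := hW
      rw [← h7, ← hX₁ W, h5, map_zero]
      rfl
    apply inner_ne gB
    intro Z
    have h8 := h6 Z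
    have h9 : gB.inner (pr p) (D X) Z - r * dv Z = 0 := h8
    rw [← hY Z] at h9
    have h10 : gB.inner (pr p) (r • Y) = r • gB.inner (pr p) Y := map_smul _ _ _
    rw [h10]
    exact sub_eq_zero.mp h9
  have hX' : ∀ W : TangentSpace 𝓘(ℝ, E) p, g.inner p X W =
      mfderiv 𝓘(ℝ, E) 𝓘(ℝ, ℝ) (fun p => v (pr p)) p W := by
    intro W
    rw [hX W, hcomp hv W]
    rfl
  rw [grd_eq g (sm_comp_pr hpr.1 hu) (sm_comp_pr hpr.1 hv) hX', hcomp hu X, hkey,
    grd_eq gB hu hv hY, map_smul]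
  rfl

end Pool.Agent.Lib.MP_df705a_gt.Circ
end
end
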