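import Pool.Agent.Lib.MP_df705a_gt.Mg.G058
import Pool.Agent.Lib.MP_df705a_gt.Mg.G062

section

/-!
# TASK J5a: determinant and positivity of the connection metric
-/

open scoped Manifold ContDiff Topology Matrix
open Set Bundle Module Filter

noncomputable section

namespace Pool.Agent.Lib.MP_df705a_gt.Circ

open Pool.Agent.Lib.MP_df705a_gt.Twist Pool.Agent.Lib.MP_df705a_gt.Perm

variable {E₁ : Type*} [NormedAddCommGroup E₁] [NormedSpace ℝ E₁] [FiniteDimensional ℝ E₁]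

namespace J5a

/-- The product basis. -/
def pb (E₁ : Type*) [NormedAddCommGroup E₁] [NormedSpace ℝ E₁] [FiniteDimensional ℝ E₁] :
    Basis (Fin (finrank ℝ E₁) ⊕ Unit) ℝ (E₁ × ℝ) :=
  (finBasis ℝ E₁).prod (Basis.singleton Unit ℝ)

theorem pb_repr_inl (v : E₁ × ℝ) (k : Fin (finrank ℝ E₁)) :
    (pb E₁).repr v (Sum.inl k) = (finBasis ℝ E₁).repr v.1 k := by
  simp [pb]

theorem pb_repr_inr (v : E₁ × ℝ) (k : Unit) :
    (pb E₁).repr v (Sum.inr k) = v.2 := by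
  simp [pb]

/-- The identification of the index types. -/
def ie (E₁ : Type*) [NormedAddCommGroup E₁] [NormedSpace ℝ E₁] [FiniteDimensional ℝ E₁] :
    Fin (finrank ℝ (E₁ × ℝ)) ≃ Fin (finrank ℝ E₁) ⊕ Unit :=
  (finBasis ℝ (E₁ × ℝ)).indexEquiv (pb E₁)

/-- The change of basis. -/
def cb (E₁ : Type*) [NormedAddCommGroup E₁] [NormedSpace ℝ E₁] [FiniteDimensional ℝ E₁] :
    Matrix (Fin (finrank ℝ E₁) ⊕ Unit) (Fin (finrank ℝ E₁) ⊕ Unit) ℝ :=
  (pb E₁).toMatrix ((finBasis ℝ (E₁ × ℝ)).reindex (ie E₁))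

theorem cb_inl (k : Fin (finrank ℝ E₁)) (i : Fin (finrank ℝ E₁) ⊕ Unit) :
    cb E₁ (Sum.inl k) i = (finBasis ℝ E₁).repr (finBasis ℝ (E₁ × ℝ) ((ie E₁).symm i)).1 k := by
  rw [cb, Basis.toMatrix_apply, pb_repr_inl, Basis.reindex_apply]

theorem cb_inr (k : Unit) (i : Fin (finrank ℝ E₁) ⊕ Unit) :
    cb E₁ (Sum.inr k) i = (finBasis ℝ (E₁ × ℝ) ((ie E₁).symm i)).2 := by
  rw [cb, Basis.toMatrix_apply, pb_repr_inr, Basis.reindex_apply]

theorem cb_det : (cb E₁).det ≠ 0 := by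
  have h := (pb E₁).isUnit_det ((finBasis ℝ (E₁ × ℝ)).reindex (ie E₁))
  rw [Basis.det_apply] at h
  exact h.ne_zero

/-- The unipotent matrix. -/
def un (γ : E₁ →L[ℝ] ℝ) : Matrix (Fin (finrank ℝ E₁) ⊕ Unit) (Fin (finrank ℝ E₁) ⊕ Unit) ℝ :=
  Matrix.fromBlocks 1 0 (Matrix.of fun _ k => -γ (finBasis ℝ E₁ k)) 1

theorem un_det (γ : E₁ →L[ℝ] ℝ) : (un γ).det = 1 := by
  rw [un, Matrix.det_fromBlocks_zero₁₂]
  simp

theorem lin_sum (γ : E₁ →L[ℝ] ℝ) (v : E₁) :
    ∑ k, γ (finBasis ℝ E₁ k) * (finBasis ℝ E₁).repr v k = γ v := by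
  conv_rhs => rw [← (finBasis ℝ E₁).sum_repr v]
  rw [map_sum]
  refine Finset.sum_congr rfl fun k _ => ?_
  rw [map_smul, smul_eq_mul, mul_comm]

theorem un_cb_inl (γ : E₁ →L[ℝ] ℝ) (k : Fin (finrank ℝ E₁)) (i : Fin (finrank ℝ E₁) ⊕ Unit) :
    (un γ * cb E₁) (Sum.inl k) i =
      (finBasis ℝ E₁).repr (finBasis ℝ (E₁ × ℝ) ((ie E₁).symm i)).1 k := by
  rw [Matrix.mul_apply, Fintype.sum_sum_type]
  simp only [un, Matrix.fromBlocks_apply₁₁, Matrix.fromBlocks_apply₁₂, Matrix.zero_apply,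
    zero_mul, Finset.sum_const_zero, add_zero, Matrix.one_apply, ite_mul, one_mul,
    Finset.sum_ite_eq, Finset.mem_univ, if_true]
  rw [cb_inl]

theorem un_cb_inr (γ : E₁ →L[ℝ] ℝ) (k : Unit) (i : Fin (finrank ℝ E₁) ⊕ Unit) :
    (un γ * cb E₁) (Sum.inr k) i =
      (finBasis ℝ (E₁ × ℝ) ((ie E₁).symm i)).2 -
        γ (finBasis ℝ (E₁ × ℝ) ((ie E₁).symm i)).1 := by
  rw [Matrix.mul_apply, Fintype.sum_sum_type]
  simp only [un, Matrix.fromBlocks_apply₂₁, Matrix.fromBlocks_apply₂₂, Matrix.of_apply,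
    Matrix.one_apply, ite_mul, one_mul, zero_mul, cb_inl, cb_inr, neg_mul,
    Finset.sum_neg_distrib, lin_sum]
  simp
  ring

/-- The block diagonal matrix. -/
def dg (H : Matrix (Fin (finrank ℝ E₁)) (Fin (finrank ℝ E₁)) ℝ) (t : ℝ) :
    Matrix (Fin (finrank ℝ E₁) ⊕ Unit) (Fin (finrank ℝ E₁) ⊕ Unit) ℝ :=
  Matrix.fromBlocks H 0 0 (Matrix.of fun _ _ => t)

omit [FiniteDimensional ℝ E₁] in
theorem dg_det (H : Matrix (Fin (finrank ℝ E₁)) (Fin (finrank ℝ E₁)) ℝ) (t : ℝ) :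
    (dg H t).det = H.det * t := by
  rw [dg, Matrix.det_fromBlocks_zero₁₂]
  simp

theorem conn_eq (h : Curv.Coeff E₁) (Γ : E₁ × ℝ → E₁ →L[ℝ] ℝ) (β : E₁ × ℝ → ℝ) (q : E₁ × ℝ) :
    (conn h Γ β q).submatrix (ie E₁).symm (ie E₁).symm =
      (un (Γ q) * cb E₁).transpose * dg (h q.1) (Real.exp (β q) ^ 2) * (un (Γ q) * cb E₁) := by
  ext i j
  rw [Matrix.mul_apply, Fintype.sum_sum_type]
  simp only [Matrix.mul_apply (M := (un (Γ q) * cb E₁).transpose), Fintype.sum_sum_type,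
    Matrix.transpose_apply, un_cb_inl, un_cb_inr, dg, Matrix.fromBlocks_apply₁₁,
    Matrix.fromBlocks_apply₁₂, Matrix.fromBlocks_apply₂₁, Matrix.fromBlocks_apply₂₂,
    Matrix.of_apply, Matrix.zero_apply, mul_zero, Finset.sum_const_zero, add_zero, zero_add,
    Matrix.submatrix_apply, conn, Sub.mB]
  congr 1
  · rw [Finset.sum_comm]
    refine Finset.sum_congr rfl fun a _ => ?_
    rw [Finset.sum_mul]
    refine Finset.sum_congr rfl fun b _ => ?_
    ring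
  · simp
    ring

omit [FiniteDimensional ℝ E₁] in
theorem dg_posDef {H : Matrix (Fin (finrank ℝ E₁)) (Fin (finrank ℝ E₁)) ℝ} (hH : H.PosDef)
    {t : ℝ} (ht : 0 < t) : (dg H t).PosDef := by
  refine Matrix.PosDef.of_dotProduct_mulVec_pos ?_ fun x hx => ?_
  · have h1 := hH.isHermitian
    rw [dg, Matrix.IsHermitian, Matrix.fromBlocks_conjTranspose, h1.eq]
    simp only [Matrix.conjTranspose_zero]
    congr 1
  · have key : star x ⬝ᵥ dg H t *ᵥ x =
        star (fun k => x (Sum.inl k)) ⬝ᵥ H *ᵥ (fun k => x (Sum.inl k)) +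
          t * (x (Sum.inr ())) ^ 2 := by
      rw [dg, Matrix.fromBlocks_mulVec]
      simp only [dotProduct, Fintype.sum_sum_type, Sum.elim_inl, Sum.elim_inr, Pi.star_apply,
        star_trivial, Matrix.zero_mulVec, add_zero, zero_add]
      congr 1
      simp [Matrix.mulVec, dotProduct]
      ring
    rw [key]
    by_cases h0 : (fun k => x (Sum.inl k)) = 0
    · have h2 : x (Sum.inr ()) ≠ 0 := by
        intro h3
        apply hx
        funext i
        rcases i with k | k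
        · exact congrFun h0 k
        · exact h3
      rw [h0]
      simp only [star_zero, zero_dotProduct, zero_add]
      positivity
    · have h4 := hH.dotProduct_mulVec_pos h0
      have h5 : 0 ≤ t * (x (Sum.inr ())) ^ 2 := by positivity
      linarith

end J5a

/-- The determinant of the connection metric, up to a constant which depends on the bases. -/
theorem exists_det_conn (E₁ : Type*) [NormedAddCommGroup E₁] [NormedSpace ℝ E₁]
    [FiniteDimensional ℝ E₁] : ∃ c : ℝ, 0 < c ∧ ∀ (h : Curv.Coeff E₁) (Γ : E₁ × ℝ → E₁ →L[ℝ] ℝ)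
      (β : E₁ × ℝ → ℝ) (q : E₁ × ℝ),
      (conn h Γ β q).det = c * (Real.exp (β q) ^ 2 * (h q.1).det) := by
  refine ⟨(J5a.cb E₁).det ^ 2, by have := J5a.cb_det (E₁ := E₁); positivity, fun h Γ β q => ?_⟩
  rw [← Matrix.det_submatrix_equiv_self (J5a.ie E₁).symm, J5a.conn_eq, Matrix.det_mul,
    Matrix.det_mul, Matrix.det_transpose, Matrix.det_mul, J5a.un_det, J5a.dg_det]
  ring

theorem conn_posDef {h : Curv.Coeff E₁} (Γ : E₁ × ℝ → E₁ →L[ℝ] ℝ) (β : E₁ × ℝ → ℝ)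
    {q : E₁ × ℝ} (hh : (h q.1).PosDef) : (conn h Γ β q).PosDef := by
  have h1 : ((conn h Γ β q).submatrix (J5a.ie E₁).symm (J5a.ie E₁).symm).PosDef := by
    rw [J5a.conn_eq]
    have h2 := J5a.dg_posDef hh (t := Real.exp (β q) ^ 2) (by positivity)
    refine h2.conjTranspose_mul_mul_same (B := J5a.un (Γ q) * J5a.cb E₁) ?_
    apply Matrix.mulVec_injective_of_isUnit
    rw [Matrix.isUnit_iff_isUnit_det, Matrix.det_mul, J5a.un_det, one_mul]
    exact (J5a.cb_det).isUnit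
  have h3 := h1.submatrix (e := J5a.ie E₁) (J5a.ie E₁).injective
  rwa [Matrix.submatrix_submatrix, Equiv.symm_comp_self, Matrix.submatrix_id_id] at h3

end Pool.Agent.Lib.MP_df705a_gt.Circ
end
end

section

/-!
# TASK J5b: smoothness and gradients of the connection metric
-/

open scoped Manifold ContDiff Topology
open Set Bundle Module Filter

noncomputable section

namespace Pool.Agent.Lib.MP_df705a_gt.Circ

open Pool.Agent.Lib.MP_df705a_gt.Twist Pool.Agent.Lib.MP_df705a_gt.Perm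
open Pool.Agent.Lib.MP_df705a_gt.Sub (mB)

variable {E₁ : Type*} [NormedAddCommGroup E₁] [NormedSpace ℝ E₁] [FiniteDimensional ℝ E₁]

namespace J5b

variable {E : Type*} [NormedAddCommGroup E] [NormedSpace ℝ E] [FiniteDimensional ℝ E]

theorem mB_add_left (M : Matrix (Fin (finrank ℝ E)) (Fin (finrank ℝ E)) ℝ) (v v' w : E) :
    mB M (v + v') w = mB M v w + mB M v' w := by
  simp only [mB, map_add, Finsupp.add_apply, add_mul, mul_add, Finset.sum_add_distrib]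

theorem mB_smul_left (M : Matrix (Fin (finrank ℝ E)) (Fin (finrank ℝ E)) ℝ) (c : ℝ) (v w : E) :
    mB M (c • v) w = c * mB M v w := by
  simp only [mB, map_smul, Finsupp.smul_apply, smul_eq_mul, Finset.mul_sum]
  refine Finset.sum_congr rfl fun i _ => Finset.sum_congr rfl fun j _ => ?_
  ring

theorem mB_add_right (M : Matrix (Fin (finrank ℝ E)) (Fin (finrank ℝ E)) ℝ) (v w w' : E) :
    mB M v (w + w') = mB M v w + mB M v w' := by
  simp only [mB, map_add, Finsupp.add_apply, mul_add, Finset.sum_add_distrib]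

theorem mB_smul_right (M : Matrix (Fin (finrank ℝ E)) (Fin (finrank ℝ E)) ℝ) (c : ℝ) (v w : E) :
    mB M v (c • w) = c * mB M v w := by
  simp only [mB, map_smul, Finsupp.smul_apply, smul_eq_mul, Finset.mul_sum]
  refine Finset.sum_congr rfl fun i _ => Finset.sum_congr rfl fun j _ => ?_
  ring

theorem bil_sum {ι X : Type*} [Fintype ι] [AddCommGroup X] [Module ℝ X] (b : Basis ι ℝ X)
    (B : X →ₗ[ℝ] X →ₗ[ℝ] ℝ) (w v : X) :
    ∑ i, ∑ j, B (b i) (b j) * (b.repr w i * b.repr v j) = B w v := by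
  have e1 : B w v = ∑ i, b.repr w i * B (b i) v := by
    conv_lhs => rw [← b.sum_repr w]
    rw [map_sum, LinearMap.sum_apply]
    refine Finset.sum_congr rfl fun i _ => ?_
    rw [map_smul, LinearMap.smul_apply, smul_eq_mul]
  have e2 : ∀ i, B (b i) v = ∑ j, b.repr v j * B (b i) (b j) := fun i => by
    conv_lhs => rw [← b.sum_repr v]
    rw [map_sum]
    refine Finset.sum_congr rfl fun j _ => ?_
    rw [map_smul, smul_eq_mul]
  rw [e1]
  refine Finset.sum_congr rfl fun i _ => ?_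
  rw [e2 i, Finset.mul_sum]
  refine Finset.sum_congr rfl fun j _ => ?_
  ring

/-- The bilinear form of the connection metric. -/
def BB (M : Matrix (Fin (finrank ℝ E₁)) (Fin (finrank ℝ E₁)) ℝ) (γ : E₁ →L[ℝ] ℝ) (c : ℝ) :
    (E₁ × ℝ) →ₗ[ℝ] (E₁ × ℝ) →ₗ[ℝ] ℝ :=
  LinearMap.mk₂ ℝ (fun w v => mB M w.1 v.1 + c * ((w.2 - γ w.1) * (v.2 - γ v.1)))
    (fun w w' v => by simp only [Prod.fst_add, Prod.snd_add, mB_add_left, map_add]; ring)
    (fun r w v => by
      simp only [Prod.smul_fst, Prod.smul_snd, mB_smul_left, map_smul, smul_eq_mul]; ring)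
    (fun w v v' => by simp only [Prod.fst_add, Prod.snd_add, mB_add_right, map_add]; ring)
    (fun r w v => by
      simp only [Prod.smul_fst, Prod.smul_snd, mB_smul_right, map_smul, smul_eq_mul]; ring)

theorem mB_conn (h : Curv.Coeff E₁) (Γ : E₁ × ℝ → E₁ →L[ℝ] ℝ) (β : E₁ × ℝ → ℝ) (q w v : E₁ × ℝ) :
    mB (conn h Γ β q) w v =
      mB (h q.1) w.1 v.1 + Real.exp (β q) ^ 2 * ((w.2 - Γ q w.1) * (v.2 - Γ q v.1)) :=
  bil_sum (finBasis ℝ (E₁ × ℝ)) (BB (h q.1) (Γ q) (Real.exp (β q) ^ 2)) w v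

theorem repr_gradM (M : Matrix (Fin (finrank ℝ E)) (Fin (finrank ℝ E)) ℝ) (L : E →L[ℝ] ℝ)
    (j : Fin (finrank ℝ E)) :
    (finBasis ℝ E).repr (gradM (finBasis ℝ E) M L) j =
      ∑ l, M⁻¹ j l * L (finBasis ℝ E l) := by
  unfold gradM
  rw [map_sum, Finsupp.finsetSum_apply]
  simp only [map_smul, Finsupp.smul_apply, Basis.repr_self, smul_eq_mul]
  rw [Finset.sum_eq_single j]
  · simp
  · intro i _ hi
    rw [Finsupp.single_eq_of_ne (Ne.symm hi), mul_zero]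
  · intro hj
    exact absurd (Finset.mem_univ j) hj

theorem mB_eq (M : Matrix (Fin (finrank ℝ E)) (Fin (finrank ℝ E)) ℝ) (w v : E) :
    mB M w v = ∑ i, (finBasis ℝ E).repr w i * (M.mulVec (fun j => (finBasis ℝ E).repr v j)) i := by
  unfold mB
  refine Finset.sum_congr rfl fun i _ => ?_
  rw [Matrix.mulVec, dotProduct, Finset.mul_sum]
  refine Finset.sum_congr rfl fun j _ => ?_
  ring

theorem lin_repr (L : E →L[ℝ] ℝ) (w : E) :
    ∑ i, (finBasis ℝ E).repr w i * L (finBasis ℝ E i) = L w := by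
  conv_rhs => rw [← (finBasis ℝ E).sum_repr w]
  rw [map_sum]
  refine Finset.sum_congr rfl fun k _ => ?_
  rw [map_smul, smul_eq_mul]

theorem mB_grad (M : Matrix (Fin (finrank ℝ E)) (Fin (finrank ℝ E)) ℝ) (hM : IsUnit M.det)
    (L : E →L[ℝ] ℝ) (w : E) : mB M w (gradM (finBasis ℝ E) M L) = L w := by
  rw [mB_eq, ← lin_repr L w]
  refine Finset.sum_congr rfl fun i _ => ?_
  congr 1
  have e : (fun j => (finBasis ℝ E).repr (gradM (finBasis ℝ E) M L) j) =
      M⁻¹.mulVec (fun l => L (finBasis ℝ E l)) := by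
    funext j
    rw [repr_gradM]
    rfl
  rw [e, Matrix.mulVec_mulVec, Matrix.mul_nonsing_inv _ hM, Matrix.one_mulVec]

theorem grad_unique (M : Matrix (Fin (finrank ℝ E)) (Fin (finrank ℝ E)) ℝ) (hM : IsUnit M.det)
    (L : E →L[ℝ] ℝ) (v : E) (h : ∀ w, mB M w v = L w) :
    gradM (finBasis ℝ E) M L = v := by
  apply (finBasis ℝ E).repr.injective
  apply Finsupp.ext
  intro j
  have e : M.mulVec (fun j => (finBasis ℝ E).repr v j) = fun l => L (finBasis ℝ E l) := by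
    funext i
    have hi := h (finBasis ℝ E i)
    rw [mB_eq, Finset.sum_eq_single i] at hi
    · rw [Basis.repr_self, Finsupp.single_eq_same, one_mul] at hi
      exact hi
    · intro k _ hk
      rw [Basis.repr_self, Finsupp.single_eq_of_ne hk, zero_mul]
    · intro hj
      exact absurd (Finset.mem_univ i) hj
  have e2 : (fun j => (finBasis ℝ E).repr v j) = M⁻¹.mulVec (fun l => L (finBasis ℝ E l)) := by
    rw [← e, Matrix.mulVec_mulVec, Matrix.nonsing_inv_mul _ hM, Matrix.one_mulVec]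
  rw [repr_gradM]
  exact (congrFun e2 j).symm

end J5b

theorem conn_smooth {h : Curv.Coeff E₁} {Γ : E₁ × ℝ → E₁ →L[ℝ] ℝ} {β : E₁ × ℝ → ℝ}
    {q : E₁ × ℝ} (hD : CDat h Γ β q) (i j) :
    ContDiffAt ℝ ∞ (fun p => conn h Γ β p i j) q := by
  unfold conn mB
  refine ContDiffAt.add ?_ ?_
  · refine ContDiffAt.sum fun k _ => ContDiffAt.sum fun l _ => ?_
    refine ContDiffAt.mul ?_ contDiffAt_const
    exact ContDiffAt.comp (g := fun x => h x k l) (f := Prod.fst) q (hD.h_smooth k l)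
      contDiffAt_fst
  · refine ContDiffAt.mul (hD.β_smooth.exp.pow 2) (ContDiffAt.mul ?_ ?_)
    · exact contDiffAt_const.sub (hD.Γ_smooth.clm_apply contDiffAt_const)
    · exact contDiffAt_const.sub (hD.Γ_smooth.clm_apply contDiffAt_const)

/-- The gradient of a function of `x` is the horizontal lift of its gradient. -/
theorem gradM_conn {h : Curv.Coeff E₁} (Γ : E₁ × ℝ → E₁ →L[ℝ] ℝ) (β : E₁ × ℝ → ℝ)
    {q : E₁ × ℝ} (hh : (h q.1).PosDef) (L : E₁ →L[ℝ] ℝ) :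
    gradM (finBasis ℝ (E₁ × ℝ)) (conn h Γ β q) (L.comp (ContinuousLinearMap.fst ℝ E₁ ℝ)) =
      (gradM (finBasis ℝ E₁) (h q.1) L, Γ q (gradM (finBasis ℝ E₁) (h q.1) L)) := by
  have hd : IsUnit (conn h Γ β q).det := (conn_posDef Γ β hh).det_pos.ne'.isUnit
  have hd1 : IsUnit (h q.1).det := hh.det_pos.ne'.isUnit
  refine J5b.grad_unique _ hd _ _ fun w => ?_
  rw [J5b.mB_conn]
  simp only [sub_self, mul_zero, add_zero]
  rw [J5b.mB_grad _ hd1]
  rfl

end Pool.Agent.Lib.MP_df705a_gt.Circ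
end
end

section

/-!
# TASK J6: the Laplacian of a function of `x` for the connection metric
-/

open scoped Manifold ContDiff Topology
open Set Bundle Module Filter

noncomputable section

namespace Pool.Agent.Lib.MP_df705a_gt.Circ

open Pool.Agent.Lib.MP_df705a_gt.Twist Pool.Agent.Lib.MP_df705a_gt.Perm

namespace LapConnAux

theorem gradC_eq {E : Type*} [NormedAddCommGroup E] [NormedSpace ℝ E] [FiniteDimensional ℝ E]
    (h : Curv.Coeff E) (W u : E → ℝ) (x : E) :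
    gradC h W u x = fderiv ℝ W x (gradM (finBasis ℝ E) (h x) (fderiv ℝ u x)) := by
  unfold gradC gradM
  rw [map_sum]
  refine Finset.sum_congr rfl fun i _ => ?_
  rw [map_smul, smul_eq_mul, Finset.sum_mul]
  refine Finset.sum_congr rfl fun j _ => ?_
  change (h x)⁻¹ i j * (fderiv ℝ W x (finBasis ℝ E i) * fderiv ℝ u x (finBasis ℝ E j)) = _
  ring

theorem dv_real {f : ℝ → ℝ} {y f' : ℝ} (hf : HasDerivAt f f' y) : dv f y = f' := by
  unfold dv
  have h1 : fderiv ℝ f y = ContinuousLinearMap.toSpanSingleton ℝ f' := hf.hasFDerivAt.fderiv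
  rw [h1]
  have h2 : ((ContinuousLinearMap.toSpanSingleton ℝ f' : ℝ →L[ℝ] ℝ) : ℝ →ₗ[ℝ] ℝ) =
      f' • LinearMap.id := by
    apply LinearMap.ext
    intro t
    simp [mul_comm]
  rw [h2, map_smul, LinearMap.trace_id]
  simp

end LapConnAux

open LapConnAux

variable {E₁ : Type*} [NormedAddCommGroup E₁] [NormedSpace ℝ E₁] [FiniteDimensional ℝ E₁]
  {h : Curv.Coeff E₁} {Γ : E₁ × ℝ → E₁ →L[ℝ] ℝ} {β : E₁ × ℝ → ℝ} {q : E₁ × ℝ} {F : E₁ → ℝ}

/-- The scalar product with the differential of a function of `x`. -/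
theorem grad_conn (hD : CDat h Γ β q) (hF : ContDiffAt ℝ ∞ F q.1) (W : E₁ × ℝ → ℝ) :
    gradC (conn h Γ β) W (fun p => F p.1) q =
      fderiv ℝ W q (gradM (finBasis ℝ E₁) (h q.1) (fderiv ℝ F q.1),
        Γ q (gradM (finBasis ℝ E₁) (h q.1) (fderiv ℝ F q.1))) := by
  have h1 : fderiv ℝ (fun p : E₁ × ℝ => F p.1) q =
      (fderiv ℝ F q.1).comp (ContinuousLinearMap.fst ℝ E₁ ℝ) := by
    have h2 : HasFDerivAt F (fderiv ℝ F q.1) q.1 :=
      (hF.differentiableAt (by norm_num)).hasFDerivAt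
    exact (h2.comp q hasFDerivAt_fst).fderiv
  rw [gradC_eq, h1, gradM_conn Γ β hD.h_pos.self_of_nhds]

theorem lap_conn (hD : CDat h Γ β q) (hF : ContDiffAt ℝ ∞ F q.1) :
    lapC (conn h Γ β) (fun p => F p.1) q =
      lapC h F q.1 + kap Γ β q (gradM (finBasis ℝ E₁) (h q.1) (fderiv ℝ F q.1)) := by
  obtain ⟨c, hc, hdet⟩ := exists_det_conn E₁
  have hpos : (h q.1).PosDef := hD.h_pos.self_of_nhds
  set v : E₁ → E₁ := fun x => gradM (finBasis ℝ E₁) (h x) (fderiv ℝ F x) with hv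
  -- smoothness
  have hfst : ContDiffAt ℝ ∞ (fun p : E₁ × ℝ => F p.1) q :=
    ContDiffAt.comp q hF contDiffAt_fst
  have hF' : ContDiffAt ℝ ∞ (fderiv ℝ F) q.1 := hF.fderiv_right (m := ∞) (by simp)
  have hvs : ContDiffAt ℝ ∞ v q.1 := gradM_contDiffAt _ hD.h_smooth hpos.det_pos.ne' hF'
  have hdetS : ContDiffAt ℝ ∞ (fun x => (h x).det) q.1 := contDiffAt_det hD.h_smooth
  have hsq : ContDiffAt ℝ ∞ (fun x => √ (h x).det) q.1 := hdetS.sqrt hpos.det_pos.ne'
  -- positivity near `q`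
  have hev : ∀ᶠ p in 𝓝 q, (h p.1).PosDef := (continuousAt_fst (p := q)).eventually hD.h_pos
  have hCpos : ∀ᶠ p in 𝓝 q, (conn h Γ β p).PosDef := by
    filter_upwards [hev] with p hp using conn_posDef Γ β hp
  have hFd : ∀ᶠ x in 𝓝 q.1, DifferentiableAt ℝ F x := by
    have h1 : ContDiffAt ℝ 1 F q.1 := hF.of_le (by norm_num)
    filter_upwards [h1.eventually (by norm_num)] with x hx using hx.differentiableAt one_ne_zero
  have hFd' : ∀ᶠ p in 𝓝 q, DifferentiableAt ℝ F p.1 :=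
    (continuousAt_fst (p := q)).eventually hFd
  -- the vector density
  set Z : E₁ × ℝ → E₁ × ℝ := fun p =>
    (√ c * (Real.exp (β p) * √ (h p.1).det)) • (v p.1, Γ p (v p.1)) with hZ
  have hZs : ContDiffAt ℝ ∞ Z q := by
    have hvs' : ContDiffAt ℝ ∞ v (Prod.fst q) := hvs
    have e1 : ContDiffAt ℝ ∞ (fun p : E₁ × ℝ => v p.1) q :=
      ContDiffAt.comp (f := Prod.fst) (g := v) q hvs' contDiffAt_fst
    have e2 : ContDiffAt ℝ ∞ (fun p : E₁ × ℝ => √ (h p.1).det) q :=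
      ContDiffAt.comp (f := Prod.fst) (g := fun x => √ (h x).det) q hsq contDiffAt_fst
    exact (contDiffAt_const.mul (hD.β_smooth.exp.mul e2)).smul
      (e1.prodMk (hD.Γ_smooth.clm_apply e1))
  have hEq : (fun p => ((1 : ℝ) * (Real.exp ((fun _ => (0 : ℝ)) p) * √ (conn h Γ β p).det)) •
      gradM (finBasis ℝ (E₁ × ℝ)) (conn h Γ β p) (fderiv ℝ (fun p : E₁ × ℝ => F p.1) p)) =ᶠ[𝓝 q]
      Z := by
    filter_upwards [hev, hFd'] with p hp hp'
    have h1 : fderiv ℝ (fun p : E₁ × ℝ => F p.1) p =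
        (fderiv ℝ F p.1).comp (ContinuousLinearMap.fst ℝ E₁ ℝ) :=
      (hp'.hasFDerivAt.comp p hasFDerivAt_fst).fderiv
    have h2 : √ (conn h Γ β p).det = √ c * (Real.exp (β p) * √ (h p.1).det) := by
      rw [hdet, Real.sqrt_mul hc.le, Real.sqrt_mul (sq_nonneg _),
        Real.sqrt_sq (Real.exp_pos _).le]
    rw [h1, gradM_conn Γ β hp, h2, Real.exp_zero, one_mul, one_mul]
  have hC := dv_slice (h := conn h Γ β) (ψ := fun _ => (0 : ℝ)) (u := fun p : E₁ × ℝ => F p.1)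
    (x := q) (fun i j => conn_smooth hD i j) hCpos contDiffAt_const hfst 1
  rw [dv_congr hEq, dv_prod (hZs.differentiableAt (by norm_num))] at hC
  -- first part
  have hβ1 : ContDiffAt ℝ ∞ (fun x => β (x, q.2)) q.1 := by
    have h1 : ContDiffAt ℝ ∞ β ((fun x : E₁ => (x, q.2)) q.1) := hD.β_smooth
    exact ContDiffAt.comp q.1 h1 (contDiffAt_id.prodMk contDiffAt_const)
  have hP1 : dv (fun x => (Z (x, q.2)).1) q.1 =
      √ c * (Real.exp (β q) * √ (h q.1).det) *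
        (lapC h F q.1 + fderiv ℝ β q (v q.1, 0)) := by
    have h1 := dv_slice (h := h) (ψ := fun x => β (x, q.2)) (u := F) (x := q.1)
      hD.h_smooth hD.h_pos hβ1 hF (√ c)
    rw [gradC_eq] at h1
    have h2 : fderiv ℝ (fun x => β (x, q.2)) q.1 =
        (fderiv ℝ β q).comp (ContinuousLinearMap.inl ℝ E₁ ℝ) := by
      have h3 : HasFDerivAt (fun x : E₁ => (x, q.2)) (ContinuousLinearMap.inl ℝ E₁ ℝ) q.1 :=
        hasFDerivAt_prodMk_left q.1 q.2
      have h4 : HasFDerivAt β (fderiv ℝ β q) (q.1, q.2) :=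
        (hD.β_smooth.differentiableAt (by norm_num)).hasFDerivAt
      exact (h4.comp q.1 h3).fderiv
    rw [h2] at h1
    exact h1
  -- second part
  have hP2 : dv (fun y => (Z (q.1, y)).2) q.2 =
      √ c * (Real.exp (β q) * √ (h q.1).det) *
        (fderiv ℝ β q (0, 1) * Γ q (v q.1) + fderiv ℝ Γ q (0, 1) (v q.1)) := by
    have h3 : HasFDerivAt (fun y : ℝ => (q.1, y)) (ContinuousLinearMap.inr ℝ E₁ ℝ) q.2 :=
      hasFDerivAt_prodMk_right q.1 q.2
    have h4 : HasFDerivAt β (fderiv ℝ β q) (q.1, q.2) :=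
      (hD.β_smooth.differentiableAt (by norm_num)).hasFDerivAt
    have h5 : HasFDerivAt Γ (fderiv ℝ Γ q) (q.1, q.2) :=
      (hD.Γ_smooth.differentiableAt (by norm_num)).hasFDerivAt
    have h6 : HasDerivAt (fun y : ℝ => β (q.1, y)) (fderiv ℝ β q (0, 1)) q.2 := by
      have := (HasFDerivAt.comp (g := β) (f := fun y : ℝ => (q.1, y)) q.2 h4 h3).hasDerivAt
      rw [ContinuousLinearMap.comp_apply, ContinuousLinearMap.inr_apply] at this
      exact this
    have h7 : HasDerivAt (fun y : ℝ => Γ (q.1, y)) (fderiv ℝ Γ q (0, 1)) q.2 := by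
      have := (HasFDerivAt.comp (g := Γ) (f := fun y : ℝ => (q.1, y)) q.2 h5 h3).hasDerivAt
      rw [ContinuousLinearMap.comp_apply, ContinuousLinearMap.inr_apply] at this
      exact this
    have h8 : HasDerivAt (fun y : ℝ => Γ (q.1, y) (v q.1)) (fderiv ℝ Γ q (0, 1) (v q.1)) q.2 := by
      have := h7.clm_apply (hasDerivAt_const q.2 (v q.1))
      simpa using this
    have h9 : HasDerivAt (fun y : ℝ => (√ c * (Real.exp (β (q.1, y)) * √ (h q.1).det)) *
        Γ (q.1, y) (v q.1))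
        ((√ c * ((Real.exp (β (q.1, q.2)) * fderiv ℝ β q (0, 1)) * √ (h q.1).det)) *
          Γ (q.1, q.2) (v q.1) +
          (√ c * (Real.exp (β (q.1, q.2)) * √ (h q.1).det)) * fderiv ℝ Γ q (0, 1) (v q.1)) q.2 :=
      ((h6.exp.mul_const _).const_mul _).mul h8
    have h10 : dv (fun y => (Z (q.1, y)).2) q.2 = _ := dv_real h9
    rw [h10]
    simp only [Prod.mk.eta]
    ring
  rw [hP1, hP2] at hC
  have hg0 : gradC (conn h Γ β) (fun _ => (0 : ℝ)) (fun p : E₁ × ℝ => F p.1) q = 0 := by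
    rw [gradC_eq]
    simp
  have hk : kap Γ β q (v q.1) = fderiv ℝ β q (v q.1, 0) +
      fderiv ℝ β q (0, 1) * Γ q (v q.1) + fderiv ℝ Γ q (0, 1) (v q.1) := by
    have h1 : ((v q.1, Γ q (v q.1)) : E₁ × ℝ) = (v q.1, 0) + (Γ q (v q.1)) • ((0 : E₁), (1 : ℝ)) := by
      ext <;> simp
    have h2 : kap Γ β q (v q.1) = fderiv ℝ β q (v q.1, Γ q (v q.1)) +
        fderiv ℝ Γ q (0, 1) (v q.1) := rfl
    rw [h2, h1, map_add, map_smul, smul_eq_mul]
    ring
  have hsc : √ (conn h Γ β q).det = √ c * (Real.exp (β q) * √ (h q.1).det) := by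
    rw [hdet, Real.sqrt_mul hc.le, Real.sqrt_mul (sq_nonneg _), Real.sqrt_sq (Real.exp_pos _).le]
  rw [hg0, Real.exp_zero, one_mul, one_mul, hsc] at hC
  have hne : √ c * (Real.exp (β q) * √ (h q.1).det) ≠ 0 := by
    have e1 : 0 < √ c := Real.sqrt_pos.2 hc
    have e2 : 0 < √ (h q.1).det := Real.sqrt_pos.2 hpos.det_pos
    have e3 : 0 < Real.exp (β q) := Real.exp_pos _
    positivity
  rw [← mul_add] at hC
  have hfin := mul_left_cancel₀ hne hC
  rw [show gradM (finBasis ℝ E₁) (h q.1) (fderiv ℝ F q.1) = v q.1 from rfl, hk]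
  linarith

end Pool.Agent.Lib.MP_df705a_gt.Circ
end
end

section

/-!
# TASK J8: the divergence term in normal form
-/

open scoped Manifold ContDiff Topology
open Set Bundle Module Filter

noncomputable section

namespace Pool.Agent.Lib.MP_df705a_gt.Circ

open Pool.Agent.Lib.MP_df705a_gt.Twist Pool.Agent.Lib.MP_df705a_gt.Perm
open Pool.Agent.Lib.MP_df705a_gt.Sub (mB)

namespace J8

variable {E : Type*} [NormedAddCommGroup E] [NormedSpace ℝ E] [FiniteDimensional ℝ E]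

/-- The Laplacian depends only on jets. -/
theorem lapC_congr {h h' : Curv.Coeff E} {u u' : E → ℝ} {x : E} (h0 : h x = h' x)
    (h1 : ∀ i j, fderiv ℝ (fun y => h y i j) x = fderiv ℝ (fun y => h' y i j) x)
    (u1 : fderiv ℝ u x = fderiv ℝ u' x)
    (u2 : ∀ i j, Curv.pd i (Curv.pd j u) x = Curv.pd i (Curv.pd j u') x) :
    lapC h u x = lapC h' u' x := by
  unfold lapC Curv.covHess
  simp only [u2, h0]
  unfold Curv.christoffel
  have h2 : ∀ k i j, Curv.pd k (fun y => h y i j) x = Curv.pd k (fun y => h' y i j) x := by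
    intro k i j
    unfold Curv.pd
    rw [h1 i j]
  have h3 : ∀ k, Curv.pd k u x = Curv.pd k u' x := by
    intro k
    unfold Curv.pd
    rw [u1]
  simp only [h2, h3]

/-- A symmetric continuous matrix field is positive definite near a point where it is. -/
theorem posDef_near {X κ : Type*} [TopologicalSpace X] [Fintype κ] [DecidableEq κ]
    {A : X → Matrix κ κ ℝ} {x : X} (hc : ∀ i j, ContinuousAt (fun y => A y i j) x)
    (hs : ∀ y i j, A y i j = A y j i) (hp : (A x).PosDef) :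
    ∀ᶠ y in 𝓝 x, (A y).PosDef := by
  have hK : IsCompact (Metric.sphere (0 : κ → ℝ) 1) := isCompact_sphere _ _
  have key : ∀ᶠ y in 𝓝 x, ∀ v ∈ Metric.sphere (0 : κ → ℝ) 1,
      0 < ∑ i, ∑ j, A y i j * (v i * v j) := by
    apply hK.eventually_forall_of_forall_eventually
    intro v hv
    have hv0 : v ≠ 0 := by
      intro h0
      rw [h0] at hv
      simp at hv
    have hpos : 0 < ∑ i, ∑ j, A x i j * (v i * v j) := by
      rw [Matrix.posDef_iff_dotProduct_mulVec] at hp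
      have := hp.2 hv0
      simp only [dotProduct, Matrix.mulVec, Pi.star_apply, star_trivial] at this
      refine this.trans_le (le_of_eq ?_)
      refine Finset.sum_congr rfl fun i _ => ?_
      rw [Finset.mul_sum]
      refine Finset.sum_congr rfl fun j _ => ?_
      ring
    have hcont : ContinuousAt (fun z : X × (κ → ℝ) =>
        ∑ i, ∑ j, A z.1 i j * (z.2 i * z.2 j)) (x, v) := by
      refine tendsto_finsetSum _ fun i _ => tendsto_finsetSum _ fun j _ => ?_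
      refine Tendsto.mul ?_ (Tendsto.mul ?_ ?_)
      · exact (hc i j).tendsto.comp (continuous_fst.tendsto (x, v))
      · exact ((continuous_apply i).comp continuous_snd).tendsto (x, v)
      · exact ((continuous_apply j).comp continuous_snd).tendsto (x, v)
    exact hcont.eventually (lt_mem_nhds hpos)
  filter_upwards [key] with y hy
  rw [Matrix.posDef_iff_dotProduct_mulVec]
  refine ⟨?_, ?_⟩
  · ext i j
    rw [Matrix.conjTranspose_apply, star_trivial]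
    exact hs y j i
  · intro v hv
    have hn : 0 < ‖v‖ := norm_pos_iff.2 hv
    have h1 := hy (‖v‖⁻¹ • v) (by
      rw [mem_sphere_zero_iff_norm, norm_smul, norm_inv, norm_norm, inv_mul_cancel₀ hn.ne'])
    simp only [dotProduct, Matrix.mulVec, Pi.star_apply, star_trivial]
    have h2 : ∑ i, ∑ j, A y i j * ((‖v‖⁻¹ • v) i * (‖v‖⁻¹ • v) j) =
        (‖v‖⁻¹ * ‖v‖⁻¹) * ∑ i, v i * ∑ j, A y i j * v j := by
      rw [Finset.mul_sum]
      refine Finset.sum_congr rfl fun i _ => ?_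
      rw [Finset.mul_sum, Finset.mul_sum]
      refine Finset.sum_congr rfl fun j _ => ?_
      simp only [Pi.smul_apply, smul_eq_mul]
      ring
    rw [h2] at h1
    exact pos_of_mul_pos_right h1 (by positivity)

variable {E₁ : Type*} [NormedAddCommGroup E₁] [NormedSpace ℝ E₁] [FiniteDimensional ℝ E₁]

theorem conn_hasFDerivAt {h : Curv.Coeff E₁} {Γ : E₁ × ℝ → E₁ →L[ℝ] ℝ} {β : E₁ × ℝ → ℝ}
    {p : E₁ × ℝ} (hh : ∀ i j, DifferentiableAt ℝ (fun x => h x i j) p.1)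
    (hΓ : DifferentiableAt ℝ Γ p) (hβ : DifferentiableAt ℝ β p) (i j) (v : E₁ × ℝ) :
    fderiv ℝ (fun y => conn h Γ β y i j) p v =
      ∑ k, ∑ l, (finBasis ℝ E₁).repr (finBasis ℝ (E₁ × ℝ) i).1 k *
          (finBasis ℝ E₁).repr (finBasis ℝ (E₁ × ℝ) j).1 l *
          fderiv ℝ (fun x => h x k l) p.1 v.1 +
      (Real.exp (β p) ^ 2 * (
        ((finBasis ℝ (E₁ × ℝ) i).2 - Γ p (finBasis ℝ (E₁ × ℝ) i).1) *
          (-(fderiv ℝ Γ p v (finBasis ℝ (E₁ × ℝ) j).1)) +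
        ((finBasis ℝ (E₁ × ℝ) j).2 - Γ p (finBasis ℝ (E₁ × ℝ) j).1) *
          (-(fderiv ℝ Γ p v (finBasis ℝ (E₁ × ℝ) i).1))) +
       (((finBasis ℝ (E₁ × ℝ) i).2 - Γ p (finBasis ℝ (E₁ × ℝ) i).1) *
        ((finBasis ℝ (E₁ × ℝ) j).2 - Γ p (finBasis ℝ (E₁ × ℝ) j).1)) *
        (2 * Real.exp (β p) * (Real.exp (β p) * fderiv ℝ β p v))) := by
  have hG : ∀ w : E₁, HasFDerivAt (fun y => Γ y w)
      ((fderiv ℝ Γ p).flip w) p := by
    intro w
    have h0 := hΓ.hasFDerivAt.clm_apply (hasFDerivAt_const w p)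
    have h1 : (Γ p).comp (0 : E₁ × ℝ →L[ℝ] E₁) + (fderiv ℝ Γ p).flip w =
        (fderiv ℝ Γ p).flip w := by
      rw [ContinuousLinearMap.comp_zero, zero_add]
    rw [h1] at h0
    exact h0
  have h1 : ∀ k l, HasFDerivAt (fun y : E₁ × ℝ => h y.1 k l)
      ((fderiv ℝ (fun x => h x k l) p.1).comp (ContinuousLinearMap.fst ℝ E₁ ℝ)) p := by
    intro k l
    exact (hh k l).hasFDerivAt.comp p hasFDerivAt_fst
  have A := (HasFDerivAt.fun_sum (u := Finset.univ) fun k _ => HasFDerivAt.fun_sum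
    (u := Finset.univ) fun l _ => ((h1 k l).mul_const
      ((finBasis ℝ E₁).repr (finBasis ℝ (E₁ × ℝ) i).1 k *
          (finBasis ℝ E₁).repr (finBasis ℝ (E₁ × ℝ) j).1 l))).add
    ((hβ.hasFDerivAt.exp.pow 2).mul
      (((hasFDerivAt_const (finBasis ℝ (E₁ × ℝ) i).2 p).sub (hG (finBasis ℝ (E₁ × ℝ) i).1)).mul
       ((hasFDerivAt_const (finBasis ℝ (E₁ × ℝ) j).2 p).sub (hG (finBasis ℝ (E₁ × ℝ) j).1))))
  have B : fderiv ℝ (fun y => conn h Γ β y i j) p = _ := A.fderiv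
  rw [B]
  simp
  ring

/-- The second derivatives of a function of `x`. -/
theorem pd_pd_fst {F : E₁ → ℝ} {p : E₁ × ℝ} (hF : ContDiffAt ℝ 2 F p.1) (i j) :
    Curv.pd i (Curv.pd j (fun y : E₁ × ℝ => F y.1)) p =
      fderiv ℝ (fderiv ℝ F) p.1 (finBasis ℝ (E₁ × ℝ) i).1 (finBasis ℝ (E₁ × ℝ) j).1 := by
  have h1 : ∀ᶠ x in 𝓝 p.1, DifferentiableAt ℝ F x := by
    filter_upwards [hF.eventually (by simp)] with x hx
    exact hx.differentiableAt (by norm_num)
  have h2 : ∀ᶠ y in 𝓝 p, Curv.pd j (fun y : E₁ × ℝ => F y.1) y =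
      fderiv ℝ F y.1 (finBasis ℝ (E₁ × ℝ) j).1 := by
    have h3 : ∀ᶠ y : E₁ × ℝ in 𝓝 p, DifferentiableAt ℝ F y.1 :=
      (continuous_fst.tendsto p).eventually h1
    filter_upwards [h3] with y hy
    have h4 : HasFDerivAt (fun y : E₁ × ℝ => F y.1)
        ((fderiv ℝ F y.1).comp (ContinuousLinearMap.fst ℝ E₁ ℝ)) y :=
      hy.hasFDerivAt.comp y hasFDerivAt_fst
    unfold Curv.pd
    rw [h4.fderiv]
    rfl
  have h5 : DifferentiableAt ℝ (fderiv ℝ F) p.1 :=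
    (hF.fderiv_right (m := 1) (by norm_num)).differentiableAt (by norm_num)
  have h6 : HasFDerivAt (fun y : E₁ × ℝ => fderiv ℝ F y.1)
      ((fderiv ℝ (fderiv ℝ F) p.1).comp (ContinuousLinearMap.fst ℝ E₁ ℝ)) p :=
    h5.hasFDerivAt.comp p hasFDerivAt_fst
  have h7 := h6.clm_apply (hasFDerivAt_const (finBasis ℝ (E₁ × ℝ) j).1 p)
  have h8 : Curv.pd j (fun y : E₁ × ℝ => F y.1) =ᶠ[𝓝 p] fun y =>
      fderiv ℝ F y.1 (finBasis ℝ (E₁ × ℝ) j).1 := h2
  unfold Curv.pd at h8 ⊢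
  rw [h8.fderiv_eq, h7.fderiv]
  simp

theorem pd_pd_two {F : E₁ → ℝ} {x : E₁} (hF : ContDiffAt ℝ 2 F x) (i j) :
    Curv.pd i (Curv.pd j F) x =
      fderiv ℝ (fderiv ℝ F) x (finBasis ℝ E₁ i) (finBasis ℝ E₁ j) := by
  have h5 : DifferentiableAt ℝ (fderiv ℝ F) x :=
    (hF.fderiv_right (m := 1) (by norm_num)).differentiableAt (by norm_num)
  have h7 := h5.hasFDerivAt.clm_apply (hasFDerivAt_const (finBasis ℝ E₁ j) x)
  unfold Curv.pd
  rw [h7.fderiv]
  simp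

omit [FiniteDimensional ℝ E₁] in
/-- Quadratic polynomials. -/
theorem quad_jets (a : ℝ) (L : E₁ →L[ℝ] ℝ) (Q : E₁ →L[ℝ] E₁ →L[ℝ] ℝ)
    (hQ : ∀ u v, Q u v = Q v u) (x₀ : E₁) :
    ContDiff ℝ ∞ (fun x => a + L (x - x₀) + 2⁻¹ * Q (x - x₀) (x - x₀)) ∧
    fderiv ℝ (fun x => a + L (x - x₀) + 2⁻¹ * Q (x - x₀) (x - x₀)) x₀ = L ∧
    fderiv ℝ (fderiv ℝ (fun x => a + L (x - x₀) + 2⁻¹ * Q (x - x₀) (x - x₀))) x₀ = Q := by
  have hs : ContDiff ℝ ∞ (fun x => a + L (x - x₀) + 2⁻¹ * Q (x - x₀) (x - x₀)) := by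
    fun_prop
  have h1 : ∀ x, HasFDerivAt (fun x => a + L (x - x₀) + 2⁻¹ * Q (x - x₀) (x - x₀))
      (L + Q (x - x₀)) x := by
    intro x
    have e1 : HasFDerivAt (fun x => x - x₀) (ContinuousLinearMap.id ℝ E₁) x :=
      (hasFDerivAt_id x).sub_const x₀
    have e2 : HasFDerivAt (fun x => L (x - x₀)) (L.comp (ContinuousLinearMap.id ℝ E₁)) x :=
      L.hasFDerivAt.comp x e1
    have e3 : HasFDerivAt (fun x => Q (x - x₀)) (Q.comp (ContinuousLinearMap.id ℝ E₁)) x :=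
      Q.hasFDerivAt.comp x e1
    have e4 := ((hasFDerivAt_const a x).add e2).add ((e3.clm_apply e1).const_mul 2⁻¹)
    refine e4.congr_fderiv ?_
    ext v
    simp
    rw [hQ v x, hQ v x₀]
    ring
  have h2 : fderiv ℝ (fun x => a + L (x - x₀) + 2⁻¹ * Q (x - x₀) (x - x₀)) =
      fun x => L + Q (x - x₀) := funext fun x => (h1 x).fderiv
  refine ⟨hs, ?_, ?_⟩
  · rw [h2]
    simp
  · rw [h2]
    have e1 : HasFDerivAt (fun x => x - x₀) (ContinuousLinearMap.id ℝ E₁) x₀ :=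
      (hasFDerivAt_id x₀).sub_const x₀
    have e3 : HasFDerivAt (fun x => Q (x - x₀)) (Q.comp (ContinuousLinearMap.id ℝ E₁)) x₀ :=
      Q.hasFDerivAt.comp x₀ e1
    have e4 := e3.const_add L
    rw [e4.fderiv]
    rfl

/-- Affine functions. -/
theorem aff_jets {V W : Type*} [NormedAddCommGroup V] [NormedSpace ℝ V] [NormedAddCommGroup W]
    [NormedSpace ℝ W] (a : W) (L : V →L[ℝ] W) (x₀ : V) :
    ContDiff ℝ ∞ (fun x => a + L (x - x₀)) ∧ HasFDerivAt (fun x => a + L (x - x₀)) L x₀ := by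
  refine ⟨by fun_prop, ?_⟩
  have e1 : HasFDerivAt (fun x => x - x₀) (ContinuousLinearMap.id ℝ V) x₀ :=
    (hasFDerivAt_id x₀).sub_const x₀
  exact (L.hasFDerivAt.comp x₀ e1).const_add a

/-- The Laplacian of a function of `x`, at a point near which there are only few derivatives. -/
theorem lap_conn_fin {h : Curv.Coeff E₁} {Γ : E₁ × ℝ → E₁ →L[ℝ] ℝ} {β : E₁ × ℝ → ℝ}
    {p : E₁ × ℝ} {F : E₁ → ℝ} (hh : ∀ i j, DifferentiableAt ℝ (fun x => h x i j) p.1)
    (hp : ∀ᶠ x in 𝓝 p.1, (h x).PosDef)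
    (hΓ : DifferentiableAt ℝ Γ p) (hβ : DifferentiableAt ℝ β p) (hF : ContDiffAt ℝ 2 F p.1) :
    lapC (conn h Γ β) (fun p => F p.1) p =
      lapC h F p.1 + kap Γ β p (gradM (finBasis ℝ E₁) (h p.1) (fderiv ℝ F p.1)) := by
  set h' : Curv.Coeff E₁ := fun x => Matrix.of fun i j =>
    h p.1 i j + fderiv ℝ (fun y => h y i j) p.1 (x - p.1) with hh'
  set Γ' : E₁ × ℝ → E₁ →L[ℝ] ℝ := fun y => Γ p + fderiv ℝ Γ p (y - p) with hΓ'
  set β' : E₁ × ℝ → ℝ := fun y => β p + fderiv ℝ β p (y - p) with hβ'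
  set F' : E₁ → ℝ := fun x => F p.1 + fderiv ℝ F p.1 (x - p.1) +
    2⁻¹ * fderiv ℝ (fderiv ℝ F) p.1 (x - p.1) (x - p.1) with hF'
  have hsymm : ∀ u v, fderiv ℝ (fderiv ℝ F) p.1 u v = fderiv ℝ (fderiv ℝ F) p.1 v u := fun u v =>
    (hF.isSymmSndFDerivAt (by simp)) u v
  obtain ⟨qs, q1, q2⟩ := quad_jets (F p.1) (fderiv ℝ F p.1) (fderiv ℝ (fderiv ℝ F) p.1) hsymm p.1
  have ah : ∀ i j, ContDiff ℝ ∞ (fun x => h' x i j) ∧
      HasFDerivAt (fun x => h' x i j) (fderiv ℝ (fun y => h y i j) p.1) p.1 := fun i j =>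
    aff_jets (h p.1 i j) (fderiv ℝ (fun y => h y i j) p.1) p.1
  have aΓ : ContDiff ℝ ∞ Γ' ∧ HasFDerivAt Γ' (fderiv ℝ Γ p) p :=
    aff_jets (Γ p) (fderiv ℝ Γ p) p
  have aβ : ContDiff ℝ ∞ β' ∧ HasFDerivAt β' (fderiv ℝ β p) p :=
    aff_jets (β p) (fderiv ℝ β p) p
  have h0 : h' p.1 = h p.1 := by
    ext i j
    simp [hh']
  have Γ0 : Γ' p = Γ p := by simp [hΓ']
  have β0 : β' p = β p := by simp [hβ']
  have hpos' : ∀ᶠ x in 𝓝 p.1, (h' x).PosDef := by
    apply posDef_near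
    · intro i j
      exact (ah i j).1.continuous.continuousAt
    · intro y i j
      have e1 : h p.1 i j = h p.1 j i := posDef_symm hp.self_of_nhds i j
      have e2 := fderiv_entry_symm hp i j
      simp only [hh', Matrix.of_apply, e1, e2]
    · rw [h0]
      exact hp.self_of_nhds
  have hD' : CDat h' Γ' β' p := ⟨fun i j => (ah i j).1.contDiffAt, aΓ.1.contDiffAt,
    aβ.1.contDiffAt, hpos'⟩
  have key := lap_conn hD' (F := F') qs.contDiffAt
  have c1 : lapC (conn h' Γ' β') (fun p => F' p.1) p = lapC (conn h Γ β) (fun p => F p.1) p := by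
    apply lapC_congr
    · ext i j
      simp only [conn, h0, Γ0, β0]
    · intro i j
      refine ContinuousLinearMap.ext fun v => ?_
      rw [conn_hasFDerivAt (fun i j => (ah i j).2.differentiableAt) aΓ.2.differentiableAt
        aβ.2.differentiableAt, conn_hasFDerivAt hh hΓ hβ]
      simp only [Γ0, β0, (ah _ _).2.fderiv]
      rw [aΓ.2.fderiv, aβ.2.fderiv]
    · have e1 : HasFDerivAt (fun y : E₁ × ℝ => F' y.1)
          ((fderiv ℝ F p.1).comp (ContinuousLinearMap.fst ℝ E₁ ℝ)) p := by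
        have : HasFDerivAt F' (fderiv ℝ F p.1) p.1 := by
          rw [← q1]
          exact (qs.differentiable (by simp)).differentiableAt.hasFDerivAt
        exact this.comp p hasFDerivAt_fst
      have e2 : HasFDerivAt (fun y : E₁ × ℝ => F y.1)
          ((fderiv ℝ F p.1).comp (ContinuousLinearMap.fst ℝ E₁ ℝ)) p :=
        (hF.differentiableAt (by norm_num)).hasFDerivAt.comp p hasFDerivAt_fst
      rw [e1.fderiv, e2.fderiv]
    · intro i j
      rw [pd_pd_fst hF, pd_pd_fst (F := F') (qs.contDiffAt.of_le (by norm_cast)), q2]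
  have c2 : lapC h' F' p.1 = lapC h F p.1 := by
    apply lapC_congr h0
    · intro i j
      exact (ah i j).2.fderiv
    · exact q1
    · intro i j
      rw [pd_pd_two hF, pd_pd_two (F := F') (qs.contDiffAt.of_le (by norm_cast)), q2]
  have c3 : kap Γ' β' p = kap Γ β p := by
    unfold kap
    rw [Γ0, aΓ.2.fderiv, aβ.2.fderiv]
  rw [← c1, key, c2, c3, h0, q1]


section trace

/-- The scalar product of two covectors. -/
theorem pair_gradM (M : Matrix (Fin (finrank ℝ E₁)) (Fin (finrank ℝ E₁)) ℝ)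
    (L L' : E₁ →L[ℝ] ℝ) :
    L (gradM (finBasis ℝ E₁) M L') =
      ∑ i, ∑ j, M⁻¹ i j * (L (finBasis ℝ E₁ i) * L' (finBasis ℝ E₁ j)) := by
  unfold gradM
  rw [map_sum]
  refine Finset.sum_congr rfl fun i _ => ?_
  rw [map_smul, smul_eq_mul, Finset.sum_mul]
  refine Finset.sum_congr rfl fun j _ => ?_
  ring

theorem pair_gradM_symm {M : Matrix (Fin (finrank ℝ E₁)) (Fin (finrank ℝ E₁)) ℝ}
    (hM : M.PosDef) (L L' : E₁ →L[ℝ] ℝ) :
    L (gradM (finBasis ℝ E₁) M L') = L' (gradM (finBasis ℝ E₁) M L) := by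
  rw [pair_gradM, pair_gradM, Finset.sum_comm]
  refine Finset.sum_congr rfl fun i _ => Finset.sum_congr rfl fun j _ => ?_
  rw [posDef_symm hM.inv j i]
  ring

/-- The gradient is dual to the covector. -/
theorem mB_gradM {M : Matrix (Fin (finrank ℝ E₁)) (Fin (finrank ℝ E₁)) ℝ}
    (hM : M.PosDef) (L : E₁ →L[ℝ] ℝ) (w : E₁) :
    mB M (gradM (finBasis ℝ E₁) M L) w = L w := by
  have hdet : IsUnit M.det := hM.det_pos.ne'.isUnit
  have hr : ∀ i, (finBasis ℝ E₁).repr (gradM (finBasis ℝ E₁) M L) i =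
      ∑ j, M⁻¹ i j * L (finBasis ℝ E₁ j) := by
    intro i
    rw [← cd_gradM, cd_apply]
  have hid : ∀ r j, ∑ i, M⁻¹ i r * M i j = if r = j then 1 else 0 := by
    intro r j
    have h1 := congrFun (congrFun (Matrix.nonsing_inv_mul M hdet) r) j
    rw [Matrix.mul_apply, Matrix.one_apply] at h1
    rw [← h1]
    refine Finset.sum_congr rfl fun i _ => ?_
    rw [posDef_symm hM.inv i r]
  have hw : L w = ∑ j, (finBasis ℝ E₁).repr w j * L (finBasis ℝ E₁ j) := by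
    conv_lhs => rw [← (finBasis ℝ E₁).sum_repr w]
    rw [map_sum]
    refine Finset.sum_congr rfl fun j _ => ?_
    rw [map_smul, smul_eq_mul]
  have h2 : mB M (gradM (finBasis ℝ E₁) M L) w =
      ∑ j, (finBasis ℝ E₁).repr w j * ∑ r, L (finBasis ℝ E₁ r) * ∑ i, M⁻¹ i r * M i j := by
    unfold mB
    rw [Finset.sum_comm]
    refine Finset.sum_congr rfl fun j _ => ?_
    simp only [hr, Finset.mul_sum, Finset.sum_mul]
    rw [Finset.sum_comm]
    refine Finset.sum_congr rfl fun i _ => Finset.sum_congr rfl fun r _ => ?_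
    ring
  rw [h2, hw]
  refine Finset.sum_congr rfl fun j _ => ?_
  simp only [hid, mul_ite, mul_one, mul_zero, Finset.sum_ite_eq', Finset.mem_univ, if_true]

/-- The trace of `ξ ⊗ ξ` by the data of the metric. -/
theorem sum_data {κ : Type*} [Fintype κ]
    {M : Matrix (Fin (finrank ℝ E₁)) (Fin (finrank ℝ E₁)) ℝ} (hM : M.PosDef)
    {φ : κ → E₁ →L[ℝ] ℝ} {c : κ → κ → ℝ}
    (hdata : ∀ u v, mB M u v = ∑ k, ∑ l, c k l * (φ k u * φ l v)) (ξ : E₁ →L[ℝ] ℝ) :
    ∑ k, ∑ l, c k l * (ξ (gradM (finBasis ℝ E₁) M (φ k)) *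
      ξ (gradM (finBasis ℝ E₁) M (φ l))) = ξ (gradM (finBasis ℝ E₁) M ξ) := by
  have h1 := hdata (gradM (finBasis ℝ E₁) M ξ) (gradM (finBasis ℝ E₁) M ξ)
  rw [mB_gradM hM] at h1
  rw [h1]
  refine Finset.sum_congr rfl fun k _ => Finset.sum_congr rfl fun l _ => ?_
  rw [pair_gradM_symm hM ξ (φ k), pair_gradM_symm hM ξ (φ l)]

end trace

omit [FiniteDimensional ℝ E₁] in
theorem kap_eq (Γ : E₁ × ℝ → E₁ →L[ℝ] ℝ) (β : E₁ × ℝ → ℝ) (p : E₁ × ℝ) :
    kap Γ β p = (fderiv ℝ β p).comp (ContinuousLinearMap.inl ℝ E₁ ℝ) +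
      fderiv ℝ β p (0, 1) • Γ p + fderiv ℝ Γ p (0, 1) := by
  ext u
  simp only [kap, _root_.add_apply, ContinuousLinearMap.comp_apply,
    ContinuousLinearMap.prod_apply, ContinuousLinearMap.id_apply, ContinuousLinearMap.inl_apply,
    _root_.smul_apply, smul_eq_mul]
  have h1 : ((u, Γ p u) : E₁ × ℝ) = (u, 0) + (Γ p u) • ((0, 1) : E₁ × ℝ) := by
    simp
  rw [h1, map_add, map_smul, smul_eq_mul]
  ring

theorem kap_smooth {h : Curv.Coeff E₁} {Γ : E₁ × ℝ → E₁ →L[ℝ] ℝ} {β : E₁ × ℝ → ℝ}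
    {q : E₁ × ℝ} (hD : CDat h Γ β q) : ContDiffAt ℝ ∞ (kap Γ β) q := by
  have h1 : kap Γ β = fun p => (fderiv ℝ β p).comp (ContinuousLinearMap.inl ℝ E₁ ℝ) +
      fderiv ℝ β p (0, 1) • Γ p + fderiv ℝ Γ p (0, 1) := funext fun p => kap_eq Γ β p
  rw [h1]
  have hb : ContDiffAt ℝ ∞ (fderiv ℝ β) q := hD.β_smooth.fderiv_right (m := ∞) (by simp)
  have hg : ContDiffAt ℝ ∞ (fderiv ℝ Γ) q := hD.Γ_smooth.fderiv_right (m := ∞) (by simp)
  exact ((hb.clm_comp contDiffAt_const).add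
    ((hb.clm_apply contDiffAt_const).smul hD.Γ_smooth)).add (hg.clm_apply contDiffAt_const)

/-- The divergence of the covector `kap` on the slice. -/
theorem divC_kap {h : Curv.Coeff E₁} {Γ : E₁ × ℝ → E₁ →L[ℝ] ℝ} {β : E₁ × ℝ → ℝ}
    {q : E₁ × ℝ} (hD : CDat h Γ β q) (hN : NF Γ q) :
    divC h (fun y => kap Γ β (y, q.2)) q.1 = lapC h (fun x => β (x, q.2)) q.1 + trG h Γ q := by
  have hM : (h q.1).PosDef := hD.h_pos.self_of_nhds
  have hb : ContDiffAt ℝ ∞ (fderiv ℝ β) q := hD.β_smooth.fderiv_right (m := ∞) (by simp)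
  have hg : ContDiffAt ℝ ∞ (fderiv ℝ Γ) q := hD.Γ_smooth.fderiv_right (m := ∞) (by simp)
  have e0 : ∀ w, kap Γ β (q.1, q.2) w = fderiv ℝ (fun x => β (x, q.2)) q.1 w := by
    intro w
    rw [Alg.slice1_fderiv hD.β_smooth, kap_eq]
    simp only [Prod.mk.eta, hN.zero, hN.dy, smul_zero, add_zero, ContinuousLinearMap.comp_apply,
      ContinuousLinearMap.inl_apply]
  have e1 : ∀ w v, fderiv ℝ (fun x' => kap Γ β (x', q.2) w) q.1 v =
      fderiv ℝ (fderiv ℝ (fun x => β (x, q.2))) q.1 v w +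
      fderiv ℝ β q (0, 1) * fderiv ℝ Γ q (v, 0) w +
      fderiv ℝ (fun p => fderiv ℝ Γ p (0, 1)) q (v, 0) w := by
    intro w v
    have k1 : ContDiffAt ℝ ∞ (fun p => kap Γ β p w) q := (kap_smooth hD).clm_apply contDiffAt_const
    have k2 := Alg.slice1_fderiv k1 v
    rw [k2, Alg.slice1_fderiv2 hD.β_smooth]
    have hbd : HasFDerivAt (fderiv ℝ β) (fderiv ℝ (fderiv ℝ β) q) q :=
      (hb.differentiableAt (by simp)).hasFDerivAt
    have hgd : HasFDerivAt Γ (fderiv ℝ Γ q) q :=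
      (hD.Γ_smooth.differentiableAt (by simp)).hasFDerivAt
    have hg2 : DifferentiableAt ℝ (fun p => fderiv ℝ Γ p (0, 1)) q :=
      (hg.clm_apply contDiffAt_const).differentiableAt (by simp)
    have a1 := hbd.clm_apply (hasFDerivAt_const ((w, 0) : E₁ × ℝ) q)
    have a2 := hbd.clm_apply (hasFDerivAt_const ((0, 1) : E₁ × ℝ) q)
    have a3 := hgd.clm_apply (hasFDerivAt_const w q)
    have a4 := hg2.hasFDerivAt.clm_apply (hasFDerivAt_const w q)
    have a5 := (a1.add (a2.mul a3)).add a4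
    have a6 : (fun p => kap Γ β p w) = ((fun p => fderiv ℝ β p (w, 0)) +
        (fun p => fderiv ℝ β p (0, 1)) * fun p => Γ p w) + fun p => fderiv ℝ Γ p (0, 1) w := by
      funext p
      rw [kap_eq]
      simp
    rw [a6, a5.fderiv]
    simp [hN.zero]
  have e2 : ∑ i, ∑ j, (h q.1)⁻¹ i j * (fderiv ℝ β q (0, 1) *
      fderiv ℝ Γ q (finBasis ℝ E₁ i, 0) (finBasis ℝ E₁ j)) = 0 := by
    have f1 : ∑ i, ∑ j, (h q.1)⁻¹ i j * (fderiv ℝ β q (0, 1) *
      fderiv ℝ Γ q (finBasis ℝ E₁ i, 0) (finBasis ℝ E₁ j)) =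
        -∑ i, ∑ j, (h q.1)⁻¹ i j * (fderiv ℝ β q (0, 1) *
      fderiv ℝ Γ q (finBasis ℝ E₁ i, 0) (finBasis ℝ E₁ j)) := by
      conv_lhs => rw [Finset.sum_comm]
      rw [← Finset.sum_neg_distrib]
      refine Finset.sum_congr rfl fun i _ => ?_
      rw [← Finset.sum_neg_distrib]
      refine Finset.sum_congr rfl fun j _ => ?_
      rw [posDef_symm hM.inv j i, hN.anti (finBasis ℝ E₁ j) (finBasis ℝ E₁ i)]
      ring
    linarith
  unfold divC lapC trG Curv.covHess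
  simp only [e0, e1]
  have e3 : ∀ i j, Curv.pd i (Curv.pd j fun x => β (x, q.2)) q.1 =
      fderiv ℝ (fderiv ℝ (fun x => β (x, q.2))) q.1 (finBasis ℝ E₁ i) (finBasis ℝ E₁ j) :=
    fun i j => pd_pd_two ((Alg.slice1_contDiffAt hD.β_smooth).of_le (by norm_cast)) i j
  simp only [e3]
  have e4 : ∀ r, Curv.pd r (fun x => β (x, q.2)) q.1 =
      fderiv ℝ (fun x => β (x, q.2)) q.1 (finBasis ℝ E₁ r) := fun r => rfl
  simp only [e4]
  rw [← Finset.sum_add_distrib, ← sub_eq_zero]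
  rw [← Finset.sum_sub_distrib]
  refine Eq.trans ?_ e2
  refine Finset.sum_congr rfl fun i _ => ?_
  rw [← Finset.sum_add_distrib, ← Finset.sum_sub_distrib]
  refine Finset.sum_congr rfl fun j _ => ?_
  ring

end J8

variable {E₁ : Type*} [NormedAddCommGroup E₁] [NormedSpace ℝ E₁] [FiniteDimensional ℝ E₁]
  {h : Curv.Coeff E₁} {Γ : E₁ × ℝ → E₁ →L[ℝ] ℝ} {β : E₁ × ℝ → ℝ} {q : E₁ × ℝ}
  {κ : Type*} [Fintype κ] {f : κ → E₁ → ℝ} {c : κ → κ → E₁ → ℝ}

/-- The functions `c_kl (Δ_h f_k - Δ (f_k ∘ pr))`. -/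
def wkl (h : Curv.Coeff E₁) (Γ : E₁ × ℝ → E₁ →L[ℝ] ℝ) (β : E₁ × ℝ → ℝ)
    (f : κ → E₁ → ℝ) (c : κ → κ → E₁ → ℝ) (k l : κ) (p : E₁ × ℝ) : ℝ :=
  c k l p.1 * (lapC h (f k) p.1 - lapC (conn h Γ β) (fun p => f k p.1) p)

theorem dform_eq (hD : CDat h Γ β q) (hN : NF Γ q)
    (hf : ∀ k, ContDiffAt ℝ ∞ (f k) q.1) (hc : ∀ k l, ContDiffAt ℝ ∞ (c k l) q.1)
    (hdata : ∀ᶠ y in 𝓝 q.1, ∀ u v, mB (h y) u v =
      ∑ k, ∑ l, c k l y * (fderiv ℝ (f k) y u * fderiv ℝ (f l) y v)) :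
    ∑ k, ∑ l, (gradC (conn h Γ β) (wkl h Γ β f c k l) (fun p => f l p.1) q +
      wkl h Γ β f c k l q * lapC (conn h Γ β) (fun p => f l p.1) q) =
    -(lapC h (fun x => β (x, q.2)) q.1 +
      gradC h (fun x => β (x, q.2)) (fun x => β (x, q.2)) q.1 + trG h Γ q) := by
  have hM : (h q.1).PosDef := hD.h_pos.self_of_nhds
  set g : κ → E₁ → E₁ := fun k x => gradM (finBasis ℝ E₁) (h x) (fderiv ℝ (f k) x) with hg
  -- the functions near `q`
  have n1 : ∀ᶠ x in 𝓝 q.1, ∀ i j, DifferentiableAt ℝ (fun x => h x i j) x := by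
    rw [eventually_all]
    intro i
    rw [eventually_all]
    intro j
    have h1 : ContDiffAt ℝ 1 (fun x => h x i j) q.1 := (hD.h_smooth i j).of_le (by norm_num)
    filter_upwards [h1.eventually (by simp)] with x hx
    exact hx.differentiableAt (by norm_num)
  have n2 : ∀ᶠ x in 𝓝 q.1, ∀ᶠ y in 𝓝 x, (h y).PosDef := hD.h_pos.eventually_nhds
  have n3 : ∀ᶠ p in 𝓝 q, DifferentiableAt ℝ Γ p := by
    have h1 : ContDiffAt ℝ 1 Γ q := hD.Γ_smooth.of_le (by norm_num)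
    filter_upwards [h1.eventually (by simp)] with x hx
    exact hx.differentiableAt (by norm_num)
  have n4 : ∀ᶠ p in 𝓝 q, DifferentiableAt ℝ β p := by
    have h1 : ContDiffAt ℝ 1 β q := hD.β_smooth.of_le (by norm_num)
    filter_upwards [h1.eventually (by simp)] with x hx
    exact hx.differentiableAt (by norm_num)
  have n5 : ∀ᶠ x in 𝓝 q.1, ∀ k, ContDiffAt ℝ 2 (f k) x := by
    rw [eventually_all]
    intro k
    have h1 : ContDiffAt ℝ 2 (f k) q.1 := (hf k).of_le (by norm_cast)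
    exact h1.eventually (by simp)
  have hwkl : ∀ k l, wkl h Γ β f c k l =ᶠ[𝓝 q]
      fun p => -(c k l p.1 * kap Γ β p (g k p.1)) := by
    intro k l
    have m1 : ∀ᶠ p : E₁ × ℝ in 𝓝 q, ∀ i j, DifferentiableAt ℝ (fun x => h x i j) p.1 :=
      (continuous_fst.tendsto q).eventually n1
    have m2 : ∀ᶠ p : E₁ × ℝ in 𝓝 q, ∀ᶠ y in 𝓝 p.1, (h y).PosDef :=
      (continuous_fst.tendsto q).eventually n2
    have m5 : ∀ᶠ p : E₁ × ℝ in 𝓝 q, ∀ k, ContDiffAt ℝ 2 (f k) p.1 :=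
      (continuous_fst.tendsto q).eventually n5
    filter_upwards [m1, m2, n3, n4, m5] with p p1 p2 p3 p4 p5
    unfold wkl
    rw [J8.lap_conn_fin p1 p2 p3 p4 (p5 k)]
    ring
  have hgs : ∀ k, ContDiffAt ℝ ∞ (g k) q.1 := fun k =>
    gradM_contDiffAt (finBasis ℝ E₁) hD.h_smooth hM.det_pos.ne'
      ((hf k).fderiv_right (m := ∞) (by simp))
  have hks := J8.kap_smooth hD
  have hΦ : ∀ k l, ContDiffAt ℝ ∞ (fun p : E₁ × ℝ => c k l p.1 * kap Γ β p (g k p.1)) q := by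
    intro k l
    have h1 : ContDiffAt ℝ ∞ (fun p : E₁ × ℝ => c k l p.1) q :=
      (hc k l).comp q contDiffAt_fst
    have h2 : ContDiffAt ℝ ∞ (fun p : E₁ × ℝ => g k p.1) q :=
      (hgs k).comp q contDiffAt_fst
    exact h1.mul (hks.clm_apply h2)
  have hξ : ContDiffAt ℝ ∞ (fun y => kap Γ β (y, q.2)) q.1 :=
    ContDiffAt.comp (g := kap Γ β) (f := fun x : E₁ => (x, q.2)) q.1 hks
      (contDiffAt_id.prodMk contDiffAt_const)
  have hterm : ∀ k l, gradC (conn h Γ β) (wkl h Γ β f c k l) (fun p => f l p.1) q +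
      wkl h Γ β f c k l q * lapC (conn h Γ β) (fun p => f l p.1) q =
      -((fderiv ℝ (fun y => c k l y * kap Γ β (y, q.2) (g k y)) q.1 (g l q.1) +
        c k l q.1 * kap Γ β (q.1, q.2) (g k q.1) * lapC h (f l) q.1) +
        c k l q.1 * (kap Γ β (q.1, q.2) (g k q.1) * kap Γ β (q.1, q.2) (g l q.1))) := by
    intro k l
    rw [grad_conn hD (hf l), lap_conn hD (hf l), (hwkl k l).fderiv_eq, (hwkl k l).self_of_nhds,
      hN.zero]
    have h1 : fderiv ℝ (fun p : E₁ × ℝ => -(c k l p.1 * kap Γ β p (g k p.1))) q =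
        -fderiv ℝ (fun p : E₁ × ℝ => c k l p.1 * kap Γ β p (g k p.1)) q := fderiv_fun_neg
    have h2 := Alg.slice1_fderiv (hΦ k l) (g l q.1)
    rw [h1, _root_.neg_apply, _root_.zero_apply]
    simp only [Prod.mk.eta] at h2 ⊢
    rw [← h2]
    ring
  simp only [hterm, Finset.sum_neg_distrib, Finset.sum_add_distrib]
  have hdiv := divC_data hD.h_smooth hD.h_pos hξ hf hc hdata
  have hsum := J8.sum_data hM (φ := fun k => fderiv ℝ (f k) q.1) (c := fun k l => c k l q.1)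
    hdata.self_of_nhds (kap Γ β (q.1, q.2))
  simp only [Finset.sum_add_distrib] at hdiv
  rw [hdiv, hsum, J8.divC_kap hD hN]
  have hlast : kap Γ β (q.1, q.2) (gradM (finBasis ℝ E₁) (h q.1) (kap Γ β (q.1, q.2))) =
      gradC h (fun x => β (x, q.2)) (fun x => β (x, q.2)) q.1 := by
    rw [J8.pair_gradM]
    unfold gradC
    have e0 : ∀ w, kap Γ β (q.1, q.2) w = fderiv ℝ (fun x => β (x, q.2)) q.1 w := by
      intro w
      rw [Alg.slice1_fderiv hD.β_smooth, J8.kap_eq]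
      simp only [Prod.mk.eta, hN.zero, hN.dy, smul_zero, add_zero,
        ContinuousLinearMap.comp_apply, ContinuousLinearMap.inl_apply]
    simp only [e0]
    rfl
  rw [hlast]
  ring

end Pool.Agent.Lib.MP_df705a_gt.Circ
end
end
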