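import Mathlib

section

/-!
# TASK L1: antisymmetric functions vanish to odd order on the diagonal
-/

open scoped ContDiff Topology
open Set Filter

noncomputable section

namespace Pool.Agent.Lib.MP_df705a_gt.Perm

section Line

variable {E' : Type*} [NormedAddCommGroup E'] [NormedSpace ℝ E']

private theorem og_hasDerivAt_line (a b : E') (t : ℝ) :
    HasDerivAt (fun s : ℝ => a + s • b) b t := by
  have h := ((hasDerivAt_id t).smul_const b).const_add a
  simpa using h

private theorem og_continuous_line (a b : E') : Continuous fun s : ℝ => a + s • b := by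
  fun_prop

/-- iterated derivatives along a line -/
private theorem og_line_iter {Φ : E' → ℝ} {a b : E'} (n : ℕ) :
    ∀ t : ℝ, ContDiffAt ℝ n Φ (a + t • b) →
      iteratedDeriv n (fun s : ℝ => Φ (a + s • b)) t =
        iteratedFDeriv ℝ n Φ (a + t • b) (fun _ => b) := by
  induction n with
  | zero =>
    intro t _
    simp
  | succ n ih =>
    intro t h
    have hev : ∀ᶠ s in 𝓝 t, ContDiffAt ℝ n Φ (a + s • b) := by
      have h1 : ∀ᶠ y in 𝓝 (a + t • b), ContDiffAt ℝ ((n + 1 : ℕ)) Φ y := h.eventually (by simp)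
      have h2 := ((og_continuous_line a b).continuousAt (x := t)).eventually h1
      exact h2.mono fun s hs => hs.of_le (by exact_mod_cast Nat.le_succ n)
    rw [iteratedDeriv_succ]
    have heq : iteratedDeriv n (fun s : ℝ => Φ (a + s • b)) =ᶠ[𝓝 t]
        fun s => iteratedFDeriv ℝ n Φ (a + s • b) (fun _ => b) :=
      hev.mono fun s hs => ih s hs
    rw [heq.deriv_eq]
    have hd : DifferentiableAt ℝ (iteratedFDeriv ℝ n Φ) (a + t • b) :=
      h.differentiableAt_iteratedFDeriv (by exact_mod_cast Nat.lt_succ_self n)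
    have hc := hd.hasFDerivAt.comp_hasDerivAt t (og_hasDerivAt_line a b t)
    have hc2 := (ContinuousMultilinearMap.apply ℝ (fun _ : Fin n => E') ℝ
      (fun _ => b)).hasFDerivAt.comp_hasDerivAt t hc
    rw [iteratedFDeriv_succ_apply_left]
    exact hc2.deriv

/-- Taylor's formula along a line, with a bound for the remainder -/
private theorem og_taylor (n : ℕ) {W : E' → ℝ} {a b : E'} {K : ℝ}
    (h : ∀ t ∈ Icc (0 : ℝ) 1, ContDiffAt ℝ (n + 1 : ℕ) W (a + t • b))
    (hK : ∀ t ∈ Icc (0 : ℝ) 1, ‖iteratedFDeriv ℝ (n + 1) W (a + t • b)‖ ≤ K) :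
    |W (a + b) - ∑ j ∈ Finset.range (n + 1),
      ((j.factorial : ℝ)⁻¹) * iteratedDeriv j (fun s : ℝ => W (a + s • b)) 0| ≤
        K * ‖b‖ ^ (n + 1) := by
  have hU : UniqueDiffOn ℝ (Icc (0 : ℝ) 1) := uniqueDiffOn_Icc one_pos
  have hψ : ∀ t ∈ Icc (0 : ℝ) 1, ContDiffAt ℝ (n + 1 : ℕ) (fun s : ℝ => W (a + s • b)) t := by
    intro t ht
    exact (h t ht).comp t (by fun_prop : ContDiff ℝ (n + 1 : ℕ) fun s : ℝ => a + s • b).contDiffAt
  have hcd : ContDiffOn ℝ (n + 1) (fun s : ℝ => W (a + s • b)) (Icc 0 1) := fun t ht =>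
    (hψ t ht).contDiffWithinAt
  have hK0 : 0 ≤ K := (norm_nonneg _).trans (hK 0 (by simp))
  have hbd : ∀ y ∈ Icc (0 : ℝ) 1, ‖iteratedDerivWithin (n + 1) (fun s : ℝ => W (a + s • b))
      (Icc 0 1) y‖ ≤ K * ‖b‖ ^ (n + 1) := by
    intro t ht
    rw [iteratedDerivWithin_eq_iteratedDeriv hU (hψ t ht) ht, og_line_iter _ _ (h t ht)]
    refine (ContinuousMultilinearMap.le_opNorm _ _).trans ?_
    rw [Finset.prod_const, Finset.card_univ, Fintype.card_fin]
    exact mul_le_mul_of_nonneg_right (hK t ht) (by positivity)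
  have hT := taylor_mean_remainder_bound (x := 1) zero_le_one hcd (by simp) hbd
  rw [taylor_within_apply] at hT
  simp only [sub_zero, one_pow, mul_one, smul_eq_mul, one_smul] at hT
  have hsum : ∑ k ∈ Finset.range (n + 1), ((k.factorial : ℝ)⁻¹) *
      iteratedDerivWithin k (fun s : ℝ => W (a + s • b)) (Icc 0 1) 0 =
      ∑ j ∈ Finset.range (n + 1),
        ((j.factorial : ℝ)⁻¹) * iteratedDeriv j (fun s : ℝ => W (a + s • b)) 0 := by
    apply Finset.sum_congr rfl
    intro j hj
    rw [iteratedDerivWithin_eq_iteratedDeriv hU ((hψ 0 (by simp)).of_le ?_) (by simp)]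
    have := Finset.mem_range.1 hj
    exact_mod_cast this.le
  rw [hsum, Real.norm_eq_abs] at hT
  refine hT.trans ?_
  have h1 : (1 : ℝ) ≤ (n.factorial : ℝ) := by exact_mod_cast n.factorial_pos
  exact div_le_self (by positivity) h1

/-- local bounds for the iterated derivatives -/
private theorem og_bound (n : ℕ) {W : E' → ℝ} {q₀ : E'} (hW : ContDiffAt ℝ ∞ W q₀) :
    ∃ r K : ℝ, 0 < r ∧ 0 ≤ K ∧ ∀ q ∈ Metric.ball q₀ r, ContDiffAt ℝ (n : ℕ) W q ∧
      ‖iteratedFDeriv ℝ n W q‖ ≤ K := by
  have h1 : ContDiffAt ℝ (n : ℕ) W q₀ := hW.of_le (by exact_mod_cast le_top)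
  have h2 : ∀ᶠ q in 𝓝 q₀, ContDiffAt ℝ (n : ℕ) W q := h1.eventually (by simp)
  have h3 := (h1.continuousAt_iteratedFDeriv le_rfl).norm
  have h4 : ∀ᶠ q in 𝓝 q₀, ‖iteratedFDeriv ℝ n W q‖ < ‖iteratedFDeriv ℝ n W q₀‖ + 1 :=
    h3.eventually (gt_mem_nhds (by linarith))
  obtain ⟨r, hr, h5⟩ := Metric.eventually_nhds_iff_ball.1 (h2.and h4)
  exact ⟨r, ‖iteratedFDeriv ℝ n W q₀‖ + 1, hr, by positivity, fun q hq =>
    ⟨(h5 q hq).1, (h5 q hq).2.le⟩⟩

end Line

/-- low order derivatives of a function that is `O(t^k)` vanish -/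
private theorem og_van {ψ : ℝ → ℝ} {k : ℕ} (hψ : ContDiffOn ℝ (k + 1 : ℕ) ψ (Icc 0 1)) {C : ℝ}
    (hC : ∀ t ∈ Icc (0 : ℝ) 1, |ψ t| ≤ C * t ^ k) :
    ∀ j < k, iteratedDerivWithin j ψ (Icc 0 1) 0 = 0 := by
  intro j
  induction j using Nat.strong_induction_on with
  | _ j ih =>
  intro hj
  have hcd : ContDiffOn ℝ (j + 1) ψ (Icc 0 1) := hψ.of_le (by exact_mod_cast (by omega))
  obtain ⟨C₂, hC₂⟩ := exists_taylor_mean_remainder_bound zero_le_one hcd
  set D := iteratedDerivWithin j ψ (Icc 0 1) 0 with hD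
  set c := ((j.factorial : ℝ)⁻¹) * |D| with hc
  set A := |C| + |C₂| with hA
  have hA0 : 0 ≤ A := by positivity
  have key : ∀ x ∈ Icc (0 : ℝ) 1, c * x ^ j ≤ A * x ^ (j + 1) := by
    intro x hx
    have h1 := hC₂ x hx
    rw [taylor_within_apply, Finset.sum_range_succ] at h1
    have h2 : ∑ i ∈ Finset.range j, (((i.factorial : ℝ)⁻¹) * (x - 0) ^ i) •
        iteratedDerivWithin i ψ (Icc 0 1) 0 = 0 := by
      apply Finset.sum_eq_zero
      intro i hi
      have hi' := Finset.mem_range.1 hi
      rw [ih i hi' (by omega), smul_zero]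
    rw [h2, zero_add, ← hD, sub_zero, smul_eq_mul, Real.norm_eq_abs] at h1
    have h3 := hC x hx
    have hx0 := hx.1
    have hx1 := hx.2
    have h4 : |((j.factorial : ℝ)⁻¹) * x ^ j * D| = c * x ^ j := by
      rw [abs_mul, abs_mul, abs_of_nonneg (by positivity : 0 ≤ ((j.factorial : ℝ)⁻¹)),
        abs_of_nonneg (by positivity : 0 ≤ x ^ j), hc]
      ring
    have h5 : x ^ k ≤ x ^ (j + 1) := pow_le_pow_of_le_one hx0 hx1 (by omega)
    have h6 : C * x ^ k ≤ |C| * x ^ (j + 1) :=
      (mul_le_mul_of_nonneg_right (le_abs_self C) (by positivity)).trans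
        (mul_le_mul_of_nonneg_left h5 (abs_nonneg C))
    have h7 : C₂ * x ^ (j + 1) ≤ |C₂| * x ^ (j + 1) :=
      mul_le_mul_of_nonneg_right (le_abs_self C₂) (by positivity)
    have h8 : |((j.factorial : ℝ)⁻¹) * x ^ j * D| ≤ |ψ x| +
        |ψ x - ((j.factorial : ℝ)⁻¹) * x ^ j * D| := by
      have h9 : ((j.factorial : ℝ)⁻¹) * x ^ j * D =
          ψ x - (ψ x - ((j.factorial : ℝ)⁻¹) * x ^ j * D) := by ring
      calc |((j.factorial : ℝ)⁻¹) * x ^ j * D|
          = |ψ x - (ψ x - ((j.factorial : ℝ)⁻¹) * x ^ j * D)| := by rw [← h9]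
        _ ≤ |ψ x| + |ψ x - ((j.factorial : ℝ)⁻¹) * x ^ j * D| := abs_sub _ _
    rw [h4] at h8
    have h10 : A * x ^ (j + 1) = |C| * x ^ (j + 1) + |C₂| * x ^ (j + 1) := by
      rw [hA]; ring
    linarith
  have hc0 : c ≤ 0 := by
    by_contra hcon
    push Not at hcon
    set x := min 1 (c / (2 * (A + 1))) with hx
    have hxpos : 0 < x := by positivity
    have hx1 : x ≤ 1 := min_le_left _ _
    have hx2 : x ≤ c / (2 * (A + 1)) := min_le_right _ _
    have h1 := key x ⟨hxpos.le, hx1⟩
    rw [pow_succ] at h1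
    have h2 : c ≤ A * x := by
      have h3 : 0 < x ^ j := by positivity
      have h4 : c * x ^ j ≤ (A * x) * x ^ j := by linarith
      exact le_of_mul_le_mul_right h4 h3
    rw [le_div_iff₀ (by positivity)] at hx2
    nlinarith
  have hf : 0 < ((j.factorial : ℝ)⁻¹) := by positivity
  have : |D| ≤ 0 := by
    by_contra hcon
    push Not at hcon
    have : 0 < c := mul_pos hf hcon
    linarith
  exact abs_nonpos_iff.1 this

variable {E : Type*} [NormedAddCommGroup E] [NormedSpace ℝ E]

private theorem og_seg {p : E} {r : ℝ} {q : E × E} (hq : q ∈ Metric.ball (p, p) r) {t : ℝ}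
    (ht : t ∈ Icc (-1 : ℝ) 1) :
    (((1 / 2 : ℝ) • (q.1 + q.2), (1 / 2 : ℝ) • (q.1 + q.2)) : E × E) +
      t • (((1 / 2 : ℝ) • (q.1 - q.2), -((1 / 2 : ℝ) • (q.1 - q.2))) : E × E) ∈
        Metric.ball (p, p) r := by
  rw [← ball_prod_same] at hq ⊢
  obtain ⟨h1, h2⟩ := hq
  obtain ⟨ht1, ht2⟩ := ht
  have e1 : (1 / 2 : ℝ) • (q.1 + q.2) + t • (1 / 2 : ℝ) • (q.1 - q.2) =
      q.2 + ((1 + t) / 2) • (q.1 - q.2) := by
    module
  have e2 : (1 / 2 : ℝ) • (q.1 + q.2) + t • (-((1 / 2 : ℝ) • (q.1 - q.2))) =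
      q.2 + ((1 - t) / 2) • (q.1 - q.2) := by
    module
  refine ⟨?_, ?_⟩
  · show (1 / 2 : ℝ) • (q.1 + q.2) + t • (1 / 2 : ℝ) • (q.1 - q.2) ∈ Metric.ball p r
    rw [e1]
    exact (convex_ball p r).add_smul_sub_mem h2 h1 ⟨by linarith, by linarith⟩
  · show (1 / 2 : ℝ) • (q.1 + q.2) + t • (-((1 / 2 : ℝ) • (q.1 - q.2))) ∈ Metric.ball p r
    rw [e2]
    exact (convex_ball p r).add_smul_sub_mem h2 h1 ⟨by linarith, by linarith⟩

/-- A smooth antisymmetric function of two points which is `O(|x - y|^k)`, `k` even, is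
`O(|x - y|^(k+1))`. (For `x = m + w`, `y = m - w` the function `t ↦ Φ (m + t w, m - t w)` is odd;
Taylor's formula of order `k + 1` at `0`.) Needed for `k = 2` and `k = 4` only. -/
theorem odd_gain {Φ : E × E → ℝ} {p : E} (hΦ : ContDiffAt ℝ ∞ Φ (p, p))
    (hanti : ∀ᶠ q : E × E in 𝓝 (p, p), Φ (q.2, q.1) = -Φ q) {k : ℕ} (hk : Even k) {C : ℝ}
    (hC : ∀ᶠ q : E × E in 𝓝 (p, p), |Φ q| ≤ C * ‖q.1 - q.2‖ ^ k) :
    ∃ C' : ℝ, ∀ᶠ q : E × E in 𝓝 (p, p), |Φ q| ≤ C' * ‖q.1 - q.2‖ ^ (k + 1) := by
  obtain ⟨r₀, K, hr₀, hK, hb⟩ := og_bound (k + 1) hΦ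
  obtain ⟨r₁, hr₁, hab⟩ := Metric.eventually_nhds_iff_ball.1 (hanti.and hC)
  set r := min r₀ r₁ with hr
  have hrpos : 0 < r := lt_min hr₀ hr₁
  refine ⟨K, ?_⟩
  filter_upwards [Metric.ball_mem_nhds (p, p) hrpos] with q hq
  set a : E × E := ((1 / 2 : ℝ) • (q.1 + q.2), (1 / 2 : ℝ) • (q.1 + q.2)) with ha
  set b : E × E := ((1 / 2 : ℝ) • (q.1 - q.2), -((1 / 2 : ℝ) • (q.1 - q.2))) with hbdef
  have hmem : ∀ t ∈ Icc (-1 : ℝ) 1, a + t • b ∈ Metric.ball (p, p) r := fun t ht => og_seg hq ht
  have hm0 : ∀ t ∈ Icc (-1 : ℝ) 1, a + t • b ∈ Metric.ball (p, p) r₀ := fun t ht =>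
    Metric.ball_subset_ball (min_le_left _ _) (hmem t ht)
  have hm1 : ∀ t ∈ Icc (-1 : ℝ) 1, a + t • b ∈ Metric.ball (p, p) r₁ := fun t ht =>
    Metric.ball_subset_ball (min_le_right _ _) (hmem t ht)
  have hsub : Icc (0 : ℝ) 1 ⊆ Icc (-1) 1 := Icc_subset_Icc (by norm_num) le_rfl
  set ψ : ℝ → ℝ := fun s => Φ (a + s • b) with hψ
  have hodd : ∀ t ∈ Icc (-1 : ℝ) 1, ψ (-t) = -ψ t := by
    intro t ht
    have h1 := (hab _ (hm1 t ht)).1
    have h2 : (((a + t • b).2, (a + t • b).1) : E × E) = a + (-t) • b := by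
      ext
      · simp [ha, hbdef]
      · simp [ha, hbdef]
    rw [h2] at h1
    exact h1
  have hsmall : ∀ t ∈ Icc (0 : ℝ) 1, |ψ t| ≤ (C * ‖q.1 - q.2‖ ^ k) * t ^ k := by
    intro t ht
    have h1 := (hab _ (hm1 t (hsub ht))).2
    have h2 : (a + t • b).1 - (a + t • b).2 = t • (q.1 - q.2) := by
      simp only [ha, hbdef, Prod.fst_add, Prod.snd_add, Prod.smul_fst, Prod.smul_snd]
      module
    rw [h2, norm_smul, Real.norm_eq_abs, abs_of_nonneg ht.1, mul_pow] at h1
    calc |ψ t| ≤ C * (t ^ k * ‖q.1 - q.2‖ ^ k) := h1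
      _ = (C * ‖q.1 - q.2‖ ^ k) * t ^ k := by ring
  have hψd : ∀ t ∈ Icc (-1 : ℝ) 1, ContDiffAt ℝ (k + 1 : ℕ) ψ t := by
    intro t ht
    exact (hb _ (hm0 t ht)).1.comp t
      (by fun_prop : ContDiff ℝ (k + 1 : ℕ) fun s : ℝ => a + s • b).contDiffAt
  have hvan := og_van (ψ := ψ) (k := k) (fun t ht => (hψd t (hsub ht)).contDiffWithinAt) hsmall
  have hU : UniqueDiffOn ℝ (Icc (0 : ℝ) 1) := uniqueDiffOn_Icc one_pos
  have hz : ∀ j ∈ Finset.range (k + 1),
      ((j.factorial : ℝ)⁻¹) * iteratedDeriv j (fun s : ℝ => Φ (a + s • b)) 0 = 0 := by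
    intro j hj
    have hj' : j ≤ k := Nat.lt_succ_iff.1 (Finset.mem_range.1 hj)
    have h0 : iteratedDeriv j ψ 0 = 0 := by
      rcases hj'.lt_or_eq with hlt | heq
      · rw [← iteratedDerivWithin_eq_iteratedDeriv hU
          ((hψd 0 (by simp)).of_le (by exact_mod_cast (by omega))) (by simp)]
        exact hvan j hlt
      · subst heq
        have h1 : (fun x => ψ (-x)) =ᶠ[𝓝 0] fun x => -(ψ x) := by
          filter_upwards [Icc_mem_nhds (show (-1 : ℝ) < 0 by norm_num)
            (show (0 : ℝ) < 1 by norm_num)] with t ht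
          exact hodd t ht
        have h2 := h1.iteratedDeriv_eq j
        rw [iteratedDeriv_comp_neg, iteratedDeriv_fun_neg, neg_zero, hk.neg_one_pow,
          one_smul] at h2
        linarith
    have h3 : iteratedDeriv j (fun s : ℝ => Φ (a + s • b)) 0 = 0 := h0
    rw [h3, mul_zero]
  have hT := og_taylor k (W := Φ) (a := a) (b := b) (K := K)
    (fun t ht => (hb _ (hm0 t (hsub ht))).1) (fun t ht => (hb _ (hm0 t (hsub ht))).2)
  rw [Finset.sum_eq_zero hz, sub_zero] at hT
  have hab' : a + b = q := by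
    ext
    · simp only [ha, hbdef, Prod.fst_add]
      module
    · simp only [ha, hbdef, Prod.snd_add]
      module
  have hnb : ‖b‖ ≤ ‖q.1 - q.2‖ := by
    have h1 : ‖b‖ = ‖(1 / 2 : ℝ) • (q.1 - q.2)‖ := by
      rw [hbdef, Prod.norm_def]
      simp only [norm_neg, max_self]
    rw [h1, norm_smul]
    norm_num
    linarith [norm_nonneg (q.1 - q.2)]
  rw [hab'] at hT
  refine hT.trans ?_
  exact mul_le_mul_of_nonneg_left (pow_le_pow_left₀ (norm_nonneg _) hnb _) hK

end Pool.Agent.Lib.MP_df705a_gt.Perm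
end
end

section

/-!
# TASK A4: a uniform lower bound for the mass of small balls
-/

open scoped ContDiff Topology
open Set Filter MeasureTheory

noncomputable section

namespace Pool.Agent.Lib.MP_df705a_gt.Perm

theorem mass_nhds {M : Type*} [TopologicalSpace M] [CompactSpace M]
    (rho : M → M → ℝ) (hcont : Continuous fun p : M × M => rho p.1 p.2)
    (hpos : ∀ x y, x ≠ y → 0 < rho x y) {U : Set M} (hU : IsOpen U) {y : M} (hy : y ∈ U) :
    ∃ d : ℝ, 0 < d ∧ {x | rho x y < d} ⊆ U := by
  have hc : Continuous fun x => rho x y := hcont.comp (by fun_prop : Continuous fun x : M => (x, y))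
  rcases (Uᶜ).eq_empty_or_nonempty with h | h
  · refine ⟨1, one_pos, fun x _ => ?_⟩
    rw [compl_empty_iff] at h
    rw [h]
    exact mem_univ x
  · obtain ⟨x₀, hx₀, hmin⟩ := (hU.isClosed_compl.isCompact).exists_isMinOn h hc.continuousOn
    refine ⟨rho x₀ y, hpos x₀ y ?_, fun x hx => ?_⟩
    · rintro rfl
      exact hx₀ hy
    · by_contra hxU
      have h1 : rho x₀ y ≤ rho x y := hmin hxU
      exact absurd h1 (not_le.2 hx)

/-- Let `M` be compact and connected, `rho` a two point function vanishing exactly on the diagonal,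
and let the nonzero measure `ν` satisfy the conclusion of the barrier estimate. Then all balls of
radius `s` have mass at least `κ' s^N`. -/
theorem mass_lower {M : Type*} [TopologicalSpace M] [CompactSpace M] [T2Space M]
    [ConnectedSpace M] [SecondCountableTopology M] [MeasurableSpace M] [BorelSpace M]
    (rho : M → M → ℝ) (hcont : Continuous fun p : M × M => rho p.1 p.2)
    (hself : ∀ x, rho x x = 0) (hpos : ∀ x y, x ≠ y → 0 < rho x y)
    (ν : Measure M) [IsFiniteMeasure ν] (hν0 : ν ≠ 0)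
    {N : ℕ} {r₀ κ : ℝ} (hr : 0 < r₀) (hκ : 0 < κ)
    (hb : ∀ (y : M) (s : ℝ), 0 < s → s ≤ 1 →
      κ * s ^ N * ν.real {x | s ≤ rho x y ∧ rho x y ≤ r₀} ≤ ν.real {x | rho x y < s}) :
    ∃ κ' : ℝ, 0 < κ' ∧ ∀ (y : M) (s : ℝ), 0 < s → s ≤ 1 →
      κ' * s ^ N ≤ ν.real {x | rho x y < s} := by
  classical
  have hc1 : ∀ y, Continuous fun x => rho x y := fun y =>
    hcont.comp (by fun_prop : Continuous fun x : M => (x, y))
  have hc2 : ∀ x, Continuous fun y => rho x y := fun x =>
    hcont.comp (by fun_prop : Continuous fun y : M => (x, y))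
  have hnn : ∀ x y, 0 ≤ rho x y := by
    intro x y
    rcases eq_or_ne x y with rfl | h
    · rw [hself]
    · exact (hpos x y h).le
  have hopen : ∀ y d, IsOpen {x | rho x y < d} := fun y d => isOpen_lt (hc1 y) continuous_const
  -- a point with a null ball has a null ball of radius `r₀`
  have hnull : ∀ y d, 0 < d → ν {x | rho x y < d} = 0 → ν {x | rho x y < r₀} = 0 := by
    intro y d hd h0
    set s : ℝ := min d 1 with hs
    have hs0 : 0 < s := lt_min hd one_pos
    have hs1 : s ≤ 1 := min_le_right _ _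
    have hsub : {x | rho x y < s} ⊆ {x | rho x y < d} := fun x hx =>
      lt_of_lt_of_le (show rho x y < s from hx) (min_le_left _ _)
    have h1 : ν {x | rho x y < s} = 0 := measure_mono_null hsub h0
    have h2 := hb y s hs0 hs1
    have h3 : ν.real {x | rho x y < s} = 0 := by
      rw [measureReal_def, h1, ENNReal.toReal_zero]
    rw [h3] at h2
    have h4 : ν.real {x | s ≤ rho x y ∧ rho x y ≤ r₀} = 0 := by
      have h5 : 0 < κ * s ^ N := by positivity
      have h6 : 0 ≤ ν.real {x | s ≤ rho x y ∧ rho x y ≤ r₀} := measureReal_nonneg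
      nlinarith
    have h5 : ν {x | s ≤ rho x y ∧ rho x y ≤ r₀} = 0 := by
      rw [measureReal_def, ENNReal.toReal_eq_zero_iff] at h4
      exact h4.resolve_right (measure_ne_top _ _)
    refine measure_mono_null (t := {x | rho x y < s} ∪ {x | s ≤ rho x y ∧ rho x y ≤ r₀}) ?_
      (measure_union_null h1 h5)
    intro x hx
    rcases lt_or_ge (rho x y) s with h | h
    · exact Or.inl h
    · exact Or.inr ⟨h, (show rho x y < r₀ from hx).le⟩
  -- the support
  set S : Set M := {y | ∀ d : ℝ, 0 < d → 0 < ν {x | rho x y < d}} with hS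
  have hScl : IsClosed S := by
    rw [← isOpen_compl_iff, isOpen_iff_forall_mem_open]
    intro y hy
    simp only [hS, mem_compl_iff, mem_ofPred_eq, not_forall, not_lt, nonpos_iff_eq_zero] at hy
    obtain ⟨d, hd, h0⟩ := hy
    refine ⟨{x | rho x y < d}, ?_, hopen y d, ?_⟩
    · intro y' hy' hyS
      obtain ⟨d', hd', hsub⟩ := mass_nhds rho hcont hpos (hopen y d) hy'
      exact (hyS d' hd').ne' (measure_mono_null hsub h0)
    · show rho y y < d
      rw [hself]
      exact hd
  have hSop : IsOpen S := by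
    rw [isOpen_iff_forall_mem_open]
    intro y hy
    refine ⟨{y' | rho y y' < r₀}, ?_, isOpen_lt (hc2 y) continuous_const, ?_⟩
    · intro y' hy' d hd
      rw [pos_iff_ne_zero]
      intro h0
      have h1 := hnull y' d hd h0
      obtain ⟨d', hd', hsub⟩ := mass_nhds rho hcont hpos (hopen y' r₀)
        (show y ∈ {x | rho x y' < r₀} from hy')
      exact (hy d' hd').ne' (measure_mono_null hsub h1)
    · show rho y y < r₀
      rw [hself]
      exact hr
  have hSne : S.Nonempty := by
    by_contra hemp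
    rw [not_nonempty_iff_eq_empty] at hemp
    apply hν0
    rw [← Measure.measure_univ_eq_zero]
    refine measure_null_of_locally_null _ fun y _ => ?_
    have hy : y ∉ S := by rw [hemp]; exact notMem_empty y
    simp only [hS, mem_ofPred_eq, not_forall, not_lt, nonpos_iff_eq_zero] at hy
    obtain ⟨d, hd, h0⟩ := hy
    refine ⟨{x | rho x y < d}, mem_nhdsWithin_of_mem_nhds ((hopen y d).mem_nhds ?_), h0⟩
    show rho y y < d
    rw [hself]
    exact hd
  have hSuniv : S = univ := IsClopen.eq_univ ⟨hScl, hSop⟩ hSne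
  -- uniform bound for the balls of radius `r₀ / 2`
  set ψ : ℝ → ℝ := fun t => max 0 (1 - t / (r₀ / 2)) with hψ
  have hψc : Continuous ψ := by
    rw [hψ]
    fun_prop
  have hψ0 : ∀ t, 0 ≤ ψ t := fun t => le_max_left _ _
  have hψ1 : ∀ t, 0 ≤ t → ψ t ≤ 1 := fun t ht =>
    max_le zero_le_one (by have : 0 ≤ t / (r₀ / 2) := by positivity
                           linarith)
  have hint : ∀ y, Integrable (fun x => ψ (rho x y)) ν := by
    intro y
    refine Integrable.of_bound (hψc.comp (hc1 y)).aestronglyMeasurable 1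
      (Eventually.of_forall fun x => ?_)
    rw [Real.norm_of_nonneg (hψ0 _)]
    exact hψ1 _ (hnn x y)
  have hcont' : Continuous fun y => ∫ x, ψ (rho x y) ∂ν := by
    refine continuous_of_dominated (bound := fun _ => 1) (fun y => (hint y).aestronglyMeasurable)
      (fun y => Eventually.of_forall fun x => ?_) (integrable_const _)
      (Eventually.of_forall fun x => hψc.comp (hc2 x))
    rw [Real.norm_of_nonneg (hψ0 _)]
    exact hψ1 _ (hnn x y)
  have hposi : ∀ y, 0 < ∫ x, ψ (rho x y) ∂ν := by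
    intro y
    rw [integral_pos_iff_support_of_nonneg (fun x => hψ0 _) (hint y)]
    have hy : y ∈ S := by rw [hSuniv]; exact mem_univ y
    refine lt_of_lt_of_le (hy (r₀ / 2) (by positivity)) (measure_mono fun x hx => ?_)
    rw [Function.mem_support]
    have h1 : rho x y / (r₀ / 2) < 1 := by
      rw [div_lt_one (by positivity)]
      exact hx
    have h2 : 0 < ψ (rho x y) := lt_max_of_lt_right (by linarith)
    exact h2.ne'
  obtain ⟨y₀, -, hy₀⟩ := isCompact_univ.exists_isMinOn (univ_nonempty (α := M)) hcont'.continuousOn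
  set m : ℝ := ∫ x, ψ (rho x y₀) ∂ν with hm
  have hm0 : 0 < m := hposi y₀
  have hle : ∀ y, m ≤ ν.real {x | rho x y < r₀ / 2} := by
    intro y
    refine le_trans (hy₀ (mem_univ y)) ?_
    have h1 : ∫ x, ψ (rho x y) ∂ν ≤ ∫ x, indicator {x | rho x y < r₀ / 2} (fun _ => (1 : ℝ)) x ∂ν := by
      refine integral_mono (hint y) ?_ fun x => ?_
      · exact (integrable_const (1 : ℝ)).indicator (hopen y _).measurableSet
      · by_cases hx : x ∈ {x | rho x y < r₀ / 2}
        · rw [indicator_of_mem hx]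
          exact hψ1 _ (hnn x y)
        · rw [indicator_of_notMem hx]
          have h2 : r₀ / 2 ≤ rho x y := not_lt.1 hx
          have h3 : 1 ≤ rho x y / (r₀ / 2) := by
            rw [one_le_div (by positivity)]
            exact h2
          exact max_le le_rfl (by linarith)
    refine h1.trans (le_of_eq ?_)
    rw [integral_indicator_const _ (hopen y _).measurableSet, smul_eq_mul, mul_one]
  refine ⟨min (m / 2) (κ * (m / 2)), lt_min (by positivity) (by positivity),
    fun y s hs hs1 => ?_⟩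
  have ht0 : 0 ≤ s ^ N := by positivity
  have ht1 : s ^ N ≤ 1 := pow_le_one₀ hs.le hs1
  have hsum : m ≤ ν.real {x | rho x y < s} + ν.real {x | s ≤ rho x y ∧ rho x y ≤ r₀} := by
    refine (hle y).trans (le_trans (measureReal_mono ?_ (measure_ne_top _ _))
      (measureReal_union_le _ _))
    intro x hx
    have hx' : rho x y < r₀ / 2 := hx
    rcases lt_or_ge (rho x y) s with h | h
    · exact Or.inl h
    · exact Or.inr ⟨h, by linarith⟩
  have hbs := hb y s hs hs1
  set a := ν.real {x | rho x y < s}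
  set b := ν.real {x | s ≤ rho x y ∧ rho x y ≤ r₀}
  rcases le_or_gt (m / 2) b with h | h
  · calc min (m / 2) (κ * (m / 2)) * s ^ N ≤ κ * (m / 2) * s ^ N := by
          gcongr
          exact min_le_right _ _
      _ = κ * s ^ N * (m / 2) := by ring
      _ ≤ κ * s ^ N * b := by gcongr
      _ ≤ a := hbs
  · have h1 : m / 2 ≤ a := by linarith
    calc min (m / 2) (κ * (m / 2)) * s ^ N ≤ m / 2 * 1 := by
          gcongr
          exact min_le_left _ _
      _ ≤ a := by linarith

end Pool.Agent.Lib.MP_df705a_gt.Perm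
end
end

section

/-!
# The choice of levels
-/

open scoped Topology ENNReal
open Set MeasureTheory Function

noncomputable section

namespace Pool.Agent.Lib.MP_df705a_gt.Pin

/-- One step of the choice of the levels (Markov inequality). -/
theorem S4_radius {α : Type*} (S : Finset α) {N : ℕ} (hS : S.card ≤ N) (g : α → ℝ → ℝ≥0∞)
    (hg : ∀ a ∈ S, Measurable (g a)) :
    ∃ r : ℝ, 1 / 4 ≤ r ∧ r ≤ 3 / 4 ∧ ∀ a ∈ S, g a r ≤ (2 * N + 1 : ℝ≥0∞) * ∫⁻ x, g a x := by
  by_contra hcon
  push Not at hcon
  set l : ℝ≥0∞ := 2 * N + 1 with hl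
  have hl0 : l ≠ 0 := by simp [hl]
  have hlt : l ≠ ⊤ := by
    rw [hl]
    exact ENNReal.add_ne_top.2 ⟨ENNReal.mul_ne_top (by simp) (ENNReal.natCast_ne_top N), by simp⟩
  have hbad : ∀ a ∈ S, l * volume {r | l * ∫⁻ x, g a x < g a r} ≤ 1 := by
    intro a ha
    set I := ∫⁻ x, g a x with hI
    by_cases hI0 : I = 0
    · have h1 : g a =ᵐ[volume] 0 := (lintegral_eq_zero_iff (hg a ha)).1 hI0
      have h2 : volume {r | l * I < g a r} = 0 := by
        rw [hI0, mul_zero]
        have h3 := ae_iff.1 h1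
        refine measure_mono_null ?_ h3
        intro r hr
        exact (ne_of_gt hr)
      rw [h2, mul_zero]; exact zero_le_one
    by_cases hIt : I = ⊤
    · have h2 : {r | l * I < g a r} = ∅ := by
        ext r
        simp [hIt, ENNReal.mul_top hl0]
      rw [h2]; simp
    have h3 := mul_meas_ge_le_lintegral (μ := volume) (hg a ha) (l * I)
    rw [← hI] at h3
    have h4 : volume {r | l * I < g a r} ≤ volume {r | l * I ≤ g a r} :=
      measure_mono fun r (hr : l * I < g a r) => (le_of_lt hr : l * I ≤ g a r)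
    have h5 : l * I * volume {r | l * I < g a r} ≤ I := (mul_le_mul_right h4 _).trans h3
    have h6 : I * (l * volume {r | l * I < g a r}) ≤ I * 1 := by
      rw [mul_one]
      calc I * (l * volume {r | l * I < g a r}) = l * I * volume {r | l * I < g a r} := by ring
        _ ≤ I := h5
    exact (ENNReal.mul_le_mul_iff_right hI0 hIt).1 h6
  have hcov : Icc (1 / 4 : ℝ) (3 / 4) ⊆ ⋃ a ∈ S, {r | l * ∫⁻ x, g a x < g a r} := by
    intro r hr
    obtain ⟨a, ha, h⟩ := hcon r hr.1 hr.2
    exact mem_iUnion₂.2 ⟨a, ha, h⟩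
  have h1 : volume (Icc (1 / 4 : ℝ) (3 / 4)) ≤ ∑ a ∈ S, volume {r | l * ∫⁻ x, g a x < g a r} :=
    (measure_mono hcov).trans (measure_biUnion_finset_le _ _)
  rw [Real.volume_Icc] at h1
  have h2 : l * ENNReal.ofReal (3 / 4 - 1 / 4) ≤ N := by
    calc l * ENNReal.ofReal (3 / 4 - 1 / 4)
        ≤ l * ∑ a ∈ S, volume {r | l * ∫⁻ x, g a x < g a r} := mul_le_mul_right h1 _
      _ = ∑ a ∈ S, l * volume {r | l * ∫⁻ x, g a x < g a r} := Finset.mul_sum _ _ _
      _ ≤ ∑ a ∈ S, 1 := Finset.sum_le_sum hbad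
      _ = (S.card : ℝ≥0∞) := by simp
      _ ≤ N := by exact_mod_cast hS
  have h3 : l = ENNReal.ofReal (2 * N + 1) := by
    rw [hl, ENNReal.ofReal_add (by positivity) (by positivity), ENNReal.ofReal_mul (by positivity)]
    simp
  rw [h3, ← ENNReal.ofReal_mul (by positivity), ← ENNReal.ofReal_natCast,
    ENNReal.ofReal_le_ofReal_iff (by positivity)] at h2
  linarith

/-- The measure of the slice: the coordinates `j` with `k ≤ e (I j)` are free, the others have the
values `t (I j)`. -/
def slc {ι : Type*} {n : ℕ} (e : ι → ℕ) (B : Set (Fin n → ℝ)) (I : Fin n → ι) (k : ℕ)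
    (t : ι → ℝ) : ℝ≥0∞ :=
  (∫⋯∫⁻_(Finset.univ.filter fun j => k ≤ e (I j)), (B.indicator fun _ => (1 : ℝ≥0∞))
    ∂(fun _ : Fin n => (volume : Measure ℝ))) (fun j => t (I j))

variable {ι : Type*} {n : ℕ} {e : ι → ℕ}

theorem slc_zero (B : Set (Fin n → ℝ)) (hB : MeasurableSet B) (I : Fin n → ι) (t : ι → ℝ) :
    slc e B I 0 t = volume B := by
  unfold slc
  have h1 : (Finset.univ.filter fun j => 0 ≤ e (I j)) = Finset.univ := by simp
  rw [h1, lmarginal_univ]
  rw [lintegral_indicator_const hB, one_mul]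
  rfl

theorem slc_top (B : Set (Fin n → ℝ)) (I : Fin n → ι) (k : ℕ) (t : ι → ℝ)
    (hk : ∀ j, e (I j) < k) :
    slc e B I k t = (B.indicator fun _ => (1 : ℝ≥0∞)) (fun j => t (I j)) := by
  unfold slc
  have h1 : (Finset.univ.filter fun j => k ≤ e (I j)) = ∅ := by
    ext j; simp [hk j]
  rw [h1, lmarginal_empty]

theorem slc_congr (B : Set (Fin n → ℝ)) (I : Fin n → ι) (k : ℕ) {t t' : ι → ℝ}
    (h : ∀ i, e i < k → t i = t' i) : slc e B I k t = slc e B I k t' := by
  unfold slc
  refine lmarginal_congr (fun _ : Fin n => (volume : Measure ℝ)) _ (fun j hj => ?_)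
  exact h _ (by simpa using hj)

theorem slc_succ_of_ne (B : Set (Fin n → ℝ)) (I : Fin n → ι) (k : ℕ) (t : ι → ℝ)
    (h : ∀ j, e (I j) ≠ k) : slc e B I (k + 1) t = slc e B I k t := by
  unfold slc
  have h1 : (Finset.univ.filter fun j => k + 1 ≤ e (I j)) =
      (Finset.univ.filter fun j => k ≤ e (I j)) := by
    ext j
    have := h j
    simp only [Finset.mem_filter, Finset.mem_univ, true_and]
    omega
  rw [h1]

open Classical in
theorem comp_update_of_ne (I : Fin n → ι) (t : ι → ℝ) (p : ι) (r : ℝ) (h : ∀ j, I j ≠ p) :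
    (fun j => update t p r (I j)) = fun j => t (I j) := by
  funext j
  rw [update_of_ne (h j)]

open Classical in
theorem comp_update {I : Fin n → ι} (hI : Injective I) (t : ι → ℝ) (j₀ : Fin n) (r : ℝ) :
    (fun j => update t (I j₀) r (I j)) = update (fun j => t (I j)) j₀ r := by
  funext j
  by_cases h : j = j₀
  · subst h; simp
  · rw [update_of_ne h, update_of_ne (fun h' => h (hI h'))]

open Classical in
theorem slc_int (he : Injective e) {B : Set (Fin n → ℝ)} (hB : MeasurableSet B) {I : Fin n → ι}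
    (hI : Injective I) (t : ι → ℝ) (j₀ : Fin n) :
    slc e B I (e (I j₀)) t = ∫⁻ r : ℝ, slc e B I (e (I j₀) + 1) (update t (I j₀) r) := by
  unfold slc
  have h1 : (Finset.univ.filter fun j => e (I j₀) ≤ e (I j)) =
      insert j₀ (Finset.univ.filter fun j => e (I j₀) + 1 ≤ e (I j)) := by
    ext j
    simp only [Finset.mem_filter, Finset.mem_univ, true_and, Finset.mem_insert]
    constructor
    · intro h
      by_cases h2 : e (I j₀) = e (I j)
      · exact Or.inl (hI (he h2)).symm
      · exact Or.inr (by omega)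
    · rintro (rfl | h)
      · exact le_rfl
      · omega
  rw [h1, lmarginal_insert _ (measurable_const.indicator hB) (by simp)]
  refine lintegral_congr fun r => ?_
  rw [comp_update hI]

open Classical in
theorem measurable_slc {B : Set (Fin n → ℝ)} (hB : MeasurableSet B) (I : Fin n → ι) (k : ℕ)
    (t : ι → ℝ) (p : ι) : Measurable fun r : ℝ => slc e B I k (update t p r) := by
  unfold slc
  have h1 : Measurable (∫⋯∫⁻_(Finset.univ.filter fun j => k ≤ e (I j)),
      (B.indicator fun _ => (1 : ℝ≥0∞)) ∂(fun _ : Fin n => (volume : Measure ℝ))) :=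
    (measurable_const.indicator hB).lmarginal _
  refine h1.comp ?_
  rw [measurable_pi_iff]
  intro j
  by_cases h : I j = p
  · subst h
    simp only [update_self]
    exact measurable_id
  · simp only [update_of_ne h]
    exact measurable_const

/-- (S4) the choice of levels. -/
theorem S4_levels {ι : Type*} [Countable ι] {n N : ℕ} {c : ℝ} (hc : 0 ≤ c)
    (hNc : (2 * (N : ℝ) + 1) ^ n * c < 1) (𝒯 : Set (Fin n → ι))
    (hinj : ∀ I ∈ 𝒯, Function.Injective I) (hcount : ∀ i, {I ∈ 𝒯 | ∃ j, I j = i}.encard ≤ N)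
    (B : (Fin n → ι) → Set (Fin n → ℝ)) (hB : ∀ I ∈ 𝒯, MeasurableSet (B I))
    (hvol : ∀ I ∈ 𝒯, volume (B I) ≤ ENNReal.ofReal c) :
    ∃ t : ι → ℝ, (∀ i, 1 / 4 ≤ t i ∧ t i ≤ 3 / 4) ∧ ∀ I ∈ 𝒯, (fun j => t (I j)) ∉ B I := by
  classical
  obtain ⟨e, he⟩ := exists_injective_nat ι
  set l : ℝ≥0∞ := 2 * N + 1 with hl
  have hl1 : 1 ≤ l := by rw [hl]; exact le_add_self
  -- one step
  have hstep : ∀ (t : ι → ℝ) (p : ι), ∃ r : ℝ, 1 / 4 ≤ r ∧ r ≤ 3 / 4 ∧
      ∀ I ∈ 𝒯, (∃ j, I j = p) →
        slc e (B I) I (e p + 1) (update t p r) ≤ l * slc e (B I) I (e p) t := by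
    intro t p
    have hfin : {I ∈ 𝒯 | ∃ j, I j = p}.Finite :=
      finite_of_encard_le_coe (hcount p)
    have hcard : hfin.toFinset.card ≤ N := by
      have h1 := hcount p
      rw [hfin.encard_eq_coe_toFinset_card] at h1
      exact_mod_cast h1
    obtain ⟨r, h1, h2, h3⟩ := S4_radius hfin.toFinset hcard
      (fun I r => slc e (B I) I (e p + 1) (update t p r)) (fun I hI => by
        have hI' : I ∈ {I ∈ 𝒯 | ∃ j, I j = p} := by simpa using hI
        exact measurable_slc (hB I hI'.1) I _ t p)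
    refine ⟨r, h1, h2, fun I hI hj => ?_⟩
    have h4 := h3 I (by simpa using ⟨hI, hj⟩)
    obtain ⟨j₀, rfl⟩ := hj
    rw [slc_int he (hB I hI) (hinj I hI) t j₀]
    exact h4
  choose r hr1 hr2 hr3 using hstep
  -- the recursion
  let nxt : ℕ → (ι → ℝ) → (ι → ℝ) := fun k t =>
    if h : ∃ p, e p = k then update t h.choose (r t h.choose) else t
  let T : ℕ → (ι → ℝ) := fun k => Nat.rec (fun _ => 1 / 2) (fun k t => nxt k t) k
  have hT0 : T 0 = fun _ => 1 / 2 := rfl
  have hTs : ∀ k, T (k + 1) = nxt k (T k) := fun k => rfl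
  have hTp : ∀ p, T (e p + 1) = update (T (e p)) p (r (T (e p)) p) := by
    intro p
    rw [hTs]
    have h : ∃ q, e q = e p := ⟨p, rfl⟩
    have h1 : h.choose = p := he h.choose_spec
    change (if h : ∃ q, e q = e p then update (T (e p)) h.choose (r (T (e p)) h.choose)
      else T (e p)) = _
    rw [dif_pos h, h1]
  have hTn : ∀ k, (¬ ∃ p, e p = k) → T (k + 1) = T k := by
    intro k hk
    rw [hTs]
    change (if h : ∃ q, e q = k then update (T k) h.choose (r (T k) h.choose)
      else T k) = _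
    rw [dif_neg hk]
  have hrange : ∀ k i, 1 / 4 ≤ T k i ∧ T k i ≤ 3 / 4 := by
    intro k
    induction k with
    | zero => intro i; rw [hT0]; norm_num
    | succ k ih =>
      intro i
      by_cases hk : ∃ p, e p = k
      · obtain ⟨p, rfl⟩ := hk
        rw [hTp]
        by_cases hip : i = p
        · subst hip
          rw [update_self]
          exact ⟨hr1 _ _, hr2 _ _⟩
        · rw [update_of_ne hip]
          exact ih i
      · rw [hTn k hk]; exact ih i
  have hstab : ∀ i k, e i + 1 ≤ k → T k i = T (e i + 1) i := by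
    intro i k hk
    induction k, hk using Nat.le_induction with
    | base => rfl
    | succ k hk ih =>
      by_cases hk' : ∃ p, e p = k
      · obtain ⟨p, rfl⟩ := hk'
        rw [hTp, update_of_ne (fun h => by subst h; omega)]
        exact ih
      · rw [hTn k hk']; exact ih
  have hbound : ∀ k, ∀ I ∈ 𝒯, slc e (B I) I k (T k) ≤
      l ^ (Finset.univ.filter fun j => e (I j) < k).card * ENNReal.ofReal c := by
    intro k
    induction k with
    | zero =>
      intro I hI
      rw [slc_zero _ (hB I hI)]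
      simpa using hvol I hI
    | succ k ih =>
      intro I hI
      by_cases hk : ∃ j, e (I j) = k
      · obtain ⟨j₀, rfl⟩ := hk
        have h1 : (Finset.univ.filter fun j => e (I j) < e (I j₀) + 1) =
            insert j₀ (Finset.univ.filter fun j => e (I j) < e (I j₀)) := by
          ext j
          simp only [Finset.mem_filter, Finset.mem_univ, true_and, Finset.mem_insert]
          constructor
          · intro h
            by_cases h2 : e (I j) = e (I j₀)
            · exact Or.inl (hinj I hI (he h2))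
            · exact Or.inr (by omega)
          · rintro (rfl | h)
            · omega
            · omega
        rw [h1, Finset.card_insert_of_notMem (by simp), pow_succ, hTp]
        refine (hr3 (T (e (I j₀))) (I j₀) I hI ⟨j₀, rfl⟩).trans ?_
        have h2 := ih I hI
        calc l * slc e (B I) I (e (I j₀)) (T (e (I j₀)))
            ≤ l * (l ^ (Finset.univ.filter fun j => e (I j) < e (I j₀)).card *
              ENNReal.ofReal c) := mul_le_mul_right h2 _
          _ = _ := by ring
      · push Not at hk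
        have h1 : (Finset.univ.filter fun j => e (I j) < k + 1) =
            (Finset.univ.filter fun j => e (I j) < k) := by
          ext j
          have := hk j
          simp only [Finset.mem_filter, Finset.mem_univ, true_and]
          omega
        rw [h1, slc_succ_of_ne _ _ _ _ hk]
        have h2 : slc e (B I) I k (T (k + 1)) = slc e (B I) I k (T k) := by
          refine slc_congr _ _ _ fun i hi => ?_
          rw [hstab i k (by omega), hstab i (k + 1) (by omega)]
        rw [h2]
        exact ih I hI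
  refine ⟨fun i => T (e i + 1) i, fun i => hrange (e i + 1) i, fun I hI hmem => ?_⟩
  set K := (Finset.univ.sup fun j => e (I j)) + 1 with hK
  have hK' : ∀ j, e (I j) < K := fun j => by
    have h0 : e (I j) ≤ Finset.univ.sup fun j => e (I j) :=
      Finset.le_sup (f := fun j => e (I j)) (Finset.mem_univ j)
    omega
  have h1 := hbound K I hI
  rw [slc_top _ _ _ _ hK'] at h1
  have h2 : (fun j => T K (I j)) = fun j => T (e (I j) + 1) (I j) := by
    funext j
    exact hstab _ _ (hK' j)
  rw [h2, indicator_of_mem hmem] at h1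
  have h3 : l ^ (Finset.univ.filter fun j => e (I j) < K).card ≤ l ^ n := by
    refine pow_le_pow_right₀ hl1 ?_
    calc (Finset.univ.filter fun j => e (I j) < K).card ≤ (Finset.univ : Finset (Fin n)).card :=
          Finset.card_filter_le _ _
      _ = n := by simp
  have h4 : (1 : ℝ≥0∞) ≤ l ^ n * ENNReal.ofReal c := h1.trans (mul_le_mul_left h3 _)
  have h5 : l = ENNReal.ofReal (2 * N + 1) := by
    rw [hl, ENNReal.ofReal_add (by positivity) (by positivity), ENNReal.ofReal_mul (by positivity)]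
    simp
  rw [h5, ← ENNReal.ofReal_pow (by positivity), ← ENNReal.ofReal_mul (by positivity),
    ← ENNReal.ofReal_one, ENNReal.ofReal_le_ofReal_iff (by positivity)] at h4
  linarith

end Pool.Agent.Lib.MP_df705a_gt.Pin
end
end

section

/-!
# There is no retraction of a closed ball onto its boundary sphere

A self-contained proof by the determinant trick: if `r` is a smooth retraction and
`f t = id + t (r - id)`, then `∫ det (D f t)` is polynomial in `t` and constant for small `t`.
-/

set_option autoImplicit false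

open MeasureTheory Metric Set Topology

noncomputable section

namespace Pool.Agent.Lib.MP_df705a_gt

variable {E : Type*} [NormedAddCommGroup E] [InnerProductSpace ℝ E] [FiniteDimensional ℝ E]

/-- Interpolation weights: the value at `1` of a real polynomial of degree `< m` is a fixed
linear combination of the values at `m` nodes, and the weights sum to `1`. -/
theorem exists_weights (m : ℕ) (hm : 0 < m) (v : Fin m → ℝ) (hv : Function.Injective v) :
    ∃ α : Fin m → ℝ, (∑ i, α i = 1) ∧
      ∀ f : Polynomial ℝ, f.degree < m → f.eval 1 = ∑ i, α i * f.eval (v i) := by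
  classical
  refine ⟨fun i => (Lagrange.basis Finset.univ v i).eval 1, ?_, ?_⟩
  · have h := Lagrange.sum_basis (s := (Finset.univ : Finset (Fin m))) (v := v)
      (hv.injOn) ⟨⟨0, hm⟩, Finset.mem_univ _⟩
    have h2 := congrArg (Polynomial.eval 1) h
    rw [Polynomial.eval_finsetSum] at h2
    simpa using h2
  · intro f hf
    have h := Lagrange.eq_interpolate (s := (Finset.univ : Finset (Fin m))) (v := v) (f := f)
      (hv.injOn) (by simpa using hf)
    conv_lhs => rw [h]
    rw [Lagrange.interpolate_apply, Polynomial.eval_finsetSum]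
    refine Finset.sum_congr rfl fun i _ => ?_
    rw [Polynomial.eval_mul, Polynomial.eval_C, mul_comm]

/-- `t ↦ det (1 + t A)` is given by a polynomial of degree at most the dimension. -/
theorem exists_poly_det (A : E →L[ℝ] E) :
    ∃ f : Polynomial ℝ, f.degree < (Module.finrank ℝ E + 1 : ℕ) ∧
      ∀ t : ℝ, f.eval t = (ContinuousLinearMap.id ℝ E + t • A).det := by
  classical
  let b := Module.finBasis ℝ E
  let M := LinearMap.toMatrix b b (A : E →ₗ[ℝ] E)
  refine ⟨((Polynomial.X : Polynomial ℝ) • M.map ⇑Polynomial.C +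
      (1 : Matrix _ _ ℝ).map ⇑Polynomial.C).det, ?_, ?_⟩
  · have h := Polynomial.natDegree_det_X_add_C_le M (1 : Matrix _ _ ℝ)
    rw [Fintype.card_fin] at h
    refine lt_of_le_of_lt Polynomial.degree_le_natDegree ?_
    exact_mod_cast Nat.lt_succ_of_le h
  · intro t
    have h1 : Polynomial.eval t ((((Polynomial.X : Polynomial ℝ) • M.map ⇑Polynomial.C +
      (1 : Matrix _ _ ℝ).map ⇑Polynomial.C)).det) = (t • M + 1).det := by
      rw [← Polynomial.coe_evalRingHom, RingHom.map_det]
      congr 1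
      ext i j
      simp [Matrix.one_apply]
      split_ifs <;> simp [mul_comm]
    rw [h1]
    have h2 : (ContinuousLinearMap.id ℝ E + t • A).det
        = LinearMap.det ((ContinuousLinearMap.id ℝ E + t • A : E →L[ℝ] E) : E →ₗ[ℝ] E) := rfl
    rw [h2, ← LinearMap.det_toMatrix b]
    congr 1
    simp only [ContinuousLinearMap.toLinearMap_add, ContinuousLinearMap.toLinearMap_smul,
      ContinuousLinearMap.coe_id, map_add, map_smul, LinearMap.toMatrix_id]
    rw [add_comm]

/-- No smooth map `r` of norm one which is the identity on the unit sphere. -/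
theorem no_smooth_retraction [Nontrivial E] (r : E → E) (hr : ContDiff ℝ 1 r)
    (hnorm : ∀ x, ‖r x‖ = 1) (hid : ∀ x, ‖x‖ = 1 → r x = x) : False := by
  classical
  borelize E
  let μ : Measure E := MeasureTheory.Measure.addHaar
  let g : E → E := fun x => r x - x
  have hg : ContDiff ℝ 1 g := hr.sub contDiff_id
  have hgd : Differentiable ℝ g := hg.differentiable one_ne_zero
  have hgc : Continuous (fderiv ℝ g) := hg.continuous_fderiv one_ne_zero
  -- bound of the derivative on the closed unit ball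
  obtain ⟨L, hL⟩ : ∃ L : ℝ, ∀ x ∈ closedBall (0 : E) 1, ‖fderiv ℝ g x‖ ≤ L := by
    obtain ⟨L, hL⟩ := (isCompact_closedBall (0 : E) 1).bddAbove_image
      (f := fun x => ‖fderiv ℝ g x‖) hgc.norm.continuousOn
    exact ⟨L, fun x hx => hL ⟨x, hx, rfl⟩⟩
  have hL0 : 0 ≤ L := le_trans (norm_nonneg _) (hL 0 (by simp))
  -- the extension by zero
  let G : E → E := fun x => if ‖x‖ ≤ 1 then g x else 0
  have hG_in : ∀ x, ‖x‖ ≤ 1 → G x = g x := fun x hx => if_pos hx
  have hG_out : ∀ x, 1 ≤ ‖x‖ → G x = 0 := by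
    intro x hx
    by_cases h : ‖x‖ ≤ 1
    · rw [hG_in x h]
      have h1 : ‖x‖ = 1 := le_antisymm h hx
      simp [g, hid x h1]
    · exact if_neg h
  have hlip_in : ∀ x y, ‖x‖ ≤ 1 → ‖y‖ ≤ 1 → ‖g x - g y‖ ≤ L * ‖x - y‖ := by
    intro x y hx hy
    have := (convex_closedBall (0 : E) 1).norm_image_sub_le_of_norm_fderiv_le (𝕜 := ℝ)
      (f := g) (C := L) (fun z _ => hgd z) (fun z hz => hL z hz)
      (x := y) (y := x) (by simpa using hy) (by simpa using hx)
    exact this
  have hlip_mixed : ∀ x y, ‖x‖ ≤ 1 → 1 < ‖y‖ → ‖G x - G y‖ ≤ L * ‖x - y‖ := by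
    intro x y hx hy
    -- a point of norm one on the segment
    have hc : ContinuousOn (fun s : ℝ => ‖AffineMap.lineMap x y s‖) (Icc 0 1) := by
      apply Continuous.continuousOn
      exact (AffineMap.lineMap_continuous).norm
    have h1 : (1 : ℝ) ∈ Icc (‖AffineMap.lineMap x y (0 : ℝ)‖) (‖AffineMap.lineMap x y (1 : ℝ)‖) := by
      simp [hx, hy.le]
    obtain ⟨s, hs, hs1⟩ := intermediate_value_Icc (zero_le_one) hc h1
    set z := AffineMap.lineMap x y s with hz
    have hz1 : ‖z‖ = 1 := hs1
    have hGz : G z = 0 := hG_out z hz1.ge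
    have hGy : G y = 0 := hG_out y hy.le
    have h2 : ‖G x - G y‖ = ‖g x - g z‖ := by
      rw [hGy, ← hGz, hG_in x hx, hG_in z hz1.le]
    rw [h2]
    refine (hlip_in x z hx hz1.le).trans ?_
    apply mul_le_mul_of_nonneg_left _ hL0
    have h3 : x - z = s • (x - y) := by
      rw [hz, AffineMap.lineMap_apply]
      simp only [vsub_eq_sub, vadd_eq_add]
      rw [smul_sub, smul_sub]
      abel
    rw [h3, norm_smul, Real.norm_of_nonneg hs.1]
    exact mul_le_of_le_one_left (norm_nonneg _) hs.2
  have hlip : ∀ x y, ‖G x - G y‖ ≤ L * ‖x - y‖ := by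
    intro x y
    by_cases hx : ‖x‖ ≤ 1
    · by_cases hy : ‖y‖ ≤ 1
      · rw [hG_in x hx, hG_in y hy]; exact hlip_in x y hx hy
      · exact hlip_mixed x y hx (not_le.mp hy)
    · by_cases hy : ‖y‖ ≤ 1
      · rw [norm_sub_rev, norm_sub_rev x y]
        exact hlip_mixed y x hy (not_le.mp hx)
      · rw [hG_out x (not_le.mp hx).le, hG_out y (not_le.mp hy).le]
        simp only [sub_self, norm_zero]
        positivity
  -- volume of the open ball
  have hvol_pos : 0 < μ.real (ball (0 : E) 1) := by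
    rw [Measure.real, ENNReal.toReal_pos_iff]
    exact ⟨isOpen_ball.measure_pos μ ⟨0, by simp⟩, measure_ball_lt_top⟩
  -- small `t`
  have key : ∀ t : ℝ, 0 ≤ t → t * (L + 1) < 1 →
      ∫ x in ball (0 : E) 1, (ContinuousLinearMap.id ℝ E + t • fderiv ℝ g x).det ∂μ
        = μ.real (ball (0 : E) 1) := by
    intro t ht htL
    let F : E → E := fun x => x + t • G x
    have htL' : t * L < 1 := by nlinarith
    have hF_inj : Function.Injective F := by
      intro x y hxy
      have h1 : x - y = - (t • (G x - G y)) := by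
        have h : x + t • G x = y + t • G y := hxy
        rw [smul_sub]
        have : x - y = t • G y - t • G x := by
          rw [sub_eq_sub_iff_add_eq_add]
          rw [h]; abel
        rw [this]; abel
      have h2 : ‖x - y‖ ≤ t * L * ‖x - y‖ := by
        calc ‖x - y‖ = ‖t • (G x - G y)‖ := by rw [h1, norm_neg]
          _ = t * ‖G x - G y‖ := by rw [norm_smul, Real.norm_of_nonneg ht]
          _ ≤ t * (L * ‖x - y‖) := mul_le_mul_of_nonneg_left (hlip x y) ht
          _ = t * L * ‖x - y‖ := by ring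
      have h3 : ‖x - y‖ = 0 := by
        by_contra hne
        have : 0 < ‖x - y‖ := lt_of_le_of_ne (norm_nonneg _) (Ne.symm hne)
        nlinarith
      exact sub_eq_zero.mp (norm_eq_zero.mp h3)
    have hF_surj : Function.Surjective F := by
      intro y
      let c : NNReal := ⟨t * L, by positivity⟩
      have hcontr : ContractingWith c (fun x => y - t • G x) := by
        refine ⟨?_, ?_⟩
        · rw [← NNReal.coe_lt_coe]; exact htL'
        · apply LipschitzWith.of_dist_le_mul
          intro a b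
          rw [dist_eq_norm, dist_eq_norm]
          have : (y - t • G a) - (y - t • G b) = - (t • (G a - G b)) := by
            rw [smul_sub]; abel
          rw [this, norm_neg, norm_smul, Real.norm_of_nonneg ht]
          calc t * ‖G a - G b‖ ≤ t * (L * ‖a - b‖) := mul_le_mul_of_nonneg_left (hlip a b) ht
            _ = (c : ℝ) * ‖a - b‖ := by show _ = t * L * _; ring
      refine ⟨hcontr.fixedPoint _, ?_⟩
      have h := hcontr.fixedPoint_isFixedPt
      have h2 : y - t • G (hcontr.fixedPoint _) = hcontr.fixedPoint _ := h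
      show hcontr.fixedPoint _ + t • G (hcontr.fixedPoint _) = y
      exact (sub_eq_iff_eq_add.mp h2).symm
    have hF_out : ∀ x, 1 ≤ ‖x‖ → F x = x := by
      intro x hx
      simp [F, hG_out x hx]
    have hF_image : F '' ball (0 : E) 1 = ball (0 : E) 1 := by
      apply Subset.antisymm
      · rintro _ ⟨x, hx, rfl⟩
        rw [mem_ball_zero_iff] at hx ⊢
        by_contra hcon
        have h1 := hF_out (F x) (not_lt.mp hcon)
        have h2 := hF_inj h1
        rw [h2] at hcon
        exact hcon hx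
      · intro y hy
        obtain ⟨x, rfl⟩ := hF_surj y
        refine ⟨x, ?_, rfl⟩
        rw [mem_ball_zero_iff] at hy ⊢
        by_contra hcon
        rw [hF_out x (not_lt.mp hcon)] at hy
        exact hcon hy
    have hF_deriv : ∀ x ∈ ball (0 : E) 1,
        HasFDerivWithinAt F (ContinuousLinearMap.id ℝ E + t • fderiv ℝ g x) (ball (0 : E) 1) x := by
      intro x hx
      have h1 : HasFDerivAt (fun x => x + t • g x)
          (ContinuousLinearMap.id ℝ E + t • fderiv ℝ g x) x :=
        (hasFDerivAt_id x).add ((hgd x).hasFDerivAt.const_smul t)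
      refine h1.hasFDerivWithinAt.congr ?_ ?_
      · intro y hy
        rw [mem_ball_zero_iff] at hy
        simp [F, hG_in y hy.le]
      · rw [mem_ball_zero_iff] at hx
        simp [F, hG_in x hx.le]
    have hchange := MeasureTheory.integral_image_eq_integral_abs_det_fderiv_smul μ
      measurableSet_ball hF_deriv hF_inj.injOn (fun _ => (1 : ℝ))
    rw [hF_image] at hchange
    have hconst : ∫ _x in ball (0 : E) 1, (1 : ℝ) ∂μ = μ.real (ball (0 : E) 1) := by
      simp
    rw [hconst] at hchange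
    rw [hchange]
    apply setIntegral_congr_fun measurableSet_ball
    intro x hx
    rw [mem_ball_zero_iff] at hx
    -- positivity of the determinant
    have hdet_ne : ∀ s ∈ Icc (0 : ℝ) t, (ContinuousLinearMap.id ℝ E + s • fderiv ℝ g x).det ≠ 0 := by
      intro s hs
      have hsn : ‖s • fderiv ℝ g x‖ < 1 := by
        rw [norm_smul, Real.norm_of_nonneg hs.1]
        have h1 := hL x (by simpa using hx.le)
        calc s * ‖fderiv ℝ g x‖ ≤ t * L := mul_le_mul hs.2 h1 (norm_nonneg _) ht
          _ < 1 := htL'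
      have hinj : Function.Injective (ContinuousLinearMap.id ℝ E + s • fderiv ℝ g x) := by
        rw [injective_iff_map_eq_zero]
        intro v hv
        have h2 : v = - ((s • fderiv ℝ g x) v) := by
          have : v + (s • fderiv ℝ g x) v = 0 := hv
          exact eq_neg_of_add_eq_zero_left this
        have h3 : ‖v‖ ≤ ‖s • fderiv ℝ g x‖ * ‖v‖ := by
          calc ‖v‖ = ‖(s • fderiv ℝ g x) v‖ := by conv_lhs => rw [h2, norm_neg]
            _ ≤ _ := ContinuousLinearMap.le_opNorm _ _
        by_contra hne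
        have : 0 < ‖v‖ := norm_pos_iff.mpr hne
        nlinarith
      intro h0
      have h0' : LinearMap.det ((ContinuousLinearMap.id ℝ E + s • fderiv ℝ g x : E →L[ℝ] E) :
          E →ₗ[ℝ] E) = 0 := h0
      have := LinearMap.bot_lt_ker_of_det_eq_zero h0'
      rw [LinearMap.ker_eq_bot.mpr hinj] at this
      exact lt_irrefl _ this
    have hcont : Continuous fun s : ℝ => (ContinuousLinearMap.id ℝ E + s • fderiv ℝ g x).det := by
      obtain ⟨f, -, hf⟩ := exists_poly_det (fderiv ℝ g x)
      have : (fun s : ℝ => (ContinuousLinearMap.id ℝ E + s • fderiv ℝ g x).det)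
          = fun s => f.eval s := by
        funext s; rw [hf]
      rw [this]
      exact f.continuous
    have hpos : 0 < (ContinuousLinearMap.id ℝ E + t • fderiv ℝ g x).det := by
      by_contra hcon
      push Not at hcon
      have h0 : (ContinuousLinearMap.id ℝ E + (0 : ℝ) • fderiv ℝ g x).det = 1 := by
        rw [zero_smul, add_zero]
        exact LinearMap.det_id
      have hmem : (0 : ℝ) ∈ Icc ((ContinuousLinearMap.id ℝ E + t • fderiv ℝ g x).det)
          ((ContinuousLinearMap.id ℝ E + (0 : ℝ) • fderiv ℝ g x).det) := by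
        rw [h0]; exact ⟨hcon, zero_le_one⟩
      obtain ⟨s, hs, hs0⟩ := intermediate_value_Icc' ht hcont.continuousOn hmem
      exact hdet_ne s hs hs0
    simp only [smul_eq_mul, mul_one]
    rw [abs_of_pos hpos]
  -- interpolation
  set m := Module.finrank ℝ E + 1 with hm
  let v : Fin m → ℝ := fun i => ((i : ℕ) : ℝ) / ((m : ℝ) * (L + 2))
  have hv_inj : Function.Injective v := by
    intro i j hij
    have hpos : (0 : ℝ) < (m : ℝ) * (L + 2) := by
      have : (0 : ℝ) < m := by positivity
      positivity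
    have : ((i : ℕ) : ℝ) = ((j : ℕ) : ℝ) := by
      have := congrArg (fun z => z * ((m : ℝ) * (L + 2))) hij
      simpa [v, div_mul_cancel₀ _ hpos.ne'] using this
    exact Fin.ext (by exact_mod_cast this)
  have hv_nonneg : ∀ i, 0 ≤ v i := fun i => by
    have : (0 : ℝ) < m := by positivity
    positivity
  have hv_small : ∀ i, v i * (L + 1) < 1 := by
    intro i
    have hmpos : (0 : ℝ) < m := by positivity
    have hi : ((i : ℕ) : ℝ) < m := by exact_mod_cast i.2
    show ((i : ℕ) : ℝ) / ((m : ℝ) * (L + 2)) * (L + 1) < 1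
    rw [div_mul_eq_mul_div, div_lt_one (by positivity)]
    have hi0 : (0 : ℝ) ≤ ((i : ℕ) : ℝ) := by positivity
    nlinarith
  obtain ⟨α, hα1, hα⟩ := exists_weights m (by omega) v hv_inj
  have hint : ∀ t : ℝ, IntegrableOn
      (fun x => (ContinuousLinearMap.id ℝ E + t • fderiv ℝ g x).det) (ball (0 : E) 1) μ := by
    intro t
    have hc : Continuous (fun x => (ContinuousLinearMap.id ℝ E + t • fderiv ℝ g x).det) :=
      ContinuousLinearMap.continuous_det.comp (continuous_const.add (hgc.const_smul t))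
    exact (hc.continuousOn.integrableOn_compact (isCompact_closedBall (0 : E) 1)).mono_set
      ball_subset_closedBall
  have hone : ∫ x in ball (0 : E) 1, (ContinuousLinearMap.id ℝ E + (1 : ℝ) • fderiv ℝ g x).det ∂μ
      = μ.real (ball (0 : E) 1) := by
    have h1 : ∀ x, (ContinuousLinearMap.id ℝ E + (1 : ℝ) • fderiv ℝ g x).det
        = ∑ i, α i * (ContinuousLinearMap.id ℝ E + (v i) • fderiv ℝ g x).det := by
      intro x
      obtain ⟨f, hfdeg, hf⟩ := exists_poly_det (fderiv ℝ g x)
      rw [← hf 1, hα f hfdeg]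
      refine Finset.sum_congr rfl fun i _ => ?_
      rw [hf]
    simp_rw [h1]
    rw [integral_finsetSum _ (fun i _ => (hint (v i)).const_mul (α i))]
    simp_rw [integral_const_mul]
    have h2 : ∀ i, ∫ x in ball (0 : E) 1,
        (ContinuousLinearMap.id ℝ E + (v i) • fderiv ℝ g x).det ∂μ = μ.real (ball (0 : E) 1) :=
      fun i => key (v i) (hv_nonneg i) (hv_small i)
    simp_rw [h2]
    rw [← Finset.sum_mul, hα1, one_mul]
  -- the determinant vanishes
  have hzero : ∀ x, (ContinuousLinearMap.id ℝ E + (1 : ℝ) • fderiv ℝ g x).det = 0 := by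
    intro x
    have hD : ContinuousLinearMap.id ℝ E + (1 : ℝ) • fderiv ℝ g x = fderiv ℝ r x := by
      have h1 : HasFDerivAt g (fderiv ℝ r x - ContinuousLinearMap.id ℝ E) x :=
        ((hr.differentiable one_ne_zero) x).hasFDerivAt.sub (hasFDerivAt_id x)
      rw [h1.fderiv, one_smul]
      abel
    rw [hD]
    by_contra hne
    have hunit : IsUnit (LinearMap.det ((fderiv ℝ r x : E →L[ℝ] E) : E →ₗ[ℝ] E)) :=
      isUnit_iff_ne_zero.mpr hne
    let e := LinearEquiv.ofIsUnitDet (f := ((fderiv ℝ r x : E →L[ℝ] E) : E →ₗ[ℝ] E))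
      (v := Module.finBasis ℝ E) (v' := Module.finBasis ℝ E) (by
        rw [LinearMap.det_toMatrix]; exact hunit)
    obtain ⟨w, hw⟩ := e.surjective (r x)
    have hw' : fderiv ℝ r x w = r x := hw
    have horth : ∀ w, inner ℝ (r x) (fderiv ℝ r x w) = (0 : ℝ) := by
      intro w
      have h1 : HasFDerivAt (fun y => inner ℝ (r y) (r y))
          ((fderivInnerCLM ℝ (r x, r x)).comp ((fderiv ℝ r x).prod (fderiv ℝ r x))) x :=
        ((hr.differentiable one_ne_zero) x).hasFDerivAt.inner ℝ
          ((hr.differentiable one_ne_zero) x).hasFDerivAt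
      have h2 : HasFDerivAt (fun y => inner ℝ (r y) (r y)) (0 : E →L[ℝ] ℝ) x := by
        have : (fun y => inner ℝ (r y) (r y)) = fun _ => (1 : ℝ) := by
          funext y
          rw [real_inner_self_eq_norm_sq, hnorm y]; norm_num
        rw [this]
        exact hasFDerivAt_const _ _
      have h3 := h1.unique h2
      have h4 := congrArg (fun l : E →L[ℝ] ℝ => l w) h3
      simp only [ContinuousLinearMap.comp_apply, ContinuousLinearMap.prod_apply,
        fderivInnerCLM_apply, _root_.zero_apply] at h4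
      rw [real_inner_comm (r x) (fderiv ℝ r x w)] at h4
      linarith
    have h6 := horth w
    rw [hw', real_inner_self_eq_norm_sq, hnorm x] at h6
    norm_num at h6
  simp_rw [hzero] at hone
  simp only [integral_zero] at hone
  exact absurd hone hvol_pos.ne

/-- **No retraction theorem** for the closed unit ball. -/
theorem no_retraction_ball [Nontrivial E] (R : E → E) (hR : ContinuousOn R (closedBall 0 1))
    (hn : ∀ x ∈ closedBall (0 : E) 1, ‖R x‖ = 1) (hid : ∀ x : E, ‖x‖ = 1 → R x = x) : False := by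
  classical
  let R' : E → E := fun x => if ‖x‖ ≤ 1 / 2 then R ((2 : ℝ) • x) else ‖x‖⁻¹ • x
  have hR'c : Continuous R' := by
    apply continuous_if_le continuous_norm continuous_const
    · apply hR.comp (continuous_const_smul (2 : ℝ)).continuousOn
      intro x hx
      simp only [mem_closedBall, dist_zero_right, norm_smul, Real.norm_ofNat]
      have : ‖x‖ ≤ 1 / 2 := hx
      linarith
    · intro x hx
      have hx' : (1 : ℝ) / 2 ≤ ‖x‖ := hx
      have : x ≠ 0 := by
        rintro rfl
        rw [norm_zero] at hx'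
        linarith
      apply ContinuousAt.continuousWithinAt
      exact (continuous_norm.continuousAt.inv₀ (norm_ne_zero_iff.mpr this)).smul continuousAt_id
    · intro x hx
      have h1 : ‖(2 : ℝ) • x‖ = 1 := by
        rw [norm_smul, Real.norm_ofNat, hx]; norm_num
      rw [hid _ h1, hx]
      norm_num
  have hR'n : ∀ x, ‖R' x‖ = 1 := by
    intro x
    by_cases h : ‖x‖ ≤ 1 / 2
    · have : R' x = R ((2 : ℝ) • x) := if_pos h
      rw [this]
      apply hn
      simp only [mem_closedBall, dist_zero_right, norm_smul, Real.norm_ofNat]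
      linarith
    · have : R' x = ‖x‖⁻¹ • x := if_neg h
      rw [this, norm_smul, norm_inv, norm_norm]
      apply inv_mul_cancel₀
      intro h0
      rw [h0] at h
      exact h (by norm_num)
  have hS : IsClosed {x : E | 3 / 4 ≤ ‖x‖} := isClosed_le continuous_const continuous_norm
  have hUo : IsOpen {x : E | 1 / 2 < ‖x‖} := isOpen_lt continuous_const continuous_norm
  have hU : {x : E | 1 / 2 < ‖x‖} ∈ nhdsSet {x : E | 3 / 4 ≤ ‖x‖} := by
    rw [hUo.mem_nhdsSet]
    intro x hx
    have : (3 : ℝ) / 4 ≤ ‖x‖ := hx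
    show 1 / 2 < ‖x‖
    linarith
  have hsm : ContDiffOn ℝ ((1 : ℕ∞) : WithTop ℕ∞) R' {x : E | 1 / 2 < ‖x‖} := by
    have h1 : ContDiffOn ℝ ((1 : ℕ∞) : WithTop ℕ∞) (fun x : E => ‖x‖⁻¹ • x)
        {x : E | 1 / 2 < ‖x‖} := by
      intro x hx
      have hx' : (1 : ℝ) / 2 < ‖x‖ := hx
      have hx0 : x ≠ 0 := by
        rintro rfl
        rw [norm_zero] at hx'
        linarith
      apply ContDiffAt.contDiffWithinAt
      exact ((contDiffAt_norm ℝ hx0).inv (norm_ne_zero_iff.mpr hx0)).smul contDiffAt_id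
    apply h1.congr
    intro x hx
    exact if_neg (not_le.mpr hx)
  obtain ⟨g, hg, hgR, hgS, -⟩ := hR'c.exists_contDiff_approx_and_eqOn (ε := fun _ => 1 / 2) 1
    continuous_const (fun _ => by norm_num) hS hU hsm
  have hg0 : ∀ x, g x ≠ 0 := by
    intro x h0
    have h1 := hgR x
    rw [h0, dist_comm, dist_zero_right, hR'n x] at h1
    norm_num at h1
  refine no_smooth_retraction (fun x => ‖g x‖⁻¹ • g x) ?_ ?_ ?_
  · exact ((hg.norm ℝ hg0).inv (fun x => norm_ne_zero_iff.mpr (hg0 x))).smul hg
  · intro x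
    rw [norm_smul, norm_inv, norm_norm]
    exact inv_mul_cancel₀ (norm_ne_zero_iff.mpr (hg0 x))
  · intro x hx
    have h1 : g x = R' x := hgS (by show (3 : ℝ) / 4 ≤ ‖x‖; rw [hx]; norm_num)
    have h2 : R' x = x := by
      have : R' x = ‖x‖⁻¹ • x := if_neg (by rw [hx]; norm_num)
      rw [this, hx]
      simp
    show ‖g x‖⁻¹ • g x = x
    rw [h1, h2, hx]
    simp

/-- A compact set with nonempty interior does not retract onto its frontier. -/
theorem no_retraction_compact [Nontrivial E] (K : Set E) (hK : IsCompact K)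
    (hint : (interior K).Nonempty) (R : E → E) (hR : ContinuousOn R K)
    (hmaps : ∀ x ∈ K, R x ∈ frontier K) (hid : ∀ x ∈ frontier K, R x = x) : False := by
  classical
  obtain ⟨w, hw⟩ := hint
  let G : E → E := fun x => if x ∈ K then R x else x
  have hGc : Continuous G := by
    rw [← continuousOn_univ]
    have hcov : (univ : Set E) = K ∪ closure Kᶜ := by
      apply Subset.antisymm _ (subset_univ _)
      intro x _
      by_cases hx : x ∈ K
      · exact Or.inl hx
      · exact Or.inr (subset_closure hx)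
    rw [hcov]
    apply ContinuousOn.union_of_isClosed _ _ hK.isClosed isClosed_closure
    · apply hR.congr
      intro x hx
      exact if_pos hx
    · apply continuousOn_id.congr
      intro x hx
      by_cases hxK : x ∈ K
      · have : G x = R x := if_pos hxK
        rw [this]
        apply hid
        rw [frontier_eq_closure_inter_closure]
        exact ⟨subset_closure hxK, hx⟩
      · exact if_neg hxK
  have hGw : ∀ x, G x ≠ w := by
    intro x h
    by_cases hx : x ∈ K
    · have : G x = R x := if_pos hx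
      rw [this] at h
      have h2 := hmaps x hx
      rw [h] at h2
      exact h2.2 hw
    · have : G x = x := if_neg hx
      rw [this] at h
      rw [h] at hx
      exact hx (interior_subset hw)
  obtain ⟨ρ, hρ0, hρ⟩ : ∃ ρ : ℝ, 0 < ρ ∧ K ⊆ ball w ρ := by
    obtain ⟨ρ, hρ⟩ := hK.isBounded.subset_ball w
    exact ⟨max ρ 1, by positivity, hρ.trans (ball_subset_ball (le_max_left _ _))⟩
  refine no_retraction_ball (fun y => ‖G (w + ρ • y) - w‖⁻¹ • (G (w + ρ • y) - w)) ?_ ?_ ?_
  · have h1 : Continuous fun y : E => G (w + ρ • y) - w :=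
      (hGc.comp (continuous_const.add (continuous_const_smul ρ))).sub continuous_const
    exact ((h1.norm.inv₀ (fun y => norm_ne_zero_iff.mpr (sub_ne_zero.mpr (hGw _)))).smul
      h1).continuousOn
  · intro y _
    rw [norm_smul, norm_inv, norm_norm]
    exact inv_mul_cancel₀ (norm_ne_zero_iff.mpr (sub_ne_zero.mpr (hGw _)))
  · intro y hy
    have h1 : w + ρ • y ∉ K := by
      intro h
      have h2 := hρ h
      rw [mem_ball, dist_eq_norm] at h2
      simp only [add_sub_cancel_left, norm_smul, hy, mul_one, Real.norm_eq_abs,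
        abs_of_pos hρ0] at h2
      exact lt_irrefl _ h2
    have h2 : G (w + ρ • y) = w + ρ • y := if_neg h1
    show ‖G (w + ρ • y) - w‖⁻¹ • (G (w + ρ • y) - w) = y
    rw [h2, add_sub_cancel_left, norm_smul, hy, mul_one, Real.norm_eq_abs, abs_of_pos hρ0,
      smul_smul, inv_mul_cancel₀ hρ0.ne', one_smul]

end Pool.Agent.Lib.MP_df705a_gt
end
end

section

/-!
# Compactness of parts of a component of the preimage under a covering map
-/

open scoped Topology
open Set Filter

namespace Pool.Agent.Lib.MP_df705a_gt.Pin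

/-- Let `C` be a component of the preimage of the open set `O` and let `Q ⊆ O` be compact. If `C`
meets the fibre over each point of `Q` in a finite set, the part of `C` over `Q` is compact. -/
theorem isCompact_component {X Y : Type*} [TopologicalSpace X] [TopologicalSpace Y]
    [LocallyConnectedSpace Y] {p : X → Y} (hp : IsCoveringMap p) {O : Set Y} (hO : IsOpen O)
    {Q : Set Y} (hQ : IsCompact Q) (hQO : Q ⊆ O) {y : X}
    (hfin : ∀ w ∈ Q, {x ∈ connectedComponentIn (p ⁻¹' O) y | p x = w}.Finite) :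
    IsCompact {x ∈ connectedComponentIn (p ⁻¹' O) y | p x ∈ Q} := by
  rw [isCompact_iff_ultrafilter_le_nhds]
  intro U hU
  rw [le_principal_iff] at hU
  set C := connectedComponentIn (p ⁻¹' O) y with hC
  obtain ⟨w, hwQ, hw⟩ := isCompact_iff_ultrafilter_le_nhds.1 hQ (U.map p) (by
    rw [le_principal_iff, Ultrafilter.mem_coe, Ultrafilter.mem_map]
    exact mem_of_superset hU fun x hx => hx.2)
  have hw' : Tendsto p U (𝓝 w) := hw
  have hev := hp w
  obtain ⟨W, hwW, hWo, hI⟩ : ∃ W : Set Y, w ∈ W ∧ IsOpen W ∧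
      ∀ x, p x ∈ W → Nonempty (p ⁻¹' {w}) := by
    obtain ⟨_, W, h1, h2, _, e, _⟩ := hev
    exact ⟨W, h1, h2, fun x hx => ⟨(e ⟨x, hx⟩).2⟩⟩
  have hne : Nonempty (p ⁻¹' {w}) := by
    have h1 : p ⁻¹' W ∈ (U : Filter X) := hw' (hWo.mem_nhds hwW)
    obtain ⟨x, hx⟩ := U.nonempty_of_mem h1
    exact hI x hx
  set t := hev.toTrivialization with ht
  have hwt : w ∈ t.baseSet := hev.mem_toTrivialization_baseSet
  have hdisc : DiscreteTopology (p ⁻¹' {w}) := hev.1
  -- the sheets
  let G : p ⁻¹' {w} → Y → X := fun i w' => t.toOpenPartialHomeomorph.symm (w', i)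
  have hG : ∀ i, ContinuousOn (G i) t.baseSet := by
    intro i
    refine t.toOpenPartialHomeomorph.continuousOn_symm.comp
      (Continuous.prodMk_left i).continuousOn ?_
    intro w' hw'
    show (w', i) ∈ t.target
    rw [t.target_eq]
    exact ⟨hw', mem_univ _⟩
  have hpG : ∀ i, ∀ w' ∈ t.baseSet, p (G i w') = w' := fun i w' hw' => t.proj_symm_apply' hw'
  have hGp : ∀ x, p x ∈ t.baseSet → G (t x).2 (p x) = x := by
    intro x hx
    have h1 := t.symm_apply_mk_proj (x := x) (t.mem_source.2 hx)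
    exact h1
  set O' := connectedComponentIn (t.baseSet ∩ O) w with hO'
  have hwO' : w ∈ O' := mem_connectedComponentIn ⟨hwt, hQO hwQ⟩
  have hO'o : IsOpen O' := (t.open_baseSet.inter hO).connectedComponentIn
  have hO't : O' ⊆ t.baseSet := (connectedComponentIn_subset _ _).trans inter_subset_left
  have hO'O : O' ⊆ O := (connectedComponentIn_subset _ _).trans inter_subset_right
  have key : ∀ x ∈ C, p x ∈ O' → G (t x).2 w ∈ C := by
    intro x hx hpx
    have h1 : IsPreconnected (G (t x).2 '' O') :=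
      isPreconnected_connectedComponentIn.image _ ((hG _).mono hO't)
    have h2 : x ∈ G (t x).2 '' O' := ⟨p x, hpx, hGp x (hO't hpx)⟩
    have h3 : C = connectedComponentIn (p ⁻¹' O) x := connectedComponentIn_eq hx
    rw [h3]
    refine h1.subset_connectedComponentIn h2 ?_ ⟨w, hwO', rfl⟩
    rintro _ ⟨w', hw', rfl⟩
    show p (G (t x).2 w') ∈ O
    rw [hpG _ _ (hO't hw')]
    exact hO'O hw'
  have hIfin : {i | G i w ∈ C}.Finite := by
    refine Set.Finite.of_finite_image (f := fun i => G i w) ((hfin w hwQ).subset ?_) ?_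
    · rintro _ ⟨i, hi, rfl⟩
      exact ⟨hi, hpG i w hwt⟩
    · intro i _ i' _ h
      have h1 : ∀ i, t (G i w) = (w, i) := fun i => t.apply_symm_apply' hwt
      have h2 := h1 i
      have h3 : G i w = G i' w := h
      rw [h3, h1 i'] at h2
      exact (congrArg Prod.snd h2).symm
  have hmem : (⋃ i ∈ {i | G i w ∈ C}, {x | p x ∈ O' ∧ (t x).2 = i}) ∈ U := by
    have h1 : p ⁻¹' O' ∈ (U : Filter X) := hw' (hO'o.mem_nhds hwO')
    have h2 := inter_mem hU h1
    refine mem_of_superset h2 ?_
    rintro x ⟨⟨hxC, _⟩, hx⟩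
    exact mem_biUnion (key x hxC hx) ⟨hx, rfl⟩
  obtain ⟨i, hi, hiU⟩ := (Ultrafilter.finite_biUnion_mem_iff hIfin).1 hmem
  refine ⟨G i w, ⟨hi, by
    rw [hpG i w hwt]
    exact hwQ⟩, ?_⟩
  have h1 : Tendsto (G i) (𝓝 w) (𝓝 (G i w)) :=
    (hG i).continuousAt (t.open_baseSet.mem_nhds hwt)
  have h2 : Tendsto (G i ∘ p) U (𝓝 (G i w)) := h1.comp hw'
  have h3 : Tendsto id (U : Filter X) (𝓝 (G i w)) := by
    refine h2.congr' ?_
    filter_upwards [hiU] with x hx
    obtain ⟨hx1, rfl⟩ := hx
    exact hGp x (hO't hx1)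
  exact h3

end Pool.Agent.Lib.MP_df705a_gt.Pin
end
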