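import Pool.Agent.Lib.MP_df705a_gt.Mg.G069
import Pool.Agent.Lib.MP_df705a_gt.Mg.G001
import Pool.Agent.Lib.MP_df705a_gt.Mg.G004
import Pool.Agent.Lib.MP_df705a_gt.Mg.G060
import Pool.Agent.Lib.MP_df705a_gt.Mg.G009
import Pool.Agent.Lib.MP_df705a_gt.Mg.G055
import Pool.Agent.Lib.MP_df705a_gt.Mg.G010
import Pool.Agent.Lib.MP_df705a_gt.Mg.G066

section

/-!
# Ricci pinching, part A, AG3: uniqueness of geodesics
-/

open scoped Manifold ContDiff Topology
open Set Bundle Module Filter MeasureTheory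

noncomputable section

set_option linter.unusedSectionVars false

namespace Pool.Agent.Lib.MP_df705a_gt.Pin.A

variable {E : Type*} [NormedAddCommGroup E] [NormedSpace ℝ E] [FiniteDimensional ℝ E]
  {h : Curv.Coeff E}

theorem AG3Aux.curve {γ β : ℝ → E} {b : ℝ} (hg : IsGeo h γ β b) :
    ∀ t ∈ Icc 0 b, HasDerivWithinAt (fun s => (γ s, β s)) (β t, acc h (γ t) (β t)) (Icc 0 b) t :=
  fun t ht => (hg t ht).1.prodMk (hg t ht).2

theorem AG3Aux.right {c : ℝ → E × E} {c' : E × E} {b t : ℝ} (ht : t ∈ Ico 0 b)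
    (hc : HasDerivWithinAt c c' (Icc 0 b) t) : HasDerivWithinAt c c' (Ici t) t := by
  apply hc.mono_of_mem_nhdsWithin
  have h1 : Icc t b ∈ 𝓝[Ici t] t := Icc_mem_nhdsGE ht.2
  exact mem_of_superset h1 (Icc_subset_Icc ht.1 le_rfl)

/-- Uniqueness of geodesics.
Proof: the curves `(γ, β)` and `(γ', β')` in `E × E` are continuous on the compact interval
`[0, b]`, so they stay in a closed ball `B`; the vector field `q ↦ (q.2, acc h q.1 q.2)` is `C^1`
(`acc_smooth`), hence Lipschitz on the compact convex set `B`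
(`ContDiff.continuous_fderiv`, `IsCompact.exists_bound_of_continuousOn`,
`Convex.lipschitzOnWith_of_nnnorm_fderiv_le`). Both curves are solutions of the same differential
equation with the same initial value: `ODE_solution_unique_of_mem_Icc_right` (with `s t = B`;
`HasDerivWithinAt.mono`/`Ici` versions: `HasDerivWithinAt f f' (Icc 0 b) t` implies
`HasDerivWithinAt f f' (Ici t) t` for `t < b`, `HasDerivWithinAt.mono_of_mem_nhdsWithin`). -/
theorem IsGeo.unique (hm : Curv.IsMetric h) {γ β γ' β' : ℝ → E} {b : ℝ} (hg : IsGeo h γ β b)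
    (hg' : IsGeo h γ' β' b) (h0 : γ 0 = γ' 0) (h0' : β 0 = β' 0) {t : ℝ} (ht : t ∈ Icc 0 b) :
    γ t = γ' t ∧ β t = β' t := by
  have : ProperSpace (E × E) := FiniteDimensional.proper ℝ (E × E)
  have hF : ContDiff ℝ ∞ (fun q : E × E => (q.2, acc h q.1 q.2)) :=
    contDiff_snd.prodMk (acc_smooth hm)
  have hc1 := AG3Aux.curve hg
  have hc2 := AG3Aux.curve hg'
  have hcont1 : ContinuousOn (fun s => (γ s, β s)) (Icc 0 b) :=
    fun s hs => (hc1 s hs).continuousWithinAt
  have hcont2 : ContinuousOn (fun s => (γ' s, β' s)) (Icc 0 b) :=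
    fun s hs => (hc2 s hs).continuousWithinAt
  obtain ⟨R1, hR1⟩ := isCompact_Icc.exists_bound_of_continuousOn hcont1
  obtain ⟨R2, hR2⟩ := isCompact_Icc.exists_bound_of_continuousOn hcont2
  set B : Set (E × E) := Metric.closedBall 0 (max R1 R2) with hB
  have hBc : IsCompact B := isCompact_closedBall 0 _
  obtain ⟨C, hC⟩ := hBc.exists_bound_of_continuousOn
    ((hF.continuous_fderiv (by simp)).continuousOn (s := B))
  have hlip : LipschitzOnWith (Real.toNNReal C) (fun q : E × E => (q.2, acc h q.1 q.2)) B := by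
    apply Convex.lipschitzOnWith_of_nnnorm_fderiv_le (𝕜 := ℝ)
      (fun x _ => hF.differentiable (by simp) x) _ (convex_closedBall 0 _)
    intro x hx
    rw [← NNReal.coe_le_coe, coe_nnnorm]
    exact (hC x hx).trans (Real.le_coe_toNNReal C)
  have hmem1 : ∀ s ∈ Ico 0 b, (γ s, β s) ∈ B := fun s hs =>
    mem_closedBall_zero_iff.mpr ((hR1 s ⟨hs.1, hs.2.le⟩).trans (le_max_left _ _))
  have hmem2 : ∀ s ∈ Ico 0 b, (γ' s, β' s) ∈ B := fun s hs =>
    mem_closedBall_zero_iff.mpr ((hR2 s ⟨hs.1, hs.2.le⟩).trans (le_max_right _ _))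
  have hkey := ODE_solution_unique_of_mem_Icc_right
    (v := fun _ q => (q.2, acc h q.1 q.2)) (s := fun _ => B) (K := Real.toNNReal C)
    (f := fun s => (γ s, β s)) (g := fun s => (γ' s, β' s)) (a := 0) (b := b)
    (fun _ _ => hlip) hcont1
    (fun s hs => AG3Aux.right hs (hc1 s ⟨hs.1, hs.2.le⟩)) hmem1 hcont2
    (fun s hs => AG3Aux.right hs (hc2 s ⟨hs.1, hs.2.le⟩)) hmem2
    (by simp only [h0, h0'])
  have h1 := hkey ht
  simp only [Prod.mk.injEq] at h1
  exact h1

end Pool.Agent.Lib.MP_df705a_gt.Pin.A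
end
end

section

/-!
# Ricci pinching, part A, AG4: geodesics stay in a bounded set
-/

open scoped Manifold ContDiff Topology
open Set Bundle Module Filter MeasureTheory

noncomputable section

set_option linter.unusedSectionVars false

namespace Pool.Agent.Lib.MP_df705a_gt.Pin.A

variable {E : Type*} [NormedAddCommGroup E] [NormedSpace ℝ E] [FiniteDimensional ℝ E]
  {h : Curv.Coeff E}

/-- Proof: closed, since `dh h p` and `nm h` are continuous (`dh_continuous`, `nm_continuous`), and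
contained in the product of the compact ball (`Proper`) and a ball of `E` (`nm_compact`: on the
compact set of the first components `c ‖v‖ ≤ nm h x v ≤ B`). -/
theorem isCompact_disc (hm : Curv.IsMetric h) (hP : Proper h) (p : E) (A B : ℝ) :
    IsCompact {q : E × E | dh h p q.1 ≤ A ∧ nm h q.1 q.2 ≤ B} := by
  have : ProperSpace E := FiniteDimensional.proper ℝ E
  have hK := hP p A
  obtain ⟨c, C, hc, _, hcC⟩ := nm_compact hm hK
  have hcomp : IsCompact ({y | dh h p y ≤ A} ×ˢ Metric.closedBall (0 : E) (B / c)) :=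
    hK.prod (isCompact_closedBall 0 _)
  apply hcomp.of_isClosed_subset
  · apply IsClosed.inter
    · exact isClosed_le ((dh_continuous hm).comp (continuous_const.prodMk continuous_fst))
        continuous_const
    · exact isClosed_le (nm_continuous hm) continuous_const
  · rintro ⟨x, v⟩ ⟨h1, h2⟩
    refine ⟨h1, ?_⟩
    rw [mem_closedBall_zero_iff, le_div_iff₀ hc, mul_comm]
    exact (hcC x h1 v).1.trans h2

/-- A curve of the geodesic field multiplied by the cut off function `χ` is a geodesic as long as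
`χ = 1`.
Proof: let `T` be the set of `t ∈ [0, 1]` such that `dh h p (c s).1 ≤ 2 R` and
`nm h (c s).1 (c s).2 ≤ R` for all `s ∈ [0, t]`. For `t ∈ T`, `χ (c s) = 1` on `[0, t]` and
`IsGeo h (fun t => (c t).1) (fun t => (c t).2) t`, so by `IsGeo.speed` and `IsGeo.dist`
`nm h (c s).1 (c s).2 = nm h (c 0).1 (c 0).2 < R` and
`dh h p (c s).1 ≤ dh h p (c 0).1 + dh h (c 0).1 (c s).1 < R + R` for `s ≤ t`; these inequalities are
strict, so by continuity (`c` is continuous on `[0, 1]`, `dh_continuous`, `nm_continuous`) `T` is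
open to the right, and `T` is closed: `IsClosed.Icc_subset_of_forall_exists_gt` gives `1 ∈ T`. -/
theorem isGeo_of_cutoff (hm : Curv.IsMetric h) {p : E} {R : ℝ} {χ : E × E → ℝ}
    (hχ : ∀ q : E × E, dh h p q.1 ≤ 2 * R → nm h q.1 q.2 ≤ R → χ q = 1) {c : ℝ → E × E}
    (hc : ∀ t ∈ Icc (0 : ℝ) 1, HasDerivWithinAt c
      (χ (c t) • (((c t).2, acc h (c t).1 (c t).2) : E × E)) (Icc 0 1) t)
    (h1 : dh h p (c 0).1 < R) (h2 : nm h (c 0).1 (c 0).2 < R) :
    IsGeo h (fun t => (c t).1) (fun t => (c t).2) 1 := by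
  have hcont : ContinuousOn c (Icc 0 1) := fun t ht => (hc t ht).continuousWithinAt
  set φ : ℝ → ℝ := fun t => max (dh h p (c t).1 - 2 * R) (nm h (c t).1 (c t).2 - R) with hφ
  have hR : 0 < R := (dh_nonneg hm _ _).trans_lt h1
  have hφc : ContinuousOn φ (Icc 0 1) := by
    have e1 : ContinuousOn (fun t => dh h p (c t).1) (Icc 0 1) :=
      (dh_continuous hm).comp_continuousOn
        (continuousOn_const.prodMk (continuous_fst.comp_continuousOn hcont))
    have e2 : ContinuousOn (fun t => nm h (c t).1 (c t).2) (Icc 0 1) :=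
      (nm_continuous hm).comp_continuousOn hcont
    exact (e1.sub continuousOn_const).sup (e2.sub continuousOn_const)
  -- where `φ ≤ 0` on `[0, t]` the curve is a geodesic
  have hgeo : ∀ t ∈ Icc (0 : ℝ) 1, (∀ s ∈ Icc 0 t, φ s ≤ 0) →
      IsGeo h (fun t => (c t).1) (fun t => (c t).2) t := by
    intro t ht hs s hst
    have hs1 : s ∈ Icc (0 : ℝ) 1 := ⟨hst.1, hst.2.trans ht.2⟩
    have h3 := hs s hst
    have h4 : χ (c s) = 1 := by
      apply hχ
      · have := (le_max_left _ _).trans h3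
        linarith
      · have := (le_max_right _ _).trans h3
        linarith
    have h5 := (hc s hs1).mono (Icc_subset_Icc le_rfl ht.2 : Icc 0 t ⊆ Icc 0 1)
    rw [h4, one_smul] at h5
    exact ⟨(ContinuousLinearMap.fst ℝ E E).hasFDerivAt.comp_hasDerivWithinAt s h5,
      (ContinuousLinearMap.snd ℝ E E).hasFDerivAt.comp_hasDerivWithinAt s h5⟩
  -- on such an interval `φ < 0`
  have hneg : ∀ t ∈ Icc (0 : ℝ) 1, (∀ s ∈ Icc 0 t, φ s ≤ 0) → φ t < 0 := by
    intro t ht hs
    have hg := hgeo t ht hs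
    have htt : t ∈ Icc 0 t := ⟨ht.1, le_rfl⟩
    have e1 := hg.speed hm htt
    have e2 := hg.dist hm htt
    have e3 := dh_triangle hm p (c 0).1 (c t).1
    have e4 : nm h (c 0).1 (c 0).2 * t ≤ nm h (c 0).1 (c 0).2 := by
      have := mul_le_mul_of_nonneg_left ht.2 (nm_nonneg h (c 0).1 (c 0).2)
      rwa [mul_one] at this
    apply max_lt
    · linarith
    · rw [e1]; linarith
  have hall : ∀ t ∈ Icc (0 : ℝ) 1, φ t < 0 := by
    by_contra hcon
    push Not at hcon
    obtain ⟨t₁, ht₁, hφt₁⟩ := hcon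
    set S : Set ℝ := Icc (0 : ℝ) 1 ∩ φ ⁻¹' Ici 0 with hS
    have hSc : IsCompact S := by
      apply isCompact_Icc.of_isClosed_subset (hφc.preimage_isClosed_of_isClosed isClosed_Icc
        isClosed_Ici) inter_subset_left
    have hSne : S.Nonempty := ⟨t₁, ht₁, hφt₁⟩
    have hmem := hSc.sInf_mem hSne
    set T : ℝ := sInf S with hT
    obtain ⟨hT1, hT2⟩ := hmem
    have hlt : ∀ s, 0 ≤ s → s < T → φ s < 0 := by
      intro s hs0 hsT
      by_contra h3
      push Not at h3
      have h4 : s ∈ S := ⟨⟨hs0, hsT.le.trans hT1.2⟩, h3⟩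
      exact absurd (csInf_le hSc.bddBelow h4) (not_le.mpr hsT)
    have hTle : φ T ≤ 0 := by
      have hφ0 : φ 0 ≤ 0 := by
        apply max_le
        · linarith
        · linarith
      have hIVT := intermediate_value_Icc hT1.1
        (hφc.mono (Icc_subset_Icc le_rfl hT1.2))
      obtain ⟨s, hs, hs0⟩ := hIVT ⟨hφ0, hT2⟩
      rcases lt_or_eq_of_le hs.2 with h3 | h3
      · have := hlt s hs.1 h3
        rw [hs0] at this
        exact absurd this (lt_irrefl 0)
      · rw [← h3, hs0]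
    have hle : ∀ s ∈ Icc 0 T, φ s ≤ 0 := by
      intro s hs
      rcases lt_or_eq_of_le hs.2 with h3 | h3
      · exact (hlt s hs.1 h3).le
      · rw [h3]; exact hTle
    exact absurd (hneg T hT1 hle) (not_lt.mpr hT2)
  exact hgeo 1 ⟨zero_le_one, le_rfl⟩ (fun s hs => (hall s hs).le)

end Pool.Agent.Lib.MP_df705a_gt.Pin.A
end
end

section

/-!
# Ricci pinching, part A, AO3: curves of a slow vector field
-/

open scoped ContDiff Topology
open Set Filter MeasureTheory

noncomputable section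

set_option linter.unusedSectionVars false

namespace Pool.Agent.Lib.MP_df705a_gt.Pin.A

variable {V : Type*} [NormedAddCommGroup V] [NormedSpace ℝ V] [CompleteSpace V]

/-- constant curves -/
def AO3_const (V : Type*) [NormedAddCommGroup V] [NormedSpace ℝ V] :
    V →L[ℝ] C(Icc (0 : ℝ) 1, V) :=
  LinearMap.mkContinuous
    { toFun := fun x => ContinuousMap.const _ x
      map_add' := fun x y => by ext t; rfl
      map_smul' := fun c x => by ext t; rfl } 1 fun x => by
    rw [one_mul, ContinuousMap.norm_le _ (norm_nonneg _)]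
    intro t
    exact le_rfl

/-- The integral curves on `[0, 1]` of a smooth vector field `G` with `‖DG‖ ≤ 1 / 2`, as a smooth
function of the initial value.
Proof: let `J` be the operator of `exists_prim`, `N = nem (Icc 0 1) hG.continuous` and
`Ψ c = c - J (N c)` on the Banach space `C(Icc 0 1, V)`. `G` is `1/2`-Lipschitz
(`lipschitzWith_of_nnnorm_fderiv_le` or `Convex.norm_image_sub_le_of_norm_fderiv_le`), so
`‖Ψ a - Ψ b - (a - b)‖ = ‖J (N a - N b)‖ ≤ ‖a - b‖ / 2`, that is
`ApproximatesLinearOn Ψ (ContinuousLinearEquiv.refl ℝ _) univ (1 / 2)`, and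
`ApproximatesLinearOn.toHomeomorph` makes `Ψ` a homeomorphism. `Ψ` is smooth (`nem_contDiff`) with
derivative `id - T`, `T = J ∘ nemB (N' c)` (`nem_hasFDerivAt`), `‖T‖ ≤ 1 / 2`, so `id - T` is
invertible (`Units.oneSub` in the complete normed ring `C(..) →L[ℝ] C(..)`, as a
`ContinuousLinearEquiv`, e.g. `ContinuousLinearEquiv.unitsEquiv`). By `Homeomorph.contDiff_symm` the
inverse of `Ψ` is smooth. Put `Φ x = Ψ⁻¹ (const x)` (`x ↦ ContinuousMap.const _ x` is continuous
linear). -/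
theorem exists_curves {G : V → V} (hG : ContDiff ℝ ∞ G) (hb : ∀ x, ‖fderiv ℝ G x‖ ≤ 1 / 2) :
    ∃ Φ : V → C(Icc (0 : ℝ) 1, V), ContDiff ℝ ∞ Φ ∧
      ∀ (x : V) (t : Icc (0 : ℝ) 1),
        Φ x t = x + ∫ s in (0 : ℝ)..t, G ((Φ x).IccExtend zero_le_one s) := by
  obtain ⟨J, hJ, hJ'⟩ := exists_prim V
  have h1 : ContDiff ℝ 1 G := hG.of_le (by exact_mod_cast le_top)
  have hdiff : Differentiable ℝ G := h1.differentiable one_ne_zero
  have hlip : ∀ x y, ‖G x - G y‖ ≤ 1 / 2 * ‖x - y‖ := fun x y =>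
    convex_univ.norm_image_sub_le_of_norm_fderiv_le (fun z _ => hdiff z) (fun z _ => hb z)
      (mem_univ y) (mem_univ x)
  have hJle : ∀ u, ‖J u‖ ≤ ‖u‖ := fun u =>
    (J.le_opNorm u).trans (mul_le_of_le_one_left (norm_nonneg _) hJ)
  set Ψ : C(Icc (0 : ℝ) 1, V) → C(Icc (0 : ℝ) 1, V) :=
    fun c => c - J (nem (Icc (0 : ℝ) 1) hG.continuous c) with hΨ
  have happ : ApproximatesLinearOn Ψ
      (ContinuousLinearEquiv.refl ℝ C(Icc (0 : ℝ) 1, V) :
        C(Icc (0 : ℝ) 1, V) →L[ℝ] C(Icc (0 : ℝ) 1, V)) univ (1 / 2) := by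
    rw [ApproximatesLinearOn]
    intro a _ b _
    have e : Ψ a - Ψ b - (ContinuousLinearEquiv.refl ℝ C(Icc (0 : ℝ) 1, V) :
        C(Icc (0 : ℝ) 1, V) →L[ℝ] C(Icc (0 : ℝ) 1, V)) (a - b) =
        -J (nem (Icc (0 : ℝ) 1) hG.continuous a - nem (Icc (0 : ℝ) 1) hG.continuous b) := by
      rw [map_sub J]
      change (a - J _) - (b - J _) - (a - b) = _
      abel
    rw [e, norm_neg]
    refine (hJle _).trans ?_
    rw [ContinuousMap.norm_le _ (by positivity)]
    intro t
    change ‖G (a t) - G (b t)‖ ≤ _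
    refine (hlip _ _).trans ?_
    have : ‖a t - b t‖ ≤ ‖a - b‖ := (a - b).norm_coe_le_norm t
    push_cast
    linarith
  have hc : Subsingleton C(Icc (0 : ℝ) 1, V) ∨ (1 / 2 : NNReal) <
      ‖((ContinuousLinearEquiv.refl ℝ C(Icc (0 : ℝ) 1, V)).symm :
        C(Icc (0 : ℝ) 1, V) →L[ℝ] C(Icc (0 : ℝ) 1, V))‖₊⁻¹ := by
    rcases subsingleton_or_nontrivial C(Icc (0 : ℝ) 1, V) with h | h
    · exact Or.inl h
    · right
      have : ‖((ContinuousLinearEquiv.refl ℝ C(Icc (0 : ℝ) 1, V)).symm :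
          C(Icc (0 : ℝ) 1, V) →L[ℝ] C(Icc (0 : ℝ) 1, V))‖₊ = 1 := by
        rw [ContinuousLinearEquiv.refl_symm, ContinuousLinearEquiv.coe_refl]
        exact ContinuousLinearMap.nnnorm_id
      rw [this, inv_one, ← NNReal.coe_lt_coe]
      norm_num
  set e := happ.toHomeomorph Ψ hc with he
  have hecoe : ∀ c, e c = Ψ c := fun c => rfl
  set T : C(Icc (0 : ℝ) 1, V) → C(Icc (0 : ℝ) 1, V) →L[ℝ] C(Icc (0 : ℝ) 1, V) := fun c =>
    J.comp (nemB (Icc (0 : ℝ) 1) V V (nem (Icc (0 : ℝ) 1) (h1.continuous_fderiv one_ne_zero) c))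
    with hT
  have hTnorm : ∀ c, ‖T c‖ ≤ 1 / 2 := by
    intro c
    refine ContinuousLinearMap.opNorm_le_bound _ (by norm_num) fun v => ?_
    change ‖J _‖ ≤ _
    refine (hJle _).trans ?_
    rw [ContinuousMap.norm_le _ (by positivity)]
    intro t
    change ‖fderiv ℝ G (c t) (v t)‖ ≤ _
    refine (ContinuousLinearMap.le_opNorm _ _).trans ?_
    exact mul_le_mul (hb _) (v.norm_coe_le_norm t) (norm_nonneg _) (by norm_num)
  have hTlt : ∀ c, ‖T c‖ < 1 := fun c => (hTnorm c).trans_lt (by norm_num)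
  have hΨd : ∀ c, HasFDerivAt Ψ (1 - T c) c := by
    intro c
    have h2 := nem_hasFDerivAt (X := Icc (0 : ℝ) 1) h1 c
    have h3 := (J.hasFDerivAt (x := nem (Icc (0 : ℝ) 1) hG.continuous c)).comp c h2
    exact (hasFDerivAt_id c).sub h3
  have hΨs : ContDiff ℝ ∞ Ψ := contDiff_id.sub (J.contDiff.comp (nem_contDiff hG))
  have hsymm : ContDiff ℝ ∞ e.symm := by
    refine Homeomorph.contDiff_symm e
      (f₀' := fun c => ContinuousLinearEquiv.unitsEquiv ℝ _ (Units.oneSub (T c) (hTlt c)))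
      (fun c => ?_) hΨs
    have h2 : ((ContinuousLinearEquiv.unitsEquiv ℝ _ (Units.oneSub (T c) (hTlt c)) :
        C(Icc (0 : ℝ) 1, V) ≃L[ℝ] C(Icc (0 : ℝ) 1, V)) :
        C(Icc (0 : ℝ) 1, V) →L[ℝ] C(Icc (0 : ℝ) 1, V)) = 1 - T c := by
      ext v t
      rfl
    rw [h2]
    exact hΨd c
  refine ⟨fun x => e.symm (AO3_const V x), hsymm.comp (AO3_const V).contDiff, fun x t => ?_⟩
  have h2 : Ψ (e.symm (AO3_const V x)) = AO3_const V x := by
    rw [← hecoe]
    exact e.apply_symm_apply _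
  have h3 := congrArg (fun c : C(Icc (0 : ℝ) 1, V) => c t) h2
  change (e.symm (AO3_const V x)) t -
    (J (nem (Icc (0 : ℝ) 1) hG.continuous (e.symm (AO3_const V x)))) t = x at h3
  rw [hJ'] at h3
  rw [sub_eq_iff_eq_add] at h3
  exact h3

end Pool.Agent.Lib.MP_df705a_gt.Pin.A
end
end

section

/-!
# Ricci pinching, part A, AO4a: the flow of a smooth vector field with compact support
-/

open scoped ContDiff Topology
open Set Filter MeasureTheory

noncomputable section

set_option linter.unusedSectionVars false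

namespace Pool.Agent.Lib.MP_df705a_gt.Pin.A

variable {V : Type*} [NormedAddCommGroup V] [NormedSpace ℝ V]

/-- The vector field `F` has integral curves `c x` on `[0, 1]` with initial value `x`, and
`x ↦ c x 1` is smooth. -/
def HasFlow (F : V → V) : Prop :=
  ∃ c : V → ℝ → V, ContDiff ℝ ∞ (fun x => c x 1) ∧ ∀ x, c x 0 = x ∧
    ∀ t ∈ Icc (0 : ℝ) 1, HasDerivWithinAt (c x) (F (c x t)) (Icc 0 1) t

variable [CompleteSpace V]

/-- Proof: `exists_curves`, `c x t = (Φ x).IccExtend zero_le_one t`. The value at `1` is a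
continuous linear function of the curve (`ContinuousMap.evalCLM`), so `x ↦ c x 1` is smooth. For
`t ∈ Icc 0 1` one has `c x t = x + ∫ s in 0..t, G (c x s)` with a continuous integrand: the right
hand side has a derivative at every `t` (`intervalIntegral.integral_hasDerivAt_right` or
`Continuous.deriv_integral`), restrict to `Icc 0 1` (`HasDerivWithinAt.congr`). -/
theorem hasFlow_half {G : V → V} (hG : ContDiff ℝ ∞ G) (hb : ∀ x, ‖fderiv ℝ G x‖ ≤ 1 / 2) :
    HasFlow G := by
  obtain ⟨Φ, hΦ, hΦ'⟩ := exists_curves hG hb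
  refine ⟨fun x t => (Φ x).IccExtend zero_le_one t, ?_, fun x => ⟨?_, fun t ht => ?_⟩⟩
  · have e : (fun x => (Φ x).IccExtend zero_le_one 1) =
        fun x => ContinuousMap.evalCLM ℝ (⟨1, right_mem_Icc.2 zero_le_one⟩ : Icc (0 : ℝ) 1) (Φ x) := by
      ext x
      change Φ x (projIcc 0 1 zero_le_one 1) = Φ x ⟨1, right_mem_Icc.2 zero_le_one⟩
      rw [projIcc_right]
    rw [e]
    exact (ContinuousMap.evalCLM ℝ (⟨1, right_mem_Icc.2 zero_le_one⟩ : Icc (0 : ℝ) 1)).contDiff.comp hΦ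
  · change Φ x (projIcc 0 1 zero_le_one 0) = x
    rw [projIcc_left, hΦ']
    change x + ∫ s in (0 : ℝ)..0, _ = x
    rw [intervalIntegral.integral_same, add_zero]
  · have hcont : Continuous fun s => G ((Φ x).IccExtend zero_le_one s) :=
      hG.continuous.comp ((Φ x).IccExtend zero_le_one).continuous
    have h1 : HasDerivAt (fun t => x + ∫ s in (0 : ℝ)..t, G ((Φ x).IccExtend zero_le_one s))
        (G ((Φ x).IccExtend zero_le_one t)) t :=
      (hcont.integral_hasStrictDerivAt 0 t).hasDerivAt.const_add x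
    have h2 : ∀ s ∈ Icc (0 : ℝ) 1, (Φ x).IccExtend zero_le_one s =
        x + ∫ r in (0 : ℝ)..s, G ((Φ x).IccExtend zero_le_one r) := by
      intro s hs
      change Φ x (projIcc 0 1 zero_le_one s) = _
      rw [projIcc_of_mem zero_le_one hs, hΦ']
    exact h1.hasDerivWithinAt.congr h2 (h2 t ht)

end Pool.Agent.Lib.MP_df705a_gt.Pin.A
end
end

section

/-!
# Ricci pinching, part A, AO4b: the flow of a smooth vector field with compact support
-/

open scoped ContDiff Topology
open Set Filter MeasureTheory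

noncomputable section

set_option linter.unusedSectionVars false

namespace Pool.Agent.Lib.MP_df705a_gt.Pin.A

variable {V : Type*} [NormedAddCommGroup V] [NormedSpace ℝ V] [CompleteSpace V]

/-- Proof: if `c` is the family of curves of `F / 2`, put `c' x t = c x (2 t)` for `t ≤ 1 / 2` and
`c' x t = c (c x 1) (2 t - 1)` for `t > 1 / 2`. On `[0, 1/2]` and on `[1/2, 1]` the derivative is
`2 · (F / 2)` (chain rule, `HasDerivWithinAt.scomp`), at `t = 1 / 2` use `HasDerivWithinAt.union`;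
the value at `1` is `x ↦ c (c x 1) 1`, a composition of smooth maps. -/
theorem hasFlow_double {F : V → V} (hF : HasFlow fun x => (2⁻¹ : ℝ) • F x) : HasFlow F := by
  obtain ⟨c, hc, hc'⟩ := hF
  refine ⟨fun x t => if t ≤ 1 / 2 then c x (2 * t) else c (c x 1) (2 * t - 1), ?_, fun x =>
    ⟨?_, fun t ht => ?_⟩⟩
  · have e : (fun x => if (1 : ℝ) ≤ 1 / 2 then c x (2 * 1) else c (c x 1) (2 * 1 - 1)) =
        (fun x => c x 1) ∘ fun x => c x 1 := by
      ext x
      rw [if_neg (by norm_num)]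
      change c (c x 1) (2 * 1 - 1) = c (c x 1) 1
      norm_num
    rw [e]
    exact hc.comp hc
  · change (if (0 : ℝ) ≤ 1 / 2 then c x (2 * 0) else c (c x 1) (2 * 0 - 1)) = x
    rw [if_pos (by norm_num), mul_zero]
    exact (hc' x).1
  · set g : ℝ → V := fun t => if t ≤ 1 / 2 then c x (2 * t) else c (c x 1) (2 * t - 1) with hg
    have g1 : ∀ s ∈ Icc (0 : ℝ) (1 / 2), g s = c x (2 * s) := fun s hs => if_pos hs.2
    have g2 : ∀ s ∈ Icc (1 / 2 : ℝ) 1, g s = c (c x 1) (2 * s - 1) := by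
      intro s hs
      rcases hs.1.lt_or_eq with h | h
      · exact if_neg (not_le.2 h)
      · rw [← h]
        change (if (1 / 2 : ℝ) ≤ 1 / 2 then c x (2 * (1 / 2)) else _) = _
        rw [if_pos le_rfl]
        norm_num
        exact ((hc' (c x 1)).1).symm
    have hu : Icc (0 : ℝ) 1 = Icc 0 (1 / 2) ∪ Icc (1 / 2) 1 :=
      (Icc_union_Icc_eq_Icc (by norm_num) (by norm_num)).symm
    have hval : ∀ y : V, (2 : ℝ) • ((2⁻¹ : ℝ) • F y) = F y := by
      intro y
      rw [smul_smul]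
      norm_num
    change HasDerivWithinAt g (F (g t)) (Icc 0 1) t
    rw [hu]
    refine HasDerivWithinAt.union ?_ ?_
    · by_cases hm : t ∈ Icc (0 : ℝ) (1 / 2)
      · have h1 := (hc' x).2 (2 * t) ⟨by linarith [hm.1], by linarith [hm.2]⟩
        have h2 : HasDerivWithinAt (fun s : ℝ => 2 * s) 2 (Icc 0 (1 / 2)) t := by
          have := ((hasDerivAt_id t).const_mul (2 : ℝ)).hasDerivWithinAt (s := Icc 0 (1 / 2))
          rwa [mul_one] at this
        have hm1 : MapsTo (fun s : ℝ => 2 * s) (Icc (0 : ℝ) (1 / 2)) (Icc (0 : ℝ) 1) :=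
          fun s hs => ⟨by linarith [hs.1], by linarith [hs.2]⟩
        have h3 := HasDerivWithinAt.scomp (t' := Icc (0 : ℝ) 1) (h := fun s : ℝ => 2 * s) t h1 h2
          hm1
        rw [hval] at h3
        rw [g1 t hm]
        exact h3.congr g1 (g1 t hm)
      · have hcl : t ∉ closure (Icc (0 : ℝ) (1 / 2)) := by rwa [isClosed_Icc.closure_eq]
        exact HasFDerivWithinAt.of_notMem_closure hcl
    · by_cases hm : t ∈ Icc (1 / 2 : ℝ) 1
      · have h1 := (hc' (c x 1)).2 (2 * t - 1) ⟨by linarith [hm.1], by linarith [hm.2]⟩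
        have h2 : HasDerivWithinAt (fun s : ℝ => 2 * s - 1) 2 (Icc (1 / 2) 1) t := by
          have := (((hasDerivAt_id t).const_mul (2 : ℝ)).sub_const 1).hasDerivWithinAt
            (s := Icc (1 / 2) 1)
          rwa [mul_one] at this
        have hm1 : MapsTo (fun s : ℝ => 2 * s - 1) (Icc (1 / 2 : ℝ) 1) (Icc (0 : ℝ) 1) :=
          fun s hs => ⟨by linarith [hs.1], by linarith [hs.2]⟩
        have h3 := HasDerivWithinAt.scomp (t' := Icc (0 : ℝ) 1) (h := fun s : ℝ => 2 * s - 1)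
          t h1 h2 hm1
        rw [hval] at h3
        rw [g2 t hm]
        exact h3.congr g2 (g2 t hm)
      · have hcl : t ∉ closure (Icc (1 / 2 : ℝ) 1) := by rwa [isClosed_Icc.closure_eq]
        exact HasFDerivWithinAt.of_notMem_closure hcl

end Pool.Agent.Lib.MP_df705a_gt.Pin.A
end
end

section

/-!
# The Riemannian distance as an abstract distance function
-/

open scoped Manifold ContDiff Topology
open Set Bundle Module Filter MeasureTheory

noncomputable section

namespace Pool.Agent.Lib.MP_df705a_gt.Pin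

variable {E : Type*} [NormedAddCommGroup E] [NormedSpace ℝ E] [FiniteDimensional ℝ E]
  {h : Curv.Coeff E}

theorem isD_dh (hh : Curv.IsMetric h) (hp : Proper h) : IsD (dh h) where
  self := dh_self h
  comm := dh_comm h
  tri := dh_triangle hh
  cont := dh_continuous hh
  proper := hp

theorem bd_dh (h : Curv.Coeff E) (x : E) (r : ℝ) : bd (dh h) x r = ballh h x r := rfl

theorem abs_sub_le_of_rho (hh : Curv.IsMetric h) {ρ : E → ℝ} (hρ : ContDiff ℝ 1 ρ)
    (hρ1 : ∀ x u, (fderiv ℝ ρ x u) ^ 2 ≤ Curv.ip h x u u) (x y : E) :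
    |ρ x - ρ y| ≤ dh h x y := dual hh hρ hρ1 x y

theorem scale_rho (hh : Curv.IsMetric h) {ρ : E → ℝ} (hρ : ContDiff ℝ 1 ρ) (hρ0 : ∀ x, 0 < ρ x)
    (hρ1 : ∀ x u, (fderiv ℝ ρ x u) ^ 2 ≤ Curv.ip h x u u) :
    Scale (dh h) fun x => ρ x / 100 := by
  refine ⟨fun x => by have := hρ0 x; positivity, fun x y => ?_⟩
  have h1 := abs_le.mp (abs_sub_le_of_rho hh hρ hρ1 x y)
  show ρ x / 100 ≤ ρ y / 100 + dh h x y / 100
  linarith [h1.2]

/-- `RicGeAt` is monotone. -/
theorem RicGeAt.mono (hh : Curv.IsMetric h) {κ κ' : ℝ} (hκ : κ ≤ κ') {x : E}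
    (hr : RicGeAt h κ x) : RicGeAt h κ' x := by
  unfold RicGeAt at hr ⊢
  have h1 : ric h x + κ' • h x = (ric h x + κ • h x) + (κ' - κ) • h x := by
    rw [sub_smul]; abel
  rw [h1]
  exact hr.add ((hh.2 x).posSemidef.smul (sub_nonneg.mpr hκ))

theorem RicLeAt.mono (hh : Curv.IsMetric h) {κ κ' : ℝ} (hκ : κ ≤ κ') {x : E}
    (hr : RicLeAt h κ x) : RicLeAt h κ' x := by
  unfold RicLeAt at hr ⊢
  have h1 : κ' • h x - ric h x = (κ • h x - ric h x) + (κ' - κ) • h x := by
    rw [sub_smul]; abel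
  rw [h1]
  exact hr.add ((hh.2 x).posSemidef.smul (sub_nonneg.mpr hκ))

/-- In dimension at most one the Ricci curvature vanishes. -/
theorem ric_eq_zero (hE : finrank ℝ E ≤ 1) (h : Curv.Coeff E) (x : E) : ric h x = 0 := by
  have hs : Subsingleton (Fin (finrank ℝ E)) := by
    rw [Fin.subsingleton_iff_le_one]
    exact hE
  have h1 : ∀ i j k l, Curv.riemann h i j k l x = 0 := by
    intro i j k l
    have hj : j = i := Subsingleton.elim _ _
    subst hj
    unfold Curv.riemann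
    rw [sub_self, zero_add]
    apply Finset.sum_eq_zero
    intro p _
    apply Finset.sum_eq_zero
    intro q _
    ring
  ext j k
  unfold ric
  simp [h1]

theorem ricLeAt_of_finrank_le_one (hE : finrank ℝ E ≤ 1) (hh : Curv.IsMetric h) {κ : ℝ}
    (hκ : 0 ≤ κ) (x : E) : RicLeAt h κ x := by
  unfold RicLeAt
  rw [ric_eq_zero hE, sub_zero]
  exact (hh.2 x).posSemidef.smul hκ

end Pool.Agent.Lib.MP_df705a_gt.Pin
end
end

section

/-!
# TASK L5: the Laplacian of the two point function is `2 n + O(|x - y|²)`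
-/

open scoped ContDiff Topology
open Set Module Filter

noncomputable section

namespace Pool.Agent.Lib.MP_df705a_gt.Perm

open Pool.Agent.Lib.MP_df705a_gt.Twist

variable {E : Type*} [NormedAddCommGroup E] [NormedSpace ℝ E] [FiniteDimensional ℝ E]
  {h : Curv.Coeff E} {R : E × E → ℝ} {U : Set E}

private theorem lt_hB_left (y : E) (i : Fin (finrank ℝ E)) (v : E) :
    hB h y (finBasis ℝ E i) v = ∑ j, h y i j * (finBasis ℝ E).repr v j := by
  unfold hB
  rw [Finset.sum_eq_single i]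
  · refine Finset.sum_congr rfl fun j _ => ?_
    rw [Basis.repr_self, Finsupp.single_eq_same, one_mul]
  · intro k _ hk
    refine Finset.sum_eq_zero fun j _ => ?_
    rw [Basis.repr_self, Finsupp.single_eq_of_ne hk, zero_mul, mul_zero]
  · intro hi
    exact absurd (Finset.mem_univ i) hi

private theorem lt_hB_basis (y : E) (i j : Fin (finrank ℝ E)) :
    hB h y (finBasis ℝ E i) (finBasis ℝ E j) = h y i j := by
  rw [lt_hB_left, Finset.sum_eq_single j]
  · rw [Basis.repr_self, Finsupp.single_eq_same, mul_one]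
  · intro k _ hk
    rw [Basis.repr_self, Finsupp.single_eq_of_ne hk, mul_zero]
  · intro hi
    exact absurd (Finset.mem_univ j) hi

private theorem lt_dB_left (y z : E) (i : Fin (finrank ℝ E)) (v : E) :
    dB h y z (finBasis ℝ E i) v =
      ∑ j, fderiv ℝ (fun x => h x i j) y z * (finBasis ℝ E).repr v j := by
  unfold dB
  rw [Finset.sum_eq_single i]
  · refine Finset.sum_congr rfl fun j _ => ?_
    rw [Basis.repr_self, Finsupp.single_eq_same, one_mul]
  · intro k _ hk
    refine Finset.sum_eq_zero fun j _ => ?_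
    rw [Basis.repr_self, Finsupp.single_eq_of_ne hk, zero_mul, mul_zero]
  · intro hi
    exact absurd (Finset.mem_univ i) hi

private theorem lt_dB_basis (y z : E) (i j : Fin (finrank ℝ E)) :
    dB h y z (finBasis ℝ E i) (finBasis ℝ E j) = fderiv ℝ (fun x => h x i j) y z := by
  rw [lt_dB_left, Finset.sum_eq_single j]
  · rw [Basis.repr_self, Finsupp.single_eq_same, mul_one]
  · intro k _ hk
    rw [Basis.repr_self, Finsupp.single_eq_of_ne hk, mul_zero]
  · intro hi
    exact absurd (Finset.mem_univ j) hi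

private theorem lt_det (D : LocData h R U) {y : E} (hy : y ∈ U) : (h y).det ≠ 0 :=
  (D.h_pos y hy).det_pos.ne'

private theorem lt_symm (D : LocData h R U) {y : E} (hy : y ∈ U) (i j : Fin (finrank ℝ E)) :
    h y i j = h y j i := by
  have h1 := (D.h_pos y hy).isHermitian.apply i j
  simpa using h1.symm

private theorem lt_inv_symm (D : LocData h R U) {y : E} (hy : y ∈ U)
    (i j : Fin (finrank ℝ E)) : (h y)⁻¹ i j = (h y)⁻¹ j i := by
  have h1 := (D.h_pos y hy).isHermitian.inv.apply i j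
  simpa using h1.symm

private theorem lt_inv_mul (D : LocData h R U) {y : E} (hy : y ∈ U)
    (i j : Fin (finrank ℝ E)) :
    ∑ k, (h y)⁻¹ i k * h y k j = (1 : Matrix (Fin (finrank ℝ E)) (Fin (finrank ℝ E)) ℝ) i j := by
  rw [← Matrix.mul_apply, Matrix.nonsing_inv_mul _ (lt_det D hy).isUnit]

theorem LR_diag (D : LocData h R U) {y : E} (hy : y ∈ U) :
    LR h R (y, y) = 2 * (finrank ℝ E : ℝ) := by
  have hq : (y, y) ∈ U ×ˢ U := ⟨hy, hy⟩
  have hP : ∀ q, Curv.pd q (fun x => R (x, y)) y = 0 := by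
    intro q
    have := pd_slice D hq q
    rw [this]
    exact jet_one D hy _
  have hA : ∀ i j, Curv.pd i (Curv.pd j (fun x => R (x, y))) y = 2 * h y j i := by
    intro i j
    have := pd_pd_slice D hq i j
    rw [this, jet_two D hy, lt_hB_basis]
  show lapC h (fun x => R (x, y)) y = _
  unfold lapC Curv.covHess
  simp only [hP, hA, mul_zero, Finset.sum_const_zero, sub_zero]
  have h1 : ∀ i, ∑ j, (h y)⁻¹ i j * (2 * h y j i) = 2 := by
    intro i
    have h2 := lt_inv_mul D hy i i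
    rw [Matrix.one_apply_eq] at h2
    calc ∑ j, (h y)⁻¹ i j * (2 * h y j i) = 2 * ∑ j, (h y)⁻¹ i j * h y j i := by
          rw [Finset.mul_sum]
          refine Finset.sum_congr rfl fun j _ => ?_
          ring
      _ = 2 := by rw [h2, mul_one]
  simp only [h1, Finset.sum_const, Finset.card_univ, Fintype.card_fin, nsmul_eq_mul]
  ring

/-- The derivative of the Laplacian at a critical point. -/
private theorem lt_fderiv_lapC {f : E → ℝ} {y : E} (v : E)
    (hh : ∀ i j, ContDiffAt ℝ ∞ (fun x => h x i j) y) (hdet : (h y).det ≠ 0)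
    (hA : ∀ i j, DifferentiableAt ℝ (Curv.pd i (Curv.pd j f)) y)
    (hP : ∀ q, DifferentiableAt ℝ (Curv.pd q f) y) (hP0 : ∀ q, Curv.pd q f y = 0) :
    fderiv ℝ (lapC h f) y v = ∑ i, ∑ j,
      (fderiv ℝ (fun x => (h x)⁻¹ i j) y v * Curv.pd i (Curv.pd j f) y +
        (h y)⁻¹ i j * (fderiv ℝ (Curv.pd i (Curv.pd j f)) y v -
          ∑ p, ∑ q, (h y)⁻¹ p q * Curv.christoffel h i j p y * fderiv ℝ (Curv.pd q f) y v)) := by
  have hI : ∀ i j, DifferentiableAt ℝ (fun x => (h x)⁻¹ i j) y := fun i j =>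
    (contDiffAt_inv hh hdet i j).differentiableAt (by simp)
  have hG : ∀ i j p, DifferentiableAt ℝ (Curv.christoffel h i j p) y := by
    intro i j p
    have h1 : Curv.christoffel h i j p = fun y => (Curv.pd i (fun y => h y j p) y +
      Curv.pd j (fun y => h y i p) y - Curv.pd p (fun y => h y i j) y) / 2 := rfl
    rw [h1]
    have d1 := Alg.differentiableAt_pd (hh j p) i
    have d2 := Alg.differentiableAt_pd (hh i p) j
    have d3 := Alg.differentiableAt_pd (hh i j) p
    simp only [div_eq_mul_inv]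
    exact ((d1.hasFDerivAt.add d2.hasFDerivAt).sub d3.hasFDerivAt).mul_const _ |>.differentiableAt
  have h2 : HasFDerivAt (lapC h f) (∑ i, ∑ j,
      ((h y)⁻¹ i j • (fderiv ℝ (Curv.pd i (Curv.pd j f)) y -
          ∑ p, ∑ q, (((h y)⁻¹ p q * Curv.christoffel h i j p y) • fderiv ℝ (Curv.pd q f) y +
            Curv.pd q f y • fderiv ℝ (fun x => (h x)⁻¹ p q * Curv.christoffel h i j p x) y)) +
        (Curv.pd i (Curv.pd j f) y - ∑ p, ∑ q, (h y)⁻¹ p q * Curv.christoffel h i j p y *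
          Curv.pd q f y) • fderiv ℝ (fun x => (h x)⁻¹ i j) y)) y := by
    refine HasFDerivAt.fun_sum fun i _ => HasFDerivAt.fun_sum fun j _ => ?_
    refine (hI i j).hasFDerivAt.mul ?_
    refine (hA i j).hasFDerivAt.sub ?_
    refine HasFDerivAt.fun_sum fun p _ => HasFDerivAt.fun_sum fun q _ => ?_
    exact ((hI p q).mul (hG i j p)).hasFDerivAt.mul (hP q).hasFDerivAt
  rw [h2.fderiv]
  simp only [hP0, zero_smul, add_zero, mul_zero, Finset.sum_const_zero, sub_zero,
    _root_.sum_apply, _root_.add_apply, _root_.smul_apply, _root_.sub_apply, smul_eq_mul]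
  refine Finset.sum_congr rfl fun i _ => Finset.sum_congr rfl fun j _ => ?_
  ring

theorem LR_deriv (D : LocData h R U) {y : E} (hy : y ∈ U) (v : E) :
    fderiv ℝ (LR h R) (y, y) (v, 0) = 0 := by
  have hq : (y, y) ∈ U ×ˢ U := ⟨hy, hy⟩
  have hUy : U ∈ 𝓝 y := D.isOpen.mem_nhds hy
  have hR : ContDiffAt ℝ ∞ R (y, y) :=
    D.R_smooth.contDiffAt ((D.isOpen.prod D.isOpen).mem_nhds hq)
  have hh : ∀ i j, ContDiffAt ℝ ∞ (fun x => h x i j) y := fun i j =>
    (D.h_smooth i j).contDiffAt hUy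
  have hdet := lt_det D hy
  -- the first and second derivatives as functions of two variables
  have hW1 : ∀ w : E × E, ContDiffAt ℝ ∞ (fun q => fderiv ℝ R q w) (y, y) := fun w =>
    (hR.fderiv_right (m := ∞) (by simp)).clm_apply contDiffAt_const
  have hW2 : ∀ w w' : E × E,
      ContDiffAt ℝ ∞ (fun q => fderiv ℝ (fun q' => fderiv ℝ R q' w) q w') (y, y) := fun w w' =>
    ((hW1 w).fderiv_right (m := ∞) (by simp)).clm_apply contDiffAt_const
  have e1 : ∀ q, Curv.pd q (fun x => R (x, y)) =ᶠ[𝓝 y]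
      fun x => fderiv ℝ R (x, y) (finBasis ℝ E q, 0) := by
    intro q
    filter_upwards [hUy] with x hx
    exact pd_slice D (q := (x, y)) ⟨hx, hy⟩ q
  have e2 : ∀ i j, Curv.pd i (Curv.pd j (fun x => R (x, y))) =ᶠ[𝓝 y]
      fun x => fderiv ℝ (fun q => fderiv ℝ R q (finBasis ℝ E j, 0)) (x, y)
        (finBasis ℝ E i, 0) := by
    intro i j
    filter_upwards [hUy] with x hx
    exact pd_pd_slice D (q := (x, y)) ⟨hx, hy⟩ i j
  have hs1 : ∀ q, HasFDerivAt (fun x => fderiv ℝ R (x, y) (finBasis ℝ E q, (0 : E)))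
      ((fderiv ℝ (fun q' => fderiv ℝ R q' (finBasis ℝ E q, 0)) (y, y)).comp
        (ContinuousLinearMap.inl ℝ E E)) y := fun q =>
    Alg.slice1_hasFDerivAt (F := fun q' => fderiv ℝ R q' (finBasis ℝ E q, (0 : E)))
      ((hW1 _).differentiableAt (by simp))
  have hs2 : ∀ i j, HasFDerivAt (fun x => fderiv ℝ (fun q => fderiv ℝ R q
      (finBasis ℝ E j, (0 : E))) (x, y) (finBasis ℝ E i, (0 : E)))
      ((fderiv ℝ (fun q' => fderiv ℝ (fun q => fderiv ℝ R q (finBasis ℝ E j, 0)) q'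
        (finBasis ℝ E i, 0)) (y, y)).comp (ContinuousLinearMap.inl ℝ E E)) y := fun i j =>
    Alg.slice1_hasFDerivAt (F := fun q' => fderiv ℝ (fun q => fderiv ℝ R q
      (finBasis ℝ E j, (0 : E))) q' (finBasis ℝ E i, (0 : E)))
      ((hW2 _ _).differentiableAt (by simp))
  have hP : ∀ q, HasFDerivAt (Curv.pd q (fun x => R (x, y)))
      ((fderiv ℝ (fun q' => fderiv ℝ R q' (finBasis ℝ E q, 0)) (y, y)).comp
        (ContinuousLinearMap.inl ℝ E E)) y := fun q => (hs1 q).congr_of_eventuallyEq (e1 q)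
  have hA : ∀ i j, HasFDerivAt (Curv.pd i (Curv.pd j (fun x => R (x, y))))
      ((fderiv ℝ (fun q' => fderiv ℝ (fun q => fderiv ℝ R q (finBasis ℝ E j, 0)) q'
        (finBasis ℝ E i, 0)) (y, y)).comp (ContinuousLinearMap.inl ℝ E E)) y := fun i j =>
    (hs2 i j).congr_of_eventuallyEq (e2 i j)
  have hP0 : ∀ q, Curv.pd q (fun x => R (x, y)) y = 0 := by
    intro q
    have := pd_slice D hq q
    rw [this]
    exact jet_one D hy _
  have hA0 : ∀ i j, Curv.pd i (Curv.pd j (fun x => R (x, y))) y = 2 * h y j i := by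
    intro i j
    have := pd_pd_slice D hq i j
    rw [this, jet_two D hy, lt_hB_basis]
  have hP1 : ∀ q, fderiv ℝ (Curv.pd q (fun x => R (x, y))) y v =
      2 * hB h y (finBasis ℝ E q) v := by
    intro q
    rw [(hP q).fderiv]
    exact jet_two D hy _ _
  have hA1 : ∀ i j, fderiv ℝ (Curv.pd i (Curv.pd j (fun x => R (x, y)))) y v =
      dB h y (finBasis ℝ E j) (finBasis ℝ E i) v + dB h y (finBasis ℝ E i) (finBasis ℝ E j) v +
        dB h y v (finBasis ℝ E j) (finBasis ℝ E i) := by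
    intro i j
    rw [(hA i j).fderiv]
    exact jet_three D hy _ _ _
  have hfd : fderiv ℝ (LR h R) (y, y) (v, 0) = fderiv ℝ (lapC h (fun x => R (x, y))) y v := by
    have h1 := Alg.slice1_fderiv (q := (y, y)) (LR_contDiffAt D hq) v
    rw [← h1]
    rfl
  rw [hfd, lt_fderiv_lapC v hh hdet (fun i j => (hA i j).differentiableAt)
    (fun q => (hP q).differentiableAt) hP0]
  simp only [hA0, hP1, hA1]
  -- the contraction with the Christoffel symbols
  set G := (h y)⁻¹ with hGdef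
  have hGs : ∀ i j, G i j = G j i := lt_inv_symm D hy
  have hGH : ∀ p l, ∑ q, G p q * h y q l =
      (1 : Matrix (Fin (finrank ℝ E)) (Fin (finrank ℝ E)) ℝ) p l := lt_inv_mul D hy
  have hGv : ∀ p, ∑ q, G p q * hB h y (finBasis ℝ E q) v = (finBasis ℝ E).repr v p := by
    intro p
    simp only [lt_hB_left, Finset.mul_sum]
    rw [Finset.sum_comm]
    have h1 : ∀ l, ∑ q, G p q * (h y q l * (finBasis ℝ E).repr v l) =
        (1 : Matrix (Fin (finrank ℝ E)) (Fin (finrank ℝ E)) ℝ) p l *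
          (finBasis ℝ E).repr v l := by
      intro l
      rw [← hGH p l, Finset.sum_mul]
      refine Finset.sum_congr rfl fun q _ => ?_
      ring
    simp only [h1, Matrix.one_apply, ite_mul, one_mul, zero_mul]
    simp
  have hdir : ∀ i j, ∑ p, fderiv ℝ (fun x => h x i j) y (finBasis ℝ E p) *
      (finBasis ℝ E).repr v p = fderiv ℝ (fun x => h x i j) y v := by
    intro i j
    conv_rhs => rw [← (finBasis ℝ E).sum_repr v, map_sum]
    refine Finset.sum_congr rfl fun p _ => ?_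
    rw [map_smul, smul_eq_mul, mul_comm]
  have hchr : ∀ i j, ∑ p, ∑ q, G p q * Curv.christoffel h i j p y *
      (2 * hB h y (finBasis ℝ E q) v) =
      dB h y (finBasis ℝ E i) (finBasis ℝ E j) v + dB h y (finBasis ℝ E j) (finBasis ℝ E i) v -
        fderiv ℝ (fun x => h x i j) y v := by
    intro i j
    have h1 : ∀ p, ∑ q, G p q * Curv.christoffel h i j p y *
        (2 * hB h y (finBasis ℝ E q) v) =
        2 * Curv.christoffel h i j p y * (finBasis ℝ E).repr v p := by
      intro p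
      rw [← hGv p, Finset.mul_sum]
      refine Finset.sum_congr rfl fun q _ => ?_
      ring
    simp only [h1]
    rw [lt_dB_left, lt_dB_left, ← hdir i j, ← Finset.sum_add_distrib, ← Finset.sum_sub_distrib]
    refine Finset.sum_congr rfl fun p _ => ?_
    unfold Curv.christoffel Curv.pd
    ring
  simp only [hchr, lt_dB_basis]
  have hinv : ∀ i j, fderiv ℝ (fun x => (h x)⁻¹ i j) y v =
      -∑ k, ∑ l, G i k * G l j * fderiv ℝ (fun x => h x k l) y v := fun i j =>
    fderiv_inv (fun k l => (hh k l).of_le (by simp)) hdet i j v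
  simp only [hinv]
  set δ : Fin (finrank ℝ E) → Fin (finrank ℝ E) → ℝ :=
    fun k l => fderiv ℝ (fun x => h x k l) y v with hδ
  have hstep : ∀ i j, (-∑ k, ∑ l, G i k * G l j * δ k l) * (2 * h y j i) + G i j *
      (dB h y (finBasis ℝ E j) (finBasis ℝ E i) v + dB h y (finBasis ℝ E i) (finBasis ℝ E j) v +
        δ j i - (dB h y (finBasis ℝ E i) (finBasis ℝ E j) v +
          dB h y (finBasis ℝ E j) (finBasis ℝ E i) v - δ i j)) =
      -2 * (∑ k, ∑ l, G i k * δ k l * (G l j * h y j i)) + (G i j * δ j i + G i j * δ i j) := by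
    intro i j
    have h1 : (-∑ k, ∑ l, G i k * G l j * δ k l) * (2 * h y j i) =
        -2 * (∑ k, ∑ l, G i k * δ k l * (G l j * h y j i)) := by
      rw [neg_mul, Finset.sum_mul, neg_mul, neg_inj, Finset.mul_sum]
      refine Finset.sum_congr rfl fun k _ => ?_
      rw [Finset.sum_mul, Finset.mul_sum]
      refine Finset.sum_congr rfl fun l _ => ?_
      ring
    rw [h1]
    ring
  have hgoal : ∑ i, ∑ j, ((-∑ k, ∑ l, G i k * G l j * δ k l) * (2 * h y j i) + G i j *
      (dB h y (finBasis ℝ E j) (finBasis ℝ E i) v + dB h y (finBasis ℝ E i) (finBasis ℝ E j) v +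
        δ j i - (dB h y (finBasis ℝ E i) (finBasis ℝ E j) v +
          dB h y (finBasis ℝ E j) (finBasis ℝ E i) v - δ i j))) = 0 := by
    simp only [hstep, Finset.sum_add_distrib]
    have h1 : ∑ i, ∑ j, -2 * (∑ k, ∑ l, G i k * δ k l * (G l j * h y j i)) =
        -2 * ∑ i, ∑ k, G i k * δ k i := by
      rw [Finset.mul_sum]
      refine Finset.sum_congr rfl fun i _ => ?_
      rw [← Finset.mul_sum, Finset.sum_comm]
      congr 1
      refine Finset.sum_congr rfl fun k _ => ?_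
      rw [Finset.sum_comm]
      have h2 : ∀ l, ∑ j, G i k * δ k l * (G l j * h y j i) = G i k * δ k l *
          (1 : Matrix (Fin (finrank ℝ E)) (Fin (finrank ℝ E)) ℝ) l i := by
        intro l
        rw [← hGH l i, Finset.mul_sum]
      simp only [h2, Matrix.one_apply, mul_ite, mul_one, mul_zero]
      simp
    have h3 : ∑ i, ∑ j, G i j * δ i j = ∑ i, ∑ j, G i j * δ j i := by
      rw [Finset.sum_comm]
      refine Finset.sum_congr rfl fun i _ => Finset.sum_congr rfl fun j _ => ?_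
      rw [hGs j i]
    rw [h1, h3]
    ring
  exact hgoal

theorem LR_two (D : LocData h R U) {p : E} (hp : p ∈ U) :
    ∃ C : ℝ, ∀ᶠ q : E × E in 𝓝 (p, p),
      |LR h R q - 2 * (finrank ℝ E : ℝ)| ≤ C * ‖q.1 - q.2‖ ^ 2 := by
  have hq : (p, p) ∈ U ×ˢ U := ⟨hp, hp⟩
  have hL := LR_contDiffAt D hq
  refine diag_two (W := fun q => LR h R q - 2 * (finrank ℝ E : ℝ)) (hL.sub contDiffAt_const)
    ?_ ?_
  · filter_upwards [D.isOpen.mem_nhds hp] with y hy
    rw [LR_diag D hy, sub_self]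
  · filter_upwards [D.isOpen.mem_nhds hp] with y hy v
    rw [fderiv_sub_const]
    exact LR_deriv D hy v

end Pool.Agent.Lib.MP_df705a_gt.Perm
end
end

section

/-!
# TASK L8: the local estimates for the two point function
-/

open scoped ContDiff Topology
open Set Module Filter

noncomputable section

namespace Pool.Agent.Lib.MP_df705a_gt.Perm

open Pool.Agent.Lib.MP_df705a_gt.Twist

variable {E : Type*} [NormedAddCommGroup E] [NormedSpace ℝ E] [FiniteDimensional ℝ E]
  {h : Curv.Coeff E} {R : E × E → ℝ} {U : Set E}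

private theorem le_tendsto_swap (p : E) :
    Tendsto (fun q : E × E => (q.2, q.1)) (𝓝 (p, p)) (𝓝 (p, p)) := by
  have h1 : Continuous fun q : E × E => (q.2, q.1) := by fun_prop
  exact h1.tendsto (p, p)

/-- The local estimates: commutators, and lower bound for the gradient. -/
theorem loc_est (D : LocData h R U) {p : E} (hp : p ∈ U) :
    ∃ C c : ℝ, 0 ≤ C ∧ 0 < c ∧ ∀ᶠ q : E × E in 𝓝 (p, p),
      |LR h R q - LR h R (q.2, q.1)| ≤ C * (R q * √(R q)) ∧
      |GR h R q - GR h R (q.2, q.1)| ≤ C * (R q ^ 2 * √(R q)) ∧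
      c * R q ≤ GR h R q := by
  have hpp : (p, p) ∈ U ×ˢ U := ⟨hp, hp⟩
  have hUU : U ×ˢ U ∈ 𝓝 (p, p) := (D.isOpen.prod D.isOpen).mem_nhds hpp
  have hsw := le_tendsto_swap p
  have hswc : ContDiffAt ℝ ∞ (fun q : E × E => (q.2, q.1)) (p, p) :=
    contDiffAt_snd.prodMk contDiffAt_fst
  obtain ⟨CL, hL⟩ := LR_two D hp
  obtain ⟨CG, hG⟩ := GR_four D hp
  obtain ⟨c, C, hc, hb⟩ := R_bounds D hp
  have hLs := hsw.eventually hL
  have hGs := hsw.eventually hG
  -- the two antisymmetric functions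
  obtain ⟨C1, h1⟩ := odd_gain (Φ := fun q => LR h R q - LR h R (q.2, q.1)) (k := 2) (C := 2 * CL)
    (p := p) ((LR_contDiffAt D hpp).sub (ContDiffAt.comp (g := LR h R)
      (f := fun q : E × E => (q.2, q.1)) (p, p) (LR_contDiffAt D hpp) hswc))
    (Eventually.of_forall fun q => by simp) (by decide) (by
      filter_upwards [hL, hLs] with q h1 h2
      have h3 : ‖q.2 - q.1‖ = ‖q.1 - q.2‖ := norm_sub_rev _ _
      simp only [h3] at h2
      have h4 := abs_sub (LR h R q - 2 * (finrank ℝ E : ℝ))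
        (LR h R (q.2, q.1) - 2 * (finrank ℝ E : ℝ))
      rw [sub_sub_sub_cancel_right] at h4
      linarith)
  obtain ⟨C2, h2⟩ := odd_gain (Φ := fun q => GR h R q - GR h R (q.2, q.1)) (k := 4) (C := 2 * CG)
    (p := p) ((GR_contDiffAt D hpp).sub (ContDiffAt.comp (g := GR h R)
      (f := fun q : E × E => (q.2, q.1)) (p, p) (GR_contDiffAt D hpp) hswc))
    (Eventually.of_forall fun q => by simp) (by decide) (by
      filter_upwards [hG, hGs, hUU] with q h1 h2 hq
      have h3 : ‖q.2 - q.1‖ = ‖q.1 - q.2‖ := norm_sub_rev _ _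
      have h5 : R (q.2, q.1) = R q := (D.R_symm q.1 hq.1 q.2 hq.2).symm
      simp only [h3, h5] at h2
      have h4 := abs_sub (GR h R q - 4 * R q) (GR h R (q.2, q.1) - 4 * R q)
      rw [sub_sub_sub_cancel_right] at h4
      linarith)
  have hsmall : ∀ᶠ q : E × E in 𝓝 (p, p), |CG| * ‖q.1 - q.2‖ ^ 2 < c := by
    have h3 : Continuous fun q : E × E => |CG| * ‖q.1 - q.2‖ ^ 2 := by fun_prop
    have h4 := h3.tendsto (p, p)
    simp only [sub_self, norm_zero] at h4
    rw [zero_pow two_ne_zero, mul_zero] at h4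
    exact h4.eventually_lt_const hc
  set s := √c with hs
  have hs0 : 0 < s := Real.sqrt_pos.2 hc
  have hss : s ^ 2 = c := Real.sq_sqrt hc.le
  refine ⟨max (|C1| / (c * s)) (|C2| / (c ^ 2 * s)), 3, ?_, by norm_num, ?_⟩
  · exact le_max_of_le_left (by positivity)
  filter_upwards [h1, h2, hb, hG, hsmall, hUU] with q k1 k2 k3 k4 k5 hq
  obtain ⟨k3, -⟩ := k3
  set N := ‖q.1 - q.2‖ with hN
  have hN0 : 0 ≤ N := norm_nonneg _
  have hR0 : 0 ≤ R q := D.R_nonneg q.1 hq.1 q.2 hq.2
  have hsqrt : s * N ≤ √(R q) := by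
    apply Real.le_sqrt_of_sq_le
    rw [mul_pow, hss]
    exact k3
  have hsq0 : 0 ≤ √(R q) := Real.sqrt_nonneg _
  refine ⟨?_, ?_, ?_⟩
  · have e1 : c * s * N ^ 3 ≤ R q * √(R q) := by
      have := mul_le_mul k3 hsqrt (by positivity) hR0
      calc c * s * N ^ 3 = c * N ^ 2 * (s * N) := by ring
        _ ≤ _ := this
    calc |LR h R q - LR h R (q.2, q.1)| ≤ C1 * N ^ 3 := k1
      _ ≤ |C1| * N ^ 3 := mul_le_mul_of_nonneg_right (le_abs_self _) (by positivity)
      _ = |C1| / (c * s) * (c * s * N ^ 3) := by field_simp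
      _ ≤ |C1| / (c * s) * (R q * √(R q)) := mul_le_mul_of_nonneg_left e1 (by positivity)
      _ ≤ _ := mul_le_mul_of_nonneg_right (le_max_left _ _) (by positivity)
  · have e1 : c ^ 2 * s * N ^ 5 ≤ R q ^ 2 * √(R q) := by
      have h3 : (c * N ^ 2) ^ 2 ≤ R q ^ 2 := pow_le_pow_left₀ (by positivity) k3 2
      have := mul_le_mul h3 hsqrt (by positivity) (by positivity)
      calc c ^ 2 * s * N ^ 5 = (c * N ^ 2) ^ 2 * (s * N) := by ring
        _ ≤ _ := this
    calc |GR h R q - GR h R (q.2, q.1)| ≤ C2 * N ^ 5 := k2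
      _ ≤ |C2| * N ^ 5 := mul_le_mul_of_nonneg_right (le_abs_self _) (by positivity)
      _ = |C2| / (c ^ 2 * s) * (c ^ 2 * s * N ^ 5) := by field_simp
      _ ≤ |C2| / (c ^ 2 * s) * (R q ^ 2 * √(R q)) := mul_le_mul_of_nonneg_left e1 (by positivity)
      _ ≤ _ := mul_le_mul_of_nonneg_right (le_max_right _ _) (by positivity)
  · have e1 : CG * N ^ 4 ≤ R q := by
      calc CG * N ^ 4 ≤ |CG| * N ^ 4 := mul_le_mul_of_nonneg_right (le_abs_self _) (by positivity)
        _ = (|CG| * N ^ 2) * N ^ 2 := by ring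
        _ ≤ c * N ^ 2 := mul_le_mul_of_nonneg_right k5.le (by positivity)
        _ ≤ R q := k3
    have e2 := (abs_le.1 k4).1
    linarith

end Pool.Agent.Lib.MP_df705a_gt.Perm
end
end

section

/-!
# Lower bounds of the Ricci curvature in the sense of Kato: definitions
-/

open scoped Manifold ContDiff Topology
open Set Bundle Module Filter MeasureTheory

noncomputable section

set_option linter.unusedSectionVars false

namespace Pool.Agent.Lib.MP_df705a_gt.Kat

open Pool.Agent.Lib.MP_df705a_gt.Twist Pool.Agent.Lib.MP_df705a_gt.Perm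
open Pool.Agent.Lib.MP_df705a_gt.Pin Pool.Agent.Lib.MP_df705a_gt.Pin.A

variable {E : Type*} [NormedAddCommGroup E] [NormedSpace ℝ E] [FiniteDimensional ℝ E]
  {h : Curv.Coeff E} {W : E → ℝ}

/-- The metric `W² h`. -/
def cm (h : Curv.Coeff E) (W : E → ℝ) : Curv.Coeff E := fun x => (W x ^ 2) • h x

/-- The number `κ - ΔW / (N W)` at the point `x`, where `N` is the dimension. -/
def ta (h : Curv.Coeff E) (W : E → ℝ) (κ : ℝ) (x : E) : ℝ :=
  κ - lapC h W x / ((finrank ℝ E : ℝ) * W x)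

/-- `τ ≥ 0` and `Ric ≥ - τ h` at the point `x`, for `τ = κ - ΔW / (N W)`. -/
def Gd (h : Curv.Coeff E) (W : E → ℝ) (κ : ℝ) (x : E) : Prop :=
  0 ≤ ta h W κ x ∧ RicGeAt h (ta h W κ x) x

theorem Gd.mono (hh : Curv.IsMetric h) {κ κ' : ℝ} (hκ : κ ≤ κ') {x : E} (hx : Gd h W κ x) :
    Gd h W κ' x := by
  have h1 : ta h W κ x ≤ ta h W κ' x := by unfold ta; linarith
  exact ⟨hx.1.trans h1, hx.2.mono hh h1⟩

theorem isMetric_cm (hh : Curv.IsMetric h) (hW : ContDiff ℝ ∞ W) (hW0 : ∀ x, 0 < W x) :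
    Curv.IsMetric (cm h W) := by
  refine ⟨fun i j => ?_, fun x => ?_⟩
  · have h1 : (fun x => cm h W x i j) = fun x => W x ^ 2 * h x i j := rfl
    have h2 := (hW.pow 2).mul (hh.1 i j)
    exact h2
  · exact (hh.2 x).smul (pow_pos (hW0 x) 2)

theorem ip_cm (h : Curv.Coeff E) (W : E → ℝ) (x u v : E) :
    Curv.ip (cm h W) x u v = W x ^ 2 * Curv.ip h x u v := by
  unfold Curv.ip
  rw [Finset.mul_sum]
  refine Finset.sum_congr rfl fun i _ => ?_
  rw [Finset.mul_sum]
  refine Finset.sum_congr rfl fun j _ => ?_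
  have h1 : cm h W x i j = W x ^ 2 * h x i j := rfl
  rw [h1]
  ring

theorem sqrt_ip_cm (h : Curv.Coeff E) {W : E → ℝ} (x u : E) (hW0 : 0 ≤ W x) :
    √ (Curv.ip (cm h W) x u u) = W x * √ (Curv.ip h x u u) := by
  rw [ip_cm, Real.sqrt_mul (sq_nonneg _), Real.sqrt_sq hW0]

theorem nm_cm (h : Curv.Coeff E) {W : E → ℝ} (x u : E) (hW0 : 0 ≤ W x) :
    nm (cm h W) x u = W x * nm h x u := sqrt_ip_cm h x u hW0

theorem sca_cm (h : Curv.Coeff E) (W : E → ℝ) (c : ℝ) : cm (sca c h) W = sca c (cm h W) := by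
  funext x
  exact smul_comm _ _ _

theorem ta_sca (h : Curv.Coeff E) (W : E → ℝ) {c : ℝ} (hc : 0 < c) (κ : ℝ) (x : E) :
    ta (sca c h) W κ x * c = ta h W (κ * c) x := by
  unfold ta
  rw [lapC_sca hc]
  rcases eq_or_ne ((finrank ℝ E : ℝ) * W x) 0 with h0 | h0
  · rw [h0]; simp
  · field_simp

theorem gd_sca (h : Curv.Coeff E) (W : E → ℝ) {c : ℝ} (hc : 0 < c) (κ : ℝ) (x : E) :
    Gd (sca c h) W κ x ↔ Gd h W (κ * c) x := by
  unfold Gd
  rw [ricGeAt_sca hc, ta_sca h W hc]
  have h1 : 0 ≤ ta (sca c h) W κ x ↔ 0 ≤ ta h W (κ * c) x := by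
    rw [← ta_sca h W hc]
    exact (mul_nonneg_iff_of_pos_right hc).symm
  rw [h1]

end Pool.Agent.Lib.MP_df705a_gt.Kat
end
end

section

/-!
# Lower bounds of the Ricci curvature in the sense of Kato: the distance of `W² h`
-/

open scoped Manifold ContDiff Topology
open Set Bundle Module Filter MeasureTheory

noncomputable section

set_option linter.unusedSectionVars false

namespace Pool.Agent.Lib.MP_df705a_gt.Kat

open Pool.Agent.Lib.MP_df705a_gt.Twist Pool.Agent.Lib.MP_df705a_gt.Perm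
open Pool.Agent.Lib.MP_df705a_gt.Pin Pool.Agent.Lib.MP_df705a_gt.Pin.A

variable {E : Type*} [NormedAddCommGroup E] [NormedSpace ℝ E] [FiniteDimensional ℝ E]
  {h h' : Curv.Coeff E} {W : E → ℝ}

theorem dh_le_mul (hh : Curv.IsMetric h) (hh' : Curv.IsMetric h') {c : ℝ} (hc : 0 ≤ c)
    (hle : ∀ x v, √ (Curv.ip h x v v) ≤ c * √ (Curv.ip h' x v v)) (x y : E) :
    dh h x y ≤ c * dh h' x y := by
  have key : ∀ ε : ℝ, 0 < ε → dh h x y ≤ c * (dh h' x y + ε) := by
    intro ε hε
    obtain ⟨γ, hγ, hl⟩ := exists_path h' x y hε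
    have h1 : dh h x y ≤ len h γ := LC1_dh_le_len h hγ
    have h2 : len h γ ≤ c * len h' γ := by
      rw [len_eq, len_eq, ← intervalIntegral.integral_const_mul]
      refine intervalIntegral.integral_mono_on zero_le_one
        (hγ.pw.intervalIntegrable hh zero_le_one)
        ((hγ.pw.intervalIntegrable hh' zero_le_one).const_mul c) fun t _ => ?_
      exact hle (γ t) (deriv γ t)
    exact h1.trans (h2.trans (mul_le_mul_of_nonneg_left hl.le hc))
  refine le_of_forall_pos_le_add fun ε hε => ?_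
  have h2 := key (ε / (c + 1)) (by positivity)
  have h3 : c * (ε / (c + 1)) ≤ ε := by
    rw [mul_div_assoc', div_le_iff₀ (by positivity)]
    nlinarith
  rw [mul_add] at h2
  linarith

theorem dh_le_cm (hh : Curv.IsMetric h) (hW : ContDiff ℝ ∞ W) (hW1 : ∀ x, 1 ≤ W x) (x y : E) :
    dh h x y ≤ dh (cm h W) x y := by
  have hW0 : ∀ x, 0 < W x := fun x => one_pos.trans_le (hW1 x)
  have h1 := dh_le_mul hh (isMetric_cm hh hW hW0) zero_le_one (fun x v => by
    rw [sqrt_ip_cm h x v (hW0 x).le, one_mul]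
    exact le_mul_of_one_le_left (Real.sqrt_nonneg _) (hW1 x)) x y
  rwa [one_mul] at h1

theorem cm_le_dh (hh : Curv.IsMetric h) (hW : ContDiff ℝ ∞ W) (hW0 : ∀ x, 0 < W x) {A : ℝ}
    (hA : 0 ≤ A) (hWA : ∀ x, W x ≤ A) (x y : E) :
    dh (cm h W) x y ≤ A * dh h x y := by
  refine dh_le_mul (isMetric_cm hh hW hW0) hh hA (fun x v => ?_) x y
  rw [sqrt_ip_cm h x v (hW0 x).le]
  exact mul_le_mul_of_nonneg_right (hWA x) (Real.sqrt_nonneg _)

theorem proper_cm (hh : Curv.IsMetric h) (hp : Proper h) (hW : ContDiff ℝ ∞ W)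
    (hW1 : ∀ x, 1 ≤ W x) : Proper (cm h W) := by
  intro x r
  have hW0 : ∀ x, 0 < W x := fun x => one_pos.trans_le (hW1 x)
  have hc : Continuous fun y => dh (cm h W) x y :=
    (continuous_dh (isMetric_cm hh hW hW0)).comp (Continuous.prodMk_right x)
  refine (hp x r).of_isClosed_subset (isClosed_le hc continuous_const) fun y hy => ?_
  exact (dh_le_cm hh hW hW1 x y).trans hy

/-- The inverse matrix of `W² h`. -/
theorem inv_cm (hh : Curv.IsMetric h) {x : E} (hW : W x ≠ 0) (i j : Fin (finrank ℝ E)) :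
    (cm h W x)⁻¹ i j = (W x ^ 2)⁻¹ * (h x)⁻¹ i j := by
  have h0 : (h x).det ≠ 0 := (hh.2 x).det_pos.ne'
  have h1 : (cm h W x)⁻¹ = (W x ^ 2)⁻¹ • (h x)⁻¹ := by
    apply Matrix.inv_eq_right_inv
    show ((W x ^ 2) • h x) * ((W x ^ 2)⁻¹ • (h x)⁻¹) = 1
    rw [Matrix.smul_mul, Matrix.mul_smul, Matrix.mul_nonsing_inv _ (isUnit_iff_ne_zero.mpr h0),
      smul_smul, mul_inv_cancel₀ (pow_ne_zero 2 hW), one_smul]
  rw [h1, Matrix.smul_apply, smul_eq_mul]

theorem gradC_cm (hh : Curv.IsMetric h) {x : E} (hW : W x ≠ 0) (u v : E → ℝ) :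
    gradC h u v x = W x ^ 2 * gradC (cm h W) u v x := by
  unfold gradC
  rw [Finset.mul_sum]
  refine Finset.sum_congr rfl fun i _ => ?_
  rw [Finset.mul_sum]
  refine Finset.sum_congr rfl fun j _ => ?_
  rw [inv_cm hh hW]
  field_simp

end Pool.Agent.Lib.MP_df705a_gt.Kat
end
end
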