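import Mathlib
import Pool.Agent.Lib.MP_df705a_gt.Mg.G066
import Pool.Agent.Lib.MP_df705a_gt.Mg.G001

section

/-!
# TASK T3: iterated cones stay in compact sets, and are continuous
-/

open scoped Topology ContDiff
open Set MeasureTheory

noncomputable section

namespace Pool.Agent.Lib.MP_df705a_gt.Pin

variable {E : Type*} [NormedAddCommGroup E] [NormedSpace ℝ E] {C : E → ℝ → E → E}

/-- Induction on the list: the time lies in `[0, 1]` (if the denominator is `0` the quotient is `0`)
and `C x` maps the compact set `[0, 1] × K₁` onto a compact set. -/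
theorem exists_compact (hC : IsCone C) (vs : List E) {K₀ : Set E} (hK : IsCompact K₀) :
    ∃ K₁ : Set E, IsCompact K₁ ∧ ∀ L : List (E × ℝ), L.map Prod.fst = vs → (∀ p ∈ L, 0 ≤ p.2) →
      ∀ y ∈ K₀, ∀ τ : ℝ, 0 ≤ τ → Psi C L y τ ∈ K₁ := by
  induction vs with
  | nil =>
    refine ⟨K₀, hK, fun L hL _ y hy τ _ => ?_⟩
    have h0 : L = [] := List.map_eq_nil_iff.mp hL
    rw [h0]
    exact hy
  | cons v vs ih =>
    obtain ⟨K₁, hK₁, h⟩ := ih
    refine ⟨(fun p : ℝ × E => C v p.1 p.2) '' (Icc (0 : ℝ) 1 ×ˢ K₁),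
      (isCompact_Icc.prod hK₁).image (hC.smooth v).continuous, fun L hL hp y hy τ hτ => ?_⟩
    cases L with
    | nil => simp at hL
    | cons p L =>
      rw [List.map_cons, List.cons.injEq] at hL
      have h1 : Psi C L y τ ∈ K₁ :=
        h L hL.2 (fun q hq => hp q (List.mem_cons_of_mem _ hq)) y hy τ hτ
      have h2 : 0 ≤ p.2 := hp p List.mem_cons_self
      have h3 : 0 ≤ (L.map Prod.snd).sum := by
        refine List.sum_nonneg fun a ha => ?_
        obtain ⟨q, hq, rfl⟩ := List.mem_map.mp ha
        exact hp q (List.mem_cons_of_mem _ hq)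
      refine ⟨(p.2 / (p.2 + (L.map Prod.snd).sum + τ), Psi C L y τ),
        ⟨⟨div_nonneg h2 (by linarith), div_le_one_of_le₀ (by linarith) (by linarith)⟩, h1⟩, ?_⟩
      change C v _ _ = C p.1 _ _
      rw [hL.1]

private theorem t3_sum {X J : Type*} (v : J → E) (js : List J) (φ : J → X → ℝ) (x : X) :
    ((js.map fun j => (v j, φ j x)).map Prod.snd).sum = (js.map fun j => φ j x).sum := by
  rw [List.map_map]
  rfl

private theorem t3_cont_sum {X : Type*} [TopologicalSpace X] {J : Type*} (js : List J)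
    (φ : J → X → ℝ) (S : Set X) (hφ : ∀ j ∈ js, ContinuousOn (φ j) S) :
    ContinuousOn (fun x => (js.map fun j => φ j x).sum) S := by
  induction js with
  | nil =>
    simp only [List.map_nil, List.sum_nil]
    exact continuousOn_const
  | cons j js ih =>
    simp only [List.map_cons, List.sum_cons]
    exact (hφ j List.mem_cons_self).add (ih fun i hi => hφ i (List.mem_cons_of_mem _ hi))

/-- Continuity where the total weight is positive. Proof by induction on the list `js`. At the point
`x`: if the weight of the tail (with `τ`) is positive at `x` then the tail is continuous at `x` by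
induction and the quotient is continuous. Otherwise the weight `φ j x` of the head is positive and
the time `s` tends to `1`; the tail may be discontinuous, but near `x` it stays in a compact set
`K₁` (`exists_compact` with `K₀` a compact neighbourhood of `b x`; `E` is finite dimensional), and
`C v s z → v` as `s → 1`, uniformly for `z ∈ K₁` (tube lemma, `generalized_tube_lemma`; see the
proof of `exists_extend_contractible` in `Lib/MP_df705a_gt/CoverExtend.lean` for the same
argument). -/
theorem continuousWithinAt_Psi [FiniteDimensional ℝ E] (hC : IsCone C) {X : Type*}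
    [TopologicalSpace X] {J : Type*} (v : J → E) (js : List J) (φ : J → X → ℝ) (b : X → E)
    (τ : X → ℝ) (S : Set X) (hφ : ∀ j ∈ js, ContinuousOn (φ j) S)
    (hφ0 : ∀ j ∈ js, ∀ x ∈ S, 0 ≤ φ j x) (hb : ContinuousOn b S) (hτ : ContinuousOn τ S)
    (hτ0 : ∀ x ∈ S, 0 ≤ τ x) (x : X) (hx : x ∈ S)
    (hpos : 0 < ((js.map fun j => φ j x).sum + τ x)) :
    ContinuousWithinAt (fun x => Psi C (js.map fun j => (v j, φ j x)) (b x) (τ x)) S x := by
  induction js with
  | nil => exact hb x hx
  | cons j js ih =>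
    have hφj : ContinuousOn (φ j) S := hφ j List.mem_cons_self
    have hφs : ∀ i ∈ js, ContinuousOn (φ i) S := fun i hi => hφ i (List.mem_cons_of_mem _ hi)
    have hφ0s : ∀ i ∈ js, ∀ x ∈ S, 0 ≤ φ i x := fun i hi => hφ0 i (List.mem_cons_of_mem _ hi)
    have hsum := t3_cont_sum js φ S hφs
    have hsum0 : ∀ x ∈ S, 0 ≤ (js.map fun i => φ i x).sum := by
      intro x hx
      refine List.sum_nonneg fun a ha => ?_
      obtain ⟨i, hi, rfl⟩ := List.mem_map.mp ha
      exact hφ0s i hi x hx
    rw [List.map_cons, List.sum_cons] at hpos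
    -- the time
    have hs : ContinuousWithinAt
        (fun x => φ j x / (φ j x + (js.map fun i => φ i x).sum + τ x)) S x :=
      (hφj x hx).div (((hφj x hx).add (hsum x hx)).add (hτ x hx)) hpos.ne'
    have hfun : (fun x => Psi C ((j :: js).map fun j => (v j, φ j x)) (b x) (τ x)) =
        fun x => C (v j) (φ j x / (φ j x + (js.map fun i => φ i x).sum + τ x))
          (Psi C (js.map fun j => (v j, φ j x)) (b x) (τ x)) := by
      funext x
      change C (v j) (φ j x / (φ j x + ((js.map fun j => (v j, φ j x)).map Prod.snd).sum + τ x))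
        _ = _
      rw [t3_sum]
    rw [hfun]
    have hCc : Continuous fun p : ℝ × E => C (v j) p.1 p.2 := (hC.smooth (v j)).continuous
    rcases (add_nonneg (hsum0 x hx) (hτ0 x hx)).lt_or_eq with h1 | h1
    · -- the tail is continuous
      have h2 := ih hφs hφ0s h1
      exact hCc.continuousAt.comp_continuousWithinAt (hs.prodMk h2)
    · -- the time tends to `1`
      have hx1 : φ j x / (φ j x + (js.map fun i => φ i x).sum + τ x) = 1 := by
        rw [add_assoc, ← h1, add_zero]
        refine div_self ?_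
        have : 0 < φ j x := by linarith
        exact this.ne'
      have hval : C (v j) (φ j x / (φ j x + (js.map fun i => φ i x).sum + τ x))
          (Psi C (js.map fun j => (v j, φ j x)) (b x) (τ x)) = v j := by
        rw [hx1, hC.one]
      have hs' : Filter.Tendsto
          (fun x => φ j x / (φ j x + (js.map fun i => φ i x).sum + τ x)) (𝓝[S] x) (𝓝 1) := by
        rw [← hx1]
        exact hs
      change Filter.Tendsto _ (𝓝[S] x)
        (𝓝 (C (v j) (φ j x / (φ j x + (js.map fun i => φ i x).sum + τ x))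
          (Psi C (js.map fun j => (v j, φ j x)) (b x) (τ x))))
      rw [hval]
      have : ProperSpace E := FiniteDimensional.proper_real E
      obtain ⟨K₁, hK₁, hK₁'⟩ := exists_compact hC (js.map v) (isCompact_closedBall (b x) 1)
      have hev : ∀ᶠ x' in 𝓝[S] x, Psi C (js.map fun j => (v j, φ j x')) (b x') (τ x') ∈ K₁ := by
        have hb' : ∀ᶠ x' in 𝓝[S] x, b x' ∈ Metric.closedBall (b x) 1 :=
          (hb x hx) (Metric.closedBall_mem_nhds _ one_pos)
        filter_upwards [hb', self_mem_nhdsWithin] with x' h3 h4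
        refine hK₁' _ ?_ ?_ _ h3 _ (hτ0 x' h4)
        · rw [List.map_map]
          rfl
        · intro p hp
          obtain ⟨i, hi, rfl⟩ := List.mem_map.mp hp
          exact hφ0s i hi x' h4
      intro V hV
      obtain ⟨V', hV'V, hV'o, hV'm⟩ := mem_nhds_iff.mp hV
      have hn : IsOpen ((fun p : ℝ × E => C (v j) p.1 p.2) ⁻¹' V') := hV'o.preimage hCc
      obtain ⟨A, B, hA, _, hA1, hB1, hAB⟩ := generalized_tube_lemma
        (isCompact_singleton (x := (1 : ℝ))) hK₁ hn (by
          rintro ⟨s, z⟩ ⟨hs1, _⟩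
          change s ∈ ({1} : Set ℝ) at hs1
          rw [mem_singleton_iff] at hs1
          change C (v j) s z ∈ V'
          rw [hs1, hC.one]
          exact hV'm)
      have hsA : ∀ᶠ x' in 𝓝[S] x,
          φ j x' / (φ j x' + (js.map fun i => φ i x').sum + τ x') ∈ A :=
        hs' (hA.mem_nhds (hA1 rfl))
      rw [Filter.mem_map]
      filter_upwards [hsA, hev] with x' h3 h4
      exact hV'V (hAB (mk_mem_prod h3 (hB1 h4)))

end Pool.Agent.Lib.MP_df705a_gt.Pin
end
end

section

/-!
# TASK T1: cones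
-/

open scoped Topology ContDiff
open Set MeasureTheory

noncomputable section

namespace Pool.Agent.Lib.MP_df705a_gt.Pin

variable {E : Type*} [NormedAddCommGroup E] [NormedSpace ℝ E] [FiniteDimensional ℝ E]
  {d : E → E → ℝ} {K : Set E} {G G' : E → E → E}

theorem CoCpt.isCone (hG : CoCpt d K G G') : IsCone (cone G G') := by
  refine ⟨fun x => ?_, fun x y => ?_, fun x y => ?_⟩
  · have h1 : ContDiff ℝ 1 fun p : ℝ × E => G' x p.2 := (hG.smooth' x).comp contDiff_snd
    have h2 : ContDiff ℝ 1 fun p : ℝ × E => (1 - p.1) • G' x p.2 + p.1 • G' x x :=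
      ((contDiff_const.sub contDiff_fst).smul h1).add (contDiff_fst.smul contDiff_const)
    exact (hG.smooth x).comp h2
  · unfold cone
    rw [sub_zero, one_smul, zero_smul, add_zero, hG.left]
  · unfold cone
    rw [sub_self, zero_smul, one_smul, zero_add, hG.left]

/-- Uniform contractibility. Proof: `G' x x ∈ K` and `d (G' x x) (G' x y) = d x y ≤ r` (apply `iso`
to `G' x x`, `G' x y`), so both points lie in the compact set
`B = {z | ∃ w ∈ K, d w z ≤ r} ∪ K`: it is contained in `{z | d w₀ z ≤ r + sup_K d w₀}` for `w₀ ∈ K`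
(`IsD.proper`; if `K` is empty there is no `x`). The closed convex hull of a compact set in a finite
dimensional space is compact (`IsCompact.convexHull` or a closed ball containing it: closed balls
are compact and convex), and `d` is bounded on the product of two compact sets. Finally
`d x (cone x s y) = d (G' x x) ((1 - s) • G' x y + s • G' x x)`. -/
theorem CoCpt.exists_bound (hd : IsD d) (hG : CoCpt d K G G') (r : ℝ) :
    ∃ R : ℝ, ∀ x y, d x y ≤ r → ∀ s ∈ Icc (0 : ℝ) 1, d x (cone G G' x s y) ≤ R := by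
  by_cases hK : K.Nonempty
  swap
  · exact ⟨0, fun x _ _ _ _ => absurd ⟨_, hG.mem x⟩ hK⟩
  obtain ⟨w0, hw0⟩ := hK
  have hdc : Continuous fun y => d w0 y := hd.cont.comp (Continuous.prodMk_right w0)
  obtain ⟨M, hM⟩ := hG.cpt.exists_bound_of_continuousOn hdc.continuousOn
  have hcpt := hd.proper w0 (M + r)
  obtain ⟨ρ, hρ⟩ := hcpt.isBounded.subset_closedBall (0 : E)
  -- K is also in a ball
  obtain ⟨ρ', hρ'⟩ := hG.cpt.isBounded.subset_closedBall (0 : E)
  have hB' : IsCompact (Metric.closedBall (0 : E) (max ρ ρ') ×ˢ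
      Metric.closedBall (0 : E) (max ρ ρ')) :=
    (isCompact_closedBall _ _).prod (isCompact_closedBall _ _)
  obtain ⟨R, hR⟩ := hB'.exists_bound_of_continuousOn (hd.cont.continuousOn)
  refine ⟨R, ?_⟩
  intro x y hxy s hs
  have ha : G' x x ∈ K := hG.mem x
  have hab : d (G' x x) (G' x y) = d x y := by
    rw [← hG.iso x (G' x x) (G' x y), hG.left, hG.left]
  have hb1 : d w0 (G' x y) ≤ M + r := by
    have h1 := hd.tri w0 (G' x x) (G' x y)
    have h2 := hM _ ha
    rw [Real.norm_eq_abs] at h2
    have h3 := le_abs_self (d w0 (G' x x))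
    linarith
  have hb2 : G' x y ∈ Metric.closedBall (0 : E) (max ρ ρ') :=
    Metric.closedBall_subset_closedBall (le_max_left _ _) (hρ hb1)
  have ha2 : G' x x ∈ Metric.closedBall (0 : E) (max ρ ρ') :=
    Metric.closedBall_subset_closedBall (le_max_right _ _) (hρ' ha)
  have hc2 : (1 - s) • G' x y + s • G' x x ∈ Metric.closedBall (0 : E) (max ρ ρ') :=
    convex_closedBall (0 : E) (max ρ ρ') hb2 ha2 (by linarith [hs.2]) hs.1 (by ring)
  have hd1 : d x (cone G G' x s y) = d (G' x x) ((1 - s) • G' x y + s • G' x x) := by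
    rw [← hG.iso x (G' x x), hG.left]
    rfl
  rw [hd1]
  have h4 := hR (G' x x, (1 - s) • G' x y + s • G' x x) ⟨ha2, hc2⟩
  rw [Real.norm_eq_abs] at h4
  exact (le_abs_self _).trans h4

end Pool.Agent.Lib.MP_df705a_gt.Pin
end
end

section

/-!
# TASK T2: algebra of iterated cones
-/

open scoped Topology ContDiff
open Set MeasureTheory

noncomputable section

namespace Pool.Agent.Lib.MP_df705a_gt.Pin

variable {E : Type*} [NormedAddCommGroup E] [NormedSpace ℝ E] {C : E → ℝ → E → E}

private theorem T2_sum_filter (L : List (E × ℝ)) :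
    ((L.filter fun p => decide (p.2 ≠ 0)).map Prod.snd).sum = (L.map Prod.snd).sum := by
  induction L with
  | nil => rfl
  | cons p L ih =>
    by_cases h : p.2 = 0
    · rw [List.filter_cons_of_neg (by simp [h]), ih, List.map_cons, List.sum_cons, h, zero_add]
    · rw [List.filter_cons_of_pos (by simp [h]), List.map_cons, List.sum_cons, ih, List.map_cons,
        List.sum_cons]

private theorem T2_sum_smul (L : List (E × ℝ)) (c : ℝ) :
    ((L.map fun p => (p.1, c * p.2)).map Prod.snd).sum = c * (L.map Prod.snd).sum := by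
  induction L with
  | nil => simp
  | cons p L ih =>
    rw [List.map_cons, List.map_cons, List.sum_cons, ih, List.map_cons, List.sum_cons, mul_add]

/-- Entries with weight zero can be dropped: for them the time is `0 / _ = 0` and `C x 0 y = y`. -/
theorem Psi_filter (hC : IsCone C) (L : List (E × ℝ)) (y : E) (τ : ℝ) :
    Psi C (L.filter fun p => decide (p.2 ≠ 0)) y τ = Psi C L y τ := by
  induction L with
  | nil => rfl
  | cons p L ih =>
    by_cases h : p.2 = 0
    · rw [List.filter_cons_of_neg (by simp [h]), ih]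
      show Psi C L y τ = C p.1 (p.2 / (p.2 + (L.map Prod.snd).sum + τ)) (Psi C L y τ)
      rw [h, zero_div, hC.zero]
    · rw [List.filter_cons_of_pos (by simp [h])]
      show C p.1 (p.2 / (p.2 + ((L.filter fun p => decide (p.2 ≠ 0)).map Prod.snd).sum + τ))
        (Psi C (L.filter fun p => decide (p.2 ≠ 0)) y τ) =
        C p.1 (p.2 / (p.2 + (L.map Prod.snd).sum + τ)) (Psi C L y τ)
      rw [ih, T2_sum_filter]

theorem Psi_of_zero (hC : IsCone C) (L : List (E × ℝ)) (hL : ∀ p ∈ L, p.2 = 0) (y : E) (τ : ℝ) :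
    Psi C L y τ = y := by
  induction L with
  | nil => rfl
  | cons p L ih =>
    show C p.1 (p.2 / (p.2 + (L.map Prod.snd).sum + τ)) (Psi C L y τ) = y
    rw [hL p List.mem_cons_self, zero_div, hC.zero]
    exact ih (fun q hq => hL q (List.mem_cons_of_mem _ hq))

/-- The last entry of the list as last vertex. -/
theorem Psi_append (hC : IsCone C) (L : List (E × ℝ)) (v y : E) {t : ℝ} (ht : 0 < t) :
    Psi C (L ++ [(v, t)]) y 0 = Psi C L v t := by
  induction L with
  | nil =>
    show C v (t / (t + (([] : List (E × ℝ)).map Prod.snd).sum + 0)) y = v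
    rw [List.map_nil, List.sum_nil, add_zero, add_zero, div_self ht.ne', hC.one]
  | cons p L ih =>
    show C p.1 (p.2 / (p.2 + ((L ++ [(v, t)]).map Prod.snd).sum + 0)) (Psi C (L ++ [(v, t)]) y 0) =
      C p.1 (p.2 / (p.2 + (L.map Prod.snd).sum + t)) (Psi C L v t)
    rw [ih, List.map_append, List.sum_append, List.map_cons, List.map_nil, List.sum_cons,
      List.sum_nil, add_zero, add_zero, add_assoc]

/-- Homogeneity. -/
theorem Psi_smul (L : List (E × ℝ)) (y : E) (τ : ℝ) {c : ℝ} (hc : 0 < c) :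
    Psi C (L.map fun p => (p.1, c * p.2)) y (c * τ) = Psi C L y τ := by
  induction L with
  | nil => rfl
  | cons p L ih =>
    show C p.1 (c * p.2 / (c * p.2 + ((L.map fun p => (p.1, c * p.2)).map Prod.snd).sum + c * τ))
      (Psi C (L.map fun p => (p.1, c * p.2)) y (c * τ)) =
      C p.1 (p.2 / (p.2 + (L.map Prod.snd).sum + τ)) (Psi C L y τ)
    rw [ih, T2_sum_smul, ← mul_add, ← mul_add, mul_div_mul_left _ _ hc.ne']

end Pool.Agent.Lib.MP_df705a_gt.Pin
end
end

section

/-!
# TASK T4: displacement of iterated cones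
-/

open scoped Topology ContDiff
open Set MeasureTheory

noncomputable section

namespace Pool.Agent.Lib.MP_df705a_gt.Pin

variable {E : Type*} [NormedAddCommGroup E] [NormedSpace ℝ E] [FiniteDimensional ℝ E]
  {d : E → E → ℝ} {K : Set E} {G G' : E → E → E}

private theorem T4_aux (hd : IsD d) (hG : CoCpt d K G G') (D : ℝ) (m : ℕ) :
    ∃ R : ℝ, ∀ (x : E) (L : List (E × ℝ)) (τ : ℝ), 0 ≤ τ → (∀ p ∈ L, 0 < p.2) →
      (∀ p ∈ L, d x p.1 ≤ D) → L.length ≤ m →
      d x (Psi (cone G G') L x τ) ≤ R := by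
  induction m with
  | zero =>
    refine ⟨0, fun x L τ _ _ _ hlen => ?_⟩
    have hL : L = [] := List.length_eq_zero_iff.mp (Nat.le_zero.mp hlen)
    rw [hL, Psi, hd.self]
  | succ m ih =>
    obtain ⟨Rm, hRm⟩ := ih
    obtain ⟨R', hR'⟩ := hG.exists_bound hd (D + Rm)
    refine ⟨max 0 (D + R'), fun x L τ hτ hpos hD hlen => ?_⟩
    cases L with
    | nil =>
      rw [Psi, hd.self]
      exact le_max_left _ _
    | cons p L' =>
      have hpos' : ∀ q ∈ L', 0 < q.2 := fun q hq => hpos q (List.mem_cons_of_mem _ hq)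
      have hD' : ∀ q ∈ L', d x q.1 ≤ D := fun q hq => hD q (List.mem_cons_of_mem _ hq)
      have hlen' : L'.length ≤ m := by
        rw [List.length_cons] at hlen
        omega
      have h1 := hRm x L' τ hτ hpos' hD' hlen'
      have hp : 0 < p.2 := hpos p List.mem_cons_self
      have hDp : d x p.1 ≤ D := hD p List.mem_cons_self
      have hsum : 0 ≤ (L'.map Prod.snd).sum := by
        apply List.sum_nonneg
        intro a ha
        obtain ⟨q, hq, rfl⟩ := List.mem_map.mp ha
        exact (hpos' q hq).le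
      have hs : p.2 / (p.2 + (L'.map Prod.snd).sum + τ) ∈ Icc (0 : ℝ) 1 := by
        constructor
        · positivity
        · rw [div_le_one (by positivity)]
          linarith
      have h2 : d p.1 (Psi (cone G G') L' x τ) ≤ D + Rm := by
        have h3 := hd.tri p.1 x (Psi (cone G G') L' x τ)
        rw [hd.comm p.1 x] at h3
        linarith
      have h4 := hR' p.1 (Psi (cone G G') L' x τ) h2 _ hs
      rw [Psi]
      refine le_trans ?_ (le_max_right _ _)
      have h5 := hd.tri x p.1
        (cone G G' p.1 (p.2 / (p.2 + (L'.map Prod.snd).sum + τ)) (Psi (cone G G') L' x τ))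
      linarith

/-- Bounded displacement. Proof: by `Psi_filter` one may assume that all weights are positive, and
that the list has length `≤ m`. Induction on `m`: `R 0 = 0`, and
`d x (C v s z) ≤ d x v + d v (C v s z) ≤ D + R'` where `R'` is the bound of `CoCpt.exists_bound` for
`r = D + R m` (`d v z ≤ d v x + d x z`); the time is in `[0, 1]`. -/
theorem exists_displacement (hd : IsD d) (hG : CoCpt d K G G') (D : ℝ) (m : ℕ) :
    ∃ R : ℝ, ∀ (x : E) (L : List (E × ℝ)) (τ : ℝ), 0 ≤ τ → (∀ p ∈ L, 0 ≤ p.2) →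
      (∀ p ∈ L, p.2 ≠ 0 → d x p.1 ≤ D) → (L.filter fun p => decide (p.2 ≠ 0)).length ≤ m →
      d x (Psi (cone G G') L x τ) ≤ R := by
  obtain ⟨R, hR⟩ := T4_aux hd hG D m
  refine ⟨R, fun x L τ hτ hpos hD hlen => ?_⟩
  rw [← Psi_filter hG.isCone L x τ]
  refine hR x _ τ hτ ?_ ?_ hlen
  · intro p hp
    obtain ⟨h1, h2⟩ := List.mem_filter.mp hp
    exact lt_of_le_of_ne (hpos p h1) (Ne.symm (of_decide_eq_true h2))
  · intro p hp
    obtain ⟨h1, h2⟩ := List.mem_filter.mp hp
    exact hD p h1 (of_decide_eq_true h2)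

end Pool.Agent.Lib.MP_df705a_gt.Pin
end
end

section

/-!
# TASK T5: the images of simplices of low dimension are small
-/

open scoped Topology ContDiff
open Set MeasureTheory Module

noncomputable section

namespace Pool.Agent.Lib.MP_df705a_gt.Pin

variable {E : Type*} [NormedAddCommGroup E] [NormedSpace ℝ E] [FiniteDimensional ℝ E]
  {C : E → ℝ → E → E}

/-- The open simplex with vertices `w 0, ..., w (m-1), v` is a `C¹` image of an open orthant of
`ℝ^m`. Induction on `m` (`List.ofFn_succ`): the denominators are positive. -/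
theorem contDiffOn_Psi (hC : IsCone C) (m : ℕ) (w : Fin m → E) (v : E) :
    ContDiffOn ℝ 1 (fun u : Fin m → ℝ => Psi C (List.ofFn fun i => (w i, u i)) v 1)
      {u | ∀ i, 0 < u i} := by
  induction m with
  | zero =>
    have h : (fun u : Fin 0 → ℝ => Psi C (List.ofFn fun i => (w i, u i)) v 1) = fun _ => v := by
      funext u
      rw [List.ofFn_zero, Psi]
    rw [h]
    exact contDiffOn_const
  | succ m ih =>
    have hpr : ContDiff ℝ 1 (fun u : Fin (m + 1) → ℝ => fun i : Fin m => u i.succ) :=
      contDiff_pi.mpr fun i => contDiff_apply ℝ ℝ i.succ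
    have h1 := ih (fun i => w i.succ)
    have h2 : ContDiffOn ℝ 1 (fun u : Fin (m + 1) → ℝ =>
        Psi C (List.ofFn fun i : Fin m => (w i.succ, u i.succ)) v 1) {u | ∀ i, 0 < u i} :=
      h1.comp hpr.contDiffOn (fun u hu i => hu i.succ)
    have h3 : ContDiffOn ℝ 1 (fun u : Fin (m + 1) → ℝ =>
        u 0 / (u 0 + (∑ i : Fin m, u i.succ) + 1)) {u | ∀ i, 0 < u i} := by
      apply ContDiffOn.div
      · exact (contDiff_apply ℝ ℝ (0 : Fin (m + 1))).contDiffOn
      · apply ContDiff.contDiffOn
        refine ((contDiff_apply ℝ ℝ (0 : Fin (m + 1))).add ?_).add contDiff_const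
        exact ContDiff.sum fun i _ => contDiff_apply ℝ ℝ i.succ
      · intro u hu
        have h4 : 0 ≤ ∑ i : Fin m, u i.succ := Finset.sum_nonneg fun i _ => (hu i.succ).le
        have h5 := hu 0
        positivity
    have h6 := (hC.smooth (w 0)).comp_contDiffOn (h3.prodMk h2)
    refine h6.congr ?_
    intro u _
    simp only [Function.comp]
    rw [List.ofFn_succ, Psi, List.map_ofFn, List.sum_ofFn]
    rfl

/-- The set covered by the simplices with at most `n` vertices in the finite set `V`, where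
`n ≤ dim E`, has dense complement. Proof: a point `Psi C L v t` of the set has `L` of length
`m < n`; by `Psi_smul` with `c = 1 / t` it is `Psi C (ofFn (w i, u i)) v 1` with `w i ∈ V`,
`v ∈ V` and `u i > 0`. So the set is contained in the union over `m < n`, `w : Fin m → V`, `v ∈ V`
(countably many) of images of the convex open orthant of `Fin m → ℝ`; by
`ContDiffOn.dimH_image_le` (convex set) each has Hausdorff dimension `≤ m < dim E`
(`Real.dimH_univ_eq_finrank` / `dimH_mono`), so the union has dimension `< dim E`: use `dimH_iUnion`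
and that it is `≤ n - 1`. Conclude with `dense_compl_of_dimH_lt_finrank`. -/
theorem dense_compl_simplices (hC : IsCone C) {n : ℕ} (hn : n ≤ finrank ℝ E) {V : Set E}
    (hV : V.Finite) :
    Dense {z : E | ∃ (L : List (E × ℝ)) (v : E) (t : ℝ), L.length < n ∧ v ∈ V ∧ 0 < t ∧
      (∀ p ∈ L, p.1 ∈ V ∧ 0 < p.2) ∧ z = Psi C L v t}ᶜ := by
  rcases Nat.eq_zero_or_pos n with rfl | hn0
  · have h0 : {z : E | ∃ (L : List (E × ℝ)) (v : E) (t : ℝ), L.length < 0 ∧ v ∈ V ∧ 0 < t ∧
      (∀ p ∈ L, p.1 ∈ V ∧ 0 < p.2) ∧ z = Psi C L v t} = ∅ := by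
      ext z
      simp
    rw [h0, compl_empty]
    exact dense_univ
  have hVc : Countable V := hV.countable.to_subtype
  have hsub : {z : E | ∃ (L : List (E × ℝ)) (v : E) (t : ℝ), L.length < n ∧ v ∈ V ∧ 0 < t ∧
      (∀ p ∈ L, p.1 ∈ V ∧ 0 < p.2) ∧ z = Psi C L v t} ⊆
      ⋃ (i : Σ m : Fin n, (Fin (m : ℕ) → V) × V),
        (fun u : Fin (i.1 : ℕ) → ℝ =>
          Psi C (List.ofFn fun j => ((i.2.1 j : E), u j)) (i.2.2 : E) 1) ''
          {u | ∀ j, 0 < u j} := by
    rintro z ⟨L, v, t, hlen, hv, ht, hL, rfl⟩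
    rw [mem_iUnion]
    refine ⟨⟨⟨L.length, hlen⟩, fun j => ⟨(L.get j).1, (hL _ (L.get_mem j)).1⟩, ⟨v, hv⟩⟩,
      fun j => 1 / t * (L.get j).2, ?_, ?_⟩
    · intro j
      have h1 := (hL _ (L.get_mem j)).2
      positivity
    · have h1 := Psi_smul (C := C) L v t (c := 1 / t) (by positivity)
      rw [one_div_mul_cancel ht.ne'] at h1
      have h2 : (List.ofFn fun j : Fin L.length => ((L.get j).1, 1 / t * (L.get j).2)) =
          L.map fun p => (p.1, 1 / t * p.2) := by
        conv_rhs => rw [← List.ofFn_get L]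
        rw [List.map_ofFn]
        rfl
      simp only
      rw [← h1, ← h2]
  apply dense_compl_of_dimH_lt_finrank
  refine (dimH_mono hsub).trans_lt ?_
  rw [dimH_iUnion]
  have hle : (⨆ (i : Σ m : Fin n, (Fin (m : ℕ) → V) × V),
      dimH ((fun u : Fin (i.1 : ℕ) → ℝ =>
          Psi C (List.ofFn fun j => ((i.2.1 j : E), u j)) (i.2.2 : E) 1) ''
          {u | ∀ j, 0 < u j})) ≤ ((n - 1 : ℕ) : ENNReal) := by
    apply iSup_le
    intro i
    have hconv : Convex ℝ {u : Fin (i.1 : ℕ) → ℝ | ∀ j, 0 < u j} := by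
      intro x hx y hy a b ha hb hab j
      rcases eq_or_lt_of_le ha with h | h
      · have hb1 : b = 1 := by linarith
        rw [← h, hb1]
        simpa using hy j
      · have h1 : 0 < a * x j := mul_pos h (hx j)
        have h2 : 0 ≤ b * y j := mul_nonneg hb (hy j).le
        show 0 < a * x j + b * y j
        linarith
    refine ((contDiffOn_Psi hC (i.1 : ℕ) (fun j => (i.2.1 j : E)) (i.2.2 : E)).dimH_image_le
      hconv Subset.rfl).trans ?_
    refine (dimH_mono (subset_univ _)).trans ?_
    rw [Real.dimH_univ_pi_fin]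
    have h3 : (i.1 : ℕ) ≤ n - 1 := by
      have := i.1.2
      omega
    exact_mod_cast h3
  refine hle.trans_lt ?_
  have h4 : n - 1 < finrank ℝ E := by omega
  exact_mod_cast h4

end Pool.Agent.Lib.MP_df705a_gt.Pin
end
end

section

/-!
# TASK T6: finite partitions of unity
-/

open scoped Topology ContDiff
open Set MeasureTheory

noncomputable section

namespace Pool.Agent.Lib.MP_df705a_gt.Pin

/-- distance to the complement -/
def T6_g {E : Type*} [MetricSpace E] (U : Set E) (x : E) : ℝ :=
  haveI := Classical.propDecidable (Uᶜ = ∅)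
  if Uᶜ = ∅ then 1 else Metric.infDist x Uᶜ

theorem T6_g_cont {E : Type*} [MetricSpace E] (U : Set E) : Continuous (T6_g U) := by
  unfold T6_g
  split_ifs
  · exact continuous_const
  · exact Metric.continuous_infDist_pt _

theorem T6_g_nonneg {E : Type*} [MetricSpace E] (U : Set E) (x : E) : 0 ≤ T6_g U x := by
  unfold T6_g
  split_ifs
  · exact zero_le_one
  · exact Metric.infDist_nonneg

theorem T6_g_mem {E : Type*} [MetricSpace E] (U : Set E) (x : E) (h : T6_g U x ≠ 0) : x ∈ U := by
  unfold T6_g at h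
  split_ifs at h with hU
  · rw [Set.compl_empty_iff] at hU
    rw [hU]
    trivial
  · by_contra hx
    exact h (Metric.infDist_zero_of_mem hx)

theorem T6_g_pos {E : Type*} [MetricSpace E] {U : Set E} (hU : IsOpen U) {x : E} (h : x ∈ U) :
    0 < T6_g U x := by
  unfold T6_g
  split_ifs with hU'
  · exact zero_lt_one
  · have hne : (Uᶜ).Nonempty := Set.nonempty_iff_ne_empty.2 hU'
    exact (hU.isClosed_compl.notMem_iff_infDist_pos hne).1 (by simpa using h)

/-- A compact set `B` covered by open sets has a finite partition of unity by functions with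
supports in different sets of the cover. Proof: finite subcover `s` (a `Finset (Set E)` contained in
`𝒰`), `PartitionOfUnity.exists_isSubordinate` for the closed set `B` and the family
`fun U : s => U` (a metric space is normal and paracompact), or the explicit functions
`infDist x Uᶜ / ∑` multiplied with nothing (they are nonnegative; the sum is positive on `B`; to get
functions continuous on all of `E` divide by `max (sum) (small constant)`...). The functions are
needed only on `B`. -/
theorem exists_partition {E : Type*} [MetricSpace E] {𝒰 : Set (Set E)}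
    (ho : ∀ U ∈ 𝒰, IsOpen U) (hc : ⋃₀ 𝒰 = univ) {B : Set E} (hB : IsCompact B) :
    ∃ (s : Finset (Set E)) (φ : Set E → E → ℝ), (s : Set (Set E)) ⊆ 𝒰 ∧ (∀ U ∈ s, U.Nonempty) ∧
      (∀ U ∈ s, ContinuousOn (φ U) B) ∧ (∀ U ∈ s, ∀ x ∈ B, 0 ≤ φ U x) ∧
      (∀ U ∈ s, ∀ x ∈ B, φ U x ≠ 0 → x ∈ U) ∧ ∀ x ∈ B, ∑ U ∈ s, φ U x = 1 := by
  classical
  obtain ⟨b, hb, hbf, hcov⟩ := hB.elim_finite_subcover_image (b := 𝒰) (c := id) ho
    (by
      intro x _
      have hx : x ∈ ⋃₀ 𝒰 := by rw [hc]; trivial
      obtain ⟨U, hU, hxU⟩ := hx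
      exact Set.mem_biUnion hU hxU)
  let s : Finset (Set E) := hbf.toFinset.filter fun U => U.Nonempty
  have hs : ∀ U ∈ s, U ∈ 𝒰 ∧ U.Nonempty := by
    intro U hU
    rw [Finset.mem_filter, Set.Finite.mem_toFinset] at hU
    exact ⟨hb hU.1, hU.2⟩
  have hpos : ∀ x ∈ B, 0 < ∑ V ∈ s, T6_g V x := by
    intro x hx
    obtain ⟨U, hU, hxU⟩ := Set.mem_iUnion₂.1 (hcov hx)
    have hUs : U ∈ s := by
      rw [Finset.mem_filter, Set.Finite.mem_toFinset]
      exact ⟨hU, ⟨x, hxU⟩⟩
    exact Finset.sum_pos' (fun V _ => T6_g_nonneg V x) ⟨U, hUs, T6_g_pos (ho U (hb hU)) hxU⟩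
  refine ⟨s, fun U x => T6_g U x / ∑ V ∈ s, T6_g V x, fun U hU => (hs U hU).1,
    fun U hU => (hs U hU).2, ?_, ?_, ?_, ?_⟩
  · intro U _
    apply ContinuousOn.div (T6_g_cont U).continuousOn
    · exact (continuous_finsetSum s fun V _ => T6_g_cont V).continuousOn
    · intro x hx
      exact (hpos x hx).ne'
  · intro U _ x hx
    exact div_nonneg (T6_g_nonneg U x) (hpos x hx).le
  · intro U _ x _ h
    apply T6_g_mem
    intro h0
    exact h (by simp only [h0, zero_div])
  · intro x hx
    simp only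
    rw [← Finset.sum_div]
    exact div_self (hpos x hx).ne'

end Pool.Agent.Lib.MP_df705a_gt.Pin
end
end

section

/-!
# The triangular wave
-/

open Set

noncomputable section

namespace Pool.Agent.Lib.MP_df705a_gt.Pin

/-- The triangular wave of period `2 * L` with values between `0` (at `0`) and `1` (at `L`). -/
def wave (L t : ℝ) : ℝ := 2 * |t / (2 * L) - round (t / (2 * L))|

theorem wave_nonneg (L t : ℝ) : 0 ≤ wave L t := by
  unfold wave
  positivity

theorem wave_le_one (L t : ℝ) : wave L t ≤ 1 := by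
  unfold wave
  have := abs_sub_round (t / (2 * L))
  linarith

theorem wave_lip {L : ℝ} (hL : 0 < L) (t t' : ℝ) : |wave L t - wave L t'| ≤ |t - t'| / L := by
  have key : ∀ u v : ℝ, |u - round u| ≤ |v - round v| + |u - v| := by
    intro u v
    refine (round_le u (round v)).trans ?_
    have h1 : u - round v = (v - round v) + (u - v) := by ring
    rw [h1]
    exact abs_add_le _ _
  have h1 := key (t / (2 * L)) (t' / (2 * L))
  have h2 := key (t' / (2 * L)) (t / (2 * L))
  have h3 : |t / (2 * L) - t' / (2 * L)| = |t - t'| / (2 * L) := by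
    rw [← sub_div, abs_div, abs_of_pos (by positivity : (0 : ℝ) < 2 * L)]
  rw [abs_sub_comm (t' / (2 * L)) (t / (2 * L)), h3] at h2
  rw [h3] at h1
  have h4 : |t - t'| / L = 2 * (|t - t'| / (2 * L)) := by field_simp
  rw [h4, abs_le]
  unfold wave
  constructor <;> linarith

/-- On an interval where the wave is positive. -/
theorem wave_pos_bdd {L : ℝ} (hL : 0 < L) {I : Set ℝ} (hI : IsPreconnected I)
    (h : ∀ t ∈ I, 0 < wave L t) {t t' : ℝ} (ht : t ∈ I) (ht' : t' ∈ I) : |t - t'| ≤ 2 * L := by
  have key : ∀ t t', t ∈ I → t' ∈ I → t - t' ≤ 2 * L := by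
    intro t t' ht ht'
    by_contra hlt
    push Not at hlt
    -- the integer `k = ⌈t' / (2 L)⌉` gives the point `2 L k` between `t'` and `t`
    have h1 : t' / (2 * L) ≤ ⌈t' / (2 * L)⌉ := Int.le_ceil _
    have h2 : (⌈t' / (2 * L)⌉ : ℝ) < t' / (2 * L) + 1 := Int.ceil_lt_add_one _
    have h3 : t' ≤ 2 * L * ⌈t' / (2 * L)⌉ := by
      have := mul_le_mul_of_nonneg_left h1 (by positivity : (0 : ℝ) ≤ 2 * L)
      rwa [mul_div_cancel₀ _ (by positivity : (2 * L : ℝ) ≠ 0)] at this
    have h4 : 2 * L * (⌈t' / (2 * L)⌉ : ℝ) ≤ t := by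
      have := mul_lt_mul_of_pos_left h2 (by positivity : (0 : ℝ) < 2 * L)
      rw [mul_add, mul_div_cancel₀ _ (by positivity : (2 * L : ℝ) ≠ 0)] at this
      linarith
    have h5 : 2 * L * (⌈t' / (2 * L)⌉ : ℝ) ∈ I := hI.ordConnected.out ht' ht ⟨h3, h4⟩
    have h6 := h _ h5
    unfold wave at h6
    rw [mul_div_cancel_left₀ _ (by positivity : (2 * L : ℝ) ≠ 0), round_intCast, sub_self,
      abs_zero, mul_zero] at h6
    exact lt_irrefl _ h6
  rw [abs_le]
  have h1 := key t t' ht ht'
  have h2 := key t' t ht' ht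
  constructor <;> linarith

/-- On an interval where the wave is less than one. -/
theorem wave_lt_bdd {L : ℝ} (hL : 0 < L) {I : Set ℝ} (hI : IsPreconnected I)
    (h : ∀ t ∈ I, wave L t < 1) {t t' : ℝ} (ht : t ∈ I) (ht' : t' ∈ I) : |t - t'| ≤ 2 * L := by
  have key : ∀ t t', t ∈ I → t' ∈ I → t - t' ≤ 2 * L := by
    intro t t' ht ht'
    by_contra hlt
    push Not at hlt
    have h1 : t' / (2 * L) - 1 / 2 ≤ ⌈t' / (2 * L) - 1 / 2⌉ := Int.le_ceil _
    have h2 : (⌈t' / (2 * L) - 1 / 2⌉ : ℝ) < t' / (2 * L) - 1 / 2 + 1 := Int.ceil_lt_add_one _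
    set k : ℤ := ⌈t' / (2 * L) - 1 / 2⌉ with hk
    have h3 : t' ≤ 2 * L * (k + 1 / 2) := by
      have := mul_le_mul_of_nonneg_left h1 (by positivity : (0 : ℝ) ≤ 2 * L)
      rw [mul_sub, mul_div_cancel₀ _ (by positivity : (2 * L : ℝ) ≠ 0)] at this
      linarith
    have h4 : 2 * L * ((k : ℝ) + 1 / 2) ≤ t := by
      have := mul_lt_mul_of_pos_left h2 (by positivity : (0 : ℝ) < 2 * L)
      rw [mul_add, mul_sub, mul_div_cancel₀ _ (by positivity : (2 * L : ℝ) ≠ 0)] at this
      linarith
    have h5 : 2 * L * ((k : ℝ) + 1 / 2) ∈ I := hI.ordConnected.out ht' ht ⟨h3, h4⟩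
    have h6 := h _ h5
    unfold wave at h6
    rw [mul_div_cancel_left₀ _ (by positivity : (2 * L : ℝ) ≠ 0)] at h6
    have h7 : (1 / 2 : ℝ) ≤ |(k : ℝ) + 1 / 2 - round ((k : ℝ) + 1 / 2)| := by
      have h8 : (k : ℝ) + 1 / 2 - round ((k : ℝ) + 1 / 2) =
          ((k - round ((k : ℝ) + 1 / 2) : ℤ) : ℝ) + 1 / 2 := by
        push_cast
        ring
      rw [h8]
      rcases le_or_gt 0 (k - round ((k : ℝ) + 1 / 2)) with h9 | h9
      · have h10 : (0 : ℝ) ≤ ((k - round ((k : ℝ) + 1 / 2) : ℤ) : ℝ) := by exact_mod_cast h9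
        exact le_trans (by linarith) (le_abs_self _)
      · have h10 : ((k - round ((k : ℝ) + 1 / 2) : ℤ) : ℝ) ≤ -1 := by exact_mod_cast (by omega)
        exact le_trans (by linarith) (neg_le_abs _)
    linarith
  rw [abs_le]
  have h1 := key t t' ht ht'
  have h2 := key t' t ht' ht
  constructor <;> linarith

end Pool.Agent.Lib.MP_df705a_gt.Pin
end
end
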