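import Pool.Agent.Lib.MP_df705a_gt.Mg.G009
import Pool.Agent.Lib.MP_df705a_gt.Mg.G010
import Pool.Agent.Lib.MP_df705a_gt.Mg.G060
import Pool.Agent.Lib.MP_df705a_gt.Mg.G023

section

/-!
# TASK A3: the barrier
-/

open scoped ContDiff Topology
open Set Filter MeasureTheory

noncomputable section

namespace Pool.Agent.Lib.MP_df705a_gt.Perm

variable {M : Type*} [TopologicalSpace M]

/-- A smooth convex truncation: `T = 0` on `(-∞, 0]`, `0 ≤ T'`, `T'` is nondecreasing and
positive on `(0, ∞)`. Take the primitive of `Real.smoothTransition`. -/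
theorem exists_trunc : ∃ T : ℝ → ℝ, ContDiff ℝ ∞ T ∧ (∀ x ≤ 0, T x = 0) ∧
    (∀ x, 0 ≤ T x) ∧ (∀ x, 0 ≤ deriv T x) ∧ (∀ x, deriv T x ≤ 1) ∧ (∀ x, 0 < x → 0 < deriv T x) ∧
    (∀ x, 0 ≤ deriv (deriv T) x) ∧ Monotone (deriv T) ∧ (∀ x, 0 ≤ x → T x ≤ x * deriv T x) := by
  set T : ℝ → ℝ := fun x => ∫ t in (0 : ℝ)..x, Real.smoothTransition t with hT
  have hd : ∀ x, HasDerivAt T (Real.smoothTransition x) x := fun x =>
    intervalIntegral.integral_hasDerivAt_right
      (Real.smoothTransition.continuous.intervalIntegrable _ _)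
      (Real.smoothTransition.continuous.stronglyMeasurableAtFilter _ _)
      Real.smoothTransition.continuous.continuousAt
  have hdT : deriv T = Real.smoothTransition := funext fun x => (hd x).deriv
  have hz : ∀ x ≤ 0, T x = 0 := by
    intro x hx
    rw [hT]
    simp only
    rw [intervalIntegral.integral_congr (g := fun _ => (0 : ℝ))]
    · simp
    · intro t ht
      rw [uIcc_of_ge hx] at ht
      exact Real.smoothTransition.zero_of_nonpos ht.2
  refine ⟨T, ?_, hz, ?_, ?_, ?_, ?_, ?_, ?_, ?_⟩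
  · rw [contDiff_infty_iff_deriv, hdT]
    exact ⟨fun x => (hd x).differentiableAt, Real.smoothTransition.contDiff⟩
  · intro x
    rcases le_total x 0 with hx | hx
    · rw [hz x hx]
    · exact intervalIntegral.integral_nonneg hx fun t _ => Real.smoothTransition.nonneg t
  · intro x
    rw [hdT]
    exact Real.smoothTransition.nonneg x
  · intro x
    rw [hdT]
    exact Real.smoothTransition.le_one x
  · intro x hx
    rw [hdT]
    exact Real.smoothTransition.pos_of_pos hx
  · intro x
    rw [hdT]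
    exact Real.smoothTransition.monotone.deriv_nonneg
  · rw [hdT]
    exact Real.smoothTransition.monotone
  · intro x hx
    rw [hdT]
    have h1 : T x ≤ ∫ _t in (0 : ℝ)..x, Real.smoothTransition x :=
      intervalIntegral.integral_mono_on hx
        (Real.smoothTransition.continuous.intervalIntegrable _ _)
        (continuous_const.intervalIntegrable _ _)
        fun t ht => Real.smoothTransition.monotone ht.2
    simpa using h1

private lemma barrier_ker_pos (N : ℕ) {s t : ℝ} (hs : 0 < s) (ht : 0 ≤ t) : 0 < ker N s t := by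
  unfold ker
  have : 0 < t + s := by linarith
  positivity

private lemma barrier_ker_anti (N : ℕ) {s t t' : ℝ} (hs : 0 < s) (ht : 0 ≤ t) (h : t ≤ t') :
    ker N s t' ≤ ker N s t := by
  unfold ker
  have h1 : 0 < t + s := by linarith
  exact inv_anti₀ (by positivity) (pow_le_pow_left₀ h1.le (by linarith) N)

/-- The gap between two values of the kernel. -/
private lemma barrier_ker_gap {N : ℕ} (hN : 1 ≤ N) {s t r : ℝ} (hs : 0 < s) (hs1 : s ≤ 1)
    (hr : 0 < r) (ht0 : 0 ≤ t) (ht : t ≤ r / 2) :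
    (r / 2) / (r + 1) ^ (N + 1) ≤ ker N s t - ker N s r := by
  obtain ⟨n, rfl⟩ : ∃ n, N = n + 1 := ⟨N - 1, by omega⟩
  have hp : 0 < r / 2 + s := by linarith
  have hq : 0 < r + s := by linarith
  have h1 : ker (n + 1) s (r / 2) ≤ ker (n + 1) s t := barrier_ker_anti _ hs ht0 ht
  have h2 : (r / 2) / (r + 1) ^ (n + 1 + 1) ≤ ker (n + 1) s (r / 2) - ker (n + 1) s r := by
    unfold ker
    have hpq : (r / 2 + s) ^ (n + 1) ≤ (r / 2 + s) * (r + s) ^ n := by
      rw [pow_succ, mul_comm]
      exact mul_le_mul_of_nonneg_left (pow_le_pow_left₀ hp.le (by linarith) n) hp.le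
    have h3 : (r / 2) * (r + s) ^ n ≤ (r + s) ^ (n + 1) - (r / 2 + s) ^ (n + 1) := by
      have : (r + s) ^ (n + 1) = (r + s) * (r + s) ^ n := by ring
      rw [this]
      nlinarith
    have h4 : ((r / 2 + s) ^ (n + 1))⁻¹ - ((r + s) ^ (n + 1))⁻¹ =
        ((r + s) ^ (n + 1) - (r / 2 + s) ^ (n + 1)) / ((r / 2 + s) ^ (n + 1) * (r + s) ^ (n + 1)) := by
      field_simp
    rw [h4]
    have h5 : (r / 2) / ((r / 2 + s) ^ (n + 1) * (r + s)) ≤
        ((r + s) ^ (n + 1) - (r / 2 + s) ^ (n + 1)) / ((r / 2 + s) ^ (n + 1) * (r + s) ^ (n + 1)) := by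
      have h6 : (r / 2) / ((r / 2 + s) ^ (n + 1) * (r + s)) =
          ((r / 2) * (r + s) ^ n) / ((r / 2 + s) ^ (n + 1) * (r + s) ^ (n + 1)) := by
        rw [pow_succ (r + s) n]
        field_simp
      rw [h6]
      exact div_le_div_of_nonneg_right h3 (by positivity)
    refine le_trans ?_ h5
    apply div_le_div_of_nonneg_left (by positivity) (by positivity)
    calc (r / 2 + s) ^ (n + 1) * (r + s) ≤ (r + 1) ^ (n + 1) * (r + 1) := by
          apply mul_le_mul (pow_le_pow_left₀ hp.le (by linarith) _) (by linarith) hq.le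
          positivity
      _ = (r + 1) ^ (n + 1 + 1) := by ring
  linarith

/-- **The barrier estimate** for a supersolution measure `ν`. -/
theorem barrier [CompactSpace M] [T2Space M] [SecondCountableTopology M] [MeasurableSpace M]
    [BorelSpace M] (A : LapSys M) {c : ℝ} (hc : 0 < c) {V : M → ℝ} (hV : Continuous V)
    (ν : Measure M) [IsFiniteMeasure ν]
    (hν : ∀ u ∈ A.S, (∀ x, 0 < u x) → 0 ≤ ∫ x, A.op c V u x ∂ν) :
    ∃ (N : ℕ) (r₀ κ : ℝ), 0 < r₀ ∧ 0 < κ ∧ ∀ (y : M) (s : ℝ), 0 < s → s ≤ 1 →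
      κ * s ^ N * ν.real {x | s ≤ A.rho x y ∧ A.rho x y ≤ r₀} ≤ ν.real {x | A.rho x y < s} := by
  obtain ⟨T, hTs, hT0, hTn, hT1, hT1', hTp, hT2, hTm, hTx⟩ := exists_trunc
  have hTd0 : ∀ x ≤ 0, deriv T x = 0 := by
    intro x hx
    apply IsLocalMin.deriv_eq_zero
    exact Eventually.of_forall fun y => by rw [hT0 x hx]; exact hTn y
  obtain ⟨c1, r, hc1, hr, h3⟩ := A.est3
  obtain ⟨C2, hC2p, hC2⟩ : ∃ C2 : ℝ, 0 ≤ C2 ∧ ∀ x y, |A.Lap (fun z => A.rho z y) x| ≤ C2 := by
    obtain ⟨C, hC⟩ := (isCompact_univ (X := M × M)).exists_bound_of_continuousOn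
      A.lapRho_cont.continuousOn
    exact ⟨max C 0, le_max_right _ _, fun x y => (hC (x, y) (mem_univ _)).trans (le_max_left _ _)⟩
  obtain ⟨Vm, hVmp, hVm⟩ : ∃ Vm : ℝ, 0 ≤ Vm ∧ ∀ x, |V x| ≤ Vm := by
    obtain ⟨C, hC⟩ := (isCompact_univ (X := M)).exists_bound_of_continuousOn hV.continuousOn
    exact ⟨max C 0, le_max_right _ _, fun x => (hC x (mem_univ _)).trans (le_max_left _ _)⟩
  obtain ⟨n, hn⟩ := exists_nat_ge ((2 * C2 + 1) / c1)
  set N₀ : ℕ := n + 1 with hN₀
  have hN1 : 1 ≤ N₀ := by omega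
  have hN1' : (1 : ℝ) ≤ N₀ := by exact_mod_cast hN1
  have hNc : 2 * C2 + 1 ≤ (N₀ + 1) * c1 := by
    rw [div_le_iff₀ hc1] at hn
    have : (N₀ : ℝ) = n + 1 := by rw [hN₀]; push_cast; ring
    rw [this]
    nlinarith
  set r₁ : ℝ := min r (c / (8 * (Vm + 1))) with hr₁
  have hr₁p : 0 < r₁ := by
    rw [hr₁]
    apply lt_min hr
    positivity
  have hr₁r : r₁ ≤ r := min_le_left _ _
  have hr₁V : 8 * Vm * r₁ ≤ c := by
    have h1 : r₁ ≤ c / (8 * (Vm + 1)) := min_le_right _ _
    rw [le_div_iff₀ (by positivity)] at h1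
    nlinarith
  set C3 : ℝ := c * N₀ * C2 + Vm with hC3
  have hC3p : 0 ≤ C3 := by positivity
  set g₀ : ℝ := (r₁ / 2) / (r₁ + 1) ^ (N₀ + 1) with hg₀
  have hg₀p : 0 < g₀ := by positivity
  set τ₀ : ℝ := deriv T g₀ with hτ₀
  have hτ₀p : 0 < τ₀ := hTp _ hg₀p
  set c' : ℝ := τ₀ * ((c * N₀ / 4) * ((r₁ + 1) ^ (N₀ + 1))⁻¹) with hc'
  have hc'p : 0 < c' := by positivity
  refine ⟨N₀ + 1, r₁ / 2, c' / (C3 + 1), by positivity, by positivity, ?_⟩
  intro y s hs hs1
  have hf0 : ∀ x, 0 ≤ A.rho x y := fun x => rho_nonneg A x y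
  have hfS : (fun x => A.rho x y) ∈ A.S := A.rho_mem y
  have hwS : (fun x => ker N₀ s (A.rho x y)) ∈ A.S := ker_mem A N₀ hs y
  have hgS : (fun x => ker N₀ s (A.rho x y) + (- ker N₀ s r₁)) ∈ A.S :=
    A.add_mem _ hwS _ (A.const_mem _)
  set g : M → ℝ := fun x => ker N₀ s (A.rho x y) + (- ker N₀ s r₁) with hg
  set u : M → ℝ := fun x => T (g x) with hu
  have huS : u ∈ A.S := A.comp_mem g hgS T fun x => hTs.contDiffAt
  have hLw : ∀ x, A.Lap (fun x => ker N₀ s (A.rho x y)) x =
      -(N₀ * ker (N₀ + 1) s (A.rho x y)) * A.Lap (fun x => A.rho x y) x +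
        N₀ * (N₀ + 1) * ker (N₀ + 2) s (A.rho x y) * A.Gam (fun x => A.rho x y) x := by
    intro x
    rw [A.lap_comp _ hfS (ker N₀ s) (fun x => ker_contDiffAt N₀ hs (hf0 x)) x,
      deriv_ker N₀ hs (hf0 x), deriv_deriv_ker N₀ hs (hf0 x)]
  have hLg : ∀ x, A.Lap g x = A.Lap (fun x => ker N₀ s (A.rho x y)) x := by
    intro x
    rw [hg, A.lap_add _ hwS _ (A.const_mem _), A.lap_const, add_zero]
  have hLu : ∀ x, A.Lap u x = deriv T (g x) * A.Lap g x + deriv (deriv T) (g x) * A.Gam g x :=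
    fun x => A.lap_comp g hgS T (fun x => hTs.contDiffAt) x
  have hop : ∀ x, A.op c V u x = -c * (deriv T (g x) * A.Lap g x) -
      c * (deriv (deriv T) (g x) * A.Gam g x) + V x * T (g x) := by
    intro x
    unfold LapSys.op
    rw [hLu]
    ring
  have hcGam : ∀ x, 0 ≤ c * (deriv (deriv T) (g x) * A.Gam g x) := fun x =>
    mul_nonneg hc.le (mul_nonneg (hT2 _) (A.gam_nonneg g hgS x))
  -- far away
  have hA : ∀ x, r₁ ≤ A.rho x y → A.op c V u x ≤ 0 := by
    intro x hx
    have h1 : g x ≤ 0 := by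
      have := barrier_ker_anti N₀ hs hr₁p.le hx
      simp only [hg]
      linarith
    have h4 := hcGam x
    rw [hop, hTd0 _ h1, hT0 _ h1]
    linarith
  -- the expression
  have hB : ∀ x, A.rho x y ≤ r₁ → A.op c V u x ≤ deriv T (g x) *
      (ker (N₀ + 2) s (A.rho x y) * (c * N₀ * (A.rho x y + s) * A.Lap (fun x => A.rho x y) x -
        c * N₀ * (N₀ + 1) * A.Gam (fun x => A.rho x y) x + Vm * (A.rho x y + s) ^ 2)) := by
    intro x hx
    have hg0 : 0 ≤ g x := by
      have := barrier_ker_anti N₀ hs (hf0 x) hx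
      simp only [hg]
      linarith
    have hgk : g x ≤ ker N₀ s (A.rho x y) := by
      have := barrier_ker_pos N₀ hs hr₁p.le
      simp only [hg]
      linarith
    have h4 := hcGam x
    have h5 : V x * T (g x) ≤ Vm * (ker N₀ s (A.rho x y) * deriv T (g x)) := by
      calc V x * T (g x) ≤ |V x| * T (g x) := mul_le_mul_of_nonneg_right (le_abs_self _) (hTn _)
        _ ≤ Vm * T (g x) := mul_le_mul_of_nonneg_right (hVm x) (hTn _)
        _ ≤ Vm * (g x * deriv T (g x)) := mul_le_mul_of_nonneg_left (hTx _ hg0) hVmp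
        _ ≤ Vm * (ker N₀ s (A.rho x y) * deriv T (g x)) :=
          mul_le_mul_of_nonneg_left (mul_le_mul_of_nonneg_right hgk (hT1 _)) hVmp
    have ha : 0 < A.rho x y + s := by linarith [hf0 x]
    have hk1 : ker (N₀ + 1) s (A.rho x y) = (A.rho x y + s) * ker (N₀ + 2) s (A.rho x y) := by
      unfold ker
      rw [pow_succ (A.rho x y + s) (N₀ + 1)]
      field_simp
    have hk0 : ker N₀ s (A.rho x y) = (A.rho x y + s) ^ 2 * ker (N₀ + 2) s (A.rho x y) := by
      unfold ker
      rw [pow_add (A.rho x y + s) N₀ 2]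
      field_simp
    rw [hop, hLg, hLw]
    have h6 : -c * (deriv T (g x) * (-(N₀ * ker (N₀ + 1) s (A.rho x y)) *
        A.Lap (fun x => A.rho x y) x + N₀ * (N₀ + 1) * ker (N₀ + 2) s (A.rho x y) *
          A.Gam (fun x => A.rho x y) x)) + Vm * (ker N₀ s (A.rho x y) * deriv T (g x)) =
        deriv T (g x) * (ker (N₀ + 2) s (A.rho x y) *
          (c * N₀ * (A.rho x y + s) * A.Lap (fun x => A.rho x y) x -
        c * N₀ * (N₀ + 1) * A.Gam (fun x => A.rho x y) x + Vm * (A.rho x y + s) ^ 2)) := by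
      rw [hk1, hk0]
      ring
    linarith
  -- the good region
  have hgood : ∀ x, s ≤ A.rho x y → A.rho x y ≤ r₁ →
      ker (N₀ + 2) s (A.rho x y) * (c * N₀ * (A.rho x y + s) * A.Lap (fun x => A.rho x y) x -
        c * N₀ * (N₀ + 1) * A.Gam (fun x => A.rho x y) x + Vm * (A.rho x y + s) ^ 2) ≤
      -((c * N₀ / 4) * ((r₁ + 1) ^ (N₀ + 1))⁻¹) := by
    intro x hx1 hx2
    set f := A.rho x y with hf
    have hfp : 0 < f := lt_of_lt_of_le hs hx1
    have ha : 0 < f + s := by linarith
    have hL := (abs_le.1 (hC2 x y)).2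
    have hG := h3 x y (hx2.trans hr₁r)
    have h1 : c * N₀ * (f + s) * A.Lap (fun x => A.rho x y) x ≤ c * N₀ * (2 * f) * C2 := by
      calc c * N₀ * (f + s) * A.Lap (fun x => A.rho x y) x ≤ c * N₀ * (f + s) * C2 :=
            mul_le_mul_of_nonneg_left hL (by positivity)
        _ ≤ c * N₀ * (2 * f) * C2 := by
            apply mul_le_mul_of_nonneg_right _ hC2p
            apply mul_le_mul_of_nonneg_left _ (by positivity)
            linarith
    have h2 : c * N₀ * ((2 * C2 + 1) * f) ≤
        c * N₀ * (N₀ + 1) * A.Gam (fun x => A.rho x y) x := by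
      calc c * N₀ * ((2 * C2 + 1) * f) ≤ c * N₀ * (((N₀ + 1) * c1) * f) := by
            apply mul_le_mul_of_nonneg_left _ (by positivity)
            exact mul_le_mul_of_nonneg_right hNc hfp.le
        _ = c * N₀ * (N₀ + 1) * (c1 * f) := by ring
        _ ≤ c * N₀ * (N₀ + 1) * A.Gam (fun x => A.rho x y) x :=
            mul_le_mul_of_nonneg_left hG (by positivity)
    have h4 : Vm * (f + s) ^ 2 ≤ c * N₀ / 2 * f := by
      calc Vm * (f + s) ^ 2 ≤ Vm * (2 * f) ^ 2 := by
            apply mul_le_mul_of_nonneg_left _ hVmp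
            exact pow_le_pow_left₀ ha.le (by linarith) 2
        _ = (8 * Vm * f) / 2 * f := by ring
        _ ≤ (c * N₀) / 2 * f := by
            apply mul_le_mul_of_nonneg_right _ hfp.le
            have h5 : 8 * Vm * f ≤ 8 * Vm * r₁ := mul_le_mul_of_nonneg_left hx2 (by positivity)
            have h6 : c ≤ c * N₀ := le_mul_of_one_le_right hc.le hN1'
            linarith
    have h5 : c * N₀ * (f + s) * A.Lap (fun x => A.rho x y) x -
        c * N₀ * (N₀ + 1) * A.Gam (fun x => A.rho x y) x + Vm * (f + s) ^ 2 ≤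
        -((c * N₀ / 4) * (f + s)) := by
      have h6 : c * N₀ * (f + s) ≤ c * N₀ * (2 * f) :=
        mul_le_mul_of_nonneg_left (by linarith) (by positivity)
      nlinarith
    have hk : 0 < ker (N₀ + 2) s f := barrier_ker_pos _ hs hfp.le
    have h7 : ((r₁ + 1) ^ (N₀ + 1))⁻¹ ≤ ker (N₀ + 2) s f * (f + s) := by
      have : ker (N₀ + 2) s f * (f + s) = ((f + s) ^ (N₀ + 1))⁻¹ := by
        unfold ker
        rw [pow_succ (f + s) (N₀ + 1)]
        field_simp
      rw [this]
      exact inv_anti₀ (by positivity) (pow_le_pow_left₀ ha.le (by linarith) _)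
    calc ker (N₀ + 2) s f * (c * N₀ * (f + s) * A.Lap (fun x => A.rho x y) x -
        c * N₀ * (N₀ + 1) * A.Gam (fun x => A.rho x y) x + Vm * (f + s) ^ 2)
        ≤ ker (N₀ + 2) s f * (-((c * N₀ / 4) * (f + s))) := mul_le_mul_of_nonneg_left h5 hk.le
      _ = -((c * N₀ / 4) * (ker (N₀ + 2) s f * (f + s))) := by ring
      _ ≤ -((c * N₀ / 4) * ((r₁ + 1) ^ (N₀ + 1))⁻¹) := by
          apply neg_le_neg
          exact mul_le_mul_of_nonneg_left h7 (by positivity)
  -- the bad region
  have hbad : ∀ x, ker (N₀ + 2) s (A.rho x y) *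
      (c * N₀ * (A.rho x y + s) * A.Lap (fun x => A.rho x y) x -
        c * N₀ * (N₀ + 1) * A.Gam (fun x => A.rho x y) x + Vm * (A.rho x y + s) ^ 2) ≤
      C3 * (s ^ (N₀ + 1))⁻¹ := by
    intro x
    set f := A.rho x y with hf
    have hfp : 0 ≤ f := hf0 x
    have ha : 0 < f + s := by linarith
    have hL := (abs_le.1 (hC2 x y)).2
    have hG := A.gam_nonneg _ hfS x
    have h1 : c * N₀ * (f + s) * A.Lap (fun x => A.rho x y) x ≤ c * N₀ * (f + s) * C2 :=
      mul_le_mul_of_nonneg_left hL (by positivity)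
    have h2 : 0 ≤ c * N₀ * (N₀ + 1) * A.Gam (fun x => A.rho x y) x :=
      mul_nonneg (by positivity) hG
    have hk : 0 < ker (N₀ + 2) s f := barrier_ker_pos _ hs hfp
    have h7 : ker (N₀ + 2) s f * (f + s) ≤ (s ^ (N₀ + 1))⁻¹ := by
      have : ker (N₀ + 2) s f * (f + s) = ((f + s) ^ (N₀ + 1))⁻¹ := by
        unfold ker
        rw [pow_succ (f + s) (N₀ + 1)]
        field_simp
      rw [this]
      exact inv_anti₀ (by positivity) (pow_le_pow_left₀ hs.le (by linarith) _)
    have h8 : ker (N₀ + 2) s f * (f + s) ^ 2 ≤ (s ^ (N₀ + 1))⁻¹ := by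
      have : ker (N₀ + 2) s f * (f + s) ^ 2 = ((f + s) ^ N₀)⁻¹ := by
        unfold ker
        rw [pow_add (f + s) N₀ 2]
        field_simp
      rw [this]
      refine inv_anti₀ (by positivity) ?_
      calc s ^ (N₀ + 1) ≤ s ^ N₀ := pow_le_pow_of_le_one hs.le hs1 (by omega)
        _ ≤ (f + s) ^ N₀ := pow_le_pow_left₀ hs.le (by linarith) _
    calc ker (N₀ + 2) s f * (c * N₀ * (f + s) * A.Lap (fun x => A.rho x y) x -
        c * N₀ * (N₀ + 1) * A.Gam (fun x => A.rho x y) x + Vm * (f + s) ^ 2)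
        ≤ ker (N₀ + 2) s f * (c * N₀ * (f + s) * C2 + Vm * (f + s) ^ 2) :=
          mul_le_mul_of_nonneg_left (by linarith) hk.le
      _ = c * N₀ * C2 * (ker (N₀ + 2) s f * (f + s)) + Vm * (ker (N₀ + 2) s f * (f + s) ^ 2) := by
          ring
      _ ≤ c * N₀ * C2 * (s ^ (N₀ + 1))⁻¹ + Vm * (s ^ (N₀ + 1))⁻¹ :=
          add_le_add (mul_le_mul_of_nonneg_left h7 (by positivity))
            (mul_le_mul_of_nonneg_left h8 hVmp)
      _ = C3 * (s ^ (N₀ + 1))⁻¹ := by rw [hC3]; ring
  -- the pointwise bound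
  set P : Set M := {x | A.rho x y < s} with hP
  set Q : Set M := {x | s ≤ A.rho x y ∧ A.rho x y ≤ r₁ / 2} with hQ
  have hfc : Continuous fun x => A.rho x y := A.cont _ hfS
  have hPm : MeasurableSet P := (isOpen_lt hfc continuous_const).measurableSet
  have hQm : MeasurableSet Q :=
    ((isClosed_le continuous_const hfc).inter (isClosed_le hfc continuous_const)).measurableSet
  have hpt : ∀ x, A.op c V u x ≤ P.indicator (fun _ => C3 * (s ^ (N₀ + 1))⁻¹) x +
      Q.indicator (fun _ => -c') x := by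
    intro x
    have hC3s : 0 ≤ C3 * (s ^ (N₀ + 1))⁻¹ := by positivity
    by_cases hx : A.rho x y < s
    · have hxQ : x ∉ Q := fun h => absurd h.1 (not_le.2 hx)
      rw [indicator_of_mem (show x ∈ P from hx), indicator_of_notMem hxQ, add_zero]
      rcases le_total r₁ (A.rho x y) with h1 | h1
      · exact (hA x h1).trans hC3s
      · refine (hB x h1).trans ?_
        calc deriv T (g x) * _ ≤ deriv T (g x) * (C3 * (s ^ (N₀ + 1))⁻¹) :=
              mul_le_mul_of_nonneg_left (hbad x) (hT1 _)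
          _ ≤ 1 * (C3 * (s ^ (N₀ + 1))⁻¹) := mul_le_mul_of_nonneg_right (hT1' _) hC3s
          _ = _ := one_mul _
    · rw [indicator_of_notMem (show x ∉ P from hx), zero_add]
      push Not at hx
      by_cases hxQ : A.rho x y ≤ r₁ / 2
      · rw [indicator_of_mem (show x ∈ Q from ⟨hx, hxQ⟩)]
        have h1 : A.rho x y ≤ r₁ := by linarith
        refine (hB x h1).trans ?_
        have h2 : g₀ ≤ g x := by
          have := barrier_ker_gap hN1 hs hs1 hr₁p (hf0 x) hxQ
          simp only [hg, hg₀]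
          linarith
        have h4 : τ₀ ≤ deriv T (g x) := hTm h2
        have h5 : 0 ≤ (c * N₀ / 4) * ((r₁ + 1) ^ (N₀ + 1))⁻¹ := by positivity
        calc deriv T (g x) * _ ≤ deriv T (g x) * (-((c * N₀ / 4) * ((r₁ + 1) ^ (N₀ + 1))⁻¹)) :=
              mul_le_mul_of_nonneg_left (hgood x hx h1) (hT1 _)
          _ ≤ -c' := by
              rw [hc', mul_neg]
              exact neg_le_neg (mul_le_mul_of_nonneg_right h4 h5)
      · rw [indicator_of_notMem (show x ∉ Q from fun h => hxQ h.2)]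
        rcases le_total r₁ (A.rho x y) with h1 | h1
        · exact hA x h1
        · refine (hB x h1).trans ?_
          have h5 : 0 ≤ (c * N₀ / 4) * ((r₁ + 1) ^ (N₀ + 1))⁻¹ := by positivity
          calc deriv T (g x) * _ ≤ deriv T (g x) * (-((c * N₀ / 4) * ((r₁ + 1) ^ (N₀ + 1))⁻¹)) :=
                mul_le_mul_of_nonneg_left (hgood x hx h1) (hT1 _)
            _ ≤ 0 := by
                rw [mul_neg]
                exact neg_nonpos.2 (mul_nonneg (hT1 _) h5)
  -- integration
  have hopc : ∀ v ∈ A.S, Continuous (A.op c V v) := by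
    intro v hv
    unfold LapSys.op
    exact (continuous_const.mul (A.lap_cont v hv)).add (hV.mul (A.cont v hv))
  have hint : ∀ h : M → ℝ, Continuous h → Integrable h ν := fun h hh =>
    hh.integrable_of_hasCompactSupport (HasCompactSupport.of_compactSpace h)
  have hI : 0 ≤ ∫ x, A.op c V u x ∂ν := by
    have h1 : ∀ δ : ℝ, 0 < δ → 0 ≤ (∫ x, A.op c V u x ∂ν) + δ * ∫ x, V x ∂ν := by
      intro δ hδ
      have h2 := hν (fun x => u x + δ) (A.add_mem _ huS _ (A.const_mem δ)) fun x => by
        have := hTn (g x)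
        simp only [hu]
        linarith
      have h4 : ∀ x, A.op c V (fun x => u x + δ) x = A.op c V u x + δ * V x := by
        intro x
        unfold LapSys.op
        rw [A.lap_add _ huS _ (A.const_mem δ), A.lap_const]
        ring
      simp only [h4] at h2
      have h5 : Integrable (fun x => δ * V x) ν := hint _ (continuous_const.mul hV)
      rw [integral_add (hint _ (hopc u huS)) h5, integral_const_mul] at h2
      exact h2
    by_contra hneg
    push Not at hneg
    set I := ∫ x, A.op c V u x ∂ν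
    set J := ∫ x, V x ∂ν
    have h2 := h1 (-I / (2 * (|J| + 1))) (by
      have : 0 < |J| + 1 := by positivity
      have : 0 < -I := by linarith
      positivity)
    have h4 : -I / (2 * (|J| + 1)) * J ≤ -I / 2 := by
      have h5 : J ≤ |J| + 1 := by linarith [le_abs_self J]
      have h6 : 0 < |J| + 1 := by positivity
      have h7 : 0 ≤ -I / (2 * (|J| + 1)) := div_nonneg (by linarith) (by positivity)
      calc -I / (2 * (|J| + 1)) * J ≤ -I / (2 * (|J| + 1)) * (|J| + 1) :=
            mul_le_mul_of_nonneg_left h5 h7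
        _ = -I / 2 := by field_simp
    linarith
  have hPi : Integrable (P.indicator fun _ => C3 * (s ^ (N₀ + 1))⁻¹) ν :=
    (integrable_const _).indicator hPm
  have hQi : Integrable (Q.indicator fun _ => -c') ν := (integrable_const _).indicator hQm
  have hfin : ∫ x, A.op c V u x ∂ν ≤
      C3 * (s ^ (N₀ + 1))⁻¹ * ν.real P - c' * ν.real Q := by
    calc ∫ x, A.op c V u x ∂ν ≤ ∫ x, (P.indicator (fun _ => C3 * (s ^ (N₀ + 1))⁻¹) x +
        Q.indicator (fun _ => -c') x) ∂ν :=
          integral_mono (hint _ (hopc u huS)) (hPi.add hQi) hpt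
      _ = C3 * (s ^ (N₀ + 1))⁻¹ * ν.real P - c' * ν.real Q := by
          rw [integral_add hPi hQi, integral_indicator_const _ hPm,
            integral_indicator_const _ hQm, smul_eq_mul, smul_eq_mul]
          ring
  have h9 : c' * ν.real Q ≤ C3 * (s ^ (N₀ + 1))⁻¹ * ν.real P := by linarith
  have hPn : 0 ≤ ν.real P := measureReal_nonneg
  have h10 : c' * s ^ (N₀ + 1) * ν.real Q ≤ C3 * ν.real P := by
    have h11 := mul_le_mul_of_nonneg_left h9 (show 0 ≤ s ^ (N₀ + 1) by positivity)
    have h12 : s ^ (N₀ + 1) * (C3 * (s ^ (N₀ + 1))⁻¹ * ν.real P) = C3 * ν.real P := by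
      field_simp
    rw [h12] at h11
    linarith
  have h13 : c' / (C3 + 1) * s ^ (N₀ + 1) * ν.real Q = c' * s ^ (N₀ + 1) * ν.real Q / (C3 + 1) := by
    ring
  rw [h13, div_le_iff₀ (by positivity)]
  linarith

end Pool.Agent.Lib.MP_df705a_gt.Perm
end
end

section

/-!
# TASK A5: the dichotomy
-/

open scoped ContDiff Topology
open Set Filter MeasureTheory

noncomputable section

namespace Pool.Agent.Lib.MP_df705a_gt.Perm

/-- Continuity of the image of the operator. -/
theorem LapSys.op_cont {M : Type*} [TopologicalSpace M] (A : LapSys M) (c : ℝ) {W : M → ℝ}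
    (hW : Continuous W) {u : M → ℝ} (hu : u ∈ A.S) : Continuous (A.op c W u) := by
  unfold LapSys.op
  exact (continuous_const.mul (A.lap_cont u hu)).add (hW.mul (A.cont u hu))

theorem LapSys.op_add {M : Type*} [TopologicalSpace M] (A : LapSys M) (c : ℝ) (W : M → ℝ)
    {u v : M → ℝ} (hu : u ∈ A.S) (hv : v ∈ A.S) (x : M) :
    A.op c W (fun z => u z + v z) x = A.op c W u x + A.op c W v x := by
  unfold LapSys.op
  rw [A.lap_add u hu v hv]
  ring

theorem LapSys.op_smul {M : Type*} [TopologicalSpace M] (A : LapSys M) (c : ℝ) (W : M → ℝ)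
    {u : M → ℝ} (hu : u ∈ A.S) (t : ℝ) (x : M) :
    A.op c W (fun z => t * u z) x = t * A.op c W u x := by
  unfold LapSys.op
  rw [A.lap_smul u hu]
  ring

theorem ker_pos' (N : ℕ) {s t : ℝ} (hs : 0 < s) (ht : 0 ≤ t) : 0 < ker N s t := by
  unfold ker
  positivity

theorem mmain_integrable {X : Type*} [TopologicalSpace X] [CompactSpace X] [MeasurableSpace X]
    [OpensMeasurableSpace X] (μ : Measure X) [IsFiniteMeasure μ] {f : X → ℝ}
    (hf : Continuous f) : Integrable f μ :=
  hf.integrable_of_hasCompactSupport (HasCompactSupport.of_compactSpace f)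

/-- Either there is a positive smooth `w` with `L w > 0`, or for the given `ε > 0` there is a
positive smooth `u` with `L u < ε u`, where `L = -c Lap + V`. -/
theorem dichotomy {M : Type*} [TopologicalSpace M] [CompactSpace M] [T2Space M]
    [ConnectedSpace M] [SecondCountableTopology M] (A : LapSys M) {c : ℝ} (hc : 0 < c)
    {V : M → ℝ} (hV : Continuous V) {ε : ℝ} (hε : 0 < ε) :
    (∃ w ∈ A.S, (∀ x, 0 < w x) ∧ ∀ x, 0 < A.op c V w x) ∨
      ∃ u ∈ A.S, (∀ x, 0 < u x) ∧ ∀ x, A.op c V u x < ε * u x := by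
  classical
  borelize M
  by_contra hcon
  rw [not_or] at hcon
  obtain ⟨h1, h2⟩ := hcon
  push Not at h1 h2
  -- the measure `μ`
  obtain ⟨μ, hμfin, hμ0, hμ⟩ := exists_measure
    {f : M → ℝ | ∃ w ∈ A.S, (∀ x, 0 < w x) ∧ f = A.op c V w}
    (by rintro f ⟨w, hw, -, rfl⟩; exact A.op_cont c hV hw)
    ⟨_, fun _ => 1, A.const_mem 1, fun _ => one_pos, rfl⟩
    (by
      rintro f ⟨w, hw, hw0, rfl⟩ g ⟨v, hv, hv0, rfl⟩
      refine ⟨fun z => w z + v z, A.add_mem w hw v hv, fun x => add_pos (hw0 x) (hv0 x), ?_⟩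
      funext x
      exact (A.op_add c V hw hv x).symm)
    (by
      rintro f ⟨w, hw, hw0, rfl⟩ t ht
      refine ⟨fun z => t * w z, A.smul_mem w hw t, fun x => mul_pos ht (hw0 x), ?_⟩
      funext x
      exact (A.op_smul c V hw t x).symm)
    (by rintro f ⟨w, hw, hw0, rfl⟩; exact h1 w hw hw0)
  have hμ' : ∀ w ∈ A.S, (∀ x, 0 < w x) → ∫ x, A.op c V w x ∂μ ≤ 0 :=
    fun w hw hw0 => hμ _ ⟨w, hw, hw0, rfl⟩
  -- the measure `ν`
  obtain ⟨ν, hνfin, hν0, hν⟩ := exists_measure
    {f : M → ℝ | ∃ u ∈ A.S, (∀ x, 0 < u x) ∧ f = fun x => ε * u x - A.op c V u x}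
    (by
      rintro f ⟨w, hw, -, rfl⟩
      exact (continuous_const.mul (A.cont w hw)).sub (A.op_cont c hV hw))
    ⟨_, fun _ => 1, A.const_mem 1, fun _ => one_pos, rfl⟩
    (by
      rintro f ⟨w, hw, hw0, rfl⟩ g ⟨v, hv, hv0, rfl⟩
      refine ⟨fun z => w z + v z, A.add_mem w hw v hv, fun x => add_pos (hw0 x) (hv0 x), ?_⟩
      funext x
      simp only [A.op_add c V hw hv x]
      ring)
    (by
      rintro f ⟨w, hw, hw0, rfl⟩ t ht
      refine ⟨fun z => t * w z, A.smul_mem w hw t, fun x => mul_pos ht (hw0 x), ?_⟩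
      funext x
      simp only [A.op_smul c V hw t x]
      ring)
    (by
      rintro f ⟨w, hw, hw0, rfl⟩
      obtain ⟨x, hx⟩ := h2 w hw hw0
      exact ⟨x, by linarith⟩)
  have hopV : ∀ (u : M → ℝ) (x : M), A.op c (fun z => V z - ε) u x =
      A.op c V u x - ε * u x := by
    intro u x
    unfold LapSys.op
    ring
  have hVε : Continuous fun z => V z - ε := hV.sub continuous_const
  have hν' : ∀ u ∈ A.S, (∀ x, 0 < u x) → 0 ≤ ∫ x, A.op c (fun z => V z - ε) u x ∂ν := by
    intro u hu hu0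
    have h3 := hν _ ⟨u, hu, hu0, rfl⟩
    have h4 : ∫ x, A.op c (fun z => V z - ε) u x ∂ν =
        - ∫ x, (ε * u x - A.op c V u x) ∂ν := by
      rw [← integral_neg]
      refine integral_congr_ae (Eventually.of_forall fun x => ?_)
      simp only [hopV]
      ring
    rw [h4]
    linarith
  obtain ⟨N0, r₀, κ, hr₀, hκ, hbar⟩ := barrier A hc hVε ν hν'
  obtain ⟨κ', hκ', hmass⟩ := mass_lower A.rho A.rho_cont A.rho_self A.rho_pos ν hν0 hr₀ hκ hbar
  obtain ⟨C, hC⟩ := kernel_est A hc hV (N0 + 1) (η := ε / 2) (by positivity)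
  -- total masses
  have hμpos : 0 < μ.real univ := by
    rw [Measure.real, ENNReal.toReal_pos_iff]
    refine ⟨?_, measure_lt_top μ _⟩
    rw [pos_iff_ne_zero]
    simpa using hμ0
  have hρ := rho_nonneg A
  -- the main inequality
  have key : ∀ s : ℝ, 0 < s → s ≤ 1 →
      (ε / 2) * (μ.real univ * (((2 * s) ^ (N0 + 1))⁻¹ * (κ' * s ^ N0))) ≤
        C * (ν.real univ * μ.real univ) := by
    intro s hs hs1
    set K : M → M → ℝ := fun x y => ker (N0 + 1) s (A.rho x y) with hK
    set P : M → M → ℝ := fun x y => A.op c V (fun z => ker (N0 + 1) s (A.rho z y)) x with hP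
    have hKc : Continuous fun p : M × M => K p.1 p.2 := ker_cont A (N0 + 1) hs
    have hPc : Continuous fun p : M × M => P p.1 p.2 := by
      simp only [hP, LapSys.op]
      exact (continuous_const.mul (lapKer_cont A (N0 + 1) hs)).add
        ((hV.comp continuous_fst).mul (ker_cont A (N0 + 1) hs))
    have hPc' : Continuous fun p : M × M => P p.2 p.1 := hPc.comp continuous_swap
    have hKpos : ∀ x y, 0 < K x y := fun x y => ker_pos' _ hs (hρ x y)
    have hKS : ∀ y, (fun x => K x y) ∈ A.S := fun y => ker_mem A (N0 + 1) hs y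
    -- sections
    have hKx : ∀ y, Continuous fun x => K x y := fun y =>
      hKc.comp (continuous_id.prodMk continuous_const)
    have hPx : ∀ y, Continuous fun x => P x y := fun y =>
      hPc.comp (continuous_id.prodMk continuous_const)
    have hPx' : ∀ y, Continuous fun x => P y x := fun y =>
      hPc.comp (continuous_const.prodMk continuous_id)
    -- for each `y`
    have hy : ∀ y, (ε / 2) * ∫ x, K x y ∂ν ≤ ∫ x, P y x ∂ν + C * ν.real univ := by
      intro y
      have h3 := hν' (fun x => K x y) (hKS y) (fun x => hKpos x y)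
      have h4 : ∫ x, A.op c (fun z => V z - ε) (fun x => K x y) x ∂ν =
          ∫ x, P x y ∂ν - ε * ∫ x, K x y ∂ν := by
        rw [← integral_const_mul, ← integral_sub (mmain_integrable ν (hPx y))
          ((mmain_integrable ν (hKx y)).const_mul ε)]
        refine integral_congr_ae (Eventually.of_forall fun x => ?_)
        simp only [hopV]
        rfl
      have h5 : ∫ x, P x y ∂ν ≤ ∫ x, (P y x + ((ε / 2) * K x y + C)) ∂ν := by
        refine integral_mono (mmain_integrable ν (hPx y)) ?_ fun x => ?_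
        · exact mmain_integrable ν ((hPx' y).add
            ((continuous_const.mul (hKx y)).add continuous_const))
        · have h6 := hC s hs hs1 x y
          simp only [hP, hK]
          linarith
      have h6 : ∫ x, (P y x + ((ε / 2) * K x y + C)) ∂ν =
          ∫ x, P y x ∂ν + ((ε / 2) * ∫ x, K x y ∂ν + C * ν.real univ) := by
        have i1 : Integrable (fun x => P y x) ν := mmain_integrable ν (hPx' y)
        have i2 : Integrable (fun x => (ε / 2) * K x y) ν :=
          mmain_integrable ν (continuous_const.mul (hKx y))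
        have i3 : Integrable (fun _ : M => C) ν := integrable_const _
        have i4 : Integrable (fun x => (ε / 2) * K x y + C) ν := i2.add i3
        rw [integral_add i1 i4, integral_add i2 i3, integral_const_mul, integral_const,
          smul_eq_mul, mul_comm C]
      rw [h4] at h3
      rw [h6] at h5
      linarith
    -- the lower bound of the kernel
    have hlow : ∀ y, ((2 * s) ^ (N0 + 1))⁻¹ * (κ' * s ^ N0) ≤ ∫ x, K x y ∂ν := by
      intro y
      have h3 := hmass y s hs hs1
      have hmeas : MeasurableSet {x | A.rho x y < s} := by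
        have : Continuous fun x => A.rho x y := A.cont _ (A.rho_mem y)
        exact (isOpen_lt this continuous_const).measurableSet
      calc ((2 * s) ^ (N0 + 1))⁻¹ * (κ' * s ^ N0)
          ≤ ((2 * s) ^ (N0 + 1))⁻¹ * ν.real {x | A.rho x y < s} := by gcongr
        _ = ∫ _x in {x | A.rho x y < s}, ((2 * s) ^ (N0 + 1))⁻¹ ∂ν := by
            rw [setIntegral_const, smul_eq_mul, mul_comm]
        _ ≤ ∫ x in {x | A.rho x y < s}, K x y ∂ν := by
            refine setIntegral_mono_on (integrable_const _).integrableOn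
              (mmain_integrable ν (hKx y)).integrableOn hmeas fun x hx => ?_
            simp only [hK, ker]
            have hx' : A.rho x y < s := hx
            have h7 : A.rho x y + s ≤ 2 * s := by linarith
            have h8 : 0 < A.rho x y + s := by have := hρ x y; linarith
            gcongr
        _ ≤ ∫ x, K x y ∂ν :=
            setIntegral_le_integral (mmain_integrable ν (hKx y))
              (Eventually.of_forall fun x => (hKpos x y).le)
    -- integrate over `y`
    have hsw : ∫ y, ∫ x, P y x ∂ν ∂μ ≤ 0 := by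
      have h9 : ∫ y, ∫ x, P y x ∂ν ∂μ = ∫ x, ∫ y, P y x ∂μ ∂ν :=
        integral_integral_swap (mmain_integrable (μ.prod ν) hPc)
      rw [h9]
      exact integral_nonpos fun x => hμ' (fun z => K z x) (hKS x) (fun z => hKpos z x)
    have hint1 : Integrable (fun y => ∫ x, P y x ∂ν) μ :=
      (mmain_integrable (μ.prod ν) hPc).integral_prod_left
    have hint2 : Integrable (fun y => ∫ x, K x y ∂ν) μ :=
      (mmain_integrable (μ.prod ν) (hKc.comp continuous_swap)).integral_prod_left
    have h10 : ∫ y, (ε / 2) * ∫ x, K x y ∂ν ∂μ ≤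
        ∫ y, (∫ x, P y x ∂ν + C * ν.real univ) ∂μ :=
      integral_mono (hint2.const_mul _) (hint1.add (integrable_const _)) hy
    rw [integral_const_mul, integral_add hint1 (integrable_const _), integral_const,
      smul_eq_mul] at h10
    have h11 : μ.real univ * (((2 * s) ^ (N0 + 1))⁻¹ * (κ' * s ^ N0)) ≤
        ∫ y, ∫ x, K x y ∂ν ∂μ := by
      have h12 : ∫ _y, ((2 * s) ^ (N0 + 1))⁻¹ * (κ' * s ^ N0) ∂μ ≤
          ∫ y, ∫ x, K x y ∂ν ∂μ := integral_mono (integrable_const _) hint2 hlow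
      rwa [integral_const, smul_eq_mul] at h12
    calc (ε / 2) * (μ.real univ * (((2 * s) ^ (N0 + 1))⁻¹ * (κ' * s ^ N0)))
        ≤ (ε / 2) * ∫ y, ∫ x, K x y ∂ν ∂μ := by gcongr
      _ ≤ C * (ν.real univ * μ.real univ) := by
          have : μ.real univ * (C * ν.real univ) = C * (ν.real univ * μ.real univ) := by ring
          linarith
  -- the contradiction
  have key2 : ∀ s : ℝ, 0 < s → s ≤ 1 →
      (ε / 2) * κ' / 2 ^ (N0 + 1) ≤ s * (C * ν.real univ) := by
    intro s hs hs1
    have h3 := key s hs hs1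
    have h4 : (ε / 2) * (μ.real univ * (((2 * s) ^ (N0 + 1))⁻¹ * (κ' * s ^ N0))) =
        μ.real univ * (((ε / 2) * κ' / 2 ^ (N0 + 1)) / s) := by
      rw [mul_pow, pow_succ s]
      field_simp
    rw [h4] at h3
    have h5 : μ.real univ * (((ε / 2) * κ' / 2 ^ (N0 + 1)) / s) ≤
        μ.real univ * (C * ν.real univ) := by linarith
    have h6 := le_of_mul_le_mul_left h5 hμpos
    rw [div_le_iff₀ hs] at h6
    linarith
  have hlim : Tendsto (fun s : ℝ => s * (C * ν.real univ)) (𝓝[>] 0) (𝓝 0) := by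
    have : Tendsto (fun s : ℝ => s * (C * ν.real univ)) (𝓝 0) (𝓝 (0 * (C * ν.real univ))) :=
      tendsto_id.mul_const _
    rw [zero_mul] at this
    exact this.mono_left nhdsWithin_le_nhds
  have hfin : (ε / 2) * κ' / 2 ^ (N0 + 1) ≤ 0 := by
    refine ge_of_tendsto hlim ?_
    have : ∀ᶠ s : ℝ in 𝓝[>] 0, s ∈ Ioo (0 : ℝ) 1 := Ioo_mem_nhdsGT one_pos
    filter_upwards [this] with s hs
    exact key2 s hs.1 hs.2.le
  have : 0 < (ε / 2) * κ' / 2 ^ (N0 + 1) := by positivity
  linarith

end Pool.Agent.Lib.MP_df705a_gt.Perm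
end
end

section

/-!
# TASK LD: the Riemannian measure
-/

open scoped Manifold ContDiff Topology
open Set Bundle Module Filter MeasureTheory

noncomputable section

namespace Pool.Agent.Lib.MP_df705a_gt.Pin

variable {E : Type*} [NormedAddCommGroup E] [NormedSpace ℝ E] [FiniteDimensional ℝ E]
  {h : Curv.Coeff E}

variable [MeasurableSpace E] [BorelSpace E]

omit [FiniteDimensional ℝ E] [MeasurableSpace E] [BorelSpace E] in
theorem LD_continuous_det (hh : Curv.IsMetric h) : Continuous fun x => (h x).det :=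
  Continuous.matrix_det (continuous_matrix fun i j => (hh.1 i j).continuous)

theorem measurable_det (hh : Curv.IsMetric h) : Measurable fun x => (h x).det := by
  exact (LD_continuous_det hh).measurable

theorem vol_lt_top_of_isCompact (hh : Curv.IsMetric h) {K : Set E} (hK : IsCompact K) :
    vol h K < ⊤ := by
  unfold vol
  rw [withDensity_apply _ hK.measurableSet]
  have hc : Continuous fun x : E => Real.toNNReal (√ (h x).det) :=
    continuous_real_toNNReal.comp (Real.continuous_sqrt.comp (LD_continuous_det hh))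
  exact setLIntegral_lt_top_of_isCompact hK.measure_lt_top.ne hK hc

theorem vol_pos_of_isOpen (hh : Curv.IsMetric h) {U : Set E} (hU : IsOpen U) (hne : U.Nonempty) :
    0 < vol h U := by
  rw [pos_iff_ne_zero]
  intro h0
  unfold vol at h0
  have hm : Measurable fun x : E => ENNReal.ofReal (√ (h x).det) :=
    ENNReal.measurable_ofReal.comp (Real.continuous_sqrt.measurable.comp (measurable_det hh))
  rw [withDensity_apply_eq_zero hm] at h0
  have e : {x : E | ENNReal.ofReal (√ (h x).det) ≠ 0} ∩ U = U := by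
    refine inter_eq_right.2 fun x _ => ?_
    exact (ENNReal.ofReal_pos.2 (Real.sqrt_pos.2 (hh.2 x).det_pos)).ne'
  rw [e] at h0
  exact (hU.measure_pos _ hne).ne' h0

theorem vol_ballh_lt_top (hh : Curv.IsMetric h) (hp : Proper h) (x : E) (r : ℝ) :
    vol h (ballh h x r) < ⊤ := by
  refine lt_of_le_of_lt (measure_mono ?_) (vol_lt_top_of_isCompact hh (hp x r))
  intro y hy
  have hy' : dh h x y < r := hy
  exact hy'.le

theorem measurableSet_ballh (hh : Curv.IsMetric h) (x : E) (r : ℝ) :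
    MeasurableSet (ballh h x r) := (isOpen_ballh hh x r).measurableSet

end Pool.Agent.Lib.MP_df705a_gt.Pin
end
end

section

/-!
# TASK T7: the universal covering of an aspherical manifold has no bounded cover of multiplicity n
-/

open scoped Topology ContDiff
open Set MeasureTheory Module Metric

noncomputable section

namespace Pool.Agent.Lib.MP_df705a_gt.Pin

variable {E : Type*} [NormedAddCommGroup E] [InnerProductSpace ℝ E] [FiniteDimensional ℝ E]
  {d : E → E → ℝ} {K : Set E} {G G' : E → E → E}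

/-- A continuous map `H` of a closed ball about `p` which is the identity on the sphere takes the
value `p`: otherwise `y ↦ ‖H (p + ρ y) - p‖⁻¹ • (H (p + ρ y) - p)` contradicts
`no_retraction_ball`. -/
theorem exists_eq_center [Nontrivial E] {p : E} {ρ : ℝ} (hρ : 0 < ρ) {H : E → E}
    (hH : ContinuousOn H (closedBall p ρ)) (hid : ∀ x, ‖x - p‖ = ρ → H x = x) :
    ∃ x ∈ closedBall p ρ, H x = p := by
  by_contra hcon
  push Not at hcon
  have hmaps : ∀ y ∈ closedBall (0 : E) 1, p + ρ • y ∈ closedBall p ρ := by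
    intro y hy
    rw [mem_closedBall, dist_eq_norm, add_sub_cancel_left, norm_smul, Real.norm_eq_abs,
      abs_of_pos hρ]
    rw [mem_closedBall, dist_zero_right] at hy
    nlinarith
  have hne : ∀ y ∈ closedBall (0 : E) 1, H (p + ρ • y) - p ≠ 0 := fun y hy =>
    sub_ne_zero.2 (hcon _ (hmaps y hy))
  refine no_retraction_ball (fun y => ‖H (p + ρ • y) - p‖⁻¹ • (H (p + ρ • y) - p)) ?_ ?_ ?_
  · have h1 : ContinuousOn (fun y : E => H (p + ρ • y) - p) (closedBall (0 : E) 1) :=
      (hH.comp (continuous_const.add (continuous_const_smul ρ)).continuousOn hmaps).sub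
        continuousOn_const
    exact (h1.norm.inv₀ (fun y hy => norm_ne_zero_iff.mpr (hne y hy))).smul h1
  · intro y hy
    rw [norm_smul, norm_inv, norm_norm]
    exact inv_mul_cancel₀ (norm_ne_zero_iff.mpr (hne y hy))
  · intro y hy
    have h1 : H (p + ρ • y) = p + ρ • y := by
      apply hid
      rw [add_sub_cancel_left, norm_smul, Real.norm_eq_abs, abs_of_pos hρ, hy, mul_one]
    rw [h1, add_sub_cancel_left, norm_smul, Real.norm_eq_abs, abs_of_pos hρ, hy, mul_one,
      smul_smul, inv_mul_cancel₀ hρ.ne', one_smul]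

/-- Every iterated cone point with total weight of the list `1` (and `τ = 0`) and at most `n` active
entries lies in the set of `dense_compl_simplices`. Proof: `Psi_filter`, the filtered list is not
empty, `List.eq_nil_or_concat` / `List.dropLast_append_getLast`, `Psi_append`. -/
theorem mem_simplices {C : E → ℝ → E → E} (hC : IsCone C) {n : ℕ} {V : Set E}
    (L : List (E × ℝ)) (hL : ∀ p ∈ L, 0 ≤ p.2 ∧ p.1 ∈ V) (hsum : 0 < (L.map Prod.snd).sum)
    (hn : (L.filter fun p => decide (p.2 ≠ 0)).length ≤ n) (y : E) :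
    ∃ (L' : List (E × ℝ)) (v : E) (t : ℝ), L'.length < n ∧ v ∈ V ∧ 0 < t ∧
      (∀ p ∈ L', p.1 ∈ V ∧ 0 < p.2) ∧ Psi C L y 0 = Psi C L' v t := by
  have hF : L.filter (fun p => decide (p.2 ≠ 0)) ≠ [] := by
    intro h
    rw [List.filter_eq_nil_iff] at h
    have h0 : (L.map Prod.snd).sum = 0 := by
      apply List.sum_eq_zero
      intro x hx
      obtain ⟨q, hq, rfl⟩ := List.mem_map.1 hx
      have := h q hq
      simpa using this
    rw [h0] at hsum
    exact lt_irrefl _ hsum
  set F := L.filter (fun p => decide (p.2 ≠ 0)) with hFdef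
  have hmemF : ∀ q ∈ F, q.1 ∈ V ∧ 0 < q.2 := by
    intro q hq
    rw [hFdef, List.mem_filter] at hq
    have h1 := hL q hq.1
    have h2 : q.2 ≠ 0 := by simpa using hq.2
    exact ⟨h1.2, lt_of_le_of_ne h1.1 h2.symm⟩
  have hsplit := List.dropLast_append_getLast hF
  have hlast := hmemF _ (List.getLast_mem hF)
  refine ⟨F.dropLast, (F.getLast hF).1, (F.getLast hF).2, ?_, hlast.1, hlast.2, ?_, ?_⟩
  · rw [List.length_dropLast]
    have h1 : 0 < F.length := List.length_pos_iff.2 hF
    omega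
  · intro q hq
    exact hmemF q (List.mem_of_mem_dropLast hq)
  · rw [← Psi_filter hC L y 0, ← hFdef]
    conv_lhs => rw [← hsplit]
    exact Psi_append hC F.dropLast (F.getLast hF).1 y hlast.2

open Classical in
theorem T7_length {𝒰 : Set (Set E)} {s : Finset (Set E)} (hs : (s : Set (Set E)) ⊆ 𝒰) {n : ℕ}
    {x : E} (hm : {U ∈ 𝒰 | x ∈ U}.encard ≤ n) (v : Set E → E) (ψ : Set E → ℝ)
    (hψ : ∀ U ∈ s, ψ U ≠ 0 → x ∈ U) :
    ((s.toList.map fun U => (v U, ψ U)).filter fun p => decide (p.2 ≠ 0)).length ≤ n := by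
  rw [List.filter_map, List.length_map]
  have hnd : (s.toList.filter ((fun p : E × ℝ => decide (p.2 ≠ 0)) ∘ fun U => (v U, ψ U))).Nodup :=
    (Finset.nodup_toList s).filter _
  rw [← List.toFinset_card_of_nodup hnd]
  have h1 : ((s.toList.filter ((fun p : E × ℝ => decide (p.2 ≠ 0)) ∘
      fun U => (v U, ψ U))).toFinset : Set (Set E)) ⊆ {U ∈ 𝒰 | x ∈ U} := by
    intro U hU
    rw [Finset.mem_coe, List.mem_toFinset, List.mem_filter, Finset.mem_toList] at hU
    have h2 : ψ U ≠ 0 := by simpa using hU.2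
    exact ⟨hs hU.1, hψ U hU.1 h2⟩
  have h3 := (Set.encard_le_encard h1).trans hm
  rw [Set.encard_coe_eq_coe_finsetCard] at h3
  exact_mod_cast h3

/-- **No bounded cover of multiplicity `n`.** Proof. Let `n = finrank`, `C = cone G G'`, `R` the number
of `exists_displacement` for `D` and `m = n`. The set `{y | ∃ p ∈ closedBall 0 1, d p y ≤ R}` is
bounded (`IsD.proper`): let it be contained in `closedBall 0 ρ₁`, `ρ₁ ≥ 1`. Let `ρ₂ = ρ₁ + 3`,
`B = closedBall 0 (ρ₂ + 2)`. Take `s`, `φ` from `exists_partition` for `B`, choose `v U ∈ U` for `U ∈ s`,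
`js = s.toList`. For `x ∈ B` the active entries of `js.map (v U, φ U x)` have `x ∈ U`, so
`d x (v U) ≤ D` and there are at most `n` of them (they are distinct members of `𝒰` which contain
`x`; `s.toList` has no duplicates). By `dense_compl_simplices` with `V = v '' s` there is a point
`p` of norm `< 1` outside of the set of simplices; by `mem_simplices` `Psi C (...) x 0 ≠ p` for all
`x ∈ B`. Put `θ x = max 0 (min 1 (‖x - p‖ - (ρ₂ - 1)))` and
`H x = Psi C (js.map fun U => (v U, (1 - θ x) * φ U x)) x (θ x)`. On `closedBall p ρ₂ ⊆ B` it is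
continuous (`continuousWithinAt_Psi`; the total weight is `1`), for `‖x - p‖ = ρ₂` it is `x`
(`Psi_of_zero`), so by `exists_eq_center` there is `x ∈ closedBall p ρ₂` with `H x = p`. If
`θ x = 0` this contradicts the choice of `p`; otherwise `‖x - p‖ > ρ₂ - 1`, `‖x‖ > ρ₂ - 2 > ρ₁`, but
`d x (H x) ≤ R` (`exists_displacement`), `d p x ≤ R`: contradiction. -/
theorem no_bounded_cover [Nontrivial E] (hd : IsD d) (hG : CoCpt d K G G') {𝒰 : Set (Set E)}
    (ho : ∀ U ∈ 𝒰, IsOpen U) (hc : ⋃₀ 𝒰 = univ)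
    (hm : ∀ x, {U ∈ 𝒰 | x ∈ U}.encard ≤ finrank ℝ E) {D : ℝ}
    (hD : ∀ U ∈ 𝒰, ∀ x ∈ U, ∀ y ∈ U, d x y ≤ D) : False := by
  classical
  have hC := hG.isCone
  set n := finrank ℝ E with hn
  obtain ⟨R, hR⟩ := exists_displacement hd hG D n
  -- the radius
  have hdc : Continuous fun y => d 0 y := hd.cont.comp (Continuous.prodMk_right 0)
  obtain ⟨M, hM⟩ := (isCompact_closedBall (0 : E) 1).exists_bound_of_continuousOn hdc.continuousOn
  obtain ⟨ρ₀, hρ₀⟩ := (hd.proper 0 (M + R)).isBounded.subset_closedBall (0 : E)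
  obtain ⟨ρ₁, hρ₁1, hρ₁⟩ : ∃ ρ₁ : ℝ, 1 ≤ ρ₁ ∧ ∀ p x : E, ‖p‖ ≤ 1 → d p x ≤ R → ‖x‖ ≤ ρ₁ := by
    refine ⟨max ρ₀ 1, le_max_right _ _, ?_⟩
    intro p x hp hx
    have h1 := hd.tri 0 p x
    have h2 := hM p (by rwa [mem_closedBall, dist_zero_right])
    rw [Real.norm_eq_abs] at h2
    have h3 := le_abs_self (d 0 p)
    have h4 : x ∈ closedBall (0 : E) ρ₀ := hρ₀ (show d 0 x ≤ M + R by linarith)
    rw [mem_closedBall, dist_zero_right] at h4
    exact h4.trans (le_max_left _ _)
  set ρ₂ := ρ₁ + 3 with hρ₂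
  obtain ⟨s, φ, hs, hne, hφc, hφ0, hφm, hφs⟩ :=
    exists_partition ho hc (isCompact_closedBall (0 : E) (ρ₂ + 2))
  set B := closedBall (0 : E) (ρ₂ + 2) with hB
  let v : Set E → E := fun U => if h : U.Nonempty then h.some else 0
  have hv : ∀ U ∈ s, v U ∈ U := by
    intro U hU
    have h1 := hne U hU
    change (if h : U.Nonempty then h.some else 0) ∈ U
    rw [dif_pos h1]
    exact h1.some_mem
  have hdense := dense_compl_simplices hC (le_refl (finrank ℝ E)) (V := v '' (s : Set (Set E)))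
    (s.finite_toSet.image v)
  obtain ⟨p, hpB, hp⟩ := hdense.inter_open_nonempty (ball (0 : E) 1) isOpen_ball
    ⟨0, mem_ball_self one_pos⟩
  rw [mem_ball, dist_zero_right] at hpB
  have hlistsum : ∀ x : E, ∀ c : ℝ, ((s.toList.map fun U => (v U, c * φ U x)).map Prod.snd).sum =
      c * ∑ U ∈ s, φ U x := by
    intro x c
    rw [List.map_map, Finset.mul_sum]
    exact Finset.sum_map_toList s _
  have hmiss : ∀ x ∈ B, Psi (cone G G') (s.toList.map fun U => (v U, 1 * φ U x)) x 0 ≠ p := by
    intro x hx heq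
    apply hp
    obtain ⟨L', w, t, h1, h2, h3, h4, h5⟩ := mem_simplices hC (n := n)
      (V := v '' (s : Set (Set E))) (s.toList.map fun U => (v U, 1 * φ U x))
      (by
        intro q hq
        obtain ⟨U, hU, rfl⟩ := List.mem_map.1 hq
        rw [Finset.mem_toList] at hU
        exact ⟨by simpa using hφ0 U hU x hx, Set.mem_image_of_mem v hU⟩)
      (by rw [hlistsum, hφs x hx]; norm_num)
      (T7_length hs (hm x) v _ (fun U hU h => hφm U hU x hx (by simpa using h))) x
    exact ⟨L', w, t, h1, h2, h3, h4, heq.symm.trans h5⟩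
  let θ : E → ℝ := fun x => max 0 (min 1 (‖x - p‖ - (ρ₂ - 1)))
  have hθc : Continuous θ := by
    change Continuous fun x => max 0 (min 1 (‖x - p‖ - (ρ₂ - 1)))
    fun_prop
  have hθ0 : ∀ x, 0 ≤ θ x := fun x => le_max_left _ _
  have hθ1 : ∀ x, θ x ≤ 1 := fun x => max_le zero_le_one (min_le_left _ _)
  let H : E → E := fun x =>
    Psi (cone G G') (s.toList.map fun U => (v U, (1 - θ x) * φ U x)) x (θ x)
  have hsub : closedBall p ρ₂ ⊆ B := by
    intro x hx
    rw [mem_closedBall, dist_eq_norm] at hx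
    rw [hB, mem_closedBall, dist_zero_right]
    have : ‖x‖ ≤ ‖x - p‖ + ‖p‖ := by
      have := norm_add_le (x - p) p
      rwa [sub_add_cancel] at this
    linarith
  have hHc : ContinuousOn H (closedBall p ρ₂) := by
    intro x hx
    refine continuousWithinAt_Psi hC v s.toList (fun U x => (1 - θ x) * φ U x) (fun x => x) θ
      (closedBall p ρ₂) ?_ ?_ continuousOn_id hθc.continuousOn (fun x _ => hθ0 x) x hx ?_
    · intro U hU
      rw [Finset.mem_toList] at hU
      exact (continuous_const.sub hθc).continuousOn.mul ((hφc U hU).mono hsub)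
    · intro U hU x hx
      rw [Finset.mem_toList] at hU
      exact mul_nonneg (by linarith [hθ1 x]) (hφ0 U hU x (hsub hx))
    · have h1 : (s.toList.map fun U => (1 - θ x) * φ U x).sum = (1 - θ x) * ∑ U ∈ s, φ U x := by
        rw [Finset.mul_sum]
        exact Finset.sum_map_toList s _
      rw [h1, hφs x (hsub hx)]
      linarith
  have hHid : ∀ x, ‖x - p‖ = ρ₂ → H x = x := by
    intro x hx
    have h1 : θ x = 1 := by
      change max 0 (min 1 (‖x - p‖ - (ρ₂ - 1))) = 1
      rw [hx]
      norm_num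
    change Psi (cone G G') (s.toList.map fun U => (v U, (1 - θ x) * φ U x)) x (θ x) = x
    apply Psi_of_zero hC
    intro q hq
    obtain ⟨U, _, rfl⟩ := List.mem_map.1 hq
    simp only
    rw [h1, sub_self, zero_mul]
  obtain ⟨x, hx, hxp⟩ := exists_eq_center (by linarith : 0 < ρ₂) hHc hHid
  have hxB := hsub hx
  rcases (hθ0 x).eq_or_lt with h0 | h0
  · apply hmiss x hxB
    have h1 : H x = Psi (cone G G') (s.toList.map fun U => (v U, (1 - θ x) * φ U x)) x (θ x) := rfl
    rw [← h0, sub_zero] at h1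
    rw [← h1]
    exact hxp
  · have h1 : ρ₂ - 1 < ‖x - p‖ := by
      by_contra hcon
      push Not at hcon
      have h2 : θ x = 0 := by
        change max 0 (min 1 (‖x - p‖ - (ρ₂ - 1))) = 0
        apply max_eq_left
        exact (min_le_right _ _).trans (by linarith)
      rw [h2] at h0
      exact lt_irrefl _ h0
    have h2 : ‖x - p‖ ≤ ‖x‖ + ‖p‖ := norm_sub_le x p
    have h3 : d x (H x) ≤ R := by
      apply hR x (s.toList.map fun U => (v U, (1 - θ x) * φ U x)) (θ x) (hθ0 x)
      · intro q hq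
        obtain ⟨U, hU, rfl⟩ := List.mem_map.1 hq
        rw [Finset.mem_toList] at hU
        exact mul_nonneg (by linarith [hθ1 x]) (hφ0 U hU x hxB)
      · intro q hq hq2
        obtain ⟨U, hU, rfl⟩ := List.mem_map.1 hq
        rw [Finset.mem_toList] at hU
        have h4 : φ U x ≠ 0 := right_ne_zero_of_mul hq2
        exact hD U (hs hU) x (hφm U hU x hxB h4) (v U) (hv U hU)
      · exact T7_length hs (hm x) v _
          (fun U hU h => hφm U hU x hxB (right_ne_zero_of_mul h))
    rw [hxp, hd.comm] at h3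
    have h4 := hρ₁ p x hpB.le h3
    linarith

end Pool.Agent.Lib.MP_df705a_gt.Pin
end
end
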