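import Pool.Agent.Lib.MP_df705a_gt.Mg.G058

section

/-!
# Conformal change of the metric of the base: definition
-/

open scoped Manifold ContDiff Topology
open Set Bundle Module Filter

noncomputable section

namespace Pool.Agent.Lib.MP_df705a_gt.Fib

open Pool.Agent.Lib.MP_df705a_gt.Twist Pool.Agent.Lib.MP_df705a_gt.Perm
open Pool.Agent.Lib.MP_df705a_gt.Circ (Horizontal Submersion HorAt cf Para)

variable {E₁ : Type*} [NormedAddCommGroup E₁] [NormedSpace ℝ E₁] [FiniteDimensional ℝ E₁]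
  {B : Type*} [TopologicalSpace B] [ChartedSpace E₁ B] [IsManifold 𝓘(ℝ, E₁) ∞ B]
  {E : Type*} [NormedAddCommGroup E] [NormedSpace ℝ E] [FiniteDimensional ℝ E]
  {M : Type*} [TopologicalSpace M] [ChartedSpace E M] [IsManifold 𝓘(ℝ, E) ∞ M]

/-- `g' = g + (e^{2ψ} - 1) pr^* gB`. -/
def IsChange (ψ : B → ℝ)
    (gB : ContMDiffRiemannianMetric 𝓘(ℝ, E₁) ∞ E₁ (fun x : B => TangentSpace 𝓘(ℝ, E₁) x))
    (pr : M → B)
    (g g' : ContMDiffRiemannianMetric 𝓘(ℝ, E) ∞ E (fun x : M => TangentSpace 𝓘(ℝ, E) x)) : Prop :=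
  ∀ (p : M) (u v : TangentSpace 𝓘(ℝ, E) p), g'.inner p u v = g.inner p u v +
    (Real.exp (ψ (pr p)) ^ 2 - 1) * gB.inner (pr p) (mfderiv 𝓘(ℝ, E) 𝓘(ℝ, E₁) pr p u)
      (mfderiv 𝓘(ℝ, E) 𝓘(ℝ, E₁) pr p v)

end Pool.Agent.Lib.MP_df705a_gt.Fib
end
end

section

/-!
# TASK C0: the orthogonal decomposition of tangent vectors
-/

open scoped Manifold ContDiff Topology
open Set Bundle Module Filter

noncomputable section

namespace Pool.Agent.Lib.MP_df705a_gt.Fib

open Pool.Agent.Lib.MP_df705a_gt.Twist Pool.Agent.Lib.MP_df705a_gt.Perm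
open Pool.Agent.Lib.MP_df705a_gt.Circ (Horizontal Submersion HorAt cf Para)

variable {E₁ : Type*} [NormedAddCommGroup E₁] [NormedSpace ℝ E₁] [FiniteDimensional ℝ E₁]
  {B : Type*} [TopologicalSpace B] [ChartedSpace E₁ B] [IsManifold 𝓘(ℝ, E₁) ∞ B]
  {E : Type*} [NormedAddCommGroup E] [NormedSpace ℝ E] [FiniteDimensional ℝ E]
  {M : Type*} [TopologicalSpace M] [ChartedSpace E M] [IsManifold 𝓘(ℝ, E) ∞ M]

theorem C0.decomp {V : Type*} [AddCommGroup V] [Module ℝ V] [FiniteDimensional ℝ V]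
    (b : LinearMap.BilinForm ℝ V) (hs : ∀ u v, b u v = b v u) (hp : ∀ u, u ≠ 0 → 0 < b u u)
    (W : Submodule ℝ V) (u : V) : ∃ a c : V, u = a + c ∧ (∀ w ∈ W, b a w = 0) ∧ c ∈ W := by
  have hr : b.IsRefl := fun x y h => by rw [hs]; exact h
  have hn : (b.restrict W).Nondegenerate := by
    have h1 : ∀ w : W, (∀ z : W, (b.restrict W) w z = 0) → w = 0 := by
      intro w h
      by_contra h0
      have h2 : (w : V) ≠ 0 := fun h3 => h0 (Subtype.ext h3)
      have h4 := hp _ h2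
      have h5 : b w w = 0 := h w
      rw [h5] at h4
      exact lt_irrefl _ h4
    refine ⟨h1, fun w h => h1 w fun z => ?_⟩
    have h6 : b z w = 0 := h z
    change b w z = 0
    rw [hs]
    exact h6
  have hc := LinearMap.BilinForm.isCompl_orthogonal_of_restrict_nondegenerate hr hn
  obtain ⟨c, hc1, a, ha, h⟩ := Submodule.mem_sup.1
    (show u ∈ W ⊔ b.orthogonal W by rw [hc.sup_eq_top]; exact Submodule.mem_top)
  exact ⟨a, c, by rw [← h, add_comm], fun w hw => by rw [hs]; exact ha w hw, hc1⟩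

theorem exists_decomp (g : ContMDiffRiemannianMetric 𝓘(ℝ, E) ∞ E
      (fun x : M => TangentSpace 𝓘(ℝ, E) x)) (pr : M → B) (p : M) (u : TangentSpace 𝓘(ℝ, E) p) :
    ∃ a b : TangentSpace 𝓘(ℝ, E) p, u = a + b ∧ Horizontal (E₁ := E₁) g pr p a ∧
      mfderiv 𝓘(ℝ, E) 𝓘(ℝ, E₁) pr p b = 0 := by
  have : FiniteDimensional ℝ (TangentSpace 𝓘(ℝ, E) p) := inferInstanceAs (FiniteDimensional ℝ E)
  let b : LinearMap.BilinForm ℝ (TangentSpace 𝓘(ℝ, E) p) :=
    LinearMap.mk₂ ℝ (fun u v => g.inner p u v) (fun u v w => by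
      change g.inner p (u + v) w = _
      rw [map_add]; rfl) (fun c u v => by
      change g.inner p (c • u) v = _
      rw [map_smul]; rfl) (fun u v w => map_add (g.inner p u) v w)
      (fun c u v => map_smul (g.inner p u) c v)
  obtain ⟨a, c, h1, h2, h3⟩ := C0.decomp b (fun u v => g.symm p u v) (fun u hu => g.pos p u hu)
    (LinearMap.ker (mfderiv 𝓘(ℝ, E) 𝓘(ℝ, E₁) pr p).toLinearMap) u
  exact ⟨a, c, h1, fun w hw => h2 w hw, h3⟩

end Pool.Agent.Lib.MP_df705a_gt.Fib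
end
end
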