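import Pool.Agent.Lib.MP_df705a_gt.Mg.G061
import Pool.Agent.Lib.MP_df705a_gt.Mg.G062
import Pool.Agent.Lib.MP_df705a_gt.Mg.G003
import Pool.Agent.Lib.MP_df705a_gt.Mg.G007
import Pool.Agent.Lib.MP_df705a_gt.Mg.G009
import Pool.Agent.Lib.MP_df705a_gt.Coll.Defs
import Pool.Agent.Lib.MP_df705a_gt.Mg.G012
import Pool.Agent.Lib.MP_df705a_gt.Mg.G013
import Pool.Agent.Lib.MP_df705a_gt.Mg.G016
import Pool.Agent.Lib.MP_df705a_gt.Fib.Defs

section

/-!
# TASK R3: the Laplace operator of a closed manifold as an abstract Laplace operator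
-/

open scoped Manifold ContDiff Topology
open Set Bundle Module Filter

noncomputable section

namespace Pool.Agent.Lib.MP_df705a_gt.Perm

open Pool.Agent.Lib.MP_df705a_gt.Twist

/-- On a compact space an inequality `F ≤ C G` which holds locally, holds globally. -/
theorem exists_global_const {X : Type*} [TopologicalSpace X] [CompactSpace X] {F G : X → ℝ}
    (hG : ∀ x, 0 ≤ G x) (h : ∀ x, ∃ C : ℝ, ∀ᶠ y in 𝓝 x, F y ≤ C * G y) :
    ∃ C : ℝ, ∀ x, F x ≤ C * G x := by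
  choose C hC using h
  obtain ⟨t, ht⟩ := CompactSpace.elim_nhds_subcover (fun x => {y | F y ≤ C x * G y}) hC
  refine ⟨∑ x ∈ t, |C x|, fun y => ?_⟩
  have hy : y ∈ ⋃ x ∈ t, {y | F y ≤ C x * G y} := by rw [ht]; trivial
  simp only [mem_iUnion] at hy
  obtain ⟨x, hx, hxy⟩ := hy
  have h1 : F y ≤ C x * G y := hxy
  have h2 : |C x| ≤ ∑ x ∈ t, |C x| :=
    Finset.single_le_sum (f := fun i => |C i|) (fun i _ => abs_nonneg (C i)) hx
  calc F y ≤ C x * G y := h1
    _ ≤ |C x| * G y := mul_le_mul_of_nonneg_right (le_abs_self _) (hG y)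
    _ ≤ _ := mul_le_mul_of_nonneg_right h2 (hG y)

/-- The local inequality at points where `G` is positive. -/
theorem sysOf_off {X : Type*} [TopologicalSpace X] {F G : X → ℝ} (hF : Continuous F)
    (hG : Continuous G) {x : X} (hx : 0 < G x) : ∃ C : ℝ, ∀ᶠ y in 𝓝 x, F y ≤ C * G y := by
  refine ⟨(|F x| + 1) / (G x / 2), ?_⟩
  have h1 : ∀ᶠ y in 𝓝 x, F y < |F x| + 1 :=
    hF.continuousAt.eventually_lt_const (lt_of_le_of_lt (le_abs_self _) (lt_add_one _))
  have h2 : ∀ᶠ y in 𝓝 x, G x / 2 < G y := hG.continuousAt.eventually_const_lt (half_lt_self hx)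
  filter_upwards [h1, h2] with y hy1 hy2
  have h4 : (|F x| + 1) / (G x / 2) * (G x / 2) = |F x| + 1 :=
    div_mul_cancel₀ _ (by positivity)
  have h3 : 0 ≤ (|F x| + 1) / (G x / 2) := by positivity
  have h5 := mul_le_mul_of_nonneg_left hy2.le h3
  linarith

theorem sysOf_swap {X : Type*} [TopologicalSpace X] {F : X → X → ℝ}
    (h : Continuous fun p : X × X => F p.1 p.2) : Continuous fun p : X × X => F p.2 p.1 :=
  h.comp continuous_swap

variable {E : Type*} [NormedAddCommGroup E] [NormedSpace ℝ E] [FiniteDimensional ℝ E]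
  {M : Type*} [TopologicalSpace M] [ChartedSpace E M] [IsManifold 𝓘(ℝ, E) ∞ M]

omit [FiniteDimensional ℝ E] [IsManifold 𝓘(ℝ, E) ∞ M] in
theorem sysOf_slice {ρ : M × M → ℝ} (hρ : ContMDiff (𝓘(ℝ, E).prod 𝓘(ℝ, E)) 𝓘(ℝ, ℝ) ∞ ρ)
    (y : M) : Sm E (fun x => ρ (x, y)) := by
  have h : ContMDiff 𝓘(ℝ, E) (𝓘(ℝ, E).prod 𝓘(ℝ, E)) ∞ (fun x : M => (x, y)) :=
    contMDiff_id.prodMk contMDiff_const
  exact hρ.comp h

theorem sysOf_LR (g : ContMDiffRiemannianMetric 𝓘(ℝ, E) ∞ E (fun x : M => TangentSpace 𝓘(ℝ, E) x))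
    {ρ : M × M → ℝ} (hρ : ContMDiff (𝓘(ℝ, E).prod 𝓘(ℝ, E)) 𝓘(ℝ, ℝ) ∞ ρ) (z : M) {x y : M}
    (hx : x ∈ (extChartAt 𝓘(ℝ, E) z).source) (hy : y ∈ (extChartAt 𝓘(ℝ, E) z).source) :
    LR (coeff g z) (rd₂ E z ρ) (extChartAt 𝓘(ℝ, E) z x, extChartAt 𝓘(ℝ, E) z y) =
      Lap g (fun x' => ρ (x', y)) x := by
  have h1 := lap_chart g (sysOf_slice hρ y) z ((extChartAt 𝓘(ℝ, E) z).map_source hx)
  rw [(extChartAt 𝓘(ℝ, E) z).left_inv hx] at h1
  rw [← h1]
  unfold LR rd₂ rd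
  simp only [(extChartAt 𝓘(ℝ, E) z).left_inv hy]

theorem sysOf_GR (g : ContMDiffRiemannianMetric 𝓘(ℝ, E) ∞ E (fun x : M => TangentSpace 𝓘(ℝ, E) x))
    {ρ : M × M → ℝ} (hρ : ContMDiff (𝓘(ℝ, E).prod 𝓘(ℝ, E)) 𝓘(ℝ, ℝ) ∞ ρ) (z : M) {x y : M}
    (hx : x ∈ (extChartAt 𝓘(ℝ, E) z).source) (hy : y ∈ (extChartAt 𝓘(ℝ, E) z).source) :
    GR (coeff g z) (rd₂ E z ρ) (extChartAt 𝓘(ℝ, E) z x, extChartAt 𝓘(ℝ, E) z y) =
      Grd g (fun x' => ρ (x', y)) (fun x' => ρ (x', y)) x := by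
  have h1 := grd_chart g (sysOf_slice hρ y) (sysOf_slice hρ y) z
    ((extChartAt 𝓘(ℝ, E) z).map_source hx)
  rw [(extChartAt 𝓘(ℝ, E) z).left_inv hx] at h1
  rw [← h1]
  unfold GR rd₂ rd
  simp only [(extChartAt 𝓘(ℝ, E) z).left_inv hy]

/-- The local estimates on the manifold, near the diagonal. -/
theorem sysOf_diag (g : ContMDiffRiemannianMetric 𝓘(ℝ, E) ∞ E (fun x : M => TangentSpace 𝓘(ℝ, E) x))
    {ρ : M × M → ℝ} (hρ : ContMDiff (𝓘(ℝ, E).prod 𝓘(ℝ, E)) 𝓘(ℝ, ℝ) ∞ ρ)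
    (hD : ∀ z : M, LocData (coeff g z) (rd₂ E z ρ) (extChartAt 𝓘(ℝ, E) z).target) (p : M) :
    ∃ C c : ℝ, 0 ≤ C ∧ 0 < c ∧ ∀ᶠ q : M × M in 𝓝 (p, p),
      |Lap g (fun x => ρ (x, q.2)) q.1 - Lap g (fun x => ρ (x, q.1)) q.2| ≤
        C * (ρ q * √(ρ q)) ∧
      |Grd g (fun x => ρ (x, q.2)) (fun x => ρ (x, q.2)) q.1 -
        Grd g (fun x => ρ (x, q.1)) (fun x => ρ (x, q.1)) q.2| ≤ C * (ρ q ^ 2 * √(ρ q)) ∧
      c * ρ q ≤ Grd g (fun x => ρ (x, q.2)) (fun x => ρ (x, q.2)) q.1 := by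
  obtain ⟨C, c, hC, hc, h⟩ := loc_est (hD p)
    ((extChartAt 𝓘(ℝ, E) p).map_source (mem_extChartAt_source (I := 𝓘(ℝ, E)) p))
  refine ⟨C, c, hC, hc, ?_⟩
  have h1 : ContinuousAt (fun q : M × M => (extChartAt 𝓘(ℝ, E) p q.1, extChartAt 𝓘(ℝ, E) p q.2))
      (p, p) := by
    have h2 : ContinuousAt (fun q : M × M => extChartAt 𝓘(ℝ, E) p q.1) (p, p) :=
      (continuousAt_extChartAt (I := 𝓘(ℝ, E)) p).comp (x := (p, p)) continuousAt_fst
    have h3 : ContinuousAt (fun q : M × M => extChartAt 𝓘(ℝ, E) p q.2) (p, p) :=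
      (continuousAt_extChartAt (I := 𝓘(ℝ, E)) p).comp (x := (p, p)) continuousAt_snd
    exact h2.prodMk h3
  have h4 := h1.eventually h
  have h5 : ∀ᶠ q : M × M in 𝓝 (p, p), q.1 ∈ (extChartAt 𝓘(ℝ, E) p).source :=
    (continuous_fst.tendsto (p, p)).eventually (extChartAt_source_mem_nhds (I := 𝓘(ℝ, E)) p)
  have h6 : ∀ᶠ q : M × M in 𝓝 (p, p), q.2 ∈ (extChartAt 𝓘(ℝ, E) p).source :=
    (continuous_snd.tendsto (p, p)).eventually (extChartAt_source_mem_nhds (I := 𝓘(ℝ, E)) p)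
  filter_upwards [h4, h5, h6] with q hq hq1 hq2
  rw [sysOf_LR g hρ p hq1 hq2, sysOf_LR g hρ p hq2 hq1, sysOf_GR g hρ p hq1 hq2,
    sysOf_GR g hρ p hq2 hq1] at hq
  have h7 : rd₂ E p ρ (extChartAt 𝓘(ℝ, E) p q.1, extChartAt 𝓘(ℝ, E) p q.2) = ρ q := by
    unfold rd₂
    simp only [(extChartAt 𝓘(ℝ, E) p).left_inv hq1, (extChartAt 𝓘(ℝ, E) p).left_inv hq2]
  rw [h7] at hq
  exact hq

/-- The estimate for the Laplacians. -/
theorem sysOf_e1 [CompactSpace M]
    (g : ContMDiffRiemannianMetric 𝓘(ℝ, E) ∞ E (fun x : M => TangentSpace 𝓘(ℝ, E) x))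
    {ρ : M × M → ℝ} (hρ : ContMDiff (𝓘(ℝ, E).prod 𝓘(ℝ, E)) 𝓘(ℝ, ℝ) ∞ ρ)
    (hnn : ∀ q, 0 ≤ ρ q) (hpos : ∀ x y, x ≠ y → 0 < ρ (x, y))
    (hD : ∀ z : M, LocData (coeff g z) (rd₂ E z ρ) (extChartAt 𝓘(ℝ, E) z).target)
    (hL : Continuous fun p : M × M => Lap g (fun x => ρ (x, p.2)) p.1) :
    ∃ C : ℝ, ∀ q : M × M,
      |Lap g (fun x => ρ (x, q.2)) q.1 - Lap g (fun x => ρ (x, q.1)) q.2| ≤
        C * (ρ q * √(ρ q)) := by
  have hcont : Continuous ρ := hρ.continuous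
  have hL' : Continuous fun p : M × M => Lap g (fun x => ρ (x, p.1)) p.2 :=
    sysOf_swap (F := fun x y => Lap g (fun z => ρ (z, y)) x) hL
  refine exists_global_const (fun q => mul_nonneg (hnn q) (Real.sqrt_nonneg _)) ?_
  rintro ⟨x, y⟩
  by_cases h : x = y
  · subst h
    obtain ⟨C, c, _, _, h⟩ := sysOf_diag g hρ hD x
    exact ⟨C, h.mono fun q hq => hq.1⟩
  · exact sysOf_off (F := fun q : M × M =>
        |Lap g (fun x => ρ (x, q.2)) q.1 - Lap g (fun x => ρ (x, q.1)) q.2|)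
      (G := fun q => ρ q * √(ρ q)) (x := (x, y)) (hL.sub hL').abs (hcont.mul hcont.sqrt)
      (mul_pos (hpos x y h) (Real.sqrt_pos.2 (hpos x y h)))

/-- The estimate for the gradients. -/
theorem sysOf_e2 [CompactSpace M]
    (g : ContMDiffRiemannianMetric 𝓘(ℝ, E) ∞ E (fun x : M => TangentSpace 𝓘(ℝ, E) x))
    {ρ : M × M → ℝ} (hρ : ContMDiff (𝓘(ℝ, E).prod 𝓘(ℝ, E)) 𝓘(ℝ, ℝ) ∞ ρ)
    (hnn : ∀ q, 0 ≤ ρ q) (hpos : ∀ x y, x ≠ y → 0 < ρ (x, y))
    (hD : ∀ z : M, LocData (coeff g z) (rd₂ E z ρ) (extChartAt 𝓘(ℝ, E) z).target)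
    (hG : Continuous fun p : M × M =>
      Grd g (fun x => ρ (x, p.2)) (fun x => ρ (x, p.2)) p.1) :
    ∃ C : ℝ, ∀ q : M × M,
      |Grd g (fun x => ρ (x, q.2)) (fun x => ρ (x, q.2)) q.1 -
        Grd g (fun x => ρ (x, q.1)) (fun x => ρ (x, q.1)) q.2| ≤ C * (ρ q ^ 2 * √(ρ q)) := by
  have hcont : Continuous ρ := hρ.continuous
  have hG' : Continuous fun p : M × M =>
      Grd g (fun x => ρ (x, p.1)) (fun x => ρ (x, p.1)) p.2 :=
    sysOf_swap (F := fun x y => Grd g (fun z => ρ (z, y)) (fun z => ρ (z, y)) x) hG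
  refine exists_global_const
    (fun q => mul_nonneg (pow_nonneg (hnn q) 2) (Real.sqrt_nonneg _)) ?_
  rintro ⟨x, y⟩
  by_cases h : x = y
  · subst h
    obtain ⟨C, c, _, _, h⟩ := sysOf_diag g hρ hD x
    exact ⟨C, h.mono fun q hq => hq.2.1⟩
  · exact sysOf_off (F := fun q : M × M =>
        |Grd g (fun x => ρ (x, q.2)) (fun x => ρ (x, q.2)) q.1 -
          Grd g (fun x => ρ (x, q.1)) (fun x => ρ (x, q.1)) q.2|)
      (G := fun q => ρ q ^ 2 * √(ρ q)) (x := (x, y)) (hG.sub hG').abs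
      ((hcont.pow 2).mul hcont.sqrt)
      (mul_pos (pow_pos (hpos x y h) 2) (Real.sqrt_pos.2 (hpos x y h)))

/-- The lower bound for the gradients. -/
theorem sysOf_e3 [CompactSpace M]
    (g : ContMDiffRiemannianMetric 𝓘(ℝ, E) ∞ E (fun x : M => TangentSpace 𝓘(ℝ, E) x))
    {ρ : M × M → ℝ} (hρ : ContMDiff (𝓘(ℝ, E).prod 𝓘(ℝ, E)) 𝓘(ℝ, ℝ) ∞ ρ)
    (hnn : ∀ q, 0 ≤ ρ q) (hpos : ∀ x y, x ≠ y → 0 < ρ (x, y))
    (hD : ∀ z : M, LocData (coeff g z) (rd₂ E z ρ) (extChartAt 𝓘(ℝ, E) z).target)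
    (hG : Continuous fun p : M × M =>
      Grd g (fun x => ρ (x, p.2)) (fun x => ρ (x, p.2)) p.1) :
    ∃ C : ℝ, ∀ q : M × M,
      ρ q ≤ C * (Grd g (fun x => ρ (x, q.2)) (fun x => ρ (x, q.2)) q.1 + ρ q ^ 2) := by
  have hcont : Continuous ρ := hρ.continuous
  refine exists_global_const
    (fun q => add_nonneg (grd_nonneg g _ _) (pow_nonneg (hnn q) 2)) ?_
  rintro ⟨x, y⟩
  by_cases h : x = y
  · subst h
    obtain ⟨C, c, _, hc, h⟩ := sysOf_diag g hρ hD x
    refine ⟨1 / c, h.mono fun q hq => ?_⟩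
    have h1 := hq.2.2
    have h2 := pow_nonneg (hnn q) 2
    rw [one_div, inv_mul_eq_div, le_div_iff₀ hc]
    linarith
  · refine sysOf_off hcont (hG.add (hcont.pow 2)) ?_
    have h1 := grd_nonneg g (fun x' => ρ (x', y)) x
    have h2 : 0 < ρ (x, y) ^ 2 := pow_pos (hpos x y h) 2
    exact add_pos_of_nonneg_of_pos h1 h2

/-- From the global constant to a lower bound near the diagonal. -/
theorem sysOf_e4 {X : Type*} {F G : X → ℝ} (h0 : ∀ x, 0 ≤ F x) (hG : ∀ x, 0 ≤ G x) {C : ℝ}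
    (h : ∀ x, F x ≤ C * (G x + F x ^ 2)) :
    ∃ c r : ℝ, 0 < c ∧ 0 < r ∧ ∀ x, F x ≤ r → c * F x ≤ G x := by
  have hA : 0 < |C| + 1 := by positivity
  refine ⟨1 / (2 * (|C| + 1)), 1 / (2 * (|C| + 1)), by positivity, by positivity, ?_⟩
  intro x hx
  have h2 : 0 ≤ G x + F x ^ 2 := add_nonneg (hG x) (pow_nonneg (h0 x) 2)
  have h3 : F x ≤ (|C| + 1) * (G x + F x ^ 2) :=
    (h x).trans (mul_le_mul_of_nonneg_right (by linarith [le_abs_self C]) h2)
  have h4 : (|C| + 1) * F x ≤ 1 / 2 := by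
    have h5 := mul_le_mul_of_nonneg_left hx hA.le
    have h6 : (|C| + 1) * (1 / (2 * (|C| + 1))) = 1 / 2 := by
      field_simp
    rwa [h6] at h5
  have h7 : (|C| + 1) * F x ^ 2 ≤ F x / 2 := by
    have := mul_le_mul_of_nonneg_right h4 (h0 x)
    nlinarith
  rw [one_div, inv_mul_eq_div, div_le_iff₀ (by positivity)]
  linarith

theorem exists_sys [CompactSpace M] [T2Space M]
    (g : ContMDiffRiemannianMetric 𝓘(ℝ, E) ∞ E (fun x : M => TangentSpace 𝓘(ℝ, E) x)) :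
    ∃ A : LapSys M, A.S = {f | Sm E f} ∧ A.Lap = Lap g ∧ A.Gam = fun f => Grd g f f := by
  obtain ⟨ρ, hρ, hsymm, hself, hpos, hD⟩ := exists_rho g
  have hnn : ∀ q : M × M, 0 ≤ ρ q := by
    rintro ⟨x, y⟩
    by_cases h : x = y
    · rw [h, hself]
    · exact (hpos x y h).le
  have hcont : Continuous ρ := hρ.continuous
  have hL : Continuous fun p : M × M => Lap g (fun x => ρ (x, p.2)) p.1 := lap_cont₂ g hρ
  have hG : Continuous fun p : M × M =>
      Grd g (fun x => ρ (x, p.2)) (fun x => ρ (x, p.2)) p.1 := grd_cont₂ g hρ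
  obtain ⟨C1, hC1⟩ := sysOf_e1 g hρ hnn hpos hD hL
  obtain ⟨C2, hC2⟩ := sysOf_e2 g hρ hnn hpos hD hG
  obtain ⟨C3, hC3⟩ := sysOf_e3 g hρ hnn hpos hD hG
  obtain ⟨c, r, hc, hr, h4⟩ := sysOf_e4 hnn (fun q : M × M => grd_nonneg g _ _) hC3
  exact ⟨{  S := {f | Sm E f}
            Lap := Lap g
            Gam := fun f => Grd g f f
            rho := fun x y => ρ (x, y)
            cont := fun f hf => ContMDiff.continuous hf
            lap_cont := fun f hf => lap_cont g hf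
            const_mem := fun c => sm_const c
            add_mem := fun f hf f' hf' => sm_add hf hf'
            smul_mem := fun f hf c => sm_smul hf c
            lap_const := fun c x => lap_const g c x
            lap_add := fun f hf f' hf' x => lap_add g hf hf' x
            lap_smul := fun f hf c x => lap_smul g hf c x
            comp_mem := fun f hf φ hφ => sm_comp hf hφ
            lap_comp := fun f hf φ hφ x => lap_comp g hf hφ x
            gam_nonneg := fun f _ x => grd_nonneg g f x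
            rho_mem := fun y => sysOf_slice hρ y
            rho_symm := hsymm
            rho_self := hself
            rho_pos := hpos
            rho_cont := hcont
            lapRho_cont := hL
            gamRho_cont := hG
            est1 := ⟨C1, fun x y => hC1 (x, y)⟩
            est2 := ⟨C2, fun x y => hC2 (x, y)⟩
            est3 := ⟨c, r, hc, hr, fun x y h => h4 (x, y) h⟩ }, rfl, rfl, rfl⟩

end Pool.Agent.Lib.MP_df705a_gt.Perm
end
end

section

/-!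
# The system of kernels
-/

open scoped Manifold ContDiff Topology
open Set Bundle Module Filter MeasureTheory

noncomputable section

namespace Pool.Agent.Lib.MP_df705a_gt.Coll

open Pool.Agent.Lib.MP_df705a_gt.Twist Pool.Agent.Lib.MP_df705a_gt.Perm
open Pool.Agent.Lib.MP_df705a_gt.Circ (Horizontal Submersion cf Para HorConf)
open Pool.Agent.Lib.MP_df705a_gt.Fib (RiemSub Biconformal)

variable {E : Type*} [NormedAddCommGroup E] [NormedSpace ℝ E] [FiniteDimensional ℝ E]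
  {M : Type*} [TopologicalSpace M] [ChartedSpace E M] [IsManifold 𝓘(ℝ, E) ∞ M]

/-- `Perm.exists_sys` together with the function `ρ` of `Perm.exists_rho` (copy the proof of
`Perm.exists_sys`). -/
theorem exists_sys' [CompactSpace M] [T2Space M] (g : Met E M) :
    ∃ (A : LapSys M) (ρ : M × M → ℝ), A.S = {f | Sm E f} ∧ A.Lap = Lap g ∧
      (∀ x y, A.rho x y = ρ (x, y)) ∧
      ContMDiff (𝓘(ℝ, E).prod 𝓘(ℝ, E)) 𝓘(ℝ, ℝ) ∞ ρ ∧
      ∀ z : M, LocData (coeff g z) (rd₂ E z ρ) (extChartAt 𝓘(ℝ, E) z).target := by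
  obtain ⟨ρ, hρ, hsymm, hself, hpos, hD⟩ := exists_rho g
  have hnn : ∀ q : M × M, 0 ≤ ρ q := by
    rintro ⟨x, y⟩
    by_cases h : x = y
    · rw [h, hself]
    · exact (hpos x y h).le
  have hcont : Continuous ρ := hρ.continuous
  have hL : Continuous fun p : M × M => Lap g (fun x => ρ (x, p.2)) p.1 := lap_cont₂ g hρ
  have hG : Continuous fun p : M × M =>
      Grd g (fun x => ρ (x, p.2)) (fun x => ρ (x, p.2)) p.1 := grd_cont₂ g hρ
  obtain ⟨C1, hC1⟩ := sysOf_e1 g hρ hnn hpos hD hL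
  obtain ⟨C2, hC2⟩ := sysOf_e2 g hρ hnn hpos hD hG
  obtain ⟨C3, hC3⟩ := sysOf_e3 g hρ hnn hpos hD hG
  obtain ⟨c, r, hc, hr, h4⟩ := sysOf_e4 hnn (fun q : M × M => grd_nonneg g _ _) hC3
  exact ⟨{  S := {f | Sm E f}
            Lap := Lap g
            Gam := fun f => Grd g f f
            rho := fun x y => ρ (x, y)
            cont := fun f hf => ContMDiff.continuous hf
            lap_cont := fun f hf => lap_cont g hf
            const_mem := fun c => sm_const c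
            add_mem := fun f hf f' hf' => sm_add hf hf'
            smul_mem := fun f hf c => sm_smul hf c
            lap_const := fun c x => lap_const g c x
            lap_add := fun f hf f' hf' x => lap_add g hf hf' x
            lap_smul := fun f hf c x => lap_smul g hf c x
            comp_mem := fun f hf φ hφ => sm_comp hf hφ
            lap_comp := fun f hf φ hφ x => lap_comp g hf hφ x
            gam_nonneg := fun f _ x => grd_nonneg g f x
            rho_mem := fun y => sysOf_slice hρ y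
            rho_symm := hsymm
            rho_self := hself
            rho_pos := hpos
            rho_cont := hcont
            lapRho_cont := hL
            gamRho_cont := hG
            est1 := ⟨C1, fun x y => hC1 (x, y)⟩
            est2 := ⟨C2, fun x y => hC2 (x, y)⟩
            est3 := ⟨c, r, hc, hr, fun x y h => h4 (x, y) h⟩ }, ρ, rfl, rfl, fun _ _ => rfl,
    hρ, hD⟩

end Pool.Agent.Lib.MP_df705a_gt.Coll
end
end

section

/-!
# A sequence of kernels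
-/

open scoped Manifold ContDiff Topology
open Set Bundle Module Filter MeasureTheory

noncomputable section

namespace Pool.Agent.Lib.MP_df705a_gt.Coll

open Pool.Agent.Lib.MP_df705a_gt.Twist Pool.Agent.Lib.MP_df705a_gt.Perm
open Pool.Agent.Lib.MP_df705a_gt.Circ (Horizontal Submersion cf Para HorConf)
open Pool.Agent.Lib.MP_df705a_gt.Fib (RiemSub Biconformal)

variable {E : Type*} [NormedAddCommGroup E] [NormedSpace ℝ E] [FiniteDimensional ℝ E]
  {M : Type*} [TopologicalSpace M] [ChartedSpace E M] [IsManifold 𝓘(ℝ, E) ∞ M]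
  [MeasurableSpace E] [BorelSpace E] [MeasurableSpace M] [BorelSpace M]
  [CompactSpace M] [T2Space M]
  {g : Met E M} {μ : Measure M}

namespace KerAux

omit [NormedSpace ℝ E] [FiniteDimensional ℝ E] [ChartedSpace E M] [IsManifold 𝓘(ℝ, E) ∞ M]
  [MeasurableSpace E] [BorelSpace E] [MeasurableSpace M] [BorelSpace M] [T2Space M] in
theorem near_bound (A : LapSys M) (N : ℕ) {r : M → ℝ} (hr : Continuous r) {η : ℝ} (hη : 0 < η) :
    ∃ C : ℝ, 0 ≤ C ∧ ∀ s : ℝ, 0 < s → ∀ x y,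
      |r x - r y| * ker N s (A.rho x y) ≤ η * ker N s (A.rho x y) + C := by
  have hf : Continuous fun p : M × M => |r p.1 - r p.2| :=
    ((hr.comp continuous_fst).sub (hr.comp continuous_snd)).abs
  set Z : Set (M × M) := {p | η ≤ |r p.1 - r p.2|} with hZ
  have hZc : IsCompact Z := (isClosed_le continuous_const hf).isCompact
  rcases Z.eq_empty_or_nonempty with hZe | hZn
  · refine ⟨0, le_rfl, fun s hs x y => ?_⟩
    have h1 : |r x - r y| < η := by
      by_contra hcon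
      have : ((x, y) : M × M) ∈ Z := not_lt.1 hcon
      rw [hZe] at this
      exact this
    have h2 := ker_nonneg N hs (rho_nonneg A x y)
    nlinarith
  · obtain ⟨p₀, hp₀, hmin⟩ := hZc.exists_isMinOn hZn A.rho_cont.continuousOn
    obtain ⟨p₁, hp₁, hmax⟩ := hZc.exists_isMaxOn hZn hf.continuousOn
    have hne : p₀.1 ≠ p₀.2 := by
      intro h
      have h1 : η ≤ |r p₀.1 - r p₀.2| := hp₀
      rw [h, sub_self, abs_zero] at h1
      linarith
    have hδ : 0 < A.rho p₀.1 p₀.2 := A.rho_pos _ _ hne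
    set δ : ℝ := A.rho p₀.1 p₀.2 with hδd
    refine ⟨|r p₁.1 - r p₁.2| * (δ ^ N)⁻¹, by positivity, fun s hs x y => ?_⟩
    have h2 := ker_nonneg N hs (rho_nonneg A x y)
    by_cases hxy : ((x, y) : M × M) ∈ Z
    · have h3 : δ ≤ A.rho x y := hmin hxy
      have h4 : |r x - r y| ≤ |r p₁.1 - r p₁.2| := hmax hxy
      have h5 : ker N s (A.rho x y) ≤ (δ ^ N)⁻¹ := by
        unfold Perm.ker
        exact inv_anti₀ (pow_pos hδ N) (pow_le_pow_left₀ hδ.le (by linarith) N)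
      have h6 : |r x - r y| * ker N s (A.rho x y) ≤ |r p₁.1 - r p₁.2| * (δ ^ N)⁻¹ :=
        mul_le_mul h4 h5 h2 (abs_nonneg _)
      have h7 : 0 ≤ η * ker N s (A.rho x y) := mul_nonneg hη.le h2
      linarith
    · have h3 : |r x - r y| < η := not_le.1 hxy
      have h4 : 0 ≤ |r p₁.1 - r p₁.2| * (δ ^ N)⁻¹ := by positivity
      nlinarith

theorem pow_bound (d : ℕ) {s : ℝ} (hs : 0 < s) (hs1 : s ≤ 1) :
    1 / s ≤ √ s ^ d / s ^ (d + 1) := by
  have h1 : s ≤ √ s := by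
    rw [Real.le_sqrt hs.le hs.le]
    nlinarith
  have h2 : s ^ d ≤ √ s ^ d := pow_le_pow_left₀ hs.le h1 d
  rw [div_le_div_iff₀ hs (pow_pos hs _), one_mul, pow_succ]
  exact mul_le_mul_of_nonneg_right h2 hs.le

end KerAux

/-- A sequence of kernels concentrating near the diagonal whose commutators with the Laplacian are
small. -/
structure Kern (g : Met E M) [MeasurableSpace M] (μ : Measure M) (K : ℕ → M → M → ℝ) : Prop where
  cont : ∀ j, Continuous fun p : M × M => K j p.1 p.2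
  pos : ∀ j x y, 0 < K j x y
  symm : ∀ j x y, K j x y = K j y x
  sm : ∀ j y, Sm E fun x => K j x y
  lap_cont : ∀ j, Continuous fun p : M × M => Lap g (fun x => K j x p.2) p.1
  comm : ∀ η : ℝ, 0 < η → ∃ C : ℝ, 0 ≤ C ∧ ∀ j x y,
    |Lap g (fun z => K j z y) x - Lap g (fun z => K j z x) y| ≤ η * K j x y + C
  near : ∀ r : M → ℝ, Continuous r → ∀ η : ℝ, 0 < η → ∃ C : ℝ, 0 ≤ C ∧ ∀ j x y,
    |r x - r y| * K j x y ≤ η * K j x y + C
  cmp : ∃ κ : ℝ, 0 < κ ∧ ∀ j x x', ∫ y, K j x y ∂μ ≤ κ * ∫ y, K j x' y ∂μ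
  tends : ∀ x, Tendsto (fun j => ∫ y, K j x y ∂μ) atTop atTop

/-- Proof: `K j x y = ker N (1 / (j + 1)) (A.rho x y)` with the system of `exists_sys'` and
`N = finrank ℝ E + 1`; `comm`: `Perm.kernel_est` with `c = 1`, `V = 0`, for `(x, y)` and `(y, x)`;
`near`: near the diagonal `|r x - r y| ≤ η`, away from it `ρ ≥ δ` and `K ≤ δ ^ (-N)`;
`cmp`, `tends`: `mass_bounds`. -/
theorem exists_kern (hd : 0 < finrank ℝ E) (hμ : IsRVol g μ) :
    ∃ K : ℕ → M → M → ℝ, Kern g μ K := by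
  obtain ⟨A, ρ, hS, hL, hrho, hρ, hD⟩ := exists_sys' g
  set N : ℕ := finrank ℝ E + 1 with hN
  have hs : ∀ j : ℕ, (0 : ℝ) < 1 / ((j : ℝ) + 1) := fun j => by positivity
  have hs1 : ∀ j : ℕ, (1 : ℝ) / ((j : ℝ) + 1) ≤ 1 := fun j => by
    rw [div_le_one (by positivity)]
    have : (0 : ℝ) ≤ j := Nat.cast_nonneg j
    linarith
  have hself : ∀ x, ρ (x, x) = 0 := fun x => by rw [← hrho, A.rho_self]
  have hpos : ∀ x y, x ≠ y → 0 < ρ (x, y) := fun x y h => by
    rw [← hrho]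
    exact A.rho_pos x y h
  obtain ⟨c, C, hc, hC, hb⟩ := mass_bounds hd hμ hρ hself hpos hD (N := N) (by omega)
  have hint : ∀ (j : ℕ) (x : M), ∫ y, ker N (1 / ((j : ℝ) + 1)) (A.rho x y) ∂μ =
      ∫ y, ker N (1 / ((j : ℝ) + 1)) (ρ (x, y)) ∂μ := fun j x => by
    simp only [hrho]
  refine ⟨fun j x y => ker N (1 / ((j : ℝ) + 1)) (A.rho x y), ?_⟩
  constructor
  · exact fun j => ker_cont A N (hs j)
  · exact fun j x y => ker_pos' N (hs j) (rho_nonneg A x y)
  · intro j x y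
    rw [A.rho_symm]
  · intro j y
    have h1 := ker_mem A N (hs j) y
    rw [hS] at h1
    exact h1
  · intro j
    have h1 := lapKer_cont A N (hs j)
    rw [hL] at h1
    exact h1
  · intro η hη
    obtain ⟨C', hC'⟩ := kernel_est A one_pos (V := fun _ => (0 : ℝ)) continuous_const N hη
    refine ⟨|C'|, abs_nonneg _, fun j x y => ?_⟩
    have h1 := hC' _ (hs j) (hs1 j) x y
    have h2 := hC' _ (hs j) (hs1 j) y x
    unfold LapSys.op at h1 h2
    rw [hL] at h1 h2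
    rw [A.rho_symm y x] at h2
    have h3 := le_abs_self C'
    rw [abs_le]
    constructor
    · linarith
    · linarith
  · intro r hr η hη
    obtain ⟨C', hC', h1⟩ := KerAux.near_bound A N hr hη
    exact ⟨C', hC', fun j x y => h1 _ (hs j) x y⟩
  · refine ⟨C / c, by positivity, fun j x x' => ?_⟩
    have h1 := (hb x _ (hs j) (hs1 j)).2
    have h2 := (hb x' _ (hs j) (hs1 j)).1
    rw [hint, hint]
    have h3 : C * √ (1 / ((j : ℝ) + 1)) ^ finrank ℝ E / (1 / ((j : ℝ) + 1)) ^ N =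
        C / c * (c * √ (1 / ((j : ℝ) + 1)) ^ finrank ℝ E / (1 / ((j : ℝ) + 1)) ^ N) := by
      field_simp
    rw [h3] at h1
    exact h1.trans (mul_le_mul_of_nonneg_left h2 (by positivity))
  · intro x
    have h1 : ∀ j : ℕ, c * ((j : ℝ) + 1) ≤ ∫ y, ker N (1 / ((j : ℝ) + 1)) (A.rho x y) ∂μ := by
      intro j
      rw [hint]
      refine le_trans ?_ (hb x _ (hs j) (hs1 j)).1
      have h2 := KerAux.pow_bound (finrank ℝ E) (hs j) (hs1 j)
      rw [one_div_one_div] at h2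
      rw [mul_div_assoc]
      exact mul_le_mul_of_nonneg_left h2 hc.le
    refine tendsto_atTop_mono h1 ?_
    refine Tendsto.const_mul_atTop hc ?_
    exact tendsto_atTop_add_const_right _ _ tendsto_natCast_atTop_atTop

end Pool.Agent.Lib.MP_df705a_gt.Coll
end
end

section

/-!
# Integrals of kernels
-/

open scoped Manifold ContDiff Topology
open Set Bundle Module Filter MeasureTheory

noncomputable section

namespace Pool.Agent.Lib.MP_df705a_gt.Coll

open Pool.Agent.Lib.MP_df705a_gt.Twist Pool.Agent.Lib.MP_df705a_gt.Perm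
open Pool.Agent.Lib.MP_df705a_gt.Circ (Horizontal Submersion cf Para HorConf)
open Pool.Agent.Lib.MP_df705a_gt.Fib (RiemSub Biconformal)

namespace ApproxAux

section top

variable {M : Type*} [TopologicalSpace M] [MeasurableSpace M] [BorelSpace M]
  [CompactSpace M] {μ : Measure M}

/-- The sections of a continuous kernel, as a continuous map to the continuous functions. -/
def kcur (k : M → M → ℝ) (hk : Continuous fun p : M × M => k p.1 p.2) : C(M, C(M, ℝ)) :=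
  ContinuousMap.curry ⟨fun p => k p.2 p.1, hk.comp continuous_swap⟩

omit [MeasurableSpace M] [BorelSpace M] [CompactSpace M] in
theorem kcur_apply (k : M → M → ℝ) (hk : Continuous fun p : M × M => k p.1 p.2) (x y : M) :
    kcur k hk y x = k x y := rfl

theorem int_smul [SecondCountableTopology M] [IsFiniteMeasure μ] {V : Type*}
    [NormedAddCommGroup V] [NormedSpace ℝ V] {T : M → V} (hT : Continuous T) {r : M → ℝ}
    (hr : Integrable r μ) : Integrable (fun y => r y • T y) μ := by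
  obtain ⟨C, hC⟩ : ∃ C, ∀ y, ‖T y‖ ≤ C := by
    obtain ⟨C, hC⟩ := isCompact_univ.exists_bound_of_continuousOn hT.continuousOn
    exact ⟨C, fun y => hC y (mem_univ y)⟩
  have h1 : AEStronglyMeasurable (fun y => r y • T y) μ :=
    hr.aestronglyMeasurable.smul hT.aestronglyMeasurable
  refine Integrable.mono' (hr.norm.mul_const C) h1 (Eventually.of_forall fun y => ?_)
  rw [norm_smul]
  exact mul_le_mul_of_nonneg_left (hC y) (norm_nonneg _)

theorem eval_k [SecondCountableTopology M] [IsFiniteMeasure μ] (k : M → M → ℝ)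
    (hk : Continuous fun p : M × M => k p.1 p.2) {r : M → ℝ} (hr : Integrable r μ) (x : M) :
    (∫ y, r y • kcur k hk y ∂μ) x = ∫ y, k x y * r y ∂μ := by
  have h1 := (ContinuousMap.evalCLM ℝ x).integral_comp_comm
    (int_smul (kcur k hk).continuous hr)
  refine h1.symm.trans (integral_congr_ae (Eventually.of_forall fun y => ?_))
  show r y * k x y = k x y * r y
  ring

/-- The integral of a continuous kernel is continuous. -/
theorem cont_int [SecondCountableTopology M] [IsFiniteMeasure μ] {k : M → M → ℝ}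
    (hk : Continuous fun p : M × M => k p.1 p.2) {r : M → ℝ} (hr : Integrable r μ) :
    Continuous fun x => ∫ y, k x y * r y ∂μ := by
  have h1 : (fun x => ∫ y, k x y * r y ∂μ) = ⇑(∫ y, r y • kcur k hk y ∂μ) :=
    funext fun x => (eval_k k hk hr x).symm
  rw [h1]
  exact ContinuousMap.continuous _

theorem mem_closure [SecondCountableTopology M] [IsFiniteMeasure μ] {V : Type*}
    [NormedAddCommGroup V] [NormedSpace ℝ V] [CompleteSpace V] (S : Submodule ℝ V) {T : M → V}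
    (hT : Continuous T) (hS : ∀ y, T y ∈ S) {r : M → ℝ} (hr : Integrable r μ) :
    (∫ y, r y • T y ∂μ) ∈ closure (S : Set V) := by
  have hcl : IsClosed (S.topologicalClosure : Set V) := S.isClosed_topologicalClosure
  have : CompleteSpace S.topologicalClosure := hcl.completeSpace_coe
  let T' : M → S.topologicalClosure := fun y => ⟨T y, S.le_topologicalClosure (hS y)⟩
  have hT' : Continuous T' := hT.subtype_mk _
  have h1 := (S.topologicalClosure.subtypeL).integral_comp_comm (int_smul hT' hr)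
  have h2 : (∫ y, r y • T y ∂μ) = S.topologicalClosure.subtypeL (∫ y, r y • T' y ∂μ) := by
    rw [← h1]
    rfl
  rw [h2]
  have h3 := (∫ y, r y • T' y ∂μ).2
  rw [← Submodule.topologicalClosure_coe]
  exact h3

end top

end ApproxAux

variable {E : Type*} [NormedAddCommGroup E] [NormedSpace ℝ E] [FiniteDimensional ℝ E]
  {M : Type*} [TopologicalSpace M] [ChartedSpace E M] [IsManifold 𝓘(ℝ, E) ∞ M]
  [MeasurableSpace E] [BorelSpace E] [MeasurableSpace M] [BorelSpace M]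
  [CompactSpace M] [T2Space M]
  {g : Met E M} {μ : Measure M}

namespace ApproxAux

/-- The graph of the Laplacian. -/
def graph (g : Met E M) : Submodule ℝ (C(M, ℝ) × C(M, ℝ)) where
  carrier := {p | ∃ v : M → ℝ, Sm E v ∧ (∀ x, p.1 x = v x) ∧ ∀ x, p.2 x = Lap g v x}
  add_mem' := by
    rintro p q ⟨v, hv, h1, h2⟩ ⟨w, hw, h3, h4⟩
    refine ⟨fun x => v x + w x, sm_add hv hw, fun x => ?_, fun x => ?_⟩
    · show p.1 x + q.1 x = _
      rw [h1, h3]
    · show p.2 x + q.2 x = _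
      rw [h2, h4, lap_add g hv hw]
  zero_mem' := ⟨fun _ => 0, sm_const 0, fun x => rfl, fun x => (lap_const g 0 x).symm⟩
  smul_mem' := by
    rintro c p ⟨v, hv, h1, h2⟩
    refine ⟨fun x => c * v x, sm_smul hv c, fun x => ?_, fun x => ?_⟩
    · show c * p.1 x = _
      rw [h1]
    · show c * p.2 x = _
      rw [h2, lap_smul g hv]

end ApproxAux

open ApproxAux in
/-- The integral of a kernel is approximated by a smooth function, together with its Laplacian.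
Proof: by uniform continuity of `K j` and of its Laplacian on the compact space `M × M` there is a
finite partition of `M` into Borel sets `A_i ∋ y_i` such that `|K j x y - K j x y_i| ≤ δ` and the same
for the Laplacians, for all `x` and `y ∈ A_i`; `v = ∑ (∫_{A_i} r) K j · y_i`. -/
theorem Kern.approx {K : ℕ → M → M → ℝ} (hμ : IsRVol g μ) (hK : Kern g μ K) (j : ℕ) {r : M → ℝ}
    (hr : Integrable r μ) {τ : ℝ} (hτ : 0 < τ) :
    ∃ v : M → ℝ, Sm E v ∧ (∀ x, |v x - ∫ y, K j x y * r y ∂μ| ≤ τ) ∧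
      ∀ x, |Lap g v x - ∫ y, Lap g (fun z => K j z y) x * r y ∂μ| ≤ τ := by
  have hfin := hμ.fin
  have hsc : SecondCountableTopology M := ChartedSpace.secondCountable_of_sigmaCompact E M
  have hL : Continuous fun p : M × M => Lap g (fun z => K j z p.2) p.1 := hK.lap_cont j
  let T : M → C(M, ℝ) × C(M, ℝ) := fun y =>
    (kcur (K j) (hK.cont j) y, kcur (fun x y => Lap g (fun z => K j z y) x) hL y)
  have hT : Continuous T := (ContinuousMap.continuous _).prodMk (ContinuousMap.continuous _)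
  have hS : ∀ y, T y ∈ graph g := fun y =>
    ⟨fun x => K j x y, hK.sm j y, fun x => rfl, fun x => rfl⟩
  have h1 := mem_closure (graph g) hT hS hr
  rw [Metric.mem_closure_iff] at h1
  obtain ⟨q, ⟨v, hv, hv1, hv2⟩, hq⟩ := h1 τ hτ
  have hi := int_smul hT hr
  have e1 : (∫ y, r y • T y ∂μ).1 = ∫ y, r y • kcur (K j) (hK.cont j) y ∂μ :=
    ((ContinuousLinearMap.fst ℝ C(M, ℝ) C(M, ℝ)).integral_comp_comm hi).symm
  have e2 : (∫ y, r y • T y ∂μ).2 =
      ∫ y, r y • kcur (fun x y => Lap g (fun z => K j z y) x) hL y ∂μ :=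
    ((ContinuousLinearMap.snd ℝ C(M, ℝ) C(M, ℝ)).integral_comp_comm hi).symm
  rw [Prod.dist_eq, max_lt_iff, e1, e2] at hq
  refine ⟨v, hv, fun x => ?_, fun x => ?_⟩
  · have h2 := (ContinuousMap.dist_apply_le_dist x).trans hq.1.le
    rw [eval_k (K j) (hK.cont j) hr, hv1, dist_comm, Real.dist_eq] at h2
    exact h2
  · have h2 := (ContinuousMap.dist_apply_le_dist x).trans hq.2.le
    rw [eval_k _ hL hr, hv2, dist_comm, Real.dist_eq] at h2
    exact h2

namespace ApproxAux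

/-- The inequality of Cauchy and Schwarz for a nonnegative weight. -/
theorem cs_weight {X : Type*} [MeasurableSpace X] {μ : Measure X} {k r : X → ℝ}
    (hk : ∀ x, 0 ≤ k x) (h0 : Integrable k μ) (h1 : Integrable (fun x => k x * r x) μ)
    (h2 : Integrable (fun x => k x * r x ^ 2) μ) :
    (∫ x, k x * r x ∂μ) ^ 2 ≤ (∫ x, k x ∂μ) * ∫ x, k x * r x ^ 2 ∂μ := by
  set a := ∫ x, k x ∂μ with ha
  set b := ∫ x, k x * r x ∂μ with hb
  set c := ∫ x, k x * r x ^ 2 ∂μ with hc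
  have key : ∀ t : ℝ, 0 ≤ c - 2 * t * b + t ^ 2 * a := by
    intro t
    have e1 : ∫ x, k x * (r x - t) ^ 2 ∂μ = c - 2 * t * b + t ^ 2 * a := by
      have e2 : ∀ x, k x * (r x - t) ^ 2 = k x * r x ^ 2 - 2 * t * (k x * r x) + t ^ 2 * k x :=
        fun x => by ring
      have e3 : ∫ x, (k x * r x ^ 2 - 2 * t * (k x * r x) + t ^ 2 * k x) ∂μ =
          ∫ x, (k x * r x ^ 2 - 2 * t * (k x * r x)) ∂μ + ∫ x, t ^ 2 * k x ∂μ :=
        integral_add (h2.sub (h1.const_mul _)) (h0.const_mul _)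
      have e4 : ∫ x, (k x * r x ^ 2 - 2 * t * (k x * r x)) ∂μ =
          ∫ x, k x * r x ^ 2 ∂μ - ∫ x, 2 * t * (k x * r x) ∂μ :=
        integral_sub h2 (h1.const_mul _)
      rw [integral_congr_ae (Eventually.of_forall e2), e3, e4, integral_const_mul,
        integral_const_mul]
    rw [← e1]
    exact integral_nonneg fun x => mul_nonneg (hk x) (sq_nonneg _)
  have ha0 : 0 ≤ a := integral_nonneg hk
  have hc0 : 0 ≤ c := integral_nonneg fun x => mul_nonneg (hk x) (sq_nonneg _)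
  rcases ha0.eq_or_lt with h | h
  · have hb0 : b = 0 := by
      by_contra hne
      have h3 := key ((c + 1) / (2 * b))
      rw [← h] at h3
      have h4 : 2 * ((c + 1) / (2 * b)) * b = c + 1 := by
        field_simp
      rw [h4] at h3
      linarith
    rw [hb0, ← h]
    simp
  · have h3 := key (b / a)
    have h4 : c - 2 * (b / a) * b + (b / a) ^ 2 * a = c - b ^ 2 / a := by
      field_simp
      ring
    rw [h4] at h3
    have h5 : b ^ 2 / a ≤ c := by linarith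
    rw [div_le_iff₀ h] at h5
    linarith

end ApproxAux

open ApproxAux in
/-- Schur's test for a symmetric kernel. -/
theorem schur (hμ : IsRVol g μ) {k : M → M → ℝ} (hk : Continuous fun p : M × M => k p.1 p.2)
    (hpos : ∀ x y, 0 ≤ k x y) (hsymm : ∀ x y, k x y = k y x) {m : ℝ}
    (hm : ∀ x, ∫ y, k x y ∂μ ≤ m) {r : M → ℝ} (hr : MemLp r 2 μ) :
    ∫ x, (∫ y, k x y * r y ∂μ) ^ 2 ∂μ ≤ m ^ 2 * ∫ x, r x ^ 2 ∂μ := by
  have hfin := hμ.fin
  have hsc : SecondCountableTopology M := ChartedSpace.secondCountable_of_sigmaCompact E M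
  rcases isEmpty_or_nonempty M with hM | ⟨⟨x₀⟩⟩
  · have h1 : μ = 0 := Measure.eq_zero_of_isEmpty μ
    simp [h1]
  have hm0 : 0 ≤ m := (integral_nonneg (hpos x₀)).trans (hm x₀)
  have hr1 : Integrable r μ := hr.integrable (by norm_num)
  have hr2 : Integrable (fun x => r x ^ 2) μ := hr.integrable_sq
  have hkx : ∀ x, Continuous (k x) := fun x => hk.comp (continuous_const.prodMk continuous_id)
  have hint : ∀ x {s : M → ℝ}, Integrable s μ → Integrable (fun y => k x y * s y) μ := by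
    intro x s hs
    refine (int_smul (hkx x) hs).congr (Eventually.of_forall fun y => ?_)
    show s y * k x y = k x y * s y
    ring
  have hk0 : ∀ x, Integrable (k x) μ := fun x =>
    (hkx x).integrable_of_hasCompactSupport (HasCompactSupport.of_compactSpace _)
  have h1 : ∀ x, (∫ y, k x y * r y ∂μ) ^ 2 ≤ m * ∫ y, k x y * r y ^ 2 ∂μ := by
    intro x
    refine (cs_weight (hpos x) (hk0 x) (hint x hr1) (hint x hr2)).trans ?_
    exact mul_le_mul_of_nonneg_right (hm x)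
      (integral_nonneg fun y => mul_nonneg (hpos x y) (sq_nonneg _))
  have hc1 : Continuous fun x => (∫ y, k x y * r y ∂μ) ^ 2 := (cont_int hk hr1).pow 2
  have hc2 : Continuous fun x => ∫ y, k x y * r y ^ 2 ∂μ := cont_int hk hr2
  have i1 : Integrable (fun x => (∫ y, k x y * r y ∂μ) ^ 2) μ :=
    hc1.integrable_of_hasCompactSupport (HasCompactSupport.of_compactSpace _)
  have i2 : Integrable (fun x => ∫ y, k x y * r y ^ 2 ∂μ) μ :=
    hc2.integrable_of_hasCompactSupport (HasCompactSupport.of_compactSpace _)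
  have h2 : ∫ x, (∫ y, k x y * r y ∂μ) ^ 2 ∂μ ≤ m * ∫ x, ∫ y, k x y * r y ^ 2 ∂μ ∂μ := by
    rw [← integral_const_mul]
    exact integral_mono i1 (i2.const_mul m) h1
  have hprod : Integrable (Function.uncurry fun x y => k x y * r y ^ 2) (μ.prod μ) := by
    obtain ⟨C, hC⟩ : ∃ C, ∀ p : M × M, ‖k p.1 p.2‖ ≤ C := by
      obtain ⟨C, hC⟩ := isCompact_univ.exists_bound_of_continuousOn hk.continuousOn
      exact ⟨C, fun y => hC y (mem_univ y)⟩
    have h3 : Integrable (fun p : M × M => r p.2 ^ 2) (μ.prod μ) := by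
      have h4 := (integrable_const (1 : ℝ) (μ := μ)).mul_prod hr2
      simpa using h4
    refine Integrable.mono' (h3.norm.const_mul C) ?_ (Eventually.of_forall fun p => ?_)
    · exact hk.aestronglyMeasurable.mul h3.aestronglyMeasurable
    · show ‖k p.1 p.2 * r p.2 ^ 2‖ ≤ C * ‖r p.2 ^ 2‖
      rw [norm_mul]
      exact mul_le_mul_of_nonneg_right (hC p) (norm_nonneg _)
  have h3 : ∫ x, ∫ y, k x y * r y ^ 2 ∂μ ∂μ = ∫ y, ∫ x, k x y * r y ^ 2 ∂μ ∂μ :=
    integral_integral_swap hprod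
  have h4 : ∫ y, ∫ x, k x y * r y ^ 2 ∂μ ∂μ ≤ ∫ y, m * r y ^ 2 ∂μ := by
    refine integral_mono ?_ (hr2.const_mul m) fun y => ?_
    · exact hprod.integral_prod_right
    · show ∫ x, k x y * r y ^ 2 ∂μ ≤ m * r y ^ 2
      rw [integral_mul_const]
      refine mul_le_mul_of_nonneg_right ?_ (sq_nonneg _)
      have h5 : ∫ x, k x y ∂μ = ∫ x, k y x ∂μ := by
        simp only [hsymm _ y]
      rw [h5]
      exact hm y
  rw [integral_const_mul] at h4
  rw [h3] at h2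
  calc ∫ x, (∫ y, k x y * r y ∂μ) ^ 2 ∂μ ≤ m * ∫ y, ∫ x, k x y * r y ^ 2 ∂μ ∂μ := h2
    _ ≤ m * (m * ∫ x, r x ^ 2 ∂μ) := mul_le_mul_of_nonneg_left h4 hm0
    _ = m ^ 2 * ∫ x, r x ^ 2 ∂μ := by ring

end Pool.Agent.Lib.MP_df705a_gt.Coll
end
end

section

/-!
# The inequality of Poincaré
-/

open scoped Manifold ContDiff Topology
open Set Bundle Module Filter MeasureTheory

noncomputable section

namespace Pool.Agent.Lib.MP_df705a_gt.Coll

open Pool.Agent.Lib.MP_df705a_gt.Twist Pool.Agent.Lib.MP_df705a_gt.Perm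
open Pool.Agent.Lib.MP_df705a_gt.Circ (Horizontal Submersion cf Para HorConf)
open Pool.Agent.Lib.MP_df705a_gt.Fib (RiemSub Biconformal)

variable {E : Type*} [NormedAddCommGroup E] [NormedSpace ℝ E] [FiniteDimensional ℝ E]
  {M : Type*} [TopologicalSpace M] [ChartedSpace E M] [IsManifold 𝓘(ℝ, E) ∞ M]
  [MeasurableSpace E] [BorelSpace E] [MeasurableSpace M] [BorelSpace M]
  [CompactSpace M] [T2Space M]
  {g : Met E M} {μ : Measure M}

namespace PoinAux

section moments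

variable {X : Type*} [TopologicalSpace X] [CompactSpace X] [MeasurableSpace X] [BorelSpace X]

/-- Moments. -/
def mom (μ : Measure X) (a u : X → ℝ) (k : ℕ) : ℝ := ∫ x, a x * u x ^ k ∂μ

/-- Weighted double integrals. -/
def DD (μ : Measure X) (a b u : X → ℝ) : ℝ := ∫ x, ∫ y, a x * b y * (u x - u y) ^ 2 ∂μ ∂μ

variable (μ : Measure X) [IsFiniteMeasure μ] {a b c a' b' κ u : X → ℝ}

theorem mom_int (ha : Continuous a) (hu : Continuous u) (k : ℕ) :
    Integrable (fun x => a x * u x ^ k) μ :=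
  LocAux.integrable_cont μ (ha.mul (hu.pow k))

/-- A quadratic polynomial in `u`, integrated. -/
theorem quad (ha : Continuous a) (hu : Continuous u) (p q r : ℝ) :
    ∫ x, a x * (p * u x ^ 2 + q * u x + r) ∂μ =
      p * mom μ a u 2 + q * mom μ a u 1 + r * mom μ a u 0 := by
  have h2 := mom_int μ ha hu 2
  have h1 := mom_int μ ha hu 1
  have h0 := mom_int μ ha hu 0
  have e : ∀ x, a x * (p * u x ^ 2 + q * u x + r) =
      (p * (a x * u x ^ 2) + q * (a x * u x ^ 1)) + r * (a x * u x ^ 0) := fun x => by ring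
  unfold mom
  simp only [e]
  rw [integral_add (f := fun x => p * (a x * u x ^ 2) + q * (a x * u x ^ 1))
      (g := fun x => r * (a x * u x ^ 0)) ((h2.const_mul p).add (h1.const_mul q))
      (h0.const_mul r),
    integral_add (f := fun x => p * (a x * u x ^ 2)) (g := fun x => q * (a x * u x ^ 1))
      (h2.const_mul p) (h1.const_mul q), integral_const_mul, integral_const_mul,
    integral_const_mul]

theorem DD_eq (ha : Continuous a) (hb : Continuous b) (hu : Continuous u) :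
    DD μ a b u = mom μ a u 2 * mom μ b u 0 - 2 * mom μ a u 1 * mom μ b u 1 +
      mom μ a u 0 * mom μ b u 2 := by
  unfold DD
  have e1 : ∀ x, ∫ y, a x * b y * (u x - u y) ^ 2 ∂μ =
      a x * (mom μ b u 0 * u x ^ 2 + (-2 * mom μ b u 1) * u x + mom μ b u 2) := by
    intro x
    have e2 : ∀ y, a x * b y * (u x - u y) ^ 2 =
        a x * (b y * (1 * u y ^ 2 + (-2 * u x) * u y + u x ^ 2)) := fun y => by ring
    simp only [e2]
    rw [integral_const_mul, quad μ hb hu]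
    ring
  simp only [e1]
  rw [quad μ ha hu]
  ring

theorem DD_symm (ha : Continuous a) (hb : Continuous b) (hu : Continuous u) :
    DD μ a b u = DD μ b a u := by
  rw [DD_eq μ ha hb hu, DD_eq μ hb ha hu]
  ring

theorem DD_nonneg (pa : ∀ x, 0 ≤ a x) (pb : ∀ x, 0 ≤ b x) : 0 ≤ DD μ a b u :=
  integral_nonneg fun x => integral_nonneg fun y =>
    mul_nonneg (mul_nonneg (pa x) (pb y)) (sq_nonneg _)

theorem DD_smul (ha : Continuous a) (hb : Continuous b) (hu : Continuous u) (t : ℝ) :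
    DD μ a (fun x => t * b x) u = t * DD μ a b u := by
  have hm : ∀ k, mom μ (fun x => t * b x) u k = t * mom μ b u k := by
    intro k
    unfold mom
    rw [← integral_const_mul]
    refine integral_congr_ae (Eventually.of_forall fun x => ?_)
    simp only
    ring
  have hb2 : Continuous (fun x => t * b x) := continuous_const.mul hb
  rw [DD_eq μ ha hb2 hu, DD_eq μ ha hb hu, hm, hm, hm]
  ring

theorem inner_cont (hb : Continuous b) (hu : Continuous u) (x : X) :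
    Integrable (fun y => a x * b y * (u x - u y) ^ 2) μ :=
  LocAux.integrable_cont μ (by fun_prop)

theorem DD_mono (ha : Continuous a) (hb : Continuous b) (hb' : Continuous b')
    (hu : Continuous u) (pa : ∀ x, 0 ≤ a x) (h : ∀ x, b x ≤ b' x) :
    DD μ a b u ≤ DD μ a b' u := by
  refine integral_mono (LocAux.integrable_cont μ (LocAux.cont_F μ ha hb hu))
    (LocAux.integrable_cont μ (LocAux.cont_F μ ha hb' hu)) fun x => ?_
  refine integral_mono (inner_cont μ hb hu x) (inner_cont μ hb' hu x) fun y => ?_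
  exact mul_le_mul_of_nonneg_right (mul_le_mul_of_nonneg_left (h y) (pa x)) (sq_nonneg _)

theorem DD_tri (ha : Continuous a) (hc : Continuous c) (hκ : Continuous κ) (hu : Continuous u)
    (pa : ∀ x, 0 ≤ a x) (pc : ∀ x, 0 ≤ c x) (pκ : ∀ x, 0 ≤ κ x) :
    mom μ κ u 0 * DD μ a c u ≤ 2 * mom μ c u 0 * DD μ a κ u + 2 * mom μ a u 0 * DD μ κ c u := by
  have h1 : ∀ s : ℝ, 0 ≤ ∫ z, c z * ∫ y, κ y * (s + u z - 2 * u y) ^ 2 ∂μ ∂μ := fun s =>
    integral_nonneg fun z => mul_nonneg (pc z) (integral_nonneg fun y =>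
      mul_nonneg (pκ y) (sq_nonneg _))
  have h2 : ∀ s : ℝ, ∫ z, c z * ∫ y, κ y * (s + u z - 2 * u y) ^ 2 ∂μ ∂μ =
      (mom μ c u 0 * mom μ κ u 0) * s ^ 2 +
        (2 * mom μ c u 1 * mom μ κ u 0 - 4 * mom μ c u 0 * mom μ κ u 1) * s +
        (mom μ c u 2 * mom μ κ u 0 - 4 * mom μ c u 1 * mom μ κ u 1 +
          4 * mom μ c u 0 * mom μ κ u 2) := by
    intro s
    have e1 : ∀ z, ∫ y, κ y * (s + u z - 2 * u y) ^ 2 ∂μ =
        mom μ κ u 0 * u z ^ 2 + (2 * s * mom μ κ u 0 - 4 * mom μ κ u 1) * u z +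
        (4 * mom μ κ u 2 - 4 * s * mom μ κ u 1 + s ^ 2 * mom μ κ u 0) := by
      intro z
      have e2 : ∀ y, κ y * (s + u z - 2 * u y) ^ 2 =
          κ y * (4 * u y ^ 2 + (-4 * (s + u z)) * u y + (s + u z) ^ 2) := fun y => by ring
      simp only [e2]
      rw [quad μ hκ hu]
      ring
    simp only [e1]
    rw [quad μ hc hu]
    ring
  have h3 : 0 ≤ ∫ x, a x * ∫ z, c z * ∫ y, κ y * (u x + u z - 2 * u y) ^ 2 ∂μ ∂μ ∂μ :=
    integral_nonneg fun x => mul_nonneg (pa x) (h1 (u x))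
  simp only [h2] at h3
  rw [quad μ ha hu] at h3
  rw [DD_eq μ ha hc hu, DD_eq μ ha hκ hu, DD_eq μ hκ hc hu]
  nlinarith [h3]

end moments

end PoinAux

/-- Proof: `(u x - u z)² ≤ 2 (u x - u y)² + 2 (u y - u z)²`; multiply by
`χ₁ x * χ₂ y * χ₂' y * χ₃ z` and integrate; `∫ χ₂ χ₂' > 0` by `IsRVol.pos`. -/
theorem PP.trans (hμ : IsRVol g μ) {χ₁ χ₂ χ₂' χ₃ : M → ℝ} (h1 : Continuous χ₁)
    (h2 : Continuous χ₂) (h2' : Continuous χ₂') (h3 : Continuous χ₃) (p1 : ∀ x, 0 ≤ χ₁ x)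
    (p2 : ∀ x, 0 ≤ χ₂ x) (p2' : ∀ x, 0 ≤ χ₂' x) (p3 : ∀ x, 0 ≤ χ₃ x) {y : M} (hy : 0 < χ₂ y)
    (hy' : 0 < χ₂' y) (h12 : PP g μ χ₁ χ₂) (h23 : PP g μ χ₂' χ₃) : PP g μ χ₁ χ₃ := by
  have hfin := hμ.fin
  obtain ⟨C, hC, hCu⟩ := h12
  obtain ⟨C', hC', hCu'⟩ := h23
  have hκ : Continuous (fun x => χ₂ x * χ₂' x) := h2.mul h2'
  have pκ : ∀ x, 0 ≤ χ₂ x * χ₂' x := fun x => mul_nonneg (p2 x) (p2' x)
  set I := ∫ x, χ₂ x * χ₂' x ∂μ with hI
  have hI0 : 0 < I := hμ.pos hκ pκ (p := y) (mul_pos hy hy')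
  obtain ⟨S, hS⟩ := isCompact_univ.exists_bound_of_continuousOn (f := χ₂) h2.continuousOn
  obtain ⟨S', hS'⟩ := isCompact_univ.exists_bound_of_continuousOn (f := χ₂') h2'.continuousOn
  have hS0 : 0 ≤ S := (norm_nonneg _).trans (hS y (mem_univ y))
  have hS0' : 0 ≤ S' := (norm_nonneg _).trans (hS' y (mem_univ y))
  set A := ∫ x, χ₁ x ∂μ with hA
  set B := ∫ x, χ₃ x ∂μ with hB
  have hA0 : 0 ≤ A := integral_nonneg p1
  have hB0 : 0 ≤ B := integral_nonneg p3
  refine ⟨I⁻¹ * (2 * B * (S' * C) + 2 * A * (S * C')), by positivity, fun u hu => ?_⟩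
  have huc : Continuous u := ContMDiff.continuous hu
  set G := ∫ p, Grd g u u p ∂μ with hG
  have mκ : PoinAux.mom μ (fun x => χ₂ x * χ₂' x) u 0 = I := by
    unfold PoinAux.mom
    simp only [pow_zero, mul_one]
    rfl
  have m1 : PoinAux.mom μ χ₁ u 0 = A := by
    unfold PoinAux.mom
    simp only [pow_zero, mul_one]
    rfl
  have m3 : PoinAux.mom μ χ₃ u 0 = B := by
    unfold PoinAux.mom
    simp only [pow_zero, mul_one]
    rfl
  have t := PoinAux.DD_tri μ h1 h3 hκ huc p1 p3 pκ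
  rw [mκ, m1, m3] at t
  have q1 : PoinAux.DD μ χ₁ (fun x => χ₂ x * χ₂' x) u ≤ S' * (C * G) := by
    calc PoinAux.DD μ χ₁ (fun x => χ₂ x * χ₂' x) u
        ≤ PoinAux.DD μ χ₁ (fun x => S' * χ₂ x) u := by
          refine PoinAux.DD_mono μ h1 hκ (continuous_const.mul h2) huc p1 fun x => ?_
          rw [mul_comm]
          exact mul_le_mul_of_nonneg_right ((le_abs_self _).trans (hS' x (mem_univ x))) (p2 x)
      _ = S' * PoinAux.DD μ χ₁ χ₂ u := PoinAux.DD_smul μ h1 h2 huc S'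
      _ ≤ S' * (C * G) := mul_le_mul_of_nonneg_left (hCu u hu) hS0'
  have q2 : PoinAux.DD μ (fun x => χ₂ x * χ₂' x) χ₃ u ≤ S * (C' * G) := by
    rw [PoinAux.DD_symm μ hκ h3 huc]
    calc PoinAux.DD μ χ₃ (fun x => χ₂ x * χ₂' x) u
        ≤ PoinAux.DD μ χ₃ (fun x => S * χ₂' x) u := by
          refine PoinAux.DD_mono μ h3 hκ (continuous_const.mul h2') huc p3 fun x => ?_
          exact mul_le_mul_of_nonneg_right ((le_abs_self _).trans (hS x (mem_univ x))) (p2' x)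
      _ = S * PoinAux.DD μ χ₃ χ₂' u := PoinAux.DD_smul μ h3 h2' huc S
      _ = S * PoinAux.DD μ χ₂' χ₃ u := by rw [PoinAux.DD_symm μ h3 h2' huc]
      _ ≤ S * (C' * G) := mul_le_mul_of_nonneg_left (hCu' u hu) hS0
  have t2 : I * PoinAux.DD μ χ₁ χ₃ u ≤ (2 * B * (S' * C) + 2 * A * (S * C')) * G := by
    have e1 : 2 * B * PoinAux.DD μ χ₁ (fun x => χ₂ x * χ₂' x) u ≤ 2 * B * (S' * (C * G)) :=
      mul_le_mul_of_nonneg_left q1 (by positivity)
    have e2 : 2 * A * PoinAux.DD μ (fun x => χ₂ x * χ₂' x) χ₃ u ≤ 2 * A * (S * (C' * G)) :=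
      mul_le_mul_of_nonneg_left q2 (by positivity)
    calc I * PoinAux.DD μ χ₁ χ₃ u ≤ _ := t
      _ ≤ 2 * B * (S' * (C * G)) + 2 * A * (S * (C' * G)) := add_le_add e1 e2
      _ = _ := by ring
  change PoinAux.DD μ χ₁ χ₃ u ≤ _
  rw [mul_assoc, ← div_eq_inv_mul, le_div_iff₀ hI0, mul_comm]
  exact t2

/-- Proof: `x ∼ y` if there are continuous `χ, χ' ≥ 0` with `χ x > 0`, `χ' y > 0` and `PP g μ χ χ'`;
reflexive (`loc_poin`), symmetric (swap the integrals), transitive (`PP.trans`), with open classes;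
`M` is connected, so all points are equivalent. -/
theorem PP.all [ConnectedSpace M] (hμ : IsRVol g μ) (x y : M) :
    ∃ χ χ' : M → ℝ, Continuous χ ∧ Continuous χ' ∧ (∀ x, 0 ≤ χ x) ∧ (∀ x, 0 ≤ χ' x) ∧
      0 < χ x ∧ 0 < χ' y ∧ PP g μ χ χ' := by
  have hfin := hμ.fin
  set r : M → M → Prop := fun x y => ∃ χ χ' : M → ℝ, Continuous χ ∧ Continuous χ' ∧
    (∀ x, 0 ≤ χ x) ∧ (∀ x, 0 ≤ χ' x) ∧ 0 < χ x ∧ 0 < χ' y ∧ PP g μ χ χ' with hr
  have hrefl : ∀ x, r x x := fun x => by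
    obtain ⟨χ, h1, h2, h3, h4⟩ := loc_poin hμ x
    exact ⟨χ, χ, h1, h1, h2, h2, h3, h3, h4⟩
  have hsymm : ∀ x y, r x y → r y x := by
    rintro x y ⟨χ, χ', h1, h1', h2, h2', h3, h3', C, hC, h4⟩
    refine ⟨χ', χ, h1', h1, h2', h2, h3', h3, C, hC, fun u hu => ?_⟩
    have huc : Continuous u := ContMDiff.continuous hu
    change PoinAux.DD μ χ' χ u ≤ _
    rw [PoinAux.DD_symm μ h1' h1 huc]
    exact h4 u hu
  have htrans : ∀ x y z, r x y → r y z → r x z := by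
    rintro x y z ⟨χ, χ', h1, h1', h2, h2', h3, h3', h4⟩ ⟨ψ, ψ', k1, k1', k2, k2', k3, k3', k4⟩
    exact ⟨χ, ψ', h1, k1', h2, k2', h3, k3',
      PP.trans hμ h1 h1' k1 k1' h2 h2' k2 k2' h3' k3 h4 k4⟩
  have hnhds : ∀ x y, r x y → ∀ᶠ z in 𝓝 y, r x z := by
    rintro x y ⟨χ, χ', h1, h1', h2, h2', h3, h3', h4⟩
    filter_upwards [h1'.continuousAt.eventually (lt_mem_nhds h3')] with z hz
    exact ⟨χ, χ', h1, h1', h2, h2', h3, hz, h4⟩
  have hclopen : IsClopen {z | r x z} := by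
    constructor
    · rw [← isOpen_compl_iff, isOpen_iff_mem_nhds]
      intro z hz
      filter_upwards [hnhds z z (hrefl z)] with z' hz' h
      exact hz (htrans x z' z h (hsymm z z' hz'))
    · rw [isOpen_iff_mem_nhds]
      intro z hz
      exact hnhds x z hz
  have huniv := hclopen.eq_univ ⟨x, hrefl x⟩
  have : y ∈ {z | r x z} := by rw [huniv]; exact mem_univ y
  exact this

/-- Proof: compactness of `M × M`: finitely many products `χ_i x * χ_i' y` have a sum `≥ c > 0` on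
`M × M`, so `∫∫ (u x - u y)² ≤ C ∫ Grd`; if `∫ u = 0` the left hand side is
`2 μ(M) ∫ u²`. -/
theorem poincare [ConnectedSpace M] (hμ : IsRVol g μ) : ∃ C : ℝ, 0 < C ∧
    ∀ u : M → ℝ, Sm E u → ∫ p, u p ∂μ = 0 → ∫ p, u p ^ 2 ∂μ ≤ C * ∫ p, Grd g u u p ∂μ := by
  have hfin := hμ.fin
  choose χ χ' h1 h1' h2 h2' h3 h3' h4 using fun q : M × M => PP.all (g := g) (μ := μ) hμ q.1 q.2
  choose C hC hCu using h4
  have hcover : (univ : Set (M × M)) ⊆ ⋃ q : M × M, {z : M × M | 0 < χ q z.1 * χ' q z.2} :=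
    fun q _ => mem_iUnion.mpr ⟨q, mul_pos (h3 q) (h3' q)⟩
  obtain ⟨t, ht⟩ := isCompact_univ.elim_finite_subcover _ (fun q =>
    isOpen_lt continuous_const (((h1 q).comp continuous_fst).mul
      ((h1' q).comp continuous_snd))) hcover
  set F : M × M → ℝ := fun z => ∑ q ∈ t, χ q z.1 * χ' q z.2 with hF
  have hFc : Continuous F := continuous_finsetSum _ fun q _ =>
    ((h1 q).comp continuous_fst).mul ((h1' q).comp continuous_snd)
  have hFp : ∀ z, 0 < F z := by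
    intro z
    obtain ⟨q, hq⟩ := mem_iUnion.mp (ht (mem_univ z))
    obtain ⟨hqt, hq'⟩ := mem_iUnion.mp hq
    exact Finset.sum_pos' (fun i _ => mul_nonneg (h2 i _) (h2' i _)) ⟨q, hqt, hq'⟩
  obtain ⟨x₀⟩ : Nonempty M := inferInstance
  obtain ⟨z₀, -, hz₀⟩ := isCompact_univ.exists_isMinOn ⟨(x₀, x₀), mem_univ _⟩ hFc.continuousOn
  set c := F z₀ with hc
  have hc0 : 0 < c := hFp z₀
  have hmin : ∀ z, c ≤ F z := fun z => hz₀ (mem_univ z)
  have hV : 0 < ∫ _ : M, (1 : ℝ) ∂μ := hμ.pos continuous_const (fun _ => zero_le_one)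
    (p := x₀) one_pos
  set V := ∫ _ : M, (1 : ℝ) ∂μ with hVd
  have hC0 : 0 ≤ ∑ q ∈ t, C q := Finset.sum_nonneg fun q _ => hC q
  refine ⟨(c * (2 * V))⁻¹ * (∑ q ∈ t, C q + 1), by positivity, fun u hu hu0 => ?_⟩
  have huc : Continuous u := ContMDiff.continuous hu
  set G := ∫ p, Grd g u u p ∂μ with hG
  have hG0 : 0 ≤ G := integral_nonneg fun q => grd_nonneg g u q
  have e1 : PoinAux.DD μ (fun _ => c) (fun _ => 1) u ≤ ∑ q ∈ t, PoinAux.DD μ (χ q) (χ' q) u := by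
    unfold PoinAux.DD
    rw [← integral_finsetSum _ fun q _ =>
      LocAux.integrable_cont μ (LocAux.cont_F μ (h1 q) (h1' q) huc)]
    refine integral_mono (LocAux.integrable_cont μ (LocAux.cont_F μ continuous_const
      continuous_const huc)) (integrable_finsetSum _ fun q _ =>
      LocAux.integrable_cont μ (LocAux.cont_F μ (h1 q) (h1' q) huc)) fun x => ?_
    simp only
    rw [← integral_finsetSum _ fun q _ => PoinAux.inner_cont μ (h1' q) huc x]
    refine integral_mono (PoinAux.inner_cont μ (a := fun _ => c) continuous_const huc x)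
      (integrable_finsetSum _ fun q _ => PoinAux.inner_cont μ (h1' q) huc x) fun y => ?_
    simp only
    rw [← Finset.sum_mul, mul_one]
    exact mul_le_mul_of_nonneg_right (hmin (x, y)) (sq_nonneg _)
  have e2 : ∑ q ∈ t, PoinAux.DD μ (χ q) (χ' q) u ≤ (∑ q ∈ t, C q) * G := by
    rw [Finset.sum_mul]
    exact Finset.sum_le_sum fun q _ => hCu q u hu
  have e3 : PoinAux.DD μ (fun _ => c) (fun _ => 1) u = c * (2 * V) * ∫ p, u p ^ 2 ∂μ := by
    rw [PoinAux.DD_eq μ continuous_const continuous_const huc]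
    have m1 : PoinAux.mom μ (fun _ => (1 : ℝ)) u 1 = 0 := by
      unfold PoinAux.mom
      simp only [one_mul, pow_one]
      exact hu0
    have m2 : PoinAux.mom μ (fun _ => (1 : ℝ)) u 2 = ∫ p, u p ^ 2 ∂μ := by
      unfold PoinAux.mom
      simp only [one_mul]
    have m0 : PoinAux.mom μ (fun _ => (1 : ℝ)) u 0 = V := by
      unfold PoinAux.mom
      simp only [one_mul, pow_zero]
      rfl
    have n0 : PoinAux.mom μ (fun _ => c) u 0 = c * V := by
      unfold PoinAux.mom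
      rw [integral_const_mul]
      simp only [pow_zero]
      rfl
    have n2 : PoinAux.mom μ (fun _ => c) u 2 = c * ∫ p, u p ^ 2 ∂μ := by
      unfold PoinAux.mom
      rw [integral_const_mul]
    rw [m1, m2, m0, n0, n2]
    ring
  have e4 : c * (2 * V) * ∫ p, u p ^ 2 ∂μ ≤ (∑ q ∈ t, C q + 1) * G := by
    rw [← e3]
    refine (e1.trans e2).trans ?_
    exact mul_le_mul_of_nonneg_right (by linarith) hG0
  rw [mul_assoc, ← div_eq_inv_mul, le_div_iff₀ (by positivity), mul_comm]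
  exact e4

end Pool.Agent.Lib.MP_df705a_gt.Coll
end
end

section

/-!
# Spectral pinching, part S1, S1c: integrals of kernels for general measures
-/

open scoped Manifold ContDiff Topology
open Set Bundle Module Filter MeasureTheory

noncomputable section

set_option linter.unusedSectionVars false

namespace Pool.Agent.Lib.MP_df705a_gt.Pin.S1

open Pool.Agent.Lib.MP_df705a_gt.Twist Pool.Agent.Lib.MP_df705a_gt.Perm
open Pool.Agent.Lib.MP_df705a_gt.Coll

variable {E : Type*} [NormedAddCommGroup E] [NormedSpace ℝ E] [FiniteDimensional ℝ E]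
  {M : Type*} [TopologicalSpace M] [ChartedSpace E M] [IsManifold 𝓘(ℝ, E) ∞ M]
  [MeasurableSpace E] [BorelSpace E] [MeasurableSpace M] [BorelSpace M]
  [CompactSpace M] [T2Space M]
  {g : Met E M} {μ σ : Measure M}

namespace S1cAux

section top

variable {M : Type*} [TopologicalSpace M] [MeasurableSpace M] [BorelSpace M]
  [CompactSpace M] {μ σ : Measure M}

theorem smeas {V : Type*} [NormedAddCommGroup V] {T : M → V} (hT : Continuous T) :
    StronglyMeasurable T := by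
  borelize V
  exact stronglyMeasurable_iff_measurable_separable.2
    ⟨hT.measurable, (isCompact_range hT).isSeparable⟩

theorem int_smul {V : Type*} [NormedAddCommGroup V] [NormedSpace ℝ V] {T : M → V}
    (hT : Continuous T) {r : M → ℝ} (hr : Integrable r σ) : Integrable (fun y => r y • T y) σ := by
  obtain ⟨C, hC⟩ : ∃ C, ∀ y, ‖T y‖ ≤ C := by
    obtain ⟨C, hC⟩ := isCompact_univ.exists_bound_of_continuousOn hT.continuousOn
    exact ⟨C, fun y => hC y (mem_univ y)⟩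
  have h1 : AEStronglyMeasurable (fun y => r y • T y) σ :=
    hr.aestronglyMeasurable.smul (smeas hT).aestronglyMeasurable
  refine Integrable.mono' (hr.norm.mul_const C) h1 (Eventually.of_forall fun y => ?_)
  rw [norm_smul]
  exact mul_le_mul_of_nonneg_left (hC y) (norm_nonneg _)

theorem eval_k (k : M → M → ℝ) (hk : Continuous fun p : M × M => k p.1 p.2) {r : M → ℝ}
    (hr : Integrable r σ) (x : M) :
    (∫ y, r y • ApproxAux.kcur k hk y ∂σ) x = ∫ y, k x y * r y ∂σ := by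
  have h1 := (ContinuousMap.evalCLM ℝ x).integral_comp_comm
    (int_smul (ApproxAux.kcur k hk).continuous hr)
  refine h1.symm.trans (integral_congr_ae (Eventually.of_forall fun y => ?_))
  show r y * k x y = k x y * r y
  ring

/-- The functional `f ↦ ∫ r f dμ` on the continuous functions. -/
def fnl {r : M → ℝ} (hr : Integrable r μ) : C(M, ℝ) →L[ℝ] ℝ :=
  LinearMap.mkContinuous
    { toFun := fun f => ∫ x, r x * f x ∂μ
      map_add' := fun f f' => by
        have h1 := int_smul f.continuous hr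
        have h2 := int_smul f'.continuous hr
        refine Eq.trans ?_ (integral_add h1 h2)
        refine integral_congr_ae (Eventually.of_forall fun x => ?_)
        show r x * (f x + f' x) = r x * f x + r x * f' x
        ring
      map_smul' := fun c f => by
        rw [RingHom.id_apply, smul_eq_mul, ← integral_const_mul]
        refine integral_congr_ae (Eventually.of_forall fun x => ?_)
        show r x * (c * f x) = c * (r x * f x)
        ring }
    (∫ x, |r x| ∂μ) fun f => by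
      show ‖∫ x, r x * f x ∂μ‖ ≤ _
      refine (norm_integral_le_integral_norm _).trans ?_
      rw [← integral_mul_const]
      refine integral_mono_of_nonneg (Eventually.of_forall fun x => norm_nonneg _)
        (hr.abs.mul_const _) (Eventually.of_forall fun x => ?_)
      show ‖r x * f x‖ ≤ |r x| * ‖f‖
      rw [norm_mul, Real.norm_eq_abs]
      exact mul_le_mul_of_nonneg_left (f.norm_coe_le_norm x) (abs_nonneg _)

theorem fnl_apply {r : M → ℝ} (hr : Integrable r μ) (f : C(M, ℝ)) :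
    fnl hr f = ∫ x, r x * f x ∂μ := rfl

end top

end S1cAux

open ApproxAux in
/-- The same as `Kern.approx` (Coll/Q/Approx.lean), for a general finite measure `σ`: the proof is the
same, word for word (there `hμ` is only used for `IsFiniteMeasure`). -/
theorem approx {K : ℕ → M → M → ℝ} (hK : Kern g μ K) [IsFiniteMeasure σ] (j : ℕ) {r : M → ℝ}
    (hr : Integrable r σ) {t : ℝ} (ht : 0 < t) :
    ∃ v : M → ℝ, Sm E v ∧ (∀ x, |v x - ∫ y, K j x y * r y ∂σ| ≤ t) ∧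
      ∀ x, |Lap g v x - ∫ y, Lap g (fun z => K j z y) x * r y ∂σ| ≤ t := by
  have hsc : SecondCountableTopology M := ChartedSpace.secondCountable_of_sigmaCompact E M
  have hL : Continuous fun p : M × M => Lap g (fun z => K j z p.2) p.1 := hK.lap_cont j
  let T : M → C(M, ℝ) × C(M, ℝ) := fun y =>
    (kcur (K j) (hK.cont j) y, kcur (fun x y => Lap g (fun z => K j z y) x) hL y)
  have hT : Continuous T := (ContinuousMap.continuous _).prodMk (ContinuousMap.continuous _)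
  have hS : ∀ y, T y ∈ graph g := fun y =>
    ⟨fun x => K j x y, hK.sm j y, fun x => rfl, fun x => rfl⟩
  have h1 := mem_closure (graph g) hT hS hr
  rw [Metric.mem_closure_iff] at h1
  obtain ⟨q, ⟨v, hv, hv1, hv2⟩, hq⟩ := h1 t ht
  have hi := int_smul hT hr
  have e1 : (∫ y, r y • T y ∂σ).1 = ∫ y, r y • kcur (K j) (hK.cont j) y ∂σ :=
    ((ContinuousLinearMap.fst ℝ C(M, ℝ) C(M, ℝ)).integral_comp_comm hi).symm
  have e2 : (∫ y, r y • T y ∂σ).2 =
      ∫ y, r y • kcur (fun x y => Lap g (fun z => K j z y) x) hL y ∂σ :=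
    ((ContinuousLinearMap.snd ℝ C(M, ℝ) C(M, ℝ)).integral_comp_comm hi).symm
  rw [Prod.dist_eq, max_lt_iff, e1, e2] at hq
  refine ⟨v, hv, fun x => ?_, fun x => ?_⟩
  · have h2 := (ContinuousMap.dist_apply_le_dist x).trans hq.1.le
    rw [eval_k (K j) (hK.cont j) hr, hv1, dist_comm, Real.dist_eq] at h2
    exact h2
  · have h2 := (ContinuousMap.dist_apply_le_dist x).trans hq.2.le
    rw [eval_k _ hL hr, hv2, dist_comm, Real.dist_eq] at h2
    exact h2

/-- (`HarmAux.kmul_int` for a general measure.) -/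
theorem kmul_int [IsFiniteMeasure σ] {k : M → M → ℝ} (hk : Continuous fun p : M × M => k p.1 p.2)
    (x : M) {s : M → ℝ} (hs : Integrable s σ) : Integrable (fun y => k x y * s y) σ := by
  have hkx : Continuous (k x) := hk.comp (continuous_const.prodMk continuous_id)
  refine (S1cAux.int_smul hkx hs).congr (Eventually.of_forall fun y => ?_)
  show s y * k x y = k x y * s y
  ring

/-- (`ApproxAux.cont_int`.) -/
theorem kint_cont [IsFiniteMeasure σ] {k : M → M → ℝ}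
    (hk : Continuous fun p : M × M => k p.1 p.2)
    {s : M → ℝ} (hs : Integrable s σ) : Continuous fun x => ∫ y, k x y * s y ∂σ := by
  have h1 : (fun x => ∫ y, k x y * s y ∂σ) = ⇑(∫ y, s y • ApproxAux.kcur k hk y ∂σ) :=
    funext fun x => (S1cAux.eval_k k hk hs x).symm
  rw [h1]
  exact ContinuousMap.continuous _

/-- Exchange of the integrals (as in `HarmAux.kswap`). -/
theorem kswap [IsFiniteMeasure μ] [IsFiniteMeasure σ] {k : M → M → ℝ}
    (hk : Continuous fun p : M × M => k p.1 p.2) {r s : M → ℝ} (hr : Integrable r μ)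
    (hs : Integrable s σ) :
    ∫ x, r x * (∫ y, k x y * s y ∂σ) ∂μ = ∫ y, (∫ x, r x * k x y ∂μ) * s y ∂σ := by
  have h1 := (S1cAux.fnl hr).integral_comp_comm
    (S1cAux.int_smul (ApproxAux.kcur k hk).continuous hs)
  have h2 : S1cAux.fnl hr (∫ y, s y • ApproxAux.kcur k hk y ∂σ) =
      ∫ x, r x * (∫ y, k x y * s y ∂σ) ∂μ := by
    rw [S1cAux.fnl_apply]
    refine integral_congr_ae (Eventually.of_forall fun x => ?_)
    show r x * (∫ y, s y • ApproxAux.kcur k hk y ∂σ) x = _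
    rw [S1cAux.eval_k k hk hs x]
  rw [← h2, ← h1]
  refine integral_congr_ae (Eventually.of_forall fun y => ?_)
  show S1cAux.fnl hr (s y • ApproxAux.kcur k hk y) = (∫ x, r x * k x y ∂μ) * s y
  rw [map_smul, S1cAux.fnl_apply, smul_eq_mul, mul_comm]
  rfl

end Pool.Agent.Lib.MP_df705a_gt.Pin.S1
end
end

section

/-!
# TASK C1: existence of the changed metric
-/

open scoped Manifold ContDiff Topology
open Set Bundle Module Filter

noncomputable section

namespace Pool.Agent.Lib.MP_df705a_gt.Fib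

open Pool.Agent.Lib.MP_df705a_gt.Twist Pool.Agent.Lib.MP_df705a_gt.Perm
open Pool.Agent.Lib.MP_df705a_gt.Circ (Horizontal Submersion HorAt cf Para)

variable {E₁ : Type*} [NormedAddCommGroup E₁] [NormedSpace ℝ E₁] [FiniteDimensional ℝ E₁]
  {B : Type*} [TopologicalSpace B] [ChartedSpace E₁ B] [IsManifold 𝓘(ℝ, E₁) ∞ B]
  {E : Type*} [NormedAddCommGroup E] [NormedSpace ℝ E] [FiniteDimensional ℝ E]
  {M : Type*} [TopologicalSpace M] [ChartedSpace E M] [IsManifold 𝓘(ℝ, E) ∞ M]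

namespace C1

theorem bil_smooth (E₁ E : Type*) [NormedAddCommGroup E₁] [NormedSpace ℝ E₁]
    [NormedAddCommGroup E] [NormedSpace ℝ E] [FiniteDimensional ℝ E] :
    ContDiff ℝ ∞ (fun q : (E₁ →L[ℝ] E₁ →L[ℝ] ℝ) × (E →L[ℝ] E₁) => q.1.bilinearComp q.2 q.2) := by
  rw [contDiff_clm_apply_iff]
  intro v
  rw [contDiff_clm_apply_iff]
  intro w
  simp only [ContinuousLinearMap.bilinearComp_apply]
  exact (contDiff_fst.clm_apply (contDiff_snd.clm_apply contDiff_const)).clm_apply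
    (contDiff_snd.clm_apply contDiff_const)

/-- the pullback of the form `gB` -/
def pb (gB : ContMDiffRiemannianMetric 𝓘(ℝ, E₁) ∞ E₁ (fun x : B => TangentSpace 𝓘(ℝ, E₁) x))
    (pr : M → B) (p : M) : TangentSpace 𝓘(ℝ, E) p →L[ℝ] TangentSpace 𝓘(ℝ, E) p →L[ℝ] ℝ :=
  let T : E →L[ℝ] E₁ := mfderiv 𝓘(ℝ, E) 𝓘(ℝ, E₁) pr p
  let G : E₁ →L[ℝ] E₁ →L[ℝ] ℝ := gB.inner (pr p)
  let F : E →L[ℝ] E →L[ℝ] ℝ := G.bilinearComp T T
  F

theorem pb_apply
    (gB : ContMDiffRiemannianMetric 𝓘(ℝ, E₁) ∞ E₁ (fun x : B => TangentSpace 𝓘(ℝ, E₁) x))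
    (pr : M → B) (p : M) (u v : TangentSpace 𝓘(ℝ, E) p) :
    pb gB pr p u v = gB.inner (pr p) (mfderiv 𝓘(ℝ, E) 𝓘(ℝ, E₁) pr p u)
      (mfderiv 𝓘(ℝ, E) 𝓘(ℝ, E₁) pr p v) := rfl

theorem triv_apply (x₀ x : M)
    (hx : x ∈ (trivializationAt E (TangentSpace 𝓘(ℝ, E)) x₀).baseSet)
    (L : TangentSpace 𝓘(ℝ, E) x →L[ℝ] ℝ) (w : E) :
    (Trivialization.continuousLinearMapAt ℝ (trivializationAt (E →L[ℝ] ℝ)
      (fun x => TangentSpace 𝓘(ℝ, E) x →L[ℝ] ℝ) x₀) x L) w =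
      L ((trivializationAt E (TangentSpace 𝓘(ℝ, E)) x₀).symmL ℝ x w) := by
  have hx' : x ∈ (trivializationAt (E →L[ℝ] ℝ)
      (fun x => TangentSpace 𝓘(ℝ, E) x →L[ℝ] ℝ) x₀).baseSet := by
    rw [hom_trivializationAt_baseSet]
    exact ⟨hx, by simp⟩
  rw [Trivialization.continuousLinearMapAt_apply, Trivialization.coe_linearMapAt_of_mem _ hx']
  change ((trivializationAt (E →L[ℝ] ℝ) (fun x => TangentSpace 𝓘(ℝ, E) x →L[ℝ] ℝ) x₀)
    ⟨x, L⟩).2 w = _
  have h0 : ((trivializationAt (E →L[ℝ] ℝ) (fun x => TangentSpace 𝓘(ℝ, E) x →L[ℝ] ℝ) x₀)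
    ⟨x, L⟩) = ⟨x, ContinuousLinearMap.inCoordinates E (TangentSpace 𝓘(ℝ, E)) ℝ
      (Bundle.Trivial M ℝ) x₀ x x₀ x L⟩ := rfl
  rw [h0]
  simp [ContinuousLinearMap.inCoordinates]

theorem pb_smooth
    (gB : ContMDiffRiemannianMetric 𝓘(ℝ, E₁) ∞ E₁ (fun x : B => TangentSpace 𝓘(ℝ, E₁) x))
    {pr : M → B} (hpr : ContMDiff 𝓘(ℝ, E) 𝓘(ℝ, E₁) ∞ pr) :
    ContMDiff 𝓘(ℝ, E) (𝓘(ℝ, E).prod 𝓘(ℝ, E →L[ℝ] E →L[ℝ] ℝ)) ∞
      (fun p : M => TotalSpace.mk' (E →L[ℝ] E →L[ℝ] ℝ)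
        (E := fun p : M => TangentSpace 𝓘(ℝ, E) p →L[ℝ] TangentSpace 𝓘(ℝ, E) p →L[ℝ] ℝ)
        p (pb gB pr p)) := by
  intro x₀
  rw [contMDiffAt_section]
  have hG := (contMDiffAt_section (x₀ := pr x₀)).1 (gB.contMDiff (pr x₀))
  have hT : ContMDiffAt 𝓘(ℝ, E) 𝓘(ℝ, E →L[ℝ] E₁) ∞
      (inTangentCoordinates 𝓘(ℝ, E) 𝓘(ℝ, E₁) id pr (mfderiv 𝓘(ℝ, E) 𝓘(ℝ, E₁) pr) x₀) x₀ :=
    (hpr x₀).mfderiv_const (by simp)
  have hc := (bil_smooth E₁ E).contMDiff.contMDiffAt.comp x₀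
    ((hG.comp x₀ (hpr x₀)).prodMk_space hT)
  refine hc.congr_of_eventuallyEq ?_
  have h1 : ∀ᶠ x in 𝓝 x₀, x ∈ (trivializationAt E (TangentSpace 𝓘(ℝ, E)) x₀).baseSet :=
    (trivializationAt E (TangentSpace 𝓘(ℝ, E)) x₀).open_baseSet.mem_nhds
      (FiberBundle.mem_baseSet_trivializationAt' x₀)
  have h2 : ∀ᶠ x in 𝓝 x₀, pr x ∈
      (trivializationAt E₁ (TangentSpace 𝓘(ℝ, E₁)) (pr x₀)).baseSet :=
    (hpr x₀).continuousAt.eventually
      ((trivializationAt E₁ (TangentSpace 𝓘(ℝ, E₁)) (pr x₀)).open_baseSet.mem_nhds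
        (FiberBundle.mem_baseSet_trivializationAt' (pr x₀)))
  filter_upwards [h1, h2] with x hx hy
  ext v w
  simp only [hom_trivializationAt_apply, ContinuousLinearMap.inCoordinates, Function.comp_apply,
    inTangentCoordinates, ContinuousLinearMap.bilinearComp_apply]
  have hk : ∀ a : TangentSpace 𝓘(ℝ, E₁) (pr x),
      (trivializationAt E₁ (TangentSpace 𝓘(ℝ, E₁)) (pr x₀)).symmL ℝ (pr x)
        ((trivializationAt E₁ (TangentSpace 𝓘(ℝ, E₁)) (pr x₀)).continuousLinearMapAt ℝ (pr x) a)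
        = a := fun a =>
    Trivialization.symmL_continuousLinearMapAt
      (trivializationAt E₁ (TangentSpace 𝓘(ℝ, E₁)) (pr x₀)) hy a
  have e1 := triv_apply x₀ x hx (pb gB pr x
    ((trivializationAt E (TangentSpace 𝓘(ℝ, E)) x₀).symmL ℝ x v)) w
  refine e1.trans ?_
  have e2 := triv_apply (pr x₀) (pr x) hy (gB.inner (pr x)
    ((trivializationAt E₁ (TangentSpace 𝓘(ℝ, E₁)) (pr x₀)).symmL ℝ (pr x)
      ((trivializationAt E₁ (TangentSpace 𝓘(ℝ, E₁)) (pr x₀)).continuousLinearMapAt ℝ (pr x)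
        (mfderiv 𝓘(ℝ, E) 𝓘(ℝ, E₁) pr x
          ((trivializationAt E (TangentSpace 𝓘(ℝ, E)) x₀).symmL ℝ x v)))))
    ((trivializationAt E₁ (TangentSpace 𝓘(ℝ, E₁)) (pr x₀)).continuousLinearMapAt ℝ (pr x)
        (mfderiv 𝓘(ℝ, E) 𝓘(ℝ, E₁) pr x
          ((trivializationAt E (TangentSpace 𝓘(ℝ, E)) x₀).symmL ℝ x w)))
  refine (e2.trans ?_).symm
  rw [hk, hk]
  rfl

end C1

/-- Positivity: decompose `u` (`exists_decomp`); for a Riemannian submersion the new length is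
`e^{2ψ} |a|² + |b|²`. Smoothness: the pullback of `gB` is a smooth section of the bundle of
bilinear forms. -/
theorem exists_change
    (g : ContMDiffRiemannianMetric 𝓘(ℝ, E) ∞ E (fun x : M => TangentSpace 𝓘(ℝ, E) x))
    (gB : ContMDiffRiemannianMetric 𝓘(ℝ, E₁) ∞ E₁ (fun x : B => TangentSpace 𝓘(ℝ, E₁) x))
    {pr : M → B} (hpr : RiemSub g gB pr) {ψ : B → ℝ} (hψ : Sm E₁ ψ) :
    ∃ g' : ContMDiffRiemannianMetric 𝓘(ℝ, E) ∞ E (fun x : M => TangentSpace 𝓘(ℝ, E) x),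
      IsChange ψ gB pr g g' := by
  have hsm : ContMDiff 𝓘(ℝ, E) 𝓘(ℝ, ℝ) ∞ (fun x => Real.exp (ψ (pr x)) ^ 2 - 1) := by
    have h1 : ContDiff ℝ ∞ (fun t : ℝ => Real.exp t ^ 2 - 1) :=
      (Real.contDiff_exp.pow 2).sub contDiff_const
    exact h1.contMDiff.comp (ContMDiff.comp hψ hpr.1.1)
  have key : ∀ (x : M) (v : TangentSpace 𝓘(ℝ, E) x),
      min 1 (Real.exp (ψ (pr x))) ^ 2 * g.inner x v v ≤ g.inner x v v +
        (Real.exp (ψ (pr x)) ^ 2 - 1) * gB.inner (pr x) (mfderiv 𝓘(ℝ, E) 𝓘(ℝ, E₁) pr x v)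
          (mfderiv 𝓘(ℝ, E) 𝓘(ℝ, E₁) pr x v) := by
    intro x v
    obtain ⟨a, b, hv, ha, hb⟩ := exists_decomp (E₁ := E₁) g pr x v
    have h1 : mfderiv 𝓘(ℝ, E) 𝓘(ℝ, E₁) pr x v = mfderiv 𝓘(ℝ, E) 𝓘(ℝ, E₁) pr x a := by
      rw [hv, map_add, hb, add_zero]
    have h2 : gB.inner (pr x) (mfderiv 𝓘(ℝ, E) 𝓘(ℝ, E₁) pr x v)
        (mfderiv 𝓘(ℝ, E) 𝓘(ℝ, E₁) pr x v) = g.inner x a a := by
      rw [h1, hpr.2 x a a ha ha]
    have h3 : g.inner x v v = g.inner x a a + g.inner x b b := by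
      have h4 : g.inner x a b = 0 := ha b hb
      have h5 : g.inner x b a = 0 := by rw [g.symm]; exact h4
      rw [hv, map_add (g.inner x (a + b)) a b, map_add (g.inner x) a b, _root_.add_apply,
        _root_.add_apply, h4, h5]
      ring
    have h6 : ∀ c : TangentSpace 𝓘(ℝ, E) x, 0 ≤ g.inner x c c := by
      intro c
      by_cases hc : c = 0
      · rw [hc, map_zero]
      · exact (g.pos x c hc).le
    rw [h2, h3]
    have h7 : 0 < Real.exp (ψ (pr x)) := Real.exp_pos _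
    have h8 : 0 < min 1 (Real.exp (ψ (pr x))) := lt_min one_pos h7
    have h9 : min 1 (Real.exp (ψ (pr x))) ^ 2 ≤ 1 := by
      have := min_le_left 1 (Real.exp (ψ (pr x)))
      nlinarith
    have h10 : min 1 (Real.exp (ψ (pr x))) ^ 2 ≤ Real.exp (ψ (pr x)) ^ 2 := by
      have := min_le_right 1 (Real.exp (ψ (pr x)))
      nlinarith
    have h11 := h6 a
    have h12 := h6 b
    nlinarith [mul_nonneg (sub_nonneg.2 h9) h12, mul_nonneg (sub_nonneg.2 h10) h11]
  have hm : ∀ x, 0 < min 1 (Real.exp (ψ (pr x))) := fun x => lt_min one_pos (Real.exp_pos _)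
  refine ⟨⟨fun x => g.inner x + (Real.exp (ψ (pr x)) ^ 2 - 1) • C1.pb gB pr x,
    fun x v w => ?_, fun x v hv => ?_, fun x => ?_, ?_⟩, fun x u v => rfl⟩
  · change g.inner x v w + (Real.exp (ψ (pr x)) ^ 2 - 1) * gB.inner (pr x)
      (mfderiv 𝓘(ℝ, E) 𝓘(ℝ, E₁) pr x v) (mfderiv 𝓘(ℝ, E) 𝓘(ℝ, E₁) pr x w) =
      g.inner x w v + (Real.exp (ψ (pr x)) ^ 2 - 1) * gB.inner (pr x)
      (mfderiv 𝓘(ℝ, E) 𝓘(ℝ, E₁) pr x w) (mfderiv 𝓘(ℝ, E) 𝓘(ℝ, E₁) pr x v)
    rw [g.symm, gB.symm]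
  · exact (mul_pos (pow_pos (hm x) 2) (g.pos x v hv)).trans_le (key x v)
  · have h0 : Bornology.IsVonNBounded ℝ {v : TangentSpace 𝓘(ℝ, E) x | g.inner x v v < 1} :=
      g.isVonNBounded x
    have h3 := h0.image ((min 1 (Real.exp (ψ (pr x))))⁻¹ •
      ContinuousLinearMap.id ℝ (TangentSpace 𝓘(ℝ, E) x))
    refine h3.subset ?_
    intro v hv
    refine ⟨min 1 (Real.exp (ψ (pr x))) • v, ?_, ?_⟩
    · have h2 : g.inner x v v +
        (Real.exp (ψ (pr x)) ^ 2 - 1) * gB.inner (pr x) (mfderiv 𝓘(ℝ, E) 𝓘(ℝ, E₁) pr x v)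
          (mfderiv 𝓘(ℝ, E) 𝓘(ℝ, E₁) pr x v) < 1 := hv
      change g.inner x (min 1 (Real.exp (ψ (pr x))) • v) (min 1 (Real.exp (ψ (pr x))) • v) < 1
      rw [map_smul, map_smul, _root_.smul_apply, smul_eq_mul, smul_eq_mul]
      have := key x v
      nlinarith
    · change (min 1 (Real.exp (ψ (pr x))))⁻¹ • (min 1 (Real.exp (ψ (pr x))) • v) = v
      rw [smul_smul, inv_mul_cancel₀ (hm x).ne', one_smul]
  · exact g.contMDiff.add_section (hsm.smul_section (C1.pb_smooth gB hpr.1.1))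

end Pool.Agent.Lib.MP_df705a_gt.Fib
end
end

section

/-!
# Construction of metrics
-/

open scoped Manifold ContDiff Topology
open Set Bundle Module Filter MeasureTheory

noncomputable section

namespace Pool.Agent.Lib.MP_df705a_gt.Coll

open Pool.Agent.Lib.MP_df705a_gt.Twist Pool.Agent.Lib.MP_df705a_gt.Perm
open Pool.Agent.Lib.MP_df705a_gt.Circ (Horizontal Submersion cf Para HorConf)
open Pool.Agent.Lib.MP_df705a_gt.Fib (RiemSub Biconformal)

variable {E : Type*} [NormedAddCommGroup E] [NormedSpace ℝ E] [FiniteDimensional ℝ E]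
  {M : Type*} [TopologicalSpace M] [ChartedSpace E M] [IsManifold 𝓘(ℝ, E) ∞ M]

namespace MetAux

omit [FiniteDimensional ℝ E] in
/-- a positive definite form on a finite dimensional space has a bounded unit ball -/
theorem bounded_ball [FiniteDimensional ℝ E] (Q : E →L[ℝ] E →L[ℝ] ℝ)
    (hp : ∀ u, u ≠ 0 → 0 < Q u u) : Bornology.IsVonNBounded ℝ {v : E | Q v v < 1} := by
  rw [NormedSpace.isVonNBounded_iff]
  rcases subsingleton_or_nontrivial E with hE | hE
  · exact (Set.toFinite _).isBounded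
  · have hne : (Metric.sphere (0 : E) 1).Nonempty := NormedSpace.sphere_nonempty.2 zero_le_one
    have hcont : Continuous fun v : E => Q v v :=
      (Q.continuous.clm_apply continuous_id)
    obtain ⟨u, hu, hmin⟩ := (isCompact_sphere (0 : E) 1).exists_isMinOn hne hcont.continuousOn
    have hu1 : ‖u‖ = 1 := by simpa using hu
    have hu0 : u ≠ 0 := by
      rintro rfl
      simp at hu1
    have hc : 0 < Q u u := hp u hu0
    refine (Metric.isBounded_closedBall (x := (0 : E)) (r := 1 + 1 / Q u u)).subset ?_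
    intro v hv
    have hv1 : Q v v < 1 := hv
    rw [mem_closedBall_zero_iff]
    by_cases hv0 : v = 0
    · rw [hv0, norm_zero]
      positivity
    · have hn : 0 < ‖v‖ := norm_pos_iff.2 hv0
      have h1 : ‖v‖⁻¹ • v ∈ Metric.sphere (0 : E) 1 := by
        rw [mem_sphere_zero_iff_norm, norm_smul, norm_inv, norm_norm, inv_mul_cancel₀ hn.ne']
      have h2 : Q u u ≤ Q (‖v‖⁻¹ • v) (‖v‖⁻¹ • v) := hmin h1
      rw [map_smul, map_smul, _root_.smul_apply, smul_eq_mul, smul_eq_mul] at h2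
      have h3 : Q u u * ‖v‖ ^ 2 ≤ Q v v := by
        calc Q u u * ‖v‖ ^ 2 ≤ (‖v‖⁻¹ * (‖v‖⁻¹ * Q v v)) * ‖v‖ ^ 2 := by gcongr
          _ = Q v v := by field_simp
      have h4 : Q u u * ‖v‖ ^ 2 < 1 := h3.trans_lt hv1
      have h5 : ‖v‖ ^ 2 < 1 / Q u u := by
        rw [lt_div_iff₀ hc]
        linarith
      nlinarith [sq_nonneg (‖v‖ - 1)]

omit [IsManifold 𝓘(ℝ, E) ∞ M] in
/-- a map into the space of bilinear forms is smooth if its values are -/
theorem contMDiffAt_form {F : M → E →L[ℝ] E →L[ℝ] ℝ} {x₀ : M}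
    (h : ∀ v w : E, ContMDiffAt 𝓘(ℝ, E) 𝓘(ℝ, ℝ) ∞ (fun x => F x v w) x₀) :
    ContMDiffAt 𝓘(ℝ, E) 𝓘(ℝ, E →L[ℝ] E →L[ℝ] ℝ) ∞ F x₀ := by
  let b := finBasis ℝ E
  let φ : Fin (finrank ℝ E) → E →L[ℝ] ℝ := fun i => LinearMap.toContinuousLinearMap (b.coord i)
  have hφ : ∀ i v, φ i v = b.repr v i := fun i v => rfl
  let ψ : Fin (finrank ℝ E) → Fin (finrank ℝ E) → E →L[ℝ] E →L[ℝ] ℝ := fun i j =>
    (φ i).smulRight (φ j)
  have h1 : F = fun x => ∑ i, ∑ j, F x (b i) (b j) • ψ i j := by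
    funext x
    ext v w
    have h2 : F x v w = ∑ i, ∑ j, b.repr v i * b.repr w j * F x (b i) (b j) := by
      conv_lhs => rw [← b.sum_repr v, ← b.sum_repr w]
      exact bilin_sum b (F x) _ _
    rw [h2]
    simp only [_root_.sum_apply, _root_.smul_apply, smul_eq_mul]
    refine Finset.sum_congr rfl fun i _ => Finset.sum_congr rfl fun j _ => ?_
    have h3 : ψ i j v w = b.repr v i * b.repr w j := rfl
    rw [h3]
    ring
  rw [h1]
  refine contMDiffAt_finsetSum fun i _ => contMDiffAt_finsetSum fun j _ => ?_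
  exact (h (b i) (b j)).smul contMDiffAt_const

end MetAux

/-- A pointwise family of scalar products with smooth coefficients is a Riemannian metric. -/
theorem exists_met
    (Q : ∀ x : M, TangentSpace 𝓘(ℝ, E) x →L[ℝ] TangentSpace 𝓘(ℝ, E) x →L[ℝ] ℝ)
    (hs : ∀ x u v, Q x u v = Q x v u) (hp : ∀ x u, u ≠ 0 → 0 < Q x u u)
    (hsm : ∀ (z : M) (v w : E), ContDiffAt ℝ ∞ (fun y : E =>
      Q ((extChartAt 𝓘(ℝ, E) z).symm y)
        (mfderiv 𝓘(ℝ, E) 𝓘(ℝ, E) (extChartAt 𝓘(ℝ, E) z).symm y v)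
        (mfderiv 𝓘(ℝ, E) 𝓘(ℝ, E) (extChartAt 𝓘(ℝ, E) z).symm y w)) (extChartAt 𝓘(ℝ, E) z z)) :
    ∃ g : Met E M, ∀ x u v, g.inner x u v = Q x u v := by
  refine ⟨⟨Q, hs, hp, fun x => ?_, fun x₀ => ?_⟩, fun x u v => rfl⟩
  · exact MetAux.bounded_ball (E := E) (Q x) (hp x)
  · rw [contMDiffAt_section]
    apply MetAux.contMDiffAt_form
    intro v w
    have h1 : ∀ᶠ x in 𝓝 x₀, x ∈ (chartAt E x₀).source :=
      (chartAt E x₀).open_source.mem_nhds (mem_chart_source E x₀)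
    have h2 : ContMDiffAt 𝓘(ℝ, E) 𝓘(ℝ, ℝ) ∞ ((fun y : E =>
      Q ((extChartAt 𝓘(ℝ, E) x₀).symm y)
        (mfderiv 𝓘(ℝ, E) 𝓘(ℝ, E) (extChartAt 𝓘(ℝ, E) x₀).symm y v)
        (mfderiv 𝓘(ℝ, E) 𝓘(ℝ, E) (extChartAt 𝓘(ℝ, E) x₀).symm y w)) ∘
        (extChartAt 𝓘(ℝ, E) x₀)) x₀ :=
      ContMDiffAt.comp x₀ (hsm x₀ v w).contMDiffAt contMDiffAt_extChartAt
    refine h2.congr_of_eventuallyEq ?_
    filter_upwards [h1] with x hx
    have hx' : x ∈ (trivializationAt E (TangentSpace 𝓘(ℝ, E)) x₀).baseSet := by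
      rw [TangentBundle.trivializationAt_baseSet]
      exact hx
    simp only [hom_trivializationAt_apply, ContinuousLinearMap.inCoordinates, Function.comp_apply]
    have e1 := Fib.C1.triv_apply x₀ x hx' (Q x
      ((trivializationAt E (TangentSpace 𝓘(ℝ, E)) x₀).symmL ℝ x v)) w
    refine e1.trans ?_
    have hx'' : x ∈ (extChartAt 𝓘(ℝ, E) x₀).source := by
      rw [extChartAt_source]
      exact hx
    have e2 : (trivializationAt E (TangentSpace 𝓘(ℝ, E)) x₀).symmL ℝ x =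
        mfderiv 𝓘(ℝ, E) 𝓘(ℝ, E) (extChartAt 𝓘(ℝ, E) x₀).symm (extChartAt 𝓘(ℝ, E) x₀ x) := by
      rw [TangentBundle.symmL_trivializationAt hx, ModelWithCorners.range_eq_univ,
        mfderivWithin_univ]
    have e3 : ∀ x' : M, x' = x → ∀ v' w' : E, v' = mfderiv 𝓘(ℝ, E) 𝓘(ℝ, E)
        (extChartAt 𝓘(ℝ, E) x₀).symm (extChartAt 𝓘(ℝ, E) x₀ x) v →
        w' = mfderiv 𝓘(ℝ, E) 𝓘(ℝ, E)
        (extChartAt 𝓘(ℝ, E) x₀).symm (extChartAt 𝓘(ℝ, E) x₀ x) w →
        Q x v' w' = Q x' (mfderiv 𝓘(ℝ, E) 𝓘(ℝ, E)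
        (extChartAt 𝓘(ℝ, E) x₀).symm (extChartAt 𝓘(ℝ, E) x₀ x) v) (mfderiv 𝓘(ℝ, E) 𝓘(ℝ, E)
        (extChartAt 𝓘(ℝ, E) x₀).symm (extChartAt 𝓘(ℝ, E) x₀ x) w) := by
      rintro _ rfl _ _ rfl rfl
      rfl
    exact e3 _ ((extChartAt 𝓘(ℝ, E) x₀).left_inv hx'') _ _ (by rw [e2]; rfl) (by rw [e2]; rfl)

namespace MetAux

/-- the sum of the squares of the differentials of the functions `f k` -/
def sqf {κ : Type} [Fintype κ] (f : κ → M → ℝ) (x : M) :
    TangentSpace 𝓘(ℝ, E) x →L[ℝ] TangentSpace 𝓘(ℝ, E) x →L[ℝ] ℝ :=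
  let D : κ → E →L[ℝ] ℝ := fun k => mfderiv 𝓘(ℝ, E) 𝓘(ℝ, ℝ) (f k) x
  let Q : E →L[ℝ] E →L[ℝ] ℝ := ∑ k, (D k).smulRight (D k)
  Q

omit [FiniteDimensional ℝ E] in
theorem sum_smulRight {κ : Type} [Fintype κ] (D : κ → E →L[ℝ] ℝ) (v w : E) :
    (∑ k, (D k).smulRight (D k)) v w = ∑ k, D k v * D k w := by
  simp [_root_.sum_apply]

omit [FiniteDimensional ℝ E] [IsManifold 𝓘(ℝ, E) ∞ M] in
theorem sqf_apply {κ : Type} [Fintype κ] (f : κ → M → ℝ) (x : M) (v w : E) :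
    (sqf f x : E →L[ℝ] E →L[ℝ] ℝ) v w = ∑ k, dfun f k x v * dfun f k x w :=
  sum_smulRight (E := E) (fun k => (mfderiv 𝓘(ℝ, E) 𝓘(ℝ, ℝ) (f k) x : E →L[ℝ] ℝ)) v w

end MetAux

open R1 in
theorem nonempty_met (E : Type*) [NormedAddCommGroup E] [NormedSpace ℝ E]
    [FiniteDimensional ℝ E] (M : Type*) [TopologicalSpace M] [ChartedSpace E M]
    [IsManifold 𝓘(ℝ, E) ∞ M] [CompactSpace M] [T2Space M] : Nonempty (Met E M) := by
  obtain ⟨N, z, b, hb⟩ := cover E M
  let f : Fin N × Option (Fin (finrank ℝ E)) → M → ℝ := fun k x =>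
    match k.2 with
    | none => b k.1 x
    | some m => b k.1 x * cd (E := E) (z k.1) m x
  have hbs : ∀ i, Sm E (b i) := fun i => (b i).contMDiff
  have hf : ∀ k, Sm E (f k) := by
    rintro ⟨i, a⟩
    cases a with
    | none => exact hbs i
    | some m => exact (b i).contMDiff_smul (cd_contMDiffOn (z i) m)
  refine ⟨(exists_met (E := E) (M := M) (fun x => MetAux.sqf f x) ?_ ?_ ?_).choose⟩
  · intro x u v
    refine (MetAux.sqf_apply (E := E) f x u v).trans (Eq.trans ?_ (MetAux.sqf_apply (E := E) f x v u).symm)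
    exact Finset.sum_congr rfl fun k _ => mul_comm _ _
  · intro x u hu
    refine lt_of_lt_of_eq ?_ (MetAux.sqf_apply (E := E) f x u u).symm
    have h0 : ∀ k, 0 ≤ dfun (E := E) f k x u * dfun (E := E) f k x u := fun k => mul_self_nonneg _
    refine lt_of_le_of_ne (Finset.sum_nonneg fun k _ => h0 k) fun h => ?_
    have h1 : ∀ k, dfun (E := E) f k x u = 0 := by
      intro k
      have h2 := (Finset.sum_eq_zero_iff_of_nonneg fun k _ => h0 k).1 h.symm k (Finset.mem_univ k)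
      exact mul_self_eq_zero.1 h2
    obtain ⟨i, hi⟩ := hb x
    have hx : x ∈ (extChartAt 𝓘(ℝ, E) (z i)).source := by
      rw [extChartAt_source]
      refine (b i).support_subset_source ?_
      rw [Function.mem_support, hi]
      exact one_ne_zero
    set D : E →L[ℝ] E := mfderiv 𝓘(ℝ, E) 𝓘(ℝ, E) (extChartAt 𝓘(ℝ, E) (z i)) x with hD
    have h3 : ∀ m, (finBasis ℝ E).repr (D u) m = 0 := by
      intro m
      have e1 : HasMFDerivAt 𝓘(ℝ, E) 𝓘(ℝ, ℝ) (b i) x (mfderiv 𝓘(ℝ, E) 𝓘(ℝ, ℝ) (b i) x) :=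
        ((hbs i x).mdifferentiableAt (by simp)).hasMFDerivAt
      have e2 := e1.mul (cd_hasMFDerivAt (z i) m hx)
      have e3 : dfun (E := E) f (i, some m) x u = b i x * (finBasis ℝ E).repr (D u) m +
          cd (E := E) (z i) m x * dfun (E := E) f (i, none) x u := by
        have e4 : mfderiv 𝓘(ℝ, E) 𝓘(ℝ, ℝ) (f (i, some m)) x = _ := e2.mfderiv
        unfold dfun
        rw [e4]
        rfl
      rw [h1, h1, hi] at e3
      linarith
    have h4 : D u = 0 := by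
      apply (finBasis ℝ E).repr.injective
      ext m
      rw [h3 m, map_zero]
      rfl
    have h5 := symm_comp (z i) hx u
    apply hu
    rw [← h5]
    have h6 : (mfderiv 𝓘(ℝ, E) 𝓘(ℝ, E) (extChartAt 𝓘(ℝ, E) (z i)) x : E →L[ℝ] E) u = 0 := h4
    rw [h6]
    exact map_zero _
  · intro z' v w
    have hy := mem_extChartAt_target (I := 𝓘(ℝ, E)) z'
    have h1 : ContDiffAt ℝ ∞ (fun y => ∑ k, fderiv ℝ (rd E z' (f k)) y v *
        fderiv ℝ (rd E z' (f k)) y w) (extChartAt 𝓘(ℝ, E) z' z') := by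
      refine ContDiffAt.sum fun k _ => ?_
      have h2 : ContDiffAt ℝ ∞ (fderiv ℝ (rd E z' (f k))) (extChartAt 𝓘(ℝ, E) z' z') :=
        (g3_rd_smooth (hf k) z' hy).fderiv_right (by simp)
      exact (h2.clm_apply contDiffAt_const).mul (h2.clm_apply contDiffAt_const)
    refine h1.congr_of_eventuallyEq ?_
    filter_upwards [extChartAt_target_mem_nhds (I := 𝓘(ℝ, E)) z'] with y hy'
    refine (MetAux.sqf_apply (E := E) f _ _ _).trans ?_
    refine Finset.sum_congr rfl fun k _ => ?_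
    have e1 := Circ.GrdSub.fderiv_rd (hf k) z' hy' v
    have e2 := Circ.GrdSub.fderiv_rd (hf k) z' hy' w
    rw [e1, e2]
    rfl

end Pool.Agent.Lib.MP_df705a_gt.Coll
end
end

section

/-!
# Spectral pinching, part S1, S1g: gluing a metric into a chart
-/

open scoped Manifold ContDiff Topology
open Set Bundle Module Filter MeasureTheory

noncomputable section

set_option linter.unusedSectionVars false

namespace Pool.Agent.Lib.MP_df705a_gt.Pin.S1

open Pool.Agent.Lib.MP_df705a_gt.Twist Pool.Agent.Lib.MP_df705a_gt.Perm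
open Pool.Agent.Lib.MP_df705a_gt.Coll

variable {E : Type*} [NormedAddCommGroup E] [NormedSpace ℝ E] [FiniteDimensional ℝ E]
  {M : Type*} [TopologicalSpace M] [ChartedSpace E M] [IsManifold 𝓘(ℝ, E) ∞ M]
  [CompactSpace M] [T2Space M]

/-- The scalar product of the vectors `u`, `v` for the matrix `A`, in the coordinates of
`finBasis ℝ E`. -/
def qf (A : Matrix (Fin (finrank ℝ E)) (Fin (finrank ℝ E)) ℝ) : E →L[ℝ] E →L[ℝ] ℝ :=
  ∑ i, ∑ j, A i j • (LinearMap.toContinuousLinearMap ((finBasis ℝ E).coord i)).smulRight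
    (LinearMap.toContinuousLinearMap ((finBasis ℝ E).coord j))

theorem qf_apply (A : Matrix (Fin (finrank ℝ E)) (Fin (finrank ℝ E)) ℝ) (u v : E) :
    qf A u v = ∑ i, ∑ j, A i j * ((finBasis ℝ E).repr u i * (finBasis ℝ E).repr v j) := by
  unfold qf
  simp only [_root_.sum_apply, _root_.smul_apply, smul_eq_mul]
  rfl

theorem qf_pos {A : Matrix (Fin (finrank ℝ E)) (Fin (finrank ℝ E)) ℝ} (hA : A.PosDef) {u : E}
    (hu : u ≠ 0) : 0 < qf A u u := by
  rw [qf_apply]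
  have h1 : (fun i => (finBasis ℝ E).repr u i) ≠ 0 := by
    intro h
    apply hu
    apply (finBasis ℝ E).repr.injective
    ext i
    rw [map_zero]
    exact congrFun h i
  have h2 := (Matrix.posDef_iff_dotProduct_mulVec.1 hA).2 h1
  refine h2.trans_eq ?_
  rw [star_trivial, dotProduct]
  refine Finset.sum_congr rfl fun i _ => ?_
  rw [Matrix.mulVec, dotProduct, Finset.mul_sum]
  refine Finset.sum_congr rfl fun j _ => ?_
  ring

namespace S1gAux

theorem qf_symm {A : Matrix (Fin (finrank ℝ E)) (Fin (finrank ℝ E)) ℝ} (hA : A.PosDef) (u v : E) :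
    qf A u v = qf A v u := by
  rw [qf_apply, qf_apply, Finset.sum_comm]
  refine Finset.sum_congr rfl fun i _ => Finset.sum_congr rfl fun j _ => ?_
  have h1 : A j i = A i j := by
    have h2 := hA.isHermitian.apply i j
    simpa using h2
  rw [h1]
  ring

theorem qf_basis (A : Matrix (Fin (finrank ℝ E)) (Fin (finrank ℝ E)) ℝ)
    (i j : Fin (finrank ℝ E)) : qf A (finBasis ℝ E i) (finBasis ℝ E j) = A i j := by
  rw [qf_apply]
  simp [Finsupp.single_apply]

/-- the chart composed with the inverse of another chart -/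
theorem d_comp {z z' : M} {y : E} (hy : y ∈ dom 𝓘(ℝ, E) z z') (v : E) :
    (mfderiv 𝓘(ℝ, E) 𝓘(ℝ, E) (extChartAt 𝓘(ℝ, E) z) ((extChartAt 𝓘(ℝ, E) z').symm y) :
      E →L[ℝ] E) ((mfderiv 𝓘(ℝ, E) 𝓘(ℝ, E) (extChartAt 𝓘(ℝ, E) z').symm y : E →L[ℝ] E) v) =
      fderiv ℝ (trans 𝓘(ℝ, E) z z') y v := by
  have h0 : (extChartAt 𝓘(ℝ, E) z').symm y ∈ (chartAt E z).source := by
    rw [← extChartAt_source (I := 𝓘(ℝ, E))]
    exact hy.2
  have h1 : MDifferentiableAt 𝓘(ℝ, E) 𝓘(ℝ, E) (extChartAt 𝓘(ℝ, E) z)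
      ((extChartAt 𝓘(ℝ, E) z').symm y) :=
    (contMDiffAt_extChartAt' (n := ∞) h0).mdifferentiableAt (by simp)
  have h2 := mfderiv_comp (I := 𝓘(ℝ, E)) (I' := 𝓘(ℝ, E)) (I'' := 𝓘(ℝ, E)) y h1
    (symm_mdiff 𝓘(ℝ, E) z' hy.1)
  have h3 : mfderiv 𝓘(ℝ, E) 𝓘(ℝ, E) (trans 𝓘(ℝ, E) z z') y =
      fderiv ℝ (trans 𝓘(ℝ, E) z z') y := mfderiv_eq_fderiv
  have h4 : trans 𝓘(ℝ, E) z z' = extChartAt 𝓘(ℝ, E) z ∘ (extChartAt 𝓘(ℝ, E) z').symm := rfl
  rw [← h3, h4, h2]
  rfl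

theorem d_symm {z : M} {y : E} (hy : y ∈ (extChartAt 𝓘(ℝ, E) z).target) (v : E) :
    (mfderiv 𝓘(ℝ, E) 𝓘(ℝ, E) (extChartAt 𝓘(ℝ, E) z) ((extChartAt 𝓘(ℝ, E) z).symm y) :
      E →L[ℝ] E) ((mfderiv 𝓘(ℝ, E) 𝓘(ℝ, E) (extChartAt 𝓘(ℝ, E) z).symm y : E →L[ℝ] E) v) = v := by
  have h := mfderiv_extChartAt_comp_mfderivWithin_extChartAt_symm (I := 𝓘(ℝ, E)) (x := z) hy
  rw [ModelWithCorners.range_eq_univ, mfderivWithin_univ] at h
  exact DFunLike.congr_fun h v

theorem d_left {z : M} {x : M} (hx : x ∈ (extChartAt 𝓘(ℝ, E) z).source) (v : E) :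
    (mfderiv 𝓘(ℝ, E) 𝓘(ℝ, E) (extChartAt 𝓘(ℝ, E) z).symm (extChartAt 𝓘(ℝ, E) z x) : E →L[ℝ] E)
      ((mfderiv 𝓘(ℝ, E) 𝓘(ℝ, E) (extChartAt 𝓘(ℝ, E) z) x : E →L[ℝ] E) v) = v := by
  have h := mfderivWithin_extChartAt_symm_comp_mfderiv_extChartAt' (I := 𝓘(ℝ, E)) (x := z) hx
  rw [ModelWithCorners.range_eq_univ, mfderivWithin_univ] at h
  exact DFunLike.congr_fun h v

/-- the glued form -/
def glueQ (h : Curv.Coeff E) (z : M) (χ : M → ℝ) (g₀ : Met E M) (x : M) :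
    TangentSpace 𝓘(ℝ, E) x →L[ℝ] TangentSpace 𝓘(ℝ, E) x →L[ℝ] ℝ :=
  let D : E →L[ℝ] E := mfderiv 𝓘(ℝ, E) 𝓘(ℝ, E) (extChartAt 𝓘(ℝ, E) z) x
  let B : E →L[ℝ] E →L[ℝ] ℝ := g₀.inner x
  let Q : E →L[ℝ] E →L[ℝ] ℝ :=
    χ x • (qf (h (extChartAt 𝓘(ℝ, E) z x))).bilinearComp D D + (1 - χ x) • B
  Q

theorem glueQ_apply (h : Curv.Coeff E) (z : M) (χ : M → ℝ) (g₀ : Met E M) (x : M) (u v : E) :
    (glueQ h z χ g₀ x : E →L[ℝ] E →L[ℝ] ℝ) u v =
      χ x * qf (h (extChartAt 𝓘(ℝ, E) z x))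
        ((mfderiv 𝓘(ℝ, E) 𝓘(ℝ, E) (extChartAt 𝓘(ℝ, E) z) x : E →L[ℝ] E) u)
        ((mfderiv 𝓘(ℝ, E) 𝓘(ℝ, E) (extChartAt 𝓘(ℝ, E) z) x : E →L[ℝ] E) v) +
      (1 - χ x) * (g₀.inner x : E →L[ℝ] E →L[ℝ] ℝ) u v := rfl

theorem glueQ_symm {h : Curv.Coeff E} (hh : Curv.IsMetric h) (z : M) (χ : M → ℝ) (g₀ : Met E M)
    (x : M) (u v : E) : (glueQ h z χ g₀ x : E →L[ℝ] E →L[ℝ] ℝ) u v =
      (glueQ h z χ g₀ x : E →L[ℝ] E →L[ℝ] ℝ) v u := by
  have h1 : (g₀.inner x : E →L[ℝ] E →L[ℝ] ℝ) u v = (g₀.inner x : E →L[ℝ] E →L[ℝ] ℝ) v u :=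
    g₀.symm x u v
  have h2 := qf_symm (hh.2 (extChartAt 𝓘(ℝ, E) z x))
    ((mfderiv 𝓘(ℝ, E) 𝓘(ℝ, E) (extChartAt 𝓘(ℝ, E) z) x : E →L[ℝ] E) u)
    ((mfderiv 𝓘(ℝ, E) 𝓘(ℝ, E) (extChartAt 𝓘(ℝ, E) z) x : E →L[ℝ] E) v)
  refine (glueQ_apply h z χ g₀ x u v).trans (Eq.trans ?_ (glueQ_apply h z χ g₀ x v u).symm)
  exact congrArg₂ (· + ·) (congrArg (χ x * ·) h2) (congrArg ((1 - χ x) * ·) h1)

theorem glueQ_val (h : Curv.Coeff E) (z : M) (χ : M → ℝ) (g₀ : Met E M) (x : M) (u v : E)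
    {a du dv : E} (ha : extChartAt 𝓘(ℝ, E) z x = a)
    (hu : (mfderiv 𝓘(ℝ, E) 𝓘(ℝ, E) (extChartAt 𝓘(ℝ, E) z) x : E →L[ℝ] E) u = du)
    (hv : (mfderiv 𝓘(ℝ, E) 𝓘(ℝ, E) (extChartAt 𝓘(ℝ, E) z) x : E →L[ℝ] E) v = dv) :
    (glueQ h z χ g₀ x : E →L[ℝ] E →L[ℝ] ℝ) u v =
      χ x * (∑ i, ∑ j, h a i j * ((finBasis ℝ E).repr du i * (finBasis ℝ E).repr dv j)) +
      (1 - χ x) * (g₀.inner x : E →L[ℝ] E →L[ℝ] ℝ) u v := by
  subst ha
  subst hu
  subst hv
  refine (glueQ_apply h z χ g₀ x u v).trans ?_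
  exact congrArg (fun t => χ x * t + (1 - χ x) * (g₀.inner x : E →L[ℝ] E →L[ℝ] ℝ) u v)
    (qf_apply _ _ _)

theorem glueQ_pos {h : Curv.Coeff E} (hh : Curv.IsMetric h) (z : M) {χ : M → ℝ} (g₀ : Met E M)
    (hχ0 : ∀ x, 0 ≤ χ x) (hχ1 : ∀ x, χ x ≤ 1)
    (hs : tsupport χ ⊆ (extChartAt 𝓘(ℝ, E) z).source)
    (x : M) (u : E) (hu : u ≠ 0) : 0 < (glueQ h z χ g₀ x : E →L[ℝ] E →L[ℝ] ℝ) u u := by
  rw [glueQ_apply]
  have h1 : 0 < (g₀.inner x : E →L[ℝ] E →L[ℝ] ℝ) u u := g₀.pos x u hu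
  rcases (hχ0 x).eq_or_lt with h0 | h0
  · rw [← h0]
    simpa using h1
  · have hx : x ∈ (extChartAt 𝓘(ℝ, E) z).source := hs (subset_closure h0.ne')
    have hD : ((mfderiv 𝓘(ℝ, E) 𝓘(ℝ, E) (extChartAt 𝓘(ℝ, E) z) x : E →L[ℝ] E) u) ≠ 0 := by
      intro h2
      have h3 := d_left (z := z) hx u
      rw [h2, map_zero] at h3
      exact hu h3.symm
    have h4 := qf_pos (hh.2 (extChartAt 𝓘(ℝ, E) z x)) hD
    have h5 := mul_pos h0 h4
    have h6 := mul_nonneg (sub_nonneg.2 (hχ1 x)) h1.le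
    linarith

end S1gAux

/-- **Gluing.** Let `χ` be a smooth function on `M` with values in `[0, 1]` and support in the domain
of the preferred chart at `z`. There is a metric on `M` whose coefficients in this chart are those of
`h` where `χ = 1`.
Proof: let `g₀` be a metric on `M` (`nonempty_met`), `φ` the chart `extChartAt z`,
`Q x u v = χ x * qf (h (φ x)) (D u) (D v) + (1 - χ x) * g₀.inner x u v`, `D = mfderiv φ x` (for `x`
outside the domain of the chart `χ x = 0`). Symmetric (`IsMetric` gives the symmetry of `h`) and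
positive (`D` is injective on the domain: `symm_comp` as in `nonempty_met`; `qf_pos`). Smoothness for
`exists_met`: let `z'` be a point and `y₀ = extChartAt z' z'`. If `z'` is not in `tsupport χ` then
`χ = 0` near `z'` and the function is `chartMetric` of `g₀`, smooth (`g3_coeff_smooth`, or the
smoothness field of `g₀`). If `z'` is in the domain of `φ`, let `T = φ ∘ (extChartAt z').symm`, smooth
near `y₀`; `D (mfderiv (extChartAt z').symm y v) = fderiv T y v`, and the first term is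
`χ (..) * ∑ h (T y) i j * repr (fderiv T y v) i * repr (fderiv T y w) j`.
Coefficients: for `y` in the target of `φ` with `χ (φ.symm y) = 1`, `Q (φ.symm y)` of
`mfderiv φ.symm y (b i)`, `mfderiv φ.symm y (b j)` is `qf (h y) (b i) (b j) = h y i j`
(`D ∘ mfderiv φ.symm y = id`). -/
theorem exists_glue {h : Curv.Coeff E} (hh : Curv.IsMetric h) (z : M) {χ : M → ℝ} (hχ : Sm E χ)
    (hχ0 : ∀ x, 0 ≤ χ x) (hχ1 : ∀ x, χ x ≤ 1)
    (hs : tsupport χ ⊆ (extChartAt 𝓘(ℝ, E) z).source) :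
    ∃ g : Met E M, ∀ y ∈ (extChartAt 𝓘(ℝ, E) z).target,
      χ ((extChartAt 𝓘(ℝ, E) z).symm y) = 1 → coeff g z y = h y := by
  obtain ⟨g₀⟩ := nonempty_met E M
  obtain ⟨g, hg⟩ := exists_met (E := E) (M := M) (fun x => S1gAux.glueQ h z χ g₀ x)
    (fun x u v => S1gAux.glueQ_symm hh z χ g₀ x u v)
    (fun x u hu => S1gAux.glueQ_pos hh z g₀ hχ0 hχ1 hs x u hu) (by
    intro z' v w
    have hy := mem_extChartAt_target (I := 𝓘(ℝ, E)) z'
    have hg₀ : ContDiffAt ℝ ∞ (fun y : E => g₀.inner ((extChartAt 𝓘(ℝ, E) z').symm y)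
        (mfderiv 𝓘(ℝ, E) 𝓘(ℝ, E) (extChartAt 𝓘(ℝ, E) z').symm y v)
        (mfderiv 𝓘(ℝ, E) 𝓘(ℝ, E) (extChartAt 𝓘(ℝ, E) z').symm y w))
        (extChartAt 𝓘(ℝ, E) z' z') :=
      (inner_smooth 𝓘(ℝ, E) g₀ z' v w).contDiffAt ((isOpen_extChartAt_target z').mem_nhds hy)
    by_cases hz' : z' ∈ tsupport χ
    · have hd : extChartAt 𝓘(ℝ, E) z' z' ∈ dom 𝓘(ℝ, E) z z' :=
        ⟨hy, by
          change (extChartAt 𝓘(ℝ, E) z').symm (extChartAt 𝓘(ℝ, E) z' z') ∈ (extChartAt 𝓘(ℝ, E) z).source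
          rw [extChartAt_to_inv]
          exact hs hz'⟩
      have hT : ContDiffAt ℝ ∞ (trans 𝓘(ℝ, E) z z') (extChartAt 𝓘(ℝ, E) z' z') :=
        g3_trans_smooth hd
      have hTd : ContDiffAt ℝ ∞ (fderiv ℝ (trans 𝓘(ℝ, E) z z')) (extChartAt 𝓘(ℝ, E) z' z') :=
        hT.fderiv_right (by simp)
      have hr : ∀ (u : E) (i : Fin (finrank ℝ E)), ContDiffAt ℝ ∞ (fun y =>
          (finBasis ℝ E).repr (fderiv ℝ (trans 𝓘(ℝ, E) z z') y u) i)
          (extChartAt 𝓘(ℝ, E) z' z') := by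
        intro u i
        exact (LinearMap.toContinuousLinearMap ((finBasis ℝ E).coord i)).contDiff.contDiffAt.comp _
          (hTd.clm_apply contDiffAt_const)
      have hc : ContDiffAt ℝ ∞ (rd E z' χ) (extChartAt 𝓘(ℝ, E) z' z') := g3_rd_smooth hχ z' hy
      have h1 : ContDiffAt ℝ ∞ (fun y => rd E z' χ y * (∑ i, ∑ j,
          h (trans 𝓘(ℝ, E) z z' y) i j *
          ((finBasis ℝ E).repr (fderiv ℝ (trans 𝓘(ℝ, E) z z') y v) i *
            (finBasis ℝ E).repr (fderiv ℝ (trans 𝓘(ℝ, E) z z') y w) j)) +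
          (1 - rd E z' χ y) * g₀.inner ((extChartAt 𝓘(ℝ, E) z').symm y)
            (mfderiv 𝓘(ℝ, E) 𝓘(ℝ, E) (extChartAt 𝓘(ℝ, E) z').symm y v)
            (mfderiv 𝓘(ℝ, E) 𝓘(ℝ, E) (extChartAt 𝓘(ℝ, E) z').symm y w))
          (extChartAt 𝓘(ℝ, E) z' z') := by
        refine (hc.mul (ContDiffAt.sum fun i _ => ContDiffAt.sum fun j _ => ?_)).add
          ((contDiffAt_const.sub hc).mul hg₀)
        exact (((hh.1 i j).contDiffAt).comp _ hT).mul ((hr v i).mul (hr w j))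
      refine h1.congr_of_eventuallyEq ?_
      filter_upwards [(dom_open 𝓘(ℝ, E) z z').mem_nhds hd] with y hy'
      exact S1gAux.glueQ_val h z χ g₀ _ _ _ (a := trans 𝓘(ℝ, E) z z' y) rfl
        (S1gAux.d_comp hy' v) (S1gAux.d_comp hy' w)
    · have h2 : ∀ᶠ y in 𝓝 (extChartAt 𝓘(ℝ, E) z' z'),
          χ ((extChartAt 𝓘(ℝ, E) z').symm y) = 0 := by
        have h3 : ∀ᶠ q in 𝓝 z', χ q = 0 := by
          filter_upwards [(isClosed_tsupport χ).isOpen_compl.mem_nhds hz'] with q hq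
          exact image_eq_zero_of_notMem_tsupport hq
        have h4 := (continuousAt_extChartAt_symm (I := 𝓘(ℝ, E)) z').tendsto
        rw [extChartAt_to_inv] at h4
        exact h4.eventually h3
      refine hg₀.congr_of_eventuallyEq ?_
      filter_upwards [h2] with y hy'
      refine (S1gAux.glueQ_apply h z χ g₀ _ _ _).trans ?_
      rw [hy', zero_mul, zero_add, sub_zero, one_mul])
  refine ⟨g, fun y hy hχy => ?_⟩
  ext i j
  have e0 : coeff g z y i j = g.inner ((extChartAt 𝓘(ℝ, E) z).symm y)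
    (mfderiv 𝓘(ℝ, E) 𝓘(ℝ, E) (extChartAt 𝓘(ℝ, E) z).symm y (finBasis ℝ E i))
    (mfderiv 𝓘(ℝ, E) 𝓘(ℝ, E) (extChartAt 𝓘(ℝ, E) z).symm y (finBasis ℝ E j)) := rfl
  rw [e0, hg]
  refine (S1gAux.glueQ_val h z χ g₀ _ _ _ (a := y) ((extChartAt 𝓘(ℝ, E) z).right_inv hy)
    (S1gAux.d_symm hy (finBasis ℝ E i)) (S1gAux.d_symm hy (finBasis ℝ E j))).trans ?_
  rw [hχy, ← qf_apply, S1gAux.qf_basis]
  ring

end Pool.Agent.Lib.MP_df705a_gt.Pin.S1
end
end
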