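import Pool.Agent.Lib.MP_df705a_gt.Mg.G061
import Pool.Agent.Lib.MP_df705a_gt.Mg.G059
import Pool.Agent.Lib.MP_df705a_gt.Coll.Defs

section

/-!
# Module T, N1: existence of normal coordinates
-/

open scoped Manifold ContDiff Topology
open Set Bundle Module Filter MeasureTheory

noncomputable section

set_option linter.unusedSectionVars false

namespace Pool.Agent.Lib.MP_df705a_gt.Coll.T

open Pool.Agent.Lib.MP_df705a_gt.Twist Pool.Agent.Lib.MP_df705a_gt.Perm
open Pool.Agent.Lib.MP_df705a_gt.Circ (cf Para)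

variable {E : Type*} [NormedAddCommGroup E] [NormedSpace ℝ E] [FiniteDimensional ℝ E]
  {h : Curv.Coeff E} {x : E}

/-- `exists_frame`, `exists_chr`, `exists_quad`, `PJ.jets` (Perm/PullJets.lean: with `h' = pull h τ`
the law is `rfl`): the first derivative of the pulled back metric at `0` is
`D (La) (Lu) (Lv) - chr D (La) (Lu) (Lv) - chr D (La) (Lv) (Lu) = 0` (`Alg.chr_apply`). -/
theorem exists_normal (H : RM h x) :
    ∃ τ : E → E, ContDiff ℝ ∞ τ ∧ τ 0 = x ∧ (fderiv ℝ τ 0).det ≠ 0 ∧ Nrm (pull h τ) 0 := by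
  obtain ⟨L, hL, hLH⟩ := exists_frame H.self.2
  obtain ⟨Q, hQs, hQ⟩ := exists_chr H
  obtain ⟨τ, hτ, h0, h1, h2⟩ := exists_quad x L Q hQs
  have hd : (fderiv ℝ τ 0).det ≠ 0 := by
    rw [h1]
    exact hL
  refine ⟨τ, hτ, h0, hd, pull_rm hτ hd (by rw [h0]; exact H), ?_, ?_⟩
  · unfold pull
    rw [h0, h1]
    exact hLH
  · intro i j
    obtain ⟨-, J, -⟩ := PJ.jets (h := h) (h' := pull h τ) hτ.contDiffAt
      (fun i j => by rw [h0]; exact H.self.1 i j) (Eventually.of_forall fun _ => rfl)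
    ext a
    have e1 := J a (finBasis ℝ E i) (finBasis ℝ E j)
    rw [h0, h1, h2, h2, hQ] at e1
    have hsym : ∀ᶠ y in 𝓝 x, ∀ i j, h y i j = h y j i := by
      filter_upwards [H.nhds] with y hy
      exact fun i j => hy.symm i j
    have hBs : ∀ u v : E, Alg.fB h x u v = Alg.fB h x v u := fun u v =>
      Alg.mkB_symm (finBasis ℝ E) (fun i j => H.symm i j) u v
    have hDs : ∀ a u v : E, Alg.fD h x a u v = Alg.fD h x a v u := fun a u v =>
      Alg.mkD_symm (finBasis ℝ E)
        (fun i j => Alg.j1_symm (M := fun i j y => h y i j) hsym i j) a u v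
    rw [hBs (L (finBasis ℝ E i)), hQ, Alg.chr_apply, Alg.chr_apply,
      hDs (L a) (L (finBasis ℝ E j)) (L (finBasis ℝ E i))] at e1
    have e2 : Alg.fD (pull h τ) 0 a (finBasis ℝ E i) (finBasis ℝ E j) =
        fderiv ℝ (fun y => pull h τ y i j) 0 a := by
      unfold Alg.fD
      rw [Alg.mkD_basis]
      rfl
    rw [← e2, e1]
    rw [ContinuousLinearMap.zero_apply]
    ring

end Pool.Agent.Lib.MP_df705a_gt.Coll.T
end
end

section

/-!
# Module T, N3: values in normal coordinates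
-/

open scoped Manifold ContDiff Topology
open Set Bundle Module Filter MeasureTheory

noncomputable section

set_option linter.unusedSectionVars false

namespace Pool.Agent.Lib.MP_df705a_gt.Coll.T

open Pool.Agent.Lib.MP_df705a_gt.Twist Pool.Agent.Lib.MP_df705a_gt.Perm
open Pool.Agent.Lib.MP_df705a_gt.Circ (cf Para)

variable {E : Type*} [NormedAddCommGroup E] [NormedSpace ℝ E] [FiniteDimensional ℝ E]
  {h : Curv.Coeff E} {x : E}


theorem Nrm.christoffel (N : Nrm h x) (i j k : Fin (finrank ℝ E)) :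
    Curv.christoffel h i j k x = 0 := by
  unfold Curv.christoffel
  rw [N.pd_h, N.pd_h, N.pd_h]
  ring

theorem Nrm.covHess (N : Nrm h x) (u : E → ℝ) (i j : Fin (finrank ℝ E)) :
    Curv.covHess h u x i j = Curv.pd i (Curv.pd j u) x := by
  unfold Curv.covHess
  simp only [N.christoffel, mul_zero, zero_mul, Finset.sum_const_zero, sub_zero]

theorem Nrm.lapC (N : Nrm h x) (u : E → ℝ) :
    lapC h u x = ∑ i, Curv.pd i (Curv.pd i u) x := by
  show Pool.Agent.Lib.MP_df705a_gt.Twist.lapC h u x = _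
  unfold Pool.Agent.Lib.MP_df705a_gt.Twist.lapC
  simp only [N.covHess, N.inv, Matrix.one_apply, ite_mul, one_mul, zero_mul, Finset.sum_ite_eq,
    Finset.mem_univ, if_true]

theorem Nrm.gradC (N : Nrm h x) (u v : E → ℝ) :
    gradC h u v x = ∑ i, Curv.pd i u x * Curv.pd i v x := by
  show Pool.Agent.Lib.MP_df705a_gt.Twist.gradC h u v x = _
  unfold Pool.Agent.Lib.MP_df705a_gt.Twist.gradC
  simp only [N.inv, Matrix.one_apply, ite_mul, one_mul, zero_mul, Finset.sum_ite_eq,
    Finset.mem_univ, if_true]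

/-- The derivatives of the Christoffel symbols. -/
theorem Nrm.pd_christoffel (N : Nrm h x) (m i j k : Fin (finrank ℝ E)) :
    Curv.pd m (Curv.christoffel h i j k) x =
      (Curv.pd m (Curv.pd i (fun y => h y j k)) x + Curv.pd m (Curv.pd j (fun y => h y i k)) x -
        Curv.pd m (Curv.pd k (fun y => h y i j)) x) / 2 := by
  have hd : ∀ a b l, DifferentiableAt ℝ (Curv.pd l (fun z => h z a b)) x := fun a b l =>
    G4.diff_of (G4.pd_contDiffAt (N.rm.self.1 a b) l)
  have e1 : Curv.christoffel h i j k = fun y => (1 / 2 : ℝ) * ((Curv.pd i (fun y => h y j k) y +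
      Curv.pd j (fun y => h y i k) y) - Curv.pd k (fun y => h y i j) y) := by
    funext y
    unfold Curv.christoffel
    ring
  rw [e1, G4.pd_smul (((hd _ _ _).fun_add (hd _ _ _)).fun_sub (hd _ _ _)),
    G4.pd_sub ((hd _ _ _).fun_add (hd _ _ _)) (hd _ _ _), G4.pd_add (hd _ _ _) (hd _ _ _)]
  ring

/-- The curvature in normal coordinates (`pd_comm`, symmetry of `h` near `x`). -/
theorem Nrm.riemann (N : Nrm h x) (i j k l : Fin (finrank ℝ E)) :
    Curv.riemann h i j k l x =
      (Curv.pd i (Curv.pd k (fun y => h y j l)) x - Curv.pd i (Curv.pd l (fun y => h y j k)) x -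
        Curv.pd j (Curv.pd k (fun y => h y i l)) x +
        Curv.pd j (Curv.pd l (fun y => h y i k)) x) / 2 := by
  unfold Curv.riemann
  rw [N.pd_christoffel, N.pd_christoffel]
  simp only [N.christoffel, mul_zero, sub_zero, Finset.sum_const_zero, add_zero]
  rw [pd_comm (N.rm.self.1 k l) i j]
  ring

theorem Nrm.ric (N : Nrm h x) (j k : Fin (finrank ℝ E)) :
    ric h x j k = ∑ i, Curv.riemann h i j k i x := by
  show Pool.Agent.Lib.MP_df705a_gt.Coll.ric h x j k = _
  unfold Pool.Agent.Lib.MP_df705a_gt.Coll.ric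
  simp only [N.inv, Matrix.one_apply, ite_mul, one_mul, zero_mul, Finset.sum_ite_eq,
    Finset.mem_univ, if_true]

end Pool.Agent.Lib.MP_df705a_gt.Coll.T
end
end

section

/-!
# Module T, N4: symmetries of the curvature in normal coordinates
-/

open scoped Manifold ContDiff Topology
open Set Bundle Module Filter MeasureTheory

noncomputable section

set_option linter.unusedSectionVars false

namespace Pool.Agent.Lib.MP_df705a_gt.Coll.T

open Pool.Agent.Lib.MP_df705a_gt.Twist Pool.Agent.Lib.MP_df705a_gt.Perm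
open Pool.Agent.Lib.MP_df705a_gt.Circ (cf Para)

variable {E : Type*} [NormedAddCommGroup E] [NormedSpace ℝ E] [FiniteDimensional ℝ E]
  {h : Curv.Coeff E} {x : E}


private theorem N4_sym2 (N : Nrm h x) (a b i j : Fin (finrank ℝ E)) :
    Curv.pd a (Curv.pd b (fun y => h y i j)) x = Curv.pd a (Curv.pd b (fun y => h y j i)) x := by
  have h1 : ∀ᶠ z in 𝓝 x, RM h z := N.rm.nhds
  have h2 : (fun y => h y i j) =ᶠ[𝓝 x] (fun y => h y j i) := by
    filter_upwards [h1] with z hz
    exact hz.symm i j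
  have h3 : Curv.pd b (fun y => h y i j) =ᶠ[𝓝 x] Curv.pd b (fun y => h y j i) := by
    filter_upwards [h2.eventuallyEq_nhds] with z hz
    unfold Curv.pd
    rw [hz.fderiv_eq]
  unfold Curv.pd at h3 ⊢
  rw [h3.fderiv_eq]

private theorem N4_comm (N : Nrm h x) (a b i j : Fin (finrank ℝ E)) :
    Curv.pd a (Curv.pd b (fun y => h y i j)) x = Curv.pd b (Curv.pd a (fun y => h y i j)) x :=
  pd_comm (N.rm.self.1 i j) a b

theorem Nrm.riemann_swap (N : Nrm h x) (i j k l : Fin (finrank ℝ E)) :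
    Curv.riemann h i j k l x = Curv.riemann h j i l k x := by
  rw [N.riemann i j k l, N.riemann j i l k]
  ring

theorem Nrm.ric_symm (N : Nrm h x) (j k : Fin (finrank ℝ E)) :
    Coll.ric h x j k = Coll.ric h x k j := by
  rw [N.ric j k, N.ric k j]
  refine Finset.sum_congr rfl fun i _ => ?_
  rw [N.riemann i j k i, N.riemann i k j i]
  rw [N4_sym2 N i k j i, N4_sym2 N i i j k, N4_sym2 N j i i k,
    N4_comm N k j i i, N4_comm N j i k i, N4_comm N i k i j]
  ring

end Pool.Agent.Lib.MP_df705a_gt.Coll.T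
end
end

section

/-!
# Module T, A3: bilinearity
-/

open scoped Manifold ContDiff Topology
open Set Bundle Module Filter MeasureTheory

noncomputable section

set_option linter.unusedSectionVars false

namespace Pool.Agent.Lib.MP_df705a_gt.Coll.T

open Pool.Agent.Lib.MP_df705a_gt.Twist Pool.Agent.Lib.MP_df705a_gt.Perm
open Pool.Agent.Lib.MP_df705a_gt.Circ (cf Para)


variable {n : ℕ} {H : Matrix (Fin n) (Fin n) ℝ}

theorem trM_add (S S' : Matrix (Fin n) (Fin n) ℝ) : trM H (S + S') = trM H S + trM H S' := by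
  simp only [trM, Matrix.add_apply, mul_add, Finset.sum_add_distrib]

theorem trM_smul (c : ℝ) (S : Matrix (Fin n) (Fin n) ℝ) : trM H (c • S) = c * trM H S := by
  simp only [trM, Matrix.smul_apply, smul_eq_mul, Finset.mul_sum]
  refine Finset.sum_congr rfl fun i _ => Finset.sum_congr rfl fun j _ => ?_
  ring

private theorem A3_trM_zero : trM H (0 : Matrix (Fin n) (Fin n) ℝ) = 0 := by
  simp [trM]

theorem trM_sum {ι : Type*} (s : Finset ι) (S : ι → Matrix (Fin n) (Fin n) ℝ) :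
    trM H (∑ a ∈ s, S a) = ∑ a ∈ s, trM H (S a) := by
  classical
  induction s using Finset.induction_on with
  | empty => rw [Finset.sum_empty, Finset.sum_empty, A3_trM_zero]
  | insert a s ha ih => rw [Finset.sum_insert ha, Finset.sum_insert ha, trM_add, ih]

theorem ipM_add_left (S S' T : Matrix (Fin n) (Fin n) ℝ) :
    ipM H (S + S') T = ipM H S T + ipM H S' T := by
  simp only [ipM, Matrix.add_apply, add_mul, mul_add, Finset.sum_add_distrib]

theorem ipM_smul_left (c : ℝ) (S T : Matrix (Fin n) (Fin n) ℝ) :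
    ipM H (c • S) T = c * ipM H S T := by
  simp only [ipM, Matrix.smul_apply, smul_eq_mul, Finset.mul_sum]
  refine Finset.sum_congr rfl fun i _ => Finset.sum_congr rfl fun j _ =>
    Finset.sum_congr rfl fun a _ => Finset.sum_congr rfl fun b _ => ?_
  ring

private theorem A3_ipM_zero (T : Matrix (Fin n) (Fin n) ℝ) :
    ipM H (0 : Matrix (Fin n) (Fin n) ℝ) T = 0 := by
  simp [ipM]

theorem ipM_sum_left {ι : Type*} (s : Finset ι) (S : ι → Matrix (Fin n) (Fin n) ℝ)
    (T : Matrix (Fin n) (Fin n) ℝ) : ipM H (∑ a ∈ s, S a) T = ∑ a ∈ s, ipM H (S a) T := by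
  classical
  induction s using Finset.induction_on with
  | empty => rw [Finset.sum_empty, Finset.sum_empty, A3_ipM_zero]
  | insert a s ha ih => rw [Finset.sum_insert ha, Finset.sum_insert ha, ipM_add_left, ih]

private theorem A3_inv_symm (hH : ∀ i j, H i j = H j i) (i j : Fin n) :
    H⁻¹ i j = H⁻¹ j i := by
  have h1 : H.transpose = H := by
    ext a b
    exact hH b a
  have h2 : (H⁻¹).transpose = H⁻¹ := by rw [Matrix.transpose_nonsing_inv, h1]
  have h3 := congrFun (congrFun h2 j) i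
  exact h3

theorem ipM_comm (hH : ∀ i j, H i j = H j i) (S T : Matrix (Fin n) (Fin n) ℝ) :
    ipM H S T = ipM H T S := by
  unfold ipM
  have h1 : ∀ i : Fin n, (∑ j, ∑ a, ∑ b, H⁻¹ i a * H⁻¹ j b * (S i j * T a b)) =
      ∑ a, ∑ j, ∑ b, H⁻¹ i a * H⁻¹ j b * (S i j * T a b) := fun i => Finset.sum_comm
  rw [Finset.sum_congr rfl fun i _ => h1 i, Finset.sum_comm]
  refine Finset.sum_congr rfl fun a _ => ?_
  have h2 : ∀ i : Fin n, (∑ j, ∑ b, H⁻¹ i a * H⁻¹ j b * (S i j * T a b)) =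
      ∑ b, ∑ j, H⁻¹ i a * H⁻¹ j b * (S i j * T a b) := fun i => Finset.sum_comm
  rw [Finset.sum_congr rfl fun i _ => h2 i, Finset.sum_comm]
  refine Finset.sum_congr rfl fun b _ => Finset.sum_congr rfl fun i _ =>
    Finset.sum_congr rfl fun j _ => ?_
  rw [A3_inv_symm hH a i, A3_inv_symm hH b j]
  ring

theorem ipM_sub_self (hH : ∀ i j, H i j = H j i) (S T : Matrix (Fin n) (Fin n) ℝ) :
    ipM H (S - T) (S - T) = ipM H S S - 2 * ipM H S T + ipM H T T := by
  have h1 : ∀ U : Matrix (Fin n) (Fin n) ℝ, ipM H (S - T) U = ipM H S U - ipM H T U := by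
    intro U
    have h2 : S - T = S + (-1 : ℝ) • T := by
      rw [neg_one_smul, sub_eq_add_neg]
    rw [h2, ipM_add_left, ipM_smul_left]
    ring
  rw [h1, ipM_comm hH S (S - T), ipM_comm hH T (S - T), h1, h1, ipM_comm hH T S]
  ring

theorem trM_sub (S S' : Matrix (Fin n) (Fin n) ℝ) : trM H (S - S') = trM H S - trM H S' := by
  simp only [trM, Matrix.sub_apply, mul_sub, Finset.sum_sub_distrib]

theorem ipM_metric (hH : ∀ i j, H i j = H j i) (hd : H.det ≠ 0) (S : Matrix (Fin n) (Fin n) ℝ) :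
    ipM H H S = trM H S := by
  have hu : IsUnit H.det := isUnit_iff_ne_zero.2 hd
  have h0 : H⁻¹ * H = 1 := Matrix.nonsing_inv_mul H hu
  rw [ipM_comm hH]
  unfold ipM trM
  refine Finset.sum_congr rfl fun i _ => Finset.sum_congr rfl fun j _ => ?_
  have h1 : ∀ b : Fin n, (∑ a, H⁻¹ i a * H a b) = (1 : Matrix (Fin n) (Fin n) ℝ) i b := by
    intro b
    rw [← h0, Matrix.mul_apply]
  rw [Finset.sum_comm]
  have h2 : ∀ b : Fin n, (∑ a, H⁻¹ i a * H⁻¹ j b * (S i j * H a b)) =
      (1 : Matrix (Fin n) (Fin n) ℝ) i b * (H⁻¹ j b * S i j) := by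
    intro b
    rw [← h1 b, Finset.sum_mul]
    refine Finset.sum_congr rfl fun a _ => ?_
    ring
  rw [Finset.sum_congr rfl fun b _ => h2 b]
  rw [Finset.sum_eq_single i]
  · rw [Matrix.one_apply_eq, A3_inv_symm hH j i]
    ring
  · intro b _ hb
    rw [Matrix.one_apply_ne (Ne.symm hb), zero_mul]
  · intro h
    exact absurd (Finset.mem_univ i) h

theorem trM_one (S : Matrix (Fin n) (Fin n) ℝ) : trM 1 S = ∑ i, S i i := by
  unfold trM
  refine Finset.sum_congr rfl fun i _ => ?_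
  rw [inv_one, Finset.sum_eq_single i]
  · rw [Matrix.one_apply_eq, one_mul]
  · intro b _ hb
    rw [Matrix.one_apply_ne (Ne.symm hb), zero_mul]
  · intro h
    exact absurd (Finset.mem_univ i) h

theorem ipM_one (S T : Matrix (Fin n) (Fin n) ℝ) : ipM 1 S T = ∑ i, ∑ j, S i j * T i j := by
  unfold ipM
  refine Finset.sum_congr rfl fun i _ => Finset.sum_congr rfl fun j _ => ?_
  rw [inv_one, Finset.sum_eq_single i]
  · rw [Finset.sum_eq_single j]
    · rw [Matrix.one_apply_eq, Matrix.one_apply_eq, one_mul, one_mul]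
    · intro b _ hb
      rw [Matrix.one_apply_ne (Ne.symm hb), mul_zero, zero_mul]
    · intro h
      exact absurd (Finset.mem_univ j) h
  · intro a _ ha
    refine Finset.sum_eq_zero fun b _ => ?_
    rw [Matrix.one_apply_ne (Ne.symm ha), zero_mul, zero_mul]
  · intro h
    exact absurd (Finset.mem_univ i) h

end Pool.Agent.Lib.MP_df705a_gt.Coll.T
end
end

section

/-!
# Module T, N5: derivatives of the gradient product in normal coordinates
-/

open scoped Manifold ContDiff Topology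
open Set Bundle Module Filter MeasureTheory

noncomputable section

set_option linter.unusedSectionVars false

namespace Pool.Agent.Lib.MP_df705a_gt.Coll.T

open Pool.Agent.Lib.MP_df705a_gt.Twist Pool.Agent.Lib.MP_df705a_gt.Perm
open Pool.Agent.Lib.MP_df705a_gt.Circ (cf Para)

variable {E : Type*} [NormedAddCommGroup E] [NormedSpace ℝ E] [FiniteDimensional ℝ E]
  {h : Curv.Coeff E} {x : E}


private theorem N5_inv (N : Nrm h x) (i j : Fin (finrank ℝ E)) :
    ContDiffAt ℝ ∞ (fun y => (h y)⁻¹ i j) x :=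
  Twist.contDiffAt_inv N.rm.self.1 N.rm.det i j

private theorem N5_prod {u v : E → ℝ} (hu : ContDiffAt ℝ ∞ u x)
    (hv : ContDiffAt ℝ ∞ v x) (i j : Fin (finrank ℝ E)) :
    ContDiffAt ℝ ∞ (fun y => Curv.pd i u y * Curv.pd j v y) x :=
  (G4.pd_contDiffAt hu i).mul (G4.pd_contDiffAt hv j)

private theorem N5_one (N : Nrm h x) (i j : Fin (finrank ℝ E)) :
    (h x)⁻¹ i j = if i = j then 1 else 0 := by
  rw [N.inv, Matrix.one_apply]

private theorem N5_gradC (u v : E → ℝ) : Twist.gradC h u v =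
    fun y => ∑ i, ∑ j, (h y)⁻¹ i j * (Curv.pd i u y * Curv.pd j v y) := rfl

theorem Nrm.pd_gradC (N : Nrm h x) {u v : E → ℝ} (hu : ContDiffAt ℝ ∞ u x)
    (hv : ContDiffAt ℝ ∞ v x) (k : Fin (finrank ℝ E)) :
    Curv.pd k (Twist.gradC h u v) x =
      ∑ i, (Curv.pd k (Curv.pd i u) x * Curv.pd i v x +
        Curv.pd i u x * Curv.pd k (Curv.pd i v) x) := by
  have h1 : ∀ i j, DifferentiableAt ℝ
      (fun y => (h y)⁻¹ i j * (Curv.pd i u y * Curv.pd j v y)) x := fun i j =>
    G4.diff_of ((N5_inv N i j).mul (N5_prod hu hv i j))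
  rw [N5_gradC, pd_sum _ (fun i _ => DifferentiableAt.fun_sum fun j _ => h1 i j)]
  refine Finset.sum_congr rfl fun i _ => ?_
  rw [pd_sum _ (fun j _ => h1 i j)]
  have h2 : ∀ j, Curv.pd k (fun y => (h y)⁻¹ i j * (Curv.pd i u y * Curv.pd j v y)) x =
      if i = j then Curv.pd k (fun y => Curv.pd i u y * Curv.pd j v y) x else 0 := by
    intro j
    rw [G4.pd_mul (G4.diff_of (N5_inv N i j)) (G4.diff_of (N5_prod hu hv i j)), N.pd_inv,
      N5_one N, mul_zero, add_zero]
    split_ifs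
    · rw [one_mul]
    · rw [zero_mul]
  simp only [h2, Finset.sum_ite_eq, Finset.mem_univ, if_true]
  rw [G4.pd_mul (G4.diff_of (G4.pd_contDiffAt hu i)) (G4.diff_of (G4.pd_contDiffAt hv i))]
  ring

/-- `gradC h u v y = ∑ i j, (h y)⁻¹ i j * (∂_i u * ∂_j v)`; `pd2_sum`, `pd2_mul`, `Nrm.inv`,
`Nrm.pd_inv`, `Nrm.pd2_inv`. -/
theorem Nrm.lap_gradC (N : Nrm h x) {u v : E → ℝ} (hu : ContDiffAt ℝ ∞ u x)
    (hv : ContDiffAt ℝ ∞ v x) :
    Twist.lapC h (Twist.gradC h u v) x =
      ∑ k, ∑ i, (Curv.pd k (Curv.pd k (Curv.pd i u)) x * Curv.pd i v x +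
        2 * (Curv.pd k (Curv.pd i u) x * Curv.pd k (Curv.pd i v) x) +
        Curv.pd i u x * Curv.pd k (Curv.pd k (Curv.pd i v)) x) -
      ∑ k, ∑ i, ∑ j, Curv.pd k (Curv.pd k (fun y => h y i j)) x *
        (Curv.pd i u x * Curv.pd j v x) := by
  have h1 : ∀ i j, ContDiffAt ℝ ∞
      (fun y => (h y)⁻¹ i j * (Curv.pd i u y * Curv.pd j v y)) x := fun i j =>
    (N5_inv N i j).mul (N5_prod hu hv i j)
  rw [N.lapC, ← Finset.sum_sub_distrib]
  refine Finset.sum_congr rfl fun k _ => ?_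
  rw [N5_gradC, pd2_sum _ (fun i _ => ContDiffAt.sum fun j _ => h1 i j),
    ← Finset.sum_sub_distrib]
  refine Finset.sum_congr rfl fun i _ => ?_
  rw [pd2_sum _ (fun j _ => h1 i j)]
  have h2 : ∀ j, Curv.pd k (Curv.pd k
      (fun y => (h y)⁻¹ i j * (Curv.pd i u y * Curv.pd j v y))) x =
      (if i = j then Curv.pd k (Curv.pd k (fun y => Curv.pd i u y * Curv.pd j v y)) x else 0) -
      Curv.pd k (Curv.pd k (fun y => h y i j)) x * (Curv.pd i u x * Curv.pd j v x) := by
    intro j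
    rw [pd2_mul (N5_inv N i j) (N5_prod hu hv i j), N.pd_inv, N.pd2_inv, N5_one N]
    split_ifs
    · ring
    · ring
  simp only [h2, Finset.sum_sub_distrib, Finset.sum_ite_eq, Finset.mem_univ, if_true]
  rw [pd2_mul (G4.pd_contDiffAt hu i) (G4.pd_contDiffAt hv i)]
  ring

end Pool.Agent.Lib.MP_df705a_gt.Coll.T
end
end

section

/-!
# Module T, N6: derivative of the Laplacian in normal coordinates
-/

open scoped Manifold ContDiff Topology
open Set Bundle Module Filter MeasureTheory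

noncomputable section

set_option linter.unusedSectionVars false

namespace Pool.Agent.Lib.MP_df705a_gt.Coll.T

open Pool.Agent.Lib.MP_df705a_gt.Twist Pool.Agent.Lib.MP_df705a_gt.Perm
open Pool.Agent.Lib.MP_df705a_gt.Circ (cf Para)

variable {E : Type*} [NormedAddCommGroup E] [NormedSpace ℝ E] [FiniteDimensional ℝ E]
  {h : Curv.Coeff E} {x : E}


private theorem N6_inv (N : Nrm h x) (i j : Fin (finrank ℝ E)) :
    ContDiffAt ℝ ∞ (fun y => (h y)⁻¹ i j) x :=
  Twist.contDiffAt_inv N.rm.self.1 N.rm.det i j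

private theorem N6_chr (N : Nrm h x) (i j k : Fin (finrank ℝ E)) :
    ContDiffAt ℝ ∞ (Curv.christoffel h i j k) x := by
  have h1 := N.rm.self.1
  exact (((G4.pd_contDiffAt (h1 j k) i).add (G4.pd_contDiffAt (h1 i k) j)).sub
    (G4.pd_contDiffAt (h1 i j) k)).div_const 2

private theorem N6_one (N : Nrm h x) (i j : Fin (finrank ℝ E)) :
    (h x)⁻¹ i j = if i = j then 1 else 0 := by
  rw [N.inv, Matrix.one_apply]

private theorem N6_lapC (u : E → ℝ) : Twist.lapC h u =
    fun y => ∑ i, ∑ j, (h y)⁻¹ i j * (Curv.pd i (Curv.pd j u) y -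
      ∑ p, ∑ q, (h y)⁻¹ p q * Curv.christoffel h i j p y * Curv.pd q u y) := rfl

/-- `lapC h u y = ∑ i j, (h y)⁻¹ i j * (∂_i ∂_j u - ∑ p q, (h y)⁻¹ p q * [ij, p] * ∂_q u)`; the
derivative of `(h y)⁻¹` and the Christoffel symbols vanish at `x`. -/
theorem Nrm.pd_lapC (N : Nrm h x) {u : E → ℝ} (hu : ContDiffAt ℝ ∞ u x)
    (k : Fin (finrank ℝ E)) :
    Curv.pd k (Twist.lapC h u) x =
      ∑ i, (Curv.pd k (Curv.pd i (Curv.pd i u)) x -
        ∑ p, Curv.pd k (Curv.christoffel h i i p) x * Curv.pd p u x) := by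
  have h0 : ∀ i j p q, ContDiffAt ℝ ∞
      (fun y => (h y)⁻¹ p q * Curv.christoffel h i j p y * Curv.pd q u y) x := fun i j p q =>
    ((N6_inv N p q).mul (N6_chr N i j p)).mul (G4.pd_contDiffAt hu q)
  have h0' : ∀ i j, ContDiffAt ℝ ∞ (fun y => ∑ p, ∑ q,
      (h y)⁻¹ p q * Curv.christoffel h i j p y * Curv.pd q u y) x := fun i j =>
    ContDiffAt.sum fun p _ => ContDiffAt.sum fun q _ => h0 i j p q
  have h1' : ∀ i j, ContDiffAt ℝ ∞ (Curv.pd i (Curv.pd j u)) x := fun i j =>
    G4.pd_contDiffAt (G4.pd_contDiffAt hu j) i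
  have h1 : ∀ i j, ContDiffAt ℝ ∞ (fun y => Curv.pd i (Curv.pd j u) y -
      ∑ p, ∑ q, (h y)⁻¹ p q * Curv.christoffel h i j p y * Curv.pd q u y) x := fun i j =>
    (h1' i j).sub (h0' i j)
  have h2 : ∀ i j, DifferentiableAt ℝ (fun y => (h y)⁻¹ i j * (Curv.pd i (Curv.pd j u) y -
      ∑ p, ∑ q, (h y)⁻¹ p q * Curv.christoffel h i j p y * Curv.pd q u y)) x := fun i j =>
    G4.diff_of ((N6_inv N i j).mul (h1 i j))
  rw [N6_lapC, pd_sum _ (fun i _ => DifferentiableAt.fun_sum fun j _ => h2 i j)]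
  refine Finset.sum_congr rfl fun i _ => ?_
  rw [pd_sum _ (fun j _ => h2 i j)]
  have h3 : ∀ j, Curv.pd k (fun y => (h y)⁻¹ i j * (Curv.pd i (Curv.pd j u) y -
      ∑ p, ∑ q, (h y)⁻¹ p q * Curv.christoffel h i j p y * Curv.pd q u y)) x =
      if i = j then Curv.pd k (fun y => Curv.pd i (Curv.pd j u) y -
      ∑ p, ∑ q, (h y)⁻¹ p q * Curv.christoffel h i j p y * Curv.pd q u y) x else 0 := by
    intro j
    rw [G4.pd_mul (G4.diff_of (N6_inv N i j)) (G4.diff_of (h1 i j)), N.pd_inv, N6_one N]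
    split_ifs
    · ring
    · ring
  simp only [h3, Finset.sum_ite_eq, Finset.mem_univ, if_true]
  rw [G4.pd_sub (G4.diff_of (h1' i i)) (G4.diff_of (h0' i i)),
    pd_sum _ (fun p _ => DifferentiableAt.fun_sum fun q _ => G4.diff_of (h0 i i p q))]
  congr 1
  refine Finset.sum_congr rfl fun p _ => ?_
  rw [pd_sum _ (fun q _ => G4.diff_of (h0 i i p q))]
  have h4 : ∀ q, Curv.pd k
      (fun y => (h y)⁻¹ p q * Curv.christoffel h i i p y * Curv.pd q u y) x =
      if p = q then Curv.pd k (Curv.christoffel h i i p) x * Curv.pd q u x else 0 := by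
    intro q
    rw [G4.pd_mul (G4.diff_of ((N6_inv N p q).mul (N6_chr N i i p)))
      (G4.diff_of (G4.pd_contDiffAt hu q)),
      G4.pd_mul (G4.diff_of (N6_inv N p q)) (G4.diff_of (N6_chr N i i p)), N.pd_inv,
      N.christoffel, N6_one N]
    split_ifs
    · ring
    · ring
  simp only [h4, Finset.sum_ite_eq, Finset.mem_univ, if_true]

end Pool.Agent.Lib.MP_df705a_gt.Coll.T
end
end

section

/-!
# Module T, A2: Cauchy-Schwarz for the trace
-/

open scoped Manifold ContDiff Topology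
open Set Bundle Module Filter MeasureTheory

noncomputable section

set_option linter.unusedSectionVars false

namespace Pool.Agent.Lib.MP_df705a_gt.Coll.T

open Pool.Agent.Lib.MP_df705a_gt.Twist Pool.Agent.Lib.MP_df705a_gt.Perm
open Pool.Agent.Lib.MP_df705a_gt.Circ (cf Para)

open scoped MatrixOrder in
private theorem A2_factor {n : ℕ} {H : Matrix (Fin n) (Fin n) ℝ} (hH : H.PosDef) :
    ∃ B : Matrix (Fin n) (Fin n) ℝ, B.det ≠ 0 ∧ H = B.transpose * 1 * B := by
  obtain ⟨B, hB⟩ := CStarAlgebra.nonneg_iff_eq_star_mul_self.mp hH.posSemidef.nonneg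
  have h1 : H = B.transpose * B := by
    rw [hB, Matrix.star_eq_conjTranspose]
    congr 1
  refine ⟨B, ?_, by rw [Matrix.mul_one]; exact h1⟩
  intro h0
  have h2 := hH.det_pos
  rw [h1, Matrix.det_mul, h0, mul_zero] at h2
  exact lt_irrefl _ h2

private theorem A2_change {n : ℕ} {B : Matrix (Fin n) (Fin n) ℝ} (hB : B.det ≠ 0)
    (S : Matrix (Fin n) (Fin n) ℝ) :
    ∃ S' : Matrix (Fin n) (Fin n) ℝ, S = B.transpose * S' * B := by
  have hu : IsUnit B.det := isUnit_iff_ne_zero.2 hB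
  have hut : IsUnit B.transpose.det := by rw [Matrix.det_transpose]; exact hu
  refine ⟨(B.transpose)⁻¹ * S * B⁻¹, ?_⟩
  calc S = (B.transpose * (B.transpose)⁻¹) * S * (B⁻¹ * B) := by
        rw [Matrix.mul_nonsing_inv _ hut, Matrix.nonsing_inv_mul _ hu, Matrix.one_mul,
          Matrix.mul_one]
    _ = B.transpose * ((B.transpose)⁻¹ * S * B⁻¹) * B := by
        simp only [Matrix.mul_assoc]

/-- Write `H = Bᵀ * B` with `B` invertible (`H` positive definite); by `ipM_conj` (with `A = B`)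
`ipM H S S = ipM 1 S' S' = ∑ (S' i j)^2` where `S = Bᵀ * S' * B`. -/
theorem ipM_self_nonneg {n : ℕ} {H : Matrix (Fin n) (Fin n) ℝ} (hH : H.PosDef)
    (S : Matrix (Fin n) (Fin n) ℝ) : 0 ≤ ipM H S S := by
  obtain ⟨B, hB, h1⟩ := A2_factor hH
  obtain ⟨S', h2⟩ := A2_change hB S
  rw [h1, h2, ipM_conj hB, ipM_one]
  exact Finset.sum_nonneg fun i _ => Finset.sum_nonneg fun j _ => mul_self_nonneg _

/-- Same reduction: `(∑ i, S' i i)^2 ≤ n * ∑ i, (S' i i)^2 ≤ n * ∑ i j, (S' i j)^2`; or expand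
`0 ≤ ipM H S₀ S₀` for `S₀ = n • S - trM H S • H`. -/
theorem sq_trM_le {n : ℕ} {H : Matrix (Fin n) (Fin n) ℝ} (hH : H.PosDef)
    (S : Matrix (Fin n) (Fin n) ℝ) : trM H S ^ 2 ≤ n * ipM H S S := by
  obtain ⟨B, hB, h1⟩ := A2_factor hH
  obtain ⟨S', h2⟩ := A2_change hB S
  rw [h1, h2, ipM_conj hB, trM_conj hB, ipM_one, trM_one]
  have h3 := sq_sum_le_card_mul_sum_sq (s := (Finset.univ : Finset (Fin n)))
    (f := fun i => S' i i)
  rw [Finset.card_univ, Fintype.card_fin] at h3
  refine h3.trans (mul_le_mul_of_nonneg_left ?_ (Nat.cast_nonneg n))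
  refine Finset.sum_le_sum fun i _ => ?_
  rw [pow_two]
  exact Finset.single_le_sum (f := fun j => S' i j * S' i j)
    (fun j _ => mul_self_nonneg _) (Finset.mem_univ i)

end Pool.Agent.Lib.MP_df705a_gt.Coll.T
end
end

section

/-!
# Ricci pinching, part A, AR4a: the inequality of Riccati
-/

open scoped Manifold ContDiff Topology
open Set Bundle Module Filter MeasureTheory

noncomputable section

set_option linter.unusedSectionVars false

namespace Pool.Agent.Lib.MP_df705a_gt.Pin.A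

open Pool.Agent.Lib.MP_df705a_gt.Twist Pool.Agent.Lib.MP_df705a_gt.Perm
open Pool.Agent.Lib.MP_df705a_gt.Coll (trM ipM)
open Pool.Agent.Lib.MP_df705a_gt.Coll.T (ddC mat pull RM SmF)

variable {E : Type*} [NormedAddCommGroup E] [NormedSpace ℝ E] [FiniteDimensional ℝ E]
  {h : Curv.Coeff E}

variable {Ex : E → E → E}

/-- Let `H` be positive definite, `S, D` matrices with `ipM H S D = 0`, `ipM H D S = 0`,
`ipM H D D = 1`, `trM H D = 1`. Then `(tr S)² ≤ (n - 1) |S|²`.
Proof: for `n = 1` all matrices are multiples of `D`, so `S = 0` (`ipM H S D = 0`). For `n ≥ 2` apply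
`sq_trM_le` (Coll/T/A2.lean) to `S + μ • D` with `μ = tr S / (n - 1)`: `(tr S + μ) ^ 2 ≤
n (|S|² + μ²)` (bilinearity: `ipM_add_left`, `ipM_smul_left`, `ipM_comm` of Coll/T/A3.lean), that is
`(tr S)² n² / (n - 1)² ≤ n |S|² + n (tr S)² / (n - 1)²`. (For `n = 1` one can also use
`sq_trM_le` for `S + μ • D` with all `μ`.) -/
theorem sq_trM_le_of_kernel {n : ℕ} (hn : 0 < n) {H S D : Matrix (Fin n) (Fin n) ℝ} (hH : H.PosDef)
    (h1 : ipM H S D = 0) (h2 : ipM H D S = 0) (h3 : ipM H D D = 1) (h4 : trM H D = 1) :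
    trM H S ^ 2 ≤ ((n : ℝ) - 1) * ipM H S S := by
  have hsym : ∀ i j, H i j = H j i := by
    intro i j
    have h5 := hH.1.apply i j
    simpa using h5.symm
  have hn0 : (0 : ℝ) < n := by exact_mod_cast hn
  have key : ∀ μ : ℝ, 0 ≤ ((n : ℝ) - 1) * (μ * μ) + (-2 * trM H S) * μ +
      (n * ipM H S S - trM H S ^ 2) := by
    intro μ
    have h5 := Coll.T.sq_trM_le hH (S + μ • D)
    have h6 : trM H (S + μ • D) = trM H S + μ := by
      rw [Coll.T.trM_add, Coll.T.trM_smul, h4, mul_one]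
    have h7 : ipM H S (S + μ • D) = ipM H S S := by
      rw [Coll.T.ipM_comm hsym, Coll.T.ipM_add_left, Coll.T.ipM_smul_left, h2, mul_zero, add_zero]
    have h8 : ipM H D (S + μ • D) = μ := by
      rw [Coll.T.ipM_comm hsym, Coll.T.ipM_add_left, Coll.T.ipM_smul_left, h1, h3, mul_one, zero_add]
    have h9 : ipM H (S + μ • D) (S + μ • D) = ipM H S S + μ * μ := by
      rw [Coll.T.ipM_add_left, Coll.T.ipM_smul_left, h7, h8]
    rw [h6, h9] at h5
    nlinarith
  have hd := discrim_le_zero key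
  unfold discrim at hd
  have h10 : (n : ℝ) * trM H S ^ 2 ≤ n * (((n : ℝ) - 1) * ipM H S S) := by nlinarith
  exact le_of_mul_le_mul_left h10 hn0

end Pool.Agent.Lib.MP_df705a_gt.Pin.A
end
end
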