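import Pool.Agent.Lib.MP_df705a_gt.Mg.G063
import Pool.Agent.Lib.MP_df705a_gt.Mg.G061
import Pool.Agent.Lib.MP_df705a_gt.Pin.AE2

section

/-!
# Module T, N7: the formula of Bochner in normal coordinates
-/

open scoped Manifold ContDiff Topology
open Set Bundle Module Filter MeasureTheory

noncomputable section

set_option linter.unusedSectionVars false

namespace Pool.Agent.Lib.MP_df705a_gt.Coll.T

open Pool.Agent.Lib.MP_df705a_gt.Twist Pool.Agent.Lib.MP_df705a_gt.Perm
open Pool.Agent.Lib.MP_df705a_gt.Circ (cf Para)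

variable {E : Type*} [NormedAddCommGroup E] [NormedSpace ℝ E] [FiniteDimensional ℝ E]
  {h : Curv.Coeff E} {x : E}


private theorem N7_alg {n : ℕ} (U V : Fin n → ℝ) (U2 V2 TU TV LU LV : Fin n → Fin n → ℝ)
    (H : Fin n → Fin n → Fin n → Fin n → ℝ) (h1 : ∀ i j a b, H i j a b = H j i a b)
    (h2 : ∀ i j a b, H i j a b = H i j b a) (hU : ∀ k i, LU k i = TU i k)
    (hV : ∀ k i, LV k i = TV i k) :
    ∑ i, ∑ j, U2 i j * V2 i j =
      (1 / 2) * (∑ k, ∑ i, (LU k i * V i + 2 * (U2 k i * V2 k i) + U i * LV k i) -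
        ∑ k, ∑ i, ∑ j, H k k i j * (U i * V j)) -
      (1 / 2) * ∑ k, U k * (∑ i, (TV k i -
        ∑ p, (H k i i p + H k i i p - H k p i i) / 2 * V p)) -
      (1 / 2) * ∑ k, V k * (∑ i, (TU k i -
        ∑ p, (H k i i p + H k i i p - H k p i i) / 2 * U p)) -
      ∑ j, ∑ k, (∑ i, (H i k j i - H i i j k - H j k i i + H j i i k) / 2) *
        ((U j * V k + U k * V j) / 2) := by
  have e1 : ∑ k, ∑ i, (LU k i * V i + 2 * (U2 k i * V2 k i) + U i * LV k i) =
      ∑ k, V k * ∑ i, TU k i + 2 * ∑ i, ∑ j, U2 i j * V2 i j + ∑ k, U k * ∑ i, TV k i := by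
    simp only [Finset.sum_add_distrib, Finset.mul_sum, hU, hV]
    congr 1
    · congr 1
      rw [Finset.sum_comm]
      exact Finset.sum_congr rfl fun k _ => Finset.sum_congr rfl fun i _ => mul_comm _ _
    · exact Finset.sum_comm
  have e2 : ∑ k, ∑ i, ∑ j, H k k i j * (U i * V j) =
      ∑ a, ∑ b, ∑ i, H i i a b * (U a * V b) := by
    rw [Finset.sum_comm]
    exact Finset.sum_congr rfl fun a _ => Finset.sum_comm
  have e3 : ∑ k, U k * (∑ i, (TV k i - ∑ p, (H k i i p + H k i i p - H k p i i) / 2 * V p)) =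
      ∑ k, U k * ∑ i, TV k i -
        ∑ a, ∑ b, ∑ i, (H a i i b + H a i i b - H a b i i) / 2 * (U a * V b) := by
    rw [← Finset.sum_sub_distrib]
    refine Finset.sum_congr rfl fun k _ => ?_
    rw [Finset.sum_sub_distrib, mul_sub]
    congr 1
    rw [Finset.sum_comm, Finset.mul_sum]
    refine Finset.sum_congr rfl fun b _ => ?_
    rw [Finset.mul_sum]
    exact Finset.sum_congr rfl fun i _ => by ring
  have e4 : ∑ k, V k * (∑ i, (TU k i - ∑ p, (H k i i p + H k i i p - H k p i i) / 2 * U p)) =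
      ∑ k, V k * ∑ i, TU k i -
        ∑ a, ∑ b, ∑ i, (H b i i a + H b i i a - H b a i i) / 2 * (U a * V b) := by
    rw [Finset.sum_comm (f := fun a b => ∑ i, (H b i i a + H b i i a - H b a i i) / 2 *
      (U a * V b)), ← Finset.sum_sub_distrib]
    refine Finset.sum_congr rfl fun k _ => ?_
    rw [Finset.sum_sub_distrib, mul_sub]
    congr 1
    rw [Finset.sum_comm, Finset.mul_sum]
    refine Finset.sum_congr rfl fun b _ => ?_
    rw [Finset.mul_sum]
    exact Finset.sum_congr rfl fun i _ => by ring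
  have e5 : ∑ j, ∑ k, (∑ i, (H i k j i - H i i j k - H j k i i + H j i i k) / 2) *
      ((U j * V k + U k * V j) / 2) =
      ∑ a, ∑ b, ∑ i, ((H i b a i - H i i a b - H a b i i + H a i i b) / 2 +
        (H i a b i - H i i b a - H b a i i + H b i i a) / 2) / 2 * (U a * V b) := by
    have f1 : ∑ j, ∑ k, (∑ i, (H i k j i - H i i j k - H j k i i + H j i i k) / 2) *
        ((U j * V k + U k * V j) / 2) =
        ∑ j, ∑ k, (∑ i, (H i k j i - H i i j k - H j k i i + H j i i k) / 2) * (U j * V k / 2) +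
        ∑ j, ∑ k, (∑ i, (H i k j i - H i i j k - H j k i i + H j i i k) / 2) *
          (U k * V j / 2) := by
      rw [← Finset.sum_add_distrib]
      refine Finset.sum_congr rfl fun j _ => ?_
      rw [← Finset.sum_add_distrib]
      exact Finset.sum_congr rfl fun k _ => by ring
    rw [f1, Finset.sum_comm (f := fun j k =>
      (∑ i, (H i k j i - H i i j k - H j k i i + H j i i k) / 2) * (U k * V j / 2)),
      ← Finset.sum_add_distrib]
    refine Finset.sum_congr rfl fun a _ => ?_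
    rw [← Finset.sum_add_distrib]
    refine Finset.sum_congr rfl fun b _ => ?_
    rw [Finset.sum_mul, Finset.sum_mul, ← Finset.sum_add_distrib]
    exact Finset.sum_congr rfl fun i _ => by ring
  have e6 : (1 / 2) * ∑ a, ∑ b, ∑ i, H i i a b * (U a * V b) -
      (1 / 2) * ∑ a, ∑ b, ∑ i, (H a i i b + H a i i b - H a b i i) / 2 * (U a * V b) -
      (1 / 2) * ∑ a, ∑ b, ∑ i, (H b i i a + H b i i a - H b a i i) / 2 * (U a * V b) +
      ∑ a, ∑ b, ∑ i, ((H i b a i - H i i a b - H a b i i + H a i i b) / 2 +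
        (H i a b i - H i i b a - H b a i i + H b i i a) / 2) / 2 * (U a * V b) = 0 := by
    simp only [Finset.mul_sum, ← Finset.sum_sub_distrib, ← Finset.sum_add_distrib]
    refine Finset.sum_eq_zero fun a _ => Finset.sum_eq_zero fun b _ =>
      Finset.sum_eq_zero fun i _ => ?_
    rw [h1 i b a i, h2 b i a i, h1 i a b i, h2 a i b i, h2 i i b a, h1 b a i i]
    ring
  rw [e1, e2, e3, e4, e5]
  linear_combination e6

/-- Insert `Nrm.covHess`, `ipM_one`, `Nrm.lap_gradC`, `Nrm.gradC`, `Nrm.pd_lapC`,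
`Nrm.pd_christoffel`, `Nrm.ric`, `Nrm.riemann`: the third derivatives cancel (`pd3_comm`, `pd_comm`)
and the coefficient of `∂_k u ∂_p v` is `(1/2) ∑ i, (∂_i∂_k h_ip + ∂_i∂_p h_ik - ∂_p∂_k h_ii - ∂_i∂_i h_kp)`
on both sides. -/
theorem Nrm.bochner (N : Nrm h x) {u v : E → ℝ} (hu : ContDiffAt ℝ ∞ u x)
    (hv : ContDiffAt ℝ ∞ v x) :
    ipM (h x) (Curv.covHess h u x) (Curv.covHess h v x) =
      (1 / 2) * Twist.lapC h (Twist.gradC h u v) x -
      (1 / 2) * Twist.gradC h u (Twist.lapC h v) x -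
      (1 / 2) * Twist.gradC h v (Twist.lapC h u) x -
      ipM (h x) (Coll.ric h x) (ddC u v x) := by
  have hsymm : ∀ i j a b, Curv.pd i (Curv.pd j (fun y => h y a b)) x =
      Curv.pd i (Curv.pd j (fun y => h y b a)) x := by
    intro i j a b
    have h1 : (fun y => h y a b) =ᶠ[𝓝 x] (fun y => h y b a) := by
      filter_upwards [N.rm.nhds] with y hy
      exact hy.symm a b
    have h2 : Curv.pd j (fun y => h y a b) =ᶠ[𝓝 x] Curv.pd j (fun y => h y b a) := by
      filter_upwards [h1.eventuallyEq_nhds] with y hy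
      exact G4.pd_congr hy j
    exact G4.pd_congr h2 i
  have hcomm : ∀ i j a b, Curv.pd i (Curv.pd j (fun y => h y a b)) x =
      Curv.pd j (Curv.pd i (fun y => h y a b)) x := fun i j a b =>
    pd_comm (N.rm.self.1 a b) i j
  have h3 : ∀ {w : E → ℝ}, ContDiffAt ℝ ∞ w x → ∀ k i,
      Curv.pd k (Curv.pd k (Curv.pd i w)) x = Curv.pd i (Curv.pd k (Curv.pd k w)) x := by
    intro w hw k i
    rw [pd3_comm hw k k i, pd_comm (G4.pd_contDiffAt hw k) k i]
  have key := N7_alg (fun i => Curv.pd i u x) (fun i => Curv.pd i v x)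
    (fun i j => Curv.pd i (Curv.pd j u) x) (fun i j => Curv.pd i (Curv.pd j v) x)
    (fun k i => Curv.pd k (Curv.pd i (Curv.pd i u)) x)
    (fun k i => Curv.pd k (Curv.pd i (Curv.pd i v)) x)
    (fun k i => Curv.pd k (Curv.pd k (Curv.pd i u)) x)
    (fun k i => Curv.pd k (Curv.pd k (Curv.pd i v)) x)
    (fun i j a b => Curv.pd i (Curv.pd j (fun y => h y a b)) x) hcomm hsymm
    (h3 hu) (h3 hv)
  rw [N.one, ipM_one, ipM_one, N.gradC, N.gradC, N.lap_gradC hu hv]
  simp only [N.covHess, N.pd_lapC hu, N.pd_lapC hv, N.pd_christoffel, N.ric, N.riemann, ddC]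
  exact key

end Pool.Agent.Lib.MP_df705a_gt.Coll.T
end
end

section

/-!
# Module T, N8: the Hessian and gradients in normal coordinates
-/

open scoped Manifold ContDiff Topology
open Set Bundle Module Filter MeasureTheory

noncomputable section

set_option linter.unusedSectionVars false

namespace Pool.Agent.Lib.MP_df705a_gt.Coll.T

open Pool.Agent.Lib.MP_df705a_gt.Twist Pool.Agent.Lib.MP_df705a_gt.Perm
open Pool.Agent.Lib.MP_df705a_gt.Circ (cf Para)

variable {E : Type*} [NormedAddCommGroup E] [NormedSpace ℝ E] [FiniteDimensional ℝ E]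
  {h : Curv.Coeff E} {x : E}


theorem Nrm.hess_grd (N : Nrm h x) {φ u v : E → ℝ} (hφ : ContDiffAt ℝ ∞ φ x)
    (hu : ContDiffAt ℝ ∞ u x) (hv : ContDiffAt ℝ ∞ v x) :
    ipM (h x) (Curv.covHess h φ x) (ddC u v x) =
      (1 / 2) * (Twist.gradC h u (Twist.gradC h φ v) x + Twist.gradC h v (Twist.gradC h φ u) x -
        Twist.gradC h φ (Twist.gradC h u v) x) := by
  rw [N.one, ipM_one, N.gradC, N.gradC, N.gradC]
  simp only [N.pd_gradC hφ hv, N.pd_gradC hφ hu, N.pd_gradC hu hv, N.covHess, ddC,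
    Finset.mul_sum]
  have h1 : ∑ k, ∑ i, Curv.pd k φ x * (Curv.pd k (Curv.pd i u) x * Curv.pd i v x +
      Curv.pd i u x * Curv.pd k (Curv.pd i v) x) =
      ∑ k, ∑ i, Curv.pd i φ x * (Curv.pd k (Curv.pd i u) x * Curv.pd k v x +
      Curv.pd k u x * Curv.pd k (Curv.pd i v) x) := by
    rw [Finset.sum_comm]
    refine Finset.sum_congr rfl fun k _ => Finset.sum_congr rfl fun i _ => ?_
    rw [pd_comm hu i k, pd_comm hv i k]
  rw [h1, ← Finset.sum_add_distrib, ← Finset.sum_sub_distrib, Finset.mul_sum]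
  have h2 : ∑ k, ∑ i, Curv.pd k (Curv.pd i φ) x *
      ((Curv.pd k u x * Curv.pd i v x + Curv.pd i u x * Curv.pd k v x) / 2) =
      ∑ k, ∑ i, (1 / 2) * (Curv.pd k u x * (Curv.pd k (Curv.pd i φ) x * Curv.pd i v x) +
        Curv.pd k v x * (Curv.pd k (Curv.pd i φ) x * Curv.pd i u x)) :=
    Finset.sum_congr rfl fun k _ => Finset.sum_congr rfl fun i _ => by ring
  rw [h2]
  refine Finset.sum_congr rfl fun k _ => ?_
  rw [← Finset.sum_add_distrib, ← Finset.sum_sub_distrib, Finset.mul_sum]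
  refine Finset.sum_congr rfl fun i _ => ?_
  ring

end Pool.Agent.Lib.MP_df705a_gt.Coll.T
end
end

section

/-!
# Ricci pinching, part A, AR1a: the metric in exponential coordinates
-/

open scoped Manifold ContDiff Topology
open Set Bundle Module Filter MeasureTheory

noncomputable section

set_option linter.unusedSectionVars false

namespace Pool.Agent.Lib.MP_df705a_gt.Pin.A

open Pool.Agent.Lib.MP_df705a_gt.Twist Pool.Agent.Lib.MP_df705a_gt.Perm
open Pool.Agent.Lib.MP_df705a_gt.Coll (trM ipM)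
open Pool.Agent.Lib.MP_df705a_gt.Coll.T (ddC mat pull RM SmF)

variable {E : Type*} [NormedAddCommGroup E] [NormedSpace ℝ E] [FiniteDimensional ℝ E]
  {h : Curv.Coeff E}

variable {Ex : E → E → E}

namespace AR1aAux

theorem ip_eq (h : Curv.Coeff E) (x u v : E) :
    Curv.ip h x u v = ((finBasis ℝ E).repr u : Fin (finrank ℝ E) → ℝ) ⬝ᵥ
      (h x).mulVec ((finBasis ℝ E).repr v) := by
  unfold Curv.ip
  simp only [dotProduct, Matrix.mulVec]
  refine Finset.sum_congr rfl fun i _ => ?_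
  rw [Finset.mul_sum]
  refine Finset.sum_congr rfl fun j _ => ?_
  ring

theorem repr_map (D : E →L[ℝ] E) (u : E) :
    ((finBasis ℝ E).repr (D u) : Fin (finrank ℝ E) → ℝ) =
      (LinearMap.toMatrix (finBasis ℝ E) (finBasis ℝ E) (D : E →ₗ[ℝ] E)).mulVec
        ((finBasis ℝ E).repr u) :=
  (LinearMap.toMatrix_mulVec_repr (finBasis ℝ E) (finBasis ℝ E) (D : E →ₗ[ℝ] E) u).symm

end AR1aAux

theorem hp_eq_pull (h : Curv.Coeff E) (Ex : E → E → E) (p : E) : hp h Ex p = pull h (Ex p) := rfl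

theorem bf_hp (h : Curv.Coeff E) (Ex : E → E → E) (p v u w : E) :
    bf (hp h Ex p) v u w = bf h (Ex p v) (fderiv ℝ (Ex p) v u) (fderiv ℝ (Ex p) v w) := by
  rw [bf_apply, bf_apply, AR1aAux.ip_eq, AR1aAux.ip_eq, AR1aAux.repr_map, AR1aAux.repr_map]
  unfold hp
  rw [← Matrix.mulVec_mulVec, ← Matrix.mulVec_mulVec, Matrix.dotProduct_mulVec,
    Matrix.vecMul_transpose]

theorem hp_gauss (hm : Curv.IsMetric h) (hE : IsExp h Ex) (p v u : E) :
    bf (hp h Ex p) v v u = bf h p v u := by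
  rw [bf_hp]
  exact hE.gauss hm p v u

/-- Proof: `pull_rm` (Coll/T/L1.lean). -/
theorem hp_rm (hm : Curv.IsMetric h) (hE : IsExp h Ex) {p v : E}
    (hd : (fderiv ℝ (Ex p) v).det ≠ 0) : RM (hp h Ex p) v := by
  rw [hp_eq_pull]
  refine Coll.T.pull_rm (hE.smooth_at p) hd ?_
  exact Eventually.of_forall fun z => ⟨fun i j => (hm.1 i j).contDiffAt, hm.2 z⟩

end Pool.Agent.Lib.MP_df705a_gt.Pin.A
end
end

section

/-!
# Ricci pinching, part A, AR1: the metric in exponential coordinates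
-/

open scoped Manifold ContDiff Topology
open Set Bundle Module Filter MeasureTheory

noncomputable section

set_option linter.unusedSectionVars false

namespace Pool.Agent.Lib.MP_df705a_gt.Pin.A

open Pool.Agent.Lib.MP_df705a_gt.Twist Pool.Agent.Lib.MP_df705a_gt.Perm
open Pool.Agent.Lib.MP_df705a_gt.Coll (trM ipM)
open Pool.Agent.Lib.MP_df705a_gt.Coll.T (ddC mat pull RM SmF)

variable {E : Type*} [NormedAddCommGroup E] [NormedSpace ℝ E] [FiniteDimensional ℝ E]
  {h : Curv.Coeff E}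

variable {Ex : E → E → E}

namespace AR1Aux

theorem symm_inv {M : Matrix (Fin (finrank ℝ E)) (Fin (finrank ℝ E)) ℝ} (hM : M.PosDef)
    (i j : Fin (finrank ℝ E)) : M⁻¹ i j = M⁻¹ j i := by
  have h1 := hM.inv.isHermitian
  have h2 := congrFun (congrFun h1 j) i
  rw [Matrix.conjTranspose_apply] at h2
  exact h2

/-- The gradient is determined by its scalar products. -/
theorem gradM_eq {M : Matrix (Fin (finrank ℝ E)) (Fin (finrank ℝ E)) ℝ} (hM : M.PosDef)
    {L : E →L[ℝ] ℝ} {w : E}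
    (hw : ∀ u : E, ∑ i, ∑ j, M i j * ((finBasis ℝ E).repr w i * (finBasis ℝ E).repr u j) = L u) :
    gradM (finBasis ℝ E) M L = w := by
  have hdet : IsUnit M.det := hM.det_pos.ne'.isUnit
  have hs : ∀ i j, M i j = M j i := by
    intro i j
    have h2 := congrFun (congrFun hM.isHermitian j) i
    rw [Matrix.conjTranspose_apply] at h2
    exact h2
  have hL : ∀ j, L (finBasis ℝ E j) = M.mulVec ((finBasis ℝ E).repr w) j := by
    intro j
    rw [← hw]
    simp only [Matrix.mulVec, dotProduct]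
    refine Finset.sum_congr rfl fun i _ => ?_
    rw [Finset.sum_eq_single j]
    · rw [Basis.repr_self, Finsupp.single_eq_same, mul_one, hs i j]
    · intro k _ hk
      rw [Basis.repr_self, Finsupp.single_eq_of_ne (by simpa using hk), mul_zero, mul_zero]
    · intro hj
      exact absurd (Finset.mem_univ j) hj
  unfold gradM
  conv_rhs => rw [← (finBasis ℝ E).sum_repr w]
  refine Finset.sum_congr rfl fun i _ => ?_
  congr 1
  have h3 : (∑ j, M⁻¹ i j * L (finBasis ℝ E j)) =
      (M⁻¹).mulVec (M.mulVec ((finBasis ℝ E).repr w)) i := by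
    simp only [Matrix.mulVec, dotProduct]
    refine Finset.sum_congr rfl fun j _ => ?_
    rw [hL j]
    simp only [Matrix.mulVec, dotProduct]
  rw [h3, Matrix.mulVec_mulVec, Matrix.nonsing_inv_mul M hdet, Matrix.one_mulVec]

theorem gradC_eq {H : Curv.Coeff E} {x : E} (hM : (H x).PosDef) (u f : E → ℝ) :
    gradC H u f x = fderiv ℝ f x (gradM (finBasis ℝ E) (H x) (fderiv ℝ u x)) := by
  unfold gradC gradM Curv.pd
  rw [map_sum, Finset.sum_comm]
  refine Finset.sum_congr rfl fun j _ => ?_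
  rw [map_smul, smul_eq_mul, Finset.sum_mul]
  refine Finset.sum_congr rfl fun i _ => ?_
  rw [symm_inv hM i j]
  ring

theorem rm_posDef {H : Curv.Coeff E} {x : E} (hH : RM H x) : (H x).PosDef :=
  hH.self_of_nhds.2

end AR1Aux

/-- Proof: `bf (hp h Ex p) v ((nm h p v)⁻¹ • v) u = bf h p v u / nm h p v = fderiv (nm h p) v u`
(`hp_gauss`, `nm_fderiv`), and `gradM` is characterized by this property (`mB_gradM` of
Circ/DForm.lean or directly: `(hp h Ex p v)⁻¹` is the inverse matrix). -/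
theorem gradM_nm (hm : Curv.IsMetric h) (hE : IsExp h Ex) {p v : E} (hv : v ≠ 0)
    (hd : (fderiv ℝ (Ex p) v).det ≠ 0) :
    gradM (finBasis ℝ E) (hp h Ex p v) (fderiv ℝ (nm h p) v) = (nm h p v)⁻¹ • v := by
  refine AR1Aux.gradM_eq (AR1Aux.rm_posDef (hp_rm hm hE hd)) fun u => ?_
  have h1 : bf (hp h Ex p) v ((nm h p v)⁻¹ • v) u = fderiv ℝ (nm h p) v u := by
    rw [map_smul, _root_.smul_apply, hp_gauss hm hE, nm_fderiv hm p hv u, smul_eq_mul]
    ring
  rw [← h1, bf_apply]
  rfl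

/-- Proof: `gradC h u f x = fderiv f x (gradM (h x) (fderiv u x))` for a symmetric matrix, and
`gradM_nm`. -/
theorem gradC_nm (hm : Curv.IsMetric h) (hE : IsExp h Ex) {p v : E} (hv : v ≠ 0)
    (hd : (fderiv ℝ (Ex p) v).det ≠ 0) (f : E → ℝ) :
    gradC (hp h Ex p) (nm h p) f v = fderiv ℝ f v v / nm h p v := by
  rw [AR1Aux.gradC_eq (AR1Aux.rm_posDef (hp_rm hm hE hd)), gradM_nm hm hE hv hd, map_smul,
    smul_eq_mul]
  ring

theorem gradC_nm_nm (hm : Curv.IsMetric h) (hE : IsExp h Ex) {p v : E} (hv : v ≠ 0)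
    (hd : (fderiv ℝ (Ex p) v).det ≠ 0) : gradC (hp h Ex p) (nm h p) (nm h p) v = 1 := by
  rw [gradC_nm hm hE hv hd, nm_fderiv hm p hv v, ← nm_sq hm p v]
  have h1 := (nm_pos hm p hv).ne'
  field_simp

end Pool.Agent.Lib.MP_df705a_gt.Pin.A
end
end

section

/-!
# Ricci pinching, part A, AR2: the volume density
-/

open scoped Manifold ContDiff Topology
open Set Bundle Module Filter MeasureTheory

noncomputable section

set_option linter.unusedSectionVars false

namespace Pool.Agent.Lib.MP_df705a_gt.Pin.A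

open Pool.Agent.Lib.MP_df705a_gt.Twist Pool.Agent.Lib.MP_df705a_gt.Perm
open Pool.Agent.Lib.MP_df705a_gt.Coll (trM ipM)
open Pool.Agent.Lib.MP_df705a_gt.Coll.T (ddC mat pull RM SmF)

variable {E : Type*} [NormedAddCommGroup E] [NormedSpace ℝ E] [FiniteDimensional ℝ E]
  {h : Curv.Coeff E}

variable {Ex : E → E → E}

namespace AR2Aux

theorem det_hp (h : Curv.Coeff E) (Ex : E → E → E) (p v : E) :
    (hp h Ex p v).det = (fderiv ℝ (Ex p) v).det ^ 2 * (h (Ex p v)).det := by
  unfold hp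
  rw [Matrix.det_mul, Matrix.det_mul, Matrix.det_transpose,
    LinearMap.det_toMatrix (finBasis ℝ E) (fderiv ℝ (Ex p) v : E →ₗ[ℝ] E)]
  change (fderiv ℝ (Ex p) v).det * _ * (fderiv ℝ (Ex p) v).det = _
  ring

theorem fderiv_ex (hE : IsExp h Ex) (p v u : E) :
    fderiv ℝ (Ex p) v u = fderiv ℝ (fun q : E × E => Ex q.1 q.2) (p, v) (0, u) := by
  have h1 : HasFDerivAt (fun q : E × E => Ex q.1 q.2)
      (fderiv ℝ (fun q : E × E => Ex q.1 q.2) (p, v)) (p, v) :=
    (hE.smooth.differentiable (by simp) (p, v)).hasFDerivAt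
  have h2 : HasFDerivAt (fun w : E => ((p, w) : E × E)) (ContinuousLinearMap.inr ℝ E E) v :=
    hasFDerivAt_prodMk_right p v
  have h3 := h1.comp v h2
  have h4 : fderiv ℝ (Ex p) v = (fderiv ℝ (fun q : E × E => Ex q.1 q.2) (p, v)).comp
      (ContinuousLinearMap.inr ℝ E E) := h3.fderiv
  rw [h4]
  rfl

theorem fderiv_ex' (hE : IsExp h Ex) (p v : E) :
    fderiv ℝ (Ex p) v = (fderiv ℝ (fun q : E × E => Ex q.1 q.2) (p, v)).comp
      (ContinuousLinearMap.inr ℝ E E) := by
  ext u
  rw [fderiv_ex hE]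
  rfl

theorem det_cont (hE : IsExp h Ex) :
    Continuous fun q : E × E => (fderiv ℝ (Ex q.1) q.2).det := by
  refine ContinuousLinearMap.continuous_det.comp ?_
  have h1 : (fun q : E × E => fderiv ℝ (Ex q.1) q.2) = fun q : E × E =>
      (fderiv ℝ (fun q : E × E => Ex q.1 q.2) q).comp (ContinuousLinearMap.inr ℝ E E) := by
    funext q
    exact fderiv_ex' hE q.1 q.2
  rw [h1]
  exact (hE.smooth.continuous_fderiv (by simp)).clm_comp continuous_const

end AR2Aux

/-- Proof: `det (Aᵀ H A) = (det A) ^ 2 det H`, `LinearMap.det_toMatrix`. -/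
theorem dens_eq (hm : Curv.IsMetric h) (Ex : E → E → E) (p v : E) :
    dens h Ex p v = |(fderiv ℝ (Ex p) v).det| * √ (h (Ex p v)).det := by
  unfold dens
  rw [AR2Aux.det_hp, Real.sqrt_mul (sq_nonneg _), Real.sqrt_sq_eq_abs]

theorem dens_zero (hm : Curv.IsMetric h) (hE : IsExp h Ex) (p : E) :
    dens h Ex p 0 = √ (h p).det := by
  rw [dens_eq hm, hE.fderiv_zero p, hE.zero p]
  have h1 : (ContinuousLinearMap.id ℝ E).det = 1 := by
    unfold ContinuousLinearMap.det
    exact LinearMap.det_id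
  rw [h1, abs_one, one_mul]

theorem dens_nonneg (h : Curv.Coeff E) (Ex : E → E → E) (p v : E) : 0 ≤ dens h Ex p v :=
  Real.sqrt_nonneg _

theorem dens_pos_iff (hm : Curv.IsMetric h) (Ex : E → E → E) (p v : E) :
    0 < dens h Ex p v ↔ (fderiv ℝ (Ex p) v).det ≠ 0 := by
  rw [dens_eq hm]
  have h1 : 0 < √ (h (Ex p v)).det := Real.sqrt_pos.2 (hm.2 _).det_pos
  rw [mul_pos_iff_of_pos_right h1, abs_pos]

theorem dens_continuous (hm : Curv.IsMetric h) (hE : IsExp h Ex) :
    Continuous fun q : E × E => dens h Ex q.1 q.2 := by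
  have h1 : (fun q : E × E => dens h Ex q.1 q.2) = fun q : E × E =>
      |(fderiv ℝ (Ex q.1) q.2).det| * √ (h (Ex q.1 q.2)).det := by
    funext q
    exact dens_eq hm Ex q.1 q.2
  rw [h1]
  refine (AR2Aux.det_cont hE).abs.mul (Real.continuous_sqrt.comp ?_)
  have h2 : Continuous fun x : E => (h x).det := by
    refine Continuous.matrix_det ?_
    exact continuous_matrix fun i j => (hm.1 i j).continuous
  exact h2.comp hE.smooth.continuous

/-- Proof: `dens = √ (det (hp h Ex p v))` with a smooth positive determinant (`hp_rm`,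
`contDiffAt_det`). -/
theorem dens_smooth (hm : Curv.IsMetric h) (hE : IsExp h Ex) {p v : E}
    (hd : (fderiv ℝ (Ex p) v).det ≠ 0) : ContDiffAt ℝ ∞ (dens h Ex p) v := by
  have h1 := (hp_rm hm hE hd).self_of_nhds
  have h2 : ContDiffAt ℝ ∞ (fun w => (hp h Ex p w).det) v := contDiffAt_det h1.1
  exact h2.sqrt h1.2.det_pos.ne'

/-- The determinant is not zero near a point where it is not zero. -/
theorem eventually_det_ne (hE : IsExp h Ex) {p v : E} (hd : (fderiv ℝ (Ex p) v).det ≠ 0) :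
    ∀ᶠ w in 𝓝 v, (fderiv ℝ (Ex p) w).det ≠ 0 := by
  have h1 : Continuous fun w : E => (fderiv ℝ (Ex p) w).det :=
    (AR2Aux.det_cont hE).comp (continuous_const.prodMk continuous_id)
  exact h1.continuousAt.eventually_ne hd

end Pool.Agent.Lib.MP_df705a_gt.Pin.A
end
end

section

/-!
# Ricci pinching, part A, AR3a: the mean curvature of distance spheres
-/

open scoped Manifold ContDiff Topology
open Set Bundle Module Filter MeasureTheory

noncomputable section

set_option linter.unusedSectionVars false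

namespace Pool.Agent.Lib.MP_df705a_gt.Pin.A

open Pool.Agent.Lib.MP_df705a_gt.Twist Pool.Agent.Lib.MP_df705a_gt.Perm
open Pool.Agent.Lib.MP_df705a_gt.Coll (trM ipM)
open Pool.Agent.Lib.MP_df705a_gt.Coll.T (ddC mat pull RM SmF)

variable {E : Type*} [NormedAddCommGroup E] [NormedSpace ℝ E] [FiniteDimensional ℝ E]
  {h : Curv.Coeff E}

variable {Ex : E → E → E}

/-- The Laplacian of the distance from `p`, in exponential coordinates at `p`. -/
def mc (h : Curv.Coeff E) (Ex : E → E → E) (p v : E) : ℝ := lapC (hp h Ex p) (nm h p) v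

/-- Proof: `dv_slice` (Twist/Slice.lean) with `ψ = 0`, `κ = 1`, `u = nm h p`: the divergence of
`y ↦ dens h Ex p y • gradM (hp y) (fderiv (nm h p) y)` at `v` is `dens · mc`. Near `v` this vector
field is `(dens y / nm h p y) • y` by `gradM_nm` (`eventually_det_ne`), whose divergence (the trace
of the derivative) is `fderiv (dens / nm h p) v v + (dens v / nm h p v) n`, and
`fderiv (1 / nm h p) v v = - 1 / nm h p v` since `fderiv (nm h p) v v = nm h p v` (`nm_fderiv`). -/
theorem mc_eq (hm : Curv.IsMetric h) (hE : IsExp h Ex) {p v : E} (hv : v ≠ 0)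
    (hd : (fderiv ℝ (Ex p) v).det ≠ 0) :
    mc h Ex p v = ((finrank ℝ E : ℝ) - 1) / nm h p v +
      fderiv ℝ (dens h Ex p) v v / (nm h p v * dens h Ex p v) := by
  have hRM := hp_rm hm hE hd
  have hnm : 0 < nm h p v := nm_pos hm p hv
  have hdn : 0 < dens h Ex p v := (dens_pos_iff hm Ex p v).2 hd
  have h1 := dv_slice (h := hp h Ex p) (ψ := fun _ => (0 : ℝ)) (u := nm h p) (x := v) hRM.self.1
    (hRM.mono fun w hw => hw.2) contDiffAt_const (nm_smooth hm p hv) 1
  have h2 : gradC (hp h Ex p) (fun _ => (0 : ℝ)) (nm h p) v = 0 := by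
    unfold gradC Curv.pd
    simp
  have h3 : (fun y => ((1 : ℝ) * (Real.exp ((fun _ : E => (0 : ℝ)) y) * √ (hp h Ex p y).det)) •
      gradM (finBasis ℝ E) (hp h Ex p y) (fderiv ℝ (nm h p) y)) =ᶠ[𝓝 v]
      fun y => (dens h Ex p y / nm h p y) • y := by
    have h4 : ∀ᶠ w in 𝓝 v, w ≠ 0 := isOpen_ne.mem_nhds hv
    filter_upwards [h4, eventually_det_ne hE hd] with w hw hdw
    rw [gradM_nm hm hE hw hdw, smul_smul]
    congr 1
    rw [Real.exp_zero, one_mul, one_mul, div_eq_mul_inv]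
    rfl
  have hdd : DifferentiableAt ℝ (dens h Ex p) v := (dens_smooth hm hE hd).differentiableAt (by simp)
  have hnd : DifferentiableAt ℝ (nm h p) v := (nm_smooth hm p hv).differentiableAt (by simp)
  obtain ⟨L, hL⟩ : ∃ L : E →L[ℝ] ℝ, L = dens h Ex p v • ((-(nm h p v ^ 2)⁻¹) • fderiv ℝ (nm h p) v) +
      (nm h p v)⁻¹ • fderiv ℝ (dens h Ex p) v := ⟨_, rfl⟩
  have h5 : HasFDerivAt (fun y => dens h Ex p y / nm h p y) L v := by
    have h50 : HasFDerivAt (fun y => (nm h p y)⁻¹) ((-(nm h p v ^ 2)⁻¹) • fderiv ℝ (nm h p) v) v :=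
      (hasDerivAt_inv hnm.ne').comp_hasFDerivAt v hnd.hasFDerivAt
    have h51 := hdd.hasFDerivAt.mul h50
    rw [hL]
    simp only [div_eq_mul_inv]
    exact h51
  have h6 : HasFDerivAt (fun y : E => (dens h Ex p y / nm h p y) • y)
      ((dens h Ex p v / nm h p v) • ContinuousLinearMap.id ℝ E + L.smulRight v) v :=
    h5.smul (hasFDerivAt_id v)
  have h7 : fderiv ℝ (nm h p) v v = nm h p v := by
    rw [nm_fderiv hm p hv, ← nm_sq hm]
    field_simp
  have hLv : L v = dens h Ex p v * ((-(nm h p v ^ 2)⁻¹) * nm h p v) +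
      (nm h p v)⁻¹ * fderiv ℝ (dens h Ex p) v v := by
    rw [hL]
    show dens h Ex p v * ((-(nm h p v ^ 2)⁻¹) * fderiv ℝ (nm h p) v v) +
      (nm h p v)⁻¹ * fderiv ℝ (dens h Ex p) v v = _
    rw [h7]
  have h8 : dv (fun y : E => (dens h Ex p y / nm h p y) • y) v =
      (dens h Ex p v / nm h p v) * (finrank ℝ E : ℝ) + L v := by
    unfold dv
    rw [h6.fderiv]
    have h9 : (((dens h Ex p v / nm h p v) • ContinuousLinearMap.id ℝ E + L.smulRight v : E →L[ℝ] E) :
        E →ₗ[ℝ] E) = (dens h Ex p v / nm h p v) • LinearMap.id +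
        LinearMap.smulRight (L : E →ₗ[ℝ] ℝ) v := rfl
    rw [h9, map_add, map_smul, LinearMap.trace_id, LinearMap.trace_smulRight]
    rfl
  have h10 : dv (fun y => ((1 : ℝ) * (Real.exp ((fun _ : E => (0 : ℝ)) y) * √ (hp h Ex p y).det)) •
      gradM (finBasis ℝ E) (hp h Ex p y) (fderiv ℝ (nm h p) y)) v =
      dv (fun y : E => (dens h Ex p y / nm h p y) • y) v := by
    unfold dv
    rw [h3.fderiv_eq]
  rw [h10, h8, h2, add_zero, one_mul, Real.exp_zero, one_mul, hLv] at h1
  have h11 : √ (hp h Ex p v).det = dens h Ex p v := rfl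
  rw [h11] at h1
  have h12 : mc h Ex p v = lapC (hp h Ex p) (nm h p) v := rfl
  rw [← h12] at h1
  have h13 : mc h Ex p v = (dens h Ex p v / nm h p v * (finrank ℝ E : ℝ) +
      (dens h Ex p v * ((-(nm h p v ^ 2)⁻¹) * nm h p v) + (nm h p v)⁻¹ * fderiv ℝ (dens h Ex p) v v)) /
      dens h Ex p v := by
    rw [h1]
    field_simp
  rw [h13]
  field_simp
  ring

end Pool.Agent.Lib.MP_df705a_gt.Pin.A
end
end

section

/-!
# Ricci pinching, part A, AR3: the mean curvature of distance spheres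
-/

open scoped Manifold ContDiff Topology
open Set Bundle Module Filter MeasureTheory

noncomputable section

set_option linter.unusedSectionVars false

namespace Pool.Agent.Lib.MP_df705a_gt.Pin.A

open Pool.Agent.Lib.MP_df705a_gt.Twist Pool.Agent.Lib.MP_df705a_gt.Perm
open Pool.Agent.Lib.MP_df705a_gt.Coll (trM ipM)
open Pool.Agent.Lib.MP_df705a_gt.Coll.T (ddC mat pull RM SmF)

variable {E : Type*} [NormedAddCommGroup E] [NormedSpace ℝ E] [FiniteDimensional ℝ E]
  {h : Curv.Coeff E}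

variable {Ex : E → E → E}

/-- Proof: `smF_lap` (Coll/T/L1.lean) with `hp_rm` and `nm_smooth`. -/
theorem mc_smooth (hm : Curv.IsMetric h) (hE : IsExp h Ex) {p v : E} (hv : v ≠ 0)
    (hd : (fderiv ℝ (Ex p) v).det ≠ 0) : ContDiffAt ℝ ∞ (mc h Ex p) v := by
  have hu : SmF (nm h p) v := by
    filter_upwards [isOpen_ne.mem_nhds hv] with z hz
    exact nm_smooth hm p hz
  exact (Coll.T.smF_lap (hp_rm hm hE hd) hu).self_of_nhds

/-- Along the ray `s ↦ s e` of a unit vector: `mc = (n - 1) / s + (log dens)'`. -/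
theorem hasDerivAt_log_dens (hm : Curv.IsMetric h) (hE : IsExp h Ex) {p e : E}
    (he : nm h p e = 1) {s : ℝ} (hs : 0 < s) (hd : (fderiv ℝ (Ex p) (s • e)).det ≠ 0) :
    HasDerivAt (fun s : ℝ => Real.log (dens h Ex p (s • e)))
      (mc h Ex p (s • e) - ((finrank ℝ E : ℝ) - 1) / s) s := by
  have he0 : e ≠ 0 := by
    intro h0
    rw [h0, nm_zero] at he
    exact zero_ne_one he
  have hse : s • e ≠ 0 := smul_ne_zero hs.ne' he0
  have hnm : nm h p (s • e) = s := by rw [nm_smul, he, mul_one, abs_of_pos hs]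
  have hpos : 0 < dens h Ex p (s • e) := (dens_pos_iff hm Ex p (s • e)).mpr hd
  have hdiff : DifferentiableAt ℝ (dens h Ex p) (s • e) :=
    (dens_smooth hm hE hd).differentiableAt (by simp)
  have h1 : HasDerivAt (fun s : ℝ => s • e) e s := by
    have h2 := (hasDerivAt_id s).smul_const e
    rwa [one_smul] at h2
  have h2 : HasDerivAt (fun s : ℝ => dens h Ex p (s • e)) (fderiv ℝ (dens h Ex p) (s • e) e) s := by
    have h5 : HasFDerivAt (dens h Ex p) (fderiv ℝ (dens h Ex p) (s • e)) (s • e) :=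
      hdiff.hasFDerivAt
    exact HasFDerivAt.comp_hasDerivAt (f := fun s : ℝ => s • e) s h5 h1
  have h3 := h2.log hpos.ne'
  have h4 : mc h Ex p (s • e) - ((finrank ℝ E : ℝ) - 1) / s =
      fderiv ℝ (dens h Ex p) (s • e) e / dens h Ex p (s • e) := by
    rw [mc_eq hm hE hse hd, hnm, map_smul, smul_eq_mul, mul_div_mul_left _ _ hs.ne']
    ring
  rw [h4]
  exact h3

end Pool.Agent.Lib.MP_df705a_gt.Pin.A
end
end

section

/-!
# Ricci pinching, part A, AR5a: comparison along regular rays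
-/

open scoped Manifold ContDiff Topology
open Set Bundle Module Filter MeasureTheory

noncomputable section

set_option linter.unusedSectionVars false

namespace Pool.Agent.Lib.MP_df705a_gt.Pin.A

open Pool.Agent.Lib.MP_df705a_gt.Twist Pool.Agent.Lib.MP_df705a_gt.Perm
open Pool.Agent.Lib.MP_df705a_gt.Coll (trM ipM)
open Pool.Agent.Lib.MP_df705a_gt.Coll.T (ddC mat pull RM SmF)

variable {E : Type*} [NormedAddCommGroup E] [NormedSpace ℝ E] [FiniteDimensional ℝ E]
  {h : Curv.Coeff E}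

variable {Ex : E → E → E}

/-- Proof: the quadratic form of the positive semidefinite matrix `ric h x + κ • h x` is nonnegative
(`Matrix.PosSemidef`), and it is `rc h x u + κ * Curv.ip h x u u`. -/
theorem rc_ge {κ : ℝ} {x : E} (hx : RicGeAt h κ x) (u : E) :
    -κ * bf h x u u ≤ rc h x u := by
  have h1 := hx.dotProduct_mulVec_nonneg (fun i => (finBasis ℝ E).repr u i)
  have h2 : dotProduct (star (fun i => (finBasis ℝ E).repr u i))
      (Matrix.mulVec (ric h x + κ • h x) (fun i => (finBasis ℝ E).repr u i)) =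
      rc h x u + κ * bf h x u u := by
    rw [bf_apply]
    unfold rc Curv.ip
    simp only [dotProduct, Matrix.mulVec, Pi.star_apply, star_trivial, Matrix.add_apply,
      Matrix.smul_apply, smul_eq_mul]
    rw [Finset.mul_sum, ← Finset.sum_add_distrib]
    refine Finset.sum_congr rfl fun i _ => ?_
    rw [Finset.mul_sum, Finset.mul_sum, ← Finset.sum_add_distrib]
    refine Finset.sum_congr rfl fun j _ => ?_
    ring
  rw [h2] at h1
  linarith

/-- Proof: `log dens` is smooth near `0 : E` (`dens_zero`, `dens_smooth`), so its derivative along the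
ray is bounded for small `s`, and it is `mc - (n - 1) / s` (`hasDerivAt_log_dens`). -/
theorem mc_near_zero (hm : Curv.IsMetric h) (hE : IsExp h Ex) {p e : E} (he : nm h p e = 1) :
    ∃ C : ℝ, ∀ᶠ s in 𝓝[>] (0 : ℝ),
      |mc h Ex p (s • e) - ((finrank ℝ E : ℝ) - 1) / s| ≤ C := by
  have hd0 : (fderiv ℝ (Ex p) 0).det ≠ 0 := by
    rw [hE.fderiv_zero p]
    simp [ContinuousLinearMap.det]
  have hlog : ∀ w : E, (fderiv ℝ (Ex p) w).det ≠ 0 →
      ContDiffAt ℝ ∞ (fun v => Real.log (dens h Ex p v)) w := fun w hw =>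
    (dens_smooth hm hE hw).log ((dens_pos_iff hm Ex p w).2 hw).ne'
  have hc : ContinuousAt (fderiv ℝ (fun v => Real.log (dens h Ex p v))) 0 :=
    ((hlog 0 hd0).fderiv_right (m := 0) (by simp)).continuousAt
  have hcn : ContinuousAt (fun v => ‖fderiv ℝ (fun v => Real.log (dens h Ex p v)) v‖) 0 := hc.norm
  set C : ℝ := ‖fderiv ℝ (fun v => Real.log (dens h Ex p v)) 0‖ + 1 with hC
  have hev : ∀ᶠ v in 𝓝 (0 : E), ‖fderiv ℝ (fun v => Real.log (dens h Ex p v)) v‖ < C :=
    hcn.eventually_lt_const (by rw [hC]; linarith)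
  have htd : Tendsto (fun s : ℝ => s • e) (𝓝[>] (0 : ℝ)) (𝓝 (0 : E)) := by
    have h1 : Continuous (fun s : ℝ => s • e) := by fun_prop
    have h2 := h1.tendsto (0 : ℝ)
    rw [zero_smul] at h2
    exact h2.mono_left nhdsWithin_le_nhds
  refine ⟨C * ‖e‖, ?_⟩
  filter_upwards [htd.eventually hev, htd.eventually (eventually_det_ne hE hd0),
    self_mem_nhdsWithin] with s h1 h2 h3
  have h4 := hasDerivAt_log_dens hm hE he (Set.mem_Ioi.1 h3) h2
  have h5 : HasDerivAt (fun s : ℝ => s • e) e s := by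
    simpa using (hasDerivAt_id s).smul_const e
  have h6 := ((hlog _ h2).differentiableAt (by simp)).hasFDerivAt.comp_hasDerivAt s h5
  have h7 := h4.unique h6
  rw [h7, ← Real.norm_eq_abs]
  exact (ContinuousLinearMap.le_opNorm _ _).trans
    (mul_le_mul_of_nonneg_right h1.le (norm_nonneg _))

end Pool.Agent.Lib.MP_df705a_gt.Pin.A
end
end
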