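import Pool.Agent.Lib.MP_df705a_gt.Mg.G059
import Pool.Agent.Lib.MP_df705a_gt.Mg.G066
import Pool.Agent.Lib.MP_df705a_gt.Mg.G060

section

/-!
# Ricci pinching, part A, AZ2a: volumes in a tangent space
-/

open scoped Manifold ContDiff Topology
open Set Bundle Module Filter MeasureTheory

noncomputable section

set_option linter.unusedSectionVars false

namespace Pool.Agent.Lib.MP_df705a_gt.Pin.A

open Pool.Agent.Lib.MP_df705a_gt.Twist Pool.Agent.Lib.MP_df705a_gt.Perm
open Pool.Agent.Lib.MP_df705a_gt.Coll (trM ipM)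
open Pool.Agent.Lib.MP_df705a_gt.Coll.T (ddC mat pull RM SmF)

variable {E : Type*} [NormedAddCommGroup E] [NormedSpace ℝ E] [FiniteDimensional ℝ E]
  {h : Curv.Coeff E}

variable [MeasurableSpace E] [BorelSpace E]

/-- The volume of the unit ball of the euclidean metric given by the basis `finBasis ℝ E`. -/
def om (E : Type*) [NormedAddCommGroup E] [NormedSpace ℝ E] [FiniteDimensional ℝ E]
    [MeasurableSpace E] [BorelSpace E] : ENNReal :=
  (finBasis ℝ E).addHaar {v | ∑ i, (finBasis ℝ E).repr v i ^ 2 < 1}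

theorem AZ2aAux.cont : Continuous fun v : E => ∑ i, (finBasis ℝ E).repr v i ^ 2 := by
  apply continuous_finsetSum
  intro i _
  have h1 : Continuous fun v : E => (finBasis ℝ E).repr v i :=
    (LinearMap.toContinuousLinearMap ((finBasis ℝ E).coord i)).continuous
  exact h1.pow 2

/-- Proof: the set is open, nonempty and bounded. -/
theorem om_pos : 0 < om E := by
  unfold om
  apply IsOpen.measure_pos
  · exact isOpen_lt AZ2aAux.cont continuous_const
  · exact ⟨0, by simp⟩

theorem om_lt_top : om E < ⊤ := by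
  unfold om
  apply Bornology.IsBounded.measure_lt_top
  rw [isBounded_iff_forall_norm_le]
  refine ⟨∑ i, ‖finBasis ℝ E i‖, ?_⟩
  intro v hv
  have hv' : ∑ i, (finBasis ℝ E).repr v i ^ 2 < 1 := hv
  have h1 : v = ∑ i, (finBasis ℝ E).repr v i • finBasis ℝ E i :=
    ((finBasis ℝ E).sum_repr v).symm
  calc ‖v‖ = ‖∑ i, (finBasis ℝ E).repr v i • finBasis ℝ E i‖ := by rw [← h1]
    _ ≤ ∑ i, ‖(finBasis ℝ E).repr v i • finBasis ℝ E i‖ := norm_sum_le _ _
    _ ≤ ∑ i, ‖finBasis ℝ E i‖ := by
        apply Finset.sum_le_sum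
        intro i _
        rw [norm_smul]
        have h2 : (finBasis ℝ E).repr v i ^ 2 ≤ 1 := by
          refine le_trans ?_ hv'.le
          exact Finset.single_le_sum (f := fun i => (finBasis ℝ E).repr v i ^ 2)
            (fun j _ => sq_nonneg _) (Finset.mem_univ i)
        have h3 : ‖(finBasis ℝ E).repr v i‖ ≤ 1 := by
          rw [Real.norm_eq_abs]
          exact abs_le_one_iff_mul_self_le_one.mpr (by nlinarith)
        have h4 := norm_nonneg (finBasis ℝ E i)
        nlinarith

/-- Proof: let `L` be the map of `exists_frame` (Coll/T/N0.lean) for the matrix `h p`: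
`(mat L)ᵀ h(p) (mat L) = 1`, so `Curv.ip h p (L w) (L w) = ∑ w_i ^ 2` and `det h(p) (det L)² = 1`.
The set is the image under `r L` of the unit ball: `Measure.addHaar_image_linearMap`,
`Measure.addHaar_smul`. -/
theorem tangent_ball (hm : Curv.IsMetric h) (p : E) {r : ℝ} (hr : 0 < r) :
    (finBasis ℝ E).addHaar {v | nm h p v < r} * ENNReal.ofReal (√ (h p).det) =
      ENNReal.ofReal (r ^ finrank ℝ E) * om E := by
  obtain ⟨L, hL0, hL⟩ := Coll.T.exists_frame (E := E) (hm.2 p)
  -- the metric in the frame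
  have hip : ∀ w : E, Curv.ip h p (L w) (L w) = ∑ i, (finBasis ℝ E).repr w i ^ 2 := by
    intro w
    have h1 : ∀ u v : E, Curv.ip h p u v
        = dotProduct ((finBasis ℝ E).repr u) (Matrix.mulVec (h p) ((finBasis ℝ E).repr v)) := by
      intro u v
      unfold Curv.ip dotProduct Matrix.mulVec dotProduct
      refine Finset.sum_congr rfl (fun i _ => ?_)
      rw [Finset.mul_sum]
      refine Finset.sum_congr rfl (fun j _ => ?_)
      ring
    have h2 : ∀ w : E, ((finBasis ℝ E).repr (L w) : Fin (finrank ℝ E) → ℝ)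
        = Matrix.mulVec (mat L) ((finBasis ℝ E).repr w) := by
      intro w
      unfold Coll.T.mat
      exact (LinearMap.toMatrix_mulVec_repr (finBasis ℝ E) (finBasis ℝ E)
        (L : E →ₗ[ℝ] E) w).symm
    rw [h1, h2]
    have h3 : Matrix.mulVec (h p) (Matrix.mulVec (mat L) ((finBasis ℝ E).repr w))
        = Matrix.mulVec (h p * mat L) ((finBasis ℝ E).repr w) := by
      rw [Matrix.mulVec_mulVec]
    rw [h3, Matrix.dotProduct_mulVec, ← Matrix.vecMul_transpose, Matrix.vecMul_vecMul,
      ← Matrix.mul_assoc, hL, Matrix.vecMul_one]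
    unfold dotProduct
    refine Finset.sum_congr rfl (fun i _ => ?_)
    ring
  have hdet : |L.det| * √ (h p).det = 1 := by
    have h1 : (mat L).det = L.det := by
      unfold Coll.T.mat
      rw [LinearMap.det_toMatrix]
    have h2 := congrArg Matrix.det hL
    rw [Matrix.det_mul, Matrix.det_mul, Matrix.det_transpose, Matrix.det_one, h1] at h2
    have h3 : 0 < (h p).det := (hm.2 p).det_pos
    have h4 : (|L.det| * √ (h p).det) ^ 2 = 1 := by
      rw [mul_pow, sq_abs, Real.sq_sqrt h3.le]
      linarith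
    have h5 : 0 ≤ |L.det| * √ (h p).det := by positivity
    nlinarith
  have hsurj : Function.Surjective L := by
    have h1 : IsUnit (L : E →ₗ[ℝ] E) := by
      rw [LinearMap.isUnit_iff_isUnit_det]
      exact isUnit_iff_ne_zero.mpr hL0
    exact ((Module.End.isUnit_iff _).mp h1).2
  have himg : {v | nm h p v < r} =
      (r • L : E →L[ℝ] E) '' {v | ∑ i, (finBasis ℝ E).repr v i ^ 2 < 1} := by
    have key : ∀ w : E, nm h p (r • L w) < r ↔ ∑ i, (finBasis ℝ E).repr w i ^ 2 < 1 := by
      intro w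
      have h1 : Curv.ip h p (r • L w) (r • L w) = r ^ 2 * ∑ i, (finBasis ℝ E).repr w i ^ 2 := by
        have h2 := hip (r • w)
        rw [map_smul] at h2
        rw [h2, Finset.mul_sum]
        refine Finset.sum_congr rfl (fun i _ => ?_)
        rw [map_smul, Finsupp.smul_apply, smul_eq_mul, mul_pow]
      unfold nm
      rw [h1, Real.sqrt_lt' hr]
      have hr2 : 0 < r ^ 2 := by positivity
      constructor
      · intro h3
        nlinarith
      · intro h3
        nlinarith
    ext v
    constructor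
    · intro hv
      obtain ⟨w, hw⟩ := hsurj (r⁻¹ • v)
      have h1 : r • L w = v := by
        rw [hw, smul_smul, mul_inv_cancel₀ hr.ne', one_smul]
      refine ⟨w, ?_, h1⟩
      rw [← h1] at hv
      exact (key w).mp hv
    · rintro ⟨w, hw, rfl⟩
      exact (key w).mpr hw
  have hMdet : LinearMap.det ((r • L : E →L[ℝ] E) : E →ₗ[ℝ] E)
      = r ^ finrank ℝ E * L.det := by
    have : ((r • L : E →L[ℝ] E) : E →ₗ[ℝ] E) = r • (L : E →ₗ[ℝ] E) := rfl
    rw [this, LinearMap.det_smul]
  rw [himg, Measure.addHaar_image_continuousLinearMap, hMdet, abs_mul,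
    abs_of_pos (pow_pos hr _), mul_right_comm, ← ENNReal.ofReal_mul (by positivity), mul_assoc,
    hdet, mul_one]
  rfl

end Pool.Agent.Lib.MP_df705a_gt.Pin.A
end
end

section

/-!
# Ricci pinching, part A, AZ4a: small balls
-/

open scoped Manifold ContDiff Topology
open Set Bundle Module Filter MeasureTheory

noncomputable section

set_option linter.unusedSectionVars false

namespace Pool.Agent.Lib.MP_df705a_gt.Pin.A

open Pool.Agent.Lib.MP_df705a_gt.Twist Pool.Agent.Lib.MP_df705a_gt.Perm
open Pool.Agent.Lib.MP_df705a_gt.Coll (trM ipM)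
open Pool.Agent.Lib.MP_df705a_gt.Coll.T (ddC mat pull RM SmF)

variable {E : Type*} [NormedAddCommGroup E] [NormedSpace ℝ E] [FiniteDimensional ℝ E]
  {h : Curv.Coeff E}

variable [MeasurableSpace E] [BorelSpace E]

/-- Proof: the set of `(x, y)` such that `bf h y u u ≤ 4 bf h x u u` for all `u` and
`√ det h(y) ≥ √ det h(x) / 2` is a neighbourhood of the diagonal of the compact set `K`; so there is
`r₁ > 0` with this for `x ∈ K`, `‖y - x‖ ≤ r₁` (compactness; use `nm h x` and the unit sphere). -/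
theorem uniform_near (hm : Curv.IsMetric h) {K : Set E} (hK : IsCompact K) :
    ∃ r₁ : ℝ, 0 < r₁ ∧ ∀ x ∈ K, ∀ y, ‖y - x‖ ≤ r₁ →
      (∀ u, nm h y u ≤ 2 * nm h x u) ∧ √ (h x).det ≤ 2 * √ (h y).det := by
  have : ProperSpace E := FiniteDimensional.proper ℝ E
  have hnc := nm_continuous hm
  have hhc : Continuous h := continuous_matrix fun i j => (hm.1 i j).continuous
  have hgc : Continuous fun x => √ (h x).det := (hhc.matrix_det).sqrt
  have hgpos : ∀ x, 0 < √ (h x).det := fun x => Real.sqrt_pos.mpr (hm.2 x).det_pos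
  -- first set
  obtain ⟨δ₁, hδ₁, h1⟩ : ∃ δ : ℝ, 0 < δ ∧ Metric.cthickening δ
      ((fun q : E × E => ((q.1, q.1), q.2)) '' (K ×ˢ Metric.sphere (0 : E) 1)) ⊆
      {q : (E × E) × E | nm h q.1.2 q.2 < 2 * nm h q.1.1 q.2} := by
    refine IsCompact.exists_cthickening_subset_open ?_ ?_ ?_
    · exact (hK.prod (isCompact_sphere 0 1)).image (by fun_prop)
    · refine isOpen_lt (hnc.comp (f := fun q : (E × E) × E => (q.1.2, q.2)) (by fun_prop)) ?_
      exact continuous_const.mul (hnc.comp (f := fun q : (E × E) × E => (q.1.1, q.2)) (by fun_prop))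
    · rintro _ ⟨⟨x, u⟩, ⟨_, hu⟩, rfl⟩
      simp only [mem_ofPred_eq]
      have hu0 : u ≠ 0 := by
        rintro rfl
        simp at hu
      have := nm_pos hm x hu0
      linarith
  obtain ⟨δ₂, hδ₂, h2⟩ : ∃ δ : ℝ, 0 < δ ∧ Metric.cthickening δ
      ((fun x : E => (x, x)) '' K) ⊆ {q : E × E | √ (h q.1).det < 2 * √ (h q.2).det} := by
    refine IsCompact.exists_cthickening_subset_open ?_ ?_ ?_
    · exact hK.image (by fun_prop)
    · exact isOpen_lt (hgc.comp continuous_fst) (continuous_const.mul (hgc.comp continuous_snd))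
    · rintro _ ⟨x, _, rfl⟩
      simp only [mem_ofPred_eq]
      have := hgpos x
      linarith
  refine ⟨min δ₁ δ₂, lt_min hδ₁ hδ₂, fun x hx y hxy => ⟨fun u => ?_, ?_⟩⟩
  · by_cases hu0 : u = 0
    · subst hu0
      rw [nm_zero, nm_zero]
      simp
    · have hun : 0 < ‖u‖ := norm_pos_iff.mpr hu0
      obtain ⟨e, he⟩ : ∃ e : E, e = ‖u‖⁻¹ • u := ⟨_, rfl⟩
      have hen : ‖e‖ = 1 := by
        rw [he, norm_smul, norm_inv, norm_norm, inv_mul_cancel₀ hun.ne']
      have hue : u = ‖u‖ • e := by
        rw [he, smul_smul, mul_inv_cancel₀ hun.ne', one_smul]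
      have h3 : nm h y e < 2 * nm h x e := by
        have h4 : (((x, y), e) : (E × E) × E) ∈ Metric.cthickening δ₁
            ((fun q : E × E => ((q.1, q.1), q.2)) '' (K ×ˢ Metric.sphere (0 : E) 1)) := by
          refine Metric.mem_cthickening_of_dist_le _ ((x, x), e) _ _ ⟨(x, e), ⟨hx, by simpa using hen⟩, rfl⟩ ?_
          rw [Prod.dist_eq, Prod.dist_eq]
          simp only [dist_self]
          have h5 : dist y x ≤ δ₁ := by
            rw [dist_eq_norm]
            exact hxy.trans (min_le_left _ _)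
          exact max_le (max_le hδ₁.le h5) hδ₁.le
        exact h1 h4
      rw [hue, nm_smul, nm_smul, abs_of_pos hun]
      nlinarith
  · have h4 : ((x, y) : E × E) ∈ Metric.cthickening δ₂ ((fun x : E => (x, x)) '' K) := by
      refine Metric.mem_cthickening_of_dist_le _ (x, x) _ _ ⟨x, hx, rfl⟩ ?_
      rw [Prod.dist_eq]
      simp only [dist_self]
      have h5 : dist y x ≤ δ₂ := by
        rw [dist_eq_norm]
        exact hxy.trans (min_le_right _ _)
      exact max_le hδ₂.le h5
    exact (h2 h4).le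

end Pool.Agent.Lib.MP_df705a_gt.Pin.A
end
end

section

/-!
# Ricci pinching, part A, AZ4: small balls
-/

open scoped Manifold ContDiff Topology
open Set Bundle Module Filter MeasureTheory

noncomputable section

set_option linter.unusedSectionVars false

namespace Pool.Agent.Lib.MP_df705a_gt.Pin.A

open Pool.Agent.Lib.MP_df705a_gt.Twist Pool.Agent.Lib.MP_df705a_gt.Perm
open Pool.Agent.Lib.MP_df705a_gt.Coll (trM ipM)
open Pool.Agent.Lib.MP_df705a_gt.Coll.T (ddC mat pull RM SmF)

variable {E : Type*} [NormedAddCommGroup E] [NormedSpace ℝ E] [FiniteDimensional ℝ E]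
  {h : Curv.Coeff E}

variable [MeasurableSpace E] [BorelSpace E]

/-- The volume of small balls. Proof: `uniform_near`; let `c` be the constant of `nm_compact` and
`r₀ = c r₁`. For `r ≤ r₀`, `x ∈ K` and `nm h x u < r / 2` the segment from `x` to `x + u` stays in
`‖y - x‖ ≤ r₁` and has speed at most `2 nm h x u < r`, so `dh h x (x + u) < r` (`dh_le_curve`). Hence
`vol h (ballh h x r) ≥ ∫⁻ over x + {nm h x u < r / 2} of √ det h ≥ (1 / 2) √ det h(x)
μ {nm h x u < r / 2} = (1 / 2) (r / 2)^n om E` (`tangent_ball`, translation invariance). -/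
theorem small_balls (hm : Curv.IsMetric h) {K : Set E} (hK : IsCompact K) :
    ∃ r₀ : ℝ, 0 < r₀ ∧ ∀ x ∈ K, ∀ r : ℝ, 0 < r → r ≤ r₀ →
      ENNReal.ofReal (1 / 2 * (r / 2) ^ finrank ℝ E) * om E ≤ vol h (ballh h x r) := by
  obtain ⟨r₁, hr₁, hnear⟩ := uniform_near hm hK
  obtain ⟨c, C, hc, -, hcC⟩ := nm_compact hm hK
  refine ⟨c * r₁, by positivity, fun x hx r hr hr0 => ?_⟩
  obtain ⟨S, hS⟩ : ∃ S : Set E, S = {v | nm h x v < r / 2} := ⟨_, rfl⟩
  obtain ⟨T, hT⟩ : ∃ T : Set E, T = (fun b => -x + b) ⁻¹' S := ⟨_, rfl⟩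
  have hnmc : Continuous fun u : E => nm h x u :=
    (nm_continuous hm).comp (Continuous.prodMk continuous_const continuous_id)
  have hSo : IsOpen S := by
    rw [hS]
    exact isOpen_lt hnmc continuous_const
  have hTm : MeasurableSet T := by
    rw [hT]
    exact (hSo.preimage (by fun_prop)).measurableSet
  have hnorm : ∀ u ∈ S, ‖u‖ ≤ r₁ := by
    intro u hu
    rw [hS] at hu
    have h1 : c * ‖u‖ ≤ nm h x u := (hcC x hx u).1
    have h2 : nm h x u < r / 2 := hu
    have h3 : c * ‖u‖ ≤ c * r₁ := by linarith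
    exact le_of_mul_le_mul_left h3 hc
  have hTsub : T ⊆ ballh h x r := by
    intro y hy
    rw [hT] at hy
    have hu : -x + y ∈ S := hy
    obtain ⟨u, hudef⟩ : ∃ u : E, u = -x + y := ⟨_, rfl⟩
    rw [← hudef] at hu
    have hyx : y = x + (1 : ℝ) • u := by rw [hudef, one_smul]; abel
    have h2 : nm h x u < r / 2 := by rw [hS] at hu; exact hu
    have h3 : dh h (x + (0 : ℝ) • u) (x + (1 : ℝ) • u) ≤ 2 * nm h x u * (1 - 0) := by
      refine dh_le_curve hm (g := fun t : ℝ => x + t • u) (g' := fun _ => u) zero_le_one ?_ ?_ ?_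
      · intro t _
        have h4 : HasDerivAt (fun t : ℝ => x + t • u) ((1 : ℝ) • u) t :=
          ((hasDerivAt_id t).smul_const u).const_add x
        rw [one_smul] at h4
        exact h4.hasDerivWithinAt
      · exact continuousOn_const
      · intro t ht
        have h5 : ‖(x + t • u) - x‖ ≤ r₁ := by
          rw [add_sub_cancel_left, norm_smul, Real.norm_eq_abs, abs_of_nonneg ht.1]
          calc t * ‖u‖ ≤ 1 * ‖u‖ := mul_le_mul_of_nonneg_right ht.2 (norm_nonneg _)
            _ ≤ r₁ := by rw [one_mul]; exact hnorm u hu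
        exact (hnear x hx _ h5).1 u
    change dh h x y < r
    rw [hyx]
    rw [zero_smul, add_zero] at h3
    linarith
  have hdet : ∀ y ∈ T, ENNReal.ofReal (√ (h x).det / 2) ≤ ENNReal.ofReal (√ (h y).det) := by
    intro y hy
    rw [hT] at hy
    have hu : -x + y ∈ S := hy
    have h5 : ‖y - x‖ ≤ r₁ := by
      have := hnorm _ hu
      rwa [neg_add_eq_sub] at this
    refine ENNReal.ofReal_le_ofReal ?_
    have := (hnear x hx y h5).2
    linarith
  have hTS : (finBasis ℝ E).addHaar T = (finBasis ℝ E).addHaar S := by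
    rw [hT]
    exact measure_preimage_add _ _ _
  have htb := tangent_ball hm x (r := r / 2) (by positivity)
  rw [← hS] at htb
  calc ENNReal.ofReal (1 / 2 * (r / 2) ^ finrank ℝ E) * om E
      = ENNReal.ofReal (1 / 2) * (ENNReal.ofReal ((r / 2) ^ finrank ℝ E) * om E) := by
        rw [ENNReal.ofReal_mul (by norm_num), mul_assoc]
    _ = ENNReal.ofReal (1 / 2) * ((finBasis ℝ E).addHaar S * ENNReal.ofReal (√ (h x).det)) := by rw [htb]
    _ = ENNReal.ofReal (√ (h x).det / 2) * (finBasis ℝ E).addHaar T := by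
        have h6 : √ (h x).det / 2 = 1 / 2 * √ (h x).det := by ring
        rw [hTS, h6, ENNReal.ofReal_mul (by norm_num)]
        ring
    _ = ∫⁻ _ in T, ENNReal.ofReal (√ (h x).det / 2) ∂(finBasis ℝ E).addHaar := by rw [setLIntegral_const]
    _ ≤ ∫⁻ y in T, ENNReal.ofReal (√ (h y).det) ∂(finBasis ℝ E).addHaar := setLIntegral_mono' hTm hdet
    _ = vol h T := by rw [vol, withDensity_apply _ hTm]
    _ ≤ vol h (ballh h x r) := measure_mono hTsub

end Pool.Agent.Lib.MP_df705a_gt.Pin.A
end
end

section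

/-!
# Ricci pinching, part A, AZ1a: images and volumes
-/

open scoped Manifold ContDiff Topology
open Set Bundle Module Filter MeasureTheory

noncomputable section

set_option linter.unusedSectionVars false

namespace Pool.Agent.Lib.MP_df705a_gt.Pin.A

open Pool.Agent.Lib.MP_df705a_gt.Twist Pool.Agent.Lib.MP_df705a_gt.Perm
open Pool.Agent.Lib.MP_df705a_gt.Coll (trM ipM)
open Pool.Agent.Lib.MP_df705a_gt.Coll.T (ddC mat pull RM SmF)

variable {E : Type*} [NormedAddCommGroup E] [NormedSpace ℝ E] [FiniteDimensional ℝ E]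
  {h : Curv.Coeff E}

variable {Ex : E → E → E} [MeasurableSpace E] [BorelSpace E]

/-- Proof: for a measurable set `A`, `μ (f '' s ∩ A) = μ (f '' (s ∩ f ⁻¹' A)) ≤
∫⁻ x in s ∩ f ⁻¹' A, |det f' x|` (`addHaar_image_le_lintegral_abs_det_fderiv`), that is
`μ.restrict (f '' s) ≤ ((μ.restrict s).withDensity |det f'|).map f` as measures; integrate `g`
(`lintegral_mono'`, `lintegral_map`, `lintegral_withDensity_eq_lintegral_mul`; the function
`x ↦ |(f' x).det|` is measurable since `f'` is continuous). -/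
theorem lintegral_image_le {f : E → E} (hf : ContDiff ℝ 1 f) {s : Set E} (hs : MeasurableSet s)
    {g : E → ENNReal} (hg : Measurable g) (μ : Measure E) [μ.IsAddHaarMeasure] :
    ∫⁻ y in f '' s, g y ∂μ ≤ ∫⁻ x in s, ENNReal.ofReal |(fderiv ℝ f x).det| * g (f x) ∂μ := by
  have hfd : ∀ x ∈ s, HasFDerivWithinAt f (fderiv ℝ f x) s x := fun x _ =>
    (hf.differentiable (by simp) x).hasFDerivAt.hasFDerivWithinAt
  have hfm : Measurable f := hf.continuous.measurable
  have hdet : Measurable (fun x => ENNReal.ofReal |(fderiv ℝ f x).det|) := by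
    have h1 : Continuous (fderiv ℝ f) := hf.continuous_fderiv (by simp)
    have h2 : Continuous (fun x => (fderiv ℝ f x).det) := ContinuousLinearMap.continuous_det.comp h1
    exact ENNReal.measurable_ofReal.comp h2.abs.measurable
  have hle : μ.restrict (f '' s) ≤
      ((μ.restrict s).withDensity (fun x => ENNReal.ofReal |(fderiv ℝ f x).det|)).map f := by
    rw [Measure.le_iff]
    intro A hA
    rw [Measure.restrict_apply hA, Measure.map_apply hfm hA, withDensity_apply _ (hfm hA),
      Measure.restrict_restrict (hfm hA)]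
    have h1 : A ∩ f '' s ⊆ f '' (f ⁻¹' A ∩ s) := by
      rintro y ⟨hyA, x, hx, rfl⟩
      exact ⟨x, ⟨hyA, hx⟩, rfl⟩
    refine (measure_mono h1).trans ?_
    exact addHaar_image_le_lintegral_abs_det_fderiv μ ((hfm hA).inter hs)
      (fun x hx => (hfd x hx.2).mono inter_subset_right)
  calc ∫⁻ y in f '' s, g y ∂μ
      ≤ ∫⁻ y, g y ∂(((μ.restrict s).withDensity
          (fun x => ENNReal.ofReal |(fderiv ℝ f x).det|)).map f) := lintegral_mono' hle le_rfl
    _ = ∫⁻ x, g (f x) ∂((μ.restrict s).withDensity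
          (fun x => ENNReal.ofReal |(fderiv ℝ f x).det|)) := lintegral_map hg hfm
    _ = ∫⁻ x in s, ENNReal.ofReal |(fderiv ℝ f x).det| * g (f x) ∂μ :=
        lintegral_withDensity_eq_lintegral_mul _ hdet (hg.comp hfm)

end Pool.Agent.Lib.MP_df705a_gt.Pin.A
end
end

section

/-!
# Ricci pinching, part A, AZ1: images and volumes
-/

open scoped Manifold ContDiff Topology
open Set Bundle Module Filter MeasureTheory

noncomputable section

set_option linter.unusedSectionVars false

namespace Pool.Agent.Lib.MP_df705a_gt.Pin.A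

open Pool.Agent.Lib.MP_df705a_gt.Twist Pool.Agent.Lib.MP_df705a_gt.Perm
open Pool.Agent.Lib.MP_df705a_gt.Coll (trM ipM)
open Pool.Agent.Lib.MP_df705a_gt.Coll.T (ddC mat pull RM SmF)

variable {E : Type*} [NormedAddCommGroup E] [NormedSpace ℝ E] [FiniteDimensional ℝ E]
  {h : Curv.Coeff E}

variable {Ex : E → E → E} [MeasurableSpace E] [BorelSpace E]

/-- The scaling `v ↦ t v`. Proof: `lintegral_map`/`Measure.map_addHaar_smul`, or
`lintegral_image_eq_lintegral_abs_det_fderiv_mul` for `v ↦ t v` (injective, determinant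
`t ^ n`). -/
theorem lintegral_smul_image {t : ℝ} (ht : 0 < t) {s : Set E} (hs : MeasurableSet s)
    (g : E → ENNReal) (μ : Measure E) [μ.IsAddHaarMeasure] :
    ∫⁻ w in (fun v => t • v) '' s, g w ∂μ =
      ENNReal.ofReal (t ^ finrank ℝ E) * ∫⁻ v in s, g (t • v) ∂μ := by
  have h1 : ∀ x ∈ s, HasFDerivWithinAt (fun v : E => t • v)
      (t • ContinuousLinearMap.id ℝ E) s x := fun x _ =>
    ((hasFDerivAt_id x).const_smul t).hasFDerivWithinAt
  have h2 : InjOn (fun v : E => t • v) s := fun x _ y _ hxy => smul_right_injective E ht.ne' hxy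
  rw [lintegral_image_eq_lintegral_abs_det_fderiv_mul μ hs h1 h2 g]
  have h3 : (t • ContinuousLinearMap.id ℝ E).det = t ^ finrank ℝ E := by
    rw [ContinuousLinearMap.det]
    have : ((t • ContinuousLinearMap.id ℝ E : E →L[ℝ] E) : E →ₗ[ℝ] E)
        = t • (LinearMap.id : E →ₗ[ℝ] E) := rfl
    rw [this, LinearMap.det_smul, LinearMap.det_id, mul_one]
  rw [h3, abs_of_pos (pow_pos ht _), lintegral_const_mul' _ _ ENNReal.ofReal_ne_top]

end Pool.Agent.Lib.MP_df705a_gt.Pin.A
end
end

section

/-!
# Ricci pinching, part A, AZ2: volumes in a tangent space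
-/

open scoped Manifold ContDiff Topology
open Set Bundle Module Filter MeasureTheory

noncomputable section

set_option linter.unusedSectionVars false

namespace Pool.Agent.Lib.MP_df705a_gt.Pin.A

open Pool.Agent.Lib.MP_df705a_gt.Twist Pool.Agent.Lib.MP_df705a_gt.Perm
open Pool.Agent.Lib.MP_df705a_gt.Coll (trM ipM)
open Pool.Agent.Lib.MP_df705a_gt.Coll.T (ddC mat pull RM SmF)

variable {E : Type*} [NormedAddCommGroup E] [NormedSpace ℝ E] [FiniteDimensional ℝ E]
  {h : Curv.Coeff E}

variable [MeasurableSpace E] [BorelSpace E]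

/-- Integration in a cone by means of integrals over rays.
Proof: let `U = {u ∈ C | R ≤ nm h p u ≤ 2 R}` and `k (λ, u) = f (λ u)` if `R / 2 ≤ nm h p (λ u) ≤ R`,
`0` otherwise. For every `λ > 0` the substitution `v = λ u` (`lintegral_smul_image`) gives
`∫⁻ u in U, k (λ, u) = λ ^ (-n) ∫⁻ v in {v ∈ C | λ R ≤ nm v ≤ 2 λ R, R/2 ≤ nm v ≤ R}, f v`, so by
Tonelli (`lintegral_lintegral_swap`)
`∫⁻ u in U, ∫⁻ λ in Icc (1/4) 1, k = ∫⁻ v in W, f v (∫⁻ λ in [nm v / (2 R), nm v / R], λ ^ (-n)) ≥
(1 / 4) ∫⁻ v in W, f v`, since the interval `[nm v / (2 R), nm v / R] ⊆ [1/4, 1]` has length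
`nm v / (2 R) ≥ 1/4` and `λ ≤ 1`. On the other hand for `u ∈ U`, `u = |u| e`, the substitution
`s = λ |u|` gives `∫⁻ λ, k (λ, u) = |u|⁻¹ ∫⁻ s in [R/2, R] ∩ .., f (s e) ≤ A / R`, and
`U ⊆ {nm h p < 4 R}` (`tangent_ball`). -/
theorem cone_integral (hm : Curv.IsMetric h) (p : E) {C : Set E} (hC : MeasurableSet C)
    (hcone : ∀ v ∈ C, ∀ t : ℝ, 0 < t → t • v ∈ C) {f : E → ENNReal} (hf : Measurable f)
    {R A : ℝ} (hR : 0 < R) (hA : 0 ≤ A)
    (hray : ∀ e ∈ C, nm h p e = 1 →
      ∫⁻ s in Icc (R / 2) R, f (s • e) ≤ ENNReal.ofReal A) :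
    (∫⁻ v in {v | v ∈ C ∧ R / 2 ≤ nm h p v ∧ nm h p v ≤ R}, f v ∂(finBasis ℝ E).addHaar) *
      ENNReal.ofReal (√ (h p).det) ≤
      ENNReal.ofReal (4 * (4 * R) ^ finrank ℝ E * A / R) * om E := by
  set μ : Measure E := (finBasis ℝ E).addHaar with hμ
  have hnmc : Continuous fun v : E => nm h p v :=
    (nm_continuous hm).comp (continuous_const.prodMk continuous_id)
  set G : Set E := {v | R / 2 ≤ nm h p v ∧ nm h p v ≤ R} with hG
  have hGm : MeasurableSet G :=
    ((isClosed_le continuous_const hnmc).inter (isClosed_le hnmc continuous_const)).measurableSet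
  set F : E → ENNReal := G.indicator f with hF
  have hFm : Measurable F := hf.indicator hGm
  set U : Set E := {u | u ∈ C ∧ R ≤ nm h p u ∧ nm h p u ≤ 2 * R} with hU
  have hUm : MeasurableSet U := hC.inter
    ((isClosed_le continuous_const hnmc).inter (isClosed_le hnmc continuous_const)).measurableSet
  set W : Set E := {v | v ∈ C ∧ R / 2 ≤ nm h p v ∧ nm h p v ≤ R} with hW
  have hWm : MeasurableSet W := hC.inter hGm
  set J : ENNReal := ∫⁻ l in Icc (1 / 4 : ℝ) 1, ∫⁻ u in U, F (l • u) ∂μ with hJ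
  have hlow : (∫⁻ v in W, f v ∂μ) * ENNReal.ofReal (1 / 4) ≤ J := by
    set V : ℝ → Set E := fun l => {w | w ∈ C ∧ l * R ≤ nm h p w ∧ nm h p w ≤ 2 * (l * R)} with hV
    have hVm : ∀ l, MeasurableSet (V l) := fun l => hC.inter
      ((isClosed_le continuous_const hnmc).inter
        (isClosed_le hnmc continuous_const)).measurableSet
    have h1 : ∀ l ∈ Icc (1 / 4 : ℝ) 1, ∫⁻ w, (V l).indicator F w ∂μ ≤
        ∫⁻ u in U, F (l • u) ∂μ := by
      intro l hl
      have hl0 : 0 < l := by linarith [hl.1]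
      rw [lintegral_indicator (hVm l)]
      have hsub : V l ⊆ (fun v : E => l • v) '' U := by
        rintro w ⟨hwC, hw1, hw2⟩
        refine ⟨l⁻¹ • w, ⟨hcone w hwC _ (inv_pos.mpr hl0), ?_, ?_⟩, ?_⟩
        · rw [nm_smul, abs_of_pos (inv_pos.mpr hl0), le_inv_mul_iff₀ hl0]
          exact hw1
        · rw [nm_smul, abs_of_pos (inv_pos.mpr hl0), inv_mul_le_iff₀ hl0]
          linarith
        · show l • l⁻¹ • w = w
          rw [smul_smul, mul_inv_cancel₀ hl0.ne', one_smul]
      calc ∫⁻ w in V l, F w ∂μ ≤ ∫⁻ w in (fun v : E => l • v) '' U, F w ∂μ :=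
            lintegral_mono_set hsub
        _ = ENNReal.ofReal (l ^ finrank ℝ E) * ∫⁻ v in U, F (l • v) ∂μ :=
            lintegral_smul_image hl0 hUm F μ
        _ ≤ 1 * ∫⁻ v in U, F (l • v) ∂μ := by
            gcongr
            exact ENNReal.ofReal_le_one.mpr (pow_le_one₀ hl0.le hl.2)
        _ = _ := one_mul _
    have h2 : ∫⁻ l in Icc (1 / 4 : ℝ) 1, ∫⁻ w, (V l).indicator F w ∂μ ≤ J :=
      setLIntegral_mono' measurableSet_Icc h1
    refine le_trans ?_ h2
    have hmeas : Measurable (Function.uncurry fun (l : ℝ) (w : E) => (V l).indicator F w) := by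
      have hset : MeasurableSet {q : ℝ × E | q.2 ∈ V q.1} := by
        have e1 : MeasurableSet {q : ℝ × E | q.2 ∈ C} := measurable_snd hC
        have e2 : MeasurableSet {q : ℝ × E | q.1 * R ≤ nm h p q.2} :=
          (isClosed_le (continuous_fst.mul continuous_const)
            (hnmc.comp continuous_snd)).measurableSet
        have e3 : MeasurableSet {q : ℝ × E | nm h p q.2 ≤ 2 * (q.1 * R)} :=
          (isClosed_le (hnmc.comp continuous_snd)
            (continuous_const.mul (continuous_fst.mul continuous_const))).measurableSet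
        exact e1.inter (e2.inter e3)
      exact (hFm.comp measurable_snd).indicator hset
    rw [lintegral_lintegral_swap hmeas.aemeasurable,
      ← lintegral_mul_const _ hf, ← lintegral_indicator hWm]
    apply lintegral_mono
    intro w
    by_cases hw : w ∈ W
    · rw [Set.indicator_of_mem hw]
      obtain ⟨hwC, hw1, hw2⟩ := hw
      have hFw : F w = f w := Set.indicator_of_mem (show w ∈ G from ⟨hw1, hw2⟩) f
      set a : ℝ := nm h p w / (2 * R) with ha
      set b : ℝ := nm h p w / R with hb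
      have hsub : Icc a b ⊆ Icc (1 / 4 : ℝ) 1 := by
        apply Icc_subset_Icc
        · rw [ha, div_le_div_iff₀ (by norm_num) (by positivity)]
          linarith
        · rw [hb, div_le_one hR]
          exact hw2
      calc f w * ENNReal.ofReal (1 / 4) ≤ f w * ENNReal.ofReal (b - a) := by
            gcongr
            have : b - a = nm h p w / (2 * R) := by rw [ha, hb]; field_simp; ring
            rw [this, div_le_div_iff₀ (by norm_num) (by positivity)]
            linarith
        _ = ∫⁻ _ in Icc a b, f w := by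
            rw [lintegral_const, Measure.restrict_apply MeasurableSet.univ, Set.univ_inter,
              Real.volume_Icc]
        _ = ∫⁻ l in Icc a b, (V l).indicator F w := by
            apply setLIntegral_congr_fun measurableSet_Icc
            intro l hl
            have hl1 : nm h p w ≤ l * (2 * R) := by
              have := hl.1
              rwa [ha, div_le_iff₀ (by positivity)] at this
            have hl2 : l * R ≤ nm h p w := by
              have := hl.2
              rwa [hb, le_div_iff₀ hR] at this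
            have hwV : w ∈ V l := ⟨hwC, hl2, by linarith⟩
            simp only
            rw [Set.indicator_of_mem hwV, hFw]
        _ ≤ ∫⁻ l in Icc (1 / 4 : ℝ) 1, (V l).indicator F w := lintegral_mono_set hsub
    · rw [Set.indicator_of_notMem hw]
      exact zero_le
  have hup : J ≤ ENNReal.ofReal (A / R) * μ U := by
    have hmeas : Measurable (Function.uncurry fun (l : ℝ) (u : E) => F (l • u)) :=
      hFm.comp (continuous_fst.smul continuous_snd).measurable
    rw [hJ, lintegral_lintegral_swap hmeas.aemeasurable]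
    have h1 : ∀ u ∈ U, ∫⁻ l in Icc (1 / 4 : ℝ) 1, F (l • u) ≤ ENNReal.ofReal (A / R) := by
      rintro u ⟨huC, hu1, hu2⟩
      set ρ : ℝ := nm h p u with hρ
      have hρ0 : 0 < ρ := hR.trans_le hu1
      set e : E := ρ⁻¹ • u with he
      have heC : e ∈ C := hcone u huC _ (inv_pos.mpr hρ0)
      have he1 : nm h p e = 1 := by
        rw [he, nm_smul, abs_of_pos (inv_pos.mpr hρ0), ← hρ, inv_mul_cancel₀ hρ0.ne']
      have hue : ∀ l : ℝ, l • u = (ρ • l) • e := by
        intro l
        rw [he, smul_smul, smul_eq_mul]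
        congr 1
        field_simp
      have h2 := lintegral_smul_image (E := ℝ) hρ0 (s := Icc (1 / 4 : ℝ) 1) measurableSet_Icc
        (fun s => F (s • e)) volume
      rw [finrank_self, pow_one] at h2
      have h3 : ∫⁻ w in (fun v : ℝ => ρ • v) '' Icc (1 / 4 : ℝ) 1, F (w • e)
          ≤ ENNReal.ofReal A := by
        refine le_trans ?_ (hray e heC he1)
        have himg : MeasurableSet ((fun v : ℝ => ρ • v) '' Icc (1 / 4 : ℝ) 1) := by
          have : IsCompact ((fun v : ℝ => ρ • v) '' Icc (1 / 4 : ℝ) 1) :=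
            isCompact_Icc.image (continuous_const_smul ρ)
          exact this.measurableSet
        rw [← lintegral_indicator himg, ← lintegral_indicator measurableSet_Icc]
        apply lintegral_mono
        intro w
        by_cases hw : w ∈ (fun v : ℝ => ρ • v) '' Icc (1 / 4 : ℝ) 1
        · rw [Set.indicator_of_mem hw]
          obtain ⟨l, hl, rfl⟩ := hw
          have hl0 : 0 < ρ • l := by
            rw [smul_eq_mul]
            have := hl.1
            exact mul_pos hρ0 (by linarith)
          by_cases hg : (ρ • l) • e ∈ G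
          · have hg' := hg
            obtain ⟨hg1, hg2⟩ := hg'
            rw [nm_smul, he1, mul_one, abs_of_pos hl0] at hg1 hg2
            have hin : (ρ • l) ∈ Icc (R / 2) R := ⟨hg1, hg2⟩
            simp only
            rw [Set.indicator_of_mem hin]
            exact le_of_eq (Set.indicator_of_mem hg f)
          · simp only
            rw [show F ((ρ • l) • e) = 0 from Set.indicator_of_notMem hg f]
            exact zero_le
        · rw [Set.indicator_of_notMem hw]
          exact zero_le
      have h4 : ∫⁻ l in Icc (1 / 4 : ℝ) 1, F (l • u)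
          = ∫⁻ l in Icc (1 / 4 : ℝ) 1, F ((ρ • l) • e) :=
        lintegral_congr (fun l => by rw [hue l])
      rw [h4]
      calc ∫⁻ l in Icc (1 / 4 : ℝ) 1, F ((ρ • l) • e)
          = ENNReal.ofReal ρ⁻¹ * (ENNReal.ofReal ρ *
              ∫⁻ l in Icc (1 / 4 : ℝ) 1, F ((ρ • l) • e)) := by
            rw [← mul_assoc, ← ENNReal.ofReal_mul (by positivity), inv_mul_cancel₀ hρ0.ne',
              ENNReal.ofReal_one, one_mul]
        _ ≤ ENNReal.ofReal ρ⁻¹ * ENNReal.ofReal A := by
            rw [← h2]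
            gcongr
        _ = ENNReal.ofReal (ρ⁻¹ * A) := (ENNReal.ofReal_mul (by positivity)).symm
        _ ≤ ENNReal.ofReal (A / R) := by
            apply ENNReal.ofReal_le_ofReal
            rw [← div_eq_inv_mul]
            exact div_le_div_of_nonneg_left hA hR hu1
    calc ∫⁻ u in U, (∫⁻ l in Icc (1 / 4 : ℝ) 1, F (l • u)) ∂μ
        ≤ ∫⁻ _ in U, ENNReal.ofReal (A / R) ∂μ := setLIntegral_mono' hUm h1
      _ = ENNReal.ofReal (A / R) * μ U := by
          rw [lintegral_const, Measure.restrict_apply MeasurableSet.univ, Set.univ_inter]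
  have hUball : μ U * ENNReal.ofReal (√ (h p).det)
      ≤ ENNReal.ofReal ((4 * R) ^ finrank ℝ E) * om E := by
    rw [← tangent_ball hm p (r := 4 * R) (by positivity)]
    have : U ⊆ {v | nm h p v < 4 * R} := by
      rintro u ⟨_, _, hu2⟩
      show nm h p u < 4 * R
      linarith
    gcongr
  have hchain : (∫⁻ v in W, f v ∂μ) * ENNReal.ofReal (1 / 4) ≤ ENNReal.ofReal (A / R) * μ U :=
    hlow.trans hup
  calc (∫⁻ v in W, f v ∂μ) * ENNReal.ofReal (√ (h p).det)
      = ENNReal.ofReal 4 * (((∫⁻ v in W, f v ∂μ) * ENNReal.ofReal (1 / 4)) *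
          ENNReal.ofReal (√ (h p).det)) := by
        have e1 : ENNReal.ofReal 4 * ENNReal.ofReal (1 / 4) = 1 := by
          rw [← ENNReal.ofReal_mul (by norm_num)]
          norm_num
        calc (∫⁻ v in W, f v ∂μ) * ENNReal.ofReal (√ (h p).det)
            = 1 * ((∫⁻ v in W, f v ∂μ) * ENNReal.ofReal (√ (h p).det)) := (one_mul _).symm
          _ = (ENNReal.ofReal 4 * ENNReal.ofReal (1 / 4)) *
                ((∫⁻ v in W, f v ∂μ) * ENNReal.ofReal (√ (h p).det)) := by rw [e1]
          _ = _ := by ring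
    _ ≤ ENNReal.ofReal 4 * ((ENNReal.ofReal (A / R) * μ U) * ENNReal.ofReal (√ (h p).det)) := by
        gcongr
    _ = ENNReal.ofReal 4 * ENNReal.ofReal (A / R) * (μ U * ENNReal.ofReal (√ (h p).det)) := by
        ring
    _ ≤ ENNReal.ofReal 4 * ENNReal.ofReal (A / R) *
          (ENNReal.ofReal ((4 * R) ^ finrank ℝ E) * om E) := by
        gcongr
    _ = ENNReal.ofReal (4 * (4 * R) ^ finrank ℝ E * A / R) * om E := by
        rw [← mul_assoc, ← ENNReal.ofReal_mul (by norm_num),
          ← ENNReal.ofReal_mul (by positivity)]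
        congr 2
        ring

end Pool.Agent.Lib.MP_df705a_gt.Pin.A
end
end

section

/-!
# Ricci pinching, part A, AZ2b: volumes in a tangent space
-/

open scoped Manifold ContDiff Topology
open Set Bundle Module Filter MeasureTheory

noncomputable section

set_option linter.unusedSectionVars false

namespace Pool.Agent.Lib.MP_df705a_gt.Pin.A

open Pool.Agent.Lib.MP_df705a_gt.Twist Pool.Agent.Lib.MP_df705a_gt.Perm
open Pool.Agent.Lib.MP_df705a_gt.Coll (trM ipM)
open Pool.Agent.Lib.MP_df705a_gt.Coll.T (ddC mat pull RM SmF)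

variable {E : Type*} [NormedAddCommGroup E] [NormedSpace ℝ E] [FiniteDimensional ℝ E]
  {h : Curv.Coeff E}

variable [MeasurableSpace E] [BorelSpace E]

/-- The volume of a slab. Proof: let `N = ⌈R / s⌉`, `R / s ≤ N ≤ 2 R / s`. The translates
`S + (3 s k) ξ`, `0 ≤ k < N`, of the set `S` are disjoint, since `bf h p · ξ` has values in
`[3 s k - s, 3 s k + s]` there, and contained in `{nm h p < 8 R}` (`nm_add_le`), because
`R + 3 s N ≤ 7 R`. So `N μ(S) ≤ μ {nm h p < 8 R}`, and `tangent_ball`. -/
theorem tangent_slab (hm : Curv.IsMetric h) (p : E) {ξ : E} (hξ : nm h p ξ = 1) {R s : ℝ}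
    (hs : 0 < s) (hsR : s ≤ R) :
    (finBasis ℝ E).addHaar {v | nm h p v ≤ R ∧ |bf h p v ξ| ≤ s} * ENNReal.ofReal (√ (h p).det) ≤
      ENNReal.ofReal (s / R * (8 * R) ^ finrank ℝ E) * om E := by
  have hR : 0 < R := hs.trans_le hsR
  set μ : Measure E := (finBasis ℝ E).addHaar with hμ
  set S : Set E := {v | nm h p v ≤ R ∧ |bf h p v ξ| ≤ s} with hS
  have hnmc : Continuous fun v : E => nm h p v :=
    (nm_continuous hm).comp (continuous_const.prodMk continuous_id)
  have hbfc : Continuous fun v : E => bf h p v ξ := ((bf h p).flip ξ).continuous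
  have hSm : MeasurableSet S :=
    ((isClosed_le hnmc continuous_const).inter
      (isClosed_le hbfc.abs continuous_const)).measurableSet
  have hξ1 : bf h p ξ ξ = 1 := by rw [← nm_sq hm, hξ, one_pow]
  set N : ℕ := ⌈R / s⌉₊ with hN
  have hRs : 0 < R / s := div_pos hR hs
  have hN1 : R / s ≤ N := Nat.le_ceil _
  have hN2 : (N : ℝ) < R / s + 1 := Nat.ceil_lt_add_one hRs.le
  set f : ℕ → Set E := fun k => (fun v : E => v + (-(3 * s * k)) • ξ) ⁻¹' S with hf
  have hfm : ∀ k, MeasurableSet (f k) := fun k => (measurable_add_const _) hSm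
  have hfμ : ∀ k, μ (f k) = μ S := fun k => measure_preimage_add_right μ _ S
  have hbf : ∀ (k : ℕ) (v : E), bf h p (v + (-(3 * s * k)) • ξ) ξ = bf h p v ξ - 3 * s * k := by
    intro k v
    rw [map_add, map_smul, _root_.add_apply, _root_.smul_apply, hξ1, smul_eq_mul]
    ring
  have hdisj : (↑(Finset.range N) : Set ℕ).PairwiseDisjoint f := by
    intro k _ l _ hkl
    rw [Function.onFun, Set.disjoint_left]
    intro v hv1 hv2
    have e1 : |bf h p (v + (-(3 * s * k)) • ξ) ξ| ≤ s := hv1.2
    have e2 : |bf h p (v + (-(3 * s * l)) • ξ) ξ| ≤ s := hv2.2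
    rw [hbf] at e1 e2
    rw [abs_le] at e1 e2
    rcases Nat.lt_or_gt_of_ne hkl with h1 | h1
    · have h2 : (k : ℝ) + 1 ≤ l := by exact_mod_cast h1
      nlinarith [e1.1, e1.2, e2.1, e2.2]
    · have h2 : (l : ℝ) + 1 ≤ k := by exact_mod_cast h1
      nlinarith [e1.1, e1.2, e2.1, e2.2]
  have hsub : (⋃ k ∈ Finset.range N, f k) ⊆ {v | nm h p v < 8 * R} := by
    intro v hv
    rw [Set.mem_iUnion₂] at hv
    obtain ⟨k, hk, hvk⟩ := hv
    rw [Finset.mem_range] at hk
    have hk1 : (k : ℝ) + 1 ≤ N := by exact_mod_cast hk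
    have hk2 : (k : ℝ) < R / s := by linarith
    have hk3 : (k : ℝ) * s < R := by rwa [lt_div_iff₀ hs] at hk2
    have hk0 : (0 : ℝ) ≤ k := Nat.cast_nonneg k
    have e1 : nm h p (v + (-(3 * s * k)) • ξ) ≤ R := hvk.1
    have e2 : v = (v + (-(3 * s * k)) • ξ) + (3 * s * k) • ξ := by
      rw [add_assoc, ← add_smul, neg_add_cancel, zero_smul, add_zero]
    have e3 : nm h p v ≤ R + 3 * s * k := by
      calc nm h p v = nm h p ((v + (-(3 * s * k)) • ξ) + (3 * s * k) • ξ) := by rw [← e2]
        _ ≤ nm h p (v + (-(3 * s * k)) • ξ) + nm h p ((3 * s * k) • ξ) := nm_add_le hm _ _ _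
        _ ≤ R + 3 * s * k := by
            rw [nm_smul, hξ, mul_one, abs_of_nonneg (by positivity)]
            linarith
    show nm h p v < 8 * R
    nlinarith
  have hsum : (N : ENNReal) * μ S ≤ μ {v | nm h p v < 8 * R} := by
    calc (N : ENNReal) * μ S = ∑ k ∈ Finset.range N, μ (f k) := by
          rw [Finset.sum_congr rfl (fun k _ => hfμ k), Finset.sum_const, Finset.card_range,
            nsmul_eq_mul]
      _ = μ (⋃ k ∈ Finset.range N, f k) :=
          (measure_biUnion_finset hdisj (fun k _ => hfm k)).symm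
      _ ≤ _ := measure_mono hsub
  have hball := tangent_ball hm p (r := 8 * R) (by positivity)
  have h1 : ENNReal.ofReal (R / s) * (μ S * ENNReal.ofReal (√ (h p).det))
      ≤ ENNReal.ofReal ((8 * R) ^ finrank ℝ E) * om E := by
    have h2 : ENNReal.ofReal (R / s) ≤ (N : ENNReal) := by
      rw [← ENNReal.ofReal_natCast]
      exact ENNReal.ofReal_le_ofReal hN1
    calc ENNReal.ofReal (R / s) * (μ S * ENNReal.ofReal (√ (h p).det))
        ≤ (N : ENNReal) * (μ S * ENNReal.ofReal (√ (h p).det)) := mul_le_mul_left h2 _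
      _ = ((N : ENNReal) * μ S) * ENNReal.ofReal (√ (h p).det) := (mul_assoc _ _ _).symm
      _ ≤ μ {v | nm h p v < 8 * R} * ENNReal.ofReal (√ (h p).det) := mul_le_mul_left hsum _
      _ = _ := hball
  calc μ S * ENNReal.ofReal (√ (h p).det)
      = ENNReal.ofReal (s / R) * (ENNReal.ofReal (R / s) *
          (μ S * ENNReal.ofReal (√ (h p).det))) := by
        rw [← mul_assoc, ← ENNReal.ofReal_mul (by positivity)]
        have : s / R * (R / s) = 1 := by field_simp
        rw [this, ENNReal.ofReal_one, one_mul]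
    _ ≤ ENNReal.ofReal (s / R) * (ENNReal.ofReal ((8 * R) ^ finrank ℝ E) * om E) :=
        mul_le_mul_right h1 _
    _ = ENNReal.ofReal (s / R * (8 * R) ^ finrank ℝ E) * om E := by
        rw [← mul_assoc, ← ENNReal.ofReal_mul (by positivity)]

end Pool.Agent.Lib.MP_df705a_gt.Pin.A
end
end
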