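import Pool.Agent.Lib.MP_df705a_gt.Mg.G069
import Pool.Agent.Lib.MP_df705a_gt.Mg.G066

section

/-!
# Ricci pinching, part A, AE1: properties of the exponential map
-/

open scoped Manifold ContDiff Topology
open Set Bundle Module Filter MeasureTheory

noncomputable section

set_option linter.unusedSectionVars false

namespace Pool.Agent.Lib.MP_df705a_gt.Pin.A

variable {E : Type*} [NormedAddCommGroup E] [NormedSpace ℝ E] [FiniteDimensional ℝ E]
  {h : Curv.Coeff E}

variable {Ex : E → E → E}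

theorem IsExp.hasDerivAt (hE : IsExp h Ex) (p v : E) (t : ℝ) :
    HasDerivAt (fun s : ℝ => Ex p (s • v)) (vel Ex p v t) t :=
  hasDerivAt_ex hE.smooth p v t

theorem IsExp.smooth_at (hE : IsExp h Ex) (p : E) : ContDiff ℝ ∞ (Ex p) := by
  have h1 : ContDiff ℝ ∞ fun v : E => ((p, v) : E × E) := contDiff_prodMk_right p
  exact hE.smooth.comp h1

theorem IsExp.vel_smooth (hE : IsExp h Ex) :
    ContDiff ℝ ∞ fun q : E × E × ℝ => vel Ex q.1 q.2.1 q.2.2 :=
  A.vel_smooth hE.smooth

theorem IsExp.fderiv_zero (hE : IsExp h Ex) (p : E) :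
    fderiv ℝ (Ex p) 0 = ContinuousLinearMap.id ℝ E := by
  ext v
  have h1 := hE.vel_zero p v
  unfold vel at h1
  rw [zero_smul] at h1
  simpa using h1

/-- Proof: `IsExp.hasDerivAt`, `IsExp.geo`, chain rule, `acc_smul`. -/
theorem IsExp.isGeo (hm : Curv.IsMetric h) (hE : IsExp h Ex) (p v : E) (s t b : ℝ) :
    IsGeo h (fun τ => Ex p ((s + τ * t) • v)) (fun τ => t • vel Ex p v (s + τ * t)) b := by
  intro τ _
  have h1 : HasDerivAt (fun τ : ℝ => s + τ * t) t τ := by
    have := ((hasDerivAt_id τ).mul_const t).const_add s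
    simpa using this
  have h2 := (hE.hasDerivAt p v (s + τ * t)).scomp τ h1
  have h3 := ((hE.geo p v (s + τ * t)).scomp τ h1).const_smul t
  refine ⟨h2.hasDerivWithinAt, ?_⟩
  have h4 : acc h (Ex p ((s + τ * t) • v)) (t • vel Ex p v (s + τ * t)) =
      t • t • acc h (Ex p ((s + τ * t) • v)) (vel Ex p v (s + τ * t)) := by
    rw [acc_smul hm, smul_smul, sq]
  rw [h4]
  exact h3.hasDerivWithinAt

/-- Proof: for `t ≥ 0` `IsGeo.energy` with `IsExp.isGeo p v 0 1 t`, `IsExp.vel_zero`,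
`IsExp.zero`; for `t < 0` replace `v` by `- v` (`vel_smul`). -/
theorem IsExp.energy (hm : Curv.IsMetric h) (hE : IsExp h Ex) (p v : E) (t : ℝ) :
    bf h (Ex p (t • v)) (vel Ex p v t) (vel Ex p v t) = bf h p v v := by
  have key : ∀ (w : E) (r : ℝ), 0 ≤ r →
      bf h (Ex p (r • w)) (vel Ex p w r) (vel Ex p w r) = bf h p w w := by
    intro w r hr
    have h1 := (hE.isGeo hm p w 0 1 r).energy hm (t := r) ⟨hr, le_rfl⟩
    simp only [zero_add, mul_one, one_smul, zero_smul, hE.vel_zero, hE.zero] at h1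
    exact h1
  rcases le_total 0 t with ht | ht
  · exact key v t ht
  · have h1 := key ((-1 : ℝ) • v) (-t) (by linarith)
    have h2 : (-t) • ((-1 : ℝ) • v) = t • v := by
      rw [smul_smul]; congr 1; ring
    rw [vel_smul, h2] at h1
    have h3 : (-t) * (-1 : ℝ) = t := by ring
    rw [h3] at h1
    simpa using h1

theorem IsExp.speed (hm : Curv.IsMetric h) (hE : IsExp h Ex) (p v : E) (t : ℝ) :
    nm h (Ex p (t • v)) (vel Ex p v t) = nm h p v := by
  rw [nm_eq, nm_eq, hE.energy hm]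

/-- Proof: differentiate `hE.flow p v s` in `t` (`IsExp.hasDerivAt`). -/
theorem IsExp.vel_flow (hE : IsExp h Ex) (p v : E) (s t : ℝ) :
    vel Ex (Ex p (s • v)) (vel Ex p v s) t = vel Ex p v (s + t) := by
  have h1 := hE.hasDerivAt (Ex p (s • v)) (vel Ex p v s) t
  have h2 : HasDerivAt (fun t : ℝ => Ex p ((s + t) • v)) (vel Ex p v (s + t)) t := by
    have h3 : HasDerivAt (fun t : ℝ => s + t) 1 t := (hasDerivAt_id t).const_add s
    have h4 := (hE.hasDerivAt p v (s + t)).scomp t h3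
    rw [one_smul] at h4
    exact h4
  have h3 : (fun t : ℝ => Ex (Ex p (s • v)) (t • vel Ex p v s)) = fun t : ℝ => Ex p ((s + t) • v) :=
    funext fun t => hE.flow p v s t
  rw [h3] at h1
  exact h1.unique h2

/-- Proof: for `s ≤ t` `IsGeo.dist` at the time `1` for `IsExp.isGeo p v s (t - s) 1`. -/
theorem IsExp.dist_le (hm : Curv.IsMetric h) (hE : IsExp h Ex) (p v : E) (s t : ℝ) :
    dh h (Ex p (s • v)) (Ex p (t • v)) ≤ |t - s| * nm h p v := by
  have h1 := (hE.isGeo hm p v s (t - s) 1).dist hm (t := 1) ⟨zero_le_one, le_rfl⟩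
  simp only [zero_mul, add_zero, one_mul, add_sub_cancel, mul_one] at h1
  rwa [nm_smul, hE.speed hm] at h1

theorem IsExp.dist_le_one (hm : Curv.IsMetric h) (hE : IsExp h Ex) (p v : E) :
    dh h p (Ex p v) ≤ nm h p v := by
  have h1 := hE.dist_le hm p v 0 1
  simpa [hE.zero] using h1

/-- Proof: `hE.flow p v 1 (-1)`. -/
theorem IsExp.rev (hE : IsExp h Ex) (p v : E) : Ex (Ex p v) (-vel Ex p v 1) = p := by
  have h1 := hE.flow p v 1 (-1)
  simpa [hE.zero] using h1

/-- Proof: `vel Ex (Ex p v) (-vel Ex p v 1) 1 = - vel Ex (Ex p v) (vel Ex p v 1) (-1) =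
- vel Ex p v 0 = - v` by `vel_smul` and `IsExp.vel_flow`. -/
theorem IsExp.rev_vel (hE : IsExp h Ex) (p v : E) :
    vel Ex (Ex p v) (-vel Ex p v 1) 1 = -v := by
  have h1 := vel_smul Ex (Ex p v) (vel Ex p v 1) (-1) 1
  have h2 := hE.vel_flow p v 1 (-1)
  rw [one_smul] at h2
  rw [one_mul, h2, add_neg_cancel, hE.vel_zero] at h1
  simpa using h1

/-- The geodesic flow is injective. Proof: `IsExp.rev` and `IsExp.rev_vel`. -/
theorem IsExp.injective (hE : IsExp h Ex) {p v p' v' : E} (h1 : Ex p v = Ex p' v')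
    (h2 : vel Ex p v 1 = vel Ex p' v' 1) : p = p' ∧ v = v' := by
  refine ⟨?_, ?_⟩
  · rw [← hE.rev p v, ← hE.rev p' v', h1, h2]
  · have h3 := hE.rev_vel p v
    have h4 := hE.rev_vel p' v'
    rw [h1, h2, h4] at h3
    exact (neg_injective h3).symm

end Pool.Agent.Lib.MP_df705a_gt.Pin.A
end
end

section

/-!
# Ricci pinching, part A, AN2: the inverse of the exponential map
-/

open scoped Manifold ContDiff Topology
open Set Bundle Module Filter MeasureTheory

noncomputable section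

set_option linter.unusedSectionVars false

namespace Pool.Agent.Lib.MP_df705a_gt.Pin.A

variable {E : Type*} [NormedAddCommGroup E] [NormedSpace ℝ E] [FiniteDimensional ℝ E]
  {h : Curv.Coeff E}

variable {Ex : E → E → E}

/-- The inverse of the exponential map on a normal ball. -/
def lg (h : Curv.Coeff E) (Ex : E → E → E) (p : E) (ε : ℝ) : E → E :=
  Function.invFunOn (Ex p) {v | nm h p v < ε}

theorem Nb.lg_ex {p : E} {ε : ℝ} (hN : Nb h Ex p ε) {v : E} (hv : nm h p v < ε) :
    lg h Ex p ε (Ex p v) = v :=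
  hN.inj.leftInvOn_invFunOn hv

theorem isOpen_nm_lt (hm : Curv.IsMetric h) (p : E) (r : ℝ) : IsOpen {v | nm h p v < r} := by
  have h1 : Continuous fun v : E => nm h p v :=
    (nm_continuous hm).comp (Continuous.prodMk_right p)
  exact isOpen_lt h1 continuous_const

/-- Proof: at every `v` in the set the derivative of the smooth map `Ex p` is invertible, so `Ex p`
maps neighbourhoods of `v` to neighbourhoods of `Ex p v` (`ContDiffAt.toOpenPartialHomeomorph` or
`HasStrictFDerivAt.map_nhds_eq_of_equiv`); the set `{v | nm h p v < r}` is open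
(`nm_continuous`). -/
theorem Nb.isOpen_image (hm : Curv.IsMetric h) (hE : IsExp h Ex) {p : E} {ε r : ℝ}
    (hN : Nb h Ex p ε) (hr : r ≤ ε) : IsOpen (Ex p '' {v | nm h p v < r}) := by
  rw [isOpen_iff_mem_nhds]
  rintro _ ⟨v, hv, rfl⟩
  have hdet := hN.reg v (lt_of_lt_of_le hv hr)
  have h1 : HasStrictFDerivAt (Ex p)
      ((fderiv ℝ (Ex p) v).toContinuousLinearEquivOfDetNeZero hdet : E →L[ℝ] E) v := by
    rw [ContinuousLinearMap.coe_toContinuousLinearEquivOfDetNeZero]
    exact (hE.smooth_at p).contDiffAt.hasStrictFDerivAt (by simp)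
  rw [← h1.map_nhds_eq_of_equiv]
  exact Filter.image_mem_map ((isOpen_nm_lt hm p r).mem_nhds hv)

/-- Proof: the local inverse of `Ex p` at `v` (inverse function theorem, smooth:
`ContDiffAt.to_localInverse`) has values in the open set `{nm h p < ε}` near `Ex p v`, so it
equals `lg` near `Ex p v` by injectivity (`Nb.lg_ex`). -/
theorem Nb.lg_smooth (hm : Curv.IsMetric h) (hE : IsExp h Ex) {p : E} {ε : ℝ}
    (hN : Nb h Ex p ε) {v : E} (hv : nm h p v < ε) :
    ContDiffAt ℝ ∞ (lg h Ex p ε) (Ex p v) := by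
  have hdet := hN.reg v hv
  have hc : ContDiffAt ℝ ∞ (Ex p) v := (hE.smooth_at p).contDiffAt
  have h1 : HasFDerivAt (Ex p)
      ((fderiv ℝ (Ex p) v).toContinuousLinearEquivOfDetNeZero hdet : E →L[ℝ] E) v := by
    rw [ContinuousLinearMap.coe_toContinuousLinearEquivOfDetNeZero]
    exact (hc.differentiableAt (by simp)).hasFDerivAt
  have h2 := hc.to_localInverse h1 (by simp)
  refine h2.congr_of_eventuallyEq ?_
  have h3 := hc.hasStrictFDerivAt' h1 (by simp)
  refine h3.localInverse_unique (g := lg h Ex p ε) ?_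
  filter_upwards [(isOpen_nm_lt hm p ε).mem_nhds hv] with x hx
  exact hN.lg_ex hx

/-- The chain rule for `lg (Ex p v) = v`. -/
theorem Nb.lg_fderiv (hm : Curv.IsMetric h) (hE : IsExp h Ex) {p : E} {ε : ℝ}
    (hN : Nb h Ex p ε) {v : E} (hv : nm h p v < ε) (u : E) :
    fderiv ℝ (lg h Ex p ε) (Ex p v) (fderiv ℝ (Ex p) v u) = u := by
  have h1 : HasFDerivAt (lg h Ex p ε) (fderiv ℝ (lg h Ex p ε) (Ex p v)) (Ex p v) :=
    ((hN.lg_smooth hm hE hv).differentiableAt (by simp)).hasFDerivAt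
  have h2 : HasFDerivAt (Ex p) (fderiv ℝ (Ex p) v) v :=
    ((hE.smooth_at p).differentiable (by simp)).differentiableAt.hasFDerivAt
  have h3 := h1.comp v h2
  have h4 : HasFDerivAt (lg h Ex p ε ∘ Ex p) (ContinuousLinearMap.id ℝ E) v := by
    refine (hasFDerivAt_id v).congr_of_eventuallyEq ?_
    filter_upwards [(isOpen_nm_lt hm p ε).mem_nhds hv] with x hx
    exact hN.lg_ex hx
  have h5 := h3.unique h4
  exact DFunLike.congr_fun h5 u

end Pool.Agent.Lib.MP_df705a_gt.Pin.A
end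
end

section

/-!
# Ricci pinching, part A, AN1: uniform normal radii
-/

open scoped Manifold ContDiff Topology
open Set Bundle Module Filter MeasureTheory

noncomputable section

set_option linter.unusedSectionVars false

namespace Pool.Agent.Lib.MP_df705a_gt.Pin.A

variable {E : Type*} [NormedAddCommGroup E] [NormedSpace ℝ E] [FiniteDimensional ℝ E]
  {h : Curv.Coeff E}

variable {Ex : E → E → E}

/-- Proof: `(p, v) ↦ fderiv (Ex p) v` is continuous (it is
`(fderiv (fun q => Ex q.1 q.2) (p, v)).comp (inr)`) and equal to `id` at `v = 0`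
(`IsExp.fderiv_zero`); the set of `(p, v)` with `‖fderiv (Ex p) v - id‖ < 1 / 2` is open and
contains the compact set `K × {0}`: tube lemma (`generalized_tube_lemma` or
`IsCompact.exists_thickening_subset_open`). -/
theorem IsExp.exists_radius (hE : IsExp h Ex) {K : Set E} (hK : IsCompact K) :
    ∃ ε : ℝ, 0 < ε ∧ ∀ p ∈ K, ∀ v : E, ‖v‖ < ε →
      ‖fderiv ℝ (Ex p) v - ContinuousLinearMap.id ℝ E‖ ≤ 1 / 2 := by
  have hd : Differentiable ℝ fun q : E × E => Ex q.1 q.2 := hE.smooth.differentiable (by simp)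
  have h1 : ∀ q : E × E, fderiv ℝ (Ex q.1) q.2 =
      (fderiv ℝ (fun q : E × E => Ex q.1 q.2) q).comp (ContinuousLinearMap.inr ℝ E E) := by
    intro q
    have h2 : HasFDerivAt (fun v : E => ((q.1, v) : E × E)) (ContinuousLinearMap.inr ℝ E E) q.2 :=
      hasFDerivAt_prodMk_right q.1 q.2
    have h3 : HasFDerivAt (fun q : E × E => Ex q.1 q.2)
        (fderiv ℝ (fun q : E × E => Ex q.1 q.2) q) (q.1, q.2) := (hd q).hasFDerivAt
    exact (h3.comp q.2 h2).fderiv
  have hc : Continuous fun q : E × E => fderiv ℝ (Ex q.1) q.2 := by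
    simp only [h1]
    exact (hE.smooth.continuous_fderiv (by simp)).clm_comp continuous_const
  have hc2 : Continuous fun q : E × E =>
      ‖fderiv ℝ (Ex q.1) q.2 - ContinuousLinearMap.id ℝ E‖ := (hc.sub continuous_const).norm
  obtain ⟨u, v, -, hv, hu2, hv2, huv⟩ := generalized_tube_lemma hK
    (isCompact_singleton (x := (0 : E)))
    (n := {q : E × E | ‖fderiv ℝ (Ex q.1) q.2 - ContinuousLinearMap.id ℝ E‖ < 1 / 2})
    (isOpen_lt hc2 continuous_const) (by
      rintro ⟨p, w⟩ ⟨-, hw⟩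
      simp only [mem_singleton_iff] at hw
      subst hw
      show ‖fderiv ℝ (Ex p) 0 - ContinuousLinearMap.id ℝ E‖ < 1 / 2
      rw [hE.fderiv_zero, sub_self, norm_zero]
      norm_num)
  obtain ⟨ε, hε, hb⟩ := Metric.isOpen_iff.1 hv 0 (hv2 rfl)
  refine ⟨ε, hε, fun p hp w hw => ?_⟩
  have hmem : ((p, w) : E × E) ∈ u ×ˢ v := ⟨hu2 hp, hb (by simpa using hw)⟩
  exact le_of_lt (huv hmem)

/-- Proof: with `ε` of `IsExp.exists_radius` the map `Ex p - id` is `1/2`-Lipschitz on the ball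
`‖v‖ < ε` (`Convex.norm_image_sub_le_of_norm_fderiv_le`), so `Ex p` is injective there; an
endomorphism `A` with `‖A - id‖ ≤ 1 / 2` is injective, so its determinant is not zero
(`LinearMap.det` / `ContinuousLinearMap.det`, `LinearMap.equivOfDetNeZero`,
`LinearMap.bot_lt_ker_of_det_eq_zero`). By `nm_compact` `nm h p v < c ε` implies `‖v‖ < ε` for
`p ∈ K`. -/
theorem IsExp.exists_nb (hm : Curv.IsMetric h) (hE : IsExp h Ex) {K : Set E} (hK : IsCompact K) :
    ∃ ε : ℝ, 0 < ε ∧ ∀ p ∈ K, Nb h Ex p ε := by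
  obtain ⟨ε, hε, hb⟩ := hE.exists_radius hK
  obtain ⟨c, C, hc, -, hcC⟩ := nm_compact hm hK
  refine ⟨c * ε, by positivity, fun p hp => ⟨by positivity, ?_, ?_⟩⟩
  · have hlt : ∀ v, nm h p v < c * ε → v ∈ Metric.ball (0 : E) ε := by
      intro v hv
      have h1 := (hcC p hp v).1
      have h2 : ‖v‖ < ε := lt_of_mul_lt_mul_left (h1.trans_lt hv) hc.le
      simpa using h2
    intro v hv w hw hvw
    have hv' := hlt v hv
    have hw' := hlt w hw
    have h1 := Convex.norm_image_sub_le_of_norm_hasFDerivWithin_le' (f := Ex p)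
      (f' := fun x => fderiv ℝ (Ex p) x) (s := Metric.ball (0 : E) ε) (C := 1 / 2)
      (φ := ContinuousLinearMap.id ℝ E) (x := v) (y := w)
      (fun x _ => ((hE.smooth_at p).differentiable (by simp)
        |>.differentiableAt.hasFDerivAt.hasFDerivWithinAt))
      (fun x hx => hb p hp x (by simpa using hx)) (convex_ball _ _) hv' hw'
    have h2 : Ex p v = Ex p w := hvw
    rw [h2, sub_self, zero_sub, norm_neg, ContinuousLinearMap.id_apply] at h1
    have h3 : ‖w - v‖ ≤ 0 := by linarith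
    have h4 : w - v = 0 := norm_le_zero_iff.1 h3
    exact (sub_eq_zero.1 h4).symm
  · intro v hv hdet
    have h1 := (hcC p hp v).1
    have h2 : ‖v‖ < ε := lt_of_mul_lt_mul_left (h1.trans_lt hv) hc.le
    have h3 := hb p hp v h2
    have h4 : LinearMap.det (fderiv ℝ (Ex p) v : E →ₗ[ℝ] E) = 0 := hdet
    obtain ⟨x, hx, hx0⟩ := SetLike.exists_of_lt (LinearMap.bot_lt_ker_of_det_eq_zero h4)
    have h5 : fderiv ℝ (Ex p) v x = 0 := hx
    have h6 := (fderiv ℝ (Ex p) v - ContinuousLinearMap.id ℝ E).le_opNorm x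
    rw [_root_.sub_apply, h5, ContinuousLinearMap.id_apply, zero_sub, norm_neg] at h6
    have h7 : ‖x‖ ≤ 1 / 2 * ‖x‖ := h6.trans (mul_le_mul_of_nonneg_right h3 (norm_nonneg x))
    have h8 : ‖x‖ ≤ 0 := by linarith
    exact hx0 (by simpa using h8)

theorem Nb.mono {p : E} {ε ε' : ℝ} (hN : Nb h Ex p ε) (h0 : 0 < ε') (h1 : ε' ≤ ε) :
    Nb h Ex p ε' :=
  ⟨h0, hN.inj.mono fun _ hv => lt_of_lt_of_le hv h1, fun v hv => hN.reg v (hv.trans_le h1)⟩

end Pool.Agent.Lib.MP_df705a_gt.Pin.A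
end
end

section

/-!
# Ricci pinching, part A, AS1a: shortest geodesics
-/

open scoped Manifold ContDiff Topology
open Set Bundle Module Filter MeasureTheory

noncomputable section

set_option linter.unusedSectionVars false

namespace Pool.Agent.Lib.MP_df705a_gt.Pin.A

variable {E : Type*} [NormedAddCommGroup E] [NormedSpace ℝ E] [FiniteDimensional ℝ E]
  {h : Curv.Coeff E}

variable {Ex : E → E → E}

/-- Proof: for `0 ≤ s ≤ t ≤ 1` the three parts of the geodesic have lengths at most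
`s nm h p v`, `(t - s) nm h p v`, `(1 - t) nm h p v` (`IsExp.dist_le`), and the sum of the three
distances is at least `dh h p (Ex p v) = nm h p v`. -/
theorem Seg.dist (hm : Curv.IsMetric h) (hE : IsExp h Ex) {p v : E} (hv : Seg h Ex p v) {s t : ℝ}
    (hs : 0 ≤ s) (hst : s ≤ t) (ht : t ≤ 1) :
    dh h (Ex p (s • v)) (Ex p (t • v)) = (t - s) * nm h p v := by
  have h1 := hE.dist_le hm p v 0 s
  have h2 := hE.dist_le hm p v s t
  have h3 := hE.dist_le hm p v t 1
  rw [zero_smul, hE.zero, sub_zero, abs_of_nonneg hs] at h1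
  rw [abs_of_nonneg (sub_nonneg.2 hst)] at h2
  rw [one_smul, abs_of_nonneg (sub_nonneg.2 ht)] at h3
  have h4 := dh_triangle hm p (Ex p (s • v)) (Ex p v)
  have h5 := dh_triangle hm (Ex p (s • v)) (Ex p (t • v)) (Ex p v)
  have h6 : dh h p (Ex p v) = nm h p v := hv
  apply le_antisymm h2
  linarith

theorem Seg.smul (hm : Curv.IsMetric h) (hE : IsExp h Ex) {p v : E} (hv : Seg h Ex p v) {t : ℝ}
    (ht : t ∈ Icc (0 : ℝ) 1) : Seg h Ex p (t • v) := by
  have h1 := Seg.dist hm hE hv le_rfl ht.1 ht.2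
  rw [zero_smul, hE.zero, sub_zero] at h1
  unfold Seg
  rw [h1, nm_smul, abs_of_nonneg ht.1]

theorem isClosed_seg (hm : Curv.IsMetric h) (hE : IsExp h Ex) :
    IsClosed {q : E × E | Seg h Ex q.1 q.2} := by
  have h1 : Continuous fun q : E × E => dh h q.1 (Ex q.1 q.2) :=
    (dh_continuous hm).comp (continuous_fst.prodMk hE.smooth.continuous)
  exact isClosed_eq h1 (nm_continuous hm)

/-- Proof: `IsExp.rev`, `IsExp.speed`, `nm_smul`, `dh_comm`. -/
theorem Seg.rev (hm : Curv.IsMetric h) (hE : IsExp h Ex) {p v : E} (hv : Seg h Ex p v) :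
    Seg h Ex (Ex p v) (-vel Ex p v 1) := by
  have h1 : dh h p (Ex p v) = nm h p v := hv
  have h2 := hE.speed hm p v 1
  rw [one_smul] at h2
  have h3 : nm h (Ex p v) (-vel Ex p v 1) = nm h (Ex p v) (vel Ex p v 1) := by
    have h4 := nm_smul h (Ex p v) (-1) (vel Ex p v 1)
    rw [neg_one_smul, abs_neg, abs_one, one_mul] at h4
    exact h4
  unfold Seg
  rw [hE.rev, h3, h2, ← h1]
  exact dh_comm hm _ _

end Pool.Agent.Lib.MP_df705a_gt.Pin.A
end
end
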