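import Pool.Agent.Lib.MP_df705a_gt.Mg.G061
import Pool.Agent.Lib.MP_df705a_gt.Mg.G060
import Pool.Agent.Lib.MP_df705a_gt.Pin.GDefs
import Pool.Agent.Lib.MP_df705a_gt.Mg.G059
import Pool.Agent.Lib.MP_df705a_gt.Pin.AE2
import Pool.Agent.Lib.MP_df705a_gt.Mg.G070
import Pool.Agent.Lib.MP_df705a_gt.Mg.G066

section

/-!
# TASK GD: the pulled back metric in adapted coordinates
-/

open scoped Manifold ContDiff Topology
open Set Bundle Module Filter MeasureTheory

noncomputable section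

namespace Pool.Agent.Lib.MP_df705a_gt.Pin

open Pool.Agent.Lib.MP_df705a_gt.Twist Pool.Agent.Lib.MP_df705a_gt.Twist.Alg
open Pool.Agent.Lib.MP_df705a_gt.Perm
open Pool.Agent.Lib.MP_df705a_gt.Circ (cf Para)
open Pool.Agent.Lib.MP_df705a_gt.Coll (Met)
open Pool.Agent.Lib.MP_df705a_gt.Coll.T (mat)

variable {E' : Type*} [NormedAddCommGroup E'] [NormedSpace ℝ E'] [FiniteDimensional ℝ E']
  {E : Type*} [NormedAddCommGroup E] [NormedSpace ℝ E] [FiniteDimensional ℝ E]
  {F : Type*} [NormedAddCommGroup F] [InnerProductSpace ℝ F] [FiniteDimensional ℝ F]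
  {M : Type*} [TopologicalSpace M] [ChartedSpace E M] [IsManifold 𝓘(ℝ, E) ∞ M]
  {q : E' → M} {s : E' → F}

/-- The map `q` read in the preferred chart at `q y`. -/
def tq (E : Type*) [NormedAddCommGroup E] [NormedSpace ℝ E] {M : Type*}
    [TopologicalSpace M] [ChartedSpace E M] (q : E' → M) (y z : E') : E :=
  extChartAt 𝓘(ℝ, E) (q y) (q z)

theorem GD_near (hq : ContMDiff 𝓘(ℝ, E') 𝓘(ℝ, E) ∞ q) (y : E') :
    ∀ᶠ z in 𝓝 y, q z ∈ (extChartAt 𝓘(ℝ, E) (q y)).source :=
  (hq.continuous.continuousAt (x := y)).eventually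
    (extChartAt_source_mem_nhds (I := 𝓘(ℝ, E)) (q y))

theorem GD_contDiffAt (hq : ContMDiff 𝓘(ℝ, E') 𝓘(ℝ, E) ∞ q) {y z : E'}
    (hz : q z ∈ (extChartAt 𝓘(ℝ, E) (q y)).source) : ContDiffAt ℝ ∞ (tq E q y) z := by
  rw [extChartAt_source] at hz
  have h1 : ContMDiffAt 𝓘(ℝ, E) 𝓘(ℝ, E) ∞ (extChartAt 𝓘(ℝ, E) (q y)) (q z) :=
    contMDiffAt_extChartAt' hz
  have h2 : ContMDiffAt 𝓘(ℝ, E') 𝓘(ℝ, E) ∞ (extChartAt 𝓘(ℝ, E) (q y) ∘ q) z :=
    ContMDiffAt.comp z h1 (hq z)
  exact h2.contDiffAt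

theorem contDiffAt_tq (hq : ContMDiff 𝓘(ℝ, E') 𝓘(ℝ, E) ∞ q) (y : E') :
    ContDiffAt ℝ ∞ (tq E q y) y :=
  GD_contDiffAt hq (mem_extChartAt_source (q y))

/-- The differential of `q` in terms of the chart (compare `Circ.I2.deriv_eq` in Circ/ParaInv.lean; the
proof there does not use bijectivity). -/
theorem deriv_tq (hq : ContMDiff 𝓘(ℝ, E') 𝓘(ℝ, E) ∞ q) (y : E') :
    ∀ᶠ z in 𝓝 y, ∀ v : E', (mfderiv 𝓘(ℝ, E') 𝓘(ℝ, E) q z : E' →L[ℝ] E) v =
      (mfderiv 𝓘(ℝ, E) 𝓘(ℝ, E) (extChartAt 𝓘(ℝ, E) (q y)).symm (tq E q y z) : E →L[ℝ] E)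
        (fderiv ℝ (tq E q y) z v) := by
  filter_upwards [(GD_near hq y).eventually_nhds] with x hx
  intro v
  have hx0 := hx.self_of_nhds
  have h1 : q =ᶠ[𝓝 x] (extChartAt 𝓘(ℝ, E) (q y)).symm ∘ tq E q y := by
    filter_upwards [hx] with z hz
    exact ((extChartAt 𝓘(ℝ, E) (q y)).left_inv hz).symm
  have ht : tq E q y x ∈ (extChartAt 𝓘(ℝ, E) (q y)).target :=
    (extChartAt 𝓘(ℝ, E) (q y)).map_source hx0
  have h2 : MDifferentiableAt 𝓘(ℝ, E') 𝓘(ℝ, E) (tq E q y) x :=
    ((GD_contDiffAt hq hx0).differentiableAt (by simp)).mdifferentiableAt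
  have h3 := mfderiv_comp (I := 𝓘(ℝ, E')) (I' := 𝓘(ℝ, E)) (I'' := 𝓘(ℝ, E)) x
    (symm_mdiff 𝓘(ℝ, E) (q y) ht) h2
  have h4 : mfderiv 𝓘(ℝ, E') 𝓘(ℝ, E) (tq E q y) x = fderiv ℝ (tq E q y) x := mfderiv_eq_fderiv
  rw [h1.mfderiv_eq, h3, h4]
  rfl

/-- At the point `y` itself the differential of `q`, as a map `E' → E` (the tangent space of `M` at
`q y` is `E` by the preferred chart), is the differential of `tq`. -/
theorem mfderiv_eq_tq (hq : ContMDiff 𝓘(ℝ, E') 𝓘(ℝ, E) ∞ q) (y v : E') :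
    (mfderiv 𝓘(ℝ, E') 𝓘(ℝ, E) q y : E' →L[ℝ] E) v = fderiv ℝ (tq E q y) y v := by
  have h1 : MDifferentiableAt 𝓘(ℝ, E') 𝓘(ℝ, E) q y := (hq y).mdifferentiableAt (by simp)
  rw [h1.mfderiv]
  simp only [writtenInExtChartAt, extChartAt_model_space_eq_id, PartialEquiv.refl_symm,
    PartialEquiv.refl_coe, modelWithCornersSelf_coe, Set.range_id, id_eq, fderivWithin_univ,
    Function.comp_id]
  rfl

/-- The coefficients of `st` in terms of the coefficients of `g` in the chart (compare `Circ.I2.law`). -/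
theorem st_law (g : Met E M) (hq : ContMDiff 𝓘(ℝ, E') 𝓘(ℝ, E) ∞ q) (s : E' → F) (y : E') :
    ∀ᶠ z in 𝓝 y, ∀ i j, st g q s z i j =
      fB (coeff g (q y)) (tq E q y z) (fderiv ℝ (tq E q y) z (finBasis ℝ E' i))
        (fderiv ℝ (tq E q y) z (finBasis ℝ E' j)) +
      inner ℝ (fderiv ℝ s z (finBasis ℝ E' i)) (fderiv ℝ s z (finBasis ℝ E' j)) := by
  filter_upwards [GD_near hq y, deriv_tq hq y] with x hx hx'
  intro i j
  unfold st
  congr 1
  have h1 : ∀ u v : E, fB (coeff g (q y)) (tq E q y x) u v =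
      mform 𝓘(ℝ, E) g (q y) (tq E q y x) u v := by
    intro u v
    rw [← Circ.I2.mB_coeff]
    exact mkB_apply _ _ _ _
  rw [h1, mform_apply]
  have e3 : ∀ x' : M, x' = q x → ∀ v' w' v w : E, v' = v → w' = w →
      g.inner x' v' w' = g.inner (q x) v w := by
    rintro _ rfl _ _ _ _ rfl rfl
    rfl
  exact (e3 _ ((extChartAt 𝓘(ℝ, E) (q y)).left_inv hx) _ _ _ _ (hx' _).symm (hx' _).symm).symm

/-- **Adapted coordinates.** Proof: `(Dτ, Ds) : E' → E × F` is bijective at `y` (`bij`,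
`mfderiv_eq_tq`), so `finrank E' = finrank (E × F)`; let `Λ : (E × F) ≃L[ℝ] E'` be this
differential's inverse (or any linear equivalence), `ψ z = Λ (tq z, s z)`,
`P = fst ∘ Λ.symm`, `S = snd ∘ Λ.symm`. Then `P (ψ z) = tq z`, `P (Dψ v) = D tq v`,
`S (Dψ v) = D s v`, and the law is `st_law` and `law_apply`-like bilinear algebra
(`(mat L)ᵀ * H * mat L` has the entries `fB-form of H (L e i) (L e j)`, see `Coll.T.L3Aux.form_law`). -/
theorem exists_adapted_coord (g : Met E M) (H : StableCover E q s) (y : E') :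
    ∃ (ψ : E' → E') (P : E' →L[ℝ] E) (S : E' →L[ℝ] F), ContDiffAt ℝ ∞ ψ y ∧
      (fderiv ℝ ψ y).det ≠ 0 ∧ (Function.Bijective fun v : E' => (P v, S v)) ∧
      (∀ᶠ z in 𝓝 y, P (ψ z) = tq E q y z) ∧
      (∀ v, P (fderiv ℝ ψ y v) = fderiv ℝ (tq E q y) y v) ∧
      (∀ v, S (fderiv ℝ ψ y v) = fderiv ℝ s y v) ∧
      ∀ᶠ z in 𝓝 y, st g q s z =
        (mat (fderiv ℝ ψ z)).transpose * lin (coeff g (q y)) P S (ψ z) * mat (fderiv ℝ ψ z) := by
  have hq := H.smooth_q
  have hs := H.smooth_s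
  let A : E' →L[ℝ] E × F := (fderiv ℝ (tq E q y) y).prod (fderiv ℝ s y)
  have hA : Function.Bijective A := by
    have h1 := H.bij y
    have h2 : (fun v : E' => ((mfderiv 𝓘(ℝ, E') 𝓘(ℝ, E) q y v : E), fderiv ℝ s y v)) = A := by
      funext v
      exact Prod.ext (mfderiv_eq_tq hq y v) rfl
    rw [h2] at h1
    exact h1
  let Λ₀ : E' ≃ₗ[ℝ] E × F := LinearEquiv.ofBijective (A : E' →ₗ[ℝ] E × F) hA
  let Λ : E' ≃L[ℝ] E × F := Λ₀.toContinuousLinearEquiv
  have hΛ : ∀ v, Λ v = A v := fun v => rfl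
  let ψ : E' → E' := fun z => Λ.symm (tq E q y z, s z)
  let P : E' →L[ℝ] E := (ContinuousLinearMap.fst ℝ E F).comp (Λ : E' →L[ℝ] E × F)
  let S : E' →L[ℝ] F := (ContinuousLinearMap.snd ℝ E F).comp (Λ : E' →L[ℝ] E × F)
  have hP : ∀ v, P v = (Λ v).1 := fun v => rfl
  have hS : ∀ v, S v = (Λ v).2 := fun v => rfl
  have hPψ : ∀ z, P (ψ z) = tq E q y z := by
    intro z
    rw [hP]
    show (Λ (Λ.symm (tq E q y z, s z))).1 = _
    rw [Λ.apply_symm_apply]
  have hder : ∀ z, q z ∈ (extChartAt 𝓘(ℝ, E) (q y)).source →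
      HasFDerivAt ψ ((Λ.symm : E × F →L[ℝ] E').comp
        ((fderiv ℝ (tq E q y) z).prod (fderiv ℝ s z))) z := by
    intro z hz
    have h1 : HasFDerivAt (tq E q y) (fderiv ℝ (tq E q y) z) z :=
      ((GD_contDiffAt hq hz).differentiableAt (by simp)).hasFDerivAt
    have h2 : HasFDerivAt s (fderiv ℝ s z) z :=
      ((hs.contDiffAt (x := z)).differentiableAt (by simp)).hasFDerivAt
    exact (Λ.symm : E × F →L[ℝ] E').hasFDerivAt.comp z (h1.prodMk h2)
  have hPd : ∀ z, q z ∈ (extChartAt 𝓘(ℝ, E) (q y)).source → ∀ v,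
      P (fderiv ℝ ψ z v) = fderiv ℝ (tq E q y) z v ∧ S (fderiv ℝ ψ z v) = fderiv ℝ s z v := by
    intro z hz v
    rw [(hder z hz).fderiv, hP, hS]
    have h1 : Λ (((Λ.symm : E × F →L[ℝ] E').comp
        ((fderiv ℝ (tq E q y) z).prod (fderiv ℝ s z))) v) =
        (fderiv ℝ (tq E q y) z v, fderiv ℝ s z v) := by
      show Λ (Λ.symm (fderiv ℝ (tq E q y) z v, fderiv ℝ s z v)) = _
      rw [Λ.apply_symm_apply]
    rw [h1]
    exact ⟨rfl, rfl⟩
  have hy := mem_extChartAt_source (I := 𝓘(ℝ, E)) (q y)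
  refine ⟨ψ, P, S, ?_, ?_, ?_, Eventually.of_forall hPψ, fun v => (hPd y hy v).1,
    fun v => (hPd y hy v).2, ?_⟩
  · exact (Λ.symm : E × F →L[ℝ] E').contDiff.contDiffAt.comp y
      ((contDiffAt_tq hq y).prodMk hs.contDiffAt)
  · have h1 : fderiv ℝ ψ y = ContinuousLinearMap.id ℝ E' := by
      rw [(hder y hy).fderiv]
      ext v
      show Λ.symm (A v) = v
      rw [← hΛ, Λ.symm_apply_apply]
    rw [h1, ContinuousLinearMap.det, ContinuousLinearMap.coe_id, LinearMap.det_id]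
    exact one_ne_zero
  · exact Λ.bijective
  · filter_upwards [st_law g hq s y, GD_near hq y] with z hz hz'
    refine Coll.T.L3Aux.form_law (fB (lin (coeff g (q y)) P S) (ψ z)) (fun i j => ?_)
      (fun i j => ?_)
    · exact (mkB_basis _ _ _ _).symm
    · rw [hz, fB_lin, hPψ, (hPd z hz' _).1, (hPd z hz' _).1, (hPd z hz' _).2, (hPd z hz' _).2]

end Pool.Agent.Lib.MP_df705a_gt.Pin
end
end

section

/-!
# TASK GE2: curvature and Laplacian of the pulled back metric
-/

open scoped Manifold ContDiff Topology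
open Set Bundle Module Filter MeasureTheory

noncomputable section

namespace Pool.Agent.Lib.MP_df705a_gt.Pin

open Pool.Agent.Lib.MP_df705a_gt.Twist Pool.Agent.Lib.MP_df705a_gt.Twist.Alg
open Pool.Agent.Lib.MP_df705a_gt.Perm
open Pool.Agent.Lib.MP_df705a_gt.Circ (cf Para)
open Pool.Agent.Lib.MP_df705a_gt.Coll (Met)
open Pool.Agent.Lib.MP_df705a_gt.Coll.T (mat)

variable {E' : Type*} [NormedAddCommGroup E'] [NormedSpace ℝ E'] [FiniteDimensional ℝ E']
  {E : Type*} [NormedAddCommGroup E] [NormedSpace ℝ E] [FiniteDimensional ℝ E]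
  {F : Type*} [NormedAddCommGroup F] [InnerProductSpace ℝ F] [FiniteDimensional ℝ F]
  {M : Type*} [TopologicalSpace M] [ChartedSpace E M] [IsManifold 𝓘(ℝ, E) ∞ M]
  {q : E' → M} {s : E' → F}

private theorem GE2_symm (g : Met E M) (z : M) (P : E' →L[ℝ] E) (S : E' →L[ℝ] F) (x : E')
    (i j : Fin (finrank ℝ E')) : lin (coeff g z) P S x i j = lin (coeff g z) P S x j i := by
  unfold lin
  rw [real_inner_comm]
  congr 1
  exact mkB_symm (finBasis ℝ E)
    (fun k l => chartMetric_symm 𝓘(ℝ, E) (finBasis ℝ E) g z (P x) k l) _ _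

/-- The data of the adapted coordinates, with the smoothness of the coefficients. -/
private theorem GE2_data (g : Met E M) (H : StableCover E q s) (y : E') :
    ∃ (ψ : E' → E') (P : E' →L[ℝ] E) (S : E' →L[ℝ] F), ContDiffAt ℝ ∞ ψ y ∧
      (fderiv ℝ ψ y).det ≠ 0 ∧ (Function.Bijective fun v : E' => (P v, S v)) ∧
      (∀ᶠ z in 𝓝 y, P (ψ z) = tq E q y z) ∧
      (∀ v, P (fderiv ℝ ψ y v) = fderiv ℝ (tq E q y) y v) ∧
      P (ψ y) = extChartAt 𝓘(ℝ, E) (q y) (q y) ∧
      (∀ i j, ContDiffAt ℝ ∞ (fun x => coeff g (q y) x i j) (P (ψ y))) ∧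
      (coeff g (q y) (P (ψ y))).PosDef ∧
      (∀ i j, ContDiffAt ℝ ∞ (fun x => lin (coeff g (q y)) P S x i j) (ψ y)) ∧
      (∀ᶠ x in 𝓝 (ψ y), ∀ i j, lin (coeff g (q y)) P S x i j = lin (coeff g (q y)) P S x j i) ∧
      (lin (coeff g (q y)) P S (ψ y)).det ≠ 0 ∧
      ∀ᶠ z in 𝓝 y, st g q s z =
        (mat (fderiv ℝ ψ z)).transpose * lin (coeff g (q y)) P S (ψ z) * mat (fderiv ℝ ψ z) := by
  obtain ⟨ψ, P, S, hψ, hdet, hb, hP, hP', -, hlaw⟩ := exists_adapted_coord g H y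
  have hc : P (ψ y) = extChartAt 𝓘(ℝ, E) (q y) (q y) := hP.self_of_nhds
  have ht : P (ψ y) ∈ (extChartAt 𝓘(ℝ, E) (q y)).target := by
    rw [hc]
    exact mem_extChartAt_target (q y)
  have hs : ∀ i j, ContDiffAt ℝ ∞ (fun x => coeff g (q y) x i j) (P (ψ y)) := fun i j =>
    g3_coeff_smooth g (q y) ht i j
  have hpos : (coeff g (q y) (P (ψ y))).PosDef := chartMetric_posDef 𝓘(ℝ, E) (finBasis ℝ E) g (q y) ht
  exact ⟨ψ, P, S, hψ, hdet, hb, hP, hP', hc, hs, hpos, fun i j => contDiffAt_lin hs S i j,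
    Eventually.of_forall fun x i j => GE2_symm g (q y) P S x i j,
    (posDef_lin hpos hb).det_pos.ne', hlaw⟩

/-- `Coll.T.ric_pull` with `exists_adapted_coord`, and `ric_lin`. -/
theorem ric_st (g : Met E M) (H : StableCover E q s) (y : E') (j k : Fin (finrank ℝ E')) :
    ric (st g q s) y j k = ricB (coeff g (q y)) (extChartAt 𝓘(ℝ, E) (q y) (q y))
      (mfderiv 𝓘(ℝ, E') 𝓘(ℝ, E) q y (finBasis ℝ E' j))
      (mfderiv 𝓘(ℝ, E') 𝓘(ℝ, E) q y (finBasis ℝ E' k)) := by
  obtain ⟨ψ, P, S, hψ, hdet, hb, hP, hP', hc, hs, hpos, hl, hsy, hnd, hlaw⟩ := GE2_data g H y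
  have h1 : ric (st g q s) y = (mat (fderiv ℝ ψ y)).transpose *
      ric (lin (coeff g (q y)) P S) (ψ y) * mat (fderiv ℝ ψ y) :=
    Coll.T.ric_pull hψ hdet hl hsy hnd hlaw
  obtain ⟨T, hT⟩ : ∃ T : Bil E', T = (ricB (coeff g (q y)) (P (ψ y))).compl₁₂
      (P : E' →ₗ[ℝ] E) (P : E' →ₗ[ℝ] E) := ⟨_, rfl⟩
  have hTa : ∀ u v, T u v = ricB (coeff g (q y)) (P (ψ y)) (P u) (P v) := by
    intro u v
    rw [hT]
    rfl
  have h2 : ∀ i j, ric (lin (coeff g (q y)) P S) (ψ y) i j = T (finBasis ℝ E' i) (finBasis ℝ E' j) := by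
    intro i j
    rw [hTa]
    exact ric_lin hs hpos hb i j
  have h3 := Coll.T.L3Aux.form_law (L := fderiv ℝ ψ y) (S := ric (lin (coeff g (q y)) P S) (ψ y))
    (S' := fun i j => T (fderiv ℝ ψ y (finBasis ℝ E' i)) (fderiv ℝ ψ y (finBasis ℝ E' j))) T h2
    (fun i j => rfl)
  rw [h1, ← h3]
  change T _ _ = _
  rw [hTa, hP', hP', hc, mfderiv_eq_tq H.smooth_q, mfderiv_eq_tq H.smooth_q]

/-- `scal_pull`, `scal_lin`. -/
theorem scal_st (g : Met E M) (H : StableCover E q s) (y : E') :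
    Curv.scal (st g q s) y = Scal g (q y) := by
  obtain ⟨ψ, P, S, hψ, hdet, hb, hP, hP', hc, hs, hpos, hl, hsy, hnd, hlaw⟩ := GE2_data g H y
  have h1 : Curv.scal (st g q s) y = Curv.scal (lin (coeff g (q y)) P S) (ψ y) :=
    scal_pull hψ hdet hl hsy hnd hlaw
  rw [h1, scal_lin hs hpos hb, hc]
  rfl

/-- `lapC_pull`, `lapC_lin`; near `y` the function `u ∘ q` is `rd E (q y) u ∘ tq`. -/
theorem lap_st (g : Met E M) (H : StableCover E q s) {u : M → ℝ} (hu : Sm E u) (y : E') :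
    lapC (st g q s) (u ∘ q) y = Lap g u (q y) := by
  obtain ⟨ψ, P, S, hψ, hdet, hb, hP, hP', hc, hs, hpos, hl, hsy, hnd, hlaw⟩ := GE2_data g H y
  have hnear : ∀ᶠ z in 𝓝 y, q z ∈ (extChartAt 𝓘(ℝ, E) (q y)).source :=
    H.smooth_q.continuous.continuousAt.eventually (extChartAt_source_mem_nhds (I := 𝓘(ℝ, E)) (q y))
  have hrd : (u ∘ q) =ᶠ[𝓝 y] (fun z => rd E (q y) u (P z)) ∘ ψ := by
    filter_upwards [hnear, hP] with z hz hz2
    change u (q z) = u ((extChartAt 𝓘(ℝ, E) (q y)).symm (P (ψ z)))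
    rw [hz2]
    change u (q z) = u ((extChartAt 𝓘(ℝ, E) (q y)).symm (extChartAt 𝓘(ℝ, E) (q y) (q z)))
    rw [(extChartAt 𝓘(ℝ, E) (q y)).left_inv hz]
  have hur : ContDiffAt ℝ ∞ (rd E (q y) u) (P (ψ y)) := by
    rw [hc]
    exact g3_rd_smooth hu _ (mem_extChartAt_target (q y))
  have hurP : ContDiffAt ℝ ∞ (fun z => rd E (q y) u (P z)) (ψ y) :=
    hur.comp (ψ y) P.contDiff.contDiffAt
  rw [g3_lapC_congr hrd, lapC_pull hψ hdet hl hsy hnd hlaw hurP, lapC_lin hs hpos hb hur, hc]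
  rfl

end Pool.Agent.Lib.MP_df705a_gt.Pin
end
end

section

/-!
# TASK GF1: lifts of translations and deck transformations, compact fundamental set
-/

open scoped Manifold ContDiff Topology
open Set Bundle Module Filter MeasureTheory

noncomputable section

namespace Pool.Agent.Lib.MP_df705a_gt.Pin

open Pool.Agent.Lib.MP_df705a_gt.Coll (Met)

variable {E' : Type*} [NormedAddCommGroup E'] [NormedSpace ℝ E'] [FiniteDimensional ℝ E']
  {E : Type*} [NormedAddCommGroup E] [NormedSpace ℝ E] [FiniteDimensional ℝ E]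
  {F : Type*} [NormedAddCommGroup F] [InnerProductSpace ℝ F] [FiniteDimensional ℝ F]
  {M : Type*} [TopologicalSpace M] [ChartedSpace E M] [IsManifold 𝓘(ℝ, E) ∞ M]
  {q : E' → M} {s : E' → F}

/-- Lift the map `w ↦ (q w, s w + a)` through the covering `(q, s)` with
`IsCoveringMap.existsUnique_continuousMap_lifts` (`E'` is contractible, hence simply connected, and
locally path connected); the same for `- a`; both compositions are lifts of `(q, s)` which fix a
point, hence the identity (uniqueness of lifts, `IsCoveringMap.eq_of_comp_eq`). -/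
theorem exists_lift (H : StableCover E q s) {x z : E'} {a : F} (hq : q z = q x)
    (hs : s z = s x + a) : ∃ γ γ' : E' → E', Continuous γ ∧ Continuous γ' ∧ (∀ w, γ (γ' w) = w) ∧
      (∀ w, γ' (γ w) = w) ∧ (∀ w, q (γ w) = q w ∧ s (γ w) = s w + a) ∧
      (∀ w, q (γ' w) = q w ∧ s (γ' w) = s w - a) ∧ γ x = z := by
  have hqc : Continuous q := H.smooth_q.continuous
  have hsc : Continuous s := H.smooth_s.continuous
  have hcontr : ContractibleSpace E' := RealTopologicalVectorSpace.contractibleSpace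
  obtain ⟨γ, ⟨hγ0, hγ⟩, -⟩ := H.cov.existsUnique_continuousMap_lifts
    (⟨fun w => (q w, s w + a), hqc.prodMk (hsc.add continuous_const)⟩ : C(E', M × F)) x z
    (Prod.ext hq hs)
  have hs' : s x = s z - a := by rw [hs, add_sub_cancel_right]
  obtain ⟨γ', ⟨hγ'0, hγ'⟩, -⟩ := H.cov.existsUnique_continuousMap_lifts
    (⟨fun w => (q w, s w - a), hqc.prodMk (hsc.sub continuous_const)⟩ : C(E', M × F)) z x
    (Prod.ext hq.symm hs')
  have h1 : ∀ w, q (γ w) = q w ∧ s (γ w) = s w + a := by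
    intro w
    have h := congrFun hγ w
    exact ⟨congrArg Prod.fst h, congrArg Prod.snd h⟩
  have h2 : ∀ w, q (γ' w) = q w ∧ s (γ' w) = s w - a := by
    intro w
    have h := congrFun hγ' w
    exact ⟨congrArg Prod.fst h, congrArg Prod.snd h⟩
  have h3 : (fun w => γ (γ' w)) = fun w => w := by
    refine H.cov.eq_of_comp_eq (γ.continuous.comp γ'.continuous) continuous_id ?_ z ?_
    · funext w
      refine Prod.ext ?_ ?_
      · change q (γ (γ' w)) = q w
        rw [(h1 _).1, (h2 _).1]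
      · change s (γ (γ' w)) = s w
        rw [(h1 _).2, (h2 _).2, sub_add_cancel]
    · change γ (γ' z) = z
      rw [hγ'0, hγ0]
  have h4 : (fun w => γ' (γ w)) = fun w => w := by
    refine H.cov.eq_of_comp_eq (γ'.continuous.comp γ.continuous) continuous_id ?_ x ?_
    · funext w
      refine Prod.ext ?_ ?_
      · change q (γ' (γ w)) = q w
        rw [(h2 _).1, (h1 _).1]
      · change s (γ' (γ w)) = s w
        rw [(h2 _).2, (h1 _).2, add_sub_cancel_right]
    · change γ' (γ x) = x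
      rw [hγ0, hγ'0]
  exact ⟨γ, γ', γ.continuous, γ'.continuous, congrFun h3, congrFun h4, h1, h2, hγ0⟩

/-- `M × {0}` is covered by the images of the open balls (`IsCoveringMap.isOpenMap`, `surj`). -/
theorem exists_compact_cover [CompactSpace M] (H : StableCover E q s) :
    ∃ K : Set E', IsCompact K ∧ ∀ m : M, ∃ x ∈ K, q x = m ∧ s x = 0 := by
  have hP : ProperSpace E' := FiniteDimensional.proper_real E'
  obtain ⟨n, hn⟩ := (isCompact_univ : IsCompact (univ : Set M)).elim_directed_cover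
    (fun n : ℕ => (fun m : M => (m, (0 : F))) ⁻¹'
      ((fun y => (q y, s y)) '' Metric.ball (0 : E') n)) (fun n =>
      (H.cov.isOpenMap _ Metric.isOpen_ball).preimage (continuous_id.prodMk continuous_const)) (by
      intro m _
      obtain ⟨y, hy⟩ := H.surj (m, 0)
      obtain ⟨n, hn⟩ := exists_nat_gt ‖y‖
      exact mem_iUnion.mpr ⟨n, ⟨y, mem_ball_zero_iff.mpr hn, hy⟩⟩) (by
      refine directed_of_isDirected_le fun i j hij => ?_
      refine preimage_mono (image_mono (Metric.ball_subset_ball ?_))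
      exact_mod_cast hij)
  refine ⟨Metric.closedBall 0 n, isCompact_closedBall _ _, fun m => ?_⟩
  obtain ⟨x, hx, hxm⟩ := hn (mem_univ m)
  exact ⟨x, Metric.ball_subset_closedBall hx, congrArg Prod.fst hxm, congrArg Prod.snd hxm⟩

end Pool.Agent.Lib.MP_df705a_gt.Pin
end
end

section

/-!
# TASK GF2: lifts are smooth
-/

open scoped Manifold ContDiff Topology
open Set Bundle Module Filter MeasureTheory

noncomputable section

namespace Pool.Agent.Lib.MP_df705a_gt.Pin

open Pool.Agent.Lib.MP_df705a_gt.Coll (Met)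

variable {E' : Type*} [NormedAddCommGroup E'] [NormedSpace ℝ E'] [FiniteDimensional ℝ E']
  {E : Type*} [NormedAddCommGroup E] [NormedSpace ℝ E] [FiniteDimensional ℝ E]
  {F : Type*} [NormedAddCommGroup F] [InnerProductSpace ℝ F] [FiniteDimensional ℝ F]
  {M : Type*} [TopologicalSpace M] [ChartedSpace E M] [IsManifold 𝓘(ℝ, E) ∞ M]
  {q : E' → M} {s : E' → F}

/-- A continuous lift is smooth: near `γ w` the map `Θ = (extChartAt (q (γ w)) ∘ q, s) : E' → E × F` is
smooth with bijective differential (`bij`, and the chart is a local diffeomorphism), so it has a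
smooth local inverse (`ContDiffAt.toOpenPartialHomeomorph`, `ContDiffAt.to_localInverse`), and
`Θ ∘ γ = (extChartAt (q w) ∘ q, s + a)` is smooth near `w`. -/
theorem contDiff_lift (H : StableCover E q s) {γ : E' → E'} (hγ : Continuous γ) {a : F}
    (hγq : ∀ w, q (γ w) = q w ∧ s (γ w) = s w + a) : ContDiff ℝ ∞ γ := by
  rw [contDiff_iff_contDiffAt]
  intro w
  have hq := H.smooth_q
  have hs := H.smooth_s
  set c := extChartAt 𝓘(ℝ, E) (q w) with hc
  have htq : ∀ y, q y = q w → ContDiffAt ℝ ∞ (fun z => c (q z)) y := by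
    intro y hy
    have h1 : ContMDiffAt 𝓘(ℝ, E) 𝓘(ℝ, E) ∞ (extChartAt 𝓘(ℝ, E) (q w)) (q y) := by
      rw [hy]
      exact contMDiffAt_extChartAt
    have h2 : ContMDiffAt 𝓘(ℝ, E') 𝓘(ℝ, E) ∞ (extChartAt 𝓘(ℝ, E) (q w) ∘ q) y :=
      ContMDiffAt.comp y h1 (hq y)
    exact h2.contDiffAt
  set y := γ w with hy
  have hqy : q y = q w := (hγq w).1
  let Θ : E' → E × F := fun z => (c (q z), s z)
  have hΘ : ContDiffAt ℝ ∞ Θ y := (htq y hqy).prodMk hs.contDiffAt
  let A : E' →L[ℝ] E × F := (fderiv ℝ (fun z => c (q z)) y).prod (fderiv ℝ s y)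
  have hΘd : HasFDerivAt Θ A y :=
    ((htq y hqy).differentiableAt (by simp)).hasFDerivAt.prodMk
      ((hs.contDiffAt (x := y)).differentiableAt (by simp)).hasFDerivAt
  have hA : Function.Bijective A := by
    have h1 := H.bij y
    have h2 : (fun v : E' => ((mfderiv 𝓘(ℝ, E') 𝓘(ℝ, E) q y v : E), fderiv ℝ s y v)) = A := by
      funext v
      refine Prod.ext ?_ rfl
      have h3 : MDifferentiableAt 𝓘(ℝ, E') 𝓘(ℝ, E) q y := (hq y).mdifferentiableAt (by simp)
      show (mfderiv 𝓘(ℝ, E') 𝓘(ℝ, E) q y : E' →L[ℝ] E) v = fderiv ℝ (fun z => c (q z)) y v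
      rw [h3.mfderiv]
      simp only [writtenInExtChartAt, extChartAt_model_space_eq_id, PartialEquiv.refl_symm,
        PartialEquiv.refl_coe, modelWithCornersSelf_coe, Set.range_id, id_eq, fderivWithin_univ,
        Function.comp_id]
      rw [hqy]
      rfl
    rw [h2] at h1
    exact h1
  let Λ₀ : E' ≃ₗ[ℝ] E × F := LinearEquiv.ofBijective (A : E' →ₗ[ℝ] E × F) hA
  let Λ : E' ≃L[ℝ] E × F := Λ₀.toContinuousLinearEquiv
  have hΛ : (Λ : E' →L[ℝ] E × F) = A := by
    ext v <;> rfl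
  have hΘd' : HasFDerivAt Θ (Λ : E' →L[ℝ] E × F) y := by
    rw [hΛ]
    exact hΘd
  have : CompleteSpace E' := FiniteDimensional.complete ℝ E'
  have hn : (∞ : ℕ∞ω) ≠ 0 := by simp
  have hinv := hΘ.to_localInverse hΘd' hn
  let e := hΘ.toOpenPartialHomeomorph Θ hΘd' hn
  have hey : y ∈ e.source := hΘ.mem_toOpenPartialHomeomorph_source hΘd' hn
  have hsrc : ∀ᶠ x in 𝓝 w, γ x ∈ e.source :=
    hγ.continuousAt.eventually (e.open_source.mem_nhds hey)
  have heq : γ =ᶠ[𝓝 w] fun x => hΘ.localInverse hΘd' hn (c (q x), s x + a) := by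
    filter_upwards [hsrc] with x hx
    have h1 : e.symm (e (γ x)) = γ x := e.left_inv hx
    have h2 : e (γ x) = (c (q x), s x + a) := by
      show ((c (q (γ x)), s (γ x)) : E × F) = _
      rw [(hγq x).1, (hγq x).2]
    rw [h2] at h1
    exact h1.symm
  refine ContDiffAt.congr_of_eventuallyEq ?_ heq
  have h3 : ContDiffAt ℝ ∞ (fun x => ((c (q x), s x + a) : E × F)) w :=
    (htq w rfl).prodMk (hs.contDiffAt.add contDiffAt_const)
  have h4 : Θ y = (c (q w), s w + a) := by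
    show ((c (q (γ w)), s (γ w)) : E × F) = _
    rw [(hγq w).1, (hγq w).2]
  rw [h4] at hinv
  exact ContDiffAt.comp w hinv h3

end Pool.Agent.Lib.MP_df705a_gt.Pin
end
end

section

/-!
# Ricci pinching, part A, AN3b: distances from the centre of a normal ball
-/

open scoped Manifold ContDiff Topology
open Set Bundle Module Filter MeasureTheory

noncomputable section

set_option linter.unusedSectionVars false

namespace Pool.Agent.Lib.MP_df705a_gt.Pin.A

variable {E : Type*} [NormedAddCommGroup E] [NormedSpace ℝ E] [FiniteDimensional ℝ E]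
  {h : Curv.Coeff E}

variable {Ex : E → E → E}

theorem isCompact_nm_le (hm : Curv.IsMetric h) (p : E) (r : ℝ) : IsCompact {v | nm h p v ≤ r} := by
  have h1 : Continuous fun v : E => nm h p v :=
    (nm_continuous hm).comp (Continuous.prodMk_right p)
  obtain ⟨c, C, hc, -, hcC⟩ := nm_compact hm (isCompact_singleton (x := p))
  refine Metric.isCompact_of_isClosed_isBounded (isClosed_le h1 continuous_const) ?_
  refine (Metric.isBounded_closedBall (x := (0 : E)) (r := r / c)).subset fun v hv => ?_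
  have h2 := (hcC p rfl v).1
  rw [mem_closedBall_zero_iff, le_div_iff₀ hc, mul_comm]
  exact h2.trans hv

/-- A comparison function for the distance from `p`.
Proof: take `ψ` of `exists_cutoff` and put `F y = ψ (√ (nm h p (lg y) ^ 2 + η ^ 2))` for
`y ∈ U = Ex p '' {nm h p < ε}` and `F y = ψ r'` otherwise. `C^1`: on the open set `U`
(`Nb.isOpen_image`) it is a composition with the smooth map `lg` (`Nb.lg_smooth`; `nm h p v ^ 2 =
bf h p v v` is smooth, `η ≠ 0`), and on the complement of the compact set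
`Ex p '' {nm h p ≤ r'}` (`nm_compact` for `K = {p}` shows that `{nm h p ≤ r'}` is compact) it is
constant `ψ r'`, because `√ (nm ^ 2 + η ^ 2) ≥ nm ≥ r'` there; these two open sets cover `E`.
The differential at `y = Ex p v ∈ U`: a vector `u'` is `fderiv (Ex p) v u`, and
`dF u' = ψ' (..) bf h p v u / √ (nm ^ 2 + η ^ 2)`; by the lemma of Gauss (`IsExp.gauss`) and
`bf_cs` `(bf h p v u) ^ 2 = (bf h y (fderiv (Ex p) v v) u') ^ 2 ≤ nm h p v ^ 2 · bf h y u' u'`
(use `IsExp.gauss` with `u = v` for `bf h y (fderiv (Ex p) v v) (fderiv (Ex p) v v) =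
nm h p v ^ 2`). -/
theorem Nb.exists_comparison (hm : Curv.IsMetric h) (hE : IsExp h Ex) {p : E} {ε r r' η : ℝ}
    (hN : Nb h Ex p ε) (h0 : 0 ≤ r) (hr : r < r') (hr' : r' < ε) (hη : 0 < η) :
    ∃ (F : E → ℝ) (ψ ψ' : ℝ → ℝ), ContDiff ℝ 1 F ∧
      (∀ x u, fderiv ℝ F x u ^ 2 ≤ Curv.ip h x u u) ∧
      (∀ τ, HasDerivAt ψ (ψ' τ) τ) ∧ (∀ τ, 0 ≤ ψ' τ) ∧
      (∀ τ, 0 ≤ τ → τ ≤ r → ψ τ = τ) ∧ (∀ τ, r' ≤ τ → ψ τ = ψ r') ∧ r ≤ ψ r' ∧
      (∀ v, nm h p v < ε → F (Ex p v) = ψ (√ (nm h p v ^ 2 + η ^ 2))) ∧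
      ∀ y, y ∉ Ex p '' {v | nm h p v < ε} → F y = ψ r' := by
  classical
  obtain ⟨ψ, ψ', hψ, hψc, hψ01, hψr, hψr', hrψ⟩ := exists_cutoff hr h0
  set U : Set E := Ex p '' {v | nm h p v < ε} with hU
  set ρ : E → ℝ := fun v => √ (nm h p v ^ 2 + η ^ 2) with hρ
  set F : E → ℝ := fun y => if y ∈ U then ψ (ρ (lg h Ex p ε y)) else ψ r' with hF
  have hUo : IsOpen U := hN.isOpen_image hm hE le_rfl
  set K' : Set E := Ex p '' {v | nm h p v ≤ r'} with hK'
  have hKc : IsClosed K' :=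
    ((isCompact_nm_le hm p r').image (hE.smooth_at p).continuous).isClosed
  have hFU : ∀ v, nm h p v < ε → F (Ex p v) = ψ (ρ v) := by
    intro v hv
    have h1 : Ex p v ∈ U := ⟨v, hv, rfl⟩
    rw [hF]
    show (if Ex p v ∈ U then ψ (ρ (lg h Ex p ε (Ex p v))) else ψ r') = _
    rw [if_pos h1, hN.lg_ex hv]
  have hFn : ∀ y, y ∉ U → F y = ψ r' := by
    intro y hy
    rw [hF]
    show (if y ∈ U then ψ (ρ (lg h Ex p ε y)) else ψ r') = _
    rw [if_neg hy]
  have hρnm : ∀ v, nm h p v ≤ ρ v := fun v =>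
    Real.le_sqrt_of_sq_le (by nlinarith [sq_nonneg η])
  have hFK : ∀ y, y ∉ K' → F y = ψ r' := by
    intro y hy
    by_cases hyU : y ∈ U
    · obtain ⟨v, hv, rfl⟩ := hyU
      rw [hFU v hv]
      apply hψr'
      have h1 : r' < nm h p v := by
        by_contra h2
        exact hy ⟨v, not_lt.1 h2, rfl⟩
      exact h1.le.trans (hρnm v)
    · exact hFn y hyU
  have hρpos : ∀ v, 0 < nm h p v ^ 2 + η ^ 2 := fun v => by positivity
  have hρpos' : ∀ v, 0 < ρ v := fun v => Real.sqrt_pos.2 (hρpos v)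
  have hρeq : ∀ v, ρ v = √ (bf h p v v + η ^ 2) := fun v => by
    rw [hρ]
    show √ (nm h p v ^ 2 + η ^ 2) = _
    rw [nm_sq hm]
  have hψ1 : ContDiff ℝ 1 ψ := by
    rw [contDiff_one_iff_deriv]
    refine ⟨fun τ => (hψ τ).differentiableAt, ?_⟩
    have : deriv ψ = ψ' := funext fun τ => (hψ τ).deriv
    rw [this]
    exact hψc
  have hFe : ∀ y ∈ U, F =ᶠ[𝓝 y] fun y => ψ (√ (bf h p (lg h Ex p ε y) (lg h Ex p ε y) + η ^ 2)) := by
    intro y hy
    filter_upwards [hUo.mem_nhds hy] with z hz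
    rw [hF]
    show (if z ∈ U then ψ (ρ (lg h Ex p ε z)) else ψ r') = _
    rw [if_pos hz, hρeq]
  have hFe' : ∀ y, y ∉ K' → F =ᶠ[𝓝 y] fun _ => ψ r' := by
    intro y hy
    filter_upwards [hKc.isOpen_compl.mem_nhds hy] with z hz
    exact hFK z hz
  have hKU : K' ⊆ U := by
    rintro _ ⟨v, hv, rfl⟩
    exact ⟨v, lt_of_le_of_lt hv hr', rfl⟩
  have hF1 : ContDiff ℝ 1 F := by
    rw [contDiff_iff_contDiffAt]
    intro y
    by_cases hy : y ∈ U
    · refine ContDiffAt.congr_of_eventuallyEq ?_ (hFe y hy)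
      obtain ⟨v, hv, rfl⟩ := hy
      have h1 : ContDiffAt ℝ 1 (lg h Ex p ε) (Ex p v) :=
        (hN.lg_smooth hm hE hv).of_le (by exact_mod_cast le_top)
      have h2 : ContDiffAt ℝ 1 (fun y => bf h p (lg h Ex p ε y) (lg h Ex p ε y) + η ^ 2)
          (Ex p v) :=
        (((bf h p).contDiff.contDiffAt.comp (Ex p v) h1).clm_apply h1).add contDiffAt_const
      have h3 : bf h p (lg h Ex p ε (Ex p v)) (lg h Ex p ε (Ex p v)) + η ^ 2 ≠ 0 := by
        rw [hN.lg_ex hv, ← nm_sq hm]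
        exact (hρpos v).ne'
      exact hψ1.contDiffAt.comp (Ex p v) (h2.sqrt h3)
    · exact contDiffAt_const.congr_of_eventuallyEq (hFe' y fun h1 => hy (hKU h1))
  refine ⟨F, ψ, ψ', hF1, ?_, hψ, fun τ => (hψ01 τ).1, hψr, hψr', hrψ, hFU, hFn⟩
  intro y u'
  rw [← bf_apply]
  by_cases hy : y ∈ U
  · obtain ⟨v, hv, rfl⟩ := hy
    have hv' : nm h p v < ε := hv
    obtain ⟨u, hu⟩ := ((fderiv ℝ (Ex p) v).toContinuousLinearEquivOfDetNeZero
      (hN.reg v hv')).surjective u'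
    rw [ContinuousLinearMap.toContinuousLinearEquivOfDetNeZero_apply] at hu
    subst hu
    -- the curve
    have hline : HasDerivAt (fun t : ℝ => v + t • u) u 0 := by
      simpa using ((hasDerivAt_id (0 : ℝ)).smul_const u).const_add v
    have h1 : HasDerivAt (fun t : ℝ => F (Ex p (v + t • u)))
        (fderiv ℝ F (Ex p v) (fderiv ℝ (Ex p) v u)) 0 := by
      have h2 : HasFDerivAt (Ex p) (fderiv ℝ (Ex p) v) (v + (0 : ℝ) • u) := by
        rw [zero_smul, add_zero]
        exact ((hE.smooth_at p).differentiable (by simp)).differentiableAt.hasFDerivAt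
      have h3 : HasFDerivAt F (fderiv ℝ F (Ex p v)) (Ex p (v + (0 : ℝ) • u)) := by
        rw [zero_smul, add_zero]
        exact (hF1.differentiable (by simp)).differentiableAt.hasFDerivAt
      exact h3.comp_hasDerivAt (0 : ℝ) (h2.comp_hasDerivAt (0 : ℝ) hline)
    have h2 : HasDerivAt (fun t : ℝ => F (Ex p (v + t • u)))
        (ψ' (ρ v) * (2 * bf h p v u / (2 * ρ v))) 0 := by
      have h3 : HasDerivAt (fun t : ℝ => bf h p (v + t • u) (v + t • u) + η ^ 2)
          (2 * bf h p v u) 0 := by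
        have h4 : HasDerivAt (fun ε : ℝ => bf h p (v + ε • u) (v + ε • u))
            (bf h p u (v + (0 : ℝ) • u) + bf h p (v + (0 : ℝ) • u) u) 0 :=
          ((bf h p).hasFDerivAt.comp_hasDerivAt (0 : ℝ) hline).clm_apply hline
        rw [zero_smul, add_zero, bf_symm hm p u v, ← two_mul] at h4
        exact h4.add_const _
      have h5 : bf h p (v + (0 : ℝ) • u) (v + (0 : ℝ) • u) + η ^ 2 ≠ 0 := by
        rw [zero_smul, add_zero, ← nm_sq hm]
        exact (hρpos v).ne'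
      have h6 := h3.sqrt h5
      rw [zero_smul, add_zero, ← hρeq] at h6
      have h7 : HasDerivAt ψ (ψ' (ρ v)) (√ (bf h p (v + (0 : ℝ) • u) (v + (0 : ℝ) • u) + η ^ 2)) := by
        rw [zero_smul, add_zero, ← hρeq]
        exact hψ _
      have h8 := h7.comp (0 : ℝ) h6
      refine h8.congr_of_eventuallyEq ?_
      have hcont : ContinuousAt (fun t : ℝ => v + t • u) 0 := hline.continuousAt
      have hmem : {v | nm h p v < ε} ∈ 𝓝 ((fun t : ℝ => v + t • u) 0) := by
        refine (isOpen_nm_lt hm p ε).mem_nhds ?_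
        show nm h p (v + (0 : ℝ) • u) < ε
        rw [zero_smul, add_zero]
        exact hv'
      filter_upwards [hcont.preimage_mem_nhds hmem] with t ht
      rw [hFU _ ht, hρeq]
      rfl
    rw [h1.unique h2]
    have hρv := hρpos' v
    have h3 : ψ' (ρ v) * (2 * bf h p v u / (2 * ρ v)) = ψ' (ρ v) * (bf h p v u / ρ v) := by
      congr 1
      rw [mul_div_mul_left _ _ (two_ne_zero)]
    rw [h3, mul_pow, div_pow]
    have h4 := bf_cs hm (Ex p v) (fderiv ℝ (Ex p) v v) (fderiv ℝ (Ex p) v u)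
    rw [hE.gauss hm, hE.gauss hm] at h4
    have h5 := bf_nonneg hm (Ex p v) (fderiv ℝ (Ex p) v u)
    have h6 : ρ v ^ 2 = bf h p v v + η ^ 2 := by
      rw [hρeq, Real.sq_sqrt]
      rw [← nm_sq hm]
      exact (hρpos v).le
    have h7 : bf h p v u ^ 2 / ρ v ^ 2 ≤
        bf h (Ex p v) (fderiv ℝ (Ex p) v u) (fderiv ℝ (Ex p) v u) := by
      rw [div_le_iff₀ (by positivity), h6]
      nlinarith [sq_nonneg η]
    have h8 : ψ' (ρ v) ^ 2 ≤ 1 := by
      have := hψ01 (ρ v)
      nlinarith [this.1, this.2]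
    have h9 : 0 ≤ bf h p v u ^ 2 / ρ v ^ 2 := by positivity
    calc ψ' (ρ v) ^ 2 * (bf h p v u ^ 2 / ρ v ^ 2) ≤ 1 * (bf h p v u ^ 2 / ρ v ^ 2) :=
          mul_le_mul_of_nonneg_right h8 h9
      _ ≤ _ := by rw [one_mul]; exact h7
  · have h1 : fderiv ℝ F y = 0 := by
      rw [(hFe' y fun h1 => hy (hKU h1)).fderiv_eq]
      simp
    rw [h1]
    simpa using bf_nonneg hm y u'

end Pool.Agent.Lib.MP_df705a_gt.Pin.A
end
end

section

/-!
# Ricci pinching, part A, AN3: distances from the centre of a normal ball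
-/

open scoped Manifold ContDiff Topology
open Set Bundle Module Filter MeasureTheory

noncomputable section

set_option linter.unusedSectionVars false

namespace Pool.Agent.Lib.MP_df705a_gt.Pin.A

variable {E : Type*} [NormedAddCommGroup E] [NormedSpace ℝ E] [FiniteDimensional ℝ E]
  {h : Curv.Coeff E}

variable {Ex : E → E → E}

/-- Proof: `≤` is `IsExp.dist_le_one`. For `≥` let `nm h p v < r < r' < ε` and `η > 0` small
(`√ (nm h p v ^ 2 + η ^ 2) ≤ r`, `η ≤ r`); by `Nb.exists_comparison` and `dh_dual`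
`dh h p (Ex p v) ≥ F (Ex p v) - F p = √ (nm h p v ^ 2 + η ^ 2) - η ≥ nm h p v - η`
(`p = Ex p 0`). Let `η → 0`. -/
theorem Nb.dist (hm : Curv.IsMetric h) (hE : IsExp h Ex) {p : E} {ε : ℝ} (hN : Nb h Ex p ε)
    {v : E} (hv : nm h p v < ε) : dh h p (Ex p v) = nm h p v := by
  refine le_antisymm (hE.dist_le_one hm p v) ?_
  refine le_of_forall_pos_le_add fun η' hη' => ?_
  have hm0 : 0 ≤ nm h p v := nm_nonneg h p v
  set m := nm h p v with hm'
  set r : ℝ := (2 * m + ε) / 3 with hr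
  set r' : ℝ := (m + 2 * ε) / 3 with hr'
  have hrm : 0 < r - m := by rw [hr]; linarith
  set η : ℝ := min η' (r - m) with hη
  have h1 : 0 < η := lt_min hη' hrm
  have h1' : η ≤ η' := min_le_left _ _
  have h1'' : η ≤ r - m := min_le_right _ _
  obtain ⟨F, ψ, ψ', hF, hFd, -, -, hψr, -, -, hFU, -⟩ :=
    hN.exists_comparison hm hE (r := r) (r' := r') (η := η) (by linarith)
      (by rw [hr, hr']; linarith) (by rw [hr']; linarith) h1
  have h2 := dh_dual hm hF hFd p (Ex p v)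
  have h3 : F p = η := by
    have h4 := hFU 0 (by rw [nm_zero]; exact hN.pos)
    rw [hE.zero, nm_zero, zero_pow two_ne_zero, zero_add, Real.sqrt_sq h1.le] at h4
    rw [h4]
    exact hψr η h1.le (by linarith)
  have h5 : m ≤ √ (m ^ 2 + η ^ 2) := Real.le_sqrt_of_sq_le (by nlinarith [sq_nonneg η])
  have h6 : √ (m ^ 2 + η ^ 2) ≤ m + η := by
    rw [Real.sqrt_le_left (by positivity)]
    nlinarith
  have h4 : F (Ex p v) = √ (m ^ 2 + η ^ 2) := by
    rw [hFU v hv]
    exact hψr _ (Real.sqrt_nonneg _) (by linarith)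
  rw [h3, h4, abs_sub_comm] at h2
  have h7 := (le_abs_self _).trans h2
  linarith

/-- Proof: let `dh h p y < r < r' < ε`; if `y` is not in the image of `{nm h p < r}`, then
`F y ≥ r` (`ψ` is monotone) and `F p = η`, so `dh h p y ≥ r - η` for all small `η > 0`, hence
`dh h p y ≥ r`, a contradiction. -/
theorem Nb.surj (hm : Curv.IsMetric h) (hE : IsExp h Ex) {p : E} {ε : ℝ} (hN : Nb h Ex p ε)
    {y : E} (hy : dh h p y < ε) : ∃ v, nm h p v < ε ∧ Ex p v = y := by
  by_contra hcon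
  have hyU : y ∉ Ex p '' {v | nm h p v < ε} := by
    rintro ⟨v, hv, rfl⟩
    exact hcon ⟨v, hv, rfl⟩
  have hd0 := dh_nonneg hm p y
  set d := dh h p y with hd
  set r : ℝ := (2 * d + ε) / 3 with hr
  set r' : ℝ := (d + 2 * ε) / 3 with hr'
  have hrd : 0 < r - d := by rw [hr]; linarith
  set η : ℝ := (r - d) / 2 with hη
  have h1 : 0 < η := by rw [hη]; linarith
  obtain ⟨F, ψ, ψ', hF, hFd, -, -, hψr, -, hrψ, hFU, hFn⟩ :=
    hN.exists_comparison hm hE (r := r) (r' := r') (η := η) (by linarith)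
      (by rw [hr, hr']; linarith) (by rw [hr']; linarith) h1
  have h2 := dh_dual hm hF hFd p y
  have h3 : F p = η := by
    have h4 := hFU 0 (by rw [nm_zero]; exact hN.pos)
    rw [hE.zero, nm_zero, zero_pow two_ne_zero, zero_add, Real.sqrt_sq h1.le] at h4
    rw [h4]
    exact hψr η h1.le (by rw [hη]; linarith)
  rw [h3, hFn y hyU, abs_sub_comm] at h2
  have h7 := (le_abs_self _).trans h2
  have h8 : η = (r - d) / 2 := hη
  linarith

end Pool.Agent.Lib.MP_df705a_gt.Pin.A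
end
end

section

/-!
# Ricci pinching, part A, AN4: the distance function in a normal ball
-/

open scoped Manifold ContDiff Topology
open Set Bundle Module Filter MeasureTheory

noncomputable section

set_option linter.unusedSectionVars false

namespace Pool.Agent.Lib.MP_df705a_gt.Pin.A

variable {E : Type*} [NormedAddCommGroup E] [NormedSpace ℝ E] [FiniteDimensional ℝ E]
  {h : Curv.Coeff E}

variable {Ex : E → E → E}

/-- Proof: near `Ex p v` (the set `Ex p '' {nm h p < ε}` is open) `dh h p y = nm h p (lg y)` by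
`Nb.dist`, and `lg` is smooth (`Nb.lg_smooth`), `nm h p` is smooth at `v ≠ 0` (`nm_smooth`). -/
theorem Nb.dist_smooth (hm : Curv.IsMetric h) (hE : IsExp h Ex) {p : E} {ε : ℝ}
    (hN : Nb h Ex p ε) {v : E} (hv : nm h p v < ε) (hv0 : v ≠ 0) :
    ContDiffAt ℝ ∞ (dh h p) (Ex p v) := by
  have h1 : ContDiffAt ℝ ∞ (nm h p) (lg h Ex p ε (Ex p v)) := by
    rw [hN.lg_ex hv]
    exact nm_smooth hm p hv0
  have h2 : ContDiffAt ℝ ∞ (fun y => nm h p (lg h Ex p ε y)) (Ex p v) :=
    h1.comp (Ex p v) (hN.lg_smooth hm hE hv)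
  refine h2.congr_of_eventuallyEq ?_
  filter_upwards [(hN.isOpen_image hm hE le_rfl).mem_nhds ⟨v, hv, rfl⟩] with y hy
  obtain ⟨w, hw, rfl⟩ := hy
  rw [hN.lg_ex hw, hN.dist hm hE hw]

/-- Proof: the chain rule for `dh h p (Ex p v') = nm h p v'` near `v` (`nm_fderiv`), and
`IsExp.gauss`; every vector is of the form `fderiv (Ex p) v u` since the determinant is not zero. -/
theorem Nb.dist_fderiv (hm : Curv.IsMetric h) (hE : IsExp h Ex) {p : E} {ε : ℝ}
    (hN : Nb h Ex p ε) {v : E} (hv : nm h p v < ε) (hv0 : v ≠ 0) (u : E) :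
    fderiv ℝ (dh h p) (Ex p v) u = bf h (Ex p v) (vel Ex p v 1) u / nm h p v := by
  obtain ⟨w, hw⟩ := ((fderiv ℝ (Ex p) v).toContinuousLinearEquivOfDetNeZero
    (hN.reg v hv)).surjective u
  rw [ContinuousLinearMap.toContinuousLinearEquivOfDetNeZero_apply] at hw
  subst hw
  have h1 : HasFDerivAt (dh h p) (fderiv ℝ (dh h p) (Ex p v)) (Ex p v) :=
    ((hN.dist_smooth hm hE hv hv0).differentiableAt (by simp)).hasFDerivAt
  have h2 : HasFDerivAt (Ex p) (fderiv ℝ (Ex p) v) v :=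
    ((hE.smooth_at p).differentiable (by simp)).differentiableAt.hasFDerivAt
  have h3 := h1.comp v h2
  have h4 : HasFDerivAt (nm h p) (fderiv ℝ (nm h p) v) v :=
    ((nm_smooth hm p hv0).differentiableAt (by simp)).hasFDerivAt
  have h5 : HasFDerivAt (dh h p ∘ Ex p) (fderiv ℝ (nm h p) v) v := by
    refine h4.congr_of_eventuallyEq ?_
    filter_upwards [(isOpen_nm_lt hm p ε).mem_nhds hv] with x hx
    exact hN.dist hm hE hx
  have h6 := DFunLike.congr_fun (h3.unique h5) w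
  rw [ContinuousLinearMap.comp_apply, nm_fderiv hm p hv0, ← hE.gauss hm] at h6
  rw [h6]
  unfold vel
  rw [one_smul]

end Pool.Agent.Lib.MP_df705a_gt.Pin.A
end
end

section

/-!
# Ricci pinching, part A, AH1: splitting distances, no corners
-/

open scoped Manifold ContDiff Topology
open Set Bundle Module Filter MeasureTheory

noncomputable section

set_option linter.unusedSectionVars false

namespace Pool.Agent.Lib.MP_df705a_gt.Pin.A

variable {E : Type*} [NormedAddCommGroup E] [NormedSpace ℝ E] [FiniteDimensional ℝ E]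
  {h : Curv.Coeff E}

variable {Ex : E → E → E}

/-- A shortest curve has no corners: if `b` lies between `a` and `c`, then the geodesic from `a` to
`b` goes on to `c`.
Proof: let `b = Ex c w` with `nm h c w = dh h c b` (`Nb.surj`, `Nb.dist`, `dh_comm`); `v, w ≠ 0`.
The function `x ↦ dh h a x + dh h c x` has a minimum at `b` (triangle inequality and `hbc`), it is
differentiable there, so by `Nb.dist_fderiv`
`bf h b (vel Ex a v 1) u / nm h a v + bf h b (vel Ex c w 1) u / nm h c w = 0` for all `u`, hence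
`vel Ex a v 1 = - (nm h a v / nm h c w) vel Ex c w 1` (`bf_pos`). By `IsExp.rev`
`c = Ex b (- vel Ex c w 1) = Ex (Ex a (1 • v)) ((nm h c w / nm h a v) • vel Ex a v 1) =
Ex a ((1 + nm h c w / nm h a v) • v)` (`IsExp.flow`). -/
theorem no_corner (hm : Curv.IsMetric h) (hE : IsExp h Ex) {a c v : E} {ε : ℝ}
    (ha : Nb h Ex a ε) (hc : Nb h Ex c ε) (hv : nm h a v < ε) (hv0 : v ≠ 0)
    (hbc : dh h (Ex a v) c < ε) (hne : Ex a v ≠ c)
    (hsum : dh h a c = nm h a v + dh h (Ex a v) c) :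
    Ex a ((1 + dh h (Ex a v) c / nm h a v) • v) = c := by
  obtain ⟨w, hw, hwb⟩ := Nb.surj hm hE hc (y := Ex a v) (by rw [dh_comm hm]; exact hbc)
  have hcw := Nb.dist hm hE hc hw
  rw [hwb] at hcw
  have hna : 0 < nm h a v := nm_pos hm a hv0
  have hw0 : w ≠ 0 := by
    rintro rfl
    rw [hE.zero] at hwb
    exact hne hwb.symm
  have hnc : 0 < nm h c w := nm_pos hm c hw0
  have hav := Nb.dist hm hE ha hv
  have hda : DifferentiableAt ℝ (dh h a) (Ex a v) :=
    (Nb.dist_smooth hm hE ha hv hv0).differentiableAt (by simp)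
  have hdc : DifferentiableAt ℝ (dh h c) (Ex a v) := by
    have h1 := (Nb.dist_smooth hm hE hc hw hw0).differentiableAt (by simp)
    rwa [hwb] at h1
  have hmin : IsLocalMin (fun x => dh h a x + dh h c x) (Ex a v) := by
    apply Filter.Eventually.of_forall
    intro x
    have h1 := dh_triangle hm a x c
    rw [dh_comm hm x c] at h1
    show dh h a (Ex a v) + dh h c (Ex a v) ≤ dh h a x + dh h c x
    rw [hav, dh_comm hm c (Ex a v), ← hsum]
    exact h1
  have hder := hmin.fderiv_eq_zero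
  have hadd : fderiv ℝ (fun x => dh h a x + dh h c x) (Ex a v) =
      fderiv ℝ (dh h a) (Ex a v) + fderiv ℝ (dh h c) (Ex a v) := fderiv_fun_add hda hdc
  rw [hadd] at hder
  have hall : ∀ u, bf h (Ex a v) (vel Ex a v 1) u / nm h a v +
      bf h (Ex a v) (vel Ex c w 1) u / nm h c w = 0 := by
    intro u
    have h1 := congrArg (fun L : E →L[ℝ] ℝ => L u) hder
    have h2 := Nb.dist_fderiv hm hE ha hv hv0 u
    have h3 := Nb.dist_fderiv hm hE hc hw hw0 u
    rw [hwb] at h3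
    rw [← h2, ← h3]
    exact h1
  have hX : (nm h a v)⁻¹ • vel Ex a v 1 + (nm h c w)⁻¹ • vel Ex c w 1 = 0 := by
    by_contra hne0
    have h1 := bf_pos hm (Ex a v) hne0
    have h2 := hall ((nm h a v)⁻¹ • vel Ex a v 1 + (nm h c w)⁻¹ • vel Ex c w 1)
    have h3 : ∀ Z, bf h (Ex a v) ((nm h a v)⁻¹ • vel Ex a v 1 + (nm h c w)⁻¹ • vel Ex c w 1) Z =
        bf h (Ex a v) (vel Ex a v 1) Z / nm h a v + bf h (Ex a v) (vel Ex c w 1) Z / nm h c w := by
      intro Z
      rw [map_add, map_smul, map_smul]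
      show (nm h a v)⁻¹ * bf h (Ex a v) (vel Ex a v 1) Z + (nm h c w)⁻¹ * bf h (Ex a v) (vel Ex c w 1) Z = _
      ring
    rw [h3, h2] at h1
    exact lt_irrefl _ h1
  have hvel : -vel Ex c w 1 = (nm h c w / nm h a v) • vel Ex a v 1 := by
    have h1 : (nm h c w)⁻¹ • vel Ex c w 1 = -((nm h a v)⁻¹ • vel Ex a v 1) := by
      rw [add_comm] at hX
      exact eq_neg_of_add_eq_zero_left hX
    have h2 : vel Ex c w 1 = nm h c w • ((nm h c w)⁻¹ • vel Ex c w 1) := by
      rw [smul_smul, mul_inv_cancel₀ hnc.ne', one_smul]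
    rw [h2, h1, smul_neg, neg_neg, smul_smul, div_eq_mul_inv]
  have hrev := hE.rev c w
  rw [hwb, hvel] at hrev
  have hflow := hE.flow a v 1 (nm h c w / nm h a v)
  rw [one_smul, hrev] at hflow
  rw [dh_comm hm, hcw]
  exact hflow.symm

end Pool.Agent.Lib.MP_df705a_gt.Pin.A
end
end

section

/-!
# Ricci pinching, part A, AH1a: splitting distances, no corners
-/

open scoped Manifold ContDiff Topology
open Set Bundle Module Filter MeasureTheory

noncomputable section

set_option linter.unusedSectionVars false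

namespace Pool.Agent.Lib.MP_df705a_gt.Pin.A

variable {E : Type*} [NormedAddCommGroup E] [NormedSpace ℝ E] [FiniteDimensional ℝ E]
  {h : Curv.Coeff E}

variable {Ex : E → E → E}

/-- Proof: the sphere `S = {v | nm h p v = s}` is compact (`nm_compact` for `K = {p}`) and nonempty:
by `dh_split` there are points `x` with `dh h p x = s < ε`, and by `Nb.surj`, `Nb.dist` they are
`Ex p v` with `nm h p v = s`. Let `v` minimize the continuous function `dh h (Ex p v) q` on `S`. For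
every `η > 0` `dh_split` gives a point of `S` with value `≤ dh h p q - s + η`, so the minimum is
`≤ dh h p q - s`; the triangle inequality and `Nb.dist` give `≥`. -/
theorem Nb.split (hm : Curv.IsMetric h) (hE : IsExp h Ex) {p q : E} {ε s : ℝ} (hN : Nb h Ex p ε)
    (hs : 0 < s) (hs' : s < ε) (hq : s ≤ dh h p q) :
    ∃ v, nm h p v = s ∧ dh h (Ex p v) q = dh h p q - s := by
  have hproper : ProperSpace E := FiniteDimensional.proper ℝ E
  have hnmc : Continuous (nm h p) := (nm_continuous hm).comp (Continuous.prodMk_right p)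
  have hpt : ∀ η : ℝ, 0 < η → ∃ v, nm h p v = s ∧ dh h (Ex p v) q ≤ dh h p q - s + η := by
    intro η hη
    obtain ⟨x, hx1, hx2⟩ := dh_split hm hs.le hq hη
    obtain ⟨v, hv1, hv2⟩ := Nb.surj hm hE hN (y := x) (by rw [hx1]; exact hs')
    have hv3 := Nb.dist hm hE hN hv1
    rw [hv2, hx1] at hv3
    exact ⟨v, hv3.symm, by rw [hv2]; exact hx2⟩
  obtain ⟨v₁, hv₁, -⟩ := hpt 1 one_pos
  have hScl : IsClosed {v | nm h p v = s} := isClosed_eq hnmc continuous_const
  have hS : IsCompact {v | nm h p v = s} := by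
    obtain ⟨c, C, hc, _, hcC⟩ := nm_compact hm (isCompact_singleton (x := p))
    apply (isCompact_closedBall (0 : E) (s / c)).of_isClosed_subset hScl
    intro v hv
    rw [mem_closedBall_zero_iff, le_div_iff₀ hc]
    have h1 := (hcC p rfl v).1
    have h2 : nm h p v = s := hv
    rw [h2] at h1
    linarith
  have hEc : Continuous (Ex p) := (hE.smooth.continuous).comp (Continuous.prodMk_right p)
  have hf : Continuous fun v => dh h (Ex p v) q :=
    (dh_continuous hm).comp (hEc.prodMk continuous_const)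
  obtain ⟨v₀, hv₀, hmin⟩ := hS.exists_isMinOn ⟨v₁, hv₁⟩ hf.continuousOn
  have hv₀' : nm h p v₀ = s := hv₀
  refine ⟨v₀, hv₀', le_antisymm ?_ ?_⟩
  · apply le_of_forall_pos_le_add
    intro η hη
    obtain ⟨v, hv, hv2⟩ := hpt η hη
    have h3 : dh h (Ex p v₀) q ≤ dh h (Ex p v) q := hmin hv
    exact h3.trans hv2
  · have h4 := dh_triangle hm p (Ex p v₀) q
    rw [Nb.dist hm hE hN (by rw [hv₀']; exact hs'), hv₀'] at h4
    linarith

end Pool.Agent.Lib.MP_df705a_gt.Pin.A
end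
end

section

/-!
# Ricci pinching, part A, AH2a: the theorem of Hopf and Rinow
-/

open scoped Manifold ContDiff Topology
open Set Bundle Module Filter MeasureTheory

noncomputable section

set_option linter.unusedSectionVars false

namespace Pool.Agent.Lib.MP_df705a_gt.Pin.A

variable {E : Type*} [NormedAddCommGroup E] [NormedSpace ℝ E] [FiniteDimensional ℝ E]
  {h : Curv.Coeff E}

variable {Ex : E → E → E}

/-- One step. Proof: put `y₀ = Ex p (t • e)`, `a = Ex p ((t - s) • e)`. By `Nb.split` at `y₀` there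
is `w` with `nm h y₀ w = s` and `dh h z q = dh h y₀ q - s = L - t - s`, `z = Ex y₀ w`,
`L = dh h p q`; `dh h y₀ z = s` by `Nb.dist`. One has `dh h p a ≤ t - s` and `dh h a y₀ ≤ s`
(`IsExp.dist_le`), `dh h a z ≥ dh h p q - dh h p a - dh h z q ≥ 2 s`, so `dh h a z = 2 s` and
`dh h a y₀ = s`. Apply `no_corner` with `v = s • vel Ex p e (t - s)` at `a`: `Ex a v = y₀`
(`IsExp.flow`), `nm h a v = s` (`IsExp.speed`), hence
`z = Ex a ((1 + s / s) • v) = Ex p ((t - s + 2 s) • e) = Ex p ((t + s) • e)`. The radii: `z` is in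
the ball `dh h p z ≤ L`, since `dh h p z ≤ dh h p y₀ + dh h y₀ z ≤ t + s ≤ L`. -/
theorem hopf_rinow_step (hm : Curv.IsMetric h) (hE : IsExp h Ex) {p q e : E} {ε s t : ℝ}
    (hN : ∀ x, dh h p x ≤ dh h p q → Nb h Ex x ε) (he : nm h p e = 1) (hs : 0 < s)
    (hsε : 2 * s < ε) (hst : s ≤ t) (hts : t + s ≤ dh h p q)
    (ht : dh h (Ex p (t • e)) q = dh h p q - t) :
    dh h (Ex p ((t + s) • e)) q = dh h p q - (t + s) := by
  set y₀ := Ex p (t • e) with hy₀
  set a := Ex p ((t - s) • e) with ha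
  have h0 : Ex p ((0 : ℝ) • e) = p := by rw [zero_smul]; exact hE.zero p
  have ht0 : 0 ≤ t := hs.le.trans hst
  have hpy : dh h p y₀ ≤ t := by
    have h1 := hE.dist_le hm p e 0 t
    rwa [h0, sub_zero, abs_of_nonneg ht0, he, mul_one] at h1
  have hpa : dh h p a ≤ t - s := by
    have h1 := hE.dist_le hm p e 0 (t - s)
    rwa [h0, sub_zero, abs_of_nonneg (sub_nonneg.2 hst), he, mul_one] at h1
  have hay : dh h a y₀ ≤ s := by
    have h1 := hE.dist_le hm p e (t - s) t
    rwa [sub_sub_cancel, abs_of_pos hs, he, mul_one] at h1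
  have hNy := hN y₀ (by linarith)
  have hNa := hN a (by linarith)
  obtain ⟨w, hw, hwq⟩ := Nb.split hm hE (q := q) hNy hs (by linarith) (by rw [ht]; linarith)
  have hyz : dh h y₀ (Ex y₀ w) = s := by
    rw [Nb.dist hm hE hNy (by rw [hw]; linarith), hw]
  set z := Ex y₀ w with hz
  rw [ht] at hwq
  have haz1 : 2 * s ≤ dh h a z := by
    have h1 := dh_triangle hm p a q
    have h2 := dh_triangle hm a z q
    linarith
  have haz2 := dh_triangle hm a y₀ z
  have haz : dh h a z = 2 * s := by linarith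
  have hNz := hN z (by
    have h1 := dh_triangle hm p y₀ z
    linarith)
  have hav : Ex a (s • vel Ex p e (t - s)) = y₀ := by
    rw [ha, hE.flow, sub_add_cancel]
  have hnm : nm h a (s • vel Ex p e (t - s)) = s := by
    rw [nm_smul, ha, hE.speed hm, he, mul_one, abs_of_pos hs]
  have hv0 : s • vel Ex p e (t - s) ≠ 0 := by
    intro h1
    rw [h1, nm_zero] at hnm
    exact hs.ne hnm
  have hnc := no_corner hm hE hNa hNz (v := s • vel Ex p e (t - s)) (by rw [hnm]; linarith) hv0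
    (by rw [hav, hyz]; linarith) (by
      rw [hav]
      intro h1
      rw [← h1, dh_self hm] at hyz
      exact hs.ne hyz) (by rw [hav, hyz, hnm, haz]; ring)
  rw [hav, hyz, hnm, div_self hs.ne', smul_smul, ha, hE.flow] at hnc
  have h2 : t - s + (1 + 1) * s = t + s := by ring
  rw [h2] at hnc
  rw [hnc, hwq]
  ring

end Pool.Agent.Lib.MP_df705a_gt.Pin.A
end
end
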