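import Pool.Agent.Lib.MP_df705a_gt.Pin.GE1
import Pool.Agent.Lib.MP_df705a_gt.Mg.G065
import Pool.Agent.Lib.MP_df705a_gt.Mg.G060
import Pool.Agent.Lib.MP_df705a_gt.Mg.G066
import Pool.Agent.Lib.MP_df705a_gt.Coll.T.B1
import Pool.Agent.Lib.MP_df705a_gt.Mg.G064
import Pool.Agent.Lib.MP_df705a_gt.Mg.G063
import Pool.Agent.Lib.MP_df705a_gt.Mg.G062
import Pool.Agent.Lib.MP_df705a_gt.Mg.G059
import Pool.Agent.Lib.MP_df705a_gt.Mg.G070
import Pool.Agent.Lib.MP_df705a_gt.Pin.AH2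
import Pool.Agent.Lib.MP_df705a_gt.Mg.G061

section

/-!
# TASK GF3: lifts are isometries, cocompactness
-/

open scoped Manifold ContDiff Topology
open Set Bundle Module Filter MeasureTheory

noncomputable section

namespace Pool.Agent.Lib.MP_df705a_gt.Pin

open Pool.Agent.Lib.MP_df705a_gt.Coll (Met)

variable {E' : Type*} [NormedAddCommGroup E'] [NormedSpace ℝ E'] [FiniteDimensional ℝ E']
  {E : Type*} [NormedAddCommGroup E] [NormedSpace ℝ E] [FiniteDimensional ℝ E]
  {F : Type*} [NormedAddCommGroup F] [InnerProductSpace ℝ F] [FiniteDimensional ℝ F]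
  {M : Type*} [TopologicalSpace M] [ChartedSpace E M] [IsManifold 𝓘(ℝ, E) ∞ M]
  {q : E' → M} {s : E' → F}

/-- Lifts preserve the metric: `ip_st`, the chain rule for `q ∘ γ = q` and `s ∘ γ = s + a`. -/
theorem ip_lift (g : Met E M) (H : StableCover E q s) {γ : E' → E'} (hγ : ContDiff ℝ ∞ γ) {a : F}
    (hγq : ∀ w, q (γ w) = q w ∧ s (γ w) = s w + a) (w v : E') :
    Curv.ip (st g q s) (γ w) (fderiv ℝ γ w v) (fderiv ℝ γ w v) = Curv.ip (st g q s) w v v := by
  rw [ip_st, ip_st]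
  have hinf : (∞ : WithTop ℕ∞) ≠ 0 := by simp
  have key : ∀ (x y : M), x = y → ∀ (u v : E),
      g.inner x (show TangentSpace 𝓘(ℝ, E) x from u) (show TangentSpace 𝓘(ℝ, E) x from v) =
      g.inner y (show TangentSpace 𝓘(ℝ, E) y from u) (show TangentSpace 𝓘(ℝ, E) y from v) := by
    rintro x _ rfl u v
    rfl
  have key2 : ∀ (f f' : E' → M), f = f' → ∀ v : E',
      (mfderiv 𝓘(ℝ, E') 𝓘(ℝ, E) f w v : E) = (mfderiv 𝓘(ℝ, E') 𝓘(ℝ, E) f' w v : E) := by
    rintro f _ rfl v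
    rfl
  have hqc : q ∘ γ = q := funext fun w => (hγq w).1
  have hsc : s ∘ γ = fun w => s w + a := funext fun w => (hγq w).2
  have hγd : DifferentiableAt ℝ γ w := (hγ.differentiable (by simp)) w
  have h1 : (mfderiv 𝓘(ℝ, E') 𝓘(ℝ, E) q (γ w) (fderiv ℝ γ w v) : E) =
      (mfderiv 𝓘(ℝ, E') 𝓘(ℝ, E) q w v : E) := by
    have h2 := mfderiv_comp (I := 𝓘(ℝ, E')) (I' := 𝓘(ℝ, E')) (I'' := 𝓘(ℝ, E)) w
      ((H.smooth_q.mdifferentiable (by simp)) (γ w)) hγd.mdifferentiableAt
    have h3 := key2 _ _ hqc v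
    rw [h2, mfderiv_eq_fderiv] at h3
    exact h3
  have h4 : fderiv ℝ s (γ w) (fderiv ℝ γ w v) = fderiv ℝ s w v := by
    have h5 := fderiv_comp w ((H.smooth_s.differentiable (by simp)) (γ w)) hγd
    rw [hsc, fderiv_add_const] at h5
    rw [h5]
    rfl
  rw [h4]
  congr 1
  exact (key _ _ (hγq w).1 _ _).trans (congrArg₂ (fun u v : E =>
    g.inner (q w) (show TangentSpace 𝓘(ℝ, E) (q w) from u)
      (show TangentSpace 𝓘(ℝ, E) (q w) from v)) h1 h1)

/-- For `x : E'` choose `z ∈ K` with `q z = q x`, `s z = 0 = s x + (- s x)`, and let `G' x` be a lift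
with `G' x x = z` and `G x` its inverse. `dh_map_le` for both gives the invariance of the
distance. -/
theorem exists_coCpt [CompactSpace M] (g : Met E M) (H : StableCover E q s) :
    ∃ (K : Set E') (G G' : E' → E' → E'), CoCpt (dh (st g q s)) K G G' := by
  obtain ⟨K, hK, hKs⟩ := exists_compact_cover H
  have hh := isMetric_st g H
  have hex : ∀ x : E', ∃ γ γ' : E' → E', ContDiff ℝ ∞ γ ∧ ContDiff ℝ ∞ γ' ∧ (∀ w, γ (γ' w) = w) ∧
      (∀ w, γ' (γ w) = w) ∧ (∀ w, q (γ w) = q w ∧ s (γ w) = s w + -s x) ∧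
      (∀ w, q (γ' w) = q w ∧ s (γ' w) = s w + s x) ∧ γ x ∈ K := by
    intro x
    obtain ⟨z, hz, hqz, hsz⟩ := hKs (q x)
    obtain ⟨γ, γ', hγ, hγ', h1, h2, h3, h4, h5⟩ := exists_lift H (x := x) (z := z) (a := -s x) hqz
      (by rw [hsz, add_neg_cancel])
    have h6 : ∀ w, q (γ' w) = q w ∧ s (γ' w) = s w + s x := fun w =>
      ⟨(h4 w).1, by rw [(h4 w).2, sub_neg_eq_add]⟩
    exact ⟨γ, γ', contDiff_lift H hγ h3, contDiff_lift H hγ' h6, h1, h2, h3, h6, h5 ▸ hz⟩
  choose G' G h1 h2 h3 h4 h5 h6 h7 using hex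
  have hle : ∀ x y z, dh (st g q s) (G x y) (G x z) ≤ dh (st g q s) y z := fun x y z =>
    dh_map_le hh ((h2 x).of_le (by simp)) (fun w v => ip_lift g H (h2 x) (h6 x) w v) y z
  have hle' : ∀ x y z, dh (st g q s) (G' x y) (G' x z) ≤ dh (st g q s) y z := fun x y z =>
    dh_map_le hh ((h1 x).of_le (by simp)) (fun w v => ip_lift g H (h1 x) (h5 x) w v) y z
  refine ⟨K, G, G', hK, fun x => (h2 x).of_le (by simp), fun x => (h1 x).of_le (by simp), h4, h3,
    fun x y z => le_antisymm (hle x y z) ?_, h7⟩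
  have h8 := hle' x (G x y) (G x z)
  rw [h3, h3] at h8
  exact h8

end Pool.Agent.Lib.MP_df705a_gt.Pin
end
end

section

/-!
# Ricci pinching, part A, AR4b: the inequality of Riccati
-/

open scoped Manifold ContDiff Topology
open Set Bundle Module Filter MeasureTheory

noncomputable section

set_option linter.unusedSectionVars false

namespace Pool.Agent.Lib.MP_df705a_gt.Pin.A

open Pool.Agent.Lib.MP_df705a_gt.Twist Pool.Agent.Lib.MP_df705a_gt.Perm
open Pool.Agent.Lib.MP_df705a_gt.Coll (trM ipM)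
open Pool.Agent.Lib.MP_df705a_gt.Coll.T (ddC mat pull RM SmF)

variable {E : Type*} [NormedAddCommGroup E] [NormedSpace ℝ E] [FiniteDimensional ℝ E]
  {h : Curv.Coeff E}

variable {Ex : E → E → E}

/-- Proof: `ipM (hess q) (ddC q q) = (1/2) ⟨∇q, ∇|∇q|²⟩` by `hess_grdC` (Coll/T/B1.lean) with
`q = nm h p`, and `|∇q|² = gradC q q = 1` near `v` (`gradC_nm_nm`, `eventually_det_ne`). -/
theorem ipM_hess_nm (hm : Curv.IsMetric h) (hE : IsExp h Ex) {p v : E} (hv : v ≠ 0)
    (hd : (fderiv ℝ (Ex p) v).det ≠ 0) :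
    ipM (hp h Ex p v) (Curv.covHess (hp h Ex p) (nm h p) v) (ddC (nm h p) (nm h p) v) = 0 := by
  have hsm : SmF (nm h p) v := by
    have h1 : ∀ᶠ w in 𝓝 v, w ≠ 0 := isOpen_ne.mem_nhds hv
    filter_upwards [h1] with w hw
    exact nm_smooth hm p hw
  rw [Coll.T.hess_grdC (hp_rm hm hE hd) hsm hsm hsm]
  have h2 : gradC (hp h Ex p) (nm h p) (nm h p) =ᶠ[𝓝 v] fun _ => (1 : ℝ) := by
    have h1 : ∀ᶠ w in 𝓝 v, w ≠ 0 := isOpen_ne.mem_nhds hv
    filter_upwards [h1, eventually_det_ne hE hd] with w hw hdw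
    exact gradC_nm_nm hm hE hw hdw
  have h3 : gradC (hp h Ex p) (nm h p) (gradC (hp h Ex p) (nm h p) (nm h p)) v = 0 := by
    rw [g3_gradC_congr (EventuallyEq.refl _ _) h2]
    unfold gradC Curv.pd
    simp
  rw [h3]
  ring

/-- Proof: `sq_trM_le_of_kernel` with `S = covHess`, `D = ddC (nm h p) (nm h p) v`;
`trM H D = gradC q q = 1`, `ipM H D D = (gradC q q)² = 1` (compute with the sums), `ipM_hess_nm`,
`ipM_comm`; `mc = trM H S` by definition. -/
theorem sq_mc_le (hm : Curv.IsMetric h) (hE : IsExp h Ex) {p v : E} (hv : v ≠ 0)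
    (hd : (fderiv ℝ (Ex p) v).det ≠ 0) :
    mc h Ex p v ^ 2 ≤ ((finrank ℝ E : ℝ) - 1) *
      ipM (hp h Ex p v) (Curv.covHess (hp h Ex p) (nm h p) v)
        (Curv.covHess (hp h Ex p) (nm h p) v) := by
  have hn : 0 < finrank ℝ E := by
    have : Nontrivial E := ⟨v, 0, hv⟩
    exact finrank_pos
  have hRM := hp_rm hm hE hd
  have h1 := ipM_hess_nm hm hE hv hd
  have h2 : ipM (hp h Ex p v) (ddC (nm h p) (nm h p) v) (Curv.covHess (hp h Ex p) (nm h p) v) = 0 := by
    rw [Coll.T.ipM_comm hRM.symm]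
    exact h1
  have hD : ∀ i j, ddC (nm h p) (nm h p) v i j = Curv.pd i (nm h p) v * Curv.pd j (nm h p) v := by
    intro i j
    unfold ddC
    ring
  have h5 : ∑ i, ∑ j, (hp h Ex p v)⁻¹ i j * (Curv.pd i (nm h p) v * Curv.pd j (nm h p) v) = 1 :=
    gradC_nm_nm hm hE hv hd
  have h4 : trM (hp h Ex p v) (ddC (nm h p) (nm h p) v) = 1 := by
    unfold trM
    simp only [hD]
    exact h5
  have h3 : ipM (hp h Ex p v) (ddC (nm h p) (nm h p) v) (ddC (nm h p) (nm h p) v) = 1 := by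
    unfold ipM
    simp only [hD]
    have h6 : ∑ i, ∑ j, ∑ a, ∑ b, (hp h Ex p v)⁻¹ i a * (hp h Ex p v)⁻¹ j b *
        (Curv.pd i (nm h p) v * Curv.pd j (nm h p) v * (Curv.pd a (nm h p) v * Curv.pd b (nm h p) v)) =
        (∑ i, ∑ a, (hp h Ex p v)⁻¹ i a * (Curv.pd i (nm h p) v * Curv.pd a (nm h p) v)) *
        (∑ j, ∑ b, (hp h Ex p v)⁻¹ j b * (Curv.pd j (nm h p) v * Curv.pd b (nm h p) v)) := by
      rw [Finset.sum_mul]
      refine Finset.sum_congr rfl fun i _ => ?_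
      rw [Finset.mul_sum]
      refine Finset.sum_congr rfl fun j _ => ?_
      rw [Finset.sum_mul]
      refine Finset.sum_congr rfl fun a _ => ?_
      rw [Finset.mul_sum]
      refine Finset.sum_congr rfl fun b _ => ?_
      ring
    rw [h6, h5, mul_one]
  exact sq_trM_le_of_kernel hn hRM.self.2 h1 h2 h3 h4

end Pool.Agent.Lib.MP_df705a_gt.Pin.A
end
end

section

/-!
# Ricci pinching, part A, AR4c: the inequality of Riccati
-/

open scoped Manifold ContDiff Topology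
open Set Bundle Module Filter MeasureTheory

noncomputable section

set_option linter.unusedSectionVars false

namespace Pool.Agent.Lib.MP_df705a_gt.Pin.A

open Pool.Agent.Lib.MP_df705a_gt.Twist Pool.Agent.Lib.MP_df705a_gt.Perm
open Pool.Agent.Lib.MP_df705a_gt.Coll (trM ipM)
open Pool.Agent.Lib.MP_df705a_gt.Coll.T (ddC mat pull RM SmF)

variable {E : Type*} [NormedAddCommGroup E] [NormedSpace ℝ E] [FiniteDimensional ℝ E]
  {h : Curv.Coeff E}

variable {Ex : E → E → E}

namespace AR4cAux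

theorem smF_nm (hm : Curv.IsMetric h) (p : E) {v : E} (hv : v ≠ 0) : SmF (nm h p) v := by
  filter_upwards [isOpen_ne.mem_nhds hv] with z hz
  exact nm_smooth hm p hz

theorem lap_grad_nm (hm : Curv.IsMetric h) (hE : IsExp h Ex) {p v : E} (hv : v ≠ 0)
    (hd : (fderiv ℝ (Ex p) v).det ≠ 0) :
    lapC (hp h Ex p) (gradC (hp h Ex p) (nm h p) (nm h p)) v = 0 := by
  have h1 : gradC (hp h Ex p) (nm h p) (nm h p) =ᶠ[𝓝 v] fun _ => (1 : ℝ) := by
    filter_upwards [isOpen_ne.mem_nhds hv, eventually_det_ne hE hd] with z hz hdz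
    exact gradC_nm_nm hm hE hz hdz
  rw [g3_lapC_congr h1]
  have hpd : ∀ i : Fin (finrank ℝ E), Curv.pd i (fun _ : E => (1 : ℝ)) = fun _ => 0 := by
    intro i
    funext x
    unfold Curv.pd
    simp
  have hpd0 : ∀ i : Fin (finrank ℝ E), Curv.pd i (fun _ : E => (0 : ℝ)) = fun _ => 0 := by
    intro i
    funext x
    unfold Curv.pd
    simp
  unfold lapC
  refine Finset.sum_eq_zero fun i _ => Finset.sum_eq_zero fun j _ => ?_
  have h2 : Curv.covHess (hp h Ex p) (fun _ => (1 : ℝ)) v i j = 0 := by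
    unfold Curv.covHess
    simp only [hpd, hpd0, mul_zero, Finset.sum_const_zero, sub_zero]
  rw [h2, mul_zero]

theorem grad_coord (hm : Curv.IsMetric h) (hE : IsExp h Ex) {p v : E} (hv : v ≠ 0)
    (hd : (fderiv ℝ (Ex p) v).det ≠ 0) (i : Fin (finrank ℝ E)) :
    ∑ a, (hp h Ex p v)⁻¹ i a * Curv.pd a (nm h p) v =
      (nm h p v)⁻¹ * (finBasis ℝ E).repr v i := by
  have h1 := congrArg (fun w => (finBasis ℝ E).repr w i) (gradM_nm hm hE hv hd)
  have h2 : (finBasis ℝ E).repr (gradM (finBasis ℝ E) (hp h Ex p v) (fderiv ℝ (nm h p) v)) i =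
      ∑ a, (hp h Ex p v)⁻¹ i a * fderiv ℝ (nm h p) v (finBasis ℝ E a) := by
    unfold gradM
    exact congrFun ((finBasis ℝ E).repr_sum_self _) i
  have h3 : (finBasis ℝ E).repr ((nm h p v)⁻¹ • v) i =
      (nm h p v)⁻¹ * (finBasis ℝ E).repr v i := by
    rw [map_smul, Finsupp.smul_apply, smul_eq_mul]
  exact h2.symm.trans (h1.trans h3)

/-- The pairing with a symmetric product of differentials. -/
theorem ipM_dd {n : ℕ} (G R : Matrix (Fin n) (Fin n) ℝ) (d : Fin n → ℝ) :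
    ipM G R (fun a b => (d a * d b + d b * d a) / 2) =
      ∑ i, ∑ j, R i j * ((∑ a, G⁻¹ i a * d a) * (∑ b, G⁻¹ j b * d b)) := by
  unfold ipM
  refine Finset.sum_congr rfl fun i _ => Finset.sum_congr rfl fun j _ => ?_
  rw [Finset.sum_mul_sum, Finset.mul_sum]
  refine Finset.sum_congr rfl fun a _ => ?_
  rw [Finset.mul_sum]
  refine Finset.sum_congr rfl fun b _ => ?_
  ring

theorem form_conj (S S' : Matrix (Fin (finrank ℝ E)) (Fin (finrank ℝ E)) ℝ) (L : E →L[ℝ] E)
    (hS : S' = (mat L).transpose * S * mat L) (u v : E) :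
    ∑ i, ∑ j, S' i j * ((finBasis ℝ E).repr u i * (finBasis ℝ E).repr v j) =
      ∑ i, ∑ j, S i j * ((finBasis ℝ E).repr (L u) i * (finBasis ℝ E).repr (L v) j) := by
  have h1 := PJ.law_apply (H' := S') (H := S) (L := L) hS u v
  rw [Alg.mkB_apply, Alg.mkB_apply] at h1
  simpa using h1

end AR4cAux

open AR4cAux in
/-- The formula of Bochner for the distance function.
Proof: `bochnerC` (Coll/T/B1.lean) with `u = v = nm h p`: the term `lapC (gradC q q)` vanishes since
`gradC q q = 1` near `v`, `gradC q (mc) = fderiv mc v v / nm h p v` (`gradC_nm`), and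
`ipM H (ric H) (ddC q q) = ∑ ric_{ij} w_i w_j` with `w = gradM (fderiv q) = v / nm h p v`
(`gradM_nm`); by `ric_pull` (Coll/T/L3.lean) this is
`rc h (Ex p v) (fderiv (Ex p) v v) / nm h p v ^ 2`. -/
theorem fderiv_mc (hm : Curv.IsMetric h) (hE : IsExp h Ex) {p v : E} (hv : v ≠ 0)
    (hd : (fderiv ℝ (Ex p) v).det ≠ 0) :
    fderiv ℝ (mc h Ex p) v v / nm h p v =
      -ipM (hp h Ex p v) (Curv.covHess (hp h Ex p) (nm h p) v)
        (Curv.covHess (hp h Ex p) (nm h p) v) -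
      rc h (Ex p v) (vel Ex p v 1) / nm h p v ^ 2 := by
  have hR : RM (hp h Ex p) v := hp_rm hm hE hd
  have hq : SmF (nm h p) v := smF_nm hm p hv
  have key := Coll.T.bochnerC hR hq hq
  rw [lap_grad_nm hm hE hv hd] at key
  have h1 : gradC (hp h Ex p) (nm h p) (lapC (hp h Ex p) (nm h p)) v =
      fderiv ℝ (mc h Ex p) v v / nm h p v := gradC_nm hm hE hv hd (mc h Ex p)
  rw [h1] at key
  have h2 : ipM (hp h Ex p v) (Coll.ric (hp h Ex p) v) (ddC (nm h p) (nm h p) v) =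
      rc h (Ex p v) (vel Ex p v 1) / nm h p v ^ 2 := by
    have h3 : Coll.ric (hp h Ex p) v = (mat (fderiv ℝ (Ex p) v)).transpose *
        Coll.ric h (Ex p v) * mat (fderiv ℝ (Ex p) v) := by
      have hsm : ContDiffAt ℝ ∞ (Ex p) v :=
        (hE.smooth.comp (contDiff_const.prodMk contDiff_id)).contDiffAt
      refine Coll.T.ric_pull hsm hd (fun i j => (hm.1 i j).contDiffAt) ?_ ?_
        (Eventually.of_forall fun _ => rfl)
      · refine Eventually.of_forall fun x i j => ?_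
        have h8 := (hm.2 x).isHermitian.apply i j
        simpa using h8.symm
      · exact (hm.2 (Ex p v)).det_pos.ne'
    have h4 : ddC (nm h p) (nm h p) v = fun a b =>
        (Curv.pd a (nm h p) v * Curv.pd b (nm h p) v +
          Curv.pd b (nm h p) v * Curv.pd a (nm h p) v) / 2 := rfl
    rw [h4, ipM_dd]
    simp only [grad_coord hm hE hv hd]
    have h5 := form_conj _ _ _ h3 v v
    have h6 : vel Ex p v 1 = fderiv ℝ (Ex p) v v := by
      unfold vel
      rw [one_smul]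
    have h7 : rc h (Ex p v) (vel Ex p v 1) = ∑ i, ∑ j, Coll.ric h (Ex p v) i j *
        ((finBasis ℝ E).repr (fderiv ℝ (Ex p) v v) i *
          (finBasis ℝ E).repr (fderiv ℝ (Ex p) v v) j) := by
      rw [h6]
      rfl
    rw [h7, ← h5, div_eq_inv_mul, Finset.mul_sum]
    refine Finset.sum_congr rfl fun i _ => ?_
    rw [Finset.mul_sum]
    refine Finset.sum_congr rfl fun j _ => ?_
    have h9 : (nm h p v ^ 2)⁻¹ = (nm h p v)⁻¹ * (nm h p v)⁻¹ := by
      rw [pow_two, mul_inv]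
    calc Coll.ric (hp h Ex p) v i j * ((nm h p v)⁻¹ * (finBasis ℝ E).repr v i *
          ((nm h p v)⁻¹ * (finBasis ℝ E).repr v j))
        = ((nm h p v)⁻¹ * (nm h p v)⁻¹) * (Coll.ric (hp h Ex p) v i j *
          ((finBasis ℝ E).repr v i * (finBasis ℝ E).repr v j)) := by ring
      _ = _ := by rw [← h9]
  rw [h2] at key
  linarith

end Pool.Agent.Lib.MP_df705a_gt.Pin.A
end
end

section

/-!
# Ricci pinching, part A, AR4: the inequality of Riccati
-/

open scoped Manifold ContDiff Topology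
open Set Bundle Module Filter MeasureTheory

noncomputable section

set_option linter.unusedSectionVars false

namespace Pool.Agent.Lib.MP_df705a_gt.Pin.A

open Pool.Agent.Lib.MP_df705a_gt.Twist Pool.Agent.Lib.MP_df705a_gt.Perm
open Pool.Agent.Lib.MP_df705a_gt.Coll (trM ipM)
open Pool.Agent.Lib.MP_df705a_gt.Coll.T (ddC mat pull RM SmF)

variable {E : Type*} [NormedAddCommGroup E] [NormedSpace ℝ E] [FiniteDimensional ℝ E]
  {h : Curv.Coeff E}

variable {Ex : E → E → E}

namespace AR4Aux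

theorem rc_smul (h : Curv.Coeff E) (x u : E) (c : ℝ) : rc h x (c • u) = c ^ 2 * rc h x u := by
  unfold rc
  rw [Finset.mul_sum]
  refine Finset.sum_congr rfl fun i _ => ?_
  rw [Finset.mul_sum]
  refine Finset.sum_congr rfl fun j _ => ?_
  simp only [map_smul, Finsupp.smul_apply, smul_eq_mul]
  ring

end AR4Aux

/-- The Riccati inequality along the ray of a unit vector. Proof: `fderiv_mc`, `sq_mc_le`,
`ipM_self_nonneg` (Coll/T/A2.lean); `vel Ex p (s • e) 1 = s • vel Ex p e s` (`vel_smul`) and `rc` is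
quadratic. -/
theorem ray_riccati (hm : Curv.IsMetric h) (hE : IsExp h Ex) {p e : E} (he : nm h p e = 1) {s : ℝ}
    (hs : 0 < s) (hd : (fderiv ℝ (Ex p) (s • e)).det ≠ 0) :
    ∃ H : ℝ, 0 ≤ H ∧ mc h Ex p (s • e) ^ 2 ≤ ((finrank ℝ E : ℝ) - 1) * H ∧
      HasDerivAt (fun s : ℝ => mc h Ex p (s • e))
        (-H - rc h (Ex p (s • e)) (vel Ex p e s)) s := by
  have he0 : e ≠ 0 := by
    rintro rfl
    rw [nm_zero] at he
    norm_num at he
  have hv : s • e ≠ 0 := smul_ne_zero hs.ne' he0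
  have hnm : nm h p (s • e) = s := by rw [nm_smul, he, mul_one, abs_of_pos hs]
  have hrm := hp_rm hm hE hd
  refine ⟨ipM (hp h Ex p (s • e)) (Curv.covHess (hp h Ex p) (nm h p) (s • e))
        (Curv.covHess (hp h Ex p) (nm h p) (s • e)), Coll.T.ipM_self_nonneg hrm.self.2 _,
        sq_mc_le hm hE hv hd, ?_⟩
  have hdiff : DifferentiableAt ℝ (mc h Ex p) (s • e) :=
    (mc_smooth hm hE hv hd).differentiableAt (by simp)
  have h1 : HasDerivAt (fun s : ℝ => s • e) e s := by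
    simpa using (hasDerivAt_id s).smul_const e
  have h2 := hdiff.hasFDerivAt.comp_hasDerivAt s h1
  have h3 := fderiv_mc hm hE hv hd
  rw [hnm] at h3
  have h4 : vel Ex p (s • e) 1 = s • vel Ex p e s := by rw [vel_smul, one_mul]
  rw [h4, AR4Aux.rc_smul, map_smul, smul_eq_mul, mul_div_cancel_left₀ _ hs.ne',
    mul_div_cancel_left₀ _ (pow_ne_zero 2 hs.ne')] at h3
  rw [← h3]
  exact h2

end Pool.Agent.Lib.MP_df705a_gt.Pin.A
end
end

section

/-!
# Ricci pinching, part A, AR5b: comparison along regular rays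
-/

open scoped Manifold ContDiff Topology
open Set Bundle Module Filter MeasureTheory

noncomputable section

set_option linter.unusedSectionVars false

namespace Pool.Agent.Lib.MP_df705a_gt.Pin.A

open Pool.Agent.Lib.MP_df705a_gt.Twist Pool.Agent.Lib.MP_df705a_gt.Perm
open Pool.Agent.Lib.MP_df705a_gt.Coll (trM ipM)
open Pool.Agent.Lib.MP_df705a_gt.Coll.T (ddC mat pull RM SmF)

variable {E : Type*} [NormedAddCommGroup E] [NormedSpace ℝ E] [FiniteDimensional ℝ E]
  {h : Curv.Coeff E}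

variable {Ex : E → E → E}

/-- Proof: `riccati_upper` for `δ s = mc h Ex p (s e) - (n - 1) / s`: by `ray_riccati`
`δ' = - H - rc + (n - 1) / s² ≤ - 2 δ / s + κ`, since `H ≥ 2 mc / s - (n - 1) / s²`: for `n ≥ 2`
`H ≥ mc² / (n - 1)` and `(mc - (n - 1) / s)² ≥ 0`; for `n = 1` `mc = 0` and `H ≥ 0`. -/
theorem mc_le (hm : Curv.IsMetric h) (hE : IsExp h Ex) {p e : E} (he : nm h p e = 1) {S κ : ℝ}
    (hd : ∀ s ∈ Ioo 0 S, (fderiv ℝ (Ex p) (s • e)).det ≠ 0)
    (hκ : ∀ s ∈ Ioo 0 S, -κ ≤ rc h (Ex p (s • e)) (vel Ex p e s)) {s : ℝ} (hs : s ∈ Ioo 0 S) :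
    mc h Ex p (s • e) - ((finrank ℝ E : ℝ) - 1) / s ≤ κ * s / 3 := by
  have he0 : e ≠ 0 := by
    rintro rfl
    rw [nm_zero] at he
    norm_num at he
  have hN : 0 ≤ (finrank ℝ E : ℝ) - 1 := by
    haveI : Nontrivial E := ⟨⟨e, 0, he0⟩⟩
    have h1 : 0 < finrank ℝ E := finrank_pos
    have h2 : (1 : ℝ) ≤ finrank ℝ E := by exact_mod_cast h1
    linarith
  set N : ℝ := (finrank ℝ E : ℝ) - 1 with hNdef
  set δ : ℝ → ℝ := fun s => mc h Ex p (s • e) - N / s with hδ
  have key : ∀ s ∈ Ioo 0 S, ∃ d, HasDerivAt δ d s ∧ d ≤ -2 * δ s / s + κ := by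
    intro s hs
    obtain ⟨H, hH0, hH1, hH2⟩ := ray_riccati hm hE he hs.1 (hd s hs)
    have hs0 : s ≠ 0 := hs.1.ne'
    have h1 : HasDerivAt (fun s : ℝ => N / s) (-N / s ^ 2) s := by
      have h2 := (hasDerivAt_inv hs0).const_mul N
      have h3 : (fun y : ℝ => N * y⁻¹) = fun s : ℝ => N / s := by
        funext y
        rw [div_eq_mul_inv]
      rw [h3] at h2
      refine h2.congr_deriv ?_
      field_simp
    have h2 := hH2.sub h1
    refine ⟨_, h2, ?_⟩
    have h3 := hκ s hs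
    have h4 : 2 * mc h Ex p (s • e) * s - N ≤ H * s ^ 2 := by
      rcases hN.eq_or_lt with h0 | h0
      · rw [← hNdef, ← h0, zero_mul] at hH1
        have h5 : mc h Ex p (s • e) = 0 := by
          have := le_antisymm hH1 (sq_nonneg _)
          exact pow_eq_zero_iff (two_ne_zero) |>.1 this
        rw [h5, ← h0]
        have : 0 ≤ H * s ^ 2 := by positivity
        linarith
      · rw [← hNdef] at hH1
        have h5 := mul_le_mul_of_nonneg_right hH1 (sq_nonneg s)
        have h6 := sq_nonneg (mc h Ex p (s • e) * s - N)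
        by_contra hcon
        push Not at hcon
        have h7 := mul_lt_mul_of_pos_left hcon h0
        nlinarith
    have h5 : 2 * mc h Ex p (s • e) / s - N / s ^ 2 ≤ H := by
      rw [div_sub_div _ _ hs0 (pow_ne_zero 2 hs0), div_le_iff₀ (by have := hs.1; positivity)]
      have h6 := mul_le_mul_of_nonneg_left h4 hs.1.le
      nlinarith
    have h6 : -2 * δ s / s = -(2 * mc h Ex p (s • e) / s) + 2 * (N / s ^ 2) := by
      rw [hδ]
      field_simp
      ring
    rw [h6]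
    have h7 : -N / s ^ 2 = -(N / s ^ 2) := by ring
    rw [h7]
    linarith
  exact riccati_upper (δ := δ) (δ' := fun s => deriv δ s) (S := S) (κ := κ)
    (fun s hs => by
      obtain ⟨d, h1, h2⟩ := key s hs
      exact h1.differentiableAt.hasDerivAt)
    (fun s hs => by
      obtain ⟨d, h1, h2⟩ := key s hs
      show deriv δ s ≤ _
      rw [h1.deriv]
      exact h2)
    (mc_near_zero hm hE he) hs

end Pool.Agent.Lib.MP_df705a_gt.Pin.A
end
end

section

/-!
# Ricci pinching, part A, AR6b: no conjugate points inside shortest geodesics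
-/

open scoped Manifold ContDiff Topology
open Set Bundle Module Filter MeasureTheory

noncomputable section

set_option linter.unusedSectionVars false

namespace Pool.Agent.Lib.MP_df705a_gt.Pin.A

open Pool.Agent.Lib.MP_df705a_gt.Twist Pool.Agent.Lib.MP_df705a_gt.Perm
open Pool.Agent.Lib.MP_df705a_gt.Coll (trM ipM)
open Pool.Agent.Lib.MP_df705a_gt.Coll.T (ddC mat pull RM SmF)

variable {E : Type*} [NormedAddCommGroup E] [NormedSpace ℝ E] [FiniteDimensional ℝ E]
  {h : Curv.Coeff E}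

variable {Ex : E → E → E}

/-- Proof: `Q w = nm h p w + dh h z (Ex p w)` has a local minimum at `w = v`: near `v`
`nm h p w ≥ dh h p (Ex p w)` (`IsExp.dist_le_one`), so `Q w ≥ dh h p z = Q v`. `Q` is smooth at `v`
(`nm_smooth`, `Nb.dist_smooth` at `Ex p v = Ex z u`). By `lapC_nonneg_of_isLocalMin` for the metric
`hp h Ex p` (`hp_rm`), `G4.lapC_add` (Perm/LapRules.lean) and `lapC_pull` (Perm/Pull.lean)
`0 ≤ mc h Ex p v + lapC h (dh h z) (Ex p v)`. -/
theorem mc_ge (hm : Curv.IsMetric h) (hE : IsExp h Ex) {p v z u : E} {ε : ℝ} (hv : v ≠ 0)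
    (hd : (fderiv ℝ (Ex p) v).det ≠ 0) (hz : Nb h Ex z ε) (hu : nm h z u < ε) (hu0 : u ≠ 0)
    (hzu : Ex z u = Ex p v) (hsum : dh h p z = nm h p v + nm h z u) :
    -lapC h (dh h z) (Ex p v) ≤ mc h Ex p v := by
  have hτ : ContDiffAt ℝ ∞ (Ex p) v := (hE.smooth_at p).contDiffAt
  have hdz : ContDiffAt ℝ ∞ (dh h z) (Ex p v) := by
    rw [← hzu]
    exact hz.dist_smooth hm hE hu hu0
  have hnm : ContDiffAt ℝ ∞ (nm h p) v := nm_smooth hm p hv
  have hcomp : ContDiffAt ℝ ∞ (dh h z ∘ Ex p) v := hdz.comp v hτ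
  have hQ : ContDiffAt ℝ ∞ (fun w => nm h p w + (dh h z ∘ Ex p) w) v := hnm.add hcomp
  have hmin : IsLocalMin (fun w => nm h p w + (dh h z ∘ Ex p) w) v := by
    refine Filter.Eventually.of_forall fun w => ?_
    have h1 : dh h p (Ex p w) ≤ nm h p w := hE.dist_le_one hm p w
    have h2 : dh h p z ≤ dh h p (Ex p w) + dh h (Ex p w) z := dh_triangle hm _ _ _
    have h3 : dh h z (Ex z u) ≤ nm h z u := hE.dist_le_one hm z u
    have h4 : dh h (Ex p w) z = dh h z (Ex p w) := dh_comm hm _ _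
    simp only [Function.comp]
    rw [← hzu]
    linarith
  have hpos : (hp h Ex p v).PosDef := (hp_rm hm hE hd).self_of_nhds.2
  have h0 := lapC_nonneg_of_isLocalMin hpos hQ hmin
  rw [G4.lapC_add (hp h Ex p) hnm hcomp] at h0
  have hpull : lapC (hp h Ex p) (dh h z ∘ Ex p) v = lapC h (dh h z) (Ex p v) := by
    apply lapC_pull hτ hd
    · exact fun i j => (hm.1 i j).contDiffAt
    · refine Filter.Eventually.of_forall fun x i j => ?_
      have h5 := (hm.2 x).isHermitian.apply j i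
      simpa using h5
    · exact (hm.2 _).det_pos.ne'
    · exact Filter.Eventually.of_forall fun x => rfl
    · exact hdz
  rw [hpull] at h0
  have h6 : mc h Ex p v = lapC (hp h Ex p) (nm h p) v := rfl
  rw [h6]
  linarith

end Pool.Agent.Lib.MP_df705a_gt.Pin.A
end
end

section

/-!
# Ricci pinching, part A, AR6: no conjugate points inside shortest geodesics
-/

open scoped Manifold ContDiff Topology
open Set Bundle Module Filter MeasureTheory

noncomputable section

set_option linter.unusedSectionVars false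

namespace Pool.Agent.Lib.MP_df705a_gt.Pin.A

open Pool.Agent.Lib.MP_df705a_gt.Twist Pool.Agent.Lib.MP_df705a_gt.Perm
open Pool.Agent.Lib.MP_df705a_gt.Coll (trM ipM)
open Pool.Agent.Lib.MP_df705a_gt.Coll.T (ddC mat pull RM SmF)

variable {E : Type*} [NormedAddCommGroup E] [NormedSpace ℝ E] [FiniteDimensional ℝ E]
  {h : Curv.Coeff E}

variable {Ex : E → E → E}

namespace AR6Aux

theorem rm (hm : Curv.IsMetric h) (x : E) : RM h x :=
  Filter.Eventually.of_forall fun z => ⟨fun i j => (hm.1 i j).contDiffAt, hm.2 z⟩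

/-- `det (fderiv (Ex p) w)` is continuous. -/
theorem det_cont (hE : IsExp h Ex) (p : E) : Continuous fun w : E => (fderiv ℝ (Ex p) w).det := by
  have h1 : Continuous (fderiv ℝ (Ex p)) := (hE.smooth_at p).continuous_fderiv (by simp)
  exact ContinuousLinearMap.continuous_det.comp h1

/-- Smoothness of the Laplacian of the distance. -/
theorem lap_cont (hm : Curv.IsMetric h) (hE : IsExp h Ex) {z : E} {ε : ℝ} (hN : Nb h Ex z ε) {u : E}
    (hu : nm h z u < ε) (hu0 : u ≠ 0) : ContinuousAt (lapC h (dh h z)) (Ex z u) := by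
  have hne : Ex z u ≠ z := by
    intro heq
    apply hu0
    have h0 : nm h z 0 < ε := by rw [nm_zero]; exact hN.pos
    exact hN.inj hu h0 (by rw [heq, hE.zero])
  have hsm : SmF (dh h z) (Ex z u) := by
    have ho := Nb.isOpen_image hm hE hN (r := ε) le_rfl
    have hmem : Ex z u ∈ Ex z '' {v | nm h z v < ε} := ⟨u, hu, rfl⟩
    filter_upwards [ho.mem_nhds hmem, isOpen_ne.mem_nhds hne] with w hw hwz
    obtain ⟨v, hv, rfl⟩ := hw
    refine Nb.dist_smooth hm hE hN hv ?_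
    rintro rfl
    exact hwz (hE.zero z)
  have h1 : SmF (lapC h (dh h z)) (Ex z u) := Coll.T.smF_lap (rm hm _) hsm
  exact h1.self_of_nhds.continuousAt

theorem dens_ray_lim (hm : Curv.IsMetric h) (hE : IsExp h Ex) {p e : E} {s₀ : ℝ}
    (hdet : (fderiv ℝ (Ex p) (s₀ • e)).det = 0) :
    Tendsto (fun s : ℝ => dens h Ex p (s • e)) (𝓝[<] s₀) (𝓝 0) := by
  have hA := dens_continuous hm hE
  have hB : Continuous fun s : ℝ => ((p, s • e) : E × E) :=
    continuous_const.prodMk (continuous_id.smul continuous_const)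
  have h0 : dens h Ex p (s₀ • e) = 0 := by
    rw [dens_eq hm, hdet, abs_zero, zero_mul]
  have h1 : Tendsto (fun q : E × E => dens h Ex q.1 q.2) (𝓝 (p, s₀ • e)) (𝓝 (dens h Ex p (s₀ • e))) :=
    hA.tendsto (p, s₀ • e)
  have h2 : Tendsto (fun s : ℝ => ((p, s • e) : E × E)) (𝓝[<] s₀) (𝓝 (p, s₀ • e)) :=
    (hB.tendsto s₀).mono_left nhdsWithin_le_nhds
  have h3 := h1.comp h2
  rw [h0] at h3
  exact h3

theorem div_bound (a : ℝ) {c s : ℝ} (hc : 0 < c) (hcs : c ≤ s) : a / s ≤ |a| / c := by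
  have hs : 0 < s := lt_of_lt_of_le hc hcs
  calc a / s ≤ |a| / s := div_le_div_of_nonneg_right (le_abs_self a) hs.le
    _ ≤ |a| / c := div_le_div_of_nonneg_left (abs_nonneg a) hc hcs

theorem fin_step {C m q d : ℝ} (h5 : -C ≤ m) (h4 : q ≤ d) : -(C + d) ≤ m - q := by linarith

end AR6Aux

open AR6Aux in
/-- There are no conjugate points in the interior of a shortest geodesic. -/
theorem Seg.det_ne (hm : Curv.IsMetric h) (hE : IsExp h Ex) {p v : E} (hv : Seg h Ex p v) {t : ℝ}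
    (ht0 : 0 ≤ t) (ht1 : t < 1) : (fderiv ℝ (Ex p) (t • v)).det ≠ 0 := by
  intro hcon
  have hdet0 : (fderiv ℝ (Ex p) 0).det = 1 := by
    rw [hE.fderiv_zero p]
    show LinearMap.det ((ContinuousLinearMap.id ℝ E : E →L[ℝ] E) : E →ₗ[ℝ] E) = 1
    rw [ContinuousLinearMap.coe_id]
    exact LinearMap.det_id
  have htv : t • v ≠ 0 := by
    intro h0
    rw [h0, hdet0] at hcon
    exact one_ne_zero hcon
  have hv0 : v ≠ 0 := by
    rintro rfl
    exact htv (smul_zero t)
  have ht : 0 < t := by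
    rcases ht0.eq_or_lt with h0 | h0
    · exact absurd (by rw [← h0, zero_smul]) htv
    · exact h0
  set L : ℝ := nm h p v with hL
  have hLpos : 0 < L := nm_pos hm p hv0
  set e : E := L⁻¹ • v with he
  have hve : v = L • e := by rw [he, smul_smul, mul_inv_cancel₀ hLpos.ne', one_smul]
  have hne : nm h p e = 1 := by
    rw [he, nm_smul, abs_of_pos (inv_pos.mpr hLpos), ← hL, inv_mul_cancel₀ hLpos.ne']
  have he0 : e ≠ 0 := by
    intro h0
    rw [h0, nm_zero] at hne
    exact zero_ne_one hne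
  have hdc : Continuous fun s : ℝ => (fderiv ℝ (Ex p) (s • e)).det :=
    (det_cont hE p).comp (continuous_id.smul continuous_const)
  -- the first zero
  set Z : Set ℝ := {s | s ∈ Icc 0 (t * L) ∧ (fderiv ℝ (Ex p) (s • e)).det = 0} with hZ
  have hZc : IsCompact Z := by
    have : Z = Icc 0 (t * L) ∩ (fun s : ℝ => (fderiv ℝ (Ex p) (s • e)).det) ⁻¹' {0} := rfl
    rw [this]
    exact isCompact_Icc.inter_right (isClosed_singleton.preimage hdc)
  have hZne : Z.Nonempty := by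
    refine ⟨t * L, ⟨by positivity, le_rfl⟩, ?_⟩
    rw [mul_smul, ← hve]
    exact hcon
  set s₀ : ℝ := sInf Z with hs₀
  have hs₀Z : s₀ ∈ Z := hZc.sInf_mem hZne
  have hs₀le : s₀ ≤ t * L := hs₀Z.1.2
  have hs₀det : (fderiv ℝ (Ex p) (s₀ • e)).det = 0 := hs₀Z.2
  have hs₀pos : 0 < s₀ := by
    rcases hs₀Z.1.1.eq_or_lt with h0 | h0
    · rw [← h0, zero_smul, hdet0] at hs₀det
      exact absurd hs₀det one_ne_zero
    · exact h0
  have hs₀L : s₀ < L := by
    calc s₀ ≤ t * L := hs₀le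
      _ < 1 * L := by gcongr
      _ = L := one_mul L
  have hbefore : ∀ s, 0 ≤ s → s < s₀ → (fderiv ℝ (Ex p) (s • e)).det ≠ 0 := by
    intro s hs hss h0
    have : s₀ ≤ s := csInf_le hZc.bddBelow ⟨⟨hs, by linarith⟩, h0⟩
    linarith
  -- a normal radius
  set y : E := Ex p (s₀ • e) with hy
  haveI : ProperSpace E := FiniteDimensional.proper ℝ E
  obtain ⟨ε, hε, hNb⟩ := hE.exists_nb hm (isCompact_closedBall y 1)
  have hExc : Continuous fun s : ℝ => Ex p (s • e) :=
    (hE.smooth_at p).continuous.comp (continuous_id.smul continuous_const)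
  -- choice of `τ`
  obtain ⟨τ, hτ0, hτL, hτs, hτε, hτy⟩ : ∃ τ : ℝ, 0 < τ ∧ s₀ + τ ≤ L ∧ τ < s₀ ∧ 2 * τ < ε ∧
      Ex p ((s₀ + τ) • e) ∈ Metric.closedBall y 1 := by
    have hc1 : Continuous fun τ : ℝ => Ex p ((s₀ + τ) • e) := hExc.comp (continuous_const.add continuous_id)
    have h1 : ∀ᶠ τ : ℝ in 𝓝 0, Ex p ((s₀ + τ) • e) ∈ Metric.closedBall y 1 := by
      have h2 : Tendsto (fun τ : ℝ => Ex p ((s₀ + τ) • e)) (𝓝 0) (𝓝 y) := by
        have := hc1.tendsto 0
        simpa [hy] using this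
      exact h2 (Metric.closedBall_mem_nhds y one_pos)
    obtain ⟨δ, hδ, hδ'⟩ := Metric.eventually_nhds_iff.mp h1
    refine ⟨min (min (δ / 2) (ε / 3)) (min ((L - s₀)) (s₀ / 2)), ?_, ?_, ?_, ?_, ?_⟩
    · refine lt_min (lt_min (by positivity) (by positivity)) (lt_min (by linarith) (by positivity))
    · have : min (min (δ / 2) (ε / 3)) (min ((L - s₀)) (s₀ / 2)) ≤ L - s₀ :=
        (min_le_right _ _).trans (min_le_left _ _)
      linarith
    · have : min (min (δ / 2) (ε / 3)) (min ((L - s₀)) (s₀ / 2)) ≤ s₀ / 2 :=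
        (min_le_right _ _).trans (min_le_right _ _)
      linarith
    · have : min (min (δ / 2) (ε / 3)) (min ((L - s₀)) (s₀ / 2)) ≤ ε / 3 :=
        (min_le_left _ _).trans (min_le_right _ _)
      linarith
    · have h3 : 0 < min (min (δ / 2) (ε / 3)) (min ((L - s₀)) (s₀ / 2)) :=
        lt_min (lt_min (by positivity) (by positivity)) (lt_min (by linarith) (by positivity))
      have h4 : min (min (δ / 2) (ε / 3)) (min ((L - s₀)) (s₀ / 2)) ≤ δ / 2 :=
        (min_le_left _ _).trans (min_le_left _ _)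
      apply hδ'
      rw [Real.dist_eq, sub_zero, abs_of_pos h3]
      linarith
  set z : E := Ex p ((s₀ + τ) • e) with hz
  have hNz : Nb h Ex z ε := hNb z hτy
  set w : E := vel Ex p e (s₀ + τ) with hw
  have hwn : nm h z w = 1 := by
    rw [hz, hw, hE.speed hm, hne]
  -- the points seen from `z`
  set U : ℝ → E := fun s => (s - (s₀ + τ)) • w with hU
  have hUex : ∀ s, Ex z (U s) = Ex p (s • e) := by
    intro s
    have := hE.flow p e (s₀ + τ) (s - (s₀ + τ))
    rw [← hz, ← hw] at this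
    rw [hU]
    simp only
    rw [this]
    congr 2
    ring
  have hUn : ∀ s, s ≤ s₀ → nm h z (U s) = s₀ + τ - s := by
    intro s hs
    rw [hU]
    simp only
    rw [nm_smul, hwn, mul_one, abs_of_neg (by linarith)]
    ring
  have hUε : ∀ s ∈ Icc (s₀ - τ) s₀, nm h z (U s) < ε := by
    intro s hs
    rw [hUn s hs.2]
    linarith [hs.1]
  have hU0 : ∀ s ∈ Icc (s₀ - τ) s₀, U s ≠ 0 := by
    intro s hs h0
    have h1 := hUn s hs.2
    rw [h0, nm_zero] at h1
    linarith [hs.2]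
  -- distances
  have hdz : dh h p z = s₀ + τ := by
    have h1 := Seg.dist hm hE hv (s := 0) (t := (s₀ + τ) / L) le_rfl (by positivity)
      (by rw [div_le_one hLpos]; exact hτL)
    have h2 : ((s₀ + τ) / L) • v = (s₀ + τ) • e := by
      rw [he, smul_smul]; congr 1
    rw [zero_smul, hE.zero, h2, ← hz, ← hL, sub_zero, div_mul_cancel₀ _ hLpos.ne'] at h1
    exact h1
  -- upper bound for the Laplacian
  have hlc : ContinuousOn (fun s : ℝ => lapC h (dh h z) (Ex p (s • e))) (Icc (s₀ - τ) s₀) := by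
    intro s hs
    have h1 : ContinuousAt (lapC h (dh h z)) (Ex p (s • e)) := by
      rw [← hUex s]
      exact lap_cont hm hE hNz (hUε s hs) (hU0 s hs)
    exact (ContinuousAt.comp (f := fun s : ℝ => Ex p (s • e)) h1 hExc.continuousAt).continuousWithinAt
  obtain ⟨C, hC⟩ := isCompact_Icc.exists_bound_of_continuousOn hlc
  have hsτ : 0 < s₀ - τ := by linarith
  -- conclusion
  refine log_deriv_lower (ρ := fun s => dens h Ex p (s • e))
    (l := fun s => mc h Ex p (s • e) - ((finrank ℝ E : ℝ) - 1) / s) (a := s₀ - τ) (b := s₀)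
    (C := C + |(finrank ℝ E : ℝ) - 1| / (s₀ - τ)) (by linarith) ?_ ?_ ?_ ?_
  · intro s hs
    exact (dens_pos_iff hm Ex p (s • e)).mpr (hbefore s (by linarith [hs.1]) hs.2)
  · intro s hs
    exact hasDerivAt_log_dens hm hE hne (by linarith [hs.1]) (hbefore s (by linarith [hs.1]) hs.2)
  · intro s hs
    have hs' : s ∈ Icc (s₀ - τ) s₀ := ⟨hs.1.le, hs.2.le⟩
    have hspos : 0 < s := by linarith [hs.1]
    have hse0 : s • e ≠ 0 := smul_ne_zero hspos.ne' he0
    have hnse : nm h p (s • e) = s := by rw [nm_smul, hne, mul_one, abs_of_pos hspos]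
    have h1 := mc_ge hm hE hse0 (hbefore s hspos.le hs.2) hNz (hUε s hs') (hU0 s hs') (hUex s)
      (by rw [hdz, hnse, hUn s hs.2.le]; ring)
    have h2 := hC s hs'
    rw [Real.norm_eq_abs] at h2
    have h3 := (abs_le.mp h2).2
    have h4 : ((finrank ℝ E : ℝ) - 1) / s ≤ |(finrank ℝ E : ℝ) - 1| / (s₀ - τ) :=
      div_bound ((finrank ℝ E : ℝ) - 1) hsτ hs.1.le
    have h5 : -C ≤ mc h Ex p (s • e) := le_trans (neg_le_neg h3) h1
    exact fin_step h5 h4
  · exact dens_ray_lim hm hE hs₀det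

end Pool.Agent.Lib.MP_df705a_gt.Pin.A
end
end

section

/-!
# Ricci pinching, part A, AR8b: Laplacian comparison
-/

open scoped Manifold ContDiff Topology
open Set Bundle Module Filter MeasureTheory

noncomputable section

set_option linter.unusedSectionVars false

namespace Pool.Agent.Lib.MP_df705a_gt.Pin.A

open Pool.Agent.Lib.MP_df705a_gt.Twist Pool.Agent.Lib.MP_df705a_gt.Perm
open Pool.Agent.Lib.MP_df705a_gt.Coll (trM ipM)
open Pool.Agent.Lib.MP_df705a_gt.Coll.T (ddC mat pull RM SmF)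

variable {E : Type*} [NormedAddCommGroup E] [NormedSpace ℝ E] [FiniteDimensional ℝ E]
  {h : Curv.Coeff E}

variable {Ex : E → E → E}

/-- The unit speed of the geodesic. -/
theorem AR8b_speed_ne (hm : Curv.IsMetric h) (hE : IsExp h Ex) {p e : E} (he : nm h p e = 1)
    (t : ℝ) : vel Ex p e t ≠ 0 := by
  intro h0
  have h1 := hE.speed hm p e t
  rw [h0, nm_zero, he] at h1
  exact zero_ne_one h1

/-- The family of maps `x ↦ Ex x ((s / |w|) w)`, `w` the velocity at the time `d - s`. -/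
def AR8b_Psi (h : Curv.Coeff E) (Ex : E → E → E) (p e : E) (d : ℝ) (q : ℝ × E) : E :=
  Ex q.2 ((q.1 / nm h q.2 (vel Ex p e (d - q.1))) • vel Ex p e (d - q.1))

theorem AR8b_Psi_smooth (hm : Curv.IsMetric h) (hE : IsExp h Ex) {p e : E} (he : nm h p e = 1)
    (d : ℝ) (q : ℝ × E) : ContDiffAt ℝ ∞ (AR8b_Psi h Ex p e d) q := by
  have hw : ContDiffAt ℝ ∞ (fun q : ℝ × E => vel Ex p e (d - q.1)) q := by
    have h1 := hE.vel_smooth
    have h2 : ContDiff ℝ ∞ fun q : ℝ × E => (p, e, d - q.1) :=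
      contDiff_const.prodMk (contDiff_const.prodMk (contDiff_const.sub contDiff_fst))
    exact (h1.comp h2).contDiffAt
  have hpos : 0 < Curv.ip h q.2 (vel Ex p e (d - q.1)) (vel Ex p e (d - q.1)) :=
    ip_pos hm _ (AR8b_speed_ne hm hE he _)
  have hn : ContDiffAt ℝ ∞ (fun q : ℝ × E => nm h q.2 (vel Ex p e (d - q.1))) q := by
    have h1 : ContDiffAt ℝ ∞ (fun q : ℝ × E =>
        Curv.ip h q.2 (vel Ex p e (d - q.1)) (vel Ex p e (d - q.1))) q :=
      ContDiffAt.comp (g := fun p : E × E × E => Curv.ip h p.1 p.2.1 p.2.2)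
        (f := fun q : ℝ × E => (q.2, vel Ex p e (d - q.1), vel Ex p e (d - q.1))) q
        (contDiff_ip hm).contDiffAt (contDiffAt_snd.prodMk (hw.prodMk hw))
    exact h1.sqrt hpos.ne'
  have hn0 : nm h q.2 (vel Ex p e (d - q.1)) ≠ 0 :=
    (nm_pos hm _ (AR8b_speed_ne hm hE he _)).ne'
  have h3 : ContDiffAt ℝ ∞ (fun q : ℝ × E =>
      (q.2, (q.1 / nm h q.2 (vel Ex p e (d - q.1))) • vel Ex p e (d - q.1))) q :=
    contDiffAt_snd.prodMk ((contDiffAt_fst.div hn hn0).smul hw)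
  exact ContDiffAt.comp (g := fun q : E × E => Ex q.1 q.2) q hE.smooth.contDiffAt h3

theorem AR8b_Psi_curve (hm : Curv.IsMetric h) (hE : IsExp h Ex) {p e : E} (he : nm h p e = 1)
    (d s : ℝ) : AR8b_Psi h Ex p e d (s, Ex p ((d - s) • e)) = Ex p (d • e) := by
  unfold AR8b_Psi
  simp only
  rw [hE.speed hm p e (d - s), he, div_one, hE.flow, sub_add_cancel]

theorem AR8b_Psi_zero (hE : IsExp h Ex) (p e : E) (d : ℝ) (x : E) :
    AR8b_Psi h Ex p e d (0, x) = x := by
  unfold AR8b_Psi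
  simp only
  rw [zero_div, zero_smul, hE.zero]

theorem AR8b_Psi_dist (hm : Curv.IsMetric h) (hE : IsExp h Ex) {p e : E} (he : nm h p e = 1)
    (d : ℝ) {s : ℝ} (hs : 0 ≤ s) (x : E) : dh h x (AR8b_Psi h Ex p e d (s, x)) ≤ s := by
  unfold AR8b_Psi
  simp only
  refine (hE.dist_le_one hm _ _).trans ?_
  have hn0 := nm_pos hm x (AR8b_speed_ne hm hE he (d - s))
  rw [nm_smul, abs_of_nonneg (div_nonneg hs hn0.le), div_mul_cancel₀ _ hn0.ne']

/-- One point of the curve. -/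
theorem AR8b_step (hm : Curv.IsMetric h) (hE : IsExp h Ex) {p e : E} {d κ : ℝ}
    (he : nm h p e = 1) (hseg : Seg h Ex p (d • e))
    (hric : ∀ z, dh h p z ≤ d → RicGeAt h κ z) {φ : E → ℝ}
    (hφ : ContDiffAt ℝ ∞ φ (Ex p (d • e))) (heq : φ (Ex p (d • e)) = d) {s : ℝ}
    (hs : s ∈ Ioo 0 d)
    (hle : ∀ᶠ x in 𝓝 (Ex p ((d - s) • e)), φ (AR8b_Psi h Ex p e d (s, x)) ≤
      dh h p (AR8b_Psi h Ex p e d (s, x))) :
    lapC h (fun x => φ (AR8b_Psi h Ex p e d (s, x)) - s) (Ex p ((d - s) • e)) ≤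
      ((finrank ℝ E : ℝ) - 1) / (d - s) + κ * (d - s) / 3 := by
  have hd0 : 0 < d := hs.1.trans hs.2
  have hds : 0 < d - s := sub_pos.2 hs.2
  set w₀ : E := (d - s) • e with hw₀
  have hdet : ∀ t ∈ Ioo 0 d, (fderiv ℝ (Ex p) (t • e)).det ≠ 0 := by
    intro t ht
    have h1 := hseg.det_ne hm hE (t := t / d) (div_nonneg ht.1.le hd0.le)
      ((div_lt_one hd0).2 ht.2)
    rwa [smul_smul, div_mul_cancel₀ _ hd0.ne'] at h1
  have hdet₀ : (fderiv ℝ (Ex p) w₀).det ≠ 0 := hdet _ ⟨hds, by linarith [hs.1]⟩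
  have hsm := hE.smooth_at p
  have he0 : e ≠ 0 := by
    rintro rfl
    rw [nm_zero] at he
    exact zero_ne_one he
  have hw0 : w₀ ≠ 0 := smul_ne_zero hds.ne' he0
  have hnm₀ : nm h p w₀ = d - s := by
    rw [hw₀, nm_smul, he, mul_one, abs_of_pos hds]
  -- smoothness
  have hU : ContDiffAt ℝ ∞ (fun x => φ (AR8b_Psi h Ex p e d (s, x)) - s) (Ex p w₀) := by
    refine ContDiffAt.sub ?_ contDiffAt_const
    have h1 : ContDiffAt ℝ ∞ (fun x => AR8b_Psi h Ex p e d (s, x)) (Ex p w₀) :=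
      ContDiffAt.comp (g := AR8b_Psi h Ex p e d) (f := fun x : E => (s, x)) (Ex p w₀)
        (AR8b_Psi_smooth hm hE he d (s, Ex p w₀)) (contDiffAt_const.prodMk contDiffAt_id)
    have h2 : ContDiffAt ℝ ∞ φ ((fun x => AR8b_Psi h Ex p e d (s, x)) (Ex p w₀)) := by
      simp only [hw₀]
      rw [AR8b_Psi_curve hm hE he]
      exact hφ
    exact h2.comp (Ex p w₀) h1
  have hUc : ContDiffAt ℝ ∞ ((fun x => φ (AR8b_Psi h Ex p e d (s, x)) - s) ∘ Ex p) w₀ :=
    hU.comp w₀ hsm.contDiffAt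
  have hN : ContDiffAt ℝ ∞ (nm h p) w₀ := nm_smooth hm p hw0
  -- local minimum
  have hmin : IsLocalMin (fun w => nm h p w +
      (-1) * ((fun x => φ (AR8b_Psi h Ex p e d (s, x)) - s) ∘ Ex p) w) w₀ := by
    have hc : Tendsto (Ex p) (𝓝 w₀) (𝓝 (Ex p w₀)) := hsm.continuous.tendsto _
    filter_upwards [hc.eventually hle] with w hw
    have h1 : φ (AR8b_Psi h Ex p e d (s, Ex p w₀)) = d := by
      rw [hw₀, AR8b_Psi_curve hm hE he, heq]
    have h2 := AR8b_Psi_dist hm hE he d hs.1.le (Ex p w)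
    have h3 := dh_triangle hm p (Ex p w) (AR8b_Psi h Ex p e d (s, Ex p w))
    have h4 := hE.dist_le_one hm p w
    simp only [Function.comp_apply]
    rw [h1, hnm₀]
    linarith
  have hrm := hp_rm hm hE hdet₀
  have key := lapC_nonneg_of_isLocalMin (k := hp h Ex p) hrm.self_of_nhds.2
    (hN.add (contDiffAt_const.mul hUc)) hmin
  rw [G4.lapC_add _ hN (contDiffAt_const.mul hUc), G4.lapC_smul _ hUc,
    lapC_pull (h := h) (h' := hp h Ex p) (τ := Ex p) hsm.contDiffAt hdet₀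
      (fun i j => (hm.1 i j).contDiffAt) (Eventually.of_forall fun x i j => ?_)
      (hm.2 _).det_pos.ne' (Eventually.of_forall fun x => rfl) hU] at key
  · have h1 := mc_le hm hE he hdet (κ := κ) (fun t ht => ?_) (s := d - s)
      ⟨hds, by linarith [hs.1]⟩
    · unfold mc at h1
      rw [← hw₀] at h1
      linarith
    · have h2 := rc_ge (hric (Ex p (t • e)) ?_) (vel Ex p e t)
      · rw [← nm_sq hm, hE.speed hm, he] at h2
        linarith
      · refine (hE.dist_le_one hm _ _).trans ?_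
        rw [nm_smul, he, mul_one, abs_of_pos ht.1]
        exact ht.2.le
  · have := (hm.2 x).isHermitian.apply j i
    simpa using this

/-- The Laplacian comparison theorem, in the viscosity sense (also at cut points).
Proof: let `d = dh h p y > 0`, `v` the vector of `hopf_rinow`, `e = v / d` (so `Seg h Ex p v`,
`nm h p e = 1`) and `w s = vel Ex p e (d - s)`, `y s = Ex p ((d - s) e)`. For small `s ≥ 0` and `x'`
near `y` put `Ψ (s, x') = Ex x' ((s / nm h x' (w s)) • w s)` and `Φ (s, x') = φ (Ψ (s, x')) - s`;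
`Φ` is smooth near `(0, y)` (`w 0 ≠ 0`) and `Φ (0, x') = φ x'`. One has `Ψ (s, y s) = Ex p (d e) = y`
(`IsExp.flow`, `nm h (y s) (w s) = 1`), so `Φ (s, y s) = d - s = dh h p (y s)` (`Seg.dist`), and
`Φ (s, x') ≤ dh h p (Ψ (s, x')) - s ≤ dh h p x'` for `x'` near `y s`, since
`dh h x' (Ψ (s, x')) ≤ s` (`IsExp.dist_le_one`, `nm_smul`). Hence for small `s > 0` the function
`w' ↦ nm h p w' - Φ (s, Ex p w')` has a local minimum at `w' = (d - s) e` (`IsExp.dist_le_one`), a
regular point of `Ex p` (`Seg.det_ne`), so by `lapC_nonneg_of_isLocalMin` for `hp h Ex p`,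
`G4.lapC_sub`/`G4.lapC_add`, `lapC_pull` (as in `mc_ge`) and `mc_le`
`lapC h (Φ (s, ·)) (y s) ≤ mc h Ex p ((d - s) e) ≤ (n - 1) / (d - s) + κ (d - s) / 3`. Let `s → 0`
(`continuousAt_lapC_param` along `s ↦ (s, y s)`). -/
theorem lap_dist_le (hm : Curv.IsMetric h) (hP : Proper h) (hE : IsExp h Ex) {p y : E} {κ : ℝ}
    (hpy : p ≠ y) (hκ : 0 ≤ κ) (hric : ∀ z, dh h p z ≤ dh h p y → RicGeAt h κ z) {φ : E → ℝ}
    (hφ : ContDiffAt ℝ ∞ φ y) (hle : ∀ᶠ x in 𝓝 y, φ x ≤ dh h p x) (heq : φ y = dh h p y) :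
    lapC h φ y ≤ ((finrank ℝ E : ℝ) - 1) / dh h p y + κ * dh h p y / 3 := by
  obtain ⟨v, hv, rfl⟩ := hopf_rinow hm hP hE p y
  have hd : 0 < dh h p (Ex p v) := dh_pos hm hpy
  set d := dh h p (Ex p v) with hdd
  have hv0 : v = d • (d⁻¹ • v) := by rw [smul_smul, mul_inv_cancel₀ hd.ne', one_smul]
  set e : E := d⁻¹ • v with he'
  have he : nm h p e = 1 := by
    rw [he', nm_smul, hv, abs_of_pos (inv_pos.2 hd), inv_mul_cancel₀ hd.ne']
  have hseg : Seg h Ex p (d • e) := by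
    rw [← hv0]
    exact hv.symm
  rw [hv0] at hφ hle heq ⊢
  have hΨ0 : AR8b_Psi h Ex p e d (0, Ex p (d • e)) = Ex p (d • e) := AR8b_Psi_zero hE p e d _
  have hΨs := AR8b_Psi_smooth hm hE he d (0, Ex p (d • e))
  have hΦ : ContDiffAt ℝ ∞ (fun q : ℝ × E => φ (AR8b_Psi h Ex p e d q) - q.1)
      (0, Ex p (d • e)) := by
    refine ContDiffAt.sub ?_ contDiffAt_fst
    refine ContDiffAt.comp (g := φ) (f := AR8b_Psi h Ex p e d) (0, Ex p (d • e)) ?_ hΨs
    rw [hΨ0]
    exact hφ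
  have hcurve : Tendsto (fun s : ℝ => (s, Ex p ((d - s) • e))) (𝓝[>] 0)
      (𝓝 (0, Ex p (d • e))) := by
    have h1 : Continuous fun s : ℝ => (s, Ex p ((d - s) • e)) :=
      continuous_id.prodMk ((hE.smooth_at p).continuous.comp
        ((continuous_const.sub continuous_id).smul continuous_const))
    have h2 := h1.tendsto 0
    simp only [sub_zero] at h2
    exact h2.mono_left nhdsWithin_le_nhds
  have hlim := (continuousAt_lapC_param hm hΦ).tendsto.comp hcurve
  have h0 : (fun x : E => φ (AR8b_Psi h Ex p e d ((0 : ℝ), x)) - (0 : ℝ)) = φ := by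
    funext x
    rw [AR8b_Psi_zero hE, sub_zero]
  simp only [h0] at hlim
  have hrhs : Tendsto (fun s : ℝ => ((finrank ℝ E : ℝ) - 1) / (d - s) + κ * (d - s) / 3) (𝓝[>] 0)
      (𝓝 (((finrank ℝ E : ℝ) - 1) / d + κ * d / 3)) := by
    have h1 : Tendsto (fun s : ℝ => d - s) (𝓝 0) (𝓝 (d - 0)) :=
      (continuous_const.sub continuous_id).tendsto 0
    rw [sub_zero] at h1
    exact ((tendsto_const_nhds.div h1 hd.ne').add
      ((tendsto_const_nhds.mul h1).div_const 3)).mono_left nhdsWithin_le_nhds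
  refine le_of_tendsto_of_tendsto hlim hrhs ?_
  have hev : ∀ᶠ q in 𝓝 ((0 : ℝ), Ex p (d • e)),
      φ (AR8b_Psi h Ex p e d q) ≤ dh h p (AR8b_Psi h Ex p e d q) := by
    have h1 : Tendsto (AR8b_Psi h Ex p e d) (𝓝 ((0 : ℝ), Ex p (d • e))) (𝓝 (Ex p (d • e))) := by
      have := hΨs.continuousAt.tendsto
      rwa [hΨ0] at this
    exact h1.eventually hle
  have hev2 := hcurve.eventually (eventually_eventually_nhds.2 hev)
  have hIoo : ∀ᶠ s : ℝ in 𝓝[>] 0, s ∈ Ioo 0 d := Ioo_mem_nhdsGT hd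
  filter_upwards [hev2, hIoo] with s hs1 hs2
  have hslice : Tendsto (fun x : E => (s, x)) (𝓝 (Ex p ((d - s) • e)))
      (𝓝 (s, Ex p ((d - s) • e))) :=
    (continuous_const.prodMk continuous_id).tendsto _
  exact AR8b_step hm hE he hseg (fun z hz => hric z hz) hφ heq hs2 (hslice.eventually hs1)

end Pool.Agent.Lib.MP_df705a_gt.Pin.A
end
end
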