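import Pool.Agent.Lib.MP_df705a_gt.Mg.G003
import Pool.Agent.Lib.MP_df705a_gt.Pin.AO4
import Pool.Agent.Lib.MP_df705a_gt.Mg.G066
import Pool.Agent.Lib.MP_df705a_gt.Mg.G067
import Pool.Agent.Lib.MP_df705a_gt.Mg.G064
import Pool.Agent.Lib.MP_df705a_gt.Mg.G002
import Pool.Agent.Lib.MP_df705a_gt.Pin.AH2

section

/-!
# Ricci pinching, part A, AG5: the exponential map near a point
-/

open scoped Manifold ContDiff Topology
open Set Bundle Module Filter MeasureTheory

noncomputable section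

set_option linter.unusedSectionVars false

namespace Pool.Agent.Lib.MP_df705a_gt.Pin.A

variable {E : Type*} [NormedAddCommGroup E] [NormedSpace ℝ E] [FiniteDimensional ℝ E]
  {h : Curv.Coeff E}

/-- Geodesics with initial data in a bounded set exist on `[0, 1]` and depend smoothly on them.
Proof: choose a smooth `χ : E × E → ℝ` with compact support which is `1` on the compact set
`isCompact_disc hm hP p (2 R) R` (`exists_contDiff_tsupport_subset`, or
`exists_smooth_one_nhds_of_subset_interior`/`IsCompact.exists_contDiff...` as in Mathlib for finite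
dimensional spaces). The vector field `F q = χ q • (q.2, acc h q.1 q.2)` is smooth
(`acc_smooth`) with compact support: `hasFlow_of_hasCompactSupport` gives `c`; `Φ q = c q 1` and
`isGeo_of_cutoff`. -/
theorem exists_local_exp (hm : Curv.IsMetric h) (hP : Proper h) (p : E) (R : ℝ) :
    ∃ Φ : E × E → E × E, ContDiff ℝ ∞ Φ ∧ ∀ q : E × E, dh h p q.1 < R → nm h q.1 q.2 < R →
      ∃ γ β : ℝ → E, IsGeo h γ β 1 ∧ γ 0 = q.1 ∧ β 0 = q.2 ∧ (γ 1, β 1) = Φ q := by
  have : CompleteSpace (E × E) := FiniteDimensional.complete ℝ (E × E)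
  have hK := isCompact_disc hm hP p (2 * R) R
  obtain ⟨r, hr⟩ := hK.isBounded.exists_norm_le
  let f : ContDiffBump (0 : E × E) := ⟨max r 1, max r 1 + 1,
    zero_lt_one.trans_le (le_max_right _ _), lt_add_one _⟩
  have hF : ContDiff ℝ ∞ (fun q : E × E => f q • ((q.2, acc h q.1 q.2) : E × E)) :=
    f.contDiff.smul (contDiff_snd.prodMk (acc_smooth hm))
  have hFs : HasCompactSupport (fun q : E × E => f q • ((q.2, acc h q.1 q.2) : E × E)) :=
    f.hasCompactSupport.smul_right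
  obtain ⟨c, hc1, hc2⟩ := hasFlow_of_hasCompactSupport hF hFs
  refine ⟨fun q => c q 1, hc1, ?_⟩
  intro q hq1 hq2
  obtain ⟨hc0, hder⟩ := hc2 q
  have hgeo := isGeo_of_cutoff hm (p := p) (R := R) (χ := f) (c := c q)
    (fun q' h1 h2 => f.one_of_mem_closedBall (by
      rw [mem_closedBall_zero_iff]
      exact (hr q' ⟨h1, h2⟩).trans (le_max_left _ _)))
    hder (by rw [hc0]; exact hq1) (by rw [hc0]; exact hq2)
  exact ⟨fun t => (c q t).1, fun t => (c q t).2, hgeo, by simp only [hc0], by simp only [hc0], rfl⟩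

end Pool.Agent.Lib.MP_df705a_gt.Pin.A
end
end

section

/-!
# Ricci pinching, part A, AG6: the exponential map
-/

open scoped Manifold ContDiff Topology
open Set Bundle Module Filter MeasureTheory

noncomputable section

set_option linter.unusedSectionVars false

namespace Pool.Agent.Lib.MP_df705a_gt.Pin.A

variable {E : Type*} [NormedAddCommGroup E] [NormedSpace ℝ E] [FiniteDimensional ℝ E]
  {h : Curv.Coeff E}

/-- `Φ` maps the initial data of a geodesic on `[0, 1]` to the final data. -/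
structure IsFlow (h : Curv.Coeff E) (Φ : E × E → E × E) : Prop where
  smooth : ContDiff ℝ ∞ Φ
  geo : ∀ q : E × E, ∃ γ β : ℝ → E, IsGeo h γ β 1 ∧ γ 0 = q.1 ∧ β 0 = q.2 ∧ (γ 1, β 1) = Φ q

/-- Proof: for every `q` take the geodesic of `exists_local_exp` at `p = q.1` and
`R = nm h q.1 q.2 + 1` and define `Φ q` as its end. Smoothness at `q₀`: near `q₀` (open conditions
`dh h q₀.1 q.1 < R`, `nm h q.1 q.2 < R`, by `dh_continuous`, `dh_self`, `nm_continuous`) the map `Φ`
equals the smooth map of `exists_local_exp` for `q₀`, by `IsGeo.unique`. -/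
theorem exists_isFlow (hm : Curv.IsMetric h) (hP : Proper h) : ∃ Φ, IsFlow h Φ := by
  have hex : ∀ q : E × E, ∃ e : E × E, ∃ γ β : ℝ → E, IsGeo h γ β 1 ∧ γ 0 = q.1 ∧ β 0 = q.2 ∧
      (γ 1, β 1) = e := by
    intro q
    obtain ⟨Ψ, _, hΨ⟩ := exists_local_exp hm hP q.1 (nm h q.1 q.2 + 1)
    have hn := nm_nonneg h q.1 q.2
    obtain ⟨γ, β, h1, h2, h3, h4⟩ := hΨ q (by rw [dh_self hm]; linarith) (by linarith)
    exact ⟨Ψ q, γ, β, h1, h2, h3, h4⟩
  choose Φ hΦ using hex
  refine ⟨Φ, ?_, hΦ⟩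
  rw [contDiff_iff_contDiffAt]
  intro q₀
  obtain ⟨Ψ, hΨ1, hΨ⟩ := exists_local_exp hm hP q₀.1 (nm h q₀.1 q₀.2 + 1)
  have hn := nm_nonneg h q₀.1 q₀.2
  have ho1 : IsOpen {q : E × E | dh h q₀.1 q.1 < nm h q₀.1 q₀.2 + 1} :=
    isOpen_lt ((dh_continuous hm).comp (continuous_const.prodMk continuous_fst)) continuous_const
  have ho2 : IsOpen {q : E × E | nm h q.1 q.2 < nm h q₀.1 q₀.2 + 1} :=
    isOpen_lt (nm_continuous hm) continuous_const
  have hm1 : q₀ ∈ {q : E × E | dh h q₀.1 q.1 < nm h q₀.1 q₀.2 + 1} := by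
    show dh h q₀.1 q₀.1 < nm h q₀.1 q₀.2 + 1
    rw [dh_self hm]; linarith
  have hm2 : q₀ ∈ {q : E × E | nm h q.1 q.2 < nm h q₀.1 q₀.2 + 1} := by
    show nm h q₀.1 q₀.2 < nm h q₀.1 q₀.2 + 1
    linarith
  have hev : Φ =ᶠ[𝓝 q₀] Ψ := by
    filter_upwards [ho1.mem_nhds hm1, ho2.mem_nhds hm2] with q hq1 hq2
    obtain ⟨γ, β, h1, h2, h3, h4⟩ := hΦ q
    obtain ⟨γ', β', h1', h2', h3', h4'⟩ := hΨ q hq1 hq2
    obtain ⟨e1, e2⟩ := h1.unique hm h1' (h2.trans h2'.symm) (h3.trans h3'.symm)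
      (t := 1) ⟨zero_le_one, le_rfl⟩
    rw [← h4, ← h4', e1, e2]
  exact hΨ1.contDiffAt.congr_of_eventuallyEq hev

/-- Proof: `IsGeo.scale` and `IsGeo.unique` with the geodesic of `IsFlow.geo` for `(p, t v)`. -/
theorem IsFlow.scale (hm : Curv.IsMetric h) {Φ : E × E → E × E} (hΦ : IsFlow h Φ) {γ β : ℝ → E}
    (hg : IsGeo h γ β 1) {t : ℝ} (ht : t ∈ Icc (0 : ℝ) 1) :
    Φ (γ 0, t • β 0) = (γ t, t • β t) := by
  obtain ⟨γ', β', h1, h2, h3, h4⟩ := hΦ.geo (γ 0, t • β 0)
  have hs := hg.scale hm ht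
  obtain ⟨e1, e2⟩ := h1.unique hm hs (by rw [h2]; simp) (by rw [h3]; simp)
    (t := 1) ⟨zero_le_one, le_rfl⟩
  rw [← h4, e1, e2, mul_one]

/-- Proof: the constant curve is a geodesic (`acc_zero`). -/
theorem IsFlow.zero (hm : Curv.IsMetric h) {Φ : E × E → E × E} (hΦ : IsFlow h Φ) (p : E) :
    Φ (p, 0) = (p, 0) := by
  have hconst : IsGeo h (fun _ => p) (fun _ => 0) 1 := by
    intro t _
    refine ⟨hasDerivWithinAt_const t _ p, ?_⟩
    rw [acc_zero hm]
    exact hasDerivWithinAt_const t _ 0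
  have h1 := hΦ.scale hm hconst (t := 1) ⟨zero_le_one, le_rfl⟩
  simpa using h1

end Pool.Agent.Lib.MP_df705a_gt.Pin.A
end
end

section

/-!
# Ricci pinching, part A, AG7b: the exponential map, differential equation
-/

open scoped Manifold ContDiff Topology
open Set Bundle Module Filter MeasureTheory

noncomputable section

set_option linter.unusedSectionVars false

namespace Pool.Agent.Lib.MP_df705a_gt.Pin.A

variable {E : Type*} [NormedAddCommGroup E] [NormedSpace ℝ E] [FiniteDimensional ℝ E]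
  {h : Curv.Coeff E}

/-- Proof: let `(γ, β)` be the geodesic of `IsFlow.geo` for `(p, T v)`, `T = 2 t`. By `IsFlow.scale`
`exOf Φ p ((s T) v) = γ s` for `s ∈ [0, 1]`, that is `exOf Φ p (s v) = γ (s / T)` for
`s ∈ [0, T]`. On `(0, T)` take derivatives: `vel (exOf Φ) p v s = T⁻¹ β (s / T)` (`hasDerivAt_ex`,
uniqueness of derivatives), and again: the derivative of `vel (exOf Φ) p v` at `t ∈ (0, T)` is
`T⁻² acc h (γ (t / T)) (β (t / T)) = acc h (exOf Φ p (t v)) (vel (exOf Φ) p v t)` by `acc_smul`. -/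
theorem IsFlow.geo_pos (hm : Curv.IsMetric h) {Φ : E × E → E × E} (hΦ : IsFlow h Φ) (p v : E)
    {t : ℝ} (ht : 0 < t) : HasDerivAt (vel (exOf Φ) p v)
      (acc h (exOf Φ p (t • v)) (vel (exOf Φ) p v t)) t := by
  have hsm : ContDiff ℝ ∞ fun q : E × E => exOf Φ q.1 q.2 := contDiff_fst.comp hΦ.smooth
  set T : ℝ := 2 * t with hT
  have hT0 : 0 < T := by rw [hT]; linarith
  obtain ⟨γ, β, hg, hγ0, hβ0, _⟩ := hΦ.geo (p, T • v)
  simp only at hγ0 hβ0
  have hex : ∀ r ∈ Icc 0 T, exOf Φ p (r • v) = γ (T⁻¹ * r) := by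
    intro r hr
    have hr1 : T⁻¹ * r ∈ Icc (0 : ℝ) 1 := by
      refine ⟨mul_nonneg (inv_pos.mpr hT0).le hr.1, ?_⟩
      rw [← div_eq_inv_mul, div_le_one hT0]
      exact hr.2
    have h1 := hΦ.scale hm hg hr1
    rw [hγ0, hβ0, smul_smul] at h1
    have h2 : T⁻¹ * r * T = r := by field_simp
    rw [h2] at h1
    unfold exOf
    rw [h1]
  have hint : ∀ r ∈ Ioo 0 T, Icc (0 : ℝ) 1 ∈ 𝓝 (T⁻¹ * r) := by
    intro r hr
    apply Icc_mem_nhds
    · exact mul_pos (inv_pos.mpr hT0) hr.1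
    · rw [← div_eq_inv_mul, div_lt_one hT0]
      exact hr.2
  have hlin : ∀ r : ℝ, HasDerivAt (fun r => T⁻¹ * r) T⁻¹ r := by
    intro r
    simpa using (hasDerivAt_id r).const_mul T⁻¹
  have hvel : ∀ r ∈ Ioo 0 T, vel (exOf Φ) p v r = T⁻¹ • β (T⁻¹ * r) := by
    intro r hr
    have h1 := hasDerivAt_ex hsm p v r
    have h2 : HasDerivAt γ (β (T⁻¹ * r)) (T⁻¹ * r) :=
      (hg _ (mem_of_mem_nhds (hint r hr))).1.hasDerivAt (hint r hr)
    have h3 := HasDerivAt.scomp r h2 (hlin r)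
    have h4 : (fun s : ℝ => exOf Φ p (s • v)) =ᶠ[𝓝 r] (γ ∘ fun r => T⁻¹ * r) := by
      filter_upwards [Ioo_mem_nhds hr.1 hr.2] with s hs
      exact hex s ⟨hs.1.le, hs.2.le⟩
    exact h1.unique (h3.congr_of_eventuallyEq h4)
  have htT : t ∈ Ioo 0 T := ⟨ht, by rw [hT]; linarith⟩
  have h5 : HasDerivAt β (acc h (γ (T⁻¹ * t)) (β (T⁻¹ * t))) (T⁻¹ * t) :=
    (hg _ (mem_of_mem_nhds (hint t htT))).2.hasDerivAt (hint t htT)
  have h6 := (HasDerivAt.scomp t h5 (hlin t)).const_smul T⁻¹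
  have h7 : vel (exOf Φ) p v =ᶠ[𝓝 t] fun r => T⁻¹ • (β ∘ fun r => T⁻¹ * r) r := by
    filter_upwards [Ioo_mem_nhds htT.1 htT.2] with s hs
    exact hvel s hs
  have h8 := h6.congr_of_eventuallyEq h7
  refine h8.congr_deriv ?_
  rw [hvel t htT, hex t ⟨htT.1.le, htT.2.le⟩, acc_smul hm, smul_smul, sq]

end Pool.Agent.Lib.MP_df705a_gt.Pin.A
end
end

section

/-!
# Ricci pinching, part A, AG7c: the exponential map, differential equation
-/

open scoped Manifold ContDiff Topology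
open Set Bundle Module Filter MeasureTheory

noncomputable section

set_option linter.unusedSectionVars false

namespace Pool.Agent.Lib.MP_df705a_gt.Pin.A

variable {E : Type*} [NormedAddCommGroup E] [NormedSpace ℝ E] [FiniteDimensional ℝ E]
  {h : Curv.Coeff E}

namespace AG7cAux

theorem ex_smooth {Φ : E × E → E × E} (hΦ : IsFlow h Φ) :
    ContDiff ℝ ∞ fun q : E × E => exOf Φ q.1 q.2 := contDiff_fst.comp hΦ.smooth

end AG7cAux

/-- Proof: `exOf Φ p (s v) = γ s` for `s ∈ [0, 1]` (`IsFlow.scale`), so the two sided derivative at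
`0`, which exists by `hasDerivAt_ex`, equals the one sided derivative `β 0 = v`
(`uniqueDiffWithinAt_Icc`). -/
theorem IsFlow.vel_zero (hm : Curv.IsMetric h) {Φ : E × E → E × E} (hΦ : IsFlow h Φ) (p v : E) :
    vel (exOf Φ) p v 0 = v := by
  obtain ⟨γ, β, hg, h0, h0', -⟩ := hΦ.geo (p, v)
  have h1 : ∀ s ∈ Icc (0 : ℝ) 1, exOf Φ p (s • v) = γ s := by
    intro s hs
    have h2 := hΦ.scale hm hg hs
    rw [h0, h0'] at h2
    unfold exOf
    rw [h2]
  have hd := (hasDerivAt_ex (AG7cAux.ex_smooth hΦ) p v 0).hasDerivWithinAt (s := Icc (0 : ℝ) 1)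
  have h01 : (0 : ℝ) ∈ Icc (0 : ℝ) 1 := ⟨le_rfl, zero_le_one⟩
  have hd2 : HasDerivWithinAt (fun s : ℝ => exOf Φ p (s • v)) (β 0) (Icc (0 : ℝ) 1) 0 :=
    (hg 0 h01).1.congr h1 (h1 0 h01)
  have h3 := (uniqueDiffOn_Icc (zero_lt_one (α := ℝ)) 0 h01).eq_deriv _ hd hd2
  rw [h3, h0']

/-- Proof: for `t > 0` this is `IsFlow.geo_pos`. For `t < 0` use `exOf Φ p (t v) =
exOf Φ p ((-t) (-v))` and `vel (exOf Φ) p v t = - vel (exOf Φ) p (-v) (-t)` (`vel_smul` with
`c = -1`), the chain rule, `IsFlow.geo_pos` for `(-v, -t)` and `acc h x (-w) = acc h x w`. For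
`t = 0`: both sides of `deriv (vel (exOf Φ) p v) t = acc h (exOf Φ p (t v)) (vel (exOf Φ) p v t)`
are continuous in `t` (`vel_smooth`, `acc_smooth`) and equal for `t ≠ 0`, hence equal at `0`. -/
theorem IsFlow.geo_all (hm : Curv.IsMetric h) {Φ : E × E → E × E} (hΦ : IsFlow h Φ) (p v : E)
    (t : ℝ) : HasDerivAt (vel (exOf Φ) p v)
      (acc h (exOf Φ p (t • v)) (vel (exOf Φ) p v t)) t := by
  have hneg : ∀ s : ℝ, s < 0 → HasDerivAt (vel (exOf Φ) p v)
      (acc h (exOf Φ p (s • v)) (vel (exOf Φ) p v s)) s := by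
    intro s hs
    have h1 := hΦ.geo_pos hm p (-v) (t := -s) (by linarith)
    have h2 : ∀ r : ℝ, vel (exOf Φ) p v r = -vel (exOf Φ) p (-v) (-r) := by
      intro r
      have h3 := vel_smul (exOf Φ) p (-v) (-1) r
      rw [neg_one_smul, neg_neg, neg_one_smul, mul_neg_one] at h3
      exact h3
    have h3 : vel (exOf Φ) p v = fun r => -vel (exOf Φ) p (-v) (-r) := funext h2
    have h4 : HasDerivAt (fun r : ℝ => -vel (exOf Φ) p (-v) (-r))
        (acc h (exOf Φ p ((-s) • (-v))) (vel (exOf Φ) p (-v) (-s))) s := by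
      have h5 : HasDerivAt (fun r : ℝ => -r) (-1) s := hasDerivAt_neg s
      have h6 := (h1.scomp s h5).fun_neg
      have h7 : -((-1 : ℝ) • acc h (exOf Φ p ((-s) • (-v))) (vel (exOf Φ) p (-v) (-s))) =
          acc h (exOf Φ p ((-s) • (-v))) (vel (exOf Φ) p (-v) (-s)) := by
        rw [neg_one_smul, neg_neg]
      rw [h7] at h6
      exact h6
    have h5 : (-s) • (-v) = s • v := by rw [neg_smul_neg]
    have h6 : acc h (exOf Φ p (s • v)) (vel (exOf Φ) p (-v) (-s)) =
        acc h (exOf Φ p (s • v)) (vel (exOf Φ) p v s) := by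
      have h7 : vel (exOf Φ) p (-v) (-s) = (-1 : ℝ) • vel (exOf Φ) p v s := by
        rw [h2 s, neg_one_smul, neg_neg]
      rw [h7, acc_smul hm]
      norm_num
    rw [h5, h6] at h4
    rw [← h3] at h4
    exact h4
  rcases lt_trichotomy t 0 with ht | ht | ht
  · exact hneg t ht
  · have hvs : ContDiff ℝ ∞ fun r : ℝ => vel (exOf Φ) p v r := by
      have h1 := vel_smooth (AG7cAux.ex_smooth hΦ)
      have h2 : ContDiff ℝ ∞ fun r : ℝ => ((p, v, r) : E × E × ℝ) := by fun_prop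
      exact h1.comp h2
    have hdiff : Differentiable ℝ (vel (exOf Φ) p v) := hvs.differentiable (by simp)
    have hc1 : Continuous (deriv (vel (exOf Φ) p v)) := hvs.continuous_deriv (by simp)
    have hc2 : Continuous fun r : ℝ => acc h (exOf Φ p (r • v)) (vel (exOf Φ) p v r) := by
      have h1 := (acc_smooth hm).continuous
      have h2 : Continuous fun r : ℝ => ((exOf Φ p (r • v), vel (exOf Φ) p v r) : E × E) := by
        refine Continuous.prodMk ?_ hvs.continuous
        have h3 := (AG7cAux.ex_smooth hΦ).continuous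
        have h4 : Continuous fun r : ℝ => ((p, r • v) : E × E) := by fun_prop
        exact h3.comp h4
      exact h1.comp h2
    have heq : EqOn (deriv (vel (exOf Φ) p v))
        (fun r : ℝ => acc h (exOf Φ p (r • v)) (vel (exOf Φ) p v r)) {0}ᶜ := by
      intro r hr
      rcases lt_or_gt_of_ne (show r ≠ 0 from hr) with h1 | h1
      · exact (hneg r h1).deriv
      · exact (hΦ.geo_pos hm p v h1).deriv
    have hall := Continuous.ext_on (dense_compl_singleton (0 : ℝ)) hc1 hc2 heq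
    have h0 := congrFun hall t
    have h1 := (hdiff t).hasDerivAt
    rw [h0] at h1
    exact h1
  · exact hΦ.geo_pos hm p v ht

end Pool.Agent.Lib.MP_df705a_gt.Pin.A
end
end

section

/-!
# Ricci pinching, part A, AR5: comparison along regular rays
-/

open scoped Manifold ContDiff Topology
open Set Bundle Module Filter MeasureTheory

noncomputable section

set_option linter.unusedSectionVars false

namespace Pool.Agent.Lib.MP_df705a_gt.Pin.A

open Pool.Agent.Lib.MP_df705a_gt.Twist Pool.Agent.Lib.MP_df705a_gt.Perm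
open Pool.Agent.Lib.MP_df705a_gt.Coll (trM ipM)
open Pool.Agent.Lib.MP_df705a_gt.Coll.T (ddC mat pull RM SmF)

variable {E : Type*} [NormedAddCommGroup E] [NormedSpace ℝ E] [FiniteDimensional ℝ E]
  {h : Curv.Coeff E}

variable {Ex : E → E → E}

namespace AR5Aux

theorem extend (D : ℝ → ℝ) (hcont : Continuous D) {S κ : ℝ}
    (hopen : ∀ s t : ℝ, 0 < s → s ≤ t → t < S →
      D t ≤ Real.exp (κ * (t ^ 2 - s ^ 2) / 6) * D s) {s t : ℝ} (h0 : 0 ≤ s)
    (hst : s ≤ t) (ht : t ≤ S) :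
    D t ≤ Real.exp (κ * (t ^ 2 - s ^ 2) / 6) * D s := by
  rcases hst.eq_or_lt with heq | hlt
  · rw [heq]
    simp
  · have hL : Tendsto (fun ε : ℝ => D (t - ε)) (𝓝[>] 0) (𝓝 (D t)) := by
      have h1 : Continuous (fun ε : ℝ => D (t - ε)) :=
        hcont.comp (continuous_const.sub continuous_id)
      have h2 := h1.tendsto (0 : ℝ)
      rw [sub_zero] at h2
      exact h2.mono_left nhdsWithin_le_nhds
    have hR : Tendsto (fun ε : ℝ => Real.exp (κ * ((t - ε) ^ 2 - (s + ε) ^ 2) / 6) *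
        D (s + ε)) (𝓝[>] 0)
        (𝓝 (Real.exp (κ * (t ^ 2 - s ^ 2) / 6) * D s)) := by
      have h0 : Continuous (fun ε : ℝ => D (s + ε)) :=
        hcont.comp (continuous_const.add continuous_id)
      have h1 : Continuous (fun ε : ℝ => Real.exp (κ * ((t - ε) ^ 2 - (s + ε) ^ 2) / 6) *
        D (s + ε)) := by
        refine Continuous.mul ?_ h0
        fun_prop
      have h2 := h1.tendsto (0 : ℝ)
      rw [sub_zero, add_zero] at h2
      exact h2.mono_left nhdsWithin_le_nhds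
    refine le_of_tendsto_of_tendsto hL hR ?_
    have h1 : ∀ᶠ ε in 𝓝[>] (0 : ℝ), ε < (t - s) / 2 :=
      (eventually_lt_nhds (by linarith : (0 : ℝ) < (t - s) / 2)).filter_mono nhdsWithin_le_nhds
    filter_upwards [h1, self_mem_nhdsWithin] with ε h2 h3
    have h3' : 0 < ε := h3
    exact hopen (s + ε) (t - ε) (by linarith) (by linarith) (by linarith)

end AR5Aux

/-- Proof: the function `s ↦ log (dens (s e)) - κ s² / 6` is antitone on `(0, S)`
(`hasDerivAt_log_dens`, `mc_le`), so `dens (t e) ≤ exp (κ (t² - s²) / 6) dens (s e)` for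
`0 < s ≤ t < S`, and for `0 ≤ s ≤ t ≤ S` by continuity (`dens_continuous`). -/
theorem dens_ray_le (hm : Curv.IsMetric h) (hE : IsExp h Ex) {p e : E} (he : nm h p e = 1)
    {S κ : ℝ} (hd : ∀ s ∈ Ioo 0 S, (fderiv ℝ (Ex p) (s • e)).det ≠ 0)
    (hκ : ∀ s ∈ Ioo 0 S, -κ ≤ rc h (Ex p (s • e)) (vel Ex p e s)) {s t : ℝ} (h0 : 0 ≤ s)
    (hst : s ≤ t) (ht : t ≤ S) :
    dens h Ex p (t • e) ≤ Real.exp (κ * (t ^ 2 - s ^ 2) / 6) * dens h Ex p (s • e) := by
  set g : ℝ → ℝ := fun s => Real.log (dens h Ex p (s • e)) - κ * s ^ 2 / 6 with hg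
  have hder : ∀ s ∈ Ioo 0 S, HasDerivAt g
      (mc h Ex p (s • e) - ((finrank ℝ E : ℝ) - 1) / s - κ * s / 3) s := by
    intro s hs
    have h1 := hasDerivAt_log_dens hm hE he hs.1 (hd s hs)
    have h2 : HasDerivAt (fun s : ℝ => κ * s ^ 2 / 6) (κ * s / 3) s := by
      have h3 := (((hasDerivAt_id s).fun_pow 2).const_mul κ).div_const 6
      refine h3.congr_deriv ?_
      simp only [id]
      push_cast
      ring
    exact h1.sub h2
  have hanti : AntitoneOn g (Ioo 0 S) := by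
    refine antitoneOn_of_deriv_nonpos (convex_Ioo 0 S)
      (fun s hs => (hder s hs).continuousAt.continuousWithinAt) ?_ ?_
    · intro s hs
      rw [interior_Ioo] at hs
      exact (hder s hs).differentiableAt.differentiableWithinAt
    · intro s hs
      rw [interior_Ioo] at hs
      rw [(hder s hs).deriv]
      have := mc_le hm hE he hd hκ hs
      linarith
  have hopen : ∀ s t : ℝ, 0 < s → s ≤ t → t < S →
      dens h Ex p (t • e) ≤ Real.exp (κ * (t ^ 2 - s ^ 2) / 6) * dens h Ex p (s • e) := by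
    intro s t h0 hst ht
    have hs : s ∈ Ioo 0 S := ⟨h0, lt_of_le_of_lt hst ht⟩
    have ht' : t ∈ Ioo 0 S := ⟨lt_of_lt_of_le h0 hst, ht⟩
    have h1 := hanti hs ht' hst
    have h2 := (dens_pos_iff hm Ex p (s • e)).2 (hd s hs)
    have h3 := (dens_pos_iff hm Ex p (t • e)).2 (hd t ht')
    simp only [hg] at h1
    have h4 : Real.log (dens h Ex p (t • e)) ≤
        κ * (t ^ 2 - s ^ 2) / 6 + Real.log (dens h Ex p (s • e)) := by
      have : κ * (t ^ 2 - s ^ 2) / 6 = κ * t ^ 2 / 6 - κ * s ^ 2 / 6 := by ring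
      linarith
    have h5 := Real.exp_le_exp.2 h4
    rw [Real.exp_add, Real.exp_log h2, Real.exp_log h3] at h5
    exact h5
  have hcont : Continuous (fun r : ℝ => dens h Ex p (r • e)) := by
    have h1 := dens_continuous (h := h) (Ex := Ex) hm hE
    have h2 : Continuous (fun r : ℝ => ((p, r • e) : E × E)) := by fun_prop
    have h3 := Continuous.comp h1 h2
    simp only [Function.comp_def] at h3
    exact h3
  exact AR5Aux.extend (fun r : ℝ => dens h Ex p (r • e)) hcont hopen h0 hst ht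

end Pool.Agent.Lib.MP_df705a_gt.Pin.A
end
end

section

/-!
# Ricci pinching, part A, AR7a: comparison along shortest geodesics
-/

open scoped Manifold ContDiff Topology
open Set Bundle Module Filter MeasureTheory

noncomputable section

set_option linter.unusedSectionVars false

namespace Pool.Agent.Lib.MP_df705a_gt.Pin.A

open Pool.Agent.Lib.MP_df705a_gt.Twist Pool.Agent.Lib.MP_df705a_gt.Perm
open Pool.Agent.Lib.MP_df705a_gt.Coll (trM ipM)
open Pool.Agent.Lib.MP_df705a_gt.Coll.T (ddC mat pull RM SmF)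

variable {E : Type*} [NormedAddCommGroup E] [NormedSpace ℝ E] [FiniteDimensional ℝ E]
  {h : Curv.Coeff E}

variable {Ex : E → E → E}

/-- Bishop's inequality. Proof: for `v = 0` it is trivial. Otherwise let `L = nm h p v`, `e = v / L`;
`dens_ray_le` with `S = L`, `s = t L`, `t := L` (`Seg.det_ne`; `rc_ge` and `IsExp.speed`:
`rc h (Ex p (s e)) (vel Ex p e s) ≥ - κ`). -/
theorem Seg.dens_le (hm : Curv.IsMetric h) (hE : IsExp h Ex) {p v : E} (hv : Seg h Ex p v) {κ t : ℝ}
    (hκ : 0 ≤ κ) (hR : ∀ s ∈ Icc (0 : ℝ) 1, RicGeAt h κ (Ex p (s • v))) (ht : t ∈ Icc (0 : ℝ) 1) :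
    dens h Ex p v ≤ Real.exp (κ * nm h p v ^ 2 / 6) * dens h Ex p (t • v) := by
  by_cases hv0 : v = 0
  · subst hv0
    rw [smul_zero, nm_zero]
    have h1 : Real.exp (κ * 0 ^ 2 / 6) = 1 := by
      rw [show κ * 0 ^ 2 / 6 = 0 by ring, Real.exp_zero]
    rw [h1, one_mul]
  have hL : 0 < nm h p v := nm_pos hm p hv0
  set L := nm h p v with hLdef
  have hL0 : L ≠ 0 := hL.ne'
  set e : E := L⁻¹ • v with hedef
  have he : nm h p e = 1 := by
    rw [hedef, nm_smul, ← hLdef, abs_of_pos (inv_pos.2 hL), inv_mul_cancel₀ hL0]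
  have hse : ∀ s : ℝ, s • e = (s / L) • v := by
    intro s
    rw [hedef, smul_smul, div_eq_mul_inv]
  have hd : ∀ s ∈ Ioo 0 L, (fderiv ℝ (Ex p) (s • e)).det ≠ 0 := by
    intro s hs
    rw [hse]
    exact Seg.det_ne hm hE hv (div_nonneg hs.1.le hL.le) ((div_lt_one hL).2 hs.2)
  have hrc : ∀ s ∈ Ioo 0 L, -κ ≤ rc h (Ex p (s • e)) (vel Ex p e s) := by
    intro s hs
    have h1 := rc_ge (hR (s / L) ⟨div_nonneg hs.1.le hL.le, ((div_lt_one hL).2 hs.2).le⟩)
      (vel Ex p e s)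
    rw [← hse] at h1
    have h2 := hE.energy hm p e s
    rw [← nm_sq hm p e, he, one_pow] at h2
    rw [h2, mul_one] at h1
    exact h1
  have h3 := dens_ray_le hm hE he hd hrc (s := t * L) (t := L) (mul_nonneg ht.1 hL.le)
    (by nlinarith [ht.2]) le_rfl
  have h4 : L • e = v := by
    rw [hse, div_self hL0, one_smul]
  have h5 : (t * L) • e = t • v := by
    rw [hse, mul_div_assoc, div_self hL0, mul_one]
  rw [h4, h5] at h3
  refine h3.trans (mul_le_mul_of_nonneg_right (Real.exp_le_exp.2 ?_) (dens_nonneg h Ex p _))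
  have h6 : 0 ≤ κ * (t * L) ^ 2 := mul_nonneg hκ (sq_nonneg _)
  linarith

end Pool.Agent.Lib.MP_df705a_gt.Pin.A
end
end

section

/-!
# Ricci pinching, part A, AZ1b: images and volumes
-/

open scoped Manifold ContDiff Topology
open Set Bundle Module Filter MeasureTheory

noncomputable section

set_option linter.unusedSectionVars false

namespace Pool.Agent.Lib.MP_df705a_gt.Pin.A

open Pool.Agent.Lib.MP_df705a_gt.Twist Pool.Agent.Lib.MP_df705a_gt.Perm
open Pool.Agent.Lib.MP_df705a_gt.Coll (trM ipM)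
open Pool.Agent.Lib.MP_df705a_gt.Coll.T (ddC mat pull RM SmF)

variable {E : Type*} [NormedAddCommGroup E] [NormedSpace ℝ E] [FiniteDimensional ℝ E]
  {h : Curv.Coeff E}

variable {Ex : E → E → E} [MeasurableSpace E] [BorelSpace E]

theorem AZ1bAux.dens (hm : Curv.IsMetric h) (Ex : E → E → E) (p v : E) :
    ENNReal.ofReal (A.dens h Ex p v) = ENNReal.ofReal |(fderiv ℝ (Ex p) v).det| *
      ENNReal.ofReal (√ (h (Ex p v)).det) := by
  rw [dens_eq hm, ENNReal.ofReal_mul (abs_nonneg _)]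

theorem AZ1bAux.meas (hm : Curv.IsMetric h) :
    Measurable fun y : E => ENNReal.ofReal (√ (h y).det) := by
  have h1 : Continuous fun y : E => (h y).det := by
    have h2 : Continuous h := by
      apply continuous_matrix
      intro i j
      exact (hm.1 i j).continuous
    exact h2.matrix_det
  exact ENNReal.measurable_ofReal.comp (Real.continuous_sqrt.comp h1).measurable

/-- Proof: `lintegral_image_le` with `g y = ofReal (√ det (h y))` (`withDensity_apply'`,
`dens_eq`). -/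
theorem vol_image_le (hm : Curv.IsMetric h) (hE : IsExp h Ex) (p : E) {s : Set E}
    (hs : MeasurableSet s) :
    vol h (Ex p '' s) ≤ ∫⁻ v in s, ENNReal.ofReal (dens h Ex p v) ∂(finBasis ℝ E).addHaar := by
  unfold vol
  rw [withDensity_apply']
  refine (lintegral_image_le ((hE.smooth_at p).of_le (by simp)) hs (AZ1bAux.meas hm) _).trans
    (le_of_eq ?_)
  refine lintegral_congr (fun v => ?_)
  rw [AZ1bAux.dens hm]

/-- Proof: `lintegral_image_eq_lintegral_abs_det_fderiv_mul`. -/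
theorem vol_image_eq (hm : Curv.IsMetric h) (hE : IsExp h Ex) (p : E) {s : Set E}
    (hs : MeasurableSet s) (hi : InjOn (Ex p) s) :
    vol h (Ex p '' s) = ∫⁻ v in s, ENNReal.ofReal (dens h Ex p v) ∂(finBasis ℝ E).addHaar := by
  unfold vol
  rw [withDensity_apply', lintegral_image_eq_lintegral_abs_det_fderiv_mul _ hs
    (fun v _ => (((hE.smooth_at p).differentiable (by simp)) v).hasFDerivAt.hasFDerivWithinAt) hi]
  refine lintegral_congr (fun v => ?_)
  rw [AZ1bAux.dens hm]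

end Pool.Agent.Lib.MP_df705a_gt.Pin.A
end
end

section

/-!
# Ricci pinching, part A, AZ3a: the theorem of Bishop and Gromov
-/

open scoped Manifold ContDiff Topology
open Set Bundle Module Filter MeasureTheory

noncomputable section

set_option linter.unusedSectionVars false

namespace Pool.Agent.Lib.MP_df705a_gt.Pin.A

open Pool.Agent.Lib.MP_df705a_gt.Twist Pool.Agent.Lib.MP_df705a_gt.Perm
open Pool.Agent.Lib.MP_df705a_gt.Coll (trM ipM)
open Pool.Agent.Lib.MP_df705a_gt.Coll.T (ddC mat pull RM SmF)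

variable {E : Type*} [NormedAddCommGroup E] [NormedSpace ℝ E] [FiniteDimensional ℝ E]
  {h : Curv.Coeff E}

variable {Ex : E → E → E} [MeasurableSpace E] [BorelSpace E]

/-- Proof: `hopf_rinow` and the definition of `Seg`; `IsExp.dist_le_one`. -/
theorem ballh_eq_image (hm : Curv.IsMetric h) (hP : Proper h) (hE : IsExp h Ex) (p : E) (R : ℝ) :
    ballh h p R = Ex p '' {v | Seg h Ex p v ∧ nm h p v < R} := by
  ext q
  constructor
  · intro hq
    have hq' : dh h p q < R := hq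
    obtain ⟨v, hv1, hv2⟩ := hopf_rinow hm hP hE p q
    refine ⟨v, ⟨?_, ?_⟩, hv2⟩
    · show dh h p (Ex p v) = nm h p v
      rw [hv2, hv1]
    · rw [hv1]
      exact hq'
  · rintro ⟨v, ⟨_, hv2⟩, rfl⟩
    show dh h p (Ex p v) < R
    exact lt_of_le_of_lt (hE.dist_le_one hm p v) hv2

/-- Proof: `isClosed_seg`, `nm_continuous`. -/
theorem measurableSet_seg (hm : Curv.IsMetric h) (hE : IsExp h Ex) (p : E) :
    MeasurableSet {v | Seg h Ex p v} := by
  have h1 : IsClosed {v | Seg h Ex p v} :=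
    (isClosed_seg hm hE).preimage (Continuous.prodMk_right p)
  exact h1.measurableSet

private theorem dens_le_zero (hm : Curv.IsMetric h) (hE : IsExp h Ex) (p : E)
    {κ R : ℝ} (hκ : 0 ≤ κ) (hric : ∀ y, dh h p y ≤ R → RicGeAt h κ y) {v : E}
    (hv : Seg h Ex p v) (hvR : nm h p v ≤ R) :
    dens h Ex p v ≤ Real.exp (κ * R ^ 2 / 6) * √ (h p).det := by
  have h0 : (0 : ℝ) ∈ Icc (0 : ℝ) 1 := ⟨le_refl _, zero_le_one⟩
  have h1 := hv.dens_le hm hE (t := 0) hκ (fun s hs => hric _ (by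
    have h2 := hE.dist_le_one hm p (s • v)
    rw [nm_smul, abs_of_nonneg hs.1] at h2
    have h3 : s * nm h p v ≤ 1 * nm h p v :=
      mul_le_mul_of_nonneg_right hs.2 (nm_nonneg h p v)
    linarith)) h0
  rw [zero_smul, dens_zero hm hE] at h1
  refine h1.trans (mul_le_mul_of_nonneg_right ?_ (Real.sqrt_nonneg _))
  apply Real.exp_le_exp.2
  have h4 : nm h p v ^ 2 ≤ R ^ 2 := pow_le_pow_left₀ (nm_nonneg h p v) hvR 2
  have h5 : κ * nm h p v ^ 2 ≤ κ * R ^ 2 := mul_le_mul_of_nonneg_left h4 hκ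
  linarith

private theorem vol_image_seg_le_aux (hm : Curv.IsMetric h) (hE : IsExp h Ex) (p : E)
    {κ R : ℝ} (hκ : 0 ≤ κ) (hric : ∀ y, dh h p y ≤ R → RicGeAt h κ y) {s : Set E}
    (hs : MeasurableSet s) (hsR : ∀ v ∈ s, Seg h Ex p v ∧ nm h p v ≤ R) :
    vol h (Ex p '' s) ≤ ENNReal.ofReal (Real.exp (κ * R ^ 2 / 6)) *
      ((finBasis ℝ E).addHaar s * ENNReal.ofReal (√ (h p).det)) := by
  calc vol h (Ex p '' s)
      ≤ ∫⁻ v in s, ENNReal.ofReal (dens h Ex p v) ∂(finBasis ℝ E).addHaar :=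
        vol_image_le hm hE p hs
    _ ≤ ∫⁻ _ in s, ENNReal.ofReal (Real.exp (κ * R ^ 2 / 6) * √ (h p).det)
          ∂(finBasis ℝ E).addHaar := by
        apply setLIntegral_mono' hs
        intro v hv
        exact ENNReal.ofReal_le_ofReal
          (dens_le_zero hm hE p hκ hric (hsR v hv).1 (hsR v hv).2)
    _ = ENNReal.ofReal (Real.exp (κ * R ^ 2 / 6)) *
          ((finBasis ℝ E).addHaar s * ENNReal.ofReal (√ (h p).det)) := by
        rw [setLIntegral_const, ENNReal.ofReal_mul (Real.exp_nonneg _)]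
        ring

/-- Proof: `ballh_eq_image`, `vol_image_le`, `Seg.dens_le` with `t = 0` (`dens_zero`; the points
`Ex p (s v)` are in the ball: `IsExp.dist_le_one`), `tangent_ball`. -/
theorem vol_ball_le (hm : Curv.IsMetric h) (hP : Proper h) (hE : IsExp h Ex) (p : E) {κ R : ℝ}
    (hκ : 0 ≤ κ) (hR : 0 < R) (hric : ∀ y, dh h p y ≤ R → RicGeAt h κ y) :
    vol h (ballh h p R) ≤ ENNReal.ofReal (Real.exp (κ * R ^ 2 / 6) * R ^ finrank ℝ E) * om E := by
  have hc : Continuous fun v => nm h p v :=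
    (nm_continuous hm).comp (Continuous.prodMk_right p)
  have hs : MeasurableSet {v | Seg h Ex p v ∧ nm h p v < R} :=
    (measurableSet_seg hm hE p).inter (isOpen_lt hc continuous_const).measurableSet
  rw [ballh_eq_image hm hP hE p R]
  refine (vol_image_seg_le_aux hm hE p hκ hric hs
    (fun v hv => ⟨hv.1, hv.2.le⟩)).trans ?_
  rw [ENNReal.ofReal_mul (Real.exp_nonneg _), mul_assoc, ← tangent_ball hm p hR]
  gcongr
  exact fun hv => hv.2

/-- Proof: a set of tangent vectors of bounded norm, `Seg.dens_le` with `t = 0`. -/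
theorem vol_image_seg_le (hm : Curv.IsMetric h) (hE : IsExp h Ex) (p : E)
    {κ R : ℝ} (hκ : 0 ≤ κ) (hric : ∀ y, dh h p y ≤ R → RicGeAt h κ y) {s : Set E}
    (hs : MeasurableSet s) (hsR : ∀ v ∈ s, Seg h Ex p v ∧ nm h p v ≤ R) :
    vol h (Ex p '' s) ≤ ENNReal.ofReal (Real.exp (κ * R ^ 2 / 6)) *
      ((finBasis ℝ E).addHaar s * ENNReal.ofReal (√ (h p).det)) :=
  vol_image_seg_le_aux hm hE p hκ hric hs hsR

end Pool.Agent.Lib.MP_df705a_gt.Pin.A
end
end
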