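import Pool.Agent.Lib.MP_df705a_gt.Mg.G004
import Pool.Agent.Lib.MP_df705a_gt.Mg.G067
import Pool.Agent.Lib.MP_df705a_gt.Mg.G064
import Pool.Agent.Lib.MP_df705a_gt.Mg.G002
import Pool.Agent.Lib.MP_df705a_gt.Mg.G005
import Pool.Agent.Lib.MP_df705a_gt.Mg.G065
import Pool.Agent.Lib.MP_df705a_gt.Mg.G070

section

/-!
# Ricci pinching, part A, AR7: comparison along shortest geodesics
-/

open scoped Manifold ContDiff Topology
open Set Bundle Module Filter MeasureTheory

noncomputable section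

set_option linter.unusedSectionVars false

namespace Pool.Agent.Lib.MP_df705a_gt.Pin.A

open Pool.Agent.Lib.MP_df705a_gt.Twist Pool.Agent.Lib.MP_df705a_gt.Perm
open Pool.Agent.Lib.MP_df705a_gt.Coll (trM ipM)
open Pool.Agent.Lib.MP_df705a_gt.Coll.T (ddC mat pull RM SmF)

variable {E : Type*} [NormedAddCommGroup E] [NormedSpace ℝ E] [FiniteDimensional ℝ E]
  {h : Curv.Coeff E}

variable {Ex : E → E → E}

namespace AR7Aux

theorem cd_pd {F : E → ℝ} (hF : ContDiff ℝ ∞ F) (i : Fin (finrank ℝ E)) :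
    ContDiff ℝ ∞ fun x => Curv.pd i F x := by
  unfold Curv.pd
  exact (hF.fderiv_right (m := ∞) le_rfl).clm_apply contDiff_const

theorem cd_inv (hm : Curv.IsMetric h) (i j : Fin (finrank ℝ E)) :
    ContDiff ℝ ∞ fun x => (h x)⁻¹ i j := by
  rw [contDiff_iff_contDiffAt]
  intro x
  exact contDiffAt_inv (fun i j => (hm.1 i j).contDiffAt) (hm.2 x).det_pos.ne' i j

theorem cd_christoffel (hm : Curv.IsMetric h) (i j k : Fin (finrank ℝ E)) :
    ContDiff ℝ ∞ (Curv.christoffel h i j k) := by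
  have h1 : ContDiff ℝ ∞ fun y => Curv.christoffel h i j k y := by
    unfold Curv.christoffel
    exact (((cd_pd (hm.1 _ _) _).add (cd_pd (hm.1 _ _) _)).sub (cd_pd (hm.1 _ _) _)).div_const _
  exact h1

theorem cd_riemann (hm : Curv.IsMetric h) (i j k l : Fin (finrank ℝ E)) :
    ContDiff ℝ ∞ fun x => Curv.riemann h i j k l x := by
  unfold Curv.riemann
  refine ((cd_pd (cd_christoffel hm _ _ _) _).sub (cd_pd (cd_christoffel hm _ _ _) _)).add ?_
  refine ContDiff.sum fun p _ => ContDiff.sum fun q _ => ?_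
  refine (cd_inv hm p q).mul (ContDiff.sub ?_ ?_)
  · exact (cd_christoffel hm _ _ _).mul (cd_christoffel hm _ _ _)
  · exact (cd_christoffel hm _ _ _).mul (cd_christoffel hm _ _ _)

theorem cd_ric (hm : Curv.IsMetric h) (j k : Fin (finrank ℝ E)) :
    ContDiff ℝ ∞ fun x => ric h x j k := by
  unfold ric
  exact ContDiff.sum fun i _ => ContDiff.sum fun l _ => (cd_inv hm i l).mul (cd_riemann hm _ _ _ _)

theorem rc_cont (hm : Curv.IsMetric h) : Continuous fun q : E × E => rc h q.1 q.2 := by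
  unfold rc
  refine continuous_finsetSum _ fun i _ => continuous_finsetSum _ fun j _ => ?_
  refine ((cd_ric hm i j).continuous.comp continuous_fst).mul ?_
  have h1 : ∀ i : Fin (finrank ℝ E), Continuous fun q : E × E => (finBasis ℝ E).repr q.2 i :=
    fun i => (co E i).continuous.comp continuous_snd
  exact (h1 i).mul (h1 j)

end AR7Aux

/-- The integral of the Ricci curvature along the middle part of a shortest geodesic of length
`2 R`. Proof: `index_bound` with `m s = mc h Ex p (s e)`, `r s = rc h (Ex p (s e)) (vel Ex p e s)`,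
`N = n - 1`: `ray_riccati` (`H ≥ m² / N`), `Seg.det_ne`, `rc_ge`, `mc_near_zero`; `r` is continuous
(`IsExp.vel_smooth`, the Ricci curvature is continuous). -/
theorem Seg.ric_integral (hm : Curv.IsMetric h) (hE : IsExp h Ex) (hn : 2 ≤ finrank ℝ E) {p e : E}
    {R κ : ℝ} (hR : 0 < R) (hκ : 0 ≤ κ) (hκR : κ * R ^ 2 ≤ 1) (he : nm h p e = 1)
    (hv : Seg h Ex p ((2 * R) • e))
    (hric : ∀ s ∈ Icc 0 (2 * R), RicGeAt h κ (Ex p (s • e))) :
    ∫ s in (R / 2)..R, (rc h (Ex p (s • e)) (vel Ex p e s) + κ) ≤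
      (4 * ((finrank ℝ E : ℝ) - 1) + 1) / R := by
  have hdet : ∀ s ∈ Ioo 0 (2 * R), (fderiv ℝ (Ex p) (s • e)).det ≠ 0 := by
    intro s hs
    have h1 := Seg.det_ne hm hE hv (t := s / (2 * R)) (div_nonneg hs.1.le (by positivity))
      (by rw [div_lt_one (by positivity)]; exact hs.2)
    rwa [smul_smul, div_mul_cancel₀ _ (by positivity)] at h1
  have hex : ∀ s : ℝ, ∃ H : ℝ, s ∈ Ioo 0 (2 * R) → 0 ≤ H ∧
      mc h Ex p (s • e) ^ 2 ≤ ((finrank ℝ E : ℝ) - 1) * H ∧
      HasDerivAt (fun s : ℝ => mc h Ex p (s • e))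
        (-H - rc h (Ex p (s • e)) (vel Ex p e s)) s := by
    intro s
    by_cases hs : s ∈ Ioo 0 (2 * R)
    · obtain ⟨H, hH⟩ := ray_riccati hm hE he hs.1 (hdet s hs)
      exact ⟨H, fun _ => hH⟩
    · exact ⟨0, fun h => absurd h hs⟩
  choose H hH using hex
  obtain ⟨C, hC⟩ := mc_near_zero hm hE he
  have hN : (0 : ℝ) < (finrank ℝ E : ℝ) - 1 := by
    have : (2 : ℝ) ≤ finrank ℝ E := by exact_mod_cast hn
    linarith
  refine index_bound (m := fun s => mc h Ex p (s • e))
    (m' := fun s => -H s - rc h (Ex p (s • e)) (vel Ex p e s))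
    (r := fun s => rc h (Ex p (s • e)) (vel Ex p e s)) (N := (finrank ℝ E : ℝ) - 1) (C := C)
    hR hN hκ hκR (fun s hs => (hH s hs).2.2) ?_ ?_ ?_ ?_
  · intro s hs
    have h1 := (hH s hs).2.1
    have h2 : mc h Ex p (s • e) ^ 2 / ((finrank ℝ E : ℝ) - 1) ≤ H s := by
      rw [div_le_iff₀ hN]
      linarith
    have h3 : -mc h Ex p (s • e) ^ 2 / ((finrank ℝ E : ℝ) - 1) =
      -(mc h Ex p (s • e) ^ 2 / ((finrank ℝ E : ℝ) - 1)) := neg_div _ _
    show -H s - rc h (Ex p (s • e)) (vel Ex p e s) ≤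
      -mc h Ex p (s • e) ^ 2 / ((finrank ℝ E : ℝ) - 1) - rc h (Ex p (s • e)) (vel Ex p e s)
    rw [h3]
    linarith
  · have h1 : Continuous fun s : ℝ => Ex p (s • e) :=
      (hE.smooth_at p).continuous.comp (continuous_id.smul continuous_const)
    have h2 : Continuous fun s : ℝ => vel Ex p e s := by
      have h3 := hE.vel_smooth.continuous
      exact h3.comp (f := fun s : ℝ => ((p, e, s) : E × E × ℝ)) (by fun_prop)
    exact ((AR7Aux.rc_cont hm).comp (h1.prodMk h2)).continuousOn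
  · intro s hs
    have h1 := rc_ge (hric s ⟨hs.1.le, hs.2.le⟩) (vel Ex p e s)
    have h2 := hE.energy hm p e s
    rw [h2, ← nm_sq hm, he] at h1
    simpa using h1
  · filter_upwards [hC] with s hs
    have h1 := (abs_le.1 hs).2
    linarith

/-- Proof: the entries of `ric h` are continuous (`(h x)⁻¹` and the derivatives of `h` are smooth). -/
theorem rc_continuous (hm : Curv.IsMetric h) : Continuous fun q : E × E => rc h q.1 q.2 := by
  exact AR7Aux.rc_cont hm

end Pool.Agent.Lib.MP_df705a_gt.Pin.A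
end
end

section

/-!
# Ricci pinching, part A, AZ5a: pairs of points, the set of geodesics
-/

open scoped Manifold ContDiff Topology
open Set Bundle Module Filter MeasureTheory

noncomputable section

set_option linter.unusedSectionVars false

namespace Pool.Agent.Lib.MP_df705a_gt.Pin.A

open Pool.Agent.Lib.MP_df705a_gt.Twist Pool.Agent.Lib.MP_df705a_gt.Perm
open Pool.Agent.Lib.MP_df705a_gt.Coll (trM ipM)
open Pool.Agent.Lib.MP_df705a_gt.Coll.T (ddC mat pull RM SmF)

variable {E : Type*} [NormedAddCommGroup E] [NormedSpace ℝ E] [FiniteDimensional ℝ E]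
  {h : Curv.Coeff E}

variable {Ex : E → E → E} [MeasurableSpace E] [BorelSpace E]

/-- The tangent vectors at `p` of norm between `R / 2` and `R` which can be prolonged to a shortest
geodesic of length `2 R`. -/
def Wp (h : Curv.Coeff E) (Ex : E → E → E) (R : ℝ) (p : E) : Set E :=
  {v | R / 2 ≤ nm h p v ∧ nm h p v ≤ R ∧ Seg h Ex p ((2 * R / nm h p v) • v)}

/-- `Ric + κ` in the direction of the geodesic from `p` to `Ex p v`, at the end point. -/
def aa (h : Curv.Coeff E) (Ex : E → E → E) (κ : ℝ) (p v : E) : ℝ :=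
  rc h (Ex p v) (vel Ex p v 1) / nm h p v ^ 2 + κ

theorem Wp.seg (hm : Curv.IsMetric h) (hE : IsExp h Ex) {R : ℝ} (hR : 0 < R) {p v : E}
    (hv : v ∈ Wp h Ex R p) : Seg h Ex p v := by
  obtain ⟨h1, h2, h3⟩ := hv
  have hn : 0 < nm h p v := by linarith
  have ht : nm h p v / (2 * R) ∈ Icc (0 : ℝ) 1 := by
    refine ⟨by positivity, ?_⟩
    rw [div_le_one (by positivity)]
    linarith
  have h4 := h3.smul hm hE ht
  have h5 : nm h p v / (2 * R) * (2 * R / nm h p v) = 1 := by field_simp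
  rwa [smul_smul, h5, one_smul] at h4

/-- Proof: `Wp` is closed (`isClosed_seg`, the map `v ↦ (2 R / nm h p v) v` is continuous where
`nm h p v ≥ R / 2 > 0`), the first components are in a compact set and the norms are bounded
(`nm_compact`). -/
theorem isCompact_pairs (hm : Curv.IsMetric h) (hE : IsExp h Ex) {R : ℝ} (hR : 0 < R) {K : Set E}
    (hK : IsCompact K) : IsCompact {q : E × E | q.1 ∈ K ∧ q.2 ∈ Wp h Ex R q.1} := by
  have : ProperSpace E := FiniteDimensional.proper ℝ E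
  obtain ⟨c, C, hc, _, hcC⟩ := nm_compact hm hK
  have hcomp : IsCompact (K ×ˢ Metric.closedBall (0 : E) (R / c)) :=
    hK.prod (isCompact_closedBall 0 _)
  have hnmc := nm_continuous hm
  apply hcomp.of_isClosed_subset
  · have hA : IsClosed {q : E × E | R / 2 ≤ nm h q.1 q.2} := isClosed_le continuous_const hnmc
    have hB : IsClosed {q : E × E | q.1 ∈ K ∧ nm h q.1 q.2 ≤ R} :=
      (hK.isClosed.preimage continuous_fst).inter (isClosed_le hnmc continuous_const)
    have hf : ContinuousOn (fun q : E × E => ((q.1, (2 * R / nm h q.1 q.2) • q.2) : E × E))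
        {q : E × E | R / 2 ≤ nm h q.1 q.2} := by
      apply continuous_fst.continuousOn.prodMk
      apply ContinuousOn.smul _ continuous_snd.continuousOn
      apply continuousOn_const.div hnmc.continuousOn
      intro q hq
      have hq' : R / 2 ≤ nm h q.1 q.2 := hq
      have : 0 < nm h q.1 q.2 := by linarith
      exact this.ne'
    have hS := hf.preimage_isClosed_of_isClosed hA (isClosed_seg hm hE)
    have hall := hB.inter hS
    have heq : {q : E × E | q.1 ∈ K ∧ q.2 ∈ Wp h Ex R q.1} =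
        {q : E × E | q.1 ∈ K ∧ nm h q.1 q.2 ≤ R} ∩ ({q : E × E | R / 2 ≤ nm h q.1 q.2} ∩
          (fun q : E × E => ((q.1, (2 * R / nm h q.1 q.2) • q.2) : E × E)) ⁻¹'
            {q : E × E | Seg h Ex q.1 q.2}) := by
      ext q
      constructor
      · rintro ⟨h1, h2, h3, h4⟩
        exact ⟨⟨h1, h3⟩, h2, h4⟩
      · rintro ⟨⟨h1, h3⟩, h2, h4⟩
        exact ⟨h1, h2, h3, h4⟩
    rw [heq]
    exact hall
  · rintro ⟨x, v⟩ ⟨h1, h2, h3, _⟩
    refine ⟨h1, ?_⟩
    rw [mem_closedBall_zero_iff, le_div_iff₀ hc, mul_comm]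
    exact (hcC x h1 v).1.trans h3

/-- Proof: `aa` is continuous on the set of `isCompact_pairs` (`rc_continuous`, `IsExp.vel_smooth`,
`nm_continuous`). -/
theorem isCompact_pairs_le (hm : Curv.IsMetric h) (hE : IsExp h Ex) {R : ℝ} (hR : 0 < R) {K : Set E}
    (hK : IsCompact K) (κ l : ℝ) :
    IsCompact {q : E × E | q.1 ∈ K ∧ q.2 ∈ Wp h Ex R q.1 ∧ aa h Ex κ q.1 q.2 ≤ l} := by
  have hcomp := isCompact_pairs hm hE hR hK
  apply hcomp.of_isClosed_subset
  · have haa : ContinuousOn (fun q : E × E => aa h Ex κ q.1 q.2)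
        {q : E × E | q.1 ∈ K ∧ q.2 ∈ Wp h Ex R q.1} := by
      unfold aa
      apply ContinuousOn.add _ continuousOn_const
      apply ContinuousOn.div
      · have h1 : Continuous fun q : E × E => vel Ex q.1 q.2 1 :=
          hE.vel_smooth.continuous.comp
            (continuous_fst.prodMk (continuous_snd.prodMk continuous_const))
        exact ((rc_continuous hm).comp (hE.smooth.continuous.prodMk h1)).continuousOn
      · exact ((nm_continuous hm).pow 2).continuousOn
      · rintro q ⟨_, hq, _⟩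
        have : 0 < nm h q.1 q.2 := by linarith
        positivity
    have h2 := haa.preimage_isClosed_of_isClosed hcomp.isClosed (isClosed_Iic (a := l))
    have heq : {q : E × E | q.1 ∈ K ∧ q.2 ∈ Wp h Ex R q.1 ∧ aa h Ex κ q.1 q.2 ≤ l} =
        {q : E × E | q.1 ∈ K ∧ q.2 ∈ Wp h Ex R q.1} ∩
          (fun q : E × E => aa h Ex κ q.1 q.2) ⁻¹' Iic l := by
      ext q
      constructor
      · rintro ⟨h1, h2, h3⟩
        exact ⟨⟨h1, h2⟩, h3⟩
      · rintro ⟨⟨h1, h2⟩, h3⟩
        exact ⟨h1, h2, h3⟩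
    rw [heq]
    exact h2
  · rintro q ⟨h1, h2, _⟩
    exact ⟨h1, h2⟩

theorem measurableSet_Wp (hm : Curv.IsMetric h) (hE : IsExp h Ex) {R : ℝ} (hR : 0 < R) (p : E) :
    MeasurableSet (Wp h Ex R p) := by
  have h1 := (isCompact_pairs hm hE hR (isCompact_singleton (x := p))).isClosed
  have h2 : IsClosed (Wp h Ex R p) := by
    have h3 := h1.preimage (Continuous.prodMk_right p)
    have heq : (fun v : E => (p, v)) ⁻¹' {q : E × E | q.1 ∈ ({p} : Set E) ∧ q.2 ∈ Wp h Ex R q.1}
        = Wp h Ex R p := by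
      ext v
      simp
    rwa [heq] at h3
  exact h2.measurableSet

theorem measurableSet_Wp_lt (hm : Curv.IsMetric h) (hE : IsExp h Ex) {R : ℝ} (hR : 0 < R) (p : E)
    (κ l : ℝ) : MeasurableSet {v | v ∈ Wp h Ex R p ∧ l < aa h Ex κ p v} := by
  have h1 := (isCompact_pairs_le hm hE hR (isCompact_singleton (x := p)) κ l).isClosed
  have h2 : IsClosed {v | v ∈ Wp h Ex R p ∧ aa h Ex κ p v ≤ l} := by
    have h3 := h1.preimage (Continuous.prodMk_right p)
    have heq : (fun v : E => (p, v)) ⁻¹' {q : E × E | q.1 ∈ ({p} : Set E) ∧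
        q.2 ∈ Wp h Ex R q.1 ∧ aa h Ex κ q.1 q.2 ≤ l}
        = {v | v ∈ Wp h Ex R p ∧ aa h Ex κ p v ≤ l} := by
      ext v
      simp
    rwa [heq] at h3
  have h4 : {v | v ∈ Wp h Ex R p ∧ l < aa h Ex κ p v} =
      Wp h Ex R p \ {v | v ∈ Wp h Ex R p ∧ aa h Ex κ p v ≤ l} := by
    ext v
    constructor
    · rintro ⟨h5, h6⟩
      exact ⟨h5, fun h7 => absurd h7.2 (not_le.mpr h6)⟩
    · rintro ⟨h5, h6⟩
      exact ⟨h5, not_le.mp fun h7 => h6 ⟨h5, h7⟩⟩
  rw [h4]
  exact (measurableSet_Wp hm hE hR p).diff h2.measurableSet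

end Pool.Agent.Lib.MP_df705a_gt.Pin.A
end
end

section

/-!
# Ricci pinching, part A, AZ5c: pairs of points, the set of geodesics
-/

open scoped Manifold ContDiff Topology
open Set Bundle Module Filter MeasureTheory

noncomputable section

set_option linter.unusedSectionVars false

namespace Pool.Agent.Lib.MP_df705a_gt.Pin.A

open Pool.Agent.Lib.MP_df705a_gt.Twist Pool.Agent.Lib.MP_df705a_gt.Perm
open Pool.Agent.Lib.MP_df705a_gt.Coll (trM ipM)
open Pool.Agent.Lib.MP_df705a_gt.Coll.T (ddC mat pull RM SmF)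

variable {E : Type*} [NormedAddCommGroup E] [NormedSpace ℝ E] [FiniteDimensional ℝ E]
  {h : Curv.Coeff E}

variable {Ex : E → E → E} [MeasurableSpace E] [BorelSpace E]

namespace AZ5cAux

omit [MeasurableSpace E] [BorelSpace E] in
theorem rc_smul (h : Curv.Coeff E) (x : E) (c : ℝ) (u : E) :
    rc h x (c • u) = c ^ 2 * rc h x u := by
  unfold rc
  rw [Finset.mul_sum]
  refine Finset.sum_congr rfl fun i _ => ?_
  rw [Finset.mul_sum]
  refine Finset.sum_congr rfl fun j _ => ?_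
  simp only [map_smul, Finsupp.smul_apply, smul_eq_mul]
  ring

omit [MeasurableSpace E] [BorelSpace E] in
theorem aa_ray (h : Curv.Coeff E) (Ex : E → E → E) (κ : ℝ) (p : E) {e : E} (he : nm h p e = 1)
    {s : ℝ} (hs : 0 < s) :
    aa h Ex κ p (s • e) = rc h (Ex p (s • e)) (vel Ex p e s) + κ := by
  unfold aa
  rw [vel_smul, one_mul, rc_smul, nm_smul, he, mul_one, abs_of_pos hs]
  rw [mul_div_cancel_left₀ _ (by positivity)]

theorem aa_measurable (hm : Curv.IsMetric h) (hE : IsExp h Ex) (κ : ℝ) (p : E) :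
    Measurable (aa h Ex κ p) := by
  have h1 : Continuous fun v : E => Ex p v := (hE.smooth_at p).continuous
  have h2 : Continuous fun v : E => vel Ex p v 1 :=
    hE.vel_smooth.continuous.comp (f := fun v : E => ((p, v, (1 : ℝ)) : E × E × ℝ)) (by fun_prop)
  have h3 : Continuous fun v : E => rc h (Ex p v) (vel Ex p v 1) :=
    Continuous.comp (g := fun q : E × E => rc h q.1 q.2)
      (f := fun v : E => ((Ex p v, vel Ex p v 1) : E × E)) (rc_continuous hm) (h1.prodMk h2)
  have h4 : Continuous fun v : E => nm h p v :=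
    (nm_continuous hm).comp (f := fun v : E => ((p, v) : E × E)) (by fun_prop)
  show Measurable fun v => rc h (Ex p v) (vel Ex p v 1) / nm h p v ^ 2 + κ
  exact (h3.measurable.div (h4.measurable.pow_const 2)).add_const κ

end AZ5cAux

/-- Proof: `cone_integral` for the cone `C = {v | v ≠ 0 ∧ Seg h Ex p ((2 R / nm h p v) • v)}` and
`f v = ofReal (aa h Ex κ p v)`: for a unit vector `e ∈ C` and `s > 0`
`aa h Ex κ p (s e) = rc h (Ex p (s e)) (vel Ex p e s) + κ` (`vel_smul`), which is nonnegative on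
`[R/2, R]` (`rc_ge`), and its integral is at most `(4 (n - 1) + 1) / R` (`Seg.ric_integral`).
(`f` is measurable: `aa h Ex κ p` is continuous on `{v ≠ 0}`.) -/
theorem lintegral_Wp_le (hm : Curv.IsMetric h) (hE : IsExp h Ex) (hn : 2 ≤ finrank ℝ E) {κ R : ℝ}
    (hR : 0 < R) (hκ : 0 ≤ κ) (hκR : κ * R ^ 2 ≤ 1) (p : E)
    (hric : ∀ y, dh h p y ≤ 2 * R → RicGeAt h κ y) :
    (∫⁻ v in Wp h Ex R p, ENNReal.ofReal (aa h Ex κ p v) ∂(finBasis ℝ E).addHaar) *
      ENNReal.ofReal (√ (h p).det) ≤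
      ENNReal.ofReal (4 * (4 * R) ^ finrank ℝ E * ((4 * ((finrank ℝ E : ℝ) - 1) + 1) / R) / R) *
        om E := by
  have hnm : Continuous fun v : E => nm h p v :=
    (nm_continuous hm).comp (f := fun v : E => ((p, v) : E × E)) (by fun_prop)
  have hC : MeasurableSet {v : E | v ≠ 0 ∧ Seg h Ex p ((2 * R / nm h p v) • v)} := by
    have h1 : MeasurableSet {v : E | v ≠ 0} := isOpen_ne.measurableSet
    have h2 : IsClosed {w : E | Seg h Ex p w} :=
      (isClosed_seg hm hE).preimage (f := fun w : E => ((p, w) : E × E)) (by fun_prop)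
    have h3 : Measurable fun v : E => (2 * R / nm h p v) • v :=
      (hnm.measurable.const_div (2 * R)).smul measurable_id
    exact h1.inter (h3 h2.measurableSet)
  have hn1 : (0 : ℝ) < 4 * ((finrank ℝ E : ℝ) - 1) + 1 := by
    have : (2 : ℝ) ≤ finrank ℝ E := by exact_mod_cast hn
    linarith
  have key := cone_integral hm p hC (f := fun v => ENNReal.ofReal (aa h Ex κ p v)) ?_
    (AZ5cAux.aa_measurable hm hE κ p).ennreal_ofReal hR
    (A := (4 * ((finrank ℝ E : ℝ) - 1) + 1) / R) (by positivity) ?_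
  · have hset : {v | v ∈ {v : E | v ≠ 0 ∧ Seg h Ex p ((2 * R / nm h p v) • v)} ∧
        R / 2 ≤ nm h p v ∧ nm h p v ≤ R} = Wp h Ex R p := by
      ext v
      constructor
      · rintro ⟨⟨-, h1⟩, h2, h3⟩
        exact ⟨h2, h3, h1⟩
      · rintro ⟨h2, h3, h1⟩
        refine ⟨⟨?_, h1⟩, h2, h3⟩
        rintro rfl
        rw [nm_zero] at h2
        linarith
    rw [hset] at key
    exact key
  · rintro v ⟨hv, hs⟩ t ht
    refine ⟨smul_ne_zero ht.ne' hv, ?_⟩
    have hv' := nm_pos hm p hv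
    have h1 : (2 * R / nm h p (t • v)) • t • v = (2 * R / nm h p v) • v := by
      rw [smul_smul, nm_smul, abs_of_pos ht]
      congr 1
      field_simp
    show Seg h Ex p ((2 * R / nm h p (t • v)) • t • v)
    rw [h1]
    exact hs
  · rintro e ⟨-, hs⟩ he
    rw [he, div_one] at hs
    have hric' : ∀ s ∈ Icc 0 (2 * R), RicGeAt h κ (Ex p (s • e)) := by
      intro s hs
      apply hric
      refine (hE.dist_le_one hm p (s • e)).trans ?_
      rw [nm_smul, he, mul_one, abs_of_nonneg hs.1]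
      exact hs.2
    have h1 := Seg.ric_integral hm hE hn hR hκ hκR he hs hric'
    have h2 : Continuous fun s : ℝ => rc h (Ex p (s • e)) (vel Ex p e s) + κ := by
      have a1 : Continuous fun s : ℝ => Ex p (s • e) :=
        (hE.smooth_at p).continuous.comp (continuous_id.smul continuous_const)
      have a2 : Continuous fun s : ℝ => vel Ex p e s :=
        hE.vel_smooth.continuous.comp (f := fun s : ℝ => ((p, e, s) : E × E × ℝ)) (by fun_prop)
      exact (Continuous.comp (g := fun q : E × E => rc h q.1 q.2)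
        (f := fun s : ℝ => ((Ex p (s • e), vel Ex p e s) : E × E))
        (rc_continuous hm) (a1.prodMk a2)).add continuous_const
    have h3 : ∫⁻ s in Icc (R / 2) R, ENNReal.ofReal (aa h Ex κ p (s • e)) =
        ∫⁻ s in Icc (R / 2) R, ENNReal.ofReal (rc h (Ex p (s • e)) (vel Ex p e s) + κ) := by
      refine setLIntegral_congr_fun measurableSet_Icc fun s hs => ?_
      have hs0 : 0 < s := by
        have := hs.1
        linarith
      show ENNReal.ofReal (aa h Ex κ p (s • e)) = _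
      rw [AZ5cAux.aa_ray h Ex κ p he hs0]
    show ∫⁻ s in Icc (R / 2) R, ENNReal.ofReal (aa h Ex κ p (s • e)) ≤ _
    rw [h3, ← ofReal_integral_eq_lintegral_ofReal]
    · apply ENNReal.ofReal_le_ofReal
      rw [integral_Icc_eq_integral_Ioc, ← intervalIntegral.integral_of_le (by linarith)]
      exact h1
    · exact h2.continuousOn.integrableOn_compact isCompact_Icc
    · refine (ae_restrict_iff' measurableSet_Icc).2 (Eventually.of_forall fun s hs => ?_)
      have hs0 : 0 ≤ s := by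
        have := hs.1
        linarith
      have h4 := rc_ge (hric' s ⟨hs0, by linarith [hs.2]⟩) (vel Ex p e s)
      have h5 := hE.energy hm p e s
      rw [h5, ← nm_sq hm, he] at h4
      show 0 ≤ rc h (Ex p (s • e)) (vel Ex p e s) + κ
      linarith

end Pool.Agent.Lib.MP_df705a_gt.Pin.A
end
end

section

/-!
# Ricci pinching, part A, AZ5: pairs of points, the set of geodesics
-/

open scoped Manifold ContDiff Topology
open Set Bundle Module Filter MeasureTheory

noncomputable section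

set_option linter.unusedSectionVars false

namespace Pool.Agent.Lib.MP_df705a_gt.Pin.A

open Pool.Agent.Lib.MP_df705a_gt.Twist Pool.Agent.Lib.MP_df705a_gt.Perm
open Pool.Agent.Lib.MP_df705a_gt.Coll (trM ipM)
open Pool.Agent.Lib.MP_df705a_gt.Coll.T (ddC mat pull RM SmF)

variable {E : Type*} [NormedAddCommGroup E] [NormedSpace ℝ E] [FiniteDimensional ℝ E]
  {h : Curv.Coeff E}

variable {Ex : E → E → E} [MeasurableSpace E] [BorelSpace E]

/-- Proof: `vol_image_seg_le` and Chebyshev's inequality (`mul_meas_ge_le_lintegral₀` or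
`meas_ge_le_lintegral_div`) with `lintegral_Wp_le`. -/
theorem vol_good_le (hm : Curv.IsMetric h) (hE : IsExp h Ex) (hn : 2 ≤ finrank ℝ E) {κ R l : ℝ}
    (hR : 0 < R) (hκ : 0 ≤ κ) (hκR : κ * R ^ 2 ≤ 1) (hl : 0 < l) (p : E)
    (hric : ∀ y, dh h p y ≤ 2 * R → RicGeAt h κ y) :
    vol h (Ex p '' {v | v ∈ Wp h Ex R p ∧ l < aa h Ex κ p v}) ≤
      ENNReal.ofReal (Real.exp (κ * R ^ 2 / 6) *
        (4 * (4 * R) ^ finrank ℝ E * ((4 * ((finrank ℝ E : ℝ) - 1) + 1) / R) / R) / l) *
        om E := by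
  obtain ⟨s, hs⟩ : ∃ s : Set E, s = {v | v ∈ Wp h Ex R p ∧ l < aa h Ex κ p v} := ⟨_, rfl⟩
  have hsm : MeasurableSet s := by
    rw [hs]
    exact measurableSet_Wp_lt hm hE hR p κ l
  have hmem : ∀ v ∈ s, v ∈ Wp h Ex R p ∧ l < aa h Ex κ p v := by
    intro v hv
    rw [hs] at hv
    exact hv
  obtain ⟨X, hX⟩ : ∃ X : ℝ,
    X = 4 * (4 * R) ^ finrank ℝ E * ((4 * ((finrank ℝ E : ℝ) - 1) + 1) / R) / R := ⟨_, rfl⟩
  have hint := lintegral_Wp_le hm hE hn hR hκ hκR p hric
  rw [← hX] at hint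
  have h1 : ENNReal.ofReal l * (finBasis ℝ E).addHaar s ≤
      ∫⁻ v in Wp h Ex R p, ENNReal.ofReal (aa h Ex κ p v) ∂(finBasis ℝ E).addHaar := by
    calc ENNReal.ofReal l * (finBasis ℝ E).addHaar s
        = ∫⁻ _ in s, ENNReal.ofReal l ∂(finBasis ℝ E).addHaar := by
          rw [setLIntegral_const]
      _ ≤ ∫⁻ v in s, ENNReal.ofReal (aa h Ex κ p v) ∂(finBasis ℝ E).addHaar :=
          setLIntegral_mono' hsm fun v hv => ENNReal.ofReal_le_ofReal (hmem v hv).2.le
      _ ≤ ∫⁻ v in Wp h Ex R p, ENNReal.ofReal (aa h Ex κ p v) ∂(finBasis ℝ E).addHaar :=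
          lintegral_mono_set fun v hv => (hmem v hv).1
  have h2 : (finBasis ℝ E).addHaar s * ENNReal.ofReal (√ (h p).det) ≤
      (ENNReal.ofReal X * om E) / ENNReal.ofReal l := by
    rw [ENNReal.le_div_iff_mul_le (Or.inl (ENNReal.ofReal_pos.mpr hl).ne')
      (Or.inl ENNReal.ofReal_ne_top)]
    calc (finBasis ℝ E).addHaar s * ENNReal.ofReal (√ (h p).det) * ENNReal.ofReal l
        = ENNReal.ofReal l * (finBasis ℝ E).addHaar s * ENNReal.ofReal (√ (h p).det) := by ring
      _ ≤ (∫⁻ v in Wp h Ex R p, ENNReal.ofReal (aa h Ex κ p v) ∂(finBasis ℝ E).addHaar) *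
            ENNReal.ofReal (√ (h p).det) := by gcongr
      _ ≤ ENNReal.ofReal X * om E := hint
  have h3 := vol_image_seg_le hm hE p (R := R) hκ (fun y hy => hric y (by linarith)) hsm
    (fun v hv => ⟨Wp.seg hm hE hR (hmem v hv).1, (hmem v hv).1.2.1⟩)
  rw [← hs, ← hX]
  refine h3.trans ?_
  calc ENNReal.ofReal (Real.exp (κ * R ^ 2 / 6)) *
        ((finBasis ℝ E).addHaar s * ENNReal.ofReal (√ (h p).det))
      ≤ ENNReal.ofReal (Real.exp (κ * R ^ 2 / 6)) *
        ((ENNReal.ofReal X * om E) / ENNReal.ofReal l) := by gcongr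
    _ = ENNReal.ofReal (Real.exp (κ * R ^ 2 / 6) * X / l) * om E := by
        rw [ENNReal.ofReal_div_of_pos hl, ENNReal.ofReal_mul (Real.exp_pos _).le,
          ENNReal.div_eq_inv_mul, ENNReal.div_eq_inv_mul]
        ring

end Pool.Agent.Lib.MP_df705a_gt.Pin.A
end
end

section

/-!
# Ricci pinching, part A, AS1: shortest geodesics
-/

open scoped Manifold ContDiff Topology
open Set Bundle Module Filter MeasureTheory

noncomputable section

set_option linter.unusedSectionVars false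

namespace Pool.Agent.Lib.MP_df705a_gt.Pin.A

variable {E : Type*} [NormedAddCommGroup E] [NormedSpace ℝ E] [FiniteDimensional ℝ E]
  {h : Curv.Coeff E}

variable {Ex : E → E → E}

/-- Interior points of a shortest geodesic are joined to `p` by no other shortest geodesic.
Proof: if `t = 0` then `nm h p v' = dh h p p = 0`; if `v = 0` it is similar. Let `t > 0`, `v ≠ 0`,
`b = Ex p (t v) = Ex p v'`, so `nm h p v' = dh h p b = t nm h p v > 0` (`Seg.smul`). Let `ε` be a
normal radius for all points of the closed ball `‖x - b‖ ≤ 1` (`IsExp.exists_nb`). For small `σ > 0`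
and `τ > 0` the points `a = Ex p ((1 - σ) v')` and `c = Ex p ((t + τ) v)` lie in this ball
(continuity), `σ nm h p v' < ε`, `τ nm h p v < ε`. By `Seg.dist` `dh h a b = σ nm h p v'`,
`dh h b c = τ nm h p v`, `dh h p a = (1 - σ) nm h p v'`, `dh h p c = (t + τ) nm h p v`, so
`dh h a c ≥ τ nm h p v + σ nm h p v'`, which is `dh h a b + dh h b c`. Apply `no_corner` with the
vector `u = σ • vel Ex p v' (1 - σ)` at `a`: `Ex a u = b`, `nm h a u = σ nm h p v'` (`IsExp.flow`,
`IsExp.speed`), hence `c = Ex a ((1 + τ nm h p v / (σ nm h p v')) • u) =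
Ex p ((1 + τ / t) • v')` (`IsExp.flow`, `nm h p v' = t nm h p v`). So the curves
`τ ↦ Ex p ((1 + τ / t) • v')` and `τ ↦ Ex p ((t + τ) • v)` agree for all small `τ ≥ 0`, and their
derivatives at `τ = 0` agree: `t⁻¹ • vel Ex p v' 1 = vel Ex p v t`. As
`vel Ex p (t • v) 1 = t • vel Ex p v t` (`vel_smul`), `IsExp.injective` gives `v' = t • v`. -/
theorem Seg.unique (hm : Curv.IsMetric h) (hE : IsExp h Ex) {p v v' : E} (hv : Seg h Ex p v)
    (hv' : Seg h Ex p v') {t : ℝ} (ht0 : 0 ≤ t) (ht1 : t < 1) (heq : Ex p v' = Ex p (t • v)) :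
    v' = t • v := by
  have hsmul : Seg h Ex p (t • v) := hv.smul hm hE ⟨ht0, ht1.le⟩
  have hnm : nm h p v' = nm h p (t • v) := by
    rw [← hv', heq]
    exact hsmul
  by_cases h0 : t • v = 0
  · rw [h0, nm_zero] at hnm
    rw [h0]
    by_contra hne
    exact (nm_pos hm p hne).ne' hnm
  have ht : 0 < t := lt_of_le_of_ne ht0 fun h => h0 (by rw [← h, zero_smul])
  have hv0 : v ≠ 0 := fun h => h0 (by rw [h, smul_zero])
  have hN : 0 < nm h p v := nm_pos hm p hv0
  have hN' : nm h p v' = t * nm h p v := by rw [hnm, nm_smul, abs_of_pos ht]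
  have hN'0 : 0 < nm h p v' := by
    rw [hN']
    positivity
  obtain ⟨ε, hε, hnb⟩ := hE.exists_nb hm (isCompact_closedBall (Ex p (t • v)) 1)
  -- the point `a`
  have hcont : Continuous (Ex p) := (hE.smooth_at p).continuous
  have hev1 : ∀ᶠ σ in 𝓝[>] (0 : ℝ), Ex p ((1 - σ) • v') ∈ Metric.closedBall (Ex p (t • v)) 1 := by
    have h2 : Tendsto (fun σ : ℝ => Ex p ((1 - σ) • v')) (𝓝 0) (𝓝 (Ex p ((1 - (0 : ℝ)) • v'))) :=
      (hcont.comp (by fun_prop : Continuous fun σ : ℝ => (1 - σ) • v')).tendsto 0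
    rw [sub_zero, one_smul, heq] at h2
    exact (h2.eventually (Metric.closedBall_mem_nhds _ one_pos)).filter_mono nhdsWithin_le_nhds
  have hev2 : ∀ᶠ σ in 𝓝[>] (0 : ℝ), σ * nm h p v' < ε ∧ σ < 1 := by
    have h1 : Tendsto (fun σ : ℝ => σ * nm h p v') (𝓝 0) (𝓝 (0 * nm h p v')) :=
      (by fun_prop : Continuous fun σ : ℝ => σ * nm h p v').tendsto 0
    rw [zero_mul] at h1
    have h2 : ∀ᶠ σ in 𝓝 (0 : ℝ), σ * nm h p v' < ε := h1.eventually (Iio_mem_nhds hε)
    exact (h2.and (Iio_mem_nhds one_pos)).filter_mono nhdsWithin_le_nhds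
  obtain ⟨σ, ⟨hσ1, hσ2, hσ3⟩, hσ0⟩ :=
    ((hev1.and hev2).and (self_mem_nhdsWithin : Ioi (0 : ℝ) ∈ 𝓝[>] (0 : ℝ))).exists
  replace hσ0 : 0 < σ := hσ0
  -- the points `c`
  have hev3 : ∀ᶠ τ in 𝓝[>] (0 : ℝ), Ex p ((t + τ) • v) ∈ Metric.closedBall (Ex p (t • v)) 1 := by
    have h2 : Tendsto (fun τ : ℝ => Ex p ((t + τ) • v)) (𝓝 0) (𝓝 (Ex p ((t + (0 : ℝ)) • v))) :=
      (hcont.comp (by fun_prop : Continuous fun τ : ℝ => (t + τ) • v)).tendsto 0
    rw [add_zero] at h2
    exact (h2.eventually (Metric.closedBall_mem_nhds _ one_pos)).filter_mono nhdsWithin_le_nhds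
  have hev4 : ∀ᶠ τ in 𝓝[>] (0 : ℝ), τ * nm h p v < ε ∧ t + τ < 1 := by
    have h1 : Tendsto (fun τ : ℝ => τ * nm h p v) (𝓝 0) (𝓝 (0 * nm h p v)) :=
      (by fun_prop : Continuous fun τ : ℝ => τ * nm h p v).tendsto 0
    rw [zero_mul] at h1
    have h2 : ∀ᶠ τ in 𝓝 (0 : ℝ), τ * nm h p v < ε := h1.eventually (Iio_mem_nhds hε)
    have h3 : Tendsto (fun τ : ℝ => t + τ) (𝓝 0) (𝓝 (t + 0)) :=
      (by fun_prop : Continuous fun τ : ℝ => t + τ).tendsto 0
    rw [add_zero] at h3
    have h4 : ∀ᶠ τ in 𝓝 (0 : ℝ), t + τ < 1 := h3.eventually (Iio_mem_nhds ht1)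
    exact (h2.and h4).filter_mono nhdsWithin_le_nhds
  have hmain : ∀ᶠ τ in 𝓝[>] (0 : ℝ), Ex p ((1 + τ / t) • v') = Ex p ((t + τ) • v) := by
    filter_upwards [hev3, hev4, self_mem_nhdsWithin] with τ h3 h4 h5
    obtain ⟨h6, h7⟩ := h4
    replace h5 : 0 < τ := h5
    obtain ⟨w, hw⟩ : ∃ w : E, w = vel Ex p v' (1 - σ) := ⟨_, rfl⟩
    have hau : Ex (Ex p ((1 - σ) • v')) (σ • w) = Ex p (t • v) := by
      rw [hw, hE.flow, sub_add_cancel, one_smul, heq]
    have hnmu : nm h (Ex p ((1 - σ) • v')) (σ • w) = σ * nm h p v' := by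
      rw [nm_smul, abs_of_pos hσ0, hw, hE.speed hm]
    have hu0 : σ • w ≠ 0 := by
      intro h8
      rw [h8, nm_zero] at hnmu
      have : 0 < σ * nm h p v' := by positivity
      linarith
    have hbc : dh h (Ex p (t • v)) (Ex p ((t + τ) • v)) = τ * nm h p v := by
      rw [hv.dist hm hE ht0 (by linarith) h7.le, add_sub_cancel_left]
    have hpc : dh h p (Ex p ((t + τ) • v)) = (t + τ) * nm h p v := by
      have h8 := hv.dist hm hE (le_refl 0) (by linarith : (0 : ℝ) ≤ t + τ) h7.le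
      rwa [zero_smul, hE.zero, sub_zero] at h8
    have hpa : dh h p (Ex p ((1 - σ) • v')) = (1 - σ) * nm h p v' := by
      have h8 := hv'.dist hm hE (le_refl 0) (by linarith : (0 : ℝ) ≤ 1 - σ) (by linarith)
      rwa [zero_smul, hE.zero, sub_zero] at h8
    have hab : dh h (Ex p ((1 - σ) • v')) (Ex p (t • v)) = σ * nm h p v' := by
      have h8 := hv'.dist hm hE (by linarith : (0 : ℝ) ≤ 1 - σ) (by linarith) (le_refl 1)
      rwa [one_smul, heq, sub_sub_cancel] at h8
    have hne : Ex p (t • v) ≠ Ex p ((t + τ) • v) := by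
      intro h8
      rw [← h8, dh_self hm] at hbc
      have : 0 < τ * nm h p v := by positivity
      linarith
    have hsum : dh h (Ex p ((1 - σ) • v')) (Ex p ((t + τ) • v)) =
        σ * nm h p v' + τ * nm h p v := by
      refine le_antisymm ?_ ?_
      · rw [← hab, ← hbc]
        exact dh_triangle hm _ _ _
      · have h8 := dh_triangle hm p (Ex p ((1 - σ) • v')) (Ex p ((t + τ) • v))
        rw [hpc, hpa] at h8
        rw [hN'] at h8 ⊢
        linarith
    have h9 := no_corner hm hE (a := Ex p ((1 - σ) • v')) (c := Ex p ((t + τ) • v)) (v := σ • w)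
      (hnb _ hσ1) (hnb _ h3) (by rw [hnmu]; exact hσ2) hu0 (by rw [hau, hbc]; exact h6)
      (by rw [hau]; exact hne) (by rw [hau, hnmu, hbc]; exact hsum)
    rw [hau, hnmu, hbc, smul_smul] at h9
    have h10 : (1 + τ * nm h p v / (σ * nm h p v')) * σ = σ + τ / t := by
      rw [hN']
      field_simp
    rw [h10, hw, hE.flow] at h9
    have h11 : 1 - σ + (σ + τ / t) = 1 + τ / t := by ring
    rw [h11] at h9
    exact h9
  -- comparison of the velocities
  have hd1 : HasDerivWithinAt (fun τ : ℝ => Ex p ((1 + τ / t) • v')) (t⁻¹ • vel Ex p v' 1)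
      (Ioi 0) 0 := by
    have h1 : HasDerivAt (fun τ : ℝ => 1 + τ / t) (t⁻¹) 0 := by
      have h2 := ((hasDerivAt_id (0 : ℝ)).div_const t).const_add 1
      rwa [one_div] at h2
    have h3 : HasDerivAt (fun s : ℝ => Ex p (s • v')) (vel Ex p v' 1) (1 + 0 / t) := by
      rw [zero_div, add_zero]
      exact hE.hasDerivAt p v' 1
    exact (h3.scomp 0 h1).hasDerivWithinAt
  have hd2 : HasDerivWithinAt (fun τ : ℝ => Ex p ((t + τ) • v)) (vel Ex p v t) (Ioi 0) 0 := by
    have h1 : HasDerivAt (fun τ : ℝ => t + τ) 1 0 := (hasDerivAt_id (0 : ℝ)).const_add t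
    have h3 : HasDerivAt (fun s : ℝ => Ex p (s • v)) (vel Ex p v t) (t + 0) := by
      rw [add_zero]
      exact hE.hasDerivAt p v t
    have h4 := (h3.scomp 0 h1).hasDerivWithinAt (s := Ioi 0)
    rwa [one_smul] at h4
  have hd3 : HasDerivWithinAt (fun τ : ℝ => Ex p ((1 + τ / t) • v')) (vel Ex p v t) (Ioi 0) 0 := by
    refine hd2.congr_of_eventuallyEq hmain ?_
    rw [zero_div, add_zero, add_zero, one_smul]
    exact heq
  have hvel : t⁻¹ • vel Ex p v' 1 = vel Ex p v t :=
    (uniqueDiffWithinAt_Ioi (0 : ℝ)).eq_deriv _ hd1 hd3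
  have hvel2 : vel Ex p v' 1 = vel Ex p (t • v) 1 := by
    rw [vel_smul, one_mul, ← hvel, smul_smul, mul_inv_cancel₀ ht.ne', one_smul]
  exact (hE.injective heq hvel2).2

/-- Proof: `Seg.smul` and `Seg.unique`. -/
theorem Seg.injOn (hm : Curv.IsMetric h) (hE : IsExp h Ex) (p : E) {t : ℝ} (ht0 : 0 ≤ t)
    (ht1 : t < 1) : InjOn (Ex p) {w | ∃ v, Seg h Ex p v ∧ w = t • v} := by
  rintro w ⟨v, hv, rfl⟩ w' ⟨v', hv', rfl⟩ heq
  exact (Seg.unique hm hE hv (hv'.smul hm hE ⟨ht0, ht1.le⟩) ht0 ht1 heq.symm).symm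

end Pool.Agent.Lib.MP_df705a_gt.Pin.A
end
end

section

/-!
# Ricci pinching, part A, AZ3b: the theorem of Bishop and Gromov
-/

open scoped Manifold ContDiff Topology
open Set Bundle Module Filter MeasureTheory

noncomputable section

set_option linter.unusedSectionVars false

namespace Pool.Agent.Lib.MP_df705a_gt.Pin.A

open Pool.Agent.Lib.MP_df705a_gt.Twist Pool.Agent.Lib.MP_df705a_gt.Perm
open Pool.Agent.Lib.MP_df705a_gt.Coll (trM ipM)
open Pool.Agent.Lib.MP_df705a_gt.Coll.T (ddC mat pull RM SmF)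

variable {E : Type*} [NormedAddCommGroup E] [NormedSpace ℝ E] [FiniteDimensional ℝ E]
  {h : Curv.Coeff E}

variable {Ex : E → E → E} [MeasurableSpace E] [BorelSpace E]

/-- Contraction of a set of end points of shortest geodesics. Proof: `vol_image_le` for `s`,
`Seg.dens_le` with `t`, `vol_image_eq` for `t s` (`Seg.injOn`), `lintegral_smul_image`. -/
theorem vol_contract (hm : Curv.IsMetric h) (hE : IsExp h Ex) (p : E)
    {κ R t : ℝ} (hκ : 0 ≤ κ) (ht : 0 < t) (ht1 : t < 1)
    (hric : ∀ y, dh h p y ≤ R → RicGeAt h κ y) {s : Set E}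
    (hs : MeasurableSet s) (hsR : ∀ v ∈ s, Seg h Ex p v ∧ nm h p v ≤ R) :
    vol h (Ex p '' s) ≤ ENNReal.ofReal (Real.exp (κ * R ^ 2 / 6) * (1 / t) ^ finrank ℝ E) *
      vol h (Ex p '' ((fun v => t • v) '' s)) := by
  have htI : t ∈ Icc (0 : ℝ) 1 := ⟨ht.le, ht1.le⟩
  have hst : MeasurableSet ((fun v : E => t • v) '' s) := by
    have h1 : MeasurableEmbedding fun v : E => t • v :=
      (Homeomorph.smulOfNeZero t ht.ne').measurableEmbedding
    exact h1.measurableSet_image.2 hs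
  have hinj : InjOn (Ex p) ((fun v : E => t • v) '' s) := by
    refine (Seg.injOn hm hE p ht.le ht1).mono ?_
    rintro _ ⟨v, hv, rfl⟩
    exact ⟨v, (hsR v hv).1, rfl⟩
  have hle : ∀ v ∈ s, dens h Ex p v ≤ Real.exp (κ * R ^ 2 / 6) * dens h Ex p (t • v) := by
    intro v hv
    have h1 := (hsR v hv).1.dens_le hm hE (t := t) hκ (fun u hu => hric _ (by
      have h2 := hE.dist_le_one hm p (u • v)
      rw [nm_smul, abs_of_nonneg hu.1] at h2
      have h3 : u * nm h p v ≤ 1 * nm h p v :=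
        mul_le_mul_of_nonneg_right hu.2 (nm_nonneg h p v)
      have h4 := (hsR v hv).2
      linarith)) htI
    refine h1.trans (mul_le_mul_of_nonneg_right ?_ (dens_nonneg h Ex p _))
    apply Real.exp_le_exp.2
    have h4 : nm h p v ^ 2 ≤ R ^ 2 := pow_le_pow_left₀ (nm_nonneg h p v) (hsR v hv).2 2
    have h5 : κ * nm h p v ^ 2 ≤ κ * R ^ 2 := mul_le_mul_of_nonneg_left h4 hκ
    linarith
  have hcst : ENNReal.ofReal ((1 / t) ^ finrank ℝ E) * ENNReal.ofReal (t ^ finrank ℝ E) = 1 := by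
    rw [← ENNReal.ofReal_mul (by positivity), ← mul_pow, one_div, inv_mul_cancel₀ ht.ne', one_pow,
      ENNReal.ofReal_one]
  calc vol h (Ex p '' s)
      ≤ ∫⁻ v in s, ENNReal.ofReal (dens h Ex p v) ∂(finBasis ℝ E).addHaar :=
        vol_image_le hm hE p hs
    _ ≤ ∫⁻ v in s, ENNReal.ofReal (Real.exp (κ * R ^ 2 / 6)) *
          ENNReal.ofReal (dens h Ex p (t • v)) ∂(finBasis ℝ E).addHaar := by
        apply setLIntegral_mono' hs
        intro v hv
        rw [← ENNReal.ofReal_mul (Real.exp_nonneg _)]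
        exact ENNReal.ofReal_le_ofReal (hle v hv)
    _ = ENNReal.ofReal (Real.exp (κ * R ^ 2 / 6)) *
          ∫⁻ v in s, ENNReal.ofReal (dens h Ex p (t • v)) ∂(finBasis ℝ E).addHaar :=
        lintegral_const_mul' _ _ ENNReal.ofReal_ne_top
    _ = ENNReal.ofReal (Real.exp (κ * R ^ 2 / 6) * (1 / t) ^ finrank ℝ E) *
          (ENNReal.ofReal (t ^ finrank ℝ E) *
            ∫⁻ v in s, ENNReal.ofReal (dens h Ex p (t • v)) ∂(finBasis ℝ E).addHaar) := by
        rw [ENNReal.ofReal_mul (Real.exp_nonneg _), mul_assoc, ← mul_assoc (ENNReal.ofReal _)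
          (ENNReal.ofReal (t ^ finrank ℝ E)), hcst, one_mul]
    _ = ENNReal.ofReal (Real.exp (κ * R ^ 2 / 6) * (1 / t) ^ finrank ℝ E) *
          vol h (Ex p '' ((fun v => t • v) '' s)) := by
        rw [← lintegral_smul_image ht hs (fun w => ENNReal.ofReal (dens h Ex p w)),
          vol_image_eq hm hE p hst hinj]

end Pool.Agent.Lib.MP_df705a_gt.Pin.A
end
end

section

/-!
# Ricci pinching, part A, AZ5b: pairs of points, the set of geodesics
-/

open scoped Manifold ContDiff Topology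
open Set Bundle Module Filter MeasureTheory

noncomputable section

set_option linter.unusedSectionVars false

namespace Pool.Agent.Lib.MP_df705a_gt.Pin.A

open Pool.Agent.Lib.MP_df705a_gt.Twist Pool.Agent.Lib.MP_df705a_gt.Perm
open Pool.Agent.Lib.MP_df705a_gt.Coll (trM ipM)
open Pool.Agent.Lib.MP_df705a_gt.Coll.T (ddC mat pull RM SmF)

variable {E : Type*} [NormedAddCommGroup E] [NormedSpace ℝ E] [FiniteDimensional ℝ E]
  {h : Curv.Coeff E}

variable {Ex : E → E → E} [MeasurableSpace E] [BorelSpace E]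

/-- Proof: apply `vol_contract` with `t = 1 / 4` to `s = {v | Seg v ∧ 2 R ≤ nm v ≤ 3 R}`: its image
contains `{y | 2 R ≤ dh h p y ≤ 3 R}` (`hopf_rinow`), and `s / 4 ⊆ Wp h Ex R p` (`Seg.smul`). -/
theorem vol_Wp_ge (hm : Curv.IsMetric h) (hP : Proper h) (hE : IsExp h Ex) {κ R : ℝ} (hR : 0 < R)
    (hκ : 0 ≤ κ) (p : E) (hric : ∀ y, dh h p y ≤ 3 * R → RicGeAt h κ y) :
    vol h {y | 2 * R ≤ dh h p y ∧ dh h p y ≤ 3 * R} ≤
      ENNReal.ofReal (Real.exp (κ * (3 * R) ^ 2 / 6) * 4 ^ finrank ℝ E) *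
        vol h (Ex p '' Wp h Ex R p) := by
  have hnmc : Continuous fun v : E => nm h p v :=
    (nm_continuous hm).comp (continuous_const.prodMk continuous_id)
  set s : Set E := {v | Seg h Ex p v ∧ 2 * R ≤ nm h p v ∧ nm h p v ≤ 3 * R} with hs
  have hsm : MeasurableSet s := (measurableSet_seg hm hE p).inter
    ((isClosed_le continuous_const hnmc).inter (isClosed_le hnmc continuous_const)).measurableSet
  have h1 := vol_contract hm hE p (R := 3 * R) (t := 1 / 4) hκ (by norm_num) (by norm_num) hric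
    hsm (fun v hv => ⟨hv.1, hv.2.2⟩)
  have h2 : {y | 2 * R ≤ dh h p y ∧ dh h p y ≤ 3 * R} ⊆ Ex p '' s := by
    rintro y ⟨hy1, hy2⟩
    obtain ⟨v, hv1, hv2⟩ := hopf_rinow hm hP hE p y
    refine ⟨v, ⟨?_, by rw [hv1]; exact hy1, by rw [hv1]; exact hy2⟩, hv2⟩
    unfold Seg
    rw [hv2, hv1]
  have h3 : (fun v : E => (1 / 4 : ℝ) • v) '' s ⊆ Wp h Ex R p := by
    rintro w ⟨v, ⟨hv1, hv2, hv3⟩, rfl⟩
    have hn : 0 < nm h p v := by linarith
    have h4 : nm h p ((1 / 4 : ℝ) • v) = nm h p v / 4 := by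
      rw [nm_smul, abs_of_pos (by norm_num)]
      ring
    refine ⟨?_, ?_, ?_⟩
    · simp only
      rw [h4]; linarith
    · simp only
      rw [h4]; linarith
    · simp only
      rw [h4, smul_smul]
      have h5 : 2 * R / (nm h p v / 4) * (1 / 4) = 2 * R / nm h p v := by field_simp
      rw [h5]
      apply hv1.smul hm hE
      refine ⟨by positivity, ?_⟩
      rw [div_le_one hn]
      exact hv2
  calc vol h {y | 2 * R ≤ dh h p y ∧ dh h p y ≤ 3 * R} ≤ vol h (Ex p '' s) := measure_mono h2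
    _ ≤ _ := h1
    _ ≤ ENNReal.ofReal (Real.exp (κ * (3 * R) ^ 2 / 6) * 4 ^ finrank ℝ E) *
        vol h (Ex p '' Wp h Ex R p) := by
        have h6 : (1 / (1 / 4 : ℝ)) = 4 := by norm_num
        rw [h6]
        gcongr

end Pool.Agent.Lib.MP_df705a_gt.Pin.A
end
end

section

/-!
# Ricci pinching, part A, AZ6: pairs of points, bad pairs
-/

open scoped Manifold ContDiff Topology
open Set Bundle Module Filter MeasureTheory

noncomputable section

set_option linter.unusedSectionVars false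

namespace Pool.Agent.Lib.MP_df705a_gt.Pin.A

open Pool.Agent.Lib.MP_df705a_gt.Twist Pool.Agent.Lib.MP_df705a_gt.Perm
open Pool.Agent.Lib.MP_df705a_gt.Coll (trM ipM)
open Pool.Agent.Lib.MP_df705a_gt.Coll.T (ddC mat pull RM SmF)

variable {E : Type*} [NormedAddCommGroup E] [NormedSpace ℝ E] [FiniteDimensional ℝ E]
  {h : Curv.Coeff E}

variable {Ex : E → E → E} [MeasurableSpace E] [BorelSpace E]

instance : SFinite (vol h : Measure E) := by
  unfold vol
  infer_instance

/-- The double integral. Let `K` be compact (a set of points `p`) and `Q` a set which contains all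
`Ex p v`, `p ∈ K`, `v ∈ Wp`. Then
`∫ over K of vol (Ex p '' Wp) ≤ b vol Q + g vol K` if the bad pairs have sections of volume at
most `b` in `p` and the good pairs have sections of volume at most `g` in `y`.
Proof: the sets `G = {(p, y) | p ∈ K, ∃ v ∈ Wp p, Ex p v = y}` and
`B = {(p, y) | p ∈ K, ∃ v ∈ Wp p, Ex p v = y, aa p v ≤ l}` are images of the compact sets of
`isCompact_pairs`, `isCompact_pairs_le` under the continuous map `(p, v) ↦ (p, Ex p v)`, hence
compact and measurable. `(vol.prod vol) G ≤ (vol.prod vol) B + (vol.prod vol) (G \ B)`;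
`Measure.prod_apply` for `G` and `G \ B` (the section of `G \ B` at `p ∈ K` is contained in
`Ex p '' {v ∈ Wp | l < aa}`, of `G` it is `Ex p '' Wp`), `Measure.prod_apply_symm` for `B` (the
section is contained in `{p | ∃ v ∈ Wp p, Ex p v = y ∧ aa p v ≤ l}` and empty for `y ∉ Q`). -/
theorem double_integral (hm : Curv.IsMetric h) (hE : IsExp h Ex) {κ R l : ℝ} (hR : 0 < R)
    {K Q : Set E} (hK : IsCompact K) (hQ : MeasurableSet Q)
    (hKQ : ∀ p ∈ K, ∀ v ∈ Wp h Ex R p, Ex p v ∈ Q) {a b g : ENNReal}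
    (ha : ∀ p ∈ K, a ≤ vol h (Ex p '' Wp h Ex R p))
    (hb : ∀ y ∈ Q, vol h {p | ∃ v ∈ Wp h Ex R p, Ex p v = y ∧ aa h Ex κ p v ≤ l} ≤ b)
    (hg : ∀ p ∈ K, vol h (Ex p '' {v | v ∈ Wp h Ex R p ∧ l < aa h Ex κ p v}) ≤ g) :
    a * vol h K ≤ b * vol h Q + g * vol h K := by
  have : ProperSpace E := FiniteDimensional.proper ℝ E
  obtain ⟨F, hF⟩ : ∃ F : E × E → E × E, F = fun q => (q.1, Ex q.1 q.2) := ⟨_, rfl⟩
  have hFc : Continuous F := by
    rw [hF]
    exact continuous_fst.prodMk hE.smooth.continuous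
  obtain ⟨G, hG⟩ : ∃ G : Set (E × E), G = F '' {q : E × E | q.1 ∈ K ∧ q.2 ∈ Wp h Ex R q.1} := ⟨_, rfl⟩
  obtain ⟨B, hB⟩ : ∃ B : Set (E × E),
      B = F '' {q : E × E | q.1 ∈ K ∧ q.2 ∈ Wp h Ex R q.1 ∧ aa h Ex κ q.1 q.2 ≤ l} := ⟨_, rfl⟩
  have hGm : MeasurableSet G := by
    rw [hG]
    exact ((isCompact_pairs hm hE hR hK).image hFc).measurableSet
  have hBm : MeasurableSet B := by
    rw [hB]
    exact ((isCompact_pairs_le hm hE hR hK κ l).image hFc).measurableSet
  have hKm : MeasurableSet K := hK.measurableSet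
  have memG : ∀ p y, (p, y) ∈ G ↔ p ∈ K ∧ ∃ v ∈ Wp h Ex R p, Ex p v = y := by
    intro p y
    rw [hG, hF]
    constructor
    · rintro ⟨⟨p', v⟩, ⟨h1, h2⟩, h3⟩
      simp only [Prod.mk.injEq] at h3
      obtain ⟨rfl, h4⟩ := h3
      exact ⟨h1, v, h2, h4⟩
    · rintro ⟨h1, v, h2, h3⟩
      exact ⟨(p, v), ⟨h1, h2⟩, by simp only [h3]⟩
  have memB : ∀ p y, (p, y) ∈ B ↔ p ∈ K ∧ ∃ v ∈ Wp h Ex R p, Ex p v = y ∧ aa h Ex κ p v ≤ l := by
    intro p y
    rw [hB, hF]
    constructor
    · rintro ⟨⟨p', v⟩, ⟨h1, h2, h5⟩, h3⟩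
      simp only [Prod.mk.injEq] at h3
      obtain ⟨rfl, h4⟩ := h3
      exact ⟨h1, v, h2, h4, h5⟩
    · rintro ⟨h1, v, h2, h3, h5⟩
      exact ⟨(p, v), ⟨h1, h2, h5⟩, by simp only [h3]⟩
  have e1 : a * vol h K ≤ ((vol h).prod (vol h)) G := by
    rw [Measure.prod_apply hGm, ← setLIntegral_const]
    calc ∫⁻ _ in K, a ∂(vol h) ≤ ∫⁻ p in K, vol h (Prod.mk p ⁻¹' G) ∂(vol h) := by
          refine setLIntegral_mono' hKm fun p hp => (ha p hp).trans (measure_mono ?_)
          rintro _ ⟨v, hv, rfl⟩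
          exact (memG p _).mpr ⟨hp, v, hv, rfl⟩
      _ ≤ _ := setLIntegral_le_lintegral _ _
  have e2 : ((vol h).prod (vol h)) (G \ B) ≤ g * vol h K := by
    rw [Measure.prod_apply (hGm.diff hBm), ← setLIntegral_const, ← lintegral_indicator hKm]
    refine lintegral_mono fun p => ?_
    by_cases hp : p ∈ K
    · rw [indicator_of_mem hp]
      refine (measure_mono ?_).trans (hg p hp)
      rintro y ⟨hy1, hy2⟩
      obtain ⟨_, v, hv, rfl⟩ := (memG p y).mp hy1
      refine ⟨v, ⟨hv, ?_⟩, rfl⟩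
      by_contra hcon
      exact hy2 ((memB p _).mpr ⟨hp, v, hv, rfl, not_lt.mp hcon⟩)
    · rw [indicator_of_notMem hp]
      have : Prod.mk p ⁻¹' (G \ B) = ∅ := by
        ext y
        simp only [mem_preimage, Set.mem_sdiff, mem_empty_iff_false, iff_false]
        rintro ⟨hy1, _⟩
        exact hp ((memG p y).mp hy1).1
      rw [this, measure_empty]
  have e3 : ((vol h).prod (vol h)) B ≤ b * vol h Q := by
    rw [Measure.prod_apply_symm hBm, ← setLIntegral_const, ← lintegral_indicator hQ]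
    refine lintegral_mono fun y => ?_
    by_cases hy : y ∈ Q
    · rw [indicator_of_mem hy]
      refine (measure_mono ?_).trans (hb y hy)
      intro p hp
      exact ((memB p y).mp hp).2
    · rw [indicator_of_notMem hy]
      have : (fun x => (x, y)) ⁻¹' B = ∅ := by
        ext p
        simp only [mem_preimage, mem_empty_iff_false, iff_false]
        intro hp
        obtain ⟨h1, v, hv, rfl, _⟩ := (memB p y).mp hp
        exact hy (hKQ p h1 v hv)
      rw [this, measure_empty]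
  calc a * vol h K ≤ ((vol h).prod (vol h)) G := e1
    _ ≤ ((vol h).prod (vol h)) (B ∪ G \ B) := measure_mono (by
        intro q hq
        by_cases hqB : q ∈ B
        · exact Or.inl hqB
        · exact Or.inr ⟨hq, hqB⟩)
    _ ≤ ((vol h).prod (vol h)) B + ((vol h).prod (vol h)) (G \ B) := measure_union_le _ _
    _ ≤ _ := add_le_add e3 e2

end Pool.Agent.Lib.MP_df705a_gt.Pin.A
end
end

section

/-!
# Ricci pinching, part A, AZ3: the theorem of Bishop and Gromov
-/

open scoped Manifold ContDiff Topology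
open Set Bundle Module Filter MeasureTheory

noncomputable section

set_option linter.unusedSectionVars false

namespace Pool.Agent.Lib.MP_df705a_gt.Pin.A

open Pool.Agent.Lib.MP_df705a_gt.Twist Pool.Agent.Lib.MP_df705a_gt.Perm
open Pool.Agent.Lib.MP_df705a_gt.Coll (trM ipM)
open Pool.Agent.Lib.MP_df705a_gt.Coll.T (ddC mat pull RM SmF)

variable {E : Type*} [NormedAddCommGroup E] [NormedSpace ℝ E] [FiniteDimensional ℝ E]
  {h : Curv.Coeff E}

variable {Ex : E → E → E} [MeasurableSpace E] [BorelSpace E]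

/-- The theorem of Bishop and Gromov. Proof: for `r = R` it is trivial; for `r < R` `vol_contract`
with `t = r / R` and `s = {v | Seg v ∧ nm v < R}`: `t s ⊆ {v | Seg v ∧ nm v < r}` (`Seg.smul`). -/
theorem bishop_gromov (hm : Curv.IsMetric h) (hP : Proper h) (hE : IsExp h Ex) (p : E)
    {κ r R : ℝ} (hκ : 0 ≤ κ) (hr : 0 < r) (hrR : r ≤ R)
    (hric : ∀ y, dh h p y ≤ R → RicGeAt h κ y) :
    vol h (ballh h p R) ≤ ENNReal.ofReal (Real.exp (κ * R ^ 2 / 6) * (R / r) ^ finrank ℝ E) *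
      vol h (ballh h p r) := by
  rcases eq_or_lt_of_le hrR with rfl | hlt
  · have h1 : (1 : ENNReal) ≤ ENNReal.ofReal (Real.exp (κ * r ^ 2 / 6) * (r / r) ^ finrank ℝ E) := by
      rw [div_self hr.ne', one_pow, mul_one, ← ENNReal.ofReal_one]
      apply ENNReal.ofReal_le_ofReal
      rw [← Real.exp_zero]
      exact Real.exp_le_exp.2 (by positivity)
    calc vol h (ballh h p r) = 1 * vol h (ballh h p r) := (one_mul _).symm
      _ ≤ _ := mul_le_mul' h1 le_rfl
  · have hR : 0 < R := hr.trans hlt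
    have ht : 0 < r / R := div_pos hr hR
    have ht1 : r / R < 1 := (div_lt_one hR).2 hlt
    have hc : Continuous fun v => nm h p v :=
      (nm_continuous hm).comp (Continuous.prodMk_right p)
    have hs : MeasurableSet {v | Seg h Ex p v ∧ nm h p v < R} :=
      (measurableSet_seg hm hE p).inter (isOpen_lt hc continuous_const).measurableSet
    have h1 := vol_contract hm hE p (t := r / R) hκ ht ht1 hric hs
      (fun v hv => ⟨hv.1, hv.2.le⟩)
    rw [← ballh_eq_image hm hP hE p R] at h1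
    refine h1.trans ?_
    rw [one_div_div]
    refine mul_le_mul' le_rfl (measure_mono ?_)
    rw [ballh_eq_image hm hP hE p r]
    apply image_mono
    rintro _ ⟨v, ⟨hv1, hv2⟩, rfl⟩
    refine ⟨hv1.smul hm hE ⟨ht.le, ht1.le⟩, ?_⟩
    rw [nm_smul, abs_of_pos ht, div_mul_eq_mul_div, div_lt_iff₀ hR]
    exact mul_lt_mul_of_pos_left hv2 hr

end Pool.Agent.Lib.MP_df705a_gt.Pin.A
end
end

section

/-!
# Ricci pinching, part A, AZ7a: the main estimate
-/

open scoped Manifold ContDiff Topology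
open Set Bundle Module Filter MeasureTheory

noncomputable section

set_option linter.unusedSectionVars false

namespace Pool.Agent.Lib.MP_df705a_gt.Pin.A

open Pool.Agent.Lib.MP_df705a_gt.Twist Pool.Agent.Lib.MP_df705a_gt.Perm
open Pool.Agent.Lib.MP_df705a_gt.Coll (trM ipM)
open Pool.Agent.Lib.MP_df705a_gt.Coll.T (ddC mat pull RM SmF)

variable {E : Type*} [NormedAddCommGroup E] [NormedSpace ℝ E] [FiniteDimensional ℝ E]
  {h : Curv.Coeff E}

variable {Ex : E → E → E} [MeasurableSpace E] [BorelSpace E]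

/-- Proof: let `q` be a point with `dh h p q = 5 ρ / 4` (`exists_dh_eq`). The ball of radius `ρ / 4`
about `q` is contained in the annulus, and the ball of radius `ρ` about `p₀` is contained in the ball
of radius `4 ρ` about `q` (`5/4 + 1 + 1 ≤ 4`). `bishop_gromov` at `q` with `r = ρ / 4`, `R = 4 ρ`:
`κ (4 ρ)² / 6 ≤ 3`, `R / r = 16`; the ball of radius `4 ρ` about `q` is contained in the closed ball
of radius `8 ρ` about `p₀`. -/
theorem vol_annulus_ge (hm : Curv.IsMetric h) (hP : Proper h) (hE : IsExp h Ex)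
    (hn : 2 ≤ finrank ℝ E) {κ ρ : ℝ} (hκ : 0 ≤ κ) (hρ : 0 < ρ) (hκρ : κ * ρ ^ 2 ≤ 1) {p₀ p : E}
    (hric : ∀ y, dh h p₀ y ≤ 8 * ρ → RicGeAt h κ y) (hp : dh h p₀ p ≤ ρ) :
    vol h (ballh h p₀ ρ) ≤ ENNReal.ofReal (Real.exp 3 * 16 ^ finrank ℝ E) *
      vol h {y | 2 * (ρ / 2) ≤ dh h p y ∧ dh h p y ≤ 3 * (ρ / 2)} := by
  have : Nontrivial E := Module.nontrivial_of_finrank_pos (R := ℝ) (by omega)
  obtain ⟨q, hq⟩ := exists_dh_eq hm hP p (s := 5 * ρ / 4) (by positivity)
  have h1 : ballh h p₀ ρ ⊆ ballh h q (4 * ρ) := by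
    intro y hy
    have hy' : dh h p₀ y < ρ := hy
    show dh h q y < 4 * ρ
    have a1 := dh_triangle hm q p y
    have a2 := dh_triangle hm p p₀ y
    rw [dh_comm hm q p] at a1
    rw [dh_comm hm p p₀] at a2
    linarith
  have h2 : ballh h q (ρ / 4) ⊆ {y | 2 * (ρ / 2) ≤ dh h p y ∧ dh h p y ≤ 3 * (ρ / 2)} := by
    intro y hy
    have hy' : dh h q y < ρ / 4 := hy
    have a1 := dh_triangle hm p q y
    have a2 := dh_triangle hm p y q
    rw [dh_comm hm y q] at a2
    constructor <;> linarith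
  have h3 := bishop_gromov hm hP hE q (κ := κ) (r := ρ / 4) (R := 4 * ρ) hκ (by positivity)
    (by linarith) (by
      intro y hy
      apply hric
      have a1 := dh_triangle hm p₀ p y
      have a2 := dh_triangle hm p q y
      linarith)
  have h4 : 4 * ρ / (ρ / 4) = 16 := by field_simp; norm_num
  rw [h4] at h3
  have h5 : Real.exp (κ * (4 * ρ) ^ 2 / 6) ≤ Real.exp 3 := by
    apply Real.exp_le_exp.2
    nlinarith
  calc vol h (ballh h p₀ ρ) ≤ vol h (ballh h q (4 * ρ)) := measure_mono h1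
    _ ≤ _ := h3
    _ ≤ _ := by
      apply mul_le_mul' _ (measure_mono h2)
      apply ENNReal.ofReal_le_ofReal
      exact mul_le_mul_of_nonneg_right h5 (by positivity)

end Pool.Agent.Lib.MP_df705a_gt.Pin.A
end
end
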