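import Pool.Agent.Lib.MP_df705a_gt.Mg.G061
import Pool.Agent.Lib.MP_df705a_gt.Mg.G059
import Pool.Agent.Lib.MP_df705a_gt.Pin.Defs
import Pool.Agent.Lib.MP_df705a_gt.Mg.G062

section

/-!
# Spectral Ricci pinching, S3A1: rules for the scalar product of differentials
-/

open scoped Manifold ContDiff Topology
open Set Bundle Module Filter MeasureTheory

noncomputable section

set_option linter.unusedSectionVars false

namespace Pool.Agent.Lib.MP_df705a_gt.Pin

open Pool.Agent.Lib.MP_df705a_gt.Twist Pool.Agent.Lib.MP_df705a_gt.Perm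
open Pool.Agent.Lib.MP_df705a_gt.Coll (trM ipM)
open Pool.Agent.Lib.MP_df705a_gt.Coll.T (ddC mat pull RM SmF)

variable {E : Type*} [NormedAddCommGroup E] [NormedSpace ℝ E] [FiniteDimensional ℝ E]
  {h : Curv.Coeff E} {u v w : E → ℝ} {x : E}

theorem rm_of (hh : Curv.IsMetric h) (x : E) : RM h x :=
  Eventually.of_forall fun z => ⟨fun i j => (hh.1 i j).contDiffAt, hh.2 z⟩

theorem smF_of (hu : ContDiff ℝ ∞ u) (x : E) : SmF u x :=
  Eventually.of_forall fun _ => hu.contDiffAt

/-- `Coll.T.smF_grad`. -/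
theorem contDiff_gradC (hh : Curv.IsMetric h) (hu : ContDiff ℝ ∞ u) (hv : ContDiff ℝ ∞ v) :
    ContDiff ℝ ∞ (gradC h u v) :=
  contDiff_iff_contDiffAt.2 fun x => (Coll.T.smF_grad (rm_of hh x) (smF_of hu x) (smF_of hv x)).self

/-- `Coll.T.smF_lap`. -/
theorem contDiff_lapC (hh : Curv.IsMetric h) (hu : ContDiff ℝ ∞ u) :
    ContDiff ℝ ∞ (lapC h u) :=
  contDiff_iff_contDiffAt.2 fun x => (Coll.T.smF_lap (rm_of hh x) (smF_of hu x)).self

/-- The inverse matrix is symmetric. -/
theorem gradC_comm' (hh : Curv.IsMetric h) (u v : E → ℝ) (x : E) :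
    gradC h u v x = gradC h v u x := by
  unfold gradC
  rw [Finset.sum_comm]
  refine Finset.sum_congr rfl fun i _ => Finset.sum_congr rfl fun j _ => ?_
  have h1 : (h x)⁻¹ j i = (h x)⁻¹ i j := by
    have := (hh.2 x).inv.isHermitian.apply i j
    simpa using this
  rw [h1]
  ring

theorem gradC_mul_left (hh : Curv.IsMetric h) (hu : DifferentiableAt ℝ u x)
    (hv : DifferentiableAt ℝ v x) (w : E → ℝ) :
    gradC h (fun y => u y * v y) w x = u x * gradC h v w x + v x * gradC h u w x := by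
  have _ := hh
  unfold gradC
  rw [Finset.mul_sum, Finset.mul_sum, ← Finset.sum_add_distrib]
  refine Finset.sum_congr rfl fun i _ => ?_
  rw [Finset.mul_sum, Finset.mul_sum, ← Finset.sum_add_distrib]
  refine Finset.sum_congr rfl fun j _ => ?_
  rw [G4.pd_mul hu hv]
  ring

theorem gradC_pow_left (hh : Curv.IsMetric h) (hu : DifferentiableAt ℝ u x) (k : ℕ) (w : E → ℝ) :
    gradC h (fun y => u y ^ k) w x = k * u x ^ (k - 1) * gradC h u w x := by
  have _ := hh
  unfold gradC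
  rw [Finset.mul_sum]
  refine Finset.sum_congr rfl fun i _ => ?_
  rw [Finset.mul_sum]
  refine Finset.sum_congr rfl fun j _ => ?_
  have h1 := G4.pd_comp (φ := fun t : ℝ => t ^ k) hu (by fun_prop) i
  have h2 : deriv (fun t : ℝ => t ^ k) (u x) = k * u x ^ (k - 1) := by simp
  rw [h2] at h1
  rw [h1]
  ring

theorem gradC_comp_left (hh : Curv.IsMetric h) {φ : ℝ → ℝ} (hu : DifferentiableAt ℝ u x)
    (hφ : DifferentiableAt ℝ φ (u x)) (w : E → ℝ) :
    gradC h (fun y => φ (u y)) w x = deriv φ (u x) * gradC h u w x := by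
  have _ := hh
  unfold gradC
  rw [Finset.mul_sum]
  refine Finset.sum_congr rfl fun i _ => ?_
  rw [Finset.mul_sum]
  refine Finset.sum_congr rfl fun j _ => ?_
  rw [G4.pd_comp hu hφ]
  ring

theorem gradC_add_left (hh : Curv.IsMetric h) (hu : DifferentiableAt ℝ u x)
    (hv : DifferentiableAt ℝ v x) (w : E → ℝ) :
    gradC h (fun y => u y + v y) w x = gradC h u w x + gradC h v w x := by
  have _ := hh
  unfold gradC
  rw [← Finset.sum_add_distrib]
  refine Finset.sum_congr rfl fun i _ => ?_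
  rw [← Finset.sum_add_distrib]
  refine Finset.sum_congr rfl fun j _ => ?_
  rw [G4.pd_add hu hv]
  ring

theorem gradC_sum_left (hh : Curv.IsMetric h) {ι : Type*} (s : Finset ι) {u : ι → E → ℝ}
    (hu : ∀ i ∈ s, DifferentiableAt ℝ (u i) x) (w : E → ℝ) :
    gradC h (fun y => ∑ i ∈ s, u i y) w x = ∑ i ∈ s, gradC h (u i) w x := by
  have _ := hh
  unfold gradC
  calc ∑ i, ∑ j, (h x)⁻¹ i j * (Curv.pd i (fun y => ∑ a ∈ s, u a y) x * Curv.pd j w x)
      = ∑ i, ∑ a ∈ s, ∑ j, (h x)⁻¹ i j * (Curv.pd i (u a) x * Curv.pd j w x) := by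
        refine Finset.sum_congr rfl fun i _ => ?_
        rw [Finset.sum_comm]
        refine Finset.sum_congr rfl fun j _ => ?_
        rw [Coll.T.pd_sum s hu, Finset.sum_mul, Finset.mul_sum]
    _ = _ := Finset.sum_comm

end Pool.Agent.Lib.MP_df705a_gt.Pin
end
end

section

/-!
# Spectral Ricci pinching, S3: definitions
-/

open scoped Manifold ContDiff Topology
open Set Bundle Module Filter MeasureTheory

noncomputable section

namespace Pool.Agent.Lib.MP_df705a_gt.Pin

open Pool.Agent.Lib.MP_df705a_gt.Twist Pool.Agent.Lib.MP_df705a_gt.Perm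
open Pool.Agent.Lib.MP_df705a_gt.Coll (trM ipM)
open Pool.Agent.Lib.MP_df705a_gt.Coll.T (ddC mat pull RM SmF)

variable {E : Type*} [NormedAddCommGroup E] [NormedSpace ℝ E] [FiniteDimensional ℝ E]
  {h : Curv.Coeff E} {f : Fin (finrank ℝ E) → E → ℝ}

/-- `∑ |d f i|²`. -/
def PP (h : Curv.Coeff E) (f : Fin (finrank ℝ E) → E → ℝ) (x : E) : ℝ :=
  ∑ i, gradC h (f i) (f i) x

/-- `∑ |Hess (f i)|²`. -/
def HH (h : Curv.Coeff E) (f : Fin (finrank ℝ E) → E → ℝ) (x : E) : ℝ :=
  ∑ i, ipM (h x) (Curv.covHess h (f i) x) (Curv.covHess h (f i) x)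

/-- `∑ Ric (d f i, d f i)`. -/
def RR (h : Curv.Coeff E) (f : Fin (finrank ℝ E) → E → ℝ) (x : E) : ℝ :=
  ∑ i, ipM (h x) (ric h x) (ddC (f i) (f i) x)

/-- The Gram matrix of the differentials `d f i`. -/
def Gm (h : Curv.Coeff E) (f : Fin (finrank ℝ E) → E → ℝ) (x : E) :
    Matrix (Fin (finrank ℝ E)) (Fin (finrank ℝ E)) ℝ := Matrix.of fun i j => gradC h (f i) (f j) x

/-- The determinant of the Gram matrix: the square of the Jacobian determinant. -/
def GG (h : Curv.Coeff E) (f : Fin (finrank ℝ E) → E → ℝ) (x : E) : ℝ := (Gm h f x).det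

/-- The assumptions of the local estimates; `ψ` is a cutoff function. -/
structure Loc (h : Curv.Coeff E) (f : Fin (finrank ℝ E) → E → ℝ) (ψ : E → ℝ) (K c : ℝ) :
    Prop where
  met : Curv.IsMetric h
  sm : ∀ i, ContDiff ℝ ∞ (f i)
  psm : ContDiff ℝ ∞ ψ
  cpt : HasCompactSupport ψ
  nonneg : ∀ x, 0 ≤ ψ x
  le_one : ∀ x, ψ x ≤ 1
  grad : ∀ x, gradC h ψ ψ x ≤ c ^ 2
  K0 : 0 ≤ K
  c0 : 0 ≤ c
  ric : ∀ x, ψ x ≠ 0 → RicGeAt h 1 x
  two : ∀ x, ψ x ≠ 0 → ∀ i, |f i x| ≤ 2
  lap : ∀ x, ψ x ≠ 0 → ∀ i, |lapC h (f i) x| ≤ K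

/-- `∫ ψ^(2 m) P^q`. -/
def aI [MeasurableSpace E] [BorelSpace E] (h : Curv.Coeff E) (f : Fin (finrank ℝ E) → E → ℝ)
    (ψ : E → ℝ) (m q : ℕ) : ℝ := ∫ x, ψ x ^ (2 * m) * PP h f x ^ q ∂(vol h)

/-- `∫ ψ^(2 m) P^q (H + R + P)`. -/
def bI [MeasurableSpace E] [BorelSpace E] (h : Curv.Coeff E) (f : Fin (finrank ℝ E) → E → ℝ)
    (ψ : E → ℝ) (m q : ℕ) : ℝ :=
  ∫ x, ψ x ^ (2 * m) * PP h f x ^ q * (HH h f x + (RR h f x + PP h f x)) ∂(vol h)

end Pool.Agent.Lib.MP_df705a_gt.Pin
end
end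

section

/-!
# Spectral Ricci pinching, S3A2: Cauchy-Schwarz and smoothness
-/

open scoped Manifold ContDiff Topology
open Set Bundle Module Filter MeasureTheory

noncomputable section

set_option linter.unusedSectionVars false

namespace Pool.Agent.Lib.MP_df705a_gt.Pin

open Pool.Agent.Lib.MP_df705a_gt.Twist Pool.Agent.Lib.MP_df705a_gt.Perm
open Pool.Agent.Lib.MP_df705a_gt.Coll (trM ipM)
open Pool.Agent.Lib.MP_df705a_gt.Coll.T (ddC mat pull RM SmF)

variable {E : Type*} [NormedAddCommGroup E] [NormedSpace ℝ E] [FiniteDimensional ℝ E]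
  {h : Curv.Coeff E} {u v w : E → ℝ} {x : E}

/-- Cauchy-Schwarz (the inverse matrix is positive definite). -/
theorem gradC_sq_le (hh : Curv.IsMetric h) (u v : E → ℝ) (x : E) :
    gradC h u v x ^ 2 ≤ gradC h u u x * gradC h v v x := by
  have key : ∀ t : ℝ, 0 ≤ gradC h v v x * (t * t) + 2 * gradC h u v x * t + gradC h u u x := by
    intro t
    have h1 := G4.quad_nonneg (hh.2 x) fun i => t * Curv.pd i v x + Curv.pd i u x
    have h2 : ∑ i, ∑ j, (h x)⁻¹ i j * ((t * Curv.pd i v x + Curv.pd i u x) *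
        (t * Curv.pd j v x + Curv.pd j u x)) =
        gradC h v v x * (t * t) + (gradC h u v x + gradC h v u x) * t + gradC h u u x := by
      unfold gradC
      rw [← Finset.sum_add_distrib, Finset.sum_mul, Finset.sum_mul, ← Finset.sum_add_distrib,
        ← Finset.sum_add_distrib]
      refine Finset.sum_congr rfl fun i _ => ?_
      rw [← Finset.sum_add_distrib, Finset.sum_mul, Finset.sum_mul, ← Finset.sum_add_distrib,
        ← Finset.sum_add_distrib]
      refine Finset.sum_congr rfl fun j _ => ?_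
      ring
    rw [h2, gradC_comm' hh v u x, ← two_mul] at h1
    exact h1
  have h3 := discrim_le_zero key
  unfold discrim at h3
  nlinarith

theorem abs_gradC_le (hh : Curv.IsMetric h) (u v : E → ℝ) (x : E) :
    |gradC h u v x| ≤ √ (gradC h u u x) * √ (gradC h v v x) := by
  rw [← Real.sqrt_mul (G4.gradC_nonneg (hh.2 x))]
  exact Real.abs_le_sqrt (gradC_sq_le hh u v x)

/-- `Coll.T.bochnerC` etc. are applied to sums: `PP` is smooth and nonnegative. -/
theorem contDiff_PP (hh : Curv.IsMetric h) {f : Fin (finrank ℝ E) → E → ℝ}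
    (hf : ∀ i, ContDiff ℝ ∞ (f i)) : ContDiff ℝ ∞ (PP h f) := by
  have h1 : ContDiff ℝ ∞ fun x => ∑ i, gradC h (f i) (f i) x :=
    ContDiff.sum fun i _ => contDiff_gradC hh (hf i) (hf i)
  exact h1

theorem PP_nonneg (hh : Curv.IsMetric h) (f : Fin (finrank ℝ E) → E → ℝ) (x : E) :
    0 ≤ PP h f x := by
  unfold PP
  exact Finset.sum_nonneg fun i _ => G4.gradC_nonneg (hh.2 x)

/-- The determinant is a polynomial in the entries. -/
theorem contDiff_GG (hh : Curv.IsMetric h) {f : Fin (finrank ℝ E) → E → ℝ}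
    (hf : ∀ i, ContDiff ℝ ∞ (f i)) : ContDiff ℝ ∞ (GG h f) := by
  have h1 : ContDiff ℝ ∞ fun x => ∑ σ : Equiv.Perm (Fin (finrank ℝ E)),
      ((Equiv.Perm.sign σ : ℤ) : ℝ) * ∏ i, gradC h (f (σ i)) (f i) x :=
    ContDiff.sum fun σ _ => contDiff_const.mul
      (contDiff_prod fun i _ => contDiff_gradC hh (hf _) (hf i))
  have h2 : GG h f = fun x => ∑ σ : Equiv.Perm (Fin (finrank ℝ E)),
      ((Equiv.Perm.sign σ : ℤ) : ℝ) * ∏ i, gradC h (f (σ i)) (f i) x := by
    funext x
    unfold GG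
    rw [Matrix.det_apply']
    rfl
  rw [h2]
  exact h1

end Pool.Agent.Lib.MP_df705a_gt.Pin
end
end

section

/-!
# Spectral Ricci pinching, S3C1: scalar products of matrices
-/

open scoped Manifold ContDiff Topology
open Set Bundle Module Filter MeasureTheory

noncomputable section

set_option linter.unusedSectionVars false

namespace Pool.Agent.Lib.MP_df705a_gt.Pin

open Pool.Agent.Lib.MP_df705a_gt.Twist Pool.Agent.Lib.MP_df705a_gt.Perm
open Pool.Agent.Lib.MP_df705a_gt.Coll (trM ipM)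
open Pool.Agent.Lib.MP_df705a_gt.Coll.T (ddC mat pull RM SmF)

variable {E : Type*} [NormedAddCommGroup E] [NormedSpace ℝ E] [FiniteDimensional ℝ E]
  {h : Curv.Coeff E}

open scoped MatrixOrder in
private theorem S3C1_factor {n : ℕ} {H : Matrix (Fin n) (Fin n) ℝ} (hH : H.PosDef) :
    ∃ B : Matrix (Fin n) (Fin n) ℝ, H = B.transpose * B := by
  obtain ⟨B, hB⟩ := CStarAlgebra.nonneg_iff_eq_star_mul_self.mp hH.posSemidef.nonneg
  refine ⟨B, ?_⟩
  rw [hB, Matrix.star_eq_conjTranspose]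
  congr 1

private theorem S3C1_eq {n : ℕ} (H S T : Matrix (Fin n) (Fin n) ℝ) :
    ipM H S T = (H⁻¹ * (T * ((H⁻¹).transpose * S.transpose))).trace := by
  simp only [ipM, Matrix.trace, Matrix.diag_apply, Matrix.mul_apply, Matrix.transpose_apply,
    Finset.mul_sum]
  refine Finset.sum_congr rfl fun i _ => ?_
  rw [Finset.sum_comm]
  refine Finset.sum_congr rfl fun a _ => ?_
  rw [Finset.sum_comm]
  refine Finset.sum_congr rfl fun b _ => Finset.sum_congr rfl fun j _ => ?_
  ring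

private theorem S3C1_sum {n : ℕ} (X Y : Matrix (Fin n) (Fin n) ℝ) :
    ∑ i, ∑ j, X i j * Y i j = (Y * X.transpose).trace := by
  simp only [Matrix.trace, Matrix.diag_apply, Matrix.mul_apply, Matrix.transpose_apply]
  exact Finset.sum_congr rfl fun i _ => Finset.sum_congr rfl fun j _ => mul_comm _ _

/-- Factorisation of a positive definite matrix (for the inequalities below): `A⁻¹ = S Sᵀ`. Proof:
`A⁻¹` is positive definite, so `A⁻¹ = Bᴴ B` for some `B` (`Matrix.posSemidef_iff_eq_conjTranspose_mul_self`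
or the square root). -/
theorem exists_factor {n : ℕ} {A : Matrix (Fin n) (Fin n) ℝ} (hA : A.PosDef) :
    ∃ S : Matrix (Fin n) (Fin n) ℝ, A⁻¹ = S * S.transpose := by
  obtain ⟨B, hB⟩ := S3C1_factor hA.inv
  exact ⟨B.transpose, by rw [Matrix.transpose_transpose]; exact hB⟩

/-- `ipM A T U = ∑ (Sᵀ T S) i j * (Sᵀ U S) i j`. -/
theorem ipM_factor {n : ℕ} {A S : Matrix (Fin n) (Fin n) ℝ} (hS : A⁻¹ = S * S.transpose)
    (T U : Matrix (Fin n) (Fin n) ℝ) :
    ipM A T U = ∑ i, ∑ j, (S.transpose * T * S) i j * (S.transpose * U * S) i j := by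
  rw [S3C1_sum, S3C1_eq, hS]
  simp only [Matrix.transpose_mul, Matrix.transpose_transpose]
  rw [Matrix.mul_assoc S, Matrix.trace_mul_comm S]
  simp only [Matrix.mul_assoc]

theorem ipM_self_nonneg {n : ℕ} {A : Matrix (Fin n) (Fin n) ℝ} (hA : A.PosDef)
    (T : Matrix (Fin n) (Fin n) ℝ) : 0 ≤ ipM A T T := by
  obtain ⟨S, hS⟩ := exists_factor hA
  rw [ipM_factor hS]
  exact Finset.sum_nonneg fun i _ => Finset.sum_nonneg fun j _ => mul_self_nonneg _

/-- Cauchy-Schwarz for `ipM`. -/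
theorem ipM_sq_le {n : ℕ} {A : Matrix (Fin n) (Fin n) ℝ} (hA : A.PosDef)
    (T U : Matrix (Fin n) (Fin n) ℝ) : ipM A T U ^ 2 ≤ ipM A T T * ipM A U U := by
  obtain ⟨S, hS⟩ := exists_factor hA
  rw [ipM_factor hS, ipM_factor hS, ipM_factor hS]
  have h1 := Finset.sum_mul_sq_le_sq_mul_sq (Finset.univ : Finset (Fin n × Fin n))
    (fun q => (S.transpose * T * S) q.1 q.2) (fun q => (S.transpose * U * S) q.1 q.2)
  simp only [Fintype.sum_prod_type] at h1
  refine h1.trans (le_of_eq ?_)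
  simp only [pow_two]

end Pool.Agent.Lib.MP_df705a_gt.Pin
end
end

section

/-!
# Spectral Ricci pinching, S3C2: scalar products of symmetric products
-/

open scoped Manifold ContDiff Topology
open Set Bundle Module Filter MeasureTheory

noncomputable section

set_option linter.unusedSectionVars false

namespace Pool.Agent.Lib.MP_df705a_gt.Pin

open Pool.Agent.Lib.MP_df705a_gt.Twist Pool.Agent.Lib.MP_df705a_gt.Perm
open Pool.Agent.Lib.MP_df705a_gt.Coll (trM ipM)
open Pool.Agent.Lib.MP_df705a_gt.Coll.T (ddC mat pull RM SmF)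

variable {E : Type*} [NormedAddCommGroup E] [NormedSpace ℝ E] [FiniteDimensional ℝ E]
  {h : Curv.Coeff E} {f : Fin (finrank ℝ E) → E → ℝ} {x : E}

private theorem S3C2_key {n : ℕ} (A : Matrix (Fin n) (Fin n) ℝ) (α β γ δ : Fin n → ℝ) :
    ∑ i, ∑ j, ∑ a, ∑ b, A i a * A j b * ((α i * β j) * (γ a * δ b)) =
      (∑ i, ∑ a, A i a * (α i * γ a)) * ∑ j, ∑ b, A j b * (β j * δ b) := by
  rw [Finset.sum_mul_sum]
  refine Finset.sum_congr rfl fun i _ => Finset.sum_congr rfl fun j _ => ?_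
  rw [Finset.sum_mul_sum]
  refine Finset.sum_congr rfl fun a _ => Finset.sum_congr rfl fun b _ => ?_
  ring

private theorem S3C2_symm (hh : Curv.IsMetric h) (x : E) (i j : Fin (finrank ℝ E)) :
    (h x)⁻¹ i j = (h x)⁻¹ j i := by
  have h1 : ((h x)⁻¹).IsHermitian := (hh.2 x).inv.isHermitian
  have h2 := h1.apply i j
  rw [star_trivial] at h2
  exact h2.symm

private theorem S3C2_ddC (u : E → ℝ) (x : E) (i j : Fin (finrank ℝ E)) :
    ddC u u x i j = Curv.pd i u x * Curv.pd j u x := by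
  unfold ddC
  ring

/-- `|du dv|² = (|du|² |dv|² + ⟨du, dv⟩²) / 2`, an algebraic identity: expand the definitions; the inverse
matrix is symmetric. -/
theorem ipM_ddC_self (hh : Curv.IsMetric h) (u v : E → ℝ) (x : E) :
    ipM (h x) (ddC u v x) (ddC u v x) =
      (gradC h u u x * gradC h v v x + gradC h u v x ^ 2) / 2 := by
  obtain ⟨A, hA⟩ : ∃ A, A = (h x)⁻¹ := ⟨_, rfl⟩
  obtain ⟨p, hp⟩ : ∃ p : Fin (finrank ℝ E) → ℝ, p = fun i => Curv.pd i u x := ⟨_, rfl⟩
  obtain ⟨q, hq⟩ : ∃ q : Fin (finrank ℝ E) → ℝ, q = fun i => Curv.pd i v x := ⟨_, rfl⟩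
  have hc : gradC h v u x = gradC h u v x := gradC_comm' hh v u x
  have e1 : gradC h u u x = ∑ i, ∑ a, A i a * (p i * p a) := by rw [hA, hp]; rfl
  have e2 : gradC h v v x = ∑ i, ∑ a, A i a * (q i * q a) := by rw [hA, hq]; rfl
  have e3 : gradC h u v x = ∑ i, ∑ a, A i a * (p i * q a) := by rw [hA, hp, hq]; rfl
  have e4 : gradC h v u x = ∑ i, ∑ a, A i a * (q i * p a) := by rw [hA, hp, hq]; rfl
  have e5 : ipM (h x) (ddC u v x) (ddC u v x) =
      (1 / 4) * ((∑ i, ∑ j, ∑ a, ∑ b, A i a * A j b * ((p i * q j) * (p a * q b))) +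
        (∑ i, ∑ j, ∑ a, ∑ b, A i a * A j b * ((p i * q j) * (q a * p b))) +
        (∑ i, ∑ j, ∑ a, ∑ b, A i a * A j b * ((q i * p j) * (p a * q b))) +
        ∑ i, ∑ j, ∑ a, ∑ b, A i a * A j b * ((q i * p j) * (q a * p b))) := by
    simp only [Finset.mul_sum, ← Finset.sum_add_distrib]
    unfold ipM ddC
    rw [hA, hp, hq]
    refine Finset.sum_congr rfl fun i _ => Finset.sum_congr rfl fun j _ =>
      Finset.sum_congr rfl fun a _ => Finset.sum_congr rfl fun b _ => ?_
    ring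
  rw [e5, S3C2_key, S3C2_key, S3C2_key, S3C2_key, ← e1, ← e2, ← e3, ← e4, hc]
  ring

/-- `ipM_ddC_self` and `gradC_sq_le`. -/
theorem ipM_ddC_self_le (hh : Curv.IsMetric h) (u v : E → ℝ) (x : E) :
    ipM (h x) (ddC u v x) (ddC u v x) ≤ gradC h u u x * gradC h v v x := by
  rw [ipM_ddC_self hh]
  linarith [gradC_sq_le hh u v x]

theorem HH_nonneg (hh : Curv.IsMetric h) (f : Fin (finrank ℝ E) → E → ℝ) (x : E) :
    0 ≤ HH h f x :=
  Finset.sum_nonneg fun _ _ => ipM_self_nonneg (hh.2 x) _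

/-- `ipM (h x) (h x) (ddC u u x) = gradC h u u x`. -/
theorem ipM_self_ddC (hh : Curv.IsMetric h) (u : E → ℝ) (x : E) :
    ipM (h x) (h x) (ddC u u x) = gradC h u u x := by
  have h1 : ∀ a j, ∑ i, (h x)⁻¹ i a * h x i j = if a = j then 1 else 0 := by
    intro a j
    have h2 : ((h x)⁻¹ * h x) a j = if a = j then 1 else 0 := by
      rw [Matrix.nonsing_inv_mul _ ((Matrix.isUnit_iff_isUnit_det _).1 (hh.2 x).isUnit),
        Matrix.one_apply]
    rw [← h2, Matrix.mul_apply]
    exact Finset.sum_congr rfl fun i _ => by rw [S3C2_symm hh x i a]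
  have h3 : ipM (h x) (h x) (ddC u u x) =
      ∑ j, ∑ a, ∑ b, (∑ i, (h x)⁻¹ i a * h x i j) * ((h x)⁻¹ j b * (Curv.pd a u x *
        Curv.pd b u x)) := by
    unfold ipM
    rw [Finset.sum_comm]
    refine Finset.sum_congr rfl fun j _ => ?_
    rw [Finset.sum_comm]
    refine Finset.sum_congr rfl fun a _ => ?_
    rw [Finset.sum_comm]
    refine Finset.sum_congr rfl fun b _ => ?_
    rw [Finset.sum_mul]
    refine Finset.sum_congr rfl fun i _ => ?_
    rw [S3C2_ddC]
    ring
  rw [h3]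
  unfold gradC
  refine Finset.sum_congr rfl fun j _ => ?_
  simp only [h1]
  rw [Finset.sum_eq_single j]
  · refine Finset.sum_congr rfl fun b _ => ?_
    rw [if_pos rfl, one_mul]
  · intro a _ ha
    refine Finset.sum_eq_zero fun b _ => ?_
    rw [if_neg ha, zero_mul]
  · intro hj
    exact absurd (Finset.mem_univ j) hj

/-- `ipM (h x) A (ddC u u x) = ∑ a b, A a b ∇^a u ∇^b u` for the gradient `∇^a u = ∑ h^{ac} ∂_c u`; so
`ipM (h x) (ric h x + h x) (ddC u u x) ≥ 0` when `Ric + h` is positive semidefinite. -/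
theorem ipM_posSemidef_nonneg (hh : Curv.IsMetric h) {A : Matrix (Fin (finrank ℝ E)) (Fin (finrank ℝ E)) ℝ}
    (hA : A.PosSemidef) (u : E → ℝ) (x : E) : 0 ≤ ipM (h x) A (ddC u u x) := by
  obtain ⟨g, hg⟩ : ∃ g : Fin (finrank ℝ E) → ℝ, g = fun i => ∑ a, (h x)⁻¹ i a * Curv.pd a u x :=
    ⟨_, rfl⟩
  have h1 : ipM (h x) A (ddC u u x) = star g ⬝ᵥ (A.mulVec g) := by
    rw [star_trivial]
    unfold ipM dotProduct Matrix.mulVec dotProduct
    refine Finset.sum_congr rfl fun i _ => ?_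
    rw [Finset.mul_sum]
    refine Finset.sum_congr rfl fun j _ => ?_
    have h2 : g i * (A i j * g j) = A i j * (g i * g j) := by ring
    rw [h2, hg]
    simp only
    rw [Finset.sum_mul_sum, Finset.mul_sum]
    refine Finset.sum_congr rfl fun a _ => ?_
    rw [Finset.mul_sum]
    refine Finset.sum_congr rfl fun b _ => ?_
    rw [S3C2_ddC]
    ring
  rw [h1]
  exact hA.dotProduct_mulVec_nonneg g

end Pool.Agent.Lib.MP_df705a_gt.Pin
end
end

section

/-!
# Spectral Ricci pinching, S3A3: continuity of the curvature and of the Hessian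
-/

open scoped Manifold ContDiff Topology
open Set Bundle Module Filter MeasureTheory

noncomputable section

set_option linter.unusedSectionVars false

namespace Pool.Agent.Lib.MP_df705a_gt.Pin

open Pool.Agent.Lib.MP_df705a_gt.Twist Pool.Agent.Lib.MP_df705a_gt.Perm
open Pool.Agent.Lib.MP_df705a_gt.Coll (trM ipM)
open Pool.Agent.Lib.MP_df705a_gt.Coll.T (ddC mat pull RM SmF)

variable {E : Type*} [NormedAddCommGroup E] [NormedSpace ℝ E] [FiniteDimensional ℝ E]
  {h : Curv.Coeff E} {u v w : E → ℝ} {x : E}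

namespace S3A3Aux

theorem cd_pd (hu : ContDiff ℝ ∞ u) (i : Fin (finrank ℝ E)) : ContDiff ℝ ∞ (Curv.pd i u) :=
  contDiff_iff_contDiffAt.2 fun _ => Perm.G4.pd_contDiffAt hu.contDiffAt i

theorem cd_inv (hh : Curv.IsMetric h) (i j : Fin (finrank ℝ E)) :
    ContDiff ℝ ∞ fun x => (h x)⁻¹ i j :=
  contDiff_iff_contDiffAt.2 fun x =>
    contDiffAt_inv (fun i j => (hh.1 i j).contDiffAt) (hh.2 x).det_pos.ne' i j

theorem cd_chr (hh : Curv.IsMetric h) (i j k : Fin (finrank ℝ E)) :
    ContDiff ℝ ∞ (Curv.christoffel h i j k) :=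
  (((cd_pd (hh.1 j k) i).add (cd_pd (hh.1 i k) j)).sub (cd_pd (hh.1 i j) k)).div_const 2

theorem cd_hess (hh : Curv.IsMetric h) (hu : ContDiff ℝ ∞ u) (i j : Fin (finrank ℝ E)) :
    ContDiff ℝ ∞ fun x => Curv.covHess h u x i j :=
  (cd_pd (cd_pd hu j) i).sub (ContDiff.sum fun p _ => ContDiff.sum fun q _ =>
    ((cd_inv hh p q).mul (cd_chr hh i j p)).mul (cd_pd hu q))

theorem cd_riem (hh : Curv.IsMetric h) (i j k l : Fin (finrank ℝ E)) :
    ContDiff ℝ ∞ (Curv.riemann h i j k l) :=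
  ((cd_pd (cd_chr hh j k l) i).sub (cd_pd (cd_chr hh i k l) j)).add
    (ContDiff.sum fun p _ => ContDiff.sum fun q _ => (cd_inv hh p q).mul
      (((cd_chr hh i k p).mul (cd_chr hh j l q)).sub ((cd_chr hh j k p).mul (cd_chr hh i l q))))

theorem cd_ric (hh : Curv.IsMetric h) (j k : Fin (finrank ℝ E)) :
    ContDiff ℝ ∞ fun x => ric h x j k :=
  ContDiff.sum fun i _ => ContDiff.sum fun l _ => (cd_inv hh i l).mul (cd_riem hh i j k l)

theorem cd_ddC (hu : ContDiff ℝ ∞ u) (hv : ContDiff ℝ ∞ v) (i j : Fin (finrank ℝ E)) :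
    ContDiff ℝ ∞ fun x => ddC u v x i j :=
  (((cd_pd hu i).mul (cd_pd hv j)).add ((cd_pd hu j).mul (cd_pd hv i))).div_const 2

theorem cd_ipM (hh : Curv.IsMetric h) {S T : E → Matrix (Fin (finrank ℝ E)) (Fin (finrank ℝ E)) ℝ}
    (hS : ∀ i j, ContDiff ℝ ∞ fun x => S x i j) (hT : ∀ i j, ContDiff ℝ ∞ fun x => T x i j) :
    ContDiff ℝ ∞ fun x => ipM (h x) (S x) (T x) :=
  ContDiff.sum fun i _ => ContDiff.sum fun j _ => ContDiff.sum fun a _ => ContDiff.sum fun b _ =>
    ((cd_inv hh i a).mul (cd_inv hh j b)).mul ((hS i j).mul (hT a b))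

end S3A3Aux

open S3A3Aux in
/-- The entries of the inverse matrix are smooth (`contDiffAt_ringInverse`, or the entries of the
adjugate divided by the determinant; see `Coll.T`, proof of `smF_grad`), the entries of
`Curv.covHess h (f i)` are continuous (combinations of the first and second derivatives, the
Christoffel symbols and the entries of the inverse). -/
theorem continuous_HH (hh : Curv.IsMetric h) {f : Fin (finrank ℝ E) → E → ℝ}
    (hf : ∀ i, ContDiff ℝ ∞ (f i)) : Continuous (HH h f) := by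
  have h1 : ContDiff ℝ ∞ (HH h f) := ContDiff.sum fun i _ =>
    cd_ipM hh (fun a b => cd_hess hh (hf i) a b) (fun a b => cd_hess hh (hf i) a b)
  exact h1.continuous

open S3A3Aux in
/-- `Curv.riemann` is continuous: second derivatives of `h`. -/
theorem continuous_ric (hh : Curv.IsMetric h) (i j : Fin (finrank ℝ E)) :
    Continuous fun x => ric h x i j :=
  (cd_ric hh i j).continuous

open S3A3Aux in
theorem continuous_RR (hh : Curv.IsMetric h) {f : Fin (finrank ℝ E) → E → ℝ}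
    (hf : ∀ i, ContDiff ℝ ∞ (f i)) : Continuous (RR h f) := by
  have h1 : ContDiff ℝ ∞ (RR h f) := ContDiff.sum fun i _ =>
    cd_ipM hh (fun a b => cd_ric hh a b) (fun a b => cd_ddC (hf i) (hf i) a b)
  exact h1.continuous

open S3A3Aux in
theorem continuous_scal (hh : Curv.IsMetric h) : Continuous (Curv.scal h) := by
  have h1 : ContDiff ℝ ∞ (Curv.scal h) := ContDiff.sum fun i _ => ContDiff.sum fun j _ =>
    ContDiff.sum fun k _ => ContDiff.sum fun l _ =>
      ((cd_inv hh i l).mul (cd_inv hh j k)).mul (cd_riem hh i j k l)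
  exact h1.continuous

end Pool.Agent.Lib.MP_df705a_gt.Pin
end
end

section

/-!
# Spectral Ricci pinching, S3D1: the Gram matrix
-/

open scoped Manifold ContDiff Topology
open Set Bundle Module Filter MeasureTheory

noncomputable section

set_option linter.unusedSectionVars false

namespace Pool.Agent.Lib.MP_df705a_gt.Pin

open Pool.Agent.Lib.MP_df705a_gt.Twist Pool.Agent.Lib.MP_df705a_gt.Perm
open Pool.Agent.Lib.MP_df705a_gt.Coll (trM ipM)
open Pool.Agent.Lib.MP_df705a_gt.Coll.T (ddC mat pull RM SmF)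

variable {E : Type*} [NormedAddCommGroup E] [NormedSpace ℝ E] [FiniteDimensional ℝ E]
  {h : Curv.Coeff E} {f : Fin (finrank ℝ E) → E → ℝ} {x : E}

/-- The matrix of the first derivatives. -/
def Fm (f : Fin (finrank ℝ E) → E → ℝ) (x : E) :
    Matrix (Fin (finrank ℝ E)) (Fin (finrank ℝ E)) ℝ := Matrix.of fun i a => Curv.pd a (f i) x

theorem Gm_eq (h : Curv.Coeff E) (f : Fin (finrank ℝ E) → E → ℝ) (x : E) :
    Gm h f x = Fm f x * (h x)⁻¹ * (Fm f x).transpose := by
  ext i j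
  rw [Matrix.mul_apply]
  simp only [Matrix.mul_apply, Matrix.transpose_apply]
  change gradC h (f i) (f j) x = ∑ b, (∑ a, Curv.pd a (f i) x * (h x)⁻¹ a b) * Curv.pd b (f j) x
  unfold gradC
  rw [Finset.sum_comm]
  refine Finset.sum_congr rfl fun b _ => ?_
  rw [Finset.sum_mul]
  refine Finset.sum_congr rfl fun a _ => ?_
  ring

theorem GG_eq (hh : Curv.IsMetric h) (f : Fin (finrank ℝ E) → E → ℝ) (x : E) :
    GG h f x = (Fm f x).det ^ 2 / (h x).det := by
  unfold GG
  rw [Gm_eq, Matrix.det_mul, Matrix.det_mul, Matrix.det_transpose, Matrix.det_nonsing_inv,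
    Ring.inverse_eq_inv']
  ring

theorem GG_nonneg (hh : Curv.IsMetric h) (f : Fin (finrank ℝ E) → E → ℝ) (x : E) :
    0 ≤ GG h f x := by
  rw [GG_eq hh]
  exact div_nonneg (sq_nonneg _) (hh.2 x).det_pos.le

theorem Gm_posSemidef (hh : Curv.IsMetric h) (f : Fin (finrank ℝ E) → E → ℝ) (x : E) :
    (Gm h f x).PosSemidef := by
  rw [Gm_eq, ← Matrix.conjTranspose_eq_transpose_of_trivial]
  exact (hh.2 x).inv.posSemidef.mul_mul_conjTranspose_same (Fm f x)

/-- Cauchy-Schwarz (`gradC_sq_le`): `|⟨d f i, d f j⟩| ≤ P`. -/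
theorem abs_Gm_le (hh : Curv.IsMetric h) (f : Fin (finrank ℝ E) → E → ℝ) (x : E) (i j) :
    |Gm h f x i j| ≤ PP h f x := by
  have h0 : ∀ i, 0 ≤ gradC h (f i) (f i) x := fun i => G4.gradC_nonneg (hh.2 x)
  have h1 : ∀ i, gradC h (f i) (f i) x ≤ PP h f x := fun i =>
    Finset.single_le_sum (f := fun i => gradC h (f i) (f i) x) (fun i _ => h0 i)
      (Finset.mem_univ i)
  have h2 : gradC h (f i) (f j) x ^ 2 ≤ PP h f x ^ 2 := by
    refine (gradC_sq_le hh (f i) (f j) x).trans ?_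
    rw [sq]
    exact mul_le_mul (h1 i) (h1 j) (h0 j) (PP_nonneg hh f x)
  change |gradC h (f i) (f j) x| ≤ PP h f x
  exact abs_le_of_sq_le_sq h2 (PP_nonneg hh f x)

/-- `Matrix.det_le`. -/
theorem GG_le (hh : Curv.IsMetric h) (f : Fin (finrank ℝ E) → E → ℝ) (x : E) :
    GG h f x ≤ (finrank ℝ E).factorial * PP h f x ^ finrank ℝ E := by
  have h1 := Matrix.det_le (A := Gm h f x) (abv := AbsoluteValue.abs) (x := PP h f x)
    (fun i j => abs_Gm_le hh f x i j)
  rw [Fintype.card_fin, nsmul_eq_mul] at h1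
  exact (le_abs_self _).trans h1

end Pool.Agent.Lib.MP_df705a_gt.Pin
end
end

section

/-!
# Spectral Ricci pinching, S3D3: the derivative of the determinant
-/

open scoped Manifold ContDiff Topology
open Set Bundle Module Filter MeasureTheory

noncomputable section

set_option linter.unusedSectionVars false

namespace Pool.Agent.Lib.MP_df705a_gt.Pin

open Pool.Agent.Lib.MP_df705a_gt.Twist Pool.Agent.Lib.MP_df705a_gt.Perm
open Pool.Agent.Lib.MP_df705a_gt.Coll (trM ipM)
open Pool.Agent.Lib.MP_df705a_gt.Coll.T (ddC mat pull RM SmF)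

variable {E : Type*} [NormedAddCommGroup E] [NormedSpace ℝ E] [FiniteDimensional ℝ E]
  {h : Curv.Coeff E} {f : Fin (finrank ℝ E) → E → ℝ} {x : E}

/-- The derivative of the determinant: `⟨dG, dw⟩ = ∑ adj_{ji} ⟨d Gm_{ij}, dw⟩`. Proof: the determinant is the
polynomial `∑ sign σ ∏ A (σ i) i`; its derivative in the direction `B` is `(adjugate A * B).trace`
(look for `Matrix.det` derivative lemmas in `Twist/MatCalc.lean` and `Twist/DetDir.lean`; Mathlib:
`Matrix.derivative_det_one_add_X_smul`...); apply it to the first derivatives of the entries. -/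
theorem gradC_GG (hh : Curv.IsMetric h) (hf : ∀ i, ContDiff ℝ ∞ (f i)) {w : E → ℝ} (x : E) :
    gradC h (GG h f) w x =
      ∑ i, ∑ j, (Gm h f x).adjugate j i * gradC h (gradC h (f i) (f j)) w x := by
  have hpd : ∀ a, Curv.pd a (GG h f) x =
      ∑ i, ∑ j, (Gm h f x).adjugate j i * Curv.pd a (gradC h (f i) (f j)) x := by
    intro a
    have h1 : ∀ i j, HasFDerivAt (fun y => Gm h f y i j)
        (fderiv ℝ (gradC h (f i) (f j)) x) x := fun i j =>
      ((contDiff_gradC hh (hf i) (hf j)).differentiable (by norm_num)).differentiableAt.hasFDerivAt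
    have h2 := (Twist.det_hasFDerivAt h1).fderiv
    change fderiv ℝ (fun y => (Gm h f y).det) x (finBasis ℝ E a) = _
    rw [h2, Finset.sum_comm]
    simp only [sum_apply, smul_apply, smul_eq_mul]
    rfl
  calc gradC h (GG h f) w x
      = ∑ a, ∑ b, (h x)⁻¹ a b * (Curv.pd a (GG h f) x * Curv.pd b w x) := rfl
    _ = ∑ a, ∑ b, ∑ i, ∑ j, (Gm h f x).adjugate j i *
          ((h x)⁻¹ a b * (Curv.pd a (gradC h (f i) (f j)) x * Curv.pd b w x)) := by
        refine Finset.sum_congr rfl fun a _ => Finset.sum_congr rfl fun b _ => ?_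
        rw [hpd a, Finset.sum_mul, Finset.mul_sum]
        refine Finset.sum_congr rfl fun i _ => ?_
        rw [Finset.sum_mul, Finset.mul_sum]
        refine Finset.sum_congr rfl fun j _ => ?_
        ring
    _ = ∑ a, ∑ i, ∑ b, ∑ j, (Gm h f x).adjugate j i *
          ((h x)⁻¹ a b * (Curv.pd a (gradC h (f i) (f j)) x * Curv.pd b w x)) :=
        Finset.sum_congr rfl fun a _ => Finset.sum_comm
    _ = ∑ i, ∑ a, ∑ b, ∑ j, (Gm h f x).adjugate j i *
          ((h x)⁻¹ a b * (Curv.pd a (gradC h (f i) (f j)) x * Curv.pd b w x)) := Finset.sum_comm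
    _ = ∑ i, ∑ a, ∑ j, ∑ b, (Gm h f x).adjugate j i *
          ((h x)⁻¹ a b * (Curv.pd a (gradC h (f i) (f j)) x * Curv.pd b w x)) :=
        Finset.sum_congr rfl fun i _ => Finset.sum_congr rfl fun a _ => Finset.sum_comm
    _ = ∑ i, ∑ j, ∑ a, ∑ b, (Gm h f x).adjugate j i *
          ((h x)⁻¹ a b * (Curv.pd a (gradC h (f i) (f j)) x * Curv.pd b w x)) :=
        Finset.sum_congr rfl fun i _ => Finset.sum_comm
    _ = ∑ i, ∑ j, (Gm h f x).adjugate j i * gradC h (gradC h (f i) (f j)) w x := by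
        refine Finset.sum_congr rfl fun i _ => Finset.sum_congr rfl fun j _ => ?_
        change _ = (Gm h f x).adjugate j i * ∑ a, ∑ b, (h x)⁻¹ a b *
          (Curv.pd a (gradC h (f i) (f j)) x * Curv.pd b w x)
        rw [Finset.mul_sum]
        refine Finset.sum_congr rfl fun a _ => ?_
        rw [Finset.mul_sum]

end Pool.Agent.Lib.MP_df705a_gt.Pin
end
end

section

/-!
# Spectral Ricci pinching, S3I1: the map
-/

open scoped Manifold ContDiff Topology
open Set Bundle Module Filter MeasureTheory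

noncomputable section

set_option linter.unusedSectionVars false

namespace Pool.Agent.Lib.MP_df705a_gt.Pin

open Pool.Agent.Lib.MP_df705a_gt.Twist Pool.Agent.Lib.MP_df705a_gt.Perm
open Pool.Agent.Lib.MP_df705a_gt.Coll (trM ipM)
open Pool.Agent.Lib.MP_df705a_gt.Coll.T (ddC mat pull RM SmF)

variable {E : Type*} [NormedAddCommGroup E] [NormedSpace ℝ E] [FiniteDimensional ℝ E]
  {h : Curv.Coeff E} {f : Fin (finrank ℝ E) → E → ℝ}

/-- The map `y ↦ (f i y)_i`, read in the basis `finBasis ℝ E` as a map `E → E`. -/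
def Fmap (f : Fin (finrank ℝ E) → E → ℝ) (y : E) : E :=
  (finBasis ℝ E).equivFun.symm fun i => f i y

/-- The matrix of the derivative of `Fmap f` in the basis `finBasis ℝ E` is `Fm f y`. -/
theorem det_fderiv_Fmap (hf : ∀ i, ContDiff ℝ ∞ (f i)) (y : E) :
    DifferentiableAt ℝ (Fmap f) y ∧ (fderiv ℝ (Fmap f) y).det = (Fm f y).det := by
  have h1 : HasFDerivAt (fun (y : E) (i : Fin (finrank ℝ E)) => f i y)
      (ContinuousLinearMap.pi fun i => fderiv ℝ (f i) y) y :=
    hasFDerivAt_pi.2 fun i => (((hf i).differentiable (by simp)) y).hasFDerivAt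
  have h2 : HasFDerivAt (Fmap f)
      (((finBasis ℝ E).equivFunL.symm : (Fin (finrank ℝ E) → ℝ) →L[ℝ] E).comp
        (ContinuousLinearMap.pi fun i => fderiv ℝ (f i) y)) y :=
    ((finBasis ℝ E).equivFunL.symm : (Fin (finrank ℝ E) → ℝ) →L[ℝ] E).hasFDerivAt.comp y h1
  refine ⟨h2.differentiableAt, ?_⟩
  rw [h2.fderiv]
  change LinearMap.det _ = _
  rw [← LinearMap.det_toMatrix (finBasis ℝ E)]
  congr 1
  ext i j
  rw [LinearMap.toMatrix_apply]
  change (finBasis ℝ E).repr ((finBasis ℝ E).equivFun.symm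
    (fun i => fderiv ℝ (f i) y (finBasis ℝ E j))) i = _
  rw [← Basis.equivFun_apply, LinearEquiv.apply_symm_apply]
  rfl

end Pool.Agent.Lib.MP_df705a_gt.Pin
end
end

section

/-!
# Spectral Ricci pinching, S3I2: the volume of the image
-/

open scoped Manifold ContDiff Topology
open Set Bundle Module Filter MeasureTheory

noncomputable section

set_option linter.unusedSectionVars false

namespace Pool.Agent.Lib.MP_df705a_gt.Pin

open Pool.Agent.Lib.MP_df705a_gt.Twist Pool.Agent.Lib.MP_df705a_gt.Perm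
open Pool.Agent.Lib.MP_df705a_gt.Coll (trM ipM)
open Pool.Agent.Lib.MP_df705a_gt.Coll.T (ddC mat pull RM SmF)

variable {E : Type*} [NormedAddCommGroup E] [NormedSpace ℝ E] [FiniteDimensional ℝ E]
  {h : Curv.Coeff E} {f : Fin (finrank ℝ E) → E → ℝ}
  [MeasurableSpace E] [BorelSpace E]

/-- `Module.Basis.map_addHaar` for `(finBasis ℝ E).equivFunL` and the standard basis of
`Fin n → ℝ`, whose Haar measure is the volume (`addHaar_eq_volume_pi` or
`Module.Basis.addHaar` of `Pi.basisFun`). The image of a compact set is compact, so measurable. -/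
theorem volume_image_eq (hf : ∀ i, ContDiff ℝ ∞ (f i)) {B : Set E} (hB : IsCompact B) :
    volume ((fun (y : E) (i : Fin (finrank ℝ E)) => f i y) '' B) =
      (finBasis ℝ E).addHaar (Fmap f '' B) := by
  have hcont : Continuous fun (y : E) (i : Fin (finrank ℝ E)) => f i y :=
    continuous_pi fun i => (hf i).continuous
  have hK : IsCompact ((fun (y : E) (i : Fin (finrank ℝ E)) => f i y) '' B) := hB.image hcont
  have e : Fmap f '' B = (finBasis ℝ E).equivFunL.symm ''
      ((fun (y : E) (i : Fin (finrank ℝ E)) => f i y) '' B) := by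
    rw [Set.image_image]
    rfl
  have hm := Basis.map_addHaar (Pi.basisFun ℝ (Fin (finrank ℝ E)))
    (finBasis ℝ E).equivFunL.symm
  have hb : (Pi.basisFun ℝ (Fin (finrank ℝ E))).map
      ((finBasis ℝ E).equivFunL.symm.toLinearEquiv) = finBasis ℝ E := by
    refine Basis.eq_of_apply_eq fun i => ?_
    rw [Basis.map_apply]
    change (finBasis ℝ E).equivFun.symm (Pi.basisFun ℝ (Fin (finrank ℝ E)) i) = _
    rw [Pi.basisFun_apply, Basis.equivFun_symm_apply]
    simp [Pi.single_apply]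
  rw [hb] at hm
  rw [← hm, e, MeasureTheory.Measure.map_apply
    (finBasis ℝ E).equivFunL.symm.continuous.measurable ((hK.image
      (finBasis ℝ E).equivFunL.symm.continuous).measurableSet)]
  rw [Set.preimage_image_eq _ (finBasis ℝ E).equivFunL.symm.injective]
  have : (Pi.basisFun ℝ (Fin (finrank ℝ E))).addHaar = volume := by
    rw [Module.Basis.addHaar, Module.Basis.parallelepiped_basisFun, MeasureTheory.addHaarMeasure_eq_volume_pi]
  rw [this]

end Pool.Agent.Lib.MP_df705a_gt.Pin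
end
end
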