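import Pool.Agent.Lib.MP_df705a_gt.Mg.G059
import Pool.Agent.Lib.MP_df705a_gt.Mg.G012
import Pool.Agent.Lib.MP_df705a_gt.Mg.G061
import Pool.Agent.Lib.MP_df705a_gt.Mg.G017

section

/-!
# Spectral Ricci pinching, S3B1: integration
-/

open scoped Manifold ContDiff Topology
open Set Bundle Module Filter MeasureTheory

noncomputable section

set_option linter.unusedSectionVars false

namespace Pool.Agent.Lib.MP_df705a_gt.Pin

open Pool.Agent.Lib.MP_df705a_gt.Twist Pool.Agent.Lib.MP_df705a_gt.Perm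
open Pool.Agent.Lib.MP_df705a_gt.Coll (trM ipM)
open Pool.Agent.Lib.MP_df705a_gt.Coll.T (ddC mat pull RM SmF)

variable {E : Type*} [NormedAddCommGroup E] [NormedSpace ℝ E] [FiniteDimensional ℝ E]
  {h : Curv.Coeff E} {u v w : E → ℝ}
  [MeasurableSpace E] [BorelSpace E]

/-- Integral against `vol h` (`integral_withDensity_eq_integral_toReal_smul` or
`integral_withDensity_eq_integral_smul`; `measurable_det` of Pin/LD). -/
theorem integral_vol (hh : Curv.IsMetric h) (g : E → ℝ) :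
    ∫ x, g x ∂(vol h) = ∫ x, g x * √ (h x).det ∂(finBasis ℝ E).addHaar := by
  unfold vol
  rw [integral_withDensity_eq_integral_toReal_smul]
  · refine integral_congr_ae (Eventually.of_forall fun x => ?_)
    show (ENNReal.ofReal (√ (h x).det)).toReal • g x = g x * √ (h x).det
    rw [ENNReal.toReal_ofReal (Real.sqrt_nonneg _), smul_eq_mul, mul_comm]
  · exact ENNReal.measurable_ofReal.comp (Real.continuous_sqrt.measurable.comp (measurable_det hh))
  · exact Eventually.of_forall fun x => ENNReal.ofReal_lt_top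

/-- `vol h` is finite on compact sets (`vol_lt_top_of_isCompact` of Pin/LD). -/
theorem integrable_vol (hh : Curv.IsMetric h) {g : E → ℝ} (hg : Continuous g)
    (hc : HasCompactSupport g) : Integrable g (vol h) := by
  have : IsFiniteMeasureOnCompacts (vol h) := ⟨fun K hK => vol_lt_top_of_isCompact hh hK⟩
  exact hg.integrable_of_hasCompactSupport hc

theorem hasCompactSupport_gradC (hc : HasCompactSupport v) (u : E → ℝ) :
    HasCompactSupport (gradC h v u) := by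
  refine hc.mono' fun x hx => ?_
  by_contra hxv
  apply hx
  have h1 : fderiv ℝ v x = 0 := image_eq_zero_of_notMem_tsupport
    fun h => hxv (tsupport_fderiv_subset ℝ h)
  unfold gradC Curv.pd
  rw [h1]
  simp

end Pool.Agent.Lib.MP_df705a_gt.Pin
end
end

section

/-!
# Spectral Ricci pinching, S3B2: the formula of Green with compact support
-/

open scoped Manifold ContDiff Topology
open Set Bundle Module Filter MeasureTheory

noncomputable section

set_option linter.unusedSectionVars false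

namespace Pool.Agent.Lib.MP_df705a_gt.Pin

open Pool.Agent.Lib.MP_df705a_gt.Twist Pool.Agent.Lib.MP_df705a_gt.Perm
open Pool.Agent.Lib.MP_df705a_gt.Coll (trM ipM)
open Pool.Agent.Lib.MP_df705a_gt.Coll.T (ddC mat pull RM SmF)

variable {E : Type*} [NormedAddCommGroup E] [NormedSpace ℝ E] [FiniteDimensional ℝ E]
  {h : Curv.Coeff E} {u v w : E → ℝ}
  [MeasurableSpace E] [BorelSpace E]

/-- The formula of Green. Proof: let `Z y = √ (h y).det • gradM (finBasis ℝ E) (h y) (fderiv ℝ u y)`, a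
smooth vector field on `E`. Then `dv Z y = √ (h y).det * lapC h u y`: this is `dv_slice` with `ψ = 0` (see
the proof of `Circ.TaskG1.fld_dv` in Circ/NoPos.lean), and `fderiv ℝ v y (Z y) = √ (h y).det *
gradC h v u y` (`Circ.TaskG1.apply_gradM`). By `ibp` (used in Coll/R/Green.lean, `green_chart`; with the
open set `univ`), `∫ v * dv Z = - ∫ fderiv v (Z ·)` for the measure `(finBasis ℝ E).addHaar`. Then
`integral_vol`. -/
theorem green (hh : Curv.IsMetric h) (hu : ContDiff ℝ ∞ u) (hv : ContDiff ℝ ∞ v)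
    (hc : HasCompactSupport v) :
    ∫ x, (v x * lapC h u x + gradC h v u x) ∂(vol h) = 0 := by
  obtain ⟨Z, hZ⟩ : ∃ Z : E → E, Z = fun y => (1 * (Real.exp 0 * √ (h y).det)) •
    gradM (finBasis ℝ E) (h y) (fderiv ℝ u y) := ⟨_, rfl⟩
  have hZs : ContDiffOn ℝ 1 Z univ := by
    intro y _
    refine ContDiffAt.contDiffWithinAt ?_
    rw [hZ]
    have hh1 : ∀ i j, ContDiffAt ℝ 1 (fun x => h x i j) y := fun i j =>
      ((hh.1 i j).contDiffAt).of_le (by norm_num)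
    have hdet : (h y).det ≠ 0 := (hh.2 y).det_pos.ne'
    have hu1 : ContDiffAt ℝ 1 (fderiv ℝ u) y :=
      ((hu.fderiv_right (m := ∞) le_rfl).contDiffAt).of_le (by norm_num)
    refine ContDiffAt.smul ?_ (gradM_contDiffAt _ hh1 hdet hu1)
    exact contDiffAt_const.mul (contDiffAt_const.mul ((contDiffAt_det hh1).sqrt hdet))
  have hdv : ∀ y, dv Z y = √ (h y).det * lapC h u y := by
    intro y
    have h1 := dv_slice (h := h) (ψ := fun _ => (0 : ℝ)) (u := u) (x := y)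
      (fun i j => (hh.1 i j).contDiffAt) (Eventually.of_forall hh.2) contDiffAt_const
      hu.contDiffAt 1
    have h2 : gradC h (fun _ => (0 : ℝ)) u y = 0 := by
      unfold gradC Curv.pd
      simp
    rw [hZ, h1, h2, Real.exp_zero]
    ring
  have hfd : ∀ y, fderiv ℝ v y (Z y) = gradC h v u y * √ (h y).det := by
    intro y
    rw [hZ]
    show fderiv ℝ v y ((1 * (Real.exp 0 * √ (h y).det)) •
      gradM (finBasis ℝ E) (h y) (fderiv ℝ u y)) = _
    rw [map_smul, Circ.TaskG1.apply_gradM, smul_eq_mul, Real.exp_zero]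
    ring
  have hib := ibp (finBasis ℝ E).addHaar hv hc isOpen_univ (subset_univ _) hZs
  have hdc : Continuous fun y => √ (h y).det :=
    Real.continuous_sqrt.comp (LD_continuous_det hh)
  have i1 : Integrable (fun y => v y * dv Z y) (finBasis ℝ E).addHaar := by
    simp only [hdv]
    refine Continuous.integrable_of_hasCompactSupport ?_ hc.mul_right
    exact hv.continuous.mul (hdc.mul (contDiff_lapC hh hu).continuous)
  have i2 : Integrable (fun y => fderiv ℝ v y (Z y)) (finBasis ℝ E).addHaar := by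
    simp only [hfd]
    refine Continuous.integrable_of_hasCompactSupport ?_ (hasCompactSupport_gradC hc u).mul_right
    exact (contDiff_gradC hh hv hu).continuous.mul hdc
  rw [integral_vol hh]
  have h3 : ∀ y, (v y * lapC h u y + gradC h v u y) * √ (h y).det =
      v y * dv Z y + fderiv ℝ v y (Z y) := by
    intro y
    rw [hdv, hfd]
    ring
  simp only [h3]
  rw [integral_add i1 i2, hib, neg_add_cancel]

/-- `green`, split; both functions are continuous with compact support (the support of `gradC h v u` is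
contained in that of `v`). -/
theorem green' (hh : Curv.IsMetric h) (hu : ContDiff ℝ ∞ u) (hv : ContDiff ℝ ∞ v)
    (hc : HasCompactSupport v) :
    ∫ x, v x * lapC h u x ∂(vol h) = - ∫ x, gradC h v u x ∂(vol h) := by
  have h1 := green hh hu hv hc
  rw [integral_add] at h1
  · linarith
  · exact integrable_vol hh (hv.continuous.mul (contDiff_lapC hh hu).continuous) hc.mul_right
  · exact integrable_vol hh (contDiff_gradC hh hv hu).continuous (hasCompactSupport_gradC hc u)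

end Pool.Agent.Lib.MP_df705a_gt.Pin
end
end

section

/-!
# Spectral Ricci pinching, S3E3: weights
-/

open scoped Manifold ContDiff Topology
open Set Bundle Module Filter MeasureTheory

noncomputable section

set_option linter.unusedSectionVars false

namespace Pool.Agent.Lib.MP_df705a_gt.Pin

open Pool.Agent.Lib.MP_df705a_gt.Twist Pool.Agent.Lib.MP_df705a_gt.Perm
open Pool.Agent.Lib.MP_df705a_gt.Coll (trM ipM)
open Pool.Agent.Lib.MP_df705a_gt.Coll.T (ddC mat pull RM SmF)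

variable {E : Type*} [NormedAddCommGroup E] [NormedSpace ℝ E] [FiniteDimensional ℝ E]
  {h : Curv.Coeff E} {v : E → ℝ} {f : Fin (finrank ℝ E) → E → ℝ} {ψ : E → ℝ} {K c : ℝ} {x : E}
  [MeasurableSpace E] [BorelSpace E]

theorem Loc.contDiff_weight (L : Loc h f ψ K c) (m q : ℕ) :
    ContDiff ℝ ∞ fun x => ψ x ^ (2 * m) * PP h f x ^ q := by
  exact (L.psm.pow _).mul ((contDiff_PP L.met L.sm).pow _)

theorem Loc.hasCompactSupport_weight (L : Loc h f ψ K c) {m : ℕ} (hm : 1 ≤ m) (q : ℕ) :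
    HasCompactSupport fun x => ψ x ^ (2 * m) * PP h f x ^ q := by
  have h1 : HasCompactSupport (fun x => ψ x ^ (2 * m)) := by
    refine HasCompactSupport.comp_left (g := fun t : ℝ => t ^ (2 * m)) L.cpt ?_
    have : 2 * m ≠ 0 := by omega
    simp [this]
  exact h1.mul_right

/-- `gradC_mul_left`, `gradC_pow_left`. -/
theorem Loc.gradC_weight (L : Loc h f ψ K c) (m q : ℕ) (w : E → ℝ) (x : E) :
    gradC h (fun x => ψ x ^ (2 * m) * PP h f x ^ q) w x =
      2 * m * ψ x ^ (2 * m - 1) * PP h f x ^ q * gradC h ψ w x +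
        q * ψ x ^ (2 * m) * PP h f x ^ (q - 1) * gradC h (PP h f) w x := by
  have h0 : DifferentiableAt ℝ ψ x := (L.psm.differentiable (by simp)).differentiableAt
  have h0' : DifferentiableAt ℝ (PP h f) x :=
    ((contDiff_PP L.met L.sm).differentiable (by simp)).differentiableAt
  have h1 : DifferentiableAt ℝ (fun y => ψ y ^ (2 * m)) x := h0.pow _
  have h2 : DifferentiableAt ℝ (fun y => PP h f y ^ q) x := h0'.pow _
  rw [gradC_mul_left L.met h1 h2 w, gradC_pow_left L.met h0, gradC_pow_left L.met h0']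
  push_cast
  ring

/-- For `1 ≤ m ≤ m'`: `0 ≤ ψ ≤ 1`. -/
theorem Loc.aI_anti (L : Loc h f ψ K c) {m m' : ℕ} (hm : 1 ≤ m) (hmm : m ≤ m') (q : ℕ) :
    aI h f ψ m' q ≤ aI h f ψ m q := by
  have hi : ∀ k : ℕ, 1 ≤ k → Integrable (fun x => ψ x ^ (2 * k) * PP h f x ^ q) (vol h) :=
    fun k hk => integrable_vol L.met (L.contDiff_weight k q).continuous
      (L.hasCompactSupport_weight hk q)
  unfold aI
  refine integral_mono (hi m' (hm.trans hmm)) (hi m hm) fun x => ?_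
  have h1 : ψ x ^ (2 * m') ≤ ψ x ^ (2 * m) :=
    pow_le_pow_of_le_one (L.nonneg x) (L.le_one x) (by omega)
  exact mul_le_mul_of_nonneg_right h1 (pow_nonneg (PP_nonneg L.met f x) _)

theorem Loc.aI_nonneg (L : Loc h f ψ K c) (m q : ℕ) : 0 ≤ aI h f ψ m q := by
  refine integral_nonneg fun x => ?_
  exact mul_nonneg (pow_nonneg (L.nonneg x) _) (pow_nonneg (PP_nonneg L.met f x) _)

/-- `∫ ψ² ≤ vol D` if `ψ = 0` outside the compact set `D`. -/
theorem Loc.aI_zero_le (L : Loc h f ψ K c) {D : Set E} (hD : IsCompact D)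
    (hψ : ∀ x, x ∉ D → ψ x = 0) : aI h f ψ 1 0 ≤ (vol h D).toReal := by
  have hi : Integrable (fun x => ψ x ^ (2 * 1) * PP h f x ^ 0) (vol h) :=
    integrable_vol L.met (L.contDiff_weight 1 0).continuous (L.hasCompactSupport_weight le_rfl 0)
  have hfin : vol h D < ⊤ := vol_lt_top_of_isCompact L.met hD
  unfold aI
  rw [← setIntegral_eq_integral_of_forall_compl_eq_zero (s := D)
    (fun x hx => by rw [hψ x hx]; simp)]
  have h1 : ∫ x in D, ψ x ^ (2 * 1) * PP h f x ^ 0 ∂(vol h) ≤ ∫ _x in D, (1 : ℝ) ∂(vol h) := by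
    refine integral_mono hi.integrableOn (integrableOn_const hfin.ne) fun x => ?_
    simp only [pow_zero, mul_one]
    exact pow_le_one₀ (L.nonneg x) (L.le_one x)
  refine h1.trans (le_of_eq ?_)
  simp [Measure.real]

end Pool.Agent.Lib.MP_df705a_gt.Pin
end
end

section

/-!
# Spectral Ricci pinching, S3F1: real inequalities I
-/

open scoped Manifold ContDiff Topology
open Set Bundle Module Filter MeasureTheory

noncomputable section

set_option linter.unusedSectionVars false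

namespace Pool.Agent.Lib.MP_df705a_gt.Pin

open Pool.Agent.Lib.MP_df705a_gt.Twist Pool.Agent.Lib.MP_df705a_gt.Perm
open Pool.Agent.Lib.MP_df705a_gt.Coll (trM ipM)
open Pool.Agent.Lib.MP_df705a_gt.Coll.T (ddC mat pull RM SmF)

namespace S3F1Aux

theorem pow1 (m : ℕ) (s : ℝ) : s ^ (2 * (m + 2)) = (s ^ (m + 2)) ^ 2 := by
  rw [← pow_mul, mul_comm]

theorem pow2 (m : ℕ) (s : ℝ) : s ^ (2 * (m + 1)) = (s ^ (m + 1)) ^ 2 := by
  rw [← pow_mul, mul_comm]

theorem pow3 (m : ℕ) (s : ℝ) : s ^ (2 * (m + 2) - 1) = s ^ (m + 1) * s ^ (m + 2) := by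
  rw [← pow_add]
  congr 1
  omega

end S3F1Aux

/-- Real inequality. With `M = 2 * (m + 2)`:
`- g1 / 2 ≤ M c s^(M-1) P^q √P √H ≤ s^M P^q H / 4 + M² c² s^(M-2) P^(q+1)` where
`g1 = M s^(M-1) P^q a + q s^M P^(q-1) b`, `|a| ≤ c * (2 √P √H)`, `b ≥ 0`. -/
theorem real_i1 (m q : ℕ) {s P H a b c : ℝ} (hs : 0 ≤ s) (hP : 0 ≤ P) (hH : 0 ≤ H) (hc : 0 ≤ c)
    (ha : |a| ≤ c * (2 * (√ P * √ H))) (hb : 0 ≤ b) :
    - (1 / 2) * (2 * ((m + 2 : ℕ) : ℝ) * s ^ (2 * (m + 2) - 1) * P ^ q * a +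
      q * s ^ (2 * (m + 2)) * P ^ (q - 1) * b) ≤
      (1 / 4) * (s ^ (2 * (m + 2)) * P ^ q * H) +
        (2 * (m + 2 : ℝ)) ^ 2 * c ^ 2 * (s ^ (2 * (m + 1)) * P ^ (q + 1)) := by
  have hx : 0 ≤ s ^ (m + 1) := by positivity
  have hy : 0 ≤ s ^ (m + 2) := by positivity
  have hQ : 0 ≤ P ^ q := by positivity
  have hQ1 : 0 ≤ P ^ (q - 1) := by positivity
  rw [S3F1Aux.pow1, S3F1Aux.pow2, S3F1Aux.pow3, pow_succ P q]
  have hp := Real.sqrt_nonneg P
  have hη := Real.sqrt_nonneg H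
  have hp2 := Real.sq_sqrt hP
  have hη2 := Real.sq_sqrt hH
  generalize √ P = p at *
  generalize √ H = η at *
  generalize s ^ (m + 1) = X at *
  generalize s ^ (m + 2) = Y at *
  generalize P ^ q = Q at *
  generalize P ^ (q - 1) = Q₁ at *
  have hM : 0 ≤ 2 * ((m + 2 : ℕ) : ℝ) := by positivity
  have hMe : 2 * (m + 2 : ℝ) = 2 * ((m + 2 : ℕ) : ℝ) := by push_cast; ring
  rw [hMe]
  generalize 2 * ((m + 2 : ℕ) : ℝ) = M at *
  have e1 : 0 ≤ (q : ℝ) * Y ^ 2 * Q₁ * b := by positivity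
  have e2 : -a ≤ c * (2 * (p * η)) := (neg_le_abs a).trans ha
  have e3 : M * (X * Y) * Q * (-a) ≤ M * (X * Y) * Q * (c * (2 * (p * η))) :=
    mul_le_mul_of_nonneg_left e2 (by positivity)
  have e4 : 0 ≤ Q * (Y * η / 2 - M * c * (X * p)) ^ 2 := by positivity
  rw [← hp2, ← hη2]
  nlinarith

/-- Real inequality for one index `i`: `|l| ≤ K`, `|a| ≤ c √P`, `|b| ≤ 2 P √H`, `n ≥ 1` (a real number):
`l g ≤ K (M s^(M-1) P^q c √P + q s^M P^(q-1) 2 P √H)
≤ (1/(4 n)) s^M P^q H + C (s^(M-2) P^(q+1) + s^M P^q)`. -/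
theorem real_i2 (m q : ℕ) {s P H l a b c K n : ℝ} (hs : 0 ≤ s) (hP : 0 ≤ P) (hH : 0 ≤ H)
    (hc : 0 ≤ c) (hK : 0 ≤ K) (hn : 1 ≤ n) (hl : |l| ≤ K) (ha : |a| ≤ c * √ P)
    (hb : |b| ≤ 2 * (√ P * √ H) * √ P) :
    s ^ (2 * (m + 2)) * P ^ q * l ^ 2 +
      l * (2 * ((m + 2 : ℕ) : ℝ) * s ^ (2 * (m + 2) - 1) * P ^ q * a +
        q * s ^ (2 * (m + 2)) * P ^ (q - 1) * b) ≤
      (1 / (4 * n)) * (s ^ (2 * (m + 2)) * P ^ q * H) +
        (K ^ 2 + (K * (2 * (m + 2 : ℝ)) * c) ^ 2 + 1 + 4 * n * K ^ 2 * q ^ 2) *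
          (s ^ (2 * (m + 1)) * P ^ (q + 1) + s ^ (2 * (m + 2)) * P ^ q) := by
  have hx : 0 ≤ s ^ (m + 1) := by positivity
  have hy : 0 ≤ s ^ (m + 2) := by positivity
  have hQ : 0 ≤ P ^ q := by positivity
  have hQ1 : 0 ≤ P ^ (q - 1) := by positivity
  have hqP : (q : ℝ) * P ^ (q - 1) * P = q * P ^ q := by
    rcases Nat.eq_zero_or_pos q with h0 | h0
    · rw [h0]; simp
    · obtain ⟨q', rfl⟩ : ∃ q', q = q' + 1 := ⟨q - 1, by omega⟩
      rw [Nat.add_sub_cancel, pow_succ]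
      ring
  rw [S3F1Aux.pow1, S3F1Aux.pow2, S3F1Aux.pow3, pow_succ P q]
  have hp := Real.sqrt_nonneg P
  have hη := Real.sqrt_nonneg H
  have hp2 := Real.sq_sqrt hP
  have hη2 := Real.sq_sqrt hH
  have hq0 : (0 : ℝ) ≤ q := Nat.cast_nonneg q
  generalize √ P = p at *
  generalize √ H = η at *
  generalize s ^ (m + 1) = X at *
  generalize s ^ (m + 2) = Y at *
  generalize P ^ q = Q at *
  generalize P ^ (q - 1) = Q₁ at *
  have hM : 0 ≤ 2 * ((m + 2 : ℕ) : ℝ) := by positivity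
  have hMe : 2 * (m + 2 : ℝ) = 2 * ((m + 2 : ℕ) : ℝ) := by push_cast; ring
  rw [hMe]
  generalize 2 * ((m + 2 : ℕ) : ℝ) = M at *
  generalize (q : ℝ) = r at *
  have n0 : 0 < n := by linarith
  -- the square of `l`
  have l2 : l ^ 2 ≤ K ^ 2 := by
    rw [← sq_abs]
    exact pow_le_pow_left₀ (abs_nonneg _) hl 2
  have f1 : Y ^ 2 * Q * l ^ 2 ≤ Y ^ 2 * Q * K ^ 2 := mul_le_mul_of_nonneg_left l2 (by positivity)
  -- the first product
  have la : l * a ≤ K * (c * p) := by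
    refine (le_abs_self _).trans ?_
    rw [abs_mul]
    exact mul_le_mul hl ha (abs_nonneg _) hK
  have f2 : M * (X * Y) * Q * (l * a) ≤ M * (X * Y) * Q * (K * (c * p)) :=
    mul_le_mul_of_nonneg_left la (by positivity)
  have f3 : M * (X * Y) * Q * (K * (c * p)) ≤ Q * ((K * M * c) ^ 2 * Y ^ 2 + X ^ 2 * p ^ 2) := by
    have e1 : 0 ≤ Q * (K * M * c * Y - X * p) ^ 2 := by positivity
    have e2 : 0 ≤ M * (X * Y) * Q * (K * (c * p)) := by positivity
    nlinarith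
  -- the second product
  have lb : l * b ≤ K * (2 * (p * η) * p) := by
    refine (le_abs_self _).trans ?_
    rw [abs_mul]
    exact mul_le_mul hl hb (abs_nonneg _) hK
  have f4 : r * Y ^ 2 * Q₁ * (l * b) ≤ r * Y ^ 2 * Q₁ * (K * (2 * (p * η) * p)) :=
    mul_le_mul_of_nonneg_left lb (by positivity)
  have f5 : r * Y ^ 2 * Q₁ * (K * (2 * (p * η) * p)) = Y ^ 2 * Q * (2 * K * r * η) := by
    have e1 : r * Q₁ * p ^ 2 = r * Q := by rw [hp2]; exact hqP
    linear_combination (2 * Y ^ 2 * K * η) * e1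
  have f6 : 2 * K * r * η ≤ 1 / (4 * n) * η ^ 2 + 4 * n * K ^ 2 * r ^ 2 := by
    have e1 : 0 ≤ (η - 4 * n * K * r) ^ 2 / (4 * n) := by positivity
    have e2 : (η - 4 * n * K * r) ^ 2 / (4 * n) =
        1 / (4 * n) * η ^ 2 + 4 * n * K ^ 2 * r ^ 2 - 2 * K * r * η := by
      field_simp
      ring
    linarith
  have f7 := mul_le_mul_of_nonneg_left f6 (show 0 ≤ Y ^ 2 * Q by positivity)
  have f8 : 0 ≤ (K ^ 2 + (K * M * c) ^ 2 + 4 * n * K ^ 2 * r ^ 2) * (X ^ 2 * (Q * P)) + Y ^ 2 * Q := by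
    positivity
  rw [hp2] at f3
  rw [hη2] at f7
  have g : Y ^ 2 * Q * l ^ 2 + l * (M * (X * Y) * Q * a + r * Y ^ 2 * Q₁ * b) =
      Y ^ 2 * Q * l ^ 2 + M * (X * Y) * Q * (l * a) + r * Y ^ 2 * Q₁ * (l * b) := by ring
  rw [g]
  have g2 : 1 / (4 * n) * (Y ^ 2 * Q * H) + (K ^ 2 + (K * M * c) ^ 2 + 1 + 4 * n * K ^ 2 * r ^ 2) *
      (X ^ 2 * (Q * P) + Y ^ 2 * Q) = Y ^ 2 * Q * K ^ 2 + Q * ((K * M * c) ^ 2 * Y ^ 2 + X ^ 2 * P) +
      Y ^ 2 * Q * (1 / (4 * n) * H + 4 * n * K ^ 2 * r ^ 2) +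
      ((K ^ 2 + (K * M * c) ^ 2 + 4 * n * K ^ 2 * r ^ 2) * (X ^ 2 * (Q * P)) + Y ^ 2 * Q) := by ring
  rw [g2]
  linarith

end Pool.Agent.Lib.MP_df705a_gt.Pin
end
end

section

/-!
# Spectral Ricci pinching, S3E2: integral identity for P
-/

open scoped Manifold ContDiff Topology
open Set Bundle Module Filter MeasureTheory

noncomputable section

set_option linter.unusedSectionVars false

namespace Pool.Agent.Lib.MP_df705a_gt.Pin

open Pool.Agent.Lib.MP_df705a_gt.Twist Pool.Agent.Lib.MP_df705a_gt.Perm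
open Pool.Agent.Lib.MP_df705a_gt.Coll (trM ipM)
open Pool.Agent.Lib.MP_df705a_gt.Coll.T (ddC mat pull RM SmF)

variable {E : Type*} [NormedAddCommGroup E] [NormedSpace ℝ E] [FiniteDimensional ℝ E]
  {h : Curv.Coeff E} {v : E → ℝ} {f : Fin (finrank ℝ E) → E → ℝ} {x : E}
  [MeasurableSpace E] [BorelSpace E]

/-- `∫ v P = - ∫ ∑ (v f i Δ f i + f i ⟨dv, d f i⟩)`. Proof: `green'` for `f i` and `v * f i`,
`gradC_mul_left`, sum over `i`. -/
theorem integral_P (hh : Curv.IsMetric h) (hf : ∀ i, ContDiff ℝ ∞ (f i)) (hv : ContDiff ℝ ∞ v)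
    (hc : HasCompactSupport v) :
    ∫ x, v x * PP h f x ∂(vol h) =
      ∫ x, - ∑ i, (v x * f i x * lapC h (f i) x + f i x * gradC h v (f i) x) ∂(vol h) := by
  have hvf : ∀ i, ContDiff ℝ ∞ (fun y => v y * f i y) := fun i => hv.mul (hf i)
  have hcf : ∀ i, HasCompactSupport (fun y => v y * f i y) := fun i => hc.mul_right
  have hcont : ∀ i, Continuous fun x =>
      v x * f i x * lapC h (f i) x + gradC h (fun y => v y * f i y) (f i) x := fun i =>
    ((hvf i).continuous.mul (contDiff_lapC hh (hf i)).continuous).add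
      (contDiff_gradC hh (hvf i) (hf i)).continuous
  have hcpt : ∀ i, HasCompactSupport fun x =>
      v x * f i x * lapC h (f i) x + gradC h (fun y => v y * f i y) (f i) x := fun i =>
    HasCompactSupport.add (hcf i).mul_right (hasCompactSupport_gradC (hcf i) (f i))
  have hint : ∀ i, Integrable (fun x =>
      v x * f i x * lapC h (f i) x + gradC h (fun y => v y * f i y) (f i) x) (vol h) := fun i =>
    integrable_vol hh (hcont i) (hcpt i)
  have hP : Integrable (fun x => v x * PP h f x) (vol h) :=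
    integrable_vol hh (hv.continuous.mul (contDiff_PP hh hf).continuous) hc.mul_right
  have hpt : ∀ x, - ∑ i, (v x * f i x * lapC h (f i) x + f i x * gradC h v (f i) x) =
      v x * PP h f x - ∑ i, (v x * f i x * lapC h (f i) x +
        gradC h (fun y => v y * f i y) (f i) x) := by
    intro x
    rw [PP, Finset.mul_sum, ← Finset.sum_sub_distrib, ← Finset.sum_neg_distrib]
    refine Finset.sum_congr rfl fun i _ => ?_
    rw [gradC_mul_left hh ((hv.differentiable (by simp)) x) (((hf i).differentiable (by simp)) x)]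
    ring
  simp_rw [hpt]
  rw [integral_sub hP (integrable_finsetSum _ fun i _ => hint i),
    integral_finsetSum _ fun i _ => hint i,
    Finset.sum_eq_zero fun i _ => green hh (hf i) (hvf i) (hcf i), sub_zero]

end Pool.Agent.Lib.MP_df705a_gt.Pin
end
end

section

/-!
# Spectral Ricci pinching, S3G: the inequality of Jacobi
-/

open scoped Manifold ContDiff Topology
open Set Bundle Module Filter MeasureTheory

noncomputable section

set_option linter.unusedSectionVars false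

namespace Pool.Agent.Lib.MP_df705a_gt.Pin

open Pool.Agent.Lib.MP_df705a_gt.Twist Pool.Agent.Lib.MP_df705a_gt.Perm
open Pool.Agent.Lib.MP_df705a_gt.Coll (trM ipM)
open Pool.Agent.Lib.MP_df705a_gt.Coll.T (ddC mat pull RM SmF)

variable {E : Type*} [NormedAddCommGroup E] [NormedSpace ℝ E] [FiniteDimensional ℝ E]
  {h : Curv.Coeff E}
  [MeasurableSpace E] [BorelSpace E]

/-- `⟨d(φ²/w), dw⟩ = 2 (φ/w) ⟨dφ, dw⟩ - (φ/w)² |dw|² ≤ |dφ|²` (from `|dφ - (φ/w) dw|² ≥ 0`). -/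
theorem gradC_quot_le (hh : Curv.IsMetric h) {φ w : E → ℝ} (hφ : ContDiff ℝ ∞ φ)
    (hw : ContDiff ℝ ∞ w) (hw0 : ∀ x, 0 < w x) (x : E) :
    gradC h (fun y => φ y ^ 2 * (w y)⁻¹) w x ≤ gradC h φ φ x := by
  have dφ : DifferentiableAt ℝ φ x := (hφ.differentiable (by simp)) x
  have dw : DifferentiableAt ℝ w x := (hw.differentiable (by simp)) x
  have w0 : w x ≠ 0 := (hw0 x).ne'
  have dw' : DifferentiableAt ℝ (fun y => (w y)⁻¹) x := dw.inv w0
  have e1 : gradC h (fun y => φ y ^ 2 * (w y)⁻¹) w x =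
      φ x ^ 2 * gradC h (fun y => (w y)⁻¹) w x +
        (w x)⁻¹ * gradC h (fun y => φ y ^ 2) w x :=
    gradC_mul_left hh (dφ.pow 2) dw' w
  have e2 : gradC h (fun y => (w y)⁻¹) w x = -(w x ^ 2)⁻¹ * gradC h w w x := by
    have := gradC_comp_left hh (φ := fun t : ℝ => t⁻¹) dw (differentiableAt_inv w0) w
    rw [this, deriv_inv]
  have e3 : gradC h (fun y => φ y ^ 2) w x = 2 * φ x * gradC h φ w x := by
    have := gradC_pow_left hh dφ 2 w
    rw [this]
    norm_num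
  have cs := gradC_sq_le hh φ w x
  have n1 : 0 ≤ gradC h φ φ x := G4.gradC_nonneg (hh.2 x)
  have n2 : 0 ≤ gradC h w w x := G4.gradC_nonneg (hh.2 x)
  rw [e1, e2, e3]
  obtain ⟨t, ht⟩ : ∃ t, t = φ x * (w x)⁻¹ := ⟨_, rfl⟩
  have e4 : φ x ^ 2 * (-(w x ^ 2)⁻¹ * gradC h w w x) +
      (w x)⁻¹ * (2 * φ x * gradC h φ w x) =
      2 * t * gradC h φ w x - t ^ 2 * gradC h w w x := by
    rw [ht]
    field_simp
    ring
  rw [e4]
  generalize gradC h φ φ x = a at *
  generalize gradC h w w x = b at *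
  generalize gradC h φ w x = m at *
  rcases n2.eq_or_lt with hb | hb
  · have hm : m = 0 := by
      have : m ^ 2 ≤ 0 := by rw [← hb] at cs; simpa using cs
      exact pow_eq_zero_iff (two_ne_zero) |>.1 (le_antisymm this (sq_nonneg m))
    rw [hm, ← hb]
    simpa using n1
  · have h1 : 0 ≤ b * (a - (2 * t * m - t ^ 2 * b)) := by nlinarith [sq_nonneg (m - t * b)]
    have h2 := nonneg_of_mul_nonneg_right h1 hb
    linarith

/-- The inequality of Jacobi: a positive function `w` with `γ Δ w ≤ (scal - Λ) w` on the support of `φ` gives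
`Λ ∫ φ² ≤ γ ∫ |dφ|² + ∫ scal φ²`. Proof: multiply by `φ²/w ≥ 0` and integrate; `green'` with
`v = φ² w⁻¹`: `∫ (φ²/w) Δ w = - ∫ ⟨d(φ²/w), dw⟩ ≥ - ∫ |dφ|²` (`gradC_quot_le`). -/
theorem jacobi (hh : Curv.IsMetric h) {φ w : E → ℝ} (hφ : ContDiff ℝ ∞ φ)
    (hc : HasCompactSupport φ) (hw : ContDiff ℝ ∞ w) (hw0 : ∀ x, 0 < w x) {γ Λ : ℝ} (hγ : 0 ≤ γ)
    (hle : ∀ x, φ x ≠ 0 → γ * lapC h w x ≤ (Curv.scal h x - Λ) * w x) :
    Λ * ∫ x, φ x ^ 2 ∂(vol h) ≤
      γ * (∫ x, gradC h φ φ x ∂(vol h)) + ∫ x, Curv.scal h x * φ x ^ 2 ∂(vol h) := by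
  have hwi : ContDiff ℝ ∞ fun y => (w y)⁻¹ := hw.inv fun y => (hw0 y).ne'
  have hv : ContDiff ℝ ∞ fun y => φ y ^ 2 * (w y)⁻¹ := (hφ.pow 2).mul hwi
  have hc2 : HasCompactSupport fun y => φ y ^ 2 :=
    hc.comp_left (g := fun t : ℝ => t ^ 2) (by norm_num)
  have hcv : HasCompactSupport fun y => φ y ^ 2 * (w y)⁻¹ := hc2.mul_right
  have g := green' hh hw hv hcv
  have i1 : Integrable (fun x => φ x ^ 2 * (w x)⁻¹ * lapC h w x) (vol h) :=
    integrable_vol hh (hv.continuous.mul (contDiff_lapC hh hw).continuous) hcv.mul_right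
  have i2 : Integrable (fun x => φ x ^ 2) (vol h) :=
    integrable_vol hh (hφ.pow 2).continuous hc2
  have i3 : Integrable (fun x => Curv.scal h x * φ x ^ 2) (vol h) :=
    integrable_vol hh ((continuous_scal hh).mul (hφ.pow 2).continuous) hc2.mul_left
  have i4 : Integrable (gradC h (fun y => φ y ^ 2 * (w y)⁻¹) w) (vol h) :=
    integrable_vol hh (contDiff_gradC hh hv hw).continuous (hasCompactSupport_gradC hcv w)
  have i5 : Integrable (gradC h φ φ) (vol h) :=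
    integrable_vol hh (contDiff_gradC hh hφ hφ).continuous (hasCompactSupport_gradC hc φ)
  have p1 : ∀ x, γ * (φ x ^ 2 * (w x)⁻¹ * lapC h w x) ≤
      Curv.scal h x * φ x ^ 2 - Λ * φ x ^ 2 := by
    intro x
    by_cases hx : φ x = 0
    · simp [hx]
    · have h1 := hle x hx
      have h2 : 0 ≤ φ x ^ 2 * (w x)⁻¹ := mul_nonneg (sq_nonneg _) (inv_nonneg.2 (hw0 x).le)
      have h3 := mul_le_mul_of_nonneg_left h1 h2
      have h4 : φ x ^ 2 * (w x)⁻¹ * ((Curv.scal h x - Λ) * w x) =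
          Curv.scal h x * φ x ^ 2 - Λ * φ x ^ 2 := by
        have w0 : w x ≠ 0 := (hw0 x).ne'
        field_simp
      rw [h4] at h3
      linarith
  have q1 : γ * ∫ x, φ x ^ 2 * (w x)⁻¹ * lapC h w x ∂(vol h) ≤
      (∫ x, Curv.scal h x * φ x ^ 2 ∂(vol h)) - Λ * ∫ x, φ x ^ 2 ∂(vol h) := by
    rw [← integral_const_mul, ← integral_const_mul, ← integral_sub i3 (i2.const_mul Λ)]
    exact integral_mono (i1.const_mul γ) (i3.sub (i2.const_mul Λ)) p1
  have q2 : ∫ x, gradC h (fun y => φ y ^ 2 * (w y)⁻¹) w x ∂(vol h) ≤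
      ∫ x, gradC h φ φ x ∂(vol h) :=
    integral_mono i4 i5 fun x => gradC_quot_le hh hφ hw hw0 x
  rw [g] at q1
  have q3 := mul_le_mul_of_nonneg_left q2 hγ
  linarith

end Pool.Agent.Lib.MP_df705a_gt.Pin
end
end

section

/-!
# Lower bounds of the Ricci curvature in the sense of Kato: real inequalities
-/

open Set

noncomputable section

namespace Pool.Agent.Lib.MP_df705a_gt.Kat

open Pool.Agent.Lib.MP_df705a_gt.Pin

/-- `α Z + γ Z - Z² ≤ (17 α² + (17 / 16) γ²) / 4`. -/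
theorem young17 (α γ Z : ℝ) : α * Z + γ * Z - Z ^ 2 ≤ (17 * α ^ 2 + 17 / 16 * γ ^ 2) / 4 := by
  nlinarith [sq_nonneg (2 * Z - (α + γ)), sq_nonneg (4 * α - γ / 4)]

theorem young16 (a b : ℝ) : a * b ≤ 4 * a ^ 2 + (1 / 16) * b ^ 2 := by
  nlinarith [sq_nonneg (2 * a - b / 4)]

/-- The case `q ≥ 1`, without the factor `P^(q-1)`. -/
theorem real_j1_pos {M x y P H X b c N q a d e : ℝ} (hM : 0 ≤ M) (hx : 0 ≤ x) (hy : 0 ≤ y)
    (hP : 0 ≤ P) (hH : 0 ≤ H) (_hc : 0 ≤ c) (hb : 0 ≤ b) (hb' : b ≤ 4 * (P * H))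
    (hN : 2 ≤ N) (hq : 1 ≤ q) (hqN : q + 1 ≤ N) (ha : |a| ≤ c * (2 * (√ P * √ H)))
    (hd : d ≤ c * X) (he : e ≤ √ b * X) :
    -(1 / 2) * (M * (x * y) * P * a + q * y ^ 2 * b) +
      (1 / N) * ((M * (x * y) * P ^ 2 * d + (q + 1) * y ^ 2 * P * e) - y ^ 2 * P ^ 2 * X ^ 2) ≤
      (19 / 32) * (y ^ 2 * P * H) + 7 * M ^ 2 * c ^ 2 * (x ^ 2 * P ^ 2) := by
  have hN0 : 0 < N := by linarith
  have hp2 := Real.sq_sqrt hP
  have hη2 := Real.sq_sqrt hH
  have hβ2 := Real.sq_sqrt hb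
  -- the first term
  have e1 : -(1 / 2) * (M * (x * y) * P * a) ≤
      P * (4 * (M * c * x * √ P) ^ 2 + (1 / 16) * (y * √ H) ^ 2) := by
    have h1 : -a ≤ c * (2 * (√ P * √ H)) := (neg_le_abs a).trans ha
    have h2 : M * (x * y) * P * (-a) ≤ M * (x * y) * P * (c * (2 * (√ P * √ H))) :=
      mul_le_mul_of_nonneg_left h1 (by positivity)
    have h3 := mul_le_mul_of_nonneg_left (young16 (M * c * x * √ P) (y * √ H)) hP
    have h4 : M * (x * y) * P * (c * (2 * (√ P * √ H))) =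
        2 * (P * (M * c * x * √ P * (y * √ H))) := by ring
    linarith
  have e1' : P * (4 * (M * c * x * √ P) ^ 2 + (1 / 16) * (y * √ H) ^ 2) =
      4 * M ^ 2 * c ^ 2 * (x ^ 2 * P ^ 2) + (1 / 16) * (y ^ 2 * P * H) := by
    have h1 : (M * c * x * √ P) ^ 2 = M ^ 2 * c ^ 2 * x ^ 2 * P := by
      rw [mul_pow, hp2]; ring
    have h2 : (y * √ H) ^ 2 = y ^ 2 * H := by
      rw [mul_pow, hη2]
    rw [h1, h2]; ring
  -- the second term
  have e2 : (M * (x * y) * P ^ 2 * d + (q + 1) * y ^ 2 * P * e) - y ^ 2 * P ^ 2 * X ^ 2 ≤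
      (17 * (M * c * x * P) ^ 2 + 17 / 16 * ((q + 1) * y * √ b) ^ 2) / 4 := by
    have h1 := young17 (M * c * x * P) ((q + 1) * y * √ b) (y * P * X)
    have h2 : M * (x * y) * P ^ 2 * d ≤ M * (x * y) * P ^ 2 * (c * X) :=
      mul_le_mul_of_nonneg_left hd (by positivity)
    have h3 : (q + 1) * y ^ 2 * P * e ≤ (q + 1) * y ^ 2 * P * (√ b * X) :=
      mul_le_mul_of_nonneg_left he (by positivity)
    have h4 : M * (x * y) * P ^ 2 * (c * X) = M * c * x * P * (y * P * X) := by ring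
    have h5 : (q + 1) * y ^ 2 * P * (√ b * X) = (q + 1) * y * √ b * (y * P * X) := by ring
    have h6 : (y * P * X) ^ 2 = y ^ 2 * P ^ 2 * X ^ 2 := by ring
    linarith
  have e3 : (1 / N) * ((17 * (M * c * x * P) ^ 2 + 17 / 16 * ((q + 1) * y * √ b) ^ 2) / 4) ≤
      (17 / 8) * (M ^ 2 * c ^ 2 * (x ^ 2 * P ^ 2)) + (17 / 64) * ((q + 1) * (y ^ 2 * b)) := by
    have h1 : ((q + 1) * y * √ b) ^ 2 = (q + 1) ^ 2 * (y ^ 2 * b) := by
      rw [mul_pow, hβ2]; ring
    have h2 : (1 / N) * ((17 * (M * c * x * P) ^ 2 + 17 / 16 * ((q + 1) * y * √ b) ^ 2) / 4) =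
        (17 / 4) * (1 / N) * (M ^ 2 * c ^ 2 * (x ^ 2 * P ^ 2)) +
        (17 / 64) * ((1 / N) * (q + 1) * ((q + 1) * (y ^ 2 * b))) := by
      rw [h1]; ring
    rw [h2]
    have h3 : 1 / N ≤ 1 / 2 := one_div_le_one_div_of_le (by norm_num) hN
    have h4 : (1 / N) * (q + 1) ≤ 1 := by
      rw [one_div_mul_eq_div, div_le_one hN0]
      exact hqN
    have h5 : 0 ≤ M ^ 2 * c ^ 2 * (x ^ 2 * P ^ 2) := by positivity
    have h6 : 0 ≤ (q + 1) * (y ^ 2 * b) := by positivity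
    have h7 := mul_le_mul_of_nonneg_right h3 h5
    have h8 := mul_le_mul_of_nonneg_right h4 h6
    linarith
  have e4 : (1 / N) * ((M * (x * y) * P ^ 2 * d + (q + 1) * y ^ 2 * P * e) - y ^ 2 * P ^ 2 * X ^ 2)
      ≤ (1 / N) * ((17 * (M * c * x * P) ^ 2 + 17 / 16 * ((q + 1) * y * √ b) ^ 2) / 4) :=
    mul_le_mul_of_nonneg_left e2 (by positivity)
  have e5 : (17 / 64) * ((q + 1) * (y ^ 2 * b)) - (1 / 2) * (q * y ^ 2 * b) ≤
      (1 / 8) * (y ^ 2 * P * H) := by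
    have h1 : (17 / 64) * ((q + 1) * (y ^ 2 * b)) - (1 / 2) * (q * y ^ 2 * b) =
        (17 - 15 * q) / 64 * (y ^ 2 * b) := by ring
    have h2 : (17 - 15 * q) / 64 ≤ 1 / 32 := by linarith
    have h3 : 0 ≤ y ^ 2 * b := by positivity
    have h4 := mul_le_mul_of_nonneg_right h2 h3
    have h5 := mul_le_mul_of_nonneg_left hb' (sq_nonneg y)
    rw [h1]
    nlinarith
  have e6 : 0 ≤ M ^ 2 * c ^ 2 * (x ^ 2 * P ^ 2) := by positivity
  have e7 : 0 ≤ y ^ 2 * P * H := by positivity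
  rw [e1'] at e1
  linarith

/-- The case `q = 0`. -/
theorem real_j1_zero {M x y P H X b c N a d e : ℝ} (hM : 0 ≤ M) (hx : 0 ≤ x) (hy : 0 ≤ y)
    (hP : 0 ≤ P) (hH : 0 ≤ H) (_hc : 0 ≤ c) (hX : 0 ≤ X)
    (hb' : √ b ≤ 2 * (√ P * √ H)) (hN : 2 ≤ N) (ha : |a| ≤ c * (2 * (√ P * √ H)))
    (hd : d ≤ c * X) (he : e ≤ √ b * X) :
    -(1 / 2) * (M * (x * y) * a) +
      (1 / N) * ((M * (x * y) * P * d + y ^ 2 * e) - y ^ 2 * P * X ^ 2) ≤
      (19 / 32) * (y ^ 2 * H) + 7 * M ^ 2 * c ^ 2 * (x ^ 2 * P) := by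
  have hN0 : 0 < N := by linarith
  have hp2 := Real.sq_sqrt hP
  have hη2 := Real.sq_sqrt hH
  have e1 : -(1 / 2) * (M * (x * y) * a) ≤
      4 * (M * c * x * √ P) ^ 2 + (1 / 16) * (y * √ H) ^ 2 := by
    have h1 : -a ≤ c * (2 * (√ P * √ H)) := (neg_le_abs a).trans ha
    have h2 : M * (x * y) * (-a) ≤ M * (x * y) * (c * (2 * (√ P * √ H))) :=
      mul_le_mul_of_nonneg_left h1 (by positivity)
    have h3 := young16 (M * c * x * √ P) (y * √ H)
    have h4 : M * (x * y) * (c * (2 * (√ P * √ H))) =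
        2 * (M * c * x * √ P * (y * √ H)) := by ring
    linarith
  have e2 : (M * (x * y) * P * d + y ^ 2 * e) - y ^ 2 * P * X ^ 2 ≤
      (17 * (M * c * x * √ P) ^ 2 + 17 / 16 * (2 * (y * √ H)) ^ 2) / 4 := by
    have h1 := young17 (M * c * x * √ P) (2 * (y * √ H)) (y * √ P * X)
    have h2 : M * (x * y) * P * d ≤ M * (x * y) * P * (c * X) :=
      mul_le_mul_of_nonneg_left hd (by positivity)
    have h3 : y ^ 2 * e ≤ y ^ 2 * (2 * (√ P * √ H) * X) :=
      mul_le_mul_of_nonneg_left (he.trans (mul_le_mul_of_nonneg_right hb' hX)) (sq_nonneg y)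
    have h4 : M * (x * y) * P * (c * X) = M * c * x * √ P * (y * √ P * X) := by
      have : M * (x * y) * P * (c * X) = M * (x * y) * (√ P ^ 2) * (c * X) := by rw [hp2]
      rw [this]; ring
    have h5 : y ^ 2 * (2 * (√ P * √ H) * X) = 2 * (y * √ H) * (y * √ P * X) := by ring
    have h6 : (y * √ P * X) ^ 2 = y ^ 2 * P * X ^ 2 := by
      rw [mul_pow, mul_pow, hp2]
    linarith
  have f1 : (M * c * x * √ P) ^ 2 = M ^ 2 * c ^ 2 * (x ^ 2 * P) := by
    rw [mul_pow, hp2]; ring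
  have f2 : (y * √ H) ^ 2 = y ^ 2 * H := by
    rw [mul_pow, hη2]
  have f3 : (2 * (y * √ H)) ^ 2 = 4 * (y ^ 2 * H) := by
    rw [mul_pow, f2]; ring
  rw [f1, f2] at e1
  rw [f1, f3] at e2
  have g1 : 0 ≤ M ^ 2 * c ^ 2 * (x ^ 2 * P) := by positivity
  have g2 : 0 ≤ y ^ 2 * H := by positivity
  have e3 := mul_le_mul_of_nonneg_left e2 (show (0 : ℝ) ≤ 1 / N by positivity)
  have h3 : 1 / N ≤ 1 / 2 := one_div_le_one_div_of_le (by norm_num) hN
  have h4 : 0 ≤ (17 * (M ^ 2 * c ^ 2 * (x ^ 2 * P)) + 17 / 16 * (4 * (y ^ 2 * H))) / 4 := by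
    positivity
  have h5 := mul_le_mul_of_nonneg_right h3 h4
  linarith

/-- The real inequality of the weighted formula of Bochner. -/
theorem real_j1 (m q : ℕ) {s P H b X c N a d e : ℝ} (hs : 0 ≤ s) (hP : 0 ≤ P) (hH : 0 ≤ H)
    (hc : 0 ≤ c) (hX : 0 ≤ X) (hb : 0 ≤ b) (hb' : √ b ≤ 2 * (√ P * √ H)) (hN : 2 ≤ N)
    (hqN : (q : ℝ) + 1 ≤ N) (ha : |a| ≤ c * (2 * (√ P * √ H)))
    (hd : d ≤ c * X) (he : e ≤ √ b * X) :
    -(1 / 2) * (2 * ((m + 2 : ℕ) : ℝ) * s ^ (2 * (m + 2) - 1) * P ^ q * a +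
      q * s ^ (2 * (m + 2)) * P ^ (q - 1) * b) +
      (1 / N) * ((2 * ((m + 2 : ℕ) : ℝ) * s ^ (2 * (m + 2) - 1) * P ^ (q + 1) * d +
        ((q + 1 : ℕ) : ℝ) * s ^ (2 * (m + 2)) * P ^ q * e) -
        s ^ (2 * (m + 2)) * P ^ (q + 1) * X ^ 2) ≤
      (19 / 32) * (s ^ (2 * (m + 2)) * P ^ q * H) +
        7 * (2 * (m + 2 : ℝ)) ^ 2 * c ^ 2 * (s ^ (2 * (m + 1)) * P ^ (q + 1)) := by
  have hx : 0 ≤ s ^ (m + 1) := by positivity
  have hy : 0 ≤ s ^ (m + 2) := by positivity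
  rw [S3F1Aux.pow1, S3F1Aux.pow2, S3F1Aux.pow3]
  have hM : 0 ≤ 2 * ((m + 2 : ℕ) : ℝ) := by positivity
  have hMe : 2 * (m + 2 : ℝ) = 2 * ((m + 2 : ℕ) : ℝ) := by push_cast; ring
  rw [hMe]
  generalize s ^ (m + 1) = x at *
  generalize s ^ (m + 2) = y at *
  generalize 2 * ((m + 2 : ℕ) : ℝ) = M at *
  rcases q with _ | q
  · have h1 := real_j1_zero hM hx hy hP hH hc hX hb' hN ha hd he
    simp only [pow_zero, zero_add, pow_one, Nat.cast_zero, Nat.cast_one, zero_mul, add_zero,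
      mul_one, one_mul]
    exact h1
  · have hbb : b ≤ 4 * (P * H) := by
      have h1 : b = √ b ^ 2 := (Real.sq_sqrt hb).symm
      rw [h1]
      have h2 : √ b ^ 2 ≤ (2 * (√ P * √ H)) ^ 2 :=
        pow_le_pow_left₀ (Real.sqrt_nonneg _) hb' 2
      have h3 : (2 * (√ P * √ H)) ^ 2 = 4 * (P * H) := by
        rw [mul_pow, mul_pow, Real.sq_sqrt hP, Real.sq_sqrt hH]; ring
      linarith
    have h1 := real_j1_pos (q := ((q + 1 : ℕ) : ℝ)) hM hx hy hP hH hc hb hbb hN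
      (by push_cast; linarith [Nat.cast_nonneg (α := ℝ) q]) hqN ha hd he
    have h2 : 0 ≤ P ^ q := by positivity
    have h3 := mul_le_mul_of_nonneg_left h1 h2
    have e1 : q + 1 - 1 = q := rfl
    rw [e1]
    have e2 : ((q + 1 + 1 : ℕ) : ℝ) = ((q + 1 : ℕ) : ℝ) + 1 := by push_cast; ring
    rw [e2]
    refine le_trans (le_of_eq ?_) (h3.trans (le_of_eq ?_))
    · ring
    · ring

end Pool.Agent.Lib.MP_df705a_gt.Kat
end
end
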