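import Pool.Agent.Lib.MP_df705a_gt.Mg.G059
import Pool.Agent.Lib.MP_df705a_gt.Coll.T.B1
import Pool.Agent.Lib.MP_df705a_gt.Mg.G017
import Pool.Agent.Lib.MP_df705a_gt.Mg.G012

section

/-!
# Spectral Ricci pinching, S3F2: real inequalities II
-/

open scoped Manifold ContDiff Topology
open Set Bundle Module Filter MeasureTheory

noncomputable section

set_option linter.unusedSectionVars false

namespace Pool.Agent.Lib.MP_df705a_gt.Pin

open Pool.Agent.Lib.MP_df705a_gt.Twist Pool.Agent.Lib.MP_df705a_gt.Perm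
open Pool.Agent.Lib.MP_df705a_gt.Coll (trM ipM)
open Pool.Agent.Lib.MP_df705a_gt.Coll.T (ddC mat pull RM SmF)

namespace S3F2Aux

/-- the term with the Laplacian -/
private theorem t1 {s P t l K : ℝ} (hs : 0 ≤ s) (hs1 : s ≤ 1) (hP : 0 ≤ P) (hK : 0 ≤ K)
    (ht : |t| ≤ 2) (hl : |l| ≤ K) : -(s ^ 2 * P * (t * l)) ≤ 2 * K * P := by
  have h1 : |t * l| ≤ 2 * K := by
    rw [abs_mul]
    exact mul_le_mul ht hl (abs_nonneg _) (by norm_num)
  have h2 : s ^ 2 * P ≤ P := by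
    have : s ^ 2 ≤ 1 := pow_le_one₀ hs hs1
    nlinarith
  have h3 : -(t * l) ≤ 2 * K := (neg_le_abs _).trans h1
  have h4 : 0 ≤ s ^ 2 * P := by positivity
  calc -(s ^ 2 * P * (t * l)) = s ^ 2 * P * (-(t * l)) := by ring
    _ ≤ s ^ 2 * P * (2 * K) := mul_le_mul_of_nonneg_left h3 h4
    _ ≤ P * (2 * K) := mul_le_mul_of_nonneg_right h2 (by linarith)
    _ = 2 * K * P := by ring

/-- the term with the derivative of the cut-off -/
private theorem t2 {s P t a c M n : ℝ} (hs : 0 ≤ s) (hP : 0 ≤ P) (hc : 0 ≤ c) (hM : 0 ≤ M)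
    (hn : 1 ≤ n) (ht : |t| ≤ 2) (ha : |a| ≤ c * √ P) :
    -(t * a * (M * s)) ≤ 1 / (4 * n) * (s ^ 2 * P) + 4 * n * M ^ 2 * c ^ 2 := by
  have h1 : |t * a| ≤ 2 * (c * √ P) := by
    rw [abs_mul]
    exact mul_le_mul ht ha (abs_nonneg _) (by norm_num)
  have h2 : -(t * a) ≤ 2 * (c * √ P) := (neg_le_abs _).trans h1
  have h3 : 0 ≤ M * s := mul_nonneg hM hs
  have hn0 : 0 < n := by linarith
  have h4 : √ P ^ 2 = P := Real.sq_sqrt hP
  have h5 : 1 / (4 * n) * (s ^ 2 * P) + 4 * n * M ^ 2 * c ^ 2 - 2 * (c * √ P) * (M * s) =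
      1 / (4 * n) * (s * √ P - 4 * n * M * c) ^ 2 := by
    rw [← h4]
    rw [h4]
    field_simp
    rw [← h4]
    rw [h4]
    have h6 : (s * √ P - 4 * n * M * c) ^ 2 =
        s ^ 2 * √ P ^ 2 - 8 * n * M * c * s * √ P + 16 * n ^ 2 * M ^ 2 * c ^ 2 := by ring
    rw [h6, h4]
    ring
  have h7 : 0 ≤ 1 / (4 * n) * (s * √ P - 4 * n * M * c) ^ 2 := by positivity
  calc -(t * a * (M * s)) = -(t * a) * (M * s) := by ring
    _ ≤ 2 * (c * √ P) * (M * s) := mul_le_mul_of_nonneg_right h2 h3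
    _ ≤ _ := by linarith

/-- the term with the Hessians -/
private theorem t3 {P H t b Q n : ℝ} (hP : 0 ≤ P) (hH : 0 ≤ H) (hQ : 0 ≤ Q)
    (hn : 1 ≤ n) (ht : |t| ≤ 2) (hb : |b| ≤ 2 * (√ P * √ H) * √ P) :
    -(t * b * Q) ≤ 1 / (4 * n) * P ^ 2 + 16 * n * Q ^ 2 * H := by
  have hb' : |b| ≤ 2 * P * √ H := by
    calc |b| ≤ 2 * (√ P * √ H) * √ P := hb
      _ = 2 * (√ P * √ P) * √ H := by ring
      _ = 2 * P * √ H := by rw [Real.mul_self_sqrt hP]
  have h1 : |t * b| ≤ 2 * (2 * P * √ H) := by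
    rw [abs_mul]
    exact mul_le_mul ht hb' (abs_nonneg _) (by norm_num)
  have h2 : -(t * b) ≤ 2 * (2 * P * √ H) := (neg_le_abs _).trans h1
  have hn0 : 0 < n := by linarith
  have h4 : √ H ^ 2 = H := Real.sq_sqrt hH
  have h5 : 1 / (4 * n) * P ^ 2 + 16 * n * Q ^ 2 * H - 2 * (2 * P * √ H) * Q =
      1 / (4 * n) * (P - 8 * n * Q * √ H) ^ 2 := by
    have h6 : (P - 8 * n * Q * √ H) ^ 2 =
        P ^ 2 - 16 * n * Q * P * √ H + 64 * n ^ 2 * Q ^ 2 * √ H ^ 2 := by ring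
    rw [h6, h4]
    field_simp
    ring
  have h7 : 0 ≤ 1 / (4 * n) * (P - 8 * n * Q * √ H) ^ 2 := by positivity
  calc -(t * b * Q) = -(t * b) * Q := by ring
    _ ≤ 2 * (2 * P * √ H) * Q := mul_le_mul_of_nonneg_right h2 hQ
    _ ≤ _ := by linarith

end S3F2Aux

/-- Real inequality for one index: `|t| ≤ 2` is the value of `f i`, `|l| ≤ K`. Only the terms with `a`:
`- t l s^M P^q - t M s^(M-1) P^q a ≤ 2 K s^M P^q + (1/(4n)) s^M P^(q+1) + 4 n M² c² s^(M-2) P^q`, and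
the last term `- t q s^M P^(q-1) b ≤ 4 q s^M P^q √H ≤ (1/(4n)) s^M P^(q+1) + 16 n q² s^M P^(q-1) H` for
`q ≥ 1`. -/
theorem real_i3 (m q : ℕ) {s P H t l a b c K n : ℝ} (hs : 0 ≤ s) (hs1 : s ≤ 1) (hP : 0 ≤ P)
    (hH : 0 ≤ H) (hc : 0 ≤ c) (hK : 0 ≤ K) (hn : 1 ≤ n) (ht : |t| ≤ 2) (hl : |l| ≤ K)
    (ha : |a| ≤ c * √ P) (hb : |b| ≤ 2 * (√ P * √ H) * √ P) :
    - (s ^ (2 * (m + 2)) * P ^ (q + 1) * t * l +
      t * (2 * ((m + 2 : ℕ) : ℝ) * s ^ (2 * (m + 2) - 1) * P ^ (q + 1) * a +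
        ((q + 1 : ℕ) : ℝ) * s ^ (2 * (m + 2)) * P ^ q * b)) ≤
      (1 / (2 * n)) * (s ^ (2 * (m + 2)) * P ^ (q + 2)) +
        (2 * K + 4 * n * (2 * (m + 2 : ℝ)) ^ 2 * c ^ 2) * (s ^ (2 * (m + 1)) * P ^ (q + 1)) +
        16 * n * (q + 1 : ℝ) ^ 2 * (s ^ (2 * (m + 2)) * P ^ q * H) := by
  have hn0 : 0 < n := by linarith
  have e1 : s ^ (2 * (m + 2)) = s ^ (2 * (m + 1)) * s ^ 2 := by ring
  have e2 : s ^ (2 * (m + 2) - 1) = s ^ (2 * (m + 1)) * s := by
    rw [show 2 * (m + 2) - 1 = 2 * (m + 1) + 1 by omega, pow_succ]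
  have e3 : ((m + 2 : ℕ) : ℝ) = (m : ℝ) + 2 := by push_cast; ring
  have e4 : ((q + 1 : ℕ) : ℝ) = (q : ℝ) + 1 := by push_cast; ring
  rw [e1, e2, e3, e4]
  have hA : 0 ≤ s ^ (2 * (m + 1)) * P ^ q := by positivity
  have h1 := S3F2Aux.t1 hs hs1 hP hK ht hl
  have h2 := S3F2Aux.t2 (M := 2 * ((m : ℝ) + 2)) hs hP hc (by positivity) hn ht ha
  have h3 := S3F2Aux.t3 (Q := (q : ℝ) + 1) hP hH (by positivity) hn ht hb
  have h2' := mul_le_mul_of_nonneg_left h2 hP
  have h3' := mul_le_mul_of_nonneg_left h3 (sq_nonneg s)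
  have h4 : -(s ^ 2 * P * (t * l)) + P * -(t * a * (2 * ((m : ℝ) + 2) * s)) +
      s ^ 2 * -(t * b * ((q : ℝ) + 1)) ≤
      1 / (2 * n) * (s ^ 2 * P ^ 2) + (2 * K + 4 * n * (2 * ((m : ℝ) + 2)) ^ 2 * c ^ 2) * P +
        16 * n * ((q : ℝ) + 1) ^ 2 * (s ^ 2 * H) := by
    have e5 : 1 / (2 * n) * (s ^ 2 * P ^ 2) = P * (1 / (4 * n) * (s ^ 2 * P)) +
        s ^ 2 * (1 / (4 * n) * P ^ 2) := by
      field_simp
      ring
    rw [e5]
    nlinarith [h1, h2', h3']
  have h5 := mul_le_mul_of_nonneg_left h4 hA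
  refine le_trans (le_of_eq ?_) (h5.trans (le_of_eq ?_))
  · ring
  · ring

/-- The same for the exponent `0` of `P`. -/
theorem real_i4 (m : ℕ) {s P t l a c K n : ℝ} (hs : 0 ≤ s) (hs1 : s ≤ 1) (hP : 0 ≤ P)
    (hc : 0 ≤ c) (hK : 0 ≤ K) (hn : 1 ≤ n) (ht : |t| ≤ 2) (hl : |l| ≤ K) (ha : |a| ≤ c * √ P) :
    - (s ^ (2 * (m + 2)) * t * l + t * (2 * ((m + 2 : ℕ) : ℝ) * s ^ (2 * (m + 2) - 1) * a)) ≤
      (1 / (2 * n)) * (s ^ (2 * (m + 2)) * P) +
        (2 * K + 4 * n * (2 * (m + 2 : ℝ)) ^ 2 * c ^ 2) * s ^ (2 * (m + 1)) := by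
  have hn0 : 0 < n := by linarith
  have e1 : s ^ (2 * (m + 2)) = s ^ (2 * (m + 1)) * s ^ 2 := by ring
  have e2 : s ^ (2 * (m + 2) - 1) = s ^ (2 * (m + 1)) * s := by
    rw [show 2 * (m + 2) - 1 = 2 * (m + 1) + 1 by omega, pow_succ]
  have e3 : ((m + 2 : ℕ) : ℝ) = (m : ℝ) + 2 := by push_cast; ring
  rw [e1, e2, e3]
  have hA : 0 ≤ s ^ (2 * (m + 1)) := by positivity
  have h1 := S3F2Aux.t1 (P := 1) hs hs1 zero_le_one hK ht hl
  have h2 := S3F2Aux.t2 (M := 2 * ((m : ℝ) + 2)) hs hP hc (by positivity) hn ht ha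
  have h6 : 1 / (4 * n) * (s ^ 2 * P) ≤ 1 / (2 * n) * (s ^ 2 * P) := by
    refine mul_le_mul_of_nonneg_right ?_ (by positivity)
    exact one_div_le_one_div_of_le (by positivity) (by linarith)
  have h4 : -(s ^ 2 * 1 * (t * l)) + -(t * a * (2 * ((m : ℝ) + 2) * s)) ≤
      1 / (2 * n) * (s ^ 2 * P) + (2 * K + 4 * n * (2 * ((m : ℝ) + 2)) ^ 2 * c ^ 2) := by
    linarith
  have h5 := mul_le_mul_of_nonneg_left h4 hA
  refine le_trans (le_of_eq ?_) (h5.trans (le_of_eq ?_))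
  · ring
  · ring

end Pool.Agent.Lib.MP_df705a_gt.Pin
end
end

section

/-!
# Spectral Ricci pinching, S3D2: two lemmas on matrices
-/

open scoped Manifold ContDiff Topology
open Set Bundle Module Filter MeasureTheory

noncomputable section

set_option linter.unusedSectionVars false

namespace Pool.Agent.Lib.MP_df705a_gt.Pin

open Pool.Agent.Lib.MP_df705a_gt.Twist Pool.Agent.Lib.MP_df705a_gt.Perm
open Pool.Agent.Lib.MP_df705a_gt.Coll (trM ipM)
open Pool.Agent.Lib.MP_df705a_gt.Coll.T (ddC mat pull RM SmF)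

variable {E : Type*} [NormedAddCommGroup E] [NormedSpace ℝ E] [FiniteDimensional ℝ E]
  {h : Curv.Coeff E}

/-- For a positive semidefinite matrix of size `n = m + 1` with entries of absolute value at most `p`:
the diagonal entries of the adjugate are nonnegative and at most `m! p^m`. Proof: they are the
determinants of the principal submatrices (`Matrix.adjugate_fin_succ_eq_det_submatrix`), positive
semidefinite (`Matrix.PosSemidef.submatrix`, `Matrix.PosSemidef.det_nonneg`), `Matrix.det_le`. -/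
theorem adjugate_diag {n : ℕ} {A : Matrix (Fin n) (Fin n) ℝ} (hA : A.PosSemidef) {p : ℝ}
    (hp : ∀ i j, |A i j| ≤ p) (i : Fin n) :
    0 ≤ A.adjugate i i ∧ A.adjugate i i ≤ (n - 1).factorial * p ^ (n - 1) := by
  cases n with
  | zero => exact i.elim0
  | succ m =>
    have h1 : A.adjugate i i = (A.submatrix i.succAbove i.succAbove).det := by
      rw [Matrix.adjugate_fin_succ_eq_det_submatrix, ← two_mul, pow_mul, neg_one_sq, one_pow,
        one_mul]
    rw [h1]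
    refine ⟨(hA.submatrix i.succAbove).det_nonneg, ?_⟩
    have h2 := Matrix.det_le (A := A.submatrix i.succAbove i.succAbove) (abv := AbsoluteValue.abs)
      (x := p) fun a b => hp _ _
    rw [Fintype.card_fin, nsmul_eq_mul] at h2
    rw [Nat.add_sub_cancel]
    exact (le_abs_self _).trans h2

namespace S3D2Aux

open scoped MatrixOrder in
theorem exists_factor {n : ℕ} {A : Matrix (Fin n) (Fin n) ℝ} (hA : A.PosSemidef) :
    ∃ X : Matrix (Fin n) (Fin n) ℝ, A = X.conjTranspose * X := by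
  obtain ⟨B, hB⟩ := CStarAlgebra.nonneg_iff_eq_star_mul_self.mp hA.nonneg
  exact ⟨B, hB⟩

theorem tr1 {n : ℕ} (X : Matrix (Fin n) (Fin n) ℝ) :
    (X.conjTranspose * X).trace = ∑ i, ∑ k, X i k ^ 2 := by
  rw [Matrix.trace_mul_comm]
  simp only [Matrix.trace, Matrix.diag_apply, Matrix.mul_apply, Matrix.conjTranspose_apply,
    star_trivial]
  exact Finset.sum_congr rfl fun i _ => Finset.sum_congr rfl fun k _ => (pow_two _).symm

theorem tr2 {n : ℕ} (X Y : Matrix (Fin n) (Fin n) ℝ) :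
    (X.conjTranspose * X * (Y.conjTranspose * Y)).trace =
      ∑ i, ∑ j, (∑ k, X i k * Y j k) ^ 2 := by
  have h1 : (X.conjTranspose * X * (Y.conjTranspose * Y)).trace =
      ((X * Y.conjTranspose).conjTranspose * (X * Y.conjTranspose)).trace := by
    rw [Matrix.conjTranspose_mul, Matrix.conjTranspose_conjTranspose,
      Matrix.trace_mul_comm]
    rw [Matrix.mul_assoc, Matrix.mul_assoc, Matrix.trace_mul_comm, Matrix.mul_assoc,
      Matrix.mul_assoc]
  rw [h1, tr1]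
  simp only [Matrix.mul_apply, Matrix.conjTranspose_apply, star_trivial]

end S3D2Aux

/-- `tr (A B) ≤ tr A tr B` for positive semidefinite matrices. Proof: `B ≤ (tr B) 1`; or: `A = Xᵀ X`,
`tr (X B Xᵀ) = ∑ (rows x of X) x B xᵀ ≤ ∑ |x|² tr B` since `x B xᵀ ≤ |x|² tr B` (write `B = Yᵀ Y`,
Cauchy-Schwarz). -/
theorem trace_mul_le {n : ℕ} {A B : Matrix (Fin n) (Fin n) ℝ} (hA : A.PosSemidef)
    (hB : B.PosSemidef) : (A * B).trace ≤ A.trace * B.trace := by
  obtain ⟨X, rfl⟩ := S3D2Aux.exists_factor hA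
  obtain ⟨Y, rfl⟩ := S3D2Aux.exists_factor hB
  rw [S3D2Aux.tr2, S3D2Aux.tr1, S3D2Aux.tr1, Finset.sum_mul_sum]
  refine Finset.sum_le_sum fun i _ => Finset.sum_le_sum fun j _ => ?_
  exact Finset.sum_mul_sq_le_sq_mul_sq _ _ _

end Pool.Agent.Lib.MP_df705a_gt.Pin
end
end

section

/-!
# Spectral Ricci pinching, S3D4: Hessians and determinants
-/

open scoped Manifold ContDiff Topology
open Set Bundle Module Filter MeasureTheory

noncomputable section

set_option linter.unusedSectionVars false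

namespace Pool.Agent.Lib.MP_df705a_gt.Pin

open Pool.Agent.Lib.MP_df705a_gt.Twist Pool.Agent.Lib.MP_df705a_gt.Perm
open Pool.Agent.Lib.MP_df705a_gt.Coll (trM ipM)
open Pool.Agent.Lib.MP_df705a_gt.Coll.T (ddC mat pull RM SmF)

variable {E : Type*} [NormedAddCommGroup E] [NormedSpace ℝ E] [FiniteDimensional ℝ E]
  {h : Curv.Coeff E} {f : Fin (finrank ℝ E) → E → ℝ} {x : E}

/-- `⟨dw, d⟨du, dv⟩⟩ = Hess u (∇v, ∇w) + Hess v (∇u, ∇w)`. Proof: three times `Coll.T.hess_grdC`: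
`ipM (Hess u) (dd v w) = (1/2) (⟨v, ⟨u, w⟩⟩ + ⟨w, ⟨u, v⟩⟩ - ⟨u, ⟨v, w⟩⟩)`,
`ipM (Hess v) (dd u w) = (1/2) (⟨u, ⟨v, w⟩⟩ + ⟨w, ⟨v, u⟩⟩ - ⟨v, ⟨u, w⟩⟩)`; add (`gradC_comm'` as
functions). -/
theorem gradC_grad (hh : Curv.IsMetric h) {u v w : E → ℝ} (hu : ContDiff ℝ ∞ u)
    (hv : ContDiff ℝ ∞ v) (hw : ContDiff ℝ ∞ w) (x : E) :
    gradC h (gradC h u v) w x = ipM (h x) (Curv.covHess h u x) (ddC v w x) +
      ipM (h x) (Curv.covHess h v x) (ddC u w x) := by
  have h1 := Coll.T.hess_grdC (rm_of hh x) (smF_of hu x) (smF_of hv x) (smF_of hw x)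
  have h2 := Coll.T.hess_grdC (rm_of hh x) (smF_of hv x) (smF_of hu x) (smF_of hw x)
  have h3 : gradC h v u = gradC h u v := funext fun y => gradC_comm' hh v u y
  rw [h1, h2, h3, gradC_comm' hh (gradC h u v) w x]
  ring

namespace S3D4Aux

theorem ipM_comb {n : ℕ} {ι : Type*} (s : Finset ι) (H A : Matrix (Fin n) (Fin n) ℝ) (c : ι → ℝ)
    (T : ι → Matrix (Fin n) (Fin n) ℝ) :
    ipM H A (∑ j ∈ s, c j • T j) = ∑ j ∈ s, c j * ipM H A (T j) := by
  let L : Matrix (Fin n) (Fin n) ℝ →ₗ[ℝ] ℝ :=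
    { toFun := fun T => ipM H A T
      map_add' := by
        intro T U
        simp only [ipM, Matrix.add_apply, mul_add, Finset.sum_add_distrib]
      map_smul' := by
        intro c T
        simp only [ipM, Matrix.smul_apply, smul_eq_mul, RingHom.id_apply, Finset.mul_sum]
        refine Finset.sum_congr rfl fun i _ => Finset.sum_congr rfl fun j _ =>
          Finset.sum_congr rfl fun a _ => Finset.sum_congr rfl fun b _ => ?_
        ring }
  have h1 : L (∑ j ∈ s, c j • T j) = ∑ j ∈ s, c j * L (T j) := by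
    rw [map_sum]
    refine Finset.sum_congr rfl fun j _ => ?_
    rw [map_smul, smul_eq_mul]
  exact h1

theorem pd_comb (hf : ∀ i, ContDiff ℝ ∞ (f i)) (c : Fin (finrank ℝ E) → ℝ)
    (a : Fin (finrank ℝ E)) :
    Curv.pd a (fun y => ∑ j, c j * f j y) x = ∑ j, c j * Curv.pd a (f j) x := by
  have hd : ∀ j, DifferentiableAt ℝ (f j) x := fun j => ((hf j).differentiable (by simp)) x
  have h1 : HasFDerivAt (fun y => ∑ j, c j * f j y) (∑ j, c j • fderiv ℝ (f j) x) x :=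
    HasFDerivAt.fun_sum fun j _ => (hd j).hasFDerivAt.const_mul (c j)
  unfold Curv.pd
  rw [h1.fderiv, sum_apply]
  rfl

theorem ddC_comb (hf : ∀ i, ContDiff ℝ ∞ (f i)) (c : Fin (finrank ℝ E) → ℝ) (w : E → ℝ) :
    ddC (fun y => ∑ j, c j * f j y) w x = ∑ j, c j • ddC (f j) w x := by
  ext a b
  rw [Matrix.sum_apply]
  simp only [ddC, Matrix.smul_apply, smul_eq_mul, pd_comb hf]
  rw [Finset.sum_mul, Finset.sum_mul, ← Finset.sum_add_distrib, Finset.sum_div]
  refine Finset.sum_congr rfl fun j _ => ?_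
  ring

theorem gradC_comb (hf : ∀ i, ContDiff ℝ ∞ (f i)) (c : Fin (finrank ℝ E) → ℝ) (w : E → ℝ) :
    gradC h (fun y => ∑ j, c j * f j y) w x = ∑ j, c j * gradC h (f j) w x := by
  let L : (Fin (finrank ℝ E) → ℝ) →ₗ[ℝ] ℝ :=
    { toFun := fun p => ∑ a, ∑ b, (h x)⁻¹ a b * (p a * Curv.pd b w x)
      map_add' := by
        intro p q
        simp only [Pi.add_apply, add_mul, mul_add, Finset.sum_add_distrib]
      map_smul' := by
        intro c p
        simp only [Pi.smul_apply, smul_eq_mul, RingHom.id_apply, Finset.mul_sum]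
        refine Finset.sum_congr rfl fun a _ => Finset.sum_congr rfl fun b _ => ?_
        ring }
  have h1 : L (∑ j, c j • fun a => Curv.pd a (f j) x) =
      ∑ j, c j * L (fun a => Curv.pd a (f j) x) := by
    rw [map_sum]
    refine Finset.sum_congr rfl fun j _ => ?_
    rw [map_smul, smul_eq_mul]
  have h2 : (fun a => Curv.pd a (fun y => ∑ j, c j * f j y) x) =
      ∑ j, c j • fun a => Curv.pd a (f j) x := by
    funext a
    rw [pd_comb hf, Finset.sum_apply]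
    rfl
  have h3 : gradC h (fun y => ∑ j, c j * f j y) w x =
      L (fun a => Curv.pd a (fun y => ∑ j, c j * f j y) x) := rfl
  rw [h3, h2, h1]
  rfl

theorem gradC_comb_self (hh : Curv.IsMetric h) (hf : ∀ i, ContDiff ℝ ∞ (f i))
    (c : Fin (finrank ℝ E) → ℝ) :
    gradC h (fun y => ∑ j, c j * f j y) (fun y => ∑ j, c j * f j y) x =
      ∑ i, ∑ j, c i * c j * Gm h f x i j := by
  rw [gradC_comb hf]
  refine Finset.sum_congr rfl fun i _ => ?_
  rw [gradC_comm' hh, gradC_comb hf, Finset.mul_sum]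
  refine Finset.sum_congr rfl fun j _ => ?_
  rw [gradC_comm' hh]
  simp only [Gm, Matrix.of_apply]
  ring

end S3D4Aux

/-- For numbers `c j` and functions `f j` let `W = ∑ c j f j`; `ddC W w = ∑ c j ddC (f j) w` (at the point
`x`, constant coefficients), and `|ddC W w|² ≤ |dW|² |dw|²`, `|dW|² = ∑ c i c j ⟨d f i, d f j⟩`: so
`|∑ j, c j * ipM A (ddC (f j) w x)| ≤ √ (ipM A A) √ (∑ c i c j Gm i j) √ |dw|²`. -/
theorem abs_sum_ipM_le (hh : Curv.IsMetric h) (hf : ∀ i, ContDiff ℝ ∞ (f i)) {w : E → ℝ}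
    (hw : ContDiff ℝ ∞ w) (x : E) (A : Matrix (Fin (finrank ℝ E)) (Fin (finrank ℝ E)) ℝ)
    (c : Fin (finrank ℝ E) → ℝ) :
    |∑ j, c j * ipM (h x) A (ddC (f j) w x)| ≤
      √ (ipM (h x) A A) * √ (∑ i, ∑ j, c i * c j * Gm h f x i j) * √ (gradC h w w x) := by
  have h1 : ∑ j, c j * ipM (h x) A (ddC (f j) w x) =
      ipM (h x) A (ddC (fun y => ∑ j, c j * f j y) w x) := by
    rw [S3D4Aux.ddC_comb hf, S3D4Aux.ipM_comb]
  have h2 := ipM_sq_le (hh.2 x) A (ddC (fun y => ∑ j, c j * f j y) w x)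
  have h3 := ipM_ddC_self_le hh (fun y => ∑ j, c j * f j y) w x
  have h4 := ipM_self_nonneg (hh.2 x) A
  have h5 : 0 ≤ gradC h (fun y => ∑ j, c j * f j y) (fun y => ∑ j, c j * f j y) x :=
    G4.gradC_nonneg (hh.2 x)
  rw [S3D4Aux.gradC_comb_self hh hf] at h3 h5
  rw [h1, ← Real.sqrt_mul h4, ← Real.sqrt_mul (mul_nonneg h4 h5)]
  apply Real.abs_le_sqrt
  calc ipM (h x) A (ddC (fun y => ∑ j, c j * f j y) w x) ^ 2
      ≤ ipM (h x) A A * ipM (h x) (ddC (fun y => ∑ j, c j * f j y) w x)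
          (ddC (fun y => ∑ j, c j * f j y) w x) := h2
    _ ≤ ipM (h x) A A * ((∑ i, ∑ j, c i * c j * Gm h f x i j) * gradC h w w x) :=
        mul_le_mul_of_nonneg_left h3 h4
    _ = ipM (h x) A A * (∑ i, ∑ j, c i * c j * Gm h f x i j) * gradC h w w x := by ring

/-- With `c j = adj_{ji}` for fixed `i`: `∑ c k c j Gm k j = (adj Gm adjᵀ)_{ii} = G adj_{ii}`
(`Gm` and its adjugate are symmetric; `Matrix.adjugate_mul`). -/
theorem sum_adj_eq (hh : Curv.IsMetric h) (f : Fin (finrank ℝ E) → E → ℝ) (x : E)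
    (i : Fin (finrank ℝ E)) :
    ∑ k, ∑ j, (Gm h f x).adjugate k i * (Gm h f x).adjugate j i * Gm h f x k j =
      GG h f x * (Gm h f x).adjugate i i := by
  have h1 : ∀ k, ∑ j, (Gm h f x).adjugate k i * (Gm h f x).adjugate j i * Gm h f x k j =
      (Gm h f x).adjugate k i * (Gm h f x * (Gm h f x).adjugate) k i := by
    intro k
    rw [Matrix.mul_apply, Finset.mul_sum]
    refine Finset.sum_congr rfl fun j _ => ?_
    ring
  rw [Finset.sum_congr rfl fun k _ => h1 k, Matrix.mul_adjugate]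
  rw [Finset.sum_eq_single i]
  · simp only [Matrix.smul_apply, Matrix.one_apply_eq, smul_eq_mul, mul_one]
    unfold GG
    ring
  · intro k _ hk
    rw [Matrix.smul_apply, Matrix.one_apply_ne hk, smul_zero, mul_zero]
  · intro hi
    exact absurd (Finset.mem_univ i) hi

end Pool.Agent.Lib.MP_df705a_gt.Pin
end
end

section

/-!
# Spectral Ricci pinching, S3I4: Cauchy-Schwarz
-/

open scoped Manifold ContDiff Topology
open Set Bundle Module Filter MeasureTheory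

noncomputable section

set_option linter.unusedSectionVars false

namespace Pool.Agent.Lib.MP_df705a_gt.Pin

open Pool.Agent.Lib.MP_df705a_gt.Twist Pool.Agent.Lib.MP_df705a_gt.Perm
open Pool.Agent.Lib.MP_df705a_gt.Coll (trM ipM)
open Pool.Agent.Lib.MP_df705a_gt.Coll.T (ddC mat pull RM SmF)

variable {E : Type*} [NormedAddCommGroup E] [NormedSpace ℝ E] [FiniteDimensional ℝ E]
  {h : Curv.Coeff E} {f : Fin (finrank ℝ E) → E → ℝ}
  [MeasurableSpace E] [BorelSpace E]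

/-- Cauchy-Schwarz: for the finite measure `(vol h).restrict B` and the continuous function `√G`:
`(∫ √G)² ≤ ∫ G * vol B` (`integral_mul_le_Lp_mul_Lq_of_nonneg`, or integrate
`2 t √G ≤ G + t²`... ); `ofReal_integral_eq_lintegral_ofReal`. -/
theorem lintegral_sqrt_GG_le (hh : Curv.IsMetric h) (hf : ∀ i, ContDiff ℝ ∞ (f i)) {B : Set E}
    (hB : IsCompact B) :
    ∫⁻ x in B, ENNReal.ofReal (√ (GG h f x)) ∂(vol h) ≤
      ENNReal.ofReal (√ (∫ x in B, GG h f x ∂(vol h)) * √ ((vol h B).toReal)) := by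
  have hfin : IsFiniteMeasureOnCompacts (vol h) := ⟨fun K hK => vol_lt_top_of_isCompact hh hK⟩
  have hcont : Continuous (GG h f) := (contDiff_GG hh hf).continuous
  have hint : IntegrableOn (GG h f) B (vol h) := hcont.continuousOn.integrableOn_compact hB
  have hm : Measurable fun x : E => ENNReal.ofReal (√ (GG h f x)) :=
    ENNReal.measurable_ofReal.comp (Real.continuous_sqrt.measurable.comp hcont.measurable)
  have hpq : (2 : ℝ).HolderConjugate 2 := Real.HolderConjugate.two_two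
  have key := ENNReal.lintegral_mul_le_Lp_mul_Lq ((vol h).restrict B) hpq
    (f := fun x => ENNReal.ofReal (√ (GG h f x))) (g := fun _ => 1) hm.aemeasurable
    aemeasurable_const
  have e1 : ∫⁻ x in B, ENNReal.ofReal (√ (GG h f x)) ^ (2 : ℝ) ∂(vol h) =
      ENNReal.ofReal (∫ x in B, GG h f x ∂(vol h)) := by
    rw [ofReal_integral_eq_lintegral_ofReal hint (ae_of_all _ fun x => GG_nonneg hh f x)]
    refine lintegral_congr fun x => ?_
    rw [ENNReal.ofReal_rpow_of_nonneg (Real.sqrt_nonneg _) (by norm_num), Real.rpow_two,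
      Real.sq_sqrt (GG_nonneg hh f x)]
  have e2 : ∫⁻ _ in B, (1 : ENNReal) ^ (2 : ℝ) ∂(vol h) = vol h B := by
    simp
  have e3 : vol h B = ENNReal.ofReal (vol h B).toReal :=
    (ENNReal.ofReal_toReal (vol_lt_top_of_isCompact hh hB).ne).symm
  have hI : 0 ≤ ∫ x in B, GG h f x ∂(vol h) :=
    integral_nonneg fun x => GG_nonneg hh f x
  rw [e1, e2, e3, ENNReal.ofReal_rpow_of_nonneg hI (by norm_num),
    ENNReal.ofReal_rpow_of_nonneg ENNReal.toReal_nonneg (by norm_num),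
    ← ENNReal.ofReal_mul (Real.rpow_nonneg hI _), ← Real.sqrt_eq_rpow, ← Real.sqrt_eq_rpow] at key
  simpa using key

end Pool.Agent.Lib.MP_df705a_gt.Pin
end
end
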