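import Pool.Agent.Lib.MP_df705a_gt.Mg.G063
import Pool.Agent.Lib.MP_df705a_gt.Mg.G003
import Pool.Agent.Lib.MP_df705a_gt.Mg.G017
import Pool.Agent.Lib.MP_df705a_gt.Mg.G018

section

/-!
# Lower bounds of the Ricci curvature in the sense of Kato: the inequality of Riccati
-/

open scoped Manifold ContDiff Topology
open Set Bundle Module Filter MeasureTheory

noncomputable section

set_option linter.unusedSectionVars false

namespace Pool.Agent.Lib.MP_df705a_gt.Kat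

open Pool.Agent.Lib.MP_df705a_gt.Twist Pool.Agent.Lib.MP_df705a_gt.Perm
open Pool.Agent.Lib.MP_df705a_gt.Pin Pool.Agent.Lib.MP_df705a_gt.Pin.A
open Pool.Agent.Lib.MP_df705a_gt.Coll (trM ipM)
open Pool.Agent.Lib.MP_df705a_gt.Coll.T (ddC mat pull RM SmF)

/-- The Hessian of a function `q` with `|dq| = ω` and trace `y`: `(y - e / ω)² ≤ (n - 1) (|Hess q|² -
2 |dω|² + e² / ω²)` where `e = ⟨dq, dω⟩`. -/
theorem alg {n : ℕ} (hn : 0 < n) {G S D D₁ : Matrix (Fin n) (Fin n) ℝ} (hG : G.PosDef)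
    {w e g : ℝ} (hw : 0 < w) (h1 : ipM G S D = w * e) (h2 : ipM G S D₁ = w * g)
    (h3 : ipM G D D = w ^ 4) (h4 : ipM G D₁ D = w ^ 2 * e)
    (h5 : ipM G D₁ D₁ = (w ^ 2 * g + e ^ 2) / 2) (h6 : trM G D = w ^ 2) (h7 : trM G D₁ = e) :
    (trM G S - e / w) ^ 2 ≤ ((n : ℝ) - 1) * (ipM G S S - 2 * g + e ^ 2 / w ^ 2) := by
  have hsym : ∀ i j, G i j = G j i := by
    intro i j
    have h5 := hG.1.apply i j
    simpa using h5.symm
  have hw0 : w ≠ 0 := hw.ne'
  have c1 : ipM G D S = w * e := by rw [Coll.T.ipM_comm hsym, h1]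
  have c2 : ipM G D₁ S = w * g := by rw [Coll.T.ipM_comm hsym, h2]
  have c4 : ipM G D D₁ = w ^ 2 * e := by rw [Coll.T.ipM_comm hsym, h4]
  obtain ⟨T, hT⟩ : ∃ T, T = S + ((-(2 / w)) • D₁ + (e / w ^ 3) • D) := ⟨_, rfl⟩
  have eT : ∀ X, ipM G T X = ipM G S X + (-(2 / w) * ipM G D₁ X + e / w ^ 3 * ipM G D X) := by
    intro X
    rw [hT, Coll.T.ipM_add_left, Coll.T.ipM_add_left, Coll.T.ipM_smul_left,
      Coll.T.ipM_smul_left]
  have t1 : ipM G T D = 0 := by
    rw [eT, h1, h4, h3]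
    field_simp
    ring
  have t2 : ipM G T S = ipM G S S - 2 * g + e ^ 2 / w ^ 2 := by
    rw [eT, c2, c1]
    field_simp
    ring
  have t3 : ipM G T D₁ = e ^ 2 / w ^ 3 * (w ^ 2) - (w ^ 2 * g + e ^ 2) / w + w * g := by
    rw [eT, h2, h5, c4]
    field_simp
    ring
  have t4 : ipM G T T = ipM G S S - 2 * g + e ^ 2 / w ^ 2 := by
    rw [Coll.T.ipM_comm hsym] at t1 t2 t3
    have : ipM G T T = ipM G S T + (-(2 / w) * ipM G D₁ T + e / w ^ 3 * ipM G D T) := eT T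
    rw [this, t1, t2, t3]
    field_simp
    ring
  have t5 : trM G T = trM G S - e / w := by
    rw [hT, Coll.T.trM_add, Coll.T.trM_add, Coll.T.trM_smul, Coll.T.trM_smul, h6, h7]
    field_simp
    ring
  have hk := sq_trM_le_of_kernel hn hG (S := T) (D := (w ^ 2)⁻¹ • D) ?_ ?_ ?_ ?_
  · rwa [t4, t5] at hk
  · rw [Coll.T.ipM_comm hsym, Coll.T.ipM_smul_left, Coll.T.ipM_comm hsym, t1, mul_zero]
  · rw [Coll.T.ipM_smul_left, Coll.T.ipM_comm hsym, t1, mul_zero]
  · rw [Coll.T.ipM_smul_left, Coll.T.ipM_comm hsym, Coll.T.ipM_smul_left, h3]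
    field_simp
  · rw [Coll.T.trM_smul, h6]
    field_simp

/-- The pairings of the symmetric products of two covectors. -/
theorem ipM_sy {n : ℕ} {A : Matrix (Fin n) (Fin n) ℝ} (hA : ∀ i j, A⁻¹ i j = A⁻¹ j i)
    (α β : Fin n → ℝ) {a b c : ℝ} (ha : ∑ i, ∑ j, A⁻¹ i j * (α i * α j) = a)
    (hb : ∑ i, ∑ j, A⁻¹ i j * (α i * β j) = b) (hc : ∑ i, ∑ j, A⁻¹ i j * (β i * β j) = c) :
    ipM A (fun i j => (α i * α j + α j * α i) / 2) (fun i j => (α i * α j + α j * α i) / 2) = a ^ 2 ∧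
    ipM A (fun i j => (α i * β j + α j * β i) / 2) (fun i j => (α i * α j + α j * α i) / 2) = a * b ∧
    ipM A (fun i j => (α i * β j + α j * β i) / 2) (fun i j => (α i * β j + α j * β i) / 2) =
      (a * c + b ^ 2) / 2 := by
  have hb' : ∑ i, ∑ j, A⁻¹ i j * (β i * α j) = b := by
    rw [← hb, Finset.sum_comm]
    refine Finset.sum_congr rfl fun i _ => Finset.sum_congr rfl fun j _ => ?_
    rw [hA j i]
    ring
  have key : ∀ α β γ δ : Fin n → ℝ,
      ∑ i, ∑ j, ∑ a, ∑ b, A⁻¹ i a * A⁻¹ j b * ((α i * β j) * (γ a * δ b)) =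
      (∑ i, ∑ a, A⁻¹ i a * (α i * γ a)) * ∑ j, ∑ b, A⁻¹ j b * (β j * δ b) := by
    intro α β γ δ
    rw [Finset.sum_mul_sum]
    refine Finset.sum_congr rfl fun i _ => Finset.sum_congr rfl fun j _ => ?_
    rw [Finset.sum_mul_sum]
    refine Finset.sum_congr rfl fun a _ => Finset.sum_congr rfl fun b _ => ?_
    ring
  refine ⟨?_, ?_, ?_⟩
  · have e5 : ipM A (fun i j => (α i * α j + α j * α i) / 2)
        (fun i j => (α i * α j + α j * α i) / 2) =
        ∑ i, ∑ j, ∑ a, ∑ b, A⁻¹ i a * A⁻¹ j b * ((α i * α j) * (α a * α b)) := by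
      unfold ipM
      refine Finset.sum_congr rfl fun i _ => Finset.sum_congr rfl fun j _ =>
        Finset.sum_congr rfl fun a _ => Finset.sum_congr rfl fun b _ => ?_
      ring
    rw [e5, key, ha]
    ring
  · have e5 : ipM A (fun i j => (α i * β j + α j * β i) / 2)
        (fun i j => (α i * α j + α j * α i) / 2) =
        (1 / 2) * ((∑ i, ∑ j, ∑ a, ∑ b, A⁻¹ i a * A⁻¹ j b * ((α i * β j) * (α a * α b))) +
        ∑ i, ∑ j, ∑ a, ∑ b, A⁻¹ i a * A⁻¹ j b * ((β i * α j) * (α a * α b))) := by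
      simp only [Finset.mul_sum, ← Finset.sum_add_distrib]
      unfold ipM
      refine Finset.sum_congr rfl fun i _ => Finset.sum_congr rfl fun j _ =>
        Finset.sum_congr rfl fun a _ => Finset.sum_congr rfl fun b _ => ?_
      ring
    rw [e5, key, key, ha, hb']
    ring
  · have e5 : ipM A (fun i j => (α i * β j + α j * β i) / 2)
        (fun i j => (α i * β j + α j * β i) / 2) =
        (1 / 4) * ((∑ i, ∑ j, ∑ a, ∑ b, A⁻¹ i a * A⁻¹ j b * ((α i * β j) * (α a * β b))) +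
        (∑ i, ∑ j, ∑ a, ∑ b, A⁻¹ i a * A⁻¹ j b * ((α i * β j) * (β a * α b))) +
        (∑ i, ∑ j, ∑ a, ∑ b, A⁻¹ i a * A⁻¹ j b * ((β i * α j) * (α a * β b))) +
        ∑ i, ∑ j, ∑ a, ∑ b, A⁻¹ i a * A⁻¹ j b * ((β i * α j) * (β a * α b))) := by
      simp only [Finset.mul_sum, ← Finset.sum_add_distrib]
      unfold ipM
      refine Finset.sum_congr rfl fun i _ => Finset.sum_congr rfl fun j _ =>
        Finset.sum_congr rfl fun a _ => Finset.sum_congr rfl fun b _ => ?_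
      ring
    rw [e5, key, key, key, key, ha, hb, hb', hc]
    ring

end Pool.Agent.Lib.MP_df705a_gt.Kat
end
end

section

/-!
# Lower bounds of the Ricci curvature in the sense of Kato: local estimates, definitions
-/

open scoped Manifold ContDiff Topology
open Set Bundle Module Filter MeasureTheory

noncomputable section

set_option linter.unusedSectionVars false

namespace Pool.Agent.Lib.MP_df705a_gt.Kat

open Pool.Agent.Lib.MP_df705a_gt.Twist Pool.Agent.Lib.MP_df705a_gt.Perm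
open Pool.Agent.Lib.MP_df705a_gt.Pin
open Pool.Agent.Lib.MP_df705a_gt.Coll (trM ipM)
open Pool.Agent.Lib.MP_df705a_gt.Coll.T (ddC mat pull RM SmF)

variable {E : Type*} [NormedAddCommGroup E] [NormedSpace ℝ E] [FiniteDimensional ℝ E]
  {h : Curv.Coeff E} {f : Fin (finrank ℝ E) → E → ℝ} {ψ W : E → ℝ} {K c : ℝ} {x : E}

/-- The assumptions of the local estimates; `ψ` is a cutoff function. -/
structure Loc2 (h : Curv.Coeff E) (f : Fin (finrank ℝ E) → E → ℝ) (ψ W : E → ℝ) (K c : ℝ) :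
    Prop where
  met : Curv.IsMetric h
  sm : ∀ i, ContDiff ℝ ∞ (f i)
  psm : ContDiff ℝ ∞ ψ
  cpt : HasCompactSupport ψ
  nonneg : ∀ x, 0 ≤ ψ x
  le_one : ∀ x, ψ x ≤ 1
  grad : ∀ x, gradC h ψ ψ x ≤ c ^ 2
  K0 : 0 ≤ K
  c0 : 0 ≤ c
  wsm : ContDiff ℝ ∞ W
  wpos : ∀ x, 0 < W x
  good : ∀ x, ψ x ≠ 0 → Gd h W 1 x
  two : ∀ x, ψ x ≠ 0 → ∀ i, |f i x| ≤ 2
  lap : ∀ x, ψ x ≠ 0 → ∀ i, |lapC h (f i) x| ≤ K

/-- `R + τ P`. -/
def RT (h : Curv.Coeff E) (W : E → ℝ) (f : Fin (finrank ℝ E) → E → ℝ) (x : E) : ℝ :=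
  RR h f x + ta h W 1 x * PP h f x

/-- `∫ ψ^(2 m) P^q (H + (R + τ P))`. -/
def bI2 [MeasurableSpace E] [BorelSpace E] (h : Curv.Coeff E) (f : Fin (finrank ℝ E) → E → ℝ)
    (ψ W : E → ℝ) (m q : ℕ) : ℝ :=
  ∫ x, ψ x ^ (2 * m) * PP h f x ^ q * (HH h f x + RT h W f x) ∂(vol h)

theorem continuous_ta (hh : Curv.IsMetric h) (hW : ContDiff ℝ ∞ W) (hW0 : ∀ x, 0 < W x) (κ : ℝ) :
    Continuous (ta h W κ) := by
  unfold ta
  rcases Nat.eq_zero_or_pos (finrank ℝ E) with h0 | h0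
  · rw [h0]
    simp only [Nat.cast_zero, zero_mul, div_zero, sub_zero]
    exact continuous_const
  · have h0' : (0 : ℝ) < finrank ℝ E := by exact_mod_cast h0
    exact continuous_const.sub ((contDiff_lapC hh hW).continuous.div
      (continuous_const.mul hW.continuous) fun x => (mul_pos h0' (hW0 x)).ne')

theorem continuous_RT (hh : Curv.IsMetric h) (hf : ∀ i, ContDiff ℝ ∞ (f i))
    (hW : ContDiff ℝ ∞ W) (hW0 : ∀ x, 0 < W x) : Continuous (RT h W f) :=
  (continuous_RR hh hf).add ((continuous_ta hh hW hW0 1).mul (contDiff_PP hh hf).continuous)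

theorem RT_nonneg (hh : Curv.IsMetric h) (hr : Gd h W 1 x) : 0 ≤ RT h W f x := by
  have h1 : RT h W f x = ∑ i, ipM (h x) (ric h x + (ta h W 1 x) • h x) (ddC (f i) (f i) x) := by
    unfold RT RR PP
    rw [Finset.mul_sum, ← Finset.sum_add_distrib]
    refine Finset.sum_congr rfl fun i _ => ?_
    rw [Coll.T.ipM_add_left, Coll.T.ipM_smul_left, ipM_self_ddC hh]
  rw [h1]
  exact Finset.sum_nonneg fun i _ => ipM_posSemidef_nonneg hh hr.2 (f i) x

end Pool.Agent.Lib.MP_df705a_gt.Kat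
end
end

section

/-!
# Kato bounds, L1: weights
-/

open scoped Manifold ContDiff Topology
open Set Bundle Module Filter MeasureTheory

noncomputable section

set_option linter.unusedSectionVars false

namespace Pool.Agent.Lib.MP_df705a_gt.Kat

open Pool.Agent.Lib.MP_df705a_gt.Pin

open Pool.Agent.Lib.MP_df705a_gt.Twist Pool.Agent.Lib.MP_df705a_gt.Perm
open Pool.Agent.Lib.MP_df705a_gt.Coll (trM ipM)
open Pool.Agent.Lib.MP_df705a_gt.Coll.T (ddC mat pull RM SmF)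

variable {E : Type*} [NormedAddCommGroup E] [NormedSpace ℝ E] [FiniteDimensional ℝ E]
  {h : Curv.Coeff E} {v : E → ℝ} {f : Fin (finrank ℝ E) → E → ℝ} {ψ W : E → ℝ} {K c : ℝ} {x : E}
  [MeasurableSpace E] [BorelSpace E]

theorem Loc2.contDiff_weight (L : Loc2 h f ψ W K c) (m q : ℕ) :
    ContDiff ℝ ∞ fun x => ψ x ^ (2 * m) * PP h f x ^ q := by
  exact (L.psm.pow _).mul ((contDiff_PP L.met L.sm).pow _)

theorem Loc2.hasCompactSupport_weight (L : Loc2 h f ψ W K c) {m : ℕ} (hm : 1 ≤ m) (q : ℕ) :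
    HasCompactSupport fun x => ψ x ^ (2 * m) * PP h f x ^ q := by
  have h1 : HasCompactSupport (fun x => ψ x ^ (2 * m)) := by
    refine HasCompactSupport.comp_left (g := fun t : ℝ => t ^ (2 * m)) L.cpt ?_
    have : 2 * m ≠ 0 := by omega
    simp [this]
  exact h1.mul_right

/-- `gradC_mul_left`, `gradC_pow_left`. -/
theorem Loc2.gradC_weight (L : Loc2 h f ψ W K c) (m q : ℕ) (w : E → ℝ) (x : E) :
    gradC h (fun x => ψ x ^ (2 * m) * PP h f x ^ q) w x =
      2 * m * ψ x ^ (2 * m - 1) * PP h f x ^ q * gradC h ψ w x +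
        q * ψ x ^ (2 * m) * PP h f x ^ (q - 1) * gradC h (PP h f) w x := by
  have h0 : DifferentiableAt ℝ ψ x := (L.psm.differentiable (by simp)).differentiableAt
  have h0' : DifferentiableAt ℝ (PP h f) x :=
    ((contDiff_PP L.met L.sm).differentiable (by simp)).differentiableAt
  have h1 : DifferentiableAt ℝ (fun y => ψ y ^ (2 * m)) x := h0.pow _
  have h2 : DifferentiableAt ℝ (fun y => PP h f y ^ q) x := h0'.pow _
  rw [gradC_mul_left L.met h1 h2 w, gradC_pow_left L.met h0, gradC_pow_left L.met h0']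
  push_cast
  ring

/-- For `1 ≤ m ≤ m'`: `0 ≤ ψ ≤ 1`. -/
theorem Loc2.aI_anti (L : Loc2 h f ψ W K c) {m m' : ℕ} (hm : 1 ≤ m) (hmm : m ≤ m') (q : ℕ) :
    aI h f ψ m' q ≤ aI h f ψ m q := by
  have hi : ∀ k : ℕ, 1 ≤ k → Integrable (fun x => ψ x ^ (2 * k) * PP h f x ^ q) (vol h) :=
    fun k hk => integrable_vol L.met (L.contDiff_weight k q).continuous
      (L.hasCompactSupport_weight hk q)
  unfold aI
  refine integral_mono (hi m' (hm.trans hmm)) (hi m hm) fun x => ?_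
  have h1 : ψ x ^ (2 * m') ≤ ψ x ^ (2 * m) :=
    pow_le_pow_of_le_one (L.nonneg x) (L.le_one x) (by omega)
  exact mul_le_mul_of_nonneg_right h1 (pow_nonneg (PP_nonneg L.met f x) _)

theorem Loc2.aI_nonneg (L : Loc2 h f ψ W K c) (m q : ℕ) : 0 ≤ aI h f ψ m q := by
  refine integral_nonneg fun x => ?_
  exact mul_nonneg (pow_nonneg (L.nonneg x) _) (pow_nonneg (PP_nonneg L.met f x) _)

/-- `∫ ψ² ≤ vol D` if `ψ = 0` outside the compact set `D`. -/
theorem Loc2.aI_zero_le (L : Loc2 h f ψ W K c) {D : Set E} (hD : IsCompact D)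
    (hψ : ∀ x, x ∉ D → ψ x = 0) : aI h f ψ 1 0 ≤ (vol h D).toReal := by
  have hi : Integrable (fun x => ψ x ^ (2 * 1) * PP h f x ^ 0) (vol h) :=
    integrable_vol L.met (L.contDiff_weight 1 0).continuous (L.hasCompactSupport_weight le_rfl 0)
  have hfin : vol h D < ⊤ := vol_lt_top_of_isCompact L.met hD
  unfold aI
  rw [← setIntegral_eq_integral_of_forall_compl_eq_zero (s := D)
    (fun x hx => by rw [hψ x hx]; simp)]
  have h1 : ∫ x in D, ψ x ^ (2 * 1) * PP h f x ^ 0 ∂(vol h) ≤ ∫ _x in D, (1 : ℝ) ∂(vol h) := by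
    refine integral_mono hi.integrableOn (integrableOn_const hfin.ne) fun x => ?_
    simp only [pow_zero, mul_one]
    exact pow_le_one₀ (L.nonneg x) (L.le_one x)
  refine h1.trans (le_of_eq ?_)
  simp [Measure.real]

end Pool.Agent.Lib.MP_df705a_gt.Kat
end
end
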