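import Pool.Agent.Lib.MP_df705a_gt.Mg.G011
import Pool.Agent.Lib.MP_df705a_gt.Mg.G013
import Pool.Agent.Lib.MP_df705a_gt.Coll.T.B1
import Pool.Agent.Lib.MP_df705a_gt.Mg.G017
import Pool.Agent.Lib.MP_df705a_gt.Mg.G018
import Pool.Agent.Lib.MP_df705a_gt.Mg.G020
import Pool.Agent.Lib.MP_df705a_gt.Mg.G028

section

/-!
# Square integrable harmonic functions are constant
-/

open scoped Manifold ContDiff Topology
open Set Bundle Module Filter MeasureTheory

noncomputable section

namespace Pool.Agent.Lib.MP_df705a_gt.Coll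

open Pool.Agent.Lib.MP_df705a_gt.Twist Pool.Agent.Lib.MP_df705a_gt.Perm
open Pool.Agent.Lib.MP_df705a_gt.Circ (Horizontal Submersion cf Para HorConf)
open Pool.Agent.Lib.MP_df705a_gt.Fib (RiemSub Biconformal)

variable {E : Type*} [NormedAddCommGroup E] [NormedSpace ℝ E] [FiniteDimensional ℝ E]
  {M : Type*} [TopologicalSpace M] [ChartedSpace E M] [IsManifold 𝓘(ℝ, E) ∞ M]
  [MeasurableSpace E] [BorelSpace E] [MeasurableSpace M] [BorelSpace M]
  [CompactSpace M] [T2Space M]
  {g : Met E M} {μ : Measure M}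

set_option linter.unusedSectionVars false

namespace HarmAux

theorem cint (hμ : IsRVol g μ) {f : M → ℝ} (hf : Continuous f) : Integrable f μ := by
  have := hμ.fin
  exact hf.integrable_of_hasCompactSupport (HasCompactSupport.of_compactSpace f)

theorem vol_pos [Nonempty M] (hμ : IsRVol g μ) : 0 < μ.real univ := by
  obtain ⟨p⟩ := ‹Nonempty M›
  have h1 := hμ.pos (f := fun _ => 1) continuous_const (fun _ => zero_le_one) (p := p)
    (by norm_num)
  rw [integral_const, smul_eq_mul, mul_one] at h1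
  exact h1

theorem int_const' (_hμ : IsRVol g μ) (c : ℝ) : ∫ _, c ∂μ = c * μ.real univ := by
  rw [integral_const, smul_eq_mul, mul_comm]

theorem lin_int (hμ : IsRVol g μ) {f : M → ℝ} (hf : Continuous f) (c d : ℝ) :
    ∫ x, (c * f x + d) ∂μ = c * ∫ x, f x ∂μ + d * μ.real univ := by
  have h1 : ∫ x, (c * f x + d) ∂μ = ∫ x, c * f x ∂μ + ∫ _, d ∂μ :=
    integral_add ((cint hμ hf).const_mul c) (cint hμ continuous_const)
  rw [h1, integral_const_mul, int_const' hμ]

theorem lin_int₂ (hμ : IsRVol g μ) {f f' : M → ℝ} (hf : Continuous f) (hf' : Continuous f')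
    (c d : ℝ) : ∫ x, (c * f x + d * f' x) ∂μ = c * ∫ x, f x ∂μ + d * ∫ x, f' x ∂μ := by
  have h1 : ∫ x, (c * f x + d * f' x) ∂μ = ∫ x, c * f x ∂μ + ∫ x, d * f' x ∂μ :=
    integral_add ((cint hμ hf).const_mul c) ((cint hμ hf').const_mul d)
  rw [h1, integral_const_mul, integral_const_mul]

end HarmAux

open HarmAux ApproxAux in
/-- `‖u - mean‖² ≤ C² ‖Δ u‖²`. Proof: Poincaré, `∫ |dz|² = -∫ z Δ z ≤ ‖z‖ ‖Δ z‖`, `z = u - mean`. -/
theorem poin_lap [ConnectedSpace M] (hμ : IsRVol g μ) : ∃ C : ℝ, 0 < C ∧ ∀ u : M → ℝ, Sm E u →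
    ∃ a : ℝ, ∫ p, (u p - a) ^ 2 ∂μ ≤ C * ∫ p, Lap g u p ^ 2 ∂μ := by
  obtain ⟨C, hC, hP⟩ := poincare hμ
  refine ⟨C ^ 2, by positivity, fun u hu => ?_⟩
  have hV := vol_pos hμ
  set a : ℝ := (∫ p, u p ∂μ) / μ.real univ with ha
  refine ⟨a, ?_⟩
  have hz : Sm E (fun x => u x + -a) := sm_add hu (sm_const (-a))
  have hzc : Continuous (fun x => u x + -a) := hz.continuous
  have hLc : Continuous (Lap g u) := lap_cont g hu
  have hz0 : ∫ p, (u p + -a) ∂μ = 0 := by
    rw [integral_add (cint hμ hu.continuous) (cint hμ continuous_const), int_const' hμ, ha]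
    field_simp
    ring
  have hL : ∀ p, Lap g (fun x => u x + -a) p = Lap g u p := by
    intro p
    rw [lap_add g hu (sm_const (-a)), lap_const, add_zero]
  have h1 := hP _ hz hz0
  have h2 := hμ.green hz hz
  have hG : Continuous (Grd g (fun x => u x + -a) (fun x => u x + -a)) := grd_cont g hz
  have h3 : ∫ p, ((u p + -a) * Lap g (fun x => u x + -a) p +
      Grd g (fun x => u x + -a) (fun x => u x + -a) p) ∂μ =
      ∫ p, (u p + -a) * Lap g u p ∂μ +
        ∫ p, Grd g (fun x => u x + -a) (fun x => u x + -a) p ∂μ := by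
    simp only [hL]
    exact integral_add (cint hμ (hzc.mul hLc)) (cint hμ hG)
  rw [h3] at h2
  have h4 : -∫ p, (u p + -a) * Lap g u p ∂μ ≤
      ∫ p, ((1 / (2 * C)) * (u p + -a) ^ 2 + (C / 2) * Lap g u p ^ 2) ∂μ := by
    rw [← integral_neg]
    refine integral_mono (cint hμ (hzc.mul hLc).neg) (cint hμ ((hzc.pow 2).const_mul _ |>.add
      ((hLc.pow 2).const_mul _))) fun p => ?_
    show -((u p + -a) * Lap g u p) ≤ _
    have h5 : 0 ≤ ((u p + -a) + C * Lap g u p) ^ 2 / (2 * C) := by positivity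
    have h6 : ((u p + -a) + C * Lap g u p) ^ 2 / (2 * C) =
        (1 / (2 * C)) * (u p + -a) ^ 2 + (C / 2) * Lap g u p ^ 2 + (u p + -a) * Lap g u p := by
      field_simp
      ring
    linarith
  have h5 : ∫ p, ((1 / (2 * C)) * (u p + -a) ^ 2 + (C / 2) * Lap g u p ^ 2) ∂μ =
      (1 / (2 * C)) * ∫ p, (u p + -a) ^ 2 ∂μ + (C / 2) * ∫ p, Lap g u p ^ 2 ∂μ :=
    lin_int₂ hμ (hzc.pow 2) (hLc.pow 2) _ _
  have h6 : ∀ p, (u p - a) ^ 2 = (u p + -a) ^ 2 := fun p => by ring
  simp only [h6]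
  set A := ∫ p, (u p + -a) ^ 2 ∂μ
  set L := ∫ p, Lap g u p ^ 2 ∂μ
  have h7 : A ≤ C * ((1 / (2 * C)) * A + (C / 2) * L) := by
    refine h1.trans (mul_le_mul_of_nonneg_left ?_ hC.le)
    linarith
  have h8 : C * ((1 / (2 * C)) * A + (C / 2) * L) = A / 2 + C ^ 2 * L / 2 := by
    field_simp
  linarith

namespace HarmAux

open ApproxAux

theorem kmul_int (hμ : IsRVol g μ) {k : M → M → ℝ} (hk : Continuous fun p : M × M => k p.1 p.2)
    (x : M) {s : M → ℝ} (hs : Integrable s μ) : Integrable (fun y => k x y * s y) μ := by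
  have := hμ.fin
  have hsc : SecondCountableTopology M := ChartedSpace.secondCountable_of_sigmaCompact E M
  have hkx : Continuous (k x) := hk.comp (continuous_const.prodMk continuous_id)
  refine (int_smul hkx hs).congr (Eventually.of_forall fun y => ?_)
  show s y * k x y = k x y * s y
  ring

theorem kint_cont (hμ : IsRVol g μ) {k : M → M → ℝ} (hk : Continuous fun p : M × M => k p.1 p.2)
    {s : M → ℝ} (hs : Integrable s μ) : Continuous fun x => ∫ y, k x y * s y ∂μ := by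
  have := hμ.fin
  have hsc : SecondCountableTopology M := ChartedSpace.secondCountable_of_sigmaCompact E M
  exact cont_int hk hs

theorem comm_bound (hμ : IsRVol g μ) {L k : M → M → ℝ}
    (hL : Continuous fun p : M × M => L p.1 p.2) (hk : Continuous fun p : M × M => k p.1 p.2)
    {r : M → ℝ} (hr : Integrable r μ) {a c : ℝ} (h0 : ∀ x, ∫ y, L y x * r y ∂μ = 0)
    (hc : ∀ x y, |L x y - L y x| ≤ a * k x y + c) (x : M) :
    |∫ y, L x y * r y ∂μ| ≤ a * ∫ y, k x y * |r y| ∂μ + c * ∫ y, |r y| ∂μ := by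
  have hr' : Integrable (fun y => |r y|) μ := hr.abs
  have i1 : Integrable (fun y => L x y * r y) μ := kmul_int hμ hL x hr
  have hL' : Continuous fun p : M × M => (fun x y => L y x) p.1 p.2 := hL.comp continuous_swap
  have i2 : Integrable (fun y => L y x * r y) μ := kmul_int hμ (k := fun x y => L y x) hL' x hr
  have i3 : Integrable (fun y => k x y * |r y|) μ := kmul_int hμ hk x hr'
  have h2 : ∫ y, L x y * r y ∂μ = ∫ y, (L x y * r y - L y x * r y) ∂μ := by
    rw [integral_sub i1 i2, h0, sub_zero]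
  have h3 : a * ∫ y, k x y * |r y| ∂μ + c * ∫ y, |r y| ∂μ =
      ∫ y, (a * (k x y * |r y|) + c * |r y|) ∂μ := by
    rw [integral_add (i3.const_mul _) (hr'.const_mul _), integral_const_mul, integral_const_mul]
  rw [h2, h3]
  refine (abs_integral_le_integral_abs).trans ?_
  refine integral_mono (i1.sub i2).abs ((i3.const_mul _).add (hr'.const_mul _)) fun y => ?_
  show |L x y * r y - L y x * r y| ≤ a * (k x y * |r y|) + c * |r y|
  rw [← sub_mul, abs_mul]
  have h4 := mul_le_mul_of_nonneg_right (hc x y) (abs_nonneg (r y))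
  refine h4.trans (le_of_eq (by ring))

theorem mass_cont (hμ : IsRVol g μ) {k : M → M → ℝ} (hk : Continuous fun p : M × M => k p.1 p.2) :
    Continuous fun x => ∫ y, k x y ∂μ := by
  have h1 := kint_cont hμ hk (s := fun _ => 1) (cint hμ continuous_const)
  simpa using h1

theorem kswap (hμ : IsRVol g μ) {k : M → M → ℝ} (hk : Continuous fun p : M × M => k p.1 p.2)
    (hsymm : ∀ x y, k x y = k y x) {s : M → ℝ} (hs : Integrable s μ) :
    ∫ x, ∫ y, k x y * s y ∂μ ∂μ = ∫ y, (∫ x, k y x ∂μ) * s y ∂μ := by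
  have := hμ.fin
  have hsc : SecondCountableTopology M := ChartedSpace.secondCountable_of_sigmaCompact E M
  have hprod : Integrable (Function.uncurry fun x y => k x y * s y) (μ.prod μ) := by
    obtain ⟨C, hC⟩ : ∃ C, ∀ p : M × M, ‖k p.1 p.2‖ ≤ C := by
      obtain ⟨C, hC⟩ := isCompact_univ.exists_bound_of_continuousOn hk.continuousOn
      exact ⟨C, fun y => hC y (mem_univ y)⟩
    have h3 : Integrable (fun p : M × M => s p.2) (μ.prod μ) := by
      have h4 := (integrable_const (1 : ℝ) (μ := μ)).mul_prod hs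
      simpa using h4
    refine Integrable.mono' (h3.norm.const_mul C) ?_ (Eventually.of_forall fun p => ?_)
    · exact hk.aestronglyMeasurable.mul h3.aestronglyMeasurable
    · show ‖k p.1 p.2 * s p.2‖ ≤ C * ‖s p.2‖
      rw [norm_mul]
      exact mul_le_mul_of_nonneg_right (hC p) (norm_nonneg _)
  rw [integral_integral_swap hprod]
  refine integral_congr_ae (Eventually.of_forall fun y => ?_)
  show ∫ x, k x y * s y ∂μ = _
  rw [integral_mul_const]
  simp only [hsymm _ y]

end HarmAux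

open HarmAux ApproxAux in
/-- If `r` is weakly harmonic then `u_j = ∫ K_j(·, y) r(y) dμ(y)` is nearly constant. Proof: let
`U_j(x) = ∫ Lap_x K_j(x, y) r(y)`; as `∫ Lap_y K_j(x, y) r(y) dμ(y) = 0` (the kernel is symmetric and
smooth), `|U_j| ≤ ∫ (η' K_j + C') |r|`, so `‖U_j‖₂ ≤ (η' sup m_j + C'') ‖r‖₂` by `schur`; `Kern.approx` and
`poin_lap`; `sup m_j ≤ κ m_j(x₀)` and `m_j(x₀) → ∞`. -/
theorem harm_near [ConnectedSpace M] (hμ : IsRVol g μ) {K : ℕ → M → M → ℝ} (hK : Kern g μ K)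
    {r : M → ℝ} (hr : MemLp r 2 μ) (hw : ∀ φ : M → ℝ, Sm E φ → ∫ p, r p * Lap g φ p ∂μ = 0)
    (x₀ : M) {η : ℝ} (hη : 0 < η) :
    ∀ᶠ j in atTop, ∃ a : ℝ, ∫ x, (∫ y, K j x y * r y ∂μ - a) ^ 2 ∂μ ≤
      η * (∫ y, K j x₀ y ∂μ) ^ 2 := by
  have hfin := hμ.fin
  obtain ⟨κ, hκ, hcmp⟩ := hK.cmp
  obtain ⟨C, hC, hPL⟩ := poin_lap hμ
  have hr1 : Integrable r μ := hr.integrable (by norm_num)
  have hr2 : Integrable (fun x => r x ^ 2) μ := hr.integrable_sq
  set R2 := ∫ x, r x ^ 2 ∂μ with hR2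
  have hR20 : 0 ≤ R2 := integral_nonneg fun _ => sq_nonneg _
  set R1 := ∫ x, |r x| ∂μ with hR1
  have hR10 : 0 ≤ R1 := integral_nonneg fun _ => abs_nonneg _
  set V := μ.real univ with hV
  have hV0 : 0 < V := vol_pos hμ
  set η' : ℝ := √ (η / (16 * C * κ ^ 2 * (R2 + 1))) with hη'
  have hη'0 : 0 < η' := Real.sqrt_pos.2 (by positivity)
  have hη'2 : η' ^ 2 = η / (16 * C * κ ^ 2 * (R2 + 1)) := Real.sq_sqrt (by positivity)
  obtain ⟨C', hC', hcomm⟩ := hK.comm η' hη'0
  set D : ℝ := 8 * C * (C' * R1) ^ 2 * V + 4 * C * V + 2 * V with hD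
  have hD0 : 0 < D := by positivity
  filter_upwards [(hK.tends x₀).eventually_ge_atTop (max 1 (2 * D / η))] with j hj
  set m := ∫ y, K j x₀ y ∂μ with hm
  have hm1 : 1 ≤ m := (le_max_left _ _).trans hj
  have hm2 : 2 * D / η ≤ m := (le_max_right _ _).trans hj
  have hkc := hK.cont j
  have hLc : Continuous fun p : M × M => Lap g (fun z => K j z p.2) p.1 := hK.lap_cont j
  have hr1' : Integrable (fun y => |r y|) μ := hr1.abs
  -- the function `U`
  set U : M → ℝ := fun x => ∫ y, Lap g (fun z => K j z y) x * r y ∂μ with hU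
  set W : M → ℝ := fun x => ∫ y, K j x y * |r y| ∂μ with hW
  have hUc : Continuous U := kint_cont hμ hLc hr1
  have hWc : Continuous W := kint_cont hμ hkc hr1'
  have hUW : ∀ x, |U x| ≤ η' * W x + C' * R1 := by
    refine comm_bound hμ (L := fun x y => Lap g (fun z => K j z y) x) hLc hkc hr1
      (fun x => ?_) (hcomm j)
    rw [← hw _ (hK.sm j x)]
    exact integral_congr_ae (Eventually.of_forall fun y => mul_comm _ _)
  have hW2 : ∫ x, W x ^ 2 ∂μ ≤ (κ * m) ^ 2 * R2 := by
    have h1 := schur hμ hkc (fun x y => (hK.pos j x y).le) (hK.symm j) (m := κ * m)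
      (fun x => hcmp j x x₀) (r := fun y => |r y|) hr.abs
    refine h1.trans (le_of_eq ?_)
    simp only [sq_abs]
    rfl
  have hU2 : ∫ x, U x ^ 2 ∂μ ≤ 2 * η' ^ 2 * ((κ * m) ^ 2 * R2) + 2 * (C' * R1) ^ 2 * V := by
    have h1 : ∫ x, U x ^ 2 ∂μ ≤ ∫ x, (2 * η' ^ 2 * W x ^ 2 + 2 * (C' * R1) ^ 2) ∂μ := by
      refine integral_mono (cint hμ (hUc.pow 2)) (cint hμ (((hWc.pow 2).const_mul _).add
        continuous_const)) fun x => ?_
      show U x ^ 2 ≤ 2 * η' ^ 2 * W x ^ 2 + 2 * (C' * R1) ^ 2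
      have h2 := hUW x
      have h3 : U x ^ 2 ≤ (η' * W x + C' * R1) ^ 2 := by
        rw [← sq_abs (U x)]
        exact pow_le_pow_left₀ (abs_nonneg _) h2 2
      nlinarith [sq_nonneg (η' * W x - C' * R1)]
    have h2 : ∫ x, (2 * η' ^ 2 * W x ^ 2 + 2 * (C' * R1) ^ 2) ∂μ =
        2 * η' ^ 2 * ∫ x, W x ^ 2 ∂μ + 2 * (C' * R1) ^ 2 * V :=
      lin_int hμ (hWc.pow 2) _ _
    rw [h2] at h1
    have h3 := mul_le_mul_of_nonneg_left hW2 (by positivity : (0 : ℝ) ≤ 2 * η' ^ 2)
    linarith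
  obtain ⟨v, hv, hv1, hv2⟩ := hK.approx hμ j hr1 one_pos
  obtain ⟨a, ha⟩ := hPL v hv
  refine ⟨a, ?_⟩
  have hLv : Continuous (Lap g v) := lap_cont g hv
  have h1 : ∫ p, Lap g v p ^ 2 ∂μ ≤ 2 * ∫ x, U x ^ 2 ∂μ + 2 * V := by
    have h2 : ∫ p, Lap g v p ^ 2 ∂μ ≤ ∫ x, (2 * U x ^ 2 + 2) ∂μ := by
      refine integral_mono (cint hμ (hLv.pow 2)) (cint hμ (((hUc.pow 2).const_mul _).add
        continuous_const)) fun x => ?_
      show Lap g v x ^ 2 ≤ 2 * U x ^ 2 + 2
      have h3 := abs_le.1 (hv2 x)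
      have h4 : (Lap g v x - U x) ^ 2 ≤ 1 := by
        nlinarith [h3.1, h3.2]
      nlinarith [sq_nonneg (Lap g v x - 2 * U x)]
    exact h2.trans (le_of_eq (lin_int hμ (hUc.pow 2) _ _))
  have huc : Continuous fun x => ∫ y, K j x y * r y ∂μ := kint_cont hμ hkc hr1
  have h2 : ∫ x, (∫ y, K j x y * r y ∂μ - a) ^ 2 ∂μ ≤ 2 * ∫ p, (v p - a) ^ 2 ∂μ + 2 * V := by
    have hvc : Continuous v := hv.continuous
    have h3 : ∫ x, (∫ y, K j x y * r y ∂μ - a) ^ 2 ∂μ ≤ ∫ x, (2 * (v x - a) ^ 2 + 2) ∂μ := by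
      refine integral_mono (cint hμ ((huc.sub continuous_const).pow 2))
        (cint hμ ((((hvc.sub continuous_const).pow 2).const_mul _).add
        continuous_const)) fun x => ?_
      show (∫ y, K j x y * r y ∂μ - a) ^ 2 ≤ 2 * (v x - a) ^ 2 + 2
      have h4 := abs_le.1 (hv1 x)
      set ux := ∫ y, K j x y * r y ∂μ
      have h5 : (v x - ux) ^ 2 ≤ 1 := by
        nlinarith [h4.1, h4.2]
      nlinarith [sq_nonneg ((v x - a) + (v x - ux))]
    exact h3.trans (le_of_eq (lin_int hμ ((hvc.sub continuous_const).pow 2) _ _))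
  -- the final estimate
  have h3 : ∫ x, (∫ y, K j x y * r y ∂μ - a) ^ 2 ∂μ ≤
      8 * C * κ ^ 2 * R2 * η' ^ 2 * m ^ 2 + D := by
    have h4 : C * ∫ p, Lap g v p ^ 2 ∂μ ≤
        C * (2 * (2 * η' ^ 2 * ((κ * m) ^ 2 * R2) + 2 * (C' * R1) ^ 2 * V) + 2 * V) := by
      refine mul_le_mul_of_nonneg_left ?_ hC.le
      linarith
    calc _ ≤ 2 * ∫ p, (v p - a) ^ 2 ∂μ + 2 * V := h2
      _ ≤ 2 * (C * (2 * (2 * η' ^ 2 * ((κ * m) ^ 2 * R2) + 2 * (C' * R1) ^ 2 * V) + 2 * V)) +
          2 * V := by linarith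
      _ = _ := by rw [hD]; ring
  have h4 : 8 * C * κ ^ 2 * R2 * η' ^ 2 ≤ η / 2 := by
    rw [hη'2]
    have h5 : 8 * C * κ ^ 2 * R2 * (η / (16 * C * κ ^ 2 * (R2 + 1))) =
        (η / 2) * (R2 / (R2 + 1)) := by
      field_simp
      ring
    rw [h5]
    have h6 : R2 / (R2 + 1) ≤ 1 := by
      rw [div_le_one (by positivity)]
      linarith
    nlinarith
  have h5 : D ≤ (η / 2) * m ^ 2 := by
    rw [div_le_iff₀ hη] at hm2
    nlinarith
  have h6 : 8 * C * κ ^ 2 * R2 * η' ^ 2 * m ^ 2 ≤ (η / 2) * m ^ 2 :=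
    mul_le_mul_of_nonneg_right h4 (sq_nonneg _)
  linarith

open HarmAux ApproxAux in
/-- `∫ K_j(x, y) r(y) dμ(y) - r(x) m_j(x)` is small in the mean. Proof: for continuous `r` by `Kern.near`; in
general approximate `r` in `L²` (or `L¹`) by continuous functions (`MemLp.exists_hasCompactSupport_integral_sub_le`
or `ContinuousMap.toLp` density) and use `∫∫ K_j |r - r'|(y) ≤ sup m_j ∫ |r - r'|`. -/
theorem ident_near (hμ : IsRVol g μ) {K : ℕ → M → M → ℝ} (hK : Kern g μ K) {r : M → ℝ}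
    (hr : MemLp r 2 μ) (x₀ : M) {η : ℝ} (hη : 0 < η) :
    ∀ᶠ j in atTop, ∫ x, |∫ y, K j x y * r y ∂μ - r x * ∫ y, K j x y ∂μ| ∂μ ≤
      η * ∫ y, K j x₀ y ∂μ := by
  have hfin := hμ.fin
  have hsc : SecondCountableTopology M := ChartedSpace.secondCountable_of_sigmaCompact E M
  have hne : Nonempty M := ⟨x₀⟩
  obtain ⟨κ, hκ, hcmp⟩ := hK.cmp
  have hr1 : Integrable r μ := hr.integrable (by norm_num)
  set V := μ.real univ with hV
  have hV0 : 0 < V := vol_pos hμ
  obtain ⟨r', hr'1, hr'2⟩ := hr1.exists_boundedContinuous_integral_sub_le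
    (show 0 < η / (8 * κ) by positivity)
  have hrc : Continuous r' := r'.continuous
  set e : M → ℝ := fun x => |r x - r' x| with he
  have hei : Integrable e μ := (hr1.sub (cint hμ hrc)).abs
  have heI : ∫ x, e x ∂μ ≤ η / (8 * κ) := hr'1
  have he0 : 0 ≤ ∫ x, e x ∂μ := integral_nonneg fun _ => abs_nonneg _
  set η' : ℝ := η / (4 * κ * V) with hη'
  have hη'0 : 0 < η' := by positivity
  obtain ⟨C', hC', hnear⟩ := hK.near r' hrc η' hη'0
  filter_upwards [(hK.tends x₀).eventually_ge_atTop (2 * (C' * V * V) / η)] with j hj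
  set m := ∫ y, K j x₀ y ∂μ with hm
  have hkc := hK.cont j
  have hk0 : ∀ x, Integrable (K j x) μ := fun x =>
    cint hμ (hkc.comp (continuous_const.prodMk continuous_id))
  have hmc : Continuous fun x => ∫ y, K j x y ∂μ := mass_cont hμ hkc
  have hmn : ∀ x, 0 ≤ ∫ y, K j x y ∂μ := fun x => integral_nonneg fun y => (hK.pos j x y).le
  have hm0 : 0 ≤ m := hmn x₀
  have huc : Continuous fun x => ∫ y, K j x y * r y ∂μ := kint_cont hμ hkc hr1
  have hec : Continuous fun x => ∫ y, K j x y * e y ∂μ := kint_cont hμ hkc hei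
  -- products with the mass
  have hmul : ∀ {s : M → ℝ}, Integrable s μ → Integrable (fun x => s x * ∫ y, K j x y ∂μ) μ := by
    intro s hs
    exact int_smul hmc hs
  have hpt : ∀ x, |∫ y, K j x y * r y ∂μ - r x * ∫ y, K j x y ∂μ| ≤
      η' * (∫ y, K j x y ∂μ) + C' * V + ∫ y, K j x y * e y ∂μ + e x * ∫ y, K j x y ∂μ := by
    intro x
    have i1 := kmul_int hμ hkc x hr1
    have i2 : Integrable (fun y => r x * K j x y) μ := (hk0 x).const_mul _
    have h1 : ∫ y, K j x y * r y ∂μ - r x * ∫ y, K j x y ∂μ =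
        ∫ y, (K j x y * r y - r x * K j x y) ∂μ := by
      rw [integral_sub i1 i2, integral_const_mul]
    have i3 := (hk0 x).const_mul η'
    have i4 : Integrable (fun _ : M => C') μ := cint hμ continuous_const
    have i5 := kmul_int hμ hkc x hei
    have i6 := (hk0 x).const_mul (e x)
    have h2 : η' * (∫ y, K j x y ∂μ) + C' * V + ∫ y, K j x y * e y ∂μ + e x * ∫ y, K j x y ∂μ =
        ∫ y, (η' * K j x y + C' + K j x y * e y + e x * K j x y) ∂μ := by
      have e1 : ∫ y, (η' * K j x y + C' + K j x y * e y + e x * K j x y) ∂μ =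
          ∫ y, (η' * K j x y + C' + K j x y * e y) ∂μ + ∫ y, e x * K j x y ∂μ :=
        integral_add ((i3.add i4).add i5) i6
      have e2 : ∫ y, (η' * K j x y + C' + K j x y * e y) ∂μ =
          ∫ y, (η' * K j x y + C') ∂μ + ∫ y, K j x y * e y ∂μ :=
        integral_add (i3.add i4) i5
      have e3 : ∫ y, (η' * K j x y + C') ∂μ = ∫ y, η' * K j x y ∂μ + ∫ _, C' ∂μ :=
        integral_add i3 i4
      rw [e1, e2, e3, integral_const_mul, integral_const_mul, int_const' hμ]
    rw [h1, h2]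
    refine (abs_integral_le_integral_abs).trans ?_
    refine integral_mono (i1.sub i2).abs (((i3.add i4).add i5).add i6) fun y => ?_
    show |K j x y * r y - r x * K j x y| ≤ η' * K j x y + C' + K j x y * e y + e x * K j x y
    have hk := hK.pos j x y
    have h3 : K j x y * r y - r x * K j x y = (r y - r x) * K j x y := by ring
    rw [h3, abs_mul, abs_of_pos hk]
    have h4 : |r y - r x| ≤ |r' x - r' y| + e y + e x := by
      have h5 : r y - r x = (r y - r' y) + (-(r' x - r' y)) + (-(r x - r' x)) := by ring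
      rw [h5]
      refine (abs_add_three _ _ _).trans ?_
      rw [abs_neg, abs_neg]
      linarith
    have h5 := mul_le_mul_of_nonneg_right h4 hk.le
    have h6 := hnear j x y
    calc _ ≤ (|r' x - r' y| + e y + e x) * K j x y := h5
      _ = |r' x - r' y| * K j x y + K j x y * e y + e x * K j x y := by ring
      _ ≤ _ := by linarith
  have i1 : Integrable (fun x => |∫ y, K j x y * r y ∂μ - r x * ∫ y, K j x y ∂μ|) μ :=
    ((cint hμ huc).sub (hmul hr1)).abs
  have i3 := (cint hμ hmc).const_mul η'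
  have i4 : Integrable (fun _ : M => C' * V) μ := cint hμ continuous_const
  have i5 := cint hμ hec
  have i6 := hmul hei
  have h1 : ∫ x, |∫ y, K j x y * r y ∂μ - r x * ∫ y, K j x y ∂μ| ∂μ ≤
      η' * (∫ x, ∫ y, K j x y ∂μ ∂μ) + C' * V * V + ∫ x, ∫ y, K j x y * e y ∂μ ∂μ +
        ∫ x, e x * ∫ y, K j x y ∂μ ∂μ := by
    refine (integral_mono i1 (((i3.add i4).add i5).add i6) hpt).trans (le_of_eq ?_)
    have e1 : ∫ x, (η' * (∫ y, K j x y ∂μ) + C' * V + ∫ y, K j x y * e y ∂μ +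
          e x * ∫ y, K j x y ∂μ) ∂μ =
        ∫ x, (η' * (∫ y, K j x y ∂μ) + C' * V + ∫ y, K j x y * e y ∂μ) ∂μ +
          ∫ x, e x * ∫ y, K j x y ∂μ ∂μ :=
      integral_add ((i3.add i4).add i5) i6
    have e2 : ∫ x, (η' * (∫ y, K j x y ∂μ) + C' * V + ∫ y, K j x y * e y ∂μ) ∂μ =
        ∫ x, (η' * (∫ y, K j x y ∂μ) + C' * V) ∂μ + ∫ x, ∫ y, K j x y * e y ∂μ ∂μ :=
      integral_add (i3.add i4) i5
    have e3 : ∫ x, (η' * (∫ y, K j x y ∂μ) + C' * V) ∂μ =
        ∫ x, η' * (∫ y, K j x y ∂μ) ∂μ + ∫ _, C' * V ∂μ :=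
      integral_add i3 i4
    refine e1.trans ?_
    rw [e2, e3, integral_const_mul, int_const' hμ]
  have h2 : ∫ x, ∫ y, K j x y ∂μ ∂μ ≤ κ * m * V := by
    rw [← int_const' hμ]
    exact integral_mono (cint hμ hmc) (cint hμ continuous_const) fun x => hcmp j x x₀
  have h3 : ∫ x, e x * ∫ y, K j x y ∂μ ∂μ ≤ κ * m * ∫ x, e x ∂μ := by
    rw [← integral_const_mul]
    refine integral_mono i6 (hei.const_mul _) fun x => ?_
    show e x * ∫ y, K j x y ∂μ ≤ κ * m * e x
    have h4 := mul_le_mul_of_nonneg_left (hcmp j x x₀) (abs_nonneg (r x - r' x))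
    exact h4.trans (le_of_eq (mul_comm _ _))
  have h4 : ∫ x, ∫ y, K j x y * e y ∂μ ∂μ ≤ κ * m * ∫ x, e x ∂μ := by
    rw [kswap hμ hkc (hK.symm j) hei]
    refine le_trans (le_of_eq ?_) h3
    exact integral_congr_ae (Eventually.of_forall fun x => mul_comm _ _)
  have h5 : η' * (∫ x, ∫ y, K j x y ∂μ ∂μ) ≤ (η / 4) * m := by
    refine (mul_le_mul_of_nonneg_left h2 hη'0.le).trans (le_of_eq ?_)
    rw [hη']
    field_simp
  have h6 : κ * m * ∫ x, e x ∂μ ≤ (η / 8) * m := by
    have h7 := mul_le_mul_of_nonneg_left heI (by positivity : 0 ≤ κ * m)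
    refine h7.trans (le_of_eq ?_)
    field_simp
  have h7 : C' * V * V ≤ (η / 2) * m := by
    rw [div_le_iff₀ hη] at hj
    linarith
  linarith

open HarmAux ApproxAux in
/-- Proof: with `M_j = m_j(x₀)`: `m_j / M_j` is near a constant `c_j ∈ [1 / κ, κ]` in `L²` (`harm_near` for
`r = 1`), `r m_j / M_j` is near `u_j / M_j` in `L¹` (`ident_near`), which is near a constant in `L²`
(`harm_near`); hence `r c_j` is near a constant in `L¹`, `r` is in the closure of the constants. -/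
theorem harm_const [ConnectedSpace M] (hd : 0 < finrank ℝ E) (hμ : IsRVol g μ) {r : M → ℝ}
    (hr : MemLp r 2 μ) (hw : ∀ φ : M → ℝ, Sm E φ → ∫ p, r p * Lap g φ p ∂μ = 0) :
    ∃ c : ℝ, r =ᵐ[μ] fun _ => c := by
  have hfin := hμ.fin
  obtain ⟨x₀⟩ : Nonempty M := inferInstance
  obtain ⟨K, hK⟩ := exists_kern hd hμ
  obtain ⟨κ, hκ, hcmp⟩ := hK.cmp
  have hr1 : Integrable r μ := hr.integrable (by norm_num)
  have hr2 : Integrable (fun x => r x ^ 2) μ := hr.integrable_sq
  set R2 := ∫ x, r x ^ 2 ∂μ with hR2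
  have hR20 : 0 ≤ R2 := integral_nonneg fun _ => sq_nonneg _
  set V := μ.real univ with hV
  have hV0 : 0 < V := vol_pos hμ
  have key : ∀ ε : ℝ, 0 < ε → ∃ c : ℝ, ∫ x, |r x - c| ∂μ ≤ ε := by
    intro ε hε
    set t : ℝ := min (√ V / (4 * κ)) (ε / (2 * κ * (R2 + V + 3))) with ht
    have ht0 : 0 < t := by
      rw [ht]
      have h1 : 0 < √ V := Real.sqrt_pos.2 hV0
      exact lt_min (by positivity) (by positivity)
    have ht1 : t ≤ √ V / (4 * κ) := min_le_left _ _
    have ht2 : t ≤ ε / (2 * κ * (R2 + V + 3)) := min_le_right _ _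
    have hone : MemLp (fun _ : M => (1 : ℝ)) 2 μ := memLp_const 1
    have hw1 : ∀ φ : M → ℝ, Sm E φ → ∫ p, (fun _ : M => (1 : ℝ)) p * Lap g φ p ∂μ = 0 := by
      intro φ hφ
      have h1 := hμ.green hφ (sm_const (E := E) (M := M) 1)
      have h2 : ∀ p, Grd g (fun _ => (1 : ℝ)) φ p = 0 := by
        intro p
        unfold Grd gradC
        refine Finset.sum_eq_zero fun i _ => Finset.sum_eq_zero fun j _ => ?_
        have h3 : Curv.pd i (rd E p (fun _ : M => (1 : ℝ))) (extChartAt 𝓘(ℝ, E) p p) = 0 := by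
          have h4 : rd E p (fun _ : M => (1 : ℝ)) = fun _ => 1 := rfl
          rw [h4]
          unfold Curv.pd
          simp
        rw [h3]
        ring
      simp only [h2, add_zero] at h1
      exact h1
    obtain ⟨j, ⟨b, hb⟩, ⟨a, ha⟩, hI, hm1⟩ := ((harm_near hμ hK hone hw1 x₀
      (η := t ^ 2) (by positivity)).and ((harm_near hμ hK hr hw x₀ (η := t ^ 2)
      (by positivity)).and ((ident_near hμ hK hr x₀ ht0).and
      ((hK.tends x₀).eventually_ge_atTop 1)))).exists
    set m := ∫ y, K j x₀ y ∂μ with hm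
    have hm0 : 0 < m := lt_of_lt_of_le one_pos hm1
    have hkc := hK.cont j
    have hmc : Continuous fun x => ∫ y, K j x y ∂μ := mass_cont hμ hkc
    have huc : Continuous fun x => ∫ y, K j x y * r y ∂μ := kint_cont hμ hkc hr1
    simp only [mul_one] at hb
    set mj : M → ℝ := fun x => ∫ y, K j x y ∂μ with hmj
    set u : M → ℝ := fun x => ∫ y, K j x y * r y ∂μ with hu
    have hb' : ∫ x, (mj x - b) ^ 2 ∂μ ≤ t ^ 2 * m ^ 2 := hb
    have ha' : ∫ x, (u x - a) ^ 2 ∂μ ≤ t ^ 2 * m ^ 2 := ha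
    have hI' : ∫ x, |u x - r x * mj x| ∂μ ≤ t * m := hI
    have hlow : ∀ x, m / κ ≤ mj x := by
      intro x
      rw [div_le_iff₀ hκ]
      have := hcmp j x₀ x
      rw [mul_comm]
      exact this
    -- the constant `b` is not small
    have hbm : m / (2 * κ) ≤ b := by
      by_contra hlt
      rw [not_le] at hlt
      have h1 : ∀ x, (m / (2 * κ)) ^ 2 ≤ (mj x - b) ^ 2 := by
        intro x
        have h2 : m / (2 * κ) ≤ mj x - b := by
          have h3 := hlow x
          have h4 : m / κ = m / (2 * κ) + m / (2 * κ) := by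
            field_simp
            norm_num
          linarith
        exact pow_le_pow_left₀ (by positivity) h2 2
      have h2 : (m / (2 * κ)) ^ 2 * V ≤ t ^ 2 * m ^ 2 := by
        rw [← int_const' hμ]
        refine le_trans (integral_mono (cint hμ continuous_const)
          (cint hμ ((hmc.sub continuous_const).pow 2)) h1) hb'
      have h3 : t ^ 2 ≤ V / (16 * κ ^ 2) := by
        have h4 := pow_le_pow_left₀ ht0.le ht1 2
        rw [div_pow, Real.sq_sqrt hV0.le, mul_pow] at h4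
        refine h4.trans (le_of_eq ?_)
        norm_num
      have h4 : (m / (2 * κ)) ^ 2 * V = 4 * (V / (16 * κ ^ 2)) * m ^ 2 := by
        field_simp
        norm_num
      rw [h4] at h2
      have h5 : 0 < V / (16 * κ ^ 2) * m ^ 2 := by positivity
      have h6 := mul_le_mul_of_nonneg_right h3 (sq_nonneg m)
      linarith
    have hb0 : 0 < b := lt_of_lt_of_le (by positivity) hbm
    refine ⟨a / b, ?_⟩
    -- `r b` is near `a`
    have hpt : ∀ x, |r x * b - a| ≤ (t * m * r x ^ 2 + (mj x - b) ^ 2 / (t * m)) +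
        |u x - r x * mj x| + (t * m + (u x - a) ^ 2 / (t * m)) := by
      intro x
      have hs : 0 < t * m := by positivity
      have young : ∀ p q : ℝ, |p * q| ≤ t * m * p ^ 2 + q ^ 2 / (t * m) := by
        intro p q
        have h1 : 0 ≤ (t * m * |p| - |q|) ^ 2 / (t * m) := by positivity
        have h2 : (t * m * |p| - |q|) ^ 2 / (t * m) =
            t * m * |p| ^ 2 - 2 * (|p| * |q|) + |q| ^ 2 / (t * m) := by
          field_simp
          ring
        rw [abs_mul]
        rw [h2, sq_abs, sq_abs] at h1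
        have h3 : 0 ≤ t * m * p ^ 2 := by positivity
        have h4 : 0 ≤ q ^ 2 / (t * m) := by positivity
        linarith
      have h1 : r x * b - a = -(r x * (mj x - b)) + -(u x - r x * mj x) + 1 * (u x - a) := by
        ring
      rw [h1]
      refine (abs_add_three _ _ _).trans ?_
      rw [abs_neg, abs_neg]
      have h2 := young (r x) (mj x - b)
      have h3 := young 1 (u x - a)
      rw [one_pow, mul_one] at h3
      linarith
    have i1 : Integrable (fun x => |r x * b - a|) μ :=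
      ((hr1.mul_const b).sub (cint hμ continuous_const)).abs
    have i2 : Integrable (fun x => t * m * r x ^ 2) μ := hr2.const_mul _
    have i3 : Integrable (fun x => (mj x - b) ^ 2 / (t * m)) μ :=
      cint hμ (((hmc.sub continuous_const).pow 2).div_const _)
    have i4 : Integrable (fun x => |u x - r x * mj x|) μ := by
      have hsc : SecondCountableTopology M := ChartedSpace.secondCountable_of_sigmaCompact E M
      have h1 : Integrable (fun x => r x * mj x) μ := int_smul hmc hr1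
      exact ((cint hμ huc).sub h1).abs
    have i5 : Integrable (fun _ : M => t * m) μ := cint hμ continuous_const
    have i6 : Integrable (fun x => (u x - a) ^ 2 / (t * m)) μ :=
      cint hμ (((huc.sub continuous_const).pow 2).div_const _)
    have h1 : ∫ x, |r x * b - a| ∂μ ≤ t * m * (R2 + V + 3) := by
      refine (integral_mono i1 (((i2.add i3).add i4).add (i5.add i6)) hpt).trans ?_
      have e1 : ∫ x, ((t * m * r x ^ 2 + (mj x - b) ^ 2 / (t * m)) +
          |u x - r x * mj x| + (t * m + (u x - a) ^ 2 / (t * m))) ∂μ =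
          ∫ x, ((t * m * r x ^ 2 + (mj x - b) ^ 2 / (t * m)) + |u x - r x * mj x|) ∂μ +
            ∫ x, (t * m + (u x - a) ^ 2 / (t * m)) ∂μ :=
        integral_add ((i2.add i3).add i4) (i5.add i6)
      have e2 : ∫ x, ((t * m * r x ^ 2 + (mj x - b) ^ 2 / (t * m)) + |u x - r x * mj x|) ∂μ =
          ∫ x, (t * m * r x ^ 2 + (mj x - b) ^ 2 / (t * m)) ∂μ + ∫ x, |u x - r x * mj x| ∂μ :=
        integral_add (i2.add i3) i4
      have e3 : ∫ x, (t * m * r x ^ 2 + (mj x - b) ^ 2 / (t * m)) ∂μ =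
          ∫ x, t * m * r x ^ 2 ∂μ + ∫ x, (mj x - b) ^ 2 / (t * m) ∂μ := integral_add i2 i3
      have e4 : ∫ x, (t * m + (u x - a) ^ 2 / (t * m)) ∂μ =
          ∫ _, t * m ∂μ + ∫ x, (u x - a) ^ 2 / (t * m) ∂μ := integral_add i5 i6
      refine le_trans (le_of_eq e1) ?_
      rw [e2, e3, e4, integral_const_mul, integral_div, integral_div, int_const' hμ]
      have hs : 0 < t * m := by positivity
      have e5 : (∫ x, (mj x - b) ^ 2 ∂μ) / (t * m) ≤ t * m := by
        rw [div_le_iff₀ hs]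
        refine hb'.trans (le_of_eq (by ring))
      have e6 : (∫ x, (u x - a) ^ 2 ∂μ) / (t * m) ≤ t * m := by
        rw [div_le_iff₀ hs]
        refine ha'.trans (le_of_eq (by ring))
      have e7 : t * m * (R2 + V + 3) = t * m * R2 + t * m * V + 3 * (t * m) := by ring
      rw [e7]
      linarith
    have h2 : ∫ x, |r x - a / b| ∂μ = (∫ x, |r x * b - a| ∂μ) / b := by
      rw [← integral_div]
      refine integral_congr_ae (Eventually.of_forall fun x => ?_)
      show |r x - a / b| = |r x * b - a| / b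
      rw [← abs_of_pos hb0, ← abs_div, abs_of_pos hb0]
      congr 1
      field_simp
    rw [h2, div_le_iff₀ hb0]
    refine h1.trans ?_
    rw [le_div_iff₀ (by positivity)] at ht2
    have h3 : t * (R2 + V + 3) ≤ ε / (2 * κ) := by
      rw [le_div_iff₀ (by positivity)]
      linarith
    calc t * m * (R2 + V + 3) = (t * (R2 + V + 3)) * m := by ring
      _ ≤ (ε / (2 * κ)) * m := mul_le_mul_of_nonneg_right h3 hm0.le
      _ = ε * (m / (2 * κ)) := by ring
      _ ≤ ε * b := mul_le_mul_of_nonneg_left hbm hε.le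
  -- the mean
  set c₀ : ℝ := (∫ x, r x ∂μ) / V with hc₀
  refine ⟨c₀, ?_⟩
  have h0 : ∫ x, |r x - c₀| ∂μ = 0 := by
    refine le_antisymm ?_ (integral_nonneg fun _ => abs_nonneg _)
    refine le_of_forall_pos_le_add fun ε hε => ?_
    obtain ⟨c, hc⟩ := key (ε / 2) (by positivity)
    have i1 : Integrable (fun x => r x - c) μ := hr1.sub (cint hμ continuous_const)
    have h1 : |c - c₀| * V ≤ ε / 2 := by
      have h2 : (c₀ - c) * V = ∫ x, (r x - c) ∂μ := by
        rw [integral_sub hr1 (cint hμ continuous_const), int_const' hμ, hc₀, ← hV]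
        field_simp
      have h3 : |∫ x, (r x - c) ∂μ| ≤ ∫ x, |r x - c| ∂μ := abs_integral_le_integral_abs
      rw [← h2, abs_mul, abs_of_pos hV0, abs_sub_comm] at h3
      exact h3.trans hc
    have h2 : ∫ x, |r x - c₀| ∂μ ≤ ∫ x, (|r x - c| + |c - c₀|) ∂μ := by
      refine integral_mono (hr1.sub (cint hμ continuous_const)).abs
        (i1.abs.add (cint hμ continuous_const)) fun x => ?_
      exact abs_sub_le _ _ _
    have h3 : ∫ x, (|r x - c| + |c - c₀|) ∂μ = ∫ x, |r x - c| ∂μ + |c - c₀| * V := by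
      have h4 := integral_add i1.abs (cint hμ (continuous_const (y := |c - c₀|)))
      rw [int_const' hμ] at h4
      exact h4
    linarith
  have h1 := (integral_eq_zero_iff_of_nonneg (fun x => abs_nonneg (r x - c₀))
    (hr1.sub (cint hμ continuous_const)).abs).1 h0
  filter_upwards [h1] with x hx
  have h2 : |r x - c₀| = 0 := hx
  rw [abs_eq_zero, sub_eq_zero] at h2
  exact h2

end Pool.Agent.Lib.MP_df705a_gt.Coll
end
end

section

/-!
# Spectral pinching, part S1, S1b: the contraction property in `L¹`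
-/

open scoped Manifold ContDiff Topology
open Set Bundle Module Filter MeasureTheory

noncomputable section

set_option linter.unusedSectionVars false

namespace Pool.Agent.Lib.MP_df705a_gt.Pin.S1

open Pool.Agent.Lib.MP_df705a_gt.Twist Pool.Agent.Lib.MP_df705a_gt.Perm
open Pool.Agent.Lib.MP_df705a_gt.Coll

variable {E : Type*} [NormedAddCommGroup E] [NormedSpace ℝ E] [FiniteDimensional ℝ E]
  {M : Type*} [TopologicalSpace M] [ChartedSpace E M] [IsManifold 𝓘(ℝ, E) ∞ M]
  [MeasurableSpace E] [BorelSpace E] [MeasurableSpace M] [BorelSpace M]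
  [CompactSpace M] [T2Space M]
  {g : Met E M} {μ : Measure M}

/-- (`IsRVol.green` with `v = 1`; `Grd g 1 u = 0`: `GreenAux.gradC_const`.) -/
theorem int_lap (hμ : IsRVol g μ) {u : M → ℝ} (hu : Sm E u) : ∫ x, Lap g u x ∂μ = 0 := by
  have h1 := hμ.green hu (sm_const (E := E) (M := M) 1)
  have h2 : ∀ p, Grd g (fun _ => (1 : ℝ)) u p = 0 := by
    intro p
    unfold Grd gradC
    refine Finset.sum_eq_zero fun i _ => Finset.sum_eq_zero fun j _ => ?_
    have h3 : Curv.pd i (rd E p (fun _ : M => (1 : ℝ))) (extChartAt 𝓘(ℝ, E) p p) = 0 := by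
      have h4 : rd E p (fun _ : M => (1 : ℝ)) = fun _ => 1 := rfl
      rw [h4]
      unfold Curv.pd
      simp
    rw [h3]
    ring
  simp only [h2, add_zero, one_mul] at h1
  exact h1

namespace S1bAux

theorem q_pos {e : ℝ} (he : 0 < e) (t : ℝ) : 0 < √ (t ^ 2 + e ^ 2) :=
  Real.sqrt_pos.2 (by positivity)

theorem q_smooth {e : ℝ} (he : 0 < e) (t : ℝ) :
    ContDiffAt ℝ ∞ (fun t : ℝ => √ (t ^ 2 + e ^ 2)) t := by
  have h1 : ContDiffAt ℝ ∞ (fun t : ℝ => t ^ 2 + e ^ 2) t :=
    (contDiffAt_id.pow 2).add contDiffAt_const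
  exact h1.sqrt (by positivity)

theorem q_deriv {e : ℝ} (he : 0 < e) (t : ℝ) :
    HasDerivAt (fun t : ℝ => √ (t ^ 2 + e ^ 2)) (t / √ (t ^ 2 + e ^ 2)) t := by
  have h1 : HasDerivAt (fun t : ℝ => t ^ 2 + e ^ 2) (2 * t) t := by
    have h2 := (hasDerivAt_pow 2 t).add_const (e ^ 2)
    simpa using h2
  have h3 := h1.sqrt (by positivity)
  refine h3.congr_deriv ?_
  have h4 := q_pos he t
  field_simp

theorem q_deriv' {e : ℝ} (he : 0 < e) : deriv (fun t : ℝ => √ (t ^ 2 + e ^ 2)) =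
    fun t => t / √ (t ^ 2 + e ^ 2) :=
  funext fun t => (q_deriv he t).deriv

theorem q_deriv2 {e : ℝ} (he : 0 < e) (t : ℝ) :
    0 ≤ deriv (deriv fun t : ℝ => √ (t ^ 2 + e ^ 2)) t := by
  rw [q_deriv' he]
  have h4 := q_pos he t
  have h1 := (hasDerivAt_id t).div (q_deriv he t) h4.ne'
  have h2 : deriv (fun t : ℝ => t / √ (t ^ 2 + e ^ 2)) t =
      (1 * √ (t ^ 2 + e ^ 2) - id t * (t / √ (t ^ 2 + e ^ 2))) / √ (t ^ 2 + e ^ 2) ^ 2 := h1.deriv
  rw [h2]
  refine div_nonneg ?_ (sq_nonneg _)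
  have h5 : √ (t ^ 2 + e ^ 2) * √ (t ^ 2 + e ^ 2) = t ^ 2 + e ^ 2 :=
    Real.mul_self_sqrt (by positivity)
  have h6 : id t * (t / √ (t ^ 2 + e ^ 2)) = t ^ 2 / √ (t ^ 2 + e ^ 2) := by
    simp only [id]
    ring
  rw [h6, one_mul, sub_nonneg, div_le_iff₀ h4, h5]
  nlinarith [sq_nonneg e]

theorem q_abs {e : ℝ} (he : 0 < e) (t : ℝ) : |t / √ (t ^ 2 + e ^ 2)| ≤ 1 := by
  have h4 := q_pos he t
  rw [abs_div, abs_of_pos h4, div_le_one h4]
  refine Real.le_sqrt_of_sq_le ?_
  rw [sq_abs]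
  nlinarith [sq_nonneg e]

theorem q_low {e : ℝ} (he : 0 < e) (t : ℝ) : |t| - e ≤ t * (t / √ (t ^ 2 + e ^ 2)) := by
  have h4 := q_pos he t
  have h5 : √ (t ^ 2 + e ^ 2) * √ (t ^ 2 + e ^ 2) = t ^ 2 + e ^ 2 :=
    Real.mul_self_sqrt (by positivity)
  have h6 : |t| ≤ √ (t ^ 2 + e ^ 2) := by
    refine Real.le_sqrt_of_sq_le ?_
    rw [sq_abs]
    nlinarith [sq_nonneg e]
  have h7 : √ (t ^ 2 + e ^ 2) ≤ |t| + e := by
    rw [Real.sqrt_le_left (by positivity)]
    have h8 := sq_abs t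
    nlinarith [abs_nonneg t]
  have h8 : t * (t / √ (t ^ 2 + e ^ 2)) = t ^ 2 / √ (t ^ 2 + e ^ 2) := by ring
  rw [h8, le_div_iff₀ h4]
  have h9 := abs_nonneg t
  rcases le_or_gt |t| e with h | h
  · have : (|t| - e) * √ (t ^ 2 + e ^ 2) ≤ 0 := mul_nonpos_of_nonpos_of_nonneg (by linarith) h4.le
    nlinarith [sq_nonneg t]
  · have h10 := mul_le_mul_of_nonneg_left h7 (by linarith : 0 ≤ |t| - e)
    have h11 : (|t| - e) * (|t| + e) = t ^ 2 - e ^ 2 := by
      have := sq_abs t
      nlinarith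
    nlinarith [sq_nonneg e]

end S1bAux

open S1bAux in
/-- Proof: let `ψ t = √ (t ^ 2 + e ^ 2)`, smooth with `ψ' = t / ψ`, `ψ'' = e ^ 2 / ψ ^ 3 ≥ 0`. By
`lap_comp`, `grd_nonneg` and `int_lap`: `0 = ∫ Lap (ψ ∘ u) ≥ ∫ ψ'(u) Lap u`. -/
theorem int_comp_lap_nonpos (hμ : IsRVol g μ) {u : M → ℝ} (hu : Sm E u) {e : ℝ} (he : 0 < e) :
    ∫ x, u x / √ (u x ^ 2 + e ^ 2) * Lap g u x ∂μ ≤ 0 := by
  have hs : ∀ x, ContDiffAt ℝ ∞ (fun t : ℝ => √ (t ^ 2 + e ^ 2)) (u x) := fun x => q_smooth he _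
  have h1 : Sm E fun x => √ (u x ^ 2 + e ^ 2) := sm_comp hu hs
  have hL : ∀ {v : M → ℝ}, Sm E v → Continuous (Lap g v) := fun hv => (Circ.sm_lap g hv).continuous
  have h2 := int_lap hμ h1
  rw [← h2]
  have huc : Continuous u := hu.continuous
  have hqc : Continuous fun x => √ (u x ^ 2 + e ^ 2) := h1.continuous
  refine integral_mono (HarmAux.cint hμ ((huc.div hqc fun x => (q_pos he _).ne').mul (hL hu)))
    (HarmAux.cint hμ (hL h1)) fun x => ?_
  have h3 := lap_comp g hu hs x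
  rw [q_deriv' he] at h3
  have h4 := mul_nonneg (q_deriv2 he (u x)) (grd_nonneg g u x)
  rw [q_deriv' he] at h4
  change u x / √ (u x ^ 2 + e ^ 2) * Lap g u x ≤ Lap g (fun x => √ (u x ^ 2 + e ^ 2)) x
  rw [h3]
  linarith

open S1bAux in
/-- **Contraction.** Proof: with `w = u - τ Lap u`: `∫ u² / √ (u² + e²) ≤ ∫ w u / √ (u² + e²) ≤ ∫ |w|` by
`int_comp_lap_nonpos`, and `u² / √ (u² + e²) ≥ |u| - e`; let `e → 0`. -/
theorem l1_contraction (hμ : IsRVol g μ) {u : M → ℝ} (hu : Sm E u) {τ : ℝ} (hτ : 0 ≤ τ) :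
    ∫ x, |u x| ∂μ ≤ ∫ x, |u x - τ * Lap g u x| ∂μ := by
  have hfin := hμ.fin
  have hLc : Continuous (Lap g u) := (Circ.sm_lap g hu).continuous
  have huc : Continuous u := hu.continuous
  have key : ∀ e : ℝ, 0 < e →
      ∫ x, |u x| ∂μ ≤ ∫ x, |u x - τ * Lap g u x| ∂μ + e * μ.real univ := by
    intro e he
    have hqc : Continuous fun x => √ (u x ^ 2 + e ^ 2) := ((huc.pow 2).add continuous_const).sqrt
    have hbc : Continuous fun x => u x / √ (u x ^ 2 + e ^ 2) :=
      huc.div hqc fun x => (q_pos he _).ne'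
    have h1 := int_comp_lap_nonpos hμ hu he
    have h2 : ∀ x, |u x| ≤ (|u x - τ * Lap g u x| + e) +
        τ * (u x / √ (u x ^ 2 + e ^ 2) * Lap g u x) := by
      intro x
      have h3 := q_abs he (u x)
      have h4 := q_low he (u x)
      set b := u x / √ (u x ^ 2 + e ^ 2) with hb
      have h5 : (u x - τ * Lap g u x) * b ≤ |u x - τ * Lap g u x| := by
        refine (le_abs_self _).trans ?_
        rw [abs_mul]
        exact mul_le_of_le_one_right (abs_nonneg _) h3
      have h6 : u x * b = (u x - τ * Lap g u x) * b + τ * (b * Lap g u x) := by ring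
      linarith
    have hwc : Continuous fun x => |u x - τ * Lap g u x| :=
      (huc.sub (hLc.const_mul τ)).abs
    have i1 : Integrable (fun x => |u x - τ * Lap g u x| + e) μ :=
      HarmAux.cint hμ (hwc.add continuous_const)
    have i2 : Integrable (fun x => τ * (u x / √ (u x ^ 2 + e ^ 2) * Lap g u x)) μ :=
      HarmAux.cint hμ ((hbc.mul hLc).const_mul τ)
    refine (integral_mono (HarmAux.cint hμ huc.abs) (i1.add i2) h2).trans ?_
    have e1 : ∫ x, ((|u x - τ * Lap g u x| + e) +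
        τ * (u x / √ (u x ^ 2 + e ^ 2) * Lap g u x)) ∂μ =
        ∫ x, (|u x - τ * Lap g u x| + e) ∂μ +
          ∫ x, τ * (u x / √ (u x ^ 2 + e ^ 2) * Lap g u x) ∂μ := integral_add i1 i2
    have e2 : ∫ x, (|u x - τ * Lap g u x| + e) ∂μ =
        ∫ x, |u x - τ * Lap g u x| ∂μ + ∫ _, e ∂μ :=
      integral_add (HarmAux.cint hμ hwc) (HarmAux.cint hμ continuous_const)
    refine (le_of_eq e1).trans ?_
    rw [e2, integral_const_mul, HarmAux.int_const' hμ]
    have h7 := mul_nonpos_of_nonneg_of_nonpos hτ h1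
    linarith
  refine le_of_forall_pos_le_add fun ε hε => ?_
  have hV : 0 ≤ μ.real univ := measureReal_nonneg
  refine (key (ε / (μ.real univ + 1)) (by positivity)).trans ?_
  have h8 : ε / (μ.real univ + 1) * μ.real univ ≤ ε := by
    rw [div_mul_eq_mul_div, div_le_iff₀ (by positivity)]
    nlinarith
  linarith

end Pool.Agent.Lib.MP_df705a_gt.Pin.S1
end
end

section

/-!
# Spectral pinching, part S1, S1d: the regularisation of a weak solution
-/

open scoped Manifold ContDiff Topology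
open Set Bundle Module Filter MeasureTheory

noncomputable section

set_option linter.unusedSectionVars false

namespace Pool.Agent.Lib.MP_df705a_gt.Pin.S1

open Pool.Agent.Lib.MP_df705a_gt.Twist Pool.Agent.Lib.MP_df705a_gt.Perm
open Pool.Agent.Lib.MP_df705a_gt.Coll

variable {E : Type*} [NormedAddCommGroup E] [NormedSpace ℝ E] [FiniteDimensional ℝ E]
  {M : Type*} [TopologicalSpace M] [ChartedSpace E M] [IsManifold 𝓘(ℝ, E) ∞ M]
  [MeasurableSpace E] [BorelSpace E] [MeasurableSpace M] [BorelSpace M]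
  [CompactSpace M] [T2Space M]
  {g : Met E M} {μ σ : Measure M}

namespace S1dAux

theorem sint [IsFiniteMeasure σ] {s : M → ℝ} (hs : Measurable s) (hs1 : ∀ x, |s x| ≤ 1) :
    Integrable s σ :=
  Integrable.of_bound hs.aestronglyMeasurable 1 (Eventually.of_forall hs1)

theorem cint [IsFiniteMeasure σ] {f : M → ℝ} (hf : Continuous f) : Integrable f σ := by
  obtain ⟨C, hC⟩ : ∃ C, ∀ y, ‖f y‖ ≤ C := by
    obtain ⟨C, hC⟩ := isCompact_univ.exists_bound_of_continuousOn hf.continuousOn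
    exact ⟨C, fun y => hC y (mem_univ y)⟩
  exact Integrable.of_bound hf.measurable.aestronglyMeasurable C (Eventually.of_forall hC)

/-- The estimate for abstract kernels. -/
theorem est [IsFiniteMeasure σ] {k L : M → M → ℝ} (hk : Continuous fun p : M × M => k p.1 p.2)
    (hL : Continuous fun p : M × M => L p.1 p.2) (hsymm : ∀ x y, k x y = k y x)
    {s : M → ℝ} (hs : Measurable s) (hs1 : ∀ x, |s x| ≤ 1) {τ : ℝ} (hτ : 0 < τ) {η C' : ℝ}
    (hcomm : ∀ x y, |L x y - L y x| ≤ η / τ * k x y + C') (x : M)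
    (h1 : ∫ y, (k y x - τ * L y x) * s y ∂σ = 0) :
    |∫ y, k x y * s y ∂σ - τ * ∫ y, L x y * s y ∂σ| ≤
      η * ∫ y, k x y ∂σ + τ * C' * σ.real univ := by
  have hsi : Integrable s σ := sint hs hs1
  have hL' : Continuous fun p : M × M => (fun x y => L y x) p.1 p.2 := hL.comp continuous_swap
  have i1 : Integrable (fun y => k x y * s y) σ := kmul_int hk x hsi
  have i2 : Integrable (fun y => L x y * s y) σ := kmul_int hL x hsi
  have i3 : Integrable (fun y => L y x * s y) σ := kmul_int (k := fun x y => L y x) hL' x hsi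
  have h2 : ∫ y, (k y x - τ * L y x) * s y ∂σ =
      ∫ y, k x y * s y ∂σ - τ * ∫ y, L y x * s y ∂σ := by
    rw [← integral_const_mul, ← integral_sub i1 (i3.const_mul τ)]
    refine integral_congr_ae (Eventually.of_forall fun y => ?_)
    show (k y x - τ * L y x) * s y = k x y * s y - τ * (L y x * s y)
    rw [hsymm x y]
    ring
  have h3 : ∫ y, k x y * s y ∂σ = τ * ∫ y, L y x * s y ∂σ := by
    rw [h2] at h1
    linarith
  have h5 : ∫ y, k x y * s y ∂σ - τ * ∫ y, L x y * s y ∂σ =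
      τ * ∫ y, (L y x * s y - L x y * s y) ∂σ := by
    rw [h3, integral_sub i3 i2]
    ring
  have hk0 : Integrable (fun y => k x y) σ := cint (hk.comp (continuous_const.prodMk continuous_id))
  have h6 : |∫ y, (L y x * s y - L x y * s y) ∂σ| ≤ ∫ y, (η / τ * k x y + C') ∂σ := by
    refine abs_integral_le_integral_abs.trans ?_
    refine integral_mono (i3.sub i2).abs ((hk0.const_mul _).add (integrable_const C')) fun y => ?_
    show |L y x * s y - L x y * s y| ≤ η / τ * k x y + C'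
    rw [← sub_mul, abs_mul]
    have h7 : |L y x - L x y| ≤ η / τ * k x y + C' := by
      rw [abs_sub_comm]
      exact hcomm x y
    exact (mul_le_of_le_one_right (abs_nonneg _) (hs1 y)).trans h7
  have h7 : ∫ y, (η / τ * k x y + C') ∂σ = η / τ * ∫ y, k x y ∂σ + C' * σ.real univ := by
    have e1 := integral_add (hk0.const_mul (η / τ)) (integrable_const C')
    rw [integral_const_mul, integral_const, smul_eq_mul, mul_comm (σ.real univ)] at e1
    exact e1
  rw [h5, abs_mul, abs_of_pos hτ]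
  rw [h7] at h6
  refine (mul_le_mul_of_nonneg_left h6 hτ.le).trans (le_of_eq ?_)
  field_simp

theorem fin [IsFiniteMeasure μ] {U v Lv W Ms : M → ℝ} (hU : Continuous U) (hv : Continuous v)
    (hLv : Continuous Lv) (hMs : Continuous Ms) {τ η' C' : ℝ} (hτ : 0 < τ)
    (h1 : ∀ x, |v x - U x| ≤ 1) (h2 : ∀ x, |Lv x - W x| ≤ 1)
    (h3 : ∀ x, |U x - τ * W x| ≤ η' * Ms x + C')
    (h4 : ∫ x, |v x| ∂μ ≤ ∫ x, |v x - τ * Lv x| ∂μ) :
    ∫ x, |U x| ∂μ ≤ η' * ∫ x, Ms x ∂μ + ((C' + 1 + τ) * μ.real univ + μ.real univ) := by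
  have e1 : ∫ x, |U x| ∂μ ≤ ∫ x, (|v x| + 1) ∂μ := by
    refine integral_mono (cint hU.abs) (cint (hv.abs.add continuous_const)) fun x => ?_
    show |U x| ≤ |v x| + 1
    have h5 := abs_sub_abs_le_abs_sub (U x) (v x)
    have h6 := h1 x
    rw [abs_sub_comm] at h6
    linarith
  have e2 : ∫ x, (|v x| + 1) ∂μ = ∫ x, |v x| ∂μ + μ.real univ := by
    have h5 := integral_add (cint (σ := μ) hv.abs) (integrable_const (1 : ℝ))
    rw [integral_const, smul_eq_mul, mul_one] at h5
    exact h5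
  have e3 : ∫ x, |v x - τ * Lv x| ∂μ ≤ ∫ x, (η' * Ms x + (C' + 1 + τ)) ∂μ := by
    refine integral_mono (cint (hv.sub (hLv.const_mul τ)).abs)
      (cint ((hMs.const_mul η').add continuous_const)) fun x => ?_
    show |v x - τ * Lv x| ≤ η' * Ms x + (C' + 1 + τ)
    have h5 : v x - τ * Lv x = (U x - τ * W x) + (v x - U x) + -(τ * (Lv x - W x)) := by ring
    rw [h5]
    refine (abs_add_three _ _ _).trans ?_
    rw [abs_neg, abs_mul, abs_of_pos hτ]
    have h6 := mul_le_mul_of_nonneg_left (h2 x) hτ.le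
    have h7 := h1 x
    have h8 := h3 x
    linarith
  have e4 : ∫ x, (η' * Ms x + (C' + 1 + τ)) ∂μ = η' * ∫ x, Ms x ∂μ + (C' + 1 + τ) * μ.real univ := by
    have h5 := integral_add (cint (σ := μ) (hMs.const_mul η')) (integrable_const (C' + 1 + τ))
    rw [integral_const_mul, integral_const, smul_eq_mul, mul_comm (μ.real univ)] at h5
    exact h5
  linarith

theorem mass_cont [IsFiniteMeasure σ] {k : M → M → ℝ} (hk : Continuous fun p : M × M => k p.1 p.2) :
    Continuous fun x => ∫ y, k x y ∂σ := by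
  have h1 := kint_cont (σ := σ) hk (s := fun _ => 1) (integrable_const 1)
  simpa using h1

theorem mass_swap [IsFiniteMeasure μ] [IsFiniteMeasure σ] {k : M → M → ℝ}
    (hk : Continuous fun p : M × M => k p.1 p.2) (hsymm : ∀ x y, k x y = k y x) {B : ℝ}
    (hB : ∀ y, ∫ x, k y x ∂μ ≤ B) : ∫ x, (∫ y, k x y ∂σ) ∂μ ≤ B * σ.real univ := by
  have h1 := kswap (μ := μ) (σ := σ) hk (r := fun _ => 1) (s := fun _ => 1) (integrable_const 1)
    (integrable_const 1)
  simp only [one_mul, mul_one] at h1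
  rw [h1]
  have h2 : ∀ y, ∫ x, k x y ∂μ = ∫ x, k y x ∂μ := fun y =>
    integral_congr_ae (Eventually.of_forall fun x => hsymm x y)
  simp only [h2]
  have h3 : ∫ y, (∫ x, k y x ∂μ) ∂σ ≤ ∫ _, B ∂σ :=
    integral_mono (cint (mass_cont hk)) (integrable_const B) hB
  rw [integral_const, smul_eq_mul, mul_comm] at h3
  exact h3

end S1dAux

/-- Proof: let `U x = ∫ K_j(x, y) s(y) dσ(y)`. By the symmetry of the kernel and `hw` for
`f = K_j(·, x)`: `U x = ∫ K_j(y, x) s(y) dσ(y) = τ ∫ Lap (K_j(·, x)) y s(y) dσ(y)`. Hence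
`|U x - τ ∫ Lap (K_j(·, y)) x s(y) dσ(y)| ≤ τ ∫ |Lap (K_j(·, x)) y - Lap (K_j(·, y)) x| dσ(y)
≤ τ (η ∫ K_j(x, y) dσ(y) + C σ(M))` by `Kern.comm` (and `|s| ≤ 1`; `Lap (K_j(·, y)) x` is a continuous
function of `(x, y)` by `Kern.lap_cont`). -/
theorem comm_est {K : ℕ → M → M → ℝ} (hK : Kern g μ K) [IsFiniteMeasure σ] {s : M → ℝ}
    (hs : Measurable s) (hs1 : ∀ x, |s x| ≤ 1) {τ : ℝ} (hτ : 0 < τ)
    (hw : ∀ f : M → ℝ, Sm E f → ∫ x, (f x - τ * Lap g f x) * s x ∂σ = 0) {η : ℝ} (hη : 0 < η) :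
    ∃ C : ℝ, 0 ≤ C ∧ ∀ j x,
      |∫ y, K j x y * s y ∂σ - τ * ∫ y, Lap g (fun z => K j z y) x * s y ∂σ| ≤
        η * ∫ y, K j x y ∂σ + C := by
  obtain ⟨C', hC', hcomm⟩ := hK.comm (η / τ) (by positivity)
  refine ⟨τ * C' * σ.real univ, by positivity, fun j x => ?_⟩
  exact S1dAux.est (k := K j) (L := fun x y => Lap g (fun z => K j z y) x) (hK.cont j)
    (hK.lap_cont j) (hK.symm j) hs hs1 hτ (hcomm j) x (hw (fun y => K j y x) (hK.sm j x))

/-- Proof: for given `j` let `v` be the function of `approx` with `t = 1` for `s`. By `l1_contraction`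
for `v` and `comm_est`
`∫ |U| ≤ ∫ |v| + μ(M) ≤ ∫ |v - τ Lap v| + μ(M) ≤ ∫ |U - τ ∫ Lap K s| + (2 + τ) μ(M)
≤ ∫ (η' ∫ K_j(x, y) dσ(y) + C') dμ(x) + (2 + τ) μ(M)`; exchange the integrals (`kswap` with `r = s = 1`),
and `∫ K_j(x, y) dμ(x) = ∫ K_j(y, x) dμ(x) ≤ κ ∫ K_j(x₀, x) dμ(x)` by `Kern.cmp`. -/
theorem l1_bound (hμ : IsRVol g μ) {K : ℕ → M → M → ℝ} (hK : Kern g μ K) [IsFiniteMeasure σ]
    {s : M → ℝ} (hs : Measurable s) (hs1 : ∀ x, |s x| ≤ 1) {τ : ℝ} (hτ : 0 < τ)
    (hw : ∀ f : M → ℝ, Sm E f → ∫ x, (f x - τ * Lap g f x) * s x ∂σ = 0) (x₀ : M) {η : ℝ}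
    (hη : 0 < η) :
    ∃ C : ℝ, 0 ≤ C ∧ ∀ j, ∫ x, |∫ y, K j x y * s y ∂σ| ∂μ ≤ η * ∫ y, K j x₀ y ∂μ + C := by
  have hfin := hμ.fin
  obtain ⟨κ, hκ, hcmp⟩ := hK.cmp
  have hσ : 0 ≤ σ.real univ := measureReal_nonneg
  obtain ⟨C', hC', hest⟩ := comm_est hK hs hs1 hτ hw
    (show 0 < η / (κ * (σ.real univ + 1)) by positivity)
  have hsi : Integrable s σ := S1dAux.sint hs hs1
  refine ⟨(C' + 1 + τ) * μ.real univ + μ.real univ, by positivity, fun j => ?_⟩
  obtain ⟨v, hv, hv1, hv2⟩ := approx hK (σ := σ) j hsi one_pos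
  have h1 := S1dAux.fin (μ := μ) (kint_cont (hK.cont j) hsi) hv.continuous
    (Circ.sm_lap g hv).continuous (S1dAux.mass_cont (σ := σ) (hK.cont j)) hτ hv1 hv2 (hest j)
    (l1_contraction hμ hv hτ.le)
  have h2 := S1dAux.mass_swap (μ := μ) (σ := σ) (hK.cont j) (hK.symm j)
    (B := κ * ∫ y, K j x₀ y ∂μ) fun y => hcmp j y x₀
  refine h1.trans ?_
  have h3 : 0 ≤ ∫ y, K j x₀ y ∂μ := integral_nonneg fun y => (hK.pos j x₀ y).le
  set m := ∫ y, K j x₀ y ∂μ with hm
  have h4 : η / (κ * (σ.real univ + 1)) * ∫ x, (∫ y, K j x y ∂σ) ∂μ ≤ η * m := by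
    have h5 : 0 ≤ η / (κ * (σ.real univ + 1)) := by positivity
    refine (mul_le_mul_of_nonneg_left h2 h5).trans ?_
    have h6 : η / (κ * (σ.real univ + 1)) * (κ * m * σ.real univ) =
        η * m * (σ.real univ / (σ.real univ + 1)) := by
      field_simp
    rw [h6]
    refine mul_le_of_le_one_right (by positivity) ?_
    rw [div_le_one (by positivity)]
    linarith
  linarith

end Pool.Agent.Lib.MP_df705a_gt.Pin.S1
end
end

section

/-!
# Spectral pinching, part S1, S1e: weak solutions with a measure vanish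
-/

open scoped Manifold ContDiff Topology
open Set Bundle Module Filter MeasureTheory

noncomputable section

set_option linter.unusedSectionVars false

namespace Pool.Agent.Lib.MP_df705a_gt.Pin.S1

open Pool.Agent.Lib.MP_df705a_gt.Twist Pool.Agent.Lib.MP_df705a_gt.Perm
open Pool.Agent.Lib.MP_df705a_gt.Coll

variable {E : Type*} [NormedAddCommGroup E] [NormedSpace ℝ E] [FiniteDimensional ℝ E]
  {M : Type*} [TopologicalSpace M] [ChartedSpace E M] [IsManifold 𝓘(ℝ, E) ∞ M]
  [MeasurableSpace E] [BorelSpace E] [MeasurableSpace M] [BorelSpace M]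
  [CompactSpace M] [T2Space M]
  {g : Met E M} {μ σ : Measure M}

namespace S1eAux

theorem sint [IsFiniteMeasure σ] {s : M → ℝ} (hs : Measurable s) (hs1 : ∀ x, |s x| ≤ 1) :
    Integrable s σ :=
  Integrable.of_bound hs.aestronglyMeasurable 1 (Eventually.of_forall hs1)

theorem cint [IsFiniteMeasure σ] {f : M → ℝ} (hf : Continuous f) : Integrable f σ := by
  obtain ⟨C, hC⟩ : ∃ C, ∀ y, ‖f y‖ ≤ C := by
    obtain ⟨C, hC⟩ := isCompact_univ.exists_bound_of_continuousOn hf.continuousOn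
    exact ⟨C, fun y => hC y (mem_univ y)⟩
  exact Integrable.of_bound hf.measurable.aestronglyMeasurable C (Eventually.of_forall hC)

theorem cmul [IsFiniteMeasure σ] {f s : M → ℝ} (hf : Continuous f) (hs : Integrable s σ) :
    Integrable (fun x => f x * s x) σ := by
  obtain ⟨C, hC⟩ : ∃ C, ∀ y, ‖f y‖ ≤ C := by
    obtain ⟨C, hC⟩ := isCompact_univ.exists_bound_of_continuousOn hf.continuousOn
    exact ⟨C, fun y => hC y (mem_univ y)⟩
  exact hs.bdd_mul hf.measurable.aestronglyMeasurable (Eventually.of_forall hC)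

theorem mass_cont [IsFiniteMeasure σ] {k : M → M → ℝ} (hk : Continuous fun p : M × M => k p.1 p.2) :
    Continuous fun x => ∫ y, k x y ∂σ := by
  have h1 := kint_cont (σ := σ) hk (s := fun _ => 1) (integrable_const 1)
  simpa using h1

theorem test_aux [IsFiniteMeasure μ] [IsFiniteMeasure σ] {k : M → M → ℝ}
    (hk : Continuous fun p : M × M => k p.1 p.2) (hsymm : ∀ x y, k x y = k y x)
    (hpos : ∀ x y, 0 < k x y) {r s : M → ℝ} (hr : Continuous r) (hs : Measurable s)
    (hs1 : ∀ x, |s x| ≤ 1) {R : ℝ} (hR0 : 0 ≤ R) (hR : ∀ x, |r x| ≤ R) {η C B A : ℝ}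
    (hη : 0 ≤ η) (hnear : ∀ x y, |r x - r y| * k x y ≤ η * k x y + C)
    (hB : ∀ y, ∫ x, k y x ∂μ ≤ B) (hA : ∫ x, |∫ y, k x y * s y ∂σ| ∂μ ≤ A) :
    |∫ y, r y * (∫ x, k y x ∂μ) * s y ∂σ| ≤
      R * A + (η * B + C * μ.real univ) * σ.real univ := by
  have hsi : Integrable s σ := sint hs hs1
  have hri : Integrable r μ := cint hr
  have e0 := kswap (μ := μ) hk hri hsi
  have hUc : Continuous fun x => ∫ y, k x y * s y ∂σ := kint_cont hk hsi
  have hGc : Continuous fun y => ∫ x, k y x * r x ∂μ := kint_cont hk hri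
  have hG : ∀ y, ∫ x, r x * k x y ∂μ = ∫ x, k y x * r x ∂μ := fun y =>
    integral_congr_ae (Eventually.of_forall fun x => by
      show r x * k x y = k y x * r x
      rw [hsymm x y, mul_comm])
  simp only [hG] at e0
  have hmc : Continuous fun y => ∫ x, k y x ∂μ := mass_cont hk
  have h1 : |∫ x, r x * (∫ y, k x y * s y ∂σ) ∂μ| ≤ R * A := by
    refine abs_integral_le_integral_abs.trans ?_
    refine le_trans ?_ (mul_le_mul_of_nonneg_left hA hR0)
    rw [← integral_const_mul]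
    refine integral_mono (cint (hr.mul hUc).abs) ((cint hUc.abs).const_mul R) fun x => ?_
    show |r x * (∫ y, k x y * s y ∂σ)| ≤ R * |∫ y, k x y * s y ∂σ|
    rw [abs_mul]
    exact mul_le_mul_of_nonneg_right (hR x) (abs_nonneg _)
  have hpt : ∀ y, |r y * (∫ x, k y x ∂μ) - ∫ x, k y x * r x ∂μ| ≤ η * B + C * μ.real univ := by
    intro y
    have hkyc : Continuous (k y) := hk.comp (continuous_const.prodMk continuous_id)
    have i1 : Integrable (fun x => k y x) μ := cint hkyc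
    have i2 : Integrable (fun x => k y x * r x) μ := cint (hkyc.mul hr)
    have e1 : r y * (∫ x, k y x ∂μ) - ∫ x, k y x * r x ∂μ =
        ∫ x, (r y * k y x - k y x * r x) ∂μ := by
      rw [← integral_const_mul, ← integral_sub (i1.const_mul _) i2]
    rw [e1]
    refine abs_integral_le_integral_abs.trans ?_
    have e2 : ∫ x, |r y * k y x - k y x * r x| ∂μ ≤ ∫ x, (η * k y x + C) ∂μ := by
      refine integral_mono ((i1.const_mul _).sub i2).abs ((i1.const_mul _).add
        (integrable_const C)) fun x => ?_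
      show |r y * k y x - k y x * r x| ≤ η * k y x + C
      have e3 : r y * k y x - k y x * r x = (r y - r x) * k y x := by ring
      rw [e3, abs_mul, abs_of_pos (hpos y x)]
      exact hnear y x
    refine e2.trans ?_
    have e3 : ∫ x, (η * k y x + C) ∂μ = η * ∫ x, k y x ∂μ + C * μ.real univ := by
      have h5 := integral_add (i1.const_mul η) (integrable_const C)
      rw [integral_const_mul, integral_const, smul_eq_mul, mul_comm (μ.real univ)] at h5
      exact h5
    rw [e3]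
    have e4 := mul_le_mul_of_nonneg_left (hB y) hη
    linarith
  have j1 : Integrable (fun y => r y * (∫ x, k y x ∂μ) * s y) σ := cmul (hr.mul hmc) hsi
  have j2 : Integrable (fun y => (∫ x, k y x * r x ∂μ) * s y) σ := cmul hGc hsi
  have h2 : |∫ y, (r y * (∫ x, k y x ∂μ) * s y - (∫ x, k y x * r x ∂μ) * s y) ∂σ| ≤
      (η * B + C * μ.real univ) * σ.real univ := by
    refine abs_integral_le_integral_abs.trans ?_
    have e2 : ∫ y, |r y * (∫ x, k y x ∂μ) * s y - (∫ x, k y x * r x ∂μ) * s y| ∂σ ≤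
        ∫ _, (η * B + C * μ.real univ) ∂σ := by
      refine integral_mono (j1.sub j2).abs (integrable_const _) fun y => ?_
      show |r y * (∫ x, k y x ∂μ) * s y - (∫ x, k y x * r x ∂μ) * s y| ≤ _
      rw [← sub_mul, abs_mul]
      exact (mul_le_of_le_one_right (abs_nonneg _) (hs1 y)).trans (hpt y)
    refine e2.trans (le_of_eq ?_)
    rw [integral_const, smul_eq_mul, mul_comm]
  rw [integral_sub j1 j2, ← e0] at h2
  have h3 := abs_add_le (∫ y, r y * (∫ x, k y x ∂μ) * s y ∂σ -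
    ∫ x, r x * (∫ y, k x y * s y ∂σ) ∂μ) (∫ x, r x * (∫ y, k x y * s y ∂σ) ∂μ)
  rw [sub_add_cancel] at h3
  linarith

theorem van_aux [IsFiniteMeasure σ] {m s r : M → ℝ} (hm : Continuous m) (hm0 : ∀ x, 0 ≤ m x)
    (hs : Measurable s) (hs1 : ∀ x, |s x| ≤ 1) (hr : Continuous r) {κ m₀ δ A : ℝ} (hκ : 0 ≤ κ)
    (h1 : ∀ y, m₀ ≤ κ * m y) (h2 : ∀ y, m y ≤ κ * m₀) (hm₀ : 0 ≤ m₀)
    (h3 : ∫ x, |s x - r x| ∂σ ≤ δ)
    (h4 : |∫ y, r y * m y * s y ∂σ| ≤ A) :
    m₀ * ∫ x, s x ^ 2 ∂σ ≤ κ * (A + κ * m₀ * δ) := by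
  have hsi : Integrable s σ := sint hs hs1
  have hs2 : Integrable (fun x => s x ^ 2) σ := by
    refine Integrable.of_bound (hs.pow_const 2).aestronglyMeasurable 1
      (Eventually.of_forall fun x => ?_)
    rw [Real.norm_eq_abs, abs_pow]
    exact pow_le_one₀ (abs_nonneg _) (hs1 x)
  have i1 : Integrable (fun x => m x * s x ^ 2) σ := cmul hm hs2
  have i2 : Integrable (fun y => r y * m y * s y) σ := cmul (hr.mul hm) hsi
  have i3 : Integrable (fun x => |s x - r x|) σ := (hsi.sub (cint hr)).abs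
  have e1 : m₀ * ∫ x, s x ^ 2 ∂σ ≤ κ * ∫ x, m x * s x ^ 2 ∂σ := by
    rw [← integral_const_mul, ← integral_const_mul]
    refine integral_mono (hs2.const_mul _) (i1.const_mul _) fun x => ?_
    show m₀ * s x ^ 2 ≤ κ * (m x * s x ^ 2)
    have e2 := mul_le_mul_of_nonneg_right (h1 x) (sq_nonneg (s x))
    linarith
  refine e1.trans (mul_le_mul_of_nonneg_left ?_ hκ)
  have e2 : ∫ x, m x * s x ^ 2 ∂σ ≤ ∫ x, (r x * m x * s x + κ * m₀ * |s x - r x|) ∂σ := by
    refine integral_mono i1 (i2.add (i3.const_mul _)) fun x => ?_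
    show m x * s x ^ 2 ≤ r x * m x * s x + κ * m₀ * |s x - r x|
    have e3 : m x * s x ^ 2 = r x * m x * s x + m x * (s x * (s x - r x)) := by ring
    rw [e3]
    have e4 : s x * (s x - r x) ≤ |s x - r x| := by
      refine (le_abs_self _).trans ?_
      rw [abs_mul]
      exact mul_le_of_le_one_left (abs_nonneg _) (hs1 x)
    have e5 := mul_le_mul_of_nonneg_left e4 (hm0 x)
    have e6 := mul_le_mul_of_nonneg_right (h2 x) (abs_nonneg (s x - r x))
    linarith
  refine e2.trans ?_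
  have e3 : ∫ x, (r x * m x * s x + κ * m₀ * |s x - r x|) ∂σ =
      ∫ x, r x * m x * s x ∂σ + κ * m₀ * ∫ x, |s x - r x| ∂σ := by
    have e4 := integral_add i2 (i3.const_mul (κ * m₀))
    rw [integral_const_mul] at e4
    exact e4
  rw [e3]
  have e4 := mul_le_mul_of_nonneg_left h3 (mul_nonneg hκ hm₀)
  have e5 := le_abs_self (∫ x, r x * m x * s x ∂σ)
  linarith

end S1eAux

/-- Proof: by `kswap`, `∫ r U_j dμ = ∫ (∫ r(x) K_j(x, y) dμ(x)) s(y) dσ(y)`, where
`U_j x = ∫ K_j(x, y) s(y) dσ(y)`; the left side is at most `sup |r| ∫ |U_j| dμ` (`l1_bound`), and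
`|∫ r(x) K_j(x, y) dμ(x) - r(y) m_j(y)| ≤ η' m_j(y) + C μ(M)` (`Kern.near`), where
`m_j(y) = ∫ K_j(y, x) dμ(x) ≤ κ m_j(x₀)` (`Kern.symm`, `Kern.cmp`). -/
theorem test_bound (hμ : IsRVol g μ) {K : ℕ → M → M → ℝ} (hK : Kern g μ K) [IsFiniteMeasure σ]
    {s : M → ℝ} (hs : Measurable s) (hs1 : ∀ x, |s x| ≤ 1) {τ : ℝ} (hτ : 0 < τ)
    (hw : ∀ f : M → ℝ, Sm E f → ∫ x, (f x - τ * Lap g f x) * s x ∂σ = 0) (x₀ : M)
    {r : M → ℝ} (hr : Continuous r) {η : ℝ} (hη : 0 < η) :
    ∃ C : ℝ, 0 ≤ C ∧ ∀ j,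
      |∫ y, r y * (∫ x, K j y x ∂μ) * s y ∂σ| ≤ η * ∫ y, K j x₀ y ∂μ + C := by
  have hfin := hμ.fin
  obtain ⟨κ, hκ, hcmp⟩ := hK.cmp
  obtain ⟨R, hR⟩ : ∃ R, ∀ y, ‖r y‖ ≤ R := by
    obtain ⟨R, hR⟩ := isCompact_univ.exists_bound_of_continuousOn hr.continuousOn
    exact ⟨R, fun y => hR y (mem_univ y)⟩
  have hR0 : 0 ≤ R := (norm_nonneg _).trans (hR x₀)
  have hσ : 0 ≤ σ.real univ := measureReal_nonneg
  obtain ⟨C₁, hC₁, hl1⟩ := l1_bound hμ hK hs hs1 hτ hw x₀
    (show 0 < η / (2 * (R + 1)) by positivity)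
  obtain ⟨C₂, hC₂, hnear⟩ := hK.near r hr (η / (2 * κ * (σ.real univ + 1))) (by positivity)
  refine ⟨R * C₁ + C₂ * μ.real univ * σ.real univ, by positivity, fun j => ?_⟩
  have h1 := S1eAux.test_aux (μ := μ) (σ := σ) (hK.cont j) (hK.symm j) (hK.pos j) hr hs hs1 hR0 hR
    (by positivity) (hnear j) (B := κ * ∫ y, K j x₀ y ∂μ) (fun y => hcmp j y x₀) (hl1 j)
  have h3 : 0 ≤ ∫ y, K j x₀ y ∂μ := integral_nonneg fun y => (hK.pos j x₀ y).le
  refine h1.trans ?_
  set m := ∫ y, K j x₀ y ∂μ with hm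
  have h4 : R * (η / (2 * (R + 1)) * m) ≤ η / 2 * m := by
    have h5 : R * (η / (2 * (R + 1)) * m) = η / 2 * m * (R / (R + 1)) := by
      field_simp
    rw [h5]
    refine mul_le_of_le_one_right (by positivity) ?_
    rw [div_le_one (by positivity)]
    linarith
  have h6 : η / (2 * κ * (σ.real univ + 1)) * (κ * m) * σ.real univ ≤ η / 2 * m := by
    have h7 : η / (2 * κ * (σ.real univ + 1)) * (κ * m) * σ.real univ =
        η / 2 * m * (σ.real univ / (σ.real univ + 1)) := by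
      field_simp
    rw [h7]
    refine mul_le_of_le_one_right (by positivity) ?_
    rw [div_le_one (by positivity)]
    linarith
  have h8 : R * (η / (2 * (R + 1)) * m + C₁) = R * (η / (2 * (R + 1)) * m) + R * C₁ := by ring
  have h9 : (η / (2 * κ * (σ.real univ + 1)) * (κ * m) + C₂ * μ.real univ) * σ.real univ =
      η / (2 * κ * (σ.real univ + 1)) * (κ * m) * σ.real univ +
        C₂ * μ.real univ * σ.real univ := by ring
  rw [h8, h9]
  linarith

/-- Proof: let `δ > 0` and `r` continuous with `∫ |r - s| dσ ≤ δ`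
(`MeasureTheory.Integrable.exists_hasCompactSupport_integral_sub_le` or density of the continuous
functions in `L¹`; `σ` is a finite Borel measure on a compact metrizable space, so it is regular).
With `m_j(y) = ∫ K_j(y, x) dμ(x)`, `m_j(x₀) ≤ κ m_j(y)` and `m_j(y) ≤ κ m_j(x₀)` (`Kern.cmp`):
`m_j(x₀) ∫ s² dσ ≤ κ ∫ m_j s² dσ ≤ κ |∫ r m_j s dσ| + κ ∫ |s - r| |s| m_j dσ
≤ κ (δ m_j(x₀) + C) + κ² δ m_j(x₀)` by `test_bound`. Divide by `m_j(x₀) → ∞` (`Kern.tends`):
`∫ s² dσ ≤ κ δ + κ² δ` for all `δ`, so `∫ s² = 0`, `s = 0` almost everywhere. -/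
theorem vanish (hμ : IsRVol g μ) {K : ℕ → M → M → ℝ} (hK : Kern g μ K) [IsFiniteMeasure σ]
    [Nonempty M] {s : M → ℝ} (hs : Measurable s) (hs1 : ∀ x, |s x| ≤ 1) {τ : ℝ} (hτ : 0 < τ)
    (hw : ∀ f : M → ℝ, Sm E f → ∫ x, (f x - τ * Lap g f x) * s x ∂σ = 0) :
    ∀ᵐ x ∂σ, s x = 0 := by
  have hfin := hμ.fin
  have hsc : SecondCountableTopology M := ChartedSpace.secondCountable_of_sigmaCompact E M
  obtain ⟨x₀⟩ : Nonempty M := inferInstance
  obtain ⟨κ, hκ, hcmp⟩ := hK.cmp
  have hsi : Integrable s σ := S1eAux.sint hs hs1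
  have key : ∀ ε : ℝ, 0 < ε → ∫ x, s x ^ 2 ∂σ ≤ ε := by
    intro ε hε
    have hδ : 0 < ε / (2 * (κ + κ ^ 2)) := by positivity
    obtain ⟨r, hr1, hr2⟩ := hsi.exists_boundedContinuous_integral_sub_le hδ
    obtain ⟨C, hC, hC'⟩ := test_bound hμ hK hs hs1 hτ hw x₀ r.continuous hδ
    obtain ⟨j, hj1, hj2⟩ := (((hK.tends x₀).eventually_ge_atTop 1).and
      ((hK.tends x₀).eventually_ge_atTop (2 * κ * C / ε))).exists
    have h1 := S1eAux.van_aux (σ := σ) (S1eAux.mass_cont (σ := μ) (hK.cont j))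
      (fun x => integral_nonneg fun y => (hK.pos j x y).le) hs hs1 r.continuous hκ.le
      (fun y => hcmp j x₀ y) (fun y => hcmp j y x₀)
      (integral_nonneg fun y => (hK.pos j x₀ y).le) hr1 (hC' j)
    set m := ∫ y, K j x₀ y ∂μ with hm
    set I := ∫ x, s x ^ 2 ∂σ with hI
    have hm0 : 0 < m := by linarith
    have h2 : κ * (ε / (2 * (κ + κ ^ 2)) * m + C + κ * m * (ε / (2 * (κ + κ ^ 2)))) =
        ε / 2 * m + κ * C := by
      field_simp
      ring
    rw [h2] at h1
    rw [div_le_iff₀ hε] at hj2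
    have h3 : m * I ≤ m * ε := by linarith
    exact le_of_mul_le_mul_left h3 hm0
  have h0 : ∫ x, s x ^ 2 ∂σ = 0 := by
    refine le_antisymm ?_ (integral_nonneg fun x => sq_nonneg _)
    exact le_of_forall_pos_le_add fun ε hε => by
      rw [zero_add]
      exact key ε hε
  have hs2 : Integrable (fun x => s x ^ 2) σ := by
    refine Integrable.of_bound (hs.pow_const 2).aestronglyMeasurable 1
      (Eventually.of_forall fun x => ?_)
    rw [Real.norm_eq_abs, abs_pow]
    exact pow_le_one₀ (abs_nonneg _) (hs1 x)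
  have h1 := (integral_eq_zero_iff_of_nonneg (fun x => sq_nonneg (s x)) hs2).1 h0
  filter_upwards [h1] with x hx
  have h2 : s x ^ 2 = 0 := hx
  exact pow_eq_zero_iff (two_ne_zero) |>.1 h2

end Pool.Agent.Lib.MP_df705a_gt.Pin.S1
end
end

section

/-!
# Spectral Ricci pinching, S3C3: the formula of Bochner
-/

open scoped Manifold ContDiff Topology
open Set Bundle Module Filter MeasureTheory

noncomputable section

set_option linter.unusedSectionVars false

namespace Pool.Agent.Lib.MP_df705a_gt.Pin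

open Pool.Agent.Lib.MP_df705a_gt.Twist Pool.Agent.Lib.MP_df705a_gt.Perm
open Pool.Agent.Lib.MP_df705a_gt.Coll (trM ipM)
open Pool.Agent.Lib.MP_df705a_gt.Coll.T (ddC mat pull RM SmF)

variable {E : Type*} [NormedAddCommGroup E] [NormedSpace ℝ E] [FiniteDimensional ℝ E]
  {h : Curv.Coeff E} {u v w : E → ℝ} {f : Fin (finrank ℝ E) → E → ℝ} {x : E}

private theorem S3C3_lap_sum (h : Curv.Coeff E) {ι : Type} (s : Finset ι) {u : ι → E → ℝ}
    (hu : ∀ i ∈ s, ContDiff ℝ ∞ (u i)) (x : E) :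
    lapC h (fun y => ∑ i ∈ s, u i y) x = ∑ i ∈ s, lapC h (u i) x := by
  classical
  induction s using Finset.induction_on with
  | empty =>
    simp only [Finset.sum_empty]
    exact G4.lapC_const h 0
  | insert a s ha ih =>
    have h1 : (fun y => ∑ i ∈ insert a s, u i y) = fun y => u a y + ∑ i ∈ s, u i y := by
      funext y
      rw [Finset.sum_insert ha]
    have h2 : ContDiff ℝ ∞ (fun y => ∑ i ∈ s, u i y) :=
      ContDiff.sum fun i hi => hu i (Finset.mem_insert_of_mem hi)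
    rw [h1, Finset.sum_insert ha, G4.lapC_add h (hu a (Finset.mem_insert_self _ _)).contDiffAt
      h2.contDiffAt, ih fun i hi => hu i (Finset.mem_insert_of_mem hi)]

private theorem S3C3_ipM_add {n : ℕ} (A S S' T : Matrix (Fin n) (Fin n) ℝ) :
    ipM A (S + S') T = ipM A S T + ipM A S' T := by
  unfold ipM
  simp only [← Finset.sum_add_distrib]
  refine Finset.sum_congr rfl fun i _ => Finset.sum_congr rfl fun j _ =>
    Finset.sum_congr rfl fun a _ => Finset.sum_congr rfl fun b _ => ?_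
  rw [Matrix.add_apply]
  ring

/-- Sum of `Coll.T.bochnerC` with `u = v = f i`; `lapC` of a finite sum (`G4.lapC_add`, `G4.lapC_const`,
induction). -/
theorem bochner_sum (hh : Curv.IsMetric h) (hf : ∀ i, ContDiff ℝ ∞ (f i)) (x : E) :
    (1 / 2) * lapC h (PP h f) x =
      HH h f x + RR h f x + ∑ i, gradC h (f i) (lapC h (f i)) x := by
  have h1 : lapC h (PP h f) x = ∑ i, lapC h (gradC h (f i) (f i)) x :=
    S3C3_lap_sum h Finset.univ (u := fun i => gradC h (f i) (f i))
      (fun i _ => contDiff_gradC hh (hf i) (hf i)) x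
  rw [h1, Finset.mul_sum]
  unfold HH RR
  rw [← Finset.sum_add_distrib, ← Finset.sum_add_distrib]
  refine Finset.sum_congr rfl fun i _ => ?_
  have h2 := Coll.T.bochnerC (rm_of hh x) (smF_of (hf i) x) (smF_of (hf i) x)
  have h3 : Coll.ric h x = ric h x := rfl
  rw [h3] at h2
  linarith

/-- `Coll.T.hess_grdC` with `φ = u`, `u = u`, `v = w`: `Hess u (∇u, ∇w) = (1/2) ⟨dw, d|du|²⟩`. -/
theorem gradC_grad_self (hh : Curv.IsMetric h) (hu : ContDiff ℝ ∞ u) (hw : ContDiff ℝ ∞ w) (x : E) :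
    gradC h w (gradC h u u) x = 2 * ipM (h x) (Curv.covHess h u x) (ddC u w x) := by
  have h1 := Coll.T.hess_grdC (rm_of hh x) (smF_of hu x) (smF_of hu x) (smF_of hw x)
  rw [h1]
  ring

/-- `R + P = ∑ (Ric + h) (d f i, d f i)`. -/
theorem RR_add_PP (hh : Curv.IsMetric h) (f : Fin (finrank ℝ E) → E → ℝ) (x : E) :
    RR h f x + PP h f x = ∑ i, ipM (h x) (ric h x + (1 : ℝ) • h x) (ddC (f i) (f i) x) := by
  unfold RR PP
  rw [← Finset.sum_add_distrib]
  refine Finset.sum_congr rfl fun i _ => ?_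
  rw [S3C3_ipM_add, one_smul, ipM_self_ddC hh]

theorem RR_add_PP_nonneg (hh : Curv.IsMetric h) (hr : RicGeAt h 1 x) :
    0 ≤ RR h f x + PP h f x := by
  rw [RR_add_PP hh]
  exact Finset.sum_nonneg fun i _ => ipM_posSemidef_nonneg hh hr (f i) x

end Pool.Agent.Lib.MP_df705a_gt.Pin
end
end

section

/-!
# Spectral Ricci pinching, S3C4: the gradient of P
-/

open scoped Manifold ContDiff Topology
open Set Bundle Module Filter MeasureTheory

noncomputable section

set_option linter.unusedSectionVars false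

namespace Pool.Agent.Lib.MP_df705a_gt.Pin

open Pool.Agent.Lib.MP_df705a_gt.Twist Pool.Agent.Lib.MP_df705a_gt.Perm
open Pool.Agent.Lib.MP_df705a_gt.Coll (trM ipM)
open Pool.Agent.Lib.MP_df705a_gt.Coll.T (ddC mat pull RM SmF)

variable {E : Type*} [NormedAddCommGroup E] [NormedSpace ℝ E] [FiniteDimensional ℝ E]
  {h : Curv.Coeff E} {f : Fin (finrank ℝ E) → E → ℝ} {x : E}

/-- `|dP| ≤ 2 √P √H`. Proof: `|dP|² = ∑ ⟨dP, d|d f i|²⟩ = 2 ∑ Hess (f i) (∇ f i, ∇ P)`
(`gradC_grad_self` with `w = P`) `≤ 2 ∑ |Hess f i| |d f i| |dP|` (`ipM_sq_le`, `ipM_ddC_self_le`)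
`≤ 2 √H √P |dP|` (Cauchy-Schwarz for the sum over `i`); divide by `|dP|`, square. -/
theorem gradC_PP_le (hh : Curv.IsMetric h) (hf : ∀ i, ContDiff ℝ ∞ (f i)) (x : E) :
    gradC h (PP h f) (PP h f) x ≤ 4 * PP h f x * HH h f x := by
  have hP : ContDiff ℝ ∞ (PP h f) := contDiff_PP hh hf
  have hN0 : 0 ≤ gradC h (PP h f) (PP h f) x := G4.gradC_nonneg (hh.2 x)
  have hH0 : 0 ≤ HH h f x := HH_nonneg hh f x
  have hP0 : 0 ≤ PP h f x := PP_nonneg hh f x
  have h1 : gradC h (PP h f) (PP h f) x =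
      ∑ i, 2 * ipM (h x) (Curv.covHess h (f i) x) (ddC (f i) (PP h f) x) := by
    have h2 : gradC h (PP h f) (PP h f) x = ∑ i, gradC h (gradC h (f i) (f i)) (PP h f) x :=
      gradC_sum_left hh Finset.univ (u := fun i => gradC h (f i) (f i))
        (fun i _ => (contDiff_gradC hh (hf i) (hf i)).contDiffAt.differentiableAt (by norm_num)) _
    rw [h2]
    refine Finset.sum_congr rfl fun i _ => ?_
    rw [gradC_comm' hh, gradC_grad_self hh (hf i) hP]
  have h3 : (∑ i, ipM (h x) (Curv.covHess h (f i) x) (ddC (f i) (PP h f) x)) ^ 2 ≤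
      HH h f x * (PP h f x * gradC h (PP h f) (PP h f) x) := by
    have h4 := Finset.sum_sq_le_sum_mul_sum_of_sq_le_mul Finset.univ
      (r := fun i => ipM (h x) (Curv.covHess h (f i) x) (ddC (f i) (PP h f) x))
      (f := fun i => ipM (h x) (Curv.covHess h (f i) x) (Curv.covHess h (f i) x))
      (g := fun i => gradC h (f i) (f i) x * gradC h (PP h f) (PP h f) x)
      (fun i _ => ipM_self_nonneg (hh.2 x) _)
      (fun i _ => mul_nonneg (G4.gradC_nonneg (hh.2 x)) hN0)
      (fun i _ => (ipM_sq_le (hh.2 x) _ _).trans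
        (mul_le_mul_of_nonneg_left (ipM_ddC_self_le hh _ _ x) (ipM_self_nonneg (hh.2 x) _)))
    rw [← Finset.sum_mul] at h4
    exact h4
  rw [← Finset.mul_sum] at h1
  set N := gradC h (PP h f) (PP h f) x with hN
  set S := ∑ i, ipM (h x) (Curv.covHess h (f i) x) (ddC (f i) (PP h f) x) with hS
  rcases hN0.eq_or_lt with h0 | h0
  · rw [← h0]
    positivity
  · have h5 : N * N ≤ (4 * PP h f x * HH h f x) * N := by
      calc N * N = 4 * S ^ 2 := by rw [h1]; ring
        _ ≤ 4 * (HH h f x * (PP h f x * N)) := by linarith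
        _ = (4 * PP h f x * HH h f x) * N := by ring
    exact le_of_mul_le_mul_right h5 h0

end Pool.Agent.Lib.MP_df705a_gt.Pin
end
end

section

/-!
# Spectral Ricci pinching, S3E1: integral identity for the Hessians
-/

open scoped Manifold ContDiff Topology
open Set Bundle Module Filter MeasureTheory

noncomputable section

set_option linter.unusedSectionVars false

namespace Pool.Agent.Lib.MP_df705a_gt.Pin

open Pool.Agent.Lib.MP_df705a_gt.Twist Pool.Agent.Lib.MP_df705a_gt.Perm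
open Pool.Agent.Lib.MP_df705a_gt.Coll (trM ipM)
open Pool.Agent.Lib.MP_df705a_gt.Coll.T (ddC mat pull RM SmF)

variable {E : Type*} [NormedAddCommGroup E] [NormedSpace ℝ E] [FiniteDimensional ℝ E]
  {h : Curv.Coeff E} {v : E → ℝ} {f : Fin (finrank ℝ E) → E → ℝ} {x : E}
  [MeasurableSpace E] [BorelSpace E]

/-- `∫ v (H + R) = ∫ (- (1/2) ⟨dv, dP⟩ + ∑ (v (Δ f i)² + Δ f i ⟨dv, d f i⟩))`. Proof: multiply `bochner_sum` by
`v`; `green'` for `P` and `v`, and for `f i` and `v * Δ f i` (`contDiff_lapC`), with `gradC_mul_left` and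
`gradC_comm'`. All functions are continuous with compact support (`integrable_vol`). -/
theorem integral_HR (hh : Curv.IsMetric h) (hf : ∀ i, ContDiff ℝ ∞ (f i)) (hv : ContDiff ℝ ∞ v)
    (hc : HasCompactSupport v) :
    ∫ x, v x * (HH h f x + RR h f x) ∂(vol h) =
      ∫ x, (- (1 / 2) * gradC h v (PP h f) x +
        ∑ i, (v x * lapC h (f i) x ^ 2 + lapC h (f i) x * gradC h v (f i) x)) ∂(vol h) := by
  have hP : ContDiff ℝ ∞ (PP h f) := contDiff_PP hh hf
  have hl : ∀ i, ContDiff ℝ ∞ (lapC h (f i)) := fun i => contDiff_lapC hh (hf i)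
  have hvl : ∀ i, ContDiff ℝ ∞ (fun x => v x * lapC h (f i) x) := fun i => hv.mul (hl i)
  have hcl : ∀ i, HasCompactSupport (fun x => v x * lapC h (f i) x) := fun i => hc.mul_right
  have hiA : Integrable (fun x => v x * (HH h f x + RR h f x)) (vol h) :=
    integrable_vol hh (hv.continuous.mul ((continuous_HH hh hf).add (continuous_RR hh hf)))
      hc.mul_right
  have hi0 : Integrable (fun x => v x * lapC h (PP h f) x + gradC h v (PP h f) x) (vol h) :=
    (integrable_vol hh (hv.continuous.mul (contDiff_lapC hh hP).continuous) hc.mul_right).add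
      (integrable_vol hh (contDiff_gradC hh hv hP).continuous
        (hasCompactSupport_gradC hc _))
  have hii : ∀ i, Integrable (fun x => (v x * lapC h (f i) x) * lapC h (f i) x +
      gradC h (fun x => v x * lapC h (f i) x) (f i) x) (vol h) := fun i =>
    (integrable_vol hh ((hvl i).continuous.mul (hl i).continuous) (hcl i).mul_right).add
      (integrable_vol hh (contDiff_gradC hh (hvl i) (hf i)).continuous
        (hasCompactSupport_gradC (hcl i) _))
  have g0 := green hh hP hv hc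
  have gi : ∀ i, ∫ x, ((v x * lapC h (f i) x) * lapC h (f i) x +
      gradC h (fun x => v x * lapC h (f i) x) (f i) x) ∂(vol h) = 0 :=
    fun i => green hh (hf i) (hvl i) (hcl i)
  have key : ∀ x, (- (1 / 2) * gradC h v (PP h f) x +
        ∑ i, (v x * lapC h (f i) x ^ 2 + lapC h (f i) x * gradC h v (f i) x)) =
      v x * (HH h f x + RR h f x) +
        (- (1 / 2) * (v x * lapC h (PP h f) x + gradC h v (PP h f) x) +
        ∑ i, ((v x * lapC h (f i) x) * lapC h (f i) x +
          gradC h (fun x => v x * lapC h (f i) x) (f i) x)) := by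
    intro x
    have hb := bochner_sum hh hf x
    have h1 : ∀ i, gradC h (fun x => v x * lapC h (f i) x) (f i) x =
        v x * gradC h (f i) (lapC h (f i)) x + lapC h (f i) x * gradC h v (f i) x := by
      intro i
      rw [gradC_mul_left hh (hv.differentiable (by simp)).differentiableAt
        ((hl i).differentiable (by simp)).differentiableAt, gradC_comm' hh (lapC h (f i)) (f i)]
    have h2 : ∑ i, ((v x * lapC h (f i) x) * lapC h (f i) x +
          gradC h (fun x => v x * lapC h (f i) x) (f i) x) =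
        ∑ i, (v x * lapC h (f i) x ^ 2 + lapC h (f i) x * gradC h v (f i) x) +
          v x * ∑ i, gradC h (f i) (lapC h (f i)) x := by
      rw [Finset.mul_sum, ← Finset.sum_add_distrib]
      refine Finset.sum_congr rfl fun i _ => ?_
      rw [h1 i]
      ring
    rw [h2]
    have h3 : HH h f x + RR h f x = (1 / 2) * lapC h (PP h f) x -
        ∑ i, gradC h (f i) (lapC h (f i)) x := by linarith
    rw [h3]
    ring
  rw [integral_congr_ae (Eventually.of_forall key)]
  have hi0' : Integrable (fun x => - (1 / 2) * (v x * lapC h (PP h f) x + gradC h v (PP h f) x))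
      (vol h) := hi0.const_mul _
  have his : Integrable (fun x => ∑ i, ((v x * lapC h (f i) x) * lapC h (f i) x +
          gradC h (fun x => v x * lapC h (f i) x) (f i) x)) (vol h) :=
    integrable_finsetSum _ fun i _ => hii i
  have hit : Integrable (fun x => - (1 / 2) * (v x * lapC h (PP h f) x + gradC h v (PP h f) x) +
      ∑ i, ((v x * lapC h (f i) x) * lapC h (f i) x +
          gradC h (fun x => v x * lapC h (f i) x) (f i) x)) (vol h) := hi0'.add his
  rw [integral_add hiA hit, integral_add hi0' his, integral_const_mul, g0,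
    integral_finsetSum _ fun i _ => hii i]
  rw [Finset.sum_eq_zero fun i _ => gi i]
  ring

end Pool.Agent.Lib.MP_df705a_gt.Pin
end
end

section

/-!
# Spectral Ricci pinching, S3D6: determinant and trace
-/

open scoped Manifold ContDiff Topology
open Set Bundle Module Filter MeasureTheory

noncomputable section

set_option linter.unusedSectionVars false

namespace Pool.Agent.Lib.MP_df705a_gt.Pin

open Pool.Agent.Lib.MP_df705a_gt.Twist Pool.Agent.Lib.MP_df705a_gt.Perm
open Pool.Agent.Lib.MP_df705a_gt.Coll (trM ipM)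
open Pool.Agent.Lib.MP_df705a_gt.Coll.T (ddC mat pull RM SmF)

variable {E : Type*} [NormedAddCommGroup E] [NormedSpace ℝ E] [FiniteDimensional ℝ E]
  {h : Curv.Coeff E} {f : Fin (finrank ℝ E) → E → ℝ} {x : E}

namespace S3D6Aux

open Matrix in
theorem ipM_eq {n : ℕ} {H A : Matrix (Fin n) (Fin n) ℝ} (hs : (H⁻¹).transpose = H⁻¹)
    {D : Matrix (Fin n) (Fin n) ℝ} {v : Fin n → ℝ} (hD : ∀ a b, D a b = v a * v b) :
    ipM H A D = v ⬝ᵥ (H⁻¹ * A * H⁻¹) *ᵥ v := by
  have h1 : v ⬝ᵥ (H⁻¹ * A * H⁻¹) *ᵥ v = (H⁻¹ *ᵥ v) ⬝ᵥ A *ᵥ (H⁻¹ *ᵥ v) := by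
    rw [Matrix.mul_assoc, ← Matrix.mulVec_mulVec, Matrix.dotProduct_mulVec,
      ← Matrix.mulVec_transpose, hs, Matrix.mulVec_mulVec]
  rw [h1, ipM, dotProduct]
  refine Finset.sum_congr rfl fun i _ => ?_
  rw [Matrix.mulVec, Matrix.mulVec, dotProduct, dotProduct, Finset.mul_sum]
  refine Finset.sum_congr rfl fun j _ => ?_
  rw [Matrix.mulVec, dotProduct]
  rw [mul_left_comm, Finset.sum_mul_sum, Finset.mul_sum]
  refine Finset.sum_congr rfl fun a _ => ?_
  rw [Finset.mul_sum]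
  refine Finset.sum_congr rfl fun b _ => ?_
  rw [hD]
  ring

open Matrix in
theorem diag_eq {n : ℕ} (F X : Matrix (Fin n) (Fin n) ℝ) (i : Fin n) :
    (F * X * F.transpose) i i = F i ⬝ᵥ X *ᵥ F i := by
  rw [Matrix.mul_apply, dotProduct]
  simp only [Matrix.mul_apply, Matrix.transpose_apply, Matrix.mulVec, dotProduct,
    Finset.sum_mul, Finset.mul_sum]
  rw [Finset.sum_comm]
  refine Finset.sum_congr rfl fun a _ => Finset.sum_congr rfl fun b _ => ?_
  ring

open Matrix in
theorem main {n : ℕ} {H A F G : Matrix (Fin n) (Fin n) ℝ} (hH : H.PosDef) (hA : A.PosSemidef)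
    (hG : G = F * H⁻¹ * F.transpose) (hGp : G.PosSemidef) {p : ℝ} (hp : ∀ i j, |G i j| ≤ p)
    (hp0 : 0 ≤ p) :
    G.det * trM H A ≤ n.factorial * p ^ (n - 1) * (F * (H⁻¹ * A * H⁻¹) * F.transpose).trace := by
  have hHs : H.transpose = H := by
    have h1 := hH.isHermitian
    rwa [Matrix.IsHermitian, Matrix.conjTranspose_eq_transpose_of_trivial] at h1
  have hAs : A.transpose = A := by
    have h1 := hA.isHermitian
    rwa [Matrix.IsHermitian, Matrix.conjTranspose_eq_transpose_of_trivial] at h1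
  have hHis : (H⁻¹).transpose = H⁻¹ := by rw [Matrix.transpose_nonsing_inv, hHs]
  have hunit : IsUnit H.det := hH.det_pos.ne'.isUnit
  have hX : (H⁻¹ * A * H⁻¹).PosSemidef := by
    have h1 := hA.conjTranspose_mul_mul_same H⁻¹
    rwa [Matrix.conjTranspose_eq_transpose_of_trivial, hHis] at h1
  have hQ : (F * (H⁻¹ * A * H⁻¹) * F.transpose).PosSemidef := by
    have h1 := hX.mul_mul_conjTranspose_same F
    rwa [Matrix.conjTranspose_eq_transpose_of_trivial] at h1
  have hadjH : (H⁻¹).adjugate = (H⁻¹).det • H := by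
    calc (H⁻¹).adjugate = (H⁻¹).adjugate * (H⁻¹ * H) := by
          rw [Matrix.nonsing_inv_mul _ hunit, mul_one]
      _ = ((H⁻¹).adjugate * H⁻¹) * H := by rw [Matrix.mul_assoc]
      _ = _ := by rw [Matrix.adjugate_mul, Matrix.smul_mul, one_mul]
  have hadj : G.adjugate = (H⁻¹).det • (F.adjugate.transpose * H * F.adjugate) := by
    rw [hG, Matrix.adjugate_mul_distrib, Matrix.adjugate_mul_distrib, hadjH,
      ← Matrix.adjugate_transpose, Matrix.smul_mul, Matrix.mul_smul, Matrix.mul_assoc]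
  have hdi : 0 < (H⁻¹).det := by
    rw [Matrix.det_nonsing_inv, Ring.inverse_eq_inv']
    exact inv_pos.2 hH.det_pos
  have hadjp : G.adjugate.PosSemidef := by
    rw [hadj]
    have h1 := hH.posSemidef.conjTranspose_mul_mul_same F.adjugate
    rw [Matrix.conjTranspose_eq_transpose_of_trivial] at h1
    exact h1.smul hdi.le
  have htr : ((F * (H⁻¹ * A * H⁻¹) * F.transpose) * G.adjugate).trace = G.det * trM H A := by
    have h1 : (F * (H⁻¹ * A * H⁻¹) * F.transpose) * G.adjugate =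
        ((H⁻¹).det * F.det) • (F * (H⁻¹ * A) * F.adjugate) := by
      have h2 : F.transpose * F.adjugate.transpose = F.det • (1 : Matrix (Fin n) (Fin n) ℝ) := by
        rw [← Matrix.transpose_mul, Matrix.adjugate_mul, Matrix.transpose_smul,
          Matrix.transpose_one]
      calc (F * (H⁻¹ * A * H⁻¹) * F.transpose) * G.adjugate =
          (H⁻¹).det • (F * (H⁻¹ * A * H⁻¹) * (F.transpose * F.adjugate.transpose) * H *
            F.adjugate) := by
            rw [hadj, Matrix.mul_smul]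
            simp only [Matrix.mul_assoc]
        _ = ((H⁻¹).det * F.det) • (F * (H⁻¹ * A * (H⁻¹ * H)) * F.adjugate) := by
            rw [h2]
            simp only [Matrix.mul_smul, Matrix.smul_mul, mul_one, smul_smul, Matrix.mul_assoc]
        _ = _ := by rw [Matrix.nonsing_inv_mul _ hunit, mul_one]
    have h3 : (F * (H⁻¹ * A) * F.adjugate).trace = F.det * trM H A := by
      rw [Matrix.trace_mul_comm, ← Matrix.mul_assoc, Matrix.adjugate_mul, Matrix.smul_mul,
        one_mul, Matrix.trace_smul, smul_eq_mul]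
      congr 1
      rw [Matrix.trace, trM]
      refine Finset.sum_congr rfl fun i _ => ?_
      rw [Matrix.diag_apply, Matrix.mul_apply]
      refine Finset.sum_congr rfl fun j _ => ?_
      have h4 : A j i = A i j := by
        conv_lhs => rw [← hAs]
        rfl
      rw [h4]
    rw [h1, Matrix.trace_smul, h3, hG, Matrix.det_mul, Matrix.det_mul, Matrix.det_transpose,
      smul_eq_mul]
    ring
  have htrp : G.adjugate.trace ≤ n.factorial * p ^ (n - 1) := by
    rw [Matrix.trace]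
    have h1 : ∑ i, G.adjugate.diag i ≤ ∑ _i : Fin n, ((n - 1).factorial * p ^ (n - 1) : ℝ) :=
      Finset.sum_le_sum fun i _ => (adjugate_diag hGp hp i).2
    rw [Finset.sum_const, Finset.card_univ, Fintype.card_fin, nsmul_eq_mul] at h1
    refine h1.trans ?_
    rcases Nat.eq_zero_or_pos n with h0 | h0
    · subst h0
      simp
    · rw [← mul_assoc, ← Nat.cast_mul, Nat.mul_factorial_pred h0.ne']
  rw [← htr]
  refine (trace_mul_le hQ hadjp).trans ?_
  rw [mul_comm]
  exact mul_le_mul_of_nonneg_right htrp hQ.trace_nonneg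

end S3D6Aux

/-- `G tr_h A ≤ n! P^(n-1) ∑ A (∇ f i, ∇ f i)` for a positive semidefinite form `A`. Proof: let `F = Fm f x`,
`H = h x`, `X = H⁻¹ A H⁻¹`, `Q = F X Fᵀ` (positive semidefinite), `∑ i, ipM H A (ddC (f i) (f i) x) =
tr Q`. From `adj F * F = det F • 1`: `(det F)² tr (H⁻¹ A) = (det F)² tr (H X) = tr (H (adj F) Q (adj F)ᵀ) =
tr (Q ((adj F)ᵀ H (adj F))) ≤ tr Q * tr ((adj F)ᵀ H (adj F))` (`trace_mul_le`), and
`(adj F)ᵀ H (adj F) / det H = adj (F H⁻¹ Fᵀ) = adj (Gm h f x)` (`Matrix.adjugate_mul_distrib`,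
`Matrix.adjugate_transpose`, `adj (H⁻¹) = H / det H`), whose trace is at most `n! P^(n-1)`
(`adjugate_diag`). Divide by `det H`. -/
theorem GG_trace_le (hh : Curv.IsMetric h) (hf : ∀ i, ContDiff ℝ ∞ (f i)) (x : E)
    {A : Matrix (Fin (finrank ℝ E)) (Fin (finrank ℝ E)) ℝ} (hA : A.PosSemidef) :
    GG h f x * trM (h x) A ≤ (finrank ℝ E).factorial * PP h f x ^ (finrank ℝ E - 1) *
      ∑ i, ipM (h x) A (ddC (f i) (f i) x) := by
  have hH := hh.2 x
  have hHs : (h x).transpose = h x := by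
    have h1 := hH.isHermitian
    rwa [Matrix.IsHermitian, Matrix.conjTranspose_eq_transpose_of_trivial] at h1
  have hHis : ((h x)⁻¹).transpose = (h x)⁻¹ := by rw [Matrix.transpose_nonsing_inv, hHs]
  have hip : ∑ i, ipM (h x) A (ddC (f i) (f i) x) =
      (Fm f x * ((h x)⁻¹ * A * (h x)⁻¹) * (Fm f x).transpose).trace := by
    rw [Matrix.trace]
    refine Finset.sum_congr rfl fun i _ => ?_
    rw [Matrix.diag_apply, S3D6Aux.diag_eq]
    refine S3D6Aux.ipM_eq hHis fun a b => ?_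
    simp only [ddC, Fm, Matrix.of_apply]
    ring
  rw [hip]
  exact S3D6Aux.main hH hA (Gm_eq h f x) (Gm_posSemidef hh f x) (abs_Gm_le hh f x)
    (PP_nonneg hh f x)

/-- `scal = tr_h Ric ≤ tr_h (Ric + h)` (the trace of `h` is `n ≥ 0`), `GG_trace_le` and `RR_add_PP`. -/
theorem GG_scal_le (hh : Curv.IsMetric h) (hf : ∀ i, ContDiff ℝ ∞ (f i)) (hr : RicGeAt h 1 x) :
    GG h f x * Curv.scal h x ≤ (finrank ℝ E).factorial * PP h f x ^ (finrank ℝ E - 1) *
      (RR h f x + PP h f x) := by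
  have hH := hh.2 x
  have hunit : IsUnit (h x).det := hH.det_pos.ne'.isUnit
  have h1 := GG_trace_le hh hf x hr
  rw [RR_add_PP hh f x]
  refine le_trans ?_ h1
  refine mul_le_mul_of_nonneg_left ?_ (GG_nonneg hh f x)
  have h2 : Curv.scal h x = trM (h x) (ric h x) := by
    unfold Curv.scal trM ric
    rw [Finset.sum_comm]
    refine Finset.sum_congr rfl fun j _ => ?_
    rw [Finset.sum_comm]
    refine Finset.sum_congr rfl fun k _ => ?_
    rw [Finset.mul_sum]
    refine Finset.sum_congr rfl fun i _ => ?_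
    rw [Finset.mul_sum]
    refine Finset.sum_congr rfl fun l _ => ?_
    ring
  have h3 : trM (h x) (ric h x + (1 : ℝ) • h x) = trM (h x) (ric h x) + trM (h x) (h x) := by
    unfold trM
    rw [← Finset.sum_add_distrib]
    refine Finset.sum_congr rfl fun i _ => ?_
    rw [← Finset.sum_add_distrib]
    refine Finset.sum_congr rfl fun j _ => ?_
    rw [one_smul, Matrix.add_apply]
    ring
  have h4 : trM (h x) (h x) = (finrank ℝ E : ℝ) := by
    have h5 : trM (h x) (h x) = ((h x)⁻¹ * (h x)).trace := by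
      rw [Matrix.trace, trM]
      refine Finset.sum_congr rfl fun i _ => ?_
      rw [Matrix.diag_apply, Matrix.mul_apply]
      refine Finset.sum_congr rfl fun j _ => ?_
      have h6 := hH.isHermitian.apply i j
      rw [star_trivial] at h6
      rw [h6]
    rw [h5, Matrix.nonsing_inv_mul _ hunit, Matrix.trace_one, Fintype.card_fin]
  rw [h2, h3, h4]
  have h7 : (0 : ℝ) ≤ (finrank ℝ E : ℝ) := Nat.cast_nonneg _
  linarith

end Pool.Agent.Lib.MP_df705a_gt.Pin
end
end

section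

/-!
# Lower bounds of the Ricci curvature in the sense of Kato: determinant and scalar curvature
-/

open scoped Manifold ContDiff Topology
open Set Bundle Module Filter MeasureTheory

noncomputable section

set_option linter.unusedSectionVars false

namespace Pool.Agent.Lib.MP_df705a_gt.Kat

open Pool.Agent.Lib.MP_df705a_gt.Twist Pool.Agent.Lib.MP_df705a_gt.Perm
open Pool.Agent.Lib.MP_df705a_gt.Pin
open Pool.Agent.Lib.MP_df705a_gt.Coll (trM ipM)
open Pool.Agent.Lib.MP_df705a_gt.Coll.T (ddC mat pull RM SmF)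

variable {E : Type*} [NormedAddCommGroup E] [NormedSpace ℝ E] [FiniteDimensional ℝ E]
  {h : Curv.Coeff E} {f : Fin (finrank ℝ E) → E → ℝ} {W : E → ℝ} {x : E}

/-- `R + τ P` is a sum of values of `Ric + τ h`. -/
theorem RT_eq (hh : Curv.IsMetric h) (W : E → ℝ) (f : Fin (finrank ℝ E) → E → ℝ) (x : E) :
    RT h W f x = ∑ i, ipM (h x) (ric h x + (ta h W 1 x) • h x) (ddC (f i) (f i) x) := by
  unfold RT RR PP
  rw [Finset.mul_sum, ← Finset.sum_add_distrib]
  refine Finset.sum_congr rfl fun i _ => ?_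
  rw [Coll.T.ipM_add_left, Coll.T.ipM_smul_left, ipM_self_ddC hh]

/-- `scal = tr_h Ric ≤ tr_h (Ric + τ h)` (`τ ≥ 0`), `GG_trace_le`. -/
theorem GG_scal_le2 (hh : Curv.IsMetric h) (hf : ∀ i, ContDiff ℝ ∞ (f i)) (hr : Gd h W 1 x) :
    GG h f x * Curv.scal h x ≤ (finrank ℝ E).factorial * PP h f x ^ (finrank ℝ E - 1) *
      RT h W f x := by
  have hH := hh.2 x
  have hunit : IsUnit (h x).det := hH.det_pos.ne'.isUnit
  have h1 := GG_trace_le hh hf x hr.2
  rw [RT_eq hh W f x]
  refine le_trans ?_ h1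
  refine mul_le_mul_of_nonneg_left ?_ (GG_nonneg hh f x)
  have h2 : Curv.scal h x = trM (h x) (ric h x) := by
    unfold Curv.scal trM ric
    rw [Finset.sum_comm]
    refine Finset.sum_congr rfl fun j _ => ?_
    rw [Finset.sum_comm]
    refine Finset.sum_congr rfl fun k _ => ?_
    rw [Finset.mul_sum]
    refine Finset.sum_congr rfl fun i _ => ?_
    rw [Finset.mul_sum]
    refine Finset.sum_congr rfl fun l _ => ?_
    ring
  have h3 : trM (h x) (ric h x + (ta h W 1 x) • h x) =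
      trM (h x) (ric h x) + ta h W 1 x * trM (h x) (h x) := by
    unfold trM
    rw [Finset.mul_sum, ← Finset.sum_add_distrib]
    refine Finset.sum_congr rfl fun i _ => ?_
    rw [Finset.mul_sum, ← Finset.sum_add_distrib]
    refine Finset.sum_congr rfl fun j _ => ?_
    rw [Matrix.add_apply, Matrix.smul_apply, smul_eq_mul]
    ring
  have h4 : trM (h x) (h x) = (finrank ℝ E : ℝ) := by
    have h5 : trM (h x) (h x) = ((h x)⁻¹ * (h x)).trace := by
      rw [Matrix.trace, trM]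
      refine Finset.sum_congr rfl fun i _ => ?_
      rw [Matrix.diag_apply, Matrix.mul_apply]
      refine Finset.sum_congr rfl fun j _ => ?_
      have h6 := hH.isHermitian.apply i j
      rw [star_trivial] at h6
      rw [h6]
    rw [h5, Matrix.nonsing_inv_mul _ hunit, Matrix.trace_one, Fintype.card_fin]
  rw [h2, h3, h4]
  have h7 : (0 : ℝ) ≤ (finrank ℝ E : ℝ) := Nat.cast_nonneg _
  have h8 := mul_nonneg hr.1 h7
  linarith

end Pool.Agent.Lib.MP_df705a_gt.Kat
end
end
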