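import Pool.Agent.Lib.MP_df705a_gt.Mg.G014
import Pool.Agent.Lib.MP_df705a_gt.Mg.G018
import Pool.Agent.Lib.MP_df705a_gt.Mg.G017
import Pool.Agent.Lib.MP_df705a_gt.Mg.G020

section

/-!
# Spectral Ricci pinching, S3F3: the weighted formula of Bochner
-/

open scoped Manifold ContDiff Topology
open Set Bundle Module Filter MeasureTheory

noncomputable section

set_option linter.unusedSectionVars false

namespace Pool.Agent.Lib.MP_df705a_gt.Pin

open Pool.Agent.Lib.MP_df705a_gt.Twist Pool.Agent.Lib.MP_df705a_gt.Perm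
open Pool.Agent.Lib.MP_df705a_gt.Coll (trM ipM)
open Pool.Agent.Lib.MP_df705a_gt.Coll.T (ddC mat pull RM SmF)

variable {E : Type*} [NormedAddCommGroup E] [NormedSpace ℝ E] [FiniteDimensional ℝ E]
  {h : Curv.Coeff E} {v : E → ℝ} {f : Fin (finrank ℝ E) → E → ℝ} {x : E}
  [MeasurableSpace E] [BorelSpace E]

/-- `∫ ψ^M P^q (H + R + P) ≤ C ∫ (ψ^(M-2) P^(q+1) + ψ^M P^q)`, `M = 2 (m + 2)`. Proof: `v = ψ^M P^q`,
`integral_HR`; by `Loc.gradC_weight`, `real_i1` (with `gradC_PP_le`, `abs_gradC_le`, `Loc.grad`) and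
`real_i2` (with `n = finrank ℝ E`, if it is `0` the sums are empty; where `ψ x = 0` all terms vanish)
the integrand on the right is at most `(1/2) v H + C (ψ^(M-2) P^(q+1) + v)`. So
`∫ v (H/2 + R) ≤ C (aI (m+1) (q+1) + aI (m+2) q)`; add `∫ v P = aI (m+2) (q+1) ≤ aI (m+1) (q+1)`;
as `R + P ≥ 0` where `v ≠ 0` (`RR_add_PP_nonneg`), `bI ≤ 2 ∫ v (H/2 + (R + P))`. -/
theorem exists_bI_le (E : Type*) [NormedAddCommGroup E] [NormedSpace ℝ E] [FiniteDimensional ℝ E]
    [MeasurableSpace E] [BorelSpace E] (K c : ℝ) (m q : ℕ) : ∃ C : ℝ, 0 ≤ C ∧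
    ∀ (h : Curv.Coeff E) (f : Fin (finrank ℝ E) → E → ℝ) (ψ : E → ℝ), Loc h f ψ K c →
      bI h f ψ (m + 2) q ≤ C * (aI h f ψ (m + 1) (q + 1) + aI h f ψ (m + 2) q) := by
  classical
  set n : ℝ := (finrank ℝ E : ℝ) with hn
  have hn0 : (0 : ℝ) ≤ n := Nat.cast_nonneg _
  set C1 : ℝ := (2 * (m + 2 : ℝ)) ^ 2 * c ^ 2 with hC1
  set C2 : ℝ := K ^ 2 + (K * (2 * (m + 2 : ℝ)) * c) ^ 2 + 1 + 4 * (n + 1) * K ^ 2 * q ^ 2 with hC2
  have hC1' : 0 ≤ C1 := by positivity
  have hC2' : 0 ≤ C2 := by positivity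
  refine ⟨2 * (C1 + n * C2) + 2, by positivity, fun h f ψ L => ?_⟩
  have hv := L.contDiff_weight (m + 2) q
  have hvc := L.hasCompactSupport_weight (m := m + 2) (by omega) q
  have hid := integral_HR L.met L.sm hv hvc
  have hHc := continuous_HH L.met L.sm
  have hRc := continuous_RR L.met L.sm
  have hPc : Continuous (PP h f) := (contDiff_PP L.met L.sm).continuous
  -- integrability
  have i1 : Integrable (fun x => ψ x ^ (2 * (m + 2)) * PP h f x ^ q * HH h f x) (vol h) :=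
    integrable_vol L.met (hv.continuous.mul hHc) hvc.mul_right
  have i2 : Integrable (fun x => ψ x ^ (2 * (m + 2)) * PP h f x ^ q *
      (RR h f x + PP h f x)) (vol h) :=
    integrable_vol L.met (hv.continuous.mul (hRc.add hPc)) hvc.mul_right
  have i3 : Integrable (fun x => ψ x ^ (2 * (m + 2)) * PP h f x ^ (q + 1)) (vol h) :=
    integrable_vol L.met (L.contDiff_weight (m + 2) (q + 1)).continuous
      (L.hasCompactSupport_weight (by omega) _)
  have i4 : Integrable (fun x => ψ x ^ (2 * (m + 1)) * PP h f x ^ (q + 1)) (vol h) :=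
    integrable_vol L.met (L.contDiff_weight (m + 1) (q + 1)).continuous
      (L.hasCompactSupport_weight (by omega) _)
  have i5 : Integrable (fun x => ψ x ^ (2 * (m + 2)) * PP h f x ^ q) (vol h) :=
    integrable_vol L.met hv.continuous hvc
  -- pointwise estimate
  have hpt : ∀ x, (- (1 / 2) * gradC h (fun x => ψ x ^ (2 * (m + 2)) * PP h f x ^ q) (PP h f) x +
        ∑ i, ((ψ x ^ (2 * (m + 2)) * PP h f x ^ q) * lapC h (f i) x ^ 2 +
          lapC h (f i) x * gradC h (fun x => ψ x ^ (2 * (m + 2)) * PP h f x ^ q) (f i) x)) ≤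
      (1 / 2) * (ψ x ^ (2 * (m + 2)) * PP h f x ^ q * HH h f x) +
        (C1 + n * C2) * (ψ x ^ (2 * (m + 1)) * PP h f x ^ (q + 1) +
          ψ x ^ (2 * (m + 2)) * PP h f x ^ q) := by
    intro x
    have hP0 := PP_nonneg L.met f x
    have hH0 := HH_nonneg L.met f x
    have hs0 := L.nonneg x
    have hgPP : √ (gradC h (PP h f) (PP h f) x) ≤ 2 * (√ (PP h f x) * √ (HH h f x)) := by
      rw [Real.sqrt_le_left (by positivity)]
      refine (gradC_PP_le L.met L.sm x).trans (le_of_eq ?_)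
      rw [mul_pow, mul_pow, Real.sq_sqrt hP0, Real.sq_sqrt hH0]
      ring
    have hgψ : √ (gradC h ψ ψ x) ≤ c := by
      rw [Real.sqrt_le_left L.c0]
      exact L.grad x
    have hgf : ∀ i, √ (gradC h (f i) (f i) x) ≤ √ (PP h f x) := by
      intro i
      refine Real.sqrt_le_sqrt ?_
      have : ∀ j, 0 ≤ gradC h (f j) (f j) x := fun j => by
        have h1 := PP_nonneg L.met (fun _ => f j) x
        by_contra hneg
        push Not at hneg
        have h2 := gradC_sq_le L.met (f j) (f j) x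
        have h3 : PP h (fun _ => f j) x = (finrank ℝ E : ℝ) * gradC h (f j) (f j) x := by
          simp [PP]
        rw [h3] at h1
        have h4 : 0 < (finrank ℝ E : ℝ) := by
          have := j.pos
          exact_mod_cast this
        nlinarith
      exact Finset.single_le_sum (f := fun i => gradC h (f i) (f i) x) (fun j _ => this j)
        (Finset.mem_univ i)
    have hb0 : 0 ≤ gradC h (PP h f) (PP h f) x := by
      by_contra hneg
      push Not at hneg
      have h1 := abs_gradC_le L.met (PP h f) (PP h f) x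
      rw [Real.sqrt_eq_zero_of_nonpos hneg.le, mul_zero] at h1
      have h2 := abs_nonneg (gradC h (PP h f) (PP h f) x)
      have h3 : |gradC h (PP h f) (PP h f) x| = 0 := le_antisymm h1 h2
      rw [abs_eq_zero] at h3
      linarith
    have ha : |gradC h ψ (PP h f) x| ≤ c * (2 * (√ (PP h f x) * √ (HH h f x))) :=
      (abs_gradC_le L.met ψ (PP h f) x).trans
        (mul_le_mul hgψ hgPP (Real.sqrt_nonneg _) L.c0)
    have e1 := real_i1 m q hs0 hP0 hH0 L.c0 ha hb0
    rw [L.gradC_weight (m + 2) q (PP h f) x]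
    have e2 : ∀ i, (ψ x ^ (2 * (m + 2)) * PP h f x ^ q) * lapC h (f i) x ^ 2 +
          lapC h (f i) x * gradC h (fun x => ψ x ^ (2 * (m + 2)) * PP h f x ^ q) (f i) x ≤
        (1 / (4 * (n + 1))) * (ψ x ^ (2 * (m + 2)) * PP h f x ^ q * HH h f x) +
        C2 * (ψ x ^ (2 * (m + 1)) * PP h f x ^ (q + 1) + ψ x ^ (2 * (m + 2)) * PP h f x ^ q) := by
      intro i
      rw [L.gradC_weight (m + 2) q (f i) x]
      by_cases hψ : ψ x = 0
      · have h1 : 2 * (m + 2) ≠ 0 := by omega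
        have h2 : 2 * (m + 1) ≠ 0 := by omega
        have h3 : 2 * (m + 2) - 1 ≠ 0 := by omega
        simp [hψ, h1, h2, h3]
      · have ha' : |gradC h ψ (f i) x| ≤ c * √ (PP h f x) :=
          (abs_gradC_le L.met ψ (f i) x).trans
            (mul_le_mul hgψ (hgf i) (Real.sqrt_nonneg _) L.c0)
        have hb' : |gradC h (PP h f) (f i) x| ≤ 2 * (√ (PP h f x) * √ (HH h f x)) *
            √ (PP h f x) :=
          (abs_gradC_le L.met (PP h f) (f i) x).trans
            (mul_le_mul hgPP (hgf i) (Real.sqrt_nonneg _) (by positivity))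
        exact real_i2 m q hs0 hP0 hH0 L.c0 L.K0 (by linarith : (1 : ℝ) ≤ n + 1)
          (L.lap x hψ i) ha' hb'
    have e3 := Finset.sum_le_sum (s := Finset.univ) fun i _ => e2 i
    rw [Finset.sum_const, Finset.card_univ, Fintype.card_fin, nsmul_eq_mul, ← hn] at e3
    set A := ψ x ^ (2 * (m + 2)) * PP h f x ^ q * HH h f x with hA
    set B := ψ x ^ (2 * (m + 1)) * PP h f x ^ (q + 1) with hB
    set D := ψ x ^ (2 * (m + 2)) * PP h f x ^ q with hD
    have hA0 : 0 ≤ A := by positivity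
    have hB0 : 0 ≤ B := by positivity
    have hD0 : 0 ≤ D := by positivity
    have e4 : n * ((1 / (4 * (n + 1))) * A + C2 * (B + D)) ≤ (1 / 4) * A + n * C2 * (B + D) := by
      have h1 : n * (1 / (4 * (n + 1))) ≤ 1 / 4 := by
        rw [mul_one_div, div_le_div_iff₀ (by positivity) (by norm_num)]
        linarith
      nlinarith [mul_le_mul_of_nonneg_right h1 hA0]
    have e5 : 0 ≤ C1 * D := mul_nonneg hC1' hD0
    have e6 : ((2 : ℝ) * (m + 2 : ℝ)) ^ 2 * c ^ 2 * B = C1 * B := by rw [hC1]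
    rw [e6] at e1
    nlinarith [e1, e3, e4, e5]
  -- integrate
  have hint : ∫ x, (- (1 / 2) * gradC h (fun x => ψ x ^ (2 * (m + 2)) * PP h f x ^ q) (PP h f) x +
        ∑ i, ((ψ x ^ (2 * (m + 2)) * PP h f x ^ q) * lapC h (f i) x ^ 2 +
          lapC h (f i) x * gradC h (fun x => ψ x ^ (2 * (m + 2)) * PP h f x ^ q) (f i) x)) ∂(vol h) ≤
      ∫ x, ((1 / 2) * (ψ x ^ (2 * (m + 2)) * PP h f x ^ q * HH h f x) +
        (C1 + n * C2) * (ψ x ^ (2 * (m + 1)) * PP h f x ^ (q + 1) +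
          ψ x ^ (2 * (m + 2)) * PP h f x ^ q)) ∂(vol h) := by
    refine integral_mono ?_ ((i1.const_mul _).add ((i4.add i5).const_mul _)) hpt
    have j1 : Integrable (gradC h (fun x => ψ x ^ (2 * (m + 2)) * PP h f x ^ q) (PP h f))
        (vol h) := integrable_vol L.met
          (contDiff_gradC L.met hv (contDiff_PP L.met L.sm)).continuous
          (hasCompactSupport_gradC hvc _)
    refine (j1.const_mul _).add (integrable_finsetSum _ fun i _ => ?_)
    refine Integrable.add ?_ ?_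
    · exact integrable_vol L.met
        (hv.continuous.mul ((contDiff_lapC L.met (L.sm i)).continuous.pow 2)) hvc.mul_right
    · exact integrable_vol L.met
        ((contDiff_lapC L.met (L.sm i)).continuous.mul
          (contDiff_gradC L.met hv (L.sm i)).continuous)
        (hasCompactSupport_gradC hvc _).mul_left
  rw [← hid] at hint
  have s1 : ∫ x, ((1 / 2) * (ψ x ^ (2 * (m + 2)) * PP h f x ^ q * HH h f x) +
        (C1 + n * C2) * (ψ x ^ (2 * (m + 1)) * PP h f x ^ (q + 1) +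
          ψ x ^ (2 * (m + 2)) * PP h f x ^ q)) ∂(vol h) =
      (1 / 2) * ∫ x, ψ x ^ (2 * (m + 2)) * PP h f x ^ q * HH h f x ∂(vol h) +
        (C1 + n * C2) * (aI h f ψ (m + 1) (q + 1) + aI h f ψ (m + 2) q) := by
    have k1 : Integrable (fun x => (1 / 2) * (ψ x ^ (2 * (m + 2)) * PP h f x ^ q * HH h f x))
        (vol h) := i1.const_mul _
    have k2 : Integrable (fun x => ψ x ^ (2 * (m + 1)) * PP h f x ^ (q + 1) +
          ψ x ^ (2 * (m + 2)) * PP h f x ^ q) (vol h) := i4.add i5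
    have k3 : Integrable (fun x => (C1 + n * C2) * (ψ x ^ (2 * (m + 1)) * PP h f x ^ (q + 1) +
          ψ x ^ (2 * (m + 2)) * PP h f x ^ q)) (vol h) := k2.const_mul _
    rw [integral_add k1 k3, integral_const_mul, integral_const_mul, integral_add i4 i5]
    rfl
  have s2 : ∫ x, ψ x ^ (2 * (m + 2)) * PP h f x ^ q * (HH h f x + RR h f x) ∂(vol h) =
      ∫ x, ψ x ^ (2 * (m + 2)) * PP h f x ^ q * HH h f x ∂(vol h) +
        ∫ x, ψ x ^ (2 * (m + 2)) * PP h f x ^ q * (RR h f x + PP h f x) ∂(vol h) -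
        aI h f ψ (m + 2) (q + 1) := by
    unfold aI
    have k1 : Integrable (fun x => ψ x ^ (2 * (m + 2)) * PP h f x ^ q * HH h f x +
      ψ x ^ (2 * (m + 2)) * PP h f x ^ q * (RR h f x + PP h f x)) (vol h) := i1.add i2
    rw [← integral_add i1 i2, ← integral_sub k1 i3]
    refine integral_congr_ae (Eventually.of_forall fun x => ?_)
    simp only
    rw [pow_succ (PP h f x) q]
    ring
  have s3 : bI h f ψ (m + 2) q =
      ∫ x, ψ x ^ (2 * (m + 2)) * PP h f x ^ q * HH h f x ∂(vol h) +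
        ∫ x, ψ x ^ (2 * (m + 2)) * PP h f x ^ q * (RR h f x + PP h f x) ∂(vol h) := by
    unfold bI
    rw [← integral_add i1 i2]
    refine integral_congr_ae (Eventually.of_forall fun x => ?_)
    simp only
    ring
  have s4 : 0 ≤ ∫ x, ψ x ^ (2 * (m + 2)) * PP h f x ^ q * (RR h f x + PP h f x) ∂(vol h) := by
    refine integral_nonneg fun x => ?_
    by_cases hψ : ψ x = 0
    · have h1 : 2 * (m + 2) ≠ 0 := by omega
      simp [hψ, h1]
    · have h1 := RR_add_PP_nonneg (f := f) L.met (L.ric x hψ)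
      have h2 := PP_nonneg L.met f x
      have h3 := L.nonneg x
      simp only [Pi.zero_apply]
      positivity
  have s5 := L.aI_anti (m := m + 1) (m' := m + 2) (by omega) (by omega) (q + 1)
  have s6 := L.aI_nonneg (m + 2) q
  have s7 := L.aI_nonneg (m + 1) (q + 1)
  rw [s1, s2] at hint
  rw [s3]
  nlinarith [hint, s4, s5, s6, s7]

end Pool.Agent.Lib.MP_df705a_gt.Pin
end
end

section

/-!
# Spectral Ricci pinching, S3F4: interpolation
-/

open scoped Manifold ContDiff Topology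
open Set Bundle Module Filter MeasureTheory

noncomputable section

set_option linter.unusedSectionVars false

namespace Pool.Agent.Lib.MP_df705a_gt.Pin

open Pool.Agent.Lib.MP_df705a_gt.Twist Pool.Agent.Lib.MP_df705a_gt.Perm
open Pool.Agent.Lib.MP_df705a_gt.Coll (trM ipM)
open Pool.Agent.Lib.MP_df705a_gt.Coll.T (ddC mat pull RM SmF)

variable {E : Type*} [NormedAddCommGroup E] [NormedSpace ℝ E] [FiniteDimensional ℝ E]
  {h : Curv.Coeff E} {v : E → ℝ} {f : Fin (finrank ℝ E) → E → ℝ} {x : E}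
  [MeasurableSpace E] [BorelSpace E]

namespace S3F4Aux

theorem gradC_self_nonneg (hh : Curv.IsMetric h) (u : E → ℝ) (x : E) : 0 ≤ gradC h u u x := by
  by_contra hneg
  push Not at hneg
  have h1 := abs_gradC_le hh u u x
  rw [Real.sqrt_eq_zero_of_nonpos hneg.le, mul_zero] at h1
  have h2 := abs_nonneg (gradC h u u x)
  have h3 : |gradC h u u x| = 0 := le_antisymm h1 h2
  rw [abs_eq_zero] at h3
  linarith

theorem sqrt_gf_le (hh : Curv.IsMetric h) (f : Fin (finrank ℝ E) → E → ℝ) (x : E)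
    (i : Fin (finrank ℝ E)) : √ (gradC h (f i) (f i) x) ≤ √ (PP h f x) :=
  Real.sqrt_le_sqrt (Finset.single_le_sum (f := fun i => gradC h (f i) (f i) x)
    (fun j _ => gradC_self_nonneg hh (f j) x) (Finset.mem_univ i))

theorem sqrt_PP_le (hh : Curv.IsMetric h) (hf : ∀ i, ContDiff ℝ ∞ (f i)) (x : E) :
    √ (gradC h (PP h f) (PP h f) x) ≤ 2 * (√ (PP h f x) * √ (HH h f x)) := by
  rw [Real.sqrt_le_left (by positivity)]
  refine (gradC_PP_le hh hf x).trans (le_of_eq ?_)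
  rw [mul_pow, mul_pow, Real.sq_sqrt (PP_nonneg hh f x), Real.sq_sqrt (HH_nonneg hh f x)]
  ring

end S3F4Aux

/-- `∫ ψ^M P^(q+2) ≤ C (∫ ψ^(M-2) P^(q+1) + ∫ ψ^M P^q (H + R + P))`. Proof: `integral_P` with
`v = ψ^M P^(q+1)`, `Loc.gradC_weight`, `real_i3` summed over `i` (`n = finrank ℝ E`): the integrand is at most
`(1/2) ψ^M P^(q+2) + C ψ^(M-2) P^(q+1) + C ψ^M P^q H`. -/
theorem exists_aI_le (E : Type*) [NormedAddCommGroup E] [NormedSpace ℝ E] [FiniteDimensional ℝ E]
    [MeasurableSpace E] [BorelSpace E] (K c : ℝ) (m q : ℕ) : ∃ C : ℝ, 0 ≤ C ∧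
    ∀ (h : Curv.Coeff E) (f : Fin (finrank ℝ E) → E → ℝ) (ψ : E → ℝ), Loc h f ψ K c →
      aI h f ψ (m + 2) (q + 2) ≤ C * (aI h f ψ (m + 1) (q + 1) + bI h f ψ (m + 2) q) := by
  classical
  set n : ℝ := (finrank ℝ E : ℝ) with hn
  have hn0 : (0 : ℝ) ≤ n := Nat.cast_nonneg _
  obtain ⟨K', hK', hKK⟩ : ∃ K' : ℝ, 0 ≤ K' ∧ K ≤ K' := ⟨max K 0, le_max_right _ _, le_max_left _ _⟩
  set C1 : ℝ := 2 * K' + 4 * (n + 1) * (2 * (m + 2 : ℝ)) ^ 2 * c ^ 2 with hC1
  set C2 : ℝ := 16 * (n + 1) * (q + 1 : ℝ) ^ 2 with hC2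
  have hC1' : 0 ≤ C1 := by positivity
  have hC2' : 0 ≤ C2 := by positivity
  refine ⟨2 * n * C1 + 2 * n * C2, by positivity, fun h f ψ L => ?_⟩
  have hv := L.contDiff_weight (m + 2) (q + 1)
  have hvc := L.hasCompactSupport_weight (m := m + 2) (by omega) (q + 1)
  have hid := integral_P L.met L.sm hv hvc
  have hHc := continuous_HH L.met L.sm
  have hRc := continuous_RR L.met L.sm
  have hPc : Continuous (PP h f) := (contDiff_PP L.met L.sm).continuous
  -- integrability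
  have i1 : Integrable (fun x => ψ x ^ (2 * (m + 2)) * PP h f x ^ q * HH h f x) (vol h) :=
    integrable_vol L.met ((L.contDiff_weight (m + 2) q).continuous.mul hHc)
      (L.hasCompactSupport_weight (m := m + 2) (by omega) q).mul_right
  have i2 : Integrable (fun x => ψ x ^ (2 * (m + 2)) * PP h f x ^ q *
      (HH h f x + (RR h f x + PP h f x))) (vol h) :=
    integrable_vol L.met ((L.contDiff_weight (m + 2) q).continuous.mul (hHc.add (hRc.add hPc)))
      (L.hasCompactSupport_weight (m := m + 2) (by omega) q).mul_right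
  have i3 : Integrable (fun x => ψ x ^ (2 * (m + 2)) * PP h f x ^ (q + 2)) (vol h) :=
    integrable_vol L.met (L.contDiff_weight (m + 2) (q + 2)).continuous
      (L.hasCompactSupport_weight (by omega) _)
  have i4 : Integrable (fun x => ψ x ^ (2 * (m + 1)) * PP h f x ^ (q + 1)) (vol h) :=
    integrable_vol L.met (L.contDiff_weight (m + 1) (q + 1)).continuous
      (L.hasCompactSupport_weight (by omega) _)
  -- pointwise estimate
  have hpt : ∀ x, (- ∑ i, ((ψ x ^ (2 * (m + 2)) * PP h f x ^ (q + 1)) * f i x * lapC h (f i) x +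
        f i x * gradC h (fun x => ψ x ^ (2 * (m + 2)) * PP h f x ^ (q + 1)) (f i) x)) ≤
      (1 / 2) * (ψ x ^ (2 * (m + 2)) * PP h f x ^ (q + 2)) +
        (n * C1 * (ψ x ^ (2 * (m + 1)) * PP h f x ^ (q + 1)) +
          n * C2 * (ψ x ^ (2 * (m + 2)) * PP h f x ^ q * HH h f x)) := by
    intro x
    have hP0 := PP_nonneg L.met f x
    have hH0 := HH_nonneg L.met f x
    have hs0 := L.nonneg x
    have hgPP := S3F4Aux.sqrt_PP_le L.met L.sm x
    have hgψ : √ (gradC h ψ ψ x) ≤ c := by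
      rw [Real.sqrt_le_left L.c0]
      exact L.grad x
    have hgf := S3F4Aux.sqrt_gf_le L.met f x
    have e2 : ∀ i, -((ψ x ^ (2 * (m + 2)) * PP h f x ^ (q + 1)) * f i x * lapC h (f i) x +
        f i x * gradC h (fun x => ψ x ^ (2 * (m + 2)) * PP h f x ^ (q + 1)) (f i) x) ≤
        (1 / (2 * (n + 1))) * (ψ x ^ (2 * (m + 2)) * PP h f x ^ (q + 2)) +
        C1 * (ψ x ^ (2 * (m + 1)) * PP h f x ^ (q + 1)) +
        C2 * (ψ x ^ (2 * (m + 2)) * PP h f x ^ q * HH h f x) := by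
      intro i
      rw [L.gradC_weight (m + 2) (q + 1) (f i) x]
      by_cases hψ : ψ x = 0
      · have h1 : 2 * (m + 2) ≠ 0 := by omega
        have h2 : 2 * (m + 1) ≠ 0 := by omega
        have h3 : 2 * (m + 2) - 1 ≠ 0 := by omega
        simp [hψ, h1, h2, h3]
      · have ha' : |gradC h ψ (f i) x| ≤ c * √ (PP h f x) :=
          (abs_gradC_le L.met ψ (f i) x).trans
            (mul_le_mul hgψ (hgf i) (Real.sqrt_nonneg _) L.c0)
        have hb' : |gradC h (PP h f) (f i) x| ≤ 2 * (√ (PP h f x) * √ (HH h f x)) *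
            √ (PP h f x) :=
          (abs_gradC_le L.met (PP h f) (f i) x).trans
            (mul_le_mul hgPP (hgf i) (Real.sqrt_nonneg _) (by positivity))
        have := real_i3 m q hs0 (L.le_one x) hP0 hH0 L.c0 hK' (by linarith : (1 : ℝ) ≤ n + 1)
          (L.two x hψ i) ((L.lap x hψ i).trans hKK) ha' hb'
        refine le_trans (le_of_eq ?_) this
        rw [show q + 1 - 1 = q from rfl]
    have e3 := Finset.sum_le_sum (s := Finset.univ) fun i _ => e2 i
    rw [Finset.sum_const, Finset.card_univ, Fintype.card_fin, nsmul_eq_mul, ← hn,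
      Finset.sum_neg_distrib] at e3
    set A := ψ x ^ (2 * (m + 2)) * PP h f x ^ (q + 2) with hA
    set B := ψ x ^ (2 * (m + 1)) * PP h f x ^ (q + 1) with hB
    set D := ψ x ^ (2 * (m + 2)) * PP h f x ^ q * HH h f x with hD
    have hA0 : 0 ≤ A := by positivity
    have e4 : n * ((1 / (2 * (n + 1))) * A + C1 * B + C2 * D) ≤
        (1 / 2) * A + (n * C1 * B + n * C2 * D) := by
      have h1 : n * (1 / (2 * (n + 1))) ≤ 1 / 2 := by
        rw [mul_one_div, div_le_div_iff₀ (by positivity) (by norm_num)]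
        linarith
      nlinarith [mul_le_mul_of_nonneg_right h1 hA0]
    exact e3.trans e4
  -- integrate
  have hint : ∫ x, (- ∑ i, ((ψ x ^ (2 * (m + 2)) * PP h f x ^ (q + 1)) * f i x * lapC h (f i) x +
        f i x * gradC h (fun x => ψ x ^ (2 * (m + 2)) * PP h f x ^ (q + 1)) (f i) x)) ∂(vol h) ≤
      ∫ x, ((1 / 2) * (ψ x ^ (2 * (m + 2)) * PP h f x ^ (q + 2)) +
        (n * C1 * (ψ x ^ (2 * (m + 1)) * PP h f x ^ (q + 1)) +
          n * C2 * (ψ x ^ (2 * (m + 2)) * PP h f x ^ q * HH h f x))) ∂(vol h) := by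
    refine integral_mono ?_ ((i3.const_mul _).add ((i4.const_mul _).add (i1.const_mul _))) hpt
    refine (integrable_finsetSum _ fun i _ => ?_).neg
    refine Integrable.add ?_ ?_
    · exact integrable_vol L.met
        ((hv.continuous.mul (L.sm i).continuous).mul (contDiff_lapC L.met (L.sm i)).continuous)
        hvc.mul_right.mul_right
    · exact integrable_vol L.met
        ((L.sm i).continuous.mul (contDiff_gradC L.met hv (L.sm i)).continuous)
        (hasCompactSupport_gradC hvc _).mul_left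
  rw [← hid] at hint
  have s1 : ∫ x, ((1 / 2) * (ψ x ^ (2 * (m + 2)) * PP h f x ^ (q + 2)) +
        (n * C1 * (ψ x ^ (2 * (m + 1)) * PP h f x ^ (q + 1)) +
          n * C2 * (ψ x ^ (2 * (m + 2)) * PP h f x ^ q * HH h f x))) ∂(vol h) =
      (1 / 2) * aI h f ψ (m + 2) (q + 2) + (n * C1 * aI h f ψ (m + 1) (q + 1) +
        n * C2 * ∫ x, ψ x ^ (2 * (m + 2)) * PP h f x ^ q * HH h f x ∂(vol h)) := by
    have k1 : Integrable (fun x => (1 / 2) * (ψ x ^ (2 * (m + 2)) * PP h f x ^ (q + 2)))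
        (vol h) := i3.const_mul _
    have k2 : Integrable (fun x => n * C1 * (ψ x ^ (2 * (m + 1)) * PP h f x ^ (q + 1))) (vol h) :=
      i4.const_mul _
    have k3 : Integrable (fun x => n * C2 * (ψ x ^ (2 * (m + 2)) * PP h f x ^ q * HH h f x))
        (vol h) := i1.const_mul _
    have k4 : Integrable (fun x => n * C1 * (ψ x ^ (2 * (m + 1)) * PP h f x ^ (q + 1)) +
      n * C2 * (ψ x ^ (2 * (m + 2)) * PP h f x ^ q * HH h f x)) (vol h) := k2.add k3
    rw [integral_add k1 k4, integral_add k2 k3, integral_const_mul, integral_const_mul,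
      integral_const_mul]
    rfl
  have s2 : ∫ x, ψ x ^ (2 * (m + 2)) * PP h f x ^ (q + 1) * PP h f x ∂(vol h) =
      aI h f ψ (m + 2) (q + 2) := by
    unfold aI
    refine integral_congr_ae (Eventually.of_forall fun x => ?_)
    simp only
    rw [pow_succ (PP h f x) (q + 1)]
    ring
  have s3 : ∫ x, ψ x ^ (2 * (m + 2)) * PP h f x ^ q * HH h f x ∂(vol h) ≤
      bI h f ψ (m + 2) q := by
    unfold bI
    refine integral_mono i1 i2 fun x => ?_
    simp only
    by_cases hψ : ψ x = 0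
    · have h1 : 2 * (m + 2) ≠ 0 := by omega
      simp [hψ, h1]
    · have h1 := RR_add_PP_nonneg (f := f) L.met (L.ric x hψ)
      have h2 := PP_nonneg L.met f x
      have h3 := L.nonneg x
      exact mul_le_mul_of_nonneg_left (by linarith) (by positivity)
  have s4 : 0 ≤ ∫ x, ψ x ^ (2 * (m + 2)) * PP h f x ^ q * HH h f x ∂(vol h) := by
    refine integral_nonneg fun x => ?_
    have h1 := HH_nonneg L.met f x
    have h2 := PP_nonneg L.met f x
    have h3 := L.nonneg x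
    simp only [Pi.zero_apply]
    positivity
  have s7 := L.aI_nonneg (m + 1) (q + 1)
  rw [s1, s2] at hint
  have s8 : n * C2 * ∫ x, ψ x ^ (2 * (m + 2)) * PP h f x ^ q * HH h f x ∂(vol h) ≤
      n * C2 * bI h f ψ (m + 2) q := mul_le_mul_of_nonneg_left s3 (by positivity)
  have s9 : 0 ≤ bI h f ψ (m + 2) q := s4.trans s3
  have t1 : 0 ≤ n * C1 * bI h f ψ (m + 2) q := by positivity
  have t2 : 0 ≤ n * C2 * aI h f ψ (m + 1) (q + 1) := by positivity
  nlinarith [hint, s8, t1, t2]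

/-- The case `q = 0` (`real_i4`). -/
theorem exists_aI_one_le (E : Type*) [NormedAddCommGroup E] [NormedSpace ℝ E]
    [FiniteDimensional ℝ E] [MeasurableSpace E] [BorelSpace E] (K c : ℝ) (m : ℕ) : ∃ C : ℝ, 0 ≤ C ∧
    ∀ (h : Curv.Coeff E) (f : Fin (finrank ℝ E) → E → ℝ) (ψ : E → ℝ), Loc h f ψ K c →
      aI h f ψ (m + 2) 1 ≤ C * aI h f ψ (m + 1) 0 := by
  classical
  set n : ℝ := (finrank ℝ E : ℝ) with hn
  have hn0 : (0 : ℝ) ≤ n := Nat.cast_nonneg _
  obtain ⟨K', hK', hKK⟩ : ∃ K' : ℝ, 0 ≤ K' ∧ K ≤ K' := ⟨max K 0, le_max_right _ _, le_max_left _ _⟩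
  set C1 : ℝ := 2 * K' + 4 * (n + 1) * (2 * (m + 2 : ℝ)) ^ 2 * c ^ 2 with hC1
  have hC1' : 0 ≤ C1 := by positivity
  refine ⟨2 * n * C1, by positivity, fun h f ψ L => ?_⟩
  have hv := L.contDiff_weight (m + 2) 0
  have hvc := L.hasCompactSupport_weight (m := m + 2) (by omega) 0
  have hid := integral_P L.met L.sm hv hvc
  have hPc : Continuous (PP h f) := (contDiff_PP L.met L.sm).continuous
  -- integrability
  have i3 : Integrable (fun x => ψ x ^ (2 * (m + 2)) * PP h f x ^ 1) (vol h) :=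
    integrable_vol L.met (L.contDiff_weight (m + 2) 1).continuous
      (L.hasCompactSupport_weight (by omega) _)
  have i4 : Integrable (fun x => ψ x ^ (2 * (m + 1)) * PP h f x ^ 0) (vol h) :=
    integrable_vol L.met (L.contDiff_weight (m + 1) 0).continuous
      (L.hasCompactSupport_weight (by omega) _)
  -- pointwise estimate
  have hpt : ∀ x, (- ∑ i, ((ψ x ^ (2 * (m + 2)) * PP h f x ^ 0) * f i x * lapC h (f i) x +
        f i x * gradC h (fun x => ψ x ^ (2 * (m + 2)) * PP h f x ^ 0) (f i) x)) ≤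
      (1 / 2) * (ψ x ^ (2 * (m + 2)) * PP h f x ^ 1) +
        n * C1 * (ψ x ^ (2 * (m + 1)) * PP h f x ^ 0) := by
    intro x
    have hP0 := PP_nonneg L.met f x
    have hs0 := L.nonneg x
    have hgψ : √ (gradC h ψ ψ x) ≤ c := by
      rw [Real.sqrt_le_left L.c0]
      exact L.grad x
    have hgf := S3F4Aux.sqrt_gf_le L.met f x
    have e2 : ∀ i, -((ψ x ^ (2 * (m + 2)) * PP h f x ^ 0) * f i x * lapC h (f i) x +
        f i x * gradC h (fun x => ψ x ^ (2 * (m + 2)) * PP h f x ^ 0) (f i) x) ≤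
        (1 / (2 * (n + 1))) * (ψ x ^ (2 * (m + 2)) * PP h f x ^ 1) +
        C1 * (ψ x ^ (2 * (m + 1)) * PP h f x ^ 0) := by
      intro i
      rw [L.gradC_weight (m + 2) 0 (f i) x]
      by_cases hψ : ψ x = 0
      · have h1 : 2 * (m + 2) ≠ 0 := by omega
        have h2 : 2 * (m + 1) ≠ 0 := by omega
        have h3 : 2 * (m + 2) - 1 ≠ 0 := by omega
        simp [hψ, h1, h2, h3]
      · have ha' : |gradC h ψ (f i) x| ≤ c * √ (PP h f x) :=
          (abs_gradC_le L.met ψ (f i) x).trans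
            (mul_le_mul hgψ (hgf i) (Real.sqrt_nonneg _) L.c0)
        have := real_i4 m hs0 (L.le_one x) hP0 L.c0 hK' (by linarith : (1 : ℝ) ≤ n + 1)
          (L.two x hψ i) ((L.lap x hψ i).trans hKK) ha'
        refine le_trans (le_of_eq ?_) (this.trans (le_of_eq ?_))
        · simp only [pow_zero, mul_one, Nat.cast_zero, zero_mul, add_zero]
        · simp only [pow_zero, mul_one, pow_one, hC1]
    have e3 := Finset.sum_le_sum (s := Finset.univ) fun i _ => e2 i
    rw [Finset.sum_const, Finset.card_univ, Fintype.card_fin, nsmul_eq_mul, ← hn,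
      Finset.sum_neg_distrib] at e3
    set A := ψ x ^ (2 * (m + 2)) * PP h f x ^ 1 with hA
    set B := ψ x ^ (2 * (m + 1)) * PP h f x ^ 0 with hB
    have hA0 : 0 ≤ A := by positivity
    have e4 : n * ((1 / (2 * (n + 1))) * A + C1 * B) ≤ (1 / 2) * A + n * C1 * B := by
      have h1 : n * (1 / (2 * (n + 1))) ≤ 1 / 2 := by
        rw [mul_one_div, div_le_div_iff₀ (by positivity) (by norm_num)]
        linarith
      nlinarith [mul_le_mul_of_nonneg_right h1 hA0]
    exact e3.trans e4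
  -- integrate
  have hint : ∫ x, (- ∑ i, ((ψ x ^ (2 * (m + 2)) * PP h f x ^ 0) * f i x * lapC h (f i) x +
        f i x * gradC h (fun x => ψ x ^ (2 * (m + 2)) * PP h f x ^ 0) (f i) x)) ∂(vol h) ≤
      ∫ x, ((1 / 2) * (ψ x ^ (2 * (m + 2)) * PP h f x ^ 1) +
        n * C1 * (ψ x ^ (2 * (m + 1)) * PP h f x ^ 0)) ∂(vol h) := by
    refine integral_mono ?_ ((i3.const_mul _).add (i4.const_mul _)) hpt
    refine (integrable_finsetSum _ fun i _ => ?_).neg
    refine Integrable.add ?_ ?_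
    · exact integrable_vol L.met
        ((hv.continuous.mul (L.sm i).continuous).mul (contDiff_lapC L.met (L.sm i)).continuous)
        hvc.mul_right.mul_right
    · exact integrable_vol L.met
        ((L.sm i).continuous.mul (contDiff_gradC L.met hv (L.sm i)).continuous)
        (hasCompactSupport_gradC hvc _).mul_left
  rw [← hid] at hint
  have s1 : ∫ x, ((1 / 2) * (ψ x ^ (2 * (m + 2)) * PP h f x ^ 1) +
        n * C1 * (ψ x ^ (2 * (m + 1)) * PP h f x ^ 0)) ∂(vol h) =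
      (1 / 2) * aI h f ψ (m + 2) 1 + n * C1 * aI h f ψ (m + 1) 0 := by
    have k1 : Integrable (fun x => (1 / 2) * (ψ x ^ (2 * (m + 2)) * PP h f x ^ 1))
        (vol h) := i3.const_mul _
    have k2 : Integrable (fun x => n * C1 * (ψ x ^ (2 * (m + 1)) * PP h f x ^ 0)) (vol h) :=
      i4.const_mul _
    rw [integral_add k1 k2, integral_const_mul, integral_const_mul]
    rfl
  have s2 : ∫ x, ψ x ^ (2 * (m + 2)) * PP h f x ^ 0 * PP h f x ∂(vol h) =
      aI h f ψ (m + 2) 1 := by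
    unfold aI
    refine integral_congr_ae (Eventually.of_forall fun x => ?_)
    simp only [pow_zero, mul_one, pow_one]
  rw [s1, s2] at hint
  nlinarith [hint]

end Pool.Agent.Lib.MP_df705a_gt.Pin
end
end

section

/-!
# Spectral Ricci pinching, S3F5: the recursion
-/

open scoped Manifold ContDiff Topology
open Set Bundle Module Filter MeasureTheory

noncomputable section

set_option linter.unusedSectionVars false

namespace Pool.Agent.Lib.MP_df705a_gt.Pin

open Pool.Agent.Lib.MP_df705a_gt.Twist Pool.Agent.Lib.MP_df705a_gt.Perm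
open Pool.Agent.Lib.MP_df705a_gt.Coll (trM ipM)
open Pool.Agent.Lib.MP_df705a_gt.Coll.T (ddC mat pull RM SmF)

variable {E : Type*} [NormedAddCommGroup E] [NormedSpace ℝ E] [FiniteDimensional ℝ E]
  {h : Curv.Coeff E} {v : E → ℝ} {f : Fin (finrank ℝ E) → E → ℝ} {x : E}
  [MeasurableSpace E] [BorelSpace E]

/-- `aI (q+1) q ≤ C aI 1 0`. Proof: two step induction. `q = 0`: trivial. `q = 1`: `exists_aI_one_le` with
`m = 0`. `q + 2`: `exists_aI_le` with `m = q + 1`, `exists_bI_le` with `m = q + 1`, and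
`aI (q+3) q ≤ aI (q+1) q` (`Loc.aI_anti`). -/
theorem exists_aI_bound (E : Type*) [NormedAddCommGroup E] [NormedSpace ℝ E]
    [FiniteDimensional ℝ E] [MeasurableSpace E] [BorelSpace E] (K c : ℝ) (q : ℕ) : ∃ C : ℝ, 0 ≤ C ∧
    ∀ (h : Curv.Coeff E) (f : Fin (finrank ℝ E) → E → ℝ) (ψ : E → ℝ), Loc h f ψ K c →
      aI h f ψ (q + 1) q ≤ C * aI h f ψ 1 0 := by
  suffices H : ∀ q : ℕ, (∃ C : ℝ, 0 ≤ C ∧
      ∀ (h : Curv.Coeff E) (f : Fin (finrank ℝ E) → E → ℝ) (ψ : E → ℝ), Loc h f ψ K c →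
        aI h f ψ (q + 1) q ≤ C * aI h f ψ 1 0) ∧ ∃ C : ℝ, 0 ≤ C ∧
      ∀ (h : Curv.Coeff E) (f : Fin (finrank ℝ E) → E → ℝ) (ψ : E → ℝ), Loc h f ψ K c →
        aI h f ψ (q + 1 + 1) (q + 1) ≤ C * aI h f ψ 1 0 from (H q).1
  intro q
  induction q with
  | zero =>
    refine ⟨⟨1, zero_le_one, fun h f ψ _ => by rw [one_mul]⟩, ?_⟩
    obtain ⟨C, hC, H⟩ := exists_aI_one_le E K c 0
    exact ⟨C, hC, fun h f ψ L => H h f ψ L⟩
  | succ q ih =>
    refine ⟨ih.2, ?_⟩
    obtain ⟨⟨Ca, hCa, Ha⟩, Cb, hCb, Hb⟩ := ih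
    obtain ⟨C1, hC1, H1⟩ := exists_aI_le E K c (q + 1) q
    obtain ⟨C2, hC2, H2⟩ := exists_bI_le E K c (q + 1) q
    refine ⟨C1 * (Cb + C2 * (Cb + Ca)), mul_nonneg hC1 (add_nonneg hCb
      (mul_nonneg hC2 (add_nonneg hCb hCa))), fun h f ψ L => ?_⟩
    have e0 : 0 ≤ aI h f ψ 1 0 := L.aI_nonneg 1 0
    have e1 : aI h f ψ (q + 1 + 2) (q + 2) ≤
      C1 * (aI h f ψ (q + 1 + 1) (q + 1) + bI h f ψ (q + 1 + 2) q) := H1 h f ψ L
    have e2 : bI h f ψ (q + 1 + 2) q ≤
      C2 * (aI h f ψ (q + 1 + 1) (q + 1) + aI h f ψ (q + 1 + 2) q) := H2 h f ψ L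
    have e3 : aI h f ψ (q + 1 + 2) q ≤ aI h f ψ (q + 1) q :=
      L.aI_anti (Nat.le_add_left 1 q) (Nat.le_add_right _ _) q
    have e4 := Ha h f ψ L
    have e5 := Hb h f ψ L
    have e6 : bI h f ψ (q + 1 + 2) q ≤ C2 * ((Cb + Ca) * aI h f ψ 1 0) :=
      e2.trans (mul_le_mul_of_nonneg_left (by linarith) hC2)
    have e7 : aI h f ψ (q + 1 + 2) (q + 2) ≤
        C1 * (Cb * aI h f ψ 1 0 + C2 * ((Cb + Ca) * aI h f ψ 1 0)) :=
      e1.trans (mul_le_mul_of_nonneg_left (by linarith) hC1)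
    calc aI h f ψ (q + 1 + 2) (q + 2)
        ≤ C1 * (Cb * aI h f ψ 1 0 + C2 * ((Cb + Ca) * aI h f ψ 1 0)) := e7
      _ = C1 * (Cb + C2 * (Cb + Ca)) * aI h f ψ 1 0 := by ring

/-- `bI (n+2) (n-1) ≤ C aI 1 0` for `n ≥ 1`: `exists_bI_le` with `m = n`, `q = n - 1`,
`aI (n+2) (n-1) ≤ aI n (n-1)`, `exists_aI_bound`. -/
theorem exists_bI_bound (E : Type*) [NormedAddCommGroup E] [NormedSpace ℝ E]
    [FiniteDimensional ℝ E] [MeasurableSpace E] [BorelSpace E] (K c : ℝ) {n : ℕ} (hn : 1 ≤ n) :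
    ∃ C : ℝ, 0 ≤ C ∧
    ∀ (h : Curv.Coeff E) (f : Fin (finrank ℝ E) → E → ℝ) (ψ : E → ℝ), Loc h f ψ K c →
      bI h f ψ (n + 2) (n - 1) ≤ C * aI h f ψ 1 0 := by
  obtain ⟨k, rfl⟩ : ∃ k, n = k + 1 := ⟨n - 1, by omega⟩
  obtain ⟨C, hC, H⟩ := exists_bI_le E K c (k + 1) k
  obtain ⟨Ca, hCa, Ha⟩ := exists_aI_bound E K c k
  obtain ⟨Cb, hCb, Hb⟩ := exists_aI_bound E K c (k + 1)
  refine ⟨C * (Cb + Ca), mul_nonneg hC (add_nonneg hCb hCa), fun h f ψ L => ?_⟩
  have e1 : bI h f ψ (k + 1 + 2) k ≤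
    C * (aI h f ψ (k + 1 + 1) (k + 1) + aI h f ψ (k + 1 + 2) k) := H h f ψ L
  have e3 : aI h f ψ (k + 1 + 2) k ≤ aI h f ψ (k + 1) k :=
    L.aI_anti (Nat.le_add_left 1 k) (Nat.le_add_right _ _) k
  have e4 := Ha h f ψ L
  have e5 := Hb h f ψ L
  calc bI h f ψ (k + 1 + 2) k
      ≤ C * (Cb * aI h f ψ 1 0 + Ca * aI h f ψ 1 0) :=
        e1.trans (mul_le_mul_of_nonneg_left (by linarith) hC)
    _ = C * (Cb + Ca) * aI h f ψ 1 0 := by ring

end Pool.Agent.Lib.MP_df705a_gt.Pin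
end
end
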