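import Mathlib
import Pool.Agent.Lib.MP_df705a_gt.Mg.G023
import Pool.Agent.Lib.MP_df705a_gt.Mg.G012
import Pool.Agent.Lib.MP_df705a_gt.Mg.G004

section

/-!
# The images of simplices with vertices in a countable set
-/

open scoped Topology ContDiff
open Set MeasureTheory Module

noncomputable section

namespace Pool.Agent.Lib.MP_df705a_gt.Pin

variable {E : Type*} [NormedAddCommGroup E] [NormedSpace ℝ E] {C : E → ℝ → E → E}

/-- The union of the simplices with at most `n` vertices, all in the set `V`. -/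
def Simp (C : E → ℝ → E → E) (V : Set E) (n : ℕ) : Set E :=
  {z : E | ∃ (L : List (E × ℝ)) (v : E) (t : ℝ), L.length < n ∧ v ∈ V ∧ 0 < t ∧
    (∀ p ∈ L, p.1 ∈ V ∧ 0 < p.2) ∧ z = Psi C L v t}

theorem Simp_mono {V : Set E} {m n : ℕ} (h : m ≤ n) : Simp C V m ⊆ Simp C V n := by
  rintro z ⟨L, v, t, h1, h2⟩
  exact ⟨L, v, t, h1.trans_le h, h2⟩

theorem Simp_zero (V : Set E) : Simp C V 0 = ∅ := by
  ext z
  simp [Simp]

theorem Simp_subset (V : Set E) (n : ℕ) : Simp C V n ⊆
    ⋃ (i : Σ m : Fin n, (Fin (m : ℕ) → V) × V),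
      (fun u : Fin (i.1 : ℕ) → ℝ =>
        Psi C (List.ofFn fun j => ((i.2.1 j : E), u j)) (i.2.2 : E) 1) ''
        {u | ∀ j, 0 < u j} := by
  rintro z ⟨L, v, t, hlen, hv, ht, hL, rfl⟩
  rw [mem_iUnion]
  refine ⟨⟨⟨L.length, hlen⟩, fun j => ⟨(L.get j).1, (hL _ (L.get_mem j)).1⟩, ⟨v, hv⟩⟩,
    fun j => 1 / t * (L.get j).2, ?_, ?_⟩
  · intro j
    have h1 := (hL _ (L.get_mem j)).2
    positivity
  · have h1 := Psi_smul (C := C) L v t (c := 1 / t) (by positivity)
    rw [one_div_mul_cancel ht.ne'] at h1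
    have h2 : (List.ofFn fun j : Fin L.length => ((L.get j).1, 1 / t * (L.get j).2)) =
        L.map fun p => (p.1, 1 / t * p.2) := by
      conv_rhs => rw [← List.ofFn_get L]
      rw [List.map_ofFn]
      rfl
    simp only
    rw [← h1, ← h2]

theorem convex_orthant (m : ℕ) : Convex ℝ {u : Fin m → ℝ | ∀ j, 0 < u j} := by
  intro x hx y hy a b ha hb hab j
  rcases eq_or_lt_of_le ha with h | h
  · have hb1 : b = 1 := by linarith
    rw [← h, hb1]
    simpa using hy j
  · have h1 : 0 < a * x j := mul_pos h (hx j)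
    have h2 : 0 ≤ b * y j := mul_nonneg hb (hy j).le
    show 0 < a * x j + b * y j
    linarith

theorem dense_compl_Simp [FiniteDimensional ℝ E] (hC : IsCone C) {n : ℕ} (hn : n ≤ finrank ℝ E)
    {V : Set E} (hV : V.Countable) : Dense (Simp C V n)ᶜ := by
  rcases Nat.eq_zero_or_pos n with rfl | hn0
  · rw [Simp_zero, compl_empty]
    exact dense_univ
  have hVc : Countable V := hV.to_subtype
  apply dense_compl_of_dimH_lt_finrank
  refine (dimH_mono (Simp_subset V n)).trans_lt ?_
  rw [dimH_iUnion]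
  have hle : (⨆ (i : Σ m : Fin n, (Fin (m : ℕ) → V) × V),
      dimH ((fun u : Fin (i.1 : ℕ) → ℝ =>
          Psi C (List.ofFn fun j => ((i.2.1 j : E), u j)) (i.2.2 : E) 1) ''
          {u | ∀ j, 0 < u j})) ≤ ((n - 1 : ℕ) : ENNReal) := by
    apply iSup_le
    intro i
    refine ((contDiffOn_Psi hC (i.1 : ℕ) (fun j => (i.2.1 j : E)) (i.2.2 : E)).dimH_image_le
      (convex_orthant _) Subset.rfl).trans ?_
    refine (dimH_mono (subset_univ _)).trans ?_
    rw [Real.dimH_univ_pi_fin]
    have h3 : (i.1 : ℕ) ≤ n - 1 := by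
      have := i.1.2
      omega
    exact_mod_cast h3
  refine hle.trans_lt ?_
  have h4 : n - 1 < finrank ℝ E := by omega
  exact_mod_cast h4

/-- The union of the lines through `p` and a point of `Simp C V n`. -/
theorem dense_compl_cone [FiniteDimensional ℝ E] (hC : IsCone C) {n : ℕ}
    (hn : n + 1 ≤ finrank ℝ E) {V : Set E} (hV : V.Countable) (p : E) :
    Dense {y : E | ∃ r : ℝ, ∃ z ∈ Simp C V n, y = p + r • (z - p)}ᶜ := by
  have hVc : Countable V := hV.to_subtype
  have hsub : {y : E | ∃ r : ℝ, ∃ z ∈ Simp C V n, y = p + r • (z - p)} ⊆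
      ⋃ (i : Σ m : Fin n, (Fin (m : ℕ) → V) × V),
        (fun u : (Fin (i.1 : ℕ) → ℝ) × ℝ => p + u.2 •
          (Psi C (List.ofFn fun j => ((i.2.1 j : E), u.1 j)) (i.2.2 : E) 1 - p)) ''
          ({u | ∀ j, 0 < u j} ×ˢ univ) := by
    rintro y ⟨r, z, hz, rfl⟩
    have h1 := Simp_subset V n hz
    rw [mem_iUnion] at h1 ⊢
    obtain ⟨i, u, hu, rfl⟩ := h1
    exact ⟨i, (u, r), ⟨hu, mem_univ _⟩, rfl⟩
  apply dense_compl_of_dimH_lt_finrank
  refine (dimH_mono hsub).trans_lt ?_
  rw [dimH_iUnion]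
  have hle : (⨆ (i : Σ m : Fin n, (Fin (m : ℕ) → V) × V),
      dimH ((fun u : (Fin (i.1 : ℕ) → ℝ) × ℝ => p + u.2 •
          (Psi C (List.ofFn fun j => ((i.2.1 j : E), u.1 j)) (i.2.2 : E) 1 - p)) ''
          ({u | ∀ j, 0 < u j} ×ˢ univ))) ≤ ((n : ℕ) : ENNReal) := by
    apply iSup_le
    intro i
    have hs : ContDiffOn ℝ 1 (fun u : (Fin (i.1 : ℕ) → ℝ) × ℝ => p + u.2 •
          (Psi C (List.ofFn fun j => ((i.2.1 j : E), u.1 j)) (i.2.2 : E) 1 - p))
          ({u | ∀ j, 0 < u j} ×ˢ univ) := by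
      refine contDiffOn_const.add (contDiff_snd.contDiffOn.smul (ContDiffOn.sub ?_
        contDiffOn_const))
      exact (contDiffOn_Psi hC (i.1 : ℕ) (fun j => (i.2.1 j : E)) (i.2.2 : E)).comp
        contDiff_fst.contDiffOn fun u hu => hu.1
    refine (hs.dimH_image_le ((convex_orthant _).prod convex_univ) Subset.rfl).trans ?_
    refine (dimH_mono (subset_univ _)).trans ?_
    rw [Real.dimH_univ_eq_finrank, Module.finrank_prod, Module.finrank_fin_fun,
      Module.finrank_self]
    have h3 : (i.1 : ℕ) + 1 ≤ n := i.1.2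
    exact_mod_cast h3
  refine hle.trans_lt ?_
  have h4 : n < finrank ℝ E := by omega
  exact_mod_cast h4

end Pool.Agent.Lib.MP_df705a_gt.Pin
end
end

section

/-!
# Mixed covers: bounded sets and sets which are not coarsely dense
-/

open scoped Topology ContDiff
open Set MeasureTheory Module Metric

noncomputable section

namespace Pool.Agent.Lib.MP_df705a_gt.Pin

variable {E : Type*} [NormedAddCommGroup E] [InnerProductSpace ℝ E] [FiniteDimensional ℝ E]
  {d : E → E → ℝ} {K : Set E} {G G' : E → E → E}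

open Classical in
theorem T9_length {J : Type*} (s : Finset J) {n : ℕ} {S : Set J} (hm : S.encard ≤ n) (v : J → E)
    (ψ : J → ℝ) (hψ : ∀ j ∈ s, ψ j ≠ 0 → j ∈ S) :
    ((s.toList.map fun j => (v j, ψ j)).filter fun p => decide (p.2 ≠ 0)).length ≤ n := by
  rw [List.filter_map, List.length_map]
  have hnd : (s.toList.filter ((fun p : E × ℝ => decide (p.2 ≠ 0)) ∘ fun j => (v j, ψ j))).Nodup :=
    (Finset.nodup_toList s).filter _
  rw [← List.toFinset_card_of_nodup hnd]
  have h1 : ((s.toList.filter ((fun p : E × ℝ => decide (p.2 ≠ 0)) ∘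
      fun j => (v j, ψ j))).toFinset : Set J) ⊆ S := by
    intro j hj
    rw [Finset.mem_coe, List.mem_toFinset, List.mem_filter, Finset.mem_toList] at hj
    have h2 : ψ j ≠ 0 := by simpa using hj.2
    exact hψ j hj.1 h2
  have h3 := (Set.encard_le_encard h1).trans hm
  rw [Set.encard_coe_eq_coe_finsetCard] at h3
  exact_mod_cast h3

/-- **Mixed covers.** Let `E` be covered by closed sets `V j` of bounded diameter and by the closed
set `Y` which is contained in the disjoint union of open sets `W i`, such that at most `n = dim E` of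
the sets `V j` contain a given point, and at most `n - 1` of them contain a given point of `Y`. Then
for some `i` the set `Y ∩ W i` is coarsely dense. -/
theorem no_mixed_cover [Nontrivial E] (hd : IsD d) (hG : CoCpt d K G G') {J I : Type*}
    [Countable J] {V : J → Set E} {Y : Set E} {W : I → Set E} (hV : LocallyFinite V)
    (hVc : ∀ j, IsClosed (V j)) (hY : IsClosed Y) (hcov : ∀ x, x ∉ Y → ∃ j, x ∈ V j)
    (hm : ∀ x, {j | x ∈ V j}.encard ≤ finrank ℝ E)
    (hmY : ∀ x ∈ Y, {j | x ∈ V j}.encard + 1 ≤ finrank ℝ E) (hW : ∀ i, IsOpen (W i))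
    (hWd : ∀ i i', i ≠ i' → Disjoint (W i) (W i')) (hYW : Y ⊆ ⋃ i, W i) {D : ℝ}
    (hD : ∀ j, ∀ x ∈ V j, ∀ y ∈ V j, d x y ≤ D)
    (hsp : ∀ i, ∀ R : ℝ, ∃ y, ∀ x ∈ Y ∩ W i, R < d y x) : False := by
  classical
  have hC := hG.isCone
  have hn1 : 1 ≤ finrank ℝ E := finrank_pos
  set n := finrank ℝ E with hn
  obtain ⟨O, lam, hO, hVO, hlc, hl0, hlY, hlW, hmO, hmOl, hDO, hlP⟩ :=
    mixed_swelling hd hV hVc hY hm hmY hW hWd hYW hD
  obtain ⟨R, hR⟩ := exists_displacement hd hG (D + 2) n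
  let v : J → E := fun j => if h : (O j).Nonempty then h.some else 0
  have hv : ∀ j x, x ∈ O j → v j ∈ O j := by
    intro j x hx
    have h1 : (O j).Nonempty := ⟨x, hx⟩
    change (if h : (O j).Nonempty then h.some else 0) ∈ O j
    rw [dif_pos h1]
    exact h1.some_mem
  have hdc : Continuous fun y => d 0 y := hd.cont.comp (Continuous.prodMk_right 0)
  obtain ⟨M, hM⟩ : ∃ M : ℝ, ∀ p : E, ‖p‖ ≤ 1 → d 0 p ≤ M := by
    obtain ⟨M, hM⟩ := (isCompact_closedBall (0 : E) 1).exists_bound_of_continuousOn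
      hdc.continuousOn
    refine ⟨M, fun p hp => ?_⟩
    have h2 := hM p (by rwa [mem_closedBall, dist_zero_right])
    rw [Real.norm_eq_abs] at h2
    exact (le_abs_self _).trans h2
  -- the finitely many pieces near the center
  obtain ⟨F, hF⟩ : ∃ F : Finset I, closure {x | 0 < lam x} ∩ {x | d 0 x ≤ M + R} ⊆
      ⋃ i ∈ F, W i := by
    have hK0 : IsCompact (closure {x | 0 < lam x} ∩ {x | d 0 x ≤ M + R}) :=
      (hd.proper 0 (M + R)).inter_left isClosed_closure
    exact hK0.elim_finite_subcover W hW (inter_subset_left.trans hlW)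
  -- the center
  obtain ⟨p, hpB, hp⟩ := (dense_compl_Simp hC (le_refl (finrank ℝ E)) (V := range v)
    (countable_range v)).inter_open_nonempty (ball (0 : E) 1) isOpen_ball ⟨0, mem_ball_self one_pos⟩
  rw [mem_ball, dist_zero_right] at hpB
  rw [← hn] at hp
  -- the targets of the pushes
  have hy : ∀ i, ∃ y, (∀ x ∈ W i, 0 < lam x → R < d y x) ∧
      ∀ r : ℝ, ∀ z ∈ Simp (cone G G') (range v) (n - 1), y ≠ p + r • (z - p) := by
    intro i
    obtain ⟨y', hy'⟩ := hsp i (R + 2)
    have hyc : Continuous fun y => d y' y := hd.cont.comp (Continuous.prodMk_right y')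
    obtain ⟨y, hy1, hy2⟩ := (dense_compl_cone hC (n := n - 1) (by omega) (V := range v)
      (countable_range v) p).inter_open_nonempty {y | d y' y < 1}
      (isOpen_lt hyc continuous_const) ⟨y', by
        show d y' y' < 1
        rw [hd.self]
        exact one_pos⟩
    refine ⟨y, fun x hx hlx => ?_, fun r z hz heq => hy2 ⟨r, z, hz, heq⟩⟩
    obtain ⟨x', hx', hxx'⟩ := hlP i x hx hlx
    have h1 := hy' x' hx'
    have h2 := hd.tri y' y x'
    have h3 := hd.tri y x x'
    have h4 := hd.comm x x'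
    have h5 : d y' y < 1 := hy1
    linarith
  choose y hy1 hy2 using hy
  have hseg : ∀ i, ∀ z ∈ segment ℝ p (y i), z ∉ Simp (cone G G') (range v) (n - 1) := by
    rintro i z ⟨a, b, ha, hb, hab, rfl⟩ hz
    rcases eq_or_lt_of_le hb with h0 | h0
    · have ha1 : a = 1 := by linarith
      rw [← h0, ha1, one_smul, zero_smul, add_zero] at hz
      exact hp (Simp_mono (by omega) hz)
    · apply hy2 i b⁻¹ _ hz
      have h1 : a • p + b • y i - p = b • (y i - p) := by
        have h2 : a = 1 - b := by linarith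
        rw [h2, sub_smul, one_smul, smul_sub]
        abel
      rw [h1, smul_smul, inv_mul_cancel₀ h0.ne', one_smul, add_sub_cancel]
  -- the radius
  obtain ⟨ρ₁, hρ1, hρa, hρb⟩ : ∃ ρ₁ : ℝ, 1 ≤ ρ₁ ∧
      (∀ z, (‖z‖ ≤ 1 ∨ ∃ i ∈ F, z ∈ segment ℝ p (y i)) → ‖z‖ ≤ ρ₁) ∧
      ∀ z, (‖z‖ ≤ 1 ∨ ∃ i ∈ F, z ∈ segment ℝ p (y i)) → ∀ x, d z x ≤ R → ‖x‖ ≤ ρ₁ := by
    have hZ : IsCompact (closedBall (0 : E) 1 ∪ ⋃ i ∈ F, segment ℝ p (y i)) := by
      refine (isCompact_closedBall 0 1).union (F.isCompact_biUnion fun i _ => ?_)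
      rw [segment_eq_image]
      exact isCompact_Icc.image (by fun_prop)
    obtain ⟨M', hM'⟩ := hZ.exists_bound_of_continuousOn hdc.continuousOn
    obtain ⟨ρ₀, hρ₀⟩ := (hd.proper 0 (M' + max R 0)).isBounded.subset_closedBall (0 : E)
    have hmem : ∀ z, (‖z‖ ≤ 1 ∨ ∃ i ∈ F, z ∈ segment ℝ p (y i)) → d 0 z ≤ M' := by
      intro z hz
      have h1 := hM' z (by
        rcases hz with hz | ⟨i, hi, hz⟩
        · exact Or.inl (by rwa [mem_closedBall, dist_zero_right])
        · exact Or.inr (mem_biUnion hi hz))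
      rw [Real.norm_eq_abs] at h1
      exact (le_abs_self _).trans h1
    refine ⟨max ρ₀ 1, le_max_right _ _, fun z hz => ?_, fun z hz x hx => ?_⟩
    · have h1 := hmem z hz
      have h2 : z ∈ closedBall (0 : E) ρ₀ := hρ₀ (show d 0 z ≤ M' + max R 0 by
        linarith [le_max_right R 0])
      rw [mem_closedBall, dist_zero_right] at h2
      exact h2.trans (le_max_left _ _)
    · have h1 := hmem z hz
      have h3 := hd.tri 0 z x
      have h2 : x ∈ closedBall (0 : E) ρ₀ := hρ₀ (show d 0 x ≤ M' + max R 0 by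
        linarith [le_max_left R 0])
      rw [mem_closedBall, dist_zero_right] at h2
      exact h2.trans (le_max_left _ _)
  set ρ₂ := ρ₁ + 3 with hρ₂
  set B := closedBall (0 : E) (ρ₂ + 2) with hB
  obtain ⟨s, hs⟩ : ∃ s : Finset J, B ∩ {x | 0 < lam x}ᶜ ⊆ ⋃ j ∈ s, O j := by
    have hK0 : IsCompact (B ∩ {x | 0 < lam x}ᶜ) :=
      (isCompact_closedBall (0 : E) (ρ₂ + 2)).inter_right
        (isOpen_lt continuous_const hlc).isClosed_compl
    refine hK0.elim_finite_subcover O hO ?_
    rintro x ⟨_, hx⟩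
    obtain ⟨j, hj⟩ := hcov x fun hxY => hx (hlY x hxY)
    exact mem_iUnion.2 ⟨j, hVO j hj⟩
  let φ : J → E → ℝ := fun j => T6_g (O j)
  have hφc : ∀ j, Continuous (φ j) := fun j => T6_g_cont _
  have hφ0 : ∀ j x, 0 ≤ φ j x := fun j x => T6_g_nonneg _ _
  have hφm : ∀ j x, φ j x ≠ 0 → x ∈ O j := fun j x h => T6_g_mem _ _ h
  have hφs : ∀ x, 0 ≤ ∑ j ∈ s, φ j x := fun x => Finset.sum_nonneg fun j _ => hφ0 j x
  have hφp : ∀ x ∈ B, lam x = 0 → 0 < ∑ j ∈ s, φ j x := by
    intro x hx hlx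
    have h1 : x ∈ B ∩ {x | 0 < lam x}ᶜ := ⟨hx, by
      show ¬ 0 < lam x
      rw [hlx]
      exact lt_irrefl _⟩
    obtain ⟨j, hj, hxj⟩ := mem_iUnion₂.1 (hs h1)
    exact Finset.sum_pos' (fun j _ => hφ0 j x) ⟨j, hj, T6_g_pos (hO j) hxj⟩
  have htot : ∀ x ∈ B, 0 < (∑ j ∈ s, φ j x) + lam x := by
    intro x hx
    rcases (hl0 x).eq_or_lt with h | h
    · have := hφp x hx h.symm
      rw [← h]
      linarith
    · have := hφs x
      linarith
  let θ : E → ℝ := fun x => max 0 (min 1 (‖x - p‖ - (ρ₂ - 1)))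
  have hθc : Continuous θ := by
    change Continuous fun x => max 0 (min 1 (‖x - p‖ - (ρ₂ - 1)))
    fun_prop
  have hθ0 : ∀ x, 0 ≤ θ x := fun x => le_max_left _ _
  have hθ1 : ∀ x, θ x ≤ 1 := fun x => max_le zero_le_one (min_le_left _ _)
  have hθpos : ∀ x, 0 < θ x → ρ₁ < ‖x‖ := by
    intro x h0
    have h1 : ρ₂ - 1 < ‖x - p‖ := by
      by_contra hcon
      push Not at hcon
      have h2 : θ x = 0 := by
        change max 0 (min 1 (‖x - p‖ - (ρ₂ - 1))) = 0
        apply max_eq_left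
        exact (min_le_right _ _).trans (by linarith)
      rw [h2] at h0
      exact lt_irrefl _ h0
    have h2 : ‖x - p‖ ≤ ‖x‖ + ‖p‖ := norm_sub_le x p
    linarith
  let H : E → E := fun x =>
    Psi (cone G G') (s.toList.map fun j => (v j, (1 - θ x) * φ j x)) x ((1 - θ x) * lam x + θ x)
  have hlistsum : ∀ x : E, ∀ c : ℝ, (s.toList.map fun j => c * φ j x).sum =
      c * ∑ j ∈ s, φ j x := by
    intro x c
    rw [Finset.mul_sum]
    exact Finset.sum_map_toList s _
  have hsub : closedBall p ρ₂ ⊆ B := by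
    intro x hx
    rw [mem_closedBall, dist_eq_norm] at hx
    rw [hB, mem_closedBall, dist_zero_right]
    have : ‖x‖ ≤ ‖x - p‖ + ‖p‖ := by
      have := norm_add_le (x - p) p
      rwa [sub_add_cancel] at this
    linarith
  have hHc : ContinuousOn H (closedBall p ρ₂) := by
    intro x hx
    refine continuousWithinAt_Psi hC v s.toList (fun j x => (1 - θ x) * φ j x) (fun x => x)
      (fun x => (1 - θ x) * lam x + θ x) (closedBall p ρ₂) ?_ ?_ continuousOn_id ?_ ?_ x hx ?_
    · intro j _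
      exact ((continuous_const.sub hθc).mul (hφc j)).continuousOn
    · intro j _ x _
      exact mul_nonneg (by linarith [hθ1 x]) (hφ0 j x)
    · exact (((continuous_const.sub hθc).mul hlc).add hθc).continuousOn
    · intro x _
      exact add_nonneg (mul_nonneg (by linarith [hθ1 x]) (hl0 x)) (hθ0 x)
    · rw [hlistsum]
      have h1 := htot x (hsub hx)
      have h2 : (1 - θ x) * ∑ j ∈ s, φ j x + ((1 - θ x) * lam x + θ x) =
          (1 - θ x) * ((∑ j ∈ s, φ j x) + lam x) + θ x := by ring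
      rw [h2]
      rcases (hθ0 x).eq_or_lt with h3 | h3
      · rw [← h3]
        linarith
      · have h4 := mul_nonneg (show 0 ≤ 1 - θ x by linarith [hθ1 x]) h1.le
        linarith
  have hHid : ∀ x, ‖x - p‖ = ρ₂ → H x = x := by
    intro x hx
    have h1 : θ x = 1 := by
      change max 0 (min 1 (‖x - p‖ - (ρ₂ - 1))) = 1
      rw [hx]
      norm_num
    change Psi (cone G G') (s.toList.map fun j => (v j, (1 - θ x) * φ j x)) x
      ((1 - θ x) * lam x + θ x) = x
    apply Psi_of_zero hC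
    intro q hq
    obtain ⟨j, _, rfl⟩ := List.mem_map.1 hq
    simp only
    rw [h1, sub_self, zero_mul]
  have hHd : ∀ x, d x (H x) ≤ R := by
    intro x
    apply hR x (s.toList.map fun j => (v j, (1 - θ x) * φ j x)) ((1 - θ x) * lam x + θ x)
      (add_nonneg (mul_nonneg (by linarith [hθ1 x]) (hl0 x)) (hθ0 x))
    · intro q hq
      obtain ⟨j, _, rfl⟩ := List.mem_map.1 hq
      exact mul_nonneg (by linarith [hθ1 x]) (hφ0 j x)
    · intro q hq hq2
      obtain ⟨j, _, rfl⟩ := List.mem_map.1 hq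
      have h4 : φ j x ≠ 0 := right_ne_zero_of_mul hq2
      have h5 := hφm j x h4
      exact hDO j x h5 (v j) (hv j x h5)
    · exact T9_length s (hmO x) v _ (fun j _ h => hφm j x (right_ne_zero_of_mul h))
  have hHS : ∀ x ∈ B, θ x = 0 → lam x = 0 → ∀ m : ℕ, {j | x ∈ O j}.encard ≤ m →
      H x ∈ Simp (cone G G') (range v) m := by
    intro x hx h0 hlx m hm'
    have h1 : H x = Psi (cone G G') (s.toList.map fun j => (v j, (1 - θ x) * φ j x)) x 0 := by
      change Psi (cone G G') (s.toList.map fun j => (v j, (1 - θ x) * φ j x)) x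
        ((1 - θ x) * lam x + θ x) = _
      rw [hlx, h0, mul_zero, zero_add]
    rw [h1]
    refine mem_simplices hC (n := m) (V := range v) _ ?_ ?_ ?_ x
    · intro q hq
      obtain ⟨j, _, rfl⟩ := List.mem_map.1 hq
      exact ⟨mul_nonneg (by linarith [hθ1 x]) (hφ0 j x), mem_range_self j⟩
    · rw [List.map_map]
      have h2 := hlistsum x (1 - θ x)
      change 0 < (s.toList.map fun j => (1 - θ x) * φ j x).sum
      rw [h2, h0]
      have := hφp x hx hlx
      linarith
    · exact T9_length s hm' v _ (fun j _ h => hφm j x (right_ne_zero_of_mul h))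
  -- the pieces
  let P : I → Set E := fun i => {x | 0 < lam x} ∩ W i
  have hPo : ∀ i, IsOpen (P i) := fun i => (isOpen_lt continuous_const hlc).inter (hW i)
  let A : I → Set E := fun i => H '' (closedBall p ρ₂ ∩ frontier (P i)) ∪ sphere p ρ₂
  have hAc : ∀ i, IsClosed (A i) := by
    intro i
    refine IsClosed.union ?_ isClosed_sphere
    exact (((isCompact_closedBall p ρ₂).inter_right isClosed_frontier).image_of_continuousOn
      (hHc.mono inter_subset_left)).isClosed
  have hdis : ∀ i ∈ F, Disjoint (segment ℝ p (y i)) (A i) := by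
    intro i hi
    rw [disjoint_left]
    rintro z hz (⟨x, ⟨hx1, hx2⟩, rfl⟩ | hz2)
    · have hx3 : x ∈ closure (P i) := hx2.1
      have hx4 : x ∉ P i := by
        intro hx4
        have := hx2.2
        rw [(hPo i).interior_eq] at this
        exact this hx4
      have hx5 : x ∈ closure {x | 0 < lam x} := closure_mono inter_subset_left hx3
      obtain ⟨k, hk⟩ := mem_iUnion.1 (hlW hx5)
      have hki : k = i := by
        obtain ⟨w, hw1, hw2⟩ := mem_closure_iff.1 hx3 (W k) (hW k) hk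
        by_contra hne
        exact (hWd k i hne).le_bot ⟨hw1, hw2.2⟩
      subst hki
      have hlx : lam x = 0 := by
        rcases (hl0 x).eq_or_lt with h | h
        · exact h.symm
        · exact absurd ⟨h, hk⟩ hx4
      rcases (hθ0 x).eq_or_lt with h0 | h0
      · apply hseg k _ hz
        apply hHS x (hsub hx1) h0.symm hlx
        have h1 := hmOl x hx5
        have h2 : ((n - 1 : ℕ) : ℕ∞) + 1 = (n : ℕ∞) := by
          have h3 : n - 1 + 1 = n := by omega
          exact_mod_cast h3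
        rw [← h2] at h1
        exact (ENat.add_le_add_iff_right (by simp)).1 h1
      · have h1 := hHd x
        rw [hd.comm] at h1
        have h2 := hρb _ (Or.inr ⟨k, hi, hz⟩) x h1
        have h3 := hθpos x h0
        linarith
    · have h1 := hρa z (Or.inr ⟨i, hi, hz⟩)
      rw [mem_sphere, dist_eq_norm] at hz2
      have h2 : ‖z - p‖ ≤ ‖z‖ + ‖p‖ := norm_sub_le z p
      linarith
  have hpush : ∀ i, ∃ ϑ : E → ℝ, Continuous ϑ ∧ (i ∈ F → (∀ x ∈ A i, ϑ x = 0) ∧
      ∀ x, x + ϑ x • (p - y i) = p → x = y i) := by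
    intro i
    by_cases hi : i ∈ F
    · obtain ⟨ϑ, h1, h2, h3⟩ := exists_push (hAc i) p (y i) (hdis i hi)
      exact ⟨ϑ, h1, fun _ => ⟨h2, h3⟩⟩
    · exact ⟨fun _ => 0, continuous_const, fun h => absurd h hi⟩
  choose ϑ hϑc hϑ using hpush
  let H' : E → E := fun x => H x + ∑ i ∈ F, (if x ∈ P i then ϑ i (H x) else 0) • (p - y i)
  have hHc' : ContinuousOn H' (closedBall p ρ₂) := by
    refine hHc.add (continuousOn_finsetSum _ fun i hi => ContinuousOn.smul ?_
      continuousOn_const)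
    refine ContinuousOn.if (p := fun x => x ∈ P i) ?_ ?_ continuousOn_const
    · rintro x ⟨hx1, hx2⟩
      exact (hϑ i hi).1 _ (Or.inl ⟨x, ⟨hx1, hx2⟩, rfl⟩)
    · exact (hϑc i).comp_continuousOn (hHc.mono inter_subset_left)
  have hHid' : ∀ x, ‖x - p‖ = ρ₂ → H' x = x := by
    intro x hx
    change H x + ∑ i ∈ F, (if x ∈ P i then ϑ i (H x) else 0) • (p - y i) = x
    rw [hHid x hx]
    rw [Finset.sum_eq_zero, add_zero]
    intro i hi
    have h1 : ϑ i x = 0 := (hϑ i hi).1 x (Or.inr (by rw [mem_sphere, dist_eq_norm]; exact hx))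
    rw [h1]
    simp
  obtain ⟨x, hx, hxp⟩ := exists_eq_center (by linarith : 0 < ρ₂) hHc' hHid'
  have hxp' : H x + ∑ i ∈ F, (if x ∈ P i then ϑ i (H x) else 0) • (p - y i) = p := hxp
  by_cases hcase : ∃ i ∈ F, x ∈ P i
  · obtain ⟨i, hi, hxi⟩ := hcase
    have h1 : ∑ k ∈ F, (if x ∈ P k then ϑ k (H x) else 0) • (p - y k) =
        ϑ i (H x) • (p - y i) := by
      rw [Finset.sum_eq_single i]
      · rw [if_pos hxi]
      · intro k _ hk
        rw [if_neg, zero_smul]
        intro hxk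
        exact (hWd k i hk).le_bot ⟨hxk.2, hxi.2⟩
      · intro h
        exact absurd hi h
    rw [h1] at hxp'
    have h2 := (hϑ i hi).2 _ hxp'
    have h3 := hHd x
    rw [h2, hd.comm] at h3
    have h4 := hy1 i x hxi.2 hxi.1
    linarith
  · push Not at hcase
    have h1 : ∑ k ∈ F, (if x ∈ P k then ϑ k (H x) else 0) • (p - y k) = 0 := by
      apply Finset.sum_eq_zero
      intro k hk
      rw [if_neg (hcase k hk), zero_smul]
    rw [h1, add_zero] at hxp'
    have h3 := hHd x
    rw [hxp', hd.comm] at h3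
    rcases (hl0 x).eq_or_lt with hlx | hlx
    · rcases (hθ0 x).eq_or_lt with h0 | h0
      · apply hp
        rw [← hxp']
        exact hHS x (hsub hx) h0.symm hlx.symm n (hmO x)
      · have h4 := hρb p (Or.inl hpB.le) x h3
        have h5 := hθpos x h0
        linarith
    · have h4 := hd.tri 0 p x
      have h5 := hM p hpB.le
      have h6 : x ∈ closure {x | 0 < lam x} ∩ {x | d 0 x ≤ M + R} :=
        ⟨subset_closure hlx, by
          show d 0 x ≤ M + R
          linarith⟩
      obtain ⟨i, hi, hxi⟩ := mem_iUnion₂.1 (hF h6)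
      exact hcase i hi ⟨hlx, hxi⟩

end Pool.Agent.Lib.MP_df705a_gt.Pin
end
end

section

/-!
# Lower bounds of the Ricci curvature in the sense of Kato: a differential inequality
-/

open scoped Topology
open Set Filter MeasureTheory

noncomputable section

namespace Pool.Agent.Lib.MP_df705a_gt.Kat

/-- An antitone function with limit zero at `0` is nonpositive. -/
theorem nonpos_of_antitone {G : ℝ → ℝ} {S : ℝ} (hG : AntitoneOn G (Ioo 0 S))
    (h0 : Tendsto G (𝓝[>] 0) (𝓝 0)) {s : ℝ} (hs : s ∈ Ioo 0 S) : G s ≤ 0 := by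
  refine ge_of_tendsto h0 ?_
  filter_upwards [Ioo_mem_nhdsGT hs.1] with r hr
  exact hG ⟨hr.1, hr.2.trans hs.2⟩ hs hr.2.le

/-- The time `T = ∫ w^(-α)` of the comparison. -/
theorem exists_time {α A : ℝ} (hα : 0 ≤ α) {w : ℝ → ℝ} (hw : Continuous w)
    (hw1 : ∀ s, 1 ≤ w s) (hwA : ∀ s, w s ≤ A) : ∃ T : ℝ → ℝ,
      (∀ s, HasDerivAt T (w s ^ (-α)) s) ∧ T 0 = 0 ∧ (∀ s, 0 ≤ s → T s ≤ s) ∧
      ∀ s, 0 ≤ s → s ≤ A ^ α * T s := by
  have hw0 : ∀ s, 0 < w s := fun s => one_pos.trans_le (hw1 s)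
  have hA1 : 1 ≤ A := (hw1 0).trans (hwA 0)
  have hA0 : 0 < A := one_pos.trans_le hA1
  have hb : Continuous fun s => w s ^ (-α) :=
    hw.rpow_const fun s => Or.inl (hw0 s).ne'
  refine ⟨fun s => ∫ t in (0 : ℝ)..s, w t ^ (-α), fun s => ?_, ?_, fun s hs => ?_, fun s hs => ?_⟩
  · exact intervalIntegral.integral_hasDerivAt_right (hb.intervalIntegrable _ _)
      (hb.stronglyMeasurableAtFilter _ _) hb.continuousAt
  · simp
  · have h1 : ∫ t in (0 : ℝ)..s, w t ^ (-α) ≤ ∫ t in (0 : ℝ)..s, (1 : ℝ) := by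
      refine intervalIntegral.integral_mono_on hs (hb.intervalIntegrable _ _)
        (continuous_const.intervalIntegrable _ _) fun t _ => ?_
      exact Real.rpow_le_one_of_one_le_of_nonpos (hw1 t) (by linarith)
    simpa using h1
  · have h1 : ∫ t in (0 : ℝ)..s, A ^ (-α) ≤ ∫ t in (0 : ℝ)..s, w t ^ (-α) := by
      refine intervalIntegral.integral_mono_on hs (continuous_const.intervalIntegrable _ _)
        (hb.intervalIntegrable _ _) fun t _ => ?_
      exact Real.rpow_le_rpow_of_nonpos (hw0 t) (hwA t) (by linarith)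
    rw [intervalIntegral.integral_const, sub_zero, smul_eq_mul] at h1
    have h2 : A ^ α * (s * A ^ (-α)) = s := by
      rw [mul_left_comm, ← Real.rpow_add hA0, add_neg_cancel, Real.rpow_zero, mul_one]
    calc s = A ^ α * (s * A ^ (-α)) := h2.symm
      _ ≤ _ := mul_le_mul_of_nonneg_left h1 (Real.rpow_nonneg hA0.le _)

/-- The differential inequality of the Laplacian of the distance. -/
theorem ode_upper {k κ A S C : ℝ} (hk : 1 ≤ k) (hκ : 0 ≤ κ) {y y' w w' : ℝ → ℝ}
    (hw : Continuous w) (hw1 : ∀ s, 1 ≤ w s) (hwA : ∀ s, w s ≤ A)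
    (hdw : ∀ s ∈ Ioo 0 S, HasDerivAt w (w' s) s) (hdy : ∀ s ∈ Ioo 0 S, HasDerivAt y (y' s) s)
    (hle : ∀ s ∈ Ioo 0 S, y' s ≤ κ - (y s / w s - w' s) ^ 2 / k)
    (h0 : ∀ᶠ s in 𝓝[>] (0 : ℝ), |y s / w s ^ 2 - k / s| ≤ C) : ∃ T b : ℝ → ℝ,
      (∀ s, HasDerivAt T (b s) s) ∧ (∀ s, 0 < s → 0 < T s ∧ T s ≤ s) ∧
      (∀ s, 0 ≤ s → s ≤ A ^ (2 * (k - 1) / k) * T s) ∧
      (∀ s ∈ Ioo 0 S, y s / w s ^ 2 ≤ k * (b s / T s + κ * s)) ∧
      ∀ s ∈ Ioo 0 S, y s ≤ k * A ^ 2 * (1 / s + κ * s) := by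
  have hk0 : 0 < k := by linarith
  have hA1 : 1 ≤ A := (hw1 0).trans (hwA 0)
  have hA0 : 0 < A := one_pos.trans_le hA1
  have hw0 : ∀ s, 0 < w s := fun s => one_pos.trans_le (hw1 s)
  have hα : 0 ≤ 2 * (k - 1) / k := div_nonneg (by linarith) hk0.le
  obtain ⟨T, hT, hT0, hTs, hsT⟩ := exists_time hα hw hw1 hwA
  set α : ℝ := 2 * (k - 1) / k with hαd
  have hαk : α + 2 / k = 2 := by
    rw [hαd]
    field_simp
    ring
  have hTpos : ∀ s, 0 < s → 0 < T s := by
    intro s hs
    have h1 := hsT s hs.le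
    have h2 : 0 < A ^ α * T s := hs.trans_le h1
    exact pos_of_mul_pos_right h2 (Real.rpow_nonneg hA0.le _)
  -- the functions `b` and `c`
  let b : ℝ → ℝ := fun s => w s ^ (-α)
  let c : ℝ → ℝ := fun s => w s ^ (-(2 / k))
  have hbpos : ∀ s, 0 < b s := fun s => Real.rpow_pos_of_pos (hw0 s) _
  have hcpos : ∀ s, 0 < c s := fun s => Real.rpow_pos_of_pos (hw0 s) _
  have hb1 : ∀ s, b s ≤ 1 := fun s =>
    Real.rpow_le_one_of_one_le_of_nonpos (hw1 s) (by linarith)
  have hc1 : ∀ s, c s ≤ 1 := fun s =>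
    Real.rpow_le_one_of_one_le_of_nonpos (hw1 s) (by
      have : 0 ≤ 2 / k := by positivity
      linarith)
  have hbc : ∀ s, b s * c s * w s ^ 2 = 1 := by
    intro s
    show w s ^ (-α) * w s ^ (-(2 / k)) * w s ^ 2 = 1
    rw [← Real.rpow_add (hw0 s), ← Real.rpow_natCast (w s) 2, ← Real.rpow_add (hw0 s)]
    have : -α + -(2 / k) + ((2 : ℕ) : ℝ) = 0 := by push_cast; linarith
    rw [this, Real.rpow_zero]
  have hdc : ∀ s ∈ Ioo 0 S, HasDerivAt c (-(2 / k) * (w' s / w s) * c s) s := by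
    intro s hs
    have h1 := (hdw s hs).rpow_const (p := -(2 / k)) (Or.inl (hw0 s).ne')
    refine h1.congr_deriv ?_
    rw [Real.rpow_sub_one (hw0 s).ne']
    show w' s * -(2 / k) * (c s / w s) = _
    ring
  let v : ℝ → ℝ := fun s => c s * y s / k
  have hdv : ∀ s ∈ Ioo 0 S, HasDerivAt v
      ((-(2 / k) * (w' s / w s) * c s * y s + c s * y' s) / k) s := fun s hs =>
    ((hdc s hs).mul (hdy s hs)).div_const k
  have hvle : ∀ s ∈ Ioo 0 S, (-(2 / k) * (w' s / w s) * c s * y s + c s * y' s) / k ≤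
      κ - b s * v s ^ 2 := by
    intro s hs
    have h1 := hle s hs
    have h2 : c s * y' s ≤ c s * (κ - (y s / w s - w' s) ^ 2 / k) :=
      mul_le_mul_of_nonneg_left h1 (hcpos s).le
    have h3 : -(2 / k) * (w' s / w s) * c s * y s + c s * (κ - (y s / w s - w' s) ^ 2 / k) =
        c s * κ - c s * (y s ^ 2 / w s ^ 2) / k - c s * w' s ^ 2 / k := by
      have := (hw0 s).ne'
      field_simp
      ring
    have h4 : b s * v s ^ 2 = c s * (y s ^ 2 / w s ^ 2) / k ^ 2 := by
      have h5 : b s * c s = 1 / w s ^ 2 := by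
        rw [eq_div_iff (pow_ne_zero 2 (hw0 s).ne')]
        exact hbc s
      calc b s * v s ^ 2 = (b s * c s) * c s * y s ^ 2 / k ^ 2 := by
            show b s * (c s * y s / k) ^ 2 = _
            field_simp
        _ = _ := by
            rw [h5]
            ring
    have h5 : 0 ≤ c s * w' s ^ 2 / k := by
      have := (hcpos s).le
      positivity
    have h6 : c s * κ / k ≤ κ := by
      rw [div_le_iff₀ hk0]
      calc c s * κ ≤ 1 * κ := mul_le_mul_of_nonneg_right (hc1 s) hκ
        _ = κ * 1 := by ring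
        _ ≤ κ * k := mul_le_mul_of_nonneg_left hk hκ
    have h7 : (-(2 / k) * (w' s / w s) * c s * y s + c s * y' s) / k ≤
        (c s * κ - c s * (y s ^ 2 / w s ^ 2) / k) / k := by
      apply div_le_div_of_nonneg_right _ hk0.le
      linarith
    have h8 : (c s * κ - c s * (y s ^ 2 / w s ^ 2) / k) / k =
        c s * κ / k - c s * (y s ^ 2 / w s ^ 2) / k ^ 2 := by
      field_simp
    rw [h4]
    linarith
  -- the antitone function
  let G : ℝ → ℝ := fun s => T s ^ 2 * v s - T s - κ * (s * T s ^ 2)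
  have hdG : ∀ s ∈ Ioo 0 S, HasDerivAt G
      (2 * T s * b s * v s + T s ^ 2 * ((-(2 / k) * (w' s / w s) * c s * y s + c s * y' s) / k) -
        b s - κ * (T s ^ 2 + s * (2 * T s * b s))) s := by
    intro s hs
    have h1 : HasDerivAt (fun s => T s ^ 2) (2 * T s * b s) s := by
      have := (hT s).fun_pow 2
      refine this.congr_deriv ?_
      show ((2 : ℕ) : ℝ) * T s ^ (2 - 1) * b s = _
      push_cast
      ring
    have h2 := (h1.mul (hdv s hs)).sub (hT s)
    have h3 : HasDerivAt (fun s => κ * (s * T s ^ 2)) (κ * (1 * T s ^ 2 + s * (2 * T s * b s))) s :=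
      ((hasDerivAt_id s).mul h1).const_mul κ
    refine (h2.sub h3).congr_deriv ?_
    show 2 * T s * b s * v s + T s ^ 2 *
      ((-(2 / k) * (w' s / w s) * c s * y s + c s * y' s) / k) - b s - _ = _
    ring
  have hanti : AntitoneOn G (Ioo 0 S) := by
    refine antitoneOn_of_deriv_nonpos (convex_Ioo 0 S)
      (fun s hs => (hdG s hs).continuousAt.continuousWithinAt) ?_ ?_
    · intro s hs
      rw [interior_Ioo] at hs
      exact (hdG s hs).differentiableAt.differentiableWithinAt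
    · intro s hs
      rw [interior_Ioo] at hs
      rw [(hdG s hs).deriv]
      have h1 := mul_le_mul_of_nonneg_left (hvle s hs) (sq_nonneg (T s))
      have h2 : 0 ≤ b s * (T s * v s - 1) ^ 2 := mul_nonneg (hbpos s).le (sq_nonneg _)
      have h3 : 0 ≤ κ * (s * (2 * T s * b s)) := by
        have := (hTpos s hs.1).le
        have := (hbpos s).le
        have := hs.1.le
        positivity
      nlinarith
  have hTc : Tendsto T (𝓝[>] 0) (𝓝 0) := by
    have h1 := (hT 0).continuousAt.tendsto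
    rw [hT0] at h1
    exact h1.mono_left nhdsWithin_le_nhds
  have hid : Tendsto (fun s : ℝ => s) (𝓝[>] 0) (𝓝 0) :=
    tendsto_id.mono_left nhdsWithin_le_nhds
  have hG0 : Tendsto G (𝓝[>] 0) (𝓝 0) := by
    have h1 : Tendsto (fun s => T s ^ 2 * v s) (𝓝[>] 0) (𝓝 0) := by
      have hup : Tendsto (fun s : ℝ => A ^ 2 * (s + |C| * s ^ 2)) (𝓝[>] 0) (𝓝 0) := by
        have h2 : Continuous fun s : ℝ => A ^ 2 * (s + |C| * s ^ 2) := by fun_prop
        have h3 := h2.tendsto 0
        simp only [zero_add, zero_pow two_ne_zero, mul_zero] at h3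
        exact h3.mono_left nhdsWithin_le_nhds
      refine squeeze_zero_norm' ?_ hup
      filter_upwards [h0, self_mem_nhdsWithin] with s hs hs0
      have hs0' : 0 < s := hs0
      rw [Real.norm_eq_abs, abs_mul, abs_of_nonneg (sq_nonneg (T s))]
      have h3 : |y s| ≤ A ^ 2 * (k / s + |C|) := by
        have h4 : |y s / w s ^ 2| ≤ k / s + |C| := by
          have h5 : y s / w s ^ 2 = (y s / w s ^ 2 - k / s) + k / s := by ring
          rw [h5]
          refine (abs_add_le _ _).trans ?_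
          rw [abs_of_nonneg (by positivity : 0 ≤ k / s)]
          have := hs.trans (le_abs_self C)
          linarith
        have h6 : |y s| = w s ^ 2 * |y s / w s ^ 2| := by
          rw [abs_div, abs_of_nonneg (sq_nonneg (w s))]
          have := (hw0 s).ne'
          field_simp
        rw [h6]
        have h7 : w s ^ 2 ≤ A ^ 2 := pow_le_pow_left₀ (hw0 s).le (hwA s) 2
        exact mul_le_mul h7 h4 (abs_nonneg _) (by positivity)
      have h8 : |v s| ≤ A ^ 2 * (1 / s + |C|) := by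
        show |c s * y s / k| ≤ _
        rw [abs_div, abs_mul, abs_of_pos (hcpos s), abs_of_pos hk0, div_le_iff₀ hk0]
        calc c s * |y s| ≤ 1 * |y s| := mul_le_mul_of_nonneg_right (hc1 s) (abs_nonneg _)
          _ ≤ A ^ 2 * (k / s + |C|) := by rw [one_mul]; exact h3
          _ ≤ A ^ 2 * (1 / s + |C|) * k := by
              have h9 : k / s + |C| ≤ (1 / s + |C|) * k := by
                have : |C| ≤ |C| * k := le_mul_of_one_le_right (abs_nonneg _) hk
                have h10 : (1 / s + |C|) * k = k / s + |C| * k := by ring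
                rw [h10]
                linarith
              calc A ^ 2 * (k / s + |C|) ≤ A ^ 2 * ((1 / s + |C|) * k) :=
                    mul_le_mul_of_nonneg_left h9 (by positivity)
                _ = _ := by ring
      have h9 : T s ^ 2 ≤ s ^ 2 := pow_le_pow_left₀ (hTpos s hs0').le (hTs s hs0'.le) 2
      calc T s ^ 2 * |v s| ≤ s ^ 2 * (A ^ 2 * (1 / s + |C|)) :=
            mul_le_mul h9 h8 (abs_nonneg _) (by positivity)
        _ = A ^ 2 * (s + |C| * s ^ 2) := by field_simp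
    have h2 : Tendsto (fun s => κ * (s * T s ^ 2)) (𝓝[>] 0) (𝓝 0) := by
      have := (hid.mul (hTc.pow 2)).const_mul κ
      simpa using this
    have h3 := (h1.sub hTc).sub h2
    simpa using h3
  have hv : ∀ s ∈ Ioo 0 S, v s ≤ 1 / T s + κ * s := by
    intro s hs
    have h1 : G s ≤ 0 := nonpos_of_antitone hanti hG0 hs
    have hTp := hTpos s hs.1
    have h2 : T s ^ 2 * v s ≤ T s ^ 2 * (1 / T s + κ * s) := by
      have h3 : T s ^ 2 * (1 / T s + κ * s) = T s + κ * (s * T s ^ 2) := by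
        field_simp
      rw [h3]
      have h4 : T s ^ 2 * v s - T s - κ * (s * T s ^ 2) ≤ 0 := h1
      linarith
    exact le_of_mul_le_mul_left h2 (by positivity)
  refine ⟨T, b, hT, fun s hs => ⟨hTpos s hs, hTs s hs.le⟩, hsT, fun s hs => ?_, fun s hs => ?_⟩
  · have h1 : y s / w s ^ 2 = k * (b s * v s) := by
      have h2 : 1 / w s ^ 2 = b s * c s := by
        rw [div_eq_iff (pow_ne_zero 2 (hw0 s).ne')]
        exact (hbc s).symm
      calc y s / w s ^ 2 = y s * (1 / w s ^ 2) := by ring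
        _ = k * (b s * v s) := by
            rw [h2]
            show y s * (b s * c s) = k * (b s * (c s * y s / k))
            field_simp
    rw [h1]
    refine mul_le_mul_of_nonneg_left ?_ hk0.le
    have h3 := mul_le_mul_of_nonneg_left (hv s hs) (hbpos s).le
    have h4 : b s * (κ * s) ≤ κ * s := by
      have : 0 ≤ κ * s := mul_nonneg hκ hs.1.le
      nlinarith [hb1 s]
    calc b s * v s ≤ b s * (1 / T s + κ * s) := h3
      _ = b s / T s + b s * (κ * s) := by ring
      _ ≤ _ := by linarith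
  · have hs0 := hs.1
    have h1 : y s = k * (w s ^ (2 / k) * v s) := by
      have h2 : w s ^ (2 / k) * c s = 1 := by
        show w s ^ (2 / k) * w s ^ (-(2 / k)) = 1
        rw [← Real.rpow_add (hw0 s), add_neg_cancel, Real.rpow_zero]
      have h3 : k * (w s ^ (2 / k) * v s) = (w s ^ (2 / k) * c s) * y s := by
        show k * (w s ^ (2 / k) * (c s * y s / k)) = _
        field_simp
      rw [h3, h2, one_mul]
    have hM : 1 / T s + κ * s ≤ A ^ α * (1 / s) + κ * s := by
      have h2 := hsT s hs0.le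
      have h3 : 1 / T s ≤ A ^ α * (1 / s) := by
        rw [mul_one_div, div_le_div_iff₀ (hTpos s hs0) hs0]
        linarith
      linarith
    have hM0 : 0 ≤ A ^ α * (1 / s) + κ * s := by
      have := Real.rpow_nonneg hA0.le α
      positivity
    have h2 : w s ^ (2 / k) * v s ≤ A ^ (2 / k) * (A ^ α * (1 / s) + κ * s) := by
      calc w s ^ (2 / k) * v s ≤ w s ^ (2 / k) * (A ^ α * (1 / s) + κ * s) :=
            mul_le_mul_of_nonneg_left ((hv s hs).trans hM) (Real.rpow_nonneg (hw0 s).le _)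
        _ ≤ _ := mul_le_mul_of_nonneg_right
            (Real.rpow_le_rpow (hw0 s).le (hwA s) (by positivity)) hM0
    have h3 : A ^ (2 / k) * (A ^ α * (1 / s) + κ * s) ≤ A ^ 2 * (1 / s + κ * s) := by
      have h4 : A ^ (2 / k) * A ^ α = A ^ 2 := by
        rw [← Real.rpow_add hA0, add_comm, hαk]
        exact Real.rpow_ofNat A 2
      have h5 : A ^ (2 / k) ≤ A ^ 2 := by
        rw [← h4]
        refine le_mul_of_one_le_right (Real.rpow_nonneg hA0.le _) ?_
        exact Real.one_le_rpow hA1 hα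
      have h6 : 0 ≤ κ * s := mul_nonneg hκ hs0.le
      calc A ^ (2 / k) * (A ^ α * (1 / s) + κ * s) =
            (A ^ (2 / k) * A ^ α) * (1 / s) + A ^ (2 / k) * (κ * s) := by ring
        _ ≤ A ^ 2 * (1 / s) + A ^ 2 * (κ * s) := by
            rw [h4]
            have := mul_le_mul_of_nonneg_right h5 h6
            linarith
        _ = _ := by ring
    rw [h1, mul_assoc]
    exact mul_le_mul_of_nonneg_left (h2.trans h3) hk0.le

/-- The comparison of the density. -/
theorem ode_dens {k κ A S : ℝ} (hk : 1 ≤ k) (hκ : 0 ≤ κ) (hA : 1 ≤ A) {T b D z : ℝ → ℝ}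
    (hT : ∀ s, HasDerivAt T (b s) s) (hT0 : ∀ s, 0 < s → 0 < T s ∧ T s ≤ s)
    (hTA : ∀ s, 0 ≤ s → s ≤ A ^ (2 * (k - 1) / k) * T s)
    (hz : ∀ s ∈ Ioo 0 S, z s ≤ k * (b s / T s + κ * s))
    (hD0 : ∀ s ∈ Ioo 0 S, 0 < D s)
    (hD : ∀ s ∈ Ioo 0 S, HasDerivAt (fun s => Real.log (D s)) (z s - k / s) s) {s t : ℝ}
    (hs : 0 < s) (hst : s ≤ t) (ht : t < S) :
    D t ≤ Real.exp (2 * (k - 1) * Real.log A + k * κ * t ^ 2 / 2) * D s := by
  have hk0 : 0 < k := by linarith
  have hA0 : 0 < A := one_pos.trans_le hA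
  let g : ℝ → ℝ := fun s => Real.log (D s) - k * Real.log (T s) + k * Real.log s -
    k * κ * s ^ 2 / 2
  have hder : ∀ s ∈ Ioo 0 S, HasDerivAt g
      (z s - k / s - k * (b s / T s) + k * (1 / s) - k * κ * s) s := by
    intro s hs
    have h1 := ((hD s hs).sub (((hT s).log (hT0 s hs.1).1.ne').const_mul k)).add
      (((hasDerivAt_id s).log hs.1.ne').const_mul k)
    have h2 : HasDerivAt (fun s : ℝ => k * κ * s ^ 2 / 2) (k * κ * s) s := by
      have h3 := (((hasDerivAt_id s).fun_pow 2).const_mul (k * κ)).div_const 2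
      refine h3.congr_deriv ?_
      simp only [id]
      push_cast
      ring
    exact h1.sub h2
  have hanti : AntitoneOn g (Ioo 0 S) := by
    refine antitoneOn_of_deriv_nonpos (convex_Ioo 0 S)
      (fun s hs => (hder s hs).continuousAt.continuousWithinAt) ?_ ?_
    · intro s hs
      rw [interior_Ioo] at hs
      exact (hder s hs).differentiableAt.differentiableWithinAt
    · intro s hs
      rw [interior_Ioo] at hs
      rw [(hder s hs).deriv]
      have h1 := hz s hs
      have h2 : k * (b s / T s + κ * s) = k * (b s / T s) + k * κ * s := by ring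
      have h3 : k * (1 / s) = k / s := by ring
      rw [h2] at h1
      rw [h3]
      linarith
  have ht0 : 0 < t := hs.trans_le hst
  have h1 := hanti ⟨hs, hst.trans_lt ht⟩ ⟨ht0, ht⟩ hst
  have h2 : Real.log (T t) ≤ Real.log t := Real.log_le_log (hT0 t ht0).1 (hT0 t ht0).2
  have h3 : Real.log s ≤ 2 * (k - 1) / k * Real.log A + Real.log (T s) := by
    have h4 := Real.log_le_log hs (hTA s hs.le)
    rw [Real.log_mul (Real.rpow_pos_of_pos hA0 _).ne' (hT0 s hs).1.ne', Real.log_rpow hA0] at h4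
    exact h4
  have h5 : Real.log (D t) ≤ 2 * (k - 1) * Real.log A + k * κ * t ^ 2 / 2 + Real.log (D s) := by
    have h6 : Real.log (D t) - k * Real.log (T t) + k * Real.log t - k * κ * t ^ 2 / 2 ≤
        Real.log (D s) - k * Real.log (T s) + k * Real.log s - k * κ * s ^ 2 / 2 := h1
    have h7 : 0 ≤ k * κ * s ^ 2 / 2 := by positivity
    have h8 := mul_le_mul_of_nonneg_left h2 hk0.le
    have h9 := mul_le_mul_of_nonneg_left h3 hk0.le
    have h10 : k * (2 * (k - 1) / k * Real.log A + Real.log (T s)) =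
        2 * (k - 1) * Real.log A + k * Real.log (T s) := by
      field_simp
    rw [h10] at h9
    linarith
  have h6 := Real.exp_le_exp.2 h5
  rwa [Real.exp_log (hD0 t ⟨ht0, ht⟩), Real.exp_add, Real.exp_log (hD0 s ⟨hs, hst.trans_lt ht⟩)]
    at h6

end Pool.Agent.Lib.MP_df705a_gt.Kat
end
end
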