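import Pool.Agent.Lib.MP_df705a_gt.Pin.AG7
import Pool.Agent.Lib.MP_df705a_gt.Pin.AH2
import Pool.Agent.Lib.MP_df705a_gt.Pin.GE1
import Pool.Agent.Lib.MP_df705a_gt.Mg.G003
import Pool.Agent.Lib.MP_df705a_gt.Mg.G064
import Pool.Agent.Lib.MP_df705a_gt.Mg.G028
import Pool.Agent.Lib.MP_df705a_gt.Mg.G067

section

/-!
# Balls are connected, and `s` does not increase distances
-/

open scoped Manifold ContDiff Topology
open Set Bundle Module Filter MeasureTheory

noncomputable section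

namespace Pool.Agent.Lib.MP_df705a_gt.Pin

open Pool.Agent.Lib.MP_df705a_gt.Coll (Met)

theorem isPreconnected_ball {E : Type*} [NormedAddCommGroup E] [NormedSpace ℝ E]
    [FiniteDimensional ℝ E] {h : Curv.Coeff E} (hm : Curv.IsMetric h) (hP : Proper h) (x : E)
    (r : ℝ) : IsPreconnected {y | dh h x y < r} := by
  obtain ⟨Ex, hE⟩ := A.exists_exp hm hP
  refine isPreconnected_of_forall x ?_
  intro y hy
  obtain ⟨v, hv, hxy⟩ := A.hopf_rinow hm hP hE x y
  have hc : Continuous fun t : ℝ => Ex x (t • v) :=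
    (hE.smooth_at x).continuous.comp (continuous_id.smul continuous_const)
  refine ⟨(fun t : ℝ => Ex x (t • v)) '' Icc 0 1, ?_, ⟨0, by simp, ?_⟩, ⟨1, by simp, ?_⟩,
    isPreconnected_Icc.image _ hc.continuousOn⟩
  · rintro _ ⟨t, ht, rfl⟩
    have h1 := hE.dist_le hm x v 0 t
    have h2 : Ex x ((0 : ℝ) • v) = x := by rw [zero_smul, hE.zero]
    rw [h2, sub_zero, abs_of_nonneg ht.1, hv] at h1
    have h3 : dh h x y < r := hy
    have h4 : 0 ≤ dh h x y := by
      rw [← hv]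
      exact Real.sqrt_nonneg _
    show dh h x (Ex x (t • v)) < r
    nlinarith [ht.2]
  · show Ex x ((0 : ℝ) • v) = x
    rw [zero_smul, hE.zero]
  · show Ex x ((1 : ℝ) • v) = y
    rw [one_smul, hxy]

variable {E' : Type*} [NormedAddCommGroup E'] [NormedSpace ℝ E'] [FiniteDimensional ℝ E']
  {E : Type*} [NormedAddCommGroup E] [NormedSpace ℝ E] [FiniteDimensional ℝ E]
  {F : Type*} [NormedAddCommGroup F] [InnerProductSpace ℝ F] [FiniteDimensional ℝ F]
  {M : Type*} [TopologicalSpace M] [ChartedSpace E M] [IsManifold 𝓘(ℝ, E) ∞ M]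
  {q : E' → M} {s : E' → F}

theorem norm_fderiv_s_le (g : Met E M) (q : E' → M) (s : E' → F) (y w : E') :
    ‖fderiv ℝ s y w‖ ≤ A.nm (st g q s) y w := by
  refine Real.le_sqrt_of_sq_le ?_
  rw [ip_st g q s, real_inner_self_eq_norm_sq]
  have h8 : 0 ≤ g.inner (q y) (mfderiv 𝓘(ℝ, E') 𝓘(ℝ, E) q y w)
      (mfderiv 𝓘(ℝ, E') 𝓘(ℝ, E) q y w) := by
    by_cases h5 : mfderiv 𝓘(ℝ, E') 𝓘(ℝ, E) q y w = 0
    · rw [h5, map_zero]
    · exact (g.pos (q y) (mfderiv 𝓘(ℝ, E') 𝓘(ℝ, E) q y w) h5).le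
  linarith

/-- The function `s` does not increase distances. -/
theorem norm_s_sub_le (g : Met E M) (H : StableCover E q s) (hP : Proper (st g q s)) (x y : E') :
    ‖s x - s y‖ ≤ dh (st g q s) x y := by
  have hm := isMetric_st g H
  obtain ⟨Ex, hE⟩ := A.exists_exp hm hP
  obtain ⟨v, hv, hxy⟩ := A.hopf_rinow hm hP hE x y
  have h1 : ∀ t : ℝ, HasDerivAt (fun t : ℝ => s (Ex x (t • v)))
      (fderiv ℝ s (Ex x (t • v)) (A.vel Ex x v t)) t := fun t =>
    ((H.smooth_s.differentiable (by simp)) _).hasFDerivAt.comp_hasDerivAt t (hE.hasDerivAt x v t)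
  have h2 := norm_image_sub_le_of_norm_deriv_le_segment_01' (f := fun t : ℝ => s (Ex x (t • v)))
    (C := dh (st g q s) x y) (fun t _ => (h1 t).hasDerivWithinAt) (fun t _ => by
      refine (norm_fderiv_s_le g q s _ _).trans ?_
      rw [hE.speed hm x v t, hv])
  have h3 : Ex x ((0 : ℝ) • v) = x := by rw [zero_smul, hE.zero]
  have h4 : Ex x ((1 : ℝ) • v) = y := by rw [one_smul, hxy]
  rw [norm_sub_rev]
  simpa only [h3, h4] using h2

end Pool.Agent.Lib.MP_df705a_gt.Pin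
end
end

section

/-!
# Lower bounds of the Ricci curvature in the sense of Kato: `h` in the exponential coordinates of `W² h`
-/

open scoped Manifold ContDiff Topology
open Set Bundle Module Filter MeasureTheory

noncomputable section

set_option linter.unusedSectionVars false

namespace Pool.Agent.Lib.MP_df705a_gt.Kat

open Pool.Agent.Lib.MP_df705a_gt.Twist Pool.Agent.Lib.MP_df705a_gt.Perm
open Pool.Agent.Lib.MP_df705a_gt.Pin Pool.Agent.Lib.MP_df705a_gt.Pin.A
open Pool.Agent.Lib.MP_df705a_gt.Coll (trM ipM)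
open Pool.Agent.Lib.MP_df705a_gt.Coll.T (ddC mat pull RM SmF)

variable {E : Type*} [NormedAddCommGroup E] [NormedSpace ℝ E] [FiniteDimensional ℝ E]
  {h H : Curv.Coeff E} {W : E → ℝ} {Ex : E → E → E}

theorem hp_rm2 (hm : Curv.IsMetric h) (hE : IsExp H Ex) {p v : E}
    (hd : (fderiv ℝ (Ex p) v).det ≠ 0) : RM (hp h Ex p) v := by
  rw [hp_eq_pull]
  refine Coll.T.pull_rm (hE.smooth_at p) hd ?_
  exact Eventually.of_forall fun z => ⟨fun i j => (hm.1 i j).contDiffAt, hm.2 z⟩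

theorem dens_smooth2 (hm : Curv.IsMetric h) (hE : IsExp H Ex) {p v : E}
    (hd : (fderiv ℝ (Ex p) v).det ≠ 0) : ContDiffAt ℝ ∞ (dens h Ex p) v := by
  have h1 := (hp_rm2 hm hE hd).self_of_nhds
  have h2 : ContDiffAt ℝ ∞ (fun w => (hp h Ex p w).det) v := contDiffAt_det h1.1
  exact h2.sqrt h1.2.det_pos.ne'

theorem dens_continuous2 (hm : Curv.IsMetric h) (hE : IsExp H Ex) :
    Continuous fun q : E × E => dens h Ex q.1 q.2 := by
  have h1 : (fun q : E × E => dens h Ex q.1 q.2) = fun q : E × E =>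
      |(fderiv ℝ (Ex q.1) q.2).det| * √ (h (Ex q.1 q.2)).det := by
    funext q
    exact dens_eq hm Ex q.1 q.2
  rw [h1]
  refine (AR2Aux.det_cont hE).abs.mul (Real.continuous_sqrt.comp ?_)
  have h2 : Continuous fun x : E => (h x).det := by
    refine Continuous.matrix_det ?_
    exact continuous_matrix fun i j => (hm.1 i j).continuous
  exact h2.comp hE.smooth.continuous

theorem dens_zero2 (hm : Curv.IsMetric h) (hE : IsExp H Ex) (p : E) :
    dens h Ex p 0 = √ (h p).det := by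
  rw [dens_eq hm, hE.fderiv_zero p, hE.zero p]
  have h1 : (ContinuousLinearMap.id ℝ E).det = 1 := by
    unfold ContinuousLinearMap.det
    exact LinearMap.det_id
  rw [h1, abs_one, one_mul]

theorem bf_cm (h : Curv.Coeff E) (W : E → ℝ) (x u v : E) :
    bf (cm h W) x u v = W x ^ 2 * bf h x u v := by
  rw [bf_apply, bf_apply, ip_cm]

/-- The gradient for `h` of the distance for `W² h`, in exponential coordinates of `W² h`. -/
theorem gradM_nm2 (hm : Curv.IsMetric h) (hW : ContDiff ℝ ∞ W) (hW0 : ∀ x, 0 < W x)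
    (hE : IsExp (cm h W) Ex) {p v : E} (hv : v ≠ 0) (hd : (fderiv ℝ (Ex p) v).det ≠ 0) :
    gradM (finBasis ℝ E) (hp h Ex p v) (fderiv ℝ (nm (cm h W) p) v) =
      (W (Ex p v) ^ 2 * (nm (cm h W) p v)⁻¹) • v := by
  have hH := isMetric_cm hm hW hW0
  refine AR1Aux.gradM_eq (AR1Aux.rm_posDef (hp_rm2 hm hE hd)) fun u => ?_
  have h1 : bf (hp h Ex p) v ((W (Ex p v) ^ 2 * (nm (cm h W) p v)⁻¹) • v) u =
      fderiv ℝ (nm (cm h W) p) v u := by
    have h2 := hp_gauss hH hE p v u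
    rw [bf_hp, bf_cm] at h2
    rw [map_smul, _root_.smul_apply, bf_hp, smul_eq_mul, nm_fderiv hH p hv u, ← h2]
    ring
  rw [← h1, bf_apply]
  rfl

theorem gradC_nm2 (hm : Curv.IsMetric h) (hW : ContDiff ℝ ∞ W) (hW0 : ∀ x, 0 < W x)
    (hE : IsExp (cm h W) Ex) {p v : E} (hv : v ≠ 0) (hd : (fderiv ℝ (Ex p) v).det ≠ 0)
    (f : E → ℝ) :
    gradC (hp h Ex p) (nm (cm h W) p) f v =
      W (Ex p v) ^ 2 * (fderiv ℝ f v v / nm (cm h W) p v) := by
  rw [AR1Aux.gradC_eq (AR1Aux.rm_posDef (hp_rm2 hm hE hd)), gradM_nm2 hm hW hW0 hE hv hd, map_smul,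
    smul_eq_mul]
  ring

theorem gradC_nm_nm2 (hm : Curv.IsMetric h) (hW : ContDiff ℝ ∞ W) (hW0 : ∀ x, 0 < W x)
    (hE : IsExp (cm h W) Ex) {p v : E} (hv : v ≠ 0) (hd : (fderiv ℝ (Ex p) v).det ≠ 0) :
    gradC (hp h Ex p) (nm (cm h W) p) (nm (cm h W) p) v = W (Ex p v) ^ 2 := by
  have hH := isMetric_cm hm hW hW0
  rw [gradC_nm2 hm hW hW0 hE hv hd, nm_fderiv hH p hv v, ← nm_sq hH p v]
  have h1 := (nm_pos hH p hv).ne'
  field_simp

/-- The Laplacian for `h` of the distance for `W² h` from `p`, in exponential coordinates at `p`. -/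
def mc2 (h : Curv.Coeff E) (W : E → ℝ) (Ex : E → E → E) (p v : E) : ℝ :=
  lapC (hp h Ex p) (nm (cm h W) p) v

theorem mc2_smooth (hm : Curv.IsMetric h) (hW : ContDiff ℝ ∞ W) (hW0 : ∀ x, 0 < W x)
    (hE : IsExp (cm h W) Ex) {p v : E} (hv : v ≠ 0) (hd : (fderiv ℝ (Ex p) v).det ≠ 0) :
    ContDiffAt ℝ ∞ (mc2 h W Ex p) v := by
  have hu : SmF (nm (cm h W) p) v := by
    filter_upwards [isOpen_ne.mem_nhds hv] with z hz
    exact nm_smooth (isMetric_cm hm hW hW0) p hz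
  exact (Coll.T.smF_lap (hp_rm2 hm hE hd) hu).self_of_nhds

/-- The density `W² √ det h`, in exponential coordinates of `W² h`. -/
def dn (h : Curv.Coeff E) (W : E → ℝ) (Ex : E → E → E) (p v : E) : ℝ :=
  W (Ex p v) ^ 2 * dens h Ex p v

theorem dn_pos (hm : Curv.IsMetric h) (hW0 : ∀ x, 0 < W x) {p v : E}
    (hd : (fderiv ℝ (Ex p) v).det ≠ 0) : 0 < dn h W Ex p v :=
  mul_pos (pow_pos (hW0 _) 2) ((dens_pos_iff hm Ex p v).2 hd)

theorem dn_smooth (hm : Curv.IsMetric h) (hW : ContDiff ℝ ∞ W) (hE : IsExp H Ex) {p v : E}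
    (hd : (fderiv ℝ (Ex p) v).det ≠ 0) : ContDiffAt ℝ ∞ (dn h W Ex p) v :=
  ((hW.contDiffAt.comp v (hE.smooth_at p).contDiffAt).pow 2).mul (dens_smooth2 hm hE hd)

/-- The formula for the Laplacian as a logarithmic derivative. -/
theorem mc2_eq (hm : Curv.IsMetric h) (hW : ContDiff ℝ ∞ W) (hW0 : ∀ x, 0 < W x)
    (hE : IsExp (cm h W) Ex) {p v : E} (hv : v ≠ 0) (hd : (fderiv ℝ (Ex p) v).det ≠ 0) :
    mc2 h W Ex p v = W (Ex p v) ^ 2 * (((finrank ℝ E : ℝ) - 1) / nm (cm h W) p v +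
      fderiv ℝ (dn h W Ex p) v v / (nm (cm h W) p v * dn h W Ex p v)) := by
  have hH := isMetric_cm hm hW hW0
  have hRM := hp_rm2 hm hE hd
  have hnm : 0 < nm (cm h W) p v := nm_pos hH p hv
  have hdn : 0 < dens h Ex p v := (dens_pos_iff hm Ex p v).2 hd
  have hDN : 0 < dn h W Ex p v := dn_pos hm hW0 hd
  have hWv : 0 < W (Ex p v) := hW0 _
  have h1 := dv_slice (h := hp h Ex p) (ψ := fun _ => (0 : ℝ)) (u := nm (cm h W) p) (x := v)
    hRM.self.1 (hRM.mono fun w hw => hw.2) contDiffAt_const (nm_smooth hH p hv) 1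
  have h2 : gradC (hp h Ex p) (fun _ => (0 : ℝ)) (nm (cm h W) p) v = 0 := by
    unfold gradC Curv.pd
    simp
  have h3 : (fun y => ((1 : ℝ) * (Real.exp ((fun _ : E => (0 : ℝ)) y) * √ (hp h Ex p y).det)) •
      gradM (finBasis ℝ E) (hp h Ex p y) (fderiv ℝ (nm (cm h W) p) y)) =ᶠ[𝓝 v]
      fun y => (dn h W Ex p y / nm (cm h W) p y) • y := by
    have h4 : ∀ᶠ w in 𝓝 v, w ≠ 0 := isOpen_ne.mem_nhds hv
    filter_upwards [h4, eventually_det_ne hE hd] with w hw hdw
    rw [gradM_nm2 hm hW hW0 hE hw hdw, smul_smul]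
    congr 1
    rw [Real.exp_zero, one_mul, one_mul, div_eq_mul_inv]
    unfold dn A.dens
    ring
  have hdd : DifferentiableAt ℝ (dn h W Ex p) v := (dn_smooth hm hW hE hd).differentiableAt (by simp)
  have hnd : DifferentiableAt ℝ (nm (cm h W) p) v := (nm_smooth hH p hv).differentiableAt (by simp)
  obtain ⟨L, hL⟩ : ∃ L : E →L[ℝ] ℝ, L =
      dn h W Ex p v • ((-(nm (cm h W) p v ^ 2)⁻¹) • fderiv ℝ (nm (cm h W) p) v) +
      (nm (cm h W) p v)⁻¹ • fderiv ℝ (dn h W Ex p) v := ⟨_, rfl⟩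
  have h5 : HasFDerivAt (fun y => dn h W Ex p y / nm (cm h W) p y) L v := by
    have h50 : HasFDerivAt (fun y => (nm (cm h W) p y)⁻¹)
        ((-(nm (cm h W) p v ^ 2)⁻¹) • fderiv ℝ (nm (cm h W) p) v) v :=
      (hasDerivAt_inv hnm.ne').comp_hasFDerivAt v hnd.hasFDerivAt
    have h51 := hdd.hasFDerivAt.mul h50
    rw [hL]
    simp only [div_eq_mul_inv]
    exact h51
  have h6 : HasFDerivAt (fun y : E => (dn h W Ex p y / nm (cm h W) p y) • y)
      ((dn h W Ex p v / nm (cm h W) p v) • ContinuousLinearMap.id ℝ E + L.smulRight v) v :=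
    h5.smul (hasFDerivAt_id v)
  have h7 : fderiv ℝ (nm (cm h W) p) v v = nm (cm h W) p v := by
    rw [nm_fderiv hH p hv, ← nm_sq hH]
    field_simp
  have hLv : L v = dn h W Ex p v * ((-(nm (cm h W) p v ^ 2)⁻¹) * nm (cm h W) p v) +
      (nm (cm h W) p v)⁻¹ * fderiv ℝ (dn h W Ex p) v v := by
    rw [hL]
    show dn h W Ex p v * ((-(nm (cm h W) p v ^ 2)⁻¹) * fderiv ℝ (nm (cm h W) p) v v) +
      (nm (cm h W) p v)⁻¹ * fderiv ℝ (dn h W Ex p) v v = _
    rw [h7]
  have h8 : dv (fun y : E => (dn h W Ex p y / nm (cm h W) p y) • y) v =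
      (dn h W Ex p v / nm (cm h W) p v) * (finrank ℝ E : ℝ) + L v := by
    unfold dv
    rw [h6.fderiv]
    have h9 : (((dn h W Ex p v / nm (cm h W) p v) • ContinuousLinearMap.id ℝ E +
        L.smulRight v : E →L[ℝ] E) :
        E →ₗ[ℝ] E) = (dn h W Ex p v / nm (cm h W) p v) • LinearMap.id +
        LinearMap.smulRight (L : E →ₗ[ℝ] ℝ) v := rfl
    rw [h9, map_add, map_smul, LinearMap.trace_id, LinearMap.trace_smulRight]
    rfl
  have h10 : dv (fun y => ((1 : ℝ) * (Real.exp ((fun _ : E => (0 : ℝ)) y) *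
      √ (hp h Ex p y).det)) •
      gradM (finBasis ℝ E) (hp h Ex p y) (fderiv ℝ (nm (cm h W) p) y)) v =
      dv (fun y : E => (dn h W Ex p y / nm (cm h W) p y) • y) v := by
    unfold dv
    rw [h3.fderiv_eq]
  rw [h10, h8, h2, add_zero, one_mul, Real.exp_zero, one_mul, hLv] at h1
  have h11 : √ (hp h Ex p v).det = dens h Ex p v := rfl
  rw [h11] at h1
  have h12 : mc2 h W Ex p v = lapC (hp h Ex p) (nm (cm h W) p) v := rfl
  rw [← h12] at h1
  have h14 : dens h Ex p v = dn h W Ex p v / W (Ex p v) ^ 2 := by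
    unfold dn
    field_simp
  have h13 : mc2 h W Ex p v = (dn h W Ex p v / nm (cm h W) p v * (finrank ℝ E : ℝ) +
      (dn h W Ex p v * ((-(nm (cm h W) p v ^ 2)⁻¹) * nm (cm h W) p v) +
        (nm (cm h W) p v)⁻¹ * fderiv ℝ (dn h W Ex p) v v)) /
      dens h Ex p v := by
    rw [h1]
    field_simp
  rw [h13, h14]
  field_simp
  ring

/-- Along the ray `s ↦ s e` of a unit vector: `mc2 / W² = (n - 1) / s + (log dn)'`. -/
theorem hasDerivAt_log_dn (hm : Curv.IsMetric h) (hW : ContDiff ℝ ∞ W) (hW0 : ∀ x, 0 < W x)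
    (hE : IsExp (cm h W) Ex) {p e : E} (he : nm (cm h W) p e = 1) {s : ℝ} (hs : 0 < s)
    (hd : (fderiv ℝ (Ex p) (s • e)).det ≠ 0) :
    HasDerivAt (fun s : ℝ => Real.log (dn h W Ex p (s • e)))
      (mc2 h W Ex p (s • e) / W (Ex p (s • e)) ^ 2 - ((finrank ℝ E : ℝ) - 1) / s) s := by
  have he0 : e ≠ 0 := by
    intro h0
    rw [h0, nm_zero] at he
    exact zero_ne_one he
  have hse : s • e ≠ 0 := smul_ne_zero hs.ne' he0
  have hnm : nm (cm h W) p (s • e) = s := by rw [nm_smul, he, mul_one, abs_of_pos hs]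
  have hpos : 0 < dn h W Ex p (s • e) := dn_pos hm hW0 hd
  have hdiff : DifferentiableAt ℝ (dn h W Ex p) (s • e) :=
    (dn_smooth hm hW hE hd).differentiableAt (by simp)
  have h1 : HasDerivAt (fun s : ℝ => s • e) e s := by
    have h2 := (hasDerivAt_id s).smul_const e
    rwa [one_smul] at h2
  have h2 : HasDerivAt (fun s : ℝ => dn h W Ex p (s • e)) (fderiv ℝ (dn h W Ex p) (s • e) e) s := by
    have h5 : HasFDerivAt (dn h W Ex p) (fderiv ℝ (dn h W Ex p) (s • e)) (s • e) :=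
      hdiff.hasFDerivAt
    exact HasFDerivAt.comp_hasDerivAt (f := fun s : ℝ => s • e) s h5 h1
  have h3 := h2.log hpos.ne'
  have hWv : W (Ex p (s • e)) ≠ 0 := (hW0 _).ne'
  have h4 : mc2 h W Ex p (s • e) / W (Ex p (s • e)) ^ 2 - ((finrank ℝ E : ℝ) - 1) / s =
      fderiv ℝ (dn h W Ex p) (s • e) e / dn h W Ex p (s • e) := by
    rw [mc2_eq hm hW hW0 hE hse hd, hnm, map_smul, smul_eq_mul, mul_div_mul_left _ _ hs.ne']
    field_simp
    ring
  rw [h4]
  exact h3

theorem mc2_near_zero (hm : Curv.IsMetric h) (hW : ContDiff ℝ ∞ W) (hW0 : ∀ x, 0 < W x)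
    (hE : IsExp (cm h W) Ex) {p e : E} (he : nm (cm h W) p e = 1) :
    ∃ C : ℝ, ∀ᶠ s in 𝓝[>] (0 : ℝ),
      |mc2 h W Ex p (s • e) / W (Ex p (s • e)) ^ 2 - ((finrank ℝ E : ℝ) - 1) / s| ≤ C := by
  have hd0 : (fderiv ℝ (Ex p) 0).det ≠ 0 := by
    rw [hE.fderiv_zero p]
    simp [ContinuousLinearMap.det]
  have hlog : ∀ w : E, (fderiv ℝ (Ex p) w).det ≠ 0 →
      ContDiffAt ℝ ∞ (fun v => Real.log (dn h W Ex p v)) w := fun w hw =>
    (dn_smooth hm hW hE hw).log (dn_pos hm hW0 hw).ne'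
  have hc : ContinuousAt (fderiv ℝ (fun v => Real.log (dn h W Ex p v))) 0 :=
    ((hlog 0 hd0).fderiv_right (m := 0) (by simp)).continuousAt
  have hcn : ContinuousAt (fun v => ‖fderiv ℝ (fun v => Real.log (dn h W Ex p v)) v‖) 0 := hc.norm
  set C : ℝ := ‖fderiv ℝ (fun v => Real.log (dn h W Ex p v)) 0‖ + 1 with hC
  have hev : ∀ᶠ v in 𝓝 (0 : E), ‖fderiv ℝ (fun v => Real.log (dn h W Ex p v)) v‖ < C :=
    hcn.eventually_lt_const (by rw [hC]; linarith)
  have htd : Tendsto (fun s : ℝ => s • e) (𝓝[>] (0 : ℝ)) (𝓝 (0 : E)) := by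
    have h1 : Continuous (fun s : ℝ => s • e) := by fun_prop
    have h2 := h1.tendsto (0 : ℝ)
    rw [zero_smul] at h2
    exact h2.mono_left nhdsWithin_le_nhds
  refine ⟨C * ‖e‖, ?_⟩
  filter_upwards [htd.eventually hev, htd.eventually (eventually_det_ne hE hd0),
    self_mem_nhdsWithin] with s h1 h2 h3
  have h4 := hasDerivAt_log_dn hm hW hW0 hE he (Set.mem_Ioi.1 h3) h2
  have h5 : HasDerivAt (fun s : ℝ => s • e) e s := by
    simpa using (hasDerivAt_id s).smul_const e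
  have h6 := ((hlog _ h2).differentiableAt (by simp)).hasFDerivAt.comp_hasDerivAt s h5
  have h7 := h4.unique h6
  rw [h7, ← Real.norm_eq_abs]
  exact (ContinuousLinearMap.le_opNorm _ _).trans
    (mul_le_mul_of_nonneg_right h1.le (norm_nonneg _))

end Pool.Agent.Lib.MP_df705a_gt.Kat
end
end

section

/-!
# Lower bounds of the Ricci curvature in the sense of Kato: the inequality of Riccati
-/

open scoped Manifold ContDiff Topology
open Set Bundle Module Filter MeasureTheory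

noncomputable section

set_option linter.unusedSectionVars false

namespace Pool.Agent.Lib.MP_df705a_gt.Kat

open Pool.Agent.Lib.MP_df705a_gt.Twist Pool.Agent.Lib.MP_df705a_gt.Perm
open Pool.Agent.Lib.MP_df705a_gt.Pin Pool.Agent.Lib.MP_df705a_gt.Pin.A
open Pool.Agent.Lib.MP_df705a_gt.Coll (trM ipM)
open Pool.Agent.Lib.MP_df705a_gt.Coll.T (ddC mat pull RM SmF)

variable {E : Type*} [NormedAddCommGroup E] [NormedSpace ℝ E] [FiniteDimensional ℝ E]
  {h : Curv.Coeff E} {W : E → ℝ} {Ex : E → E → E}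

theorem smF_nm2 (hm : Curv.IsMetric h) (hW : ContDiff ℝ ∞ W) (hW0 : ∀ x, 0 < W x) (p : E) {v : E}
    (hv : v ≠ 0) : SmF (nm (cm h W) p) v := by
  filter_upwards [isOpen_ne.mem_nhds hv] with z hz
  exact nm_smooth (isMetric_cm hm hW hW0) p hz

theorem smF_W (hW : ContDiff ℝ ∞ W) (hE : IsExp (cm h W) Ex) (p v : E) :
    SmF (fun z => W (Ex p z)) v :=
  Eventually.of_forall fun _ => (hW.comp (hE.smooth_at p)).contDiffAt

/-- `|dq|² = θ²` near `v`. -/
theorem grad_nm_ev (hm : Curv.IsMetric h) (hW : ContDiff ℝ ∞ W) (hW0 : ∀ x, 0 < W x)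
    (hE : IsExp (cm h W) Ex) {p v : E} (hv : v ≠ 0) (hd : (fderiv ℝ (Ex p) v).det ≠ 0) :
    gradC (hp h Ex p) (nm (cm h W) p) (nm (cm h W) p) =ᶠ[𝓝 v] fun z => W (Ex p z) ^ 2 := by
  filter_upwards [isOpen_ne.mem_nhds hv, eventually_det_ne hE hd] with z hz hdz
  exact gradC_nm_nm2 hm hW hW0 hE hz hdz

theorem gradC_sq_right {k : Curv.Coeff E} {q θ : E → ℝ} {v : E} (hθ : DifferentiableAt ℝ θ v) :
    gradC k q (fun z => θ z ^ 2) v = 2 * θ v * gradC k q θ v := by
  have h1 : ∀ i, Curv.pd i (fun z => θ z ^ 2) v = 2 * θ v * Curv.pd i θ v := by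
    intro i
    unfold Curv.pd
    have h2 := (hθ.hasFDerivAt.pow 2).fderiv
    rw [h2]
    simp
  unfold gradC
  rw [Finset.mul_sum]
  refine Finset.sum_congr rfl fun i _ => ?_
  rw [Finset.mul_sum]
  refine Finset.sum_congr rfl fun j _ => ?_
  rw [h1 j]
  ring

/-- The estimate of the Hessian of the distance for `W² h`. -/
theorem hess_nm2 (hm : Curv.IsMetric h) (hW : ContDiff ℝ ∞ W) (hW0 : ∀ x, 0 < W x)
    (hE : IsExp (cm h W) Ex) {p v : E} (hv : v ≠ 0) (hd : (fderiv ℝ (Ex p) v).det ≠ 0) :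
    (mc2 h W Ex p v - gradC (hp h Ex p) (nm (cm h W) p) (fun z => W (Ex p z)) v / W (Ex p v)) ^ 2 ≤
      ((finrank ℝ E : ℝ) - 1) *
      (ipM (hp h Ex p v) (Curv.covHess (hp h Ex p) (nm (cm h W) p) v)
        (Curv.covHess (hp h Ex p) (nm (cm h W) p) v) -
        gradC (hp h Ex p) (fun z => W (Ex p z)) (fun z => W (Ex p z)) v) := by
  have hn : 0 < finrank ℝ E := by
    have : Nontrivial E := ⟨v, 0, hv⟩
    exact finrank_pos
  have hn1 : (0 : ℝ) ≤ (finrank ℝ E : ℝ) - 1 := by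
    have : (1 : ℝ) ≤ finrank ℝ E := by exact_mod_cast hn
    linarith
  have hRM := hp_rm2 hm hE hd
  have hpd := AR1Aux.rm_posDef hRM
  have hq := smF_nm2 hm hW hW0 p hv
  have hθ := smF_W hW hE p v
  have hθd : DifferentiableAt ℝ (fun z => W (Ex p z)) v :=
    hθ.self_of_nhds.differentiableAt (by simp)
  have hw : 0 < W (Ex p v) := hW0 _
  set k : Curv.Coeff E := hp h Ex p with hk
  set q : E → ℝ := nm (cm h W) p with hqd
  set θ : E → ℝ := fun z => W (Ex p z) with hθdef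
  set e : ℝ := gradC k q θ v with he
  set g : ℝ := gradC k θ θ v with hg
  have hev := grad_nm_ev hm hW hW0 hE hv hd
  have hevv : gradC k q q v = θ v ^ 2 := gradC_nm_nm2 hm hW hW0 hE hv hd
  have hA : ∀ i j, (k v)⁻¹ i j = (k v)⁻¹ j i := AR1Aux.symm_inv hpd
  have hcomm : gradC k θ q v = e := by
    rw [he]
    unfold gradC
    rw [Finset.sum_comm]
    refine Finset.sum_congr rfl fun i _ => Finset.sum_congr rfl fun j _ => ?_
    rw [hA j i]
    ring
  have s1 : ipM (k v) (Curv.covHess k q v) (ddC q q v) = θ v * e := by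
    rw [Coll.T.hess_grdC hRM hq hq hq, g3_gradC_congr (EventuallyEq.refl _ _) hev,
      gradC_sq_right (θ := θ) hθd]
    ring
  have s2 : ipM (k v) (Curv.covHess k q v) (ddC q θ v) = θ v * g := by
    have h1 : gradC k θ (gradC k q q) v = 2 * θ v * g := by
      rw [g3_gradC_congr (EventuallyEq.refl _ _) hev, gradC_sq_right (θ := θ) hθd]
    rw [Coll.T.hess_grdC hRM hq hq hθ, h1]
    ring
  obtain ⟨p1, p2, p3⟩ := ipM_sy (A := k v) hA (fun i => Curv.pd i q v) (fun i => Curv.pd i θ v)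
    (a := θ v ^ 2) (b := e) (c := g) hevv rfl rfl
  have t6 : trM (k v) (ddC q q v) = θ v ^ 2 := by
    rw [← hevv]
    unfold trM gradC ddC
    refine Finset.sum_congr rfl fun i _ => Finset.sum_congr rfl fun j _ => ?_
    ring
  have t7 : trM (k v) (ddC q θ v) = e := by
    have h1 : trM (k v) (ddC q θ v) = (1 / 2) * (gradC k q θ v + gradC k θ q v) := by
      unfold trM gradC ddC
      rw [← Finset.sum_add_distrib, Finset.mul_sum]
      refine Finset.sum_congr rfl fun i _ => ?_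
      rw [← Finset.sum_add_distrib, Finset.mul_sum]
      refine Finset.sum_congr rfl fun j _ => ?_
      ring
    rw [h1, hcomm, ← he]
    ring
  have main := alg (n := finrank ℝ E) hn (G := k v) (S := Curv.covHess k q v) (D := ddC q q v)
    (D₁ := ddC q θ v) (w := θ v) (e := e) (g := g) hpd hw s1 s2
    (by rw [show θ v ^ 4 = (θ v ^ 2) ^ 2 by ring]; exact p1) p2 p3 t6 t7
  -- the inequality of Cauchy and Schwarz
  have hcs : e ^ 2 ≤ θ v ^ 2 * g := by
    have h1 : 0 ≤ gradC k (fun z => e * q z + (-(θ v ^ 2)) * θ z)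
        (fun z => e * q z + (-(θ v ^ 2)) * θ z) v := G4.gradC_nonneg hpd
    have hqdd : DifferentiableAt ℝ q v := hq.self_of_nhds.differentiableAt (by simp)
    have h2 : ∀ i, Curv.pd i (fun z => e * q z + (-(θ v ^ 2)) * θ z) v =
        e * Curv.pd i q v + (-(θ v ^ 2)) * Curv.pd i θ v := by
      intro i
      unfold Curv.pd
      have h3 := ((hqdd.hasFDerivAt.const_mul e).add
        (hθd.hasFDerivAt.const_mul (-(θ v ^ 2)))).fderiv
      have h4 : (fun z => e * q z + (-(θ v ^ 2)) * θ z) =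
          (fun z => e * q z) + fun z => (-(θ v ^ 2)) * θ z := rfl
      rw [h4, h3]
      rfl
    have h3 : gradC k (fun z => e * q z + (-(θ v ^ 2)) * θ z)
        (fun z => e * q z + (-(θ v ^ 2)) * θ z) v =
        e ^ 2 * gradC k q q v + e * (-(θ v ^ 2)) * gradC k q θ v +
          (-(θ v ^ 2)) * e * gradC k θ q v + (θ v ^ 2) ^ 2 * gradC k θ θ v := by
      unfold gradC
      simp only [h2, Finset.mul_sum, ← Finset.sum_add_distrib]
      refine Finset.sum_congr rfl fun i _ => Finset.sum_congr rfl fun j _ => ?_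
      ring
    rw [h3, hcomm, hevv, ← he, ← hg] at h1
    have hw2 : 0 < θ v ^ 2 := pow_pos hw 2
    have h5 : 0 ≤ θ v ^ 2 * (θ v ^ 2 * g - e ^ 2) := by nlinarith
    have h6 := nonneg_of_mul_nonneg_right h5 hw2
    linarith
  have h8 : e ^ 2 / θ v ^ 2 ≤ g := by
    rw [div_le_iff₀ (pow_pos hw 2)]
    linarith
  refine main.trans ?_
  refine mul_le_mul_of_nonneg_left ?_ hn1
  linarith

/-- The formula of Bochner for the distance for `W² h`. -/
theorem fderiv_mc2 (hm : Curv.IsMetric h) (hW : ContDiff ℝ ∞ W) (hW0 : ∀ x, 0 < W x)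
    (hE : IsExp (cm h W) Ex) {p v : E} (hv : v ≠ 0) (hd : (fderiv ℝ (Ex p) v).det ≠ 0) :
    W (Ex p v) ^ 2 * (fderiv ℝ (mc2 h W Ex p) v v / nm (cm h W) p v) =
      W (Ex p v) * lapC h W (Ex p v) +
      gradC (hp h Ex p) (fun z => W (Ex p z)) (fun z => W (Ex p z)) v -
      ipM (hp h Ex p v) (Curv.covHess (hp h Ex p) (nm (cm h W) p) v)
        (Curv.covHess (hp h Ex p) (nm (cm h W) p) v) -
      W (Ex p v) ^ 4 * (rc h (Ex p v) (vel Ex p v 1) / nm (cm h W) p v ^ 2) := by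
  have hH := isMetric_cm hm hW hW0
  have hR : RM (hp h Ex p) v := hp_rm2 hm hE hd
  have hpd := AR1Aux.rm_posDef hR
  have hq : SmF (nm (cm h W) p) v := smF_nm2 hm hW hW0 p hv
  have hθ := smF_W hW hE p v
  have hsm : ContDiffAt ℝ ∞ (Ex p) v := (hE.smooth_at p).contDiffAt
  have key := Coll.T.bochnerC hR hq hq
  -- the Laplacian of `θ²`
  have hlap : lapC (hp h Ex p) (gradC (hp h Ex p) (nm (cm h W) p) (nm (cm h W) p)) v =
      2 * W (Ex p v) * lapC h W (Ex p v) +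
      2 * gradC (hp h Ex p) (fun z => W (Ex p z)) (fun z => W (Ex p z)) v := by
    rw [g3_lapC_congr (grad_nm_ev hm hW hW0 hE hv hd)]
    have h1 := G4.lapC_comp (hp h Ex p) (u := fun z => W (Ex p z)) (y := v)
      (φ := fun t : ℝ => t ^ 2) hθ.self_of_nhds (contDiffAt_id.pow 2)
    have e1 : deriv (fun s : ℝ => s ^ 2) = fun s => 2 * s := by
      funext s
      simp
    have e2 : deriv (fun s : ℝ => 2 * s) = fun _ => 2 := by
      funext s
      rw [deriv_const_mul _ differentiableAt_id]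
      simp
    rw [e1, e2] at h1
    have h2 : lapC (hp h Ex p) (fun z => W (Ex p z)) v = lapC h W (Ex p v) := by
      refine lapC_pull (h := h) (h' := hp h Ex p) (τ := Ex p) (u := W) hsm hd
        (fun i j => (hm.1 i j).contDiffAt) (Eventually.of_forall fun x i j => ?_)
        (hm.2 _).det_pos.ne' (Eventually.of_forall fun x => rfl) hW.contDiffAt
      have := (hm.2 x).isHermitian.apply i j
      simpa using this.symm
    rw [h2] at h1
    exact h1
  rw [hlap] at key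
  have h1 : gradC (hp h Ex p) (nm (cm h W) p) (lapC (hp h Ex p) (nm (cm h W) p)) v =
      W (Ex p v) ^ 2 * (fderiv ℝ (mc2 h W Ex p) v v / nm (cm h W) p v) :=
    gradC_nm2 hm hW hW0 hE hv hd (mc2 h W Ex p)
  rw [h1] at key
  have hgrad : ∀ i : Fin (finrank ℝ E),
      ∑ a, (hp h Ex p v)⁻¹ i a * Curv.pd a (nm (cm h W) p) v =
      (W (Ex p v) ^ 2 * (nm (cm h W) p v)⁻¹) * (finBasis ℝ E).repr v i := by
    intro i
    have h1 := congrArg (fun w => (finBasis ℝ E).repr w i) (gradM_nm2 hm hW hW0 hE hv hd)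
    have h2 : (finBasis ℝ E).repr (gradM (finBasis ℝ E) (hp h Ex p v)
        (fderiv ℝ (nm (cm h W) p) v)) i =
        ∑ a, (hp h Ex p v)⁻¹ i a * fderiv ℝ (nm (cm h W) p) v (finBasis ℝ E a) := by
      unfold gradM
      exact congrFun ((finBasis ℝ E).repr_sum_self _) i
    have h3 : (finBasis ℝ E).repr ((W (Ex p v) ^ 2 * (nm (cm h W) p v)⁻¹) • v) i =
        (W (Ex p v) ^ 2 * (nm (cm h W) p v)⁻¹) * (finBasis ℝ E).repr v i := by
      rw [map_smul, Finsupp.smul_apply, smul_eq_mul]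
    exact h2.symm.trans (h1.trans h3)
  have h2 : ipM (hp h Ex p v) (Coll.ric (hp h Ex p) v)
      (ddC (nm (cm h W) p) (nm (cm h W) p) v) =
      W (Ex p v) ^ 4 * (rc h (Ex p v) (vel Ex p v 1) / nm (cm h W) p v ^ 2) := by
    have h3 : Coll.ric (hp h Ex p) v = (mat (fderiv ℝ (Ex p) v)).transpose *
        Coll.ric h (Ex p v) * mat (fderiv ℝ (Ex p) v) := by
      refine Coll.T.ric_pull hsm hd (fun i j => (hm.1 i j).contDiffAt) ?_ ?_
        (Eventually.of_forall fun _ => rfl)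
      · refine Eventually.of_forall fun x i j => ?_
        have h8 := (hm.2 x).isHermitian.apply i j
        simpa using h8.symm
      · exact (hm.2 (Ex p v)).det_pos.ne'
    have h4 : ddC (nm (cm h W) p) (nm (cm h W) p) v = fun a b =>
        (Curv.pd a (nm (cm h W) p) v * Curv.pd b (nm (cm h W) p) v +
          Curv.pd b (nm (cm h W) p) v * Curv.pd a (nm (cm h W) p) v) / 2 := rfl
    rw [h4, AR4cAux.ipM_dd]
    simp only [hgrad]
    have h5 := AR4cAux.form_conj _ _ _ h3 v v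
    have h6 : vel Ex p v 1 = fderiv ℝ (Ex p) v v := by
      unfold vel
      rw [one_smul]
    have h7 : rc h (Ex p v) (vel Ex p v 1) = ∑ i, ∑ j, Coll.ric h (Ex p v) i j *
        ((finBasis ℝ E).repr (fderiv ℝ (Ex p) v v) i *
          (finBasis ℝ E).repr (fderiv ℝ (Ex p) v v) j) := by
      rw [h6]
      rfl
    rw [h7, ← h5, div_eq_inv_mul, Finset.mul_sum, Finset.mul_sum]
    refine Finset.sum_congr rfl fun i _ => ?_
    rw [Finset.mul_sum, Finset.mul_sum]
    refine Finset.sum_congr rfl fun j _ => ?_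
    have h9 : (nm (cm h W) p v ^ 2)⁻¹ = (nm (cm h W) p v)⁻¹ * (nm (cm h W) p v)⁻¹ := by
      rw [pow_two, mul_inv]
    rw [h9]
    ring
  rw [h2] at key
  linarith

/-- The inequality of Riccati along the ray of a unit vector `e`. -/
theorem ray_riccati2 (hm : Curv.IsMetric h) (hW : ContDiff ℝ ∞ W) (hW0 : ∀ x, 0 < W x)
    (hE : IsExp (cm h W) Ex) (hn : 2 ≤ finrank ℝ E) {p e : E} (he : nm (cm h W) p e = 1) {s : ℝ}
    (hs : 0 < s) (hd : (fderiv ℝ (Ex p) (s • e)).det ≠ 0) {κ : ℝ}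
    (hg : Gd h W κ (Ex p (s • e))) :
    ∃ y' : ℝ, HasDerivAt (fun s : ℝ => mc2 h W Ex p (s • e)) y' s ∧
      y' ≤ (finrank ℝ E : ℝ) * κ - (mc2 h W Ex p (s • e) / W (Ex p (s • e)) -
        fderiv ℝ W (Ex p (s • e)) (vel Ex p e s)) ^ 2 / ((finrank ℝ E : ℝ) - 1) := by
  have hH := isMetric_cm hm hW hW0
  have he0 : e ≠ 0 := by
    rintro rfl
    rw [nm_zero] at he
    norm_num at he
  have hv : s • e ≠ 0 := smul_ne_zero hs.ne' he0
  have hnm : nm (cm h W) p (s • e) = s := by rw [nm_smul, he, mul_one, abs_of_pos hs]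
  have hdiff : DifferentiableAt ℝ (mc2 h W Ex p) (s • e) :=
    (mc2_smooth hm hW hW0 hE hv hd).differentiableAt (by simp)
  have h1 : HasDerivAt (fun s : ℝ => s • e) e s := by
    simpa using (hasDerivAt_id s).smul_const e
  have h2 := hdiff.hasFDerivAt.comp_hasDerivAt s h1
  refine ⟨_, h2, ?_⟩
  have h3 := fderiv_mc2 hm hW hW0 hE hv hd
  have h4 : vel Ex p (s • e) 1 = s • vel Ex p e s := by rw [vel_smul, one_mul]
  rw [hnm, h4, AR4Aux.rc_smul, map_smul, smul_eq_mul, mul_div_cancel_left₀ _ hs.ne',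
    mul_div_cancel_left₀ _ (pow_ne_zero 2 hs.ne')] at h3
  have h5 := hess_nm2 hm hW hW0 hE hv hd
  have h6 : gradC (hp h Ex p) (nm (cm h W) p) (fun z => W (Ex p z)) (s • e) =
      W (Ex p (s • e)) ^ 2 * fderiv ℝ W (Ex p (s • e)) (vel Ex p e s) := by
    rw [gradC_nm2 hm hW hW0 hE hv hd, hnm]
    have h7 : fderiv ℝ (fun z => W (Ex p z)) (s • e) (s • e) =
        fderiv ℝ W (Ex p (s • e)) (fderiv ℝ (Ex p) (s • e) (s • e)) := by
      have h8 : HasFDerivAt (fun z => W (Ex p z))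
          ((fderiv ℝ W (Ex p (s • e))).comp (fderiv ℝ (Ex p) (s • e))) (s • e) :=
        ((hW.differentiable (by simp)).differentiableAt.hasFDerivAt).comp (s • e)
          (((hE.smooth_at p).differentiable (by simp)).differentiableAt.hasFDerivAt)
      rw [h8.fderiv]
      rfl
    rw [h7, map_smul, map_smul, smul_eq_mul, mul_div_cancel_left₀ _ hs.ne']
    rfl
  have hrc := rc_ge hg.2 (vel Ex p e s)
  have hbf : W (Ex p (s • e)) ^ 2 * bf h (Ex p (s • e)) (vel Ex p e s) (vel Ex p e s) = 1 := by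
    rw [← bf_cm, hE.energy hH p e s, ← nm_sq hH, he, one_pow]
  have hta := hg.1
  rw [h6] at h5
  set x : E := Ex p (s • e) with hx
  set w : ℝ := W x with hw
  have hwp : 0 < w := hW0 _
  set D : ℝ := fderiv ℝ W x (vel Ex p e s) with hD
  set y : ℝ := mc2 h W Ex p (s • e) with hy
  set Q : ℝ := ipM (hp h Ex p (s • e)) (Curv.covHess (hp h Ex p) (nm (cm h W) p) (s • e))
        (Curv.covHess (hp h Ex p) (nm (cm h W) p) (s • e)) with hQ
  set g : ℝ := gradC (hp h Ex p) (fun z => W (Ex p z)) (fun z => W (Ex p z)) (s • e) with hgg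
  set y' : ℝ := fderiv ℝ (mc2 h W Ex p) (s • e) e with hy'
  set L : ℝ := lapC h W x with hL
  set b : ℝ := bf h x (vel Ex p e s) (vel Ex p e s) with hb
  set N : ℝ := (finrank ℝ E : ℝ) with hN
  have hN2 : (2 : ℝ) ≤ N := by rw [hN]; exact_mod_cast hn
  have hN1 : 0 < N - 1 := by linarith
  have hτ : ta h W κ x = κ - L / (N * w) := rfl
  rw [hτ] at hrc hta
  have e1 : w ^ 2 * D / w = w * D := by field_simp
  rw [e1] at h5
  have e2 : L / (N * w) ≤ κ := by linarith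
  have e3 : L ≤ N * κ * w := by
    rw [div_le_iff₀ (by positivity)] at e2
    linarith
  have e4 : -(w ^ 4 * rc h x (vel Ex p e s)) ≤ κ * w ^ 2 - L * w / N := by
    have h7 : w ^ 4 * (-(κ - L / (N * w)) * b) ≤ w ^ 4 * rc h x (vel Ex p e s) :=
      mul_le_mul_of_nonneg_left hrc (by positivity)
    have h8 : w ^ 4 * (-(κ - L / (N * w)) * b) = -(κ - L / (N * w)) * w ^ 2 * (w ^ 2 * b) := by ring
    rw [h8, hbf, mul_one] at h7
    have h9 : -(κ - L / (N * w)) * w ^ 2 = -(κ * w ^ 2 - L * w / N) := by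
      field_simp
    rw [h9] at h7
    linarith
  have e5 : (y - w * D) ^ 2 / (N - 1) ≤ Q - g := by
    rw [div_le_iff₀ hN1]
    linarith
  have e6 : w ^ 2 * y' ≤ w ^ 2 * (N * κ) - (y - w * D) ^ 2 / (N - 1) := by
    have h7 : w * L - L * w / N = (N - 1) / N * (w * L) := by
      field_simp
    have h8 : (N - 1) / N * (w * L) ≤ (N - 1) / N * (w * (N * κ * w)) := by
      refine mul_le_mul_of_nonneg_left (mul_le_mul_of_nonneg_left e3 hwp.le) (by positivity)
    have h9 : (N - 1) / N * (w * (N * κ * w)) = w ^ 2 * (N * κ) - κ * w ^ 2 := by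
      field_simp
    linarith
  have e7 : (y / w - D) ^ 2 / (N - 1) = ((y - w * D) ^ 2 / (N - 1)) / w ^ 2 := by
    field_simp
  rw [e7]
  have hw2 : 0 < w ^ 2 := by positivity
  have e8 : y' ≤ (w ^ 2 * (N * κ) - (y - w * D) ^ 2 / (N - 1)) / w ^ 2 := by
    rw [le_div_iff₀ hw2]
    linarith
  refine e8.trans (le_of_eq ?_)
  rw [sub_div, mul_div_cancel_left₀ _ hw2.ne']

end Pool.Agent.Lib.MP_df705a_gt.Kat
end
end
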