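import Pool.Agent.Lib.MP_df705a_gt.Mg.G068
import Pool.Agent.Lib.MP_df705a_gt.Mg.G061
import Pool.Agent.Lib.MP_df705a_gt.Mg.G067

section

/-!
# Ricci pinching, part A, AR8: Laplacian comparison for the square of the distance
-/

open scoped Manifold ContDiff Topology
open Set Bundle Module Filter MeasureTheory

noncomputable section

set_option linter.unusedSectionVars false

namespace Pool.Agent.Lib.MP_df705a_gt.Pin.A

open Pool.Agent.Lib.MP_df705a_gt.Twist Pool.Agent.Lib.MP_df705a_gt.Perm
open Pool.Agent.Lib.MP_df705a_gt.Coll (trM ipM)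
open Pool.Agent.Lib.MP_df705a_gt.Coll.T (ddC mat pull RM SmF)

variable {E : Type*} [NormedAddCommGroup E] [NormedSpace ℝ E] [FiniteDimensional ℝ E]
  {h : Curv.Coeff E}

variable {Ex : E → E → E}

/-- One sided estimate of the differential. -/
theorem AR8_fderiv_le (hm : Curv.IsMetric h) {p y : E} {φ : E → ℝ} (hφ : ContDiffAt ℝ ∞ φ y)
    (hle : ∀ᶠ x in 𝓝 y, φ x ≤ dh h p x) (heq : φ y = dh h p y) (u : E) :
    fderiv ℝ φ y u ≤ nm h y u := by
  refine le_of_forall_gt_imp_ge_of_dense fun C hC => ?_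
  have hd : DifferentiableAt ℝ φ y := hφ.differentiableAt (by norm_num)
  have hline : HasDerivAt (fun t : ℝ => y + t • u) u 0 := by
    have h1 := ((hasDerivAt_id (0 : ℝ)).smul_const u).const_add y
    simpa using h1
  have hder : HasDerivAt (fun t : ℝ => φ (y + t • u)) (fderiv ℝ φ y u) 0 := by
    have h1 : HasFDerivAt φ (fderiv ℝ φ y) (y + (0 : ℝ) • u) := by
      rw [zero_smul, add_zero]
      exact hd.hasFDerivAt
    exact h1.comp_hasDerivAt (0 : ℝ) hline
  have hslope := hder.tendsto_slope_zero_right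
  have hcont : Continuous fun t : ℝ => nm h (y + t • u) u :=
    (nm_continuous hm).comp ((continuous_const.add
      (continuous_id.smul continuous_const)).prodMk continuous_const)
  have hev : ∀ᶠ t : ℝ in 𝓝 0, nm h (y + t • u) u < C := by
    refine hcont.continuousAt.eventually (gt_mem_nhds ?_ : ∀ᶠ z in 𝓝 _, z < C)
    simp only [zero_smul, add_zero]
    exact hC
  obtain ⟨δ, hδ, hδ'⟩ := Metric.eventually_nhds_iff.1 hev
  have hle' : ∀ᶠ t : ℝ in 𝓝 0, φ (y + t • u) ≤ dh h p (y + t • u) := by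
    have h1 : Tendsto (fun t : ℝ => y + t • u) (𝓝 0) (𝓝 y) := by
      have := hline.continuousAt.tendsto
      rwa [zero_smul, add_zero] at this
    exact h1.eventually hle
  refine le_of_tendsto hslope ?_
  have hI : ∀ᶠ t : ℝ in 𝓝[>] 0, t ∈ Ioo 0 δ := Ioo_mem_nhdsGT hδ
  filter_upwards [hI, hle'.filter_mono nhdsWithin_le_nhds] with t ht ht'
  rw [zero_add, zero_smul, add_zero, smul_eq_mul, heq]
  have h1 : dh h (y + (0 : ℝ) • u) (y + t • u) ≤ C * (t - 0) := by
    refine dh_le_curve hm (g := fun s : ℝ => y + s • u) (g' := fun _ => u) ht.1.le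
      (fun s _ => ?_) continuousOn_const fun s hs => ?_
    · have h2 := (((hasDerivAt_id s).smul_const u).const_add y).hasDerivWithinAt (s := Icc 0 t)
      simpa using h2
    · refine (hδ' ?_).le
      rw [Real.dist_eq, sub_zero, abs_of_nonneg hs.1]
      exact lt_of_le_of_lt hs.2 ht.2
  rw [zero_smul, add_zero, sub_zero] at h1
  have h2 := dh_triangle hm p y (y + t • u)
  rw [inv_mul_le_iff₀ ht.1]
  linarith

theorem AR8_abs_fderiv_le (hm : Curv.IsMetric h) {p y : E} {φ : E → ℝ} (hφ : ContDiffAt ℝ ∞ φ y)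
    (hle : ∀ᶠ x in 𝓝 y, φ x ≤ dh h p x) (heq : φ y = dh h p y) (u : E) :
    fderiv ℝ φ y u ≤ nm h y u := AR8_fderiv_le hm hφ hle heq u

theorem AR8_gradC (hm : Curv.IsMetric h) (φ : E → ℝ) (y : E) :
    nm h y (gradM (finBasis ℝ E) (h y) (fderiv ℝ φ y)) ^ 2 = gradC h φ φ y := by
  rw [nm_sq hm, bf_apply]
  have h1 := Circ.J8.mB_gradM (hm.2 y) (fderiv ℝ φ y)
    (gradM (finBasis ℝ E) (h y) (fderiv ℝ φ y))
  rw [Circ.TaskG1.apply_gradM] at h1
  exact h1

/-- The Laplacian of the square of the norm, at the origin of exponential coordinates. -/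
theorem AR8_lap_sq (hm : Curv.IsMetric h) (hE : IsExp h Ex) (p : E) :
    lapC (hp h Ex p) (fun v => bf h p v v) 0 = 2 * (finrank ℝ E : ℝ) := by
  have h1 : ∀ j : Fin (finrank ℝ E), Curv.pd j (fun v => bf h p v v) =
      fun v => 2 * bf h p v (finBasis ℝ E j) := by
    intro j
    funext v
    unfold Curv.pd
    have h2 : HasFDerivAt (fun v => bf h p v v)
        (((bf h p v).comp (ContinuousLinearMap.id ℝ E)) + ((bf h p).flip v)) v := by
      have h3 := ((bf h p).hasFDerivAt (x := v)).clm_apply (hasFDerivAt_id (𝕜 := ℝ) v)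
      exact h3
    rw [h2.fderiv]
    simp only [_root_.add_apply, ContinuousLinearMap.comp_apply,
      ContinuousLinearMap.id_apply, ContinuousLinearMap.flip_apply]
    rw [bf_symm hm p (finBasis ℝ E j) v]
    ring
  have h2 : ∀ i j : Fin (finrank ℝ E),
      Curv.pd i (fun v => 2 * bf h p v (finBasis ℝ E j)) 0 = 2 * h p i j := by
    intro i j
    unfold Curv.pd
    have h3 : HasFDerivAt (fun v => 2 * bf h p v (finBasis ℝ E j))
        ((2 : ℝ) • (bf h p).flip (finBasis ℝ E j)) 0 := by
      have h4 := ((bf h p).flip (finBasis ℝ E j)).hasFDerivAt (x := (0 : E))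
      exact h4.const_mul 2
    rw [h3.fderiv]
    simp only [_root_.smul_apply, ContinuousLinearMap.flip_apply, smul_eq_mul]
    rw [bf_apply]
    unfold Curv.ip
    simp [Finsupp.single_apply]
  have h0 : hp h Ex p 0 = h p := by
    unfold hp
    rw [hE.fderiv_zero, hE.zero]
    have : LinearMap.toMatrix (finBasis ℝ E) (finBasis ℝ E)
        ((ContinuousLinearMap.id ℝ E : E →L[ℝ] E) : E →ₗ[ℝ] E) = 1 := LinearMap.toMatrix_id _
    rw [this, Matrix.transpose_one, Matrix.one_mul, Matrix.mul_one]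
  unfold lapC Curv.covHess
  simp only [h1, h2, h0, map_zero, _root_.zero_apply, mul_zero, Finset.sum_const_zero,
    sub_zero]
  have h3 : ∀ i j, h p i j = h p j i := fun i j => by
    have := (hm.2 p).isHermitian.apply j i
    simpa using this
  have h4 : ∑ i, ∑ j, (h p)⁻¹ i j * (2 * h p i j) = 2 * ((h p)⁻¹ * h p).trace := by
    unfold Matrix.trace
    rw [Finset.mul_sum]
    refine Finset.sum_congr rfl fun i _ => ?_
    rw [Matrix.diag_apply, Matrix.mul_apply, Finset.mul_sum]
    refine Finset.sum_congr rfl fun j _ => ?_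
    rw [h3 i j]
    ring
  rw [h4, Matrix.nonsing_inv_mul _ (hm.2 p).det_pos.ne'.isUnit, Matrix.trace_one,
    Fintype.card_fin]

/-- A smooth function which touches the distance from below has a gradient of norm at most one.
Proof: for a vector `u` and small `t` of any sign `φ (y + t u) - φ y ≤ dh h p (y + t u) - dh h p y ≤
dh h y (y + t u) ≤ |t| (nm h y u + o(1))` (`dh_le_curve` for the segment, `nm_continuous`), so
`|fderiv φ y u| ≤ nm h y u`; take for `u` the gradient `gradM (finBasis ℝ E) (h y) (fderiv φ y)`: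
`fderiv φ y u = gradC h φ φ y = nm h y u ^ 2` (as in `gradC_nm`). -/
theorem gradC_le_one (hm : Curv.IsMetric h) {p y : E} {φ : E → ℝ} (hφ : ContDiffAt ℝ ∞ φ y)
    (hle : ∀ᶠ x in 𝓝 y, φ x ≤ dh h p x) (heq : φ y = dh h p y) : gradC h φ φ y ≤ 1 := by
  have h1 := AR8_fderiv_le hm hφ hle heq (gradM (finBasis ℝ E) (h y) (fderiv ℝ φ y))
  rw [Circ.TaskG1.apply_gradM] at h1
  have h2 := AR8_gradC hm φ y
  have h3 := nm_nonneg h y (gradM (finBasis ℝ E) (h y) (fderiv ℝ φ y))
  rw [← h2] at h1 ⊢
  nlinarith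

/-- `Δ d² ≤ 2 n + (2/3) κ d²` in the viscosity sense, at every point.
Proof: if `y ≠ p`, `φ > 0` near `y` and `√ φ` is smooth, `√ φ ≤ dh h p` near `y` with equality at `y`,
so `lapC h φ = 2 √φ lapC h √φ + 2 gradC h √φ √φ` (`G4.lapC_comp` of Perm/LapRules.lean for the square)
`≤ 2 d ((n - 1) / d + κ d / 3) + 2` by `lap_dist_le` and `gradC_le_one`. If `y = p`: the function
`ψ v = φ (Ex p v)` satisfies `ψ 0 = 0`, `ψ v ≤ (dh h p (Ex p v)) ^ 2 ≤ bf h p v v` near `0`, so
`v ↦ bf h p v v - ψ v` has a local minimum at `0`: by `lapC_nonneg_of_isLocalMin` for `hp h Ex p` (the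
matrix `hp h Ex p 0` is `h p`, `IsExp.fderiv_zero`) and `lapC_pull`
`lapC h φ p = lapC (hp h Ex p) ψ 0 ≤ lapC (hp h Ex p) (fun v => bf h p v v) 0 = 2 n` (at `0` the
first derivative vanishes, so `covHess` is the matrix of the second derivatives `2 h p`, and the
trace of `(h p)⁻¹ (h p)` is `n`). -/
theorem lap_sq_dist_le (hm : Curv.IsMetric h) (hP : Proper h) (hE : IsExp h Ex) {p y : E} {κ : ℝ}
    (hκ : 0 ≤ κ) (hric : ∀ z, dh h p z ≤ dh h p y → RicGeAt h κ z) {φ : E → ℝ}
    (hφ : ContDiffAt ℝ ∞ φ y) (hle : ∀ᶠ x in 𝓝 y, φ x ≤ dh h p x ^ 2)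
    (heq : φ y = dh h p y ^ 2) :
    lapC h φ y ≤ 2 * (finrank ℝ E : ℝ) + 2 / 3 * κ * dh h p y ^ 2 := by
  by_cases hpy : p = y
  · subst hpy
    rw [dh_self hm] at heq ⊢
    have hsm := hE.smooth_at p
    have h0 : Ex p 0 = p := hE.zero p
    have hdet : (fderiv ℝ (Ex p) 0).det ≠ 0 := by
      rw [hE.fderiv_zero]
      have : (ContinuousLinearMap.id ℝ E).det = 1 := LinearMap.det_id
      rw [this]
      exact one_ne_zero
    have hφ' : ContDiffAt ℝ ∞ φ (Ex p 0) := by rwa [h0]
    have hc : ContDiffAt ℝ ∞ (φ ∘ Ex p) 0 := hφ'.comp (0 : E) hsm.contDiffAt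
    have hb : ContDiffAt ℝ ∞ (fun v => bf h p v v) 0 := by
      have h1 : ContDiff ℝ ∞ fun v : E => bf h p v v :=
        (bf h p).contDiff.clm_apply contDiff_id
      exact h1.contDiffAt
    have hmin : IsLocalMin (fun v => bf h p v v + (-1) * (φ ∘ Ex p) v) 0 := by
      have hc' : Tendsto (Ex p) (𝓝 0) (𝓝 p) := by
        have := hsm.continuous.tendsto (0 : E)
        rwa [h0] at this
      filter_upwards [hc'.eventually hle] with v hv
      have h1 := hE.dist_le_one hm p v
      have h2 := nm_sq hm p v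
      have h3 := dh_nonneg hm p (Ex p v)
      have h4 := nm_nonneg h p v
      simp only [Function.comp_apply, map_zero]
      rw [h0, heq, ← h2]
      nlinarith
    have hrm := hp_rm hm hE hdet
    have key := lapC_nonneg_of_isLocalMin (k := hp h Ex p) hrm.self_of_nhds.2
      (hb.add (contDiffAt_const.mul hc)) hmin
    rw [G4.lapC_add _ hb (contDiffAt_const.mul hc), G4.lapC_smul _ hc,
      lapC_pull (h := h) (h' := hp h Ex p) (τ := Ex p) hsm.contDiffAt hdet
        (fun i j => (hm.1 i j).contDiffAt) (Eventually.of_forall fun x i j => ?_)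
        (hm.2 _).det_pos.ne' (Eventually.of_forall fun x => rfl) hφ', AR8_lap_sq hm hE, h0]
      at key
    · linarith
    · have := (hm.2 x).isHermitian.apply j i
      simpa using this
  · have hd : 0 < dh h p y := dh_pos hm hpy
    have hpos : 0 < φ y := by
      rw [heq]
      positivity
    have hψ : ContDiffAt ℝ ∞ (fun x => √ (φ x)) y := hφ.sqrt hpos.ne'
    have hψy : √ (φ y) = dh h p y := by rw [heq, Real.sqrt_sq hd.le]
    have hψle : ∀ᶠ x in 𝓝 y, √ (φ x) ≤ dh h p x := by
      filter_upwards [hle] with x hx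
      exact Real.sqrt_le_iff.2 ⟨dh_nonneg hm p x, hx⟩
    have h1 := lap_dist_le hm hP hE hpy hκ hric hψ hψle hψy
    have h2 := gradC_le_one hm hψ hψle hψy
    have h3 : φ =ᶠ[𝓝 y] fun x => (fun s : ℝ => s ^ 2) (√ (φ x)) := by
      filter_upwards [hφ.continuousAt.eventually (lt_mem_nhds hpos)] with x hx
      exact (Real.sq_sqrt hx.le).symm
    have hsq : ContDiffAt ℝ ∞ (fun s : ℝ => s ^ 2) (√ (φ y)) := contDiffAt_id.pow 2
    rw [g3_lapC_congr h3, G4.lapC_comp h hψ hsq]
    have e1 : deriv (fun s : ℝ => s ^ 2) = fun s => 2 * s := by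
      funext s
      simp
    have e2 : deriv (fun s : ℝ => 2 * s) = fun _ => 2 := by
      funext s
      rw [deriv_const_mul _ differentiableAt_id]
      simp
    rw [e1, e2, hψy]
    have h4 : 2 * dh h p y * lapC h (fun x => √ (φ x)) y ≤
        2 * dh h p y * (((finrank ℝ E : ℝ) - 1) / dh h p y + κ * dh h p y / 3) :=
      mul_le_mul_of_nonneg_left h1 (by positivity)
    have h5 : 2 * dh h p y * (((finrank ℝ E : ℝ) - 1) / dh h p y + κ * dh h p y / 3) =
        2 * ((finrank ℝ E : ℝ) - 1) + 2 / 3 * κ * dh h p y ^ 2 := by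
      field_simp
    simp only
    linarith

end Pool.Agent.Lib.MP_df705a_gt.Pin.A
end
end

section

/-!
# Cutoff functions with bounded gradient
-/

open scoped Manifold ContDiff Topology
open Set Bundle Module Filter MeasureTheory

noncomputable section

namespace Pool.Agent.Lib.MP_df705a_gt.Pin

open Pool.Agent.Lib.MP_df705a_gt.Twist

section

variable {E : Type*} [NormedAddCommGroup E] [NormedSpace ℝ E] [FiniteDimensional ℝ E]
  {h : Curv.Coeff E}

theorem gradC_le_of_dual (hm : Curv.IsMetric h) {f : E → ℝ} {x : E} {B : ℝ} (hB : 0 ≤ B)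
    (hf : ∀ v, |fderiv ℝ f x v| ≤ B * √ (Curv.ip h x v v)) : gradC h f f x ≤ B ^ 2 := by
  have h1 := hf (gradM (finBasis ℝ E) (h x) (fderiv ℝ f x))
  rw [Circ.TaskG1.apply_gradM] at h1
  have h2 := A.AR8_gradC hm f x
  have h3 : A.nm h x (gradM (finBasis ℝ E) (h x) (fderiv ℝ f x)) =
      √ (Curv.ip h x (gradM (finBasis ℝ E) (h x) (fderiv ℝ f x))
        (gradM (finBasis ℝ E) (h x) (fderiv ℝ f x))) := rfl
  rw [← h3] at h1
  have h4 := A.nm_nonneg h x (gradM (finBasis ℝ E) (h x) (fderiv ℝ f x))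
  rw [← h2] at h1 ⊢
  rw [abs_of_nonneg (by positivity)] at h1
  nlinarith

/-- Comparison of the norms at near points. -/
theorem exists_norm_near (hm : Curv.IsMetric h) {K : Set E} (hK : IsCompact K) :
    ∃ δ : ℝ, 0 < δ ∧ ∀ x ∈ K, ∀ y, ‖y - x‖ ≤ δ → ∀ v : E,
      √ (Curv.ip h y v v) ≤ 2 * √ (Curv.ip h x v v) := by
  obtain ⟨a, b, ha, hb, hab⟩ := exists_comparison hm hK
  have hK2 : IsCompact (Metric.cthickening 1 K ×ˢ Metric.closedBall (0 : E) 1) :=
    (hK.cthickening).prod (isCompact_closedBall 0 1)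
  have hc : Continuous fun p : E × E => Curv.ip h p.1 p.2 p.2 :=
    (contDiff_ip hm).continuous.comp
      (continuous_fst.prodMk (continuous_snd.prodMk continuous_snd))
  have hu := hK2.uniformContinuousOn_of_continuous hc.continuousOn
  rw [Metric.uniformContinuousOn_iff_le] at hu
  obtain ⟨δ, hδ, hδ'⟩ := hu (3 * a ^ 2) (by positivity)
  refine ⟨min δ 1, lt_min hδ one_pos, ?_⟩
  intro x hx y hy v
  have hy1 : ‖y - x‖ ≤ δ := hy.trans (min_le_left _ _)
  have hy2 : ‖y - x‖ ≤ 1 := hy.trans (min_le_right _ _)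
  rcases eq_or_ne v 0 with rfl | hv
  · have h0 : ∀ z, Curv.ip h z 0 0 = 0 := by
      intro z
      have := ip_smul_smul h z 0 (0 : E)
      rwa [zero_smul, zero_pow two_ne_zero, zero_mul] at this
    rw [h0, h0]
    simp
  have hn : 0 < ‖v‖ := norm_pos_iff.mpr hv
  obtain ⟨w, hw⟩ : ∃ w : E, w = ‖v‖⁻¹ • v := ⟨_, rfl⟩
  have hwn : ‖w‖ = 1 := by
    rw [hw, norm_smul, norm_inv, norm_norm, inv_mul_cancel₀ hn.ne']
  have hvw : v = ‖v‖ • w := by
    rw [hw, smul_smul, mul_inv_cancel₀ hn.ne', one_smul]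
  have hw1 : w ∈ Metric.closedBall (0 : E) 1 := by simp [hwn]
  have hxK : x ∈ Metric.cthickening 1 K := Metric.self_subset_cthickening K hx
  have hyK : y ∈ Metric.cthickening 1 K := by
    apply Metric.mem_cthickening_of_dist_le y x 1 K hx
    rwa [dist_eq_norm]
  have h1 := hδ' (y, w) ⟨hyK, hw1⟩ (x, w) ⟨hxK, hw1⟩ (by
    rw [Prod.dist_eq, dist_self, dist_eq_norm]
    exact max_le hy1 hδ.le)
  rw [Real.dist_eq] at h1
  have h2 := (abs_le.mp h1).2
  have h3 := (hab x hx w).1
  rw [hwn, mul_one] at h3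
  have h4 : a ^ 2 ≤ Curv.ip h x w w := by
    have h5 := Real.sq_sqrt (ip_nonneg hm x w)
    nlinarith [Real.sqrt_nonneg (Curv.ip h x w w)]
  have h5 : Curv.ip h y w w ≤ 4 * Curv.ip h x w w := by
    have h6 : Curv.ip h y w w - Curv.ip h x w w ≤ 3 * a ^ 2 := h2
    linarith
  have h6 : Curv.ip h y v v ≤ 4 * Curv.ip h x v v := by
    have e1 := ip_smul_smul h y ‖v‖ w
    have e2 := ip_smul_smul h x ‖v‖ w
    rw [← hvw] at e1 e2
    rw [e1, e2]
    nlinarith [sq_nonneg ‖v‖]
  calc √ (Curv.ip h y v v) ≤ √ (4 * Curv.ip h x v v) := Real.sqrt_le_sqrt h6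
    _ = 2 * √ (Curv.ip h x v v) := by
        rw [show (4 : ℝ) = 2 ^ 2 by norm_num, Real.sqrt_mul (by norm_num),
          Real.sqrt_sq (by norm_num)]

/-- The truncated distance. -/
def tdist (h : Curv.Coeff E) (p x : E) : ℝ := min (dh h p x) 5

theorem abs_tdist_le (hm : Curv.IsMetric h) (p a b : E) :
    |tdist h p a - tdist h p b| ≤ dh h a b := by
  have h1 : |tdist h p a - tdist h p b| ≤ |dh h p a - dh h p b| := by
    unfold tdist
    exact (abs_min_sub_min_le_max _ _ _ _).trans (by simp)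
  refine h1.trans ?_
  rw [abs_le]
  have h2 := dh_triangle hm p b a
  have h3 := dh_triangle hm p a b
  rw [dh_comm h b a] at h2
  constructor <;> linarith

/-- The basic estimate: at a small scale the truncated distance does not grow faster than twice the
norm at the centre. -/
theorem exists_tdist_near (hm : Curv.IsMetric h) (hp : Proper h) (p : E) :
    ∃ δ : ℝ, 0 < δ ∧ ∀ x v z : E, ∀ s : ℝ, 0 ≤ s → s * ‖v‖ ≤ δ → ‖z‖ ≤ δ →
      |tdist h p (x + s • v - z) - tdist h p (x - z)| ≤ 2 * √ (Curv.ip h x v v) * s := by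
  set K : Set E := Metric.cthickening 1 {x | dh h p x ≤ 5} with hKdef
  have hK : IsCompact K := (hp p 5).cthickening
  obtain ⟨δ, hδ, hδ'⟩ := exists_norm_near hm hK
  refine ⟨min (δ / 2) (1 / 2), by positivity, ?_⟩
  intro x v z s hs hsv hz
  have hsv1 : s * ‖v‖ ≤ δ / 2 := hsv.trans (min_le_left _ _)
  have hsv2 : s * ‖v‖ ≤ 1 / 2 := hsv.trans (min_le_right _ _)
  have hz1 : ‖z‖ ≤ δ / 2 := hz.trans (min_le_left _ _)
  have hz2 : ‖z‖ ≤ 1 / 2 := hz.trans (min_le_right _ _)
  by_cases hx : x ∈ K
  · refine (abs_tdist_le hm p _ _).trans ?_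
    rw [dh_comm]
    have h1 : dh h (x - z + (0 : ℝ) • v) (x - z + s • v) ≤ 2 * √ (Curv.ip h x v v) * (s - 0) := by
      refine dh_le_curve hm (g := fun t : ℝ => x - z + t • v) (g' := fun _ => v) hs
        (fun t _ => ?_) continuousOn_const fun t ht => ?_
      · have h2 := (((hasDerivAt_id t).smul_const v).const_add (x - z)).hasDerivWithinAt
          (s := Icc 0 s)
        simpa using h2
      · apply hδ' x hx
        have h3 : x - z + t • v - x = t • v - z := by abel
        rw [h3]
        have h4 : ‖t • v‖ ≤ s * ‖v‖ := by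
          rw [norm_smul, Real.norm_of_nonneg ht.1]
          exact mul_le_mul_of_nonneg_right ht.2 (norm_nonneg v)
        have h5 := norm_sub_le (t • v) z
        linarith
    rw [zero_smul, add_zero, sub_zero] at h1
    have h6 : x + s • v - z = x - z + s • v := by abel
    rw [h6]
    exact h1
  · have h1 : ∀ y, ‖x - y‖ ≤ 1 → tdist h p y = 5 := by
      intro y hy
      unfold tdist
      apply min_eq_right
      by_contra hcon
      rw [not_le] at hcon
      apply hx
      apply Metric.mem_cthickening_of_dist_le x y 1 _ (hcon.le : dh h p y ≤ 5)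
      rwa [dist_eq_norm]
    have h2 : ‖s • v‖ = s * ‖v‖ := by rw [norm_smul, Real.norm_of_nonneg hs]
    rw [h1 (x + s • v - z) (by
      have h3 : x - (x + s • v - z) = z - s • v := by abel
      rw [h3]
      have h5 := norm_sub_le z (s • v)
      linarith), h1 (x - z) (by
      have h3 : x - (x - z) = z := by abel
      rw [h3]
      linarith)]
    rw [sub_self, abs_zero]
    positivity

theorem continuous_tdist (hm : Curv.IsMetric h) (p : E) : Continuous (tdist h p) := by
  have h1 : Continuous fun x => dh h p x :=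
    (dh_continuous hm).comp (continuous_const.prodMk continuous_id)
  exact h1.min continuous_const

/-- The smoothed distance. -/
theorem exists_smooth_dist (hm : Curv.IsMetric h) (hp : Proper h) (p : E) :
    ∃ f : E → ℝ, ContDiff ℝ ∞ f ∧ (∀ x, |f x - tdist h p x| ≤ 1 / 4) ∧
      ∀ x v, |fderiv ℝ f x v| ≤ 2 * √ (Curv.ip h x v v) := by
  borelize E
  let μ : Measure E := (finBasis ℝ E).addHaar
  obtain ⟨δ, hδ, hδ'⟩ := exists_tdist_near hm hp p
  -- a uniform bound for the norms on the compact set outside of which nothing happens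
  obtain ⟨a, b, ha, hb, hab⟩ := exists_comparison hm
    ((hp p 5).cthickening (r := 1))
  set r : ℝ := min δ (min (1 / 2) (1 / (8 * b))) with hr
  have hr0 : 0 < r := by positivity
  have hr1 : r ≤ δ := min_le_left _ _
  have hr2 : r ≤ 1 / 2 := (min_le_right _ _).trans (min_le_left _ _)
  have hr3 : r ≤ 1 / (8 * b) := (min_le_right _ _).trans (min_le_right _ _)
  let φ : ContDiffBump (0 : E) := ⟨r / 2, r, by positivity, by linarith⟩
  have hg := continuous_tdist hm p
  have hgl : LocallyIntegrable (tdist h p) μ := hg.locallyIntegrable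
  let f : E → ℝ := MeasureTheory.convolution (φ.normed μ) (tdist h p)
    (ContinuousLinearMap.lsmul ℝ ℝ) μ
  have hf : ContDiff ℝ ∞ f :=
    φ.hasCompactSupport_normed.contDiff_convolution_left _ φ.contDiff_normed hgl
  have hnear : ∀ x z : E, ‖z‖ ≤ r → |tdist h p x - tdist h p (x - z)| ≤ 1 / 4 := by
    intro x z hz
    by_cases hx : x ∈ Metric.cthickening 1 {x | dh h p x ≤ 5}
    · have h1 := hδ' x z z 1 zero_le_one (by rw [one_mul]; exact hz.trans hr1) (hz.trans hr1)
      rw [one_smul, add_sub_cancel_right, mul_one] at h1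
      have h2 := (hab x hx z).2
      have h3 : b * ‖z‖ ≤ 1 / 8 := by
        calc b * ‖z‖ ≤ b * (1 / (8 * b)) := by
              apply mul_le_mul_of_nonneg_left (hz.trans hr3) hb.le
          _ = 1 / 8 := by field_simp
      linarith
    · have h1 : ∀ y, ‖x - y‖ ≤ 1 → tdist h p y = 5 := by
        intro y hy
        unfold tdist
        apply min_eq_right
        by_contra hcon
        rw [not_le] at hcon
        apply hx
        apply Metric.mem_cthickening_of_dist_le x y 1 _ (hcon.le : dh h p y ≤ 5)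
        rwa [dist_eq_norm]
      rw [h1 x (by simp), h1 (x - z) (by
        have h3 : x - (x - z) = z := by abel
        rw [h3]
        linarith)]
      norm_num
  refine ⟨f, hf, ?_, ?_⟩
  · intro x
    have h1 := ContDiffBump.dist_normed_convolution_le (φ := φ) (μ := μ) (g := tdist h p)
      (x₀ := x) (ε := 1 / 4) hg.aestronglyMeasurable (by
        intro y hy
        rw [Real.dist_eq]
        have h2 := hnear x (x - y) (by
          rw [Metric.mem_ball, dist_eq_norm] at hy
          rw [← norm_neg, neg_sub]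
          exact hy.le)
        rw [sub_sub_cancel] at h2
        rwa [abs_sub_comm])
    rwa [Real.dist_eq] at h1
  · intro x v
    have hex : ∀ y, Integrable (fun t => φ.normed μ t * tdist h p (y - t)) μ := by
      intro y
      exact φ.hasCompactSupport_normed.convolutionExists_left (ContinuousLinearMap.lsmul ℝ ℝ)
        φ.continuous_normed hgl y
    have hfx : ∀ y, f y = ∫ t, φ.normed μ t * tdist h p (y - t) ∂μ := fun y => rfl
    have hinc : ∀ s : ℝ, 0 ≤ s → s * ‖v‖ ≤ δ →
        |f (x + s • v) - f x| ≤ 2 * √ (Curv.ip h x v v) * s := by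
      intro s hs hsv
      rw [hfx, hfx, ← integral_sub (hex _) (hex _)]
      have h1 : ‖∫ t, (φ.normed μ t * tdist h p (x + s • v - t) -
          φ.normed μ t * tdist h p (x - t)) ∂μ‖ ≤
          ∫ t, φ.normed μ t * (2 * √ (Curv.ip h x v v) * s) ∂μ := by
        apply norm_integral_le_of_norm_le (φ.integrable_normed.mul_const _)
        refine Eventually.of_forall fun t => ?_
        rw [← mul_sub, norm_mul, Real.norm_of_nonneg (φ.nonneg_normed t)]
        by_cases ht : t ∈ Metric.ball (0 : E) r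
        · apply mul_le_mul_of_nonneg_left _ (φ.nonneg_normed t)
          rw [Metric.mem_ball, dist_zero_right] at ht
          exact hδ' x v t s hs hsv (ht.le.trans hr1)
        · have h2 : φ.normed μ t = 0 := by
            have h3 : t ∉ Function.support (φ.normed μ) := by
              rw [φ.support_normed_eq]
              exact ht
            exact Function.notMem_support.mp h3
          rw [h2, zero_mul, zero_mul]
      rw [integral_mul_const, φ.integral_normed, one_mul] at h1
      exact h1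
    have hd : DifferentiableAt ℝ f x := hf.differentiable (by simp) x
    have hline : HasDerivAt (fun t : ℝ => x + t • v) v 0 := by
      have h1 := ((hasDerivAt_id (0 : ℝ)).smul_const v).const_add x
      simpa using h1
    have hder : HasDerivAt (fun t : ℝ => f (x + t • v)) (fderiv ℝ f x v) 0 := by
      have h1 : HasFDerivAt f (fderiv ℝ f x) (x + (0 : ℝ) • v) := by
        rw [zero_smul, add_zero]
        exact hd.hasFDerivAt
      exact h1.comp_hasDerivAt (0 : ℝ) hline
    have hslope := hder.tendsto_slope_zero_right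
    refine le_of_tendsto hslope.abs ?_
    have hev : ∀ᶠ t : ℝ in 𝓝[>] 0, t ∈ Ioo 0 (δ / (‖v‖ + 1)) := Ioo_mem_nhdsGT (by positivity)
    filter_upwards [hev] with t ht
    rw [zero_add, zero_smul, add_zero, smul_eq_mul, abs_mul, abs_inv, abs_of_pos ht.1,
      inv_mul_le_iff₀ ht.1]
    have h2 : t * ‖v‖ ≤ δ := by
      have h3 : t * (‖v‖ + 1) < δ := by
        rw [← lt_div_iff₀ (by positivity)]
        exact ht.2
      nlinarith [ht.1]
    have h3 := hinc t ht.1.le h2
    linarith

theorem exists_deriv_step : ∃ c : ℝ, 0 ≤ c ∧ ∀ t, |deriv Real.smoothTransition t| ≤ c := by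
  have hc : Continuous (deriv Real.smoothTransition) :=
    (Real.smoothTransition.contDiff (n := ((⊤ : ℕ∞))) ).continuous_deriv (by simp)
  obtain ⟨c, hc'⟩ := isCompact_Icc.exists_bound_of_continuousOn (s := Icc (-1 : ℝ) 2) hc.continuousOn
  refine ⟨max c 0, le_max_right _ _, fun t => ?_⟩
  by_cases ht : t ∈ Icc (-1 : ℝ) 2
  · exact (hc' t ht).trans (le_max_left _ _)
  · have h1 : deriv Real.smoothTransition t = 0 := by
      rw [mem_Icc, not_and_or, not_le, not_le] at ht
      rcases ht with ht | ht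
      · have h2 : Real.smoothTransition =ᶠ[𝓝 t] fun _ => 0 := by
          filter_upwards [eventually_lt_nhds (show t < 0 by linarith)] with s hs
          exact Real.smoothTransition.zero_of_nonpos hs.le
        rw [h2.deriv_eq, deriv_const]
      · have h2 : Real.smoothTransition =ᶠ[𝓝 t] fun _ => 1 := by
          filter_upwards [eventually_gt_nhds (show 1 < t by linarith)] with s hs
          exact Real.smoothTransition.one_of_one_le hs.le
        rw [h2.deriv_eq, deriv_const]
    rw [h1, abs_zero]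
    exact le_max_right _ _

end

/-- Cutoff functions. -/
theorem exists_cutoff_grad (E : Type*) [NormedAddCommGroup E] [NormedSpace ℝ E]
    [FiniteDimensional ℝ E] : ∃ c : ℝ, 0 ≤ c ∧ ∀ h : Curv.Coeff E, Curv.IsMetric h → Proper h →
      ∀ p : E, ∃ ψ : E → ℝ, ContDiff ℝ ∞ ψ ∧ (∀ x, 0 ≤ ψ x) ∧ (∀ x, ψ x ≤ 1) ∧
        (∀ x, dh h p x ≤ 2 → ψ x = 1) ∧ (∀ x, 4 ≤ dh h p x → ψ x = 0) ∧
        ∀ x, gradC h ψ ψ x ≤ c ^ 2 := by
  obtain ⟨c, hc, hc'⟩ := exists_deriv_step
  refine ⟨c * 2, by positivity, ?_⟩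
  intro h hm hp p
  obtain ⟨f, hf, hf1, hf2⟩ := exists_smooth_dist hm hp p
  have hS : ContDiff ℝ ∞ Real.smoothTransition := Real.smoothTransition.contDiff
  refine ⟨fun x => Real.smoothTransition (7 / 2 - f x), hS.comp (contDiff_const.sub hf),
    fun x => Real.smoothTransition.nonneg _, fun x => Real.smoothTransition.le_one _, ?_, ?_, ?_⟩
  · intro x hx
    apply Real.smoothTransition.one_of_one_le
    have h1 := (abs_le.mp (hf1 x)).2
    have h2 : tdist h p x ≤ 2 := (min_le_left _ _).trans hx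
    linarith
  · intro x hx
    apply Real.smoothTransition.zero_of_nonpos
    have h1 := (abs_le.mp (hf1 x)).1
    have h2 : 4 ≤ tdist h p x := le_min hx (by norm_num)
    linarith
  · intro x
    apply gradC_le_of_dual hm (by positivity)
    intro v
    have hd : HasFDerivAt (fun y => 7 / 2 - f y) (-fderiv ℝ f x) x :=
      ((hf.differentiable (by simp) x).hasFDerivAt).const_sub _
    have hs : HasDerivAt Real.smoothTransition (deriv Real.smoothTransition (7 / 2 - f x))
        (7 / 2 - f x) := (hS.differentiable (by simp) _).hasDerivAt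
    have h1 := (hs.comp_hasFDerivAt x hd).fderiv
    have h2 : fderiv ℝ (fun x => Real.smoothTransition (7 / 2 - f x)) x =
        deriv Real.smoothTransition (7 / 2 - f x) • -fderiv ℝ f x := h1
    rw [h2]
    have h3 : (deriv Real.smoothTransition (7 / 2 - f x) • -fderiv ℝ f x) v =
        -(deriv Real.smoothTransition (7 / 2 - f x) * fderiv ℝ f x v) := by
      simp
    rw [h3, abs_neg, abs_mul, mul_assoc]
    exact mul_le_mul (hc' _) (hf2 x v) (abs_nonneg _) hc

end Pool.Agent.Lib.MP_df705a_gt.Pin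
end
end
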