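import Pool.Agent.Lib.MP_df705a_gt.Mg.G007
import Pool.Agent.Lib.MP_df705a_gt.Mg.G009
import Pool.Agent.Lib.MP_df705a_gt.Mg.G014
import Pool.Agent.Lib.MP_df705a_gt.Mg.G013
import Pool.Agent.Lib.MP_df705a_gt.Mg.G011
import Pool.Agent.Lib.MP_df705a_gt.Mg.G071
import Pool.Agent.Lib.MP_df705a_gt.Pin.AG7
import Pool.Agent.Lib.MP_df705a_gt.Mg.G066
import Pool.Agent.Lib.MP_df705a_gt.Mg.G019
import Pool.Agent.Lib.MP_df705a_gt.Mg.G018
import Pool.Agent.Lib.MP_df705a_gt.Mg.G021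
import Pool.Agent.Lib.MP_df705a_gt.Mg.G026
import Pool.Agent.Lib.MP_df705a_gt.Mg.G024
import Pool.Agent.Lib.MP_df705a_gt.Mg.G067
import Pool.Agent.Lib.MP_df705a_gt.Mg.G003

section

/-!
# Spectral pinching, part S1, S1f: approximate resolvent on closed manifolds
-/

open scoped Manifold ContDiff Topology
open Set Bundle Module Filter MeasureTheory

noncomputable section

set_option linter.unusedSectionVars false

namespace Pool.Agent.Lib.MP_df705a_gt.Pin.S1

open Pool.Agent.Lib.MP_df705a_gt.Twist Pool.Agent.Lib.MP_df705a_gt.Perm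
open Pool.Agent.Lib.MP_df705a_gt.Coll

variable {E : Type*} [NormedAddCommGroup E] [NormedSpace ℝ E] [FiniteDimensional ℝ E]
  {M : Type*} [TopologicalSpace M] [ChartedSpace E M] [IsManifold 𝓘(ℝ, E) ∞ M]
  [CompactSpace M] [T2Space M] {g : Met E M}

namespace S1fAux

theorem cint {N : Type*} [TopologicalSpace N] [CompactSpace N] [MeasurableSpace N] [BorelSpace N]
    {σ : Measure N} [IsFiniteMeasure σ] {f : N → ℝ} (hf : Continuous f) : Integrable f σ := by
  obtain ⟨C, hC⟩ : ∃ C, ∀ y, ‖f y‖ ≤ C := by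
    obtain ⟨C, hC⟩ := isCompact_univ.exists_bound_of_continuousOn hf.continuousOn
    exact ⟨C, fun y => hC y (mem_univ y)⟩
  exact Integrable.of_bound hf.measurable.aestronglyMeasurable C (Eventually.of_forall hC)

theorem lap_min {f : M → ℝ} (hf : Sm E f) {x : M} (hx : ∀ y, f x ≤ f y) : 0 ≤ Lap g f x := by
  refine lapC_nonneg_min (k := coeff g x) (f := rd E x f)
    (chartMetric_posDef 𝓘(ℝ, E) (finBasis ℝ E) g x (mem_extChartAt_target x))
    (G4.rd_contDiffAt hf x) (Eventually.of_forall fun y => ?_)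
  have h1 := G4.rd_self (E := E) f x
  rw [h1]
  exact hx _

theorem lap_max {f : M → ℝ} (hf : Sm E f) {x : M} (hx : ∀ y, f y ≤ f x) : Lap g f x ≤ 0 := by
  have h1 := lap_min (g := g) (sm_smul hf (-1)) (x := x) fun y => by
    have := hx y
    linarith
  rw [lap_smul g hf] at h1
  linarith

end S1fAux

/-- Proof: let `μ` be the Riemannian measure (`exists_rvol`, with the Borel structures `borel E`,
`borel M`) and `K` the kernels of `exists_kern`. If there is no such `f`, apply `exists_pair` to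
`V = {f - τ Lap f : f smooth}` (continuous by `Circ.sm_lap`, linear by `lap_add`, `lap_smul`,
`lap_const`), `exists_density`, and `vanish`: `∫ G s dσ = 0`, a contradiction. -/
theorem exists_resolvent (hd : 0 < finrank ℝ E) [Nonempty M] {G : M → ℝ} (hG : Continuous G)
    {τ ε : ℝ} (hτ : 0 < τ) (hε : 0 < ε) :
    ∃ f : M → ℝ, Sm E f ∧ ∀ x, |f x - τ * Lap g f x - G x| ≤ ε := by
  borelize E
  borelize M
  obtain ⟨μ, hμ⟩ := exists_rvol g
  obtain ⟨K, hK⟩ := exists_kern hd hμ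
  by_contra hno
  push Not at hno
  have hLc : ∀ {f : M → ℝ}, Sm E f → Continuous (Lap g f) := fun hf =>
    (Circ.sm_lap g hf).continuous
  have hVc : ∀ {f : M → ℝ}, Sm E f → Continuous fun x => f x - τ * Lap g f x := fun hf =>
    hf.continuous.sub ((hLc hf).const_mul τ)
  obtain ⟨μ₁, μ₂, hf1, hf2, hV, hlt⟩ := exists_pair
    (V := {v : M → ℝ | ∃ f : M → ℝ, Sm E f ∧ ∀ x, v x = f x - τ * Lap g f x}) (by
      rintro v ⟨f, hf, hv⟩
      have : v = fun x => f x - τ * Lap g f x := funext hv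
      rw [this]
      exact hVc hf) (by
      refine ⟨fun _ => 0, sm_const 0, fun x => ?_⟩
      have h1 := lap_const g (0 : ℝ) x
      rw [h1]
      ring) (by
      rintro v ⟨f, hf, hv⟩ w ⟨f', hf', hw⟩
      refine ⟨fun x => f x + f' x, sm_add hf hf', fun x => ?_⟩
      show v x + w x = (f x + f' x) - τ * Lap g (fun x => f x + f' x) x
      rw [hv, hw, lap_add g hf hf']
      ring) (by
      rintro v ⟨f, hf, hv⟩ t
      refine ⟨fun x => t * f x, sm_smul hf t, fun x => ?_⟩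
      show t * v x = t * f x - τ * Lap g (fun x => t * f x) x
      rw [hv, lap_smul g hf]
      ring) hG hε (by
      rintro v ⟨f, hf, hv⟩
      obtain ⟨x, hx⟩ := hno f hf
      refine ⟨x, ?_⟩
      rw [hv]
      exact hx)
  obtain ⟨σ, s, hσ, hs, hs1, hd'⟩ := exists_density μ₁ μ₂
  have hw : ∀ f : M → ℝ, Sm E f → ∫ x, (f x - τ * Lap g f x) * s x ∂σ = 0 := by
    intro f hf
    have h1 := (hd' (fun x => f x - τ * Lap g f x) (S1fAux.cint (hVc hf))
      (S1fAux.cint (hVc hf))).2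
    rw [h1, hV _ ⟨f, hf, fun x => rfl⟩, sub_self]
  have hv := vanish hμ hK hs hs1 hτ hw
  have h1 := (hd' G (S1fAux.cint hG) (S1fAux.cint hG)).2
  have h2 : ∫ x, G x * s x ∂σ = 0 := by
    have h3 : (fun x => G x * s x) =ᵐ[σ] fun _ => (0 : ℝ) := by
      filter_upwards [hv] with x hx
      rw [hx, mul_zero]
    rw [integral_congr_ae h3, integral_zero]
  rw [h2] at h1
  linarith

/-- Proof: at a maximum `x` of `f` the Laplacian is `≤ 0` (`lapC_nonneg_min` for `-f` in the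
preferred chart, `lap_smul`), so `f x ≤ f x - τ Lap f x ≤ G x + ε ≤ 1 + ε`; and in the same way at a
minimum. -/
theorem resolvent_bound [Nonempty M] {G f : M → ℝ} (hf : Sm E f) (hG1 : ∀ x, |G x| ≤ 1)
    {τ ε : ℝ} (hτ : 0 < τ) (h : ∀ x, |f x - τ * Lap g f x - G x| ≤ ε) (x : M) :
    |f x| ≤ 1 + ε := by
  obtain ⟨x₁, -, h1⟩ := isCompact_univ.exists_isMaxOn ⟨x, mem_univ x⟩ hf.continuous.continuousOn
  obtain ⟨x₂, -, h2⟩ := isCompact_univ.exists_isMinOn ⟨x, mem_univ x⟩ hf.continuous.continuousOn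
  have h3 : ∀ y, f y ≤ f x₁ := fun y => h1 (mem_univ y)
  have h4 : ∀ y, f x₂ ≤ f y := fun y => h2 (mem_univ y)
  have h5 := S1fAux.lap_max (g := g) hf h3
  have h6 := S1fAux.lap_min (g := g) hf h4
  have h7 := (abs_le.1 (h x₁)).2
  have h8 := (abs_le.1 (h x₂)).1
  have h9 := (abs_le.1 (hG1 x₁)).2
  have h10 := (abs_le.1 (hG1 x₂)).1
  have h11 := mul_nonpos_of_nonneg_of_nonpos hτ.le h5
  have h12 := mul_nonneg hτ.le h6
  rw [abs_le]
  have h13 := h3 x
  have h14 := h4 x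
  constructor <;> linarith

end Pool.Agent.Lib.MP_df705a_gt.Pin.S1
end
end

section

/-!
# Spectral pinching, part S1: approximate solutions of `f - τ Δ f = G`
-/

open scoped Manifold ContDiff Topology
open Set Bundle Module Filter MeasureTheory

noncomputable section

set_option linter.unusedSectionVars false

namespace Pool.Agent.Lib.MP_df705a_gt.Pin

open Pool.Agent.Lib.MP_df705a_gt.Twist Pool.Agent.Lib.MP_df705a_gt.Perm
open Pool.Agent.Lib.MP_df705a_gt.Coll (Met)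

namespace S1

/-- Dimension `0`: the Laplacian is `0` and `G` is constant, `f = G`. -/
theorem resolvent_zero {n : ℕ} (hn : n = 0) (h : Curv.Coeff (EuclideanSpace ℝ (Fin n)))
    {G : EuclideanSpace ℝ (Fin n) → ℝ} (hG1 : ∀ x, |G x| ≤ 1) {τ ε : ℝ} (hε : 0 < ε) :
    ∃ f : EuclideanSpace ℝ (Fin n) → ℝ, ContDiff ℝ ∞ f ∧
      ∀ x, |f x - τ * lapC h f x - G x| ≤ ε ∧ |f x| ≤ 1 + ε := by
  subst hn
  refine ⟨fun _ => G 0, contDiff_const, fun x => ?_⟩
  have h1 : x = 0 := Subsingleton.elim _ _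
  have h2 : IsEmpty (Fin (finrank ℝ (EuclideanSpace ℝ (Fin 0)))) := by
    rw [finrank_euclideanSpace_fin]
    infer_instance
  have h3 : lapC h (fun _ => G 0) x = 0 := by
    unfold lapC
    exact Finset.sum_of_isEmpty _
  rw [h3, h1]
  constructor
  · simpa using hε.le
  · have := hG1 0
    simp only
    linarith

/-- Proof: `φ = extChartAt z`, `ψ = φ.symm` (smooth on the target `univ`); `C = ψ '' K` is compact in
the open set `φ.source`; `χ, V` from `exists_cut`; `g` from `exists_glue`; for `x ∈ K` the set `ψ⁻¹(V)`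
is a neighbourhood of `x` on which `coeff g z = h`. Let `G' p = χ p * G (φ p)`: continuous on `M`
(on the open set `φ.source` it is a product of continuous functions, on the open complement of
`tsupport χ` it is `0`), `|G'| ≤ 1`, `G' (ψ x) = G x` for `x ∈ K`. Take `f₀` from `exists_resolvent` for
`G'` and `f = f₀ ∘ ψ = rd E z f₀`: smooth on `univ` (`g3_rd_smooth`), and for `x ∈ K`
`lapC h f x = lapC (coeff g z) f x = Lap g f₀ (ψ x)` (`lapC_congr_metric`, `lap_chart`);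
`|f x| ≤ 1 + ε` by `resolvent_bound`. -/
theorem resolvent_of_chart {E : Type*} [NormedAddCommGroup E] [NormedSpace ℝ E]
    [FiniteDimensional ℝ E] (hd : 0 < finrank ℝ E) {M : Type*} [TopologicalSpace M]
    [ChartedSpace E M] [IsManifold 𝓘(ℝ, E) ∞ M] [CompactSpace M] [T2Space M] (z : M)
    (hz : (extChartAt 𝓘(ℝ, E) z).target = univ) {h : Curv.Coeff E} (hh : Curv.IsMetric h)
    {K : Set E} (hK : IsCompact K) {G : E → ℝ} (hG : Continuous G) (hG1 : ∀ x, |G x| ≤ 1)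
    {τ ε : ℝ} (hτ : 0 < τ) (hε : 0 < ε) :
    ∃ f : E → ℝ, ContDiff ℝ ∞ f ∧
      ∀ x ∈ K, |f x - τ * lapC h f x - G x| ≤ ε ∧ |f x| ≤ 1 + ε := by
  have : Nonempty M := ⟨z⟩
  have hψc : Continuous (extChartAt 𝓘(ℝ, E) z).symm := by
    have h1 := continuousOn_extChartAt_symm (I := 𝓘(ℝ, E)) z
    rw [hz] at h1
    exact continuousOn_univ.1 h1
  have hC : IsClosed ((extChartAt 𝓘(ℝ, E) z).symm '' K) := (hK.image hψc).isClosed
  have hU : IsOpen (extChartAt 𝓘(ℝ, E) z).source := isOpen_extChartAt_source z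
  have hCU : (extChartAt 𝓘(ℝ, E) z).symm '' K ⊆ (extChartAt 𝓘(ℝ, E) z).source := by
    rintro _ ⟨x, -, rfl⟩
    exact (extChartAt 𝓘(ℝ, E) z).map_target (by rw [hz]; exact mem_univ _)
  obtain ⟨χ, hχ, hχ0, hχ1, hχs, V, hV, hCV, hV1⟩ := exists_cut (E := E) hC hU hCU
  obtain ⟨g, hg⟩ := exists_glue hh z hχ hχ0 hχ1 hχs
  set G' : M → ℝ := fun p => χ p * G (extChartAt 𝓘(ℝ, E) z p) with hG'
  have hG'c : Continuous G' := by
    rw [continuous_iff_continuousAt]
    intro p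
    by_cases hp : p ∈ (extChartAt 𝓘(ℝ, E) z).source
    · exact (hχ.continuous.continuousAt).mul (hG.continuousAt.comp
        (continuousAt_extChartAt' hp))
    · have h1 : p ∈ (tsupport χ)ᶜ := fun h => hp (hχs h)
      have h2 : G' =ᶠ[𝓝 p] fun _ => 0 := by
        filter_upwards [(isClosed_tsupport χ).isOpen_compl.mem_nhds h1] with q hq
        simp only [hG']
        rw [image_eq_zero_of_notMem_tsupport hq, zero_mul]
      exact continuousAt_const.congr h2.symm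
  have hG'1 : ∀ p, |G' p| ≤ 1 := by
    intro p
    simp only [hG', abs_mul, abs_of_nonneg (hχ0 p)]
    have h1 := hG1 (extChartAt 𝓘(ℝ, E) z p)
    have h2 := abs_nonneg (G (extChartAt 𝓘(ℝ, E) z p))
    nlinarith [hχ0 p, hχ1 p]
  obtain ⟨f₀, hf₀, hf₁⟩ := exists_resolvent (g := g) hd hG'c hτ hε
  have hf₂ := resolvent_bound (g := g) hf₀ hG'1 hτ hf₁
  refine ⟨rd E z f₀, ?_, ?_⟩
  · rw [contDiff_iff_contDiffAt]
    intro y
    exact g3_rd_smooth hf₀ z (by rw [hz]; exact mem_univ _)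
  · intro x hx
    have hxt : x ∈ (extChartAt 𝓘(ℝ, E) z).target := by rw [hz]; exact mem_univ _
    have h1 : (extChartAt 𝓘(ℝ, E) z).symm x ∈ V := hCV ⟨x, hx, rfl⟩
    have h2 : h =ᶠ[𝓝 x] coeff g z := by
      filter_upwards [(hV.preimage hψc).mem_nhds h1] with y hy
      exact (hg y (by rw [hz]; exact mem_univ _) (hV1 _ hy)).symm
    have h3 : lapC h (rd E z f₀) x = Lap g f₀ ((extChartAt 𝓘(ℝ, E) z).symm x) := by
      rw [lapC_congr_metric h2, lap_chart g hf₀ z hxt]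
    have h4 : G' ((extChartAt 𝓘(ℝ, E) z).symm x) = G x := by
      simp only [hG']
      rw [hV1 _ h1, one_mul, (extChartAt 𝓘(ℝ, E) z).right_inv hxt]
    have h5 := hf₁ ((extChartAt 𝓘(ℝ, E) z).symm x)
    rw [h4] at h5
    rw [h3]
    exact ⟨h5, hf₂ _⟩

end S1

/-- (S1) approximate solutions of `f - τ Δ f = G`. -/
theorem S1_resolvent (n : ℕ) {h : Curv.Coeff (EuclideanSpace ℝ (Fin n))} (hh : Curv.IsMetric h)
    {K : Set (EuclideanSpace ℝ (Fin n))} (hK : IsCompact K) {G : EuclideanSpace ℝ (Fin n) → ℝ}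
    (hG : Continuous G) (hG1 : ∀ x, |G x| ≤ 1) {τ ε : ℝ} (hτ : 0 < τ) (hε : 0 < ε) :
    ∃ f : EuclideanSpace ℝ (Fin n) → ℝ, ContDiff ℝ ∞ f ∧
      ∀ x ∈ K, |f x - τ * lapC h f x - G x| ≤ ε ∧ |f x| ≤ 1 + ε := by
  rcases Nat.eq_zero_or_pos n with hn | hn
  · obtain ⟨f, hf, h1⟩ := S1.resolvent_zero hn h hG1 (τ := τ) hε
    exact ⟨f, hf, fun x _ => h1 x⟩
  · obtain ⟨M, _, _, _, _, _, z, hz⟩ := S1.exists_sphere n
    exact S1.resolvent_of_chart (by rw [finrank_euclideanSpace_fin]; exact hn) z hz hh hK hG hG1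
      hτ hε

end Pool.Agent.Lib.MP_df705a_gt.Pin
end
end

section

/-!
# Spectral Ricci pinching, S2F: approximate resolvents are near Lipschitz functions
-/

open scoped Manifold ContDiff Topology
open Set Bundle Module Filter MeasureTheory

noncomputable section

set_option linter.unusedSectionVars false

namespace Pool.Agent.Lib.MP_df705a_gt.Pin

open Pool.Agent.Lib.MP_df705a_gt.Twist Pool.Agent.Lib.MP_df705a_gt.Perm
open Pool.Agent.Lib.MP_df705a_gt.Pin.A (IsExp lap_sq_dist_le)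

variable {E : Type*} [NormedAddCommGroup E] [NormedSpace ℝ E] [FiniteDimensional ℝ E]
  {h : Curv.Coeff E} {Ex : E → E → E}

theorem S2F_deriv (m τ t : ℝ) : HasDerivAt (fun t : ℝ => ((t - m) / 4) ^ 2 - τ) ((t - m) / 8) t := by
  have h1 : HasDerivAt (fun t : ℝ => (t - m) / 4) (1 / 4) t :=
    ((hasDerivAt_id t).sub_const m).div_const 4
  have h2 := (h1.pow 2).sub_const τ
  refine h2.congr_deriv ?_
  norm_num
  ring

theorem S2F_deriv2 (m τ t : ℝ) :
    deriv (deriv fun t : ℝ => ((t - m) / 4) ^ 2 - τ) t = 1 / 8 := by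
  have h1 : (deriv fun t : ℝ => ((t - m) / 4) ^ 2 - τ) = fun t => (t - m) / 8 := by
    funext t
    exact (S2F_deriv m τ t).deriv
  rw [h1]
  exact (((hasDerivAt_id t).sub_const m).div_const 8).deriv

/-- PROOF. Let `φ₁ = (f - m) / 4` with `m = f x - 4 * √ (dh h y x ^ 2 + τ)`, so `φ₁ x = √ (...) > 0`, and
`φ₁ z ≤ √ (dh h y z ^ 2 + τ)` near `x`, `φ₁ > 0` near `x`. `φ = φ₁ ^ 2 - τ` satisfies `φ z ≤ dh h y z ^ 2`
near `x` with equality at `x`, so `lapC h φ x ≤ 2 n + 24` by `lap_sq_dist_le` with `κ = 1` (`dh h y x ≤ 6`).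
`lapC h φ x = 2 * φ₁ x * lapC h φ₁ x + 2 * gradC h φ₁ φ₁ x` (`lapC_comp` for `t ↦ t ^ 2`, `lapC_add`, and
`lapC_const`) `≥ 2 * φ₁ x * lapC h φ₁ x` (`gradC_nonneg`), and `lapC h φ₁ x = lapC h f x / 4` (`lapC_add`,
`lapC_smul`, `lapC_const`). So `lapC h f x * φ₁ x ≤ 2 * (2 n + 24)`, and `φ₁ x ≥ √ τ`. -/
theorem lap_touch_le (hm : Curv.IsMetric h) (hP : Proper h) (hE : IsExp h Ex) {x y : E} {τ : ℝ}
    (hτ : 0 < τ) (hxy : dh h y x ≤ 6) (hric : ∀ z, dh h y z ≤ 6 → RicGeAt h 1 z) {f : E → ℝ}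
    (hf : ContDiff ℝ ∞ f)
    (hmax : ∀ᶠ z in 𝓝 x, f z - 4 * √ (dh h y z ^ 2 + τ) ≤ f x - 4 * √ (dh h y x ^ 2 + τ)) :
    lapC h f x * √ τ ≤ 2 * (2 * (finrank ℝ E : ℝ) + 24) := by
  set D : ℝ := √ (dh h y x ^ 2 + τ) with hD
  set m : ℝ := f x - 4 * D with hm'
  have hd0 : 0 ≤ dh h y x := Pin.A.dh_nonneg hm y x
  have hDτ : √ τ ≤ D := Real.sqrt_le_sqrt (by nlinarith)
  have hτ0 : 0 < √ τ := Real.sqrt_pos.2 hτ
  have hD0 : 0 < D := hτ0.trans_le hDτ
  have hDsq : D ^ 2 = dh h y x ^ 2 + τ := Real.sq_sqrt (by positivity)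
  have hfx : (f x - m) / 4 = D := by rw [hm']; ring
  have hφ : ContDiff ℝ ∞ fun z => ((f z - m) / 4) ^ 2 - τ :=
    ((((hf.sub contDiff_const).div_const 4).pow 2).sub contDiff_const)
  have hpos : ∀ᶠ z in 𝓝 x, 0 < (f z - m) / 4 := by
    have hc : ContinuousAt (fun z => (f z - m) / 4) x :=
      ((hf.continuous.sub continuous_const).div_const 4).continuousAt
    have h0 : 0 < (f x - m) / 4 := by rw [hfx]; exact hD0
    exact hc.eventually (lt_mem_nhds h0)
  have hle : ∀ᶠ z in 𝓝 x, ((f z - m) / 4) ^ 2 - τ ≤ dh h y z ^ 2 := by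
    filter_upwards [hmax, hpos] with z hz hz'
    have h1 : (f z - m) / 4 ≤ √ (dh h y z ^ 2 + τ) := by
      have : f z - 4 * √ (dh h y z ^ 2 + τ) ≤ m := hz
      linarith
    have h2 : √ (dh h y z ^ 2 + τ) ^ 2 = dh h y z ^ 2 + τ := Real.sq_sqrt (by positivity)
    nlinarith
  have heq : ((f x - m) / 4) ^ 2 - τ = dh h y x ^ 2 := by
    rw [hfx, hDsq]
    ring
  have h1 := lap_sq_dist_le hm hP hE (p := y) (y := x) (κ := 1) zero_le_one
    (fun z hz => hric z (hz.trans hxy)) hφ.contDiffAt hle heq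
  have h2 := G4.lapC_comp h (u := f) (y := x) (φ := fun t => ((t - m) / 4) ^ 2 - τ) hf.contDiffAt
    (by fun_prop)
  rw [h2, (S2F_deriv m τ (f x)).deriv, S2F_deriv2] at h1
  have h3 : 0 ≤ gradC h f f x := G4.gradC_nonneg (hm.2 x)
  have h4 : (f x - m) / 8 = D / 2 := by linarith
  rw [h4] at h1
  have h5 : dh h y x ^ 2 ≤ 36 := by nlinarith
  have h6 : lapC h f x * D ≤ 2 * (2 * (finrank ℝ E : ℝ) + 24) := by nlinarith
  rcases le_or_gt 0 (lapC h f x) with h7 | h7
  · exact (mul_le_mul_of_nonneg_left hDτ h7).trans h6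
  · have : lapC h f x * √ τ < 0 := mul_neg_of_neg_of_pos h7 hτ0
    have h8 : (0 : ℝ) ≤ (finrank ℝ E : ℝ) := Nat.cast_nonneg _
    linarith

/-- PROOF. `F z = f z - 4 * √ (dh h y z ^ 2 + τ)` is continuous (`A.dh_continuous`) and has a maximum point `x`
on the compact set `{z | dh h y z ≤ 6}` (it contains `y`). `F x ≥ F y = f y - 4 * √ τ ≥ -2 - 4 * √ τ ≥ -6`.
If `dh h y x = 6` then `F x ≤ 2 - 4 * 6 < -6`: contradiction; so `dh h y x < 6`, and the maximum is local.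
`lap_touch_le`: `τ * lapC h f x ≤ 2 * (2 n + 24) * √ τ`. So `f x ≤ g x + ε + 2 * (2 n + 24) * √ τ`,
`g x ≤ g y + 4 * dh h y x ≤ g y + 4 * √ (dh h y x ^ 2 + τ)`, and `f y ≤ F x + 4 * √ τ`. -/
theorem resolvent_le (hm : Curv.IsMetric h) (hP : Proper h) (hE : IsExp h Ex) {y : E} {τ ε : ℝ}
    (hτ : 0 < τ) (hτ1 : τ ≤ 1) (hε1 : ε ≤ 1) (hric : ∀ z, dh h y z ≤ 6 → RicGeAt h 1 z)
    {f g : E → ℝ} (hf : ContDiff ℝ ∞ f) (hg : ∀ z z', |g z - g z'| ≤ 4 * dh h z z')
    (hfg : ∀ z, dh h y z ≤ 6 → |f z - τ * lapC h f z - g z| ≤ ε ∧ |f z| ≤ 1 + ε) :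
    f y ≤ g y + ε + (4 + 2 * (2 * (finrank ℝ E : ℝ) + 24)) * √ τ := by
  have hdc : Continuous fun z => dh h y z :=
    (Pin.A.dh_continuous hm).comp (continuous_const.prodMk continuous_id)
  have hFc : Continuous fun z => f z - 4 * √ (dh h y z ^ 2 + τ) :=
    hf.continuous.sub (continuous_const.mul ((hdc.pow 2).add continuous_const).sqrt)
  have hyy : dh h y y = 0 := Pin.A.dh_self hm y
  have hyK : y ∈ {z | dh h y z ≤ 6} := by
    show dh h y y ≤ 6
    rw [hyy]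
    norm_num
  obtain ⟨x, hxK, hx⟩ := (hP y 6).exists_isMaxOn ⟨y, hyK⟩ hFc.continuousOn
  have hx' : ∀ z, dh h y z ≤ 6 →
      f z - 4 * √ (dh h y z ^ 2 + τ) ≤ f x - 4 * √ (dh h y x ^ 2 + τ) := fun z hz => hx hz
  have hxK' : dh h y x ≤ 6 := hxK
  have hd0 : 0 ≤ dh h y x := Pin.A.dh_nonneg hm y x
  have hτs : √ τ ≤ 1 := Real.sqrt_le_one.2 hτ1
  have hτ0 : 0 < √ τ := Real.sqrt_pos.2 hτ
  have hFy := hx' y hyK
  rw [hyy, zero_pow two_ne_zero, zero_add] at hFy
  have hDx : dh h y x ≤ √ (dh h y x ^ 2 + τ) := by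
    refine Real.le_sqrt_of_sq_le ?_
    linarith
  have hfy := abs_le.1 (hfg y hyK).2
  have hfx := abs_le.1 (hfg x hxK').2
  have hlt : dh h y x < 6 := by
    by_contra hcon
    push Not at hcon
    linarith [hfy.1, hfx.2]
  have hmax : ∀ᶠ z in 𝓝 x, f z - 4 * √ (dh h y z ^ 2 + τ) ≤
      f x - 4 * √ (dh h y x ^ 2 + τ) := by
    have h1 : ∀ᶠ z in 𝓝 x, dh h y z < 6 := hdc.continuousAt.eventually (gt_mem_nhds hlt)
    filter_upwards [h1] with z hz
    exact hx' z hz.le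
  have h2 := lap_touch_le hm hP hE hτ hxK' hric hf hmax
  have h3 : τ * lapC h f x ≤ 2 * (2 * (finrank ℝ E : ℝ) + 24) * √ τ := by
    have h4 : √ τ * √ τ = τ := Real.mul_self_sqrt hτ.le
    calc τ * lapC h f x = (lapC h f x * √ τ) * √ τ := by rw [mul_assoc, h4]; ring
      _ ≤ 2 * (2 * (finrank ℝ E : ℝ) + 24) * √ τ := mul_le_mul_of_nonneg_right h2 hτ0.le
  have h5 := abs_le.1 (hfg x hxK').1
  have h6 := abs_le.1 (hg x y)
  rw [Pin.A.dh_comm hm x y] at h6
  nlinarith [h5.2, h6.2]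

/-- PROOF: `resolvent_le` for `f`, `g` and for `-f`, `-g` (`lapC_smul` with `-1`). -/
theorem resolvent_near (hm : Curv.IsMetric h) (hP : Proper h) (hE : IsExp h Ex) {y : E} {τ ε : ℝ}
    (hτ : 0 < τ) (hτ1 : τ ≤ 1) (hε1 : ε ≤ 1) (hric : ∀ z, dh h y z ≤ 6 → RicGeAt h 1 z)
    {f g : E → ℝ} (hf : ContDiff ℝ ∞ f) (hg : ∀ z z', |g z - g z'| ≤ 4 * dh h z z')
    (hfg : ∀ z, dh h y z ≤ 6 → |f z - τ * lapC h f z - g z| ≤ ε ∧ |f z| ≤ 1 + ε) :
    |f y - g y| ≤ ε + (4 + 2 * (2 * (finrank ℝ E : ℝ) + 24)) * √ τ := by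
  have h1 := resolvent_le hm hP hE hτ hτ1 hε1 hric hf hg hfg
  have h2 := resolvent_le hm hP hE hτ hτ1 hε1 hric (f := fun z => -1 * f z)
    (g := fun z => -g z) (contDiff_const.mul hf)
    (fun z z' => by
      have := hg z z'
      rw [show -g z - -g z' = -(g z - g z') by ring, abs_neg]
      exact this)
    (fun z hz => by
      obtain ⟨h3, h4⟩ := hfg z hz
      rw [G4.lapC_smul h hf.contDiffAt]
      refine ⟨?_, ?_⟩
      · rw [show -1 * f z - τ * (-1 * lapC h f z) - -g z = -(f z - τ * lapC h f z - g z) by ring,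
          abs_neg]
        exact h3
      · rw [show -1 * f z = -(f z) by ring, abs_neg]
        exact h4)
  rw [abs_le]
  constructor <;> linarith

end Pool.Agent.Lib.MP_df705a_gt.Pin
end
end

section

/-!
# Spectral Ricci pinching, S2: smooth functions with bounded Laplacian separating concentric balls
-/

open scoped Manifold ContDiff Topology
open Set Bundle Module Filter MeasureTheory

noncomputable section

set_option linter.unusedSectionVars false

namespace Pool.Agent.Lib.MP_df705a_gt.Pin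

open Pool.Agent.Lib.MP_df705a_gt.Twist
open Pool.Agent.Lib.MP_df705a_gt.Pin.A (exists_exp)

/-- The Lipschitz model function. PROOF: `g x = max 0 (min 1 (4 * (7 / 8 - dh h p x)))`. -/
theorem exists_model {E : Type*} [NormedAddCommGroup E] [NormedSpace ℝ E] [FiniteDimensional ℝ E]
    {h : Curv.Coeff E} (hm : Curv.IsMetric h) (p : E) : ∃ g : E → ℝ, Continuous g ∧
      (∀ x, 0 ≤ g x ∧ g x ≤ 1) ∧ (∀ x y, |g x - g y| ≤ 4 * dh h x y) ∧
      (∀ x, dh h p x ≤ 1 / 2 → g x = 1) ∧ ∀ x, 7 / 8 ≤ dh h p x → g x = 0 := by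
  have hdc : Continuous fun z => dh h p z :=
    (Pin.A.dh_continuous hm).comp (continuous_const.prodMk continuous_id)
  refine ⟨fun x => max 0 (min 1 (4 * (7 / 8 - dh h p x))), ?_, fun x => ⟨le_max_left _ _,
    max_le zero_le_one (min_le_left _ _)⟩, fun x y => ?_, fun x hx => ?_, fun x hx => ?_⟩
  · exact continuous_const.max (continuous_const.min (continuous_const.mul
      (continuous_const.sub hdc)))
  · have h1 : |dh h p x - dh h p y| ≤ dh h x y := by
      have h2 := Pin.A.dh_triangle hm p x y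
      have h3 := Pin.A.dh_triangle hm p y x
      rw [Pin.A.dh_comm hm y x] at h3
      rw [abs_le]
      constructor <;> linarith
    have h4 : |max 0 (min 1 (4 * (7 / 8 - dh h p x))) - max 0 (min 1 (4 * (7 / 8 - dh h p y)))| ≤
        |4 * (7 / 8 - dh h p x) - 4 * (7 / 8 - dh h p y)| := by
      refine (abs_max_sub_max_le_max _ _ _ _).trans ?_
      rw [sub_self, abs_zero]
      refine max_le (abs_nonneg _) ?_
      refine (abs_min_sub_min_le_max _ _ _ _).trans ?_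
      rw [sub_self, abs_zero]
      exact max_le (abs_nonneg _) le_rfl
    refine h4.trans ?_
    rw [show 4 * (7 / 8 - dh h p x) - 4 * (7 / 8 - dh h p y) = -(4 * (dh h p x - dh h p y)) by ring,
      abs_neg, abs_mul, abs_of_pos (by norm_num : (0 : ℝ) < 4)]
    linarith
  · show max 0 (min 1 (4 * (7 / 8 - dh h p x))) = 1
    rw [min_eq_left (by linarith), max_eq_right zero_le_one]
  · show max 0 (min 1 (4 * (7 / 8 - dh h p x))) = 0
    exact max_eq_left ((min_le_right _ _).trans (by linarith))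

/-- The case `σ = 1`. PROOF. Let `B = 4 + 2 * (2 n + 24)`, `τ = (1 / (16 * B)) ^ 2 ≤ 1`, `ε = 1 / 16`,
`K = 3 / τ`. `g` from `exists_model`, `f` from `S1_resolvent` for the compact set
`{y | dh h p y ≤ 10}` (`hP`). On it `|f| ≤ 17 / 16 ≤ 2` and `τ * |lapC h f| ≤ |f| + |g| + ε ≤ 3`. If
`dh h p y ≤ 2` then `resolvent_near` applies at `y` (the ball of radius `6` about `y` is in the ball of radius
`8` about `p`; `Ex` from `exists_exp`): `|f y - g y| ≤ 1 / 16 + B * √ τ = 1 / 8`. -/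
theorem bump_one (n : ℕ) : ∃ K : ℝ, 0 < K ∧ ∀ h : Curv.Coeff (EuclideanSpace ℝ (Fin n)),
    Curv.IsMetric h → Proper h → ∀ p : EuclideanSpace ℝ (Fin n),
      (∀ y, dh h p y ≤ 10 → RicGeAt h 1 y) →
      ∃ f : EuclideanSpace ℝ (Fin n) → ℝ, ContDiff ℝ ∞ f ∧
        (∀ y, dh h p y ≤ 10 → |f y| ≤ 2 ∧ |lapC h f y| ≤ K) ∧
        (∀ y, dh h p y ≤ 1 / 2 → 3 / 4 < f y) ∧
        ∀ y, 7 / 8 ≤ dh h p y → dh h p y ≤ 2 → f y < 1 / 4 := by
  set B : ℝ := 4 + 2 * (2 * (finrank ℝ (EuclideanSpace ℝ (Fin n)) : ℝ) + 24) with hB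
  have hn : (0 : ℝ) ≤ (finrank ℝ (EuclideanSpace ℝ (Fin n)) : ℝ) := Nat.cast_nonneg _
  have hB0 : 1 ≤ B := by rw [hB]; linarith
  have hBp : 0 < B := by linarith
  set τ : ℝ := (1 / (16 * B)) ^ 2 with hτd
  have hτ : 0 < τ := by positivity
  have h16 : 1 / (16 * B) ≤ 1 := by
    rw [div_le_one (by positivity)]
    linarith
  have hτ1 : τ ≤ 1 := pow_le_one₀ (by positivity) h16
  have hτs : √ τ = 1 / (16 * B) := Real.sqrt_sq (by positivity)
  refine ⟨3 / τ, by positivity, fun h hm hP p hric => ?_⟩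
  obtain ⟨Ex, hE⟩ := exists_exp hm hP
  obtain ⟨g, hgc, hg01, hgL, hg1, hg0⟩ := exists_model hm p
  obtain ⟨f, hf, hfK⟩ := S1_resolvent n hm (hP p 10) hgc
    (fun x => by rw [abs_of_nonneg (hg01 x).1]; exact (hg01 x).2) hτ
    (by norm_num : (0 : ℝ) < 1 / 16)
  have hnear : ∀ y, dh h p y ≤ 2 → |f y - g y| ≤ 1 / 8 := by
    intro y hy
    have hin : ∀ z, dh h y z ≤ 6 → dh h p z ≤ 10 := by
      intro z hz
      have := Pin.A.dh_triangle hm p y z
      linarith
    have h1 := resolvent_near hm hP hE hτ hτ1 (by norm_num : (1 : ℝ) / 16 ≤ 1) (y := y)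
      (fun z hz => hric z (hin z hz)) hf hgL (fun z hz => hfK z (hin z hz))
    rw [← hB, hτs] at h1
    have h2 : B * (1 / (16 * B)) = 1 / 16 := by
      field_simp
    rw [h2] at h1
    linarith
  refine ⟨f, hf, fun y hy => ?_, fun y hy => ?_, fun y hy hy' => ?_⟩
  · obtain ⟨h1, h2⟩ := hfK y hy
    refine ⟨by linarith, ?_⟩
    rw [le_div_iff₀ hτ, ← abs_of_pos hτ, ← abs_mul]
    have h3 := abs_le.1 h1
    have h4 := abs_le.1 h2
    have h5 := hg01 y
    rw [abs_le]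
    constructor <;> nlinarith
  · have h1 := abs_le.1 (hnear y (by linarith))
    rw [hg1 y hy] at h1
    linarith
  · have h1 := abs_le.1 (hnear y hy')
    rw [hg0 y hy] at h1
    linarith

/-- PROOF: `bump_one` for the metric `sca c h` with `c = 1 / σ ^ 2`, `√ c = 1 / σ`. -/
theorem S2_bump (n : ℕ) : ∃ K : ℝ, 0 < K ∧ ∀ h : Curv.Coeff (EuclideanSpace ℝ (Fin n)),
    Curv.IsMetric h → Proper h → ∀ (p : EuclideanSpace ℝ (Fin n)) (σ : ℝ), 0 < σ →
      (∀ y, dh h p y ≤ 10 * σ → RicGeAt h (1 / σ ^ 2) y) →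
      ∃ f : EuclideanSpace ℝ (Fin n) → ℝ, ContDiff ℝ ∞ f ∧
        (∀ y, dh h p y ≤ 10 * σ → |f y| ≤ 2 ∧ |lapC h f y| ≤ K / σ ^ 2) ∧
        (∀ y, dh h p y ≤ σ / 2 → 3 / 4 < f y) ∧
        ∀ y, 7 / 8 * σ ≤ dh h p y → dh h p y ≤ 2 * σ → f y < 1 / 4 := by
  obtain ⟨K, hK, H⟩ := bump_one n
  refine ⟨K, hK, fun h hm hP p σ hσ hric => ?_⟩
  have hc : (0 : ℝ) < 1 / σ ^ 2 := by positivity
  have hsq : √ (1 / σ ^ 2) = 1 / σ := by
    rw [show 1 / σ ^ 2 = (1 / σ) ^ 2 by rw [div_pow, one_pow]]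
    exact Real.sqrt_sq (by positivity)
  have hd : ∀ y, dh (sca (1 / σ ^ 2) h) p y = dh h p y / σ := by
    intro y
    rw [dh_sca hc, hsq]
    ring
  have hle : ∀ y (a : ℝ), dh (sca (1 / σ ^ 2) h) p y ≤ a ↔ dh h p y ≤ a * σ := by
    intro y a
    rw [hd, div_le_iff₀ hσ]
  obtain ⟨f, hf, h1, h2, h3⟩ := H _ (isMetric_sca hm hc) (proper_sca hP hc) p fun y hy => by
    rw [ricGeAt_sca hc, one_mul]
    exact hric y ((hle y 10).1 hy)
  refine ⟨f, hf, fun y hy => ?_, fun y hy => ?_, fun y hy hy' => ?_⟩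
  · obtain ⟨h4, h5⟩ := h1 y ((hle y 10).2 hy)
    refine ⟨h4, ?_⟩
    rw [lapC_sca hc, abs_div, abs_of_pos hc, div_le_iff₀ hc] at h5
    rw [div_eq_mul_one_div]
    exact h5
  · refine h2 y ((hle y (1 / 2)).2 ?_)
    linarith
  · refine h3 y ?_ ((hle y 2).2 hy')
    rw [hd, le_div_iff₀ hσ]
    exact hy

end Pool.Agent.Lib.MP_df705a_gt.Pin
end
end

section

/-!
# Spectral Ricci pinching, S3H3: the integral of the determinant
-/

open scoped Manifold ContDiff Topology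
open Set Bundle Module Filter MeasureTheory

noncomputable section

set_option linter.unusedSectionVars false

namespace Pool.Agent.Lib.MP_df705a_gt.Pin

open Pool.Agent.Lib.MP_df705a_gt.Twist Pool.Agent.Lib.MP_df705a_gt.Perm
open Pool.Agent.Lib.MP_df705a_gt.Coll (trM ipM)
open Pool.Agent.Lib.MP_df705a_gt.Coll.T (ddC mat pull RM SmF)

variable {E : Type*} [NormedAddCommGroup E] [NormedSpace ℝ E] [FiniteDimensional ℝ E]
  {h : Curv.Coeff E} {f : Fin (finrank ℝ E) → E → ℝ} {ψ : E → ℝ} {K c : ℝ} {x : E}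
  [MeasurableSpace E] [BorelSpace E]

/-- The integral of the determinant. Proof (`n = finrank ℝ E ≥ 1`): for every `δ > 0` `jacobi` for
`φ = tf h f ψ δ` and the three inequalities above give, with
`D = 2 (n+2)² c² ∫ ψ^(2n+2)` and `D' = ∫ ψ^(2n+4) scal` (independent of `δ`),
`Λ ∫ ψ^(2n+4) G ≤ Λ ∫ φ² ≤ γ (2 n! bI (n+2) (n-1) + 2 (n+2)² c² n! aI (n+1) n + δ² D)
+ n! bI (n+2) (n-1) + δ² D'`
(`H ≤ H + (R + P)` and `R + P ≤ H + (R + P)` where `ψ ≠ 0`). By `exists_bI_bound`, `exists_aI_bound` the right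
hand side is at most `C (1 + γ) aI 1 0 + δ² (γ D + D')`. Let `δ → 0`. -/
theorem exists_int_GG_le (E : Type*) [NormedAddCommGroup E] [NormedSpace ℝ E]
    [FiniteDimensional ℝ E] [MeasurableSpace E] [BorelSpace E] (hn : 1 ≤ finrank ℝ E) (K c : ℝ) :
    ∃ C : ℝ, 0 ≤ C ∧
    ∀ (h : Curv.Coeff E) (f : Fin (finrank ℝ E) → E → ℝ) (ψ : E → ℝ), Loc h f ψ K c →
      ∀ (γ Λ : ℝ) (w : E → ℝ), 0 ≤ γ → 0 ≤ Λ → ContDiff ℝ ∞ w → (∀ x, 0 < w x) →
      (∀ x, ψ x ≠ 0 → γ * lapC h w x ≤ (Curv.scal h x - Λ) * w x) →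
      Λ * ∫ x, ψ x ^ (2 * (finrank ℝ E + 2)) * GG h f x ∂(vol h) ≤
        C * (1 + γ) * aI h f ψ 1 0 := by
  classical
  obtain ⟨Cb, hCb0, hCb⟩ := exists_bI_bound E K c hn
  obtain ⟨Ca, hCa0, hCa⟩ := exists_aI_bound E K c (finrank ℝ E)
  set N : ℝ := ((finrank ℝ E).factorial : ℝ) with hN
  have hN0 : 0 ≤ N := Nat.cast_nonneg _
  set d : ℝ := 2 * (finrank ℝ E + 2 : ℝ) ^ 2 * c ^ 2 with hd
  have hd0 : 0 ≤ d := by positivity
  refine ⟨2 * N * Cb + d * N * Ca, by positivity, fun h f ψ L γ Λ w hγ hΛ hw hw0 hle => ?_⟩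
  have hHc := continuous_HH L.met L.sm
  have hRc := continuous_RR L.met L.sm
  have hPc : Continuous (PP h f) := (contDiff_PP L.met L.sm).continuous
  have hGc : Continuous (GG h f) := (contDiff_GG L.met L.sm).continuous
  have hSc := continuous_scal L.met
  -- weights
  have w1 : Continuous (fun x => ψ x ^ (2 * (finrank ℝ E + 2))) := L.psm.continuous.pow _
  have w1c : HasCompactSupport (fun x => ψ x ^ (2 * (finrank ℝ E + 2))) := by
    refine HasCompactSupport.comp_left (g := fun t : ℝ => t ^ (2 * (finrank ℝ E + 2))) L.cpt ?_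
    have : 2 * (finrank ℝ E + 2) ≠ 0 := by omega
    simp [this]
  have w2 : Continuous (fun x => ψ x ^ (2 * (finrank ℝ E + 1))) := L.psm.continuous.pow _
  have w2c : HasCompactSupport (fun x => ψ x ^ (2 * (finrank ℝ E + 1))) := by
    refine HasCompactSupport.comp_left (g := fun t : ℝ => t ^ (2 * (finrank ℝ E + 1))) L.cpt ?_
    have : 2 * (finrank ℝ E + 1) ≠ 0 := by omega
    simp [this]
  have hψ1 : ∀ x, 0 ≤ ψ x := L.nonneg
  -- integrable functions
  have i1 : Integrable (fun x => ψ x ^ (2 * (finrank ℝ E + 2)) * GG h f x) (vol h) :=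
    integrable_vol L.met (w1.mul hGc) w1c.mul_right
  have i2 : Integrable (fun x => ψ x ^ (2 * (finrank ℝ E + 2)) *
      PP h f x ^ (finrank ℝ E - 1) * HH h f x) (vol h) :=
    integrable_vol L.met ((w1.mul (hPc.pow _)).mul hHc) w1c.mul_right.mul_right
  have i3 : Integrable (fun x => ψ x ^ (2 * (finrank ℝ E + 2)) *
      PP h f x ^ (finrank ℝ E - 1) * (RR h f x + PP h f x)) (vol h) :=
    integrable_vol L.met ((w1.mul (hPc.pow _)).mul (hRc.add hPc)) w1c.mul_right.mul_right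
  have i4 : Integrable (fun x => ψ x ^ (2 * (finrank ℝ E + 1)) *
      PP h f x ^ finrank ℝ E) (vol h) :=
    integrable_vol L.met (w2.mul (hPc.pow _)) w2c.mul_right
  have i5 : Integrable (fun x => ψ x ^ (2 * (finrank ℝ E + 1))) (vol h) :=
    integrable_vol L.met w2 w2c
  have i6 : Integrable (fun x => ψ x ^ (2 * (finrank ℝ E + 2)) * Curv.scal h x) (vol h) :=
    integrable_vol L.met (w1.mul hSc) w1c.mul_right
  set X := ∫ x, ψ x ^ (2 * (finrank ℝ E + 2)) * PP h f x ^ (finrank ℝ E - 1) * HH h f x ∂(vol h)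
    with hX
  set Y := ∫ x, ψ x ^ (2 * (finrank ℝ E + 2)) * PP h f x ^ (finrank ℝ E - 1) *
    (RR h f x + PP h f x) ∂(vol h) with hY
  have hX0 : 0 ≤ X := by
    refine integral_nonneg fun x => ?_
    have h1 := HH_nonneg L.met f x
    have h2 := PP_nonneg L.met f x
    have h3 := L.nonneg x
    simp only [Pi.zero_apply]
    positivity
  have hY0 : 0 ≤ Y := by
    refine integral_nonneg fun x => ?_
    simp only [Pi.zero_apply]
    by_cases hψ : ψ x = 0
    · have h1 : 2 * (finrank ℝ E + 2) ≠ 0 := by omega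
      simp [hψ, h1]
    · have h1 := RR_add_PP_nonneg (f := f) L.met (L.ric x hψ)
      have h2 := PP_nonneg L.met f x
      have h3 := L.nonneg x
      positivity
  have hXY : bI h f ψ (finrank ℝ E + 2) (finrank ℝ E - 1) = X + Y := by
    unfold bI
    rw [hX, hY, ← integral_add i2 i3]
    refine integral_congr_ae (Eventually.of_forall fun x => ?_)
    simp only
    ring
  have hb := hCb h f ψ L
  have ha := hCa h f ψ L
  rw [hXY] at hb
  set a0 := aI h f ψ 1 0 with ha0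
  have ha00 : 0 ≤ a0 := L.aI_nonneg 1 0
  set T := ∫ x, ψ x ^ (2 * (finrank ℝ E + 1)) ∂(vol h) with hT
  set T' := ∫ x, ψ x ^ (2 * (finrank ℝ E + 2)) * Curv.scal h x ∂(vol h) with hT'
  have key : ∀ δ : ℝ, 0 < δ → Λ * ∫ x, ψ x ^ (2 * (finrank ℝ E + 2)) * GG h f x ∂(vol h) ≤
      (2 * N * Cb + d * N * Ca) * (1 + γ) * a0 + δ ^ 2 * (γ * d * T + T') := by
    intro δ hδ
    have hφ := L.contDiff_tf hδ
    have hφc := L.hasCompactSupport_tf δ
    have hle' : ∀ x, tf h f ψ δ x ≠ 0 → γ * lapC h w x ≤ (Curv.scal h x - Λ) * w x := by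
      intro x hx
      refine hle x fun h0 => hx ?_
      have : finrank ℝ E + 2 ≠ 0 := by omega
      simp [tf, h0, this]
    have hJ := jacobi L.met hφ hφc hw hw0 hγ hle'
    have j1 : Integrable (fun x => tf h f ψ δ x ^ 2) (vol h) :=
      integrable_vol L.met (hφ.continuous.pow 2)
        (HasCompactSupport.comp_left (g := fun t : ℝ => t ^ 2) hφc (by simp))
    have j2 : Integrable (gradC h (tf h f ψ δ) (tf h f ψ δ)) (vol h) :=
      integrable_vol L.met (contDiff_gradC L.met hφ hφ).continuous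
        (hasCompactSupport_gradC hφc _)
    have j3 : Integrable (fun x => Curv.scal h x * tf h f ψ δ x ^ 2) (vol h) :=
      integrable_vol L.met (hSc.mul (hφ.continuous.pow 2))
        (HasCompactSupport.comp_left (g := fun t : ℝ => t ^ 2) hφc (by simp)).mul_left
    have e1 : ∫ x, ψ x ^ (2 * (finrank ℝ E + 2)) * GG h f x ∂(vol h) ≤
        ∫ x, tf h f ψ δ x ^ 2 ∂(vol h) := by
      refine integral_mono i1 j1 fun x => ?_
      simp only
      rw [L.tf_sq δ x]
      refine mul_le_mul_of_nonneg_left ?_ (pow_nonneg (hψ1 x) _)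
      nlinarith [sq_nonneg δ]
    have e2 : ∫ x, gradC h (tf h f ψ δ) (tf h f ψ δ) x ∂(vol h) ≤
        2 * N * X + d * N * aI h f ψ (finrank ℝ E + 1) (finrank ℝ E) + d * δ ^ 2 * T := by
      have k1 : Integrable (fun x => 2 * N * (ψ x ^ (2 * (finrank ℝ E + 2)) *
        PP h f x ^ (finrank ℝ E - 1) * HH h f x)) (vol h) := i2.const_mul _
      have k2 : Integrable (fun x => d * N * (ψ x ^ (2 * (finrank ℝ E + 1)) *
        PP h f x ^ finrank ℝ E)) (vol h) := i4.const_mul _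
      have k3 : Integrable (fun x => d * δ ^ 2 * ψ x ^ (2 * (finrank ℝ E + 1))) (vol h) :=
        i5.const_mul _
      have k12 : Integrable (fun x => 2 * N * (ψ x ^ (2 * (finrank ℝ E + 2)) *
        PP h f x ^ (finrank ℝ E - 1) * HH h f x) + d * N * (ψ x ^ (2 * (finrank ℝ E + 1)) *
        PP h f x ^ finrank ℝ E)) (vol h) := k1.add k2
      have k123 : Integrable (fun x => 2 * N * (ψ x ^ (2 * (finrank ℝ E + 2)) *
        PP h f x ^ (finrank ℝ E - 1) * HH h f x) + d * N * (ψ x ^ (2 * (finrank ℝ E + 1)) *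
        PP h f x ^ finrank ℝ E) + d * δ ^ 2 * ψ x ^ (2 * (finrank ℝ E + 1))) (vol h) :=
        k12.add k3
      have k := integral_mono j2 k123 fun x => L.gradC_tf_le hδ x
      rw [integral_add k12 k3, integral_add k1 k2, integral_const_mul, integral_const_mul,
        integral_const_mul] at k
      exact k
    have e3 : ∫ x, Curv.scal h x * tf h f ψ δ x ^ 2 ∂(vol h) ≤ N * Y + δ ^ 2 * T' := by
      have k1 : Integrable (fun x => N * (ψ x ^ (2 * (finrank ℝ E + 2)) *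
        PP h f x ^ (finrank ℝ E - 1) * (RR h f x + PP h f x))) (vol h) := i3.const_mul _
      have k2 : Integrable (fun x => δ ^ 2 * (ψ x ^ (2 * (finrank ℝ E + 2)) *
        Curv.scal h x)) (vol h) := i6.const_mul _
      have k12 : Integrable (fun x => N * (ψ x ^ (2 * (finrank ℝ E + 2)) *
        PP h f x ^ (finrank ℝ E - 1) * (RR h f x + PP h f x)) +
        δ ^ 2 * (ψ x ^ (2 * (finrank ℝ E + 2)) * Curv.scal h x)) (vol h) := k1.add k2
      have k := integral_mono j3 k12 fun x => L.scal_tf_le δ x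
      rw [integral_add k1 k2, integral_const_mul, integral_const_mul] at k
      exact k
    have e4 := mul_le_mul_of_nonneg_left e1 hΛ
    have e5 := mul_le_mul_of_nonneg_left e2 hγ
    have e6 : γ * (2 * N * X + d * N * aI h f ψ (finrank ℝ E + 1) (finrank ℝ E) +
        d * δ ^ 2 * T) ≤ γ * (2 * N * (Cb * a0) + d * N * (Ca * a0) + d * δ ^ 2 * T) := by
      refine mul_le_mul_of_nonneg_left ?_ hγ
      have h1 : 2 * N * X ≤ 2 * N * (Cb * a0) :=
        mul_le_mul_of_nonneg_left (by linarith) (by positivity)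
      have h2 : d * N * aI h f ψ (finrank ℝ E + 1) (finrank ℝ E) ≤ d * N * (Ca * a0) :=
        mul_le_mul_of_nonneg_left ha (by positivity)
      linarith
    have e7 : N * Y ≤ N * (Cb * a0) := mul_le_mul_of_nonneg_left (by linarith) hN0
    have e8 : 0 ≤ N * Cb * a0 := by positivity
    have e9 : 0 ≤ d * N * Ca * a0 := by positivity
    nlinarith [hJ, e4, e5, e6, e7, e3, e8, e9]
  by_contra hcon
  push Not at hcon
  set A := Λ * ∫ x, ψ x ^ (2 * (finrank ℝ E + 2)) * GG h f x ∂(vol h) with hA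
  set B := (2 * N * Cb + d * N * Ca) * (1 + γ) * a0 with hB
  set U := γ * d * T + T' with hU
  have hpos : 0 < (A - B) / (2 * (|U| + 1)) := by
    have : 0 ≤ |U| := abs_nonneg _
    have : 0 < A - B := by linarith
    positivity
  have hk := key (√ ((A - B) / (2 * (|U| + 1)))) (Real.sqrt_pos.2 hpos)
  rw [Real.sq_sqrt hpos.le] at hk
  have h1 : (A - B) / (2 * (|U| + 1)) * U ≤ (A - B) / (2 * (|U| + 1)) * (|U| + 1) :=
    mul_le_mul_of_nonneg_left (by linarith [le_abs_self U]) hpos.le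
  have h2 : (A - B) / (2 * (|U| + 1)) * (|U| + 1) = (A - B) / 2 := by
    have : |U| + 1 ≠ 0 := by positivity
    field_simp
  linarith

end Pool.Agent.Lib.MP_df705a_gt.Pin
end
end

section

/-!
# Lower bounds of the Ricci curvature in the sense of Kato: comparison along geodesics of `W² h`
-/

open scoped Manifold ContDiff Topology
open Set Bundle Module Filter MeasureTheory

noncomputable section

set_option linter.unusedSectionVars false

namespace Pool.Agent.Lib.MP_df705a_gt.Kat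

open Pool.Agent.Lib.MP_df705a_gt.Twist Pool.Agent.Lib.MP_df705a_gt.Perm
open Pool.Agent.Lib.MP_df705a_gt.Pin Pool.Agent.Lib.MP_df705a_gt.Pin.A
open Pool.Agent.Lib.MP_df705a_gt.Coll (trM ipM)
open Pool.Agent.Lib.MP_df705a_gt.Coll.T (ddC mat pull RM SmF)

variable {E : Type*} [NormedAddCommGroup E] [NormedSpace ℝ E] [FiniteDimensional ℝ E]
  {h : Curv.Coeff E} {W : E → ℝ} {Ex : E → E → E}

/-- The assumptions on the weight `W`. -/
structure Wt (W : E → ℝ) (A : ℝ) : Prop where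
  sm : ContDiff ℝ ∞ W
  one_le : ∀ x, 1 ≤ W x
  le : ∀ x, W x ≤ A

theorem Wt.pos {A : ℝ} (hW : Wt W A) (x : E) : 0 < W x := one_pos.trans_le (hW.one_le x)

theorem Wt.one_le' {A : ℝ} (hW : Wt W A) : 1 ≤ A := (hW.one_le 0).trans (hW.le 0)

/-- The constant of the comparison of the densities. -/
def CD (n : ℕ) (A κ t : ℝ) : ℝ :=
  A ^ 2 * Real.exp (2 * ((n : ℝ) - 1 - 1) * Real.log A + ((n : ℝ) - 1) * ((n : ℝ) * κ) * t ^ 2 / 2)

theorem CD_nonneg (n : ℕ) (A κ t : ℝ) : 0 ≤ CD n A κ t := by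
  unfold CD
  positivity

theorem CD_one_le {n : ℕ} (hn : 2 ≤ n) {A κ : ℝ} (hA : 1 ≤ A) (hκ : 0 ≤ κ) (t : ℝ) :
    1 ≤ CD n A κ t := by
  unfold CD
  have hn' : (2 : ℝ) ≤ n := by exact_mod_cast hn
  have h1 : 1 ≤ A ^ 2 := one_le_pow₀ hA
  have h2 : 0 ≤ Real.log A := Real.log_nonneg hA
  have h4 : 0 ≤ 2 * ((n : ℝ) - 1 - 1) * Real.log A := mul_nonneg (by linarith) h2
  have h5 : 0 ≤ ((n : ℝ) - 1) * ((n : ℝ) * κ) * t ^ 2 / 2 := by
    have h6 : 0 ≤ (n : ℝ) - 1 := by linarith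
    have h7 : 0 ≤ (n : ℝ) * κ := mul_nonneg (by linarith) hκ
    positivity
  have h3 : 1 ≤ Real.exp (2 * ((n : ℝ) - 1 - 1) * Real.log A +
      ((n : ℝ) - 1) * ((n : ℝ) * κ) * t ^ 2 / 2) := Real.one_le_exp (by linarith)
  nlinarith

theorem CD_mono {n : ℕ} (hn : 2 ≤ n) {A κ : ℝ} (hκ : 0 ≤ κ) {t t' : ℝ}
    (h0 : 0 ≤ t) (ht : t ≤ t') : CD n A κ t ≤ CD n A κ t' := by
  unfold CD
  have hn' : (2 : ℝ) ≤ n := by exact_mod_cast hn
  refine mul_le_mul_of_nonneg_left (Real.exp_le_exp.2 ?_) (sq_nonneg _)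
  have h1 : t ^ 2 ≤ t' ^ 2 := pow_le_pow_left₀ h0 ht 2
  have h7 : 0 ≤ ((n : ℝ) - 1) * ((n : ℝ) * κ) :=
    mul_nonneg (by linarith) (mul_nonneg (by linarith) hκ)
  have h8 := mul_le_mul_of_nonneg_left h1 h7
  linarith

theorem ray (hm : Curv.IsMetric h) {A : ℝ} (hW : Wt W A)
    (hE : IsExp (cm h W) Ex) (hn : 2 ≤ finrank ℝ E) {p e : E} (he : nm (cm h W) p e = 1)
    {S κ : ℝ} (hκ : 0 ≤ κ) (hd : ∀ s ∈ Ioo 0 S, (fderiv ℝ (Ex p) (s • e)).det ≠ 0)
    (hg : ∀ s ∈ Ioo 0 S, Gd h W κ (Ex p (s • e))) :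
    (∀ s ∈ Ioo 0 S, mc2 h W Ex p (s • e) ≤
      ((finrank ℝ E : ℝ) - 1) * A ^ 2 * (1 / s + (finrank ℝ E : ℝ) * κ * s)) ∧
    ∀ s t : ℝ, 0 < s → s ≤ t → t < S →
      dens h Ex p (t • e) ≤ CD (finrank ℝ E) A κ t * dens h Ex p (s • e) := by
  set N : ℝ := (finrank ℝ E : ℝ) with hN
  have hN2 : (2 : ℝ) ≤ N := by rw [hN]; exact_mod_cast hn
  have hA1 := hW.one_le'
  have hex : ∀ s : ℝ, ∃ y' : ℝ, s ∈ Ioo 0 S →
      HasDerivAt (fun s : ℝ => mc2 h W Ex p (s • e)) y' s ∧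
      y' ≤ N * κ - (mc2 h W Ex p (s • e) / W (Ex p (s • e)) -
        fderiv ℝ W (Ex p (s • e)) (vel Ex p e s)) ^ 2 / (N - 1) := by
    intro s
    by_cases hs : s ∈ Ioo 0 S
    · obtain ⟨y', h1, h2⟩ := ray_riccati2 hm hW.sm hW.pos hE hn he hs.1 (hd s hs) (hg s hs)
      exact ⟨y', fun _ => ⟨h1, h2⟩⟩
    · exact ⟨0, fun h => absurd h hs⟩
  choose y' hy' using hex
  obtain ⟨C, hC⟩ := mc2_near_zero hm hW.sm hW.pos hE he
  have hExc : Continuous fun s : ℝ => Ex p (s • e) :=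
    (hE.smooth_at p).continuous.comp (continuous_id.smul continuous_const)
  have hwc : Continuous fun s : ℝ => W (Ex p (s • e)) := hW.sm.continuous.comp hExc
  obtain ⟨T, b, hT, hT0, hTA, hz, hy⟩ := ode_upper (k := N - 1) (κ := N * κ) (A := A) (S := S)
    (C := C) (by linarith) (mul_nonneg (by linarith) hκ)
    (y := fun s => mc2 h W Ex p (s • e)) (y' := y') (w := fun s => W (Ex p (s • e)))
    (w' := fun s => fderiv ℝ W (Ex p (s • e)) (vel Ex p e s)) hwc (fun s => hW.one_le _)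
    (fun s => hW.le _)
    (fun s _ => by
      have h1 : HasDerivAt (fun s : ℝ => Ex p (s • e)) (vel Ex p e s) s := hE.hasDerivAt p e s
      exact ((hW.sm.differentiable (by simp)).differentiableAt.hasFDerivAt).comp_hasDerivAt s h1)
    (fun s hs => (hy' s hs).1) (fun s hs => (hy' s hs).2) hC
  refine ⟨hy, fun s t hs hst ht => ?_⟩
  have key := ode_dens (k := N - 1) (κ := N * κ) (A := A) (S := S) (by linarith)
    (mul_nonneg (by linarith) hκ) hA1 (D := fun s => dn h W Ex p (s • e))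
    (z := fun s => mc2 h W Ex p (s • e) / W (Ex p (s • e)) ^ 2) hT hT0 hTA hz
    (fun s hs => dn_pos hm hW.pos (hd s hs))
    (fun s hs => hasDerivAt_log_dn hm hW.sm hW.pos hE he hs.1 (hd s hs)) hs hst ht
  have h1 : dens h Ex p (t • e) ≤ dn h W Ex p (t • e) := by
    unfold dn
    exact le_mul_of_one_le_left (dens_nonneg h Ex p _) (one_le_pow₀ (hW.one_le _))
  have h2 : dn h W Ex p (s • e) ≤ A ^ 2 * dens h Ex p (s • e) := by
    unfold dn
    exact mul_le_mul_of_nonneg_right (pow_le_pow_left₀ (hW.pos _).le (hW.le _) 2)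
      (dens_nonneg h Ex p _)
  calc dens h Ex p (t • e) ≤ dn h W Ex p (t • e) := h1
    _ ≤ Real.exp (2 * (N - 1 - 1) * Real.log A + (N - 1) * (N * κ) * t ^ 2 / 2) *
        dn h W Ex p (s • e) := key
    _ ≤ Real.exp (2 * (N - 1 - 1) * Real.log A + (N - 1) * (N * κ) * t ^ 2 / 2) *
        (A ^ 2 * dens h Ex p (s • e)) := mul_le_mul_of_nonneg_left h2 (Real.exp_nonneg _)
    _ = CD (finrank ℝ E) A κ t * dens h Ex p (s • e) := by
        unfold CD
        rw [← hN]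
        ring

theorem dens_ray_le2 (hm : Curv.IsMetric h) {A : ℝ} (hW : Wt W A)
    (hE : IsExp (cm h W) Ex) (hn : 2 ≤ finrank ℝ E) {p e : E} (he : nm (cm h W) p e = 1)
    {S κ : ℝ} (hκ : 0 ≤ κ) (hd : ∀ s ∈ Ioo 0 S, (fderiv ℝ (Ex p) (s • e)).det ≠ 0)
    (hg : ∀ s ∈ Ioo 0 S, Gd h W κ (Ex p (s • e))) {s t : ℝ} (h0 : 0 ≤ s)
    (hst : s ≤ t) (ht : t ≤ S) :
    dens h Ex p (t • e) ≤ CD (finrank ℝ E) A κ S * dens h Ex p (s • e) := by
  have hcont : Continuous (fun r : ℝ => dens h Ex p (r • e)) := by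
    have h1 := dens_continuous2 (h := h) (Ex := Ex) hm hE
    have h2 : Continuous (fun r : ℝ => ((p, r • e) : E × E)) := by fun_prop
    have h3 := Continuous.comp h1 h2
    simp only [Function.comp_def] at h3
    exact h3
  have hopen : ∀ s t : ℝ, 0 < s → s ≤ t → t < S →
      dens h Ex p (t • e) ≤ CD (finrank ℝ E) A κ S * dens h Ex p (s • e) := by
    intro s t hs hst ht
    refine ((ray hm hW hE hn he hκ hd hg).2 s t hs hst ht).trans ?_
    exact mul_le_mul_of_nonneg_right (CD_mono hn hκ (hs.le.trans hst) ht.le)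
      (dens_nonneg h Ex p _)
  rcases hst.eq_or_lt with heq | hlt
  · rw [heq]
    have h1 := CD_one_le hn hW.one_le' hκ S
    exact le_mul_of_one_le_left (dens_nonneg h Ex p _) h1
  · have hL : Tendsto (fun ε : ℝ => dens h Ex p ((t - ε) • e)) (𝓝[>] 0)
        (𝓝 (dens h Ex p (t • e))) := by
      have h1 : Continuous (fun ε : ℝ => dens h Ex p ((t - ε) • e)) :=
        hcont.comp (continuous_const.sub continuous_id)
      have h2 := h1.tendsto (0 : ℝ)
      rw [sub_zero] at h2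
      exact h2.mono_left nhdsWithin_le_nhds
    have hR : Tendsto (fun ε : ℝ => CD (finrank ℝ E) A κ S * dens h Ex p ((s + ε) • e)) (𝓝[>] 0)
        (𝓝 (CD (finrank ℝ E) A κ S * dens h Ex p (s • e))) := by
      have h1 : Continuous (fun ε : ℝ => CD (finrank ℝ E) A κ S * dens h Ex p ((s + ε) • e)) :=
        continuous_const.mul (hcont.comp (continuous_const.add continuous_id))
      have h2 := h1.tendsto (0 : ℝ)
      rw [add_zero] at h2
      exact h2.mono_left nhdsWithin_le_nhds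
    refine le_of_tendsto_of_tendsto hL hR ?_
    have h1 : ∀ᶠ ε in 𝓝[>] (0 : ℝ), ε < (t - s) / 2 :=
      (eventually_lt_nhds (by linarith : (0 : ℝ) < (t - s) / 2)).filter_mono nhdsWithin_le_nhds
    filter_upwards [h1, self_mem_nhdsWithin] with ε h2 h3
    have h3' : 0 < ε := h3
    exact hopen (s + ε) (t - ε) (by linarith) (by linarith) (by linarith)

/-- Comparison of the densities along a shortest geodesic of `W² h`. -/
theorem seg_dens_le (hm : Curv.IsMetric h) {A : ℝ} (hW : Wt W A)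
    (hE : IsExp (cm h W) Ex) (hn : 2 ≤ finrank ℝ E) {p v : E} (hv : Seg (cm h W) Ex p v)
    {κ t : ℝ} (hκ : 0 ≤ κ) (hR : ∀ s ∈ Icc (0 : ℝ) 1, Gd h W κ (Ex p (s • v)))
    (ht : t ∈ Icc (0 : ℝ) 1) :
    dens h Ex p v ≤ CD (finrank ℝ E) A κ (nm (cm h W) p v) * dens h Ex p (t • v) := by
  have hH := isMetric_cm hm hW.sm hW.pos
  by_cases hv0 : v = 0
  · subst hv0
    rw [smul_zero]
    exact le_mul_of_one_le_left (dens_nonneg h Ex p _) (CD_one_le hn hW.one_le' hκ _)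
  have hL : 0 < nm (cm h W) p v := nm_pos hH p hv0
  set L := nm (cm h W) p v with hLdef
  have hL0 : L ≠ 0 := hL.ne'
  set e : E := L⁻¹ • v with hedef
  have he : nm (cm h W) p e = 1 := by
    rw [hedef, nm_smul, ← hLdef, abs_of_pos (inv_pos.2 hL), inv_mul_cancel₀ hL0]
  have hse : ∀ s : ℝ, s • e = (s / L) • v := by
    intro s
    rw [hedef, smul_smul, div_eq_mul_inv]
  have hd : ∀ s ∈ Ioo 0 L, (fderiv ℝ (Ex p) (s • e)).det ≠ 0 := by
    intro s hs
    rw [hse]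
    exact Seg.det_ne hH hE hv (div_nonneg hs.1.le hL.le) ((div_lt_one hL).2 hs.2)
  have hg : ∀ s ∈ Ioo 0 L, Gd h W κ (Ex p (s • e)) := by
    intro s hs
    rw [hse]
    exact hR (s / L) ⟨div_nonneg hs.1.le hL.le, ((div_lt_one hL).2 hs.2).le⟩
  have h3 := dens_ray_le2 hm hW hE hn he hκ hd hg (s := t * L) (t := L) (mul_nonneg ht.1 hL.le)
    (by nlinarith [ht.2]) le_rfl
  have h4 : L • e = v := by
    rw [hse, div_self hL0, one_smul]
  have h5 : (t * L) • e = t • v := by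
    rw [hse, mul_div_assoc, div_self hL0, mul_one]
  rwa [h4, h5] at h3

end Pool.Agent.Lib.MP_df705a_gt.Kat
end
end

section

/-!
# Lower bounds of the Ricci curvature in the sense of Kato: Laplacian comparison
-/

open scoped Manifold ContDiff Topology
open Set Bundle Module Filter MeasureTheory

noncomputable section

set_option linter.unusedSectionVars false

namespace Pool.Agent.Lib.MP_df705a_gt.Kat

open Pool.Agent.Lib.MP_df705a_gt.Twist Pool.Agent.Lib.MP_df705a_gt.Perm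
open Pool.Agent.Lib.MP_df705a_gt.Pin Pool.Agent.Lib.MP_df705a_gt.Pin.A
open Pool.Agent.Lib.MP_df705a_gt.Coll (trM ipM)
open Pool.Agent.Lib.MP_df705a_gt.Coll.T (ddC mat pull RM SmF)

variable {E : Type*} [NormedAddCommGroup E] [NormedSpace ℝ E] [FiniteDimensional ℝ E]
  {h : Curv.Coeff E} {W : E → ℝ} {Ex : E → E → E}

/-- The pull back of the Laplacian for `h` to the exponential coordinates of `W² h`. -/
theorem lapC_pull2 (hm : Curv.IsMetric h) (hE : IsExp (cm h W) Ex) {p v : E}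
    (hd : (fderiv ℝ (Ex p) v).det ≠ 0) {U : E → ℝ} (hU : ContDiffAt ℝ ∞ U (Ex p v)) :
    lapC (hp h Ex p) (U ∘ Ex p) v = lapC h U (Ex p v) := by
  refine lapC_pull (h := h) (h' := hp h Ex p) (τ := Ex p) (hE.smooth_at p).contDiffAt hd
      (fun i j => (hm.1 i j).contDiffAt) (Eventually.of_forall fun x i j => ?_)
      (hm.2 _).det_pos.ne' (Eventually.of_forall fun x => rfl) hU
  have := (hm.2 x).isHermitian.apply i j
  simpa using this.symm

/-- One point of the curve. -/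
theorem step2 (hm : Curv.IsMetric h) {A : ℝ} (hW : Wt W A) (hE : IsExp (cm h W) Ex)
    (hn : 2 ≤ finrank ℝ E) {p e : E} {d κ : ℝ} (hκ : 0 ≤ κ)
    (he : nm (cm h W) p e = 1) (hseg : Seg (cm h W) Ex p (d • e))
    (hric : ∀ z, dh (cm h W) p z ≤ d → Gd h W κ z) {φ : E → ℝ}
    (hφ : ContDiffAt ℝ ∞ φ (Ex p (d • e))) (heq : φ (Ex p (d • e)) = d) {s : ℝ}
    (hs : s ∈ Ioo 0 d)
    (hle : ∀ᶠ x in 𝓝 (Ex p ((d - s) • e)), φ (AR8b_Psi (cm h W) Ex p e d (s, x)) ≤
      dh (cm h W) p (AR8b_Psi (cm h W) Ex p e d (s, x))) :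
    lapC h (fun x => φ (AR8b_Psi (cm h W) Ex p e d (s, x)) - s) (Ex p ((d - s) • e)) ≤
      ((finrank ℝ E : ℝ) - 1) * A ^ 2 * (1 / (d - s) + (finrank ℝ E : ℝ) * κ * (d - s)) := by
  have hH := isMetric_cm hm hW.sm hW.pos
  have hd0 : 0 < d := hs.1.trans hs.2
  have hds : 0 < d - s := sub_pos.2 hs.2
  set w₀ : E := (d - s) • e with hw₀
  have hdet : ∀ t ∈ Ioo 0 d, (fderiv ℝ (Ex p) (t • e)).det ≠ 0 := by
    intro t ht
    have h1 := hseg.det_ne hH hE (t := t / d) (div_nonneg ht.1.le hd0.le)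
      ((div_lt_one hd0).2 ht.2)
    rwa [smul_smul, div_mul_cancel₀ _ hd0.ne'] at h1
  have hdet₀ : (fderiv ℝ (Ex p) w₀).det ≠ 0 := hdet _ ⟨hds, by linarith [hs.1]⟩
  have hsm := hE.smooth_at p
  have he0 : e ≠ 0 := by
    rintro rfl
    rw [nm_zero] at he
    exact zero_ne_one he
  have hw0 : w₀ ≠ 0 := smul_ne_zero hds.ne' he0
  have hnm₀ : nm (cm h W) p w₀ = d - s := by
    rw [hw₀, nm_smul, he, mul_one, abs_of_pos hds]
  -- smoothness
  have hU : ContDiffAt ℝ ∞ (fun x => φ (AR8b_Psi (cm h W) Ex p e d (s, x)) - s) (Ex p w₀) := by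
    refine ContDiffAt.sub ?_ contDiffAt_const
    have h1 : ContDiffAt ℝ ∞ (fun x => AR8b_Psi (cm h W) Ex p e d (s, x)) (Ex p w₀) :=
      ContDiffAt.comp (g := AR8b_Psi (cm h W) Ex p e d) (f := fun x : E => (s, x)) (Ex p w₀)
        (AR8b_Psi_smooth hH hE he d (s, Ex p w₀)) (contDiffAt_const.prodMk contDiffAt_id)
    have h2 : ContDiffAt ℝ ∞ φ ((fun x => AR8b_Psi (cm h W) Ex p e d (s, x)) (Ex p w₀)) := by
      simp only [hw₀]
      rw [AR8b_Psi_curve hH hE he]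
      exact hφ
    exact h2.comp (Ex p w₀) h1
  have hUc : ContDiffAt ℝ ∞
      ((fun x => φ (AR8b_Psi (cm h W) Ex p e d (s, x)) - s) ∘ Ex p) w₀ :=
    hU.comp w₀ hsm.contDiffAt
  have hN : ContDiffAt ℝ ∞ (nm (cm h W) p) w₀ := nm_smooth hH p hw0
  -- local minimum
  have hmin : IsLocalMin (fun w => nm (cm h W) p w +
      (-1) * ((fun x => φ (AR8b_Psi (cm h W) Ex p e d (s, x)) - s) ∘ Ex p) w) w₀ := by
    have hc : Tendsto (Ex p) (𝓝 w₀) (𝓝 (Ex p w₀)) := hsm.continuous.tendsto _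
    filter_upwards [hc.eventually hle] with w hw
    have h1 : φ (AR8b_Psi (cm h W) Ex p e d (s, Ex p w₀)) = d := by
      rw [hw₀, AR8b_Psi_curve hH hE he, heq]
    have h2 := AR8b_Psi_dist hH hE he d hs.1.le (Ex p w)
    have h3 := Pin.A.dh_triangle hH p (Ex p w) (AR8b_Psi (cm h W) Ex p e d (s, Ex p w))
    have h4 := hE.dist_le_one hH p w
    simp only [Function.comp_apply]
    rw [h1, hnm₀]
    linarith
  have hrm := hp_rm2 hm hE hdet₀
  have key := lapC_nonneg_of_isLocalMin (k := hp h Ex p) hrm.self_of_nhds.2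
    (hN.add (contDiffAt_const.mul hUc)) hmin
  rw [G4.lapC_add _ hN (contDiffAt_const.mul hUc), G4.lapC_smul _ hUc,
    lapC_pull2 hm hE hdet₀ hU] at key
  have h1 := (ray hm hW hE hn he (S := d) hκ hdet (fun t ht => hric _ (by
    refine (hE.dist_le_one hH _ _).trans ?_
    rw [nm_smul, he, mul_one, abs_of_pos ht.1]
    exact ht.2.le))).1 (d - s) ⟨hds, by linarith [hs.1]⟩
  unfold mc2 at h1
  rw [← hw₀] at h1
  linarith

/-- The comparison theorem for the Laplacian for `h` of the distance for `W² h`, in the viscosity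
sense. -/
theorem lap_dist_le2 (hm : Curv.IsMetric h) (hP : Proper h) {A : ℝ} (hW : Wt W A)
    (hE : IsExp (cm h W) Ex) (hn : 2 ≤ finrank ℝ E) {p y : E} {κ : ℝ}
    (hpy : p ≠ y) (hκ : 0 ≤ κ)
    (hric : ∀ z, dh (cm h W) p z ≤ dh (cm h W) p y → Gd h W κ z) {φ : E → ℝ}
    (hφ : ContDiffAt ℝ ∞ φ y) (hle : ∀ᶠ x in 𝓝 y, φ x ≤ dh (cm h W) p x)
    (heq : φ y = dh (cm h W) p y) :
    lapC h φ y ≤ ((finrank ℝ E : ℝ) - 1) * A ^ 2 *
      (1 / dh (cm h W) p y + (finrank ℝ E : ℝ) * κ * dh (cm h W) p y) := by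
  have hH := isMetric_cm hm hW.sm hW.pos
  have hPH := proper_cm hm hP hW.sm hW.one_le
  obtain ⟨v, hv, rfl⟩ := hopf_rinow hH hPH hE p y
  have hd : 0 < dh (cm h W) p (Ex p v) := Pin.A.dh_pos hH hpy
  set d := dh (cm h W) p (Ex p v) with hdd
  have hv0 : v = d • (d⁻¹ • v) := by rw [smul_smul, mul_inv_cancel₀ hd.ne', one_smul]
  set e : E := d⁻¹ • v with he'
  have he : nm (cm h W) p e = 1 := by
    rw [he', nm_smul, hv, abs_of_pos (inv_pos.2 hd), inv_mul_cancel₀ hd.ne']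
  have hseg : Seg (cm h W) Ex p (d • e) := by
    rw [← hv0]
    exact hv.symm
  rw [hv0] at hφ hle heq ⊢
  have hΨ0 : AR8b_Psi (cm h W) Ex p e d (0, Ex p (d • e)) = Ex p (d • e) :=
    AR8b_Psi_zero hE p e d _
  have hΨs := AR8b_Psi_smooth hH hE he d (0, Ex p (d • e))
  have hΦ : ContDiffAt ℝ ∞ (fun q : ℝ × E => φ (AR8b_Psi (cm h W) Ex p e d q) - q.1)
      (0, Ex p (d • e)) := by
    refine ContDiffAt.sub ?_ contDiffAt_fst
    refine ContDiffAt.comp (g := φ) (f := AR8b_Psi (cm h W) Ex p e d) (0, Ex p (d • e)) ?_ hΨs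
    rw [hΨ0]
    exact hφ
  have hcurve : Tendsto (fun s : ℝ => (s, Ex p ((d - s) • e))) (𝓝[>] 0)
      (𝓝 (0, Ex p (d • e))) := by
    have h1 : Continuous fun s : ℝ => (s, Ex p ((d - s) • e)) :=
      continuous_id.prodMk ((hE.smooth_at p).continuous.comp
        ((continuous_const.sub continuous_id).smul continuous_const))
    have h2 := h1.tendsto 0
    simp only [sub_zero] at h2
    exact h2.mono_left nhdsWithin_le_nhds
  have hlim := (continuousAt_lapC_param hm hΦ).tendsto.comp hcurve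
  have h0 : (fun x : E => φ (AR8b_Psi (cm h W) Ex p e d ((0 : ℝ), x)) - (0 : ℝ)) = φ := by
    funext x
    rw [AR8b_Psi_zero hE, sub_zero]
  simp only [h0] at hlim
  have hrhs : Tendsto (fun s : ℝ => ((finrank ℝ E : ℝ) - 1) * A ^ 2 *
      (1 / (d - s) + (finrank ℝ E : ℝ) * κ * (d - s))) (𝓝[>] 0)
      (𝓝 (((finrank ℝ E : ℝ) - 1) * A ^ 2 * (1 / d + (finrank ℝ E : ℝ) * κ * d))) := by
    have h1 : Tendsto (fun s : ℝ => d - s) (𝓝 0) (𝓝 (d - 0)) :=
      (continuous_const.sub continuous_id).tendsto 0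
    rw [sub_zero] at h1
    exact (tendsto_const_nhds.mul ((tendsto_const_nhds.div h1 hd.ne').add
      (tendsto_const_nhds.mul h1))).mono_left nhdsWithin_le_nhds
  refine le_of_tendsto_of_tendsto hlim hrhs ?_
  have hev : ∀ᶠ q in 𝓝 ((0 : ℝ), Ex p (d • e)),
      φ (AR8b_Psi (cm h W) Ex p e d q) ≤ dh (cm h W) p (AR8b_Psi (cm h W) Ex p e d q) := by
    have h1 : Tendsto (AR8b_Psi (cm h W) Ex p e d) (𝓝 ((0 : ℝ), Ex p (d • e)))
        (𝓝 (Ex p (d • e))) := by
      have := hΨs.continuousAt.tendsto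
      rwa [hΨ0] at this
    exact h1.eventually hle
  have hev2 := hcurve.eventually (eventually_eventually_nhds.2 hev)
  have hIoo : ∀ᶠ s : ℝ in 𝓝[>] 0, s ∈ Ioo 0 d := Ioo_mem_nhdsGT hd
  filter_upwards [hev2, hIoo] with s hs1 hs2
  have hslice : Tendsto (fun x : E => (s, x)) (𝓝 (Ex p ((d - s) • e)))
      (𝓝 (s, Ex p ((d - s) • e))) :=
    (continuous_const.prodMk continuous_id).tendsto _
  exact step2 hm hW hE hn hκ he hseg (fun z hz => hric z hz) hφ heq hs2 (hslice.eventually hs1)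

/-- The Laplacian for `h` of the square of the norm for `W² h`, at the origin of exponential
coordinates. -/
theorem lap_sq2 (hm : Curv.IsMetric h) (hE : IsExp (cm h W) Ex) (p : E) :
    lapC (hp h Ex p) (fun v => bf (cm h W) p v v) 0 = 2 * (W p ^ 2 * (finrank ℝ E : ℝ)) := by
  have h1 : ∀ j : Fin (finrank ℝ E), Curv.pd j (fun v => bf (cm h W) p v v) =
      fun v => 2 * (W p ^ 2 * bf h p v (finBasis ℝ E j)) := by
    intro j
    funext v
    unfold Curv.pd
    have h2 : HasFDerivAt (fun v => bf (cm h W) p v v)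
        (((bf (cm h W) p v).comp (ContinuousLinearMap.id ℝ E)) + ((bf (cm h W) p).flip v)) v := by
      have h3 := ((bf (cm h W) p).hasFDerivAt (x := v)).clm_apply (hasFDerivAt_id (𝕜 := ℝ) v)
      exact h3
    rw [h2.fderiv]
    simp only [_root_.add_apply, ContinuousLinearMap.comp_apply,
      ContinuousLinearMap.id_apply, ContinuousLinearMap.flip_apply]
    rw [bf_cm, bf_cm, bf_symm hm p (finBasis ℝ E j) v]
    ring
  have h2 : ∀ i j : Fin (finrank ℝ E),
      Curv.pd i (fun v => 2 * (W p ^ 2 * bf h p v (finBasis ℝ E j))) 0 =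
        2 * (W p ^ 2 * h p i j) := by
    intro i j
    unfold Curv.pd
    have h3 : HasFDerivAt (fun v => 2 * (W p ^ 2 * bf h p v (finBasis ℝ E j)))
        ((2 : ℝ) • (W p ^ 2) • (bf h p).flip (finBasis ℝ E j)) 0 := by
      have h4 := ((bf h p).flip (finBasis ℝ E j)).hasFDerivAt (x := (0 : E))
      exact (h4.const_mul (W p ^ 2)).const_mul 2
    rw [h3.fderiv]
    simp only [_root_.smul_apply, ContinuousLinearMap.flip_apply, smul_eq_mul]
    rw [bf_apply]
    unfold Curv.ip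
    simp [Finsupp.single_apply]
  have h0 : hp h Ex p 0 = h p := by
    unfold hp
    rw [hE.fderiv_zero, hE.zero]
    have : LinearMap.toMatrix (finBasis ℝ E) (finBasis ℝ E)
        ((ContinuousLinearMap.id ℝ E : E →L[ℝ] E) : E →ₗ[ℝ] E) = 1 := LinearMap.toMatrix_id _
    rw [this, Matrix.transpose_one, Matrix.one_mul, Matrix.mul_one]
  unfold lapC Curv.covHess
  simp only [h1, h2, h0, map_zero, _root_.zero_apply, mul_zero, Finset.sum_const_zero,
    sub_zero]
  have h3 : ∀ i j, h p i j = h p j i := fun i j => by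
    have := (hm.2 p).isHermitian.apply j i
    simpa using this
  have h4 : ∑ i, ∑ j, (h p)⁻¹ i j * (2 * (W p ^ 2 * h p i j)) =
      2 * (W p ^ 2 * ((h p)⁻¹ * h p).trace) := by
    unfold Matrix.trace
    rw [Finset.mul_sum, Finset.mul_sum]
    refine Finset.sum_congr rfl fun i _ => ?_
    rw [Matrix.diag_apply, Matrix.mul_apply, Finset.mul_sum, Finset.mul_sum]
    refine Finset.sum_congr rfl fun j _ => ?_
    rw [h3 i j]
    ring
  rw [h4, Matrix.nonsing_inv_mul _ (hm.2 p).det_pos.ne'.isUnit, Matrix.trace_one,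
    Fintype.card_fin]

/-- The comparison theorem for the square of the distance for `W² h`. -/
theorem lap_sq_dist_le2 (hm : Curv.IsMetric h) (hP : Proper h) {A : ℝ} (hW : Wt W A)
    (hE : IsExp (cm h W) Ex) (hn : 2 ≤ finrank ℝ E) {p y : E} {κ : ℝ} (hκ : 0 ≤ κ)
    (hric : ∀ z, dh (cm h W) p z ≤ dh (cm h W) p y → Gd h W κ z) {φ : E → ℝ}
    (hφ : ContDiffAt ℝ ∞ φ y) (hle : ∀ᶠ x in 𝓝 y, φ x ≤ dh (cm h W) p x ^ 2)
    (heq : φ y = dh (cm h W) p y ^ 2) :
    lapC h φ y ≤ 2 * (finrank ℝ E : ℝ) * A ^ 2 *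
      (1 + (finrank ℝ E : ℝ) * κ * dh (cm h W) p y ^ 2) := by
  have hH := isMetric_cm hm hW.sm hW.pos
  have hN2 : (2 : ℝ) ≤ (finrank ℝ E : ℝ) := by exact_mod_cast hn
  by_cases hpy : p = y
  · subst hpy
    have hself : dh (cm h W) p p = 0 := dh_self hH p
    rw [hself] at heq ⊢
    have hdet : (fderiv ℝ (Ex p) 0).det ≠ 0 := by
      rw [hE.fderiv_zero p]
      simp [ContinuousLinearMap.det]
    have h0 : Ex p 0 = p := hE.zero p
    have hsm := hE.smooth_at p
    have hφ' : ContDiffAt ℝ ∞ φ (Ex p 0) := by rw [h0]; exact hφ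
    have hb : ContDiffAt ℝ ∞ (fun v => bf (cm h W) p v v) 0 :=
      ((bf (cm h W) p).contDiff.contDiffAt.clm_apply contDiffAt_id)
    have hc : ContDiffAt ℝ ∞ (φ ∘ Ex p) 0 := hφ'.comp 0 hsm.contDiffAt
    have hmin : IsLocalMin (fun v => bf (cm h W) p v v + (-1) * (φ ∘ Ex p) v) 0 := by
      have hc' : Tendsto (Ex p) (𝓝 0) (𝓝 p) := by
        have := hsm.continuous.tendsto (0 : E)
        rwa [h0] at this
      filter_upwards [hc'.eventually hle] with v hv
      have h1 := hE.dist_le_one hH p v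
      have h2 := nm_sq hH p v
      have h3 := dh_nonneg hH p (Ex p v)
      have h4 := nm_nonneg (cm h W) p v
      simp only [Function.comp_apply, map_zero]
      rw [h0, heq, ← h2]
      nlinarith
    have hrm := hp_rm2 hm hE hdet
    have key := lapC_nonneg_of_isLocalMin (k := hp h Ex p) hrm.self_of_nhds.2
      (hb.add (contDiffAt_const.mul hc)) hmin
    rw [G4.lapC_add _ hb (contDiffAt_const.mul hc), G4.lapC_smul _ hc,
      lapC_pull2 hm hE hdet hφ', lap_sq2 hm hE, h0] at key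
    have h5 : W p ^ 2 ≤ A ^ 2 := pow_le_pow_left₀ (hW.pos p).le (hW.le p) 2
    have h6 : W p ^ 2 * (finrank ℝ E : ℝ) ≤ A ^ 2 * (finrank ℝ E : ℝ) :=
      mul_le_mul_of_nonneg_right h5 (by linarith)
    have h7 : 2 * (finrank ℝ E : ℝ) * A ^ 2 * (1 + (finrank ℝ E : ℝ) * κ * 0 ^ 2) =
        2 * (A ^ 2 * (finrank ℝ E : ℝ)) := by ring
    rw [h7]
    linarith
  · have hd : 0 < dh (cm h W) p y := Pin.A.dh_pos hH hpy
    have hpos : 0 < φ y := by
      rw [heq]
      positivity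
    have hψ : ContDiffAt ℝ ∞ (fun x => √ (φ x)) y := hφ.sqrt hpos.ne'
    have hψy : √ (φ y) = dh (cm h W) p y := by rw [heq, Real.sqrt_sq hd.le]
    have hψle : ∀ᶠ x in 𝓝 y, √ (φ x) ≤ dh (cm h W) p x := by
      filter_upwards [hle] with x hx
      exact Real.sqrt_le_iff.2 ⟨dh_nonneg hH p x, hx⟩
    have h1 := lap_dist_le2 hm hP hW hE hn hpy hκ hric hψ hψle hψy
    have h2 := gradC_le_one hH hψ hψle hψy
    have h2' : gradC h (fun x => √ (φ x)) (fun x => √ (φ x)) y ≤ A ^ 2 := by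
      rw [gradC_cm (W := W) hm (hW.pos y).ne']
      calc W y ^ 2 * gradC (cm h W) (fun x => √ (φ x)) (fun x => √ (φ x)) y ≤ W y ^ 2 * 1 :=
            mul_le_mul_of_nonneg_left h2 (sq_nonneg _)
        _ ≤ A ^ 2 := by
            rw [mul_one]
            exact pow_le_pow_left₀ (hW.pos y).le (hW.le y) 2
    have h3 : φ =ᶠ[𝓝 y] fun x => (fun s : ℝ => s ^ 2) (√ (φ x)) := by
      filter_upwards [hφ.continuousAt.eventually (lt_mem_nhds hpos)] with x hx
      exact (Real.sq_sqrt hx.le).symm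
    have hsq : ContDiffAt ℝ ∞ (fun s : ℝ => s ^ 2) (√ (φ y)) := contDiffAt_id.pow 2
    rw [g3_lapC_congr h3, G4.lapC_comp h hψ hsq]
    have e1 : deriv (fun s : ℝ => s ^ 2) = fun s => 2 * s := by
      funext s
      simp
    have e2 : deriv (fun s : ℝ => 2 * s) = fun _ => 2 := by
      funext s
      rw [deriv_const_mul _ differentiableAt_id]
      simp
    rw [e1, e2, hψy]
    set N : ℝ := (finrank ℝ E : ℝ) with hN
    set d : ℝ := dh (cm h W) p y with hdd
    have h4 : 2 * d * lapC h (fun x => √ (φ x)) y ≤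
        2 * d * ((N - 1) * A ^ 2 * (1 / d + N * κ * d)) :=
      mul_le_mul_of_nonneg_left h1 (by positivity)
    have h5 : 2 * d * ((N - 1) * A ^ 2 * (1 / d + N * κ * d)) =
        2 * (N - 1) * A ^ 2 + 2 * (N - 1) * A ^ 2 * (N * κ * d ^ 2) := by
      field_simp
    have h6 : 0 ≤ A ^ 2 * (N * κ * d ^ 2) := by positivity
    have h7 : 2 * N * A ^ 2 * (1 + N * κ * d ^ 2) =
        2 * (N - 1) * A ^ 2 + 2 * (N - 1) * A ^ 2 * (N * κ * d ^ 2) + 2 * A ^ 2 +
          2 * (A ^ 2 * (N * κ * d ^ 2)) := by ring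
    rw [h7]
    simp only
    linarith

end Pool.Agent.Lib.MP_df705a_gt.Kat
end
end
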