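import Pool.Agent.Lib.MP_df705a_gt.Mg.G017
import Pool.Agent.Lib.MP_df705a_gt.Mg.G020
import Pool.Agent.Lib.MP_df705a_gt.Mg.G014
import Pool.Agent.Lib.MP_df705a_gt.Mg.G012
import Pool.Agent.Lib.MP_df705a_gt.Pin.AG7
import Pool.Agent.Lib.MP_df705a_gt.Mg.G005
import Pool.Agent.Lib.MP_df705a_gt.Mg.G065
import Pool.Agent.Lib.MP_df705a_gt.Pin.GE1
import Pool.Agent.Lib.MP_df705a_gt.Pin.GDefs
import Pool.Agent.Lib.MP_df705a_gt.Mg.G067
import Pool.Agent.Lib.MP_df705a_gt.Mg.G060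

section

/-!
# Spectral Ricci pinching, S3D5: the gradient of the determinant
-/

open scoped Manifold ContDiff Topology
open Set Bundle Module Filter MeasureTheory

noncomputable section

set_option linter.unusedSectionVars false

namespace Pool.Agent.Lib.MP_df705a_gt.Pin

open Pool.Agent.Lib.MP_df705a_gt.Twist Pool.Agent.Lib.MP_df705a_gt.Perm
open Pool.Agent.Lib.MP_df705a_gt.Coll (trM ipM)
open Pool.Agent.Lib.MP_df705a_gt.Coll.T (ddC mat pull RM SmF)

variable {E : Type*} [NormedAddCommGroup E] [NormedSpace ℝ E] [FiniteDimensional ℝ E]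
  {h : Curv.Coeff E} {f : Fin (finrank ℝ E) → E → ℝ} {x : E}

/-- `|dG|² ≤ 4 n! G P^(n-1) H`. Proof: `gradC_GG` with `w = G`, `gradC_grad`, the symmetry of the adjugate:
`|dG|² = 2 ∑ i, ∑ j, adj_{ji} ipM (Hess f i) (ddC (f j) G)
≤ 2 ∑ i, √ |Hess f i|² √ (G adj_{ii}) |dG|` (`abs_sum_ipM_le`, `sum_adj_eq`)
`≤ 2 √H √ (G ∑ adj_{ii}) |dG| ≤ 2 √H √ (G n! P^(n-1)) |dG|` (Cauchy-Schwarz, `adjugate_diag`;
`n * (n - 1)! = n!` if `n > 0`; if `n = 0` everything is zero); divide by `|dG|` and square. -/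
theorem gradC_GG_le (hh : Curv.IsMetric h) (hf : ∀ i, ContDiff ℝ ∞ (f i)) (x : E) :
    gradC h (GG h f) (GG h f) x ≤
      4 * (finrank ℝ E).factorial * GG h f x * PP h f x ^ (finrank ℝ E - 1) * HH h f x := by
  set D := gradC h (GG h f) (GG h f) x with hD
  set adj := (Gm h f x).adjugate with hadj
  set A : Fin (finrank ℝ E) → Fin (finrank ℝ E) → ℝ := fun i j =>
    ipM (h x) (Curv.covHess h (f i) x) (ddC (f j) (GG h f) x) with hA
  set hs : Fin (finrank ℝ E) → ℝ := fun i =>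
    ipM (h x) (Curv.covHess h (f i) x) (Curv.covHess h (f i) x) with hhs
  have hGsm : ContDiff ℝ ∞ (GG h f) := contDiff_GG hh hf
  have hG0 : 0 ≤ GG h f x := GG_nonneg hh f x
  have hP0 : 0 ≤ PP h f x := PP_nonneg hh f x
  have hhs0 : ∀ i, 0 ≤ hs i := fun i => Pin.ipM_self_nonneg (hh.2 x) _
  have hsym : ∀ i j, adj i j = adj j i := by
    intro i j
    have h1 : (Gm h f x).transpose = Gm h f x := by
      ext a b
      exact gradC_comm' hh (f b) (f a) x
    have h2 := Matrix.adjugate_transpose (Gm h f x)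
    rw [h1] at h2
    exact congrFun (congrFun h2.symm i) j
  have hdiag : ∀ i, 0 ≤ adj i i ∧ adj i i ≤
      (finrank ℝ E - 1).factorial * PP h f x ^ (finrank ℝ E - 1) := fun i =>
    adjugate_diag (Gm_posSemidef hh f x) (abs_Gm_le hh f x) i
  have hD0 : 0 ≤ D := by
    have h1 := gradC_sq_le hh (GG h f) (GG h f) x
    have h2 := abs_gradC_le hh (GG h f) (GG h f) x
    rw [← hD] at h2
    have h3 : √ D * √ D = max D 0 := by
      rcases le_total 0 D with h4 | h4
      · rw [Real.mul_self_sqrt h4, max_eq_left h4]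
      · rw [Real.sqrt_eq_zero_of_nonpos h4, max_eq_right h4, mul_zero]
    rw [h3] at h2
    by_contra h4
    push Not at h4
    rw [max_eq_right h4.le, abs_of_neg h4] at h2
    linarith
  have h1 : D = 2 * ∑ i, ∑ j, adj j i * A i j := by
    have h2 : D = ∑ i, ∑ j, adj j i * (A i j + A j i) := by
      rw [hD, gradC_GG hh hf x]
      refine Finset.sum_congr rfl fun i _ => Finset.sum_congr rfl fun j _ => ?_
      rw [gradC_grad hh (hf i) (hf j) hGsm x]
    have h3 : ∑ i, ∑ j, adj j i * A j i = ∑ i, ∑ j, adj j i * A i j := by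
      rw [Finset.sum_comm]
      refine Finset.sum_congr rfl fun i _ => Finset.sum_congr rfl fun j _ => ?_
      rw [hsym]
    rw [h2]
    simp only [mul_add, Finset.sum_add_distrib]
    rw [h3]
    ring
  have h2 : ∀ i, ∑ j, adj j i * A i j ≤ √ (hs i) * √ (GG h f x * adj i i) * √ D := by
    intro i
    have h3 := abs_sum_ipM_le hh hf hGsm x (Curv.covHess h (f i) x) (fun j => adj j i)
    rw [sum_adj_eq hh f x i] at h3
    exact (le_abs_self _).trans h3
  have h3 : D ≤ 2 * ((√ (∑ i, hs i) * √ (∑ i, GG h f x * adj i i)) * √ D) := by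
    refine h1.le.trans (mul_le_mul_of_nonneg_left ?_ (by norm_num))
    calc ∑ i, ∑ j, adj j i * A i j
        ≤ ∑ i, √ (hs i) * √ (GG h f x * adj i i) * √ D := Finset.sum_le_sum fun i _ => h2 i
      _ = (∑ i, √ (hs i) * √ (GG h f x * adj i i)) * √ D := (Finset.sum_mul _ _ _).symm
      _ ≤ _ := by
          refine mul_le_mul_of_nonneg_right ?_ (Real.sqrt_nonneg _)
          exact Real.sum_sqrt_mul_sqrt_le _ hhs0 fun i => mul_nonneg hG0 (hdiag i).1
  set X := √ (∑ i, hs i) * √ (∑ i, GG h f x * adj i i) with hX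
  have h4 : X ^ 2 = HH h f x * (GG h f x * ∑ i, adj i i) := by
    rw [hX, mul_pow, Real.sq_sqrt (Finset.sum_nonneg fun i _ => hhs0 i),
      Real.sq_sqrt (Finset.sum_nonneg fun i _ => mul_nonneg hG0 (hdiag i).1), ← Finset.mul_sum]
    rfl
  have h5 : D ≤ 4 * X ^ 2 := by
    have h6 : √ D ^ 2 = D := Real.sq_sqrt hD0
    nlinarith [sq_nonneg (√ D - 2 * X)]
  have hH0 : 0 ≤ HH h f x := Finset.sum_nonneg fun i _ => hhs0 i
  rcases Nat.eq_zero_or_pos (finrank ℝ E) with h0 | hpos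
  · have hHz : HH h f x = 0 := by
      have : IsEmpty (Fin (finrank ℝ E)) := by rw [h0]; infer_instance
      exact Finset.sum_of_isEmpty _
    rw [h4, hHz] at h5
    rw [hHz]
    linarith
  · have h7 : ∑ i, adj i i ≤ (finrank ℝ E).factorial * PP h f x ^ (finrank ℝ E - 1) := by
      calc ∑ i, adj i i
          ≤ ∑ _i : Fin (finrank ℝ E),
              ((finrank ℝ E - 1).factorial * PP h f x ^ (finrank ℝ E - 1) : ℝ) :=
            Finset.sum_le_sum fun i _ => (hdiag i).2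
        _ = (finrank ℝ E).factorial * PP h f x ^ (finrank ℝ E - 1) := by
            rw [Finset.sum_const, Finset.card_univ, Fintype.card_fin, nsmul_eq_mul,
              ← Nat.mul_factorial_pred (Nat.pos_iff_ne_zero.1 hpos)]
            push_cast
            ring
    have h8 : 4 * X ^ 2 ≤ 4 * (HH h f x * (GG h f x *
        ((finrank ℝ E).factorial * PP h f x ^ (finrank ℝ E - 1)))) := by
      rw [h4]
      refine mul_le_mul_of_nonneg_left ?_ (by norm_num)
      exact mul_le_mul_of_nonneg_left (mul_le_mul_of_nonneg_left h7 hG0) hH0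
    refine h5.trans (h8.trans (le_of_eq ?_))
    ring

end Pool.Agent.Lib.MP_df705a_gt.Pin
end
end

section

/-!
# Spectral Ricci pinching, S3H1: the test function
-/

open scoped Manifold ContDiff Topology
open Set Bundle Module Filter MeasureTheory

noncomputable section

set_option linter.unusedSectionVars false

namespace Pool.Agent.Lib.MP_df705a_gt.Pin

open Pool.Agent.Lib.MP_df705a_gt.Twist Pool.Agent.Lib.MP_df705a_gt.Perm
open Pool.Agent.Lib.MP_df705a_gt.Coll (trM ipM)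
open Pool.Agent.Lib.MP_df705a_gt.Coll.T (ddC mat pull RM SmF)

variable {E : Type*} [NormedAddCommGroup E] [NormedSpace ℝ E] [FiniteDimensional ℝ E]
  {h : Curv.Coeff E} {f : Fin (finrank ℝ E) → E → ℝ} {ψ : E → ℝ} {K c : ℝ} {x : E}
  [MeasurableSpace E] [BorelSpace E]

/-- The test function. -/
def tf (h : Curv.Coeff E) (f : Fin (finrank ℝ E) → E → ℝ) (ψ : E → ℝ) (δ : ℝ) (x : E) : ℝ :=
  ψ x ^ (finrank ℝ E + 2) * √ (GG h f x + δ ^ 2)

/-- `G + δ² > 0` (`GG_nonneg`), `ContDiff.sqrt`. -/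
theorem Loc.contDiff_tf (L : Loc h f ψ K c) {δ : ℝ} (hδ : 0 < δ) :
    ContDiff ℝ ∞ (tf h f ψ δ) := by
  have h1 : ContDiff ℝ ∞ (fun x => √ (GG h f x + δ ^ 2)) :=
    ContDiff.sqrt ((contDiff_GG L.met L.sm).add contDiff_const) fun x => by
      have h2 := GG_nonneg L.met f x
      have h3 : 0 < δ ^ 2 := by positivity
      exact (by linarith : 0 < GG h f x + δ ^ 2).ne'
  exact (L.psm.pow _).mul h1

theorem Loc.hasCompactSupport_tf (L : Loc h f ψ K c) (δ : ℝ) :
    HasCompactSupport (tf h f ψ δ) := by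
  have h1 : HasCompactSupport (fun x => ψ x ^ (finrank ℝ E + 2)) :=
    L.cpt.comp_left (g := fun t : ℝ => t ^ (finrank ℝ E + 2)) (zero_pow (by omega))
  exact h1.mul_right

theorem Loc.tf_sq (L : Loc h f ψ K c) (δ : ℝ) (x : E) :
    tf h f ψ δ x ^ 2 = ψ x ^ (2 * (finrank ℝ E + 2)) * (GG h f x + δ ^ 2) := by
  have h2 := GG_nonneg L.met f x
  have h3 : 0 ≤ GG h f x + δ ^ 2 := add_nonneg h2 (sq_nonneg δ)
  rw [tf, mul_pow, Real.sq_sqrt h3, ← pow_mul, mul_comm (finrank ℝ E + 2) 2]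

/-- `|d√(G + δ²)|² = |dG|² / (4 (G + δ²)) ≤ n! P^(n-1) H` (`gradC_comp_left` twice, `gradC_GG_le`). -/
theorem Loc.gradC_sqrt_le (L : Loc h f ψ K c) {δ : ℝ} (hδ : 0 < δ) (x : E) :
    gradC h (fun y => √ (GG h f y + δ ^ 2)) (fun y => √ (GG h f y + δ ^ 2)) x ≤
      (finrank ℝ E).factorial * PP h f x ^ (finrank ℝ E - 1) * HH h f x := by
  have hG := GG_nonneg L.met f x
  have hP := PP_nonneg L.met f x
  have hH := HH_nonneg L.met f x
  have hδ2 : 0 < δ ^ 2 := by positivity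
  have hpos : 0 < GG h f x + δ ^ 2 := by linarith
  have hGd : DifferentiableAt ℝ (GG h f) x :=
    (contDiff_GG L.met L.sm).differentiable (by simp) x
  have hφ : HasDerivAt (fun t : ℝ => √ (t + δ ^ 2)) (1 / (2 * √ (GG h f x + δ ^ 2))) (GG h f x) := by
    have e1 : HasDerivAt (fun t : ℝ => t + δ ^ 2) 1 (GG h f x) := (hasDerivAt_id _).add_const _
    exact e1.sqrt hpos.ne'
  have e2 := gradC_comp_left (h := h) L.met hGd hφ.differentiableAt
    (fun y => √ (GG h f y + δ ^ 2))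
  have e3 := gradC_comp_left (h := h) L.met hGd hφ.differentiableAt (GG h f)
  rw [hφ.deriv] at e2 e3
  rw [e2, gradC_comm' L.met, e3, ← mul_assoc]
  have e4 : 1 / (2 * √ (GG h f x + δ ^ 2)) * (1 / (2 * √ (GG h f x + δ ^ 2))) =
      1 / (4 * (GG h f x + δ ^ 2)) := by
    rw [div_mul_div_comm, one_mul]
    congr 1
    have e5 := Real.mul_self_sqrt hpos.le
    linear_combination 4 * e5
  rw [e4, one_div, inv_mul_le_iff₀ (by positivity)]
  refine (gradC_GG_le L.met L.sm x).trans ?_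
  have e6 : 0 ≤ ((finrank ℝ E).factorial : ℝ) * PP h f x ^ (finrank ℝ E - 1) * HH h f x := by
    positivity
  have e7 : 4 * ((finrank ℝ E).factorial : ℝ) * GG h f x * PP h f x ^ (finrank ℝ E - 1) *
      HH h f x = 4 * GG h f x * (((finrank ℝ E).factorial : ℝ) * PP h f x ^ (finrank ℝ E - 1) *
        HH h f x) := by ring
  rw [e7]
  exact mul_le_mul_of_nonneg_right (by linarith) e6

end Pool.Agent.Lib.MP_df705a_gt.Pin
end
end

section

/-!
# Spectral Ricci pinching, S3H2: estimates for the test function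
-/

open scoped Manifold ContDiff Topology
open Set Bundle Module Filter MeasureTheory

noncomputable section

set_option linter.unusedSectionVars false

namespace Pool.Agent.Lib.MP_df705a_gt.Pin

open Pool.Agent.Lib.MP_df705a_gt.Twist Pool.Agent.Lib.MP_df705a_gt.Perm
open Pool.Agent.Lib.MP_df705a_gt.Coll (trM ipM)
open Pool.Agent.Lib.MP_df705a_gt.Coll.T (ddC mat pull RM SmF)

variable {E : Type*} [NormedAddCommGroup E] [NormedSpace ℝ E] [FiniteDimensional ℝ E]
  {h : Curv.Coeff E} {f : Fin (finrank ℝ E) → E → ℝ} {ψ : E → ℝ} {K c : ℝ} {x : E}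
  [MeasurableSpace E] [BorelSpace E]

/-- With `n = finrank ℝ E`: `|d(ab)|² ≤ 2 a² |db|² + 2 b² |da|²`, `a = ψ^(n+2)`, `b = √(G + δ²)`:
`|dφ|² ≤ 2 ψ^(2n+4) n! P^(n-1) H + 2 (n+2)² c² ψ^(2n+2) (G + δ²)`, `G ≤ n! P^n` (`GG_le`). -/
theorem Loc.gradC_tf_le (L : Loc h f ψ K c) {δ : ℝ} (hδ : 0 < δ) (x : E) :
    gradC h (tf h f ψ δ) (tf h f ψ δ) x ≤
      2 * (finrank ℝ E).factorial *
        (ψ x ^ (2 * (finrank ℝ E + 2)) * PP h f x ^ (finrank ℝ E - 1) * HH h f x) +
      2 * (finrank ℝ E + 2 : ℝ) ^ 2 * c ^ 2 * (finrank ℝ E).factorial *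
        (ψ x ^ (2 * (finrank ℝ E + 1)) * PP h f x ^ finrank ℝ E) +
      2 * (finrank ℝ E + 2 : ℝ) ^ 2 * c ^ 2 * δ ^ 2 * ψ x ^ (2 * (finrank ℝ E + 1)) := by
  have hh := L.met
  have hG : ContDiff ℝ ∞ (GG h f) := contDiff_GG hh L.sm
  have hpos : ∀ y, 0 < GG h f y + δ ^ 2 := fun y =>
    add_pos_of_nonneg_of_pos (GG_nonneg hh f y) (pow_pos hδ 2)
  have hb : ContDiff ℝ ∞ fun y => √ (GG h f y + δ ^ 2) :=
    (hG.add contDiff_const).sqrt fun y => (hpos y).ne'
  have ha : ContDiff ℝ ∞ fun y => ψ y ^ (finrank ℝ E + 2) := L.psm.pow _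
  have da : DifferentiableAt ℝ (fun y => ψ y ^ (finrank ℝ E + 2)) x :=
    (ha.differentiable (by simp)) x
  have db : DifferentiableAt ℝ (fun y => √ (GG h f y + δ ^ 2)) x :=
    (hb.differentiable (by simp)) x
  have dψ : DifferentiableAt ℝ ψ x := (L.psm.differentiable (by simp)) x
  have gs := L.gradC_sqrt_le hδ x
  have g1 : gradC h (fun y => ψ y ^ (finrank ℝ E + 2)) (fun y => ψ y ^ (finrank ℝ E + 2)) x =
      (finrank ℝ E + 2 : ℝ) ^ 2 * ψ x ^ (2 * (finrank ℝ E + 1)) * gradC h ψ ψ x := by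
    rw [gradC_pow_left hh dψ, gradC_comm' hh, gradC_pow_left hh dψ]
    push_cast
    ring
  have g2 : gradC h (tf h f ψ δ) (tf h f ψ δ) x =
      (ψ x ^ (finrank ℝ E + 2)) ^ 2 *
        gradC h (fun y => √ (GG h f y + δ ^ 2)) (fun y => √ (GG h f y + δ ^ 2)) x +
      2 * (ψ x ^ (finrank ℝ E + 2) * √ (GG h f x + δ ^ 2) *
        gradC h (fun y => ψ y ^ (finrank ℝ E + 2)) (fun y => √ (GG h f y + δ ^ 2)) x) +
      √ (GG h f x + δ ^ 2) ^ 2 *
        gradC h (fun y => ψ y ^ (finrank ℝ E + 2)) (fun y => ψ y ^ (finrank ℝ E + 2)) x := by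
    have e1 : ∀ w : E → ℝ, gradC h (tf h f ψ δ) w x =
        ψ x ^ (finrank ℝ E + 2) * gradC h (fun y => √ (GG h f y + δ ^ 2)) w x +
          √ (GG h f x + δ ^ 2) * gradC h (fun y => ψ y ^ (finrank ℝ E + 2)) w x :=
      fun w => gradC_mul_left hh da db w
    rw [e1, gradC_comm' hh _ (tf h f ψ δ), gradC_comm' hh _ (tf h f ψ δ), e1, e1,
      gradC_comm' hh (fun y => √ (GG h f y + δ ^ 2)) (fun y => ψ y ^ (finrank ℝ E + 2))]
    ring
  have cs := gradC_sq_le hh (fun y => ψ y ^ (finrank ℝ E + 2))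
    (fun y => √ (GG h f y + δ ^ 2)) x
  have n1 : 0 ≤ gradC h (fun y => ψ y ^ (finrank ℝ E + 2))
    (fun y => ψ y ^ (finrank ℝ E + 2)) x := G4.gradC_nonneg (hh.2 x)
  have n2 : 0 ≤ gradC h (fun y => √ (GG h f y + δ ^ 2))
    (fun y => √ (GG h f y + δ ^ 2)) x := G4.gradC_nonneg (hh.2 x)
  have hsq : √ (GG h f x + δ ^ 2) ^ 2 = GG h f x + δ ^ 2 := Real.sq_sqrt (hpos x).le
  have hGle := GG_le hh f x
  have hP := PP_nonneg hh f x
  have hgr := L.grad x
  have hpa : (ψ x ^ (finrank ℝ E + 2)) ^ 2 = ψ x ^ (2 * (finrank ℝ E + 2)) := by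
    rw [← pow_mul]
    congr 1
    ring
  have key : gradC h (tf h f ψ δ) (tf h f ψ δ) x ≤
      2 * ((ψ x ^ (finrank ℝ E + 2)) ^ 2 *
        gradC h (fun y => √ (GG h f y + δ ^ 2)) (fun y => √ (GG h f y + δ ^ 2)) x) +
      2 * (√ (GG h f x + δ ^ 2) ^ 2 *
        gradC h (fun y => ψ y ^ (finrank ℝ E + 2)) (fun y => ψ y ^ (finrank ℝ E + 2)) x) := by
    rw [g2]
    generalize gradC h (fun y => ψ y ^ (finrank ℝ E + 2))
      (fun y => ψ y ^ (finrank ℝ E + 2)) x = A at *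
    generalize gradC h (fun y => √ (GG h f y + δ ^ 2))
      (fun y => √ (GG h f y + δ ^ 2)) x = B at *
    generalize gradC h (fun y => ψ y ^ (finrank ℝ E + 2))
      (fun y => √ (GG h f y + δ ^ 2)) x = m at *
    generalize ψ x ^ (finrank ℝ E + 2) = a at *
    generalize √ (GG h f x + δ ^ 2) = b at *
    have h1 : (2 * (a * b * m)) ^ 2 ≤ (a ^ 2 * B + b ^ 2 * A) ^ 2 := by
      have h2 : (a * b) ^ 2 * m ^ 2 ≤ (a * b) ^ 2 * (A * B) :=
        mul_le_mul_of_nonneg_left cs (sq_nonneg _)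
      nlinarith [sq_nonneg (a ^ 2 * B - b ^ 2 * A)]
    have h3 : 2 * (a * b * m) ≤ a ^ 2 * B + b ^ 2 * A :=
      (abs_le_of_sq_le_sq' h1 (add_nonneg (mul_nonneg (sq_nonneg _) n2)
        (mul_nonneg (sq_nonneg _) n1))).2
    linarith
  have k1 : (ψ x ^ (finrank ℝ E + 2)) ^ 2 *
      gradC h (fun y => √ (GG h f y + δ ^ 2)) (fun y => √ (GG h f y + δ ^ 2)) x ≤
      ψ x ^ (2 * (finrank ℝ E + 2)) *
        ((finrank ℝ E).factorial * PP h f x ^ (finrank ℝ E - 1) * HH h f x) := by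
    rw [hpa]
    exact mul_le_mul_of_nonneg_left gs (pow_nonneg (L.nonneg x) _)
  have k2 : √ (GG h f x + δ ^ 2) ^ 2 *
      gradC h (fun y => ψ y ^ (finrank ℝ E + 2)) (fun y => ψ y ^ (finrank ℝ E + 2)) x ≤
      ((finrank ℝ E).factorial * PP h f x ^ finrank ℝ E + δ ^ 2) *
        ((finrank ℝ E + 2 : ℝ) ^ 2 * ψ x ^ (2 * (finrank ℝ E + 1)) * c ^ 2) := by
    rw [hsq]
    refine mul_le_mul (by linarith) ?_ n1 ?_
    · rw [g1]
      exact mul_le_mul_of_nonneg_left hgr (mul_nonneg (sq_nonneg _) (pow_nonneg (L.nonneg x) _))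
    · exact add_nonneg (mul_nonneg (Nat.cast_nonneg _) (pow_nonneg hP _)) (sq_nonneg _)
  calc gradC h (tf h f ψ δ) (tf h f ψ δ) x ≤ _ := key
    _ ≤ 2 * (ψ x ^ (2 * (finrank ℝ E + 2)) *
        ((finrank ℝ E).factorial * PP h f x ^ (finrank ℝ E - 1) * HH h f x)) +
        2 * (((finrank ℝ E).factorial * PP h f x ^ finrank ℝ E + δ ^ 2) *
        ((finrank ℝ E + 2 : ℝ) ^ 2 * ψ x ^ (2 * (finrank ℝ E + 1)) * c ^ 2)) := by linarith
    _ = _ := by ring

/-- `scal φ² ≤ ψ^(2n+4) n! P^(n-1) (R + P) + δ² ψ^(2n+4) scal` (`GG_scal_le` where `ψ ≠ 0`). -/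
theorem Loc.scal_tf_le (L : Loc h f ψ K c) (δ : ℝ) (x : E) :
    Curv.scal h x * tf h f ψ δ x ^ 2 ≤ (finrank ℝ E).factorial *
      (ψ x ^ (2 * (finrank ℝ E + 2)) * PP h f x ^ (finrank ℝ E - 1) *
        (RR h f x + PP h f x)) + δ ^ 2 * (ψ x ^ (2 * (finrank ℝ E + 2)) * Curv.scal h x) := by
  rw [L.tf_sq]
  by_cases hψ : ψ x = 0
  · have h0 : ψ x ^ (2 * (finrank ℝ E + 2)) = 0 := by
      rw [hψ]
      exact zero_pow (by omega)
    rw [h0]
    simp
  · have h1 := GG_scal_le L.met L.sm (L.ric x hψ)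
    have h2 := mul_le_mul_of_nonneg_left h1 (pow_nonneg (L.nonneg x) (2 * (finrank ℝ E + 2)))
    calc Curv.scal h x * (ψ x ^ (2 * (finrank ℝ E + 2)) * (GG h f x + δ ^ 2))
        = ψ x ^ (2 * (finrank ℝ E + 2)) * (GG h f x * Curv.scal h x) +
          δ ^ 2 * (ψ x ^ (2 * (finrank ℝ E + 2)) * Curv.scal h x) := by ring
      _ ≤ ψ x ^ (2 * (finrank ℝ E + 2)) * ((finrank ℝ E).factorial *
          PP h f x ^ (finrank ℝ E - 1) * (RR h f x + PP h f x)) +
          δ ^ 2 * (ψ x ^ (2 * (finrank ℝ E + 2)) * Curv.scal h x) := by linarith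
      _ = _ := by ring

end Pool.Agent.Lib.MP_df705a_gt.Pin
end
end

section

/-!
# Spectral Ricci pinching, S3I3: the area formula
-/

open scoped Manifold ContDiff Topology
open Set Bundle Module Filter MeasureTheory

noncomputable section

set_option linter.unusedSectionVars false

namespace Pool.Agent.Lib.MP_df705a_gt.Pin

open Pool.Agent.Lib.MP_df705a_gt.Twist Pool.Agent.Lib.MP_df705a_gt.Perm
open Pool.Agent.Lib.MP_df705a_gt.Coll (trM ipM)
open Pool.Agent.Lib.MP_df705a_gt.Coll.T (ddC mat pull RM SmF)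

variable {E : Type*} [NormedAddCommGroup E] [NormedSpace ℝ E] [FiniteDimensional ℝ E]
  {h : Curv.Coeff E} {f : Fin (finrank ℝ E) → E → ℝ}
  [MeasurableSpace E] [BorelSpace E]

/-- `MeasureTheory.addHaar_image_le_lintegral_abs_det_fderiv` for `Fmap f`, and
`|det Fm| = √G √ det h` (`GG_eq`); `vol h = addHaar.withDensity √ det h`
(`setLIntegral_withDensity_eq_setLIntegral_mul`). -/
theorem volume_image_le (hh : Curv.IsMetric h) (hf : ∀ i, ContDiff ℝ ∞ (f i)) {B : Set E}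
    (hB : IsCompact B) :
    volume ((fun (y : E) (i : Fin (finrank ℝ E)) => f i y) '' B) ≤
      ∫⁻ x in B, ENNReal.ofReal (√ (GG h f x)) ∂(vol h) := by
  rw [volume_image_eq hf hB]
  have h1 : (finBasis ℝ E).addHaar (Fmap f '' B) ≤
      ∫⁻ x in B, ENNReal.ofReal |(fderiv ℝ (Fmap f) x).det| ∂(finBasis ℝ E).addHaar :=
    addHaar_image_le_lintegral_abs_det_fderiv _ hB.measurableSet fun x _ =>
      (det_fderiv_Fmap hf x).1.hasFDerivAt.hasFDerivWithinAt
  refine h1.trans ?_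
  have hm1 : Measurable fun x : E => ENNReal.ofReal (√ (h x).det) :=
    ENNReal.measurable_ofReal.comp (Real.continuous_sqrt.measurable.comp (measurable_det hh))
  have hm2 : Measurable fun x : E => ENNReal.ofReal (√ (GG h f x)) :=
    ENNReal.measurable_ofReal.comp
      (Real.continuous_sqrt.measurable.comp (contDiff_GG hh hf).continuous.measurable)
  unfold vol
  rw [setLIntegral_withDensity_eq_setLIntegral_mul _ hm1 hm2 hB.measurableSet]
  refine le_of_eq (lintegral_congr fun x => ?_)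
  rw [Pi.mul_apply, (det_fderiv_Fmap hf x).2, ← ENNReal.ofReal_mul (Real.sqrt_nonneg _),
    ← Real.sqrt_mul (hh.2 x).det_pos.le, GG_eq hh,
    mul_div_cancel₀ _ (hh.2 x).det_pos.ne', Real.sqrt_sq_eq_abs]

end Pool.Agent.Lib.MP_df705a_gt.Pin
end
end

section

/-!
# Spectral Ricci pinching, S3J1: dimension zero, volume of balls
-/

open scoped Manifold ContDiff Topology
open Set Bundle Module Filter MeasureTheory

noncomputable section

set_option linter.unusedSectionVars false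

namespace Pool.Agent.Lib.MP_df705a_gt.Pin

open Pool.Agent.Lib.MP_df705a_gt.Pin.A

open Pool.Agent.Lib.MP_df705a_gt.Twist Pool.Agent.Lib.MP_df705a_gt.Perm
open Pool.Agent.Lib.MP_df705a_gt.Coll (trM ipM)
open Pool.Agent.Lib.MP_df705a_gt.Coll.T (ddC mat pull RM SmF)

variable {E : Type*} [NormedAddCommGroup E] [NormedSpace ℝ E] [FiniteDimensional ℝ E]
  {h : Curv.Coeff E}
  [MeasurableSpace E] [BorelSpace E]

/-- In dimension zero the Laplacian and the scalar curvature vanish (empty sums). -/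
theorem lapC_eq_zero_of_finrank (hE : finrank ℝ E = 0) (h : Curv.Coeff E) (w : E → ℝ) (x : E) :
    lapC h w x = 0 ∧ Curv.scal h x = 0 := by
  have hem : IsEmpty (Fin (finrank ℝ E)) := by rw [hE]; exact Fin.isEmpty
  unfold lapC Curv.scal
  exact ⟨Finset.sum_eq_zero fun i _ => (hem.false i).elim,
    Finset.sum_eq_zero fun i _ => (hem.false i).elim⟩

/-- The volume of the balls of radius `5`: `exists_exp`, `vol_ball_le` (`om_lt_top`). -/
theorem exists_vol_le (E : Type*) [NormedAddCommGroup E] [NormedSpace ℝ E] [FiniteDimensional ℝ E]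
    [MeasurableSpace E] [BorelSpace E] : ∃ V : ℝ, 0 < V ∧ ∀ h : Curv.Coeff E, Curv.IsMetric h →
      Proper h → ∀ p : E, (∀ y, dh h p y ≤ 5 → RicGeAt h 1 y) →
      (vol h {y | dh h p y ≤ 4}).toReal ≤ V := by
  set c : ENNReal := ENNReal.ofReal (Real.exp (1 * 5 ^ 2 / 6) * 5 ^ finrank ℝ E) * om E with hc
  have hctop : c < ⊤ := ENNReal.mul_lt_top ENNReal.ofReal_lt_top om_lt_top
  refine ⟨c.toReal + 1, by positivity, ?_⟩
  intro h hm hP p hric
  obtain ⟨Ex, hE⟩ := exists_exp hm hP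
  have h1 : vol h (ballh h p 5) ≤ c := vol_ball_le hm hP hE p zero_le_one (by norm_num) hric
  have h2 : vol h {y | dh h p y ≤ 4} ≤ vol h (ballh h p 5) := by
    refine measure_mono fun y hy => ?_
    have hy' : dh h p y ≤ 4 := hy
    have h5 : dh h p y < 5 := by linarith
    exact h5
  have h3 := ENNReal.toReal_mono hctop.ne (h2.trans h1)
  linarith

end Pool.Agent.Lib.MP_df705a_gt.Pin
end
end

section

/-!
# TASK GE3: Ricci bounds for the pulled back metric
-/

open scoped Manifold ContDiff Topology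
open Set Bundle Module Filter MeasureTheory

noncomputable section

namespace Pool.Agent.Lib.MP_df705a_gt.Pin

open Pool.Agent.Lib.MP_df705a_gt.Twist Pool.Agent.Lib.MP_df705a_gt.Twist.Alg
open Pool.Agent.Lib.MP_df705a_gt.Perm
open Pool.Agent.Lib.MP_df705a_gt.Circ (cf Para)
open Pool.Agent.Lib.MP_df705a_gt.Coll (Met)
open Pool.Agent.Lib.MP_df705a_gt.Coll.T (mat)

variable {E' : Type*} [NormedAddCommGroup E'] [NormedSpace ℝ E'] [FiniteDimensional ℝ E']
  {E : Type*} [NormedAddCommGroup E] [NormedSpace ℝ E] [FiniteDimensional ℝ E]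
  {F : Type*} [NormedAddCommGroup F] [InnerProductSpace ℝ F] [FiniteDimensional ℝ F]
  {M : Type*} [TopologicalSpace M] [ChartedSpace E M] [IsManifold 𝓘(ℝ, E) ∞ M]
  {q : E' → M} {s : E' → F}

private theorem GE3_mkB {n n' : ℕ} {V : Type*} [AddCommGroup V] [Module ℝ V]
    (b : Basis (Fin n) ℝ V) (A : Matrix (Fin n) (Fin n) ℝ) (Q : Matrix (Fin n) (Fin n') ℝ)
    (v : Fin n' → V) (hQ : ∀ a j, Q a j = b.repr (v j) a) (j k : Fin n') :
    mkB b (fun i l => A i l) (v j) (v k) = (Q.transpose * A * Q) j k := by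
  rw [mkB_apply, Matrix.mul_apply]
  simp only [Matrix.mul_apply, Matrix.transpose_apply, Finset.sum_mul, hQ]
  rw [Finset.sum_comm]
  refine Finset.sum_congr rfl fun a _ => Finset.sum_congr rfl fun c _ => ?_
  ring

private theorem GE3_mats (g : Met E M) (H : StableCover E q s) (y : E') :
    ∃ (Q : Matrix (Fin (finrank ℝ E)) (Fin (finrank ℝ E')) ℝ)
      (S : Matrix (Fin (finrank ℝ F)) (Fin (finrank ℝ E')) ℝ)
      (R : Matrix (Fin (finrank ℝ E')) (Fin (finrank ℝ E)) ℝ),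
      Q * R = 1 ∧ S * R = 0 ∧
      st g q s y = Q.transpose * coeff g (q y) (extChartAt 𝓘(ℝ, E) (q y) (q y)) * Q +
        S.transpose * S ∧
      ric (st g q s) y =
        Q.transpose * ric (coeff g (q y)) (extChartAt 𝓘(ℝ, E) (q y) (q y)) * Q := by
  obtain ⟨L, hL⟩ : ∃ L : E' →L[ℝ] E, L = fderiv ℝ (tq E q y) y := ⟨_, rfl⟩
  have hLq : ∀ v : E', (mfderiv 𝓘(ℝ, E') 𝓘(ℝ, E) q y : E' →L[ℝ] E) v = L v := fun v => by
    rw [hL]
    exact mfderiv_eq_tq H.smooth_q y v
  have hbij : Function.Bijective fun v : E' => (L v, fderiv ℝ s y v) := by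
    have h1 := H.bij y
    have h2 : (fun v : E' => (L v, fderiv ℝ s y v)) = fun v : E' =>
        ((mfderiv 𝓘(ℝ, E') 𝓘(ℝ, E) q y v : E), fderiv ℝ s y v) := by
      funext v
      rw [← hLq v]
      rfl
    rw [h2]
    exact h1
  let φ := stdOrthonormalBasis ℝ F
  have hlift : ∀ a : Fin (finrank ℝ E), ∃ v : E', L v = finBasis ℝ E a ∧ fderiv ℝ s y v = 0 := by
    intro a
    obtain ⟨v, hv⟩ := hbij.2 (finBasis ℝ E a, 0)
    exact ⟨v, congrArg Prod.fst hv, congrArg Prod.snd hv⟩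
  choose v hv1 hv2 using hlift
  have hsum : ∀ w : E', ∑ k, (finBasis ℝ E').repr w k • finBasis ℝ E' k = w := fun w =>
    (finBasis ℝ E').sum_repr w
  refine ⟨Matrix.of fun a j => (finBasis ℝ E).repr (L (finBasis ℝ E' j)) a,
    Matrix.of fun a j => inner ℝ (φ a) (fderiv ℝ s y (finBasis ℝ E' j)),
    Matrix.of fun k a => (finBasis ℝ E').repr (v a) k, ?_, ?_, ?_, ?_⟩
  · ext a c
    rw [Matrix.mul_apply]
    simp only [Matrix.of_apply]
    have h1 : L (v c) = ∑ k, (finBasis ℝ E').repr (v c) k • L (finBasis ℝ E' k) := by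
      conv_lhs => rw [← hsum (v c)]
      rw [map_sum]
      exact Finset.sum_congr rfl fun k _ => L.map_smul _ _
    have h2 : (finBasis ℝ E).repr (L (v c)) a =
        ∑ k, (finBasis ℝ E').repr (v c) k * (finBasis ℝ E).repr (L (finBasis ℝ E' k)) a := by
      rw [h1, map_sum, Finsupp.finsetSum_apply]
      refine Finset.sum_congr rfl fun k _ => ?_
      rw [map_smul, Finsupp.smul_apply, smul_eq_mul]
    rw [hv1, Basis.repr_self, Finsupp.single_apply] at h2
    rw [Matrix.one_apply]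
    have h3 : (if a = c then (1 : ℝ) else 0) = if c = a then 1 else 0 := by
      simp only [eq_comm]
    rw [h3, h2]
    exact Finset.sum_congr rfl fun k _ => mul_comm _ _
  · ext a c
    rw [Matrix.mul_apply, Matrix.zero_apply]
    simp only [Matrix.of_apply]
    have h1 : fderiv ℝ s y (v c) =
        ∑ k, (finBasis ℝ E').repr (v c) k • fderiv ℝ s y (finBasis ℝ E' k) := by
      conv_lhs => rw [← hsum (v c)]
      rw [map_sum]
      exact Finset.sum_congr rfl fun k _ => (fderiv ℝ s y).map_smul _ _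
    have h2 : inner ℝ (φ a) (fderiv ℝ s y (v c)) =
        ∑ k, (finBasis ℝ E').repr (v c) k * inner ℝ (φ a) (fderiv ℝ s y (finBasis ℝ E' k)) := by
      rw [h1, inner_sum]
      exact Finset.sum_congr rfl fun k _ => real_inner_smul_right _ _ _
    rw [hv2, inner_zero_right] at h2
    rw [h2]
    exact Finset.sum_congr rfl fun k _ => mul_comm _ _
  · ext j k
    have h1 := (st_law g H.smooth_q s y).self_of_nhds j k
    rw [← hL] at h1
    rw [h1, Matrix.add_apply]
    congr 1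
    · exact GE3_mkB (finBasis ℝ E) _ _ (fun j => L (finBasis ℝ E' j)) (fun _ _ => rfl) j k
    · rw [Matrix.mul_apply]
      simp only [Matrix.transpose_apply, Matrix.of_apply]
      rw [← φ.sum_inner_mul_inner]
      refine Finset.sum_congr rfl fun a _ => ?_
      rw [real_inner_comm]
  · ext j k
    rw [ric_st g H y j k]
    have h1 := GE3_mkB (finBasis ℝ E) (ric (coeff g (q y)) (extChartAt 𝓘(ℝ, E) (q y) (q y)))
      (Matrix.of fun a j => (finBasis ℝ E).repr (L (finBasis ℝ E' j)) a)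
      (fun j => L (finBasis ℝ E' j)) (fun _ _ => rfl) j k
    rw [← h1]
    unfold ricB
    change mkB (finBasis ℝ E) _ ((mfderiv 𝓘(ℝ, E') 𝓘(ℝ, E) q y : E' →L[ℝ] E) (finBasis ℝ E' j))
      ((mfderiv 𝓘(ℝ, E') 𝓘(ℝ, E) q y : E' →L[ℝ] E) (finBasis ℝ E' k)) = _
    rw [hLq, hLq]

/-- For a vector `c` let `v = ∑ c j b j`; then `c ⬝ (ric + κ st) c` is the value of
`Ric_g + κ g` on `D q v` plus `κ |Ds v|²`. -/
theorem ricGe_st (g : Met E M) (H : StableCover E q s) {κ : ℝ} (hκ : 0 ≤ κ) {y : E'}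
    (hr : MRicGe g κ (q y)) : RicGeAt (st g q s) κ y := by
  obtain ⟨Q, S, R, -, -, hst, hric⟩ := GE3_mats g H y
  unfold MRicGe RicGeAt at hr
  unfold RicGeAt
  have h1 : ric (st g q s) y + κ • st g q s y =
      Q.transpose * (ric (coeff g (q y)) (extChartAt 𝓘(ℝ, E) (q y) (q y)) +
        κ • coeff g (q y) (extChartAt 𝓘(ℝ, E) (q y) (q y))) * Q + κ • (S.transpose * S) := by
    rw [hst, hric, smul_add, Matrix.mul_add, Matrix.add_mul, Matrix.mul_smul, Matrix.smul_mul,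
      add_assoc]
  rw [h1]
  have h2 := hr.conjTranspose_mul_mul_same Q
  have h3 := (Matrix.posSemidef_conjTranspose_mul_self S).smul hκ
  rw [Matrix.conjTranspose_eq_transpose_of_trivial] at h2 h3
  exact h2.add h3

/-- Every vector `w` of `E` is `D q v` for a `v` with `D s v = 0`. -/
theorem ricLe_st (g : Met E M) (H : StableCover E q s) {κ : ℝ} {y : E'}
    (hr : RicLeAt (st g q s) κ y) : MRicLe g κ (q y) := by
  obtain ⟨Q, S, R, hQR, hSR, hst, hric⟩ := GE3_mats g H y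
  unfold RicLeAt at hr
  unfold MRicLe RicLeAt
  have h2 := hr.conjTranspose_mul_mul_same R
  rw [Matrix.conjTranspose_eq_transpose_of_trivial] at h2
  have hRQ : R.transpose * Q.transpose = 1 := by
    rw [← Matrix.transpose_mul, hQR, Matrix.transpose_one]
  have h3 : ∀ A : Matrix (Fin (finrank ℝ E)) (Fin (finrank ℝ E)) ℝ,
      R.transpose * (Q.transpose * A * Q) * R = A := by
    intro A
    calc R.transpose * (Q.transpose * A * Q) * R =
          (R.transpose * Q.transpose) * A * (Q * R) := by simp only [Matrix.mul_assoc]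
      _ = A := by rw [hRQ, hQR, Matrix.one_mul, Matrix.mul_one]
  have h4 : R.transpose * (S.transpose * S) * R = 0 := by
    calc R.transpose * (S.transpose * S) * R = (R.transpose * S.transpose) * (S * R) := by
          simp only [Matrix.mul_assoc]
      _ = 0 := by rw [hSR, Matrix.mul_zero]
  have h5 : R.transpose * (κ • st g q s y - ric (st g q s) y) * R =
      κ • coeff g (q y) (extChartAt 𝓘(ℝ, E) (q y) (q y)) -
        ric (coeff g (q y)) (extChartAt 𝓘(ℝ, E) (q y) (q y)) := by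
    rw [hst, hric, Matrix.mul_sub, Matrix.sub_mul, Matrix.mul_smul, Matrix.smul_mul,
      Matrix.mul_add, Matrix.add_mul, h3, h3, h4, add_zero]
  rw [h5] at h2
  exact h2

end Pool.Agent.Lib.MP_df705a_gt.Pin
end
end

section

/-!
# TASK GL: functions on the covering
-/

open scoped Manifold ContDiff Topology
open Set Bundle Module Filter MeasureTheory

noncomputable section

namespace Pool.Agent.Lib.MP_df705a_gt.Pin

open Pool.Agent.Lib.MP_df705a_gt.Perm
open Pool.Agent.Lib.MP_df705a_gt.Coll (Met)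

variable {E' : Type*} [NormedAddCommGroup E'] [NormedSpace ℝ E'] [FiniteDimensional ℝ E']
  {E : Type*} [NormedAddCommGroup E] [NormedSpace ℝ E] [FiniteDimensional ℝ E]
  {F : Type*} [NormedAddCommGroup F] [InnerProductSpace ℝ F] [FiniteDimensional ℝ F]
  {M : Type*} [TopologicalSpace M] [ChartedSpace E M] [IsManifold 𝓘(ℝ, E) ∞ M]
  {q : E' → M} {s : E' → F}

theorem contDiff_comp_q (H : StableCover E q s) {ρ : M → ℝ}
    (hρ : ContMDiff 𝓘(ℝ, E) 𝓘(ℝ, ℝ) 1 ρ) : ContDiff ℝ 1 (ρ ∘ q) :=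
  (hρ.comp (H.smooth_q.of_le (by norm_num))).contDiff

theorem contDiff_comp_q' (H : StableCover E q s) {u : M → ℝ} (hu : Sm E u) :
    ContDiff ℝ ∞ (u ∘ q) :=
  (ContMDiff.comp hu H.smooth_q).contDiff

/-- The chain rule and `ip_st` (`0 ≤ |Ds v|²`). -/
theorem fderiv_comp_q_le (g : Met E M) (H : StableCover E q s) {ρ : M → ℝ}
    (hρ : ContMDiff 𝓘(ℝ, E) 𝓘(ℝ, ℝ) 1 ρ)
    (hg : GradLeOne g ρ) (y u : E') :
    (fderiv ℝ (ρ ∘ q) y u) ^ 2 ≤ Curv.ip (st g q s) y u u := by
  have h1 : MDifferentiableAt 𝓘(ℝ, E) 𝓘(ℝ, ℝ) ρ (q y) := (hρ.mdifferentiable (by norm_num)) (q y)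
  have h2 : MDifferentiableAt 𝓘(ℝ, E') 𝓘(ℝ, E) q y := (H.smooth_q.mdifferentiable (by norm_num)) y
  have h3 := mfderiv_comp y h1 h2
  have h4 : (fderiv ℝ (ρ ∘ q) y u) = (mfderiv 𝓘(ℝ, E) 𝓘(ℝ, ℝ) ρ (q y) : E →L[ℝ] ℝ)
      ((mfderiv 𝓘(ℝ, E') 𝓘(ℝ, E) q y : E' →L[ℝ] E) u) := by
    rw [← mfderiv_eq_fderiv, h3]
    rfl
  rw [h4, ip_st]
  have h5 := hg (q y) (mfderiv 𝓘(ℝ, E') 𝓘(ℝ, E) q y u)
  have h6 : (0 : ℝ) ≤ inner ℝ (fderiv ℝ s y u) (fderiv ℝ s y u) := real_inner_self_nonneg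
  exact h5.trans (le_add_of_nonneg_right h6)

open scoped MatrixOrder in
private lemma trace_mul_nonneg' {n : ℕ} {A B : Matrix (Fin n) (Fin n) ℝ} (hA : A.PosSemidef)
    (hB : B.PosSemidef) : 0 ≤ (A * B).trace := by
  obtain ⟨C, hC⟩ : ∃ C : Matrix (Fin n) (Fin n) ℝ, A = C.conjTranspose * C :=
    CStarAlgebra.nonneg_iff_eq_star_mul_self.1 hA.nonneg
  rw [hC, Matrix.mul_assoc, Matrix.trace_mul_comm]
  exact (hB.mul_mul_conjTranspose_same C).trace_nonneg

/-- If `Ric ≤ κ` at `x` then the scalar curvature is at most `n κ`: it is the trace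
`∑ h^{jk} ric_jk` and the trace of the product of the positive semidefinite matrices `h⁻¹` and
`κ h - ric` is nonnegative. -/
theorem scal_le_of_ricLe {h : Curv.Coeff E} {x : E} (hpos : (h x).PosDef) {κ : ℝ}
    (hr : RicLeAt h κ x) : Curv.scal h x ≤ finrank ℝ E * κ := by
  have h1 : 0 ≤ ((h x)⁻¹ * (κ • h x - ric h x)).trace :=
    trace_mul_nonneg' hpos.inv.posSemidef hr
  have hdet : IsUnit (h x).det := (Matrix.isUnit_iff_isUnit_det _).1 hpos.isUnit
  rw [Matrix.mul_sub, Matrix.trace_sub, Matrix.mul_smul, Matrix.nonsing_inv_mul _ hdet,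
    Matrix.trace_smul, Matrix.trace_one, Fintype.card_fin, smul_eq_mul] at h1
  have hsym : ((h x)⁻¹).IsHermitian := hpos.inv.isHermitian
  have h2 : Curv.scal h x = ((h x)⁻¹ * ric h x).trace := by
    unfold Curv.scal Matrix.trace
    simp only [Matrix.diag_apply, Matrix.mul_apply, ric]
    -- ∑ j, ∑ k, h⁻¹ j k * ∑ i, ∑ l, h⁻¹ i l * R i k j l ... symmetric
    have h3 : ∀ j k, (h x)⁻¹ j k = (h x)⁻¹ k j := by
      intro j k
      have := hsym.apply j k
      simpa using this.symm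
    rw [Finset.sum_comm]
    rw [Finset.sum_congr rfl (fun j _ => Finset.sum_comm)]
    rw [Finset.sum_comm]
    apply Finset.sum_congr rfl
    intro k _
    apply Finset.sum_congr rfl
    intro j _
    rw [Finset.mul_sum]
    apply Finset.sum_congr rfl
    intro i _
    rw [Finset.mul_sum]
    apply Finset.sum_congr rfl
    intro l _
    rw [h3 k j]
    ring
  rw [h2]
  linarith

end Pool.Agent.Lib.MP_df705a_gt.Pin
end
end

section

/-!
# Finitely many components of the preimage: the image of the fundamental group has finite index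
-/

open scoped Manifold ContDiff Topology unitInterval
open Set Bundle Module Filter MeasureTheory

noncomputable section

namespace Pool.Agent.Lib.MP_df705a_gt.Pin

/-- A subgroup with the following property has finite index. -/
theorem finiteIndex_of_map {G α : Type*} [Group G] (H : Subgroup G) (f : G → α) {S : Set α}
    (hS : S.Finite) (hf : ∀ g, f g ∈ S) (hH : ∀ g₁ g₂, f g₁ = f g₂ → g₁⁻¹ * g₂ ∈ H) :
    H.FiniteIndex := by
  have : Finite S := hS.to_subtype
  have hfin : Finite (G ⧸ H) := by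
    refine Finite.of_injective (fun a : G ⧸ H => (⟨f a.out, hf _⟩ : S)) ?_
    intro a b hab
    have h1 : f a.out = f b.out := congrArg Subtype.val hab
    have h2 := hH _ _ h1
    rw [← QuotientGroup.eq] at h2
    rwa [QuotientGroup.out_eq', QuotientGroup.out_eq'] at h2
  exact Subgroup.finiteIndex_of_finite_quotient

variable {E' : Type*} [NormedAddCommGroup E'] [NormedSpace ℝ E'] [FiniteDimensional ℝ E']
  {E : Type*} [NormedAddCommGroup E] [NormedSpace ℝ E] [FiniteDimensional ℝ E]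
  {F : Type*} [NormedAddCommGroup F] [InnerProductSpace ℝ F] [FiniteDimensional ℝ F]
  {M : Type*} [TopologicalSpace M] [ChartedSpace E M] [IsManifold 𝓘(ℝ, E) ∞ M]
  {q : E' → M} {s : E' → F}

/-- A path in `M` lifts to a path in `E'`. -/
theorem exists_path_lift (H : StableCover E q s) {x : M} (γ : Path x x) {y : E'} (hy : q y = x) :
    ∃ (e : E') (Γ : Path y e), q e = x ∧ ∀ t, q (Γ t) = γ t := by
  obtain ⟨Γ, hΓ, hΓ0⟩ := H.cov.exists_path_lifts
    (⟨fun t => (γ t, s y), γ.continuous.prodMk continuous_const⟩ : C(I, M × F)) y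
    (by
      show (γ 0, s y) = (q y, s y)
      rw [γ.source, hy])
  have h1 : ∀ t, q (Γ t) = γ t := fun t => congrArg Prod.fst (congrFun hΓ t)
  exact ⟨Γ 1, ⟨Γ, hΓ0, rfl⟩, by rw [h1, γ.target], h1⟩

/-- Two points of a component of an open set are joined by a path in the open set. -/
theorem joinedIn_of_component {U : Set E'} (hU : IsOpen U) {a b : E'}
    (hb : b ∈ connectedComponentIn U a) : JoinedIn U a b := by
  have ha : a ∈ U := connectedComponentIn_nonempty_iff.1 ⟨b, hb⟩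
  have h1 : IsConnected (connectedComponentIn U a) :=
    ⟨⟨a, mem_connectedComponentIn ha⟩, isPreconnected_connectedComponentIn⟩
  have h2 : IsPathConnected (connectedComponentIn U a) :=
    (hU.connectedComponentIn.isConnected_iff_isPathConnected).1 h1
  exact (h2.joinedIn a (mem_connectedComponentIn ha) b hb).mono (connectedComponentIn_subset U a)

/-- Finitely many components of the preimage: finite index. -/
theorem finiteIndex_of_finite (H : StableCover E q s) {V : Set M} (hV : IsOpen V) (x : V)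
    (hfin : {C : Set E' | ∃ y ∈ q ⁻¹' V, C = connectedComponentIn (q ⁻¹' V) y}.Finite) :
    (FundamentalGroup.map (⟨Subtype.val, continuous_subtype_val⟩ : C(V, M)) x).range.FiniteIndex := by
  have hqc : Continuous q := H.smooth_q.continuous
  have hUo : IsOpen (q ⁻¹' V) := hV.preimage hqc
  have hcontr : ContractibleSpace E' := RealTopologicalVectorSpace.contractibleSpace
  obtain ⟨y, hy⟩ := H.surj ((x : M), 0)
  have hyx : q y = x := congrArg Prod.fst hy
  have hrep : ∀ g : FundamentalGroup M (x : M), ∃ (γ : Path (x : M) x) (e : E') (Γ : Path y e),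
      q e = x ∧ (∀ t, q (Γ t) = γ t) ∧ FundamentalGroup.fromPath ⟦γ⟧ = g := by
    intro g
    obtain ⟨γ, hγ⟩ := Quotient.exists_rep (FundamentalGroup.toPath g)
    obtain ⟨e, Γ, h1, h2⟩ := exists_path_lift H γ hyx
    exact ⟨γ, e, Γ, h1, h2, hγ⟩
  choose γ e Γ he hΓ hg using hrep
  refine finiteIndex_of_map _ (fun g => connectedComponentIn (q ⁻¹' V) (e g⁻¹)) hfin
    (fun g => ⟨e g⁻¹, by
      show q (e g⁻¹) ∈ V
      rw [he]
      exact x.2, rfl⟩) ?_
  intro g₁ g₂ h12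
  -- it suffices to treat `g₂⁻¹ * g₁⁻¹⁻¹`
  suffices hmain : ∀ a b : FundamentalGroup M (x : M),
      connectedComponentIn (q ⁻¹' V) (e a) = connectedComponentIn (q ⁻¹' V) (e b) →
      a * b⁻¹ ∈ (FundamentalGroup.map (⟨Subtype.val, continuous_subtype_val⟩ : C(V, M)) x).range by
    have h1 := hmain g₁⁻¹ g₂⁻¹ h12
    rwa [inv_inv] at h1
  intro a b hab
  have heV : ∀ g, e g ∈ q ⁻¹' V := by
    intro g
    show q (e g) ∈ V
    rw [he]
    exact x.2
  have hmem : e a ∈ connectedComponentIn (q ⁻¹' V) (e b) := by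
    rw [← hab]
    exact mem_connectedComponentIn (heV a)
  have hj := joinedIn_of_component hUo hmem
  -- the path from `e b` to `e a` in the preimage of `V`
  let c : Path (e b) (e a) := hj.somePath
  have hc : ∀ t, c t ∈ q ⁻¹' V := hj.somePath_mem
  have hhom : ((Γ b).trans c).Homotopic (Γ a) := SimplyConnectedSpace.paths_homotopic _ _
  let c' : Path x x :=
    { toFun := fun t => ⟨q (c t), hc t⟩
      continuous_toFun := (hqc.comp c.continuous).subtype_mk _
      source' := Subtype.ext (by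
        show q (c 0) = x
        rw [c.source, he])
      target' := Subtype.ext (by
        show q (c 1) = x
        rw [c.target, he]) }
  refine ⟨FundamentalGroup.fromPath ⟦c'⟧, ?_⟩
  rw [eq_mul_inv_iff_mul_eq]
  -- `[c'] * b = a`, that is, `b` followed by `c'` is homotopic to `a`
  have h1 : ((γ b).trans (c'.map continuous_subtype_val)).Homotopic (γ a) := by
    have h2 := hhom.map ⟨q, hqc⟩
    have h3 : ((γ b).trans (c'.map continuous_subtype_val)) =
        (((Γ b).trans c).map hqc).cast hyx.symm (he a).symm := by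
      ext t
      rw [Path.cast_coe, Path.map_trans]
      rw [Path.trans_apply, Path.trans_apply]
      split_ifs with ht
      · exact (hΓ b _).symm
      · rfl
    have h4 : γ a = ((Γ a).map hqc).cast hyx.symm (he a).symm := by
      ext t
      exact (hΓ a t).symm
    rw [h3, h4]
    obtain ⟨K⟩ := h2
    exact ⟨K.cast (by ext t; rfl) (by ext t; rfl)⟩
  rw [← hg a, ← hg b]
  rw [FundamentalGroup.mul_def]
  have h5 : FundamentalGroup.map (⟨Subtype.val, continuous_subtype_val⟩ : C(V, M)) x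
      (FundamentalGroup.fromPath ⟦c'⟧) =
      FundamentalGroup.fromPath ⟦c'.map continuous_subtype_val⟧ := rfl
  rw [h5]
  exact Quotient.sound h1

end Pool.Agent.Lib.MP_df705a_gt.Pin
end
end

section

/-!
# Components of the preimage of an open set: finitely many, or none is coarsely dense
-/

open scoped Manifold ContDiff Topology
open Set Bundle Module Filter MeasureTheory

noncomputable section

namespace Pool.Agent.Lib.MP_df705a_gt.Pin

open Pool.Agent.Lib.MP_df705a_gt.Coll (Met)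

section abstract

variable {X M : Type*} [TopologicalSpace X] [TopologicalSpace M] {q : X → M}
  {W V : Set M}

/-- The components of `q⁻¹ V` are components of `q⁻¹ W` if `V` is a component of `W`. -/
theorem comp_preimage (hqc : Continuous q) {m : M} {y : X}
    (hy : q y ∈ connectedComponentIn W m) :
    connectedComponentIn (q ⁻¹' connectedComponentIn W m) y = connectedComponentIn (q ⁻¹' W) y := by
  apply Subset.antisymm
  · exact connectedComponentIn_mono y (preimage_mono (connectedComponentIn_subset W m))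
  · have hyW : y ∈ q ⁻¹' W := connectedComponentIn_subset W m hy
    refine isPreconnected_connectedComponentIn.subset_connectedComponentIn
      (mem_connectedComponentIn hyW) ?_
    rw [← image_subset_iff, connectedComponentIn_eq hy]
    refine (isPreconnected_connectedComponentIn.image q hqc.continuousOn).subset_connectedComponentIn
      (mem_image_of_mem q (mem_connectedComponentIn hyW)) ?_
    rintro _ ⟨z, hz, rfl⟩
    have h1 : z ∈ q ⁻¹' W := connectedComponentIn_subset (q ⁻¹' W) y hz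
    exact h1

theorem comp_image (γ : X ≃ₜ X) (hγ : ∀ w, q (γ w) = q w) {y : X} (hy : y ∈ q ⁻¹' W) :
    γ '' connectedComponentIn (q ⁻¹' W) y = connectedComponentIn (q ⁻¹' W) (γ y) := by
  rw [γ.image_connectedComponentIn hy]
  congr 1
  ext z
  constructor
  · rintro ⟨w, hw, rfl⟩
    show q (γ w) ∈ W
    rw [hγ]
    exact hw
  · intro hz
    refine ⟨γ.symm z, ?_, γ.apply_symm_apply z⟩
    show q (γ.symm z) ∈ W
    rw [← hγ, γ.apply_symm_apply]
    exact hz

/-- **Components and coarse density.** -/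
theorem sparse_of_infinite [LocallyConnectedSpace X] (hqc : Continuous q) (hqo : IsOpenMap q)
    (hqs : Function.Surjective q) {d : X → X → ℝ} (hp : ∀ x r, IsCompact {y | d x y ≤ r})
    (deck : ∀ x z, q z = q x → ∃ γ : X ≃ₜ X, (∀ w, q (γ w) = q w) ∧
      (∀ y w, d (γ y) (γ w) = d y w) ∧ γ x = z) {Y : Set M} (hW : IsOpen W) (hY : IsClosed Y)
    (hYW : Y ⊆ W) (hinf : ∀ x ∈ W, {C : Set X | ∃ y ∈ q ⁻¹' connectedComponentIn W x,
      C = connectedComponentIn (q ⁻¹' connectedComponentIn W x) y}.Infinite) :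
    ∀ y₀ ∈ q ⁻¹' W, ∀ R : ℝ, ∃ y, ∀ x ∈ q ⁻¹' Y ∩ connectedComponentIn (q ⁻¹' W) y₀, R < d y x := by
  intro y₀ hy₀ R
  by_contra hcon
  push Not at hcon
  have hWo : IsOpen (q ⁻¹' W) := hW.preimage hqc
  set V := connectedComponentIn W (q y₀) with hV
  have hy₀V : q y₀ ∈ V := mem_connectedComponentIn hy₀
  set C₀ := connectedComponentIn (q ⁻¹' W) y₀ with hC₀
  let Orb : X → Prop := fun y => ∃ γ : X ≃ₜ X, (∀ w, q (γ w) = q w) ∧
    (∀ y w, d (γ y) (γ w) = d y w) ∧ connectedComponentIn (q ⁻¹' W) y = γ '' C₀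
  have hOrb : ∀ y y', y ∈ q ⁻¹' W → q y' = q y → Orb y → Orb y' := by
    rintro y y' hy hyy ⟨γ, h1, h2, h3⟩
    obtain ⟨δ, e1, e2, e3⟩ := deck y y' hyy
    refine ⟨γ.trans δ, fun w => ?_, fun a b => ?_, ?_⟩
    · show q (δ (γ w)) = q w
      rw [e1, h1]
    · show d (δ (γ a)) (δ (γ b)) = d a b
      rw [e2, h2]
    · rw [← e3, ← comp_image δ e1 hy, h3, image_image]
      rfl
  have hopen : ∀ Q : X → Prop, (∀ y y', y' ∈ connectedComponentIn (q ⁻¹' W) y → Q y → Q y') →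
      IsOpen (q '' {y | q y ∈ V ∧ Q y}) := by
    intro Q hQ
    apply hqo
    rw [isOpen_iff_mem_nhds]
    rintro y ⟨hyV, hyQ⟩
    have hyW : y ∈ q ⁻¹' W := connectedComponentIn_subset W _ hyV
    refine Filter.mem_of_superset (connectedComponentIn_mem_nhds (hWo.mem_nhds hyW)) ?_
    intro y' hy'
    refine ⟨?_, hQ y y' hy' hyQ⟩
    rw [← comp_preimage hqc hyV] at hy'
    have h1 := connectedComponentIn_subset (q ⁻¹' connectedComponentIn W (q y₀)) y hy'
    exact h1
  have hOrb1 : ∀ y y', y' ∈ connectedComponentIn (q ⁻¹' W) y → Orb y → Orb y' := by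
    rintro y y' hy' ⟨γ, h1, h2, h3⟩
    exact ⟨γ, h1, h2, by rw [← connectedComponentIn_eq hy', h3]⟩
  have hOrb2 : ∀ y y', y' ∈ connectedComponentIn (q ⁻¹' W) y → ¬ Orb y → ¬ Orb y' := by
    rintro y y' hy' hn ⟨γ, h1, h2, h3⟩
    exact hn ⟨γ, h1, h2, by rw [connectedComponentIn_eq hy', h3]⟩
  -- all components over `V` are translates of `C₀`
  have hall : ∀ y, q y ∈ V → Orb y := by
    by_contra hne
    push Not at hne
    obtain ⟨y₁, hy₁, hn₁⟩ := hne
    have hVc : IsPreconnected V := isPreconnected_connectedComponentIn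
    obtain ⟨m, hm, ⟨a, ⟨ha1, ha2⟩, ha3⟩, ⟨b, ⟨hb1, hb2⟩, hb3⟩⟩ := hVc _ _ (hopen Orb hOrb1)
      (hopen (fun y => ¬ Orb y) hOrb2) (by
        intro m hm
        obtain ⟨y, rfl⟩ := hqs m
        by_cases hy : Orb y
        · exact Or.inl ⟨y, ⟨hm, hy⟩, rfl⟩
        · exact Or.inr ⟨y, ⟨hm, hy⟩, rfl⟩)
      ⟨q y₀, hy₀V, y₀, ⟨hy₀V, Homeomorph.refl X, fun w => rfl, fun y w => rfl, by simp [hC₀]⟩, rfl⟩
      ⟨q y₁, hy₁, y₁, ⟨hy₁, hn₁⟩, rfl⟩
    refine hb2 (hOrb a b ?_ (hb3.trans ha3.symm) ha2)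
    exact connectedComponentIn_subset W _ ha1
  -- they meet a fixed compact set
  have hK : IsCompact ({x | d y₀ x ≤ R} ∩ q ⁻¹' Y) :=
    (hp y₀ R).inter_right (hY.preimage hqc)
  obtain ⟨t, ht⟩ := hK.elim_finite_subcover (fun y => connectedComponentIn (q ⁻¹' W) y)
    (fun y => hWo.connectedComponentIn) (fun x hx => mem_iUnion.2 ⟨x,
      mem_connectedComponentIn (hYW hx.2)⟩)
  refine hinf (q y₀) hy₀ ((t.finite_toSet.image fun y => connectedComponentIn (q ⁻¹' W) y).subset ?_)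
  rintro C ⟨y, hy, rfl⟩
  rw [comp_preimage hqc hy]
  obtain ⟨γ, h1, h2, h3⟩ := hall y hy
  obtain ⟨x, ⟨hx1, hx2⟩, hx3⟩ := hcon (γ.symm y₀)
  have h4 : γ x ∈ {x | d y₀ x ≤ R} ∩ q ⁻¹' Y := by
    constructor
    · show d y₀ (γ x) ≤ R
      rw [← h2, γ.apply_symm_apply] at hx3
      exact hx3
    · show q (γ x) ∈ Y
      rw [h1]
      exact hx1
  obtain ⟨z, hz, hxz⟩ := mem_iUnion₂.1 (ht h4)
  have h5 : γ x ∈ connectedComponentIn (q ⁻¹' W) y := by
    rw [h3]
    exact mem_image_of_mem γ hx2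
  refine ⟨z, hz, ?_⟩
  show connectedComponentIn (q ⁻¹' W) z = connectedComponentIn (q ⁻¹' W) y
  rw [connectedComponentIn_eq hxz, connectedComponentIn_eq h5]

end abstract

variable {E' : Type*} [NormedAddCommGroup E'] [NormedSpace ℝ E'] [FiniteDimensional ℝ E']
  {E : Type*} [NormedAddCommGroup E] [NormedSpace ℝ E] [FiniteDimensional ℝ E]
  {F : Type*} [NormedAddCommGroup F] [InnerProductSpace ℝ F] [FiniteDimensional ℝ F]
  {M : Type*} [TopologicalSpace M] [ChartedSpace E M] [IsManifold 𝓘(ℝ, E) ∞ M]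
  {q : E' → M} {s : E' → F}

/-- Deck transformations (composed with translations of `F`) are isometries. -/
theorem exists_deck (g : Met E M) (H : StableCover E q s) (x z : E') (hq : q z = q x) :
    ∃ γ : E' ≃ₜ E', (∀ w, q (γ w) = q w) ∧
      (∀ y w, dh (st g q s) (γ y) (γ w) = dh (st g q s) y w) ∧ γ x = z := by
  have hh := isMetric_st g H
  obtain ⟨γ, γ', hγ, hγ', h1, h2, h3, h4, h5⟩ := exists_lift H (x := x) (z := z)
    (a := s z - s x) hq (by abel)
  have h4' : ∀ w, q (γ' w) = q w ∧ s (γ' w) = s w + (s x - s z) := fun w =>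
    ⟨(h4 w).1, by rw [(h4 w).2]; abel⟩
  have hs1 := contDiff_lift H hγ h3
  have hs2 := contDiff_lift H hγ' h4'
  refine ⟨⟨⟨γ, γ', h2, h1⟩, hγ, hγ'⟩, fun w => (h3 w).1, fun y w => ?_, h5⟩
  show dh (st g q s) (γ y) (γ w) = dh (st g q s) y w
  apply le_antisymm
  · exact dh_map_le hh (hs1.of_le (by simp)) (fun w v => ip_lift g H hs1 h3 w v) y w
  · have h8 := dh_map_le hh (hs2.of_le (by simp)) (fun w v => ip_lift g H hs2 h4' w v) (γ y) (γ w)
    rwa [h2, h2] at h8

theorem q_isOpenMap (H : StableCover E q s) : IsOpenMap q :=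
  isOpenMap_fst.comp H.cov.isOpenMap

theorem q_surjective (H : StableCover E q s) : Function.Surjective q := by
  intro m
  obtain ⟨y, hy⟩ := H.surj (m, 0)
  exact ⟨y, congrArg Prod.fst hy⟩

/-- The deck lemma. -/
theorem sparse_components [CompactSpace M] (g : Met E M) (H : StableCover E q s) {W Y : Set M}
    (hW : IsOpen W) (hY : IsClosed Y) (hYW : Y ⊆ W)
    (hinf : ∀ x ∈ W, {C : Set E' | ∃ y ∈ q ⁻¹' connectedComponentIn W x,
      C = connectedComponentIn (q ⁻¹' connectedComponentIn W x) y}.Infinite) :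
    ∀ y₀ ∈ q ⁻¹' W, ∀ R : ℝ, ∃ y, ∀ x ∈ q ⁻¹' Y ∩ connectedComponentIn (q ⁻¹' W) y₀,
      R < dh (st g q s) y x := by
  obtain ⟨K, G, G', hG⟩ := exists_coCpt g H
  have hp : Proper (st g q s) := proper_of_coCpt (isMetric_st g H) hG
  exact sparse_of_infinite H.smooth_q.continuous (q_isOpenMap H) (q_surjective H) hp
    (exists_deck g H) hW hY hYW hinf

end Pool.Agent.Lib.MP_df705a_gt.Pin
end
end

section

/-!
# Lower bounds of the Ricci curvature in the sense of Kato: the test function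
-/

open scoped Manifold ContDiff Topology
open Set Bundle Module Filter MeasureTheory

noncomputable section

set_option linter.unusedSectionVars false

namespace Pool.Agent.Lib.MP_df705a_gt.Kat

open Pool.Agent.Lib.MP_df705a_gt.Twist Pool.Agent.Lib.MP_df705a_gt.Perm
open Pool.Agent.Lib.MP_df705a_gt.Pin
open Pool.Agent.Lib.MP_df705a_gt.Coll (trM ipM)
open Pool.Agent.Lib.MP_df705a_gt.Coll.T (ddC mat pull RM SmF)

variable {E : Type*} [NormedAddCommGroup E] [NormedSpace ℝ E] [FiniteDimensional ℝ E]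
  {h : Curv.Coeff E} {f : Fin (finrank ℝ E) → E → ℝ} {ψ W : E → ℝ} {K c : ℝ} {x : E}
  [MeasurableSpace E] [BorelSpace E]

/-- `G + δ² > 0` (`GG_nonneg`), `ContDiff.sqrt`. -/
theorem Loc2.contDiff_tf (L : Loc2 h f ψ W K c) {δ : ℝ} (hδ : 0 < δ) :
    ContDiff ℝ ∞ (tf h f ψ δ) := by
  have h1 : ContDiff ℝ ∞ (fun x => √ (GG h f x + δ ^ 2)) :=
    ContDiff.sqrt ((contDiff_GG L.met L.sm).add contDiff_const) fun x => by
      have h2 := GG_nonneg L.met f x
      have h3 : 0 < δ ^ 2 := by positivity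
      exact (by linarith : 0 < GG h f x + δ ^ 2).ne'
  exact (L.psm.pow _).mul h1

theorem Loc2.hasCompactSupport_tf (L : Loc2 h f ψ W K c) (δ : ℝ) :
    HasCompactSupport (tf h f ψ δ) := by
  have h1 : HasCompactSupport (fun x => ψ x ^ (finrank ℝ E + 2)) :=
    L.cpt.comp_left (g := fun t : ℝ => t ^ (finrank ℝ E + 2)) (zero_pow (by omega))
  exact h1.mul_right

theorem Loc2.tf_sq (L : Loc2 h f ψ W K c) (δ : ℝ) (x : E) :
    tf h f ψ δ x ^ 2 = ψ x ^ (2 * (finrank ℝ E + 2)) * (GG h f x + δ ^ 2) := by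
  have h2 := GG_nonneg L.met f x
  have h3 : 0 ≤ GG h f x + δ ^ 2 := add_nonneg h2 (sq_nonneg δ)
  rw [tf, mul_pow, Real.sq_sqrt h3, ← pow_mul, mul_comm (finrank ℝ E + 2) 2]

/-- `|d√(G + δ²)|² = |dG|² / (4 (G + δ²)) ≤ n! P^(n-1) H` (`gradC_comp_left` twice, `gradC_GG_le`). -/
theorem Loc2.gradC_sqrt_le (L : Loc2 h f ψ W K c) {δ : ℝ} (hδ : 0 < δ) (x : E) :
    gradC h (fun y => √ (GG h f y + δ ^ 2)) (fun y => √ (GG h f y + δ ^ 2)) x ≤
      (finrank ℝ E).factorial * PP h f x ^ (finrank ℝ E - 1) * HH h f x := by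
  have hG := GG_nonneg L.met f x
  have hP := PP_nonneg L.met f x
  have hH := HH_nonneg L.met f x
  have hδ2 : 0 < δ ^ 2 := by positivity
  have hpos : 0 < GG h f x + δ ^ 2 := by linarith
  have hGd : DifferentiableAt ℝ (GG h f) x :=
    (contDiff_GG L.met L.sm).differentiable (by simp) x
  have hφ : HasDerivAt (fun t : ℝ => √ (t + δ ^ 2)) (1 / (2 * √ (GG h f x + δ ^ 2))) (GG h f x) := by
    have e1 : HasDerivAt (fun t : ℝ => t + δ ^ 2) 1 (GG h f x) := (hasDerivAt_id _).add_const _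
    exact e1.sqrt hpos.ne'
  have e2 := gradC_comp_left (h := h) L.met hGd hφ.differentiableAt
    (fun y => √ (GG h f y + δ ^ 2))
  have e3 := gradC_comp_left (h := h) L.met hGd hφ.differentiableAt (GG h f)
  rw [hφ.deriv] at e2 e3
  rw [e2, gradC_comm' L.met, e3, ← mul_assoc]
  have e4 : 1 / (2 * √ (GG h f x + δ ^ 2)) * (1 / (2 * √ (GG h f x + δ ^ 2))) =
      1 / (4 * (GG h f x + δ ^ 2)) := by
    rw [div_mul_div_comm, one_mul]
    congr 1
    have e5 := Real.mul_self_sqrt hpos.le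
    linear_combination 4 * e5
  rw [e4, one_div, inv_mul_le_iff₀ (by positivity)]
  refine (gradC_GG_le L.met L.sm x).trans ?_
  have e6 : 0 ≤ ((finrank ℝ E).factorial : ℝ) * PP h f x ^ (finrank ℝ E - 1) * HH h f x := by
    positivity
  have e7 : 4 * ((finrank ℝ E).factorial : ℝ) * GG h f x * PP h f x ^ (finrank ℝ E - 1) *
      HH h f x = 4 * GG h f x * (((finrank ℝ E).factorial : ℝ) * PP h f x ^ (finrank ℝ E - 1) *
        HH h f x) := by ring
  rw [e7]
  exact mul_le_mul_of_nonneg_right (by linarith) e6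

/-- With `n = finrank ℝ E`: `|d(ab)|² ≤ 2 a² |db|² + 2 b² |da|²`, `a = ψ^(n+2)`, `b = √(G + δ²)`:
`|dφ|² ≤ 2 ψ^(2n+4) n! P^(n-1) H + 2 (n+2)² c² ψ^(2n+2) (G + δ²)`, `G ≤ n! P^n` (`GG_le`). -/
theorem Loc2.gradC_tf_le (L : Loc2 h f ψ W K c) {δ : ℝ} (hδ : 0 < δ) (x : E) :
    gradC h (tf h f ψ δ) (tf h f ψ δ) x ≤
      2 * (finrank ℝ E).factorial *
        (ψ x ^ (2 * (finrank ℝ E + 2)) * PP h f x ^ (finrank ℝ E - 1) * HH h f x) +
      2 * (finrank ℝ E + 2 : ℝ) ^ 2 * c ^ 2 * (finrank ℝ E).factorial *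
        (ψ x ^ (2 * (finrank ℝ E + 1)) * PP h f x ^ finrank ℝ E) +
      2 * (finrank ℝ E + 2 : ℝ) ^ 2 * c ^ 2 * δ ^ 2 * ψ x ^ (2 * (finrank ℝ E + 1)) := by
  have hh := L.met
  have hG : ContDiff ℝ ∞ (GG h f) := contDiff_GG hh L.sm
  have hpos : ∀ y, 0 < GG h f y + δ ^ 2 := fun y =>
    add_pos_of_nonneg_of_pos (GG_nonneg hh f y) (pow_pos hδ 2)
  have hb : ContDiff ℝ ∞ fun y => √ (GG h f y + δ ^ 2) :=
    (hG.add contDiff_const).sqrt fun y => (hpos y).ne'
  have ha : ContDiff ℝ ∞ fun y => ψ y ^ (finrank ℝ E + 2) := L.psm.pow _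
  have da : DifferentiableAt ℝ (fun y => ψ y ^ (finrank ℝ E + 2)) x :=
    (ha.differentiable (by simp)) x
  have db : DifferentiableAt ℝ (fun y => √ (GG h f y + δ ^ 2)) x :=
    (hb.differentiable (by simp)) x
  have dψ : DifferentiableAt ℝ ψ x := (L.psm.differentiable (by simp)) x
  have gs := L.gradC_sqrt_le hδ x
  have g1 : gradC h (fun y => ψ y ^ (finrank ℝ E + 2)) (fun y => ψ y ^ (finrank ℝ E + 2)) x =
      (finrank ℝ E + 2 : ℝ) ^ 2 * ψ x ^ (2 * (finrank ℝ E + 1)) * gradC h ψ ψ x := by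
    rw [gradC_pow_left hh dψ, gradC_comm' hh, gradC_pow_left hh dψ]
    push_cast
    ring
  have g2 : gradC h (tf h f ψ δ) (tf h f ψ δ) x =
      (ψ x ^ (finrank ℝ E + 2)) ^ 2 *
        gradC h (fun y => √ (GG h f y + δ ^ 2)) (fun y => √ (GG h f y + δ ^ 2)) x +
      2 * (ψ x ^ (finrank ℝ E + 2) * √ (GG h f x + δ ^ 2) *
        gradC h (fun y => ψ y ^ (finrank ℝ E + 2)) (fun y => √ (GG h f y + δ ^ 2)) x) +
      √ (GG h f x + δ ^ 2) ^ 2 *
        gradC h (fun y => ψ y ^ (finrank ℝ E + 2)) (fun y => ψ y ^ (finrank ℝ E + 2)) x := by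
    have e1 : ∀ w : E → ℝ, gradC h (tf h f ψ δ) w x =
        ψ x ^ (finrank ℝ E + 2) * gradC h (fun y => √ (GG h f y + δ ^ 2)) w x +
          √ (GG h f x + δ ^ 2) * gradC h (fun y => ψ y ^ (finrank ℝ E + 2)) w x :=
      fun w => gradC_mul_left hh da db w
    rw [e1, gradC_comm' hh _ (tf h f ψ δ), gradC_comm' hh _ (tf h f ψ δ), e1, e1,
      gradC_comm' hh (fun y => √ (GG h f y + δ ^ 2)) (fun y => ψ y ^ (finrank ℝ E + 2))]
    ring
  have cs := gradC_sq_le hh (fun y => ψ y ^ (finrank ℝ E + 2))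
    (fun y => √ (GG h f y + δ ^ 2)) x
  have n1 : 0 ≤ gradC h (fun y => ψ y ^ (finrank ℝ E + 2))
    (fun y => ψ y ^ (finrank ℝ E + 2)) x := G4.gradC_nonneg (hh.2 x)
  have n2 : 0 ≤ gradC h (fun y => √ (GG h f y + δ ^ 2))
    (fun y => √ (GG h f y + δ ^ 2)) x := G4.gradC_nonneg (hh.2 x)
  have hsq : √ (GG h f x + δ ^ 2) ^ 2 = GG h f x + δ ^ 2 := Real.sq_sqrt (hpos x).le
  have hGle := GG_le hh f x
  have hP := PP_nonneg hh f x
  have hgr := L.grad x
  have hpa : (ψ x ^ (finrank ℝ E + 2)) ^ 2 = ψ x ^ (2 * (finrank ℝ E + 2)) := by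
    rw [← pow_mul]
    congr 1
    ring
  have key : gradC h (tf h f ψ δ) (tf h f ψ δ) x ≤
      2 * ((ψ x ^ (finrank ℝ E + 2)) ^ 2 *
        gradC h (fun y => √ (GG h f y + δ ^ 2)) (fun y => √ (GG h f y + δ ^ 2)) x) +
      2 * (√ (GG h f x + δ ^ 2) ^ 2 *
        gradC h (fun y => ψ y ^ (finrank ℝ E + 2)) (fun y => ψ y ^ (finrank ℝ E + 2)) x) := by
    rw [g2]
    generalize gradC h (fun y => ψ y ^ (finrank ℝ E + 2))
      (fun y => ψ y ^ (finrank ℝ E + 2)) x = A at *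
    generalize gradC h (fun y => √ (GG h f y + δ ^ 2))
      (fun y => √ (GG h f y + δ ^ 2)) x = B at *
    generalize gradC h (fun y => ψ y ^ (finrank ℝ E + 2))
      (fun y => √ (GG h f y + δ ^ 2)) x = m at *
    generalize ψ x ^ (finrank ℝ E + 2) = a at *
    generalize √ (GG h f x + δ ^ 2) = b at *
    have h1 : (2 * (a * b * m)) ^ 2 ≤ (a ^ 2 * B + b ^ 2 * A) ^ 2 := by
      have h2 : (a * b) ^ 2 * m ^ 2 ≤ (a * b) ^ 2 * (A * B) :=
        mul_le_mul_of_nonneg_left cs (sq_nonneg _)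
      nlinarith [sq_nonneg (a ^ 2 * B - b ^ 2 * A)]
    have h3 : 2 * (a * b * m) ≤ a ^ 2 * B + b ^ 2 * A :=
      (abs_le_of_sq_le_sq' h1 (add_nonneg (mul_nonneg (sq_nonneg _) n2)
        (mul_nonneg (sq_nonneg _) n1))).2
    linarith
  have k1 : (ψ x ^ (finrank ℝ E + 2)) ^ 2 *
      gradC h (fun y => √ (GG h f y + δ ^ 2)) (fun y => √ (GG h f y + δ ^ 2)) x ≤
      ψ x ^ (2 * (finrank ℝ E + 2)) *
        ((finrank ℝ E).factorial * PP h f x ^ (finrank ℝ E - 1) * HH h f x) := by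
    rw [hpa]
    exact mul_le_mul_of_nonneg_left gs (pow_nonneg (L.nonneg x) _)
  have k2 : √ (GG h f x + δ ^ 2) ^ 2 *
      gradC h (fun y => ψ y ^ (finrank ℝ E + 2)) (fun y => ψ y ^ (finrank ℝ E + 2)) x ≤
      ((finrank ℝ E).factorial * PP h f x ^ finrank ℝ E + δ ^ 2) *
        ((finrank ℝ E + 2 : ℝ) ^ 2 * ψ x ^ (2 * (finrank ℝ E + 1)) * c ^ 2) := by
    rw [hsq]
    refine mul_le_mul (by linarith) ?_ n1 ?_
    · rw [g1]
      exact mul_le_mul_of_nonneg_left hgr (mul_nonneg (sq_nonneg _) (pow_nonneg (L.nonneg x) _))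
    · exact add_nonneg (mul_nonneg (Nat.cast_nonneg _) (pow_nonneg hP _)) (sq_nonneg _)
  calc gradC h (tf h f ψ δ) (tf h f ψ δ) x ≤ _ := key
    _ ≤ 2 * (ψ x ^ (2 * (finrank ℝ E + 2)) *
        ((finrank ℝ E).factorial * PP h f x ^ (finrank ℝ E - 1) * HH h f x)) +
        2 * (((finrank ℝ E).factorial * PP h f x ^ finrank ℝ E + δ ^ 2) *
        ((finrank ℝ E + 2 : ℝ) ^ 2 * ψ x ^ (2 * (finrank ℝ E + 1)) * c ^ 2)) := by linarith
    _ = _ := by ring

/-- `scal φ² ≤ ψ^(2n+4) n! P^(n-1) (R + P) + δ² ψ^(2n+4) scal` (`GG_scal_le` where `ψ ≠ 0`). -/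
theorem Loc2.scal_tf_le (L : Loc2 h f ψ W K c) (δ : ℝ) (x : E) :
    Curv.scal h x * tf h f ψ δ x ^ 2 ≤ (finrank ℝ E).factorial *
      (ψ x ^ (2 * (finrank ℝ E + 2)) * PP h f x ^ (finrank ℝ E - 1) *
        RT h W f x) + δ ^ 2 * (ψ x ^ (2 * (finrank ℝ E + 2)) * Curv.scal h x) := by
  rw [L.tf_sq]
  by_cases hψ : ψ x = 0
  · have h0 : ψ x ^ (2 * (finrank ℝ E + 2)) = 0 := by
      rw [hψ]
      exact zero_pow (by omega)
    rw [h0]
    simp
  · have h1 := GG_scal_le2 L.met L.sm (L.good x hψ)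
    have h2 := mul_le_mul_of_nonneg_left h1 (pow_nonneg (L.nonneg x) (2 * (finrank ℝ E + 2)))
    calc Curv.scal h x * (ψ x ^ (2 * (finrank ℝ E + 2)) * (GG h f x + δ ^ 2))
        = ψ x ^ (2 * (finrank ℝ E + 2)) * (GG h f x * Curv.scal h x) +
          δ ^ 2 * (ψ x ^ (2 * (finrank ℝ E + 2)) * Curv.scal h x) := by ring
      _ ≤ ψ x ^ (2 * (finrank ℝ E + 2)) * ((finrank ℝ E).factorial *
          PP h f x ^ (finrank ℝ E - 1) * RT h W f x) +
          δ ^ 2 * (ψ x ^ (2 * (finrank ℝ E + 2)) * Curv.scal h x) := by linarith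
      _ = _ := by ring

end Pool.Agent.Lib.MP_df705a_gt.Kat
end
end
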