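import Pool.Agent.Lib.MP_df705a_gt.Mg.G008
import Pool.Agent.Lib.MP_df705a_gt.Mg.G066
import Pool.Agent.Lib.MP_df705a_gt.Mg.G004
import Pool.Agent.Lib.MP_df705a_gt.Mg.G003
import Pool.Agent.Lib.MP_df705a_gt.Mg.G015
import Pool.Agent.Lib.MP_df705a_gt.Mg.G010
import Pool.Agent.Lib.MP_df705a_gt.Mg.G001

section

/-!
# Spectral Ricci pinching, S3: the local estimate at every scale
-/

open scoped Manifold ContDiff Topology
open Set Bundle Module Filter MeasureTheory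

noncomputable section

set_option linter.unusedSectionVars false

namespace Pool.Agent.Lib.MP_df705a_gt.Pin

open Pool.Agent.Lib.MP_df705a_gt.Twist Pool.Agent.Lib.MP_df705a_gt.Perm

/-- `exists_local_one` for `Fin n` instead of `Fin (finrank ℝ E)`. -/
theorem exists_local_fin (E : Type*) [NormedAddCommGroup E] [NormedSpace ℝ E]
    [FiniteDimensional ℝ E] [MeasurableSpace E] [BorelSpace E] (n : ℕ) (hn : finrank ℝ E = n)
    (K c : ℝ) (hK : 0 ≤ K) (hc : 0 < c) : ∃ A : ℝ, 0 < A ∧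
    ∀ h : Curv.Coeff E, Curv.IsMetric h → Proper h → ∀ p : E,
      (∀ y, dh h p y ≤ 5 → RicGeAt h 1 y) →
      ∀ f : Fin n → E → ℝ, (∀ i, ContDiff ℝ ∞ (f i)) →
        (∀ i y, dh h p y ≤ 5 → |f i y| ≤ 2 ∧ |lapC h (f i) y| ≤ K) →
        ∀ (γ : ℝ) (w : E → ℝ), 0 ≤ γ → ContDiff ℝ ∞ w → (∀ y, 0 < w y) →
          (∀ y, dh h p y ≤ 5 →
            γ * lapC h w y ≤ (Curv.scal h y - A * (1 + γ)) * w y) →
          volume ((fun (y : E) (i : Fin n) => f i y) ''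
            {y | dh h p y ≤ 2}) ≤ ENNReal.ofReal c := by
  subst hn
  exact exists_local_one E K c hK hc

/-- (S3) the image of a ball under `n` functions with bounded Laplacian is small. -/
theorem S3_local (n : ℕ) (K c : ℝ) (hK : 0 ≤ K) (hc : 0 < c) : ∃ A : ℝ, 0 < A ∧
    ∀ h : Curv.Coeff (EuclideanSpace ℝ (Fin n)), Curv.IsMetric h → Proper h →
      ∀ (p : EuclideanSpace ℝ (Fin n)) (σ : ℝ), 0 < σ →
      (∀ y, dh h p y ≤ 5 * σ → RicGeAt h (1 / σ ^ 2) y) →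
      ∀ f : Fin n → EuclideanSpace ℝ (Fin n) → ℝ, (∀ i, ContDiff ℝ ∞ (f i)) →
        (∀ i y, dh h p y ≤ 5 * σ → |f i y| ≤ 2 ∧ |lapC h (f i) y| ≤ K / σ ^ 2) →
        ∀ (γ : ℝ) (w : EuclideanSpace ℝ (Fin n) → ℝ), 0 ≤ γ → ContDiff ℝ ∞ w → (∀ y, 0 < w y) →
          (∀ y, dh h p y ≤ 5 * σ →
            γ * lapC h w y ≤ (Curv.scal h y - A * (1 + γ) / σ ^ 2) * w y) →
          volume ((fun (y : EuclideanSpace ℝ (Fin n)) (i : Fin n) => f i y) ''
            {y | dh h p y ≤ 2 * σ}) ≤ ENNReal.ofReal c := by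
  obtain ⟨A, hA, hA'⟩ := exists_local_fin (EuclideanSpace ℝ (Fin n)) n (by simp) K c hK hc
  refine ⟨A, hA, ?_⟩
  intro h hh hp p σ hσ hric f hf hfb γ w hγ hw hw0 hle
  have ha : 0 < 1 / σ ^ 2 := by positivity
  have hs : √ (1 / σ ^ 2) = 1 / σ := by
    rw [Real.sqrt_div zero_le_one, Real.sqrt_one, Real.sqrt_sq hσ.le]
  have hdist : ∀ (y : EuclideanSpace ℝ (Fin n)) (r : ℝ), dh (sca (1 / σ ^ 2) h) p y ≤ r ↔
      dh h p y ≤ r * σ := by
    intro y r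
    rw [dh_sca ha, hs, one_div, inv_mul_le_iff₀ hσ, mul_comm]
  have key := hA' (sca (1 / σ ^ 2) h) (isMetric_sca hh ha) (proper_sca hp ha) p ?_ f hf ?_ γ w hγ hw
    hw0 ?_
  · have e : {y | dh (sca (1 / σ ^ 2) h) p y ≤ 2} = {y | dh h p y ≤ 2 * σ} := by
      ext y
      exact hdist y 2
    rw [e] at key
    exact key
  · intro y hy
    rw [hdist] at hy
    rw [ricGeAt_sca ha, one_mul]
    exact hric y hy
  · intro i y hy
    rw [hdist] at hy
    obtain ⟨h1, h2⟩ := hfb i y hy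
    refine ⟨h1, ?_⟩
    rw [lapC_sca ha, abs_div, abs_of_pos ha, div_le_iff₀ ha]
    rw [mul_one_div]
    exact h2
  · intro y hy
    rw [hdist] at hy
    have h1 := hle y hy
    rw [lapC_sca ha, scal_sca ha]
    have h2 : γ * (lapC h w y / (1 / σ ^ 2)) = (γ * lapC h w y) * σ ^ 2 := by
      field_simp
    have h3 : (Curv.scal h y / (1 / σ ^ 2) - A * (1 + γ)) * w y =
        ((Curv.scal h y - A * (1 + γ) / σ ^ 2) * w y) * σ ^ 2 := by
      field_simp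
    rw [h2, h3]
    exact mul_le_mul_of_nonneg_right h1 (by positivity)

end Pool.Agent.Lib.MP_df705a_gt.Pin
end
end

section

/-!
# The spectral width theorem with a bad set
-/

open scoped Manifold ContDiff Topology
open Set Bundle Module Filter MeasureTheory

noncomputable section

namespace Pool.Agent.Lib.MP_df705a_gt.Pin

open Pool.Agent.Lib.MP_df705a_gt.Twist

/-- The local data of the width theorem, for balls which do not meet the bad set. -/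
theorem E5_vol (n : ℕ) {K c A : ℝ} (hK : 0 ≤ K) (hA0 : 0 < A)
    (hA : ∀ h : Curv.Coeff (EuclideanSpace ℝ (Fin n)), Curv.IsMetric h → Proper h →
      ∀ (p : EuclideanSpace ℝ (Fin n)) (σ : ℝ), 0 < σ →
      (∀ y, dh h p y ≤ 5 * σ → RicGeAt h (1 / σ ^ 2) y) →
      ∀ f : Fin n → EuclideanSpace ℝ (Fin n) → ℝ, (∀ i, ContDiff ℝ ∞ (f i)) →
        (∀ i y, dh h p y ≤ 5 * σ → |f i y| ≤ 2 ∧ |lapC h (f i) y| ≤ 2 * K / σ ^ 2) →
        ∀ (γ : ℝ) (w : EuclideanSpace ℝ (Fin n) → ℝ), 0 ≤ γ → ContDiff ℝ ∞ w → (∀ y, 0 < w y) →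
          (∀ y, dh h p y ≤ 5 * σ →
            γ * lapC h w y ≤ (Curv.scal h y - A * (1 + γ) / σ ^ 2) * w y) →
          volume ((fun (y : EuclideanSpace ℝ (Fin n)) (i : Fin n) => f i y) ''
            {y | dh h p y ≤ 2 * σ}) ≤ ENNReal.ofReal c)
    {h : Curv.Coeff (EuclideanSpace ℝ (Fin n))} (hh : Curv.IsMetric h) (hp : Proper h)
    {ρ : EuclideanSpace ℝ (Fin n) → ℝ} (hρ0 : ∀ x, 0 < ρ x) (hρ1 : ∀ x y, |ρ x - ρ y| ≤ dh h x y)
    {B : Set (EuclideanSpace ℝ (Fin n))}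
    (hric : ∀ x, x ∉ B → RicGeAt h (1 / ρ x ^ 2) x) {γ : ℝ} {w : EuclideanSpace ℝ (Fin n) → ℝ}
    (hγ : 0 ≤ γ) (hw : ContDiff ℝ ∞ w) (hw0 : ∀ x, 0 < w x)
    (hlt : ∀ x, x ∉ B →
      γ * lapC h w x < (Curv.scal h x - 11025 * A * (1 + γ) / ρ x ^ 2) * w x)
    (f : Fin n → EuclideanSpace ℝ (Fin n) → ℝ) (p : Fin n → EuclideanSpace ℝ (Fin n))
    (hf : ∀ j, ContDiff ℝ ∞ (f j))
    (hfb : ∀ j y, dh h (p j) y ≤ 10 * (ρ (p j) / 100) →
      |f j y| ≤ 2 ∧ |lapC h (f j) y| ≤ K / (ρ (p j) / 100) ^ 2)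
    (hy : ∃ y, ∀ j, dh h (p j) y ≤ ρ (p j) / 100) (j₀ : Fin n)
    (hgood : ∀ b ∈ B, 40 * (ρ (p j₀) / 100) ≤ dh h (p j₀) b) :
    volume ((fun (y : EuclideanSpace ℝ (Fin n)) (i : Fin n) => f i y) ''
            {y | dh h (p j₀) y ≤ 2 * (ρ (p j₀) / 100)}) ≤ ENNReal.ofReal c := by
  have hd := isD_dh hh hp
  have hsc : Scale (dh h) fun x => ρ x / 100 := by
    refine ⟨fun x => by have := hρ0 x; positivity, fun x y => ?_⟩
    have h1 := abs_le.mp (hρ1 x y)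
    show ρ x / 100 ≤ ρ y / 100 + dh h x y / 100
    linarith [h1.2]
  obtain ⟨z, hz⟩ := hy
  have hρp := hρ0 (p j₀)
  set σ := ρ (p j₀) / 100 with hσ
  have hσ0 : 0 < σ := by positivity
  have hlow : ∀ y, dh h (p j₀) y ≤ 5 * σ → 95 * σ ≤ ρ y ∧ ρ y ≤ 105 * σ := by
    intro y hy
    have h1 := abs_le.mp (hρ1 (p j₀) y)
    have h2 : ρ (p j₀) = 100 * σ := by rw [hσ]; ring
    rw [h2] at h1
    constructor <;> linarith [h1.1, h1.2]
  have hnB : ∀ y, dh h (p j₀) y ≤ 5 * σ → y ∉ B := by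
    intro y hy hyB
    have := hgood y hyB
    linarith
  refine hA h hh hp (p j₀) σ hσ0 ?_ f hf ?_ γ w hγ hw hw0 ?_
  · intro y hy
    refine (hric y (hnB y hy)).mono hh ?_
    have h1 := (hlow y hy).1
    have h2 := hρ0 y
    apply one_div_le_one_div_of_le (by positivity)
    exact pow_le_pow_left₀ hσ0.le (by linarith) 2
  · intro j y hy
    have hc1 := scale_compare hd hsc (hz j₀) (hz j)
    have hc2 := scale_compare hd hsc (hz j) (hz j₀)
    have hρj := hρ0 (p j)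
    set τ := ρ (p j) / 100 with hτ
    have hτ0 : 0 < τ := by positivity
    have h1 : σ ≤ 103 / 100 * τ := hc1.1
    have h2 := hd.tri (p j) z (p j₀)
    have h3 := hd.tri (p j) (p j₀) y
    have h4 := hz j
    have h5 := hz j₀
    rw [hd.comm z (p j₀)] at h2
    have h6 : dh h (p j) y ≤ 10 * τ := by
      have h7 : dh h (p j) z ≤ τ := h4
      have h8 : dh h (p j₀) z ≤ σ := h5
      linarith
    obtain ⟨h7, h8⟩ := hfb j y h6
    refine ⟨h7, h8.trans ?_⟩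
    rw [div_le_div_iff₀ (by positivity) (by positivity)]
    have h9 : σ ^ 2 ≤ 2 * τ ^ 2 := by nlinarith
    have h10 := mul_le_mul_of_nonneg_left h9 hK
    show K * σ ^ 2 ≤ 2 * K * τ ^ 2
    linarith
  · intro y hy
    refine (hlt y (hnB y hy)).le.trans ?_
    apply mul_le_mul_of_nonneg_right _ (hw0 y).le
    apply sub_le_sub_left
    obtain ⟨h1, h2⟩ := hlow y hy
    have h3 := hρ0 y
    rw [div_le_div_iff₀ (by positivity) (by positivity)]
    have h4 : ρ y ^ 2 ≤ 11025 * σ ^ 2 := by nlinarith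
    have h5 : 0 ≤ A * (1 + γ) := by positivity
    nlinarith [mul_le_mul_of_nonneg_left h4 h5]

/-- **The spectral width theorem with a bad set.** -/
theorem E5_width (n : ℕ) (hn : 0 < n) : ∃ C : ℝ, 0 < C ∧
    ∀ h : Curv.Coeff (EuclideanSpace ℝ (Fin n)), Curv.IsMetric h → Proper h →
      ∀ ρ : EuclideanSpace ℝ (Fin n) → ℝ, (∀ x, 0 < ρ x) → (∀ x y, |ρ x - ρ y| ≤ dh h x y) →
      ∀ B : Set (EuclideanSpace ℝ (Fin n)),
      (∀ x, x ∉ B → RicGeAt h (1 / ρ x ^ 2) x) →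
      ∀ (γ : ℝ) (w : EuclideanSpace ℝ (Fin n) → ℝ), 0 ≤ γ → ContDiff ℝ ∞ w → (∀ x, 0 < w x) →
      (∀ x, x ∉ B → γ * lapC h w x < (Curv.scal h x - C * (1 + γ) / ρ x ^ 2) * w x) →
      ∃ (J : Type) (_ : Countable J) (V : J → Set (EuclideanSpace ℝ (Fin n)))
        (Y : Set (EuclideanSpace ℝ (Fin n))),
        (∀ j, IsClosed (V j)) ∧ LocallyFinite V ∧ IsClosed Y ∧
        (∀ x, x ∈ Y ∨ ∃ j, x ∈ V j) ∧ (∀ x, {j | x ∈ V j}.encard ≤ n) ∧
        (∀ x ∈ Y, {j | x ∈ V j}.encard + 1 ≤ n) ∧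
        (∀ j, ∀ x ∈ V j, ∀ y ∈ V j, dh h x y ≤ ρ x) ∧
        ∀ x ∈ Y, ∃ b ∈ B, dh h x b < ρ x / 2 := by
  obtain ⟨K, hK, hS2⟩ := S2_bump n
  obtain ⟨C₁, hC₁, hBG⟩ := A.partA_bishop_gromov n
  set N₀ := ⌈C₁ * 320 ^ n⌉₊ with hN₀
  obtain ⟨c, hc, hc1⟩ : ∃ c : ℝ, 0 < c ∧ (2 * ((N₀ ^ n : ℕ) : ℝ) + 1) ^ n * c < 1 := by
    refine ⟨1 / (2 * (2 * ((N₀ ^ n : ℕ) : ℝ) + 1) ^ n), by positivity, ?_⟩
    have h1 : 0 < (2 * ((N₀ ^ n : ℕ) : ℝ) + 1) ^ n := by positivity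
    rw [mul_one_div, div_lt_one (by positivity)]
    linarith
  obtain ⟨A, hA, hS3⟩ := S3_local n (2 * K) c (by positivity) hc
  refine ⟨11025 * A, by positivity, ?_⟩
  intro h hh hp ρ hρ0 hρ1 B hric γ w hγ hw hw0 hlt
  have hd := isD_dh hh hp
  have hsc : Scale (dh h) fun x => ρ x / 100 := by
    refine ⟨fun x => by have := hρ0 x; positivity, fun x y => ?_⟩
    have h1 := abs_le.mp (hρ1 x y)
    show ρ x / 100 ≤ ρ y / 100 + dh h x y / 100
    linarith [h1.2]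
  obtain ⟨Z₀, hZ₀⟩ := exists_net hd hsc
  let Z : Set (EuclideanSpace ℝ (Fin n)) := {p ∈ Z₀ | ∀ b ∈ B, 40 * (ρ p / 100) ≤ dh h p b}
  have hZZ : Z ⊆ Z₀ := fun p hp => hp.1
  have hgood : ∀ p ∈ Z, ∀ y, dh h p y < 40 * (ρ p / 100) → y ∉ B := by
    intro p hp y hy hyB
    exact absurd (hp.2 y hyB) (not_le.2 hy)
  have hloc : ∀ x, {l ∈ Z | dh h x l ≤ 8 * (ρ l / 100)}.Finite ∧
      {l ∈ Z | dh h x l ≤ 8 * (ρ l / 100)}.ncard ≤ N₀ := by
    intro x
    have h1 := sep_count (μ := vol h) (N := C₁ * 320 ^ n) hd hsc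
      ((hZ₀.disjoint hd hsc).subset hZZ)
      (fun x r => vol_ballh_lt_top hh hp x r)
      (fun x r hr => vol_pos_of_isOpen hh (hd.isOpen_bd x r) ⟨x, by
        show dh h x x < r
        rw [hd.self]; exact hr⟩) (by positivity)
      (by
        intro x hxZ
        have hρx := hρ0 x
        have h5 := hBG h hh hp x (2 / ρ x ^ 2) (ρ x / 100 / 16) (20 * (ρ x / 100))
          (by positivity) (by positivity) (by nlinarith)
          (by
            have : 2 / ρ x ^ 2 * (20 * (ρ x / 100)) ^ 2 = 2 / 25 := by field_simp; norm_num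
            rw [this]; norm_num)
          (by
            intro y hy
            refine (hric y (hgood x hxZ y (by linarith))).mono hh ?_
            have h1 := (abs_le.mp (hρ1 x y)).2
            have h2 : 0.8 * ρ x ≤ ρ y := by nlinarith
            rw [div_le_div_iff₀ (by have := hρ0 y; positivity) (by positivity)]
            have h3 : (0.8 * ρ x) ^ 2 ≤ ρ y ^ 2 := by
              apply pow_le_pow_left₀ (by positivity) h2
            nlinarith [sq_nonneg (ρ x)])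
        have h6 : 20 * (ρ x / 100) / (ρ x / 100 / 16) = 320 := by field_simp; norm_num
        rw [h6] at h5
        exact h5) x
    refine ⟨h1.1, ?_⟩
    have h2 : (({l ∈ Z | dh h x l ≤ 8 * (ρ l / 100)}.ncard : ℕ) : ℝ) ≤ (N₀ : ℝ) :=
      h1.2.trans (Nat.le_ceil _)
    exact_mod_cast h2
  -- the bump functions
  have hbump : ∀ p, ∃ f : EuclideanSpace ℝ (Fin n) → ℝ, p ∈ Z → ContDiff ℝ ∞ f ∧
      (∀ y, dh h p y ≤ 10 * (ρ p / 100) → |f y| ≤ 2 ∧ |lapC h f y| ≤ K / (ρ p / 100) ^ 2) ∧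
      (∀ y, dh h p y ≤ ρ p / 100 / 2 → 3 / 4 < f y) ∧
      ∀ y, 7 / 8 * (ρ p / 100) ≤ dh h p y → dh h p y ≤ 2 * (ρ p / 100) → f y < 1 / 4 := by
    intro p
    by_cases hpZ : p ∈ Z
    · have hρp := hρ0 p
      obtain ⟨f, hf⟩ := hS2 h hh hp p (ρ p / 100) (by positivity) (by
        intro y hy
        refine (hric y (hgood p hpZ y (by linarith))).mono hh ?_
        have h1 := (abs_le.mp (hρ1 p y)).2
        have h2 : ρ p / 100 ≤ ρ y := by linarith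
        apply one_div_le_one_div_of_le (by positivity)
        exact pow_le_pow_left₀ (by positivity) h2 2)
      exact ⟨f, fun _ => hf⟩
    · exact ⟨0, fun h => absurd h hpZ⟩
  choose f hf using hbump
  have : Countable Z := ((hZ₀.countable hd hsc).to_set.mono hZZ).to_subtype
  let j₀ : Fin n := ⟨0, hn⟩
  let Bs : (Fin n → Z) → Set (Fin n → ℝ) := fun I =>
    (fun (y : EuclideanSpace ℝ (Fin n)) (i : Fin n) => f (I i).1 y) ''
      {y | dh h (I j₀).1 y ≤ 2 * (ρ (I j₀).1 / 100)}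
  have hBm : ∀ I ∈ tups (dh h) (fun x => ρ x / 100) Z n, MeasurableSet (Bs I) := by
    intro I _
    refine IsCompact.measurableSet ((hp (I j₀).1 _).image ?_)
    exact continuous_pi fun i => (hf _ (I i).2).1.continuous
  have hBv : ∀ I ∈ tups (dh h) (fun x => ρ x / 100) Z n, volume (Bs I) ≤ ENNReal.ofReal c := by
    rintro I ⟨-, hy⟩
    exact E5_vol n hK.le hA hS3 hh hp hρ0 hρ1 hric hγ hw hw0 hlt (fun i => f (I i).1)
      (fun i => (I i).1) (fun i => (hf _ (I i).2).1) (fun i y hy => (hf _ (I i).2).2.1 y hy) hy j₀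
      (I j₀).2.2
  obtain ⟨t, ht1, ht2⟩ := S4_levels hc.le hc1 (tups (dh h) (fun x => ρ x / 100) Z n)
    (fun I hI => hI.1) (fun p => tups_count hd hsc hloc n p) Bs hBm hBv
  classical
  let t' : EuclideanSpace ℝ (Fin n) → ℝ := fun p => if hp : p ∈ Z then t ⟨p, hp⟩ else 1 / 2
  have ht' : ∀ p : Z, t' p.1 = t p := fun p => by
    simp only [t']
    rw [dif_pos p.2]
  obtain ⟨e, he⟩ := exists_injective_nat Z
  obtain ⟨V, h1, h2, h3, h4, h5, h6, h7⟩ := mixed_level_cover hd hsc (fun x => (hloc x).1) e he n f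
    (fun p hp => (hf p hp).1.continuous)
    (fun p hp y hy hy' => (hf p hp).2.2.2 y hy hy') t'
    (fun p hp => by
      have := (ht1 ⟨p, hp⟩).1
      rw [← ht' ⟨p, hp⟩] at this
      exact this)
    (by
      intro I hI y hy hcon
      refine ht2 I ⟨hI, y, hy⟩ ⟨y, ?_, ?_⟩
      · have h5 := hy j₀
        have h6 := hρ0 (I j₀).1
        show dh h (I j₀).1 y ≤ 2 * (ρ (I j₀).1 / 100)
        have h7 : dh h (I j₀).1 y ≤ ρ (I j₀).1 / 100 := h5
        linarith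
      · funext j
        show f (I j).1 y = t (I j)
        rw [hcon j, ht'])
  refine ⟨Z, inferInstance, V, {x | ∀ p ∈ Z, x ∉ lev (dh h) (fun x => ρ x / 100) f t' p}, h1, h2,
    h4, h5, h6, h7, ?_, ?_⟩
  · intro p x hx y hy
    have h8 : dh h p.1 x ≤ ρ p.1 / 100 := h3 p x hx
    have h9 : dh h p.1 y ≤ ρ p.1 / 100 := h3 p y hy
    have h10 := hd.tri x p.1 y
    rw [hd.comm x p.1] at h10
    have h11 := (abs_le.mp (hρ1 p.1 x)).2
    have h12 := hρ0 p.1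
    linarith
  · intro x hx
    obtain ⟨p, hp, hxp⟩ := hZ₀.cov x
    have hxp' : dh h x p < ρ p / 100 / 2 := hxp
    have hρp := hρ0 p
    have hpZ : p ∉ Z := by
      intro hpZ
      refine hx p hpZ ⟨?_, ?_⟩
      · show dh h p x < ρ p / 100
        rw [hd.comm]
        linarith
      · show t' p < f p x
        have h8 := (hf p hpZ).2.2.1 x (by rw [hd.comm]; exact hxp'.le)
        have h9 := (ht1 ⟨p, hpZ⟩).2
        rw [← ht' ⟨p, hpZ⟩] at h9
        have h10 : t' p ≤ 3 / 4 := h9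
        linarith
    have hb : ∃ b ∈ B, dh h p b < 40 * (ρ p / 100) := by
      by_contra hcon
      push Not at hcon
      exact hpZ ⟨hp, hcon⟩
    obtain ⟨b, hb, hpb⟩ := hb
    refine ⟨b, hb, ?_⟩
    have h8 := hd.tri x p b
    have h9 := (abs_le.mp (hρ1 x p)).1
    linarith

end Pool.Agent.Lib.MP_df705a_gt.Pin
end
end

section

/-!
# Lower bounds of the Ricci curvature in the sense of Kato: smooth functions with bounded Laplacian
-/

open scoped Manifold ContDiff Topology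
open Set Bundle Module Filter MeasureTheory

noncomputable section

set_option linter.unusedSectionVars false

namespace Pool.Agent.Lib.MP_df705a_gt.Kat

open Pool.Agent.Lib.MP_df705a_gt.Twist Pool.Agent.Lib.MP_df705a_gt.Perm
open Pool.Agent.Lib.MP_df705a_gt.Pin
open Pool.Agent.Lib.MP_df705a_gt.Pin.A (IsExp exists_exp)

variable {E : Type*} [NormedAddCommGroup E] [NormedSpace ℝ E] [FiniteDimensional ℝ E]
  {h : Curv.Coeff E} {W : E → ℝ} {Ex : E → E → E}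

theorem lap_touch_le2 (hm : Curv.IsMetric h) (hP : Proper h) {A : ℝ} (hW : Wt W A)
    (hE : IsExp (cm h W) Ex) (hn : 2 ≤ finrank ℝ E) {x y : E} {τ : ℝ}
    (hτ : 0 < τ) (hxy : dh (cm h W) y x ≤ 6) (hric : ∀ z, dh (cm h W) y z ≤ 6 → Gd h W 1 z)
    {f : E → ℝ} (hf : ContDiff ℝ ∞ f)
    (hmax : ∀ᶠ z in 𝓝 x, f z - 4 * √ (dh (cm h W) y z ^ 2 + τ) ≤
      f x - 4 * √ (dh (cm h W) y x ^ 2 + τ)) :
    lapC h f x * √ τ ≤ 2 * (2 * (finrank ℝ E : ℝ) * A ^ 2 * (1 + 36 * (finrank ℝ E : ℝ))) := by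
  have hH := isMetric_cm hm hW.sm hW.pos
  set D : ℝ := √ (dh (cm h W) y x ^ 2 + τ) with hD
  set m : ℝ := f x - 4 * D with hm'
  have hd0 : 0 ≤ dh (cm h W) y x := Pin.A.dh_nonneg hH y x
  have hDτ : √ τ ≤ D := Real.sqrt_le_sqrt (by nlinarith)
  have hτ0 : 0 < √ τ := Real.sqrt_pos.2 hτ
  have hD0 : 0 < D := hτ0.trans_le hDτ
  have hDsq : D ^ 2 = dh (cm h W) y x ^ 2 + τ := Real.sq_sqrt (by positivity)
  have hfx : (f x - m) / 4 = D := by rw [hm']; ring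
  have hφ : ContDiff ℝ ∞ fun z => ((f z - m) / 4) ^ 2 - τ :=
    ((((hf.sub contDiff_const).div_const 4).pow 2).sub contDiff_const)
  have hpos : ∀ᶠ z in 𝓝 x, 0 < (f z - m) / 4 := by
    have hc : ContinuousAt (fun z => (f z - m) / 4) x :=
      ((hf.continuous.sub continuous_const).div_const 4).continuousAt
    have h0 : 0 < (f x - m) / 4 := by rw [hfx]; exact hD0
    exact hc.eventually (lt_mem_nhds h0)
  have hle : ∀ᶠ z in 𝓝 x, ((f z - m) / 4) ^ 2 - τ ≤ dh (cm h W) y z ^ 2 := by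
    filter_upwards [hmax, hpos] with z hz hz'
    have h1 : (f z - m) / 4 ≤ √ (dh (cm h W) y z ^ 2 + τ) := by
      have : f z - 4 * √ (dh (cm h W) y z ^ 2 + τ) ≤ m := hz
      linarith
    have h2 : √ (dh (cm h W) y z ^ 2 + τ) ^ 2 = dh (cm h W) y z ^ 2 + τ :=
      Real.sq_sqrt (by positivity)
    nlinarith
  have heq : ((f x - m) / 4) ^ 2 - τ = dh (cm h W) y x ^ 2 := by
    rw [hfx, hDsq]
    ring
  have h1 := lap_sq_dist_le2 hm hP hW hE hn (p := y) (y := x) (κ := 1) zero_le_one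
    (fun z hz => hric z (hz.trans hxy)) hφ.contDiffAt hle heq
  have h2 := G4.lapC_comp h (u := f) (y := x) (φ := fun t => ((t - m) / 4) ^ 2 - τ) hf.contDiffAt
    (by fun_prop)
  rw [h2, (S2F_deriv m τ (f x)).deriv, S2F_deriv2] at h1
  have h3 : 0 ≤ gradC h f f x := G4.gradC_nonneg (hm.2 x)
  have h4 : (f x - m) / 8 = D / 2 := by linarith
  rw [h4] at h1
  set N : ℝ := (finrank ℝ E : ℝ) with hN
  have hN0 : 0 ≤ N := Nat.cast_nonneg _
  have h5 : dh (cm h W) y x ^ 2 ≤ 36 := by nlinarith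
  have h8 : 2 * N * A ^ 2 * (1 + N * 1 * dh (cm h W) y x ^ 2) ≤
      2 * N * A ^ 2 * (1 + 36 * N) := by
    refine mul_le_mul_of_nonneg_left ?_ (by positivity)
    have := mul_le_mul_of_nonneg_left h5 hN0
    linarith
  have h6 : lapC h f x * D ≤ 2 * (2 * N * A ^ 2 * (1 + 36 * N)) := by nlinarith
  rcases le_or_gt 0 (lapC h f x) with h7 | h7
  · exact (mul_le_mul_of_nonneg_left hDτ h7).trans h6
  · have : lapC h f x * √ τ < 0 := mul_neg_of_neg_of_pos h7 hτ0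
    have h9 : 0 ≤ 2 * (2 * N * A ^ 2 * (1 + 36 * N)) := by positivity
    linarith

theorem resolvent_le2 (hm : Curv.IsMetric h) (hP : Proper h) {A : ℝ} (hW : Wt W A)
    (hE : IsExp (cm h W) Ex) (hn : 2 ≤ finrank ℝ E) {y : E} {τ ε : ℝ}
    (hτ : 0 < τ) (hτ1 : τ ≤ 1) (hε1 : ε ≤ 1) (hric : ∀ z, dh (cm h W) y z ≤ 6 → Gd h W 1 z)
    {f g : E → ℝ} (hf : ContDiff ℝ ∞ f) (hg : ∀ z z', |g z - g z'| ≤ 4 * dh (cm h W) z z')
    (hfg : ∀ z, dh (cm h W) y z ≤ 6 → |f z - τ * lapC h f z - g z| ≤ ε ∧ |f z| ≤ 1 + ε) :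
    f y ≤ g y + ε +
      (4 + 2 * (2 * (finrank ℝ E : ℝ) * A ^ 2 * (1 + 36 * (finrank ℝ E : ℝ)))) * √ τ := by
  have hH := isMetric_cm hm hW.sm hW.pos
  have hPH := proper_cm hm hP hW.sm hW.one_le
  have hdc : Continuous fun z => dh (cm h W) y z :=
    (Pin.A.dh_continuous hH).comp (continuous_const.prodMk continuous_id)
  have hFc : Continuous fun z => f z - 4 * √ (dh (cm h W) y z ^ 2 + τ) :=
    hf.continuous.sub (continuous_const.mul ((hdc.pow 2).add continuous_const).sqrt)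
  have hyy : dh (cm h W) y y = 0 := Pin.A.dh_self hH y
  have hyK : y ∈ {z | dh (cm h W) y z ≤ 6} := by
    show dh (cm h W) y y ≤ 6
    rw [hyy]
    norm_num
  obtain ⟨x, hxK, hx⟩ := (hPH y 6).exists_isMaxOn ⟨y, hyK⟩ hFc.continuousOn
  have hx' : ∀ z, dh (cm h W) y z ≤ 6 →
      f z - 4 * √ (dh (cm h W) y z ^ 2 + τ) ≤ f x - 4 * √ (dh (cm h W) y x ^ 2 + τ) :=
    fun z hz => hx hz
  have hxK' : dh (cm h W) y x ≤ 6 := hxK
  have hd0 : 0 ≤ dh (cm h W) y x := Pin.A.dh_nonneg hH y x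
  have hτs : √ τ ≤ 1 := Real.sqrt_le_one.2 hτ1
  have hτ0 : 0 < √ τ := Real.sqrt_pos.2 hτ
  have hFy := hx' y hyK
  rw [hyy, zero_pow two_ne_zero, zero_add] at hFy
  have hDx : dh (cm h W) y x ≤ √ (dh (cm h W) y x ^ 2 + τ) := by
    refine Real.le_sqrt_of_sq_le ?_
    linarith
  have hfy := abs_le.1 (hfg y hyK).2
  have hfx := abs_le.1 (hfg x hxK').2
  have hlt : dh (cm h W) y x < 6 := by
    by_contra hcon
    push Not at hcon
    linarith [hfy.1, hfx.2]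
  have hmax : ∀ᶠ z in 𝓝 x, f z - 4 * √ (dh (cm h W) y z ^ 2 + τ) ≤
      f x - 4 * √ (dh (cm h W) y x ^ 2 + τ) := by
    have h1 : ∀ᶠ z in 𝓝 x, dh (cm h W) y z < 6 := hdc.continuousAt.eventually (gt_mem_nhds hlt)
    filter_upwards [h1] with z hz
    exact hx' z hz.le
  have h2 := lap_touch_le2 hm hP hW hE hn hτ hxK' hric hf hmax
  set B : ℝ := 2 * (2 * (finrank ℝ E : ℝ) * A ^ 2 * (1 + 36 * (finrank ℝ E : ℝ))) with hB
  have h3 : τ * lapC h f x ≤ B * √ τ := by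
    have h4 : √ τ * √ τ = τ := Real.mul_self_sqrt hτ.le
    calc τ * lapC h f x = (lapC h f x * √ τ) * √ τ := by rw [mul_assoc, h4]; ring
      _ ≤ B * √ τ := mul_le_mul_of_nonneg_right h2 hτ0.le
  have h5 := abs_le.1 (hfg x hxK').1
  have h6 := abs_le.1 (hg x y)
  rw [Pin.A.dh_comm hH x y] at h6
  nlinarith [h5.2, h6.2]

theorem resolvent_near2 (hm : Curv.IsMetric h) (hP : Proper h) {A : ℝ} (hW : Wt W A)
    (hE : IsExp (cm h W) Ex) (hn : 2 ≤ finrank ℝ E) {y : E} {τ ε : ℝ}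
    (hτ : 0 < τ) (hτ1 : τ ≤ 1) (hε1 : ε ≤ 1) (hric : ∀ z, dh (cm h W) y z ≤ 6 → Gd h W 1 z)
    {f g : E → ℝ} (hf : ContDiff ℝ ∞ f) (hg : ∀ z z', |g z - g z'| ≤ 4 * dh (cm h W) z z')
    (hfg : ∀ z, dh (cm h W) y z ≤ 6 → |f z - τ * lapC h f z - g z| ≤ ε ∧ |f z| ≤ 1 + ε) :
    |f y - g y| ≤ ε +
      (4 + 2 * (2 * (finrank ℝ E : ℝ) * A ^ 2 * (1 + 36 * (finrank ℝ E : ℝ)))) * √ τ := by
  have h1 := resolvent_le2 hm hP hW hE hn hτ hτ1 hε1 hric hf hg hfg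
  have h2 := resolvent_le2 hm hP hW hE hn hτ hτ1 hε1 hric (f := fun z => -1 * f z)
    (g := fun z => -g z) (contDiff_const.mul hf)
    (fun z z' => by
      have := hg z z'
      rw [show -g z - -g z' = -(g z - g z') by ring, abs_neg]
      exact this)
    (fun z hz => by
      obtain ⟨h3, h4⟩ := hfg z hz
      rw [G4.lapC_smul h hf.contDiffAt]
      refine ⟨?_, ?_⟩
      · rw [show -1 * f z - τ * (-1 * lapC h f z) - -g z = -(f z - τ * lapC h f z - g z) by ring,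
          abs_neg]
        exact h3
      · rw [show -1 * f z = -(f z) by ring, abs_neg]
        exact h4)
  rw [abs_le]
  constructor <;> linarith

/-- The case `σ = 1`. -/
theorem bump_one2 (n : ℕ) (hn : 2 ≤ n) (A : ℝ) : ∃ K : ℝ, 0 < K ∧
    ∀ (h : Curv.Coeff (EuclideanSpace ℝ (Fin n))) (W : EuclideanSpace ℝ (Fin n) → ℝ),
    Curv.IsMetric h → Proper h → Wt W A → ∀ p : EuclideanSpace ℝ (Fin n),
      (∀ y, dh (cm h W) p y ≤ 10 → Gd h W 1 y) →
      ∃ f : EuclideanSpace ℝ (Fin n) → ℝ, ContDiff ℝ ∞ f ∧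
        (∀ y, dh (cm h W) p y ≤ 10 → |f y| ≤ 2 ∧ |lapC h f y| ≤ K) ∧
        (∀ y, dh (cm h W) p y ≤ 1 / 2 → 3 / 4 < f y) ∧
        ∀ y, 7 / 8 ≤ dh (cm h W) p y → dh (cm h W) p y ≤ 2 → f y < 1 / 4 := by
  have hfr : finrank ℝ (EuclideanSpace ℝ (Fin n)) = n := by simp
  set N : ℝ := (finrank ℝ (EuclideanSpace ℝ (Fin n)) : ℝ) with hNd
  set B : ℝ := 4 + 2 * (2 * N * A ^ 2 * (1 + 36 * N)) with hB
  have hN : (0 : ℝ) ≤ N := Nat.cast_nonneg _
  have hB0 : 1 ≤ B := by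
    have : 0 ≤ 2 * (2 * N * A ^ 2 * (1 + 36 * N)) := by positivity
    rw [hB]; linarith
  have hBp : 0 < B := by linarith
  set τ : ℝ := (1 / (16 * B)) ^ 2 with hτd
  have hτ : 0 < τ := by positivity
  have h16 : 1 / (16 * B) ≤ 1 := by
    rw [div_le_one (by positivity)]
    linarith
  have hτ1 : τ ≤ 1 := pow_le_one₀ (by positivity) h16
  have hτs : √ τ = 1 / (16 * B) := Real.sqrt_sq (by positivity)
  refine ⟨3 / τ, by positivity, fun h W hm hP hW p hric => ?_⟩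
  have hH := isMetric_cm hm hW.sm hW.pos
  have hPH := proper_cm hm hP hW.sm hW.one_le
  obtain ⟨Ex, hE⟩ := exists_exp hH hPH
  obtain ⟨g, hgc, hg01, hgL, hg1, hg0⟩ := exists_model hH p
  obtain ⟨f, hf, hfK⟩ := S1_resolvent n hm (hPH p 10) hgc
    (fun x => by rw [abs_of_nonneg (hg01 x).1]; exact (hg01 x).2) hτ
    (by norm_num : (0 : ℝ) < 1 / 16)
  have hnear : ∀ y, dh (cm h W) p y ≤ 2 → |f y - g y| ≤ 1 / 8 := by
    intro y hy
    have hin : ∀ z, dh (cm h W) y z ≤ 6 → dh (cm h W) p z ≤ 10 := by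
      intro z hz
      have := Pin.A.dh_triangle hH p y z
      linarith
    have h1 := resolvent_near2 hm hP hW hE (by rw [hfr]; exact hn) hτ hτ1
      (by norm_num : (1 : ℝ) / 16 ≤ 1) (y := y)
      (fun z hz => hric z (hin z hz)) hf hgL (fun z hz => hfK z (hin z hz))
    rw [← hNd, ← hB, hτs] at h1
    have h2 : B * (1 / (16 * B)) = 1 / 16 := by
      field_simp
    rw [h2] at h1
    linarith
  refine ⟨f, hf, fun y hy => ?_, fun y hy => ?_, fun y hy hy' => ?_⟩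
  · obtain ⟨h1, h2⟩ := hfK y hy
    refine ⟨by linarith, ?_⟩
    rw [le_div_iff₀ hτ, ← abs_of_pos hτ, ← abs_mul]
    have h3 := abs_le.1 h1
    have h4 := abs_le.1 h2
    have h5 := hg01 y
    rw [abs_le]
    constructor <;> nlinarith
  · have h1 := abs_le.1 (hnear y (by linarith))
    rw [hg1 y hy] at h1
    linarith
  · have h1 := abs_le.1 (hnear y hy')
    rw [hg0 y hy] at h1
    linarith

/-- Smooth functions with bounded Laplacian separating concentric balls of `W² h`. -/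
theorem S2_bump2 (n : ℕ) (hn : 2 ≤ n) (A : ℝ) : ∃ K : ℝ, 0 < K ∧
    ∀ (h : Curv.Coeff (EuclideanSpace ℝ (Fin n))) (W : EuclideanSpace ℝ (Fin n) → ℝ),
    Curv.IsMetric h → Proper h → Wt W A → ∀ (p : EuclideanSpace ℝ (Fin n)) (σ : ℝ), 0 < σ →
      (∀ y, dh (cm h W) p y ≤ 10 * σ → Gd h W (1 / σ ^ 2) y) →
      ∃ f : EuclideanSpace ℝ (Fin n) → ℝ, ContDiff ℝ ∞ f ∧
        (∀ y, dh (cm h W) p y ≤ 10 * σ → |f y| ≤ 2 ∧ |lapC h f y| ≤ K / σ ^ 2) ∧
        (∀ y, dh (cm h W) p y ≤ σ / 2 → 3 / 4 < f y) ∧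
        ∀ y, 7 / 8 * σ ≤ dh (cm h W) p y → dh (cm h W) p y ≤ 2 * σ → f y < 1 / 4 := by
  obtain ⟨K, hK, H⟩ := bump_one2 n hn A
  refine ⟨K, hK, fun h W hm hP hW p σ hσ hric => ?_⟩
  have hc : (0 : ℝ) < 1 / σ ^ 2 := by positivity
  have hsq : √ (1 / σ ^ 2) = 1 / σ := by
    rw [show 1 / σ ^ 2 = (1 / σ) ^ 2 by rw [div_pow, one_pow]]
    exact Real.sqrt_sq (by positivity)
  have hd : ∀ y, dh (cm (sca (1 / σ ^ 2) h) W) p y = dh (cm h W) p y / σ := by
    intro y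
    rw [sca_cm, dh_sca hc, hsq]
    ring
  have hle : ∀ y (a : ℝ), dh (cm (sca (1 / σ ^ 2) h) W) p y ≤ a ↔ dh (cm h W) p y ≤ a * σ := by
    intro y a
    rw [hd, div_le_iff₀ hσ]
  obtain ⟨f, hf, h1, h2, h3⟩ := H _ W (isMetric_sca hm hc) (proper_sca hP hc) hW p fun y hy => by
    rw [gd_sca h W hc, one_mul]
    exact hric y ((hle y 10).1 hy)
  refine ⟨f, hf, fun y hy => ?_, fun y hy => ?_, fun y hy hy' => ?_⟩
  · obtain ⟨h4, h5⟩ := h1 y ((hle y 10).2 hy)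
    refine ⟨h4, ?_⟩
    rw [lapC_sca hc, abs_div, abs_of_pos hc, div_le_iff₀ hc] at h5
    rw [div_eq_mul_one_div]
    exact h5
  · refine h2 y ((hle y (1 / 2)).2 ?_)
    linarith
  · refine h3 y ?_ ((hle y 2).2 hy')
    rw [hd, le_div_iff₀ hσ]
    exact hy

end Pool.Agent.Lib.MP_df705a_gt.Kat
end
end
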