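import Pool.Agent.Lib.MP_df705a_gt.Pin.E8
import Pool.Agent.Lib.MP_df705a_gt.Mg.G010
import Pool.Agent.Lib.MP_df705a_gt.Kat.L3
import Pool.Agent.Lib.MP_df705a_gt.Kat.L4

section

/-!
# Finite image of the fundamental group: the fibres of the components of the preimage are finite
-/

open scoped Manifold ContDiff Topology unitInterval
open Set Bundle Module Filter MeasureTheory

noncomputable section

namespace Pool.Agent.Lib.MP_df705a_gt.Pin

variable {E' : Type*} [NormedAddCommGroup E'] [NormedSpace ℝ E'] [FiniteDimensional ℝ E']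
  {E : Type*} [NormedAddCommGroup E] [NormedSpace ℝ E] [FiniteDimensional ℝ E]
  {F : Type*} [NormedAddCommGroup F] [InnerProductSpace ℝ F] [FiniteDimensional ℝ F]
  {M : Type*} [TopologicalSpace M] [ChartedSpace E M] [IsManifold 𝓘(ℝ, E) ∞ M]
  {q : E' → M} {s : E' → F}

omit [FiniteDimensional ℝ E] [FiniteDimensional ℝ F] [IsManifold 𝓘(ℝ, E) ∞ M] in
/-- If the image of `π₁(V, q y)` in `π₁(M, q y)` is finite, the component of `q⁻¹ V` which contains
`y` contains only finitely many points `z` with `q z = q y`, `s z = s y`. -/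
theorem finite_fibre (H : StableCover E q s) {V : Set M} (hV : IsOpen V) {y : E'} (hy : q y ∈ V)
    (hfin : (piImage V ⟨q y, hy⟩ : Set (FundamentalGroup M (q y))).Finite) :
    {z ∈ connectedComponentIn (q ⁻¹' V) y | q z = q y ∧ s z = s y}.Finite := by
  have hqc : Continuous q := H.smooth_q.continuous
  have hsc : Continuous s := H.smooth_s.continuous
  have hUo : IsOpen (q ⁻¹' V) := hV.preimage hqc
  have hcontr : ContractibleSpace F := RealTopologicalVectorSpace.contractibleSpace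
  have hp : IsCoveringMap fun y => (q y, s y) := H.cov
  have hrep : ∀ a : FundamentalGroup M (q y), ∃ γ : Path (q y) (q y),
      FundamentalGroup.fromPath ⟦γ⟧ = a := by
    intro a
    obtain ⟨γ, hγ⟩ := Quotient.exists_rep (FundamentalGroup.toPath a)
    exact ⟨γ, hγ⟩
  choose γ hγ using hrep
  have h0 : ∀ a, ((γ a).prod (Path.refl (s y))).toContinuousMap 0 = (q y, s y) := by
    intro a
    exact ((γ a).prod (Path.refl (s y))).source
  let e : FundamentalGroup M (q y) → E' := fun a =>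
    hp.liftPath ((γ a).prod (Path.refl (s y))).toContinuousMap y (h0 a) 1
  refine (hfin.image e).subset ?_
  rintro z ⟨hz, hqz, hsz⟩
  have hj := joinedIn_of_component hUo hz
  let c : Path y z := hj.somePath
  have hc : ∀ t, c t ∈ q ⁻¹' V := hj.somePath_mem
  let c' : Path (⟨q y, hy⟩ : V) ⟨q y, hy⟩ :=
    { toFun := fun t => ⟨q (c t), hc t⟩
      continuous_toFun := (hqc.comp c.continuous).subtype_mk _
      source' := Subtype.ext (by
        show q (c 0) = q y
        rw [c.source])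
      target' := Subtype.ext (by
        show q (c 1) = q y
        rw [c.target, hqz]) }
  let c₂ : Path (s y) (s y) :=
    { toFun := fun t => s (c t)
      continuous_toFun := hsc.comp c.continuous
      source' := by
        show s (c 0) = s y
        rw [c.source]
      target' := by
        show s (c 1) = s y
        rw [c.target, hsz] }
  let c₁ : Path (q y) (q y) := c'.map continuous_subtype_val
  let a : FundamentalGroup M (q y) := FundamentalGroup.fromPath ⟦c₁⟧
  refine ⟨a, ⟨FundamentalGroup.fromPath ⟦c'⟧, rfl⟩, ?_⟩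
  have h1 : (γ a).Homotopic c₁ := Quotient.exact (hγ a)
  have h2 : (Path.refl (s y)).Homotopic c₂ := SimplyConnectedSpace.paths_homotopic _ _
  have h3 : ((γ a).prod (Path.refl (s y))).Homotopic (c₁.prod c₂) :=
    Nonempty.map2 Path.Homotopic.prodHomotopy h1 h2
  have h4 : (c₁.prod c₂).toContinuousMap 0 = (q y, s y) := (c₁.prod c₂).source
  have h5 := hp.liftPath_apply_one_eq_of_homotopicRel h3 y (h0 a) h4
  have h6 : c.toContinuousMap = hp.liftPath (c₁.prod c₂).toContinuousMap y h4 := by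
    rw [hp.eq_liftPath_iff']
    exact ⟨funext fun t => rfl, c.source⟩
  refine h5.trans ?_
  rw [← h6]
  exact c.target

end Pool.Agent.Lib.MP_df705a_gt.Pin
end
end

section

/-!
# Finite image of the fundamental group: compactness of the thick part of a component
-/

open scoped Manifold ContDiff Topology unitInterval
open Set Bundle Module Filter MeasureTheory

noncomputable section

namespace Pool.Agent.Lib.MP_df705a_gt.Pin

variable {E' : Type*} [NormedAddCommGroup E'] [NormedSpace ℝ E'] [FiniteDimensional ℝ E']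
  {E : Type*} [NormedAddCommGroup E] [NormedSpace ℝ E] [FiniteDimensional ℝ E]
  {F : Type*} [NormedAddCommGroup F] [InnerProductSpace ℝ F] [FiniteDimensional ℝ F]
  {M : Type*} [TopologicalSpace M] [ChartedSpace E M] [IsManifold 𝓘(ℝ, E) ∞ M]
  {q : E' → M} {s : E' → F}

omit [FiniteDimensional ℝ E] [FiniteDimensional ℝ F] [IsManifold 𝓘(ℝ, E) ∞ M] in
/-- The part of a component of `q⁻¹ V` which lies over the compact set `Z × B`, `Z ⊆ V`, is
compact, if all the groups `piImage V x` are finite. -/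
theorem isCompact_thick (H : StableCover E q s) {V Z : Set M} (hV : IsOpen V)
    (hZ : IsCompact Z) (hZV : Z ⊆ V) (hfin : ∀ x : V, Finite (piImage V x)) {B : Set F}
    (hB : IsCompact B) (y : E') :
    IsCompact {x ∈ connectedComponentIn (q ⁻¹' V) y | q x ∈ Z ∧ s x ∈ B} := by
  have : LocallyConnectedSpace (ModelProd E F) :=
    inferInstanceAs (LocallyConnectedSpace (E × F))
  have : LocallyConnectedSpace (M × F) :=
    ChartedSpace.locallyConnectedSpace (ModelProd E F) (M × F)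
  have h1 : (fun y => (q y, s y)) ⁻¹' (V ×ˢ (univ : Set F)) = q ⁻¹' V := by
    ext x
    simp
  have h2 := isCompact_component H.cov (O := V ×ˢ (univ : Set F)) (hV.prod isOpen_univ)
    (Q := Z ×ˢ B) (hZ.prod hB) (prod_mono hZV (subset_univ B)) (y := y) ?_
  · rw [h1] at h2
    exact h2
  rw [h1]
  rintro ⟨z, b⟩ hzb
  rcases eq_empty_or_nonempty {x ∈ connectedComponentIn (q ⁻¹' V) y | (q x, s x) = (z, b)} with
    h3 | ⟨y', hy', hy'z⟩
  · rw [h3]
    exact finite_empty
  · have h4 : connectedComponentIn (q ⁻¹' V) y = connectedComponentIn (q ⁻¹' V) y' :=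
      connectedComponentIn_eq hy'
    have hyV : q y' ∈ V := connectedComponentIn_subset (q ⁻¹' V) y hy'
    refine (finite_fibre H hV hyV (have := hfin ⟨q y', hyV⟩; Set.toFinite _)).subset ?_
    rintro x ⟨hx, hxz⟩
    rw [h4] at hx
    rw [← hy'z, Prod.mk.injEq] at hxz
    exact ⟨hx, hxz.1, hxz.2⟩

end Pool.Agent.Lib.MP_df705a_gt.Pin
end
end

section

/-!
# Finite image of the fundamental group: the thick parts of the components are uniformly bounded
-/

open scoped Manifold ContDiff Topology unitInterval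
open Set Bundle Module Filter MeasureTheory

noncomputable section

namespace Pool.Agent.Lib.MP_df705a_gt.Pin

open Pool.Agent.Lib.MP_df705a_gt.Coll (Met)

variable {E' : Type*} [NormedAddCommGroup E'] [NormedSpace ℝ E'] [FiniteDimensional ℝ E']
  {E : Type*} [NormedAddCommGroup E] [NormedSpace ℝ E] [FiniteDimensional ℝ E]
  {F : Type*} [NormedAddCommGroup F] [InnerProductSpace ℝ F] [FiniteDimensional ℝ F]
  {M : Type*} [TopologicalSpace M] [ChartedSpace E M] [IsManifold 𝓘(ℝ, E) ∞ M]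
  {q : E' → M} {s : E' → F}

/-- Deck transformations composed with translations of `F`: the effect on `s`. -/
theorem exists_deck_shift (g : Met E M) (H : StableCover E q s) (x z : E') (hq : q z = q x) :
    ∃ γ : E' ≃ₜ E', (∀ w, q (γ w) = q w) ∧ (∀ w, s (γ w) = s w + (s z - s x)) ∧
      (∀ y w, dh (st g q s) (γ y) (γ w) = dh (st g q s) y w) ∧ γ x = z := by
  have hh := isMetric_st g H
  obtain ⟨γ, γ', hγ, hγ', h1, h2, h3, h4, h5⟩ := exists_lift H (x := x) (z := z)
    (a := s z - s x) hq (by abel)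
  have h4' : ∀ w, q (γ' w) = q w ∧ s (γ' w) = s w + (s x - s z) := fun w =>
    ⟨(h4 w).1, by rw [(h4 w).2]; abel⟩
  have hs1 := contDiff_lift H hγ h3
  have hs2 := contDiff_lift H hγ' h4'
  refine ⟨⟨⟨γ, γ', h2, h1⟩, hγ, hγ'⟩, fun w => (h3 w).1, fun w => (h3 w).2, fun y w => ?_, h5⟩
  show dh (st g q s) (γ y) (γ w) = dh (st g q s) y w
  apply le_antisymm
  · exact dh_map_le hh (hs1.of_le (by simp)) (fun w v => ip_lift g H hs1 h3 w v) y w
  · have h8 := dh_map_le hh (hs2.of_le (by simp)) (fun w v => ip_lift g H hs2 h4' w v) (γ y) (γ w)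
    rwa [h2, h2] at h8

/-- The image of a closed union of fibres is closed. -/
theorem isClosed_image_fibre (H : StableCover E q s) {T : Set E'} (hT : IsClosed T)
    (hTq : ∀ x z, q x = q z → x ∈ T → z ∈ T) : IsClosed (q '' T) := by
  have h1 : q '' T = (q '' Tᶜ)ᶜ := by
    ext y
    constructor
    · rintro ⟨x, hx, rfl⟩ ⟨z, hz, hzx⟩
      exact hz (hTq x z hzx.symm hx)
    · intro hy
      obtain ⟨x, rfl⟩ := q_surjective H y
      refine ⟨x, ?_, rfl⟩
      by_contra hx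
      exact hy ⟨x, hx, rfl⟩
  rw [h1]
  exact (q_isOpenMap H _ hT.isOpen_compl).isClosed_compl

/-- Let `T` be a closed subset of `q⁻¹ V` which is a union of fibres of `q`, and assume that all the
groups `piImage V x` are finite. Then two points `x`, `x'` of `T` in one component of `q⁻¹ V` with
`‖s x - s x'‖ ≤ L` have distance at most `R`. -/
theorem bounded_thick [CompactSpace M] (g : Met E M) (H : StableCover E q s) {V : Set M}
    (hV : IsOpen V) (hfin : ∀ x : V, Finite (piImage V x)) {T : Set E'} (hT : IsClosed T)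
    (hTV : T ⊆ q ⁻¹' V) (hTq : ∀ x z, q x = q z → x ∈ T → z ∈ T) (L : ℝ) :
    ∃ R : ℝ, ∀ x ∈ T, ∀ x' ∈ T, x' ∈ connectedComponentIn (q ⁻¹' V) x → ‖s x - s x'‖ ≤ L →
      dh (st g q s) x x' ≤ R := by
  have hh := isMetric_st g H
  obtain ⟨K₀, G, G', hG⟩ := exists_coCpt g H
  have hp : Proper (st g q s) := proper_of_coCpt hh hG
  have hd := isD_dh hh hp
  obtain ⟨K, hK, hKs⟩ := exists_compact_cover H
  have hZ : IsCompact (q '' T) := (isClosed_image_fibre H hT hTq).isCompact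
  have hZV : q '' T ⊆ V := by
    rintro _ ⟨x, hx, rfl⟩
    exact hTV hx
  have hVo : IsOpen (q ⁻¹' V) := hV.preimage H.smooth_q.continuous
  obtain ⟨t, ht⟩ := (hK.inter_right hT).elim_finite_subcover
    (fun y => connectedComponentIn (q ⁻¹' V) y) (fun y => hVo.connectedComponentIn)
    (fun x hx => mem_iUnion.2 ⟨x, mem_connectedComponentIn (hTV hx.2)⟩)
  have hP : ProperSpace F := FiniteDimensional.proper_real F
  have hS : IsCompact (⋃ y ∈ t, {x ∈ connectedComponentIn (q ⁻¹' V) y |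
      q x ∈ q '' T ∧ s x ∈ Metric.closedBall (0 : F) L}) :=
    t.isCompact_biUnion fun y _ => isCompact_thick H hV hZ hZV hfin
      (isCompact_closedBall (0 : F) L) y
  obtain ⟨R, hR⟩ := (hK.prod hS).exists_bound_of_continuousOn hd.cont.continuousOn
  refine ⟨R, ?_⟩
  intro x hx x' hx' hxx' hL
  obtain ⟨z, hzK, hqz, hsz⟩ := hKs (q x)
  obtain ⟨γ, h1, h2, h3, h4⟩ := exists_deck_shift g H x z hqz
  have hzT : z ∈ T := hTq x z hqz.symm hx
  obtain ⟨y, hy, hzy⟩ := mem_iUnion₂.1 (ht ⟨hzK, hzT⟩)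
  have h5 : γ x' ∈ connectedComponentIn (q ⁻¹' V) y := by
    rw [connectedComponentIn_eq hzy, ← h4, ← comp_image γ h1 (hTV hx)]
    exact mem_image_of_mem γ hxx'
  have h6 : ‖s (γ x')‖ ≤ L := by
    rw [h2, hsz]
    calc ‖s x' + (0 - s x)‖ = ‖s x - s x'‖ := by
          rw [← norm_neg]
          congr 1
          abel
      _ ≤ L := hL
  have h7 := hR (z, γ x') ⟨hzK, mem_iUnion₂.2 ⟨y, hy, h5, ⟨x', hx', (h1 x').symm⟩, by
    rw [mem_closedBall_zero_iff]
    exact h6⟩⟩
  rw [← h3, h4]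
  exact (le_abs_self _).trans h7

end Pool.Agent.Lib.MP_df705a_gt.Pin
end
end

section

/-!
# Lower bounds of the Ricci curvature in the sense of Kato: the recursion
-/

open scoped Manifold ContDiff Topology
open Set Bundle Module Filter MeasureTheory

noncomputable section

set_option linter.unusedSectionVars false

namespace Pool.Agent.Lib.MP_df705a_gt.Kat

open Pool.Agent.Lib.MP_df705a_gt.Twist Pool.Agent.Lib.MP_df705a_gt.Perm
open Pool.Agent.Lib.MP_df705a_gt.Pin
open Pool.Agent.Lib.MP_df705a_gt.Coll (trM ipM)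
open Pool.Agent.Lib.MP_df705a_gt.Coll.T (ddC mat pull RM SmF)

/-- `aI (q+1) q ≤ C aI 1 0`. Proof: two step induction. `q = 0`: trivial. `q = 1`: `exists_aI_one_le` with
`m = 0`. `q + 2`: `exists_aI_le` with `m = q + 1`, `exists_bI_le` with `m = q + 1`, and
`aI (q+3) q ≤ aI (q+1) q` (`Loc.aI_anti`). -/
theorem exists_aI_bound (E : Type*) [NormedAddCommGroup E] [NormedSpace ℝ E]
    [FiniteDimensional ℝ E] [MeasurableSpace E] [BorelSpace E] (hE : 2 ≤ finrank ℝ E) (K c : ℝ)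
    (q : ℕ) (hq : q ≤ finrank ℝ E + 1) : ∃ C : ℝ, 0 ≤ C ∧
    ∀ (h : Curv.Coeff E) (f : Fin (finrank ℝ E) → E → ℝ) (ψ W : E → ℝ), Loc2 h f ψ W K c →
      aI h f ψ (q + 1) q ≤ C * aI h f ψ 1 0 := by
  suffices H : ∀ q : ℕ, (q ≤ finrank ℝ E + 1 → ∃ C : ℝ, 0 ≤ C ∧
      ∀ (h : Curv.Coeff E) (f : Fin (finrank ℝ E) → E → ℝ) (ψ W : E → ℝ), Loc2 h f ψ W K c →
        aI h f ψ (q + 1) q ≤ C * aI h f ψ 1 0) ∧ (q + 1 ≤ finrank ℝ E + 1 → ∃ C : ℝ, 0 ≤ C ∧
      ∀ (h : Curv.Coeff E) (f : Fin (finrank ℝ E) → E → ℝ) (ψ W : E → ℝ), Loc2 h f ψ W K c →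
        aI h f ψ (q + 1 + 1) (q + 1) ≤ C * aI h f ψ 1 0) from (H q).1 hq
  intro q
  induction q with
  | zero =>
    refine ⟨fun _ => ⟨1, zero_le_one, fun h f ψ W _ => by rw [one_mul]⟩, fun _ => ?_⟩
    obtain ⟨C, hC, H⟩ := exists_aI_one_le E K c 0
    exact ⟨C, hC, fun h f ψ W L => H h f ψ W L⟩
  | succ q ih =>
    refine ⟨ih.2, fun hq2 => ?_⟩
    obtain ⟨Ca, hCa, Ha⟩ := ih.1 (by omega)
    obtain ⟨Cb, hCb, Hb⟩ := ih.2 (by omega)
    obtain ⟨C1, hC1, H1⟩ := exists_aI_le E K c (q + 1) q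
    obtain ⟨C2, hC2, H2⟩ := exists_bI_le2 E hE K c (q + 1) q (by omega)
    refine ⟨C1 * (Cb + C2 * (Cb + Ca)), mul_nonneg hC1 (add_nonneg hCb
      (mul_nonneg hC2 (add_nonneg hCb hCa))), fun h f ψ W L => ?_⟩
    have e0 : 0 ≤ aI h f ψ 1 0 := L.aI_nonneg 1 0
    have e1 : aI h f ψ (q + 1 + 2) (q + 2) ≤
      C1 * (aI h f ψ (q + 1 + 1) (q + 1) + bI2 h f ψ W (q + 1 + 2) q) := H1 h f ψ W L
    have e2 : bI2 h f ψ W (q + 1 + 2) q ≤
      C2 * (aI h f ψ (q + 1 + 1) (q + 1) + aI h f ψ (q + 1 + 2) q) := H2 h f ψ W L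
    have e3 : aI h f ψ (q + 1 + 2) q ≤ aI h f ψ (q + 1) q :=
      L.aI_anti (Nat.le_add_left 1 q) (Nat.le_add_right _ _) q
    have e4 := Ha h f ψ W L
    have e5 := Hb h f ψ W L
    have e6 : bI2 h f ψ W (q + 1 + 2) q ≤ C2 * ((Cb + Ca) * aI h f ψ 1 0) :=
      e2.trans (mul_le_mul_of_nonneg_left (by linarith) hC2)
    have e7 : aI h f ψ (q + 1 + 2) (q + 2) ≤
        C1 * (Cb * aI h f ψ 1 0 + C2 * ((Cb + Ca) * aI h f ψ 1 0)) :=
      e1.trans (mul_le_mul_of_nonneg_left (by linarith) hC1)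
    calc aI h f ψ (q + 1 + 2) (q + 2)
        ≤ C1 * (Cb * aI h f ψ 1 0 + C2 * ((Cb + Ca) * aI h f ψ 1 0)) := e7
      _ = C1 * (Cb + C2 * (Cb + Ca)) * aI h f ψ 1 0 := by ring

/-- `bI (n+2) (n-1) ≤ C aI 1 0` for `n ≥ 1`: `exists_bI_le` with `m = n`, `q = n - 1`,
`aI (n+2) (n-1) ≤ aI n (n-1)`, `exists_aI_bound`. -/
theorem exists_bI_bound (E : Type*) [NormedAddCommGroup E] [NormedSpace ℝ E]
    [FiniteDimensional ℝ E] [MeasurableSpace E] [BorelSpace E] (hE : 2 ≤ finrank ℝ E) (K c : ℝ)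
    {n : ℕ} (hn : 1 ≤ n) (hnE : n ≤ finrank ℝ E) :
    ∃ C : ℝ, 0 ≤ C ∧
    ∀ (h : Curv.Coeff E) (f : Fin (finrank ℝ E) → E → ℝ) (ψ W : E → ℝ), Loc2 h f ψ W K c →
      bI2 h f ψ W (n + 2) (n - 1) ≤ C * aI h f ψ 1 0 := by
  obtain ⟨k, rfl⟩ : ∃ k, n = k + 1 := ⟨n - 1, by omega⟩
  obtain ⟨C, hC, H⟩ := exists_bI_le2 E hE K c (k + 1) k hnE
  obtain ⟨Ca, hCa, Ha⟩ := exists_aI_bound E hE K c k (by omega)
  obtain ⟨Cb, hCb, Hb⟩ := exists_aI_bound E hE K c (k + 1) (by omega)
  refine ⟨C * (Cb + Ca), mul_nonneg hC (add_nonneg hCb hCa), fun h f ψ W L => ?_⟩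
  have e1 : bI2 h f ψ W (k + 1 + 2) k ≤
    C * (aI h f ψ (k + 1 + 1) (k + 1) + aI h f ψ (k + 1 + 2) k) := H h f ψ W L
  have e3 : aI h f ψ (k + 1 + 2) k ≤ aI h f ψ (k + 1) k :=
    L.aI_anti (Nat.le_add_left 1 k) (Nat.le_add_right _ _) k
  have e4 := Ha h f ψ W L
  have e5 := Hb h f ψ W L
  calc bI2 h f ψ W (k + 1 + 2) k
      ≤ C * (Cb * aI h f ψ 1 0 + Ca * aI h f ψ 1 0) :=
        e1.trans (mul_le_mul_of_nonneg_left (by linarith) hC)
    _ = C * (Cb + Ca) * aI h f ψ 1 0 := by ring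

end Pool.Agent.Lib.MP_df705a_gt.Kat
end
end
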