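import Pool.Agent.Lib.MP_df705a_gt.Kat.K7
import Pool.Agent.Lib.MP_df705a_gt.Pin.AG7
import Pool.Agent.Lib.MP_df705a_gt.Mg.G025
import Pool.Agent.Lib.MP_df705a_gt.Mg.G021
import Pool.Agent.Lib.MP_df705a_gt.Mg.G018
import Pool.Agent.Lib.MP_df705a_gt.Mg.G020
import Pool.Agent.Lib.MP_df705a_gt.Mg.G071
import Pool.Agent.Lib.MP_df705a_gt.Mg.G022
import Pool.Agent.Lib.MP_df705a_gt.Mg.G004
import Pool.Agent.Lib.MP_df705a_gt.Mg.G010
import Pool.Agent.Lib.MP_df705a_gt.Mg.G001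

section

/-!
# Lower bounds of the Ricci curvature in the sense of Kato: volume of balls of `W² h`
-/

open scoped Manifold ContDiff Topology
open Set Bundle Module Filter MeasureTheory

noncomputable section

set_option linter.unusedSectionVars false

namespace Pool.Agent.Lib.MP_df705a_gt.Kat

open Pool.Agent.Lib.MP_df705a_gt.Twist Pool.Agent.Lib.MP_df705a_gt.Perm
open Pool.Agent.Lib.MP_df705a_gt.Pin Pool.Agent.Lib.MP_df705a_gt.Pin.A

/-- The volume of the balls of radius `4`. -/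
theorem exists_vol_le2 (E : Type*) [NormedAddCommGroup E] [NormedSpace ℝ E] [FiniteDimensional ℝ E]
    [MeasurableSpace E] [BorelSpace E] (hn : 2 ≤ finrank ℝ E) (A : ℝ) : ∃ V : ℝ, 0 < V ∧
      ∀ (h : Curv.Coeff E) (W : E → ℝ), Curv.IsMetric h → Proper h → Wt W A → ∀ p : E,
      (∀ y, dh (cm h W) p y ≤ 5 → Gd h W 1 y) →
      (vol h {y | dh (cm h W) p y ≤ 4}).toReal ≤ V := by
  set c : ENNReal := ENNReal.ofReal (CD (finrank ℝ E) A 1 5 * 5 ^ finrank ℝ E) * om E with hc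
  have hctop : c < ⊤ := ENNReal.mul_lt_top ENNReal.ofReal_lt_top om_lt_top
  refine ⟨c.toReal + 1, by positivity, ?_⟩
  intro h W hm hP hW p hric
  have hH := isMetric_cm hm hW.sm hW.pos
  have hPH := proper_cm hm hP hW.sm hW.one_le
  obtain ⟨Ex, hE⟩ := exists_exp hH hPH
  have h1 : vol h (ballh (cm h W) p 5) ≤ c :=
    vol_ball_le2 hm hP hW hE hn p zero_le_one (by norm_num) hric
  have h2 : vol h {y | dh (cm h W) p y ≤ 4} ≤ vol h (ballh (cm h W) p 5) := by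
    refine measure_mono fun y hy => ?_
    have hy' : dh (cm h W) p y ≤ 4 := hy
    have h5 : dh (cm h W) p y < 5 := by linarith
    exact h5
  have h3 := ENNReal.toReal_mono hctop.ne (h2.trans h1)
  linarith

/-- The theorem of Bishop and Gromov for balls of `W² h`. -/
theorem bishop_gromov_fin (n : ℕ) (hn : 2 ≤ n) (A : ℝ) : ∃ C : ℝ, 0 < C ∧
    ∀ (h : Curv.Coeff (EuclideanSpace ℝ (Fin n))) (W : EuclideanSpace ℝ (Fin n) → ℝ),
    Curv.IsMetric h → Proper h → Wt W A → ∀ (x : EuclideanSpace ℝ (Fin n)) (κ r R : ℝ), 0 ≤ κ →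
      0 < r → r ≤ R → κ * R ^ 2 ≤ 1 → (∀ y, dh (cm h W) x y ≤ R → Gd h W κ y) →
      vol h (ballh (cm h W) x R) ≤
        ENNReal.ofReal (C * (R / r) ^ n) * vol h (ballh (cm h W) x r) := by
  have hfr : finrank ℝ (EuclideanSpace ℝ (Fin n)) = n := by simp
  refine ⟨(A ^ 2 + 1) * Real.exp (2 * ((n : ℝ) - 1 - 1) * Real.log A +
    ((n : ℝ) - 1) * (n : ℝ) / 2), by positivity, ?_⟩
  intro h W hm hP hW x κ r R hκ hr hrR hκR hric
  have hH := isMetric_cm hm hW.sm hW.pos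
  have hPH := proper_cm hm hP hW.sm hW.one_le
  obtain ⟨Ex, hE⟩ := exists_exp hH hPH
  have h1 := bishop_gromov2 hm hP hW hE (by rw [hfr]; exact hn) x hκ hr hrR hric
  refine h1.trans (mul_le_mul' (ENNReal.ofReal_le_ofReal ?_) le_rfl)
  rw [hfr]
  refine mul_le_mul_of_nonneg_right ?_ (by have := hr.trans_le hrR; positivity)
  unfold CD
  have hn' : (2 : ℝ) ≤ n := by exact_mod_cast hn
  have h2 : ((n : ℝ) - 1) * ((n : ℝ) * κ) * R ^ 2 / 2 ≤ ((n : ℝ) - 1) * (n : ℝ) / 2 := by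
    have h3 : 0 ≤ ((n : ℝ) - 1) * (n : ℝ) := mul_nonneg (by linarith) (by linarith)
    have h4 := mul_le_mul_of_nonneg_left hκR h3
    have h5 : ((n : ℝ) - 1) * ((n : ℝ) * κ) * R ^ 2 = ((n : ℝ) - 1) * (n : ℝ) * (κ * R ^ 2) := by
      ring
    rw [h5]
    linarith
  refine mul_le_mul (by linarith) (Real.exp_le_exp.2 (by linarith)) (Real.exp_nonneg _)
    (by positivity)

end Pool.Agent.Lib.MP_df705a_gt.Kat
end
end

section

/-!
# Lower bounds of the Ricci curvature in the sense of Kato: the integral of the determinant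
-/

open scoped Manifold ContDiff Topology
open Set Bundle Module Filter MeasureTheory

noncomputable section

set_option linter.unusedSectionVars false

namespace Pool.Agent.Lib.MP_df705a_gt.Kat

open Pool.Agent.Lib.MP_df705a_gt.Twist Pool.Agent.Lib.MP_df705a_gt.Perm
open Pool.Agent.Lib.MP_df705a_gt.Pin
open Pool.Agent.Lib.MP_df705a_gt.Coll (trM ipM)
open Pool.Agent.Lib.MP_df705a_gt.Coll.T (ddC mat pull RM SmF)

variable {E : Type*} [NormedAddCommGroup E] [NormedSpace ℝ E] [FiniteDimensional ℝ E]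
  {h : Curv.Coeff E} {f : Fin (finrank ℝ E) → E → ℝ} {ψ W : E → ℝ} {K c : ℝ} {x : E}
  [MeasurableSpace E] [BorelSpace E]

/-- The integral of the determinant. Proof (`n = finrank ℝ E ≥ 1`): for every `δ > 0` `jacobi` for
`φ = tf h f ψ δ` and the three inequalities above give, with
`D = 2 (n+2)² c² ∫ ψ^(2n+2)` and `D' = ∫ ψ^(2n+4) scal` (independent of `δ`),
`Λ ∫ ψ^(2n+4) G ≤ Λ ∫ φ² ≤ γ (2 n! bI (n+2) (n-1) + 2 (n+2)² c² n! aI (n+1) n + δ² D)
+ n! bI (n+2) (n-1) + δ² D'`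
(`H ≤ H + (R + P)` and `R + P ≤ H + (R + P)` where `ψ ≠ 0`). By `exists_bI_bound`, `exists_aI_bound` the right
hand side is at most `C (1 + γ) aI 1 0 + δ² (γ D + D')`. Let `δ → 0`. -/
theorem exists_int_GG_le2 (E : Type*) [NormedAddCommGroup E] [NormedSpace ℝ E]
    [FiniteDimensional ℝ E] [MeasurableSpace E] [BorelSpace E] (hE : 2 ≤ finrank ℝ E) (K c : ℝ) :
    ∃ C : ℝ, 0 ≤ C ∧
    ∀ (h : Curv.Coeff E) (f : Fin (finrank ℝ E) → E → ℝ) (ψ W : E → ℝ), Loc2 h f ψ W K c →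
      ∀ (γ Λ : ℝ) (w : E → ℝ), 0 ≤ γ → 0 ≤ Λ → ContDiff ℝ ∞ w → (∀ x, 0 < w x) →
      (∀ x, ψ x ≠ 0 → γ * lapC h w x ≤ (Curv.scal h x - Λ) * w x) →
      Λ * ∫ x, ψ x ^ (2 * (finrank ℝ E + 2)) * GG h f x ∂(vol h) ≤
        C * (1 + γ) * aI h f ψ 1 0 := by
  classical
  obtain ⟨Cb, hCb0, hCb⟩ := exists_bI_bound E hE K c (n := finrank ℝ E) (by omega) le_rfl
  obtain ⟨Ca, hCa0, hCa⟩ := exists_aI_bound E hE K c (finrank ℝ E) (by omega)
  set N : ℝ := ((finrank ℝ E).factorial : ℝ) with hN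
  have hN0 : 0 ≤ N := Nat.cast_nonneg _
  set d : ℝ := 2 * (finrank ℝ E + 2 : ℝ) ^ 2 * c ^ 2 with hd
  have hd0 : 0 ≤ d := by positivity
  refine ⟨2 * N * Cb + d * N * Ca, by positivity, fun h f ψ W L γ Λ w hγ hΛ hw hw0 hle => ?_⟩
  have hHc := continuous_HH L.met L.sm
  have hRc := continuous_RT L.met L.sm L.wsm L.wpos
  have hPc : Continuous (PP h f) := (contDiff_PP L.met L.sm).continuous
  have hGc : Continuous (GG h f) := (contDiff_GG L.met L.sm).continuous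
  have hSc := continuous_scal L.met
  -- weights
  have w1 : Continuous (fun x => ψ x ^ (2 * (finrank ℝ E + 2))) := L.psm.continuous.pow _
  have w1c : HasCompactSupport (fun x => ψ x ^ (2 * (finrank ℝ E + 2))) := by
    refine HasCompactSupport.comp_left (g := fun t : ℝ => t ^ (2 * (finrank ℝ E + 2))) L.cpt ?_
    have : 2 * (finrank ℝ E + 2) ≠ 0 := by omega
    simp [this]
  have w2 : Continuous (fun x => ψ x ^ (2 * (finrank ℝ E + 1))) := L.psm.continuous.pow _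
  have w2c : HasCompactSupport (fun x => ψ x ^ (2 * (finrank ℝ E + 1))) := by
    refine HasCompactSupport.comp_left (g := fun t : ℝ => t ^ (2 * (finrank ℝ E + 1))) L.cpt ?_
    have : 2 * (finrank ℝ E + 1) ≠ 0 := by omega
    simp [this]
  have hψ1 : ∀ x, 0 ≤ ψ x := L.nonneg
  -- integrable functions
  have i1 : Integrable (fun x => ψ x ^ (2 * (finrank ℝ E + 2)) * GG h f x) (vol h) :=
    integrable_vol L.met (w1.mul hGc) w1c.mul_right
  have i2 : Integrable (fun x => ψ x ^ (2 * (finrank ℝ E + 2)) *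
      PP h f x ^ (finrank ℝ E - 1) * HH h f x) (vol h) :=
    integrable_vol L.met ((w1.mul (hPc.pow _)).mul hHc) w1c.mul_right.mul_right
  have i3 : Integrable (fun x => ψ x ^ (2 * (finrank ℝ E + 2)) *
      PP h f x ^ (finrank ℝ E - 1) * RT h W f x) (vol h) :=
    integrable_vol L.met ((w1.mul (hPc.pow _)).mul hRc) w1c.mul_right.mul_right
  have i4 : Integrable (fun x => ψ x ^ (2 * (finrank ℝ E + 1)) *
      PP h f x ^ finrank ℝ E) (vol h) :=
    integrable_vol L.met (w2.mul (hPc.pow _)) w2c.mul_right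
  have i5 : Integrable (fun x => ψ x ^ (2 * (finrank ℝ E + 1))) (vol h) :=
    integrable_vol L.met w2 w2c
  have i6 : Integrable (fun x => ψ x ^ (2 * (finrank ℝ E + 2)) * Curv.scal h x) (vol h) :=
    integrable_vol L.met (w1.mul hSc) w1c.mul_right
  set X := ∫ x, ψ x ^ (2 * (finrank ℝ E + 2)) * PP h f x ^ (finrank ℝ E - 1) * HH h f x ∂(vol h)
    with hX
  set Y := ∫ x, ψ x ^ (2 * (finrank ℝ E + 2)) * PP h f x ^ (finrank ℝ E - 1) *
    RT h W f x ∂(vol h) with hY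
  have hX0 : 0 ≤ X := by
    refine integral_nonneg fun x => ?_
    have h1 := HH_nonneg L.met f x
    have h2 := PP_nonneg L.met f x
    have h3 := L.nonneg x
    simp only [Pi.zero_apply]
    positivity
  have hY0 : 0 ≤ Y := by
    refine integral_nonneg fun x => ?_
    simp only [Pi.zero_apply]
    by_cases hψ : ψ x = 0
    · have h1 : 2 * (finrank ℝ E + 2) ≠ 0 := by omega
      simp [hψ, h1]
    · have h1 := RT_nonneg (f := f) L.met (L.good x hψ)
      have h2 := PP_nonneg L.met f x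
      have h3 := L.nonneg x
      positivity
  have hXY : bI2 h f ψ W (finrank ℝ E + 2) (finrank ℝ E - 1) = X + Y := by
    unfold bI2
    rw [hX, hY, ← integral_add i2 i3]
    refine integral_congr_ae (Eventually.of_forall fun x => ?_)
    simp only
    ring
  have hb := hCb h f ψ W L
  have ha := hCa h f ψ W L
  rw [hXY] at hb
  set a0 := aI h f ψ 1 0 with ha0
  have ha00 : 0 ≤ a0 := L.aI_nonneg 1 0
  set T := ∫ x, ψ x ^ (2 * (finrank ℝ E + 1)) ∂(vol h) with hT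
  set T' := ∫ x, ψ x ^ (2 * (finrank ℝ E + 2)) * Curv.scal h x ∂(vol h) with hT'
  have key : ∀ δ : ℝ, 0 < δ → Λ * ∫ x, ψ x ^ (2 * (finrank ℝ E + 2)) * GG h f x ∂(vol h) ≤
      (2 * N * Cb + d * N * Ca) * (1 + γ) * a0 + δ ^ 2 * (γ * d * T + T') := by
    intro δ hδ
    have hφ := L.contDiff_tf hδ
    have hφc := L.hasCompactSupport_tf δ
    have hle' : ∀ x, tf h f ψ δ x ≠ 0 → γ * lapC h w x ≤ (Curv.scal h x - Λ) * w x := by
      intro x hx
      refine hle x fun h0 => hx ?_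
      have : finrank ℝ E + 2 ≠ 0 := by omega
      simp [tf, h0, this]
    have hJ := jacobi L.met hφ hφc hw hw0 hγ hle'
    have j1 : Integrable (fun x => tf h f ψ δ x ^ 2) (vol h) :=
      integrable_vol L.met (hφ.continuous.pow 2)
        (HasCompactSupport.comp_left (g := fun t : ℝ => t ^ 2) hφc (by simp))
    have j2 : Integrable (gradC h (tf h f ψ δ) (tf h f ψ δ)) (vol h) :=
      integrable_vol L.met (contDiff_gradC L.met hφ hφ).continuous
        (hasCompactSupport_gradC hφc _)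
    have j3 : Integrable (fun x => Curv.scal h x * tf h f ψ δ x ^ 2) (vol h) :=
      integrable_vol L.met (hSc.mul (hφ.continuous.pow 2))
        (HasCompactSupport.comp_left (g := fun t : ℝ => t ^ 2) hφc (by simp)).mul_left
    have e1 : ∫ x, ψ x ^ (2 * (finrank ℝ E + 2)) * GG h f x ∂(vol h) ≤
        ∫ x, tf h f ψ δ x ^ 2 ∂(vol h) := by
      refine integral_mono i1 j1 fun x => ?_
      simp only
      rw [L.tf_sq δ x]
      refine mul_le_mul_of_nonneg_left ?_ (pow_nonneg (hψ1 x) _)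
      nlinarith [sq_nonneg δ]
    have e2 : ∫ x, gradC h (tf h f ψ δ) (tf h f ψ δ) x ∂(vol h) ≤
        2 * N * X + d * N * aI h f ψ (finrank ℝ E + 1) (finrank ℝ E) + d * δ ^ 2 * T := by
      have k1 : Integrable (fun x => 2 * N * (ψ x ^ (2 * (finrank ℝ E + 2)) *
        PP h f x ^ (finrank ℝ E - 1) * HH h f x)) (vol h) := i2.const_mul _
      have k2 : Integrable (fun x => d * N * (ψ x ^ (2 * (finrank ℝ E + 1)) *
        PP h f x ^ finrank ℝ E)) (vol h) := i4.const_mul _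
      have k3 : Integrable (fun x => d * δ ^ 2 * ψ x ^ (2 * (finrank ℝ E + 1))) (vol h) :=
        i5.const_mul _
      have k12 : Integrable (fun x => 2 * N * (ψ x ^ (2 * (finrank ℝ E + 2)) *
        PP h f x ^ (finrank ℝ E - 1) * HH h f x) + d * N * (ψ x ^ (2 * (finrank ℝ E + 1)) *
        PP h f x ^ finrank ℝ E)) (vol h) := k1.add k2
      have k123 : Integrable (fun x => 2 * N * (ψ x ^ (2 * (finrank ℝ E + 2)) *
        PP h f x ^ (finrank ℝ E - 1) * HH h f x) + d * N * (ψ x ^ (2 * (finrank ℝ E + 1)) *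
        PP h f x ^ finrank ℝ E) + d * δ ^ 2 * ψ x ^ (2 * (finrank ℝ E + 1))) (vol h) :=
        k12.add k3
      have k := integral_mono j2 k123 fun x => L.gradC_tf_le hδ x
      rw [integral_add k12 k3, integral_add k1 k2, integral_const_mul, integral_const_mul,
        integral_const_mul] at k
      exact k
    have e3 : ∫ x, Curv.scal h x * tf h f ψ δ x ^ 2 ∂(vol h) ≤ N * Y + δ ^ 2 * T' := by
      have k1 : Integrable (fun x => N * (ψ x ^ (2 * (finrank ℝ E + 2)) *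
        PP h f x ^ (finrank ℝ E - 1) * RT h W f x)) (vol h) := i3.const_mul _
      have k2 : Integrable (fun x => δ ^ 2 * (ψ x ^ (2 * (finrank ℝ E + 2)) *
        Curv.scal h x)) (vol h) := i6.const_mul _
      have k12 : Integrable (fun x => N * (ψ x ^ (2 * (finrank ℝ E + 2)) *
        PP h f x ^ (finrank ℝ E - 1) * RT h W f x) +
        δ ^ 2 * (ψ x ^ (2 * (finrank ℝ E + 2)) * Curv.scal h x)) (vol h) := k1.add k2
      have k := integral_mono j3 k12 fun x => L.scal_tf_le δ x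
      rw [integral_add k1 k2, integral_const_mul, integral_const_mul] at k
      exact k
    have e4 := mul_le_mul_of_nonneg_left e1 hΛ
    have e5 := mul_le_mul_of_nonneg_left e2 hγ
    have e6 : γ * (2 * N * X + d * N * aI h f ψ (finrank ℝ E + 1) (finrank ℝ E) +
        d * δ ^ 2 * T) ≤ γ * (2 * N * (Cb * a0) + d * N * (Ca * a0) + d * δ ^ 2 * T) := by
      refine mul_le_mul_of_nonneg_left ?_ hγ
      have h1 : 2 * N * X ≤ 2 * N * (Cb * a0) :=
        mul_le_mul_of_nonneg_left (by linarith) (by positivity)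
      have h2 : d * N * aI h f ψ (finrank ℝ E + 1) (finrank ℝ E) ≤ d * N * (Ca * a0) :=
        mul_le_mul_of_nonneg_left ha (by positivity)
      linarith
    have e7 : N * Y ≤ N * (Cb * a0) := mul_le_mul_of_nonneg_left (by linarith) hN0
    have e8 : 0 ≤ N * Cb * a0 := by positivity
    have e9 : 0 ≤ d * N * Ca * a0 := by positivity
    nlinarith [hJ, e4, e5, e6, e7, e3, e8, e9]
  by_contra hcon
  push Not at hcon
  set A := Λ * ∫ x, ψ x ^ (2 * (finrank ℝ E + 2)) * GG h f x ∂(vol h) with hA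
  set B := (2 * N * Cb + d * N * Ca) * (1 + γ) * a0 with hB
  set U := γ * d * T + T' with hU
  have hpos : 0 < (A - B) / (2 * (|U| + 1)) := by
    have : 0 ≤ |U| := abs_nonneg _
    have : 0 < A - B := by linarith
    positivity
  have hk := key (√ ((A - B) / (2 * (|U| + 1)))) (Real.sqrt_pos.2 hpos)
  rw [Real.sq_sqrt hpos.le] at hk
  have h1 : (A - B) / (2 * (|U| + 1)) * U ≤ (A - B) / (2 * (|U| + 1)) * (|U| + 1) :=
    mul_le_mul_of_nonneg_left (by linarith [le_abs_self U]) hpos.le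
  have h2 : (A - B) / (2 * (|U| + 1)) * (|U| + 1) = (A - B) / 2 := by
    have : |U| + 1 ≠ 0 := by positivity
    field_simp
  linarith

end Pool.Agent.Lib.MP_df705a_gt.Kat
end
end

section

/-!
# Lower bounds of the Ricci curvature in the sense of Kato: the local estimate
-/

open scoped Manifold ContDiff Topology
open Set Bundle Module Filter MeasureTheory

noncomputable section

set_option linter.unusedSectionVars false

namespace Pool.Agent.Lib.MP_df705a_gt.Kat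

open Pool.Agent.Lib.MP_df705a_gt.Twist Pool.Agent.Lib.MP_df705a_gt.Perm
open Pool.Agent.Lib.MP_df705a_gt.Pin
open Pool.Agent.Lib.MP_df705a_gt.Coll (trM ipM)
open Pool.Agent.Lib.MP_df705a_gt.Coll.T (ddC mat pull RM SmF)

variable {E : Type*} [NormedAddCommGroup E] [NormedSpace ℝ E] [FiniteDimensional ℝ E]
  {h : Curv.Coeff E}
  [MeasurableSpace E] [BorelSpace E]

/-- The local estimate at scale one. -/
theorem exists_local_one2 (E : Type*) [NormedAddCommGroup E] [NormedSpace ℝ E]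
    [FiniteDimensional ℝ E] [MeasurableSpace E] [BorelSpace E] (hn : 2 ≤ finrank ℝ E)
    (AW K c : ℝ) (hK : 0 ≤ K) (hc : 0 < c) : ∃ A : ℝ, 0 < A ∧
    ∀ (h : Curv.Coeff E) (W : E → ℝ), Curv.IsMetric h → Proper h → Wt W AW → ∀ p : E,
      (∀ y, dh (cm h W) p y ≤ 5 → Gd h W 1 y) →
      ∀ f : Fin (finrank ℝ E) → E → ℝ, (∀ i, ContDiff ℝ ∞ (f i)) →
        (∀ i y, dh (cm h W) p y ≤ 5 → |f i y| ≤ 2 ∧ |lapC h (f i) y| ≤ K) →
        ∀ (γ : ℝ) (w : E → ℝ), 0 ≤ γ → ContDiff ℝ ∞ w → (∀ y, 0 < w y) →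
          (∀ y, dh (cm h W) p y ≤ 5 →
            γ * lapC h w y ≤ (Curv.scal h y - A * (1 + γ)) * w y) →
          volume ((fun (y : E) (i : Fin (finrank ℝ E)) => f i y) ''
            {y | dh (cm h W) p y ≤ 2}) ≤ ENNReal.ofReal c := by
  obtain ⟨c₁, hc₁, Hcut⟩ := exists_cutoff_grad E
  by_cases hAW : 0 ≤ AW
  swap
  · refine ⟨1, one_pos, fun h W hh hp hW => ?_⟩
    exact absurd (zero_le_one.trans hW.one_le') hAW
  obtain ⟨C, hC, HC⟩ := exists_int_GG_le2 E hn K (AW * c₁)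
  obtain ⟨V, hV, HV⟩ := exists_vol_le2 E hn AW
  have hA : 0 < (C + 1) * V ^ 2 / c ^ 2 + 1 := by positivity
  refine ⟨(C + 1) * V ^ 2 / c ^ 2 + 1, hA, ?_⟩
  intro h W hh hp hW p hric f hf hfb γ w hγ hw hw0 hle
  have hk : Curv.IsMetric (cm h W) := isMetric_cm hh hW.sm hW.pos
  have hkp : Proper (cm h W) := proper_cm hh hp hW.sm hW.one_le
  obtain ⟨ψ, ψsm, ψ0, ψ1, ψeq1, ψeq0, ψgrad⟩ := Hcut (cm h W) hk hkp p
  have hψ4 : ∀ x, ψ x ≠ 0 → dh (cm h W) p x < 4 := fun x hx => by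
    by_contra h4
    exact hx (ψeq0 x (not_lt.1 h4))
  have L : Loc2 h f ψ W K (AW * c₁) :=
    { met := hh
      sm := hf
      psm := ψsm
      cpt := HasCompactSupport.of_support_subset_isCompact (hkp p 4)
        fun x hx => (hψ4 x hx).le
      nonneg := ψ0
      le_one := ψ1
      grad := fun x => by
        rw [gradC_cm hh (hW.pos x).ne', mul_pow]
        exact mul_le_mul (pow_le_pow_left₀ (hW.pos x).le (hW.le x) 2) (ψgrad x)
          (G4.gradC_nonneg (hk.2 x)) (sq_nonneg _)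
      K0 := hK
      c0 := mul_nonneg hAW hc₁
      wsm := hW.sm
      wpos := hW.pos
      good := fun x hx => hric x (by linarith [hψ4 x hx])
      two := fun x hx i => (hfb i x (by linarith [hψ4 x hx])).1
      lap := fun x hx i => (hfb i x (by linarith [hψ4 x hx])).2 }
  have h1 := HC h f ψ W L γ (((C + 1) * V ^ 2 / c ^ 2 + 1) * (1 + γ)) w hγ
    (mul_nonneg hA.le (by linarith)) hw hw0
    (fun x hx => hle x (by linarith [hψ4 x hx]))
  have h2 : aI h f ψ 1 0 ≤ V :=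
    (L.aI_zero_le (hkp p 4) fun x hx => ψeq0 x (not_le.1 hx).le).trans (HV h W hh hp hW p hric)
  have hB : IsCompact {y | dh (cm h W) p y ≤ 2} := hkp p 2
  have hBD : {y | dh (cm h W) p y ≤ 2} ⊆ {y | dh (cm h W) p y ≤ 4} := fun y hy => by
    have hy' : dh (cm h W) p y ≤ 2 := hy
    have : dh (cm h W) p y ≤ 4 := by linarith
    exact this
  have h3 : (vol h {y | dh (cm h W) p y ≤ 2}).toReal ≤ V :=
    (ENNReal.toReal_mono (vol_lt_top_of_isCompact hh (hkp p 4)).ne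
      (measure_mono hBD)).trans (HV h W hh hp hW p hric)
  have hGc : Continuous (GG h f) := (contDiff_GG hh hf).continuous
  have hint : Integrable (fun x => ψ x ^ (2 * (finrank ℝ E + 2)) * GG h f x) (vol h) := by
    refine integrable_vol hh ((ψsm.continuous.pow _).mul hGc) ?_
    refine HasCompactSupport.mul_right ?_
    exact L.cpt.comp_left (g := fun t : ℝ => t ^ (2 * (finrank ℝ E + 2)))
      (zero_pow (by omega))
  have h4 : ∫ x in {y | dh (cm h W) p y ≤ 2}, GG h f x ∂(vol h) ≤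
      ∫ x, ψ x ^ (2 * (finrank ℝ E + 2)) * GG h f x ∂(vol h) := by
    have e : ∫ x in {y | dh (cm h W) p y ≤ 2}, GG h f x ∂(vol h) =
        ∫ x in {y | dh (cm h W) p y ≤ 2},
          ψ x ^ (2 * (finrank ℝ E + 2)) * GG h f x ∂(vol h) := by
      refine setIntegral_congr_fun hB.measurableSet fun x hx => ?_
      rw [ψeq1 x hx, one_pow, one_mul]
    rw [e]
    exact setIntegral_le_integral hint (Eventually.of_forall fun x =>
      mul_nonneg (pow_nonneg (ψ0 x) _) (GG_nonneg hh f x))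
  have hI0 : 0 ≤ ∫ x in {y | dh (cm h W) p y ≤ 2}, GG h f x ∂(vol h) :=
    setIntegral_nonneg hB.measurableSet fun x _ => GG_nonneg hh f x
  refine (volume_image_le hh hf hB).trans ((lintegral_sqrt_GG_le hh hf hB).trans
    (ENNReal.ofReal_le_ofReal ?_))
  generalize ∫ x in {y | dh (cm h W) p y ≤ 2}, GG h f x ∂(vol h) = I at *
  generalize ∫ x, ψ x ^ (2 * (finrank ℝ E + 2)) * GG h f x ∂(vol h) = J at *
  generalize (vol h {y | dh (cm h W) p y ≤ 2}).toReal = v at *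
  have h5 : ((C + 1) * V ^ 2 / c ^ 2 + 1) * J ≤ C * V := by
    have h6 : (1 + γ) * (((C + 1) * V ^ 2 / c ^ 2 + 1) * J) ≤ (1 + γ) * (C * V) := by
      calc (1 + γ) * (((C + 1) * V ^ 2 / c ^ 2 + 1) * J)
          = ((C + 1) * V ^ 2 / c ^ 2 + 1) * (1 + γ) * J := by ring
        _ ≤ C * (1 + γ) * aI h f ψ 1 0 := h1
        _ ≤ C * (1 + γ) * V := mul_le_mul_of_nonneg_left h2 (mul_nonneg hC (by linarith))
        _ = (1 + γ) * (C * V) := by ring
    exact le_of_mul_le_mul_left h6 (by linarith)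
  have h7 : ((C + 1) * V ^ 2 / c ^ 2 + 1) * I ≤ C * V :=
    (mul_le_mul_of_nonneg_left h4 hA.le).trans h5
  have h8 : ((C + 1) * V ^ 2 / c ^ 2 + 1) * (I * V) ≤
      ((C + 1) * V ^ 2 / c ^ 2 + 1) * c ^ 2 := by
    have e1 : ((C + 1) * V ^ 2 / c ^ 2 + 1) * c ^ 2 = (C + 1) * V ^ 2 + c ^ 2 := by
      field_simp
    rw [e1]
    calc ((C + 1) * V ^ 2 / c ^ 2 + 1) * (I * V)
        = (((C + 1) * V ^ 2 / c ^ 2 + 1) * I) * V := by ring
      _ ≤ C * V * V := mul_le_mul_of_nonneg_right h7 hV.le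
      _ ≤ (C + 1) * V ^ 2 + c ^ 2 := by nlinarith [sq_nonneg V, sq_nonneg c]
  have h9 : I * V ≤ c ^ 2 := le_of_mul_le_mul_left h8 hA
  rw [← Real.sqrt_mul hI0]
  have h10 : I * v ≤ c ^ 2 := (mul_le_mul_of_nonneg_left h3 hI0).trans h9
  exact (Real.sqrt_le_sqrt h10).trans (Real.sqrt_sq hc.le).le

/-- `exists_local_one2` for `Fin n` instead of `Fin (finrank ℝ E)`. -/
theorem exists_local_fin2 (E : Type*) [NormedAddCommGroup E] [NormedSpace ℝ E]
    [FiniteDimensional ℝ E] [MeasurableSpace E] [BorelSpace E] (n : ℕ) (hn2 : 2 ≤ n)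
    (hn : finrank ℝ E = n)
    (AW K c : ℝ) (hK : 0 ≤ K) (hc : 0 < c) : ∃ A : ℝ, 0 < A ∧
    ∀ (h : Curv.Coeff E) (W : E → ℝ), Curv.IsMetric h → Proper h → Wt W AW → ∀ p : E,
      (∀ y, dh (cm h W) p y ≤ 5 → Gd h W 1 y) →
      ∀ f : Fin n → E → ℝ, (∀ i, ContDiff ℝ ∞ (f i)) →
        (∀ i y, dh (cm h W) p y ≤ 5 → |f i y| ≤ 2 ∧ |lapC h (f i) y| ≤ K) →
        ∀ (γ : ℝ) (w : E → ℝ), 0 ≤ γ → ContDiff ℝ ∞ w → (∀ y, 0 < w y) →
          (∀ y, dh (cm h W) p y ≤ 5 →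
            γ * lapC h w y ≤ (Curv.scal h y - A * (1 + γ)) * w y) →
          volume ((fun (y : E) (i : Fin n) => f i y) ''
            {y | dh (cm h W) p y ≤ 2}) ≤ ENNReal.ofReal c := by
  subst hn
  exact exists_local_one2 E hn2 AW K c hK hc

/-- The image of a ball of `W² h` under `n` functions with bounded Laplacian is small. -/
theorem S3_local2 (n : ℕ) (hn2 : 2 ≤ n) (AW K c : ℝ) (hK : 0 ≤ K) (hc : 0 < c) : ∃ A : ℝ, 0 < A ∧
    ∀ (h : Curv.Coeff (EuclideanSpace ℝ (Fin n))) (W : EuclideanSpace ℝ (Fin n) → ℝ),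
      Curv.IsMetric h → Proper h → Wt W AW →
      ∀ (p : EuclideanSpace ℝ (Fin n)) (σ : ℝ), 0 < σ →
      (∀ y, dh (cm h W) p y ≤ 5 * σ → Gd h W (1 / σ ^ 2) y) →
      ∀ f : Fin n → EuclideanSpace ℝ (Fin n) → ℝ, (∀ i, ContDiff ℝ ∞ (f i)) →
        (∀ i y, dh (cm h W) p y ≤ 5 * σ → |f i y| ≤ 2 ∧ |lapC h (f i) y| ≤ K / σ ^ 2) →
        ∀ (γ : ℝ) (w : EuclideanSpace ℝ (Fin n) → ℝ), 0 ≤ γ → ContDiff ℝ ∞ w → (∀ y, 0 < w y) →
          (∀ y, dh (cm h W) p y ≤ 5 * σ →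
            γ * lapC h w y ≤ (Curv.scal h y - A * (1 + γ) / σ ^ 2) * w y) →
          volume ((fun (y : EuclideanSpace ℝ (Fin n)) (i : Fin n) => f i y) ''
            {y | dh (cm h W) p y ≤ 2 * σ}) ≤ ENNReal.ofReal c := by
  obtain ⟨A, hA, hA'⟩ := exists_local_fin2 (EuclideanSpace ℝ (Fin n)) n hn2 (by simp) AW K c hK hc
  refine ⟨A, hA, ?_⟩
  intro h W hh hp hW p σ hσ hric f hf hfb γ w hγ hw hw0 hle
  have ha : 0 < 1 / σ ^ 2 := by positivity
  have hs : √ (1 / σ ^ 2) = 1 / σ := by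
    rw [Real.sqrt_div zero_le_one, Real.sqrt_one, Real.sqrt_sq hσ.le]
  have hdist : ∀ (y : EuclideanSpace ℝ (Fin n)) (r : ℝ),
      dh (cm (sca (1 / σ ^ 2) h) W) p y ≤ r ↔ dh (cm h W) p y ≤ r * σ := by
    intro y r
    rw [sca_cm, dh_sca ha, hs, one_div, inv_mul_le_iff₀ hσ, mul_comm]
  have key := hA' (sca (1 / σ ^ 2) h) W (isMetric_sca hh ha) (proper_sca hp ha) hW p ?_ f hf ?_ γ w
    hγ hw hw0 ?_
  · have e : {y | dh (cm (sca (1 / σ ^ 2) h) W) p y ≤ 2} = {y | dh (cm h W) p y ≤ 2 * σ} := by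
      ext y
      exact hdist y 2
    rw [e] at key
    exact key
  · intro y hy
    rw [hdist] at hy
    rw [gd_sca h W ha, one_mul]
    exact hric y hy
  · intro i y hy
    rw [hdist] at hy
    obtain ⟨h1, h2⟩ := hfb i y hy
    refine ⟨h1, ?_⟩
    rw [lapC_sca ha, abs_div, abs_of_pos ha, div_le_iff₀ ha]
    rw [mul_one_div]
    exact h2
  · intro y hy
    rw [hdist] at hy
    have h1 := hle y hy
    rw [lapC_sca ha, scal_sca ha]
    have h2 : γ * (lapC h w y / (1 / σ ^ 2)) = (γ * lapC h w y) * σ ^ 2 := by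
      field_simp
    have h3 : (Curv.scal h y / (1 / σ ^ 2) - A * (1 + γ)) * w y =
        ((Curv.scal h y - A * (1 + γ) / σ ^ 2) * w y) * σ ^ 2 := by
      field_simp
    rw [h2, h3]
    exact mul_le_mul_of_nonneg_right h1 (by positivity)

end Pool.Agent.Lib.MP_df705a_gt.Kat
end
end

section

/-!
# The width theorem with a bad set for lower bounds of the Ricci curvature in the sense of Kato
-/

open scoped Manifold ContDiff Topology
open Set Bundle Module Filter MeasureTheory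

noncomputable section

namespace Pool.Agent.Lib.MP_df705a_gt.Kat

open Pool.Agent.Lib.MP_df705a_gt.Twist
open Pool.Agent.Lib.MP_df705a_gt.Pin

/-- The local data of the width theorem, for balls which do not meet the bad set. -/
theorem E5_vol2 (n : ℕ) {AW K c A : ℝ} (hK : 0 ≤ K) (hA0 : 0 < A)
    (hA : ∀ (h : Curv.Coeff (EuclideanSpace ℝ (Fin n))) (W : EuclideanSpace ℝ (Fin n) → ℝ),
      Curv.IsMetric h → Proper h → Wt W AW →
      ∀ (p : EuclideanSpace ℝ (Fin n)) (σ : ℝ), 0 < σ →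
      (∀ y, dh (cm h W) p y ≤ 5 * σ → Gd h W (1 / σ ^ 2) y) →
      ∀ f : Fin n → EuclideanSpace ℝ (Fin n) → ℝ, (∀ i, ContDiff ℝ ∞ (f i)) →
        (∀ i y, dh (cm h W) p y ≤ 5 * σ → |f i y| ≤ 2 ∧ |lapC h (f i) y| ≤ 2 * K / σ ^ 2) →
        ∀ (γ : ℝ) (w : EuclideanSpace ℝ (Fin n) → ℝ), 0 ≤ γ → ContDiff ℝ ∞ w → (∀ y, 0 < w y) →
          (∀ y, dh (cm h W) p y ≤ 5 * σ →
            γ * lapC h w y ≤ (Curv.scal h y - A * (1 + γ) / σ ^ 2) * w y) →
          volume ((fun (y : EuclideanSpace ℝ (Fin n)) (i : Fin n) => f i y) ''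
            {y | dh (cm h W) p y ≤ 2 * σ}) ≤ ENNReal.ofReal c)
    {h : Curv.Coeff (EuclideanSpace ℝ (Fin n))} (hh : Curv.IsMetric h) (hp : Proper h)
    {W : EuclideanSpace ℝ (Fin n) → ℝ} (hW : Wt W AW)
    {ρ : EuclideanSpace ℝ (Fin n) → ℝ} (hρ0 : ∀ x, 0 < ρ x) (hρ1 : ∀ x y, |ρ x - ρ y| ≤ dh (cm h W) x y)
    {B : Set (EuclideanSpace ℝ (Fin n))}
    (hric : ∀ x, x ∉ B → Gd h W (1 / ρ x ^ 2) x) {γ : ℝ} {w : EuclideanSpace ℝ (Fin n) → ℝ}
    (hγ : 0 ≤ γ) (hw : ContDiff ℝ ∞ w) (hw0 : ∀ x, 0 < w x)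
    (hlt : ∀ x, x ∉ B →
      γ * lapC h w x < (Curv.scal h x - 11025 * A * (1 + γ) / ρ x ^ 2) * w x)
    (f : Fin n → EuclideanSpace ℝ (Fin n) → ℝ) (p : Fin n → EuclideanSpace ℝ (Fin n))
    (hf : ∀ j, ContDiff ℝ ∞ (f j))
    (hfb : ∀ j y, dh (cm h W) (p j) y ≤ 10 * (ρ (p j) / 100) →
      |f j y| ≤ 2 ∧ |lapC h (f j) y| ≤ K / (ρ (p j) / 100) ^ 2)
    (hy : ∃ y, ∀ j, dh (cm h W) (p j) y ≤ ρ (p j) / 100) (j₀ : Fin n)
    (hgood : ∀ b ∈ B, 40 * (ρ (p j₀) / 100) ≤ dh (cm h W) (p j₀) b) :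
    volume ((fun (y : EuclideanSpace ℝ (Fin n)) (i : Fin n) => f i y) ''
            {y | dh (cm h W) (p j₀) y ≤ 2 * (ρ (p j₀) / 100)}) ≤ ENNReal.ofReal c := by
  have hd := isD_dh (isMetric_cm hh hW.sm hW.pos) (proper_cm hh hp hW.sm hW.one_le)
  have hsc : Scale (dh (cm h W)) fun x => ρ x / 100 := by
    refine ⟨fun x => by have := hρ0 x; positivity, fun x y => ?_⟩
    have h1 := abs_le.mp (hρ1 x y)
    show ρ x / 100 ≤ ρ y / 100 + dh (cm h W) x y / 100
    linarith [h1.2]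
  obtain ⟨z, hz⟩ := hy
  have hρp := hρ0 (p j₀)
  set σ := ρ (p j₀) / 100 with hσ
  have hσ0 : 0 < σ := by positivity
  have hlow : ∀ y, dh (cm h W) (p j₀) y ≤ 5 * σ → 95 * σ ≤ ρ y ∧ ρ y ≤ 105 * σ := by
    intro y hy
    have h1 := abs_le.mp (hρ1 (p j₀) y)
    have h2 : ρ (p j₀) = 100 * σ := by rw [hσ]; ring
    rw [h2] at h1
    constructor <;> linarith [h1.1, h1.2]
  have hnB : ∀ y, dh (cm h W) (p j₀) y ≤ 5 * σ → y ∉ B := by
    intro y hy hyB
    have := hgood y hyB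
    linarith
  refine hA h W hh hp hW (p j₀) σ hσ0 ?_ f hf ?_ γ w hγ hw hw0 ?_
  · intro y hy
    refine (hric y (hnB y hy)).mono hh ?_
    have h1 := (hlow y hy).1
    have h2 := hρ0 y
    apply one_div_le_one_div_of_le (by positivity)
    exact pow_le_pow_left₀ hσ0.le (by linarith) 2
  · intro j y hy
    have hc1 := scale_compare hd hsc (hz j₀) (hz j)
    have hc2 := scale_compare hd hsc (hz j) (hz j₀)
    have hρj := hρ0 (p j)
    set τ := ρ (p j) / 100 with hτ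
    have hτ0 : 0 < τ := by positivity
    have h1 : σ ≤ 103 / 100 * τ := hc1.1
    have h2 := hd.tri (p j) z (p j₀)
    have h3 := hd.tri (p j) (p j₀) y
    have h4 := hz j
    have h5 := hz j₀
    rw [hd.comm z (p j₀)] at h2
    have h6 : dh (cm h W) (p j) y ≤ 10 * τ := by
      have h7 : dh (cm h W) (p j) z ≤ τ := h4
      have h8 : dh (cm h W) (p j₀) z ≤ σ := h5
      linarith
    obtain ⟨h7, h8⟩ := hfb j y h6
    refine ⟨h7, h8.trans ?_⟩
    rw [div_le_div_iff₀ (by positivity) (by positivity)]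
    have h9 : σ ^ 2 ≤ 2 * τ ^ 2 := by nlinarith
    have h10 := mul_le_mul_of_nonneg_left h9 hK
    show K * σ ^ 2 ≤ 2 * K * τ ^ 2
    linarith
  · intro y hy
    refine (hlt y (hnB y hy)).le.trans ?_
    apply mul_le_mul_of_nonneg_right _ (hw0 y).le
    apply sub_le_sub_left
    obtain ⟨h1, h2⟩ := hlow y hy
    have h3 := hρ0 y
    rw [div_le_div_iff₀ (by positivity) (by positivity)]
    have h4 : ρ y ^ 2 ≤ 11025 * σ ^ 2 := by nlinarith
    have h5 : 0 ≤ A * (1 + γ) := by positivity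
    nlinarith [mul_le_mul_of_nonneg_left h4 h5]

/-- The width theorem with a bad set for the distance of `W² h`. -/
theorem E5_width_aux (n : ℕ) (hn2 : 2 ≤ n) (AW : ℝ) : ∃ C : ℝ, 0 < C ∧
    ∀ (h : Curv.Coeff (EuclideanSpace ℝ (Fin n))) (W : EuclideanSpace ℝ (Fin n) → ℝ),
      Curv.IsMetric h → Proper h → Wt W AW →
      ∀ ρ : EuclideanSpace ℝ (Fin n) → ℝ, (∀ x, 0 < ρ x) → (∀ x y, |ρ x - ρ y| ≤ dh (cm h W) x y) →
      ∀ B : Set (EuclideanSpace ℝ (Fin n)),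
      (∀ x, x ∉ B → Gd h W (1 / ρ x ^ 2) x) →
      ∀ (γ : ℝ) (w : EuclideanSpace ℝ (Fin n) → ℝ), 0 ≤ γ → ContDiff ℝ ∞ w → (∀ x, 0 < w x) →
      (∀ x, x ∉ B → γ * lapC h w x < (Curv.scal h x - C * (1 + γ) / ρ x ^ 2) * w x) →
      ∃ (J : Type) (_ : Countable J) (V : J → Set (EuclideanSpace ℝ (Fin n)))
        (Y : Set (EuclideanSpace ℝ (Fin n))),
        (∀ j, IsClosed (V j)) ∧ LocallyFinite V ∧ IsClosed Y ∧
        (∀ x, x ∈ Y ∨ ∃ j, x ∈ V j) ∧ (∀ x, {j | x ∈ V j}.encard ≤ n) ∧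
        (∀ x ∈ Y, {j | x ∈ V j}.encard + 1 ≤ n) ∧
        (∀ j, ∀ x ∈ V j, ∀ y ∈ V j, dh (cm h W) x y ≤ ρ x) ∧
        ∀ x ∈ Y, ∃ b ∈ B, dh (cm h W) x b < ρ x / 2 := by
  obtain ⟨K, hK, hS2⟩ := S2_bump2 n hn2 AW
  obtain ⟨C₁, hC₁, hBG⟩ := bishop_gromov_fin n hn2 AW
  set N₀ := ⌈C₁ * 320 ^ n⌉₊ with hN₀
  obtain ⟨c, hc, hc1⟩ : ∃ c : ℝ, 0 < c ∧ (2 * ((N₀ ^ n : ℕ) : ℝ) + 1) ^ n * c < 1 := by
    refine ⟨1 / (2 * (2 * ((N₀ ^ n : ℕ) : ℝ) + 1) ^ n), by positivity, ?_⟩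
    have h1 : 0 < (2 * ((N₀ ^ n : ℕ) : ℝ) + 1) ^ n := by positivity
    rw [mul_one_div, div_lt_one (by positivity)]
    linarith
  obtain ⟨A, hA, hS3⟩ := S3_local2 n hn2 AW (2 * K) c (by positivity) hc
  refine ⟨11025 * A, by positivity, ?_⟩
  intro h W hh hp hW ρ hρ0 hρ1 B hric γ w hγ hw hw0 hlt
  have hk : Curv.IsMetric (cm h W) := isMetric_cm hh hW.sm hW.pos
  have hkp : Proper (cm h W) := proper_cm hh hp hW.sm hW.one_le
  have hd := isD_dh hk hkp
  have hsc : Scale (dh (cm h W)) fun x => ρ x / 100 := by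
    refine ⟨fun x => by have := hρ0 x; positivity, fun x y => ?_⟩
    have h1 := abs_le.mp (hρ1 x y)
    show ρ x / 100 ≤ ρ y / 100 + dh (cm h W) x y / 100
    linarith [h1.2]
  obtain ⟨Z₀, hZ₀⟩ := exists_net hd hsc
  let Z : Set (EuclideanSpace ℝ (Fin n)) := {p ∈ Z₀ | ∀ b ∈ B, 40 * (ρ p / 100) ≤ dh (cm h W) p b}
  have hZZ : Z ⊆ Z₀ := fun p hp => hp.1
  have hgood : ∀ p ∈ Z, ∀ y, dh (cm h W) p y < 40 * (ρ p / 100) → y ∉ B := by
    intro p hp y hy hyB
    exact absurd (hp.2 y hyB) (not_le.2 hy)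
  have hloc : ∀ x, {l ∈ Z | dh (cm h W) x l ≤ 8 * (ρ l / 100)}.Finite ∧
      {l ∈ Z | dh (cm h W) x l ≤ 8 * (ρ l / 100)}.ncard ≤ N₀ := by
    intro x
    have h1 := sep_count (μ := vol h) (N := C₁ * 320 ^ n) hd hsc
      ((hZ₀.disjoint hd hsc).subset hZZ)
      (fun x r => (measure_mono fun y (hy : dh (cm h W) x y < r) =>
        (show dh (cm h W) x y ≤ r from hy.le)).trans_lt
          (vol_lt_top_of_isCompact hh (hkp x r)))
      (fun x r hr => vol_pos_of_isOpen hh (hd.isOpen_bd x r) ⟨x, by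
        show dh (cm h W) x x < r
        rw [hd.self]; exact hr⟩) (by positivity)
      (by
        intro x hxZ
        have hρx := hρ0 x
        have h5 := hBG h W hh hp hW x (2 / ρ x ^ 2) (ρ x / 100 / 16) (20 * (ρ x / 100))
          (by positivity) (by positivity) (by nlinarith)
          (by
            have : 2 / ρ x ^ 2 * (20 * (ρ x / 100)) ^ 2 = 2 / 25 := by field_simp; norm_num
            rw [this]; norm_num)
          (by
            intro y hy
            refine (hric y (hgood x hxZ y (by linarith))).mono hh ?_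
            have h1 := (abs_le.mp (hρ1 x y)).2
            have h2 : 0.8 * ρ x ≤ ρ y := by nlinarith
            rw [div_le_div_iff₀ (by have := hρ0 y; positivity) (by positivity)]
            have h3 : (0.8 * ρ x) ^ 2 ≤ ρ y ^ 2 := by
              apply pow_le_pow_left₀ (by positivity) h2
            nlinarith [sq_nonneg (ρ x)])
        have h6 : 20 * (ρ x / 100) / (ρ x / 100 / 16) = 320 := by field_simp; norm_num
        rw [h6] at h5
        exact h5) x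
    refine ⟨h1.1, ?_⟩
    have h2 : (({l ∈ Z | dh (cm h W) x l ≤ 8 * (ρ l / 100)}.ncard : ℕ) : ℝ) ≤ (N₀ : ℝ) :=
      h1.2.trans (Nat.le_ceil _)
    exact_mod_cast h2
  -- the bump functions
  have hbump : ∀ p, ∃ f : EuclideanSpace ℝ (Fin n) → ℝ, p ∈ Z → ContDiff ℝ ∞ f ∧
      (∀ y, dh (cm h W) p y ≤ 10 * (ρ p / 100) → |f y| ≤ 2 ∧ |lapC h f y| ≤ K / (ρ p / 100) ^ 2) ∧
      (∀ y, dh (cm h W) p y ≤ ρ p / 100 / 2 → 3 / 4 < f y) ∧
      ∀ y, 7 / 8 * (ρ p / 100) ≤ dh (cm h W) p y → dh (cm h W) p y ≤ 2 * (ρ p / 100) → f y < 1 / 4 := by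
    intro p
    by_cases hpZ : p ∈ Z
    · have hρp := hρ0 p
      obtain ⟨f, hf⟩ := hS2 h W hh hp hW p (ρ p / 100) (by positivity) (by
        intro y hy
        refine (hric y (hgood p hpZ y (by linarith))).mono hh ?_
        have h1 := (abs_le.mp (hρ1 p y)).2
        have h2 : ρ p / 100 ≤ ρ y := by linarith
        apply one_div_le_one_div_of_le (by positivity)
        exact pow_le_pow_left₀ (by positivity) h2 2)
      exact ⟨f, fun _ => hf⟩
    · exact ⟨0, fun h => absurd h hpZ⟩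
  choose f hf using hbump
  have : Countable Z := ((hZ₀.countable hd hsc).to_set.mono hZZ).to_subtype
  let j₀ : Fin n := ⟨0, by omega⟩
  let Bs : (Fin n → Z) → Set (Fin n → ℝ) := fun I =>
    (fun (y : EuclideanSpace ℝ (Fin n)) (i : Fin n) => f (I i).1 y) ''
      {y | dh (cm h W) (I j₀).1 y ≤ 2 * (ρ (I j₀).1 / 100)}
  have hBm : ∀ I ∈ tups (dh (cm h W)) (fun x => ρ x / 100) Z n, MeasurableSet (Bs I) := by
    intro I _
    refine IsCompact.measurableSet ((hkp (I j₀).1 _).image ?_)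
    exact continuous_pi fun i => (hf _ (I i).2).1.continuous
  have hBv : ∀ I ∈ tups (dh (cm h W)) (fun x => ρ x / 100) Z n, volume (Bs I) ≤ ENNReal.ofReal c := by
    rintro I ⟨-, hy⟩
    exact E5_vol2 n hK.le hA hS3 hh hp hW hρ0 hρ1 hric hγ hw hw0 hlt (fun i => f (I i).1)
      (fun i => (I i).1) (fun i => (hf _ (I i).2).1) (fun i y hy => (hf _ (I i).2).2.1 y hy) hy j₀
      (I j₀).2.2
  obtain ⟨t, ht1, ht2⟩ := S4_levels hc.le hc1 (tups (dh (cm h W)) (fun x => ρ x / 100) Z n)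
    (fun I hI => hI.1) (fun p => tups_count hd hsc hloc n p) Bs hBm hBv
  classical
  let t' : EuclideanSpace ℝ (Fin n) → ℝ := fun p => if hp : p ∈ Z then t ⟨p, hp⟩ else 1 / 2
  have ht' : ∀ p : Z, t' p.1 = t p := fun p => by
    simp only [t']
    rw [dif_pos p.2]
  obtain ⟨e, he⟩ := exists_injective_nat Z
  obtain ⟨V, h1, h2, h3, h4, h5, h6, h7⟩ := mixed_level_cover hd hsc (fun x => (hloc x).1) e he n f
    (fun p hp => (hf p hp).1.continuous)
    (fun p hp y hy hy' => (hf p hp).2.2.2 y hy hy') t'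
    (fun p hp => by
      have := (ht1 ⟨p, hp⟩).1
      rw [← ht' ⟨p, hp⟩] at this
      exact this)
    (by
      intro I hI y hy hcon
      refine ht2 I ⟨hI, y, hy⟩ ⟨y, ?_, ?_⟩
      · have h5 := hy j₀
        have h6 := hρ0 (I j₀).1
        show dh (cm h W) (I j₀).1 y ≤ 2 * (ρ (I j₀).1 / 100)
        have h7 : dh (cm h W) (I j₀).1 y ≤ ρ (I j₀).1 / 100 := h5
        linarith
      · funext j
        show f (I j).1 y = t (I j)
        rw [hcon j, ht'])
  refine ⟨Z, inferInstance, V, {x | ∀ p ∈ Z, x ∉ lev (dh (cm h W)) (fun x => ρ x / 100) f t' p}, h1, h2,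
    h4, h5, h6, h7, ?_, ?_⟩
  · intro p x hx y hy
    have h8 : dh (cm h W) p.1 x ≤ ρ p.1 / 100 := h3 p x hx
    have h9 : dh (cm h W) p.1 y ≤ ρ p.1 / 100 := h3 p y hy
    have h10 := hd.tri x p.1 y
    rw [hd.comm x p.1] at h10
    have h11 := (abs_le.mp (hρ1 p.1 x)).2
    have h12 := hρ0 p.1
    linarith
  · intro x hx
    obtain ⟨p, hp, hxp⟩ := hZ₀.cov x
    have hxp' : dh (cm h W) x p < ρ p / 100 / 2 := hxp
    have hρp := hρ0 p
    have hpZ : p ∉ Z := by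
      intro hpZ
      refine hx p hpZ ⟨?_, ?_⟩
      · show dh (cm h W) p x < ρ p / 100
        rw [hd.comm]
        linarith
      · show t' p < f p x
        have h8 := (hf p hpZ).2.2.1 x (by rw [hd.comm]; exact hxp'.le)
        have h9 := (ht1 ⟨p, hpZ⟩).2
        rw [← ht' ⟨p, hpZ⟩] at h9
        have h10 : t' p ≤ 3 / 4 := h9
        linarith
    have hb : ∃ b ∈ B, dh (cm h W) p b < 40 * (ρ p / 100) := by
      by_contra hcon
      push Not at hcon
      exact hpZ ⟨hp, hcon⟩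
    obtain ⟨b, hb, hpb⟩ := hb
    refine ⟨b, hb, ?_⟩
    have h8 := hd.tri x p b
    have h9 := (abs_le.mp (hρ1 x p)).1
    linarith

/-- **The width theorem with a bad set, Kato version.** -/
theorem E5_width2 (n : ℕ) (hn2 : 2 ≤ n) (AW : ℝ) : ∃ C : ℝ, 0 < C ∧
    ∀ (h : Curv.Coeff (EuclideanSpace ℝ (Fin n))) (W : EuclideanSpace ℝ (Fin n) → ℝ),
      Curv.IsMetric h → Proper h → Wt W AW →
      ∀ ρ : EuclideanSpace ℝ (Fin n) → ℝ, (∀ x, 0 < ρ x) → (∀ x y, |ρ x - ρ y| ≤ dh h x y) →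
      ∀ B : Set (EuclideanSpace ℝ (Fin n)),
      (∀ x, x ∉ B → Gd h W (1 / ρ x ^ 2) x) →
      ∀ (γ : ℝ) (w : EuclideanSpace ℝ (Fin n) → ℝ), 0 ≤ γ → ContDiff ℝ ∞ w → (∀ x, 0 < w x) →
      (∀ x, x ∉ B → γ * lapC h w x < (Curv.scal h x - C * (1 + γ) / ρ x ^ 2) * w x) →
      ∃ (J : Type) (_ : Countable J) (V : J → Set (EuclideanSpace ℝ (Fin n)))
        (Y : Set (EuclideanSpace ℝ (Fin n))),
        (∀ j, IsClosed (V j)) ∧ LocallyFinite V ∧ IsClosed Y ∧
        (∀ x, x ∈ Y ∨ ∃ j, x ∈ V j) ∧ (∀ x, {j | x ∈ V j}.encard ≤ n) ∧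
        (∀ x ∈ Y, {j | x ∈ V j}.encard + 1 ≤ n) ∧
        (∀ j, ∀ x ∈ V j, ∀ y ∈ V j, dh h x y ≤ ρ x) ∧
        ∀ x ∈ Y, ∃ b ∈ B, dh h x b < ρ x / 2 := by
  obtain ⟨C, hC, H⟩ := E5_width_aux n hn2 AW
  refine ⟨C, hC, fun h W hh hp hW ρ hρ0 hρ1 B hric γ w hγ hw hw0 hlt => ?_⟩
  have hle : ∀ x y, dh h x y ≤ dh (cm h W) x y := dh_le_cm hh hW.sm hW.one_le
  obtain ⟨J, hJ, V, Y, h1, h2, h3, h4, h5, h6, h7, h8⟩ := H h W hh hp hW ρ hρ0
    (fun x y => (hρ1 x y).trans (hle x y)) B hric γ w hγ hw hw0 hlt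
  refine ⟨J, hJ, V, Y, h1, h2, h3, h4, h5, h6, fun j x hx y hy => (hle x y).trans (h7 j x hx y hy),
    fun x hx => ?_⟩
  obtain ⟨b, hb, hxb⟩ := h8 x hx
  exact ⟨b, hb, (hle x b).trans_lt hxb⟩

end Pool.Agent.Lib.MP_df705a_gt.Kat
end
end
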