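import Pool.Agent.Lib.MP_df705a_gt.Mg.G002
import Pool.Agent.Lib.MP_df705a_gt.Mg.G005
import Pool.Agent.Lib.MP_df705a_gt.Mg.G006
import Pool.Agent.Lib.MP_df705a_gt.Mg.G007
import Pool.Agent.Lib.MP_df705a_gt.Pin.AG7
import Pool.Agent.Lib.MP_df705a_gt.Mg.G015
import Pool.Agent.Lib.MP_df705a_gt.Mg.G021
import Pool.Agent.Lib.MP_df705a_gt.Mg.G020
import Pool.Agent.Lib.MP_df705a_gt.Mg.G071

section

/-!
# Ricci pinching, part A, AZ6b: pairs of points, bad pairs
-/

open scoped Manifold ContDiff Topology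
open Set Bundle Module Filter MeasureTheory

noncomputable section

set_option linter.unusedSectionVars false

namespace Pool.Agent.Lib.MP_df705a_gt.Pin.A

open Pool.Agent.Lib.MP_df705a_gt.Twist Pool.Agent.Lib.MP_df705a_gt.Perm
open Pool.Agent.Lib.MP_df705a_gt.Coll (trM ipM)
open Pool.Agent.Lib.MP_df705a_gt.Coll.T (ddC mat pull RM SmF)

variable {E : Type*} [NormedAddCommGroup E] [NormedSpace ℝ E] [FiniteDimensional ℝ E]
  {h : Curv.Coeff E}

variable {Ex : E → E → E} [MeasurableSpace E] [BorelSpace E]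

namespace AZ6bAux

theorem rc_neg (h : Curv.Coeff E) (x u : E) : rc h x (-u) = rc h x u := by
  unfold rc
  refine Finset.sum_congr rfl fun i _ => Finset.sum_congr rfl fun j _ => ?_
  simp

end AZ6bAux

/-- The symmetry of `rc` in exponential coordinates seen from the other end point: with `y = Ex p v`
and `u = - vel Ex p v 1` one has `Ex y u = p`, `nm h y u = nm h p v`, `Seg h Ex y u`, and
`aa h Ex κ p v * nm h y u ^ 2 = rc h y u + κ * nm h y u ^ 2`.
Proof: `IsExp.rev`, `IsExp.speed`, `Seg.rev`. -/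
theorem Wp.reverse (hm : Curv.IsMetric h) (hE : IsExp h Ex) {R κ : ℝ} (hR : 0 < R) {p v : E}
    (hv : v ∈ Wp h Ex R p) :
    Ex (Ex p v) (-vel Ex p v 1) = p ∧ Seg h Ex (Ex p v) (-vel Ex p v 1) ∧
      nm h (Ex p v) (-vel Ex p v 1) = nm h p v ∧
      rc h (Ex p v) (-vel Ex p v 1) + κ * nm h (Ex p v) (-vel Ex p v 1) ^ 2 =
        aa h Ex κ p v * nm h p v ^ 2 := by
  have hseg : Seg h Ex p v := Wp.seg hm hE hR hv
  have hnv : 0 < nm h p v := lt_of_lt_of_le (by positivity) hv.1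
  have hsp : nm h (Ex p v) (-vel Ex p v 1) = nm h p v := by
    have h1 := hE.speed hm p v 1
    rw [one_smul] at h1
    have h2 : -vel Ex p v 1 = (-1 : ℝ) • vel Ex p v 1 := by simp
    rw [h2, nm_smul, h1]
    simp
  refine ⟨hE.rev p v, hseg.rev hm hE, hsp, ?_⟩
  rw [hsp, AZ6bAux.rc_neg, aa]
  field_simp

/-- Proof: let `ξ` be the vector of `exists_direction` at `y`. By `Wp.reverse` every such `p` is
`Ex y u` with `Seg h Ex y u`, `nm h y u ≤ R`, `L ⟨u, ξ⟩ ^ 2 ≤ rc h y u + κ nm ^ 2 =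
aa h Ex κ p v * nm ^ 2 ≤ l R ^ 2`, so `|⟨u, ξ⟩| ≤ √ (l / L) R`. Apply `vol_image_seg_le` to the
measurable set of these `u` and `tangent_slab` with `s = √ (l / L) R ≤ R`. -/
theorem vol_bad_le (hm : Curv.IsMetric h) (hE : IsExp h Ex) {κ R l L : ℝ}
    (hR : 0 < R) (hκ : 0 ≤ κ) (hl : 0 < l) (hlL : l ≤ L) (y : E)
    (hric : ∀ z, dh h y z ≤ R → RicGeAt h κ z) (hL : ¬ RicLeAt h L y) :
    vol h {p | ∃ v ∈ Wp h Ex R p, Ex p v = y ∧ aa h Ex κ p v ≤ l} ≤
      ENNReal.ofReal (Real.exp (κ * R ^ 2 / 6) * (√ (l / L) * (8 * R) ^ finrank ℝ E)) *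
        om E := by
  have hL0 : 0 < L := lt_of_lt_of_le hl hlL
  have hricy : RicGeAt h κ y := hric y (by rw [dh_self hm]; exact hR.le)
  obtain ⟨ξ, hξ, hξu⟩ := exists_direction hm hκ hL0 hricy hL
  have hq0 : 0 < √ (l / L) := Real.sqrt_pos.mpr (by positivity)
  have hq1 : √ (l / L) ≤ 1 := by
    refine Real.sqrt_le_iff.mpr ⟨zero_le_one, ?_⟩
    rw [one_pow, div_le_one hL0]
    exact hlL
  have hs0 : 0 < √ (l / L) * R := by positivity
  have hsR : √ (l / L) * R ≤ R := by nlinarith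
  obtain ⟨s, hs⟩ : ∃ s : Set E, s = {u | Seg h Ex y u} ∩ {u | nm h y u ≤ R ∧ |bf h y u ξ| ≤ √ (l / L) * R} :=
    ⟨_, rfl⟩
  have hnmc : Continuous fun u : E => nm h y u :=
    (nm_continuous hm).comp (Continuous.prodMk continuous_const continuous_id)
  have hbfc : Continuous fun u : E => |bf h y u ξ| := by
    have h1 : Continuous fun u : E => bf h y u ξ := by
      have h2 : (fun u : E => bf h y u ξ) = fun u : E => bf h y ξ u := by
        funext u; exact bf_symm hm y u ξ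
      rw [h2]
      exact (bf h y ξ).continuous
    exact h1.abs
  have hsm : MeasurableSet s := by
    rw [hs]
    refine (measurableSet_seg hm hE y).inter ?_
    exact ((isClosed_le hnmc continuous_const).inter (isClosed_le hbfc continuous_const)).measurableSet
  have hsub : {p | ∃ v ∈ Wp h Ex R p, Ex p v = y ∧ aa h Ex κ p v ≤ l} ⊆ Ex y '' s := by
    rintro p ⟨v, hv, rfl, hav⟩
    obtain ⟨h1, h2, h3, h4⟩ := Wp.reverse (κ := κ) hm hE hR hv
    refine ⟨-vel Ex p v 1, ?_, h1⟩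
    rw [hs]
    refine ⟨h2, ?_, ?_⟩
    · rw [h3]; exact hv.2.1
    · have h5 := hξu (-vel Ex p v 1)
      rw [← nm_sq hm, h4] at h5
      have h6 : aa h Ex κ p v * nm h p v ^ 2 ≤ l * R ^ 2 := by
        have h7 : aa h Ex κ p v * nm h p v ^ 2 ≤ l * nm h p v ^ 2 :=
          mul_le_mul_of_nonneg_right hav (by positivity)
        have h8 : nm h p v ^ 2 ≤ R ^ 2 := pow_le_pow_left₀ (nm_nonneg h p v) hv.2.1 2
        nlinarith
      have h9 : bf h (Ex p v) (-vel Ex p v 1) ξ ^ 2 ≤ (√ (l / L) * R) ^ 2 := by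
        rw [mul_pow, Real.sq_sqrt (by positivity)]
        have h10 : L * bf h (Ex p v) (-vel Ex p v 1) ξ ^ 2 ≤ l * R ^ 2 := h5.trans h6
        rw [div_mul_eq_mul_div, le_div_iff₀ hL0]
        linarith
      exact abs_le_of_sq_le_sq h9 hs0.le
  have h1 := vol_image_seg_le hm hE y hκ hric hsm (fun u hu => by
    rw [hs] at hu
    exact ⟨hu.1, hu.2.1⟩)
  have h2 := tangent_slab hm y hξ hs0 hsR
  have h3 : √ (l / L) * R / R = √ (l / L) := by field_simp
  rw [h3] at h2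
  have h4 : (finBasis ℝ E).addHaar s ≤
      (finBasis ℝ E).addHaar {v | nm h y v ≤ R ∧ |bf h y v ξ| ≤ √ (l / L) * R} := by
    rw [hs]
    exact measure_mono inter_subset_right
  calc vol h {p | ∃ v ∈ Wp h Ex R p, Ex p v = y ∧ aa h Ex κ p v ≤ l} ≤ vol h (Ex y '' s) := measure_mono hsub
    _ ≤ _ := h1
    _ ≤ ENNReal.ofReal (Real.exp (κ * R ^ 2 / 6)) *
        (ENNReal.ofReal (√ (l / L) * (8 * R) ^ finrank ℝ E) * om E) := by
        exact mul_le_mul_right ((mul_le_mul_left h4 _).trans h2) _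
    _ = _ := by
        rw [← mul_assoc, ← ENNReal.ofReal_mul (Real.exp_pos _).le]

end Pool.Agent.Lib.MP_df705a_gt.Pin.A
end
end

section

/-!
# Ricci pinching, part A, AZ7b: the main estimate
-/

open scoped Manifold ContDiff Topology
open Set Bundle Module Filter MeasureTheory

noncomputable section

set_option linter.unusedSectionVars false

namespace Pool.Agent.Lib.MP_df705a_gt.Pin.A

open Pool.Agent.Lib.MP_df705a_gt.Twist Pool.Agent.Lib.MP_df705a_gt.Perm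
open Pool.Agent.Lib.MP_df705a_gt.Coll (trM ipM)
open Pool.Agent.Lib.MP_df705a_gt.Coll.T (ddC mat pull RM SmF)

variable {E : Type*} [NormedAddCommGroup E] [NormedSpace ℝ E] [FiniteDimensional ℝ E]
  {h : Curv.Coeff E}

variable {Ex : E → E → E} [MeasurableSpace E] [BorelSpace E]

/-- The inequality for the ball in question. With `n = finrank ℝ E`, `w = om E`, `R = ρ / 2`:
Proof: `double_integral` with `K = {y | dh h p₀ y ≤ ρ}`, `Q = {y | dh h p₀ y ≤ 2 ρ}` and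
`a = ofReal (δ ρ^n / (e^4 64^n))` (`vol_annulus_ge`, `vol_Wp_ge`: `κ (3 R)² / 6 ≤ 1`),
`b` of `vol_bad_le` (`(8 R)^n = 4^n ρ^n`, `κ R² / 6 ≤ 1`), `g` of `vol_good_le`
(`4 (4 R)^n (4 n / R) / R = 64 n 2^n ρ^n / ρ²`); `vol h Q ≤ e² (3 ρ)^n w` (`vol_ball_le` with
radius `3 ρ`). All geodesics in question stay in the closed ball of radius `8 ρ` about `p₀`. -/
theorem main_inequality (hm : Curv.IsMetric h) (hP : Proper h) (hE : IsExp h Ex)
    (hn : 2 ≤ finrank ℝ E) {κ ρ δ l L : ℝ} (hκ : 0 ≤ κ) (hρ : 0 < ρ) (hκρ : κ * ρ ^ 2 ≤ 1)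
    (hδ : 0 < δ) (hl : 0 < l) (hlL : l ≤ L) {p₀ : E}
    (hric : ∀ y, dh h p₀ y ≤ 8 * ρ → RicGeAt h κ y)
    (hL : ∀ y, dh h p₀ y ≤ 8 * ρ → ¬ RicLeAt h L y)
    (hvol : ENNReal.ofReal (δ * ρ ^ finrank ℝ E) ≤ vol h (ballh h p₀ ρ)) :
    ENNReal.ofReal (δ * ρ ^ finrank ℝ E / (Real.exp 4 * 64 ^ finrank ℝ E)) *
        vol h {y | dh h p₀ y ≤ ρ} ≤
      ENNReal.ofReal (Real.exp 1 * (√ (l / L) * (4 * ρ) ^ finrank ℝ E)) * om E *
        (ENNReal.ofReal (Real.exp 2 * (3 * ρ) ^ finrank ℝ E) * om E) +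
      ENNReal.ofReal (Real.exp 1 * (64 * finrank ℝ E * (2 * ρ) ^ finrank ℝ E / ρ ^ 2) / l) * om E *
        vol h {y | dh h p₀ y ≤ ρ} := by
  have hR : 0 < ρ / 2 := by positivity
  have hκρ0 : 0 ≤ κ * ρ ^ 2 := by positivity
  have hK : IsCompact {y | dh h p₀ y ≤ ρ} := hP p₀ ρ
  have hQ : MeasurableSet {y | dh h p₀ y ≤ 2 * ρ} := (hP p₀ (2 * ρ)).measurableSet
  have hKQ : ∀ p ∈ {y | dh h p₀ y ≤ ρ}, ∀ v ∈ Wp h Ex (ρ / 2) p,
      Ex p v ∈ {y | dh h p₀ y ≤ 2 * ρ} := by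
    intro p hp v hv
    have h1 : dh h p₀ p ≤ ρ := hp
    have h2 := hE.dist_le_one hm p v
    have h3 : nm h p v ≤ ρ / 2 := hv.2.1
    have h4 := dh_triangle hm p₀ p (Ex p v)
    show dh h p₀ (Ex p v) ≤ 2 * ρ
    linarith
  have ha : ∀ p ∈ {y | dh h p₀ y ≤ ρ},
      ENNReal.ofReal (δ * ρ ^ finrank ℝ E / (Real.exp 4 * 64 ^ finrank ℝ E)) ≤
        vol h (Ex p '' Wp h Ex (ρ / 2) p) := by
    intro p hp
    have h1 : dh h p₀ p ≤ ρ := hp
    have h2 := vol_annulus_ge hm hP hE hn hκ hρ hκρ hric h1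
    have hric' : ∀ y, dh h p y ≤ 3 * (ρ / 2) → RicGeAt h κ y := by
      intro y hy
      apply hric
      have := dh_triangle hm p₀ p y
      linarith
    have h3 := vol_Wp_ge hm hP hE hR hκ p hric'
    have h4 : ENNReal.ofReal (Real.exp (κ * (3 * (ρ / 2)) ^ 2 / 6) * 4 ^ finrank ℝ E) ≤
        ENNReal.ofReal (Real.exp 1 * 4 ^ finrank ℝ E) := by
      apply ENNReal.ofReal_le_ofReal
      apply mul_le_mul_of_nonneg_right _ (by positivity)
      apply Real.exp_le_exp.mpr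
      have e1 : κ * (3 * (ρ / 2)) ^ 2 / 6 = 3 / 8 * (κ * ρ ^ 2) := by ring
      rw [e1]
      linarith
    have h5 : ENNReal.ofReal (δ * ρ ^ finrank ℝ E) ≤
        ENNReal.ofReal (Real.exp 4 * 64 ^ finrank ℝ E) * vol h (Ex p '' Wp h Ex (ρ / 2) p) := by
      have e2 : Real.exp 4 * 64 ^ finrank ℝ E =
          (Real.exp 3 * 16 ^ finrank ℝ E) * (Real.exp 1 * 4 ^ finrank ℝ E) := by
        have e3 : (64 : ℝ) ^ finrank ℝ E = 16 ^ finrank ℝ E * 4 ^ finrank ℝ E := by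
          rw [← mul_pow]
          norm_num
        have e4 : Real.exp 4 = Real.exp 3 * Real.exp 1 := by
          rw [← Real.exp_add]
          norm_num
        rw [e3, e4]
        ring
      rw [e2, ENNReal.ofReal_mul (p := Real.exp 3 * 16 ^ finrank ℝ E) (by positivity), mul_assoc]
      refine hvol.trans (h2.trans (mul_le_mul_right (h3.trans ?_) _))
      exact mul_le_mul_left h4 _
    have hpos : 0 < Real.exp 4 * 64 ^ finrank ℝ E := by positivity
    rw [ENNReal.ofReal_div_of_pos hpos]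
    exact ENNReal.div_le_of_le_mul' h5
  have hb : ∀ y ∈ {y | dh h p₀ y ≤ 2 * ρ},
      vol h {p | ∃ v ∈ Wp h Ex (ρ / 2) p, Ex p v = y ∧ aa h Ex κ p v ≤ l} ≤
      ENNReal.ofReal (Real.exp 1 * (√ (l / L) * (4 * ρ) ^ finrank ℝ E)) * om E := by
    intro y hy
    have h1 : dh h p₀ y ≤ 2 * ρ := hy
    have hric' : ∀ z, dh h y z ≤ ρ / 2 → RicGeAt h κ z := by
      intro z hz
      apply hric
      have := dh_triangle hm p₀ y z
      linarith
    have h2 := vol_bad_le hm hE hR hκ hl hlL y hric' (hL y (by linarith))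
    refine h2.trans ?_
    have e1 : 8 * (ρ / 2) = 4 * ρ := by ring
    rw [e1]
    gcongr
    have e2 : κ * (ρ / 2) ^ 2 / 6 = 1 / 24 * (κ * ρ ^ 2) := by ring
    rw [e2]
    linarith
  have hg : ∀ p ∈ {y | dh h p₀ y ≤ ρ},
      vol h (Ex p '' {v | v ∈ Wp h Ex (ρ / 2) p ∧ l < aa h Ex κ p v}) ≤
      ENNReal.ofReal (Real.exp 1 * (64 * finrank ℝ E * (2 * ρ) ^ finrank ℝ E / ρ ^ 2) / l) *
        om E := by
    intro p hp
    have h1 : dh h p₀ p ≤ ρ := hp
    have hric' : ∀ y, dh h p y ≤ 2 * (ρ / 2) → RicGeAt h κ y := by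
      intro y hy
      apply hric
      have := dh_triangle hm p₀ p y
      linarith
    have hκR : κ * (ρ / 2) ^ 2 ≤ 1 := by
      have e2 : κ * (ρ / 2) ^ 2 = 1 / 4 * (κ * ρ ^ 2) := by ring
      rw [e2]
      linarith
    have h2 := vol_good_le hm hE hn hR hκ hκR hl p hric'
    refine h2.trans (mul_le_mul_left (ENNReal.ofReal_le_ofReal ?_) _)
    have hexp : Real.exp (κ * (ρ / 2) ^ 2 / 6) ≤ Real.exp 1 := by
      apply Real.exp_le_exp.mpr
      have e2 : κ * (ρ / 2) ^ 2 / 6 = 1 / 24 * (κ * ρ ^ 2) := by ring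
      rw [e2]
      linarith
    have hN : (2 : ℝ) ≤ (finrank ℝ E : ℝ) := by exact_mod_cast hn
    have e1 : 4 * (ρ / 2) = 2 * ρ := by ring
    have hpw : 0 < (2 * ρ) ^ finrank ℝ E := by positivity
    have e3 : 4 * (4 * (ρ / 2)) ^ finrank ℝ E * ((4 * ((finrank ℝ E : ℝ) - 1) + 1) / (ρ / 2)) /
        (ρ / 2) = (16 * (4 * ((finrank ℝ E : ℝ) - 1) + 1)) * (2 * ρ) ^ finrank ℝ E / ρ ^ 2 := by
      rw [e1]
      field_simp
      ring
    rw [e3]
    apply div_le_div_of_nonneg_right _ hl.le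
    apply mul_le_mul hexp _ _ (Real.exp_pos 1).le
    · apply div_le_div_of_nonneg_right _ (by positivity)
      apply mul_le_mul_of_nonneg_right _ hpw.le
      linarith
    · apply div_nonneg _ (by positivity)
      apply mul_nonneg _ hpw.le
      linarith
  have hD := double_integral hm hE hR hK hQ hKQ ha hb hg
  have hvQ : vol h {y | dh h p₀ y ≤ 2 * ρ} ≤
      ENNReal.ofReal (Real.exp 2 * (3 * ρ) ^ finrank ℝ E) * om E := by
    have hsub : {y | dh h p₀ y ≤ 2 * ρ} ⊆ ballh h p₀ (3 * ρ) := by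
      intro y hy
      have h1 : dh h p₀ y ≤ 2 * ρ := hy
      show dh h p₀ y < 3 * ρ
      linarith
    have h2 := vol_ball_le hm hP hE p₀ hκ (show 0 < 3 * ρ by positivity)
      (fun y hy => hric y (by linarith))
    refine (measure_mono hsub).trans (h2.trans ?_)
    gcongr
    have e2 : κ * (3 * ρ) ^ 2 / 6 = 3 / 2 * (κ * ρ ^ 2) := by ring
    rw [e2]
    linarith
  refine hD.trans ?_
  gcongr

end Pool.Agent.Lib.MP_df705a_gt.Pin.A
end
end

section

/-!
# Ricci pinching, part A, AZ7: the main estimate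
-/

open scoped Manifold ContDiff Topology
open Set Bundle Module Filter MeasureTheory

noncomputable section

set_option linter.unusedSectionVars false

namespace Pool.Agent.Lib.MP_df705a_gt.Pin.A

open Pool.Agent.Lib.MP_df705a_gt.Twist Pool.Agent.Lib.MP_df705a_gt.Perm
open Pool.Agent.Lib.MP_df705a_gt.Coll (trM ipM)
open Pool.Agent.Lib.MP_df705a_gt.Coll.T (ddC mat pull RM SmF)

variable {E : Type*} [NormedAddCommGroup E] [NormedSpace ℝ E] [FiniteDimensional ℝ E]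
  {h : Curv.Coeff E}

variable {Ex : E → E → E} [MeasurableSpace E] [BorelSpace E]

/-- Proof: let `n = finrank ℝ E`, `w = (om E).toReal > 0` (`om_pos`, `om_lt_top`) and
`V = (vol h {y | dh h p₀ y ≤ ρ}).toReal`, finite (a compact set; or `vol_ball_le`), `V ≥ δ ρ^n`.
Choose `l = l₀ / ρ²` with `l₀ = 2 e⁵ 64^n 64 n 2^n w / δ`, so that the last term of
`main_inequality` is at most half of the left hand side; then
`δ ρ^n / (2 e⁴ 64^n) · δ ρ^n ≤ δ ρ^n / (2 e⁴ 64^n) · V ≤ e³ √ (l / L) 12^n ρ^(2 n) w²`, that is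
`√ (L / l) ≤ c₁ := 2 e⁷ 64^n 12^n w² / δ²`, `L ≤ c₁² l₀ / ρ²`. So the theorem holds with
`C = (c₁² + 1) l₀ + 1` (if there is no such point, `main_inequality` holds for
`L = C / ρ² ≥ l`). -/
theorem pinch (hn : 2 ≤ finrank ℝ E) {δ : ℝ} (hδ : 0 < δ) : ∃ C : ℝ, 0 < C ∧
    ∀ h : Curv.Coeff E, Curv.IsMetric h → Proper h → ∀ (p : E) (κ ρ : ℝ), 0 ≤ κ → 0 < ρ →
      κ * ρ ^ 2 ≤ 1 → (∀ y, dh h p y ≤ 8 * ρ → RicGeAt h κ y) →
      ENNReal.ofReal (δ * ρ ^ finrank ℝ E) ≤ vol h (ballh h p ρ) →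
      ∃ x, dh h p x ≤ 8 * ρ ∧ RicLeAt h (C / ρ ^ 2) x := by
  set n := finrank ℝ E with hndef
  set w := (om E).toReal with hw
  have hw0 : 0 < w := ENNReal.toReal_pos om_pos.ne' om_lt_top.ne
  have homE : om E = ENNReal.ofReal w := (ENNReal.ofReal_toReal om_lt_top.ne).symm
  have hn0 : (0 : ℝ) < n := by exact_mod_cast (by omega : 0 < n)
  set l₀ : ℝ := 2 * Real.exp 5 * 64 ^ n * 64 * n * 2 ^ n * w / δ with hl₀
  have hl₀pos : 0 < l₀ := by positivity
  set c₁ : ℝ := 2 * Real.exp 7 * 64 ^ n * 12 ^ n * w ^ 2 / δ ^ 2 with hc₁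
  have hc₁pos : 0 < c₁ := by positivity
  refine ⟨(c₁ ^ 2 + 1) * l₀ + 1, by positivity, ?_⟩
  intro h hm hP p κ ρ hκ hρ hκρ hric hvol
  by_contra hcon
  have hL : ∀ y, dh h p y ≤ 8 * ρ → ¬ RicLeAt h (((c₁ ^ 2 + 1) * l₀ + 1) / ρ ^ 2) y :=
    fun y hy h1 => hcon ⟨y, hy, h1⟩
  obtain ⟨Ex, hE⟩ := exists_exp hm hP
  have hρ2 : 0 < ρ ^ 2 := by positivity
  set l : ℝ := l₀ / ρ ^ 2 with hl
  set L : ℝ := ((c₁ ^ 2 + 1) * l₀ + 1) / ρ ^ 2 with hLdef
  have hlpos : 0 < l := by positivity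
  have hLpos : 0 < L := by positivity
  have hlL : l ≤ L := by
    rw [hl, hLdef]
    gcongr
    nlinarith [mul_pos (pow_pos hc₁pos 2) hl₀pos]
  have hmain := main_inequality hm hP hE hn hκ hρ hκρ hδ hlpos hlL hric hL hvol
  rw [← hndef] at hmain
  set W := vol h {y | dh h p y ≤ ρ} with hW
  have hWtop : W < ⊤ := by
    have h1 : W ≤ vol h (ballh h p (2 * ρ)) := by
      apply measure_mono
      intro y hy
      have hy' : dh h p y ≤ ρ := hy
      change dh h p y < 2 * ρ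
      linarith
    refine (h1.trans (vol_ball_le hm hP hE p hκ (by linarith) fun y hy =>
      hric y (by linarith))).trans_lt ?_
    exact ENNReal.mul_lt_top ENNReal.ofReal_lt_top om_lt_top
  set V := W.toReal with hV
  have hWV : W = ENNReal.ofReal V := (ENNReal.ofReal_toReal hWtop.ne).symm
  have hV0 : 0 ≤ V := ENNReal.toReal_nonneg
  have hVge : δ * ρ ^ n ≤ V := by
    have h1 : ENNReal.ofReal (δ * ρ ^ n) ≤ W := by
      refine hvol.trans (measure_mono ?_)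
      intro y hy
      have hy' : dh h p y < ρ := hy
      exact hy'.le
    rw [hWV] at h1
    exact (ENNReal.ofReal_le_ofReal_iff hV0).1 h1
  have hreal : δ * ρ ^ n / (Real.exp 4 * 64 ^ n) * V ≤
      Real.exp 1 * (√ (l / L) * (4 * ρ) ^ n) * w * (Real.exp 2 * (3 * ρ) ^ n * w) +
      Real.exp 1 * (64 * n * (2 * ρ) ^ n / ρ ^ 2) / l * w * V := by
    rw [homE, hWV, ← ENNReal.ofReal_mul (by positivity), ← ENNReal.ofReal_mul (by positivity),
      ← ENNReal.ofReal_mul (by positivity), ← ENNReal.ofReal_mul (by positivity),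
      ← ENNReal.ofReal_mul (by positivity), ← ENNReal.ofReal_mul (by positivity),
      ← ENNReal.ofReal_add (by positivity) (by positivity)] at hmain
    exact (ENNReal.ofReal_le_ofReal_iff (by positivity)).1 hmain
  set Q := ρ ^ n with hQ
  have hQ0 : 0 < Q := by positivity
  set r := √ (l / L) with hr
  have hr0 : 0 ≤ r := Real.sqrt_nonneg _
  have hG : Real.exp 1 * (64 * n * (2 * ρ) ^ n / ρ ^ 2) / l * w =
      δ * Q / (Real.exp 4 * 64 ^ n) / 2 := by
    rw [hl, hl₀, mul_pow, ← hQ]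
    have h5 : Real.exp 5 = Real.exp 1 * Real.exp 4 := by rw [← Real.exp_add]; norm_num
    rw [h5]
    field_simp
  rw [hG] at hreal
  have h2 : δ * Q / (Real.exp 4 * 64 ^ n) / 2 * V ≤
      Real.exp 1 * (r * (4 * ρ) ^ n) * w * (Real.exp 2 * (3 * ρ) ^ n * w) := by
    linarith
  have h3 : δ * Q / (Real.exp 4 * 64 ^ n) / 2 * (δ * Q) ≤
      Real.exp 1 * (r * (4 * ρ) ^ n) * w * (Real.exp 2 * (3 * ρ) ^ n * w) := by
    refine le_trans ?_ h2
    gcongr
  have h4 : 1 ≤ c₁ * r := by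
    rw [mul_pow, mul_pow, ← hQ] at h3
    have h12 : (12 : ℝ) ^ n = 4 ^ n * 3 ^ n := by rw [← mul_pow]; norm_num
    have h7 : Real.exp 7 = Real.exp 1 * Real.exp 2 * Real.exp 4 := by
      rw [← Real.exp_add, ← Real.exp_add]; norm_num
    rw [hc₁, h12, h7, div_mul_eq_mul_div, le_div_iff₀ (by positivity), one_mul]
    have h8 : δ * Q / (Real.exp 4 * 64 ^ n) / 2 * (δ * Q) =
        δ ^ 2 * (Q ^ 2 / (2 * Real.exp 4 * 64 ^ n)) := by
      field_simp
    have h9 : Real.exp 1 * (r * (4 ^ n * Q)) * w * (Real.exp 2 * (3 ^ n * Q) * w) =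
        2 * (Real.exp 1 * Real.exp 2 * Real.exp 4) * 64 ^ n * (4 ^ n * 3 ^ n) * w ^ 2 * r *
          (Q ^ 2 / (2 * Real.exp 4 * 64 ^ n)) := by
      field_simp
    rw [h8, h9] at h3
    exact le_of_mul_le_mul_right h3 (by positivity)
  have h5 : 1 ≤ c₁ ^ 2 * (l / L) := by
    have h6 : r ^ 2 = l / L := Real.sq_sqrt (by positivity)
    rw [← h6, ← mul_pow]
    exact one_le_pow₀ h4
  have h6 : L ≤ c₁ ^ 2 * l := by
    rw [← mul_div_assoc, le_div_iff₀ hLpos, one_mul] at h5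
    exact h5
  have h8 : c₁ ^ 2 * l = (c₁ ^ 2 * l₀) / ρ ^ 2 := by rw [hl, mul_div_assoc]
  rw [h8, hLdef, div_le_div_iff_of_pos_right hρ2] at h6
  nlinarith

end Pool.Agent.Lib.MP_df705a_gt.Pin.A
end
end

section

/-!
# Ricci pinching, part A: the exported statements
-/

open scoped Manifold ContDiff Topology
open Set Bundle Module Filter MeasureTheory

noncomputable section

namespace Pool.Agent.Lib.MP_df705a_gt.Pin.A

/-- (A1) Bishop-Gromov, local form. -/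
theorem partA_bishop_gromov (n : ℕ) : ∃ C : ℝ, 0 < C ∧ ∀ h : Curv.Coeff (EuclideanSpace ℝ (Fin n)),
    Curv.IsMetric h → Proper h → ∀ (x : EuclideanSpace ℝ (Fin n)) (κ r R : ℝ), 0 ≤ κ → 0 < r →
      r ≤ R → κ * R ^ 2 ≤ 1 → (∀ y, dh h x y ≤ R → RicGeAt h κ y) →
      vol h (ballh h x R) ≤ ENNReal.ofReal (C * (R / r) ^ n) * vol h (ballh h x r) := by
  refine ⟨Real.exp 1, Real.exp_pos _, fun h hm hP x κ r R hκ hr hrR hκR hric => ?_⟩
  obtain ⟨Ex, hE⟩ := exists_exp hm hP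
  have h1 := bishop_gromov hm hP hE x hκ hr hrR hric
  rw [finrank_euclideanSpace_fin] at h1
  refine h1.trans (mul_le_mul_left (ENNReal.ofReal_le_ofReal ?_) _)
  have h2 : κ * R ^ 2 / 6 ≤ 1 := by linarith
  have hR : 0 < R := hr.trans_le hrR
  have h3 : 0 ≤ (R / r) ^ n := by positivity
  exact mul_le_mul_of_nonneg_right (Real.exp_le_exp.2 h2) h3

/-- (A1') volume of small balls. -/
theorem partA_small_balls (n : ℕ) : ∃ c : ℝ, 0 < c ∧ ∀ h : Curv.Coeff (EuclideanSpace ℝ (Fin n)),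
    Curv.IsMetric h → ∀ K : Set (EuclideanSpace ℝ (Fin n)), IsCompact K → ∃ r₀ : ℝ, 0 < r₀ ∧
      ∀ x ∈ K, ∀ r : ℝ, 0 < r → r ≤ r₀ →
        ENNReal.ofReal (c * r ^ n) ≤ vol h (ballh h x r) := by
  refine ⟨1 / 2 * (1 / 2) ^ n * (om (EuclideanSpace ℝ (Fin n))).toReal, ?_,
    fun h hm K hK => ?_⟩
  · have := ENNReal.toReal_pos (om_pos (E := EuclideanSpace ℝ (Fin n))).ne'
      (om_lt_top (E := EuclideanSpace ℝ (Fin n))).ne
    positivity
  · obtain ⟨r₀, hr₀, h1⟩ := small_balls hm hK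
    refine ⟨r₀, hr₀, fun x hx r hr hr' => ?_⟩
    have h2 := h1 x hx r hr hr'
    rw [finrank_euclideanSpace_fin] at h2
    refine le_trans (le_of_eq ?_) h2
    rw [show 1 / 2 * (1 / 2) ^ n * (om (EuclideanSpace ℝ (Fin n))).toReal * r ^ n =
      1 / 2 * (r / 2) ^ n * (om (EuclideanSpace ℝ (Fin n))).toReal by
        rw [div_pow, div_pow]; ring, ENNReal.ofReal_mul (by positivity),
      ENNReal.ofReal_toReal (om_lt_top (E := EuclideanSpace ℝ (Fin n))).ne]

/-- (A2) a ball which is not collapsed contains a point where `Ric ≤ C ρ⁻²`. -/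
theorem partA_pinch (n : ℕ) (hn : 2 ≤ n) (δ : ℝ) (hδ : 0 < δ) : ∃ C : ℝ, 0 < C ∧
    ∀ h : Curv.Coeff (EuclideanSpace ℝ (Fin n)), Curv.IsMetric h → Proper h →
      ∀ (p : EuclideanSpace ℝ (Fin n)) (κ ρ : ℝ), 0 ≤ κ → 0 < ρ →
      κ * ρ ^ 2 ≤ 1 → (∀ y, dh h p y ≤ 8 * ρ → RicGeAt h κ y) →
      ENNReal.ofReal (δ * ρ ^ n) ≤ vol h (ballh h p ρ) →
      ∃ x, dh h p x ≤ 8 * ρ ∧ RicLeAt h (C / ρ ^ 2) x := by
  have h1 := pinch (E := EuclideanSpace ℝ (Fin n)) (by rw [finrank_euclideanSpace_fin]; exact hn) hδ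
  rwa [finrank_euclideanSpace_fin] at h1

end Pool.Agent.Lib.MP_df705a_gt.Pin.A
end
end

section

/-!
# Spectral Ricci pinching, S3J2: the local estimate at scale one
-/

open scoped Manifold ContDiff Topology
open Set Bundle Module Filter MeasureTheory

noncomputable section

set_option linter.unusedSectionVars false

namespace Pool.Agent.Lib.MP_df705a_gt.Pin

open Pool.Agent.Lib.MP_df705a_gt.Twist Pool.Agent.Lib.MP_df705a_gt.Perm
open Pool.Agent.Lib.MP_df705a_gt.Coll (trM ipM)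
open Pool.Agent.Lib.MP_df705a_gt.Coll.T (ddC mat pull RM SmF)

variable {E : Type*} [NormedAddCommGroup E] [NormedSpace ℝ E] [FiniteDimensional ℝ E]
  {h : Curv.Coeff E}
  [MeasurableSpace E] [BorelSpace E]

/-- The local estimate. Proof: `exists_cutoff_grad` gives `c₁`, `exists_int_GG_le` for `K, c₁` gives `C` (for
`n = finrank ℝ E ≥ 1`; for `n = 0` the assumption on `w` at `y = p` is contradictory:
`0 ≤ - A (1 + γ) w p`), `exists_vol_le` gives `V`. Put `A = (C + 1) V² / c² + 1`. With the cutoff `ψ` of `p`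
one has `Loc h f ψ K c₁` (where `ψ x ≠ 0`: `dh h p x < 4`; support in the compact set
`{dh h p x ≤ 4}`). So with `Λ = A (1 + γ)`: `A (1 + γ) ∫ ψ^(2n+4) G ≤ C (1 + γ) aI 1 0 ≤
C (1 + γ) V` (`Loc.aI_zero_le`), and `∫_{dh ≤ 2} G ≤ ∫ ψ^(2n+4) G ≤ C V / A`. By `volume_image_le` and
`lintegral_sqrt_GG_le` the volume of the image is at most `√ (C V / A) √ V ≤ c`. -/
theorem exists_local_one (E : Type*) [NormedAddCommGroup E] [NormedSpace ℝ E]
    [FiniteDimensional ℝ E] [MeasurableSpace E] [BorelSpace E] (K c : ℝ) (hK : 0 ≤ K)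
    (hc : 0 < c) : ∃ A : ℝ, 0 < A ∧
    ∀ h : Curv.Coeff E, Curv.IsMetric h → Proper h → ∀ p : E,
      (∀ y, dh h p y ≤ 5 → RicGeAt h 1 y) →
      ∀ f : Fin (finrank ℝ E) → E → ℝ, (∀ i, ContDiff ℝ ∞ (f i)) →
        (∀ i y, dh h p y ≤ 5 → |f i y| ≤ 2 ∧ |lapC h (f i) y| ≤ K) →
        ∀ (γ : ℝ) (w : E → ℝ), 0 ≤ γ → ContDiff ℝ ∞ w → (∀ y, 0 < w y) →
          (∀ y, dh h p y ≤ 5 →
            γ * lapC h w y ≤ (Curv.scal h y - A * (1 + γ)) * w y) →
          volume ((fun (y : E) (i : Fin (finrank ℝ E)) => f i y) ''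
            {y | dh h p y ≤ 2}) ≤ ENNReal.ofReal c := by
  rcases Nat.eq_zero_or_pos (finrank ℝ E) with hn | hn
  · refine ⟨1, one_pos, ?_⟩
    intro h hh hp p hric f hf hfb γ w hγ hw hw0 hle
    exfalso
    obtain ⟨e1, e2⟩ := lapC_eq_zero_of_finrank hn h w p
    have h1 := hle p (by rw [dh_self]; norm_num)
    rw [e1, e2] at h1
    have h2 : 0 < (1 + γ) * w p := mul_pos (by linarith) (hw0 p)
    linarith
  · obtain ⟨c₁, hc₁, Hcut⟩ := exists_cutoff_grad E
    obtain ⟨C, hC, HC⟩ := exists_int_GG_le E hn K c₁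
    obtain ⟨V, hV, HV⟩ := exists_vol_le E
    have hA : 0 < (C + 1) * V ^ 2 / c ^ 2 + 1 := by positivity
    refine ⟨(C + 1) * V ^ 2 / c ^ 2 + 1, hA, ?_⟩
    intro h hh hp p hric f hf hfb γ w hγ hw hw0 hle
    obtain ⟨ψ, ψsm, ψ0, ψ1, ψeq1, ψeq0, ψgrad⟩ := Hcut h hh hp p
    have hψ4 : ∀ x, ψ x ≠ 0 → dh h p x < 4 := fun x hx => by
      by_contra h4
      exact hx (ψeq0 x (not_lt.1 h4))
    have L : Loc h f ψ K c₁ :=
      { met := hh
        sm := hf
        psm := ψsm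
        cpt := HasCompactSupport.of_support_subset_isCompact (hp p 4)
          fun x hx => (hψ4 x hx).le
        nonneg := ψ0
        le_one := ψ1
        grad := ψgrad
        K0 := hK
        c0 := hc₁
        ric := fun x hx => hric x (by linarith [hψ4 x hx])
        two := fun x hx i => (hfb i x (by linarith [hψ4 x hx])).1
        lap := fun x hx i => (hfb i x (by linarith [hψ4 x hx])).2 }
    have h1 := HC h f ψ L γ (((C + 1) * V ^ 2 / c ^ 2 + 1) * (1 + γ)) w hγ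
      (mul_nonneg hA.le (by linarith)) hw hw0
      (fun x hx => hle x (by linarith [hψ4 x hx]))
    have h2 : aI h f ψ 1 0 ≤ V :=
      (L.aI_zero_le (hp p 4) fun x hx => ψeq0 x (not_le.1 hx).le).trans (HV h hh hp p hric)
    have hB : IsCompact {y | dh h p y ≤ 2} := hp p 2
    have hBD : {y | dh h p y ≤ 2} ⊆ {y | dh h p y ≤ 4} := fun y hy => by
      have hy' : dh h p y ≤ 2 := hy
      have : dh h p y ≤ 4 := by linarith
      exact this
    have h3 : (vol h {y | dh h p y ≤ 2}).toReal ≤ V :=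
      (ENNReal.toReal_mono (vol_lt_top_of_isCompact hh (hp p 4)).ne
        (measure_mono hBD)).trans (HV h hh hp p hric)
    have hGc : Continuous (GG h f) := (contDiff_GG hh hf).continuous
    have hint : Integrable (fun x => ψ x ^ (2 * (finrank ℝ E + 2)) * GG h f x) (vol h) := by
      refine integrable_vol hh ((ψsm.continuous.pow _).mul hGc) ?_
      refine HasCompactSupport.mul_right ?_
      exact L.cpt.comp_left (g := fun t : ℝ => t ^ (2 * (finrank ℝ E + 2)))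
        (zero_pow (by omega))
    have h4 : ∫ x in {y | dh h p y ≤ 2}, GG h f x ∂(vol h) ≤
        ∫ x, ψ x ^ (2 * (finrank ℝ E + 2)) * GG h f x ∂(vol h) := by
      have e : ∫ x in {y | dh h p y ≤ 2}, GG h f x ∂(vol h) =
          ∫ x in {y | dh h p y ≤ 2}, ψ x ^ (2 * (finrank ℝ E + 2)) * GG h f x ∂(vol h) := by
        refine setIntegral_congr_fun hB.measurableSet fun x hx => ?_
        rw [ψeq1 x hx, one_pow, one_mul]
      rw [e]
      exact setIntegral_le_integral hint (Eventually.of_forall fun x =>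
        mul_nonneg (pow_nonneg (ψ0 x) _) (GG_nonneg hh f x))
    have hI0 : 0 ≤ ∫ x in {y | dh h p y ≤ 2}, GG h f x ∂(vol h) :=
      setIntegral_nonneg hB.measurableSet fun x _ => GG_nonneg hh f x
    refine (volume_image_le hh hf hB).trans ((lintegral_sqrt_GG_le hh hf hB).trans
      (ENNReal.ofReal_le_ofReal ?_))
    generalize ∫ x in {y | dh h p y ≤ 2}, GG h f x ∂(vol h) = I at *
    generalize ∫ x, ψ x ^ (2 * (finrank ℝ E + 2)) * GG h f x ∂(vol h) = J at *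
    generalize (vol h {y | dh h p y ≤ 2}).toReal = v at *
    have h5 : ((C + 1) * V ^ 2 / c ^ 2 + 1) * J ≤ C * V := by
      have h6 : (1 + γ) * (((C + 1) * V ^ 2 / c ^ 2 + 1) * J) ≤ (1 + γ) * (C * V) := by
        calc (1 + γ) * (((C + 1) * V ^ 2 / c ^ 2 + 1) * J)
            = ((C + 1) * V ^ 2 / c ^ 2 + 1) * (1 + γ) * J := by ring
          _ ≤ C * (1 + γ) * aI h f ψ 1 0 := h1
          _ ≤ C * (1 + γ) * V := mul_le_mul_of_nonneg_left h2 (mul_nonneg hC (by linarith))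
          _ = (1 + γ) * (C * V) := by ring
      exact le_of_mul_le_mul_left h6 (by linarith)
    have h7 : ((C + 1) * V ^ 2 / c ^ 2 + 1) * I ≤ C * V :=
      (mul_le_mul_of_nonneg_left h4 hA.le).trans h5
    have h8 : ((C + 1) * V ^ 2 / c ^ 2 + 1) * (I * V) ≤
        ((C + 1) * V ^ 2 / c ^ 2 + 1) * c ^ 2 := by
      have e1 : ((C + 1) * V ^ 2 / c ^ 2 + 1) * c ^ 2 = (C + 1) * V ^ 2 + c ^ 2 := by
        field_simp
      rw [e1]
      calc ((C + 1) * V ^ 2 / c ^ 2 + 1) * (I * V)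
          = (((C + 1) * V ^ 2 / c ^ 2 + 1) * I) * V := by ring
        _ ≤ C * V * V := mul_le_mul_of_nonneg_right h7 hV.le
        _ ≤ (C + 1) * V ^ 2 + c ^ 2 := by nlinarith [sq_nonneg V, sq_nonneg c]
    have h9 : I * V ≤ c ^ 2 := le_of_mul_le_mul_left h8 hA
    rw [← Real.sqrt_mul hI0]
    have h10 : I * v ≤ c ^ 2 := (mul_le_mul_of_nonneg_left h3 hI0).trans h9
    exact (Real.sqrt_le_sqrt h10).trans (Real.sqrt_sq hc.le).le

end Pool.Agent.Lib.MP_df705a_gt.Pin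
end
end
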