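import Mathlib
import Pool.Agent.Lib.MP_df705a_gt.Mg.G001
import Pool.Agent.Lib.MP_df705a_gt.Mg.G023

section

/-!
# Grouping the members of a cover
-/

open scoped Topology
open Set

noncomputable section

namespace Pool.Agent.Lib.MP_df705a_gt.Pin

variable {X J K : Type*} [TopologicalSpace X]

/-- The grouped cover: the `V j` with `c j = some k` are joined to `D k`, the others remain. -/
def grouped (V : J → Set X) (D : K → Set X) (c : J → Option K) : J ⊕ K → Set X
  | Sum.inl j => {x | x ∈ V j ∧ c j = none}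
  | Sum.inr k => D k ∪ ⋃ j, {x | x ∈ V j ∧ c j = some k}

theorem isClosed_grouped {V : J → Set X} {D : K → Set X} (c : J → Option K)
    (hVl : LocallyFinite V) (hVc : ∀ j, IsClosed (V j)) (hDc : ∀ k, IsClosed (D k)) (i : J ⊕ K) :
    IsClosed (grouped V D c i) := by
  rcases i with j | k
  · by_cases h : c j = none
    · have h1 : grouped V D c (Sum.inl j) = V j := by
        ext x
        exact ⟨fun hx => hx.1, fun hx => ⟨hx, h⟩⟩
      rw [h1]
      exact hVc j
    · have h1 : grouped V D c (Sum.inl j) = ∅ := by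
        ext x
        exact ⟨fun hx => h hx.2, fun hx => hx.elim⟩
      rw [h1]
      exact isClosed_empty
  · refine (hDc k).union ?_
    have h1 : LocallyFinite fun j => {x | x ∈ V j ∧ c j = some k} :=
      hVl.subset fun j x hx => hx.1
    refine h1.isClosed_iUnion fun j => ?_
    by_cases h : c j = some k
    · have h1 : {x | x ∈ V j ∧ c j = some k} = V j := by
        ext x
        exact ⟨fun hx => hx.1, fun hx => ⟨hx, h⟩⟩
      rw [h1]
      exact hVc j
    · have h1 : {x | x ∈ V j ∧ c j = some k} = ∅ := by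
        ext x
        exact ⟨fun hx => h hx.2, fun hx => hx.elim⟩
      rw [h1]
      exact isClosed_empty

theorem locallyFinite_grouped {V : J → Set X} {D : K → Set X} (c : J → Option K)
    (hVl : LocallyFinite V) (hDl : LocallyFinite D) : LocallyFinite (grouped V D c) := by
  intro x
  obtain ⟨s, hs, hsf⟩ := hVl x
  obtain ⟨t, ht, htf⟩ := hDl x
  refine ⟨s ∩ t, Filter.inter_mem hs ht, ?_⟩
  have h1 : {i | (grouped V D c i ∩ (s ∩ t)).Nonempty} ⊆
      Sum.inl '' {j | (V j ∩ s).Nonempty} ∪ Sum.inr '' ({k | (D k ∩ t).Nonempty} ∪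
        {k | ∃ j ∈ {j | (V j ∩ s).Nonempty}, c j = some k}) := by
    rintro (j | k) ⟨y, hy, hys, hyt⟩
    · exact Or.inl ⟨j, ⟨y, hy.1, hys⟩, rfl⟩
    · refine Or.inr ⟨k, ?_, rfl⟩
      rcases hy with hy | hy
      · exact Or.inl ⟨y, hy, hyt⟩
      · obtain ⟨j, hj, hjk⟩ := mem_iUnion.1 hy
        exact Or.inr ⟨j, ⟨y, hj, hys⟩, hjk⟩
  refine Set.Finite.subset ((hsf.image _).union ((htf.union ?_).image _)) h1
  have h2 : {k | ∃ j ∈ {j | (V j ∩ s).Nonempty}, c j = some k} ⊆
      some ⁻¹' (c '' {j | (V j ∩ s).Nonempty}) := by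
    rintro k ⟨j, hj, hjk⟩
    exact ⟨j, hj, hjk⟩
  exact (Set.Finite.preimage (Option.some_injective K).injOn (hsf.image c)).subset h2

/-- **Grouping.** `V` covers the complement of `Y`, with multiplicity at most `N`, and at most `N - 1`
on `Y`; the sets `D₂ k` and `Y₀` cover `Y`; if `V j` meets `D₂ k` then it is contained in `D₁ k`; the
sets `D₁ k` are bounded and have multiplicity at most `N - 1`. Then there is a cover of the
complement of `Y₀` with the properties of `V`. -/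
theorem exists_grouping {d : X → X → ℝ} {V : J → Set X} {Y Y₀ : Set X} {D₁ D₂ : K → Set X} {N : ℕ}
    {R : ℝ} (hVl : LocallyFinite V) (hVc : ∀ j, IsClosed (V j)) (hYc : IsClosed Y)
    (hDc : ∀ k, IsClosed (D₂ k)) (hDl : LocallyFinite D₂) (hD12 : ∀ k, D₂ k ⊆ D₁ k)
    (hgr : ∀ k j x, x ∈ D₂ k → x ∈ V j → V j ⊆ D₁ k)
    (hDR : ∀ k, ∀ x ∈ D₁ k, ∀ y ∈ D₁ k, d x y ≤ R)
    (hDm : ∀ x, {k | x ∈ D₁ k}.encard + 1 ≤ N) (hVR : ∀ j, ∀ x ∈ V j, ∀ y ∈ V j, d x y ≤ R)
    (hm : ∀ x, {j | x ∈ V j}.encard ≤ N) (hmY : ∀ x ∈ Y, {j | x ∈ V j}.encard + 1 ≤ N)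
    (hcov : ∀ x, x ∉ Y → ∃ j, x ∈ V j) (hYcov : ∀ x ∈ Y, x ∈ Y₀ ∨ ∃ k, x ∈ D₂ k) (hY₀ : Y₀ ⊆ Y) :
    ∃ V' : J ⊕ K → Set X, LocallyFinite V' ∧ (∀ i, IsClosed (V' i)) ∧
      (∀ x, x ∉ Y₀ → ∃ i, x ∈ V' i) ∧ (∀ x, {i | x ∈ V' i}.encard ≤ N) ∧
      (∀ x ∈ Y₀, {i | x ∈ V' i}.encard + 1 ≤ N) ∧ ∀ i, ∀ x ∈ V' i, ∀ y ∈ V' i, d x y ≤ R := by
  classical
  let c : J → Option K := fun j => if h : ∃ k, V j ⊆ D₁ k then some h.choose else none
  have hc1 : ∀ j k, c j = some k → V j ⊆ D₁ k := by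
    intro j k hjk
    simp only [c] at hjk
    split_ifs at hjk with h
    rw [Option.some.injEq] at hjk
    rw [← hjk]
    exact h.choose_spec
  have hc2 : ∀ j k, V j ⊆ D₁ k → c j ≠ none := by
    intro j k hjk hn
    simp only [c] at hn
    split_ifs at hn with h
    exact h ⟨k, hjk⟩
  let D : K → Set X := fun k => D₂ k ∩ Y
  have hDs : ∀ k, ∀ x ∈ grouped V D c (Sum.inr k), x ∈ D₁ k := by
    rintro k x (hx | hx)
    · exact hD12 k hx.1
    · obtain ⟨j, hj, hjk⟩ := mem_iUnion.1 hx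
      exact hc1 j k hjk hj
  have hcount : ∀ x, {i | x ∈ grouped V D c i}.encard ≤ {j | x ∈ V j}.encard ∨
      {i | x ∈ grouped V D c i}.encard ≤ {k | x ∈ D₁ k}.encard := by
    intro x
    by_cases hx : ∃ k, x ∈ D k
    · refine Or.inr ?_
      obtain ⟨k₀, hk₀, hxY⟩ := hx
      have h1 : {i | x ∈ grouped V D c i} ⊆ Sum.inr '' {k | x ∈ D₁ k} := by
        rintro (j | k) hi
        · exact (hc2 j k₀ (hgr k₀ j x hk₀ hi.1) hi.2).elim
        · exact ⟨k, hDs k x hi, rfl⟩
      exact (encard_le_encard h1).trans (encard_image_le _ _)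
    · refine Or.inl ?_
      push Not at hx
      let φ : J → J ⊕ K := fun j => match c j with
        | none => Sum.inl j
        | some k => Sum.inr k
      have h1 : {i | x ∈ grouped V D c i} ⊆ φ '' {j | x ∈ V j} := by
        rintro (j | k) hi
        · refine ⟨j, hi.1, ?_⟩
          simp only [φ]
          rw [hi.2]
        · rcases hi with hi | hi
          · exact (hx k hi).elim
          · obtain ⟨j, hj, hjk⟩ := mem_iUnion.1 hi
            refine ⟨j, hj, ?_⟩
            simp only [φ]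
            rw [hjk]
      exact (encard_le_encard h1).trans (encard_image_le _ _)
  refine ⟨grouped V D c, locallyFinite_grouped c hVl (hDl.subset fun k => inter_subset_left),
    isClosed_grouped c hVl hVc fun k => (hDc k).inter hYc, ?_, ?_, ?_, ?_⟩
  · intro x hx
    by_cases hxY : x ∈ Y
    · obtain h | ⟨k, hk⟩ := hYcov x hxY
      · exact (hx h).elim
      · exact ⟨Sum.inr k, Or.inl ⟨hk, hxY⟩⟩
    · obtain ⟨j, hj⟩ := hcov x hxY
      cases hcj : c j with
      | none => exact ⟨Sum.inl j, hj, hcj⟩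
      | some k => exact ⟨Sum.inr k, Or.inr (mem_iUnion.2 ⟨j, hj, hcj⟩)⟩
  · intro x
    rcases hcount x with h | h
    · exact h.trans (hm x)
    · exact h.trans ((self_le_add_right _ _).trans (hDm x))
  · intro x hx
    rcases hcount x with h | h
    · exact (add_le_add_left h 1).trans (hmY x (hY₀ hx))
    · exact (add_le_add_left h 1).trans (hDm x)
  · rintro (j | k) x hx y hy
    · exact hVR j x hx.1 y hy.1
    · exact hDR k x (hDs k x hx) y (hDs k y hy)

end Pool.Agent.Lib.MP_df705a_gt.Pin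
end
end

section

/-!
# Two subdivisions of an interval
-/

open scoped BigOperators
open Set Finset

noncomputable section

namespace Pool.Agent.Lib.MP_df705a_gt.Pin

variable {m : ℕ}

/-- The left end of the `i`-th interval. -/
def lo (f : Fin m → ℝ) (i : Fin m) : ℝ := ∑ j ∈ Finset.Iio i, f j

/-- The length of the intersection of the interval `[lo i, lo i + f i]` with `[0, c]` (for `false`)
or `[c, ∞)` (for `true`), negative if they are disjoint. -/
def mg (f : Fin m → ℝ) (c : ℝ) : Fin m × Bool → ℝ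
  | (i, false) => min (lo f i + f i) c - lo f i
  | (i, true) => lo f i + f i - max (lo f i) c

theorem lo_nonneg {f : Fin m → ℝ} (hf : ∀ i, 0 ≤ f i) (i : Fin m) : 0 ≤ lo f i :=
  Finset.sum_nonneg fun j _ => hf j

theorem lo_add_le {f : Fin m → ℝ} (hf : ∀ i, 0 ≤ f i) (i : Fin m) : lo f i + f i ≤ ∑ j, f j := by
  have h1 : lo f i + f i = ∑ j ∈ Finset.Iic i, f j := by
    unfold lo
    rw [← Finset.Iio_insert, Finset.sum_insert (by simp), add_comm]
  rw [h1]
  exact Finset.sum_le_univ_sum_of_nonneg hf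

theorem lo_add_le_lo {f : Fin m → ℝ} (hf : ∀ i, 0 ≤ f i) {i j : Fin m} (hij : i < j) :
    lo f i + f i ≤ lo f j := by
  have h1 : lo f i + f i = ∑ j ∈ Finset.Iic i, f j := by
    unfold lo
    rw [← Finset.Iio_insert, Finset.sum_insert (by simp), add_comm]
  rw [h1]
  refine Finset.sum_le_sum_of_subset_of_nonneg ?_ fun j _ _ => hf j
  intro k hk
  rw [Finset.mem_Iic] at hk
  rw [Finset.mem_Iio]
  exact lt_of_le_of_lt hk hij

theorem pos_of_mg_pos {f : Fin m → ℝ} {c : ℝ} {p : Fin m × Bool} (h : 0 < mg f c p) :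
    0 < f p.1 := by
  obtain ⟨i, b⟩ := p
  cases b
  · have h1 : min (lo f i + f i) c - lo f i ≤ f i := by
      have := min_le_left (lo f i + f i) c
      linarith
    exact lt_of_lt_of_le h h1
  · have h1 : lo f i + f i - max (lo f i) c ≤ f i := by
      have := le_max_left (lo f i) c
      linarith
    exact lt_of_lt_of_le h h1

theorem mg_le {f : Fin m → ℝ} {c : ℝ} (p : Fin m × Bool) : mg f c p ≤ f p.1 := by
  obtain ⟨i, b⟩ := p
  cases b
  · have := min_le_left (lo f i + f i) c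
    show min (lo f i + f i) c - lo f i ≤ f i
    linarith
  · have := le_max_left (lo f i) c
    show lo f i + f i - max (lo f i) c ≤ f i
    linarith

theorem pos_of_mg_false {f : Fin m → ℝ} (hf : ∀ i, 0 ≤ f i) {c : ℝ} {i : Fin m}
    (h : 0 < mg f c (i, false)) : 0 < c := by
  have h1 : min (lo f i + f i) c - lo f i ≤ c - lo f i := by
    have := min_le_right (lo f i + f i) c
    linarith
  have h2 := lo_nonneg hf i
  have h3 : 0 < min (lo f i + f i) c - lo f i := h
  linarith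

theorem lt_of_mg_true {f : Fin m → ℝ} (hf : ∀ i, 0 ≤ f i) {c : ℝ} {i : Fin m}
    (h : 0 < mg f c (i, true)) : c < ∑ j, f j := by
  have h1 := le_max_right (lo f i) c
  have h2 := lo_add_le hf i
  have h3 : 0 < lo f i + f i - max (lo f i) c := h
  linarith

/-- At most `m + 1` of the pieces are not empty. -/
theorem mg_count {f : Fin m → ℝ} (hf : ∀ i, 0 ≤ f i) (c : ℝ) :
    {p | 0 < mg f c p}.encard ≤ (m + 1 : ℕ) := by
  classical
  -- the map which sends `(i, false)` to `i` and `(i, true)` to `i + 1` is injective on this set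
  have hinj : Set.InjOn (fun p : Fin m × Bool => (p.1 : ℕ) + (if p.2 then 1 else 0))
      {p | 0 < mg f c p} := by
    have key : ∀ i j : Fin m, 0 < mg f c (i, false) → 0 < mg f c (j, true) →
        (i : ℕ) = (j : ℕ) + 1 → False := by
      intro i j hi hj hij
      have h1 : 0 < min (lo f i + f i) c - lo f i := hi
      have h2 : 0 < lo f j + f j - max (lo f j) c := hj
      have h3 : lo f j + f j ≤ lo f i := lo_add_le_lo hf (Fin.lt_def.2 (by omega))
      have h4 := min_le_right (lo f i + f i) c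
      have h5 := le_max_right (lo f j) c
      linarith
    rintro ⟨i, b⟩ hi ⟨j, b'⟩ hj hij
    simp only at hij
    cases b <;> cases b' <;> simp only [Bool.false_eq_true, if_false, if_true, add_zero] at hij
    · exact Prod.ext (Fin.ext hij) rfl
    · exact (key i j hi hj hij).elim
    · exact (key j i hj hi hij.symm).elim
    · exact Prod.ext (Fin.ext (by simpa using hij)) rfl
  rw [← hinj.encard_image]
  have hsub : (fun p : Fin m × Bool => (p.1 : ℕ) + (if p.2 then 1 else 0)) ''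
      {p | 0 < mg f c p} ⊆ (Finset.range (m + 1) : Set ℕ) := by
    rintro _ ⟨⟨i, b⟩, -, rfl⟩
    rw [Finset.mem_coe, Finset.mem_range]
    have h1 := i.2
    show (i : ℕ) + (if b then 1 else 0) < m + 1
    split_ifs <;> omega
  refine (Set.encard_le_encard hsub).trans ?_
  rw [Set.encard_coe_eq_coe_finsetCard, Finset.card_range]

/-- One of the pieces is long. -/
theorem exists_mg {f : Fin m → ℝ} {c : ℝ} (hS : 0 < ∑ j, f j) :
    ∃ p, (∑ j, f j) / (2 * m) ≤ mg f c p := by
  have hm : 0 < m := by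
    rcases Nat.eq_zero_or_pos m with rfl | h
    · simp at hS
    · exact h
  have hm' : (0 : ℝ) < m := by exact_mod_cast hm
  obtain ⟨i, -, hi⟩ : ∃ i ∈ (Finset.univ : Finset (Fin m)), (∑ j, f j) / m ≤ f i := by
    refine Finset.exists_le_of_sum_le (s := Finset.univ) ⟨⟨0, hm⟩, Finset.mem_univ _⟩ ?_
    rw [Finset.sum_const, Finset.card_univ, Fintype.card_fin, nsmul_eq_mul, mul_div_cancel₀ _ hm'.ne']
  have h1 : (∑ j, f j) / (2 * m) = (∑ j, f j) / m / 2 := by
    field_simp
  have h2 : f i = (f i : ℝ) := rfl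
  -- one of the two parts of the `i`-th interval has at least half of its length
  rw [h1]
  by_cases h3 : f i / 2 ≤ mg f c (i, false)
  · exact ⟨(i, false), le_trans (by linarith) h3⟩
  · refine ⟨(i, true), ?_⟩
    push Not at h3
    have h4 : min (lo f i + f i) c - lo f i < f i / 2 := h3
    have h5 : 0 < (∑ j, f j) / m := by positivity
    have h6 : c < lo f i + f i / 2 := by
      rcases min_choice (lo f i + f i) c with h | h
      · rw [h] at h4
        linarith
      · rw [h] at h4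
        linarith
    show (∑ j, f j) / m / 2 ≤ lo f i + f i - max (lo f i) c
    rcases max_choice (lo f i) c with h | h
    · rw [h]
      linarith
    · rw [h]
      linarith

theorem lo_sub_le {f f' : Fin m → ℝ} {δ : ℝ} (h : ∀ i, |f i - f' i| ≤ δ) (i : Fin m) :
    |lo f i - lo f' i| ≤ (i : ℕ) * δ := by
  unfold lo
  rw [← Finset.sum_sub_distrib]
  refine (Finset.abs_sum_le_sum_abs _ _).trans ?_
  refine (Finset.sum_le_sum fun j _ => h j).trans ?_
  rw [Finset.sum_const, nsmul_eq_mul, Fin.card_Iio]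

/-- The lengths are Lipschitz functions of the data. -/
theorem mg_sub_le {f f' : Fin m → ℝ} {c c' δ : ℝ} (h : ∀ i, |f i - f' i| ≤ δ)
    (hc : |c - c'| ≤ m * δ) (p : Fin m × Bool) : |mg f c p - mg f' c' p| ≤ 2 * m * δ := by
  have hδ : ∀ i : Fin m, 0 ≤ δ := fun i => (abs_nonneg _).trans (h i)
  obtain ⟨i, b⟩ := p
  have hδi := hδ i
  have h1 := lo_sub_le h i
  have h2 := h i
  have h3 : ((i : ℕ) : ℝ) + 1 ≤ m := by exact_mod_cast i.2
  have h4 : |lo f i + f i - (lo f' i + f' i)| ≤ m * δ := by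
    have h5 : lo f i + f i - (lo f' i + f' i) = (lo f i - lo f' i) + (f i - f' i) := by ring
    rw [h5]
    refine (abs_add_le _ _).trans ?_
    nlinarith
  have h6 : |lo f i - lo f' i| ≤ m * δ := h1.trans (by nlinarith)
  cases b
  · show |min (lo f i + f i) c - lo f i - (min (lo f' i + f' i) c' - lo f' i)| ≤ 2 * m * δ
    have h7 := abs_min_sub_min_le_max (lo f i + f i) c (lo f' i + f' i) c'
    have h8 : |min (lo f i + f i) c - min (lo f' i + f' i) c'| ≤ m * δ := h7.trans (max_le h4 hc)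
    rw [abs_le] at h6 h8 ⊢
    constructor <;> linarith [h6.1, h6.2, h8.1, h8.2]
  · show |lo f i + f i - max (lo f i) c - (lo f' i + f' i - max (lo f' i) c')| ≤ 2 * m * δ
    have h7 := abs_max_sub_max_le_max (lo f i) c (lo f' i) c'
    have h8 : |max (lo f i) c - max (lo f' i) c'| ≤ m * δ := h7.trans (max_le h6 hc)
    rw [abs_le] at h4 h8 ⊢
    constructor <;> linarith [h4.1, h4.2, h8.1, h8.2]

end Pool.Agent.Lib.MP_df705a_gt.Pin
end
end

section

/-!
# The pieces of the bad set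
-/

open scoped Topology
open Set

noncomputable section

namespace Pool.Agent.Lib.MP_df705a_gt.Pin

variable {X : Type*} [TopologicalSpace X] {d : X → X → ℝ} {m : ℕ}

/-- The length of the piece `p` at the point `x`. -/
def pc (f : Fin m → X → ℝ) (c : X → ℝ) (p : Fin m × Bool) (x : X) : ℝ :=
  mg (fun i => f i x) (c x) p

omit [TopologicalSpace X] in
theorem pc_lip {f : Fin m → X → ℝ} {c : X → ℝ} (hf : ∀ i x y, |f i x - f i y| ≤ d x y)
    (hc : ∀ x y, |c x - c y| ≤ m * (2 * d x y)) (p : Fin m × Bool) (x y : X) :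
    |pc f c p x - pc f c p y| ≤ 4 * m * d x y := by
  have h0 : 0 ≤ d x y := (abs_nonneg _).trans (hf p.1 x y)
  have h1 := mg_sub_le (f := fun i => f i x) (f' := fun i => f i y) (δ := 2 * d x y)
    (fun i => (hf i x y).trans (by linarith)) (hc x y) p
  calc |pc f c p x - pc f c p y| ≤ 2 * m * (2 * d x y) := h1
    _ = 4 * m * d x y := by ring

theorem continuous_of_lip (hd : IsD d) {a : ℝ} {h : X → ℝ} (hh : ∀ x y, |h x - h y| ≤ a * d x y) :
    Continuous h := by
  rw [continuous_iff_continuousAt]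
  intro x
  have h1 : Continuous fun y => a * d x y :=
    continuous_const.mul (hd.cont.comp (Continuous.prodMk_right x))
  have h2 : Filter.Tendsto (fun y => a * d x y) (𝓝 x) (𝓝 0) := by
    have := h1.tendsto x
    rwa [hd.self, mul_zero] at this
  show Filter.Tendsto h (𝓝 x) (𝓝 (h x))
  rw [tendsto_iff_norm_sub_tendsto_zero]
  refine squeeze_zero (fun y => norm_nonneg _) (fun y => ?_) h2
  rw [Real.norm_eq_abs, abs_sub_comm]
  exact hh x y

/-- The index set of the pieces: the components of the sets `{0 < pc f c p}`. -/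
def PI (f : Fin m → X → ℝ) (c : X → ℝ) : Type _ :=
  {a : (Fin m × Bool) × Set X // ∃ y, 0 < pc f c a.1 y ∧
    a.2 = connectedComponentIn {x | 0 < pc f c a.1 x} y}

/-- The pieces. -/
def piece (f : Fin m → X → ℝ) (c r : X → ℝ) (ε : ℝ) (k : PI f c) : Set X :=
  {x | x ∈ k.1.2 ∧ ε * r x ≤ pc f c k.1.1 x}

section

variable {f : Fin m → X → ℝ} {c r : X → ℝ}

theorem PI.eq_comp (k : PI f c) {x : X} (hx : x ∈ k.1.2) :
    k.1.2 = connectedComponentIn {x | 0 < pc f c k.1.1 x} x := by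
  obtain ⟨y, hy, hC⟩ := k.2
  rw [hC] at hx ⊢
  exact connectedComponentIn_eq hx

theorem PI.pos (k : PI f c) {x : X} (hx : x ∈ k.1.2) : 0 < pc f c k.1.1 x := by
  obtain ⟨y, hy, hC⟩ := k.2
  rw [hC] at hx
  exact connectedComponentIn_subset {x | 0 < pc f c k.1.1 x} y hx

/-- The number of the pieces which contain the point `x`. -/
theorem PI.count (hf : ∀ i x, 0 ≤ f i x) (x : X) :
    {k : PI f c | x ∈ k.1.2}.encard ≤ (m + 1 : ℕ) := by
  have hinj : Set.InjOn (fun k : PI f c => k.1.1) {k : PI f c | x ∈ k.1.2} := by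
    intro k hk k' hk' hkk
    refine Subtype.ext (Prod.ext hkk ?_)
    rw [k.eq_comp hk, k'.eq_comp hk']
    show connectedComponentIn {x | 0 < pc f c k.1.1 x} x =
      connectedComponentIn {x | 0 < pc f c k'.1.1 x} x
    have h1 : k.1.1 = k'.1.1 := hkk
    rw [h1]
  rw [← hinj.encard_image]
  refine (encard_le_encard ?_).trans (mg_count (f := fun i => f i x) (fun i => hf i x) (c x))
  rintro _ ⟨k, hk, rfl⟩
  exact k.pos hk

theorem PI.isOpen [LocallyConnectedSpace X] (hd : IsD d) (hfl : ∀ i x y, |f i x - f i y| ≤ d x y)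
    (hcl : ∀ x y, |c x - c y| ≤ m * (2 * d x y)) (k : PI f c) : IsOpen k.1.2 := by
  obtain ⟨y, hy, hC⟩ := k.2
  rw [hC]
  have h1 : Continuous (pc f c k.1.1) := continuous_of_lip hd (pc_lip hfl hcl k.1.1)
  exact (isOpen_lt continuous_const h1).connectedComponentIn

theorem isClosed_piece [LocallyConnectedSpace X] (hd : IsD d)
    (hfl : ∀ i x y, |f i x - f i y| ≤ d x y) (hcl : ∀ x y, |c x - c y| ≤ m * (2 * d x y))
    (hr : ∀ x, 0 < r x) (hr1 : ∀ x y, |r x - r y| ≤ d x y) {ε : ℝ} (hε : 0 < ε) (k : PI f c) :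
    IsClosed (piece f c r ε k) := by
  have h1 : Continuous (pc f c k.1.1) := continuous_of_lip hd (pc_lip hfl hcl k.1.1)
  have h2 : Continuous r := continuous_of_lip (a := 1) hd (fun x y => by
    rw [one_mul]; exact hr1 x y)
  have h3 : IsClosed {x | ε * r x ≤ pc f c k.1.1 x} := isClosed_le (continuous_const.mul h2) h1
  rw [← isOpen_compl_iff, isOpen_iff_mem_nhds]
  intro x hx
  by_cases hx1 : ε * r x ≤ pc f c k.1.1 x
  · -- `x` lies in another component
    have hpos : 0 < pc f c k.1.1 x := lt_of_lt_of_le (mul_pos hε (hr x)) hx1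
    have hxC : x ∉ k.1.2 := fun h => hx ⟨h, hx1⟩
    have h4 : connectedComponentIn {x | 0 < pc f c k.1.1 x} x ∈ 𝓝 x :=
      (isOpen_lt continuous_const h1).connectedComponentIn.mem_nhds
        (mem_connectedComponentIn hpos)
    refine Filter.mem_of_superset h4 ?_
    intro y hy hy'
    refine hxC ?_
    rw [k.eq_comp hy'.1, ← connectedComponentIn_eq hy]
    exact mem_connectedComponentIn hpos
  · refine Filter.mem_of_superset (h3.isOpen_compl.mem_nhds hx1) ?_
    intro y hy hy'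
    exact hy hy'.2

theorem piece_subset_of_near (hd : IsD d) (hball : ∀ x t, IsPreconnected {y | d x y < t})
    (hfl : ∀ i x y, |f i x - f i y| ≤ d x y) (hcl : ∀ x y, |c x - c y| ≤ m * (2 * d x y))
    {k : PI f c} {x y : X} {t : ℝ} (hx : x ∈ k.1.2) (ht : 4 * m * t ≤ pc f c k.1.1 x)
    (hxy : d x y < t) : y ∈ k.1.2 := by
  rcases Nat.eq_zero_or_pos m with rfl | hm
  · exact Fin.elim0 k.1.1.1
  rw [k.eq_comp hx]
  have ht0 : 0 < t := lt_of_le_of_lt (hd.nonneg x y) hxy
  refine (hball x t).subset_connectedComponentIn ?_ ?_ hxy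
  · show d x x < t
    rw [hd.self]
    exact ht0
  · intro z hz
    have h1 := (abs_le.1 (pc_lip hfl hcl k.1.1 x z)).2
    have h2 : d x z < t := hz
    have hm' : (0 : ℝ) < m := by exact_mod_cast hm
    show 0 < pc f c k.1.1 z
    nlinarith

theorem locallyFinite_piece (hd : IsD d) (hball : ∀ x t, IsPreconnected {y | d x y < t})
    (hf : ∀ i x, 0 ≤ f i x) (hfl : ∀ i x y, |f i x - f i y| ≤ d x y)
    (hcl : ∀ x y, |c x - c y| ≤ m * (2 * d x y)) (hr : ∀ x, 0 < r x)
    (hr1 : ∀ x y, |r x - r y| ≤ d x y) {ε : ℝ} (hε : 0 < ε) :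
    LocallyFinite (piece f c r ε) := by
  rcases Nat.eq_zero_or_pos m with rfl | hm
  · intro x
    refine ⟨univ, Filter.univ_mem, ?_⟩
    refine Set.Finite.subset finite_empty ?_
    intro k
    exact Fin.elim0 k.1.1.1
  have hm' : (0 : ℝ) < m := by exact_mod_cast hm
  intro x
  -- a small ball about `x`
  have hrx := hr x
  obtain ⟨t, ht0, ht1, ht2⟩ : ∃ t : ℝ, 0 < t ∧ t ≤ r x / 2 ∧ 4 * m * t ≤ ε * (r x / 2) := by
    refine ⟨min (r x / 2) (ε * (r x / 2) / (4 * m)), lt_min (by positivity) (by positivity),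
      min_le_left _ _, ?_⟩
    have h1 := min_le_right (r x / 2) (ε * (r x / 2) / (4 * m))
    have h2 := mul_le_mul_of_nonneg_left h1 (by positivity : (0 : ℝ) ≤ 4 * m)
    rwa [mul_div_cancel₀ _ (by positivity : (4 * m : ℝ) ≠ 0)] at h2
  have hcont : Continuous fun y => d x y := hd.cont.comp (Continuous.prodMk_right x)
  refine ⟨{y | d x y < t}, (isOpen_lt hcont continuous_const).mem_nhds (by
    show d x x < t
    rw [hd.self]
    exact ht0), ?_⟩
  refine Set.Finite.subset (Set.finite_of_encard_le_coe (PI.count hf x)) ?_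
  rintro k ⟨y, hy, hyx⟩
  have hxy : d x y < t := hyx
  have h3 := (abs_le.1 (hr1 x y)).2
  have h4 : r x / 2 ≤ r y := by linarith
  have h5 : 4 * m * t ≤ pc f c k.1.1 y :=
    ht2.trans ((mul_le_mul_of_nonneg_left h4 hε.le).trans hy.2)
  exact piece_subset_of_near hd hball hfl hcl hy.1 h5 (by rw [hd.comm]; exact hxy)

theorem PI.countable [LocallyConnectedSpace X] [TopologicalSpace.SeparableSpace X] (hd : IsD d)
    (hfl : ∀ i x y, |f i x - f i y| ≤ d x y) (hcl : ∀ x y, |c x - c y| ≤ m * (2 * d x y)) :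
    Countable (PI f c) := by
  have h1 : ∀ p : Fin m × Bool, {C : Set X | ∃ y, 0 < pc f c p y ∧
      C = connectedComponentIn {x | 0 < pc f c p x} y}.Countable := by
    intro p
    have ho : IsOpen {x | 0 < pc f c p x} :=
      isOpen_lt continuous_const (continuous_of_lip hd (pc_lip hfl hcl p))
    refine Set.PairwiseDisjoint.countable_of_isOpen (s := id) ?_ ?_ ?_
    · rintro _ ⟨y, hy, rfl⟩ _ ⟨z, hz, rfl⟩ hne
      show Disjoint (connectedComponentIn _ y) (connectedComponentIn _ z)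
      rw [Set.disjoint_left]
      intro w hw hw'
      exact hne ((connectedComponentIn_eq hw).trans (connectedComponentIn_eq hw').symm)
    · rintro _ ⟨y, hy, rfl⟩
      exact ho.connectedComponentIn
    · rintro _ ⟨y, hy, rfl⟩
      exact ⟨y, mem_connectedComponentIn hy⟩
  have h2 : {a : (Fin m × Bool) × Set X | ∃ y, 0 < pc f c a.1 y ∧
      a.2 = connectedComponentIn {x | 0 < pc f c a.1 x} y}.Countable := by
    have h3 : {a : (Fin m × Bool) × Set X | ∃ y, 0 < pc f c a.1 y ∧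
        a.2 = connectedComponentIn {x | 0 < pc f c a.1 x} y} ⊆
        ⋃ p, (fun C => (p, C)) '' {C : Set X | ∃ y, 0 < pc f c p y ∧
          C = connectedComponentIn {x | 0 < pc f c p x} y} := by
      rintro ⟨p, C⟩ h
      exact mem_iUnion.2 ⟨p, C, h, rfl⟩
    exact (countable_iUnion fun p => (h1 p).image _).mono h3
  exact h2.to_subtype

end

end Pool.Agent.Lib.MP_df705a_gt.Pin
end
end

section

/-!
# Regrouping the cover
-/

open scoped Topology
open Set

noncomputable section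

namespace Pool.Agent.Lib.MP_df705a_gt.Pin

theorem mul_wave_lip {S S' D t t' δ m : ℝ} (hD : 0 < D) (hm : 0 ≤ m) (hS : |S - S'| ≤ m * δ)
    (hS' : 0 ≤ S') (hS1 : S' ≤ m * D) (ht : |t - t'| ≤ δ) :
    |S * wave D t - S' * wave D t'| ≤ m * (2 * δ) := by
  have h1 : S * wave D t - S' * wave D t' = (S - S') * wave D t + S' * (wave D t - wave D t') := by
    ring
  rw [h1]
  have h2 : |(S - S') * wave D t| ≤ m * δ := by
    rw [abs_mul, abs_of_nonneg (wave_nonneg D t)]
    calc |S - S'| * wave D t ≤ |S - S'| * 1 :=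
          mul_le_mul_of_nonneg_left (wave_le_one D t) (abs_nonneg _)
      _ ≤ m * δ := by rw [mul_one]; exact hS
  have h3 : |S' * (wave D t - wave D t')| ≤ m * δ := by
    rw [abs_mul, abs_of_nonneg hS']
    have h4 : |wave D t - wave D t'| ≤ δ / D :=
      (wave_lip hD t t').trans (by gcongr)
    have h5 : 0 ≤ δ := (abs_nonneg _).trans ht
    calc S' * |wave D t - wave D t'| ≤ (m * D) * (δ / D) :=
          mul_le_mul hS1 h4 (abs_nonneg _) (by positivity)
      _ = m * δ := by field_simp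
  calc |(S - S') * wave D t + S' * (wave D t - wave D t')|
      ≤ |(S - S') * wave D t| + |S' * (wave D t - wave D t')| := abs_add_le _ _
    _ ≤ m * δ + m * δ := add_le_add h2 h3
    _ = m * (2 * δ) := by ring

/-- **Regrouping.** -/
theorem exists_regrouped {X : Type} [TopologicalSpace X] [LocallyConnectedSpace X]
    [TopologicalSpace.SeparableSpace X] {d : X → X → ℝ} (hd : IsD d)
    (hball : ∀ x t, IsPreconnected {y | d x y < t}) {m : ℕ} {f : Fin m → X → ℝ} {fA r σ : X → ℝ}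
    {D r₀ R₀ : ℝ} (hr0 : 0 < r₀) (hr₀ : ∀ x, r₀ ≤ r x) (hrD : ∀ x, r x ≤ D)
    (hr1 : ∀ x y, |r x - r y| ≤ d x y) (hf0 : ∀ i x, 0 ≤ f i x) (hfr : ∀ i x, f i x ≤ r x)
    (hf1 : ∀ i x y, |f i x - f i y| ≤ d x y) (hσ : ∀ x y, |σ x - σ y| ≤ d x y)
    (hR : ∀ i, ∀ C : Set X, IsPreconnected C → (∀ x ∈ C, 0 < f i x) → ∀ x ∈ C, ∀ y ∈ C,
      r₀ / (16 * (m + 1)) ≤ f i x → r₀ / (16 * (m + 1)) ≤ f i y → |σ x - σ y| ≤ 2 * D → d x y ≤ R₀)
    {J : Type} [Countable J] {V : J → Set X} {Y : Set X} (hVc : ∀ j, IsClosed (V j))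
    (hVl : LocallyFinite V) (hYc : IsClosed Y) (hcov : ∀ x, x ∈ Y ∨ ∃ j, x ∈ V j)
    (hm : ∀ x, {j | x ∈ V j}.encard ≤ (m + 2 : ℕ))
    (hmY : ∀ x ∈ Y, {j | x ∈ V j}.encard + 1 ≤ (m + 2 : ℕ))
    (hdiam : ∀ j, ∀ x ∈ V j, ∀ y ∈ V j, d x y ≤ r x / (64 * (m + 1) ^ 2))
    (hY : ∀ x ∈ Y, r x / 4 ≤ fA x ∨ ∃ i, r x / 2 ≤ f i x) :
    ∃ (J' : Type) (_ : Countable J') (V' : J' → Set X) (R : ℝ), LocallyFinite V' ∧
      (∀ j, IsClosed (V' j)) ∧ (∀ x, x ∉ {x ∈ Y | r x / 4 ≤ fA x} → ∃ i, x ∈ V' i) ∧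
      (∀ x, {j | x ∈ V' j}.encard ≤ (m + 2 : ℕ)) ∧
      (∀ x ∈ {x ∈ Y | r x / 4 ≤ fA x}, {j | x ∈ V' j}.encard + 1 ≤ (m + 2 : ℕ)) ∧
      ∀ i, ∀ x ∈ V' i, ∀ y ∈ V' i, d x y ≤ R := by
  have hr : ∀ x, 0 < r x := fun x => hr0.trans_le (hr₀ x)
  have hm1 : (0 : ℝ) < m + 1 := by positivity
  -- the cutting function
  let S : X → ℝ := fun x => ∑ i, f i x
  have hS0 : ∀ x, 0 ≤ S x := fun x => Finset.sum_nonneg fun i _ => hf0 i x
  have hSD : ∀ x, S x ≤ m * D := by
    intro x
    calc S x ≤ ∑ _i : Fin m, D := Finset.sum_le_sum fun i _ => (hfr i x).trans (hrD x)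
      _ = m * D := by simp
  have hS1 : ∀ x y, |S x - S y| ≤ m * d x y := by
    intro x y
    show |∑ i, f i x - ∑ i, f i y| ≤ m * d x y
    rw [← Finset.sum_sub_distrib]
    calc |∑ i, (f i x - f i y)| ≤ ∑ i, |f i x - f i y| := Finset.abs_sum_le_sum_abs _ _
      _ ≤ ∑ _i : Fin m, d x y := Finset.sum_le_sum fun i _ => hf1 i x y
      _ = m * d x y := by simp
  let c : X → ℝ := fun x => S x * wave D (σ x)
  rcases isEmpty_or_nonempty X with hX | ⟨⟨x₀⟩⟩
  · refine ⟨J, inferInstance, V, 0, hVl, hVc, fun x => (hX.false x).elim,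
      fun x => (hX.false x).elim, fun x => (hX.false x).elim, fun i x => (hX.false x).elim⟩
  have hD : 0 < D := (hr x₀).trans_le (hrD x₀)
  have hc1 : ∀ x y, |c x - c y| ≤ m * (2 * d x y) := fun x y =>
    mul_wave_lip hD (Nat.cast_nonneg m) (hS1 x y) (hS0 y) (hSD y) (hσ x y)
  have hcont : ∀ {h : X → ℝ}, (∀ x y, |h x - h y| ≤ d x y) → Continuous h := fun {h} hh =>
    continuous_of_lip (a := 1) hd (fun x y => by rw [one_mul]; exact hh x y)
  set ε : ℝ := 1 / (64 * (m + 1) ^ 2) with hε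
  set ε₁ : ℝ := 1 / (16 * (m + 1)) with hε₁
  set ε₂ : ℝ := 1 / (4 * (m + 1)) with hε₂
  have hε0 : 0 < ε := by positivity
  have hε10 : 0 < ε₁ := by positivity
  have hε20 : 0 < ε₂ := by positivity
  have hεm : (m + 1) * (4 * ε) = ε₁ := by
    rw [hε, hε₁]
    field_simp
    ring
  have hε12 : 4 * ε₁ = ε₂ := by
    rw [hε₁, hε₂]
    field_simp
    ring
  have hε1 : ε ≤ 1 := by
    rw [hε, div_le_one (by positivity)]
    have : (1 : ℝ) ≤ (m + 1) ^ 2 := one_le_pow₀ (by linarith [Nat.cast_nonneg (α := ℝ) m])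
    linarith
  have hmε : 4 * m * ε ≤ ε₁ := by
    rw [← hεm]
    nlinarith
  let D₁ : PI f c → Set X := piece f c r ε₁
  let D₂ : PI f c → Set X := piece f c r ε₂
  have hD12 : ∀ k, D₂ k ⊆ D₁ k := by
    rintro k x ⟨h1, h2⟩
    exact ⟨h1, (mul_le_mul_of_nonneg_right (by linarith) (hr x).le).trans h2⟩
  have hgr : ∀ k j x, x ∈ D₂ k → x ∈ V j → V j ⊆ D₁ k := by
    intro k j x hx hxj y hyj
    have h1 : d x y ≤ ε * r x := by
      have := hdiam j x hxj y hyj
      rw [hε]
      calc d x y ≤ r x / (64 * (m + 1) ^ 2) := this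
        _ = 1 / (64 * (m + 1) ^ 2) * r x := by ring
    have hrx := hr x
    have h2 : ε₂ * r x ≤ pc f c k.1.1 x := hx.2
    have h3 := (abs_le.1 (pc_lip hf1 hc1 k.1.1 x y)).2
    have h4 := (abs_le.1 (hr1 x y)).1
    have h5 : 4 * m * d x y ≤ ε₁ * r x := by
      calc 4 * m * d x y ≤ 4 * m * (ε * r x) := mul_le_mul_of_nonneg_left h1 (by positivity)
        _ = (4 * m * ε) * r x := by ring
        _ ≤ ε₁ * r x := mul_le_mul_of_nonneg_right hmε hrx.le
    refine ⟨?_, ?_⟩
    · refine piece_subset_of_near (t := 2 * (ε * r x)) hd hball hf1 hc1 hx.1 ?_ ?_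
      · calc 4 * m * (2 * (ε * r x)) = 2 * (4 * m * ε) * r x := by ring
          _ ≤ 2 * ε₁ * r x := mul_le_mul_of_nonneg_right (by linarith) hrx.le
          _ ≤ ε₂ * r x := mul_le_mul_of_nonneg_right (by linarith) hrx.le
          _ ≤ _ := h2
      · have : 0 < ε * r x := by positivity
        linarith
    · have h6 : r y ≤ 2 * r x := by
        have : ε * r x ≤ 1 * r x := mul_le_mul_of_nonneg_right hε1 hrx.le
        linarith
      calc ε₁ * r y ≤ ε₁ * (2 * r x) := mul_le_mul_of_nonneg_left h6 hε10.le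
        _ = 4 * ε₁ * r x - 2 * (ε₁ * r x) := by ring
        _ ≤ ε₂ * r x - ε₁ * r x := by
          rw [hε12]
          have : 0 < ε₁ * r x := by positivity
          linarith
        _ ≤ pc f c k.1.1 y := by linarith
  have hDR : ∀ k, ∀ x ∈ D₁ k, ∀ y ∈ D₁ k, d x y ≤ max R₀ D := by
    intro k x hx y hy
    refine le_trans ?_ (le_max_left _ _)
    have hC : IsPreconnected k.1.2 := by
      rw [k.eq_comp hx.1]
      exact isPreconnected_connectedComponentIn
    have hthick : ∀ z ∈ D₁ k, r₀ / (16 * (m + 1)) ≤ f k.1.1.1 z := by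
      intro z hz
      have h1 : ε₁ * r z ≤ pc f c k.1.1 z := hz.2
      have h2 : pc f c k.1.1 z ≤ f k.1.1.1 z := mg_le k.1.1
      calc r₀ / (16 * (m + 1)) = ε₁ * r₀ := by rw [hε₁]; ring
        _ ≤ ε₁ * r z := mul_le_mul_of_nonneg_left (hr₀ z) hε10.le
        _ ≤ _ := h1.trans h2
    refine hR k.1.1.1 k.1.2 hC (fun z hz => pos_of_mg_pos (k.pos hz)) x hx.1 y hy.1
      (hthick x hx) (hthick y hy) ?_
    have hσc : Continuous σ := hcont hσ
    have hI : IsPreconnected (σ '' k.1.2) := hC.image σ hσc.continuousOn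
    have hpos := fun z (hz : z ∈ k.1.2) => k.pos hz
    obtain ⟨⟨⟨i, b⟩, C⟩, hk⟩ := k
    cases b with
    | false =>
      refine wave_pos_bdd hD hI ?_ (mem_image_of_mem σ hx.1) (mem_image_of_mem σ hy.1)
      rintro _ ⟨z, hz, rfl⟩
      have h1 : 0 < c z := pos_of_mg_false (fun i => hf0 i z) (hpos z hz)
      have h2 : 0 < S z * wave D (σ z) := h1
      rcases (wave_nonneg D (σ z)).eq_or_lt with h3 | h3
      · rw [← h3, mul_zero] at h2
        exact absurd h2 (lt_irrefl _)
      · exact h3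
    | true =>
      refine wave_lt_bdd hD hI ?_ (mem_image_of_mem σ hx.1) (mem_image_of_mem σ hy.1)
      rintro _ ⟨z, hz, rfl⟩
      have h1 : c z < ∑ j, f j z := lt_of_mg_true (fun i => hf0 i z) (hpos z hz)
      have h2 : S z * wave D (σ z) < S z := h1
      by_contra h3
      push Not at h3
      have := mul_le_mul_of_nonneg_left h3 (hS0 z)
      linarith
  have hDm : ∀ x, {k | x ∈ D₁ k}.encard + 1 ≤ (m + 2 : ℕ) := by
    intro x
    have h1 : {k | x ∈ D₁ k}.encard ≤ (m + 1 : ℕ) :=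
      (encard_le_encard fun k hk => hk.1).trans (PI.count hf0 x)
    calc {k | x ∈ D₁ k}.encard + 1 ≤ (m + 1 : ℕ) + 1 := by gcongr
      _ = (m + 2 : ℕ) := by push_cast; ring
  have hYcov : ∀ x ∈ Y, x ∈ {x ∈ Y | r x / 4 ≤ fA x} ∨ ∃ k, x ∈ D₂ k := by
    intro x hx
    rcases hY x hx with h | ⟨i, hi⟩
    · exact Or.inl ⟨hx, h⟩
    · right
      have hrx := hr x
      have hSr : r x / 2 ≤ S x :=
        hi.trans (Finset.single_le_sum (fun j _ => hf0 j x) (Finset.mem_univ i))
      obtain ⟨p, hp⟩ := exists_mg (f := fun i => f i x) (c := c x)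
        (lt_of_lt_of_le (half_pos hrx) hSr)
      have hmpos : (0 : ℝ) < m := by
        have : 0 < m := i.pos
        exact_mod_cast this
      have h1 : ε₂ * r x ≤ pc f c p x := by
        refine le_trans ?_ hp
        have h2 : ε₂ * r x = (r x / 2) / (2 * (m + 1)) := by
          rw [hε₂]
          field_simp
          ring
        rw [h2]
        exact div_le_div₀ (hS0 x) hSr (by positivity) (by linarith)
      have h2 : 0 < pc f c p x := lt_of_lt_of_le (mul_pos hε20 hrx) h1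
      exact ⟨⟨(p, connectedComponentIn {x | 0 < pc f c p x} x), x, h2, rfl⟩,
        mem_connectedComponentIn h2, h1⟩
  have hVR : ∀ j, ∀ x ∈ V j, ∀ y ∈ V j, d x y ≤ max R₀ D := by
    intro j x hx y hy
    refine (hdiam j x hx y hy).trans ((?_ : _ ≤ D).trans (le_max_right _ _))
    refine le_trans ?_ (hrD x)
    refine div_le_self (hr x).le ?_
    have : (1 : ℝ) ≤ (m + 1) ^ 2 := one_le_pow₀ (by linarith [Nat.cast_nonneg (α := ℝ) m])
    linarith
  obtain ⟨V', h1, h2, h3, h4, h5, h6⟩ := exists_grouping (V := V) (Y := Y)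
    (Y₀ := {x ∈ Y | r x / 4 ≤ fA x}) (D₁ := D₁) (D₂ := D₂) hVl hVc hYc
    (fun k => isClosed_piece hd hf1 hc1 hr hr1 hε20 k)
    (locallyFinite_piece hd hball hf0 hf1 hc1 hr hr1 hε20) hD12 hgr hDR hDm hVR hm hmY
    (fun x hx => (hcov x).resolve_left hx) hYcov (fun x hx => hx.1)
  have : Countable (PI f c) := PI.countable hd hf1 hc1
  exact ⟨J ⊕ PI f c, inferInstance, V', _, h1, h2, h3, h4, h5, h6⟩

end Pool.Agent.Lib.MP_df705a_gt.Pin
end
end
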