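import Pool.Agent.Lib.MP_df705a_gt.Pin.GE1
import Pool.Agent.Lib.MP_df705a_gt.Mg.G065
import Pool.Agent.Lib.MP_df705a_gt.Mg.G032
import Pool.Agent.Lib.MP_df705a_gt.Mg.G067
import Pool.Agent.Lib.MP_df705a_gt.Mg.G060
import Pool.Agent.Lib.MP_df705a_gt.Mg.G071
import Pool.Agent.Lib.MP_df705a_gt.Mg.G066
import Pool.Agent.Lib.MP_df705a_gt.Mg.G030
import Pool.Agent.Lib.MP_df705a_gt.Mg.G036

section

/-!
# RL2, M2: the metric `q^* g + |ds|²` in the standard coordinates
-/

open scoped Manifold ContDiff InnerProductSpace Matrix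
open Module Bundle

noncomputable section

namespace Pool.Agent.Lib.MP_df705a_gt.RL

open Pool.Agent.Lib.MP_df705a_gt.Pin Pool.Agent.Lib.MP_df705a_gt.Perm
open Pool.Agent.Lib.MP_df705a_gt.Coll (Met)

variable {N n k : ℕ} {M : Type*} [TopologicalSpace M] [ChartedSpace (V n) M]
  [IsManifold 𝓘(ℝ, V n) ∞ M] {q : V N → M} {s : V N → V k}

private theorem M2_mfderiv (hq : ContMDiff 𝓘(ℝ, V N) 𝓘(ℝ, V n) ∞ q) (L : V N ≃L[ℝ] V N)
    (y v : V N) : (mfderiv 𝓘(ℝ, V N) 𝓘(ℝ, V n) (q ∘ L) y v : V n) =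
      mfderiv 𝓘(ℝ, V N) 𝓘(ℝ, V n) q (L y) (L v) := by
  have h1 : MDifferentiableAt 𝓘(ℝ, V N) 𝓘(ℝ, V n) q (L y) :=
    (hq (L y)).mdifferentiableAt (by simp)
  have h2 : MDifferentiableAt 𝓘(ℝ, V N) 𝓘(ℝ, V N) (L : V N → V N) y :=
    L.differentiableAt.mdifferentiableAt
  have h3 := mfderiv_comp_apply y h1 h2 v
  have h4 : mfderiv 𝓘(ℝ, V N) 𝓘(ℝ, V N) (L : V N → V N) y = (L : V N →L[ℝ] V N) := by
    rw [mfderiv_eq_fderiv]
    exact L.fderiv
  rw [h4] at h3
  exact h3

private theorem M2_fderiv (hs : ContDiff ℝ ∞ s) (L : V N ≃L[ℝ] V N) (y v : V N) :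
    fderiv ℝ (s ∘ L) y v = fderiv ℝ s (L y) (L v) := by
  have h1 : DifferentiableAt ℝ s (L y) := hs.differentiable (by simp) (L y)
  rw [fderiv_comp y h1 L.differentiableAt, L.fderiv]
  rfl

/-- Precomposition with a linear isomorphism. -/
theorem stableCover_comp (H : StableCover (V n) q s) (L : V N ≃L[ℝ] V N) :
    StableCover (V n) (q ∘ L) (s ∘ L) where
  cov := H.cov.comp_homeomorph L.toHomeomorph
  surj := H.surj.comp L.surjective
  smooth_q := H.smooth_q.comp L.contDiff.contMDiff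
  smooth_s := H.smooth_s.comp L.contDiff
  bij := fun y => by
    have h1 : (fun v : V N => ((mfderiv 𝓘(ℝ, V N) 𝓘(ℝ, V n) (q ∘ L) y v : V n),
        fderiv ℝ (s ∘ L) y v)) = (fun v : V N =>
        ((mfderiv 𝓘(ℝ, V N) 𝓘(ℝ, V n) q (L y) v : V n), fderiv ℝ s (L y) v)) ∘ L := by
      funext v
      exact Prod.ext (M2_mfderiv H.smooth_q L y v) (M2_fderiv H.smooth_s L y v)
    rw [h1]
    exact (H.bij (L y)).comp L.bijective

/-- The matrix of the metric `q^* g + |ds|²` in the standard coordinates. -/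
def stdM (g : Met (V n) M) (q : V N → M) (s : V N → V k) : V N → Mt N := fun y =>
  Matrix.of fun i j =>
    g.inner (q y) (mfderiv 𝓘(ℝ, V N) 𝓘(ℝ, V n) q y (bv i)) (mfderiv 𝓘(ℝ, V N) 𝓘(ℝ, V n) q y (bv j))
      + inner ℝ (fderiv ℝ s y (bv i)) (fderiv ℝ s y (bv j))

/-- `stdM` is `pullC` of the metric `st` of the covering `q ∘ Phi⁻¹, s ∘ Phi⁻¹`
(`Phi_bv`, chain rule for the linear isomorphism `Phi⁻¹`). -/
theorem stdM_eq (g : Met (V n) M) (H : StableCover (V n) q s) :
    stdM g q s = pullC (st g (q ∘ (Phi N).symm) (s ∘ (Phi N).symm)) := by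
  have key : ∀ (w : V N) (i j : Fin N), stdM g q s ((Phi N).symm w) i j =
      st g (q ∘ (Phi N).symm) (s ∘ (Phi N).symm) w (ix N i) (ix N j) := by
    intro w i j
    have hi : ∀ i : Fin N, (Phi N).symm (finBasis ℝ (V N) (ix N i)) = bv i := by
      intro i
      rw [← Phi_bv, ContinuousLinearEquiv.symm_apply_apply]
    have e1 : ∀ i : Fin N, (mfderiv 𝓘(ℝ, V N) 𝓘(ℝ, V n) (q ∘ (Phi N).symm) w
        (finBasis ℝ (V N) (ix N i)) : V n) =
        mfderiv 𝓘(ℝ, V N) 𝓘(ℝ, V n) q ((Phi N).symm w) (bv i) := by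
      intro i
      have := M2_mfderiv H.smooth_q (Phi N).symm w (finBasis ℝ (V N) (ix N i))
      rw [hi i] at this
      exact this
    have e2 : ∀ i : Fin N, fderiv ℝ (s ∘ (Phi N).symm) w (finBasis ℝ (V N) (ix N i)) =
        fderiv ℝ s ((Phi N).symm w) (bv i) := by
      intro i
      have := M2_fderiv H.smooth_s (Phi N).symm w (finBasis ℝ (V N) (ix N i))
      rw [hi i] at this
      exact this
    let G : V n → V n → ℝ := fun u v => g.inner (q ((Phi N).symm w)) u v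
    change G (mfderiv 𝓘(ℝ, V N) 𝓘(ℝ, V n) q ((Phi N).symm w) (bv i))
        (mfderiv 𝓘(ℝ, V N) 𝓘(ℝ, V n) q ((Phi N).symm w) (bv j)) +
        inner ℝ (fderiv ℝ s ((Phi N).symm w) (bv i)) (fderiv ℝ s ((Phi N).symm w) (bv j)) =
      G (mfderiv 𝓘(ℝ, V N) 𝓘(ℝ, V n) (q ∘ (Phi N).symm) w (finBasis ℝ (V N) (ix N i)))
        (mfderiv 𝓘(ℝ, V N) 𝓘(ℝ, V n) (q ∘ (Phi N).symm) w (finBasis ℝ (V N) (ix N j))) +
        inner ℝ (fderiv ℝ (s ∘ (Phi N).symm) w (finBasis ℝ (V N) (ix N i)))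
          (fderiv ℝ (s ∘ (Phi N).symm) w (finBasis ℝ (V N) (ix N j)))
    rw [e2 i, e2 j]
    exact congrArg₂ (fun a b => G a b + inner ℝ (fderiv ℝ s ((Phi N).symm w) (bv i))
      (fderiv ℝ s ((Phi N).symm w) (bv j))) (e1 i).symm (e1 j).symm
  funext y
  ext i j
  have h := key (Phi N y) i j
  rw [ContinuousLinearEquiv.symm_apply_apply] at h
  exact h

theorem isMet_stdM (g : Met (V n) M) (H : StableCover (V n) q s) : IsMet (stdM g q s) := by
  rw [stdM_eq g H]
  exact isMet_pullC (isMetric_st g (stableCover_comp H _))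

/-- `scal_Phi`, `scal_st`. -/
theorem scalS_stdM (g : Met (V n) M) (H : StableCover (V n) q s) (y : V N) :
    scalS (stdM g q s) y = Scal g (q y) := by
  rw [stdM_eq g H, ← scal_Phi, scal_st g (stableCover_comp H _), Function.comp_apply,
    ContinuousLinearEquiv.symm_apply_apply]

end Pool.Agent.Lib.MP_df705a_gt.RL
end
end

section

/-!
# RL2, M3: the group of the lifts of the integer translations
-/

open scoped Manifold ContDiff InnerProductSpace Matrix
open Module Bundle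

noncomputable section

namespace Pool.Agent.Lib.MP_df705a_gt.RL

open Pool.Agent.Lib.MP_df705a_gt.Pin Pool.Agent.Lib.MP_df705a_gt.Perm
open Pool.Agent.Lib.MP_df705a_gt.Coll (Met)

variable {N n k : ℕ} {M : Type*} [TopologicalSpace M] [ChartedSpace (V n) M]

/-- The homeomorphisms `γ` of the coordinate space with `q ∘ γ = q` and `s ∘ γ = s + a` for an integer
vector `a`: the deck transformations of the covering `ℝᴺ → M × Tᵏ`. -/
def LG (q : V N → M) (s : V N → V k) : Subgroup (V N ≃ₜ V N) where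
  carrier := {γ | (∀ y, q (γ y) = q y) ∧ ∃ a : Fin k → ℤ, ∀ y j, s (γ y) j = s y j + a j}
  mul_mem' := by
    rintro γ δ ⟨h1, a, h2⟩ ⟨h3, b, h4⟩
    refine ⟨fun y => (h1 (δ y)).trans (h3 y), fun j => a j + b j, fun y j => ?_⟩
    change s (γ (δ y)) j = _
    rw [h2, h4]
    push_cast
    ring
  one_mem' := ⟨fun y => rfl, fun _ => 0, fun y j => by
    change s y j = _
    simp⟩
  inv_mem' := by
    rintro γ ⟨h1, a, h2⟩
    refine ⟨fun y => ?_, fun j => - a j, fun y j => ?_⟩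
    · have := h1 (γ⁻¹ y)
      rw [← this]
      congr 1
      exact γ.apply_symm_apply y
    · have h3 := h2 (γ⁻¹ y) j
      have h4 : γ (γ⁻¹ y) = y := γ.apply_symm_apply y
      rw [h4] at h3
      push_cast
      linarith

variable [IsManifold 𝓘(ℝ, V n) ∞ M] {q : V N → M} {s : V N → V k}

/-- The integer vector `a` as an element of `V k`. -/
private def M3_vec (a : Fin k → ℤ) : V k := WithLp.toLp 2 fun j => (a j : ℝ)

private theorem M3_vec_apply (a : Fin k → ℤ) (j : Fin k) : M3_vec a j = (a j : ℝ) := rfl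

/-- `exists_lift`. -/
theorem exists_LG (H : StableCover (V n) q s) {x z : V N} (hq : q z = q x) (a : Fin k → ℤ)
    (hs : ∀ j, s z j = s x j + a j) : ∃ γ : LG q s, (γ : V N ≃ₜ V N) x = z := by
  obtain ⟨γ, γ', hγ, hγ', h1, h2, h3, -, h5⟩ := exists_lift H (x := x) (z := z) (a := M3_vec a) hq
    (by
      ext j
      rw [PiLp.add_apply, M3_vec_apply]
      exact hs j)
  refine ⟨⟨⟨⟨γ, γ', h2, h1⟩, hγ, hγ'⟩, fun y => (h3 y).1, a, fun y j => ?_⟩, h5⟩
  change s (γ y) j = _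
  rw [(h3 y).2, PiLp.add_apply, M3_vec_apply]

/-- Uniqueness of lifts: if `γ x = δ x` then the integer vectors agree and `γ`, `δ` are lifts of the
same map, `IsCoveringMap.eq_of_comp_eq`. -/
theorem LG_ext (H : StableCover (V n) q s) {γ δ : LG q s} {x : V N}
    (h : (γ : V N ≃ₜ V N) x = (δ : V N ≃ₜ V N) x) : γ = δ := by
  obtain ⟨γ, h1, a, h2⟩ := γ
  obtain ⟨δ, h3, b, h4⟩ := δ
  have h' : γ x = δ x := h
  have hab : ∀ j, (a j : ℝ) = b j := fun j => by
    have h5 := h2 x j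
    rw [h', h4 x j] at h5
    exact (add_left_cancel h5).symm
  refine Subtype.ext (Homeomorph.ext fun y => ?_)
  refine congrFun (H.cov.eq_of_comp_eq γ.continuous δ.continuous ?_ x h') y
  funext w
  refine Prod.ext ((h1 w).trans (h3 w).symm) ?_
  ext j
  exact (h2 w j).trans ((congrArg (s w j + ·) (hab j)).trans (h4 w j).symm)

/-- `contDiff_lift`. -/
theorem LG_smooth (H : StableCover (V n) q s) (γ : LG q s) :
    ContDiff ℝ ∞ ((γ : V N ≃ₜ V N) : V N → V N) := by
  obtain ⟨γ, h1, a, h2⟩ := γ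
  refine contDiff_lift H γ.continuous (a := M3_vec a) fun w => ⟨h1 w, ?_⟩
  ext j
  rw [PiLp.add_apply, M3_vec_apply]
  exact h2 w j

/-- `γ` is determined by `γ 0` (`LG_ext`), which is in the preimage of the point `q 0` and the
integer translates of `s 0` under `(q, s)`: a closed discrete subset of the second countable space
`V N` (fibres of coverings are discrete, `ℤᵏ` is discrete), hence countable. Or: the fibre of
`(q, s)` over each of the countably many points `(q 0, s 0 + a)` is discrete, so countable. -/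
theorem countable_LG (H : StableCover (V n) q s) : Countable (LG q s) := by
  have hc : (⋃ a : Fin k → ℤ, (fun y => (q y, s y)) ⁻¹' {(q 0, s 0 + M3_vec a)}).Countable :=
    Set.countable_iUnion fun a => (HereditarilyLindelofSpace.isLindelof _).countable
      (H.cov _).discreteTopology_fiber
  have hm : ∀ γ : LG q s, (γ : V N ≃ₜ V N) 0 ∈
      ⋃ a : Fin k → ℤ, (fun y => (q y, s y)) ⁻¹' {(q 0, s 0 + M3_vec a)} := by
    rintro ⟨γ, h1, a, h2⟩
    refine Set.mem_iUnion.mpr ⟨a, Prod.ext (h1 0) ?_⟩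
    ext j
    exact h2 0 j
  have := hc.to_subtype
  exact Function.Injective.countable (f := fun γ : LG q s =>
    (⟨(γ : V N ≃ₜ V N) 0, hm γ⟩ : ↥(⋃ a : Fin k → ℤ,
      (fun y => (q y, s y)) ⁻¹' {(q 0, s 0 + M3_vec a)})))
    fun γ δ h => LG_ext H (congrArg Subtype.val h)

/-- The action of the lifts. -/
def LGact (H : StableCover (V n) q s) : Act (LG q s) N where
  act γ y := (γ : V N ≃ₜ V N) y
  one _ := rfl
  mul _ _ _ := rfl
  smooth γ := LG_smooth H γ

/-- The pull-back of a bilinear form under a linear map, in matrices. -/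
private theorem M3_conj (B : V N →ₗ[ℝ] V N →ₗ[ℝ] ℝ) (A : V N →L[ℝ] V N) (i j : Fin N) :
    ((Matrix.of fun ν μ => (A (bv μ)) ν)ᵀ * (Matrix.of fun i j => B (bv i) (bv j)) *
      (Matrix.of fun ν μ => (A (bv μ)) ν : Mt N)) i j = B (A (bv i)) (A (bv j)) := by
  have hA : ∀ v : V N, v = ∑ ν, v ν • bv ν := fun v => by
    ext l
    simp [bv, Pi.single_apply]
  conv_rhs => rw [hA (A (bv i)), hA (A (bv j))]
  simp only [map_sum, map_smul, LinearMap.sum_apply, LinearMap.smul_apply, smul_eq_mul,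
    Matrix.mul_apply, Matrix.transpose_apply, Matrix.of_apply, Finset.sum_mul, Finset.mul_sum]
  refine Finset.sum_congr rfl fun μ _ => Finset.sum_congr rfl fun ν _ => ?_
  ring

/-- Lifts are isometries: `ip_lift` and polarization, or directly the chain rule for `q ∘ γ = q` and
`s ∘ γ = s + a` as in the proof of `ip_lift`. -/
theorem isom_LG (g : Met (V n) M) (H : StableCover (V n) q s) (γ : LG q s) (y : V N) :
    (jac ((LGact H).act γ) y)ᵀ * stdM g q s ((LGact H).act γ y) * jac ((LGact H).act γ) y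
      = stdM g q s y := by
  obtain ⟨γ, hγ1, a, hγ2⟩ := γ
  have hγs := LG_smooth H ⟨γ, hγ1, a, hγ2⟩
  change (jac γ y)ᵀ * stdM g q s (γ y) * jac γ y = stdM g q s y
  change ContDiff ℝ ∞ (γ : V N → V N) at hγs
  have key : ∀ (x y : M), x = y → ∀ (u v : V n),
      g.inner x (show TangentSpace 𝓘(ℝ, V n) x from u) (show TangentSpace 𝓘(ℝ, V n) x from v) =
      g.inner y (show TangentSpace 𝓘(ℝ, V n) y from u)
        (show TangentSpace 𝓘(ℝ, V n) y from v) := by
    rintro x _ rfl u v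
    rfl
  have key2 : ∀ (f f' : V N → M), f = f' → ∀ v : V N,
      (mfderiv 𝓘(ℝ, V N) 𝓘(ℝ, V n) f y v : V n) = (mfderiv 𝓘(ℝ, V N) 𝓘(ℝ, V n) f' y v : V n) := by
    rintro f _ rfl v
    rfl
  have hqc : q ∘ γ = q := funext hγ1
  have hsc : s ∘ γ = fun w => s w + M3_vec a := by
    funext w
    ext j
    exact hγ2 w j
  have hγd : DifferentiableAt ℝ γ y := (hγs.differentiable (by simp)) y
  have h1 : ∀ v, (mfderiv 𝓘(ℝ, V N) 𝓘(ℝ, V n) q (γ y) (fderiv ℝ γ y v) : V n) =
      (mfderiv 𝓘(ℝ, V N) 𝓘(ℝ, V n) q y v : V n) := by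
    intro v
    have h2 := mfderiv_comp (I := 𝓘(ℝ, V N)) (I' := 𝓘(ℝ, V N)) (I'' := 𝓘(ℝ, V n)) y
      ((H.smooth_q.mdifferentiable (by simp)) (γ y)) hγd.mdifferentiableAt
    have h3 := key2 _ _ hqc v
    rw [h2, mfderiv_eq_fderiv] at h3
    exact h3
  have h4 : ∀ v, fderiv ℝ s (γ y) (fderiv ℝ γ y v) = fderiv ℝ s y v := by
    intro v
    have h5 := fderiv_comp y ((H.smooth_s.differentiable (by simp)) (γ y)) hγd
    rw [hsc, fderiv_add_const] at h5
    rw [h5]
    rfl
  let G : V n →L[ℝ] V n →L[ℝ] ℝ := g.inner (q (γ y))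
  let P : V N →L[ℝ] V n := mfderiv 𝓘(ℝ, V N) 𝓘(ℝ, V n) q (γ y)
  let D : V N →L[ℝ] V k := fderiv ℝ s (γ y)
  let B : V N →ₗ[ℝ] V N →ₗ[ℝ] ℝ := LinearMap.mk₂ ℝ
    (fun u v => G (P u) (P v) + inner ℝ (D u) (D v))
    (fun u v w => by
      simp only [map_add, _root_.add_apply, inner_add_left]
      ring)
    (fun c u v => by
      simp only [map_smul, _root_.smul_apply, inner_smul_left, smul_eq_mul,
        conj_trivial]
      ring)
    (fun u v w => by
      simp only [map_add, inner_add_right]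
      ring)
    (fun c u v => by
      simp only [map_smul, inner_smul_right, smul_eq_mul]
      ring)
  ext i j
  refine (M3_conj B (fderiv ℝ γ y) i j).trans ?_
  change G (P (fderiv ℝ γ y (bv i))) (P (fderiv ℝ γ y (bv j))) +
    inner ℝ (D (fderiv ℝ γ y (bv i))) (D (fderiv ℝ γ y (bv j))) = _
  refine congrArg₂ (· + ·) ?_ (congrArg₂ (inner ℝ) (h4 _) (h4 _))
  exact (key _ _ (hγ1 y) _ _).trans (congrArg₂ (fun u v : V n =>
    g.inner (q y) (show TangentSpace 𝓘(ℝ, V n) (q y) from u)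
      (show TangentSpace 𝓘(ℝ, V n) (q y) from v)) (h1 _) (h1 _))

/-- `F` is a bounded Borel set which is mapped bijectively to `M × [0, 1)ᵏ` by `(q, s)`: a
fundamental domain of the covering `ℝᴺ → M × Tᵏ`. -/
structure FundSet (q : V N → M) (s : V N → V k) (F : Set (V N)) : Prop where
  meas : MeasurableSet F
  bdd : Bornology.IsBounded F
  cube : ∀ y ∈ F, ∀ j, 0 ≤ s y j ∧ s y j < 1
  bij : ∀ (p : M) (b : V k), (∀ j, 0 ≤ b j ∧ b j < 1) → ∃! y, y ∈ F ∧ q y = p ∧ s y = b

/-- For `y` put `a j = - ⌊s y j⌋`, `b = s y + a`, `z ∈ F` the point over `(q y, b)` and `γ` with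
`γ y = z` (`exists_LG`). Uniqueness: if `γ y, δ y ∈ F` then `s (γ y)`, `s (δ y)` are in the cube and
differ by integers, so they are equal, `γ y = δ y` by `bij`, and `γ = δ` by `LG_ext`. -/
theorem fund_LG (H : StableCover (V n) q s) {F : Set (V N)} (hF : FundSet q s F) :
    (LGact H).Fund F := by
  refine ⟨hF.meas, hF.bdd, fun y => ?_⟩
  let b : V k := WithLp.toLp 2 fun j => Int.fract (s y j)
  have hb : ∀ j, b j = Int.fract (s y j) := fun j => rfl
  obtain ⟨z, ⟨hzF, hzq, hzs⟩, hz⟩ := hF.bij (q y) b fun j => by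
    rw [hb]
    exact ⟨Int.fract_nonneg _, Int.fract_lt_one _⟩
  obtain ⟨γ, hγ⟩ := exists_LG H (x := y) (z := z) hzq (fun j => -⌊s y j⌋) fun j => by
    rw [hzs, hb, Int.fract]
    push_cast
    ring
  refine ⟨γ, ?_, fun δ hδ => ?_⟩
  · change (γ : V N ≃ₜ V N) y ∈ F
    rwa [hγ]
  · change (δ : V N ≃ₜ V N) y ∈ F at hδ
    refine LG_ext H (x := y) ?_
    rw [hγ]
    refine hz _ ⟨hδ, δ.2.1 y, ?_⟩
    obtain ⟨a, ha⟩ := δ.2.2
    ext j
    rw [hb]
    obtain ⟨h0, h1⟩ := hF.cube _ hδ j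
    rw [ha y j] at h0 h1 ⊢
    symm
    rw [Int.fract_eq_iff]
    exact ⟨h0, h1, -a j, by push_cast; ring⟩

end Pool.Agent.Lib.MP_df705a_gt.RL
end
end

section

/-!
# RL2, M4: cutoff functions, the lower bound of the scalar curvature, the data on `ℝᴺ`
-/

open scoped Manifold ContDiff InnerProductSpace Matrix
open Module Bundle

noncomputable section

namespace Pool.Agent.Lib.MP_df705a_gt.RL

open Pool.Agent.Lib.MP_df705a_gt.Pin Pool.Agent.Lib.MP_df705a_gt.Perm
open Pool.Agent.Lib.MP_df705a_gt.Twist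
open Pool.Agent.Lib.MP_df705a_gt.Coll (Met)

variable {N n k : ℕ} {M : Type*} [TopologicalSpace M] [ChartedSpace (V n) M]
  [IsManifold 𝓘(ℝ, V n) ∞ M] {q : V N → M} {s : V N → V k}

/-- `hi` is the inverse matrix of `h`. -/
theorem Geo.hi_eq_inv (g : Geo N) (y : V N) : g.hi y = (g.h y)⁻¹ := by
  have h1 : g.hi y * g.h y = 1 := by
    unfold Geo.hi Geo.h
    have h2 : (g.e y)ᵀ * (g.θ y)ᵀ = 1 := by
      rw [← Matrix.transpose_mul, g.θe, Matrix.transpose_one]
    rw [Matrix.mul_assoc, ← Matrix.mul_assoc ((g.e y)ᵀ), h2, Matrix.one_mul, g.eθ]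
  exact (Matrix.inv_eq_left_inv h1).symm

/-- Cutoff functions for a proper metric. Proof: let `h' = st g (q ∘ Phi⁻¹) (s ∘ Phi⁻¹)`, a metric
(`isMetric_st`), proper (`exists_coCpt`, `proper_of_coCpt`). Let `c` be the constant of
`exists_cutoff_grad (V N)`. Given `n₀`, let `R` be so large that `c / R ≤ 1 / (n₀ + 1)` and that
`dh h' 0 (Phi y) ≤ 2 R` for `‖y‖ ≤ n₀` (compactness, `continuous_dh`). Apply `exists_cutoff_grad` to
the metric `sca (1/R²) h'` (`SScale`: it is a metric, proper, `dh (sca a h) = √a dh h`,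
`gradC (sca a h) = a⁻¹ gradC h`) at `p = 0`: `ψ = 1` where `dh h' 0 x ≤ 2 R`, `ψ = 0` where
`dh h' 0 x ≥ 4 R` (so the support is compact, `Proper`), `gradC h' ψ ψ ≤ c² / R²`. Put
`χ = ψ ∘ Phi`; by `cpd_Phi`, `inv_pullC`, `stdM_eq`, `hi_eq_inv`, `hi = e eᵀ`:
`∑_a (∑_μ e_a^μ ∂_μ χ)² = ∑ h^{μν} ∂_μ χ ∂_ν χ = gradC h' ψ ψ (Phi y)`. -/
theorem cutoffs_std [CompactSpace M] (g : Met (V n) M) (H : StableCover (V n) q s) (G : Geo N)
    (hG : ∀ y, G.h y = stdM g q s y) : Cutoffs G := by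
  set h' := st g (q ∘ (Phi N).symm) (s ∘ (Phi N).symm) with hh'
  have H' := stableCover_comp H (Phi N).symm
  have hm : Curv.IsMetric h' := isMetric_st g H'
  have hp : Proper h' := by
    obtain ⟨K, G1, G2, hc⟩ := exists_coCpt g H'
    exact proper_of_coCpt hm hc
  obtain ⟨c, hc, hcut⟩ := exists_cutoff_grad (V N)
  intro n₀
  have hcont : Continuous fun y : V N => dh h' 0 (Phi N y) :=
    (continuous_dh hm).comp (continuous_const.prodMk (Phi N).continuous)
  obtain ⟨B, hB⟩ := (isCompact_closedBall (0 : V N) n₀).exists_bound_of_continuousOn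
    hcont.continuousOn
  obtain ⟨R, hR⟩ : ∃ R : ℝ, R = max 1 (max (c * (n₀ + 1)) (B / 2)) := ⟨_, rfl⟩
  have hR1 : 1 ≤ R := hR ▸ le_max_left _ _
  have hR2 : c * (n₀ + 1) ≤ R := hR ▸ (le_max_left _ _).trans (le_max_right _ _)
  have hR3 : B / 2 ≤ R := hR ▸ (le_max_right _ _).trans (le_max_right _ _)
  have hR0 : 0 < R := by linarith
  have ha : 0 < 1 / R ^ 2 := by positivity
  have hsq : √ (1 / R ^ 2) = 1 / R := by
    rw [Real.sqrt_div zero_le_one, Real.sqrt_one, Real.sqrt_sq hR0.le]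
  obtain ⟨ψ, hψ, hψ0, hψ1, hψ2, hψ3, hψ4⟩ := hcut (sca (1 / R ^ 2) h') (isMetric_sca hm ha)
    (proper_sca hp ha) 0
  have hd : ∀ x, dh (sca (1 / R ^ 2) h') 0 x = dh h' 0 x / R := by
    intro x
    rw [dh_sca ha, hsq]
    ring
  refine ⟨fun y => ψ (Phi N y), hψ.comp (Phi N).contDiff, ?_, fun y => hψ0 _, fun y => hψ1 _, ?_, ?_⟩
  · refine HasCompactSupport.intro
      (((proper_sca hp ha) 0 4).image (Phi N).symm.continuous) fun y hy => ?_
    apply hψ3
    by_contra hcon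
    rw [not_le] at hcon
    exact hy ⟨Phi N y, hcon.le, (Phi N).symm_apply_apply y⟩
  · intro y hy
    apply hψ2
    rw [hd, div_le_iff₀ hR0]
    have h1 := hB y (by rw [mem_closedBall_zero_iff]; exact hy)
    have h2 := (le_abs_self _).trans h1
    linarith
  · intro y
    have h1 : ∑ a, (∑ μ, G.e y μ a * pd μ (fun y => ψ (Phi N y)) y) ^ 2 =
        gradC h' ψ ψ (Phi N y) := by
      unfold gradC
      rw [← (ix N).sum_comp]
      have h2 : ∀ i j : Fin N, (h' (Phi N y))⁻¹ (ix N i) (ix N j) = ∑ a, G.e y i a * G.e y j a := by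
        intro i j
        rw [← inv_pullC, ← stdM_eq g H, ← hG, ← Geo.hi_eq_inv, Geo.hi_apply]
      have h3 : ∀ i : Fin N, (∑ j, (h' (Phi N y))⁻¹ (ix N i) j *
          (Curv.pd (ix N i) ψ (Phi N y) * Curv.pd j ψ (Phi N y))) =
          ∑ j, ∑ a, (G.e y i a * pd i (fun y => ψ (Phi N y)) y) *
            (G.e y j a * pd j (fun y => ψ (Phi N y)) y) := by
        intro i
        rw [← (ix N).sum_comp]
        refine Finset.sum_congr rfl fun j _ => ?_
        rw [h2, cpd_Phi, cpd_Phi, Finset.sum_mul]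
        refine Finset.sum_congr rfl fun a _ => ?_
        ring
      rw [Finset.sum_congr rfl fun i _ => h3 i]
      rw [Finset.sum_congr rfl fun i _ => Finset.sum_comm, Finset.sum_comm]
      refine Finset.sum_congr rfl fun a _ => ?_
      rw [sq, Finset.sum_mul_sum]
    rw [h1]
    have h2 := hψ4 (Phi N y)
    rw [gradC_sca ha, div_le_iff₀ ha] at h2
    refine h2.trans ?_
    have h3 : c ^ 2 * (1 / R ^ 2) = (c / R) ^ 2 := by
      field_simp
    rw [h3]
    apply pow_le_pow_left₀ (by positivity)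
    rw [div_le_div_iff₀ hR0 (by positivity)]
    linarith

/-- `Scal g (q y) = scalS (stdM g q s) y` is a continuous positive function of `y`
(`scalS_stdM`, `contDiff_scal` for `G`), its value depends only on `q y`, and there is a compact set
`K` with `q(K) = M` (`exists_compact_cover`), so it has a positive minimum. -/
theorem scal_lower [CompactSpace M] (g : Met (V n) M) (hg : PosScal g)
    (H : StableCover (V n) q s) (G : Geo N) (hG : ∀ y, G.scal y = scalS (stdM g q s) y) :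
    ∃ σ : ℝ, 0 < σ ∧ ∀ y, 4 * σ ≤ G.scal y := by
  obtain ⟨K, hK, hKq⟩ := exists_compact_cover H
  have hs : ∀ y, G.scal y = Scal g (q y) := fun y => (hG y).trans (scalS_stdM g H y)
  obtain ⟨x₁, hx₁, -, -⟩ := hKq (q 0)
  obtain ⟨x₀, hx₀, hmin⟩ := hK.exists_isMinOn ⟨x₁, hx₁⟩ G.contDiff_scal.continuous.continuousOn
  have hpos : 0 < G.scal x₀ := by
    rw [hs]
    exact hg (q x₀) _ (mem_extChartAt_target _)
  refine ⟨G.scal x₀ / 4, by positivity, fun y => ?_⟩
  obtain ⟨x, hx, hqx, -⟩ := hKq (q y)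
  have h1 : G.scal x₀ ≤ G.scal x := hmin hx
  have h2 : G.scal x = G.scal y := by rw [hs, hs, hqx]
  linarith

/-- The data on `ℝᴺ`. -/
theorem manifold_end [CompactSpace M] (hN : ExistsGeo N) (g : Met (V n) M) (hg : PosScal g)
    (H : StableCover (V n) q s)
    (ori : ∀ (γ : LG q s) (y : V N), 0 < (jac ((LGact H).act γ) y).det) :
    ∃ G : Geo N, (LGact H).Iso G ∧ Cutoffs G ∧ ∃ σ : ℝ, 0 < σ ∧ ∀ y, 4 * σ ≤ G.scal y := by
  obtain ⟨G, h1, h2⟩ := hN _ (isMet_stdM g H)
  refine ⟨G, ⟨fun γ y => ?_, ori⟩, cutoffs_std g H G h1, scal_lower g hg H G h2⟩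
  rw [h1, h1]
  exact isom_LG g H γ y

end Pool.Agent.Lib.MP_df705a_gt.RL
end
end

section

/-!
# RL2, M5: the spectral hypothesis on the manifold
-/

open scoped Manifold ContDiff InnerProductSpace Matrix
open Module Bundle MeasureTheory

noncomputable section

namespace Pool.Agent.Lib.MP_df705a_gt.RL

open Pool.Agent.Lib.MP_df705a_gt.Pin Pool.Agent.Lib.MP_df705a_gt.Perm
open Pool.Agent.Lib.MP_df705a_gt.Twist
open Pool.Agent.Lib.MP_df705a_gt.Coll (Met)

variable {N n k m : ℕ} {M : Type*} [TopologicalSpace M] [ChartedSpace (V n) M]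
  [IsManifold 𝓘(ℝ, V n) ∞ M]

/-- `-κΔ + scal ≥ σ` for the metric with the matrix `h`, on the smooth functions with compact
support. -/
def SpecM (h : V N → Mt N) (κ σ : ℝ) : Prop :=
  ∀ u : V N → ℝ, ContDiff ℝ ∞ u → HasCompactSupport u →
    σ * ∫ y, u y ^ 2 * √(h y).det ≤
      ∫ y, (κ * ∑ i, ∑ j, (h y)⁻¹ i j * (pd i u y * pd j u y) + scalS h y * u y ^ 2) *
        √(h y).det

/-- The same for a metric in the coordinates of `finBasis`. -/
def SpecC (h : Curv.Coeff (V N)) (κ σ : ℝ) : Prop :=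
  ∀ u : V N → ℝ, ContDiff ℝ ∞ u → HasCompactSupport u →
    σ * ∫ y, u y ^ 2 * √(h y).det ≤
      ∫ y, (κ * ∑ i, ∑ j, (h y)⁻¹ i j * (Curv.pd i u y * Curv.pd j u y)
        + Curv.scal h y * u y ^ 2) * √(h y).det

theorem Geo.sqrt_det (G : Geo N) (y : V N) : √(G.h y).det = (G.θ y).det := by
  unfold Geo.h
  rw [Matrix.det_mul, Matrix.det_transpose, Real.sqrt_mul_self (G.det_pos y).le]

theorem Geo.grad_eq (G : Geo N) (u : V N → ℝ) (y : V N) :
    ∑ a, (∑ μ, G.e y μ a * pd μ u y) ^ 2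
      = ∑ i, ∑ j, (G.h y)⁻¹ i j * (pd i u y * pd j u y) := by
  have h2 : ∀ i j : Fin N, (G.h y)⁻¹ i j = ∑ a, G.e y i a * G.e y j a := by
    intro i j
    rw [← Geo.hi_eq_inv, Geo.hi_apply]
  have h3 : ∀ i j : Fin N, (G.h y)⁻¹ i j * (pd i u y * pd j u y)
      = ∑ a, (G.e y i a * pd i u y) * (G.e y j a * pd j u y) := by
    intro i j
    rw [h2, Finset.sum_mul]
    exact Finset.sum_congr rfl fun a _ => by ring
  rw [Finset.sum_congr rfl fun i _ => Finset.sum_congr rfl fun j _ => h3 i j,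
    Finset.sum_congr rfl fun i _ => Finset.sum_comm, Finset.sum_comm]
  refine Finset.sum_congr rfl fun a _ => ?_
  rw [sq, Finset.sum_mul_sum]

/-- The spectral hypothesis for the `Geo`. -/
theorem specGe_of_specM {h : V N → Mt N} {κ σ : ℝ} (H : SpecM h κ σ) (G : Geo N)
    (hG : ∀ y, G.h y = h y) (hs : ∀ y, G.scal y = scalS h y) : G.SpecGe κ σ := by
  intro u hu hc
  have h0 := H u hu hc
  have hd : ∀ y, √(h y).det = (G.θ y).det := fun y => by rw [← hG, G.sqrt_det]
  rw [G.integral_vol, G.integral_vol]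
  have e1 : ∀ y, (G.θ y).det • u y ^ 2 = u y ^ 2 * √(h y).det := fun y => by
    rw [hd, smul_eq_mul, mul_comm]
  have e2 : ∀ y, (G.θ y).det • (κ * ∑ a, (∑ μ, G.e y μ a * pd μ u y) ^ 2 + G.scal y * u y ^ 2)
      = (κ * ∑ i, ∑ j, (h y)⁻¹ i j * (pd i u y * pd j u y) + scalS h y * u y ^ 2) *
        √(h y).det := fun y => by
    rw [hd, smul_eq_mul, mul_comm, G.grad_eq, hG, hs]
  rw [integral_congr_ae (Filter.Eventually.of_forall e1),
    integral_congr_ae (Filter.Eventually.of_forall e2)]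
  exact h0

/-- The matrix of `Phi`. -/
def PhiM (N : ℕ) : Mt N := Matrix.of fun i j => (Phi N (bv j)) i

theorem Phi_sum (j : Fin N) : Phi N (bv j) = ∑ i, PhiM N i j • bv i := by
  ext l
  simp [PhiM, bv, Finset.sum_apply, Pi.single_apply]

theorem pd_sum (u : V N → ℝ) (j : Fin N) (y : V N) :
    Curv.pd (ix N j) u y = ∑ i, PhiM N i j * pd i u y := by
  rw [Curv.pd, ← Phi_bv, Phi_sum, map_sum]
  refine Finset.sum_congr rfl fun i _ => ?_
  rw [map_smul, smul_eq_mul]
  rfl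

variable {q : V N → M} {s : V N → V k}

theorem bilin_expand (B : V N →ₗ[ℝ] V N →ₗ[ℝ] ℝ) (a b : Fin N → ℝ) :
    B (∑ p, a p • bv p) (∑ l, b l • bv l) = ∑ l, (∑ p, a p * B (bv p) (bv l)) * b l := by
  rw [map_sum]
  refine Finset.sum_congr rfl fun l _ => ?_
  rw [map_smul, map_sum, LinearMap.sum_apply, smul_eq_mul, mul_comm]
  congr 1
  refine Finset.sum_congr rfl fun p _ => ?_
  rw [map_smul, LinearMap.smul_apply, smul_eq_mul]

/-- A bilinear form. -/
def BF0 (gi : V n →L[ℝ] V n →L[ℝ] ℝ) (dq : V N →L[ℝ] V n) (ds : V N →L[ℝ] V k) :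
    V N →ₗ[ℝ] V N →ₗ[ℝ] ℝ :=
  LinearMap.mk₂ ℝ (fun u v => gi (dq u) (dq v) + inner ℝ (ds u) (ds v))
    (fun u u' v => by
      rw [map_add, map_add, map_add, inner_add_left, add_apply]
      ring)
    (fun c u v => by
      rw [map_smul, map_smul, map_smul, real_inner_smul_left, smul_apply, smul_eq_mul,
        smul_eq_mul]
      ring)
    (fun u v v' => by
      rw [map_add, map_add, map_add, inner_add_right]
      ring)
    (fun c u v => by
      rw [map_smul, map_smul, map_smul, real_inner_smul_right, smul_eq_mul, smul_eq_mul]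
      ring)

/-- The metric as a bilinear form. -/
def BF (g : Met (V n) M) (q : V N → M) (s : V N → V k) (y : V N) : V N →ₗ[ℝ] V N →ₗ[ℝ] ℝ :=
  BF0 (g.inner (q y)) (mfderiv 𝓘(ℝ, V N) 𝓘(ℝ, V n) q y) (fderiv ℝ s y)

/-- The two matrices of the metric. -/
theorem st_eq_mul (g : Met (V n) M) (q : V N → M) (s : V N → V k) (y : V N) :
    (st g q s y).submatrix (ix N) (ix N) = (PhiM N)ᵀ * stdM g q s y * PhiM N := by
  ext i j
  rw [Matrix.submatrix_apply, Matrix.mul_apply]
  have h1 : st g q s y (ix N i) (ix N j) = BF g q s y (Phi N (bv i)) (Phi N (bv j)) := by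
    rw [Phi_bv, Phi_bv]
    rfl
  have h2 : ∀ l, ((PhiM N)ᵀ * stdM g q s y) i l = ∑ p, PhiM N p i * BF g q s y (bv p) (bv l) := by
    intro l
    rw [Matrix.mul_apply]
    rfl
  rw [h1, Phi_sum, Phi_sum, bilin_expand]
  exact Finset.sum_congr rfl fun l _ => by rw [h2]

theorem det_PhiM_ne (N : ℕ) : (PhiM N).det ≠ 0 := by
  have h : PhiM N * (Matrix.of fun i j => ((Phi N).symm (bv j)) i) = 1 := by
    ext i j
    rw [Matrix.mul_apply]
    have h1 : Phi N ((Phi N).symm (bv j)) = bv j := (Phi N).apply_symm_apply _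
    have h2 : (Phi N).symm (bv j) = ∑ l, ((Phi N).symm (bv j)) l • bv l := by
      ext r
      simp [bv, Finset.sum_apply, Pi.single_apply]
    have h3 := congrArg (fun v : V N => v i) h1
    rw [h2, map_sum] at h3
    simp only [map_smul] at h3
    have h4 : (∑ l, ((Phi N).symm (bv j)) l • Phi N (bv l)) i
        = ∑ l, PhiM N i l * ((Phi N).symm (bv j)) l := by
      simp [PhiM, Finset.sum_apply, mul_comm]
    have h5 : (bv j : V N) i = (1 : Mt N) i j := by
      simp [bv, Matrix.one_apply, Pi.single_apply]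
    rw [h4] at h3
    rw [← h5, ← h3]
    rfl
  intro h0
  have := congrArg Matrix.det h
  rw [Matrix.det_mul, h0, zero_mul, Matrix.det_one] at this
  exact zero_ne_one this

/-- The determinants. -/
theorem det_st (g : Met (V n) M) (q : V N → M) (s : V N → V k) (y : V N) :
    √(st g q s y).det = |(PhiM N).det| * √(stdM g q s y).det := by
  have h := congrArg Matrix.det (st_eq_mul g q s y)
  rw [Matrix.det_submatrix_equiv_self, Matrix.det_mul, Matrix.det_mul, Matrix.det_transpose] at h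
  have h1 : (st g q s y).det = (PhiM N).det ^ 2 * (stdM g q s y).det := by
    rw [h]
    ring
  rw [h1, Real.sqrt_mul (sq_nonneg _), Real.sqrt_sq_eq_abs]

/-- The gradients. -/
theorem grad_st (g : Met (V n) M) (q : V N → M) (s : V N → V k) (u : V N → ℝ) (y : V N) :
    ∑ i, ∑ j, (st g q s y)⁻¹ i j * (Curv.pd i u y * Curv.pd j u y)
      = ∑ i, ∑ j, (stdM g q s y)⁻¹ i j * (pd i u y * pd j u y) := by
  set S := stdM g q s y with hS
  set P := PhiM N with hP
  have hPd : IsUnit P.det := (det_PhiM_ne N).isUnit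
  have h1 : ((st g q s y)⁻¹).submatrix (ix N) (ix N) = P⁻¹ * S⁻¹ * (Pᵀ)⁻¹ := by
    rw [← Matrix.inv_submatrix_equiv, st_eq_mul, ← hS, ← hP, Matrix.mul_inv_rev,
      Matrix.mul_inv_rev, Matrix.mul_assoc]
  set v : Fin N → ℝ := fun i => pd i u y with hv
  have h2 : ∀ i, Curv.pd (ix N i) u y = (Pᵀ.mulVec v) i := by
    intro i
    rw [pd_sum]
    rfl
  have h3 : ∑ i, ∑ j, (st g q s y)⁻¹ i j * (Curv.pd i u y * Curv.pd j u y)
      = (Pᵀ.mulVec v) ⬝ᵥ ((P⁻¹ * S⁻¹ * (Pᵀ)⁻¹).mulVec (Pᵀ.mulVec v)) := by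
    rw [← (ix N).sum_comp]
    simp only [dotProduct, Matrix.mulVec]
    refine Finset.sum_congr rfl fun i _ => ?_
    rw [← (ix N).sum_comp, Finset.mul_sum]
    refine Finset.sum_congr rfl fun j _ => ?_
    rw [h2, h2, ← h1, Matrix.submatrix_apply]
    simp only [dotProduct, Matrix.mulVec]
    ring
  have h4 : ∑ i, ∑ j, S⁻¹ i j * (pd i u y * pd j u y) = v ⬝ᵥ (S⁻¹.mulVec v) := by
    simp only [dotProduct, Matrix.mulVec, hv]
    refine Finset.sum_congr rfl fun i _ => ?_
    rw [Finset.mul_sum]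
    exact Finset.sum_congr rfl fun j _ => by ring
  have hPt : IsUnit Pᵀ.det := by rwa [Matrix.det_transpose]
  rw [h3, h4, Matrix.mulVec_mulVec, Matrix.mul_assoc, Matrix.nonsing_inv_mul _ hPt, Matrix.mul_one,
    ← Matrix.mulVec_mulVec, Matrix.dotProduct_mulVec, Matrix.mulVec_transpose,
    Matrix.vecMul_vecMul, Matrix.mul_nonsing_inv _ hPd, Matrix.vecMul_one]

/-- The spectral hypothesis in the standard coordinates. -/
theorem specM_of_specC (g : Met (V n) M) (H : StableCover (V n) q s) {κ σ : ℝ}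
    (h : SpecC (st g q s) κ σ) : SpecM (stdM g q s) κ σ := by
  intro u hu hc
  have h0 := h u hu hc
  have hP : 0 < |(PhiM N).det| := abs_pos.2 (det_PhiM_ne N)
  have hsc : ∀ y, Curv.scal (st g q s) y = scalS (stdM g q s) y := fun y =>
    (scal_st g H y).trans (scalS_stdM g H y).symm
  have e1 : ∀ y, u y ^ 2 * √(st g q s y).det = |(PhiM N).det| * (u y ^ 2 * √(stdM g q s y).det) :=
    fun y => by
      rw [det_st]
      ring
  have e2 : ∀ y, (κ * ∑ i, ∑ j, (st g q s y)⁻¹ i j * (Curv.pd i u y * Curv.pd j u y)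
        + Curv.scal (st g q s) y * u y ^ 2) * √(st g q s y).det
      = |(PhiM N).det| * ((κ * ∑ i, ∑ j, (stdM g q s y)⁻¹ i j * (pd i u y * pd j u y)
        + scalS (stdM g q s) y * u y ^ 2) * √(stdM g q s y).det) := fun y => by
    rw [det_st, grad_st, hsc]
    ring
  rw [integral_congr_ae (Filter.Eventually.of_forall e1),
    integral_congr_ae (Filter.Eventually.of_forall e2), integral_const_mul,
    integral_const_mul] at h0
  have h1 : |(PhiM N).det| * (σ * ∫ y, u y ^ 2 * √(stdM g q s y).det) ≤ |(PhiM N).det| *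
      ∫ y, (κ * ∑ i, ∑ j, (stdM g q s y)⁻¹ i j * (pd i u y * pd j u y)
        + scalS (stdM g q s) y * u y ^ 2) * √(stdM g q s y).det := by
    refine le_trans (le_of_eq ?_) h0
    ring
  exact le_of_mul_le_mul_left h1 hP

end Pool.Agent.Lib.MP_df705a_gt.RL
end
end

section

/-!
# RL2, M6: the inequality of Lichnerowicz on the covering of a closed manifold
-/

open scoped Manifold ContDiff InnerProductSpace Matrix
open Module Bundle MeasureTheory

noncomputable section

namespace Pool.Agent.Lib.MP_df705a_gt.RL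

open Pool.Agent.Lib.MP_df705a_gt.Pin Pool.Agent.Lib.MP_df705a_gt.Perm
open Pool.Agent.Lib.MP_df705a_gt.Twist
open Pool.Agent.Lib.MP_df705a_gt.Coll (Met)

variable {N n k m : ℕ} {M : Type*} [TopologicalSpace M] [ChartedSpace (V n) M]
  [IsManifold 𝓘(ℝ, V n) ∞ M]

/-- The inequality of Lichnerowicz holds on the covering. -/
def LichG (g : Met (V n) M) (q : V (2 * m) → M) (s : V (2 * m) → V k) : Prop :=
  ∀ G : Geo (2 * m), (∀ y, G.h y = stdM g q s y) → (∀ y, G.scal y = scalS (stdM g q s) y) →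
    1 ≤ m ∧ ∀ C : Cliff m, ∃ c₀ σ : ℝ, 0 < c₀ ∧ 0 < σ ∧ LichC C G c₀ σ

variable {q : V (2 * m) → M} {s : V (2 * m) → V k}

/-- In dimension zero there is no metric of positive scalar curvature. -/
theorem one_le_of_scal {G : Geo (2 * m)} {σ : ℝ} (hσ : 0 < σ) (h : ∀ y, 4 * σ ≤ G.scal y) :
    1 ≤ m := by
  rcases Nat.eq_zero_or_pos m with h0 | h0
  · exfalso
    subst h0
    have h1 := h 0
    have h2 : G.scal 0 = 0 := by
      unfold Geo.scal
      rw [neg_eq_zero]
      exact Finset.sum_eq_zero fun a _ => Fin.elim0 a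
    linarith
  · exact h0

/-- In dimension zero the operator `-κΔ + scal` is zero. -/
theorem one_le_of_spec {G : Geo (2 * m)} {κ σ : ℝ} (hσ : 0 < σ) (h : G.SpecGe κ σ) :
    1 ≤ m := by
  rcases Nat.eq_zero_or_pos m with h0 | h0
  · exfalso
    subst h0
    have : Subsingleton (V (2 * 0)) := ⟨fun x y => by ext i; exact Fin.elim0 i⟩
    have : Finite (V (2 * 0)) := Finite.of_subsingleton
    have : CompactSpace (V (2 * 0)) := Finite.compactSpace
    have h1 := h (fun _ => 1) contDiff_const (HasCompactSupport.of_compactSpace _)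
    have h2 : ∀ y : V (2 * 0), κ * ∑ a, (∑ μ, G.e y μ a * pd μ (fun _ : V (2 * 0) => (1 : ℝ)) y) ^ 2
        + G.scal y * (1 : ℝ) ^ 2 = 0 := by
      intro y
      have h3 : G.scal y = 0 := by
        unfold Geo.scal
        rw [neg_eq_zero]
        exact Finset.sum_eq_zero fun a _ => Fin.elim0 a
      have h4 : ∑ a, (∑ μ, G.e y μ a * pd μ (fun _ : V (2 * 0) => (1 : ℝ)) y) ^ 2 = 0 :=
        Finset.sum_eq_zero fun a _ => Fin.elim0 a
      rw [h3, h4]
      ring
    rw [integral_congr_ae (Filter.Eventually.of_forall h2), integral_zero, G.integral_vol] at h1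
    have h5 : ∀ y : V (2 * 0), (G.θ y).det • (1 : ℝ) ^ 2 = 1 := by
      intro y
      have : IsEmpty (Fin (2 * 0)) := Fin.isEmpty
      rw [Matrix.det_isEmpty]
      norm_num
    rw [integral_congr_ae (Filter.Eventually.of_forall h5), integral_const, smul_eq_mul,
      mul_one] at h1
    have h6 : 0 < (volume : Measure (V (2 * 0))).real Set.univ := by
      rw [Measure.real, ENNReal.toReal_pos_iff]
      exact ⟨Measure.measure_univ_pos.2 (NeZero.ne _), isCompact_univ.measure_lt_top⟩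
    nlinarith
  · exact h0

/-- Positive scalar curvature. -/
theorem lichG_of_scal [CompactSpace M] (g : Met (V n) M) (hg : PosScal g)
    (H : StableCover (V n) q s) : LichG g q s := by
  intro G _ h2
  obtain ⟨σ, hσ, hs⟩ := scal_lower g hg H G h2
  exact ⟨one_le_of_scal hσ hs, fun C => ⟨σ / 2, σ, by positivity, hσ, lichC_of_scal C G hs⟩⟩

/-- The scalar curvature of the covering is bounded from below. -/
theorem scal_bdd [CompactSpace M] (g : Met (V n) M) (H : StableCover (V n) q s)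
    (G : Geo (2 * m)) (hG : ∀ y, G.scal y = scalS (stdM g q s) y) :
    ∃ b : ℝ, ∀ y, -b ≤ G.scal y := by
  obtain ⟨K, hK, hKq⟩ := exists_compact_cover H
  have hs : ∀ y, G.scal y = Scal g (q y) := fun y => (hG y).trans (scalS_stdM g H y)
  obtain ⟨x₁, hx₁, -, -⟩ := hKq (q 0)
  obtain ⟨x₀, hx₀, hmin⟩ := hK.exists_isMinOn ⟨x₁, hx₁⟩ G.contDiff_scal.continuous.continuousOn
  refine ⟨-G.scal x₀, fun y => ?_⟩
  obtain ⟨x, hx, hqx, -⟩ := hKq (q y)
  have h1 : G.scal x₀ ≤ G.scal x := hmin hx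
  have h2 : G.scal x = G.scal y := by rw [hs, hs, hqx]
  linarith

/-- The spectral hypothesis. -/
theorem lichG_of_spec [CompactSpace M] (g : Met (V n) M) (H : StableCover (V n) q s) {σ₀ : ℝ}
    (hσ₀ : 0 < σ₀) (hg : SpecC (st g q s) (4 * (2 * m) / (2 * m - 1)) σ₀) : LichG g q s := by
  intro G h1 h2
  have hs := specGe_of_specM (specM_of_specC g H hg) G h1 h2
  obtain ⟨b, hb⟩ := scal_bdd g H G h2
  have hm := one_le_of_spec hσ₀ hs
  exact ⟨hm, fun C => lichC_of_spec_lim G hm hσ₀ hb hs C⟩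

/-- The data on `ℝᴺ`. -/
theorem manifold_end' [CompactSpace M] (hN : ExistsGeo (2 * m)) (g : Met (V n) M)
    (hg : LichG g q s) (H : StableCover (V n) q s)
    (ori : ∀ (γ : LG q s) (y : V (2 * m)), 0 < (jac ((LGact H).act γ) y).det) :
    ∃ G : Geo (2 * m), (LGact H).Iso G ∧ Cutoffs G ∧ 1 ≤ m ∧
      ∃ (C : Cliff m) (c₀ σ : ℝ), 0 < c₀ ∧ 0 < σ ∧ LichC C G c₀ σ := by
  obtain ⟨G, h1, h2⟩ := hN _ (isMet_stdM g H)
  obtain ⟨hm, hL⟩ := hg G h1 h2
  obtain ⟨C⟩ := exists_cliff m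
  refine ⟨G, ⟨fun γ y => ?_, ori⟩, cutoffs_std g H G h1, hm, C, hL C⟩
  rw [h1, h1]
  exact isom_LG g H γ y

end Pool.Agent.Lib.MP_df705a_gt.RL
end
end

section

/-!
# RL2, MF: the fundamental set exists
-/

open scoped Manifold ContDiff InnerProductSpace Matrix
open Module Bundle

noncomputable section

namespace Pool.Agent.Lib.MP_df705a_gt.RL

open Pool.Agent.Lib.MP_df705a_gt.Pin Pool.Agent.Lib.MP_df705a_gt.Perm
open Pool.Agent.Lib.MP_df705a_gt.Coll (Met)

variable {N n k : ℕ} {M : Type*} [TopologicalSpace M] [ChartedSpace (V n) M]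
  [IsManifold 𝓘(ℝ, V n) ∞ M] {q : V N → M} {s : V N → V k}

/-- Proof: `π y = (q y, s y)` is a surjective local homeomorphism (`H.cov.isLocalHomeomorph`,
`H.surj`), so every point `x` has a bounded open neighbourhood `U x` on which `π` is injective, and
`π (U x)` is open (`IsLocalHomeomorph.isOpenMap`). Finitely many of the sets `π (U x)` cover the
compact set `M × [0,1]^k`, say for `x 0, …, x (l - 1)`. Let `F` be the set of the `y` with
`0 ≤ s y j < 1` for all `j` such that for some `i < l`: `y ∈ U (x i)` and `π y ∉ π (U (x i'))` for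
`i' < i`. -/
theorem exists_fundSet [CompactSpace M] (H : StableCover (V n) q s) :
    ∃ F : Set (V N), FundSet q s F := by
  obtain ⟨pr, hpr⟩ : ∃ pr : V N → M × V k, pr = fun y => (q y, s y) := ⟨_, rfl⟩
  have hcov : IsCoveringMap pr := by
    rw [hpr]
    exact H.cov
  have hlh : IsLocalHomeomorph pr := hcov.isLocalHomeomorph
  have hopen : IsOpenMap pr := hlh.isOpenMap
  have hcont : Continuous pr := hlh.continuous
  have hU : ∀ x : V N, ∃ U : Set (V N), IsOpen U ∧ x ∈ U ∧ Bornology.IsBounded U ∧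
      Set.InjOn pr U := by
    intro x
    obtain ⟨e, hx, he⟩ := hlh x
    refine ⟨e.source ∩ Metric.ball x 1, e.open_source.inter Metric.isOpen_ball,
      ⟨hx, Metric.mem_ball_self one_pos⟩, Metric.isBounded_ball.subset Set.inter_subset_right, ?_⟩
    rw [he]
    exact e.injOn.mono Set.inter_subset_left
  choose U hUo hxU hUb hUi using hU
  obtain ⟨K, hK⟩ : ∃ K : Set (M × V k), K = Set.univ ×ˢ
      ((WithLp.toLp 2 : (Fin k → ℝ) → V k) '' (Set.univ.pi fun _ => Set.Icc (0 : ℝ) 1)) :=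
    ⟨_, rfl⟩
  have hKc : IsCompact K := by
    rw [hK]
    exact isCompact_univ.prod ((isCompact_univ_pi fun _ => isCompact_Icc).image
      (PiLp.continuous_toLp 2 _))
  obtain ⟨t, ht⟩ := hKc.elim_finite_subcover (fun x => pr '' U x) (fun x => hopen _ (hUo x))
    (fun z _ => by
      obtain ⟨y, hy⟩ := H.surj z
      refine Set.mem_iUnion.2 ⟨y, y, hxU y, ?_⟩
      rw [hpr]
      exact hy)
  obtain ⟨x, hx⟩ : ∃ x : Fin t.card → V N, ∀ z ∈ t, ∃ i, x i = z :=
    ⟨fun i => (t.equivFin.symm i : V N), fun z hz => ⟨t.equivFin ⟨z, hz⟩, by simp⟩⟩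
  have hcube : ∀ (p : M) (b : V k), (∀ j, 0 ≤ b j ∧ b j < 1) →
      ∃ i, (p, b) ∈ pr '' U (x i) := by
    intro p b hb
    have h1 : (p, b) ∈ K := by
      rw [hK]
      exact ⟨trivial, fun j => b j, fun j _ => ⟨(hb j).1, (hb j).2.le⟩, rfl⟩
    obtain ⟨z, hz, h2⟩ := Set.mem_iUnion₂.1 (ht h1)
    obtain ⟨i, rfl⟩ := hx z hz
    exact ⟨i, h2⟩
  refine ⟨{y | (∀ j, 0 ≤ s y j ∧ s y j < 1) ∧
    ∃ i, y ∈ U (x i) ∧ ∀ i' < i, pr y ∉ pr '' U (x i')}, ?_, ?_, fun y hy => hy.1, ?_⟩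
  · have hs : ∀ j, Continuous fun y => s y j := fun j =>
      (PiLp.continuous_apply 2 _ j).comp H.smooth_s.continuous
    have h1 : MeasurableSet {y : V N | ∀ j, 0 ≤ s y j ∧ s y j < 1} := by
      rw [Set.ofPred_forall]
      exact MeasurableSet.iInter fun j => (measurableSet_le measurable_const
        (hs j).measurable).inter (measurableSet_lt (hs j).measurable measurable_const)
    have h2 : MeasurableSet {y : V N | ∃ i, y ∈ U (x i) ∧ ∀ i' < i, pr y ∉ pr '' U (x i')} := by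
      rw [Set.ofPred_exists]
      refine MeasurableSet.iUnion fun i => (hUo (x i)).measurableSet.inter ?_
      show MeasurableSet {y : V N | ∀ i' < i, pr y ∉ pr '' U (x i')}
      rw [Set.ofPred_forall]
      refine MeasurableSet.iInter fun i' => ?_
      rw [Set.ofPred_forall]
      exact MeasurableSet.iInter fun _ =>
        ((hopen _ (hUo (x i'))).preimage hcont).measurableSet.compl
    exact h1.inter h2
  · refine (Bornology.isBounded_iUnion.2 fun i => hUb (x i)).subset ?_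
    rintro y ⟨-, i, hi, -⟩
    exact Set.mem_iUnion.2 ⟨i, hi⟩
  · intro p b hb
    obtain ⟨i, hi, hmin⟩ := wellFounded_lt.has_min {i | (p, b) ∈ pr '' U (x i)} (hcube p b hb)
    obtain ⟨y, hy, hyp⟩ := hi
    have hy1 : q y = p ∧ s y = b := by
      rw [hpr] at hyp
      exact ⟨congrArg Prod.fst hyp, congrArg Prod.snd hyp⟩
    refine ⟨y, ⟨⟨?_, i, hy, fun i' hi' h => ?_⟩, hy1⟩, ?_⟩
    · rw [hy1.2]
      exact hb
    · rw [hyp] at h
      exact hmin i' h hi'
    · rintro z ⟨⟨-, i', hz, hz2⟩, hz3, hz4⟩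
      have hzp : pr z = (p, b) := by
        rw [hpr]
        exact Prod.ext hz3 hz4
      have h3 : i' = i := by
        refine le_antisymm (not_lt.1 fun h => ?_) (not_lt.1 fun h => ?_)
        · refine hz2 i h ?_
          rw [hzp]
          exact ⟨y, hy, hyp⟩
        · exact hmin i' ⟨z, hz, hzp⟩ h
      rw [h3] at hz
      exact hUi (x i) hz hy (hzp.trans hyp.symm)

end Pool.Agent.Lib.MP_df705a_gt.RL
end
end
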