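import Pool.Agent.Lib.MP_df705a_gt.Mg.G031
import Pool.Agent.Lib.MP_df705a_gt.Mg.G041
import Pool.Agent.Lib.MP_df705a_gt.Mg.G040

section

/-!
TASK D5. The formula of McKean and Singer.

PROOF. Take `ξ` from `exists_xi` (B8) and `J = ∫ hs (B ξ(R) Π₊ p 1) dμ`. By `Sop_sq_sub` (B8) and
`hs_add` (with `u` replaced by `Π₊ (p 1 u)`): `hs (S_{s/2} Π₊ p) = hs (S_{t/2} Π₊ p) +
hs (B ξ(R) Π₊ p)`, the same with `Π₋`. Integrate (`lintegral_add_left`, measurability from
`measurable_hs`, `SM_mul`, `SM_cfc`). It remains to show `J = J₋ := ∫ hs (B ξ(R) Π₋ p 1) dμ`.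
By D3 for `A x = B x ξ(R x) Π₊` (equivariant by `equiv_cfc`): `J = ∫ hs (star (A x) p 1)` and
`star (A x) = Π₊ ξ(R) B = B ξ(R) Π₋`: `Π₊` commutes with `ξ(R)`, `Π₊ B = B Π₋` (from
`eps B = - B eps`), `ξ(R)` commutes with `B`; `Π₊`, `ξ(R)`, `B` are self-adjoint.
-/

open scoped InnerProductSpace ENNReal NNReal
open Filter Topology Set MeasureTheory

namespace Pool.Agent.Lib.MP_df705a_gt.RL

noncomputable section

variable {H : Type*} [NormedAddCommGroup H] [InnerProductSpace ℂ H] [CompleteSpace H]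

namespace RSys

variable {G X : Type*} [Group G] [Countable G] [MulAction G X] [MeasurableSpace X]
  {μ : Measure X} [TopologicalSpace.SeparableSpace H]

theorem mckean_singer (hμ : ∀ g : G, MeasurePreserving (fun x : X => g • x) μ μ)
    (S : RSys G X μ H) {s t : ℝ} (hs : 0 < s) (hst : s ≤ t) :
    ∃ J : ℝ≥0∞, S.phiP s = S.phiP t + J ∧ S.phiM s = S.phiM t + J := by
  obtain ⟨ξ, hξ, hξ0, hξe⟩ := exists_xi hs hst
  have hkey : ∀ (C : H →L[ℂ] H) (x : X), RL.hs (Sop (S.R x) (s / 2) * C) =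
      RL.hs (Sop (S.R x) (t / 2) * C) + RL.hs (S.B x * cfc ξ (S.R x) * C) := fun C x =>
    hs_add fun u => Sop_sq_sub (S.isCon x) (S.B_sa x) (S.comm_B x) (S.B_sq x) hs hst hξ hξe (C u)
  have hsum : ∀ C : H →L[ℂ] H, ∫⁻ x, RL.hs (Sop (S.R x) (s / 2) * C) ∂μ =
      ∫⁻ x, RL.hs (Sop (S.R x) (t / 2) * C) ∂μ +
        ∫⁻ x, RL.hs (S.B x * cfc ξ (S.R x) * C) ∂μ := by
    intro C
    rw [← lintegral_add_left]
    · exact lintegral_congr fun x => hkey C x
    · exact measurable_hs (SM_mul (SM_cfc S.isCon S.SM_R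
        (fS_continuous (half_pos (hs.trans_le hst))).continuousOn) (SM_const C))
  have hP : ∫⁻ x, RL.hs (S.B x * cfc ξ (S.R x) * (Pip S.eps * S.p 1)) ∂μ =
      ∫⁻ x, RL.hs (S.B x * cfc ξ (S.R x) * (Pim S.eps * S.p 1)) ∂μ := by
    have hA : SM fun x => S.B x * cfc ξ (S.R x) * Pip S.eps :=
      SM_mul (SM_mul S.SM_B (SM_cfc S.isCon S.SM_R hξ)) (SM_const _)
    have h1 := mass_transport hμ S.p S.p_sa S.p_sum hA fun g => by
      filter_upwards [S.equiv_cfc hξ g] with x hx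
      obtain ⟨W, h1, h2, h3, h4, h5⟩ := hx
      refine ⟨W, h2, fun u => ?_⟩
      change W (S.B x (cfc ξ (S.R x) (Pip S.eps u))) =
        S.B (g • x) (cfc ξ (S.R (g • x)) (Pip S.eps (W u)))
      rw [h5, h4]
      congr 2
      change W ((1 / 2 : ℂ) • (u + S.eps u)) = (1 / 2 : ℂ) • (W u + S.eps (W u))
      rw [map_smul, map_add, h1]
    have h2 : ∀ x, star (S.B x * cfc ξ (S.R x) * Pip S.eps) =
        S.B x * cfc ξ (S.R x) * Pim S.eps := by
      intro x
      have e1 : star (Pip S.eps) = Pip S.eps := by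
        rw [Pip, star_smul, star_add, star_one, S.grading.sa.star_eq]
        simp
      have e2 : star (cfc ξ (S.R x)) = cfc ξ (S.R x) := (IsSelfAdjoint.cfc (f := ξ)).star_eq
      have e3 : cfc ξ (S.R x) * S.B x = S.B x * cfc ξ (S.R x) := (S.comm_B x).cfc_real ξ
      have e4 : cfc ξ (S.R x) * S.eps = S.eps * cfc ξ (S.R x) := (S.comm_eps x).cfc_real ξ
      have e5 : Pip S.eps * S.B x = S.B x * Pim S.eps := by
        rw [Pip, Pim, smul_mul_assoc, mul_smul_comm, add_mul, mul_sub, one_mul, mul_one,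
          S.eps_B x, ← sub_eq_add_neg]
      have e6 : Pim S.eps * cfc ξ (S.R x) = cfc ξ (S.R x) * Pim S.eps := by
        rw [Pim, smul_mul_assoc, mul_smul_comm, sub_mul, mul_sub, one_mul, mul_one, e4]
      rw [star_mul, star_mul, e1, e2, (S.B_sa x).star_eq, e3, ← mul_assoc, e5, mul_assoc, e6,
        ← mul_assoc]
    simp only [h2] at h1
    simp only [← mul_assoc]
    exact h1
  refine ⟨∫⁻ x, RL.hs (S.B x * cfc ξ (S.R x) * (Pip S.eps * S.p 1)) ∂μ, ?_, ?_⟩
  · have h := hsum (Pip S.eps * S.p 1)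
    simp only [phiP, mul_assoc] at h ⊢
    exact h
  · rw [hP]
    have h := hsum (Pim S.eps * S.p 1)
    simp only [phiM, mul_assoc] at h ⊢
    exact h

end RSys

end

end Pool.Agent.Lib.MP_df705a_gt.RL
end

section

/-!
TASK B9. The operators for large `s`.

PROOF. Let `η(r) = fS (s/2) r / r` for `r > 0`, `0` for `r ≤ 0`; it is continuous on `[0,1]`
(at `0`: `fS (s/2) r / r → 0`), and `r η(r) = fS (s/2) r`. So `R η(R) = S_{s/2}`. Then
`‖B η(R) u‖² = ⟪(R - R²) η(R)² u, u⟫` and `(r - r²) η(r)² = (1/r - 1) fS s r ≤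
fS 1 r / (e (s - 1))` for `r > 0`: with `x = 1/r - 1`, `x e^{-s x} = e^{-x} x e^{-(s-1) x}` and
`y e^{-y} ≤ 1/e`. Both sides are `0` at `r = 0`. So the operator inequality
`(R - R²) η(R)² ≤ (1/(e (s-1))) S_1 = (1/(e(s-1))) S_{1/2}²` holds (`cfc_mono`), which gives
the bound after taking `⟪· u, u⟫` (`ContinuousLinearMap.le_def`, `IsPositive`).
-/

open scoped InnerProductSpace ENNReal NNReal
open Filter Topology Set MeasureTheory

namespace Pool.Agent.Lib.MP_df705a_gt.RL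

noncomputable section

variable {H : Type*} [NormedAddCommGroup H] [InnerProductSpace ℂ H] [CompleteSpace H]

theorem B9_cont {s : ℝ} (hs : 0 < s) : ContinuousOn (fun r => fS s r / r) (Icc 0 1) := by
  intro r hr
  rcases hr.1.eq_or_lt with rfl | h0
  · refine (continuousWithinAt_Ioi_iff_Ici.1 ?_).mono Icc_subset_Ici_self
    have h1 : Tendsto (fun r : ℝ => s / r) (𝓝[>] 0) atTop :=
      tendsto_inv_nhdsGT_zero.const_mul_atTop hs
    have h2 := ((Real.tendsto_pow_mul_exp_neg_atTop_nhds_zero 1).comp h1).const_mul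
      (Real.exp s / s)
    rw [mul_zero] at h2
    rw [ContinuousWithinAt, div_zero]
    refine h2.congr' ?_
    filter_upwards [self_mem_nhdsWithin] with r hr
    have hr' : 0 < r := hr
    rw [fS, if_neg hr'.not_ge, show -(s * (1 / r - 1)) = s + -(s / r) by ring, Real.exp_add]
    have := hs.ne'
    simp only [Function.comp]
    field_simp
  · exact ((fS_continuous hs).continuousAt.div continuousAt_id h0.ne').continuousWithinAt

theorem B9_le {s r : ℝ} (hs : 1 < s) (h0 : 0 ≤ r) (h1 : r ≤ 1) :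
    fS (s / 2) r / r * ((r - r * r) * (fS (s / 2) r / r)) ≤
      1 / (Real.exp 1 * (s - 1)) * fS 1 r := by
  rcases h0.eq_or_lt with rfl | h0
  · simp [fS]
  · have h2 : fS (s / 2) r / r * ((r - r * r) * (fS (s / 2) r / r)) =
        (1 / r - 1) * fS s r := by
      have h3 := fS_mul (s / 2) (s / 2) r
      rw [add_halves] at h3
      rw [← h3]
      field_simp
    rw [h2, fS, fS, if_neg h0.not_ge, if_neg h0.not_ge]
    have h4 : 0 < s - 1 := sub_pos.2 hs
    have h5 := Real.add_one_le_exp ((s - 1) * (1 / r - 1) - 1)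
    rw [sub_add_cancel] at h5
    have h6 := mul_le_mul_of_nonneg_right h5 (Real.exp_pos (-(s * (1 / r - 1)))).le
    rw [← Real.exp_add, show (s - 1) * (1 / r - 1) - 1 + -(s * (1 / r - 1)) =
      -(1 * (1 / r - 1)) + -1 by ring, Real.exp_add, Real.exp_neg 1, mul_assoc] at h6
    rw [one_div_mul_eq_div, le_div_iff₀ (by positivity)]
    have h7 := mul_le_mul_of_nonneg_right h6 (Real.exp_pos 1).le
    rw [inv_mul_cancel_right₀ (Real.exp_pos 1).ne'] at h7
    linarith [h7]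

theorem exists_eta {R B : H →L[ℂ] H} (hR : IsCon R) (hB : IsSelfAdjoint B) (hc : Commute R B)
    (hBB : B * B = R - R * R) {s : ℝ} (hs : 1 < s) :
    ∃ T : H →L[ℂ] H, (∀ C : H →L[ℂ] H, Commute R C → Commute T C) ∧
      R * T = Sop R (s / 2) ∧
      ∀ u, ‖B (T u)‖ ^ 2 ≤ 1 / (Real.exp 1 * (s - 1)) * ‖Sop R (1 / 2) u‖ ^ 2 := by
  have hs2 : 0 < s / 2 := by linarith
  have hRs := hR.sa
  have hη : ContinuousOn (fun r => fS (s / 2) r / r) (spectrum ℝ R) :=
    (B9_cont hs2).mono hR.spec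
  have h1f := (fS_continuous one_pos).continuousOn (s := spectrum ℝ R)
  refine ⟨cfc (fun r => fS (s / 2) r / r) R, fun C h => h.cfc_real _, ?_, fun u => ?_⟩
  · have h0 : cfc (fun r : ℝ => r) R * cfc (fun r => fS (s / 2) r / r) R =
      cfc (fun r => r * (fS (s / 2) r / r)) R := (cfc_mul ..).symm
    rw [cfc_id' ℝ R] at h0
    rw [h0, Sop]
    refine cfc_congr fun r hr => ?_
    rcases (hR.spec hr).1.eq_or_lt with rfl | h
    · simp [fS]
    · exact mul_div_cancel₀ _ h.ne'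
  · have hn : ∀ A T : H →L[ℂ] H, star A * A = T → ‖A u‖ ^ 2 = RCLike.re ⟪T u, u⟫_ℂ :=
      fun A T hT => by
        rw [← hT]
        exact A.apply_norm_sq_eq_inner_adjoint_left u
    have h1 : cfc (fun r : ℝ => r - r * r) R = R - R * R := by
      rw [cfc_sub .., cfc_mul .., cfc_id' ℝ R]
    have h3 : IsSelfAdjoint (cfc (fun r => fS (s / 2) r / r) R) := IsSelfAdjoint.cfc
    have h2 : star (B * cfc (fun r => fS (s / 2) r / r) R) *
        (B * cfc (fun r => fS (s / 2) r / r) R) = cfc (fun r => fS (s / 2) r / r *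
          ((r - r * r) * (fS (s / 2) r / r))) R := by
      rw [star_mul, hB.star_eq, h3.star_eq, mul_assoc, ← mul_assoc B B, hBB, ← h1,
        ← cfc_mul .., ← cfc_mul ..]
    have h4 : ‖B (cfc (fun r => fS (s / 2) r / r) R u)‖ ^ 2 = _ := hn (B * _) _ h2
    have h5 : ‖Sop R (1 / 2) u‖ ^ 2 = RCLike.re ⟪Sop R 1 u, u⟫_ℂ :=
      hn _ _ (by rw [(Sop_sa _).star_eq, Sop_mul hR (half_pos one_pos) (half_pos one_pos),
        add_halves])
    have h6 : cfc (fun r => fS (s / 2) r / r * ((r - r * r) * (fS (s / 2) r / r))) R ≤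
        cfc (fun r => 1 / (Real.exp 1 * (s - 1)) * fS 1 r) R :=
      cfc_mono fun r hr => B9_le hs (hR.spec hr).1 (hR.spec hr).2
    rw [ContinuousLinearMap.le_def, cfc_const_mul ..] at h6
    have h7 := h6.re_inner_nonneg_left u
    rw [sub_apply, inner_sub_left, map_sub, smul_apply,
      RCLike.real_smul_eq_coe_smul (K := ℂ), inner_smul_left, RCLike.conj_ofReal,
      RCLike.re_ofReal_mul] at h7
    rw [h4, h5]
    exact sub_nonneg.1 h7

end

end Pool.Agent.Lib.MP_df705a_gt.RL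
end

section

/-!
TASK D6. The inequality of Lichnerowicz for the heat semigroup.

PROOF. Let `R = S.R x`, `T` from `exists_eta` (B9), it commutes with `eps` (as `R` does). For
`u = Π₊ (p 1 b)`, `b` a basis vector: `eps u = u`, `eps (T u) = T u`, so by `mem_closure_of_plus`
`(R (T u), B (T u))` is in the closure of `GrPlus`, hence (the map `ofLp` is continuous) in
the closure of `Gr x`. `lich`: `c ‖R T u‖² ≤ ‖B T u‖² + ⨆ n, ‖M n (R T u)‖²`, with
`R T u = S_{s/2} u` and `‖B T u‖² ≤ 1/(e(s-1)) ‖S_{1/2} u‖²`. Sum over the basis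
(`ENNReal.tsum_mul_left`, `ENNReal.tsum_add`, `hs_iSup` with `A n = M n * S_{s/2} * Π₊ * p 1`).
-/

open scoped InnerProductSpace ENNReal NNReal
open Filter Topology Set MeasureTheory

namespace Pool.Agent.Lib.MP_df705a_gt.RL

noncomputable section

variable {H : Type*} [NormedAddCommGroup H] [InnerProductSpace ℂ H] [CompleteSpace H]

namespace RSys

variable {G X : Type*} [Group G] [MulAction G X] [MeasurableSpace X] {μ : Measure X}

theorem lich_hs (S : RSys G X μ H) (x : X) {s : ℝ} (hs1 : 1 < s) :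
    ENNReal.ofReal S.c * hs (Sop (S.R x) (s / 2) * Pip S.eps * S.p 1) ≤
      ENNReal.ofReal (1 / (Real.exp 1 * (s - 1))) *
        hs (Sop (S.R x) (1 / 2) * Pip S.eps * S.p 1) +
      ⨆ n, hs (S.M n x * (Sop (S.R x) (s / 2) * Pip S.eps * S.p 1)) := by
  obtain ⟨T, hTc, hTR, hTB⟩ := exists_eta (S.isCon x) (S.B_sa x) (S.comm_B x) (S.B_sq x) hs1
  have he : ∀ w : H, S.eps (Pip S.eps w) = Pip S.eps w := by
    intro w
    have h1 : S.eps * Pip S.eps = Pip S.eps := by
      rw [Pip, mul_smul_comm, mul_add, mul_one, S.grading.sq, add_comm]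
    exact congrArg (fun A : H →L[ℂ] H => A w) h1
  have hT : T * S.eps = S.eps * T := hTc _ (S.comm_eps x)
  have hmain : ∀ w : H, ENNReal.ofReal S.c * ‖(Sop (S.R x) (s / 2) * Pip S.eps) w‖ₑ ^ 2 ≤
      ENNReal.ofReal (1 / (Real.exp 1 * (s - 1))) *
        ‖(Sop (S.R x) (1 / 2) * Pip S.eps) w‖ₑ ^ 2 +
      ⨆ n, ‖S.M n x ((Sop (S.R x) (s / 2) * Pip S.eps) w)‖ₑ ^ 2 := by
    intro w
    have h1 : S.eps (T (Pip S.eps w)) = T (Pip S.eps w) := by
      have h2 := congrArg (fun A : H →L[ℂ] H => A (Pip S.eps w)) hT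
      change T (S.eps (Pip S.eps w)) = S.eps (T (Pip S.eps w)) at h2
      rw [← h2, he]
    have h2 := mem_closure_of_plus S.grading (S.odd x) h1
    have h3 : (S.R x (T (Pip S.eps w)), S.B x (T (Pip S.eps w))) ∈
        closure (S.Gr x : Set (H × H)) := by
      have hc : Continuous fun w : WithLp 2 (H × H) => ((w.fst, w.snd) : H × H) :=
        (WithLp.fstL 2 ℂ H H).continuous.prodMk (WithLp.sndL 2 ℂ H H).continuous
      exact map_mem_closure (f := fun w : WithLp 2 (H × H) => ((w.fst, w.snd) : H × H)) hc h2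
        fun w hw => hw.1
    have h4 := S.lich x _ h3
    have h5 : S.R x (T (Pip S.eps w)) = (Sop (S.R x) (s / 2) * Pip S.eps) w :=
      congrArg (fun A : H →L[ℂ] H => A (Pip S.eps w)) hTR
    have h6 : ‖S.B x (T (Pip S.eps w))‖ₑ ^ 2 ≤
        ENNReal.ofReal (1 / (Real.exp 1 * (s - 1))) *
          ‖(Sop (S.R x) (1 / 2) * Pip S.eps) w‖ₑ ^ 2 := by
      rw [← ofReal_norm, ← ofReal_norm, ← ENNReal.ofReal_pow (norm_nonneg _),
        ← ENNReal.ofReal_pow (norm_nonneg _), ← ENNReal.ofReal_mul (by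
          have := Real.exp_pos 1
          have : 0 < s - 1 := by linarith
          positivity)]
      exact ENNReal.ofReal_le_ofReal (hTB _)
    rw [← h5]
    exact h4.trans (by gcongr)
  rw [← hs_iSup (fun n => S.M n x * (Sop (S.R x) (s / 2) * Pip S.eps * S.p 1))
    fun u => S.M_mono x _, hs, hs, ← ENNReal.tsum_mul_left, ← ENNReal.tsum_mul_left, ← ENNReal.tsum_add]
  exact ENNReal.tsum_le_tsum fun i => hmain (S.p 1 (stdB H i))

end RSys

end

end Pool.Agent.Lib.MP_df705a_gt.RL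
end

section

/-!
TASK D7. The potential term for large `s`.

PROOF. `n ↦ hs (M n x * ...)` is monotone (`hs_mono`, `M_mono`), so the integral of the supremum is
the supremum of the integrals (`lintegral_iSup`). For fixed `n` apply D3 to `A x =
M n x * S_{s/2} * Π₊`: `∫ hs (A x * p 1) = ∫ hs (star (A x) * p 1)` and
`star (A x) * p 1 = Π₊ * S_{s/2} * M n x * p 1` (`M_sa`, `Sop_sa`, `Π₊` self-adjoint), whose `hs` is
`≤ hs (S_{s/2} * M n x * p 1) ≤ hs (S_{1/2} * M n x * p 1)` (`‖Π₊ u‖ ≤ ‖u‖`, `Sop_norm_mono`,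
`hs_mono`). The family `A` is equivariant by `equiv_cfc` (`f = fS (s/2)`; `W` commutes with
`Π₊`) and measurable (`M_meas`, `SM_cfc`, `SM_mul`).
-/

open scoped InnerProductSpace ENNReal NNReal
open Filter Topology Set MeasureTheory

namespace Pool.Agent.Lib.MP_df705a_gt.RL

noncomputable section

variable {H : Type*} [NormedAddCommGroup H] [InnerProductSpace ℂ H] [CompleteSpace H]

theorem D7_eps_norm {eps : H →L[ℂ] H} (he : IsGrading eps) (u : H) : ‖eps u‖ = ‖u‖ := by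
  have h1 : ⟪eps u, eps u⟫_ℂ = ⟪u, u⟫_ℂ := by
    have h2 : ContinuousLinearMap.adjoint eps = eps := he.sa
    have h3 : ⟪eps u, eps u⟫_ℂ = ⟪ContinuousLinearMap.adjoint eps (eps u), u⟫_ℂ :=
      (ContinuousLinearMap.adjoint_inner_left eps u (eps u)).symm
    have h4 : eps (eps u) = u := by
      have h5 : (eps * eps) u = u := by rw [he.sq]; rfl
      exact h5
    rw [h3, h2, h4]
  have h2 : ‖eps u‖ ^ 2 = ‖u‖ ^ 2 := by
    have e1 := inner_self_eq_norm_sq_to_K (𝕜 := ℂ) (eps u)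
    have e2 := inner_self_eq_norm_sq_to_K (𝕜 := ℂ) u
    rw [h1, e2] at e1
    have e3 : ((‖u‖ ^ 2 : ℝ) : ℂ) = ((‖eps u‖ ^ 2 : ℝ) : ℂ) := by
      push_cast
      exact e1
    exact (Complex.ofReal_injective e3).symm
  have h3 : ‖eps u‖ = ‖u‖ := by
    have a1 : 0 ≤ ‖eps u‖ := norm_nonneg _
    have a2 : 0 ≤ ‖u‖ := norm_nonneg _
    nlinarith [sq_nonneg (‖eps u‖ - ‖u‖), sq_nonneg (‖eps u‖ + ‖u‖)]
  exact h3

theorem D7_Pip_norm {eps : H →L[ℂ] H} (he : IsGrading eps) (u : H) : ‖Pip eps u‖ ≤ ‖u‖ := by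
  have h1 : Pip eps u = (1 / 2 : ℂ) • (u + eps u) := rfl
  rw [h1, norm_smul]
  have h2 : ‖(1 / 2 : ℂ)‖ = 1 / 2 := by norm_num
  rw [h2]
  have h3 := norm_add_le u (eps u)
  rw [D7_eps_norm he u] at h3
  linarith

theorem D7_Pip_sa {eps : H →L[ℂ] H} (he : IsGrading eps) : star (Pip eps) = Pip eps := by
  have h1 : star eps = eps := he.sa
  unfold Pip
  rw [star_smul, star_add, star_one, h1]
  congr 1
  simp

theorem D7_M_mul_mono (M : ℕ → H →L[ℂ] H) (hM : ∀ u, Monotone fun n => ‖M n u‖) (T : H →L[ℂ] H) :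
    Monotone fun n => hs (M n * T) := by
  intro a b hab
  apply hs_mono
  intro u
  exact hM (T u) hab

namespace RSys

variable {G X : Type*} [Group G] [Countable G] [MulAction G X] [MeasurableSpace X]
  {μ : Measure X} [TopologicalSpace.SeparableSpace H]

theorem potential_le (hμ : ∀ g : G, MeasurePreserving (fun x : X => g • x) μ μ)
    (S : RSys G X μ H) {s : ℝ} (hs1 : 1 ≤ s) {δ : ℝ≥0∞}
    (hδ : ∀ n, ∫⁻ x, hs (Sop (S.R x) (1 / 2) * S.M n x * S.p 1) ∂μ ≤ δ) :
    ∫⁻ x, ⨆ n, hs (S.M n x * (Sop (S.R x) (s / 2) * Pip S.eps * S.p 1)) ∂μ ≤ δ := by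
  have hs0 : 0 < s / 2 := by linarith
  have hcont : ContinuousOn (fS (s / 2)) (Icc 0 1) := (fS_continuous hs0).continuousOn
  have hSM : SM fun x => Sop (S.R x) (s / 2) :=
    SM_cfc (fun x => S.isCon x) S.SM_R hcont
  have hSMP : SM fun x => Sop (S.R x) (s / 2) * Pip S.eps := SM_mul hSM (SM_const _)
  have hSMPp : SM fun x => Sop (S.R x) (s / 2) * Pip S.eps * S.p 1 := SM_mul hSMP (SM_const _)
  have hA : ∀ n, SM fun x => S.M n x * (Sop (S.R x) (s / 2) * Pip S.eps) := fun n =>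
    SM_mul (S.M_meas n) hSMP
  have hmeas : ∀ n, Measurable fun x =>
      hs (S.M n x * (Sop (S.R x) (s / 2) * Pip S.eps * S.p 1)) := fun n =>
    measurable_hs (SM_mul (S.M_meas n) hSMPp)
  have hmono : Monotone fun n => fun x =>
      hs (S.M n x * (Sop (S.R x) (s / 2) * Pip S.eps * S.p 1)) := by
    intro a b hab x
    exact D7_M_mul_mono (fun n => S.M n x) (S.M_mono x) _ hab
  rw [lintegral_iSup hmeas hmono]
  apply iSup_le
  intro n
  have h1 : ∫⁻ x, hs (S.M n x * (Sop (S.R x) (s / 2) * Pip S.eps * S.p 1)) ∂μ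
      = ∫⁻ x, hs ((S.M n x * (Sop (S.R x) (s / 2) * Pip S.eps)) * S.p 1) ∂μ := by
    refine lintegral_congr fun x => ?_
    rw [mul_assoc (S.M n x)]
  have h2 := mass_transport hμ S.p S.p_sa S.p_sum (hA n) (by
    intro g
    filter_upwards [S.equiv_cfc hcont g] with x hx
    obtain ⟨W, hW1, hW2, hW3, hW4, hW5⟩ := hx
    refine ⟨W, hW2, ?_⟩
    intro u
    show W (S.M n x (cfc (fS (s / 2)) (S.R x) (Pip S.eps u)))
      = S.M n (g • x) (cfc (fS (s / 2)) (S.R (g • x)) (Pip S.eps (W u)))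
    rw [hW3, hW4]
    congr 2
    show W ((1 / 2 : ℂ) • (u + S.eps u)) = (1 / 2 : ℂ) • (W u + S.eps (W u))
    rw [map_smul, map_add, hW1])
  rw [h1, h2]
  refine le_trans (lintegral_mono ?_) (hδ n)
  intro x
  apply hs_mono
  intro u
  have e1 : star (S.M n x * (Sop (S.R x) (s / 2) * Pip S.eps))
      = Pip S.eps * Sop (S.R x) (s / 2) * S.M n x := by
    rw [star_mul, star_mul, D7_Pip_sa S.grading, (S.M_sa n x).star_eq, (Sop_sa (s / 2)).star_eq]
  show ‖(star (S.M n x * (Sop (S.R x) (s / 2) * Pip S.eps)) * S.p 1) u‖ ≤ _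
  rw [e1]
  show ‖Pip S.eps (Sop (S.R x) (s / 2) (S.M n x (S.p 1 u)))‖
    ≤ ‖Sop (S.R x) (1 / 2) (S.M n x (S.p 1 u))‖
  exact (D7_Pip_norm S.grading _).trans
    (Sop_norm_mono (S.isCon x) (by norm_num) (by linarith) _)

end RSys

end

end Pool.Agent.Lib.MP_df705a_gt.RL
end

section

/-!
TASK D8. The main theorem for random systems (assembly).

PROOF. For `t > max s 1` integrate `lich_hs` over `x` and use D7:
`c Φ₊(t) ≤ 1/(e(t-1)) Φ₊(1) + δ`. By `mckean_singer`: `Φ₊(s) = Φ₊(t) + J`, `Φ₋(s) = Φ₋(t) + J`, so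
`Φ₊(s) ≤ (1/(e(t-1)) Φ₊(1) + δ) / c + J ≤ Φ₋(s) + δ/c + Φ₊(1)/(c e (t-1))`. Let `t → ∞`
(`Φ₊(1) < ∞`).
`flip`: replace `eps` by `-eps` (`Pip (-eps) = Pim eps`, `Pim (-eps) = Pip eps`); all fields are
immediate, e.g. `IsOddSymm (-eps) Gr`: `(-eps a.1, eps a.2) = -(eps a.1, -eps a.2)`.
-/

open scoped InnerProductSpace ENNReal NNReal
open Filter Topology Set MeasureTheory

namespace Pool.Agent.Lib.MP_df705a_gt.RL

noncomputable section

variable {H : Type*} [NormedAddCommGroup H] [InnerProductSpace ℂ H] [CompleteSpace H]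

namespace RSys

variable {G X : Type*} [Group G] [MulAction G X] [MeasurableSpace X] {μ : Measure X}

theorem D8_meas [TopologicalSpace.SeparableSpace H] (S : RSys G X μ H) :
    Measurable fun x => hs (Sop (S.R x) (1 / 2) * Pip S.eps * S.p 1) :=
  measurable_hs (SM_mul (SM_mul (SM_cfc S.isCon S.SM_R (fS_continuous (by norm_num)).continuousOn)
    (SM_const _)) (SM_const _))

theorem D8_le [Countable G] [TopologicalSpace.SeparableSpace H]
    (hμ : ∀ g : G, MeasurePreserving (fun x : X => g • x) μ μ)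
    (S : RSys G X μ H) {δ : ℝ≥0∞}
    (hδ : ∀ n, ∫⁻ x, hs (Sop (S.R x) (1 / 2) * S.M n x * S.p 1) ∂μ ≤ δ) {t : ℝ} (ht : 1 < t) :
    ENNReal.ofReal S.c * S.phiP t ≤
      ENNReal.ofReal (1 / (Real.exp 1 * (t - 1))) * S.phiP 1 + δ := by
  unfold phiP
  rw [← lintegral_const_mul' _ _ ENNReal.ofReal_ne_top,
    ← lintegral_const_mul' _ _ ENNReal.ofReal_ne_top]
  refine (lintegral_mono fun x => S.lich_hs x ht).trans ?_
  rw [lintegral_add_left (S.D8_meas.const_mul _)]
  exact add_le_add le_rfl (potential_le hμ S ht.le hδ)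

theorem main [Countable G] [TopologicalSpace.SeparableSpace H]
    (hμ : ∀ g : G, MeasurePreserving (fun x : X => g • x) μ μ)
    (S : RSys G X μ H) {δ : ℝ≥0∞}
    (hδ : ∀ n, ∫⁻ x, hs (Sop (S.R x) (1 / 2) * S.M n x * S.p 1) ∂μ ≤ δ)
    (hfin : S.phiP 1 ≠ ∞) {s : ℝ} (hs : 0 < s) :
    S.phiP s ≤ S.phiM s + δ / ENNReal.ofReal S.c := by
  have hc0 : ENNReal.ofReal S.c ≠ 0 := (ENNReal.ofReal_pos.2 S.c_pos).ne'
  have hc1 : ENNReal.ofReal S.c ≠ ∞ := ENNReal.ofReal_ne_top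
  have key : ∀ t : ℝ, max s 1 < t → S.phiP s ≤ S.phiM s +
      (ENNReal.ofReal (1 / (Real.exp 1 * (t - 1))) * S.phiP 1 + δ) / ENNReal.ofReal S.c := by
    intro t ht
    have hst : s ≤ t := ((le_max_left s 1).trans_lt ht).le
    have h1t : 1 < t := (le_max_right s 1).trans_lt ht
    obtain ⟨J, hJ1, hJ2⟩ := mckean_singer hμ S hs hst
    have h1 : S.phiP t ≤
        (ENNReal.ofReal (1 / (Real.exp 1 * (t - 1))) * S.phiP 1 + δ) / ENNReal.ofReal S.c := by
      rw [ENNReal.le_div_iff_mul_le (Or.inl hc0) (Or.inl hc1), mul_comm]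
      exact S.D8_le hμ hδ h1t
    rw [hJ1, add_comm]
    exact add_le_add (hJ2 ▸ le_add_self) h1
  have hlim0 : Tendsto (fun t : ℝ => ENNReal.ofReal (1 / (Real.exp 1 * (t - 1)))) atTop (𝓝 0) := by
    rw [← ENNReal.ofReal_zero]
    refine (ENNReal.continuous_ofReal.tendsto 0).comp ?_
    refine Tendsto.const_div_atTop ?_ 1
    exact Tendsto.const_mul_atTop (Real.exp_pos 1) (tendsto_atTop_add_const_right _ _ tendsto_id)
  have hlim : Tendsto (fun t : ℝ => S.phiM s +
      (ENNReal.ofReal (1 / (Real.exp 1 * (t - 1))) * S.phiP 1 + δ) / ENNReal.ofReal S.c) atTop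
      (𝓝 (S.phiM s + (0 * S.phiP 1 + δ) / ENNReal.ofReal S.c)) := by
    refine Tendsto.const_add _ (ENNReal.Tendsto.div_const ?_ (Or.inr hc0))
    exact (ENNReal.Tendsto.mul_const hlim0 (Or.inr hfin)).add_const _
  rw [zero_mul, zero_add] at hlim
  exact ge_of_tendsto hlim ((eventually_gt_atTop (max s 1)).mono fun t ht => key t ht)

/-- the system with the opposite grading -/
theorem exists_flip (S : RSys G X μ H) : ∃ S' : RSys G X μ H, S'.eps = -S.eps ∧
    (∀ x, S'.Gr x = S.Gr x) ∧ S'.p = S.p ∧ S'.M = S.M ∧ S'.c = S.c :=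
  ⟨{ S with
      eps := -S.eps
      grading := ⟨S.grading.sa.neg, by rw [neg_mul_neg, S.grading.sq]⟩
      odd := fun x => ⟨(S.odd x).symm, fun a ha => by
        have h := (S.Gr x).neg_mem ((S.odd x).odd a ha)
        have h1 : ((-S.eps) a.1, -((-S.eps) a.2)) = -((S.eps a.1, -(S.eps a.2)) : H × H) := rfl
        rw [h1]
        exact h, (S.odd x).dense⟩
      p_eps := fun g => (S.p_eps g).neg_right
      M_eps := fun n x => (S.M_eps n x).neg_right
      equiv := fun g => (S.equiv g).mono fun x ⟨W, h1, h2⟩ => ⟨W, fun u => by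
        change W (-(S.eps u)) = -(S.eps (W u))
        rw [map_neg, h1], h2⟩ }, rfl, fun _ => rfl, rfl, rfl, rfl⟩

end RSys

end

end Pool.Agent.Lib.MP_df705a_gt.RL
end
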