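import Pool.Agent.Lib.MP_df705a_gt.Mg.G045
import Pool.Agent.Lib.MP_df705a_gt.RL.P10
import Pool.Agent.Lib.MP_df705a_gt.Mg.G030
import Pool.Agent.Lib.MP_df705a_gt.Mg.G032

section

/-!
# RL2 parametrix: the cutoff
-/

open scoped ContDiff InnerProductSpace Matrix Real
open MeasureTheory

noncomputable section

set_option linter.unusedSectionVars false

namespace Pool.Agent.Lib.MP_df705a_gt.RL

variable {X : Type*} [MeasurableSpace X] {P : Measure X} [IsProbabilityMeasure P] {N m : ℕ}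
  {ρ : ℝ}

/-- The cutoff function: one for `‖v‖ ≤ 1/2`, zero for `‖v‖ ≥ 1`. -/
def chi (v : V N) : ℝ := (⟨1 / 2, 1, by norm_num, by norm_num⟩ : ContDiffBump (0 : V N)) v

theorem contDiff_chi : ContDiff ℝ ∞ (chi (N := N)) :=
  ContDiffBump.contDiff _

theorem chi_nonneg (v : V N) : 0 ≤ chi v :=
  ContDiffBump.nonneg _

theorem chi_le_one (v : V N) : chi v ≤ 1 :=
  ContDiffBump.le_one _

theorem chi_one {v : V N} (h : ‖v‖ ≤ 1 / 2) : chi v = 1 := by
  refine ContDiffBump.one_of_mem_closedBall _ ?_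
  simpa using h

theorem chi_zero {v : V N} (h : 1 ≤ ‖v‖) : chi v = 0 := by
  refine ContDiffBump.zero_of_le_dist _ ?_
  simpa using h

theorem P11_chi_ev {v : V N} (h : ‖v‖ < 1 / 2 ∨ 1 < ‖v‖) :
    ∃ c : ℝ, ∀ᶠ w in nhds v, chi w = c := by
  rcases h with h | h
  · refine ⟨1, ?_⟩
    have h1 : ∀ᶠ w in nhds v, ‖w‖ < 1 / 2 := (continuous_norm.tendsto v).eventually_lt_const h
    filter_upwards [h1] with w hw
    exact chi_one hw.le
  · refine ⟨0, ?_⟩
    have h1 : ∀ᶠ w in nhds v, 1 < ‖w‖ := (continuous_norm.tendsto v).eventually_const_lt h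
    filter_upwards [h1] with w hw
    exact chi_zero hw.le

theorem P11_pd_ev {f : V N → ℝ} {v : V N} {c : ℝ} (h : ∀ᶠ w in nhds v, f w = c) (μ : Fin N) :
    ∀ᶠ w in nhds v, pd μ f w = 0 := by
  have h1 : ∀ᶠ w in nhds v, ∀ᶠ u in nhds w, f u = c := eventually_eventually_nhds.mpr h
  filter_upwards [h1] with w hw
  have h2 : f =ᶠ[nhds w] fun _ => c := hw
  rw [pd, h2.fderiv_eq]
  simp

/-- PROOF. `chi` is constant near every `v` with `‖v‖ < 1/2` or `‖v‖ > 1`; for `‖v‖ = 1/2` and `‖v‖ = 1` the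
derivatives vanish too, but they are not needed: `‖v‖ < 1 / 2` or `1 < ‖v‖`. -/
theorem pd_chi_zero {v : V N} (h : ‖v‖ < 1 / 2 ∨ 1 < ‖v‖) (μ ν : Fin N) :
    pd μ (chi (N := N)) v = 0 ∧ pd μ (pd ν (chi (N := N))) v = 0 := by
  obtain ⟨c, hc⟩ := P11_chi_ev h
  exact ⟨(P11_pd_ev hc μ).self_of_nhds, (P11_pd_ev (P11_pd_ev hc ν) μ).self_of_nhds⟩

theorem P11_contDiff_pd {f : V N → ℝ} (h : ContDiff ℝ ∞ f) (μ : Fin N) :
    ContDiff ℝ ∞ (pd μ f) := by
  have h1 : ContDiff ℝ ∞ (fderiv ℝ f) := h.fderiv_right (by simp)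
  exact h1.clm_apply contDiff_const

theorem P11_bd {f : V N → ℝ} (h : ContDiff ℝ ∞ f) (h0 : ∀ v : V N, 1 < ‖v‖ → f v = 0) :
    ∃ C : ℝ, 0 ≤ C ∧ ∀ v, |f v| ≤ C := by
  obtain ⟨C, hC⟩ := (isCompact_closedBall (0 : V N) 1).exists_bound_of_continuousOn
    h.continuous.continuousOn
  refine ⟨max C 0, le_max_right _ _, fun v => ?_⟩
  by_cases hv : ‖v‖ ≤ 1
  · exact (hC v (by simpa using hv)).trans (le_max_left _ _)
  · rw [h0 v (not_le.mp hv)]
    simp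

/-- PROOF. Continuous functions, bounded on the unit ball, zero outside (`pd_chi_zero`). -/
theorem pd_chi_bd : ∃ C : ℝ, ∀ (v : V N) (μ ν : Fin N),
    |pd μ (chi (N := N)) v| ≤ C ∧ |pd μ (pd ν (chi (N := N))) v| ≤ C := by
  have h1 : ∀ μ : Fin N, ∃ C : ℝ, 0 ≤ C ∧ ∀ v, |pd μ (chi (N := N)) v| ≤ C := fun μ =>
    P11_bd (P11_contDiff_pd contDiff_chi μ) fun v hv => (pd_chi_zero (Or.inr hv) μ μ).1
  have h2 : ∀ μ ν : Fin N, ∃ C : ℝ, 0 ≤ C ∧ ∀ v, |pd μ (pd ν (chi (N := N))) v| ≤ C := fun μ ν =>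
    P11_bd (P11_contDiff_pd (P11_contDiff_pd contDiff_chi ν) μ)
      fun v hv => (pd_chi_zero (Or.inr hv) μ ν).2
  choose C1 hC1 hC1' using h1
  choose C2 hC2 hC2' using h2
  refine ⟨∑ μ, C1 μ + ∑ μ, ∑ ν, C2 μ ν, fun v μ ν => ⟨?_, ?_⟩⟩
  · have a1 : C1 μ ≤ ∑ μ, C1 μ := Finset.single_le_sum (fun i _ => hC1 i) (Finset.mem_univ μ)
    have a2 : 0 ≤ ∑ μ, ∑ ν, C2 μ ν :=
      Finset.sum_nonneg fun i _ => Finset.sum_nonneg fun j _ => hC2 i j
    linarith [hC1' μ v]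
  · have a1 : 0 ≤ ∑ μ, C1 μ := Finset.sum_nonneg fun i _ => hC1 i
    have a2 : C2 μ ν ≤ ∑ ν, C2 μ ν :=
      Finset.single_le_sum (fun i _ => hC2 μ i) (Finset.mem_univ ν)
    have a3 : ∑ ν, C2 μ ν ≤ ∑ μ, ∑ ν, C2 μ ν :=
      Finset.single_le_sum (f := fun μ => ∑ ν, C2 μ ν)
        (fun i _ => Finset.sum_nonneg fun j _ => hC2 i j) (Finset.mem_univ μ)
    linarith [hC2' μ ν v]

namespace Op

/-- The approximate kernel with cutoff. -/
def Q (g : Geo (2 * m)) (o : Op P m ρ) (J : ℕ) (t : ℝ) (x : X) (z : V (2 * m)) (r : ℝ)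
    (v : V (2 * m)) : En m :=
  (chi v : ℂ) • o.U g J t x z r v

/-- Its time derivative. -/
def Qd (g : Geo (2 * m)) (o : Op P m ρ) (J : ℕ) (t : ℝ) (x : X) (z : V (2 * m)) (r : ℝ)
    (v : V (2 * m)) : En m :=
  (chi v : ℂ) • o.Ud g J t x z r v

/-- The commutator of the operator with the cutoff. -/
def Qc (g : Geo (2 * m)) (o : Op P m ρ) (J : ℕ) (t : ℝ) (x : X) (z : V (2 * m)) (r : ℝ)
    (v : V (2 * m)) : En m :=
  - ∑ μ, ∑ ν, (g.hi (z + v) μ ν : ℂ) • (((pd μ (chi (N := 2 * m)) v : ℝ) : ℂ) • pd ν (o.U g J t x z r) v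
      + ((pd ν (chi (N := 2 * m)) v : ℝ) : ℂ) • pd μ (o.U g J t x z r) v
      + ((pd μ (pd ν (chi (N := 2 * m))) v : ℝ) : ℂ) • o.U g J t x z r v)
    + ∑ μ, ((pd μ (chi (N := 2 * m)) v : ℝ) : ℂ) • (o.bT t x z v μ * o.U g J t x z r v)

/-- The error `(∂_r + L) Q`. -/
def Qe (g : Geo (2 * m)) (o : Op P m ρ) (J : ℕ) (t : ℝ) (x : X) (z : V (2 * m)) (r : ℝ)
    (v : V (2 * m)) : En m :=
  (chi v : ℂ) • ((r⁻¹ : ℂ) • o.Er g J t x z r v) + o.Qc g J t x z r v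

theorem contDiff_Q (g : Geo (2 * m)) (o : Op P m ρ) (J : ℕ) (t : ℝ) (x : X) (z : V (2 * m))
    (r : ℝ) : ContDiff ℝ ∞ (o.Q g J t x z r) := by
  exact (Complex.ofRealCLM.contDiff.comp contDiff_chi).smul (o.contDiff_U g J t x z r)

theorem hasDerivAt_Q (g : Geo (2 * m)) (o : Op P m ρ) (J : ℕ) (t : ℝ) (x : X) (z v : V (2 * m))
    {r : ℝ} (hr : 0 < r) :
    HasDerivAt (fun r => o.Q g J t x z r v) (o.Qd g J t x z r v) r := by
  exact (o.hasDerivAt_U g J t x z v hr).const_smul (chi v : ℂ)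

theorem P11B_pd_smul {N : ℕ} (μ : Fin N) {c : V N → ℝ} {u : V N → En m} {v : V N}
    (hc : DifferentiableAt ℝ c v) (hu : DifferentiableAt ℝ u v) :
    pd μ (fun v => (c v : ℂ) • u v) v = (c v : ℂ) • pd μ u v + ((pd μ c v : ℝ) : ℂ) • u v := by
  have h1 : (fun v => (c v : ℂ) • u v) = fun v => c v • u v := by
    funext v
    exact Complex.coe_smul (c v) (u v)
  have h2 : (c v : ℂ) • pd μ u v = c v • pd μ u v := Complex.coe_smul (c v) (pd μ u v)
  have h3 : ((pd μ c v : ℝ) : ℂ) • u v = pd μ c v • u v := Complex.coe_smul (pd μ c v) (u v)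
  rw [h1, h2, h3]
  unfold pd
  rw [fderiv_fun_smul hc hu]
  rfl

theorem P11B_pd_add {N : ℕ} (μ : Fin N) {f g : V N → En m} {v : V N}
    (hf : DifferentiableAt ℝ f v) (hg : DifferentiableAt ℝ g v) :
    pd μ (fun v => f v + g v) v = pd μ f v + pd μ g v := by
  unfold pd
  rw [fderiv_fun_add hf hg]
  rfl

theorem P11B_pd_contDiff {N : ℕ} {F : Type*} [NormedAddCommGroup F] [NormedSpace ℝ F] (μ : Fin N)
    {f : V N → F} (hf : ContDiff ℝ ∞ f) : ContDiff ℝ ∞ (pd μ f) :=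
  (hf.fderiv_right (m := ∞) (by simp)).clm_apply contDiff_const

/-- PROOF. Product rule for `pd μ (pd ν (chi • U))` and `pd μ (chi • U)`. -/
theorem L_Q (g : Geo (2 * m)) (o : Op P m ρ) (J : ℕ) (t : ℝ) (x : X) (z v : V (2 * m)) (r : ℝ) :
    o.L g t x z (o.Q g J t x z r) v =
      (chi v : ℂ) • o.L g t x z (o.U g J t x z r) v + o.Qc g J t x z r v := by
  have hc : ContDiff ℝ ∞ (chi (N := 2 * m)) := contDiff_chi
  have hU := o.contDiff_U g J t x z r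
  have h1 : ∀ ν, pd ν (o.Q g J t x z r) = fun v => (chi v : ℂ) • pd ν (o.U g J t x z r) v +
      ((pd ν (chi (N := 2 * m)) v : ℝ) : ℂ) • o.U g J t x z r v := by
    intro ν
    funext v
    exact P11B_pd_smul ν (hc.differentiable (by simp) v) (hU.differentiable (by simp) v)
  have h2 : ∀ μ ν, pd μ (pd ν (o.Q g J t x z r)) v = (chi v : ℂ) • pd μ (pd ν (o.U g J t x z r)) v +
      (((pd μ (chi (N := 2 * m)) v : ℝ) : ℂ) • pd ν (o.U g J t x z r) v
      + ((pd ν (chi (N := 2 * m)) v : ℝ) : ℂ) • pd μ (o.U g J t x z r) v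
      + ((pd μ (pd ν (chi (N := 2 * m))) v : ℝ) : ℂ) • o.U g J t x z r v) := by
    intro μ ν
    rw [h1]
    have d1 : DifferentiableAt ℝ (fun v => (chi v : ℂ) • pd ν (o.U g J t x z r) v) v :=
      (((Complex.ofRealCLM.contDiff.comp hc).smul (P11B_pd_contDiff ν hU)).differentiable
        (by simp) v)
    have d2 : DifferentiableAt ℝ (fun v => ((pd ν (chi (N := 2 * m)) v : ℝ) : ℂ) •
        o.U g J t x z r v) v :=
      (((Complex.ofRealCLM.contDiff.comp (P11B_pd_contDiff ν hc)).smul hU).differentiable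
        (by simp) v)
    rw [P11B_pd_add μ d1 d2, P11B_pd_smul μ (hc.differentiable (by simp) v)
      ((P11B_pd_contDiff ν hU).differentiable (by simp) v),
      P11B_pd_smul μ ((P11B_pd_contDiff ν hc).differentiable (by simp) v)
      (hU.differentiable (by simp) v)]
    abel
  unfold L Qc
  simp only [h2]
  simp only [h1]
  have e1 : o.Q g J t x z r v = (chi v : ℂ) • o.U g J t x z r v := rfl
  rw [e1]
  simp only [smul_add, mul_add, Finset.sum_add_distrib, mul_smul_comm, smul_neg, Finset.smul_sum,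
    neg_add_rev]
  have e2 : ∀ μ ν, (g.hi (z + v) μ ν : ℂ) • (chi v : ℂ) • pd μ (pd ν (o.U g J t x z r)) v =
      (chi v : ℂ) • (g.hi (z + v) μ ν : ℂ) • pd μ (pd ν (o.U g J t x z r)) v :=
    fun μ ν => smul_comm _ _ _
  simp only [e2]
  abel

/-- PROOF. `L_Q`, `main_id`. -/
theorem Qe_eq (g : Geo (2 * m)) {o : Op P m ρ} (ho : o.Ok) (J : ℕ) (t : ℝ) (x : X)
    (z v : V (2 * m)) {r : ℝ} (hr : 0 < r) :
    o.Qe g J t x z r v = o.Qd g J t x z r v + o.L g t x z (o.Q g J t x z r) v := by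
  rw [L_Q, Qe, ← main_id g ho J t x z v hr, Qd, smul_add]
  abel

theorem Q_zero (g : Geo (2 * m)) (o : Op P m ρ) (J : ℕ) (t : ℝ) (x : X) (z : V (2 * m)) (r : ℝ)
    {v : V (2 * m)} (hv : 1 ≤ ‖v‖) : o.Q g J t x z r v = 0 ∧ o.Qd g J t x z r v = 0 := by
  rw [Q, Qd, chi_zero hv, Complex.ofReal_zero]
  have h0 : ∀ A : En m, (0 : ℂ) • A = 0 := fun A => zero_smul ℂ A
  exact ⟨h0 _, h0 _⟩

/-- PROOF. `chi = 0`, `pd_chi_zero`. -/
theorem Qe_zero (g : Geo (2 * m)) (o : Op P m ρ) (J : ℕ) (t : ℝ) (x : X) (z : V (2 * m)) (r : ℝ)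
    {v : V (2 * m)} (hv : 1 < ‖v‖) : o.Qe g J t x z r v = 0 := by
  have h0 : ∀ A : En m, (0 : ℂ) • A = 0 := fun A => zero_smul ℂ A
  have h1 : ∀ μ, pd μ (chi (N := 2 * m)) v = 0 := fun μ => (pd_chi_zero (Or.inr hv) μ μ).1
  have h2 : ∀ μ ν, pd μ (pd ν (chi (N := 2 * m))) v = 0 :=
    fun μ ν => (pd_chi_zero (Or.inr hv) μ ν).2
  have h3 : ∀ c : ℂ, c • (0 : En m) = 0 := fun c => smul_zero (A := En m) c
  simp only [Qe, Qc, chi_zero hv.le, h1, h2, Complex.ofReal_zero, h0, add_zero, h3,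
    Finset.sum_const_zero, neg_zero]

theorem P11C_gz_nonneg (c : ℝ) (v : V (2 * m)) {r : ℝ} (hr : 0 < r) : 0 ≤ gz m c v r := by
  unfold gz
  positivity

theorem P11C_norm_chi (v : V N) (A : En m) : ‖(chi v : ℂ) • A‖ = chi v * ‖A‖ := by
  rw [norm_smul, Complex.norm_real, Real.norm_of_nonneg (chi_nonneg v)]

theorem Q_bd (g : Geo (2 * m)) (o : Op P m ρ) (J : ℕ) :
    ∃ Φ : X → ℝ, Mom P Φ ∧ ∀ x z v r, ‖z‖ ≤ ρ → 0 < r → r ≤ 1 → ∀ t : ℝ, |t| ≤ 1 →
      ‖o.Q g J t x z r v‖ ≤ Φ x * gz m (rate P g ρ) v r ∧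
      ‖o.Qd g J t x z r v‖ ≤ Φ x * (r⁻¹ * gz m (rate P g ρ) v r) := by
  obtain ⟨Φ, hΦ, h1⟩ := o.U_bd g J 0
  obtain ⟨Ψ, hΨ, h2⟩ := o.Ud_bd g J
  refine ⟨_, hΦ.add hΨ, fun x z v r hz hr hr1 t ht => ?_⟩
  have hg := P11C_gz_nonneg (rate P g ρ) v hr
  have h3 := h1 x z v r hz hr hr1 t ht
  have h4 := h2 x z v r hz hr hr1 t ht
  rw [pow_zero, one_mul] at h3
  constructor
  · rw [Q, P11C_norm_chi]
    calc chi v * ‖o.U g J t x z r v‖ ≤ 1 * ‖o.U g J t x z r v‖ :=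
          mul_le_mul_of_nonneg_right (chi_le_one v) (norm_nonneg _)
      _ = ‖o.U g J t x z r v‖ := one_mul _
      _ ≤ Φ x * gz m (rate P g ρ) v r := h3
      _ ≤ (Φ x + Ψ x) * gz m (rate P g ρ) v r :=
          mul_le_mul_of_nonneg_right (le_add_of_nonneg_right (hΨ.nonneg x)) hg
  · rw [Qd, P11C_norm_chi]
    calc chi v * ‖o.Ud g J t x z r v‖ ≤ 1 * ‖o.Ud g J t x z r v‖ :=
          mul_le_mul_of_nonneg_right (chi_le_one v) (norm_nonneg _)
      _ = ‖o.Ud g J t x z r v‖ := one_mul _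
      _ ≤ Ψ x * (r⁻¹ * gz m (rate P g ρ) v r) := h4
      _ ≤ (Φ x + Ψ x) * (r⁻¹ * gz m (rate P g ρ) v r) :=
          mul_le_mul_of_nonneg_right (le_add_of_nonneg_left (hΦ.nonneg x))
            (mul_nonneg (inv_nonneg.2 hr.le) hg)

theorem P11C_norm_eq {N : ℕ} (v : V N) {r : ℝ} (hr : 0 < r) : ‖v‖ = √r * ‖(√r)⁻¹ • v‖ := by
  have h1 : 0 < √r := Real.sqrt_pos.2 hr
  rw [norm_smul, norm_inv, Real.norm_of_nonneg h1.le, mul_inv_cancel_left₀ h1.ne']

/-- PROOF. `chi U - gs = chi (U - gs) - (1 - chi) gs`; `U_sub_bd`; where `chi v ≠ 1`, `1 ≤ 2 ‖v‖ = 2 √r ‖η‖`, so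
`gs ≤ 2 √r ‖η‖ gs` and `Wp_bd'` for `p = 1`, `k = 1`. -/
theorem Q_sub_bd (g : Geo (2 * m)) (o : Op P m ρ) (J : ℕ) :
    ∃ Φ : X → ℝ, Mom P Φ ∧ ∀ x z v r, ‖z‖ ≤ ρ → 0 < r → r ≤ 1 → ∀ t : ℝ, |t| ≤ 1 →
      ‖o.Q g J t x z r v - (gs g z v r : ℂ) • (1 : En m)‖ ≤
        Φ x * (√r * gz m (rate P g ρ) v r) := by
  obtain ⟨Φ, hΦ, h1⟩ := o.U_sub_bd g J
  obtain ⟨Ψ, hΨ, h2⟩ := Wp_bd' (P := P) (ρ := ρ) g 1 1
  refine ⟨_, hΦ.add (hΨ.const_mul (c := 2) (by norm_num)), fun x z v r hz hr hr1 t ht => ?_⟩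
  have hg := P11C_gz_nonneg (rate P g ρ) v hr
  have h3 := h1 x z v r hz hr hr1 t ht
  have h4 := h2 x z v r hz hr
  rw [pow_one] at h4
  have hW : Wp g x z r (1 : PM (Ix m) (2 * m) (Rg P (2 * m) ρ)) v =
      (gs g z v r : ℂ) • (1 : En m) := by
    rw [Wp, evM_one]
  rw [hW] at h4
  have e1 : o.Q g J t x z r v - (gs g z v r : ℂ) • (1 : En m) =
      (chi v : ℂ) • (o.U g J t x z r v - (gs g z v r : ℂ) • (1 : En m)) -
        ((1 - chi v : ℝ) : ℂ) • ((gs g z v r : ℂ) • (1 : En m)) := by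
    have e2 : ((1 - chi v : ℝ) : ℂ) = 1 - (chi v : ℂ) := by push_cast; ring
    have e3 : ∀ A : En m, (1 : ℂ) • A = A := fun A => one_smul ℂ A
    have e4 : ∀ (a b : ℂ) (A : En m), (a - b) • A = a • A - b • A := fun a b A => sub_smul a b A
    rw [Q, e2, e4, smul_sub, e3]
    abel
  have h5 : ‖((1 - chi v : ℝ) : ℂ) • ((gs g z v r : ℂ) • (1 : En m))‖ ≤
      2 * Ψ x * (√r * gz m (rate P g ρ) v r) := by
    rw [norm_smul, Complex.norm_real, Real.norm_of_nonneg (sub_nonneg.2 (chi_le_one v))]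
    by_cases hv : ‖v‖ ≤ 1 / 2
    · rw [chi_one hv, sub_self, zero_mul]
      exact mul_nonneg (mul_nonneg (by norm_num) (hΨ.nonneg x)) (mul_nonneg (Real.sqrt_nonneg _) hg)
    · have h6 : 1 ≤ 2 * (√r * ‖(√r)⁻¹ • v‖) := by
        rw [← P11C_norm_eq v hr]
        linarith
      have h7 := norm_nonneg ((gs g z v r : ℂ) • (1 : En m))
      calc (1 - chi v) * ‖(gs g z v r : ℂ) • (1 : En m)‖
          ≤ 1 * ‖(gs g z v r : ℂ) • (1 : En m)‖ := by
            apply mul_le_mul_of_nonneg_right _ h7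
            linarith [chi_nonneg v]
        _ ≤ (2 * (√r * ‖(√r)⁻¹ • v‖)) * ‖(gs g z v r : ℂ) • (1 : En m)‖ :=
            mul_le_mul_of_nonneg_right h6 h7
        _ = 2 * √r * (‖(√r)⁻¹ • v‖ * ‖(gs g z v r : ℂ) • (1 : En m)‖) := by ring
        _ ≤ 2 * √r * (Ψ x * gz m (rate P g ρ) v r) :=
            mul_le_mul_of_nonneg_left h4 (by positivity)
        _ = 2 * Ψ x * (√r * gz m (rate P g ρ) v r) := by ring
  rw [e1]
  refine (norm_sub_le _ _).trans ?_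
  rw [P11C_norm_chi]
  calc chi v * ‖o.U g J t x z r v - (gs g z v r : ℂ) • (1 : En m)‖ +
        ‖((1 - chi v : ℝ) : ℂ) • ((gs g z v r : ℂ) • (1 : En m))‖
      ≤ 1 * (Φ x * (√r * gz m (rate P g ρ) v r)) + 2 * Ψ x * (√r * gz m (rate P g ρ) v r) := by
        refine add_le_add ?_ h5
        exact mul_le_mul (chi_le_one v) h3 (norm_nonneg _) zero_le_one
    _ = (Φ x + 2 * Ψ x) * (√r * gz m (rate P g ρ) v r) := by ring

theorem P11C_hi_bd {N : ℕ} (g : Geo N) (R : ℝ) :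
    ∃ D : ℝ, ∀ y : V N, ‖y‖ ≤ R → ∀ μ ν, |g.hi y μ ν| ≤ D := by
  have h1 : ∀ μ ν, ∃ D : ℝ, ∀ y : V N, ‖y‖ ≤ R → |g.hi y μ ν| ≤ D := by
    intro μ ν
    obtain ⟨D, hD⟩ := (isCompact_closedBall (0 : V N) R).exists_bound_of_continuousOn
      (continuous_hi g μ ν).continuousOn
    refine ⟨D, fun y hy => ?_⟩
    have := hD y (by rwa [mem_closedBall_zero_iff])
    rwa [Complex.norm_real, Real.norm_eq_abs] at this
  choose D hD using h1
  refine ⟨∑ μ, ∑ ν, |D μ ν|, fun y hy μ ν => ((hD μ ν y hy).trans (le_abs_self _)).trans ?_⟩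
  calc |D μ ν| ≤ ∑ ν, |D μ ν| :=
        Finset.single_le_sum (f := fun ν => |D μ ν|) (fun _ _ => abs_nonneg _) (Finset.mem_univ ν)
    _ ≤ ∑ μ, ∑ ν, |D μ ν| :=
        Finset.single_le_sum (f := fun μ => ∑ ν, |D μ ν|)
          (fun _ _ => Finset.sum_nonneg fun _ _ => abs_nonneg _) (Finset.mem_univ μ)

/-- PROOF. `‖v‖ > 1`: `Qe_zero`. `‖v‖ ≤ 1`: `Er_bd`: `r⁻¹ (√r)^(J+1)`. The commutator terms are not zero only for
`‖v‖ ≥ 1/2` (`pd_chi_zero`), where `1 ≤ (2 ‖v‖)^(J+2) = 2^(J+2) (√r)^(J+2) ‖η‖^(J+2)`; they are bounded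
(`pd_chi_bd`, `bT_bd`, `hi` bounded on the ball of radius `ρ + 1`) by `pd_U_bd`, `U_bd` with `k = J + 2`:
`(√r)^(J+2) (√r)⁻¹ ≤ (√r)^(J+1) ≤ r⁻¹ (√r)^(J+1)`. -/
theorem Qe_bd (g : Geo (2 * m)) (o : Op P m ρ) (J : ℕ) :
    ∃ Φ : X → ℝ, Mom P Φ ∧ ∀ x z v r, ‖z‖ ≤ ρ → 0 < r → r ≤ 1 → ∀ t : ℝ, |t| ≤ 1 →
      ‖o.Qe g J t x z r v‖ ≤ Φ x * (r⁻¹ * (√r) ^ (J + 1) * gz m (rate P g ρ) v r) := by
  classical
  obtain ⟨Φ₁, hΦ₁, h1⟩ := o.Er_bd g J
  obtain ⟨Φ₂, hΦ₂, h2⟩ := o.U_bd g J (J + 2)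
  choose Φ₃ hΦ₃ h3 using fun μ => o.pd_U_bd g J (J + 2) μ
  obtain ⟨Φ₄, hΦ₄, h4⟩ := o.bT_bd
  obtain ⟨C, hC⟩ := pd_chi_bd (N := 2 * m)
  obtain ⟨D, hD⟩ := P11C_hi_bd g (ρ + 1)
  have hC0 : 0 ≤ |C| := abs_nonneg C
  have hD0 : 0 ≤ |D| := abs_nonneg D
  refine ⟨_, hΦ₁.add ((((Mom.sum Finset.univ fun μ _ => Mom.sum Finset.univ fun ν _ =>
      (((hΦ₃ ν).add (hΦ₃ μ)).add hΦ₂).const_mul (c := |D| * |C|) (by positivity))).add
      (Mom.sum Finset.univ fun (_ : Fin (2 * m)) _ => (hΦ₄.mul hΦ₂).const_mul hC0)).const_mul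
      (c := 2 ^ (J + 2)) (by positivity)), fun x z v r hz hr hr1 t ht => ?_⟩
  have hg := P11C_gz_nonneg (rate P g ρ) v hr
  have hs : 0 < √r := Real.sqrt_pos.2 hr
  have hs1 : √r ≤ 1 := Real.sqrt_le_one.2 hr1
  have hsr : √r * √r = r := Real.mul_self_sqrt hr.le
  have hpos : 0 ≤ r⁻¹ * (√r) ^ (J + 1) * gz m (rate P g ρ) v r := by positivity
  by_cases hv : 1 < ‖v‖
  · rw [o.Qe_zero g J t x z r hv, norm_zero]
    refine mul_nonneg ?_ hpos
    refine add_nonneg (hΦ₁.nonneg x) (mul_nonneg (by positivity) (add_nonneg ?_ ?_))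
    · exact Finset.sum_nonneg fun μ _ => Finset.sum_nonneg fun ν _ => mul_nonneg (by positivity)
        (add_nonneg (add_nonneg ((hΦ₃ ν).nonneg x) ((hΦ₃ μ).nonneg x)) (hΦ₂.nonneg x))
    · exact Finset.sum_nonneg fun _ _ => mul_nonneg hC0
        (mul_nonneg (hΦ₄.nonneg x) (hΦ₂.nonneg x))
  rw [not_lt] at hv
  have a1 : ‖(chi v : ℂ) • ((r⁻¹ : ℂ) • o.Er g J t x z r v)‖ ≤
      Φ₁ x * (r⁻¹ * (√r) ^ (J + 1) * gz m (rate P g ρ) v r) := by
    rw [P11C_norm_chi, norm_smul]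
    have e1 : ‖(r⁻¹ : ℂ)‖ = r⁻¹ := by
      rw [norm_inv, Complex.norm_real, Real.norm_of_nonneg hr.le]
    rw [e1]
    calc chi v * (r⁻¹ * ‖o.Er g J t x z r v‖) ≤ 1 * (r⁻¹ * (Φ₁ x * ((√r) ^ (J + 1) *
          gz m (rate P g ρ) v r))) :=
          mul_le_mul (chi_le_one v) (mul_le_mul_of_nonneg_left (h1 x z v r hz hv hr hr1 t ht)
            (inv_nonneg.2 hr.le)) (by positivity) zero_le_one
      _ = Φ₁ x * (r⁻¹ * (√r) ^ (J + 1) * gz m (rate P g ρ) v r) := by ring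
  have a2 : ‖o.Qc g J t x z r v‖ ≤ (2 ^ (J + 2) * (∑ μ, ∑ ν, |D| * |C| * (Φ₃ ν x + Φ₃ μ x + Φ₂ x) +
      ∑ _μ : Fin (2 * m), |C| * (Φ₄ x * Φ₂ x))) * (r⁻¹ * (√r) ^ (J + 1) *
        gz m (rate P g ρ) v r) := by
    by_cases hv2 : ‖v‖ < 1 / 2
    · have h0 : ∀ A : En m, (0 : ℂ) • A = 0 := fun A => zero_smul ℂ A
      have b1 : ∀ μ, pd μ (chi (N := 2 * m)) v = 0 := fun μ => (pd_chi_zero (Or.inl hv2) μ μ).1
      have b2 : ∀ μ ν, pd μ (pd ν (chi (N := 2 * m))) v = 0 :=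
        fun μ ν => (pd_chi_zero (Or.inl hv2) μ ν).2
      have b3 : ∀ c : ℂ, c • (0 : En m) = 0 := fun c => smul_zero (A := En m) c
      have b4 : o.Qc g J t x z r v = 0 := by
        simp only [Qc, b1, b2, Complex.ofReal_zero, h0, add_zero, b3,
          Finset.sum_const_zero, neg_zero]
      rw [b4, norm_zero]
      refine mul_nonneg (mul_nonneg (by positivity) (add_nonneg ?_ ?_)) hpos
      · exact Finset.sum_nonneg fun μ _ => Finset.sum_nonneg fun ν _ => mul_nonneg (by positivity)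
          (add_nonneg (add_nonneg ((hΦ₃ ν).nonneg x) ((hΦ₃ μ).nonneg x)) (hΦ₂.nonneg x))
      · exact Finset.sum_nonneg fun _ _ => mul_nonneg hC0
          (mul_nonneg (hΦ₄.nonneg x) (hΦ₂.nonneg x))
    · rw [not_lt] at hv2
      obtain ⟨y, hy⟩ : ∃ y, y = ‖(√r)⁻¹ • v‖ := ⟨_, rfl⟩
      have hy0 : 0 ≤ y := by rw [hy]; exact norm_nonneg _
      obtain ⟨G, hG⟩ : ∃ G, G = gz m (rate P g ρ) v r := ⟨_, rfl⟩
      have hG0 : 0 ≤ G := by rw [hG]; exact hg
      have c1 : 1 ≤ 2 ^ (J + 2) * ((√r) ^ (J + 2) * y ^ (J + 2)) := by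
        have c2 : 1 ≤ 2 * (√r * y) := by
          rw [hy, ← P11C_norm_eq v hr]
          linarith
        calc (1 : ℝ) ≤ (2 * (√r * y)) ^ (J + 2) := one_le_pow₀ c2
          _ = 2 ^ (J + 2) * ((√r) ^ (J + 2) * y ^ (J + 2)) := by rw [mul_pow, mul_pow]
      have c3 : ∀ (A : ℝ) (B : ℝ), 0 ≤ A → y ^ (J + 2) * A ≤ B → A ≤
          2 ^ (J + 2) * ((√r) ^ (J + 2) * B) := by
        intro A B hA hAB
        calc A = 1 * A := (one_mul A).symm
          _ ≤ (2 ^ (J + 2) * ((√r) ^ (J + 2) * y ^ (J + 2))) * A :=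
              mul_le_mul_of_nonneg_right c1 hA
          _ = 2 ^ (J + 2) * (√r) ^ (J + 2) * (y ^ (J + 2) * A) := by ring
          _ ≤ 2 ^ (J + 2) * (√r) ^ (J + 2) * B := mul_le_mul_of_nonneg_left hAB (by positivity)
          _ = 2 ^ (J + 2) * ((√r) ^ (J + 2) * B) := by ring
      have hri : 1 ≤ r⁻¹ := (one_le_inv₀ hr).2 hr1
      have d1 : (√r) ^ (J + 2) * (√r)⁻¹ = (√r) ^ (J + 1) := by
        rw [pow_succ, mul_assoc, mul_inv_cancel₀ hs.ne', mul_one]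
      have d2 : (√r) ^ (J + 1) ≤ r⁻¹ * (√r) ^ (J + 1) :=
        le_mul_of_one_le_left (by positivity) hri
      have d3 : (√r) ^ (J + 2) ≤ r⁻¹ * (√r) ^ (J + 1) :=
        (pow_le_pow_of_le_one hs.le hs1 (Nat.le_succ _)).trans d2
      have uU : ‖o.U g J t x z r v‖ ≤ 2 ^ (J + 2) * (Φ₂ x * (r⁻¹ * (√r) ^ (J + 1) * G)) := by
        have := c3 _ (Φ₂ x * gz m (rate P g ρ) v r) (norm_nonneg _)
          (by rw [hy]; exact h2 x z v r hz hr hr1 t ht)
        refine this.trans (mul_le_mul_of_nonneg_left ?_ (by positivity))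
        rw [← hG]
        calc (√r) ^ (J + 2) * (Φ₂ x * G) = (√r) ^ (J + 2) * (Φ₂ x * G) := rfl
          _ ≤ (r⁻¹ * (√r) ^ (J + 1)) * (Φ₂ x * G) :=
              mul_le_mul_of_nonneg_right d3 (mul_nonneg (hΦ₂.nonneg x) hG0)
          _ = Φ₂ x * (r⁻¹ * (√r) ^ (J + 1) * G) := by ring
      have uD : ∀ μ, ‖pd μ (o.U g J t x z r) v‖ ≤
          2 ^ (J + 2) * (Φ₃ μ x * (r⁻¹ * (√r) ^ (J + 1) * G)) := by
        intro μ
        have := c3 _ (Φ₃ μ x * ((√r)⁻¹ * gz m (rate P g ρ) v r)) (norm_nonneg _)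
          (by rw [hy]; exact h3 μ x z v r hz hr hr1 t ht)
        refine this.trans (mul_le_mul_of_nonneg_left ?_ (by positivity))
        rw [← hG]
        calc (√r) ^ (J + 2) * (Φ₃ μ x * ((√r)⁻¹ * G)) =
              ((√r) ^ (J + 2) * (√r)⁻¹) * (Φ₃ μ x * G) := by ring
          _ ≤ (r⁻¹ * (√r) ^ (J + 1)) * (Φ₃ μ x * G) := by
              rw [d1]
              exact mul_le_mul_of_nonneg_right d2 (mul_nonneg ((hΦ₃ μ).nonneg x) hG0)
          _ = Φ₃ μ x * (r⁻¹ * (√r) ^ (J + 1) * G) := by ring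
      obtain ⟨E, hE⟩ : ∃ E, E = r⁻¹ * (√r) ^ (J + 1) * G := ⟨_, rfl⟩
      rw [← hG, ← hE]
      rw [← hE] at uU uD
      have hE0 : 0 ≤ E := by rw [hE]; positivity
      have k1 : ∀ μ (A : En m) (B : ℝ), ‖A‖ ≤ B →
          ‖((pd μ (chi (N := 2 * m)) v : ℝ) : ℂ) • A‖ ≤ |C| * B := by
        intro μ A B hA
        rw [norm_smul, Complex.norm_real, Real.norm_eq_abs]
        exact mul_le_mul ((hC v μ μ).1.trans (le_abs_self C)) hA (norm_nonneg _) hC0
      have k2 : ∀ μ ν (A : En m) (B : ℝ), ‖A‖ ≤ B →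
          ‖((pd μ (pd ν (chi (N := 2 * m))) v : ℝ) : ℂ) • A‖ ≤ |C| * B := by
        intro μ ν A B hA
        rw [norm_smul, Complex.norm_real, Real.norm_eq_abs]
        exact mul_le_mul ((hC v μ ν).2.trans (le_abs_self C)) hA (norm_nonneg _) hC0
      have hzv : ‖z + v‖ ≤ ρ + 1 := (norm_add_le z v).trans (add_le_add hz hv)
      have k3 : ∀ μ ν (A : En m) (B : ℝ), ‖A‖ ≤ B → ‖(g.hi (z + v) μ ν : ℂ) • A‖ ≤ |D| * B := by
        intro μ ν A B hA
        rw [norm_smul, Complex.norm_real, Real.norm_eq_abs]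
        exact mul_le_mul ((hD (z + v) hzv μ ν).trans (le_abs_self D)) hA (norm_nonneg _) hD0
      have m1 : ‖∑ μ, ∑ ν, (g.hi (z + v) μ ν : ℂ) •
          (((pd μ (chi (N := 2 * m)) v : ℝ) : ℂ) • pd ν (o.U g J t x z r) v
          + ((pd ν (chi (N := 2 * m)) v : ℝ) : ℂ) • pd μ (o.U g J t x z r) v
          + ((pd μ (pd ν (chi (N := 2 * m))) v : ℝ) : ℂ) • o.U g J t x z r v)‖ ≤
          ∑ μ, ∑ ν, 2 ^ (J + 2) * (|D| * |C| * (Φ₃ ν x + Φ₃ μ x + Φ₂ x)) * E := by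
        refine (norm_sum_le _ _).trans (Finset.sum_le_sum fun μ _ => (norm_sum_le _ _).trans
          (Finset.sum_le_sum fun ν _ => ?_))
        have := k3 μ ν _ _ ((norm_add_le _ _).trans (add_le_add ((norm_add_le _ _).trans
          (add_le_add (k1 μ _ _ (uD ν)) (k1 ν _ _ (uD μ)))) (k2 μ ν _ _ uU)))
        refine this.trans (le_of_eq ?_)
        ring
      have m2 : ‖∑ μ, ((pd μ (chi (N := 2 * m)) v : ℝ) : ℂ) •
          (o.bT t x z v μ * o.U g J t x z r v)‖ ≤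
          ∑ _μ : Fin (2 * m), 2 ^ (J + 2) * (|C| * (Φ₄ x * Φ₂ x)) * E := by
        refine (norm_sum_le _ _).trans (Finset.sum_le_sum fun μ _ => ?_)
        have := k1 μ _ _ ((norm_mul_le (o.bT t x z v μ) (o.U g J t x z r v)).trans
          (mul_le_mul ((h4 x z v hz hv t ht).1 μ) uU (norm_nonneg _) (hΦ₄.nonneg x)))
        refine this.trans (le_of_eq ?_)
        ring
      unfold Qc
      refine (norm_add_le _ _).trans ?_
      rw [norm_neg]
      refine (add_le_add m1 m2).trans (le_of_eq ?_)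
      simp only [mul_add, add_mul, Finset.mul_sum, Finset.sum_mul]
  rw [Qe]
  refine (norm_add_le _ _).trans ((add_le_add a1 a2).trans (le_of_eq ?_))
  ring

/-! ### joint continuity -/

theorem P11_contDiff_pd {N : ℕ} {F : Type*} [NormedAddCommGroup F] [NormedSpace ℝ F]
    {f : V N → F} (hf : ContDiff ℝ ∞ f) (μ : Fin N) : ContDiff ℝ ∞ (pd μ f) := by
  have h1 : ContDiff ℝ ∞ (fderiv ℝ f) := hf.fderiv_right (by simp)
  exact h1.clm_apply contDiff_const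

theorem P11_continuous_toEn : Continuous (toEn (m := m)) := by
  have h : Continuous ((Matrix.toEuclideanCLM (𝕜 := ℂ) (n := Ix m)).toAlgEquiv.toLinearMap :
      Matrix (Ix m) (Ix m) ℂ →ₗ[ℂ] En m) := LinearMap.continuous_of_finiteDimensional _
  exact h

theorem P11_continuous_rem {N : ℕ} (k : ℕ) (f : Fm P N ρ) (x : X) :
    Continuous fun q : V N × V N => rem k f x q.1 q.2 := by
  unfold rem
  exact (f.2.smooth x).continuous.sub
    (continuous_finsetSum _ fun j _ => continuous_ev x (tay j f))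

theorem P11_continuous_remM {N : ℕ} (k : ℕ) (f : Matrix (Ix m) (Ix m) (Fm P N ρ)) (x : X) :
    Continuous fun q : V N × V N => remM k f x q.1 q.2 := by
  unfold remM
  refine P11_continuous_toEn.comp (continuous_matrix fun i j => ?_)
  exact P11_continuous_rem k (f i j) x

/-- The continuity domain. -/
theorem P11_continuousOn_sqrt (n : ℕ) :
    ContinuousOn (fun q : ℝ × V (2 * m) × V (2 * m) => ((√q.1 : ℂ) ^ n)) {q | 0 < q.1} :=
  ((Complex.continuous_ofReal.comp (Real.continuous_sqrt.comp continuous_fst)).pow n).continuousOn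

theorem P11_continuousOn_inv :
    ContinuousOn (fun q : ℝ × V (2 * m) × V (2 * m) => ((q.1⁻¹ : ℂ))) {q | 0 < q.1} := by
  refine ContinuousOn.inv₀ (Complex.continuous_ofReal.comp continuous_fst).continuousOn ?_
  intro q hq
  exact_mod_cast (ne_of_gt hq)

theorem P11_continuousOn_sqrtinv :
    ContinuousOn (fun q : ℝ × V (2 * m) × V (2 * m) => (((√q.1)⁻¹ : ℂ))) {q | 0 < q.1} := by
  refine ContinuousOn.inv₀
    (Complex.continuous_ofReal.comp (Real.continuous_sqrt.comp continuous_fst)).continuousOn ?_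
  intro q hq
  exact_mod_cast (Real.sqrt_pos.2 hq).ne'

theorem P11_continuousOn_U (g : Geo (2 * m)) (o : Op P m ρ) (J : ℕ) (t : ℝ) (x : X) :
    ContinuousOn (fun q : ℝ × V (2 * m) × V (2 * m) => o.U g J t x q.2.1 q.1 q.2.2)
      {q | 0 < q.1} := by
  unfold U
  exact continuousOn_finsetSum _ fun n _ =>
    (P11_continuousOn_sqrt n).smul (continuousOn_Wp g x _)

theorem P11_continuousOn_Ud (g : Geo (2 * m)) (o : Op P m ρ) (J : ℕ) (t : ℝ) (x : X) :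
    ContinuousOn (fun q : ℝ × V (2 * m) × V (2 * m) => o.Ud g J t x q.2.1 q.1 q.2.2)
      {q | 0 < q.1} := by
  unfold Ud
  exact continuousOn_finsetSum _ fun n _ =>
    (P11_continuousOn_sqrt n).smul (P11_continuousOn_inv.smul (continuousOn_Wp g x _))

theorem P11_continuousOn_pd_U (g : Geo (2 * m)) (o : Op P m ρ) (J : ℕ) (t : ℝ) (x : X)
    (μ : Fin (2 * m)) :
    ContinuousOn (fun q : ℝ × V (2 * m) × V (2 * m) => pd μ (o.U g J t x q.2.1 q.1) q.2.2)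
      {q | 0 < q.1} := by
  have h : ContinuousOn (fun q : ℝ × V (2 * m) × V (2 * m) =>
      (((√q.1)⁻¹ : ℂ)) • ∑ n ∈ Finset.range (J + 1),
        ((√q.1 : ℂ) ^ n) • Wp g x q.2.1 q.1 (hM (hR g) μ ((o.dat g).PT t n)) q.2.2)
      {q | 0 < q.1} :=
    P11_continuousOn_sqrtinv.smul (continuousOn_finsetSum _ fun n _ =>
      (P11_continuousOn_sqrt n).smul (continuousOn_Wp g x _))
  exact h.congr fun q hq => pd_U g o J t x q.2.1 q.2.2 hq μ

theorem P11_continuous_bT (o : Op P m ρ) (t : ℝ) (x : X) (μ : Fin (2 * m)) :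
    Continuous fun q : V (2 * m) × V (2 * m) => o.bT t x q.1 q.2 μ := by
  unfold bT
  exact continuous_finsetSum _ fun β _ =>
    (continuous_evF (o.b β μ) x).const_smul ((t : ℂ) ^ (β : ℕ))

theorem P11_continuous_remB (o : Op P m ρ) (k : ℕ) (t : ℝ) (x : X) (μ : Fin (2 * m)) :
    Continuous fun q : V (2 * m) × V (2 * m) => o.remB k t x q.1 q.2 μ := by
  unfold remB
  exact continuous_finsetSum _ fun β _ =>
    (P11_continuous_remM k (o.b β μ) x).const_smul ((t : ℂ) ^ (β : ℕ))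

theorem P11_continuous_remC (o : Op P m ρ) (k : ℕ) (t : ℝ) (x : X) :
    Continuous fun q : V (2 * m) × V (2 * m) => o.remC k t x q.1 q.2 := by
  unfold remC
  exact continuous_finsetSum _ fun β _ =>
    (P11_continuous_remM k (o.c β) x).const_smul ((t : ℂ) ^ (β : ℕ))

theorem P11_continuousOn_Er (g : Geo (2 * m)) (o : Op P m ρ) (J : ℕ) (t : ℝ) (x : X) :
    ContinuousOn (fun q : ℝ × V (2 * m) × V (2 * m) => o.Er g J t x q.2.1 q.1 q.2.2)
      {q | 0 < q.1} := by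
  unfold Er
  have hr : ContinuousOn (fun q : ℝ × V (2 * m) × V (2 * m) => ((q.1 : ℂ))) {q | 0 < q.1} :=
    (Complex.continuous_ofReal.comp continuous_fst).continuousOn
  have hs : ContinuousOn (fun q : ℝ × V (2 * m) × V (2 * m) => ((√q.1 : ℂ))) {q | 0 < q.1} :=
    (Complex.continuous_ofReal.comp (Real.continuous_sqrt.comp continuous_fst)).continuousOn
  refine continuousOn_finsetSum _ fun n _ => (P11_continuousOn_sqrt n).smul ?_
  refine ContinuousOn.add (ContinuousOn.add ?_ ?_) ?_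
  · refine ContinuousOn.neg (continuousOn_finsetSum _ fun μ _ =>
      continuousOn_finsetSum _ fun ν _ => ?_)
    exact ((P11_continuous_rem (J + 1 - n) (hiF (ρ := ρ) (P := P) g μ ν) x).comp
      continuous_snd).continuousOn.smul (continuousOn_Wp g x _)
  · refine hs.smul (continuousOn_finsetSum _ fun μ _ => ?_)
    exact ((P11_continuous_remB o (J - n) t x μ).comp continuous_snd).continuousOn.mul
      (continuousOn_Wp g x _)
  · refine hr.smul ?_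
    exact ((P11_continuous_remC o (J - 1 - n) t x).comp continuous_snd).continuousOn.mul
      (continuousOn_Wp g x _)

theorem P11_continuous_cast {f : V (2 * m) → ℝ} (hf : Continuous f) :
    Continuous fun q : ℝ × V (2 * m) × V (2 * m) => ((f q.2.2 : ℝ) : ℂ) :=
  Complex.continuous_ofReal.comp (hf.comp (continuous_snd.comp continuous_snd))

/-- PROOF. Finite sums and products of continuous functions: `continuousOn_Wp`, `pd_U` etc.; `rem` and `remM` are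
continuous in `(z, v)` (`continuous_ev`, `(f.2.smooth x).continuous`). -/
theorem continuousOn_Q (g : Geo (2 * m)) (o : Op P m ρ) (J : ℕ) (t : ℝ) (x : X) :
    ContinuousOn (fun q : ℝ × V (2 * m) × V (2 * m) => o.Q g J t x q.2.1 q.1 q.2.2)
      {q | 0 < q.1} ∧
    ContinuousOn (fun q : ℝ × V (2 * m) × V (2 * m) => o.Qd g J t x q.2.1 q.1 q.2.2)
      {q | 0 < q.1} ∧
    ContinuousOn (fun q : ℝ × V (2 * m) × V (2 * m) => o.Qe g J t x q.2.1 q.1 q.2.2)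
      {q | 0 < q.1} := by
  have hc : ContinuousOn (fun q : ℝ × V (2 * m) × V (2 * m) => ((chi q.2.2 : ℝ) : ℂ))
      {q | 0 < q.1} := (P11_continuous_cast contDiff_chi.continuous).continuousOn
  have hc1 : ∀ μ : Fin (2 * m), ContinuousOn (fun q : ℝ × V (2 * m) × V (2 * m) =>
      ((pd μ (chi (N := 2 * m)) q.2.2 : ℝ) : ℂ)) {q | 0 < q.1} := fun μ =>
    (P11_continuous_cast (P11_contDiff_pd contDiff_chi μ).continuous).continuousOn
  have hc2 : ∀ μ ν : Fin (2 * m), ContinuousOn (fun q : ℝ × V (2 * m) × V (2 * m) =>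
      ((pd μ (pd ν (chi (N := 2 * m))) q.2.2 : ℝ) : ℂ)) {q | 0 < q.1} := fun μ ν =>
    (P11_continuous_cast
      (P11_contDiff_pd (P11_contDiff_pd contDiff_chi ν) μ).continuous).continuousOn
  have hU := P11_continuousOn_U g o J t x
  refine ⟨hc.smul hU, hc.smul (P11_continuousOn_Ud g o J t x), ?_⟩
  unfold Qe
  refine (hc.smul (P11_continuousOn_inv.smul (P11_continuousOn_Er g o J t x))).add ?_
  unfold Qc
  refine ContinuousOn.add (ContinuousOn.neg (continuousOn_finsetSum _ fun μ _ =>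
      continuousOn_finsetSum _ fun ν _ => ?_)) (continuousOn_finsetSum _ fun μ _ => ?_)
  · have hh : ContinuousOn (fun q : ℝ × V (2 * m) × V (2 * m) =>
        (g.hi (q.2.1 + q.2.2) μ ν : ℂ)) {q | 0 < q.1} :=
      ((continuous_hi g μ ν).comp ((continuous_fst.comp continuous_snd).add
        (continuous_snd.comp continuous_snd))).continuousOn
    exact hh.smul ((((hc1 μ).smul (P11_continuousOn_pd_U g o J t x ν)).add
      ((hc1 ν).smul (P11_continuousOn_pd_U g o J t x μ))).add ((hc2 μ ν).smul hU))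
  · exact (hc1 μ).smul
      (((P11_continuous_bT o t x μ).comp continuous_snd).continuousOn.mul hU)

theorem P11_contDiffOn_gs (g : Geo (2 * m)) (z : V (2 * m)) :
    ContDiffOn ℝ ∞ (fun q : ℝ × V (2 * m) => gs g z q.2 q.1) {q | 0 < q.1} := by
  unfold gs
  have h1 : ContDiffOn ℝ ∞ (fun q : ℝ × V (2 * m) => (4 * π * q.1) ^ m) {q | 0 < q.1} :=
    ((contDiff_const.mul contDiff_fst).pow m).contDiffOn
  have h2 : ContDiffOn ℝ ∞ (fun q : ℝ × V (2 * m) => 4 * q.1) {q | 0 < q.1} :=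
    (contDiff_const.mul contDiff_fst).contDiffOn
  have h3 : ContDiffOn ℝ ∞ (fun q : ℝ × V (2 * m) => qf g z q.2) {q | 0 < q.1} :=
    ((contDiff_qf g z).comp contDiff_snd).contDiffOn
  refine (h1.inv fun q hq => ?_).mul ((h3.div h2 fun q hq => ?_).neg.exp)
  · have hq' : 0 < q.1 := hq
    positivity
  · have hq' : 0 < q.1 := hq
    positivity

theorem P11_contDiffOn_sqrt :
    ContDiffOn ℝ ∞ (fun q : ℝ × V (2 * m) => √q.1) {q | 0 < q.1} :=
  contDiff_fst.contDiffOn.sqrt fun _ hq => ne_of_gt hq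

theorem P11_contDiffOn_evM (x : X) (z : V (2 * m)) (p : PM (Ix m) (2 * m) (Rg P (2 * m) ρ)) :
    ContDiffOn ℝ ∞ (fun q : ℝ × V (2 * m) => evM x z ((√q.1)⁻¹ • q.2) p) {q | 0 < q.1} := by
  have h1 : ContDiffOn ℝ ∞ (fun q : ℝ × V (2 * m) => (√q.1)⁻¹ • q.2) {q | 0 < q.1} :=
    (P11_contDiffOn_sqrt.inv fun _ hq => (Real.sqrt_pos.2 hq).ne').smul contDiff_snd.contDiffOn
  exact (contDiff_evM x z p).comp_contDiffOn h1

theorem P11_contDiffOn_cast {f : ℝ × V (2 * m) → ℝ} {s : Set (ℝ × V (2 * m))}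
    (hf : ContDiffOn ℝ ∞ f s) : ContDiffOn ℝ ∞ (fun q => ((f q : ℝ) : ℂ)) s :=
  Complex.ofRealCLM.contDiff.comp_contDiffOn hf

theorem P11_contDiffOn_Wp (g : Geo (2 * m)) (x : X) (z : V (2 * m))
    (p : PM (Ix m) (2 * m) (Rg P (2 * m) ρ)) :
    ContDiffOn ℝ ∞ (fun q : ℝ × V (2 * m) => Wp g x z q.1 p q.2) {q | 0 < q.1} := by
  unfold Wp
  exact (P11_contDiffOn_cast (P11_contDiffOn_gs g z)).smul (P11_contDiffOn_evM x z p)

/-- PROOF. `√r` is smooth for `r > 0`; `gs` and `evM` are smooth in `(r, v)`. -/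
theorem contDiffOn_Q (g : Geo (2 * m)) (o : Op P m ρ) (J : ℕ) (t : ℝ) (x : X) (z : V (2 * m)) :
    ContDiffOn ℝ ∞ (fun q : ℝ × V (2 * m) => o.Q g J t x z q.1 q.2) {q | 0 < q.1} := by
  unfold Q U
  refine (P11_contDiffOn_cast (contDiff_chi.comp contDiff_snd).contDiffOn).smul
    (ContDiffOn.sum fun n _ => ?_)
  exact ((P11_contDiffOn_cast P11_contDiffOn_sqrt).pow n).smul (P11_contDiffOn_Wp g x z _)

end Op

end Pool.Agent.Lib.MP_df705a_gt.RL
end
end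

section

/-!
# RL2 parametrix: the expansion of one term of the trace
-/

open scoped ContDiff InnerProductSpace Matrix Real
open MeasureTheory

noncomputable section

set_option linter.unusedSectionVars false

namespace Pool.Agent.Lib.MP_df705a_gt.RL

variable {X : Type*} [MeasurableSpace X] {P : Measure X} [IsProbabilityMeasure P] {m : ℕ}
  {ρ : ℝ}

/-- The density of the Riemannian measure as a smooth family. -/
def wF (g : Geo (2 * m)) : Fm P (2 * m) ρ :=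
  shiftF (F := fun _ y => ((g.θ y).det : ℂ))
    (RF.det (Complex.ofRealCLM.contDiff.comp g.contDiff_det))

theorem wF_val (g : Geo (2 * m)) (x : X) (z v : V (2 * m)) :
    (wF (P := P) (ρ := ρ) g).1 x z v = ((g.θ (z + v)).det : ℂ) := rfl

/-- PROOF. `tr_eq_sum` (KA6): `tr A = ∑_j ⟪sb j, A (sb j)⟫`, `2^m` terms, `‖sb j‖ = 1`; `‖adj A‖ = ‖A‖`. -/
theorem norm_tr_le (ε A B : En m) : ‖tr (ε * (adj A * B))‖ ≤ 2 ^ m * ‖ε‖ * (‖A‖ * ‖B‖) := by
  have hM : ‖ε * (adj A * B)‖ ≤ ‖ε‖ * (‖A‖ * ‖B‖) := by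
    refine (norm_mul_le _ _).trans (mul_le_mul_of_nonneg_left ?_ (norm_nonneg _))
    refine (norm_mul_le _ _).trans (le_of_eq ?_)
    congr 1
    exact (ContinuousLinearMap.adjoint (𝕜 := ℂ) (E := Sp m) (F := Sp m)).norm_map A
  rw [tr_eq_sum]
  have h1 : ∀ j ∈ (Finset.univ : Finset (Fin (2 ^ m))),
      ‖inner ℂ (sb j) ((ε * (adj A * B)) (sb j))‖ ≤ ‖ε‖ * (‖A‖ * ‖B‖) := by
    intro j _
    have hs : ‖(sb j : Sp m)‖ = 1 := by simp [sb]
    refine (norm_inner_le_norm _ _).trans ?_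
    rw [hs, one_mul]
    refine (ContinuousLinearMap.le_opNorm _ _).trans ?_
    rw [hs, mul_one]
    exact hM
  refine (norm_sum_le_of_le _ h1).trans (le_of_eq ?_)
  rw [Finset.sum_const, Finset.card_univ, Fintype.card_fin, nsmul_eq_mul]
  push_cast
  ring

/-- PROOF. `tr` is linear on a finite dimensional space (`trL`), `adj` is continuous. -/
theorem continuous_tr : Continuous (tr : En m → ℂ) := by
  have h : (tr : En m → ℂ) = fun A => ∑ j, inner ℂ (sb j) (A (sb j)) := by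
    funext A
    exact tr_eq_sum A
  rw [h]
  refine continuous_finsetSum _ fun j _ => ?_
  exact continuous_const.inner (ContinuousLinearMap.apply ℂ (Sp m) (sb j)).continuous

/-- PROOF. `(1 + a)^k ≤ 2^k (1 + a^k)` for `a ≥ 0`; `Wp_bd'` with the exponents `0` and `k`. -/
theorem Wp_bd2 (g : Geo (2 * m)) (p : PM (Ix m) (2 * m) (Rg P (2 * m) ρ)) (k : ℕ) :
    ∃ Φ : X → ℝ, Mom P Φ ∧ ∀ x z v r, ‖z‖ ≤ ρ → 0 < r →
      (1 + ‖(√r)⁻¹ • v‖) ^ k * ‖Wp g x z r p v‖ ≤ Φ x * gz m (rate P g ρ) v r := by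
  obtain ⟨Φ₀, h0, hb0⟩ := Wp_bd' (P := P) g p 0
  obtain ⟨Φ₁, h1, hb1⟩ := Wp_bd' (P := P) g p k
  refine ⟨fun x => 2 ^ (k - 1) * (Φ₀ x + Φ₁ x), (h0.add h1).const_mul (by positivity),
    fun x z v r hz hr => ?_⟩
  have e0 := hb0 x z v r hz hr
  have e1 := hb1 x z v r hz hr
  rw [pow_zero, one_mul] at e0
  have h2 := add_pow_le (zero_le_one : (0 : ℝ) ≤ 1) (norm_nonneg ((√r)⁻¹ • v)) k
  rw [one_pow] at h2
  have hW := norm_nonneg (Wp g x z r p v)
  calc (1 + ‖(√r)⁻¹ • v‖) ^ k * ‖Wp g x z r p v‖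
      ≤ 2 ^ (k - 1) * (1 + ‖(√r)⁻¹ • v‖ ^ k) * ‖Wp g x z r p v‖ :=
        mul_le_mul_of_nonneg_right h2 hW
    _ = 2 ^ (k - 1) * (‖Wp g x z r p v‖ + ‖(√r)⁻¹ • v‖ ^ k * ‖Wp g x z r p v‖) := by ring
    _ ≤ 2 ^ (k - 1) * (Φ₀ x * gz m (rate P g ρ) v r + Φ₁ x * gz m (rate P g ρ) v r) :=
        mul_le_mul_of_nonneg_left (add_le_add e0 e1) (by positivity)
    _ = 2 ^ (k - 1) * (Φ₀ x + Φ₁ x) * gz m (rate P g ρ) v r := by ring

/-! ### integrals of Gaussians -/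

/-- PROOF. `GaussianFourier.integral_rexp_neg_mul_sq_norm` (or `integrable_exp_neg_mul_sq_norm`...) with
`b = c / r`. -/
theorem integrable_gz {c r : ℝ} (hc : 0 < c) (hr : 0 < r) :
    Integrable (fun v : V (2 * m) => gz m c v r) := by
  have hb : 0 < c / r := div_pos hc hr
  have h1 : Integrable (fun v : V (2 * m) => Real.exp (-(c / r) * ‖v‖ ^ 2)) := by
    by_contra hn
    have h2 := integral_undef hn
    rw [GaussianFourier.integral_rexp_neg_mul_sq_norm hb] at h2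
    have h3 : 0 < (π / (c / r)) ^ (Module.finrank ℝ (V (2 * m)) / 2 : ℝ) :=
      Real.rpow_pos_of_pos (div_pos Real.pi_pos hb) _
    exact h3.ne' h2
  have h2 : (fun v : V (2 * m) => gz m c v r) =
      fun v => (r ^ m)⁻¹ * Real.exp (-(c / r) * ‖v‖ ^ 2) := by
    funext v
    rw [gz]
    congr 2
    ring
  rw [h2]
  exact h1.const_mul _

/-- PROOF. `GaussianFourier.integral_rexp_neg_mul_sq_norm` with `b = c / r`: the integral of the exponential is
`(π r / c)^m`. -/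
theorem integral_gz {c r : ℝ} (hc : 0 < c) (hr : 0 < r) :
    ∫ v : V (2 * m), gz m c v r = (π / c) ^ m := by
  have hb : 0 < c / r := div_pos hc hr
  have h2 : (fun v : V (2 * m) => gz m c v r) =
      fun v => (r ^ m)⁻¹ * Real.exp (-(c / r) * ‖v‖ ^ 2) := by
    funext v
    rw [gz]
    congr 2
    ring
  rw [h2, integral_const_mul, GaussianFourier.integral_rexp_neg_mul_sq_norm hb]
  have h3 : (Module.finrank ℝ (V (2 * m)) / 2 : ℝ) = (m : ℝ) := by
    rw [finrank_euclideanSpace_fin]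
    push_cast
    ring
  rw [h3, Real.rpow_natCast]
  have h4 : π / (c / r) = r * (π / c) := by
    field_simp
  rw [h4, mul_pow, ← mul_assoc, inv_mul_cancel₀ (pow_pos hr m).ne', one_mul]

/-- PROOF. `gz m c v r ^ 2 = (r^m)⁻¹ * gz m (2 * c) v r`. -/
theorem integral_gz_sq {c r : ℝ} (hc : 0 < c) (hr : 0 < r) :
    Integrable (fun v : V (2 * m) => gz m c v r ^ 2) ∧
      ∫ v : V (2 * m), gz m c v r ^ 2 = (r ^ m)⁻¹ * (π / (2 * c)) ^ m := by
  have h1 : (fun v : V (2 * m) => gz m c v r ^ 2) = fun v => (r ^ m)⁻¹ * gz m (2 * c) v r := by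
    funext v
    rw [gz, gz, mul_pow, ← Real.exp_nat_mul, sq, mul_assoc]
    congr 3
    push_cast
    ring
  rw [h1]
  refine ⟨(integrable_gz (by positivity) hr).const_mul _, ?_⟩
  rw [integral_const_mul, integral_gz (by positivity) hr]

/-- PROOF. `MeasureTheory.Measure.integral_comp_smul`, `finrank = 2 m`, `(√r)^(2m) = r^m`. -/
theorem integral_scale {E : Type*} [NormedAddCommGroup E] [NormedSpace ℝ E] (f : V (2 * m) → E)
    {r : ℝ} (hr : 0 < r) : ∫ v, f v = (r ^ m : ℝ) • ∫ η, f ((√r) • η) := by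
  have h1 := MeasureTheory.Measure.integral_comp_smul (volume : Measure (V (2 * m))) f (√r)
  have h2 : (√r) ^ Module.finrank ℝ (V (2 * m)) = r ^ m := by
    rw [finrank_euclideanSpace_fin, pow_mul, Real.sq_sqrt hr.le]
  rw [h2, abs_of_pos (inv_pos.2 (pow_pos hr m))] at h1
  rw [h1, smul_smul, mul_inv_cancel₀ (pow_pos hr m).ne', one_smul]

/-! ### one term -/

/-- Scaling. -/
theorem Wp_scale (g : Geo (2 * m)) (x : X) (z η : V (2 * m)) {r : ℝ} (hr : 0 < r)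
    (p : PM (Ix m) (2 * m) (Rg P (2 * m) ρ)) :
    Wp g x z r p ((√r) • η) = (((r ^ m)⁻¹ : ℝ) : ℂ) • Wp g x z 1 p η := by
  have h1 : (√r)⁻¹ • ((√r) • η) = η := by
    rw [smul_smul, inv_mul_cancel₀ (Real.sqrt_ne_zero'.2 hr), one_smul]
  have h2 : gs g z ((√r) • η) r = (r ^ m)⁻¹ * gs g z η 1 := by
    unfold gs
    have h3 : r * qf g z η / (4 * r) = qf g z η / 4 := by
      field_simp
    rw [qf_smul, Real.sq_sqrt hr.le, mul_one, mul_one, mul_pow (4 * π) r m, mul_inv, h3]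
    ring
  unfold Wp
  rw [h1, h2, Real.sqrt_one, inv_one, one_smul, smul_smul]
  push_cast
  rfl

/-- The integrand. -/
def jF (g : Geo (2 * m)) (ε : En m) (p q : PM (Ix m) (2 * m) (Rg P (2 * m) ρ)) (k : ℕ)
    (x : X) (z : V (2 * m)) (r : ℝ) (v : V (2 * m)) : ℂ :=
  ev x z v (tay k (wF (P := P) (ρ := ρ) g)) * tr (ε * (adj (Wp g x z r p v) * Wp g x z r q v))

/-- The coefficients of the expansion. -/
def jI (g : Geo (2 * m)) (ε : En m) (p q : PM (Ix m) (2 * m) (Rg P (2 * m) ρ)) (k : ℕ)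
    (x : X) (z : V (2 * m)) : ℂ :=
  ∫ η, jF g ε p q k x z 1 η

/-- The bound of the integrand. -/
theorem jF_bd (g : Geo (2 * m)) (ε : En m) (p q : PM (Ix m) (2 * m) (Rg P (2 * m) ρ)) (k l : ℕ) :
    ∃ Φ : X → ℝ, Mom P Φ ∧ ∀ x z v r, ‖z‖ ≤ ρ → 0 < r →
      ‖(√r)⁻¹ • v‖ ^ l * ‖jF g ε p q k x z r v‖ ≤ Φ x * ((√r) ^ k * gz m (rate P g ρ) v r ^ 2) := by
  obtain ⟨Φ₁, M, hΦ₁, h1⟩ := ev_bd (tay k (wF (P := P) (ρ := ρ) g))
  obtain ⟨Φ₂, hΦ₂, h2⟩ := Wp_bd2 g p (l + M)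
  obtain ⟨Φ₃, hΦ₃, h3⟩ := Wp_bd2 g q 0
  have hc : (0 : ℝ) ≤ 2 ^ m * ‖ε‖ := by positivity
  refine ⟨_, ((hΦ₁.mul hΦ₂).mul hΦ₃).const_mul hc, fun x z v r hz hr => ?_⟩
  have e2 := h2 x z v r hz hr
  have e3 := h3 x z v r hz hr
  rw [pow_zero, one_mul] at e3
  have e4 : ‖ev x z v (tay k (wF (P := P) (ρ := ρ) g))‖ ≤
      (√r) ^ k * (Φ₁ x * (1 + ‖(√r)⁻¹ • v‖) ^ M) := by
    have e5 : (√r) • ((√r)⁻¹ • v) = v := by
      rw [smul_smul, mul_inv_cancel₀ (Real.sqrt_ne_zero'.2 hr), one_smul]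
    have e6 := ev_tay_smul k (wF (P := P) (ρ := ρ) g) x z ((√r)⁻¹ • v) (√r)
    rw [e5] at e6
    rw [e6, norm_mul, norm_pow, Complex.norm_real, Real.norm_of_nonneg (Real.sqrt_nonneg r)]
    exact mul_le_mul_of_nonneg_left (h1 x z ((√r)⁻¹ • v) hz) (by positivity)
  have e7 := norm_tr_le ε (Wp g x z r p v) (Wp g x z r q v)
  have e8 : ‖(√r)⁻¹ • v‖ ^ l ≤ (1 + ‖(√r)⁻¹ • v‖) ^ l :=
    pow_le_pow_left₀ (norm_nonneg _) (by linarith) l
  have hgz : 0 ≤ gz m (rate P g ρ) v r := by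
    unfold gz
    positivity
  have hΦ1 := hΦ₁.nonneg x
  have hΦ2 := hΦ₂.nonneg x
  unfold jF
  rw [norm_mul]
  calc ‖(√r)⁻¹ • v‖ ^ l * (‖ev x z v (tay k (wF (P := P) (ρ := ρ) g))‖ *
        ‖tr (ε * (adj (Wp g x z r p v) * Wp g x z r q v))‖) ≤
      (1 + ‖(√r)⁻¹ • v‖) ^ l * ((√r) ^ k * (Φ₁ x * (1 + ‖(√r)⁻¹ • v‖) ^ M) *
        (2 ^ m * ‖ε‖ * (‖Wp g x z r p v‖ * ‖Wp g x z r q v‖))) := by
        gcongr
    _ = 2 ^ m * ‖ε‖ * (√r) ^ k * Φ₁ x * ((1 + ‖(√r)⁻¹ • v‖) ^ (l + M) * ‖Wp g x z r p v‖ *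
        ‖Wp g x z r q v‖) := by
        rw [pow_add]
        ring
    _ ≤ 2 ^ m * ‖ε‖ * (√r) ^ k * Φ₁ x * (Φ₂ x * gz m (rate P g ρ) v r *
        (Φ₃ x * gz m (rate P g ρ) v r)) := by
        refine mul_le_mul_of_nonneg_left ?_ (by positivity)
        exact mul_le_mul e2 e3 (norm_nonneg _) (by positivity)
    _ = _ := by ring

/-- The integrand is integrable. -/
theorem integrable_jF (g : Geo (2 * m)) (ε : En m) (p q : PM (Ix m) (2 * m) (Rg P (2 * m) ρ))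
    (k : ℕ) (x : X) {z : V (2 * m)} (hz : ‖z‖ ≤ ρ) {r : ℝ} (hr : 0 < r) :
    Integrable (jF g ε p q k x z r) := by
  obtain ⟨Φ, -, h1⟩ := jF_bd g ε p q k 0
  have hc : Continuous (jF g ε p q k x z r) := by
    have h2 : Continuous fun v => ev x z v (tay k (wF (P := P) (ρ := ρ) g)) :=
      (continuous_ev x _).comp (continuous_const.prodMk continuous_id)
    have h3 : Continuous fun v => adj (Wp g x z r p v) :=
      (ContinuousLinearMap.adjoint (𝕜 := ℂ) (E := Sp m) (F := Sp m)).continuous.comp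
        (contDiff_Wp g x z r p).continuous
    have h4 : Continuous fun v => ε * (adj (Wp g x z r p v) * Wp g x z r q v) :=
      continuous_const.mul (h3.mul (contDiff_Wp g x z r q).continuous)
    exact h2.mul (continuous_tr.comp h4)
  refine (((integral_gz_sq (rate_pos P g ρ) hr).1.const_mul ((√r) ^ k)).const_mul (Φ x)).mono'
    hc.aestronglyMeasurable (Filter.Eventually.of_forall fun v => ?_)
  have h2 := h1 x z v r hz hr
  rwa [pow_zero, one_mul] at h2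

/-- The integral, by scaling. -/
theorem integral_jF (g : Geo (2 * m)) (ε : En m) (p q : PM (Ix m) (2 * m) (Rg P (2 * m) ρ))
    (k : ℕ) (x : X) (z : V (2 * m)) {r : ℝ} (hr : 0 < r) :
    ∫ v, jF g ε p q k x z r v = (((√r) ^ k * (r ^ m)⁻¹ : ℝ) : ℂ) * jI g ε p q k x z := by
  have h1 : ∀ η, jF g ε p q k x z r ((√r) • η) =
      (((√r) ^ k * ((r ^ m)⁻¹ * (r ^ m)⁻¹) : ℝ) : ℂ) * jF g ε p q k x z 1 η := by
    intro η
    unfold jF
    rw [ev_tay_smul, Wp_scale g x z η hr, Wp_scale g x z η hr, adj_smul, Complex.conj_ofReal,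
      smul_mul_smul_comm, mul_smul_comm, tr_smul]
    push_cast
    ring
  have hr' : ((r ^ m : ℝ) : ℂ) ≠ 0 := by
    exact_mod_cast (pow_pos hr m).ne'
  rw [integral_scale _ hr]
  simp only [h1]
  rw [integral_const_mul, Complex.real_smul, ← mul_assoc, ← Complex.ofReal_mul]
  unfold jI
  congr 2
  have h2 : (r ^ m : ℝ) ≠ 0 := (pow_pos hr m).ne'
  field_simp

/-- PROOF. `jF_bd` with `l = 0`, `r = 1`, `integral_gz_sq`. -/
theorem jI_bd (g : Geo (2 * m)) (ε : En m) (p q : PM (Ix m) (2 * m) (Rg P (2 * m) ρ)) (k : ℕ) :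
    ∃ Φ : X → ℝ, Mom P Φ ∧ ∀ x z, ‖z‖ ≤ ρ → ‖jI g ε p q k x z‖ ≤ Φ x := by
  obtain ⟨Φ, hΦ, h⟩ := jF_bd g ε p q k 0
  have hc := rate_pos P g ρ
  refine ⟨fun x => (π / (2 * rate P g ρ)) ^ m * Φ x, hΦ.const_mul (by positivity), ?_⟩
  intro x z hz
  obtain ⟨h1, h2⟩ := integral_gz_sq (m := m) hc one_pos
  have h3 : ∀ v, ‖jF g ε p q k x z 1 v‖ ≤ Φ x * gz m (rate P g ρ) v 1 ^ 2 := by
    intro v
    have h4 := h x z v 1 hz one_pos
    rw [pow_zero, one_mul, Real.sqrt_one, one_pow, one_mul] at h4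
    exact h4
  have h5 := norm_integral_le_of_norm_le (h1.const_mul (Φ x)) (Filter.Eventually.of_forall h3)
  rw [integral_const_mul, h2, one_pow, inv_one, one_mul] at h5
  refine h5.trans (le_of_eq ?_)
  ring

/-- PROOF. The integrand is jointly continuous in `(z, η)`; `StronglyMeasurable.integral_prod_right`. -/
theorem jI_meas (g : Geo (2 * m)) (ε : En m) (p q : PM (Ix m) (2 * m) (Rg P (2 * m) ρ)) (k : ℕ)
    (x : X) : StronglyMeasurable (jI g ε p q k x) := by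
  have hW : ∀ p : PM (Ix m) (2 * m) (Rg P (2 * m) ρ),
      Continuous fun q : V (2 * m) × V (2 * m) => Wp g x q.1 1 p q.2 := by
    intro p
    have h := (continuousOn_Wp g x p).comp_continuous (f := fun q : V (2 * m) × V (2 * m) =>
      ((1 : ℝ), q.1, q.2)) (by fun_prop) (fun q => show (0 : ℝ) < 1 from one_pos)
    exact h
  have hadj : Continuous (adj : En m → En m) :=
    (ContinuousLinearMap.adjoint (𝕜 := ℂ) (E := Sp m) (F := Sp m)).continuous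
  have hc : Continuous fun y : V (2 * m) × V (2 * m) => jF g ε p q k x y.1 1 y.2 := by
    unfold jF
    refine (continuous_ev x _).mul (continuous_tr.comp ?_)
    exact continuous_const.mul ((hadj.comp (hW p)).mul (hW q))
  exact StronglyMeasurable.integral_prod_right
    (f := fun z η => jF g ε p q k x z 1 η) hc.stronglyMeasurable

/-- The integrand with the cutoff and the density. -/
def cF (g : Geo (2 * m)) (ε : En m) (p q : PM (Ix m) (2 * m) (Rg P (2 * m) ρ))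
    (x : X) (z : V (2 * m)) (r : ℝ) (v : V (2 * m)) : ℂ :=
  (chi v : ℂ) ^ 2 * ((g.θ (z + v)).det : ℂ) * tr (ε * (adj (Wp g x z r p v) * Wp g x z r q v))

/-- PROOF. Continuous with compact support in `v` (`chi_zero`). -/
theorem integrable_cF (g : Geo (2 * m)) (ε : En m) (p q : PM (Ix m) (2 * m) (Rg P (2 * m) ρ))
    (x : X) (z : V (2 * m)) {r : ℝ} (hr : 0 < r) : Integrable (cF g ε p q x z r) := by
  have hadj : Continuous (adj : En m → En m) :=
    (ContinuousLinearMap.adjoint (𝕜 := ℂ) (E := Sp m) (F := Sp m)).continuous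
  have hc : Continuous (cF g ε p q x z r) := by
    unfold cF
    refine (((Complex.continuous_ofReal.comp contDiff_chi.continuous).pow 2).mul
      (Complex.continuous_ofReal.comp (g.continuous_det.comp
        (continuous_const.add continuous_id)))).mul (continuous_tr.comp ?_)
    exact continuous_const.mul ((hadj.comp (contDiff_Wp g x z r p).continuous).mul
      (contDiff_Wp g x z r q).continuous)
  refine hc.integrable_of_hasCompactSupport
    (HasCompactSupport.intro (isCompact_closedBall (0 : V (2 * m)) 1) fun v hv => ?_)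
  rw [mem_closedBall_zero_iff, not_le] at hv
  unfold cF
  rw [chi_zero hv.le]
  simp

/-- **The expansion of one term.**
PROOF. `det θ(z+v) = ∑_{k<K} ev x z v (tay k wF) + rem K wF x z v` (`f_eq`, `wF_val`). So
`cF - ∑_{k<K} jF k = - (1 - chi²) ∑_{k<K} jF k + chi² rem_K tr(..)`, and by `integral_jF` it is enough to bound
the integrals of the two error terms by `Φ x (√r)^K (r^m)⁻¹`. First: where `chi v ≠ 1` one has `1 ≤ 2 ‖v‖`,
`1 ≤ (2 √r ‖η‖)^K`, `η = (√r)⁻¹ • v`, and `jF_bd` with `l = K` (`(√r)^k ≤ 1`). Second: it is zero for `‖v‖ ≥ 1`, and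
`‖rem_K‖ ≤ Φ ‖v‖^K = Φ (√r)^K ‖η‖^K` (`rem_bd`), `norm_tr_le`, `Wp_bd2` (`‖η‖^K ≤ (1 + ‖η‖)^K`). The integral of
`gz²` is `integral_gz_sq`. -/
theorem int_expand (g : Geo (2 * m)) (ε : En m) (p q : PM (Ix m) (2 * m) (Rg P (2 * m) ρ))
    (K : ℕ) : ∃ Φ : X → ℝ, Mom P Φ ∧ ∀ x z r, ‖z‖ ≤ ρ → 0 < r → r ≤ 1 →
      ‖(∫ v, cF g ε p q x z r v)
        - ∑ k ∈ Finset.range K, (((√r) ^ k * (r ^ m)⁻¹ : ℝ) : ℂ) * jI g ε p q k x z‖
        ≤ Φ x * ((√r) ^ K * (r ^ m)⁻¹) := by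
  classical
  choose Φ hΦ hb using fun k => jF_bd (P := P) (ρ := ρ) g ε p q k K
  obtain ⟨ΦR, hΦR, hR⟩ := rem_bd K (wF (P := P) (ρ := ρ) g)
  obtain ⟨Φp, hΦp, hp⟩ := Wp_bd' g p K
  obtain ⟨Φq, hΦq, hq⟩ := Wp_bd' g q 0
  have hc := rate_pos P g ρ
  refine ⟨fun x => (π / (2 * rate P g ρ)) ^ m * (∑ k ∈ Finset.range K, 2 ^ K * Φ k x
    + 2 ^ m * ‖ε‖ * (ΦR x * (Φp x * Φq x))), ?_, ?_⟩
  · refine Mom.const_mul (Mom.add (Mom.sum _ fun k _ => (hΦ k).const_mul (by positivity)) ?_)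
      (by positivity)
    exact (hΦR.mul (hΦp.mul hΦq)).const_mul (by positivity)
  intro x z r hz hr hr1
  obtain ⟨h1, h2⟩ := integral_gz_sq (m := m) hc hr
  have hs0 : 0 < √r := Real.sqrt_pos.2 hr
  have hs1 : √r ≤ 1 := Real.sqrt_le_one.2 hr1
  have hgz : ∀ v, 0 ≤ gz m (rate P g ρ) v r := fun v => by
    unfold gz
    positivity
  have hnv : ∀ v : V (2 * m), ‖v‖ = √r * ‖(√r)⁻¹ • v‖ := fun v => by
    rw [norm_smul, Real.norm_of_nonneg (inv_nonneg.2 hs0.le), ← mul_assoc,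
      mul_inv_cancel₀ hs0.ne', one_mul]
  have hJ : ∀ k, Integrable (jF g ε p q k x z r) := fun k => integrable_jF g ε p q k x hz hr
  have e1 : ∑ k ∈ Finset.range K, (((√r) ^ k * (r ^ m)⁻¹ : ℝ) : ℂ) * jI g ε p q k x z
      = ∫ v, ∑ k ∈ Finset.range K, jF g ε p q k x z r v := by
    rw [integral_finsetSum _ fun k _ => hJ k]
    exact Finset.sum_congr rfl fun k _ => (integral_jF g ε p q k x z hr).symm
  rw [e1, ← integral_sub (integrable_cF g ε p q x z hr) (integrable_finsetSum _ fun k _ => hJ k)]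
  have key : ∀ v, ‖cF g ε p q x z r v - ∑ k ∈ Finset.range K, jF g ε p q k x z r v‖
      ≤ ((√r) ^ K * (∑ k ∈ Finset.range K, 2 ^ K * Φ k x
        + 2 ^ m * ‖ε‖ * (ΦR x * (Φp x * Φq x)))) * gz m (rate P g ρ) v r ^ 2 := by
    intro v
    set D := tr (ε * (adj (Wp g x z r p v) * Wp g x z r q v)) with hD
    have e2 : ((g.θ (z + v)).det : ℂ) = ∑ k ∈ Finset.range K,
        ev x z v (tay k (wF (P := P) (ρ := ρ) g)) + rem K (wF (P := P) (ρ := ρ) g) x z v :=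
      f_eq K (wF (P := P) (ρ := ρ) g) x z v
    have e3 : cF g ε p q x z r v - ∑ k ∈ Finset.range K, jF g ε p q k x z r v
        = ∑ k ∈ Finset.range K, (((chi v : ℝ) : ℂ) ^ 2 - 1) * jF g ε p q k x z r v
          + ((chi v : ℝ) : ℂ) ^ 2 * (rem K (wF (P := P) (ρ := ρ) g) x z v * D) := by
      have e4 : ∑ k ∈ Finset.range K, jF g ε p q k x z r v
          = (∑ k ∈ Finset.range K, ev x z v (tay k (wF (P := P) (ρ := ρ) g))) * D := by
        rw [Finset.sum_mul]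
        rfl
      rw [← Finset.mul_sum, e4]
      show ((chi v : ℝ) : ℂ) ^ 2 * ((g.θ (z + v)).det : ℂ) * D - _ = _
      rw [e2]
      ring
    have hchi0 := chi_nonneg v
    have hchi1 := chi_le_one v
    have t1 : ‖∑ k ∈ Finset.range K, (((chi v : ℝ) : ℂ) ^ 2 - 1) * jF g ε p q k x z r v‖
        ≤ ∑ k ∈ Finset.range K, (√r) ^ K * (2 ^ K * Φ k x) * gz m (rate P g ρ) v r ^ 2 := by
      refine (norm_sum_le _ _).trans (Finset.sum_le_sum fun k _ => ?_)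
      rw [norm_mul]
      have hn : ‖((chi v : ℝ) : ℂ) ^ 2 - 1‖ ≤ 1 := by
        rw [← Complex.ofReal_pow, ← Complex.ofReal_one, ← Complex.ofReal_sub, Complex.norm_real,
          Real.norm_eq_abs, abs_le]
        constructor
        · nlinarith [sq_nonneg (chi v)]
        · nlinarith
      have hΦ0 := (hΦ k).nonneg x
      have hR0 : 0 ≤ (√r) ^ K * (2 ^ K * Φ k x) * gz m (rate P g ρ) v r ^ 2 := by positivity
      by_cases hv : ‖v‖ ≤ 1 / 2
      · rw [chi_one hv]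
        simpa using hR0
      · have h3 : (1 : ℝ) ≤ 2 * (√r * ‖(√r)⁻¹ • v‖) := by
          rw [← hnv]
          linarith
        have h4 : (1 : ℝ) ≤ (2 * (√r * ‖(√r)⁻¹ • v‖)) ^ K := one_le_pow₀ h3
        calc ‖((chi v : ℝ) : ℂ) ^ 2 - 1‖ * ‖jF g ε p q k x z r v‖
            ≤ 1 * ‖jF g ε p q k x z r v‖ := by gcongr
          _ ≤ (2 * (√r * ‖(√r)⁻¹ • v‖)) ^ K * ‖jF g ε p q k x z r v‖ := by gcongr
          _ = 2 ^ K * (√r) ^ K * (‖(√r)⁻¹ • v‖ ^ K * ‖jF g ε p q k x z r v‖) := by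
            rw [mul_pow, mul_pow]
            ring
          _ ≤ 2 ^ K * (√r) ^ K * (Φ k x * ((√r) ^ k * gz m (rate P g ρ) v r ^ 2)) := by
            exact mul_le_mul_of_nonneg_left (hb k x z v r hz hr) (by positivity)
          _ ≤ 2 ^ K * (√r) ^ K * (Φ k x * (1 * gz m (rate P g ρ) v r ^ 2)) := by
            gcongr
            exact pow_le_one₀ hs0.le hs1
          _ = (√r) ^ K * (2 ^ K * Φ k x) * gz m (rate P g ρ) v r ^ 2 := by ring
    have t2 : ‖((chi v : ℝ) : ℂ) ^ 2 * (rem K (wF (P := P) (ρ := ρ) g) x z v * D)‖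
        ≤ (√r) ^ K * (2 ^ m * ‖ε‖ * (ΦR x * (Φp x * Φq x))) * gz m (rate P g ρ) v r ^ 2 := by
      have hR0 := hΦR.nonneg x
      have hp0 := hΦp.nonneg x
      have hq0 := hΦq.nonneg x
      by_cases hv : 1 ≤ ‖v‖
      · rw [chi_zero hv]
        simp only [Complex.ofReal_zero, ne_eq, OfNat.ofNat_ne_zero, not_false_eq_true, zero_pow,
          zero_mul, norm_zero]
        positivity
      · have hv1 : ‖v‖ ≤ 1 := (not_le.1 hv).le
        have hn : ‖((chi v : ℝ) : ℂ) ^ 2‖ ≤ 1 := by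
          rw [norm_pow, Complex.norm_real, Real.norm_of_nonneg hchi0]
          exact pow_le_one₀ hchi0 hchi1
        have h5 := hp x z v r hz hr
        have h6 := hq x z v r hz hr
        rw [pow_zero, one_mul] at h6
        calc ‖((chi v : ℝ) : ℂ) ^ 2 * (rem K (wF (P := P) (ρ := ρ) g) x z v * D)‖
            = ‖((chi v : ℝ) : ℂ) ^ 2‖ * (‖rem K (wF (P := P) (ρ := ρ) g) x z v‖ * ‖D‖) := by
              rw [norm_mul, norm_mul]
          _ ≤ 1 * ((ΦR x * ‖v‖ ^ K) *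
                (2 ^ m * ‖ε‖ * (‖Wp g x z r p v‖ * ‖Wp g x z r q v‖))) := by
              gcongr
              · exact hR x z v hz hv1
              · exact norm_tr_le _ _ _
          _ = (√r) ^ K * (2 ^ m * ‖ε‖) * ΦR x *
                ((‖(√r)⁻¹ • v‖ ^ K * ‖Wp g x z r p v‖) * ‖Wp g x z r q v‖) := by
              rw [hnv v, mul_pow]
              ring
          _ ≤ (√r) ^ K * (2 ^ m * ‖ε‖) * ΦR x *
                ((Φp x * gz m (rate P g ρ) v r) * (Φq x * gz m (rate P g ρ) v r)) := by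
              have := hgz v
              gcongr
          _ = _ := by ring
    rw [e3]
    refine (norm_add_le _ _).trans ((add_le_add t1 t2).trans (le_of_eq ?_))
    rw [← Finset.sum_mul, ← Finset.mul_sum]
    ring
  have h5 := norm_integral_le_of_norm_le (h1.const_mul _) (Filter.Eventually.of_forall key)
  rw [integral_const_mul, h2] at h5
  refine h5.trans (le_of_eq ?_)
  ring

end Pool.Agent.Lib.MP_df705a_gt.RL
end
end
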