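import Pool.Agent.Lib.MP_df705a_gt.Mg.G050
import Pool.Agent.Lib.MP_df705a_gt.Mg.G048
import Pool.Agent.Lib.MP_df705a_gt.Mg.G035

section

/-!
# RL2 parametrix: the expansion of the trace
-/

open scoped ContDiff InnerProductSpace Matrix Real
open MeasureTheory

noncomputable section

set_option linter.unusedSectionVars false

namespace Pool.Agent.Lib.MP_df705a_gt.RL

variable {X : Type*} [MeasurableSpace X] {P : Measure X} [IsProbabilityMeasure P] {m : ℕ}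
  {ρ : ℝ}

namespace Op

/-- PROOF. Definitions of `U` and `PT`; `Wp_sum`, `Wp_smul_C`. -/
theorem U_eq (g : Geo (2 * m)) (o : Op P m ρ) (J : ℕ) (t : ℝ) (x : X) (z : V (2 * m)) (r : ℝ)
    (v : V (2 * m)) : o.U g J t x z r v = ∑ n ∈ Finset.range (J + 1), ∑ b ∈ Finset.range (n + 1),
      (((√r) ^ n * t ^ b : ℝ) : ℂ) • Wp g x z r ((o.dat g).pp n b) v := by
  unfold Op.U PDat.PT
  refine Finset.sum_congr rfl fun n _ => ?_
  rw [Wp_sum, Finset.smul_sum]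
  refine Finset.sum_congr rfl fun b _ => ?_
  rw [Wp_smul_C]
  refine (smul_smul _ _ _).trans ?_
  push_cast
  rfl

theorem P13A_cl (ε A B : En m) (c : ℝ) :
    tr (ε * (adj ((c : ℂ) • A) * B)) = (c : ℂ) * tr (ε * (adj A * B)) := by
  rw [adj_smul, Complex.conj_ofReal, ← tr_smul]
  congr 1
  ext u : 1
  exact map_smul ε (c : ℂ) (adj A (B u))

theorem P13A_cr (ε A B : En m) (c : ℝ) :
    tr (ε * (A * ((c : ℂ) • B))) = (c : ℂ) * tr (ε * (A * B)) := by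
  rw [← tr_smul]
  congr 1
  ext u : 1
  show ε (A ((c : ℂ) • B u)) = (c : ℂ) • ε (A (B u))
  rw [map_smul, map_smul]

theorem P13A_sl {κ : Type*} (s : Finset κ) (ε B : En m) (A : κ → En m) :
    tr (ε * (adj (∑ i ∈ s, A i) * B)) = ∑ i ∈ s, tr (ε * (adj (A i) * B)) := by
  rw [adj_sum, Finset.sum_mul, Finset.mul_sum, tr_sum]

theorem P13A_sr {κ : Type*} (s : Finset κ) (ε A : En m) (B : κ → En m) :
    tr (ε * (A * ∑ i ∈ s, B i)) = ∑ i ∈ s, tr (ε * (A * B i)) := by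
  rw [Finset.mul_sum, Finset.mul_sum, tr_sum]

/-- PROOF. `U_eq`, `Q = chi • U`; `adj` of a sum and of a real multiple (`adj_sum`, `adj_smul`), `tr` linear. -/
theorem trQ_eq (g : Geo (2 * m)) (o : Op P m ρ) (ε : En m) (J : ℕ) (t : ℝ) (x : X)
    (z : V (2 * m)) (r : ℝ) (v : V (2 * m)) :
    ((g.θ (z + v)).det : ℂ) * tr (ε * (adj (o.Q g J t x z r v) * o.Q g J t x z r v)) =
      ∑ n₁ ∈ Finset.range (J + 1), ∑ b₁ ∈ Finset.range (n₁ + 1),
        ∑ n₂ ∈ Finset.range (J + 1), ∑ b₂ ∈ Finset.range (n₂ + 1),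
          (((√r) ^ (n₁ + n₂) * t ^ (b₁ + b₂) : ℝ) : ℂ) *
            cF g ε ((o.dat g).pp n₁ b₁) ((o.dat g).pp n₂ b₂) x z r v := by
  have hU := o.U_eq g J t x z r v
  have h1 : tr (ε * (adj (o.U g J t x z r v) * o.U g J t x z r v)) =
      ∑ n₁ ∈ Finset.range (J + 1), ∑ b₁ ∈ Finset.range (n₁ + 1),
        ∑ n₂ ∈ Finset.range (J + 1), ∑ b₂ ∈ Finset.range (n₂ + 1),
          (((√r) ^ n₁ * t ^ b₁ : ℝ) : ℂ) * ((((√r) ^ n₂ * t ^ b₂ : ℝ) : ℂ) *
            tr (ε * (adj (Wp g x z r ((o.dat g).pp n₁ b₁) v) *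
              Wp g x z r ((o.dat g).pp n₂ b₂) v))) := by
    rw [hU, P13A_sl]
    refine Finset.sum_congr rfl fun n₁ _ => ?_
    rw [P13A_sl]
    refine Finset.sum_congr rfl fun b₁ _ => ?_
    rw [P13A_sr]
    refine Finset.sum_congr rfl fun n₂ _ => ?_
    rw [P13A_sr]
    refine Finset.sum_congr rfl fun b₂ _ => ?_
    rw [P13A_cl, P13A_cr]
  have h2 : tr (ε * (adj (o.Q g J t x z r v) * o.Q g J t x z r v)) =
      (chi v : ℂ) ^ 2 * tr (ε * (adj (o.U g J t x z r v) * o.U g J t x z r v)) := by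
    unfold Op.Q
    rw [P13A_cl, P13A_cr]
    ring
  rw [h2, h1]
  simp only [Finset.mul_sum]
  refine Finset.sum_congr rfl fun n₁ _ => Finset.sum_congr rfl fun b₁ _ =>
    Finset.sum_congr rfl fun n₂ _ => Finset.sum_congr rfl fun b₂ _ => ?_
  unfold cF
  push_cast
  ring

/-- The coefficient of `(√r)^n r^{-m} t^b` of the trace. -/
def aT (g : Geo (2 * m)) (o : Op P m ρ) (ε : En m) (n b : ℕ) (x : X) (z : V (2 * m)) : ℂ :=
  ∑ n₁ ∈ Finset.range (n + 1), ∑ n₂ ∈ Finset.range (n + 1 - n₁), ∑ b₁ ∈ Finset.range (b + 1),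
    jI g ε ((o.dat g).pp n₁ b₁) ((o.dat g).pp n₂ (b - b₁)) (n - n₁ - n₂) x z

/-- PROOF. `n₁ + n₂ ≤ n < 2 b = 2 b₁ + 2 (b - b₁)`, so `pp n₁ b₁ = 0` or `pp n₂ (b - b₁) = 0`
(`PDat.pp_eq_zero`, `dat_ok`), and `jI = 0` if one of the two matrices is zero (`Wp_zero`). -/
theorem aT_zero (g : Geo (2 * m)) {o : Op P m ρ} (ho : o.Ok) (ε : En m) {n b : ℕ}
    (h : n < 2 * b) (x : X) (z : V (2 * m)) : o.aT g ε n b x z = 0 := by
  unfold Op.aT
  refine Finset.sum_eq_zero fun n₁ h1 => Finset.sum_eq_zero fun n₂ h2 =>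
    Finset.sum_eq_zero fun b₁ h3 => ?_
  rw [Finset.mem_range] at h1 h2 h3
  have hD := dat_ok g ho
  unfold jI
  refine (integral_congr_ae (Filter.Eventually.of_forall fun η => ?_)).trans
    (integral_zero (V (2 * m)) ℂ)
  show jF g ε _ _ _ x z 1 η = 0
  unfold jF
  by_cases h4 : n₁ < 2 * b₁
  · rw [PDat.pp_eq_zero hD n₁ b₁ h4, Wp_zero, adj_zero, zero_mul, mul_zero, tr_zero, mul_zero]
  · rw [PDat.pp_eq_zero hD n₂ (b - b₁) (by omega), Wp_zero, mul_zero, mul_zero, tr_zero, mul_zero]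

theorem P13A_bd {κ : Type*} (s : Finset κ) (f : κ → X → V (2 * m) → ℂ)
    (h : ∀ i, ∃ Φ : X → ℝ, Mom P Φ ∧ ∀ x z, ‖z‖ ≤ ρ → ‖f i x z‖ ≤ Φ x) :
    ∃ Φ : X → ℝ, Mom P Φ ∧ ∀ x z, ‖z‖ ≤ ρ → ‖∑ i ∈ s, f i x z‖ ≤ Φ x := by
  choose Φ hΦ hb using h
  exact ⟨_, Mom.sum s fun i _ => hΦ i, fun x z hz =>
    (norm_sum_le _ _).trans (Finset.sum_le_sum fun i _ => hb i x z hz)⟩

/-- PROOF. `jI_bd`, `Mom.sum`. -/
theorem aT_bd (g : Geo (2 * m)) (o : Op P m ρ) (ε : En m) (n b : ℕ) :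
    ∃ Φ : X → ℝ, Mom P Φ ∧ ∀ x z, ‖z‖ ≤ ρ → ‖o.aT g ε n b x z‖ ≤ Φ x := by
  refine P13A_bd _ _ fun n₁ => P13A_bd _ _ fun n₂ => P13A_bd _ _ fun b₁ => ?_
  exact jI_bd g ε _ _ _

/-- PROOF. `jI_meas`. -/
theorem aT_meas (g : Geo (2 * m)) (o : Op P m ρ) (ε : En m) (n b : ℕ) (x : X) :
    StronglyMeasurable (o.aT g ε n b x) := by
  unfold Op.aT
  refine Finset.stronglyMeasurable_fun_sum _ fun n₁ _ =>
    Finset.stronglyMeasurable_fun_sum _ fun n₂ _ =>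
      Finset.stronglyMeasurable_fun_sum _ fun b₁ _ => ?_
  exact jI_meas g ε _ _ _ x

/-- Rearrangement of finite sums.
PROOF. Both sides are sums over `(n₁, n₂, k, b₁, b₂)`; `J (n₁, b₁) (n₂, b₂) k` vanishes if `2 b₁ > n₁` or
`2 b₂ > n₂` (hypothesis). Left: `n₁, n₂ ≤ 2m`, `k < 2m + 1 - (n₁ + n₂)`, `b₁ ≤ n₁`, `b₂ ≤ n₂`; right: `n₁ + n₂ + k = n ≤ 2m`,
`b₁ + b₂ = b ≤ m`. If `J ≠ 0` then `b₁ + b₂ ≤ (n₁ + n₂) / 2 ≤ m`. (One way: write both sides as sums over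
`Finset.range (2m+1)^3 × Finset.range (2m+1)^2` with `if` and use `Finset.sum_comm`, `Finset.sum_ite_eq`; or
`Finset.sum_bij'`/`Finset.sum_nbij'` on `Finset.sigma` after restricting to the nonzero terms.) -/
theorem sum_rearrange (m : ℕ) (s t : ℂ) (J : ℕ → ℕ → ℕ → ℕ → ℕ → ℂ)
    (hJ : ∀ n₁ b₁ n₂ b₂ k, n₁ < 2 * b₁ ∨ n₂ < 2 * b₂ → J n₁ b₁ n₂ b₂ k = 0) :
    ∑ n₁ ∈ Finset.range (2 * m + 1), ∑ b₁ ∈ Finset.range (n₁ + 1),
      ∑ n₂ ∈ Finset.range (2 * m + 1), ∑ b₂ ∈ Finset.range (n₂ + 1),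
        s ^ (n₁ + n₂) * t ^ (b₁ + b₂) *
          ∑ k ∈ Finset.range (2 * m + 1 - (n₁ + n₂)), s ^ k * J n₁ b₁ n₂ b₂ k
    = ∑ n ∈ Finset.range (2 * m + 1), s ^ n * ∑ b ∈ Finset.range (m + 1), t ^ b *
        ∑ n₁ ∈ Finset.range (n + 1), ∑ n₂ ∈ Finset.range (n + 1 - n₁),
          ∑ b₁ ∈ Finset.range (b + 1), J n₁ b₁ n₂ (b - b₁) (n - n₁ - n₂) := by
  simp only [Finset.mul_sum, Finset.sum_sigma']
  refine Finset.sum_bij_ne_zero
    (fun a _ _ => ⟨a.1 + a.2.2.1 + a.2.2.2.2, a.2.1 + a.2.2.2.1, a.1, a.2.2.1, a.2.1⟩) ?_ ?_ ?_ ?_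
  · rintro ⟨n₁, b₁, n₂, b₂, k⟩ h1 h2
    have h3 : ¬ (n₁ < 2 * b₁ ∨ n₂ < 2 * b₂) := by
      intro h
      apply h2
      simp only [hJ n₁ b₁ n₂ b₂ k h, mul_zero]
    simp only [Finset.mem_sigma, Finset.mem_range] at h1 ⊢
    omega
  · rintro ⟨n₁, b₁, n₂, b₂, k⟩ h1 h2 ⟨n₁', b₁', n₂', b₂', k'⟩ h1' h2' h
    simp only [Sigma.mk.injEq, heq_eq_eq] at h
    obtain ⟨h5, h6, rfl, rfl, rfl⟩ := h
    have h7 : k = k' := by omega
    have h8 : b₂ = b₂' := by omega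
    subst h7 h8
    rfl
  · rintro ⟨n, b, n₁, n₂, b₁⟩ h1 h2
    have h3 : ¬ (n₁ < 2 * b₁ ∨ n₂ < 2 * (b - b₁)) := by
      intro h
      apply h2
      simp only [hJ n₁ b₁ n₂ (b - b₁) (n - n₁ - n₂) h, mul_zero]
    simp only [Finset.mem_sigma, Finset.mem_range] at h1
    have e1 : n₁ + n₂ + (n - n₁ - n₂) = n := by omega
    have e2 : b₁ + (b - b₁) = b := by omega
    refine ⟨⟨n₁, b₁, n₂, b - b₁, n - n₁ - n₂⟩, ?_, ?_, ?_⟩
    · simp only [Finset.mem_sigma, Finset.mem_range]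
      omega
    · simp only at h2 ⊢
      rw [e2]
      intro h
      apply h2
      rw [← h]
      have e3 : s ^ n = s ^ (n₁ + n₂) * s ^ (n - n₁ - n₂) := by rw [← pow_add, e1]
      rw [e3]
      ring
    · simp only [e1, e2]
  · rintro ⟨n₁, b₁, n₂, b₂, k⟩ h1 h2
    have e1 : b₁ + b₂ - b₁ = b₂ := by omega
    have e2 : n₁ + n₂ + k - n₁ - n₂ = k := by omega
    simp only [e1, e2]
    ring

theorem P13C_jI (g : Geo (2 * m)) (ε : En m) {p q : PM (Ix m) (2 * m) (Rg P (2 * m) ρ)}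
    (h : p = 0 ∨ q = 0) (k : ℕ) (x : X) (z : V (2 * m)) : jI g ε p q k x z = 0 := by
  unfold jI
  have h1 : ∀ η, jF g ε p q k x z 1 η = 0 := fun η => by
    have h2 : adj (Wp g x z 1 p η) * Wp g x z 1 q η = 0 := by
      rcases h with rfl | rfl
      · rw [Wp_zero, adj_zero, zero_mul]
      · rw [Wp_zero, mul_zero]
    unfold jF
    rw [h2, mul_zero, tr_zero, mul_zero]
  simp only [h1, integral_zero]

/-- The size of one error term. -/
theorem P13C_real {m n b K : ℕ} {r t φ : ℝ} (hr : 0 < r) (hr1 : r ≤ 1) (ht : |t| ≤ 1)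
    (hφ : 0 ≤ φ) (hK : 2 * m + 1 ≤ n + K) :
    (√r) ^ n * |t| ^ b * (φ * ((√r) ^ K * (r ^ m)⁻¹)) ≤ φ * √r := by
  have h0 : 0 ≤ √r := Real.sqrt_nonneg r
  have h1 : √r ≤ 1 := Real.sqrt_le_one.2 hr1
  have h2 : (√r) ^ (2 * m + 1) = r ^ m * √r := by
    rw [pow_succ, pow_mul, Real.sq_sqrt hr.le]
  have h3 : (√r) ^ (n + K) ≤ r ^ m * √r := h2 ▸ pow_le_pow_of_le_one h0 h1 hK
  have hm : 0 < r ^ m := pow_pos hr m
  have h4 : (√r) ^ (n + K) * (r ^ m)⁻¹ ≤ √r := by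
    rw [← div_eq_mul_inv, div_le_iff₀ hm]
    linarith
  have h5 : |t| ^ b ≤ 1 := pow_le_one₀ (abs_nonneg _) ht
  calc (√r) ^ n * |t| ^ b * (φ * ((√r) ^ K * (r ^ m)⁻¹)) =
        |t| ^ b * (φ * ((√r) ^ (n + K) * (r ^ m)⁻¹)) := by rw [pow_add]; ring
    _ ≤ 1 * (φ * ((√r) ^ (n + K) * (r ^ m)⁻¹)) :=
        mul_le_mul_of_nonneg_right h5 (by positivity)
    _ ≤ φ * √r := by
        rw [one_mul]
        exact mul_le_mul_of_nonneg_left h4 hφ

/-- **The expansion of the trace.**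
PROOF. Integrate `trQ_eq` (`integrable_cF`) with `J = 2 * m`; for every `(n₁, b₁, n₂, b₂)` use `int_expand` with
`K = 2 * m + 1 - (n₁ + n₂)`: the error is
`(√r)^(n₁+n₂) |t|^(b₁+b₂) Φ (√r)^K (r^m)⁻¹ ≤ Φ (√r)^(2m+1) (r^m)⁻¹ = Φ √r` (`n₁ + n₂ + K ≥ 2m + 1`, `√r ≤ 1`,
`(√r)^(2m) = r^m`). The main part is `sum_rearrange` with `s = √r`, `J n₁ b₁ n₂ b₂ k = (r^m)⁻¹ jI`. -/
theorem tr_expand (g : Geo (2 * m)) {o : Op P m ρ} (ho : o.Ok) (ε : En m) :
    ∃ Φ : X → ℝ, Mom P Φ ∧ ∀ x z r t, ‖z‖ ≤ ρ → 0 < r → r ≤ 1 → |t| ≤ 1 →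
      ‖(∫ v, ((g.θ (z + v)).det : ℂ) *
          tr (ε * (adj (o.Q g (2 * m) t x z r v) * o.Q g (2 * m) t x z r v)))
        - ∑ n ∈ Finset.range (2 * m + 1), (((√r) ^ n * (r ^ m)⁻¹ : ℝ) : ℂ) *
            ∑ b ∈ Finset.range (m + 1), (t : ℂ) ^ b * o.aT g ε n b x z‖ ≤ Φ x * √r := by
  choose Φ hΦ h using fun (n₁ b₁ n₂ b₂ : ℕ) =>
    int_expand g ε ((o.dat g).pp n₁ b₁) ((o.dat g).pp n₂ b₂) (2 * m + 1 - (n₁ + n₂))
  refine ⟨fun x => ∑ n₁ ∈ Finset.range (2 * m + 1), ∑ b₁ ∈ Finset.range (n₁ + 1),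
    ∑ n₂ ∈ Finset.range (2 * m + 1), ∑ b₂ ∈ Finset.range (n₂ + 1), Φ n₁ b₁ n₂ b₂ x,
    Mom.sum _ fun _ _ => Mom.sum _ fun _ _ => Mom.sum _ fun _ _ => Mom.sum _ fun _ _ =>
      hΦ _ _ _ _, fun x z r t hz hr hr1 ht => ?_⟩
  have hi : ∀ n₁ b₁ n₂ b₂ : ℕ, Integrable fun v => (((√r) ^ (n₁ + n₂) * t ^ (b₁ + b₂) : ℝ) : ℂ) *
      cF g ε ((o.dat g).pp n₁ b₁) ((o.dat g).pp n₂ b₂) x z r v := fun n₁ b₁ n₂ b₂ =>
    (integrable_cF g ε _ _ x z hr).const_mul _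
  have h1 : (∫ v, ((g.θ (z + v)).det : ℂ) *
          tr (ε * (adj (o.Q g (2 * m) t x z r v) * o.Q g (2 * m) t x z r v))) =
      ∑ n₁ ∈ Finset.range (2 * m + 1), ∑ b₁ ∈ Finset.range (n₁ + 1),
        ∑ n₂ ∈ Finset.range (2 * m + 1), ∑ b₂ ∈ Finset.range (n₂ + 1),
          (((√r) ^ (n₁ + n₂) * t ^ (b₁ + b₂) : ℝ) : ℂ) *
            ∫ v, cF g ε ((o.dat g).pp n₁ b₁) ((o.dat g).pp n₂ b₂) x z r v := by
    simp only [trQ_eq]
    rw [integral_finsetSum _ fun n₁ _ => integrable_finsetSum _ fun b₁ _ =>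
      integrable_finsetSum _ fun n₂ _ => integrable_finsetSum _ fun b₂ _ => hi n₁ b₁ n₂ b₂]
    refine Finset.sum_congr rfl fun n₁ _ => ?_
    rw [integral_finsetSum _ fun b₁ _ =>
      integrable_finsetSum _ fun n₂ _ => integrable_finsetSum _ fun b₂ _ => hi n₁ b₁ n₂ b₂]
    refine Finset.sum_congr rfl fun b₁ _ => ?_
    rw [integral_finsetSum _ fun n₂ _ => integrable_finsetSum _ fun b₂ _ => hi n₁ b₁ n₂ b₂]
    refine Finset.sum_congr rfl fun n₂ _ => ?_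
    rw [integral_finsetSum _ fun b₂ _ => hi n₁ b₁ n₂ b₂]
    exact Finset.sum_congr rfl fun b₂ _ => integral_const_mul _ _
  have h2 : ∑ n ∈ Finset.range (2 * m + 1), (((√r) ^ n * (r ^ m)⁻¹ : ℝ) : ℂ) *
      ∑ b ∈ Finset.range (m + 1), (t : ℂ) ^ b * o.aT g ε n b x z =
      ∑ n₁ ∈ Finset.range (2 * m + 1), ∑ b₁ ∈ Finset.range (n₁ + 1),
        ∑ n₂ ∈ Finset.range (2 * m + 1), ∑ b₂ ∈ Finset.range (n₂ + 1),
          (((√r) ^ (n₁ + n₂) * t ^ (b₁ + b₂) : ℝ) : ℂ) *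
            ∑ k ∈ Finset.range (2 * m + 1 - (n₁ + n₂)), (((√r) ^ k * (r ^ m)⁻¹ : ℝ) : ℂ) *
              jI g ε ((o.dat g).pp n₁ b₁) ((o.dat g).pp n₂ b₂) k x z := by
    have h3 := sum_rearrange m ((√r : ℝ) : ℂ) (t : ℂ)
      (fun n₁ b₁ n₂ b₂ k => (((r ^ m)⁻¹ : ℝ) : ℂ) *
        jI g ε ((o.dat g).pp n₁ b₁) ((o.dat g).pp n₂ b₂) k x z) ?_
    · refine (Eq.trans ?_ h3.symm).trans ?_
      · refine Finset.sum_congr rfl fun n _ => ?_
        have h4 : ∀ b, (t : ℂ) ^ b * ∑ n₁ ∈ Finset.range (n + 1),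
            ∑ n₂ ∈ Finset.range (n + 1 - n₁), ∑ b₁ ∈ Finset.range (b + 1),
              (((r ^ m)⁻¹ : ℝ) : ℂ) * jI g ε ((o.dat g).pp n₁ b₁) ((o.dat g).pp n₂ (b - b₁))
                (n - n₁ - n₂) x z = (((r ^ m)⁻¹ : ℝ) : ℂ) * ((t : ℂ) ^ b * o.aT g ε n b x z) := by
          intro b
          simp only [← Finset.mul_sum]
          unfold aT
          ring
        rw [Complex.ofReal_mul, Complex.ofReal_pow, mul_assoc, Finset.mul_sum]
        congr 1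
        exact Finset.sum_congr rfl fun b _ => (h4 b).symm
      · refine Finset.sum_congr rfl fun n₁ _ => Finset.sum_congr rfl fun b₁ _ =>
          Finset.sum_congr rfl fun n₂ _ => Finset.sum_congr rfl fun b₂ _ => ?_
        rw [Complex.ofReal_mul, Complex.ofReal_pow, Complex.ofReal_pow]
        congr 1
        refine Finset.sum_congr rfl fun k _ => ?_
        rw [Complex.ofReal_mul, Complex.ofReal_pow, mul_assoc]
    · intro n₁ b₁ n₂ b₂ k h5
      have hok := dat_ok g ho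
      rw [P13C_jI g ε (h5.imp (fun h => PDat.pp_eq_zero hok _ _ h)
        (fun h => PDat.pp_eq_zero hok _ _ h)) k x z, mul_zero]
  rw [h1, h2]
  simp only [← Finset.sum_sub_distrib, ← mul_sub, Finset.sum_mul]
  refine (norm_sum_le _ _).trans (Finset.sum_le_sum fun n₁ _ => (norm_sum_le _ _).trans
    (Finset.sum_le_sum fun b₁ _ => (norm_sum_le _ _).trans (Finset.sum_le_sum fun n₂ _ =>
      (norm_sum_le _ _).trans (Finset.sum_le_sum fun b₂ _ => ?_))))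
  rw [norm_mul, Complex.norm_real, norm_mul, norm_pow, norm_pow, Real.norm_eq_abs t,
    Real.norm_of_nonneg (Real.sqrt_nonneg r)]
  refine (mul_le_mul_of_nonneg_left (h n₁ b₁ n₂ b₂ x z r hz hr hr1) (by positivity)).trans ?_
  exact P13C_real hr hr1 ht ((hΦ n₁ b₁ n₂ b₂).nonneg x) (by omega)

/-! ### the top coefficient -/

/-- PROOF. `PDat.pp_top`, then `evM_add`, `evM_sum`, `evM_smul`, `evM_smul_C`, `evM_mapC`; `(F^j).map (evR x z)` is
`(F.map (evR x z))^j` (`Matrix.map_pow` or `RingHom.mapMatrix`), `toEn` is a ring homomorphism. -/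
theorem pp_top_ev (g : Geo (2 * m)) {o : Op P m ρ} (ho : o.Ok)
    (F : Matrix (Ix m) (Ix m) (Rg P (2 * m) ρ))
    (hB1 : ∀ μ, ∃ s : MvPolynomial (Fin (2 * m)) (Rg P (2 * m) ρ),
      (o.dat g).B 1 2 μ = s • (1 : PM (Ix m) (2 * m) (Rg P (2 * m) ρ)))
    (hc1 : ∃ s : MvPolynomial (Fin (2 * m)) (Rg P (2 * m) ρ),
      (o.dat g).c 1 2 = F.map MvPolynomial.C + s • (1 : PM (Ix m) (2 * m) (Rg P (2 * m) ρ)))
    (hB2 : ∀ μ, ∃ s : MvPolynomial (Fin (2 * m)) (Rg P (2 * m) ρ),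
      (o.dat g).B 2 4 μ = s • (1 : PM (Ix m) (2 * m) (Rg P (2 * m) ρ)))
    (hc2 : ∃ s : MvPolynomial (Fin (2 * m)) (Rg P (2 * m) ρ),
      (o.dat g).c 2 4 = s • (1 : PM (Ix m) (2 * m) (Rg P (2 * m) ρ))) (b : ℕ) (x : X)
    (z η : V (2 * m)) : ∃ s : ℕ → ℂ, evM x z η ((o.dat g).pp (2 * b) b) =
      ∑ j ∈ Finset.range b, s j • toEn (F.map fun u => u.1 x z) ^ j
        + ((-1) ^ b / (b.factorial : ℂ)) • toEn (F.map fun u => u.1 x z) ^ b := by
  obtain ⟨s, hs⟩ := PDat.pp_top (dat_ok g ho) F hB1 hc1 hB2 hc2 b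
  have hp : ∀ j : ℕ, toEn ((F ^ j).map fun u => u.1 x z) =
      toEn (F.map fun u => u.1 x z) ^ j := fun j => by
    have h1 : (F ^ j).map (fun u => u.1 x z) = (F.map fun u => u.1 x z) ^ j :=
      map_pow (evR x z).mapMatrix F j
    rw [h1]
    exact map_pow (Matrix.toEuclideanCLM (n := Ix m) (𝕜 := ℂ)) _ j
  refine ⟨fun j => ev x z η (s j), ?_⟩
  rw [hs, evM_add, evM_sum, evM_smul_C, evM_mapC, hp]
  congr 1
  refine Finset.sum_congr rfl fun j _ => ?_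
  rw [evM_smul, evM_mapC, hp]

/-- The algebra of `tr_top`. -/
theorem P13D_alg {R : Type*} [Ring R] [Algebra ℂ R] (T : R →ₗ[ℂ] ℂ) (F : R) {m b₁ b₂ : ℕ}
    (hb : b₁ + b₂ = m) (hT : ∀ j < m, T (F ^ j) = 0) (s₁ s₂ : ℕ → ℂ) (c₁ c₂ : ℂ) :
    T ((∑ j ∈ Finset.range b₁, s₁ j • F ^ j + c₁ • F ^ b₁) *
      (∑ j ∈ Finset.range b₂, s₂ j • F ^ j + c₂ • F ^ b₂)) = c₁ * c₂ * T (F ^ m) := by
  have h : ∀ (a b : ℂ) (i j : ℕ), T ((a • F ^ i) * (b • F ^ j)) = a * b * T (F ^ (i + j)) := by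
    intro a b i j
    rw [smul_mul_smul_comm, ← pow_add, map_smul, smul_eq_mul]
  have h1 : T ((∑ j ∈ Finset.range b₁, s₁ j • F ^ j) * ∑ j ∈ Finset.range b₂, s₂ j • F ^ j) = 0 := by
    rw [Finset.sum_mul_sum, map_sum]
    refine Finset.sum_eq_zero fun i hi => ?_
    rw [map_sum]
    refine Finset.sum_eq_zero fun j hj => ?_
    rw [Finset.mem_range] at hi hj
    rw [h, hT _ (by omega), mul_zero]
  have h2 : T ((∑ j ∈ Finset.range b₁, s₁ j • F ^ j) * (c₂ • F ^ b₂)) = 0 := by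
    rw [Finset.sum_mul, map_sum]
    refine Finset.sum_eq_zero fun i hi => ?_
    rw [Finset.mem_range] at hi
    rw [h, hT _ (by omega), mul_zero]
  have h3 : T ((c₁ • F ^ b₁) * ∑ j ∈ Finset.range b₂, s₂ j • F ^ j) = 0 := by
    rw [Finset.mul_sum, map_sum]
    refine Finset.sum_eq_zero fun i hi => ?_
    rw [Finset.mem_range] at hi
    rw [h, hT _ (by omega), mul_zero]
  rw [add_mul, mul_add, mul_add, map_add, map_add, map_add, h1, h2, h3, h, hb]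
  ring

theorem P13D_adj {m : ℕ} {F : En m} (hsa : adj F = F) (j : ℕ) : adj (F ^ j) = F ^ j := by
  change star (F ^ j) = F ^ j
  rw [star_pow]
  exact congrArg (· ^ j) hsa

/-- PROOF. `pp_top_ev` for both factors, `adj F = F`; the products of lower terms contain `F^j` with `j < m`,
whose traces vanish. (Prove the algebra for an abstract ring if `rw` does not work in `En m`.) -/
theorem tr_top {m : ℕ} (ε F A B : En m) (hsa : adj F = F)
    (htr : ∀ j < m, tr (ε * F ^ j) = 0) {b₁ b₂ : ℕ} (hb : b₁ + b₂ = m)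
    (hA : ∃ s : ℕ → ℂ, A = ∑ j ∈ Finset.range b₁, s j • F ^ j
      + ((-1) ^ b₁ / (b₁.factorial : ℂ)) • F ^ b₁)
    (hB : ∃ s : ℕ → ℂ, B = ∑ j ∈ Finset.range b₂, s j • F ^ j
      + ((-1) ^ b₂ / (b₂.factorial : ℂ)) • F ^ b₂) :
    tr (ε * (adj A * B)) =
      ((-1) ^ m / ((b₁.factorial : ℂ) * (b₂.factorial : ℂ))) * tr (ε * F ^ m) := by
  obtain ⟨s₁, rfl⟩ := hA
  obtain ⟨s₂, rfl⟩ := hB
  have h1 : adj (∑ j ∈ Finset.range b₁, s₁ j • F ^ j
      + ((-1) ^ b₁ / (b₁.factorial : ℂ)) • F ^ b₁) =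
      ∑ j ∈ Finset.range b₁, (starRingEnd ℂ (s₁ j)) • F ^ j
      + ((-1) ^ b₁ / (b₁.factorial : ℂ)) • F ^ b₁ := by
    rw [adj_add, adj_sum, adj_smul, P13D_adj hsa]
    congr 1
    · exact Finset.sum_congr rfl fun j _ => by rw [adj_smul, P13D_adj hsa]
    · rw [map_div₀, map_pow, map_neg, map_one, Complex.conj_natCast]
  rw [h1]
  have h2 := P13D_alg ((trL m).comp (LinearMap.mulLeft ℂ ε)) F hb (fun j hj => htr j hj)
    (fun j => starRingEnd ℂ (s₁ j)) s₂ ((-1) ^ b₁ / (b₁.factorial : ℂ))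
    ((-1) ^ b₂ / (b₂.factorial : ℂ))
  refine h2.trans ?_
  have h3 : ((-1 : ℂ) ^ b₁ / (b₁.factorial : ℂ)) * ((-1) ^ b₂ / (b₂.factorial : ℂ)) =
      (-1) ^ m / ((b₁.factorial : ℂ) * (b₂.factorial : ℂ)) := by
    rw [div_mul_div_comm, ← pow_add, hb]
  rw [h3]
  rfl

end Op

/-- PROOF. `qf g z η = ‖θ(z) η‖²` (`qf_eq`); linear substitution
(`MeasureTheory.Measure.map_linearMap_addHaar_eq_smul_addHaar` or `integral_comp...`), and
`GaussianFourier.integral_rexp_neg_mul_sq_norm` with `b = 1/2`. -/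
theorem integral_qf (g : Geo (2 * m)) (z : V (2 * m)) :
    ∫ η : V (2 * m), Real.exp (-(qf g z η / 2)) = (2 * π) ^ m / (g.θ z).det := by
  have hpos := g.det_pos z
  set L : V (2 * m) →ₗ[ℝ] V (2 * m) := Matrix.toEuclideanLin (g.θ z) with hL
  have hdet : LinearMap.det L = (g.θ z).det := by
    rw [hL, Matrix.toEuclideanLin_eq_toLin, LinearMap.det_toLin]
  have hcont : Continuous L := L.continuous_of_finiteDimensional
  have hq : ∀ η : V (2 * m), Real.exp (-(qf g z η / 2)) = Real.exp (-(1 / 2) * ‖L η‖ ^ 2) := by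
    intro η
    congr 1
    rw [qf_eq, EuclideanSpace.norm_sq_eq]
    have : ∀ a, ‖L η a‖ ^ 2 = (∑ μ, g.θ z a μ * η μ) ^ 2 := by
      intro a
      rw [Real.norm_eq_abs, sq_abs]
      congr 1
    simp only [this]
    ring
  simp only [hq]
  have h1 := GaussianFourier.integral_rexp_neg_mul_sq_norm (V := V (2 * m)) (b := 1 / 2)
    (by norm_num)
  have h2 : ∫ v, Real.exp (-(1 / 2) * ‖v‖ ^ 2) ∂(Measure.map L volume)
      = ∫ η : V (2 * m), Real.exp (-(1 / 2) * ‖L η‖ ^ 2) := by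
    rw [integral_map hcont.measurable.aemeasurable]
    exact (by fun_prop : Continuous fun v : V (2 * m) =>
      Real.exp (-(1 / 2) * ‖v‖ ^ 2)).aestronglyMeasurable
  rw [← h2, Measure.map_linearMap_addHaar_eq_smul_addHaar volume (by rw [hdet]; exact hpos.ne'),
    integral_smul_measure, h1, hdet]
  rw [ENNReal.toReal_ofReal (abs_nonneg _), abs_of_pos (inv_pos.mpr hpos), smul_eq_mul,
    finrank_euclideanSpace_fin]
  have h3 : (((2 * m : ℕ) : ℝ)) / 2 = (m : ℝ) := by push_cast; ring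
  rw [h3, Real.rpow_natCast]
  have h4 : π / (1 / 2) = 2 * π := by ring
  rw [h4]
  ring

/-- PROOF. `Nat.sum_range_choose` divided by `m!`: `∑_{b ≤ m} 1/(b! (m-b)!) = 2^m / m!`. -/
theorem sum_inv_factorial (m : ℕ) :
    ∑ b ∈ Finset.range (m + 1), (1 : ℂ) / ((b.factorial : ℂ) * ((m - b).factorial : ℂ)) =
      2 ^ m / (m.factorial : ℂ) := by
  rw [eq_div_iff (by exact_mod_cast m.factorial_ne_zero), Finset.sum_mul]
  have h1 : ∑ b ∈ Finset.range (m + 1), ((m.choose b : ℕ) : ℂ) = 2 ^ m := by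
    exact_mod_cast Nat.sum_range_choose m
  rw [← h1]
  refine Finset.sum_congr rfl fun b hb => ?_
  rw [Finset.mem_range] at hb
  have h2 := Nat.choose_mul_factorial_mul_factorial (show b ≤ m by omega)
  have hb0 : (b.factorial : ℂ) ≠ 0 := by exact_mod_cast b.factorial_ne_zero
  have hb1 : ((m - b).factorial : ℂ) ≠ 0 := by exact_mod_cast (m - b).factorial_ne_zero
  have h3 : ((m.choose b : ℕ) : ℂ) * b.factorial * (m - b).factorial = m.factorial := by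
    exact_mod_cast h2
  rw [← h3]
  field_simp

namespace Op

theorem P13F_tr_smul (c : ℂ) (A : En m) : tr (c • A) = c * tr A := by
  unfold tr
  rw [ContinuousLinearMap.toLinearMap_smul, map_smul, smul_eq_mul]

theorem P13F_tr_zero : tr (0 : En m) = 0 := by
  unfold tr
  simp

theorem P13F_jI_left (g : Geo (2 * m)) (ε : En m) (q : PM (Ix m) (2 * m) (Rg P (2 * m) ρ))
    (k : ℕ) (x : X) (z : V (2 * m)) : jI g ε (0 : PM (Ix m) (2 * m) (Rg P (2 * m) ρ)) q k x z = 0 := by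
  have h : jF g ε (0 : PM (Ix m) (2 * m) (Rg P (2 * m) ρ)) q k x z 1 = fun _ => 0 := by
    funext η
    simp only [jF]
    rw [Wp_zero]
    simp [P13F_tr_zero]
  unfold jI
  rw [h]
  simp

theorem P13F_jI_right (g : Geo (2 * m)) (ε : En m) (p : PM (Ix m) (2 * m) (Rg P (2 * m) ρ))
    (k : ℕ) (x : X) (z : V (2 * m)) : jI g ε p (0 : PM (Ix m) (2 * m) (Rg P (2 * m) ρ)) k x z = 0 := by
  have h : jF g ε p (0 : PM (Ix m) (2 * m) (Rg P (2 * m) ρ)) k x z 1 = fun _ => 0 := by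
    funext η
    simp only [jF]
    rw [Wp_zero]
    simp [P13F_tr_zero]
  unfold jI
  rw [h]
  simp

theorem P13F_jF (g : Geo (2 * m)) (ε : En m) (p q : PM (Ix m) (2 * m) (Rg P (2 * m) ρ))
    (x : X) (z η : V (2 * m)) : jF g ε p q 0 x z 1 η =
      ((((g.θ z).det * (gs g z η 1) ^ 2 : ℝ)) : ℂ) *
        tr (ε * (adj (evM x z η p) * evM x z η q)) := by
  have h1 : ev x z η (tay 0 (wF (P := P) (ρ := ρ) g)) = ((g.θ z).det : ℂ) := by
    simp only [tay, ev, MvPolynomial.coe_eval₂Hom, MvPolynomial.eval₂_C]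
    change (wF (P := P) (ρ := ρ) g).1 x z 0 = _
    rw [wF_val, add_zero]
  have h2 : ∀ p : PM (Ix m) (2 * m) (Rg P (2 * m) ρ),
      Wp g x z 1 p η = (gs g z η 1 : ℂ) • evM x z η p := by
    intro p
    unfold Wp
    rw [Real.sqrt_one, inv_one, one_smul]
  have h3 : adj ((gs g z η 1 : ℂ) • evM x z η p) = (gs g z η 1 : ℂ) • adj (evM x z η p) := by
    rw [adj, map_smulₛₗ]
    simp
  simp only [jF]
  rw [h1, h2, h2, h3, smul_mul_assoc, mul_smul_comm, mul_smul_comm, mul_smul_comm, P13F_tr_smul,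
    P13F_tr_smul]
  push_cast
  ring

theorem P13F_jI (g : Geo (2 * m)) (ε : En m) (p q : PM (Ix m) (2 * m) (Rg P (2 * m) ρ))
    (x : X) (z : V (2 * m)) (c : ℂ)
    (h : ∀ η, tr (ε * (adj (evM x z η p) * evM x z η q)) = c) :
    jI g ε p q 0 x z = ((((4 * π) ^ m)⁻¹ * (2 ^ m)⁻¹ : ℝ) : ℂ) * c := by
  have h1 : jF g ε p q 0 x z 1 = fun η =>
      ((((g.θ z).det * (((4 * π) ^ m)⁻¹) ^ 2 * Real.exp (-(qf g z η / 2)) : ℝ)) : ℂ) * c := by
    funext η
    rw [P13F_jF, h]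
    congr 2
    unfold gs
    rw [mul_pow, ← Real.exp_nat_mul]
    rw [mul_one, mul_one]
    have : ((2 : ℕ) : ℝ) * -(qf g z η / 4) = -(qf g z η / 2) := by
      push_cast
      ring
    rw [this]
    ring
  unfold jI
  rw [h1, integral_mul_const, integral_complex_ofReal, integral_const_mul, integral_qf]
  congr 2
  have hd : (g.θ z).det ≠ 0 := (g.det_pos z).ne'
  have h4 : ((4 * π) ^ m : ℝ) = (2 * π) ^ m * 2 ^ m := by
    rw [← mul_pow]
    congr 1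
    ring
  have h5 : (2 * π) ^ m ≠ 0 := pow_ne_zero _ (by positivity)
  have h6 : (2 ^ m : ℝ) ≠ 0 := by positivity
  rw [h4]
  field_simp

/-- **The top coefficient.**
PROOF. In `aT` only the terms `n₁ = 2 b₁`, `n₂ = 2 (m - b₁)` remain (`PDat.pp_eq_zero`), `k = 0`. The integrand of
`jI` is `det θ(z) (gs g z η 1)² tr(ε adj(evM ..) evM ..)` (`tay 0 = C (at0 ..)`; `Wp` at `r = 1`), by `tr_top`, `pp_top_ev`
equal to `det θ(z) (4π)^(-2m) exp(-qf/2) (-1)^m / (b₁! (m-b₁)!) tr(ε F^m)`. `integral_qf`, `sum_inv_factorial`: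
`(4π)^(-2m) (2π)^m (-1)^m 2^m / m! = (-1)^m (4π)^(-m) / m!`. -/
theorem aT_top (g : Geo (2 * m)) {o : Op P m ρ} (ho : o.Ok) (ε : En m)
    (F : Matrix (Ix m) (Ix m) (Rg P (2 * m) ρ))
    (hB1 : ∀ μ, ∃ s : MvPolynomial (Fin (2 * m)) (Rg P (2 * m) ρ),
      (o.dat g).B 1 2 μ = s • (1 : PM (Ix m) (2 * m) (Rg P (2 * m) ρ)))
    (hc1 : ∃ s : MvPolynomial (Fin (2 * m)) (Rg P (2 * m) ρ),
      (o.dat g).c 1 2 = F.map MvPolynomial.C + s • (1 : PM (Ix m) (2 * m) (Rg P (2 * m) ρ)))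
    (hB2 : ∀ μ, ∃ s : MvPolynomial (Fin (2 * m)) (Rg P (2 * m) ρ),
      (o.dat g).B 2 4 μ = s • (1 : PM (Ix m) (2 * m) (Rg P (2 * m) ρ)))
    (hc2 : ∃ s : MvPolynomial (Fin (2 * m)) (Rg P (2 * m) ρ),
      (o.dat g).c 2 4 = s • (1 : PM (Ix m) (2 * m) (Rg P (2 * m) ρ)))
    (x : X) (z : V (2 * m))
    (hsa : adj (toEn (F.map fun u => u.1 x z)) = toEn (F.map fun u => u.1 x z))
    (htr : ∀ j < m, tr (ε * toEn (F.map fun u => u.1 x z) ^ j) = 0) :
    o.aT g ε (2 * m) m x z = (((-1) ^ m * ((4 * π) ^ m)⁻¹ / (m.factorial : ℝ) : ℝ) : ℂ)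
      * tr (ε * toEn (F.map fun u => u.1 x z) ^ m) := by
  have hok := dat_ok g ho
  set F' : En m := toEn (F.map fun u => u.1 x z) with hF'
  have hsum : o.aT g ε (2 * m) m x z = ∑ b₁ ∈ Finset.range (m + 1),
      jI g ε ((o.dat g).pp (2 * b₁) b₁) ((o.dat g).pp (2 * (m - b₁)) (m - b₁)) 0 x z := by
    unfold aT
    have e1 : ∀ n₁ ∈ Finset.range (2 * m + 1), ∑ n₂ ∈ Finset.range (2 * m + 1 - n₁),
        ∑ b₁ ∈ Finset.range (m + 1), jI g ε ((o.dat g).pp n₁ b₁) ((o.dat g).pp n₂ (m - b₁))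
          (2 * m - n₁ - n₂) x z = ∑ b₁ ∈ Finset.range (m + 1),
        ∑ n₂ ∈ Finset.range (2 * m + 1 - n₁), jI g ε ((o.dat g).pp n₁ b₁)
          ((o.dat g).pp n₂ (m - b₁)) (2 * m - n₁ - n₂) x z :=
      fun n₁ _ => Finset.sum_comm
    rw [Finset.sum_congr rfl e1, Finset.sum_comm]
    refine Finset.sum_congr rfl fun b₁ hb₁ => ?_
    rw [Finset.mem_range] at hb₁
    rw [Finset.sum_eq_single (2 * b₁), Finset.sum_eq_single (2 * (m - b₁))]
    · congr 1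
      omega
    · intro n₂ hn₂ hne
      rw [Finset.mem_range] at hn₂
      rw [PDat.pp_eq_zero hok n₂ (m - b₁) (by omega)]
      exact P13F_jI_right g ε _ _ x z
    · intro hn
      exact absurd (Finset.mem_range.mpr (by omega)) hn
    · intro n₁ hn₁ hne
      rw [Finset.mem_range] at hn₁
      refine Finset.sum_eq_zero fun n₂ hn₂ => ?_
      rw [Finset.mem_range] at hn₂
      by_cases hlt : n₁ < 2 * b₁
      · rw [PDat.pp_eq_zero hok n₁ b₁ hlt]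
        exact P13F_jI_left g ε _ _ x z
      · rw [PDat.pp_eq_zero hok n₂ (m - b₁) (by omega)]
        exact P13F_jI_right g ε _ _ x z
    · intro hn
      exact absurd (Finset.mem_range.mpr (by omega)) hn
  have hterm : ∀ b₁ ∈ Finset.range (m + 1),
      jI g ε ((o.dat g).pp (2 * b₁) b₁) ((o.dat g).pp (2 * (m - b₁)) (m - b₁)) 0 x z =
        (((((4 * π) ^ m)⁻¹ * (2 ^ m)⁻¹ : ℝ) : ℂ) * ((-1) ^ m * tr (ε * F' ^ m))) *
          ((1 : ℂ) / ((b₁.factorial : ℂ) * ((m - b₁).factorial : ℂ))) := by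
    intro b₁ hb₁
    rw [Finset.mem_range] at hb₁
    rw [P13F_jI g ε _ _ x z (((-1) ^ m / ((b₁.factorial : ℂ) * ((m - b₁).factorial : ℂ))) *
      tr (ε * F' ^ m))]
    · ring
    · intro η
      exact tr_top ε F' _ _ hsa htr (by omega)
        (pp_top_ev g ho F hB1 hc1 hB2 hc2 b₁ x z η)
        (pp_top_ev g ho F hB1 hc1 hB2 hc2 (m - b₁) x z η)
  rw [hsum, Finset.sum_congr rfl hterm, ← Finset.mul_sum, sum_inv_factorial]
  have h2 : (2 : ℂ) ^ m ≠ 0 := pow_ne_zero _ two_ne_zero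
  have h3 : (m.factorial : ℂ) ≠ 0 := by exact_mod_cast m.factorial_ne_zero
  push_cast
  field_simp

end Op

end Pool.Agent.Lib.MP_df705a_gt.RL
end
end

section

/-!
# RL2 parametrix: the square of the Dirac operator as an `Op`
-/

open scoped ContDiff InnerProductSpace Matrix
open MeasureTheory

noncomputable section

set_option linter.unusedSectionVars false

namespace Pool.Agent.Lib.MP_df705a_gt.RL

variable {X : Type*} [MeasurableSpace X] {P : Measure X} [IsProbabilityMeasure P] {N m : ℕ}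
  {ρ : ℝ}

/-! ### deterministic coefficients -/

/-- The entries of the matrix of a smooth function are smooth. -/
theorem contDiff_ofEn {A : V (2 * m) → En m} (hA : ContDiff ℝ ∞ A) (i j : Ix m) :
    ContDiff ℝ ∞ fun y => ofEn (A y) i j := by
  let L : En m →ₗ[ℂ] ℂ :=
    { toFun := fun B => ofEn B i j
      map_add' := fun B B' => by
        unfold ofEn
        rw [map_add]
        rfl
      map_smul' := fun c B => by
        unfold ofEn
        rw [map_smul]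
        rfl }
  exact (L.toContinuousLinearMap.restrictScalars ℝ).contDiff.comp hA

/-- A deterministic smooth function as a matrix of smooth families. -/
def detM (A : V (2 * m) → En m) (hA : ContDiff ℝ ∞ A) :
    Matrix (Ix m) (Ix m) (Fm P (2 * m) ρ) :=
  Matrix.of fun i j => shiftF (F := fun _ y => ofEn (A y) i j) (RF.det (contDiff_ofEn hA i j))

/-- The value of a deterministic function. -/
theorem evF_detM {A : V (2 * m) → En m} (hA : ContDiff ℝ ∞ A) (x : X) (z v : V (2 * m)) :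
    evF x z v (detM (P := P) (ρ := ρ) A hA) = A (z + v) :=
  (Matrix.toEuclideanCLM (n := Ix m) (𝕜 := ℂ)).apply_symm_apply (A (z + v))

theorem evF_add (x : X) (z v : V (2 * m)) (f f' : Matrix (Ix m) (Ix m) (Fm P (2 * m) ρ)) :
    evF x z v (f + f') = evF x z v f + evF x z v f' :=
  map_add (Matrix.toEuclideanCLM (n := Ix m) (𝕜 := ℂ)) (f.map fun u => u.1 x z v)
    (f'.map fun u => u.1 x z v)

theorem evF_sum {κ : Type*} (x : X) (z v : V (2 * m)) (s : Finset κ)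
    (f : κ → Matrix (Ix m) (Ix m) (Fm P (2 * m) ρ)) :
    evF x z v (∑ i ∈ s, f i) = ∑ i ∈ s, evF x z v (f i) := by
  classical
  induction s using Finset.induction_on with
  | empty => exact map_zero (Matrix.toEuclideanCLM (n := Ix m) (𝕜 := ℂ))
  | insert i s hi ih => rw [Finset.sum_insert hi, Finset.sum_insert hi, evF_add, ih]

theorem evF_zero (x : X) (z v : V (2 * m)) :
    evF x z v (0 : Matrix (Ix m) (Ix m) (Fm P (2 * m) ρ)) = 0 :=
  map_zero (Matrix.toEuclideanCLM (n := Ix m) (𝕜 := ℂ))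

theorem evF_one (x : X) (z v : V (2 * m)) :
    evF x z v (1 : Matrix (Ix m) (Ix m) (Fm P (2 * m) ρ)) = 1 := by
  have h1 : (1 : Matrix (Ix m) (Ix m) (Fm P (2 * m) ρ)).map (fun u => u.1 x z v) = 1 :=
    Matrix.map_one _ rfl rfl
  unfold evF
  rw [h1]
  exact map_one (Matrix.toEuclideanCLM (n := Ix m) (𝕜 := ℂ))

theorem evF_smul (x : X) (z v : V (2 * m)) (s : Fm P (2 * m) ρ)
    (f : Matrix (Ix m) (Ix m) (Fm P (2 * m) ρ)) :
    evF x z v (s • f) = (s.1 x z v) • evF x z v f :=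
  map_smul (Matrix.toEuclideanCLM (n := Ix m) (𝕜 := ℂ)) (s.1 x z v) (f.map fun u => u.1 x z v)

theorem P15B_smul {f : V N → ℂ} {A : V N → En m} (hf : ContDiff ℝ ∞ f) (hA : ContDiff ℝ ∞ A) :
    ContDiff ℝ ∞ fun y => f y • A y := by
  have hb : IsBoundedBilinearMap ℝ (fun p : ℂ × En m => p.1 • p.2) :=
    (isBoundedBilinearMap_smul (𝕜 := ℝ) (A := ℂ) (E := En m))
  exact hb.contDiff.comp (hf.prodMk hA)

theorem P15B_ofReal {f : V N → ℝ} (hf : ContDiff ℝ ∞ f) : ContDiff ℝ ∞ fun y => (f y : ℂ) :=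
  Complex.ofRealCLM.contDiff.comp hf

theorem P15B_mul {A B : V N → En m} (hA : ContDiff ℝ ∞ A) (hB : ContDiff ℝ ∞ B) :
    ContDiff ℝ ∞ fun y => A y * B y := by
  have hb := ((ContinuousLinearMap.mul ℂ (En m)).bilinearRestrictScalars ℝ).isBoundedBilinearMap
  exact hb.contDiff.comp (hA.prodMk hB)

/-- PROOF. Polynomials in the smooth functions `hi`, `K`, `Γ` (`contDiff_conn` from Base4; `K` contains `pd` of `θ`,
`contDiff_pd`). -/
theorem contDiff_bop (C : Cliff m) (g : Geo (2 * m)) {B : Pot (2 * m)} (hB : IsPot B)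
    (μ : Fin (2 * m)) : ContDiff ℝ ∞ (C.bop g B μ) := by
  have h1 : ContDiff ℝ ∞ fun y => (-2 : ℂ) • ∑ ν, (g.hi y μ ν : ℂ) • C.conn g B ν y :=
    P15B_smul contDiff_const (ContDiff.sum fun ν _ =>
      P15B_smul (P15B_ofReal (g.contDiff_hi μ ν)) (contDiff_conn C g hB ν))
  have h2 : ContDiff ℝ ∞ fun y =>
      ((∑ α, ∑ β, g.hi y α β * g.K μ α β y : ℝ) : ℂ) • (1 : En m) :=
    P15B_smul (P15B_ofReal (ContDiff.sum fun α _ => ContDiff.sum fun β _ =>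
      (g.contDiff_hi α β).mul (g.contDiff_K μ α β))) contDiff_const
  exact h1.add h2

/-- PROOF. As `contDiff_bop`; `scal` is a polynomial in `e`, `Γ` and first derivatives of `Γ`. -/
theorem contDiff_cop (C : Cliff m) (g : Geo (2 * m)) {B : Pot (2 * m)} (hB : IsPot B) :
    ContDiff ℝ ∞ (C.cop g B) := by
  have h1 : ContDiff ℝ ∞ fun y => (-1 : ℂ) • (∑ μ, ∑ ν, (g.hi y μ ν : ℂ) •
      (pd μ (C.conn g B ν) y + C.conn g B μ y * C.conn g B ν y)) :=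
    P15B_smul contDiff_const (ContDiff.sum fun μ _ => ContDiff.sum fun ν _ =>
      P15B_smul (P15B_ofReal (g.contDiff_hi μ ν)) ((contDiff_pd (contDiff_conn C g hB ν) μ).add
        (P15B_mul (contDiff_conn C g hB μ) (contDiff_conn C g hB ν))))
  have h2 : ContDiff ℝ ∞ fun y =>
      ∑ l, ((∑ μ, ∑ ν, g.hi y μ ν * g.K l μ ν y : ℝ) : ℂ) • C.conn g B l y :=
    ContDiff.sum fun l _ => P15B_smul (P15B_ofReal (ContDiff.sum fun α _ => ContDiff.sum fun β _ =>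
      (g.contDiff_hi α β).mul (g.contDiff_K l α β))) (contDiff_conn C g hB l)
  have h3 : ContDiff ℝ ∞ fun y => ((g.scal y / 4 : ℝ) : ℂ) • (1 : En m) :=
    P15B_smul (P15B_ofReal (g.contDiff_scal.div_const 4)) contDiff_const
  have h4 : ContDiff ℝ ∞ fun y => C.curvB g B y := by
    have h5 : ∀ a b, ContDiff ℝ ∞ fun y => g.fr (dPot B) y a b := by
      intro a b
      have h6 : (fun y => g.fr (dPot B) y a b) = fun y => ∑ ν, (∑ μ, g.e y μ a *
          (pd μ (B ν) y - pd ν (B μ) y)) * g.e y ν b := by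
        funext y
        simp only [Geo.fr, Matrix.mul_apply, Matrix.transpose_apply, dPot, Matrix.of_apply]
      rw [h6]
      exact ContDiff.sum fun ν _ => (ContDiff.sum fun μ _ => (g.smooth_e μ a).mul
        ((contDiff_pd (hB ν) μ).sub (contDiff_pd (hB μ) ν))).mul (g.smooth_e ν b)
    have h7 : ContDiff ℝ ∞ fun y => (Complex.I / 2) • (∑ a, ∑ b,
        (g.fr (dPot B) y a b : ℂ) • (C.c a * C.c b) : En m) :=
      P15B_smul contDiff_const (ContDiff.sum fun a _ => ContDiff.sum fun b _ =>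
        P15B_smul (P15B_ofReal (h5 a b)) contDiff_const)
    exact h7
  exact ((h1.add h2).add h3).add h4

theorem isPot_zero : IsPot (0 : Pot (2 * m)) := fun _ => contDiff_const

theorem contDiff_spin (C : Cliff m) (g : Geo (2 * m)) (μ : Fin (2 * m)) :
    ContDiff ℝ ∞ fun y => C.spin (g.Γ μ y) := by
  have h : ContDiff ℝ ∞ fun y => (-(1 / 4) : ℂ) • (∑ a, ∑ b, (g.Γ μ y a b : ℂ) •
      (C.c a * C.c b) : En m) :=
    P15B_smul contDiff_const (ContDiff.sum fun a _ => ContDiff.sum fun b _ =>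
      P15B_smul (P15B_ofReal (g.smooth_Γ μ a b)) contDiff_const)
  exact h

theorem contDiff_K (g : Geo N) (ν μ l : Fin N) : ContDiff ℝ ∞ (g.K ν μ l) :=
  g.contDiff_K ν μ l

theorem contDiff_hi (g : Geo N) (μ ν : Fin N) : ContDiff ℝ ∞ fun y => g.hi y μ ν :=
  g.contDiff_hi μ ν

/-- The frame as a smooth family. -/
def eF (g : Geo N) (μ a : Fin N) : Fm P N ρ :=
  shiftF (F := fun _ y => (g.e y μ a : ℂ))
    (RF.det (Complex.ofRealCLM.contDiff.comp (g.smooth_e μ a)))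

theorem contDiff_tK (g : Geo N) (l : Fin N) :
    ContDiff ℝ ∞ fun y => ∑ μ, ∑ ν, g.hi y μ ν * g.K l μ ν y :=
  ContDiff.sum fun μ _ => ContDiff.sum fun ν _ => (contDiff_hi g μ ν).mul (contDiff_K g l μ ν)

/-- The trace of the Christoffel symbols as a smooth family. -/
def kF (g : Geo N) (l : Fin N) : Fm P N ρ :=
  shiftF (F := fun _ y => ((∑ μ, ∑ ν, g.hi y μ ν * g.K l μ ν y : ℝ) : ℂ))
    (RF.det (Complex.ofRealCLM.contDiff.comp (contDiff_tK g l)))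

/-! ### random coefficients -/

section random

variable {Ω : X → V (2 * m) → Mt (2 * m)}

/-- The components of the two-form. -/
def omF (h : RForm P Ω) (μ ν : Fin (2 * m)) : Fm P (2 * m) ρ := shiftF (rf_form h μ ν)

/-- The primitive at `z + v`. -/
def beF (h : RForm P Ω) (μ : Fin (2 * m)) : Fm P (2 * m) ρ := shiftF (rf_prim h μ)

/-- The primitive at `z`. -/
def b0F (h : RForm P Ω) (μ : Fin (2 * m)) : Fm P (2 * m) ρ :=
  ⟨fun x z _ => (prim (Ω x) μ z : ℂ), Fam.base (rf_prim h μ).smooth (by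
    obtain ⟨Φ, hΦ, h1⟩ := (rf_prim h μ).bd [] ρ
    exact ⟨Φ, hΦ, fun x z hz => h1 x z hz⟩)⟩

/-- The difference. -/
def deF (h : RForm P Ω) (μ : Fin (2 * m)) : Fm P (2 * m) ρ := beF h μ - b0F h μ

/-- The scalar first order coefficient of degree one in `t`. -/
def s1 (g : Geo (2 * m)) (h : RForm P Ω) (μ : Fin (2 * m)) : Fm P (2 * m) ρ :=
  (-2 * Complex.I) • ∑ ν, hiF g μ ν * deF h ν

/-- The scalar part of the zero order coefficient of degree one in `t`. -/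
def k1 (g : Geo (2 * m)) (h : RForm P Ω) : Fm P (2 * m) ρ :=
  (-Complex.I) • (∑ μ, ∑ ν, hiF g μ ν * fpd μ (beF h ν)) + Complex.I • ∑ l, kF g l * deF h l

/-- The coefficient of `spin Γ_ν` in the zero order coefficient of degree one in `t`. -/
def l1 (g : Geo (2 * m)) (h : RForm P Ω) (ν : Fin (2 * m)) : Fm P (2 * m) ρ :=
  (-2 * Complex.I) • ∑ μ, hiF g μ ν * deF h μ

/-- The components of the two-form in the frame, times `i/2`. -/
def frF (g : Geo (2 * m)) (h : RForm P Ω) (a b : Fin (2 * m)) : Fm P (2 * m) ρ :=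
  (Complex.I / 2) • ∑ μ, ∑ ν, eF g μ a * omF h μ ν * eF g ν b

/-- The zero order coefficient of degree two in `t`. -/
def s2 (g : Geo (2 * m)) (h : RForm P Ω) : Fm P (2 * m) ρ :=
  ∑ μ, ∑ ν, hiF g μ ν * (deF h μ * deF h ν)

/-- The Clifford action of the two-form as a matrix of smooth families. -/
def cuM (C : Cliff m) (g : Geo (2 * m)) (h : RForm P Ω) :
    Matrix (Ix m) (Ix m) (Fm P (2 * m) ρ) :=
  ∑ a, ∑ b, frF (ρ := ρ) g h a b •
    detM (P := P) (ρ := ρ) (fun _ => C.c a * C.c b) contDiff_const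

/-- The square of the Dirac operator with the potential `t (β(z + v) - β(z))`. -/
def dOp (C : Cliff m) (g : Geo (2 * m)) (h : RForm P Ω) : Op P m ρ where
  b := ![fun μ => detM (C.bop g 0 μ) (contDiff_bop C g isPot_zero μ),
    fun μ => s1 (ρ := ρ) g h μ • (1 : Matrix (Ix m) (Ix m) (Fm P (2 * m) ρ)), fun _ => 0]
  c := ![detM (C.cop g 0) (contDiff_cop C g isPot_zero),
    k1 (ρ := ρ) g h • (1 : Matrix (Ix m) (Ix m) (Fm P (2 * m) ρ))
      + ∑ ν, l1 (ρ := ρ) g h ν •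
          detM (P := P) (ρ := ρ) (fun y => C.spin (g.Γ ν y)) (contDiff_spin C g ν)
      + cuM C g h,
    s2 (ρ := ρ) g h • (1 : Matrix (Ix m) (Ix m) (Fm P (2 * m) ρ))]

/-- The potential `t (β - β(z))`. -/
def zPot (Ω : V (2 * m) → Mt (2 * m)) (t : ℝ) (z : V (2 * m)) : Pot (2 * m) := fun ν y =>
  t * (prim Ω ν y - prim Ω ν z)

/-- The potential `t β`. -/
def tPot (Ω : V (2 * m) → Mt (2 * m)) (t : ℝ) : Pot (2 * m) := fun ν y => t * prim Ω ν y

theorem isPot_tPot {Ω : V (2 * m) → Mt (2 * m)} (h : IsClosed2 Ω) (t : ℝ) : IsPot (tPot Ω t) :=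
  fun ν => contDiff_const.mul (isPot_prim h ν)

theorem isPot_zPot {Ω : V (2 * m) → Mt (2 * m)} (h : IsClosed2 Ω) (t : ℝ) (z : V (2 * m)) :
    IsPot (zPot Ω t z) :=
  fun ν => contDiff_const.mul ((isPot_prim h ν).sub contDiff_const)

theorem P15C_alg1 {M ι : Type*} [AddCommGroup M] [Module ℂ M] [Fintype ι] (S : ι → M) (e : M)
    (h b : ι → ℂ) (t k : ℂ) :
    (-2 : ℂ) • ∑ ν, h ν • (S ν + (Complex.I * 0) • e) + k • e
        + t • ((((-2) * Complex.I) * ∑ ν, h ν * b ν) • e)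
      = (-2 : ℂ) • ∑ ν, h ν • (S ν + (Complex.I * (t * b ν)) • e) + k • e := by
  have h1 : ∀ ν, h ν • (S ν + (Complex.I * (t * b ν)) • e)
      = h ν • S ν + (Complex.I * t * (h ν * b ν)) • e := fun ν => by
    rw [smul_add, smul_smul]
    congr 2
    ring
  have h2 : ∀ ν, h ν • (S ν + (Complex.I * 0) • e) = h ν • S ν := fun ν => by
    rw [mul_zero, zero_smul, add_zero]
  simp only [h1, h2]
  rw [Finset.sum_add_distrib, ← Finset.sum_smul, ← Finset.mul_sum, smul_add, smul_smul, smul_smul]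
  rw [add_right_comm]
  congr 2
  congr 1
  ring

theorem P15C_alg2 {R ι : Type*} [Ring R] [Algebra ℂ R] [Fintype ι] (a : ι → R)
    (da : ι → ι → R) (h : ι → ι → ℂ) (hs : ∀ μ ν, h μ ν = h ν μ) (b : ι → ℂ)
    (db : ι → ι → ℂ) (k : ι → ℂ) (s t : ℂ) (Cu : R) :
    ((-1 : ℂ) • (∑ μ, ∑ ν, h μ ν • (da μ ν + a μ * a ν)) + ∑ l, k l • a l + s • (1 : R))
      + t • (((-Complex.I) * (∑ μ, ∑ ν, h μ ν * db μ ν) + Complex.I * ∑ l, k l * b l) • (1 : R)
        + ∑ ν, (((-2) * Complex.I) * ∑ μ, h μ ν * b μ) • a ν + Cu)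
      + t ^ 2 • ((∑ μ, ∑ ν, h μ ν * (b μ * b ν)) • (1 : R))
    = (-1 : ℂ) • (∑ μ, ∑ ν, h μ ν • ((da μ ν + (Complex.I * (t * db μ ν)) • (1 : R))
        + (a μ + (Complex.I * (t * b μ)) • (1 : R)) * (a ν + (Complex.I * (t * b ν)) • (1 : R))))
      + ∑ l, k l • (a l + (Complex.I * (t * b l)) • (1 : R)) + s • (1 : R) + t • Cu := by
  have h1 : ∀ μ ν, h μ ν • ((da μ ν + (Complex.I * (t * db μ ν)) • (1 : R))
        + (a μ + (Complex.I * (t * b μ)) • (1 : R)) * (a ν + (Complex.I * (t * b ν)) • (1 : R)))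
      = h μ ν • (da μ ν + a μ * a ν) + (Complex.I * t * (h μ ν * db μ ν)) • (1 : R)
        + (Complex.I * t) • ((h μ ν * b ν) • a μ) + (Complex.I * t) • ((h μ ν * b μ) • a ν)
        + (-(t ^ 2) * (h μ ν * (b μ * b ν))) • (1 : R) := fun μ ν => by
    have e1 : (a μ + (Complex.I * (t * b μ)) • (1 : R)) * (a ν + (Complex.I * (t * b ν)) • (1 : R))
        = a μ * a ν + (Complex.I * (t * b ν)) • a μ + (Complex.I * (t * b μ)) • a ν
          + ((Complex.I * (t * b μ)) * (Complex.I * (t * b ν))) • (1 : R) := by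
      rw [add_mul, mul_add, mul_add, mul_smul_comm, mul_one, smul_mul_assoc, one_mul,
        smul_mul_smul_comm, one_mul]
      abel
    have e2 : (Complex.I * (t * b μ)) * (Complex.I * (t * b ν)) = -(t ^ 2) * (b μ * b ν) := by
      have := Complex.I_mul_I
      linear_combination (t * b μ * (t * b ν)) * this
    rw [e1, e2]
    simp only [smul_add, smul_smul]
    rw [show h μ ν * (Complex.I * (t * db μ ν)) = Complex.I * t * (h μ ν * db μ ν) by ring,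
      show h μ ν * (Complex.I * (t * b ν)) = Complex.I * t * (h μ ν * b ν) by ring,
      show h μ ν * (Complex.I * (t * b μ)) = Complex.I * t * (h μ ν * b μ) by ring,
      show h μ ν * (-(t ^ 2) * (b μ * b ν)) = -(t ^ 2) * (h μ ν * (b μ * b ν)) by ring]
    abel
  have h2 : ∀ l, k l • (a l + (Complex.I * (t * b l)) • (1 : R))
      = k l • a l + (Complex.I * t * (k l * b l)) • (1 : R) := fun l => by
    rw [smul_add, smul_smul]
    congr 2
    ring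
  simp only [h1, h2]
  have h3 : ∑ μ, ∑ ν, (Complex.I * t) • ((h μ ν * b ν) • a μ)
      = (Complex.I * t) • ∑ ν, (∑ μ, h μ ν * b μ) • a ν := by
    rw [Finset.smul_sum]
    refine Finset.sum_congr rfl fun μ _ => ?_
    rw [← Finset.smul_sum, ← Finset.sum_smul]
    congr 2
    exact Finset.sum_congr rfl fun ν _ => by rw [hs μ ν]
  have h4 : ∑ μ, ∑ ν, (Complex.I * t) • ((h μ ν * b μ) • a ν)
      = (Complex.I * t) • ∑ ν, (∑ μ, h μ ν * b μ) • a ν := by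
    rw [Finset.sum_comm, Finset.smul_sum]
    refine Finset.sum_congr rfl fun ν _ => ?_
    rw [← Finset.smul_sum, ← Finset.sum_smul]
  have h5 : ∑ μ, ∑ ν, (Complex.I * t * (h μ ν * db μ ν)) • (1 : R)
      = (Complex.I * t * ∑ μ, ∑ ν, h μ ν * db μ ν) • (1 : R) := by
    simp only [← Finset.sum_smul, ← Finset.mul_sum]
  have h6 : ∑ μ, ∑ ν, (-(t ^ 2) * (h μ ν * (b μ * b ν))) • (1 : R)
      = (-(t ^ 2) * ∑ μ, ∑ ν, h μ ν * (b μ * b ν)) • (1 : R) := by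
    simp only [← Finset.sum_smul, ← Finset.mul_sum]
  have h7 : ∑ l, (Complex.I * t * (k l * b l)) • (1 : R)
      = (Complex.I * t * ∑ l, k l * b l) • (1 : R) := by
    simp only [← Finset.sum_smul, ← Finset.mul_sum]
  have h8 : ∑ ν, (((-2) * Complex.I) * ∑ μ, h μ ν * b μ) • a ν
      = ((-2) * Complex.I) • ∑ ν, (∑ μ, h μ ν * b μ) • a ν := by
    rw [Finset.smul_sum]
    exact Finset.sum_congr rfl fun ν _ => (smul_smul _ _ _).symm
  simp only [Finset.sum_add_distrib]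
  rw [h3, h4, h5, h6, h7, h8]
  module

theorem P15C_sum {κ : Type*} (s : Finset κ) (f : κ → Fm P N ρ) (x : X) (z v : V N) :
    (∑ i ∈ s, f i).1 x z v = ∑ i ∈ s, (f i).1 x z v := by
  classical
  induction s using Finset.induction_on with
  | empty => rfl
  | insert i s hi ih =>
    rw [Finset.sum_insert hi, Finset.sum_insert hi, Fm.add_val, ih]

theorem P15C_deF (h : RForm P Ω) (x : X) (z v : V (2 * m)) (ν : Fin (2 * m)) :
    (deF (ρ := ρ) h ν).1 x z v = ((prim (Ω x) ν (z + v) : ℝ) : ℂ) - (prim (Ω x) ν z : ℂ) := rfl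

theorem P15C_zPot (Ω : V (2 * m) → Mt (2 * m)) (t : ℝ) (z y : V (2 * m)) (ν : Fin (2 * m)) :
    ((zPot Ω t z ν y : ℝ) : ℂ) = (t : ℂ) * (((prim Ω ν y : ℝ) : ℂ) - (prim Ω ν z : ℂ)) := by
  unfold zPot
  rw [Complex.ofReal_mul, Complex.ofReal_sub]

/-- PROOF. `bT = ∑_β t^β evF (b β μ)` (`Fin.sum_univ_three`), `evF_detM`, `evF_smul`, `evF_one`, `evF_zero`. On the
right `conn g B ν = spin Γ_ν + i B_ν`, `B_ν(z+v) = t (β_ν(z+v) - β_ν(z))`; `bop` is affine in `B`: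
`bop g B μ = bop g 0 μ - 2 i ∑_ν hi_μν B_ν`. -/
theorem dOp_bT (C : Cliff m) (g : Geo (2 * m)) (h : RForm P Ω) (t : ℝ) (x : X)
    (z v : V (2 * m)) (μ : Fin (2 * m)) :
    (dOp (ρ := ρ) C g h).bT t x z v μ = C.bop g (zPot (Ω x) t z) μ (z + v) := by
  have h0 : evF x z v ((dOp (ρ := ρ) C g h).b 0 μ) = C.bop g 0 μ (z + v) :=
    evF_detM (contDiff_bop C g isPot_zero μ) x z v
  have h1 : evF x z v ((dOp (ρ := ρ) C g h).b 1 μ)
      = (((-2) * Complex.I) * ∑ ν, (g.hi (z + v) μ ν : ℂ) *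
        (((prim (Ω x) ν (z + v) : ℝ) : ℂ) - (prim (Ω x) ν z : ℂ))) • (1 : En m) := by
    have e1 := evF_smul x z v (s1 (ρ := ρ) g h μ) (1 : Matrix (Ix m) (Ix m) (Fm P (2 * m) ρ))
    rw [evF_one] at e1
    refine e1.trans ?_
    congr 1
    unfold s1
    rw [Fm.smul_val, P15C_sum]
    rfl
  have h2 : evF x z v ((dOp (ρ := ρ) C g h).b 2 μ) = 0 := evF_zero x z v
  unfold Op.bT
  rw [Fin.sum_univ_three, h0, h1, h2]
  have key := P15C_alg1 (M := En m) (fun ν => C.spin (g.Γ ν (z + v))) 1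
    (fun ν => (g.hi (z + v) μ ν : ℂ))
    (fun ν => ((prim (Ω x) ν (z + v) : ℝ) : ℂ) - (prim (Ω x) ν z : ℂ)) (t : ℂ)
    ((∑ α, ∑ β, g.hi (z + v) α β * g.K μ α β (z + v) : ℝ) : ℂ)
  have e2 : C.bop g (zPot (Ω x) t z) μ (z + v) = (-2 : ℂ) • ∑ ν, (g.hi (z + v) μ ν : ℂ) •
      (C.spin (g.Γ ν (z + v)) + (Complex.I * ((t : ℂ) * (((prim (Ω x) ν (z + v) : ℝ) : ℂ) -
        (prim (Ω x) ν z : ℂ)))) • (1 : En m))
      + ((∑ α, ∑ β, g.hi (z + v) α β * g.K μ α β (z + v) : ℝ) : ℂ) • (1 : En m) := by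
    unfold Cliff.bop Cliff.conn
    simp only [P15C_zPot]
  have e3 : C.bop g 0 μ (z + v) = (-2 : ℂ) • ∑ ν, (g.hi (z + v) μ ν : ℂ) •
      (C.spin (g.Γ ν (z + v)) + (Complex.I * 0) • (1 : En m))
      + ((∑ α, ∑ β, g.hi (z + v) α β * g.K μ α β (z + v) : ℝ) : ℂ) • (1 : En m) := by
    unfold Cliff.bop Cliff.conn
    simp only [Pi.zero_apply, Complex.ofReal_zero]
  rw [e2, e3, ← key]
  have e4 : ∀ a b : En m, ((t : ℂ) ^ ((0 : Fin 3) : ℕ)) • a + ((t : ℂ) ^ ((1 : Fin 3) : ℕ)) • b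
      + ((t : ℂ) ^ ((2 : Fin 3) : ℕ)) • (0 : En m) = a + (t : ℂ) • b := by
    have gen : ∀ {M : Type} [AddCommGroup M] [Module ℂ M] (a b : M),
        ((t : ℂ) ^ ((0 : Fin 3) : ℕ)) • a + ((t : ℂ) ^ ((1 : Fin 3) : ℕ)) • b
        + ((t : ℂ) ^ ((2 : Fin 3) : ℕ)) • (0 : M) = a + (t : ℂ) • b := by
      intro M _ _ a b
      rw [smul_zero, add_zero]
      change (t : ℂ) ^ 0 • a + (t : ℂ) ^ 1 • b = _
      rw [pow_zero, pow_one, one_smul]
    exact gen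
  exact e4 _ _

theorem P15C_pd_prim {Ω : V (2 * m) → Mt (2 * m)} (h : IsClosed2 Ω) (t : ℝ) (z y : V (2 * m))
    (μ ν : Fin (2 * m)) : pd μ (zPot Ω t z ν) y = t * pd μ (prim Ω ν) y := by
  have hd : DifferentiableAt ℝ (prim Ω ν) y := ((isPot_prim h ν).differentiable (by simp)) y
  have h1 : HasFDerivAt (fun y => t * (prim Ω ν y - prim Ω ν z)) (t • fderiv ℝ (prim Ω ν) y) y :=
    (hd.hasFDerivAt.sub_const _).const_mul t
  have h2 : fderiv ℝ (zPot Ω t z ν) y = t • fderiv ℝ (prim Ω ν) y := h1.fderiv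
  unfold pd
  rw [h2]
  rfl

theorem P15C_fpd (h : RForm P Ω) (x : X) (z v : V (2 * m)) (μ ν : Fin (2 * m)) :
    (fpd μ (beF (ρ := ρ) h ν)).1 x z v = ((pd μ (prim (Ω x) ν) (z + v) : ℝ) : ℂ) := by
  have hd : DifferentiableAt ℝ (prim (Ω x) ν) (z + v) :=
    ((isPot_prim (h.closed x) ν).differentiable (by simp)) _
  have h1 : HasFDerivAt (fun v : V (2 * m) => z + v) (ContinuousLinearMap.id ℝ (V (2 * m))) v :=
    (hasFDerivAt_id v).const_add z
  have h2 := (Complex.ofRealCLM.hasFDerivAt (x := prim (Ω x) ν (z + v))).comp v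
    (hd.hasFDerivAt.comp v h1)
  have h3 : fderiv ℝ (fun v : V (2 * m) => ((prim (Ω x) ν (z + v) : ℝ) : ℂ)) v
      = Complex.ofRealCLM.comp ((fderiv ℝ (prim (Ω x) ν) (z + v)).comp
        (ContinuousLinearMap.id ℝ (V (2 * m)))) := h2.fderiv
  change fderiv ℝ (fun v : V (2 * m) => ((prim (Ω x) ν (z + v) : ℝ) : ℂ)) v (bv μ) = _
  rw [h3]
  rfl

theorem P15C_dPot {Ω : V (2 * m) → Mt (2 * m)} (h : IsClosed2 Ω) (t : ℝ) (z y : V (2 * m))
    (μ ν : Fin (2 * m)) : dPot (zPot Ω t z) y μ ν = t * Ω y μ ν := by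
  have h1 := congrFun (congrFun (dPot_prim h y) μ) ν
  unfold dPot at h1 ⊢
  rw [Matrix.of_apply] at h1 ⊢
  rw [P15C_pd_prim h, P15C_pd_prim h, ← h1]
  ring

theorem P15C_pd_scalar {b : V (2 * m) → ℝ} (hb : ContDiff ℝ ∞ b) (y : V (2 * m))
    (μ : Fin (2 * m)) : DifferentiableAt ℝ (fun y => (Complex.I * (b y : ℂ)) • (1 : En m)) y ∧
      pd μ (fun y => (Complex.I * (b y : ℂ)) • (1 : En m)) y
        = (Complex.I * ((pd μ b y : ℝ) : ℂ)) • (1 : En m) := by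
  let L : ℝ →L[ℝ] En m := ((ContinuousLinearMap.toSpanSingleton ℂ
    (1 : En m)).restrictScalars ℝ).comp (((ContinuousLinearMap.mul ℂ ℂ Complex.I).restrictScalars
      ℝ).comp Complex.ofRealCLM)
  have hL : ∀ r : ℝ, L r = (Complex.I * (r : ℂ)) • (1 : En m) := fun r => rfl
  have hd : DifferentiableAt ℝ b y := (hb.differentiable (by simp)) y
  have h1 : HasFDerivAt (fun y => L (b y)) (L.comp (fderiv ℝ b y)) y :=
    (L.hasFDerivAt (x := b y)).comp y hd.hasFDerivAt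
  have h2 : HasFDerivAt (fun y => (Complex.I * (b y : ℂ)) • (1 : En m))
      (L.comp (fderiv ℝ b y)) y := h1
  refine ⟨h2.differentiableAt, ?_⟩
  unfold pd
  rw [h2.fderiv]
  exact hL _

theorem P15C_pd_conn (C : Cliff m) (g : Geo (2 * m)) {B : Pot (2 * m)} (hB : IsPot B)
    (μ ν : Fin (2 * m)) (y : V (2 * m)) :
    pd μ (C.conn g B ν) y = pd μ (C.conn g 0 ν) y
      + (Complex.I * ((pd μ (B ν) y : ℝ) : ℂ)) • (1 : En m) := by
  have h0 : ∀ y, C.conn g 0 ν y = C.spin (g.Γ ν y) := fun y => by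
    have gen : ∀ {M : Type} [AddCommGroup M] [Module ℂ M] (a b : M),
        a + (Complex.I * ((0 : ℝ) : ℂ)) • b = a := by
      intro M _ _ a b
      rw [Complex.ofReal_zero, mul_zero, zero_smul, add_zero]
    exact gen _ _
  have h1 : C.conn g B ν = fun y => C.conn g 0 ν y + (Complex.I * (B ν y : ℂ)) • (1 : En m) := by
    funext y
    rw [h0]
    rfl
  have h2 := P15C_pd_scalar (hB ν) y μ
  have h3 : DifferentiableAt ℝ (C.conn g 0 ν) y :=
    ((contDiff_conn C g isPot_zero ν).differentiable (by simp)) y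
  rw [h1]
  have h4 := (h3.hasFDerivAt.add h2.1.hasFDerivAt).fderiv
  rw [← h2.2]
  unfold pd
  exact (congrArg (fun L => L (bv μ)) h4)

theorem P15C_cu (C : Cliff m) (g : Geo (2 * m)) (h : RForm P Ω) (x : X) (z v : V (2 * m)) :
    evF x z v (cuM (ρ := ρ) C g h) = ∑ a, ∑ b, ((Complex.I / 2) * ∑ μ, ∑ ν,
      (g.e (z + v) μ a : ℂ) * (Ω x (z + v) μ ν : ℂ) * (g.e (z + v) ν b : ℂ)) •
        (C.c a * C.c b) := by
  unfold cuM
  rw [evF_sum]
  refine Finset.sum_congr rfl fun a _ => ?_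
  rw [evF_sum]
  refine Finset.sum_congr rfl fun b _ => ?_
  rw [evF_smul, evF_detM]
  congr 1
  unfold frF
  rw [Fm.smul_val, P15C_sum]
  congr 1
  refine Finset.sum_congr rfl fun μ _ => ?_
  rw [P15C_sum]
  rfl

theorem P15C_curv (C : Cliff m) (g : Geo (2 * m)) (h : RForm P Ω) (t : ℝ) (x : X)
    (z y : V (2 * m)) :
    C.curvB g (zPot (Ω x) t z) y = (t : ℂ) • ∑ a, ∑ b, ((Complex.I / 2) * ∑ μ, ∑ ν,
      (g.e y μ a : ℂ) * (Ω x y μ ν : ℂ) * (g.e y ν b : ℂ)) • (C.c a * C.c b) := by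
  have h1 : ∀ a b, ((g.fr (dPot (zPot (Ω x) t z)) y a b : ℝ) : ℂ)
      = (t : ℂ) * ∑ μ, ∑ ν, (g.e y μ a : ℂ) * (Ω x y μ ν : ℂ) * (g.e y ν b : ℂ) := by
    intro a b
    have : g.fr (dPot (zPot (Ω x) t z)) y a b
        = t * ∑ μ, ∑ ν, g.e y μ a * Ω x y μ ν * g.e y ν b := by
      simp only [Geo.fr, Matrix.mul_apply, Matrix.transpose_apply, P15C_dPot (h.closed x)]
      rw [Finset.sum_comm, Finset.mul_sum]
      simp only [Finset.sum_mul, Finset.mul_sum]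
      refine Finset.sum_congr rfl fun ν _ => Finset.sum_congr rfl fun μ _ => ?_
      ring
    rw [this]
    push_cast
    rfl
  have gen : ∀ {M : Type} [AddCommGroup M] [Module ℂ M] (F : Fin (2 * m) → Fin (2 * m) → ℂ)
      (A : Fin (2 * m) → Fin (2 * m) → M),
      (Complex.I / 2) • ∑ a, ∑ b, ((t : ℂ) * F a b) • A a b
        = (t : ℂ) • ∑ a, ∑ b, ((Complex.I / 2) * F a b) • A a b := by
    intro M _ _ F A
    simp only [Finset.smul_sum, smul_smul]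
    refine Finset.sum_congr rfl fun a _ => Finset.sum_congr rfl fun b _ => ?_
    congr 1
    ring
  unfold Cliff.curvB Cliff.two
  simp only [h1]
  exact gen _ _

theorem P15C_curv0 (C : Cliff m) (g : Geo (2 * m)) (y : V (2 * m)) : C.curvB g 0 y = 0 := by
  have h1 : ∀ a b, g.fr (dPot (0 : Pot (2 * m))) y a b = 0 := by
    intro a b
    have h2 : ∀ μ ν, dPot (0 : Pot (2 * m)) y μ ν = 0 := by
      intro μ ν
      have h3 : ∀ μ ν : Fin (2 * m), pd μ ((0 : Pot (2 * m)) ν) y = 0 := by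
        intro μ ν
        have : fderiv ℝ ((0 : Pot (2 * m)) ν) y = 0 := by
          change fderiv ℝ (fun _ : V (2 * m) => (0 : ℝ)) y = 0
          exact fderiv_const_apply _
        unfold pd
        rw [this]
        rfl
      unfold dPot
      rw [Matrix.of_apply, h3, h3, sub_zero]
    simp only [Geo.fr, Matrix.mul_apply, h2, mul_zero, Finset.sum_const_zero, zero_mul]
  have gen : ∀ {M : Type} [AddCommGroup M] [Module ℂ M] (A : Fin (2 * m) → Fin (2 * m) → M),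
      (Complex.I / 2) • ∑ a, ∑ b, (((0 : ℝ) : ℂ)) • A a b = 0 := by
    intro M _ _ A
    simp
  unfold Cliff.curvB Cliff.two
  simp only [h1]
  exact gen _

/-- PROOF. As `dOp_bT`. With `A_ν = S_ν + i B_ν` (`S_ν = spin Γ_ν`, scalars commute with everything):
`-∑ hi_μν (∂_μ A_ν + A_μ A_ν) = -∑ hi_μν (∂_μ S_ν + S_μ S_ν) - i ∑ hi_μν ∂_μ B_ν - i ∑ hi_μν (B_μ S_ν + B_ν S_μ)
+ ∑ hi_μν B_μ B_ν`; `hi_symm` for the third term (`l1`); `∂_μ B_ν = t ∂_μ β_ν` (`fpd μ (beF h ν)` is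
`pd μ (prim (Ω x) ν) (z + v)` by the chain rule); `curvB g B = (i/2) two (fr (dPot B))`,
`dPot B = t Ω x` (`dPot_prim`), `fr` is `∑ e_μa Ω_μν e_νb` (`cuM`). -/
theorem dOp_cT (C : Cliff m) (g : Geo (2 * m)) (h : RForm P Ω) (t : ℝ) (x : X)
    (z v : V (2 * m)) :
    (dOp (ρ := ρ) C g h).cT t x z v = C.cop g (zPot (Ω x) t z) (z + v) := by
  have hspin : ∀ ν, C.spin (g.Γ ν (z + v)) = C.conn g 0 ν (z + v) := fun ν => by
    have gen : ∀ {M : Type} [AddCommGroup M] [Module ℂ M] (a b : M),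
        a = a + (Complex.I * ((0 : ℝ) : ℂ)) • b := by
      intro M _ _ a b
      rw [Complex.ofReal_zero, mul_zero, zero_smul, add_zero]
    exact gen _ _
  have h0 : evF x z v ((dOp (ρ := ρ) C g h).c 0) = C.cop g 0 (z + v) :=
    evF_detM (contDiff_cop C g isPot_zero) x z v
  have hk : (k1 (ρ := ρ) g h).1 x z v = (-Complex.I) * (∑ μ, ∑ ν, (g.hi (z + v) μ ν : ℂ) *
      ((pd μ (prim (Ω x) ν) (z + v) : ℝ) : ℂ)) + Complex.I * ∑ l,
        ((∑ μ, ∑ ν, g.hi (z + v) μ ν * g.K l μ ν (z + v) : ℝ) : ℂ) *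
          (((prim (Ω x) l (z + v) : ℝ) : ℂ) - (prim (Ω x) l z : ℂ)) := by
    unfold k1
    rw [Fm.add_val, Fm.smul_val, Fm.smul_val, P15C_sum, P15C_sum]
    congr 1
    · congr 1
      refine Finset.sum_congr rfl fun μ _ => ?_
      rw [P15C_sum]
      refine Finset.sum_congr rfl fun ν _ => ?_
      rw [Fm.mul_val, P15C_fpd]
      rfl
  have hl : ∀ ν, (l1 (ρ := ρ) g h ν).1 x z v = ((-2) * Complex.I) * ∑ μ,
      (g.hi (z + v) μ ν : ℂ) * (((prim (Ω x) μ (z + v) : ℝ) : ℂ) - (prim (Ω x) μ z : ℂ)) := by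
    intro ν
    unfold l1
    rw [Fm.smul_val, P15C_sum]
    rfl
  have hs : (s2 (ρ := ρ) g h).1 x z v = ∑ μ, ∑ ν, (g.hi (z + v) μ ν : ℂ) *
      ((((prim (Ω x) μ (z + v) : ℝ) : ℂ) - (prim (Ω x) μ z : ℂ)) *
        (((prim (Ω x) ν (z + v) : ℝ) : ℂ) - (prim (Ω x) ν z : ℂ))) := by
    unfold s2
    rw [P15C_sum]
    refine Finset.sum_congr rfl fun μ _ => ?_
    rw [P15C_sum]
    rfl
  have h1 : evF x z v ((dOp (ρ := ρ) C g h).c 1) = ((k1 (ρ := ρ) g h).1 x z v) • (1 : En m)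
      + ∑ ν, ((l1 (ρ := ρ) g h ν).1 x z v) • C.conn g 0 ν (z + v)
      + evF x z v (cuM (ρ := ρ) C g h) := by
    have e1 : (dOp (ρ := ρ) C g h).c 1 = k1 (ρ := ρ) g h •
        (1 : Matrix (Ix m) (Ix m) (Fm P (2 * m) ρ))
      + ∑ ν, l1 (ρ := ρ) g h ν •
          detM (P := P) (ρ := ρ) (fun y => C.spin (g.Γ ν y)) (contDiff_spin C g ν)
      + cuM C g h := rfl
    rw [e1, evF_add, evF_add, evF_smul, evF_one, evF_sum]
    congr 2
    refine Finset.sum_congr rfl fun ν _ => ?_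
    rw [evF_smul, evF_detM, hspin]
  have h2 : evF x z v ((dOp (ρ := ρ) C g h).c 2) = ((s2 (ρ := ρ) g h).1 x z v) • (1 : En m) := by
    have e1 := evF_smul x z v (s2 (ρ := ρ) g h) (1 : Matrix (Ix m) (Ix m) (Fm P (2 * m) ρ))
    rw [evF_one] at e1
    exact e1
  unfold Op.cT
  rw [Fin.sum_univ_three, h0, h1, h2, hk, hs, P15C_cu]
  simp only [hl]
  have key := P15C_alg2 (R := En m) (fun ν => C.conn g 0 ν (z + v))
    (fun μ ν => pd μ (C.conn g 0 ν) (z + v))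
    (fun μ ν => (g.hi (z + v) μ ν : ℂ)) (fun μ ν => by rw [hi_symm])
    (fun ν => ((prim (Ω x) ν (z + v) : ℝ) : ℂ) - (prim (Ω x) ν z : ℂ))
    (fun μ ν => ((pd μ (prim (Ω x) ν) (z + v) : ℝ) : ℂ))
    (fun l => ((∑ μ, ∑ ν, g.hi (z + v) μ ν * g.K l μ ν (z + v) : ℝ) : ℂ))
    (((g.scal (z + v) / 4 : ℝ) : ℂ)) (t : ℂ)
    (∑ a, ∑ b, ((Complex.I / 2) * ∑ μ, ∑ ν,
      (g.e (z + v) μ a : ℂ) * (Ω x (z + v) μ ν : ℂ) * (g.e (z + v) ν b : ℂ)) • (C.c a * C.c b))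
  have hconn : ∀ ν, C.conn g (zPot (Ω x) t z) ν (z + v) = C.conn g 0 ν (z + v)
      + (Complex.I * ((t : ℂ) * (((prim (Ω x) ν (z + v) : ℝ) : ℂ) - (prim (Ω x) ν z : ℂ)))) •
        (1 : En m) := by
    intro ν
    rw [← hspin, ← P15C_zPot]
    rfl
  have hpd : ∀ μ ν, pd μ (C.conn g (zPot (Ω x) t z) ν) (z + v) = pd μ (C.conn g 0 ν) (z + v)
      + (Complex.I * ((t : ℂ) * ((pd μ (prim (Ω x) ν) (z + v) : ℝ) : ℂ))) • (1 : En m) := by
    intro μ ν
    rw [P15C_pd_conn C g (isPot_zPot (h.closed x) t z), P15C_pd_prim (h.closed x),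
      Complex.ofReal_mul]
  have e2 : C.cop g (zPot (Ω x) t z) (z + v) = (-1 : ℂ) • (∑ μ, ∑ ν, (g.hi (z + v) μ ν : ℂ) •
      ((pd μ (C.conn g 0 ν) (z + v) + (Complex.I * ((t : ℂ) *
        ((pd μ (prim (Ω x) ν) (z + v) : ℝ) : ℂ))) • (1 : En m))
      + (C.conn g 0 μ (z + v) + (Complex.I * ((t : ℂ) * (((prim (Ω x) μ (z + v) : ℝ) : ℂ) -
          (prim (Ω x) μ z : ℂ)))) • (1 : En m))
        * (C.conn g 0 ν (z + v) + (Complex.I * ((t : ℂ) * (((prim (Ω x) ν (z + v) : ℝ) : ℂ) -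
          (prim (Ω x) ν z : ℂ)))) • (1 : En m))))
      + ∑ l, ((∑ μ, ∑ ν, g.hi (z + v) μ ν * g.K l μ ν (z + v) : ℝ) : ℂ) •
        (C.conn g 0 l (z + v) + (Complex.I * ((t : ℂ) * (((prim (Ω x) l (z + v) : ℝ) : ℂ) -
          (prim (Ω x) l z : ℂ)))) • (1 : En m))
      + ((g.scal (z + v) / 4 : ℝ) : ℂ) • (1 : En m) + C.curvB g (zPot (Ω x) t z) (z + v) := by
    unfold Cliff.cop
    simp only [hconn, hpd]
  have e3 : C.cop g 0 (z + v) = (-1 : ℂ) • (∑ μ, ∑ ν, (g.hi (z + v) μ ν : ℂ) •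
      (pd μ (C.conn g 0 ν) (z + v) + C.conn g 0 μ (z + v) * C.conn g 0 ν (z + v)))
      + ∑ l, ((∑ μ, ∑ ν, g.hi (z + v) μ ν * g.K l μ ν (z + v) : ℝ) : ℂ) • C.conn g 0 l (z + v)
      + ((g.scal (z + v) / 4 : ℝ) : ℂ) • (1 : En m) := by
    unfold Cliff.cop
    rw [P15C_curv0]
    exact add_zero _
  rw [e2, e3, P15C_curv C g h]
  refine Eq.trans ?_ key
  have gen : ∀ {M : Type} [AddCommGroup M] [Module ℂ M] (a b c : M),
      ((t : ℂ) ^ ((0 : Fin 3) : ℕ)) • a + ((t : ℂ) ^ ((1 : Fin 3) : ℕ)) • b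
      + ((t : ℂ) ^ ((2 : Fin 3) : ℕ)) • c = a + (t : ℂ) • b + (t : ℂ) ^ 2 • c := by
    intro M _ _ a b c
    change (t : ℂ) ^ 0 • a + (t : ℂ) ^ 1 • b + (t : ℂ) ^ 2 • c = _
    rw [pow_zero, pow_one, one_smul]
  exact gen _ _ _

private def P15D_at0 : Fm P N ρ →+* Rg P N ρ where
  toFun := at0
  map_one' := Rg.ext fun _ _ => rfl
  map_mul' _ _ := Rg.ext fun _ _ => rfl
  map_zero' := Rg.ext fun _ _ => rfl
  map_add' _ _ := Rg.ext fun _ _ => rfl

private theorem P15D_smul (c : ℂ) (f : Fm P N ρ) : at0 (c • f) = c • at0 f :=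
  Rg.ext fun _ _ => rfl

private theorem P15D_fpd_add (μ : Fin N) (f g : Fm P N ρ) :
    fpd μ (f + g) = fpd μ f + fpd μ g := by
  refine Fm.ext fun x z v => ?_
  have h := pv_add (f := f.1) (g := g.1) f.2.smooth g.2.smooth μ
  exact congrFun (congrFun (congrFun h x) z) v

private theorem P15D_fpd_mul (μ : Fin N) (f g : Fm P N ρ) :
    fpd μ (f * g) = f * fpd μ g + g * fpd μ f := by
  refine Fm.ext fun x z v => ?_
  have h := pv_mul (f := f.1) (g := g.1) f.2.smooth g.2.smooth μ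
  exact congrFun (congrFun (congrFun h x) z) v

private theorem P15D_fpd_zero (μ : Fin N) : fpd μ (0 : Fm P N ρ) = 0 := by
  have h := P15D_fpd_add μ (0 : Fm P N ρ) 0
  rw [add_zero] at h
  exact left_eq_add.mp h

private theorem P15D_fpd_sum {κ : Type*} (μ : Fin N) (s : Finset κ) (f : κ → Fm P N ρ) :
    fpd μ (∑ i ∈ s, f i) = ∑ i ∈ s, fpd μ (f i) := by
  let F : Fm P N ρ →+ Fm P N ρ := ⟨⟨fpd μ, P15D_fpd_zero μ⟩, P15D_fpd_add μ⟩
  exact map_sum F f s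

private theorem P15D_tay_zero (k : ℕ) : tay k (0 : Fm P N ρ) = 0 := by
  induction k with
  | zero =>
    have h : at0 (0 : Fm P N ρ) = 0 := Rg.ext fun _ _ => rfl
    change MvPolynomial.C (at0 (0 : Fm P N ρ)) = 0
    rw [h, map_zero]
  | succ k ih =>
    change (1 / ((k : ℂ) + 1)) • ∑ μ, MvPolynomial.X μ * tay k (fpd μ (0 : Fm P N ρ)) = 0
    simp only [P15D_fpd_zero, ih, mul_zero, Finset.sum_const_zero, smul_zero]

private theorem P15D_map (k : ℕ) (s : Fm P (2 * m) ρ) :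
    ((s • (1 : Matrix (Ix m) (Ix m) (Fm P (2 * m) ρ))).map (tay k) :
      PM (Ix m) (2 * m) (Rg P (2 * m) ρ)) = tay k s • 1 := by
  ext1 i j
  by_cases hij : i = j
  · subst hij
    rw [Matrix.map_apply, Matrix.smul_apply, Matrix.smul_apply, Matrix.one_apply_eq,
      Matrix.one_apply_eq, smul_eq_mul, smul_eq_mul, mul_one, mul_one]
  · rw [Matrix.map_apply, Matrix.smul_apply, Matrix.smul_apply, Matrix.one_apply_ne hij,
      Matrix.one_apply_ne hij, smul_zero, smul_zero, P15D_tay_zero]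

private theorem P15D_de (h : RForm P Ω) (ν : Fin (2 * m)) : at0 (deF (ρ := ρ) h ν) = 0 := by
  refine Rg.ext fun x z => ?_
  change (prim (Ω x) ν (z + 0) : ℂ) - (prim (Ω x) ν z : ℂ) = 0
  rw [add_zero, sub_self]

private theorem P15D_s1 (g : Geo (2 * m)) (h : RForm P Ω) (μ : Fin (2 * m)) :
    at0 (s1 (ρ := ρ) g h μ) = 0 := by
  unfold s1
  rw [P15D_smul]
  have h1 : at0 (∑ ν, hiF (P := P) (ρ := ρ) g μ ν * deF h ν) =
      P15D_at0 (∑ ν, hiF (P := P) (ρ := ρ) g μ ν * deF h ν) := rfl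
  have h2 : ∀ ν, P15D_at0 (deF (ρ := ρ) h ν) = 0 := P15D_de h
  rw [h1]
  simp only [map_sum, map_mul, h2, mul_zero, Finset.sum_const_zero, smul_zero]

private theorem P15D_s2 (g : Geo (2 * m)) (h : RForm P Ω) :
    at0 (s2 (ρ := ρ) g h) = 0 := by
  unfold s2
  have h1 : at0 (∑ μ, ∑ ν, hiF (P := P) (ρ := ρ) g μ ν * (deF h μ * deF h ν)) =
      P15D_at0 (∑ μ, ∑ ν, hiF (P := P) (ρ := ρ) g μ ν * (deF h μ * deF h ν)) := rfl
  have h2 : ∀ ν, P15D_at0 (deF (ρ := ρ) h ν) = 0 := P15D_de h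
  rw [h1]
  simp only [map_sum, map_mul, h2, mul_zero, Finset.sum_const_zero]

private theorem P15D_s2' (g : Geo (2 * m)) (h : RForm P Ω) (κ : Fin (2 * m)) :
    at0 (fpd κ (s2 (ρ := ρ) g h)) = 0 := by
  unfold s2
  simp only [P15D_fpd_sum, P15D_fpd_mul]
  have h2 : ∀ ν, P15D_at0 (deF (ρ := ρ) h ν) = 0 := P15D_de h
  have h3 : ∀ f : Fm P (2 * m) ρ, at0 f = P15D_at0 f := fun _ => rfl
  rw [h3]
  simp only [map_sum, map_mul, map_add, h2, mul_zero, zero_mul, add_zero,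
    Finset.sum_const_zero]

/-- PROOF. `at0 (deF h ν) = 0`. `b1`: `at0` is a ring homomorphism, every summand of `s1` contains `deF`.
`b2`: definition. `c20`, `c21`: the product `deF * deF` has value and first derivatives `0` at `v = 0`
(`fpd` is a derivation: `pv_mul`). -/
theorem dOp_ok (C : Cliff m) (g : Geo (2 * m)) (h : RForm P Ω) : (dOp (ρ := ρ) C g h).Ok where
  b1 := fun μ => by
    change (s1 (ρ := ρ) g h μ • (1 : Matrix (Ix m) (Ix m) (Fm P (2 * m) ρ))).map (tay 0) = 0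
    rw [P15D_map]
    change (MvPolynomial.C (at0 (s1 (ρ := ρ) g h μ)) : MvPolynomial (Fin (2 * m))
      (Rg P (2 * m) ρ)) • (1 : PM (Ix m) (2 * m) (Rg P (2 * m) ρ)) = 0
    rw [P15D_s1, map_zero, zero_smul]
  b2 := fun μ => rfl
  c20 := by
    change (s2 (ρ := ρ) g h • (1 : Matrix (Ix m) (Ix m) (Fm P (2 * m) ρ))).map (tay 0) = 0
    rw [P15D_map]
    change (MvPolynomial.C (at0 (s2 (ρ := ρ) g h)) : MvPolynomial (Fin (2 * m))
      (Rg P (2 * m) ρ)) • (1 : PM (Ix m) (2 * m) (Rg P (2 * m) ρ)) = 0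
    rw [P15D_s2, map_zero, zero_smul]
  c21 := by
    change (s2 (ρ := ρ) g h • (1 : Matrix (Ix m) (Ix m) (Fm P (2 * m) ρ))).map (tay 1) = 0
    rw [P15D_map]
    have h1 : tay 1 (s2 (ρ := ρ) g h) = 0 := by
      change (1 / (((0 : ℕ) : ℂ) + 1)) • ∑ μ, MvPolynomial.X μ *
        (MvPolynomial.C (at0 (fpd μ (s2 (ρ := ρ) g h))) :
          MvPolynomial (Fin (2 * m)) (Rg P (2 * m) ρ)) = 0
      simp only [P15D_s2', map_zero, mul_zero, Finset.sum_const_zero, smul_zero]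
    rw [h1, zero_smul]

/-- The curvature matrix at the base point. -/
def cuR (C : Cliff m) (g : Geo (2 * m)) (h : RForm P Ω) : Matrix (Ix m) (Ix m) (Rg P (2 * m) ρ) :=
  (cuM C g h).map at0

private def P15E_ev (x : X) (z v : V N) : Fm P N ρ →+* ℂ where
  toFun f := f.1 x z v
  map_one' := rfl
  map_mul' _ _ := rfl
  map_zero' := rfl
  map_add' _ _ := rfl

private theorem P15E_fr (g : Geo (2 * m)) (h : RForm P Ω) (a b : Fin (2 * m)) (x : X)
    (z : V (2 * m)) : (frF (ρ := ρ) g h a b).1 x z 0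
      = (Complex.I / 2) * ((g.fr (Ω x) z a b : ℝ) : ℂ) := by
  have h1 : (frF (ρ := ρ) g h a b).1 x z 0 = (Complex.I / 2) *
      P15E_ev x z 0 (∑ μ, ∑ ν, eF (P := P) (ρ := ρ) g μ a * omF h μ ν * eF g ν b) := rfl
  have h2 : P15E_ev x z 0 (∑ μ, ∑ ν, eF (P := P) (ρ := ρ) g μ a * omF h μ ν * eF g ν b)
      = ∑ μ, ∑ ν, (g.e (z + 0) μ a : ℂ) * (Ω x (z + 0) μ ν : ℂ) * (g.e (z + 0) ν b : ℂ) := by
    simp only [map_sum, map_mul]
    rfl
  have h3 : g.fr (Ω x) z a b = ∑ μ, ∑ ν, g.e z μ a * Ω x z μ ν * g.e z ν b := by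
    unfold Geo.fr
    rw [Matrix.mul_apply, Finset.sum_comm]
    refine Finset.sum_congr rfl fun ν _ => ?_
    rw [Matrix.mul_apply, Finset.sum_mul]
    rfl
  rw [h1, h2, h3, add_zero]
  push_cast
  rfl

/-- PROOF. `evF_sum`, `evF_smul`, `evF_detM` at `v = 0`. -/
theorem cuR_val (C : Cliff m) (g : Geo (2 * m)) (h : RForm P Ω) (x : X) (z : V (2 * m)) :
    toEn ((cuR (ρ := ρ) C g h).map fun u => u.1 x z)
      = (Complex.I / 2) • C.two (g.fr (Ω x) z) := by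
  have h0 : toEn ((cuR (ρ := ρ) C g h).map fun u => u.1 x z) = evF x z 0 (cuM (ρ := ρ) C g h) := rfl
  rw [h0]
  unfold cuM Cliff.two
  rw [evF_sum, Finset.smul_sum]
  refine Finset.sum_congr rfl fun a _ => ?_
  rw [evF_sum, Finset.smul_sum]
  refine Finset.sum_congr rfl fun b _ => ?_
  rw [evF_smul, evF_detM, P15E_fr, smul_smul]

/-- PROOF. `(s1 g h μ • 1).map (tay 1) = tay 1 (s1 g h μ) • 1` (`tay 1 0 = 0`). -/
theorem dOp_B1 (C : Cliff m) (g : Geo (2 * m)) (h : RForm P Ω) (μ : Fin (2 * m)) :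
    ∃ s : MvPolynomial (Fin (2 * m)) (Rg P (2 * m) ρ),
      ((dOp (ρ := ρ) C g h).dat g).B 1 2 μ = s • (1 : PM (Ix m) (2 * m) (Rg P (2 * m) ρ)) := by
  refine ⟨tay 1 (s1 (ρ := ρ) g h μ), ?_⟩
  exact P15D_map 1 (s1 (ρ := ρ) g h μ)

/-- PROOF. `D.c 1 2 = (c 1).map (tay 0)`, `tay 0 = C ∘ at0`, `at0` is a ring homomorphism and vanishes on
`deF`, so on `l1` and on the second part of `k1`; `s = C (at0 (k1 g h))`. -/
theorem dOp_c1 (C : Cliff m) (g : Geo (2 * m)) (h : RForm P Ω) :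
    ∃ s : MvPolynomial (Fin (2 * m)) (Rg P (2 * m) ρ),
      ((dOp (ρ := ρ) C g h).dat g).c 1 2 = (cuR C g h).map MvPolynomial.C
        + s • (1 : PM (Ix m) (2 * m) (Rg P (2 * m) ρ)) := by
  refine ⟨MvPolynomial.C (at0 (k1 (ρ := ρ) g h)), ?_⟩
  change (k1 (ρ := ρ) g h • (1 : Matrix (Ix m) (Ix m) (Fm P (2 * m) ρ))
      + ∑ ν, l1 (ρ := ρ) g h ν •
          detM (P := P) (ρ := ρ) (fun y => C.spin (g.Γ ν y)) (contDiff_spin C g ν)
      + cuM C g h).map (fun f => (MvPolynomial.C (P15D_at0 f) : MvPolynomial (Fin (2 * m))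
        (Rg P (2 * m) ρ))) = ((cuM C g h).map fun f => P15D_at0 f).map MvPolynomial.C
        + (MvPolynomial.C (P15D_at0 (k1 (ρ := ρ) g h)) : MvPolynomial (Fin (2 * m))
        (Rg P (2 * m) ρ)) • (1 : PM (Ix m) (2 * m) (Rg P (2 * m) ρ))
  have hl : ∀ ν, P15D_at0 (l1 (ρ := ρ) g h ν) = 0 := by
    intro ν
    change at0 (l1 (ρ := ρ) g h ν) = 0
    unfold l1
    rw [P15D_smul]
    have h1 : at0 (∑ μ, hiF (P := P) (ρ := ρ) g μ ν * deF h μ) =
        P15D_at0 (∑ μ, hiF (P := P) (ρ := ρ) g μ ν * deF h μ) := rfl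
    have h2 : ∀ ν, P15D_at0 (deF (ρ := ρ) h ν) = 0 := P15D_de h
    rw [h1]
    simp only [map_sum, map_mul, h2, mul_zero, Finset.sum_const_zero, smul_zero]
  ext1 i j
  simp only [Matrix.map_apply, Matrix.add_apply, Matrix.sum_apply, Matrix.smul_apply, smul_eq_mul,
    map_add, map_mul, map_sum, hl, zero_mul, Finset.sum_const_zero, add_zero]
  by_cases hij : i = j
  · subst hij
    rw [Matrix.one_apply_eq, Matrix.one_apply_eq, map_one, map_one]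
    ring
  · rw [Matrix.one_apply_ne hij, Matrix.one_apply_ne hij, map_zero, map_zero]
    ring

theorem dOp_B2 (C : Cliff m) (g : Geo (2 * m)) (h : RForm P Ω) (μ : Fin (2 * m)) :
    ∃ s : MvPolynomial (Fin (2 * m)) (Rg P (2 * m) ρ),
      ((dOp (ρ := ρ) C g h).dat g).B 2 4 μ = s • (1 : PM (Ix m) (2 * m) (Rg P (2 * m) ρ)) := by
  refine ⟨0, ?_⟩
  change (0 : Matrix (Ix m) (Ix m) (Fm P (2 * m) ρ)).map (tay 3) = _
  rw [zero_smul]
  ext1 i j
  rw [Matrix.map_apply, Matrix.zero_apply, P15D_tay_zero, Matrix.zero_apply]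

theorem dOp_c2 (C : Cliff m) (g : Geo (2 * m)) (h : RForm P Ω) :
    ∃ s : MvPolynomial (Fin (2 * m)) (Rg P (2 * m) ρ),
      ((dOp (ρ := ρ) C g h).dat g).c 2 4 = s • (1 : PM (Ix m) (2 * m) (Rg P (2 * m) ρ)) := by
  refine ⟨tay 2 (s2 (ρ := ρ) g h), ?_⟩
  exact P15D_map 2 (s2 (ρ := ρ) g h)

private theorem P15E_pd {u : V N → En m} (hu : ContDiff ℝ ∞ u) (w : Sp m) (z : V N) (μ : Fin N) :
    pd μ (fun y => u (y - z) w) = fun y => pd μ u (y - z) w := by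
  funext y
  have h1 : HasFDerivAt u (fderiv ℝ u (y - z)) (y - z) :=
    (hu.differentiable (by simp) (y - z)).hasFDerivAt
  have h2 : HasFDerivAt (fun y : V N => y - z) (ContinuousLinearMap.id ℝ (V N)) y :=
    (hasFDerivAt_id y).sub_const z
  have h3 : HasFDerivAt (fun y : V N => u (y - z))
      ((fderiv ℝ u (y - z)).comp (ContinuousLinearMap.id ℝ (V N))) y :=
    HasFDerivAt.comp y h1 h2
  let E : En m →L[ℝ] Sp m := (ContinuousLinearMap.apply ℂ (Sp m) w).restrictScalars ℝ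
  have h4 : HasFDerivAt (fun y : V N => E (u (y - z)))
      (E.comp ((fderiv ℝ u (y - z)).comp (ContinuousLinearMap.id ℝ (V N)))) y :=
    E.hasFDerivAt.comp y h3
  change fderiv ℝ (fun y : V N => E (u (y - z))) y (bv μ) = _
  rw [h4.fderiv]
  rfl

private theorem P15E_cd {u : V N → En m} (hu : ContDiff ℝ ∞ u) (w : Sp m) (z : V N) :
    ContDiff ℝ ∞ fun y => u (y - z) w :=
  ((ContinuousLinearMap.apply ℂ (Sp m) w).restrictScalars ℝ).contDiff.comp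
    (hu.comp (contDiff_id.sub contDiff_const))

private theorem P15E_sum {κ : Type*} (s : Finset κ) (A : κ → En m) (w : Sp m) :
    (∑ i ∈ s, A i) w = ∑ i ∈ s, A i w := by
  have h := map_sum (ContinuousLinearMap.apply ℂ (Sp m) w) A s
  exact h

/-- The operator `L` is the square of the Dirac operator.
PROOF. `dirac_sq` (Y4) for `φ y = u (y - z) w`, potential `zPot`, at the point `z + v`; `pd μ (fun y => u (y - z) w)`
is `fun y => pd μ u (y - z) w` (chain rule, evaluation at `w` is linear); `dOp_bT`, `dOp_cT`. -/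
theorem dirac_L (C : Cliff m) (g : Geo (2 * m)) (h : RForm P Ω) (t : ℝ) (x : X)
    (z v : V (2 * m)) {u : V (2 * m) → En m} (hu : ContDiff ℝ ∞ u) (w : Sp m) :
    C.dirac g (zPot (Ω x) t z) (C.dirac g (zPot (Ω x) t z) fun y => u (y - z) w) (z + v)
      = ((dOp (ρ := ρ) C g h).L g t x z u v) w := by
  have hv : z + v - z = v := add_sub_cancel_left z v
  rw [dirac_sq C g (isPot_zPot (h.closed x) t z) (P15E_cd hu w z) (z + v)]
  have e1 : ∀ μ ν, pd μ (pd ν (fun y => u (y - z) w)) (z + v) = pd μ (pd ν u) v w := by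
    intro μ ν
    rw [P15E_pd hu w z ν, P15E_pd (contDiff_pd hu ν) w z μ]
    change (pd μ (pd ν u) (z + v - z)) w = _
    rw [hv]
  have e2 : ∀ μ, pd μ (fun y => u (y - z) w) (z + v) = pd μ u v w := by
    intro μ
    rw [P15E_pd hu w z μ]
    change (pd μ u (z + v - z)) w = _
    rw [hv]
  have e3 : ((dOp (ρ := ρ) C g h).L g t x z u v) w
      = - (∑ μ, ∑ ν, (g.hi (z + v) μ ν : ℂ) • pd μ (pd ν u) v) w
        + (∑ μ, (dOp (ρ := ρ) C g h).bT t x z v μ * pd μ u v) w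
        + ((dOp (ρ := ρ) C g h).cT t x z v * u v) w := rfl
  have e4 : (∑ μ, ∑ ν, (g.hi (z + v) μ ν : ℂ) • pd μ (pd ν u) v) w
      = ∑ μ, ∑ ν, (g.hi (z + v) μ ν : ℂ) • (pd μ (pd ν u) v w) := by
    rw [P15E_sum]
    refine Finset.sum_congr rfl fun μ _ => ?_
    rw [P15E_sum]
    rfl
  have e5 : (∑ μ, (dOp (ρ := ρ) C g h).bT t x z v μ * pd μ u v) w
      = ∑ μ, (dOp (ρ := ρ) C g h).bT t x z v μ (pd μ u v w) := by
    rw [P15E_sum]
    rfl
  have e6 : ((dOp (ρ := ρ) C g h).cT t x z v * u v) w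
      = (dOp (ρ := ρ) C g h).cT t x z v (u v w) := rfl
  rw [e3, e4, e5, e6, dOp_cT]
  simp only [e1, e2, hv, dOp_bT]

end random

end Pool.Agent.Lib.MP_df705a_gt.RL
end
end
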