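import Pool.Agent.Lib.MP_df705a_gt.Mg.G052
import Pool.Agent.Lib.MP_df705a_gt.Mg.G042
import Pool.Agent.Lib.MP_df705a_gt.Mg.G043
import Pool.Agent.Lib.MP_df705a_gt.Mg.G030
import Pool.Agent.Lib.MP_df705a_gt.Mg.G037
import Pool.Agent.Lib.MP_df705a_gt.Mg.G034
import Pool.Agent.Lib.MP_df705a_gt.Mg.G040
import Pool.Agent.Lib.MP_df705a_gt.Mg.G049

section

/-!
# RL2, Z2: the size of the potential term, finiteness
-/

open scoped ContDiff InnerProductSpace Matrix ENNReal NNReal Topology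
open MeasureTheory Filter Set

noncomputable section

namespace Pool.Agent.Lib.MP_df705a_gt.RL

variable {m : ℕ}

/-- `(w - σ/2)₊ ≤ w^(M+1) (2/σ)^M`. -/
theorem trunc_le {w σ : ℝ} (hw : 0 ≤ w) (hσ : 0 < σ) (M : ℕ) :
    max 0 (w - σ / 2) ≤ w ^ (M + 1) * (2 / σ) ^ M := by
  rcases le_or_gt w (σ / 2) with h | h
  · rw [max_eq_left (by linarith)]
    positivity
  · have h1 : 1 ≤ w * (2 / σ) := by
      rw [← mul_div_assoc, le_div_iff₀ hσ]
      linarith
    have h2 : w ^ (M + 1) * (2 / σ) ^ M = w * (w * (2 / σ)) ^ M := by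
      rw [pow_succ, mul_pow]
      ring
    rw [h2]
    refine max_le (by positivity) ?_
    calc w - σ / 2 ≤ w * 1 := by linarith
      _ ≤ w * (w * (2 / σ)) ^ M := mul_le_mul_of_nonneg_left (one_le_pow₀ h1) hw

/-- `m (∑ fr²)^(1/2)` is bounded on a ball by a random variable with all moments (`Rand.mom` with
`k = 0`; the entries of `e` are bounded on the ball). -/
theorem exists_w_bound (g : Geo (2 * m)) {X : Type*} [MeasurableSpace X]
    {P : Measure X} [IsProbabilityMeasure P] {G : Type*} [Group G] [MulAction G X]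
    {a : Act G (2 * m)} {Ω : X → V (2 * m) → Mt (2 * m)} (h : Rand P a Ω)
    {F : Set (V (2 * m))} (hFb : Bornology.IsBounded F) :
    ∃ L : X → ℝ, Mom P L ∧ ∀ x, ∀ y ∈ F, m * √(∑ a, ∑ b, (g.fr (Ω x) y a b) ^ 2) ≤ L x := by
  obtain ⟨r, hr⟩ := hFb.subset_closedBall 0
  obtain ⟨L, hL1, hL2, hL3, hL4⟩ := h.mom r 0
  have hΩb : ∀ x, ∀ μ ν, ∀ y, ‖y‖ ≤ r → |Ω x y μ ν| ≤ L x := by
    intro x μ ν y hy
    have h1 := hL4 x 0 le_rfl μ ν y hy
    rwa [norm_iteratedFDeriv_zero, Real.norm_eq_abs] at h1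
  have hc : Continuous fun y : V (2 * m) => ∑ μ, ∑ b, |g.e y μ b| :=
    continuous_finsetSum _ fun μ _ => continuous_finsetSum _ fun b _ =>
      (g.smooth_e μ b).continuous.abs
  obtain ⟨E, hE⟩ := (isCompact_closedBall (0 : V (2 * m)) r).exists_bound_of_continuousOn
    hc.continuousOn
  have hEb : ∀ y : V (2 * m), ‖y‖ ≤ r → ∀ μ b, |g.e y μ b| ≤ |E| := by
    intro y hy μ b
    have h1 := hE y (mem_closedBall_zero_iff.2 hy)
    have h2 : |g.e y μ b| ≤ ∑ μ, ∑ b, |g.e y μ b| :=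
      (Finset.single_le_sum (f := fun b => |g.e y μ b|) (fun _ _ => abs_nonneg _)
        (Finset.mem_univ b)).trans
        (Finset.single_le_sum (f := fun μ => ∑ b, |g.e y μ b|)
          (fun _ _ => Finset.sum_nonneg fun _ _ => abs_nonneg _) (Finset.mem_univ μ))
    exact h2.trans ((le_abs_self _).trans (h1.trans (le_abs_self E)))
  have hL : Mom P L := ⟨hL1, fun x => zero_le_one.trans (hL2 x), hL3⟩
  set c : ℝ := ∑ _ν : Fin (2 * m), (∑ _μ : Fin (2 * m), |E| * 1) * |E| with hcdef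
  have hc0 : 0 ≤ c := Finset.sum_nonneg fun _ _ => mul_nonneg
    (Finset.sum_nonneg fun _ _ => by positivity) (abs_nonneg _)
  refine ⟨fun x => (m * √(∑ _a : Fin (2 * m), ∑ _b : Fin (2 * m), c ^ 2)) * L x,
    hL.const_mul (by positivity), fun x y hy => ?_⟩
  have hy' : ‖y‖ ≤ r := mem_closedBall_zero_iff.1 (hr hy)
  have h0 : 0 ≤ L x := hL.nonneg x
  have h1 : ∀ a b, |g.fr (Ω x) y a b| ≤ c * L x := by
    intro a b
    have h2 : g.fr (Ω x) y a b = ∑ ν, (∑ μ, g.e y μ a * Ω x y μ ν) * g.e y ν b := by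
      simp only [Geo.fr, Matrix.mul_apply, Matrix.transpose_apply]
    rw [h2, hcdef, Finset.sum_mul]
    refine (Finset.abs_sum_le_sum_abs _ _).trans (Finset.sum_le_sum fun ν _ => ?_)
    rw [abs_mul]
    have h3 : |∑ μ, g.e y μ a * Ω x y μ ν| ≤ (∑ _μ : Fin (2 * m), |E| * 1) * L x := by
      rw [Finset.sum_mul]
      refine (Finset.abs_sum_le_sum_abs _ _).trans (Finset.sum_le_sum fun μ _ => ?_)
      rw [abs_mul, mul_one]
      exact mul_le_mul (hEb y hy' μ a) (hΩb x μ ν y hy') (abs_nonneg _) (abs_nonneg _)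
    calc |∑ μ, g.e y μ a * Ω x y μ ν| * |g.e y ν b|
        ≤ ((∑ _μ : Fin (2 * m), |E| * 1) * L x) * |E| :=
          mul_le_mul h3 (hEb y hy' ν b) (abs_nonneg _) ((abs_nonneg _).trans h3)
      _ = (∑ _μ : Fin (2 * m), |E| * 1) * |E| * L x := by ring
  have h4 : √(∑ a, ∑ b, (g.fr (Ω x) y a b) ^ 2)
      ≤ √(∑ _a : Fin (2 * m), ∑ _b : Fin (2 * m), c ^ 2) * L x := by
    rw [← Real.sqrt_sq h0, ← Real.sqrt_mul (by positivity)]
    refine Real.sqrt_le_sqrt ?_
    rw [Finset.sum_mul]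
    refine Finset.sum_le_sum fun a _ => ?_
    rw [Finset.sum_mul]
    refine Finset.sum_le_sum fun b _ => ?_
    rw [← mul_pow, ← sq_abs]
    exact pow_le_pow_left₀ (abs_nonneg _) (h1 a b) 2
  calc _ ≤ m * (√(∑ _a : Fin (2 * m), ∑ _b : Fin (2 * m), c ^ 2) * L x) := by gcongr
    _ = _ := by ring

/-- The potential term. By `hs_le` for `s = 1/2`, `A = Mop`, `v z = √(V z)`, `V ≤
(t L x)^(m+1) (2/σ)^m` on `F` (`trunc_le`, `wcurv_tp`): the integrand is at most
`a (Φ x)² 2^m t^(m+1) (L x)^(m+1) (2/σ)^m vol F`. -/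
theorem delta_le (C : Cliff m) (g : Geo (2 * m)) {σ : ℝ} (hσ : 0 < σ)
    {X : Type*} [MeasurableSpace X] {P : Measure X} [IsProbabilityMeasure P] {G : Type*}
    [Group G] [MulAction G X] {a : Act G (2 * m)} {Ω : X → V (2 * m) → Mt (2 * m)}
    (hΩ : Rand P a Ω) {F : Set (V (2 * m))} (hF : MeasurableSet F)
    (hFb : Bornology.IsBounded F) {κ r₀ : ℝ} (hκ : 0 < κ) {Φ : X → ℝ} (hΦ : Mom P Φ)
    (hpar : ∀ x t, |t| ≤ 1 → ∃ q qd e : ℝ → V (2 * m) → V (2 * m) → En m,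
      Para C g (tp (Ω x) t) F q qd e (Φ x) κ r₀) :
    ∃ c : ℝ, 0 ≤ c ∧ ∀ t, 0 ≤ t → t ≤ 1 → ∀ κ' : ℝ, κ' ^ 2 = 1 → ∀ n : ℕ,
      ∫⁻ x, RL.hs (Sop (Rop (C.Eps g κ') (C.Gr g (tp (Ω x) t))) (1 / 2)
        * Mop g (tp (Ω x) t) σ n * g.ind F) ∂P ≤ ENNReal.ofReal (c * t ^ (m + 1)) := by
  obtain ⟨b, hb0, hb⟩ := hs_le g κ r₀ hκ
  obtain ⟨L, hL, hLb⟩ := exists_w_bound g hΩ hFb
  have hvol : g.vol F ≠ (⊤ : ℝ≥0∞) := ((measure_mono (hFb.subset_closedBall 0).choose_spec).trans_lt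
    (isCompact_closedBall (0 : V (2 * m)) _).measure_lt_top).ne
  set v₀ : ℝ := (g.vol F).toReal with hv₀
  have hv₀0 : 0 ≤ v₀ := ENNReal.toReal_nonneg
  set D : ℝ := b / (1 / 2) ^ m * ((2 / σ) ^ m * v₀) with hD
  have hD0 : 0 ≤ D := by positivity
  have hM : Mom P fun x => Φ x ^ 2 * L x ^ (m + 1) := (hΦ.pow 2).mul (hL.pow (m + 1))
  have hMi : Integrable (fun x => Φ x ^ 2 * L x ^ (m + 1)) P := by
    have := hM.int 1
    simpa using this
  refine ⟨D * ∫ x, Φ x ^ 2 * L x ^ (m + 1) ∂P, mul_nonneg hD0 (integral_nonneg hM.nonneg),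
    fun t ht0 ht1 κ' hκ' n => ?_⟩
  have key : ∀ x, RL.hs (Sop (Rop (C.Eps g κ') (C.Gr g (tp (Ω x) t))) (1 / 2)
      * Mop g (tp (Ω x) t) σ n * g.ind F)
      ≤ ENNReal.ofReal (D * t ^ (m + 1) * (Φ x ^ 2 * L x ^ (m + 1))) := by
    intro x
    obtain ⟨q, qd, e, hP⟩ := hpar x t (abs_le.2 ⟨by linarith, ht1⟩)
    have hB : IsPot (tp (Ω x) t) := isPot_tp (hΩ.closed x) t
    have h1 := hb C (tp (Ω x) t) hB κ' hκ' F hF hFb q qd e (Φ x) hP (1 / 2) (by norm_num)
      (by norm_num) (fun y => ((√(min (Vpot g (tp (Ω x) t) σ y) n) : ℝ) : ℂ) • (1 : En m))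
      (bddM_Mop g hB σ n) (fun z => √(Vpot g (tp (Ω x) t) σ z)) (fun z _ => by
        refine (norm_smul_le ((√(min (Vpot g (tp (Ω x) t) σ z) n) : ℝ) : ℂ) (1 : En m)).trans ?_
        have h2 : ‖(1 : En m)‖ ≤ 1 := ContinuousLinearMap.norm_id_le
        have h3 : ‖((√(min (Vpot g (tp (Ω x) t) σ z) n) : ℝ) : ℂ)‖
            = √(min (Vpot g (tp (Ω x) t) σ z) n) := by
          rw [Complex.norm_real, Real.norm_of_nonneg (Real.sqrt_nonneg _)]
        rw [h3]
        calc √(min (Vpot g (tp (Ω x) t) σ z) n) * ‖(1 : En m)‖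
            ≤ √(min (Vpot g (tp (Ω x) t) σ z) n) * 1 :=
              mul_le_mul_of_nonneg_left h2 (Real.sqrt_nonneg _)
          _ = √(min (Vpot g (tp (Ω x) t) σ z) n) := mul_one _
          _ ≤ √(Vpot g (tp (Ω x) t) σ z) := Real.sqrt_le_sqrt (min_le_left _ _))
    refine h1.trans ?_
    have hV0 : ∀ z, 0 ≤ Vpot g (tp (Ω x) t) σ z := fun z => le_max_left _ _
    have h4 : ∫⁻ z in F, ENNReal.ofReal (√(Vpot g (tp (Ω x) t) σ z) ^ 2) ∂g.vol
        ≤ ENNReal.ofReal ((t * L x) ^ (m + 1) * (2 / σ) ^ m) * g.vol F := by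
      rw [← setLIntegral_const]
      refine setLIntegral_mono' hF fun z hz => ENNReal.ofReal_le_ofReal ?_
      rw [Real.sq_sqrt (hV0 z)]
      have h5 : wcurv g (tp (Ω x) t) z ≤ t * L x := by
        rw [wcurv_tp g (hΩ.closed x), abs_of_nonneg ht0]
        exact mul_le_mul_of_nonneg_left (hLb x z hz) ht0
      have h6 : 0 ≤ wcurv g (tp (Ω x) t) z := by
        unfold wcurv
        positivity
      refine (trunc_le h6 hσ m).trans ?_
      exact mul_le_mul_of_nonneg_right (pow_le_pow_left₀ h6 h5 _) (by positivity)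
    have h7 : g.vol F = ENNReal.ofReal v₀ := (ENNReal.ofReal_toReal hvol).symm
    have hΦ0 := hΦ.nonneg x
    have hL0 := hL.nonneg x
    calc _ ≤ ENNReal.ofReal (b * Φ x ^ 2 / (1 / 2) ^ m)
          * (ENNReal.ofReal ((t * L x) ^ (m + 1) * (2 / σ) ^ m) * ENNReal.ofReal v₀) := by
          rw [← h7]
          gcongr
      _ = ENNReal.ofReal (D * t ^ (m + 1) * (Φ x ^ 2 * L x ^ (m + 1))) := by
          rw [← ENNReal.ofReal_mul (by positivity), ← ENNReal.ofReal_mul (by positivity)]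
          congr 1
          rw [hD]
          ring
  refine (lintegral_mono key).trans ?_
  have hi : Integrable (fun x => D * t ^ (m + 1) * (Φ x ^ 2 * L x ^ (m + 1))) P :=
    hMi.const_mul _
  rw [← ofReal_integral_eq_lintegral_ofReal hi (Eventually.of_forall fun x =>
    mul_nonneg (by positivity) (hM.nonneg x))]
  refine ENNReal.ofReal_le_ofReal (le_of_eq ?_)
  rw [integral_const_mul]
  ring

/-- Finiteness: `hs_le` for constant functions `A = (1 ± κ' eps)/2` (`Pip (Eps) = mulE A`,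
`‖A‖ ≤ 1`). -/
theorem hs_pm_le (C : Cliff m) (g : Geo (2 * m)) {X : Type*} [MeasurableSpace X]
    {P : Measure X} [IsProbabilityMeasure P] {G : Type*} [Group G] [MulAction G X]
    {a : Act G (2 * m)} {Ω : X → V (2 * m) → Mt (2 * m)}
    (hΩ : Rand P a Ω) {F : Set (V (2 * m))} (hF : MeasurableSet F)
    (hFb : Bornology.IsBounded F) {κ r₀ : ℝ} (hκ : 0 < κ) {Φ : X → ℝ}
    (hpar : ∀ x t, |t| ≤ 1 → ∃ q qd e : ℝ → V (2 * m) → V (2 * m) → En m,
      Para C g (tp (Ω x) t) F q qd e (Φ x) κ r₀) :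
    ∃ c : ℝ, 0 ≤ c ∧ ∀ t, |t| ≤ 1 → ∀ κ' : ℝ, κ' ^ 2 = 1 → ∀ s, 0 < s → s ≤ 1 → ∀ x,
      RL.hs (Sop (Rop (C.Eps g κ') (C.Gr g (tp (Ω x) t))) s * Pip (C.Eps g κ') * g.ind F)
        ≤ ENNReal.ofReal (c * Φ x ^ 2 / s ^ m) ∧
      RL.hs (Sop (Rop (C.Eps g κ') (C.Gr g (tp (Ω x) t))) s * Pim (C.Eps g κ') * g.ind F)
        ≤ ENNReal.ofReal (c * Φ x ^ 2 / s ^ m) := by
  obtain ⟨b, hb0, hb⟩ := hs_le g κ r₀ hκ
  have hvol : g.vol F ≠ (⊤ : ℝ≥0∞) := ((measure_mono (hFb.subset_closedBall 0).choose_spec).trans_lt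
    (isCompact_closedBall (0 : V (2 * m)) _).measure_lt_top).ne
  set v₀ : ℝ := (g.vol F).toReal with hv₀
  have hv₀0 : 0 ≤ v₀ := ENNReal.toReal_nonneg
  set β : ℝ := (1 / 2) * (‖(1 : En m)‖ + ‖C.eps‖) with hβ
  have hβ0 : 0 ≤ β := by positivity
  have key : ∀ t, |t| ≤ 1 → ∀ κ' : ℝ, κ' ^ 2 = 1 → ∀ κ₁ : ℝ, κ₁ ^ 2 = 1 → ∀ s, 0 < s → s ≤ 1 →
      ∀ x, RL.hs (Sop (Rop (C.Eps g κ') (C.Gr g (tp (Ω x) t))) s * C.pj g κ₁ * g.ind F)
        ≤ ENNReal.ofReal (b * β ^ 2 * v₀ * Φ x ^ 2 / s ^ m) := by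
    intro t ht κ' hκ' κ₁ hκ₁ s hs0 hs1 x
    obtain ⟨q, qd, e, hP⟩ := hpar x t ht
    have hB : IsPot (tp (Ω x) t) := isPot_tp (hΩ.closed x) t
    have hκ₁' : |κ₁| = 1 := by
      rw [sq] at hκ₁
      exact (abs_eq zero_le_one).2 (mul_self_eq_one_iff.1 hκ₁)
    have h1 := hb C (tp (Ω x) t) hB κ' hκ' F hF hFb q qd e (Φ x) hP s hs0 hs1
      (fun _ => (1 / 2 : ℂ) • (1 + (κ₁ : ℂ) • C.eps)) (BddM.const _) (fun _ => β) (fun z _ => by
        refine (norm_smul_le (1 / 2 : ℂ) ((1 : En m) + (κ₁ : ℂ) • C.eps)).trans ?_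
        have h2 : ‖(1 / 2 : ℂ)‖ = 1 / 2 := by norm_num
        rw [h2, hβ]
        refine mul_le_mul_of_nonneg_left ?_ (by norm_num)
        refine (norm_add_le _ _).trans (add_le_add le_rfl ((norm_smul_le (κ₁ : ℂ) C.eps).trans ?_))
        rw [Complex.norm_real, Real.norm_eq_abs, hκ₁', one_mul])
    refine h1.trans ?_
    rw [setLIntegral_const]
    have h7 : g.vol F = ENNReal.ofReal v₀ := (ENNReal.ofReal_toReal hvol).symm
    rw [h7, ← ENNReal.ofReal_mul (by positivity), ← ENNReal.ofReal_mul (by positivity)]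
    refine ENNReal.ofReal_le_ofReal (le_of_eq ?_)
    ring
  refine ⟨b * β ^ 2 * v₀, by positivity, fun t ht κ' hκ' s hs0 hs1 x => ⟨?_, ?_⟩⟩
  · have h1 : Pip (C.Eps g κ') = C.pj g κ' := (C.pj_eq g κ').symm
    rw [h1]
    exact key t ht κ' hκ' κ' hκ' s hs0 hs1 x
  · have h1 : Pim (C.Eps g κ') = C.pj g (-κ') := by
      rw [C.pj_eq g (-κ')]
      have h2 : C.Eps g (-κ') = - C.Eps g κ' := by
        have h3 : C.Eps g (-κ') = (-1 : ℂ) • C.Eps g κ' := by
          unfold Cliff.Eps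
          rw [← g.mulE_smul (BddM.const _)]
          congr 1
          funext y
          rw [smul_smul]
          push_cast
          ring_nf
        rw [h3, neg_one_smul]
      rw [h2, ← sub_eq_add_neg]
      rfl
    rw [h1]
    exact key t ht κ' hκ' (-κ') (by rw [neg_sq, hκ']) s hs0 hs1 x

end Pool.Agent.Lib.MP_df705a_gt.RL
end
end

section

/-!
# RL2, Z4: the index theorem for random line bundles (assembly)
-/

open scoped ContDiff InnerProductSpace Matrix ENNReal NNReal Topology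
open MeasureTheory Filter Set

noncomputable section

namespace Pool.Agent.Lib.MP_df705a_gt.RL

variable {m : ℕ}

namespace RSys

variable {H : Type*} [NormedAddCommGroup H] [InnerProductSpace ℂ H] [CompleteSpace H]
  {G X : Type*} [Group G] [MulAction G X] [MeasurableSpace X] {μ : Measure X}

theorem meas_hs [TopologicalSpace.SeparableSpace H] (S : RSys G X μ H) {r : ℝ} (hr : 0 < r)
    (T : H →L[ℂ] H) : Measurable fun x => hs (Sop (S.R x) r * T * S.p 1) :=
  measurable_hs (SM_mul (SM_mul (SM_cfc S.isCon S.SM_R (fS_continuous hr).continuousOn)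
    (SM_const _)) (SM_const _))

end RSys

variable {X : Type*} [MeasurableSpace X] {P : Measure X}

/-- The Hilbert-Schmidt norms. -/
def hsP (C : Cliff m) (g : Geo (2 * m)) (F : Set (V (2 * m))) (B : Pot (2 * m)) (κ' r : ℝ) :
    ℝ≥0∞ :=
  RL.hs (Sop (Rop (C.Eps g κ') (C.Gr g B)) r * Pip (C.Eps g κ') * g.ind F)

/-- The Hilbert-Schmidt norms. -/
def hsM (C : Cliff m) (g : Geo (2 * m)) (F : Set (V (2 * m))) (B : Pot (2 * m)) (κ' r : ℝ) :
    ℝ≥0∞ :=
  RL.hs (Sop (Rop (C.Eps g κ') (C.Gr g B)) r * Pim (C.Eps g κ') * g.ind F)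

theorem toReal_sub_of_add {a b a' b' J : ℝ≥0∞} (h1 : a = a' + J) (h2 : b = b' + J)
    (ha : a ≠ ⊤) : a.toReal - b.toReal = a'.toReal - b'.toReal ∨ b = ⊤ := by
  have hJ : J ≠ ⊤ := by
    intro h
    rw [h1, h, add_top] at ha
    exact ha rfl
  have ha' : a' ≠ ⊤ := by
    intro h
    rw [h1, h, top_add] at ha
    exact ha rfl
  by_cases hb : b' = ⊤
  · right
    rw [h2, hb, top_add]
  · left
    rw [h1, h2, ENNReal.toReal_add ha' hJ, ENNReal.toReal_add hb hJ]
    ring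

/-- The index: it does not depend on `r`, and the one-sided inequality. -/
theorem index_facts' [IsProbabilityMeasure P] {G : Type*} [Group G] [Countable G] [MulAction G X]
    (hμ : ∀ γ : G, MeasurePreserving (fun x : X => γ • x) P P)
    (C : Cliff m) (g : Geo (2 * m)) (hcut : Cutoffs g) {c₀ σ : ℝ} (hc₀ : 0 < c₀) (hσ : 0 < σ)
    (hL : LichC C g c₀ σ) {a : Act G (2 * m)} (ha : a.Iso g)
    {F : Set (V (2 * m))} (hF : a.Fund F) {Ω : X → V (2 * m) → Mt (2 * m)} (hΩ : Rand P a Ω)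
    {κ r₀ : ℝ} (hκ : 0 < κ) {Φ : X → ℝ} (hΦ : Mom P Φ)
    (hpar : ∀ x t, |t| ≤ 1 → ∃ q qd e : ℝ → V (2 * m) → V (2 * m) → En m,
      Para C g (tp (Ω x) t) F q qd e (Φ x) κ r₀) :
    ∃ c : ℝ, ∀ t, 0 ≤ t → t ≤ 1 → ∀ κ' : ℝ, κ' ^ 2 = 1 →
      (∀ r, 0 < r → r ≤ 1 →
        (Measurable fun x => (hsP C g F (tp (Ω x) t) κ' r).toReal
          - (hsM C g F (tp (Ω x) t) κ' r).toReal) ∧
        (Integrable (fun x => (hsP C g F (tp (Ω x) t) κ' r).toReal
          - (hsM C g F (tp (Ω x) t) κ' r).toReal) P) ∧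
        ∫ x, ((hsP C g F (tp (Ω x) t) κ' r).toReal - (hsM C g F (tp (Ω x) t) κ' r).toReal) ∂P
          = ∫ x, ((hsP C g F (tp (Ω x) t) κ' 1).toReal
            - (hsM C g F (tp (Ω x) t) κ' 1).toReal) ∂P) ∧
      ∫ x, ((hsP C g F (tp (Ω x) t) κ' 1).toReal - (hsM C g F (tp (Ω x) t) κ' 1).toReal) ∂P
        ≤ c * t ^ (m + 1) := by
  obtain ⟨c1, hc1, hd⟩ := delta_le C g hσ hΩ hF.meas hF.bdd hκ hΦ hpar
  obtain ⟨c2, hc2, hf⟩ := hs_pm_le C g hΩ hF.meas hF.bdd hκ hpar
  refine ⟨c1 / c₀, fun t ht0 ht1 κ' hκ' => ?_⟩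
  have htt : |t| ≤ 1 := by rw [abs_of_nonneg ht0]; exact ht1
  obtain ⟨S, hS1, hS2, hS3, hS4, hS5⟩ := exists_rsys' C g hcut hc₀ hL ha hF hΩ t hκ'
  have hR : ∀ x, S.R x = Rop (C.Eps g κ') (C.Gr g (tp (Ω x) t)) := by
    intro x
    unfold RSys.R
    rw [hS1, hS2]
  have eP : ∀ r x, RL.hs (Sop (S.R x) r * Pip S.eps * S.p 1) = hsP C g F (tp (Ω x) t) κ' r := by
    intro r x
    unfold hsP
    rw [hR, hS1, hS3]
  have eM : ∀ r x, RL.hs (Sop (S.R x) r * Pim S.eps * S.p 1) = hsM C g F (tp (Ω x) t) κ' r := by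
    intro r x
    unfold hsM
    rw [hR, hS1, hS3]
  have mP : ∀ r, 0 < r → Measurable fun x => hsP C g F (tp (Ω x) t) κ' r := by
    intro r hr
    have := S.meas_hs hr (Pip S.eps)
    simp only [eP] at this
    exact this
  have mM : ∀ r, 0 < r → Measurable fun x => hsM C g F (tp (Ω x) t) κ' r := by
    intro r hr
    have := S.meas_hs hr (Pim S.eps)
    simp only [eM] at this
    exact this
  have bP : ∀ r, 0 < r → r ≤ 1 → ∀ x, hsP C g F (tp (Ω x) t) κ' r
      ≤ ENNReal.ofReal (c2 * Φ x ^ 2 / r ^ m) := fun r hr hr1 x => (hf t htt κ' hκ' r hr hr1 x).1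
  have bM : ∀ r, 0 < r → r ≤ 1 → ∀ x, hsM C g F (tp (Ω x) t) κ' r
      ≤ ENNReal.ofReal (c2 * Φ x ^ 2 / r ^ m) := fun r hr hr1 x => (hf t htt κ' hκ' r hr hr1 x).2
  have hint : ∀ r : ℝ, Integrable (fun x => c2 * Φ x ^ 2 / r ^ m) P := fun r =>
    ((hΦ.int 2).const_mul c2).div_const _
  have finL : ∀ r : ℝ, 0 < r → ∫⁻ x, ENNReal.ofReal (c2 * Φ x ^ 2 / r ^ m) ∂P ≠ ⊤ := by
    intro r hr
    have := (hint r).lintegral_lt_top
    exact this.ne
  have fP : ∀ r, 0 < r → r ≤ 1 → ∫⁻ x, hsP C g F (tp (Ω x) t) κ' r ∂P ≠ ⊤ := fun r hr hr1 =>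
    ne_top_of_le_ne_top (finL r hr) (lintegral_mono (bP r hr hr1))
  have fM : ∀ r, 0 < r → r ≤ 1 → ∫⁻ x, hsM C g F (tp (Ω x) t) κ' r ∂P ≠ ⊤ := fun r hr hr1 =>
    ne_top_of_le_ne_top (finL r hr) (lintegral_mono (bM r hr hr1))
  have pP : ∀ r, S.phiP (2 * r) = ∫⁻ x, hsP C g F (tp (Ω x) t) κ' r ∂P := by
    intro r
    unfold RSys.phiP
    have h2 : 2 * r / 2 = r := by ring
    rw [h2]
    exact lintegral_congr fun x => eP r x
  have pM : ∀ r, S.phiM (2 * r) = ∫⁻ x, hsM C g F (tp (Ω x) t) κ' r ∂P := by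
    intro r
    unfold RSys.phiM
    have h2 : 2 * r / 2 = r := by ring
    rw [h2]
    exact lintegral_congr fun x => eM r x
  have iP : ∀ r, 0 < r → r ≤ 1 → Integrable (fun x => (hsP C g F (tp (Ω x) t) κ' r).toReal) P :=
    fun r hr hr1 => integrable_toReal_of_lintegral_ne_top (mP r hr).aemeasurable (fP r hr hr1)
  have iM : ∀ r, 0 < r → r ≤ 1 → Integrable (fun x => (hsM C g F (tp (Ω x) t) κ' r).toReal) P :=
    fun r hr hr1 => integrable_toReal_of_lintegral_ne_top (mM r hr).aemeasurable (fM r hr hr1)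
  have vI : ∀ r, 0 < r → r ≤ 1 →
      ∫ x, ((hsP C g F (tp (Ω x) t) κ' r).toReal - (hsM C g F (tp (Ω x) t) κ' r).toReal) ∂P
        = (S.phiP (2 * r)).toReal - (S.phiM (2 * r)).toReal := by
    intro r hr hr1
    rw [integral_sub (iP r hr hr1) (iM r hr hr1), pP, pM,
      integral_toReal (mP r hr).aemeasurable (Eventually.of_forall fun x =>
        (bP r hr hr1 x).trans_lt ENNReal.ofReal_lt_top),
      integral_toReal (mM r hr).aemeasurable (Eventually.of_forall fun x =>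
        (bM r hr hr1 x).trans_lt ENNReal.ofReal_lt_top)]
  constructor
  · intro r hr hr1
    refine ⟨(mP r hr).ennreal_toReal.sub (mM r hr).ennreal_toReal,
      (iP r hr hr1).sub (iM r hr hr1), ?_⟩
    rw [vI r hr hr1, vI 1 one_pos le_rfl]
    obtain ⟨J, hJ1, hJ2⟩ := RSys.mckean_singer hμ S (s := 2 * r) (t := 2 * 1) (by linarith)
      (by linarith)
    rcases toReal_sub_of_add hJ1 hJ2 (by rw [pP]; exact fP r hr hr1) with h | h
    · exact h
    · exact absurd (by rw [← pM]; exact h) (fM r hr hr1)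
  · rw [vI 1 one_pos le_rfl]
    have hc : S.c = c₀ := hS5
    have hδ : ∀ n, ∫⁻ x, RL.hs (Sop (S.R x) (1 / 2) * S.M n x * S.p 1) ∂P
        ≤ ENNReal.ofReal (c1 * t ^ (m + 1)) := by
      intro n
      have := hd t ht0 ht1 κ' hκ' n
      refine le_of_eq_of_le (lintegral_congr fun x => ?_) this
      rw [hR, hS4, hS3]
    have hfin : S.phiP 1 ≠ ⊤ := by
      have h1 : (1 : ℝ) = 2 * (1 / 2) := by norm_num
      rw [h1, pP]
      exact fP (1 / 2) (by norm_num) (by norm_num)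
    have hmain := RSys.main hμ S hδ hfin (s := 2 * 1) (by norm_num)
    have hm1 : S.phiM (2 * 1) ≠ ⊤ := by rw [pM]; exact fM 1 one_pos le_rfl
    have hp1 : S.phiP (2 * 1) ≠ ⊤ := by rw [pP]; exact fP 1 one_pos le_rfl
    rw [hc] at hmain
    have hdiv : ENNReal.ofReal (c1 * t ^ (m + 1)) / ENNReal.ofReal c₀
        = ENNReal.ofReal (c1 / c₀ * t ^ (m + 1)) := by
      rw [← ENNReal.ofReal_div_of_pos (by positivity)]
      congr 1
      ring
    rw [hdiv] at hmain
    have h1 := ENNReal.toReal_mono (ENNReal.add_ne_top.2 ⟨hm1, ENNReal.ofReal_ne_top⟩) hmain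
    rw [ENNReal.toReal_add hm1 ENNReal.ofReal_ne_top, ENNReal.toReal_ofReal (by positivity)] at h1
    linarith

/-- THE INDEX THEOREM for random line bundles. -/
theorem index_zero' (hm : 1 ≤ m) [IsProbabilityMeasure P] {G : Type*} [Group G] [Countable G]
    [MulAction G X] (hμ : ∀ γ : G, MeasurePreserving (fun x : X => γ • x) P P)
    (C : Cliff m) (g : Geo (2 * m)) (hcut : Cutoffs g) {c₀ σ : ℝ} (hc₀ : 0 < c₀) (hσ : 0 < σ)
    (hL : LichC C g c₀ σ) {a : Act G (2 * m)} (ha : a.Iso g)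
    {F : Set (V (2 * m))} (hF : a.Fund F) {Ω : X → V (2 * m) → Mt (2 * m)} (hΩ : Rand P a Ω) :
    ∫ x, (∫ y in F, pf (fun _ : Fin m => Ω x y)) ∂P = 0 := by
  obtain ⟨κ, r₀, K, Φ, A, hκ, hK, hΦ, hΦ1, hA, hA0, hAt, hpar⟩ :=
    exists_parametrix hm C g hΩ hF.meas hF.bdd
  have hpar' : ∀ x t, |t| ≤ 1 → ∃ q qd e : ℝ → V (2 * m) → V (2 * m) → En m,
      Para C g (tp (Ω x) t) F q qd e (Φ x) κ r₀ := by
    intro x t ht
    obtain ⟨q, qd, e, h1, _⟩ := hpar x t ht
    exact ⟨q, qd, e, h1⟩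
  obtain ⟨c, hfacts⟩ := index_facts' hμ C g hcut hc₀ hσ hL ha hF hΩ hκ hΦ hpar'
  obtain ⟨a1, ha1, hst⟩ := supertrace g κ r₀ hκ hF.meas hF.bdd
  -- the expansion for fixed `x`
  have hexp : ∀ t, 0 ≤ t → t ≤ 1 → ∀ κ' : ℝ, κ' ^ 2 = 1 → ∀ x r, 0 < r → r ≤ 1 →
      |((hsP C g F (tp (Ω x) t) κ' r).toReal - (hsM C g F (tp (Ω x) t) κ' r).toReal)
        - ∑ n ∈ Finset.range (2 * m + 1), (√r) ^ n / r ^ m *
          (κ' * ∑ b ∈ Finset.range (m + 1), t ^ b * A x n b)| ≤ (a1 + 1) * Φ x ^ 2 * √r := by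
    intro t ht0 ht1 κ' hκ' x r hr hr1
    have htt : |t| ≤ 1 := by rw [abs_of_nonneg ht0]; exact ht1
    obtain ⟨q, qd, e, h1, h2⟩ := hpar x t htt
    have h3 := (hst C (tp (Ω x) t) (isPot_tp (hΩ.closed x) t) κ' hκ' q qd e (Φ x) h1 r hr hr1).2.2
    have h4 := h2 r hr hr1
    have e1 : ∑ n ∈ Finset.range (2 * m + 1), (√r) ^ n / r ^ m *
        (κ' * ∑ b ∈ Finset.range (m + 1), t ^ b * A x n b)
        = κ' * ∑ n ∈ Finset.range (2 * m + 1), (√r) ^ n / r ^ m *
          ∑ b ∈ Finset.range (m + 1), t ^ b * A x n b := by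
      rw [Finset.mul_sum]
      exact Finset.sum_congr rfl fun n _ => by ring
    rw [e1]
    have hk : |κ'| = 1 := by
      have : |κ'| ^ 2 = 1 := by rw [sq_abs]; exact hκ'
      have h0 := abs_nonneg κ'
      nlinarith
    have h5 : |κ' * strq C g F q r - κ' * ∑ n ∈ Finset.range (2 * m + 1), (√r) ^ n / r ^ m *
          ∑ b ∈ Finset.range (m + 1), t ^ b * A x n b| ≤ Φ x * √r := by
      rw [← mul_sub, abs_mul, hk, one_mul]
      exact h4
    have hsq : Φ x ≤ Φ x ^ 2 := by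
      have := hΦ1 x
      nlinarith
    have h6 := abs_sub_le ((hsP C g F (tp (Ω x) t) κ' r).toReal
      - (hsM C g F (tp (Ω x) t) κ' r).toReal) (κ' * strq C g F q r)
      (κ' * ∑ n ∈ Finset.range (2 * m + 1), (√r) ^ n / r ^ m *
          ∑ b ∈ Finset.range (m + 1), t ^ b * A x n b)
    have h7 : |((hsP C g F (tp (Ω x) t) κ' r).toReal - (hsM C g F (tp (Ω x) t) κ' r).toReal)
        - κ' * strq C g F q r| ≤ a1 * Φ x ^ 2 * √r := h3
    have h8 : Φ x * √r ≤ Φ x ^ 2 * √r := by gcongr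
    linarith
  have hmeas : ∀ t, 0 ≤ t → t ≤ 1 → ∀ κ' : ℝ, κ' ^ 2 = 1 → ∀ n ≤ 2 * m,
      Measurable fun x => κ' * ∑ b ∈ Finset.range (m + 1), t ^ b * A x n b := by
    intro t ht0 ht1 κ' hκ'
    exact measurable_coef (D := fun r x => (hsP C g F (tp (Ω x) t) κ' r).toReal
      - (hsM C g F (tp (Ω x) t) κ' r).toReal)
      (fun r hr hr1 => ((hfacts t ht0 ht1 κ' hκ').1 r hr hr1).1)
      (Φ := fun x => (a1 + 1) * Φ x ^ 2)
      (fun x r hr hr1 => hexp t ht0 ht1 κ' hκ' x r hr hr1)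
  have hAm : ∀ n ≤ 2 * m, ∀ b ≤ m, Measurable fun x => A x n b := by
    intro n hn
    refine measurable_poly (A := fun x b => A x n b) fun t ht0 ht1 => ?_
    have := hmeas t ht0.le ht1 1 (by norm_num) n hn
    simp only [one_mul] at this
    exact this
  have hAi : ∀ n ≤ 2 * m, ∀ b ≤ m, Integrable (fun x => A x n b) P := by
    intro n hn b hb
    have h1 := hΦ.int 1
    simp only [pow_one] at h1
    exact h1.mono' (hAm n hn b hb).aestronglyMeasurable (Eventually.of_forall fun x => by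
      rw [Real.norm_eq_abs]; exact hA x n hn b hb)
  have hpi : ∀ t : ℝ, ∀ κ' : ℝ, ∀ n ≤ 2 * m,
      Integrable (fun x => κ' * ∑ b ∈ Finset.range (m + 1), t ^ b * A x n b) P := by
    intro t κ' n hn
    refine Integrable.const_mul (integrable_finsetSum _ fun b hb => ?_) _
    exact (hAi n hn b (by simpa [Nat.lt_succ_iff] using hb)).const_mul _
  -- the value of the index
  have hval : ∀ t, 0 ≤ t → t ≤ 1 → ∀ κ' : ℝ, κ' ^ 2 = 1 →
      ∫ x, ((hsP C g F (tp (Ω x) t) κ' 1).toReal - (hsM C g F (tp (Ω x) t) κ' 1).toReal) ∂P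
        = ∫ x, κ' * ∑ b ∈ Finset.range (m + 1), t ^ b * A x (2 * m) b ∂P := by
    intro t ht0 ht1 κ' hκ'
    refine const_expansion (m := m) (C := (a1 + 1) * ∫ x, Φ x ^ 2 ∂P)
      (β := fun n => ∫ x, κ' * ∑ b ∈ Finset.range (m + 1), t ^ b * A x n b ∂P)
      fun r hr hr1 => ?_
    obtain ⟨f1, f2, f3⟩ := (hfacts t ht0 ht1 κ' hκ').1 r hr hr1
    rw [← f3]
    have e1 : ∑ n ∈ Finset.range (2 * m + 1), (√r) ^ n / r ^ m *
        ∫ x, κ' * ∑ b ∈ Finset.range (m + 1), t ^ b * A x n b ∂P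
        = ∫ x, ∑ n ∈ Finset.range (2 * m + 1), (√r) ^ n / r ^ m *
          (κ' * ∑ b ∈ Finset.range (m + 1), t ^ b * A x n b) ∂P := by
      rw [integral_finsetSum _ fun n hn => (hpi t κ' n (by
        simpa [Nat.lt_succ_iff] using hn)).const_mul _]
      exact Finset.sum_congr rfl fun n _ => (integral_const_mul _ _).symm
    rw [e1, ← integral_sub f2 (integrable_finsetSum _ fun n hn => (hpi t κ' n (by
        simpa [Nat.lt_succ_iff] using hn)).const_mul _)]
    have e2 : (a1 + 1) * (∫ x, Φ x ^ 2 ∂P) * √r = ∫ x, (a1 + 1) * Φ x ^ 2 * √r ∂P := by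
      rw [integral_mul_const, integral_const_mul]
    rw [e2, ← Real.norm_eq_abs]
    refine norm_integral_le_of_norm_le (((hΦ.int 2).const_mul _).mul_const _)
      (Eventually.of_forall fun x => ?_)
    rw [Real.norm_eq_abs]
    exact hexp t ht0 ht1 κ' hκ' x r hr hr1
  have hsum : ∀ t κ' : ℝ, ∫ x, κ' * ∑ b ∈ Finset.range (m + 1), t ^ b * A x (2 * m) b ∂P
      = κ' * ∑ b ∈ Finset.range (m + 1), t ^ b * ∫ x, A x (2 * m) b ∂P := by
    intro t κ'
    rw [integral_const_mul, integral_finsetSum _ fun b hb => (hAi (2 * m) le_rfl b (by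
      simpa [Nat.lt_succ_iff] using hb)).const_mul _]
    congr 1
    exact Finset.sum_congr rfl fun b _ => by rw [integral_const_mul]
  have hzero : ∫ x, A x (2 * m) m ∂P = 0 := by
    refine coef_zero (m := m) (α := fun b => ∫ x, A x (2 * m) b ∂P) (C := c)
      fun t ht0 ht1 => ?_
    have h1 := (hfacts t ht0.le ht1 1 (by norm_num)).2
    have h2 := (hfacts t ht0.le ht1 (-1) (by norm_num)).2
    rw [hval t ht0.le ht1 1 (by norm_num), hsum] at h1
    rw [hval t ht0.le ht1 (-1) (by norm_num), hsum] at h2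
    rw [abs_le]
    constructor <;> linarith
  have h9 : ∫ x, A x (2 * m) m ∂P = K * ∫ x, (∫ y in F, pf (fun _ : Fin m => Ω x y)) ∂P := by
    rw [← integral_const_mul]
    exact integral_congr_ae (Eventually.of_forall fun x => hAt x)
  rw [hzero] at h9
  rcases mul_eq_zero.1 h9.symm with h | h
  · exact absurd h hK
  · exact h

theorem index_zero (hm : 1 ≤ m) [IsProbabilityMeasure P] {G : Type*} [Group G] [Countable G]
    [MulAction G X] (hμ : ∀ γ : G, MeasurePreserving (fun x : X => γ • x) P P)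
    (C : Cliff m) (g : Geo (2 * m)) (hcut : Cutoffs g) {σ : ℝ} (hσ : 0 < σ)
    (hs : ∀ y, 4 * σ ≤ g.scal y) {a : Act G (2 * m)} (ha : a.Iso g)
    {F : Set (V (2 * m))} (hF : a.Fund F) {Ω : X → V (2 * m) → Mt (2 * m)} (hΩ : Rand P a Ω) :
    ∫ x, (∫ y in F, pf (fun _ : Fin m => Ω x y)) ∂P = 0 :=
  index_zero' hm hμ C g hcut (c₀ := σ / 2) (by positivity) hσ (lichC_of_scal C g hs) ha hF hΩ

end Pool.Agent.Lib.MP_df705a_gt.RL
end
end

section

/-!
# RL2, F1: the theorem for families of forms on a closed manifold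
-/

open scoped Manifold ContDiff InnerProductSpace Matrix ENNReal
open Module Bundle MeasureTheory

noncomputable section

namespace Pool.Agent.Lib.MP_df705a_gt.RL

open Pool.Agent.Lib.MP_df705a_gt.Pin Pool.Agent.Lib.MP_df705a_gt.Perm
open Pool.Agent.Lib.MP_df705a_gt.Twist
open Pool.Agent.Lib.MP_df705a_gt.Coll (Met)

universe u

/-- Families `(h i)_{i ∈ I}` of closed two-forms on `V N`, equivariant for the action of the group
`G` of diffeomorphisms on `I`, such that the sums of the squares of all derivatives are locally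
bounded. -/
structure FormFam {N : ℕ} (G : Subgroup (V N ≃ₜ V N)) {I : Type*} [MulAction G I]
    (h : I → V N → Mt N) : Prop where
  closed : ∀ i, IsClosed2 (h i)
  equi : ∀ (γ : G) i y, pull2 (fun y => (γ : V N ≃ₜ V N) y) (h (γ • i)) y = h i y
  bdd : ∀ (l : ℕ) (R : ℝ), ∃ B : ℝ, ∀ y, ‖y‖ ≤ R → ∀ μ ν, ∀ S : Finset I,
    ∑ i ∈ S, ‖iteratedFDeriv ℝ l (fun y => h i y μ ν) y‖ ^ 2 ≤ B

variable {n k m : ℕ} {M : Type*} [TopologicalSpace M] [ChartedSpace (V n) M]
  [IsManifold 𝓘(ℝ, V n) ∞ M] {q : V (2 * m) → M} {s : V (2 * m) → V k}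

/-- The general theorem. -/
theorem blocks_zero [CompactSpace M] (g : Met (V n) M) (hg : LichG g q s)
    (H : StableCover (V n) q s)
    (ori : ∀ (γ : LG q s) (y : V (2 * m)), 0 < (jac (fun y => (γ : V (2 * m) ≃ₜ _) y) y).det)
    {J : Type} [DecidableEq J] [Fintype J] {b : Fin m → J} (hb : Function.Surjective b)
    {I : J → Type u} [∀ j, Countable (I j)] [∀ j, MulAction (LG q s) (I j)]
    (hJ : ∀ j, Finite (I j) ∨ ∃ r r', r ≠ r' ∧ b r = j ∧ b r' = j)
    {h : ∀ r, I (b r) → V (2 * m) → Mt (2 * m)} (hh : ∀ r, FormFam (LG q s) (h r)) :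
    (∀ R : ℝ, ∃ B : ℝ, ∀ y, ‖y‖ ≤ R → ∀ S : Finset (∀ j, I j),
      ∑ i ∈ S, |pf fun r => h r (i (b r)) y| ≤ B) ∧
    ∀ F : Set (V (2 * m)), FundSet q s F →
      ∫ y in F, ∑' i : ∀ j, I j, pf (fun r => h r (i (b r)) y) = 0 := by
  refine ⟨fun R => pf_sum_bdd hb hJ h (fun r ρ => ?_) R, fun F hF => ?_⟩
  · obtain ⟨B, hB⟩ := (hh r).bdd 0 ρ
    refine ⟨B, fun y hy μ ν s => ?_⟩
    have h1 := hB y hy μ ν s
    simp only [norm_iteratedFDeriv_zero, Real.norm_eq_abs, sq_abs] at h1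
    exact h1
  · have : Countable (LG q s) := countable_LG H
    obtain ⟨G, hiso, hcut, hm, C, c₀, σ, hc₀, hσ, hL⟩ :=
      manifold_end' (existsGeo (2 * m)) g hg H ori
    obtain ⟨Ω, h1, h2⟩ := random_forms (LGact H) hF.meas hF.bdd b hb I hJ h
      (fun r i => (hh r).closed i) (fun γ r i y => (hh r).equi γ i y)
      (fun r l ρ => (hh r).bdd l ρ)
    exact h2 fun S => index_zero' hm (XX.measurePreserving_smul) C G hcut hc₀ hσ hL
      hiso (fund_LG H hF) (h1 S)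

end Pool.Agent.Lib.MP_df705a_gt.RL
end
end

section

/-!
# RL2, F2: manifolds whose fundamental group is a product
-/

open scoped Manifold ContDiff InnerProductSpace Matrix ENNReal
open Module Bundle MeasureTheory

noncomputable section

namespace Pool.Agent.Lib.MP_df705a_gt.RL

open Pool.Agent.Lib.MP_df705a_gt.Pin Pool.Agent.Lib.MP_df705a_gt.Perm
open Pool.Agent.Lib.MP_df705a_gt.Twist
open Pool.Agent.Lib.MP_df705a_gt.Coll (Met)

universe u

variable {n k m : ℕ} {M : Type*} [TopologicalSpace M] [ChartedSpace (V n) M]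
  [IsManifold 𝓘(ℝ, V n) ∞ M] {q : V (2 * m) → M} {s : V (2 * m) → V k}

/-- The action of `G` on a factor of a product decomposition. -/
@[reducible] def facAction {G : Type*} [Group G] {J : Type*} {Γ : J → Type*} [∀ j, Group (Γ j)]
    (φ : (∀ j, Γ j) ≃* G) (j : J) : MulAction G (Γ j) where
  smul g δ := (φ.symm g) j * δ
  one_smul δ := by
    show (φ.symm 1) j * δ = δ
    rw [map_one, Pi.one_apply, one_mul]
  mul_smul g g' δ := by
    show (φ.symm (g * g')) j * δ = (φ.symm g) j * ((φ.symm g') j * δ)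
    rw [map_mul, Pi.mul_apply, mul_assoc]

/-- If the group is the product of the groups `Γ j`, and the closed two-forms `α r` (at least two for
every factor `b r = j`) are invariant under the other factors and square summable, with all
derivatives, over the factor `Γ (b r)`, then `∫ α_1 ∧ ... ∧ α_m = 0`. -/
theorem product_zero [CompactSpace M] (g : Met (V n) M) (hg : LichG g q s)
    (H : StableCover (V n) q s)
    (ori : ∀ (γ : LG q s) (y : V (2 * m)), 0 < (jac (fun y => (γ : V (2 * m) ≃ₜ _) y) y).det)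
    {J : Type} [DecidableEq J] [Fintype J] {b : Fin m → J}
    (hJ : ∀ j, ∃ r r', r ≠ r' ∧ b r = j ∧ b r' = j)
    {Γ : J → Type u} [∀ j, Group (Γ j)] (φ : (∀ j, Γ j) ≃* LG q s)
    {α : Fin m → V (2 * m) → Mt (2 * m)} (hα : ∀ r, IsClosed2 (α r))
    (hinv : ∀ r (γ : ∀ j, Γ j), γ (b r) = 1 → ∀ y,
      pull2 (fun y => (φ γ : V (2 * m) ≃ₜ _) y) (α r) y = α r y)
    (hbd : ∀ r (l : ℕ) (R : ℝ), ∃ B : ℝ, ∀ y, ‖y‖ ≤ R → ∀ μ ν, ∀ S : Finset (Γ (b r)),
      ∑ δ ∈ S, ‖iteratedFDeriv ℝ l (fun y => pull2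
        (fun y => (φ (Pi.mulSingle (b r) δ) : V (2 * m) ≃ₜ _) y) (α r) y μ ν) y‖ ^ 2 ≤ B) :
    Integrable (fun y => pf fun r => α r y) ∧ ∫ y, pf (fun r => α r y) = 0 := by
  have hsm : ∀ γ : LG q s, ContDiff ℝ ∞ (fun y => (γ : V (2 * m) ≃ₜ V (2 * m)) y) :=
    fun γ => LG_smooth H γ
  have : Countable (LG q s) := countable_LG H
  have hcΓ : ∀ j, Countable (Γ j) := fun j =>
    Function.Injective.countable (f := fun δ : Γ j => φ (Pi.mulSingle j δ))
      (φ.injective.comp (Pi.mulSingle_injective j))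
  let hact : ∀ j, MulAction (LG q s) (Γ j) := fun j => facAction φ j
  -- composition of pull-backs along `φ`
  have hcomp : ∀ (γ δ : ∀ j, Γ j) (Ω : V (2 * m) → Mt (2 * m)) (y : V (2 * m)),
      pull2 (fun y => (φ (γ * δ) : V (2 * m) ≃ₜ V (2 * m)) y) Ω y
        = pull2 (fun y => (φ δ : V (2 * m) ≃ₜ V (2 * m)) y)
          (pull2 (fun y => (φ γ : V (2 * m) ≃ₜ V (2 * m)) y) Ω) y := by
    intro γ δ Ω y
    rw [← pull2_comp (hsm (φ δ)) (hsm (φ γ)), map_mul]
    rfl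
  -- two elements with the same component pull back `α r` to the same form
  have hsame : ∀ (r : Fin m) (γ δ : ∀ j, Γ j), γ (b r) = δ (b r) → ∀ y,
      pull2 (fun y => (φ γ : V (2 * m) ≃ₜ V (2 * m)) y) (α r) y
        = pull2 (fun y => (φ δ : V (2 * m) ≃ₜ V (2 * m)) y) (α r) y := by
    intro r γ δ h y
    have h1 : γ = (γ * δ⁻¹) * δ := by rw [inv_mul_cancel_right]
    have h2 : pull2 (fun y => (φ (γ * δ⁻¹) : V (2 * m) ≃ₜ V (2 * m)) y) (α r) = α r :=
      funext fun y => hinv r _ (by rw [Pi.mul_apply, Pi.inv_apply, h, mul_inv_cancel]) y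
    calc pull2 (fun y => (φ γ : V (2 * m) ≃ₜ V (2 * m)) y) (α r) y
        = pull2 (fun y => (φ ((γ * δ⁻¹) * δ) : V (2 * m) ≃ₜ V (2 * m)) y) (α r) y := by rw [← h1]
      _ = _ := by rw [hcomp, h2]
  set h : ∀ r, Γ (b r) → V (2 * m) → Mt (2 * m) := fun r δ =>
    pull2 (fun y => (φ (Pi.mulSingle (b r) δ⁻¹) : V (2 * m) ≃ₜ V (2 * m)) y) (α r) with hdef
  have hfam : ∀ r, FormFam (LG q s) (h r) := by
    intro r
    refine ⟨fun δ => (hα r).pull2 (hsm _), fun γ δ y => ?_, fun l R => ?_⟩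
    · have h1 : (γ : V (2 * m) ≃ₜ V (2 * m)) = (φ (φ.symm γ) : V (2 * m) ≃ₜ V (2 * m)) := by
        rw [MulEquiv.apply_symm_apply]
      have h2 : γ • δ = (φ.symm γ) (b r) * δ := rfl
      show pull2 (fun y => (γ : V (2 * m) ≃ₜ V (2 * m)) y)
        (pull2 (fun y => (φ (Pi.mulSingle (b r) (γ • δ)⁻¹) : V (2 * m) ≃ₜ V (2 * m)) y) (α r)) y
        = pull2 (fun y => (φ (Pi.mulSingle (b r) δ⁻¹) : V (2 * m) ≃ₜ V (2 * m)) y) (α r) y
      rw [h1, ← hcomp]
      apply hsame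
      rw [Pi.mul_apply, Pi.mulSingle_eq_same, Pi.mulSingle_eq_same, h2, mul_inv_rev,
        inv_mul_cancel_right]
    · obtain ⟨B, hB⟩ := hbd r l R
      refine ⟨B, fun y hy μ ν S => ?_⟩
      have h1 := hB y hy μ ν (S.map (Equiv.inv _).toEmbedding)
      rw [Finset.sum_map] at h1
      exact h1
  have hb : Function.Surjective b := fun j => by
    obtain ⟨r, -, -, h1, -⟩ := hJ j
    exact ⟨r, h1⟩
  obtain ⟨H1, H2⟩ := blocks_zero g hg H ori hb (I := Γ) (fun j => Or.inr (hJ j)) hfam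
  obtain ⟨F, hF⟩ := exists_fundSet H
  have hFund := fund_LG H hF
  -- the term of the sum
  have hterm : ∀ (i : ∀ j, Γ j) (y : V (2 * m)), pf (fun r => h r (i (b r)) y)
      = (jac ((LGact H).act (φ i⁻¹)) y).det * pf (fun r => α r ((LGact H).act (φ i⁻¹) y)) := by
    intro i y
    rw [← pf_conjF]
    congr 1
    funext r
    show pull2 (fun y => (φ (Pi.mulSingle (b r) (i (b r))⁻¹) : V (2 * m) ≃ₜ V (2 * m)) y) (α r) y
      = pull2 (fun y => (φ i⁻¹ : V (2 * m) ≃ₜ V (2 * m)) y) (α r) y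
    apply hsame
    rw [Pi.mulSingle_eq_same, Pi.inv_apply]
  have hcont : Continuous fun y => pf fun r => α r y := by
    unfold pf
    refine continuous_finsetSum _ fun σ _ => continuous_const.mul
      (continuous_finsetProd _ fun r _ => ((hα r).smooth _ _).continuous)
  obtain ⟨ρ, hρ⟩ := hF.bdd.exists_norm_le
  obtain ⟨B, hB⟩ := H1 ρ
  let e : (∀ j, Γ j) ≃ LG q s := (Equiv.inv _).trans φ.toEquiv
  have he : ∀ i, e i = φ i⁻¹ := fun i => rfl
  obtain ⟨hI1, hI2⟩ := hFund.unfold ori hcont (B := B) (fun y hy S => by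
    have h1 := hB y (hρ y hy) (S.map e.symm.toEmbedding)
    rw [Finset.sum_map] at h1
    refine le_trans (le_of_eq (Finset.sum_congr rfl fun γ _ => ?_)) h1
    rw [hterm, Equiv.coe_toEmbedding, ← he, Equiv.apply_symm_apply])
  refine ⟨hI1, ?_⟩
  rw [hI2, ← H2 F hF]
  refine integral_congr_ae (Filter.Eventually.of_forall fun y => ?_)
  show (∑' γ : LG q s, (jac ((LGact H).act γ) y).det * pf fun r => α r ((LGact H).act γ y))
    = ∑' i : ∀ j, Γ j, pf (fun r => h r (i (b r)) y)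
  rw [← e.tsum_eq]
  refine tsum_congr fun i => ?_
  rw [hterm, he]

end Pool.Agent.Lib.MP_df705a_gt.RL
end
end

section

/-!
# RL2, F3: the final theorem
-/

open scoped Manifold ContDiff InnerProductSpace Matrix ENNReal Topology
open Module Bundle MeasureTheory Filter

noncomputable section

namespace Pool.Agent.Lib.MP_df705a_gt.RL

open Pool.Agent.Lib.MP_df705a_gt.Pin Pool.Agent.Lib.MP_df705a_gt.Perm
open Pool.Agent.Lib.MP_df705a_gt.Twist
open Pool.Agent.Lib.MP_df705a_gt.Coll (Met)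

universe u

variable {n k m : ℕ} {M : Type*} [TopologicalSpace M] [ChartedSpace (V n) M]
  [IsManifold 𝓘(ℝ, V n) ∞ M] {q : V (2 * m) → M} {s : V (2 * m) → V k}

/-- The theorem for random forms. -/
theorem random_zero [CompactSpace M] (g : Met (V n) M) (hg : LichG g q s)
    (H : StableCover (V n) q s)
    (ori : ∀ (γ : LG q s) (y : V (2 * m)), 0 < (jac (fun y => (γ : V (2 * m) ≃ₜ _) y) y).det)
    {X : Type*} [MeasurableSpace X] {P : Measure X} [IsProbabilityMeasure P]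
    [MulAction (LG q s) X] (hP : ∀ γ : LG q s, MeasurePreserving (fun x : X => γ • x) P P)
    {Ω : Fin m → X → V (2 * m) → Mt (2 * m)} (hΩ : ∀ r, Rand P (LGact H) (Ω r))
    {F : Set (V (2 * m))} (hF : FundSet q s F) :
    Integrable (fun p : X × V (2 * m) => pf fun r => Ω r p.1 p.2) (P.prod (volume.restrict F)) ∧
      ∫ x, (∫ y in F, pf fun r => Ω r x y) ∂P = 0 := by
  have : Countable (LG q s) := countable_LG H
  obtain ⟨G, hiso, hcut, hm, C, c₀, σ, hc₀, hσ, hL⟩ :=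
    manifold_end' (existsGeo (2 * m)) g hg H ori
  exact ⟨integrable_pf hF.meas hF.bdd hΩ,
    polarize hF.meas hF.bdd (fun Ω h => index_zero' hm hP C G hcut hc₀ hσ hL
    hiso (fund_LG H hF) h) hΩ⟩

/-- Sums of continuous functions which are absolutely bounded on a bounded set. -/
theorem integrableOn_tsum {N : ℕ} {I : Type*} [Countable I] {f : I → V N → ℝ}
    (hf : ∀ i, Continuous (f i))
    (hb : ∀ R : ℝ, ∃ B : ℝ, ∀ y, ‖y‖ ≤ R → ∀ S : Finset I, ∑ i ∈ S, |f i y| ≤ B)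
    {F : Set (V N)} (hF : MeasurableSet F) (hFb : Bornology.IsBounded F) :
    (∀ y, Summable fun i => f i y) ∧ IntegrableOn (fun y => ∑' i, f i y) F := by
  have hsum : ∀ y, Summable fun i => |f i y| := by
    intro y
    obtain ⟨B, hB⟩ := hb ‖y‖
    exact summable_of_sum_le (fun i => abs_nonneg _) fun S => hB y le_rfl S
  have hs : ∀ y, Summable fun i => f i y := fun y => (hsum y).of_abs
  refine ⟨hs, ?_⟩
  obtain ⟨R, hR⟩ := hFb.exists_norm_le
  obtain ⟨B, hB⟩ := hb R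
  have hvol : volume F ≠ ⊤ := hFb.measure_lt_top.ne
  have hm : AEStronglyMeasurable (fun y => ∑' i, f i y) (volume : Measure (V N)) := by
    refine aestronglyMeasurable_of_tendsto_ae (u := (atTop : Filter (Finset I)))
      (f := fun S y => ∑ i ∈ S, f i y) (fun S => ?_) (Eventually.of_forall fun y => (hs y).hasSum)
    exact (continuous_finsetSum S fun i _ => hf i).aestronglyMeasurable
  refine Measure.integrableOn_of_bounded (M := B) hvol hm ?_
  filter_upwards [ae_restrict_mem hF] with y hy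
  rw [Real.norm_eq_abs]
  have h1 : |∑' i, f i y| ≤ ∑' i, |f i y| := by
    have h2 := norm_tsum_le_tsum_norm (f := fun i => f i y) (hsum y)
    simpa only [Real.norm_eq_abs] using h2
  refine h1.trans ?_
  exact Real.tsum_le_of_sum_le (fun i => abs_nonneg _) fun S => hB y (hR y hy) S

theorem continuous_pf {Ω : Fin m → V (2 * m) → Mt (2 * m)} (h : ∀ r, IsClosed2 (Ω r)) :
    Continuous fun y => pf fun r => Ω r y := by
  unfold pf
  refine continuous_finsetSum _ fun σ _ => continuous_const.mul ?_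
  exact continuous_finsetProd _ fun r _ => ((h r).smooth _ _).continuous

/-- The theorem for families of forms, with integrability. -/
theorem blocks_zero' [CompactSpace M] (g : Met (V n) M) (hg : LichG g q s)
    (H : StableCover (V n) q s)
    (ori : ∀ (γ : LG q s) (y : V (2 * m)), 0 < (jac (fun y => (γ : V (2 * m) ≃ₜ _) y) y).det)
    {J : Type} [Finite J] {b : Fin m → J} (hb : Function.Surjective b)
    {I : J → Type u} [∀ j, Countable (I j)] [∀ j, MulAction (LG q s) (I j)]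
    (hJ : ∀ j, Finite (I j) ∨ ∃ r r', r ≠ r' ∧ b r = j ∧ b r' = j)
    {h : ∀ r, I (b r) → V (2 * m) → Mt (2 * m)} (hh : ∀ r, FormFam (LG q s) (h r)) :
    (∀ y, Summable fun i : ∀ j, I j => pf fun r => h r (i (b r)) y) ∧
    ∀ F : Set (V (2 * m)), FundSet q s F →
      IntegrableOn (fun y => ∑' i : ∀ j, I j, pf fun r => h r (i (b r)) y) F ∧
      ∫ y in F, ∑' i : ∀ j, I j, pf (fun r => h r (i (b r)) y) = 0 := by
  classical
  have : Fintype J := Fintype.ofFinite J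
  obtain ⟨h1, h2⟩ := blocks_zero g hg H ori hb hJ hh
  have hc : ∀ i : ∀ j, I j, Continuous fun y => pf fun r => h r (i (b r)) y := fun i =>
    continuous_pf fun r => (hh r).closed _
  obtain ⟨F, hF⟩ := exists_fundSet H
  exact ⟨(integrableOn_tsum hc h1 hF.meas hF.bdd).1, fun F hF =>
    ⟨(integrableOn_tsum hc h1 hF.meas hF.bdd).2, h2 F hF⟩⟩

end Pool.Agent.Lib.MP_df705a_gt.RL
end
end

section

/-!
# RL2, F4: the three vanishing statements, for an abstract group of deck transformations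
-/

open scoped Manifold ContDiff
open MeasureTheory

noncomputable section

namespace Pool.Agent.Lib.MP_df705a_gt.RL

open Pool.Agent.Lib.MP_df705a_gt.Pin Pool.Agent.Lib.MP_df705a_gt.Twist
open Pool.Agent.Lib.MP_df705a_gt.Coll (Met)

universe u v w

/-- By the action `a` the group `G` is the group of the deck transformations of the covering
`ℝᴺ → M × Tᵏ`: every `γ ∈ G` satisfies `q ∘ γ = q` and `s ∘ γ = s + c` for an integer vector `c`, and
for two points `y, z` over the same point of `M × Tᵏ` there is exactly one `γ ∈ G` with `γ y = z`. -/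
structure Deck {N k : ℕ} {M : Type*} {G : Type*} [Group G] (a : Act G N) (q : V N → M)
    (s : V N → V k) : Prop where
  cover : ∀ γ, ∃ c : Fin k → ℤ, ∀ y, q (a.act γ y) = q y ∧ ∀ j, s (a.act γ y) j = s y j + c j
  trans : ∀ y z, q z = q y → (∀ j, ∃ c : ℤ, s z j = s y j + c) → ∃! γ, a.act γ y = z

/-- Families `(h i)_{i ∈ I}` of closed two-forms on `V N`, equivariant for the actions of `G`, such
that the sums over `I` of the squares of all derivatives are locally bounded. -/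
structure EqFam {N : ℕ} {G : Type*} [Group G] (a : Act G N) {I : Type*} [MulAction G I]
    (h : I → V N → Mt N) : Prop where
  closed : ∀ i, IsClosed2 (h i)
  equi : ∀ (γ : G) i y, pull2 (a.act γ) (h (γ • i)) y = h i y
  bdd : ∀ (l : ℕ) (R : ℝ), ∃ B : ℝ, ∀ y, ‖y‖ ≤ R → ∀ μ ν, ∀ S : Finset I,
    ∑ i ∈ S, ‖iteratedFDeriv ℝ l (fun y => h i y μ ν) y‖ ^ 2 ≤ B

variable {n k m : ℕ} {M : Type v} {G : Type u} [Group G]

/-- (A) For every probability space `(X, P)` with a measure preserving action of the group `G` and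
all random closed two-forms `Ω 1, …, Ω m` on `X` the function `pf (Ω 1, …, Ω m)` is integrable on
`X × F`, with integral zero. -/
def RandomVanish (a : Act G (2 * m)) (q : V (2 * m) → M) (s : V (2 * m) → V k) : Prop :=
  ∀ (X : Type w) [MeasurableSpace X] (P : Measure X) [IsProbabilityMeasure P] [MulAction G X],
    (∀ γ : G, MeasurePreserving (fun x : X => γ • x) P P) →
    ∀ Ω : Fin m → X → V (2 * m) → Mt (2 * m), (∀ r, Rand P a (Ω r)) →
    ∀ F, FundSet q s F →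
      Integrable (fun p : X × V (2 * m) => pf fun r => Ω r p.1 p.2)
        (P.prod (volume.restrict F)) ∧
      ∫ x, (∫ y in F, pf fun r => Ω r x y) ∂P = 0

/-- (B) The factors `r` are distributed into the blocks `b r ∈ J`; `h r` is an equivariant family of
closed two-forms, with index set `I (b r)`, which is square summable with all derivatives. Every
index set is finite or belongs to at least two factors. Then the sum over all `(i j)` of
`pf (h 1 (i (b 1)), …, h m (i (b m)))` converges absolutely, and it has integral zero over `F`. -/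
def BlocksVanish (a : Act G (2 * m)) (q : V (2 * m) → M) (s : V (2 * m) → V k) : Prop :=
  ∀ (J : Type) [Finite J] (b : Fin m → J), Function.Surjective b →
    ∀ (I : J → Type w) [∀ j, Countable (I j)] [∀ j, MulAction G (I j)],
    (∀ j, Finite (I j) ∨ ∃ r r', r ≠ r' ∧ b r = j ∧ b r' = j) →
    ∀ h : ∀ r, I (b r) → V (2 * m) → Mt (2 * m), (∀ r, EqFam a (h r)) →
    (∀ y, Summable fun i : ∀ j, I j => pf fun r => h r (i (b r)) y) ∧
    ∀ F, FundSet q s F →
      IntegrableOn (fun y => ∑' i : ∀ j, I j, pf fun r => h r (i (b r)) y) F ∧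
      ∫ y in F, ∑' i : ∀ j, I j, pf (fun r => h r (i (b r)) y) = 0

/-- (C) The group `G` is the product of the groups `Γ j`; the closed two-form `α r` is invariant
under all factors except `Γ (b r)`, and square summable with all derivatives over the translates by
this factor; every factor belongs to at least two forms. Then `pf (α 1, …, α m)` is integrable on
`ℝ²ᵐ`, with integral zero. -/
def ProductVanish (a : Act G (2 * m)) : Prop :=
  ∀ (J : Type) [Fintype J] [DecidableEq J] (b : Fin m → J),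
    (∀ j, ∃ r r', r ≠ r' ∧ b r = j ∧ b r' = j) →
    ∀ (Γ : J → Type w) [∀ j, Group (Γ j)] (φ : (∀ j, Γ j) ≃* G)
      (α : Fin m → V (2 * m) → Mt (2 * m)), (∀ r, IsClosed2 (α r)) →
    (∀ r (γ : ∀ j, Γ j), γ (b r) = 1 → ∀ y, pull2 (a.act (φ γ)) (α r) y = α r y) →
    (∀ r (l : ℕ) (R : ℝ), ∃ B : ℝ, ∀ y, ‖y‖ ≤ R → ∀ μ ν, ∀ S : Finset (Γ (b r)),
      ∑ δ ∈ S, ‖iteratedFDeriv ℝ l
        (fun y => pull2 (a.act (φ (Pi.mulSingle (b r) δ))) (α r) y μ ν) y‖ ^ 2 ≤ B) →
    Integrable (fun y => pf fun r => α r y) ∧ ∫ y, pf (fun r => α r y) = 0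

/-! ## Comparison with the group of the lifts -/

/-- The homeomorphism of an element of the group. -/
def Act.homeo {N : ℕ} (a : Act G N) (γ : G) : V N ≃ₜ V N where
  toFun := a.act γ
  invFun := a.act γ⁻¹
  left_inv y := by rw [← a.mul, inv_mul_cancel, a.one]
  right_inv y := by rw [← a.mul, mul_inv_cancel, a.one]
  continuous_toFun := (a.smooth γ).continuous
  continuous_invFun := (a.smooth γ⁻¹).continuous

variable [TopologicalSpace M] [ChartedSpace (V n) M] [IsManifold 𝓘(ℝ, V n) ∞ M]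
  {q : V (2 * m) → M} {s : V (2 * m) → V k}

/-- The isomorphism with the group of the lifts. -/
theorem Deck.exists_equiv {a : Act G (2 * m)} (ha : Deck a q s) (H : StableCover (V n) q s) :
    ∃ e : G ≃* LG q s, ∀ γ y, ((e γ : LG q s) : V (2 * m) ≃ₜ V (2 * m)) y = a.act γ y := by
  let f : G →* LG q s :=
    { toFun := fun γ => ⟨a.homeo γ, by
        obtain ⟨c, hc⟩ := ha.cover γ
        exact ⟨fun y => (hc y).1, c, fun y j => (hc y).2 j⟩⟩
      map_one' := Subtype.ext (Homeomorph.ext fun y => a.one y)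
      map_mul' := fun γ δ => Subtype.ext (Homeomorph.ext fun y => a.mul γ δ y) }
  have hf : ∀ γ y, ((f γ : LG q s) : V (2 * m) ≃ₜ V (2 * m)) y = a.act γ y := fun _ _ => rfl
  have hbij : Function.Bijective f := by
    constructor
    · intro γ δ h
      obtain ⟨c, hc⟩ := ha.cover γ
      have h1 := ha.trans 0 (a.act γ 0) (hc 0).1 fun j => ⟨c j, (hc 0).2 j⟩
      refine h1.unique rfl ?_
      rw [← hf γ, ← hf δ, h]
    · intro δ
      obtain ⟨h1, c, h2⟩ := δ.2
      obtain ⟨γ, hγ, -⟩ := ha.trans 0 ((δ : V (2 * m) ≃ₜ V (2 * m)) 0) (h1 0)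
        fun j => ⟨c j, h2 0 j⟩
      exact ⟨γ, LG_ext H (x := 0) ((hf γ 0).trans hγ)⟩
  exact ⟨MulEquiv.ofBijective f hbij, hf⟩

/-- The group of the lifts is the group of the deck transformations. -/
theorem deck_LG (H : StableCover (V n) q s) : Deck (LGact H) q s := by
  refine ⟨fun γ => ?_, fun y z h1 h2 => ?_⟩
  · obtain ⟨h1, c, h2⟩ := γ.2
    exact ⟨c, fun y => ⟨h1 y, fun j => h2 y j⟩⟩
  · choose c hc using h2
    obtain ⟨γ, hγ⟩ := exists_LG H h1 c hc
    exact ⟨γ, hγ, fun δ hδ => LG_ext H (hδ.trans hγ.symm)⟩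

variable [CompactSpace M]

/-- The final theorem. -/
theorem vanish_all (H : StableCover (V n) q s) {a : Act G (2 * m)} (ha : Deck a q s)
    (ori : ∀ γ y, 0 < (jac (a.act γ) y).det) (g : Met (V n) M) (hg : LichG g q s) :
    RandomVanish.{u, v, w} a q s ∧ BlocksVanish.{u, v, w} a q s ∧ ProductVanish.{u, w} a := by
  obtain ⟨e, he⟩ := ha.exists_equiv H
  have he' : ∀ γ, (fun y => ((e γ : LG q s) : V (2 * m) ≃ₜ V (2 * m)) y) = a.act γ :=
    fun γ => funext (he γ)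
  have hes : ∀ δ : LG q s, (fun y => (δ : V (2 * m) ≃ₜ V (2 * m)) y) = a.act (e.symm δ) :=
    fun δ => by rw [← he', e.apply_symm_apply]
  have ori' : ∀ (δ : LG q s) (y : V (2 * m)),
      0 < (jac (fun y => (δ : V (2 * m) ≃ₜ _) y) y).det := fun δ y => by
    rw [hes δ]
    exact ori _ y
  refine ⟨?_, ?_, ?_⟩
  · intro X _ P _ _ hP Ω hΩ F hF
    let _ : MulAction (LG q s) X := MulAction.compHom X e.symm.toMonoidHom
    have hsm : ∀ (δ : LG q s) (x : X), δ • x = e.symm δ • x := fun _ _ => rfl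
    refine random_zero g hg H ori' (P := P) (fun δ => ?_) (fun r => ?_) hF
    · exact hP (e.symm δ)
    · exact ⟨(hΩ r).closed, (hΩ r).meas, fun δ => by
        filter_upwards [(hΩ r).equi (e.symm δ)] with x hx y
        have h1 := hx y
        rw [← hes δ] at h1
        exact h1, (hΩ r).mom⟩
  · intro J _ b hb I _ _ hJ h hh
    let _ : ∀ j, MulAction (LG q s) (I j) := fun j => MulAction.compHom (I j) e.symm.toMonoidHom
    refine blocks_zero' g hg H ori' hb hJ fun r => ⟨(hh r).closed, fun δ i y => ?_, (hh r).bdd⟩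
    have h1 := (hh r).equi (e.symm δ) i y
    rw [← hes δ] at h1
    exact h1
  · intro J _ _ b hJ Γ _ φ α hα hinv hbd
    have hφ : ∀ γ : ∀ j, Γ j, (fun y => (((φ.trans e) γ : LG q s) : V (2 * m) ≃ₜ V (2 * m)) y)
        = a.act (φ γ) := fun γ => he' (φ γ)
    refine product_zero g hg H ori' hJ (φ.trans e) hα (fun r γ hγ y => ?_) fun r l R => ?_
    · rw [hφ γ]
      exact hinv r γ hγ y
    · obtain ⟨B, hB⟩ := hbd r l R
      refine ⟨B, fun y hy μ ν S => ?_⟩
      refine le_of_eq_of_le (Finset.sum_congr rfl fun δ _ => ?_) (hB y hy μ ν S)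
      rw [hφ]

end Pool.Agent.Lib.MP_df705a_gt.RL
end
end
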