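import Pool.Agent.Lib.MP_df705a_gt.Mg.G066
import Pool.Agent.Lib.MP_df705a_gt.Mg.G060

section

/-!
# Ricci pinching, part A, AG1: the geodesic acceleration
-/

open scoped Manifold ContDiff Topology
open Set Bundle Module Filter MeasureTheory

noncomputable section

set_option linter.unusedSectionVars false

namespace Pool.Agent.Lib.MP_df705a_gt.Pin.A

variable {E : Type*} [NormedAddCommGroup E] [NormedSpace ℝ E] [FiniteDimensional ℝ E]
  {h : Curv.Coeff E}

theorem kz_apply (h : Curv.Coeff E) (x v w : E) :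
    kz h x v w = 2⁻¹ * fderiv ℝ (bf h) x w v v - fderiv ℝ (bf h) x v v w := by
  unfold kz
  rw [_root_.sub_apply, _root_.smul_apply,
    ContinuousLinearMap.flip_apply, ContinuousLinearMap.flip_apply, smul_eq_mul]

/-- Proof: `acc h x v = (bf h x).inverse (kz h x v)` and `bf h x` is an isomorphism (`bf_equiv`,
`ContinuousLinearMap.inverse_equiv`), hence `bf h x (acc h x v) = kz h x v`. -/
theorem bf_acc (hm : Curv.IsMetric h) (x v w : E) :
    bf h x (acc h x v) w = 2⁻¹ * fderiv ℝ (bf h) x w v v - fderiv ℝ (bf h) x v v w := by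
  obtain ⟨e, he⟩ := bf_equiv hm x
  have h1 : bf h x (acc h x v) = kz h x v := by
    unfold acc
    rw [← he, ContinuousLinearMap.inverse_equiv]
    exact e.apply_symm_apply _
  rw [h1, kz_apply]

set_option maxSynthPendingDepth 3 in
theorem AG1Aux.fderiv_smooth (hm : Curv.IsMetric h) : ContDiff ℝ ∞ (fderiv ℝ (bf h)) :=
  (bf_smooth hm).fderiv_right (m := ∞) (by simp)

set_option maxSynthPendingDepth 3 in
theorem AG1Aux.kz_smooth (hm : Curv.IsMetric h) : ContDiff ℝ ∞ fun q : E × E => kz h q.1 q.2 := by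
  rw [contDiff_clm_apply_iff]
  intro w
  have h1 : (fun q : E × E => kz h q.1 q.2 w) = fun q : E × E =>
      2⁻¹ * fderiv ℝ (bf h) q.1 w q.2 q.2 - fderiv ℝ (bf h) q.1 q.2 q.2 w := by
    funext q
    exact kz_apply h q.1 q.2 w
  rw [h1]
  have h2 : ContDiff ℝ ∞ fun q : E × E => fderiv ℝ (bf h) q.1 :=
    (AG1Aux.fderiv_smooth hm).comp contDiff_fst
  have h3 : ContDiff ℝ ∞ fun q : E × E => fderiv ℝ (bf h) q.1 w q.2 q.2 :=
    ((h2.clm_apply contDiff_const).clm_apply contDiff_snd).clm_apply contDiff_snd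
  have h4 : ContDiff ℝ ∞ fun q : E × E => fderiv ℝ (bf h) q.1 q.2 q.2 w :=
    ((h2.clm_apply contDiff_snd).clm_apply contDiff_snd).clm_apply contDiff_const
  exact (contDiff_const.mul h3).sub h4

/-- Proof: `bf_smooth`, `fderiv` of a smooth map is smooth (`ContDiff.fderiv_right`), evaluation is
smooth (`ContDiff.clm_apply`), the inversion of isomorphisms is smooth
(`contDiffAt_map_inverse` at `e` from `bf_equiv`). `ContinuousLinearMap.flip` is the value of the
continuous linear map `ContinuousLinearMap.flipₗᵢ`. -/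
theorem acc_smooth (hm : Curv.IsMetric h) : ContDiff ℝ ∞ fun q : E × E => acc h q.1 q.2 := by
  have : CompleteSpace E := FiniteDimensional.complete ℝ E
  have h1 : ContDiff ℝ ∞ fun q : E × E => (bf h q.1).inverse := by
    rw [contDiff_iff_contDiffAt]
    intro q
    obtain ⟨e, he⟩ := bf_equiv hm q.1
    have h2 : ContDiffAt ℝ ∞ (ContinuousLinearMap.inverse : (E →L[ℝ] (E →L[ℝ] ℝ)) → _)
        (bf h q.1) := by
      rw [← he]
      exact contDiffAt_map_inverse e
    exact h2.comp q ((bf_smooth hm).comp contDiff_fst).contDiffAt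
  exact h1.clm_apply (AG1Aux.kz_smooth hm)

theorem acc_smul (hm : Curv.IsMetric h) (x : E) (c : ℝ) (v : E) :
    acc h x (c • v) = c ^ 2 • acc h x v := by
  have h1 : kz h x (c • v) = c ^ 2 • kz h x v := by
    ext w
    rw [_root_.smul_apply, kz_apply, kz_apply]
    simp only [map_smul, _root_.smul_apply, smul_eq_mul]
    ring
  unfold acc
  rw [h1, map_smul]

theorem acc_zero (hm : Curv.IsMetric h) (x : E) : acc h x 0 = 0 := by
  have h1 := acc_smul hm x 0 0
  rw [zero_smul] at h1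
  rw [h1]
  simp

theorem AG1Aux.fderiv_eval (hm : Curv.IsMetric h) (x a u v : E) :
    fderiv ℝ (fun y => bf h y u v) x a = fderiv ℝ (bf h) x a u v := by
  have hd : HasFDerivAt (bf h) (fderiv ℝ (bf h) x) x :=
    ((bf_smooth hm).differentiable (by simp) x).hasFDerivAt
  have h1 := (hd.clm_apply (hasFDerivAt_const u x)).clm_apply (hasFDerivAt_const v x)
  rw [h1.fderiv]
  simp

/-- `bf h` is a symmetric form at every point, hence so is its derivative. -/
theorem fderiv_bf_symm (hm : Curv.IsMetric h) (x a u v : E) :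
    fderiv ℝ (bf h) x a u v = fderiv ℝ (bf h) x a v u := by
  rw [← AG1Aux.fderiv_eval hm, ← AG1Aux.fderiv_eval hm]
  have : (fun y => bf h y u v) = fun y => bf h y v u := by
    funext y
    exact bf_symm hm y u v
  rw [this]

end Pool.Agent.Lib.MP_df705a_gt.Pin.A
end
end

section

/-!
# Ricci pinching, part A, AG2: energy and length of a geodesic
-/

open scoped Manifold ContDiff Topology
open Set Bundle Module Filter MeasureTheory

noncomputable section

set_option linter.unusedSectionVars false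

namespace Pool.Agent.Lib.MP_df705a_gt.Pin.A

variable {E : Type*} [NormedAddCommGroup E] [NormedSpace ℝ E] [FiniteDimensional ℝ E]
  {h : Curv.Coeff E}

set_option maxSynthPendingDepth 3 in
/-- The product rule for the scalar product along a curve. Proof: `bf_smooth`,
`HasFDerivAt.comp_hasDerivWithinAt`, `HasDerivWithinAt.clm_apply`. -/
theorem hasDerivWithinAt_bf (hm : Curv.IsMetric h) {γ u v : ℝ → E} {γ' u' v' : E} {s : Set ℝ}
    {t : ℝ} (hγ : HasDerivWithinAt γ γ' s t) (hu : HasDerivWithinAt u u' s t)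
    (hv : HasDerivWithinAt v v' s t) :
    HasDerivWithinAt (fun t => bf h (γ t) (u t) (v t))
      (fderiv ℝ (bf h) (γ t) γ' (u t) (v t) + bf h (γ t) u' (v t) + bf h (γ t) (u t) v') s t := by
  have hd : HasFDerivAt (bf h) (fderiv ℝ (bf h) (γ t)) (γ t) :=
    ((bf_smooth hm).differentiable (by simp) (γ t)).hasFDerivAt
  have h1 := hd.comp_hasDerivWithinAt t hγ
  have h2 := (h1.clm_apply hu).clm_apply hv
  refine h2.congr_deriv ?_
  simp only [_root_.add_apply, Function.comp]

/-- The energy is constant. Proof: by `hasDerivWithinAt_bf` with `u = v = β` the derivative of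
`bf h (γ t) (β t) (β t)` is `D(β)(β, β) + 2 bf (acc) β = D(β)(β, β) + 2 (D(β)(β, β) / 2 - D(β)(β, β))
= 0` (`bf_symm`, `bf_acc`); a function with zero derivative on `Icc 0 b` is constant
(`constant_of_has_deriv_right_zero` or `is_const_of_deriv_eq_zero`,
`Convex.norm_image_sub_le_of_norm_hasDerivWithin_le`). -/
theorem IsGeo.energy (hm : Curv.IsMetric h) {γ β : ℝ → E} {b : ℝ} (hg : IsGeo h γ β b) {t : ℝ}
    (ht : t ∈ Icc 0 b) : bf h (γ t) (β t) (β t) = bf h (γ 0) (β 0) (β 0) := by
  have h0 : (0 : ℝ) ∈ Icc 0 b := ⟨le_rfl, ht.1.trans ht.2⟩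
  have hder : ∀ s ∈ Icc 0 b, HasDerivWithinAt (fun t => bf h (γ t) (β t) (β t)) 0 (Icc 0 b) s := by
    intro s hs
    obtain ⟨h1, h2⟩ := hg s hs
    refine (hasDerivWithinAt_bf hm h1 h2 h2).congr_deriv ?_
    rw [bf_symm hm (γ s) (β s) (acc h (γ s) (β s)), bf_acc hm]
    ring
  have h3 := (convex_Icc 0 b).norm_image_sub_le_of_norm_hasDerivWithin_le (C := 0)
    hder (fun s _ => by rw [norm_zero]) h0 ht
  rw [zero_mul] at h3
  exact sub_eq_zero.mp (norm_le_zero_iff.mp h3)

theorem IsGeo.speed (hm : Curv.IsMetric h) {γ β : ℝ → E} {b : ℝ} (hg : IsGeo h γ β b) {t : ℝ}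
    (ht : t ∈ Icc 0 b) : nm h (γ t) (β t) = nm h (γ 0) (β 0) := by
  rw [nm_eq, nm_eq, hg.energy hm ht]

/-- Proof: `dh_le_curve` on `[0, t]` (`HasDerivWithinAt.mono`), the speed is constant by
`IsGeo.speed`, and `β` is continuous on `[0, b]` as it has a derivative there. -/
theorem IsGeo.dist (hm : Curv.IsMetric h) {γ β : ℝ → E} {b : ℝ} (hg : IsGeo h γ β b) {t : ℝ}
    (ht : t ∈ Icc 0 b) : dh h (γ 0) (γ t) ≤ nm h (γ 0) (β 0) * t := by
  have hsub : Icc 0 t ⊆ Icc 0 b := Icc_subset_Icc le_rfl ht.2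
  have h1 := dh_le_curve hm (g := γ) (g' := β) (a := 0) (b := t) (C := nm h (γ 0) (β 0)) ht.1
    (fun s hs => (hg s (hsub hs)).1.mono hsub)
    (fun s hs => ((hg s (hsub hs)).2.mono hsub).continuousWithinAt)
    (fun s hs => (hg.speed hm (hsub hs)).le)
  rwa [sub_zero] at h1

/-- Proof: chain rule and `acc_smul`. -/
theorem IsGeo.scale (hm : Curv.IsMetric h) {γ β : ℝ → E} {b : ℝ} (hg : IsGeo h γ β b) {c : ℝ}
    (hc : c ∈ Icc (0 : ℝ) 1) : IsGeo h (fun t => γ (c * t)) (fun t => c • β (c * t)) b := by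
  intro t ht
  have hb : 0 ≤ b := ht.1.trans ht.2
  have hmaps : MapsTo (fun s => c * s) (Icc 0 b) (Icc 0 b) := by
    intro s hs
    exact ⟨mul_nonneg hc.1 hs.1, (mul_le_mul hc.2 hs.2 hs.1 zero_le_one).trans
      (le_of_eq (one_mul b))⟩
  have hlin : HasDerivWithinAt (fun s => c * s) c (Icc 0 b) t := by
    simpa using ((hasDerivAt_id t).const_mul c).hasDerivWithinAt
  obtain ⟨h1, h2⟩ := hg (c * t) (hmaps ht)
  have h3 := HasDerivWithinAt.scomp t h1 hlin hmaps
  have h4 := HasDerivWithinAt.scomp t h2 hlin hmaps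
  refine ⟨h3, ?_⟩
  have h5 := h4.const_smul c
  refine h5.congr_deriv ?_
  rw [acc_smul hm, smul_smul, sq]

end Pool.Agent.Lib.MP_df705a_gt.Pin.A
end
end
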