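import Mathlib
import Pool.Agent.Lib.MP_df705a_gt.Mg.G072

section

/-!
# SV, block T: unfolding and rotation of integrals over products
-/

set_option linter.unusedSectionVars false
set_option linter.unusedVariables false

open MeasureTheory

noncomputable section

namespace Pool.Agent.Lib.MP_df705a_gt.SV.TB

variable {X : Type*} [MeasurableSpace X]

/-- Relabelling of the coordinates preserves the product measure. -/
theorem mp_comp {ι : Type*} [Fintype ι] (μ : Measure X) [SigmaFinite μ] (e : ι ≃ ι) :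
    MeasurePreserving (fun x : ι → X => fun i => x (e i)) (Measure.pi fun _ => μ)
      (Measure.pi fun _ => μ) := by
  have hm : Measurable (fun x : ι → X => fun i => x (e i)) :=
    measurable_pi_lambda _ fun i => measurable_pi_apply _
  refine ⟨hm, (Measure.pi_eq fun s hs => ?_).symm⟩
  rw [Measure.map_apply hm (MeasurableSet.univ_pi hs)]
  have : (fun x : ι → X => fun i => x (e i)) ⁻¹' (Set.univ.pi s) =
      Set.univ.pi fun i => s (e.symm i) := by
    ext x
    simp only [Set.mem_preimage, Set.mem_pi, Set.mem_univ, true_imp_iff]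
    constructor
    · intro h i
      have := h (e.symm i)
      rwa [Equiv.apply_symm_apply] at this
    · intro h i
      have := h (e i)
      rwa [Equiv.symm_apply_apply] at this
  rw [this, Measure.pi_pi]
  exact Fintype.prod_equiv e.symm _ _ fun i => rfl

variable {G : Type*} [Group G]

/-- The data of a measure preserving action of a countable group with a strict fundamental domain. -/
structure Dom (μ : Measure X) (act : G → X → X) (F : Set X) : Prop where
  one : ∀ x, act 1 x = x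
  mul : ∀ γ δ x, act (γ * δ) x = act γ (act δ x)
  mp : ∀ γ, MeasurePreserving (act γ) μ μ
  meas : MeasurableSet F
  tile : ∀ x, ∃! γ : G, act γ x ∈ F

variable {μ : Measure X} [SigmaFinite μ] {act : G → X → X} {F : Set X}

/-- The set `{x | x i ∈ F}` is a fundamental domain for the diagonal action. -/
theorem Dom.pi_fund (h : Dom μ act F) {ι : Type*} [Fintype ι] (i : ι) :
    letI : MulAction G (ι → X) :=
      { smul := fun γ x k => act γ (x k)
        one_smul := fun x => funext fun k => h.one _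
        mul_smul := fun γ δ x => funext fun k => h.mul _ _ _ }
    IsFundamentalDomain G {x : ι → X | x i ∈ F} (Measure.pi fun _ => μ) := by
  letI : MulAction G (ι → X) :=
      { smul := fun γ x k => act γ (x k)
        one_smul := fun x => funext fun k => h.one _
        mul_smul := fun γ δ x => funext fun k => h.mul _ _ _ }
  refine IsFundamentalDomain.mk' ?_ fun x => h.tile (x i)
  exact (measurable_pi_apply i h.meas).nullMeasurableSet

theorem Dom.smulInv (h : Dom μ act F) (ι : Type*) [Fintype ι] :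
    letI : MulAction G (ι → X) :=
      { smul := fun γ x k => act γ (x k)
        one_smul := fun x => funext fun k => h.one _
        mul_smul := fun γ δ x => funext fun k => h.mul _ _ _ }
    MeasurableConstSMul G (ι → X) ∧
      SMulInvariantMeasure G (ι → X) (Measure.pi fun _ => μ) := by
  letI : MulAction G (ι → X) :=
      { smul := fun γ x k => act γ (x k)
        one_smul := fun x => funext fun k => h.one _
        mul_smul := fun γ δ x => funext fun k => h.mul _ _ _ }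
  have hmp : ∀ γ : G, MeasurePreserving (fun x : ι → X => fun k => act γ (x k))
      (Measure.pi fun _ => μ) (Measure.pi fun _ => μ) := fun γ =>
    measurePreserving_pi _ _ fun k => h.mp γ
  refine ⟨⟨fun γ => (hmp γ).measurable⟩, ⟨fun γ s hs => ?_⟩⟩
  exact (hmp γ).measure_preimage hs.nullMeasurableSet

/-- Unfolding: the fundamental domain may be put at any coordinate. -/
theorem Dom.setIntegral_coord' (h : Dom μ act F) [Countable G] {ι : Type*} [Fintype ι] (i j : ι)
    {E : Type*} [NormedAddCommGroup E] [NormedSpace ℝ E] {Φ : (ι → X) → E}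
    (hΦ : ∀ (γ : G) (x : ι → X), Φ (fun k => act γ (x k)) = Φ x) :
    ∫ x in {x : ι → X | x i ∈ F}, Φ x ∂(Measure.pi fun _ => μ) =
      ∫ x in {x : ι → X | x j ∈ F}, Φ x ∂(Measure.pi fun _ => μ) := by
  letI : MulAction G (ι → X) :=
      { smul := fun γ x k => act γ (x k)
        one_smul := fun x => funext fun k => h.one _
        mul_smul := fun γ δ x => funext fun k => h.mul _ _ _ }
  haveI := (h.smulInv ι).1
  haveI := (h.smulInv ι).2
  exact (h.pi_fund i).setIntegral_eq (h.pi_fund j) hΦ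

/-- Unfolding: integrability. -/
theorem Dom.integrableOn_coord' (h : Dom μ act F) [Countable G] {ι : Type*} [Fintype ι] (i j : ι)
    {E : Type*} [NormedAddCommGroup E] {Φ : (ι → X) → E}
    (hΦ : ∀ (γ : G) (x : ι → X), Φ (fun k => act γ (x k)) = Φ x) :
    IntegrableOn Φ {x : ι → X | x i ∈ F} (Measure.pi fun _ => μ) ↔
      IntegrableOn Φ {x : ι → X | x j ∈ F} (Measure.pi fun _ => μ) := by
  letI : MulAction G (ι → X) :=
      { smul := fun γ x k => act γ (x k)
        one_smul := fun x => funext fun k => h.one _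
        mul_smul := fun γ δ x => funext fun k => h.mul _ _ _ }
  haveI := (h.smulInv ι).1
  haveI := (h.smulInv ι).2
  exact (h.pi_fund i).integrableOn_iff (h.pi_fund j) hΦ

open Classical in
/-- A function which is almost everywhere invariant has an invariant version. -/
theorem Dom.exists_inv (h : Dom μ act F) [Countable G] {ι : Type*} [Fintype ι]
    {E : Type*} [Zero E] {Φ : (ι → X) → E}
    (hΦ : ∀ γ : G, ∀ᵐ x ∂(Measure.pi fun _ : ι => μ), Φ (fun k => act γ (x k)) = Φ x) :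
    ∃ Ψ : (ι → X) → E, (∀ (γ : G) (x : ι → X), Ψ (fun k => act γ (x k)) = Ψ x) ∧
      Φ =ᵐ[Measure.pi fun _ : ι => μ] Ψ := by
  refine ⟨fun x => if ∀ γ : G, Φ (fun k => act γ (x k)) = Φ x then Φ x else 0, fun γ x => ?_, ?_⟩
  · have key : ∀ y : ι → X, (∀ γ : G, Φ (fun k => act γ (y k)) = Φ y) → ∀ δ : G,
        ∀ γ : G, Φ (fun k => act γ (act δ (y k))) = Φ (fun k => act δ (y k)) := by
      intro y hy δ γ
      have h1 := hy (γ * δ)
      simp only [h.mul] at h1
      rw [h1, hy δ]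
    by_cases hx : ∀ γ : G, Φ (fun k => act γ (x k)) = Φ x
    · have hx' := key x hx γ
      simp only [if_pos hx, if_pos hx']
      exact hx γ
    · have hx' : ¬ ∀ δ : G, Φ (fun k => act δ (act γ (x k))) = Φ (fun k => act γ (x k)) := by
        intro h2
        have h3 := key (fun k => act γ (x k)) h2 γ⁻¹
        simp only [← h.mul, inv_mul_cancel, h.one] at h3
        exact hx h3
      simp only [if_neg hx, if_neg hx']
  · filter_upwards [ae_all_iff.2 hΦ] with x hx
    rw [if_pos hx]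

/-- Unfolding: the fundamental domain may be put at any coordinate. -/
theorem Dom.setIntegral_coord (h : Dom μ act F) [Countable G] {ι : Type*} [Fintype ι] (i j : ι)
    {E : Type*} [NormedAddCommGroup E] [NormedSpace ℝ E] {Φ : (ι → X) → E}
    (hΦ : ∀ γ : G, ∀ᵐ x ∂(Measure.pi fun _ : ι => μ), Φ (fun k => act γ (x k)) = Φ x) :
    ∫ x in {x : ι → X | x i ∈ F}, Φ x ∂(Measure.pi fun _ => μ) =
      ∫ x in {x : ι → X | x j ∈ F}, Φ x ∂(Measure.pi fun _ => μ) := by
  obtain ⟨Ψ, h1, h2⟩ := h.exists_inv hΦ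
  rw [integral_congr_ae (ae_restrict_of_ae h2), h.setIntegral_coord' i j h1]
  exact (integral_congr_ae (ae_restrict_of_ae h2)).symm

/-- Unfolding: integrability. -/
theorem Dom.integrableOn_coord (h : Dom μ act F) [Countable G] {ι : Type*} [Fintype ι] (i j : ι)
    {E : Type*} [NormedAddCommGroup E] {Φ : (ι → X) → E}
    (hΦ : ∀ γ : G, ∀ᵐ x ∂(Measure.pi fun _ : ι => μ), Φ (fun k => act γ (x k)) = Φ x) :
    IntegrableOn Φ {x : ι → X | x i ∈ F} (Measure.pi fun _ => μ) ↔
      IntegrableOn Φ {x : ι → X | x j ∈ F} (Measure.pi fun _ => μ) := by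
  obtain ⟨Ψ, h1, h2⟩ := h.exists_inv hΦ
  unfold IntegrableOn
  rw [integrable_congr (ae_restrict_of_ae h2), integrable_congr (ae_restrict_of_ae h2)]
  exact h.integrableOn_coord' i j h1

/-- Unfolding for nonnegative functions. -/
theorem Dom.setLIntegral_coord (h : Dom μ act F) [Countable G] {ι : Type*} [Fintype ι] (i j : ι)
    {Φ : (ι → X) → ENNReal}
    (hΦ : ∀ (γ : G) (x : ι → X), Φ (fun k => act γ (x k)) = Φ x) :
    ∫⁻ x in {x : ι → X | x i ∈ F}, Φ x ∂(Measure.pi fun _ => μ) =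
      ∫⁻ x in {x : ι → X | x j ∈ F}, Φ x ∂(Measure.pi fun _ => μ) := by
  letI : MulAction G (ι → X) :=
      { smul := fun γ x k => act γ (x k)
        one_smul := fun x => funext fun k => h.one _
        mul_smul := fun γ δ x => funext fun k => h.mul _ _ _ }
  haveI := (h.smulInv ι).1
  haveI := (h.smulInv ι).2
  exact (h.pi_fund i).setLIntegral_eq (h.pi_fund j) Φ hΦ

/-- The rotation of the coordinates. -/
theorem Dom.setIntegral_rotate (h : Dom μ act F) [Countable G] {n : ℕ}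
    {E : Type*} [NormedAddCommGroup E] [NormedSpace ℝ E] {Φ : (Fin (n + 1) → X) → E}
    (hΦ : ∀ γ : G, ∀ᵐ x ∂(Measure.pi fun _ : Fin (n + 1) => μ),
      Φ (fun k => act γ (x k)) = Φ x) :
    ∫ x in {x : Fin (n + 1) → X | x 0 ∈ F}, Φ (fun i => x (i + 1)) ∂(Measure.pi fun _ => μ) =
      ∫ x in {x : Fin (n + 1) → X | x 0 ∈ F}, Φ x ∂(Measure.pi fun _ => μ) := by
  have hmp := mp_comp μ (finRotate (n + 1))
  have hset : {x : Fin (n + 1) → X | x 0 ∈ F} =
      (fun x : Fin (n + 1) → X => fun i => x (finRotate (n + 1) i)) ⁻¹'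
        {x : Fin (n + 1) → X | x (Fin.last n) ∈ F} := by
    ext x
    simp
  have hfun : (fun x : Fin (n + 1) → X => Φ (fun i => x (i + 1))) =
      fun x => Φ ((fun x : Fin (n + 1) → X => fun i => x (finRotate (n + 1) i)) x) := by
    funext x
    congr 1
    funext i
    show x (i + 1) = x (finRotate (n + 1) i)
    rw [finRotate_apply]
  have hemb : MeasurableEmbedding
      (fun x : Fin (n + 1) → X => fun i => x (finRotate (n + 1) i)) := by
    let e : (Fin (n + 1) → X) ≃ᵐ (Fin (n + 1) → X) :=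
      { toFun := fun x => fun i => x (finRotate (n + 1) i)
        invFun := fun x => fun i => x ((finRotate (n + 1)).symm i)
        left_inv := fun x => funext fun i => by simp
        right_inv := fun x => funext fun i => by simp
        measurable_toFun := measurable_pi_lambda _ fun i => measurable_pi_apply _
        measurable_invFun := measurable_pi_lambda _ fun i => measurable_pi_apply _ }
    exact e.measurableEmbedding
  rw [hfun, h.setIntegral_coord 0 (Fin.last n) hΦ]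
  conv_lhs => rw [hset]
  exact hmp.setIntegral_preimage_emb hemb Φ _

/-- The rotation of the coordinates: integrability. -/
theorem Dom.integrableOn_rotate (h : Dom μ act F) [Countable G] {n : ℕ}
    {E : Type*} [NormedAddCommGroup E] {Φ : (Fin (n + 1) → X) → E}
    (hΦ : ∀ γ : G, ∀ᵐ x ∂(Measure.pi fun _ : Fin (n + 1) => μ),
      Φ (fun k => act γ (x k)) = Φ x) :
    IntegrableOn (fun x : Fin (n + 1) → X => Φ (fun i => x (i + 1)))
      {x : Fin (n + 1) → X | x 0 ∈ F} (Measure.pi fun _ => μ) ↔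
    IntegrableOn Φ {x : Fin (n + 1) → X | x 0 ∈ F} (Measure.pi fun _ => μ) := by
  have hmp := mp_comp μ (finRotate (n + 1))
  have hset : {x : Fin (n + 1) → X | x 0 ∈ F} =
      (fun x : Fin (n + 1) → X => fun i => x (finRotate (n + 1) i)) ⁻¹'
        {x : Fin (n + 1) → X | x (Fin.last n) ∈ F} := by
    ext x
    simp
  have hfun : (fun x : Fin (n + 1) → X => Φ (fun i => x (i + 1))) =
      Φ ∘ (fun x : Fin (n + 1) → X => fun i => x (finRotate (n + 1) i)) := by
    funext x
    show Φ _ = Φ _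
    congr 1
    funext i
    show x (i + 1) = x (finRotate (n + 1) i)
    rw [finRotate_apply]
  have hemb : MeasurableEmbedding
      (fun x : Fin (n + 1) → X => fun i => x (finRotate (n + 1) i)) := by
    let e : (Fin (n + 1) → X) ≃ᵐ (Fin (n + 1) → X) :=
      { toFun := fun x => fun i => x (finRotate (n + 1) i)
        invFun := fun x => fun i => x ((finRotate (n + 1)).symm i)
        left_inv := fun x => funext fun i => by simp
        right_inv := fun x => funext fun i => by simp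
        measurable_toFun := measurable_pi_lambda _ fun i => measurable_pi_apply _
        measurable_invFun := measurable_pi_lambda _ fun i => measurable_pi_apply _ }
    exact e.measurableEmbedding
  rw [h.integrableOn_coord 0 (Fin.last n) hΦ, hfun]
  conv_lhs => rw [hset]
  exact hmp.integrableOn_comp_preimage hemb

end Pool.Agent.Lib.MP_df705a_gt.SV.TB
end
end

section

/-!
# SV, block T: the functional `TT` and the Hochschild identity
-/

set_option linter.unusedSectionVars false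
set_option linter.unusedVariables false

open MeasureTheory

noncomputable section

namespace Pool.Agent.Lib.MP_df705a_gt.SV.TB

variable {X : Type*} [MeasurableSpace X] {μ : Measure X} [SigmaFinite μ]
  {G : Type*} [Group G] {act : G → X → X} {F : Set X}
  {A : Type*} [NormedRing A] [NormedAlgebra ℂ A] [CompleteSpace A]

/-- An invariant cyclic Alexander-Spanier cocycle of degree `n`. -/
structure Coc (act : G → X → X) {n : ℕ} (φ : (Fin (n + 1) → X) → ℝ) : Prop where
  inv : ∀ γ x, φ (fun i => act γ (x i)) = φ x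
  cyc : ∀ x, φ (fun i => x (i + 1)) = φ x
  coc : ∀ x : Fin (n + 2) → X, ∑ i : Fin (n + 2), (-1 : ℝ) ^ (i : ℕ) *
    φ (fun j => x (i.succAbove j)) = 0

/-- A linear space of kernels on which everything converges. -/
structure KAlg (μ : Measure X) (act : G → X → X) (F : Set X) (τ : A →L[ℂ] ℂ) {n : ℕ}
    (φ : (Fin (n + 1) → X) → ℝ) (𝒦 : Submodule ℂ (X → X → A)) : Prop where
  int1 : ∀ a : Fin (n + 1) → X → X → A, (∀ i, a i ∈ 𝒦) →
    IntegrableOn (fun x => (φ x : ℂ) * τ (loop a x)) {x : Fin (n + 1) → X | x 0 ∈ F}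
      (Measure.pi fun _ => μ)
  int2 : ∀ a : Fin (n + 2) → X → X → A, (∀ i, a i ∈ 𝒦) →
    IntegrableOn (fun x => (φ (Fin.init x) : ℂ) * τ (loop a x))
      {x : Fin (n + 2) → X | x 0 ∈ F} (Measure.pi fun _ => μ)
  inv1 : ∀ a : Fin (n + 1) → X → X → A, (∀ i, a i ∈ 𝒦) → ∀ γ : G,
    ∀ᵐ x ∂(Measure.pi fun _ : Fin (n + 1) => μ), τ (loop a fun i => act γ (x i)) = τ (loop a x)
  inv2 : ∀ a : Fin (n + 2) → X → X → A, (∀ i, a i ∈ 𝒦) → ∀ γ : G,
    ∀ᵐ x ∂(Measure.pi fun _ : Fin (n + 2) => μ), τ (loop a fun i => act γ (x i)) = τ (loop a x)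
  comp : ∀ a ∈ 𝒦, ∀ b ∈ 𝒦, comp μ a b ∈ 𝒦
  cint : ∀ a ∈ 𝒦, ∀ b ∈ 𝒦, ∀ᵐ p : X × X ∂(μ.prod μ),
    Integrable (fun z => a p.1 z * b z p.2) μ

variable {τ : A →L[ℂ] ℂ} {n : ℕ}

theorem TT_congr {φ : (Fin (n + 2) → X) → ℝ} {a b : Fin (n + 2) → X → X → A}
    (h : ∀ i, ∀ᵐ p : X × X ∂(μ.prod μ), a i p.1 p.2 = b i p.1 p.2) :
    TT μ τ F φ a = TT μ τ F φ b := by
  unfold TT
  apply integral_congr_ae
  apply ae_restrict_of_ae
  filter_upwards [loop_ae h] with x hx
  rw [hx]

theorem TT_rotate (hD : Dom μ act F) [Countable G] {φ : (Fin (n + 1) → X) → ℝ} (hφ : Coc act φ)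
    {𝒦 : Submodule ℂ (X → X → A)} (h𝒦 : KAlg μ act F τ φ 𝒦) (hτ : ∀ b c, τ (b * c) = τ (c * b))
    {a : Fin (n + 1) → X → X → A} (ha : ∀ i, a i ∈ 𝒦) :
    TT μ τ F φ (fun i => a (i + 1)) = TT μ τ F φ a := by
  unfold TT
  rw [← hD.setIntegral_rotate (Φ := fun x => (φ x : ℂ) * τ (loop (fun i => a (i + 1)) x))]
  · apply integral_congr_ae
    apply Filter.Eventually.of_forall
    intro x
    show (φ (fun i => x (i + 1)) : ℂ) * τ (loop (fun i => a (i + 1)) (fun i => x (i + 1))) = _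
    rw [hφ.cyc, loop_rotate (τ := τ) hτ]
  · intro γ
    filter_upwards [h𝒦.inv1 (fun i => a (i + 1)) (fun i => ha _) γ] with x hx
    rw [hφ.inv, hx]

theorem TT_add {φ : (Fin (n + 1) → X) → ℝ} {𝒦 : Submodule ℂ (X → X → A)}
    (h𝒦 : KAlg μ act F τ φ 𝒦) {a : Fin (n + 1) → X → X → A} (ha : ∀ i, a i ∈ 𝒦)
    (j : Fin (n + 1)) {b c : X → X → A} (hb : b ∈ 𝒦) (hc : c ∈ 𝒦) :
    TT μ τ F φ (Function.update a j (b + c)) =
      TT μ τ F φ (Function.update a j b) + TT μ τ F φ (Function.update a j c) := by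
  have hu : ∀ k ∈ 𝒦, ∀ i, Function.update a j k i ∈ 𝒦 := by
    intro k hk i
    by_cases hi : i = j
    · subst hi
      rw [Function.update_self]
      exact hk
    · rw [Function.update_of_ne hi]
      exact ha i
  unfold TT
  rw [← integral_add (h𝒦.int1 _ (hu b hb)) (h𝒦.int1 _ (hu c hc))]
  apply integral_congr_ae
  apply Filter.Eventually.of_forall
  intro x
  show _ = (φ x : ℂ) * τ (loop (Function.update a j b) x) +
    (φ x : ℂ) * τ (loop (Function.update a j c) x)
  rw [← mul_add, ← map_add, ← loop_update_add]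

theorem TT_smul {φ : (Fin (n + 1) → X) → ℝ} {a : Fin (n + 1) → X → X → A}
    (j : Fin (n + 1)) (s : ℂ) (b : X → X → A) :
    TT μ τ F φ (Function.update a j (s • b)) = s * TT μ τ F φ (Function.update a j b) := by
  unfold TT
  rw [← integral_const_mul]
  apply integral_congr_ae
  apply Filter.Eventually.of_forall
  intro x
  show (φ x : ℂ) * τ (loop (Function.update a j (s • b)) x) =
    s * ((φ x : ℂ) * τ (loop (Function.update a j b) x))
  rw [loop_update_smul, map_smul, smul_eq_mul]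
  ring

/-- The integral in which the vertex `i` does not enter the cocycle. -/
def JJ (μ : Measure X) (F : Set X) (τ : A →L[ℂ] ℂ) {n : ℕ} (φ : (Fin (n + 1) → X) → ℝ)
    (i : Fin (n + 2)) (a : Fin (n + 2) → X → X → A) : ℂ :=
  ∫ x in {x : Fin (n + 2) → X | x 0 ∈ F}, (φ (fun j => x (i.succAbove j)) : ℂ) * τ (loop a x)
    ∂(Measure.pi fun _ => μ)

theorem succAbove_rot (i j : Fin (n + 1)) :
    i.castSucc.succAbove j + 1 = i.succ.succAbove (j + 1) := by
  refine Fin.lastCases ?_ (fun k => ?_) j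
  · rw [Fin.last_add_one]
    have h1 : i.castSucc.succAbove (Fin.last n) = Fin.last (n + 1) := by
      rw [Fin.succAbove_of_le_castSucc _ _ (Fin.castSucc_le_castSucc_iff.2 (Fin.le_last i)),
        Fin.succ_last]
    rw [h1, Fin.last_add_one]
    have h2 : i.succ.succAbove (0 : Fin (n + 1)) = 0 := by
      rw [Fin.succAbove_of_castSucc_lt]
      · rfl
      · exact Fin.succ_pos i
    rw [h2]
  · rw [Fin.coeSucc_eq_succ]
    apply Fin.ext
    by_cases h : k.castSucc < i
    · rw [Fin.succAbove_of_castSucc_lt _ _ (Fin.castSucc_lt_castSucc_iff.2 h),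
        Fin.coeSucc_eq_succ, Fin.succAbove_of_castSucc_lt]
      · rfl
      · rw [Fin.lt_def] at h ⊢
        simp only [Fin.val_castSucc, Fin.val_succ] at h ⊢
        omega
    · rw [Fin.succAbove_of_le_castSucc _ _ (Fin.castSucc_le_castSucc_iff.2 (not_lt.1 h)),
        Fin.succAbove_of_le_castSucc]
      · have h3 : (k.castSucc.succ + 1 : Fin (n + 2)) = k.succ.succ := by
          have h4 : (k.castSucc.succ : Fin (n + 2)) = k.succ.castSucc := by
            apply Fin.ext
            simp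
          rw [h4, Fin.coeSucc_eq_succ]
        rw [h3]
      · rw [Fin.lt_def] at h
        rw [Fin.le_def]
        simp only [Fin.val_castSucc, Fin.val_succ] at h ⊢
        omega

theorem JJ_inv {φ : (Fin (n + 1) → X) → ℝ} (hφ : Coc act φ)
    {𝒦 : Submodule ℂ (X → X → A)} (h𝒦 : KAlg μ act F τ φ 𝒦) (i : Fin (n + 2))
    {a : Fin (n + 2) → X → X → A} (ha : ∀ i, a i ∈ 𝒦) (γ : G) :
    ∀ᵐ x ∂(Measure.pi fun _ : Fin (n + 2) => μ),
      (fun x : Fin (n + 2) → X => (φ (fun j => x (i.succAbove j)) : ℂ) * τ (loop a x))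
        (fun k => act γ (x k)) =
      (fun x : Fin (n + 2) → X => (φ (fun j => x (i.succAbove j)) : ℂ) * τ (loop a x)) x := by
  filter_upwards [h𝒦.inv2 a ha γ] with x hx
  show (φ (fun j => act γ (x (i.succAbove j))) : ℂ) * _ = _
  rw [hφ.inv, hx]

theorem JJ_rot_fun {φ : (Fin (n + 1) → X) → ℝ} (hφ : Coc act φ)
    (hτ : ∀ b c, τ (b * c) = τ (c * b)) (i : Fin (n + 1)) (a : Fin (n + 2) → X → X → A)
    (x : Fin (n + 2) → X) :
    (fun x : Fin (n + 2) → X => (φ (fun j => x (i.castSucc.succAbove j)) : ℂ) *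
      τ (loop (fun i => a (i + 1)) x)) (fun k => x (k + 1)) =
    (φ (fun j => x (i.succ.succAbove j)) : ℂ) * τ (loop a x) := by
  show (φ (fun j => x (i.castSucc.succAbove j + 1)) : ℂ) *
      τ (loop (fun i => a (i + 1)) (fun k => x (k + 1))) = _
  rw [loop_rotate (τ := τ) hτ]
  congr 2
  have h := hφ.cyc (fun j => x (i.succ.succAbove j))
  rw [← h]
  congr 1
  funext j
  rw [succAbove_rot]

theorem JJ_rot (hD : Dom μ act F) [Countable G] {φ : (Fin (n + 1) → X) → ℝ} (hφ : Coc act φ)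
    {𝒦 : Submodule ℂ (X → X → A)} (h𝒦 : KAlg μ act F τ φ 𝒦) (hτ : ∀ b c, τ (b * c) = τ (c * b))
    (i : Fin (n + 1)) {a : Fin (n + 2) → X → X → A} (ha : ∀ i, a i ∈ 𝒦) :
    JJ μ F τ φ i.castSucc (fun i => a (i + 1)) = JJ μ F τ φ i.succ a := by
  unfold JJ
  rw [← hD.setIntegral_rotate (JJ_inv hφ h𝒦 i.castSucc (a := fun i => a (i + 1))
    (fun i => ha _))]
  apply integral_congr_ae
  apply Filter.Eventually.of_forall
  intro x
  exact JJ_rot_fun hφ hτ i a x

theorem JJ_rot_int (hD : Dom μ act F) [Countable G] {φ : (Fin (n + 1) → X) → ℝ}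
    (hφ : Coc act φ) {𝒦 : Submodule ℂ (X → X → A)} (h𝒦 : KAlg μ act F τ φ 𝒦)
    (hτ : ∀ b c, τ (b * c) = τ (c * b)) (i : Fin (n + 1)) {a : Fin (n + 2) → X → X → A}
    (ha : ∀ i, a i ∈ 𝒦)
    (h : IntegrableOn (fun x : Fin (n + 2) → X => (φ (fun j => x (i.succ.succAbove j)) : ℂ) *
      τ (loop a x)) {x : Fin (n + 2) → X | x 0 ∈ F} (Measure.pi fun _ => μ)) :
    IntegrableOn (fun x : Fin (n + 2) → X => (φ (fun j => x (i.castSucc.succAbove j)) : ℂ) *
      τ (loop (fun i => a (i + 1)) x)) {x : Fin (n + 2) → X | x 0 ∈ F}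
      (Measure.pi fun _ => μ) := by
  rw [← hD.integrableOn_rotate (JJ_inv hφ h𝒦 i.castSucc (a := fun i => a (i + 1))
    (fun i => ha _))]
  refine h.congr ?_
  apply Filter.Eventually.of_forall
  intro x
  exact (JJ_rot_fun hφ hτ i a x).symm

/-- All the integrals with an omitted vertex converge, and may be rotated so that the last vertex
is omitted. -/
theorem JJ_last (hD : Dom μ act F) [Countable G] {φ : (Fin (n + 1) → X) → ℝ} (hφ : Coc act φ)
    {𝒦 : Submodule ℂ (X → X → A)} (h𝒦 : KAlg μ act F τ φ 𝒦) (hτ : ∀ b c, τ (b * c) = τ (c * b))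
    (i : Fin (n + 2)) : ∀ a : Fin (n + 2) → X → X → A, (∀ i, a i ∈ 𝒦) →
    IntegrableOn (fun x : Fin (n + 2) → X => (φ (fun j => x (i.succAbove j)) : ℂ) *
      τ (loop a x)) {x : Fin (n + 2) → X | x 0 ∈ F} (Measure.pi fun _ => μ) ∧
    JJ μ F τ φ i a = JJ μ F τ φ (Fin.last (n + 1)) (fun j => a (j + (i + 1))) := by
  refine Fin.reverseInduction ?_ (fun i ih => ?_) i
  · intro a ha
    refine ⟨?_, ?_⟩
    · have h1 := h𝒦.int2 a ha
      have h2 : (fun x : Fin (n + 2) → X => (φ (fun j => x ((Fin.last (n + 1)).succAbove j)) : ℂ) *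
          τ (loop a x)) = fun x => (φ (Fin.init x) : ℂ) * τ (loop a x) := by
        funext x
        congr 3
        funext j
        rw [Fin.succAbove_last]
        rfl
      rw [h2]
      exact h1
    · congr 1
      funext j
      rw [Fin.last_add_one, add_zero]
  · intro a ha
    have ha' : ∀ i, (fun j : Fin (n + 2) => a (j - 1)) i ∈ 𝒦 := fun i => ha _
    obtain ⟨h1, h2⟩ := ih _ ha'
    have h3 : (fun j : Fin (n + 2) => (fun j : Fin (n + 2) => a (j - 1)) (j + 1)) = a := by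
      funext j
      show a (j + 1 - 1) = a j
      rw [add_sub_cancel_right]
    refine ⟨?_, ?_⟩
    · have h4 := JJ_rot_int hD hφ h𝒦 hτ i ha' h1
      rw [h3] at h4
      exact h4
    · have h4 := JJ_rot hD hφ h𝒦 hτ i ha'
      rw [h3] at h4
      rw [h4, h2]
      congr 1
      funext j
      show a (j + (i.succ + 1) - 1) = a (j + (i.castSucc + 1))
      rw [Fin.coeSucc_eq_succ]
      congr 1
      abel

/-- The Hochschild identity. -/
theorem JJ_sum (hD : Dom μ act F) [Countable G] {φ : (Fin (n + 1) → X) → ℝ} (hφ : Coc act φ)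
    {𝒦 : Submodule ℂ (X → X → A)} (h𝒦 : KAlg μ act F τ φ 𝒦) (hτ : ∀ b c, τ (b * c) = τ (c * b))
    {a : Fin (n + 2) → X → X → A} (ha : ∀ i, a i ∈ 𝒦) :
    ∑ i : Fin (n + 2), (-1 : ℂ) ^ (i : ℕ) *
      JJ μ F τ φ (Fin.last (n + 1)) (fun j => a (j + (i + 1))) = 0 := by
  have h1 : ∀ i : Fin (n + 2), (-1 : ℂ) ^ (i : ℕ) *
      JJ μ F τ φ (Fin.last (n + 1)) (fun j => a (j + (i + 1))) =
      ∫ x in {x : Fin (n + 2) → X | x 0 ∈ F}, (-1 : ℂ) ^ (i : ℕ) *
        ((φ (fun j => x (i.succAbove j)) : ℂ) * τ (loop a x)) ∂(Measure.pi fun _ => μ) := by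
    intro i
    rw [← (JJ_last hD hφ h𝒦 hτ i a ha).2, integral_const_mul]
    rfl
  simp only [h1]
  rw [← integral_finset_sum]
  · rw [← integral_zero (Fin (n + 2) → X) ℂ (μ := (Measure.pi fun _ => μ).restrict
      {x : Fin (n + 2) → X | x 0 ∈ F})]
    apply integral_congr_ae
    apply Filter.Eventually.of_forall
    intro x
    show ∑ i : Fin (n + 2), (-1 : ℂ) ^ (i : ℕ) *
        ((φ (fun j => x (i.succAbove j)) : ℂ) * τ (loop a x)) = 0
    have h2 := hφ.coc x
    have h3 : (∑ i : Fin (n + 2), (-1 : ℂ) ^ (i : ℕ) * (φ (fun j => x (i.succAbove j)) : ℂ)) = 0 := by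
      have := congrArg (fun r : ℝ => (r : ℂ)) h2
      push_cast at this
      exact this
    simp only [← mul_assoc]
    rw [← Finset.sum_mul, h3, zero_mul]
  · intro i _
    exact (JJ_last hD hφ h𝒦 hτ i a ha).1.const_mul _

end Pool.Agent.Lib.MP_df705a_gt.SV.TB
end
end

section

/-!
# SV, block T: merging, and the identity `T(r, …, r, r ε r) = T(r, …, r)`
-/

set_option linter.unusedSectionVars false
set_option linter.unusedVariables false

open MeasureTheory

noncomputable section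

namespace Pool.Agent.Lib.MP_df705a_gt.SV.TB

variable {X : Type*} [MeasurableSpace X] {μ : Measure X} [SigmaFinite μ]
  {G : Type*} [Group G] {act : G → X → X} {F : Set X}
  {A : Type*} [NormedRing A] [NormedAlgebra ℂ A] [CompleteSpace A]
  {τ : A →L[ℂ] ℂ} {n : ℕ}

/-- Merging the last two kernels. -/
theorem JJ_merge (hF : MeasurableSet F) {φ : (Fin (n + 2) → X) → ℝ}
    {𝒦 : Submodule ℂ (X → X → A)} (h𝒦 : KAlg μ act F τ φ 𝒦)
    {a : Fin (n + 3) → X → X → A} (ha : ∀ i, a i ∈ 𝒦) :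
    JJ μ F τ φ (Fin.last (n + 2)) a =
      TT μ τ F φ (Function.update (fun i => a i.castSucc) (Fin.last (n + 1))
        (comp μ (a (Fin.last (n + 1)).castSucc) (a (Fin.last (n + 2))))) := by
  have h0 : JJ μ F τ φ (Fin.last (n + 2)) a =
      ∫ x in {x : Fin (n + 3) → X | x 0 ∈ F}, (φ (Fin.init x) : ℂ) * τ (loop a x)
        ∂(Measure.pi fun _ => μ) := by
    unfold JJ
    congr 1
    funext x
    congr 3
    funext j
    rw [Fin.succAbove_last]
    rfl
  rw [h0, integral_merge _ (h𝒦.int2 a ha) hF]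
  unfold TT
  apply integral_congr_ae
  apply ae_restrict_of_ae
  have hne : (Fin.last (n + 1) : Fin (n + 2)) ≠ 0 := by
    intro h
    have := congrArg Fin.val h
    simp at this
  filter_upwards [pair_ae (μ := μ) hne (h𝒦.cint (a (Fin.last (n + 1)).castSucc) (ha _)
    (a (Fin.last (n + 2))) (ha _))] with y hy
  rw [loop_last]
  have h1 : ∀ z : X, (φ (Fin.init (Fin.snoc y z : Fin (n + 3) → X)) : ℂ) *
      τ (loop a (Fin.snoc y z : Fin (n + 3) → X)) = (φ y : ℂ) * (τ.comp (ContinuousLinearMap.mul ℂ A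
        ((List.ofFn fun i : Fin (n + 1) =>
          a i.castSucc.castSucc (y i.castSucc) (y (i.castSucc + 1))).prod)))
          (a (Fin.last (n + 1)).castSucc (y (Fin.last (n + 1))) z * a (Fin.last (n + 2)) z (y 0)) := by
    intro z
    rw [loop_last_two]
    have h2 : (Fin.init (Fin.snoc y z : Fin (n + 3) → X)) = y := Fin.init_snoc _ _
    rw [h2]
    rfl
  simp only [h1]
  rw [integral_const_mul, ContinuousLinearMap.integral_comp_comm _ hy]
  congr 1
  show τ ((List.ofFn fun i : Fin (n + 1) =>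
          a i.castSucc.castSucc (y i.castSucc) (y (i.castSucc + 1))).prod *
      comp μ (a (Fin.last (n + 1)).castSucc) (a (Fin.last (n + 2))) (y (Fin.last (n + 1))) (y 0)) =
    τ _
  rw [Function.update_self]
  congr 4
  funext i
  rw [Function.update_of_ne (Fin.castSucc_lt_last i).ne]

/-- Left multiplication of a kernel by a constant. -/
def lm (e : A) (k : X → X → A) (x y : X) : A := e * k x y

/-- Right multiplication of a kernel by a constant. -/
def rm (k : X → X → A) (e : A) (x y : X) : A := k x y * e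

theorem comp_lm_ae (e : A) {a b : X → X → A}
    (h : ∀ᵐ p : X × X ∂(μ.prod μ), Integrable (fun z => a p.1 z * b z p.2) μ) :
    ∀ᵐ p : X × X ∂(μ.prod μ), comp μ (lm e a) b p.1 p.2 = lm e (comp μ a b) p.1 p.2 := by
  filter_upwards [h] with p hp
  unfold comp lm
  rw [← integral_const_mul_of_integrable hp]
  simp only [mul_assoc]

theorem TT_move {φ : (Fin (n + 1) → X) → ℝ} (hτ : ∀ b c, τ (b * c) = τ (c * b))
    (a : Fin (n + 1) → X → X → A) (e : A) :
    TT μ τ F φ (Function.update a (Fin.last n) (rm (a (Fin.last n)) e)) =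
      TT μ τ F φ (Function.update a 0 (lm e (a 0))) := by
  unfold TT
  congr 1
  funext x
  congr 1
  exact loop_move (τ := τ) hτ a e x

/-- The alternating sum over a cycle of even length plus one. -/
theorem sum_alt {N : ℕ} (hN : Even N) (q : Fin (N + 1) → ℂ) :
    ∑ j : Fin (N + 1), (-1 : ℂ) ^ (j : ℕ) * (q (j + 1) + q j) = 2 * q 0 := by
  simp only [mul_add, Finset.sum_add_distrib]
  rw [Fin.sum_univ_castSucc, Fin.sum_univ_succ (fun j : Fin (N + 1) => (-1 : ℂ) ^ (j : ℕ) * q j)]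
  simp only [Fin.coeSucc_eq_succ, Fin.last_add_one, Fin.val_castSucc, Fin.val_last, Fin.val_succ,
    Fin.val_zero, hN.neg_one_pow]
  rw [show (∑ i : Fin N, (-1 : ℂ) ^ ((i : ℕ) + 1) * q i.succ) =
    - ∑ i : Fin N, (-1 : ℂ) ^ (i : ℕ) * q i.succ by
      rw [← Finset.sum_neg_distrib]
      refine Finset.sum_congr rfl fun i _ => ?_
      ring]
  ring

/-- The constant `e` or `1`. -/
def cc (e : A) (P : Prop) [Decidable P] : A := if P then e else 1

/-- The kernel `r` with factors `e` in front at the places `u` and `v`. -/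
def word {m : ℕ} (e : A) (r : X → X → A) (u v i : Fin (m + 1)) : X → X → A :=
  lm (cc e (i = u)) (lm (cc e (i = v)) r)

theorem lm_cc_mem {𝒦 : Submodule ℂ (X → X → A)} {e : A} (hl : ∀ k ∈ 𝒦, lm e k ∈ 𝒦)
    (P : Prop) [Decidable P] {k : X → X → A} (hk : k ∈ 𝒦) : lm (cc e P) k ∈ 𝒦 := by
  unfold cc
  split_ifs
  · exact hl k hk
  · have : lm (1 : A) k = k := by
      funext x y
      exact one_mul _
    rw [this]
    exact hk

theorem cc_pos {e : A} {P : Prop} [Decidable P] (h : P) : cc e P = e := if_pos h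

theorem cc_neg {e : A} {P : Prop} [Decidable P] (h : ¬ P) : cc e P = 1 := if_neg h

theorem cc_comm (e : A) (P : Prop) [Decidable P] : cc e P * e = e * cc e P := by
  unfold cc
  split_ifs
  · rfl
  · rw [one_mul, mul_one]

theorem add_one_eq_zero_iff {m : ℕ} (i : Fin (m + 1)) : i + 1 = 0 ↔ i = Fin.last m := by
  constructor
  · intro h
    rw [← Fin.last_add_one] at h
    exact add_right_cancel h
  · rintro rfl
    exact Fin.last_add_one m

theorem word_rotate (hD : Dom μ act F) [Countable G] {φ : (Fin (n + 1) → X) → ℝ}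
    (hφ : Coc act φ) {𝒦 : Submodule ℂ (X → X → A)} (h𝒦 : KAlg μ act F τ φ 𝒦)
    (hτ : ∀ b c, τ (b * c) = τ (c * b)) {e : A} (hl : ∀ k ∈ 𝒦, lm e k ∈ 𝒦) {r : X → X → A}
    (hr : r ∈ 𝒦) (j : Fin (n + 1)) :
    TT μ τ F φ (word e r (Fin.last n) j) = TT μ τ F φ (word e r 0 (j + 1)) := by
  rw [← TT_rotate hD hφ h𝒦 hτ (a := word e r 0 (j + 1))
    (fun i => lm_cc_mem hl _ (lm_cc_mem hl _ hr))]
  congr 1
  funext i
  unfold word cc
  simp only [add_one_eq_zero_iff, add_left_inj]

/-- The key identity. -/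
theorem TT_eps (hN : Even (n + 1)) (hD : Dom μ act F) [Countable G] {φ : (Fin (n + 2) → X) → ℝ}
    (hφ : Coc act φ) {𝒦 : Submodule ℂ (X → X → A)} (h𝒦 : KAlg μ act F τ φ 𝒦)
    (hτ : ∀ b c, τ (b * c) = τ (c * b)) {e : A} (he : e * e = 1)
    (hl : ∀ k ∈ 𝒦, lm e k ∈ 𝒦) (hrm : ∀ k ∈ 𝒦, rm k e ∈ 𝒦) {r : X → X → A} (hr : r ∈ 𝒦)
    (hr2 : ∀ᵐ p : X × X ∂(μ.prod μ),
      comp μ r r p.1 p.2 = (1 / 2 : ℂ) • (e * r p.1 p.2 + r p.1 p.2 * e)) :
    TT μ τ F φ (Function.update (fun _ => r) (Fin.last (n + 1)) (comp μ r (lm e r))) =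
      TT μ τ F φ (fun _ => r) := by
  -- the kernels with one factor `e`
  let K1 : Fin (n + 3) → Fin (n + 3) → X → X → A := fun k => Function.update (fun _ => r) k (lm e r)
  have hK1 : ∀ k i, K1 k i ∈ 𝒦 := by
    intro k i
    by_cases hi : i = k
    · subst hi
      simp only [K1, Function.update_self]
      exact hl r hr
    · simp only [K1, Function.update_of_ne hi]
      exact hr
  -- the last one
  have hlast : JJ μ F τ φ (Fin.last (n + 2)) (K1 (Fin.last (n + 2))) =
      TT μ τ F φ (Function.update (fun _ => r) (Fin.last (n + 1)) (comp μ r (lm e r))) := by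
    rw [JJ_merge hD.meas h𝒦 (hK1 _)]
    congr 1
    have h1 : (fun i : Fin (n + 2) => K1 (Fin.last (n + 2)) i.castSucc) = fun _ => r := by
      funext i
      simp only [K1, Function.update_of_ne (Fin.castSucc_lt_last i).ne]
    have h2 : K1 (Fin.last (n + 2)) (Fin.last (n + 1)).castSucc = r := congrFun h1 _
    have h3 : K1 (Fin.last (n + 2)) (Fin.last (n + 2)) = lm e r := by
      simp only [K1, Function.update_self]
    rw [h1, h2, h3]
  -- the other ones
  have hother : ∀ j : Fin (n + 2), JJ μ F τ φ (Fin.last (n + 2)) (K1 j.castSucc) =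
      (1 / 2 : ℂ) * (TT μ τ F φ (word e r 0 (j + 1)) + TT μ τ F φ (word e r 0 j)) := by
    intro j
    rw [JJ_merge hD.meas h𝒦 (hK1 _)]
    have h1 : (fun i : Fin (n + 2) => K1 j.castSucc i.castSucc) =
        fun i => lm (cc e (i = j)) r := by
      funext i
      by_cases hi : i = j
      · subst hi
        simp only [K1, Function.update_self]
        rw [cc_pos trivial]
      · have : i.castSucc ≠ j.castSucc := fun h => hi (Fin.castSucc_injective _ h)
        simp only [K1, Function.update_of_ne this]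
        rw [cc_neg hi]
        funext x y
        exact (one_mul _).symm
    have h2 : K1 j.castSucc (Fin.last (n + 1)).castSucc = lm (cc e (Fin.last (n + 1) = j)) r :=
      congrFun h1 _
    have h3 : K1 j.castSucc (Fin.last (n + 2)) = r := by
      simp only [K1, Function.update_of_ne (Fin.castSucc_lt_last j).ne']
    rw [h1, h2, h3]
    set b : Fin (n + 2) → X → X → A := fun i => lm (cc e (i = j)) r with hb
    have hbm : ∀ i, b i ∈ 𝒦 := fun i => lm_cc_mem hl _ hr
    have h4 : TT μ τ F φ (Function.update b (Fin.last (n + 1))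
        (comp μ (lm (cc e (Fin.last (n + 1) = j)) r) r)) =
        TT μ τ F φ (Function.update b (Fin.last (n + 1))
          ((1 / 2 : ℂ) • (lm e (b (Fin.last (n + 1))) + rm (b (Fin.last (n + 1))) e))) := by
      apply TT_congr
      intro i
      by_cases hi : i = Fin.last (n + 1)
      · subst hi
        simp only [Function.update_self]
        filter_upwards [comp_lm_ae (cc e (Fin.last (n + 1) = j)) (h𝒦.cint r hr r hr), hr2]
          with p hp1 hp2
        rw [hp1]
        show cc e (Fin.last (n + 1) = j) * comp μ r r p.1 p.2 =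
          (1 / 2 : ℂ) • (e * (cc e (Fin.last (n + 1) = j) * r p.1 p.2) +
            cc e (Fin.last (n + 1) = j) * r p.1 p.2 * e)
        rw [hp2, mul_smul_comm, mul_add, ← mul_assoc, cc_comm, mul_assoc, mul_assoc]
      · simp only [Function.update_of_ne hi]
        exact Filter.Eventually.of_forall fun _ => trivial
    rw [h4, TT_smul, TT_add h𝒦 hbm _ (hl _ (hbm _)) (hrm _ (hbm _)), TT_move hτ b e]
    congr 2
    · rw [← word_rotate hD hφ h𝒦 hτ hl hr j]
      congr 1
      funext i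
      by_cases hi : i = Fin.last (n + 1)
      · subst hi
        simp only [Function.update_self, word, hb]
        rw [cc_pos (P := True) trivial]
      · simp only [Function.update_of_ne hi, word, hb]
        rw [cc_neg (P := i = Fin.last (n + 1)) hi]
        funext x y
        exact (one_mul _).symm
    · congr 1
      funext i
      by_cases hi : i = 0
      · subst hi
        simp only [Function.update_self, word, hb]
        rw [cc_pos (P := True) trivial]
      · simp only [Function.update_of_ne hi, word, hb]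
        rw [cc_neg (P := i = 0) hi]
        funext x y
        exact (one_mul _).symm
  -- the Hochschild identity
  have hH := JJ_sum hD hφ h𝒦 hτ (hK1 0)
  have hrev : ∀ i : Fin (n + 3), (fun j : Fin (n + 3) => K1 0 (j + (i + 1))) = K1 i.rev := by
    intro i
    funext j
    have h1 : i.rev + (i + 1) = 0 := by
      rw [← add_assoc, add_one_eq_zero_iff]
      apply Fin.ext
      rw [Fin.val_add, Fin.val_rev, Fin.val_last]
      have := i.isLt
      rw [show n + 2 + 1 - ((i : ℕ) + 1) + (i : ℕ) = n + 2 by omega]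
      exact Nat.mod_eq_of_lt (by omega)
    by_cases hj : j = i.rev
    · subst hj
      rw [h1]
      simp only [K1, Function.update_self]
    · have h2 : j + (i + 1) ≠ 0 := by
        intro h
        rw [← h1] at h
        exact hj (add_right_cancel h)
      simp only [K1, Function.update_of_ne h2, Function.update_of_ne hj]
  simp only [hrev] at hH
  rw [← Equiv.sum_comp Fin.revPerm] at hH
  simp only [Fin.revPerm_apply, Fin.rev_rev] at hH
  rw [Fin.sum_univ_castSucc, hlast, Fin.rev_last, Fin.val_zero, pow_zero, one_mul] at hH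
  have hsign : ∀ j : Fin (n + 2), (-1 : ℂ) ^ ((j.castSucc.rev : Fin (n + 3)) : ℕ) =
      -(-1 : ℂ) ^ (j : ℕ) := by
    intro j
    have hj := j.isLt
    have h1 : (((j.castSucc.rev : Fin (n + 3)) : ℕ)) + (j : ℕ) = n + 1 + 1 := by
      rw [Fin.val_rev, Fin.val_castSucc]
      omega
    have h2 : (-1 : ℂ) ^ ((j.castSucc.rev : Fin (n + 3)) : ℕ) * (-1 : ℂ) ^ (j : ℕ) = -1 := by
      rw [← pow_add, h1, pow_succ, hN.neg_one_pow, one_mul]
    have h3 : (-1 : ℂ) ^ (j : ℕ) * (-1 : ℂ) ^ (j : ℕ) = 1 := by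
      rw [← mul_pow]
      simp
    calc (-1 : ℂ) ^ ((j.castSucc.rev : Fin (n + 3)) : ℕ)
        = (-1 : ℂ) ^ ((j.castSucc.rev : Fin (n + 3)) : ℕ) *
          ((-1 : ℂ) ^ (j : ℕ) * (-1 : ℂ) ^ (j : ℕ)) := by rw [h3, mul_one]
      _ = -(-1 : ℂ) ^ (j : ℕ) := by rw [← mul_assoc, h2, neg_one_mul]
  have hsum : (∑ j : Fin (n + 2), (-1 : ℂ) ^ ((j.castSucc.rev : Fin (n + 3)) : ℕ) *
      JJ μ F τ φ (Fin.last (n + 2)) (K1 j.castSucc)) =
      - TT μ τ F φ (word e r 0 0) := by
    have h1 := sum_alt hN (fun j => TT μ τ F φ (word e r 0 j))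
    calc (∑ j : Fin (n + 2), (-1 : ℂ) ^ ((j.castSucc.rev : Fin (n + 3)) : ℕ) *
      JJ μ F τ φ (Fin.last (n + 2)) (K1 j.castSucc)) =
        -(1 / 2 : ℂ) * ∑ j : Fin (n + 2), (-1 : ℂ) ^ (j : ℕ) *
          (TT μ τ F φ (word e r 0 (j + 1)) + TT μ τ F φ (word e r 0 j)) := by
          rw [Finset.mul_sum]
          refine Finset.sum_congr rfl fun j _ => ?_
          rw [hsign, hother]
          ring
      _ = _ := by
          rw [h1]
          ring
  have hw : word e r (0 : Fin (n + 2)) 0 = fun _ => r := by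
    funext i x y
    unfold word lm cc
    split_ifs
    · rw [← mul_assoc, he, one_mul]
    · rw [one_mul, one_mul]
  rw [hsum, hw] at hH
  linear_combination hH

end Pool.Agent.Lib.MP_df705a_gt.SV.TB
end
end

section

/-!
# SV, block T: the class of equivariant kernels with bounds
-/

set_option linter.unusedSectionVars false
set_option linter.unusedVariables false

open MeasureTheory
open scoped ENNReal NNReal

noncomputable section

namespace Pool.Agent.Lib.MP_df705a_gt.SV.TB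

variable {X : Type*} [MeasurableSpace X] {μ : Measure X} [SigmaFinite μ]
  {G : Type*} [Group G] {act : G → X → X} {F : Set X}
  {A : Type*} [NormedRing A] [NormedAlgebra ℂ A] [CompleteSpace A]
  {τ : A →L[ℂ] ℂ} {n : ℕ}

/-- Almost everywhere equivariant kernels. -/
def Equi (μ : Measure X) (act : G → X → X) (U U' : G → X → A) (a : X → X → A) : Prop :=
  ∀ γ, ∀ᵐ p : X × X ∂(μ.prod μ), a (act γ p.1) (act γ p.2) = U γ p.1 * a p.1 p.2 * U' γ p.2

/-- Transition functions which commute with `e`. -/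
structure Gauge (U U' : G → X → A) (e : A) : Prop where
  left : ∀ γ x, U' γ x * U γ x = 1
  right : ∀ γ x, U γ x * U' γ x = 1
  e_left : ∀ γ x, e * U γ x = U γ x * e
  e_right : ∀ γ x, U' γ x * e = e * U' γ x

variable {U U' : G → X → A} {e : A} {w : X → X → ℝ}

theorem prod_gauge {m : ℕ} (u u' : Fin (m + 1) → A) (h : ∀ j, u' j * u j = 1) (f : Fin m → A) :
    u 0 * (List.ofFn f).prod =
      (List.ofFn fun i : Fin m => u i.castSucc * f i * u' i.succ).prod * u (Fin.last m) := by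
  induction m with
  | zero => simp
  | succ m ih =>
    rw [List.ofFn_succ', List.concat_eq_append, List.prod_append, List.prod_singleton,
      List.ofFn_succ', List.concat_eq_append, List.prod_append, List.prod_singleton]
    have h1 := ih (fun j => u j.castSucc) (fun j => u' j.castSucc) (fun j => h _)
      (fun i => f i.castSucc)
    rw [← mul_assoc]
    have h2 : u 0 * (List.ofFn fun i : Fin m => f i.castSucc).prod =
        (List.ofFn fun i : Fin m => u i.castSucc.castSucc * f i.castSucc * u' i.succ.castSucc).prod *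
          u (Fin.last m).castSucc := h1
    rw [h2]
    have h3 : (fun i : Fin m => u i.castSucc.castSucc * f i.castSucc * u' i.succ.castSucc) =
        fun i : Fin m => u i.castSucc.castSucc * f i.castSucc * u' i.castSucc.succ := by
      funext i
      rfl
    rw [h3]
    simp only [mul_assoc]
    rw [Fin.succ_last, h, mul_one]

theorem loop_gauge {m : ℕ} (hτ : ∀ b c, τ (b * c) = τ (c * b)) (u u' : X → A)
    (h : ∀ x, u' x * u x = 1) (h' : ∀ x, u x * u' x = 1) {a b : Fin (m + 1) → X → X → A}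
    {x y : Fin (m + 1) → X}
    (hab : ∀ i, b i (y i) (y (i + 1)) = u (x i) * a i (x i) (x (i + 1)) * u' (x (i + 1))) :
    τ (loop b y) = τ (loop a x) := by
  have h1 : loop b y = (List.ofFn fun i : Fin (m + 1) =>
      u ((Fin.snoc x (x 0) : Fin (m + 2) → X) i.castSucc) * a i (x i) (x (i + 1)) *
        u' ((Fin.snoc x (x 0) : Fin (m + 2) → X) i.succ)).prod := by
    unfold loop
    congr 2
    funext i
    rw [hab]
    have h2 : (Fin.snoc x (x 0) : Fin (m + 2) → X) i.succ = x (i + 1) := by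
      refine Fin.lastCases ?_ (fun j => ?_) i
      · rw [Fin.succ_last, Fin.snoc_last, Fin.last_add_one]
      · rw [Fin.coeSucc_eq_succ, Fin.succ_castSucc, Fin.snoc_castSucc]
    rw [h2, Fin.snoc_castSucc]
  have h3 := prod_gauge (fun j : Fin (m + 2) => u ((Fin.snoc x (x 0) : Fin (m + 2) → X) j))
    (fun j => u' ((Fin.snoc x (x 0) : Fin (m + 2) → X) j)) (fun j => h _)
    (fun i => a i (x i) (x (i + 1)))
  beta_reduce at h3
  rw [← h1, Fin.snoc_last] at h3
  have h4 : (Fin.snoc x (x 0) : Fin (m + 2) → X) 0 = x 0 := by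
    rw [show (0 : Fin (m + 2)) = (0 : Fin (m + 1)).castSucc from rfl, Fin.snoc_castSucc]
  rw [h4] at h3
  have h5 : u (x 0) * loop a x = loop b y * u (x 0) := h3
  have h6 : loop b y = u (x 0) * loop a x * u' (x 0) := by
    rw [h5, mul_assoc, h', mul_one]
  rw [h6, mul_assoc, hτ, mul_assoc, h, mul_one]

/-- The invariance of the trace of a product around a closed path. -/
theorem loop_inv (hτ : ∀ b c, τ (b * c) = τ (c * b)) (hU : Gauge U U' e) {m : ℕ}
    {a : Fin (m + 2) → X → X → A} (ha : ∀ i, Equi μ act U U' (a i)) (γ : G) :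
    ∀ᵐ x ∂(Measure.pi fun _ : Fin (m + 2) => μ), τ (loop a fun i => act γ (x i)) =
      τ (loop a x) := by
  have h1 : ∀ i : Fin (m + 2), ∀ᵐ x ∂(Measure.pi fun _ : Fin (m + 2) => μ),
      a i (act γ (x i)) (act γ (x (i + 1))) =
        U γ (x i) * a i (x i) (x (i + 1)) * U' γ (x (i + 1)) := by
    intro i
    have hij : i ≠ i + 1 := by
      intro hi
      have h2 : (1 : Fin (m + 2)) = 0 := by
        have := hi
        rwa [left_eq_add] at this
      exact absurd h2 (by simp)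
    exact pair_ae hij (ha i γ)
  filter_upwards [ae_all_iff.2 h1] with x hx
  exact loop_gauge hτ (U γ) (U' γ) (hU.left γ) (hU.right γ) hx

theorem Dom.act_inv (hD : Dom μ act F) (γ : G) (x : X) : act γ⁻¹ (act γ x) = x := by
  rw [← hD.mul, inv_mul_cancel, hD.one]

theorem Dom.act_inv' (hD : Dom μ act F) (γ : G) (x : X) : act γ (act γ⁻¹ x) = x := by
  rw [← hD.mul, mul_inv_cancel, hD.one]

/-- The action as measurable equivalences. -/
def Dom.equiv (hD : Dom μ act F) (γ : G) : X ≃ᵐ X where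
  toFun := act γ
  invFun := act γ⁻¹
  left_inv := hD.act_inv γ
  right_inv := hD.act_inv' γ
  measurable_toFun := (hD.mp γ).measurable
  measurable_invFun := (hD.mp γ⁻¹).measurable

theorem Dom.integral_act (hD : Dom μ act F) (γ : G) {E : Type*} [NormedAddCommGroup E]
    [NormedSpace ℝ E] (f : X → E) : ∫ x, f (act γ x) ∂μ = ∫ x, f x ∂μ :=
  (hD.mp γ).integral_comp (hD.equiv γ).measurableEmbedding f

theorem Dom.integrable_act (hD : Dom μ act F) (γ : G) {E : Type*} [NormedAddCommGroup E]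
    (f : X → E) : Integrable (fun x => f (act γ x)) μ ↔ Integrable f μ :=
  (hD.mp γ).integrable_comp_emb (hD.equiv γ).measurableEmbedding

theorem Equi.comp (hD : Dom μ act F) (hU : Gauge U U' e) {a b : X → X → A}
    (ha : Equi μ act U U' a) (hb : Equi μ act U U' b)
    (hint : ∀ᵐ p : X × X ∂(μ.prod μ), Integrable (fun z => a p.1 z * b z p.2) μ) :
    Equi μ act U U' (comp μ a b) := by
  intro γ
  have h1 : ∀ᵐ p : X × X ∂(μ.prod μ), ∀ᵐ z ∂μ,
      a (act γ p.1) (act γ z) = U γ p.1 * a p.1 z * U' γ z :=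
    ae_fst (P := fun x => ∀ᵐ z ∂μ, a (act γ x) (act γ z) = U γ x * a x z * U' γ z)
      (Measure.ae_ae_of_ae_prod (ha γ))
  have h2 : ∀ᵐ p : X × X ∂(μ.prod μ), ∀ᵐ z ∂μ,
      b (act γ z) (act γ p.2) = U γ z * b z p.2 * U' γ p.2 :=
    ae_snd (P := fun y => ∀ᵐ z ∂μ, b (act γ z) (act γ y) = U γ z * b z y * U' γ y)
      (Measure.ae_ae_of_ae_prod (ae_swap' (hb γ)))
  filter_upwards [h1, h2, hint] with p hp1 hp2 hp3
  unfold SV.comp
  rw [← hD.integral_act γ]
  have h3 : (fun z => a (act γ p.1) (act γ z) * b (act γ z) (act γ p.2)) =ᵐ[μ]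
      fun z => U γ p.1 * ((a p.1 z * b z p.2) * U' γ p.2) := by
    filter_upwards [hp1, hp2] with z hz1 hz2
    rw [hz1, hz2]
    calc U γ p.1 * a p.1 z * U' γ z * (U γ z * b z p.2 * U' γ p.2)
        = U γ p.1 * a p.1 z * (U' γ z * U γ z) * (b z p.2 * U' γ p.2) := by
          simp only [mul_assoc]
      _ = U γ p.1 * ((a p.1 z * b z p.2) * U' γ p.2) := by
          rw [hU.left, mul_one]
          simp only [mul_assoc]
  rw [integral_congr_ae h3, integral_const_mul_of_integrable (hp3.mul_const _),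
    integral_mul_const_of_integrable hp3, mul_assoc]

theorem Equi.add {a b : X → X → A} (ha : Equi μ act U U' a) (hb : Equi μ act U U' b) :
    Equi μ act U U' (a + b) := by
  intro γ
  filter_upwards [ha γ, hb γ] with p hp1 hp2
  show a (act γ p.1) (act γ p.2) + b (act γ p.1) (act γ p.2) = U γ p.1 * (a p.1 p.2 + b p.1 p.2) *
    U' γ p.2
  rw [hp1, hp2, mul_add, add_mul]

theorem Equi.smul {a : X → X → A} (z : ℂ) (ha : Equi μ act U U' a) :
    Equi μ act U U' (z • a) := by
  intro γ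
  filter_upwards [ha γ] with p hp1
  show z • a (act γ p.1) (act γ p.2) = U γ p.1 * (z • a p.1 p.2) * U' γ p.2
  rw [hp1, mul_smul_comm, smul_mul_assoc]

theorem Equi.zero : Equi μ act U U' (0 : X → X → A) := by
  intro γ
  refine Filter.Eventually.of_forall fun p => ?_
  show (0 : A) = U γ p.1 * 0 * U' γ p.2
  rw [mul_zero, zero_mul]

theorem Equi.lm (hU : Gauge U U' e) {a : X → X → A} (ha : Equi μ act U U' a) :
    Equi μ act U U' (lm e a) := by
  intro γ
  filter_upwards [ha γ] with p hp1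
  show e * a (act γ p.1) (act γ p.2) = U γ p.1 * (e * a p.1 p.2) * U' γ p.2
  rw [hp1, ← mul_assoc, ← mul_assoc, hU.e_left, mul_assoc (U γ p.1) e]

theorem Equi.rm (hU : Gauge U U' e) {a : X → X → A} (ha : Equi μ act U U' a) :
    Equi μ act U U' (rm a e) := by
  intro γ
  filter_upwards [ha γ] with p hp1
  show a (act γ p.1) (act γ p.2) * e = U γ p.1 * (a p.1 p.2 * e) * U' γ p.2
  rw [hp1, mul_assoc, hU.e_right, ← mul_assoc, mul_assoc (U γ p.1) (a p.1 p.2) e]

/-- The space of equivariant kernels with bounds. -/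
def KK (μ : Measure X) [SigmaFinite μ] (act : G → X → X) (U U' : G → X → A) (w : X → X → ℝ)
    (hw : Wt w) {p : ℝ} (hp : 1 ≤ p) : Submodule ℂ (X → X → A) where
  carrier := {a | (∃ C₁ Cp : ℝ≥0, KB μ w p a C₁ Cp) ∧ Equi μ act U U' a}
  add_mem' := by
    rintro a b ⟨⟨C, D, h1⟩, h2⟩ ⟨⟨C', D', h1'⟩, h2'⟩
    exact ⟨⟨_, _, h1.add hw.meas hp h1'⟩, h2.add h2'⟩
  zero_mem' := ⟨⟨0, 0, KB.zero (by linarith)⟩, Equi.zero⟩
  smul_mem' := by
    rintro z a ⟨⟨C, D, h1⟩, h2⟩
    exact ⟨⟨_, _, h1.smul hw.meas (by linarith) z⟩, h2.smul z⟩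

end Pool.Agent.Lib.MP_df705a_gt.SV.TB
end
end

section

/-!
# SV, Q3: the resolvents at different times (abstract)
-/

open scoped InnerProductSpace Topology
open Filter

noncomputable section

namespace Pool.Agent.Lib.MP_df705a_gt.SV

variable {H : Type*} [NormedAddCommGroup H] [InnerProductSpace ℂ H]

/-- A symmetric linear relation. -/
def SymRel (G : Submodule ℂ (H × H)) : Prop := ∀ p ∈ G, ∀ q ∈ G, ⟪p.1, q.2⟫_ℂ = ⟪p.2, q.1⟫_ℂ

/-- `R = (1 + t² D²)⁻¹` and `B = t D (1 + t² D²)⁻¹` for the relation `G = graph D`. -/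
def IsRes (G : Submodule ℂ (H × H)) (t : ℝ) (R B : H →L[ℂ] H) : Prop :=
  ∀ x, (R x, ((t⁻¹ : ℝ) : ℂ) • B x) ∈ G ∧ (B x, ((t⁻¹ : ℝ) : ℂ) • (x - R x)) ∈ G

variable {G : Submodule ℂ (H × H)} {t : ℝ} {R B : H →L[ℂ] H}

theorem SymRel.eq_zero (hG : SymRel G) {u v : H} {c : ℝ} (hc : 0 < c) (h1 : (u, v) ∈ G)
    (h2 : (v, (c : ℂ) • (-u)) ∈ G) : u = 0 ∧ v = 0 := by
  have h := hG _ h1 _ h2
  have e1 : ⟪u, (c : ℂ) • (-u)⟫_ℂ = ((-(c * ‖u‖ ^ 2) : ℝ) : ℂ) := by
    rw [inner_smul_right, inner_neg_right, inner_self_eq_norm_sq_to_K]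
    push_cast
    ring_nf
    rfl
  have e2 : ⟪v, v⟫_ℂ = ((‖v‖ ^ 2 : ℝ) : ℂ) := by
    rw [inner_self_eq_norm_sq_to_K]
    push_cast
    rfl
  simp only at h
  rw [e1, e2] at h
  have h3 : -(c * ‖u‖ ^ 2) = ‖v‖ ^ 2 := Complex.ofReal_injective h
  have h4 : 0 ≤ c * ‖u‖ ^ 2 := by positivity
  have h5 : 0 ≤ ‖v‖ ^ 2 := by positivity
  have h6 : ‖v‖ ^ 2 = 0 := by linarith
  have h7 : c * ‖u‖ ^ 2 = 0 := by linarith
  refine ⟨?_, ?_⟩
  · rcases mul_eq_zero.1 h7 with h8 | h8
    · exact absurd h8 hc.ne'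
    · exact norm_eq_zero.1 (pow_eq_zero_iff (two_ne_zero)|>.1 h8)
  · exact norm_eq_zero.1 (pow_eq_zero_iff (two_ne_zero)|>.1 h6)

/-- The resolvents are determined by the relation. -/
theorem IsRes.uniq (hG : SymRel G) (ht : 0 < t) (h : IsRes G t R B) {x u b : H}
    (h1 : (u, ((t⁻¹ : ℝ) : ℂ) • b) ∈ G) (h2 : (b, ((t⁻¹ : ℝ) : ℂ) • (x - u)) ∈ G) :
    u = R x ∧ b = B x := by
  obtain ⟨h3, h4⟩ := h x
  have h5 := G.sub_mem h1 h3
  have h6 := G.smul_mem ((t⁻¹ : ℝ) : ℂ) (G.sub_mem h2 h4)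
  have ht' : 0 < t⁻¹ := inv_pos.2 ht
  have e1 : (u, ((t⁻¹ : ℝ) : ℂ) • b) - (R x, ((t⁻¹ : ℝ) : ℂ) • B x)
      = (u - R x, ((t⁻¹ : ℝ) : ℂ) • (b - B x)) := by
    rw [Prod.mk_sub_mk, smul_sub]
  have e2 : ((t⁻¹ : ℝ) : ℂ) • ((b, ((t⁻¹ : ℝ) : ℂ) • (x - u)) - (B x, ((t⁻¹ : ℝ) : ℂ) • (x - R x)))
      = (((t⁻¹ : ℝ) : ℂ) • (b - B x), ((t⁻¹ * t⁻¹ : ℝ) : ℂ) • (-(u - R x))) := by
    rw [Prod.mk_sub_mk, Prod.smul_mk, ← smul_sub, smul_smul]
    push_cast
    congr 2
    abel
  rw [e1] at h5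
  rw [e2] at h6
  obtain ⟨h7, h8⟩ := hG.eq_zero (mul_pos ht' ht') h5 h6
  refine ⟨sub_eq_zero.1 h7, ?_⟩
  rcases smul_eq_zero.1 h8 with h9 | h9
  · exact absurd (Complex.ofReal_eq_zero.1 h9) ht'.ne'
  · exact sub_eq_zero.1 h9

/-- The basic identity. -/
theorem IsRes.inner_eq (hG : SymRel G) (ht : 0 < t) (h : IsRes G t R B) (x y : H) :
    ⟪R x, y⟫_ℂ = ⟪R x, R y⟫_ℂ + ⟪B x, B y⟫_ℂ ∧ ⟪x, R y⟫_ℂ = ⟪R x, R y⟫_ℂ + ⟪B x, B y⟫_ℂ := by
  have ht' : ((t⁻¹ : ℝ) : ℂ) ≠ 0 := by
    exact_mod_cast (inv_pos.2 ht).ne'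
  have h1 := hG _ (h x).1 _ (h y).2
  have h2 := hG _ (h x).2 _ (h y).1
  simp only at h1 h2
  rw [inner_smul_right, inner_smul_left, Complex.conj_ofReal] at h1 h2
  have h3 := mul_left_cancel₀ ht' h1
  have h4 := mul_left_cancel₀ ht' h2
  rw [inner_sub_right] at h3
  rw [inner_sub_left] at h4
  constructor
  · linear_combination h3
  · linear_combination -h4

theorem IsRes.symm (hG : SymRel G) (ht : 0 < t) (h : IsRes G t R B) (x y : H) :
    ⟪R x, y⟫_ℂ = ⟪x, R y⟫_ℂ := by
  rw [(h.inner_eq hG ht x y).1, (h.inner_eq hG ht x y).2]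

theorem IsRes.norm_sq (hG : SymRel G) (ht : 0 < t) (h : IsRes G t R B) (x : H) :
    ‖R x‖ ^ 2 + ‖B x‖ ^ 2 ≤ ‖R x‖ * ‖x‖ := by
  have h1 := (h.inner_eq hG ht x x).1
  have h2 := congrArg RCLike.re h1
  rw [map_add, inner_self_eq_norm_sq, inner_self_eq_norm_sq] at h2
  rw [← h2]
  exact (RCLike.re_le_norm _).trans (norm_inner_le_norm _ _)

theorem IsRes.norm_R_le (hG : SymRel G) (ht : 0 < t) (h : IsRes G t R B) (x : H) :
    ‖R x‖ ≤ ‖x‖ := by
  have h1 := h.norm_sq hG ht x
  have h2 : 0 ≤ ‖B x‖ ^ 2 := by positivity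
  by_contra h3
  rw [not_le] at h3
  have h4 : 0 ≤ ‖x‖ := norm_nonneg _
  nlinarith

theorem IsRes.norm_B_le (hG : SymRel G) (ht : 0 < t) (h : IsRes G t R B) (x : H) :
    ‖B x‖ ≤ ‖x‖ := by
  have h1 := h.norm_sq hG ht x
  have h3 := h.norm_R_le hG ht x
  have h4 : 0 ≤ ‖R x‖ := norm_nonneg _
  have h5 : 0 ≤ ‖x‖ := norm_nonneg _
  refine abs_le_of_sq_le_sq' ?_ h5 |>.2
  nlinarith

theorem IsRes.opNorm_R (hG : SymRel G) (ht : 0 < t) (h : IsRes G t R B) : ‖R‖ ≤ 1 :=
  R.opNorm_le_bound zero_le_one fun x => by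
    rw [one_mul]
    exact h.norm_R_le hG ht x

theorem IsRes.opNorm_B (hG : SymRel G) (ht : 0 < t) (h : IsRes G t R B) : ‖B‖ ≤ 1 :=
  B.opNorm_le_bound zero_le_one fun x => by
    rw [one_mul]
    exact h.norm_B_le hG ht x

variable [CompleteSpace H]

/-- The resolvents at a larger time as series of powers of the resolvent at a smaller time. -/
theorem IsRes.series (hG : SymRel G) {t₀ : ℝ} {R₀ B₀ : H →L[ℂ] H} (ht₀ : 0 < t₀)
    (h₀ : IsRes G t₀ R₀ B₀) (htt : t₀ ≤ t) (h : IsRes G t R B) :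
    HasSum (fun j : ℕ => (((t₀ / t) ^ 2 * (1 - (t₀ / t) ^ 2) ^ j : ℝ) : ℂ) • R₀ ^ (j + 1)) R ∧
    HasSum (fun j : ℕ => (((t₀ / t) * (1 - (t₀ / t) ^ 2) ^ j : ℝ) : ℂ) • (B₀ * R₀ ^ j)) B := by
  have ht : 0 < t := ht₀.trans_le htt
  set s : ℝ := t₀ / t with hs
  have hs0 : 0 < s := div_pos ht₀ ht
  have hs1 : s ≤ 1 := (div_le_one ht).2 htt
  have hθ0 : 0 ≤ 1 - s ^ 2 := by nlinarith
  have hθ1 : 1 - s ^ 2 < 1 := by nlinarith
  set θ : ℝ := 1 - s ^ 2 with hθ
  have hn : ‖((θ : ℝ) : ℂ) • R₀‖ < 1 := by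
    rw [norm_smul, Complex.norm_real, Real.norm_eq_abs, abs_of_nonneg hθ0]
    exact lt_of_le_of_lt (mul_le_of_le_one_right hθ0 (h₀.opNorm_R hG ht₀)) hθ1
  set Y : H →L[ℂ] H := ∑' j : ℕ, (((θ : ℝ) : ℂ) • R₀) ^ j with hY
  have hsum : HasSum (fun j : ℕ => (((θ : ℝ) : ℂ) • R₀) ^ j) Y :=
    (summable_geometric_of_norm_lt_one hn).hasSum
  have hYx : ∀ x, Y x - ((θ : ℝ) : ℂ) • R₀ (Y x) = x := by
    intro x
    have h1 : (1 - ((θ : ℝ) : ℂ) • R₀) * Y = 1 := mul_neg_geom_series _ hn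
    have h2 := congrArg (fun A : H →L[ℂ] H => A x) h1
    simpa using h2
  have hR : R = ((s ^ 2 : ℝ) : ℂ) • (R₀ * Y) ∧ B = ((s : ℝ) : ℂ) • (B₀ * Y) := by
    have key : ∀ x, ((s ^ 2 : ℝ) : ℂ) • (R₀ (Y x)) = R x ∧ ((s : ℝ) : ℂ) • (B₀ (Y x)) = B x := by
      intro x
      obtain ⟨h1, h2⟩ := h₀ (((s ^ 2 : ℝ) : ℂ) • Y x)
      refine h.uniq hG ht ?_ ?_
      · have e1 : (((s ^ 2 : ℝ) : ℂ) • R₀ (Y x), ((t⁻¹ : ℝ) : ℂ) • ((s : ℝ) : ℂ) • B₀ (Y x))
            = (R₀ (((s ^ 2 : ℝ) : ℂ) • Y x), ((t₀⁻¹ : ℝ) : ℂ) • B₀ (((s ^ 2 : ℝ) : ℂ) • Y x)) := by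
          rw [map_smul, map_smul, smul_smul, smul_smul]
          congr 2
          rw [← Complex.ofReal_mul, ← Complex.ofReal_mul]
          congr 1
          rw [hs]
          field_simp
        rw [e1]
        exact h1
      · have h3 := G.smul_mem ((s⁻¹ : ℝ) : ℂ) h2
        have e1 : ((s⁻¹ : ℝ) : ℂ) • (B₀ (((s ^ 2 : ℝ) : ℂ) • Y x), ((t₀⁻¹ : ℝ) : ℂ) •
              (((s ^ 2 : ℝ) : ℂ) • Y x - R₀ (((s ^ 2 : ℝ) : ℂ) • Y x)))
            = (((s : ℝ) : ℂ) • B₀ (Y x), ((t⁻¹ : ℝ) : ℂ) • (x - ((s ^ 2 : ℝ) : ℂ) • R₀ (Y x))) := by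
          rw [Prod.smul_mk, map_smul, map_smul, smul_smul, ← smul_sub, smul_smul, smul_smul,
            ← Complex.ofReal_mul, ← Complex.ofReal_mul, ← Complex.ofReal_mul]
          congr 1
          · congr 2
            field_simp
          · have e2 : s⁻¹ * (t₀⁻¹ * s ^ 2) = t⁻¹ := by
              rw [hs]
              field_simp
            rw [← mul_assoc] at e2
            rw [show s⁻¹ * t₀⁻¹ * s ^ 2 = t⁻¹ from e2]
            congr 1
            have e3 := hYx x
            have e4 : ((θ : ℝ) : ℂ) = 1 - ((s ^ 2 : ℝ) : ℂ) := by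
              rw [hθ]
              push_cast
              ring
            rw [e4, sub_smul, one_smul] at e3
            have e5 : x - ((s ^ 2 : ℝ) : ℂ) • R₀ (Y x)
                = Y x - (R₀ (Y x) - ((s ^ 2 : ℝ) : ℂ) • R₀ (Y x)) - ((s ^ 2 : ℝ) : ℂ) • R₀ (Y x) := by
              rw [e3]
            rw [e5]
            abel
        rw [e1] at h3
        exact h3
    constructor
    · ext x
      exact (key x).1.symm
    · ext x
      exact (key x).2.symm
  constructor
  · have h1 := (hsum.mul_left R₀).const_smul ((s ^ 2 : ℝ) : ℂ)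
    rw [← hR.1] at h1
    have e1 : (fun j : ℕ => ((s ^ 2 * θ ^ j : ℝ) : ℂ) • R₀ ^ (j + 1))
        = fun j : ℕ => ((s ^ 2 : ℝ) : ℂ) • (R₀ * (((θ : ℝ) : ℂ) • R₀) ^ j) := by
      funext j
      rw [smul_pow, mul_smul_comm, smul_smul, pow_succ' R₀]
      push_cast
      rfl
    rw [e1]
    exact h1
  · have h1 := (hsum.mul_left B₀).const_smul ((s : ℝ) : ℂ)
    rw [← hR.2] at h1
    have e1 : (fun j : ℕ => ((s * θ ^ j : ℝ) : ℂ) • (B₀ * R₀ ^ j))
        = fun j : ℕ => ((s : ℝ) : ℂ) • (B₀ * (((θ : ℝ) : ℂ) • R₀) ^ j) := by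
      funext j
      rw [smul_pow, mul_smul_comm, smul_smul]
      push_cast
      rfl
    rw [e1]
    exact h1

end Pool.Agent.Lib.MP_df705a_gt.SV
end
end

section

/-!
# SV, Q7: algebraic identities for `r = (ε + t D)⁻¹` (abstract)
-/

open scoped InnerProductSpace Topology
open Filter

set_option autoImplicit false

noncomputable section

namespace Pool.Agent.Lib.MP_df705a_gt.SV

variable {H : Type*} [NormedAddCommGroup H] [InnerProductSpace ℂ H]
variable {G : Submodule ℂ (H × H)} {t t' : ℝ} {R B R' B' e : H →L[ℂ] H}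

theorem IsRes.symmB (hG : SymRel G) (ht : 0 < t) (h : IsRes G t R B) (x y : H) :
    ⟪B x, y⟫_ℂ = ⟪x, B y⟫_ℂ := by
  have ht' : ((t⁻¹ : ℝ) : ℂ) ≠ 0 := by
    exact_mod_cast (inv_pos.2 ht).ne'
  have h1 := hG _ (h x).1 _ (h y).1
  have h2 := hG _ (h x).2 _ (h y).2
  simp only at h1 h2
  rw [inner_smul_right, inner_smul_left, Complex.conj_ofReal] at h1 h2
  have h3 := mul_left_cancel₀ ht' h1
  have h4 := mul_left_cancel₀ ht' h2
  rw [inner_sub_right, inner_sub_left] at h4
  linear_combination h4 - h3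

/-- The resolvents on the graph. -/
theorem IsRes.graph (hG : SymRel G) (ht : 0 < t) (h : IsRes G t R B) {u v : H}
    (huv : (u, v) ∈ G) : B u = (t : ℂ) • R v ∧ R u + (t : ℂ) • B v = u := by
  have ht' : ((t⁻¹ : ℝ) : ℂ) ≠ 0 := by
    exact_mod_cast (inv_pos.2 ht).ne'
  have htt : (t : ℂ) * ((t⁻¹ : ℝ) : ℂ) = 1 := by
    rw [← Complex.ofReal_mul, mul_inv_cancel₀ ht.ne', Complex.ofReal_one]
  constructor
  · refine ext_inner_right ℂ fun y => ?_
    have h1 := hG _ huv _ (h y).1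
    simp only at h1
    rw [inner_smul_right] at h1
    rw [inner_smul_left, Complex.conj_ofReal, h.symmB hG ht, h.symm hG ht, ← h1, ← mul_assoc, htt,
      one_mul]
  · refine ext_inner_right ℂ fun y => ?_
    have h1 := hG _ huv _ (h y).2
    simp only at h1
    rw [inner_smul_right, inner_sub_right] at h1
    rw [inner_add_left, inner_smul_left, Complex.conj_ofReal, h.symmB hG ht, h.symm hG ht, ← h1,
      ← mul_assoc, htt, one_mul]
    ring

theorem IsRes.comm_RB (hG : SymRel G) (ht : 0 < t) (h : IsRes G t R B) (x : H) :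
    R (B x) = B (R x) ∧ B (B x) = R x - R (R x) := by
  obtain ⟨h1, h2⟩ := h.graph hG ht (h x).1
  have htt : (t : ℂ) * ((t⁻¹ : ℝ) : ℂ) = 1 := by
    rw [← Complex.ofReal_mul, mul_inv_cancel₀ ht.ne', Complex.ofReal_one]
  rw [map_smul, smul_smul, htt, one_smul] at h1 h2
  exact ⟨h1.symm, eq_sub_of_add_eq' h2⟩

/-- An odd grading. -/
structure OddG (G : Submodule ℂ (H × H)) (e : H →L[ℂ] H) : Prop where
  sq : ∀ x, e (e x) = x
  odd : ∀ p ∈ G, (e p.1, -(e p.2)) ∈ G

theorem IsRes.comm_e (hG : SymRel G) (ht : 0 < t) (h : IsRes G t R B) (he : OddG G e) (x : H) :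
    R (e x) = e (R x) ∧ B (e x) = -(e (B x)) := by
  have h1 := he.odd _ (h x).1
  have h2 := G.neg_mem (he.odd _ (h x).2)
  simp only [Prod.neg_mk, neg_neg] at h1 h2
  have h3 : (e (R x), ((t⁻¹ : ℝ) : ℂ) • (-(e (B x)))) ∈ G := by
    rw [smul_neg, ← map_smul]
    exact h1
  have h4 : (-(e (B x)), ((t⁻¹ : ℝ) : ℂ) • (e x - e (R x))) ∈ G := by
    rw [← map_sub, ← map_smul]
    exact h2
  obtain ⟨h5, h6⟩ := h.uniq hG ht h3 h4
  exact ⟨h5.symm, h6.symm⟩

/-- The operator `r = (ε + t D)⁻¹ = ε R + B`. -/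
def rr (e R B : H →L[ℂ] H) : H →L[ℂ] H := e * R + B

theorem rr_apply (x : H) : rr e R B x = e (R x) + B x := rfl

/-- `r² = R`. -/
theorem IsRes.rr_sq (hG : SymRel G) (ht : 0 < t) (h : IsRes G t R B) (he : OddG G e) :
    rr e R B * rr e R B = R := by
  ext x
  show rr e R B (rr e R B x) = R x
  rw [rr_apply, rr_apply, map_add, map_add, map_add]
  rw [(h.comm_e hG ht he (R x)).1, he.sq, (h.comm_e hG ht he (R x)).2, (h.comm_RB hG ht x).1,
    (h.comm_RB hG ht x).2]
  abel

/-- `ε r + r ε = 2 R`. -/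
theorem IsRes.rr_half (hG : SymRel G) (ht : 0 < t) (h : IsRes G t R B) (he : OddG G e) :
    R = (2⁻¹ : ℂ) • (e * rr e R B + rr e R B * e) := by
  ext x
  show R x = (2⁻¹ : ℂ) • (e (rr e R B x) + rr e R B (e x))
  rw [rr_apply, rr_apply, map_add, he.sq, (h.comm_e hG ht he x).1, he.sq,
    (h.comm_e hG ht he x).2]
  have e1 : R x + e (B x) + (R x + -(e (B x))) = (2 : ℂ) • R x := by
    rw [two_smul]
    abel
  rw [e1, smul_smul]
  norm_num

/-- `D r x = t⁻¹ (x - ε r x)`. -/
theorem IsRes.rr_mem (h : IsRes G t R B) (he : OddG G e) (x : H) :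
    (rr e R B x, ((t⁻¹ : ℝ) : ℂ) • (x - e (rr e R B x))) ∈ G := by
  have h1 := G.add_mem (he.odd _ (h x).1) (h x).2
  simp only [Prod.mk_add_mk] at h1
  rw [rr_apply, map_add, he.sq]
  have e1 : ((t⁻¹ : ℝ) : ℂ) • (x - (R x + e (B x)))
      = -(e (((t⁻¹ : ℝ) : ℂ) • B x)) + ((t⁻¹ : ℝ) : ℂ) • (x - R x) := by
    rw [map_smul, ← smul_neg, ← smul_add]
    congr 1
    abel
  rw [e1]
  exact h1

/-- `r (ε u + t D u) = u`. -/
theorem IsRes.rr_graph (hG : SymRel G) (ht : 0 < t) (h : IsRes G t R B) (he : OddG G e) {u v : H}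
    (huv : (u, v) ∈ G) : rr e R B (e u + (t : ℂ) • v) = u := by
  obtain ⟨h1, h2⟩ := h.graph hG ht huv
  obtain ⟨h3, h4⟩ := h.comm_e hG ht he u
  have e1 : R (e u + (t : ℂ) • v) = e (R u) + B u := by
    rw [map_add, map_smul, h3, h1]
  have e2 : B (e u + (t : ℂ) • v) = -(e (B u)) + (t : ℂ) • B v := by
    rw [map_add, map_smul, h4]
  rw [rr_apply, e1, e2, map_add, he.sq]
  have e3 : R u + e (B u) + (-(e (B u)) + (t : ℂ) • B v) = R u + (t : ℂ) • B v := by abel
  rw [e3, h2]

/-- The resolvent identity. -/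
theorem IsRes.rr_res (hG : SymRel G) (ht : 0 < t) (ht' : 0 < t') (h : IsRes G t R B)
    (h' : IsRes G t' R' B') (he : OddG G e) :
    (t' : ℂ) • (rr e R B - rr e R' B')
      = (t' - t : ℂ) • (rr e R B - rr e R B * (e * rr e R' B')) := by
  ext x
  show (t' : ℂ) • (rr e R B x - rr e R' B' x)
      = (t' - t : ℂ) • (rr e R B x - rr e R B (e (rr e R' B' x)))
  have h1 := h.rr_graph hG ht he (h'.rr_mem he x)
  set u := rr e R' B' x with hu
  have htt : (t' : ℂ) * ((t'⁻¹ : ℝ) : ℂ) = 1 := by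
    rw [← Complex.ofReal_mul, mul_inv_cancel₀ ht'.ne', Complex.ofReal_one]
  have h2 : (t' : ℂ) • (e u + (t : ℂ) • ((t'⁻¹ : ℝ) : ℂ) • (x - e u))
      = (t' - t : ℂ) • e u + (t : ℂ) • x := by
    rw [smul_add, smul_comm (t : ℂ) ((t'⁻¹ : ℝ) : ℂ), smul_smul (t' : ℂ) ((t'⁻¹ : ℝ) : ℂ), htt,
      one_smul, smul_sub, sub_smul]
    abel
  have h3 := congrArg (fun z => (t' : ℂ) • z) h1
  rw [← map_smul, h2, map_add, map_smul, map_smul] at h3
  rw [smul_sub, ← h3, smul_sub, sub_smul, sub_smul]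
  abel

/-- Operators which preserve the graph commute with the resolvents. -/
theorem IsRes.comm_W (hG : SymRel G) (ht : 0 < t) (h : IsRes G t R B) {W : H →L[ℂ] H}
    (hW : ∀ p ∈ G, (W p.1, W p.2) ∈ G) (x : H) : R (W x) = W (R x) ∧ B (W x) = W (B x) := by
  have h1 := hW _ (h x).1
  have h2 := hW _ (h x).2
  simp only [map_smul, map_sub] at h1 h2
  obtain ⟨h3, h4⟩ := h.uniq hG ht h1 h2
  exact ⟨h3.symm, h4.symm⟩

theorem IsRes.rr_comm_W (hG : SymRel G) (ht : 0 < t) (h : IsRes G t R B) {W : H →L[ℂ] H}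
    (hW : ∀ p ∈ G, (W p.1, W p.2) ∈ G) (hWe : ∀ x, W (e x) = e (W x)) :
    W * rr e R B = rr e R B * W := by
  ext x
  show W (rr e R B x) = rr e R B (W x)
  rw [rr_apply, rr_apply, map_add, hWe, (h.comm_W hG ht hW x).1, (h.comm_W hG ht hW x).2]

/-- The commutator formula. -/
theorem IsRes.rr_comm (hG : SymRel G) (ht : 0 < t) (h : IsRes G t R B) (he : OddG G e)
    {M c : H →L[ℂ] H} (hM : ∀ p ∈ G, (M p.1, M p.2 + c p.1) ∈ G) (hMe : ∀ x, M (e x) = e (M x)) :
    M * rr e R B - rr e R B * M = (t : ℂ) • (rr e R B * (c * rr e R B)) := by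
  ext x
  show M (rr e R B x) - rr e R B (M x) = (t : ℂ) • rr e R B (c (rr e R B x))
  have h0 := h.rr_mem he x
  set u := rr e R B x with hu
  have h1 := h.rr_graph hG ht he (hM _ h0)
  have htt : (t : ℂ) * ((t⁻¹ : ℝ) : ℂ) = 1 := by
    rw [← Complex.ofReal_mul, mul_inv_cancel₀ ht.ne', Complex.ofReal_one]
  have h2 : e (M u) + (t : ℂ) • (M (((t⁻¹ : ℝ) : ℂ) • (x - e u)) + c u)
      = M x + (t : ℂ) • c u := by
    rw [smul_add, map_smul, smul_smul, htt, one_smul, map_sub, hMe]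
    abel
  simp only at h1
  rw [h2, map_add, map_smul] at h1
  rw [← h1]
  abel

end Pool.Agent.Lib.MP_df705a_gt.SV
end
end
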