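import Pool.Agent.Lib.MP_df705a_gt.Mg.G073
import Pool.Agent.Lib.MP_df705a_gt.Mg.G075
import Pool.Agent.Lib.MP_df705a_gt.Mg.G072
import Pool.Agent.Lib.MP_df705a_gt.Mg.G030
import Pool.Agent.Lib.MP_df705a_gt.Mg.G032

section

/-!
# SV, block C: the commutator formula (final statements)

`I` is the countable index set of the expansion of `φ`:
`φ(x) = ∑_α ψ₀ α (x_0) ∏_{j < n} (ψ α j (x_{j+1}) - ψ α j (x_j))` for `x_0 ∈ F`; `M α j : X → A` are the differentials: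
`(ψ α j (x) - ψ α j (y)) r(x, y) = t (r (M r))(x, y)`.
-/

open scoped ENNReal NNReal Topology
open MeasureTheory Filter Set

set_option linter.unusedSectionVars false

noncomputable section

namespace Pool.Agent.Lib.MP_df705a_gt.SV

variable {X A I : Type*} [MeasurableSpace X] [NormedRing A] [NormedAlgebra ℂ A] [CompleteSpace A]
  [Countable I] {μ : Measure X} [SigmaFinite μ] {F : Set X} {ε : A} {n : ℕ} {w : X → X → ℝ}
  {τ : A →L[ℂ] ℂ}

/-- The functional of the loop `ε ρ, M_1 ρ, …, M_n ρ` with the weight `ψ₀(x_0)`. -/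
def LG (μ : Measure X) (τ : A →L[ℂ] ℂ) (F : Set X) (ε : A) {n : ℕ} (ψ₀ : X → ℝ)
    (M : Fin n → X → A) (ρ : X → X → A) : ℂ :=
  TT μ τ F (fun x : Fin (n + 1) → X => ψ₀ (x 0))
    (Fin.cons (fun x y => ε * ρ x y) fun j x y => M j x * ρ x y)

/-- The sum over `α`. -/
def PL (μ : Measure X) (τ : A →L[ℂ] ℂ) (F : Set X) (ε : A) {n : ℕ} (ψ₀ : I → X → ℝ)
    (M : I → Fin n → X → A) (ρ : X → X → A) : ℂ :=
  ∑' α, LG μ τ F ε (ψ₀ α) (M α) ρ

/-- The expansion of `φ`. -/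
structure IsExp (F : Set X) (ε : A) (w : X → X → ℝ) {n : ℕ} (φ : (Fin (n + 1) → X) → ℝ)
    (ψ₀ : I → X → ℝ) (ψ : I → Fin n → X → ℝ) (M : I → Fin n → X → A) : Prop where
  meas₀ : ∀ α, Measurable (ψ₀ α)
  meas : ∀ α j, Measurable (ψ α j)
  measM : ∀ α j, StronglyMeasurable (M α j)
  sum : ∀ x : Fin (n + 1) → X, x 0 ∈ F →
    HasSum (fun α => ψ₀ α (x 0) * ∏ j : Fin n, (ψ α j (x j.succ) - ψ α j (x j.castSucc))) (φ x)
  bdd : ∃ C : ℝ≥0, ∀ x : Fin (n + 1) → X, x 0 ∈ F →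
    ∑' α, ‖ψ₀ α (x 0)‖ₑ * ∏ j : Fin n, ‖ψ α j (x j.succ) - ψ α j (x j.castSucc)‖ₑ ≤
      C * ∏ i, ENNReal.ofReal (w (x i) (x (i + 1)))
  bddM : ∃ C : ℝ≥0, ∀ x : Fin (n + 1) → X, x 0 ∈ F →
    ∑' α, ‖ψ₀ α (x 0)‖ₑ * ∏ j : Fin n, ‖M α j (x j.succ)‖ₑ ≤
      C * ∏ i, ENNReal.ofReal (w (x i) (x (i + 1)))
  odd : ∀ α j x, M α j x * ε = -(ε * M α j x)
  bd : ∀ α, ∃ C : ℝ, (∀ x ∈ F, |ψ₀ α x| ≤ C) ∧ ∀ j x, ‖M α j x‖ ≤ C

/-! ## Bounds -/

/-- The multipliers of the loop: `ε, M_0(x_1), …, M_{n-1}(x_n)`. -/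
def C_mul (ε : A) (M : Fin n → X → A) (x : Fin (n + 1) → X) : Fin (n + 1) → A :=
  Fin.cons (α := fun _ => A) ε fun j => M j (x j.succ)

theorem C_loop_eq (M : Fin n → X → A) (ρ : X → X → A) (x : Fin (n + 1) → X) :
    loop (Fin.cons (α := fun _ => X → X → A) (fun x y => ε * ρ x y) fun j x y => M j x * ρ x y) x =
      (List.ofFn fun i => C_mul ε M x i * ρ (x i) (x (i + 1))).prod := by
  unfold loop
  congr 2
  funext i
  refine Fin.cases ?_ (fun j => ?_) i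
  · rfl
  · rfl

theorem C_prod_mul (M : Fin n → X → A) (x : Fin (n + 1) → X) :
    ∏ i, ‖C_mul ε M x i‖ₑ = ‖ε‖ₑ * ∏ j : Fin n, ‖M j (x j.succ)‖ₑ := by
  rw [Fin.prod_univ_succ]
  rfl

theorem C_meas {ψ₀ : X → ℝ} (hE0 : Measurable ψ₀) {M : Fin n → X → A}
    (hM : ∀ j, StronglyMeasurable (M j)) {ρ : X → X → A}
    (hρ : StronglyMeasurable (Function.uncurry ρ)) :
    StronglyMeasurable fun x : Fin (n + 1) → X => (ψ₀ (x 0) : ℂ) * τ (loop (Fin.cons
      (α := fun _ => X → X → A) (fun x y => ε * ρ x y) fun j x y => M j x * ρ x y) x) := by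
  refine C1_meas τ hE0 fun i => ?_
  refine Fin.cases ?_ (fun j => ?_) i
  · exact stronglyMeasurable_const.mul hρ
  · exact ((hM j).comp_measurable measurable_fst).mul hρ

/-- the basic bound -/
theorem C_sum_le (hw : Wt w) (hn : 1 ≤ n) (hF : MeasurableSet F)
    {φ : (Fin (n + 1) → X) → ℝ} {ψ₀ : I → X → ℝ}
    {ψ : I → Fin n → X → ℝ} {M : I → Fin n → X → A} (hE : IsExp F ε w φ ψ₀ ψ M) :
    ∃ C : ℝ≥0, ∀ (k : Fin (n + 1) → X → X → A) (c₁ c : Fin (n + 1) → ℝ≥0),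
      (∀ i, KB μ w (((n : ℝ) + 1) / n) (k i) (c₁ i) (c i)) →
      ∫⁻ x in {x : Fin (n + 1) → X | x 0 ∈ F}, (∑' α, ‖ψ₀ α (x 0)‖ₑ * ∏ j : Fin n, ‖M α j (x j.succ)‖ₑ) *
        ∏ i, ‖k i (x i) (x (i + 1))‖ₑ ∂(Measure.pi fun _ => μ) ≤
        (C : ℝ≥0∞) * (μ F * ∏ i, (c i : ℝ≥0∞)) := by
  obtain ⟨C, hC⟩ := hE.bddM
  refine ⟨C, fun k c₁ c hk => ?_⟩
  have hS : MeasurableSet {x : Fin (n + 1) → X | x 0 ∈ F} := (measurable_pi_apply 0) hF
  have h1 : ∫⁻ x in {x : Fin (n + 1) → X | x 0 ∈ F}, (∑' α, ‖ψ₀ α (x 0)‖ₑ *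
        ∏ j : Fin n, ‖M α j (x j.succ)‖ₑ) * ∏ i, ‖k i (x i) (x (i + 1))‖ₑ ∂(Measure.pi fun _ => μ) ≤
      ∫⁻ x in {x : Fin (n + 1) → X | x 0 ∈ F}, (C : ℝ≥0∞) *
        ∏ i, nk w (k i) (x i) (x (i + 1)) ∂(Measure.pi fun _ => μ) := by
    refine setLIntegral_mono' hS fun x hx => ?_
    calc (∑' α, ‖ψ₀ α (x 0)‖ₑ * ∏ j : Fin n, ‖M α j (x j.succ)‖ₑ) * ∏ i, ‖k i (x i) (x (i + 1))‖ₑ
        ≤ (C * ∏ i, ENNReal.ofReal (w (x i) (x (i + 1)))) * ∏ i, ‖k i (x i) (x (i + 1))‖ₑ := by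
          gcongr
          exact hC x hx
      _ = _ := by
          unfold nk
          rw [Finset.prod_mul_distrib, mul_assoc]
  refine h1.trans ?_
  rw [lintegral_const_mul' _ _ ENNReal.coe_ne_top]
  exact mul_le_mul' le_rfl (KB.loop hn hw.meas hk hF 0)

/-- the sum of the integrals of the norms -/
theorem C_sum_LG (hF : MeasurableSet F) {ψ₀ : I → X → ℝ} {M : I → Fin n → X → A}
    (h0 : ∀ α, Measurable (ψ₀ α)) (hM : ∀ α j, StronglyMeasurable (M α j))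
    {ρ : X → X → A} (hρ : StronglyMeasurable (Function.uncurry ρ)) :
    ∑' α, ∫⁻ x in {x : Fin (n + 1) → X | x 0 ∈ F}, ‖(ψ₀ α (x 0) : ℂ) * τ (loop (Fin.cons
      (α := fun _ => X → X → A) (fun x y => ε * ρ x y) fun j x y => M α j x * ρ x y) x)‖ₑ
        ∂(Measure.pi fun _ => μ) ≤ ‖τ‖ₑ * ‖ε‖ₑ *
      ∫⁻ x in {x : Fin (n + 1) → X | x 0 ∈ F}, (∑' α, ‖ψ₀ α (x 0)‖ₑ * ∏ j : Fin n, ‖M α j (x j.succ)‖ₑ) *
        ∏ i, ‖ρ (x i) (x (i + 1))‖ₑ ∂(Measure.pi fun _ => μ) := by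
  have hS : MeasurableSet {x : Fin (n + 1) → X | x 0 ∈ F} := (measurable_pi_apply 0) hF
  rw [← lintegral_tsum fun α => (C_meas (h0 α) (hM α) hρ).enorm.aemeasurable,
    ← lintegral_const_mul' _ _ (ENNReal.mul_ne_top enorm_ne_top enorm_ne_top)]
  refine lintegral_mono fun x => ?_
  show ∑' α, ‖(ψ₀ α (x 0) : ℂ) * τ (loop (Fin.cons (α := fun _ => X → X → A)
    (fun x y => ε * ρ x y) fun j x y => M α j x * ρ x y) x)‖ₑ ≤ ‖τ‖ₑ * ‖ε‖ₑ *
      ((∑' α, ‖ψ₀ α (x 0)‖ₑ * ∏ j : Fin n, ‖M α j (x j.succ)‖ₑ) * ∏ i, ‖ρ (x i) (x (i + 1))‖ₑ)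
  rw [← ENNReal.tsum_mul_right, ← ENNReal.tsum_mul_left]
  refine ENNReal.tsum_le_tsum fun α => ?_
  refine (C1_bound τ (ψ₀ α) (K := Fin.cons (α := fun _ => X → X → ℝ≥0∞)
    (fun x y => ‖ε‖ₑ * ‖ρ x y‖ₑ) fun j x y => ‖M α j x‖ₑ * ‖ρ x y‖ₑ) ?_ x).trans ?_
  · intro i
    refine Fin.cases ?_ (fun j => ?_) i
    · intro x y
      exact C4_mul_le _ _
    · intro x y
      exact C4_mul_le _ _
  · rw [Fin.prod_univ_succ, Fin.prod_univ_succ (fun i => ‖ρ (x i) (x (i + 1))‖ₑ)]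
    simp only [Fin.cons_zero, Fin.cons_succ]
    rw [Finset.prod_mul_distrib]
    refine le_of_eq ?_
    ring

/-- `PL` is bounded by the `(n+1)`-st power of the bound of `ρ`. -/
theorem PL_le (hw : Wt w) (hn : 1 ≤ n) (hF : MeasurableSet F) (hF' : μ F < ∞)
    {φ : (Fin (n + 1) → X) → ℝ} {ψ₀ : I → X → ℝ}
    {ψ : I → Fin n → X → ℝ} {M : I → Fin n → X → A} (hE : IsExp F ε w φ ψ₀ ψ M) :
    ∃ C : ℝ≥0, ∀ (ρ : X → X → A) (c₁ c : ℝ≥0), KB μ w (((n : ℝ) + 1) / n) ρ c₁ c →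
      (Summable fun α => ‖LG μ τ F ε (ψ₀ α) (M α) ρ‖) ∧
        ‖PL μ τ F ε ψ₀ M ρ‖ ≤ C * c ^ (n + 1) := by
  obtain ⟨C, hC⟩ := C_sum_le (μ := μ) hw hn hF hE
  refine ⟨‖τ‖₊ * ‖ε‖₊ * (C * (μ F).toNNReal), fun ρ c₁ c hρ => ?_⟩
  have h1 : ∑' α, ‖LG μ τ F ε (ψ₀ α) (M α) ρ‖ₑ ≤
      ((‖τ‖₊ * ‖ε‖₊ * (C * (μ F).toNNReal) * c ^ (n + 1) : ℝ≥0) : ℝ≥0∞) := by
    refine (ENNReal.tsum_le_tsum fun α => enorm_integral_le_lintegral_enorm _).trans ?_
    refine (C_sum_LG hF hE.meas₀ hE.measM hρ.meas).trans ?_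
    refine (mul_le_mul' le_rfl (hC (fun _ => ρ) (fun _ => c₁) (fun _ => c) fun _ => hρ)).trans ?_
    rw [Finset.prod_const, Finset.card_univ, Fintype.card_fin]
    push_cast
    rw [ENNReal.coe_toNNReal hF'.ne]
    refine le_of_eq ?_
    simp only [enorm_eq_nnnorm]
    ring
  have h2 := C4_tsum h1
  refine ⟨h2.1, ?_⟩
  have h3 := h2.2
  push_cast at h3 ⊢
  exact h3

/-- `PL` is Lipschitz. -/
theorem PL_sub_le (hw : Wt w) (hn : 1 ≤ n) (hF : MeasurableSet F) (hF' : μ F < ∞)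
    {φ : (Fin (n + 1) → X) → ℝ} {ψ₀ : I → X → ℝ}
    {ψ : I → Fin n → X → ℝ} {M : I → Fin n → X → A} (hE : IsExp F ε w φ ψ₀ ψ M) :
    ∃ C : ℝ≥0, ∀ (ρ ρ' : X → X → A) (c₁ c d₁ d : ℝ≥0),
      KB μ w (((n : ℝ) + 1) / n) ρ c₁ c → KB μ w (((n : ℝ) + 1) / n) ρ' c₁ c →
      KB μ w (((n : ℝ) + 1) / n) (fun x y => ρ x y - ρ' x y) d₁ d →
        ‖PL μ τ F ε ψ₀ M ρ - PL μ τ F ε ψ₀ M ρ'‖ ≤ C * d * c ^ n := by
  obtain ⟨C, hC⟩ := C_sum_le (μ := μ) hw hn hF hE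
  obtain ⟨C', hC'⟩ := PL_le (μ := μ) (τ := τ) hw hn hF hF' hE
  refine ⟨‖τ‖₊ * ‖ε‖₊ * (C * (μ F).toNNReal) * (n + 1), fun ρ ρ' c₁ c d₁ d hρ hρ' hd => ?_⟩
  have hS : MeasurableSet {x : Fin (n + 1) → X | x 0 ∈ F} := (measurable_pi_apply 0) hF
  -- the kernels of the telescoping sum
  set k : Fin (n + 1) → Fin (n + 1) → X → X → A := fun s i => if i < s then ρ' else
    if i = s then (fun x y => ρ x y - ρ' x y) else ρ with hk
  have hkB : ∀ s i, KB μ w (((n : ℝ) + 1) / n) (k s i) (if i < s then c₁ else if i = s then d₁ else c₁)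
      (if i < s then c else if i = s then d else c) := by
    intro s i
    rw [hk]
    dsimp only
    split_ifs
    · exact hρ'
    · exact hd
    · exact hρ
  have hcs : ∀ s : Fin (n + 1), ∏ i : Fin (n + 1), (if i < s then c else if i = s then d else c) =
      d * c ^ n := by
    intro s
    have e1 : ∀ i : Fin (n + 1), (if i < s then c else if i = s then d else c) =
        if i = s then d else c := by
      intro i
      by_cases h : i = s
      · rw [if_pos h, if_neg (by rw [h]; exact lt_irrefl _)]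
      · rw [if_neg h]
        split_ifs <;> rfl
    rw [Finset.prod_congr rfl fun i _ => e1 i, ← Finset.mul_prod_erase Finset.univ _ (Finset.mem_univ s),
      if_pos rfl, Finset.prod_congr rfl fun i hi => if_neg (Finset.ne_of_mem_erase hi),
      Finset.prod_const, Finset.card_erase_of_mem (Finset.mem_univ s), Finset.card_univ,
      Fintype.card_fin, Nat.add_sub_cancel]
  have s1 := (hC' ρ c₁ c hρ).1
  have s2 := (hC' ρ' c₁ c hρ').1
  have int1 : ∀ (α : I) (κ : X → X → A), KB μ w (((n : ℝ) + 1) / n) κ c₁ c →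
      IntegrableOn (fun x : Fin (n + 1) → X => (ψ₀ α (x 0) : ℂ) * τ (loop (Fin.cons
        (α := fun _ => X → X → A) (fun x y => ε * κ x y) fun j x y => M α j x * κ x y) x))
        {x | x 0 ∈ F} (Measure.pi fun _ => μ) := by
    intro α κ hκ
    refine ⟨(C_meas (hE.meas₀ α) (hE.measM α) hκ.meas).aestronglyMeasurable, ?_⟩
    have h1 := C_sum_LG (μ := μ) (τ := τ) (ε := ε) hF hE.meas₀ hE.measM hκ.meas
    have h2 := (ENNReal.le_tsum α).trans h1
    refine lt_of_le_of_lt h2 ?_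
    refine ENNReal.mul_lt_top (ENNReal.mul_lt_top enorm_lt_top enorm_lt_top) ?_
    refine lt_of_le_of_lt (hC (fun _ => κ) (fun _ => c₁) (fun _ => c) fun _ => hκ) ?_
    exact ENNReal.mul_lt_top ENNReal.coe_lt_top (ENNReal.mul_lt_top hF' (C3_prod_lt _))
  have h1 : ∑' α, ‖LG μ τ F ε (ψ₀ α) (M α) ρ - LG μ τ F ε (ψ₀ α) (M α) ρ'‖ₑ ≤
      ((‖τ‖₊ * ‖ε‖₊ * (C * (μ F).toNNReal) * (n + 1) * d * c ^ n : ℝ≥0) : ℝ≥0∞) := by
    have h2 : ∀ α, ‖LG μ τ F ε (ψ₀ α) (M α) ρ - LG μ τ F ε (ψ₀ α) (M α) ρ'‖ₑ ≤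
        ∫⁻ x in {x : Fin (n + 1) → X | x 0 ∈ F}, ‖τ‖ₑ * ‖ε‖ₑ * ((‖ψ₀ α (x 0)‖ₑ *
          ∏ j : Fin n, ‖M α j (x j.succ)‖ₑ) * ∑ s, ∏ i, ‖k s i (x i) (x (i + 1))‖ₑ)
          ∂(Measure.pi fun _ => μ) := by
      intro α
      unfold LG TT
      rw [← integral_sub (int1 α ρ hρ) (int1 α ρ' hρ')]
      refine (enorm_integral_le_lintegral_enorm _).trans (lintegral_mono fun x => ?_)
      show ‖(ψ₀ α (x 0) : ℂ) * τ _ - (ψ₀ α (x 0) : ℂ) * τ _‖ₑ ≤ _
      rw [← mul_sub, ← map_sub, C_loop_eq, C_loop_eq, enorm_mul]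
      have e1 : ‖((ψ₀ α (x 0) : ℝ) : ℂ)‖ₑ = ‖ψ₀ α (x 0)‖ₑ := by
        rw [← ofReal_norm, ← ofReal_norm, Complex.norm_real]
      have e2 : ∀ b : A, ‖τ b‖ₑ ≤ ‖τ‖ₑ * ‖b‖ₑ := by
        intro b
        have h3 : ‖τ b‖₊ ≤ ‖τ‖₊ * ‖b‖₊ := τ.le_opNNNorm _
        have h4 : ((‖τ b‖₊ : ℝ≥0) : ℝ≥0∞) ≤ ((‖τ‖₊ * ‖b‖₊ : ℝ≥0) : ℝ≥0∞) := by
          exact_mod_cast h3
        rw [ENNReal.coe_mul] at h4
        exact h4
      have e3 := C4_sub_succ (C_mul ε (M α) x) (fun i => ρ (x i) (x (i + 1)))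
        (fun i => ρ' (x i) (x (i + 1)))
      have e4 : ∀ s i, tele (fun i => ρ (x i) (x (i + 1))) (fun i => ρ' (x i) (x (i + 1))) s i =
          k s i (x i) (x (i + 1)) := by
        intro s i
        rw [hk]
        unfold tele
        dsimp only
        split_ifs <;> rfl
      simp only [e4] at e3
      rw [C_prod_mul] at e3
      rw [e1]
      calc _ ≤ ‖ψ₀ α (x 0)‖ₑ * (‖τ‖ₑ * (‖ε‖ₑ * (∏ j : Fin n, ‖M α j (x j.succ)‖ₑ) *
            ∑ s, ∏ i, ‖k s i (x i) (x (i + 1))‖ₑ)) :=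
            mul_le_mul' le_rfl ((e2 _).trans (mul_le_mul' le_rfl e3))
        _ = _ := by ring
    have hkm : ∀ s i, Measurable fun x : Fin (n + 1) → X => ‖k s i (x i) (x (i + 1))‖ₑ :=
      fun s i => (C1_meas_eval (hkB s i).meas i (i + 1)).enorm
    have hMm : ∀ α, Measurable fun x : Fin (n + 1) → X => ‖ψ₀ α (x 0)‖ₑ *
        ∏ j : Fin n, ‖M α j (x j.succ)‖ₑ := fun α =>
      ((hE.meas₀ α).comp (measurable_pi_apply 0)).enorm.mul
        (Finset.measurable_fun_prod _ fun j _ =>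
          ((hE.measM α j).comp_measurable (measurable_pi_apply j.succ)).enorm)
    have hsm : ∀ s, Measurable fun x : Fin (n + 1) → X => ∏ i, ‖k s i (x i) (x (i + 1))‖ₑ := fun s =>
      Finset.measurable_fun_prod _ fun i _ => hkm s i
    refine (ENNReal.tsum_le_tsum h2).trans ?_
    have hAm : ∀ α, AEMeasurable (fun x : Fin (n + 1) → X => ‖τ‖ₑ * ‖ε‖ₑ * ((‖ψ₀ α (x 0)‖ₑ *
        ∏ j : Fin n, ‖M α j (x j.succ)‖ₑ) * ∑ s, ∏ i, ‖k s i (x i) (x (i + 1))‖ₑ))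
        ((Measure.pi fun _ => μ).restrict {x : Fin (n + 1) → X | x 0 ∈ F}) := fun α =>
      (measurable_const.mul ((hMm α).mul
        (Finset.measurable_fun_sum _ fun s _ => hsm s))).aemeasurable
    rw [← lintegral_tsum hAm]
    have h3 : ∀ x : Fin (n + 1) → X, ∑' α, ‖τ‖ₑ * ‖ε‖ₑ * ((‖ψ₀ α (x 0)‖ₑ *
        ∏ j : Fin n, ‖M α j (x j.succ)‖ₑ) * ∑ s, ∏ i, ‖k s i (x i) (x (i + 1))‖ₑ) =
        ‖τ‖ₑ * ‖ε‖ₑ * ∑ s, (∑' α, ‖ψ₀ α (x 0)‖ₑ * ∏ j : Fin n, ‖M α j (x j.succ)‖ₑ) *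
          ∏ i, ‖k s i (x i) (x (i + 1))‖ₑ := by
      intro x
      rw [ENNReal.tsum_mul_left, ENNReal.tsum_mul_right, Finset.mul_sum]
    simp only [h3]
    have hTm : Measurable fun x : Fin (n + 1) → X => ∑' α, ‖ψ₀ α (x 0)‖ₑ *
        ∏ j : Fin n, ‖M α j (x j.succ)‖ₑ := Measurable.tsum hMm
    have hpm : ∀ s ∈ (Finset.univ : Finset (Fin (n + 1))), Measurable fun x : Fin (n + 1) → X =>
        (∑' α, ‖ψ₀ α (x 0)‖ₑ * ∏ j : Fin n, ‖M α j (x j.succ)‖ₑ) *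
          ∏ i, ‖k s i (x i) (x (i + 1))‖ₑ := fun s _ => hTm.mul (hsm s)
    rw [lintegral_const_mul' _ _ (ENNReal.mul_ne_top enorm_ne_top enorm_ne_top),
      lintegral_finsetSum _ hpm]
    have h4 : ∀ s ∈ (Finset.univ : Finset (Fin (n + 1))),
        ∫⁻ x in {x : Fin (n + 1) → X | x 0 ∈ F}, (∑' α, ‖ψ₀ α (x 0)‖ₑ *
          ∏ j : Fin n, ‖M α j (x j.succ)‖ₑ) * ∏ i, ‖k s i (x i) (x (i + 1))‖ₑ
          ∂(Measure.pi fun _ => μ) ≤ (C : ℝ≥0∞) * (μ F * ((d * c ^ n : ℝ≥0) : ℝ≥0∞)) := by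
      intro s _
      refine (hC (k s) _ _ (hkB s)).trans ?_
      rw [← ENNReal.ofNNReal_finsetProd, hcs s]
    refine (mul_le_mul' le_rfl (Finset.sum_le_sum h4)).trans ?_
    rw [Finset.sum_const, Finset.card_univ, Fintype.card_fin, nsmul_eq_mul]
    push_cast
    rw [ENNReal.coe_toNNReal hF'.ne]
    refine le_of_eq ?_
    simp only [enorm_eq_nnnorm]
    ring
  have h2 := C4_tsum h1
  have h3 : PL μ τ F ε ψ₀ M ρ - PL μ τ F ε ψ₀ M ρ' =
      ∑' α, (LG μ τ F ε (ψ₀ α) (M α) ρ - LG μ τ F ε (ψ₀ α) (M α) ρ') :=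
    (s1.of_norm.tsum_sub s2.of_norm).symm
  rw [h3]
  have h4 := h2.2
  push_cast at h4 ⊢
  exact h4

/-- The commutator formula.
PROOF. Fix `α`. The commutator relation for `j = 1, …, n` (sign `(-1)^n = 1`) gives the integral of
`t^n ψ₀(x_0) τ(∏_j comp r (M_j r)(x_{j-1}, x_j) · r(x_n, x_0))`. By Fubini (absolute convergence: `KB` is closed under
`comp` of the norms, cyclic Hölder) and associativity of `comp` the product of the kernels
`r ∘ (M_1 r) ∘ r ∘ (M_2 r) ∘ … ∘ (M_n r) ∘ r` around the loop is `r ∘ (M_1 ρ) ∘ … ∘ (M_n ρ)`, `ρ = r ∘ r`. Now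
`r = ε ρ + (r - ε ρ)`; `ρ` commutes with `ε`, `M` and `r - ε ρ` anticommute with `ε`, and `n + 1` is odd: the trace of
the product with `r - ε ρ` vanishes (conjugate with `ε`). Sum over `α` with `bdd`. -/
theorem TT_eq_PL (hτ : ∀ x y, τ (x * y) = τ (y * x)) (hε : ε * ε = 1) (hw : Wt w) (hn : Even n)
    (hn' : 2 ≤ n) (hF : MeasurableSet F) (hF' : μ F < ∞)
    {φ : (Fin (n + 1) → X) → ℝ} {ψ₀ : I → X → ℝ} {ψ : I → Fin n → X → ℝ}
    {M : I → Fin n → X → A} (hE : IsExp F ε w φ ψ₀ ψ M) {r ρ : X → X → A} {c : ℝ≥0}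
    (hr : KB μ w (((n : ℝ) + 1) / n) r c c) (hρ : StronglyMeasurable (Function.uncurry ρ))
    (h1 : KEq μ (comp μ r r) ρ)
    (h2 : KEq μ ρ (fun x y => (2⁻¹ : ℂ) • (ε * r x y + r x y * ε))) {t : ℝ}
    (h3 : ∀ α j, KEq μ (fun x y => ((ψ α j x - ψ α j y : ℝ) : ℂ) • r x y)
      (fun x y => (t : ℂ) • comp μ r (fun x y => M α j x * r x y) x y)) :
    TT μ τ F φ (fun _ => r) = (t : ℂ) ^ n * PL μ τ F ε ψ₀ M ρ := by
  obtain ⟨m, rfl⟩ : ∃ m, n = m + 1 := ⟨n - 1, by omega⟩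
  have hS : MeasurableSet {x : Fin (m + 1 + 1) → X | x 0 ∈ F} := (measurable_pi_apply 0) hF
  have hne : ∀ i : Fin (m + 1 + 1), i ≠ i + 1 := by
    intro i hi
    have h2 : (1 : Fin (m + 1 + 1)) = 0 := by
      have := hi
      rwa [left_eq_add] at this
    exact absurd h2 (by simp)
  -- the integrals of the terms
  have hterm : ∀ α, ∫ x in {x : Fin (m + 1 + 1) → X | x 0 ∈ F},
      ((ψ₀ α (x 0) * ∏ j : Fin (m + 1), (ψ α j (x j.succ) - ψ α j (x j.castSucc)) : ℝ) : ℂ) *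
        τ (loop (fun _ => r) x) ∂(Measure.pi fun _ => μ) =
      (t : ℂ) ^ (m + 1) * LG μ τ F ε (ψ₀ α) (M α) ρ := by
    intro α
    obtain ⟨B, hB1, hB2⟩ := hE.bd α
    have e1 : ∀ᵐ x ∂(Measure.pi fun _ : Fin (m + 1 + 1) => μ),
        ((ψ₀ α (x 0) * ∏ j : Fin (m + 1), (ψ α j (x j.succ) - ψ α j (x j.castSucc)) : ℝ) : ℂ) *
          τ (loop (fun _ => r) x) = (t : ℂ) ^ (m + 1) * ((ψ₀ α (x 0) : ℂ) *
            τ (loop (Fin.snoc (α := fun _ => X → X → A)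
              (fun j : Fin (m + 1) => comp μ r (fun x y => M α j x * r x y)) r) x)) := by
      have e2 : ∀ᵐ x ∂(Measure.pi fun _ : Fin (m + 1 + 1) => μ), ∀ j : Fin (m + 1),
          ((ψ α j (x j.castSucc) - ψ α j (x (j.castSucc + 1)) : ℝ) : ℂ) •
            r (x j.castSucc) (x (j.castSucc + 1)) =
          (t : ℂ) • comp μ r (fun x y => M α j x * r x y) (x j.castSucc) (x (j.castSucc + 1)) :=
        ae_all_iff.2 fun j => C1_pair_ae (hne j.castSucc) (h3 α j)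
      filter_upwards [e2] with x hx
      rw [C1_loop_last, C1_loop_last]
      simp only [Fin.snoc_castSucc, Fin.snoc_last]
      have e3 : (∏ j : Fin (m + 1), ((ψ α j (x (j.castSucc + 1)) - ψ α j (x j.castSucc) : ℝ) : ℂ)) •
          (List.ofFn fun i : Fin (m + 1) => r (x i.castSucc) (x (i.castSucc + 1))).prod =
          ((t : ℂ) ^ (m + 1)) • (List.ofFn fun i : Fin (m + 1) =>
            comp μ r (fun x y => M α i x * r x y) (x i.castSucc) (x (i.castSucc + 1))).prod := by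
        rw [← C4_smul]
        have e4 : (fun i : Fin (m + 1) => ((ψ α i (x (i.castSucc + 1)) - ψ α i (x i.castSucc) : ℝ) : ℂ) •
            r (x i.castSucc) (x (i.castSucc + 1))) = fun i : Fin (m + 1) => (-(t : ℂ)) •
              comp μ r (fun x y => M α i x * r x y) (x i.castSucc) (x (i.castSucc + 1)) := by
          funext i
          have := hx i
          rw [neg_smul, ← this, ← neg_smul]
          congr 1
          push_cast
          ring
        rw [e4, C4_smul, Finset.prod_const, Finset.card_univ, Fintype.card_fin, hn.neg_pow]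
      have e5 : ∏ j : Fin (m + 1), (ψ α j (x j.succ) - ψ α j (x j.castSucc)) =
          ∏ j : Fin (m + 1), (ψ α j (x (j.castSucc + 1)) - ψ α j (x j.castSucc)) := by
        refine Finset.prod_congr rfl fun j _ => ?_
        rw [Fin.coeSucc_eq_succ]
      have e6 : ∀ P Q : A, (∏ j : Fin (m + 1),
          ((ψ α j (x (j.castSucc + 1)) - ψ α j (x j.castSucc) : ℝ) : ℂ)) • P = ((t : ℂ) ^ (m + 1)) • Q →
          ((ψ₀ α (x 0) * ∏ j : Fin (m + 1), (ψ α j (x (j.castSucc + 1)) - ψ α j (x j.castSucc)) : ℝ) : ℂ) *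
            τ (P * r (x (Fin.last (m + 1))) (x 0)) =
          (t : ℂ) ^ (m + 1) * ((ψ₀ α (x 0) : ℂ) * τ (Q * r (x (Fin.last (m + 1))) (x 0))) := by
        intro P Q hPQ
        have e7 := congrArg (fun z => τ (z * r (x (Fin.last (m + 1))) (x 0))) hPQ
        simp only [smul_mul_assoc, map_smul, smul_eq_mul] at e7
        push_cast at e7 ⊢
        rw [mul_assoc, e7]
        ring
      rw [e5]
      exact e6 _ _ e3
    rw [integral_congr_ae (ae_restrict_of_ae e1), integral_const_mul]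
    congr 1
    have e2 := C3_main (μ := μ) hw (τ := τ) hF hF' (hE.meas₀ α) hB1 (hE.measM α)
      (fun j => ⟨B, hB2 j⟩) ⟨c, c, hr⟩ hρ h1
    unfold TT at e2
    rw [e2]
    unfold LG TT
    refine integral_congr_ae (ae_restrict_of_ae ?_)
    have e3 : ∀ᵐ x ∂(Measure.pi fun _ : Fin (m + 1 + 1) => μ), ∀ i : Fin (m + 1 + 1),
        ρ (x i) (x (i + 1)) = (2⁻¹ : ℂ) • (ε * r (x i) (x (i + 1)) + r (x i) (x (i + 1)) * ε) :=
      ae_all_iff.2 fun i => C1_pair_ae (hne i) h2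
    filter_upwards [e3] with x hx
    congr 1
    rw [C1_loop_first, C1_loop_first]
    refine C3_eps hτ hε hn (fun i => M α i (x i.succ) * ρ (x i.succ) (x (i.succ + 1))) (fun j => ?_) (hx 0)
    have e4 : ρ (x j.succ) (x (j.succ + 1)) * ε = ε * ρ (x j.succ) (x (j.succ + 1)) := by
      rw [hx j.succ, smul_mul_assoc, mul_smul_comm, add_mul, mul_add, mul_assoc _ ε ε, hε, mul_one,
        ← mul_assoc ε ε, hε, one_mul, ← mul_assoc, add_comm]
    rw [mul_assoc, e4, ← mul_assoc, hE.odd, neg_mul, mul_assoc]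
  -- the sum
  have hm : ∀ α, StronglyMeasurable fun x : Fin (m + 1 + 1) → X =>
      ((ψ₀ α (x 0) * ∏ j : Fin (m + 1), (ψ α j (x j.succ) - ψ α j (x j.castSucc)) : ℝ) : ℂ) *
        τ (loop (fun _ => r) x) := by
    intro α
    have m1 : Measurable fun x : Fin (m + 1 + 1) → X =>
        ψ₀ α (x 0) * ∏ j : Fin (m + 1), (ψ α j (x j.succ) - ψ α j (x j.castSucc)) :=
      ((hE.meas₀ α).comp (measurable_pi_apply 0)).mul (Finset.measurable_fun_prod _ fun j _ =>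
        ((hE.meas α j).comp (measurable_pi_apply _)).sub ((hE.meas α j).comp (measurable_pi_apply _)))
    exact (Complex.measurable_ofReal.comp m1).stronglyMeasurable.mul
      (τ.continuous.comp_stronglyMeasurable (C1_meas_loop fun _ => hr.meas))
  obtain ⟨B, hB⟩ := hE.bdd
  have hsum : ∑' α, ∫⁻ x in {x : Fin (m + 1 + 1) → X | x 0 ∈ F},
      ‖((ψ₀ α (x 0) * ∏ j : Fin (m + 1), (ψ α j (x j.succ) - ψ α j (x j.castSucc)) : ℝ) : ℂ) *
        τ (loop (fun _ => r) x)‖ₑ ∂(Measure.pi fun _ => μ) ≠ ∞ := by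
    rw [← lintegral_tsum fun α => (hm α).enorm.aemeasurable]
    have e1 : ∫⁻ x in {x : Fin (m + 1 + 1) → X | x 0 ∈ F}, ∑' α,
        ‖((ψ₀ α (x 0) * ∏ j : Fin (m + 1), (ψ α j (x j.succ) - ψ α j (x j.castSucc)) : ℝ) : ℂ) *
          τ (loop (fun _ => r) x)‖ₑ ∂(Measure.pi fun _ => μ) ≤
        ∫⁻ x in {x : Fin (m + 1 + 1) → X | x 0 ∈ F}, ‖τ‖ₑ * B *
          ∏ i, nk w (fun x y => r x y) (x i) (x (i + 1)) ∂(Measure.pi fun _ => μ) := by
      refine setLIntegral_mono' hS fun x hx => ?_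
      have e2 : ‖τ (loop (fun _ => r) x)‖ₑ ≤ ‖τ‖ₑ * ∏ i, ‖r (x i) (x (i + 1))‖ₑ := by
        have h3 : ‖τ (loop (fun _ => r) x)‖₊ ≤ ‖τ‖₊ * ‖loop (fun _ => r) x‖₊ := τ.le_opNNNorm _
        have h4 : ((‖τ (loop (fun _ => r) x)‖₊ : ℝ≥0) : ℝ≥0∞) ≤
            ((‖τ‖₊ * ‖loop (fun _ => r) x‖₊ : ℝ≥0) : ℝ≥0∞) := by
          exact_mod_cast h3
        rw [ENNReal.coe_mul] at h4
        exact h4.trans (mul_le_mul' le_rfl (C1_enorm_loop (fun _ => r) x))
      have e3 : ∀ α, ‖((ψ₀ α (x 0) * ∏ j : Fin (m + 1),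
          (ψ α j (x j.succ) - ψ α j (x j.castSucc)) : ℝ) : ℂ)‖ₑ =
          ‖ψ₀ α (x 0)‖ₑ * ∏ j : Fin (m + 1), ‖ψ α j (x j.succ) - ψ α j (x j.castSucc)‖ₑ := by
        intro α
        rw [← ofReal_norm, Complex.norm_real, ofReal_norm, enorm_mul]
        congr 1
        have e4 : ∀ (s : Finset (Fin (m + 1))) (f : Fin (m + 1) → ℝ),
            ‖∏ j ∈ s, f j‖ₑ = ∏ j ∈ s, ‖f j‖ₑ := by
          intro s f
          induction s using Finset.induction_on with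
          | empty =>
            rw [Finset.prod_empty, Finset.prod_empty, ← ofReal_norm, norm_one, ENNReal.ofReal_one]
          | insert i s hi ih =>
            rw [Finset.prod_insert hi, Finset.prod_insert hi, enorm_mul, ih]
        exact e4 _ _
      calc ∑' α, ‖((ψ₀ α (x 0) * ∏ j : Fin (m + 1),
            (ψ α j (x j.succ) - ψ α j (x j.castSucc)) : ℝ) : ℂ) * τ (loop (fun _ => r) x)‖ₑ
          = (∑' α, ‖ψ₀ α (x 0)‖ₑ * ∏ j : Fin (m + 1), ‖ψ α j (x j.succ) - ψ α j (x j.castSucc)‖ₑ) *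
              ‖τ (loop (fun _ => r) x)‖ₑ := by
            rw [← ENNReal.tsum_mul_right]
            refine tsum_congr fun α => ?_
            rw [enorm_mul, e3]
        _ ≤ (B * ∏ i, ENNReal.ofReal (w (x i) (x (i + 1)))) *
              (‖τ‖ₑ * ∏ i, ‖r (x i) (x (i + 1))‖ₑ) := mul_le_mul' (hB x hx) e2
        _ = _ := by
            unfold nk
            rw [Finset.prod_mul_distrib]
            ring
    refine ne_top_of_le_ne_top ?_ e1
    rw [lintegral_const_mul' _ _ (ENNReal.mul_ne_top enorm_ne_top ENNReal.coe_ne_top)]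
    refine ENNReal.mul_ne_top (ENNReal.mul_ne_top enorm_ne_top ENNReal.coe_ne_top) ?_
    refine ne_top_of_le_ne_top ?_ (KB.loop (Nat.succ_pos m) hw.meas (fun _ => hr) hF 0)
    exact (ENNReal.mul_lt_top hF' (C3_prod_lt _)).ne
  have e1 := integral_tsum (μ := (Measure.pi fun _ : Fin (m + 1 + 1) => μ).restrict
    {x : Fin (m + 1 + 1) → X | x 0 ∈ F}) (fun α => (hm α).aestronglyMeasurable) hsum
  have e2 : TT μ τ F φ (fun _ => r) = ∫ x in {x : Fin (m + 1 + 1) → X | x 0 ∈ F}, ∑' α,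
      ((ψ₀ α (x 0) * ∏ j : Fin (m + 1), (ψ α j (x j.succ) - ψ α j (x j.castSucc)) : ℝ) : ℂ) *
        τ (loop (fun _ => r) x) ∂(Measure.pi fun _ => μ) := by
    unfold TT
    refine setIntegral_congr_fun hS fun x hx => ?_
    show (φ x : ℂ) * τ (loop (fun _ => r) x) = _
    rw [tsum_mul_right]
    congr 1
    have e3 := (hE.sum x hx).tsum_eq
    rw [← e3, Complex.ofReal_tsum]
  rw [e2, e1, tsum_congr hterm, tsum_mul_left]
  rfl

/-- The abstract conclusion: under the decay of `ρ t` as `t → ∞` the numbers `PL (ρ t)` vanish.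
PROOF. `homotopy`: `t^n PL (ρ t)` is constant; `PL_le`: it is at most `C t^n (D/t²)^(n+1) → 0`. -/
theorem PL_eq_zero {G : Type*} [Group G] [Countable G] {act : G → X → X} {U U' : G → X → A}
    (hτ : ∀ x y, τ (x * y) = τ (y * x)) (hs : IsSys μ act F) (hε : ε * ε = 1)
    (hU : IsLift U U' ε) (hn : Even n) (hn' : 2 ≤ n) (hw : Wt w)
    {φ : (Fin (n + 1) → X) → ℝ} (hφ : IsPhi act w φ) {ψ₀ : I → X → ℝ}
    {ψ : I → Fin n → X → ℝ} {M : I → Fin n → X → A} (hE : IsExp F ε w φ ψ₀ ψ M)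
    {r ρ : ℝ → X → X → A}
    (hb : ∀ t₁ t₂ : ℝ, 0 < t₁ → ∃ c : ℝ≥0, ∀ t : ℝ, t₁ ≤ t → t ≤ t₂ →
      KB μ w (((n : ℝ) + 1) / n) (r t) c c)
    (hρ : ∀ t : ℝ, 0 < t → StronglyMeasurable (Function.uncurry (ρ t)))
    (h1 : ∀ t : ℝ, 0 < t → KEq μ (comp μ (r t) (r t)) (ρ t))
    (h2 : ∀ t : ℝ, 0 < t → KEq μ (ρ t) (fun x y => (2⁻¹ : ℂ) • (ε * r t x y + r t x y * ε)))
    (h3 : ∀ t t' : ℝ, 0 < t → 0 < t' → KEq μ (fun x y => (t' : ℂ) • (r t x y - r t' x y))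
      (fun x y => (t' - t : ℂ) • (r t x y - comp μ (r t) (fun x y => ε * r t' x y) x y)))
    (h4 : ∀ t : ℝ, 0 < t → Eqv μ act U U' (r t))
    (h5 : ∀ t : ℝ, 0 < t → ∀ α j, KEq μ (fun x y => ((ψ α j x - ψ α j y : ℝ) : ℂ) • r t x y)
      (fun x y => (t : ℂ) • comp μ (r t) (fun x y => M α j x * r t x y) x y))
    {D : ℝ} (h6 : ∀ t : ℝ, 1 ≤ t → ∃ c₁ : ℝ≥0,
      KB μ w (((n : ℝ) + 1) / n) (ρ t) c₁ (D / t ^ 2).toNNReal)
    {t : ℝ} (ht : 0 < t) : PL μ τ F ε ψ₀ M (ρ t) = 0 := by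
  obtain ⟨C, hC⟩ := PL_le (μ := μ) (τ := τ) hw (by omega) hs.meas hs.fin hE
  have hKB : ∀ t : ℝ, 0 < t → ∃ c : ℝ≥0, KB μ w (((n : ℝ) + 1) / n) (r t) c c := by
    intro t ht
    obtain ⟨c, hc⟩ := hb t t ht
    exact ⟨c, hc t le_rfl le_rfl⟩
  have hTT : ∀ t : ℝ, 0 < t → TT μ τ F φ (fun _ => r t) = (t : ℂ) ^ n * PL μ τ F ε ψ₀ M (ρ t) := by
    intro t ht
    obtain ⟨c, hc⟩ := hKB t ht
    exact TT_eq_PL hτ hε hw hn hn' hs.meas hs.fin hE hc (hρ t ht) (h1 t ht) (h2 t ht) (h5 t ht)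
  have hconst : ∀ s : ℝ, 0 < s → TT μ τ F φ (fun _ => r t) = TT μ τ F φ (fun _ => r s) := by
    intro s hs'
    refine homotopy hτ hs hε hU hn hn' hw hφ hb (fun t ht => ?_) h3 h4 ht hs'
    filter_upwards [h1 t ht, h2 t ht] with q hq1 hq2
    exact hq1.trans hq2
  -- the bound
  have hbound : ∀ s : ℝ, 1 ≤ s → ‖TT μ τ F φ (fun _ => r t)‖ ≤ C * |D| ^ (n + 1) / s := by
    intro s hs1
    have hs0 : 0 < s := by linarith
    obtain ⟨c₁, hc₁⟩ := h6 s hs1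
    have h7 := (hC (ρ s) c₁ _ hc₁).2
    rw [hconst s hs0, hTT s hs0, norm_mul, norm_pow, Complex.norm_real, Real.norm_eq_abs,
      abs_of_pos hs0]
    have h8 : (((D / s ^ 2).toNNReal : ℝ≥0) : ℝ) ≤ |D| / s ^ 2 := by
      rw [Real.coe_toNNReal']
      refine max_le ?_ (by positivity)
      gcongr
      exact le_abs_self D
    have h9 : ‖PL μ τ F ε ψ₀ M (ρ s)‖ ≤ C * (|D| / s ^ 2) ^ (n + 1) := by
      refine h7.trans ?_
      gcongr
    calc s ^ n * ‖PL μ τ F ε ψ₀ M (ρ s)‖ ≤ s ^ n * (C * (|D| / s ^ 2) ^ (n + 1)) := by gcongr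
      _ = C * |D| ^ (n + 1) / s * (1 / s ^ (n + 1)) := by
          rw [div_pow]
          have : (s ^ 2) ^ (n + 1) = s ^ n * s * s ^ (n + 1) := by ring
          rw [this]
          field_simp
      _ ≤ C * |D| ^ (n + 1) / s * 1 := by
          gcongr
          rw [div_le_one (by positivity)]
          exact one_le_pow₀ hs1
      _ = _ := mul_one _
  have hlim : Tendsto (fun s : ℝ => C * |D| ^ (n + 1) / s) atTop (𝓝 0) :=
    tendsto_const_nhds.div_atTop tendsto_id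
  have hzero : ‖TT μ τ F φ (fun _ => r t)‖ ≤ 0 :=
    ge_of_tendsto hlim ((eventually_ge_atTop 1).mono fun s hs1 => hbound s hs1)
  have h7 : TT μ τ F φ (fun _ => r t) = 0 := norm_le_zero_iff.mp hzero
  rw [hTT t ht] at h7
  rcases mul_eq_zero.mp h7 with h8 | h8
  · exfalso
    have h9 : (t : ℂ) ≠ 0 := by exact_mod_cast ht.ne'
    exact pow_ne_zero n h9 h8
  · exact h8

end Pool.Agent.Lib.MP_df705a_gt.SV
end
end

section

/-!
# SV, block A, task A11: kernels of finite range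

PROOF. Let `K = {γ | ∃ y, ‖y‖ ≤ r ∧ ‖γ y‖ ≤ r}` (finite by `hp`); if `‖x‖ ≤ r`, `R ≤ r` and `π x y ≠ 0`, then
`y = γ⁻¹ y'` with `γ ∈ K`, `‖y'‖ ≤ R`, so `‖y‖ ≤ r₁` for a constant `r₁ = r₁(r)` (image of a compact set under finitely
many continuous maps). Iterate `2m` times from `F ⊆ ball`: there is `R'` such that for every `x` with `x 0 ∈ F` and
`π (x i) (x (i+1)) ≠ 0` for all `i` one has `‖x i‖ ≤ R'` for all `i`. `S` = the finite set of `hfin R'`. If `x 0 ∈ F`: either some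
`π (x i) (x (i+1)) = 0`, then `loop = 0` for `π` and for `rb R' π`; or all `‖x i‖ ≤ R'`, then both loops are equal (and zero
if some `M_j(x_{j+1}) = 0`; note that `(i : Fin (n+1)) = 0` or `i = j.succ`). If some `‖x i‖ > R'` then the loop of `rb R' π` is zero
too, and some `π (x i) (x (i+1)) = 0`. So the terms `α ∉ S` vanish, and `tsum_eq_sum`.
-/

open scoped ContDiff InnerProductSpace Matrix ENNReal NNReal Topology
open MeasureTheory Filter Set

noncomputable section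

namespace Pool.Agent.Lib.MP_df705a_gt.SV

open Pool.Agent.Lib.MP_df705a_gt.RL

variable {G I : Type*} [Group G] [Countable G] [Countable I] {m : ℕ}

omit [Countable G] in
theorem A11_step (a : Act G (2 * m)) (hp : IsProper a) (R r : ℝ) : ∃ r' : ℝ, r ≤ r' ∧
    ∀ x y : V (2 * m), ‖x‖ ≤ r → (∃ γ, ‖a.act γ x‖ ≤ R ∧ ‖a.act γ y‖ ≤ R) → ‖y‖ ≤ r' := by
  have h1 := hp (max r R)
  have h2 : IsCompact (⋃ γ ∈ {γ : G | ∃ y, ‖y‖ ≤ max r R ∧ ‖a.act γ y‖ ≤ max r R},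
      a.act γ⁻¹ '' Metric.closedBall (0 : V (2 * m)) R) :=
    h1.isCompact_biUnion fun γ _ => (isCompact_closedBall _ _).image (a.smooth γ⁻¹).continuous
  obtain ⟨r', hr'⟩ := h2.isBounded.subset_closedBall 0
  refine ⟨max r r', le_max_left _ _, fun x y hx ⟨γ, hγ, hγ'⟩ => ?_⟩
  have h3 : y ∈ ⋃ γ ∈ {γ : G | ∃ y, ‖y‖ ≤ max r R ∧ ‖a.act γ y‖ ≤ max r R},
      a.act γ⁻¹ '' Metric.closedBall (0 : V (2 * m)) R := by
    refine Set.mem_biUnion (x := γ) ⟨x, hx.trans (le_max_left _ _), hγ.trans (le_max_right _ _)⟩ ?_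
    refine ⟨a.act γ y, by simpa using hγ', ?_⟩
    rw [← a.mul, inv_mul_cancel, a.one]
  have h4 := hr' h3
  rw [mem_closedBall_zero_iff] at h4
  exact h4.trans (le_max_right _ _)

omit [Countable G] in
/-- All points of a chain of length at most `n` stay in a ball. -/
theorem A11_chain (a : Act G (2 * m)) (hp : IsProper a) (R r : ℝ) (n : ℕ) : ∃ r' : ℝ, r ≤ r' ∧
    ∀ x : Fin (n + 1) → V (2 * m), ‖x 0‖ ≤ r →
      (∀ i : Fin n, ∃ γ, ‖a.act γ (x i.castSucc)‖ ≤ R ∧ ‖a.act γ (x i.succ)‖ ≤ R) →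
      ∀ i, ‖x i‖ ≤ r' := by
  induction n with
  | zero =>
    refine ⟨r, le_rfl, fun x hx _ i => ?_⟩
    have hi : i = 0 := Fin.ext (by simp)
    rw [hi]
    exact hx
  | succ n ih =>
    obtain ⟨r₁, hr₁, h1⟩ := ih
    obtain ⟨r₂, hr₂, h2⟩ := A11_step a hp R r₁
    refine ⟨r₂, hr₁.trans hr₂, fun x hx hx' i => ?_⟩
    have h3 := h1 (fun i => x i.castSucc) hx fun i => by
      have := hx' i.castSucc
      rwa [Fin.succ_castSucc] at this
    refine Fin.lastCases ?_ (fun i => ?_) i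
    · have h4 := hx' (Fin.last n)
      rw [Fin.succ_last] at h4
      exact h2 _ _ (h3 (Fin.last n)) h4
    · exact (h3 i).trans hr₂

/-- A loop with a vanishing factor. -/
theorem A11_loop_zero {n : ℕ} {k : Fin (n + 1) → V (2 * m) → V (2 * m) → En m}
    {x : Fin (n + 1) → V (2 * m)} (i : Fin (n + 1)) (h : k i (x i) (x (i + 1)) = 0) :
    loop k x = 0 := by
  unfold loop
  refine List.prod_eq_zero ?_
  rw [List.mem_ofFn]
  exact ⟨i, h⟩

theorem A11_loop_congr {n : ℕ} {k k' : Fin (n + 1) → V (2 * m) → V (2 * m) → En m}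
    {x : Fin (n + 1) → V (2 * m)} (h : ∀ i, k i (x i) (x (i + 1)) = k' i (x i) (x (i + 1))) :
    loop k x = loop k' x := by
  unfold loop
  rw [funext h]

theorem A11_cons_zero {e : En m} {M : Fin (2 * m) → V (2 * m) → En m}
    {k : V (2 * m) → V (2 * m) → En m} {x : Fin (2 * m + 1) → V (2 * m)} (i : Fin (2 * m + 1))
    (h : k (x i) (x (i + 1)) = 0) :
    loop (Fin.cons (fun x y => e * k x y) fun j x y => M j x * k x y) x = 0 := by
  refine A11_loop_zero i ?_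
  revert h
  refine Fin.cases (fun h => ?_) (fun j h => ?_) i
  · simp only [Fin.cons_zero]
    rw [h, mul_zero]
  · simp only [Fin.cons_succ]
    rw [h, mul_zero]

theorem A11_cons_M {e : En m} {M : Fin (2 * m) → V (2 * m) → En m}
    {k : V (2 * m) → V (2 * m) → En m} {x : Fin (2 * m + 1) → V (2 * m)} (j : Fin (2 * m))
    (h : M j (x j.succ) = 0) :
    loop (Fin.cons (fun x y => e * k x y) fun j x y => M j x * k x y) x = 0 := by
  refine A11_loop_zero j.succ ?_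
  simp only [Fin.cons_succ]
  rw [h, zero_mul]

theorem A11_cons_congr {e : En m} {M : Fin (2 * m) → V (2 * m) → En m}
    {k k' : V (2 * m) → V (2 * m) → En m} {x : Fin (2 * m + 1) → V (2 * m)}
    (h : ∀ i, k (x i) (x (i + 1)) = k' (x i) (x (i + 1))) :
    loop (Fin.cons (fun x y => e * k x y) fun j x y => M j x * k x y) x
      = loop (Fin.cons (fun x y => e * k' x y) fun j x y => M j x * k' x y) x := by
  refine A11_loop_congr fun i => ?_
  have h' := h i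
  revert h'
  refine Fin.cases (fun h => ?_) (fun j h => ?_) i
  · simp only [Fin.cons_zero]
    rw [h]
  · simp only [Fin.cons_succ]
    rw [h]

omit [Countable G] [Countable I] in
theorem A11_PL (C : Cliff m) (g : Geo (2 * m)) (a : Act G (2 * m)) (hp : IsProper a)
    {F : Set (V (2 * m))} (hFm : MeasurableSet F) (hF : Bornology.IsBounded F)
    {ψ₀ : I → V (2 * m) → ℝ} {ψ : I → Fin (2 * m) → V (2 * m) → ℝ}
    (hfin : ∀ R : ℝ, {α | ∃ x : Fin (2 * m + 1) → V (2 * m), (∀ i, ‖x i‖ ≤ R) ∧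
        ψ₀ α (x 0) ≠ 0 ∧ ∀ j, cd C g (ψ α j) (x j.succ) ≠ 0}.Finite) (R : ℝ) :
    ∃ R' : ℝ, (∀ x ∈ F, ‖x‖ < R') ∧ ∃ S : Finset I,
      (∀ α, α ∉ S → ∀ x : Fin (2 * m + 1) → V (2 * m), (∀ i, ‖x i‖ ≤ R') →
        ψ₀ α (x 0) = 0 ∨ ∃ j, cd C g (ψ α j) (x j.succ) = 0) ∧
      ∀ π : V (2 * m) → V (2 * m) → En m,
        (∀ x y, π x y ≠ 0 → ∃ γ, ‖a.act γ x‖ ≤ R ∧ ‖a.act γ y‖ ≤ R) →
        PL g.vol (trC m) F C.eps ψ₀ (fun α j => cd C g (ψ α j)) π =
          ∑ α ∈ S, LG g.vol (trC m) F C.eps (ψ₀ α) (fun j => cd C g (ψ α j)) (rb R' π) := by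
  classical
  obtain ⟨r, hr⟩ := hF.subset_closedBall 0
  obtain ⟨R', hR', hch⟩ := A11_chain a hp R (r + 1) (2 * m)
  have hF' : ∀ x ∈ F, ‖x‖ ≤ r := fun x hx => by simpa using hr hx
  refine ⟨R', fun x hx => lt_of_lt_of_le (by linarith [hF' x hx]) hR', (hfin R').toFinset, ?_, ?_⟩
  · intro α hα x hx
    by_contra h
    push Not at h
    exact hα ((hfin R').mem_toFinset.2 ⟨x, hx, h.1, h.2⟩)
  · intro π hπ
    -- the set where the loop can be nonzero
    have hkey : ∀ x : Fin (2 * m + 1) → V (2 * m), x 0 ∈ F →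
        (∃ i, π (x i) (x (i + 1)) = 0) ∨ ∀ i, ‖x i‖ ≤ R' := by
      intro x hx
      by_cases h : ∃ i, π (x i) (x (i + 1)) = 0
      · exact Or.inl h
      · push Not at h
        right
        refine hch x (by linarith [hF' _ hx]) fun i => ?_
        have h1 := hπ _ _ (h i.castSucc)
        rwa [Fin.coeSucc_eq_succ] at h1
    have hS : MeasurableSet {x : Fin (2 * m + 1) → V (2 * m) | x 0 ∈ F} :=
      measurable_pi_apply 0 hFm
    -- equality of the functionals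
    have h1 : ∀ α, LG g.vol (trC m) F C.eps (ψ₀ α) (fun j => cd C g (ψ α j)) π
        = LG g.vol (trC m) F C.eps (ψ₀ α) (fun j => cd C g (ψ α j)) (rb R' π) := by
      intro α
      unfold LG TT
      refine setIntegral_congr_fun hS fun x hx => ?_
      have h3 : loop (Fin.cons (fun x y => C.eps * π x y) fun j x y =>
          cd C g (ψ α j) x * π x y) x = loop (Fin.cons (fun x y => C.eps * rb R' π x y)
            fun j x y => cd C g (ψ α j) x * rb R' π x y) x := by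
        rcases hkey x hx with ⟨i, hi⟩ | h
        · rw [A11_cons_zero (M := fun j => cd C g (ψ α j)) (k := π) i hi]
          refine (A11_cons_zero (M := fun j => cd C g (ψ α j)) (k := rb R' π) i ?_).symm
          unfold rb
          rw [hi, ite_self]
        · refine A11_cons_congr (M := fun j => cd C g (ψ α j)) fun i => ?_
          unfold rb
          rw [if_pos ⟨h i, h (i + 1)⟩]
      show _ * trC m (loop _ x) = _ * trC m (loop _ x)
      rw [h3]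
    have h2 : ∀ α, α ∉ (hfin R').toFinset →
        LG g.vol (trC m) F C.eps (ψ₀ α) (fun j => cd C g (ψ α j)) (rb R' π) = 0 := by
      intro α hα
      unfold LG TT
      rw [setIntegral_congr_fun (g := fun _ => (0 : ℂ)) hS, integral_zero]
      intro x hx
      show ((ψ₀ α (x 0) : ℝ) : ℂ) * trC m (loop (Fin.cons (fun x y => C.eps * rb R' π x y)
            fun j x y => cd C g (ψ α j) x * rb R' π x y) x) = 0
      by_cases hall : ∀ i, ‖x i‖ ≤ R'
      · by_cases h0 : ψ₀ α (x 0) = 0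
        · rw [h0, Complex.ofReal_zero, zero_mul]
        · have h5 : ∃ j, cd C g (ψ α j) (x j.succ) = 0 := by
            by_contra h
            push Not at h
            exact hα ((hfin R').mem_toFinset.2 ⟨x, hall, h0, h⟩)
          obtain ⟨j, hj⟩ := h5
          rw [A11_cons_M (M := fun j => cd C g (ψ α j)) j hj, map_zero, mul_zero]
      · push Not at hall
        obtain ⟨i, hi⟩ := hall
        rw [A11_cons_zero (M := fun j => cd C g (ψ α j)) (k := rb R' π) i, map_zero, mul_zero]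
        unfold rb
        rw [if_neg fun h => absurd h.1 (not_le.2 hi)]
    unfold PL
    rw [tsum_congr h1]
    exact tsum_eq_sum h2

end Pool.Agent.Lib.MP_df705a_gt.SV
end
end

section

/-!
# SV, block A, task A12: comparison of the kernels

`A12_PL`: `PL_sub_le` and `t^N (C sz(Dt,t) sz(D,t)^N) ≤ C |D|^(N+1) t`, `N = 2m`.
`A12_compare`: `LG` is Lipschitz on kernels supported in the ball of radius `R'`: `PL_sub_le` with `I = Unit`, `φ = 0`,
`ψ = 0`, weight `1`, and `ψ₀`, `M` restricted to the closed ball of radius `R'`.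
-/

open scoped ContDiff InnerProductSpace Matrix ENNReal NNReal Topology
open MeasureTheory Filter Set

noncomputable section

namespace Pool.Agent.Lib.MP_df705a_gt.SV

open Pool.Agent.Lib.MP_df705a_gt.RL

variable {I : Type*} [Countable I] {m : ℕ}

/-! ## The sizes -/

theorem A12_pow {t : ℝ} (ht : 0 < t) :
    t ^ (2 * m) * (t ^ (-(2 * m / (2 * m + 1) : ℝ))) ^ (2 * m + 1) = 1 := by
  have h1 : (t ^ (-(2 * m / (2 * m + 1) : ℝ))) ^ (2 * m + 1) = t ^ (-((2 * m : ℕ) : ℝ)) := by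
    rw [← Real.rpow_natCast (t ^ (-(2 * m / (2 * m + 1) : ℝ))), ← Real.rpow_mul ht.le]
    congr 1
    push_cast
    have : (2 * (m : ℝ) + 1) ≠ 0 := by positivity
    field_simp
  rw [h1, ← Real.rpow_natCast t, ← Real.rpow_add ht, add_neg_cancel, Real.rpow_zero]

theorem A12_szmono {D D' t : ℝ} (ht : 0 < t) (h : D ≤ D') : sz m D t ≤ sz m D' t := by
  unfold sz
  refine Real.toNNReal_le_toNNReal ?_
  exact mul_le_mul_of_nonneg_right h (Real.rpow_nonneg ht.le _)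

theorem A12_szadd {D D' t : ℝ} (ht : 0 < t) (hD : 0 ≤ D) (hD' : 0 ≤ D') :
    sz m D t + sz m D' t = sz m (D + D') t := by
  unfold sz
  rw [← Real.toNNReal_add (mul_nonneg hD (Real.rpow_nonneg ht.le _))
    (mul_nonneg hD' (Real.rpow_nonneg ht.le _)), add_mul]

theorem A12_szcoe {D t : ℝ} (ht : 0 < t) (hD : 0 ≤ D) :
    (sz m D t : ℝ) = D * t ^ (-(2 * m / (2 * m + 1) : ℝ)) := by
  unfold sz
  rw [Real.coe_toNNReal _ (mul_nonneg hD (Real.rpow_nonneg ht.le _))]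

theorem A12_sz {K t : ℝ} (ht : 0 < t) (hK : 0 ≤ K) :
    t ^ (2 * m) * ((sz m (K * t) t : ℝ) * (sz m K t : ℝ) ^ (2 * m)) = K ^ (2 * m + 1) * t := by
  rw [A12_szcoe ht (mul_nonneg hK ht.le), A12_szcoe ht hK]
  have h := A12_pow (m := m) ht
  calc t ^ (2 * m) * (K * t * t ^ (-(2 * m / (2 * m + 1) : ℝ)) *
        (K * t ^ (-(2 * m / (2 * m + 1) : ℝ))) ^ (2 * m))
      = K ^ (2 * m + 1) * t * (t ^ (2 * m) * (t ^ (-(2 * m / (2 * m + 1) : ℝ))) ^ (2 * m + 1)) := by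
        ring
    _ = _ := by rw [h, mul_one]

theorem A12_lim {f : ℝ → ℂ} {B t₂ : ℝ} (ht₂ : 0 < t₂)
    (h : ∀ t : ℝ, 0 < t → t ≤ t₂ → ‖f t‖ ≤ B * t) : Tendsto f (𝓝[>] 0) (𝓝 0) := by
  refine squeeze_zero_norm' (a := fun t => B * t) ?_ ?_
  · filter_upwards [Ioc_mem_nhdsGT ht₂] with t ht
    exact h t ht.1 ht.2
  · have h1 : Tendsto (fun t : ℝ => B * t) (𝓝 0) (𝓝 (B * 0)) := tendsto_id.const_mul B
    rw [mul_zero] at h1
    exact h1.mono_left nhdsWithin_le_nhds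

theorem A12_vol (g : Geo (2 * m)) {F : Set (V (2 * m))} (hFb : Bornology.IsBounded F) :
    g.vol F < (⊤ : ℝ≥0∞) :=
  lt_of_le_of_lt (measure_mono subset_closure) hFb.isCompact_closure.measure_lt_top

theorem A12_norm {t : ℝ} (ht : 0 < t) (z : ℂ) : ‖(t : ℂ) ^ (2 * m) * z‖ = t ^ (2 * m) * ‖z‖ := by
  rw [norm_mul, norm_pow, Complex.norm_real, Real.norm_of_nonneg ht.le]

theorem A12_PL (hm : 1 ≤ m) (C : Cliff m) (g : Geo (2 * m)) {w : V (2 * m) → V (2 * m) → ℝ}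
    (hw : Wt w) {F : Set (V (2 * m))} (hF : MeasurableSet F) (hFb : Bornology.IsBounded F)
    {φ : (Fin (2 * m + 1) → V (2 * m)) → ℝ} {ψ₀ : I → V (2 * m) → ℝ}
    {ψ : I → Fin (2 * m) → V (2 * m) → ℝ}
    (hE : IsExp F C.eps w φ ψ₀ ψ fun α j => cd C g (ψ α j))
    {ρ π : ℝ → V (2 * m) → V (2 * m) → En m} {D t₀ : ℝ} (ht₀ : 0 < t₀)
    (h1 : ∀ t : ℝ, 0 < t → t ≤ t₀ → ∃ c₁ : ℝ≥0,
      KB g.vol w (pN m) (ρ t) c₁ (sz m D t) ∧ KB g.vol w (pN m) (π t) c₁ (sz m D t) ∧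
      KB g.vol w (pN m) (fun x y => ρ t x y - π t x y) c₁ (sz m (D * t) t)) :
    Tendsto (fun t : ℝ => (t : ℂ) ^ (2 * m) *
      (PL g.vol (trC m) F C.eps ψ₀ (fun α j => cd C g (ψ α j)) (ρ t) -
        PL g.vol (trC m) F C.eps ψ₀ (fun α j => cd C g (ψ α j)) (π t))) (𝓝[>] 0) (𝓝 0) := by
  have hn : 1 ≤ 2 * m := by omega
  obtain ⟨B, hB⟩ := PL_sub_le (μ := g.vol) (τ := trC m) hw hn hF (A12_vol g hFb) hE
  have hp : 0 ≤ pN m := (K_pos (N := 2 * m) (by omega)).le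
  refine A12_lim (B := B * |D| ^ (2 * m + 1)) ht₀ fun t ht htt => ?_
  obtain ⟨c₁, a1, a2, a3⟩ := h1 t ht htt
  have h2 := hB (ρ t) (π t) c₁ (sz m |D| t) c₁ (sz m (|D| * t) t)
    (a1.mono hp le_rfl (A12_szmono ht (le_abs_self D))) (a2.mono hp le_rfl (A12_szmono ht (le_abs_self D)))
    (a3.mono hp le_rfl (A12_szmono ht (mul_le_mul_of_nonneg_right (le_abs_self D) ht.le)))
  rw [A12_norm ht]
  calc _ ≤ t ^ (2 * m) * ((B : ℝ) * (sz m (|D| * t) t : ℝ) * (sz m |D| t : ℝ) ^ (2 * m)) :=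
        mul_le_mul_of_nonneg_left h2 (pow_nonneg ht.le _)
    _ = B * (t ^ (2 * m) * ((sz m (|D| * t) t : ℝ) * (sz m |D| t : ℝ) ^ (2 * m))) := by ring
    _ = _ := by
      rw [A12_sz ht (abs_nonneg D)]
      ring

/-! ## Kernels supported in a ball -/

theorem A12_cd_cont (C : Cliff m) (g : Geo (2 * m)) {ψ : V (2 * m) → ℝ} (hψ : ContDiff ℝ ∞ ψ) :
    Continuous (cd C g ψ) := by
  unfold cd
  refine continuous_finsetSum _ fun a _ => ?_
  have h1 : Continuous fun x => ∑ μ, g.e x μ a * pd μ ψ x :=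
    continuous_finsetSum _ fun μ _ => (g.smooth_e μ a).continuous.mul (contDiff_pd hψ μ).continuous
  exact (Complex.continuous_ofReal.comp h1).smul continuous_const

theorem A12_cd_odd (C : Cliff m) (g : Geo (2 * m)) (ψ : V (2 * m) → ℝ) (x : V (2 * m)) :
    cd C g ψ x * C.eps = -(C.eps * cd C g ψ x) := by
  unfold cd
  rw [Finset.sum_mul, Finset.mul_sum, ← Finset.sum_neg_distrib]
  refine Finset.sum_congr rfl fun a _ => ?_
  rw [smul_mul_assoc, mul_smul_comm, C.c_mul_eps, smul_neg]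

/-- Restriction of a function to the ball. -/
def A12_rs {A : Type*} [Zero A] (R : ℝ) (f : V (2 * m) → A) (x : V (2 * m)) : A :=
  if ‖x‖ ≤ R then f x else 0

theorem A12_ball (R : ℝ) : MeasurableSet {x : V (2 * m) | ‖x‖ ≤ R} :=
  measurableSet_le continuous_norm.measurable measurable_const

theorem A12_ball2 (R : ℝ) : MeasurableSet {q : V (2 * m) × V (2 * m) | ‖q.1‖ ≤ R ∧ ‖q.2‖ ≤ R} :=
  (measurableSet_le (continuous_norm.comp continuous_fst).measurable measurable_const).inter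
    (measurableSet_le (continuous_norm.comp continuous_snd).measurable measurable_const)

theorem A12_rbmeas (R : ℝ) {k : V (2 * m) → V (2 * m) → En m}
    (hk : StronglyMeasurable (Function.uncurry k)) :
    StronglyMeasurable (Function.uncurry (rb R k)) :=
  StronglyMeasurable.ite (A12_ball2 R) hk stronglyMeasurable_const

theorem A12_rbnormle (R : ℝ) (k : V (2 * m) → V (2 * m) → En m) (x y : V (2 * m)) :
    ‖rb R k x y‖ ≤ (1 : ℝ≥0) * ‖k x y‖ := by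
  unfold rb
  rw [NNReal.coe_one, one_mul]
  split_ifs
  · exact le_rfl
  · rw [norm_zero]
    exact norm_nonneg _

theorem A12_rbKB (hm : 1 ≤ m) (g : Geo (2 * m)) {w : V (2 * m) → V (2 * m) → ℝ} (hw : Wt w) (R : ℝ)
    {k : V (2 * m) → V (2 * m) → En m} {c₁ c : ℝ≥0} (h : KB g.vol w (pN m) k c₁ c) :
    KB g.vol (fun _ _ => 1) (pN m) (rb R k) c₁ c := by
  have hp : 0 ≤ pN m := (K_pos (N := 2 * m) (by omega)).le
  have h1 := (h.of_le hw.meas hp (A12_rbmeas R h.meas) 1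
    (Eventually.of_forall fun q => A12_rbnormle R k q.1 q.2)).weight hp (w' := fun _ _ => 1) hw.one
  rwa [one_mul, one_mul] at h1

/-- The loops of the restricted kernels. -/
theorem A12_loop (C : Cliff m) (R : ℝ) (ψ₀ : V (2 * m) → ℝ) (M : Fin (2 * m) → V (2 * m) → En m)
    (k : V (2 * m) → V (2 * m) → En m) (x : Fin (2 * m + 1) → V (2 * m)) :
    (ψ₀ (x 0) : ℂ) * trC m (loop (Fin.cons (α := fun _ => V (2 * m) → V (2 * m) → En m)
      (fun x y => C.eps * rb R k x y) fun j x y => M j x * rb R k x y) x) =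
    ((A12_rs R ψ₀ (x 0) : ℝ) : ℂ) * trC m (loop (Fin.cons (α := fun _ => V (2 * m) → V (2 * m) → En m)
      (fun x y => C.eps * rb R k x y) fun j x y => A12_rs R (M j) x * rb R k x y) x) := by
  have h1 : (fun i : Fin (2 * m + 1) => (Fin.cons (α := fun _ => V (2 * m) → V (2 * m) → En m)
      (fun x y => C.eps * rb R k x y) (fun j x y => M j x * rb R k x y) :
        Fin (2 * m + 1) → V (2 * m) → V (2 * m) → En m) i (x i) (x (i + 1))) =
      fun i : Fin (2 * m + 1) => (Fin.cons (α := fun _ => V (2 * m) → V (2 * m) → En m)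
      (fun x y => C.eps * rb R k x y) (fun j x y => A12_rs R (M j) x * rb R k x y) :
        Fin (2 * m + 1) → V (2 * m) → V (2 * m) → En m) i (x i) (x (i + 1)) := by
    funext i
    refine Fin.cases ?_ (fun j => ?_) i
    · rfl
    · show M j (x j.succ) * rb R k (x j.succ) (x (j.succ + 1)) =
        A12_rs R (M j) (x j.succ) * rb R k (x j.succ) (x (j.succ + 1))
      unfold A12_rs rb
      by_cases h : ‖x j.succ‖ ≤ R
      · rw [if_pos h]
      · rw [if_neg h, if_neg (fun h' => h h'.1), mul_zero, mul_zero]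
  have h2 : loop (Fin.cons (α := fun _ => V (2 * m) → V (2 * m) → En m)
      (fun x y => C.eps * rb R k x y) fun j x y => M j x * rb R k x y) x =
      loop (Fin.cons (α := fun _ => V (2 * m) → V (2 * m) → En m)
      (fun x y => C.eps * rb R k x y) fun j x y => A12_rs R (M j) x * rb R k x y) x := by
    unfold loop
    rw [h1]
  rw [h2]
  by_cases h : ‖x 0‖ ≤ R
  · rw [A12_rs, if_pos h]
  · have h3 : loop (Fin.cons (α := fun _ => V (2 * m) → V (2 * m) → En m)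
        (fun x y => C.eps * rb R k x y) fun j x y => A12_rs R (M j) x * rb R k x y) x = 0 := by
      unfold loop
      rw [List.ofFn_succ, List.prod_cons]
      have h4 : rb R k (x 0) (x (0 + 1)) = 0 := if_neg fun h' => h h'.1
      show C.eps * rb R k (x 0) (x (0 + 1)) * _ = 0
      rw [h4, mul_zero, zero_mul]
    rw [h3, map_zero, mul_zero, mul_zero]

theorem A12_LG (C : Cliff m) (g : Geo (2 * m)) (F : Set (V (2 * m))) (R : ℝ) (ψ₀ : V (2 * m) → ℝ)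
    (M : Fin (2 * m) → V (2 * m) → En m) (k : V (2 * m) → V (2 * m) → En m) :
    LG g.vol (trC m) F C.eps ψ₀ M (rb R k) =
      PL g.vol (trC m) F C.eps (fun _ : Unit => A12_rs R ψ₀) (fun _ j => A12_rs R (M j)) (rb R k) := by
  unfold PL
  rw [tsum_fintype, Finset.univ_unique, Finset.sum_singleton]
  unfold LG TT
  refine integral_congr_ae (Eventually.of_forall fun x => ?_)
  exact A12_loop C R ψ₀ M k x

theorem A12_bound {A : Type*} [NormedAddCommGroup A] (R : ℝ) {f : V (2 * m) → A}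
    (hf : Continuous f) : ∃ B : ℝ, 0 ≤ B ∧ ∀ x, ‖A12_rs R f x‖ ≤ B := by
  obtain ⟨B, hB⟩ := (isCompact_closedBall (0 : V (2 * m)) R).exists_bound_of_continuousOn
    hf.continuousOn
  refine ⟨max B 0, le_max_right _ _, fun x => ?_⟩
  unfold A12_rs
  split_ifs with h
  · exact (hB x (by simpa using h)).trans (le_max_left _ _)
  · rw [norm_zero]
    exact le_max_right _ _

theorem A12_exp (hm : 1 ≤ m) (C : Cliff m) (g : Geo (2 * m)) (F : Set (V (2 * m))) (R : ℝ)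
    {ψ₀ : V (2 * m) → ℝ} (h3 : Continuous ψ₀) {ψ : Fin (2 * m) → V (2 * m) → ℝ}
    (h4 : ∀ j, ContDiff ℝ ∞ (ψ j)) :
    IsExp F C.eps (fun _ _ => 1) (fun _ => 0) (fun _ : Unit => A12_rs R ψ₀)
      (fun _ _ _ => (0 : ℝ)) (fun _ (j : Fin (2 * m)) => A12_rs R (cd C g (ψ j))) := by
  have hc : ∀ j, Continuous (cd C g (ψ j)) := fun j => A12_cd_cont C g (h4 j)
  obtain ⟨B₀, hB₀, hB₀'⟩ := A12_bound (m := m) R h3
  have hB : ∃ B : ℝ, 0 ≤ B ∧ ∀ j x, ‖A12_rs R (cd C g (ψ j)) x‖ ≤ B := by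
    choose B hB hB' using fun j => A12_bound (m := m) R (hc j)
    refine ⟨∑ j, B j, Finset.sum_nonneg fun j _ => hB j, fun j x => (hB' j x).trans ?_⟩
    exact Finset.single_le_sum (f := B) (fun j _ => hB j) (Finset.mem_univ j)
  obtain ⟨B, hB, hB'⟩ := hB
  have hz : ∏ j : Fin (2 * m), ((0 : ℝ) - 0) = 0 :=
    Finset.prod_eq_zero (Finset.mem_univ ⟨0, by omega⟩) (sub_zero 0)
  refine ⟨fun _ => Measurable.ite (A12_ball R) h3.measurable measurable_const,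
    fun _ _ => measurable_const,
    fun _ j => StronglyMeasurable.ite (A12_ball R) (hc j).stronglyMeasurable
      stronglyMeasurable_const, ?_, ?_, ?_, ?_, ?_⟩
  · intro x _
    simp only [hz, mul_zero]
    exact hasSum_zero
  · refine ⟨0, fun x _ => ?_⟩
    have h1 : ∏ j : Fin (2 * m), ‖(0 : ℝ) - 0‖ₑ = 0 :=
      Finset.prod_eq_zero (Finset.mem_univ ⟨0, by omega⟩) (by simp)
    simp only [h1, mul_zero, tsum_zero]
    exact zero_le
  · refine ⟨B₀.toNNReal * B.toNNReal ^ (2 * m), fun x _ => ?_⟩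
    rw [tsum_fintype, Finset.univ_unique, Finset.sum_singleton]
    have h1 : ∀ j : Fin (2 * m), ‖A12_rs R (cd C g (ψ j)) (x j.succ)‖ₑ ≤ (B.toNNReal : ℝ≥0∞) := by
      intro j
      rw [← ofReal_norm]
      exact ENNReal.ofReal_le_ofReal (hB' j _)
    have h2 : ‖A12_rs R ψ₀ (x 0)‖ₑ ≤ (B₀.toNNReal : ℝ≥0∞) := by
      rw [← ofReal_norm]
      exact ENNReal.ofReal_le_ofReal (hB₀' _)
    have h3 : ∏ i : Fin (2 * m + 1), ENNReal.ofReal ((fun _ _ => (1 : ℝ) : V (2 * m) → V (2 * m) → ℝ)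
        (x i) (x (i + 1))) = 1 := by
      simp
    rw [h3, mul_one, ENNReal.coe_mul, ENNReal.coe_pow]
    refine mul_le_mul' h2 ?_
    refine (Finset.prod_le_prod' fun j _ => h1 j).trans ?_
    rw [Finset.prod_const, Finset.card_univ, Fintype.card_fin]
  · intro _ j x
    unfold A12_rs
    split_ifs
    · exact A12_cd_odd C g (ψ j) x
    · rw [zero_mul, mul_zero, neg_zero]
  · intro _
    refine ⟨max B₀ B, fun x _ => (hB₀' x).trans (le_max_left _ _), fun j x =>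
      (hB' j x).trans (le_max_right _ _)⟩

theorem A12_wt : Wt (fun _ _ : V (2 * m) => (1 : ℝ)) :=
  ⟨measurable_const, fun _ _ => le_rfl, fun _ _ _ => by rw [mul_one]⟩

theorem A12_compare (hm : 1 ≤ m) (C : Cliff m) (g : Geo (2 * m))
    {w : V (2 * m) → V (2 * m) → ℝ} (hw : Wt w) {F : Set (V (2 * m))} (hF : MeasurableSet F)
    (hFb : Bornology.IsBounded F) {ρ π : ℝ → V (2 * m) → V (2 * m) → En m} {D t₀ : ℝ}
    (ht₀ : 0 < t₀)
    (h1 : ∀ t : ℝ, 0 < t → t ≤ t₀ → ∃ c₁ : ℝ≥0,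
      KB g.vol w (pN m) (ρ t) c₁ (sz m D t) ∧ KB g.vol w (pN m) (π t) c₁ (sz m D t) ∧
      KB g.vol w (pN m) (fun x y => ρ t x y - π t x y) c₁ (sz m (D * t) t))
    {R' D' t₁ : ℝ} (ht₁ : 0 < t₁)
    (h2 : ∀ t : ℝ, 0 < t → t ≤ t₁ → ∃ c₁ : ℝ≥0,
      KB g.vol (fun _ _ => 1) (pN m) (fun x y => if ‖x‖ ≤ R' ∧ ‖y‖ ≤ R' then
        ρ t x y - (hmod g t x y : ℂ) • (1 : En m) else 0) c₁ (sz m (D' * t) t))
    {ψ₀ : V (2 * m) → ℝ} (h3 : Continuous ψ₀) {ψ : Fin (2 * m) → V (2 * m) → ℝ}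
    (h4 : ∀ j, ContDiff ℝ ∞ (ψ j)) :
    Tendsto (fun t : ℝ => (t : ℂ) ^ (2 * m) *
      (LG g.vol (trC m) F C.eps ψ₀ (fun j => cd C g (ψ j)) (rb R' (π t)) -
        LG g.vol (trC m) F C.eps ψ₀ (fun j => cd C g (ψ j))
          (rb R' fun x y => (hmod g t x y : ℂ) • (1 : En m)))) (𝓝[>] 0) (𝓝 0) := by
  have hn : 1 ≤ 2 * m := by omega
  have hp1 : 1 ≤ pN m := K_one_le (N := 2 * m) (by omega)
  have hp : 0 ≤ pN m := (K_pos (N := 2 * m) (by omega)).le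
  have hE := A12_exp hm C g F R' h3 h4
  obtain ⟨B, hB⟩ := PL_sub_le (μ := g.vol) (τ := trC m) A12_wt hn hF (A12_vol g hFb) hE
  set K : ℝ := |D| + |D'| with hK
  have hK0 : 0 ≤ K := by positivity
  refine A12_lim (B := B * K ^ (2 * m + 1)) (lt_min (lt_min ht₀ ht₁) one_pos) fun t ht htt => ?_
  have ht0 : t ≤ t₀ := htt.trans ((min_le_left _ _).trans (min_le_left _ _))
  have ht1 : t ≤ t₁ := htt.trans ((min_le_left _ _).trans (min_le_right _ _))
  have ht2 : t ≤ 1 := htt.trans (min_le_right _ _)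
  obtain ⟨c₁, a1, a2, a3⟩ := h1 t ht ht0
  obtain ⟨c₂, a4⟩ := h2 t ht ht1
  have b1 := A12_rbKB hm g hw R' a1
  have b2 := A12_rbKB hm g hw R' a2
  have b3 := A12_rbKB hm g hw R' a3
  have b4 := b1.sub A12_wt.meas hp1 a4
  have b5 := a4.sub A12_wt.meas hp1 b3
  have e1 : (fun x y => rb R' (ρ t) x y - (if ‖x‖ ≤ R' ∧ ‖y‖ ≤ R' then
      ρ t x y - (hmod g t x y : ℂ) • (1 : En m) else 0)) =
      rb R' fun x y => (hmod g t x y : ℂ) • (1 : En m) := by
    funext x y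
    unfold rb
    split_ifs
    · abel
    · rw [sub_zero]
  have e2 : (fun x y => (if ‖x‖ ≤ R' ∧ ‖y‖ ≤ R' then
      ρ t x y - (hmod g t x y : ℂ) • (1 : En m) else 0) -
        rb R' (fun x y => ρ t x y - π t x y) x y) = fun x y => rb R' (π t) x y -
      rb R' (fun x y => (hmod g t x y : ℂ) • (1 : En m)) x y := by
    funext x y
    unfold rb
    split_ifs
    · exact sub_sub_sub_cancel_left _ _ _
    · rw [sub_zero]
  rw [e1] at b4
  rw [e2] at b5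
  have s1 : sz m D t ≤ sz m K t := A12_szmono ht ((le_abs_self D).trans (by rw [hK]; linarith [abs_nonneg D']))
  have s2 : sz m (D * t) t ≤ sz m (|D| * t) t :=
    A12_szmono ht (mul_le_mul_of_nonneg_right (le_abs_self D) ht.le)
  have s3 : sz m (D' * t) t ≤ sz m (|D'| * t) t :=
    A12_szmono ht (mul_le_mul_of_nonneg_right (le_abs_self D') ht.le)
  have s4 : sz m D t + sz m (D' * t) t ≤ sz m K t := by
    calc _ ≤ sz m |D| t + sz m |D'| t := by
          refine add_le_add (A12_szmono ht (le_abs_self D)) (s3.trans (A12_szmono ht ?_))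
          nlinarith [abs_nonneg D']
      _ = _ := by rw [A12_szadd ht (abs_nonneg D) (abs_nonneg D')]
  have s5 : sz m (D' * t) t + sz m (D * t) t ≤ sz m (K * t) t := by
    calc _ ≤ sz m (|D'| * t) t + sz m (|D| * t) t := add_le_add s3 s2
      _ = _ := by
        rw [A12_szadd ht (mul_nonneg (abs_nonneg D') ht.le) (mul_nonneg (abs_nonneg D) ht.le), hK]
        congr 1
        ring
  have h5 := hB (rb R' (π t)) (rb R' fun x y => (hmod g t x y : ℂ) • (1 : En m)) (c₁ + c₂)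
    (sz m K t) (c₂ + c₁) (sz m (K * t) t) (b2.mono hp le_self_add s1) (b4.mono hp le_rfl s4)
    (b5.mono hp le_rfl s5)
  rw [A12_norm ht, A12_LG, A12_LG]
  calc _ ≤ t ^ (2 * m) * ((B : ℝ) * (sz m (K * t) t : ℝ) * (sz m K t : ℝ) ^ (2 * m)) :=
        mul_le_mul_of_nonneg_left h5 (pow_nonneg ht.le _)
    _ = B * (t ^ (2 * m) * ((sz m (K * t) t : ℝ) * (sz m K t : ℝ) ^ (2 * m))) := by ring
    _ = _ := by
      rw [A12_sz ht hK0]
      ring

end Pool.Agent.Lib.MP_df705a_gt.SV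
end
end
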