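import Pool.Agent.Lib.MP_df705a_gt.Mg.G052
import Pool.Agent.Lib.MP_df705a_gt.Mg.G072
import Pool.Agent.Lib.MP_df705a_gt.SV.L1
import Pool.Agent.Lib.MP_df705a_gt.Mg.G047
import Pool.Agent.Lib.MP_df705a_gt.Mg.G075
import Pool.Agent.Lib.MP_df705a_gt.Mg.G073
import Pool.Agent.Lib.MP_df705a_gt.Mg.G084

section

/-!
# SV, block A: the dominating kernel and the limit kernel of the resolvent
-/

open scoped ContDiff InnerProductSpace Matrix Topology Real
open MeasureTheory Filter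

noncomputable section

set_option linter.unusedSectionVars false

namespace Pool.Agent.Lib.MP_df705a_gt.RL

variable {m : ℕ}

/-- The dominating kernel `∫_0^∞ exp(-s) gz(u, s) ds`. -/
def kD (m : ℕ) (κ : ℝ) (u : V (2 * m)) : ℝ := ∫ s in Set.Ioi (0 : ℝ), Real.exp (-s) * gz m κ u s

/-- The limit kernel `∫_0^∞ exp(-s) gs(u, s) ds`. -/
def kG (g : Geo (2 * m)) (x u : V (2 * m)) : ℝ :=
  ∫ s in Set.Ioi (0 : ℝ), Real.exp (-s) * gs g x u s

theorem A03_exp_neg_le {x : ℝ} (hx : 0 < x) (n : ℕ) : Real.exp (-x) ≤ (n.factorial : ℝ) / x ^ n := by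
  have h := Real.pow_div_factorial_le_exp x hx.le n
  have h1 : 0 < x ^ n := by positivity
  have h2 : (0 : ℝ) < n.factorial := by positivity
  rw [Real.exp_neg, le_div_iff₀ h1, inv_mul_le_iff₀ (Real.exp_pos x)]
  rwa [div_le_iff₀ h2] at h

/-- `gz m κ u s ≤ m! / (κ |u|²)^m`. -/
theorem gz_le_fact {κ : ℝ} (hκ : 0 < κ) {u : V (2 * m)} (hu : u ≠ 0) {s : ℝ} (hs : 0 < s) :
    gz m κ u s ≤ (m.factorial : ℝ) / (κ * ‖u‖ ^ 2) ^ m := by
  have hn : 0 < ‖u‖ := norm_pos_iff.2 hu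
  have h1 : 0 < κ * ‖u‖ ^ 2 := by positivity
  have h2 := A03_exp_neg_le (x := κ * ‖u‖ ^ 2 / s) (by positivity) m
  unfold gz
  calc (s ^ m)⁻¹ * Real.exp (-(κ * ‖u‖ ^ 2 / s))
      ≤ (s ^ m)⁻¹ * ((m.factorial : ℝ) / (κ * ‖u‖ ^ 2 / s) ^ m) := by gcongr
    _ = (m.factorial : ℝ) / (κ * ‖u‖ ^ 2) ^ m := by
        rw [div_pow]
        field_simp

theorem A03_contOn_gz (κ : ℝ) (u : V (2 * m)) : ContinuousOn (fun s : ℝ => gz m κ u s) (Set.Ioi 0) := by
  unfold gz
  refine ContinuousOn.mul ?_ ?_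
  · refine ContinuousOn.inv₀ (by fun_prop) fun p hp => ?_
    have : (0 : ℝ) < p := hp
    positivity
  · refine (ContinuousOn.div continuousOn_const continuousOn_id fun p hp => ?_).neg.rexp
    exact (ne_of_gt hp : p ≠ 0)

theorem A03_contOn_gs (g : Geo (2 * m)) (x u : V (2 * m)) :
    ContinuousOn (fun s : ℝ => gs g x u s) (Set.Ioi 0) := fun s hs =>
  ((hasDerivAt_gs g x u hs).continuousAt).continuousWithinAt

theorem integrableOn_gz {κ : ℝ} (hκ : 0 < κ) {u : V (2 * m)} (hu : u ≠ 0) :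
    IntegrableOn (fun s : ℝ => Real.exp (-s) * gz m κ u s) (Set.Ioi 0) := by
  have h1 : IntegrableOn (fun s : ℝ => Real.exp (-s)) (Set.Ioi 0) := by
    simpa using (integrableOn_exp_neg_Ioi 0)
  refine (h1.const_mul ((m.factorial : ℝ) / (κ * ‖u‖ ^ 2) ^ m)).mono' ?_ ?_
  · exact ((Real.continuous_exp.comp continuous_neg).continuousOn.mul
      (A03_contOn_gz κ u)).aestronglyMeasurable measurableSet_Ioi
  · refine (ae_restrict_iff' measurableSet_Ioi).2 (Filter.Eventually.of_forall fun s hs => ?_)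
    have hs' : (0 : ℝ) < s := hs
    have h2 := gz_nonneg m κ u hs'
    rw [Real.norm_of_nonneg (by positivity), mul_comm]
    exact mul_le_mul_of_nonneg_right (gz_le_fact hκ hu hs') (Real.exp_pos _).le

/-- The Gaussian of the metric is dominated on balls. -/
theorem gs_le_gz (g : Geo (2 * m)) (ρ : ℝ) : ∃ κ : ℝ, 0 < κ ∧ ∀ z u : V (2 * m), ‖z‖ ≤ ρ →
    ∀ s, 0 < s → gs g z u s ≤ gz m κ u s := by
  obtain ⟨κ, hκ, h⟩ := qf_lower g ρ
  refine ⟨κ / 4, by positivity, fun z u hz s hs => ?_⟩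
  unfold gs gz
  have h1 : ((4 * π * s) ^ m)⁻¹ ≤ (s ^ m)⁻¹ := by
    refine inv_anti₀ (by positivity) (pow_le_pow_left₀ hs.le ?_ _)
    have := Real.pi_gt_three
    nlinarith
  refine mul_le_mul h1 (Real.exp_le_exp.2 (neg_le_neg ?_)) (Real.exp_pos _).le (by positivity)
  rw [div_le_div_iff₀ hs (by positivity)]
  have := h z u hz
  nlinarith

theorem kD_nonneg (κ : ℝ) (u : V (2 * m)) : 0 ≤ kD m κ u := by
  refine setIntegral_nonneg measurableSet_Ioi fun s hs => ?_
  exact mul_nonneg (Real.exp_pos _).le (gz_nonneg m κ u hs)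

theorem kG_nonneg (g : Geo (2 * m)) (x u : V (2 * m)) : 0 ≤ kG g x u := by
  refine setIntegral_nonneg measurableSet_Ioi fun s hs => ?_
  exact mul_nonneg (Real.exp_pos _).le (gs_pos g x u hs).le

theorem A03_int_gs (g : Geo (2 * m)) (x : V (2 * m)) {u : V (2 * m)} (hu : u ≠ 0) :
    IntegrableOn (fun s : ℝ => Real.exp (-s) * gs g x u s) (Set.Ioi 0) := by
  obtain ⟨κ, hκ, h⟩ := gs_le_gz g ‖x‖
  refine (integrableOn_gz hκ hu).mono' ?_ ?_
  · exact ((Real.continuous_exp.comp continuous_neg).continuousOn.mul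
      (A03_contOn_gs g x u)).aestronglyMeasurable measurableSet_Ioi
  · refine (ae_restrict_iff' measurableSet_Ioi).2 (Filter.Eventually.of_forall fun s hs => ?_)
    have h2 := gs_pos g x u hs
    rw [Real.norm_of_nonneg (mul_nonneg (Real.exp_pos _).le h2.le)]
    exact mul_le_mul_of_nonneg_left (h x u le_rfl s hs) (Real.exp_pos _).le

theorem kG_pos (g : Geo (2 * m)) (x : V (2 * m)) {u : V (2 * m)} (hu : u ≠ 0) : 0 < kG g x u := by
  unfold kG
  rw [setIntegral_pos_iff_support_of_nonneg_ae]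
  · have h : Set.Ioi (0 : ℝ) ⊆ Function.support (fun s : ℝ => Real.exp (-s) * gs g x u s) := by
      intro s hs
      exact (mul_pos (Real.exp_pos _) (gs_pos g x u hs)).ne'
    rw [Set.inter_eq_right.2 h]
    simp
  · refine (ae_restrict_iff' measurableSet_Ioi).2 (Filter.Eventually.of_forall fun s hs => ?_)
    exact mul_nonneg (Real.exp_pos _).le (gs_pos g x u hs).le
  · exact A03_int_gs g x hu

/-! ### scaling -/

theorem gz_scale (κ : ℝ) (u : V (2 * m)) {t s : ℝ} (ht : 0 < t) (hs : 0 < s) :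
    t ^ (2 * m) * gz m κ (t • u) (t ^ 2 * s) = gz m κ u s := by
  unfold gz
  rw [norm_smul, Real.norm_of_nonneg ht.le, mul_pow, ← pow_mul]
  have h1 : κ * (t * ‖u‖) ^ 2 / (t ^ 2 * s) = κ * ‖u‖ ^ 2 / s := by
    field_simp
  rw [h1]
  field_simp

theorem gs_scale (g : Geo (2 * m)) (x u : V (2 * m)) {t s : ℝ} (ht : 0 < t) (hs : 0 < s) :
    t ^ (2 * m) * gs g x (t • u) (t ^ 2 * s) = gs g x u s := by
  unfold gs
  rw [qf_smul, show 4 * π * (t ^ 2 * s) = t ^ 2 * (4 * π * s) by ring, mul_pow (t ^ 2), ← pow_mul]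
  have h1 : t ^ 2 * qf g x u / (4 * (t ^ 2 * s)) = qf g x u / (4 * s) := by
    field_simp
  have h3 : t ^ (2 * m) ≠ 0 := by positivity
  rw [h1, mul_inv, mul_assoc, mul_inv_cancel_left₀ h3]

end Pool.Agent.Lib.MP_df705a_gt.RL
end
end

section

/-!
# SV, block A: the dominating kernel is in `L^p`, `p = (2m+1)/(2m)`
-/

open scoped ContDiff InnerProductSpace Matrix Topology Real ENNReal
open MeasureTheory Filter

noncomputable section

set_option linter.unusedSectionVars false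

namespace Pool.Agent.Lib.MP_df705a_gt.RL

variable {m : ℕ}

theorem measurable_kD (m : ℕ) (κ : ℝ) : Measurable (kD m κ) := by
  have h1 : Measurable fun q : V (2 * m) × ℝ => Real.exp (-q.2) * gz m κ q.1 q.2 := by
    unfold gz
    have h2 : Measurable fun q : V (2 * m) × ℝ => ‖q.1‖ := measurable_norm.comp measurable_fst
    exact (Real.measurable_exp.comp measurable_snd.neg).mul
      ((measurable_snd.pow_const m).inv.mul
        (Real.measurable_exp.comp (((h2.pow_const 2).const_mul κ).div measurable_snd).neg))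
  exact (h1.stronglyMeasurable.integral_prod_right').measurable

/-- `x^(m-1/2) exp(-x)` is bounded. -/
theorem A05_exp1 (hm : 0 < m) {x : ℝ} (hx : 0 < x) :
    Real.exp (-x) ≤ (1 + m.factorial : ℝ) * √x / x ^ m := by
  have h1 := A03_exp_neg_le hx m
  have hxm : 0 < x ^ m := by positivity
  have hs : 0 < √x := Real.sqrt_pos.2 hx
  rcases le_total 1 x with h | h
  · refine h1.trans ?_
    gcongr
    have h2 : 1 ≤ √x := by
      rw [← Real.sqrt_one]
      exact Real.sqrt_le_sqrt h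
    have h3 : (0 : ℝ) ≤ m.factorial := by positivity
    nlinarith
  · rw [le_div_iff₀ hxm]
    have h2 : x ^ m ≤ √x := by
      calc x ^ m ≤ x ^ 1 := pow_le_pow_of_le_one hx.le h hm
        _ = √x * √x := by rw [pow_one, Real.mul_self_sqrt hx.le]
        _ ≤ √x * 1 := by
            gcongr
            rw [← Real.sqrt_one]
            exact Real.sqrt_le_sqrt h
        _ = √x := mul_one _
    have h3 : Real.exp (-x) ≤ 1 := Real.exp_le_one_iff.2 (by linarith)
    have h4 : (0 : ℝ) ≤ m.factorial := by positivity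
    have h5 : Real.exp (-x) * x ^ m ≤ 1 * √x := by gcongr
    nlinarith

theorem A05_gamma_half : IntegrableOn (fun s : ℝ => Real.exp (-s) * (√s)⁻¹) (Set.Ioi 0) := by
  have h := Real.GammaIntegral_convergent (s := 1 / 2) (by norm_num)
  refine h.congr_fun (fun s hs => ?_) measurableSet_Ioi
  have hs' : (0 : ℝ) < s := hs
  simp only
  congr 1
  rw [Real.sqrt_eq_rpow, ← Real.rpow_neg hs'.le]
  norm_num

theorem A05_gamma_two : IntegrableOn (fun s : ℝ => Real.exp (-s) * s) (Set.Ioi 0) := by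
  have h := Real.GammaIntegral_convergent (s := 2) (by norm_num)
  refine h.congr_fun (fun s hs => ?_) measurableSet_Ioi
  simp only
  norm_num

/-- Near zero. -/
theorem kD_le_near (hm : 0 < m) {κ : ℝ} (hκ : 0 < κ) : ∃ c : ℝ, 0 ≤ c ∧ ∀ u : V (2 * m), u ≠ 0 →
    kD m κ u ≤ c * ‖u‖ ^ (-(2 * m - 1 : ℝ)) := by
  refine ⟨(1 + m.factorial : ℝ) * √κ / κ ^ m *
    ∫ s in Set.Ioi (0 : ℝ), Real.exp (-s) * (√s)⁻¹, ?_, fun u hu => ?_⟩
  · refine mul_nonneg (by positivity) (setIntegral_nonneg measurableSet_Ioi fun s _ => by positivity)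
  · have hn : 0 < ‖u‖ := norm_pos_iff.2 hu
    have h1 : kD m κ u ≤ ∫ s in Set.Ioi (0 : ℝ),
        ((1 + m.factorial : ℝ) * √κ / κ ^ m * ‖u‖ ^ (-(2 * m - 1 : ℝ))) *
          (Real.exp (-s) * (√s)⁻¹) := by
      refine setIntegral_mono_on (integrableOn_gz hκ hu) (A05_gamma_half.const_mul _)
        measurableSet_Ioi fun s hs => ?_
      have hs' : (0 : ℝ) < s := hs
      have h2 := A05_exp1 hm (x := κ * ‖u‖ ^ 2 / s) (by positivity)
      have h3 : (s ^ m)⁻¹ * ((1 + m.factorial : ℝ) * √(κ * ‖u‖ ^ 2 / s) / (κ * ‖u‖ ^ 2 / s) ^ m)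
          = ((1 + m.factorial : ℝ) * √κ / κ ^ m * ‖u‖ ^ (-(2 * m - 1 : ℝ))) * (√s)⁻¹ := by
        rw [Real.sqrt_div (by positivity), Real.sqrt_mul hκ.le, Real.sqrt_sq hn.le, div_pow,
          mul_pow, ← pow_mul, neg_sub, Real.rpow_sub hn, Real.rpow_one,
          show (2 * m : ℝ) = ((2 * m : ℕ) : ℝ) by push_cast; ring, Real.rpow_natCast]
        have h4 : √s ≠ 0 := (Real.sqrt_pos.2 hs').ne'
        field_simp
      calc Real.exp (-s) * gz m κ u s
          = Real.exp (-s) * ((s ^ m)⁻¹ * Real.exp (-(κ * ‖u‖ ^ 2 / s))) := rfl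
        _ ≤ Real.exp (-s) * ((s ^ m)⁻¹ *
              ((1 + m.factorial : ℝ) * √(κ * ‖u‖ ^ 2 / s) / (κ * ‖u‖ ^ 2 / s) ^ m)) := by gcongr
        _ = _ := by rw [h3]; ring
    rw [integral_const_mul] at h1
    refine h1.trans (le_of_eq ?_)
    ring

/-- At infinity. -/
theorem kD_le_far {κ : ℝ} (hκ : 0 < κ) : ∃ c : ℝ, 0 ≤ c ∧ ∀ u : V (2 * m), u ≠ 0 →
    kD m κ u ≤ c * ‖u‖ ^ (-(2 * m + 2 : ℝ)) := by
  refine ⟨((m + 1).factorial : ℝ) / κ ^ (m + 1) *
    ∫ s in Set.Ioi (0 : ℝ), Real.exp (-s) * s, ?_, fun u hu => ?_⟩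
  · refine mul_nonneg (by positivity) (setIntegral_nonneg measurableSet_Ioi fun s hs => ?_)
    have : (0 : ℝ) < s := hs
    positivity
  · have hn : 0 < ‖u‖ := norm_pos_iff.2 hu
    have h1 : kD m κ u ≤ ∫ s in Set.Ioi (0 : ℝ),
        (((m + 1).factorial : ℝ) / κ ^ (m + 1) * ‖u‖ ^ (-(2 * m + 2 : ℝ))) *
          (Real.exp (-s) * s) := by
      refine setIntegral_mono_on (integrableOn_gz hκ hu) (A05_gamma_two.const_mul _)
        measurableSet_Ioi fun s hs => ?_
      have hs' : (0 : ℝ) < s := hs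
      have h2 := A03_exp_neg_le (x := κ * ‖u‖ ^ 2 / s) (by positivity) (m + 1)
      have h3 : (s ^ m)⁻¹ * (((m + 1).factorial : ℝ) / (κ * ‖u‖ ^ 2 / s) ^ (m + 1))
          = (((m + 1).factorial : ℝ) / κ ^ (m + 1) * ‖u‖ ^ (-(2 * m + 2 : ℝ))) * s := by
        rw [Real.rpow_neg hn.le, show (2 * m + 2 : ℝ) = ((2 * (m + 1) : ℕ) : ℝ) by push_cast; ring,
          Real.rpow_natCast, div_pow, mul_pow, ← pow_mul]
        field_simp
        rw [pow_succ]
      calc Real.exp (-s) * gz m κ u s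
          = Real.exp (-s) * ((s ^ m)⁻¹ * Real.exp (-(κ * ‖u‖ ^ 2 / s))) := rfl
        _ ≤ Real.exp (-s) * ((s ^ m)⁻¹ *
              (((m + 1).factorial : ℝ) / (κ * ‖u‖ ^ 2 / s) ^ (m + 1))) := by gcongr
        _ = _ := by rw [h3]; ring
    rw [integral_const_mul] at h1
    refine h1.trans (le_of_eq ?_)
    ring

/-- The exponent. -/
def pA (m : ℕ) : ℝ := (2 * m + 1) / (2 * m)

theorem one_le_pA (hm : 0 < m) : 1 ≤ pA m := by
  have : (0 : ℝ) < m := by exact_mod_cast hm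
  rw [pA, le_div_iff₀ (by positivity)]
  linarith

theorem integrable_kD_pow (hm : 0 < m) {κ : ℝ} (hκ : 0 < κ) :
    Integrable (fun u : V (2 * m) => kD m κ u ^ pA m) := by
  have hm' : (1 : ℝ) ≤ m := by exact_mod_cast hm
  have hp := one_le_pA hm
  have hp0 : 0 ≤ pA m := by linarith
  have hmeas : AEStronglyMeasurable (fun u : V (2 * m) => kD m κ u ^ pA m) volume :=
    ((measurable_kD m κ).pow_const _).aestronglyMeasurable
  obtain ⟨c₁, h10, h1⟩ := kD_le_near hm hκ
  obtain ⟨c₂, h20, h2⟩ := kD_le_far (m := m) hκ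
  have hne : ∀ᵐ u : V (2 * m), u ≠ 0 := by
    have : Nontrivial (V (2 * m)) := by
      apply Module.nontrivial_of_finrank_pos (R := ℝ)
      rw [finrank_euclideanSpace_fin]
      omega
    exact Measure.ae_ne volume 0
  have hA : IntegrableOn (fun u : V (2 * m) => kD m κ u ^ pA m) (Metric.ball 0 1) := by
    refine integrableOn_ball_of_norm_le_rpow (C := c₁ ^ pA m) (α := (2 * m - 1) * pA m) ?_ ?_ ?_ hmeas
    · rw [finrank_euclideanSpace_fin]
      omega
    · rw [finrank_euclideanSpace_fin, pA]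
      push_cast
      rw [← mul_div_assoc, div_lt_iff₀ (by positivity)]
      nlinarith
    · refine ae_restrict_of_ae (hne.mono fun u hu => ?_)
      have h3 := kD_nonneg κ u
      rw [Real.norm_of_nonneg (Real.rpow_nonneg h3 _)]
      calc kD m κ u ^ pA m ≤ (c₁ * ‖u‖ ^ (-(2 * m - 1 : ℝ))) ^ pA m :=
            Real.rpow_le_rpow h3 (h1 u hu) hp0
        _ = c₁ ^ pA m * ‖u‖ ^ (-((2 * m - 1) * pA m)) := by
            rw [Real.mul_rpow h10 (Real.rpow_nonneg (norm_nonneg _) _), ← Real.rpow_mul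
              (norm_nonneg _), neg_mul]
  have hB : IntegrableOn (fun u : V (2 * m) => kD m κ u ^ pA m) (Metric.ball 0 1)ᶜ := by
    have h4 : Integrable fun u : V (2 * m) => (c₂ ^ pA m * 2 ^ (2 * m + 2 : ℝ)) *
        (1 + ‖u‖) ^ (-(2 * m + 2 : ℝ)) := by
      refine (integrable_one_add_norm ?_).const_mul _
      rw [finrank_euclideanSpace_fin]
      push_cast
      linarith
    refine h4.integrableOn.mono' hmeas.restrict ?_
    refine (ae_restrict_iff' Metric.isOpen_ball.measurableSet.compl).2 (hne.mono fun u hu hmem => ?_)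
    have h3 := kD_nonneg κ u
    have h5 : 1 ≤ ‖u‖ := by simpa [Metric.mem_ball] using hmem
    have hn : 0 < ‖u‖ := by linarith
    rw [Real.norm_of_nonneg (Real.rpow_nonneg h3 _)]
    calc kD m κ u ^ pA m ≤ (c₂ * ‖u‖ ^ (-(2 * m + 2 : ℝ))) ^ pA m :=
          Real.rpow_le_rpow h3 (h2 u hu) hp0
      _ = c₂ ^ pA m * ‖u‖ ^ (-((2 * m + 2) * pA m)) := by
          rw [Real.mul_rpow h20 (Real.rpow_nonneg (norm_nonneg _) _), ← Real.rpow_mul
            (norm_nonneg _), neg_mul]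
      _ ≤ c₂ ^ pA m * (2 ^ (2 * m + 2 : ℝ) * (1 + ‖u‖) ^ (-(2 * m + 2 : ℝ))) := by
          gcongr
          calc ‖u‖ ^ (-((2 * m + 2) * pA m)) ≤ ‖u‖ ^ (-(2 * m + 2 : ℝ)) := by
                refine Real.rpow_le_rpow_of_exponent_le h5 (neg_le_neg ?_)
                nlinarith
            _ = 2 ^ (2 * m + 2 : ℝ) * (2 * ‖u‖) ^ (-(2 * m + 2 : ℝ)) := by
                rw [Real.mul_rpow (by norm_num) hn.le, ← mul_assoc, Real.rpow_neg (by norm_num : (0:ℝ) ≤ 2),
                  mul_inv_cancel₀ (by positivity), one_mul]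
            _ ≤ 2 ^ (2 * m + 2 : ℝ) * (1 + ‖u‖) ^ (-(2 * m + 2 : ℝ)) := by
                gcongr ?_ * ?_
                refine Real.rpow_le_rpow_of_nonpos (by positivity) (by linarith) (by linarith)
      _ = _ := by ring
  have h6 := hA.union hB
  rwa [Set.union_compl_self, integrableOn_univ] at h6

end Pool.Agent.Lib.MP_df705a_gt.RL
end
end

section

/-!
# SV, block A: cyclic products of the dominating kernel are integrable
-/

open scoped ContDiff InnerProductSpace Matrix Topology Real ENNReal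
open MeasureTheory Filter

noncomputable section

set_option linter.unusedSectionVars false

namespace Pool.Agent.Lib.MP_df705a_gt.RL

open Pool.Agent.Lib.MP_df705a_gt.SV (lint_peel meas_pair cyc_holder)

variable {m : ℕ}

section general

variable {X : Type*} [MeasurableSpace X] {μ : Measure X} [SigmaFinite μ]

/-- integrating the variables `x_1, …, x_n` first -/
theorem lint_cons {n : ℕ} {f : (Fin (n + 1) → X) → ℝ≥0∞} (hf : Measurable f) :
    ∫⁻ x, f x ∂(Measure.pi fun _ => μ) =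
      ∫⁻ t, ∫⁻ y : Fin n → X, f (Fin.cons t y) ∂(Measure.pi fun _ => μ) ∂μ := by
  have h1 := (measurePreserving_piFinSuccAbove (fun _ : Fin (n + 1) => μ) 0).symm
  have h2 := h1.lintegral_comp hf
  rw [← h2]
  have h3 : Measurable fun a => f ((MeasurableEquiv.piFinSuccAbove (fun _ : Fin (n + 1) => X) 0).symm a) :=
    hf.comp (MeasurableEquiv.measurable _)
  rw [lintegral_prod _ h3.aemeasurable]
  refine lintegral_congr fun t => lintegral_congr fun y => ?_
  congr 1
  exact Fin.insertNth_zero' t y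

theorem lintegral_fin_prod : ∀ (n : ℕ) (f : Fin n → X → ℝ≥0∞), (∀ j, Measurable (f j)) →
    ∫⁻ x : Fin n → X, ∏ j, f j (x j) ∂(Measure.pi fun _ => μ) = ∏ j, ∫⁻ y, f j y ∂μ := by
  intro n
  induction n with
  | zero =>
    intro f _
    simp
  | succ n ih =>
    intro f hf
    have hm : Measurable fun x : Fin (n + 1) → X => ∏ j, f j (x j) :=
      Finset.measurable_fun_prod _ fun j _ => (hf j).comp (measurable_pi_apply j)
    rw [lint_cons hm]
    have h1 : ∀ t (y : Fin n → X), ∏ j, f j ((Fin.cons t y : Fin (n + 1) → X) j)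
        = f 0 t * ∏ j : Fin n, f j.succ (y j) := by
      intro t y
      rw [Fin.prod_univ_succ]
      simp
    have h2 : ∀ t, ∫⁻ y : Fin n → X, ∏ j, f j ((Fin.cons t y : Fin (n + 1) → X) j)
        ∂(Measure.pi fun _ => μ) = f 0 t * ∏ j : Fin n, ∫⁻ y, f j.succ y ∂μ := by
      intro t
      simp only [h1]
      rw [lintegral_const_mul _ (Finset.measurable_fun_prod _ fun j _ =>
        (hf j.succ).comp (measurable_pi_apply j)), ih _ fun j => hf _]
    rw [lintegral_congr h2, lintegral_mul_const _ (hf 0), Fin.prod_univ_succ]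

end general

/-- The product of the Riemannian measures has the product density. -/
theorem pi_vol {N : ℕ} (g : Geo N) (n : ℕ) : Measure.pi (fun _ : Fin n => g.vol)
    = (volume : Measure (Fin n → V N)).withDensity
      fun x => ∏ j, ENNReal.ofReal (g.θ (x j)).det := by
  have hd : Measurable fun y => ENNReal.ofReal (g.θ y).det :=
    g.continuous_det.measurable.ennreal_ofReal
  have : SigmaFinite g.vol := by
    unfold Geo.vol
    infer_instance
  refine Measure.pi_eq fun s hs => ?_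
  have hS : MeasurableSet (Set.univ.pi s) := MeasurableSet.univ_pi hs
  rw [withDensity_apply _ hS, ← lintegral_indicator hS]
  have h1 : ∀ x : Fin n → V N, (Set.univ.pi s).indicator
      (fun x => ∏ j, ENNReal.ofReal (g.θ (x j)).det) x
      = ∏ j, (s j).indicator (fun y => ENNReal.ofReal (g.θ y).det) (x j) := by
    intro x
    by_cases hx : x ∈ Set.univ.pi s
    · rw [Set.indicator_of_mem hx]
      refine Finset.prod_congr rfl fun j _ => ?_
      rw [Set.indicator_of_mem (hx j (Set.mem_univ j))]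
    · rw [Set.indicator_of_notMem hx]
      rw [Set.mem_univ_pi] at hx
      push Not at hx
      obtain ⟨j, hj⟩ := hx
      exact (Finset.prod_eq_zero (Finset.mem_univ j) (Set.indicator_of_notMem hj _)).symm
  rw [lintegral_congr h1, volume_pi, lintegral_fin_prod n
    (fun j => (s j).indicator (fun y => ENNReal.ofReal (g.θ y).det)) fun j => hd.indicator (hs j)]
  refine Finset.prod_congr rfl fun j _ => ?_
  rw [lintegral_indicator (hs j), Geo.vol, withDensity_apply _ (hs j)]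

/-! ### cyclic products -/

/-- The positions `0, w_1, …, w_N`. -/
def cW {N : ℕ} (w : Fin N → V N) : Fin (N + 1) → V N := Fin.cons 0 w

/-- The cyclic product of the dominating kernels. -/
def cD (m : ℕ) (κ : ℝ) (w : Fin (2 * m) → V (2 * m)) : ℝ :=
  ∏ j : Fin (2 * m + 1), kD m κ (cW w (j + 1) - cW w j)

theorem cD_nonneg (κ : ℝ) (w : Fin (2 * m) → V (2 * m)) : 0 ≤ cD m κ w :=
  Finset.prod_nonneg fun _ _ => kD_nonneg _ _

theorem measurable_cW {N : ℕ} (j : Fin (N + 1)) : Measurable fun w : Fin N → V N => cW w j := by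
  unfold cW
  refine Fin.cases ?_ (fun i => ?_) j
  · simp
  · simp only [Fin.cons_succ]
    exact measurable_pi_apply i

theorem measurable_cD (m : ℕ) (κ : ℝ) : Measurable (cD m κ) := by
  unfold cD
  exact Finset.measurable_fun_prod _ fun j _ => (measurable_kD m κ).comp
    ((measurable_cW _).sub (measurable_cW _))

theorem integrable_cD (hm : 0 < m) {κ : ℝ} (hκ : 0 < κ) : Integrable (cD m κ) := by
  have hp := one_le_pA hm
  have hp0 : 0 < pA m := by linarith
  obtain ⟨K, hK⟩ : ∃ K : V (2 * m) → V (2 * m) → ℝ≥0∞, K = fun x y =>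
      ENNReal.ofReal (kD m κ (y - x)) := ⟨_, rfl⟩
  obtain ⟨I, hI⟩ : ∃ I : ℝ≥0∞, I = ∫⁻ u : V (2 * m), ENNReal.ofReal (kD m κ u) ^ pA m := ⟨_, rfl⟩
  have hIfin : I < ⊤ := by
    have h1 := (integrable_kD_pow hm hκ).lintegral_lt_top
    rw [hI]
    refine lt_of_le_of_lt (le_of_eq (lintegral_congr fun u => ?_)) h1
    exact ENNReal.ofReal_rpow_of_nonneg (kD_nonneg κ u) hp0.le
  have hmK : Measurable (Function.uncurry K) := by
    rw [hK]
    exact ((measurable_kD m κ).comp (measurable_snd.sub measurable_fst)).ennreal_ofReal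
  have hC : (I ^ (1 / pA m)) ^ pA m = I := by
    rw [← ENNReal.rpow_mul, one_div_mul_cancel hp0.ne', ENNReal.rpow_one]
  have hrow : ∀ x, ∫⁻ y, K x y ^ pA m = I := by
    intro x
    rw [hI, hK]
    exact lintegral_sub_right_eq_self (fun u => ENNReal.ofReal (kD m κ u) ^ pA m) x
  have hcol : ∀ y, ∫⁻ x, K x y ^ pA m = I := by
    intro y
    rw [hI, hK]
    exact lintegral_sub_left_eq_self (fun u => ENNReal.ofReal (kD m κ u) ^ pA m) y
  have hs : ∑ _j : Fin (2 * m + 1), (1 - 1 / pA m) = 1 := by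
    have : (0 : ℝ) < m := by exact_mod_cast hm
    rw [Finset.sum_const, Finset.card_univ, Fintype.card_fin, nsmul_eq_mul, pA]
    push_cast
    field_simp
    ring
  have h1 := cyc_holder (μ := (volume : Measure (V (2 * m)))) (n := 2 * m) (fun _ => K)
    (fun _ => pA m) (fun _ => I ^ (1 / pA m)) (fun _ => hmK) (fun _ => hp) hs
    (fun _ => Filter.Eventually.of_forall fun x => by rw [hrow, hC])
    (fun _ => Filter.Eventually.of_forall fun y => by rw [hcol, hC]) 0
    ((Metric.ball (0 : V (2 * m)) 1).indicator 1) (measurable_one.indicator measurableSet_ball)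
  -- the left hand side is `vol(ball) * D₀`
  obtain ⟨D₀, hD₀⟩ : ∃ D₀ : ℝ≥0∞, D₀ = ∫⁻ w : Fin (2 * m) → V (2 * m), ENNReal.ofReal (cD m κ w) :=
    ⟨_, rfl⟩
  have h2 : ∀ (t : V (2 * m)), ∫⁻ y : Fin (2 * m) → V (2 * m),
      ∏ j : Fin (2 * m + 1), K ((Fin.cons t y : Fin (2 * m + 1) → V (2 * m)) j)
        ((Fin.cons t y : Fin (2 * m + 1) → V (2 * m)) (j + 1)) = D₀ := by
    intro t
    rw [hD₀, ← lintegral_sub_right_eq_self (fun w : Fin (2 * m) → V (2 * m) =>
      ENNReal.ofReal (cD m κ w)) (fun _ => t)]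
    refine lintegral_congr fun y => ?_
    rw [cD, ENNReal.ofReal_prod_of_nonneg fun _ _ => kD_nonneg _ _]
    refine Finset.prod_congr rfl fun j _ => ?_
    rw [hK]
    show ENNReal.ofReal (kD m κ ((Fin.cons t y : Fin (2 * m + 1) → V (2 * m)) (j + 1)
      - (Fin.cons t y : Fin (2 * m + 1) → V (2 * m)) j)) = _
    have h3 : ∀ i, cW (y - fun _ => t) i
        = (Fin.cons t y : Fin (2 * m + 1) → V (2 * m)) i - t := by
      intro i
      unfold cW
      refine Fin.cases ?_ (fun i => ?_) i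
      · simp
      · simp
    rw [h3, h3, sub_sub_sub_cancel_right]
  have hmeas : Measurable fun x : Fin (2 * m + 1) → V (2 * m) =>
      (Metric.ball (0 : V (2 * m)) 1).indicator (1 : V (2 * m) → ℝ≥0∞) (x 0)
        * ∏ j, K (x j) (x (j + 1)) := by
    refine ((measurable_one.indicator measurableSet_ball).comp (measurable_pi_apply 0)).mul
      (Finset.measurable_fun_prod _ fun j _ => meas_pair hmK _ _)
  rw [lint_cons hmeas] at h1
  have h4 : ∫⁻ t : V (2 * m), ∫⁻ y : Fin (2 * m) → V (2 * m),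
      (Metric.ball (0 : V (2 * m)) 1).indicator (1 : V (2 * m) → ℝ≥0∞)
        ((Fin.cons t y : Fin (2 * m + 1) → V (2 * m)) 0)
        * ∏ j, K ((Fin.cons t y : Fin (2 * m + 1) → V (2 * m)) j)
          ((Fin.cons t y : Fin (2 * m + 1) → V (2 * m)) (j + 1))
        ∂(Measure.pi fun _ => volume)
      = (∫⁻ t : V (2 * m), (Metric.ball (0 : V (2 * m)) 1).indicator (1 : V (2 * m) → ℝ≥0∞) t)
        * D₀ := by
    rw [← lintegral_mul_const _ (measurable_one.indicator measurableSet_ball)]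
    refine lintegral_congr fun t => ?_
    rw [← h2 t]
    simp only [Fin.cons_zero]
    rw [← volume_pi, lintegral_const_mul]
    refine Finset.measurable_fun_prod _ fun j _ => ?_
    have h5 : ∀ i, Measurable fun y : Fin (2 * m) → V (2 * m) =>
        (Fin.cons t y : Fin (2 * m + 1) → V (2 * m)) i := by
      intro i
      refine Fin.cases ?_ (fun i => ?_) i
      · simp
      · simp only [Fin.cons_succ]
        exact measurable_pi_apply i
    exact hmK.comp ((h5 j).prodMk (h5 (j + 1)))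
  rw [h4] at h1
  have h5 : (∫⁻ t : V (2 * m), (Metric.ball (0 : V (2 * m)) 1).indicator
      (1 : V (2 * m) → ℝ≥0∞) t) = volume (Metric.ball (0 : V (2 * m)) 1) := by
    rw [lintegral_indicator_one measurableSet_ball]
  rw [h5] at h1
  have h6 : volume (Metric.ball (0 : V (2 * m)) 1) ≠ 0 :=
    (Metric.measure_ball_pos volume _ one_pos).ne'
  have h7 : volume (Metric.ball (0 : V (2 * m)) 1) ≠ ⊤ := measure_ball_lt_top.ne
  have h8 : D₀ < ⊤ := by
    have h9 : volume (Metric.ball (0 : V (2 * m)) 1) * D₀ < ⊤ := by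
      refine lt_of_le_of_lt h1 (ENNReal.mul_lt_top h7.lt_top (ENNReal.prod_lt_top fun j _ => ?_))
      exact ENNReal.rpow_lt_top_of_nonneg (by positivity) hIfin.ne
    by_contra h
    rw [not_lt, top_le_iff] at h
    rw [h, ENNReal.mul_top h6] at h9
    exact lt_irrefl _ h9
  refine ⟨(measurable_cD m κ).aestronglyMeasurable, ?_⟩
  rw [hasFiniteIntegral_iff_ofReal (Filter.Eventually.of_forall fun w => cD_nonneg κ w), ← hD₀]
  exact h8

end Pool.Agent.Lib.MP_df705a_gt.RL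
end
end

section

/-!
# SV, block A: the change of variables `x_j = x_0 + t w_j`
-/

open scoped ContDiff InnerProductSpace Matrix Topology Real ENNReal
open MeasureTheory Filter

noncomputable section

set_option linter.unusedSectionVars false

namespace Pool.Agent.Lib.MP_df705a_gt.RL

variable {m N : ℕ}

/-- The points `x_0 + t w_j`. -/
def cX (t : ℝ) (p : V N × (Fin N → V N)) (j : Fin (N + 1)) : V N := p.1 + t • cW p.2 j

/-- The change of variables. -/
theorem integral_cyc {E : Type*} [NormedAddCommGroup E] [NormedSpace ℝ E]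
    (f : (Fin (N + 1) → V N) → E) (hf : AEStronglyMeasurable f volume) {t : ℝ} (ht : 0 < t) :
    ∫ x, f x = t ^ (N * N) • ∫ p : V N × (Fin N → V N), f (cX t p) := by
  obtain ⟨c, hc⟩ : ∃ c : ℝ≥0∞, c = ENNReal.ofReal (t ^ (N * N)) := ⟨_, rfl⟩
  have ht' : t ^ (N * N) ≠ 0 := by positivity
  have hS : MeasurePreserving (fun p : V N × (Fin N → V N) => (p.1, fun i => p.1 + t • p.2 i))
      ((volume : Measure (V N)).prod (c • (volume : Measure (Fin N → V N))))
      ((volume : Measure (V N)).prod (volume : Measure (Fin N → V N))) := by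
    refine MeasurePreserving.skew_product (f := id)
      (g := fun (a : V N) (w : Fin N → V N) (i : Fin N) => a + t • w i) (MeasurePreserving.id _)
      ?_ (Filter.Eventually.of_forall fun a => ?_)
    · exact measurable_pi_lambda _ fun i => measurable_fst.add
        (((measurable_pi_apply i).comp measurable_snd).const_smul t)
    · have h1 : (fun (w : Fin N → V N) (i : Fin N) => a + t • w i)
          = (fun w : Fin N → V N => (fun _ => a) + w) ∘ (fun w : Fin N → V N => t • w) := by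
        funext w i
        rfl
      rw [Measure.map_smul, h1, ← Measure.map_map (measurable_const_add _)
        (measurable_const_smul t), Measure.map_addHaar_smul _ ht.ne', Measure.map_smul,
        (measurePreserving_add_left volume (fun _ : Fin N => a)).map_eq, smul_smul, hc,
        ← ENNReal.ofReal_mul (by positivity)]
      have h2 : t ^ (N * N) * |(t ^ Module.finrank ℝ (Fin N → V N))⁻¹| = 1 := by
        rw [Module.finrank_pi_fintype]
        simp only [finrank_euclideanSpace_fin, Finset.sum_const, Finset.card_univ,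
          Fintype.card_fin, smul_eq_mul]
        rw [abs_of_pos (by positivity), mul_inv_cancel₀ ht']
      rw [h2, ENNReal.ofReal_one, one_smul]
  have he := (measurePreserving_piFinSuccAbove (fun _ : Fin (N + 1) => (volume : Measure (V N)))
    0).symm
  have h1 : ∫ x, f x = ∫ p : V N × (Fin N → V N), f (Fin.cons p.1 p.2) := by
    have h2 := he.integral_comp' f
    rw [← volume_pi, ← volume_pi] at h2
    rw [← h2]
    refine integral_congr_ae (Filter.Eventually.of_forall fun p => ?_)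
    show f (Fin.insertNth 0 p.1 p.2) = _
    rw [Fin.insertNth_zero']
  have hfc : AEStronglyMeasurable (fun p : V N × (Fin N → V N) =>
      f (Fin.cons p.1 p.2 : Fin (N + 1) → V N)) (volume.prod volume) := by
    have h3 := hf.comp_measurePreserving he
    rw [← volume_pi] at h3
    refine h3.congr (Filter.Eventually.of_forall fun p => ?_)
    show f (Fin.insertNth 0 p.1 p.2) = _
    rw [Fin.insertNth_zero']
  have h4 : ∫ p : V N × (Fin N → V N), f (Fin.cons p.1 p.2 : Fin (N + 1) → V N)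
      = ∫ p : V N × (Fin N → V N), f (cX t p)
          ∂((volume : Measure (V N)).prod (c • (volume : Measure (Fin N → V N)))) := by
    have h5 := integral_map (μ := (volume : Measure (V N)).prod
      (c • (volume : Measure (Fin N → V N)))) hS.measurable.aemeasurable
      (f := fun p : V N × (Fin N → V N) => f (Fin.cons p.1 p.2 : Fin (N + 1) → V N))
      (by rw [hS.map_eq]; exact hfc)
    rw [hS.map_eq] at h5
    refine h5.trans (integral_congr_ae (Filter.Eventually.of_forall fun p => ?_))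
    show f (Fin.cons p.1 (fun i => p.1 + t • p.2 i)) = f (cX t p)
    congr 1
    funext j
    unfold cX cW
    refine Fin.cases ?_ (fun i => ?_) j
    · simp
    · simp
  have h6 : (volume : Measure (V N)).prod (c • (volume : Measure (Fin N → V N)))
      = c • (volume : Measure (V N)).prod (volume : Measure (Fin N → V N)) := by
    ext s hs
    rw [Measure.prod_apply hs, Measure.smul_apply, Measure.prod_apply hs, smul_eq_mul,
      ← lintegral_const_mul _ (measurable_measure_prodMk_left hs)]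
    rfl
  rw [h1, h4, h6, integral_smul_measure, hc, ENNReal.toReal_ofReal (by positivity)]
  rfl

end Pool.Agent.Lib.MP_df705a_gt.RL
end
end

section

/-!
# SV, L1b: the kernel `D q` is continuous
-/

open scoped ContDiff InnerProductSpace Matrix ENNReal NNReal Topology Real
open MeasureTheory Filter Set

noncomputable section

set_option linter.unusedSectionVars false

namespace Pool.Agent.Lib.MP_df705a_gt.SV

open Pool.Agent.Lib.MP_df705a_gt.RL

variable {m : ℕ}

theorem L1b_zs (T : En m) : (0 : ℂ) • T = 0 := by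
  ext u
  exact congrArg (fun w : Sp m => w _) (zero_smul ℂ (T u))

theorem L1b_sz (c : ℂ) : c • (0 : En m) = 0 := by
  ext u
  exact congrArg (fun w : Sp m => w _) (smul_zero (A := Sp m) c)

/-- PROOF. Far from `z` the cutoff `chi` vanishes (`chi_zero`), also its derivative (`pd_chi_zero`). -/
theorem dk0_zero (C : Cliff m) (g : Geo (2 * m)) (ρ r : ℝ) {z y : V (2 * m)} (h : 1 < ‖y - z‖) :
    dk0 C g ρ r z y = 0 := by
  have h0 : chi (y - z) = 0 := chi_zero h.le
  have h1 : ∀ μ : Fin (2 * m), pd μ (chi (N := 2 * m)) (y - z) = 0 := fun μ =>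
    (pd_chi_zero (Or.inr h) μ μ).1
  have hQ : Q0 C g ρ z r (y - z) = 0 := by
    unfold Q0 Op.Q
    rw [h0, Complex.ofReal_zero]
    exact L1b_zs _
  have hD : ∀ μ : Fin (2 * m), dQ0 C g ρ μ z r (y - z) = 0 := fun μ => by
    unfold dQ0
    rw [h0, h1, Complex.ofReal_zero]
    rw [L1b_zs, L1b_zs, add_zero]
  unfold dk0
  refine Finset.sum_eq_zero fun a _ => ?_
  rw [Finset.sum_eq_zero fun μ _ => ?_, mul_zero]
  rw [hD, hQ, mul_zero, add_zero]
  exact L1b_sz _

theorem L1b_continuousOn_dQ0 (C : Cliff m) (g : Geo (2 * m)) (ρ : ℝ) (μ : Fin (2 * m)) :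
    ContinuousOn (fun q : ℝ × V (2 * m) × V (2 * m) => dQ0 C g ρ μ q.2.1 q.1 q.2.2)
      {q | 0 < q.1} := by
  have hc : ContinuousOn (fun q : ℝ × V (2 * m) × V (2 * m) => ((chi q.2.2 : ℝ) : ℂ))
      {q | 0 < q.1} := (Op.P11_continuous_cast contDiff_chi.continuous).continuousOn
  have hc1 : ContinuousOn (fun q : ℝ × V (2 * m) × V (2 * m) =>
      ((pd μ (chi (N := 2 * m)) q.2.2 : ℝ) : ℂ)) {q | 0 < q.1} :=
    (Op.P11_continuous_cast (Op.P11_contDiff_pd contDiff_chi μ).continuous).continuousOn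
  have hU := Op.P11_continuousOn_U g (op0 C g ρ) (2 * m) 0 ()
  unfold dQ0
  exact (hc.smul (Op.P11_continuousOn_sqrtinv.smul (continuousOn_finsetSum _ fun n _ =>
      (Op.P11_continuousOn_sqrt n).smul (continuousOn_Wp g () _)))).add (hc1.smul hU)

theorem L1b_continuousOn_sub {F : ℝ × V (2 * m) × V (2 * m) → En m}
    (hF : ContinuousOn F {q | 0 < q.1}) :
    ContinuousOn (fun p : ℝ × V (2 * m) × V (2 * m) => F (p.1, p.2.1, p.2.2 - p.2.1))
      {p | 0 < p.1} := by
  have h4 : Continuous fun p : ℝ × V (2 * m) × V (2 * m) => (p.1, p.2.1, p.2.2 - p.2.1) :=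
    continuous_fst.prodMk ((continuous_fst.comp continuous_snd).prodMk
      ((continuous_snd.comp continuous_snd).sub (continuous_fst.comp continuous_snd)))
  exact hF.comp h4.continuousOn fun p hp => hp

/-- PROOF. Sums and products of continuous functions on `{0 < r}`: `chi`, `pd μ chi` are continuous (`contDiff_chi`),
`continuousOn_Wp` (RL/P08), composed with `(r, z, y) ↦ (r, z, y - z)`, `√r ≠ 0`; the coefficients `g.e`, `C.conn g 0 μ` are continuous
(`g.smooth_e`, `contDiff_conn`). See `Op.continuousOn_U`, `continuousOn_Q` (RL/P08, P11) and `P16_cont`, `continuousOn_kq` (RL/P16). -/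
theorem continuousOn_dk0 (C : Cliff m) (g : Geo (2 * m)) (ρ : ℝ) :
    ContinuousOn (fun p : ℝ × V (2 * m) × V (2 * m) => dk0 C g ρ p.1 p.2.1 p.2.2) {p | 0 < p.1} := by
  unfold dk0
  refine continuousOn_finsetSum _ fun a _ => continuousOn_const.mul
    (continuousOn_finsetSum _ fun μ _ => ?_)
  have hy : Continuous fun p : ℝ × V (2 * m) × V (2 * m) => p.2.2 :=
    continuous_snd.comp continuous_snd
  have he : ContinuousOn (fun p : ℝ × V (2 * m) × V (2 * m) => ((g.e p.2.2 μ a : ℝ) : ℂ))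
      {p | 0 < p.1} :=
    (Complex.continuous_ofReal.comp ((g.smooth_e μ a).continuous.comp hy)).continuousOn
  have hconn : ContinuousOn (fun p : ℝ × V (2 * m) × V (2 * m) => C.conn g 0 μ p.2.2)
      {p | 0 < p.1} := ((contDiff_conn C g isPot_zero μ).continuous.comp hy).continuousOn
  have hD := L1b_continuousOn_sub (L1b_continuousOn_dQ0 C g ρ μ)
  have hQ := L1b_continuousOn_sub ((op0 C g ρ).continuousOn_Q g (2 * m) 0 ()).1
  exact he.smul (hD.add (hconn.mul hQ))

end Pool.Agent.Lib.MP_df705a_gt.SV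
end
end

section

/-!
# SV, L2: definitions for the kernels at small `t`
-/

open scoped ContDiff InnerProductSpace Matrix ENNReal NNReal Topology
open MeasureTheory Filter Set

noncomputable section

namespace Pool.Agent.Lib.MP_df705a_gt.SV

open Pool.Agent.Lib.MP_df705a_gt.RL

/-- Bounds in `L^p` for the rows `x ∈ S` and for the columns of the restriction to `S`. -/
structure LB {X : Type*} [MeasurableSpace X] (μ : Measure X) (S : Set X) (p : ℝ)
    (K : X → X → ℝ≥0∞) (c : ℝ≥0) : Prop where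
  row : ∀ x ∈ S, ∫⁻ y, K x y ^ p ∂μ ≤ (c : ℝ≥0∞) ^ p
  col : ∀ y, ∫⁻ x in S, K x y ^ p ∂μ ≤ (c : ℝ≥0∞) ^ p

variable {m : ℕ}

/-- `∫_0^1 h(r) |f_r(z, y)| dr` -/
def mk (h : ℝ → ℝ) (f : ℝ → V (2 * m) → V (2 * m) → En m) (z y : V (2 * m)) : ℝ≥0∞ :=
  ∫⁻ r in Ioc (0 : ℝ) 1, ENNReal.ofReal (h r) * ‖f r z y‖ₑ

/-- `∫_0^1 h(r) f_r(z, y)^* dr` -/
def kk (h : ℝ → ℝ) (f : ℝ → V (2 * m) → V (2 * m) → En m) (z y : V (2 * m)) : En m :=
  ∫ r in Ioc (0 : ℝ) 1, (h r : ℂ) • adj (f r z y)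

/-- The time weights. -/
def hP (t r : ℝ) : ℝ := (t ^ 2)⁻¹ * Real.exp (-(r / t ^ 2))

/-- The time weights for `D q`. -/
def hB (t r : ℝ) : ℝ := t⁻¹ * Real.exp (-(r / t ^ 2))

/-- The time weights for the error. -/
def hE (t r : ℝ) : ℝ := Real.exp (-(r / t ^ 2))

variable {C : Cliff m} {g : Geo (2 * m)} {ρ c κ : ℝ}

/-- The local kernel of `(1 + t² D²)⁻¹`. -/
def kP (p : ParaD C g ρ c κ) (t : ℝ) : V (2 * m) → V (2 * m) → En m := kk (hP t) p.q

/-- The local kernel of `t D (1 + t² D²)⁻¹`. -/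
def kB (p : ParaD C g ρ c κ) (t : ℝ) : V (2 * m) → V (2 * m) → En m := kk (hB t) p.dq

/-- The error. -/
def kE (p : ParaD C g ρ c κ) (t : ℝ) (z y : V (2 * m)) : En m :=
  kk (hE t) p.e z y - (hE t 1 : ℂ) • adj (p.q 1 z y)

end Pool.Agent.Lib.MP_df705a_gt.SV
end
end

section

/-!
# SV, L2a2: measurability of the local kernels
-/

open scoped ContDiff InnerProductSpace Matrix ENNReal NNReal Topology Real
open MeasureTheory Filter Set

noncomputable section

set_option linter.unusedSectionVars false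

namespace Pool.Agent.Lib.MP_df705a_gt.SV

open Pool.Agent.Lib.MP_df705a_gt.RL

variable {m : ℕ}

private theorem L2a2_enorm {f : ℝ → V (2 * m) → V (2 * m) → En m}
    (hf : ContinuousOn (fun p : ℝ × V (2 * m) × V (2 * m) => f p.1 p.2.1 p.2.2) {p | 0 < p.1}) :
    Measurable ((Ioc (0 : ℝ) 1 ×ˢ (univ : Set (V (2 * m) × V (2 * m)))).indicator
      (fun p : ℝ × V (2 * m) × V (2 * m) => ‖f p.1 p.2.1 p.2.2‖ₑ)) := by
  classical
  have hs : MeasurableSet (Ioc (0 : ℝ) 1 ×ˢ (univ : Set (V (2 * m) × V (2 * m)))) :=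
    measurableSet_Ioc.prod MeasurableSet.univ
  have hsub : Ioc (0 : ℝ) 1 ×ˢ (univ : Set (V (2 * m) × V (2 * m))) ⊆
      {p : ℝ × V (2 * m) × V (2 * m) | 0 < p.1} := fun p hp => hp.1.1
  rw [← Set.piecewise_eq_indicator]
  exact ContinuousOn.measurable_piecewise ((hf.mono hsub).enorm) continuousOn_const hs

private theorem L2a2_int {h : ℝ → ℝ} (hh : Continuous h)
    {f : ℝ → V (2 * m) → V (2 * m) → En m}
    (hf : ContinuousOn (fun p : ℝ × V (2 * m) × V (2 * m) => f p.1 p.2.1 p.2.2) {p | 0 < p.1}) :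
    Measurable fun p : ℝ × V (2 * m) × V (2 * m) =>
      (Ioc (0 : ℝ) 1).indicator (fun r => ENNReal.ofReal (h r) * ‖f r p.2.1 p.2.2‖ₑ) p.1 := by
  have h1 := L2a2_enorm hf
  have h2 : Measurable fun p : ℝ × V (2 * m) × V (2 * m) => ENNReal.ofReal (h p.1) :=
    (hh.measurable.comp measurable_fst).ennreal_ofReal
  have h3 := h2.mul h1
  convert h3 using 1
  funext p
  by_cases hp : p.1 ∈ Ioc (0 : ℝ) 1
  · have hp' : p ∈ Ioc (0 : ℝ) 1 ×ˢ (univ : Set (V (2 * m) × V (2 * m))) := ⟨hp, trivial⟩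
    simp only [Pi.mul_apply, Set.indicator_of_mem hp', Set.indicator_of_mem hp]
  · have hp' : p ∉ Ioc (0 : ℝ) 1 ×ˢ (univ : Set (V (2 * m) × V (2 * m))) := fun hq => hp hq.1
    simp only [Pi.mul_apply, Set.indicator_of_notMem hp', Set.indicator_of_notMem hp, mul_zero]

private theorem L2a2_strong {h : ℝ → ℝ} (hh : Continuous h)
    {f : ℝ → V (2 * m) → V (2 * m) → En m}
    (hf : ContinuousOn (fun p : ℝ × V (2 * m) × V (2 * m) => f p.1 p.2.1 p.2.2) {p | 0 < p.1}) :
    StronglyMeasurable fun p : ℝ × V (2 * m) × V (2 * m) =>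
      (Ioc (0 : ℝ) 1).indicator (fun r => (h r : ℂ) • adj (f r p.2.1 p.2.2)) p.1 := by
  classical
  have : ProperSpace (En m) := FiniteDimensional.proper ℂ (En m)
  have hs : MeasurableSet (Ioc (0 : ℝ) 1 ×ˢ (univ : Set (V (2 * m) × V (2 * m)))) :=
    measurableSet_Ioc.prod MeasurableSet.univ
  have hsub : Ioc (0 : ℝ) 1 ×ˢ (univ : Set (V (2 * m) × V (2 * m))) ⊆
      {p : ℝ × V (2 * m) × V (2 * m) | 0 < p.1} := fun p hp => hp.1.1
  have hc : ContinuousOn (fun p : ℝ × V (2 * m) × V (2 * m) =>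
      (h p.1 : ℂ) • adj (f p.1 p.2.1 p.2.2)) (Ioc (0 : ℝ) 1 ×ˢ univ) := by
    have ha : ContinuousOn (fun p : ℝ × V (2 * m) × V (2 * m) => ((h p.1 : ℝ) : ℂ))
        (Ioc (0 : ℝ) 1 ×ˢ univ) :=
      (Complex.continuous_ofReal.comp (hh.comp continuous_fst)).continuousOn
    have hb : ContinuousOn (fun p : ℝ × V (2 * m) × V (2 * m) => adj (f p.1 p.2.1 p.2.2))
        (Ioc (0 : ℝ) 1 ×ˢ univ) :=
      (ContinuousLinearMap.adjoint (𝕜 := ℂ) (E := Sp m) (F := Sp m)).continuous.comp_continuousOn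
        (hf.mono hsub)
    exact ha.smul hb
  have h1 : Measurable ((Ioc (0 : ℝ) 1 ×ˢ (univ : Set (V (2 * m) × V (2 * m)))).piecewise
      (fun p : ℝ × V (2 * m) × V (2 * m) => (h p.1 : ℂ) • adj (f p.1 p.2.1 p.2.2))
      (fun _ => (0 : En m))) :=
    ContinuousOn.measurable_piecewise hc continuousOn_const hs
  have h2 := h1.stronglyMeasurable
  convert h2 using 1
  funext p
  by_cases hp : p.1 ∈ Ioc (0 : ℝ) 1
  · have hp' : p ∈ Ioc (0 : ℝ) 1 ×ˢ (univ : Set (V (2 * m) × V (2 * m))) := ⟨hp, trivial⟩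
    simp only [Set.piecewise_eq_of_mem _ _ _ hp', Set.indicator_of_mem hp]
  · have hp' : p ∉ Ioc (0 : ℝ) 1 ×ˢ (univ : Set (V (2 * m) × V (2 * m))) := fun hq => hp hq.1
    simp only [Set.piecewise_eq_of_notMem _ _ _ hp', Set.indicator_of_notMem hp]

/-- PROOF. `(q, r) ↦ ofReal (h r) ‖f r q.1 q.2‖ₑ` on `{r > 0}` is continuous, so its indicator on `Ioc 0 1` is measurable on the
product; `Measurable.lintegral_prod_right'`. -/
theorem measurable_mk {h : ℝ → ℝ} (hh : Continuous h) {f : ℝ → V (2 * m) → V (2 * m) → En m}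
    (hf : ContinuousOn (fun p : ℝ × V (2 * m) × V (2 * m) => f p.1 p.2.1 p.2.2) {p | 0 < p.1}) :
    Measurable (Function.uncurry (mk h f)) := by
  have h1 := (L2a2_int hh hf).lintegral_prod_left' (μ := (volume : Measure ℝ))
  convert h1 using 1
  funext q
  rcases q with ⟨z, y⟩
  simp only [Function.uncurry, mk]
  rw [← lintegral_indicator measurableSet_Ioc]

/-- The integrand of `mk` is measurable in `(r, z, y)`. -/
theorem measurable_mk_int {h : ℝ → ℝ} (hh : Continuous h)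
    {f : ℝ → V (2 * m) → V (2 * m) → En m}
    (hf : ContinuousOn (fun p : ℝ × V (2 * m) × V (2 * m) => f p.1 p.2.1 p.2.2) {p | 0 < p.1}) :
    Measurable fun p : ℝ × V (2 * m) × V (2 * m) =>
      (Ioc (0 : ℝ) 1).indicator (fun r => ENNReal.ofReal (h r) * ‖f r p.2.1 p.2.2‖ₑ) p.1 := L2a2_int hh hf

/-- PROOF. As for `mk`, `StronglyMeasurable.integral_prod_right`; `adj` is continuous
(`ContinuousLinearMap.adjoint` is an isometry). -/
theorem stronglyMeasurable_kk {h : ℝ → ℝ} (hh : Continuous h)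
    {f : ℝ → V (2 * m) → V (2 * m) → En m}
    (hf : ContinuousOn (fun p : ℝ × V (2 * m) × V (2 * m) => f p.1 p.2.1 p.2.2) {p | 0 < p.1}) :
    StronglyMeasurable (Function.uncurry (kk h f)) := by
  have h1 := (L2a2_strong hh hf).integral_prod_left' (μ := (volume : Measure ℝ))
  have h2 : Function.uncurry (kk h f) = fun q : V (2 * m) × V (2 * m) => ∫ r : ℝ,
      (Ioc (0 : ℝ) 1).indicator (fun r => (h r : ℂ) • adj (f r q.1 q.2)) r := by
    funext q
    rcases q with ⟨z, y⟩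
    simp only [Function.uncurry, kk]
    rw [← integral_indicator measurableSet_Ioc]
  rw [h2]
  exact h1

/-- PROOF. `enorm_integral_le_lintegral_enorm`, `‖adj A‖ = ‖A‖`. -/
theorem enorm_kk_le {h : ℝ → ℝ} (hh : ∀ r, 0 ≤ h r) (f : ℝ → V (2 * m) → V (2 * m) → En m)
    (z y : V (2 * m)) : ‖kk h f z y‖ₑ ≤ mk h f z y := by
  refine (enorm_integral_le_lintegral_enorm _).trans (le_of_eq ?_)
  unfold mk
  refine lintegral_congr fun r => ?_
  rw [enorm_smul]
  congr 1
  · rw [← ofReal_norm, Complex.norm_real, Real.norm_eq_abs, abs_of_nonneg (hh r)]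
  · rw [← ofReal_norm, ← ofReal_norm]
    congr 1
    exact LinearIsometryEquiv.norm_map (ContinuousLinearMap.adjoint (𝕜 := ℂ) (E := Sp m) (F := Sp m)) _

/-- Where the function vanishes for `r > 0`. -/
theorem kk_eq_zero {h : ℝ → ℝ} {f : ℝ → V (2 * m) → V (2 * m) → En m} {z y : V (2 * m)}
    (hf : ∀ r, 0 < r → f r z y = 0) : kk h f z y = 0 ∧ mk h f z y = 0 := by
  constructor
  · unfold kk
    refine setIntegral_eq_zero_of_forall_eq_zero fun r hr => ?_
    rw [hf r hr.1]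
    simp
  · unfold mk
    rw [setLIntegral_congr_fun (g := fun _ => (0 : ℝ≥0∞)) measurableSet_Ioc]
    · simp
    · intro r hr
      have h0 : ‖f r z y‖ₑ = 0 := by
        rw [hf r hr.1]
        exact enorm_zero (E := En m)
      simp only [h0, mul_zero]

/-- Linearity: the integral applied to a vector, if it converges absolutely. -/
theorem inner_kk {h : ℝ → ℝ} (hh : Continuous h) (h0 : ∀ r, 0 ≤ h r)
    {f : ℝ → V (2 * m) → V (2 * m) → En m}
    (hf : ContinuousOn (fun p : ℝ × V (2 * m) × V (2 * m) => f p.1 p.2.1 p.2.2) {p | 0 < p.1})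
    {z y : V (2 * m)} (hfin : mk h f z y ≠ ⊤) (u v : Sp m) :
    ⟪u, kk h f z y v⟫_ℂ = ∫ r in Ioc (0 : ℝ) 1, (h r : ℂ) * ⟪f r z y u, v⟫_ℂ := by
  have hc : ContinuousOn (fun r : ℝ => (h r : ℂ) • adj (f r z y)) (Ioc (0 : ℝ) 1) := by
    have ha : ContinuousOn (fun r : ℝ => ((h r : ℝ) : ℂ)) (Ioc (0 : ℝ) 1) :=
      (Complex.continuous_ofReal.comp hh).continuousOn
    have hb : ContinuousOn (fun r : ℝ => adj (f r z y)) (Ioc (0 : ℝ) 1) := by
      refine (ContinuousLinearMap.adjoint (𝕜 := ℂ) (E := Sp m) (F := Sp m)).continuous.comp_continuousOn ?_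
      have hg : ContinuousOn (fun r : ℝ => ((r, (z, y)) : ℝ × V (2 * m) × V (2 * m)))
          (Ioc (0 : ℝ) 1) := by fun_prop
      exact hf.comp hg (fun r hr => hr.1)
    exact ha.smul hb
  have hint : Integrable (fun r : ℝ => (h r : ℂ) • adj (f r z y))
      (volume.restrict (Ioc (0 : ℝ) 1)) := by
    refine ⟨hc.aestronglyMeasurable measurableSet_Ioc, ?_⟩
    refine lt_of_le_of_lt (le_of_eq ?_) (lt_top_iff_ne_top.2 hfin)
    unfold mk
    refine lintegral_congr fun r => ?_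
    rw [enorm_smul]
    congr 1
    · rw [← ofReal_norm, Complex.norm_real, Real.norm_eq_abs, abs_of_nonneg (h0 r)]
    · rw [← ofReal_norm, ← ofReal_norm]
      congr 1
      exact LinearIsometryEquiv.norm_map
        (ContinuousLinearMap.adjoint (𝕜 := ℂ) (E := Sp m) (F := Sp m)) _
  have hL := ((innerSL ℂ u).comp (ContinuousLinearMap.apply ℂ (Sp m) v)).integral_comp_comm hint
  simp only [ContinuousLinearMap.comp_apply, ContinuousLinearMap.apply_apply, innerSL_apply_apply] at hL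
  unfold kk
  rw [← hL]
  refine integral_congr_ae (Eventually.of_forall fun r => ?_)
  simp only [_root_.smul_apply, inner_smul_right]
  rw [ContinuousLinearMap.adjoint_inner_right]

end Pool.Agent.Lib.MP_df705a_gt.SV
end
end

section

/-!
# SV, L2a3: Gaussian bounds
-/

open scoped ContDiff InnerProductSpace Matrix ENNReal NNReal Topology Real
open MeasureTheory Filter Set

noncomputable section

set_option linter.unusedSectionVars false

namespace Pool.Agent.Lib.MP_df705a_gt.SV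

open Pool.Agent.Lib.MP_df705a_gt.RL

variable {m : ℕ}

theorem L2a3_pt {κ p r : ℝ} (hp : 1 ≤ p) (hr : 0 < r) (v : V (2 * m)) :
    ENNReal.ofReal (gz m κ v r) ^ p = ENNReal.ofReal (r ^ (-((m : ℝ) * (p - 1)))) *
      ENNReal.ofReal (1 / r ^ m * Real.exp (-(p * κ * ‖v‖ ^ 2 / r))) := by
  have h0 : 0 ≤ gz m κ v r := by
    rw [gz]
    positivity
  rw [ENNReal.ofReal_rpow_of_nonneg h0 (by linarith), ← ENNReal.ofReal_mul (by positivity)]
  congr 1
  rw [gz, Real.mul_rpow (by positivity) (by positivity), ← Real.exp_mul, ← mul_assoc]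
  congr 1
  · rw [← Real.rpow_natCast r m, ← Real.rpow_neg hr.le, ← Real.rpow_mul hr.le, one_div,
      ← Real.rpow_neg hr.le, ← Real.rpow_add hr]
    congr 1
    ring
  · congr 1
    ring

theorem L2a3_int (g : Geo (2 * m)) {ρ : ℝ} {κ : ℝ} {p : ℝ} (hp : 1 ≤ p) {a : ℝ} (ha : 0 ≤ a)
    (hg : ∀ τ, 0 < τ → ∀ z : V (2 * m),
      ∫⁻ y in Metric.closedBall 0 (ρ + 1), ENNReal.ofReal (1 / τ ^ m *
        Real.exp (-(p * κ * ‖y - z‖ ^ 2 / τ))) ∂g.vol ≤ ENNReal.ofReal a)
    {r : ℝ} (hr : 0 < r) (w : V (2 * m)) :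
    ∫⁻ y in Metric.closedBall 0 (ρ + 1), ENNReal.ofReal (gz m κ (y - w) r) ^ p ∂g.vol ≤
      (((max 1 a) * r ^ (-((m : ℝ) * (p - 1) / p))).toNNReal : ℝ≥0∞) ^ p := by
  have hp0 : 0 < p := by linarith
  have h1 : ∀ y : V (2 * m), ENNReal.ofReal (gz m κ (y - w) r) ^ p =
      ENNReal.ofReal (r ^ (-((m : ℝ) * (p - 1)))) *
      ENNReal.ofReal (1 / r ^ m * Real.exp (-(p * κ * ‖y - w‖ ^ 2 / r))) :=
    fun y => L2a3_pt hp hr (y - w)
  simp_rw [h1]
  rw [lintegral_const_mul' _ _ ENNReal.ofReal_ne_top]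
  have h2 : ENNReal.ofReal (r ^ (-((m : ℝ) * (p - 1)))) *
      ∫⁻ y in Metric.closedBall 0 (ρ + 1), ENNReal.ofReal (1 / r ^ m *
        Real.exp (-(p * κ * ‖y - w‖ ^ 2 / r))) ∂g.vol ≤
      ENNReal.ofReal (r ^ (-((m : ℝ) * (p - 1)))) * ENNReal.ofReal a :=
    mul_le_mul_right (hg r hr w) _
  refine h2.trans ?_
  rw [← ENNReal.ofReal_mul (by positivity)]
  change _ ≤ ENNReal.ofReal ((max 1 a) * r ^ (-((m : ℝ) * (p - 1) / p))) ^ p
  have hA1 : 1 ≤ max 1 a := le_max_left _ _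
  have hA : a ≤ (max 1 a) ^ p := by
    calc a ≤ max 1 a := le_max_right _ _
      _ = (max 1 a) ^ (1 : ℝ) := (Real.rpow_one _).symm
      _ ≤ (max 1 a) ^ p := Real.rpow_le_rpow_of_exponent_le hA1 hp
  rw [ENNReal.ofReal_rpow_of_nonneg (by positivity) hp0.le]
  refine ENNReal.ofReal_le_ofReal ?_
  rw [Real.mul_rpow (by positivity) (by positivity), ← Real.rpow_mul hr.le]
  have h3 : -((m : ℝ) * (p - 1) / p) * p = -((m : ℝ) * (p - 1)) := by
    field_simp
  rw [h3, mul_comm]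
  exact mul_le_mul_of_nonneg_right hA (by positivity)

/-- The bound of a Gaussian kernel.
PROOF. `gz m κ v r ^ p = r^(-m (p-1)) * ((r^m)⁻¹ exp(-(p κ) |v|²/r))`, restrict to the ball of radius `ρ + 1`, `gauss_vol`
(RL.E4) with `p κ` and radius `ρ + 1` (both for the rows, center `z`, and for the columns, center `y`); so the integral is at
most `r^(-m(p-1)) a ≤ (A r^(-m(p-1)/p))^p` with `A = max 1 a`. -/
theorem gz_LB (g : Geo (2 * m)) (ρ : ℝ) {κ : ℝ} (hκ : 0 < κ) {p : ℝ} (hp : 1 ≤ p) :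
    ∃ A : ℝ, 0 < A ∧ ∀ r : ℝ, 0 < r → r ≤ 1 → LB g.vol (Metric.closedBall 0 ρ) p
      (fun z y => if ‖y - z‖ ≤ 1 then ENNReal.ofReal (gz m κ (y - z) r) else 0)
      (A * r ^ (-(m * (p - 1) / p))).toNNReal := by
  obtain ⟨a, ha, hg⟩ := gauss_vol g (ρ + 1) (p * κ) (by positivity)
  have hp0 : 0 < p := by linarith
  refine ⟨max 1 a, by positivity, fun r hr _ => ⟨fun z hz => ?_, fun y => ?_⟩⟩
  · refine le_trans ?_ (L2a3_int g hp ha hg hr z)
    rw [← lintegral_indicator Metric.isClosed_closedBall.measurableSet]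
    refine lintegral_mono fun y => ?_
    by_cases hy : ‖y - z‖ ≤ 1
    · have hy' : y ∈ Metric.closedBall (0 : V (2 * m)) (ρ + 1) := by
        rw [mem_closedBall_zero_iff] at hz ⊢
        calc ‖y‖ = ‖z + (y - z)‖ := by rw [add_sub_cancel]
          _ ≤ ‖z‖ + ‖y - z‖ := norm_add_le _ _
          _ ≤ ρ + 1 := by linarith
      rw [indicator_of_mem hy', if_pos hy]
    · rw [if_neg hy, ENNReal.zero_rpow_of_pos hp0]
      exact zero_le
  · refine le_trans ?_ (L2a3_int g hp ha hg hr y)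
    refine le_trans ?_ (lintegral_mono_set (Metric.closedBall_subset_closedBall (by linarith)))
    refine lintegral_mono fun x => ?_
    have h1 : gz m κ (x - y) r = gz m κ (y - x) r := by
      rw [gz, gz, norm_sub_rev]
    rw [h1]
    by_cases hy : ‖y - x‖ ≤ 1
    · rw [if_pos hy]
    · rw [if_neg hy, ENNReal.zero_rpow_of_pos hp0]
      exact zero_le

end Pool.Agent.Lib.MP_df705a_gt.SV
end
end

section

/-!
# SV, L2a5: bounds of the local kernels
-/

open scoped ContDiff InnerProductSpace Matrix ENNReal NNReal Topology Real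
open MeasureTheory Filter Set

noncomputable section

set_option linter.unusedSectionVars false

namespace Pool.Agent.Lib.MP_df705a_gt.SV

open Pool.Agent.Lib.MP_df705a_gt.RL

variable {m : ℕ} {C : Cliff m} {g : Geo (2 * m)} {ρ c κ : ℝ}

private theorem L2a5_rpow {w A c h r β α : ℝ} (hr : 0 < r) (hw : w = h * (c * r ^ (-β))) :
    w * (A * r ^ (-α)) = h * (A * c * r ^ (-β - α)) := by
  rw [hw, sub_eq_add_neg, Real.rpow_add hr]
  ring

private theorem L2a5_pt {P : ℝ} (hP : 0 ≤ P) {X : Type*} [MeasurableSpace X] {μ : Measure X}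
    {F K : X → ℝ≥0∞} {w a : ℝ≥0∞} (hw : w ≠ ⊤) (h : ∀ᵐ x ∂μ, F x ≤ w * K x)
    (hK : ∫⁻ x, K x ^ P ∂μ ≤ a ^ P) : ∫⁻ x, F x ^ P ∂μ ≤ (w * a) ^ P := by
  calc ∫⁻ x, F x ^ P ∂μ ≤ ∫⁻ x, w ^ P * K x ^ P ∂μ := by
        refine lintegral_mono_ae (h.mono fun x hx => ?_)
        rw [← ENNReal.mul_rpow_of_nonneg _ _ hP]
        exact ENNReal.rpow_le_rpow hx hP
    _ = w ^ P * ∫⁻ x, K x ^ P ∂μ := lintegral_const_mul' _ _ (ENNReal.rpow_ne_top_of_nonneg hP hw)
    _ ≤ w ^ P * a ^ P := by gcongr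
    _ = (w * a) ^ P := (ENNReal.mul_rpow_of_nonneg _ _ hP).symm

private theorem L2a5_f_le {f : ℝ → V (2 * m) → V (2 * m) → En m} {h : ℝ → ℝ} (hh : ∀ r, 0 < h r)
    {c β κ ρ : ℝ} (hc : 0 < c) (hs : ∀ r z y, 0 < r → 1 < ‖y - z‖ → f r z y = 0)
    (hb : ∀ r z y, ‖z‖ ≤ ρ → 0 < r → r ≤ 1 → ‖f r z y‖ ≤ c * (r ^ (-β) * gz m κ (y - z) r))
    {r : ℝ} (hr : 0 < r) (hr1 : r ≤ 1) {z : V (2 * m)} (hz : ‖z‖ ≤ ρ) (y : V (2 * m)) :
    ENNReal.ofReal (h r) * ‖f r z y‖ₑ ≤ ENNReal.ofReal (h r * (c * r ^ (-β))) *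
      (if ‖y - z‖ ≤ 1 then ENNReal.ofReal (gz m κ (y - z) r) else 0) := by
  by_cases hyz : ‖y - z‖ ≤ 1
  · rw [if_pos hyz]
    have h1 : ‖f r z y‖ₑ ≤ ENNReal.ofReal (c * (r ^ (-β) * gz m κ (y - z) r)) := by
      rw [← ofReal_norm]
      exact ENNReal.ofReal_le_ofReal (hb r z y hz hr hr1)
    have h2 : (0 : ℝ) ≤ c * r ^ (-β) := by positivity
    calc ENNReal.ofReal (h r) * ‖f r z y‖ₑ
        ≤ ENNReal.ofReal (h r) * ENNReal.ofReal (c * (r ^ (-β) * gz m κ (y - z) r)) := by gcongr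
      _ = ENNReal.ofReal (h r * (c * r ^ (-β))) * ENNReal.ofReal (gz m κ (y - z) r) := by
          rw [← ENNReal.ofReal_mul (hh r).le, ← ENNReal.ofReal_mul (mul_nonneg (hh r).le h2)]
          congr 1
          ring
  · rw [hs r z y hr (not_le.1 hyz), ← ofReal_norm, norm_zero, ENNReal.ofReal_zero, mul_zero]
    exact zero_le

/-- The general bound: `‖f_r(z,y)‖ ≤ c r^(-β) gz` gives the bound `M ∫ h(r) r^(-α-β) dr` for `mk h f`, `α = m (p-1)/p`.
PROOF. `minkowski` with `ν = volume.restrict (Ioc 0 1)` and `b r = ofReal (h r) * ofReal (c r^(-β)) * ofReal (A r^(-α))`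
(positive and finite there), `gz_LB`. Rows: the measure `g.vol`; columns: `g.vol.restrict (closedBall 0 ρ)`. -/
theorem mk_LB (g : Geo (2 * m)) (ρ : ℝ) {κ : ℝ} (hκ : 0 < κ) {p : ℝ} (hp : 1 ≤ p) : ∃ M : ℝ, 0 < M ∧
    ∀ (h : ℝ → ℝ) (_ : Continuous h) (_ : ∀ r, 0 < h r) (f : ℝ → V (2 * m) → V (2 * m) → En m)
      (_ : ContinuousOn (fun p : ℝ × V (2 * m) × V (2 * m) => f p.1 p.2.1 p.2.2) {p | 0 < p.1})
      (c β : ℝ) (_ : 0 < c) (_ : ∀ r z y, 0 < r → 1 < ‖y - z‖ → f r z y = 0)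
      (_ : ∀ r z y, ‖z‖ ≤ ρ → 0 < r → r ≤ 1 → ‖f r z y‖ ≤ c * (r ^ (-β) * gz m κ (y - z) r))
      (D : ℝ≥0) (_ : ∫⁻ r in Ioc (0 : ℝ) 1,
        ENNReal.ofReal (h r * (M * c * r ^ (-β - m * (p - 1) / p))) ≤ D),
      LB g.vol (Metric.closedBall 0 ρ) p (mk h f) D := by
  obtain ⟨A, hA, hLB⟩ := gz_LB (m := m) g ρ hκ hp
  refine ⟨A, hA, ?_⟩
  intro h hh h0 f hf c β hc hs hb D hD
  have hp0 : 0 ≤ p := zero_le_one.trans hp
  have hmeas := measurable_mk_int hh hf
  -- the bound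
  have hbm : Measurable fun r : ℝ =>
      ENNReal.ofReal (h r * (A * c * r ^ (-β - m * (p - 1) / p))) := by
    refine ENNReal.measurable_ofReal.comp (hh.measurable.mul ?_)
    exact (measurable_id.pow_const _).const_mul _
  have hpos : ∀ r ∈ Ioc (0 : ℝ) 1, 0 < h r * (A * c * r ^ (-β - m * (p - 1) / p)) := fun r hr =>
    mul_pos (h0 r) (mul_pos (mul_pos hA hc) (Real.rpow_pos_of_pos hr.1 _))
  have hb0 : ∀ᵐ r ∂(volume.restrict (Ioc (0 : ℝ) 1)),
      ENNReal.ofReal (h r * (A * c * r ^ (-β - m * (p - 1) / p))) ≠ 0 := by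
    filter_upwards [ae_restrict_mem measurableSet_Ioc] with r hr
    exact (ENNReal.ofReal_pos.2 (hpos r hr)).ne'
  have hb1 : ∀ᵐ r ∂(volume.restrict (Ioc (0 : ℝ) 1)),
      ENNReal.ofReal (h r * (A * c * r ^ (-β - m * (p - 1) / p))) ≠ ⊤ :=
    Filter.Eventually.of_forall fun r => ENNReal.ofReal_ne_top
  have hprod : ∀ r ∈ Ioc (0 : ℝ) 1, ENNReal.ofReal (h r * (c * r ^ (-β))) *
      ((A * r ^ (-(m * (p - 1) / p))).toNNReal : ℝ≥0∞) =
      ENNReal.ofReal (h r * (A * c * r ^ (-β - m * (p - 1) / p))) := by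
    intro r hr
    have h2 : (0 : ℝ) ≤ h r * (c * r ^ (-β)) :=
      mul_nonneg (h0 r).le (mul_nonneg hc.le (Real.rpow_nonneg hr.1.le _))
    rw [← L2a5_rpow (w := h r * (c * r ^ (-β))) hr.1 rfl, ENNReal.ofReal_mul h2]
    rfl
  have hmk : ∀ z y, ∫⁻ r in Ioc (0 : ℝ) 1,
      (Ioc (0 : ℝ) 1).indicator (fun r => ENNReal.ofReal (h r) * ‖f r z y‖ₑ) r = mk h f z y := by
    intro z y
    unfold mk
    refine setLIntegral_congr_fun measurableSet_Ioc fun r hr => ?_
    rw [indicator_of_mem hr]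
  constructor
  · intro z hz
    have hz' : ‖z‖ ≤ ρ := by simpa using hz
    have h1 := minkowski (ν := volume.restrict (Ioc (0 : ℝ) 1)) (μ := g.vol) hp
      (f := fun r y => (Ioc (0 : ℝ) 1).indicator
        (fun r => ENNReal.ofReal (h r) * ‖f r z y‖ₑ) r)
      (hmeas.comp (f := fun q : ℝ × V (2 * m) => (q.1, z, q.2))
        (measurable_fst.prodMk (measurable_const.prodMk measurable_snd)))
      hbm hb0 hb1 (by
        filter_upwards [ae_restrict_mem measurableSet_Ioc] with r hr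
        rw [← hprod r hr]
        refine L2a5_pt hp0 ENNReal.ofReal_ne_top (Filter.Eventually.of_forall fun y => ?_)
          ((hLB r hr.1 hr.2).row z hz)
        rw [indicator_of_mem hr]
        exact L2a5_f_le h0 hc hs hb hr.1 hr.2 hz' y)
    simp only [hmk] at h1
    exact h1.trans (ENNReal.rpow_le_rpow hD hp0)
  · intro y
    have h1 := minkowski (ν := volume.restrict (Ioc (0 : ℝ) 1))
      (μ := g.vol.restrict (Metric.closedBall 0 ρ)) hp
      (f := fun r z => (Ioc (0 : ℝ) 1).indicator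
        (fun r => ENNReal.ofReal (h r) * ‖f r z y‖ₑ) r)
      (hmeas.comp (f := fun q : ℝ × V (2 * m) => (q.1, q.2, y))
        (measurable_fst.prodMk (measurable_snd.prodMk measurable_const)))
      hbm hb0 hb1 (by
        filter_upwards [ae_restrict_mem measurableSet_Ioc] with r hr
        rw [← hprod r hr]
        refine L2a5_pt hp0 ENNReal.ofReal_ne_top ?_ ((hLB r hr.1 hr.2).col y)
        filter_upwards [ae_restrict_mem Metric.isClosed_closedBall.measurableSet] with z hz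
        rw [indicator_of_mem hr]
        exact L2a5_f_le h0 hc hs hb hr.1 hr.2 (by simpa using hz) y)
    simp only [hmk] at h1
    exact h1.trans (ENNReal.rpow_le_rpow hD hp0)

private theorem L2a5_mono {X : Type*} [MeasurableSpace X] {μ : Measure X} {S : Set X} {P : ℝ}
    (hP : 0 ≤ P) {K : X → X → ℝ≥0∞} {c c' : ℝ≥0} (h : LB μ S P K c) (hc : c ≤ c') :
    LB μ S P K c' :=
  ⟨fun x hx => (h.row x hx).trans (ENNReal.rpow_le_rpow (ENNReal.coe_le_coe.2 hc) hP),
    fun y => (h.col y).trans (ENNReal.rpow_le_rpow (ENNReal.coe_le_coe.2 hc) hP)⟩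

private theorem L2a5_addI {X : Type*} [MeasurableSpace X] {μ : Measure X} {P : ℝ} (hP : 1 ≤ P)
    {K K' : X → ℝ≥0∞} (hK : Measurable K) (hK' : Measurable K') {c c' : ℝ≥0∞}
    (h : ∫⁻ x, K x ^ P ∂μ ≤ c ^ P) (h' : ∫⁻ x, K' x ^ P ∂μ ≤ c' ^ P) :
    ∫⁻ x, (K x + K' x) ^ P ∂μ ≤ (c + c') ^ P := by
  have hP0 : 0 < P := zero_lt_one.trans_le hP
  have h1 := ENNReal.lintegral_Lp_add_le (μ := μ) hK.aemeasurable hK'.aemeasurable hP
  have h2 : (∫⁻ x, K x ^ P ∂μ) ^ (1 / P) ≤ c := by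
    rw [one_div, ENNReal.rpow_inv_le_iff hP0]
    exact h
  have h3 : (∫⁻ x, K' x ^ P ∂μ) ^ (1 / P) ≤ c' := by
    rw [one_div, ENNReal.rpow_inv_le_iff hP0]
    exact h'
  have h4 := h1.trans (add_le_add h2 h3)
  rw [one_div, ENNReal.rpow_inv_le_iff hP0] at h4
  simpa only [Pi.add_apply] using h4

private theorem L2a5_add {X : Type*} [MeasurableSpace X] {μ : Measure X} {S : Set X} {P : ℝ}
    (hP : 1 ≤ P) {K K' : X → X → ℝ≥0∞} (hK : Measurable (Function.uncurry K))
    (hK' : Measurable (Function.uncurry K')) {c c' : ℝ≥0} (h : LB μ S P K c)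
    (h' : LB μ S P K' c') : LB μ S P (fun z y => K z y + K' z y) (c + c') := by
  constructor
  · intro x hx
    rw [ENNReal.coe_add]
    exact L2a5_addI hP (hK.comp measurable_prodMk_left) (hK'.comp measurable_prodMk_left)
      (h.row x hx) (h'.row x hx)
  · intro y
    rw [ENNReal.coe_add]
    exact L2a5_addI hP (hK.comp measurable_prodMk_right) (hK'.comp measurable_prodMk_right)
      (h.col y) (h'.col y)

/-- The bound for the weights `w exp (-r/t²)`. -/
private theorem L2a5_main (g : Geo (2 * m)) (ρ : ℝ) {κ : ℝ} (hκ : 0 < κ) {P : ℝ} (hP : 1 ≤ P)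
    {β : ℝ} (hβ : β + m * (P - 1) / P < 1) : ∃ B : ℝ, 0 < B ∧
    ∀ (f : ℝ → V (2 * m) → V (2 * m) → En m)
      (_ : ContinuousOn (fun p : ℝ × V (2 * m) × V (2 * m) => f p.1 p.2.1 p.2.2) {p | 0 < p.1})
      (c : ℝ) (_ : 0 < c) (_ : ∀ r z y, 0 < r → 1 < ‖y - z‖ → f r z y = 0)
      (_ : ∀ r z y, ‖z‖ ≤ ρ → 0 < r → r ≤ 1 → ‖f r z y‖ ≤ c * (r ^ (-β) * gz m κ (y - z) r))
      (w t : ℝ) (_ : 0 < w) (_ : 0 < t),
      LB g.vol (Metric.closedBall 0 ρ) P (mk (fun r => w * Real.exp (-(r / t ^ 2))) f)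
        (B * c * (w * t ^ (2 * (1 - (β + m * (P - 1) / P))))).toNNReal := by
  obtain ⟨M, hM, hMLB⟩ := mk_LB (m := m) g ρ hκ hP
  obtain ⟨A, hA, hAb⟩ := gamma_bound hβ
  refine ⟨M * A, mul_pos hM hA, ?_⟩
  intro f hf c hc hs hb w t hw ht
  refine hMLB (fun r => w * Real.exp (-(r / t ^ 2))) (by fun_prop)
    (fun r => mul_pos hw (Real.exp_pos _)) f hf c β hc hs hb _ ?_
  have h1 : ∀ r : ℝ, ENNReal.ofReal (w * Real.exp (-(r / t ^ 2)) *
      (M * c * r ^ (-β - m * (P - 1) / P))) = ENNReal.ofReal (w * M * c) *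
      ENNReal.ofReal (Real.exp (-(r / t ^ 2)) * r ^ (-(β + m * (P - 1) / P))) := by
    intro r
    rw [← ENNReal.ofReal_mul (by positivity)]
    congr 1
    have h2 : -β - m * (P - 1) / P = -(β + m * (P - 1) / P) := by ring
    rw [h2]
    ring
  simp only [h1]
  rw [lintegral_const_mul' _ _ ENNReal.ofReal_ne_top]
  calc ENNReal.ofReal (w * M * c) * ∫⁻ r in Ioc (0 : ℝ) 1,
        ENNReal.ofReal (Real.exp (-(r / t ^ 2)) * r ^ (-(β + m * (P - 1) / P)))
      ≤ ENNReal.ofReal (w * M * c) *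
        ENNReal.ofReal (A * t ^ (2 * (1 - (β + m * (P - 1) / P)))) := by
        gcongr
        exact hAb t ht
    _ = ENNReal.ofReal (M * A * c * (w * t ^ (2 * (1 - (β + m * (P - 1) / P))))) := by
        rw [← ENNReal.ofReal_mul (by positivity)]
        congr 1
        ring
    _ = _ := rfl

/-- The term at `r = 1`. -/
private theorem L2a5_one (g : Geo (2 * m)) (ρ : ℝ) {κ : ℝ} (hκ : 0 < κ) {P : ℝ} (hP : 1 ≤ P) :
    ∃ B : ℝ, 0 < B ∧ ∀ (f : V (2 * m) → V (2 * m) → En m) (c : ℝ) (_ : 0 < c)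
      (_ : ∀ z y, 1 < ‖y - z‖ → f z y = 0)
      (_ : ∀ z y, ‖z‖ ≤ ρ → ‖f z y‖ ≤ c * gz m κ (y - z) 1)
      (t : ℝ) (_ : 0 < t) (_ : t ≤ 1),
      LB g.vol (Metric.closedBall 0 ρ) P (fun z y => ENNReal.ofReal (hE t 1) * ‖f z y‖ₑ)
        (B * c * t).toNNReal := by
  obtain ⟨A, hA, hLB⟩ := gz_LB (m := m) g ρ hκ hP
  have hP0 : 0 ≤ P := zero_le_one.trans hP
  refine ⟨A, hA, ?_⟩
  intro f c hc hs hb t ht ht1
  have hexp : hE t 1 ≤ t := by
    unfold hE
    have h1 : (0 : ℝ) < 1 / t ^ 2 := by positivity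
    have h2 := Real.add_one_le_exp (1 / t ^ 2)
    have h3 : 1 / t ^ 2 ≤ Real.exp (1 / t ^ 2) := by linarith
    have h4 : Real.exp (-(1 / t ^ 2)) ≤ t ^ 2 := by
      rw [Real.exp_neg]
      calc (Real.exp (1 / t ^ 2))⁻¹ ≤ (1 / t ^ 2)⁻¹ := inv_anti₀ h1 h3
        _ = t ^ 2 := by rw [one_div, inv_inv]
    nlinarith
  have hE0 : 0 ≤ hE t 1 := (Real.exp_pos _).le
  have hle : ∀ z y, ‖z‖ ≤ ρ → ENNReal.ofReal (hE t 1) * ‖f z y‖ₑ ≤ ENNReal.ofReal (c * t) *
      (if ‖y - z‖ ≤ 1 then ENNReal.ofReal (gz m κ (y - z) 1) else 0) := by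
    intro z y hz
    by_cases hyz : ‖y - z‖ ≤ 1
    · rw [if_pos hyz, ← ofReal_norm, ← ENNReal.ofReal_mul hE0,
        ← ENNReal.ofReal_mul (by positivity)]
      apply ENNReal.ofReal_le_ofReal
      have h5 : 0 ≤ gz m κ (y - z) 1 := by unfold gz; positivity
      calc hE t 1 * ‖f z y‖ ≤ t * (c * gz m κ (y - z) 1) :=
            mul_le_mul hexp (hb z y hz) (norm_nonneg _) ht.le
        _ = c * t * gz m κ (y - z) 1 := by ring
    · rw [hs z y (not_le.1 hyz), ← ofReal_norm, norm_zero, ENNReal.ofReal_zero, mul_zero]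
      exact zero_le
  have hc' : ENNReal.ofReal (c * t) *
      ((A * (1 : ℝ) ^ (-(m * (P - 1) / P))).toNNReal : ℝ≥0∞) = ((A * c * t).toNNReal : ℝ≥0∞) := by
    rw [Real.one_rpow, mul_one]
    have h6 : ((A.toNNReal : ℝ≥0) : ℝ≥0∞) = ENNReal.ofReal A := rfl
    rw [h6, ← ENNReal.ofReal_mul (by positivity)]
    have h7 : c * t * A = A * c * t := by ring
    rw [h7]
    rfl
  constructor
  · intro z hz
    rw [← hc']
    exact L2a5_pt hP0 ENNReal.ofReal_ne_top
      (Filter.Eventually.of_forall fun y => hle z y (by simpa using hz))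
      ((hLB 1 one_pos le_rfl).row z hz)
  · intro y
    rw [← hc']
    refine L2a5_pt hP0 ENNReal.ofReal_ne_top ?_ ((hLB 1 one_pos le_rfl).col y)
    filter_upwards [ae_restrict_mem Metric.isClosed_closedBall.measurableSet] with z hz
    exact hle z y (by simpa using hz)

private theorem L2a5_e {r G : ℝ} (hm : 1 ≤ m) (hr : 0 < r) (hr1 : r ≤ 1) (hG : 0 ≤ G) :
    r⁻¹ * (√r) ^ (2 * m + 1) * G ≤ r ^ (-(-(1 / 2) : ℝ)) * G := by
  refine mul_le_mul_of_nonneg_right ?_ hG
  rw [neg_neg, ← Real.sqrt_eq_rpow]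
  have h1 : (√r) ^ 2 = r := Real.sq_sqrt hr.le
  have h2 : √r ≤ 1 := Real.sqrt_le_iff.2 ⟨zero_le_one, by simpa using hr1⟩
  obtain ⟨k, rfl⟩ : ∃ k, m = k + 1 := ⟨m - 1, by omega⟩
  have h3 : (√r) ^ (2 * (k + 1) + 1) = r * √r * (√r) ^ (2 * k) := by
    have : 2 * (k + 1) + 1 = 2 + 1 + 2 * k := by ring
    rw [this, pow_add, pow_add, h1, pow_one]
  rw [h3]
  have h4 : (√r) ^ (2 * k) ≤ 1 := pow_le_one₀ (Real.sqrt_nonneg r) h2
  calc r⁻¹ * (r * √r * (√r) ^ (2 * k)) = √r * (√r) ^ (2 * k) := by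
        field_simp
    _ ≤ √r * 1 := mul_le_mul_of_nonneg_left h4 (Real.sqrt_nonneg r)
    _ = √r := mul_one _

private theorem L2a5_w1 {t α : ℝ} (ht : 0 < t) :
    (t ^ 2)⁻¹ * t ^ (2 * (1 - (0 + α))) = t ^ (-(2 * α)) := by
  rw [← Real.rpow_two, ← Real.rpow_neg ht.le, ← Real.rpow_add ht]
  congr 1
  ring

private theorem L2a5_w2 {t α : ℝ} (ht : 0 < t) :
    t⁻¹ * t ^ (2 * (1 - (1 / 2 + α))) = t ^ (-(2 * α)) := by
  rw [← Real.rpow_neg_one, ← Real.rpow_add ht]
  congr 1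
  ring

private theorem L2a5_w3 {t α : ℝ} (ht : 0 < t) (ht1 : t ≤ 1) (hα : α ≤ 1 / 2) :
    1 * t ^ (2 * (1 - (-(1 / 2) + α))) ≤ t := by
  rw [one_mul]
  calc t ^ (2 * (1 - (-(1 / 2) + α))) ≤ t ^ (1 : ℝ) :=
        Real.rpow_le_rpow_of_exponent_ge ht ht1 (by linarith)
    _ = t := Real.rpow_one t

private theorem L2a5_gz (m : ℕ) (κ : ℝ) (v : V (2 * m)) {r : ℝ} (hr : 0 < r) :
    0 ≤ gz m κ v r := by
  unfold gz
  positivity

/-- The bounds for one exponent. -/
private theorem L2a5_all (hm : 1 ≤ m) (p : ParaD C g ρ c κ) {P : ℝ} (hP1 : 1 ≤ P)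
    (hα : m * (P - 1) / P < 1 / 2) : ∃ D : ℝ, 0 < D ∧ ∀ t : ℝ, 0 < t → t ≤ 1 →
      LB g.vol (Metric.closedBall 0 ρ) P (mk (hP t) p.q)
        (D * t ^ (-(2 * (m * (P - 1) / P)))).toNNReal ∧
      LB g.vol (Metric.closedBall 0 ρ) P (mk (hB t) p.dq)
        (D * t ^ (-(2 * (m * (P - 1) / P)))).toNNReal ∧
      LB g.vol (Metric.closedBall 0 ρ) P
        (fun z y => mk (hE t) p.e z y + ENNReal.ofReal (hE t 1) * ‖p.q 1 z y‖ₑ)
          (D * t).toNNReal := by
  have hP0 : 0 ≤ P := zero_le_one.trans hP1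
  have hα0 : 0 ≤ m * (P - 1) / P := div_nonneg (mul_nonneg (Nat.cast_nonneg _) (by linarith)) hP0
  obtain ⟨B1, hB1, h1⟩ := L2a5_main (m := m) g ρ p.κ_pos hP1 (β := 0) (by linarith)
  obtain ⟨B2, hB2, h2⟩ := L2a5_main (m := m) g ρ p.κ_pos hP1 (β := 1 / 2) (by linarith)
  obtain ⟨B3, hB3, h3⟩ := L2a5_main (m := m) g ρ p.κ_pos hP1 (β := -(1 / 2)) (by linarith)
  obtain ⟨B4, hB4, h4⟩ := L2a5_one (m := m) g ρ p.κ_pos hP1
  have hc := p.c_pos
  refine ⟨(B1 + B2 + B3 + B4) * c, by positivity, fun t ht ht1 => ⟨?_, ?_, ?_⟩⟩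
  · have h5 := h1 p.q p.cont_q c hc (fun r z y _ h => (p.supp r z y h).1)
      (fun r z y hz hr hr1 => by
        rw [neg_zero, Real.rpow_zero, one_mul]
        exact p.bd_q r z y hz hr hr1) (t ^ 2)⁻¹ t (by positivity) ht
    rw [L2a5_w1 ht] at h5
    refine L2a5_mono hP0 h5 (Real.toNNReal_le_toNNReal ?_)
    have h6 : 0 ≤ t ^ (-(2 * (m * (P - 1) / P))) := Real.rpow_nonneg ht.le _
    gcongr
    linarith
  · have h5 := h2 p.dq p.cont_dq c hc (fun r z y _ h => p.supp_dq r z y h)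
      (fun r z y hz hr hr1 => by
        rw [Real.rpow_neg hr.le, ← Real.sqrt_eq_rpow]
        exact p.bd_dq r z y hz hr hr1) t⁻¹ t (by positivity) ht
    rw [L2a5_w2 ht] at h5
    refine L2a5_mono hP0 h5 (Real.toNNReal_le_toNNReal ?_)
    have h6 : 0 ≤ t ^ (-(2 * (m * (P - 1) / P))) := Real.rpow_nonneg ht.le _
    gcongr
    linarith
  · have h5 := h3 p.e p.cont_e c hc (fun r z y _ h => (p.supp r z y h).2.2)
      (fun r z y hz hr hr1 => (p.bd_e r z y hz hr hr1).trans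
        (mul_le_mul_of_nonneg_left (L2a5_e hm hr hr1 (L2a5_gz m κ _ hr)) hc.le)) 1 t one_pos ht
    have hE1 : (fun r : ℝ => (1 : ℝ) * Real.exp (-(r / t ^ 2))) = hE t := by
      funext r
      rw [one_mul]
      rfl
    rw [hE1] at h5
    have h6 := h4 (p.q 1) c hc (fun z y h => (p.supp 1 z y h).1)
      (fun z y hz => p.bd_q 1 z y hz one_pos le_rfl) t ht ht1
    have hmeas1 : Measurable (Function.uncurry (mk (hE t) p.e)) :=
      measurable_mk (by unfold hE; fun_prop) p.cont_e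
    have hmeas2 : Measurable (Function.uncurry
        fun z y => ENNReal.ofReal (hE t 1) * ‖p.q 1 z y‖ₑ) := by
      have h7 : Continuous fun q : V (2 * m) × V (2 * m) => p.q 1 q.1 q.2 :=
        p.cont_q.comp_continuous (f := fun q : V (2 * m) × V (2 * m) => ((1 : ℝ), q.1, q.2))
          (by fun_prop) fun q => by simp
      exact (h7.enorm.measurable).const_mul _
    refine L2a5_mono hP0 (L2a5_add hP1 hmeas1 hmeas2 h5 h6) ?_
    have h8 := L2a5_w3 ht ht1 hα.le
    have h9 : 0 ≤ 1 * t ^ (2 * (1 - (-(1 / 2) + m * (P - 1) / P))) := by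
      rw [one_mul]
      exact Real.rpow_nonneg ht.le _
    rw [← Real.toNNReal_add (by positivity) (by positivity)]
    refine Real.toNNReal_le_toNNReal ?_
    have h10 : B3 * c * (1 * t ^ (2 * (1 - (-(1 / 2) + m * (P - 1) / P)))) ≤ B3 * c * t :=
      mul_le_mul_of_nonneg_left h8 (by positivity)
    have h11 : 0 ≤ B1 * c * t := by positivity
    have h12 : 0 ≤ B2 * c * t := by positivity
    nlinarith

/-- The bounds.
PROOF. `mk_LB` with `α = 0` for `p = 1` and `α = m/(2m+1)` for `p = pN m`, `β = 0` for `q`, `1/2` for `dq`; `gamma_bound`: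
`t⁻² t^(2(1-α)) = t^(-2α)`, `t⁻¹ t^(2(1-α-1/2)) = t^(-2α)`, `2 α = 2m/(2m+1)`. For the error `r⁻¹ √r^(2m+1) r^(-α) ≤ 1` if
`α < 1/2`, `r ≤ 1`, `m ≥ 1` (take `β = -1/2`): the integral is `≤ C t² ≤ C t`; for `q 1`: `exp(-1/t²) ≤ t² ≤ t` (`gz_LB` at `r = 1`). -/
theorem local_bounds (hm : 1 ≤ m) (p : ParaD C g ρ c κ) : ∃ D : ℝ, 0 < D ∧
    ∀ t : ℝ, 0 < t → t ≤ 1 →
      (LB g.vol (Metric.closedBall 0 ρ) 1 (mk (hP t) p.q) D.toNNReal ∧
        LB g.vol (Metric.closedBall 0 ρ) (pN m) (mk (hP t) p.q) (sz m D t)) ∧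
      (LB g.vol (Metric.closedBall 0 ρ) 1 (mk (hB t) p.dq) D.toNNReal ∧
        LB g.vol (Metric.closedBall 0 ρ) (pN m) (mk (hB t) p.dq) (sz m D t)) ∧
      (LB g.vol (Metric.closedBall 0 ρ) 1
        (fun z y => mk (hE t) p.e z y + ENNReal.ofReal (hE t 1) * ‖p.q 1 z y‖ₑ) (D * t).toNNReal ∧
        LB g.vol (Metric.closedBall 0 ρ) (pN m)
        (fun z y => mk (hE t) p.e z y + ENNReal.ofReal (hE t 1) * ‖p.q 1 z y‖ₑ)
          (D * t).toNNReal) := by
  have hm' : (1 : ℝ) ≤ m := by exact_mod_cast hm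
  have e1 : (m : ℝ) * (1 - 1) / 1 = 0 := by simp
  have e2 : (m : ℝ) * (pN m - 1) / pN m = m / (2 * m + 1) := by
    unfold pN
    push_cast
    field_simp
    ring
  have e3 : 2 * ((m : ℝ) / (2 * m + 1)) = 2 * m / (2 * m + 1) := by ring
  have hpN : 1 ≤ pN m := by
    unfold pN
    push_cast
    rw [le_div_iff₀ (by positivity)]
    linarith
  obtain ⟨D1, hD1, h1⟩ := L2a5_all hm p (P := 1) le_rfl (by rw [e1]; norm_num)
  obtain ⟨D2, hD2, h2⟩ := L2a5_all hm p (P := pN m) hpN (by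
    rw [e2, div_lt_div_iff₀ (by positivity) (by norm_num)]
    linarith)
  refine ⟨D1 + D2, by positivity, fun t ht ht1 => ?_⟩
  obtain ⟨a1, a2, a3⟩ := h1 t ht ht1
  obtain ⟨b1, b2, b3⟩ := h2 t ht ht1
  rw [e1, mul_zero, neg_zero, Real.rpow_zero, mul_one] at a1 a2
  rw [e2, e3] at b1 b2
  have hp0 : 0 ≤ pN m := zero_le_one.trans hpN
  have k1 : D1.toNNReal ≤ (D1 + D2).toNNReal := Real.toNNReal_le_toNNReal (by linarith)
  have k2 : (D2 * t ^ (-(2 * m / (2 * m + 1) : ℝ))).toNNReal ≤ sz m (D1 + D2) t := by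
    refine Real.toNNReal_le_toNNReal ?_
    have h6 : 0 ≤ t ^ (-(2 * m / (2 * m + 1) : ℝ)) := Real.rpow_nonneg ht.le _
    gcongr
    linarith
  have k3 : (D1 * t).toNNReal ≤ ((D1 + D2) * t).toNNReal :=
    Real.toNNReal_le_toNNReal (by nlinarith)
  have k4 : (D2 * t).toNNReal ≤ ((D1 + D2) * t).toNNReal :=
    Real.toNNReal_le_toNNReal (by nlinarith)
  exact ⟨⟨L2a5_mono zero_le_one a1 k1, L2a5_mono hp0 b1 k2⟩,
    ⟨L2a5_mono zero_le_one a2 k1, L2a5_mono hp0 b2 k2⟩,
    ⟨L2a5_mono zero_le_one a3 k3, L2a5_mono hp0 b3 k4⟩⟩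


end Pool.Agent.Lib.MP_df705a_gt.SV
end
end
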