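import Pool.Agent.Lib.MP_df705a_gt.Mg.G077
import Pool.Agent.Lib.MP_df705a_gt.Mg.G075
import Pool.Agent.Lib.MP_df705a_gt.Mg.G072
import Pool.Agent.Lib.MP_df705a_gt.Mg.G076
import Pool.Agent.Lib.MP_df705a_gt.SV.L1

section

/-!
# SV, block A: scaling, bounds, continuity and measurability of the model kernel
-/

open scoped ContDiff InnerProductSpace Matrix Topology Real ENNReal
open MeasureTheory Filter

noncomputable section

set_option linter.unusedSectionVars false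

namespace Pool.Agent.Lib.MP_df705a_gt.RL

open Pool.Agent.Lib.MP_df705a_gt.SV (hmod)

variable {m N : ℕ}

theorem cX_zero (t : ℝ) (p : V N × (Fin N → V N)) : cX t p 0 = p.1 := by
  simp [cX, cW]

theorem cX_succ (t : ℝ) (p : V N × (Fin N → V N)) (i j : Fin (N + 1)) :
    cX t p i = cX t p j + t • (cW p.2 i - cW p.2 j) := by
  unfold cX
  rw [smul_sub]
  abel

/-- The linear maps `cW · j`. -/
def cWl (j : Fin (N + 1)) : (Fin N → V N) →ₗ[ℝ] V N :=
  Fin.cases (0 : (Fin N → V N) →ₗ[ℝ] V N) (fun i => LinearMap.proj i) j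

theorem cWl_apply (j : Fin (N + 1)) (w : Fin N → V N) : cWl j w = cW w j := by
  unfold cWl cW
  refine Fin.cases ?_ (fun i => ?_) j
  · simp
  · simp

theorem cW_single (i : Fin N) (v : V N) {k : Fin (N + 1)} (hk : k ≠ i.succ) :
    cW (Pi.single i v) k = 0 := by
  unfold cW
  revert hk
  refine Fin.cases ?_ (fun l hl => ?_) k
  · intro _
    simp
  · rw [Fin.cons_succ]
    have h2 : l ≠ i := fun h => hl (congrArg Fin.succ h)
    simp [h2]

/-- Almost every `w` has distinct neighbours. -/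
theorem A08_ae (hN : 0 < N) : ∀ᵐ w : Fin N → V N, ∀ j : Fin (N + 1),
    cW w (j + 1) - cW w j ≠ 0 := by
  rw [ae_all_iff]
  intro j
  have h1 : LinearMap.ker (cWl (j + 1) - cWl j : (Fin N → V N) →ₗ[ℝ] V N) ≠ ⊤ := by
    intro h
    have h0 : ∀ w : Fin N → V N, cW w (j + 1) = cW w j := by
      intro w
      have : w ∈ LinearMap.ker (cWl (j + 1) - cWl j : (Fin N → V N) →ₗ[ℝ] V N) := by
        rw [h]
        trivial
      rw [LinearMap.mem_ker, LinearMap.sub_apply, sub_eq_zero, cWl_apply, cWl_apply] at this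
      exact this
    have hne : j + 1 ≠ j := by
      intro h
      have : (1 : Fin (N + 1)) = 0 := by simpa using h
      rw [Fin.one_eq_zero_iff] at this
      omega
    obtain ⟨v, hv⟩ : ∃ v : V N, v ≠ 0 := by
      refine ⟨EuclideanSpace.single ⟨0, hN⟩ (1 : ℝ), fun h => ?_⟩
      have := congrArg (fun v : V N => v ⟨0, hN⟩) h
      simp at this
    rcases Fin.eq_zero_or_eq_succ j with h2 | ⟨i, h2⟩
    · rcases Fin.eq_zero_or_eq_succ (j + 1) with h3 | ⟨i, h3⟩
      · exact hne (h3.trans h2.symm)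
      · have h4 := h0 (Pi.single i v)
        rw [cW_single i v (k := j) (by rw [← h3]; exact hne.symm), h3] at h4
        rw [cW, Fin.cons_succ, Pi.single_eq_same] at h4
        exact hv h4
    · have h4 := h0 (Pi.single i v)
      rw [cW_single i v (k := j + 1) (by rw [← h2]; exact hne), h2] at h4
      rw [cW, Fin.cons_succ, Pi.single_eq_same] at h4
      exact hv h4.symm
  have h2 := Measure.addHaar_submodule (volume : Measure (Fin N → V N)) _ h1
  rw [ae_iff]
  refine measure_mono_null (fun w hw => ?_) h2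
  have hw' : cW w (j + 1) - cW w j = 0 := not_not.1 hw
  show cWl (j + 1) w - cWl j w = 0
  rw [cWl_apply, cWl_apply]
  exact hw'

/-! ### the model kernel -/

theorem hmod_scale (g : Geo (2 * m)) (x u : V (2 * m)) {t : ℝ} (ht : 0 < t) :
    t ^ (2 * m) * hmod g t x (x + t • u) = kG g x u := by
  unfold hmod kG
  have h1 := integral_comp_mul_left_Ioi (fun r => Real.exp (-(r / t ^ 2)) * gs g x (t • u) r) 0
    (b := t ^ 2) (by positivity)
  rw [mul_zero, smul_eq_mul] at h1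
  rw [add_sub_cancel_left, ← h1, ← integral_const_mul]
  refine setIntegral_congr_fun measurableSet_Ioi fun s hs => ?_
  have hs' : (0 : ℝ) < s := hs
  rw [mul_div_cancel_left₀ _ (by positivity : t ^ 2 ≠ 0), ← gs_scale g x u ht hs']
  ring

theorem hmod_nonneg (g : Geo (2 * m)) (t : ℝ) (x y : V (2 * m)) : 0 ≤ hmod g t x y := by
  unfold hmod
  refine mul_nonneg (by positivity) (setIntegral_nonneg measurableSet_Ioi fun s hs => ?_)
  exact mul_nonneg (Real.exp_pos _).le (gs_pos g x _ hs).le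

theorem measurable_hmod (g : Geo (2 * m)) (t : ℝ) :
    Measurable fun q : V (2 * m) × V (2 * m) => hmod g t q.1 q.2 := by
  have h1 : Measurable fun q : (V (2 * m) × V (2 * m)) × ℝ =>
      Real.exp (-(q.2 / t ^ 2)) * gs g q.1.1 (q.1.2 - q.1.1) q.2 := by
    unfold gs
    have h3 : Measurable fun q : (V (2 * m) × V (2 * m)) × ℝ =>
        ((q.1.1, q.1.2 - q.1.1) : V (2 * m) × V (2 * m)) := by fun_prop
    have h2 : Measurable fun q : (V (2 * m) × V (2 * m)) × ℝ => qf g q.1.1 (q.1.2 - q.1.1) := by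
      have h4 := (continuous_qf g).measurable.comp h3
      exact h4
    exact (Real.measurable_exp.comp (measurable_snd.div_const _).neg).mul
      (((measurable_snd.const_mul (4 * π)).pow_const m).inv.mul
        (Real.measurable_exp.comp (h2.div (measurable_snd.const_mul 4)).neg))
  exact ((h1.stronglyMeasurable.integral_prod_right').measurable).const_mul _

theorem kG_le_kD (g : Geo (2 * m)) (ρ : ℝ) : ∃ κ : ℝ, 0 < κ ∧ ∀ z u : V (2 * m), ‖z‖ ≤ ρ →
    u ≠ 0 → kG g z u ≤ kD m κ u := by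
  obtain ⟨κ, hκ, h⟩ := gs_le_gz g ρ
  refine ⟨κ, hκ, fun z u hz hu => ?_⟩
  unfold kG kD
  refine setIntegral_mono_on (A03_int_gs g z hu) (integrableOn_gz hκ hu) measurableSet_Ioi
    fun s hs => ?_
  exact mul_le_mul_of_nonneg_left (h z u hz s hs) (Real.exp_pos _).le

theorem continuous_kG (g : Geo (2 * m)) {u : V (2 * m)} (hu : u ≠ 0) :
    Continuous fun x => kG g x u := by
  rw [continuous_iff_continuousAt]
  intro x
  obtain ⟨κ, hκ, h⟩ := gs_le_gz g (‖x‖ + 1)
  have key := tendsto_integral_filter_of_dominated_convergence (μ := volume.restrict (Set.Ioi 0))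
    (l := 𝓝 x) (F := fun (y : V (2 * m)) (s : ℝ) => Real.exp (-s) * gs g y u s)
    (f := fun s : ℝ => Real.exp (-s) * gs g x u s)
    (fun s : ℝ => Real.exp (-s) * gz m κ u s) ?_ ?_ (integrableOn_gz hκ hu) ?_
  · exact key
  · exact Filter.Eventually.of_forall fun y => ((Real.continuous_exp.comp
      continuous_neg).continuousOn.mul (A03_contOn_gs g y u)).aestronglyMeasurable measurableSet_Ioi
  · have h1 : ∀ᶠ y in 𝓝 x, ‖y‖ ≤ ‖x‖ + 1 := by
      have : Tendsto (fun y : V (2 * m) => ‖y‖) (𝓝 x) (𝓝 ‖x‖) := continuous_norm.continuousAt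
      filter_upwards [this.eventually (gt_mem_nhds (show ‖x‖ < ‖x‖ + 1 by linarith))] with y hy
      exact hy.le
    filter_upwards [h1] with y hy
    filter_upwards [ae_restrict_mem measurableSet_Ioi] with s hs
    have h2 := gs_pos g y u hs
    rw [Real.norm_of_nonneg (mul_nonneg (Real.exp_pos _).le h2.le)]
    exact mul_le_mul_of_nonneg_left (h y u hy s hs) (Real.exp_pos _).le
  · filter_upwards [ae_restrict_mem measurableSet_Ioi] with s hs
    unfold gs
    have h3 : Continuous fun y : V (2 * m) => ((y, u) : V (2 * m) × V (2 * m)) := by fun_prop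
    have h4 := (continuous_qf g).comp h3
    have h5 := h4.tendsto x
    simp only [Function.comp_apply] at h5
    exact (((h5.div_const (4 * s)).neg.rexp.const_mul ((4 * π * s) ^ m)⁻¹).const_mul
      (Real.exp (-s)))

end Pool.Agent.Lib.MP_df705a_gt.RL
end
end

section

/-!
# SV, block A: the constant `κ`
-/

open scoped ContDiff InnerProductSpace Matrix Topology Real ENNReal
open MeasureTheory Filter

noncomputable section

set_option linter.unusedSectionVars false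

namespace Pool.Agent.Lib.MP_df705a_gt.RL

open Pool.Agent.Lib.MP_df705a_gt.SV (hmod)

variable {m N : ℕ}

/-- The flat metric. -/
def flatG (N : ℕ) : Geo N where
  θ := fun _ => 1
  e := fun _ => 1
  Γ := fun _ _ => 0
  smooth_θ := fun _ _ => contDiff_const
  smooth_e := fun _ _ => contDiff_const
  smooth_Γ := fun _ _ _ => contDiff_const
  θe := fun _ => mul_one 1
  eθ := fun _ => mul_one 1
  det_pos := fun _ => by rw [Matrix.det_one]; exact one_pos
  anti := fun _ _ _ _ => by simp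
  torsion := fun μ ν y a => by simp [pd]

/-- The Euclidean kernel. -/
def k0 (m : ℕ) (u : V (2 * m)) : ℝ := kG (flatG (2 * m)) 0 u

/-- The constant. -/
def kapA (m : ℕ) : ℝ :=
  ∫ w : Fin (2 * m) → V (2 * m), ∏ j : Fin (2 * m + 1), k0 m (cW w (j + 1) - cW w j)

/-- The matrix `θ` as a linear map. -/
def thL (g : Geo N) (x : V N) : V N →ₗ[ℝ] V N := Matrix.toEuclideanLin (g.θ x)

theorem det_thL (g : Geo N) (x : V N) : LinearMap.det (thL g x) = (g.θ x).det := by
  rw [thL, Matrix.toEuclideanLin_eq_toLin_orthonormal, LinearMap.det_toLin]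

theorem qf_thL (g : Geo N) (x u : V N) : qf (flatG N) 0 (thL g x u) = qf g x u := by
  rw [qf_eq, qf_eq]
  refine Finset.sum_congr rfl fun a _ => ?_
  congr 1
  have h1 : ∀ μ, (flatG N).θ 0 a μ = (1 : Mt N) a μ := fun μ => rfl
  simp only [h1, Matrix.one_apply, ite_mul, one_mul, zero_mul, Finset.sum_ite_eq,
    Finset.mem_univ, if_true]
  rfl

theorem kG_eq_k0 (g : Geo (2 * m)) (x u : V (2 * m)) : kG g x u = k0 m (thL g x u) := by
  unfold k0 kG gs
  simp only [qf_thL]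

theorem measurable_kG (g : Geo (2 * m)) (x : V (2 * m)) : Measurable fun u => kG g x u := by
  have h1 : ∀ u, kG g x u = hmod g 1 x (x + u) := by
    intro u
    rw [← hmod_scale g x u one_pos, one_pow, one_mul, one_smul]
  have h2 : (fun u => kG g x u) = fun u => hmod g 1 x (x + u) := funext h1
  rw [h2]
  have h3 : Measurable fun u : V (2 * m) => ((x, x + u) : V (2 * m) × V (2 * m)) := by fun_prop
  have h4 := (measurable_hmod g 1).comp h3
  simpa only [Function.comp_def] using h4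

theorem measurable_k0 (m : ℕ) : Measurable (k0 m) := measurable_kG (flatG (2 * m)) 0

/-- The integrand of the constant. -/
theorem integrable_cG (hm : 0 < m) (g : Geo (2 * m)) (x : V (2 * m)) :
    Integrable fun w : Fin (2 * m) → V (2 * m) =>
      ∏ j : Fin (2 * m + 1), kG g x (cW w (j + 1) - cW w j) := by
  obtain ⟨κ, hκ, h⟩ := kG_le_kD g ‖x‖
  refine (integrable_cD hm hκ).mono' ?_ ?_
  · exact (Finset.measurable_fun_prod _ fun j _ => (measurable_kG g x).comp
      ((measurable_cW _).sub (measurable_cW _))).aestronglyMeasurable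
  · filter_upwards [A08_ae (N := 2 * m) (by omega)] with w hw
    rw [Real.norm_of_nonneg (Finset.prod_nonneg fun _ _ => kG_nonneg _ _ _)]
    exact Finset.prod_le_prod (fun _ _ => kG_nonneg _ _ _) fun j _ => h x _ le_rfl (hw j)

theorem kapA_pos (hm : 0 < m) : 0 < kapA m := by
  unfold kapA k0
  rw [integral_pos_iff_support_of_nonneg]
  · have h1 : volume (Function.support fun w : Fin (2 * m) → V (2 * m) =>
        ∏ j : Fin (2 * m + 1), kG (flatG (2 * m)) 0 (cW w (j + 1) - cW w j))ᶜ = 0 := by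
      refine measure_mono_null (fun w hw => ?_) (ae_iff.1 (A08_ae (N := 2 * m) (by omega)))
      intro hw2
      refine hw ?_
      exact (Finset.prod_pos fun j _ => kG_pos _ _ (hw2 j)).ne'
    rw [pos_iff_ne_zero]
    intro h2
    have h3 : volume (Set.univ : Set (Fin (2 * m) → V (2 * m))) = 0 := by
      rw [← Set.union_compl_self (Function.support fun w : Fin (2 * m) → V (2 * m) =>
        ∏ j : Fin (2 * m + 1), kG (flatG (2 * m)) 0 (cW w (j + 1) - cW w j))]
      exact measure_union_null h2 h1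
    exact (NeZero.ne (volume : Measure (Fin (2 * m) → V (2 * m)))) (Measure.measure_univ_eq_zero.1 h3)
  · intro w
    exact Finset.prod_nonneg fun _ _ => kG_nonneg _ _ _
  · exact integrable_cG hm _ _

/-- The change of variables. -/
theorem integral_cG (g : Geo (2 * m)) (x : V (2 * m)) :
    ∫ w : Fin (2 * m) → V (2 * m), ∏ j : Fin (2 * m + 1), kG g x (cW w (j + 1) - cW w j)
      = ((g.θ x).det ^ (2 * m))⁻¹ * kapA m := by
  obtain ⟨L, hL⟩ : ∃ L : (Fin (2 * m) → V (2 * m)) →ₗ[ℝ] (Fin (2 * m) → V (2 * m)),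
    L = LinearMap.pi fun i => (thL g x).comp (LinearMap.proj i) := ⟨_, rfl⟩
  have hd : LinearMap.det L = (g.θ x).det ^ (2 * m) := by
    rw [hL, LinearMap.det_pi, Finset.prod_const, Finset.card_univ, Fintype.card_fin, det_thL]
  have hpos : 0 < (g.θ x).det ^ (2 * m) := pow_pos (g.det_pos x) _
  have hmap := Measure.map_linearMap_addHaar_eq_smul_addHaar
    (volume : Measure (Fin (2 * m) → V (2 * m))) (f := L) (by rw [hd]; exact hpos.ne')
  have hLm : Measurable L := (LinearMap.continuous_of_finiteDimensional L).measurable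
  obtain ⟨f, hf⟩ : ∃ f : (Fin (2 * m) → V (2 * m)) → ℝ, f = fun w =>
    ∏ j : Fin (2 * m + 1), k0 m (cW w (j + 1) - cW w j) := ⟨_, rfl⟩
  have hfm : Measurable f := by
    rw [hf]
    exact Finset.measurable_fun_prod _ fun j _ => (measurable_k0 m).comp
      ((measurable_cW _).sub (measurable_cW _))
  have h1 := integral_map (μ := (volume : Measure (Fin (2 * m) → V (2 * m)))) hLm.aemeasurable
    (f := f) hfm.aestronglyMeasurable
  have h2 : ∀ w, f (L w) = ∏ j : Fin (2 * m + 1), kG g x (cW w (j + 1) - cW w j) := by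
    intro w
    rw [hf]
    refine Finset.prod_congr rfl fun j _ => ?_
    have h3 : ∀ i, cW (L w) i = thL g x (cW w i) := by
      intro i
      rw [hL]
      unfold cW
      refine Fin.cases ?_ (fun i => ?_) i
      · simp
      · simp
    rw [h3, h3, ← map_sub, ← kG_eq_k0]
  rw [hmap, integral_smul_measure, hd, abs_of_pos (inv_pos.2 hpos),
    ENNReal.toReal_ofReal (inv_pos.2 hpos).le, smul_eq_mul] at h1
  rw [integral_congr_ae (Filter.Eventually.of_forall h2)] at h1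
  rw [← h1, hf]
  rfl

end Pool.Agent.Lib.MP_df705a_gt.RL
end
end

section

/-!
# SV, block A: the limit of the cyclic integrals of the model kernel
-/

open scoped ContDiff InnerProductSpace Matrix Topology Real ENNReal
open MeasureTheory Filter

noncomputable section

set_option linter.unusedSectionVars false

namespace Pool.Agent.Lib.MP_df705a_gt.RL

open Pool.Agent.Lib.MP_df705a_gt.SV (hmod)

variable {m N : ℕ}

/-- The restricted model kernel. -/
def hA (g : Geo (2 * m)) (R t : ℝ) (x y : V (2 * m)) : ℝ :=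
  if ‖x‖ ≤ R ∧ ‖y‖ ≤ R then hmod g t x y else 0

/-- The integrand with respect to the Lebesgue measure. -/
def HI (g : Geo (2 * m)) (F : Set (V (2 * m))) (Λ : (Fin (2 * m + 1) → V (2 * m)) → ℂ) (R t : ℝ)
    (x : Fin (2 * m + 1) → V (2 * m)) : ℂ :=
  F.indicator (fun _ => Λ x * (((∏ j, hA g R t (x j) (x (j + 1))) *
    ∏ j, (g.θ (x j)).det : ℝ) : ℂ)) (x 0)

/-- The scaled restricted kernel. -/
def hK (g : Geo (2 * m)) (R t : ℝ) (p : V (2 * m) × (Fin (2 * m) → V (2 * m)))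
    (j : Fin (2 * m + 1)) : ℝ :=
  if ‖cX t p j‖ ≤ R ∧ ‖cX t p (j + 1)‖ ≤ R then kG g (cX t p j) (cW p.2 (j + 1) - cW p.2 j) else 0

/-- The scaled integrand. -/
def JI (g : Geo (2 * m)) (F : Set (V (2 * m))) (Λ : (Fin (2 * m + 1) → V (2 * m)) → ℂ) (R t : ℝ)
    (p : V (2 * m) × (Fin (2 * m) → V (2 * m))) : ℂ :=
  F.indicator (fun _ => Λ (cX t p) * (((∏ j, hK g R t p j) *
    ∏ j, (g.θ (cX t p j)).det : ℝ) : ℂ)) p.1

/-- The limit of the integrand. -/
def J0 (g : Geo (2 * m)) (F : Set (V (2 * m))) (Λ : (Fin (2 * m + 1) → V (2 * m)) → ℂ)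
    (p : V (2 * m) × (Fin (2 * m) → V (2 * m))) : ℂ :=
  F.indicator (fun _ => Λ (fun _ => p.1) * (((∏ j : Fin (2 * m + 1),
    kG g p.1 (cW p.2 (j + 1) - cW p.2 j)) * (g.θ p.1).det ^ (2 * m + 1) : ℝ) : ℂ)) p.1

theorem measurable_hA (g : Geo (2 * m)) (R t : ℝ) :
    Measurable fun q : V (2 * m) × V (2 * m) => hA g R t q.1 q.2 := by
  unfold hA
  refine Measurable.ite ?_ (measurable_hmod g t) measurable_const
  exact (measurableSet_le (measurable_norm.comp measurable_fst) measurable_const).inter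
    (measurableSet_le (measurable_norm.comp measurable_snd) measurable_const)

theorem measurable_HI (g : Geo (2 * m)) {F : Set (V (2 * m))} (hF : MeasurableSet F)
    {Λ : (Fin (2 * m + 1) → V (2 * m)) → ℂ} (hΛ : Continuous Λ) (R t : ℝ) :
    Measurable (HI g F Λ R t) := by
  have h1 : Measurable fun x : Fin (2 * m + 1) → V (2 * m) =>
      (∏ j, hA g R t (x j) (x (j + 1))) * ∏ j, (g.θ (x j)).det := by
    refine Measurable.mul (Finset.measurable_fun_prod _ fun j _ => ?_)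
      (Finset.measurable_fun_prod _ fun j _ => ?_)
    · have h2 : Measurable fun x : Fin (2 * m + 1) → V (2 * m) => (x j, x (j + 1)) :=
        (measurable_pi_apply j).prodMk (measurable_pi_apply (j + 1))
      have h3 := (measurable_hA g R t).comp h2
      simpa only [Function.comp_def] using h3
    · exact g.continuous_det.measurable.comp (measurable_pi_apply j)
  have h2 : HI g F Λ R t = {x : Fin (2 * m + 1) → V (2 * m) | x 0 ∈ F}.indicator fun x =>
      Λ x * (((∏ j, hA g R t (x j) (x (j + 1))) * ∏ j, (g.θ (x j)).det : ℝ) : ℂ) := by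
    funext x
    unfold HI
    by_cases hx : x 0 ∈ F
    · rw [Set.indicator_of_mem hx, Set.indicator_of_mem (show x ∈ {x : Fin (2 * m + 1) →
        V (2 * m) | x 0 ∈ F} from hx)]
    · rw [Set.indicator_of_notMem hx, Set.indicator_of_notMem (show x ∉ {x : Fin (2 * m + 1) →
        V (2 * m) | x 0 ∈ F} from hx)]
  rw [h2]
  exact (hΛ.measurable.mul (Complex.measurable_ofReal.comp h1)).indicator
    (measurable_pi_apply 0 hF)

/-- The integral as a Lebesgue integral. -/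
theorem A10_leb (g : Geo (2 * m)) {F : Set (V (2 * m))} (hF : MeasurableSet F)
    (Λ : (Fin (2 * m + 1) → V (2 * m)) → ℂ) (R t : ℝ) :
    ∫ x in {x : Fin (2 * m + 1) → V (2 * m) | x 0 ∈ F},
      Λ x * ((∏ j, hA g R t (x j) (x (j + 1)) : ℝ) : ℂ) ∂(Measure.pi fun _ => g.vol)
      = ∫ x, HI g F Λ R t x := by
  have hS : MeasurableSet {x : Fin (2 * m + 1) → V (2 * m) | x 0 ∈ F} := measurable_pi_apply 0 hF
  have hd : Measurable fun x : Fin (2 * m + 1) → V (2 * m) =>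
      ∏ j, ENNReal.ofReal (g.θ (x j)).det :=
    Finset.measurable_fun_prod _ fun j _ =>
      (g.continuous_det.measurable.comp (measurable_pi_apply j)).ennreal_ofReal
  rw [← integral_indicator hS, pi_vol, integral_withDensity_eq_integral_toReal_smul hd
    (Filter.Eventually.of_forall fun x => ENNReal.prod_lt_top fun j _ => ENNReal.ofReal_lt_top)]
  refine integral_congr_ae (Filter.Eventually.of_forall fun x => ?_)
  simp only
  have h1 : (∏ j, ENNReal.ofReal (g.θ (x j)).det).toReal = ∏ j, (g.θ (x j)).det := by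
    rw [ENNReal.toReal_prod]
    exact Finset.prod_congr rfl fun j _ => ENNReal.toReal_ofReal (g.det_pos _).le
  rw [h1]
  unfold HI
  by_cases hx : x 0 ∈ F
  · rw [Set.indicator_of_mem (show x ∈ {x : Fin (2 * m + 1) → V (2 * m) | x 0 ∈ F} from hx),
      Set.indicator_of_mem hx, Complex.real_smul, Complex.ofReal_mul]
    ring
  · rw [Set.indicator_of_notMem (show x ∉ {x : Fin (2 * m + 1) → V (2 * m) | x 0 ∈ F} from hx),
      Set.indicator_of_notMem hx, smul_zero]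

theorem A10_hK (g : Geo (2 * m)) (R : ℝ) {t : ℝ} (ht : 0 < t)
    (p : V (2 * m) × (Fin (2 * m) → V (2 * m))) (j : Fin (2 * m + 1)) :
    hK g R t p j = t ^ (2 * m) * hA g R t (cX t p j) (cX t p (j + 1)) := by
  unfold hK hA
  by_cases h : ‖cX t p j‖ ≤ R ∧ ‖cX t p (j + 1)‖ ≤ R
  · rw [if_pos h, if_pos h, cX_succ t p (j + 1) j, hmod_scale g _ _ ht]
  · rw [if_neg h, if_neg h, mul_zero]

theorem A10_scale (g : Geo (2 * m)) (F : Set (V (2 * m)))
    (Λ : (Fin (2 * m + 1) → V (2 * m)) → ℂ) (R : ℝ) {t : ℝ} (ht : 0 < t)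
    (p : V (2 * m) × (Fin (2 * m) → V (2 * m))) :
    JI g F Λ R t p = ((t ^ (2 * m) * t ^ (2 * m * (2 * m)) : ℝ) : ℂ) * HI g F Λ R t (cX t p) := by
  unfold JI HI
  rw [cX_zero]
  by_cases hx : p.1 ∈ F
  · rw [Set.indicator_of_mem hx, Set.indicator_of_mem hx]
    have h1 : ∏ j, hK g R t p j = (t ^ (2 * m) * t ^ (2 * m * (2 * m))) *
        ∏ j, hA g R t (cX t p j) (cX t p (j + 1)) := by
      rw [Finset.prod_congr rfl fun j _ => A10_hK g R ht p j, Finset.prod_mul_distrib,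
        Finset.prod_const, Finset.card_univ, Fintype.card_fin]
      congr 1
      rw [← pow_mul, ← pow_add]
      congr 1
      ring
    rw [h1]
    push_cast
    ring
  · rw [Set.indicator_of_notMem hx, Set.indicator_of_notMem hx, mul_zero]

theorem A10_int (g : Geo (2 * m)) {F : Set (V (2 * m))} (hF : MeasurableSet F)
    {Λ : (Fin (2 * m + 1) → V (2 * m)) → ℂ} (hΛ : Continuous Λ) (R : ℝ) {t : ℝ} (ht : 0 < t) :
    (t : ℂ) ^ (2 * m) * ∫ x in {x : Fin (2 * m + 1) → V (2 * m) | x 0 ∈ F},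
      Λ x * ((∏ j, hA g R t (x j) (x (j + 1)) : ℝ) : ℂ) ∂(Measure.pi fun _ => g.vol)
      = ∫ p, JI g F Λ R t p := by
  rw [A10_leb g hF, integral_cyc _ (measurable_HI g hF hΛ R t).aestronglyMeasurable ht,
    integral_congr_ae (Filter.Eventually.of_forall fun p => A10_scale g F Λ R ht p),
    integral_const_mul, Complex.real_smul]
  push_cast
  ring

theorem continuous_cX (p : V N × (Fin N → V N)) : Continuous fun t => cX t p := by
  refine continuous_pi fun j => ?_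
  unfold cX
  fun_prop

theorem cX_at_zero (p : V N × (Fin N → V N)) : cX 0 p = fun _ => p.1 := by
  funext j
  unfold cX
  rw [zero_smul, add_zero]

theorem measurable_cX (t : ℝ) : Measurable fun p : V N × (Fin N → V N) => cX t p := by
  refine measurable_pi_lambda _ fun j => ?_
  unfold cX
  exact measurable_fst.add (((measurable_cW j).comp measurable_snd).const_smul t)

/-- The pointwise limit. -/
theorem A10_ptw (g : Geo (2 * m)) {F : Set (V (2 * m))} {R : ℝ} (hR : ∀ x ∈ F, ‖x‖ < R)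
    {Λ : (Fin (2 * m + 1) → V (2 * m)) → ℂ} (hΛ : Continuous Λ)
    {p : V (2 * m) × (Fin (2 * m) → V (2 * m))}
    (hp : ∀ j : Fin (2 * m + 1), cW p.2 (j + 1) - cW p.2 j ≠ 0) :
    Tendsto (fun t : ℝ => JI g F Λ R t p) (𝓝[>] 0) (𝓝 (J0 g F Λ p)) := by
  unfold JI J0
  by_cases hx : p.1 ∈ F
  · simp only [Set.indicator_of_mem hx]
    have h0 : Tendsto (fun t => cX t p) (𝓝[>] 0) (𝓝 fun _ => p.1) := by
      have h := (continuous_cX p).tendsto 0
      rw [cX_at_zero] at h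
      exact h.mono_left nhdsWithin_le_nhds
    have h1 : ∀ j, Tendsto (fun t => cX t p j) (𝓝[>] 0) (𝓝 p.1) := fun j =>
      (tendsto_pi_nhds.1 h0) j
    have h2 : ∀ j, ∀ᶠ t in 𝓝[>] (0 : ℝ), ‖cX t p j‖ ≤ R := fun j => by
      filter_upwards [(h1 j).norm.eventually (gt_mem_nhds (hR _ hx))] with t ht
      exact ht.le
    have h3 : ∀ j, Tendsto (fun t => hK g R t p j) (𝓝[>] 0)
        (𝓝 (kG g p.1 (cW p.2 (j + 1) - cW p.2 j))) := by
      intro j
      have h4 : Tendsto (fun t => kG g (cX t p j) (cW p.2 (j + 1) - cW p.2 j)) (𝓝[>] 0)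
          (𝓝 (kG g p.1 (cW p.2 (j + 1) - cW p.2 j))) :=
        ((continuous_kG g (hp j)).tendsto p.1).comp (h1 j)
      refine h4.congr' ?_
      filter_upwards [h2 j, h2 (j + 1)] with t ht1 ht2
      unfold hK
      rw [if_pos ⟨ht1, ht2⟩]
    have h5 : Tendsto (fun t => ∏ j, hK g R t p j) (𝓝[>] 0)
        (𝓝 (∏ j : Fin (2 * m + 1), kG g p.1 (cW p.2 (j + 1) - cW p.2 j))) :=
      tendsto_finsetProd _ fun j _ => h3 j
    have h6 : Tendsto (fun t => ∏ j, (g.θ (cX t p j)).det) (𝓝[>] 0)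
        (𝓝 ((g.θ p.1).det ^ (2 * m + 1))) := by
      have h7 : Tendsto (fun t => ∏ j : Fin (2 * m + 1), (g.θ (cX t p j)).det) (𝓝[>] 0)
          (𝓝 (∏ j : Fin (2 * m + 1), (g.θ p.1).det)) :=
        tendsto_finsetProd _ fun j _ => (g.continuous_det.tendsto p.1).comp (h1 j)
      rwa [Finset.prod_const, Finset.card_univ, Fintype.card_fin] at h7
    exact ((hΛ.tendsto _).comp h0).mul
      ((Complex.continuous_ofReal.tendsto _).comp (h5.mul h6))
  · simp only [Set.indicator_of_notMem hx]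
    exact tendsto_const_nhds

theorem measurable_kG2 (g : Geo (2 * m)) :
    Measurable fun q : V (2 * m) × V (2 * m) => kG g q.1 q.2 := by
  have h1 : ∀ q : V (2 * m) × V (2 * m), kG g q.1 q.2 = hmod g 1 q.1 (q.1 + q.2) := by
    intro q
    rw [← hmod_scale g q.1 q.2 one_pos, one_pow, one_mul, one_smul]
  have h2 : (fun q : V (2 * m) × V (2 * m) => kG g q.1 q.2)
      = fun q => hmod g 1 q.1 (q.1 + q.2) := funext h1
  rw [h2]
  have h3 : Measurable fun q : V (2 * m) × V (2 * m) =>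
      ((q.1, q.1 + q.2) : V (2 * m) × V (2 * m)) := by fun_prop
  have h4 := (measurable_hmod g 1).comp h3
  simpa only [Function.comp_def] using h4

theorem measurable_J0 (g : Geo (2 * m)) {F : Set (V (2 * m))} (hF : MeasurableSet F)
    {Λ : (Fin (2 * m + 1) → V (2 * m)) → ℂ} (hΛ : Continuous Λ) : Measurable (J0 g F Λ) := by
  have h1 : Measurable fun p : V (2 * m) × (Fin (2 * m) → V (2 * m)) =>
      (∏ j : Fin (2 * m + 1), kG g p.1 (cW p.2 (j + 1) - cW p.2 j)) *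
        (g.θ p.1).det ^ (2 * m + 1) := by
    refine Measurable.mul (Finset.measurable_fun_prod _ fun j _ => ?_)
      ((g.continuous_det.measurable.comp measurable_fst).pow_const _)
    have h2 : Measurable fun p : V (2 * m) × (Fin (2 * m) → V (2 * m)) =>
        (p.1, cW p.2 (j + 1) - cW p.2 j) :=
      measurable_fst.prodMk (((measurable_cW _).comp measurable_snd).sub
        ((measurable_cW _).comp measurable_snd))
    have h3 := (measurable_kG2 g).comp h2
    simpa only [Function.comp_def] using h3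
  have h4 : Measurable fun p : V (2 * m) × (Fin (2 * m) → V (2 * m)) =>
      Λ (fun _ => p.1) := by
    have h5 : Measurable fun p : V (2 * m) × (Fin (2 * m) → V (2 * m)) =>
        (fun _ => p.1 : Fin (2 * m + 1) → V (2 * m)) := measurable_pi_lambda _ fun _ => measurable_fst
    exact hΛ.measurable.comp h5
  have h2 : J0 g F Λ = {p : V (2 * m) × (Fin (2 * m) → V (2 * m)) | p.1 ∈ F}.indicator fun p =>
      Λ (fun _ => p.1) * (((∏ j : Fin (2 * m + 1),
        kG g p.1 (cW p.2 (j + 1) - cW p.2 j)) * (g.θ p.1).det ^ (2 * m + 1) : ℝ) : ℂ) := by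
    funext x
    unfold J0
    by_cases hx : x.1 ∈ F
    · rw [Set.indicator_of_mem hx, Set.indicator_of_mem (show x ∈ {p : V (2 * m) ×
        (Fin (2 * m) → V (2 * m)) | p.1 ∈ F} from hx)]
    · rw [Set.indicator_of_notMem hx, Set.indicator_of_notMem (show x ∉ {p : V (2 * m) ×
        (Fin (2 * m) → V (2 * m)) | p.1 ∈ F} from hx)]
  rw [h2]
  exact (h4.mul (Complex.measurable_ofReal.comp h1)).indicator (measurable_fst hF)

/-- The bound. -/
theorem A10_bound (g : Geo (2 * m)) {F : Set (V (2 * m))} {R : ℝ}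
    (hR : ∀ x ∈ F, ‖x‖ < R) {Λ : (Fin (2 * m + 1) → V (2 * m)) → ℂ} (hΛ : Continuous Λ) :
    ∃ κ C : ℝ, 0 < κ ∧ 0 ≤ C ∧ ∀ p : V (2 * m) × (Fin (2 * m) → V (2 * m)),
      (∀ j : Fin (2 * m + 1), cW p.2 (j + 1) - cW p.2 j ≠ 0) →
      (∀ t : ℝ, ‖JI g F Λ R t p‖ ≤ C * (F.indicator 1 p.1 * cD m κ p.2)) ∧
      ‖J0 g F Λ p‖ ≤ C * (F.indicator 1 p.1 * cD m κ p.2) := by
  obtain ⟨κ, hκ, hk⟩ := kG_le_kD g R
  have hcpt : IsCompact (Set.univ.pi fun _ : Fin (2 * m + 1) => Metric.closedBall (0 : V (2 * m)) R) :=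
    isCompact_univ_pi fun _ => isCompact_closedBall _ _
  obtain ⟨C₁, hC₁⟩ := hcpt.exists_bound_of_continuousOn hΛ.continuousOn
  obtain ⟨C₂, hC₂⟩ := (isCompact_closedBall (0 : V (2 * m)) R).exists_bound_of_continuousOn
    g.continuous_det.continuousOn
  have hC₂' : ∀ x, ‖x‖ ≤ R → (g.θ x).det ≤ |C₂| := fun x hx => by
    have := hC₂ x (by simpa using hx)
    exact (le_abs_self _).trans (this.trans (le_abs_self _))
  have hC₁' : ∀ x : Fin (2 * m + 1) → V (2 * m), (∀ i, ‖x i‖ ≤ R) → ‖Λ x‖ ≤ |C₁| := fun x hx =>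
    (hC₁ x fun i _ => by simpa using hx i).trans (le_abs_self _)
  refine ⟨κ, |C₁| * |C₂| ^ (2 * m + 1), hκ, by positivity, fun p hp => ?_⟩
  have hcD : 0 ≤ cD m κ p.2 := cD_nonneg κ p.2
  by_cases hx : p.1 ∈ F
  · rw [Set.indicator_of_mem hx, Pi.one_apply, one_mul]
    constructor
    · intro t
      unfold JI
      rw [Set.indicator_of_mem hx]
      by_cases hall : ∀ j, ‖cX t p j‖ ≤ R
      · rw [norm_mul, Complex.norm_real, mul_assoc]
        refine mul_le_mul (hC₁' _ hall) ?_ (norm_nonneg _) (abs_nonneg _)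
        rw [Real.norm_of_nonneg (mul_nonneg (Finset.prod_nonneg fun j _ => ?_)
          (Finset.prod_nonneg fun j _ => (g.det_pos _).le)), mul_comm]
        · refine mul_le_mul ?_ ?_ (Finset.prod_nonneg fun j _ => ?_) (by positivity)
          · calc ∏ j, (g.θ (cX t p j)).det ≤ ∏ _j : Fin (2 * m + 1), |C₂| :=
                Finset.prod_le_prod (fun j _ => (g.det_pos _).le) fun j _ => hC₂' _ (hall j)
              _ = |C₂| ^ (2 * m + 1) := by simp
          · unfold cD hK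
            refine Finset.prod_le_prod (fun j _ => ?_) fun j _ => ?_
            · rw [if_pos ⟨hall j, hall (j + 1)⟩]
              exact kG_nonneg _ _ _
            · rw [if_pos ⟨hall j, hall (j + 1)⟩]
              exact hk _ _ (hall j) (hp j)
          · unfold hK
            rw [if_pos ⟨hall j, hall (j + 1)⟩]
            exact kG_nonneg _ _ _
        · unfold hK
          rw [if_pos ⟨hall j, hall (j + 1)⟩]
          exact kG_nonneg _ _ _
      · push Not at hall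
        obtain ⟨j, hj⟩ := hall
        have h1 : ∏ j, hK g R t p j = 0 := by
          refine Finset.prod_eq_zero (Finset.mem_univ j) ?_
          unfold hK
          rw [if_neg]
          intro h
          exact absurd h.1 (not_le.2 hj)
        rw [h1, zero_mul, Complex.ofReal_zero, mul_zero, norm_zero]
        positivity
    · unfold J0
      rw [Set.indicator_of_mem hx, norm_mul, Complex.norm_real, mul_assoc]
      have hx' := (hR _ hx).le
      refine mul_le_mul (hC₁' _ fun _ => hx') ?_ (norm_nonneg _) (abs_nonneg _)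
      rw [Real.norm_of_nonneg (mul_nonneg (Finset.prod_nonneg fun j _ => kG_nonneg _ _ _)
        (pow_nonneg (g.det_pos _).le _)), mul_comm]
      refine mul_le_mul (pow_le_pow_left₀ (g.det_pos _).le (hC₂' _ hx') _) ?_
        (Finset.prod_nonneg fun j _ => kG_nonneg _ _ _) (by positivity)
      exact Finset.prod_le_prod (fun j _ => kG_nonneg _ _ _) fun j _ => hk _ _ hx' (hp j)
  · rw [Set.indicator_of_notMem hx]
    unfold JI J0
    simp only [Set.indicator_of_notMem hx, norm_zero, zero_mul, mul_zero, le_refl, implies_true,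
      and_self]

theorem A10_ae (hm : 0 < m) : ∀ᵐ p : V (2 * m) × (Fin (2 * m) → V (2 * m)),
    ∀ j : Fin (2 * m + 1), cW p.2 (j + 1) - cW p.2 j ≠ 0 :=
  Measure.quasiMeasurePreserving_snd.ae (A08_ae (N := 2 * m) (by omega))

theorem A10_bint (hm : 0 < m) {F : Set (V (2 * m))} (hF : MeasurableSet F) {R : ℝ}
    (hR : ∀ x ∈ F, ‖x‖ < R) {κ : ℝ} (hκ : 0 < κ) (C : ℝ) :
    Integrable fun p : V (2 * m) × (Fin (2 * m) → V (2 * m)) =>
      C * (F.indicator (1 : V (2 * m) → ℝ) p.1 * cD m κ p.2) := by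
  refine Integrable.const_mul ?_ C
  refine Integrable.mul_prod (f := F.indicator (1 : V (2 * m) → ℝ)) (g := cD m κ) ?_
    (integrable_cD hm hκ)
  have h1 : IntegrableOn (1 : V (2 * m) → ℝ) F := by
    refine integrableOn_const (lt_of_le_of_lt (measure_mono (t := Metric.closedBall 0 R)
      fun x hx => ?_) measure_closedBall_lt_top).ne
    simpa using (hR x hx).le
  exact h1.integrable_indicator hF

/-- The limit of the integrals. -/
theorem A10_limit (hm : 0 < m) (g : Geo (2 * m)) {F : Set (V (2 * m))} (hF : MeasurableSet F)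
    {R : ℝ} (hR : ∀ x ∈ F, ‖x‖ < R) {Λ : (Fin (2 * m + 1) → V (2 * m)) → ℂ}
    (hΛ : Continuous Λ) :
    Tendsto (fun t : ℝ => (t : ℂ) ^ (2 * m) *
      ∫ x in {x : Fin (2 * m + 1) → V (2 * m) | x 0 ∈ F},
        Λ x * ((∏ j, hA g R t (x j) (x (j + 1)) : ℝ) : ℂ) ∂(Measure.pi fun _ => g.vol))
      (𝓝[>] 0) (𝓝 ((kapA m : ℂ) * ∫ x in F, Λ (fun _ => x) ∂g.vol)) := by
  obtain ⟨κ, C, hκ, hC, hb⟩ := A10_bound g hR hΛ
  have hbi := A10_bint hm hF hR hκ C
  have hae := A10_ae hm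
  have hpos : ∀ᶠ t : ℝ in 𝓝[>] 0, 0 < t := eventually_mem_nhdsWithin
  have h1 : Tendsto (fun t : ℝ => ∫ p, JI g F Λ R t p) (𝓝[>] 0) (𝓝 (∫ p, J0 g F Λ p)) := by
    refine tendsto_integral_filter_of_dominated_convergence
      (fun p => C * (F.indicator (1 : V (2 * m) → ℝ) p.1 * cD m κ p.2)) ?_ ?_ hbi ?_
    · filter_upwards [hpos] with t ht
      have h2 : JI g F Λ R t = fun p => ((t ^ (2 * m) * t ^ (2 * m * (2 * m)) : ℝ) : ℂ) *
          HI g F Λ R t (cX t p) := funext fun p => A10_scale g F Λ R ht p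
      rw [h2]
      exact (((measurable_HI g hF hΛ R t).comp (measurable_cX t)).const_mul _).aestronglyMeasurable
    · exact Filter.Eventually.of_forall fun t => hae.mono fun p hp => (hb p hp).1 t
    · exact hae.mono fun p hp => A10_ptw g hR hΛ hp
  have h2 : Integrable (J0 g F Λ) :=
    hbi.mono' (measurable_J0 g hF hΛ).aestronglyMeasurable (hae.mono fun p hp => (hb p hp).2)
  have h3 : ∫ p, J0 g F Λ p = (kapA m : ℂ) * ∫ x in F, Λ (fun _ => x) ∂g.vol := by
    rw [Measure.volume_eq_prod, integral_prod _ h2]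
    have h4 : ∀ x, ∫ w, J0 g F Λ (x, w) = F.indicator (fun x => (kapA m : ℂ) *
        ((g.θ x).det • Λ (fun _ => x))) x := by
      intro x
      unfold J0
      by_cases hx : x ∈ F
      · simp only [Set.indicator_of_mem hx]
        rw [integral_const_mul]
        simp only [Complex.ofReal_mul]
        rw [integral_mul_const, integral_complex_ofReal, integral_cG, Complex.real_smul]
        have h5 : (((g.θ x).det ^ (2 * m) : ℝ) : ℂ) ≠ 0 := by
          rw [Complex.ofReal_ne_zero]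
          exact (pow_pos (g.det_pos x) _).ne'
        push_cast at h5 ⊢
        field_simp
        ring
      · simp only [Set.indicator_of_notMem hx, integral_zero]
    rw [integral_congr_ae (Filter.Eventually.of_forall h4), integral_indicator hF,
      integral_const_mul]
    congr 1
    have h6 : Measurable fun y => ENNReal.ofReal (g.θ y).det :=
      g.continuous_det.measurable.ennreal_ofReal
    rw [Geo.vol, setIntegral_withDensity_eq_setIntegral_toReal_smul h6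
      (Filter.Eventually.of_forall fun x => ENNReal.ofReal_lt_top) _ hF]
    refine setIntegral_congr_fun hF fun x _ => ?_
    show _ = (ENNReal.ofReal (g.θ x).det).toReal • Λ (fun _ => x)
    rw [ENNReal.toReal_ofReal (g.det_pos x).le]
  rw [← h3]
  refine h1.congr' ?_
  filter_upwards [hpos] with t ht
  exact (A10_int g hF hΛ R ht).symm

end Pool.Agent.Lib.MP_df705a_gt.RL
end
end

section

/-!
# SV, block A: the functional `LG` of the restricted model kernel
-/

open scoped ContDiff InnerProductSpace Matrix ENNReal NNReal Topology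
open MeasureTheory Filter Set

noncomputable section

namespace Pool.Agent.Lib.MP_df705a_gt.SV

open Pool.Agent.Lib.MP_df705a_gt.RL

variable {m : ℕ}

theorem A13_prod_smul {A : Type*} [Ring A] [Algebra ℂ A] : ∀ (n : ℕ) (c : Fin n → ℂ)
    (b : Fin n → A), (List.ofFn fun i => c i • b i).prod = (∏ i, c i) • (List.ofFn b).prod := by
  intro n
  induction n with
  | zero =>
    intro c b
    simp
  | succ n ih =>
    intro c b
    rw [List.ofFn_succ, List.prod_cons, ih, Fin.prod_univ_succ, List.ofFn_succ, List.prod_cons,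
      smul_mul_smul_comm]

theorem A13_continuous_cd (C : Cliff m) (g : Geo (2 * m)) {ψ : V (2 * m) → ℝ}
    (hψ : ContDiff ℝ ∞ ψ) : Continuous (cd C g ψ) := by
  have h1 : ∀ a, Continuous fun x => ∑ μ, g.e x μ a * pd μ ψ x := fun a =>
    continuous_finsetSum _ fun μ _ => (g.smooth_e μ a).continuous.mul (contDiff_pd hψ μ).continuous
  unfold cd
  exact continuous_finsetSum _ fun a _ =>
    (Complex.continuous_ofReal.comp (h1 a)).smul continuous_const

/-- The coefficient function. -/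
def La (C : Cliff m) (ψ₀ : V (2 * m) → ℝ) (M : Fin (2 * m) → V (2 * m) → En m)
    (x : Fin (2 * m + 1) → V (2 * m)) : ℂ :=
  (ψ₀ (x 0) : ℂ) * trC m (C.eps * (List.ofFn fun j => M j (x j.succ)).prod)

theorem continuous_La (C : Cliff m) {ψ₀ : V (2 * m) → ℝ} (h₀ : Continuous ψ₀)
    {M : Fin (2 * m) → V (2 * m) → En m} (hM : ∀ j, Continuous (M j)) :
    Continuous (La C ψ₀ M) := by
  have h1 : Continuous fun x : Fin (2 * m + 1) → V (2 * m) =>
      (List.ofFn fun j => M j (x j.succ)).prod := by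
    have h2 : ∀ x : Fin (2 * m + 1) → V (2 * m), (List.ofFn fun j => M j (x j.succ))
        = (List.finRange (2 * m)).map fun j => M j (x j.succ) := fun x => List.ofFn_eq_map
    simp only [h2]
    exact continuous_list_prod _ fun j _ => (hM j).comp (continuous_apply _)
  have h3 : Continuous fun x : Fin (2 * m + 1) → V (2 * m) =>
      C.eps * (List.ofFn fun j => M j (x j.succ)).prod := Continuous.mul continuous_const h1
  have h4 : Continuous fun x : Fin (2 * m + 1) → V (2 * m) =>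
      trC m (C.eps * (List.ofFn fun j => M j (x j.succ)).prod) := (trC m).continuous.comp h3
  have h5 : Continuous fun x : Fin (2 * m + 1) → V (2 * m) => ψ₀ (x 0) :=
    h₀.comp (continuous_apply 0)
  have h6 : Continuous fun x : Fin (2 * m + 1) → V (2 * m) => (ψ₀ (x 0) : ℂ) :=
    Complex.continuous_ofReal.comp h5
  exact h6.mul h4

theorem A13_loop (C : Cliff m) (g : Geo (2 * m)) (R t : ℝ)
    (M : Fin (2 * m) → V (2 * m) → En m) (x : Fin (2 * m + 1) → V (2 * m)) :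
    loop (Fin.cons (fun x y => C.eps * rb R (fun x y => (hmod g t x y : ℂ) • (1 : En m)) x y)
      fun j x y => M j x * rb R (fun x y => (hmod g t x y : ℂ) • (1 : En m)) x y) x
      = ((∏ j, hA g R t (x j) (x (j + 1)) : ℝ) : ℂ) •
        (C.eps * (List.ofFn fun j => M j (x j.succ)).prod) := by
  have h1 : ∀ x y, rb R (fun x y => (hmod g t x y : ℂ) • (1 : En m)) x y
      = (hA g R t x y : ℂ) • (1 : En m) := by
    intro x y
    unfold rb hA
    by_cases h : ‖x‖ ≤ R ∧ ‖y‖ ≤ R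
    · rw [if_pos h, if_pos h]
    · rw [if_neg h, if_neg h, Complex.ofReal_zero]
      exact (zero_smul ℂ (1 : En m)).symm
  have h2 : ∀ (c : ℂ) (A : En m), A * (c • (1 : En m)) = c • A := by
    intro c A
    rw [mul_smul_comm, mul_one]
  unfold loop
  have h3 : (fun i : Fin (2 * m + 1) => (Fin.cons (α := fun _ => V (2 * m) → V (2 * m) → En m)
      (fun x y => C.eps * rb R (fun x y => (hmod g t x y : ℂ) • (1 : En m)) x y)
      (fun j x y => M j x * rb R (fun x y => (hmod g t x y : ℂ) • (1 : En m)) x y) i)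
        (x i) (x (i + 1)))
      = fun i : Fin (2 * m + 1) => (hA g R t (x i) (x (i + 1)) : ℂ) •
        (Fin.cons (α := fun _ => En m) C.eps (fun j => M j (x j.succ)) i) := by
    funext i
    refine Fin.cases ?_ (fun j => ?_) i
    · simp only [Fin.cons_zero]
      rw [h1, h2]
    · simp only [Fin.cons_succ]
      rw [h1, h2]
  have h4 := A13_prod_smul (2 * m + 1) (fun i => (hA g R t (x i) (x (i + 1)) : ℂ))
    (Fin.cons (α := fun _ => En m) C.eps (fun j => M j (x j.succ)))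
  rw [h3, Complex.ofReal_prod]
  refine h4.trans ?_
  congr 1
  rw [List.ofFn_succ, List.prod_cons]
  simp only [Fin.cons_zero, Fin.cons_succ]

/-- The functional of the restricted model kernel. -/
theorem A13_LG (C : Cliff m) (g : Geo (2 * m)) (R t : ℝ) (F : Set (V (2 * m)))
    (ψ₀ : V (2 * m) → ℝ) (M : Fin (2 * m) → V (2 * m) → En m) :
    LG g.vol (trC m) F C.eps ψ₀ M (rb R fun x y => (hmod g t x y : ℂ) • (1 : En m))
      = ∫ x in {x : Fin (2 * m + 1) → V (2 * m) | x 0 ∈ F},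
        La C ψ₀ M x * ((∏ j, hA g R t (x j) (x (j + 1)) : ℝ) : ℂ) ∂(Measure.pi fun _ => g.vol) := by
  unfold LG TT
  refine integral_congr_ae (Filter.Eventually.of_forall fun x => ?_)
  show (ψ₀ (x 0) : ℂ) * trC m (loop _ x) = _
  rw [A13_loop, map_smul, smul_eq_mul]
  unfold La
  ring

theorem A13_limit (hm : 0 < m) (C : Cliff m) (g : Geo (2 * m)) {F : Set (V (2 * m))}
    (hF : MeasurableSet F) {R : ℝ} (hR : ∀ x ∈ F, ‖x‖ < R) {ψ₀ : V (2 * m) → ℝ}
    (h₀ : Continuous ψ₀) {M : Fin (2 * m) → V (2 * m) → En m} (hM : ∀ j, Continuous (M j)) :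
    Tendsto (fun t : ℝ => (t : ℂ) ^ (2 * m) *
      LG g.vol (trC m) F C.eps ψ₀ M (rb R fun x y => (hmod g t x y : ℂ) • (1 : En m)))
      (𝓝[>] 0) (𝓝 ((kapA m : ℂ) * ∫ x in F, La C ψ₀ M (fun _ => x) ∂g.vol)) := by
  have h := A10_limit hm g hF hR (continuous_La C h₀ hM)
  refine h.congr fun t => ?_
  rw [A13_LG]

end Pool.Agent.Lib.MP_df705a_gt.SV
end
end

section

/-!
# SV, L1c: bounds for the kernel `D q`
-/

open scoped ContDiff InnerProductSpace Matrix ENNReal NNReal Topology Real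
open MeasureTheory Filter Set

noncomputable section

set_option linter.unusedSectionVars false

namespace Pool.Agent.Lib.MP_df705a_gt.SV

open Pool.Agent.Lib.MP_df705a_gt.RL

variable {m : ℕ}

/-- The rate. -/
abbrev rt0 (g : Geo (2 * m)) (ρ : ℝ) : ℝ := rate (Measure.dirac ()) g ρ

/-- PROOF. `Op.Q_bd` (RL/P11) at `x = ()`, `t = 0` (`Mom` functions are constants). -/
theorem Q0_bd (C : Cliff m) (g : Geo (2 * m)) (ρ : ℝ) : ∃ c : ℝ, 0 < c ∧
    ∀ r z v, ‖z‖ ≤ ρ → 0 < r → r ≤ 1 → ‖Q0 C g ρ z r v‖ ≤ c * gz m (rt0 g ρ) v r := by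
  obtain ⟨Φ, hΦ, h⟩ := (op0 C g ρ).Q_bd g (2 * m)
  refine ⟨Φ () + 1, by have := hΦ.nonneg (); linarith, fun r z v hz hr hr1 => ?_⟩
  have h1 := (h () z v r hz hr hr1 0 (by simp)).1
  refine h1.trans ?_
  exact mul_le_mul_of_nonneg_right (by linarith) (gz_nonneg _ _ hr.le)

/-- PROOF. `Op.Q_sub_bd` (RL/P11). -/
theorem Q0_lead (C : Cliff m) (g : Geo (2 * m)) (ρ : ℝ) : ∃ c : ℝ, 0 < c ∧
    ∀ r z v, ‖z‖ ≤ ρ → 0 < r → r ≤ 1 →
      ‖Q0 C g ρ z r v - (gs g z v r : ℂ) • (1 : En m)‖ ≤ c * (√r * gz m (rt0 g ρ) v r) := by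
  obtain ⟨Φ, hΦ, h⟩ := (op0 C g ρ).Q_sub_bd g (2 * m)
  refine ⟨Φ () + 1, by have := hΦ.nonneg (); linarith, fun r z v hz hr hr1 => ?_⟩
  have h1 := h () z v r hz hr hr1 0 (by simp)
  refine h1.trans ?_
  exact mul_le_mul_of_nonneg_right (by linarith)
    (mul_nonneg (Real.sqrt_nonneg r) (gz_nonneg _ _ hr.le))

theorem L1c_norm (a : ℝ) : ‖(a : ℂ) • (1 : En m)‖ = |a| := by
  have : Nonempty (Fin (2 ^ m)) := ⟨⟨0, by positivity⟩⟩
  rw [norm_smul, Complex.norm_real, Real.norm_eq_abs]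
  have h1 : ‖(1 : En m)‖ = 1 := ContinuousLinearMap.norm_id
  rw [h1, mul_one]

theorem L1c_pd_gs (g : Geo (2 * m)) (ρ : ℝ) (z v : V (2 * m)) {r : ℝ} (hr : 0 < r)
    (μ : Fin (2 * m)) : ((pd μ (fun v => gs g z v r) v : ℝ) : ℂ) • (1 : En m) =
      ((√r)⁻¹ : ℂ) • Wp (P := Measure.dirac ()) (ρ := ρ) g () z r (hM (hR g) μ 1) v := by
  rw [← pd_Wp g () z v hr μ 1]
  have e : Wp (P := Measure.dirac ()) (ρ := ρ) g () z r 1 =
      fun v => (gs g z v r : ℂ) • (1 : En m) := by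
    funext v
    rw [Wp, evM_one]
  rw [e]
  have h1 := Op.P11B_pd_smul (m := m) μ (c := fun v => gs g z v r) (u := fun _ => (1 : En m))
    (v := v) ((contDiff_gs g z r).differentiable (by simp) v) (differentiableAt_const _)
  rw [h1]
  have h2 : pd μ (fun _ : V (2 * m) => (1 : En m)) v = 0 := by
    unfold pd
    simp
  rw [h2]
  have h3 : ∀ c : ℂ, c • (0 : En m) = 0 := fun c => smul_zero (A := En m) c
  rw [h3, zero_add]

theorem L1c_U (C : Cliff m) (g : Geo (2 * m)) (ρ : ℝ) : ∃ c : ℝ, 0 ≤ c ∧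
    ∀ r z v, ‖z‖ ≤ ρ → 0 < r → r ≤ 1 → ∀ μ : Fin (2 * m),
      ‖((pd μ (chi (N := 2 * m)) v : ℝ) : ℂ) • (op0 C g ρ).U g (2 * m) 0 () z r v‖ ≤
        c * gz m (rt0 g ρ) v r := by
  obtain ⟨D, hD⟩ := pd_chi_bd (N := 2 * m)
  obtain ⟨Φ, hΦ, h⟩ := (op0 C g ρ).U_bd g (2 * m) 0
  refine ⟨|D| * Φ (), mul_nonneg (abs_nonneg _) (hΦ.nonneg ()), fun r z v hz hr hr1 μ => ?_⟩
  have h1 := h () z v r hz hr hr1 0 (by simp)
  rw [pow_zero, one_mul] at h1
  rw [norm_smul, Complex.norm_real, Real.norm_eq_abs, mul_assoc]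
  exact mul_le_mul ((hD v μ μ).1.trans (le_abs_self D)) h1 (norm_nonneg _) (abs_nonneg _)

/-- PROOF. `pd_Q0`, `pd_U_bd` (RL/P10, `k = 0`), `U_bd`, `pd_chi_bd`, `chi_le_one`; `1 ≤ (√r)⁻¹`. -/
theorem dQ0_bd (C : Cliff m) (g : Geo (2 * m)) (ρ : ℝ) (μ : Fin (2 * m)) : ∃ c : ℝ, 0 < c ∧
    ∀ r z v, ‖z‖ ≤ ρ → 0 < r → r ≤ 1 →
      ‖dQ0 C g ρ μ z r v‖ ≤ c * ((√r)⁻¹ * gz m (rt0 g ρ) v r) := by
  obtain ⟨c₁, hc₁, h1⟩ := L1c_U C g ρ
  obtain ⟨Φ, hΦ, h⟩ := (op0 C g ρ).pd_U_bd g (2 * m) 0 μ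
  have hΦ0 := hΦ.nonneg ()
  refine ⟨Φ () + c₁ + 1, by linarith, fun r z v hz hr hr1 => ?_⟩
  have h2 := h1 r z v hz hr hr1 μ
  have h3 := h () z v r hz hr hr1 0 (by simp)
  rw [pow_zero, one_mul, (op0 C g ρ).pd_U g (2 * m) 0 () z v hr μ] at h3
  have hG : 0 ≤ gz m (rt0 g ρ) v r := gz_nonneg _ _ hr.le
  have hs : 0 < √r := Real.sqrt_pos.2 hr
  have hs1 : 1 ≤ (√r)⁻¹ := (one_le_inv₀ hs).2 (Real.sqrt_le_one.2 hr1)
  unfold dQ0
  refine (norm_add_le _ _).trans ?_
  rw [Op.P11C_norm_chi]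
  calc chi v * ‖((√r)⁻¹ : ℂ) • ∑ n ∈ Finset.range (2 * m + 1), ((√r : ℂ) ^ n) • Wp g () z r
          (hM (hR g) μ (((op0 C g ρ).dat g).PT ((0 : ℝ) : ℂ) n)) v‖ +
        ‖((pd μ (chi (N := 2 * m)) v : ℝ) : ℂ) • (op0 C g ρ).U g (2 * m) 0 () z r v‖
      ≤ 1 * (Φ () * ((√r)⁻¹ * gz m (rt0 g ρ) v r)) + c₁ * gz m (rt0 g ρ) v r :=
        add_le_add (mul_le_mul (chi_le_one v) h3 (norm_nonneg _) zero_le_one) h2
    _ ≤ Φ () * ((√r)⁻¹ * gz m (rt0 g ρ) v r) + c₁ * ((√r)⁻¹ * gz m (rt0 g ρ) v r) := by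
        rw [one_mul]
        gcongr
        exact le_mul_of_one_le_left hG hs1
    _ ≤ (Φ () + c₁ + 1) * ((√r)⁻¹ * gz m (rt0 g ρ) v r) := by
        have : 0 ≤ (√r)⁻¹ * gz m (rt0 g ρ) v r := by positivity
        nlinarith

/-- PROOF. `dQ0 = chi pd μ U + (pd μ chi) U`; `pd μ gs • 1 = (√r)⁻¹ Wp (hM μ 1)` (`pd_Wp` for `p = 1`, `evM_one`);
`pd μ U - pd μ gs • 1 = (√r)⁻¹ ∑_{1 ≤ n} (√r)^n Wp (hM μ (PT n))` (`pd_U`, `PDat.PT_zero`), bounded by `P10_weights` with `q = 1` (as in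
`U_sub_bd`); `(1 - chi) pd μ gs`: it is zero for `‖v‖ ≤ 1/2`, otherwise `1 ≤ 2 ‖v‖ = 2 √r ‖(√r)⁻¹ v‖` and `Wp_bd'` with `k = 1`
(as in `Q_sub_bd`); `(pd μ chi) U`: `pd_chi_bd`, `U_bd`. -/
theorem dQ0_lead (C : Cliff m) (g : Geo (2 * m)) (ρ : ℝ) (μ : Fin (2 * m)) : ∃ c : ℝ, 0 < c ∧
    ∀ r z v, ‖z‖ ≤ ρ → 0 < r → r ≤ 1 →
      ‖dQ0 C g ρ μ z r v - ((pd μ (fun v => gs g z v r) v : ℝ) : ℂ) • (1 : En m)‖ ≤
        c * gz m (rt0 g ρ) v r := by
  obtain ⟨c₁, hc₁, h1⟩ := L1c_U C g ρ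
  obtain ⟨Φ, hΦ, h⟩ := Op.P10_weights g (op0 C g ρ) (Finset.Ico 1 (2 * m + 1)) 0
    (fun _ => hM (hR g) μ) (fun n _ => Op.PT_bd g (op0 C g ρ) n 0 (hM (hR g) μ)) 1
    fun n hn => (Finset.mem_Ico.1 hn).1
  obtain ⟨Ψ, hΨ, h2⟩ := Wp_bd' (P := Measure.dirac ()) (ρ := ρ) g (hM (hR g) μ 1) 1
  have hΦ0 := hΦ.nonneg ()
  have hΨ0 := hΨ.nonneg ()
  refine ⟨Φ () + 2 * Ψ () + c₁ + 1, by linarith, fun r z v hz hr hr1 => ?_⟩
  have hG : 0 ≤ gz m (rt0 g ρ) v r := gz_nonneg _ _ hr.le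
  have hs : 0 < √r := Real.sqrt_pos.2 hr
  have h3 := h1 r z v hz hr hr1 μ
  have h4 := h () z v r hz hr hr1 0 (by simp)
  have h5 := h2 () z v r hz hr
  rw [pow_zero, one_mul, pow_one] at h4
  rw [pow_one] at h5
  set W0 : En m := Wp (P := Measure.dirac ()) (ρ := ρ) g () z r (hM (hR g) μ 1) v with hW0
  set T : En m := ∑ n ∈ Finset.Ico 1 (2 * m + 1), ((√r : ℂ) ^ n) • Wp g () z r
    (hM (hR g) μ (((op0 C g ρ).dat g).PT ((0 : ℝ) : ℂ) n)) v with hT
  have hsum : ∑ n ∈ Finset.range (2 * m + 1), ((√r : ℂ) ^ n) • Wp g () z r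
      (hM (hR g) μ (((op0 C g ρ).dat g).PT ((0 : ℝ) : ℂ) n)) v = W0 + T := by
    rw [Finset.range_eq_Ico, Finset.sum_eq_sum_Ico_succ_bot (Nat.succ_pos (2 * m)), pow_zero,
      one_smul, PDat.PT_zero]
  have hin : ‖((√r)⁻¹ : ℂ)‖ = (√r)⁻¹ := by
    rw [← Complex.ofReal_inv, Complex.norm_real, Real.norm_of_nonneg (inv_nonneg.2 hs.le)]
  have e1 : dQ0 C g ρ μ z r v - ((pd μ (fun v => gs g z v r) v : ℝ) : ℂ) • (1 : En m) =
      (chi v : ℂ) • (((√r)⁻¹ : ℂ) • T) - ((1 - chi v : ℝ) : ℂ) • (((√r)⁻¹ : ℂ) • W0) +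
        ((pd μ (chi (N := 2 * m)) v : ℝ) : ℂ) • (op0 C g ρ).U g (2 * m) 0 () z r v := by
    have e2 : ((1 - chi v : ℝ) : ℂ) = 1 - (chi v : ℂ) := by push_cast; ring
    have e3 : ∀ A : En m, (1 : ℂ) • A = A := fun A => one_smul ℂ A
    have e4 : ∀ (a b : ℂ) (A : En m), (a - b) • A = a • A - b • A := fun a b A => sub_smul a b A
    rw [L1c_pd_gs g ρ z v hr μ, ← hW0]
    unfold dQ0
    rw [hsum, e2, e4, e3, smul_add, smul_add]
    abel
  have h6 : ‖((1 - chi v : ℝ) : ℂ) • (((√r)⁻¹ : ℂ) • W0)‖ ≤ 2 * Ψ () * gz m (rt0 g ρ) v r := by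
    rw [norm_smul, norm_smul, hin, Complex.norm_real,
      Real.norm_of_nonneg (sub_nonneg.2 (chi_le_one v))]
    by_cases hv : ‖v‖ ≤ 1 / 2
    · rw [chi_one hv, sub_self, zero_mul]
      positivity
    · have h7 : 1 ≤ 2 * (√r * ‖(√r)⁻¹ • v‖) := by
        rw [← Op.P11C_norm_eq v hr]
        linarith
      have h8 : 0 ≤ (√r)⁻¹ * ‖W0‖ := by positivity
      calc (1 - chi v) * ((√r)⁻¹ * ‖W0‖) ≤ 1 * ((√r)⁻¹ * ‖W0‖) := by
            apply mul_le_mul_of_nonneg_right _ h8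
            linarith [chi_nonneg v]
        _ ≤ (2 * (√r * ‖(√r)⁻¹ • v‖)) * ((√r)⁻¹ * ‖W0‖) := mul_le_mul_of_nonneg_right h7 h8
        _ = 2 * (‖(√r)⁻¹ • v‖ * ‖W0‖) := by
            field_simp
        _ ≤ 2 * (Ψ () * gz m (rt0 g ρ) v r) := by gcongr
        _ = 2 * Ψ () * gz m (rt0 g ρ) v r := by ring
  have h9 : ‖(chi v : ℂ) • (((√r)⁻¹ : ℂ) • T)‖ ≤ Φ () * gz m (rt0 g ρ) v r := by
    rw [Op.P11C_norm_chi, norm_smul, hin]
    calc chi v * ((√r)⁻¹ * ‖T‖) ≤ 1 * ((√r)⁻¹ * (Φ () * (√r * gz m (rt0 g ρ) v r))) := by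
          refine mul_le_mul (chi_le_one v) ?_ (by positivity) zero_le_one
          gcongr
      _ = Φ () * gz m (rt0 g ρ) v r := by field_simp
  rw [e1]
  refine (norm_add_le _ _).trans ((add_le_add ((norm_sub_le _ _).trans (add_le_add h9 h6)) h3).trans ?_)
  nlinarith

/-- PROOF. `pd μ gs • 1 = (√r)⁻¹ Wp (hM μ 1)`, `Wp_bd'` with `k`. -/
theorem pd_gs_bd (g : Geo (2 * m)) (ρ : ℝ) (μ : Fin (2 * m)) (k : ℕ) : ∃ c : ℝ, 0 < c ∧
    ∀ r z v, ‖z‖ ≤ ρ → 0 < r →
      ‖(√r)⁻¹ • v‖ ^ k * |pd μ (fun v => gs g z v r) v| ≤ c * ((√r)⁻¹ * gz m (rt0 g ρ) v r) := by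
  obtain ⟨Φ, hΦ, h⟩ := Wp_bd' (P := Measure.dirac ()) (ρ := ρ) g (hM (hR g) μ 1) k
  have hΦ0 := hΦ.nonneg ()
  refine ⟨Φ () + 1, by linarith, fun r z v hz hr => ?_⟩
  have h1 := h () z v r hz hr
  have hG : 0 ≤ gz m (rt0 g ρ) v r := gz_nonneg _ _ hr.le
  have hs : 0 < √r := Real.sqrt_pos.2 hr
  have hin : ‖((√r)⁻¹ : ℂ)‖ = (√r)⁻¹ := by
    rw [← Complex.ofReal_inv, Complex.norm_real, Real.norm_of_nonneg (inv_nonneg.2 hs.le)]
  have e : |pd μ (fun v => gs g z v r) v| =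
      (√r)⁻¹ * ‖Wp (P := Measure.dirac ()) (ρ := ρ) g () z r (hM (hR g) μ 1) v‖ := by
    rw [← L1c_norm (m := m), L1c_pd_gs g ρ z v hr μ, norm_smul, hin]
  rw [e]
  generalize ‖(√r)⁻¹ • v‖ ^ k = a at h1 ⊢
  calc a * ((√r)⁻¹ * ‖Wp (P := Measure.dirac ()) (ρ := ρ) g () z r (hM (hR g) μ 1) v‖)
      = (√r)⁻¹ * (a * ‖Wp (P := Measure.dirac ()) (ρ := ρ) g () z r (hM (hR g) μ 1) v‖) := by ring
    _ ≤ (√r)⁻¹ * (Φ () * gz m (rt0 g ρ) v r) := by gcongr
    _ ≤ (Φ () + 1) * ((√r)⁻¹ * gz m (rt0 g ρ) v r) := by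
        have : 0 ≤ (√r)⁻¹ * gz m (rt0 g ρ) v r := by positivity
        nlinarith

end Pool.Agent.Lib.MP_df705a_gt.SV
end
end

section

/-!
# SV, L1d: the parametrix
-/

open scoped ContDiff InnerProductSpace Matrix ENNReal NNReal Topology Real
open MeasureTheory Filter Set

noncomputable section

set_option linter.unusedSectionVars false

namespace Pool.Agent.Lib.MP_df705a_gt.SV

open Pool.Agent.Lib.MP_df705a_gt.RL

variable {m : ℕ}

/-- the norm of a sum of the shape of the Dirac operator -/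
private theorem L1d_sum_le (C : Cliff m) {T : Fin (2 * m) → Fin (2 * m) → En m}
    {b : Fin (2 * m) → Fin (2 * m) → ℝ} (h : ∀ a μ, ‖T a μ‖ ≤ b a μ) :
    ‖∑ a, C.c a * ∑ μ, T a μ‖ ≤ ∑ a, ∑ μ, b a μ := by
  refine (norm_sum_le _ _).trans (Finset.sum_le_sum fun a _ => ?_)
  refine (norm_mul_le _ _).trans ?_
  have h1 : ‖∑ μ, T a μ‖ ≤ ∑ μ, b a μ :=
    (norm_sum_le _ _).trans (Finset.sum_le_sum fun μ _ => h a μ)
  calc ‖C.c a‖ * ‖∑ μ, T a μ‖ ≤ 1 * ‖∑ μ, T a μ‖ :=
        mul_le_mul_of_nonneg_right (C.norm_c_le a) (norm_nonneg _)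
    _ ≤ ∑ μ, b a μ := by rw [one_mul]; exact h1

private theorem L1d_inv_sqrt {r : ℝ} (hr : 0 < r) (hr1 : r ≤ 1) : 1 ≤ (√r)⁻¹ := by
  apply (one_le_inv₀ (Real.sqrt_pos.2 hr)).2
  rw [Real.sqrt_le_one]
  exact hr1

private theorem L1d_norm_y {ρ : ℝ} {z y : V (2 * m)} (hz : ‖z‖ ≤ ρ) (h : ‖y - z‖ ≤ 1) :
    ‖y‖ ≤ ρ + 1 := by
  calc ‖y‖ = ‖(y - z) + z‖ := by rw [sub_add_cancel]
    _ ≤ ‖y - z‖ + ‖z‖ := norm_add_le _ _
    _ ≤ ρ + 1 := by linarith

/-- `e` is Lipschitz on balls -/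
private theorem L1d_lip (g : Geo (2 * m)) (R : ℝ) : ∃ L : ℝ, 0 ≤ L ∧
    ∀ y z : V (2 * m), ‖y‖ ≤ R → ‖z‖ ≤ R → ∀ μ a, |g.e y μ a - g.e z μ a| ≤ L * ‖y - z‖ := by
  have h1 : ∀ p : Fin (2 * m) × Fin (2 * m), ∃ L : ℝ, ∀ y : V (2 * m), ‖y‖ ≤ R →
      ‖fderiv ℝ (fun y => g.e y p.1 p.2) y‖ ≤ L := by
    intro p
    obtain ⟨L, hL⟩ := (isCompact_closedBall (0 : V (2 * m)) R).exists_bound_of_continuousOn
      (((g.smooth_e p.1 p.2).continuous_fderiv (by simp)).continuousOn)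
    exact ⟨L, fun y hy => hL y (mem_closedBall_zero_iff.2 hy)⟩
  choose L hL using h1
  refine ⟨∑ p, |L p|, Finset.sum_nonneg fun p _ => abs_nonneg _, fun y z hy hz μ a => ?_⟩
  have h2 : ‖(fun y => g.e y μ a) y - (fun y => g.e y μ a) z‖ ≤ |L (μ, a)| * ‖y - z‖ := by
    apply (convex_closedBall (0 : V (2 * m)) R).norm_image_sub_le_of_norm_fderiv_le
      (𝕜 := ℝ) (fun x _ => ((g.smooth_e μ a).differentiable (by simp)) x)
      (fun x hx => (hL (μ, a) x (mem_closedBall_zero_iff.1 hx)).trans (le_abs_self _))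
      (mem_closedBall_zero_iff.2 hz) (mem_closedBall_zero_iff.2 hy)
  rw [← Real.norm_eq_abs]
  refine h2.trans ?_
  apply mul_le_mul_of_nonneg_right _ (norm_nonneg _)
  exact Finset.single_le_sum (f := fun p => |L p|) (fun p _ => abs_nonneg _)
    (Finset.mem_univ (μ, a))

private theorem L1d_pd_ofReal (g : Geo (2 * m)) (z v : V (2 * m)) (r : ℝ) (μ : Fin (2 * m)) :
    pd μ (fun v => (gs g z v r : ℂ)) v = ((pd μ (fun v => gs g z v r) v : ℝ) : ℂ) := by
  have h0 : HasFDerivAt (fun v => (gs g z v r : ℂ))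
      (Complex.ofRealCLM.comp (fderiv ℝ (fun v => gs g z v r) v)) v :=
    Complex.ofRealCLM.hasFDerivAt.comp v
      (((contDiff_gs g z r).differentiable (by simp)) v).hasFDerivAt
  unfold pd
  rw [h0.fderiv]
  rfl

private theorem L1d_alg (a b : ℝ) (p : ℂ) (X Y : En m) :
    (a : ℂ) • (X + Y) - (b : ℂ) • (p • (1 : En m))
      = (a : ℂ) • (X - p • (1 : En m)) + ((a - b : ℝ) : ℂ) • (p • (1 : En m)) + (a : ℂ) • Y := by
  push_cast
  module

private theorem L1d_dgs (C : Cliff m) (g : Geo (2 * m)) (z v : V (2 * m)) (r : ℝ) :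
    dgs C g z v r = ∑ a, C.c a * ∑ μ, (g.e z μ a : ℂ) •
      (((pd μ (fun v => gs g z v r) v : ℝ) : ℂ) • (1 : En m)) := by
  unfold dgs
  simp only [L1d_pd_ofReal]

/-- PROOF. `e_bd`, `conn_bd` with radius `ρ + 1`, `dQ0_bd`, `Q0_bd`, `dk0_zero`, `C.norm_c_le`. -/
theorem dk0_bd (C : Cliff m) (g : Geo (2 * m)) (ρ : ℝ) : ∃ c : ℝ, 0 < c ∧
    ∀ r z y, ‖z‖ ≤ ρ → 0 < r → r ≤ 1 →
      ‖dk0 C g ρ r z y‖ ≤ c * ((√r)⁻¹ * gz m (rt0 g ρ) (y - z) r) := by
  obtain ⟨De, hDe0, hDe⟩ := e_bd g (ρ + 1)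
  obtain ⟨Dc, hDc0, hDc⟩ := conn_bd C g (ρ + 1)
  obtain ⟨cQ, hcQ0, hcQ⟩ := Q0_bd C g ρ
  have hd := fun μ => dQ0_bd C g ρ μ
  choose cd hcd0 hcd using hd
  have hnn : 0 ≤ ∑ _a : Fin (2 * m), ∑ μ : Fin (2 * m), De * (cd μ + Dc * cQ) :=
    Finset.sum_nonneg fun _ _ => Finset.sum_nonneg fun μ _ => by
      have := (hcd0 μ).le
      positivity
  refine ⟨∑ _a : Fin (2 * m), ∑ μ : Fin (2 * m), De * (cd μ + Dc * cQ) + 1, by linarith, ?_⟩
  intro r z y hz hr hr1
  have hG := gz_nonneg (rt0 g ρ) (y - z) hr.le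
  have hs : 0 ≤ (√r)⁻¹ := by positivity
  have hs1 := L1d_inv_sqrt hr hr1
  rcases lt_or_ge 1 ‖y - z‖ with h | h
  · rw [dk0_zero C g ρ r h, norm_zero]
    positivity
  · have hy := L1d_norm_y hz h
    have key : ‖dk0 C g ρ r z y‖ ≤ ∑ _a : Fin (2 * m), ∑ μ : Fin (2 * m),
        De * (cd μ + Dc * cQ) * ((√r)⁻¹ * gz m (rt0 g ρ) (y - z) r) := by
      unfold dk0
      apply L1d_sum_le
      intro a μ
      have h1 := hDe y hy μ a
      have h2 := hDc y hy μ
      have h3 := hcQ r z (y - z) hz hr hr1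
      have h4 := hcd μ r z (y - z) hz hr hr1
      rw [norm_smul, Complex.norm_real, Real.norm_eq_abs]
      have h5 : ‖C.conn g 0 μ y * Q0 C g ρ z r (y - z)‖
          ≤ Dc * cQ * ((√r)⁻¹ * gz m (rt0 g ρ) (y - z) r) := by
        calc ‖C.conn g 0 μ y * Q0 C g ρ z r (y - z)‖
            ≤ ‖C.conn g 0 μ y‖ * ‖Q0 C g ρ z r (y - z)‖ := norm_mul_le _ _
          _ ≤ Dc * (cQ * gz m (rt0 g ρ) (y - z) r) :=
            mul_le_mul h2 h3 (norm_nonneg _) hDc0
          _ = Dc * cQ * (1 * gz m (rt0 g ρ) (y - z) r) := by ring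
          _ ≤ Dc * cQ * ((√r)⁻¹ * gz m (rt0 g ρ) (y - z) r) := by gcongr
      have h6 : ‖dQ0 C g ρ μ z r (y - z) + C.conn g 0 μ y * Q0 C g ρ z r (y - z)‖
          ≤ (cd μ + Dc * cQ) * ((√r)⁻¹ * gz m (rt0 g ρ) (y - z) r) := by
        refine (norm_add_le _ _).trans ?_
        rw [add_mul]
        exact add_le_add h4 h5
      calc |g.e y μ a| * ‖dQ0 C g ρ μ z r (y - z) + C.conn g 0 μ y * Q0 C g ρ z r (y - z)‖
          ≤ De * ((cd μ + Dc * cQ) * ((√r)⁻¹ * gz m (rt0 g ρ) (y - z) r)) :=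
            mul_le_mul h1 h6 (norm_nonneg _) hDe0
        _ = _ := by ring
    refine key.trans ?_
    simp_rw [← Finset.sum_mul]
    apply mul_le_mul_of_nonneg_right _ (by positivity)
    linarith

/-- PROOF. For `‖y - z‖ ≤ 1`: `dk0 - dgs = ∑_a c_a ∑_μ [e_μa(y) (dQ0 - pd μ gs) + (e_μa(y) - e_μa(z)) pd μ gs + e_μa(y) conn Q0]`,
`|e_μa(y) - e_μa(z)| ≤ L ‖y - z‖ = L √r ‖(√r)⁻¹ (y - z)‖` (Lipschitz on the ball of radius `ρ + 1`: smooth function on a compact convex
set), `pd_gs_bd` with `k = 1`. For `‖y - z‖ > 1`: `dk0 = 0` (`dk0_zero`), and `(√r)⁻¹ ≤ ‖(√r)⁻¹ (y - z)‖`, hence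
`|pd μ gs| ≤ √r ‖(√r)⁻¹ v‖ |pd μ gs| ≤ c gz` (`pd_gs_bd`, `k = 1`). -/
theorem dk0_lead (C : Cliff m) (g : Geo (2 * m)) (ρ : ℝ) : ∃ c : ℝ, 0 < c ∧
    ∀ r z y, ‖z‖ ≤ ρ → 0 < r → r ≤ 1 →
      ‖dk0 C g ρ r z y - dgs C g z (y - z) r‖ ≤ c * gz m (rt0 g ρ) (y - z) r := by
  obtain ⟨De, hDe0, hDe⟩ := e_bd g (ρ + 1)
  obtain ⟨Dc, hDc0, hDc⟩ := conn_bd C g (ρ + 1)
  obtain ⟨L, hL0, hL⟩ := L1d_lip g (ρ + 1)
  obtain ⟨cQ, hcQ0, hcQ⟩ := Q0_bd C g ρ
  have hd := fun μ => dQ0_lead C g ρ μ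
  choose cd hcd0 hcd using hd
  have hp := fun μ => pd_gs_bd g ρ μ 1
  choose cp hcp0 hcp using hp
  have hnn : 0 ≤ ∑ _a : Fin (2 * m), ∑ μ : Fin (2 * m),
      (De * cd μ + L * cp μ + De * (Dc * cQ) + De * cp μ) :=
    Finset.sum_nonneg fun _ _ => Finset.sum_nonneg fun μ _ => by
      have := (hcd0 μ).le
      have := (hcp0 μ).le
      positivity
  refine ⟨∑ _a : Fin (2 * m), ∑ μ : Fin (2 * m),
      (De * cd μ + L * cp μ + De * (Dc * cQ) + De * cp μ) + 1, by linarith, ?_⟩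
  intro r z y hz hr hr1
  have hG := gz_nonneg (rt0 g ρ) (y - z) hr.le
  have hsr : 0 < √r := Real.sqrt_pos.2 hr
  have hzρ : ‖z‖ ≤ ρ + 1 := by linarith
  -- the weighted bound for the derivative of the Gaussian
  have hw : ∀ μ, ‖y - z‖ * |pd μ (fun v => gs g z v r) (y - z)|
      ≤ cp μ * gz m (rt0 g ρ) (y - z) r := by
    intro μ
    have h1 := hcp μ r z (y - z) hz hr
    rw [pow_one, norm_smul, Real.norm_of_nonneg (by positivity)] at h1
    have h2 := mul_le_mul_of_nonneg_left h1 hsr.le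
    have e1 : √r * ((√r)⁻¹ * ‖y - z‖ * |pd μ (fun v => gs g z v r) (y - z)|)
        = ‖y - z‖ * |pd μ (fun v => gs g z v r) (y - z)| := by
      field_simp
    have e2 : √r * (cp μ * ((√r)⁻¹ * gz m (rt0 g ρ) (y - z) r))
        = cp μ * gz m (rt0 g ρ) (y - z) r := by
      field_simp
    rwa [e1, e2] at h2
  have hfin : (∑ _a : Fin (2 * m), ∑ μ : Fin (2 * m),
      (De * cd μ + L * cp μ + De * (Dc * cQ) + De * cp μ) * gz m (rt0 g ρ) (y - z) r)
      ≤ (∑ _a : Fin (2 * m), ∑ μ : Fin (2 * m),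
        (De * cd μ + L * cp μ + De * (Dc * cQ) + De * cp μ) + 1) * gz m (rt0 g ρ) (y - z) r := by
    simp_rw [← Finset.sum_mul]
    apply mul_le_mul_of_nonneg_right _ hG
    linarith
  refine le_trans ?_ hfin
  rcases lt_or_ge 1 ‖y - z‖ with h | h
  · rw [dk0_zero C g ρ r h, zero_sub, norm_neg, L1d_dgs]
    apply L1d_sum_le
    intro a μ
    rw [norm_smul, norm_smul, Complex.norm_real, Complex.norm_real, Real.norm_eq_abs,
      Real.norm_eq_abs]
    have h1 := hDe z hzρ μ a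
    have h2 : |pd μ (fun v => gs g z v r) (y - z)| ≤ cp μ * gz m (rt0 g ρ) (y - z) r := by
      refine le_trans ?_ (hw μ)
      exact le_mul_of_one_le_left (abs_nonneg _) h.le
    have h3 : ‖(1 : En m)‖ ≤ 1 := ContinuousLinearMap.norm_id_le
    have hcd1 := (hcd0 μ).le
    have hcp1 := (hcp0 μ).le
    calc |g.e z μ a| * (|pd μ (fun v => gs g z v r) (y - z)| * ‖(1 : En m)‖)
        ≤ De * ((cp μ * gz m (rt0 g ρ) (y - z) r) * 1) := by
          apply mul_le_mul h1 _ (by positivity) hDe0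
          exact mul_le_mul h2 h3 (norm_nonneg _) (by positivity)
      _ = De * cp μ * gz m (rt0 g ρ) (y - z) r := by ring
      _ ≤ (De * cd μ + L * cp μ + De * (Dc * cQ) + De * cp μ) * gz m (rt0 g ρ) (y - z) r := by
          apply mul_le_mul_of_nonneg_right _ hG
          have : 0 ≤ De * cd μ + L * cp μ + De * (Dc * cQ) := by positivity
          linarith
  · have hy := L1d_norm_y hz h
    have e : dk0 C g ρ r z y - dgs C g z (y - z) r
        = ∑ a, C.c a * ∑ μ, ((g.e y μ a : ℂ) • (dQ0 C g ρ μ z r (y - z)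
            - ((pd μ (fun v => gs g z v r) (y - z) : ℝ) : ℂ) • (1 : En m))
          + ((g.e y μ a - g.e z μ a : ℝ) : ℂ) •
            (((pd μ (fun v => gs g z v r) (y - z) : ℝ) : ℂ) • (1 : En m))
          + (g.e y μ a : ℂ) • (C.conn g 0 μ y * Q0 C g ρ z r (y - z))) := by
      rw [L1d_dgs]
      unfold dk0
      rw [← Finset.sum_sub_distrib]
      refine Finset.sum_congr rfl fun a _ => ?_
      rw [← mul_sub, ← Finset.sum_sub_distrib]
      congr 1
      refine Finset.sum_congr rfl fun μ _ => ?_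
      exact L1d_alg _ _ _ _ _
    rw [e]
    apply L1d_sum_le
    intro a μ
    have h1 := hDe y hy μ a
    have h2 := hDc y hy μ
    have h3 := hcQ r z (y - z) hz hr hr1
    have h4 := hcd μ r z (y - z) hz hr hr1
    have h5 := hL y z hy hzρ μ a
    have h6 : ‖(1 : En m)‖ ≤ 1 := ContinuousLinearMap.norm_id_le
    have hcd1 := (hcd0 μ).le
    have hcp1 := (hcp0 μ).le
    have t1 : ‖(g.e y μ a : ℂ) • (dQ0 C g ρ μ z r (y - z)
            - ((pd μ (fun v => gs g z v r) (y - z) : ℝ) : ℂ) • (1 : En m))‖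
        ≤ De * cd μ * gz m (rt0 g ρ) (y - z) r := by
      rw [norm_smul, Complex.norm_real, Real.norm_eq_abs, mul_assoc]
      exact mul_le_mul h1 h4 (norm_nonneg _) hDe0
    have t2 : ‖((g.e y μ a - g.e z μ a : ℝ) : ℂ) •
            (((pd μ (fun v => gs g z v r) (y - z) : ℝ) : ℂ) • (1 : En m))‖
        ≤ L * cp μ * gz m (rt0 g ρ) (y - z) r := by
      rw [norm_smul, norm_smul, Complex.norm_real, Complex.norm_real, Real.norm_eq_abs,
        Real.norm_eq_abs]
      calc |g.e y μ a - g.e z μ a| * (|pd μ (fun v => gs g z v r) (y - z)| * ‖(1 : En m)‖)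
          ≤ (L * ‖y - z‖) * (|pd μ (fun v => gs g z v r) (y - z)| * 1) := by
            apply mul_le_mul h5 _ (by positivity) (by positivity)
            exact mul_le_mul_of_nonneg_left h6 (abs_nonneg _)
        _ = L * (‖y - z‖ * |pd μ (fun v => gs g z v r) (y - z)|) := by ring
        _ ≤ L * (cp μ * gz m (rt0 g ρ) (y - z) r) := mul_le_mul_of_nonneg_left (hw μ) hL0
        _ = _ := by ring
    have t3 : ‖(g.e y μ a : ℂ) • (C.conn g 0 μ y * Q0 C g ρ z r (y - z))‖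
        ≤ De * (Dc * cQ) * gz m (rt0 g ρ) (y - z) r := by
      rw [norm_smul, Complex.norm_real, Real.norm_eq_abs]
      calc |g.e y μ a| * ‖C.conn g 0 μ y * Q0 C g ρ z r (y - z)‖
          ≤ De * (Dc * (cQ * gz m (rt0 g ρ) (y - z) r)) := by
            apply mul_le_mul h1 _ (norm_nonneg _) hDe0
            exact (norm_mul_le _ _).trans (mul_le_mul h2 h3 (norm_nonneg _) hDc0)
        _ = _ := by ring
    calc _ ≤ ‖(g.e y μ a : ℂ) • (dQ0 C g ρ μ z r (y - z)
            - ((pd μ (fun v => gs g z v r) (y - z) : ℝ) : ℂ) • (1 : En m))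
          + ((g.e y μ a - g.e z μ a : ℝ) : ℂ) •
            (((pd μ (fun v => gs g z v r) (y - z) : ℝ) : ℂ) • (1 : En m))‖
          + ‖(g.e y μ a : ℂ) • (C.conn g 0 μ y * Q0 C g ρ z r (y - z))‖ := norm_add_le _ _
      _ ≤ (De * cd μ * gz m (rt0 g ρ) (y - z) r + L * cp μ * gz m (rt0 g ρ) (y - z) r)
          + De * (Dc * cQ) * gz m (rt0 g ρ) (y - z) r := by
          refine add_le_add ((norm_add_le _ _).trans (add_le_add t1 t2)) t3
      _ ≤ (De * cd μ + L * cp μ + De * (Dc * cQ) + De * cp μ) * gz m (rt0 g ρ) (y - z) r := by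
          have : 0 ≤ De * cp μ * gz m (rt0 g ρ) (y - z) r := by positivity
          linarith

/-- a parametrix with a larger constant -/
private def L1d_mono {C : Cliff m} {g : Geo (2 * m)} {B : Pot (2 * m)} {ρ c c' κ : ℝ}
    (p : ParaX C g B ρ c κ) (h : c ≤ c') : ParaX C g B ρ c' κ where
  q := p.q
  qd := p.qd
  e := p.e
  κ_pos := p.κ_pos
  c_pos := p.c_pos.trans_le h
  cont_q := p.cont_q
  cont_qd := p.cont_qd
  cont_e := p.cont_e
  smooth := p.smooth
  supp := p.supp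
  deriv := p.deriv
  heat := p.heat
  bd_q := fun r z y hz hr hr1 => (p.bd_q r z y hz hr hr1).trans
    (mul_le_mul_of_nonneg_right h (gz_nonneg _ _ hr.le))
  bd_qd := fun r z y hz hr hr1 => (p.bd_qd r z y hz hr hr1).trans
    (mul_le_mul_of_nonneg_right h (mul_nonneg (inv_nonneg.2 hr.le) (gz_nonneg _ _ hr.le)))
  bd_e := fun r z y hz hr hr1 => (p.bd_e r z y hz hr hr1).trans
    (mul_le_mul_of_nonneg_right h (mul_nonneg (mul_nonneg (inv_nonneg.2 hr.le)
      (by positivity)) (gz_nonneg _ _ hr.le)))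
  delta := p.delta

/-- PROOF. `exists_para C g (rform0 (2 * m)) ρ` at `x = ()`, `t = 0` (`tPot_Om0`), `kq0_eq`; `c` = sum of the constants
(the bounds of `ParaX` for a larger constant: `gz ≥ 0`). -/
theorem exists_paraD (C : Cliff m) (g : Geo (2 * m)) (ρ : ℝ) :
    ∃ c κ : ℝ, Nonempty (ParaD C g ρ c κ) := by
  obtain ⟨Φ, hΦ, hpara⟩ := exists_para C g (rform0 (2 * m)) ρ
  have h0 := hpara () 0 (by simp)
  rw [tPot_Om0] at h0
  obtain ⟨p, hp⟩ := h0
  obtain ⟨c1, hc1, h1⟩ := dk0_bd C g ρ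
  obtain ⟨c2, hc2, h2⟩ := Q0_lead C g ρ
  obtain ⟨c3, hc3, h3⟩ := dk0_lead C g ρ
  have hΦ0 := hΦ.nonneg ()
  have hq : ∀ r z y, p.q r z y = Q0 C g ρ z r (y - z) := by
    intro r z y
    rw [hp]
    exact kq0_eq C g ρ r z y
  refine ⟨Φ () + c1 + c2 + c3, rt0 g ρ, ⟨{
    toParaX := L1d_mono p (by linarith)
    dq := dk0 C g ρ
    dq_eq := ?_
    cont_dq := continuousOn_dk0 C g ρ
    supp_dq := fun r z y h => dk0_zero C g ρ r h
    bd_dq := ?_
    lead_q := ?_
    lead_dq := ?_ }⟩⟩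
  · intro r z y u hr
    rw [dk0_apply C g ρ hr z y u]
    have e : (fun y => p.q r z y u) = fun y => Q0 C g ρ z r (y - z) u := by
      funext y
      rw [hq]
    show _ = C.dirac g 0 (fun y => p.q r z y u) y
    rw [e]
  · intro r z y hz hr hr1
    have hG := gz_nonneg (rt0 g ρ) (y - z) hr.le
    refine (h1 r z y hz hr hr1).trans (mul_le_mul_of_nonneg_right (by linarith) (by positivity))
  · intro r z y hz hr hr1
    have hG := gz_nonneg (rt0 g ρ) (y - z) hr.le
    show ‖p.q r z y - _‖ ≤ _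
    rw [hq]
    exact (h2 r z (y - z) hz hr hr1).trans
      (mul_le_mul_of_nonneg_right (by linarith) (by positivity))
  · intro r z y hz hr hr1
    have hG := gz_nonneg (rt0 g ρ) (y - z) hr.le
    exact (h3 r z y hz hr hr1).trans (mul_le_mul_of_nonneg_right (by linarith) hG)

end Pool.Agent.Lib.MP_df705a_gt.SV
end
end
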