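import Pool.Agent.Lib.MP_df705a_gt.Mg.G075
import Pool.Agent.Lib.MP_df705a_gt.Mg.G041
import Pool.Agent.Lib.MP_df705a_gt.Mg.G074
import Pool.Agent.Lib.MP_df705a_gt.Mg.G072

section

/-!
# SV, E1a: smooth partitions of unity for a proper cocompact action
-/

open scoped ContDiff InnerProductSpace Matrix ENNReal NNReal Topology
open MeasureTheory Filter Set

noncomputable section

namespace Pool.Agent.Lib.MP_df705a_gt.SV

open Pool.Agent.Lib.MP_df705a_gt.RL

variable {G : Type*} [Group G] {m : ℕ}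

namespace E1x

/-- the finiteness in the form used below -/
theorem finite_inv {a : Act G (2 * m)} (hp : IsProper a) (R R' : ℝ) :
    {γ : G | ∃ y, ‖y‖ ≤ R ∧ ‖a.act γ⁻¹ y‖ ≤ R'}.Finite := by
  have h1 := hp (max R R')
  have h2 : {γ : G | ∃ y, ‖y‖ ≤ R ∧ ‖a.act γ⁻¹ y‖ ≤ R'} ⊆
      Inv.inv '' {γ : G | ∃ y, ‖y‖ ≤ max R R' ∧ ‖a.act γ y‖ ≤ max R R'} := by
    rintro γ ⟨y, hy, hy'⟩
    exact ⟨γ⁻¹, ⟨y, hy.trans (le_max_left _ _), hy'.trans (le_max_right _ _)⟩, inv_inv γ⟩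
  exact (h1.image _).subset h2

/-- A radius bounding the fundamental set. -/
theorem exists_radius {a : Act G (2 * m)} {F : Set (V (2 * m))} (hF : a.Fund F) :
    ∃ R : ℝ, 0 ≤ R ∧ ∀ y ∈ F, ‖y‖ ≤ R := by
  obtain ⟨R, hR⟩ := hF.bdd.subset_closedBall 0
  refine ⟨max R 0, le_max_right _ _, fun y hy => ?_⟩
  have h := hR hy
  rw [mem_closedBall_zero_iff] at h
  exact h.trans (le_max_left _ _)

/-- The sum of the translates of a function which vanishes outside a ball. -/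
theorem contDiff_sum {a : Act G (2 * m)} (hp : IsProper a) {β : V (2 * m) → ℝ}
    (hβ : ContDiff ℝ ∞ β) {R : ℝ} (hR : ∀ y, β y ≠ 0 → ‖y‖ ≤ R) :
    ContDiff ℝ ∞ fun y => ∑ᶠ γ, β (a.act γ⁻¹ y) := by
  rw [contDiff_iff_contDiffAt]
  intro y
  have hfin := finite_inv hp (‖y‖ + 1) R
  have h1 : (fun z => ∑ᶠ γ, β (a.act γ⁻¹ z)) =ᶠ[𝓝 y]
      fun z => ∑ γ ∈ hfin.toFinset, β (a.act γ⁻¹ z) := by
    filter_upwards [Metric.ball_mem_nhds y one_pos] with z hz
    refine finsum_eq_sum_of_support_subset _ fun γ hγ => ?_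
    rw [Function.mem_support] at hγ
    rw [Finite.coe_toFinset]
    refine ⟨z, ?_, hR _ hγ⟩
    rw [Metric.mem_ball, dist_eq_norm] at hz
    calc ‖z‖ = ‖y + (z - y)‖ := by rw [add_sub_cancel]
      _ ≤ ‖y‖ + ‖z - y‖ := norm_add_le _ _
      _ ≤ ‖y‖ + 1 := by linarith
  refine ContDiffAt.congr_of_eventuallyEq ?_ h1
  refine ContDiffAt.sum fun γ _ => ?_
  exact (hβ.comp (a.smooth γ⁻¹)).contDiffAt

theorem finite_support {a : Act G (2 * m)} (hp : IsProper a) {β : V (2 * m) → ℝ} {R : ℝ}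
    (hR : ∀ y, β y ≠ 0 → ‖y‖ ≤ R) (y : V (2 * m)) :
    (Function.support fun γ : G => β (a.act γ⁻¹ y)).Finite :=
  (finite_inv hp ‖y‖ R).subset fun _ hγ => ⟨y, le_rfl, hR _ hγ⟩

theorem sum_inv {a : Act G (2 * m)} (β : V (2 * m) → ℝ) (δ : G) (y : V (2 * m)) :
    ∑ᶠ γ, β (a.act γ⁻¹ (a.act δ y)) = ∑ᶠ γ, β (a.act γ⁻¹ y) := by
  have h1 : ∀ γ : G, β (a.act γ⁻¹ (a.act δ y)) = β (a.act ((Equiv.mulLeft δ⁻¹) γ)⁻¹ y) := by
    intro γ
    rw [← a.mul, Equiv.coe_mulLeft, mul_inv_rev, inv_inv]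
  simp only [h1]
  exact finsum_comp_equiv (Equiv.mulLeft δ⁻¹) (f := fun γ => β (a.act γ⁻¹ y))

/-- Smooth partitions of unity exist. -/
theorem exists_isPU (a : Act G (2 * m)) {F : Set (V (2 * m))} (hF : a.Fund F)
    (hp : IsProper a) : ∃ χ, IsPU a χ ∧ ∀ y, 0 ≤ χ y := by
  obtain ⟨R, hR0, hR⟩ := exists_radius hF
  let b : ContDiffBump (0 : V (2 * m)) :=
    { rIn := R + 1, rOut := R + 2, rIn_pos := by linarith, rIn_lt_rOut := by linarith }
  have hb1 : ∀ y ∈ F, b y = 1 := fun y hy => b.one_of_mem_closedBall (by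
    rw [mem_closedBall_zero_iff]
    have := hR y hy
    change ‖y‖ ≤ R + 1
    linarith)
  have hb2 : ∀ y, b y ≠ 0 → ‖y‖ ≤ R + 2 := by
    intro y hy
    have h1 : y ∈ Function.support b := hy
    rw [b.support_eq, mem_ball_zero_iff] at h1
    exact h1.le
  have hb0 : ∀ y, 0 ≤ b y := fun y => b.nonneg
  set S : V (2 * m) → ℝ := fun y => ∑ᶠ γ, b (a.act γ⁻¹ y) with hS
  have hS1 : ∀ y, 0 < S y := by
    intro y
    obtain ⟨γ, hγ, -⟩ := hF.tile y
    have h1 : b (a.act (γ⁻¹)⁻¹ y) = 1 := by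
      rw [inv_inv]
      exact hb1 _ hγ
    have h2 : b (a.act (γ⁻¹)⁻¹ y) ≤ S y :=
      single_le_finsum γ⁻¹ (finite_support hp hb2 y) fun _ => hb0 _
    rw [h1] at h2
    linarith
  have hSc : ContDiff ℝ ∞ S := contDiff_sum hp b.contDiff hb2
  have hSi : ∀ δ y, S (a.act δ y) = S y := fun δ y => sum_inv _ δ y
  refine ⟨fun y => b y / S y, ⟨?_, ?_, ?_⟩, fun y => div_nonneg (hb0 y) (hS1 y).le⟩
  · exact b.contDiff.div hSc fun y => (hS1 y).ne'
  · refine HasCompactSupport.of_support_subset_isCompact (isCompact_closedBall (0 : V (2 * m)) (R + 2)) ?_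
    intro y hy
    rw [mem_closedBall_zero_iff]
    refine hb2 y fun h => hy ?_
    change b y / S y = 0
    rw [h, zero_div]
  · intro y
    have h1 : ∀ γ : G, b (a.act γ⁻¹ y) / S (a.act γ⁻¹ y) = b (a.act γ⁻¹ y) * (S y)⁻¹ := by
      intro γ
      rw [hSi, div_eq_mul_inv]
    simp only [h1]
    rw [← finsum_mul]
    exact mul_inv_cancel₀ (hS1 y).ne'

end E1x

end Pool.Agent.Lib.MP_df705a_gt.SV
end
end

section

/-!
# SV, L0: the two von Neumann extensions

If the resolvents of the two extensions coincide then `D` is essentially self-adjoint: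
`(R x, B x)` and `(B x, x - R x)` are in the closure of the graph for all `x`.
-/

open scoped InnerProductSpace ENNReal NNReal
open Filter Topology Set

noncomputable section

namespace Pool.Agent.Lib.MP_df705a_gt.SV

open RL

set_option linter.unusedSectionVars false

variable {H : Type*} [NormedAddCommGroup H] [InnerProductSpace ℂ H] [CompleteSpace H]
variable {eps : H →L[ℂ] H} {Gr : Submodule ℂ (H × H)}

theorem isGrading_neg (he : IsGrading eps) : IsGrading (-eps) :=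
  ⟨he.sa.neg, by rw [neg_mul_neg, he.sq]⟩

theorem isOddSymm_neg (h : IsOddSymm eps Gr) : IsOddSymm (-eps) Gr where
  symm := h.symm
  odd := fun a ha => by
    have h1 := Gr.neg_mem (h.odd a ha)
    simpa using h1
  dense := h.dense

/-- `⟪a', R x⟫ = ⟪a, B x⟫` for `(a, a')` in the graph. -/
theorem inner_Bop (he : IsGrading eps) (h : IsOddSymm eps Gr) {a a' : H} (ha : (a, a') ∈ Gr)
    (x : H) : ⟪a, Bop eps Gr x⟫_ℂ = ⟪a', Rop eps Gr x⟫_ℂ := by
  have h1 := (Bop_sa (eps := eps) (Gr := Gr)).isSymmetric a x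
  have h2 := (Rop_sa (Gr := Gr) he).isSymmetric a' x
  simp only [ContinuousLinearMap.coe_coe] at h1 h2
  rw [← h1, ← h2, (graph_eq he h ha).1]

theorem Bop_eq_of_Rop_eq (he : IsGrading eps) (h : IsOddSymm eps Gr)
    (hR : Rop eps Gr = Rop (-eps) Gr) : Bop eps Gr = Bop (-eps) Gr := by
  ext x
  have hc : IsClosed {a : H | ⟪a, Bop eps Gr x - Bop (-eps) Gr x⟫_ℂ = 0} :=
    isClosed_eq (continuous_id.inner continuous_const) continuous_const
  have key : {a : H | ∃ a', (a, a') ∈ Gr} ⊆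
      {a : H | ⟪a, Bop eps Gr x - Bop (-eps) Gr x⟫_ℂ = 0} := by
    rintro a ⟨a', ha⟩
    show ⟪a, Bop eps Gr x - Bop (-eps) Gr x⟫_ℂ = 0
    rw [inner_sub_right, inner_Bop he h ha, inner_Bop (isGrading_neg he) (isOddSymm_neg h) ha, hR,
      sub_self]
  have h0 := (hc.closure_subset_iff.2 key) (h.dense (Bop eps Gr x - Bop (-eps) Gr x))
  exact sub_eq_zero.1 (inner_self_eq_zero.1 h0)

/-- The closure of the positive half is in the closure of the graph. -/
theorem closure_plus_subset {w : WithLp 2 (H × H)} (hw : w ∈ (GrPlus eps Gr).topologicalClosure) :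
    (w.fst, w.snd) ∈ Gr.topologicalClosure := by
  have hcont : Continuous fun w : WithLp 2 (H × H) => (w.fst, w.snd) :=
    (WithLp.prodContinuousLinearEquiv 2 ℂ H H).continuous
  have hw' : w ∈ closure ((GrPlus eps Gr : Submodule ℂ (WithLp 2 (H × H))) :
      Set (WithLp 2 (H × H))) := by
    rw [← Submodule.topologicalClosure_coe]
    exact hw
  have h1 : (w.fst, w.snd) ∈ closure (Gr : Set (H × H)) :=
    map_mem_closure (f := fun w : WithLp 2 (H × H) => (w.fst, w.snd)) hcont hw' fun v hv => hv.1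
  rw [← Submodule.topologicalClosure_coe] at h1
  exact h1

theorem mem_closure_RB (he : IsGrading eps) (h : IsOddSymm eps Gr)
    (hR : Rop eps Gr = Rop (-eps) Gr) (x : H) :
    (Rop eps Gr x, Bop eps Gr x) ∈ Gr.topologicalClosure := by
  have hB := Bop_eq_of_Rop_eq he h hR
  have hee : ∀ y, eps (eps y) = y := fun y => by
    have := congrArg (fun T : H →L[ℂ] H => T y) he.sq
    simpa using this
  have hp : eps (x + eps x) = x + eps x := by rw [map_add, hee, add_comm]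
  have hm : (-eps) (x - eps x) = x - eps x := by
    rw [neg_apply, map_sub, hee]
    abel
  have h1 := closure_plus_subset (mem_closure_of_plus he h hp)
  have h2 := closure_plus_subset (mem_closure_of_plus (isGrading_neg he) (isOddSymm_neg h) hm)
  rw [← hR, ← hB] at h2
  have h3 := Submodule.smul_mem _ (1 / 2 : ℂ) (Submodule.add_mem _ h1 h2)
  have e : ∀ T : H →L[ℂ] H, (1 / 2 : ℂ) • (T (x + eps x) + T (x - eps x)) = T x := fun T => by
    rw [← map_add]
    have : x + eps x + (x - eps x) = (2 : ℂ) • x := by rw [two_smul]; abel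
    rw [this, map_smul, smul_smul]
    norm_num
  have e2 : (1 / 2 : ℂ) • ((Rop eps Gr (x + eps x), Bop eps Gr (x + eps x))
      + (Rop eps Gr (x - eps x), Bop eps Gr (x - eps x)))
      = (Rop eps Gr x, Bop eps Gr x) := by
    rw [Prod.mk_add_mk, Prod.smul_mk, e, e]
  rw [← e2]
  exact h3

theorem denseRange_Rop (he : IsGrading eps) (h : IsOddSymm eps Gr) :
    DenseRange (Rop eps Gr) := by
  have hsa := Rop_sa (Gr := Gr) he
  have h1 : (LinearMap.range (Rop eps Gr : H →ₗ[ℂ] H)).topologicalClosure = ⊤ := by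
    rw [Submodule.topologicalClosure_eq_top_iff, Submodule.eq_bot_iff]
    intro v hv
    refine Rop_inj he h ?_
    have h2 := (Submodule.mem_orthogonal _ _).1 hv (Rop eps Gr (Rop eps Gr v)) ⟨_, rfl⟩
    have h3 := hsa.isSymmetric (Rop eps Gr v) v
    simp only [ContinuousLinearMap.coe_coe] at h3
    rw [h3] at h2
    exact inner_self_eq_zero.1 h2
  intro x
  have h2 : x ∈ (LinearMap.range (Rop eps Gr : H →ₗ[ℂ] H)).topologicalClosure := by
    rw [h1]; trivial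
  have h3 : x ∈ closure ((LinearMap.range (Rop eps Gr : H →ₗ[ℂ] H) : Submodule ℂ H) : Set H) := by
    rw [← Submodule.topologicalClosure_coe]
    exact h2
  have e : ((LinearMap.range (Rop eps Gr : H →ₗ[ℂ] H) : Submodule ℂ H) : Set H)
      = Set.range (Rop eps Gr) := by
    ext y
    exact LinearMap.mem_range
  rw [e] at h3
  exact h3

theorem mem_closure_BR (he : IsGrading eps) (h : IsOddSymm eps Gr)
    (hR : Rop eps Gr = Rop (-eps) Gr) (x : H) :
    (Bop eps Gr x, x - Rop eps Gr x) ∈ Gr.topologicalClosure := by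
  have hcl : IsClosed {x : H | (Bop eps Gr x, x - Rop eps Gr x) ∈ Gr.topologicalClosure} :=
    Gr.isClosed_topologicalClosure.preimage (by fun_prop)
  refine (hcl.closure_subset_iff.2 ?_) (denseRange_Rop he h x)
  rintro _ ⟨y, rfl⟩
  show (Bop eps Gr (Rop eps Gr y), Rop eps Gr y - Rop eps Gr (Rop eps Gr y)) ∈
    Gr.topologicalClosure
  have h1 := mem_closure_RB he h hR (Bop eps Gr y)
  have e1 : Rop eps Gr (Bop eps Gr y) = Bop eps Gr (Rop eps Gr y) := by
    have := congrArg (fun T : H →L[ℂ] H => T y) (Rop_comm_Bop he h)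
    simpa using this
  have e2 : Bop eps Gr (Bop eps Gr y) = Rop eps Gr y - Rop eps Gr (Rop eps Gr y) := by
    have := congrArg (fun T : H →L[ℂ] H => T y) (Bop_sq he h)
    simpa using this
  rw [e1, e2] at h1
  exact h1

/-! ### the scaled operator `t D` -/

/-- The graph of `t D`. -/
def GrT (t : ℝ) (Gr : Submodule ℂ (H × H)) : Submodule ℂ (H × H) :=
  Gr.map (LinearMap.prodMap LinearMap.id ((t : ℂ) • LinearMap.id))

theorem mem_GrT {t : ℝ} {p : H × H} : p ∈ GrT t Gr ↔ ∃ q ∈ Gr, p = (q.1, (t : ℂ) • q.2) := by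
  unfold GrT
  rw [Submodule.mem_map]
  constructor
  · rintro ⟨q, hq, rfl⟩
    exact ⟨q, hq, rfl⟩
  · rintro ⟨q, hq, rfl⟩
    exact ⟨q, hq, rfl⟩

theorem isOddSymm_GrT (h : IsOddSymm eps Gr) (t : ℝ) : IsOddSymm eps (GrT t Gr) where
  symm := by
    intro a ha b hb
    obtain ⟨p, hp, rfl⟩ := mem_GrT.1 ha
    obtain ⟨q, hq, rfl⟩ := mem_GrT.1 hb
    show ⟪(t : ℂ) • p.2, q.1⟫_ℂ = ⟪p.1, (t : ℂ) • q.2⟫_ℂ
    rw [inner_smul_left, inner_smul_right, Complex.conj_ofReal, h.symm p hp q hq]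
  odd := by
    intro a ha
    obtain ⟨p, hp, rfl⟩ := mem_GrT.1 ha
    refine mem_GrT.2 ⟨_, h.odd p hp, ?_⟩
    show (eps p.1, -(eps ((t : ℂ) • p.2))) = (eps p.1, (t : ℂ) • -(eps p.2))
    rw [map_smul, smul_neg]
  dense := by
    refine h.dense.mono ?_
    rintro a ⟨a', ha⟩
    exact ⟨(t : ℂ) • a', mem_GrT.2 ⟨_, ha, rfl⟩⟩

theorem closure_GrT {t : ℝ} (ht : t ≠ 0) {u v : H} (h : (u, v) ∈ (GrT t Gr).topologicalClosure) :
    (u, (t⁻¹ : ℂ) • v) ∈ Gr.topologicalClosure := by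
  have hcont : Continuous fun w : H × H => (w.1, (t⁻¹ : ℂ) • w.2) := by fun_prop
  have hw' : (u, v) ∈ closure ((GrT t Gr : Submodule ℂ (H × H)) : Set (H × H)) := by
    rw [← Submodule.topologicalClosure_coe]
    exact h
  have h1 : (u, (t⁻¹ : ℂ) • v) ∈ closure (Gr : Set (H × H)) := by
    refine map_mem_closure (f := fun w : H × H => (w.1, (t⁻¹ : ℂ) • w.2)) hcont hw' fun p hp => ?_
    obtain ⟨q, hq, rfl⟩ := mem_GrT.1 hp
    have ht' : (t : ℂ) ≠ 0 := Complex.ofReal_ne_zero.2 ht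
    show (q.1, (t⁻¹ : ℂ) • (t : ℂ) • q.2) ∈ Gr
    rw [smul_smul, inv_mul_cancel₀ ht', one_smul]
    exact hq
  rw [← Submodule.topologicalClosure_coe] at h1
  exact h1

end Pool.Agent.Lib.MP_df705a_gt.SV
end
end

section

/-!
# SV, L5a: the resolvents for all `t`
-/

open scoped ContDiff InnerProductSpace Matrix ENNReal NNReal Topology Real
open MeasureTheory Filter Set

noncomputable section

set_option linter.unusedSectionVars false

namespace Pool.Agent.Lib.MP_df705a_gt.SV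

open Pool.Agent.Lib.MP_df705a_gt.RL

variable {H : Type*} [NormedAddCommGroup H] [InnerProductSpace ℂ H] [CompleteSpace H]
variable {eps : H →L[ℂ] H} {Gr : Submodule ℂ (H × H)}

/-- an adjoint relation extends to the closure -/
private theorem L5a_ext {u v : H} (h : ∀ a ∈ Gr, ⟪a.2, u⟫_ℂ = ⟪a.1, v⟫_ℂ) :
    ∀ a ∈ Gr.topologicalClosure, ⟪a.2, u⟫_ℂ = ⟪a.1, v⟫_ℂ := by
  have hcl : IsClosed {a : H × H | ⟪a.2, u⟫_ℂ = ⟪a.1, v⟫_ℂ} :=
    isClosed_eq (continuous_snd.inner continuous_const) (continuous_fst.inner continuous_const)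
  intro a ha
  rw [← SetLike.mem_coe, Submodule.topologicalClosure_coe] at ha
  exact (hcl.closure_subset_iff.2 fun b hb => h b hb) ha

theorem symRel_closureL (h : IsOddSymm eps Gr) : SymRel Gr.topologicalClosure := by
  intro p hp q hq
  have h1 : ∀ b ∈ Gr, ⟪b.2, p.1⟫_ℂ = ⟪b.1, p.2⟫_ℂ := by
    intro b hb
    have h2 := L5a_ext (Gr := Gr) (u := b.1) (v := b.2) (fun a ha => h.symm a ha b hb) p hp
    have h3 := congrArg (starRingEnd ℂ) h2
    rw [inner_conj_symm, inner_conj_symm] at h3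
    exact h3.symm
  have h2 := L5a_ext (Gr := Gr) h1 q hq
  have h3 := congrArg (starRingEnd ℂ) h2
  rw [inner_conj_symm, inner_conj_symm] at h3
  exact h3

/-- PROOF. `mem_closure_RB`, `mem_closure_BR` (L0) for `GrT t Gr` (`isOddSymm_GrT`), `closure_GrT`. -/
theorem isRes_of_Rop_eq (he : IsGrading eps) (h : IsOddSymm eps Gr) {t : ℝ} (ht : 0 < t)
    (hR : Rop eps (GrT t Gr) = Rop (-eps) (GrT t Gr)) :
    IsRes Gr.topologicalClosure t (Rop eps (GrT t Gr)) (Bop eps (GrT t Gr)) := by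
  intro x
  rw [Complex.ofReal_inv]
  exact ⟨closure_GrT ht.ne' (mem_closure_RB he (isOddSymm_GrT h t) hR x),
    closure_GrT ht.ne' (mem_closure_BR he (isOddSymm_GrT h t) hR x)⟩

private theorem L5a_Bsymm {G : Submodule ℂ (H × H)} (hG : SymRel G) {t₀ : ℝ} (ht₀ : 0 < t₀)
    {R₀ B₀ : H →L[ℂ] H} (h₀ : IsRes G t₀ R₀ B₀) (x y : H) : ⟪B₀ x, y⟫_ℂ = ⟪x, B₀ y⟫_ℂ := by
  have ht' : ((t₀⁻¹ : ℝ) : ℂ) ≠ 0 := by
    exact_mod_cast (inv_pos.2 ht₀).ne'
  have h1 := hG _ (h₀ x).1 _ (h₀ y).1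
  have h2 := hG _ (h₀ x).2 _ (h₀ y).2
  simp only at h1 h2
  rw [inner_smul_right, inner_smul_left, Complex.conj_ofReal] at h1 h2
  have h3 := mul_left_cancel₀ ht' h1
  have h4 := mul_left_cancel₀ ht' h2
  rw [inner_sub_right, inner_sub_left] at h4
  linear_combination h4 - h3

/-- A relation with resolvents at one `t₀` is self-adjoint.
PROOF. `hadj` with `(R₀ x, t₀⁻¹ B₀ x)`: `t₀⁻¹ B₀ u = R₀ v` (`R₀`, `B₀` self-adjoint);
`hadj` with `(B₀ x, t₀⁻¹ (x - R₀ x))`: `t₀⁻¹ (u - R₀ u) = B₀ v`. So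
`(u, v) = (R₀ u, t₀⁻¹ B₀ u) + t₀ (B₀ v, t₀⁻¹ (v - R₀ v))`. -/
theorem mem_of_adjoint {G : Submodule ℂ (H × H)} (hG : SymRel G) {t₀ : ℝ} (ht₀ : 0 < t₀)
    {R₀ B₀ : H →L[ℂ] H} (h₀ : IsRes G t₀ R₀ B₀) {u v : H}
    (hadj : ∀ a ∈ G, ⟪a.2, u⟫_ℂ = ⟪a.1, v⟫_ℂ) : (u, v) ∈ G := by
  have ht' : ((t₀⁻¹ : ℝ) : ℂ) ≠ 0 := by
    exact_mod_cast (inv_pos.2 ht₀).ne'
  have ht2 : (t₀ : ℂ) * ((t₀⁻¹ : ℝ) : ℂ) = 1 := by
    rw [← Complex.ofReal_mul, mul_inv_cancel₀ ht₀.ne', Complex.ofReal_one]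
  have e1 : ((t₀⁻¹ : ℝ) : ℂ) • B₀ u = R₀ v := by
    refine ext_inner_left ℂ fun x => ?_
    have h1 := hadj _ (h₀ x).1
    simp only at h1
    rw [inner_smul_left, Complex.conj_ofReal, L5a_Bsymm hG ht₀ h₀, h₀.symm hG ht₀] at h1
    rw [inner_smul_right]
    exact h1
  have e2 : ((t₀⁻¹ : ℝ) : ℂ) • (u - R₀ u) = B₀ v := by
    refine ext_inner_left ℂ fun x => ?_
    have h1 := hadj _ (h₀ x).2
    simp only at h1
    rw [inner_smul_left, Complex.conj_ofReal, inner_sub_left, L5a_Bsymm hG ht₀ h₀,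
      h₀.symm hG ht₀] at h1
    rw [inner_smul_right, inner_sub_right]
    exact h1
  have h3 := G.add_mem (h₀ u).1 (G.smul_mem (t₀ : ℂ) (h₀ v).2)
  rw [Prod.smul_mk, Prod.mk_add_mk, e1, ← e2, smul_smul, smul_smul, ht2, one_smul, one_smul] at h3
  rw [add_sub_cancel, add_sub_cancel] at h3
  exact h3

/-- PROOF. `mem_of_adjoint` with `inner_Bop` (L0) for `GrT t Gr`: for `(a, a') ∈ Gr`: `⟪t a', R x⟫ = ⟪a, B x⟫`; and
`⟪a, x - R x⟫ = ⟪t a', B x⟫` from `graph_eq` (`R a + B (t a') = a`); both extend to the closure. -/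
theorem isRes_all (he : IsGrading eps) (h : IsOddSymm eps Gr) {t₀ : ℝ} (ht₀ : 0 < t₀)
    {R₀ B₀ : H →L[ℂ] H} (h₀ : IsRes Gr.topologicalClosure t₀ R₀ B₀) {t : ℝ} (ht : 0 < t) :
    IsRes Gr.topologicalClosure t (Rop eps (GrT t Gr)) (Bop eps (GrT t Gr)) := by
  have hG := symRel_closureL h
  have ht2 : ((t⁻¹ : ℝ) : ℂ) * (t : ℂ) = 1 := by
    rw [← Complex.ofReal_mul, inv_mul_cancel₀ ht.ne', Complex.ofReal_one]
  have hT := isOddSymm_GrT h t
  have hRs := (Rop_sa (Gr := GrT t Gr) he).isSymmetric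
  have hBs := (Bop_sa (eps := eps) (Gr := GrT t Gr)).isSymmetric
  simp only [LinearMap.IsSymmetric, ContinuousLinearMap.coe_coe] at hRs hBs
  intro x
  refine ⟨mem_of_adjoint hG ht₀ h₀ (L5a_ext fun a ha => ?_),
    mem_of_adjoint hG ht₀ h₀ (L5a_ext fun a ha => ?_)⟩
  · have ha' : (a.1, (t : ℂ) • a.2) ∈ GrT t Gr := mem_GrT.2 ⟨a, ha, rfl⟩
    have h1 := inner_Bop he hT ha' x
    rw [inner_smul_left, Complex.conj_ofReal] at h1
    rw [inner_smul_right, h1, ← mul_assoc, ht2, one_mul]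
  · have ha' : (a.1, (t : ℂ) • a.2) ∈ GrT t Gr := mem_GrT.2 ⟨a, ha, rfl⟩
    have h1 := (graph_eq he hT ha').2
    have h2 : ⟪a.1, x - Rop eps (GrT t Gr) x⟫_ℂ = ⟪(t : ℂ) • a.2, Bop eps (GrT t Gr) x⟫_ℂ := by
      rw [← hBs, ← h1, inner_sub_right, inner_sub_left, hRs]
    rw [inner_smul_left, Complex.conj_ofReal] at h2
    rw [inner_smul_right, h2, ← mul_assoc, ht2, one_mul]

end Pool.Agent.Lib.MP_df705a_gt.SV
end
end

section

/-!
# SV, O1: Schur's test
-/

open scoped ENNReal NNReal Topology InnerProductSpace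
open MeasureTheory Filter Set

noncomputable section

namespace Pool.Agent.Lib.MP_df705a_gt.SV

variable {V E : Type*} [MeasurableSpace V] {μ : Measure V} [NormedAddCommGroup E]
  [InnerProductSpace ℂ E]

variable {S T : Lp E 2 μ →L[ℂ] Lp E 2 μ} {k l : V → V → E →L[ℂ] E} {c d : ℝ≥0}

private theorem O1_row {k : V → V → E →L[ℂ] E} {c : ℝ≥0} (hk : KB1 μ k c) :
    ∀ᵐ x ∂μ, ∫⁻ y, ‖k x y‖ₑ ∂μ ≤ (c : ℝ≥0∞) := by
  filter_upwards [hk.n1.1] with x hx
  simpa only [ENNReal.rpow_one] using hx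

private theorem O1_col {k : V → V → E →L[ℂ] E} {c : ℝ≥0} (hk : KB1 μ k c) :
    ∀ᵐ y ∂μ, ∫⁻ x, ‖k x y‖ₑ ∂μ ≤ (c : ℝ≥0∞) := by
  filter_upwards [hk.n1.2] with x hx
  simpa only [ENNReal.rpow_one] using hx

private theorem O1_cs {ν : Measure V} {K U : V → ℝ≥0∞} (hK : Measurable K) (hU : Measurable U) :
    (∫⁻ y, K y * U y ∂ν) ^ 2 ≤ (∫⁻ y, K y ∂ν) * ∫⁻ y, K y * U y ^ 2 ∂ν := by
  have h1 := ENNReal.lintegral_mul_le_Lp_mul_Lq ν Real.HolderConjugate.two_two
    (f := fun y => K y ^ (1 / 2 : ℝ)) (g := fun y => K y ^ (1 / 2 : ℝ) * U y)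
    (hK.pow_const _).aemeasurable ((hK.pow_const _).mul hU).aemeasurable
  have h2 : ∀ y, K y ^ (1 / 2 : ℝ) * K y ^ (1 / 2 : ℝ) = K y := by
    intro y
    rw [← ENNReal.rpow_add_of_nonneg _ _ (by norm_num) (by norm_num)]
    norm_num
  have h3 : ∀ y, (K y ^ (1 / 2 : ℝ)) ^ (2 : ℝ) = K y := by
    intro y
    rw [← ENNReal.rpow_mul]
    norm_num
  have e1 : (∫⁻ y, ((fun y => K y ^ (1 / 2 : ℝ)) * fun y => K y ^ (1 / 2 : ℝ) * U y) y ∂ν) =
      ∫⁻ y, K y * U y ∂ν := by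
    refine lintegral_congr fun y => ?_
    simp only [Pi.mul_apply]
    rw [← mul_assoc, h2]
  have e2 : (∫⁻ y, (K y ^ (1 / 2 : ℝ)) ^ (2 : ℝ) ∂ν) = ∫⁻ y, K y ∂ν :=
    lintegral_congr h3
  have e3 : (∫⁻ y, (K y ^ (1 / 2 : ℝ) * U y) ^ (2 : ℝ) ∂ν) = ∫⁻ y, K y * U y ^ 2 ∂ν := by
    refine lintegral_congr fun y => ?_
    rw [ENNReal.mul_rpow_of_nonneg _ _ (by norm_num), h3, ENNReal.rpow_two]
  rw [e1] at h1
  have h4 : (∫⁻ y, K y * U y ∂ν) ^ 2 ≤
      ((∫⁻ y, K y ∂ν) ^ (1 / 2 : ℝ) * (∫⁻ y, K y * U y ^ 2 ∂ν) ^ (1 / 2 : ℝ)) ^ 2 := by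
    apply ENNReal.pow_le_pow_left
    refine h1.trans (le_of_eq ?_)
    rw [e2, e3]
  refine h4.trans (le_of_eq ?_)
  rw [mul_pow, ← ENNReal.rpow_natCast, ← ENNReal.rpow_natCast, ← ENNReal.rpow_mul,
    ← ENNReal.rpow_mul]
  norm_num

omit [InnerProductSpace ℂ E] in
private theorem O1_nsq (u : Lp E 2 μ) : ∫⁻ y, ‖u y‖ₑ ^ 2 ∂μ = ‖u‖ₑ ^ 2 := by
  rw [Lp.enorm_def, eLpNorm_eq_lintegral_rpow_enorm_toReal (by norm_num) (by norm_num)]
  rw [← ENNReal.rpow_natCast, ← ENNReal.rpow_mul]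
  norm_num

omit [InnerProductSpace ℂ E] in
private theorem O1_eL (F : V → E) : eLpNorm F 2 μ = (∫⁻ y, ‖F y‖ₑ ^ 2 ∂μ) ^ (1 / 2 : ℝ) := by
  rw [eLpNorm_eq_lintegral_rpow_enorm_toReal (by norm_num) (by norm_num)]
  norm_num

private theorem O1_meas {k : V → V → E →L[ℂ] E} {c : ℝ≥0} (hk : KB1 μ k c) (u : Lp E 2 μ) :
    StronglyMeasurable (Function.uncurry fun x y => k x y (u y)) := by
  have h1 : StronglyMeasurable fun q : V × V => (Function.uncurry k q, (u : V → E) q.2) :=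
    hk.meas.prodMk ((Lp.stronglyMeasurable u).comp_measurable measurable_snd)
  exact (isBoundedBilinearMap_apply (𝕜 := ℂ) (E := E) (F := E)).continuous.comp_stronglyMeasurable h1

private theorem O1_le (A : E →L[ℂ] E) (z : E) : ‖A z‖ₑ ≤ ‖A‖ₑ * ‖z‖ₑ := by
  exact A.le_opENorm z

private theorem KB1.O1_sq [SigmaFinite μ] (hk : KB1 μ k c) (u : Lp E 2 μ) :
    ∫⁻ x, (∫⁻ y, ‖k x y‖ₑ * ‖u y‖ₑ ∂μ) ^ 2 ∂μ ≤ (c : ℝ≥0∞) ^ 2 * ‖u‖ₑ ^ 2 := by
  have hK : Measurable (Function.uncurry fun x y => ‖k x y‖ₑ) := hk.meas.enorm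
  have hU : Measurable fun y => ‖u y‖ₑ := (Lp.stronglyMeasurable u).enorm
  have h1 : ∀ᵐ x ∂μ, (∫⁻ y, ‖k x y‖ₑ * ‖u y‖ₑ ∂μ) ^ 2 ≤
      (c : ℝ≥0∞) * ∫⁻ y, ‖k x y‖ₑ * ‖u y‖ₑ ^ 2 ∂μ := by
    have hr := O1_row hk
    filter_upwards [hr] with x hx
    have hKx : Measurable fun y => ‖k x y‖ₑ := hK.of_uncurry_left
    exact (O1_cs hKx hU).trans (mul_le_mul' hx le_rfl)
  have hm : Measurable (Function.uncurry fun x y => ‖k x y‖ₑ * ‖u y‖ₑ ^ 2) :=
    hK.mul ((hU.comp measurable_snd).pow_const 2)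
  calc ∫⁻ x, (∫⁻ y, ‖k x y‖ₑ * ‖u y‖ₑ ∂μ) ^ 2 ∂μ
      ≤ ∫⁻ x, (c : ℝ≥0∞) * ∫⁻ y, ‖k x y‖ₑ * ‖u y‖ₑ ^ 2 ∂μ ∂μ := lintegral_mono_ae h1
    _ = (c : ℝ≥0∞) * ∫⁻ x, ∫⁻ y, ‖k x y‖ₑ * ‖u y‖ₑ ^ 2 ∂μ ∂μ :=
        lintegral_const_mul _ hm.lintegral_prod_right'
    _ = (c : ℝ≥0∞) * ∫⁻ y, ∫⁻ x, ‖k x y‖ₑ * ‖u y‖ₑ ^ 2 ∂μ ∂μ := by
        rw [lintegral_lintegral_swap hm.aemeasurable]
    _ ≤ (c : ℝ≥0∞) * ∫⁻ y, (c : ℝ≥0∞) * ‖u y‖ₑ ^ 2 ∂μ := by
        have h5 : ∫⁻ y, ∫⁻ x, ‖k x y‖ₑ * ‖u y‖ₑ ^ 2 ∂μ ∂μ ≤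
            ∫⁻ y, (c : ℝ≥0∞) * ‖u y‖ₑ ^ 2 ∂μ := by
          apply lintegral_mono_ae
          have hr := O1_col hk
          filter_upwards [hr] with y hy
          have hKy : Measurable fun x => ‖k x y‖ₑ := hK.of_uncurry_right
          rw [lintegral_mul_const _ hKy]
          exact mul_le_mul' hy le_rfl
        exact mul_le_mul' le_rfl h5
    _ = (c : ℝ≥0∞) ^ 2 * ‖u‖ₑ ^ 2 := by
        rw [lintegral_const_mul _ (hU.pow_const 2), O1_nsq, ← mul_assoc, pow_two (c : ℝ≥0∞)]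


/-- For `u ∈ L²` the integrals converge absolutely for almost all `x`.
PROOF. `(∫ |k(x,y)| |u(y)| dy)² ≤ (∫ |k(x,y)| dy)(∫ |k(x,y)| |u(y)|² dy) ≤ c ∫ |k(x,y)| |u(y)|² dy`, and the integral over
`x` of the right-hand side is `≤ c² ‖u‖²` (Tonelli, column bound), so it is finite for almost all `x`.
(The measurability of `y ↦ k x y (u y)`: `StronglyMeasurable` of `uncurry k` and the evaluation map
`isBoundedBilinearMap_apply`.) -/
theorem KB1.ae_integrable [SigmaFinite μ] (hk : KB1 μ k c) (u : Lp E 2 μ) :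
    ∀ᵐ x ∂μ, Integrable (fun y => k x y (u y)) μ := by
  have hK : Measurable (Function.uncurry fun x y => ‖k x y‖ₑ) := hk.meas.enorm
  have hU : Measurable fun y => ‖u y‖ₑ := (Lp.stronglyMeasurable u).enorm
  have hm : Measurable (Function.uncurry fun x y => ‖k x y‖ₑ * ‖u y‖ₑ) :=
    hK.mul (hU.comp measurable_snd)
  have h1 : ∫⁻ x, (∫⁻ y, ‖k x y‖ₑ * ‖u y‖ₑ ∂μ) ^ 2 ∂μ ≠ ∞ := by
    refine ne_top_of_le_ne_top ?_ (hk.O1_sq u)
    exact ENNReal.mul_ne_top (ENNReal.pow_ne_top ENNReal.coe_ne_top)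
      (ENNReal.pow_ne_top enorm_ne_top)
  have h2 := ae_lt_top (hm.lintegral_prod_right'.pow_const 2) h1
  filter_upwards [h2] with x hx
  refine ⟨((O1_meas hk u).comp_measurable measurable_prodMk_left).aestronglyMeasurable, ?_⟩
  have h3 : ∫⁻ y, ‖k x y‖ₑ * ‖u y‖ₑ ∂μ < ∞ := by
    by_contra hcon
    rw [not_lt, top_le_iff] at hcon
    have hx' : (∫⁻ y, ‖k x y‖ₑ * ‖u y‖ₑ ∂μ) ^ 2 < ∞ := hx
    rw [hcon] at hx'
    simp at hx'
  exact lt_of_le_of_lt (lintegral_mono fun y => O1_le _ _) h3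

/-- The square of the norm. PROOF: see `ae_integrable`. -/
theorem KB1.lintegral_sq_le [SigmaFinite μ] (hk : KB1 μ k c) (u : Lp E 2 μ) :
    ∫⁻ x, (∫⁻ y, ‖k x y‖ₑ * ‖u y‖ₑ ∂μ) ^ 2 ∂μ ≤ (c : ℝ≥0∞) ^ 2 * ‖u‖ₑ ^ 2 := hk.O1_sq u

private theorem O1_norm [SigmaFinite μ] {k : V → V → E →L[ℂ] E} {c : ℝ≥0} (hk : KB1 μ k c)
    (u : Lp E 2 μ) (F : V → E) (hF : ∀ᵐ x ∂μ, F x = ∫ y, k x y (u y) ∂μ) :
    eLpNorm F 2 μ ≤ (c : ℝ≥0∞) * ‖u‖ₑ := by
  have h1 : ∫⁻ x, ‖F x‖ₑ ^ 2 ∂μ ≤ (c : ℝ≥0∞) ^ 2 * ‖u‖ₑ ^ 2 := by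
    refine le_trans (lintegral_mono_ae ?_) (hk.lintegral_sq_le u)
    filter_upwards [hF] with x hx
    rw [hx]
    apply ENNReal.pow_le_pow_left
    refine (enorm_integral_le_lintegral_enorm _).trans ?_
    exact lintegral_mono fun y => O1_le _ _
  rw [O1_eL]
  calc (∫⁻ x, ‖F x‖ₑ ^ 2 ∂μ) ^ (1 / 2 : ℝ) ≤ ((c : ℝ≥0∞) ^ 2 * ‖u‖ₑ ^ 2) ^ (1 / 2 : ℝ) :=
        ENNReal.rpow_le_rpow h1 (by norm_num)
    _ = (c : ℝ≥0∞) * ‖u‖ₑ := by
        rw [← mul_pow, ← ENNReal.rpow_natCast, ← ENNReal.rpow_mul]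
        norm_num

/-- Schur's test: a bounded kernel is the kernel of an operator of norm `≤ c`.
PROOF. `T u` is the class of `x ↦ ∫ k(x,y) u(y) dy` (measurable in `x`: `StronglyMeasurable.integral_prod_right`; replace `u` by
its strongly measurable representative), `LinearMap.mkContinuous`, `lintegral_sq_le`. -/
theorem KB1.exists_isKer [SigmaFinite μ] [FiniteDimensional ℂ E] (hk : KB1 μ k c) :
    ∃ T : Lp E 2 μ →L[ℂ] Lp E 2 μ, IsKer μ T k ∧ ‖T‖ ≤ c := by
  have hmem : ∀ u : Lp E 2 μ, MemLp (fun x => ∫ y, k x y (u y) ∂μ) 2 μ := by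
    intro u
    refine ⟨(O1_meas hk u).integral_prod_right.aestronglyMeasurable, ?_⟩
    refine lt_of_le_of_lt (O1_norm hk u _ (Filter.Eventually.of_forall fun x => rfl)) ?_
    exact ENNReal.mul_lt_top ENNReal.coe_lt_top enorm_lt_top
  let T0 : Lp E 2 μ →ₗ[ℂ] Lp E 2 μ :=
    { toFun := fun u => (hmem u).toLp _
      map_add' := fun u v => by
        rw [← MemLp.toLp_add]
        apply MemLp.toLp_congr
        filter_upwards [hk.ae_integrable u, hk.ae_integrable v] with x h1 h2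
        rw [Pi.add_apply, ← integral_add h1 h2]
        refine integral_congr_ae ?_
        filter_upwards [Lp.coeFn_add u v] with y hy
        rw [hy, Pi.add_apply, map_add]
      map_smul' := fun a u => by
        rw [RingHom.id_apply, ← MemLp.toLp_const_smul]
        apply MemLp.toLp_congr
        refine Filter.Eventually.of_forall fun x => ?_
        rw [Pi.smul_apply, ← integral_smul]
        refine integral_congr_ae ?_
        filter_upwards [Lp.coeFn_smul a u] with y hy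
        rw [hy, Pi.smul_apply, map_smul] }
  have hb : ∀ u, ‖T0 u‖ ≤ (c : ℝ) * ‖u‖ := by
    intro u
    have h1 : ‖T0 u‖ₑ ≤ (c : ℝ≥0∞) * ‖u‖ₑ := by
      rw [Lp.enorm_def]
      refine O1_norm hk u _ ?_
      exact (hmem u).coeFn_toLp
    have h2 := ENNReal.toReal_mono (ENNReal.mul_lt_top ENNReal.coe_lt_top enorm_lt_top).ne h1
    simpa using h2
  have hc0 : (0 : ℝ) ≤ (c : ℝ) := NNReal.coe_nonneg c
  have h3 : ‖T0.mkContinuous c hb‖ ≤ (c : ℝ) := LinearMap.mkContinuous_norm_le T0 hc0 hb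
  exact ⟨T0.mkContinuous c hb, fun u => (hmem u).coeFn_toLp, h3⟩

theorem IsKer.norm_le [SigmaFinite μ] (h : IsKer μ T k) (hk : KB1 μ k c) : ‖T‖ ≤ c := by
  have hc0 : (0 : ℝ) ≤ (c : ℝ) := NNReal.coe_nonneg c
  refine ContinuousLinearMap.opNorm_le_bound T hc0 fun u => ?_
  have h1 : ‖T u‖ₑ ≤ (c : ℝ≥0∞) * ‖u‖ₑ := by
    rw [Lp.enorm_def]
    exact O1_norm hk u _ (h u)
  have h2 := ENNReal.toReal_mono (ENNReal.mul_lt_top ENNReal.coe_lt_top enorm_lt_top).ne h1
  simpa using h2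

end Pool.Agent.Lib.MP_df705a_gt.SV
end
end

section

/-!
# SV, O3: linearity, multiplication operators
-/

open scoped ENNReal NNReal Topology InnerProductSpace
open MeasureTheory Filter Set

noncomputable section

namespace Pool.Agent.Lib.MP_df705a_gt.SV

variable {V E : Type*} [MeasurableSpace V] {μ : Measure V} [NormedAddCommGroup E]
  [InnerProductSpace ℂ E]

variable {S T : Lp E 2 μ →L[ℂ] Lp E 2 μ} {k l : V → V → E →L[ℂ] E} {c d : ℝ≥0}

/-- The operator is determined by the kernel. -/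
theorem IsKer.unique_op (h : IsKer μ T k) (h' : IsKer μ S k) : T = S := by
  ext1 u
  refine Lp.ext ?_
  filter_upwards [h u, h' u] with x h1 h2
  rw [h1, h2]

theorem IsKer.congr [SigmaFinite μ] (h : IsKer μ T k) (he : KEq μ k l) : IsKer μ T l := by
  intro u
  have h1 : ∀ᵐ x ∂μ, ∀ᵐ y ∂μ, k x y = l x y := Measure.ae_ae_of_ae_prod he
  filter_upwards [h u, h1] with x h2 h3
  rw [h2]
  refine integral_congr_ae ?_
  filter_upwards [h3] with y hy
  rw [hy]

theorem IsKer.add [SigmaFinite μ] (h : IsKer μ T k) (h' : IsKer μ S l) (hk : KB1 μ k c)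
    (hl : KB1 μ l d) : IsKer μ (T + S) (fun x y => k x y + l x y) := by
  intro u
  have h1 : (T + S) u = T u + S u := rfl
  rw [h1]
  filter_upwards [h u, h' u, hk.ae_integrable u, hl.ae_integrable u, Lp.coeFn_add (T u) (S u)]
    with x h2 h3 h4 h5 h6
  rw [h6, Pi.add_apply, h2, h3, ← integral_add h4 h5]
  rfl

theorem IsKer.sub [SigmaFinite μ] (h : IsKer μ T k) (h' : IsKer μ S l) (hk : KB1 μ k c)
    (hl : KB1 μ l d) : IsKer μ (T - S) (fun x y => k x y - l x y) := by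
  intro u
  have h1 : (T - S) u = T u - S u := rfl
  rw [h1]
  filter_upwards [h u, h' u, hk.ae_integrable u, hl.ae_integrable u, Lp.coeFn_sub (T u) (S u)]
    with x h2 h3 h4 h5 h6
  rw [h6, Pi.sub_apply, h2, h3, ← integral_sub h4 h5]
  rfl

theorem IsKer.smul (a : ℂ) (h : IsKer μ T k) : IsKer μ (a • T) (fun x y => a • k x y) := by
  intro u
  have h1 : (a • T) u = a • T u := rfl
  rw [h1]
  filter_upwards [h u, Lp.coeFn_smul a (T u)] with x h2 h3
  rw [h3, Pi.smul_apply, h2, ← integral_smul]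
  rfl

/-- Multiplication from the left by a function `a`. -/
theorem IsKer.mulL [SigmaFinite μ] [FiniteDimensional ℂ E] {M : Lp E 2 μ →L[ℂ] Lp E 2 μ}
    {a : V → E →L[ℂ] E} (hM : ∀ u : Lp E 2 μ, M u =ᵐ[μ] fun x => a x (u x)) (h : IsKer μ T k)
    (hk : KB1 μ k c) : IsKer μ (M * T) (fun x y => a x * k x y) := by
  haveI : CompleteSpace E := FiniteDimensional.complete ℂ E
  intro u
  have h1 : (M * T) u = M (T u) := rfl
  rw [h1]
  filter_upwards [hM (T u), h u, hk.ae_integrable u] with x h2 h3 h4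
  rw [h2, h3, ← ContinuousLinearMap.integral_comp_comm (a x) h4]
  rfl

/-- Multiplication from the right by a function `a`. -/
theorem IsKer.mulR [SigmaFinite μ] [FiniteDimensional ℂ E] {M : Lp E 2 μ →L[ℂ] Lp E 2 μ}
    {a : V → E →L[ℂ] E} (hM : ∀ u : Lp E 2 μ, M u =ᵐ[μ] fun x => a x (u x)) (h : IsKer μ T k)
    (hk : KB1 μ k c) : IsKer μ (T * M) (fun x y => k x y * a y) := by
  intro u
  have h1 : (T * M) u = T (M u) := rfl
  rw [h1]
  filter_upwards [h (M u)] with x h2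
  rw [h2]
  refine integral_congr_ae ?_
  filter_upwards [hM u] with y hy
  rw [hy]
  rfl

end Pool.Agent.Lib.MP_df705a_gt.SV
end
end

section

/-!
# SV, O4: composition and adjoint
-/

open scoped ENNReal NNReal Topology InnerProductSpace
open MeasureTheory Filter Set

noncomputable section

namespace Pool.Agent.Lib.MP_df705a_gt.SV

variable {V E : Type*} [MeasurableSpace V] {μ : Measure V} [NormedAddCommGroup E]
  [InnerProductSpace ℂ E]

variable {S T : Lp E 2 μ →L[ℂ] Lp E 2 μ} {k l : V → V → E →L[ℂ] E} {c d : ℝ≥0}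

private theorem O4_row {k : V → V → E →L[ℂ] E} {c : ℝ≥0} (hk : KB1 μ k c) :
    ∀ᵐ x ∂μ, ∫⁻ y, ‖k x y‖ₑ ∂μ ≤ (c : ℝ≥0∞) := by
  filter_upwards [hk.n1.1] with x hx
  simpa only [ENNReal.rpow_one] using hx

private theorem O4_col {k : V → V → E →L[ℂ] E} {c : ℝ≥0} (hk : KB1 μ k c) :
    ∀ᵐ y ∂μ, ∫⁻ x, ‖k x y‖ₑ ∂μ ≤ (c : ℝ≥0∞) := by
  filter_upwards [hk.n1.2] with x hx
  simpa only [ENNReal.rpow_one] using hx

private theorem O4_cs {ν : Measure V} {K U : V → ℝ≥0∞} (hK : Measurable K) (hU : Measurable U) :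
    (∫⁻ y, K y * U y ∂ν) ^ 2 ≤ (∫⁻ y, K y ∂ν) * ∫⁻ y, K y * U y ^ 2 ∂ν := by
  have h1 := ENNReal.lintegral_mul_le_Lp_mul_Lq ν Real.HolderConjugate.two_two
    (f := fun y => K y ^ (1 / 2 : ℝ)) (g := fun y => K y ^ (1 / 2 : ℝ) * U y)
    (hK.pow_const _).aemeasurable ((hK.pow_const _).mul hU).aemeasurable
  have h2 : ∀ y, K y ^ (1 / 2 : ℝ) * K y ^ (1 / 2 : ℝ) = K y := by
    intro y
    rw [← ENNReal.rpow_add_of_nonneg _ _ (by norm_num) (by norm_num)]
    norm_num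
  have h3 : ∀ y, (K y ^ (1 / 2 : ℝ)) ^ (2 : ℝ) = K y := by
    intro y
    rw [← ENNReal.rpow_mul]
    norm_num
  have e1 : (∫⁻ y, ((fun y => K y ^ (1 / 2 : ℝ)) * fun y => K y ^ (1 / 2 : ℝ) * U y) y ∂ν) =
      ∫⁻ y, K y * U y ∂ν := by
    refine lintegral_congr fun y => ?_
    simp only [Pi.mul_apply]
    rw [← mul_assoc, h2]
  have e2 : (∫⁻ y, (K y ^ (1 / 2 : ℝ)) ^ (2 : ℝ) ∂ν) = ∫⁻ y, K y ∂ν :=
    lintegral_congr h3
  have e3 : (∫⁻ y, (K y ^ (1 / 2 : ℝ) * U y) ^ (2 : ℝ) ∂ν) = ∫⁻ y, K y * U y ^ 2 ∂ν := by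
    refine lintegral_congr fun y => ?_
    rw [ENNReal.mul_rpow_of_nonneg _ _ (by norm_num), h3, ENNReal.rpow_two]
  rw [e1] at h1
  have h4 : (∫⁻ y, K y * U y ∂ν) ^ 2 ≤
      ((∫⁻ y, K y ∂ν) ^ (1 / 2 : ℝ) * (∫⁻ y, K y * U y ^ 2 ∂ν) ^ (1 / 2 : ℝ)) ^ 2 := by
    apply ENNReal.pow_le_pow_left
    refine h1.trans (le_of_eq ?_)
    rw [e2, e3]
  refine h4.trans (le_of_eq ?_)
  rw [mul_pow, ← ENNReal.rpow_natCast, ← ENNReal.rpow_natCast, ← ENNReal.rpow_mul,
    ← ENNReal.rpow_mul]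
  norm_num

omit [InnerProductSpace ℂ E] in
private theorem O4_nsq (u : Lp E 2 μ) : ∫⁻ y, ‖u y‖ₑ ^ 2 ∂μ = ‖u‖ₑ ^ 2 := by
  rw [Lp.enorm_def, eLpNorm_eq_lintegral_rpow_enorm_toReal (by norm_num) (by norm_num)]
  rw [← ENNReal.rpow_natCast, ← ENNReal.rpow_mul]
  norm_num

/-- Schur's test for nonnegative kernels. -/
private theorem O4_schur [SigmaFinite μ] (hk : KB1 μ k c) {U : V → ℝ≥0∞} (hU : Measurable U) :
    ∫⁻ x, (∫⁻ y, ‖k x y‖ₑ * U y ∂μ) ^ 2 ∂μ ≤ (c : ℝ≥0∞) ^ 2 * ∫⁻ y, U y ^ 2 ∂μ := by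
  have hK : Measurable (Function.uncurry fun x y => ‖k x y‖ₑ) := hk.meas.enorm
  have h1 : ∀ᵐ x ∂μ, (∫⁻ y, ‖k x y‖ₑ * U y ∂μ) ^ 2 ≤
      (c : ℝ≥0∞) * ∫⁻ y, ‖k x y‖ₑ * U y ^ 2 ∂μ := by
    have hr := O4_row hk
    filter_upwards [hr] with x hx
    have hKx : Measurable fun y => ‖k x y‖ₑ := hK.of_uncurry_left
    exact (O4_cs hKx hU).trans (mul_le_mul' hx le_rfl)
  have hm : Measurable (Function.uncurry fun x y => ‖k x y‖ₑ * U y ^ 2) :=
    hK.mul ((hU.comp measurable_snd).pow_const 2)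
  calc ∫⁻ x, (∫⁻ y, ‖k x y‖ₑ * U y ∂μ) ^ 2 ∂μ
      ≤ ∫⁻ x, (c : ℝ≥0∞) * ∫⁻ y, ‖k x y‖ₑ * U y ^ 2 ∂μ ∂μ := lintegral_mono_ae h1
    _ = (c : ℝ≥0∞) * ∫⁻ x, ∫⁻ y, ‖k x y‖ₑ * U y ^ 2 ∂μ ∂μ :=
        lintegral_const_mul _ hm.lintegral_prod_right'
    _ = (c : ℝ≥0∞) * ∫⁻ y, ∫⁻ x, ‖k x y‖ₑ * U y ^ 2 ∂μ ∂μ := by
        rw [lintegral_lintegral_swap hm.aemeasurable]
    _ ≤ (c : ℝ≥0∞) * ∫⁻ y, (c : ℝ≥0∞) * U y ^ 2 ∂μ := by
        have h5 : ∫⁻ y, ∫⁻ x, ‖k x y‖ₑ * U y ^ 2 ∂μ ∂μ ≤ ∫⁻ y, (c : ℝ≥0∞) * U y ^ 2 ∂μ := by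
          apply lintegral_mono_ae
          have hr := O4_col hk
          filter_upwards [hr] with y hy
          have hKy : Measurable fun x => ‖k x y‖ₑ := hK.of_uncurry_right
          rw [lintegral_mul_const _ hKy]
          exact mul_le_mul' hy le_rfl
        exact mul_le_mul' le_rfl h5
    _ = (c : ℝ≥0∞) ^ 2 * ∫⁻ y, U y ^ 2 ∂μ := by
        rw [lintegral_const_mul _ (hU.pow_const 2), ← mul_assoc, pow_two (c : ℝ≥0∞)]

private theorem O4_msnd {k : V → V → E →L[ℂ] E} {c : ℝ≥0} (hk : KB1 μ k c) (x : V) :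
    Measurable fun q : V × V => ‖k x q.2‖ₑ := by
  have h1 : Measurable fun q : V × V => (x, q.2) := measurable_const.prodMk measurable_snd
  have h2 := hk.meas.enorm.comp h1
  simpa only [Function.comp_def, Function.uncurry] using h2

private theorem O4_mswap {k : V → V → E →L[ℂ] E} {c : ℝ≥0} (hk : KB1 μ k c) :
    Measurable fun q : V × V => ‖k q.2 q.1‖ₑ := by
  have h1 : Measurable fun q : V × V => (q.2, q.1) := measurable_snd.prodMk measurable_fst
  have h2 := hk.meas.enorm.comp h1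
  simpa only [Function.comp_def, Function.uncurry] using h2

private theorem O4_apply (A : E →L[ℂ] E) (z : E) : ‖A z‖ₑ ≤ ‖A‖ₑ * ‖z‖ₑ := A.le_opENorm z

private theorem O4_mul (A B : E →L[ℂ] E) : ‖A * B‖ₑ ≤ ‖A‖ₑ * ‖B‖ₑ := by
  rw [← ofReal_norm, ← ofReal_norm, ← ofReal_norm, ← ENNReal.ofReal_mul (norm_nonneg _)]
  exact ENNReal.ofReal_le_ofReal (norm_mul_le A B)

/-- PROOF. `(T S u)(x) = ∫ k(x,z) (∫ l(z,y) u(y) dy) dz`, Fubini for almost all `x`:
`∫∫ |k(x,z)| |l(z,y)| |u(y)| dy dz < ∞` for almost all `x` (apply `KB1.lintegral_sq_le` twice, or the Schur bound of the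
composition of the norms). -/
theorem IsKer.mul [SigmaFinite μ] [FiniteDimensional ℂ E] (h : IsKer μ T k) (h' : IsKer μ S l)
    (hk : KB1 μ k c) (hl : KB1 μ l d) : IsKer μ (T * S) (comp μ k l) := by
  have : CompleteSpace E := FiniteDimensional.complete ℂ E
  intro u
  have hK : Measurable (Function.uncurry fun x y => ‖k x y‖ₑ) := hk.meas.enorm
  have hL : Measurable (Function.uncurry fun x y => ‖l x y‖ₑ) := hl.meas.enorm
  have hU : Measurable fun y => ‖u y‖ₑ := (Lp.stronglyMeasurable u).enorm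
  have hm : Measurable (Function.uncurry fun z y => ‖l z y‖ₑ * ‖u y‖ₑ) :=
    hL.mul (hU.comp measurable_snd)
  have hU' : Measurable fun z => ∫⁻ y, ‖l z y‖ₑ * ‖u y‖ₑ ∂μ := hm.lintegral_prod_right'
  -- finiteness
  have h1 : ∀ᵐ x ∂μ, ∫⁻ z, ‖k x z‖ₑ * ∫⁻ y, ‖l z y‖ₑ * ‖u y‖ₑ ∂μ ∂μ < ∞ := by
    have h2 : ∫⁻ x, (∫⁻ z, ‖k x z‖ₑ * ∫⁻ y, ‖l z y‖ₑ * ‖u y‖ₑ ∂μ ∂μ) ^ 2 ∂μ ≠ ∞ := by
      refine ne_top_of_le_ne_top ?_ (O4_schur hk hU')
      refine ENNReal.mul_ne_top (ENNReal.pow_ne_top ENNReal.coe_ne_top) ?_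
      refine ne_top_of_le_ne_top ?_ (O4_schur hl hU)
      rw [O4_nsq]
      exact ENNReal.mul_ne_top (ENNReal.pow_ne_top ENNReal.coe_ne_top)
        (ENNReal.pow_ne_top enorm_ne_top)
    have hm2 : Measurable (Function.uncurry fun x z =>
        ‖k x z‖ₑ * ∫⁻ y, ‖l z y‖ₑ * ‖u y‖ₑ ∂μ) := hK.mul (hU'.comp measurable_snd)
    filter_upwards [ae_lt_top (hm2.lintegral_prod_right'.pow_const 2) h2] with x hx
    by_contra hcon
    rw [not_lt, top_le_iff] at hcon
    have hx' : (∫⁻ z, ‖k x z‖ₑ * ∫⁻ y, ‖l z y‖ₑ * ‖u y‖ₑ ∂μ ∂μ) ^ 2 < ∞ := hx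
    rw [hcon] at hx'
    simp at hx'
  have h3 : ∀ᵐ z ∂μ, S u z = ∫ y, l z y (u y) ∂μ := h' u
  have h4 := hl.ae_integrable u
  -- integrability of the composition
  have h5 : ∀ᵐ x ∂μ, ∀ᵐ y ∂μ, Integrable (fun z => k x z * l z y) μ := by
    have h6 : ∀ᵐ x ∂μ, ∫⁻ y, ∫⁻ z, ‖k x z‖ₑ * ‖l z y‖ₑ ∂μ ∂μ < ∞ := by
      filter_upwards [O4_row hk] with x hx
      have hm3 : Measurable (Function.uncurry fun y z => ‖k x z‖ₑ * ‖l z y‖ₑ) := by
        exact (O4_msnd hk x).mul (O4_mswap hl)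
      rw [lintegral_lintegral_swap hm3.aemeasurable]
      calc ∫⁻ z, ∫⁻ y, ‖k x z‖ₑ * ‖l z y‖ₑ ∂μ ∂μ ≤ ∫⁻ z, ‖k x z‖ₑ * d ∂μ := by
            refine lintegral_mono_ae ?_
            filter_upwards [O4_row hl] with z hz
            rw [lintegral_const_mul _ hL.of_uncurry_left]
            exact mul_le_mul' le_rfl hz
        _ = (∫⁻ z, ‖k x z‖ₑ ∂μ) * d := lintegral_mul_const _ hK.of_uncurry_left
        _ ≤ c * d := mul_le_mul' hx le_rfl
        _ < ∞ := ENNReal.mul_lt_top ENNReal.coe_lt_top ENNReal.coe_lt_top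
    filter_upwards [h6] with x hx
    have hm4 : Measurable fun y => ∫⁻ z, ‖k x z‖ₑ * ‖l z y‖ₑ ∂μ := by
      exact ((O4_msnd hk x).mul (O4_mswap hl)).lintegral_prod_right'
    filter_upwards [ae_lt_top hm4 hx.ne] with y hy
    refine ⟨?_, lt_of_le_of_lt (lintegral_mono fun z => O4_mul _ _) hy⟩
    have e1 : StronglyMeasurable fun z => k x z := hk.meas.comp_measurable measurable_prodMk_left
    have e2 : StronglyMeasurable fun z => l z y := hl.meas.comp_measurable measurable_prodMk_right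
    exact (e1.mul e2).aestronglyMeasurable
  filter_upwards [h (S u), h1, h5] with x hx hfin hcomp
  show T (S u) x = _
  rw [hx]
  -- first replace `S u`
  have h7 : ∫ z, k x z (S u z) ∂μ = ∫ z, ∫ y, k x z (l z y (u y)) ∂μ ∂μ := by
    refine integral_congr_ae ?_
    filter_upwards [h3, h4] with z hz hz'
    have e0 := (k x z).integral_comp_comm hz'
    rw [hz, ← e0]
  have h8 : Integrable (Function.uncurry fun z y => k x z (l z y (u y))) (μ.prod μ) := by
    have e1 : StronglyMeasurable fun q : V × V => k x q.1 :=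
      (hk.meas.comp_measurable (measurable_prodMk_left (x := x))).comp_measurable measurable_fst
    have e2 : StronglyMeasurable fun q : V × V => l q.1 q.2 (u q.2) := by
      have h9 : StronglyMeasurable fun q : V × V => (Function.uncurry l q, (u : V → E) q.2) :=
        hl.meas.prodMk ((Lp.stronglyMeasurable u).comp_measurable measurable_snd)
      exact (isBoundedBilinearMap_apply (𝕜 := ℂ) (E := E) (F := E)).continuous.comp_stronglyMeasurable
        h9
    have e3 : StronglyMeasurable (Function.uncurry fun z y => k x z (l z y (u y))) :=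
      (isBoundedBilinearMap_apply (𝕜 := ℂ) (E := E) (F := E)).continuous.comp_stronglyMeasurable
        (e1.prodMk e2)
    refine ⟨e3.aestronglyMeasurable, ?_⟩
    rw [hasFiniteIntegral_iff_enorm]
    refine lt_of_le_of_lt ?_ hfin
    rw [lintegral_prod _ e3.enorm.aemeasurable]
    refine lintegral_mono fun z => ?_
    have e4 : Measurable fun y => ‖l z y‖ₑ * ‖u y‖ₑ := (hL.of_uncurry_left (x := z)).mul hU
    rw [← lintegral_const_mul _ e4]
    refine lintegral_mono fun y => ?_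
    show ‖k x z (l z y (u y))‖ₑ ≤ ‖k x z‖ₑ * (‖l z y‖ₑ * ‖u y‖ₑ)
    exact (O4_apply _ _).trans (mul_le_mul' le_rfl (O4_apply _ _))
  rw [h7, integral_integral_swap h8]
  refine integral_congr_ae ?_
  filter_upwards [hcomp] with y hy
  show _ = (∫ z, k x z * l z y ∂μ) (u y)
  rw [ContinuousLinearMap.integral_apply hy]
  rfl

theorem KB1.adjoint [CompleteSpace E] (hk : KB1 μ k c) :
    KB1 μ (fun x y => ContinuousLinearMap.adjoint (k y x)) c := by
  refine ⟨?_, ?_, ?_⟩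
  · have h1 : StronglyMeasurable fun q : V × V => k q.2 q.1 :=
      hk.meas.comp_measurable measurable_swap
    exact (ContinuousLinearMap.adjoint (𝕜 := ℂ) (E := E) (F := E)).continuous.comp_stronglyMeasurable h1
  · filter_upwards [hk.n1.2] with x hx
    have h2 : ∀ y, ‖ContinuousLinearMap.adjoint (k y x)‖ₑ = ‖k y x‖ₑ := fun y => by
      rw [← ofReal_norm, ← ofReal_norm, LinearIsometryEquiv.norm_map]
    simpa only [h2] using hx
  · filter_upwards [hk.n1.1] with x hx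
    have h2 : ∀ y, ‖ContinuousLinearMap.adjoint (k x y)‖ₑ = ‖k x y‖ₑ := fun y => by
      rw [← ofReal_norm, ← ofReal_norm, LinearIsometryEquiv.norm_map]
    simpa only [h2] using hx

private theorem O4_inner_integral [CompleteSpace E] {f : V → E} (hf : Integrable f μ) (v : E) :
    ⟪∫ x, f x ∂μ, v⟫_ℂ = ∫ x, ⟪f x, v⟫_ℂ ∂μ := by
  rw [← inner_conj_symm, ← integral_inner hf v, ← integral_conj]
  refine integral_congr_ae (Filter.Eventually.of_forall fun x => ?_)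
  exact inner_conj_symm _ _

/-- PROOF. Let `T'` be the operator of the adjoint kernel (`KB1.exists_isKer`; it is `KB1` with the same constant);
`⟪T' u, v⟫ = ⟪u, T v⟫` by Fubini (absolute convergence: Schur). -/
theorem IsKer.adjoint [SigmaFinite μ] [FiniteDimensional ℂ E] [CompleteSpace E]
    (h : IsKer μ T k) (hk : KB1 μ k c) :
    IsKer μ (ContinuousLinearMap.adjoint T) (fun x y => ContinuousLinearMap.adjoint (k y x)) := by
  have hk' := hk.adjoint
  obtain ⟨T', hT', -⟩ := hk'.exists_isKer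
  have hK : Measurable (Function.uncurry fun x y => ‖k x y‖ₑ) := hk.meas.enorm
  have h0 : T' = ContinuousLinearMap.adjoint T := by
    rw [ContinuousLinearMap.eq_adjoint_iff]
    intro u v
    have hU : Measurable fun y => ‖u y‖ₑ := (Lp.stronglyMeasurable u).enorm
    have hV : Measurable fun y => ‖v y‖ₑ := (Lp.stronglyMeasurable v).enorm
    -- the double integral
    have h1 : Integrable (Function.uncurry fun x y => ⟪u y, k y x (v x)⟫_ℂ) (μ.prod μ) := by
      have e1 : StronglyMeasurable fun q : V × V => k q.2 q.1 (v q.1) := by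
        have h9 : StronglyMeasurable fun q : V × V => (k q.2 q.1, (v : V → E) q.1) :=
          (hk.meas.comp_measurable measurable_swap).prodMk
            ((Lp.stronglyMeasurable v).comp_measurable measurable_fst)
        exact (isBoundedBilinearMap_apply (𝕜 := ℂ) (E := E)
          (F := E)).continuous.comp_stronglyMeasurable h9
      have e2 : StronglyMeasurable (Function.uncurry fun x y => ⟪u y, k y x (v x)⟫_ℂ) :=
        ((Lp.stronglyMeasurable u).comp_measurable measurable_snd).inner e1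
      refine ⟨e2.aestronglyMeasurable, ?_⟩
      rw [hasFiniteIntegral_iff_enorm]
      have h2 : ∫⁻ q : V × V, ‖Function.uncurry (fun x y => ⟪u y, k y x (v x)⟫_ℂ) q‖ₑ ∂μ.prod μ ≤
          ∫⁻ y, ‖u y‖ₑ * ∫⁻ x, ‖k y x‖ₑ * ‖v x‖ₑ ∂μ ∂μ := by
        rw [lintegral_prod_symm _ e2.enorm.aemeasurable]
        refine lintegral_mono fun y => ?_
        have e3 : Measurable fun x => ‖k y x‖ₑ * ‖v x‖ₑ := (hK.of_uncurry_left (x := y)).mul hV
        rw [← lintegral_const_mul _ e3]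
        refine lintegral_mono fun x => ?_
        show ‖⟪u y, k y x (v x)⟫_ℂ‖ₑ ≤ ‖u y‖ₑ * (‖k y x‖ₑ * ‖v x‖ₑ)
        refine le_trans ?_ (mul_le_mul' le_rfl (O4_apply _ _))
        rw [← ofReal_norm, ← ofReal_norm (u y), ← ofReal_norm (k y x (v x)),
          ← ENNReal.ofReal_mul (norm_nonneg _)]
        exact ENNReal.ofReal_le_ofReal (norm_inner_le_norm _ _)
      refine lt_of_le_of_lt h2 ?_
      have hm : Measurable (Function.uncurry fun y x => ‖k y x‖ₑ * ‖v x‖ₑ) :=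
        hK.mul (hV.comp measurable_snd)
      have hm' : Measurable fun y => ∫⁻ x, ‖k y x‖ₑ * ‖v x‖ₑ ∂μ := hm.lintegral_prod_right'
      have h3 := ENNReal.lintegral_mul_le_Lp_mul_Lq μ Real.HolderConjugate.two_two
        hU.aemeasurable hm'.aemeasurable
      refine lt_of_le_of_lt h3 (ENNReal.mul_lt_top ?_ ?_)
      · refine ENNReal.rpow_lt_top_of_nonneg (by norm_num) ?_
        simp only [ENNReal.rpow_two]
        rw [O4_nsq]
        exact ENNReal.pow_ne_top enorm_ne_top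
      · refine ENNReal.rpow_lt_top_of_nonneg (by norm_num) ?_
        simp only [ENNReal.rpow_two]
        refine ne_top_of_le_ne_top ?_ (O4_schur hk hV)
        rw [O4_nsq]
        exact ENNReal.mul_ne_top (ENNReal.pow_ne_top ENNReal.coe_ne_top)
          (ENNReal.pow_ne_top enorm_ne_top)
    rw [L2.inner_def, L2.inner_def]
    have h4 : ∫ x, ⟪T' u x, v x⟫_ℂ ∂μ = ∫ x, ∫ y, ⟪u y, k y x (v x)⟫_ℂ ∂μ ∂μ := by
      refine integral_congr_ae ?_
      filter_upwards [hT' u, hk'.ae_integrable u] with x hx hx'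
      rw [hx, O4_inner_integral hx']
      refine integral_congr_ae (Filter.Eventually.of_forall fun y => ?_)
      exact ContinuousLinearMap.adjoint_inner_left _ _ _
    have h5 : ∫ y, ⟪u y, T v y⟫_ℂ ∂μ = ∫ y, ∫ x, ⟪u y, k y x (v x)⟫_ℂ ∂μ ∂μ := by
      refine integral_congr_ae ?_
      filter_upwards [h v, hk.ae_integrable v] with y hy hy'
      rw [hy, integral_inner hy']
    rw [h4, h5, integral_integral_swap h1]
  rw [← h0]
  exact hT'

end Pool.Agent.Lib.MP_df705a_gt.SV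
end
end

section

/-!
# SV, O5: infinite sums
-/

open scoped ENNReal NNReal Topology InnerProductSpace
open MeasureTheory Filter Set

noncomputable section

namespace Pool.Agent.Lib.MP_df705a_gt.SV

variable {V E : Type*} [MeasurableSpace V] {μ : Measure V} [NormedAddCommGroup E]
  [InnerProductSpace ℂ E]

private theorem O5_enorm_tsum_le {F : Type*} [NormedAddCommGroup F] [CompleteSpace F]
    (f : ℕ → F) : ‖∑' n, f n‖ₑ ≤ ∑' n, ‖f n‖ₑ := by
  by_cases h : ∑' n, ‖f n‖ₑ = ∞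
  · rw [h]; exact le_top
  · have hs : Summable fun n => ‖f n‖₊ := ENNReal.tsum_coe_ne_top_iff_summable.1 h
    have h1 := nnnorm_tsum_le hs
    have h2 : ((∑' n, ‖f n‖₊ : ℝ≥0) : ℝ≥0∞) = ∑' n, (‖f n‖₊ : ℝ≥0∞) := ENNReal.coe_tsum hs
    calc ‖∑' n, f n‖ₑ = ((‖∑' n, f n‖₊ : ℝ≥0) : ℝ≥0∞) := rfl
      _ ≤ ((∑' n, ‖f n‖₊ : ℝ≥0) : ℝ≥0∞) := by exact_mod_cast h1
      _ = ∑' n, ‖f n‖ₑ := h2

private theorem O5_summable_iff {F : Type*} [NormedAddCommGroup F] [CompleteSpace F]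
    (f : ℕ → F) : (∑' n, ‖f n‖ₑ ≠ ∞) ↔ Summable fun n => ‖f n‖ := by
  have h1 : (∑' n, ‖f n‖ₑ ≠ ∞) ↔ Summable fun n => ‖f n‖₊ :=
    ENNReal.tsum_coe_ne_top_iff_summable
  rw [h1, ← NNReal.summable_coe]
  rfl

/-- Measurability of infinite sums. -/
private theorem O5_meas {X F : Type*} [MeasurableSpace X] [NormedAddCommGroup F]
    [NormedSpace ℂ F] [FiniteDimensional ℂ F] {f : ℕ → X → F} (hf : ∀ n, StronglyMeasurable (f n)) :
    StronglyMeasurable fun x => ∑' n, f n x := by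
  have : CompleteSpace F := FiniteDimensional.complete ℂ F
  let _ : NormedSpace ℝ F := NormedSpace.restrictScalars ℝ ℂ F
  have : FiniteDimensional ℝ F := FiniteDimensional.trans ℝ ℂ F
  set s : Set X := {x | ∑' n, ‖f n x‖ₑ ≠ ∞} with hs
  have hsm : MeasurableSet s := by
    have : Measurable fun x => ∑' n, ‖f n x‖ₑ :=
      Measurable.tsum fun n => (hf n).enorm
    have h2 : s = (fun x => ∑' n, ‖f n x‖ₑ) ⁻¹' {∞}ᶜ := by
      ext x; simp [hs]
    rw [h2]
    exact this (measurableSet_singleton _).compl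
  refine stronglyMeasurable_of_tendsto (f := fun N : ℕ => s.indicator fun x =>
    ∑ n ∈ Finset.range N, f n x) atTop (fun N => ?_) ?_
  · exact (Finset.stronglyMeasurable_fun_sum _ fun n _ => hf n).indicator hsm
  · rw [tendsto_pi_nhds]
    intro x
    by_cases hx : x ∈ s
    · simp only [Set.indicator_of_mem hx]
      have h1 : Summable fun n => ‖f n x‖ := (O5_summable_iff _).1 hx
      exact (h1.of_norm.hasSum).tendsto_sum_nat
    · simp only [Set.indicator_of_notMem hx]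
      have h1 : ¬ Summable fun n => f n x := by
        intro h
        exact hx ((O5_summable_iff _).2 (summable_norm_iff.2 h))
      rw [tsum_eq_zero_of_not_summable h1]
      exact tendsto_const_nhds

/-- The sum of the kernels has the bound `∑ c n`, and it converges absolutely almost everywhere. -/
theorem KB1.tsum [SigmaFinite μ] [FiniteDimensional ℂ E]
    {k : ℕ → V → V → E →L[ℂ] E} {c : ℕ → ℝ≥0} (hk : ∀ n, KB1 μ (k n) (c n)) (hc : Summable c) :
    KB1 μ (fun x y => ∑' n, k n x y) (∑' n, c n) ∧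
      ∀ᵐ q ∂μ.prod μ, Summable fun n => ‖k n q.1 q.2‖ := by
  have hm : ∀ n, Measurable fun q : V × V => ‖k n q.1 q.2‖ₑ := fun n => (hk n).meas.enorm
  have hcoe : ((∑' n, c n : ℝ≥0) : ℝ≥0∞) = ∑' n, (c n : ℝ≥0∞) := ENNReal.coe_tsum hc
  have hrow : ∀ᵐ x ∂μ, ∫⁻ y, ∑' n, ‖k n x y‖ₑ ∂μ ≤ ((∑' n, c n : ℝ≥0) : ℝ≥0∞) := by
    have h1 : ∀ᵐ x ∂μ, ∀ n, ∫⁻ y, ‖k n x y‖ₑ ∂μ ≤ (c n : ℝ≥0∞) := by
      rw [ae_all_iff]
      intro n
      have := (hk n).n1.1
      simpa only [ENNReal.rpow_one] using this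
    filter_upwards [h1] with x hx
    have h2 : ∀ n, AEMeasurable (fun y => ‖k n x y‖ₑ) μ := fun n =>
      ((hm n).comp (measurable_prodMk_left (x := x))).aemeasurable
    rw [lintegral_tsum h2, hcoe]
    exact ENNReal.tsum_le_tsum hx
  have hcol : ∀ᵐ y ∂μ, ∫⁻ x, ∑' n, ‖k n x y‖ₑ ∂μ ≤ ((∑' n, c n : ℝ≥0) : ℝ≥0∞) := by
    have h1 : ∀ᵐ y ∂μ, ∀ n, ∫⁻ x, ‖k n x y‖ₑ ∂μ ≤ (c n : ℝ≥0∞) := by
      rw [ae_all_iff]
      intro n
      have := (hk n).n1.2
      simpa only [ENNReal.rpow_one] using this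
    filter_upwards [h1] with y hy
    have h2 : ∀ n, AEMeasurable (fun x => ‖k n x y‖ₑ) μ := fun n =>
      ((hm n).comp (measurable_prodMk_right (y := y))).aemeasurable
    rw [lintegral_tsum h2, hcoe]
    exact ENNReal.tsum_le_tsum hy
  refine ⟨⟨?_, ?_, ?_⟩, ?_⟩
  · exact O5_meas (f := fun n (q : V × V) => k n q.1 q.2) fun n => (hk n).meas
  · filter_upwards [hrow] with x hx
    simp only [ENNReal.rpow_one]
    exact (lintegral_mono fun y => O5_enorm_tsum_le _).trans hx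
  · filter_upwards [hcol] with y hy
    simp only [ENNReal.rpow_one]
    exact (lintegral_mono fun x => O5_enorm_tsum_le _).trans hy
  · have hmt : Measurable fun q : V × V => ∑' n, ‖k n q.1 q.2‖ₑ := Measurable.tsum hm
    have h1 : ∀ᵐ q ∂μ.prod μ, ∑' n, ‖k n q.1 q.2‖ₑ ≠ ∞ := by
      have hms : MeasurableSet {q : V × V | ∑' n, ‖k n q.1 q.2‖ₑ ≠ ∞} := by
        have h2 : {q : V × V | ∑' n, ‖k n q.1 q.2‖ₑ ≠ ∞} =
            (fun q : V × V => ∑' n, ‖k n q.1 q.2‖ₑ) ⁻¹' {∞}ᶜ := by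
          ext x; simp
        rw [h2]
        exact hmt (measurableSet_singleton _).compl
      rw [Measure.ae_prod_iff_ae_ae hms]
      filter_upwards [hrow] with x hx
      have h3 : ∫⁻ y, ∑' n, ‖k n x y‖ₑ ∂μ ≠ ∞ := ne_top_of_le_ne_top ENNReal.coe_ne_top hx
      filter_upwards [ae_lt_top (hmt.comp measurable_prodMk_left) h3] with y hy
      exact hy.ne
    filter_upwards [h1] with q hq
    exact (O5_summable_iff _).1 hq

/-- PROOF. `∑ ‖T n‖ ≤ ∑ c n` (`IsKer.norm_le`), so the sum of the operators converges in norm, and for `u ∈ L²` a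
subsequence of the partial sums converges almost everywhere; `∑_n ∫ |k n(x,y)| |u(y)| dy < ∞` for almost all `x` (Minkowski in
`L²`: `‖∫ |k n(·,y)||u(y)| dy‖₂ ≤ c n ‖u‖`), so `∑_n ∫ k n(x,y) u(y) dy = ∫ ∑_n k n(x,y) u(y) dy` (`integral_tsum`). -/
theorem IsKer.tsum [SigmaFinite μ] [FiniteDimensional ℂ E] {T : ℕ → Lp E 2 μ →L[ℂ] Lp E 2 μ}
    {k : ℕ → V → V → E →L[ℂ] E} {c : ℕ → ℝ≥0} (h : ∀ n, IsKer μ (T n) (k n))
    (hk : ∀ n, KB1 μ (k n) (c n)) (hc : Summable c) :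
    IsKer μ (∑' n, T n) (fun x y => ∑' n, k n x y) := by
  have : CompleteSpace E := FiniteDimensional.complete ℂ E
  have : CompleteSpace (E →L[ℂ] E) := inferInstance
  have hc' : Summable fun n => (c n : ℝ) := NNReal.summable_coe.2 hc
  have hTs : Summable T :=
    Summable.of_norm_bounded hc' fun n => by exact_mod_cast (h n).norm_le (hk n)
  obtain ⟨T', hT', -⟩ := (KB1.tsum hk hc).1.exists_isKer
  -- the tails
  have htail : ∀ N : ℕ, ‖T' - ∑ n ∈ Finset.range N, T n‖ ≤ ((∑' n, c (n + N) : ℝ≥0) : ℝ) := by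
    intro N
    have hkN := KB1.tsum (k := fun n => k (n + N)) (c := fun n => c (n + N))
      (fun n => hk (n + N)) (NNReal.summable_nat_add c hc N)
    refine IsKer.norm_le (k := fun x y => ∑' n, k (n + N) x y) ?_ hkN.1
    intro u
    have h1 : ∀ᵐ x ∂μ, ∀ n, T n u x = ∫ y, k n x y (u y) ∂μ := by
      rw [ae_all_iff]
      exact fun n => h n u
    have h2 : ∀ᵐ x ∂μ, ∀ n, Integrable (fun y => k n x y (u y)) μ := by
      rw [ae_all_iff]
      exact fun n => (hk n).ae_integrable u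
    have h3 := hkN.1.ae_integrable u
    have h4 := Measure.ae_ae_of_ae_prod (KB1.tsum hk hc).2
    have h5 : ((T' - ∑ n ∈ Finset.range N, T n) u : V → E) =ᵐ[μ]
        fun x => T' u x - ∑ n ∈ Finset.range N, T n u x := by
      rw [sub_apply, sum_apply]
      refine (Lp.coeFn_sub _ _).trans ?_
      have h6 : (((∑ n ∈ Finset.range N, T n u : Lp E 2 μ)) : V → E) =ᵐ[μ]
          fun x => ∑ n ∈ Finset.range N, T n u x := by
        induction N with
        | zero =>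
          simp only [Finset.range_zero, Finset.sum_empty]
          exact Lp.coeFn_zero _ _ _
        | succ N ih =>
          simp only [Finset.sum_range_succ]
          refine (Lp.coeFn_add _ _).trans ?_
          have ih' := ih (KB1.tsum (k := fun n => k (n + N)) (c := fun n => c (n + N))
            (fun n => hk (n + N)) (NNReal.summable_nat_add c hc N))
            ((KB1.tsum (k := fun n => k (n + N)) (c := fun n => c (n + N))
            (fun n => hk (n + N)) (NNReal.summable_nat_add c hc N)).1.ae_integrable u)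
          filter_upwards [ih'] with x hx
          simp only [Pi.add_apply, hx]
      filter_upwards [h6] with x hx
      simp only [Pi.sub_apply, hx]
    filter_upwards [h1, h2, h3, h4, h5, hT' u] with x h1 h2 h3 h4 h5 h6
    rw [h5, h6]
    have h7 : ∫ y, (∑' n, k n x y) (u y) ∂μ =
        ∫ y, ((∑ n ∈ Finset.range N, k n x y (u y)) + (∑' n, k (n + N) x y) (u y)) ∂μ := by
      refine integral_congr_ae ?_
      filter_upwards [h4] with y hy
      have h8 : Summable fun n => k n x y := hy.of_norm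
      rw [← h8.sum_add_tsum_nat_add N]
      simp only [add_apply, sum_apply]
    rw [h7, integral_add (integrable_finsetSum _ fun n _ => h2 n) h3,
      integral_finsetSum _ fun n _ => h2 n, Finset.sum_congr rfl fun n _ => h1 n]
    abel
  have hlim : Tendsto (fun N : ℕ => ∑ n ∈ Finset.range N, T n) atTop (𝓝 T') := by
    rw [tendsto_iff_norm_sub_tendsto_zero]
    have h0 : Tendsto (fun N : ℕ => ((∑' n, c (n + N) : ℝ≥0) : ℝ)) atTop (𝓝 0) := by
      have h9 := NNReal.tendsto_coe.2 (NNReal.tendsto_sum_nat_add c)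
      rw [NNReal.coe_zero] at h9
      exact h9
    refine squeeze_zero (fun N => norm_nonneg _) (fun N => ?_) h0
    rw [norm_sub_rev]
    exact htail N
  have : ∑' n, T n = T' := tendsto_nhds_unique hTs.hasSum.tendsto_sum_nat hlim
  rw [this]
  exact hT'

end Pool.Agent.Lib.MP_df705a_gt.SV
end
end

section

/-!
# SV, L6b: the kernel of the resolvent as a Neumann series
-/

open scoped ContDiff InnerProductSpace Matrix ENNReal NNReal Topology Real
open MeasureTheory Filter Set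

noncomputable section

set_option linter.unusedSectionVars false

namespace Pool.Agent.Lib.MP_df705a_gt.SV

variable {V E : Type*} [MeasurableSpace V] {μ : Measure V} [NormedAddCommGroup E]
  [InnerProductSpace ℂ E] [FiniteDimensional ℂ E]

/-- The weighted class is contained in `KB1`. PROOF. `1 ≤ w`. -/
theorem KB.kbL {w : V → V → ℝ} (hw : Wt w) {p : ℝ} {k : V → V → E →L[ℂ] E} {K₁ Kp : ℝ≥0}
    (hk : KB μ w p k K₁ Kp) : KB1 μ k K₁ := by
  refine ⟨hk.meas, hk.n1.mono zero_le_one fun x y => ?_⟩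
  have h1 : (1 : ℝ≥0∞) ≤ ENNReal.ofReal (w x y) := by
    rw [← ENNReal.ofReal_one]
    exact ENNReal.ofReal_le_ofReal (hw.one x y)
  calc ‖k x y‖ₑ = 1 * ‖k x y‖ₑ := (one_mul _).symm
    _ ≤ ENNReal.ofReal (w x y) * ‖k x y‖ₑ := by gcongr
    _ = nk w k x y := rfl

/-- If `A + S A = T` and `S`, `T` have the kernels `e`, `k`, then `A` has the kernel `neu μ e k`.
PROOF. `‖S‖ ≤ 1/2` (`IsKer.norm_le`), so `A = ∑' j, (-S)^j T`; `(-S)^j T` has the kernel `neuT μ e k j` (`IsKer.mul`, `IsKer.smul` or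
the kernel `-e` of `-S`), `IsKer.tsum` with the constants `E₁^j K₁`, `neu_ae`, `IsKer.congr`. -/
theorem IsKer_neu [SigmaFinite μ] {w : V → V → ℝ} {p : ℝ} (hw : Wt w) (hp : 1 ≤ p)
    {e k : V → V → E →L[ℂ] E} {E₁ Ep K₁ Kp : ℝ≥0} (he : KB μ w p e E₁ Ep)
    (hk : KB μ w p k K₁ Kp) (h1 : E₁ ≤ 1 / 2) {A S T : Lp E 2 μ →L[ℂ] Lp E 2 μ}
    (hS : IsKer μ S e) (hT : IsKer μ T k) (h : A + S * A = T) : IsKer μ A (neu μ e k) := by
  have : CompleteSpace E := FiniteDimensional.complete ℂ E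
  have hE1 : E₁ < 1 := lt_of_le_of_lt h1 (by
    rw [← NNReal.coe_lt_coe]
    norm_num)
  have hnS : ‖S‖ ≤ E₁ := hS.norm_le (KB.kbL hw he)
  have hN : ‖-S‖ < 1 := by
    rw [norm_neg]
    exact lt_of_le_of_lt hnS (by exact_mod_cast hE1)
  have hSk : IsKer μ (-S) (fun x y => - e x y) := by
    have h2 := IsKer.smul (-1 : ℂ) hS
    have h3 : ((-1 : ℂ) • S) = -S := by rw [neg_smul, one_smul]
    have h4 : (fun x y => (-1 : ℂ) • e x y) = fun x y => - e x y := by
      funext x y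
      rw [neg_smul, one_smul]
    rw [h3, h4] at h2
    exact h2
  have hj : ∀ j : ℕ, IsKer μ ((-S) ^ j * T) (neuT μ e k j) := by
    intro j
    induction j with
    | zero =>
      rw [pow_zero, one_mul]
      exact hT
    | succ j ih =>
      rw [pow_succ', mul_assoc]
      exact IsKer.mul hSk ih (KB.kbL hw (KB.neg he)) (KB.kbL hw (KB_neuT hw hp he hk j))
  have hc : Summable fun j : ℕ => E₁ ^ j * K₁ := (NNReal.summable_geometric hE1).mul_right K₁
  have h5 := IsKer.tsum hj (fun j => KB.kbL hw (KB_neuT hw hp he hk j)) hc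
  have hA : A = ∑' j : ℕ, (-S) ^ j * T := by
    have hs : Summable fun j : ℕ => (-S) ^ j := summable_geometric_of_norm_lt_one hN
    rw [hs.tsum_mul_right, ← h]
    have h6 : A + S * A = (1 - -S) * A := by
      rw [sub_neg_eq_add, add_mul, one_mul]
    rw [h6, ← mul_assoc, geom_series_mul_neg _ hN, one_mul]
  rw [hA]
  refine h5.congr ?_
  have h7 := neu_ae hw hp he hk h1
  unfold KEq
  filter_upwards [h7] with q hq
  exact hq.symm

end Pool.Agent.Lib.MP_df705a_gt.SV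
end
end

section

/-!
# SV, O2: uniqueness of the kernel
-/

open scoped ENNReal NNReal Topology InnerProductSpace
open MeasureTheory Filter Set

noncomputable section

namespace Pool.Agent.Lib.MP_df705a_gt.SV

variable {V E : Type*} [MeasurableSpace V] {μ : Measure V} [NormedAddCommGroup E]
  [InnerProductSpace ℂ E]

variable {S T : Lp E 2 μ →L[ℂ] Lp E 2 μ} {k l : V → V → E →L[ℂ] E} {c d : ℝ≥0}

/-- A function on a product with vanishing integrals over the rectangles vanishes. -/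
private theorem O2_zero [CompleteSpace E] {μ₁ μ₂ : Measure V} [SFinite μ₁] [SFinite μ₂]
    {F : V × V → E} (hF : Integrable F (μ₁.prod μ₂))
    (h0 : ∀ A B : Set V, MeasurableSet A → MeasurableSet B →
      ∫ q in A ×ˢ B, F q ∂(μ₁.prod μ₂) = 0) : F =ᵐ[μ₁.prod μ₂] 0 := by
  refine hF.ae_eq_zero_of_forall_setIntegral_eq_zero fun s hs hfin => ?_
  clear hfin
  have huniv : ∫ q, F q ∂(μ₁.prod μ₂) = 0 := by
    have := h0 univ univ MeasurableSet.univ MeasurableSet.univ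
    rwa [univ_prod_univ, Measure.restrict_univ] at this
  induction s, hs using MeasurableSpace.induction_on_inter generateFrom_prod.symm
    isPiSystem_prod with
  | empty => simp
  | basic t ht =>
    obtain ⟨A, hA, B, hB, rfl⟩ := ht
    exact h0 A B hA hB
  | compl t ht ih =>
    rw [setIntegral_compl ht hF, huniv, ih, sub_zero]
  | iUnion f hd hf ih =>
    have h1 := hasSum_integral_iUnion hf hd hF.integrableOn
    have h2 : (fun n => ∫ q in f n, F q ∂(μ₁.prod μ₂)) = fun _ => 0 := funext ih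
    rw [h2] at h1
    exact h1.unique hasSum_zero

private theorem O2_meas {k : V → V → E →L[ℂ] E} {c : ℝ≥0} (hk : KB1 μ k c) (v : E) :
    StronglyMeasurable fun q : V × V => k q.1 q.2 v := by
  have h1 : StronglyMeasurable fun q : V × V => (Function.uncurry k q, v) :=
    hk.meas.prodMk stronglyMeasurable_const
  exact (isBoundedBilinearMap_apply (𝕜 := ℂ) (E := E) (F := E)).continuous.comp_stronglyMeasurable h1

private theorem O2_int [SigmaFinite μ] {k : V → V → E →L[ℂ] E} {c : ℝ≥0} (hk : KB1 μ k c)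
    (v : E) (S : Set V) (hμ : μ S < ∞) :
    Integrable (fun q : V × V => k q.1 q.2 v) ((μ.restrict S).prod (μ.restrict S)) := by
  refine ⟨(O2_meas hk v).aestronglyMeasurable, ?_⟩
  have hm : Measurable fun q : V × V => ‖k q.1 q.2‖ₑ * ‖v‖ₑ := by
    have h1 : Measurable fun q : V × V => ‖k q.1 q.2‖ₑ := hk.meas.enorm
    exact h1.mul_const _
  have h1 : ∫⁻ q, ‖k q.1 q.2 v‖ₑ ∂((μ.restrict S).prod (μ.restrict S)) ≤
      ∫⁻ q, ‖k q.1 q.2‖ₑ * ‖v‖ₑ ∂((μ.restrict S).prod (μ.restrict S)) :=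
    lintegral_mono fun q => ContinuousLinearMap.le_opENorm _ _
  refine lt_of_le_of_lt h1 ?_
  rw [lintegral_prod _ hm.aemeasurable]
  have h2 : ∀ᵐ x ∂(μ.restrict S), ∫⁻ y, ‖k x y‖ₑ * ‖v‖ₑ ∂(μ.restrict S) ≤
      (c : ℝ≥0∞) * ‖v‖ₑ := by
    have hr : ∀ᵐ x ∂(μ.restrict S), ∫⁻ y, ‖k x y‖ₑ ∂μ ≤ (c : ℝ≥0∞) := by
      refine ae_restrict_of_ae ?_
      filter_upwards [hk.n1.1] with x hx
      simpa only [ENNReal.rpow_one] using hx
    have hK : Measurable (Function.uncurry fun x y => ‖k x y‖ₑ) := hk.meas.enorm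
    filter_upwards [hr] with x hx
    have hKx : Measurable fun y => ‖k x y‖ₑ := hK.of_uncurry_left
    rw [lintegral_mul_const _ hKx]
    exact mul_le_mul' ((setLIntegral_le_lintegral S _).trans hx) le_rfl
  refine lt_of_le_of_lt (lintegral_mono_ae h2) ?_
  rw [lintegral_const, Measure.restrict_apply_univ]
  exact ENNReal.mul_lt_top (ENNReal.mul_lt_top ENNReal.coe_lt_top enorm_lt_top) hμ

private theorem O2_fib {T : Lp E 2 μ →L[ℂ] Lp E 2 μ} {k : V → V → E →L[ℂ] E} {c : ℝ≥0}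
    [SigmaFinite μ] (h : IsKer μ T k) (hk : KB1 μ k c) (v : E) {B : Set V} (hB : MeasurableSet B)
    (hμ : μ B ≠ ∞) : ∀ᵐ x ∂μ, IntegrableOn (fun y => k x y v) B μ ∧
      ∫ y in B, k x y v ∂μ = T (indicatorConstLp 2 hB hμ v) x := by
  have hu : ∀ᵐ y ∂μ, indicatorConstLp 2 hB hμ v y = B.indicator (fun _ => v) y :=
    indicatorConstLp_coeFn
  filter_upwards [h (indicatorConstLp 2 hB hμ v), hk.ae_integrable (indicatorConstLp 2 hB hμ v)]
    with x h1 h2
  have h3 : (fun y => k x y (indicatorConstLp 2 hB hμ v y)) =ᵐ[μ]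
      B.indicator fun y => k x y v := by
    filter_upwards [hu] with y hy
    rw [hy]
    by_cases hyB : y ∈ B
    · rw [indicator_of_mem hyB, indicator_of_mem hyB]
    · rw [indicator_of_notMem hyB, indicator_of_notMem hyB, map_zero]
  constructor
  · rw [← integrable_indicator_iff hB]
    exact h2.congr h3
  · rw [h1, integral_congr_ae h3, integral_indicator hB]

private theorem O2_vec [SigmaFinite μ] [FiniteDimensional ℂ E]
    (h : IsKer μ T k) (h' : IsKer μ T l) (hk : KB1 μ k c) (hl : KB1 μ l d) (v : E) :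
    ∀ᵐ q ∂μ.prod μ, k q.1 q.2 v = l q.1 q.2 v := by
  have : CompleteSpace E := FiniteDimensional.complete ℂ E
  have key : ∀ n : ℕ, ∀ᵐ q ∂(μ.prod μ).restrict (spanningSets μ n ×ˢ spanningSets μ n),
      k q.1 q.2 v = l q.1 q.2 v := by
    intro n
    have hS := measurableSet_spanningSets μ n
    have hSμ := measure_spanningSets_lt_top μ n
    rw [← Measure.prod_restrict]
    have h1 := O2_int hk v _ hSμ
    have h2 := O2_int hl v _ hSμ
    have h3 := O2_zero (h1.sub h2) ?_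
    · filter_upwards [h3] with q hq
      exact sub_eq_zero.1 hq
    · intro A B hA hB
      rw [← Measure.prod_restrict, Measure.restrict_restrict hA, Measure.restrict_restrict hB]
      have hAB1 : Integrable ((fun q : V × V => k q.1 q.2 v) - fun q => l q.1 q.2 v)
          ((μ.restrict (A ∩ spanningSets μ n)).prod (μ.restrict (B ∩ spanningSets μ n))) := by
        have h4 := (h1.sub h2).integrableOn (s := A ×ˢ B)
        rw [IntegrableOn, ← Measure.prod_restrict, Measure.restrict_restrict hA,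
          Measure.restrict_restrict hB] at h4
        exact h4
      rw [integral_prod _ hAB1]
      have hB' : MeasurableSet (B ∩ spanningSets μ n) := hB.inter hS
      have hμB : μ (B ∩ spanningSets μ n) ≠ ∞ :=
        (lt_of_le_of_lt (measure_mono inter_subset_right) hSμ).ne
      have h5 : ∀ᵐ x ∂(μ.restrict (A ∩ spanningSets μ n)),
          (∫ y, (k x y v - l x y v) ∂(μ.restrict (B ∩ spanningSets μ n))) = (0 : E) := by
        refine ae_restrict_of_ae ?_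
        filter_upwards [O2_fib h hk v hB' hμB, O2_fib h' hl v hB' hμB] with x h6 h7
        rw [integral_sub h6.1 h7.1, h6.2, h7.2, sub_self]
      have h10 : (∫ x, ∫ y, ((fun q : V × V => k q.1 q.2 v) - fun q : V × V => l q.1 q.2 v) (x, y)
          ∂(μ.restrict (B ∩ spanningSets μ n)) ∂(μ.restrict (A ∩ spanningSets μ n))) =
          ∫ x, (0 : E) ∂(μ.restrict (A ∩ spanningSets μ n)) := integral_congr_ae h5
      rw [h10, integral_zero]
  have h8 : (⋃ n, spanningSets μ n ×ˢ spanningSets μ n) = (univ : Set (V × V)) := by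
    rw [eq_univ_iff_forall]
    rintro ⟨x, y⟩
    rw [mem_iUnion]
    have hx : x ∈ ⋃ n, spanningSets μ n := by
      rw [iUnion_spanningSets]
      trivial
    have hy : y ∈ ⋃ n, spanningSets μ n := by
      rw [iUnion_spanningSets]
      trivial
    obtain ⟨a, ha⟩ := mem_iUnion.1 hx
    obtain ⟨b, hb⟩ := mem_iUnion.1 hy
    exact ⟨max a b, monotone_spanningSets μ (le_max_left a b) ha,
      monotone_spanningSets μ (le_max_right a b) hb⟩
  have h9 := (ae_restrict_iUnion_iff (μ := μ.prod μ)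
    (fun n => spanningSets μ n ×ˢ spanningSets μ n) fun q => k q.1 q.2 v = l q.1 q.2 v).2 key
  rwa [h8, Measure.restrict_univ] at h9

/-- The kernel is unique.
PROOF. For the difference `j = k - l` and every `u ∈ L²` one has `∫ j(x,y) u(y) dy = 0` for almost all `x`. Take
`u = 1_B v`, `v` in a basis of `E` and `B = B' ∩ S_n` for `B'` in a countable generating `π`-system (generated algebra) of
the σ-algebra of `V` and `S_n` the spanning sets of `μ`: for almost all `x` all the integrals over these `B` vanish, so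
`∫_B j(x,y) v dy = 0` for all measurable `B ⊆ S_n` (`j(x, ·)` is integrable for almost all `x`; induction over the
`π`-system `MeasurableSpace.induction_on_inter`, or equality of the two measures with densities), and `j(x, ·) v = 0`
almost everywhere (`Integrable.ae_eq_zero_of_forall_setIntegral_eq_zero` on `S_n`). Then
`Measure.ae_prod_iff_ae_ae` / `measure_prod_null`. -/
theorem IsKer.unique [MeasurableSpace.CountablyGenerated V] [SigmaFinite μ]
    [FiniteDimensional ℂ E] (h : IsKer μ T k) (h' : IsKer μ T l) (hk : KB1 μ k c)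
    (hl : KB1 μ l d) : KEq μ k l := by
  let b := Module.finBasis ℂ E
  have h1 : ∀ᵐ q ∂μ.prod μ, ∀ i, k q.1 q.2 (b i) = l q.1 q.2 (b i) :=
    ae_all_iff.2 fun i => O2_vec h h' hk hl (b i)
  unfold KEq
  filter_upwards [h1] with q hq
  have h2 : (k q.1 q.2 : E →ₗ[ℂ] E) = (l q.1 q.2 : E →ₗ[ℂ] E) := b.ext hq
  exact ContinuousLinearMap.coe_injective h2

end Pool.Agent.Lib.MP_df705a_gt.SV
end
end
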