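import Pool.Agent.Lib.MP_df705a_gt.Mg.G036
import Pool.Agent.Lib.MP_df705a_gt.Mg.G072
import Pool.Agent.Lib.MP_df705a_gt.Mg.G081
import Pool.Agent.Lib.MP_df705a_gt.Mg.G082
import Pool.Agent.Lib.MP_df705a_gt.Mg.G076
import Pool.Agent.Lib.MP_df705a_gt.Mg.G041

section

/-!
# SV, G2: the measure preserving system
-/

open scoped ContDiff InnerProductSpace Matrix ENNReal NNReal Topology
open MeasureTheory Filter Set

noncomputable section

namespace Pool.Agent.Lib.MP_df705a_gt.SV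

open Pool.Agent.Lib.MP_df705a_gt.RL

variable {G : Type*} [Group G] [Countable G] {m : ℕ}

theorem isSys (g : Geo (2 * m)) (a : Act G (2 * m)) (ha : a.Iso g) {F : Set (V (2 * m))}
    (hF : a.Fund F) : IsSys g.vol a.act F where
  one := a.one
  mul := a.mul
  mp γ := measurePreserving_of_isom (Φ' := a.act γ⁻¹) (isIsom_act ha γ)
    (fun y => by rw [← a.mul, mul_inv_cancel, a.one])
    (fun y => by rw [← a.mul, inv_mul_cancel, a.one])
  meas := hF.meas
  fin := hF.bdd.measure_lt_top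
  tile := hF.tile

end Pool.Agent.Lib.MP_df705a_gt.SV
end
end

section

/-!
# SV, E1c: the localized functions `ψ χ_γ`
-/

open scoped ContDiff InnerProductSpace Matrix ENNReal NNReal Topology
open MeasureTheory Filter Set

noncomputable section

namespace Pool.Agent.Lib.MP_df705a_gt.SV

open Pool.Agent.Lib.MP_df705a_gt.RL

variable {G : Type*} [Group G] {m : ℕ}

namespace E1x

theorem smooth_ch (a : Act G (2 * m)) {χ : V (2 * m) → ℝ} (hχ : ContDiff ℝ ∞ χ) (γ : G) :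
    ContDiff ℝ ∞ (ch a χ γ) := hχ.comp (a.smooth γ⁻¹)

/-- The homeomorphism. -/
def homeo (a : Act G (2 * m)) (γ : G) : V (2 * m) ≃ₜ V (2 * m) where
  toFun := a.act γ
  invFun := a.act γ⁻¹
  left_inv y := by rw [← a.mul, inv_mul_cancel, a.one]
  right_inv y := by rw [← a.mul, mul_inv_cancel, a.one]
  continuous_toFun := (a.smooth γ).continuous
  continuous_invFun := (a.smooth γ⁻¹).continuous

theorem supp_ch (a : Act G (2 * m)) {χ : V (2 * m) → ℝ} (hχ : HasCompactSupport χ) (γ : G) :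
    HasCompactSupport (ch a χ γ) := hχ.comp_homeomorph (homeo a γ⁻¹)

theorem exists_radius_supp {χ : V (2 * m) → ℝ} (hχ : HasCompactSupport χ) :
    ∃ R : ℝ, 0 ≤ R ∧ ∀ y ∈ tsupport χ, ‖y‖ ≤ R := by
  obtain ⟨R, hR⟩ := hχ.isBounded.subset_closedBall 0
  refine ⟨max R 0, le_max_right _ _, fun y hy => ?_⟩
  have h := hR hy
  rw [mem_closedBall_zero_iff] at h
  exact h.trans (le_max_left _ _)

theorem hasSum_ch {a : Act G (2 * m)} (hp : IsProper a) {χ : V (2 * m) → ℝ} (hχ : IsPU a χ)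
    (y : V (2 * m)) : HasSum (fun γ => ch a χ γ y) 1 := by
  obtain ⟨R, -, hR⟩ := exists_radius_supp hχ.supp
  have hfin := finite_support hp (β := χ) (fun y hy => hR y (subset_tsupport _ hy)) y
  have h1 := hχ.sum y
  have h2 : ∑ᶠ γ, ch a χ γ y = 1 := h1
  have h3 : HasSum (fun γ => ch a χ γ y) (∑ᶠ γ, ch a χ γ y) := by
    have h4 : (Function.support fun γ => ch a χ γ y).Finite := hfin
    rw [finsum_eq_sum _ h4]
    refine hasSum_sum_of_ne_finset_zero fun γ hγ => ?_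
    by_contra h5
    exact hγ ((Finite.mem_toFinset h4).2 h5)
  rwa [h2] at h3

/-- Locally zero functions have no differential. -/
theorem ch_eventually {a : Act G (2 * m)} {χ : V (2 * m) → ℝ} {γ : G} {z : V (2 * m)}
    (h : a.act γ⁻¹ z ∉ tsupport χ) : ch a χ γ =ᶠ[𝓝 z] fun _ => 0 := by
  have h1 : (tsupport χ)ᶜ ∈ 𝓝 (a.act γ⁻¹ z) := (isClosed_tsupport χ).isOpen_compl.mem_nhds h
  have h2 := (a.smooth γ⁻¹).continuous.continuousAt (x := z) h1
  filter_upwards [h2] with y hy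
  exact image_eq_zero_of_notMem_tsupport (f := χ) hy

theorem gsq_ch_le (g : Geo (2 * m)) {a : Act G (2 * m)} (ha : a.Iso g) {χ : V (2 * m) → ℝ}
    (hχ : ContDiff ℝ ∞ χ) (hs : HasCompactSupport χ) :
    ∃ K : ℝ, 0 ≤ K ∧ ∀ γ z, gsq g (ch a χ γ) z ≤ K := by
  obtain ⟨K, hK⟩ := hs.isCompact.exists_bound_of_continuousOn (continuous_gsq g hχ).continuousOn
  have h1 : ∀ z, gsq g χ z ≤ max K 0 := by
    intro z
    by_cases hz : z ∈ tsupport χ
    · exact ((le_abs_self _).trans (hK z hz)).trans (le_max_left _ _)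
    · have h2 : χ =ᶠ[𝓝 z] fun _ => 0 := by
        filter_upwards [(isClosed_tsupport χ).isOpen_compl.mem_nhds hz] with y hy
        exact image_eq_zero_of_notMem_tsupport hy
      have h3 : gsq g χ z = 0 := by
        unfold gsq
        refine Finset.sum_eq_zero fun b _ => ?_
        have h4 : gv g χ z b = 0 := by
          unfold gv
          refine Finset.sum_eq_zero fun μ _ => ?_
          rw [pd_congr h2]
          unfold pd
          rw [fderiv_fun_const]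
          exact mul_zero _
        rw [h4, zero_pow two_ne_zero]
      rw [h3]
      exact le_max_right _ _
  refine ⟨max K 0, le_max_right _ _, fun γ z => ?_⟩
  have h2 := gsq_comp (isIsom_act ha γ⁻¹) (hχ.differentiable (by simp)) z
  have h3 : gsq g (ch a χ γ) z = gsq g χ (a.act γ⁻¹ z) := h2
  rw [h3]
  exact h1 _

theorem gsq_add_le (g : Geo (2 * m)) {a : Act G (2 * m)} (ha : a.Iso g) {F : Set (V (2 * m))}
    (hF : a.Fund F) {ψ : V (2 * m) → ℝ} (hψ : ContDiff ℝ ∞ ψ) {θ : G → ℝ}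
    (hθ : ∀ γ y, ψ (a.act γ y) = ψ y + θ γ) :
    ∃ K : ℝ, 0 ≤ K ∧ ∀ z, gsq g ψ z ≤ K := by
  obtain ⟨R, -, hR⟩ := exists_radius hF
  obtain ⟨K, hK⟩ := (isCompact_closedBall (0 : V (2 * m)) R).exists_bound_of_continuousOn
    (continuous_gsq g hψ).continuousOn
  refine ⟨max K 0, le_max_right _ _, fun z => ?_⟩
  obtain ⟨γ, hγ, -⟩ := hF.tile z
  have h1 := gsq_comp (isIsom_act ha γ) (hψ.differentiable (by simp)) z
  have h2 : (fun y => ψ (a.act γ y)) = fun y => ψ y + θ γ := funext fun y => hθ γ y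
  rw [h2, gsq_add_const] at h1
  rw [h1]
  refine ((le_abs_self _).trans (hK _ ?_)).trans (le_max_left _ _)
  rw [mem_closedBall_zero_iff]
  exact hR _ hγ

theorem exists_card {a : Act G (2 * m)} {F : Set (V (2 * m))} (hF : a.Fund F)
    (hp : IsProper a) (R : ℝ) :
    ∃ n : ℕ, ∀ z, ∃ s : Finset G, s.card ≤ n ∧ ∀ γ, ‖a.act γ⁻¹ z‖ ≤ R → γ ∈ s := by
  classical
  obtain ⟨R₀, -, hR₀⟩ := exists_radius hF
  have hfin := hp (max R₀ R)
  refine ⟨hfin.toFinset.card, fun z => ?_⟩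
  obtain ⟨τ, hτ, -⟩ := hF.tile z
  refine ⟨hfin.toFinset.image fun δ => τ⁻¹ * δ⁻¹, Finset.card_image_le, fun γ hγ => ?_⟩
  rw [Finset.mem_image]
  refine ⟨γ⁻¹ * τ⁻¹, ?_, by group⟩
  rw [Finite.mem_toFinset]
  refine ⟨a.act τ z, (hR₀ _ hτ).trans (le_max_left _ _), ?_⟩
  rw [← a.mul, inv_mul_cancel_right]
  exact hγ.trans (le_max_right _ _)

variable (C : Cliff m) (g : Geo (2 * m))

theorem cd_loc_eq_zero {a : Act G (2 * m)} {χ ψ : V (2 * m) → ℝ} {γ : G} {z : V (2 * m)}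
    (h : a.act γ⁻¹ z ∉ tsupport χ) : cd C g (fun y => ψ y * ch a χ γ y) z = 0 := by
  have h1 : (fun y => ψ y * ch a χ γ y) =ᶠ[𝓝 z] fun _ => 0 := by
    filter_upwards [ch_eventually h] with y hy
    rw [hy, mul_zero]
  rw [cd_congr C g h1, cd_zero]

/-- The differential of `ψ = ∑ ψ χ_γ`. -/
theorem hasSum_cd {a : Act G (2 * m)} (hp : IsProper a) {χ ψ : V (2 * m) → ℝ}
    (hχ : IsPU a χ) (hψ : ContDiff ℝ ∞ ψ) (z : V (2 * m)) :
    HasSum (fun γ => cd C g (fun y => ψ y * ch a χ γ y) z) (cd C g ψ z) := by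
  obtain ⟨R, -, hR⟩ := exists_radius_supp hχ.supp
  have hfin := finite_inv hp (‖z‖ + 1) R
  have h1 : ψ =ᶠ[𝓝 z] fun y => ∑ γ ∈ hfin.toFinset, ψ y * ch a χ γ y := by
    filter_upwards [Metric.ball_mem_nhds z one_pos] with y hy
    rw [← Finset.mul_sum]
    have h2 : ∑ γ ∈ hfin.toFinset, ch a χ γ y = 1 := by
      refine HasSum.unique ?_ (hasSum_ch hp hχ y)
      refine hasSum_sum_of_ne_finset_zero fun γ hγ => ?_
      by_contra h5
      refine hγ ((Finite.mem_toFinset hfin).2 ⟨y, ?_, hR _ (subset_tsupport _ h5)⟩)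
      rw [Metric.mem_ball, dist_eq_norm] at hy
      calc ‖y‖ = ‖z + (y - z)‖ := by rw [add_sub_cancel]
        _ ≤ ‖z‖ + ‖y - z‖ := norm_add_le _ _
        _ ≤ ‖z‖ + 1 := by linarith
    rw [h2, mul_one]
  rw [cd_congr C g h1, cd_sum C g]
  · refine hasSum_sum_of_ne_finset_zero fun γ hγ => ?_
    refine cd_loc_eq_zero C g fun h3 => hγ ((Finite.mem_toFinset hfin).2 ⟨z, by linarith, hR _ h3⟩)
  · exact fun γ _ => (hψ.mul (smooth_ch a hχ.smooth γ)).differentiable (by simp)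

/-- The bound of the differentials of the localized functions. -/
theorem tsum_cd_le {a : Act G (2 * m)} (ha : a.Iso g) {F : Set (V (2 * m))} (hF : a.Fund F)
    (hp : IsProper a) {χ ψ : V (2 * m) → ℝ} (hχ : IsPU a χ) (hψ : ContDiff ℝ ∞ ψ)
    {θ : G → ℝ} (hθ : ∀ γ y, ψ (a.act γ y) = ψ y + θ γ) :
    ∃ K : ℝ, 0 ≤ K ∧ ∀ z, ∑' γ, ‖cd C g (fun y => ψ y * ch a χ γ y) z‖ₑ ≤
      ENNReal.ofReal (K * (1 + |ψ z|)) := by
  obtain ⟨R, -, hR⟩ := exists_radius_supp hχ.supp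
  obtain ⟨n, hn⟩ := exists_card hF hp R
  obtain ⟨K₁, hK₁, hK₁'⟩ := gsq_ch_le g ha hχ.smooth hχ.supp
  obtain ⟨K₂, hK₂, hK₂'⟩ := gsq_add_le g ha hF hψ hθ
  obtain ⟨B, hB⟩ := hχ.supp.exists_bound_of_continuous hχ.smooth.continuous
  have hB0 : 0 ≤ B := (norm_nonneg _).trans (hB 0)
  set K₃ : ℝ := B * (KC C * √K₂) + KC C * √K₁ with hK₃
  have hK₃0 : 0 ≤ K₃ := by
    have := KC_nonneg C
    positivity
  have key : ∀ γ z, ‖cd C g (fun y => ψ y * ch a χ γ y) z‖ₑ ≤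
      ENNReal.ofReal (K₃ * (1 + |ψ z|)) := by
    intro γ z
    rw [← ofReal_norm]
    refine ENNReal.ofReal_le_ofReal ?_
    rw [cd_mul C g (hψ.differentiable (by simp)) ((smooth_ch a hχ.smooth γ).differentiable (by simp))]
    refine (norm_add_le _ _).trans ?_
    rw [norm_smul, norm_smul, Complex.norm_real, Complex.norm_real, Real.norm_eq_abs,
      Real.norm_eq_abs]
    have h1 : |ch a χ γ z| ≤ B := hB _
    have h2 : ‖cd C g ψ z‖ ≤ KC C * √K₂ :=
      (norm_cd_le C g ψ z).trans (mul_le_mul_of_nonneg_left (Real.sqrt_le_sqrt (hK₂' z)) (KC_nonneg C))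
    have h3 : ‖cd C g (ch a χ γ) z‖ ≤ KC C * √K₁ :=
      (norm_cd_le C g _ z).trans (mul_le_mul_of_nonneg_left (Real.sqrt_le_sqrt (hK₁' γ z)) (KC_nonneg C))
    have h4 : |ch a χ γ z| * ‖cd C g ψ z‖ ≤ B * (KC C * √K₂) :=
      mul_le_mul h1 h2 (norm_nonneg _) hB0
    have h5 : |ψ z| * ‖cd C g (ch a χ γ) z‖ ≤ |ψ z| * (KC C * √K₁) :=
      mul_le_mul_of_nonneg_left h3 (abs_nonneg _)
    have h6 : 0 ≤ KC C * √K₁ := mul_nonneg (KC_nonneg C) (Real.sqrt_nonneg _)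
    have h7 : 0 ≤ B * (KC C * √K₂) := mul_nonneg hB0 (mul_nonneg (KC_nonneg C) (Real.sqrt_nonneg _))
    have h8 : 0 ≤ B * (KC C * √K₂) * |ψ z| := mul_nonneg h7 (abs_nonneg _)
    calc |ch a χ γ z| * ‖cd C g ψ z‖ + |ψ z| * ‖cd C g (ch a χ γ) z‖
        ≤ B * (KC C * √K₂) + |ψ z| * (KC C * √K₁) := add_le_add h4 h5
      _ ≤ K₃ * (1 + |ψ z|) := by rw [hK₃]; nlinarith
  refine ⟨n * K₃, by positivity, fun z => ?_⟩
  obtain ⟨s, hs, hs'⟩ := hn z
  rw [tsum_eq_sum (s := s)]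
  · calc ∑ γ ∈ s, ‖cd C g (fun y => ψ y * ch a χ γ y) z‖ₑ
        ≤ ∑ γ ∈ s, ENNReal.ofReal (K₃ * (1 + |ψ z|)) := Finset.sum_le_sum fun γ _ => key γ z
      _ = s.card * ENNReal.ofReal (K₃ * (1 + |ψ z|)) := by
          rw [Finset.sum_const, nsmul_eq_mul]
      _ ≤ n * ENNReal.ofReal (K₃ * (1 + |ψ z|)) := by
          gcongr
      _ = ENNReal.ofReal (n * K₃ * (1 + |ψ z|)) := by
          rw [mul_assoc, ENNReal.ofReal_mul (Nat.cast_nonneg n), ENNReal.ofReal_natCast]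
  · intro γ hγ
    rw [cd_loc_eq_zero C g fun h3 => hγ (hs' γ (hR _ h3))]
    exact enorm_zero (E := En m)

end E1x

end Pool.Agent.Lib.MP_df705a_gt.SV
end
end

section

/-!
# SV, G3: finitely many indices over a bounded set
-/

open scoped ContDiff InnerProductSpace Matrix ENNReal NNReal Topology
open MeasureTheory Filter Set

noncomputable section

namespace Pool.Agent.Lib.MP_df705a_gt.SV

open Pool.Agent.Lib.MP_df705a_gt.RL

variable {G : Type*} [Group G] [Countable G] {m n k : ℕ}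

namespace G3x

omit [Countable G] in
theorem rwc_castAdd (a : Act G (2 * m)) (χ : V (2 * m) → ℝ) (s : V (2 * m) → V k)
    (h : n + k = 2 * m) (f : Fin (n + 1) → G) (i : Fin n) :
    rwc a χ s h f (Fin.cast h (Fin.castAdd k i)) = ch a χ (f i.succ) := by
  funext y
  unfold rwc rw'
  have e : Fin.cast h.symm (Fin.cast h (Fin.castAdd k i)) = Fin.castAdd k i := rfl
  rw [e, Fin.addCases_left]

omit [Countable G] in
theorem mem_of_cd_ne_zero (C : Cliff m) (g : Geo (2 * m)) {a : Act G (2 * m)}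
    {χ : V (2 * m) → ℝ} {γ : G} {z : V (2 * m)} (h : cd C g (ch a χ γ) z ≠ 0) :
    a.act γ⁻¹ z ∈ tsupport χ := by
  by_contra h1
  apply h
  rw [E1x.cd_congr C g (E1x.ch_eventually h1), E1x.cd_zero]

omit [Countable G] in
theorem finite_pi {ι : Type*} [Finite ι] {T : Set G} (hT : T.Finite) :
    {f : ι → G | ∀ i, f i ∈ T}.Finite := Set.Finite.pi' fun _ => hT

end G3x

open G3x in
/-- Only finitely many indices contribute over a bounded set. -/
theorem finite_index (C : Cliff m) (g : Geo (2 * m)) (a : Act G (2 * m)) (hp : IsProper a)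
    (h : n + k = 2 * m) (s : V (2 * m) → V k) (c : (Fin (n + 1) → G) → ℝ) {χ : V (2 * m) → ℝ}
    (hχ : IsPU a χ) (R : ℝ) :
    {α : Ind G m n | ∃ x : Fin (2 * m + 1) → V (2 * m), (∀ i, ‖x i‖ ≤ R) ∧
      psi0 a χ c α (x 0) ≠ 0 ∧ ∀ j, cd C g (psi a χ s h α j) (x j.succ) ≠ 0}.Finite := by
  obtain ⟨R', -, hR'⟩ := E1x.exists_radius_supp hχ.supp
  have hT := E1x.finite_inv hp R R'
  refine ((finite_pi (ι := Fin (n + 1)) hT).prod (Set.finite_univ (α := Equiv.Perm (Fin (2 * m))))).subset ?_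
  rintro ⟨f, σ⟩ ⟨x, hx, h0, hj⟩
  refine ⟨fun i => ?_, mem_univ _⟩
  refine Fin.cases ?_ (fun i => ?_) i
  · have h1 : ch a χ (f 0) (x 0) ≠ 0 := fun h2 => h0 (by
      unfold psi0
      rw [h2, mul_zero])
    exact ⟨x 0, hx 0, hR' _ (subset_tsupport _ h1)⟩
  · have h1 := hj (σ⁻¹ (Fin.cast h (Fin.castAdd k i)))
    have h2 : psi a χ s h (f, σ) (σ⁻¹ (Fin.cast h (Fin.castAdd k i))) = ch a χ (f i.succ) := by
      rw [← rwc_castAdd a χ s h f i]
      funext y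
      unfold psi
      rw [← Equiv.Perm.mul_apply, mul_inv_cancel, Equiv.Perm.one_apply]
    rw [h2] at h1
    exact ⟨_, hx _, hR' _ (mem_of_cd_ne_zero C g h1)⟩

end Pool.Agent.Lib.MP_df705a_gt.SV
end
end

section

/-!
# SV, G4: the pointwise trace is the determinant
-/

open scoped ContDiff InnerProductSpace Matrix ENNReal NNReal Topology
open MeasureTheory Filter Set

noncomputable section

namespace Pool.Agent.Lib.MP_df705a_gt.SV

open Pool.Agent.Lib.MP_df705a_gt.RL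

variable {G : Type*} [Group G] [Countable G] {m n k : ℕ}

namespace G4x

/-- The matrix of the differentials in the frame. -/
def Rm (g : Geo (2 * m)) (w : Fin (2 * m) → V (2 * m) → ℝ) (x : V (2 * m)) : Mt (2 * m) :=
  Matrix.of fun b i => E1x.gv g (w i) x b

theorem det_Rm (g : Geo (2 * m)) (w : Fin (2 * m) → V (2 * m) → ℝ) (x : V (2 * m)) :
    (Rm g w x).det = (g.e x).det * (Matrix.of fun i μ : Fin (2 * m) => pd μ (w i) x).det := by
  have h1 : Rm g w x = (g.e x)ᵀ * (Matrix.of fun i μ : Fin (2 * m) => pd μ (w i) x)ᵀ := by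
    ext b i
    rw [Matrix.mul_apply]
    rfl
  rw [h1, Matrix.det_mul, Matrix.det_transpose, Matrix.det_transpose]

theorem tr_cd (C : Cliff m) (g : Geo (2 * m)) (w : Fin (2 * m) → V (2 * m) → ℝ)
    (x : V (2 * m)) :
    tr (C.eps * (List.ofFn fun j => cd C g (w j) x).prod)
      = ((Rm g w x).det : ℂ) * tr (C.eps * C.top) :=
  trace_epsA_top_cR (t := trL m) trL_comm C.isCliff (Rm g w x)

theorem Rm_perm (g : Geo (2 * m)) (w : Fin (2 * m) → V (2 * m) → ℝ) (x : V (2 * m))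
    (σ : Equiv.Perm (Fin (2 * m))) :
    (Rm g (fun j => w (σ j)) x).det = ((Equiv.Perm.sign σ : ℤ) : ℝ) * (Rm g w x).det := by
  have h1 : Rm g (fun j => w (σ j)) x = (Rm g w x).submatrix id σ := rfl
  rw [h1, Matrix.det_permute']

omit [Countable G] in
/-- Finitely many terms. -/
theorem finite_terms {a : Act G (2 * m)} (hp : IsProper a) (h : n + k = 2 * m)
    (s : V (2 * m) → V k) (c : (Fin (n + 1) → G) → ℝ) {χ : V (2 * m) → ℝ}
    (hχ : IsPU a χ) (x : V (2 * m)) :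
    (Function.support fun f : Fin (n + 1) → G => c f * ch a χ (f 0) x *
        (Matrix.of fun i μ : Fin (2 * m) => pd μ (rwc a χ s h f i) x).det).Finite := by
  obtain ⟨R', -, hR'⟩ := E1x.exists_radius_supp hχ.supp
  have hT := E1x.finite_inv hp ‖x‖ R'
  refine (G3x.finite_pi (ι := Fin (n + 1)) hT).subset fun f hf i => ?_
  rw [Function.mem_support] at hf
  have h0 : ch a χ (f 0) x ≠ 0 := fun h2 => hf (by rw [h2, mul_zero, zero_mul])
  have h1 : (Matrix.of fun i μ : Fin (2 * m) => pd μ (rwc a χ s h f i) x).det ≠ 0 :=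
    fun h2 => hf (by rw [h2, mul_zero])
  refine Fin.cases ?_ (fun i => ?_) i
  · exact ⟨x, le_rfl, hR' _ (subset_tsupport _ h0)⟩
  · by_contra h2
    apply h1
    refine Matrix.det_eq_zero_of_row_eq_zero (Fin.cast h (Fin.castAdd k i)) fun μ => ?_
    rw [Matrix.of_apply, G3x.rwc_castAdd]
    have h3 : a.act (f i.succ)⁻¹ x ∉ tsupport χ := fun h3 => h2 ⟨x, le_rfl, hR' _ h3⟩
    rw [E1x.pd_congr (E1x.ch_eventually h3)]
    unfold pd
    rw [fderiv_fun_const]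
    rfl

end G4x

open G4x in
/-- The pointwise trace is the determinant. -/
theorem trace_det (C : Cliff m) (g : Geo (2 * m)) (a : Act G (2 * m)) (hp : IsProper a)
    (h : n + k = 2 * m) (s : V (2 * m) → V k) (c : (Fin (n + 1) → G) → ℝ) {χ : V (2 * m) → ℝ}
    (hχ : IsPU a χ) (x : V (2 * m)) :
    ∑' α : Ind G m n, (psi0 a χ c α x : ℂ) *
      tr (C.eps * (List.ofFn fun j => cd C g (psi a χ s h α j) x).prod) =
    ((2 * m).factorial : ℂ) * tr (C.eps * C.top) *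
      (((g.e x).det * ∑' f : Fin (n + 1) → G, c f * ch a χ (f 0) x *
        (Matrix.of fun i μ : Fin (2 * m) => pd μ (rwc a χ s h f i) x).det : ℝ) : ℂ) := by
  classical
  set A : (Fin (n + 1) → G) → ℝ := fun f => c f * ch a χ (f 0) x *
        (Matrix.of fun i μ : Fin (2 * m) => pd μ (rwc a χ s h f i) x).det with hA
  have hfin : (Function.support A).Finite := finite_terms hp h s c hχ x
  have key : ∀ α : Ind G m n, (psi0 a χ c α x : ℂ) *
      tr (C.eps * (List.ofFn fun j => cd C g (psi a χ s h α j) x).prod)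
      = tr (C.eps * C.top) * (((g.e x).det * A α.1 : ℝ) : ℂ) := by
    intro α
    have h1 : (List.ofFn fun j => cd C g (psi a χ s h α j) x)
        = List.ofFn fun j => cd C g ((fun j => rwc a χ s h α.1 (α.2 j)) j) x := rfl
    rw [h1, tr_cd, Rm_perm g (rwc a χ s h α.1) x α.2, det_Rm]
    unfold psi0
    have h2 : ((Equiv.Perm.sign α.2 : ℤ) : ℂ) * ((Equiv.Perm.sign α.2 : ℤ) : ℂ) = 1 := by
      rw [← Int.cast_mul, Int.units_coe_mul_self, Int.cast_one]
    rw [hA]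
    push_cast
    linear_combination (c α.1 : ℂ) * (ch a χ (α.1 0) x : ℂ) * ((g.e x).det : ℂ) *
      ((Matrix.of fun i μ : Fin (2 * m) => pd μ (rwc a χ s h α.1 i) x).det : ℂ) *
      tr (C.eps * C.top) * h2
  rw [tsum_congr key, tsum_mul_left]
  have h3 : ∑' α : Ind G m n, (((g.e x).det * A α.1 : ℝ) : ℂ)
      = ((2 * m).factorial : ℂ) * (((g.e x).det * ∑' f, A f : ℝ) : ℂ) := by
    have h4 : ∑' f, A f = ∑ f ∈ hfin.toFinset, A f :=
      tsum_eq_sum fun f hf => by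
        by_contra h5
        exact hf (hfin.mem_toFinset.2 h5)
    have h5 : ∑' α : Ind G m n, (((g.e x).det * A α.1 : ℝ) : ℂ)
        = ∑ α ∈ hfin.toFinset ×ˢ (Finset.univ : Finset (Equiv.Perm (Fin (2 * m)))),
          (((g.e x).det * A α.1 : ℝ) : ℂ) :=
      tsum_eq_sum fun α hα => by
        have h6 : α.1 ∉ hfin.toFinset := fun h7 =>
          hα (Finset.mem_product.2 ⟨h7, Finset.mem_univ _⟩)
        have h7 : A α.1 = 0 := by
          by_contra h8
          exact h6 (hfin.mem_toFinset.2 h8)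
        rw [h7, mul_zero, Complex.ofReal_zero]
    rw [h5, Finset.sum_product, h4]
    simp only [Finset.sum_const, Finset.card_univ, Fintype.card_perm, Fintype.card_fin,
      nsmul_eq_mul]
    rw [← Finset.mul_sum]
    congr 1
    push_cast
    rw [Finset.mul_sum]
  rw [h3]
  ring

end Pool.Agent.Lib.MP_df705a_gt.SV
end
end

section

/-!
# SV, E1: the commutator relation for the functions `s_j`
-/

open scoped ContDiff InnerProductSpace Matrix ENNReal NNReal Topology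
open MeasureTheory Filter Set

noncomputable section

namespace Pool.Agent.Lib.MP_df705a_gt.SV

open Pool.Agent.Lib.MP_df705a_gt.RL

variable {G : Type*} [Group G] [Countable G] {m : ℕ}

namespace E1x

omit [Countable G] in
theorem tl_mem {a : Act G (2 * m)} {F : Set (V (2 * m))} (hF : a.Fund F) (y : V (2 * m)) :
    a.act (tl hF y) y ∈ F := (hF.tile y).choose_spec.1

omit [Countable G] in
theorem tl_eq {a : Act G (2 * m)} {F : Set (V (2 * m))} (hF : a.Fund F) {y : V (2 * m)} {γ : G}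
    (h : a.act γ y ∈ F) : tl hF y = γ := ((hF.tile y).choose_spec.2 γ h).symm

theorem measurable_tw {a : Act G (2 * m)} {F : Set (V (2 * m))} (hF : a.Fund F) (ℓ : G → ℝ)
    (δ : ℝ) : Measurable (Function.uncurry (tw hF ℓ δ)) := by
  letI : MeasurableSpace G := ⊤
  haveI : MeasurableSingletonClass G := ⟨fun _ => trivial⟩
  have h1 : Measurable (tl hF) := by
    refine measurable_to_countable' fun γ => ?_
    have h2 : tl hF ⁻¹' {γ} = a.act γ ⁻¹' F := by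
      ext y
      constructor
      · intro h
        have h3 : tl hF y = γ := h
        rw [← h3]
        exact tl_mem hF y
      · intro h
        exact tl_eq hF h
    rw [h2]
    exact (a.smooth γ).continuous.measurable hF.meas
  have h3 : Measurable fun p : G × G => Real.exp (δ * ℓ (p.1 * p.2⁻¹)) := measurable_of_countable _
  exact h3.comp ((h1.comp measurable_fst).prodMk (h1.comp measurable_snd))

omit [Countable G] in
theorem one_le_tw {a : Act G (2 * m)} {F : Set (V (2 * m))} (hF : a.Fund F) {ℓ : G → ℝ}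
    (hℓ : IsLen ℓ) {δ : ℝ} (hδ : 0 ≤ δ) (x y : V (2 * m)) : 1 ≤ tw hF ℓ δ x y := by
  unfold tw
  rw [Real.one_le_exp_iff]
  exact mul_nonneg hδ (hℓ.nonneg _)

omit [Countable G] in
theorem growth {a : Act G (2 * m)} {F : Set (V (2 * m))} (hF : a.Fund F)
    {ψ : V (2 * m) → ℝ} (hψ : ContDiff ℝ ∞ ψ) {θ : G → ℝ}
    (hθ : ∀ γ y, ψ (a.act γ y) = ψ y + θ γ) {ℓ : G → ℝ}
    (hℓ : IsLen ℓ) (hw : ∀ γ, |θ γ| ≤ ℓ γ) {δ : ℝ} (hδ : 0 < δ) :
    ∃ L : ℝ, 0 ≤ L ∧ ∀ x z, 1 + |ψ z| ≤ L * (1 + |ψ x|) * tw hF ℓ δ x z := by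
  obtain ⟨R, -, hR⟩ := exists_radius hF
  obtain ⟨B, hB⟩ := (isCompact_closedBall (0 : V (2 * m)) R).exists_bound_of_continuousOn
    hψ.continuous.continuousOn
  have hBF : ∀ y ∈ F, |ψ y| ≤ max B 0 := fun y hy => (hB y (by
    rw [mem_closedBall_zero_iff]
    exact hR y hy)).trans (le_max_left _ _)
  have hB0 : 0 ≤ max B 0 := le_max_right _ _
  set b := max B 0
  have hθm : ∀ γ δ, θ (γ * δ) = θ γ + θ δ := by
    intro γ δ
    have h1 := hθ (γ * δ) 0
    rw [a.mul, hθ, hθ] at h1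
    linarith
  have hc : ∃ c : ℝ, 0 ≤ c ∧ ∀ l : ℝ, 0 ≤ l → 1 + l ≤ c * Real.exp (δ * l) := by
    refine ⟨max 1 δ⁻¹, by positivity, fun l hl => ?_⟩
    have h1 : δ * l + 1 ≤ Real.exp (δ * l) := Real.add_one_le_exp _
    have h2 : 1 ≤ max 1 δ⁻¹ := le_max_left _ _
    have h3 : δ⁻¹ ≤ max 1 δ⁻¹ := le_max_right _ _
    have h4 : l ≤ max 1 δ⁻¹ * (δ * l) := by
      calc l = δ⁻¹ * (δ * l) := by rw [← mul_assoc, inv_mul_cancel₀ hδ.ne', one_mul]
        _ ≤ _ := mul_le_mul_of_nonneg_right h3 (by positivity)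
    calc 1 + l ≤ max 1 δ⁻¹ + max 1 δ⁻¹ * (δ * l) := add_le_add h2 h4
      _ = max 1 δ⁻¹ * (δ * l + 1) := by ring
      _ ≤ _ := mul_le_mul_of_nonneg_left h1 (by positivity)
  obtain ⟨c, hc0, hc⟩ := hc
  refine ⟨(1 + 2 * b) * c, by positivity, fun x z => ?_⟩
  have h1 := hBF _ (tl_mem hF x)
  have h2 := hBF _ (tl_mem hF z)
  have h3 := hθ (tl hF x) x
  have h4 := hθ (tl hF z) z
  have h5 : θ (tl hF x * (tl hF z)⁻¹) = θ (tl hF x) - θ (tl hF z) := by
    have h6 := hθm (tl hF x * (tl hF z)⁻¹) (tl hF z)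
    rw [inv_mul_cancel_right] at h6
    linarith
  have h7 := hw (tl hF x * (tl hF z)⁻¹)
  have h8 := hc _ (hℓ.nonneg (tl hF x * (tl hF z)⁻¹))
  set l := ℓ (tl hF x * (tl hF z)⁻¹) with hl
  have hl0 : 0 ≤ l := hℓ.nonneg _
  have h9 : |ψ z| ≤ |ψ x| + 2 * b + l := by
    have h10 : ψ z = ψ x + ψ (a.act (tl hF z) z) - ψ (a.act (tl hF x) x)
        + θ (tl hF x * (tl hF z)⁻¹) := by
      rw [h5, h3, h4]
      ring
    rw [h10]
    have e1 := abs_add_le (ψ x + ψ (a.act (tl hF z) z) - ψ (a.act (tl hF x) x))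
      (θ (tl hF x * (tl hF z)⁻¹))
    have e2 := abs_sub (ψ x + ψ (a.act (tl hF z) z)) (ψ (a.act (tl hF x) x))
    have e3 := abs_add_le (ψ x) (ψ (a.act (tl hF z) z))
    linarith
  have h11 : 1 + |ψ z| ≤ (1 + 2 * b) * (1 + |ψ x|) * (1 + l) := by
    have h12 := abs_nonneg (ψ x)
    have e1 : 0 ≤ b * |ψ x| := mul_nonneg hB0 h12
    have e2 : 0 ≤ |ψ x| * l := mul_nonneg h12 hl0
    have e3 : 0 ≤ b * l := mul_nonneg hB0 hl0
    have e4 : 0 ≤ b * |ψ x| * l := mul_nonneg e1 hl0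
    nlinarith
  have h12 : 0 ≤ (1 + 2 * b) * (1 + |ψ x|) := by positivity
  calc 1 + |ψ z| ≤ (1 + 2 * b) * (1 + |ψ x|) * (1 + l) := h11
    _ ≤ (1 + 2 * b) * (1 + |ψ x|) * (c * Real.exp (δ * l)) := mul_le_mul_of_nonneg_left h8 h12
    _ = _ := by
      rw [tw]
      ring

theorem enorm_mul_le_mul {E : Type*} [NormedRing E] (x y : E) : ‖x * y‖ₑ ≤ ‖x‖ₑ * ‖y‖ₑ := by
  have h3 : ‖x * y‖₊ ≤ ‖x‖₊ * ‖y‖₊ := nnnorm_mul_le _ _
  have h4 : ((‖x * y‖₊ : ℝ≥0) : ℝ≥0∞) ≤ ((‖x‖₊ * ‖y‖₊ : ℝ≥0) : ℝ≥0∞) := by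
    exact_mod_cast h3
  rw [ENNReal.coe_mul] at h4
  exact h4

end E1x

open E1x in
/-- PROOF. Let `χ` be a smooth function with compact support, `0 ≤ χ`, and `∑_γ χ_γ = 1`. The functions
`ψ_γ = ψ χ_γ` are smooth with compact support, so `P.comm` holds for them, for all `γ ∈ G` simultaneously for almost
all `(x, y)`. Sum over `γ`. -/
theorem comm_add {C : Cliff m} {g : Geo (2 * m)} {a : Act G (2 * m)} (ha : a.Iso g)
    {F : Set (V (2 * m))} (hF : a.Fund F) (hp : IsProper a) {U : G → V (2 * m) → En m}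
    {r ρ : ℝ → V (2 * m) → V (2 * m) → En m} (P : Pack C g a U r ρ) {ψ : V (2 * m) → ℝ}
    (hψ : ContDiff ℝ ∞ ψ) {θ : G → ℝ} (hθ : ∀ γ y, ψ (a.act γ y) = ψ y + θ γ) {ℓ : G → ℝ}
    (hℓ : IsLen ℓ) (hw : ∀ γ, |θ γ| ≤ ℓ γ) {δ : ℝ} (hδ : 0 < δ) {p : ℝ} {t : ℝ} (ht : 0 < t)
    {c₁ c : ℝ≥0} (hb : KB g.vol (tw hF ℓ δ) p (r t) c₁ c) :
    KEq g.vol (fun x y => ((ψ x - ψ y : ℝ) : ℂ) • r t x y)
      (fun x y => (t : ℂ) • comp g.vol (r t) (fun x y => cd C g ψ x * r t x y) x y) := by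
  obtain ⟨χ, hχ, -⟩ := E1x.exists_isPU a hF hp
  obtain ⟨K, hK, hK'⟩ := tsum_cd_le C g ha hF hp hχ hψ hθ
  obtain ⟨L, hL, hL'⟩ := growth hF hψ hθ hℓ hw hδ
  have hcomm : ∀ᵐ q ∂g.vol.prod g.vol, ∀ γ : G,
      (((ψ q.1 * ch a χ γ q.1) - (ψ q.2 * ch a χ γ q.2) : ℝ) : ℂ) • r t q.1 q.2 =
      (t : ℂ) • comp g.vol (r t)
        (fun x y => cd C g (fun y => ψ y * ch a χ γ y) x * r t x y) q.1 q.2 :=
    ae_all_iff.2 fun γ => P.comm t ht (fun y => ψ y * ch a χ γ y)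
      (hψ.mul (smooth_ch a hχ.smooth γ)) ((supp_ch a hχ.supp γ).mul_left)
  have ma := nk_meas (measurable_tw hF ℓ δ) hb.meas
  have hfin := (NB.young ma ma le_rfl le_rfl le_rfl (by norm_num) hb.n1 hb.n1).ae_lt_top
    (kc_meas ma ma) one_pos
  filter_upwards [hcomm, hfin] with q h1 h2
  obtain ⟨x, y⟩ := q
  simp only at h1 h2
  change ((ψ x - ψ y : ℝ) : ℂ) • r t x y
    = (t : ℂ) • comp g.vol (r t) (fun x y => cd C g ψ x * r t x y) x y
  have hl : HasSum (fun γ => (((ψ x * ch a χ γ x) - (ψ y * ch a χ γ y) : ℝ) : ℂ) • r t x y)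
      (((ψ x - ψ y : ℝ) : ℂ) • r t x y) := by
    have e1 := ((hasSum_ch hp hχ x).mul_left (ψ x)).sub ((hasSum_ch hp hχ y).mul_left (ψ y))
    rw [mul_one, mul_one] at e1
    exact ((Complex.hasSum_ofReal.2 e1).smul_const (r t x y))
  rw [← hl.tsum_eq]
  simp only [h1]
  rw [tsum_const_smul'']
  congr 1
  unfold comp
  have hm1 : StronglyMeasurable fun z => r t x z :=
    hb.meas.comp_measurable (measurable_const.prodMk measurable_id)
  have hm2 : StronglyMeasurable fun z => r t z y :=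
    hb.meas.comp_measurable (measurable_id.prodMk measurable_const)
  have hmc : ∀ γ : G, StronglyMeasurable (cd C g (fun y => ψ y * ch a χ γ y)) := fun γ =>
    (continuous_cd C g (hψ.mul (smooth_ch a hχ.smooth γ))).stronglyMeasurable
  have hm : ∀ γ : G, StronglyMeasurable fun z =>
      r t x z * (cd C g (fun y => ψ y * ch a χ γ y) z * r t z y) := fun γ =>
    hm1.mul ((hmc γ).mul hm2)
  have hbd : ∑' γ : G, ∫⁻ z, ‖r t x z * (cd C g (fun y => ψ y * ch a χ γ y) z * r t z y)‖ₑ ∂g.vol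
      ≠ (⊤ : ℝ≥0∞) := by
    rw [← lintegral_tsum fun γ => (hm γ).enorm.aemeasurable]
    refine ne_top_of_le_ne_top (b := ENNReal.ofReal (K * (L * (1 + |ψ x|))) *
      kc g.vol (nk (tw hF ℓ δ) (r t)) (nk (tw hF ℓ δ) (r t)) x y)
      (ENNReal.mul_ne_top ENNReal.ofReal_ne_top h2.ne) ?_
    unfold kc
    rw [← lintegral_const_mul' _ _ ENNReal.ofReal_ne_top]
    refine lintegral_mono fun z => ?_
    calc ∑' γ : G, ‖r t x z * (cd C g (fun y => ψ y * ch a χ γ y) z * r t z y)‖ₑ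
        ≤ ∑' γ : G, ‖r t x z‖ₑ * (‖cd C g (fun y => ψ y * ch a χ γ y) z‖ₑ * ‖r t z y‖ₑ) :=
          ENNReal.tsum_le_tsum fun γ => (enorm_mul_le_mul _ _).trans
            (mul_le_mul_right (enorm_mul_le_mul _ _) _)
      _ = ‖r t x z‖ₑ * ((∑' γ : G, ‖cd C g (fun y => ψ y * ch a χ γ y) z‖ₑ) * ‖r t z y‖ₑ) := by
          rw [ENNReal.tsum_mul_left, ENNReal.tsum_mul_right]
      _ ≤ ‖r t x z‖ₑ * (ENNReal.ofReal (K * (L * (1 + |ψ x|) * tw hF ℓ δ x z)) *
            (ENNReal.ofReal (tw hF ℓ δ z y) * ‖r t z y‖ₑ)) := by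
          have e1 : (∑' γ : G, ‖cd C g (fun y => ψ y * ch a χ γ y) z‖ₑ)
              ≤ ENNReal.ofReal (K * (L * (1 + |ψ x|) * tw hF ℓ δ x z)) :=
            (hK' z).trans (ENNReal.ofReal_le_ofReal (mul_le_mul_of_nonneg_left (hL' x z) hK))
          have e2 : ‖r t z y‖ₑ ≤ ENNReal.ofReal (tw hF ℓ δ z y) * ‖r t z y‖ₑ := by
            calc ‖r t z y‖ₑ = 1 * ‖r t z y‖ₑ := (one_mul _).symm
              _ ≤ _ := by
                gcongr
                exact ENNReal.one_le_ofReal.2 (one_le_tw hF hℓ hδ.le z y)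
          gcongr
      _ = ENNReal.ofReal (K * (L * (1 + |ψ x|))) *
            (nk (tw hF ℓ δ) (r t) x z * nk (tw hF ℓ δ) (r t) z y) := by
          unfold nk
          rw [← mul_assoc K, ENNReal.ofReal_mul (by positivity)]
          ring
  rw [← integral_tsum (fun γ => (hm γ).aestronglyMeasurable) hbd]
  refine integral_congr_ae (Eventually.of_forall fun z => ?_)
  have e1 := ((hasSum_cd C g hp hχ hψ z).mul_right (r t z y)).mul_left (r t x z)
  exact e1.tsum_eq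

/-- Smooth partitions of unity exist. -/
theorem exists_isPU (a : Act G (2 * m)) {F : Set (V (2 * m))} (hF : a.Fund F)
    (hp : IsProper a) : ∃ χ, IsPU a χ ∧ ∀ y, 0 ≤ χ y := E1x.exists_isPU a hF hp

end Pool.Agent.Lib.MP_df705a_gt.SV
end
end

section

/-!
# SV, G5a: lengths and bounds for the expansion
-/

open scoped ContDiff InnerProductSpace Matrix ENNReal NNReal Topology
open MeasureTheory Filter Set

noncomputable section

namespace Pool.Agent.Lib.MP_df705a_gt.SV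

open Pool.Agent.Lib.MP_df705a_gt.RL

variable {G : Type*} [Group G] {m n k : ℕ}

namespace G5x

/-- The length of the additive functions. -/
theorem exists_len {a : Act G (2 * m)} {s : V (2 * m) → V k} (hs : IsAdd a s) {ℓ : G → ℝ}
    (hℓ : IsLen ℓ) :
    ∃ ℓ' : G → ℝ, IsLen ℓ' ∧ (∀ γ, ℓ γ ≤ ℓ' γ) ∧
      (∀ (γ : G) (t : Fin k → ℝ), (∀ y j, s (a.act γ y) j = s y j + t j) → ∀ j, |t j| ≤ ℓ' γ) := by
  choose t ht using hs.add
  have huniq : ∀ (γ : G) (t' : Fin k → ℝ), (∀ y j, s (a.act γ y) j = s y j + t' j) →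
      ∀ j, t' j = t γ j := by
    intro γ t' h j
    have h1 := h 0 j
    have h2 := ht γ 0 j
    linarith
  have hone : ∀ j, t 1 j = 0 := by
    intro j
    have h1 := ht 1 0 j
    rw [a.one] at h1
    linarith
  have hmul : ∀ γ δ j, t (γ * δ) j = t γ j + t δ j := by
    intro γ δ j
    have h1 := ht (γ * δ) 0 j
    rw [a.mul, ht, ht] at h1
    linarith
  have hinv : ∀ γ j, t γ⁻¹ j = - t γ j := by
    intro γ j
    have h1 := hmul γ⁻¹ γ j
    rw [inv_mul_cancel, hone] at h1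
    linarith
  refine ⟨fun γ => ℓ γ + ∑ j, |t γ j|, ⟨?_, ?_, ?_, ?_⟩, ?_, ?_⟩
  · simp only [hone, hℓ.one, abs_zero, Finset.sum_const_zero, add_zero]
  · exact fun γ => add_nonneg (hℓ.nonneg γ) (Finset.sum_nonneg fun _ _ => abs_nonneg _)
  · intro γ
    simp only [hinv, hℓ.inv, abs_neg]
  · intro γ δ
    simp only [hmul]
    have h1 : ∑ j, |t γ j + t δ j| ≤ ∑ j, |t γ j| + ∑ j, |t δ j| := by
      rw [← Finset.sum_add_distrib]
      exact Finset.sum_le_sum fun j _ => abs_add_le _ _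
    have h2 := hℓ.mul γ δ
    linarith
  · intro γ
    have h1 : 0 ≤ ∑ j, |t γ j| := Finset.sum_nonneg fun _ _ => abs_nonneg _
    linarith
  · intro γ t' h j
    rw [huniq γ t' h j]
    have h1 : |t γ j| ≤ ∑ j, |t γ j| :=
      Finset.single_le_sum (f := fun j => |t γ j|) (fun _ _ => abs_nonneg _) (Finset.mem_univ j)
    have h2 := hℓ.nonneg γ
    linarith

/-- The distance of two points of a loop is at most the length of the loop. -/
theorem loop_len {N : ℕ} {ℓ : G → ℝ} (hℓ : IsLen ℓ) (z : Fin (N + 1) → G) (p q : Fin (N + 1)) :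
    ℓ (z p * (z q)⁻¹) ≤ ∑ i, ℓ (z i * (z (i + 1))⁻¹) := by
  set y : ℕ → G := fun i => z (Fin.ofNat (N + 1) i) with hy
  have hsum : ∑ i, ℓ (z i * (z (i + 1))⁻¹) = ∑ i ∈ Finset.range (N + 1), ℓ (y i * (y (i + 1))⁻¹) := by
    rw [Finset.sum_range]
    refine Finset.sum_congr rfl fun i _ => ?_
    have h1 : Fin.ofNat (N + 1) (i : ℕ) = i := by
      ext
      simp [Fin.ofNat, Nat.mod_eq_of_lt i.2]
    have h2 : Fin.ofNat (N + 1) ((i : ℕ) + 1) = i + 1 := by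
      ext
      simp [Fin.ofNat, Fin.val_add]
    simp only [hy, h1, h2]
  have key : ∀ p q : ℕ, p ≤ q → ℓ (y p * (y q)⁻¹) ≤ ∑ i ∈ Finset.Ico p q, ℓ (y i * (y (i + 1))⁻¹) := by
    intro p q hpq
    induction q, hpq using Nat.le_induction with
    | base => simp [hℓ.one]
    | succ q hpq ih =>
      rw [Finset.sum_Ico_succ_top hpq]
      have h1 := hℓ.mul (y p * (y q)⁻¹) (y q * (y (q + 1))⁻¹)
      have h2 : y p * (y q)⁻¹ * (y q * (y (q + 1))⁻¹) = y p * (y (q + 1))⁻¹ := by group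
      rw [h2] at h1
      linarith
  have key2 : ∀ p q : ℕ, p ≤ q → q < N + 1 → ℓ (y p * (y q)⁻¹) ≤
      ∑ i ∈ Finset.range (N + 1), ℓ (y i * (y (i + 1))⁻¹) := by
    intro p q hpq hq
    refine (key p q hpq).trans ?_
    refine Finset.sum_le_sum_of_subset_of_nonneg ?_ fun i _ _ => hℓ.nonneg _
    intro i hi
    rw [Finset.mem_Ico] at hi
    rw [Finset.mem_range]
    omega
  have hyv : ∀ p : Fin (N + 1), y p = z p := by
    intro p
    simp only [hy]
    congr 1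
    ext
    simp [Fin.ofNat, Nat.mod_eq_of_lt p.2]
  rw [hsum, ← hyv p, ← hyv q]
  rcases le_total (p : ℕ) (q : ℕ) with h | h
  · exact key2 _ _ h q.2
  · have h1 := key2 _ _ h p.2
    rw [← hℓ.inv] at h1
    have h2 : (y q * (y p)⁻¹)⁻¹ = y p * (y q)⁻¹ := by group
    rw [h2] at h1
    exact h1

/-- `χ_γ(z) ≠ 0` only if `γ⁻¹ z` is in the ball of radius `R`; then `γ⁻¹` is close to `tl z`. -/
theorem near_len {a : Act G (2 * m)} {F : Set (V (2 * m))} (hF : a.Fund F) (hp : IsProper a)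
    (ℓ : G → ℝ) (R : ℝ) :
    ∃ C : ℝ, 0 ≤ C ∧ ∀ γ z, ‖a.act γ⁻¹ z‖ ≤ R → ℓ (γ⁻¹ * (tl hF z)⁻¹) ≤ C := by
  obtain ⟨R₀, -, hR₀⟩ := E1x.exists_radius hF
  have hfin := hp (max R₀ R)
  obtain ⟨C, hC⟩ := (hfin.image ℓ).bddAbove
  refine ⟨max C 0, le_max_right _ _, fun γ z h => ?_⟩
  refine (hC ⟨γ⁻¹ * (tl hF z)⁻¹, ?_, rfl⟩).trans (le_max_left _ _)
  refine ⟨a.act (tl hF z) z, (hR₀ _ (E1x.tl_mem hF z)).trans (le_max_left _ _), ?_⟩
  rw [← a.mul, inv_mul_cancel_right]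
  exact h.trans (le_max_right _ _)

/-- `1 + l ≤ c exp (δ l)`. -/
theorem exp_growth {δ : ℝ} (hδ : 0 < δ) :
    ∃ c : ℝ, 0 ≤ c ∧ ∀ l : ℝ, 0 ≤ l → 1 + l ≤ c * Real.exp (δ * l) := by
  refine ⟨max 1 δ⁻¹, by positivity, fun l hl => ?_⟩
  have h1 : δ * l + 1 ≤ Real.exp (δ * l) := Real.add_one_le_exp _
  have h2 : 1 ≤ max 1 δ⁻¹ := le_max_left _ _
  have h3 : δ⁻¹ ≤ max 1 δ⁻¹ := le_max_right _ _
  have h4 : l ≤ max 1 δ⁻¹ * (δ * l) := by
    calc l = δ⁻¹ * (δ * l) := by rw [← mul_assoc, inv_mul_cancel₀ hδ.ne', one_mul]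
      _ ≤ _ := mul_le_mul_of_nonneg_right h3 (by positivity)
  calc 1 + l ≤ max 1 δ⁻¹ + max 1 δ⁻¹ * (δ * l) := add_le_add h2 h4
    _ = max 1 δ⁻¹ * (δ * l + 1) := by ring
    _ ≤ _ := mul_le_mul_of_nonneg_left h1 (by positivity)

/-- The differences of the functions `ψ`. -/
theorem psi_diff {a : Act G (2 * m)} {F : Set (V (2 * m))} (hF : a.Fund F)
    {χ : V (2 * m) → ℝ} (hχ : IsPU a χ) {s : V (2 * m) → V k} (hs : IsAdd a s) {ℓ : G → ℝ}
    (hℓ : IsLen ℓ)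
    (ht : ∀ (γ : G) (t : Fin k → ℝ), (∀ y j, s (a.act γ y) j = s y j + t j) → ∀ j, |t j| ≤ ℓ γ)
    (h : n + k = 2 * m) {δ : ℝ} (hδ : 0 < δ) :
    ∃ C : ℝ, 0 ≤ C ∧ ∀ (α : Ind G m n) (j : Fin (2 * m)) (y z : V (2 * m)),
      |psi a χ s h α j y - psi a χ s h α j z| ≤ C * Real.exp (δ * ℓ (tl hF y * (tl hF z)⁻¹)) := by
  obtain ⟨R, -, hR⟩ := E1x.exists_radius hF
  obtain ⟨c, hc, hc'⟩ := exp_growth hδ
  obtain ⟨B, hB⟩ := hχ.supp.exists_bound_of_continuous hχ.smooth.continuous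
  have hB0 : 0 ≤ B := (norm_nonneg _).trans (hB 0)
  have hscont : ∀ i, Continuous fun y => s y i := fun i => (hs.smooth i).continuous
  have hex : ∀ i : Fin k, ∃ D : ℝ, 0 ≤ D ∧ ∀ y ∈ F, |s y i| ≤ D := by
    intro i
    obtain ⟨D, hD⟩ := (isCompact_closedBall (0 : V (2 * m)) R).exists_bound_of_continuousOn
      (hscont i).continuousOn
    refine ⟨max D 0, le_max_right _ _, fun y hy => (hD y (by
      rw [mem_closedBall_zero_iff]
      exact hR y hy)).trans (le_max_left _ _)⟩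
  choose D hD0 hD using hex
  set D₁ := ∑ i, D i with hD₁
  have hD₁0 : 0 ≤ D₁ := Finset.sum_nonneg fun i _ => hD0 i
  have hDle : ∀ i, D i ≤ D₁ := fun i =>
    Finset.single_le_sum (f := D) (fun i _ => hD0 i) (Finset.mem_univ i)
  choose t ht' using hs.add
  have hmul : ∀ γ δ j, t (γ * δ) j = t γ j + t δ j := by
    intro γ δ j
    have h1 := ht' (γ * δ) 0 j
    rw [a.mul, ht', ht'] at h1
    linarith
  have hexp : ∀ y z, 1 ≤ Real.exp (δ * ℓ (tl hF y * (tl hF z)⁻¹)) := fun y z =>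
    Real.one_le_exp (mul_nonneg hδ.le (hℓ.nonneg _))
  have hsd : ∀ (i : Fin k) (y z : V (2 * m)),
      |s y i - s z i| ≤ (2 * D₁ + 1) * c * Real.exp (δ * ℓ (tl hF y * (tl hF z)⁻¹)) := by
    intro i y z
    have h1 := (hD i _ (E1x.tl_mem hF y)).trans (hDle i)
    have h2 := (hD i _ (E1x.tl_mem hF z)).trans (hDle i)
    have h3 := ht' (tl hF y) y i
    have h4 := ht' (tl hF z) z i
    have h5 : t (tl hF y * (tl hF z)⁻¹) i = t (tl hF y) i - t (tl hF z) i := by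
      have h6 := hmul (tl hF y * (tl hF z)⁻¹) (tl hF z) i
      rw [inv_mul_cancel_right] at h6
      linarith
    have h7 := ht (tl hF y * (tl hF z)⁻¹) _ (ht' _) i
    have h8 := hc' _ (hℓ.nonneg (tl hF y * (tl hF z)⁻¹))
    have hl0 := hℓ.nonneg (tl hF y * (tl hF z)⁻¹)
    have h9 : s y i - s z i = s (a.act (tl hF y) y) i - s (a.act (tl hF z) z) i
        - t (tl hF y * (tl hF z)⁻¹) i := by
      rw [h5, h3, h4]
      ring
    have e1 := abs_sub (s (a.act (tl hF y) y) i - s (a.act (tl hF z) z) i)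
      (t (tl hF y * (tl hF z)⁻¹) i)
    have e2 := abs_sub (s (a.act (tl hF y) y) i) (s (a.act (tl hF z) z) i)
    calc |s y i - s z i| ≤ 2 * D₁ + ℓ (tl hF y * (tl hF z)⁻¹) := by rw [h9]; linarith
      _ ≤ (2 * D₁ + 1) * (1 + ℓ (tl hF y * (tl hF z)⁻¹)) := by nlinarith
      _ ≤ (2 * D₁ + 1) * (c * Real.exp (δ * ℓ (tl hF y * (tl hF z)⁻¹))) :=
        mul_le_mul_of_nonneg_left h8 (by positivity)
      _ = _ := by ring
  refine ⟨2 * B + (2 * D₁ + 1) * c, by positivity, fun α j y z => ?_⟩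
  have he := hexp y z
  have hc3 : 0 ≤ (2 * D₁ + 1) * c := by positivity
  have hcase : ∀ i : Fin (n + k), |rw' a χ s α.1 i y - rw' a χ s α.1 i z| ≤
      (2 * B + (2 * D₁ + 1) * c) * Real.exp (δ * ℓ (tl hF y * (tl hF z)⁻¹)) := by
    intro i
    refine Fin.addCases (fun i => ?_) (fun i => ?_) i
    · simp only [rw', Fin.addCases_left]
      have h1 : |ch a χ (α.1 i.succ) y| ≤ B := hB _
      have h2 : |ch a χ (α.1 i.succ) z| ≤ B := hB _
      have h3 := abs_sub (ch a χ (α.1 i.succ) y) (ch a χ (α.1 i.succ) z)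
      have h4 : 2 * B ≤ 2 * B * Real.exp (δ * ℓ (tl hF y * (tl hF z)⁻¹)) :=
        le_mul_of_one_le_right (by positivity) he
      have h5 : 0 ≤ (2 * D₁ + 1) * c * Real.exp (δ * ℓ (tl hF y * (tl hF z)⁻¹)) := by positivity
      rw [add_mul]
      linarith
    · simp only [rw', Fin.addCases_right]
      have h1 := hsd i y z
      have h4 : 0 ≤ 2 * B * Real.exp (δ * ℓ (tl hF y * (tl hF z)⁻¹)) := by positivity
      rw [add_mul]
      linarith
  exact hcase _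

end G5x

end Pool.Agent.Lib.MP_df705a_gt.SV
end
end

section

/-!
# SV, G5b: the expansion of `φ`: counting and bounds
-/

open scoped ContDiff InnerProductSpace Matrix ENNReal NNReal Topology
open MeasureTheory Filter Set

noncomputable section

namespace Pool.Agent.Lib.MP_df705a_gt.SV

open Pool.Agent.Lib.MP_df705a_gt.RL

variable {G : Type*} [Group G] {m n k : ℕ}

namespace G5x

/-- The elements `f i` move some point of the tuple into the ball. -/
def Near (a : Act G (2 * m)) (R : ℝ) (x : Fin (2 * m + 1) → V (2 * m)) (f : Fin (n + 1) → G) :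
    Prop := ∀ i, ∃ p, ‖a.act (f i)⁻¹ (x p)‖ ≤ R

theorem exists_count {a : Act G (2 * m)} {F : Set (V (2 * m))} (hF : a.Fund F)
    (hp : IsProper a) (R : ℝ) (n : ℕ) :
    ∃ N₀ : ℕ, ∀ x : Fin (2 * m + 1) → V (2 * m), ∃ S : Finset (Fin (n + 1) → G),
      S.card ≤ N₀ ∧ ∀ f, Near a R x f → f ∈ S := by
  classical
  obtain ⟨N₁, hN₁⟩ := E1x.exists_card hF hp R
  refine ⟨((2 * m + 1) * N₁) ^ (n + 1), fun x => ?_⟩
  choose s hs hs' using fun p : Fin (2 * m + 1) => hN₁ (x p)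
  set T : Finset G := Finset.univ.biUnion s with hT
  have hTc : T.card ≤ (2 * m + 1) * N₁ := by
    refine Finset.card_biUnion_le.trans ?_
    calc ∑ p, (s p).card ≤ ∑ _p : Fin (2 * m + 1), N₁ := Finset.sum_le_sum fun p _ => hs p
      _ = (2 * m + 1) * N₁ := by simp
  refine ⟨Fintype.piFinset fun _ => T, ?_, fun f hf => ?_⟩
  · rw [Fintype.card_piFinset_const]
    exact Nat.pow_le_pow_left hTc _
  · rw [Fintype.mem_piFinset]
    intro i
    obtain ⟨p, hp'⟩ := hf i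
    exact Finset.mem_biUnion.2 ⟨p, Finset.mem_univ _, hs' p _ hp'⟩

/-- The length of the loop. -/
def Lx {a : Act G (2 * m)} {F : Set (V (2 * m))} (hF : a.Fund F) (ℓ : G → ℝ)
    (x : Fin (2 * m + 1) → V (2 * m)) : ℝ := ∑ i, ℓ (tl hF (x i) * (tl hF (x (i + 1)))⁻¹)

theorem prod_tw {a : Act G (2 * m)} {F : Set (V (2 * m))} (hF : a.Fund F) (ℓ : G → ℝ) (δ : ℝ)
    (x : Fin (2 * m + 1) → V (2 * m)) :
    ∏ i, tw hF ℓ δ (x i) (x (i + 1)) = Real.exp (δ * Lx hF ℓ x) := by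
  unfold tw Lx
  rw [Finset.mul_sum, Real.exp_sum]

theorem sum_succ_le {a : Act G (2 * m)} {F : Set (V (2 * m))} (hF : a.Fund F) {ℓ : G → ℝ}
    (hℓ : IsLen ℓ) (x : Fin (2 * m + 1) → V (2 * m)) :
    ∑ j : Fin (2 * m), ℓ (tl hF (x j.succ) * (tl hF (x j.castSucc))⁻¹) ≤ Lx hF ℓ x := by
  unfold Lx
  rw [Fin.sum_univ_castSucc]
  have h1 : ∀ j : Fin (2 * m), ℓ (tl hF (x j.succ) * (tl hF (x j.castSucc))⁻¹)
      = ℓ (tl hF (x j.castSucc) * (tl hF (x (j.castSucc + 1)))⁻¹) := by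
    intro j
    rw [Fin.coeSucc_eq_succ, ← hℓ.inv]
    congr 1
    group
  simp only [h1]
  have h2 := hℓ.nonneg (tl hF (x (Fin.last (2 * m))) * (tl hF (x (Fin.last (2 * m) + 1)))⁻¹)
  linarith

/-- The growth of the cocycle. -/
theorem coc_le {a : Act G (2 * m)} {F : Set (V (2 * m))} (hF : a.Fund F) (hp : IsProper a)
    {ℓ ℓ' : G → ℝ} (hℓ : IsLen ℓ) (hle : ∀ γ, ℓ γ ≤ ℓ' γ) {δ : ℝ} (hδ : 0 < δ)
    {c : (Fin (n + 1) → G) → ℝ} (hc : IsCoc ℓ δ c) (R : ℝ) :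
    ∃ C : ℝ, 0 ≤ C ∧ ∀ x f, Near a R x f → |c f| ≤ C * Real.exp (δ * Lx hF ℓ' x) := by
  obtain ⟨C₁, hC₁, hC₁'⟩ := near_len hF hp ℓ R
  obtain ⟨C₂, hC₂⟩ := hc.growth
  refine ⟨max C₂ 0 * Real.exp (δ * (2 * C₁)), by positivity, fun x f hf => ?_⟩
  have hLL : Lx hF ℓ x ≤ Lx hF ℓ' x := Finset.sum_le_sum fun i _ => hle _
  have h1 : ∀ i j, ℓ ((f i)⁻¹ * f j) ≤ 2 * C₁ + Lx hF ℓ' x := by
    intro i j
    obtain ⟨p, hp'⟩ := hf i
    obtain ⟨q, hq'⟩ := hf j
    have e1 := hC₁' _ _ hp'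
    have e2 := hC₁' _ _ hq'
    have e3 := loop_len hℓ (fun i => tl hF (x i)) p q
    have e4 : (f i)⁻¹ * f j = (f i)⁻¹ * (tl hF (x p))⁻¹ *
        ((tl hF (x p)) * (tl hF (x q))⁻¹) * ((f j)⁻¹ * (tl hF (x q))⁻¹)⁻¹ := by group
    have e5 := hℓ.mul ((f i)⁻¹ * (tl hF (x p))⁻¹ * ((tl hF (x p)) * (tl hF (x q))⁻¹))
      ((f j)⁻¹ * (tl hF (x q))⁻¹)⁻¹
    have e6 := hℓ.mul ((f i)⁻¹ * (tl hF (x p))⁻¹) ((tl hF (x p)) * (tl hF (x q))⁻¹)
    rw [hℓ.inv] at e5
    rw [e4]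
    have e7 : ∑ i, ℓ (tl hF (x i) * (tl hF (x (i + 1)))⁻¹) = Lx hF ℓ x := rfl
    rw [e7] at e3
    linarith
  have h2 := hC₂ f _ h1
  calc |c f| ≤ C₂ * Real.exp (δ * (2 * C₁ + Lx hF ℓ' x)) := h2
    _ ≤ max C₂ 0 * Real.exp (δ * (2 * C₁ + Lx hF ℓ' x)) :=
      mul_le_mul_of_nonneg_right (le_max_left _ _) (Real.exp_nonneg _)
    _ = _ := by
      rw [mul_add, Real.exp_add]
      ring

/-- Counting. -/
theorem tsum_le_count (S : Finset (Fin (n + 1) → G)) {e : Ind G m n → ℝ≥0∞} {B : ℝ≥0∞}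
    (h0 : ∀ α, α.1 ∉ S → e α = 0) (hB : ∀ α, e α ≤ B) :
    ∑' α, e α ≤ (S.card * (2 * m).factorial : ℕ) * B := by
  classical
  rw [tsum_eq_sum (s := S ×ˢ (Finset.univ : Finset (Equiv.Perm (Fin (2 * m)))))]
  · calc ∑ α ∈ S ×ˢ (Finset.univ : Finset (Equiv.Perm (Fin (2 * m)))), e α
        ≤ ∑ _α ∈ S ×ˢ (Finset.univ : Finset (Equiv.Perm (Fin (2 * m)))), B :=
          Finset.sum_le_sum fun α _ => hB α
      _ = _ := by
        rw [Finset.sum_const, Finset.card_product, Finset.card_univ, Fintype.card_perm,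
          Fintype.card_fin, nsmul_eq_mul]
  · intro α hα
    exact h0 α fun h => hα (Finset.mem_product.2 ⟨h, Finset.mem_univ _⟩)

/-- A nonzero term of the expansion is near. -/
theorem near_of_ne {a : Act G (2 * m)} {χ : V (2 * m) → ℝ} {R : ℝ}
    (hR : ∀ y ∈ tsupport χ, ‖y‖ ≤ R) (s : V (2 * m) → V k) (h : n + k = 2 * m)
    (x : Fin (2 * m + 1) → V (2 * m)) (α : Ind G m n) (h0 : ch a χ (α.1 0) (x 0) ≠ 0)
    (hj : ∀ j, psi a χ s h α j (x j.succ) - psi a χ s h α j (x j.castSucc) ≠ 0) :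
    Near a R x α.1 := by
  intro i
  refine Fin.cases ?_ (fun i => ?_) i
  · exact ⟨0, hR _ (subset_tsupport _ h0)⟩
  · obtain ⟨f, σ⟩ := α
    have h1 := hj (σ⁻¹ (Fin.cast h (Fin.castAdd k i)))
    have h2 : psi a χ s h (f, σ) (σ⁻¹ (Fin.cast h (Fin.castAdd k i))) = ch a χ (f i.succ) := by
      rw [← G3x.rwc_castAdd a χ s h f i]
      funext y
      unfold psi
      rw [← Equiv.Perm.mul_apply, mul_inv_cancel, Equiv.Perm.one_apply]
    rw [h2] at h1
    by_cases h3 : ch a χ (f i.succ) (x (σ⁻¹ (Fin.cast h (Fin.castAdd k i))).succ) = 0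
    · rw [h3, zero_sub, neg_ne_zero] at h1
      exact ⟨_, hR _ (subset_tsupport _ h1)⟩
    · exact ⟨_, hR _ (subset_tsupport _ h3)⟩

theorem near_of_cd_ne (C : Cliff m) (g : Geo (2 * m)) {a : Act G (2 * m)} {χ : V (2 * m) → ℝ}
    {R : ℝ} (hR : ∀ y ∈ tsupport χ, ‖y‖ ≤ R) (s : V (2 * m) → V k) (h : n + k = 2 * m)
    (x : Fin (2 * m + 1) → V (2 * m)) (α : Ind G m n) (h0 : ch a χ (α.1 0) (x 0) ≠ 0)
    (hj : ∀ j, cd C g (psi a χ s h α j) (x j.succ) ≠ 0) :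
    Near a R x α.1 := by
  intro i
  refine Fin.cases ?_ (fun i => ?_) i
  · exact ⟨0, hR _ (subset_tsupport _ h0)⟩
  · obtain ⟨f, σ⟩ := α
    have h1 := hj (σ⁻¹ (Fin.cast h (Fin.castAdd k i)))
    have h2 : psi a χ s h (f, σ) (σ⁻¹ (Fin.cast h (Fin.castAdd k i))) = ch a χ (f i.succ) := by
      rw [← G3x.rwc_castAdd a χ s h f i]
      funext y
      unfold psi
      rw [← Equiv.Perm.mul_apply, mul_inv_cancel, Equiv.Perm.one_apply]
    rw [h2] at h1
    exact ⟨_, hR _ (G3x.mem_of_cd_ne_zero C g h1)⟩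

/-- The general estimate of a sum over the index set. -/
theorem sum_bound {a : Act G (2 * m)} {F : Set (V (2 * m))} (hF : a.Fund F) (hp : IsProper a)
    {ℓ ℓ' : G → ℝ} (hℓ : IsLen ℓ) (hℓ' : IsLen ℓ') (hle : ∀ γ, ℓ γ ≤ ℓ' γ) {δ : ℝ} (hδ : 0 < δ)
    {c : (Fin (n + 1) → G) → ℝ} (hc : IsCoc ℓ δ c) {χ : V (2 * m) → ℝ} (hχ : IsPU a χ)
    {R : ℝ} {E : (Fin (2 * m + 1) → V (2 * m)) → Ind G m n → Fin (2 * m) → ℝ} {B : ℝ}
    (hB : 0 ≤ B) (hE0 : ∀ x α j, 0 ≤ E x α j)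
    (hE : ∀ x α j, E x α j ≤ B * Real.exp (δ * ℓ' (tl hF (x j.succ) * (tl hF (x j.castSucc))⁻¹)))
    (hN : ∀ x α, ch a χ (α.1 0) (x 0) ≠ 0 → (∀ j, E x α j ≠ 0) → Near a R x α.1) :
    ∃ K : ℝ≥0, ∀ x, ∑' α : Ind G m n, ENNReal.ofReal (|psi0 a χ c α (x 0)| * ∏ j, E x α j) ≤
      K * ∏ i, ENNReal.ofReal (tw hF ℓ' (2 * δ) (x i) (x (i + 1))) := by
  obtain ⟨N₀, hN₀⟩ := exists_count hF hp R n
  obtain ⟨C, hC, hC'⟩ := coc_le hF hp hℓ hle hδ hc R
  obtain ⟨D, hD⟩ := hχ.supp.exists_bound_of_continuous hχ.smooth.continuous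
  have hD0 : 0 ≤ D := (norm_nonneg _).trans (hD 0)
  set B' : ℝ := C * D * B ^ (2 * m) with hB'
  have hB'0 : 0 ≤ B' := by positivity
  refine ⟨((N₀ * (2 * m).factorial : ℕ) : ℝ≥0) * B'.toNNReal, fun x => ?_⟩
  obtain ⟨S, hS, hS'⟩ := hN₀ x
  have hprod : ∏ i, ENNReal.ofReal (tw hF ℓ' (2 * δ) (x i) (x (i + 1)))
      = ENNReal.ofReal (Real.exp (2 * δ * Lx hF ℓ' x)) := by
    rw [← prod_tw, ENNReal.ofReal_prod_of_nonneg]
    exact fun i _ => (Real.exp_pos _).le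
  have hL0 : 0 ≤ Lx hF ℓ' x := Finset.sum_nonneg fun i _ => hℓ'.nonneg _
  have hterm : ∀ α : Ind G m n, Near a R x α.1 →
      |psi0 a χ c α (x 0)| * ∏ j, E x α j ≤ B' * Real.exp (2 * δ * Lx hF ℓ' x) := by
    intro α hα
    have h1 : |psi0 a χ c α (x 0)| ≤ C * Real.exp (δ * Lx hF ℓ' x) * D := by
      unfold psi0
      rw [abs_mul, abs_mul]
      have e1 : |((Equiv.Perm.sign α.2 : ℤ) : ℝ)| = 1 := by
        rcases Int.units_eq_one_or (Equiv.Perm.sign α.2) with e | e <;> rw [e] <;> simp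
      rw [e1, one_mul]
      exact mul_le_mul (hC' x _ hα) (hD _) (abs_nonneg _) (by positivity)
    have h2 : ∏ j, E x α j ≤ B ^ (2 * m) * Real.exp (δ * Lx hF ℓ' x) := by
      calc ∏ j, E x α j
          ≤ ∏ j : Fin (2 * m), B * Real.exp (δ * ℓ' (tl hF (x j.succ) * (tl hF (x j.castSucc))⁻¹)) :=
            Finset.prod_le_prod (fun j _ => hE0 x α j) fun j _ => hE x α j
        _ = B ^ (2 * m) * Real.exp (δ * ∑ j : Fin (2 * m),
              ℓ' (tl hF (x j.succ) * (tl hF (x j.castSucc))⁻¹)) := by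
            rw [Finset.prod_mul_distrib, Finset.prod_const, Finset.card_univ, Fintype.card_fin,
              Finset.mul_sum, Real.exp_sum]
        _ ≤ _ := by
            refine mul_le_mul_of_nonneg_left (Real.exp_le_exp.2 ?_) (by positivity)
            exact mul_le_mul_of_nonneg_left (sum_succ_le hF hℓ' x) hδ.le
    calc |psi0 a χ c α (x 0)| * ∏ j, E x α j
        ≤ (C * Real.exp (δ * Lx hF ℓ' x) * D) * (B ^ (2 * m) * Real.exp (δ * Lx hF ℓ' x)) :=
          mul_le_mul h1 h2 (Finset.prod_nonneg fun j _ => hE0 x α j) (by positivity)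
      _ = B' * Real.exp (2 * δ * Lx hF ℓ' x) := by
          rw [hB', show 2 * δ * Lx hF ℓ' x = δ * Lx hF ℓ' x + δ * Lx hF ℓ' x by ring, Real.exp_add]
          ring
  have hzero : ∀ α : Ind G m n, ¬ Near a R x α.1 → |psi0 a χ c α (x 0)| * ∏ j, E x α j = 0 := by
    intro α hα
    by_contra h1
    apply hα
    refine hN x α ?_ ?_
    · intro h2
      apply h1
      unfold psi0
      rw [h2, mul_zero, abs_zero, zero_mul]
    · intro j h2
      apply h1
      rw [Finset.prod_eq_zero (Finset.mem_univ j) h2, mul_zero]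
  have h1 := tsum_le_count (m := m) S (e := fun α => ENNReal.ofReal (|psi0 a χ c α (x 0)| * ∏ j, E x α j))
    (B := ENNReal.ofReal (B' * Real.exp (2 * δ * Lx hF ℓ' x)))
    (fun α hα => by
      change ENNReal.ofReal (|psi0 a χ c α (x 0)| * ∏ j, E x α j) = 0
      rw [hzero α fun h => hα (hS' _ h), ENNReal.ofReal_zero])
    (fun α => by
      change ENNReal.ofReal (|psi0 a χ c α (x 0)| * ∏ j, E x α j) ≤ _
      refine ENNReal.ofReal_le_ofReal ?_
      by_cases h : Near a R x α.1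
      · exact hterm α h
      · rw [hzero α h]
        positivity)
  refine h1.trans ?_
  rw [hprod, ENNReal.ofReal_mul hB'0, ← mul_assoc]
  gcongr
  rw [ENNReal.coe_mul]
  refine mul_le_mul' ?_ le_rfl
  rw [ENNReal.coe_natCast]
  exact_mod_cast Nat.mul_le_mul_right _ hS

end G5x

end Pool.Agent.Lib.MP_df705a_gt.SV
end
end

section

/-!
# SV, G5: the expansion of `φ`
-/

open scoped ContDiff InnerProductSpace Matrix ENNReal NNReal Topology
open MeasureTheory Filter Set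

noncomputable section

namespace Pool.Agent.Lib.MP_df705a_gt.SV

open Pool.Agent.Lib.MP_df705a_gt.RL

variable {G : Type*} [Group G] [Countable G] {m n k : ℕ}

namespace G5x

omit [Countable G] in
theorem smooth_psi {a : Act G (2 * m)} {χ : V (2 * m) → ℝ} (hχ : IsPU a χ)
    {s : V (2 * m) → V k} (hs : IsAdd a s) (h : n + k = 2 * m) (α : Ind G m n)
    (j : Fin (2 * m)) : ContDiff ℝ ∞ (psi a χ s h α j) := by
  have hcase : ∀ i : Fin (n + k), ContDiff ℝ ∞ (rw' a χ s α.1 i) := by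
    intro i
    refine Fin.addCases (fun i => ?_) (fun i => ?_) i
    · have e : rw' a χ s α.1 (Fin.castAdd k i) = ch a χ (α.1 i.succ) := by
        funext y
        simp only [rw', Fin.addCases_left]
      rw [e]
      exact E1x.smooth_ch a hχ.smooth _
    · have e : rw' a χ s α.1 (Fin.natAdd n i) = fun y => s y i := by
        funext y
        simp only [rw', Fin.addCases_right]
      rw [e]
      exact hs.smooth i
  exact hcase _

omit [Countable G] in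
theorem continuous_psi0 {a : Act G (2 * m)} {χ : V (2 * m) → ℝ} (hχ : IsPU a χ)
    (c : (Fin (n + 1) → G) → ℝ) (α : Ind G m n) : Continuous (psi0 a χ c α) :=
  continuous_const.mul (E1x.smooth_ch a hχ.smooth _).continuous

omit [Countable G] in
theorem gsq_psi_le (g : Geo (2 * m)) {a : Act G (2 * m)} (ha : a.Iso g)
    {F : Set (V (2 * m))} (hF : a.Fund F) {χ : V (2 * m) → ℝ} (hχ : IsPU a χ)
    {s : V (2 * m) → V k} (hs : IsAdd a s) (h : n + k = 2 * m) :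
    ∃ K : ℝ, 0 ≤ K ∧ ∀ (α : Ind G m n) (j : Fin (2 * m)) z, E1x.gsq g (psi a χ s h α j) z ≤ K := by
  obtain ⟨K₁, hK₁, hK₁'⟩ := E1x.gsq_ch_le g ha hχ.smooth hχ.supp
  have h2 : ∀ i : Fin k, ∃ K : ℝ, 0 ≤ K ∧ ∀ z, E1x.gsq g (fun y => s y i) z ≤ K := by
    intro i
    choose t ht using hs.add
    exact E1x.gsq_add_le g ha hF (hs.smooth i) (θ := fun γ => t γ i) fun γ y => ht γ y i
  choose K₂ hK₂ hK₂' using h2
  have hsum : ∀ i, K₂ i ≤ ∑ i, K₂ i := fun i =>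
    Finset.single_le_sum (f := K₂) (fun i _ => hK₂ i) (Finset.mem_univ i)
  have hsum0 : 0 ≤ ∑ i, K₂ i := Finset.sum_nonneg fun i _ => hK₂ i
  refine ⟨K₁ + ∑ i, K₂ i, by positivity, fun α j z => ?_⟩
  have hcase : ∀ i : Fin (n + k), E1x.gsq g (rw' a χ s α.1 i) z ≤ K₁ + ∑ i, K₂ i := by
    intro i
    refine Fin.addCases (fun i => ?_) (fun i => ?_) i
    · have e : rw' a χ s α.1 (Fin.castAdd k i) = ch a χ (α.1 i.succ) := by
        funext y
        simp only [rw', Fin.addCases_left]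
      rw [e]
      have := hK₁' (α.1 i.succ) z
      linarith
    · have e : rw' a χ s α.1 (Fin.natAdd n i) = fun y => s y i := by
        funext y
        simp only [rw', Fin.addCases_right]
      rw [e]
      have := hK₂' i z
      have := hsum i
      linarith
  exact hcase _

omit [Countable G] in
theorem norm_cd_psi_le (C : Cliff m) (g : Geo (2 * m)) {a : Act G (2 * m)} (ha : a.Iso g)
    {F : Set (V (2 * m))} (hF : a.Fund F) {χ : V (2 * m) → ℝ} (hχ : IsPU a χ)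
    {s : V (2 * m) → V k} (hs : IsAdd a s) (h : n + k = 2 * m) :
    ∃ K : ℝ, 0 ≤ K ∧ ∀ (α : Ind G m n) (j : Fin (2 * m)) z, ‖cd C g (psi a χ s h α j) z‖ ≤ K := by
  obtain ⟨K, hK, hK'⟩ := gsq_psi_le g ha hF hχ hs h (n := n)
  refine ⟨E1x.KC C * √K, mul_nonneg (E1x.KC_nonneg C) (Real.sqrt_nonneg _), fun α j z => ?_⟩
  exact (E1x.norm_cd_le C g _ z).trans
    (mul_le_mul_of_nonneg_left (Real.sqrt_le_sqrt (hK' α j z)) (E1x.KC_nonneg C))

theorem cd_odd (C : Cliff m) (g : Geo (2 * m)) (ψ : V (2 * m) → ℝ) (x : V (2 * m)) :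
    cd C g ψ x * C.eps = -(C.eps * cd C g ψ x) := by
  rw [E1x.cd_eq, Finset.sum_mul, Finset.mul_sum, ← Finset.sum_neg_distrib]
  refine Finset.sum_congr rfl fun a _ => ?_
  have h1 : (((E1x.gv g ψ x a : ℝ) : ℂ) • C.c a) * C.eps
      = ((E1x.gv g ψ x a : ℝ) : ℂ) • (C.c a * C.eps) := smul_mul_assoc _ _ _
  have h2 : C.eps * (((E1x.gv g ψ x a : ℝ) : ℂ) • C.c a)
      = ((E1x.gv g ψ x a : ℝ) : ℂ) • (C.eps * C.c a) := mul_smul_comm _ _ _
  rw [h1, h2, C.c_mul_eps]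
  exact smul_neg _ _

omit [Countable G] in
theorem enorm_term (p : ℝ) {ι : Type*} (s : Finset ι) (q : ι → ℝ) :
    ‖p‖ₑ * ∏ j ∈ s, ‖q j‖ₑ = ENNReal.ofReal (|p| * ∏ j ∈ s, |q j|) := by
  rw [ENNReal.ofReal_mul (abs_nonneg _), ENNReal.ofReal_prod_of_nonneg fun i _ => abs_nonneg _]
  simp only [Real.enorm_eq_ofReal_abs]

end G5x

open G5x in
/-- The finiteness of the support of the expansion at every tuple. -/
theorem psi_finite {a : Act G (2 * m)} {F : Set (V (2 * m))} (hF : a.Fund F)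
    (hp : IsProper a) (h : n + k = 2 * m) (s : V (2 * m) → V k) (c : (Fin (n + 1) → G) → ℝ)
    {χ : V (2 * m) → ℝ} (hχ : IsPU a χ) (x : Fin (2 * m + 1) → V (2 * m)) :
    (Function.support fun α : Ind G m n => psi0 a χ c α (x 0) *
      ∏ j : Fin (2 * m), (psi a χ s h α j (x j.succ) - psi a χ s h α j (x j.castSucc))).Finite := by
  classical
  obtain ⟨R, -, hR⟩ := E1x.exists_radius_supp hχ.supp
  obtain ⟨N₀, hN₀⟩ := exists_count hF hp R n
  obtain ⟨S, -, hS⟩ := hN₀ x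
  refine ((S.finite_toSet).prod (Set.finite_univ (α := Equiv.Perm (Fin (2 * m))))).subset ?_
  intro α hα
  rw [Function.mem_support] at hα
  refine ⟨hS _ (near_of_ne hR s h x α ?_ ?_), mem_univ _⟩
  · intro h1
    apply hα
    unfold psi0
    rw [h1, mul_zero, zero_mul]
  · intro j h1
    apply hα
    rw [Finset.prod_eq_zero (Finset.mem_univ j) h1, mul_zero]

/-- `φ` is the sum of its expansion at every tuple. -/
theorem phi_hasSum {a : Act G (2 * m)} {F : Set (V (2 * m))} (hF : a.Fund F)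
    (hp : IsProper a) (h : n + k = 2 * m) (s : V (2 * m) → V k) (c : (Fin (n + 1) → G) → ℝ)
    {χ : V (2 * m) → ℝ} (hχ : IsPU a χ) (x : Fin (2 * m + 1) → V (2 * m)) :
    HasSum (fun α : Ind G m n => psi0 a χ c α (x 0) *
      ∏ j : Fin (2 * m), (psi a χ s h α j (x j.succ) - psi a χ s h α j (x j.castSucc)))
      (phi a χ s h c x) :=
  (summable_of_finite_support (psi_finite hF hp h s c hχ x)).hasSum

open G5x in
/-- The bound of the expansion, at every tuple. -/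
theorem exp_bdd {a : Act G (2 * m)} {F₀ : Set (V (2 * m))} (hF₀ : a.Fund F₀) (hp : IsProper a)
    (h : n + k = 2 * m) {s : V (2 * m) → V k} (hs : IsAdd a s) {ℓ ℓ' : G → ℝ} (hℓ : IsLen ℓ)
    (hℓ' : IsLen ℓ') (hle : ∀ γ, ℓ γ ≤ ℓ' γ)
    (ht : ∀ (γ : G) (t : Fin k → ℝ), (∀ y j, s (a.act γ y) j = s y j + t j) → ∀ j, |t j| ≤ ℓ' γ)
    {δ : ℝ} (hδ : 0 < δ) {c : (Fin (n + 1) → G) → ℝ} (hc : IsCoc ℓ δ c)
    {χ : V (2 * m) → ℝ} (hχ : IsPU a χ) :
    ∃ C : ℝ≥0, ∀ x : Fin (2 * m + 1) → V (2 * m),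
    ∑' α : Ind G m n, ‖psi0 a χ c α (x 0)‖ₑ * ∏ j : Fin (2 * m),
      ‖psi a χ s h α j (x j.succ) - psi a χ s h α j (x j.castSucc)‖ₑ ≤
      C * ∏ i, ENNReal.ofReal (tw hF₀ ℓ' (2 * δ) (x i) (x (i + 1))) := by
  obtain ⟨R, -, hR⟩ := E1x.exists_radius_supp hχ.supp
  obtain ⟨B, hB, hB'⟩ := psi_diff hF₀ hχ hs hℓ' ht h (n := n) hδ
  obtain ⟨K, hK⟩ := sum_bound hF₀ hp hℓ hℓ' hle hδ hc hχ (R := R)
    (E := fun x α j => |psi a χ s h α j (x j.succ) - psi a χ s h α j (x j.castSucc)|) hB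
    (fun _ _ _ => abs_nonneg _) (fun x α j => hB' α j _ _)
    (fun x α h0 hj => near_of_ne hR s h x α h0 fun j => abs_ne_zero.1 (hj j))
  refine ⟨K, fun x => ?_⟩
  simp only [enorm_term]
  exact hK x

open G5x in
/-- `φ` is bounded by the weight. -/
theorem phi_bdd {a : Act G (2 * m)} {F₀ : Set (V (2 * m))} (hF₀ : a.Fund F₀) (hp : IsProper a)
    (h : n + k = 2 * m) {s : V (2 * m) → V k} (hs : IsAdd a s) {ℓ ℓ' : G → ℝ} (hℓ : IsLen ℓ)
    (hℓ' : IsLen ℓ') (hle : ∀ γ, ℓ γ ≤ ℓ' γ)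
    (ht : ∀ (γ : G) (t : Fin k → ℝ), (∀ y j, s (a.act γ y) j = s y j + t j) → ∀ j, |t j| ≤ ℓ' γ)
    {δ : ℝ} (hδ : 0 < δ) {c : (Fin (n + 1) → G) → ℝ} (hc : IsCoc ℓ δ c)
    {χ : V (2 * m) → ℝ} (hχ : IsPU a χ) :
    ∃ C : ℝ, 0 ≤ C ∧ ∀ x : Fin (2 * m + 1) → V (2 * m),
    |phi a χ s h c x| ≤ C * ∏ i, tw hF₀ ℓ' (2 * δ) (x i) (x (i + 1)) := by
  obtain ⟨C, hC⟩ := exp_bdd hF₀ hp h hs hℓ hℓ' hle ht hδ hc hχ
  refine ⟨C, C.2, fun x => ?_⟩
  have hpos : ∀ i, 0 ≤ tw hF₀ ℓ' (2 * δ) (x i) (x (i + 1)) := fun i => (Real.exp_pos _).le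
  have hprod : (∏ i, ENNReal.ofReal (tw hF₀ ℓ' (2 * δ) (x i) (x (i + 1))))
      = ENNReal.ofReal (∏ i, tw hF₀ ℓ' (2 * δ) (x i) (x (i + 1))) := by
    rw [ENNReal.ofReal_prod_of_nonneg]
    exact fun i _ => hpos i
  have h1 : ENNReal.ofReal |phi a χ s h c x| ≤
      ENNReal.ofReal (C * ∏ i, tw hF₀ ℓ' (2 * δ) (x i) (x (i + 1))) := by
    rw [ENNReal.ofReal_mul (NNReal.coe_nonneg C), ← hprod, ENNReal.ofReal_coe_nnreal]
    refine le_trans ?_ (hC x)
    have h2 : phi a χ s h c x = ∑' α : Ind G m n, psi0 a χ c α (x 0) *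
      ∏ j : Fin (2 * m), (psi a χ s h α j (x j.succ) - psi a χ s h α j (x j.castSucc)) := rfl
    rw [← Real.enorm_eq_ofReal_abs, h2]
    refine (enorm_tsum_le_tsum_enorm).trans (le_of_eq ?_)
    refine tsum_congr fun α => ?_
    rw [enorm_term, Real.enorm_eq_ofReal_abs, abs_mul, Finset.abs_prod]
  have h3 : 0 ≤ (C : ℝ) * ∏ i, tw hF₀ ℓ' (2 * δ) (x i) (x (i + 1)) :=
    mul_nonneg C.2 (Finset.prod_nonneg fun i _ => hpos i)
  exact (ENNReal.ofReal_le_ofReal_iff h3).1 h1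

open G5x in
/-- The expansion of `φ`. -/
theorem isExp (C : Cliff m) (g : Geo (2 * m)) {a : Act G (2 * m)} (ha : a.Iso g)
    {F₀ : Set (V (2 * m))} (hF₀ : a.Fund F₀) (hp : IsProper a) (h : n + k = 2 * m)
    {s : V (2 * m) → V k} (hs : IsAdd a s) {ℓ ℓ' : G → ℝ} (hℓ : IsLen ℓ) (hℓ' : IsLen ℓ')
    (hle : ∀ γ, ℓ γ ≤ ℓ' γ)
    (ht : ∀ (γ : G) (t : Fin k → ℝ), (∀ y j, s (a.act γ y) j = s y j + t j) → ∀ j, |t j| ≤ ℓ' γ)
    {δ : ℝ} (hδ : 0 < δ) {c : (Fin (n + 1) → G) → ℝ} (hc : IsCoc ℓ δ c)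
    (F : Set (V (2 * m))) {χ : V (2 * m) → ℝ} (hχ : IsPU a χ) :
    IsExp F C.eps (tw hF₀ ℓ' (2 * δ)) (phi a χ s h c) (psi0 a χ c) (psi a χ s h)
      (fun α j => cd C g (psi a χ s h α j)) := by
  obtain ⟨R, -, hR⟩ := E1x.exists_radius_supp hχ.supp
  obtain ⟨K, hK, hK'⟩ := norm_cd_psi_le C g ha hF₀ hχ hs h (n := n)
  obtain ⟨D, hD⟩ := hχ.supp.exists_bound_of_continuous hχ.smooth.continuous
  have hD0 : 0 ≤ D := (norm_nonneg _).trans (hD 0)
  refine ⟨fun α => (continuous_psi0 hχ c α).measurable,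
    fun α j => (smooth_psi hχ hs h α j).continuous.measurable,
    fun α j => (E1x.continuous_cd C g (smooth_psi hχ hs h α j)).stronglyMeasurable,
    fun x _ => phi_hasSum hF₀ hp h s c hχ x, ?_, ?_, fun α j x => cd_odd C g _ x, fun α => ?_⟩
  · obtain ⟨C', hC'⟩ := exp_bdd hF₀ hp h hs hℓ hℓ' hle ht hδ hc hχ
    exact ⟨C', fun x _ => hC' x⟩
  · obtain ⟨K₁, hK₁⟩ := sum_bound hF₀ hp hℓ hℓ' hle hδ hc hχ (R := R)
      (E := fun x α j => ‖cd C g (psi a χ s h α j) (x j.succ)‖) hK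
      (fun _ _ _ => norm_nonneg _)
      (fun x α j => (hK' α j _).trans (le_mul_of_one_le_right hK
        (Real.one_le_exp (mul_nonneg hδ.le (hℓ'.nonneg _)))))
      (fun x α h0 hj => near_of_cd_ne C g hR s h x α h0 fun j => norm_ne_zero_iff.1 (hj j))
    refine ⟨K₁, fun x _ => ?_⟩
    refine le_trans (le_of_eq ?_) (hK₁ x)
    refine tsum_congr fun α => ?_
    rw [ENNReal.ofReal_mul (abs_nonneg _), ENNReal.ofReal_prod_of_nonneg fun i _ => norm_nonneg _,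
      Real.enorm_eq_ofReal_abs]
    simp only [ofReal_norm]
  · refine ⟨|c α.1| * D + K, fun x _ => ?_, fun j x => ?_⟩
    · have e1 : |((Equiv.Perm.sign α.2 : ℤ) : ℝ)| = 1 := by
        rcases Int.units_eq_one_or (Equiv.Perm.sign α.2) with e | e <;> rw [e] <;> simp
      have e2 : |ch a χ (α.1 0) x| ≤ D := hD _
      have e3 : |psi0 a χ c α x| ≤ |c α.1| * D := by
        unfold psi0
        rw [abs_mul, abs_mul, e1, one_mul]
        exact mul_le_mul_of_nonneg_left e2 (abs_nonneg _)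
      linarith
    · have e1 := hK' α j x
      have e2 : 0 ≤ |c α.1| * D := mul_nonneg (abs_nonneg _) hD0
      linarith

open G5x in
/-- `φ` is continuous. -/
theorem continuous_phi {a : Act G (2 * m)} (hp : IsProper a) (h : n + k = 2 * m)
    {s : V (2 * m) → V k} (hs : IsAdd a s) (c : (Fin (n + 1) → G) → ℝ)
    {χ : V (2 * m) → ℝ} (hχ : IsPU a χ) : Continuous (phi a χ s h c) := by
  classical
  rw [continuous_iff_continuousAt]
  intro x
  obtain ⟨R, -, hR⟩ := E1x.exists_radius_supp hχ.supp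
  have hT := E1x.finite_inv hp (‖x‖ + 1) R
  have hfin := (G3x.finite_pi (ι := Fin (n + 1)) hT).prod
    (Set.finite_univ (α := Equiv.Perm (Fin (2 * m))))
  have hev : phi a χ s h c =ᶠ[𝓝 x] fun x => ∑ α ∈ hfin.toFinset, psi0 a χ c α (x 0) *
      ∏ j : Fin (2 * m), (psi a χ s h α j (x j.succ) - psi a χ s h α j (x j.castSucc)) := by
    filter_upwards [Metric.ball_mem_nhds x one_pos] with y hy
    refine tsum_eq_sum fun α hα => ?_
    by_contra h1
    apply hα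
    rw [Finite.mem_toFinset]
    have hy' : ∀ p, ‖y p‖ ≤ ‖x‖ + 1 := by
      intro p
      rw [Metric.mem_ball, dist_eq_norm] at hy
      have e1 : ‖y‖ ≤ ‖x‖ + 1 := by
        calc ‖y‖ = ‖x + (y - x)‖ := by rw [add_sub_cancel]
          _ ≤ ‖x‖ + ‖y - x‖ := norm_add_le _ _
          _ ≤ ‖x‖ + 1 := by linarith
      exact (norm_le_pi_norm y p).trans e1
    refine ⟨fun i => ?_, mem_univ _⟩
    have hn : Near a R y α.1 := by
      refine near_of_ne hR s h y α ?_ ?_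
      · intro h2
        apply h1
        unfold psi0
        rw [h2, mul_zero, zero_mul]
      · intro j h2
        apply h1
        rw [Finset.prod_eq_zero (Finset.mem_univ j) h2, mul_zero]
    obtain ⟨p, hp'⟩ := hn i
    exact ⟨y p, hy' p, hp'⟩
  refine ContinuousAt.congr ?_ hev.symm
  refine Continuous.continuousAt ?_
  refine continuous_finsetSum _ fun α _ => ?_
  refine ((continuous_psi0 hχ c α).comp (continuous_apply 0)).mul ?_
  refine continuous_finsetProd _ fun j _ => ?_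
  exact (((smooth_psi hχ hs h α j).continuous).comp (continuous_apply j.succ)).sub
    (((smooth_psi hχ hs h α j).continuous).comp (continuous_apply j.castSucc))

end Pool.Agent.Lib.MP_df705a_gt.SV
end
end

section

/-!
# SV, L4b1: spin lifts and unitaries
-/

open scoped ContDiff InnerProductSpace Matrix ENNReal NNReal Topology Real
open MeasureTheory Filter Set

noncomputable section

set_option linter.unusedSectionVars false

namespace Pool.Agent.Lib.MP_df705a_gt.SV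

open Pool.Agent.Lib.MP_df705a_gt.RL

variable {G : Type*} [Group G] [Countable G] {m : ℕ} {C : Cliff m} {g : Geo (2 * m)}
  {a : Act G (2 * m)} {F : Set (V (2 * m))}

/-- PROOF. `exists_smooth_lift (isRot_rotOf (isIsom_act ha γ))` as in `exists_unitary` (RL/UW.lean). -/
theorem exists_liftsL (C : Cliff m) (g : Geo (2 * m)) (a : Act G (2 * m)) (ha : a.Iso g) :
    ∃ U : G → V (2 * m) → En m, Lifts C g a U := by
  have h : ∀ γ : G, ∃ U : V (2 * m) → En m, ContDiff ℝ ∞ U ∧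
      ∀ y, LiftA C.c (rotOf g (a.act γ) y) (U y) := fun γ =>
    C.exists_smooth_lift (isRot_rotOf (isIsom_act ha γ))
  choose U hU hL using h
  refine ⟨U, fun γ => ⟨isIsom_act ha γ, isIsom_act ha γ⁻¹, fun y => ?_, fun y => ?_, hU γ, hL γ,
    contDiff_const⟩⟩
  · rw [← a.mul, mul_inv_cancel, a.one]
  · rw [← a.mul, inv_mul_cancel, a.one]

theorem fibU_zero (U : V (2 * m) → En m) (y : V (2 * m)) : fibU U (fun _ => 0) y = U y := by
  unfold fibU
  rw [Complex.ofReal_zero, mul_zero, Complex.exp_zero]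
  exact one_smul ℂ (U y)

/-- PROOF. `IsoData.adj_mul_self`, `mul_adj_self`, `fibU_zero`; `LiftA.eps`. -/
theorem Lifts.isLift {U : G → V (2 * m) → En m} (hU : Lifts C g a U) :
    IsLift U (fun γ x => adj (U γ x)) C.eps :=
  ⟨fun γ x => ((hU γ).lift x).isom', fun γ x => ((hU γ).lift x).isom,
    fun γ x => ((hU γ).lift x).eps.symm⟩

theorem Lifts.norm_le {U : G → V (2 * m) → En m} (hU : Lifts C g a U) (γ : G) (x : V (2 * m)) :
    ‖U γ x‖ ≤ 1 ∧ ‖adj (U γ x)‖ ≤ 1 := by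
  have h1 : ‖U γ x‖ ≤ 1 := by
    refine ContinuousLinearMap.opNorm_le_bound _ zero_le_one fun v => ?_
    have h2 := (hU γ).norm_fibU x v
    rw [fibU_zero] at h2
    rw [h2, one_mul]
  exact ⟨h1, (LinearIsometryEquiv.norm_map ContinuousLinearMap.adjoint (U γ x)).le.trans h1⟩

theorem Lifts.W_coe {U : G → V (2 * m) → En m} (hU : Lifts C g a U) (γ : G) (u : g.L2) :
    hU.W γ u =ᵐ[g.vol] fun z => U γ (a.act γ⁻¹ z) (u (a.act γ⁻¹ z)) := by
  have h1 := (hU γ).W_coe u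
  simp only [fibU_zero] at h1
  exact h1

/-- PROOF. As in `exists_unitary` (RL/UW.lean) for `B = B' = 0`, `f = 0` (`pull1 Φ 0 = 0`). -/
theorem Lifts.W_Gr {U : G → V (2 * m) → En m} (hU : Lifts C g a U) (γ : G) (p q : g.L2) :
    (p, q) ∈ C.Gr g 0 ↔ (hU.W γ p, hU.W γ q) ∈ C.Gr g 0 := by
  have hD : IsoData C g (a.act γ) (a.act γ⁻¹) (U γ) fun _ => 0 := hU γ
  have hB : IsPot (0 : Pot (2 * m)) := fun _ => contDiff_const
  have hBf : ∀ μ y, (0 : Pot (2 * m)) μ y =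
      pull1 (a.act γ) (0 : Pot (2 * m)) μ y + pd μ (fun _ : V (2 * m) => (0 : ℝ)) y := by
    intro μ y
    unfold pull1 pd
    simp
  have hmem : ∀ φ : V (2 * m) → Sp m, IsTF φ →
      (hD.W (g.emb φ), hD.W (g.emb (C.dirac g 0 φ)))
        = (g.emb (hD.Wtf φ), g.emb (C.dirac g 0 (hD.Wtf φ))) := by
    intro φ hφ
    rw [hD.W_emb hφ, hD.W_emb (isTF_dirac C g hB hφ), hD.dirac_Wtf hBf hφ.1]
  change (p, q) ∈ C.Gr g 0 ↔ (hD.W p, hD.W q) ∈ C.Gr g 0
  constructor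
  · intro hpq
    obtain ⟨φ, hφ, hφ'⟩ := (mem_Gr C g hB (p, q)).mp hpq
    rw [mem_Gr C g hB]
    refine ⟨hD.Wtf φ, hD.isTF_Wtf hφ, ?_⟩
    rw [← hmem φ hφ]
    rw [Prod.mk.injEq] at hφ'
    rw [hφ'.1, hφ'.2]
  · intro hpq
    obtain ⟨ψ, hψ, hψ'⟩ := (mem_Gr C g hB _).mp hpq
    set φ : V (2 * m) → Sp m := fun y => adj (fibU (U γ) (fun _ => 0) y) (ψ (a.act γ y)) with hφ
    have h1 : IsTF fun y => ψ (a.act γ y) :=
      hD.isTF_comp hψ hD.iso.smooth hD.iso'.smooth.continuous hD.inv'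
    have h2 : ContDiff ℝ ∞ fun y => adj (fibU (U γ) (fun _ => 0) y) :=
      contDiff_star' (A := En m) hD.contDiff_fibU
    have h3 : IsTF φ := h1.mulA h2
    have h4 : hD.Wtf φ = ψ := by
      funext z
      unfold IsoData.Wtf
      simp only [hφ, hD.inv z]
      exact congrArg (fun T : En m => T (ψ z)) (hD.mul_adj_self (a.act γ⁻¹ z))
    have h5 := hmem φ h3
    rw [h4] at h5
    rw [← hψ', Prod.mk.injEq] at h5
    have e1 : g.emb φ = p := hD.W.injective h5.1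
    have e2 : g.emb (C.dirac g 0 φ) = q := hD.W.injective h5.2
    rw [mem_Gr C g hB]
    exact ⟨φ, h3, by rw [e1, e2]⟩

/-- PROOF. `Rop_Bop_equiv` (RL/D1.lean), `IsoData.W_Eps`, `W_Gr`, `mem_GrT` (L0). -/
theorem Lifts.W_Rop {U : G → V (2 * m) → En m} (hU : Lifts C g a U) (γ : G) (κ t : ℝ)
    (u : g.L2) : hU.W γ (Rop (C.Eps g κ) (GrT t (C.Gr g 0)) u)
        = Rop (C.Eps g κ) (GrT t (C.Gr g 0)) (hU.W γ u) ∧
      hU.W γ (Bop (C.Eps g κ) (GrT t (C.Gr g 0)) u)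
        = Bop (C.Eps g κ) (GrT t (C.Gr g 0)) (hU.W γ u) := by
  refine Rop_Bop_equiv (hU.W γ) (fun v => (hU γ).W_Eps κ v) (fun p q => ?_) u
  constructor
  · intro h
    obtain ⟨w, hw, hw'⟩ := mem_GrT.1 h
    rw [Prod.mk.injEq] at hw'
    refine mem_GrT.2 ⟨(hU.W γ w.1, hU.W γ w.2), (hU.W_Gr γ w.1 w.2).1 hw, ?_⟩
    rw [hw'.1, hw'.2, map_smul]
  · intro h
    obtain ⟨w, hw, hw'⟩ := mem_GrT.1 h
    rw [Prod.mk.injEq] at hw'
    have h1 : (hU.W γ).symm w.1 = p := by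
      rw [← hw'.1, LinearIsometryEquiv.symm_apply_apply]
    have h2 : (t : ℂ) • (hU.W γ).symm w.2 = q := by
      rw [← map_smul, ← hw'.2, LinearIsometryEquiv.symm_apply_apply]
    refine mem_GrT.2 ⟨((hU.W γ).symm w.1, (hU.W γ).symm w.2), ?_, ?_⟩
    · refine (hU.W_Gr γ _ _).2 ?_
      rw [LinearIsometryEquiv.apply_symm_apply, LinearIsometryEquiv.apply_symm_apply]
      exact hw
    · rw [h1, h2]

end Pool.Agent.Lib.MP_df705a_gt.SV
end
end

section

/-!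
# SV, L4b2: from the fundamental set to the whole space
-/

open scoped ContDiff InnerProductSpace Matrix ENNReal NNReal Topology Real
open MeasureTheory Filter Set

noncomputable section

set_option linter.unusedSectionVars false

namespace Pool.Agent.Lib.MP_df705a_gt.SV

open Pool.Agent.Lib.MP_df705a_gt.RL

variable {G : Type*} [Group G] [Countable G] {m : ℕ} {C : Cliff m} {g : Geo (2 * m)}
  {a : Act G (2 * m)} {F : Set (V (2 * m))}

private theorem L4b2_coe {U : G → V (2 * m) → En m} (hU : Lifts C g a U) (γ : G) (v : g.L2) :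
    ∀ᵐ y ∂g.vol, (hU.W γ v : g.L2) (a.act γ y) = U γ y (v y) := by
  have h1 := (hU γ).mp.quasiMeasurePreserving.ae (hU.W_coe γ v)
  filter_upwards [h1] with y hy
  rw [hy, (hU γ).inv' y]

private theorem L4b2_emb {U : G → V (2 * m) → En m} (hU : Lifts C g a U) (γ : G) :
    MeasurableEmbedding (a.act γ) := by
  let e : V (2 * m) ≃ᵐ V (2 * m) :=
    { toFun := a.act γ
      invFun := a.act γ⁻¹
      left_inv := (hU γ).inv'
      right_inv := (hU γ).inv
      measurable_toFun := (hU γ).iso.smooth.continuous.measurable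
      measurable_invFun := (hU γ).iso'.smooth.continuous.measurable }
  exact e.measurableEmbedding

private theorem L4b2_int (hF : a.Fund F) {U : G → V (2 * m) → En m} (hU : Lifts C g a U) (γ : G)
    (v : g.L2) (k : V (2 * m) → V (2 * m) → En m) {z : V (2 * m)} (hz : tl hF z = γ) :
    adj (U γ z) (∫ y, k (a.act γ z) y ((hU.W γ v : g.L2) y) ∂g.vol)
      = ∫ y, ext hF U k z y (v y) ∂g.vol := by
  have e1 : ∫ y, k (a.act γ z) y ((hU.W γ v : g.L2) y) ∂g.vol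
      = ∫ y, k (a.act γ z) (a.act γ y) (U γ y (v y)) ∂g.vol := by
    rw [← (hU γ).mp.integral_comp (L4b2_emb hU γ)
      (fun y => k (a.act γ z) y ((hU.W γ v : g.L2) y))]
    refine integral_congr_ae ?_
    filter_upwards [L4b2_coe hU γ v] with y hy
    simp only [hy]
  rw [e1]
  have i1 : adj (U γ z) * U γ z = 1 := hU.isLift.mul' γ z
  have i2 : U γ z * adj (U γ z) = 1 := hU.isLift.mul γ z
  let L : Sp m ≃L[ℂ] Sp m := ContinuousLinearEquiv.equivOfInverse (adj (U γ z)) (U γ z)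
    (fun x => congrArg (fun T : En m => T x) i2) (fun x => congrArg (fun T : En m => T x) i1)
  have e2 := L.integral_comp_comm (μ := g.vol)
    (fun y => k (a.act γ z) (a.act γ y) (U γ y (v y)))
  refine Eq.trans e2.symm ?_
  refine integral_congr_ae (Eventually.of_forall fun y => ?_)
  unfold ext
  rw [hz]
  rfl

/-- From the identity on `F` to the identity everywhere.
PROOF. For `z ∈ γ⁻¹ F` (countably many `γ`) apply `h` to `W_γ ψ` at the point `γ z ∈ F`: `A (W_γ ψ) = W_γ (A ψ)`,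
`(W_γ v)(γ z) = U_γ(z) v(z)` (`W_coe` and quasi measure preserving); substitute `y = γ y'` in the integrals
(`IsoData.mp`, measurable embedding), multiply by `adj (U_γ(z))` (`integral` commutes with the continuous linear map; if the
integral is not defined both sides are zero since `U_γ(z)` is invertible: `ContinuousLinearEquiv.integral_comp_comm` or
`LinearIsometryEquiv`). -/
theorem ext_identity (hF : a.Fund F) (ha : a.Iso g) {U : G → V (2 * m) → En m}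
    (hU : Lifts C g a U) {A : g.L2 →L[ℂ] g.L2} (hA : ∀ γ u, hU.W γ (A u) = A (hU.W γ u))
    {e k : V (2 * m) → V (2 * m) → En m} (h : ∀ ψ : g.L2, ∀ᵐ z ∂(g.vol.restrict F),
      (A ψ : g.L2) z + ∫ y, e z y ((A ψ : g.L2) y) ∂g.vol = ∫ y, k z y (ψ y) ∂g.vol) (ψ : g.L2) :
    ∀ᵐ z ∂g.vol, (A ψ : g.L2) z + ∫ y, ext hF U e z y ((A ψ : g.L2) y) ∂g.vol
      = ∫ y, ext hF U k z y (ψ y) ∂g.vol := by
  have key : ∀ γ : G, ∀ᵐ z ∂g.vol, a.act γ z ∈ F → tl hF z = γ →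
      (A ψ : g.L2) z + ∫ y, ext hF U e z y ((A ψ : g.L2) y) ∂g.vol
        = ∫ y, ext hF U k z y (ψ y) ∂g.vol := by
    intro γ
    have h1 := (ae_restrict_iff' hF.meas).1 (h (hU.W γ ψ))
    have h2 := (hU γ).mp.quasiMeasurePreserving.ae h1
    filter_upwards [h2, L4b2_coe hU γ (A ψ)] with z hz hz2 hzF htl
    have h3 := hz hzF
    rw [← hA γ ψ] at h3
    have h4 := congrArg (fun x => adj (U γ z) x) h3
    simp only [map_add] at h4
    rw [L4b2_int hF hU γ ψ k htl, L4b2_int hF hU γ (A ψ) e htl, hz2] at h4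
    rw [← h4]
    congr 1
    exact (congrArg (fun T : En m => T ((A ψ : g.L2) z)) (hU.isLift.mul' γ z)).symm
  filter_upwards [ae_all_iff.2 key] with z hz
  exact hz (tl hF z) (tl_mem hF z) rfl

end Pool.Agent.Lib.MP_df705a_gt.SV
end
end
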