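import Pool.Agent.Lib.MP_df705a_gt.Mg.G077
import Pool.Agent.Lib.MP_df705a_gt.Mg.G047
import Pool.Agent.Lib.MP_df705a_gt.Mg.G082
import Pool.Agent.Lib.MP_df705a_gt.Mg.G081
import Pool.Agent.Lib.MP_df705a_gt.Mg.G072
import Pool.Agent.Lib.MP_df705a_gt.Mg.G087

section

/-!
# SV, L3a: integration by parts in time
-/

open scoped ContDiff InnerProductSpace Matrix ENNReal NNReal Topology Real
open MeasureTheory Filter Set

noncomputable section

set_option linter.unusedSectionVars false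

namespace Pool.Agent.Lib.MP_df705a_gt.SV

open Pool.Agent.Lib.MP_df705a_gt.RL

theorem continuous_hE (t : ℝ) : Continuous (hE t) := by
  unfold hE
  fun_prop

theorem hasDerivAt_hE {t : ℝ} (r : ℝ) : HasDerivAt (hE t) (-((t ^ 2)⁻¹ * hE t r)) r := by
  unfold hE
  have h1 : HasDerivAt (fun r : ℝ => -(r / t ^ 2)) (-(1 / t ^ 2)) r :=
    ((hasDerivAt_id r).div_const (t ^ 2)).neg
  have h2 := h1.exp
  convert h2 using 1
  rw [one_div]
  ring

variable {H : Type*} [NormedAddCommGroup H] [InnerProductSpace ℂ H] [CompleteSpace H]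

/-- integration by parts in time -/
theorem time_identity {A : H →L[ℂ] H} {q q' e f : ℝ → H} {t δ s : ℝ} (ht : 0 < t)
    (hδ : 0 < δ) (hδ1 : δ ≤ 1) (hq : ∀ r, 0 < r → HasDerivAt q (q' r) r)
    (hq' : ContinuousOn q' (Ioi 0)) (he : ContinuousOn e (Ioi 0))
    (h : ∀ r, 0 < r → A (q r + ((t ^ 2 : ℝ) : ℂ) • (e r - q' r)) = (s : ℂ) • f r) :
    A (((hE t δ : ℝ) : ℂ) • q δ - ((hE t 1 : ℝ) : ℂ) • q 1
        + ∫ r in δ..1, ((hE t r : ℝ) : ℂ) • e r) =
      ∫ r in δ..1, (((t ^ 2)⁻¹ * hE t r * s : ℝ) : ℂ) • f r := by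
  have hsub : Set.uIcc δ 1 ⊆ Ioi 0 := by
    rw [Set.uIcc_of_le hδ1]
    exact fun r hr => lt_of_lt_of_le hδ hr.1
  have hqc : ContinuousOn q (Ioi 0) := fun r hr => (hq r hr).continuousAt.continuousWithinAt
  have hc : Continuous fun r => ((hE t r : ℝ) : ℂ) := Complex.continuous_ofReal.comp (continuous_hE t)
  -- the derivative of the product
  have hd : ∀ r, 0 < r → HasDerivAt (fun r => ((hE t r : ℝ) : ℂ) • q r)
      (((hE t r : ℝ) : ℂ) • q' r + ((-((t ^ 2)⁻¹ * hE t r) : ℝ) : ℂ) • q r) r := by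
    intro r hr
    have h1 : HasDerivAt (fun r => ((hE t r : ℝ) : ℂ)) ((-((t ^ 2)⁻¹ * hE t r) : ℝ) : ℂ) r :=
      (hasDerivAt_hE r).ofReal_comp
    exact h1.smul (hq r hr)
  have i1 : IntervalIntegrable (fun r => ((hE t r : ℝ) : ℂ) • e r) volume δ 1 :=
    (hc.continuousOn.smul (he.mono hsub)).intervalIntegrable
  have c2 : ContinuousOn (fun r => ((hE t r : ℝ) : ℂ) • q' r
      + ((-((t ^ 2)⁻¹ * hE t r) : ℝ) : ℂ) • q r) (Set.uIcc δ 1) := by
    refine (hc.continuousOn.smul (hq'.mono hsub)).add (ContinuousOn.smul ?_ (hqc.mono hsub))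
    exact (Complex.continuous_ofReal.comp (continuous_const.mul (continuous_hE t)).neg).continuousOn
  have i2 := c2.intervalIntegrable (μ := volume)
  have hftc : ∫ r in δ..1, (((hE t r : ℝ) : ℂ) • q' r
      + ((-((t ^ 2)⁻¹ * hE t r) : ℝ) : ℂ) • q r) =
      ((hE t 1 : ℝ) : ℂ) • q 1 - ((hE t δ : ℝ) : ℂ) • q δ :=
    intervalIntegral.integral_eq_sub_of_hasDerivAt (fun r hr => hd r (hsub hr)) i2
  have e1 : ((hE t δ : ℝ) : ℂ) • q δ - ((hE t 1 : ℝ) : ℂ) • q 1
        + ∫ r in δ..1, ((hE t r : ℝ) : ℂ) • e r =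
      ∫ r in δ..1, (((t ^ 2)⁻¹ * hE t r : ℝ) : ℂ) • (q r + ((t ^ 2 : ℝ) : ℂ) • (e r - q' r)) := by
    have h2 : ∫ r in δ..1, (((hE t r : ℝ) : ℂ) • e r - (((hE t r : ℝ) : ℂ) • q' r
        + ((-((t ^ 2)⁻¹ * hE t r) : ℝ) : ℂ) • q r)) =
        ∫ r in δ..1, (((t ^ 2)⁻¹ * hE t r : ℝ) : ℂ) •
          (q r + ((t ^ 2 : ℝ) : ℂ) • (e r - q' r)) := by
      refine intervalIntegral.integral_congr fun r _ => ?_
      have ht2 : t ^ 2 ≠ 0 := by positivity
      have e2 : (((t ^ 2)⁻¹ * hE t r : ℝ) : ℂ) * ((t ^ 2 : ℝ) : ℂ) = ((hE t r : ℝ) : ℂ) := by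
        rw [← Complex.ofReal_mul]
        congr 1
        field_simp
      show ((hE t r : ℝ) : ℂ) • e r - (((hE t r : ℝ) : ℂ) • q' r
        + ((-((t ^ 2)⁻¹ * hE t r) : ℝ) : ℂ) • q r) = _
      rw [smul_add, smul_smul, e2, smul_sub, Complex.ofReal_neg, neg_smul]
      abel
    rw [← h2, intervalIntegral.integral_sub i1 i2, hftc]
    abel
  rw [e1, ← ContinuousLinearMap.intervalIntegral_comp_comm]
  · refine intervalIntegral.integral_congr fun r hr => ?_
    show A _ = _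
    rw [map_smul, h r (hsub hr), smul_smul, ← Complex.ofReal_mul]
  · refine ContinuousOn.intervalIntegrable (ContinuousOn.smul ?_ ?_)
    · exact (Complex.continuous_ofReal.comp (continuous_const.mul (continuous_hE t))).continuousOn
    · exact (hqc.mono hsub).add (((he.mono hsub).sub (hq'.mono hsub)).const_smul _)

end Pool.Agent.Lib.MP_df705a_gt.SV
end
end

section

/-!
# SV, L3b: Fubini for the local kernels
-/

open scoped ContDiff InnerProductSpace Matrix ENNReal NNReal Topology Real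
open MeasureTheory Filter Set

noncomputable section

set_option linter.unusedSectionVars false

namespace Pool.Agent.Lib.MP_df705a_gt.SV

open Pool.Agent.Lib.MP_df705a_gt.RL

variable {m : ℕ}

/-- Fubini for the kernel `kk h f`. -/
theorem int_kk (g : Geo (2 * m)) {h : ℝ → ℝ} (hh : Continuous h) (h0 : ∀ r, 0 ≤ h r)
    {f : ℝ → V (2 * m) → V (2 * m) → En m}
    (hf : ContinuousOn (fun p : ℝ × V (2 * m) × V (2 * m) => f p.1 p.2.1 p.2.2) {p | 0 < p.1})
    {φ : V (2 * m) → Sp m} (hφ : AEStronglyMeasurable φ g.vol) {z : V (2 * m)}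
    (hfin : ∫⁻ y, mk h f z y * ‖φ y‖ₑ ∂g.vol ≠ ⊤) (u : Sp m) :
    Integrable (fun y => kk h f z y (φ y)) g.vol ∧
    IntegrableOn (fun r => (h r : ℂ) * ∫ y, ⟪f r z y u, φ y⟫_ℂ ∂g.vol) (Ioc 0 1) ∧
    ∫ r in Ioc (0 : ℝ) 1, (h r : ℂ) * ∫ y, ⟪f r z y u, φ y⟫_ℂ ∂g.vol =
      ⟪u, ∫ y, kk h f z y (φ y) ∂g.vol⟫_ℂ := by
  -- the joint integrability
  set ν : Measure ℝ := volume.restrict (Ioc (0 : ℝ) 1) with hν
  have hfz : ContinuousOn (fun p : ℝ × V (2 * m) => f p.1 z p.2) {p | 0 < p.1} := by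
    refine hf.comp (f := fun p : ℝ × V (2 * m) => ((p.1, z, p.2) : ℝ × V (2 * m) × V (2 * m)))
      (by fun_prop) ?_
    intro p hp
    exact hp
  have hmS : MeasurableSet {p : ℝ × V (2 * m) | 0 < p.1} :=
    measurableSet_lt measurable_const measurable_fst
  have hrestr : (ν.prod g.vol).restrict {p : ℝ × V (2 * m) | 0 < p.1} = ν.prod g.vol := by
    rw [Measure.restrict_eq_self_of_ae_mem]
    have h1 : ∀ᵐ r ∂ν, 0 < r := by
      rw [hν]
      filter_upwards [ae_restrict_mem measurableSet_Ioc] with r hr using hr.1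
    exact Measure.quasiMeasurePreserving_fst.ae h1
  have hm1 : AEStronglyMeasurable (fun p : ℝ × V (2 * m) => f p.1 z p.2) (ν.prod g.vol) := by
    rw [← hrestr]
    exact hfz.aestronglyMeasurable hmS
  have hm2 : AEStronglyMeasurable (fun p : ℝ × V (2 * m) => φ p.2) (ν.prod g.vol) :=
    hφ.comp_snd
  have hm3 : AEStronglyMeasurable (fun p : ℝ × V (2 * m) => f p.1 z p.2 u) (ν.prod g.vol) :=
    (ContinuousLinearMap.apply ℂ (Sp m) u).continuous.comp_aestronglyMeasurable hm1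
  have hm4 : AEStronglyMeasurable (fun p : ℝ × V (2 * m) => (h p.1 : ℂ) * ⟪f p.1 z p.2 u, φ p.2⟫_ℂ)
      (ν.prod g.vol) := by
    refine AEStronglyMeasurable.mul ?_ (hm3.inner hm2)
    exact (Complex.continuous_ofReal.comp (hh.comp continuous_fst)).aestronglyMeasurable
  have hmk : ∀ y, mk h f z y = ∫⁻ r, ENNReal.ofReal (h r) * ‖f r z y‖ₑ ∂ν := fun y => rfl
  have hm5 : AEMeasurable (fun p : V (2 * m) × ℝ => ENNReal.ofReal (h p.2) * ‖f p.2 z p.1‖ₑ)
      (g.vol.prod ν) := by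
    have h1 : AEMeasurable (fun p : ℝ × V (2 * m) => ENNReal.ofReal (h p.1) * ‖f p.1 z p.2‖ₑ)
        (ν.prod g.vol) :=
      ((hh.comp continuous_fst).measurable.ennreal_ofReal.aemeasurable).mul hm1.enorm
    exact h1.comp_quasiMeasurePreserving
      (Measure.measurePreserving_swap (μ := g.vol) (ν := ν)).quasiMeasurePreserving
  have hint : Integrable (fun p : ℝ × V (2 * m) => (h p.1 : ℂ) * ⟪f p.1 z p.2 u, φ p.2⟫_ℂ)
      (ν.prod g.vol) := by
    refine ⟨hm4, ?_⟩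
    rw [hasFiniteIntegral_iff_enorm, lintegral_prod_symm _ hm4.enorm]
    have h1 : ∀ r y, ‖(h r : ℂ) * ⟪f r z y u, φ y⟫_ℂ‖ₑ ≤
        (ENNReal.ofReal (h r) * ‖f r z y‖ₑ) * (‖u‖ₑ * ‖φ y‖ₑ) := by
      intro r y
      rw [enorm_mul]
      have e1 : ‖((h r : ℝ) : ℂ)‖ₑ = ENNReal.ofReal (h r) := by
        rw [← ofReal_norm, Complex.norm_real, Real.norm_of_nonneg (h0 r)]
      have e2 : ‖⟪f r z y u, φ y⟫_ℂ‖ₑ ≤ ‖f r z y‖ₑ * ‖u‖ₑ * ‖φ y‖ₑ := by
        rw [← ofReal_norm, ← ofReal_norm, ← ofReal_norm, ← ofReal_norm,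
          ← ENNReal.ofReal_mul (norm_nonneg _), ← ENNReal.ofReal_mul (by positivity)]
        refine ENNReal.ofReal_le_ofReal ((norm_inner_le_norm _ _).trans ?_)
        exact mul_le_mul_of_nonneg_right ((f r z y).le_opNorm u) (norm_nonneg _)
      rw [e1]
      calc ENNReal.ofReal (h r) * ‖⟪f r z y u, φ y⟫_ℂ‖ₑ
          ≤ ENNReal.ofReal (h r) * (‖f r z y‖ₑ * ‖u‖ₑ * ‖φ y‖ₑ) := by gcongr
        _ = _ := by ring
    have hm6 : AEMeasurable (fun p : ℝ × V (2 * m) => ENNReal.ofReal (h p.1) * ‖f p.1 z p.2‖ₑ)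
        (ν.prod g.vol) :=
      ((hh.comp continuous_fst).measurable.ennreal_ofReal.aemeasurable).mul hm1.enorm
    calc ∫⁻ y, ∫⁻ r, ‖(h r : ℂ) * ⟪f r z y u, φ y⟫_ℂ‖ₑ ∂ν ∂g.vol
        ≤ ∫⁻ y, ∫⁻ r, (ENNReal.ofReal (h r) * ‖f r z y‖ₑ) * (‖u‖ₑ * ‖φ y‖ₑ) ∂ν ∂g.vol := by
          gcongr with y r
          exact h1 r y
      _ = ∫⁻ y, ‖u‖ₑ * (mk h f z y * ‖φ y‖ₑ) ∂g.vol := by
          refine lintegral_congr fun y => ?_
          rw [lintegral_mul_const' _ _ (by finiteness), ← hmk]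
          ring
      _ = ‖u‖ₑ * ∫⁻ y, mk h f z y * ‖φ y‖ₑ ∂g.vol := lintegral_const_mul' _ _ (by finiteness)
      _ < ⊤ := ENNReal.mul_lt_top (by finiteness) hfin.lt_top
  have hzy : Measurable fun y : V (2 * m) => ((z, y) : V (2 * m) × V (2 * m)) :=
    measurable_prodMk_left
  have hkm : StronglyMeasurable fun y => kk h f z y := by
    have h1 := (stronglyMeasurable_kk hh hf).comp_measurable hzy
    exact h1
  have hle : ∀ y, ‖kk h f z y (φ y)‖ₑ ≤ mk h f z y * ‖φ y‖ₑ := fun y =>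
    (ContinuousLinearMap.le_opENorm _ _).trans (by gcongr; exact enorm_kk_le h0 f z y)
  have hi1 : Integrable (fun y => kk h f z y (φ y)) g.vol := by
    refine ⟨?_, ?_⟩
    · have h1 := hkm.aestronglyMeasurable.prodMk hφ
      exact (isBoundedBilinearMap_apply.continuous).comp_aestronglyMeasurable h1
    · rw [hasFiniteIntegral_iff_enorm]
      exact lt_of_le_of_lt (lintegral_mono hle) hfin.lt_top
  refine ⟨hi1, ?_, ?_⟩
  · have h1 := hint.integral_prod_left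
    refine h1.congr (Eventually.of_forall fun r => ?_)
    exact integral_const_mul (h r : ℂ) _
  · have e1 : ∫ r in Ioc (0 : ℝ) 1, (h r : ℂ) * ∫ y, ⟪f r z y u, φ y⟫_ℂ ∂g.vol =
        ∫ r, ∫ y, (h r : ℂ) * ⟪f r z y u, φ y⟫_ℂ ∂g.vol ∂ν := by
      refine integral_congr_ae (Eventually.of_forall fun r => ?_)
      exact (integral_const_mul (h r : ℂ) _).symm
    rw [e1, integral_integral_swap hint, ← integral_inner (𝕜 := ℂ) hi1 u]
    refine integral_congr_ae ?_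
    have h2 : ∀ᵐ y ∂g.vol, mk h f z y * ‖φ y‖ₑ < ⊤ := by
      refine ae_lt_top' ?_ hfin
      have h3 := ((measurable_mk hh hf).comp hzy).aemeasurable (μ := g.vol)
      exact h3.mul hφ.enorm
    filter_upwards [h2] with y hy
    by_cases hy0 : φ y = 0
    · simp [hy0]
    · have h3 : mk h f z y ≠ ⊤ := by
        intro h4
        rw [h4, ENNReal.top_mul (by simpa using hy0)] at hy
        exact lt_irrefl _ hy
      exact (inner_kk hh h0 hf h3 u (φ y)).symm

end Pool.Agent.Lib.MP_df705a_gt.SV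
end
end

section

/-!
# SV, L3d: the local identity
-/

open scoped ContDiff InnerProductSpace Matrix ENNReal NNReal Topology Real
open MeasureTheory Filter Set

noncomputable section

set_option linter.unusedSectionVars false

namespace Pool.Agent.Lib.MP_df705a_gt.SV

open Pool.Agent.Lib.MP_df705a_gt.RL

variable {m : ℕ} {C : Cliff m} {g : Geo (2 * m)} {ρ c κ : ℝ}

/-- The integral of `adj (A y) (φ y)` converges if `y ↦ A y u` is square integrable. -/
theorem integrable_adj_apply (g : Geo (2 * m)) {A : V (2 * m) → En m}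
    (hA : ∀ u, MemLp (fun y => A y u) 2 g.vol) (φ : g.L2) :
    Integrable (fun y => adj (A y) (φ y)) g.vol := by
  have h0 : ∀ (T : En m) (v : Sp m), adj T v = ∑ j, ⟪T (sb j), v⟫_ℂ • (sb j : Sp m) := by
    intro T v
    have h := (EuclideanSpace.basisFun (Fin (2 ^ m)) ℂ).sum_repr' (adj T v)
    rw [← h]
    refine Finset.sum_congr rfl fun j _ => ?_
    rw [EuclideanSpace.basisFun_apply]
    congr 1
    exact ContinuousLinearMap.adjoint_inner_right T (sb j) v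
  have h1 : (fun y => adj (A y) (φ y))
      = fun y => ∑ j, ⟪A y (sb j), φ y⟫_ℂ • (sb j : Sp m) := by
    funext y
    exact h0 _ _
  rw [h1]
  refine integrable_finsetSum _ fun j _ => Integrable.smul_const ?_ _
  refine (L2.integrable_inner (𝕜 := ℂ) (g.emb fun y => A y (sb j)) φ).congr ?_
  filter_upwards [g.emb_coe (hA (sb j))] with y hy
  rw [hy]

theorem local_id (hm : 1 ≤ m) (p : ParaD C g ρ c κ) {t : ℝ} (ht : 0 < t)
    {A : g.L2 →L[ℂ] g.L2} (hA : ∀ x y, ⟪A x, y⟫_ℂ = ⟪x, A y⟫_ℂ)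
    {f : ℝ → V (2 * m) → V (2 * m) → En m} {s : ℝ} (hs : 0 ≤ s)
    (hf : ContinuousOn (fun p : ℝ × V (2 * m) × V (2 * m) => f p.1 p.2.1 p.2.2) {p | 0 < p.1})
    (hfm : ∀ r z u, 0 < r → MemLp (fun y => f r z y u) 2 g.vol)
    (h : ∀ r z u, 0 < r → ‖z‖ ≤ ρ → A ((g.emb fun y => p.q r z y u) + ((t ^ 2 : ℝ) : ℂ) •
      ((g.emb fun y => p.e r z y u) - g.emb fun y => p.qd r z y u)) =
        (s : ℂ) • g.emb fun y => f r z y u)
    {hh : ℝ → ℝ} (hhh : ∀ r, hh r = (t ^ 2)⁻¹ * hE t r * s) (ψ : g.L2)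
    (fin1 : ∀ᵐ z ∂(g.vol.restrict (Metric.closedBall 0 ρ)),
      ∫⁻ y, mk hh f z y * ‖ψ y‖ₑ ∂g.vol ≠ ⊤)
    (fin2 : ∀ᵐ z ∂(g.vol.restrict (Metric.closedBall 0 ρ)),
      ∫⁻ y, mk (hE t) p.e z y * ‖(A ψ : g.L2) y‖ₑ ∂g.vol ≠ ⊤) :
    ∀ᵐ z ∂(g.vol.restrict (Metric.closedBall 0 ρ)),
      (A ψ : g.L2) z + ∫ y, kE p t z y ((A ψ : g.L2) y) ∂g.vol = ∫ y, kk hh f z y (ψ y) ∂g.vol := by
  obtain ⟨a, ha, hpara⟩ := ParaX.exists_para g hm ρ p.κ_pos
  have hS : ∀ z ∈ Metric.closedBall (0 : V (2 * m)) ρ, ‖z‖ ≤ ρ := fun z hz =>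
    mem_closedBall_zero_iff.1 hz
  have hP := hpara C 0 c p.toParaX (Metric.closedBall 0 ρ) hS
  obtain ⟨ε, hε, hεlim, hQ⟩ := exists_seq_Qop measurableSet_closedBall
    Metric.isBounded_closedBall hP (A ψ)
  have hhc : Continuous hh := by
    have : hh = fun r => (t ^ 2)⁻¹ * hE t r * s := funext hhh
    rw [this]
    exact (continuous_const.mul (continuous_hE t)).mul continuous_const
  have hE0 : ∀ r, 0 ≤ hE t r := fun r => (Real.exp_pos _).le
  have hh0 : ∀ r, 0 ≤ hh r := fun r => by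
    rw [hhh]
    have := hE0 r
    positivity
  filter_upwards [hQ, fin1, fin2, ae_restrict_mem measurableSet_closedBall] with z hz h1 h2 hzS
  have hzρ : ‖z‖ ≤ ρ := hS z hzS
  -- the functions of time
  have hqd : ∀ r u, 0 < r → HasDerivAt (fun r => g.emb fun y => p.q r z y u)
      (g.emb fun y => p.qd r z y u) r := fun r u hr => hP.der z hzS u r hr
  have hec : ∀ u, ContinuousOn (fun r => g.emb fun y => p.e r z y u) (Ioi 0) := fun u =>
    p.toParaX.continuousOn_emb_e z u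
  have hqdc : ∀ u, ContinuousOn (fun r => g.emb fun y => p.qd r z y u) (Ioi 0) := by
    intro u
    refine ParaX.continuousOn_emb (R := ‖z‖ + 1) (f := fun r y => p.qd r z y u)
      (ParaX.PL3_joint p.cont_qd z u) ?_
    intro r y _ hy
    rw [(p.supp r z y (ParaX.PL3_far hy)).2.1]
    rfl
  have hqc : ∀ u, ContinuousOn (fun r => g.emb fun y => p.q r z y u) (Ioi 0) := fun u r hr =>
    (hqd r u hr).continuousAt.continuousWithinAt
  -- the identity for every `u`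
  have hEc : Continuous fun r => ((hE t r : ℝ) : ℂ) :=
    Complex.continuous_ofReal.comp (continuous_hE t)
  have main : ∀ u : Sp m, ⟪u, (A ψ : g.L2) z⟫_ℂ - ((hE t 1 : ℝ) : ℂ) * ⟪u, Qop g p.q 1 (A ψ) z⟫_ℂ
      + ⟪u, ∫ y, kk (hE t) p.e z y ((A ψ : g.L2) y) ∂g.vol⟫_ℂ =
      ⟪u, ∫ y, kk hh f z y (ψ y) ∂g.vol⟫_ℂ := by
    intro u
    obtain ⟨-, je, ke⟩ := int_kk g (continuous_hE t) hE0 p.cont_e
      (Lp.aestronglyMeasurable (A ψ)) h2 u
    obtain ⟨-, jf, kf⟩ := int_kk g hhc hh0 hf (Lp.aestronglyMeasurable ψ) h1 u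
    rw [← ke, ← kf]
    have hk : ∀ k, ((hE t (ε k) : ℝ) : ℂ) * ⟪u, Qop g p.q (ε k) (A ψ) z⟫_ℂ
        - ((hE t 1 : ℝ) : ℂ) * ⟪u, Qop g p.q 1 (A ψ) z⟫_ℂ
        + ∫ r in (ε k)..1, ((hE t r : ℝ) : ℂ) * ∫ y, ⟪p.e r z y u, (A ψ : g.L2) y⟫_ℂ ∂g.vol =
        ∫ r in (ε k)..1, (hh r : ℂ) * ∫ y, ⟪f r z y u, ψ y⟫_ℂ ∂g.vol := by
      intro k
      obtain ⟨hk0, hk1⟩ := hε k
      have hsub : Set.uIcc (ε k) 1 ⊆ Ioi 0 := by
        rw [Set.uIcc_of_le hk1]
        exact fun r hr => lt_of_lt_of_le hk0 hr.1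
      have key := time_identity (A := A) (q := fun r => g.emb fun y => p.q r z y u)
        (q' := fun r => g.emb fun y => p.qd r z y u) (e := fun r => g.emb fun y => p.e r z y u)
        (f := fun r => g.emb fun y => f r z y u) (s := s) ht hk0 hk1 (fun r hr => hqd r u hr)
        (hqdc u) (hec u) (fun r hr => h r z u hr hzρ)
      have i1 : IntervalIntegrable (fun r => ((hE t r : ℝ) : ℂ) • g.emb fun y => p.e r z y u)
          volume (ε k) 1 := (hEc.continuousOn.smul ((hec u).mono hsub)).intervalIntegrable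
      have i2 : IntervalIntegrable (fun r => (((t ^ 2)⁻¹ * hE t r * s : ℝ) : ℂ) •
          g.emb fun y => f r z y u) volume (ε k) 1 := by
        have c0 : ContinuousOn (fun r => (g.emb fun y => p.q r z y u) + ((t ^ 2 : ℝ) : ℂ) •
              ((g.emb fun y => p.e r z y u) - g.emb fun y => p.qd r z y u))
            (Set.uIcc (ε k) 1) :=
          ((hqc u).mono hsub).add (((((hec u).mono hsub).sub
              ((hqdc u).mono hsub))).const_smul (((t ^ 2 : ℝ) : ℂ)))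
        have c2 : ContinuousOn (fun r => (((t ^ 2)⁻¹ * hE t r : ℝ) : ℂ)) (Set.uIcc (ε k) 1) :=
          (Complex.continuous_ofReal.comp
              (continuous_const.mul (continuous_hE t))).continuousOn
        have c1 : ContinuousOn (fun r => (((t ^ 2)⁻¹ * hE t r : ℝ) : ℂ) •
            A ((g.emb fun y => p.q r z y u) + ((t ^ 2 : ℝ) : ℂ) •
              ((g.emb fun y => p.e r z y u) - g.emb fun y => p.qd r z y u)))
            (Set.uIcc (ε k) 1) := c2.smul (A.continuous.comp_continuousOn c0)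
        refine (c1.congr fun r hr => ?_).intervalIntegrable
        rw [h r z u (hsub hr) hzρ, smul_smul, ← Complex.ofReal_mul]
      have e1 := congrArg (fun v => ⟪v, ψ⟫_ℂ) key
      beta_reduce at e1
      rw [hA, inner_intInt i2, inner_add_left, inner_sub_left, inner_smul_left, inner_smul_left,
        Complex.conj_ofReal, Complex.conj_ofReal, inner_intInt i1,
        ← inner_Qop hP hk0 hzS u (A ψ), ← inner_Qop hP one_pos hzS u (A ψ)] at e1
      have e2 : ∫ r in (ε k)..1, ((hE t r : ℝ) : ℂ) *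
          ∫ y, ⟪p.e r z y u, (A ψ : g.L2) y⟫_ℂ ∂g.vol =
          ∫ r in (ε k)..1, ⟪((hE t r : ℝ) : ℂ) • g.emb fun y => p.e r z y u, A ψ⟫_ℂ := by
        refine intervalIntegral.integral_congr fun r hr => ?_
        show _ = ⟪((hE t r : ℝ) : ℂ) • g.emb fun y => p.e r z y u, A ψ⟫_ℂ
        rw [inner_smul_left, Complex.conj_ofReal,
          g.inner_emb_left (p.toParaX.memLp (hsub hr) z u).2.2 (A ψ)]
      have e3 : ∫ r in (ε k)..1, (hh r : ℂ) * ∫ y, ⟪f r z y u, ψ y⟫_ℂ ∂g.vol =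
          ∫ r in (ε k)..1, ⟪(((t ^ 2)⁻¹ * hE t r * s : ℝ) : ℂ) •
            g.emb fun y => f r z y u, ψ⟫_ℂ := by
        refine intervalIntegral.integral_congr fun r hr => ?_
        show _ = ⟪(((t ^ 2)⁻¹ * hE t r * s : ℝ) : ℂ) • g.emb fun y => f r z y u, ψ⟫_ℂ
        rw [inner_smul_left, Complex.conj_ofReal, g.inner_emb_left (hfm r z u (hsub hr)) ψ, hhh]
      rw [e2, e3]
      exact e1
    have t1 : Tendsto (fun k => ((hE t (ε k) : ℝ) : ℂ) * ⟪u, Qop g p.q (ε k) (A ψ) z⟫_ℂ) atTop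
        (𝓝 (((hE t 0 : ℝ) : ℂ) * ⟪u, (A ψ : g.L2) z⟫_ℂ)) :=
      ((hEc.tendsto 0).comp (hεlim.mono_right nhdsWithin_le_nhds)).mul
        (tendsto_const_nhds.inner hz)
    have e0 : ((hE t 0 : ℝ) : ℂ) = 1 := by
      unfold hE
      simp
    rw [e0, one_mul] at t1
    have t2 := tendsto_intInt je hε hεlim
    have t3 := tendsto_intInt jf hε hεlim
    have t4 := (t1.sub_const (((hE t 1 : ℝ) : ℂ) * ⟪u, Qop g p.q 1 (A ψ) z⟫_ℂ)).add t2
    refine tendsto_nhds_unique (t4.congr fun k => ?_) t3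
    exact hk k
  -- conclusion
  obtain ⟨ie, -, -⟩ := int_kk g (continuous_hE t) hE0 p.cont_e
    (Lp.aestronglyMeasurable (A ψ)) h2 0
  have iq : Integrable (fun y => adj (p.q 1 z y) ((A ψ : g.L2) y)) g.vol :=
    integrable_adj_apply g (fun u => (p.toParaX.memLp one_pos z u).1) (A ψ)
  have e1 : ∫ y, kE p t z y ((A ψ : g.L2) y) ∂g.vol =
      ∫ y, kk (hE t) p.e z y ((A ψ : g.L2) y) ∂g.vol - ((hE t 1 : ℝ) : ℂ) •
        Qop g p.q 1 (A ψ) z := by
    have e2 : ∫ y, kE p t z y ((A ψ : g.L2) y) ∂g.vol =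
        ∫ y, (kk (hE t) p.e z y ((A ψ : g.L2) y) - ((hE t 1 : ℝ) : ℂ) •
          (adj (p.q 1 z y) ((A ψ : g.L2) y))) ∂g.vol := rfl
    have iq' : Integrable (fun y => ((hE t 1 : ℝ) : ℂ) • (adj (p.q 1 z y) ((A ψ : g.L2) y)))
        g.vol := iq.smul ((hE t 1 : ℝ) : ℂ)
    rw [e2, integral_sub ie iq', integral_smul]
    rfl
  rw [e1]
  refine ext_inner_left ℂ fun u => ?_
  rw [← main u, inner_add_right, inner_sub_right, inner_smul_right]
  ring

end Pool.Agent.Lib.MP_df705a_gt.SV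
end
end

section

/-!
# SV, L3e: the local identities for the resolvents
-/

open scoped ContDiff InnerProductSpace Matrix ENNReal NNReal Topology Real
open MeasureTheory Filter Set

noncomputable section

set_option linter.unusedSectionVars false

namespace Pool.Agent.Lib.MP_df705a_gt.SV

open Pool.Agent.Lib.MP_df705a_gt.RL

variable {m : ℕ} {C : Cliff m} {g : Geo (2 * m)} {ρ c κ : ℝ}

/-- Schur's test for the rows in `S`. -/
theorem LB.ae_ne_top {μ : Measure (V (2 * m))} [SFinite μ] {S : Set (V (2 * m))}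
    (hS : MeasurableSet S) {K : V (2 * m) → V (2 * m) → ℝ≥0∞}
    (hK : Measurable (Function.uncurry K)) {D : ℝ≥0} (h : LB μ S 1 K D)
    (φ : Lp (Sp m) 2 μ) :
    ∀ᵐ z ∂(μ.restrict S), ∫⁻ y, K z y * ‖φ y‖ₑ ∂μ ≠ ⊤ := by
  have hK' : Measurable fun p : V (2 * m) × V (2 * m) =>
      (S ×ˢ (univ : Set (V (2 * m)))).indicator (Function.uncurry K) p :=
    hK.indicator (hS.prod MeasurableSet.univ)
  have hφ : Measurable fun y => ‖φ y‖ₑ := (Lp.stronglyMeasurable φ).enorm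
  have hk : ∀ z y, (S ×ˢ (univ : Set (V (2 * m)))).indicator (Function.uncurry K) (z, y) =
      S.indicator (fun z => K z y) z := by
    intro z y
    by_cases hz : z ∈ S
    · rw [indicator_of_mem (show (z, y) ∈ S ×ˢ univ from ⟨hz, trivial⟩), indicator_of_mem hz]
      rfl
    · rw [indicator_of_notMem (fun h => hz h.1), indicator_of_notMem hz]
  have h1 := schur (μ := μ) (ν := μ) (k := fun z y =>
      (S ×ˢ (univ : Set (V (2 * m)))).indicator (Function.uncurry K) (z, y)) hK'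
    (a := D) (b := D) ?_ ?_ hφ
  · have h2 : ∫⁻ y, ‖φ y‖ₑ ^ 2 ∂μ < ⊤ := by
      have h3 := eLpNorm_nnreal_pow_eq_lintegral (f := φ) (μ := μ) (p := 2) (by norm_num)
      have h4 := Lp.eLpNorm_lt_top φ
      have e : ((2 : NNReal) : ℝ) = ((2 : ℕ) : ℝ) := by norm_num
      rw [e] at h3
      simp only [ENNReal.rpow_natCast] at h3
      rw [← h3]
      exact ENNReal.pow_lt_top h4
    have h3 : ∫⁻ z, (∫⁻ y, (S ×ˢ (univ : Set (V (2 * m)))).indicator (Function.uncurry K) (z, y)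
        * ‖φ y‖ₑ ∂μ) ^ 2 ∂μ ≠ ⊤ := by
      refine ne_top_of_le_ne_top ?_ h1
      exact ENNReal.mul_ne_top (ENNReal.mul_ne_top (by finiteness) (by finiteness)) h2.ne
    have hm : Measurable fun z => (∫⁻ y, (S ×ˢ (univ : Set (V (2 * m)))).indicator
        (Function.uncurry K) (z, y) * ‖φ y‖ₑ ∂μ) ^ 2 := by
      refine Measurable.pow_const ?_ 2
      exact Measurable.lintegral_prod_right' (f := fun p : V (2 * m) × V (2 * m) =>
        (S ×ˢ (univ : Set (V (2 * m)))).indicator (Function.uncurry K) p * ‖φ p.2‖ₑ)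
        (hK'.mul (hφ.comp measurable_snd))
    have h4 := ae_lt_top hm h3
    rw [ae_restrict_iff' hS]
    filter_upwards [h4] with z hz hzS
    have e1 : ∫⁻ y, (S ×ˢ (univ : Set (V (2 * m)))).indicator (Function.uncurry K) (z, y)
        * ‖φ y‖ₑ ∂μ = ∫⁻ y, K z y * ‖φ y‖ₑ ∂μ := by
      refine lintegral_congr fun y => ?_
      rw [hk, indicator_of_mem hzS]
    rw [e1] at hz
    intro h5
    rw [h5] at hz
    simp at hz
  · intro z
    by_cases hz : z ∈ S
    · refine le_trans (le_of_eq (lintegral_congr fun y => ?_)) ((h.row z hz).trans (le_of_eq ?_))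
      · rw [hk, indicator_of_mem hz, ENNReal.rpow_one]
      · rw [ENNReal.rpow_one]
    · have e1 : ∀ y, (S ×ˢ (univ : Set (V (2 * m)))).indicator (Function.uncurry K) (z, y) = 0 :=
        fun y => by rw [hk, indicator_of_notMem hz]
      simp only [e1, lintegral_zero]
      exact zero_le
  · intro y
    have e1 : ∀ z, (S ×ˢ (univ : Set (V (2 * m)))).indicator (Function.uncurry K) (z, y) =
        S.indicator (fun z => K z y) z := fun z => hk z y
    simp only [e1]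
    rw [lintegral_indicator hS]
    refine le_trans (le_of_eq (lintegral_congr fun z => ?_)) ((h.col y).trans (le_of_eq ?_))
    · rw [ENNReal.rpow_one]
    · rw [ENNReal.rpow_one]

/-- the heat equation and the graph of `t D` -/
theorem graphT (p : ParaD C g ρ c κ) (t : ℝ) {r : ℝ} (hr : 0 < r) (z : V (2 * m)) (u : Sp m) :
    ((g.emb fun y => p.q r z y u), (t : ℂ) • g.emb fun y => p.dq r z y u) ∈
      GrT t (C.Gr g 0) ∧
    ((t : ℂ) • (g.emb fun y => p.dq r z y u), ((t ^ 2 : ℝ) : ℂ) •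
      ((g.emb fun y => p.e r z y u) - g.emb fun y => p.qd r z y u)) ∈ GrT t (C.Gr g 0) := by
  have e1 : (fun y => p.dq r z y u) = C.dirac g 0 (fun y => p.q r z y u) := by
    funext y
    exact p.dq_eq r z y u hr
  have htf := p.toParaX.isTF_q hr z u
  have hB : IsPot (0 : Pot (2 * m)) := isPot_zero
  refine ⟨mem_GrT.2 ⟨_, emb_mem_Gr C g 0 htf, by rw [e1]⟩, ?_⟩
  have h2 := (C.Gr g 0).smul_mem (t : ℂ) (emb_mem_Gr C g 0 (isTF_dirac C g hB htf))
  refine mem_GrT.2 ⟨_, h2, ?_⟩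
  have h3 := p.toParaX.emb_heat hB hr z u
  rw [Prod.smul_mk, e1]
  congr 1
  rw [h3, add_sub_cancel_left, smul_smul, ← Complex.ofReal_mul, pow_two]

/-- The majorant of the error. -/
def mE (p : ParaD C g ρ c κ) (t : ℝ) (z y : V (2 * m)) : ℝ≥0∞ :=
  mk (hE t) p.e z y + ENNReal.ofReal (hE t 1) * ‖p.q 1 z y‖ₑ

theorem continuous_q1 (p : ParaD C g ρ c κ) : Continuous fun q : V (2 * m) × V (2 * m) =>
    p.q 1 q.1 q.2 :=
  p.cont_q.comp_continuous (f := fun x : V (2 * m) × V (2 * m) =>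
    ((1, x.1, x.2) : ℝ × V (2 * m) × V (2 * m))) (by fun_prop) fun _ => by
      show (0 : ℝ) < 1
      exact one_pos

theorem measurable_mE (p : ParaD C g ρ c κ) (t : ℝ) : Measurable (Function.uncurry (mE p t)) := by
  have h1 := measurable_mk (continuous_hE t) p.cont_e
  have h2 : Measurable fun q : V (2 * m) × V (2 * m) => ‖p.q 1 q.1 q.2‖ₑ :=
    (continuous_q1 p).enorm.measurable
  exact h1.add (h2.const_mul _)

theorem hE_nonneg (t r : ℝ) : 0 ≤ hE t r := (Real.exp_pos _).le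

theorem continuous_hP (t : ℝ) : Continuous (hP t) := by
  unfold hP
  fun_prop

theorem continuous_hB (t : ℝ) : Continuous (hB t) := by
  unfold hB
  fun_prop

theorem hP_nonneg (t r : ℝ) : 0 ≤ hP t r := by
  unfold hP
  positivity

theorem hB_nonneg {t : ℝ} (ht : 0 < t) (r : ℝ) : 0 ≤ hB t r := by
  unfold hB
  positivity

theorem fin_mE (hm : 1 ≤ m) (p : ParaD C g ρ c κ) {t : ℝ} (ht : 0 < t) (ht1 : t ≤ 1)
    (φ : g.L2) : ∀ᵐ z ∂(g.vol.restrict (Metric.closedBall 0 ρ)),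
      ∫⁻ y, mk (hE t) p.e z y * ‖φ y‖ₑ ∂g.vol ≠ ⊤ := by
  obtain ⟨D, hD, hb⟩ := local_bounds hm p
  obtain ⟨-, -, b3, -⟩ := hb t ht ht1
  have h1 := b3.ae_ne_top measurableSet_closedBall (measurable_mE p t) φ
  filter_upwards [h1] with z hz
  refine ne_top_of_le_ne_top hz (lintegral_mono fun y => ?_)
  gcongr
  exact le_self_add

/-- The local identity for `(1 + t² D²)⁻¹`. -/
theorem local_id_R (hm : 1 ≤ m) (p : ParaD C g ρ c κ) {κ' : ℝ} (hκ' : κ' ^ 2 = 1) {t : ℝ}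
    (ht : 0 < t) (ht1 : t ≤ 1) (ψ : g.L2) :
    ∀ᵐ z ∂(g.vol.restrict (Metric.closedBall 0 ρ)),
      (Rop (C.Eps g κ') (GrT t (C.Gr g 0)) ψ : g.L2) z +
        ∫ y, kE p t z y ((Rop (C.Eps g κ') (GrT t (C.Gr g 0)) ψ : g.L2) y) ∂g.vol =
          ∫ y, kP p t z y (ψ y) ∂g.vol := by
  have he := isGrading_Eps C g hκ'
  have ho := isOddSymm_GrT (isOddSymm_Gr C g (isPot_zero : IsPot (0 : Pot (2 * m))) hκ') t
  obtain ⟨D, hD, hb⟩ := local_bounds hm p
  obtain ⟨⟨b1, -⟩, -, -⟩ := hb t ht ht1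
  have hsa := Rop_sa (Gr := GrT t (C.Gr g 0)) he
  refine local_id hm p ht (A := Rop (C.Eps g κ') (GrT t (C.Gr g 0)))
    (fun x y => hsa.isSymmetric x y) (f := p.q) (s := 1) zero_le_one p.cont_q
    (fun r z u hr => (p.toParaX.memLp hr z u).1) ?_ (hh := hP t) (fun r => ?_) ψ ?_
    (fin_mE hm p ht ht1 _)
  · intro r z u hr _
    obtain ⟨g1, g2⟩ := graphT p t hr z u
    rw [Complex.ofReal_one, one_smul]
    exact Rop_two he ho g1 g2
  · unfold hP hE
    ring
  · exact b1.ae_ne_top measurableSet_closedBall (measurable_mk (continuous_hP t) p.cont_q) ψ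

/-- The local identity for `t D (1 + t² D²)⁻¹`. -/
theorem local_id_B (hm : 1 ≤ m) (p : ParaD C g ρ c κ) {κ' : ℝ} (hκ' : κ' ^ 2 = 1) {t : ℝ}
    (ht : 0 < t) (ht1 : t ≤ 1) (ψ : g.L2) :
    ∀ᵐ z ∂(g.vol.restrict (Metric.closedBall 0 ρ)),
      (Bop (C.Eps g κ') (GrT t (C.Gr g 0)) ψ : g.L2) z +
        ∫ y, kE p t z y ((Bop (C.Eps g κ') (GrT t (C.Gr g 0)) ψ : g.L2) y) ∂g.vol =
          ∫ y, kB p t z y (ψ y) ∂g.vol := by
  have he := isGrading_Eps C g hκ'
  have ho := isOddSymm_GrT (isOddSymm_Gr C g (isPot_zero : IsPot (0 : Pot (2 * m))) hκ') t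
  obtain ⟨D, hD, hb⟩ := local_bounds hm p
  obtain ⟨-, ⟨b1, -⟩, -⟩ := hb t ht ht1
  have hsa := Bop_sa (eps := C.Eps g κ') (Gr := GrT t (C.Gr g 0))
  refine local_id hm p ht (A := Bop (C.Eps g κ') (GrT t (C.Gr g 0)))
    (fun x y => hsa.isSymmetric x y) (f := p.dq) (s := t) ht.le p.cont_dq ?_ ?_
    (hh := hB t) (fun r => ?_) ψ ?_ (fin_mE hm p ht ht1 _)
  · intro r z u hr
    have e1 : (fun y => p.dq r z y u) = C.dirac g 0 (fun y => p.q r z y u) := by
      funext y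
      exact p.dq_eq r z y u hr
    rw [e1]
    exact g.memLp_tf (isTF_dirac C g isPot_zero (p.toParaX.isTF_q hr z u))
  · intro r z u hr _
    obtain ⟨g1, g2⟩ := graphT p t hr z u
    rw [map_add, (graph_eq he ho g1).1, ← (graph_eq he ho g2).2]
    abel
  · unfold hB hE
    field_simp
  · exact b1.ae_ne_top measurableSet_closedBall (measurable_mk (continuous_hB t) p.cont_dq) ψ

/-- bounds for the three kernels -/
theorem enorm_kE_le (p : ParaD C g ρ c κ) (t : ℝ) (z y : V (2 * m)) :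
    ‖kE p t z y‖ₑ ≤ mE p t z y := by
  unfold kE mE
  refine enorm_sub_le.trans (add_le_add (enorm_kk_le (hE_nonneg t) _ _ _) (le_of_eq ?_))
  rw [enorm_smul]
  congr 1
  · rw [← ofReal_norm, Complex.norm_real, Real.norm_of_nonneg (hE_nonneg t 1)]
  · rw [← ofReal_norm, ← ofReal_norm, LinearIsometryEquiv.norm_map]

theorem stronglyMeasurable_kE (p : ParaD C g ρ c κ) (t : ℝ) :
    StronglyMeasurable (Function.uncurry (kE p t)) := by
  have h1 := stronglyMeasurable_kk (continuous_hE t) p.cont_e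
  have h3 : Continuous fun q : V (2 * m) × V (2 * m) => adj (p.q 1 q.1 q.2) :=
    (ContinuousLinearMap.adjoint (𝕜 := ℂ)).continuous.comp (continuous_q1 p)
  have h2 : Continuous fun q : V (2 * m) × V (2 * m) => ((hE t 1 : ℝ) : ℂ) • adj (p.q 1 q.1 q.2) :=
    h3.const_smul ((hE t 1 : ℝ) : ℂ)
  exact h1.sub h2.stronglyMeasurable

theorem far_zero (p : ParaD C g ρ c κ) (t : ℝ) {z y : V (2 * m)} (h : 1 < ‖y - z‖) :
    mk (hP t) p.q z y = 0 ∧ mk (hB t) p.dq z y = 0 ∧ mE p t z y = 0 := by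
  refine ⟨(kk_eq_zero fun r hr => (p.supp r z y h).1).2,
    (kk_eq_zero fun r hr => p.supp_dq r z y h).2, ?_⟩
  unfold mE
  rw [(kk_eq_zero fun r hr => (p.supp r z y h).2.2).2, (p.supp 1 z y h).1, zero_add]
  have e : ‖(0 : En m)‖ₑ = 0 := enorm_zero (E := En m)
  rw [e, mul_zero]

end Pool.Agent.Lib.MP_df705a_gt.SV
end
end

section

/-!
# SV, L6c: the kernels at small `t`: bounds of the extended kernels
-/

open scoped ContDiff InnerProductSpace Matrix ENNReal NNReal Topology Real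
open MeasureTheory Filter Set

noncomputable section

set_option linter.unusedSectionVars false

namespace Pool.Agent.Lib.MP_df705a_gt.SV

open Pool.Agent.Lib.MP_df705a_gt.RL

variable {G : Type*} [Group G] [Countable G] {m : ℕ} {C : Cliff m} {g : Geo (2 * m)}
  {a : Act G (2 * m)} {F : Set (V (2 * m))} {ρ c κ : ℝ}

theorem wt_oneL {X : Type*} [MeasurableSpace X] : Wt fun _ _ : X => (1 : ℝ) :=
  ⟨measurable_const, fun _ _ => le_rfl, fun _ _ _ => by norm_num⟩

theorem one_le_pN (hm : 1 ≤ m) : 1 ≤ pN m := by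
  have hm0 : (0 : ℝ) < m := by exact_mod_cast hm
  unfold pN
  rw [le_div_iff₀ (by push_cast; linarith)]
  push_cast
  linarith

theorem LB.mono_set {X : Type*} [MeasurableSpace X] {μ : Measure X} {S T : Set X} {p : ℝ}
    {K : X → X → ℝ≥0∞} {c : ℝ≥0} (h : LB μ T p K c) (hST : S ⊆ T) : LB μ S p K c :=
  ⟨fun x hx => h.row x (hST hx), fun y => (lintegral_mono_set hST).trans (h.col y)⟩

theorem stronglyMeasurable_kP (p : ParaD C g ρ c κ) (t : ℝ) :
    StronglyMeasurable (Function.uncurry (kP p t)) :=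
  stronglyMeasurable_kk (continuous_hP t) p.cont_q

theorem stronglyMeasurable_kB (p : ParaD C g ρ c κ) (t : ℝ) :
    StronglyMeasurable (Function.uncurry (kB p t)) :=
  stronglyMeasurable_kk (continuous_hB t) p.cont_dq

theorem coe_mul_toNNReal (M : ℝ≥0) (x : ℝ) : ((M : ℝ) * x).toNNReal = M * x.toNNReal := by
  rw [Real.toNNReal_mul M.coe_nonneg, Real.toNNReal_coe]

theorem mul_sz (M : ℝ≥0) (D t : ℝ) : M * sz m D t = sz m (M * D) t := by
  unfold sz
  rw [mul_assoc, coe_mul_toNNReal]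

theorem sz_mono {D D' t : ℝ} (ht : 0 < t) (h : D ≤ D') : sz m D t ≤ sz m D' t := by
  unfold sz
  refine Real.toNNReal_le_toNNReal ?_
  gcongr

/-- the three kernels -/
structure ExtB (hF : a.Fund F) (U : G → V (2 * m) → En m) (p : ParaD C g ρ c κ)
    (w : V (2 * m) → V (2 * m) → ℝ) (D t : ℝ) : Prop where
  fP : KB g.vol w (pN m) (ext hF U (kP p t)) D.toNNReal (sz m D t)
  fB : KB g.vol w (pN m) (ext hF U (kB p t)) D.toNNReal (sz m D t)
  fE : KB g.vol w (pN m) (ext hF U (kE p t)) (D * t).toNNReal (D * t).toNNReal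

theorem ext_bounds (hm : 1 ≤ m) (hF : a.Fund F) (hp : IsProper a) (ha : a.Iso g)
    {U : G → V (2 * m) → En m} (hU : Lifts C g a U) (p : ParaD C g ρ c κ)
    (hρ : F ⊆ Metric.closedBall 0 ρ) : ∃ D : ℝ, 0 < D ∧
      (∀ t : ℝ, 0 < t → t ≤ 1 → ExtB hF U p (fun _ _ => 1) D t) ∧
      ∀ ℓ : G → ℝ, IsLen ℓ → ∃ d₁ : ℝ, 0 < d₁ ∧ ∀ δ : ℝ, 0 ≤ δ → δ ≤ d₁ →
        ∀ t : ℝ, 0 < t → t ≤ 1 → ExtB hF U p (tw hF ℓ δ) D t := by
  have hpN := one_le_pN hm
  obtain ⟨M, hM1, hM⟩ := KB_ext_one (C := C) hF hp ha hU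
  obtain ⟨M', hM1', hM'⟩ := KB_ext (C := C) hF hp ha hU
  obtain ⟨D₀, hD₀, hb⟩ := local_bounds hm p
  set N : ℝ≥0 := M + M' * 2 with hN
  have hN0 : (0 : ℝ) < N := by
    have : (0 : ℝ≥0) < N := by
      rw [hN]
      have : (0 : ℝ≥0) < M := lt_of_lt_of_le one_pos hM1
      positivity
    exact_mod_cast this
  have e1 : ∀ M₁ : ℝ≥0, M₁ ≤ N → M₁ * D₀.toNNReal ≤ (N * D₀).toNNReal := by
    intro M₁ hM₁
    rw [coe_mul_toNNReal]
    gcongr
  have e2 : ∀ (M₁ : ℝ≥0) (t : ℝ), 0 < t → M₁ ≤ N → M₁ * sz m D₀ t ≤ sz m (N * D₀) t := by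
    intro M₁ t ht hM₁
    rw [mul_sz]
    exact sz_mono ht (by gcongr)
  have e3 : ∀ (M₁ : ℝ≥0) (t : ℝ), 0 < t → M₁ ≤ N →
      M₁ * (D₀ * t).toNNReal ≤ (N * D₀ * t).toNNReal := by
    intro M₁ t ht hM₁
    rw [mul_assoc, coe_mul_toNNReal]
    gcongr
  refine ⟨N * D₀, by positivity, fun t ht ht1 => ?_, fun ℓ hℓ => ?_⟩
  · obtain ⟨⟨b1, b2⟩, ⟨b3, b4⟩, b5, b6⟩ := hb t ht ht1
    have hMN : M ≤ N := by
      rw [hN]
      exact le_self_add
    refine ⟨?_, ?_, ?_⟩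
    · exact (hM (pN m) hpN (kP p t) (mk (hP t) p.q) _ _ (stronglyMeasurable_kP p t)
        (measurable_mk (continuous_hP t) p.cont_q) (fun z y h => (far_zero p t h).1)
        (fun z y => enorm_kk_le (hP_nonneg t) _ _ _) (b1.mono_set hρ) (b2.mono_set hρ)).mono
        (by linarith) (e1 M hMN) (e2 M t ht hMN)
    · exact (hM (pN m) hpN (kB p t) (mk (hB t) p.dq) _ _ (stronglyMeasurable_kB p t)
        (measurable_mk (continuous_hB t) p.cont_dq) (fun z y h => (far_zero p t h).2.1)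
        (fun z y => enorm_kk_le (hB_nonneg ht) _ _ _) (b3.mono_set hρ) (b4.mono_set hρ)).mono
        (by linarith) (e1 M hMN) (e2 M t ht hMN)
    · exact (hM (pN m) hpN (kE p t) (mE p t) _ _ (stronglyMeasurable_kE p t)
        (measurable_mE p t) (fun z y h => (far_zero p t h).2.2)
        (fun z y => enorm_kE_le p t z y) (b5.mono_set hρ) (b6.mono_set hρ)).mono
        (by linarith) (e3 M t ht hMN) (e3 M t ht hMN)
  · obtain ⟨c₀, hc₀, h1⟩ := hM' ℓ hℓ
    have hl2 : 0 < Real.log 2 := Real.log_pos (by norm_num)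
    refine ⟨Real.log 2 / (c₀ + 1), by positivity, fun δ hδ hδ1 t ht ht1 => ?_⟩
    have h2 : Real.exp (δ * c₀) ≤ 2 := by
      rw [← Real.le_log_iff_exp_le (by norm_num)]
      have h3 : δ * c₀ ≤ Real.log 2 / (c₀ + 1) * (c₀ + 1) := by
        gcongr
        linarith
      rw [div_mul_cancel₀ _ (by positivity)] at h3
      exact h3
    have hMN : M' * (Real.exp (δ * c₀)).toNNReal ≤ N := by
      rw [hN]
      refine le_trans ?_ (le_add_of_nonneg_left zero_le)
      gcongr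
      rw [Real.toNNReal_le_iff_le_coe]
      exact_mod_cast h2
    obtain ⟨⟨b1, b2⟩, ⟨b3, b4⟩, b5, b6⟩ := hb t ht ht1
    refine ⟨?_, ?_, ?_⟩
    · exact (h1 δ hδ (pN m) hpN (kP p t) (mk (hP t) p.q) _ _ (stronglyMeasurable_kP p t)
        (measurable_mk (continuous_hP t) p.cont_q) (fun z y h => (far_zero p t h).1)
        (fun z y => enorm_kk_le (hP_nonneg t) _ _ _) (b1.mono_set hρ) (b2.mono_set hρ)).mono
        (by linarith) (e1 _ hMN) (e2 _ t ht hMN)
    · exact (h1 δ hδ (pN m) hpN (kB p t) (mk (hB t) p.dq) _ _ (stronglyMeasurable_kB p t)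
        (measurable_mk (continuous_hB t) p.cont_dq) (fun z y h => (far_zero p t h).2.1)
        (fun z y => enorm_kk_le (hB_nonneg ht) _ _ _) (b3.mono_set hρ) (b4.mono_set hρ)).mono
        (by linarith) (e1 _ hMN) (e2 _ t ht hMN)
    · exact (h1 δ hδ (pN m) hpN (kE p t) (mE p t) _ _ (stronglyMeasurable_kE p t)
        (measurable_mE p t) (fun z y h => (far_zero p t h).2.2)
        (fun z y => enorm_kE_le p t z y) (b5.mono_set hρ) (b6.mono_set hρ)).mono
        (by linarith) (e3 _ t ht hMN) (e3 _ t ht hMN)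

end Pool.Agent.Lib.MP_df705a_gt.SV
end
end
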