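import Pool.Agent.Lib.MP_df705a_gt.Mg.G072
import Pool.Agent.Lib.MP_df705a_gt.Mg.G081
import Pool.Agent.Lib.MP_df705a_gt.Mg.G084
import Pool.Agent.Lib.MP_df705a_gt.Mg.G074

section

/-!
# SV, Q5: the `L¹` norms of the kernels of the powers of a contraction of the sup norm
-/

open MeasureTheory Filter
open scoped ENNReal NNReal Topology InnerProductSpace

set_option autoImplicit false
set_option linter.unusedSectionVars false

noncomputable section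

namespace Pool.Agent.Lib.MP_df705a_gt.SV

open Pool.Agent.Lib.MP_df705a_gt.RL

section General

variable {X E : Type*} [MeasurableSpace X] {μ : Measure X} [NormedAddCommGroup E]
  [InnerProductSpace ℂ E]

/-- The weighted bounds imply the `L¹` bounds. -/
theorem KB.kb1 {w : X → X → ℝ} (hw : Wt w) {p : ℝ} {k : X → X → E →L[ℂ] E} {A₁ Ap : ℝ≥0}
    (h : KB μ w p k A₁ Ap) : KB1 μ k A₁ where
  meas := h.meas
  n1 := h.n1.mono zero_le_one fun x y => by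
    unfold nk
    have h1 : (1 : ℝ≥0∞) ≤ ENNReal.ofReal (w x y) := by
      rw [ENNReal.one_le_ofReal]
      exact hw.one x y
    calc ‖k x y‖ₑ = 1 * ‖k x y‖ₑ := (one_mul _).symm
      _ ≤ _ := by gcongr

/-- The kernels of the powers `R^(j+1)`. -/
def kp (μ : Measure X) (a : X → X → E →L[ℂ] E) : ℕ → X → X → E →L[ℂ] E
  | 0 => a
  | j + 1 => comp μ (kp μ a j) a

/-- The kernels of `B R^j`. -/
def kq (μ : Measure X) (b a : X → X → E →L[ℂ] E) : ℕ → X → X → E →L[ℂ] E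
  | 0 => b
  | j + 1 => comp μ b (kp μ a j)

variable [SigmaFinite μ] {w : X → X → ℝ} {p : ℝ} {a b : X → X → E →L[ℂ] E} {A₁ Ap B₁ Bp : ℝ≥0}
  {R B : Lp E 2 μ →L[ℂ] Lp E 2 μ}

theorem KB.kp (hw : Wt w) (hp : 1 ≤ p) (ha : KB μ w p a A₁ Ap) (j : ℕ) :
    KB μ w p (SV.kp μ a j) (A₁ ^ (j + 1)) (A₁ ^ j * Ap) := by
  induction j with
  | zero =>
    show KB μ w p a _ _
    rw [zero_add, pow_one, pow_zero, one_mul]
    exact ha
  | succ j ih =>
    show KB μ w p (SV.comp μ (SV.kp μ a j) a) _ _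
    have := ih.comp hw hp ha
    rw [pow_succ A₁ (j + 1)]
    exact this

theorem isKer_kp [FiniteDimensional ℂ E] (hw : Wt w) (hp : 1 ≤ p) (ha : KB μ w p a A₁ Ap)
    (hR : IsKer μ R a) (j : ℕ) : IsKer μ (R ^ (j + 1)) (SV.kp μ a j) := by
  induction j with
  | zero =>
    rw [zero_add, pow_one]
    exact hR
  | succ j ih =>
    rw [pow_succ R (j + 1)]
    exact ih.mul hR ((ha.kp hw hp j).kb1 hw) (ha.kb1 hw)

theorem isKer_kq [FiniteDimensional ℂ E] (hw : Wt w) (hp : 1 ≤ p) (ha : KB μ w p a A₁ Ap)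
    (hb : KB μ w p b B₁ Bp) (hR : IsKer μ R a) (hB : IsKer μ B b) (j : ℕ) :
    IsKer μ (B * R ^ j) (kq μ b a j) := by
  cases j with
  | zero =>
    rw [pow_zero, mul_one]
    exact hB
  | succ j => exact hB.mul (isKer_kp hw hp ha hR j) (hb.kb1 hw) ((ha.kp hw hp j).kb1 hw)

end General

variable {m N : ℕ} {ν : Measure (V N)} [SigmaFinite ν] [IsLocallyFiniteMeasure ν]

theorem memLp_of_bdd {f : V N → Sp m} (hf : Measurable f) (h1 : ∀ y, ‖f y‖ ≤ 1)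
    (h2 : ∃ r : ℝ, ∀ y, r < ‖y‖ → f y = 0) : MemLp f 2 ν := by
  obtain ⟨r, hr⟩ := h2
  have h3 : MemLp ((Metric.closedBall (0 : V N) r).indicator fun _ => (1 : ℝ)) 2 ν :=
    memLp_indicator_const 2 Metric.isClosed_closedBall.measurableSet 1
      (Or.inr (isCompact_closedBall (0 : V N) r).measure_lt_top.ne)
  refine h3.of_le hf.aestronglyMeasurable (Eventually.of_forall fun y => ?_)
  by_cases hy : y ∈ Metric.closedBall (0 : V N) r
  · rw [Set.indicator_of_mem hy, norm_one]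
    exact h1 y
  · rw [mem_closedBall_zero_iff, not_le] at hy
    rw [hr y hy, norm_zero]
    exact norm_nonneg _

/-- A sup bound is an `L¹` bound of the rows of the kernel. -/
theorem row_of_sup {T : Lp (Sp m) 2 ν →L[ℂ] Lp (Sp m) 2 ν} {k : V N → V N → En m} {c₀ : ℝ≥0}
    (hk : KB1 ν k c₀) (hT : IsKer ν T k) {c : ℝ}
    (h : ∀ u : Lp (Sp m) 2 ν, (∀ᵐ x ∂ν, ‖u x‖ ≤ 1) → ∀ᵐ x ∂ν, ‖T u x‖ ≤ c) :
    ∀ᵐ x ∂ν, ∫⁻ y, ‖k x y‖ₑ ∂ν ≤ ENNReal.ofReal ((2 ^ m) ^ 2 * c) := by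
  refine l1_of_linf hk.meas ?_ fun f fm f1 fs => ?_
  · filter_upwards [hk.n1.1] with x hx
    simp only [ENNReal.rpow_one] at hx
    exact lt_of_le_of_lt hx ENNReal.coe_lt_top
  · have hf := memLp_of_bdd (ν := ν) fm f1 fs
    have h1 : hf.toLp f =ᵐ[ν] f := hf.coeFn_toLp
    have h2 : ∀ᵐ x ∂ν, ‖(hf.toLp f : Lp (Sp m) 2 ν) x‖ ≤ 1 := by
      filter_upwards [h1] with x hx
      rw [hx]
      exact f1 x
    filter_upwards [h _ h2, hT (hf.toLp f)] with x h3 h4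
    rw [h4] at h3
    have e1 : ∫ y, k x y ((hf.toLp f : Lp (Sp m) 2 ν) y) ∂ν = ∫ y, k x y (f y) ∂ν := by
      refine integral_congr_ae ?_
      filter_upwards [h1] with y hy
      rw [hy]
    rw [← e1]
    exact h3

/-- The `L¹` norms of the kernel of a self-adjoint operator which is bounded in the sup norm. -/
theorem nb_of_sup {T : Lp (Sp m) 2 ν →L[ℂ] Lp (Sp m) 2 ν} {k : V N → V N → En m} {c₀ : ℝ≥0}
    (hk : KB1 ν k c₀) (hT : IsKer ν T k) (hsa : ContinuousLinearMap.adjoint T = T) {c : ℝ}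
    (h : ∀ u : Lp (Sp m) 2 ν, (∀ᵐ x ∂ν, ‖u x‖ ≤ 1) → ∀ᵐ x ∂ν, ‖T u x‖ ≤ c) :
    NB ν 1 (fun x y => ‖k x y‖ₑ) ((2 ^ m) ^ 2 * c).toNNReal := by
  constructor
  · filter_upwards [row_of_sup hk hT h] with x hx
    simp only [ENNReal.rpow_one]
    exact hx
  · have h1 : IsKer ν T (fun x y => ContinuousLinearMap.adjoint (k y x)) := by
      have := hT.adjoint hk
      rw [hsa] at this
      exact this
    filter_upwards [row_of_sup hk.adjoint h1 h] with x hx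
    simp only [ENNReal.rpow_one]
    refine le_trans (le_of_eq ?_) hx
    refine lintegral_congr fun y => ?_
    rw [← ofReal_norm, ← ofReal_norm, LinearIsometryEquiv.norm_map]

/-- The powers of a contraction of the sup norm. -/
theorem nb_pow {R : Lp (Sp m) 2 ν →L[ℂ] Lp (Sp m) 2 ν} {a : V N → V N → En m}
    {w : V N → V N → ℝ} {p : ℝ} {A₁ Ap : ℝ≥0} (hw : Wt w) (hp : 1 ≤ p)
    (ha : KB ν w p a A₁ Ap) (hR : IsKer ν R a) (hsa : ContinuousLinearMap.adjoint R = R) {ρ : ℝ}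
    (hρ : 0 ≤ ρ) (h : ∀ (u : Lp (Sp m) 2 ν) (c : ℝ), 0 ≤ c → (∀ᵐ x ∂ν, ‖u x‖ ≤ c) →
      ∀ᵐ x ∂ν, ‖R u x‖ ≤ ρ * c) (j : ℕ) :
    NB ν 1 (fun x y => ‖kp ν a j x y‖ₑ) ((2 ^ m) ^ 2 * ρ ^ (j + 1)).toNNReal := by
  have h1 : ∀ (j : ℕ) (u : Lp (Sp m) 2 ν), (∀ᵐ x ∂ν, ‖u x‖ ≤ 1) →
      ∀ᵐ x ∂ν, ‖(R ^ j) u x‖ ≤ ρ ^ j := by
    intro j
    induction j with
    | zero =>
      intro u hu
      rw [pow_zero, pow_zero]
      exact hu
    | succ j ih =>
      intro u hu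
      have h2 := h _ _ (pow_nonneg hρ j) (ih u hu)
      rw [pow_succ' R, pow_succ' ρ]
      exact h2
  have hsa' : ContinuousLinearMap.adjoint (R ^ (j + 1)) = R ^ (j + 1) := by
    have h2 : star R = R := hsa
    have h3 : star (R ^ (j + 1)) = R ^ (j + 1) := by rw [star_pow, h2]
    exact h3
  exact nb_of_sup ((ha.kp hw hp j).kb1 hw) (isKer_kp hw hp ha hR j) hsa' (h1 (j + 1))

end Pool.Agent.Lib.MP_df705a_gt.SV
end
end

section

/-!
# SV, Q6: the kernels of the resolvents for large times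
-/

open MeasureTheory Filter
open scoped ENNReal NNReal Topology InnerProductSpace

set_option autoImplicit false
set_option linter.unusedSectionVars false

noncomputable section

namespace Pool.Agent.Lib.MP_df705a_gt.SV

open Pool.Agent.Lib.MP_df705a_gt.RL

/-- The exponent. -/
theorem exists_theta {ρ A : ℝ} (hρ0 : 0 < ρ) (hρ : ρ < 1) (hA : 0 < A) :
    ∃ θ : ℝ, 0 < θ ∧ θ < 1 ∧ ρ ^ (1 - θ) * A ^ θ < 1 := by
  have h1 : ContinuousAt (fun θ : ℝ => ρ ^ (1 - θ) * A ^ θ) 0 := by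
    refine ContinuousAt.mul ?_ ?_
    · exact ContinuousAt.rpow continuousAt_const (continuousAt_const.sub continuousAt_id)
        (Or.inl hρ0.ne')
    · exact ContinuousAt.rpow continuousAt_const continuousAt_id (Or.inl hA.ne')
  have h2 : Tendsto (fun θ : ℝ => ρ ^ (1 - θ) * A ^ θ) (𝓝[>] 0) (𝓝 ρ) := by
    have h3 := h1.tendsto.mono_left (nhdsWithin_le_nhds (s := Set.Ioi 0))
    simpa using h3
  have h4 : ∀ᶠ θ in 𝓝[>] (0 : ℝ), ρ ^ (1 - θ) * A ^ θ < 1 := h2.eventually (gt_mem_nhds hρ)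
  have h5 : ∀ᶠ θ in 𝓝[>] (0 : ℝ), θ ∈ Set.Ioo (0 : ℝ) 1 := Ioo_mem_nhdsGT one_pos
  obtain ⟨θ, h6, h7⟩ := (h4.and h5).exists
  exact ⟨θ, h7.1, h7.2, h6⟩

theorem interp_const (ρ A K : ℝ≥0) (θ : ℝ) (j : ℕ) :
    (K * ρ ^ (j + 1)) ^ (1 - θ) * (A ^ (j + 1)) ^ θ
      = K ^ (1 - θ) * (ρ ^ (1 - θ) * A ^ θ) ^ (j + 1) := by
  have e : ∀ (x : ℝ≥0) (y : ℝ), (x ^ (j + 1)) ^ y = (x ^ y) ^ (j + 1) := by
    intro x y
    rw [← NNReal.rpow_natCast, ← NNReal.rpow_natCast, ← NNReal.rpow_mul, ← NNReal.rpow_mul,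
      mul_comm]
  rw [NNReal.mul_rpow, e, e, mul_pow]
  ring

section General

variable {X E : Type*} [MeasurableSpace X] {μ : Measure X} [NormedAddCommGroup E]
  [InnerProductSpace ℂ E]

theorem ksum_eq_tsum {F : Type*} [NormedRing F] [NormedAlgebra ℝ F] [FiniteDimensional ℝ F]
    (a : ℕ → X → X → F) (x y : X) : ksum a x y = ∑' j, a j x y := by
  unfold ksum
  split_ifs with h
  · rfl
  · refine (tsum_eq_zero_of_not_summable fun h1 => h ?_).symm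
    have h2 : Summable fun j => ‖a j x y‖ := summable_norm_iff.2 h1
    have h3 : Summable fun j => ‖a j x y‖₊ := by
      rw [← NNReal.summable_coe]
      exact h2
    have h4 : ∑' j, (‖a j x y‖₊ : ℝ≥0∞) ≠ ∞ := ENNReal.tsum_coe_ne_top_iff_summable.2 h3
    exact lt_top_iff_ne_top.2 h4

theorem sum_geom_le {M q : ℝ≥0} (hq : q < 1) (n : ℕ) :
    ∑ j ∈ Finset.range n, M * q ^ j ≤ M / (1 - q) := by
  rw [← Finset.mul_sum, div_eq_mul_inv]
  gcongr
  have h1 := NNReal.hasSum_geometric hq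
  exact h1.summable.sum_le_tsum _ (fun _ _ => zero_le) |>.trans (le_of_eq h1.tsum_eq)

/-- The kernel of a series of operators. -/
theorem ker_tsum [SigmaFinite μ] [FiniteDimensional ℂ E] {w : X → X → ℝ} (hw : Wt w) {p : ℝ}
    (hp : 1 ≤ p) {T : ℕ → Lp E 2 μ →L[ℂ] Lp E 2 μ} {k : ℕ → X → X → E →L[ℂ] E} {M q s : ℝ≥0}
    (hq : q < 1) (hk : ∀ j, KB μ w p (k j) (M * q ^ j) (M * q ^ j))
    (hT : ∀ j, IsKer μ (T j) (k j)) {c : ℕ → ℂ} (hc : ∀ j, ‖c j‖₊ ≤ s)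
    {S : Lp E 2 μ →L[ℂ] Lp E 2 μ} (hS : HasSum (fun j => c j • T j) S) :
    ∃ k' : X → X → E →L[ℂ] E, IsKer μ S k' ∧
      KB μ w p k' (s * (M / (1 - q))) (s * (M / (1 - q))) := by
  have hfin : FiniteDimensional ℝ (E →L[ℂ] E) := by
    have : FiniteDimensional ℂ (E →L[ℂ] E) := inferInstance
    exact FiniteDimensional.complexToReal _
  have : CompleteSpace (E →L[ℂ] E) := FiniteDimensional.complete ℝ _
  have h1 : ∀ j, KB μ w p (fun x y => c j • k j x y) ((s * M) * q ^ j) ((s * M) * q ^ j) := by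
    intro j
    refine ((hk j).smul hw.meas (zero_le_one.trans hp) (c j)).mono (zero_le_one.trans hp) ?_ ?_
    · rw [mul_assoc]
      gcongr
      exact hc j
    · rw [mul_assoc]
      gcongr
      exact hc j
  have e1 : SV.ksum (fun j x y => c j • k j x y) = fun x y => ∑' j, c j • k j x y := by
    funext x y
    exact ksum_eq_tsum _ x y
  have hsum : ∀ n, ∑ j ∈ Finset.range n, (s * M) * q ^ j ≤ s * (M / (1 - q)) := by
    intro n
    rw [← mul_div_assoc]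
    exact sum_geom_le hq n
  refine ⟨SV.ksum fun j x y => c j • k j x y, ?_, KB.ksum hw hp h1 hsum hsum⟩
  have h2 : Summable fun j => (s * M) * q ^ j :=
    (NNReal.summable_geometric hq).mul_left _
  have h3 := IsKer.tsum (fun j => (hT j).smul (c j)) (fun j => (h1 j).kb1 hw) h2
  rw [hS.tsum_eq] at h3
  rw [e1]
  exact h3

end General

variable {m N : ℕ} {ν : Measure (V N)} [SigmaFinite ν] [IsLocallyFiniteMeasure ν]

/-- The kernels of the resolvents for `t ≥ t₀`, if the resolvent for `t₀` is a strict contraction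
of the sup norm. -/
theorem big_kernels {G : Submodule ℂ (Lp (Sp m) 2 ν × Lp (Sp m) 2 ν)} (hG : SymRel G)
    {w : V N → V N → ℝ} (hw : Wt w) {p : ℝ} (hp : 1 ≤ p) {t₀ : ℝ} (ht₀ : 0 < t₀)
    {R₀ B₀ : Lp (Sp m) 2 ν →L[ℂ] Lp (Sp m) 2 ν} (h₀ : IsRes G t₀ R₀ B₀)
    {a b : V N → V N → En m} {A₁ Ap B₁ Bp : ℝ≥0} (ha : KB ν w p a A₁ Ap)
    (hb : KB ν w p b B₁ Bp) (hR₀ : IsKer ν R₀ a) (hB₀ : IsKer ν B₀ b) {ρ : ℝ} (hρ0 : 0 ≤ ρ)
    (hρ1 : ρ < 1) (hsup : ∀ (u : Lp (Sp m) 2 ν) (c : ℝ), 0 ≤ c → (∀ᵐ x ∂ν, ‖u x‖ ≤ c) →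
      ∀ᵐ x ∂ν, ‖R₀ u x‖ ≤ ρ * c) :
    ∃ θ : ℝ, 0 < θ ∧ θ ≤ 1 ∧ ∃ D : ℝ≥0, ∀ t, t₀ ≤ t →
      ∀ R B : Lp (Sp m) 2 ν →L[ℂ] Lp (Sp m) 2 ν, IsRes G t R B →
      ∃ a' b' : V N → V N → En m, IsKer ν R a' ∧ IsKer ν B b' ∧
        KB ν (fun x y => w x y ^ θ) p a' (((t₀ / t) ^ 2).toNNReal * D)
          (((t₀ / t) ^ 2).toNNReal * D) ∧
        KB ν (fun x y => w x y ^ θ) p b' ((t₀ / t).toNNReal * D) ((t₀ / t).toNNReal * D) := by
  have p0 : 0 ≤ p := zero_le_one.trans hp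
  set ρ' : ℝ≥0 := (max ρ (1 / 2)).toNNReal with hρ'
  have hρ'0 : 0 < max ρ (1 / 2) := lt_of_lt_of_le (by norm_num) (le_max_right _ _)
  have hρ'1 : max ρ (1 / 2) < 1 := max_lt hρ1 (by norm_num)
  set A : ℝ≥0 := max A₁ 1 with hA
  have hA1 : 1 ≤ A := le_max_right _ _
  obtain ⟨θ, hθ0, hθ1, hθ⟩ := exists_theta hρ'0 hρ'1 (A := (A : ℝ))
    (by exact_mod_cast lt_of_lt_of_le one_pos hA1)
  have hθ' : 0 ≤ 1 - θ := by linarith
  set q : ℝ≥0 := ρ' ^ (1 - θ) * A ^ θ with hq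
  have hq1 : q < 1 := by
    rw [← NNReal.coe_lt_coe, hq]
    push_cast
    rw [hρ', Real.coe_toNNReal _ hρ'0.le]
    exact hθ
  set w' : V N → V N → ℝ := fun x y => w x y ^ θ with hw'
  have hww : Wt w' := hw.rpow hθ0.le
  have hle : ∀ x y, w' x y ≤ w x y := fun x y => by
    have := Real.rpow_le_rpow_of_exponent_le (hw.one x y) hθ1.le
    rwa [Real.rpow_one] at this
  have hsa : ContinuousLinearMap.adjoint R₀ = R₀ := by
    refine ((ContinuousLinearMap.eq_adjoint_iff R₀ R₀).2 fun x y => ?_).symm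
    exact h₀.symm hG ht₀ x y
  set K : ℝ≥0 := ((2 ^ m) ^ 2 : ℝ≥0) with hK
  set K₁ : ℝ≥0 := max 1 (K ^ (1 - θ)) with hK₁
  -- the `L¹` bounds of the powers
  have n1 : ∀ j, NB ν 1 (nk w' (kp ν a j)) (K₁ * q ^ (j + 1)) := by
    intro j
    have h1 := nb_pow hw hp ha hR₀ hsa hρ0 hsup j
    have h2 : ((2 ^ m) ^ 2 * ρ ^ (j + 1)).toNNReal ≤ K * ρ' ^ (j + 1) := by
      rw [Real.toNNReal_le_iff_le_coe]
      push_cast
      rw [hK, hρ', Real.coe_toNNReal _ hρ'0.le]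
      push_cast
      gcongr
      exact le_max_left _ _
    have h3 : A₁ ^ (j + 1) ≤ A ^ (j + 1) := by
      gcongr
      exact le_max_left _ _
    have h4 := nb_interp hw (ha.kp hw hp j).meas (h1.mono_const zero_le_one h2)
      ((ha.kp hw hp j).n1.mono_const zero_le_one h3) hθ0.le hθ1.le
    rw [interp_const] at h4
    refine h4.mono_const zero_le_one ?_
    gcongr
    exact le_max_right _ _
  have hqj : ∀ j : ℕ, q ^ (j + 1) ≤ q ^ j := fun j =>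
    pow_le_pow_right_of_le_one' hq1.le (Nat.le_succ j)
  have hK₁1 : 1 ≤ K₁ := le_max_left _ _
  have hm' := hww.meas
  set M : ℝ≥0 := (max (max A₁ Ap) (max B₁ Bp) + 1) * K₁ with hM
  have hMA : Ap * K₁ ≤ M := by
    rw [hM]
    gcongr
    exact ((le_max_right _ _).trans (le_max_left _ _)).trans (le_add_of_nonneg_right zero_le)
  have hMB : Bp * K₁ ≤ M := by
    rw [hM]
    gcongr
    exact ((le_max_right _ _).trans (le_max_right _ _)).trans (le_add_of_nonneg_right zero_le)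
  have hMB1 : B₁ * K₁ ≤ M := by
    rw [hM]
    gcongr
    exact ((le_max_left _ _).trans (le_max_right _ _)).trans (le_add_of_nonneg_right zero_le)
  have hMK : K₁ ≤ M := by
    rw [hM]
    exact le_mul_of_one_le_left zero_le (le_add_of_nonneg_left zero_le)
  have ha' : KB ν w' p a A₁ Ap := ha.weight p0 hle
  have hb' : KB ν w' p b B₁ Bp := hb.weight p0 hle
  -- the bounds of the powers
  have kpb : ∀ j, KB ν w' p (kp ν a j) (M * q ^ j) (M * q ^ j) := by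
    intro j
    refine ⟨(ha.kp hw hp j).meas, (n1 j).mono_const zero_le_one ?_, ?_⟩
    · exact mul_le_mul hMK (hqj j) zero_le zero_le
    · cases j with
      | zero =>
        refine ha'.np.mono_const p0 ?_
        rw [pow_zero, mul_one]
        exact (le_mul_of_one_le_right zero_le hK₁1).trans hMA
      | succ j =>
        have h5 : KB ν w' p (kp ν a j) (K₁ * q ^ (j + 1)) (A₁ ^ j * Ap) :=
          ⟨(ha.kp hw hp j).meas, n1 j, ((ha.kp hw hp j).weight p0 hle).np⟩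
        have h6 := (h5.comp hww hp ha').np
        refine h6.mono_const p0 ?_
        calc K₁ * q ^ (j + 1) * Ap = (Ap * K₁) * q ^ (j + 1) := by ring
          _ ≤ M * q ^ (j + 1) := by gcongr
  have kqb : ∀ j, KB ν w' p (kq ν b a j) (M * q ^ j) (M * q ^ j) := by
    intro j
    cases j with
    | zero =>
      refine hb'.mono p0 ?_ ?_
      · rw [pow_zero, mul_one]
        exact (le_mul_of_one_le_right zero_le hK₁1).trans hMB1
      · rw [pow_zero, mul_one]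
        exact (le_mul_of_one_le_right zero_le hK₁1).trans hMB
    | succ j =>
      have h5 : KB ν w' p (kp ν a j) (K₁ * q ^ (j + 1)) (A₁ ^ j * Ap) :=
        ⟨(ha.kp hw hp j).meas, n1 j, ((ha.kp hw hp j).weight p0 hle).np⟩
      have h6 := hb'.comp' hww hp h5
      refine h6.mono p0 ?_ ?_
      · calc B₁ * (K₁ * q ^ (j + 1)) = (B₁ * K₁) * q ^ (j + 1) := by ring
          _ ≤ M * q ^ (j + 1) := by gcongr
      · calc Bp * (K₁ * q ^ (j + 1)) = (Bp * K₁) * q ^ (j + 1) := by ring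
          _ ≤ M * q ^ (j + 1) := by gcongr
  refine ⟨θ, hθ0, hθ1.le, M / (1 - q), fun t ht R B hRB => ?_⟩
  obtain ⟨s1, s2⟩ := h₀.series hG ht₀ ht hRB
  have ht' : 0 < t := ht₀.trans_le ht
  have hs0 : 0 ≤ t₀ / t := (div_pos ht₀ ht').le
  have hs1 : t₀ / t ≤ 1 := (div_le_one ht').2 ht
  have hθ2 : 0 ≤ 1 - (t₀ / t) ^ 2 := by nlinarith
  have hθ3 : 1 - (t₀ / t) ^ 2 ≤ 1 := by nlinarith
  have c1 : ∀ j : ℕ, ‖(((t₀ / t) ^ 2 * (1 - (t₀ / t) ^ 2) ^ j : ℝ) : ℂ)‖₊ ≤ ((t₀ / t) ^ 2).toNNReal := by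
    intro j
    rw [← NNReal.coe_le_coe, coe_nnnorm, Complex.norm_real, Real.norm_eq_abs,
      abs_of_nonneg (mul_nonneg (sq_nonneg _) (pow_nonneg hθ2 _)),
      Real.coe_toNNReal _ (sq_nonneg _)]
    exact mul_le_of_le_one_right (sq_nonneg _) (pow_le_one₀ hθ2 hθ3)
  have c2 : ∀ j : ℕ, ‖(((t₀ / t) * (1 - (t₀ / t) ^ 2) ^ j : ℝ) : ℂ)‖₊ ≤ (t₀ / t).toNNReal := by
    intro j
    rw [← NNReal.coe_le_coe, coe_nnnorm, Complex.norm_real, Real.norm_eq_abs,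
      abs_of_nonneg (mul_nonneg hs0 (pow_nonneg hθ2 _)), Real.coe_toNNReal _ hs0]
    exact mul_le_of_le_one_right hs0 (pow_le_one₀ hθ2 hθ3)
  obtain ⟨a', h1, h2⟩ := ker_tsum hww hp hq1 kpb (fun j => isKer_kp hw hp ha hR₀ j) c1 s1
  obtain ⟨b', h3, h4⟩ := ker_tsum hww hp hq1 kqb
    (fun j => isKer_kq hw hp ha hb hR₀ hB₀ j) c2 s2
  exact ⟨a', b', h1, h3, h2, h4⟩

end Pool.Agent.Lib.MP_df705a_gt.SV
end
end

section

/-!
# SV, O6: equivariance
-/

open scoped ENNReal NNReal Topology InnerProductSpace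
open MeasureTheory Filter Set

noncomputable section

namespace Pool.Agent.Lib.MP_df705a_gt.SV

variable {V E : Type*} [MeasurableSpace V] {μ : Measure V} [NormedAddCommGroup E]
  [InnerProductSpace ℂ E]

variable {S T : Lp E 2 μ →L[ℂ] Lp E 2 μ} {k l : V → V → E →L[ℂ] E} {c d : ℝ≥0}

/-- The conjugated kernel is bounded. -/
private theorem O6_KB1 {Φ Φ' : V → V}
    (hΦ : MeasurePreserving Φ μ μ) (hΦ' : MeasurePreserving Φ' μ μ)
    (hinv : ∀ x, Φ (Φ' x) = x) (hinv' : ∀ x, Φ' (Φ x) = x) {U U' : V → E →L[ℂ] E}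
    (hU : StronglyMeasurable U) (hU' : StronglyMeasurable U') {C : ℝ≥0}
    (h3 : ∀ x, ‖U x‖ₑ ≤ C) (h4 : ∀ x, ‖U' x‖ₑ ≤ C) (hk : KB1 μ k c) :
    KB1 μ (fun x y => U' x * k (Φ x) (Φ y) * U y) (C * C * c) := by
  have hb : ∀ x y, ‖U' x * k (Φ x) (Φ y) * U y‖ₑ ≤ (C : ℝ≥0∞) * C * ‖k (Φ x) (Φ y)‖ₑ := by
    intro x y
    calc ‖U' x * k (Φ x) (Φ y) * U y‖ₑ ≤ ‖U' x‖ₑ * ‖k (Φ x) (Φ y)‖ₑ * ‖U y‖ₑ := by
          simp only [enorm_eq_nnnorm]
          exact_mod_cast (nnnorm_mul_le _ _).trans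
            (mul_le_mul_left (nnnorm_mul_le _ _) _)
      _ ≤ C * ‖k (Φ x) (Φ y)‖ₑ * C := by
          gcongr
          · exact h4 x
          · exact h3 y
      _ = (C : ℝ≥0∞) * C * ‖k (Φ x) (Φ y)‖ₑ := by ring
  have he : MeasurableEmbedding Φ := by
    have : Φ = ((⟨⟨Φ, Φ', hinv', hinv⟩, hΦ.measurable, hΦ'.measurable⟩ : V ≃ᵐ V) : V → V) := rfl
    rw [this]
    exact MeasurableEquiv.measurableEmbedding _
  have hm : Measurable fun q : V × V => ‖k q.1 q.2‖ₑ := hk.meas.enorm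
  refine ⟨?_, ?_, ?_⟩
  · have h1 : StronglyMeasurable fun q : V × V => k (Φ q.1) (Φ q.2) :=
      hk.meas.comp_measurable ((hΦ.measurable.comp measurable_fst).prodMk
        (hΦ.measurable.comp measurable_snd))
    exact ((hU'.comp_measurable measurable_fst).mul h1).mul (hU.comp_measurable measurable_snd)
  · have h1 := hΦ.quasiMeasurePreserving.ae hk.n1.1
    filter_upwards [h1] with x hx
    simp only [ENNReal.rpow_one] at hx ⊢
    calc ∫⁻ y, ‖U' x * k (Φ x) (Φ y) * U y‖ₑ ∂μ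
        ≤ ∫⁻ y, (C : ℝ≥0∞) * C * ‖k (Φ x) (Φ y)‖ₑ ∂μ := lintegral_mono fun y => hb x y
      _ = (C : ℝ≥0∞) * C * ∫⁻ y, ‖k (Φ x) (Φ y)‖ₑ ∂μ := by
          rw [lintegral_const_mul']
          exact ENNReal.mul_ne_top ENNReal.coe_ne_top ENNReal.coe_ne_top
      _ = (C : ℝ≥0∞) * C * ∫⁻ y, ‖k (Φ x) y‖ₑ ∂μ := by
          rw [hΦ.lintegral_comp_emb he fun y => ‖k (Φ x) y‖ₑ]
      _ ≤ (C : ℝ≥0∞) * C * c := by gcongr
      _ = ((C * C * c : ℝ≥0) : ℝ≥0∞) := by push_cast; rfl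
  · have h1 := hΦ.quasiMeasurePreserving.ae hk.n1.2
    filter_upwards [h1] with y hy
    simp only [ENNReal.rpow_one] at hy ⊢
    calc ∫⁻ x, ‖U' x * k (Φ x) (Φ y) * U y‖ₑ ∂μ
        ≤ ∫⁻ x, (C : ℝ≥0∞) * C * ‖k (Φ x) (Φ y)‖ₑ ∂μ := lintegral_mono fun x => hb x y
      _ = (C : ℝ≥0∞) * C * ∫⁻ x, ‖k (Φ x) (Φ y)‖ₑ ∂μ := by
          rw [lintegral_const_mul']
          exact ENNReal.mul_ne_top ENNReal.coe_ne_top ENNReal.coe_ne_top
      _ = (C : ℝ≥0∞) * C * ∫⁻ x, ‖k x (Φ y)‖ₑ ∂μ := by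
          rw [hΦ.lintegral_comp_emb he fun x => ‖k x (Φ y)‖ₑ]
      _ ≤ (C : ℝ≥0∞) * C * c := by gcongr
      _ = ((C * C * c : ℝ≥0) : ℝ≥0∞) := by push_cast; rfl

/-- Equivariance of the kernel of an operator which commutes with `(W u)(z) = U(Φ' z) u(Φ' z)`.
PROOF. `(W⁻¹ v)(x) = U'(x) v(Φ x)`. `T = W⁻¹ T W`, so
`(T u)(x) = U'(x) (T W u)(Φ x) = U'(x) ∫ k(Φ x, z) U(Φ' z) u(Φ' z) dz = ∫ U'(x) k(Φ x, Φ y) U(y) u(y) dy` (measure
preserving), for almost all `x` (`Φ` is quasi measure preserving). So `U'(x) k(Φ x, Φ y) U(y)` is a kernel of `T`, with `KB1`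
bound `C² c`; `IsKer.unique`. -/
theorem IsKer.equivariant [MeasurableSpace.CountablyGenerated V] [SigmaFinite μ]
    [FiniteDimensional ℂ E] {W : Lp E 2 μ →L[ℂ] Lp E 2 μ} {Φ Φ' : V → V}
    (hΦ : MeasurePreserving Φ μ μ) (hΦ' : MeasurePreserving Φ' μ μ)
    (hinv : ∀ x, Φ (Φ' x) = x) (hinv' : ∀ x, Φ' (Φ x) = x) {U U' : V → E →L[ℂ] E}
    (hU : StronglyMeasurable U) (hU' : StronglyMeasurable U') (h1 : ∀ x, U x * U' x = 1)
    (h2 : ∀ x, U' x * U x = 1) {C : ℝ} (h3 : ∀ x, ‖U x‖ ≤ C) (h4 : ∀ x, ‖U' x‖ ≤ C)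
    (hW : ∀ u : Lp E 2 μ, W u =ᵐ[μ] fun z => U (Φ' z) (u (Φ' z)))
    (hWT : W * T = T * W) (h : IsKer μ T k) (hk : KB1 μ k c) :
    ∀ᵐ q ∂μ.prod μ, k (Φ q.1) (Φ q.2) = U q.1 * k q.1 q.2 * U' q.2 := by
  have : CompleteSpace E := FiniteDimensional.complete ℂ E
  have h3' : ∀ x, ‖U x‖ₑ ≤ (C.toNNReal : ℝ≥0∞) := by
    intro x
    rw [enorm_eq_nnnorm, ENNReal.coe_le_coe]
    exact NNReal.le_toNNReal_of_coe_le (h3 x)
  have h4' : ∀ x, ‖U' x‖ₑ ≤ (C.toNNReal : ℝ≥0∞) := by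
    intro x
    rw [enorm_eq_nnnorm, ENNReal.coe_le_coe]
    exact NNReal.le_toNNReal_of_coe_le (h4 x)
  have hkb := O6_KB1 hΦ hΦ' hinv hinv' hU hU' h3' h4' hk
  have he : MeasurableEmbedding Φ := by
    have : Φ = ((⟨⟨Φ, Φ', hinv', hinv⟩, hΦ.measurable, hΦ'.measurable⟩ : V ≃ᵐ V) : V → V) := rfl
    rw [this]
    exact MeasurableEquiv.measurableEmbedding _
  have hker : IsKer μ T (fun x y => U' x * k (Φ x) (Φ y) * U y) := by
    intro u
    have e1 : ∀ᵐ z ∂μ, U (Φ' z) ((T u) (Φ' z)) = ∫ y, k z y ((W u) y) ∂μ := by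
      have e2 := hW (T u)
      have e3 := h (W u)
      have e4 : T (W u) = W (T u) := by
        have := DFunLike.congr_fun hWT u
        simpa using this.symm
      rw [e4] at e3
      filter_upwards [e2, e3] with z h5 h6
      rw [← h6, h5]
    have e5 : ∀ z, ∫ y, k z y ((W u) y) ∂μ = ∫ y, k z (Φ y) (U y (u y)) ∂μ := by
      intro z
      have e6 : ∫ y, k z y ((W u) y) ∂μ = ∫ y, k z y (U (Φ' y) (u (Φ' y))) ∂μ := by
        refine integral_congr_ae ?_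
        filter_upwards [hW u] with y hy
        rw [hy]
      rw [e6, ← hΦ.integral_comp he fun y => k z y (U (Φ' y) (u (Φ' y)))]
      simp only [hinv']
    have e7 := hΦ.quasiMeasurePreserving.ae e1
    have e8 := hkb.ae_integrable u
    filter_upwards [e7, e8] with x hx hi
    rw [hinv', e5] at hx
    have e9 : U x (∫ y, (U' x * k (Φ x) (Φ y) * U y) (u y) ∂μ) = U x (T u x) := by
      rw [← ContinuousLinearMap.integral_comp_comm _ hi, hx]
      refine integral_congr_ae (Eventually.of_forall fun y => ?_)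
      have e10 : U x ((U' x * k (Φ x) (Φ y) * U y) (u y)) =
          (U x * U' x) (k (Φ x) (Φ y) (U y (u y))) := rfl
      simp only []
      rw [e10, h1]
      rfl
    have e11 := congrArg (U' x) e9
    have e12 : ∀ v : E, U' x (U x v) = v := fun v => by
      have : U' x (U x v) = (U' x * U x) v := rfl
      rw [this, h2]
      rfl
    rw [e12, e12] at e11
    exact e11.symm
  have huniq := IsKer.unique h hker hk hkb
  unfold KEq at huniq
  filter_upwards [huniq] with q hq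
  have e13 : U q.1 * k q.1 q.2 * U' q.2 =
      (U q.1 * U' q.1) * k (Φ q.1) (Φ q.2) * (U q.2 * U' q.2) := by
    rw [hq]
    simp only [mul_assoc]
  rw [e13, h1, h1, one_mul, mul_one]

end Pool.Agent.Lib.MP_df705a_gt.SV
end
end
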