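import Pool.Agent.Lib.MP_df705a_gt.Mg.G086
import Pool.Agent.Lib.MP_df705a_gt.Mg.G036
import Pool.Agent.Lib.MP_df705a_gt.Mg.G075
import Pool.Agent.Lib.MP_df705a_gt.Mg.G074
import Pool.Agent.Lib.MP_df705a_gt.Mg.G081
import Pool.Agent.Lib.MP_df705a_gt.Mg.G089

section

/-!
# SV, P2: the truncated inequality of Lichnerowicz for test functions
-/

open scoped ContDiff InnerProductSpace Matrix ENNReal
open MeasureTheory

noncomputable section

namespace Pool.Agent.Lib.MP_df705a_gt.SV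

open Pool.Agent.Lib.MP_df705a_gt.RL

variable {m : ℕ}

/-- Admissible truncation functions. -/
structure IsThe (θ : ℝ → ℝ) (K : ℝ) : Prop where
  smooth : ContDiff ℝ ∞ θ
  nonneg : ∀ r, 0 ≤ θ r
  le_one : ∀ r, θ r ≤ 1
  dnonneg : ∀ r, 0 ≤ deriv θ r
  dbdd : ∀ r, 0 ≤ r → r * deriv θ r ≤ K

/-- The truncation factor. -/
def trf (θ : ℝ → ℝ) (φ : V (2 * m) → Sp m) (y : V (2 * m)) : ℝ := θ (‖φ y‖ ^ 2)

theorem contDiff_trf {θ : ℝ → ℝ} {K : ℝ} (hθ : IsThe θ K) {φ : V (2 * m) → Sp m}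
    (hφ : ContDiff ℝ ∞ φ) : ContDiff ℝ ∞ (trf θ φ) :=
  hθ.smooth.comp (hφ.norm_sq ℂ)

theorem isTF_trf {θ : ℝ → ℝ} {K : ℝ} (hθ : IsThe θ K) {φ : V (2 * m) → Sp m}
    (hφ : IsTF φ) : IsTF fun y => (trf θ φ y : ℂ) • φ y :=
  hφ.mulr (contDiff_trf hθ hφ.1)

/-- The derivative of the truncation factor. -/
theorem frame_trf (C : Cliff m) (g : Geo (2 * m)) (B : Pot (2 * m)) {θ : ℝ → ℝ} {K : ℝ}
    (hθ : IsThe θ K) {φ : V (2 * m) → Sp m} (hφ : Differentiable ℝ φ) (a : Fin (2 * m))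
    (y : V (2 * m)) :
    ∑ μ, g.e y μ a * pd μ (trf θ φ) y
      = 2 * deriv θ (‖φ y‖ ^ 2) * RCLike.re ⟪C.nabE g B a φ y, φ y⟫_ℂ := by
  have h1 : ∀ μ, pd μ (trf θ φ) y = deriv θ (‖φ y‖ ^ 2) * pd μ (fun y => ‖φ y‖ ^ 2) y := by
    intro μ
    have hd : DifferentiableAt ℝ (fun y => ‖φ y‖ ^ 2) y := (hφ y).norm_sq ℂ
    have ht : HasDerivAt θ (deriv θ (‖φ y‖ ^ 2)) (‖φ y‖ ^ 2) :=
      (hθ.smooth.differentiable (by simp) _).hasDerivAt
    have h2 := ht.comp_hasFDerivAt y hd.hasFDerivAt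
    unfold pd
    have h3 : fderiv ℝ (trf θ φ) y = deriv θ (‖φ y‖ ^ 2) • fderiv ℝ (fun y => ‖φ y‖ ^ 2) y :=
      h2.fderiv
    rw [h3]
    rfl
  have h4 := frame_normSq C g B hφ a y
  calc ∑ μ, g.e y μ a * pd μ (trf θ φ) y
      = deriv θ (‖φ y‖ ^ 2) * ∑ μ, g.e y μ a * pd μ (fun y => ‖φ y‖ ^ 2) y := by
        rw [Finset.mul_sum]
        refine Finset.sum_congr rfl fun μ _ => ?_
        rw [h1]
        ring
    _ = _ := by
        rw [h4]
        ring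

theorem p2_re (r : ℝ) (z : ℂ) : RCLike.re ((r : ℂ) * z) = r * RCLike.re z := by simp

/-- The pointwise identity behind the inequality of Kato. -/
theorem re_nabE_trf (C : Cliff m) (g : Geo (2 * m)) (B : Pot (2 * m)) {θ : ℝ → ℝ} {K : ℝ}
    (hθ : IsThe θ K) {φ : V (2 * m) → Sp m} (hφ : ContDiff ℝ ∞ φ) (a : Fin (2 * m))
    (y : V (2 * m)) :
    RCLike.re ⟪C.nabE g B a φ y, C.nabE g B a (fun y => (trf θ φ y : ℂ) • φ y) y⟫_ℂ
      = trf θ φ y * ‖C.nabE g B a φ y‖ ^ 2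
        + 2 * deriv θ (‖φ y‖ ^ 2) * (RCLike.re ⟪C.nabE g B a φ y, φ y⟫_ℂ) ^ 2 := by
  have hd := hφ.differentiable (by simp)
  rw [nabE_mulr C g B hd ((contDiff_trf hθ hφ).differentiable (by simp)), inner_add_right,
    inner_smul_right, inner_smul_right, map_add, frame_trf C g B hθ hd]
  rw [p2_re, p2_re, inner_self_eq_norm_sq]
  ring

/-- The truncated inequality of Lichnerowicz. -/
theorem lich_trf (C : Cliff m) (g : Geo (2 * m)) {B : Pot (2 * m)} (hB : IsPot B) {σ : ℝ}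
    (hσ : ∀ y, σ ≤ g.scal y / 4 - (1 / 2) * ∑ a, ∑ b, |g.fr (dPot B) y a b|)
    {θ : ℝ → ℝ} {K : ℝ} (hθ : IsThe θ K) {φ : V (2 * m) → Sp m} (hφ : IsTF φ) :
    σ * ∫ y, trf θ φ y * ‖φ y‖ ^ 2 ∂g.vol
      ≤ RCLike.re ⟪g.emb (C.dirac g B φ),
          g.emb (C.dirac g B fun y => (trf θ φ y : ℂ) • φ y)⟫_ℂ := by
  have hψ := isTF_trf hθ hφ
  have hn := fun a => isTF_nabE C g hB a hφ
  have hn' := fun a => isTF_nabE C g hB a hψ
  rw [inner_dirac_dirac C g hB hφ hψ, map_add, map_sum]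
  have h1 : ∀ a, 0 ≤ RCLike.re (∫ y, ⟪C.nabE g B a φ y,
      C.nabE g B a (fun y => (trf θ φ y : ℂ) • φ y) y⟫_ℂ ∂g.vol) := by
    intro a
    rw [← integral_re (Y5_int g (hn a) (hn' a).1.continuous)]
    refine integral_nonneg fun y => ?_
    show 0 ≤ RCLike.re ⟪C.nabE g B a φ y, C.nabE g B a (fun y => (trf θ φ y : ℂ) • φ y) y⟫_ℂ
    rw [re_nabE_trf C g B hθ hφ.1]
    have h2 := hθ.nonneg (‖φ y‖ ^ 2)
    have h3 := hθ.dnonneg (‖φ y‖ ^ 2)
    unfold trf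
    positivity
  have h4 : σ * ∫ y, trf θ φ y * ‖φ y‖ ^ 2 ∂g.vol
      ≤ RCLike.re (∫ y, ⟪φ y, lichG C g B (fun y => (trf θ φ y : ℂ) • φ y) y⟫_ℂ ∂g.vol) := by
    rw [← integral_re (Y5_int g hφ (continuous_lichG C g hB hψ)), ← integral_const_mul]
    refine integral_mono ?_ (Y5_int g hφ (continuous_lichG C g hB hψ)).re fun y => ?_
    · refine (continuous_const.mul ((contDiff_trf hθ hφ.1).continuous.mul
        (hφ.1.continuous.norm.pow 2))).integrable_of_hasCompactSupport ?_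
      refine hφ.2.mono fun y hy => ?_
      rw [Function.mem_support] at hy ⊢
      intro h
      exact hy (by simp [h])
    · show σ * (trf θ φ y * ‖φ y‖ ^ 2)
        ≤ RCLike.re ⟪φ y, lichG C g B (fun y => (trf θ φ y : ℂ) • φ y) y⟫_ℂ
      have e1 : lichG C g B (fun y => (trf θ φ y : ℂ) • φ y) y
          = (trf θ φ y : ℂ) • lichG C g B φ y := by
        unfold lichG
        rw [map_smul, smul_add, smul_comm]
      rw [e1, inner_smul_right, p2_re]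
      have h5 := Y5_alg (φ y) (C.curvB g B y) (g.scal y / 4) (lichG C g B φ y) rfl
        (norm_curvB_le C g B y)
      have h6 := hσ y
      have h7 : σ * ‖φ y‖ ^ 2 ≤ RCLike.re ⟪φ y, lichG C g B φ y⟫_ℂ :=
        (mul_le_mul_of_nonneg_right h6 (by positivity)).trans h5
      have h8 : 0 ≤ trf θ φ y := hθ.nonneg _
      calc σ * (trf θ φ y * ‖φ y‖ ^ 2) = trf θ φ y * (σ * ‖φ y‖ ^ 2) := by ring
        _ ≤ _ := mul_le_mul_of_nonneg_left h7 h8
  exact h4.trans (le_add_of_nonneg_left (Finset.sum_nonneg fun a _ => h1 a))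

/-- The gradient term is bounded by the Dirac operator. -/
theorem sum_nabE_le (C : Cliff m) (g : Geo (2 * m)) {B : Pot (2 * m)} (hB : IsPot B)
    (hσ : ∀ y, 0 ≤ g.scal y / 4 - (1 / 2) * ∑ a, ∑ b, |g.fr (dPot B) y a b|)
    {φ : V (2 * m) → Sp m} (hφ : IsTF φ) :
    ∑ a, ∫ y, ‖C.nabE g B a φ y‖ ^ 2 ∂g.vol ≤ ‖g.emb (C.dirac g B φ)‖ ^ 2 := by
  have hn := fun a => isTF_nabE C g hB a hφ
  have h0 : ‖g.emb (C.dirac g B φ)‖ ^ 2
      = RCLike.re ⟪g.emb (C.dirac g B φ), g.emb (C.dirac g B φ)⟫_ℂ :=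
    (inner_self_eq_norm_sq (𝕜 := ℂ) _).symm
  rw [h0, inner_dirac_dirac C g hB hφ hφ, map_add, map_sum]
  have h1 : ∀ a, RCLike.re (∫ y, ⟪C.nabE g B a φ y, C.nabE g B a φ y⟫_ℂ ∂g.vol)
      = ∫ y, ‖C.nabE g B a φ y‖ ^ 2 ∂g.vol := by
    intro a
    rw [← integral_re (Y5_int g (hn a) (hn a).1.continuous)]
    refine integral_congr_ae (Filter.Eventually.of_forall fun y => ?_)
    exact inner_self_eq_norm_sq (𝕜 := ℂ) _
  have h4 : 0 ≤ RCLike.re (∫ y, ⟪φ y, lichG C g B φ y⟫_ℂ ∂g.vol) := by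
    rw [← integral_re (Y5_int g hφ (continuous_lichG C g hB hφ))]
    refine integral_nonneg fun y => ?_
    have h5 := Y5_alg (φ y) (C.curvB g B y) (g.scal y / 4) (lichG C g B φ y) rfl
      (norm_curvB_le C g B y)
    exact (mul_nonneg (hσ y) (by positivity)).trans h5
  rw [Finset.sum_congr rfl fun a _ => h1 a]
  linarith

/-- The norm of the Dirac operator applied to the truncated function. -/
theorem norm_dirac_trf (C : Cliff m) (g : Geo (2 * m)) {B : Pot (2 * m)} (hB : IsPot B)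
    (hσ : ∀ y, 0 ≤ g.scal y / 4 - (1 / 2) * ∑ a, ∑ b, |g.fr (dPot B) y a b|)
    {θ : ℝ → ℝ} {K : ℝ} (hK : 0 ≤ K) (hθ : IsThe θ K) {φ : V (2 * m) → Sp m} (hφ : IsTF φ) :
    ‖g.emb (C.dirac g B fun y => (trf θ φ y : ℂ) • φ y)‖
      ≤ (1 + 2 * K) * ‖g.emb (C.dirac g B φ)‖ := by
  have hψ := isTF_trf hθ hφ
  have hD := isTF_dirac C g hB hφ
  have hDψ := isTF_dirac C g hB hψ
  have hθD : IsTF fun y => (trf θ φ y : ℂ) • C.dirac g B φ y := hD.mulr (contDiff_trf hθ hφ.1)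
  have hd := hφ.1.differentiable (by simp)
  have hR : IsTF ((C.dirac g B fun y => (trf θ φ y : ℂ) • φ y)
      - fun y => (trf θ φ y : ℂ) • C.dirac g B φ y) := hDψ.sub hθD
  have e1 : g.emb (C.dirac g B fun y => (trf θ φ y : ℂ) • φ y)
      = g.emb (fun y => (trf θ φ y : ℂ) • C.dirac g B φ y)
        + g.emb ((C.dirac g B fun y => (trf θ φ y : ℂ) • φ y)
          - fun y => (trf θ φ y : ℂ) • C.dirac g B φ y) := by
    rw [← g.emb_add (g.memLp_tf hθD) (g.memLp_tf hR)]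
    congr 1
    abel
  have h1 : ‖g.emb (fun y => (trf θ φ y : ℂ) • C.dirac g B φ y)‖ ≤ ‖g.emb (C.dirac g B φ)‖ := by
    refine (sq_le_sq₀ (norm_nonneg _) (norm_nonneg _)).1 ?_
    rw [g.norm_emb_sq (g.memLp_tf hθD), g.norm_emb_sq (g.memLp_tf hD)]
    refine integral_mono_of_nonneg (Filter.Eventually.of_forall fun y => by positivity) ?_
      (Filter.Eventually.of_forall fun y => ?_)
    · refine (hD.1.continuous.norm.pow 2).integrable_of_hasCompactSupport ?_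
      refine hD.2.mono fun y hy => ?_
      rw [Function.mem_support] at hy ⊢
      intro h
      exact hy (by simp [h])
    · show ‖(trf θ φ y : ℂ) • C.dirac g B φ y‖ ^ 2 ≤ ‖C.dirac g B φ y‖ ^ 2
      rw [norm_smul, mul_pow]
      have h2 : ‖((trf θ φ y : ℝ) : ℂ)‖ ≤ 1 := by
        rw [Complex.norm_real, Real.norm_eq_abs,
          abs_of_nonneg (show 0 ≤ trf θ φ y from hθ.nonneg _)]
        exact hθ.le_one _
      calc ‖((trf θ φ y : ℝ) : ℂ)‖ ^ 2 * ‖C.dirac g B φ y‖ ^ 2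
          ≤ 1 ^ 2 * ‖C.dirac g B φ y‖ ^ 2 := by gcongr
        _ = _ := by ring
  have h2 : ‖g.emb ((C.dirac g B fun y => (trf θ φ y : ℂ) • φ y)
      - fun y => (trf θ φ y : ℂ) • C.dirac g B φ y)‖ ≤ 2 * K * ‖g.emb (C.dirac g B φ)‖ := by
    refine (sq_le_sq₀ (norm_nonneg _) (by positivity)).1 ?_
    rw [g.norm_emb_sq (g.memLp_tf hR), mul_pow]
    have h3 := sum_nabE_le C g hB hσ hφ
    have hn := fun a => isTF_nabE C g hB a hφ
    have hint : ∀ a, Integrable (fun y => ‖C.nabE g B a φ y‖ ^ 2) g.vol := by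
      intro a
      refine ((hn a).1.continuous.norm.pow 2).integrable_of_hasCompactSupport ?_
      refine (hn a).2.mono fun y hy => ?_
      rw [Function.mem_support] at hy ⊢
      intro h
      exact hy (by simp [h])
    calc ∫ y, ‖((C.dirac g B fun y => (trf θ φ y : ℂ) • φ y)
          - fun y => (trf θ φ y : ℂ) • C.dirac g B φ y) y‖ ^ 2 ∂g.vol
        ≤ ∫ y, (2 * K) ^ 2 * ∑ a, ‖C.nabE g B a φ y‖ ^ 2 ∂g.vol := by
          refine integral_mono_of_nonneg (Filter.Eventually.of_forall fun y => by positivity)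
            ((integrable_finsetSum _ fun a _ => hint a).const_mul _)
            (Filter.Eventually.of_forall fun y => ?_)
          show ‖C.dirac g B (fun y => (trf θ φ y : ℂ) • φ y) y
            - (trf θ φ y : ℂ) • C.dirac g B φ y‖ ^ 2
            ≤ (2 * K) ^ 2 * ∑ a, ‖C.nabE g B a φ y‖ ^ 2
          rw [norm_dirac_mulr C g B hd ((contDiff_trf hθ hφ.1).differentiable (by simp)),
            Finset.sum_mul, Finset.mul_sum]
          refine Finset.sum_le_sum fun a _ => ?_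
          rw [frame_trf C g B hθ hd]
          have h4 : |RCLike.re ⟪C.nabE g B a φ y, φ y⟫_ℂ| ≤ ‖C.nabE g B a φ y‖ * ‖φ y‖ :=
            (RCLike.abs_re_le_norm _).trans (norm_inner_le_norm _ _)
          have h5 : (RCLike.re ⟪C.nabE g B a φ y, φ y⟫_ℂ) ^ 2
              ≤ (‖C.nabE g B a φ y‖ * ‖φ y‖) ^ 2 := by
            rw [← sq_abs]
            gcongr
          have h6 : 0 ≤ deriv θ (‖φ y‖ ^ 2) := hθ.dnonneg _
          have h7 : ‖φ y‖ ^ 2 * deriv θ (‖φ y‖ ^ 2) ≤ K := hθ.dbdd _ (by positivity)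
          have h8 : 0 ≤ ‖φ y‖ ^ 2 * deriv θ (‖φ y‖ ^ 2) := by positivity
          calc (2 * deriv θ (‖φ y‖ ^ 2) * RCLike.re ⟪C.nabE g B a φ y, φ y⟫_ℂ) ^ 2 * ‖φ y‖ ^ 2
              = 4 * deriv θ (‖φ y‖ ^ 2) ^ 2 * ‖φ y‖ ^ 2
                * (RCLike.re ⟪C.nabE g B a φ y, φ y⟫_ℂ) ^ 2 := by ring
            _ ≤ 4 * deriv θ (‖φ y‖ ^ 2) ^ 2 * ‖φ y‖ ^ 2
                * (‖C.nabE g B a φ y‖ * ‖φ y‖) ^ 2 := by gcongr
            _ = 4 * (‖φ y‖ ^ 2 * deriv θ (‖φ y‖ ^ 2)) ^ 2 * ‖C.nabE g B a φ y‖ ^ 2 := by ring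
            _ ≤ 4 * K ^ 2 * ‖C.nabE g B a φ y‖ ^ 2 := by gcongr
            _ = (2 * K) ^ 2 * ‖C.nabE g B a φ y‖ ^ 2 := by ring
      _ = (2 * K) ^ 2 * ∑ a, ∫ y, ‖C.nabE g B a φ y‖ ^ 2 ∂g.vol := by
          rw [integral_const_mul, integral_finsetSum _ fun a _ => hint a]
      _ ≤ (2 * K) ^ 2 * ‖g.emb (C.dirac g B φ)‖ ^ 2 := by gcongr
  rw [e1]
  calc _ ≤ _ := norm_add_le _ _
    _ ≤ ‖g.emb (C.dirac g B φ)‖ + 2 * K * ‖g.emb (C.dirac g B φ)‖ := add_le_add h1 h2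
    _ = _ := by ring

end Pool.Agent.Lib.MP_df705a_gt.SV
end
end

section

/-!
# SV, P3: the truncation as a Lipschitz map, a concrete truncation function
-/

open scoped ContDiff InnerProductSpace Matrix ENNReal NNReal Topology
open MeasureTheory Filter Set

noncomputable section

namespace Pool.Agent.Lib.MP_df705a_gt.SV

open Pool.Agent.Lib.MP_df705a_gt.RL

variable {m : ℕ}

/-- The truncation function which vanishes for `r ≤ k²` and is positive for `r > k²`. -/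
def theS (k : ℝ) (r : ℝ) : ℝ := Real.smoothTransition (r - k ^ 2)

theorem theS_zero {k r : ℝ} (h : r ≤ k ^ 2) : theS k r = 0 :=
  Real.smoothTransition.zero_of_nonpos (by linarith)

theorem theS_pos {k r : ℝ} (h : k ^ 2 < r) : 0 < theS k r :=
  Real.smoothTransition.pos_of_pos (by linarith)

theorem isThe_theS (k : ℝ) : ∃ K : ℝ, 0 ≤ K ∧ IsThe (theS k) K := by
  have hsm : ContDiff ℝ ∞ (theS k) :=
    Real.smoothTransition.contDiff.comp (contDiff_id.sub contDiff_const)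
  have hmono : Monotone (theS k) := fun a b hab =>
    Real.smoothTransition.monotone (by linarith)
  have hd : ∀ r, 0 ≤ deriv (theS k) r := fun r => hmono.deriv_nonneg
  have hc : Continuous fun r => r * deriv (theS k) r :=
    continuous_id.mul (hsm.continuous_deriv (by simp))
  obtain ⟨K, hK⟩ := (isCompact_Icc (a := (0 : ℝ)) (b := k ^ 2 + 1)).exists_bound_of_continuousOn
    hc.continuousOn
  refine ⟨max K 0, le_max_right _ _, hsm, fun r => Real.smoothTransition.nonneg _,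
    fun r => Real.smoothTransition.le_one _, hd, fun r hr => ?_⟩
  by_cases h : r ≤ k ^ 2 + 1
  · exact (le_abs_self _).trans ((hK r ⟨hr, h⟩).trans (le_max_left _ _))
  · have h1 : theS k =ᶠ[𝓝 r] fun _ => 1 := by
      filter_upwards [lt_mem_nhds (not_le.1 h)] with x hx
      exact Real.smoothTransition.one_of_one_le (by linarith)
    have h2 : deriv (theS k) r = 0 := by
      rw [h1.deriv_eq]
      simp
    rw [h2, mul_zero]
    exact le_max_right _ _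

/-- The truncation as a map on the spinors. -/
def trM (θ : ℝ → ℝ) (x : Sp m) : Sp m := ((θ (‖x‖ ^ 2) : ℝ) : ℂ) • x

theorem trM_zero (θ : ℝ → ℝ) : trM θ (0 : Sp m) = 0 := smul_zero _

theorem lipschitz_trM {θ : ℝ → ℝ} {K : ℝ} (hK : 0 ≤ K) (hθ : IsThe θ K) :
    LipschitzWith (Real.toNNReal (1 + 2 * K)) (trM (m := m) θ) := by
  have hd : ∀ x : Sp m, HasFDerivAt (𝕜 := ℝ) (trM (m := m) θ)
      (θ (‖x‖ ^ 2) • ContinuousLinearMap.id ℝ (Sp m)
        + (deriv θ (‖x‖ ^ 2) • (fderiv ℝ (fun x : Sp m => ‖x‖ ^ 2) x)).smulRight x) x := by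
    intro x
    have hn : DifferentiableAt ℝ (fun x : Sp m => ‖x‖ ^ 2) x :=
      (differentiableAt_id (𝕜 := ℝ)).norm_sq ℂ
    have ht : HasDerivAt θ (deriv θ (‖x‖ ^ 2)) (‖x‖ ^ 2) :=
      (hθ.smooth.differentiable (by simp) _).hasDerivAt
    have h1 : HasFDerivAt (fun x : Sp m => θ (‖x‖ ^ 2))
        (deriv θ (‖x‖ ^ 2) • fderiv ℝ (fun x : Sp m => ‖x‖ ^ 2) x) x :=
      ht.comp_hasFDerivAt x hn.hasFDerivAt
    have h2 := h1.smul (hasFDerivAt_id (𝕜 := ℝ) x)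
    have h3 : (trM (m := m) θ) = fun x : Sp m => θ (‖x‖ ^ 2) • id x := by
      funext x
      exact Complex.coe_smul _ _
    rw [h3]
    exact h2
  refine lipschitzWith_of_nnnorm_fderiv_le (𝕜 := ℝ) (fun x => (hd x).differentiableAt) fun x => ?_
  rw [(hd x).fderiv, ← NNReal.coe_le_coe, coe_nnnorm, Real.coe_toNNReal _ (by positivity)]
  refine ContinuousLinearMap.opNorm_le_bound _ (by positivity) fun h => ?_
  have h4 : fderiv ℝ (fun x : Sp m => ‖x‖ ^ 2) x h = 2 * RCLike.re ⟪x, h⟫_ℂ := by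
    have h5 : HasFDerivAt (fun x : Sp m => ‖x‖ ^ 2)
        (2 • (innerSL ℝ x).comp (ContinuousLinearMap.id ℝ (Sp m))) x :=
      (hasFDerivAt_id (𝕜 := ℝ) x).norm_sq
    rw [h5.fderiv]
    have h6 := p1_re x h
    rw [← h6]
    simp
  show ‖θ (‖x‖ ^ 2) • h + (deriv θ (‖x‖ ^ 2) * fderiv ℝ (fun x : Sp m => ‖x‖ ^ 2) x h) • x‖ ≤ _
  rw [h4]
  have h7 : |RCLike.re ⟪x, h⟫_ℂ| ≤ ‖x‖ * ‖h‖ :=
    (RCLike.abs_re_le_norm _).trans (norm_inner_le_norm _ _)
  have h8 : 0 ≤ deriv θ (‖x‖ ^ 2) := hθ.dnonneg _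
  have h9 : ‖x‖ ^ 2 * deriv θ (‖x‖ ^ 2) ≤ K := hθ.dbdd _ (by positivity)
  calc _ ≤ ‖θ (‖x‖ ^ 2) • h‖ + ‖(deriv θ (‖x‖ ^ 2) * (2 * RCLike.re ⟪x, h⟫_ℂ)) • x‖ :=
        norm_add_le _ _
    _ = θ (‖x‖ ^ 2) * ‖h‖ + deriv θ (‖x‖ ^ 2) * (2 * |RCLike.re ⟪x, h⟫_ℂ|) * ‖x‖ := by
        rw [norm_smul, norm_smul, Real.norm_eq_abs, Real.norm_eq_abs, abs_of_nonneg (hθ.nonneg _),
          abs_mul, abs_mul, abs_of_nonneg h8, abs_two]
    _ ≤ 1 * ‖h‖ + deriv θ (‖x‖ ^ 2) * (2 * (‖x‖ * ‖h‖)) * ‖x‖ := by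
        gcongr
        exact hθ.le_one _
    _ = ‖h‖ + 2 * (‖x‖ ^ 2 * deriv θ (‖x‖ ^ 2)) * ‖h‖ := by ring
    _ ≤ ‖h‖ + 2 * K * ‖h‖ := by gcongr
    _ = (1 + 2 * K) * ‖h‖ := by ring

end Pool.Agent.Lib.MP_df705a_gt.SV
end
end

section

/-!
# SV, Q8: the closure of the Dirac operator: symmetry, grading, isometries, multiplication
-/

open scoped ContDiff InnerProductSpace Matrix ENNReal NNReal Topology
open MeasureTheory Filter Set

set_option autoImplicit false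

noncomputable section

namespace Pool.Agent.Lib.MP_df705a_gt.SV

open Pool.Agent.Lib.MP_df705a_gt.RL

section Abstract

variable {H : Type*} [NormedAddCommGroup H] [InnerProductSpace ℂ H]

theorem symRel_closure {G : Submodule ℂ (H × H)} (h : SymRel G) :
    SymRel G.topologicalClosure := by
  have h1 : ∀ q ∈ G, ∀ p ∈ G.topologicalClosure, ⟪p.1, q.2⟫_ℂ = ⟪p.2, q.1⟫_ℂ := by
    intro q hq p hp
    have hc : IsClosed {p : H × H | ⟪p.1, q.2⟫_ℂ = ⟪p.2, q.1⟫_ℂ} :=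
      isClosed_eq (continuous_fst.inner continuous_const) (continuous_snd.inner continuous_const)
    have h2 : closure (G : Set (H × H)) ⊆ {p : H × H | ⟪p.1, q.2⟫_ℂ = ⟪p.2, q.1⟫_ℂ} :=
      hc.closure_subset_iff.2 fun p hp => h p hp q hq
    exact h2 (by rw [← Submodule.topologicalClosure_coe]; exact hp)
  intro p hp q hq
  have hc : IsClosed {q : H × H | ⟪p.1, q.2⟫_ℂ = ⟪p.2, q.1⟫_ℂ} :=
    isClosed_eq (continuous_const.inner continuous_snd) (continuous_const.inner continuous_fst)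
  have h2 : closure (G : Set (H × H)) ⊆ {q : H × H | ⟪p.1, q.2⟫_ℂ = ⟪p.2, q.1⟫_ℂ} :=
    hc.closure_subset_iff.2 fun q hq => h1 q hq p hp
  exact h2 (by rw [← Submodule.topologicalClosure_coe]; exact hq)

theorem closure_map {G : Submodule ℂ (H × H)} {L : H × H → H × H} (hL : Continuous L)
    (h : ∀ p ∈ G, L p ∈ G) : ∀ p ∈ G.topologicalClosure, L p ∈ G.topologicalClosure := by
  intro p hp
  have h1 : p ∈ closure (G : Set (H × H)) := by
    rw [← Submodule.topologicalClosure_coe]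
    exact hp
  have h2 := map_mem_closure hL h1 h
  rw [← Submodule.topologicalClosure_coe] at h2
  exact h2

theorem oddG_closure {G : Submodule ℂ (H × H)} {e : H →L[ℂ] H} (h : OddG G e) :
    OddG G.topologicalClosure e where
  sq := h.sq
  odd := closure_map (L := fun p => (e p.1, -(e p.2))) (by fun_prop) h.odd

end Abstract

variable {m : ℕ}

theorem isPot_zero : IsPot (0 : Pot (2 * m)) := fun _ => contDiff_const

theorem symRel_Gr (C : Cliff m) (g : Geo (2 * m)) {B : Pot (2 * m)} (hB : IsPot B) :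
    SymRel (C.Gr g B).topologicalClosure :=
  symRel_closure fun p hp q hq =>
    ((isOddSymm_Gr C g hB (κ := 1) (by norm_num)).symm p hp q hq).symm

theorem oddG_Gr (C : Cliff m) (g : Geo (2 * m)) {B : Pot (2 * m)} (hB : IsPot B) :
    OddG (C.Gr g B).topologicalClosure (C.Eps g 1) :=
  oddG_closure
    { sq := fun x => by
        have h := C.Eps_sq g (κ := 1) (by norm_num) C.eps_sq
        exact congrArg (fun T : g.L2 →L[ℂ] g.L2 => T x) h
      odd := (isOddSymm_Gr C g hB (κ := 1) (by norm_num)).odd }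

theorem Eps_coe (C : Cliff m) (g : Geo (2 * m)) (u : g.L2) :
    C.Eps g 1 u =ᵐ[g.vol] fun x => C.eps (u x) := by
  unfold Cliff.Eps
  refine (g.mulE_coe (BddM.const _) u).trans (Eventually.of_forall fun x => ?_)
  show (((1 : ℝ) : ℂ) • C.eps) (u x) = C.eps (u x)
  rw [Complex.ofReal_one, one_smul]

/-! ## Isometries -/

variable {G : Type*} [Group G]

/-- The lifts of the isometries and their unitary operators. -/
theorem exists_lifts (C : Cliff m) (g : Geo (2 * m)) (a : Act G (2 * m)) (ha : a.Iso g) :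
    ∃ U : G → V (2 * m) → En m, (∀ γ, ContDiff ℝ ∞ (U γ)) ∧
      IsLift U (fun γ x => adj (U γ x)) C.eps ∧ (∀ γ x, ‖U γ x‖ ≤ 1) ∧
      ∀ γ, ∃ W : g.L2 →L[ℂ] g.L2,
        (∀ u : g.L2, W u =ᵐ[g.vol] fun z => U γ (a.act γ⁻¹ z) (u (a.act γ⁻¹ z))) ∧
        (∀ p ∈ (C.Gr g 0).topologicalClosure, (W p.1, W p.2) ∈ (C.Gr g 0).topologicalClosure) ∧
        ∀ u, W (C.Eps g 1 u) = C.Eps g 1 (W u) := by
  have key : ∀ γ : G, ∃ U : V (2 * m) → En m,
      IsoData C g (a.act γ) (a.act γ⁻¹) U (fun _ => 0) := by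
    intro γ
    have hiso := isIsom_act ha γ
    have hiso' := isIsom_act ha γ⁻¹
    have hinv : ∀ y, a.act γ (a.act γ⁻¹ y) = y := fun y => by rw [← a.mul, mul_inv_cancel, a.one]
    have hinv' : ∀ y, a.act γ⁻¹ (a.act γ y) = y := fun y => by rw [← a.mul, inv_mul_cancel, a.one]
    obtain ⟨U, hU, hL⟩ := C.exists_smooth_lift (isRot_rotOf hiso)
    exact ⟨U, hiso, hiso', hinv, hinv', hU, hL, contDiff_const⟩
  choose U hD using key
  have hf : ∀ γ, fibU (U γ) (fun _ => 0) = U γ := by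
    intro γ
    funext y
    unfold fibU
    rw [Complex.ofReal_zero, mul_zero, Complex.exp_zero, one_smul]
  have h1 : ∀ γ x, adj (U γ x) * U γ x = 1 := fun γ x => ((hD γ).lift x).isom
  have h2 : ∀ γ x, U γ x * adj (U γ x) = 1 := fun γ x => ((hD γ).lift x).isom'
  refine ⟨U, fun γ => (hD γ).smoothU, ⟨h2, h1, fun γ x => ?_⟩, fun γ x => ?_, fun γ => ?_⟩
  · have h3 : C.eps * U γ x = U γ x * C.eps := ((hD γ).lift x).eps
    exact h3.symm
  · refine ContinuousLinearMap.opNorm_le_bound _ zero_le_one fun v => ?_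
    have h3 := (hD γ).norm_fibU x v
    rw [hf γ] at h3
    rw [h3, one_mul]
  · refine ⟨((hD γ).W : g.L2 →L[ℂ] g.L2), fun u => ?_, ?_, fun u => (hD γ).W_Eps 1 u⟩
    · have h3 := (hD γ).W_coe u
      rw [hf γ] at h3
      exact h3
    · refine closure_map (L := fun p : g.L2 × g.L2 => ((hD γ).W p.1, (hD γ).W p.2)) ?_ ?_
      · exact ((hD γ).W.continuous.comp continuous_fst).prodMk
          ((hD γ).W.continuous.comp continuous_snd)
      · intro p hp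
        obtain ⟨φ, hφ, rfl⟩ := (mem_Gr C g isPot_zero p).1 hp
        have h4 : ∀ μ y, (0 : Pot (2 * m)) μ y = pull1 (a.act γ) (0 : Pot (2 * m)) μ y
            + pd μ (fun _ : V (2 * m) => (0 : ℝ)) y := by
          intro μ y
          unfold pull1 pd
          simp
        refine (mem_Gr C g isPot_zero _).2 ⟨(hD γ).Wtf φ, (hD γ).isTF_Wtf hφ, ?_⟩
        show ((hD γ).W (g.emb φ), (hD γ).W (g.emb (C.dirac g 0 φ))) = _
        rw [(hD γ).W_emb hφ, (hD γ).W_emb (isTF_dirac C g isPot_zero hφ),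
          (hD γ).dirac_Wtf h4 hφ.1]

/-! ## Multiplication operators -/

theorem cd_smooth (C : Cliff m) (g : Geo (2 * m)) {ψ : V (2 * m) → ℝ} (hψ : ContDiff ℝ ∞ ψ) :
    ContDiff ℝ ∞ (cd C g ψ) := by
  unfold cd
  refine ContDiff.sum fun a _ => ?_
  have h1 : ContDiff ℝ ∞ fun x => ∑ μ, g.e x μ a * pd μ ψ x :=
    ContDiff.sum fun μ _ => (g.smooth_e μ a).mul (contDiff_pd hψ μ)
  have h2 : ContDiff ℝ ∞ fun x => ((∑ μ, g.e x μ a * pd μ ψ x : ℝ) : ℂ) :=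
    Complex.ofRealCLM.contDiff.comp h1
  exact h2.smul contDiff_const

theorem cd_bdd (C : Cliff m) (g : Geo (2 * m)) {ψ : V (2 * m) → ℝ} (hψ : ContDiff ℝ ∞ ψ)
    (hs : HasCompactSupport ψ) : BddM (cd C g ψ) := by
  have h1 := (cd_smooth C g hψ).continuous
  have h2 : HasCompactSupport (cd C g ψ) := by
    refine hs.mono' ?_
    intro x hx
    by_contra h3
    apply hx
    have h4 : ∀ μ, pd μ ψ x = 0 := by
      intro μ
      unfold pd
      have h5 : fderiv ℝ ψ x = 0 := by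
        by_contra h6
        exact h3 (support_fderiv_subset ℝ h6)
      rw [h5]
      rfl
    unfold cd
    refine Finset.sum_eq_zero fun a _ => ?_
    have h5 : (∑ μ, g.e x μ a * pd μ ψ x : ℝ) = 0 :=
      Finset.sum_eq_zero fun μ _ => by rw [h4, mul_zero]
    rw [h5, Complex.ofReal_zero]
    exact zero_smul ℂ (C.c a)
  obtain ⟨c, hc⟩ := h1.bounded_above_of_compact_support h2
  exact ⟨h1.stronglyMeasurable, c, hc⟩

theorem psi_bdd {ψ : V (2 * m) → ℝ} (hψ : ContDiff ℝ ∞ ψ) (hs : HasCompactSupport ψ) :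
    BddM fun x => (ψ x : ℂ) • (1 : En m) := by
  have h1 : Continuous fun x => (ψ x : ℂ) • (1 : En m) :=
    (Complex.continuous_ofReal.comp hψ.continuous).smul continuous_const
  have h2 : HasCompactSupport fun x => (ψ x : ℂ) • (1 : En m) := by
    refine hs.comp_left (g := fun r : ℝ => (r : ℂ) • (1 : En m)) ?_
    show ((0 : ℝ) : ℂ) • (1 : En m) = 0
    rw [Complex.ofReal_zero]
    exact zero_smul ℂ (1 : En m)
  obtain ⟨c, hc⟩ := h1.bounded_above_of_compact_support h2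
  exact ⟨h1.stronglyMeasurable, c, hc⟩

/-- `D (ψ u) = ψ D u + c(dψ) u` on the closure of the graph. -/
theorem mul_mem_closure (C : Cliff m) (g : Geo (2 * m)) {ψ : V (2 * m) → ℝ}
    (hψ : ContDiff ℝ ∞ ψ) (hs : HasCompactSupport ψ) :
    ∀ p ∈ (C.Gr g 0).topologicalClosure,
      (g.mulE (fun x => (ψ x : ℂ) • (1 : En m)) p.1,
        g.mulE (fun x => (ψ x : ℂ) • (1 : En m)) p.2 + g.mulE (cd C g ψ) p.1) ∈
      (C.Gr g 0).topologicalClosure := by
  refine closure_map (L := fun p : g.L2 × g.L2 => (g.mulE (fun x => (ψ x : ℂ) • (1 : En m)) p.1,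
        g.mulE (fun x => (ψ x : ℂ) • (1 : En m)) p.2 + g.mulE (cd C g ψ) p.1)) (by fun_prop) ?_
  intro p hp
  obtain ⟨φ, hφ, rfl⟩ := (mem_Gr C g isPot_zero p).1 hp
  have hb := psi_bdd (m := m) hψ hs
  have hc := cd_bdd C g hψ hs
  have hD := isTF_dirac C g isPot_zero hφ
  have h1 : IsTF fun y => (ψ y : ℂ) • φ y := hφ.mulr hψ
  refine (mem_Gr C g isPot_zero _).2 ⟨fun y => (ψ y : ℂ) • φ y, h1, ?_⟩
  have e1 : g.mulE (fun x => (ψ x : ℂ) • (1 : En m)) (g.emb φ) = g.emb fun y => (ψ y : ℂ) • φ y :=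
    g.mulE_emb hb (g.memLp_tf hφ)
  have e2 : g.mulE (fun x => (ψ x : ℂ) • (1 : En m)) (g.emb (C.dirac g 0 φ))
      = g.emb fun y => (ψ y : ℂ) • C.dirac g 0 φ y := g.mulE_emb hb (g.memLp_tf hD)
  have e3 : g.mulE (cd C g ψ) (g.emb φ) = g.emb fun y => cd C g ψ y (φ y) :=
    g.mulE_emb hc (g.memLp_tf hφ)
  have h2 : IsTF fun y => (ψ y : ℂ) • C.dirac g 0 φ y := hD.mulr hψ
  have h3 : IsTF fun y => cd C g ψ y (φ y) := hφ.mulA (cd_smooth C g hψ)
  have e4 : C.dirac g 0 (fun y => (ψ y : ℂ) • φ y)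
      = (fun y => (ψ y : ℂ) • C.dirac g 0 φ y) + fun y => cd C g ψ y (φ y) := by
    funext y
    rw [dirac_mulr C g 0 (hφ.1.differentiable (by simp)) (hψ.differentiable (by simp)),
      Pi.add_apply]
    congr 1
    unfold cd
    rw [sum_apply]
    rfl
  rw [e1, e2, e3, e4, g.emb_add (g.memLp_tf h2) (g.memLp_tf h3)]

theorem mul_Eps (C : Cliff m) (g : Geo (2 * m)) {ψ : V (2 * m) → ℝ}
    (hψ : ContDiff ℝ ∞ ψ) (hs : HasCompactSupport ψ) (u : g.L2) :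
    g.mulE (fun x => (ψ x : ℂ) • (1 : En m)) (C.Eps g 1 u)
      = C.Eps g 1 (g.mulE (fun x => (ψ x : ℂ) • (1 : En m)) u) := by
  refine Lp.ext ?_
  have hb := psi_bdd (m := m) hψ hs
  filter_upwards [g.mulE_coe hb (C.Eps g 1 u), Eps_coe C g u,
    Eps_coe C g (g.mulE (fun x => (ψ x : ℂ) • (1 : En m)) u), g.mulE_coe hb u] with x h1 h2 h3 h4
  rw [h1, h2, h3, h4]
  show (ψ x : ℂ) • C.eps (u x) = C.eps ((ψ x : ℂ) • u x)
  rw [map_smul]

end Pool.Agent.Lib.MP_df705a_gt.SV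
end
end

section

/-!
# SV, Q9: the algebraic identities of the kernels
-/

open scoped ContDiff InnerProductSpace Matrix ENNReal NNReal Topology
open MeasureTheory Filter Set

set_option autoImplicit false
set_option linter.unusedSectionVars false

noncomputable section

namespace Pool.Agent.Lib.MP_df705a_gt.SV

open Pool.Agent.Lib.MP_df705a_gt.RL

section KB1

variable {X E : Type*} [MeasurableSpace X] {μ : Measure X} [SigmaFinite μ]
  [NormedAddCommGroup E] [InnerProductSpace ℂ E] {k l : X → X → E →L[ℂ] E} {c d : ℝ≥0}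

theorem wt_one : Wt (fun _ _ : X => (1 : ℝ)) where
  meas := measurable_const
  one := fun _ _ => le_rfl
  sub := fun _ _ _ => by norm_num

theorem KB1.kb (h : KB1 μ k c) : KB μ (fun _ _ => (1 : ℝ)) 1 k c c := by
  have h1 : nk (fun _ _ => (1 : ℝ)) k = fun x y => ‖k x y‖ₑ := by
    funext x y
    unfold nk
    rw [ENNReal.ofReal_one, one_mul]
  refine ⟨h.meas, ?_, ?_⟩
  · rw [h1]
    exact h.n1
  · rw [h1]
    exact h.n1

theorem KB1.add (h : KB1 μ k c) (h' : KB1 μ l d) : KB1 μ (fun x y => k x y + l x y) (c + d) :=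
  (h.kb.add wt_one.meas le_rfl h'.kb).kb1 wt_one

theorem KB1.sub (h : KB1 μ k c) (h' : KB1 μ l d) : KB1 μ (fun x y => k x y - l x y) (c + d) :=
  (h.kb.sub wt_one.meas le_rfl h'.kb).kb1 wt_one

theorem KB1.smul (h : KB1 μ k c) (a : ℂ) : KB1 μ (fun x y => a • k x y) (‖a‖₊ * c) :=
  (h.kb.smul wt_one.meas zero_le_one a).kb1 wt_one

theorem KB1.cmul (h : KB1 μ k c) (e : E →L[ℂ] E) : KB1 μ (fun x y => e * k x y) (‖e‖₊ * c) :=
  (h.kb.const_mul wt_one.meas zero_le_one e).kb1 wt_one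

theorem KB1.mulc (h : KB1 μ k c) (e : E →L[ℂ] E) : KB1 μ (fun x y => k x y * e) (‖e‖₊ * c) :=
  (h.kb.mul_const wt_one.meas zero_le_one e).kb1 wt_one

theorem KB1.comp (h : KB1 μ k c) (h' : KB1 μ l d) : KB1 μ (SV.comp μ k l) (c * d) :=
  (h.kb.comp wt_one le_rfl h'.kb).kb1 wt_one

theorem KB1.fmul (h : KB1 μ k c) {f : X → E →L[ℂ] E} (hf : StronglyMeasurable f) {a : ℝ≥0}
    (ha : ∀ x, ‖f x‖ ≤ a) : KB1 μ (fun x y => f x * k x y) (a * c) :=
  (h.kb.fmul wt_one.meas zero_le_one hf a ha).kb1 wt_one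

theorem KB1.mulf (h : KB1 μ k c) {f : X → E →L[ℂ] E} (hf : StronglyMeasurable f) {a : ℝ≥0}
    (ha : ∀ x, ‖f x‖ ≤ a) : KB1 μ (fun x y => k x y * f y) (a * c) :=
  (h.kb.mulf wt_one.meas zero_le_one hf a ha).kb1 wt_one

end KB1

variable {m : ℕ} {C : Cliff m} {g : Geo (2 * m)} {t t' : ℝ} {R B R' B' : g.L2 →L[ℂ] g.L2}
  {ρ β ρ' β' : V (2 * m) → V (2 * m) → En m} {c d c' d' : ℝ≥0}

/-- The kernel of `r = ε R + B`. -/
def rk (C : Cliff m) (ρ β : V (2 * m) → V (2 * m) → En m) (x y : V (2 * m)) : En m :=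
  C.eps * ρ x y + β x y

theorem rk_kb1 (hρ : KB1 g.vol ρ c) (hβ : KB1 g.vol β d) :
    KB1 g.vol (rk C ρ β) (‖C.eps‖₊ * c + d) := (hρ.cmul C.eps).add hβ

theorem rk_isKer (hR : IsKer g.vol R ρ) (hB : IsKer g.vol B β) (hρ : KB1 g.vol ρ c)
    (hβ : KB1 g.vol β d) : IsKer g.vol (rr (C.Eps g 1) R B) (rk C ρ β) := by
  have h1 := hR.mulL (M := C.Eps g 1) (a := fun _ => C.eps) (fun u => Eps_coe C g u) hρ
  exact h1.add hB (hρ.cmul C.eps) hβ

theorem rk_sq (ht : 0 < t) (h : IsRes (C.Gr g 0).topologicalClosure t R B)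
    (hR : IsKer g.vol R ρ) (hB : IsKer g.vol B β) (hρ : KB1 g.vol ρ c) (hβ : KB1 g.vol β d) :
    KEq g.vol (comp g.vol (rk C ρ β) (rk C ρ β)) ρ := by
  have h1 := rk_isKer (C := C) hR hB hρ hβ
  have h2 := rk_kb1 (C := C) hρ hβ
  have h3 := h1.mul h1 h2 h2
  rw [h.rr_sq (symRel_Gr C g isPot_zero) ht (oddG_Gr C g isPot_zero)] at h3
  exact h3.unique hR (h2.comp h2) hρ

theorem rk_half (ht : 0 < t) (h : IsRes (C.Gr g 0).topologicalClosure t R B)
    (hR : IsKer g.vol R ρ) (hB : IsKer g.vol B β) (hρ : KB1 g.vol ρ c) (hβ : KB1 g.vol β d) :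
    KEq g.vol ρ (fun x y => (2⁻¹ : ℂ) • (C.eps * rk C ρ β x y + rk C ρ β x y * C.eps)) := by
  have h1 := rk_isKer (C := C) hR hB hρ hβ
  have h2 := rk_kb1 (C := C) hρ hβ
  have h3 := h1.mulL (M := C.Eps g 1) (a := fun _ => C.eps) (fun u => Eps_coe C g u) h2
  have h4 := h1.mulR (M := C.Eps g 1) (a := fun _ => C.eps) (fun u => Eps_coe C g u) h2
  have h5 := (h3.add h4 (h2.cmul C.eps) (h2.mulc C.eps)).smul (2⁻¹ : ℂ)
  rw [← h.rr_half (symRel_Gr C g isPot_zero) ht (oddG_Gr C g isPot_zero)] at h5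
  exact hR.unique h5 hρ (((h2.cmul C.eps).add (h2.mulc C.eps)).smul (2⁻¹ : ℂ))

theorem rk_res (ht : 0 < t) (ht' : 0 < t') (h : IsRes (C.Gr g 0).topologicalClosure t R B)
    (h' : IsRes (C.Gr g 0).topologicalClosure t' R' B') (hR : IsKer g.vol R ρ)
    (hB : IsKer g.vol B β) (hρ : KB1 g.vol ρ c) (hβ : KB1 g.vol β d) (hR' : IsKer g.vol R' ρ')
    (hB' : IsKer g.vol B' β') (hρ' : KB1 g.vol ρ' c') (hβ' : KB1 g.vol β' d') :
    KEq g.vol (fun x y => (t' : ℂ) • (rk C ρ β x y - rk C ρ' β' x y))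
      (fun x y => (t' - t : ℂ) • (rk C ρ β x y
        - comp g.vol (rk C ρ β) (fun x y => C.eps * rk C ρ' β' x y) x y)) := by
  have h1 := rk_isKer (C := C) hR hB hρ hβ
  have h2 := rk_kb1 (C := C) hρ hβ
  have h1' := rk_isKer (C := C) hR' hB' hρ' hβ'
  have h2' := rk_kb1 (C := C) hρ' hβ'
  have h3 := (h1.sub h1' h2 h2').smul (t' : ℂ)
  have h4 := h1'.mulL (M := C.Eps g 1) (a := fun _ => C.eps) (fun u => Eps_coe C g u) h2'
  have h5 := h1.mul h4 h2 (h2'.cmul C.eps)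
  have h6 := (h1.sub h5 h2 (h2.comp (h2'.cmul C.eps))).smul (t' - t : ℂ)
  rw [h.rr_res (symRel_Gr C g isPot_zero) ht ht' h' (oddG_Gr C g isPot_zero)] at h3
  exact h3.unique h6 ((h2.sub h2').smul (t' : ℂ))
    ((h2.sub (h2.comp (h2'.cmul C.eps))).smul (t' - t : ℂ))

theorem rk_comm (ht : 0 < t) (h : IsRes (C.Gr g 0).topologicalClosure t R B)
    (hR : IsKer g.vol R ρ) (hB : IsKer g.vol B β) (hρ : KB1 g.vol ρ c) (hβ : KB1 g.vol β d)
    {ψ : V (2 * m) → ℝ} (hψ : ContDiff ℝ ∞ ψ) (hs : HasCompactSupport ψ) :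
    KEq g.vol (fun x y => ((ψ x - ψ y : ℝ) : ℂ) • rk C ρ β x y)
      (fun x y => (t : ℂ) • comp g.vol (rk C ρ β) (fun x y => cd C g ψ x * rk C ρ β x y) x y) := by
  have h1 := rk_isKer (C := C) hR hB hρ hβ
  have h2 := rk_kb1 (C := C) hρ hβ
  have hb := psi_bdd (m := m) hψ hs
  have hc := cd_bdd C g hψ hs
  obtain ⟨b1, hb1⟩ := hb.2
  obtain ⟨c1, hc1⟩ := hc.2
  have hb2 : ∀ x, ‖(ψ x : ℂ) • (1 : En m)‖ ≤ b1.toNNReal := fun x => (hb1 x).trans (Real.le_coe_toNNReal _)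
  have hc2 : ∀ x, ‖cd C g ψ x‖ ≤ c1.toNNReal := fun x => (hc1 x).trans (Real.le_coe_toNNReal _)
  have h3 := h1.mulL (fun u => g.mulE_coe hb u) h2
  have h4 := h1.mulR (fun u => g.mulE_coe hb u) h2
  have h5 := h3.sub h4 (h2.fmul hb.1 hb2) (h2.mulf hb.1 hb2)
  have h6 := h1.mulL (fun u => g.mulE_coe hc u) h2
  have h7 := (h1.mul h6 h2 (h2.fmul hc.1 hc2)).smul (t : ℂ)
  rw [h.rr_comm (symRel_Gr C g isPot_zero) ht (oddG_Gr C g isPot_zero)
    (mul_mem_closure C g hψ hs) (mul_Eps C g hψ hs)] at h5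
  have h8 := h5.unique h7 ((h2.fmul hb.1 hb2).sub (h2.mulf hb.1 hb2))
    ((h2.comp (h2.fmul hc.1 hc2)).smul (t : ℂ))
  filter_upwards [h8] with q hq
  rw [← hq]
  have e1 : ∀ (z : ℂ) (A : En m), (z • (1 : En m)) * A = z • A := fun z A =>
    (smul_mul_assoc z (1 : En m) A).trans (congrArg _ (one_mul A))
  have e2 : ∀ (z : ℂ) (A : En m), A * (z • (1 : En m)) = z • A := fun z A =>
    (mul_smul_comm z A (1 : En m)).trans (congrArg _ (mul_one A))
  rw [e1, e2, Complex.ofReal_sub]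
  exact sub_smul (ψ q.1 : ℂ) (ψ q.2 : ℂ) (rk C ρ β q.1 q.2)

theorem rk_eqv {G : Type*} [Group G] {a : Act G (2 * m)} (ha : a.Iso g) {U : G → V (2 * m) → En m}
    (hU : ∀ γ, ContDiff ℝ ∞ (U γ)) (hL : IsLift U (fun γ x => adj (U γ x)) C.eps)
    (hU1 : ∀ γ x, ‖U γ x‖ ≤ 1)
    (hW : ∀ γ, ∃ W : g.L2 →L[ℂ] g.L2,
        (∀ u : g.L2, W u =ᵐ[g.vol] fun z => U γ (a.act γ⁻¹ z) (u (a.act γ⁻¹ z))) ∧
        (∀ p ∈ (C.Gr g 0).topologicalClosure, (W p.1, W p.2) ∈ (C.Gr g 0).topologicalClosure) ∧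
        ∀ u, W (C.Eps g 1 u) = C.Eps g 1 (W u)) (ht : 0 < t)
    (h : IsRes (C.Gr g 0).topologicalClosure t R B)
    (hR : IsKer g.vol R ρ) (hB : IsKer g.vol B β) (hρ : KB1 g.vol ρ c) (hβ : KB1 g.vol β d) :
    Eqv g.vol a.act U (fun γ x => adj (U γ x)) (rk C ρ β) := by
  intro γ
  have h1 := rk_isKer (C := C) hR hB hρ hβ
  have h2 := rk_kb1 (C := C) hρ hβ
  obtain ⟨W, w1, w2, w3⟩ := hW γ
  have hinv : ∀ y, a.act γ (a.act γ⁻¹ y) = y := fun y => by rw [← a.mul, mul_inv_cancel, a.one]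
  have hinv' : ∀ y, a.act γ⁻¹ (a.act γ y) = y := fun y => by rw [← a.mul, inv_mul_cancel, a.one]
  have mp := measurePreserving_of_isom (isIsom_act ha γ) hinv hinv'
  have mp' := measurePreserving_of_isom (isIsom_act ha γ⁻¹) hinv' hinv
  have hadj : ContDiff ℝ ∞ fun y => adj (U γ y) := contDiff_star' (A := En m) (hU γ)
  have m1 : StronglyMeasurable (U γ) := (hU γ).continuous.stronglyMeasurable
  have m2 : StronglyMeasurable fun y => adj (U γ y) := hadj.continuous.stronglyMeasurable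
  have e1 : ∀ x, U γ x * adj (U γ x) = 1 := fun x => hL.mul γ x
  have e2 : ∀ x, adj (U γ x) * U γ x = 1 := fun x => hL.mul' γ x
  have e3 : ∀ x, ‖adj (U γ x)‖ ≤ 1 := fun x => by
    rw [LinearIsometryEquiv.norm_map]
    exact hU1 γ x
  have e4 : W * rr (C.Eps g 1) R B = rr (C.Eps g 1) R B * W :=
    h.rr_comm_W (symRel_Gr C g isPot_zero) ht w2 w3
  have h3 := IsKer.equivariant (μ := g.vol) (W := W) (Φ := a.act γ) (Φ' := a.act γ⁻¹) mp mp' hinv
    hinv' (U := U γ) (U' := fun y => adj (U γ y)) m1 m2 e1 e2 (C := 1) (hU1 γ) e3 w1 e4 h1 h2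
  exact h3

end Pool.Agent.Lib.MP_df705a_gt.SV
end
end
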