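import Pool.Agent.Lib.MP_df705a_gt.Mg.G076
import Pool.Agent.Lib.MP_df705a_gt.Mg.G078
import Pool.Agent.Lib.MP_df705a_gt.Mg.G080
import Pool.Agent.Lib.MP_df705a_gt.Mg.G081
import Pool.Agent.Lib.MP_df705a_gt.Mg.G085
import Pool.Agent.Lib.MP_df705a_gt.Mg.G087
import Pool.Agent.Lib.MP_df705a_gt.Mg.G075
import Pool.Agent.Lib.MP_df705a_gt.SV.Q10
import Pool.Agent.Lib.MP_df705a_gt.SV.G6

section

/-!
# SV, block A: the limit `t → 0` (final statement; owner helper72)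

PROOF. (1) `PL_sub_le` for `ρ t` and the kernels `π t` of finite range of `SmallK.fin`: the difference is
`O(t)` after multiplication by `t^N`. (2) For `π t` only finitely many `α` contribute (`hfin`), and all points
stay in a ball of radius `R'`. (3) For these `α` replace `π t` by `ρ t` and by the model kernel `hmod g t x y • 1` on this
ball (`TT` is Lipschitz in every slot, with the weight `1`); the difference is again `O(t)` after multiplication
with `t^N`. (4) For the model kernel: `x_j = x_0 + t v_j`, `t^N hmod g t x (x + t v) = ∫_0^∞ e^{-s} gs g x v s ds =: H_x(v)`,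
dominated convergence (`H_x(v) ≤ C h(c v)` for `x` in a compact set, `h(v) = ∫ e^{-s} s^{-m} e^{-|v|²/s} ds`,
`∫ ∏_j h(v_{j+1} - v_j) dv < ∞` by the cyclic Hölder inequality), and
`∫ ∏_j H_x(v_{j+1} - v_j) dv · (det θ_x)^N = κ` does not depend on `x` (substitution `v = e_x v'`). `κ > 0`.
-/

open scoped ContDiff InnerProductSpace Matrix ENNReal NNReal Topology
open MeasureTheory Filter Set

noncomputable section

namespace Pool.Agent.Lib.MP_df705a_gt.SV

open Pool.Agent.Lib.MP_df705a_gt.RL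

variable {G I : Type*} [Group G] [Countable G] [Countable I] {m : ℕ}

/-- The limit of `t^N PL (ρ t)`. -/
theorem PL_limit (hm : 1 ≤ m) : ∃ κ : ℝ, 0 < κ ∧
    ∀ (C : Cliff m) (g : Geo (2 * m)) (a : Act G (2 * m)) (_ : a.Iso g) {F₀ : Set (V (2 * m))}
      (_ : a.Fund F₀) (_ : IsProper a) {w : V (2 * m) → V (2 * m) → ℝ} (_ : Wt w)
      {ρ : ℝ → V (2 * m) → V (2 * m) → En m} (_ : SmallK a g w ρ) {F : Set (V (2 * m))}
      (_ : MeasurableSet F) (_ : Bornology.IsBounded F) {φ : (Fin (2 * m + 1) → V (2 * m)) → ℝ}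
      {ψ₀ : I → V (2 * m) → ℝ} {ψ : I → Fin (2 * m) → V (2 * m) → ℝ}
      (_ : ∀ α, Continuous (ψ₀ α)) (_ : ∀ α j, ContDiff ℝ ∞ (ψ α j))
      (_ : IsExp F C.eps w φ ψ₀ ψ fun α j => cd C g (ψ α j))
      (_ : ∀ R : ℝ, {α | ∃ x : Fin (2 * m + 1) → V (2 * m), (∀ i, ‖x i‖ ≤ R) ∧
        ψ₀ α (x 0) ≠ 0 ∧ ∀ j, cd C g (ψ α j) (x j.succ) ≠ 0}.Finite),
      Tendsto (fun t : ℝ => (t : ℂ) ^ (2 * m) *
        PL g.vol (trC m) F C.eps ψ₀ (fun α j => cd C g (ψ α j)) (ρ t)) (𝓝[>] 0)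
        (𝓝 (κ * ∫ x in F, ∑' α, (ψ₀ α x : ℂ) *
          tr (C.eps * (List.ofFn fun j => cd C g (ψ α j) x).prod) ∂g.vol)) := by
  refine ⟨kapA m, kapA_pos hm, ?_⟩
  intro C g a _ F₀ _ hp w hw ρ hS F hF hFb φ ψ₀ ψ h0 hψ hE hfin
  obtain ⟨π, R, D, t₀, ht₀, hπ, h1⟩ := hS.fin
  obtain ⟨R', hR', S, hS0, hPL⟩ := A11_PL C g a hp hF hFb hfin R
  obtain ⟨D', t₁, ht₁, h2⟩ := hS.model R'
  have T1 := A12_PL hm C g hw hF hFb hE ht₀ h1
  have T2 : ∀ α, Tendsto (fun t : ℝ => (t : ℂ) ^ (2 * m) *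
      (LG g.vol (trC m) F C.eps (ψ₀ α) (fun j => cd C g (ψ α j)) (rb R' (π t)) -
        LG g.vol (trC m) F C.eps (ψ₀ α) (fun j => cd C g (ψ α j))
          (rb R' fun x y => (hmod g t x y : ℂ) • (1 : En m)))) (𝓝[>] 0) (𝓝 0) := fun α =>
    A12_compare hm C g hw hF hFb ht₀ h1 ht₁ h2 (h0 α) (hψ α)
  have T3 : ∀ α, Tendsto (fun t : ℝ => (t : ℂ) ^ (2 * m) *
      LG g.vol (trC m) F C.eps (ψ₀ α) (fun j => cd C g (ψ α j))
        (rb R' fun x y => (hmod g t x y : ℂ) • (1 : En m))) (𝓝[>] 0)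
      (𝓝 ((kapA m : ℂ) * ∫ x in F, La C (ψ₀ α) (fun j => cd C g (ψ α j)) (fun _ => x) ∂g.vol)) :=
    fun α => A13_limit hm C g hF hR' (h0 α) fun j => A13_continuous_cd C g (hψ α j)
  have T4 : ∀ t, PL g.vol (trC m) F C.eps ψ₀ (fun α j => cd C g (ψ α j)) (π t) =
      ∑ α ∈ S, LG g.vol (trC m) F C.eps (ψ₀ α) (fun j => cd C g (ψ α j)) (rb R' (π t)) :=
    fun t => hPL (π t) (hπ t)
  have T5 : Tendsto (fun t : ℝ => ∑ α ∈ S, ((t : ℂ) ^ (2 * m) *
      (LG g.vol (trC m) F C.eps (ψ₀ α) (fun j => cd C g (ψ α j)) (rb R' (π t)) -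
        LG g.vol (trC m) F C.eps (ψ₀ α) (fun j => cd C g (ψ α j))
          (rb R' fun x y => (hmod g t x y : ℂ) • (1 : En m))) + (t : ℂ) ^ (2 * m) *
      LG g.vol (trC m) F C.eps (ψ₀ α) (fun j => cd C g (ψ α j))
        (rb R' fun x y => (hmod g t x y : ℂ) • (1 : En m)))) (𝓝[>] 0)
      (𝓝 (∑ α ∈ S, (0 + (kapA m : ℂ) *
        ∫ x in F, La C (ψ₀ α) (fun j => cd C g (ψ α j)) (fun _ => x) ∂g.vol))) :=
    tendsto_finsetSum _ fun α _ => (T2 α).add (T3 α)
  have T6 := T1.add T5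
  have h6 : (0 : ℂ) + ∑ α ∈ S, (0 + (kapA m : ℂ) *
        ∫ x in F, La C (ψ₀ α) (fun j => cd C g (ψ α j)) (fun _ => x) ∂g.vol)
      = (kapA m : ℂ) * ∫ x in F, ∑' α, (ψ₀ α x : ℂ) *
          tr (C.eps * (List.ofFn fun j => cd C g (ψ α j) x).prod) ∂g.vol := by
    have h7 : ∀ x ∈ F, ∑' α, (ψ₀ α x : ℂ) *
        tr (C.eps * (List.ofFn fun j => cd C g (ψ α j) x).prod)
        = ∑ α ∈ S, La C (ψ₀ α) (fun j => cd C g (ψ α j)) (fun _ => x) := by
      intro x hx
      rw [tsum_eq_sum (s := S)]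
      · rfl
      · intro α hα
        rcases hS0 α hα (fun _ => x) fun _ => (hR' x hx).le with h | ⟨j, hj⟩
        · rw [h, Complex.ofReal_zero, zero_mul]
        · have h8 : (List.ofFn fun j => cd C g (ψ α j) x).prod = 0 := by
            refine List.prod_eq_zero ?_
            rw [List.mem_ofFn]
            exact ⟨j, hj⟩
          rw [h8, mul_zero, ← trC_apply, map_zero, mul_zero]
    rw [setIntegral_congr_fun hF h7, integral_finsetSum, zero_add, Finset.mul_sum]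
    · simp only [zero_add]
    · intro α _
      have h9 : Continuous fun x : V (2 * m) =>
          La C (ψ₀ α) (fun j => cd C g (ψ α j)) (fun _ : Fin (2 * m + 1) => x) := by
        have h10 : Continuous fun x : V (2 * m) => (fun _ => x : Fin (2 * m + 1) → V (2 * m)) := by
          fun_prop
        exact (continuous_La C (h0 α) fun j => A13_continuous_cd C g (hψ α j)).comp h10
      have h11 : IntegrableOn (fun x : V (2 * m) =>
          La C (ψ₀ α) (fun j => cd C g (ψ α j)) (fun _ : Fin (2 * m + 1) => x))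
          (Metric.closedBall 0 R') g.vol :=
        h9.continuousOn.integrableOn_compact (isCompact_closedBall _ _)
      exact h11.mono_set fun x hx => by simpa using (hR' x hx).le
  rw [h6] at T6
  refine T6.congr fun t => ?_
  have h12 : ∑ α ∈ S, ((t : ℂ) ^ (2 * m) *
      (LG g.vol (trC m) F C.eps (ψ₀ α) (fun j => cd C g (ψ α j)) (rb R' (π t)) -
        LG g.vol (trC m) F C.eps (ψ₀ α) (fun j => cd C g (ψ α j))
          (rb R' fun x y => (hmod g t x y : ℂ) • (1 : En m))) + (t : ℂ) ^ (2 * m) *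
      LG g.vol (trC m) F C.eps (ψ₀ α) (fun j => cd C g (ψ α j))
        (rb R' fun x y => (hmod g t x y : ℂ) • (1 : En m)))
      = (t : ℂ) ^ (2 * m) * PL g.vol (trC m) F C.eps ψ₀ (fun α j => cd C g (ψ α j)) (π t) := by
    rw [T4, Finset.mul_sum]
    refine Finset.sum_congr rfl fun α _ => ?_
    ring
  rw [h12]
  ring

end Pool.Agent.Lib.MP_df705a_gt.SV
end
end

section

/-!
# SV, L6d: the resolvents at small `t`
-/

open scoped ContDiff InnerProductSpace Matrix ENNReal NNReal Topology Real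
open MeasureTheory Filter Set

noncomputable section

set_option linter.unusedSectionVars false

namespace Pool.Agent.Lib.MP_df705a_gt.SV

open Pool.Agent.Lib.MP_df705a_gt.RL

variable {G : Type*} [Group G] [Countable G] {m : ℕ} {C : Cliff m} {g : Geo (2 * m)}
  {a : Act G (2 * m)} {F : Set (V (2 * m))} {ρ c κ : ℝ}

/-- The kernel of `(1 + t² D²)⁻¹`. -/
def rhoK (hF : a.Fund F) (U : G → V (2 * m) → En m) (p : ParaD C g ρ c κ) (t : ℝ) :
    V (2 * m) → V (2 * m) → En m :=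
  neu g.vol (ext hF U (kE p t)) (ext hF U (kP p t))

/-- The kernel of `t D (1 + t² D²)⁻¹`. -/
def bK (hF : a.Fund F) (U : G → V (2 * m) → En m) (p : ParaD C g ρ c κ) (t : ℝ) :
    V (2 * m) → V (2 * m) → En m :=
  neu g.vol (ext hF U (kE p t)) (ext hF U (kB p t))

theorem le_half {D t : ℝ} (h : D * t ≤ 1 / 2) : (D * t).toNNReal ≤ 1 / 2 := by
  rw [Real.toNNReal_le_iff_le_coe]
  push_cast
  exact h

theorem isKer_of_identity (hm : 1 ≤ m)
    {e k : V (2 * m) → V (2 * m) → En m} {E₁ Ep K₁ Kp : ℝ≥0}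
    (he : KB g.vol (fun _ _ => 1) (pN m) e E₁ Ep) (hk : KB g.vol (fun _ _ => 1) (pN m) k K₁ Kp)
    (h1 : E₁ ≤ 1 / 2) {A : g.L2 →L[ℂ] g.L2} (h : ∀ ψ : g.L2, ∀ᵐ z ∂g.vol,
      (A ψ : g.L2) z + ∫ y, e z y ((A ψ : g.L2) y) ∂g.vol = ∫ y, k z y (ψ y) ∂g.vol) :
    IsKer g.vol A (neu g.vol e k) := by
  obtain ⟨S, hS, -⟩ := (KB.kbL wt_oneL he).exists_isKer
  obtain ⟨T, hT, -⟩ := (KB.kbL wt_oneL hk).exists_isKer
  refine IsKer_neu wt_oneL (one_le_pN hm) he hk h1 hS hT ?_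
  ext1 ψ
  refine Lp.ext ?_
  have e1 : (A + S * A) ψ = A ψ + S (A ψ) := rfl
  rw [e1]
  filter_upwards [h ψ, hS (A ψ), hT ψ, Lp.coeFn_add (A ψ) (S (A ψ))] with z h2 h3 h4 h5
  rw [h5, Pi.add_apply, h3, h4, h2]

theorem isKer_small (hm : 1 ≤ m) (hF : a.Fund F) (ha : a.Iso g) {U : G → V (2 * m) → En m}
    (hU : Lifts C g a U) (p : ParaD C g ρ c κ) (hρ : F ⊆ Metric.closedBall 0 ρ) {D t : ℝ}
    (hb : ExtB hF U p (fun _ _ => 1) D t) (ht : 0 < t) (ht1 : t ≤ 1) (hD : D * t ≤ 1 / 2)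
    {κ' : ℝ} (hκ' : κ' ^ 2 = 1) :
    IsKer g.vol (Rop (C.Eps g κ') (GrT t (C.Gr g 0))) (rhoK hF U p t) ∧
      IsKer g.vol (Bop (C.Eps g κ') (GrT t (C.Gr g 0))) (bK hF U p t) := by
  refine ⟨isKer_of_identity hm hb.fE hb.fP (le_half hD) fun ψ => ?_,
    isKer_of_identity hm hb.fE hb.fB (le_half hD) fun ψ => ?_⟩
  · refine ext_identity hF ha hU (fun γ u => (hU.W_Rop γ κ' t u).1) (fun ψ => ?_) ψ
    exact ae_restrict_of_ae_restrict_of_subset hρ (local_id_R hm p hκ' ht ht1 ψ)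
  · refine ext_identity hF ha hU (fun γ u => (hU.W_Rop γ κ' t u).2) (fun ψ => ?_) ψ
    exact ae_restrict_of_ae_restrict_of_subset hρ (local_id_B hm p hκ' ht ht1 ψ)

theorem Eps_smul (C : Cliff m) (g : Geo (2 * m)) (κ : ℝ) :
    C.Eps g κ = (κ : ℂ) • g.mulE fun _ => C.eps := by
  unfold Cliff.Eps
  exact g.mulE_smul (BddM.const _) _

theorem Eps_neg (C : Cliff m) (g : Geo (2 * m)) (κ : ℝ) : C.Eps g (-κ) = -C.Eps g κ := by
  rw [Eps_smul, Eps_smul, Complex.ofReal_neg]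
  exact neg_smul _ _

/-- The extensions coincide. -/
theorem isRes_small (hm : 1 ≤ m) (hF : a.Fund F) (ha : a.Iso g) {U : G → V (2 * m) → En m}
    (hU : Lifts C g a U) (p : ParaD C g ρ c κ) (hρ : F ⊆ Metric.closedBall 0 ρ) {D t : ℝ}
    (hb : ExtB hF U p (fun _ _ => 1) D t) (ht : 0 < t) (ht1 : t ≤ 1) (hD : D * t ≤ 1 / 2)
    {s : ℝ} (hs : 0 < s) :
    IsRes (C.Gr g 0).topologicalClosure s (Rop (C.Eps g 1) (GrT s (C.Gr g 0)))
      (Bop (C.Eps g 1) (GrT s (C.Gr g 0))) := by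
  have he := isGrading_Eps C g (κ := 1) (one_pow 2)
  have ho := isOddSymm_Gr C g (isPot_zero : IsPot (0 : Pot (2 * m))) (κ := 1) (one_pow 2)
  have h1 := (isKer_small hm hF ha hU p hρ hb ht ht1 hD (κ' := 1) (one_pow 2)).1
  have h2 := (isKer_small hm hF ha hU p hρ hb ht ht1 hD (κ' := -1) (by norm_num)).1
  have h3 := h1.unique_op h2
  rw [Eps_neg C g 1] at h3
  exact isRes_all he ho ht (isRes_of_Rop_eq he ho ht h3) hs

end Pool.Agent.Lib.MP_df705a_gt.SV
end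
end

section

/-!
# SV, L7b: comparison with the model kernel
-/

open scoped ContDiff InnerProductSpace Matrix ENNReal NNReal Topology Real
open MeasureTheory Filter Set

noncomputable section

set_option linter.unusedSectionVars false

namespace Pool.Agent.Lib.MP_df705a_gt.SV

open Pool.Agent.Lib.MP_df705a_gt.RL

variable {m : ℕ} {C : Cliff m} {g : Geo (2 * m)} {ρ c κ : ℝ}

/-- The kernel restricted to the rows in `S`. -/
def rowK (S : Set (V (2 * m))) (k : V (2 * m) → V (2 * m) → En m) (z y : V (2 * m)) : En m :=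
  S.indicator (fun _ => (1 : En m)) z * k z y

theorem rowK_mem {S : Set (V (2 * m))} (k : V (2 * m) → V (2 * m) → En m) {z : V (2 * m)}
    (hz : z ∈ S) (y : V (2 * m)) : rowK S k z y = k z y := by
  unfold rowK
  rw [indicator_of_mem hz]
  exact one_mul _

theorem rowK_notMem {S : Set (V (2 * m))} (k : V (2 * m) → V (2 * m) → En m) {z : V (2 * m)}
    (hz : z ∉ S) (y : V (2 * m)) : rowK S k z y = 0 := by
  unfold rowK
  rw [indicator_of_notMem hz]
  exact zero_mul _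

theorem enorm_rowK (S : Set (V (2 * m))) (k : V (2 * m) → V (2 * m) → En m) (z y : V (2 * m)) :
    ‖rowK S k z y‖ₑ = S.indicator (fun z => ‖k z y‖ₑ) z := by
  by_cases hz : z ∈ S
  · rw [rowK_mem k hz, indicator_of_mem hz]
  · rw [rowK_notMem k hz, indicator_of_notMem hz]
    exact enorm_zero (E := En m)

theorem nk_one (k : V (2 * m) → V (2 * m) → En m) (z y : V (2 * m)) :
    nk (fun _ _ => (1 : ℝ)) k z y = ‖k z y‖ₑ := by
  unfold nk
  rw [ENNReal.ofReal_one, one_mul]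

theorem stronglyMeasurable_rowK {S : Set (V (2 * m))} (hS : MeasurableSet S)
    {k : V (2 * m) → V (2 * m) → En m} (hk : StronglyMeasurable (Function.uncurry k)) :
    StronglyMeasurable (Function.uncurry (rowK S k)) := by
  have h1 : StronglyMeasurable (S.indicator fun _ : V (2 * m) => (1 : En m)) :=
    stronglyMeasurable_const.indicator hS
  exact (h1.comp_measurable measurable_fst).mul hk

theorem NB_rowK {μ : Measure (V (2 * m))} {S : Set (V (2 * m))} (hS : MeasurableSet S) {p : ℝ}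
    (hp : 0 < p) {k : V (2 * m) → V (2 * m) → En m} {K : V (2 * m) → V (2 * m) → ℝ≥0∞}
    (hkK : ∀ z y, ‖k z y‖ₑ ≤ K z y) {c : ℝ≥0} (h : LB μ S p K c) :
    NB μ p (nk (fun _ _ => (1 : ℝ)) (rowK S k)) c := by
  have e1 : ∀ z y, nk (fun _ _ => (1 : ℝ)) (rowK S k) z y ≤ S.indicator (fun z => K z y) z := by
    intro z y
    rw [nk_one, enorm_rowK]
    exact indicator_le_indicator (hkK z y)
  refine ⟨Eventually.of_forall fun z => ?_, Eventually.of_forall fun y => ?_⟩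
  · by_cases hz : z ∈ S
    · refine le_trans (lintegral_mono fun y => ?_) (h.row z hz)
      refine ENNReal.rpow_le_rpow ((e1 z y).trans ?_) hp.le
      rw [indicator_of_mem hz]
    · have e2 : ∀ y, nk (fun _ _ => (1 : ℝ)) (rowK S k) z y ^ p = 0 := by
        intro y
        have h1 := e1 z y
        rw [indicator_of_notMem hz] at h1
        rw [le_antisymm h1 zero_le, ENNReal.zero_rpow_of_pos hp]
      simp only [e2, lintegral_zero]
      exact zero_le
  · have e2 : ∀ z, nk (fun _ _ => (1 : ℝ)) (rowK S k) z y ^ p ≤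
        S.indicator (fun z => K z y ^ p) z := by
      intro z
      refine (ENNReal.rpow_le_rpow (e1 z y) hp.le).trans (le_of_eq ?_)
      by_cases hz : z ∈ S
      · rw [indicator_of_mem hz, indicator_of_mem hz]
      · rw [indicator_of_notMem hz, indicator_of_notMem hz, ENNReal.zero_rpow_of_pos hp]
    refine (lintegral_mono e2).trans ?_
    rw [lintegral_indicator hS]
    exact h.col y

theorem KB_rowK {S : Set (V (2 * m))} (hS : MeasurableSet S) {p : ℝ} (hp : 0 < p)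
    {k : V (2 * m) → V (2 * m) → En m} {K : V (2 * m) → V (2 * m) → ℝ≥0∞}
    (hk : StronglyMeasurable (Function.uncurry k)) (hkK : ∀ z y, ‖k z y‖ₑ ≤ K z y) {c₁ c : ℝ≥0}
    (h1 : LB g.vol S 1 K c₁) (h : LB g.vol S p K c) :
    KB g.vol (fun _ _ => (1 : ℝ)) p (rowK S k) c₁ c :=
  ⟨stronglyMeasurable_rowK hS hk, NB_rowK hS one_pos hkK h1, NB_rowK hS hp hkK h⟩

theorem norm_ind_le (S : Set (V (2 * m))) (y : V (2 * m)) :
    ‖S.indicator (fun _ : V (2 * m) => (1 : En m)) y‖ ≤ 1 := by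
  by_cases hy : y ∈ S
  · rw [indicator_of_mem hy]
    exact ContinuousLinearMap.norm_id_le
  · rw [indicator_of_notMem hy]
    exact (norm_zero (E := En m)).le.trans zero_le_one

theorem sz_add {a b t : ℝ} (ha : 0 ≤ a) (hb : 0 ≤ b) (ht : 0 < t) :
    sz m a t + sz m b t = sz m (a + b) t := by
  unfold sz
  rw [add_mul, Real.toNNReal_add (by positivity) (by positivity)]

/-- The comparison with the model. -/
theorem model_part (hm : 1 ≤ m) (p : ParaD C g ρ c κ) {k : ℝ → V (2 * m) → V (2 * m) → En m}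
    {D₀ t₀ : ℝ} (ht₁ : t₀ ≤ 1) (hD₀ : 0 ≤ D₀)
    (hk : ∀ t : ℝ, 0 < t → t ≤ t₀ → KB g.vol (fun _ _ => 1) (pN m) (k t) D₀.toNNReal (sz m D₀ t))
    (hA : ∀ t : ℝ, 0 < t → t ≤ t₀ → IsKer g.vol (Rop (C.Eps g 1) (GrT t (C.Gr g 0))) (k t)) :
    ∃ D : ℝ, ∀ t : ℝ, 0 < t → t ≤ t₀ → ∃ c₁ : ℝ≥0,
      KB g.vol (fun _ _ => 1) (pN m) (fun x y => if ‖x‖ ≤ ρ ∧ ‖y‖ ≤ ρ then
        k t x y - (hmod g t x y : ℂ) • (1 : En m) else 0) c₁ (sz m (D * t) t) := by
  have hpN := one_le_pN hm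
  have hp0 : 0 < pN m := by linarith
  obtain ⟨D₁, hD₁, hb⟩ := local_bounds hm p
  obtain ⟨D₂, hD₂, hmd⟩ := model_bound hm p
  set S : Set (V (2 * m)) := Metric.closedBall 0 ρ with hS
  have hSm : MeasurableSet S := measurableSet_closedBall
  refine ⟨D₁ * D₀ + D₂, fun t ht htt => ?_⟩
  have ht1 : t ≤ 1 := htt.trans ht₁
  obtain ⟨⟨b1, b2⟩, -, b5, b6⟩ := hb t ht ht1
  obtain ⟨m1, m2⟩ := hmd t ht ht1
  have hKE := KB_rowK hSm hp0 (stronglyMeasurable_kE p t) (enorm_kE_le p t) b5 b6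
  have hKP := KB_rowK hSm hp0 (stronglyMeasurable_kP p t)
    (fun z y => enorm_kk_le (hP_nonneg t) _ _ _) b1 b2
  have hKk := hk t ht htt
  have hAk := hA t ht htt
  -- the operators
  obtain ⟨SE, hSE, -⟩ := (KB.kbL wt_oneL hKE).exists_isKer
  obtain ⟨SP, hSP, -⟩ := (KB.kbL wt_oneL hKP).exists_isKer
  have hBd : BddM (S.indicator fun _ : V (2 * m) => (1 : En m)) := by
    exact ⟨stronglyMeasurable_const.indicator hSm, 1, norm_ind_le S⟩
  have hM := fun u => g.mulE_coe hBd u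
  set MS : g.L2 →L[ℂ] g.L2 := g.mulE (S.indicator fun _ : V (2 * m) => (1 : En m)) with hMS
  set A : g.L2 →L[ℂ] g.L2 := Rop (C.Eps g 1) (GrT t (C.Gr g 0)) with hAdef
  have k1 := IsKer.mulL hM hAk (KB.kbL wt_oneL hKk)
  have k2 := IsKer.mul hSE hAk (KB.kbL wt_oneL hKE) (KB.kbL wt_oneL hKk)
  have hop : SP = MS * A + SE * A := by
    ext1 ψ
    refine Lp.ext ?_
    have e1 : (MS * A + SE * A) ψ = MS (A ψ) + SE (A ψ) := rfl
    rw [e1]
    have hloc := local_id_R hm p (κ' := 1) (one_pow 2) ht ht1 ψ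
    rw [ae_restrict_iff' hSm] at hloc
    filter_upwards [hloc, hSP ψ, hSE (A ψ), hM (A ψ), Lp.coeFn_add (MS (A ψ)) (SE (A ψ))]
      with z h1 h2 h3 h4 h5
    rw [h5, Pi.add_apply, h2, h3, h4]
    by_cases hz : z ∈ S
    · have h6 := h1 hz
      have e2 : ∀ y, rowK S (kE p t) z y = kE p t z y := fun y => rowK_mem _ hz y
      have e3 : ∀ y, rowK S (kP p t) z y = kP p t z y := fun y => rowK_mem _ hz y
      simp only [e2, e3]
      rw [indicator_of_mem hz, ← h6]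
      rfl
    · have e2 : ∀ y, rowK S (kE p t) z y = 0 := fun y => rowK_notMem _ hz y
      have e3 : ∀ y, rowK S (kP p t) z y = 0 := fun y => rowK_notMem _ hz y
      simp only [e2, e3]
      rw [indicator_of_notMem hz]
      simp
  have hc1 : KB g.vol (fun _ _ => (1 : ℝ)) (pN m) (fun x y => S.indicator (fun _ => (1 : En m)) x
      * k t x y) (1 * D₀.toNNReal) (1 * sz m D₀ t) :=
    hKk.fmul wt_oneL.meas hp0.le (stronglyMeasurable_const.indicator hSm) 1 (norm_ind_le S)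
  have hc2 := KB.comp wt_oneL hpN hKE hKk
  have k3 := IsKer.add k1 k2 (KB.kbL wt_oneL hc1) (KB.kbL wt_oneL hc2)
  rw [← hop] at k3
  have hc3 := hc1.add wt_oneL.meas hpN hc2
  have hu := IsKer.unique hSP k3 (KB.kbL wt_oneL hKP) (KB.kbL wt_oneL hc3)
  -- the kernels restricted to the box
  set k₁ : V (2 * m) → V (2 * m) → En m := fun x y => if ‖x‖ ≤ ρ ∧ ‖y‖ ≤ ρ then
    kP p t x y - (hmod g t x y : ℂ) • (1 : En m) else 0 with hk₁
  set k₂ : V (2 * m) → V (2 * m) → En m := fun x y => if ‖x‖ ≤ ρ ∧ ‖y‖ ≤ ρ then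
    comp g.vol (rowK S (kE p t)) (k t) x y else 0 with hk₂
  have hbox : MeasurableSet {q : V (2 * m) × V (2 * m) | ‖q.1‖ ≤ ρ ∧ ‖q.2‖ ≤ ρ} :=
    (measurableSet_le measurable_fst.norm measurable_const).inter
      (measurableSet_le measurable_snd.norm measurable_const)
  have hh : StronglyMeasurable fun q : V (2 * m) × V (2 * m) =>
      ((hmod g t q.1 q.2 : ℝ) : ℂ) • (1 : En m) := by
    have h1 : StronglyMeasurable fun q : V (2 * m) × V (2 * m) => ((hmod g t q.1 q.2 : ℝ) : ℂ) :=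
      Complex.continuous_ofReal.comp_stronglyMeasurable (measurable_hmod g ht)
    exact h1.smul_const (1 : En m)
  have hm1 : StronglyMeasurable (Function.uncurry k₁) :=
    StronglyMeasurable.ite hbox ((stronglyMeasurable_kP p t).sub hh) stronglyMeasurable_const
  have hm2 : StronglyMeasurable (Function.uncurry k₂) :=
    StronglyMeasurable.ite hbox hc2.meas stronglyMeasurable_const
  have hm0 : StronglyMeasurable (Function.uncurry fun x y => if ‖x‖ ≤ ρ ∧ ‖y‖ ≤ ρ then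
      k t x y - (hmod g t x y : ℂ) • (1 : En m) else 0) :=
    StronglyMeasurable.ite hbox (hKk.meas.sub hh) stronglyMeasurable_const
  have hb1 : KB g.vol (fun _ _ => (1 : ℝ)) (pN m) k₁ (D₂ * t).toNNReal (sz m (D₂ * t) t) := by
    have e1 : rowK S k₁ = k₁ := by
      funext x y
      by_cases hx : x ∈ S
      · exact rowK_mem _ hx y
      · rw [rowK_notMem _ hx]
        refine (if_neg fun h => hx ?_).symm
        rw [hS, mem_closedBall_zero_iff]
        exact h.1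
    rw [← e1]
    refine KB_rowK hSm hp0 hm1 (fun z y => ?_) m1 m2
    rw [hk₁]
    beta_reduce
    split_ifs
    · exact le_rfl
    · exact (enorm_zero (E := En m)).le
  have hb2 : KB g.vol (fun _ _ => (1 : ℝ)) (pN m) k₂ (1 * ((D₁ * t).toNNReal * D₀.toNNReal))
      (1 * ((D₁ * t).toNNReal * sz m D₀ t)) := by
    refine KB.of_le wt_oneL.meas hp0.le hc2 hm2 1 (Eventually.of_forall fun q => ?_)
    rw [NNReal.coe_one, one_mul, hk₂]
    beta_reduce
    split_ifs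
    · exact le_rfl
    · exact (norm_zero (E := En m)).le.trans (norm_nonneg _)
  have hb3 := hb1.sub wt_oneL.meas hpN hb2
  refine ⟨_, (KB.congr_ae hp0.le hb3 hm0 ?_).mono hp0.le le_rfl ?_⟩
  · filter_upwards [hu] with q hq
    rw [hk₁, hk₂]
    beta_reduce
    by_cases hb : ‖q.1‖ ≤ ρ ∧ ‖q.2‖ ≤ ρ
    · rw [if_pos hb, if_pos hb, if_pos hb]
      have hx : q.1 ∈ S := by
        rw [hS, mem_closedBall_zero_iff]
        exact hb.1
      rw [rowK_mem _ hx, indicator_of_mem hx, one_mul] at hq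
      rw [hq]
      abel
    · rw [if_neg hb, if_neg hb, if_neg hb]
      exact (sub_zero _).symm
  · rw [one_mul]
    have e1 : (D₁ * t).toNNReal * sz m D₀ t = sz m (D₁ * D₀ * t) t := by
      have e2 : (D₁ * t).toNNReal * sz m D₀ t = sz m (((D₁ * t).toNNReal : ℝ) * D₀) t := mul_sz _ _ _
      rw [e2, Real.coe_toNNReal _ (by positivity)]
      congr 1
      ring
    rw [e1, sz_add (by positivity) (by positivity) ht]
    refine sz_mono ht (le_of_eq ?_)
    ring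

end Pool.Agent.Lib.MP_df705a_gt.SV
end
end

section

/-!
# SV, L: the kernels of the resolvents at small `t`
-/

open scoped ContDiff InnerProductSpace Matrix ENNReal NNReal Topology Real
open MeasureTheory Filter Set

noncomputable section

set_option linter.unusedSectionVars false

namespace Pool.Agent.Lib.MP_df705a_gt.SV

open Pool.Agent.Lib.MP_df705a_gt.RL

variable {G : Type*} [Group G] [Countable G] {m : ℕ} {C : Cliff m} {g : Geo (2 * m)}
  {a : Act G (2 * m)} {F : Set (V (2 * m))} {ρ c κ : ℝ}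

theorem two_mul_toNNReal (D : ℝ) : 2 * D.toNNReal = (2 * D).toNNReal :=
  (coe_mul_toNNReal 2 D).symm

theorem two_mul_sz (D t : ℝ) : 2 * sz m D t = sz m (2 * D) t := mul_sz 2 D t

theorem ExtB.neu (hm : 1 ≤ m) {hF : a.Fund F} {U : G → V (2 * m) → En m} {p : ParaD C g ρ c κ}
    {w : V (2 * m) → V (2 * m) → ℝ} (hw : Wt w) {D t : ℝ} (hb : ExtB hF U p w D t)
    (hD : D * t ≤ 1 / 2) :
    KB g.vol w (pN m) (rhoK hF U p t) (2 * D).toNNReal (sz m (2 * D) t) ∧
      KB g.vol w (pN m) (bK hF U p t) (2 * D).toNNReal (sz m (2 * D) t) := by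
  have hpN := one_le_pN hm
  rw [← two_mul_toNNReal, ← two_mul_sz]
  exact ⟨KB_neu hw hpN hb.fE hb.fP (le_half hD), KB_neu hw hpN hb.fE hb.fB (le_half hD)⟩

/-- The bounds for the approximation by kernels of finite range. -/
theorem ExtB.fin (hm : 1 ≤ m) {hF : a.Fund F} {U : G → V (2 * m) → En m} {p : ParaD C g ρ c κ}
    {w : V (2 * m) → V (2 * m) → ℝ} (hw : Wt w) {D t : ℝ} (hb : ExtB hF U p w D t)
    (hD0 : 0 < D) (ht : 0 < t) (hD : D * t ≤ 1 / 2) : ∃ c₁ : ℝ≥0,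
      KB g.vol w (pN m) (rhoK hF U p t) c₁ (sz m (2 * D + 2 * D ^ 2) t) ∧
      KB g.vol w (pN m) (ext hF U (kP p t)) c₁ (sz m (2 * D + 2 * D ^ 2) t) ∧
      KB g.vol w (pN m) (fun x y => rhoK hF U p t x y - ext hF U (kP p t) x y) c₁
        (sz m ((2 * D + 2 * D ^ 2) * t) t) := by
  have hpN := one_le_pN hm
  have hp0 : 0 ≤ pN m := by linarith
  have h1 := (hb.neu hm hw hD).1
  have h2 := KB_neu_sub hw hpN hb.fE hb.fP (le_half hD)
  refine ⟨(2 * D).toNNReal + D.toNNReal + 2 * (D * t).toNNReal * D.toNNReal,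
    h1.mono hp0 ?_ ?_, hb.fP.mono hp0 ?_ ?_, h2.mono hp0 ?_ ?_⟩
  · rw [add_assoc]
    exact le_self_add
  · exact sz_mono ht (by nlinarith [sq_nonneg D])
  · rw [add_assoc, add_comm, add_assoc]
    exact le_self_add
  · exact sz_mono ht (by nlinarith [sq_nonneg D])
  · exact le_add_self
  · have e1 : 2 * (D * t).toNNReal * sz m D t = sz m (2 * (D * t) * D) t := by
      have e2 : 2 * (D * t).toNNReal * sz m D t =
          sz m (((2 * (D * t)).toNNReal : ℝ) * D) t := by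
        rw [two_mul_toNNReal]
        exact mul_sz _ _ _
      rw [e2, Real.coe_toNNReal _ (by positivity)]
    rw [e1]
    refine sz_mono ht ?_
    have h3 : 0 < D * t := by positivity
    nlinarith

/-- The kernels of the resolvents at small `t`. -/
theorem small_kernels (hm : 1 ≤ m) (C : Cliff m) (g : Geo (2 * m)) (a : Act G (2 * m))
    (ha : a.Iso g) {F : Set (V (2 * m))} (hF : a.Fund F) (hp : IsProper a) :
    ∃ (t₀ : ℝ) (ρ₀ β₀ : ℝ → V (2 * m) → V (2 * m) → En m), 0 < t₀ ∧ t₀ ≤ 1 ∧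
      (∀ t : ℝ, 0 < t → IsRes (C.Gr g 0).topologicalClosure t
        (Rop (C.Eps g 1) (GrT t (C.Gr g 0))) (Bop (C.Eps g 1) (GrT t (C.Gr g 0)))) ∧
      (∀ t : ℝ, 0 < t → t ≤ t₀ →
        IsKer g.vol (Rop (C.Eps g 1) (GrT t (C.Gr g 0))) (ρ₀ t) ∧
        IsKer g.vol (Bop (C.Eps g 1) (GrT t (C.Gr g 0))) (β₀ t)) ∧
      ∀ ℓ : G → ℝ, IsLen ℓ → ∃ d₁ : ℝ, 0 < d₁ ∧ ∀ d : ℝ, 0 ≤ d → d ≤ d₁ →
        (∃ D : ℝ, ∀ t : ℝ, 0 < t → t ≤ t₀ →
          KB g.vol (tw hF ℓ d) (pN m) (ρ₀ t) D.toNNReal (sz m D t) ∧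
          KB g.vol (tw hF ℓ d) (pN m) (β₀ t) D.toNNReal (sz m D t)) ∧
        SmallK a g (tw hF ℓ d) ρ₀ := by
  obtain ⟨U, hU⟩ := exists_liftsL C g a ha
  obtain ⟨R₀, hR₀⟩ := hF.bdd.exists_norm_le
  have hρ : F ⊆ Metric.closedBall 0 R₀ := fun z hz => mem_closedBall_zero_iff.2 (hR₀ z hz)
  obtain ⟨c, κ, ⟨p⟩⟩ := exists_paraD C g R₀
  obtain ⟨D, hD, hb1, hbw⟩ := ext_bounds hm hF hp ha hU p hρ
  set t₀ : ℝ := min 1 (1 / (2 * D)) with ht₀
  have ht₀0 : 0 < t₀ := lt_min one_pos (by positivity)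
  have ht₀1 : t₀ ≤ 1 := min_le_left _ _
  have hDt : ∀ t : ℝ, t ≤ t₀ → D * t ≤ 1 / 2 := by
    intro t htt
    have h1 : t ≤ 1 / (2 * D) := htt.trans (min_le_right _ _)
    calc D * t ≤ D * (1 / (2 * D)) := by gcongr
      _ = 1 / 2 := by field_simp
  have hker : ∀ t : ℝ, 0 < t → t ≤ t₀ →
      IsKer g.vol (Rop (C.Eps g 1) (GrT t (C.Gr g 0))) (rhoK hF U p t) ∧
      IsKer g.vol (Bop (C.Eps g 1) (GrT t (C.Gr g 0))) (bK hF U p t) := fun t ht htt =>
    isKer_small hm hF ha hU p hρ (hb1 t ht (htt.trans ht₀1)) ht (htt.trans ht₀1) (hDt t htt)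
      (one_pow 2)
  refine ⟨t₀, rhoK hF U p, bK hF U p, ht₀0, ht₀1, fun t ht => ?_, hker, fun ℓ hℓ => ?_⟩
  · exact isRes_small hm hF ha hU p hρ (hb1 t₀ ht₀0 ht₀1) ht₀0 ht₀1 (hDt t₀ le_rfl) ht
  · obtain ⟨d₁, hd₁, hd⟩ := hbw ℓ hℓ
    refine ⟨d₁, hd₁, fun δ hδ hδ1 => ⟨⟨2 * D, fun t ht htt => ?_⟩, ?_, fun R => ?_⟩⟩
    · exact (hd δ hδ hδ1 t ht (htt.trans ht₀1)).neu hm (wt_tw hF hℓ hδ) (hDt t htt)
    · refine ⟨fun t => ext hF U (kP p t), R₀ + 1, 2 * D + 2 * D ^ 2, t₀, ht₀0, fun t => ?_,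
        fun t ht htt => ?_⟩
      · exact rng_ext hF hR₀ U fun z y h => (kk_eq_zero fun r hr => (p.supp r z y h).1).1
      · exact (hd δ hδ hδ1 t ht (htt.trans ht₀1)).fin hm (wt_tw hF hℓ hδ) hD ht (hDt t htt)
    · obtain ⟨c', κ', ⟨p'⟩⟩ := exists_paraD C g R
      obtain ⟨D', hD'⟩ := model_part hm p' (k := rhoK hF U p) (D₀ := 2 * D) ht₀1 (by positivity)
        (fun t ht htt => ((hb1 t ht (htt.trans ht₀1)).neu hm wt_oneL (hDt t htt)).1)
        (fun t ht htt => (hker t ht htt).1)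
      exact ⟨D', t₀, ht₀0, hD'⟩

end Pool.Agent.Lib.MP_df705a_gt.SV
end
end

section

/-!
# SV, block R: the kernels of the resolvents
-/

open scoped ContDiff InnerProductSpace Matrix ENNReal NNReal Topology
open MeasureTheory Filter Set

noncomputable section

namespace Pool.Agent.Lib.MP_df705a_gt.SV

open Pool.Agent.Lib.MP_df705a_gt.RL

variable {G : Type*} [Group G] [Countable G] {m : ℕ}

/-- The kernels `r t` and `ρ t`. -/
theorem exists_kernels (hm : 1 ≤ m) (C : Cliff m) (g : Geo (2 * m)) (a : Act G (2 * m))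
    (ha : a.Iso g) {F : Set (V (2 * m))} (hF : a.Fund F) (hp : IsProper a) {σ : ℝ} (hσ : 0 < σ)
    (hs : ∀ y, 4 * σ ≤ g.scal y) :
    ∃ (U : G → V (2 * m) → En m) (r ρ : ℝ → V (2 * m) → V (2 * m) → En m),
      IsLift U (fun γ x => adj (U γ x)) C.eps ∧ Pack C g a U r ρ ∧
      ∀ ℓ : G → ℝ, IsLen ℓ → ∃ δ₀ : ℝ, 0 < δ₀ ∧ ∀ δ : ℝ, 0 ≤ δ → δ ≤ δ₀ →
        Bds g (tw hF ℓ δ) r ρ ∧ SmallK a g (tw hF ℓ δ) ρ := by
  obtain ⟨t₀, ρ₀, β₀, ht₀, ht₁, hres, hker, hKB⟩ := small_kernels hm C g a ha hF hp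
  exact kernels_of_small hm C g a ha hF hσ hs ht₀ ht₁ hres hker hKB

end Pool.Agent.Lib.MP_df705a_gt.SV
end
end

section

/-!
# SV, Z0: the theorem for a cocompact action on `ℝ²ᵐ`
-/

open scoped ContDiff InnerProductSpace Matrix ENNReal NNReal Topology
open MeasureTheory Filter Set

noncomputable section

namespace Pool.Agent.Lib.MP_df705a_gt.SV

open Pool.Agent.Lib.MP_df705a_gt.RL

variable {G : Type*} [Group G] [Countable G] {m n k : ℕ}

theorem Z0_vol (g : Geo (2 * m)) {F : Set (V (2 * m))} (hF : MeasurableSet F)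
    (f : V (2 * m) → ℝ) :
    ∫ y in F, (((g.e y).det * f y : ℝ) : ℂ) ∂g.vol = ((∫ y in F, f y : ℝ) : ℂ) := by
  have h0 : ((∫ y in F, f y : ℝ) : ℂ) = ∫ y in F, ((f y : ℝ) : ℂ) := integral_ofReal.symm
  rw [h0, ← integral_indicator hF, g.integral_vol, ← integral_indicator hF]
  refine integral_congr_ae (Filter.Eventually.of_forall fun y => ?_)
  have h1 : (g.θ y).det * (g.e y).det = 1 := by
    rw [← Matrix.det_mul, g.θe, Matrix.det_one]
  by_cases hy : y ∈ F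
  · simp only [Set.indicator_of_mem hy]
    rw [Complex.real_smul, ← Complex.ofReal_mul, ← mul_assoc, h1, one_mul]
  · simp only [Set.indicator_of_notMem hy, smul_zero]

omit [Countable G] in
theorem psi_cases (a : Act G (2 * m)) (χ : V (2 * m) → ℝ) (s : V (2 * m) → V k)
    (h : n + k = 2 * m) (α : Ind G m n) (j : Fin (2 * m)) :
    (∃ γ, psi a χ s h α j = ch a χ γ) ∨ ∃ i, psi a χ s h α j = fun y => s y i := by
  have key : ∀ i : Fin (n + k), (∃ γ, rw' a χ s α.1 i = ch a χ γ) ∨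
      ∃ l, rw' a χ s α.1 i = fun y => s y l := by
    intro i
    refine Fin.addCases (fun i => Or.inl ⟨α.1 i.succ, ?_⟩) (fun i => Or.inr ⟨i, ?_⟩) i
    · funext y
      simp only [rw', Fin.addCases_left]
    · funext y
      simp only [rw', Fin.addCases_right]
  exact key _

omit [Countable G] in
theorem Z0_supp (a : Act G (2 * m)) {χ : V (2 * m) → ℝ} (hχ : IsPU a χ) (γ : G) :
    HasCompactSupport (ch a χ γ) := by
  let Φ : V (2 * m) ≃ₜ V (2 * m) := {
        toFun := a.act γ⁻¹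
        invFun := a.act γ
        left_inv := fun y => by rw [← a.mul, mul_inv_cancel, a.one]
        right_inv := fun y => by rw [← a.mul, inv_mul_cancel, a.one]
        continuous_toFun := (a.smooth _).continuous
        continuous_invFun := (a.smooth _).continuous }
  exact hχ.supp.comp_homeomorph Φ

/-- The theorem for a cocompact action. -/
theorem geo_main (hm : 1 ≤ m) (g : Geo (2 * m)) (a : Act G (2 * m)) (ha : a.Iso g)
    {F₀ : Set (V (2 * m))} (hF₀ : a.Fund F₀) (hp : IsProper a) {σ : ℝ} (hσ : 0 < σ)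
    (hscal : ∀ y, 4 * σ ≤ g.scal y) (h : n + k = 2 * m) {s : V (2 * m) → V k} (hs : IsAdd a s)
    {ℓ : G → ℝ} (hℓ : IsLen ℓ) :
    ∃ δ : ℝ, 0 < δ ∧ ∀ c : (Fin (n + 1) → G) → ℝ, IsCoc ℓ δ c →
      ∀ F : Set (V (2 * m)), a.Fund F → ∀ χ : V (2 * m) → ℝ, IsPU a χ →
        ∫ y in F, ∑' f : Fin (n + 1) → G, c f * ch a χ (f 0) y *
          (Matrix.of fun i μ : Fin (2 * m) => pd μ (rwc a χ s h f i) y).det = 0 := by
  obtain ⟨C⟩ := exists_cliff m
  obtain ⟨U, r, ρ, hU, hP, hK⟩ := exists_kernels hm C g a ha hF₀ hp hσ hscal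
  obtain ⟨ℓ', hℓ', hθ, hG⟩ := group_part C g a ha hF₀ hp h hs hℓ
  obtain ⟨δ₀, hδ₀, hKd⟩ := hK ℓ' hℓ'
  obtain ⟨hB, hS⟩ := hKd δ₀ hδ₀.le le_rfl
  refine ⟨δ₀ / 2, by positivity, fun c hc F hF χ hχ => ?_⟩
  obtain ⟨hφ, hE⟩ := hG (δ₀ / 2) (by positivity) c hc F hF χ hχ
  rw [show 2 * (δ₀ / 2) = δ₀ by ring] at hφ hE
  obtain ⟨D, hD⟩ := hB.dec
  have hn : Even (2 * m) := even_two_mul m
  have hn' : 2 ≤ 2 * m := by omega
  have hw := wt_tw hF₀ hℓ' hδ₀.le
  have hsys := isSys g a ha hF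
  -- the commutator relation for all the functions of the expansion
  have h5 : ∀ t : ℝ, 0 < t → ∀ (α : Ind G m n) (j : Fin (2 * m)),
      KEq g.vol (fun x y => ((psi a χ s h α j x - psi a χ s h α j y : ℝ) : ℂ) • r t x y)
      (fun x y => (t : ℂ) • comp g.vol (r t)
        (fun x y => cd C g (psi a χ s h α j) x * r t x y) x y) := by
    intro t ht α j
    obtain ⟨c', hc'⟩ := hB.loc t t ht
    rcases psi_cases a χ s h α j with ⟨γ, e1⟩ | ⟨i, e1⟩
    · rw [e1]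
      exact hP.comm t ht _ (hχ.smooth.comp (a.smooth _)) (Z0_supp a hχ γ)
    · choose t' ht' using hs.add
      rw [e1]
      exact comm_add ha hF₀ hp hP (hs.smooth i) (θ := fun γ => t' γ i)
        (fun γ y => ht' γ y i) hℓ' (fun γ => hθ γ (t' γ) (ht' γ) i) hδ₀ ht (hc' t le_rfl le_rfl)
  have hzero : ∀ t : ℝ, 0 < t → PL g.vol (trC m) F C.eps (psi0 a χ c)
      (fun α j => cd C g (psi a χ s h α j)) (ρ t) = 0 := fun t ht =>
    PL_eq_zero (fun x y => tr_mul_comm x y) hsys C.eps_sq hU hn hn' hw hφ hE hB.loc hP.measρ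
      hP.sq hP.half hP.res hP.eqv h5 hD ht
  obtain ⟨κ, hκ, hlim⟩ := PL_limit (I := Ind G m n) (G := G) hm
  have hcont : ∀ α : Ind G m n, Continuous (psi0 a χ c α) := fun α =>
    continuous_const.mul (hχ.smooth.continuous.comp (a.smooth _).continuous)
  have hl := hlim C g a ha hF₀ hp hw hS hF.meas hF.bdd hcont
    (fun α j => by
      rcases psi_cases a χ s h α j with ⟨γ, e1⟩ | ⟨i, e1⟩
      · rw [e1]
        exact hχ.smooth.comp (a.smooth _)
      · rw [e1]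
        exact hs.smooth i) hE (finite_index C g a hp h s c hχ)
  have h0 : Tendsto (fun t : ℝ => (t : ℂ) ^ (2 * m) *
      PL g.vol (trC m) F C.eps (psi0 a χ c) (fun α j => cd C g (psi a χ s h α j)) (ρ t))
      (𝓝[>] 0) (𝓝 0) := by
    refine Tendsto.congr' ?_ tendsto_const_nhds
    filter_upwards [self_mem_nhdsWithin] with t ht
    rw [hzero t ht, mul_zero]
  have h1 := tendsto_nhds_unique hl h0
  rw [integral_congr_ae (Filter.Eventually.of_forall fun x =>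
    trace_det C g a hp h s c hχ x), integral_const_mul, Z0_vol g hF.meas] at h1
  have h2 : ((κ : ℝ) : ℂ) ≠ 0 := by exact_mod_cast hκ.ne'
  have h3 : ((2 * m).factorial : ℂ) ≠ 0 := by exact_mod_cast (2 * m).factorial_ne_zero
  have h4 := (mul_eq_zero.1 h1).resolve_left h2
  have h5 := (mul_eq_zero.1 h4).resolve_left (mul_ne_zero h3 C.tr_eps_top_ne_zero)
  exact_mod_cast h5

end Pool.Agent.Lib.MP_df705a_gt.SV
end
end
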