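import Pool.Agent.Lib.MP_df705a_gt.Mg.G090
import Pool.Agent.Lib.MP_df705a_gt.Mg.G093

section

/-!
# NV, F1bB: calculus of forms, exterior derivative

PROOFS. All by `funext j`, `cases j`, pointwise.
`dd_add`, `dd_smul`, `dd_sum`: `extDeriv_add`, `extDeriv_smul`.
`dd_ml`: `fderiv (f • ω) = f • fderiv ω + (fderiv f).smulRight ω` (`fderiv_smul`), then `alternatizeUncurryFin_add/smul`.
`dd_wd`: degree j + 2, `ω = w j`: `fderiv` of `x ↦ alternatizeUncurryFin ((fderiv f x).smulRight (ω x))` in the direction `v` is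
`alternatizeUncurryFin (B v)` with `B v u = D²f(x)(v, u) • ω x + Df(x)(u) • (Dω(x) v)`. The first summand is symmetric in
`(u, v)` (second derivative, `ContDiffAt.isSymmSndFDerivAt`), so it is killed by
`alternatizeUncurryFin_alternatizeUncurryFinCLM_comp_of_symmetric`. For the second summand add
`B' v u = Df(x)(v) • (Dω(x) u)`: `B₂ + B'` is symmetric, and the double alternatization of `B'` is
`wc (Df x) (extDeriv ω x)`. Degrees 0 and 1: both sides vanish (`w` has no component of degree `-1`; in degree 1: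
`dd (wd f w) 1 = extDeriv (0 : form) = 0` and `wd f (dd w) 1 = wc _ (dd w 0 = 0) = 0`).
`dd_wds`: induction on `p`. `pull_wd`: `wc_comp` and the chain rule. `pull_dd`: `extDeriv_pullback` (with `r = ∞` or 2).
`pull_pull`, `pull_id`: chain rule. Smoothness: `ContDiff` of `fderiv`, of the continuous linear map
`alternatizeUncurryFinCLM`, `ContDiff.continuousAlternatingMap_compContinuousLinearMap` or similar
(look into `Mathlib.Analysis.Calculus` for `compContinuousLinearMap`; the map
`(f, L) ↦ f.compContinuousLinearMap L` is polynomial: another way is `ContinuousMultilinearMap`...; in finite dimension one can also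
test smoothness on basis vectors: `w j` is smooth iff all `x ↦ w j x v` are).
Locality (`wd_congr`, ...) is immediate from the definitions.
-/

open scoped ContDiff Topology
open MeasureTheory

noncomputable section

namespace Pool.Agent.Lib.MP_df705a_gt.NV

open Pool.Agent.Lib.MP_df705a_gt.SVS (V pd jdet)
open Pool.Agent.Lib.MP_df705a_gt

variable {N : ℕ}

lemma F1bB_diff {w : TF N} (h : Sm w) (j : ℕ) (x : V N) : DifferentiableAt ℝ (w j) x :=
  ((h j).differentiable (by simp)) x

lemma F1bB_const {j : ℕ} (c : Alt N j) (x : V N) :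
    extDeriv (fun _ : V N => c) x = 0 := by
  unfold extDeriv
  rw [fderiv_fun_const]
  exact map_zero (ContinuousAlternatingMap.alternatizeUncurryFinCLM ℝ (V N) ℝ)

lemma dd_add {w w' : TF N} (h : Sm w) (h' : Sm w') : dd (w + w') = dd w + dd w' := by
  funext j
  cases j with
  | zero => exact (add_zero (0 : V N → Alt N 0)).symm
  | succ j =>
    funext x
    exact extDeriv_add (F1bB_diff h j x) (F1bB_diff h' j x)

lemma dd_smul {w : TF N} (h : Sm w) (c : ℝ) : dd (c • w) = c • dd w := by
  funext j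
  cases j with
  | zero => exact (smul_zero c).symm
  | succ j =>
    funext x
    exact extDeriv_smul c (w j)

lemma F1bB_zero : dd (0 : TF N) = 0 := by
  funext j
  cases j with
  | zero => rfl
  | succ j =>
    funext x
    exact F1bB_const (0 : Alt N j) x

lemma dd_sum {ι : Type*} (S : Finset ι) {w : ι → TF N} (h : ∀ i ∈ S, Sm (w i)) :
    dd (∑ i ∈ S, w i) = ∑ i ∈ S, dd (w i) := by
  classical
  induction S using Finset.induction_on with
  | empty => exact F1bB_zero
  | insert a S ha ih =>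
    rw [Finset.sum_insert ha, Finset.sum_insert ha,
      dd_add (h a (Finset.mem_insert_self a S))
        (Sm.sum S fun i hi => h i (Finset.mem_insert_of_mem hi)),
      ih fun i hi => h i (Finset.mem_insert_of_mem hi)]

lemma dd_one : dd (one : TF N) = 0 := by
  funext j
  cases j with
  | zero => rfl
  | succ j =>
    funext x
    cases j with
    | zero => exact F1bB_const _ x
    | succ j => exact F1bB_const (0 : Alt N (j + 1)) x

lemma dd_ev (y : V N) (w : TF N) : dd (ev y w) = 0 := by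
  funext j
  cases j with
  | zero => rfl
  | succ j =>
    funext x
    cases j with
    | zero => exact F1bB_const _ x
    | succ j => exact F1bB_const (0 : Alt N (j + 1)) x

lemma dd_ml {w : TF N} (h : Sm w) {f : V N → ℝ} (hf : ContDiff ℝ ∞ f) :
    dd (ml f w) = wd f w + ml f (dd w) := by
  funext j
  cases j with
  | zero =>
    funext x
    show (0 : Alt N 0) = 0 + f x • (0 : Alt N 0)
    rw [smul_zero, add_zero]
  | succ j =>
    funext x
    have h1 : fderiv ℝ (fun y => f y • w j y) x =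
        f x • fderiv ℝ (w j) x + (fderiv ℝ f x).smulRight (w j x) :=
      fderiv_fun_smul ((hf.differentiable (by simp)) x) (F1bB_diff h j x)
    show ContinuousAlternatingMap.alternatizeUncurryFin (fderiv ℝ (fun y => f y • w j y) x) =
      ContinuousAlternatingMap.alternatizeUncurryFin ((fderiv ℝ f x).smulRight (w j x)) +
        f x • ContinuousAlternatingMap.alternatizeUncurryFin (fderiv ℝ (w j) x)
    rw [h1, ContinuousAlternatingMap.alternatizeUncurryFin_add,
      ContinuousAlternatingMap.alternatizeUncurryFin_smul]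
    exact add_comm _ _

/-- The derivative of `y ↦ (c y).smulRight (g y)`. -/
lemma F1bB_deriv {E F : Type*} [NormedAddCommGroup E] [NormedSpace ℝ E] [NormedAddCommGroup F]
    [NormedSpace ℝ F] {c : E → E →L[ℝ] ℝ} {g : E → F} {x : E} {c' : E →L[ℝ] E →L[ℝ] ℝ}
    {g' : E →L[ℝ] F} (hc : HasFDerivAt c c' x) (hg : HasFDerivAt g g' x) :
    ∃ G : E →L[ℝ] E →L[ℝ] F, HasFDerivAt (fun y => (c y).smulRight (g y)) G x ∧
      ∀ v u, G v u = c' v u • g x + c x u • g' v := by
  have h := (ContinuousLinearMap.smulRightL ℝ E F).hasFDerivAt_of_bilinear hc hg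
  refine ⟨_, h, fun v u => ?_⟩
  simp [add_comm]

lemma dd_wd {w : TF N} (h : Sm w) {f : V N → ℝ} (hf : ContDiff ℝ ∞ f) :
    dd (wd f w) = -wd f (dd w) := by
  funext j
  cases j with
  | zero =>
    funext x
    show (0 : Alt N 0) = -0
    rw [neg_zero]
  | succ j =>
    funext x
    cases j with
    | zero =>
      have h1 : dd (wd f w) 1 x = 0 := F1bB_const (0 : Alt N 0) x
      have h2 : wd f (dd w) 1 x = 0 := by
        show ContinuousAlternatingMap.alternatizeUncurryFin
          ((fderiv ℝ f x).smulRight (0 : Alt N 0)) = 0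
        have h3 : (fderiv ℝ f x).smulRight (0 : Alt N 0) = 0 := by
          ext v
          simp
        rw [h3]
        exact map_zero (ContinuousAlternatingMap.alternatizeUncurryFinCLM ℝ (V N) ℝ)
      show dd (wd f w) 1 x = -wd f (dd w) 1 x
      rw [h1, h2, neg_zero]
    | succ j =>
      have hf1 : ContDiff ℝ ∞ (fderiv ℝ f) := hf.fderiv_right (by simp)
      obtain ⟨G, hG, hG2⟩ := F1bB_deriv ((hf1.differentiable (by simp)) x).hasFDerivAt
        (F1bB_diff h j x).hasFDerivAt
      set A := ContinuousAlternatingMap.alternatizeUncurryFinCLM (n := j) ℝ (V N) ℝ with hA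
      set B : V N →L[ℝ] V N →L[ℝ] Alt N j := (fderiv ℝ f x).smulRight (fderiv ℝ (w j) x) with hB
      have h1 : dd (wd f w) (j + 2) x =
          ContinuousAlternatingMap.alternatizeUncurryFin (A ∘L G) := by
        have h0 : HasFDerivAt (fun y => A ((fderiv ℝ f y).smulRight (w j y))) (A ∘L G) x :=
          A.hasFDerivAt.comp x hG
        exact congrArg ContinuousAlternatingMap.alternatizeUncurryFin h0.fderiv
      have h2 : wd f (dd w) (j + 2) x =
          ContinuousAlternatingMap.alternatizeUncurryFin (A ∘L B) := by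
        show ContinuousAlternatingMap.alternatizeUncurryFin
          ((fderiv ℝ f x).smulRight (A (fderiv ℝ (w j) x))) = _
        congr 1
        ext v
        simp [hB]
      have h3 : ∀ v u, (G + B) v u = (G + B) u v := by
        intro v u
        have hs : fderiv ℝ (fderiv ℝ f) x v u = fderiv ℝ (fderiv ℝ f) x u v :=
          (hf.contDiffAt (x := x)).isSymmSndFDerivAt (by
            rw [minSmoothness_of_isRCLikeNormedField]
            exact WithTop.coe_le_coe.2 (le_top : (2 : ℕ∞) ≤ ⊤)) v u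
        have e1 : (G + B) v u = G v u + B v u := rfl
        have e2 : (G + B) u v = G u v + B u v := rfl
        have e3 : B v u = (fderiv ℝ f x v) • (fderiv ℝ (w j) x u) := rfl
        have e4 : B u v = (fderiv ℝ f x u) • (fderiv ℝ (w j) x v) := rfl
        rw [e1, e2, e3, e4, hG2, hG2, hs]
        abel
      have h4 : ContinuousAlternatingMap.alternatizeUncurryFin (A ∘L (G + B)) = 0 :=
        ContinuousAlternatingMap.alternatizeUncurryFin_alternatizeUncurryFinCLM_comp_of_symmetric
          h3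
      rw [ContinuousLinearMap.comp_add, ContinuousAlternatingMap.alternatizeUncurryFin_add,
        ← h1, ← h2] at h4
      exact eq_neg_of_add_eq_zero_left h4

lemma F1bB_wd_smul (f : V N → ℝ) (c : ℝ) (w : TF N) : wd f (c • w) = c • wd f w := by
  funext j x
  exact congrFun (wc_smul c (fderiv ℝ f x) fun i => w i x) j

lemma dd_wds {w : TF N} (h : Sm w) {p : ℕ} {f : Fin p → V N → ℝ} (hf : ∀ i, ContDiff ℝ ∞ (f i)) :
    dd (wds p f w) = (-1 : ℝ) ^ p • wds p f (dd w) := by
  induction p with
  | zero =>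
    rw [pow_zero, one_smul]
    rfl
  | succ p ih =>
    have hf' : ∀ i, ContDiff ℝ ∞ (Fin.tail f i) := fun i => hf i.succ
    rw [wds_succ, dd_wd (h.wds hf') (hf 0), ih hf', F1bB_wd_smul, wds_succ, pow_succ, mul_neg_one]
    exact (neg_smul _ _).symm

end Pool.Agent.Lib.MP_df705a_gt.NV
end
end

section

/-!
# NV, F7a: the forms `t_p` and the cocycle

PROOFS. `KK` is linear on smooth forms (continuous integrands), `KK 0 = 0`, `KK (pull _ (ev y w)) = 0` because the component
of degree `0` does not enter into `KK` and all the others vanish.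
`KG_homotopy`: `pull (a.act g⁻¹)` applied to `homotopy` for `pull (a.act g) w` (`pull_dd`, `pull_pull`, `a.act g⁻¹ (a.act g y) = y`,
`pull (a.act g⁻¹) (ev 0 (pull (a.act g) w)) = ev (a.act g 0) w`: in degree 0 a composition with a linear map does nothing,
`ext v`, `Subsingleton.elim`).
`pull_KG`: `pull (γ⁻¹) (pull (g⁻¹) _) = pull ((γ g)⁻¹) _` and `pull (γ g) (pull (γ⁻¹) w) = pull g w` (`pull_pull`, `a.mul`).
`Sm_tt`, `pull_tt`, `tt_deg`: induction on `p`.
`dd_tt`: induction on `p`. `dd (tt (p+1) g) = dd (K_{g 0} (tt p (tail g))) = tt p (tail g) - K_{g 0} (dd (tt p (tail g)))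
- ev (g_0 0) (tt p (tail g))`; for `p = 0`, `dd w = 0`; for `p = p' + 1` the induction hypothesis is
`dd (tt p (tail g)) = del (tt p') (tail g) - ev _ _`, `K_{g 0}` kills `ev`, and
`K_{g 0} (tt p' (fun j => tail g (i.succAbove j))) = tt p (fun j => g (i.succ.succAbove j))`; `Fin.sum_univ_succ`.
`del_del`: for fixed `x, j`: the linear extension of `B` to the chains `Comb.C G p` and `Comb.d_d` of `Comb/A1.lean`
(`(Finsupp.linearCombination ℝ B) (Comb.d (Comb.d (single g 1))) = del (del B) g`; `TF N` is a real vector space).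
`del_tt`: `tt (n+1) g = 0` by `tt_deg`, so `dd_tt` gives `del (tt n) g = ev (g_0 0) (tt n (tail g))`; degree 0: `ext v`.
`cc_inv`: `pull_tt` in degree 0. `cc_coc`: `del_tt`, `del_del`, evaluate in degree `0` at the point `0` and `![]`.
-/

open scoped ContDiff Topology
open MeasureTheory

noncomputable section

namespace Pool.Agent.Lib.MP_df705a_gt.NV

open Pool.Agent.Lib.MP_df705a_gt.SVS (V pd jdet)
open Pool.Agent.Lib.MP_df705a_gt

variable {N : ℕ} {G : Type*} [Group G]

variable (a : SVS.Act G N)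

private theorem F7a_pull_zero (Φ : V N → V N) : pull Φ (0 : TF N) = 0 := by
  have h := pull_smul Φ (0 : ℝ) (0 : TF N)
  rwa [zero_smul, zero_smul] at h

private theorem F7a_pull_sub (Φ : V N → V N) (w w' : TF N) :
    pull Φ (w - w') = pull Φ w - pull Φ w' := by
  have h := pull_add Φ (w - w') w'
  rw [sub_add_cancel] at h
  rw [h, add_sub_cancel_right]

/-- the integrand of the homotopy operator -/
private def F7a_I (w : TF N) (j : ℕ) (x : V N) (t : ℝ) : Alt N j :=
  t ^ j • (w (j + 1) (t • x)).curryLeft x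

private theorem F7a_I_cont {w : TF N} (h : Sm w) (j : ℕ) (x : V N) :
    Continuous (F7a_I w j x) := by
  have h1 : Continuous fun t : ℝ => w (j + 1) (t • x) :=
    (h (j + 1)).continuous.comp (continuous_id.smul continuous_const)
  have h2 : Continuous fun t : ℝ => (w (j + 1) (t • x)).curryLeft x :=
    ((ContinuousAlternatingMap.curryLeftLI).continuous.comp h1).clm_apply continuous_const
  exact (continuous_id.pow j).smul h2

private theorem F7a_KK_eq (w : TF N) (j : ℕ) (x : V N) :
    KK w j x = ∫ t in (0 : ℝ)..1, F7a_I w j x t := rfl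

private theorem F7a_I_add (w w' : TF N) (j : ℕ) (x : V N) (t : ℝ) :
    F7a_I (w + w') j x t = F7a_I w j x t + F7a_I w' j x t := by
  unfold F7a_I
  rw [← smul_add]
  rfl

private theorem F7a_I_smul (c : ℝ) (w : TF N) (j : ℕ) (x : V N) (t : ℝ) :
    F7a_I (c • w) j x t = c • F7a_I w j x t := by
  unfold F7a_I
  rw [smul_comm]
  rfl

private theorem F7a_KK_add {w w' : TF N} (h : Sm w) (h' : Sm w') :
    KK (w + w') = KK w + KK w' := by
  funext j x
  show KK (w + w') j x = KK w j x + KK w' j x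
  rw [F7a_KK_eq, F7a_KK_eq, F7a_KK_eq, ← intervalIntegral.integral_add
    ((F7a_I_cont h j x).intervalIntegrable 0 1) ((F7a_I_cont h' j x).intervalIntegrable 0 1)]
  simp only [F7a_I_add]

private theorem F7a_KK_smul (c : ℝ) (w : TF N) : KK (c • w) = c • KK w := by
  funext j x
  show KK (c • w) j x = c • KK w j x
  rw [F7a_KK_eq, F7a_KK_eq, ← intervalIntegral.integral_smul]
  simp only [F7a_I_smul]

private theorem F7a_KK_zero : KK (0 : TF N) = 0 := by
  have h := F7a_KK_smul (0 : ℝ) (0 : TF N)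
  rwa [zero_smul, zero_smul] at h

private theorem F7a_act_inv_act (g : G) (y : V N) : a.act g⁻¹ (a.act g y) = y := by
  rw [← a.mul, inv_mul_cancel, a.one]

private theorem F7a_act_act_inv (g : G) (y : V N) : a.act g (a.act g⁻¹ y) = y := by
  rw [← a.mul, mul_inv_cancel, a.one]

theorem Sm_KG {w : TF N} (h : Sm w) (g : G) : Sm (KG a g w) :=
  (Sm_KK (h.pull (a.smooth g))).pull (a.smooth g⁻¹)

theorem KG_zero (g : G) : KG a g (0 : TF N) = 0 := by
  unfold KG
  rw [F7a_pull_zero, F7a_KK_zero, F7a_pull_zero]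

theorem KG_add {w w' : TF N} (h : Sm w) (h' : Sm w') (g : G) :
    KG a g (w + w') = KG a g w + KG a g w' := by
  unfold KG
  rw [pull_add, F7a_KK_add (h.pull (a.smooth g)) (h'.pull (a.smooth g)), pull_add]

theorem KG_smul (c : ℝ) (w : TF N) (g : G) : KG a g (c • w) = c • KG a g w := by
  unfold KG
  rw [pull_smul, F7a_KK_smul, pull_smul]

theorem KG_sum {ι : Type*} (S : Finset ι) {w : ι → TF N} (h : ∀ i ∈ S, Sm (w i)) (g : G) :
    KG a g (∑ i ∈ S, w i) = ∑ i ∈ S, KG a g (w i) := by
  classical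
  induction S using Finset.induction_on with
  | empty => simp only [Finset.sum_empty, KG_zero]
  | insert i S hi ih =>
    rw [Finset.sum_insert hi, Finset.sum_insert hi,
      KG_add a (h i (Finset.mem_insert_self i S))
        (Sm.sum S fun k hk => h k (Finset.mem_insert_of_mem hk)),
      ih fun k hk => h k (Finset.mem_insert_of_mem hk)]

theorem KG_ev (y : V N) (w : TF N) (g : G) : KG a g (ev y w) = 0 := by
  have h : KK (pull (a.act g) (ev y w)) = 0 := by
    have e : ∀ (j : ℕ) (x : V N) (t : ℝ), F7a_I (pull (a.act g) (ev y w)) j x t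
        = F7a_I (0 : TF N) j x t := fun j x t => rfl
    funext j x
    rw [F7a_KK_eq]
    simp only [e]
    rw [← F7a_KK_eq, F7a_KK_zero]
  unfold KG
  rw [h, F7a_pull_zero]

private theorem F7a_pull_ev (g : G) (w : TF N) :
    pull (a.act g⁻¹) (ev 0 (pull (a.act g) w)) = ev (a.act g 0) w := by
  funext j x
  cases j with
  | zero =>
    ext v
    show w 0 (a.act g 0) _ = w 0 (a.act g 0) v
    exact congrArg _ (Subsingleton.elim _ _)
  | succ j => rfl

theorem KG_homotopy {w : TF N} (h : Sm w) (g : G) :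
    dd (KG a g w) + KG a g (dd w) = w - ev (a.act g 0) w := by
  have hu : Sm (pull (a.act g) w) := h.pull (a.smooth g)
  have h1 := congrArg (pull (a.act g⁻¹)) (homotopy hu)
  rw [pull_add, F7a_pull_sub, F7a_pull_ev, pull_pull (a.smooth g⁻¹) (a.smooth g)] at h1
  have h2 : (fun y => a.act g (a.act g⁻¹ y)) = fun y => y := by
    funext y
    exact F7a_act_act_inv a g y
  rw [h2, pull_id, pull_dd (a.smooth g⁻¹) (Sm_KK hu), ← pull_dd (a.smooth g) h] at h1
  exact h1

theorem pull_KG (γ g : G) {w : TF N} (h : Sm w) :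
    pull (a.act γ⁻¹) (KG a g w) = KG a (γ * g) (pull (a.act γ⁻¹) w) := by
  unfold KG
  rw [pull_pull (a.smooth γ⁻¹) (a.smooth g⁻¹), pull_pull (a.smooth (γ * g)) (a.smooth γ⁻¹)]
  have h1 : (fun y => a.act γ⁻¹ (a.act (γ * g) y)) = a.act g := by
    funext y
    rw [a.mul, F7a_act_inv_act]
  have h2 : (fun y => a.act g⁻¹ (a.act γ⁻¹ y)) = a.act (γ * g)⁻¹ := by
    funext y
    rw [← a.mul, mul_inv_rev]
  rw [h1, h2]

end Pool.Agent.Lib.MP_df705a_gt.NV
end
end

section

/-!
# NV, F7b: the forms `t_p` and the cocycle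

PROOFS. `KK` is linear on smooth forms (continuous integrands), `KK 0 = 0`, `KK (pull _ (ev y w)) = 0` because the component
of degree `0` does not enter into `KK` and all the others vanish.
`KG_homotopy`: `pull (a.act g⁻¹)` applied to `homotopy` for `pull (a.act g) w` (`pull_dd`, `pull_pull`, `a.act g⁻¹ (a.act g y) = y`,
`pull (a.act g⁻¹) (ev 0 (pull (a.act g) w)) = ev (a.act g 0) w`: in degree 0 a composition with a linear map does nothing,
`ext v`, `Subsingleton.elim`).
`pull_KG`: `pull (γ⁻¹) (pull (g⁻¹) _) = pull ((γ g)⁻¹) _` and `pull (γ g) (pull (γ⁻¹) w) = pull g w` (`pull_pull`, `a.mul`).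
`Sm_tt`, `pull_tt`, `tt_deg`: induction on `p`.
`dd_tt`: induction on `p`. `dd (tt (p+1) g) = dd (K_{g 0} (tt p (tail g))) = tt p (tail g) - K_{g 0} (dd (tt p (tail g)))
- ev (g_0 0) (tt p (tail g))`; for `p = 0`, `dd w = 0`; for `p = p' + 1` the induction hypothesis is
`dd (tt p (tail g)) = del (tt p') (tail g) - ev _ _`, `K_{g 0}` kills `ev`, and
`K_{g 0} (tt p' (fun j => tail g (i.succAbove j))) = tt p (fun j => g (i.succ.succAbove j))`; `Fin.sum_univ_succ`.
`del_del`: for fixed `x, j`: the linear extension of `B` to the chains `Comb.C G p` and `Comb.d_d` of `Comb/A1.lean`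
(`(Finsupp.linearCombination ℝ B) (Comb.d (Comb.d (single g 1))) = del (del B) g`; `TF N` is a real vector space).
`del_tt`: `tt (n+1) g = 0` by `tt_deg`, so `dd_tt` gives `del (tt n) g = ev (g_0 0) (tt n (tail g))`; degree 0: `ext v`.
`cc_inv`: `pull_tt` in degree 0. `cc_coc`: `del_tt`, `del_del`, evaluate in degree `0` at the point `0` and `![]`.
-/

open scoped ContDiff Topology
open MeasureTheory

noncomputable section

namespace Pool.Agent.Lib.MP_df705a_gt.NV

open Pool.Agent.Lib.MP_df705a_gt.SVS (V pd jdet)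
open Pool.Agent.Lib.MP_df705a_gt

variable {N : ℕ} {G : Type*} [Group G]

variable (a : SVS.Act G N)

theorem Sm_tt {w : TF N} (h : Sm w) (p : ℕ) (g : Fin p → G) : Sm (tt a w p g) := by
  induction p with
  | zero => exact h
  | succ p ih => exact Sm_KG a (ih (Fin.tail g)) (g 0)

theorem pull_tt {w : TF N} (h : Sm w) (hinv : ∀ γ, pull (a.act γ) w = w) (γ : G) (p : ℕ)
    (g : Fin p → G) : pull (a.act γ⁻¹) (tt a w p g) = tt a w p fun i => γ * g i := by
  induction p with
  | zero => exact hinv γ⁻¹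
  | succ p ih =>
    show pull (a.act γ⁻¹) (KG a (g 0) (tt a w p (Fin.tail g))) =
      KG a (γ * g 0) (tt a w p fun i => γ * Fin.tail g i)
    rw [pull_KG a γ (g 0) (Sm_tt a h p _), ih]

private theorem F7b_KG_deg {w : TF N} {j : ℕ} (h : w (j + 1) = 0) (g : G) : KG a g w j = 0 := by
  have h1 : KK (pull (a.act g) w) j = 0 := by
    funext x
    show ∫ t in (0 : ℝ)..1, t ^ j • ((w (j + 1) (a.act g (t • x))).compContinuousLinearMap
      (fderiv ℝ (a.act g) (t • x))).curryLeft x = 0
    have h2 : ∀ t : ℝ, t ^ j • ((w (j + 1) (a.act g (t • x))).compContinuousLinearMap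
        (fderiv ℝ (a.act g) (t • x))).curryLeft x = 0 := by
      intro t
      rw [h]
      ext v
      simp
    simp only [h2, intervalIntegral.integral_zero]
  funext x
  show (KK (pull (a.act g) w) j (a.act g⁻¹ x)).compContinuousLinearMap _ = 0
  rw [h1]
  ext v
  simp

theorem tt_deg {w : TF N} {n : ℕ} (hdeg : ∀ j, j ≠ n → w j = 0) (p : ℕ) (g : Fin p → G) (j : ℕ)
    (hj : j + p ≠ n) : tt a w p g j = 0 := by
  induction p generalizing j with
  | zero => exact hdeg j hj
  | succ p ih => exact F7b_KG_deg a (ih (Fin.tail g) (j + 1) (by omega)) (g 0)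

theorem dd_tt {w : TF N} (h : Sm w) (hd : dd w = 0) (p : ℕ) (g : Fin (p + 1) → G) :
    dd (tt a w (p + 1) g) = del (tt a w p) g - ev (a.act (g 0) 0) (tt a w p (Fin.tail g)) := by
  induction p with
  | zero =>
    have h1 := KG_homotopy a h (g 0)
    rw [hd, KG_zero, add_zero] at h1
    have h2 : del (tt a w 0) g = w := by
      unfold del
      rw [Fin.sum_univ_one]
      show ((-1 : ℝ) ^ 0) • w = w
      rw [pow_zero, one_smul]
    rw [h2]
    exact h1
  | succ p ih =>
    have h1 := KG_homotopy a (Sm_tt a h (p + 1) (Fin.tail g)) (g 0)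
    rw [ih (Fin.tail g)] at h1
    have h2 : KG a (g 0) (del (tt a w p) (Fin.tail g) -
        ev (a.act (Fin.tail g 0) 0) (tt a w p (Fin.tail (Fin.tail g)))) =
        ∑ i : Fin (p + 1), (-1 : ℝ) ^ (i : ℕ) • tt a w (p + 1)
          fun j => g (i.succ.succAbove j) := by
      have h3 : del (tt a w p) (Fin.tail g) -
          ev (a.act (Fin.tail g 0) 0) (tt a w p (Fin.tail (Fin.tail g))) =
          del (tt a w p) (Fin.tail g) + (-1 : ℝ) •
            ev (a.act (Fin.tail g 0) 0) (tt a w p (Fin.tail (Fin.tail g))) := by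
        rw [sub_eq_add_neg]
        congr 1
        exact (neg_one_smul ℝ _).symm
      have h4 : ∀ i : Fin (p + 1), Sm ((-1 : ℝ) ^ (i : ℕ) •
          tt a w p fun j => Fin.tail g (i.succAbove j)) := fun i =>
        (Sm_tt a h p _).smul _
      have h5 : Sm (del (tt a w p) (Fin.tail g)) := Sm.sum _ fun i _ => h4 i
      rw [h3, KG_add a h5 ((Sm_ev _ _).smul _), KG_smul, KG_ev, smul_zero, add_zero]
      unfold del
      rw [KG_sum a _ fun i _ => h4 i]
      refine Finset.sum_congr rfl fun i _ => ?_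
      rw [KG_smul]
      congr 1
      show KG a (g 0) (tt a w p fun j => Fin.tail g (i.succAbove j)) =
        KG a (g (i.succ.succAbove 0)) (tt a w p (Fin.tail fun j => g (i.succ.succAbove j)))
      rw [Fin.succ_succAbove_zero]
      congr 2
      funext j
      show g (i.succAbove j).succ = g (i.succ.succAbove j.succ)
      rw [Fin.succ_succAbove_succ]
    rw [h2] at h1
    have h6 : del (tt a w (p + 1)) g = tt a w (p + 1) (Fin.tail g) -
        ∑ i : Fin (p + 1), (-1 : ℝ) ^ (i : ℕ) • tt a w (p + 1)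
          fun j => g (i.succ.succAbove j) := by
      unfold del
      rw [Fin.sum_univ_succ, sub_eq_add_neg, ← Finset.sum_neg_distrib]
      congr 1
      · rw [Fin.val_zero, pow_zero, one_smul]
        congr 1
      · refine Finset.sum_congr rfl fun i _ => ?_
        rw [Fin.val_succ, pow_succ, mul_neg_one]
        exact neg_smul ((-1 : ℝ) ^ (i : ℕ)) (tt a w (p + 1) fun j => g (i.succ.succAbove j))
    rw [h6]
    have h7 : dd (tt a w (p + 1 + 1) g) = tt a w (p + 1) (Fin.tail g) -
        ev (a.act (g 0) 0) (tt a w (p + 1) (Fin.tail g)) -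
        ∑ i : Fin (p + 1), (-1 : ℝ) ^ (i : ℕ) • tt a w (p + 1)
          fun j => g (i.succ.succAbove j) := eq_sub_of_add_eq h1
    rw [h7]
    abel

theorem del_del {p : ℕ} (B : (Fin p → G) → TF N) (g : Fin (p + 2) → G) : del (del B) g = 0 := by
  obtain ⟨Φ, hΦ⟩ : ∃ Φ : Comb.C G p →ₗ[ℝ] TF N, Φ = Finsupp.linearCombination ℝ B := ⟨_, rfl⟩
  have h1 : ∀ x : Fin (p + 1) → G, Φ (Comb.dS x) = del B x := by
    intro x
    unfold Comb.dS del
    rw [map_sum]
    refine Finset.sum_congr rfl fun i _ => ?_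
    rw [hΦ, Finsupp.linearCombination_single]
  have h2 : Φ (Comb.d (Comb.d (Finsupp.single g (1 : ℝ)))) = del (del B) g := by
    rw [Comb.d_single, one_smul]
    unfold Comb.dS
    rw [map_sum, map_sum]
    refine Finset.sum_congr rfl fun i _ => ?_
    rw [Comb.d_single, map_smul, h1]
  rw [← h2, Comb.d_d, map_zero]

private theorem F7b_ev (y : V N) (w : TF N) : ev y w = (w 0 y ![]) • one := by
  funext j
  cases j with
  | zero =>
    funext x
    ext v
    show w 0 y v = w 0 y ![] * 1
    rw [mul_one, Subsingleton.elim v ![]]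
  | succ j =>
    show (0 : V N → Alt N (j + 1)) = (w 0 y ![]) • (0 : V N → Alt N (j + 1))
    rw [smul_zero]

/-- The cocycle `c(g_0, …, g_n)`: the value of the function `t_n(g_1, …, g_n)` at `g_0 0`. -/
def cc (w : TF N) (n : ℕ) (g : Fin (n + 1) → G) : ℝ :=
  tt a w n (Fin.tail g) 0 (a.act (g 0) 0) ![]

theorem del_tt {w : TF N} (h : Sm w) (hd : dd w = 0) {n : ℕ} (hdeg : ∀ j, j ≠ n → w j = 0)
    (g : Fin (n + 1) → G) : del (tt a w n) g = cc a w n g • one := by
  have h1 : tt a w (n + 1) g = 0 := by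
    funext j
    exact tt_deg a hdeg (n + 1) g j (by omega)
  have h2 := dd_tt a h hd n g
  have h3 : dd (0 : TF N) = 0 := by
    have h4 := dd_smul h (0 : ℝ)
    rwa [zero_smul, zero_smul] at h4
  rw [h1, h3] at h2
  rw [(sub_eq_zero.1 h2.symm), F7b_ev]
  rfl

theorem cc_inv {w : TF N} (h : Sm w) (hinv : ∀ γ, pull (a.act γ) w = w) {n : ℕ} (γ : G)
    (g : Fin (n + 1) → G) : cc a w n (fun i => γ * g i) = cc a w n g := by
  unfold cc
  have h1 := pull_tt a h hinv γ n (Fin.tail g)
  show tt a w n (fun i => γ * Fin.tail g i) 0 (a.act (γ * g 0) 0) ![] = _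
  rw [← h1]
  show tt a w n (Fin.tail g) 0 (a.act γ⁻¹ (a.act (γ * g 0) 0))
    (fun i => fderiv ℝ (a.act γ⁻¹) (a.act (γ * g 0) 0) (![] i)) = _
  rw [← a.mul, inv_mul_cancel_left]
  congr 1
  exact Subsingleton.elim _ _

theorem cc_coc {w : TF N} (h : Sm w) (hd : dd w = 0) {n : ℕ} (hdeg : ∀ j, j ≠ n → w j = 0)
    (g : Fin (n + 2) → G) :
    ∑ i : Fin (n + 2), (-1 : ℝ) ^ (i : ℕ) * cc a w n (fun j => g (i.succAbove j)) = 0 := by
  have h1 := del_del (tt a w n) g
  have h2 : del (del (tt a w n)) g = (∑ i : Fin (n + 2), (-1 : ℝ) ^ (i : ℕ) *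
      cc a w n (fun j => g (i.succAbove j))) • (one : TF N) := by
    rw [Finset.sum_smul]
    show ∑ i : Fin (n + 2), (-1 : ℝ) ^ (i : ℕ) • del (tt a w n) (fun j => g (i.succAbove j)) = _
    refine Finset.sum_congr rfl fun i _ => ?_
    rw [del_tt a h hd hdeg, smul_smul]
  rw [h2] at h1
  have h3 := congrFun (congrFun h1 0) 0
  have h4 := congrArg (fun f : Alt N 0 => f ![]) h3
  have h5 : (∑ i : Fin (n + 2), (-1 : ℝ) ^ (i : ℕ) *
      cc a w n (fun j => g (i.succAbove j))) * 1 = 0 := h4
  rwa [mul_one] at h5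

end Pool.Agent.Lib.MP_df705a_gt.NV
end
end

section

/-!
# NV, F8cA: the sum of the terms `XX` is zero

PROOFS. `XX_supp`: if `g 0 ∉ S` then `χ_{g 0} = 0` wherever `dχ ≠ 0` (`fderiv χ y ≠ 0` implies `y ∈ tsupport χ`); if
`g i.succ ∉ S` then `dχ_{g i.succ} = 0` wherever `dχ ≠ 0`, and a product `wcs` with a zero covector vanishes (induction on `p`
with `wc_zero_left`, `wc_zero`); so the integrand is 0.

`XX_eq`: change of variables `int_act` with `γ = g 0` for the form
`ml (tr a χ (g 0)) (wd χ (wds p _ (wds k (co s) (tt a w (p + 1) g))))` (`top_ml`): with `pull_ml, pull_wd, pull_wds`,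
`χ_{g 0}(γ y) = χ(y)`, `χ(γ y) = χ_{γ⁻¹}(y)`, `χ_{g_i}(γ y) = χ_{γ⁻¹ g_i}(y)`, `s(γ y) = s(y) + c` (so that the
differentials of the coordinates are the same: `wds k (fun j y => s (γ y) j) = wds k (co s)`, by `funext` and `fderiv_add_const`),
`pull (a.act γ) (tt a w (p + 1) g) = tt a w (p + 1) (γ⁻¹ g)` (`pull_tt` for `γ⁻¹`), `γ⁻¹ g_0 = 1`.

`YY_sum`: for fixed `g'` the sum over `h` has its support in `S` (as for `XX_supp`), so it is a finite sum; exchange it
with the integral (continuous integrands with compact support) and use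
`∑_{h ∈ S} fderiv χ_h y = 0` on `tsupport χ` (`wc_sum_left`, `wc_zero_left`; outside of `tsupport χ` the factor `χ y` is 0).

`XX_sum`: `finsum_congr XX_eq`, then the bijection `g ↦ ((g 0)⁻¹, fun i => (g 0)⁻¹ * g i.succ)` from `Fin (p + 1) → G` onto
`G × (Fin p → G)` (inverse `(h, g') ↦ Fin.cons h⁻¹ (fun i => h⁻¹ * g' i)`), `finsum_comp_equiv` /
`finsum_eq_of_bijective`, and `finsum_curry` (finite support: `h ∈ S`, `g' i ∈ S`) with the sum over `h` inside (`Equiv.prodComm`).
-/

open scoped ContDiff Topology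
open MeasureTheory

noncomputable section

namespace Pool.Agent.Lib.MP_df705a_gt.NV

open Pool.Agent.Lib.MP_df705a_gt.SVS (V pd jdet)
open Pool.Agent.Lib.MP_df705a_gt

variable {N : ℕ} {G : Type*} [Group G]

variable {a : SVS.Act G N} {χ : V N → ℝ} {k n : ℕ} {s : V N → V k} {w : TF N}

/-- `∫ χ dχ_h ∧ dχ_{g' 0} ∧ … ∧ ds_1 ∧ … ∧ ds_k ∧ t_{p+1}(1, g')`. -/
def YY (a : SVS.Act G N) (χ : V N → ℝ) (s : V N → V k) (w : TF N) (p : ℕ) (h : G)
    (g' : Fin p → G) : ℝ :=
  ∫ y, χ y * top (wd (tr a χ h) (wds p (fun i => tr a χ (g' i))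
    (wds k (co s) (tt a w (p + 1) (Fin.cons 1 g'))))) y

private theorem F8cA_fd {f : V N → ℝ} {y : V N} (h : y ∉ tsupport f) : fderiv ℝ f y = 0 := by
  by_contra hne
  exact h (support_fderiv_subset ℝ (Function.mem_support.mpr hne))

private theorem F8cA_wcs {p : ℕ} (α : Fin p → V N →L[ℝ] ℝ) (θ : GA N) (i : Fin p)
    (h : α i = 0) : wcs p α θ = 0 := by
  induction p with
  | zero => exact i.elim0
  | succ p ih =>
    change wc (α 0) (wcs p (Fin.tail α) θ) = 0
    refine Fin.cases (fun h => ?_) (fun i h => ?_) i h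
    · rw [h, wc_zero_left]
    · rw [ih (Fin.tail α) i h, wc_zero]

private theorem F8cA_top_wd {f : V N → ℝ} {W : TF N} {y : V N} (h : fderiv ℝ f y = 0) :
    top (wd f W) y = 0 := by
  unfold top wd
  rw [h, wc_zero_left]
  rfl

private theorem F8cA_top_wds {f : V N → ℝ} {p : ℕ} {F : Fin p → V N → ℝ} {W : TF N} {y : V N}
    (i : Fin p) (h : fderiv ℝ (F i) y = 0) : top (wd f (wds p F W)) y = 0 := by
  have h1 : (fun l => wds p F W l y) = (0 : GA N) := by
    funext l
    have h2 := F8cA_wcs (fun i => fderiv ℝ (F i) y) (fun l => W l y) i h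
    exact congrFun h2 l
  unfold top wd
  rw [h1, wc_zero]
  rfl

theorem XX_supp (_ : Setup a χ s w n) {S : Finset G}
    (hS : ∀ g ∉ S, Disjoint (tsupport χ) (tsupport (tr a χ g))) (p : ℕ) (g : Fin (p + 1) → G)
    (h : XX a χ s w p g ≠ 0) : g ∈ Fintype.piFinset fun _ : Fin (p + 1) => S := by
  rw [Fintype.mem_piFinset]
  intro i
  by_contra hi
  apply h
  unfold XX
  rw [← integral_zero (V N) ℝ (μ := volume)]
  refine integral_congr_ae ?_
  filter_upwards with y
  have hdis := hS _ hi
  by_cases hy : y ∈ tsupport χ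
  · have hy' : y ∉ tsupport (tr a χ (g i)) := fun h' => Set.disjoint_left.mp hdis hy h'
    refine Fin.cases (fun hi hdis hy' => ?_) (fun i hi hdis hy' => ?_) i hi hdis hy'
    · have h1 : tr a χ (g 0) y = 0 := image_eq_zero_of_notMem_tsupport hy'
      rw [h1, zero_mul]
    · rw [F8cA_top_wds (F := fun i => tr a χ (g i.succ)) i (F8cA_fd hy'), mul_zero]
  · rw [F8cA_top_wd (F8cA_fd hy), mul_zero]

theorem XX_eq (H : Setup a χ s w n) (p : ℕ) (g : Fin (p + 1) → G) :
    XX a χ s w p g = YY a χ s w p (g 0)⁻¹ fun i => (g 0)⁻¹ * g i.succ := by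
  have e1 : ∀ y, tr a χ (g 0) (a.act (g 0) y) = χ y := by
    intro y
    unfold tr
    rw [← a.mul, inv_mul_cancel, a.one]
  have e2 : ∀ y, χ (a.act (g 0) y) = tr a χ (g 0)⁻¹ y := by
    intro y
    unfold tr
    rw [inv_inv]
  have e3 : ∀ (i : Fin p) y, tr a χ (g i.succ) (a.act (g 0) y) =
      tr a χ ((g 0)⁻¹ * g i.succ) y := by
    intro i y
    unfold tr
    rw [← a.mul, mul_inv_rev, inv_inv]
  obtain ⟨c, hc⟩ := H.sadd (g 0)
  have e4 : ∀ W : TF N, wds k (fun j y => co s j (a.act (g 0) y)) W = wds k (co s) W := by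
    intro W
    funext l y
    unfold wds
    congr 1
    funext i
    have h1 : (fun y => co s i (a.act (g 0) y)) = fun y => co s i y + c i := by
      funext y
      unfold co
      rw [hc]
      rfl
    change fderiv ℝ (fun y => co s i (a.act (g 0) y)) y = fderiv ℝ (co s i) y
    rw [h1]
    exact fderiv_add_const (c i)
  have e5 : pull (a.act (g 0)) (tt a w (p + 1) g) =
      tt a w (p + 1) (Fin.cons 1 fun i => (g 0)⁻¹ * g i.succ) := by
    have h1 := pull_tt a H.sm H.inv (g 0)⁻¹ (p + 1) g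
    rw [inv_inv] at h1
    rw [h1]
    congr 1
    funext i
    refine Fin.cases ?_ (fun i => ?_) i
    · rw [inv_mul_cancel]
      rfl
    · rfl
  have htr : ∀ γ, ContDiff ℝ ∞ (tr a χ γ) := fun γ => H.chi.comp (a.smooth γ⁻¹)
  have hco : ∀ j, ContDiff ℝ ∞ (co s j) := fun j => (contDiff_euclidean.mp H.ss) j
  have h1 := int_act a H.ori (g 0) (ml (tr a χ (g 0)) (wd χ (wds p (fun i => tr a χ (g i.succ))
    (wds k (co s) (tt a w (p + 1) g)))))
  have h2 : pull (a.act (g 0)) (ml (tr a χ (g 0)) (wd χ (wds p (fun i => tr a χ (g i.succ))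
      (wds k (co s) (tt a w (p + 1) g))))) =
      ml χ (wd (tr a χ (g 0)⁻¹) (wds p (fun i => tr a χ ((g 0)⁻¹ * g i.succ))
      (wds k (co s) (tt a w (p + 1) (Fin.cons 1 fun i => (g 0)⁻¹ * g i.succ))))) := by
    rw [pull_ml, pull_wd (a.smooth (g 0)) H.chi, pull_wds (a.smooth (g 0)) (fun i => htr _),
      pull_wds (a.smooth (g 0)) hco, e5, e4]
    simp_rw [e1, e2, e3]
  rw [h2] at h1
  exact h1.symm

theorem YY_supp (_ : Setup a χ s w n) {S : Finset G}
    (hS : ∀ g ∉ S, Disjoint (tsupport χ) (tsupport (tr a χ g))) (p : ℕ) (h : G) (g' : Fin p → G)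
    (hY : YY a χ s w p h g' ≠ 0) : h ∈ S ∧ ∀ i, g' i ∈ S := by
  have key : ∀ y, y ∈ tsupport χ → (∀ g ∉ S, fderiv ℝ (tr a χ g) y = 0) := by
    intro y hy g hg
    exact F8cA_fd fun h' => Set.disjoint_left.mp (hS g hg) hy h'
  constructor
  · by_contra hh
    apply hY
    unfold YY
    rw [← integral_zero (V N) ℝ (μ := volume)]
    refine integral_congr_ae ?_
    filter_upwards with y
    by_cases hy : y ∈ tsupport χ
    · rw [F8cA_top_wd (key y hy h hh), mul_zero]
    · rw [image_eq_zero_of_notMem_tsupport hy, zero_mul]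
  · intro i
    by_contra hh
    apply hY
    unfold YY
    rw [← integral_zero (V N) ℝ (μ := volume)]
    refine integral_congr_ae ?_
    filter_upwards with y
    by_cases hy : y ∈ tsupport χ
    · rw [F8cA_top_wds (F := fun i => tr a χ (g' i)) i (key y hy (g' i) hh), mul_zero]
    · rw [image_eq_zero_of_notMem_tsupport hy, zero_mul]

end Pool.Agent.Lib.MP_df705a_gt.NV
end
end

section

/-!
# NV, F8cB: the sum of the terms `XX` is zero

PROOFS. `XX_supp`: if `g 0 ∉ S` then `χ_{g 0} = 0` wherever `dχ ≠ 0` (`fderiv χ y ≠ 0` implies `y ∈ tsupport χ`); if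
`g i.succ ∉ S` then `dχ_{g i.succ} = 0` wherever `dχ ≠ 0`, and a product `wcs` with a zero covector vanishes (induction on `p`
with `wc_zero_left`, `wc_zero`); so the integrand is 0.

`XX_eq`: change of variables `int_act` with `γ = g 0` for the form
`ml (tr a χ (g 0)) (wd χ (wds p _ (wds k (co s) (tt a w (p + 1) g))))` (`top_ml`): with `pull_ml, pull_wd, pull_wds`,
`χ_{g 0}(γ y) = χ(y)`, `χ(γ y) = χ_{γ⁻¹}(y)`, `χ_{g_i}(γ y) = χ_{γ⁻¹ g_i}(y)`, `s(γ y) = s(y) + c` (so that the
differentials of the coordinates are the same: `wds k (fun j y => s (γ y) j) = wds k (co s)`, by `funext` and `fderiv_add_const`),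
`pull (a.act γ) (tt a w (p + 1) g) = tt a w (p + 1) (γ⁻¹ g)` (`pull_tt` for `γ⁻¹`), `γ⁻¹ g_0 = 1`.

`YY_sum`: for fixed `g'` the sum over `h` has its support in `S` (as for `XX_supp`), so it is a finite sum; exchange it
with the integral (continuous integrands with compact support) and use
`∑_{h ∈ S} fderiv χ_h y = 0` on `tsupport χ` (`wc_sum_left`, `wc_zero_left`; outside of `tsupport χ` the factor `χ y` is 0).

`XX_sum`: `finsum_congr XX_eq`, then the bijection `g ↦ ((g 0)⁻¹, fun i => (g 0)⁻¹ * g i.succ)` from `Fin (p + 1) → G` onto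
`G × (Fin p → G)` (inverse `(h, g') ↦ Fin.cons h⁻¹ (fun i => h⁻¹ * g' i)`), `finsum_comp_equiv` /
`finsum_eq_of_bijective`, and `finsum_curry` (finite support: `h ∈ S`, `g' i ∈ S`) with the sum over `h` inside (`Equiv.prodComm`).
-/

open scoped ContDiff Topology
open MeasureTheory

noncomputable section

namespace Pool.Agent.Lib.MP_df705a_gt.NV

open Pool.Agent.Lib.MP_df705a_gt.SVS (V pd jdet)
open Pool.Agent.Lib.MP_df705a_gt

variable {N : ℕ} {G : Type*} [Group G]

variable {a : SVS.Act G N} {χ : V N → ℝ} {k n : ℕ} {s : V N → V k} {w : TF N}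

private theorem F8cB_sum_apply {ι : Type*} (S : Finset ι) (θ : ι → GA N)
    (e : Fin N → V N) : (∑ i ∈ S, θ i) N e = ∑ i ∈ S, θ i N e := by
  classical
  induction S using Finset.induction_on with
  | empty => simp
  | insert i S hi ih =>
    rw [Finset.sum_insert hi, Finset.sum_insert hi, Pi.add_apply,
      ContinuousAlternatingMap.add_apply, ih]

private theorem F8cB_tr (H : Setup a χ s w n) (g : G) : ContDiff ℝ ∞ (tr a χ g) :=
  H.chi.comp (a.smooth g⁻¹)

private theorem F8cB_co (H : Setup a χ s w n) (j : Fin k) : ContDiff ℝ ∞ (co s j) :=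
  contDiff_euclidean.1 H.ss j

theorem YY_sum (H : Setup a χ s w n) (p : ℕ) (g' : Fin p → G) :
    ∑ᶠ h, YY a χ s w p h g' = 0 := by
  classical
  obtain ⟨S, hS, -, hS3⟩ := exists_fin H
  have hsub : Function.support (fun h => YY a χ s w p h g') ⊆ (S : Set G) := by
    intro h hh
    exact (YY_supp H hS p h g' hh).1
  rw [finsum_eq_sum_of_support_subset _ hsub]
  set Θ : TF N := wds p (fun i => tr a χ (g' i))
    (wds k (co s) (tt a w (p + 1) (Fin.cons 1 g'))) with hΘ
  have hΘs : Sm Θ := Sm.wds (Sm.wds (Sm_tt a H.sm _ _) (F8cB_co H)) fun i => F8cB_tr H (g' i)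
  have hint : ∀ h ∈ S, Integrable (fun y => χ y * top (wd (tr a χ h) Θ) y) := by
    intro h _
    apply Continuous.integrable_of_hasCompactSupport
    · exact H.chi.continuous.mul (Sm.top (Sm.wd hΘs (F8cB_tr H h))).continuous
    · exact H.supp.mul_right
  have h1 : ∑ h ∈ S, YY a χ s w p h g' = ∫ y, ∑ h ∈ S, χ y * top (wd (tr a χ h) Θ) y := by
    rw [integral_finsetSum S hint]
    rfl
  rw [h1]
  have h2 : (fun y => ∑ h ∈ S, χ y * top (wd (tr a χ h) Θ) y) = fun _ => (0 : ℝ) := by
    funext y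
    rw [← Finset.mul_sum]
    by_cases hy : y ∈ tsupport χ
    · have h3 : ∑ h ∈ S, top (wd (tr a χ h) Θ) y
          = wc (∑ h ∈ S, fderiv ℝ (tr a χ h) y) (fun i => Θ i y) N
            (fun i => EuclideanSpace.single i 1) := by
        rw [wc_sum_left, F8cB_sum_apply]
        rfl
      rw [h3, hS3 y hy, wc_zero_left]
      exact mul_zero _
    · have : χ y = 0 := image_eq_zero_of_notMem_tsupport hy
      rw [this, zero_mul]
  rw [h2]
  exact integral_zero _ _

private def F8cB_e (p : ℕ) : (Fin (p + 1) → G) ≃ (Fin p → G) × G where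
  toFun g := (fun i => (g 0)⁻¹ * g i.succ, (g 0)⁻¹)
  invFun x := Fin.cons x.2⁻¹ fun i => x.2⁻¹ * x.1 i
  left_inv := by
    intro g
    funext i
    refine Fin.cases ?_ ?_ i
    · simp
    · intro j
      simp
  right_inv := by
    rintro ⟨g', h⟩
    simp

theorem XX_sum (H : Setup a χ s w n) (p : ℕ) : ∑ᶠ g, XX a χ s w p g = 0 := by
  classical
  obtain ⟨S, hS, -, -⟩ := exists_fin H
  rw [finsum_congr (XX_eq H p)]
  have h1 : (∑ᶠ g : Fin (p + 1) → G, YY a χ s w p (g 0)⁻¹ fun i => (g 0)⁻¹ * g i.succ)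
      = ∑ᶠ x : (Fin p → G) × G, YY a χ s w p x.2 x.1 :=
    finsum_comp_equiv (F8cB_e p) (f := fun x : (Fin p → G) × G => YY a χ s w p x.2 x.1)
  rw [h1]
  have hfin : (Function.support fun x : (Fin p → G) × G => YY a χ s w p x.2 x.1).Finite := by
    apply ((Fintype.piFinset fun _ : Fin p => S) ×ˢ S).finite_toSet.subset
    rintro ⟨g', h⟩ hx
    obtain ⟨h2, h3⟩ := YY_supp H hS p h g' hx
    rw [Finset.mem_coe, Finset.mem_product, Fintype.mem_piFinset]
    exact ⟨h3, h2⟩
  rw [finsum_curry _ hfin]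
  have h2 : ∀ g' : Fin p → G, ∑ᶠ h : G, YY a χ s w p h g' = 0 := fun g' => YY_sum H p g'
  rw [finsum_congr h2, finsum_zero]

end Pool.Agent.Lib.MP_df705a_gt.NV
end
end

section

/-!
# NV, F8dA: the step `p → p + 1`

PROOFS. `AA_supp`: if `g i ∉ S` then `dχ_{g i} = 0` at the points of `tsupport χ`, and `wcs` with a zero covector is zero.

`BB_eq`: with `f = χ χ_{g 0}` and `η = wds p _ (wds k (co s) (tt a w (p + 1) g))`: `dd (ml f η) = wd f η + ml f (dd η)`
(`dd_ml`), `dd η = (-1)^(p + k) wds p _ (wds k _ (dd (tt ..)))` (`dd_wds` twice, `wds_smul`), and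
`∫ top (dd (ml f η)) = 0` (`stokes`; the components of `ml f η` have compact support, as `χ` has). `wd f η =
ml χ (wd χ_{g 0} η) + ml χ_{g 0} (wd χ η)` (`fderiv_mul`, `wc_add_left`, `wc_smul_left`), and
`wd (χ_{g 0}) (wds p (fun i => χ_{g i.succ}) _) = wds (p + 1) (fun i => χ_{g i}) _` (`wds_succ`). All integrands are
continuous with compact support, so the integrals split.
-/

open scoped ContDiff Topology
open MeasureTheory

noncomputable section

namespace Pool.Agent.Lib.MP_df705a_gt.NV

open Pool.Agent.Lib.MP_df705a_gt.SVS (V pd jdet)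
open Pool.Agent.Lib.MP_df705a_gt

variable {N : ℕ} {G : Type*} [Group G]

variable {a : SVS.Act G N} {χ : V N → ℝ} {k n : ℕ} {s : V N → V k} {w : TF N}

/-- The functions `χ_g` are smooth. -/
lemma F8dA_tr (H : Setup a χ s w n) (g : G) : ContDiff ℝ ∞ (tr a χ g) :=
  H.chi.comp (a.smooth g⁻¹)

/-- The coordinates of `s` are smooth. -/
lemma F8dA_co (H : Setup a χ s w n) (j : Fin k) : ContDiff ℝ ∞ (co s j) :=
  (contDiff_euclidean.1 H.ss) j

/-- A product with a zero covector vanishes. -/
lemma F8dA_wcs_zero (θ : GA N) : ∀ {p : ℕ} (α : Fin p → V N →L[ℝ] ℝ) (i : Fin p), α i = 0 →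
    wcs p α θ = 0
  | 0, _, i, _ => i.elim0
  | p + 1, α, i, hi => by
      change wc (α 0) (wcs p (Fin.tail α) θ) = 0
      rcases Fin.eq_zero_or_eq_succ i with rfl | ⟨j, rfl⟩
      · rw [hi, wc_zero_left]
      · rw [F8dA_wcs_zero θ (Fin.tail α) j hi, wc_zero]

theorem AA_supp (_ : Setup a χ s w n) {S : Finset G}
    (hS : ∀ g ∉ S, Disjoint (tsupport χ) (tsupport (tr a χ g))) (p : ℕ) (g : Fin p → G)
    (h : AA a χ s w p g ≠ 0) : g ∈ Fintype.piFinset fun _ : Fin p => S := by
  rw [Fintype.mem_piFinset]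
  intro i
  by_contra hi
  apply h
  unfold AA
  have : (fun y => χ y * top (wds p (fun i => tr a χ (g i)) (wds k (co s) (tt a w p g))) y) =
      fun _ => 0 := by
    funext y
    by_cases hy : y ∈ tsupport χ
    · have hy' : y ∉ tsupport (tr a χ (g i)) := Set.disjoint_left.1 (hS _ hi) hy
      have hf : fderiv ℝ (tr a χ (g i)) y = 0 := fderiv_of_notMem_tsupport ℝ hy'
      have hz : top (wds p (fun i => tr a χ (g i)) (wds k (co s) (tt a w p g))) y = 0 := by
        unfold top wds
        rw [F8dA_wcs_zero _ _ i hf]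
        rfl
      rw [hz, mul_zero]
    · rw [image_eq_zero_of_notMem_tsupport hy, zero_mul]
  rw [this, integral_zero]

/-- The product rule for the differential of a product. -/
lemma F8dA_wd_mul {f g : V N → ℝ} (hf : ContDiff ℝ ∞ f) (hg : ContDiff ℝ ∞ g) (η : TF N) :
    wd (fun y => f y * g y) η = ml f (wd g η) + ml g (wd f η) := by
  funext j x
  change wc (fderiv ℝ (fun y => f y * g y) x) (fun i => η i x) j =
    f x • wc (fderiv ℝ g x) (fun i => η i x) j + g x • wc (fderiv ℝ f x) (fun i => η i x) j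
  have hf' : DifferentiableAt ℝ f x := (hf.differentiable (by simp)) x
  have hg' : DifferentiableAt ℝ g x := (hg.differentiable (by simp)) x
  rw [fderiv_fun_mul hf' hg', wc_add_left, wc_smul_left, wc_smul_left]
  rfl

theorem BB_eq (H : Setup a χ s w n) (p : ℕ) (g : Fin (p + 1) → G) :
    BB a χ s w p g = -(-1) ^ (p + k) * (AA a χ s w (p + 1) g + XX a χ s w p g) := by
  have ht : Sm (tt a w (p + 1) g) := Sm_tt a H.sm _ _
  have h1 : Sm (wds k (co s) (tt a w (p + 1) g)) := ht.wds fun j => F8dA_co H j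
  set η : TF N := wds p (fun i => tr a χ (g i.succ)) (wds k (co s) (tt a w (p + 1) g)) with hη
  have h2 : Sm η := h1.wds fun i => F8dA_tr H (g i.succ)
  have hf : ContDiff ℝ ∞ fun y => χ y * tr a χ (g 0) y := H.chi.mul (F8dA_tr H (g 0))
  have hst : ∫ x, top (dd (ml (fun y => χ y * tr a χ (g 0) y) η)) x = 0 := by
    apply stokes (h2.ml hf)
    intro j
    apply HasCompactSupport.intro H.supp
    intro y hy
    change (χ y * tr a χ (g 0) y) • η j y = 0
    rw [image_eq_zero_of_notMem_tsupport hy, zero_mul, zero_smul]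
  have hdη : dd η = (-1 : ℝ) ^ (p + k) • wds p (fun i => tr a χ (g i.succ))
      (wds k (co s) (dd (tt a w (p + 1) g))) := by
    rw [hη, dd_wds h1 fun i => F8dA_tr H (g i.succ), dd_wds ht fun j => F8dA_co H j, wds_smul,
      smul_smul, pow_add]
  rw [dd_ml h2 hf, F8dA_wd_mul H.chi (F8dA_tr H (g 0)), hdη] at hst
  have hA : Sm (wd (tr a χ (g 0)) η) := h2.wd (F8dA_tr H (g 0))
  have hX : Sm (wd χ η) := h2.wd H.chi
  have hB : Sm (wds p (fun i => tr a χ (g i.succ)) (wds k (co s) (dd (tt a w (p + 1) g)))) :=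
    (ht.dd.wds fun j => F8dA_co H j).wds fun i => F8dA_tr H (g i.succ)
  have iA : Integrable fun y => χ y * top (wd (tr a χ (g 0)) η) y := by
    apply Continuous.integrable_of_hasCompactSupport
    · exact H.chi.continuous.mul hA.top.continuous
    · exact H.supp.mul_right
  have iX : Integrable fun y => tr a χ (g 0) y * top (wd χ η) y := by
    apply Continuous.integrable_of_hasCompactSupport
    · exact (F8dA_tr H (g 0)).continuous.mul hX.top.continuous
    · apply HasCompactSupport.mul_left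
      apply HasCompactSupport.intro H.supp
      intro y hy
      have hf0 : fderiv ℝ χ y = 0 := fderiv_of_notMem_tsupport ℝ hy
      unfold top wd
      rw [hf0, wc_zero_left]
      rfl
  have iB : Integrable fun y => χ y * tr a χ (g 0) y * top (wds p (fun i => tr a χ (g i.succ))
      (wds k (co s) (dd (tt a w (p + 1) g)))) y := by
    apply Continuous.integrable_of_hasCompactSupport
    · exact hf.continuous.mul hB.top.continuous
    · exact (H.supp.mul_right).mul_right
  have hAA : AA a χ s w (p + 1) g = ∫ y, χ y * top (wd (tr a χ (g 0)) η) y := rfl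
  have hXX : XX a χ s w p g = ∫ y, tr a χ (g 0) y * top (wd χ η) y := rfl
  have hBB : BB a χ s w p g = ∫ y, χ y * tr a χ (g 0) y *
    top (wds p (fun i => tr a χ (g i.succ)) (wds k (co s) (dd (tt a w (p + 1) g)))) y := rfl
  have hsum : ∀ y, top (ml χ (wd (tr a χ (g 0)) η) + ml (tr a χ (g 0)) (wd χ η) +
      ml (fun y => χ y * tr a χ (g 0) y) ((-1 : ℝ) ^ (p + k) •
        wds p (fun i => tr a χ (g i.succ)) (wds k (co s) (dd (tt a w (p + 1) g))))) y =
      χ y * top (wd (tr a χ (g 0)) η) y + tr a χ (g 0) y * top (wd χ η) y +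
        (-1 : ℝ) ^ (p + k) * (χ y * tr a χ (g 0) y * top (wds p (fun i => tr a χ (g i.succ))
          (wds k (co s) (dd (tt a w (p + 1) g)))) y) := by
    intro y
    rw [top_add, top_add, top_ml, top_ml, top_ml, top_smul]
    ring
  simp_rw [hsum] at hst
  have iAX : Integrable fun y => χ y * top (wd (tr a χ (g 0)) η) y +
      tr a χ (g 0) y * top (wd χ η) y := iA.add iX
  rw [integral_add iAX (iB.const_mul _), integral_add iA iX, integral_const_mul,
    ← hAA, ← hXX, ← hBB] at hst
  have hsq : ((-1 : ℝ) ^ (p + k)) * (-1) ^ (p + k) = 1 := by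
    rw [← mul_pow]; norm_num
  have : BB a χ s w p g = ((-1 : ℝ) ^ (p + k)) * ((-1) ^ (p + k) * BB a χ s w p g) := by
    rw [← mul_assoc, hsq, one_mul]
  rw [this]
  have h3 : (-1 : ℝ) ^ (p + k) * BB a χ s w p g = -(AA a χ s w (p + 1) g + XX a χ s w p g) := by
    linarith
  rw [h3]
  ring

end Pool.Agent.Lib.MP_df705a_gt.NV
end
end

section

/-!
# NV, F8dB: the step `p → p + 1`

PROOFS. `AA_supp`: if `g i ∉ S` then `dχ_{g i} = 0` at the points of `tsupport χ`, and `wcs` with a zero covector is zero.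

`BB_eq`: with `f = χ χ_{g 0}` and `η = wds p _ (wds k (co s) (tt a w (p + 1) g))`: `dd (ml f η) = wd f η + ml f (dd η)`
(`dd_ml`), `dd η = (-1)^(p + k) wds p _ (wds k _ (dd (tt ..)))` (`dd_wds` twice, `wds_smul`), and
`∫ top (dd (ml f η)) = 0` (`stokes`; the components of `ml f η` have compact support, as `χ` has). `wd f η =
ml χ (wd χ_{g 0} η) + ml χ_{g 0} (wd χ η)` (`fderiv_mul`, `wc_add_left`, `wc_smul_left`), and
`wd (χ_{g 0}) (wds p (fun i => χ_{g i.succ}) _) = wds (p + 1) (fun i => χ_{g i}) _` (`wds_succ`). All integrands are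
continuous with compact support, so the integrals split.

`BB_sum`: for `p < n` the form `ev (..) (tt a w p (tail g))` vanishes (`tt_deg` with `j = 0`: `0 + p ≠ n`), so
`dd (tt a w (p + 1) g) = del (tt a w p) g` (`dd_tt`). The support of `BB` is in `piFinset S` (as in `AA_supp`). Both sums
become sums over `piFinset S`; exchange with the integral; at a point `y ∈ tsupport χ` the integrands are equal:
`del` is a sum over `i : Fin (p + 1)`; the term `i = 0` is `sum_face_zero` and the terms `i = i'.succ` are `sum_face_succ`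
(with `f g = χ_g(y)`, `β g = fderiv χ_g y`, `B g = fun j => wds k (co s) (tt a w p g) j y`; `Fin.sum_univ_succ`).
Outside of `tsupport χ` both integrands are 0.

`AA_step`: `BB_sum`, `BB_eq`, `finsum_add_distrib`, `mul_finsum`, `hX`.
-/

open scoped ContDiff Topology
open MeasureTheory

noncomputable section

namespace Pool.Agent.Lib.MP_df705a_gt.NV

open Pool.Agent.Lib.MP_df705a_gt.SVS (V pd jdet)
open Pool.Agent.Lib.MP_df705a_gt

variable {N : ℕ} {G : Type*} [Group G]

variable {a : SVS.Act G N} {χ : V N → ℝ} {k n : ℕ} {s : V N → V k} {w : TF N}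

private theorem F8dB_tr (H : Setup a χ s w n) (g : G) : ContDiff ℝ ∞ (tr a χ g) :=
  H.chi.comp (a.smooth g⁻¹)

private theorem F8dB_co (H : Setup a χ s w n) (j : Fin k) : ContDiff ℝ ∞ (co s j) :=
  contDiff_euclidean.1 H.ss j

private theorem F8dB_wcs_zero {p : ℕ} (α : Fin p → V N →L[ℝ] ℝ) (i : Fin p) (hi : α i = 0)
    (θ : GA N) : wcs p α θ = 0 := by
  induction p with
  | zero => exact i.elim0
  | succ p ih =>
    show wc (α 0) (wcs p (Fin.tail α) θ) = 0
    refine Fin.cases (fun h0 => ?_) (fun j hj => ?_) i hi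
    · rw [h0, wc_zero_left]
    · rw [ih (Fin.tail α) j hj, wc_zero]

private theorem F8dB_fderiv {f : V N → ℝ} {y : V N} (h : y ∉ tsupport f) : fderiv ℝ f y = 0 := by
  by_contra hcon
  exact h (support_fderiv_subset ℝ hcon)

private def F8dB_ev (N : ℕ) : GA N →+ ℝ where
  toFun θ := θ N fun i => EuclideanSpace.single i 1
  map_zero' := rfl
  map_add' _ _ := rfl

private theorem F8dB_alg (S : Finset G) (f : G → ℝ) (hf : ∑ g ∈ S, f g = 1)
    (β : G → V N →L[ℝ] ℝ) (hβ : ∑ g ∈ S, β g = 0) (p : ℕ) (B : (Fin p → G) → GA N) :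
    ∑ g ∈ Fintype.piFinset (fun _ : Fin (p + 1) => S),
      f (g 0) • wcs p (fun j => β (g j.succ))
        (∑ i : Fin (p + 1), (-1 : ℝ) ^ (i : ℕ) • B fun j => g (i.succAbove j)) =
    ∑ g ∈ Fintype.piFinset (fun _ : Fin p => S), wcs p (fun j => β (g j)) (B g) := by
  have h1 : ∀ g : Fin (p + 1) → G, f (g 0) • wcs p (fun j => β (g j.succ))
        (∑ i : Fin (p + 1), (-1 : ℝ) ^ (i : ℕ) • B fun j => g (i.succAbove j)) =
      ∑ i : Fin (p + 1), (-1 : ℝ) ^ (i : ℕ) • (f (g 0) • wcs p (fun j => β (g j.succ))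
        (B fun j => g (i.succAbove j))) := by
    intro g
    rw [wcs_sum, Finset.smul_sum]
    refine Finset.sum_congr rfl fun i _ => ?_
    rw [wcs_smul, smul_comm]
  rw [Finset.sum_congr rfl fun g _ => h1 g, Finset.sum_comm, Fin.sum_univ_succ]
  rw [← Finset.smul_sum, sum_face_zero S f hf β p B]
  have h2 : ∀ i : Fin p, ∑ g ∈ Fintype.piFinset (fun _ : Fin (p + 1) => S),
      (-1 : ℝ) ^ ((i.succ : Fin (p + 1)) : ℕ) • (f (g 0) • wcs p (fun j => β (g j.succ))
        (B fun j => g (i.succ.succAbove j))) = 0 := by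
    intro i
    rw [← Finset.smul_sum, sum_face_succ S f β hβ p B i, smul_zero]
  rw [Finset.sum_congr rfl fun i _ => h2 i]
  simp

private theorem F8dB_supp {S : Finset G}
    (hS : ∀ g ∉ S, Disjoint (tsupport χ) (tsupport (tr a χ g))) (p : ℕ) (g : Fin (p + 1) → G)
    (h : BB a χ s w p g ≠ 0) : g ∈ Fintype.piFinset fun _ : Fin (p + 1) => S := by
  rw [Fintype.mem_piFinset]
  intro i
  by_contra hi
  apply h
  unfold BB
  rw [← integral_zero (V N) ℝ]
  congr 1
  funext y
  by_cases hy : y ∈ tsupport χ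
  · have h1 : y ∉ tsupport (tr a χ (g i)) := fun h1 => Set.disjoint_left.1 (hS _ hi) hy h1
    revert h1
    refine Fin.cases (fun h1 => ?_) (fun j h1 => ?_) i
    · rw [image_eq_zero_of_notMem_tsupport h1]
      simp
    · have h2 : top (wds p (fun i => tr a χ (g i.succ))
          (wds k (co s) (dd (tt a w (p + 1) g)))) y = 0 := by
        have h3 := F8dB_wcs_zero (fun i : Fin p => fderiv ℝ (tr a χ (g i.succ)) y) j
          (F8dB_fderiv h1) (fun l => wds k (co s) (dd (tt a w (p + 1) g)) l y)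
        show wcs p (fun i : Fin p => fderiv ℝ (tr a χ (g i.succ)) y)
          (fun l => wds k (co s) (dd (tt a w (p + 1) g)) l y) N _ = 0
        rw [h3]
        rfl
      rw [h2, mul_zero]
  · rw [image_eq_zero_of_notMem_tsupport hy]
    simp

private theorem F8dB_dd (H : Setup a χ s w n) (p : ℕ) (hp : p < n) (g : Fin (p + 1) → G) :
    dd (tt a w (p + 1) g) = del (tt a w p) g := by
  rw [dd_tt a H.sm H.closed p g]
  have h1 : ev (a.act (g 0) 0) (tt a w p (Fin.tail g)) = 0 := by
    funext j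
    cases j with
    | zero =>
      funext x
      show tt a w p (Fin.tail g) 0 (a.act (g 0) 0) = 0
      rw [tt_deg a H.deg p (Fin.tail g) 0 (by omega)]
      rfl
    | succ j => rfl
  rw [h1, sub_zero]

private theorem F8dB_del (p : ℕ) (g : Fin (p + 1) → G) (y : V N) :
    (fun j => del (tt a w p) g j y) = ∑ i : Fin (p + 1), (-1 : ℝ) ^ (i : ℕ) •
      (fun j => tt a w p (fun l => g (i.succAbove l)) j y : GA N) := by
  funext j
  unfold del
  rw [Finset.sum_apply, Finset.sum_apply, Finset.sum_apply]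
  rfl

theorem BB_sum (H : Setup a χ s w n) (p : ℕ) (hp : p < n) :
    ∑ᶠ g, BB a χ s w p g = ∑ᶠ g, AA a χ s w p g := by
  obtain ⟨S, hS1, hS2, hS3⟩ := exists_fin H
  rw [finsum_eq_finsetSum_of_support_subset (fun g => BB a χ s w p g)
      (s := Fintype.piFinset fun _ : Fin (p + 1) => S)
      (fun g hg => F8dB_supp hS1 p g hg),
    finsum_eq_finsetSum_of_support_subset (fun g => AA a χ s w p g)
      (s := Fintype.piFinset fun _ : Fin p => S)
      (fun g hg => AA_supp H hS1 p g hg)]
  unfold BB AA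
  rw [← integral_finsetSum, ← integral_finsetSum]
  · congr 1
    funext y
    by_cases hy : y ∈ tsupport χ
    · have key := F8dB_alg S (fun g => tr a χ g y) (hS2 y hy) (fun g => fderiv ℝ (tr a χ g) y)
        (hS3 y hy) p (fun g' => wcs k (fun i => fderiv ℝ (co s i) y) fun j => tt a w p g' j y)
      have key2 := congrArg (F8dB_ev N) key
      rw [map_sum, map_sum] at key2
      have h1 : ∀ g : Fin (p + 1) → G, χ y * tr a χ (g 0) y *
          top (wds p (fun i => tr a χ (g i.succ)) (wds k (co s) (dd (tt a w (p + 1) g)))) y =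
          χ y * F8dB_ev N (tr a χ (g 0) y • wcs p (fun j => fderiv ℝ (tr a χ (g j.succ)) y)
            (∑ i : Fin (p + 1), (-1 : ℝ) ^ (i : ℕ) • wcs k (fun i => fderiv ℝ (co s i) y)
              fun j => tt a w p (fun l => g (i.succAbove l)) j y)) := by
        intro g
        have h2 : (fun l => wds k (co s) (dd (tt a w (p + 1) g)) l y) =
            (∑ i : Fin (p + 1), (-1 : ℝ) ^ (i : ℕ) • wcs k (fun i => fderiv ℝ (co s i) y)
              (fun j => tt a w p (fun l => g (i.succAbove l)) j y) : GA N) := by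
          rw [F8dB_dd H p hp g]
          show wcs k (fun i => fderiv ℝ (co s i) y) (fun j => del (tt a w p) g j y) = _
          rw [F8dB_del, wcs_sum]
          exact Finset.sum_congr rfl fun i _ => wcs_smul _ _ _
        rw [mul_assoc]
        congr 1
        show tr a χ (g 0) y * wcs p (fun j => fderiv ℝ (tr a χ (g j.succ)) y)
          (fun l => wds k (co s) (dd (tt a w (p + 1) g)) l y) N _ = _
        rw [h2]
        rfl
      rw [Finset.sum_congr rfl fun g _ => h1 g, ← Finset.mul_sum, key2, Finset.mul_sum]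
      rfl
    · rw [image_eq_zero_of_notMem_tsupport hy]
      simp
  · intro g _
    apply Continuous.integrable_of_hasCompactSupport
    · exact H.chi.continuous.mul (((Sm_tt a H.sm p g).wds (F8dB_co H)).wds
        (fun i => F8dB_tr H (g i))).top.continuous
    · exact H.supp.mul_right
  · intro g _
    apply Continuous.integrable_of_hasCompactSupport
    · exact (H.chi.continuous.mul (F8dB_tr H (g 0)).continuous).mul
        ((((Sm_tt a H.sm (p + 1) g).dd).wds (F8dB_co H)).wds
        (fun i => F8dB_tr H (g i.succ))).top.continuous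
    · exact (H.supp.mul_right).mul_right

theorem AA_step (H : Setup a χ s w n) (p : ℕ) (hp : p < n)
    (hX : ∑ᶠ g, XX a χ s w p g = 0)
    (hXs : ∀ {S : Finset G}, (∀ g ∉ S, Disjoint (tsupport χ) (tsupport (tr a χ g))) →
      ∀ g, XX a χ s w p g ≠ 0 → g ∈ Fintype.piFinset fun _ : Fin (p + 1) => S) :
    ∑ᶠ g, AA a χ s w p g = -(-1) ^ (p + k) * ∑ᶠ g, AA a χ s w (p + 1) g := by
  obtain ⟨S, hS1, _, _⟩ := exists_fin H
  have hA : (Function.support fun g => AA a χ s w (p + 1) g).Finite :=
    (Finset.finite_toSet (Fintype.piFinset fun _ : Fin (p + 1) => S)).subset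
      fun g hg => AA_supp H hS1 (p + 1) g hg
  have hXf : (Function.support fun g => XX a χ s w p g).Finite :=
    (Finset.finite_toSet (Fintype.piFinset fun _ : Fin (p + 1) => S)).subset
      fun g hg => hXs hS1 g hg
  rw [← BB_sum H p hp]
  have h1 : ∀ g, BB a χ s w p g =
      -(-1) ^ (p + k) * (AA a χ s w (p + 1) g + XX a χ s w p g) := fun g => BB_eq H p g
  rw [finsum_congr h1, ← mul_finsum,
    finsum_add_distrib hA hXf, hX, add_zero]

end Pool.Agent.Lib.MP_df705a_gt.NV
end
end
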